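import Pool.Agent.K1.L2Defs

/-!
K1, Layer 2: heights of maximal ideals and transcendence degree of a two-dimensional
finitely generated domain over a field.
-/

open Polynomial

namespace Pool.Agent.K1

/-- Maximal ideals of `k[x_1..x_n]` have height `n`. -/
theorem L2R_mv_height {k : Type} [Field k] : ∀ (n : ℕ) (P : Ideal (MvPolynomial (Fin n) k)),
    P.IsMaximal → P.height = n := by
  intro n
  induction n with
  | zero =>
    intro P hP
    have h1 := Ideal.height_le_ringKrullDim_of_ne_top hP.ne_top
    rw [MvPolynomial.ringKrullDim_of_isNoetherianRing, ringKrullDim_eq_zero_of_field, zero_add] at h1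
    have h2 : P.height ≤ 0 := by
      have : ((P.height : ℕ∞) : WithBot ℕ∞) ≤ ((0 : ℕ∞) : WithBot ℕ∞) := by simpa using h1
      exact WithBot.coe_le_coe.mp this
    simpa using h2
  | succ n ih =>
    intro P hP
    let e := MvPolynomial.finSuccEquiv k n
    let P' : Ideal (Polynomial (MvPolynomial (Fin n) k)) :=
      P.comap (e.symm.toRingEquiv : Polynomial (MvPolynomial (Fin n) k) ≃+* _)
    have hP' : P'.IsMaximal := Ideal.comap_isMaximal_of_surjective _ e.symm.surjective
    have h1 : P'.height = P.height := RingEquiv.height_comap _ _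
    have hmax : (P'.comap (C : MvPolynomial (Fin n) k →+* _)).IsMaximal :=
      Polynomial.isMaximal_comap_C_of_isJacobsonRing P'
    have : P'.LiesOver (P'.comap (C : MvPolynomial (Fin n) k →+* _)) := ⟨rfl⟩
    have h2 := Polynomial.height_eq_height_add_one (P'.comap (C : MvPolynomial (Fin n) k →+* _)) P'
    rw [← h1, h2, ih _ hmax]
    push_cast
    rfl

/-- Heights do not change under contraction to an integrally closed domain over which the
ring is integral. -/
theorem L2R_height_under {R S : Type} [CommRing R] [CommRing S] [IsDomain S]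
    [IsNoetherianRing R] [IsNoetherianRing S] [Algebra R S] [Algebra.IsIntegral R S] [FaithfulSMul R S]
    [IsIntegrallyClosed R] (P : Ideal S) [P.IsPrime] : P.height = (P.under R).height := by
  apply le_antisymm
  · have hmono : StrictMono (PrimeSpectrum.comap (algebraMap R S)) := by
      intro a b hab
      exact Ideal.IsIntegral.comap_lt_comap (R := R) hab
    have h := Order.height_le_height_apply_of_strictMono _ hmono (⟨P, inferInstance⟩ : PrimeSpectrum S)
    rw [← PrimeSpectrum.height_eq_orderHeight, ← PrimeSpectrum.height_eq_orderHeight] at h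
    exact h
  · have := Ideal.height_eq_height_add_of_liesOver_of_hasGoingDown (P.under R) P
    rw [this]
    exact le_self_add

theorem L2R_key {k A : Type} [Field k] [CommRing A] [IsDomain A] [Algebra k A]
    [Algebra.FiniteType k A] : ∃ s : ℕ, (∀ 𝔪 : Ideal A, 𝔪.IsMaximal → 𝔪.height = s) ∧
      ringKrullDim A = s ∧ Algebra.trdeg k A = s := by
  obtain ⟨s, g, hinj, hfin⟩ := exists_finite_inj_algHom_of_fg k A
  let R := MvPolynomial (Fin s) k
  let _ : Algebra R A := g.toRingHom.toAlgebra
  have : IsScalarTower k R A := IsScalarTower.of_algebraMap_eq' g.comp_algebraMap.symm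
  have : Module.Finite R A := hfin
  have : Algebra.IsIntegral R A := Algebra.IsIntegral.of_finite R A
  have : FaithfulSMul R A := (faithfulSMul_iff_algebraMap_injective R A).mpr hinj
  have : IsNoetherianRing A := Algebra.FiniteType.isNoetherianRing k A
  have hht : ∀ 𝔪 : Ideal A, 𝔪.IsMaximal → 𝔪.height = s := by
    intro 𝔪 h𝔪
    rw [L2R_height_under (R := R) 𝔪]
    exact L2R_mv_height s _ (Ideal.isMaximal_comap_of_isIntegral_of_isMaximal (R := R) 𝔪)
  refine ⟨s, hht, ?_, ?_⟩
  · apply le_antisymm
    · rw [ringKrullDim_le_iff_isMaximal_height_le]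
      intro 𝔪 h𝔪
      rw [hht 𝔪 h𝔪]
      rfl
    · obtain ⟨𝔪, h𝔪⟩ := Ideal.exists_maximal A
      have := Ideal.height_le_ringKrullDim_of_ne_top h𝔪.ne_top
      rw [hht 𝔪 h𝔪] at this
      exact this
  · have h1 := trdeg_add_eq (R := k) (S := R) (A := A)
    rw [_root_.trdeg_eq_zero (R := R) (A := A), add_zero, MvPolynomial.trdeg_of_isDomain] at h1
    rw [← h1]
    simp

theorem height_of_maximal {k A : Type} [Field k] [CommRing A] [IsDomain A] [Algebra k A]
    [Algebra.FiniteType k A] (hdim : ringKrullDim A = 2) (𝔪 : Ideal A) [𝔪.IsMaximal] :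
    𝔪.height = 2 := by
  obtain ⟨s, h1, h2, -⟩ := L2R_key (k := k) (A := A)
  have hs : s = 2 := by
    rw [hdim] at h2
    exact_mod_cast h2.symm
  subst hs
  exact h1 𝔪 inferInstance

theorem trdeg_of_dim {k A : Type} [Field k] [CommRing A] [IsDomain A] [Algebra k A]
    [Algebra.FiniteType k A] (hdim : ringKrullDim A = 2) : Algebra.trdeg k A = 2 := by
  obtain ⟨s, -, h2, h3⟩ := L2R_key (k := k) (A := A)
  have hs : s = 2 := by
    rw [hdim] at h2
    exact_mod_cast h2.symm
  subst hs
  exact_mod_cast h3

end Pool.Agent.K1
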