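import Mathlib

/-!
K1, Layer 3 (K1-L3-02): regular local domains of dimension at most two are factorial; elements of
the fraction field which are integral at all primes of height one (helper78).
-/

open IsLocalRing

namespace Pool.Agent.K1

section two

variable {O : Type*} [CommRing O] [IsLocalRing O] [IsNoetherianRing O]

/-- A noetherian local ring with principal maximal ideal is a principal ideal ring. -/
theorem isPrincipalIdealRing_of_maximal (T : O) (hT : maximalIdeal O = Ideal.span {T}) :
    IsPrincipalIdealRing O := by
  refine IsPrincipalIdealRing.of_prime fun Q hQ => ?_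
  by_cases hTQ : T ∈ Q
  · have h1 : maximalIdeal O ≤ Q := by
      rw [hT, Ideal.span_singleton_le_iff_mem]
      exact hTQ
    have h2 : Q = maximalIdeal O := le_antisymm (le_maximalIdeal hQ.ne_top) h1
    rw [h2, hT]
    exact ⟨T, rfl⟩
  · have h1 : Q ≤ maximalIdeal O • Q := by
      intro q hq
      have hqm : q ∈ maximalIdeal O := le_maximalIdeal hQ.ne_top hq
      rw [hT, Ideal.mem_span_singleton'] at hqm
      obtain ⟨a, ha⟩ := hqm
      have haQ : a ∈ Q := (hQ.mem_or_mem (ha ▸ hq : a * T ∈ Q)).resolve_right hTQ
      rw [← ha, mul_comm, smul_eq_mul]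
      exact Ideal.mul_mem_mul (by rw [hT]; exact Ideal.mem_span_singleton_self T) haQ
    have h2 : Q = ⊥ :=
      Submodule.eq_bot_of_le_smul_of_le_jacobson_bot (maximalIdeal O) Q
        (IsNoetherian.noetherian Q) h1 (maximalIdeal_le_jacobson ⊥)
    rw [h2]
    exact bot_isPrincipal

/-- In a noetherian local ring whose maximal ideal is generated by two elements `S, T`, a prime
not containing `S` is principal. -/
theorem isPrincipal_of_two (S T : O) (hm : maximalIdeal O = Ideal.span {S, T}) (P : Ideal O)
    [hP : P.IsPrime] (hS : S ∉ P) : P.IsPrincipal := by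
  by_cases hun : IsUnit S
  · exfalso
    have : S ∈ maximalIdeal O := by
      rw [hm]
      exact Ideal.subset_span (Set.mem_insert _ _)
    exact (mem_maximalIdeal S).1 this hun
  have hSm : S ∈ maximalIdeal O := (mem_maximalIdeal S).2 hun
  have hne : (Ideal.span {S} : Ideal O) ≠ ⊤ := by
    rw [Ne, Ideal.span_singleton_eq_top]
    exact hun
  haveI : Nontrivial (O ⧸ (Ideal.span {S} : Ideal O)) := Ideal.Quotient.nontrivial_iff.2 hne
  haveI : IsLocalRing (O ⧸ (Ideal.span {S} : Ideal O)) :=
    IsLocalRing.of_surjective' (Ideal.Quotient.mk _) Ideal.Quotient.mk_surjective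
  have hmax : maximalIdeal (O ⧸ (Ideal.span {S} : Ideal O))
      = Ideal.span {Ideal.Quotient.mk (Ideal.span {S}) T} := by
    have h1 : (maximalIdeal O).map (Ideal.Quotient.mk (Ideal.span {S}))
        = maximalIdeal (O ⧸ (Ideal.span {S} : Ideal O)) := by
      haveI := (Ideal.Quotient.mk_surjective (I := (Ideal.span {S} : Ideal O))).isLocalHom
      exact IsLocalRing.map_maximalIdeal_of_surjective _ Ideal.Quotient.mk_surjective
    rw [← h1, hm, Ideal.map_span, Set.image_pair]
    have h2 : Ideal.Quotient.mk (Ideal.span {S}) S = 0 := by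
      rw [Ideal.Quotient.eq_zero_iff_mem]
      exact Ideal.mem_span_singleton_self S
    rw [h2, Ideal.span_insert_zero]
  haveI := isPrincipalIdealRing_of_maximal _ hmax
  obtain ⟨g', hg'⟩ := IsPrincipalIdealRing.principal (P.map (Ideal.Quotient.mk (Ideal.span {S})))
  have hg'mem : g' ∈ P.map (Ideal.Quotient.mk (Ideal.span {S})) := by
    rw [hg']
    exact Submodule.mem_span_singleton_self g'
  obtain ⟨g, hgP, hgg⟩ := (Ideal.mem_map_iff_of_surjective _ Ideal.Quotient.mk_surjective).1 hg'mem
  refine ⟨g, ?_⟩
  have hle : Ideal.span {g} ≤ P := by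
    rw [Ideal.span_singleton_le_iff_mem]
    exact hgP
  refine le_antisymm ?_ hle
  have h1 : P ≤ Ideal.span {g} ⊔ maximalIdeal O • P := by
    intro q hq
    have h2 : Ideal.Quotient.mk (Ideal.span {S}) q ∈ P.map (Ideal.Quotient.mk (Ideal.span {S})) :=
      Ideal.mem_map_of_mem _ hq
    rw [hg'] at h2
    obtain ⟨a', ha'⟩ := Submodule.mem_span_singleton.1 h2
    obtain ⟨a, rfl⟩ := Ideal.Quotient.mk_surjective a'
    rw [← hgg, smul_eq_mul, ← map_mul, eq_comm, Ideal.Quotient.eq] at ha'
    obtain ⟨b, hb⟩ := Ideal.mem_span_singleton'.1 ha'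
    have hbP : b ∈ P := by
      have h3 : b * S ∈ P := by
        rw [hb]
        exact P.sub_mem hq (P.mul_mem_left a hgP)
      exact (hP.mem_or_mem h3).resolve_right hS
    have h4 : q = a * g + S * b := by
      rw [mul_comm S b, hb]
      ring
    rw [h4]
    exact Submodule.add_mem_sup (Ideal.mem_span_singleton'.2 ⟨a, rfl⟩)
      (Ideal.mul_mem_mul hSm hbP)
  exact Submodule.le_of_le_smul_of_le_jacobson_bot (IsNoetherian.noetherian P)
    (maximalIdeal_le_jacobson ⊥) h1

end two

/-- A regular local domain of dimension at most two is factorial. -/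
theorem ufd_of_regular2 {O : Type*} [CommRing O] [IsDomain O] [IsRegularLocalRing O]
    (h : ringKrullDim O ≤ 2) : UniqueFactorizationMonoid O := by
  classical
  refine UniqueFactorizationMonoid.of_forall_isPrincipal_of_height_eq_one fun P hP hht => ?_
  have hdim := IsRegularLocalRing.spanFinrank_maximalIdeal (R := O)
  have hfr : (maximalIdeal O).spanFinrank ≤ 2 := by
    rw [← hdim] at h
    exact_mod_cast h
  obtain ⟨s, hcard, hspan⟩ := Submodule.FG.exists_span_finset_card_eq_spanFinrank
    (IsNoetherian.noetherian (maximalIdeal O))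
  have hPm : P ≤ maximalIdeal O := le_maximalIdeal hP.ne_top
  have h3 : (maximalIdeal O).spanFinrank = 0 ∨ (maximalIdeal O).spanFinrank = 1 ∨
      (maximalIdeal O).spanFinrank = 2 := by omega
  rcases h3 with h0 | h1 | h2
  · rw [h0, Finset.card_eq_zero] at hcard
    have hbot : maximalIdeal O = ⊥ := by
      rw [← hspan, hcard]
      simp
    rw [hbot] at hPm
    exact absurd (le_bot_iff.1 hPm) (Ideal.ne_bot_of_height_eq_one hht)
  · rw [h1, Finset.card_eq_one] at hcard
    obtain ⟨T, rfl⟩ := hcard
    have hT : maximalIdeal O = Ideal.span {T} := by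
      rw [← hspan]
      simp [Ideal.span]
    haveI := isPrincipalIdealRing_of_maximal T hT
    exact IsPrincipalIdealRing.principal P
  · rw [h2, Finset.card_eq_two] at hcard
    obtain ⟨S, T, -, rfl⟩ := hcard
    have hm : maximalIdeal O = Ideal.span {S, T} := by
      rw [← hspan]
      simp [Ideal.span]
    by_cases hS : S ∈ P
    · by_cases hT : T ∈ P
      · exfalso
        have h4 : P = maximalIdeal O := by
          refine le_antisymm hPm ?_
          rw [hm, Ideal.span_le]
          rintro x (rfl | rfl)
          · exact hS
          · exact hT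
        have h5 := IsLocalRing.maximalIdeal_height_eq_ringKrullDim (R := O)
        rw [← h4, hht, ← hdim, h2] at h5
        norm_cast at h5
      · refine isPrincipal_of_two T S ?_ P hT
        rw [hm, Set.pair_comm]
    · exact isPrincipal_of_two S T hm P hS

/-- In a factorial domain, a nonzero prime element generates a prime ideal of height one. -/
theorem height_span_prime {O : Type*} [CommRing O] [IsDomain O] [UniqueFactorizationMonoid O]
    {q : O} (hq : Prime q) : (Ideal.span {q} : Ideal O).height = 1 := by
  have hpr : (Ideal.span {q} : Ideal O).IsPrime := (Ideal.span_singleton_prime hq.ne_zero).2 hq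
  refine le_antisymm ?_ ?_
  · have h1 : (Ideal.span {q} : Ideal O).height ≤ (1 : ℕ) := by
      rw [Ideal.height_le_iff]
      intro Q hQ hlt
      have h2 : Q = ⊥ := by
        by_contra hne
        obtain ⟨x, hxQ, hx⟩ := Ideal.IsPrime.exists_mem_prime_of_ne_bot hQ hne
        have h3 : q ∣ x := Ideal.mem_span_singleton.1 (hlt.le hxQ)
        have h4 : Associated q x := hq.associated_of_dvd hx h3
        have h5 : Ideal.span {q} ≤ Q := by
          rw [Ideal.span_singleton_le_iff_mem]
          exact Q.mem_of_dvd h4.dvd' hxQ
        exact absurd h5 (not_le_of_gt hlt)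
      rw [h2, Ideal.height_bot]
      exact_mod_cast one_pos
    exact_mod_cast h1
  · exact Ideal.one_le_height_span_singleton_of_mem_nonZeroDivisors
      (mem_nonZeroDivisors_of_ne_zero hq.ne_zero)

/-- An element of the fraction field of a factorial domain which is integral at the primes of
height one lies in the domain. -/
theorem mem_of_height_one {O K : Type*} [CommRing O] [IsDomain O] [UniqueFactorizationMonoid O]
    [Field K] [Algebra O K] [IsFractionRing O K] (f : K)
    (h : ∀ P : Ideal O, P.IsPrime → P.height = 1 →
      ∃ a b : O, b ∉ P ∧ f * algebraMap O K b = algebraMap O K a) :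
    f ∈ Set.range (algebraMap O K) := by
  obtain ⟨a, b, hrel, hab⟩ := IsFractionRing.exists_reduced_fraction (A := O) f
  have hb0 : (b : O) ≠ 0 := nonZeroDivisors.ne_zero b.2
  have hf : f * algebraMap O K b = algebraMap O K a := by
    rw [← hab, IsLocalization.mk'_spec]
  by_cases hun : IsUnit (b : O)
  · obtain ⟨c, hc⟩ := hun.exists_right_inv
    refine ⟨a * c, ?_⟩
    rw [map_mul, ← hf, mul_assoc, ← map_mul, hc, map_one, mul_one]
  · exfalso
    obtain ⟨q, hq, hqb⟩ := WfDvdMonoid.exists_irreducible_factor hun hb0
    have hqp : Prime q := UniqueFactorizationMonoid.irreducible_iff_prime.1 hq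
    obtain ⟨a', b', hb', hab'⟩ := h (Ideal.span {q})
      ((Ideal.span_singleton_prime hqp.ne_zero).2 hqp) (height_span_prime hqp)
    have h1 : a * b' = a' * b := by
      apply IsFractionRing.injective O K
      rw [map_mul, map_mul, ← hf, ← hab']
      ring
    have h2 : q ∣ a * b' := by
      rw [h1]
      exact hqb.mul_left a'
    have h3 : q ∣ a := (hqp.dvd_or_dvd h2).resolve_right
      (fun h4 => hb' (Ideal.mem_span_singleton.2 h4))
    exact hqp.not_isUnit (hrel h3 hqb)

/-- An element of the fraction field which is integral at all maximal ideals lies in the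
domain. -/
theorem mem_of_local {A K : Type*} [CommRing A] [IsDomain A] [Field K] [Algebra A K]
    [IsFractionRing A K] (f : K)
    (h : ∀ m : Ideal A, m.IsMaximal → ∃ a b : A, b ∉ m ∧ f * algebraMap A K b = algebraMap A K a) :
    f ∈ Set.range (algebraMap A K) := by
  let I : Ideal A :=
    { carrier := {b | f * algebraMap A K b ∈ Set.range (algebraMap A K)}
      add_mem' := by
        rintro b b' ⟨c, hc⟩ ⟨c', hc'⟩
        exact ⟨c + c', by rw [map_add, map_add, mul_add, hc, hc']⟩
      zero_mem' := ⟨0, by simp⟩
      smul_mem' := by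
        rintro x b ⟨c, hc⟩
        exact ⟨x * c, by rw [smul_eq_mul, map_mul, map_mul, hc]; ring⟩ }
  have hI : I = ⊤ := by
    by_contra hne
    obtain ⟨m, hm, hIm⟩ := Ideal.exists_le_maximal I hne
    obtain ⟨a, b, hb, hab⟩ := h m hm
    exact hb (hIm ⟨a, hab.symm⟩)
  have h1 : (1 : A) ∈ I := by rw [hI]; trivial
  obtain ⟨c, hc⟩ := h1
  exact ⟨c, by rw [hc, map_one, mul_one]⟩

/-- The localization of a regular domain of dimension at most two at a maximal ideal is a regular
local domain of dimension at most two, so it is factorial. -/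
theorem ufd_localization {A : Type*} [CommRing A] [IsDomain A] [IsRegularRing A]
    (h : ringKrullDim A ≤ 2) (m : Ideal A) [m.IsPrime] :
    UniqueFactorizationMonoid (Localization.AtPrime m) := by
  haveI : IsDomain (Localization.AtPrime m) :=
    IsLocalization.isDomain_localization m.primeCompl_le_nonZeroDivisors
  apply ufd_of_regular2
  rw [IsLocalization.AtPrime.ringKrullDim_eq_height m]
  exact le_trans (Ideal.height_le_ringKrullDim_of_ne_top Ideal.IsPrime.ne_top') h

/-- An element of the fraction field of a regular domain of dimension at most two which is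
integral at the primes of height one lies in the domain. -/
theorem mem_of_height_one_regular {A K : Type*} [CommRing A] [IsDomain A] [IsRegularRing A]
    (hdim : ringKrullDim A ≤ 2) [Field K] [Algebra A K] [IsFractionRing A K] (f : K)
    (h : ∀ P : Ideal A, P.IsPrime → P.height = 1 →
      ∃ a b : A, b ∉ P ∧ f * algebraMap A K b = algebraMap A K a) :
    f ∈ Set.range (algebraMap A K) := by
  refine mem_of_local f fun m hm => ?_
  haveI : IsDomain (Localization.AtPrime m) :=
    IsLocalization.isDomain_localization m.primeCompl_le_nonZeroDivisors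
  haveI := ufd_localization hdim m
  let iA : Algebra (Localization.AtPrime m) K := IsLocalization.localizationAlgebraOfSubmonoidLe
    (Localization.AtPrime m) K m.primeCompl (nonZeroDivisors A) m.primeCompl_le_nonZeroDivisors
  haveI : IsScalarTower A (Localization.AtPrime m) K :=
    IsLocalization.localization_isScalarTower_of_submonoid_le
      (Localization.AtPrime m) K m.primeCompl (nonZeroDivisors A) m.primeCompl_le_nonZeroDivisors
  haveI : IsFractionRing (Localization.AtPrime m) K :=
    IsFractionRing.isFractionRing_of_isDomain_of_isLocalization m.primeCompl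
      (Localization.AtPrime m) K
  have h1 : f ∈ Set.range (algebraMap (Localization.AtPrime m) K) := by
    refine mem_of_height_one f fun Q hQ hht => ?_
    have hQ' : (Q.under A).IsPrime := inferInstance
    have hht' : (Q.under A).height = 1 := by
      rw [IsLocalization.height_under m.primeCompl, hht]
    obtain ⟨a, b, hb, hab⟩ := h _ hQ' hht'
    refine ⟨algebraMap A _ a, algebraMap A _ b, hb, ?_⟩
    rw [← IsScalarTower.algebraMap_apply, ← IsScalarTower.algebraMap_apply, hab]
  obtain ⟨z, hz⟩ := h1
  obtain ⟨⟨a, b⟩, hab⟩ := IsLocalization.surj m.primeCompl z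
  refine ⟨a, b, b.2, ?_⟩
  have h2 := congrArg (algebraMap (Localization.AtPrime m) K) hab
  rw [map_mul, hz, ← IsScalarTower.algebraMap_apply, ← IsScalarTower.algebraMap_apply] at h2
  exact h2

/-- A regular domain of dimension at most two is integrally closed. -/
theorem isIntegrallyClosed_of_regular {A : Type*} [CommRing A] [IsDomain A] [IsRegularRing A]
    (h : ringKrullDim A ≤ 2) : IsIntegrallyClosed A := by
  refine IsIntegrallyClosed.of_localization_maximal fun m _ hm => ?_
  haveI : IsDomain (Localization.AtPrime m) :=
    IsLocalization.isDomain_localization m.primeCompl_le_nonZeroDivisors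
  haveI := ufd_localization h m
  infer_instance

end Pool.Agent.K1
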