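import Pool.Agent.K1.L3Defs
import Pool.Agent.K1.L2Regular
import Pool.Agent.K1.Ufd2

/-!
K1, Layer 3: ring theoretic facts on affine open subsets of a regular surface.
-/

set_option autoImplicit false

open AlgebraicGeometry CategoryTheory

namespace Pool.Agent.K1

section points

variable {X : Scheme.{0}} {V : X.Opens} (hV : IsAffineOpen V)

include hV in
theorem af_mem (P : PrimeSpectrum Γ(X, V)) : hV.fromSpec P ∈ V := by
  have h := hV.range_fromSpec
  have : hV.fromSpec P ∈ Set.range hV.fromSpec := ⟨P, rfl⟩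
  rw [h] at this
  exact this

include hV in
theorem af_surj {x : X} (hx : x ∈ V) : ∃ P : PrimeSpectrum Γ(X, V), hV.fromSpec P = x := by
  have h := hV.range_fromSpec
  have : x ∈ Set.range hV.fromSpec := by rw [h]; exact hx
  exact this

theorem af_coheight (P : PrimeSpectrum Γ(X, V)) :
    Order.coheight (hV.fromSpec P : X) = P.asIdeal.height := by
  have h1 := coheight_eq_of_isOpenImmersion (x := P) hV.fromSpec
  have h2 := idealHeight_eq_coheight Γ(X, V) P
  exact h1.trans h2.symm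

theorem af_loc (P : PrimeSpectrum Γ(X, V)) (hm : hV.fromSpec P ∈ V) :
    letI := (X.presheaf.germ V (hV.fromSpec P) hm).hom.toAlgebra
    IsLocalization.AtPrime (X.presheaf.stalk (hV.fromSpec P)) P.asIdeal :=
  hV.isLocalization_stalk' P hm

theorem af_germ_unit (P : PrimeSpectrum Γ(X, V)) (hm : hV.fromSpec P ∈ V) (a : Γ(X, V)) :
    IsUnit ((X.presheaf.germ V (hV.fromSpec P) hm).hom a) ↔ a ∉ P.asIdeal := by
  let _ := (X.presheaf.germ V (hV.fromSpec P) hm).hom.toAlgebra
  have hloc : IsLocalization.AtPrime (X.presheaf.stalk (hV.fromSpec P)) P.asIdeal :=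
    af_loc hV P hm
  exact IsLocalization.AtPrime.isUnit_to_map_iff (X.presheaf.stalk (hV.fromSpec P)) P.asIdeal a

theorem af_eval_eq_zero {x : X} (hx : x ∈ V) (a : Γ(X, V)) :
    (X.evaluation V x hx).hom a = 0 ↔ ¬ IsUnit ((X.presheaf.germ V x hx).hom a) := by
  have h1 := X.evaluation_eq_zero_iff_notMem_basicOpen x hx a
  rw [Scheme.mem_basicOpen X a x hx] at h1
  exact h1

end points

/-- ring theoretic facts on affine open sets -/
theorem affine_facts {X : Scheme.{0}} [IsIntegral X] [IsLocallyNoetherian X] (V : X.Opens)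
    (hV : IsAffineOpen V) (hg : genericPoint X ∈ V)
    (hreg : ∀ x : X, IsRegularLocalRing (X.presheaf.stalk x))
    (hdim : ∀ x : X, Order.coheight x ≤ 2) :
    IsDomain Γ(X, V) ∧ IsRegularRing Γ(X, V) ∧ ringKrullDim Γ(X, V) ≤ 2 ∧
      ((∃ x ∈ V, Order.coheight x = 2) → ringKrullDim Γ(X, V) = 2) := by
  have hne : Nonempty V := ⟨⟨_, hg⟩⟩
  have hdom : IsDomain Γ(X, V) := inferInstance
  have hnoeth : IsNoetherianRing Γ(X, V) := IsLocallyNoetherian.component_noetherian ⟨V, hV⟩
  have hle : ringKrullDim Γ(X, V) ≤ 2 := by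
    rw [ringKrullDim_le_iff_isMaximal_height_le]
    intro 𝔪 h𝔪
    have h1 := af_coheight hV ⟨𝔪, h𝔪.isPrime⟩
    have h2 := hdim (hV.fromSpec ⟨𝔪, h𝔪.isPrime⟩)
    rw [h1] at h2
    exact WithBot.coe_le_coe.2 h2
  refine ⟨hdom, ?_, hle, ?_⟩
  · rw [isRegularRing_iff]
    intro P hP
    let P' : PrimeSpectrum Γ(X, V) := ⟨P, hP⟩
    let _ := (X.presheaf.germ V (hV.fromSpec P') (af_mem hV P')).hom.toAlgebra
    have hloc : IsLocalization.AtPrime (X.presheaf.stalk (hV.fromSpec P')) P'.asIdeal :=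
      af_loc hV P' _
    have hr := hreg (hV.fromSpec P')
    exact IsRegularLocalRing.of_ringEquiv
      (IsLocalization.algEquiv P.primeCompl (X.presheaf.stalk (hV.fromSpec P'))
        (Localization.AtPrime P)).toRingEquiv
  · rintro ⟨x, hx, hx2⟩
    apply le_antisymm hle
    obtain ⟨P, rfl⟩ := af_surj hV hx
    rw [af_coheight] at hx2
    have := Ideal.height_le_ringKrullDim_of_ne_top P.isPrime.ne_top
    rw [hx2] at this
    exact this

theorem af_dvr {X : Scheme.{0}} [IsIntegral X] {x : X}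
    (hreg : IsRegularLocalRing (X.presheaf.stalk x)) (hx : Order.coheight x = 1) :
    IsDiscreteValuationRing (X.presheaf.stalk x) := by
  have h3 := (IsRegularLocalRing.iff_finrank_cotangentSpace
    (R := X.presheaf.stalk x)).1 hreg
  rw [ringKrullDim_stalk_eq_coheight, hx] at h3
  have h4 : Module.finrank (IsLocalRing.ResidueField (X.presheaf.stalk x))
      (IsLocalRing.CotangentSpace (X.presheaf.stalk x)) = 1 := by
    exact_mod_cast h3
  exact IsLocalRing.finrank_CotangentSpace_eq_one_iff.1 h4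

theorem af_mem_stalk {X : Scheme.{0}} [IsIntegral X] [IsLocallyNoetherian X] {x : X}
    (hreg : IsRegularLocalRing (X.presheaf.stalk x)) (hx : Order.coheight x = 1)
    (f : X.functionField) (hf : f ≠ 0) (h : 0 ≤ X.ord f x) :
    ∃ s : X.presheaf.stalk x, algebraMap (X.presheaf.stalk x) X.functionField s = f := by
  have hdvr := af_dvr hreg hx
  have h1 := (Scheme.le_ord_iff hx hf).1 h
  have : Ring.KrullDimLE 1 (X.presheaf.stalk x) := krullDimLE_of_coheight_le hx.le
  have h2 : Scheme.ordHom x hx f = Ring.ordFrac (X.presheaf.stalk x) f := rfl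
  rw [h2, Ring.ordFrac_eq_valuation_inv] at h1
  apply IsDiscreteValuationRing.exists_lift_of_le_one
  have h3 : (1 : WithZero (Multiplicative ℤ)) ≤
      ((IsDiscreteValuationRing.maximalIdeal (X.presheaf.stalk x)).valuation X.functionField f)⁻¹ := h1
  have h4 : ((IsDiscreteValuationRing.maximalIdeal (X.presheaf.stalk x)).valuation
      X.functionField f) ≠ 0 := (Valuation.ne_zero_iff _).2 hf
  exact (one_le_inv₀ (zero_lt_iff.2 h4)).1 h3

theorem mem_range_of_ord_nonneg {X : Scheme.{0}} [IsIntegral X] [IsLocallyNoetherian X]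
    (hreg : ∀ x : X, IsRegularLocalRing (X.presheaf.stalk x))
    (hdim : ∀ x : X, Order.coheight x ≤ 2) (V : X.Opens) (hV : IsAffineOpen V)
    (hg : genericPoint X ∈ V) (f : X.functionField) (hf : f ≠ 0)
    (h : ∀ x ∈ V, Order.coheight x = 1 → 0 ≤ X.ord f x) :
    f ∈ Set.range (X.presheaf.germ V (genericPoint X) hg).hom := by
  obtain ⟨hdom, hr, hle, -⟩ := affine_facts V hV hg hreg hdim
  have hne : Nonempty V := ⟨⟨_, hg⟩⟩
  have hfr : IsFractionRing Γ(X, V) X.functionField :=
    functionField_isFractionRing_of_isAffineOpen X V hV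
  have key := mem_of_height_one_regular (A := Γ(X, V)) hle f
  apply key
  intro P hP hP1
  let P' : PrimeSpectrum Γ(X, V) := ⟨P, hP⟩
  have hm := af_mem hV P'
  have hco : Order.coheight (hV.fromSpec P') = 1 := by rw [af_coheight]; exact hP1
  obtain ⟨s, hs⟩ := af_mem_stalk (hreg _) hco f hf (h _ hm hco)
  let _ := (X.presheaf.germ V (hV.fromSpec P') hm).hom.toAlgebra
  have hloc : IsLocalization.AtPrime (X.presheaf.stalk (hV.fromSpec P')) P'.asIdeal :=
    af_loc hV P' hm
  obtain ⟨a, b, hb⟩ := IsLocalization.exists_mk'_eq P'.asIdeal.primeCompl s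
  refine ⟨a, b, b.2, ?_⟩
  have h5 := IsLocalization.mk'_spec (X.presheaf.stalk (hV.fromSpec P')) a b
  rw [hb] at h5
  have h6 := congrArg (algebraMap (X.presheaf.stalk (hV.fromSpec P')) X.functionField) h5
  rw [map_mul, hs] at h6
  have h7 : ∀ c : Γ(X, V), algebraMap (X.presheaf.stalk (hV.fromSpec P')) X.functionField
      (algebraMap Γ(X, V) (X.presheaf.stalk (hV.fromSpec P')) c) =
      algebraMap Γ(X, V) X.functionField c := fun c =>
    Scheme.algebraMap_germ_eq_germToFunctionField X hm c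
  rw [h7, h7] at h6
  exact h6

/-- The function `l c / l d` as an element of `A = Γ(X, U d)`, for the embedding `E`. -/
theorem exists_ratio {k : Type} [Field k] {X : Scheme.{0}} [IsIntegral X] {n : ℕ}
    (E : Embed k X n) (c d : Fin (n + 1) → k) (hd : genericPoint X ∈ E.U d) :
    ∃ a : Γ(X, E.U d), (X.presheaf.germ (E.U d) (genericPoint X) hd).hom a = E.l c / E.l d ∧
      ∀ x (hx : x ∈ E.U d), x ∈ E.U c ↔ (X.evaluation (E.U d) x hx).hom a ≠ 0 := by
  have hld : E.l d ≠ 0 := by
    intro h0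
    have := E.empty d h0
    rw [this] at hd
    exact hd
  have hmem : E.l c / E.l d ∈ Set.range (X.presheaf.germ (E.U d) (genericPoint X) hd).hom := by
    rw [E.sections d hd]
    have : E.l c / E.l d = ∑ j, E.kf (c j) * (E.w j / E.l d) := by
      rw [EmbedData.l, Finset.sum_div]
      exact Finset.sum_congr rfl fun j _ => mul_div_assoc _ _ _
    rw [this]
    apply Subring.sum_mem
    intro j _
    apply Subring.mul_mem
    · exact Subring.subset_closure (Or.inl ⟨_, rfl⟩)
    · exact Subring.subset_closure (Or.inr ⟨j, rfl⟩)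
  obtain ⟨a, ha⟩ := hmem
  refine ⟨a, ha, ?_⟩
  intro x hx
  obtain ⟨a', h1, h2⟩ := E.stalk c d x hx
  have hne : Nonempty (E.U d) := ⟨⟨_, hd⟩⟩
  have h3 : (X.presheaf.germ (E.U d) x hx).hom a = a' := by
    apply IsFractionRing.injective (X.presheaf.stalk x) X.functionField
    rw [eq_div_of_mul_eq hld h1, ← ha]
    exact Scheme.algebraMap_germ_eq_germToFunctionField X hx a
  rw [← h2, Ne, af_eval_eq_zero, not_not, h3]

theorem af_l_ne_zero {k : Type} [Field k] {X : Scheme.{0}} [IsIntegral X] {n : ℕ}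
    (E : Embed k X n) {c : Fin (n + 1) → k} (hc : genericPoint X ∈ E.U c) : E.l c ≠ 0 := by
  intro h0
  have := E.empty c h0
  rw [this] at hc
  exact hc

theorem af_finiteType {k : Type} [Field k] {X : Scheme.{0}} [IsIntegral X]
    {n : ℕ} (E : Embed k X n) (c : Fin (n + 1) → k) (hc : genericPoint X ∈ E.U c) :
    letI := (E.strOn (E.U c)).toAlgebra
    Algebra.FiniteType k Γ(X, E.U c) := by
  classical
  let _ := (E.strOn (E.U c)).toAlgebra
  have hne : Nonempty (E.U c) := ⟨⟨_, hc⟩⟩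
  let g := (X.presheaf.germ (E.U c) (genericPoint X) hc).hom
  have hginj : Function.Injective g := Scheme.germToFunctionField_injective X (E.U c)
  have hgk : ∀ a : k, g (algebraMap k Γ(X, E.U c) a) = E.kf a := by
    intro a
    change (X.presheaf.germ (E.U c) (genericPoint X) hc).hom
      ((X.presheaf.map (homOfLE le_top : E.U c ⟶ ⊤).op).hom (E.str a)) = _
    exact X.presheaf.germ_res_apply (homOfLE le_top : E.U c ⟶ ⊤) (genericPoint X) hc (E.str a)
  have hw : ∀ j, ∃ s : Γ(X, E.U c), g s = E.w j / E.l c := by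
    intro j
    have : E.w j / E.l c ∈ Set.range g := by
      rw [E.sections c hc]
      exact Subring.subset_closure (Or.inr ⟨j, rfl⟩)
    exact this
  choose s hs using hw
  refine ⟨⟨Finset.univ.image s, ?_⟩⟩
  rw [eq_top_iff]
  intro a _
  have ha : g a ∈ Subring.closure (Set.range E.kf ∪ Set.range (fun j => E.w j / E.l c)) := by
    have h0 : g a ∈ Set.range g := ⟨a, rfl⟩
    rw [E.sections c hc] at h0
    exact h0
  have key : ∀ y ∈ Subring.closure (Set.range E.kf ∪ Set.range (fun j => E.w j / E.l c)),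
      ∃ b ∈ Algebra.adjoin k (((Finset.univ.image s : Finset Γ(X, E.U c)) : Set Γ(X, E.U c))),
        g b = y := by
    intro y hy
    induction hy using Subring.closure_induction with
    | mem x hx =>
      rcases hx with ⟨a, rfl⟩ | ⟨j, rfl⟩
      · exact ⟨algebraMap k _ a, Subalgebra.algebraMap_mem _ _, hgk a⟩
      · exact ⟨s j, Algebra.subset_adjoin (by simp), hs j⟩
    | zero => exact ⟨0, Subalgebra.zero_mem _, map_zero _⟩
    | one => exact ⟨1, Subalgebra.one_mem _, map_one _⟩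
    | add x y _ _ hx hy =>
      obtain ⟨b, hb, rfl⟩ := hx
      obtain ⟨b', hb', rfl⟩ := hy
      exact ⟨b + b', Subalgebra.add_mem _ hb hb', map_add _ _ _⟩
    | neg x _ hx =>
      obtain ⟨b, hb, rfl⟩ := hx
      exact ⟨-b, Subalgebra.neg_mem _ hb, map_neg _ _⟩
    | mul x y _ _ hx hy =>
      obtain ⟨b, hb, rfl⟩ := hx
      obtain ⟨b', hb', rfl⟩ := hy
      exact ⟨b * b', Subalgebra.mul_mem _ hb hb', map_mul _ _ _⟩
  obtain ⟨b, hb, hba⟩ := key _ ha
  rw [← hginj hba]
  exact hb

/-- The dimension of an affine piece is the transcendence degree of the function field. -/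
theorem af_trdeg {k : Type} [Field k] {X : Scheme.{0}} [IsIntegral X]
    {n : ℕ} (E : Embed k X n) (c : Fin (n + 1) → k) (hc : genericPoint X ∈ E.U c) :
    letI := E.kf.toAlgebra
    ∃ s : ℕ, (∀ 𝔪 : Ideal Γ(X, E.U c), 𝔪.IsMaximal → 𝔪.height = s) ∧
      ringKrullDim Γ(X, E.U c) = s ∧ Algebra.trdeg k X.functionField = s := by
  let _ := (E.strOn (E.U c)).toAlgebra
  let _ := E.kf.toAlgebra
  have hne : Nonempty (E.U c) := ⟨⟨_, hc⟩⟩
  have hft : Algebra.FiniteType k Γ(X, E.U c) := af_finiteType E c hc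
  obtain ⟨s, h1, h2, h3⟩ := L2R_key (k := k) (A := Γ(X, E.U c))
  refine ⟨s, h1, h2, ?_⟩
  have hfr : IsFractionRing Γ(X, E.U c) X.functionField :=
    functionField_isFractionRing_of_isAffineOpen X _ (E.affine c (af_l_ne_zero E hc)).1
  have hst : IsScalarTower k Γ(X, E.U c) X.functionField := by
    apply IsScalarTower.of_algebraMap_eq
    intro a
    symm
    change (X.presheaf.germ (E.U c) (genericPoint X) hc).hom
      ((X.presheaf.map (homOfLE le_top : E.U c ⟶ ⊤).op).hom (E.str a)) = _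
    exact X.presheaf.germ_res_apply (homOfLE le_top : E.U c ⟶ ⊤) (genericPoint X) hc (E.str a)
  have halg : Algebra.IsAlgebraic Γ(X, E.U c) X.functionField :=
    IsLocalization.isAlgebraic _ (nonZeroDivisors Γ(X, E.U c))
  have hfs : FaithfulSMul Γ(X, E.U c) X.functionField :=
    (faithfulSMul_iff_algebraMap_injective _ _).mpr (IsFractionRing.injective _ _)
  have h4 := trdeg_add_eq (R := k) (S := Γ(X, E.U c)) (A := X.functionField)
  rw [_root_.trdeg_eq_zero (R := Γ(X, E.U c)) (A := X.functionField), add_zero, h3] at h4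
  exact h4.symm

/-- dimension theory for the affine pieces of `X` -/
theorem affine_dim {k : Type} [Field k] [IsAlgClosed k] {X : Scheme.{0}} [IsIntegral X]
    [IsNoetherian X] {n : ℕ} (E : Embed k X n)
    (hdim : ∀ x : X, Order.coheight x ≤ 2) (hdim2 : ∃ x : X, Order.coheight x = 2)
    (c : Fin (n + 1) → k) (hc : genericPoint X ∈ E.U c) :
    letI := (E.strOn (E.U c)).toAlgebra
    Algebra.FiniteType k Γ(X, E.U c) ∧ ringKrullDim Γ(X, E.U c) = 2 ∧
      ∀ z : Γ(X, E.U c) →ₐ[k] k, ∃ (y : X) (hy : y ∈ E.U c), Order.coheight y = 2 ∧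
        ∀ a, z a = 0 ↔ (X.evaluation (E.U c) y hy).hom a = 0 := by
  let _ := (E.strOn (E.U c)).toAlgebra
  have hc2 : ∀ c' : Fin (n + 1) → k, genericPoint X ∈ E.U c' →
      ∀ s : ℕ, ringKrullDim Γ(X, E.U c') = s → (∃ x ∈ E.U c', Order.coheight x = 2) → s = 2 := by
    intro c' hc' s hs hx
    have haff := (E.affine c' (af_l_ne_zero E hc')).1
    obtain ⟨x, hxU, hx2⟩ := hx
    obtain ⟨P, rfl⟩ := af_surj haff hxU
    rw [af_coheight] at hx2
    have hge := Ideal.height_le_ringKrullDim_of_ne_top P.isPrime.ne_top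
    rw [hx2, hs] at hge
    have hle : ringKrullDim Γ(X, E.U c') ≤ 2 := by
      rw [ringKrullDim_le_iff_isMaximal_height_le]
      intro 𝔪 h𝔪
      have h1 := af_coheight haff ⟨𝔪, h𝔪.isPrime⟩
      have h2 := hdim (haff.fromSpec ⟨𝔪, h𝔪.isPrime⟩)
      rw [h1] at h2
      exact WithBot.coe_le_coe.2 h2
    rw [hs] at hle
    have h3 : s ≤ 2 := by exact_mod_cast hle
    have h4 : 2 ≤ s := by exact_mod_cast hge
    omega
  have hs2 : ∃ s : ℕ, (∀ 𝔪 : Ideal Γ(X, E.U c), 𝔪.IsMaximal → 𝔪.height = s) ∧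
      ringKrullDim Γ(X, E.U c) = s ∧ s = 2 := by
    let _ := E.kf.toAlgebra
    obtain ⟨x, hx⟩ := hdim2
    obtain ⟨j, hj⟩ := E.cover x
    have hgj : genericPoint X ∈ E.U (Pi.single j 1) :=
      ((genericPoint_spec X).mem_open_set_iff (E.U (Pi.single j 1)).isOpen).mpr ⟨x, trivial, hj⟩
    obtain ⟨s, h1, h2, h3⟩ := af_trdeg E c hc
    obtain ⟨s', h1', h2', h3'⟩ := af_trdeg E _ hgj
    have h4 := hc2 _ hgj s' h2' ⟨x, hj, hx⟩
    refine ⟨s, h1, h2, ?_⟩
    rw [← h4]
    have h5 : ((s : ℕ) : Cardinal) = s' := h3.symm.trans h3'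
    exact_mod_cast h5
  obtain ⟨s, h1, h2, rfl⟩ := hs2
  refine ⟨af_finiteType E c hc, h2, ?_⟩
  intro z
  have hzm : (RingHom.ker z).IsMaximal := by
    apply RingHom.ker_isMaximal_of_surjective
    intro a
    exact ⟨algebraMap k _ a, z.commutes a⟩
  have haff := (E.affine c (af_l_ne_zero E hc)).1
  let P : PrimeSpectrum Γ(X, E.U c) := ⟨RingHom.ker z, hzm.isPrime⟩
  refine ⟨haff.fromSpec P, af_mem haff P, ?_, ?_⟩
  · rw [af_coheight]
    exact h1 _ hzm
  · intro a
    rw [af_eval_eq_zero, af_germ_unit, not_not]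
    rfl

end Pool.Agent.K1
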