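import Pool.Agent.K1.CurveDataDef
import Pool.Agent.K1.AffineFacts

/-!
Layer 3: the restriction of a chain with divisor zero to the complement of a hyperplane section
is a cycle on the affine surface.
-/

set_option autoImplicit false

open AlgebraicGeometry CategoryTheory

attribute [local instance] MvPolynomial.gradedAlgebra

namespace Pool.Agent.K1

/-- The length of a quotient ring does not change under ring isomorphisms. -/
theorem length_quot_equiv {R S : Type*} [CommRing R] [CommRing S] (e : R ≃+* S) (I : Ideal R)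
    (J : Ideal S) (h : I = J.comap (e : R →+* S)) :
    Module.length R (R ⧸ I) = Module.length S (S ⧸ J) := by
  rw [Module.length_quotient, Module.length_quotient]
  have h1 : e.idealComapOrderIso J = I := h.symm
  rw [← h1]
  exact Order.coheight_orderIso e.idealComapOrderIso J

/-- Orders computed in another model of the local ring. -/
theorem length_eq_ordPt {k A S : Type*} [Field k] [CommRing A] [Algebra k A] [CommRing S]
    [Algebra A S] (z : A →ₐ[k] k) [IsLocalization.AtPrime S (RingHom.ker z)] (P : Ideal A)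
    (c' : A) (c : S) (u : Sˣ) (h : c * u = algebraMap A S c') :
    Module.length S (S ⧸ (P.map (algebraMap A S) ⊔ Ideal.span {c})) = ordPt P z c' := by
  let e : LocAt z ≃ₐ[A] S := IsLocalization.algEquiv (RingHom.ker z).primeCompl (LocAt z) S
  symm
  apply length_quot_equiv e.toRingEquiv
  have hs : Ideal.span {c} = Ideal.span {algebraMap A S c'} := by
    rw [← h, Ideal.span_singleton_mul_right_unit u.isUnit]
  have he : ∀ a : A, e (algebraMap A (LocAt z) a) = algebraMap A S a := fun a => e.commutes a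
  have h2 : (P.map (algebraMap A (LocAt z)) ⊔ Ideal.span {algebraMap A (LocAt z) c'}).map
      (e.toRingEquiv : LocAt z →+* S) =
      P.map (algebraMap A S) ⊔ Ideal.span {algebraMap A S c'} := by
    rw [Ideal.map_sup, Ideal.map_map, Ideal.map_span, Set.image_singleton]
    have h3 : (e.toRingEquiv : LocAt z →+* S).comp (algebraMap A (LocAt z)) =
        algebraMap A S := RingHom.ext he
    rw [h3]
    have h4 : (e.toRingEquiv : LocAt z →+* S) (algebraMap A (LocAt z) c') = algebraMap A S c' :=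
      he c'
    rw [h4]
  rw [hs, ← h2]
  exact (Ideal.comap_map_of_bijective (e.toRingEquiv : LocAt z →+* S)
    e.toRingEquiv.bijective).symm

/-- A curve which does not pass through the point. -/
theorem ordPt_eq_zero_of_not_le {k A : Type*} [Field k] [CommRing A] [Algebra k A]
    (z : A →ₐ[k] k) (P : Ideal A) (hP : ¬ P ≤ RingHom.ker z) (c : A) : ordPt P z c = 0 := by
  obtain ⟨a, ha, haz⟩ := Set.not_subset.1 hP
  unfold ordPt lenP
  rw [Module.length_eq_zero_iff]
  apply Ideal.Quotient.subsingleton_iff.2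
  have h1 : IsUnit (algebraMap A (LocAt z) a) :=
    IsLocalization.map_units (LocAt z) (⟨a, haz⟩ : (RingHom.ker z).primeCompl)
  exact Ideal.eq_top_of_isUnit_mem _ (Ideal.mem_sup_left (Ideal.mem_map_of_mem _ ha)) h1

/-- Every unit of the function field of a curve is a quotient. -/
theorem kap_exists_quot {A : Type*} [CommRing A] (P : Curve1 A) (t : (kap P)ˣ) :
    ∃ c d : A, c ∉ P.ideal ∧ d ∉ P.ideal ∧ (t : kap P) * res P d = res P c := by
  obtain ⟨a, b, hb, hab⟩ := IsFractionRing.div_surjective (A := A ⧸ P.ideal) (t : kap P)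
  obtain ⟨c, rfl⟩ := Ideal.Quotient.mk_surjective a
  obtain ⟨d, rfl⟩ := Ideal.Quotient.mk_surjective b
  have hd : res P d ≠ 0 := by
    have h1 : (Ideal.Quotient.mk P.ideal d) ≠ 0 := nonZeroDivisors.ne_zero hb
    intro h2
    exact h1 (by rw [Ideal.Quotient.eq_zero_iff_mem]; exact (res_eq_zero P d).1 h2)
  have h3 : (t : kap P) * res P d = res P c := by
    rw [← hab]
    exact div_mul_cancel₀ _ hd
  refine ⟨c, d, ?_, ?_, h3⟩
  · intro hc
    rw [(res_eq_zero P c).2 hc] at h3
    exact (mul_ne_zero t.ne_zero hd) h3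
  · intro hd'
    exact hd ((res_eq_zero P d).2 hd')

theorem evalAt_germ {X : Scheme.{0}} {x y : X} (h : x ⤳ y) (V : X.Opens) (hy : y ∈ V)
    (a : Γ(X, V)) : evalAt h ((X.presheaf.germ V y hy).hom a) =
      (X.evaluation V x (h.mem_open V.isOpen hy)).hom a := by
  have h1 : (X.presheaf.stalkSpecializes h).hom ((X.presheaf.germ V y hy).hom a) =
      (X.presheaf.germ V x (h.mem_open V.isOpen hy)).hom a :=
    TopCat.Presheaf.germ_stalkSpecializes_apply X.presheaf hy h a
  change (X.residue x).hom ((X.presheaf.stalkSpecializes h).hom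
    ((X.presheaf.germ V y hy).hom a)) = _
  rw [h1]
  rfl

/-- Specialization inside an affine open set, read off the functions. -/
theorem specializes_of_eval {X : Scheme.{0}} (V : X.Opens) (hV : IsAffineOpen V) {x y : X}
    (hx : x ∈ V) (hy : y ∈ V)
    (h : ∀ a : Γ(X, V), (X.evaluation V x hx).hom a = 0 → (X.evaluation V y hy).hom a = 0) :
    x ⤳ y := by
  rw [specializes_iff_forall_open]
  intro W hW hyW
  obtain ⟨f, hf, hyf⟩ := hV.exists_basicOpen_le (V := ⟨W, hW⟩) ⟨y, hyW⟩ hy
  apply hf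
  have h1 : (X.evaluation V y hy).hom f ≠ 0 :=
    (Scheme.evaluation_ne_zero_iff_mem_basicOpen X y hy f).2 hyf
  exact (Scheme.evaluation_ne_zero_iff_mem_basicOpen X x hx f).1 fun h2 => h1 (h f h2)

/-- The local ring at a point of an affine open set. -/
theorem isLocalization_of_eval {k : Type} [Field k] {X : Scheme.{0}} (V : X.Opens)
    (hV : IsAffineOpen V) [Algebra k Γ(X, V)] (z : Γ(X, V) →ₐ[k] k) {y : X} (hy : y ∈ V)
    (hz : ∀ a, z a = 0 ↔ (X.evaluation V y hy).hom a = 0) :
    letI := X.presheaf.algebra_section_stalk (⟨y, hy⟩ : V)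
    IsLocalization.AtPrime (X.presheaf.stalk y) (RingHom.ker z) := by
  let _ := X.presheaf.algebra_section_stalk (⟨y, hy⟩ : V)
  have h1 : IsLocalization.AtPrime (X.presheaf.stalk y) (hV.primeIdealOf ⟨y, hy⟩).asIdeal :=
    hV.isLocalization_stalk ⟨y, hy⟩
  have h2 : RingHom.ker z = (hV.primeIdealOf ⟨y, hy⟩).asIdeal := by
    ext a
    rw [RingHom.mem_ker, hz, ← not_iff_not]
    have h3 : a ∉ (hV.primeIdealOf ⟨y, hy⟩).asIdeal ↔
        IsUnit ((X.presheaf.germ V y hy).hom a) :=
      (IsLocalization.AtPrime.isUnit_to_map_iff (X.presheaf.stalk y)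
        (hV.primeIdealOf ⟨y, hy⟩).asIdeal a).symm
    rw [h3, ← ne_eq, Scheme.evaluation_ne_zero_iff_mem_basicOpen, Scheme.mem_basicOpen X a y hy]
  have h4 : (RingHom.ker z).primeCompl = (hV.primeIdealOf ⟨y, hy⟩).asIdeal.primeCompl := by
    apply Submonoid.ext
    intro a
    change a ∉ RingHom.ker z ↔ a ∉ (hV.primeIdealOf ⟨y, hy⟩).asIdeal
    rw [h2]
  change IsLocalization (RingHom.ker z).primeCompl (X.presheaf.stalk y)
  rw [h4]
  exact h1

/-- The case of a curve through the point. -/
theorem isOrdZ_of_isOrdAt {k : Type} [Field k] {X : Scheme.{0}} [IsIntegral X]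
    [IsLocallyNoetherian X] (V : X.Opens) (hV : IsAffineOpen V) (hg : genericPoint X ∈ V)
    (C : CurveData V hg) [Algebra k Γ(X, V)] (z : Γ(X, V) →ₐ[k] k) {y : X} (hy : y ∈ V)
    (hz : ∀ a, z a = 0 ↔ (X.evaluation V y hy).hom a = 0) (P : Curve1 Γ(X, V))
    (h : (C.pt P).1 ⤳ y) (t : (kap P)ˣ) (m : ℤ)
    (hord : IsOrdAt h (Units.map (C.φ P).toMonoidHom t) m) : IsOrdZ P z t m := by
  let _ := X.presheaf.algebra_section_stalk (⟨y, hy⟩ : V)
  have hloc : IsLocalization.AtPrime (X.presheaf.stalk y) (RingHom.ker z) :=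
    isLocalization_of_eval V hV z hy hz
  have halg : ∀ a : Γ(X, V), algebraMap Γ(X, V) (X.presheaf.stalk y) a =
    (X.presheaf.germ V y hy).hom a := fun a => rfl
  have hev : ∀ a : Γ(X, V), evalAt h (algebraMap Γ(X, V) (X.presheaf.stalk y) a) =
      C.φ P (res P a) := by
    intro a
    rw [halg, evalAt_germ, C.φ_res]
  have hP : P.ideal.map (algebraMap Γ(X, V) (X.presheaf.stalk y)) =
      RingHom.ker (evalAt h) := by
    rw [← IsLocalization.map_under (RingHom.ker z).primeCompl (X.presheaf.stalk y)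
      (RingHom.ker (evalAt h))]
    congr 1
    ext a
    rw [Ideal.mem_comap, RingHom.mem_ker, hev, map_eq_zero_iff _ (C.φ P).injective, res_eq_zero]
  obtain ⟨c, d, hc, hd, hcd, hm⟩ := hord
  obtain ⟨⟨c', s⟩, hc'⟩ := IsLocalization.surj (RingHom.ker z).primeCompl c
  obtain ⟨⟨d', s'⟩, hd'⟩ := IsLocalization.surj (RingHom.ker z).primeCompl d
  simp only at hc' hd'
  have hs : IsUnit (algebraMap Γ(X, V) (X.presheaf.stalk y) s) :=
    IsLocalization.map_units (X.presheaf.stalk y) s
  have hs' : IsUnit (algebraMap Γ(X, V) (X.presheaf.stalk y) s') :=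
    IsLocalization.map_units (X.presheaf.stalk y) s'
  obtain ⟨u, hu⟩ := hs.mul hs'
  have hc2 : c * (u : X.presheaf.stalk y) =
      algebraMap Γ(X, V) (X.presheaf.stalk y) (c' * s') := by
    rw [hu, map_mul, ← hc']
    ring
  have hd2 : d * (u : X.presheaf.stalk y) =
      algebraMap Γ(X, V) (X.presheaf.stalk y) (d' * s) := by
    rw [hu, map_mul, ← hd']
    ring
  have hu0 : evalAt h (u : X.presheaf.stalk y) ≠ 0 := (u.isUnit.map (evalAt h)).ne_zero
  have hc3 : C.φ P (res P (c' * s')) = evalAt h c * evalAt h u := by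
    rw [← hev, ← hc2, map_mul]
  have hd3 : C.φ P (res P (d' * s)) = evalAt h d * evalAt h u := by
    rw [← hev, ← hd2, map_mul]
  refine ⟨c' * s', d' * s, ?_, ?_, ?_, ?_⟩
  · intro h0
    rw [(res_eq_zero P _).2 h0, map_zero] at hc3
    exact mul_ne_zero hc hu0 hc3.symm
  · intro h0
    rw [(res_eq_zero P _).2 h0, map_zero] at hd3
    exact mul_ne_zero hd hu0 hd3.symm
  · apply (C.φ P).injective
    rw [map_mul, hc3, hd3, ← mul_assoc]
    have h1 : (C.φ P (t : kap P)) * evalAt h d = evalAt h c := hcd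
    rw [h1]
  · rw [hm, ← hP, length_eq_ordPt z P.ideal (c' * s') c u hc2,
      length_eq_ordPt z P.ideal (d' * s) d u hd2]

/-- The restriction of a cycle to an affine open set. -/
theorem cycle_restrict {k : Type} [Field k] [IsAlgClosed k] {X : Scheme.{0}} [IsIntegral X]
    [IsNoetherian X] {n : ℕ} (E : Embed k X n)
    (_hreg : ∀ x : X, IsRegularLocalRing (X.presheaf.stalk x))
    (hdim : ∀ x : X, Order.coheight x ≤ 2) (hdim2 : ∃ x : X, Order.coheight x = 2)
    (c : Fin (n + 1) → k) (hc : genericPoint X ∈ E.U c) (C : CurveData (E.U c) hc)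
    (ξ : SChain X) (hξ : IsCycle1 ξ) (η : Chain1 Γ(X, E.U c))
    (hη : ∀ P, ξ (C.pt P) = Additive.ofMul (Units.map (C.φ P).toMonoidHom
      (Additive.toMul (η P)))) :
    letI := (E.strOn (E.U c)).toAlgebra
    IsCycleA k η := by
  let _ := (E.strOn (E.U c)).toAlgebra
  have hl : E.l c ≠ 0 := by
    intro h0
    have h1 := E.empty c h0
    rw [h1] at hc
    exact hc
  have hV : IsAffineOpen (E.U c) := (E.affine c hl).1
  intro z
  obtain ⟨y, hy, hy2, hzy⟩ := (affine_dim E hdim hdim2 c hc).2.2 z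
  obtain ⟨m, hm0, hm, hsum⟩ := hξ y hy2
  refine ⟨m.comapDomain C.pt C.inj.injOn, ?_, ?_⟩
  · intro P
    rw [Finsupp.comapDomain_apply]
    by_cases h : (C.pt P).1 ⤳ y
    · have h1 := hm (C.pt P) h
      rw [hη] at h1
      exact isOrdZ_of_isOrdAt (E.U c) hV hc C z hy hzy P h _ _ h1
    · rw [hm0 _ h]
      have hnot : ¬ P.ideal ≤ RingHom.ker z := by
        intro hle
        apply h
        apply specializes_of_eval (E.U c) hV (C.mem P) hy
        intro a ha
        rw [← C.φ_res, map_eq_zero_iff _ (C.φ P).injective, res_eq_zero] at ha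
        exact (hzy a).1 (hle ha)
      obtain ⟨a, b, ha, hb, hab⟩ := kap_exists_quot P (Additive.toMul (η P))
      refine ⟨a, b, ha, hb, hab, ?_⟩
      rw [ordPt_eq_zero_of_not_le z P.ideal hnot, ordPt_eq_zero_of_not_le z P.ideal hnot]
      rfl
  · rw [← hsum]
    refine Finsupp.sum_comapDomain C.pt m (fun _ i => i) ?_
    refine ⟨fun P hP => hP, C.inj.injOn, ?_⟩
    intro x hx
    have hx0 : m x ≠ 0 := Finsupp.mem_support_iff.1 hx
    have hxy : x.1 ⤳ y := by
      by_contra h0
      exact hx0 (hm0 x h0)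
    obtain ⟨P, hP⟩ := C.surj x (hxy.mem_open (E.U c).isOpen hy)
    exact ⟨P, by rw [Set.mem_preimage, hP]; exact hx, hP⟩

end Pool.Agent.K1
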