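import Pool.Agent.K1.BPack
import Pool.Agent.K1.CycleRestrict

/-!
(B), part III: domination by a valuation ring, read off in an affine chart; uniqueness of the
centre.
-/

set_option autoImplicit false

open AlgebraicGeometry CategoryTheory

namespace Pool.Agent.K1

/-- specialization in an affine chart -/
theorem specializes_iff_chart {X : Scheme.{0}} (U : X.Opens) (hU : IsAffineOpen U)
    {η x : X} (hx : x ∈ U) (hη : η ∈ U) :
    η ⤳ x ↔ ∀ a : Γ(X, U), (X.evaluation U η hη).hom a = 0 →
      (X.evaluation U x hx).hom a = 0 := by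
  constructor
  · intro h a ha
    by_contra h1
    have h2 : x ∈ X.basicOpen a :=
      (Scheme.evaluation_ne_zero_iff_mem_basicOpen X x hx a).1 h1
    have h3 : η ∈ X.basicOpen a := h.mem_open (X.basicOpen a).isOpen h2
    exact (Scheme.evaluation_ne_zero_iff_mem_basicOpen X η hη a).2 h3 ha
  · intro h
    exact specializes_of_eval U hU hη hx h

/-- The value of a unit of `V`. -/
theorem bdom_val_eq_one {K : Type*} [Field K] (V : ValuationSubring K) {a : K} (ha : a ∈ V)
    (h : a ∉ V.nonunits) : V.valuation a = 1 := by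
  have h1 : V.valuation a ≤ 1 := (V.valuation_le_one_iff a).2 ha
  rw [ValuationSubring.mem_nonunits_iff, not_lt] at h
  exact le_antisymm h1 h

/-- Every element of the stalk is a quotient. -/
theorem bdom_stalk_quot {X : Scheme.{0}} (U : X.Opens) (hU : IsAffineOpen U) {x : X}
    (hx : x ∈ U) (b : X.presheaf.stalk x) : ∃ a s : Γ(X, U),
      IsUnit ((X.presheaf.germ U x hx).hom s) ∧
      b * (X.presheaf.germ U x hx).hom s = (X.presheaf.germ U x hx).hom a := by
  obtain ⟨P, rfl⟩ := af_surj hU hx
  let _ := (X.presheaf.germ U (hU.fromSpec P) hx).hom.toAlgebra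
  have hloc : IsLocalization.AtPrime (X.presheaf.stalk (hU.fromSpec P)) P.asIdeal :=
    af_loc hU P hx
  obtain ⟨⟨a, s⟩, h⟩ := IsLocalization.surj P.asIdeal.primeCompl b
  exact ⟨a, s, IsLocalization.map_units (X.presheaf.stalk (hU.fromSpec P)) s, h⟩

/-- domination in an affine chart -/
theorem dominates_iff {X : Scheme.{0}} (U : X.Opens) (hU : IsAffineOpen U)
    {η x : X} (h : η ⤳ x) (hx : x ∈ U) (hη : η ∈ U)
    (V : ValuationSubring (X.residueField η)) :
    Dominates h V ↔ ∀ a : Γ(X, U), (X.evaluation U η hη).hom a ∈ V ∧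
      ((X.evaluation U x hx).hom a = 0 ↔ (X.evaluation U η hη).hom a ∈ V.nonunits) := by
  have hev : ∀ a : Γ(X, U), evalAt h ((X.presheaf.germ U x hx).hom a) =
      (X.evaluation U η hη).hom a := fun a => evalAt_germ h U hx a
  constructor
  · intro hV a
    have h1 := hV ((X.presheaf.germ U x hx).hom a)
    rw [hev] at h1
    refine ⟨h1.1, ?_, ?_⟩
    · intro h0
      exact h1.2 ((af_eval_eq_zero hx a).1 h0)
    · intro h0
      rw [af_eval_eq_zero hx a]
      rintro ⟨u, hu⟩
      have h2 := (hV (((u⁻¹ : (X.presheaf.stalk x)ˣ) : X.presheaf.stalk x))).1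
      have h3 : evalAt h (u : X.presheaf.stalk x) *
          evalAt h ((u⁻¹ : (X.presheaf.stalk x)ˣ) : X.presheaf.stalk x) = 1 := by
        rw [← map_mul, Units.mul_inv, map_one]
      rw [hu, hev] at h3
      have h4 := congrArg V.valuation h3
      rw [map_mul, map_one] at h4
      rw [ValuationSubring.mem_nonunits_iff] at h0
      have h5 : V.valuation (evalAt h ((u⁻¹ : (X.presheaf.stalk x)ˣ) : X.presheaf.stalk x)) ≤ 1 :=
        (V.valuation_le_one_iff _).2 h2
      have h6 : V.valuation ((X.evaluation U η hη).hom a) *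
          V.valuation (evalAt h ((u⁻¹ : (X.presheaf.stalk x)ˣ) : X.presheaf.stalk x)) < 1 :=
        mul_lt_one_of_lt_of_le h0 h5
      rw [h4] at h6
      exact lt_irrefl _ h6
  · intro hV b
    obtain ⟨a, s, hs, hb⟩ := bdom_stalk_quot U hU hx b
    have hs0 : (X.evaluation U x hx).hom s ≠ 0 := by
      intro h0
      exact (af_eval_eq_zero hx s).1 h0 hs
    have hs1 : V.valuation ((X.evaluation U η hη).hom s) = 1 :=
      bdom_val_eq_one V (hV s).1 (fun h0 => hs0 ((hV s).2.2 h0))
    have h1 : V.valuation (evalAt h b) = V.valuation ((X.evaluation U η hη).hom a) := by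
      have h2 := congrArg (fun c => V.valuation (evalAt h c)) hb
      simp only [map_mul] at h2
      rw [hev, hev, hs1, mul_one] at h2
      exact h2
    refine ⟨?_, ?_⟩
    · rw [← V.valuation_le_one_iff, h1]
      exact (V.valuation_le_one_iff _).2 (hV a).1
    · intro hb'
      rw [ValuationSubring.mem_nonunits_iff, h1, ← ValuationSubring.mem_nonunits_iff]
      apply (hV a).2.1
      rw [af_eval_eq_zero hx a, ← hb]
      intro h3
      exact hb' (isUnit_of_mul_isUnit_left h3)

/-- The image in the function field, through a specialization. -/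
theorem bdom_algebraMap {X : Scheme.{0}} [IsIntegral X] {η x : X} (h : η ⤳ x)
    (a : X.presheaf.stalk x) :
    algebraMap (X.presheaf.stalk η) X.functionField ((X.presheaf.stalkSpecializes h).hom a) =
      algebraMap (X.presheaf.stalk x) X.functionField a := by
  change (X.presheaf.stalkSpecializes ((genericPoint_spec X).specializes trivial)).hom
    ((X.presheaf.stalkSpecializes h).hom a) =
    (X.presheaf.stalkSpecializes ((genericPoint_spec X).specializes trivial)).hom a
  rw [← CommRingCat.comp_apply, TopCat.Presheaf.stalkSpecializes_comp]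

/-- the centre is unique -/
theorem centre_unique {k : Type} [Field k] {X : Scheme.{0}} [IsIntegral X] {n : ℕ}
    (E : Embed k X n) {η x x' : X} (h : η ⤳ x) (h' : η ⤳ x')
    (V : ValuationSubring (X.residueField η)) (hV : Dominates h V) (hV' : Dominates h' V) :
    x = x' := by
  obtain ⟨j, hj⟩ := E.cover x
  obtain ⟨j', hj'⟩ := E.cover x'
  set c : Fin (n + 1) → k := Pi.single j 1 with hc
  set c' : Fin (n + 1) → k := Pi.single j' 1 with hc'
  have hne : ∀ (d : Fin (n + 1) → k) (y : X), y ∈ E.U d → E.l d ≠ 0 := by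
    intro d y hy h0
    have h1 := E.empty d h0
    rw [h1] at hy
    exact hy
  have hl : E.l c ≠ 0 := hne c x hj
  have hl' : E.l c' ≠ 0 := hne c' x' hj'
  obtain ⟨a, ha, hau⟩ := E.stalk c' c x hj
  obtain ⟨a', ha', -⟩ := E.stalk c c' x' hj'
  have h1 : (X.presheaf.stalkSpecializes h).hom a * (X.presheaf.stalkSpecializes h').hom a' =
      1 := by
    apply IsFractionRing.injective (X.presheaf.stalk η) X.functionField
    rw [map_mul, map_one, bdom_algebraMap, bdom_algebraMap]
    apply mul_right_cancel₀ hl
    apply mul_right_cancel₀ hl'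
    calc algebraMap (X.presheaf.stalk x) X.functionField a *
          algebraMap (X.presheaf.stalk x') X.functionField a' * E.l c * E.l c'
        = (algebraMap (X.presheaf.stalk x) X.functionField a * E.l c) *
          (algebraMap (X.presheaf.stalk x') X.functionField a' * E.l c') := by ring
      _ = E.l c' * E.l c := by rw [ha, ha']
      _ = 1 * E.l c * E.l c' := by ring
  have h2 : evalAt h a * evalAt h' a' = 1 := by
    have h3 := congrArg (X.residue η).hom h1
    rw [map_mul, map_one] at h3
    exact h3
  have hunit : IsUnit a := by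
    by_contra h0
    have h3 := (hV a).2 h0
    have h4 := (hV' a').1
    rw [ValuationSubring.mem_nonunits_iff] at h3
    have h5 : V.valuation (evalAt h a) * V.valuation (evalAt h' a') < 1 :=
      mul_lt_one_of_lt_of_le h3 ((V.valuation_le_one_iff _).2 h4)
    rw [← map_mul, h2, map_one] at h5
    exact lt_irrefl _ h5
  have hx : x ∈ E.U c' := hau.1 hunit
  have hU : IsAffineOpen (E.U c') := (E.affine c' hl').1
  have hη : η ∈ E.U c' := h.mem_open (E.U c').isOpen hx
  have k1 := (dominates_iff (E.U c') hU h hx hη V).1 hV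
  have k2 := (dominates_iff (E.U c') hU h' hj' hη V).1 hV'
  have k3 : ∀ b, (X.evaluation (E.U c') x hx).hom b = 0 ↔
      (X.evaluation (E.U c') x' hj').hom b = 0 := fun b => (k1 b).2.trans (k2 b).2.symm
  have s1 : x ⤳ x' := (specializes_iff_chart (E.U c') hU hj' hx).2 fun b hb => (k3 b).1 hb
  have s2 : x' ⤳ x := (specializes_iff_chart (E.U c') hU hx hj').2 fun b hb => (k3 b).2 hb
  exact (s1.antisymm s2).eq

end Pool.Agent.K1
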