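import Pool.Agent.K1.DDim
import Pool.Agent.K1.AffineFacts

/-!
# The centre on `Y` of a place over a point of `X`
-/

set_option autoImplicit false

open AlgebraicGeometry CategoryTheory

namespace Pool.Agent.K1

/-- The order of an element of the local ring is not negative. -/
theorem dcen_ord_nonneg {X : Scheme.{0}} [IsIntegral X] [IsLocallyNoetherian X] {x : X}
    (hx : Order.coheight x = 1) (s : X.presheaf.stalk x) (hs : s ≠ 0) :
    0 ≤ X.ord (algebraMap (X.presheaf.stalk x) X.functionField s) x := by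
  have hs' : algebraMap (X.presheaf.stalk x) X.functionField s ≠ 0 :=
    (map_ne_zero_iff _ (IsFractionRing.injective (X.presheaf.stalk x) X.functionField)).2 hs
  rw [Scheme.le_ord_iff hx hs']
  have : Ring.KrullDimLE 1 (X.presheaf.stalk x) := krullDimLE_of_coheight_le hx.le
  exact Ring.ordFrac_ge_one_of_ne_zero hs

/-- The order of a unit of the local ring is zero. -/
theorem dcen_ord_unit {X : Scheme.{0}} [IsIntegral X] [IsLocallyNoetherian X] {x : X}
    (hx : Order.coheight x = 1) (s : X.presheaf.stalk x) (hs : IsUnit s) :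
    X.ord (algebraMap (X.presheaf.stalk x) X.functionField s) x = 0 := by
  have hs' : algebraMap (X.presheaf.stalk x) X.functionField s ≠ 0 :=
    (map_ne_zero_iff _ (IsFractionRing.injective (X.presheaf.stalk x) X.functionField)).2
      hs.ne_zero
  rw [Scheme.ord_eq_iff hx hs']
  have : Ring.KrullDimLE 1 (X.presheaf.stalk x) := krullDimLE_of_coheight_le hx.le
  exact Ring.ordFrac_of_isUnit hs

/-- The order of a uniformizer is one. -/
theorem dcen_ord_irreducible {X : Scheme.{0}} [IsIntegral X] [IsLocallyNoetherian X] {x : X}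
    (hx : Order.coheight x = 1) (hr : IsRegularLocalRing (X.presheaf.stalk x))
    (s : X.presheaf.stalk x) (hs : Irreducible s) :
    X.ord (algebraMap (X.presheaf.stalk x) X.functionField s) x = 1 := by
  have hdvr := af_dvr hr hx
  have hs' : algebraMap (X.presheaf.stalk x) X.functionField s ≠ 0 :=
    (map_ne_zero_iff _ (IsFractionRing.injective (X.presheaf.stalk x) X.functionField)).2
      hs.ne_zero
  rw [Scheme.ord_eq_iff hx hs']
  have : Ring.KrullDimLE 1 (X.presheaf.stalk x) := krullDimLE_of_coheight_le hx.le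
  exact Ring.ordFrac_irreducible hs

theorem dcen_ord_zpow {X : Scheme.{0}} [IsIntegral X] [IsLocallyNoetherian X] {x : X}
    (f : X.functionField) (hf : f ≠ 0) (n : ℤ) : X.ord (f ^ n) x = n * X.ord f x := by
  have h1 : X.ord (1 : X.functionField) x = 0 := by
    have h := Scheme.ord_mul (x := x) (f := (1 : X.functionField)) (g := 1) one_ne_zero one_ne_zero
    rw [one_mul] at h
    linarith
  have hnat : ∀ m : ℕ, X.ord (f ^ m) x = m * X.ord f x := by
    intro m
    induction m with
    | zero => simp [h1]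
    | succ m ih =>
      rw [pow_succ, Scheme.ord_mul (pow_ne_zero _ hf) hf, ih]
      push_cast; ring
  obtain ⟨m, rfl | rfl⟩ := n.eq_nat_or_neg
  · rw [zpow_natCast, hnat]
  · have h := Scheme.ord_mul (x := x) (zpow_ne_zero (-(m : ℤ)) hf) (pow_ne_zero m hf)
    rw [zpow_neg, zpow_natCast, inv_mul_cancel₀ (pow_ne_zero m hf), h1, hnat] at h
    rw [zpow_neg, zpow_natCast]
    linarith

theorem dcen_unit_of_ord {X : Scheme.{0}} [IsIntegral X] [IsLocallyNoetherian X] {x : X}
    (hx : Order.coheight x = 1) (hr : IsRegularLocalRing (X.presheaf.stalk x))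
    (s : X.presheaf.stalk x) (hs : s ≠ 0)
    (h : X.ord (algebraMap (X.presheaf.stalk x) X.functionField s) x = 0) : IsUnit s := by
  have hdvr := af_dvr hr hx
  have hs' : algebraMap (X.presheaf.stalk x) X.functionField s ≠ 0 :=
    (map_ne_zero_iff _ (IsFractionRing.injective (X.presheaf.stalk x) X.functionField)).2 hs
  rw [Scheme.ord_eq_iff hx hs'] at h
  have : Ring.KrullDimLE 1 (X.presheaf.stalk x) := krullDimLE_of_coheight_le hx.le
  exact (Ring.isUnit_iff_ordFrac_one_of_isDiscreteValuationRing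
    (K := X.functionField)).2 h

/-- A nonzero element of the function field is a unit of the local ring times a power of the
uniformizer. -/
theorem dcen_unit_mul {Y : Scheme.{0}} [IsIntegral Y] [IsLocallyNoetherian Y] {y : Y}
    (hy : Order.coheight y = 1) (hr : IsRegularLocalRing (Y.presheaf.stalk y))
    (t : Y.presheaf.stalk y) (ht : Irreducible t) (g : Y.functionField) (hg : g ≠ 0) :
    ∃ u : (Y.presheaf.stalk y)ˣ, algebraMap (Y.presheaf.stalk y) Y.functionField u *
      (algebraMap (Y.presheaf.stalk y) Y.functionField t) ^ (Y.ord g y) = g := by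
  have hdvr := af_dvr hr hy
  have ht' : algebraMap (Y.presheaf.stalk y) Y.functionField t ≠ 0 :=
    (map_ne_zero_iff _ (IsFractionRing.injective (Y.presheaf.stalk y) Y.functionField)).2
      ht.ne_zero
  have h1 : Y.ord ((algebraMap (Y.presheaf.stalk y) Y.functionField t) ^ (Y.ord g y)) y =
      Y.ord g y := by
    rw [dcen_ord_zpow _ ht', dcen_ord_irreducible hy hr t ht, mul_one]
  have : Ring.KrullDimLE 1 (Y.presheaf.stalk y) := krullDimLE_of_coheight_le hy.le
  have h2 := (Scheme.ord_eq_iff hy (zpow_ne_zero _ ht')).1 h1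
  have h3 := (Scheme.ord_eq_iff (n := Y.ord g y) hy hg).1 rfl
  have h4 : Ring.ordFrac (Y.presheaf.stalk y)
      ((algebraMap (Y.presheaf.stalk y) Y.functionField t) ^ (Y.ord g y)) =
      Ring.ordFrac (Y.presheaf.stalk y) g := h2.trans h3.symm
  obtain ⟨u, hu⟩ := Ring.associated_of_ordFrac_eq _ _ h4
  refine ⟨u, ?_⟩
  rw [Units.smul_def, Algebra.smul_def] at hu
  exact hu

/-- An element of a valuation ring with inverse in the valuation ring is a unit. -/
theorem dcen_isUnit_iff {L : Type*} [Field L] (V : ValuationSubring L) (a : V)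
    (h0 : (a : L) ≠ 0) : IsUnit a ↔ (a : L)⁻¹ ∈ V := by
  constructor
  · rintro ⟨u, rfl⟩
    have h1 : ((u : V) : L) * (((u⁻¹ : Vˣ) : V) : L) = 1 := by
      rw [← V.coe_mul, Units.mul_inv]; rfl
    rw [inv_eq_of_mul_eq_one_right h1]
    exact ((u⁻¹ : Vˣ) : V).2
  · intro h
    refine ⟨⟨a, ⟨_, h⟩, Subtype.ext ?_, Subtype.ext ?_⟩, rfl⟩
    · exact mul_inv_cancel₀ h0
    · exact inv_mul_cancel₀ h0

theorem exists_centre {Y X : Scheme.{0}} [IsIntegral Y] [IsIntegral X] [IsLocallyNoetherian Y]
    [IsLocallyNoetherian X] {π : Y ⟶ X} (P : ProEt π)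
    (hX : ∀ x : X, IsRegularLocalRing (X.presheaf.stalk x))
    (hY : ∀ y : Y, IsRegularLocalRing (Y.presheaf.stalk y)) (x : X)
    (hx : Order.coheight x = 1) {L : Type} [Field L] (j : Y.functionField →+* L)
    (V : ValuationSubring L) (v : Additive Lˣ →+ ℚ)
    (hv : ∀ a : Lˣ, (a : L) ∈ V ↔ 0 ≤ v (Additive.ofMul a))
    (hvx : ∀ f : X.functionFieldˣ, v (Additive.ofMul (Units.map (j.comp P.ψ).toMonoidHom f)) =
        X.ord (f : X.functionField) x) :
    ∃ y : Y, π y = x ∧
      (∀ g : Y.functionFieldˣ, v (Additive.ofMul (Units.map j.toMonoidHom g)) =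
        Y.ord (g : Y.functionField) y) ∧
      ∃ (loc : Y.presheaf.stalk y →+* V)
        (res : Y.residueField y →+* IsLocalRing.ResidueField V),
        (∀ s, ((loc s : V) : L) = j (algebraMap _ Y.functionField s)) ∧
        ∀ s, res ((Y.residue y).hom s) = IsLocalRing.residue V (loc s) := by
  obtain ⟨y0, rfl⟩ := P.surj x
  have hi := P.integral
  have hjψ : ∀ s : X.presheaf.stalk (π y0), s ≠ 0 →
      P.ψ (algebraMap _ X.functionField s) ≠ 0 := by
    intro s hs
    rw [map_ne_zero]
    exact (map_ne_zero_iff _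
      (IsFractionRing.injective (X.presheaf.stalk (π y0)) X.functionField)).2 hs
  -- the local ring of `X` maps to the valuation ring
  have hmem : ∀ s : X.presheaf.stalk (π y0), j (P.ψ (algebraMap _ X.functionField s)) ∈ V := by
    intro s
    by_cases hs : s = 0
    · rw [hs, map_zero, map_zero, map_zero]; exact V.zero_mem
    · have h0 := hjψ s hs
      have h1 : algebraMap (X.presheaf.stalk (π y0)) X.functionField s ≠ 0 := by
        intro h; exact h0 (by rw [h, map_zero])
      have h2 := (hv (Units.map (j.comp P.ψ).toMonoidHom (Units.mk0 _ h1))).2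
        (by rw [hvx]; exact_mod_cast dcen_ord_nonneg hx s hs)
      exact h2
  have hunit : ∀ s : X.presheaf.stalk (π y0),
      IsUnit (⟨j (P.ψ (algebraMap _ X.functionField s)), hmem s⟩ : V) ↔ IsUnit s := by
    intro s
    by_cases hs : s = 0
    · subst hs
      constructor
      · intro h
        exfalso
        refine h.ne_zero (Subtype.ext ?_)
        change j (P.ψ (algebraMap _ X.functionField 0)) = 0
        rw [map_zero, map_zero, map_zero]
      · intro h
        exact absurd rfl h.ne_zero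
    · have h0 := hjψ s hs
      have h1 : algebraMap (X.presheaf.stalk (π y0)) X.functionField s ≠ 0 := by
        intro h; exact h0 (by rw [h, map_zero])
      have h3 : j (P.ψ (algebraMap _ X.functionField s)) ≠ 0 := (map_ne_zero j).2 h0
      have h4 : (j (P.ψ (algebraMap _ X.functionField s)))⁻¹ ∈ V ↔
          X.ord (algebraMap _ X.functionField s) (π y0) ≤ 0 := by
        have h5 := hv (Units.map (j.comp P.ψ).toMonoidHom (Units.mk0 _ h1))⁻¹
        rw [ofMul_inv, map_neg, hvx, neg_nonneg] at h5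
        have h6 : (((Units.map (j.comp P.ψ).toMonoidHom (Units.mk0 _ h1))⁻¹ : Lˣ) : L) =
            (j (P.ψ (algebraMap _ X.functionField s)))⁻¹ := by
          rw [Units.val_inv_eq_inv_val]; rfl
        rw [h6] at h5
        rw [h5]
        exact_mod_cast Iff.rfl
      rw [dcen_isUnit_iff V _ h3, h4]
      constructor
      · intro h
        exact dcen_unit_of_ord hx (hX _) s hs (le_antisymm h (dcen_ord_nonneg hx s hs))
      · intro h
        exact (dcen_ord_unit hx s h).le
  -- the affine neighbourhood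
  obtain ⟨U, hU, hyU, -⟩ := exists_isAffineOpen_mem_and_subset (x := π y0) (U := ⊤) trivial
  have hW : IsAffineOpen (π ⁻¹ᵁ U) := hU.preimage π
  have hyW : y0 ∈ π ⁻¹ᵁ U := hyU
  have hneU : Nonempty U := ⟨⟨_, hyU⟩⟩
  have hneW : Nonempty (π ⁻¹ᵁ U : Y.Opens) := ⟨⟨_, hyW⟩⟩
  let gB : Γ(Y, π ⁻¹ᵁ U) →+* L := j.comp (Y.germToFunctionField (π ⁻¹ᵁ U)).hom
  have hgA : ∀ a : Γ(X, U), gB ((π.app U).hom a) =
      j (P.ψ (algebraMap _ X.functionField ((X.presheaf.germ U (π y0) hyU).hom a))) := by
    intro a
    rw [P.ψ_stalk y0]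
    have h1 : (π.stalkMap y0).hom ((X.presheaf.germ U (π y0) hyU).hom a) =
        (Y.presheaf.germ (π ⁻¹ᵁ U) y0 hyW).hom ((π.app U).hom a) := by
      have h := Scheme.Hom.germ_stalkMap π U y0 hyU
      have h' := congrArg (fun g => g.hom a) h
      simpa using h'
    rw [h1, Scheme.algebraMap_germ_eq_germToFunctionField Y hyW]
    rfl
  have hgB : ∀ b, gB b ∈ V := by
    intro b
    obtain ⟨p, hp, hpb⟩ := hi.isIntegral_app U hU b
    let gA : Γ(X, U) →+* V := (gB.comp (π.app U).hom).codRestrict V
      (fun a => by rw [RingHom.comp_apply, hgA]; exact hmem _)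
    have h1 : IsIntegral V (gB b) := by
      refine ⟨p.map gA, hp.map _, ?_⟩
      rw [Polynomial.eval₂_map]
      have h2 : (algebraMap V L).comp gA = gB.comp (π.app U).hom := by
        ext a; rfl
      rw [h2, ← Polynomial.hom_eval₂, hpb, map_zero]
    obtain ⟨c, hc⟩ := (IsIntegrallyClosed.isIntegral_iff (R := V) (K := L)).1 h1
    rw [← hc]
    exact c.2
  let φ : Γ(Y, π ⁻¹ᵁ U) →+* V := gB.codRestrict V hgB
  have hφ : ∀ b, ((φ b : V) : L) = gB b := fun b => rfl
  let q : Ideal Γ(Y, π ⁻¹ᵁ U) := (IsLocalRing.maximalIdeal V).comap φ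
  have hqp : q.IsPrime := Ideal.comap_isPrime φ _
  have hq : ∀ b, b ∈ q ↔ ¬ IsUnit (φ b) := fun b => by
    rw [Ideal.mem_comap]; exact IsLocalRing.mem_maximalIdeal _
  let Q : PrimeSpectrum Γ(Y, π ⁻¹ᵁ U) := ⟨q, hqp⟩
  have hcomm : ∀ T : Spec Γ(Y, π ⁻¹ᵁ U), hU.fromSpec (Spec.map (π.app U) T) =
      π (hW.fromSpec T) := by
    intro T
    have h1 := IsAffineOpen.SpecMap_appLE_fromSpec π hU hW le_rfl
    rw [← Scheme.Hom.app_eq_appLE] at h1
    have h2 := congrArg (fun g : Spec Γ(Y, π ⁻¹ᵁ U) ⟶ X => g T) h1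
    simpa using h2
  have hxy : π (hW.fromSpec Q) = π y0 := by
    obtain ⟨p, hp⟩ := af_surj hU hyU
    rw [← hcomm, ← hp]
    congr 1
    apply PrimeSpectrum.ext
    ext a
    have hmp := af_mem hU p
    have h1 := af_germ_unit hU p hmp a
    change (π.app U).hom a ∈ q ↔ a ∈ p.asIdeal
    rw [hq, not_iff_comm, ← h1]
    have h2 : φ ((π.app U).hom a) = ⟨j (P.ψ (algebraMap _ X.functionField
        ((X.presheaf.germ U (π y0) hyU).hom a))), hmem _⟩ := Subtype.ext (hgA a)
    rw [h2, hunit]
    have h3 : ∀ (z : X) (hz : z ∈ U) (h : z = π y0),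
        (IsUnit ((X.presheaf.germ U z hz).hom a) ↔
          IsUnit ((X.presheaf.germ U (π y0) hyU).hom a)) := by
      rintro z hz rfl
      exact Iff.rfl
    exact h3 _ _ hp
  set y : Y := hW.fromSpec Q with hydef
  have hyW' : y ∈ π ⁻¹ᵁ U := af_mem hW Q
  have hx' : Order.coheight (π y) = 1 := by rw [hxy]; exact hx
  have hy1 : Order.coheight y = 1 := by rw [← coheight_pi P y]; exact hx'
  have hstalk : ∀ s : Y.presheaf.stalk y, ∃ b t, t ∉ q ∧
      s * (Y.presheaf.germ (π ⁻¹ᵁ U) y hyW').hom t =
        (Y.presheaf.germ (π ⁻¹ᵁ U) y hyW').hom b := by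
    intro s
    let _ := (Y.presheaf.germ (π ⁻¹ᵁ U) y hyW').hom.toAlgebra
    have hloc : IsLocalization.AtPrime (Y.presheaf.stalk y) Q.asIdeal := af_loc hW Q hyW'
    obtain ⟨b, t, hb⟩ := IsLocalization.exists_mk'_eq Q.asIdeal.primeCompl s
    refine ⟨b, t, t.2, ?_⟩
    have h5 := IsLocalization.mk'_spec (Y.presheaf.stalk y) b t
    rw [hb] at h5
    exact h5
  have hgerm : ∀ b : Γ(Y, π ⁻¹ᵁ U), j (algebraMap (Y.presheaf.stalk y) Y.functionField
      ((Y.presheaf.germ (π ⁻¹ᵁ U) y hyW').hom b)) = gB b := by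
    intro b
    rw [Scheme.algebraMap_germ_eq_germToFunctionField Y hyW']
    rfl
  have hlmem : ∀ s : Y.presheaf.stalk y, j (algebraMap _ Y.functionField s) ∈ V := by
    intro s
    obtain ⟨b, t, ht, hs⟩ := hstalk s
    have h1 := congrArg (fun z => j (algebraMap (Y.presheaf.stalk y) Y.functionField z)) hs
    simp only [map_mul] at h1
    rw [hgerm, hgerm] at h1
    have h2 : IsUnit (φ t) := by
      by_contra h
      exact ht ((hq t).2 h)
    have h3 : gB t ≠ 0 := by
      intro h
      exact h2.ne_zero (Subtype.ext h)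
    have h4 := (dcen_isUnit_iff V (φ t) h3).1 h2
    have h5 : j (algebraMap _ Y.functionField s) = gB b * (gB t)⁻¹ := by
      rw [← h1, mul_assoc, mul_inv_cancel₀ h3, mul_one]
    rw [h5]
    exact V.mul_mem _ _ (hgB b) h4
  let loc : Y.presheaf.stalk y →+* V :=
    (j.comp (algebraMap (Y.presheaf.stalk y) Y.functionField)).codRestrict V hlmem
  have hlocal : IsLocalHom loc := by
    refine ⟨fun s hs => ?_⟩
    obtain ⟨b, t, ht, hbt⟩ := hstalk s
    have h2 : IsUnit (φ t) := by
      by_contra h
      exact ht ((hq t).2 h)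
    have h1 : loc s * φ t = φ b := by
      apply Subtype.ext
      have h1 := congrArg (fun z => j (algebraMap (Y.presheaf.stalk y) Y.functionField z)) hbt
      simp only [map_mul] at h1
      rw [hgerm, hgerm] at h1
      exact h1
    have h3 : b ∉ q := by
      rw [hq, not_not, ← h1]
      exact hs.mul h2
    have h4 := (af_germ_unit hW Q hyW' b).2 h3
    rw [← hbt] at h4
    exact isUnit_of_mul_isUnit_left h4
  refine ⟨y, hxy, ?_, loc, IsLocalRing.ResidueField.map loc, fun s => rfl, fun s => ?_⟩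
  · intro g
    have hvx' : ∀ f : X.functionFieldˣ,
        v (Additive.ofMul (Units.map (j.comp P.ψ).toMonoidHom f)) =
        X.ord (f : X.functionField) (π y) := by
      intro f
      rw [hvx, hxy]
    have hdx := af_dvr (hX (π y)) hx'
    have hdy := af_dvr (hY y) hy1
    obtain ⟨t, ht⟩ := IsDiscreteValuationRing.exists_irreducible (X.presheaf.stalk (π y))
    have ht' : Irreducible ((π.stalkMap y).hom t) := by
      rw [IsDiscreteValuationRing.irreducible_iff_uniformizer, ← P.unram y,
        (IsDiscreteValuationRing.irreducible_iff_uniformizer t).1 ht, Ideal.map_span,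
        Set.image_singleton]
    have ht0 : algebraMap (X.presheaf.stalk (π y)) X.functionField t ≠ 0 :=
      (map_ne_zero_iff _ (IsFractionRing.injective (X.presheaf.stalk (π y))
        X.functionField)).2 ht.ne_zero
    obtain ⟨u, hu⟩ := dcen_unit_mul hy1 (hY y) _ ht' (g : Y.functionField) g.ne_zero
    have hu0 : algebraMap (Y.presheaf.stalk y) Y.functionField (u : Y.presheaf.stalk y) ≠ 0 :=
      (map_ne_zero_iff _ (IsFractionRing.injective (Y.presheaf.stalk y)
        Y.functionField)).2 u.ne_zero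
    have hg : Units.map j.toMonoidHom g = Units.map j.toMonoidHom (Units.mk0 _ hu0) *
        (Units.map (j.comp P.ψ).toMonoidHom (Units.mk0 _ ht0)) ^ (Y.ord (g : Y.functionField) y) := by
      apply Units.ext
      have h1 : ((Units.map j.toMonoidHom g : Lˣ) : L) = j (g : Y.functionField) := rfl
      rw [h1]
      conv_lhs => rw [← hu]
      rw [map_mul, map_zpow₀, Units.val_mul, Units.val_zpow_eq_zpow_val, ← P.ψ_stalk y t]
      rfl
    have hv0 : v (Additive.ofMul (Units.map j.toMonoidHom (Units.mk0 _ hu0))) = 0 := by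
      apply le_antisymm
      · have h1 := (hv (Units.map j.toMonoidHom (Units.mk0 _ hu0))⁻¹).1 (by
          have h2 := hlmem ((u⁻¹ : (Y.presheaf.stalk y)ˣ) : Y.presheaf.stalk y)
          have h3 : (((Units.map j.toMonoidHom (Units.mk0 _ hu0))⁻¹ : Lˣ) : L) =
              j (algebraMap _ Y.functionField
                ((u⁻¹ : (Y.presheaf.stalk y)ˣ) : Y.presheaf.stalk y)) := by
            rw [Units.val_inv_eq_inv_val]
            change (j (algebraMap _ Y.functionField (u : Y.presheaf.stalk y)))⁻¹ = _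
            apply inv_eq_of_mul_eq_one_right
            rw [← map_mul, ← map_mul, Units.mul_inv, map_one, map_one]
          rw [h3]
          exact h2)
        rw [ofMul_inv, map_neg, neg_nonneg] at h1
        exact h1
      · exact (hv _).1 (hlmem u)
    rw [hg, ofMul_mul, map_add, hv0, zero_add, ofMul_zpow, map_zsmul, hvx']
    rw [Units.val_mk0, dcen_ord_irreducible hx' (hX _) t ht]
    simp
  · exact IsLocalRing.ResidueField.map_residue loc s

end Pool.Agent.K1
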