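import Pool.Agent.K1.L3Defs

/-!
L3-01: the embedding data of a closed integral subscheme of projective space.
-/

set_option autoImplicit false

open AlgebraicGeometry CategoryTheory HomogeneousLocalization

attribute [local instance] MvPolynomial.gradedAlgebra

namespace Pool.Agent.K1
namespace EmbAux

section algebra

/-- Scaling the variables of a homogeneous polynomial. -/
theorem eval₂_scale {σ R A : Type*} [CommSemiring R] [CommRing A] (f : R →+* A) (g : σ → A) (r : A)
    {m : ℕ} {F : MvPolynomial σ R} (hF : F.IsHomogeneous m) :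
    MvPolynomial.eval₂ f (fun i => r * g i) F = r ^ m * MvPolynomial.eval₂ f g F := by
  rw [MvPolynomial.eval₂_eq, MvPolynomial.eval₂_eq, Finset.mul_sum]
  refine Finset.sum_congr rfl fun d hd => ?_
  have h1 := hF (MvPolynomial.mem_support_iff.1 hd)
  simp only [mul_pow, Finset.prod_mul_distrib, Finset.prod_pow_eq_pow_sum]
  have h2 : ∑ i ∈ d.support, d i = m := by
    rw [← h1, Finsupp.weight_apply, Finsupp.sum]
    simp
  rw [h2]; ring

variable {k : Type} [Field k] {n : ℕ}

/-- The linear form with coefficients `c`. -/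
noncomputable def lf (c : Fin (n + 1) → k) : MvPolynomial (Fin (n + 1)) k :=
  ∑ j, MvPolynomial.C (c j) * MvPolynomial.X j

theorem lf_mem (c : Fin (n + 1) → k) :
    lf c ∈ MvPolynomial.homogeneousSubmodule (Fin (n + 1)) k 1 := by
  refine Submodule.sum_mem _ fun j _ => ?_
  rw [MvPolynomial.mem_homogeneousSubmodule]
  simpa using (MvPolynomial.isHomogeneous_C (Fin (n + 1)) (c j)).mul
    (MvPolynomial.isHomogeneous_X k j)

theorem lf_single (j : Fin (n + 1)) : lf (Pi.single j (1 : k)) = MvPolynomial.X j := by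
  rw [lf, Finset.sum_eq_single j]
  · simp
  · intro b _ hb
    simp [hb]
  · simp

theorem zero_eq_C (r : MvPolynomial.homogeneousSubmodule (Fin (n + 1)) k 0) :
    ∃ a : k, r = algebraMap k _ a := by
  refine ⟨MvPolynomial.coeff 0 (r : MvPolynomial (Fin (n + 1)) k), ?_⟩
  have h := (MvPolynomial.mem_homogeneousSubmodule _ _).1 r.2
  apply Subtype.ext
  have h2 := MvPolynomial.totalDegree_eq_zero_iff_eq_C (p := (r : MvPolynomial (Fin (n + 1)) k))
  exact h2.1 (Nat.le_zero.1 (MvPolynomial.IsHomogeneous.totalDegree_le h))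

end algebra

section point

variable {k : Type} [Field k] {n : ℕ} {X : Scheme.{0}} (i : X ⟶ PN k n)

/-- The polynomials vanishing at the image of the point `x`. -/
noncomputable def pt (x : X) : Ideal (MvPolynomial (Fin (n + 1)) k) :=
  (ProjectiveSpectrum.asHomogeneousIdeal (i x)).toIdeal

instance (x : X) : (pt i x).IsPrime := (i x).isPrime

/-- From the homogeneous localization to the stalk. -/
noncomputable def Φ (x : X) :
    AtPrime (MvPolynomial.homogeneousSubmodule (Fin (n + 1)) k) (pt i x) →+*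
      X.presheaf.stalk x :=
  ((Proj.stalkIso (MvPolynomial.homogeneousSubmodule (Fin (n + 1)) k) (i x)).inv ≫
    i.stalkMap x).hom

instance (x : X) : IsLocalHom (Φ i x) := by
  have h1 : IsLocalHom (Proj.stalkIso
    (MvPolynomial.homogeneousSubmodule (Fin (n + 1)) k) (i x)).inv.hom := isLocalHom_of_isIso _
  have h2 : IsLocalHom (i.stalkMap x).hom := inferInstance
  constructor
  intro a ha
  exact h1.map_nonunit _ (h2.map_nonunit _ ha)

/-- The nonvanishing locus of the form `F`. -/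
noncomputable def UU (F : MvPolynomial (Fin (n + 1)) k) : X.Opens :=
  i ⁻¹ᵁ (Proj.basicOpen (MvPolynomial.homogeneousSubmodule (Fin (n + 1)) k) F)

theorem mem_UU (F : MvPolynomial (Fin (n + 1)) k) (x : X) : x ∈ UU i F ↔ F ∉ pt i x := Iff.rfl

/-- The section of `O_X` given by an element of the homogeneous localization. -/
noncomputable def ψ (F : MvPolynomial (Fin (n + 1)) k) :
    Away (MvPolynomial.homogeneousSubmodule (Fin (n + 1)) k) F →+* Γ(X, UU i F) :=
  (Proj.awayToSection (MvPolynomial.homogeneousSubmodule (Fin (n + 1)) k) F ≫ i.app _).hom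

theorem germ_ψ (F : MvPolynomial (Fin (n + 1)) k) (x : X) (hx : x ∈ UU i F)
    (z : Away (MvPolynomial.homogeneousSubmodule (Fin (n + 1)) k) F) :
    (X.presheaf.germ (UU i F) x hx).hom (ψ i F z) =
      Φ i x (HomogeneousLocalization.mapId _ (Submonoid.powers_le.mpr
        (show F ∈ (pt i x).primeCompl from hx)) z) := by
  have h := congrArg (fun f => f.hom z) (ProjectiveSpectrum.Proj.awayToSection_germ
    (MvPolynomial.homogeneousSubmodule (Fin (n + 1)) k) F (i x) hx)
  have h1 := Scheme.Hom.germ_stalkMap_apply i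
    (Proj.basicOpen (MvPolynomial.homogeneousSubmodule (Fin (n + 1)) k) F) x hx
    (Proj.awayToSection (MvPolynomial.homogeneousSubmodule (Fin (n + 1)) k) F z)
  refine Eq.trans h1.symm ?_
  exact congrArg (i.stalkMap x).hom h

/-- The fraction `F / G` at the point `x`. -/
noncomputable def fr (x : X) (m : ℕ) (F G : MvPolynomial (Fin (n + 1)) k)
    (hF : F ∈ MvPolynomial.homogeneousSubmodule (Fin (n + 1)) k m)
    (hG : G ∈ MvPolynomial.homogeneousSubmodule (Fin (n + 1)) k m) (h : G ∉ pt i x) :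
    AtPrime (MvPolynomial.homogeneousSubmodule (Fin (n + 1)) k) (pt i x) :=
  HomogeneousLocalization.mk ⟨m, ⟨F, hF⟩, ⟨G, hG⟩, h⟩

theorem isUnit_fr (x : X) (m : ℕ) (F G : MvPolynomial (Fin (n + 1)) k)
    (hF : F ∈ MvPolynomial.homogeneousSubmodule (Fin (n + 1)) k m)
    (hG : G ∈ MvPolynomial.homogeneousSubmodule (Fin (n + 1)) k m) (h : G ∉ pt i x) :
    IsUnit (Φ i x (fr i x m F G hF hG h)) ↔ F ∉ pt i x := by
  rw [isUnit_map_iff, ← isUnit_iff_isUnit_val, fr, HomogeneousLocalization.val_mk,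
    Localization.mk_eq_mk']
  rw [IsLocalization.AtPrime.isUnit_mk'_iff (S := Localization.AtPrime (pt i x)) (pt i x)]
  rfl

theorem germ_ψ_mk (F : MvPolynomial (Fin (n + 1)) k) (x : X) (hx : x ∈ UU i F) {d : ℕ}
    (hF : F ∈ MvPolynomial.homogeneousSubmodule (Fin (n + 1)) k d) (m : ℕ)
    (G : MvPolynomial (Fin (n + 1)) k)
    (hG : G ∈ MvPolynomial.homogeneousSubmodule (Fin (n + 1)) k (m • d)) :
    (X.presheaf.germ (UU i F) x hx).hom (ψ i F (Away.mk _ hF m G hG)) =
      Φ i x (fr i x (m • d) G (F ^ m) hG (SetLike.pow_mem_graded m hF)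
        (fun h => hx ((inferInstance : (pt i x).IsPrime).mem_of_pow_mem m h))) := by
  rw [germ_ψ]
  rfl

/-- The scalars in the homogeneous localization. -/
noncomputable def ζ (x : X) : k →+*
    AtPrime (MvPolynomial.homogeneousSubmodule (Fin (n + 1)) k) (pt i x) :=
  (fromZeroRingHom (MvPolynomial.homogeneousSubmodule (Fin (n + 1)) k) _).comp
    (algebraMap k (MvPolynomial.homogeneousSubmodule (Fin (n + 1)) k 0))

theorem val_ζ (x : X) (a : k) :
    (ζ i x a).val = algebraMap (MvPolynomial (Fin (n + 1)) k) (Localization.AtPrime (pt i x))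
      (MvPolynomial.C a) := by
  rw [ζ, RingHom.comp_apply, ← HomogeneousLocalization.algebraMap_eq]
  rw [← HomogeneousLocalization.algebraMap_apply, ← IsScalarTower.algebraMap_apply]
  rfl

theorem val_fr (x : X) (m : ℕ) (F G : MvPolynomial (Fin (n + 1)) k)
    (hF : F ∈ MvPolynomial.homogeneousSubmodule (Fin (n + 1)) k m)
    (hG : G ∈ MvPolynomial.homogeneousSubmodule (Fin (n + 1)) k m) (h : G ∉ pt i x) :
    (fr i x m F G hF hG h).val * algebraMap (MvPolynomial (Fin (n + 1)) k)
      (Localization.AtPrime (pt i x)) G =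
      algebraMap (MvPolynomial (Fin (n + 1)) k) (Localization.AtPrime (pt i x)) F := by
  rw [fr, HomogeneousLocalization.val_mk, Localization.mk_eq_mk']
  exact IsLocalization.mk'_spec (Localization.AtPrime (pt i x)) F
    (⟨G, h⟩ : (pt i x).primeCompl)

theorem fr_eq_eval₂ (x : X) (t : MvPolynomial (Fin (n + 1)) k)
    (ht : t ∈ MvPolynomial.homogeneousSubmodule (Fin (n + 1)) k 1) (h : t ∉ pt i x)
    (m : ℕ) (F : MvPolynomial (Fin (n + 1)) k)
    (hF : F ∈ MvPolynomial.homogeneousSubmodule (Fin (n + 1)) k m)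
    (htm : t ^ m ∈ MvPolynomial.homogeneousSubmodule (Fin (n + 1)) k m)
    (hm : t ^ m ∉ pt i x) :
    fr i x m F (t ^ m) hF htm hm = MvPolynomial.eval₂ (ζ i x)
      (fun j => fr i x 1 (MvPolynomial.X j) t
        ((MvPolynomial.mem_homogeneousSubmodule _ _).2 (MvPolynomial.isHomogeneous_X k j)) ht h)
      F := by
  apply HomogeneousLocalization.val_injective
  rw [← HomogeneousLocalization.algebraMap_apply, ← HomogeneousLocalization.algebraMap_apply,
    MvPolynomial.eval₂_comp_left]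
  set B := Localization.AtPrime (pt i x)
  have hu : IsUnit (algebraMap (MvPolynomial (Fin (n + 1)) k) B t) :=
    IsLocalization.map_units B (⟨t, h⟩ : (pt i x).primeCompl)
  obtain ⟨r, hr⟩ := hu.exists_right_inv
  have h1 : (fun j => r * (algebraMap (MvPolynomial (Fin (n + 1)) k) B (MvPolynomial.X j))) =
      (algebraMap (AtPrime (MvPolynomial.homogeneousSubmodule (Fin (n + 1)) k) (pt i x)) B) ∘
        (fun j => fr i x 1 (MvPolynomial.X j) t
        ((MvPolynomial.mem_homogeneousSubmodule _ _).2 (MvPolynomial.isHomogeneous_X k j)) ht h)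
      := by
    funext j
    have h2 := val_fr i x 1 (MvPolynomial.X j) t
      ((MvPolynomial.mem_homogeneousSubmodule _ _).2 (MvPolynomial.isHomogeneous_X k j)) ht h
    rw [Function.comp_apply, HomogeneousLocalization.algebraMap_apply, ← h2]
    linear_combination (fr i x 1 (MvPolynomial.X j) t
      ((MvPolynomial.mem_homogeneousSubmodule _ _).2 (MvPolynomial.isHomogeneous_X k j)) ht
        h).val * hr
  have h2 : (algebraMap (AtPrime (MvPolynomial.homogeneousSubmodule (Fin (n + 1)) k)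
      (pt i x)) B).comp (ζ i x) = (algebraMap (MvPolynomial (Fin (n + 1)) k) B).comp
        MvPolynomial.C := by
    ext a
    exact val_ζ i x a
  rw [← h1, h2, eval₂_scale _ _ _ ((MvPolynomial.mem_homogeneousSubmodule _ _).1 hF)]
  have h3 : MvPolynomial.eval₂ ((algebraMap (MvPolynomial (Fin (n + 1)) k) B).comp
      MvPolynomial.C) (fun j => algebraMap (MvPolynomial (Fin (n + 1)) k) B
        (MvPolynomial.X j)) F = algebraMap (MvPolynomial (Fin (n + 1)) k) B F := by
    have := MvPolynomial.eval₂_comp_left (algebraMap (MvPolynomial (Fin (n + 1)) k) B)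
      MvPolynomial.C MvPolynomial.X F
    rw [MvPolynomial.eval₂_eta] at this
    exact this.symm
  rw [h3, ← val_fr i x m F (t ^ m) hF htm hm, map_pow, HomogeneousLocalization.algebraMap_apply]
  have h4 : r ^ m * algebraMap (MvPolynomial (Fin (n + 1)) k) B t ^ m = 1 := by
    rw [← mul_pow, mul_comm, hr, one_pow]
  linear_combination - (fr i x m F (t ^ m) hF htm hm).val * h4

theorem fr_mul_fr (x : X) (m : ℕ) (F G H : MvPolynomial (Fin (n + 1)) k)
    (hF : F ∈ MvPolynomial.homogeneousSubmodule (Fin (n + 1)) k m)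
    (hG : G ∈ MvPolynomial.homogeneousSubmodule (Fin (n + 1)) k m) (h : G ∉ pt i x)
    (hH : H ∈ MvPolynomial.homogeneousSubmodule (Fin (n + 1)) k m) (h' : H ∉ pt i x) :
    fr i x m F G hF hG h * fr i x m G H hG hH h' = fr i x m F H hF hH h' := by
  apply HomogeneousLocalization.val_injective
  rw [HomogeneousLocalization.val_mul]
  set B := Localization.AtPrime (pt i x)
  have hu : IsUnit (algebraMap (MvPolynomial (Fin (n + 1)) k) B H) :=
    IsLocalization.map_units B (⟨H, h'⟩ : (pt i x).primeCompl)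
  apply hu.mul_right_cancel
  rw [mul_assoc, val_fr, val_fr, val_fr]

end point

section struct

universe u
variable {σ : Type*} {A : Type u} [CommRing A] [SetLike σ A] [AddSubgroupClass σ A]
  (𝒜 : ℕ → σ) [GradedRing 𝒜]

theorem ι_toSpecZero {f : A} {m : ℕ} (hf : f ∈ 𝒜 m) (hm : 0 < m) :
    (Proj.basicOpen 𝒜 f).ι ≫ Proj.toSpecZero 𝒜 = Proj.basicOpenToSpec 𝒜 f ≫
      Spec.map (CommRingCat.ofHom (fromZeroRingHom 𝒜 _)) := by
  have h := Proj.awayι_toSpecZero 𝒜 f hf hm
  rw [← Proj.basicOpenIsoSpec_inv_ι, Category.assoc, Iso.inv_comp_eq,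
    Proj.basicOpenIsoSpec_hom] at h
  exact h

theorem res_toSpecZero {f : A} {m : ℕ} (hf : f ∈ 𝒜 m) (hm : 0 < m) :
    (Scheme.ΓSpecIso (.of (𝒜 0))).inv ≫ (Proj.toSpecZero 𝒜).appTop ≫
      (Proj 𝒜).presheaf.map (homOfLE (le_top : Proj.basicOpen 𝒜 f ≤ ⊤)).op =
    CommRingCat.ofHom (fromZeroRingHom 𝒜 _) ≫ Proj.awayToSection 𝒜 f := by
  have h := congrArg (fun g => Scheme.Hom.appTop g) (ι_toSpecZero 𝒜 hf hm)
  simp only [Scheme.Hom.comp_appTop] at h
  have h1 : (Proj.basicOpenToSpec 𝒜 f).appTop = (Scheme.ΓSpecIso _).hom ≫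
      Proj.awayToSection 𝒜 f ≫ (Proj.basicOpen 𝒜 f).topIso.inv :=
    Proj.basicOpenToSpec_app_top 𝒜 f
  rw [← cancel_mono (Proj.basicOpen 𝒜 f).topIso.inv]
  have h2 : (Proj 𝒜).presheaf.map (homOfLE (le_top : Proj.basicOpen 𝒜 f ≤ ⊤)).op ≫
      (Proj.basicOpen 𝒜 f).topIso.inv = (Proj.basicOpen 𝒜 f).ι.appTop := by
    rw [Scheme.Opens.topIso_inv, Scheme.Opens.ι_appTop]
    exact ((Proj 𝒜).presheaf.map_comp _ _).symm
  have h3 := Scheme.ΓSpecIso_inv_naturality
    (CommRingCat.ofHom (fromZeroRingHom 𝒜 (Submonoid.powers f)))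
  rw [Category.assoc, Category.assoc, Category.assoc, h2, h, h1, ← Category.assoc, ← h3]
  simp

end struct

theorem fromSpecStalk_appTop' {X : Scheme.{0}} (x : X) :
    (X.fromSpecStalk x).appTop = X.presheaf.germ ⊤ x trivial ≫
      (Scheme.ΓSpecIso (X.presheaf.stalk x)).inv := by
  rw [Scheme.fromSpecStalk_appTop]
  have h : (Spec (X.presheaf.stalk x)).presheaf.map
    (homOfLE (le_top : (⊤ : (Spec (X.presheaf.stalk x)).Opens) ≤ ⊤)).op = 𝟙 _ :=
    (Spec (X.presheaf.stalk x)).presheaf.map_id _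
  refine congrArg (fun g => X.presheaf.germ ⊤ x trivial ≫ g) ?_
  refine (congrArg (fun g => (Scheme.ΓSpecIso (X.presheaf.stalk x)).inv ≫ g) h).trans ?_
  exact Category.comp_id _

theorem fromSpecResidueField_appTop {X : Scheme.{0}} (x : X) :
    (X.fromSpecResidueField x).appTop = X.evaluation ⊤ x trivial ≫
      (Scheme.ΓSpecIso (X.residueField x)).inv := by
  rw [Scheme.fromSpecResidueField, Scheme.Hom.comp_appTop, fromSpecStalk_appTop',
    Category.assoc, ← Scheme.ΓSpecIso_inv_naturality]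
  rfl

theorem exists_center {X : Scheme.{0}} {B : Type} [CommRing B] (f : X ⟶ Spec (.of B))
    [UniversallyClosed f] (x : X) (V : ValuationSubring (X.residueField x))
    (hV : ∀ b : B, (X.evaluation ⊤ x trivial).hom
      (f.appTop.hom ((Scheme.ΓSpecIso (.of B)).inv.hom b)) ∈ V) :
    ∃ (y : X) (h : x ⤳ y), ∀ b : X.presheaf.stalk y, evalAt h b ∈ V := by
  have hex : ValuativeCriterion.Existence f := by
    have h := (inferInstance : UniversallyClosed f)
    rw [UniversallyClosed.eq_valuativeCriterion] at h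
    exact h.1
  let β : B →+* V := (((X.evaluation ⊤ x trivial).hom.comp f.appTop.hom).comp
    (Scheme.ΓSpecIso (.of B)).inv.hom).codRestrict V.toSubring hV
  have hsq : X.fromSpecResidueField x ≫ f =
      Spec.map (CommRingCat.ofHom (algebraMap V (X.residueField x))) ≫
        Spec.map (CommRingCat.ofHom β) := by
    apply ext_of_isAffine
    rw [Scheme.Hom.comp_appTop, fromSpecResidueField_appTop, ← Spec.map_comp]
    rw [← Category.assoc, ← cancel_epi (Scheme.ΓSpecIso (.of B)).inv,
      ← Scheme.ΓSpecIso_inv_naturality]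
    rfl
  let S : ValuativeCommSq f :=
    { R := V
      K := X.residueField x
      i₁ := X.fromSpecResidueField x
      i₂ := Spec.map (CommRingCat.ofHom β)
      commSq := ⟨hsq⟩ }
  obtain ⟨⟨L, hL1, hL2⟩⟩ := hex S
  change Spec (.of V) ⟶ X at L
  change Spec.map (CommRingCat.ofHom (algebraMap V (X.residueField x))) ≫ L =
    X.fromSpecResidueField x at hL1
  set y : X := L (IsLocalRing.closedPoint V) with hy
  have hx : x ⤳ y := by
    let z : Spec (.of (X.residueField x)) := IsLocalRing.closedPoint (X.residueField x)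
    have h1 : L (Spec.map (CommRingCat.ofHom (algebraMap V (X.residueField x))) z) = x := by
      rw [← Scheme.Hom.comp_apply, hL1]
      exact Scheme.fromSpecResidueField_apply x z
    have h2 := (IsLocalRing.specializes_closedPoint
      (Spec.map (CommRingCat.ofHom (algebraMap V (X.residueField x))) z)).map L.continuous
    rw [h1] at h2
    exact h2
  refine ⟨y, hx, fun b => ?_⟩
  have h3 : CommRingCat.ofHom (evalAt hx) =
      Scheme.stalkClosedPointTo L ≫ CommRingCat.ofHom (algebraMap V (X.residueField x)) := by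
    apply Spec.map_injective
    rw [← cancel_mono (X.fromSpecStalk y), Spec.map_comp, Category.assoc,
      Scheme.Spec_stalkClosedPointTo_fromSpecStalk, hL1]
    have h4 : CommRingCat.ofHom (evalAt hx) = X.presheaf.stalkSpecializes hx ≫ X.residue x := rfl
    rw [h4, Spec.map_comp, Category.assoc, Scheme.SpecMap_stalkSpecializes_fromSpecStalk]
    rfl
  have h5 := congrArg (fun g => g.hom b) h3
  have h6 : evalAt hx b = algebraMap V (X.residueField x)
    ((Scheme.stalkClosedPointTo L).hom b) := h5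
  rw [h6]
  exact ((Scheme.stalkClosedPointTo L).hom b).2

section coords

variable {k : Type} [Field k] {n : ℕ} {X : Scheme.{0}} (i : X ⟶ PN k n)

theorem adjoin_X : Algebra.adjoin (MvPolynomial.homogeneousSubmodule (Fin (n + 1)) k 0)
    (Set.range (MvPolynomial.X : Fin (n + 1) → MvPolynomial (Fin (n + 1)) k)) = ⊤ := by
  rw [eq_top_iff]
  rintro p -
  induction p using MvPolynomial.induction_on with
  | C a =>
    have h := Subalgebra.algebraMap_mem (Algebra.adjoin
      (MvPolynomial.homogeneousSubmodule (Fin (n + 1)) k 0)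
      (Set.range (MvPolynomial.X : Fin (n + 1) → MvPolynomial (Fin (n + 1)) k)))
      (algebraMap k (MvPolynomial.homogeneousSubmodule (Fin (n + 1)) k 0) a)
    exact h
  | add p q hp hq => exact add_mem hp hq
  | mul_X p j hp => exact mul_mem hp (Algebra.subset_adjoin ⟨j, rfl⟩)

instance finiteType_zero : Algebra.FiniteType
    (MvPolynomial.homogeneousSubmodule (Fin (n + 1)) k 0) (MvPolynomial (Fin (n + 1)) k) := by
  classical
  refine ⟨⟨Finset.univ.image MvPolynomial.X, ?_⟩⟩
  rw [Finset.coe_image, Finset.coe_univ, Set.image_univ]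
  exact adjoin_X

theorem exists_mem (x : X) : ∃ j, x ∈ UU i (MvPolynomial.X j) := by
  have h := Proj.iSup_basicOpen_eq_top' (MvPolynomial.homogeneousSubmodule (Fin (n + 1)) k)
    (MvPolynomial.X : Fin (n + 1) → MvPolynomial (Fin (n + 1)) k)
    (fun j => ⟨1, (MvPolynomial.mem_homogeneousSubmodule _ _).2
      (MvPolynomial.isHomogeneous_X k j)⟩) adjoin_X
  have h1 : i x ∈ (⊤ : (PN k n).Opens) := trivial
  rw [← h] at h1
  obtain ⟨j, hj⟩ := TopologicalSpace.Opens.mem_iSup.1 h1
  exact ⟨j, hj⟩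

/-- The structure morphism. -/
noncomputable def sf :
    X ⟶ Spec (.of (MvPolynomial.homogeneousSubmodule (Fin (n + 1)) k 0)) :=
  i ≫ Proj.toSpecZero _

/-- The scalars. -/
noncomputable def strE : k →+* Γ(X, ⊤) :=
  ((Scheme.ΓSpecIso (.of (MvPolynomial.homogeneousSubmodule (Fin (n + 1)) k 0))).inv ≫
    (sf i).appTop).hom.comp (algebraMap k (MvPolynomial.homogeneousSubmodule (Fin (n + 1)) k 0))

theorem germ_str (x : X) (a : k) :
    (X.presheaf.germ ⊤ x trivial).hom (strE i a) = Φ i x (ζ i x a) := by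
  obtain ⟨j, hj⟩ := exists_mem i x
  have hX : (MvPolynomial.X j : MvPolynomial (Fin (n + 1)) k) ∈
    MvPolynomial.homogeneousSubmodule (Fin (n + 1)) k 1 :=
      (MvPolynomial.mem_homogeneousSubmodule _ _).2 (MvPolynomial.isHomogeneous_X k j)
  set r := algebraMap k (MvPolynomial.homogeneousSubmodule (Fin (n + 1)) k 0) a with hr
  set s := (Proj.toSpecZero (MvPolynomial.homogeneousSubmodule (Fin (n + 1)) k)).appTop.hom
    ((Scheme.ΓSpecIso (.of (MvPolynomial.homogeneousSubmodule (Fin (n + 1)) k 0))).inv.hom r)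
    with hs
  have h0 : strE i a = i.appTop.hom s := by
    rw [strE, sf, Scheme.Hom.comp_appTop]
    rfl
  have h1 := Scheme.Hom.germ_stalkMap_apply i ⊤ x trivial s
  have h2 : (PN k n).presheaf.germ ⊤ (i x) trivial s =
      (Proj.stalkIso (MvPolynomial.homogeneousSubmodule (Fin (n + 1)) k) (i x)).inv.hom
        (HomogeneousLocalization.mapId _ (Submonoid.powers_le.mpr hj)
          (fromZeroRingHom _ (Submonoid.powers (MvPolynomial.X j)) r)) := by
    have h3 := congrArg (fun g => g.hom r) (res_toSpecZero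
      (MvPolynomial.homogeneousSubmodule (Fin (n + 1)) k) hX Nat.one_pos)
    have h4 := (PN k n).presheaf.germ_res_apply
      (homOfLE (le_top : Proj.basicOpen (MvPolynomial.homogeneousSubmodule (Fin (n + 1)) k)
        (MvPolynomial.X j) ≤ ⊤)) (i x) hj s
    have h5 := congrArg (fun f => f.hom (fromZeroRingHom _ _ r))
      (ProjectiveSpectrum.Proj.awayToSection_germ
      (MvPolynomial.homogeneousSubmodule (Fin (n + 1)) k) (MvPolynomial.X j) (i x) hj)
    refine h4.symm.trans ?_
    refine Eq.trans ?_ h5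
    exact congrArg ((PN k n).presheaf.germ _ (i x) hj).hom h3
  rw [h0]
  refine Eq.trans h1.symm ?_
  rw [h2]
  rfl

theorem ψ_surjective (F : MvPolynomial (Fin (n + 1)) k) {m : ℕ} (hm : 0 < m)
    (hF : F ∈ MvPolynomial.homogeneousSubmodule (Fin (n + 1)) k m) [IsClosedImmersion i] :
    Function.Surjective (ψ i F) := by
  have h1 : Function.Surjective (i.app (Proj.basicOpen
    (MvPolynomial.homogeneousSubmodule (Fin (n + 1)) k) F)).hom :=
    Scheme.Hom.app_surjective i _ (Proj.isAffineOpen_basicOpen _ F hF hm)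
  have h2 : Function.Surjective (Proj.awayToSection
      (MvPolynomial.homogeneousSubmodule (Fin (n + 1)) k) F).hom := by
    rw [← Proj.basicOpenIsoAway_hom _ F hF hm]
    exact (ConcreteCategory.bijective_of_isIso (Proj.basicOpenIsoAway _ F hF hm).hom).2
  exact h1.comp h2

theorem fr_congr (x : X) {m m' : ℕ} {F G F' G' : MvPolynomial (Fin (n + 1)) k}
    (hF : F ∈ MvPolynomial.homogeneousSubmodule (Fin (n + 1)) k m)
    (hG : G ∈ MvPolynomial.homogeneousSubmodule (Fin (n + 1)) k m) (h : G ∉ pt i x)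
    (hF' : F' ∈ MvPolynomial.homogeneousSubmodule (Fin (n + 1)) k m')
    (hG' : G' ∈ MvPolynomial.homogeneousSubmodule (Fin (n + 1)) k m') (h' : G' ∉ pt i x)
    (e1 : F = F') (e2 : G = G') (e3 : m = m') :
    fr i x m F G hF hG h = fr i x m' F' G' hF' hG' h' := by
  subst e1 e2 e3
  rfl

end coords

section main

variable {k : Type} [Field k] {n : ℕ} {X : Scheme.{0}} [IsIntegral X] (i : X ⟶ PN k n)

/-- The embedding data, with reference coordinate `j₀`. -/
noncomputable def dat (j₀ : Fin (n + 1)) (h : genericPoint X ∈ UU i (MvPolynomial.X j₀)) :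
    EmbedData k X n where
  str := strE i
  w := fun j => Φ i (genericPoint X) (fr i (genericPoint X) 1 (MvPolynomial.X j)
    (MvPolynomial.X j₀)
    ((MvPolynomial.mem_homogeneousSubmodule _ _).2 (MvPolynomial.isHomogeneous_X k j))
    ((MvPolynomial.mem_homogeneousSubmodule _ _).2 (MvPolynomial.isHomogeneous_X k j₀)) h)
  U := fun c => UU i (lf c)

variable (j₀ : Fin (n + 1)) (h₀ : genericPoint X ∈ UU i (MvPolynomial.X j₀))

theorem kf_eq : (dat i j₀ h₀).kf = (Φ i (genericPoint X)).comp (ζ i (genericPoint X)) := by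
  ext a
  exact germ_str i (genericPoint X) a

/-- The value of a form in the function field. -/
noncomputable def ev : MvPolynomial (Fin (n + 1)) k →+* X.functionField :=
  MvPolynomial.eval₂Hom (dat i j₀ h₀).kf (dat i j₀ h₀).w

theorem l_eq (c : Fin (n + 1) → k) : (dat i j₀ h₀).l c = ev i j₀ h₀ (lf c) := by
  simp only [EmbedData.l, ev, lf, map_sum, map_mul, MvPolynomial.coe_eval₂Hom,
    MvPolynomial.eval₂_C, MvPolynomial.eval₂_X]

theorem Φ_fr_ref (m : ℕ) (F : MvPolynomial (Fin (n + 1)) k)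
    (hF : F ∈ MvPolynomial.homogeneousSubmodule (Fin (n + 1)) k m)
    (htm : (MvPolynomial.X j₀ : MvPolynomial (Fin (n + 1)) k) ^ m ∈
      MvPolynomial.homogeneousSubmodule (Fin (n + 1)) k m)
    (hm : (MvPolynomial.X j₀ : MvPolynomial (Fin (n + 1)) k) ^ m ∉ pt i (genericPoint X)) :
    Φ i (genericPoint X) (fr i (genericPoint X) m F (MvPolynomial.X j₀ ^ m) hF htm hm) =
      ev i j₀ h₀ F := by
  rw [fr_eq_eval₂ i (genericPoint X) (MvPolynomial.X j₀)
    ((MvPolynomial.mem_homogeneousSubmodule _ _).2 (MvPolynomial.isHomogeneous_X k j₀)) h₀ m F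
    hF htm hm, MvPolynomial.eval₂_comp_left, ← kf_eq i j₀ h₀]
  rfl

theorem ref_mem (m : ℕ) : (MvPolynomial.X j₀ : MvPolynomial (Fin (n + 1)) k) ^ m ∈
      MvPolynomial.homogeneousSubmodule (Fin (n + 1)) k m :=
  (MvPolynomial.mem_homogeneousSubmodule _ _).2 (MvPolynomial.isHomogeneous_X_pow j₀ m)

include h₀ in
theorem ref_not_mem (m : ℕ) :
    (MvPolynomial.X j₀ : MvPolynomial (Fin (n + 1)) k) ^ m ∉ pt i (genericPoint X) :=
  fun h => h₀ ((inferInstance : (pt i (genericPoint X)).IsPrime).mem_of_pow_mem m h)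

theorem ev_ne_zero_iff (m : ℕ) (F : MvPolynomial (Fin (n + 1)) k)
    (hF : F ∈ MvPolynomial.homogeneousSubmodule (Fin (n + 1)) k m) :
    ev i j₀ h₀ F ≠ 0 ↔ genericPoint X ∈ UU i F := by
  rw [← Φ_fr_ref i j₀ h₀ m F hF (ref_mem j₀ m) (ref_not_mem i j₀ h₀ m), ← isUnit_iff_ne_zero]
  exact isUnit_fr i (genericPoint X) m F _ hF (ref_mem j₀ m) (ref_not_mem i j₀ h₀ m)

theorem Φ_fr (m : ℕ) (F G : MvPolynomial (Fin (n + 1)) k)
    (hF : F ∈ MvPolynomial.homogeneousSubmodule (Fin (n + 1)) k m)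
    (hG : G ∈ MvPolynomial.homogeneousSubmodule (Fin (n + 1)) k m)
    (h : G ∉ pt i (genericPoint X)) :
    Φ i (genericPoint X) (fr i (genericPoint X) m F G hF hG h) =
      ev i j₀ h₀ F / ev i j₀ h₀ G := by
  have h1 := fr_mul_fr i (genericPoint X) m F G (MvPolynomial.X j₀ ^ m) hF hG h
    (ref_mem j₀ m) (ref_not_mem i j₀ h₀ m)
  have h2 := congrArg (Φ i (genericPoint X)) h1
  rw [map_mul, Φ_fr_ref i j₀ h₀, Φ_fr_ref i j₀ h₀] at h2
  rw [eq_div_iff ((ev_ne_zero_iff i j₀ h₀ m G hG).2 h)]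
  exact h2

theorem germ_generic (F : MvPolynomial (Fin (n + 1)) k) (hx : genericPoint X ∈ UU i F)
    (hF : F ∈ MvPolynomial.homogeneousSubmodule (Fin (n + 1)) k 1) (m : ℕ)
    (G : MvPolynomial (Fin (n + 1)) k)
    (hG : G ∈ MvPolynomial.homogeneousSubmodule (Fin (n + 1)) k (m • 1)) :
    (X.presheaf.germ (UU i F) (genericPoint X) hx).hom (ψ i F (Away.mk _ hF m G hG)) =
      ev i j₀ h₀ G / ev i j₀ h₀ F ^ m := by
  rw [germ_ψ_mk, Φ_fr i j₀ h₀, map_pow]

theorem sections_eq [IsClosedImmersion i] (c : Fin (n + 1) → k)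
    (h : genericPoint X ∈ UU i (lf c)) :
    Set.range (X.presheaf.germ (UU i (lf c)) (genericPoint X) h).hom =
      Subring.closure (Set.range (dat i j₀ h₀).kf ∪
        Set.range (fun j => (dat i j₀ h₀).w j / (dat i j₀ h₀).l c)) := by
  apply le_antisymm
  · rintro _ ⟨s, rfl⟩
    obtain ⟨z, rfl⟩ := ψ_surjective i (lf c) Nat.one_pos (lf_mem c) s
    obtain ⟨m, F, hF, rfl⟩ := Away.mk_surjective _ (lf_mem c) z
    rw [germ_generic i j₀ h₀, ← l_eq]
    have h1 : ev i j₀ h₀ F / (dat i j₀ h₀).l c ^ m = MvPolynomial.eval₂ (dat i j₀ h₀).kf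
        (fun j => (dat i j₀ h₀).w j / (dat i j₀ h₀).l c) F := by
      have h2 := eval₂_scale (dat i j₀ h₀).kf (dat i j₀ h₀).w ((dat i j₀ h₀).l c)⁻¹
        ((MvPolynomial.mem_homogeneousSubmodule _ _).1 hF)
      have h3 : (fun j => (dat i j₀ h₀).w j / (dat i j₀ h₀).l c) =
          fun j => ((dat i j₀ h₀).l c)⁻¹ * (dat i j₀ h₀).w j := by
        funext j
        rw [div_eq_mul_inv, mul_comm]
      rw [h3, h2, smul_eq_mul, mul_one, div_eq_mul_inv, mul_comm, inv_pow]
      rfl
    rw [h1]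
    refine MvPolynomial.eval₂_mem (fun d _ => ?_) (fun j => ?_)
    · exact Subring.subset_closure (Or.inl ⟨_, rfl⟩)
    · exact Subring.subset_closure (Or.inr ⟨j, rfl⟩)
  · have h1 : (Subring.closure (Set.range (dat i j₀ h₀).kf ∪
        Set.range (fun j => (dat i j₀ h₀).w j / (dat i j₀ h₀).l c))) ≤
        (X.presheaf.germ (UU i (lf c)) (genericPoint X) h).hom.range := by
      rw [Subring.closure_le]
      rintro _ (⟨a, rfl⟩ | ⟨j, rfl⟩)
      · refine ⟨(dat i j₀ h₀).strOn (UU i (lf c)) a, ?_⟩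
        exact X.presheaf.germ_res_apply (homOfLE (le_top : UU i (lf c) ≤ ⊤))
          (genericPoint X) h ((dat i j₀ h₀).str a)
      · have hX : (MvPolynomial.X j : MvPolynomial (Fin (n + 1)) k) ∈
            MvPolynomial.homogeneousSubmodule (Fin (n + 1)) k (1 • 1) :=
          (MvPolynomial.mem_homogeneousSubmodule _ _).2 (MvPolynomial.isHomogeneous_X k j)
        refine ⟨ψ i (lf c) (Away.mk _ (lf_mem c) 1 (MvPolynomial.X j) hX), ?_⟩
        rw [germ_generic i j₀ h₀, pow_one, ← l_eq]
        congr 1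
        exact MvPolynomial.eval₂_X _ _ _
    exact h1

theorem stalk_eq (c d : Fin (n + 1) → k) (x : X) (hx : x ∈ UU i (lf d)) :
    ∃ a : X.presheaf.stalk x,
      algebraMap (X.presheaf.stalk x) X.functionField a * (dat i j₀ h₀).l d =
        (dat i j₀ h₀).l c ∧ (IsUnit a ↔ x ∈ UU i (lf c)) := by
  have hη : genericPoint X ∈ UU i (lf d) :=
    ((genericPoint_spec X).mem_open_set_iff (UU i (lf d)).2).2 ⟨x, trivial, hx⟩
  have h1 : lf c ∈ MvPolynomial.homogeneousSubmodule (Fin (n + 1)) k (1 • 1) := lf_mem c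
  refine ⟨(X.presheaf.germ (UU i (lf d)) x hx).hom (ψ i (lf d)
    (Away.mk _ (lf_mem d) 1 (lf c) h1)), ?_, ?_⟩
  · have hne : Nonempty (UU i (lf d)) := ⟨⟨x, hx⟩⟩
    have h2 := Scheme.algebraMap_germ_eq_germToFunctionField X hx (ψ i (lf d)
      (Away.mk _ (lf_mem d) 1 (lf c) h1))
    have h3 := germ_generic i j₀ h₀ (lf d) hη (lf_mem d) 1 (lf c) h1
    have h4 : (dat i j₀ h₀).l d ≠ 0 := by
      rw [l_eq]
      exact (ev_ne_zero_iff i j₀ h₀ 1 (lf d) (lf_mem d)).2 hη
    rw [pow_one, ← l_eq, ← l_eq] at h3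
    refine (congrArg (· * (dat i j₀ h₀).l d) (h2.trans h3)).trans ?_
    exact div_mul_cancel₀ _ h4
  · rw [germ_ψ_mk]
    rw [isUnit_fr]
    rfl

theorem val_eq [IsClosedImmersion i] (x : X) (V : ValuationSubring (X.residueField x))
    (hV : ∀ a : k, (dat i j₀ h₀).kres x a ∈ V) :
    ∃ (y : X) (h : x ⤳ y), ∀ b : X.presheaf.stalk y, evalAt h b ∈ V := by
  have h1 : UniversallyClosed (sf i) := by
    unfold sf
    infer_instance
  refine exists_center (sf i) x V fun b => ?_
  obtain ⟨a, rfl⟩ := zero_eq_C b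
  exact hV a

end main

end EmbAux

open EmbAux in
/-- The embedding data of a closed integral subscheme of projective space. -/
theorem exists_embed (k : Type) [Field k] (n : ℕ) (X : Scheme.{0}) [IsIntegral X]
    (i : X ⟶ PN k n) [IsClosedImmersion i] : Nonempty (Embed k X n) := by
  obtain ⟨j₀, h₀⟩ := exists_mem i (genericPoint X)
  have haux : ∀ c, (dat i j₀ h₀).l c ≠ 0 ↔ genericPoint X ∈ UU i (lf c) := fun c => by
    rw [l_eq]
    exact ev_ne_zero_iff i j₀ h₀ 1 (lf c) (lf_mem c)
  exact ⟨{ dat i j₀ h₀ with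
    empty := fun c hc => by
      by_contra hne
      have h1 : (UU i (lf c) : Set X).Nonempty := by
        rw [Set.nonempty_iff_ne_empty]
        intro h2
        exact hne (TopologicalSpace.Opens.ext h2)
      obtain ⟨x, hx⟩ := h1
      have h2 : genericPoint X ∈ UU i (lf c) :=
        ((genericPoint_spec X).mem_open_set_iff (UU i (lf c)).2).2 ⟨x, trivial, hx⟩
      exact (haux c).2 h2 hc
    affine := fun c hc => ⟨(Proj.isAffineOpen_basicOpen _ (lf c) (lf_mem c)
      Nat.one_pos).preimage i, (haux c).1 hc⟩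
    cover := fun x => by
      obtain ⟨j, hj⟩ := exists_mem i x
      refine ⟨j, ?_⟩
      change x ∈ UU i (lf (Pi.single j 1))
      rw [lf_single]
      exact hj
    sections := fun c h => sections_eq i j₀ h₀ c h
    stalk := fun c d x hx => stalk_eq i j₀ h₀ c d x hx
    val := fun x V hV => val_eq i j₀ h₀ x V hV }⟩
end Pool.Agent.K1
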