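import Pool.Agent.K1.DDefs

/-!
Function fields: the map of function fields of a dominant morphism, and the base change of an
integral scheme over a field along a separable algebraic extension of the field.
-/

set_option autoImplicit false

open AlgebraicGeometry CategoryTheory CategoryTheory.Limits TensorProduct

namespace Pool.Agent.K1

theorem exists_psi {Y X : Scheme.{0}} [IsIntegral Y] [IsIntegral X] (π : Y ⟶ X)
    (h : π (genericPoint Y) = genericPoint X) :
    ∃ ψ : X.functionField →+* Y.functionField, ∀ (y : Y) (a : X.presheaf.stalk (π y)),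
      ψ (algebraMap _ X.functionField a) =
        algebraMap (Y.presheaf.stalk y) Y.functionField ((π.stalkMap y).hom a) := by
  have h1 : π (genericPoint Y) ⤳ genericPoint X := by rw [h]
  refine ⟨(π.stalkMap (genericPoint Y)).hom.comp (X.presheaf.stalkSpecializes h1).hom,
    fun y a => ?_⟩
  have hy : genericPoint Y ⤳ y := (genericPoint_spec Y).specializes trivial
  have key : X.presheaf.stalkSpecializes ((genericPoint_spec X).specializes
        (Set.mem_univ (π y))) ≫ X.presheaf.stalkSpecializes h1 ≫
          π.stalkMap (genericPoint Y) =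
      π.stalkMap y ≫ Y.presheaf.stalkSpecializes hy := by
    rw [← Scheme.Hom.stalkSpecializes_stalkMap, ← Category.assoc,
      TopCat.Presheaf.stalkSpecializes_comp]
  have := congrArg (fun F => F.hom a) key
  exact this

/-- A subring of the pushout that contains the images of both rings is the whole ring. -/
theorem dfun_pushout_top {A B C P : CommRingCat.{0}} {α : A ⟶ B} {β : A ⟶ C} {i : B ⟶ P}
    {j : C ⟶ P} (h : IsPushout α β i j) (S : Subring P) (hi : ∀ b, i.hom b ∈ S)
    (hj : ∀ c, j.hom c ∈ S) (x : P) : x ∈ S := by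
  let i' : B ⟶ CommRingCat.of S := CommRingCat.ofHom (i.hom.codRestrict S hi)
  let j' : C ⟶ CommRingCat.of S := CommRingCat.ofHom (j.hom.codRestrict S hj)
  have hw : α ≫ i' = β ≫ j' := by
    ext a
    have h1 : i.hom (α.hom a) = j.hom (β.hom a) := congrArg (fun F => F.hom a) h.w
    exact h1
  let d : P ⟶ CommRingCat.of S := h.desc i' j' hw
  let e : CommRingCat.of S ⟶ P := CommRingCat.ofHom S.subtype
  have hd : d ≫ e = 𝟙 P := by
    apply h.hom_ext
    · rw [← Category.assoc, h.inl_desc, Category.comp_id]
      rfl
    · rw [← Category.assoc, h.inr_desc, Category.comp_id]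
      rfl
  have hx : (e.hom (d.hom x)) = x := congrArg (fun F => F.hom x) hd
  rw [← hx]
  exact (d.hom x).2

/-- Elements of the ring of functions of the spectrum of a separable algebraic extension
satisfy separable polynomials. -/
theorem dfun_sep_poly {F k : Type} [Field F] [Field k] [Algebra F k] [Algebra.IsSeparable F k]
    (c : Γ(Spec (CommRingCat.of k), ⊤)) :
    ∃ P : Polynomial Γ(Spec (CommRingCat.of F), ⊤), P.Separable ∧
      P.eval₂ (Spec.map (CommRingCat.ofHom (algebraMap F k))).appTop.hom c = 0 := by
  let a : F →+* Γ(Spec (CommRingCat.of F), ⊤) :=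
    (Scheme.ΓSpecIso (CommRingCat.of F)).inv.hom
  let b : k →+* Γ(Spec (CommRingCat.of k), ⊤) :=
    (Scheme.ΓSpecIso (CommRingCat.of k)).inv.hom
  let c' : k := (Scheme.ΓSpecIso (CommRingCat.of k)).hom.hom c
  have hc : b c' = c := by
    have := congrArg (fun F => F.hom c) (Scheme.ΓSpecIso (CommRingCat.of k)).hom_inv_id
    exact this
  have hab : (Spec.map (CommRingCat.ofHom (algebraMap F k))).appTop.hom.comp a =
      b.comp (algebraMap F k) := by
    have := Scheme.ΓSpecIso_inv_naturality (CommRingCat.ofHom (algebraMap F k))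
    exact (congrArg CommRingCat.Hom.hom this).symm
  refine ⟨(minpoly F c').map a, ?_, ?_⟩
  · exact Polynomial.Separable.map (p := minpoly F c') (Algebra.IsSeparable.isSeparable F c')
  · rw [Polynomial.eval₂_map, hab, ← hc]
    have h2 := Polynomial.hom_eval₂ (minpoly F c') (algebraMap F k) b c'
    rw [← h2]
    have h3 : Polynomial.eval₂ (algebraMap F k) c' (minpoly F c') = 0 := minpoly.aeval F c'
    rw [h3, map_zero]

theorem sep_baseChange {F k : Type} [Field F] [Field k] [Algebra F k]
    [Algebra.IsSeparable F k] {X : Scheme.{0}} [IsIntegral X] (f : X ⟶ Spec (CommRingCat.of F))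
    [IsIntegral (pullback f (Spec.map (CommRingCat.ofHom (algebraMap F k))))]
    (ψ : X.functionField →+*
      (pullback f (Spec.map (CommRingCat.ofHom (algebraMap F k)))).functionField)
    (hψ : ∀ (y : ↥(pullback f (Spec.map (CommRingCat.ofHom (algebraMap F k)))))
      (a : X.presheaf.stalk (pullback.fst f (Spec.map (CommRingCat.ofHom (algebraMap F k))) y)),
      ψ (algebraMap _ X.functionField a) = algebraMap
        ((pullback f (Spec.map (CommRingCat.ofHom (algebraMap F k)))).presheaf.stalk y) _
        (((pullback.fst f (Spec.map (CommRingCat.ofHom (algebraMap F k)))).stalkMap y).hom a)) :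
    letI := ψ.toAlgebra
    Algebra.IsSeparable X.functionField
      (pullback f (Spec.map (CommRingCat.ofHom (algebraMap F k)))).functionField := by
  let _ := ψ.toAlgebra
  set φ := Spec.map (CommRingCat.ofHom (algebraMap F k)) with hφ
  set Y := pullback f φ with hY
  set π : Y ⟶ X := pullback.fst f φ with hπ
  set q : Y ⟶ Spec (CommRingCat.of k) := pullback.snd f φ with hq
  obtain ⟨_, ⟨U, hU, rfl⟩, hgU, -⟩ :=
    X.isBasis_affineOpens.exists_subset_of_mem_open (Set.mem_univ (π (genericPoint Y)))
      isOpen_univ
  let UY : Y.Opens := π ⁻¹ᵁ U ⊓ q ⁻¹ᵁ ⊤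
  have hgY : genericPoint Y ∈ UY := ⟨hgU, trivial⟩
  have : Nonempty UY := ⟨⟨_, hgY⟩⟩
  have : Nonempty U := ⟨⟨_, hgU⟩⟩
  have H : IsPullback π q f φ := IsPullback.of_hasPullback f φ
  have hpo := (isIso_pushoutSection_iff H (US := ⊤) (UT := ⊤) (UX := U) (UY := UY)
    le_top le_top rfl).mp
    (isIso_pushoutSection_of_isAffineOpen H (US := ⊤) (UT := ⊤) (UX := U) (UY := UY)
      le_top le_top rfl (isAffineOpen_top _) (isAffineOpen_top _) hU)
  have hUY : IsAffineOpen UY := by
    have hEq : UY = π ⁻¹ᵁ U := by simp [UY]
    have : IsAffineHom π := MorphismProperty.pullback_fst _ _ inferInstance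
    rw [hEq]
    exact hU.preimage π
  let g : Γ(Y, UY) →+* Y.functionField := (Y.germToFunctionField UY).hom
  let gX : Γ(X, U) →+* X.functionField := (X.germToFunctionField U).hom
  have hinl : ∀ b : Γ(X, U), g ((π.appLE U UY (by simp [UY])).hom b) = ψ (gX b) := by
    intro b
    have h1 := hψ (genericPoint Y) (X.presheaf.germ U (π (genericPoint Y)) hgU b)
    rw [Scheme.algebraMap_germ_eq_germToFunctionField] at h1
    have h2 : (π.stalkMap (genericPoint Y)).hom
        (X.presheaf.germ U (π (genericPoint Y)) hgU b) =
        Y.presheaf.germ UY (genericPoint Y) hgY ((π.appLE U UY (by simp [UY])).hom b) := by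
      have h3 : X.presheaf.germ U (π (genericPoint Y)) hgU ≫ π.stalkMap (genericPoint Y) =
          π.appLE U UY (by simp [UY]) ≫ Y.presheaf.germ UY (genericPoint Y) hgY := by
        rw [Scheme.Hom.germ_stalkMap, Scheme.Hom.appLE, Category.assoc,
          TopCat.Presheaf.germ_res]
      exact congrArg (fun F => F.hom b) h3
    rw [h2, Scheme.algebraMap_germ_eq_germToFunctionField] at h1
    exact h1.symm
  have hall : ∀ x : Γ(Y, UY), g x ∈ separableClosure X.functionField Y.functionField := by
    intro x
    refine dfun_pushout_top hpo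
      ((separableClosure X.functionField Y.functionField).toSubring.comap g) ?_ ?_ x
    · intro b
      change g _ ∈ separableClosure X.functionField Y.functionField
      rw [hinl b]
      exact (separableClosure X.functionField Y.functionField).algebraMap_mem (gX b)
    · intro c
      change g _ ∈ separableClosure X.functionField Y.functionField
      obtain ⟨P, hP, hPc⟩ := dfun_sep_poly (F := F) (k := k) c
      rw [mem_separableClosure_iff]
      let α : Γ(Spec (CommRingCat.of F), ⊤) →+* Γ(X, U) := (f.appLE ⊤ U le_top).hom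
      let β : Γ(Spec (CommRingCat.of F), ⊤) →+* Γ(Spec (CommRingCat.of k), ⊤) :=
        φ.appTop.hom
      let ι : Γ(Spec (CommRingCat.of k), ⊤) →+* Γ(Y, UY) :=
        (q.appLE ⊤ UY (by simp [UY])).hom
      have hw : ψ.comp (gX.comp α) = (g.comp ι).comp β := by
        ext a
        have h1 := congrArg (fun F => F.hom a) hpo.w
        have h2 : φ.appLE ⊤ ⊤ le_top = φ.appTop := by
          rw [Scheme.Hom.appLE]
          simp [Scheme.Hom.appTop]
        have h3 : (π.appLE U UY (by simp [UY])).hom (α a) = ι (β a) := by
          have h4 : (π.appLE U UY (by simp [UY])).hom (α a) =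
            ι ((φ.appLE ⊤ ⊤ le_top).hom a) := h1
          rw [h4, h2]
        change ψ (gX (α a)) = g (ι (β a))
        rw [← hinl (α a), h3]
      have hroot : Polynomial.aeval (g (ι c)) (P.map (gX.comp α)) = 0 := by
        rw [Polynomial.aeval_def, Polynomial.eval₂_map]
        change Polynomial.eval₂ (ψ.comp (gX.comp α)) ((g.comp ι) c) P = 0
        rw [hw, ← Polynomial.hom_eval₂]
        have : Polynomial.eval₂ β c P = 0 := hPc
        rw [this, map_zero]
      exact Polynomial.Separable.of_dvd (Polynomial.Separable.map hP)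
        (minpoly.dvd _ _ hroot)
  have hfr : IsFractionRing Γ(Y, UY) Y.functionField :=
    functionField_isFractionRing_of_isAffineOpen Y UY hUY
  rw [← separableClosure.eq_top_iff]
  rw [eq_top_iff]
  intro z _
  obtain ⟨a, b, hb, rfl⟩ := IsFractionRing.div_surjective (A := Γ(Y, UY)) z
  exact div_mem (hall a) (hall b)

end Pool.Agent.K1
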