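import Pool.Agent.K1.L3Defs

/-!
Local rings of an integral scheme as subrings of the function field; the nonvanishing locus of a
section of `O(e)`.
-/

set_option autoImplicit false

open AlgebraicGeometry CategoryTheory TopologicalSpace Opposite

namespace Pool.Agent.K1.NormEmb

section general

variable {X : Scheme.{0}} [IsIntegral X]

/-- The local ring at `x` as a subring of the function field. -/
noncomputable def O (x : X) : Subring X.functionField :=
  (algebraMap (X.presheaf.stalk x) X.functionField).range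

theorem mem_O {x : X} {f : X.functionField} :
    f ∈ O x ↔ ∃ a : X.presheaf.stalk x, algebraMap (X.presheaf.stalk x) X.functionField a = f :=
  Iff.rfl

theorem alg_inj (x : X) :
    Function.Injective (algebraMap (X.presheaf.stalk x) X.functionField) :=
  IsFractionRing.injective (X.presheaf.stalk x) X.functionField

theorem isUnit_iff {x : X} (a : X.presheaf.stalk x) :
    IsUnit a ↔ algebraMap (X.presheaf.stalk x) X.functionField a ≠ 0 ∧
      (algebraMap (X.presheaf.stalk x) X.functionField a)⁻¹ ∈ O x := by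
  constructor
  · rintro ⟨u, rfl⟩
    have h : algebraMap (X.presheaf.stalk x) X.functionField (u : X.presheaf.stalk x) *
        algebraMap (X.presheaf.stalk x) X.functionField ((u⁻¹ : (X.presheaf.stalk x)ˣ) :
          X.presheaf.stalk x) = 1 := by
      rw [← map_mul, Units.mul_inv, map_one]
    have h0 := left_ne_zero_of_mul_eq_one h
    exact ⟨h0, ⟨_, (eq_inv_of_mul_eq_one_right h)⟩⟩
  · rintro ⟨h0, b, hb⟩
    refine IsUnit.of_mul_eq_one b (alg_inj x ?_)
    rw [map_mul, hb, map_one, mul_inv_cancel₀ h0]

theorem alg_germ {V : X.Opens} (hV : genericPoint X ∈ V) {x : X} (hx : x ∈ V) (s : Γ(X, V)) :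
    algebraMap (X.presheaf.stalk x) X.functionField ((X.presheaf.germ V x hx).hom s) =
      (X.presheaf.germ V (genericPoint X) hV).hom s := by
  have : Nonempty V := ⟨⟨_, hV⟩⟩
  exact Scheme.algebraMap_germ_eq_germToFunctionField (X := X) hx s

theorem germ_mem_O {V : X.Opens} (hV : genericPoint X ∈ V) {x : X} (hx : x ∈ V) (s : Γ(X, V)) :
    (X.presheaf.germ V (genericPoint X) hV).hom s ∈ O x :=
  ⟨_, alg_germ hV hx s⟩

theorem generic_mem {V : X.Opens} {x : X} (hx : x ∈ V) : genericPoint X ∈ V :=
  ((genericPoint_spec X).mem_open_set_iff V.isOpen).2 ⟨x, trivial, hx⟩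

theorem mem_basicOpen_iff {V : X.Opens} (hV : genericPoint X ∈ V) (s : Γ(X, V)) (x : X) :
    x ∈ X.basicOpen s ↔ x ∈ V ∧ (X.presheaf.germ V (genericPoint X) hV).hom s ≠ 0 ∧
      ((X.presheaf.germ V (genericPoint X) hV).hom s)⁻¹ ∈ O x := by
  constructor
  · intro h
    have hx : x ∈ V := X.basicOpen_le s h
    rw [Scheme.mem_basicOpen X s x hx] at h
    have := (isUnit_iff _).1 h
    rw [alg_germ hV hx] at this
    exact ⟨hx, this⟩
  · rintro ⟨hx, h⟩
    rw [Scheme.mem_basicOpen X s x hx]
    refine (isUnit_iff _).2 ?_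
    have h2 := alg_germ hV hx s
    change algebraMap (X.presheaf.stalk x) X.functionField ((X.presheaf.germ V x hx).hom s) ≠ 0 ∧
      (algebraMap (X.presheaf.stalk x) X.functionField ((X.presheaf.germ V x hx).hom s))⁻¹ ∈ O x
    rw [h2]
    exact h

/-- A rational function regular at all points of `V` is a function on `V`. -/
theorem mem_range_germ (V : X.Opens) (hV : genericPoint X ∈ V) (f : X.functionField)
    (h : ∀ x ∈ V, f ∈ O x) :
    ∃ s : Γ(X, V), (X.presheaf.germ V (genericPoint X) hV).hom s = f := by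
  have hloc : ∀ x : V, ∃ (W : X.Opens) (_ : x.1 ∈ W) (_ : W ≤ V) (s : Γ(X, W)),
      ∀ hg : genericPoint X ∈ W, (X.presheaf.germ W (genericPoint X) hg).hom s = f := by
    rintro ⟨x, hx⟩
    obtain ⟨a, ha⟩ := h x hx
    obtain ⟨W, hW, s, hs⟩ := X.presheaf.exists_germ_eq a
    have hxW : x ∈ W ⊓ V := ⟨hW, hx⟩
    refine ⟨W ⊓ V, hxW, inf_le_right, (X.presheaf.map (homOfLE inf_le_left).op).hom s, ?_⟩
    intro hg
    have h2 : (X.presheaf.germ (W ⊓ V) x hxW).hom
        ((X.presheaf.map (homOfLE inf_le_left : W ⊓ V ⟶ W).op).hom s) = a := by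
      have := X.presheaf.germ_res_apply (homOfLE inf_le_left : W ⊓ V ⟶ W) x hxW s
      exact this.trans hs
    rw [← alg_germ hg hxW, h2, ha]
  choose W hxW hWV s hs using hloc
  have hcomp : TopCat.Presheaf.IsCompatible X.presheaf W s := by
    intro i j
    have hgi : genericPoint X ∈ W i := generic_mem (hxW i)
    have hgj : genericPoint X ∈ W j := generic_mem (hxW j)
    have hg : genericPoint X ∈ W i ⊓ W j := ⟨hgi, hgj⟩
    apply germ_injective_of_isIntegral X (genericPoint X) hg
    have h1 := X.presheaf.germ_res_apply (Opens.infLELeft (W i) (W j)) (genericPoint X) hg (s i)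
    have h2 := X.presheaf.germ_res_apply (Opens.infLERight (W i) (W j)) (genericPoint X) hg (s j)
    exact h1.trans (((hs i hgi).trans (hs j hgj).symm).trans h2.symm)
  obtain ⟨gl, hgl, -⟩ := X.sheaf.existsUnique_gluing' W V (fun i => homOfLE (hWV i))
    (fun x hx => Opens.mem_iSup.2 ⟨⟨x, hx⟩, hxW _⟩) s hcomp
  refine ⟨gl, ?_⟩
  have hg : genericPoint X ∈ W ⟨genericPoint X, hV⟩ := hxW _
  have h1 := X.presheaf.germ_res_apply (homOfLE (hWV ⟨genericPoint X, hV⟩)) (genericPoint X) hg gl
  rw [← hs ⟨genericPoint X, hV⟩ hg, ← hgl ⟨genericPoint X, hV⟩]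
  exact h1.symm

theorem generic_O (f : X.functionField) : f ∈ O (genericPoint X) := by
  obtain ⟨W, hW, s, hs⟩ := X.presheaf.exists_germ_eq f
  have h := germ_mem_O hW hW s
  have h2 : (X.presheaf.germ W (genericPoint X) hW).hom s = f := hs
  rwa [h2] at h

end general

section embed

variable {X : Scheme.{0}} [IsIntegral X] {k : Type} [Field k] {n : ℕ} (E : Embed k X n)

theorem l_single (t : Fin (n + 1)) : E.l (Pi.single t 1) = E.w t := by
  unfold EmbedData.l
  rw [Finset.sum_eq_single t]
  · rw [Pi.single_eq_same, map_one, one_mul]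
  · intro j _ hj
    rw [Pi.single_eq_of_ne hj, map_zero, zero_mul]
  · intro h
    exact absurd (Finset.mem_univ _) h

theorem l_ne {d : Fin (n + 1) → k} {x : X} (hx : x ∈ E.U d) : E.l d ≠ 0 := by
  intro h
  have := E.empty d h
  rw [this] at hx
  exact hx

/-- The index of a coordinate that does not vanish at `x`. -/
noncomputable def tt (x : X) : Fin (n + 1) := (E.cover x).choose

/-- A coordinate that does not vanish at `x`. -/
noncomputable def lam (x : X) : X.functionField := E.w (tt E x)

theorem mem_tt (x : X) : x ∈ E.U (Pi.single (tt E x) 1) := (E.cover x).choose_spec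

theorem lam_ne (x : X) : lam E x ≠ 0 := by
  have := l_ne E (mem_tt E x)
  rwa [l_single] at this

theorem l_div_mem (c : Fin (n + 1) → k) {d : Fin (n + 1) → k} {x : X} (hx : x ∈ E.U d) :
    E.l c / E.l d ∈ O x := by
  obtain ⟨a, ha, -⟩ := E.stalk c d x hx
  refine ⟨a, ?_⟩
  rw [eq_div_iff (l_ne E hx)]
  exact ha

theorem mem_U_iff {d : Fin (n + 1) → k} {x : X} (hx : x ∈ E.U d) (c : Fin (n + 1) → k) :
    x ∈ E.U c ↔ E.l c ≠ 0 ∧ E.l d / E.l c ∈ O x := by
  constructor
  · intro h
    exact ⟨l_ne E h, l_div_mem E d h⟩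
  · rintro ⟨h0, h⟩
    obtain ⟨a, ha, hu⟩ := E.stalk c d x hx
    rw [← hu, isUnit_iff]
    have h2 : algebraMap (X.presheaf.stalk x) X.functionField a = E.l c / E.l d := by
      rw [eq_div_iff (l_ne E hx)]; exact ha
    rw [h2, inv_div]
    exact ⟨div_ne_zero h0 (l_ne E hx), h⟩

theorem lam_eq (x : X) : E.l (Pi.single (tt E x) 1) = lam E x := l_single E _

theorem l_div_lam (c : Fin (n + 1) → k) (x : X) : E.l c / lam E x ∈ O x := by
  rw [← lam_eq]
  exact l_div_mem E c (mem_tt E x)

theorem w_div_lam (t : Fin (n + 1)) (x : X) : E.w t / lam E x ∈ O x := by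
  rw [← l_single]
  exact l_div_lam E _ x

theorem lam_div_l {d : Fin (n + 1) → k} {x : X} (hx : x ∈ E.U d) : lam E x / E.l d ∈ O x := by
  rw [← lam_eq]
  exact l_div_mem E _ hx

theorem mem_U_lam (c : Fin (n + 1) → k) (x : X) :
    x ∈ E.U c ↔ E.l c ≠ 0 ∧ lam E x / E.l c ∈ O x := by
  rw [← lam_eq]
  exact mem_U_iff E (mem_tt E x) c

theorem sec_iff_div (e : ℕ) (f : X.functionField) :
    E.IsSection e f ↔ ∀ d, ∀ x ∈ E.U d, f / E.l d ^ e ∈ O x := by
  unfold Embed.IsSection
  refine forall_congr' fun d => forall_congr' fun x => forall_congr' fun hx => ?_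
  refine exists_congr fun a => ?_
  rw [eq_div_iff (pow_ne_zero _ (l_ne E hx))]

theorem sec_iff (e : ℕ) (f : X.functionField) :
    E.IsSection e f ↔ ∀ x, f / lam E x ^ e ∈ O x := by
  rw [sec_iff_div]
  constructor
  · intro h x
    rw [← lam_eq]
    exact h _ x (mem_tt E x)
  · intro h d x hx
    have h1 := (O x).mul_mem (h x) ((O x).pow_mem (lam_div_l E hx) e)
    have h2 : f / lam E x ^ e * (lam E x / E.l d) ^ e = f / E.l d ^ e := by
      have := lam_ne E x
      have := l_ne E hx
      rw [div_pow]
      field_simp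
    rwa [h2] at h1

theorem kf_mem (a : k) (x : X) : E.kf a ∈ O x :=
  germ_mem_O (V := ⊤) trivial (x := x) trivial (E.str a)

theorem sec_mul {i j : ℕ} {f g : X.functionField} (hf : E.IsSection i f) (hg : E.IsSection j g) :
    E.IsSection (i + j) (f * g) := by
  rw [sec_iff] at hf hg ⊢
  intro x
  have h := (O x).mul_mem (hf x) (hg x)
  rwa [div_mul_div_comm, ← pow_add] at h

theorem sec_w (t : Fin (n + 1)) : E.IsSection 1 (E.w t) := by
  rw [sec_iff]
  intro x
  rw [pow_one]
  exact w_div_lam E t x

theorem sec_add {i : ℕ} {f g : X.functionField} (hf : E.IsSection i f) (hg : E.IsSection i g) :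
    E.IsSection i (f + g) := by
  rw [sec_iff] at hf hg ⊢
  intro x
  rw [add_div]
  exact (O x).add_mem (hf x) (hg x)

theorem sec_zero (i : ℕ) : E.IsSection i 0 := by
  rw [sec_iff]
  intro x
  rw [zero_div]
  exact (O x).zero_mem

theorem sec_one : E.IsSection 0 1 := by
  rw [sec_iff]
  intro x
  rw [pow_zero, div_one]
  exact (O x).one_mem

theorem sec_smul {i : ℕ} (a : k) {f : X.functionField} (hf : E.IsSection i f) :
    E.IsSection i (E.kf a * f) := by
  rw [sec_iff] at hf ⊢
  intro x
  rw [mul_div_assoc]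
  exact (O x).mul_mem (kf_mem E a x) (hf x)

theorem sec_sum {i : ℕ} {α : Type*} (S : Finset α) (f : α → X.functionField)
    (hf : ∀ a ∈ S, E.IsSection i (f a)) : E.IsSection i (∑ a ∈ S, f a) := by
  classical
  induction S using Finset.induction_on with
  | empty => rw [Finset.sum_empty]; exact sec_zero E i
  | insert a S ha ih =>
    rw [Finset.sum_insert ha]
    exact sec_add E (hf a (Finset.mem_insert_self _ _))
      (ih fun b hb => hf b (Finset.mem_insert_of_mem hb))

/-- The set where the section `s` of `O(e)` does not vanish. -/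
def D (e : ℕ) (s : X.functionField) : Set X := {x | s ≠ 0 ∧ lam E x ^ e / s ∈ O x}

theorem mem_D {e : ℕ} {s : X.functionField} {x : X} :
    x ∈ D E e s ↔ s ≠ 0 ∧ lam E x ^ e / s ∈ O x := Iff.rfl

theorem generic_mem_D {e : ℕ} {s : X.functionField} (hs : s ≠ 0) : genericPoint X ∈ D E e s :=
  ⟨hs, generic_O _⟩

/-- sections over the complement of a coordinate hyperplane -/
theorem exists_on {e : ℕ} {s : X.functionField} (hs : E.IsSection e s) (t : Fin (n + 1))
    (ht : genericPoint X ∈ E.U (Pi.single t 1)) :
    ∃ a : Γ(X, E.U (Pi.single t 1)),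
      (X.presheaf.germ _ (genericPoint X) ht).hom a = s / E.w t ^ e := by
  apply mem_range_germ
  intro x hx
  have := (sec_iff_div E e s).1 hs _ x hx
  rwa [l_single] at this

theorem isOpen_D {e : ℕ} {s : X.functionField} (hs : E.IsSection e s) : IsOpen (D E e s) := by
  rw [isOpen_iff_forall_mem_open]
  intro x hx
  obtain ⟨h0, h⟩ := hx
  have hxt := mem_tt E x
  have hg := generic_mem hxt
  obtain ⟨a, ha⟩ := exists_on E hs (tt E x) hg
  refine ⟨X.basicOpen a, ?_, (X.basicOpen a).isOpen, ?_⟩
  · intro y hy
    have hy' := (mem_basicOpen_iff hg a y).1 hy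
    rw [ha, inv_div] at hy'
    obtain ⟨hyU, -, hyO⟩ := hy'
    refine ⟨h0, ?_⟩
    have h1 := lam_div_l E hyU
    rw [l_single] at h1
    have h2 := (O y).mul_mem ((O y).pow_mem h1 e) hyO
    have h3 : (lam E y / E.w (tt E x)) ^ e * (E.w (tt E x) ^ e / s) = lam E y ^ e / s := by
      have : E.w (tt E x) ≠ 0 := lam_ne E x
      rw [div_pow]
      field_simp
    rwa [h3] at h2
  · refine (mem_basicOpen_iff hg a x).2 ⟨hxt, ?_⟩
    rw [ha, inv_div]
    exact ⟨div_ne_zero h0 (pow_ne_zero _ (lam_ne E x)), h⟩

/-- The open set where the section `s` of `O(e)` does not vanish. -/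
def DO {e : ℕ} {s : X.functionField} (hs : E.IsSection e s) : X.Opens := ⟨D E e s, isOpen_D E hs⟩

theorem mem_DO {e : ℕ} {s : X.functionField} (hs : E.IsSection e s) {x : X} :
    x ∈ DO E hs ↔ s ≠ 0 ∧ lam E x ^ e / s ∈ O x := Iff.rfl

/-- quotients of sections are functions on the nonvanishing locus -/
theorem exists_quot {e : ℕ} {s : X.functionField} (hs : E.IsSection e s) (hs0 : s ≠ 0)
    {f : X.functionField} (hf : E.IsSection e f) :
    ∃ a : Γ(X, DO E hs), (X.presheaf.germ (DO E hs) (genericPoint X)
      (generic_mem_D E hs0)).hom a = f / s := by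
  apply mem_range_germ
  intro x hx
  obtain ⟨-, hx⟩ := hx
  have h1 := (O x).mul_mem ((sec_iff E e f).1 hf x) hx
  have h2 : f / lam E x ^ e * (lam E x ^ e / s) = f / s := by
    have := lam_ne E x
    field_simp
  rwa [h2] at h1

theorem affine_DO {m : ℕ} (hm : 0 < m) {s : X.functionField} (hs : E.IsSection m s)
    (hs0 : s ≠ 0)
    (hss : s * s ∈ AddSubmonoid.closure {z | ∃ t v F, E.IsSection (m - 1) v ∧
      E.IsSection m F ∧ z = E.w t * v * F}) : IsAffineOpen (DO E hs) := by
  set V := DO E hs with hVdef
  have hV : genericPoint X ∈ V := generic_mem_D E hs0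
  have hinj := germ_injective_of_isIntegral X (genericPoint X) hV
  have hsec : ∀ t v, E.IsSection (m - 1) v → E.IsSection m (E.w t * v) := by
    intro t v hv
    have := sec_mul E (sec_w E t) hv
    rwa [show 1 + (m - 1) = m by omega] at this
  apply isAffineOpen_of_isAffineOpen_basicOpen V
    {h | ∃ t v, E.IsSection (m - 1) v ∧
      (X.presheaf.germ V (genericPoint X) hV).hom h = E.w t * v / s}
  · rw [Ideal.eq_top_iff_one]
    have key : ∀ z ∈ AddSubmonoid.closure {z | ∃ t v F, E.IsSection (m - 1) v ∧
        E.IsSection m F ∧ z = E.w t * v * F}, ∃ a ∈ Ideal.span {h : Γ(X, V) | ∃ t v,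
        E.IsSection (m - 1) v ∧ (X.presheaf.germ V (genericPoint X) hV).hom h =
          E.w t * v / s}, (X.presheaf.germ V (genericPoint X) hV).hom a = z / (s * s) := by
      intro z hz
      induction hz using AddSubmonoid.closure_induction with
      | mem z hz =>
        obtain ⟨t, v, F, hv, hF, rfl⟩ := hz
        obtain ⟨a, ha⟩ := exists_quot E hs hs0 (hsec t v hv)
        obtain ⟨b, hb⟩ := exists_quot E hs hs0 hF
        refine ⟨b * a, Ideal.mul_mem_left _ _ (Ideal.subset_span ⟨t, v, hv, ha⟩), ?_⟩
        rw [map_mul]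
        have e1 : (X.presheaf.germ V (genericPoint X) hV).hom a = E.w t * v / s := ha
        have e2 : (X.presheaf.germ V (genericPoint X) hV).hom b = F / s := hb
        rw [e1, e2, div_mul_div_comm, mul_comm F]
      | zero => exact ⟨0, Ideal.zero_mem _, by rw [map_zero, zero_div]⟩
      | add z z' _ _ hz hz' =>
        obtain ⟨a, ha, ha'⟩ := hz
        obtain ⟨b, hb, hb'⟩ := hz'
        exact ⟨a + b, Ideal.add_mem _ ha hb, by rw [map_add, ha', hb', add_div]⟩
    obtain ⟨a, ha, ha'⟩ := key _ hss
    rw [div_self (mul_ne_zero hs0 hs0)] at ha'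
    have : a = 1 := by
      apply hinj
      change (X.presheaf.germ V (genericPoint X) hV).hom a =
        (X.presheaf.germ V (genericPoint X) hV).hom 1
      rw [ha', map_one]
    rwa [this] at ha
  · rintro h ⟨t, v, hv, hh⟩
    by_cases h0 : E.w t * v = 0
    · have : h = 0 := by
        apply hinj
        change (X.presheaf.germ V (genericPoint X) hV).hom h =
          (X.presheaf.germ V (genericPoint X) hV).hom 0
        rw [hh, h0, zero_div, map_zero]
      rw [this, Scheme.basicOpen_zero]
      exact isAffineOpen_bot X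
    · have hw0 : E.w t ≠ 0 := left_ne_zero_of_mul h0
      have hl : E.l (Pi.single t 1) ≠ 0 := by rw [l_single]; exact hw0
      obtain ⟨hUaff, hUg⟩ := E.affine _ hl
      have hu := hsec t v hv
      obtain ⟨b, hb⟩ := exists_on E (sec_mul E hs hu) t hUg
      have heq : X.basicOpen h = X.basicOpen b := by
        ext x
        have hl0 := lam_ne E x
        have hv0 : v ≠ 0 := right_ne_zero_of_mul h0
        have hux := (sec_iff E _ _).1 hu x
        have hvx := (sec_iff E _ _).1 hv x
        have hsx := (sec_iff E _ _).1 hs x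
        constructor
        · intro hx
          have hx' := (mem_basicOpen_iff hV h x).1 hx
          rw [hh, inv_div] at hx'
          obtain ⟨⟨-, hx1⟩, -, hx2⟩ := hx'
          have hx3 : lam E x ^ m / (E.w t * v) ∈ O x := by
            have h1 := (O x).mul_mem hx1 hx2
            have h2 : lam E x ^ m / s * (s / (E.w t * v)) = lam E x ^ m / (E.w t * v) := by
              field_simp
            rwa [h2] at h1
          have hxU : x ∈ E.U (Pi.single t 1) := by
            rw [mem_U_lam]
            refine ⟨hl, ?_⟩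
            rw [l_single]
            have h1 := (O x).mul_mem hx3 hvx
            have h2 : lam E x ^ m / (E.w t * v) * (v / lam E x ^ (m - 1)) =
                lam E x / E.w t := by
              have h3 : lam E x ^ m = lam E x ^ (m - 1) * lam E x := by
                rw [← pow_succ]; congr 1; omega
              rw [h3]
              field_simp
            rwa [h2] at h1
          refine (mem_basicOpen_iff hUg b x).2 ⟨hxU, ?_⟩
          rw [hb, inv_div]
          refine ⟨div_ne_zero (mul_ne_zero hs0 h0) (pow_ne_zero _ hw0), ?_⟩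
          have h1 := (O x).mul_mem ((O x).pow_mem (w_div_lam E t x) (m + m))
            ((O x).mul_mem hx1 hx3)
          have h2 : (E.w t / lam E x) ^ (m + m) * (lam E x ^ m / s *
              (lam E x ^ m / (E.w t * v))) = E.w t ^ (m + m) / (s * (E.w t * v)) := by
            rw [div_pow, pow_add, pow_add]
            field_simp
          rwa [h2] at h1
        · intro hx
          have hx' := (mem_basicOpen_iff hUg b x).1 hx
          rw [hb, inv_div] at hx'
          obtain ⟨hxU, -, hx2⟩ := hx'
          have hx1 := lam_div_l E hxU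
          rw [l_single] at hx1
          have hx3 : lam E x ^ (m + m) / (s * (E.w t * v)) ∈ O x := by
            have h1 := (O x).mul_mem ((O x).pow_mem hx1 (m + m)) hx2
            have h2 : (lam E x / E.w t) ^ (m + m) * (E.w t ^ (m + m) / (s * (E.w t * v))) =
                lam E x ^ (m + m) / (s * (E.w t * v)) := by
              rw [div_pow]
              field_simp
            rwa [h2] at h1
          refine (mem_basicOpen_iff hV h x).2 ⟨⟨hs0, ?_⟩, ?_⟩
          · have h1 := (O x).mul_mem hx3 hux
            have h2 : lam E x ^ (m + m) / (s * (E.w t * v)) * (E.w t * v / lam E x ^ m) =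
                lam E x ^ m / s := by
              rw [pow_add]
              field_simp
            rwa [h2] at h1
          · rw [hh, inv_div]
            refine ⟨div_ne_zero h0 hs0, ?_⟩
            have h1 := (O x).mul_mem hx3 ((O x).mul_mem hsx hsx)
            have h2 : lam E x ^ (m + m) / (s * (E.w t * v)) * (s / lam E x ^ m *
                (s / lam E x ^ m)) = s / (E.w t * v) := by
              rw [pow_add]
              field_simp
            rwa [h2] at h1
      rw [heq]
      exact hUaff.basicOpen b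

end embed

end Pool.Agent.K1.NormEmb
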