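import Pool.Agent.K1.Gersten

/-!
Orders at points of functions on a curve `P`, and the comparison of local intersection numbers
(additivity of lengths in `0 → P/(q) → A/(q) → A/P → 0`).
-/

set_option autoImplicit false

namespace Pool.Agent.K1

section local_

variable {O : Type*} [CommRing O]

/-- The length of `O/(P, c)`. -/
noncomputable def lenP (P : Ideal O) (c : O) : ℕ∞ :=
  Module.length O (O ⧸ (P ⊔ Ideal.span {c}))

theorem lenP_congr (P : Ideal O) {c d : O} (h : c - d ∈ P) : lenP P c = lenP P d := by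
  have key : ∀ c d : O, c - d ∈ P → P ⊔ Ideal.span {c} ≤ P ⊔ Ideal.span {d} := by
    intro c d h
    rw [sup_le_iff, Ideal.span_singleton_le_iff_mem]
    refine ⟨le_sup_left, ?_⟩
    have h1 : c = (c - d) + d := by ring
    rw [h1]
    exact Ideal.add_mem _ (Ideal.mem_sup_left h)
      (Ideal.mem_sup_right (Ideal.mem_span_singleton_self d))
  have h1 : P ⊔ Ideal.span {c} = P ⊔ Ideal.span {d} := by
    apply le_antisymm (key c d h)
    apply key d c
    rw [← neg_sub]
    exact P.neg_mem h
  unfold lenP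
  rw [h1]

theorem lenP_unit (P : Ideal O) {c : O} (hc : IsUnit c) : lenP P c = 0 := by
  unfold lenP
  rw [Module.length_eq_zero_iff]
  apply Ideal.Quotient.subsingleton_iff.2
  exact Ideal.eq_top_of_isUnit_mem _ (Ideal.mem_sup_right (Ideal.mem_span_singleton_self c)) hc

theorem lenP_mul (P : Ideal O) {c d : O} (hc : ∀ y, c * y ∈ P → y ∈ P) :
    lenP P (c * d) = lenP P c + lenP P d := by
  have hle : P ⊔ Ideal.span {c * d} ≤ P ⊔ Ideal.span {c} := by
    rw [sup_le_iff, Ideal.span_singleton_le_iff_mem]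
    exact ⟨le_sup_left, Ideal.mem_sup_right
      (Ideal.mul_mem_right _ _ (Ideal.mem_span_singleton_self c))⟩
  have hle2 : P ⊔ Ideal.span {d} ≤
      Submodule.comap (LinearMap.mulLeft O c) (P ⊔ Ideal.span {c * d}) := by
    rw [sup_le_iff, Ideal.span_singleton_le_iff_mem]
    constructor
    · intro y hy
      have h1 : c * y ∈ P ⊔ Ideal.span {c * d} := Ideal.mem_sup_left (P.mul_mem_left c hy)
      exact h1
    · have h1 : c * d ∈ P ⊔ Ideal.span {c * d} :=
        Ideal.mem_sup_right (Ideal.mem_span_singleton_self _)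
      exact h1
  let i : (O ⧸ (P ⊔ Ideal.span {d})) →ₗ[O] (O ⧸ (P ⊔ Ideal.span {c * d})) :=
    Submodule.mapQ _ _ (LinearMap.mulLeft O c) hle2
  let q : (O ⧸ (P ⊔ Ideal.span {c * d})) →ₗ[O] (O ⧸ (P ⊔ Ideal.span {c})) :=
    Submodule.mapQ _ _ LinearMap.id hle
  have hi : Function.Injective i := by
    rw [← LinearMap.ker_eq_bot, LinearMap.ker_eq_bot']
    rintro ⟨x⟩ hx
    have h1 : c * x ∈ P ⊔ Ideal.span {c * d} := (Submodule.Quotient.mk_eq_zero _).1 hx
    rw [Submodule.mem_sup] at h1
    obtain ⟨u, hu, v, hv, huv⟩ := h1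
    obtain ⟨w, rfl⟩ := Ideal.mem_span_singleton'.1 hv
    have h2 : c * (x - w * d) ∈ P := by
      have h3 : c * (x - w * d) = u := by linear_combination -huv
      rw [h3]; exact hu
    have h3 := hc _ h2
    apply (Submodule.Quotient.mk_eq_zero _).2
    have h4 : x = (x - w * d) + w * d := by ring
    rw [h4]
    exact Ideal.add_mem _ (Ideal.mem_sup_left h3)
      (Ideal.mem_sup_right (Ideal.mul_mem_left _ _ (Ideal.mem_span_singleton_self d)))
  have hq : Function.Surjective q := by
    rintro ⟨x⟩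
    exact ⟨Submodule.Quotient.mk x, rfl⟩
  have hex : Function.Exact i q := by
    rintro ⟨x⟩
    constructor
    · intro hx
      have h1 : x ∈ P ⊔ Ideal.span {c} := (Submodule.Quotient.mk_eq_zero _).1 hx
      rw [Submodule.mem_sup] at h1
      obtain ⟨u, hu, v, hv, huv⟩ := h1
      obtain ⟨w, rfl⟩ := Ideal.mem_span_singleton'.1 hv
      refine ⟨Submodule.Quotient.mk w, ?_⟩
      change Submodule.Quotient.mk (c * w) = Submodule.Quotient.mk x
      rw [Submodule.Quotient.eq]
      have h2 : c * w - x = -u := by linear_combination huv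
      rw [h2]
      exact Ideal.mem_sup_left (P.neg_mem hu)
    · rintro ⟨⟨w⟩, hw⟩
      have h1 : (Submodule.Quotient.mk (c * w) : O ⧸ (P ⊔ Ideal.span {c * d})) =
        Submodule.Quotient.mk x := hw
      change q (Submodule.Quotient.mk x) = 0
      rw [← h1]
      change (Submodule.Quotient.mk (c * w) : O ⧸ (P ⊔ Ideal.span {c})) = 0
      rw [Submodule.Quotient.mk_eq_zero]
      exact Ideal.mem_sup_right (Ideal.mul_mem_right _ _ (Ideal.mem_span_singleton_self c))
  have h := Module.length_eq_add_of_exact i q hi hq hex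
  unfold lenP
  rw [h, add_comm]

theorem lenP_pow (P : Ideal O) {c : O} (hc : ∀ y, c * y ∈ P → y ∈ P) (n : ℕ) :
    lenP P (c ^ n) = n * lenP P c := by
  induction n with
  | zero => rw [pow_zero, lenP_unit P isUnit_one]; simp
  | succ n ih =>
    rw [pow_succ', lenP_mul P hc, ih]
    push_cast
    ring

/-- The comparison of the intersection numbers with `q`, when `a` and `b` agree on the other
components of `q`. -/
theorem herbrand (P : Ideal O) (q a b : O) (hq : q ∈ P) (ha : ∀ y, a * y ∈ P → y ∈ P)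
    (hb : ∀ y, b * y ∈ P → y ∈ P) (hab : ∀ y ∈ P, (a - b) * y ∈ Ideal.span {q}) :
    len q a + lenP P b = len q b + lenP P a := by
  -- the kernel of `P → O/(q, a)`
  let K : O → Submodule O P := fun a => Submodule.comap P.subtype (Ideal.span {q, a})
  have hlen : ∀ a : O, len q a = Module.length O (P ⧸ K a) + lenP P a := by
    intro a
    have hle : Ideal.span {q, a} ≤ P ⊔ Ideal.span {a} := by
      rw [Ideal.span_le]
      rintro x (rfl | rfl)
      · exact Ideal.mem_sup_left hq
      · exact Ideal.mem_sup_right (Ideal.mem_span_singleton_self _)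
    let i : (P ⧸ K a) →ₗ[O] (O ⧸ Ideal.span {q, a}) :=
      Submodule.mapQ (K a) (Ideal.span {q, a}) P.subtype le_rfl
    let g : (O ⧸ Ideal.span {q, a}) →ₗ[O] (O ⧸ (P ⊔ Ideal.span {a})) :=
      Submodule.mapQ _ _ LinearMap.id hle
    have hi : Function.Injective i := by
      rw [← LinearMap.ker_eq_bot, LinearMap.ker_eq_bot']
      rintro ⟨x⟩ hx
      have h1 : (x : O) ∈ Ideal.span {q, a} := (Submodule.Quotient.mk_eq_zero _).1 hx
      exact (Submodule.Quotient.mk_eq_zero _).2 h1
    have hg : Function.Surjective g := by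
      rintro ⟨x⟩
      exact ⟨Submodule.Quotient.mk x, rfl⟩
    have hex : Function.Exact i g := by
      rintro ⟨x⟩
      constructor
      · intro hx
        have h1 : x ∈ P ⊔ Ideal.span {a} := (Submodule.Quotient.mk_eq_zero _).1 hx
        rw [Submodule.mem_sup] at h1
        obtain ⟨u, hu, v, hv, huv⟩ := h1
        refine ⟨Submodule.Quotient.mk ⟨u, hu⟩, ?_⟩
        change Submodule.Quotient.mk u = Submodule.Quotient.mk x
        rw [Submodule.Quotient.eq]
        have h2 : u - x = -v := by linear_combination huv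
        rw [h2]
        have h3 : Ideal.span {a} ≤ Ideal.span {q, a} := Ideal.span_mono (by simp)
        exact Ideal.neg_mem_iff _ |>.2 (h3 hv)
      · rintro ⟨⟨w⟩, hw⟩
        have h1 : (Submodule.Quotient.mk (w : O) : O ⧸ Ideal.span {q, a}) =
          Submodule.Quotient.mk x := hw
        change g (Submodule.Quotient.mk x) = 0
        rw [← h1]
        change (Submodule.Quotient.mk (w : O) : O ⧸ (P ⊔ Ideal.span {a})) = 0
        rw [Submodule.Quotient.mk_eq_zero]
        exact Ideal.mem_sup_left w.2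
    exact Module.length_eq_add_of_exact i g hi hg hex
  have hKle : ∀ a b : O, (∀ y, a * y ∈ P → y ∈ P) → (∀ y ∈ P, (a - b) * y ∈ Ideal.span {q}) →
      K a ≤ K b := by
    intro a b ha hab x hx
    have h1 : (x : O) ∈ Ideal.span {q, a} := hx
    rw [Ideal.mem_span_pair] at h1
    obtain ⟨u, v, huv⟩ := h1
    have h2 : a * v ∈ P := by
      have h3 : a * v = x - u * q := by linear_combination huv
      rw [h3]
      exact P.sub_mem x.2 (P.mul_mem_left _ hq)
    have h3 := ha v h2
    obtain ⟨w, hw⟩ := Ideal.mem_span_singleton'.1 (hab v h3)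
    change (x : O) ∈ Ideal.span {q, b}
    rw [Ideal.mem_span_pair]
    exact ⟨u + w, v, by linear_combination huv + hw⟩
  have hK : K a = K b := by
    apply le_antisymm (hKle a b ha hab)
    apply hKle b a hb
    intro y hy
    have h1 : (b - a) * y = -((a - b) * y) := by ring
    rw [h1]
    exact Ideal.neg_mem_iff _ |>.2 (hab y hy)
  rw [hlen a, hlen b, hK]
  ring

end local_

section points

variable {k A : Type*} [Field k] [CommRing A] [Algebra k A]

/-- The order at the point `x` of the function `c` restricted to the curve `P`: the length of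
`A_x/(P, c)`. -/
noncomputable def ordPt (P : Ideal A) (x : A →ₐ[k] k) (c : A) : ℕ∞ :=
  lenP (P.map (algebraMap A (LocAt x))) (algebraMap A (LocAt x) c)

theorem loc_mem_map_iff (P : Ideal A) (x : A →ₐ[k] k) (y : LocAt x) :
    y ∈ P.map (algebraMap A (LocAt x)) ↔
      ∃ (c : A) (s : (RingHom.ker x).primeCompl), c ∈ P ∧
        y * algebraMap A (LocAt x) s = algebraMap A (LocAt x) c := by
  rw [IsLocalization.mem_map_algebraMap_iff (RingHom.ker x).primeCompl]
  constructor
  · rintro ⟨⟨⟨c, hc⟩, s⟩, h⟩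
    exact ⟨c, s, hc, h⟩
  · rintro ⟨c, s, hc, h⟩
    exact ⟨(⟨c, hc⟩, s), h⟩

theorem loc_cancel (P : Ideal A) (hP : P.IsPrime) (x : A →ₐ[k] k) {a : A} (ha : a ∉ P)
    (y : LocAt x) (hy : algebraMap A (LocAt x) a * y ∈ P.map (algebraMap A (LocAt x))) :
    y ∈ P.map (algebraMap A (LocAt x)) := by
  rw [loc_mem_map_iff] at hy
  obtain ⟨c, s, hc, h⟩ := hy
  obtain ⟨⟨d, t⟩, hdt⟩ := IsLocalization.surj (RingHom.ker x).primeCompl y
  -- `y t = d`
  have h1 : algebraMap A (LocAt x) (a * d * s) = algebraMap A (LocAt x) (c * t) := by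
    rw [map_mul, map_mul, map_mul, ← hdt, ← h]
    ring
  obtain ⟨r, hr⟩ := (IsLocalization.eq_iff_exists (RingHom.ker x).primeCompl (LocAt x)).1 h1
  have h2 : a * (r * d * s) ∈ P := by
    have h3 : a * (r * d * s) = r * (c * t) := by
      rw [← hr]; ring
    rw [h3]
    exact P.mul_mem_left _ (P.mul_mem_right _ hc)
  have h3 : (r : A) * d * s ∈ P := (hP.mem_or_mem h2).resolve_left ha
  rw [loc_mem_map_iff]
  refine ⟨r * d * s, t * r * s, h3, ?_⟩
  rw [Submonoid.coe_mul, Submonoid.coe_mul, map_mul, map_mul, map_mul, map_mul, ← hdt]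
  ring

theorem ordPt_congr (P : Ideal A) (x : A →ₐ[k] k) {c d : A} (h : c - d ∈ P) :
    ordPt P x c = ordPt P x d := by
  apply lenP_congr
  rw [← map_sub]
  exact Ideal.mem_map_of_mem _ h

theorem ordPt_mul (P : Ideal A) (hP : P.IsPrime) (x : A →ₐ[k] k) {c d : A} (hc : c ∉ P) :
    ordPt P x (c * d) = ordPt P x c + ordPt P x d := by
  unfold ordPt
  rw [map_mul]
  exact lenP_mul _ (fun y hy => loc_cancel P hP x hc y hy)

theorem ordPt_pow (P : Ideal A) (hP : P.IsPrime) (x : A →ₐ[k] k) {c : A} (hc : c ∉ P) (n : ℕ) :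
    ordPt P x (c ^ n) = n * ordPt P x c := by
  unfold ordPt
  rw [map_pow]
  exact lenP_pow _ (fun y hy => loc_cancel P hP x hc y hy) n

theorem lenAt_add_ordPt (P : Ideal A) (hP : P.IsPrime) (x : A →ₐ[k] k) {q a b : A} (hq : q ∈ P)
    (ha : a ∉ P) (hb : b ∉ P) (hab : ∀ y ∈ P, (a - b) * y ∈ Ideal.span {q}) :
    lenAt x q a + ordPt P x b = lenAt x q b + ordPt P x a := by
  unfold lenAt ordPt
  apply herbrand
  · exact Ideal.mem_map_of_mem _ hq
  · exact fun y hy => loc_cancel P hP x ha y hy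
  · exact fun y hy => loc_cancel P hP x hb y hy
  · intro y hy
    rw [loc_mem_map_iff] at hy
    obtain ⟨c, s, hc, h⟩ := hy
    obtain ⟨w, hw⟩ := Ideal.mem_span_singleton'.1 (hab c hc)
    have hs : IsUnit (algebraMap A (LocAt x) s) := IsLocalization.map_units _ s
    obtain ⟨u, hu⟩ := hs
    rw [Ideal.mem_span_singleton']
    refine ⟨algebraMap A (LocAt x) w * (u⁻¹ : (LocAt x)ˣ), ?_⟩
    have h1 : algebraMap A (LocAt x) w * algebraMap A (LocAt x) q =
        (algebraMap A (LocAt x) a - algebraMap A (LocAt x) b) * algebraMap A (LocAt x) c := by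
      rw [← map_mul, hw, map_mul, map_sub]
    have h2 : (u : LocAt x) * (u⁻¹ : (LocAt x)ˣ) = 1 := u.mul_inv
    rw [← hu] at h
    calc algebraMap A (LocAt x) w * (u⁻¹ : (LocAt x)ˣ) * algebraMap A (LocAt x) q
        = (algebraMap A (LocAt x) w * algebraMap A (LocAt x) q) * (u⁻¹ : (LocAt x)ˣ) := by ring
      _ = (algebraMap A (LocAt x) a - algebraMap A (LocAt x) b) * y *
          ((u : LocAt x) * (u⁻¹ : (LocAt x)ˣ)) := by rw [h1, ← h]; ring
      _ = _ := by rw [h2, mul_one]

/-- The difference of the intersection numbers of `q` with `a` and `b` at `x` is `N` times the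
order of `h = h₁/h₂` at `x`. -/
theorem lenAt_sub (P : Ideal A) (hP : P.IsPrime) (x : A →ₐ[k] k) {q a b h₁ h₂ : A} (hq : q ∈ P)
    (ha : a ∉ P) (hb : b ∉ P) (hab : ∀ y ∈ P, (a - b) * y ∈ Ideal.span {q}) (hh₁ : h₁ ∉ P)
    (hh₂ : h₂ ∉ P) (N : ℕ) (hN : a * h₂ ^ N - h₁ ^ N * b ∈ P) (hfa : ordPt P x a ≠ ⊤)
    (hfb : ordPt P x b ≠ ⊤) :
    lenAt x q a + N * ordPt P x h₂ = lenAt x q b + N * ordPt P x h₁ := by
  have h1 := lenAt_add_ordPt P hP x hq ha hb hab
  have h2 := ordPt_congr P x hN
  rw [ordPt_mul P hP x ha, ordPt_pow P hP x hh₂,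
    ordPt_mul P hP x (fun h => hh₁ (hP.mem_of_pow_mem _ h)), ordPt_pow P hP x hh₁] at h2
  -- cancel `ordPt a` and `ordPt b`
  have h3 : (lenAt x q a + N * ordPt P x h₂) + (ordPt P x b + ordPt P x a) =
      (lenAt x q b + N * ordPt P x h₁) + (ordPt P x b + ordPt P x a) := by
    calc (lenAt x q a + N * ordPt P x h₂) + (ordPt P x b + ordPt P x a)
        = (lenAt x q a + ordPt P x b) + (ordPt P x a + N * ordPt P x h₂) := by ring
      _ = (lenAt x q b + ordPt P x a) + (N * ordPt P x h₁ + ordPt P x b) := by rw [h1, h2]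
      _ = _ := by ring
  exact (ENat.add_left_injective_of_ne_top (by simp [hfa, hfb])) h3

end points

end Pool.Agent.K1
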