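import Pool.Agent.K1.SectionExpDef

/-!
Layer 2: from a degree function (complement of an integral hyperplane section of a
projectively normal surface) to an expansion along a section.
-/

open Polynomial

namespace Pool.Agent.K1

/-- A degree function on `A` (pole order along an integral hyperplane section at infinity):
the elements of degree at most `j` are the polynomials of degree at most `j` in the finitely
many elements of `S`. -/
structure DegFun (k A : Type) [Field k] [CommRing A] [Algebra k A] where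
  /-- the degree -/
  deg : A → ℕ
  /-- generators of degree at most one -/
  S : Finset A
  deg_mul : ∀ f g : A, f ≠ 0 → g ≠ 0 → deg (f * g) = deg f + deg g
  deg_add : ∀ f g : A, deg (f + g) ≤ max (deg f) (deg g)
  deg_S : ∀ a ∈ S, deg a ≤ 1
  gen : ∀ f : A, f ∈ (Submodule.span k (insert (1 : A) (S : Set A))) ^ (deg f)

namespace DegFun

variable {k A : Type} [Field k] [CommRing A] [Algebra k A] (D : DegFun k A)

/-- The elements of degree at most `j`. -/
noncomputable def fil (j : ℕ) : Submodule k A :=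
  (Submodule.span k (insert (1 : A) (D.S : Set A))) ^ j

end DegFun

/-- Depth at least two at all maximal ideals (holds for regular domains of dimension two). -/
def Depth2 (A : Type) [CommRing A] : Prop :=
  ∀ 𝔪 : Ideal A, 𝔪.IsMaximal → ∀ g a : A, g ≠ 0 → (∀ x ∈ 𝔪, g ∣ x * a) → g ∣ a

/-- `E` is the ring of the `f / U ^ j`, `deg f ≤ j`; `θ j f = f / U ^ j`. -/
structure IsChart {k A E : Type} [Field k] [CommRing A] [Algebra k A] [CommRing E]
    [Algebra k E] (D : DegFun k A) (U : A) (θ : ℕ → A → E) : Prop where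
  degU : D.deg U = 1
  map_add : ∀ (j : ℕ) (f g : A), D.deg f ≤ j → D.deg g ≤ j → θ j (f + g) = θ j f + θ j g
  map_mul : ∀ (i j : ℕ) (f g : A), D.deg f ≤ i → D.deg g ≤ j →
    θ (i + j) (f * g) = θ i f * θ j g
  map_C : ∀ c : k, θ 0 (algebraMap k A c) = algebraMap k E c
  map_U : θ 1 U = 1
  inj : ∀ (j : ℕ) (f : A), D.deg f ≤ j → θ j f = 0 → f = 0
  surj : ∀ x : E, ∃ (j : ℕ) (f : A), D.deg f ≤ j ∧ θ j f = x
  dvd : ∀ (j : ℕ) (f : A), D.deg f ≤ j → θ 1 1 ∣ θ j f → f = 0 ∨ D.deg f < j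

/-- What is needed of the local ring of the curve at `x₀`. -/
structure LocalPt {K C : Type} [Field K] [CommRing C] [Algebra K C] (x₀ : C →ₐ[K] K)
    (τ e : C) : Prop where
  hτ : x₀ τ = 0
  τ0 : τ ≠ 0
  he : x₀ e = 1
  dvd : ∀ x, x₀ x = 0 → τ ∣ e * x
  dvd_pow : ∀ n, ∀ c ∈ (RingHom.ker x₀) ^ n, τ ^ n ∣ e ^ n * c
  digit : ∀ n, ∀ c ∈ (RingHom.ker x₀) ^ n, ∃ a : K, c - a • τ ^ n ∈ (RingHom.ker x₀) ^ (n + 1)
  ord : ∀ c, c ≠ 0 → ∃ n, c ∈ (RingHom.ker x₀) ^ n ∧ c ∉ (RingHom.ker x₀) ^ (n + 1)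
  mul : ∀ n n' c c', c ∈ (RingHom.ker x₀) ^ n → c ∉ (RingHom.ker x₀) ^ (n + 1) →
    c' ∈ (RingHom.ker x₀) ^ n' → c' ∉ (RingHom.ker x₀) ^ (n' + 1) →
    c * c' ∉ (RingHom.ker x₀) ^ (n + n' + 1)
  pow_notMem : ∀ n, τ ^ n ∉ (RingHom.ker x₀) ^ (n + 1)
  fin : ∀ n, Module.Finite K (C ⧸ (RingHom.ker x₀) ^ n)
  finrank : ∀ n, Module.finrank K (C ⧸ (RingHom.ker x₀) ^ n) = n

/-- The projective structure of the curve. -/
structure Hilb {K C : Type} [Field K] [CommRing C] [Algebra K C] (W : Submodule K C) (v : C)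
    (δ j₁ : ℕ) : Prop where
  fg : W.FG
  one_mem : (1 : C) ∈ W
  adjoin : Algebra.adjoin K (W : Set C) = ⊤
  v_mem : v ∈ W
  v0 : v ≠ 0
  δ_pos : 1 ≤ δ
  noether : ∀ j, j₁ ≤ j → W ^ (j + 1) ≤ W ^ j ⊔ Submodule.span K {v} * W ^ j
  finrank : ∀ j, j₁ ≤ j →
    Module.finrank K ↥(W ^ (j + 1)) = Module.finrank K ↥(W ^ j) + δ

/-- The element `g` is a section of degree `i` (`g / v ^ i` is regular where `v ≠ 0`). -/
def SatMem {K C : Type} [Field K] [CommRing C] [Algebra K C] (W : Submodule K C) (v : C)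
    (i : ℕ) (g : C) : Prop := ∃ N : ℕ, v ^ N * g ∈ W ^ (N + i)

/-- The other chart of the curve: the ring `K[W / v]`. -/
noncomputable def Rv (K : Type) {C : Type} [Field K] [CommRing C] [IsDomain C] [Algebra K C]
    (W : Submodule K C) (v : C) : Subalgebra K (FractionRing C) :=
  Algebra.adjoin K ((fun w : C => algebraMap C (FractionRing C) w /
    algebraMap C (FractionRing C) v) '' (W : Set C))

/-- The residual ideal. -/
def Resid {C : Type} [CommRing C] (τ ν c : C) (n : ℕ) : Ideal C where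
  carrier := {x | c ∣ x * τ ^ n ∧ c ∣ x * ν ^ n}
  add_mem' := fun {a b} ha hb => ⟨by rw [add_mul]; exact dvd_add ha.1 hb.1,
    by rw [add_mul]; exact dvd_add ha.2 hb.2⟩
  zero_mem' := ⟨by simp, by simp⟩
  smul_mem' := fun r x hx => ⟨by rw [smul_eq_mul, mul_assoc]; exact dvd_mul_of_dvd_right hx.1 _,
    by rw [smul_eq_mul, mul_assoc]; exact dvd_mul_of_dvd_right hx.2 _⟩

/-- The conclusion: a section of degree `a` with no zero except `x₀`. -/
def Tors {K C : Type} [Field K] [CommRing C] [Algebra K C] (W : Submodule K C) (v : C)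
    (x₀ : C →ₐ[K] K) : Prop :=
  ∃ (a M e : ℕ) (b y : C), 1 ≤ a ∧ 1 ≤ M ∧ Ideal.span {b} = (RingHom.ker x₀) ^ M ∧
    SatMem W v a b ∧ y ∈ W ^ e ∧ b * y = v ^ (e + a)

/-- The expansion along the last exceptional curve. -/
structure IsExp {k E : Type} [Field k] [CommRing E] [Algebra k E] (x₀ : E →ₐ[k] k)
    (t τ φ : E) (M m : ℕ) (exp : E →+* PowerSeries k[X]) : Prop where
  inj : Function.Injective exp
  exp_C : ∀ c : k, exp (algebraMap k E c) = PowerSeries.C (C c)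
  exp_τ : exp τ = PowerSeries.X
  exp_z : exp (φ ^ 2 + t) = PowerSeries.C X * exp t ^ m
  const : ∀ x, PowerSeries.constantCoeff (exp x) = C (x₀ x)
  exp_t : ∃ v : (PowerSeries k[X])ˣ, exp t = PowerSeries.X ^ (2 * M) * (v : PowerSeries k[X])

/-- What the construction of the section gives: `m` is the degree of `s`, `M` is the order of
the local equation `t` of the hyperplane section. -/
structure Lead {k A : Type} [Field k] [CommRing A] [Algebra k A] (D : DegFun k A) (s : A)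
    (ι : A →+* LaurentSeries k[X]) (m M j₁ κ : ℕ) : Prop where
  m_pos : 1 ≤ m
  M_pos : 1 ≤ M
  le : m ≤ j₁
  deg_s : D.deg s = m
  ι_C : ∀ a : k, ι (algebraMap k A a) = HahnSeries.C (C a)
  ι_s : ι s = HahnSeries.C X
  bd : ∀ (j : ℕ) (f : A), D.deg f ≤ j → ∀ i : ℤ, i < -((M * j : ℕ) : ℤ) → (ι f).coeff i = 0
  gr : ∀ (j : ℕ) (f : A), D.deg f ≤ j → ∀ i : ℤ,
    ((ι f).coeff i).natDegree ≤ κ * (i + ((M * j : ℕ) : ℤ)).toNat
  /-- either the leading form has order `o < M` at the point, or `f` can be reduced by `s` -/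
  dich : ∀ (j : ℕ) (f : A), D.deg f ≤ j → j₁ ≤ j →
    (∃ o : ℕ, o < M ∧ ∃ c : k, c ≠ 0 ∧ (ι f).coeff ((o : ℤ) - ((M * j : ℕ) : ℤ)) = C c ∧
      ∀ i : ℤ, i < (o : ℤ) - ((M * j : ℕ) : ℤ) → (ι f).coeff i = 0) ∨
    (∃ h : A, D.deg h ≤ j - m ∧ D.deg (f - s * h) < j)
  ex : ∀ (j o : ℕ), j₁ ≤ j → o < M → ∃ f : A, D.deg f ≤ j ∧
    (ι f).coeff ((o : ℤ) - ((M * j : ℕ) : ℤ)) = 1 ∧
    ∀ i : ℤ, i < (o : ℤ) - ((M * j : ℕ) : ℤ) → (ι f).coeff i = 0

end Pool.Agent.K1
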