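import Pool.Agent.K1.GerstenRel
import Pool.Agent.K1.Herbrand
import Pool.Agent.K1.L2Defs

/-!
Layer 3: the Gersten complex (rational functions, functions on curves, points) of an integral
locally noetherian scheme, and projective embeddings.
-/

set_option autoImplicit false

open AlgebraicGeometry CategoryTheory

attribute [local instance] MvPolynomial.gradedAlgebra

namespace Pool.Agent.K1

/-- The points of codimension one of the scheme `X`. -/
abbrev PointOne (X : Scheme.{0}) : Type := {x : X // Order.coheight x = 1}

/-- Chains: finite formal sums of pairs `(x, h)`, where `x` is a point of codimension one and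
`h` is a unit of its residue field. -/
abbrev SChain (X : Scheme.{0}) : Type :=
  Π₀ x : PointOne X, Additive (X.residueField x.1)ˣ

section tame

variable {X : Scheme.{0}} [IsIntegral X] [IsLocallyNoetherian X]

/-- `t` is the tame symbol `(-1)^(v(f) v(g)) f^v(g) / g^v(f)` of the rational functions `f`, `g`
at the point `x` of codimension one, `v` the order at `x`. -/
def IsTameAt (x : X) (f g : X.functionField) (t : (X.residueField x)ˣ) : Prop :=
  ∃ u : (X.presheaf.stalk x)ˣ,
    f ^ (X.ord g x) = (-1) ^ (X.ord f x * X.ord g x) * g ^ (X.ord f x) *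
      algebraMap (X.presheaf.stalk x) X.functionField u ∧
    (t : X.residueField x) = X.residue x u

/-- The subgroup of chains generated by the tame symbols of all pairs of nonzero rational
functions. -/
noncomputable def tameChains (X : Scheme.{0}) [IsIntegral X] [IsLocallyNoetherian X] :
    AddSubgroup (SChain X) :=
  AddSubgroup.closure {ξ | ∃ f g : X.functionField, f ≠ 0 ∧ g ≠ 0 ∧
    ∀ x : PointOne X, IsTameAt x.1 f g (Additive.toMul (ξ x))}

end tame

section order

variable {X : Scheme.{0}}

/-- Evaluation at the point `x` of the functions defined near the point `y`, for `y` in the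
closure of `x`. -/
noncomputable def evalAt {x y : X} (h : x ⤳ y) : X.presheaf.stalk y →+* X.residueField x :=
  (X.residue x).hom.comp (X.presheaf.stalkSpecializes h).hom

/-- `n` is the order at `y` of the unit `a` of the residue field of `x` (the order on the local
ring at `y` of the closure of `x`), for `y` in the closure of `x`. -/
def IsOrdAt {x y : X} (h : x ⤳ y) (a : (X.residueField x)ˣ) (n : ℤ) : Prop :=
  ∃ c d : X.presheaf.stalk y, evalAt h c ≠ 0 ∧ evalAt h d ≠ 0 ∧
    (a : X.residueField x) * evalAt h d = evalAt h c ∧
    n = ((Module.length (X.presheaf.stalk y)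
        (X.presheaf.stalk y ⧸ (RingHom.ker (evalAt h) ⊔ Ideal.span {c}))).toNat : ℤ) -
      (Module.length (X.presheaf.stalk y)
        (X.presheaf.stalk y ⧸ (RingHom.ker (evalAt h) ⊔ Ideal.span {d}))).toNat

/-- The chain `ξ` has divisor zero: at every point `y` of codimension two the orders of its
components sum to zero. -/
def IsCycle1 (ξ : SChain X) : Prop :=
  ∀ y : X, Order.coheight y = 2 → ∃ n : PointOne X →₀ ℤ,
    (∀ x : PointOne X, ¬ x.1 ⤳ y → n x = 0) ∧
    (∀ (x : PointOne X) (h : x.1 ⤳ y), IsOrdAt h (Additive.toMul (ξ x)) (n x)) ∧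
    n.sum (fun _ m => m) = 0

end order

/-- Projective space of dimension `n` over `k`. -/
noncomputable abbrev PN (k : Type) [Field k] (n : ℕ) : Scheme.{0} :=
  Proj (MvPolynomial.homogeneousSubmodule (Fin (n + 1)) k)

/-- Data of an embedding in projective space: scalars, homogeneous coordinates `w j` as rational
functions (up to a common factor), complements `U c` of the hyperplane sections. -/
structure EmbedData (k : Type) [Field k] (X : Scheme.{0}) [IsIntegral X] (n : ℕ) where
  str : k →+* Γ(X, ⊤)
  w : Fin (n + 1) → X.functionField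
  U : (Fin (n + 1) → k) → X.Opens

namespace EmbedData

variable {k : Type} [Field k] {X : Scheme.{0}} [IsIntegral X] {n : ℕ}

/-- The scalars as rational functions. -/
noncomputable def kf (E : EmbedData k X n) : k →+* X.functionField :=
  (X.presheaf.germ ⊤ (genericPoint X) trivial).hom.comp E.str

/-- The scalars as functions on the open set `V`. -/
noncomputable def strOn (E : EmbedData k X n) (V : X.Opens) : k →+* Γ(X, V) :=
  (X.presheaf.map (homOfLE le_top : V ⟶ ⊤).op).hom.comp E.str

/-- The scalars in the residue field. -/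
noncomputable def kres (E : EmbedData k X n) (x : X) : k →+* X.residueField x :=
  (X.evaluation ⊤ x trivial).hom.comp E.str

/-- The linear form `c`. -/
noncomputable def l (E : EmbedData k X n) (c : Fin (n + 1) → k) : X.functionField :=
  ∑ j, E.kf (c j) * E.w j

end EmbedData

/-- What is used of an integral closed subscheme `X` of projective space. -/
structure Embed (k : Type) [Field k] (X : Scheme.{0}) [IsIntegral X] (n : ℕ) extends
    EmbedData k X n where
  empty : ∀ c, toEmbedData.l c = 0 → U c = ⊥
  affine : ∀ c, toEmbedData.l c ≠ 0 → IsAffineOpen (U c) ∧ genericPoint X ∈ U c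
  cover : ∀ x : X, ∃ j, x ∈ U (Pi.single j 1)
  sections : ∀ (c : Fin (n + 1) → k) (h : genericPoint X ∈ U c),
    Set.range (X.presheaf.germ (U c) (genericPoint X) h).hom =
      Subring.closure (Set.range toEmbedData.kf ∪ Set.range (fun j => w j / toEmbedData.l c))
  stalk : ∀ c d, ∀ x ∈ U d, ∃ a : X.presheaf.stalk x,
    algebraMap (X.presheaf.stalk x) X.functionField a * toEmbedData.l d = toEmbedData.l c ∧
    (IsUnit a ↔ x ∈ U c)
  val : ∀ (x : X) (V : ValuationSubring (X.residueField x)),
    (∀ a : k, toEmbedData.kres x a ∈ V) →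
    ∃ (y : X) (h : x ⤳ y), ∀ b : X.presheaf.stalk y, evalAt h b ∈ V

/-- `f` is a section of `O(j)`: `f / (l d)^j` is regular where `l d` does not vanish. -/
def Embed.IsSection {k : Type} [Field k] {X : Scheme.{0}} [IsIntegral X] {n : ℕ}
    (E : Embed k X n) (j : ℕ) (f : X.functionField) : Prop :=
  ∀ d, ∀ x ∈ E.U d, ∃ a : X.presheaf.stalk x,
    algebraMap (X.presheaf.stalk x) X.functionField a * E.l d ^ j = f

/-- All sections of `O(j)` are homogeneous polynomials in the coordinates. -/
def Embed.Normal {k : Type} [Field k] {X : Scheme.{0}} [IsIntegral X] {n : ℕ}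
    (E : Embed k X n) : Prop :=
  ∀ (j : ℕ) (f : X.functionField), E.IsSection j f →
    ∃ P : MvPolynomial (Fin (n + 1)) k, P.IsHomogeneous j ∧ MvPolynomial.eval₂ E.kf E.w P = f

/-- The pairs of functions with the same leading form. -/
def SameLead {k A : Type} [Field k] [CommRing A] [Algebra k A] (D : DegFun k A) (a b : A) :
    Prop := a = b ∨ D.deg (a - b) < D.deg a

/-- The integer `n` is the order at the point `z` of the unit `t` of the function field of the
curve `P` (`0` if `z` is not on `P`). -/
def IsOrdZ {k A : Type} [Field k] [CommRing A] [Algebra k A] (P : Curve1 A) (z : A →ₐ[k] k)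
    (t : (kap P)ˣ) (n : ℤ) : Prop :=
  ∃ c d : A, c ∉ P.ideal ∧ d ∉ P.ideal ∧ (t : kap P) * res P d = res P c ∧
    n = ((ordPt P.ideal z c).toNat : ℤ) - ((ordPt P.ideal z d).toNat : ℤ)

/-- The chain `ξ` on `Spec A` has divisor zero. -/
def IsCycleA (k : Type) {A : Type} [Field k] [CommRing A] [Algebra k A] (ξ : Chain1 A) : Prop :=
  ∀ z : A →ₐ[k] k, ∃ n : Curve1 A →₀ ℤ,
    (∀ P, IsOrdZ P z (Additive.toMul (ξ P)) (n P)) ∧ n.sum (fun _ m => m) = 0

end Pool.Agent.K1
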