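import Pool.Agent.K1.TOrd

/-!
The order at a point of a curve is the sum of the orders at the places over it.
-/

set_option autoImplicit false

namespace Pool.Agent.K1

section lengths

variable {O M : Type*} [CommRing O] [AddCommGroup M] [Module O M]

/-- Length of `O/(ker φ, c)` and of `M/cM`, when `M` is commensurable with the image of `φ`. -/
theorem tos_length (φ : O →ₗ[O] M) (c : O) (hinj : ∀ x : M, c • x = 0 → x = 0)
    (hfin : Module.length O (M ⧸ LinearMap.range φ) ≠ ⊤) :
    Module.length O (O ⧸ (LinearMap.ker φ ⊔ Submodule.span O {c})) =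
      Module.length O (M ⧸ LinearMap.range (LinearMap.lsmul O M c)) := by
  set N : Submodule O M := Submodule.map φ (Submodule.span O {c}) with hN
  have hNr : N ≤ LinearMap.range φ := LinearMap.map_le_range
  have hNc : N ≤ LinearMap.range (LinearMap.lsmul O M c) := by
    rw [hN, Submodule.map_span, Submodule.span_le]
    rintro x hx
    simp only [Set.image_singleton, Set.mem_singleton_iff] at hx
    subst hx
    refine ⟨φ 1, ?_⟩
    rw [LinearMap.lsmul_apply, ← map_smul, smul_eq_mul, mul_one]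
  -- first sequence
  have h1 : Module.length O (M ⧸ N) =
      Module.length O (O ⧸ (LinearMap.ker φ ⊔ Submodule.span O {c})) +
        Module.length O (M ⧸ LinearMap.range φ) := by
    have hle : LinearMap.ker φ ⊔ Submodule.span O {c} ≤ Submodule.comap φ N := by
      rw [sup_le_iff]
      constructor
      · intro x hx
        rw [Submodule.mem_comap, LinearMap.mem_ker.1 hx]
        exact N.zero_mem
      · exact Submodule.le_comap_map _ _
    refine Module.length_eq_add_of_exact (Submodule.mapQ _ _ φ hle)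
      (Submodule.mapQ N (LinearMap.range φ) LinearMap.id hNr) ?_ ?_ ?_
    · rw [← LinearMap.ker_eq_bot, LinearMap.ker_eq_bot']
      rintro ⟨x⟩ hx
      have h2 : φ x ∈ N := (Submodule.Quotient.mk_eq_zero _).1 hx
      obtain ⟨y, hy, hyx⟩ := h2
      refine (Submodule.Quotient.mk_eq_zero _).2 ?_
      rw [show x = (x - y) + y by abel]
      refine Submodule.add_mem_sup ?_ hy
      rw [LinearMap.mem_ker, map_sub, hyx, sub_self]
    · rintro ⟨x⟩
      exact ⟨Submodule.Quotient.mk x, rfl⟩
    · rintro ⟨x⟩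
      constructor
      · intro hx
        obtain ⟨y, hy⟩ := (Submodule.Quotient.mk_eq_zero _).1 hx
        refine ⟨Submodule.Quotient.mk y, ?_⟩
        change (Submodule.Quotient.mk (φ y) : M ⧸ N) = Submodule.Quotient.mk x
        rw [hy]; rfl
      · rintro ⟨⟨y⟩, hy⟩
        have h2 : (Submodule.Quotient.mk (φ y) : M ⧸ N) = Submodule.Quotient.mk x := hy
        change Submodule.mapQ N (LinearMap.range φ) LinearMap.id hNr (Submodule.Quotient.mk x) = 0
        rw [← h2]
        exact (Submodule.Quotient.mk_eq_zero _).2 ⟨y, rfl⟩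
  -- second sequence
  have h2 : Module.length O (M ⧸ N) =
      Module.length O (M ⧸ LinearMap.range φ) +
        Module.length O (M ⧸ LinearMap.range (LinearMap.lsmul O M c)) := by
    have hle : LinearMap.range φ ≤ Submodule.comap (LinearMap.lsmul O M c) N := by
      rintro _ ⟨x, rfl⟩
      refine ⟨c • x, ?_, ?_⟩
      · exact Submodule.mem_span_singleton.2 ⟨x, by rw [smul_eq_mul, smul_eq_mul, mul_comm]⟩
      · rw [map_smul]; rfl
    refine Module.length_eq_add_of_exact (Submodule.mapQ _ _ (LinearMap.lsmul O M c) hle)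
      (Submodule.mapQ N (LinearMap.range (LinearMap.lsmul O M c)) LinearMap.id hNc) ?_ ?_ ?_
    · rw [← LinearMap.ker_eq_bot, LinearMap.ker_eq_bot']
      rintro ⟨x⟩ hx
      have h3 : c • x ∈ N := (Submodule.Quotient.mk_eq_zero _).1 hx
      obtain ⟨y, hy, hyx⟩ := h3
      obtain ⟨a, rfl⟩ := Submodule.mem_span_singleton.1 hy
      refine (Submodule.Quotient.mk_eq_zero _).2 ⟨a, ?_⟩
      have h4 : c • (φ a - x) = 0 := by
        rw [smul_sub, ← hyx, ← map_smul, smul_eq_mul, smul_eq_mul, mul_comm, sub_self]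
      exact sub_eq_zero.1 (hinj _ h4)
    · rintro ⟨x⟩
      exact ⟨Submodule.Quotient.mk x, rfl⟩
    · rintro ⟨x⟩
      constructor
      · intro hx
        obtain ⟨y, hy⟩ := (Submodule.Quotient.mk_eq_zero _).1 hx
        refine ⟨Submodule.Quotient.mk y, ?_⟩
        change (Submodule.Quotient.mk (c • y) : M ⧸ N) = Submodule.Quotient.mk x
        rw [← LinearMap.lsmul_apply, hy]; rfl
      · rintro ⟨⟨y⟩, hy⟩
        have h3 : (Submodule.Quotient.mk (c • y) : M ⧸ N) = Submodule.Quotient.mk x := hy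
        change Submodule.mapQ N (LinearMap.range (LinearMap.lsmul O M c)) LinearMap.id hNc
          (Submodule.Quotient.mk x) = 0
        rw [← h3]
        exact (Submodule.Quotient.mk_eq_zero _).2 ⟨y, rfl⟩
  have h3 : Module.length O (M ⧸ LinearMap.range (LinearMap.lsmul O M c)) +
        Module.length O (M ⧸ LinearMap.range φ) =
      Module.length O (O ⧸ (LinearMap.ker φ ⊔ Submodule.span O {c})) +
        Module.length O (M ⧸ LinearMap.range φ) := by
    rw [← h1, h2, add_comm]
  exact ((ENat.add_left_injective_of_ne_top hfin) h3).symm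

end lengths

section pid

variable {O E : Type*} [CommRing O] [CommRing E] [Algebra O E]

/-- The length over `O` of `E/xE`. -/
noncomputable def tosL (O : Type*) {E : Type*} [CommRing O] [CommRing E] [Algebra O E]
    (x : E) : ℕ∞ :=
  Module.length O (E ⧸ LinearMap.range (LinearMap.mulLeft O x))

theorem tosL_mul [IsDomain E] {x : E} (hx : x ≠ 0) (y : E) : tosL O (x * y) = tosL O x + tosL O y := by
  have hle : LinearMap.range (LinearMap.mulLeft O y) ≤
      Submodule.comap (LinearMap.mulLeft O x) (LinearMap.range (LinearMap.mulLeft O (x * y))) := by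
    rintro _ ⟨e, rfl⟩
    exact ⟨e, by simp [mul_assoc]⟩
  have hle2 : LinearMap.range (LinearMap.mulLeft O (x * y)) ≤
      LinearMap.range (LinearMap.mulLeft O x) := by
    rintro _ ⟨e, rfl⟩
    exact ⟨y * e, by simp [mul_assoc]⟩
  unfold tosL
  rw [add_comm]
  refine Module.length_eq_add_of_exact (Submodule.mapQ _ _ (LinearMap.mulLeft O x) hle)
    (Submodule.mapQ _ _ LinearMap.id hle2) ?_ ?_ ?_
  · rw [← LinearMap.ker_eq_bot, LinearMap.ker_eq_bot']
    rintro ⟨e⟩ he
    obtain ⟨f, hf⟩ := (Submodule.Quotient.mk_eq_zero _).1 he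
    refine (Submodule.Quotient.mk_eq_zero _).2 ⟨f, ?_⟩
    have h1 : x * (y * f) = x * e := by
      rw [← mul_assoc]; exact hf
    exact mul_left_cancel₀ hx h1
  · rintro ⟨e⟩
    exact ⟨Submodule.Quotient.mk e, rfl⟩
  · rintro ⟨e⟩
    constructor
    · intro he
      obtain ⟨f, hf⟩ := (Submodule.Quotient.mk_eq_zero _).1 he
      refine ⟨Submodule.Quotient.mk f, ?_⟩
      change (Submodule.Quotient.mk (x * f) : E ⧸ _) = Submodule.Quotient.mk e
      rw [show x * f = e from hf]
    · rintro ⟨⟨f⟩, hf⟩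
      have h3 : (Submodule.Quotient.mk (x * f) : E ⧸ LinearMap.range (LinearMap.mulLeft O (x * y)))
        = Submodule.Quotient.mk e := hf
      change Submodule.mapQ _ _ LinearMap.id hle2 (Submodule.Quotient.mk e) = 0
      rw [← h3]
      exact (Submodule.Quotient.mk_eq_zero _).2 ⟨f, rfl⟩

theorem tosL_unit {x : E} (hx : IsUnit x) : tosL O x = 0 := by
  unfold tosL
  rw [Module.length_eq_zero_iff, Submodule.Quotient.subsingleton_iff]
  obtain ⟨u, rfl⟩ := hx
  rw [eq_top_iff]
  rintro e -
  exact ⟨(u⁻¹ : Eˣ) * e, by simp⟩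

end pid

section vals

variable {E : Type*} {F : Type} [CommRing E] [IsDomain E] [IsPrincipalIdealRing E] [Field F]
  [Algebra E F]

/-- fractions as powers of the prime `π` times units at `π` -/
theorem tos_rep [IsFractionRing E F] {π : E} (hπ : Prime π) (t : F) (ht : t ≠ 0) :
    ∃ (n : ℤ) (a b : E), ¬ π ∣ a ∧ ¬ π ∣ b ∧
      t = (algebraMap E F π) ^ n * (algebraMap E F a / algebraMap E F b) := by
  obtain ⟨x, y, hy, rfl⟩ := IsFractionRing.div_surjective (A := E) t
  have hy0 : y ≠ 0 := nonZeroDivisors.ne_zero hy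
  have hinj := IsFractionRing.injective E F
  have hx0 : x ≠ 0 := by
    rintro rfl
    simp at ht
  obtain ⟨i, a, ha, rfl⟩ := WfDvdMonoid.max_power_factor hx0 hπ.irreducible
  obtain ⟨j, b, hb, rfl⟩ := WfDvdMonoid.max_power_factor hy0 hπ.irreducible
  have h0 : algebraMap E F π ≠ 0 := by
    rw [Ne, map_eq_zero_iff _ hinj]
    exact hπ.ne_zero
  refine ⟨(i : ℤ) - j, a, b, ha, hb, ?_⟩
  rw [zpow_sub₀ h0, zpow_natCast, zpow_natCast, map_mul, map_mul, map_pow, map_pow,
    mul_div_mul_comm]

theorem tos_mul_nonunits {v : ValuationSubring F} {x y : F} (hx : x ∈ v.nonunits) (hy : y ∈ v) :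
    x * y ∈ v.nonunits := by
  rw [ValuationSubring.mem_nonunits_iff] at hx ⊢
  rw [map_mul]
  have h1 : v.valuation y ≤ 1 := (v.valuation_le_one_iff y).2 hy
  exact mul_lt_one_of_lt_of_le hx h1

theorem tos_one_not {v : ValuationSubring F} : (1 : F) ∉ v.nonunits := by
  rw [ValuationSubring.mem_nonunits_iff, map_one]
  exact lt_irrefl 1

theorem tos_nonunits_mem {v : ValuationSubring F} {x : F} (hx : x ∈ v.nonunits) : x ∈ v :=
  ValuationSubring.nonunits_subset hx

/-- either an element or its inverse -/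
theorem tos_cases (v : ValuationSubring F) {x : F} (hx : x ∈ v) (hn : x ∉ v.nonunits) :
    x ≠ 0 ∧ x⁻¹ ∈ v := by
  have h0 : x ≠ 0 := by
    rintro rfl
    apply hn
    rw [ValuationSubring.mem_nonunits_iff, map_zero]
    exact zero_lt_one
  refine ⟨h0, ?_⟩
  rw [ValuationSubring.mem_nonunits_iff, not_lt] at hn
  rw [← ValuationSubring.valuation_le_one_iff, map_inv₀]
  exact inv_le_one_of_one_le₀ hn

theorem tos_unitIn {v : ValuationSubring F} (hE : ∀ e, algebraMap E F e ∈ v) {π : E}
    (hπ : Prime π) (hn : algebraMap E F π ∈ v.nonunits) {a : E} (ha : ¬ π ∣ a) :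
    algebraMap E F a ≠ 0 ∧ (algebraMap E F a)⁻¹ ∈ v := by
  refine tos_cases v (hE a) ?_
  intro h
  have hcop : IsCoprime π a := (hπ.irreducible.coprime_iff_not_dvd).2 ha
  obtain ⟨r, s, hrs⟩ := hcop
  apply tos_one_not (v := v)
  have h1 : (1 : F) = algebraMap E F π * algebraMap E F r + algebraMap E F a * algebraMap E F s := by
    rw [← map_mul, ← map_mul, ← map_add, ← map_one (algebraMap E F), ← hrs]
    ring_nf
  rw [h1, ValuationSubring.mem_nonunits_iff]
  refine lt_of_le_of_lt (v.valuation.map_add _ _) (max_lt ?_ ?_)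
  · rw [← ValuationSubring.mem_nonunits_iff]
    exact tos_mul_nonunits hn (hE r)
  · rw [← ValuationSubring.mem_nonunits_iff]
    exact tos_mul_nonunits h (hE s)

theorem tos_mem_iff [IsFractionRing E F] {v : ValuationSubring F} (hE : ∀ e, algebraMap E F e ∈ v) {π : E}
    (hπ : Prime π) (hn : algebraMap E F π ∈ v.nonunits) (n : ℤ) {a b : E} (ha : ¬ π ∣ a)
    (hb : ¬ π ∣ b) :
    (algebraMap E F π) ^ n * (algebraMap E F a / algebraMap E F b) ∈ v ↔ 0 ≤ n := by
  obtain ⟨ha0, hai⟩ := tos_unitIn hE hπ hn ha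
  obtain ⟨hb0, hbi⟩ := tos_unitIn hE hπ hn hb
  have hinj := IsFractionRing.injective E F
  have h0 : algebraMap E F π ≠ 0 := by
    rw [Ne, map_eq_zero_iff _ hinj]
    exact hπ.ne_zero
  constructor
  · intro h
    by_contra hneg
    push Not at hneg
    obtain ⟨m, hm⟩ := Int.exists_eq_neg_ofNat hneg.le
    have hm1 : m ≠ 0 := by
      rintro rfl
      simp at hm
      omega
    obtain ⟨l, rfl⟩ := Nat.exists_eq_succ_of_ne_zero hm1
    -- multiply by `b/a * π^l`
    have h1 : (algebraMap E F π) ^ n * (algebraMap E F a / algebraMap E F b) *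
        ((algebraMap E F a)⁻¹ * algebraMap E F b * (algebraMap E F π) ^ l) ∈ v :=
      v.mul_mem _ _ h (v.mul_mem _ _ (v.mul_mem _ _ hai (hE b)) (pow_mem (hE π) l))
    have h2 : (algebraMap E F π) ^ n * (algebraMap E F a / algebraMap E F b) *
        ((algebraMap E F a)⁻¹ * algebraMap E F b * (algebraMap E F π) ^ l) =
        (algebraMap E F π)⁻¹ := by
      rw [hm, zpow_neg, zpow_natCast, pow_succ]
      field_simp
    rw [h2] at h1
    apply tos_one_not (v := v)
    rw [← mul_inv_cancel₀ h0]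
    exact tos_mul_nonunits hn h1
  · intro h
    obtain ⟨m, rfl⟩ := Int.eq_ofNat_of_zero_le h
    rw [zpow_natCast, div_eq_mul_inv]
    exact v.mul_mem _ _ (pow_mem (hE π) m) (v.mul_mem _ _ (hE a) hbi)

theorem tos_isUnifV [IsFractionRing E F] {v : ValuationSubring F} (hE : ∀ e, algebraMap E F e ∈ v) {π : E}
    (hπ : Prime π) (hn : algebraMap E F π ∈ v.nonunits) : IsUnifV v (algebraMap E F π) := by
  have hinj := IsFractionRing.injective E F
  have h0 : algebraMap E F π ≠ 0 := by
    rw [Ne, map_eq_zero_iff _ hinj]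
    exact hπ.ne_zero
  refine ⟨h0, fun x => ⟨fun hx => ?_, ?_⟩⟩
  · by_cases hx0 : x = 0
    · exact ⟨0, v.zero_mem, by rw [hx0, mul_zero]⟩
    obtain ⟨n, a, b, ha, hb, rfl⟩ := tos_rep (F := F) hπ x hx0
    have h1 := (tos_mem_iff hE hπ hn n ha hb).1 (tos_nonunits_mem hx)
    have h2 : n ≠ 0 := by
      rintro rfl
      rw [zpow_zero, one_mul] at hx
      obtain ⟨ha0, hai⟩ := tos_unitIn hE hπ hn ha
      obtain ⟨hb0, hbi⟩ := tos_unitIn hE hπ hn hb
      apply tos_one_not (v := v)
      have h3 : (1 : F) = (algebraMap E F a / algebraMap E F b) *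
          ((algebraMap E F a)⁻¹ * algebraMap E F b) := by field_simp
      rw [h3]
      exact tos_mul_nonunits hx (v.mul_mem _ _ hai (hE b))
    refine ⟨(algebraMap E F π) ^ (n - 1) * (algebraMap E F a / algebraMap E F b),
      (tos_mem_iff hE hπ hn (n - 1) ha hb).2 (by omega), ?_⟩
    rw [zpow_sub_one₀ h0]
    field_simp
  · rintro ⟨c, hc, rfl⟩
    exact tos_mul_nonunits hn hc

theorem tos_isDiscV [IsFractionRing E F] {v : ValuationSubring F} (hE : ∀ e, algebraMap E F e ∈ v) {π : E}
    (hπ : Prime π) (hn : algebraMap E F π ∈ v.nonunits) : IsDiscV v := by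
  refine ⟨algebraMap E F π, tos_isUnifV hE hπ hn, fun t ht => ?_⟩
  obtain ⟨n, a, b, ha, hb, rfl⟩ := tos_rep (F := F) hπ t ht
  obtain ⟨ha0, hai⟩ := tos_unitIn hE hπ hn ha
  obtain ⟨hb0, hbi⟩ := tos_unitIn hE hπ hn hb
  refine ⟨n, Units.mk0 _ (div_ne_zero ha0 hb0), ⟨?_, ?_⟩, rfl⟩
  · rw [Units.val_mk0, div_eq_mul_inv]
    exact v.mul_mem _ _ (hE a) hbi
  · rw [Units.val_inv_eq_inv_val, Units.val_mk0, inv_div, div_eq_mul_inv]
    exact v.mul_mem _ _ (hE b) hai

theorem tos_unique [IsFractionRing E F] {v v' : ValuationSubring F} (hE : ∀ e, algebraMap E F e ∈ v) {π : E}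
    (hπ : Prime π) (hn : algebraMap E F π ∈ v.nonunits) (hE' : ∀ e, algebraMap E F e ∈ v')
    (hn' : algebraMap E F π ∈ v'.nonunits) : v = v' := by
  ext x
  by_cases hx0 : x = 0
  · rw [hx0]; exact ⟨fun _ => v'.zero_mem, fun _ => v.zero_mem⟩
  obtain ⟨n, a, b, ha, hb, rfl⟩ := tos_rep (F := F) hπ x hx0
  rw [tos_mem_iff hE hπ hn n ha hb, tos_mem_iff hE' hπ hn' n ha hb]

theorem tos_ne_top {v : ValuationSubring F} {π : F} (h0 : π ≠ 0) (hn : π ∈ v.nonunits) :
    v ≠ ⊤ := by
  rintro rfl
  apply tos_one_not (v := (⊤ : ValuationSubring F))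
  rw [← mul_inv_cancel₀ h0]
  exact tos_mul_nonunits hn (by trivial)

/-- every prime has a valuation ring -/
theorem tos_exists [IsFractionRing E F] {π : E} (hπ : Prime π) : ∃ v : ValuationSubring F,
    (∀ e, algebraMap E F e ∈ v) ∧ algebraMap E F π ∈ v.nonunits := by
  let P : IsDedekindDomain.HeightOneSpectrum E :=
    ⟨Ideal.span {π}, (Ideal.span_singleton_prime hπ.ne_zero).2 hπ, by
      rw [Ne, Ideal.span_singleton_eq_bot]; exact hπ.ne_zero⟩
  refine ⟨(P.valuation F).valuationSubring, fun e => ?_, ?_⟩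
  · rw [Valuation.mem_valuationSubring_iff]
    exact P.valuation_le_one e
  · rw [ValuationSubring.mem_nonunits_iff]
    have h1 := (P.valuation F).isEquiv_valuation_valuationSubring
    rw [← h1.lt_one_iff_lt_one]
    exact (P.valuation_lt_one_iff_mem π).2 (Ideal.mem_span_singleton_self π)

/-- the centre -/
theorem tos_centre [IsFractionRing E F] {v : ValuationSubring F} (hv : v ≠ ⊤) (hE : ∀ e, algebraMap E F e ∈ v) :
    ∃ π : E, Prime π ∧ algebraMap E F π ∈ v.nonunits := by
  by_contra hcon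
  push Not at hcon
  -- all nonzero elements are units in `v`
  have h1 : ∀ e : E, e ≠ 0 → algebraMap E F e ≠ 0 ∧ (algebraMap E F e)⁻¹ ∈ v := by
    intro e he
    induction e using UniqueFactorizationMonoid.induction_on_prime with
    | h₁ => exact absurd rfl he
    | h₂ x hx =>
      obtain ⟨u, rfl⟩ := hx
      refine ⟨(u.isUnit.map (algebraMap E F)).ne_zero, ?_⟩
      have : (algebraMap E F (u : E))⁻¹ = algebraMap E F ((u⁻¹ : Eˣ) : E) :=
        (map_units_inv (algebraMap E F) u).symm
      rw [this]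
      exact hE _
    | h₃ a p ha hp ih =>
      obtain ⟨h2, h3⟩ := ih ha
      obtain ⟨h4, h5⟩ := tos_cases v (hE p) (hcon p hp)
      rw [map_mul, mul_inv]
      exact ⟨mul_ne_zero h4 h2, v.mul_mem _ _ h5 h3⟩
  apply hv
  rw [eq_top_iff]
  rintro x -
  obtain ⟨a, b, hb, rfl⟩ := IsFractionRing.div_surjective (A := E) x
  rw [div_eq_mul_inv]
  exact v.mul_mem _ _ (hE a) (h1 b (nonZeroDivisors.ne_zero hb)).2

theorem tos_finite [IsFractionRing E F] (h : {I : Ideal E | I.IsPrime}.Finite) :
    {v : ValuationSubring F | v ≠ ⊤ ∧ ∀ e : E, algebraMap E F e ∈ v}.Finite := by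
  classical
  let f : ValuationSubring F → Ideal E := fun v =>
    if h : ∃ π : E, Prime π ∧ algebraMap E F π ∈ v.nonunits then Ideal.span {h.choose} else ⊤
  refine Set.Finite.of_finite_image (f := f) (h.subset ?_) ?_
  · rintro _ ⟨v, ⟨hv, hE⟩, rfl⟩
    have h1 := tos_centre hv hE
    change (f v).IsPrime
    simp only [f, dif_pos h1]
    exact (Ideal.span_singleton_prime h1.choose_spec.1.ne_zero).2 h1.choose_spec.1
  · rintro v ⟨hv, hE⟩ v' ⟨hv', hE'⟩ hff
    have h1 := tos_centre hv hE
    have h2 := tos_centre hv' hE'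
    simp only [f, dif_pos h1, dif_pos h2] at hff
    have h3 : h2.choose ∣ h1.choose := by
      rw [← Ideal.mem_span_singleton, ← hff]
      exact Ideal.mem_span_singleton_self _
    obtain ⟨r, hr⟩ := h3
    refine tos_unique hE h2.choose_spec.1 ?_ hE' h2.choose_spec.2
    have h4 : h1.choose ∣ h2.choose := by
      rw [← Ideal.mem_span_singleton, hff]
      exact Ideal.mem_span_singleton_self _
    obtain ⟨r', hr'⟩ := h4
    rw [hr', map_mul]
    exact tos_mul_nonunits h1.choose_spec.2 (hE r')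

theorem tos_ordV_prime [IsFractionRing E F] {π : E} (hπ : Prime π) :
    ∑ᶠ v ∈ {v : ValuationSubring F | v ≠ ⊤ ∧ ∀ e : E, algebraMap E F e ∈ v},
      ordV v (algebraMap E F π) = 1 := by
  obtain ⟨v, hE, hn⟩ := tos_exists (F := F) hπ
  have hinj := IsFractionRing.injective E F
  have h0 : algebraMap E F π ≠ 0 := by
    rw [Ne, map_eq_zero_iff _ hinj]
    exact hπ.ne_zero
  have hv : v ≠ ⊤ := tos_ne_top h0 hn
  have h1 : ordV v (algebraMap E F π) = 1 := by
    have h2 := ordV_eq (n := 1) (tos_isUnifV hE hπ hn) (u := (1 : Fˣ))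
      ⟨by simp, by simp⟩
    simpa using h2
  rw [finsum_mem_inter_support_eq' (fun v => ordV v (algebraMap E F π)) _ {v} ?_,
    finsum_mem_singleton, h1]
  intro v' hv'
  rw [Function.mem_support] at hv'
  constructor
  · rintro ⟨hv'1, hE'⟩
    rw [Set.mem_singleton_iff]
    refine tos_unique hE' hπ ?_ hE hn
    by_contra hcon
    apply hv'
    obtain ⟨π', hπ', hn'⟩ := tos_centre hv'1 hE'
    obtain ⟨h3, h4⟩ := tos_cases v' (hE' π) hcon
    have h2 := ordV_eq (n := 0) (tos_isUnifV hE' hπ' hn') (u := Units.mk0 _ h3)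
      ⟨by rw [Units.val_mk0]; exact hE' π, by
        rw [Units.val_inv_eq_inv_val, Units.val_mk0]; exact h4⟩
    simpa using h2
  · intro h2
    rw [Set.mem_singleton_iff] at h2
    rw [h2]
    exact ⟨hv, hE⟩

theorem tos_main [IsFractionRing E F] {O : Type*} [CommRing O] [Algebra O E]
    (h : {I : Ideal E | I.IsPrime}.Finite) (hL : ∀ π : E, Prime π → tosL O π = 1) (x : E)
    (hx : x ≠ 0) :
    tosL O x ≠ ⊤ ∧ ((tosL O x).toNat : ℤ) =
      ∑ᶠ v ∈ {v : ValuationSubring F | v ≠ ⊤ ∧ ∀ e : E, algebraMap E F e ∈ v},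
        ordV v (algebraMap E F x) := by
  have hfin := tos_finite (F := F) h
  have hinj := IsFractionRing.injective E F
  induction x using UniqueFactorizationMonoid.induction_on_prime with
  | h₁ => exact absurd rfl hx
  | h₂ x hu =>
    rw [tosL_unit hu]
    refine ⟨by simp, ?_⟩
    rw [finsum_mem_congr rfl (g := fun _ => (0 : ℤ))]
    · simp
    · rintro v ⟨hv, hE⟩
      obtain ⟨π, hπ, hn⟩ := tos_centre hv hE
      obtain ⟨u, rfl⟩ := hu
      have h2 := ordV_eq (n := 0) (tos_isUnifV hE hπ hn)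
        (u := Units.map (algebraMap E F).toMonoidHom u) ⟨hE _, by
          rw [← map_inv]; exact hE _⟩
      simpa using h2
  | h₃ a p ha hp ih =>
    obtain ⟨h1, h2⟩ := ih ha
    rw [tosL_mul hp.ne_zero, hL p hp]
    refine ⟨by simp [h1], ?_⟩
    rw [ENat.toNat_add (by simp) h1, Nat.cast_add, h2, ENat.toNat_one, Nat.cast_one,
      ← tos_ordV_prime (F := F) hp, ← finsum_mem_add_distrib hfin]
    refine finsum_mem_congr rfl ?_
    rintro v ⟨hv, hE⟩
    obtain ⟨π, hπ, hn⟩ := tos_centre hv hE
    rw [map_mul, ordV_mul (tos_isDiscV hE hπ hn)]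
    · rw [Ne, map_eq_zero_iff _ hinj]; exact hp.ne_zero
    · rw [Ne, map_eq_zero_iff _ hinj]; exact ha

end vals

section core

variable {k A : Type*} [Field k] [CommRing A] [Algebra k A]

/-- the residue map at the point `z` -/
theorem tos_exists_sigma (z : A →ₐ[k] k) : ∃ σ : LocAt z →+* k,
    (∀ a, σ (algebraMap A (LocAt z) a) = z a) ∧
      ∀ o, σ o = 0 ↔ o ∈ IsLocalRing.maximalIdeal (LocAt z) := by
  have hu : ∀ y : (RingHom.ker z).primeCompl, IsUnit (z.toRingHom y) := fun y =>
    IsUnit.mk0 _ y.2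
  refine ⟨IsLocalization.lift (M := (RingHom.ker z).primeCompl) hu, fun a =>
    IsLocalization.lift_eq hu a, fun o => ?_⟩
  have hsurj : Function.Surjective
      (IsLocalization.lift (S := LocAt z) (M := (RingHom.ker z).primeCompl) hu) := by
    intro c
    refine ⟨algebraMap A (LocAt z) (algebraMap k A c), ?_⟩
    rw [IsLocalization.lift_eq]
    exact z.commutes c
  have hmax : (RingHom.ker
      (IsLocalization.lift (S := LocAt z) (M := (RingHom.ker z).primeCompl) hu)).IsMaximal :=
    RingHom.ker_isMaximal_of_surjective _ hsurj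
  rw [← IsLocalRing.eq_maximalIdeal hmax, RingHom.mem_ker]

variable {E : Type*} [CommRing E] [IsDedekindDomain E] (z : A →ₐ[k] k)
  [Algebra (LocAt z) E] [Module.Finite (LocAt z) E]

theorem tos_comap {I : Ideal E} (hI : I.IsPrime) (h0 : I ≠ ⊥) :
    I.comap (algebraMap (LocAt z) E) = IsLocalRing.maximalIdeal (LocAt z) := by
  have : I.IsMaximal := hI.isMaximal h0
  exact IsLocalRing.eq_maximalIdeal (Ideal.isMaximal_comap_of_isIntegral_of_isMaximal I)

include z in
theorem tos_primes_finite : {I : Ideal E | I.IsPrime}.Finite := by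
  by_cases h : ∀ I : Ideal E, I.IsPrime → I = ⊥
  · exact (Set.finite_singleton ⊥).subset (fun I hI => h I hI)
  push Not at h
  obtain ⟨I₀, hI₀, hne⟩ := h
  obtain ⟨x, hx, hx0⟩ := Submodule.exists_mem_ne_zero_of_ne_bot hne
  have h1 : (⊥ : Ideal E).comap (algebraMap (LocAt z) E) < I₀.comap (algebraMap (LocAt z) E) :=
    Ideal.comap_lt_comap_of_integral_mem_sdiff bot_le ⟨hx, hx0⟩
      (Algebra.IsIntegral.isIntegral x)
  obtain ⟨o, ho, ho'⟩ := SetLike.exists_of_lt h1
  rw [tos_comap z hI₀ hne] at ho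
  have he0 : algebraMap (LocAt z) E o ≠ 0 := ho'
  have h2 := Ideal.finite_factors (I := Ideal.span {algebraMap (LocAt z) E o})
    (by rw [Ne, Submodule.zero_eq_bot, Ideal.span_singleton_eq_bot]; exact he0)
  refine ((h2.image (fun v => v.asIdeal)).union (Set.finite_singleton ⊥)).subset ?_
  intro I hI
  by_cases hI0 : I = ⊥
  · exact Or.inr hI0
  · left
    refine ⟨⟨I, hI, hI0⟩, ?_, rfl⟩
    change I ∣ _
    rw [Ideal.dvd_iff_le, Ideal.span_singleton_le_iff_mem]
    change o ∈ I.comap (algebraMap (LocAt z) E)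
    rw [tos_comap z hI hI0]
    exact ho

variable [Algebra A E] [IsScalarTower A (LocAt z) E]

include z in
theorem tos_quot [IsAlgClosed k] {I : Ideal E} (hI : I.IsPrime) (h0 : I ≠ ⊥) (e : E) :
    ∃ c : k, e - algebraMap A E (algebraMap k A c) ∈ I := by
  obtain ⟨σ, hσ, hker⟩ := tos_exists_sigma z
  let ψ : k →+* E ⧸ I := (Ideal.Quotient.mk I).comp ((algebraMap A E).comp (algebraMap k A))
  let θ : LocAt z →+* E ⧸ I := (Ideal.Quotient.mk I).comp (algebraMap (LocAt z) E)
  have hθ : θ.IsIntegral := by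
    apply RingHom.IsIntegral.trans
    · exact (algebraMap_isIntegral_iff.2 inferInstance)
    · exact RingHom.isIntegral_of_surjective _ Ideal.Quotient.mk_surjective
  have hθψ : θ = ψ.comp σ := by
    apply IsLocalization.ringHom_ext (RingHom.ker z).primeCompl
    ext a
    change (Ideal.Quotient.mk I) (algebraMap (LocAt z) E (algebraMap A (LocAt z) a)) =
      (Ideal.Quotient.mk I) (algebraMap A E (algebraMap k A (σ (algebraMap A (LocAt z) a))))
    rw [hσ, Ideal.Quotient.eq, ← IsScalarTower.algebraMap_apply, ← map_sub,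
      IsScalarTower.algebraMap_apply A (LocAt z) E]
    change algebraMap A (LocAt z) _ ∈ I.comap (algebraMap (LocAt z) E)
    rw [tos_comap z hI h0, ← hker, hσ, map_sub, AlgHom.commutes]
    exact sub_self _
  have hψ : ψ.IsIntegral := by
    intro x
    obtain ⟨p, hp, hpx⟩ := hθ x
    refine ⟨p.map σ, hp.map σ, ?_⟩
    rw [Polynomial.eval₂_map, ← hθψ]
    exact hpx
  have := hI
  obtain ⟨c, hc⟩ := (IsAlgClosed.ringHom_bijective_of_isIntegral ψ hψ).2 (Ideal.Quotient.mk I e)
  refine ⟨c, ?_⟩
  rw [← Ideal.Quotient.eq, ← hc]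
  rfl

theorem tos_L_prime [IsAlgClosed k] {π : E} (hπ : Prime π) : tosL (LocAt z) π = 1 := by
  have hI : (Ideal.span {π}).IsPrime := (Ideal.span_singleton_prime hπ.ne_zero).2 hπ
  have h0 : Ideal.span {π} ≠ ⊥ := by
    rw [Ne, Ideal.span_singleton_eq_bot]; exact hπ.ne_zero
  let R := LinearMap.range (LinearMap.mulLeft (LocAt z) π)
  let Φ : LocAt z →ₗ[LocAt z] E ⧸ R := R.mkQ.comp (Algebra.linearMap (LocAt z) E)
  have hmem : ∀ e : E, e ∈ R ↔ e ∈ Ideal.span {π} := by
    intro e
    rw [Ideal.mem_span_singleton]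
    constructor
    · rintro ⟨f, rfl⟩
      exact ⟨f, rfl⟩
    · rintro ⟨f, rfl⟩
      exact ⟨f, rfl⟩
  have hΦ : Function.Surjective Φ := by
    rintro ⟨e⟩
    obtain ⟨c, hc⟩ := tos_quot z hI h0 e
    refine ⟨algebraMap A (LocAt z) (algebraMap k A c), ?_⟩
    change (Submodule.Quotient.mk (algebraMap (LocAt z) E (algebraMap A (LocAt z)
      (algebraMap k A c))) : E ⧸ R) = Submodule.Quotient.mk e
    rw [← IsScalarTower.algebraMap_apply, eq_comm, Submodule.Quotient.eq, hmem]
    exact hc
  have hker : LinearMap.ker Φ = IsLocalRing.maximalIdeal (LocAt z) := by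
    rw [← tos_comap z hI h0]
    ext o
    rw [LinearMap.mem_ker, Ideal.mem_comap, ← hmem]
    exact Submodule.Quotient.mk_eq_zero _
  unfold tosL
  rw [← (Φ.quotKerEquivOfSurjective hΦ).length_eq, hker, Module.length_eq_one_iff,
    isSimpleModule_iff_isCoatom]
  exact (IsLocalRing.maximalIdeal.isMaximal (LocAt z)).out

theorem tos_core [IsAlgClosed k] {F : Type} [Field F] [Algebra E F] [IsFractionRing E F]
    (ρ : A →+* F) (hρE : ∀ a, algebraMap E F (algebraMap A E a) = ρ a)
    (hP : RingHom.ker ρ ≤ RingHom.ker z)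
    (x₀ : E) (hx₀ : x₀ ≠ 0) (hx₀r : ∀ e, ∃ o : LocAt z, x₀ * e = algebraMap (LocAt z) E o)
    (c : A) (hc : ρ c ≠ 0) :
    ((ordPt (RingHom.ker ρ) z c).toNat : ℤ) =
      ∑ᶠ v ∈ {v : ValuationSubring F | v ≠ ⊤ ∧ ∀ e : E, algebraMap E F e ∈ v}, ordV v (ρ c) := by
  have hfin := tos_primes_finite (E := E) z
  have : IsPrincipalIdealRing E := IsPrincipalIdealRing.of_finite_primes hfin
  have hinj := IsFractionRing.injective E F
  have hc0 : algebraMap A E c ≠ 0 := by
    intro h
    apply hc
    rw [← hρE, h, map_zero]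
  obtain ⟨h1, h2⟩ := tos_main (F := F) (O := LocAt z) hfin (fun π hπ => tos_L_prime z hπ)
    (algebraMap A E c) hc0
  obtain ⟨h3, -⟩ := tos_main (F := F) (O := LocAt z) hfin (fun π hπ => tos_L_prime z hπ) x₀ hx₀
  rw [hρE] at h2
  rw [← h2]
  congr 2
  unfold ordPt lenP tosL
  have h4 := tos_length (Algebra.linearMap (LocAt z) E) (algebraMap A (LocAt z) c) ?_ ?_
  · have h5 : LinearMap.ker (Algebra.linearMap (LocAt z) E) =
        (RingHom.ker ρ).map (algebraMap A (LocAt z)) := by
      ext o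
      rw [loc_mem_map_iff, LinearMap.mem_ker, Algebra.linearMap_apply]
      constructor
      · intro ho
        obtain ⟨⟨a, s⟩, has⟩ := IsLocalization.surj (RingHom.ker z).primeCompl o
        refine ⟨a, s, ?_, has⟩
        rw [RingHom.mem_ker, ← hρE, IsScalarTower.algebraMap_apply A (LocAt z) E, ← has, map_mul,
          ho, zero_mul, map_zero]
      · rintro ⟨a, s, ha, has⟩
        have h6 := congrArg (algebraMap (LocAt z) E) has
        rw [map_mul, ← IsScalarTower.algebraMap_apply, ← IsScalarTower.algebraMap_apply] at h6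
        have h7 : algebraMap A E a = 0 := by
          apply hinj
          rw [hρE, map_zero]; exact ha
        rw [h7] at h6
        refine (mul_eq_zero.1 h6).resolve_right ?_
        intro h8
        apply s.2
        apply hP
        rw [RingHom.mem_ker, ← hρE, h8, map_zero]
    rw [h5] at h4
    have h6 : LinearMap.range (LinearMap.lsmul (LocAt z) E (algebraMap A (LocAt z) c)) =
        LinearMap.range (LinearMap.mulLeft (LocAt z) (algebraMap A E c)) := by
      congr 1
      ext e
      rw [LinearMap.lsmul_apply, LinearMap.mulLeft_apply, Algebra.smul_def,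
        ← IsScalarTower.algebraMap_apply]
    rw [h6] at h4
    exact h4
  · intro e he
    rw [Algebra.smul_def, ← IsScalarTower.algebraMap_apply] at he
    exact (mul_eq_zero.1 he).resolve_left hc0
  · -- finite length
    intro h
    apply h3
    have h5 : LinearMap.range (LinearMap.mulLeft (LocAt z) x₀) ≤
        LinearMap.range (Algebra.linearMap (LocAt z) E) := by
      rintro _ ⟨e, rfl⟩
      obtain ⟨o, ho⟩ := hx₀r e
      exact ⟨o, ho.symm⟩
    have h6 := Module.length_le_of_surjective (R := LocAt z)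
      (Submodule.mapQ (LinearMap.range (LinearMap.mulLeft (LocAt z) x₀))
        (LinearMap.range (Algebra.linearMap (LocAt z) E)) LinearMap.id h5) (by
        rintro ⟨e⟩
        exact ⟨Submodule.Quotient.mk e, rfl⟩)
    rw [h] at h6
    exact top_le_iff.1 h6

end core

section final

/-- a valuation ring centred at `z` contains everything integral over `A` -/
theorem tos_integral {A F D : Type} [CommRing A] [Field F] [CommRing D] [Algebra D F]
    (ρ : A →+* F) (δ : A →+* D) (hδ : ∀ a, algebraMap D F (δ a) = ρ a) (hint : δ.IsIntegral)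
    (v : ValuationSubring F) (hv : ∀ a, ρ a ∈ v) (d : D) : algebraMap D F d ∈ v := by
  obtain ⟨p, hp, hpd⟩ := hint d
  let ρ' : A →+* v := ρ.codRestrict v.toSubring hv
  have h1 : IsIntegral v (algebraMap D F d) := by
    refine ⟨p.map ρ', hp.map ρ', ?_⟩
    rw [Polynomial.eval₂_map]
    have h2 : (algebraMap v F).comp ρ' = (algebraMap D F).comp δ := by
      ext a
      rw [RingHom.comp_apply, RingHom.comp_apply, hδ]
      rfl
    rw [h2, ← Polynomial.hom_eval₂, hpd, map_zero]
  obtain ⟨y, hy⟩ := IsIntegrallyClosed.isIntegral_iff.1 h1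
  rw [← hy]
  exact y.2

theorem tos_centred_unit {k A F : Type} [Field k] [CommRing A] [Algebra k A] [Field F]
    (ρ : A →+* F) (v : ValuationSubring F) (z : A →ₐ[k] k) (hv : CentredAt ρ v z) {s : A}
    (hs : z s ≠ 0) : ρ s ≠ 0 ∧ (ρ s)⁻¹ ∈ v := by
  refine tos_cases v (hv s).1 ?_
  intro h
  have h1 : ρ (s - algebraMap k A (z s)) ∈ v.nonunits := by
    apply (hv _).2
    rw [map_sub, AlgHom.commutes]
    exact sub_self _
  have h2 : ρ (algebraMap k A (z s)) ∈ v.nonunits := by
    have h3 : ρ (algebraMap k A (z s)) = ρ s - ρ (s - algebraMap k A (z s)) := by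
      rw [← map_sub]; congr 1; ring
    rw [h3, ValuationSubring.mem_nonunits_iff]
    rw [ValuationSubring.mem_nonunits_iff] at h h1
    exact lt_of_le_of_lt (v.valuation.map_sub _ _) (max_lt h h1)
  apply tos_one_not (v := v)
  have h3 : (1 : F) = ρ (algebraMap k A (z s)) * ρ (algebraMap k A (z s)⁻¹) := by
    rw [← map_mul, ← map_mul, mul_inv_cancel₀ hs, map_one, map_one]
  rw [h3]
  exact tos_mul_nonunits h2 (hv _).1

/-- T-01c: the order at a point of a curve is the sum of the orders at the places over it. -/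
theorem ordPt_eq_sum {k A F : Type} [Field k] [IsAlgClosed k] [CommRing A] [Algebra k A]
    [Algebra.FiniteType k A] [Field F] (ρ : A →+* F) (hρ : IsFrac ρ)
    (D : Type) [CommRing D] [IsDedekindDomain D] [Algebra D F] [IsFractionRing D F]
    (δ : A →+* D) (hδ : ∀ a, algebraMap D F (δ a) = ρ a) (hfin : δ.Finite) (hD : ¬ IsField D)
    (z : A →ₐ[k] k) (c : A) (hc : ρ c ≠ 0) :
    ((ordPt (RingHom.ker ρ) z c).toNat : ℤ) =
      ∑ᶠ v ∈ {v : ValuationSubring F | v ≠ ⊤ ∧ CentredAt ρ v z}, ordV v (ρ c) := by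
  by_cases hP : RingHom.ker ρ ≤ RingHom.ker z
  swap
  · -- the point is not on the curve
    obtain ⟨a, ha, haz⟩ := SetLike.not_le_iff_exists.1 hP
    have h1 : {v : ValuationSubring F | v ≠ ⊤ ∧ CentredAt ρ v z} = ∅ := by
      rw [Set.eq_empty_iff_forall_notMem]
      rintro v ⟨-, hv⟩
      exact (tos_centred_unit ρ v z hv haz).1 ha
    have h2 : ordPt (RingHom.ker ρ) z c = 0 := by
      unfold ordPt lenP
      rw [Module.length_eq_zero_iff]
      apply Ideal.Quotient.subsingleton_iff.2
      apply Ideal.eq_top_of_isUnit_mem _ (Ideal.mem_sup_left (Ideal.mem_map_of_mem _ ha))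
      exact IsLocalization.map_units (LocAt z) (⟨a, haz⟩ : (RingHom.ker z).primeCompl)
    rw [h1, h2]
    simp
  letI : Algebra A D := δ.toAlgebra
  have hAD : ∀ a, algebraMap A D a = δ a := fun a => rfl
  haveI : Module.Finite A D := hfin
  have hinj := IsFractionRing.injective D F
  let T : Submonoid D := Algebra.algebraMapSubmonoid D (RingHom.ker z).primeCompl
  let E := Localization T
  have hT : T ≤ nonZeroDivisors D := by
    rintro _ ⟨s, hs, rfl⟩
    rw [mem_nonZeroDivisors_iff_ne_zero]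
    intro h
    apply hs
    apply hP
    rw [RingHom.mem_ker, ← hδ, ← hAD]
    rw [show algebraMap A D s = 0 from h, map_zero]
  haveI : IsDomain E := IsLocalization.isDomain_localization hT
  haveI : IsDedekindDomain E := IsLocalization.isDedekindDomain D hT E
  have hu : ∀ y : T, IsUnit (algebraMap D F y) := by
    intro y
    refine IsUnit.mk0 _ ?_
    rw [Ne, map_eq_zero_iff _ hinj]
    exact nonZeroDivisors.ne_zero (hT y.2)
  letI : Algebra E F := (IsLocalization.lift (M := T) (S := E) hu).toAlgebra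
  have hDEF : ∀ d : D, algebraMap E F (algebraMap D E d) = algebraMap D F d := fun d =>
    IsLocalization.lift_eq hu d
  haveI : IsScalarTower D E F := IsScalarTower.of_algebraMap_eq (fun d => (hDEF d).symm)
  haveI : IsFractionRing E F :=
    IsFractionRing.isFractionRing_of_isDomain_of_isLocalization T E F
  have hρE : ∀ a, algebraMap E F (algebraMap A E a) = ρ a := by
    intro a
    rw [IsScalarTower.algebraMap_apply A D E, hDEF, hAD, hδ]
  -- a common denominator
  have hden : ∃ b : A, ρ b ≠ 0 ∧ ∀ d : D, ∃ a : A, d * δ b = δ a := by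
    have h1 : ∀ d : D, ∃ b : A, ρ b ≠ 0 ∧ ∃ a : A, d * δ b = δ a := by
      intro d
      obtain ⟨a, b, hb, hab⟩ := hρ (algebraMap D F d)
      refine ⟨b, hb, a, hinj ?_⟩
      rw [map_mul, hδ, hδ, hab]
    choose f hf g hg using h1
    obtain ⟨G, hG⟩ := (Module.Finite.fg_top : (⊤ : Submodule A D).FG)
    refine ⟨∏ d ∈ G, f d, ?_, ?_⟩
    · rw [map_prod]
      exact Finset.prod_ne_zero_iff.2 (fun d _ => hf d)
    · intro d
      have hd : d ∈ Submodule.span A (G : Set D) := by rw [hG]; trivial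
      induction hd using Submodule.span_induction with
      | mem x hx =>
        classical
        refine ⟨g x * ∏ d ∈ G.erase x, f d, ?_⟩
        rw [← Finset.mul_prod_erase G f hx, map_mul, ← mul_assoc, hg, map_mul]
      | zero => exact ⟨0, by rw [zero_mul, map_zero]⟩
      | add x y _ _ hx hy =>
        obtain ⟨a, ha⟩ := hx
        obtain ⟨b, hb⟩ := hy
        exact ⟨a + b, by rw [add_mul, ha, hb, map_add]⟩
      | smul r x _ hx =>
        obtain ⟨a, ha⟩ := hx
        exact ⟨r * a, by rw [Algebra.smul_def, hAD, mul_assoc, ha, map_mul]⟩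
  obtain ⟨b, hb, hbd⟩ := hden
  have hb0 : algebraMap A E b ≠ 0 := by
    intro h
    apply hb
    rw [← hρE, h, map_zero]
  rw [tos_core (E := E) z ρ hρE hP (algebraMap A E b) hb0 ?_ c hc]
  · apply finsum_mem_congr _ (fun _ _ => rfl)
    ext v
    constructor
    · rintro ⟨hv, hE⟩
      refine ⟨hv, fun a => ⟨by rw [← hρE]; exact hE _, fun ha => ?_⟩⟩
      have := IsPrincipalIdealRing.of_finite_primes (tos_primes_finite (E := E) z)
      obtain ⟨π, hπ, hn⟩ := tos_centre hv hE
      have hI : (Ideal.span {π}).IsPrime := (Ideal.span_singleton_prime hπ.ne_zero).2 hπ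
      have h0 : Ideal.span {π} ≠ ⊥ := by
        rw [Ne, Ideal.span_singleton_eq_bot]; exact hπ.ne_zero
      have h1 : algebraMap A (LocAt z) a ∈ (Ideal.span {π}).comap (algebraMap (LocAt z) E) := by
        rw [tos_comap z hI h0]
        exact (IsLocalization.AtPrime.to_map_mem_maximal_iff (LocAt z) (RingHom.ker z) a).2 ha
      rw [Ideal.mem_comap, ← IsScalarTower.algebraMap_apply, Ideal.mem_span_singleton] at h1
      obtain ⟨e, he⟩ := h1
      rw [← hρE, he, map_mul]
      exact tos_mul_nonunits hn (hE e)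
    · rintro ⟨hv, hz⟩
      refine ⟨hv, fun e => ?_⟩
      have hDv := tos_integral ρ δ hδ hfin.to_isIntegral v (fun a => (hz a).1)
      obtain ⟨⟨d, t⟩, hdt⟩ := IsLocalization.surj T e
      obtain ⟨s, hs, hst⟩ := t.2
      have h1 := tos_centred_unit ρ v z hz (s := s) hs
      have h2 : algebraMap E F e = algebraMap D F d * (ρ s)⁻¹ := by
        rw [eq_mul_inv_iff_mul_eq₀ h1.1, ← hδ, ← hAD, ← hDEF, ← hDEF, ← map_mul]
        congr 1
        rw [← hdt]
        congr 2
      rw [h2]
      exact v.mul_mem _ _ (hDv d) h1.2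
  · intro e
    obtain ⟨⟨d, t⟩, hdt⟩ := IsLocalization.surj T e
    obtain ⟨s, hs, hst⟩ := t.2
    obtain ⟨a, ha⟩ := hbd d
    refine ⟨IsLocalization.mk' (LocAt z) a ⟨s, hs⟩, ?_⟩
    have hs0 : algebraMap A E s ≠ 0 := by
      intro h
      apply hs
      apply hP
      rw [RingHom.mem_ker, ← hρE, h, map_zero]
    apply mul_right_cancel₀ hs0
    have h1 : algebraMap (LocAt z) E (IsLocalization.mk' (LocAt z) a ⟨s, hs⟩) *
        algebraMap A E s = algebraMap A E a := by
      rw [IsScalarTower.algebraMap_apply A (LocAt z) E s, ← map_mul, IsLocalization.mk'_spec,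
        ← IsScalarTower.algebraMap_apply]
    rw [h1]
    have h2 : e * algebraMap A E s = algebraMap D E d := by
      rw [IsScalarTower.algebraMap_apply A D E, ← hdt]
      congr 2
    rw [mul_assoc, h2, IsScalarTower.algebraMap_apply A D E, IsScalarTower.algebraMap_apply A D E,
      ← map_mul, hAD, hAD, mul_comm, ha]

end final

end Pool.Agent.K1
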