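import Pool.Agent.K1.LocalPairing

set_option autoImplicit false
set_option linter.style.longLine false

/-!
# Intersection numbers on a regular local ring of dimension two
-/

namespace Pool.Agent.K1

/-- the intersection number -/
noncomputable def len {O : Type*} [CommRing O] (f g : O) : ℕ∞ :=
  Module.length O (O ⧸ Ideal.span {f, g})

section general

variable {O : Type*} [CommRing O]

theorem len_symm (f g : O) : len f g = len g f := by
  unfold len
  rw [Set.pair_comm]

theorem span_add_mul (f g r : O) : Ideal.span {f, g + r * f} = Ideal.span {f, g} := by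
  apply le_antisymm
  · rw [Ideal.span_le]
    rintro x (rfl | rfl)
    · exact Ideal.subset_span (by simp)
    · exact Ideal.add_mem _ (Ideal.subset_span (by simp))
        (Ideal.mul_mem_left _ _ (Ideal.subset_span (by simp)))
  · rw [Ideal.span_le]
    rintro x (rfl | rfl)
    · exact Ideal.subset_span (by simp)
    · have h1 : x = (x + r * f) + (-r) * f := by ring
      have h2 : (x + r * f) + (-r) * f ∈ Ideal.span {f, x + r * f} :=
        Ideal.add_mem _ (Ideal.subset_span (by simp))
          (Ideal.mul_mem_left _ _ (Ideal.subset_span (by simp)))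
      rw [← h1] at h2
      exact h2

theorem len_add (f g r : O) : len f (g + r * f) = len f g := by
  unfold len
  rw [span_add_mul]

theorem len_unit (f : O) {g : O} (hg : IsUnit g) : len f g = 0 := by
  unfold len
  rw [Module.length_eq_zero_iff]
  apply Ideal.Quotient.subsingleton_iff.2
  exact Ideal.eq_top_of_isUnit_mem _ (Ideal.subset_span (by simp)) hg

theorem len_le_of_le {f g f' g' : O} (h : Ideal.span {f, g} ≤ Ideal.span {f', g'}) :
    len f' g' ≤ len f g :=
  Module.length_le_of_surjective (Submodule.mapQ _ _ LinearMap.id h)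
    (by
      rintro ⟨x⟩
      exact ⟨Submodule.Quotient.mk x, rfl⟩)

theorem len_left (f g₁ g₂ : O) : len f g₁ ≤ len f (g₁ * g₂) := by
  apply len_le_of_le
  rw [Ideal.span_le]
  rintro x (rfl | rfl)
  · exact Ideal.subset_span (by simp)
  · exact Ideal.mul_mem_right _ _ (Ideal.subset_span (by simp))

/-- `f` and `g` form a regular sequence -/
def Reg (f g : O) : Prop := ∀ z, f ∣ g * z → f ∣ z

theorem len_mul {f g₁ g₂ : O} (h : Reg f g₁) : len f (g₁ * g₂) = len f g₁ + len f g₂ := by
  have hle : Ideal.span {f, g₁ * g₂} ≤ Ideal.span {f, g₁} := by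
    rw [Ideal.span_le]
    rintro x (rfl | rfl)
    · exact Ideal.subset_span (by simp)
    · exact Ideal.mul_mem_right _ _ (Ideal.subset_span (by simp))
  have hle2 : Ideal.span {f, g₂} ≤
      Submodule.comap (LinearMap.mulLeft O g₁) (Ideal.span {f, g₁ * g₂}) := by
    rw [Ideal.span_le]
    rintro x (rfl | rfl)
    · change g₁ * x ∈ Ideal.span {x, g₁ * g₂}
      exact Ideal.mul_mem_left _ _ (Ideal.subset_span (by simp))
    · change g₁ * x ∈ Ideal.span {f, g₁ * x}
      exact Ideal.subset_span (by simp)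
  let i : (O ⧸ Ideal.span {f, g₂}) →ₗ[O] (O ⧸ Ideal.span {f, g₁ * g₂}) :=
    Submodule.mapQ _ _ (LinearMap.mulLeft O g₁) hle2
  let q : (O ⧸ Ideal.span {f, g₁ * g₂}) →ₗ[O] (O ⧸ Ideal.span {f, g₁}) :=
    Submodule.mapQ _ _ LinearMap.id hle
  have hi : Function.Injective i := by
    rw [← LinearMap.ker_eq_bot, LinearMap.ker_eq_bot']
    rintro ⟨x⟩ hx
    have h1 : g₁ * x ∈ Ideal.span {f, g₁ * g₂} := (Submodule.Quotient.mk_eq_zero _).1 hx
    rw [Ideal.mem_span_pair] at h1
    obtain ⟨a, b, hab⟩ := h1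
    have h2 : f ∣ g₁ * (x - b * g₂) := ⟨a, by linear_combination -hab⟩
    obtain ⟨c, hc⟩ := h _ h2
    apply (Submodule.Quotient.mk_eq_zero _).2
    rw [Ideal.mem_span_pair]
    exact ⟨c, b, by linear_combination -hc⟩
  have hq : Function.Surjective q := by
    rintro ⟨x⟩
    exact ⟨Submodule.Quotient.mk x, rfl⟩
  have hex : Function.Exact i q := by
    rintro ⟨x⟩
    constructor
    · intro hx
      have h1 : x ∈ Ideal.span {f, g₁} := (Submodule.Quotient.mk_eq_zero _).1 hx
      rw [Ideal.mem_span_pair] at h1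
      obtain ⟨a, b, hab⟩ := h1
      refine ⟨Submodule.Quotient.mk b, ?_⟩
      apply (Submodule.Quotient.eq _).2
      change g₁ * b - x ∈ _
      rw [Ideal.mem_span_pair]
      exact ⟨-a, 0, by linear_combination -hab⟩
    · rintro ⟨⟨y⟩, hy⟩
      have h1 : g₁ * y - x ∈ Ideal.span {f, g₁ * g₂} := (Submodule.Quotient.eq _).1 hy
      apply (Submodule.Quotient.mk_eq_zero _).2
      have h2 : g₁ * y ∈ Ideal.span {f, g₁} := Ideal.mul_mem_right _ _ (Ideal.subset_span (by simp))
      have h3 := Ideal.sub_mem _ h2 (hle h1)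
      rwa [sub_sub_cancel] at h3
  unfold len
  rw [Module.length_eq_add_of_exact i q hi hq hex, add_comm]

end general

section regular

variable {O : Type*} [CommRing O] [IsLocalRing O] [IsNoetherianRing O]
  {S Y : O}

theorem prime_S (hm : IsLocalRing.maximalIdeal O = Ideal.span {S, Y}) (hS0 : S ≠ 0)
    (hdim : ∀ n : ℕ, ¬ S ∣ Y ^ n) : Prime S := by
  have hSm : S ∈ IsLocalRing.maximalIdeal O := hm ▸ Ideal.subset_span (by simp)
  refine ⟨hS0, (IsLocalRing.mem_maximalIdeal S).1 hSm, ?_⟩
  intro a b hab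
  by_contra h
  push Not at h
  obtain ⟨e, u, r, hu, hae⟩ := exists_unit_mul_pow S Y hm a h.1
  obtain ⟨e', u', r', hu', hbe⟩ := exists_unit_mul_pow S Y hm b h.2
  obtain ⟨c, hc⟩ := hab
  obtain ⟨v, hv⟩ := (hu.mul hu').exists_right_inv
  apply hdim (e + e')
  refine ⟨v * (c - r * (u' * Y ^ e') - r' * (u * Y ^ e) - r * r' * S), ?_⟩
  rw [hae, hbe] at hc
  have h1 : u * u' * Y ^ (e + e') = S * (c - r * (u' * Y ^ e') - r' * (u * Y ^ e) - r * r' * S) := by
    rw [pow_add]
    linear_combination hc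
  calc Y ^ (e + e') = (u * u' * v) * Y ^ (e + e') := by rw [hv, one_mul]
    _ = v * (u * u' * Y ^ (e + e')) := by ring
    _ = _ := by rw [h1]; ring

omit [IsNoetherianRing O] in
/-- in a quotient of finite length the elements of the maximal ideal are nilpotent -/
theorem exists_pow_mem (I : Ideal O) (h : Module.length O (O ⧸ I) ≠ ⊤) {x : O}
    (hx : x ∈ IsLocalRing.maximalIdeal O) : ∃ n : ℕ, x ^ n ∈ I := by
  by_cases htop : I = ⊤
  · exact ⟨0, htop ▸ Submodule.mem_top⟩
  rw [Module.length_ne_top_iff] at h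
  have h2 : IsArtinian O (O ⧸ I) := (isFiniteLength_iff_isNoetherian_isArtinian.1 h).2
  have h3 : IsArtinianRing (O ⧸ I) := isArtinian_of_tower O h2
  have hnt : Nontrivial (O ⧸ I) := Ideal.Quotient.nontrivial_iff.2 htop
  have hloc : IsLocalRing (O ⧸ I) :=
    IsLocalRing.of_surjective' (Ideal.Quotient.mk I) Ideal.Quotient.mk_surjective
  have h6 : Ideal.Quotient.mk I x ∈ IsLocalRing.maximalIdeal (O ⧸ I) := by
    rw [IsLocalRing.mem_maximalIdeal]
    intro h7
    obtain ⟨z, hz⟩ := h7.exists_right_inv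
    obtain ⟨z, rfl⟩ := Ideal.Quotient.mk_surjective z
    rw [← map_mul, ← map_one (Ideal.Quotient.mk I), Ideal.Quotient.eq] at hz
    have h8 : (1 : O) ∈ IsLocalRing.maximalIdeal O := by
      have h9 : x * z - (x * z - 1) ∈ IsLocalRing.maximalIdeal O :=
        Ideal.sub_mem _ (Ideal.mul_mem_right _ _ hx) (IsLocalRing.le_maximalIdeal htop hz)
      rwa [sub_sub_cancel] at h9
    exact (IsLocalRing.mem_maximalIdeal (1 : O)).1 h8 isUnit_one
  obtain ⟨n, hn⟩ := IsArtinianRing.isNilpotent_jacobson_bot (R := O ⧸ I)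
  rw [IsLocalRing.jacobson_eq_maximalIdeal ⊥ bot_ne_top] at hn
  refine ⟨n, ?_⟩
  have h7 := Ideal.pow_mem_pow h6 n
  rw [hn] at h7
  have h8 : Ideal.Quotient.mk I x ^ n = 0 := h7
  rw [← map_pow, Ideal.Quotient.eq_zero_iff_mem] at h8
  exact h8

/-- a pair with finite intersection number is not divisible by `S` -/
theorem not_dvd_both (hm : IsLocalRing.maximalIdeal O = Ideal.span {S, Y})
    (hdim : ∀ n : ℕ, ¬ S ∣ Y ^ n) {f g : O} (h : len f g ≠ ⊤) : ¬ (S ∣ f ∧ S ∣ g) := by
  rintro ⟨hf, hg⟩
  have hYm : Y ∈ IsLocalRing.maximalIdeal O := hm ▸ Ideal.subset_span (by simp)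
  obtain ⟨n, hn⟩ := exists_pow_mem _ h hYm
  apply hdim n
  rw [Ideal.mem_span_pair] at hn
  obtain ⟨a, b, hab⟩ := hn
  rw [← hab]
  exact dvd_add (hf.mul_left _) (hg.mul_left _)

/-- the elements of a pair with finite intersection number without units are not zero -/
theorem ne_zero_of_len [IsDomain O] (hm : IsLocalRing.maximalIdeal O = Ideal.span {S, Y})
    (hS0 : S ≠ 0) (hdim : ∀ n : ℕ, ¬ S ∣ Y ^ n) {b : O} (h : len 0 b ≠ ⊤) : IsUnit b := by
  have hprime : Prime S := prime_S hm hS0 hdim
  have hSm : S ∈ IsLocalRing.maximalIdeal O := hm ▸ Ideal.subset_span (by simp)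
  have hSb : ¬ S ∣ b := fun h1 => not_dvd_both hm hdim h ⟨dvd_zero _, h1⟩
  obtain ⟨n, hn⟩ := exists_pow_mem _ h hSm
  rw [Ideal.mem_span_pair] at hn
  obtain ⟨a, c, hac⟩ := hn
  rw [mul_zero, zero_add] at hac
  induction n generalizing c with
  | zero => exact IsUnit.of_mul_eq_one c (by rw [mul_comm, hac, pow_zero])
  | succ n ih =>
    have h1 : S ∣ c * b := hac ▸ dvd_pow_self S (Nat.succ_ne_zero n)
    rcases hprime.dvd_or_dvd h1 with h2 | h2
    · obtain ⟨c', rfl⟩ := h2
      apply ih c'
      apply mul_left_cancel₀ hS0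
      rw [← pow_succ', ← hac]
      ring
    · exact absurd h2 hSb

/-- in a regular local ring of dimension two every pair with finite intersection number is a
regular sequence -/
theorem reg_of_len [IsDomain O] (hm : IsLocalRing.maximalIdeal O = Ideal.span {S, Y})
    (hS0 : S ≠ 0) (hdim : ∀ n : ℕ, ¬ S ∣ Y ^ n) (f g : O) (h : len f g ≠ ⊤) : Reg f g := by
  have hprime : Prime S := prime_S hm hS0 hdim
  have hSm : S ∈ IsLocalRing.maximalIdeal O := hm ▸ Ideal.subset_span (by simp)
  obtain ⟨n, hn⟩ : ∃ n : ℕ, len f g ≤ n := ⟨(len f g).toNat, by rw [ENat.natCast_toNat h]⟩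
  clear h
  induction n using Nat.strong_induction_on generalizing f g with
  | _ n ih =>
  have hne : len f g ≠ ⊤ := ne_top_of_le_ne_top (ENat.natCast_ne_top n) hn
  by_cases hgu : IsUnit g
  · intro z hz
    exact (hgu.dvd_mul_left).1 hz
  by_cases hfu : IsUnit f
  · intro z _
    exact hfu.dvd
  have hg0 : g ≠ 0 := by
    rintro rfl
    rw [len_symm] at hne
    exact hfu (ne_zero_of_len hm hS0 hdim hne)
  have hf0 : f ≠ 0 := by
    rintro rfl
    exact hgu (ne_zero_of_len hm hS0 hdim hne)
  -- the main step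
  have step : ∀ a b : O, len a b ≤ n → ¬ IsUnit a → ∀ c : O, ¬ S ∣ a →
      S ∣ b + c * a → Reg a b := by
    intro a b hle hau c hSa hc
    obtain ⟨w, hw⟩ := hc
    have h1 : len a b = len a (S * w) := by rw [← hw, len_add]
    have h2 : Reg a S := by
      intro z hz
      obtain ⟨y, hy⟩ := hz
      have h3 : S ∣ a * y := ⟨z, hy.symm⟩
      rcases hprime.dvd_or_dvd h3 with h4 | h4
      · exact absurd h4 hSa
      · obtain ⟨y', rfl⟩ := h4
        refine ⟨y', ?_⟩
        apply mul_left_cancel₀ hS0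
        linear_combination hy
    have h3 : len a (S * w) = len a S + len a w := len_mul h2
    have h4 : 1 ≤ len a S := by
      rw [Order.one_le_iff_ne_zero]
      intro h5
      unfold len at h5
      rw [Module.length_eq_zero_iff] at h5
      have h6 := Ideal.Quotient.subsingleton_iff.1 h5
      have h7 : Ideal.span {a, S} ≤ IsLocalRing.maximalIdeal O := by
        rw [Ideal.span_le]
        rintro x (rfl | rfl)
        · exact (IsLocalRing.mem_maximalIdeal x).2 hau
        · exact hSm
      rw [h6, top_le_iff] at h7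
      exact (IsLocalRing.maximalIdeal.isMaximal O).ne_top h7
    have h5 : len a w ≠ ⊤ := by
      refine ne_top_of_le_ne_top (ENat.natCast_ne_top n) (le_trans ?_ hle)
      rw [h1, h3]
      exact le_add_self
    obtain ⟨m, hm'⟩ := ENat.ne_top_iff_exists.1 h5
    have h6 : m < n := by
      have h7 : (1 : ℕ∞) + len a w ≤ n := by
        refine le_trans ?_ hle
        rw [h1, h3]
        gcongr
      rw [← hm'] at h7
      have h8 : ((1 + m : ℕ) : ℕ∞) ≤ (n : ℕ∞) := by exact_mod_cast h7
      have h9 : 1 + m ≤ n := by exact_mod_cast h8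
      omega
    have h7 : Reg a w := ih m h6 a w (by rw [← hm'])
    intro z hz
    have h8 : a ∣ S * (w * z) := by
      have h9 : S * (w * z) = b * z + c * z * a := by
        rw [← mul_assoc, ← hw]
        ring
      rw [h9]
      exact dvd_add hz (dvd_mul_left _ _)
    exact h7 z (h2 _ h8)
  have swap : Reg g f → Reg f g := by
    intro h z hz
    obtain ⟨y, hy⟩ := hz
    obtain ⟨w, hw⟩ := h y ⟨z, hy.symm⟩
    refine ⟨w, ?_⟩
    apply mul_left_cancel₀ hg0
    rw [hy, hw]
    ring
  have hn' : len g f ≤ n := by rw [len_symm]; exact hn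
  by_cases hSf : S ∣ f
  · have hSg : ¬ S ∣ g := fun h => not_dvd_both hm hdim hne ⟨hSf, h⟩
    exact swap (step g f hn' hgu 0 hSg (by simpa using hSf))
  by_cases hSg : S ∣ g
  · exact step f g hn hfu 0 hSf (by simpa using hSg)
  obtain ⟨e, u, r, hu, he⟩ := exists_unit_mul_pow S Y hm f hSf
  obtain ⟨e', u', r', hu', he'⟩ := exists_unit_mul_pow S Y hm g hSg
  rcases le_total e e' with h | h
  · obtain ⟨v, hv⟩ := hu.exists_right_inv
    refine step f g hn hfu (-(u' * v * Y ^ (e' - e))) hSf ⟨r' - u' * v * Y ^ (e' - e) * r, ?_⟩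
    obtain ⟨d, rfl⟩ : ∃ d, e' = e + d := ⟨e' - e, by omega⟩
    rw [Nat.add_sub_cancel_left, he, he', pow_add]
    linear_combination (-(u' * Y ^ d * Y ^ e)) * hv
  · obtain ⟨v, hv⟩ := hu'.exists_right_inv
    refine swap (step g f hn' hgu (-(u * v * Y ^ (e - e'))) hSg
      ⟨r - u * v * Y ^ (e - e') * r', ?_⟩)
    obtain ⟨d, rfl⟩ : ∃ d, e = e' + d := ⟨e - e', by omega⟩
    rw [Nat.add_sub_cancel_left, he, he', pow_add]
    linear_combination (-(u * Y ^ d * Y ^ e')) * hv

omit [IsNoetherianRing O] in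
/-- the intersection number of the generators of the maximal ideal -/
theorem len_SY (hm : IsLocalRing.maximalIdeal O = Ideal.span {S, Y}) : len S Y = 1 := by
  unfold len
  rw [Module.length_eq_one_iff, ← hm]
  exact isSimpleModule_iff_quot_maximal.2 ⟨_, IsLocalRing.maximalIdeal.isMaximal O,
    ⟨LinearEquiv.refl _ _⟩⟩

/-- G3. A symmetric multiplicative pairing on the pairs of intersection number at most `L` of a
regular local ring of dimension two which is invariant under `g ↦ g + r f` and trivial on units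
is a multiple of the intersection number. -/
theorem localPairing [IsDomain O] (hm : IsLocalRing.maximalIdeal O = Ideal.span {S, Y})
    (hS0 : S ≠ 0) (hdim : ∀ n : ℕ, ¬ S ∣ Y ^ n) (L : ℕ) (E : O → O → ℚ)
    (hsymm : ∀ f g, len f g ≤ L → E f g = E g f)
    (hmul : ∀ f g₁ g₂, len f (g₁ * g₂) ≤ L → E f (g₁ * g₂) = E f g₁ + E f g₂)
    (hadd : ∀ f g r, len f g ≤ L → E f (g + r * f) = E f g)
    (hunit : ∀ f g, IsUnit g → E f g = 0) (f g : O) (hfg : len f g ≤ L) :
    E f g = ((len f g).toNat : ℚ) * E S Y := by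
  let Cop : O → O → Prop := fun f g => len f g ≤ L
  let ℓ : O → O → ℤ := fun f g => ((len f g).toNat : ℤ)
  have hSm : S ∈ IsLocalRing.maximalIdeal O := hm ▸ Ideal.subset_span (by simp)
  have hCne : ∀ {f g : O}, Cop f g → len f g ≠ ⊤ := fun h =>
    ne_top_of_le_ne_top (ENat.natCast_ne_top L) h
  have hC : IsCop Cop := by
    refine ⟨fun f g h => ?_, fun f g₁ g₂ h => ?_, fun f g r h => ?_⟩
    · change len g f ≤ L
      rw [len_symm]
      exact h
    · exact (len_left f g₁ g₂).trans h
    · change len f (g + r * f) ≤ L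
      rw [len_add]
      exact h
  have hB : IsPairing Cop E := ⟨hsymm, hmul, hadd, fun f g _ hg => hunit f g hg⟩
  have hℓ : IsPairing Cop ℓ := by
    refine ⟨fun f g _ => ?_, fun f g₁ g₂ h => ?_, fun f g r _ => ?_, fun f g _ hg => ?_⟩
    · change ((len f g).toNat : ℤ) = ((len g f).toNat : ℤ)
      rw [len_symm]
    · change ((len f (g₁ * g₂)).toNat : ℤ) = ((len f g₁).toNat : ℤ) + ((len f g₂).toNat : ℤ)
      have h1 : Cop f g₁ := hC.left _ _ _ h
      have h2 : Cop f g₂ := hC.right h
      rw [len_mul (reg_of_len hm hS0 hdim f g₁ (hCne h1)), ENat.toNat_add (hCne h1) (hCne h2)]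
      push_cast
      rfl
    · change ((len f (g + r * f)).toNat : ℤ) = ((len f g).toNat : ℤ)
      rw [len_add]
    · change ((len f g).toNat : ℤ) = 0
      rw [len_unit f hg]
      rfl
  have h := IsPairing.eq_smul hC hB hℓ (fun f g _ => Int.natCast_nonneg _) S Y ?_
    (exists_unit_mul_pow S Y hm) (fun f g h => not_dvd_both hm hdim (hCne h))
    (fun _ => by
      change ((len S Y).toNat : ℤ) = 1
      rw [len_SY hm]
      rfl) f g hfg
  · rw [h, zsmul_eq_mul]
    rfl
  · intro u r hu
    by_contra h1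
    have h2 : u + r * S ∈ IsLocalRing.maximalIdeal O := (IsLocalRing.mem_maximalIdeal _).2 h1
    have h3 : u ∈ IsLocalRing.maximalIdeal O := by
      have h4 := Ideal.sub_mem _ h2 (Ideal.mul_mem_left _ r hSm)
      rwa [add_sub_cancel_right] at h4
    exact (IsLocalRing.mem_maximalIdeal u).1 h3 hu

end regular

end Pool.Agent.K1
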