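import Pool.Agent.K1.TDefs

/-!
The order at a discrete valuation ring of a field.
-/

set_option autoImplicit false

namespace Pool.Agent.K1

variable {F : Type} [Field F] {v : ValuationSubring F}

theorem tord_nonunits_iff {x : F} : x ∈ v.nonunits ↔ x = 0 ∨ (x ∈ v ∧ x⁻¹ ∉ v) := by
  by_cases hx : x = 0
  · subst hx
    constructor
    · intro _; exact Or.inl rfl
    · intro _
      rw [ValuationSubring.mem_nonunits_iff, map_zero]
      exact zero_lt_one
  · rw [ValuationSubring.mem_nonunits_iff]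
    constructor
    · intro h
      right
      refine ⟨(v.valuation_le_one_iff x).1 h.le, fun h' => ?_⟩
      have h1 := (v.valuation_le_one_iff x⁻¹).2 h'
      have h2 : v.valuation x * v.valuation x⁻¹ = 1 := by
        rw [← map_mul, mul_inv_cancel₀ hx, map_one]
      have h3 : v.valuation x * v.valuation x⁻¹ < 1 := by
        calc v.valuation x * v.valuation x⁻¹ ≤ v.valuation x * 1 :=
              mul_le_mul_right h1 _
          _ < 1 := by rw [mul_one]; exact h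
      exact h3.ne h2
    · rintro (h | ⟨h1, h2⟩)
      · exact absurd h hx
      · have h3 := (v.valuation_le_one_iff x).2 h1
        refine lt_of_le_of_ne h3 fun h4 => h2 ?_
        rw [← v.valuation_le_one_iff, map_inv₀, h4, inv_one]

theorem tord_unif_nonunit {π : F} (hπ : IsUnifV v π) : π ∈ v.nonunits :=
  (hπ.2 π).2 ⟨1, v.one_mem, (mul_one π).symm⟩

theorem tord_unif_mem {π : F} (hπ : IsUnifV v π) : π ∈ v ∧ π⁻¹ ∉ v := by
  rcases tord_nonunits_iff.1 (tord_unif_nonunit hπ) with h | h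
  · exact absurd h hπ.1
  · exact h

theorem tord_unitIn_mul {s t : Fˣ} (hs : UnitIn v s) (ht : UnitIn v t) : UnitIn v (s * t) := by
  refine ⟨?_, ?_⟩
  · rw [Units.val_mul]; exact v.mul_mem _ _ hs.1 ht.1
  · rw [mul_inv, Units.val_mul]; exact v.mul_mem _ _ hs.2 ht.2

theorem tord_unitIn_inv {s : Fˣ} (hs : UnitIn v s) : UnitIn v s⁻¹ := by
  refine ⟨hs.2, ?_⟩
  rw [inv_inv]; exact hs.1

theorem tord_unitIn_zpow {s : Fˣ} (hs : UnitIn v s) (n : ℤ) : UnitIn v (s ^ n) := by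
  have h1 : ∀ m : ℕ, UnitIn v (s ^ m) := by
    intro m
    induction m with
    | zero =>
      rw [pow_zero]
      refine ⟨?_, ?_⟩
      · rw [Units.val_one]; exact v.one_mem
      · rw [inv_one, Units.val_one]; exact v.one_mem
    | succ m ih => rw [pow_succ]; exact tord_unitIn_mul ih hs
  cases n with
  | ofNat m => rw [Int.ofNat_eq_natCast, zpow_natCast]; exact h1 m
  | negSucc m => rw [zpow_negSucc]; exact tord_unitIn_inv (h1 _)

/-- if a power of a uniformizer with positive exponent is in the units, contradiction -/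
theorem tord_pow_unit {π : F} (hπ : IsUnifV v π) {n : ℤ} {u : Fˣ} (hu : UnitIn v u)
    (h : π ^ n = u) : n = 0 := by
  obtain ⟨h1, h2⟩ := tord_unif_mem hπ
  have key : ∀ m : ℕ, ∀ w : Fˣ, UnitIn v w → π ^ (m + 1) = (w : F) → False := by
    intro m w hw hm
    apply h2
    have h3 : π⁻¹ = π ^ m * ((w⁻¹ : Fˣ) : F) := by
      rw [Units.val_inv_eq_inv_val, ← hm, pow_succ, mul_inv, ← mul_assoc,
        mul_inv_cancel₀ (pow_ne_zero m hπ.1), one_mul]
    rw [h3]
    exact v.mul_mem _ _ (pow_mem h1 m) hw.2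
  rcases n with (_ | m) | m
  · rfl
  · exfalso
    refine key m u hu ?_
    rw [← h]
    exact (zpow_natCast π (m + 1)).symm
  · exfalso
    refine key m u⁻¹ (tord_unitIn_inv hu) ?_
    rw [Units.val_inv_eq_inv_val, ← h, zpow_negSucc, inv_inv]

theorem tord_unique {π π' : F} {u u' : Fˣ} {n n' : ℤ} (hπ : IsUnifV v π) (hπ' : IsUnifV v π')
    (hu : UnitIn v u) (hu' : UnitIn v u') (h : π ^ n * (u : F) = π' ^ n' * (u' : F)) :
    n = n' := by
  obtain ⟨c, hc, hc'⟩ := (hπ.2 π').1 (tord_unif_nonunit hπ')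
  obtain ⟨d, hd, hd'⟩ := (hπ'.2 π).1 (tord_unif_nonunit hπ)
  have hcd : c * d = 1 := by
    have h1 : π * (c * d) = π * 1 := by
      rw [← mul_assoc, ← hc', ← hd', mul_one]
    exact mul_left_cancel₀ hπ.1 h1
  let w : Fˣ := ⟨c, d, hcd, by rw [mul_comm]; exact hcd⟩
  have hw : UnitIn v w := ⟨hc, hd⟩
  have h2 : π ^ (n - n') = ((w ^ n' * u' * u⁻¹ : Fˣ) : F) := by
    rw [hc', mul_zpow] at h
    rw [zpow_sub₀ hπ.1]
    simp only [Units.val_mul, Units.val_zpow_eq_zpow_val, Units.val_inv_eq_inv_val]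
    have h3 : (w : F) = c := rfl
    rw [h3, div_eq_iff (zpow_ne_zero _ hπ.1)]
    apply mul_right_cancel₀ u.ne_zero
    rw [h]
    have h4 : c ^ n' * (u' : F) * (u : F)⁻¹ * π ^ n' * (u : F) =
        π ^ n' * c ^ n' * u' * ((u : F)⁻¹ * u) := by ring
    rw [h4, inv_mul_cancel₀ u.ne_zero, mul_one]
  have h3 := tord_pow_unit hπ
    (tord_unitIn_mul (tord_unitIn_mul (tord_unitIn_zpow hw n') hu') (tord_unitIn_inv hu)) h2
  omega

theorem ordV_eq {π : F} {u : Fˣ} {n : ℤ} (hπ : IsUnifV v π) (hu : UnitIn v u) :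
    ordV v (π ^ n * u) = n := by
  have h : ∃ m : ℤ, ∃ (π' : F) (u' : Fˣ), IsUnifV v π' ∧ UnitIn v u' ∧
      π ^ n * (u : F) = π' ^ m * u' := ⟨n, π, u, hπ, hu, rfl⟩
  unfold ordV
  rw [dif_pos h]
  obtain ⟨π', u', h1, h2, h3⟩ := h.choose_spec
  exact (tord_unique hπ h1 hu h2 h3).symm

theorem tord_ne_zero {π : F} {u : Fˣ} {n : ℤ} (hπ : IsUnifV v π) : π ^ n * (u : F) ≠ 0 :=
  mul_ne_zero (zpow_ne_zero _ hπ.1) u.ne_zero

theorem ordV_mul (hv : IsDiscV v) {s t : F} (hs : s ≠ 0) (ht : t ≠ 0) :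
    ordV v (s * t) = ordV v s + ordV v t := by
  obtain ⟨π, hπ, h⟩ := hv
  obtain ⟨a, u, hu, rfl⟩ := h s hs
  obtain ⟨b, w, hw, rfl⟩ := h t ht
  rw [ordV_eq hπ hu, ordV_eq hπ hw]
  have h1 : π ^ a * (u : F) * (π ^ b * (w : F)) = π ^ (a + b) * ((u * w : Fˣ) : F) := by
    rw [zpow_add₀ hπ.1, Units.val_mul]; ring
  rw [h1, ordV_eq hπ (tord_unitIn_mul hu hw)]

theorem ordV_inv (hv : IsDiscV v) {t : F} (ht : t ≠ 0) : ordV v t⁻¹ = - ordV v t := by
  obtain ⟨π, hπ, h⟩ := hv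
  obtain ⟨a, u, hu, rfl⟩ := h t ht
  have h1 : (π ^ a * (u : F))⁻¹ = π ^ (-a) * ((u⁻¹ : Fˣ) : F) := by
    rw [mul_inv, zpow_neg, Units.val_inv_eq_inv_val]
  rw [h1, ordV_eq hπ hu, ordV_eq hπ (tord_unitIn_inv hu)]

theorem tord_inv_eq {π : F} (hπ : π ≠ 0) (u : Fˣ) (m : ℕ) :
    π⁻¹ = π ^ m * (π ^ (-((m : ℤ) + 1)) * (u : F)) * ((u⁻¹ : Fˣ) : F) := by
  have h1 : π ^ (-((m : ℤ) + 1)) = (π ^ (m + 1))⁻¹ := by
    rw [zpow_neg]
    norm_cast
  have h2 : π ^ m * (π ^ (-((m : ℤ) + 1)) * (u : F)) * ((u⁻¹ : Fˣ) : F) =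
      π ^ m * π ^ (-((m : ℤ) + 1)) * ((u : F) * ((u⁻¹ : Fˣ) : F)) := by ring
  rw [h2, Units.val_inv_eq_inv_val, mul_inv_cancel₀ u.ne_zero, mul_one, h1, pow_succ, mul_inv,
    ← mul_assoc, mul_inv_cancel₀ (pow_ne_zero m hπ), one_mul]

theorem tord_mem_iff {π : F} (hπ : IsUnifV v π) {u : Fˣ} (hu : UnitIn v u) (a : ℤ) :
    π ^ a * (u : F) ∈ v ↔ 0 ≤ a := by
  obtain ⟨h1, h2⟩ := tord_unif_mem hπ
  constructor
  · intro h
    by_contra hneg
    push Not at hneg
    obtain ⟨m, rfl⟩ : ∃ m : ℕ, a = -((m : ℤ) + 1) := ⟨(-a - 1).toNat, by omega⟩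
    apply h2
    rw [tord_inv_eq hπ.1 u m]
    exact v.mul_mem _ _ (v.mul_mem _ _ (pow_mem h1 m) h) hu.2
  · intro h
    obtain ⟨m, rfl⟩ : ∃ m : ℕ, a = m := ⟨a.toNat, by omega⟩
    rw [zpow_natCast]
    exact v.mul_mem _ _ (pow_mem h1 m) hu.1

theorem mem_iff_ordV (hv : IsDiscV v) {t : F} (ht : t ≠ 0) : t ∈ v ↔ 0 ≤ ordV v t := by
  obtain ⟨π, hπ, h⟩ := hv
  obtain ⟨a, u, hu, rfl⟩ := h t ht
  rw [ordV_eq hπ hu, tord_mem_iff hπ hu]

theorem nonunits_iff_ordV (hv : IsDiscV v) {t : F} (ht : t ≠ 0) :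
    t ∈ v.nonunits ↔ 0 < ordV v t := by
  rw [tord_nonunits_iff]
  have h1 := mem_iff_ordV hv ht
  have h2 := mem_iff_ordV hv (inv_ne_zero ht)
  rw [ordV_inv hv ht] at h2
  constructor
  · rintro (h | ⟨h3, h4⟩)
    · exact absurd h ht
    · rw [h1] at h3
      rw [h2] at h4
      omega
  · intro h
    right
    rw [h1, h2]
    omega

theorem unitIn_iff_ordV (hv : IsDiscV v) (t : Fˣ) : UnitIn v t ↔ ordV v (t : F) = 0 := by
  unfold UnitIn
  rw [Units.val_inv_eq_inv_val, mem_iff_ordV hv t.ne_zero, mem_iff_ordV hv (inv_ne_zero t.ne_zero),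
    ordV_inv hv t.ne_zero]
  omega

theorem ordV_add (hv : IsDiscV v) {s t : F} (hs : s ≠ 0) (ht : t ≠ 0) (hst : s + t ≠ 0) :
    min (ordV v s) (ordV v t) ≤ ordV v (s + t) := by
  wlog hle : ordV v s ≤ ordV v t generalizing s t
  · rw [min_comm, add_comm]
    exact this ht hs (by rwa [add_comm]) (by omega)
  rw [min_eq_left hle]
  have h1 : s + t = s * (1 + t / s) := by field_simp
  have h2 : t / s ∈ v := by
    rw [mem_iff_ordV hv (div_ne_zero ht hs), div_eq_mul_inv, ordV_mul hv ht (inv_ne_zero hs),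
      ordV_inv hv hs]
    omega
  have h3 : 1 + t / s ∈ v := v.add_mem _ _ v.one_mem h2
  have h4 : 1 + t / s ≠ 0 := by
    intro h5
    rw [h1, h5, mul_zero] at hst
    exact hst rfl
  rw [h1, ordV_mul hv hs h4]
  have h5 := (mem_iff_ordV hv h4).1 h3
  omega

theorem isUnifV_iff (hv : IsDiscV v) {π : F} (h : π ≠ 0) : IsUnifV v π ↔ ordV v π = 1 := by
  constructor
  · intro hπ
    have h1 := ordV_eq (n := 1) (u := 1) hπ ⟨by simp, by simp⟩
    simpa using h1
  · intro h1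
    refine ⟨h, fun x => ?_⟩
    by_cases hx : x = 0
    · subst hx
      constructor
      · intro _
        exact ⟨0, v.zero_mem, (mul_zero π).symm⟩
      · intro _
        exact tord_nonunits_iff.2 (Or.inl rfl)
    · rw [nonunits_iff_ordV hv hx]
      constructor
      · intro h2
        refine ⟨x / π, ?_, by field_simp⟩
        rw [mem_iff_ordV hv (div_ne_zero hx h), div_eq_mul_inv, ordV_mul hv hx (inv_ne_zero h),
          ordV_inv hv h, h1]
        omega
      · rintro ⟨c, hc, rfl⟩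
        have hc0 : c ≠ 0 := by
          rintro rfl
          exact hx (mul_zero π)
        rw [ordV_mul hv h hc0, h1]
        have := (mem_iff_ordV hv hc0).1 hc
        omega

theorem discV_ne_top (hv : IsDiscV v) : v ≠ ⊤ := by
  rintro rfl
  obtain ⟨π, hπ, -⟩ := hv
  exact (tord_unif_mem hπ).2 (ValuationSubring.mem_top _)

theorem discV_maximal (hv : IsDiscV v) {v' : ValuationSubring F} (h : ∀ t ∈ v, t ∈ v') :
    v' = v ∨ v' = ⊤ := by
  by_cases h1 : ∀ t ∈ v', t ∈ v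
  · left
    exact le_antisymm h1 h
  · right
    push Not at h1
    obtain ⟨t, ht, ht'⟩ := h1
    obtain ⟨π, hπ, hd⟩ := hv
    have ht0 : t ≠ 0 := by
      rintro rfl
      exact ht' v.zero_mem
    obtain ⟨a, u, hu, rfl⟩ := hd t ht0
    rw [tord_mem_iff hπ hu] at ht'
    have hπ' : π⁻¹ ∈ v' := by
      obtain ⟨m, rfl⟩ : ∃ m : ℕ, a = -((m : ℤ) + 1) := ⟨(-a - 1).toNat, by omega⟩
      rw [tord_inv_eq hπ.1 u m]
      exact v'.mul_mem _ _ (v'.mul_mem _ _ (pow_mem (h _ (tord_unif_mem hπ).1) m) ht) (h _ hu.2)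
    rw [eq_top_iff]
    intro s _
    by_cases hs : s = 0
    · rw [hs]; exact v'.zero_mem
    obtain ⟨b, w, hw, rfl⟩ := hd s hs
    refine v'.mul_mem _ _ ?_ (h _ hw.1)
    cases b with
    | ofNat m =>
      rw [Int.ofNat_eq_natCast, zpow_natCast]
      exact pow_mem (h _ (tord_unif_mem hπ).1) m
    | negSucc m =>
      rw [zpow_negSucc, ← inv_pow]
      exact pow_mem hπ' _

/-- the unit of `v` given by a unit of `F` in `v` -/
theorem tord_isUnit_iff {x : v} : IsUnit x ↔ (x : F) ≠ 0 ∧ (x : F)⁻¹ ∈ v := by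
  constructor
  · rintro ⟨u, rfl⟩
    have h1 : ((u : v) : F) * (((u⁻¹ : vˣ) : v) : F) = 1 := by
      have h2 : (u : v) * ((u⁻¹ : vˣ) : v) = 1 := u.mul_inv
      exact_mod_cast congrArg (Subtype.val) h2
    have h3 : ((u : v) : F) ≠ 0 := left_ne_zero_of_mul_eq_one h1
    refine ⟨h3, ?_⟩
    have h4 : ((u : v) : F)⁻¹ = (((u⁻¹ : vˣ) : v) : F) := (eq_inv_of_mul_eq_one_right h1).symm
    rw [h4]
    exact SetLike.coe_mem _
  · rintro ⟨h1, h2⟩
    refine IsUnit.of_mul_eq_one ⟨(x : F)⁻¹, h2⟩ ?_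
    apply Subtype.ext
    change (x : F) * (x : F)⁻¹ = 1
    exact mul_inv_cancel₀ h1

theorem isDiscV_iff : IsDiscV v ↔ IsDiscreteValuationRing v := by
  constructor
  · intro hv
    obtain ⟨π, hπ, hd⟩ := hv
    obtain ⟨h1, h2⟩ := tord_unif_mem hπ
    apply IsDiscreteValuationRing.ofHasUnitMulPowIrreducibleFactorization
    refine ⟨⟨π, h1⟩, ?_, ?_⟩
    · constructor
      · intro h
        exact h2 (tord_isUnit_iff.1 h).2
      · rintro ⟨a, ha⟩ ⟨b, hb⟩ hab
        have hab' : π = a * b := congrArg Subtype.val hab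
        by_contra hcon
        push Not at hcon
        obtain ⟨hna, hnb⟩ := hcon
        have key : ∀ x : v, ¬ IsUnit x → ∃ c ∈ v, (x : F) = π * c := by
          intro x hx
          apply (hπ.2 _).1
          rw [tord_nonunits_iff]
          by_cases hx0 : (x : F) = 0
          · exact Or.inl hx0
          · right
            refine ⟨x.2, fun h => hx ?_⟩
            exact tord_isUnit_iff.2 ⟨hx0, h⟩
        obtain ⟨c, hc, hc'⟩ := key _ hna
        obtain ⟨d, hd', hd''⟩ := key _ hnb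
        change a = π * c at hc'
        change b = π * d at hd''
        apply h2
        have h3 : π * (π * (c * d)) = π * 1 := by
          rw [mul_one]
          calc π * (π * (c * d)) = (π * c) * (π * d) := by ring
            _ = π := by rw [← hc', ← hd'', ← hab']
        have h4 := mul_left_cancel₀ hπ.1 h3
        rw [inv_eq_of_mul_eq_one_right h4]
        exact v.mul_mem _ _ hc hd'
    · intro x hx
      have hx0 : (x : F) ≠ 0 := fun h => hx (Subtype.ext h)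
      obtain ⟨n, u, hu, hn⟩ := hd _ hx0
      have hn0 : 0 ≤ n := by
        rw [← tord_mem_iff hπ hu, ← hn]
        exact x.2
      obtain ⟨m, rfl⟩ : ∃ m : ℕ, n = m := ⟨n.toNat, by omega⟩
      refine ⟨m, ?_⟩
      have hU : IsUnit (⟨(u : F), hu.1⟩ : v) := by
        rw [tord_isUnit_iff]
        refine ⟨u.ne_zero, ?_⟩
        change (u : F)⁻¹ ∈ v
        rw [← Units.val_inv_eq_inv_val]
        exact hu.2
      obtain ⟨U, hU'⟩ := hU
      refine ⟨U, ?_⟩
      apply Subtype.ext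
      rw [hU']
      change π ^ m * (u : F) = (x : F)
      rw [hn, zpow_natCast]
  · intro hv
    obtain ⟨ϖ, hϖ⟩ := IsDiscreteValuationRing.exists_irreducible v
    have hϖ0 : (ϖ : F) ≠ 0 := fun h => hϖ.ne_zero (Subtype.ext h)
    have hmem : ∀ x : v, x ≠ 0 → ∃ (n : ℕ) (u : Fˣ), UnitIn v u ∧ (x : F) = (ϖ : F) ^ n * u := by
      intro x hx
      obtain ⟨n, hn⟩ := IsDiscreteValuationRing.associated_pow_irreducible hx hϖ
      obtain ⟨u, hu⟩ := hn.symm
      have h1 := tord_isUnit_iff.1 u.isUnit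
      refine ⟨n, Units.mk0 ((u : v) : F) h1.1, ⟨(u : v).2, ?_⟩, ?_⟩
      · rw [Units.val_inv_eq_inv_val]
        exact h1.2
      · rw [← hu]
        rfl
    have hd : ∀ t : F, t ≠ 0 → ∃ (n : ℤ) (u : Fˣ), UnitIn v u ∧ t = (ϖ : F) ^ n * u := by
      intro t ht
      rcases v.mem_or_inv_mem t with h | h
      · obtain ⟨n, u, hu, h1⟩ := hmem ⟨t, h⟩ fun h0 => ht (congrArg Subtype.val h0)
        refine ⟨n, u, hu, ?_⟩
        rw [zpow_natCast]
        exact h1
      · obtain ⟨n, u, hu, h1⟩ := hmem ⟨t⁻¹, h⟩ fun h0 =>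
          (inv_ne_zero ht) (congrArg Subtype.val h0)
        refine ⟨-n, u⁻¹, tord_unitIn_inv hu, ?_⟩
        change t⁻¹ = (ϖ : F) ^ n * u at h1
        rw [zpow_neg, zpow_natCast, Units.val_inv_eq_inv_val, ← mul_inv, ← h1, inv_inv]
    refine ⟨ϖ, ⟨hϖ0, fun x => ?_⟩, hd⟩
    have hϖu : (ϖ : F)⁻¹ ∉ v := fun h => hϖ.not_isUnit (tord_isUnit_iff.2 ⟨hϖ0, h⟩)
    constructor
    · intro hx
      rcases tord_nonunits_iff.1 hx with h | ⟨h1, h2⟩
      · exact ⟨0, v.zero_mem, by rw [h, mul_zero]⟩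
      · have hx0 : x ≠ 0 := by
          rintro rfl
          apply h2
          rw [inv_zero]
          exact v.zero_mem
        obtain ⟨n, u, hu, hn⟩ := hmem ⟨x, h1⟩ fun h0 => hx0 (congrArg Subtype.val h0)
        change x = (ϖ : F) ^ n * u at hn
        cases n with
        | zero =>
          exfalso
          apply h2
          rw [hn, pow_zero, one_mul, ← Units.val_inv_eq_inv_val]
          exact hu.2
        | succ m =>
          refine ⟨(ϖ : F) ^ m * u, v.mul_mem _ _ (pow_mem ϖ.2 m) hu.1, ?_⟩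
          rw [hn, pow_succ]
          ring
    · rintro ⟨c, hc, rfl⟩
      by_cases hc0 : c = 0
      · rw [hc0, mul_zero]
        exact tord_nonunits_iff.2 (Or.inl rfl)
      · refine tord_nonunits_iff.2 (Or.inr ⟨v.mul_mem _ _ ϖ.2 hc, fun h => hϖu ?_⟩)
        have h1 : (ϖ : F)⁻¹ = c * ((ϖ : F) * c)⁻¹ := by
          rw [mul_inv]
          field_simp
        rw [h1]
        exact v.mul_mem _ _ hc h

end Pool.Agent.K1
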