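import Pool.Agent.K1.TDefs

/-!
The places of a curve, from its normalization.
-/

set_option autoImplicit false

open IsDedekindDomain

namespace Pool.Agent.K1

section tpl

variable {D F : Type} [CommRing D] [IsDedekindDomain D] [Field F] [Algebra D F]
  [IsFractionRing D F]

theorem tpl_mem (P : HeightOneSpectrum D) (x : F) :
    x ∈ (P.valuation F).valuationSubring ↔ P.valuation F x ≤ 1 := Iff.rfl

theorem tpl_nonunit (P : HeightOneSpectrum D) (x : F) :
    x ∈ (P.valuation F).valuationSubring.nonunits ↔ P.valuation F x < 1 := by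
  rw [ValuationSubring.mem_nonunits_iff]
  exact (Valuation.isEquiv_valuation_valuationSubring (P.valuation F)).lt_one_iff_lt_one.symm

theorem tpl_alg_nonunit (P : HeightOneSpectrum D) (d : D) :
    algebraMap D F d ∈ (P.valuation F).valuationSubring.nonunits ↔ d ∈ P.asIdeal := by
  rw [tpl_nonunit, HeightOneSpectrum.valuation_lt_one_iff_mem]

theorem tpl_alg_mem (P : HeightOneSpectrum D) (d : D) :
    algebraMap D F d ∈ (P.valuation F).valuationSubring :=
  P.valuation_le_one d

theorem tpl_ne_top (P : HeightOneSpectrum D) : (P.valuation F).valuationSubring ≠ ⊤ := by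
  rw [ne_eq, Valuation.valuationSubring_eq_top_iff, not_not]
  infer_instance

theorem tpl_lt_one {x : WithZero (Multiplicative ℤ)} :
    x < 1 ↔ x ≤ WithZero.exp (-1 : ℤ) := by
  rcases eq_or_ne x 0 with rfl | hx
  · simp
  · rw [← WithZero.exp_log hx, ← WithZero.exp_zero, WithZero.exp_lt_exp, WithZero.exp_le_exp]
    omega

theorem tpl_unitIn (P : HeightOneSpectrum D) (t : Fˣ) :
    UnitIn (P.valuation F).valuationSubring t ↔ P.valuation F t = 1 := by
  have h0 : P.valuation F (t : F) ≠ 0 := (Valuation.ne_zero_iff _).2 t.ne_zero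
  unfold UnitIn
  rw [tpl_mem, tpl_mem, Units.val_inv_eq_inv_val, map_inv₀]
  constructor
  · rintro ⟨h1, h2⟩
    exact le_antisymm h1 ((inv_le_one₀ (zero_lt_iff.2 h0)).1 h2)
  · intro h
    rw [h]
    simp

theorem tpl_unif (P : HeightOneSpectrum D) (π : F) :
    IsUnifV (P.valuation F).valuationSubring π ↔ P.valuation F π = WithZero.exp (-1 : ℤ) := by
  obtain ⟨ϖ, hϖ⟩ := P.valuation_exists_uniformizer F
  constructor
  · rintro ⟨h0, h⟩
    apply le_antisymm
    · rw [← tpl_lt_one, ← tpl_nonunit]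
      exact (h π).2 ⟨1, (P.valuation F).valuationSubring.one_mem, (mul_one π).symm⟩
    · obtain ⟨c, hc, hcc⟩ := (h ϖ).1 (by
        rw [tpl_nonunit, tpl_lt_one, hϖ])
      rw [← hϖ, hcc, map_mul]
      exact mul_le_of_le_one_right' hc
  · intro h
    have h0 : π ≠ 0 := by
      rintro rfl
      rw [map_zero] at h
      exact WithZero.exp_ne_zero h.symm
    refine ⟨h0, fun x => ?_⟩
    rw [tpl_nonunit, tpl_lt_one]
    constructor
    · intro hx
      refine ⟨x / π, ?_, by field_simp⟩
      rw [tpl_mem, map_div₀, h]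
      exact div_le_one_of_le₀ hx zero_le
    · rintro ⟨c, hc, rfl⟩
      rw [map_mul, h]
      exact mul_le_of_le_one_right' hc

theorem tpl_disc (P : HeightOneSpectrum D) : IsDiscV (P.valuation F).valuationSubring := by
  obtain ⟨π, hπ⟩ := P.valuation_exists_uniformizer F
  have hu := (tpl_unif P π).2 hπ
  refine ⟨π, hu, fun t ht => ?_⟩
  have h0 : P.valuation F t ≠ 0 := (Valuation.ne_zero_iff _).2 ht
  have hpi : π ^ (-(WithZero.log (P.valuation F t))) ≠ 0 := zpow_ne_zero _ hu.1
  refine ⟨-(WithZero.log (P.valuation F t)),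
    Units.mk0 (t / π ^ (-(WithZero.log (P.valuation F t)))) (div_ne_zero ht hpi), ?_, ?_⟩
  · rw [tpl_unitIn, Units.val_mk0, map_div₀, map_zpow₀, hπ]
    nth_rewrite 1 [← WithZero.exp_log h0]
    rw [← WithZero.exp_zsmul]
    simp
  · rw [Units.val_mk0, mul_div_cancel₀ _ hpi]

theorem tpl_ordV (P : HeightOneSpectrum D) (t : F) (ht : t ≠ 0) :
    ordV (P.valuation F).valuationSubring t = -(WithZero.log (P.valuation F t)) := by
  have hex : ∃ n : ℤ, ∃ (π : F) (u : Fˣ), IsUnifV (P.valuation F).valuationSubring π ∧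
      UnitIn (P.valuation F).valuationSubring u ∧ t = π ^ n * u := by
    obtain ⟨π, hπ, h⟩ := tpl_disc (F := F) P
    obtain ⟨n, u, hu, rfl⟩ := h t ht
    exact ⟨n, π, u, hπ, hu, rfl⟩
  have h1 : ordV (P.valuation F).valuationSubring t = hex.choose := dif_pos hex
  obtain ⟨π, u, hπ, hu, htt⟩ := hex.choose_spec
  rw [h1]
  generalize hex.choose = n at htt
  rw [tpl_unif] at hπ
  rw [tpl_unitIn] at hu
  rw [htt, map_mul, map_zpow₀, hπ, hu, mul_one, ← WithZero.exp_zsmul]
  simp

theorem tpl_exists (v : ValuationSubring F) (hv : v ≠ ⊤) (hD : ∀ d, algebraMap D F d ∈ v) :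
    ∃ P : HeightOneSpectrum D, v = (P.valuation F).valuationSubring := by
  let f : D →+* v := (algebraMap D F).codRestrict v.toSubring hD
  have hf : ∀ d, ((f d : v) : F) = algebraMap D F d := fun d => rfl
  have hmem : ∀ d, d ∈ (IsLocalRing.maximalIdeal v).comap f ↔
      algebraMap D F d ∈ v.nonunits := by
    intro d
    rw [Ideal.mem_comap, ← hf d]
    exact ValuationSubring.coe_mem_nonunits_iff.symm
  have hinv : ∀ d : D, algebraMap D F d ∉ v.nonunits → (algebraMap D F d)⁻¹ ∈ v := by
    intro d hd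
    rw [ValuationSubring.mem_nonunits_iff_or, not_or, not_not] at hd
    exact hd.2
  have hbot : (IsLocalRing.maximalIdeal v).comap f ≠ ⊥ := by
    intro hb
    apply hv
    rw [eq_top_iff]
    intro x _
    obtain ⟨a, b, hb0, rfl⟩ := IsFractionRing.div_surjective (A := D) x
    have hb1 : b ≠ 0 := nonZeroDivisors.ne_zero hb0
    have : algebraMap D F b ∉ v.nonunits := by
      rw [← hmem, hb]
      exact hb1
    rw [div_eq_mul_inv]
    exact v.mul_mem _ _ (hD a) (hinv b this)
  let P : HeightOneSpectrum D := ⟨(IsLocalRing.maximalIdeal v).comap f,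
    Ideal.comap_isPrime _ _, hbot⟩
  refine ⟨P, ?_⟩
  have hle : HeightOneSpectrum.valuationSubringAtPrime F P ≤ v := by
    rw [HeightOneSpectrum.valuationSubringAtPrime_eq_valuationSubring]
    intro x hx
    obtain ⟨n, d, hnd⟩ := P.exists_primeCompl_mul_eq_of_integer (K := F) x hx
    have h1 : algebraMap D F d ∉ v.nonunits := by
      rw [← hmem]
      exact d.2
    have h2 : algebraMap D F d ≠ 0 := by
      intro h
      apply h1
      rw [h]
      exact v.nonunits.zero_mem
    have h3 : x = algebraMap D F n * (algebraMap D F d)⁻¹ := by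
      rw [← hnd, mul_assoc, mul_inv_cancel₀ h2, mul_one]
    rw [h3]
    exact v.mul_mem _ _ (hD n) (hinv _ h1)
  have h4 := ValuationSubring.eq_of_le_of_ne_top _ hle hv
  rw [← h4, HeightOneSpectrum.valuationSubringAtPrime_eq_valuationSubring]

end tpl

theorem places_basic {k A F : Type} [Field k] [IsAlgClosed k] [CommRing A] [Algebra k A]
    [Algebra.FiniteType k A] [Field F] (ρ : A →+* F) (hρ : IsFrac ρ)
    (D : Type) [CommRing D] [IsDedekindDomain D] [Algebra D F] [IsFractionRing D F]
    (δ : A →+* D) (hδ : ∀ a, algebraMap D F (δ a) = ρ a) (hfin : δ.Finite) (hD : ¬ IsField D) :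
    (∀ v : ValuationSubring F, v ≠ ⊤ → (∀ a, ρ a ∈ v) → IsDiscV v) ∧
    (∀ v : ValuationSubring F, v ≠ ⊤ → (∀ a, ρ a ∈ v) → ∀ t ∈ v,
      ∃ c : k, t - ρ (algebraMap k A c) ∈ v.nonunits) ∧
    (∀ v : ValuationSubring F, v ≠ ⊤ → (∀ a, ρ a ∈ v) → ∃ z : A →ₐ[k] k, CentredAt ρ v z) ∧
    (∀ z : A →ₐ[k] k, (∀ a, ρ a = 0 → z a = 0) →
      ∃ v : ValuationSubring F, v ≠ ⊤ ∧ CentredAt ρ v z) ∧
    (∀ t : Fˣ, {v : ValuationSubring F | v ≠ ⊤ ∧ (∀ a, ρ a ∈ v) ∧ ¬ UnitIn v t}.Finite) ∧
    (∀ z : A →ₐ[k] k, {v : ValuationSubring F | v ≠ ⊤ ∧ CentredAt ρ v z}.Finite) ∧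
    (∀ (S : Finset (ValuationSubring F)) (c : ValuationSubring F → k),
      (∀ v ∈ S, v ≠ ⊤ ∧ ∀ a, ρ a ∈ v) →
      ∃ a : F, (∀ v : ValuationSubring F, (∀ b, ρ b ∈ v) → a ∈ v) ∧
        ∀ v ∈ S, ordV v (a - ρ (algebraMap k A (c v))) = 1) := by
  have hinjD : Function.Injective (algebraMap D F) := IsFractionRing.injective D F
  have hint : δ.IsIntegral := hfin.to_isIntegral
  -- a valuation ring containing `A` contains `D`
  have hmemD : ∀ v : ValuationSubring F, (∀ a, ρ a ∈ v) → ∀ d, algebraMap D F d ∈ v := by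
    intro v hv d
    let g : A →+* v := ρ.codRestrict v.toSubring hv
    obtain ⟨f, hf, hfd⟩ := hint d
    have h1 : IsIntegral v (algebraMap D F d) := by
      refine ⟨f.map g, hf.map g, ?_⟩
      rw [Polynomial.eval₂_map]
      have h2 : (algebraMap v F).comp g = (algebraMap D F).comp δ := by
        ext a
        change ρ a = algebraMap D F (δ a)
        rw [hδ]
      rw [h2, ← Polynomial.hom_eval₂, hfd, map_zero]
    obtain ⟨y, hy⟩ := (isIntegrallyClosed_iff F).1 (inferInstance : IsIntegrallyClosed v) h1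
    rw [← hy]
    exact y.2
  -- the places are the primes of `D`
  have hclass : ∀ v : ValuationSubring F, v ≠ ⊤ → (∀ a, ρ a ∈ v) →
      ∃ P : HeightOneSpectrum D, v = (P.valuation F).valuationSubring :=
    fun v hv hva => tpl_exists v hv (hmemD v hva)
  have hA : ∀ (P : HeightOneSpectrum D) (a : A), ρ a ∈ (P.valuation F).valuationSubring := by
    intro P a
    rw [← hδ]
    exact tpl_alg_mem P _
  -- the residue fields
  let _ : Algebra k D := (δ.comp (algebraMap k A)).toAlgebra
  have hkD : ∀ c : k, algebraMap k D c = δ (algebraMap k A c) := fun c => rfl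
  have hft : Algebra.FiniteType k D := by
    have h1 : (algebraMap k A).FiniteType := RingHom.finiteType_algebraMap.2 inferInstance
    have h2 : (δ.comp (algebraMap k A)).FiniteType := hfin.finiteType.comp h1
    exact h2
  have hbij : ∀ P : HeightOneSpectrum D, Function.Bijective (algebraMap k (D ⧸ P.asIdeal)) := by
    intro P
    have hmax : P.asIdeal.IsMaximal := P.isMaximal
    let _ : Field (D ⧸ P.asIdeal) := Ideal.Quotient.field _
    have h1 : Algebra.FiniteType k (D ⧸ P.asIdeal) := inferInstance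
    have h2 : Module.Finite k (D ⧸ P.asIdeal) := finite_of_finite_type_of_isJacobsonRing k _
    exact IsAlgClosed.algebraMap_bijective_of_isIntegral
  have hres : ∀ (P : HeightOneSpectrum D) (d : D), ∃ c : k,
      d - algebraMap k D c ∈ P.asIdeal := by
    intro P d
    obtain ⟨c, hc⟩ := (hbij P).2 (Ideal.Quotient.mk _ d)
    refine ⟨c, ?_⟩
    rw [← Ideal.Quotient.eq, ← hc]
    rfl
  have hfinP : ∀ d : D, d ≠ 0 → {v : ValuationSubring F | ∃ P : HeightOneSpectrum D,
      v = (P.valuation F).valuationSubring ∧ d ∈ P.asIdeal}.Finite := by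
    intro d hd
    have h1 := Ideal.finite_factors (I := Ideal.span {d}) (by
      rw [Ideal.zero_eq_bot, Ne, Ideal.span_singleton_eq_bot]
      exact hd)
    refine (h1.image fun P => (P.valuation F).valuationSubring).subset ?_
    rintro v ⟨P, rfl, hP⟩
    refine ⟨P, ?_, rfl⟩
    rw [Set.mem_ofPred_eq, Ideal.dvd_span_singleton]
    exact hP
  refine ⟨?_, ?_, ?_, ?_, ?_, ?_, ?_⟩
  · intro v hv hva
    obtain ⟨P, rfl⟩ := hclass v hv hva
    exact tpl_disc P
  · intro v hv hva t ht
    obtain ⟨P, rfl⟩ := hclass v hv hva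
    obtain ⟨n, d, hnd⟩ := P.exists_primeCompl_mul_eq_of_integer (K := F) t ht
    obtain ⟨c1, hc1⟩ := hres P n
    obtain ⟨c2, hc2⟩ := hres P d
    have hc20 : c2 ≠ 0 := by
      rintro rfl
      rw [map_zero, sub_zero] at hc2
      exact d.2 hc2
    refine ⟨c1 / c2, ?_⟩
    have h1 : n - algebraMap k D (c1 / c2) * d ∈ P.asIdeal := by
      have h2 : n - algebraMap k D (c1 / c2) * d = (n - algebraMap k D c1) -
          algebraMap k D (c1 / c2) * (d - algebraMap k D c2) := by
        rw [mul_sub, ← map_mul, div_mul_cancel₀ _ hc20]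
        ring
      rw [h2]
      exact P.asIdeal.sub_mem hc1 (P.asIdeal.mul_mem_left _ hc2)
    have hd1 : P.valuation F (algebraMap D F d) = 1 :=
      P.valuation_eq_one_iff_notMem.2 d.2
    rw [tpl_nonunit]
    replace h1 : P.valuation F (algebraMap D F (n - algebraMap k D (c1 / c2) * d)) < 1 :=
      (P.valuation_lt_one_iff_mem (K := F) _).2 h1
    have h3 : algebraMap D F (n - algebraMap k D (c1 / c2) * d) =
        (t - ρ (algebraMap k A (c1 / c2))) * algebraMap D F d := by
      rw [map_sub, map_mul, ← hnd, hkD, hδ]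
      ring
    rw [h3, map_mul, hd1, mul_one] at h1
    exact h1
  · intro v hv hva
    obtain ⟨P, rfl⟩ := hclass v hv hva
    let e : k ≃ₐ[k] (D ⧸ P.asIdeal) :=
      AlgEquiv.ofBijective (Algebra.ofId k (D ⧸ P.asIdeal)) (hbij P)
    let δk : A →ₐ[k] D := { δ with commutes' := fun r => rfl }
    refine ⟨(e.symm.toAlgHom.comp (Ideal.Quotient.mkₐ k P.asIdeal)).comp δk, fun a => ⟨hA P a, ?_⟩⟩
    intro ha
    have h1 : e.symm (Ideal.Quotient.mk P.asIdeal (δ a)) = 0 := ha
    have h2 : Ideal.Quotient.mk P.asIdeal (δ a) = 0 := by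
      have := congrArg e h1
      rwa [AlgEquiv.apply_symm_apply, map_zero] at this
    rw [Ideal.Quotient.eq_zero_iff_mem] at h2
    rw [← hδ, tpl_alg_nonunit]
    exact h2
  · intro z hz
    let _ : Algebra A D := δ.toAlgebra
    have hI : Algebra.IsIntegral A D := ⟨hint⟩
    have hzmax : (RingHom.ker z).IsMaximal := RingHom.ker_isMaximal_of_surjective z (fun c =>
      ⟨algebraMap k A c, z.commutes c⟩)
    obtain ⟨Q, hQ, hQz⟩ := Ideal.exists_ideal_over_maximal_of_isIntegral (S := D)
      (RingHom.ker z) (by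
        intro a ha
        refine hz a ?_
        rw [← hδ]
        have : δ a = 0 := ha
        rw [this, map_zero])
    let P : HeightOneSpectrum D := ⟨Q, hQ.isPrime, Ring.ne_bot_of_isMaximal_of_not_isField hQ hD⟩
    refine ⟨(P.valuation F).valuationSubring, tpl_ne_top P, fun a => ⟨hA P a, fun ha => ?_⟩⟩
    rw [← hδ, tpl_alg_nonunit]
    have h1 : a ∈ Q.comap (algebraMap A D) := by
      rw [hQz]
      exact ha
    exact h1
  · intro t
    obtain ⟨n, d, hd0, hnd⟩ := IsFractionRing.div_surjective (A := D) (t : F)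
    have hd : d ≠ 0 := nonZeroDivisors.ne_zero hd0
    have hn : n ≠ 0 := by
      rintro rfl
      rw [map_zero, zero_div] at hnd
      exact t.ne_zero hnd.symm
    refine (hfinP (n * d) (mul_ne_zero hn hd)).subset ?_
    rintro v ⟨hv, hva, hu⟩
    obtain ⟨P, rfl⟩ := hclass v hv hva
    refine ⟨P, rfl, ?_⟩
    by_contra hP
    have h1 : n ∉ P.asIdeal := fun h => hP (P.asIdeal.mul_mem_right _ h)
    have h2 : d ∉ P.asIdeal := fun h => hP (P.asIdeal.mul_mem_left _ h)
    apply hu
    rw [tpl_unitIn, ← hnd, map_div₀, P.valuation_eq_one_iff_notMem.2 h1,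
      P.valuation_eq_one_iff_notMem.2 h2, div_one]
  · intro z
    have hzmax : (RingHom.ker z).IsMaximal := RingHom.ker_isMaximal_of_surjective z (fun c =>
      ⟨algebraMap k A c, z.commutes c⟩)
    by_cases hz : ∃ a, z a = 0 ∧ δ a ≠ 0
    · obtain ⟨a, ha, hδa⟩ := hz
      refine (hfinP (δ a) hδa).subset ?_
      rintro v ⟨hv, hvz⟩
      obtain ⟨P, rfl⟩ := hclass v hv fun b => (hvz b).1
      refine ⟨P, rfl, ?_⟩
      have h1 := (hvz a).2 ha
      rwa [← hδ, tpl_alg_nonunit] at h1
    · exfalso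
      push Not at hz
      have h1 : (⊥ : Ideal D).comap δ = RingHom.ker z := by
        have h2 : RingHom.ker z ≤ (⊥ : Ideal D).comap δ := fun a ha => hz a ha
        refine (hzmax.eq_of_le ?_ h2).symm
        exact Ideal.comap_ne_top _ bot_ne_top
      have h2 : ((⊥ : Ideal D).comap δ).IsMaximal := by
        rw [h1]
        exact hzmax
      have h3 : (⊥ : Ideal D).IsMaximal :=
        Ideal.isMaximal_of_isIntegral_of_isMaximal_comap' δ hint ⊥ h2
      exact Ring.ne_bot_of_isMaximal_of_not_isField h3 hD rfl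
  · intro S c hS
    have hne : Nonempty (HeightOneSpectrum D) := by
      obtain ⟨m, hm⟩ := Ideal.exists_maximal D
      exact ⟨⟨m, hm.isPrime, Ring.ne_bot_of_isMaximal_of_not_isField hm hD⟩⟩
    choose! P hP using fun v (hv : v ∈ S) => hclass v (hS v hv).1 (hS v hv).2
    choose! π hπ using fun v (_ : v ∈ S) => (P v).valuation_exists_uniformizer' F
    obtain ⟨y, hy⟩ := IsDedekindDomain.exists_forall_sub_mem_ideal (s := S)
      (fun v => (P v).asIdeal) (fun _ => 2) (fun v _ => (P v).prime)
      (fun v hv w hw hvw h => hvw (by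
        rw [hP v hv, hP w hw, HeightOneSpectrum.ext h]))
      (fun v => algebraMap k D (c v) + π v)
    refine ⟨algebraMap D F y, fun v hv => hmemD v hv y, fun v hv => ?_⟩
    have h1 := hy v hv
    have h2 : algebraMap D F y - ρ (algebraMap k A (c v)) = algebraMap D F (π v) +
        algebraMap D F (y - (algebraMap k D (c v) + π v)) := by
      rw [← hδ, ← hkD, map_sub, map_add]
      ring
    have h3 : (P v).valuation F (algebraMap D F (y - (algebraMap k D (c v) + π v))) <
        (P v).valuation F (algebraMap D F (π v)) := by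
      have h4 := ((P v).intValuation_le_pow_iff_mem _ 2).2 h1
      rw [hπ v hv, HeightOneSpectrum.valuation_of_algebraMap]
      refine lt_of_le_of_lt h4 ?_
      rw [WithZero.exp_lt_exp]
      norm_num
    have h5 : (P v).valuation F (algebraMap D F y - ρ (algebraMap k A (c v))) =
        WithZero.exp (-1 : ℤ) := by
      rw [h2, Valuation.map_add_eq_of_lt_left _ h3, hπ v hv]
    have h6 : algebraMap D F y - ρ (algebraMap k A (c v)) ≠ 0 := by
      intro h
      rw [h, map_zero] at h5
      exact WithZero.exp_ne_zero h5.symm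
    have h7 := tpl_ordV (P v) _ h6
    rw [← hP v hv] at h7
    rw [h7, h5]
    simp

end Pool.Agent.K1
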