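import Pool.Agent.K1.BDom

/-!
Descent, row U-15a: finiteness of the integral closure of a domain of finite type over a perfect
field, and valuation rings over a point, for rings of finite type over a perfect field.
-/

set_option autoImplicit false

namespace Pool.Agent.K1

private theorem u15_frob {k : Type*} [Field k] [PerfectField k] (p : ℕ) [ExpChar k p]
    (e d : ℕ) [ExpChar (MvPolynomial (Fin d) k) p] :
    (iterateFrobenius (MvPolynomial (Fin d) k) p e).Finite := by
  have hq : 0 < p ^ e := pow_pos (expChar_pos k p) e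
  apply RingHom.IsIntegral.to_finite
  · intro x
    refine ⟨Polynomial.X ^ (p ^ e) - Polynomial.C x, Polynomial.monic_X_pow_sub_C _ hq.ne', ?_⟩
    simp [iterateFrobenius_def]
  · let ψ : MvPolynomial (Fin d) (MvPolynomial (Fin d) k) →+* MvPolynomial (Fin d) k :=
      MvPolynomial.eval₂Hom (iterateFrobenius (MvPolynomial (Fin d) k) p e) MvPolynomial.X
    have hψ : Function.Surjective ψ := by
      intro x
      induction x using MvPolynomial.induction_on with
      | C a =>
        obtain ⟨b, hb⟩ := (bijective_iterateFrobenius k p e).2 a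
        rw [iterateFrobenius_def] at hb
        refine ⟨MvPolynomial.C (MvPolynomial.C b), ?_⟩
        simp only [ψ, MvPolynomial.eval₂Hom_C]
        rw [iterateFrobenius_def, ← map_pow, hb]
      | add x y hx hy =>
        obtain ⟨a, ha⟩ := hx
        obtain ⟨b, hb⟩ := hy
        exact ⟨a + b, by rw [map_add, ha, hb]⟩
      | mul_X x i hx =>
        obtain ⟨a, ha⟩ := hx
        refine ⟨a * MvPolynomial.X i, ?_⟩
        rw [map_mul, ha]
        simp [ψ]
    have h1 : (iterateFrobenius (MvPolynomial (Fin d) k) p e) =
        ψ.comp (algebraMap (MvPolynomial (Fin d) k)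
          (MvPolynomial (Fin d) (MvPolynomial (Fin d) k))) := by
      ext x <;> simp [ψ, MvPolynomial.algebraMap_eq]
    rw [h1]
    exact RingHom.FiniteType.comp (RingHom.FiniteType.of_surjective ψ hψ)
      (RingHom.finiteType_algebraMap.mpr inferInstance)

theorem finite_integralClosure_perfect {k R K : Type*} [Field k] [PerfectField k] [CommRing R]
    [IsDomain R] [Algebra k R] [Algebra.FiniteType k R] [Field K] [Algebra R K]
    [IsFractionRing R K] : Module.Finite R (integralClosure R K) := by
  obtain ⟨d, g, ginj, gfin⟩ := exists_finite_inj_algHom_of_fg k R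
  obtain ⟨p, hp⟩ := ExpChar.exists k
  have hpB : ExpChar (MvPolynomial (Fin d) k) p := expChar_of_injective_algebraMap
    (FaithfulSMul.algebraMap_injective k _) p
  let _ : Algebra (MvPolynomial (Fin d) k) R := g.toRingHom.toAlgebra
  have : Module.Finite (MvPolynomial (Fin d) k) R := gfin
  let _ : Algebra (MvPolynomial (Fin d) k) K := ((algebraMap R K).comp g.toRingHom).toAlgebra
  have : IsScalarTower (MvPolynomial (Fin d) k) R K :=
    IsScalarTower.of_algebraMap_eq (fun _ => rfl)
  have : FaithfulSMul (MvPolynomial (Fin d) k) K :=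
    (faithfulSMul_iff_algebraMap_injective _ _).mpr ((IsFractionRing.injective R K).comp ginj)
  let _ : Algebra (FractionRing (MvPolynomial (Fin d) k)) K := FractionRing.liftAlgebra _ K
  have : IsScalarTower (MvPolynomial (Fin d) k) (FractionRing (MvPolynomial (Fin d) k)) K :=
    FractionRing.isScalarTower_liftAlgebra _ K
  have : Algebra.EssFiniteType R K :=
    Algebra.EssFiniteType.of_isLocalization K (nonZeroDivisors R)
  have : Algebra.EssFiniteType (MvPolynomial (Fin d) k) K :=
    Algebra.EssFiniteType.comp (MvPolynomial (Fin d) k) R K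
  have : Algebra.EssFiniteType (FractionRing (MvPolynomial (Fin d) k)) K :=
    Algebra.EssFiniteType.of_comp (MvPolynomial (Fin d) k) _ K
  have : Algebra.IsAlgebraic (MvPolynomial (Fin d) k) R := inferInstance
  have : Algebra.IsAlgebraic R K := IsLocalization.isAlgebraic K (nonZeroDivisors R)
  have : Algebra.IsAlgebraic (MvPolynomial (Fin d) k) K :=
    Algebra.IsAlgebraic.trans (MvPolynomial (Fin d) k) R K
  have : Algebra.IsAlgebraic (FractionRing (MvPolynomial (Fin d) k)) K :=
    (IsFractionRing.comap_isAlgebraic_iff (A := MvPolynomial (Fin d) k)).mp inferInstance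
  have : Module.Finite (FractionRing (MvPolynomial (Fin d) k)) K :=
    Algebra.finite_of_essFiniteType_of_isAlgebraic
  have h1 : Module.Finite (MvPolynomial (Fin d) k)
      (integralClosure (MvPolynomial (Fin d) k) K) :=
    finInt_aux2 (L := FractionRing (MvPolynomial (Fin d) k)) p (fun e => u15_frob p e d)
  have hint : ∀ x : K, IsIntegral R x → IsIntegral (MvPolynomial (Fin d) k) x :=
    fun x hx => isIntegral_trans x hx
  let f : integralClosure R K →ₗ[MvPolynomial (Fin d) k]
      integralClosure (MvPolynomial (Fin d) k) K :=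
    { toFun := fun x => ⟨x, hint _ x.2⟩
      map_add' := fun _ _ => rfl
      map_smul' := fun _ _ => rfl }
  have h2 : Module.Finite (MvPolynomial (Fin d) k) (integralClosure R K) :=
    Module.Finite.of_injective f (fun x y hxy => Subtype.ext (by
      have := congrArg Subtype.val hxy
      exact this))
  exact Module.Finite.of_restrictScalars_finite (MvPolynomial (Fin d) k) R (integralClosure R K)

private theorem u15_val {k R K : Type*} [Field k] [PerfectField k] [CommRing R] [IsDomain R]
    [Algebra k R] [Algebra.FiniteType k R] [Field K] [Algebra R K] [IsFractionRing R K]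
    (p : Ideal R) [p.IsPrime] (hp : p.height = 1) :
    {V : ValuationSubring K | ∀ r : R, algebraMap R K r ∈ V ∧
      (r ∈ p ↔ algebraMap R K r ∈ V.nonunits)}.Finite ∧
    ∀ V : ValuationSubring K, (∀ r : R, algebraMap R K r ∈ V ∧
      (r ∈ p ↔ algebraMap R K r ∈ V.nonunits)) →
      IsDiscreteValuationRing V ∧
      ∃ φ : FractionRing (R ⧸ p) →+* IsLocalRing.ResidueField V,
        (∀ (r : R) (r' : V), (r' : K) = algebraMap R K r →
          φ (algebraMap (R ⧸ p) (FractionRing (R ⧸ p)) (Ideal.Quotient.mk p r)) =
            IsLocalRing.residue V r') ∧ φ.Finite := by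
  have hR : IsNoetherianRing R := Algebra.FiniteType.isNoetherianRing k R
  have hfin : Module.Finite R (integralClosure R K) := finite_integralClosure_perfect (k := k)
  have hC : IsNoetherianRing (integralClosure R K) := IsNoetherianRing.of_finite R _
  have halg : Algebra.IsAlgebraic R K := IsLocalization.isAlgebraic (R := R) (S := K) (nonZeroDivisors R)
  have hfr : IsFractionRing (integralClosure R K) K :=
    integralClosure.isFractionRing_of_algebraic
      (fun x hx => IsFractionRing.injective R K (by rw [hx, map_zero]))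
  have hic : IsIntegrallyClosed (integralClosure R K) := by
    rw [isIntegrallyClosed_iff_isIntegrallyClosedIn K]
    infer_instance
  constructor
  · classical
    let Q : ValuationSubring K → Ideal (integralClosure R K) := fun V =>
      if h : ∀ r : R, algebraMap R K r ∈ V ∧ (r ∈ p ↔ algebraMap R K r ∈ V.nonunits) then
        (bval_exists_q p hp V h).choose else ⊥
    have hQ : ∀ (V : ValuationSubring K) (h : ∀ r : R, algebraMap R K r ∈ V ∧
        (r ∈ p ↔ algebraMap R K r ∈ V.nonunits)),
        (Q V).IsPrime ∧ p = (Q V).comap (algebraMap R _) ∧ Q V ≠ ⊥ ∧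
      (∀ q' : Ideal (integralClosure R K), q'.IsPrime → q' ≠ ⊥ → q' ≤ Q V → q' = Q V) ∧
      ∀ c : integralClosure R K, algebraMap (integralClosure R K) K c ∈ V ∧
        (c ∈ Q V ↔ algebraMap (integralClosure R K) K c ∈ V.nonunits) := by
      intro V h
      have h1 : Q V = (bval_exists_q p hp V h).choose := by simp only [Q, dif_pos h]
      rw [h1]
      exact (bval_exists_q p hp V h).choose_spec
    refine Set.Finite.of_injOn (f := Q) (t := p.primesOver (integralClosure R K)) ?_ ?_
      (Algebra.QuasiFinite.finite_primesOver p)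
    · intro V hV
      obtain ⟨h1, h2, -⟩ := hQ V hV
      exact ⟨h1, ⟨h2⟩⟩
    · intro V hV W hW hVW
      obtain ⟨h1, -, h3, h4, h5⟩ := hQ V hV
      obtain ⟨-, -, -, -, h6⟩ := hQ W hW
      rw [← hVW] at h6
      ext x
      rw [bval_mem_iff (Q V) h3 h4 V h5 x, bval_mem_iff (Q V) h3 h4 W h6 x]
  · intro V hV
    obtain ⟨q, hq, hqp, hq0, hqmin, hqV⟩ := bval_exists_q p hp V hV
    refine ⟨bval_isDVR q hq0 hqmin V hqV, ?_⟩
    let ρ : R →+* V := (algebraMap R K).codRestrict V.toSubring (fun r => (hV r).1)
    let π : R →+* IsLocalRing.ResidueField V := (IsLocalRing.residue V).comp ρ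
    have hπ : ∀ r : R, π r = 0 ↔ r ∈ p := by
      intro r
      change IsLocalRing.residue V (ρ r) = 0 ↔ _
      rw [IsLocalRing.residue_eq_zero_iff, ← ValuationSubring.coe_mem_nonunits_iff, (hV r).2]
      rfl
    let ψ : R ⧸ p →+* IsLocalRing.ResidueField V :=
      Ideal.Quotient.lift p π (fun r hr => (hπ r).mpr hr)
    have hψ : Function.Injective ψ := by
      rw [injective_iff_map_eq_zero]
      intro x hx
      obtain ⟨r, rfl⟩ := Ideal.Quotient.mk_surjective x
      rw [Ideal.Quotient.eq_zero_iff_mem, ← hπ]
      exact hx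
    have hρ : ∀ (r : R) (r' : V), (r' : K) = algebraMap R K r → r' = ρ r :=
      fun r r' h => Subtype.ext h
    let φ : FractionRing (R ⧸ p) →+* IsLocalRing.ResidueField V := IsFractionRing.lift hψ
    have hφ : ∀ r : R, φ (algebraMap (R ⧸ p) (FractionRing (R ⧸ p)) (Ideal.Quotient.mk p r)) =
        π r := fun r => IsFractionRing.lift_algebraMap hψ _
    refine ⟨φ, ?_, ?_⟩
    · intro r r' h
      rw [hφ, hρ r r' h]
      rfl
    · let τ : integralClosure R K →+* V :=
        (algebraMap (integralClosure R K) K).codRestrict V.toSubring (fun c => (hqV c).1)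
      let σ : integralClosure R K →+* IsLocalRing.ResidueField V :=
        (IsLocalRing.residue V).comp τ
      have hσ : ∀ c, σ c = 0 ↔ c ∈ q := by
        intro c
        change IsLocalRing.residue V (τ c) = 0 ↔ _
        rw [IsLocalRing.residue_eq_zero_iff, ← ValuationSubring.coe_mem_nonunits_iff,
          (hqV c).2]
        rfl
      have hσπ : ∀ r : R, σ (algebraMap R _ r) = π r := fun r => rfl
      let _ : Algebra (FractionRing (R ⧸ p)) (IsLocalRing.ResidueField V) := φ.toAlgebra
      have hcomp : (algebraMap (FractionRing (R ⧸ p)) (IsLocalRing.ResidueField V)).comp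
          ((algebraMap (R ⧸ p) (FractionRing (R ⧸ p))).comp (Ideal.Quotient.mk p)) =
          σ.comp (algebraMap R _) := by
        ext r
        exact hφ r
      have hint : ∀ c, IsIntegral (FractionRing (R ⧸ p)) (σ c) := by
        intro c
        obtain ⟨f, hf, hfc⟩ := Algebra.IsIntegral.isIntegral (R := R) c
        refine ⟨f.map ((algebraMap (R ⧸ p) (FractionRing (R ⧸ p))).comp (Ideal.Quotient.mk p)),
          hf.map _, ?_⟩
        rw [Polynomial.eval₂_map, hcomp, ← Polynomial.hom_eval₂, hfc, map_zero]
      obtain ⟨S, hS⟩ := hfin.fg_top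
      let F : IntermediateField (FractionRing (R ⧸ p)) (IsLocalRing.ResidueField V) :=
        IntermediateField.adjoin _ (σ '' (S : Set (integralClosure R K)))
      have hFfin : FiniteDimensional (FractionRing (R ⧸ p)) F := by
        have : Finite (σ '' (S : Set (integralClosure R K))) := (S.finite_toSet.image σ).to_subtype
        apply IntermediateField.finiteDimensional_adjoin
        rintro _ ⟨c, -, rfl⟩
        exact hint c
      have hFσ : ∀ c, σ c ∈ F := by
        intro c
        have hc : c ∈ Submodule.span R (S : Set (integralClosure R K)) := by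
          rw [hS]
          trivial
        induction hc using Submodule.span_induction with
        | mem x hx => exact IntermediateField.subset_adjoin _ _ ⟨x, hx, rfl⟩
        | zero => rw [map_zero]; exact F.zero_mem
        | add x y _ _ hx hy => rw [map_add]; exact F.add_mem hx hy
        | smul r x _ hx =>
          rw [Algebra.smul_def, map_mul, hσπ, ← hφ]
          exact F.mul_mem (F.algebraMap_mem _) hx
      have htop : F = ⊤ := by
        rw [eq_top_iff]
        intro y _
        obtain ⟨v, rfl⟩ := IsLocalRing.residue_surjective y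
        obtain ⟨c, s, hs, h⟩ := (bval_mem_iff q hq0 hqmin V hqV v).mp v.2
        have h1 : v * τ s = τ c := Subtype.ext h
        have h2 : IsLocalRing.residue V v * σ s = σ c := by
          change IsLocalRing.residue V v * IsLocalRing.residue V (τ s) =
            IsLocalRing.residue V (τ c)
          rw [← map_mul, h1]
        have h3 : σ s ≠ 0 := fun h0 => hs ((hσ s).mp h0)
        have h4 : IsLocalRing.residue V v = σ c / σ s := by
          rw [eq_div_iff h3, h2]
        rw [h4]
        exact F.div_mem (hFσ c) (hFσ s)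
      rw [htop] at hFfin
      change Module.Finite (FractionRing (R ⧸ p)) (IsLocalRing.ResidueField V)
      exact Module.Finite.equiv
        (IntermediateField.topEquiv (F := FractionRing (R ⧸ p))
          (E := IsLocalRing.ResidueField V)).toLinearEquiv

theorem bdm_ring_perfect {k A K F : Type} [Field k] [PerfectField k] [CommRing A] [Algebra k A]
    [Algebra.FiniteType k A] [Field K] [Field F] (τ : A →+* K) (ρ : A →+* F) (hτ : IsFrac τ)
    (hρ : IsFrac ρ) (hle : RingHom.ker τ ≤ RingHom.ker ρ) (m : ℕ)
    (hm : (RingHom.ker τ).height = (m : ℕ∞)) (hm1 : (RingHom.ker ρ).height = ((m + 1 : ℕ) : ℕ∞)) :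
    {V : ValuationSubring K | DomR τ ρ V}.Finite ∧
    ∀ V : ValuationSubring K, DomR τ ρ V → IsDiscreteValuationRing V ∧
      ∃ φ : F →+* IsLocalRing.ResidueField V, IsRes τ ρ V φ ∧ φ.Finite := by
  classical
  let R := τ.range
  let q : A →+* R := τ.rangeRestrict
  have hq : Function.Surjective q := τ.rangeRestrict_surjective
  have hqk : RingHom.ker q = RingHom.ker τ := by
    ext a
    rw [RingHom.mem_ker, RingHom.mem_ker, Subtype.ext_iff]
    rfl
  let _ : Algebra k R := (q.comp (algebraMap k A)).toAlgebra
  have hft : Algebra.FiniteType k R := by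
    let qa : A →ₐ[k] R := { q with commutes' := fun c => rfl }
    exact Algebra.FiniteType.of_surjective qa hq
  have hfr : IsFractionRing R K := by
    apply bdm_fraction
    · exact Subtype.val_injective
    · intro f
      obtain ⟨a, b, hb, hab⟩ := hτ f
      exact ⟨q a, q b, hb, hab⟩
  let p : Ideal R := (RingHom.ker ρ).map q
  have hcomap : p.comap q = RingHom.ker ρ := by
    rw [Ideal.comap_map_of_surjective q hq, ← RingHom.ker_eq_comap_bot, hqk]
    exact sup_eq_left.2 hle
  have hqp : ∀ a, q a ∈ p ↔ ρ a = 0 := fun a => by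
    rw [← Ideal.mem_comap, hcomap, RingHom.mem_ker]
  have hp : p.IsPrime := by
    have hk : (RingHom.ker ρ).IsPrime := RingHom.ker_isPrime ρ
    exact Ideal.map_isPrime_of_surjective hq (by rw [hqk]; exact hle)
  have hph : p.height = 1 := by
    have hk : (RingHom.ker ρ).IsPrime := RingHom.ker_isPrime ρ
    have hkτ : (RingHom.ker τ).IsPrime := RingHom.ker_isPrime τ
    apply le_antisymm
    · have h1 : p.height ≤ ((1 : ℕ) : ℕ∞) := by
        rw [Ideal.height_le_iff]
        intro r hr hrp
        have h2 : r.comap q < RingHom.ker ρ := by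
          rw [← hcomap]
          refine lt_of_le_of_ne (Ideal.comap_mono hrp.le) fun h3 => hrp.ne ?_
          exact Ideal.comap_injective_of_surjective q hq h3
        have hrc : (r.comap q).IsPrime := hr.comap q
        have h4 : (r.comap q).height < ((m + 1 : ℕ) : ℕ∞) :=
          Ideal.height_le_iff.1 hm1.le _ hrc h2
        have h5 : RingHom.ker τ ≤ r.comap q := by
          rw [← hqk, RingHom.ker_eq_comap_bot]
          exact Ideal.comap_mono bot_le
        have h6 : r.comap q = RingHom.ker τ := by
          by_contra h7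
          have h8 : RingHom.ker τ < r.comap q := lt_of_le_of_ne h5 (Ne.symm h7)
          have h9 : (r.comap q).height ≤ ((m : ℕ) : ℕ∞) := by
            have h10 : ((m + 1 : ℕ) : ℕ∞) = (m : ℕ∞) + 1 := by push_cast; rfl
            rw [h10] at h4
            exact Order.le_of_lt_add_one h4
          have h11 := Ideal.height_le_iff.1 h9 _ hkτ h8
          rw [hm] at h11
          exact lt_irrefl _ h11
        have h7 : r = ⊥ := by
          apply Ideal.comap_injective_of_surjective q hq
          rw [h6, ← RingHom.ker_eq_comap_bot, hqk]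
        have h8 : r.height = 0 := by
          rw [h7]
          exact Ideal.height_bot
        rw [h8]
        exact_mod_cast Nat.one_pos
      exact_mod_cast h1
    · rw [Order.one_le_iff_ne_zero]
      intro h0
      have h1 : p = ⊥ := Ideal.height_eq_zero_iff_eq_bot.1 h0
      have h2 : RingHom.ker ρ = RingHom.ker τ := by
        rw [← hcomap, h1, ← RingHom.ker_eq_comap_bot, hqk]
      rw [h2, hm] at hm1
      have h3 : m = m + 1 := by exact_mod_cast hm1
      omega
  have hiff : ∀ V : ValuationSubring K, DomR τ ρ V ↔ ∀ r : R, algebraMap R K r ∈ V ∧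
      (r ∈ p ↔ algebraMap R K r ∈ V.nonunits) := by
    intro V
    constructor
    · intro hV r
      obtain ⟨a, rfl⟩ := hq r
      rw [hqp]
      exact hV a
    · intro hV a
      have := hV (q a)
      rw [hqp] at this
      exact this
  obtain ⟨hfin, hval⟩ := u15_val (k := k) (R := R) (K := K) p hph
  refine ⟨?_, ?_⟩
  · have : {V : ValuationSubring K | DomR τ ρ V} =
        {V : ValuationSubring K | ∀ r : R, algebraMap R K r ∈ V ∧
          (r ∈ p ↔ algebraMap R K r ∈ V.nonunits)} := Set.ext hiff
    rw [this]
    exact hfin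
  intro V hV
  obtain ⟨hdvr, φ, hφ, hφf⟩ := hval V ((hiff V).1 hV)
  refine ⟨hdvr, ?_⟩
  -- the map `R → F`
  have hker : RingHom.ker q ≤ RingHom.ker ρ := by rw [hqk]; exact hle
  let ρ' : R →+* F := RingHom.liftOfSurjective q hq ⟨ρ, hker⟩
  have hρ' : ∀ a, ρ' (q a) = ρ a := fun a =>
    RingHom.liftOfRightInverse_comp_apply q _ (Function.rightInverse_surjInv hq) ⟨ρ, hker⟩ a
  have hρp : ∀ r ∈ p, ρ' r = 0 := by
    intro r hr
    obtain ⟨a, rfl⟩ := hq r
    rw [hρ', ← hqp]
    exact hr
  let σ : R ⧸ p →+* F := Ideal.Quotient.lift p ρ' hρp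
  have hσ : ∀ r, σ (Ideal.Quotient.mk p r) = ρ' r := fun r => Ideal.Quotient.lift_mk p ρ' hρp
  let _ : Algebra (R ⧸ p) F := σ.toAlgebra
  have hfrF : IsFractionRing (R ⧸ p) F := by
    apply bdm_fraction
    · rw [injective_iff_map_eq_zero]
      intro r hr
      obtain ⟨r, rfl⟩ := Ideal.Quotient.mk_surjective r
      obtain ⟨a, rfl⟩ := hq r
      rw [Ideal.Quotient.eq_zero_iff_mem, hqp, ← hρ']
      exact hr
    · intro f
      obtain ⟨a, b, hb, hab⟩ := hρ f
      refine ⟨Ideal.Quotient.mk p (q a), Ideal.Quotient.mk p (q b), ?_, ?_⟩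
      · change σ _ ≠ 0
        rw [hσ, hρ']
        exact hb
      · change f * σ _ = σ _
        rw [hσ, hσ, hρ', hρ']
        exact hab
  let ε : F ≃ₐ[R ⧸ p] FractionRing (R ⧸ p) :=
    IsLocalization.algEquiv (nonZeroDivisors (R ⧸ p)) F (FractionRing (R ⧸ p))
  refine ⟨φ.comp (ε : F →+* FractionRing (R ⧸ p)), ?_, ?_⟩
  · intro a b hb
    have h1 : ρ a = algebraMap (R ⧸ p) F (Ideal.Quotient.mk p (q a)) := by
      change _ = σ _
      rw [hσ, hρ']
    rw [RingHom.comp_apply, h1]
    have h2 : (ε : F →+* FractionRing (R ⧸ p)) (algebraMap (R ⧸ p) F (Ideal.Quotient.mk p (q a))) =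
        algebraMap (R ⧸ p) (FractionRing (R ⧸ p)) (Ideal.Quotient.mk p (q a)) :=
      ε.commutes _
    rw [h2]
    exact hφ (q a) b hb
  · exact hφf.comp (RingHom.Finite.of_surjective _ ε.surjective)

end Pool.Agent.K1
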