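import Pool.Agent.K1.BDefs
import Pool.Agent.K1.AffineFacts

/-!
(B), part III, B4-04: dimension and regularity of the affine charts of an embedded scheme of
dimension `d`.
-/

set_option autoImplicit false

open AlgebraicGeometry CategoryTheory

namespace Pool.Agent.K1

/-- In an affine chart of an embedded scheme of dimension `d`, all maximal ideals have height
`d`, and the dimension is `d`. -/
theorem bad_height {k : Type} [Field k] {X : Scheme.{0}} [IsIntegral X] {n : ℕ}
    (E : Embed k X n) (d : ℕ) (hdim : ∀ x : X, Order.coheight x ≤ (d : ℕ∞))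
    (hdim2 : ∃ x : X, Order.coheight x = (d : ℕ∞))
    (c : Fin (n + 1) → k) (hc : genericPoint X ∈ E.U c) :
    (∀ 𝔪 : Ideal Γ(X, E.U c), 𝔪.IsMaximal → 𝔪.height = d) ∧
      ringKrullDim Γ(X, E.U c) = d := by
  let _ := E.kf.toAlgebra
  obtain ⟨x, hx⟩ := hdim2
  obtain ⟨j, hj⟩ := E.cover x
  have hgj : genericPoint X ∈ E.U (Pi.single j 1) :=
    (genericPoint_specializes x).mem_open (E.U (Pi.single j 1)).isOpen hj
  obtain ⟨s, h1, h2, h3⟩ := af_trdeg E c hc
  obtain ⟨s', h1', h2', h3'⟩ := af_trdeg E _ hgj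
  have haff := (E.affine _ (af_l_ne_zero E hgj)).1
  have hs' : s' = d := by
    obtain ⟨P, rfl⟩ := af_surj haff hj
    rw [af_coheight] at hx
    obtain ⟨𝔫, h𝔫, hle⟩ := Ideal.exists_le_maximal P.asIdeal P.isPrime.ne_top
    have h4 : P.asIdeal.height ≤ 𝔫.height := Ideal.height_mono hle
    rw [hx, h1' 𝔫 h𝔫] at h4
    have h5 := hdim (haff.fromSpec ⟨𝔫, h𝔫.isPrime⟩)
    rw [af_coheight] at h5
    change 𝔫.height ≤ _ at h5
    rw [h1' 𝔫 h𝔫] at h5
    have h6 : d ≤ s' := by exact_mod_cast h4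
    have h7 : s' ≤ d := by exact_mod_cast h5
    omega
  have h8 : ((s : ℕ) : Cardinal) = s' := h3.symm.trans h3'
  have h9 : s = s' := by exact_mod_cast h8
  have h10 : s = d := h9.trans hs'
  rw [h10] at h1 h2
  exact ⟨h1, h2⟩

/-- dimension theory for the affine pieces of `X` -/
theorem affine_dimK {k : Type} [Field k] [IsAlgClosed k] {X : Scheme.{0}} [IsIntegral X]
    [IsNoetherian X] {n : ℕ} (E : Embed k X n) (d : ℕ)
    (hdim : ∀ x : X, Order.coheight x ≤ (d : ℕ∞))
    (hdim2 : ∃ x : X, Order.coheight x = (d : ℕ∞))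
    (c : Fin (n + 1) → k) (hc : genericPoint X ∈ E.U c) :
    letI := (E.strOn (E.U c)).toAlgebra
    Algebra.FiniteType k Γ(X, E.U c) ∧ ringKrullDim Γ(X, E.U c) = d ∧
      ∀ z : Γ(X, E.U c) →ₐ[k] k, ∃ (y : X) (hy : y ∈ E.U c), Order.coheight y = (d : ℕ∞) ∧
        ∀ a, z a = 0 ↔ (X.evaluation (E.U c) y hy).hom a = 0 := by
  let _ := (E.strOn (E.U c)).toAlgebra
  obtain ⟨h1, h2⟩ := bad_height E d hdim hdim2 c hc
  refine ⟨af_finiteType E c hc, h2, ?_⟩
  intro z
  have hzm : (RingHom.ker z).IsMaximal := by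
    apply RingHom.ker_isMaximal_of_surjective
    intro a
    exact ⟨algebraMap k _ a, z.commutes a⟩
  have haff := (E.affine c (af_l_ne_zero E hc)).1
  let P : PrimeSpectrum Γ(X, E.U c) := ⟨RingHom.ker z, hzm.isPrime⟩
  refine ⟨haff.fromSpec P, af_mem haff P, ?_, ?_⟩
  · rw [af_coheight]
    exact h1 _ hzm
  · intro a
    rw [af_eval_eq_zero, af_germ_unit, not_not]
    rfl

theorem affine_regK {X : Scheme.{0}} [IsIntegral X] [IsLocallyNoetherian X] (V : X.Opens)
    (hV : IsAffineOpen V) (hg : genericPoint X ∈ V)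
    (hreg : ∀ x : X, IsRegularLocalRing (X.presheaf.stalk x)) :
    IsDomain Γ(X, V) ∧ IsRegularRing Γ(X, V) := by
  have hne : Nonempty V := ⟨⟨_, hg⟩⟩
  have hdom : IsDomain Γ(X, V) := inferInstance
  have hnoeth : IsNoetherianRing Γ(X, V) := IsLocallyNoetherian.component_noetherian ⟨V, hV⟩
  refine ⟨hdom, ?_⟩
  rw [isRegularRing_iff]
  intro P hP
  let P' : PrimeSpectrum Γ(X, V) := ⟨P, hP⟩
  let _ := (X.presheaf.germ V (hV.fromSpec P') (af_mem hV P')).hom.toAlgebra
  have hloc : IsLocalization.AtPrime (X.presheaf.stalk (hV.fromSpec P')) P'.asIdeal :=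
    af_loc hV P' _
  have hr := hreg (hV.fromSpec P')
  exact IsRegularLocalRing.of_ringEquiv
    (IsLocalization.algEquiv P.primeCompl (X.presheaf.stalk (hV.fromSpec P'))
      (Localization.AtPrime P)).toRingEquiv

end Pool.Agent.K1
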