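import Pool.Agent.K1.L2Regular

/-!
K1-B, part III: the dimension formula for finitely generated domains over a field.
-/

set_option autoImplicit false

namespace Pool.Agent.K1

/-- A prime of height one of a finitely generated domain over a field: the dimension drops by
one. -/
theorem height_add_dim_one {k B : Type} [Field k] [CommRing B] [IsDomain B] [Algebra k B]
    [Algebra.FiniteType k B] (Q : Ideal B) [Q.IsPrime] (hQ : Q.height = 1) :
    ringKrullDim B = ringKrullDim (B ⧸ Q) + 1 := by
  have hne : Q ≠ ⊥ := Ideal.ne_bot_of_height_eq_one hQ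
  apply le_antisymm
  · obtain ⟨s, g, hinj, hfin⟩ := exists_finite_inj_algHom_of_fg k B
    let R := MvPolynomial (Fin s) k
    let _ : Algebra R B := g.toRingHom.toAlgebra
    have : IsScalarTower k R B := IsScalarTower.of_algebraMap_eq' g.comp_algebraMap.symm
    have : Module.Finite R B := hfin
    have : Algebra.IsIntegral R B := Algebra.IsIntegral.of_finite R B
    have : FaithfulSMul R B := (faithfulSMul_iff_algebraMap_injective R B).mpr hinj
    have : IsNoetherianRing B := Algebra.FiniteType.isNoetherianRing k B
    have hq1 : (Q.under R).height = 1 := by rw [← L2R_height_under (R := R) Q, hQ]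
    have hqne : Q.under R ≠ ⊥ := Ideal.ne_bot_of_height_eq_one hq1
    obtain ⟨f, hf, hfp⟩ := Ideal.IsPrime.exists_mem_prime_of_ne_bot
      (inferInstance : (Q.under R).IsPrime) hqne
    have hspan : Q.under R = Ideal.span {f} := Ideal.eq_span_singleton_of_height_eq_one hq1 hf hfp
    obtain ⟨𝔪, h𝔪, hle⟩ := Ideal.exists_le_maximal (Q.under R) (Ideal.IsPrime.ne_top')
    have h1 := Ideal.height_le_ringKrullDim_quotient_add_one (r := f) (p := 𝔪) (hle hf)
    rw [L2R_mv_height s 𝔪 h𝔪, ← hspan] at h1
    -- the dimension of `R / q` is that of `B / Q`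
    obtain ⟨s₀, -, hd0, ht0⟩ := L2R_key (k := k) (A := B)
    obtain ⟨s₁, -, hd1, ht1⟩ := L2R_key (k := k) (A := R ⧸ Q.under R)
    obtain ⟨s₂, -, hd2, ht2⟩ := L2R_key (k := k) (A := B ⧸ Q)
    have e0 : s₀ = s := by
      have h1 := trdeg_add_eq (R := k) (S := R) (A := B)
      rw [_root_.trdeg_eq_zero (R := R) (A := B), add_zero, MvPolynomial.trdeg_of_isDomain, ht0] at h1
      simp at h1
      exact_mod_cast h1.symm
    have e1 : s₁ = s₂ := by
      have h1 := trdeg_add_eq (R := k) (S := R ⧸ Q.under R) (A := B ⧸ Q)
      rw [_root_.trdeg_eq_zero (R := R ⧸ Q.under R) (A := B ⧸ Q), add_zero, ht1, ht2] at h1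
      exact_mod_cast h1
    rw [hd1] at h1
    rw [hd0, hd2, e0, ← e1]
    exact h1
  · obtain ⟨r, hr, hr0⟩ := Submodule.exists_mem_ne_zero_of_ne_bot hne
    exact ringKrullDim_succ_le_of_surjective (Ideal.Quotient.mk Q) Ideal.Quotient.mk_surjective
      (mem_nonZeroDivisors_of_ne_zero hr0) (Ideal.Quotient.eq_zero_iff_mem.2 hr)

theorem height_add_dim_nat {k A : Type} [Field k] [CommRing A] [IsDomain A] [Algebra k A]
    [Algebra.FiniteType k A] : ∀ (n : ℕ) (P : Ideal A) [P.IsPrime], P.height = n →
      ringKrullDim A = ringKrullDim (A ⧸ P) + n := by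
  intro n
  induction n with
  | zero =>
    intro P hP h
    have h0 : P = ⊥ := Ideal.height_eq_zero_iff_eq_bot.1 (by simpa using h)
    subst h0
    rw [ringKrullDim_eq_of_ringEquiv (RingEquiv.quotientBot A)]
    simp
  | succ n ih =>
    intro P hP h
    have : IsNoetherianRing A := Algebra.FiniteType.isNoetherianRing k A
    obtain ⟨q, hq, hqP, hqn⟩ : ∃ q : Ideal A, q.IsPrime ∧ q < P ∧ q.height = n := by
      have h1 : ¬ P.height ≤ n := by
        rw [h]
        intro h2
        have : n + 1 ≤ n := by exact_mod_cast h2
        omega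
      rw [Ideal.height_le_iff] at h1
      push Not at h1
      obtain ⟨q, hq, hqP, h2⟩ := h1
      refine ⟨q, hq, hqP, le_antisymm ?_ h2⟩
      have h3 := Ideal.height_add_one_le_of_lt_of_isPrime hqP
      rw [h] at h3
      have h4 : q.height + 1 ≤ (n : ℕ∞) + 1 := by exact_mod_cast h3
      exact (ENat.add_le_add_iff_right (by simp)).1 h4
    have hP' : (P.map (Ideal.Quotient.mk q)).IsPrime := Ideal.isPrime_map_quotientMk_of_isPrime hqP.le
    have hcomap : (P.map (Ideal.Quotient.mk q)).comap (Ideal.Quotient.mk q) = P := by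
      rw [Ideal.comap_map_of_surjective' _ Ideal.Quotient.mk_surjective, Ideal.mk_ker]
      exact sup_eq_left.2 hqP.le
    have hone : (P.map (Ideal.Quotient.mk q)).height = 1 := by
      apply le_antisymm
      · have : (P.map (Ideal.Quotient.mk q)).height ≤ (1 : ℕ) := by
          rw [Ideal.height_le_iff]
          intro c hc hcP
          have hc1 : (c.comap (Ideal.Quotient.mk q)).IsPrime := Ideal.comap_isPrime _ _
          have hc2 : c.comap (Ideal.Quotient.mk q) < P := by
            refine lt_of_le_of_ne ?_ ?_
            · rw [← hcomap]; exact Ideal.comap_mono hcP.le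
            · intro he
              apply hcP.ne
              rw [← he, Ideal.map_comap_of_surjective _ Ideal.Quotient.mk_surjective]
          have hc3 : q ≤ c.comap (Ideal.Quotient.mk q) := by
            intro x hx
            rw [Ideal.mem_comap, Ideal.Quotient.eq_zero_iff_mem.2 hx]
            exact c.zero_mem
          have hc4 : q = c.comap (Ideal.Quotient.mk q) := by
            by_contra hne
            have h5 := Ideal.height_add_one_le_of_lt_of_isPrime (lt_of_le_of_ne hc3 hne)
            have h6 := Ideal.height_add_one_le_of_lt_of_isPrime hc2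
            rw [hqn] at h5
            rw [h] at h6
            have h7 : ((n : ℕ∞) + 1) + 1 ≤ ((n + 1 : ℕ) : ℕ∞) :=
              le_trans (add_le_add_left h5 1) h6
            have : n + 1 + 1 ≤ n + 1 := by exact_mod_cast h7
            omega
          have hc5 : c = ⊥ := by
            rw [← Ideal.map_comap_of_surjective _ Ideal.Quotient.mk_surjective c, ← hc4]
            exact Ideal.map_quotient_self q
          rw [hc5, Ideal.height_bot]
          simp
        exact_mod_cast this
      · rw [Order.one_le_iff_ne_zero, Ne, Ideal.height_eq_zero_iff_eq_bot]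
        intro h0
        rw [h0] at hcomap
        apply hqP.ne
        rw [← hcomap]
        exact (Ideal.mk_ker (I := q)).symm
    have h1 := height_add_dim_one (k := k) (P.map (Ideal.Quotient.mk q)) hone
    rw [ringKrullDim_eq_of_ringEquiv (DoubleQuot.quotQuotEquivQuotOfLE hqP.le)] at h1
    rw [ih q hqn, h1, add_assoc]
    congr 1
    push_cast
    rw [add_comm]

/-- **The dimension formula** `height P + dim A / P = dim A`. -/
theorem height_add_dim {k A : Type} [Field k] [CommRing A] [IsDomain A] [Algebra k A]
    [Algebra.FiniteType k A] (P : Ideal A) [P.IsPrime] :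
    (P.height : WithBot ℕ∞) + ringKrullDim (A ⧸ P) = ringKrullDim A := by
  have : IsNoetherianRing A := Algebra.FiniteType.isNoetherianRing k A
  obtain ⟨n, hn⟩ := ENat.ne_top_iff_exists.1 (Ideal.height_ne_top (I := P) Ideal.IsPrime.ne_top')
  rw [height_add_dim_nat (k := k) n P hn.symm, ← hn, add_comm]
  rfl

end Pool.Agent.K1
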