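import Pool.Agent.K1.M5bc

/-!
One leaf rings: existence of `ψ` (K1-11, M5e).
-/

set_option autoImplicit false

open Polynomial

namespace Pool.Agent.K1

theorem pow_eq_one_of_algebraic {p : ℕ} [Fact p.Prime] {k : Type*} [Field k]
    [Algebra (ZMod p) k] [Algebra.IsAlgebraic (ZMod p) k] (c : k) (hc : c ≠ 0) :
    ∃ N : ℕ, 0 < N ∧ c ^ N = 1 := by
  have hint : IsIntegral (ZMod p) c := Algebra.IsIntegral.isIntegral c
  have hfd : FiniteDimensional (ZMod p) (IntermediateField.adjoin (ZMod p) {c}) :=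
    IntermediateField.adjoin.finiteDimensional hint
  have hfin : Finite (IntermediateField.adjoin (ZMod p) {c}) := Module.finite_of_finite (ZMod p)
  let c' : IntermediateField.adjoin (ZMod p) {c} :=
    ⟨c, IntermediateField.mem_adjoin_simple_self (ZMod p) c⟩
  have hc' : c' ≠ 0 := by
    intro h0
    apply hc
    exact congrArg Subtype.val h0
  let _ := Fintype.ofFinite (IntermediateField.adjoin (ZMod p) {c})
  refine ⟨Fintype.card (IntermediateField.adjoin (ZMod p) {c}) - 1, ?_, ?_⟩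
  · have : 1 < Fintype.card (IntermediateField.adjoin (ZMod p) {c}) := Fintype.one_lt_card
    omega
  · have h1 := FiniteField.pow_card_sub_one_eq_one c' hc'
    exact congrArg Subtype.val h1

namespace Psi

variable {k R : Type*} [Field k] [CommRing R] [IsDomain R] [Algebra k R]

/-- the principal ideal of `f` is a product of ideals of rational points -/
def Pr (f : R) (m : (R →ₐ[k] k) →₀ ℕ) : Prop :=
  f ≠ 0 ∧ Ideal.span {f} = m.prod (fun x e => (RingHom.ker x) ^ e)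

theorem Pr.one : Pr (k := k) (1 : R) 0 := by
  refine ⟨one_ne_zero, ?_⟩
  rw [Finsupp.prod_zero_index, Ideal.span_singleton_one, Ideal.one_eq_top]

theorem Pr.mul {f g : R} {m m' : (R →ₐ[k] k) →₀ ℕ} (h : Pr f m) (h' : Pr g m') :
    Pr (f * g) (m + m') := by
  classical
  refine ⟨mul_ne_zero h.1 h'.1, ?_⟩
  rw [← Ideal.span_singleton_mul_span_singleton, h.2, h'.2, Finsupp.prod_add_index']
  · intro x
    exact pow_zero _
  · intro x a b
    exact pow_add _ _ _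

theorem Pr.pow {f : R} {m : (R →ₐ[k] k) →₀ ℕ} (h : Pr f m) (n : ℕ) : Pr (f ^ n) (n • m) := by
  induction n with
  | zero => rw [pow_zero, zero_smul]; exact Pr.one
  | succ n ih => rw [pow_succ, succ_nsmul]; exact ih.mul h

theorem phi_one {φ : R → ℚ} (hφ : IsMulFun φ) : φ 1 = 0 := by
  have := hφ 1 1 one_ne_zero one_ne_zero
  rw [mul_one] at this
  linarith

theorem phi_pow {φ : R → ℚ} (hφ : IsMulFun φ) {f : R} (hf : f ≠ 0) (n : ℕ) :
    φ (f ^ n) = n * φ f := by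
  induction n with
  | zero => rw [pow_zero, phi_one hφ]; simp
  | succ n ih =>
    rw [pow_succ, hφ _ _ (pow_ne_zero _ hf) hf, ih]
    push_cast
    ring

theorem phi_unit {p : ℕ} [Fact p.Prime] [Algebra (ZMod p) k] [Algebra.IsAlgebraic (ZMod p) k]
    (o : OneLeaf k R) {φ : R → ℚ} (hφ : IsMulFun φ) {u : R} (hu : IsUnit u) : φ u = 0 := by
  obtain ⟨c, hc, rfl⟩ := M5c_isUnit o u hu
  obtain ⟨N, hN, h1⟩ := pow_eq_one_of_algebraic (p := p) c hc
  have h2 := phi_pow hφ hu.ne_zero N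
  rw [← map_pow, h1, map_one, phi_one hφ] at h2
  have h3 : (N : ℚ) ≠ 0 := by exact_mod_cast hN.ne'
  rcases mul_eq_zero.1 h2.symm with h4 | h4
  · exact absurd h4 h3
  · exact h4

theorem phi_eq {p : ℕ} [Fact p.Prime] [Algebra (ZMod p) k] [Algebra.IsAlgebraic (ZMod p) k]
    (o : OneLeaf k R) {φ : R → ℚ} (hφ : IsMulFun φ) {f g : R} {m : (R →ₐ[k] k) →₀ ℕ}
    (h : Pr f m) (h' : Pr g m) : φ f = φ g := by
  have h1 : Ideal.span {f} = Ideal.span {g} := by rw [h.2, h'.2]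
  obtain ⟨u, hu⟩ := Ideal.span_singleton_eq_span_singleton.1 h1
  rw [← hu, hφ f _ h.1 u.isUnit.ne_zero, phi_unit (p := p) o hφ u.isUnit, add_zero]

/-- the divisor with rational coefficients -/
noncomputable def cst (k R : Type*) [Field k] [CommRing R] [Algebra k R] :
    ((R →ₐ[k] k) →₀ ℕ) →+ ((R →ₐ[k] k) →₀ ℚ) :=
  Finsupp.mapRange.addMonoidHom (Nat.castAddMonoidHom ℚ)

omit [IsDomain R] in
theorem cst_inj : Function.Injective (cst k R) := by
  intro a b h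
  ext x
  have h1 := DFunLike.congr_fun h x
  change ((a x : ℕ) : ℚ) = ((b x : ℕ) : ℚ) at h1
  exact_mod_cast h1

/-- the differences of pairs, up to a denominator -/
def Q (φ : R → ℚ) (w : ((R →ₐ[k] k) →₀ ℚ) × ℚ) : Prop :=
  ∃ d : ℕ, d ≠ 0 ∧ ∃ (f₁ : R) (m₁ : (R →ₐ[k] k) →₀ ℕ) (f₂ : R) (m₂ : (R →ₐ[k] k) →₀ ℕ),
    Pr f₁ m₁ ∧ Pr f₂ m₂ ∧ (d : ℚ) • w = (cst k R m₁ - cst k R m₂, φ f₁ - φ f₂)

theorem Q_nsmul {φ : R → ℚ} (hφ : IsMulFun φ) {w : ((R →ₐ[k] k) →₀ ℚ) × ℚ} (h : Q φ w) (n : ℕ) :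
    Q φ ((n : ℚ) • w) := by
  obtain ⟨d, hd, f₁, m₁, f₂, m₂, h1, h2, h3⟩ := h
  refine ⟨d, hd, f₁ ^ n, n • m₁, f₂ ^ n, n • m₂, h1.pow n, h2.pow n, ?_⟩
  rw [smul_comm, h3, phi_pow hφ h1.1, phi_pow hφ h2.1, map_nsmul, map_nsmul, ← smul_sub,
    ← mul_sub]
  ext
  · simp
  · simp

omit [IsDomain R] in
theorem Q_neg {φ : R → ℚ} {w : ((R →ₐ[k] k) →₀ ℚ) × ℚ} (h : Q φ w) : Q φ (-w) := by
  obtain ⟨d, hd, f₁, m₁, f₂, m₂, h1, h2, h3⟩ := h
  refine ⟨d, hd, f₂, m₂, f₁, m₁, h2, h1, ?_⟩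
  rw [smul_neg, h3, Prod.neg_mk, neg_sub, neg_sub]

omit [IsDomain R] in
theorem Q_div {φ : R → ℚ} {w : ((R →ₐ[k] k) →₀ ℚ) × ℚ} {n : ℕ} (hn : n ≠ 0)
    (h : Q φ ((n : ℚ) • w)) : Q φ w := by
  obtain ⟨d, hd, f₁, m₁, f₂, m₂, h1, h2, h3⟩ := h
  refine ⟨d * n, mul_ne_zero hd hn, f₁, m₁, f₂, m₂, h1, h2, ?_⟩
  rw [← h3, smul_smul]
  push_cast
  rfl

theorem Q_smul {φ : R → ℚ} (hφ : IsMulFun φ) {w : ((R →ₐ[k] k) →₀ ℚ) × ℚ} (h : Q φ w) (a : ℚ) :
    Q φ (a • w) := by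
  have hint : ∀ z : ℤ, Q φ ((z : ℚ) • w) := by
    intro z
    obtain ⟨n, rfl | rfl⟩ := z.eq_nat_or_neg
    · exact_mod_cast Q_nsmul hφ h n
    · have := Q_neg (Q_nsmul hφ h n)
      rw [← neg_smul] at this
      push_cast
      exact this
  apply Q_div (n := a.den) a.den_nz
  rw [smul_smul, mul_comm, Rat.mul_den_eq_num]
  exact hint a.num

theorem Q_add {φ : R → ℚ} (hφ : IsMulFun φ) {w w' : ((R →ₐ[k] k) →₀ ℚ) × ℚ} (h : Q φ w)
    (h' : Q φ w') : Q φ (w + w') := by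
  obtain ⟨d, hd, f₁, m₁, f₂, m₂, h1, h2, h3⟩ := h
  obtain ⟨d', hd', f₁', m₁', f₂', m₂', h1', h2', h3'⟩ := h'
  refine ⟨d * d', mul_ne_zero hd hd', f₁ ^ d' * f₁' ^ d, d' • m₁ + d • m₁',
    f₂ ^ d' * f₂' ^ d, d' • m₂ + d • m₂', (h1.pow d').mul (h1'.pow d),
    (h2.pow d').mul (h2'.pow d), ?_⟩
  have e : ((d * d' : ℕ) : ℚ) • (w + w') = (d' : ℚ) • ((d : ℚ) • w) + (d : ℚ) • ((d' : ℚ) • w') := by
    rw [smul_smul, smul_smul, smul_add]
    push_cast
    rw [mul_comm (d' : ℚ)]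
  rw [e, h3, h3', hφ _ _ (pow_ne_zero _ h1.1) (pow_ne_zero _ h1'.1),
    hφ _ _ (pow_ne_zero _ h2.1) (pow_ne_zero _ h2'.1), phi_pow hφ h1.1, phi_pow hφ h1'.1,
    phi_pow hφ h2.1, phi_pow hφ h2'.1, map_add, map_add, map_nsmul, map_nsmul, map_nsmul,
    map_nsmul]
  ext
  · simp
    ring
  · simp
    ring

end Psi

open Psi in
/-- M5e. Existence of `ψ`. -/
theorem M5e_exists_psi {p : ℕ} [Fact p.Prime] {k R : Type*} [Field k] [CharP k p]
    [Algebra (ZMod p) k] [Algebra.IsAlgebraic (ZMod p) k] [CommRing R] [IsDomain R] [Algebra k R]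
    (o : OneLeaf k R) (φ : R → ℚ) (hφ : IsMulFun φ) : ∃ ψ : (R →ₐ[k] k) → ℚ, IsPsi k φ ψ := by
  classical
  let Γ : Submodule ℚ (((R →ₐ[k] k) →₀ ℚ) × ℚ) :=
    Submodule.span ℚ {w | ∃ (f : R) (m : (R →ₐ[k] k) →₀ ℕ), Pr f m ∧ w = (cst k R m, φ f)}
  have hQ : ∀ w ∈ Γ, Q φ w := by
    intro w hw
    induction hw using Submodule.span_induction with
    | mem w hw =>
      obtain ⟨f, m, h1, rfl⟩ := hw
      refine ⟨1, one_ne_zero, f, m, 1, 0, h1, Pr.one, ?_⟩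
      rw [map_zero, sub_zero, phi_one hφ, sub_zero, Nat.cast_one, one_smul]
    | zero =>
      refine ⟨1, one_ne_zero, 1, 0, 1, 0, Pr.one, Pr.one, ?_⟩
      rw [smul_zero, sub_self, sub_self]
      rfl
    | add w w' _ _ h h' => exact Q_add hφ h h'
    | smul a w _ h => exact Q_smul hφ h a
  have hΓ : ∀ w ∈ Γ, w.1 = 0 → w.2 = 0 := by
    intro w hw h0
    obtain ⟨d, hd, f₁, m₁, f₂, m₂, h1, h2, h3⟩ := hQ w hw
    have h4 := congrArg Prod.fst h3
    have h5 := congrArg Prod.snd h3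
    change (d : ℚ) • w.1 = cst k R m₁ - cst k R m₂ at h4
    change (d : ℚ) • w.2 = φ f₁ - φ f₂ at h5
    rw [h0, smul_zero] at h4
    have h6 : m₁ = m₂ := cst_inj (sub_eq_zero.1 h4.symm)
    subst h6
    rw [phi_eq (p := p) o hφ h1 h2, sub_self, smul_eq_mul] at h5
    have h7 : (d : ℚ) ≠ 0 := by exact_mod_cast hd
    rcases mul_eq_zero.1 h5 with h8 | h8
    · exact absurd h8 h7
    · exact h8
  obtain ⟨g, hg⟩ := LinearMap.exists_extend Γ.toLinearPMap.toFun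
  have hval : ∀ w ∈ Γ, g w.1 = w.2 := by
    intro w hw
    have h1 : w ∈ Γ.toLinearPMap.graph := by
      rw [Submodule.toLinearPMap_graph_eq Γ hΓ]
      exact hw
    rw [LinearPMap.mem_graph_iff] at h1
    obtain ⟨y, hy1, hy2⟩ := h1
    have h2 := congrArg (fun l => l y) hg
    change g (y : (R →ₐ[k] k) →₀ ℚ) = Γ.toLinearPMap y at h2
    rw [← hy1, h2, hy2]
  refine ⟨fun x => g (Finsupp.single x 1), ?_⟩
  intro f hf m hm
  have h1 : g (cst k R m) = φ f := hval (cst k R m, φ f) (Submodule.subset_span ⟨f, m, ⟨hf, hm⟩, rfl⟩)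
  rw [← h1]
  have h2 : g.toAddMonoidHom.comp (cst k R) = Finsupp.liftAddHom (fun x =>
      (AddMonoidHom.mulRight (g (Finsupp.single x 1))).comp (Nat.castAddMonoidHom ℚ)) := by
    refine Finsupp.addHom_ext (fun x n => ?_)
    rw [Finsupp.liftAddHom_apply_single]
    change g (cst k R (Finsupp.single x n)) = (n : ℚ) * g (Finsupp.single x 1)
    have e : cst k R (Finsupp.single x n) = (n : ℚ) • Finsupp.single x (1 : ℚ) := by
      rw [Finsupp.smul_single, smul_eq_mul, mul_one]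
      exact Finsupp.mapRange_single (hf := map_zero (Nat.castAddMonoidHom ℚ))
    rw [e, map_smul, smul_eq_mul]
  have h3 := congrArg (fun l => l m) h2
  exact h3

end Pool.Agent.K1
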