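import Pool.Agent.K1.FinInt

/-!
K1-B3-01 : valuation rings over a height one prime of a finitely generated domain.
-/

set_option autoImplicit false

namespace Pool.Agent.K1

/-- Elements integral over a subring of a valuation ring lie in the valuation ring. -/
theorem bval_mem_of_integral {R K : Type*} [CommRing R] [Field K] [Algebra R K]
    (V : ValuationSubring K) (hV : ∀ r : R, algebraMap R K r ∈ V) (x : K) (hx : IsIntegral R x) :
    x ∈ V := by
  obtain ⟨f, hf, hfx⟩ := hx
  let ρ : R →+* V := (algebraMap R K).codRestrict V.toSubring hV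
  have hρ : (algebraMap V K).comp ρ = algebraMap R K := by
    ext r
    rfl
  have h1 : IsIntegral V x := by
    refine ⟨f.map ρ, hf.map ρ, ?_⟩
    rw [Polynomial.eval₂_map, hρ]
    exact hfx
  obtain ⟨y, hy⟩ := IsIntegrallyClosed.isIntegral_iff.mp h1
  rw [← hy]
  exact y.2

/-- The localization of a normal noetherian domain at a minimal nonzero prime is a discrete
valuation ring. -/
theorem bval_dvr {C : Type*} [CommRing C] [IsDomain C] [IsNoetherianRing C]
    [IsIntegrallyClosed C] (q : Ideal C) [q.IsPrime] (hq : q ≠ ⊥)
    (hmin : ∀ q' : Ideal C, q'.IsPrime → q' ≠ ⊥ → q' ≤ q → q' = q)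
    [IsDomain (Localization.AtPrime q)] :
    IsDiscreteValuationRing (Localization.AtPrime q) := by
  have hle : q.primeCompl ≤ nonZeroDivisors C := q.primeCompl_le_nonZeroDivisors
  have hnoeth : IsNoetherianRing (Localization.AtPrime q) :=
    IsLocalization.isNoetherianRing q.primeCompl _ inferInstance
  have hic : IsIntegrallyClosed (Localization.AtPrime q) :=
    isIntegrallyClosed_of_isLocalization _ q.primeCompl hle
  have hinj : Function.Injective (algebraMap C (Localization.AtPrime q)) :=
    IsLocalization.injective _ hle
  have key : ∀ P : Ideal (Localization.AtPrime q), P ≠ ⊥ → P.IsPrime →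
      P = IsLocalRing.maximalIdeal (Localization.AtPrime q) := by
    intro P hP hPp
    have h1 : P.under C = q := by
      apply hmin
      · exact Ideal.IsPrime.comap _
      · intro h0
        apply hP
        rw [← IsLocalization.map_under q.primeCompl (Localization.AtPrime q) P, h0,
          Ideal.map_bot]
      · intro c hc
        by_contra hcq
        have hu : IsUnit (algebraMap C (Localization.AtPrime q) c) :=
          IsLocalization.map_units (Localization.AtPrime q) (⟨c, hcq⟩ : q.primeCompl)
        exact hPp.ne_top (Ideal.eq_top_of_isUnit_mem _ hc hu)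
    rw [← IsLocalization.map_under q.primeCompl (Localization.AtPrime q) P, h1,
      ← IsLocalization.map_under q.primeCompl (Localization.AtPrime q)
        (IsLocalRing.maximalIdeal (Localization.AtPrime q)),
      Localization.AtPrime.under_maximalIdeal]
  have h4 : IsIntegrallyClosed (Localization.AtPrime q) ∧
      ∀ P : Ideal (Localization.AtPrime q), P ≠ ⊥ → P.IsPrime →
        P = IsLocalRing.maximalIdeal (Localization.AtPrime q) := ⟨hic, key⟩
  have hpir : IsPrincipalIdealRing (Localization.AtPrime q) :=
    ((tfae_of_isNoetherianRing_of_isLocalRing_of_isDomain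
      (R := Localization.AtPrime q)).out 3 0).mp h4
  refine { not_a_field' := ?_ }
  intro h0
  apply hq
  rw [eq_bot_iff]
  intro c hc
  have h1 : algebraMap C (Localization.AtPrime q) c ∈
      IsLocalRing.maximalIdeal (Localization.AtPrime q) := by
    have := Localization.AtPrime.under_maximalIdeal (I := q)
    rw [← this] at hc
    exact hc
  rw [h0] at h1
  have h2 : algebraMap C (Localization.AtPrime q) c = 0 := h1
  exact hinj (by rw [h2, map_zero])

/-- A valuation ring that dominates the localization of a normal noetherian domain at a minimal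
nonzero prime is that localization. -/
theorem bval_mem_iff {C K : Type*} [CommRing C] [IsDomain C] [IsNoetherianRing C]
    [IsIntegrallyClosed C] [Field K] [Algebra C K] [IsFractionRing C K] (q : Ideal C) [q.IsPrime]
    (hq : q ≠ ⊥) (hmin : ∀ q' : Ideal C, q'.IsPrime → q' ≠ ⊥ → q' ≤ q → q' = q)
    (V : ValuationSubring K) (hV : ∀ c : C, algebraMap C K c ∈ V ∧
      (c ∈ q ↔ algebraMap C K c ∈ V.nonunits)) (x : K) :
    x ∈ V ↔ ∃ c s : C, s ∉ q ∧ x * algebraMap C K s = algebraMap C K c := by
  have hdom : IsDomain (Localization.AtPrime q) :=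
    IsLocalization.isDomain_localization q.primeCompl_le_nonZeroDivisors
  have hle : q.primeCompl ≤ nonZeroDivisors C := q.primeCompl_le_nonZeroDivisors
  have hinj : Function.Injective (algebraMap C (Localization.AtPrime q)) :=
    IsLocalization.injective _ hle
  have hinjK : Function.Injective (algebraMap C K) := IsFractionRing.injective C K
  have hunit : ∀ s : C, s ∉ q → (algebraMap C K s)⁻¹ ∈ V := by
    intro s hs
    by_contra h
    apply hs
    rw [(hV s).2, ValuationSubring.mem_nonunits_iff]
    by_contra h1
    apply h
    have h2 : V.valuation (algebraMap C K s) = 1 :=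
      le_antisymm ((V.valuation_le_one_iff _).mpr (hV s).1) (not_lt.mp h1)
    rw [← V.valuation_le_one_iff, map_inv₀, h2, inv_one]
  constructor
  · intro hx
    obtain ⟨⟨a, b, hb⟩, hab⟩ := IsLocalization.surj (nonZeroDivisors C) x
    simp only at hab
    have hb0 : algebraMap C K b ≠ 0 := by
      intro h
      exact nonZeroDivisors.ne_zero hb (hinjK (by rw [h, map_zero]))
    have := bval_dvr q hq hmin
    obtain ⟨c, hc⟩ := ValuationRing.cond (algebraMap C (Localization.AtPrime q) a)
      (algebraMap C (Localization.AtPrime q) b)
    obtain ⟨⟨c0, s⟩, hcs⟩ := IsLocalization.surj q.primeCompl c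
    simp only at hcs
    rcases hc with hc | hc
    · -- a c = b
      have h1 : a * c0 = b * s := by
        apply hinj
        rw [map_mul, map_mul, ← hcs, ← hc]
        ring
      have h2 : x * algebraMap C K c0 = algebraMap C K s := by
        apply mul_right_cancel₀ hb0
        calc x * algebraMap C K c0 * algebraMap C K b
            = (x * algebraMap C K b) * algebraMap C K c0 := by ring
          _ = algebraMap C K (a * c0) := by rw [hab, map_mul]
          _ = algebraMap C K s * algebraMap C K b := by rw [h1, map_mul]; ring
      refine ⟨s, c0, ?_, h2⟩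
      intro hc0
      rw [(hV c0).2, ValuationSubring.mem_nonunits_iff] at hc0
      have h3 : V.valuation (algebraMap C K s) < 1 := by
        rw [← h2, map_mul]
        calc V.valuation x * V.valuation (algebraMap C K c0)
            ≤ 1 * V.valuation (algebraMap C K c0) :=
              mul_le_mul_left ((V.valuation_le_one_iff _).mpr hx) _
          _ < 1 := by rw [one_mul]; exact hc0
      exact s.2 ((hV s).2.mpr ((ValuationSubring.mem_nonunits_iff V).mpr h3))
    · -- b c = a
      have h1 : b * c0 = a * s := by
        apply hinj
        rw [map_mul, map_mul, ← hcs, ← hc]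
        ring
      refine ⟨c0, s, s.2, ?_⟩
      apply mul_right_cancel₀ hb0
      calc x * algebraMap C K s * algebraMap C K b
          = (x * algebraMap C K b) * algebraMap C K s := by ring
        _ = algebraMap C K (a * s) := by rw [hab, map_mul]
        _ = algebraMap C K c0 * algebraMap C K b := by rw [← h1, map_mul]; ring
  · rintro ⟨c, s, hs, h⟩
    have hs0 : algebraMap C K s ≠ 0 := by
      intro h0
      apply hs
      have : s = 0 := hinjK (by rw [h0, map_zero])
      rw [this]
      exact q.zero_mem
    have : x = algebraMap C K c * (algebraMap C K s)⁻¹ := by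
      rw [← h, mul_assoc, mul_inv_cancel₀ hs0, mul_one]
    rw [this]
    exact V.mul_mem _ _ (hV c).1 (hunit s hs)

/-- In the situation of `bval_mem_iff` the valuation ring is discrete. -/
theorem bval_isDVR {C K : Type*} [CommRing C] [IsDomain C] [IsNoetherianRing C]
    [IsIntegrallyClosed C] [Field K] [Algebra C K] [IsFractionRing C K] (q : Ideal C) [q.IsPrime]
    (hq : q ≠ ⊥) (hmin : ∀ q' : Ideal C, q'.IsPrime → q' ≠ ⊥ → q' ≤ q → q' = q)
    (V : ValuationSubring K) (hV : ∀ c : C, algebraMap C K c ∈ V ∧
      (c ∈ q ↔ algebraMap C K c ∈ V.nonunits)) : IsDiscreteValuationRing V := by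
  have hdom : IsDomain (Localization.AtPrime q) :=
    IsLocalization.isDomain_localization q.primeCompl_le_nonZeroDivisors
  have hle : q.primeCompl ≤ nonZeroDivisors C := q.primeCompl_le_nonZeroDivisors
  have hinj : Function.Injective (algebraMap C (Localization.AtPrime q)) :=
    IsLocalization.injective _ hle
  have hinjK : Function.Injective (algebraMap C K) := IsFractionRing.injective C K
  have := bval_dvr q hq hmin
  let τ : C →+* V := (algebraMap C K).codRestrict V.toSubring (fun c => (hV c).1)
  have hτ : ∀ c : C, ((τ c : V) : K) = algebraMap C K c := fun c => rfl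
  have hτu : ∀ s : q.primeCompl, IsUnit (τ s) := by
    intro s
    have h1 : (algebraMap C K s)⁻¹ ∈ V := by
      rw [bval_mem_iff q hq hmin V hV]
      have hs0 : algebraMap C K s ≠ 0 := by
        intro h0
        apply s.2
        have : (s : C) = 0 := hinjK (by rw [h0, map_zero])
        rw [this]
        exact q.zero_mem
      exact ⟨1, s, s.2, by rw [inv_mul_cancel₀ hs0, map_one]⟩
    refine IsUnit.of_mul_eq_one ⟨_, h1⟩ ?_
    apply Subtype.ext
    change algebraMap C K s * (algebraMap C K s)⁻¹ = 1
    apply mul_inv_cancel₀
    intro h0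
    apply s.2
    have : (s : C) = 0 := hinjK (by rw [h0, map_zero])
    rw [this]
    exact q.zero_mem
  let g : Localization.AtPrime q →+* V := IsLocalization.lift (M := q.primeCompl) hτu
  have hg : ∀ c, g (algebraMap C _ c) = τ c := fun c => IsLocalization.lift_eq hτu c
  have hginj : Function.Injective g := by
    rw [IsLocalization.lift_injective_iff]
    intro x y
    constructor
    · intro h
      rw [hinj h]
    · intro h
      have : algebraMap C K x = algebraMap C K y := congrArg Subtype.val h
      rw [hinjK this]
  have hgsurj : Function.Surjective g := by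
    rw [IsLocalization.lift_surjective_iff]
    intro v
    obtain ⟨c, s, hs, h⟩ := (bval_mem_iff q hq hmin V hV v).mp v.2
    exact ⟨(c, ⟨s, hs⟩), Subtype.ext h⟩
  exact IsDiscreteValuationRing.RingEquivClass.isDiscreteValuationRing (RingEquiv.ofBijective g ⟨hginj, hgsurj⟩)

/-- The centre on the integral closure of a valuation ring over a height one prime. -/
theorem bval_exists_q {R K : Type*} [CommRing R] [IsDomain R] [Field K] [Algebra R K]
    [IsFractionRing R K] (p : Ideal R) [p.IsPrime] (hp : p.height = 1)
    (V : ValuationSubring K) (hV : ∀ r : R, algebraMap R K r ∈ V ∧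
      (r ∈ p ↔ algebraMap R K r ∈ V.nonunits)) :
    ∃ q : Ideal (integralClosure R K), q.IsPrime ∧ p = q.comap (algebraMap R _) ∧ q ≠ ⊥ ∧
      (∀ q' : Ideal (integralClosure R K), q'.IsPrime → q' ≠ ⊥ → q' ≤ q → q' = q) ∧
      ∀ c : integralClosure R K, algebraMap (integralClosure R K) K c ∈ V ∧
        (c ∈ q ↔ algebraMap (integralClosure R K) K c ∈ V.nonunits) := by
  have hC : ∀ c : integralClosure R K, algebraMap (integralClosure R K) K c ∈ V :=
    fun c => bval_mem_of_integral V (fun r => (hV r).1) _ c.2
  let τ : integralClosure R K →+* V :=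
    (algebraMap (integralClosure R K) K).codRestrict V.toSubring hC
  have hτ : ∀ c, c ∈ (IsLocalRing.maximalIdeal V).comap τ ↔
      algebraMap (integralClosure R K) K c ∈ V.nonunits := by
    intro c
    rw [Ideal.mem_comap]
    exact (ValuationSubring.coe_mem_nonunits_iff (A := V) (a := τ c)).symm
  have hint : Algebra.IsIntegral R (integralClosure R K) := inferInstance
  have hcomap : p = ((IsLocalRing.maximalIdeal V).comap τ).comap
      (algebraMap R (integralClosure R K)) := by
    ext r
    rw [Ideal.mem_comap, hτ, (hV r).2]
    rfl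
  have hprime : ((IsLocalRing.maximalIdeal V).comap τ).IsPrime := Ideal.IsPrime.comap _
  have hp0 : p ≠ ⊥ := by
    rintro rfl
    have : (⊥ : Ideal R).height = 0 := Ideal.height_bot
    rw [this] at hp
    exact zero_ne_one hp
  refine ⟨(IsLocalRing.maximalIdeal V).comap τ, hprime, hcomap, ?_, ?_, fun c => ⟨hC c, hτ c⟩⟩
  · intro h0
    apply hp0
    rw [hcomap, h0, ← RingHom.ker_eq_comap_bot, RingHom.injective_iff_ker_eq_bot _ |>.mp]
    exact FaithfulSMul.algebraMap_injective _ _
  · intro q' hq' hq0 hle
    have h1 : q'.comap (algebraMap R (integralClosure R K)) ≤ p := by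
      conv_rhs => rw [hcomap]
      exact Ideal.comap_mono hle
    have h2 : q'.comap (algebraMap R (integralClosure R K)) ≠ ⊥ := by
      intro h
      exact hq0 (Ideal.eq_bot_of_comap_eq_bot h)
    have h2p : (q'.comap (algebraMap R (integralClosure R K))).IsPrime := Ideal.IsPrime.comap _
    have h3 : q'.comap (algebraMap R (integralClosure R K)) = p := by
      by_contra hne
      have hlt := lt_of_le_of_ne h1 hne
      have : p.FiniteHeight := ⟨Or.inr (by rw [hp]; exact ENat.one_ne_top)⟩
      have h4 := Ideal.height_strict_mono_of_isPrime_of_isPrime hlt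
      rw [hp, Order.lt_one_iff] at h4
      have h5 : (q'.comap (algebraMap R (integralClosure R K))) ∈ minimalPrimes R :=
        Ideal.height_eq_zero_iff.mp h4
      rw [IsDomain.minimalPrimes_eq_singleton_bot] at h5
      exact h2 h5
    by_contra hne
    obtain ⟨x, hx, hx'⟩ := SetLike.exists_of_lt (lt_of_le_of_ne hle hne)
    have h6 := Ideal.comap_lt_comap_of_integral_mem_sdiff hle ⟨hx, hx'⟩
      (Algebra.IsIntegral.isIntegral (R := R) x)
    rw [h3, ← hcomap] at h6
    exact lt_irrefl _ h6

/-- Valuation rings over a height one prime. -/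
theorem val_over_prime {k R K : Type*} [Field k] [IsAlgClosed k] [CommRing R] [IsDomain R]
    [Algebra k R] [Algebra.FiniteType k R] [Field K] [Algebra R K] [IsFractionRing R K]
    (p : Ideal R) [p.IsPrime] (hp : p.height = 1) :
    {V : ValuationSubring K | ∀ r : R, algebraMap R K r ∈ V ∧
      (r ∈ p ↔ algebraMap R K r ∈ V.nonunits)}.Finite ∧
    ∀ V : ValuationSubring K, (∀ r : R, algebraMap R K r ∈ V ∧
      (r ∈ p ↔ algebraMap R K r ∈ V.nonunits)) →
      IsDiscreteValuationRing V ∧
      ∃ φ : FractionRing (R ⧸ p) →+* IsLocalRing.ResidueField V,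
        (∀ (r : R) (r' : V), (r' : K) = algebraMap R K r →
          φ (algebraMap (R ⧸ p) (FractionRing (R ⧸ p)) (Ideal.Quotient.mk p r)) =
            IsLocalRing.residue V r') ∧ φ.Finite := by
  have hR : IsNoetherianRing R := Algebra.FiniteType.isNoetherianRing k R
  have hfin : Module.Finite R (integralClosure R K) := finite_integralClosure (k := k)
  have hC : IsNoetherianRing (integralClosure R K) := IsNoetherianRing.of_finite R _
  have halg : Algebra.IsAlgebraic R K := IsLocalization.isAlgebraic (R := R) (S := K) (nonZeroDivisors R)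
  have hfr : IsFractionRing (integralClosure R K) K :=
    integralClosure.isFractionRing_of_algebraic
      (fun x hx => IsFractionRing.injective R K (by rw [hx, map_zero]))
  have hic : IsIntegrallyClosed (integralClosure R K) := by
    rw [isIntegrallyClosed_iff_isIntegrallyClosedIn K]
    infer_instance
  constructor
  · classical
    let Q : ValuationSubring K → Ideal (integralClosure R K) := fun V =>
      if h : ∀ r : R, algebraMap R K r ∈ V ∧ (r ∈ p ↔ algebraMap R K r ∈ V.nonunits) then
        (bval_exists_q p hp V h).choose else ⊥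
    have hQ : ∀ (V : ValuationSubring K) (h : ∀ r : R, algebraMap R K r ∈ V ∧
        (r ∈ p ↔ algebraMap R K r ∈ V.nonunits)),
        (Q V).IsPrime ∧ p = (Q V).comap (algebraMap R _) ∧ Q V ≠ ⊥ ∧
      (∀ q' : Ideal (integralClosure R K), q'.IsPrime → q' ≠ ⊥ → q' ≤ Q V → q' = Q V) ∧
      ∀ c : integralClosure R K, algebraMap (integralClosure R K) K c ∈ V ∧
        (c ∈ Q V ↔ algebraMap (integralClosure R K) K c ∈ V.nonunits) := by
      intro V h
      have h1 : Q V = (bval_exists_q p hp V h).choose := by simp only [Q, dif_pos h]
      rw [h1]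
      exact (bval_exists_q p hp V h).choose_spec
    refine Set.Finite.of_injOn (f := Q) (t := p.primesOver (integralClosure R K)) ?_ ?_
      (Algebra.QuasiFinite.finite_primesOver p)
    · intro V hV
      obtain ⟨h1, h2, -⟩ := hQ V hV
      exact ⟨h1, ⟨h2⟩⟩
    · intro V hV W hW hVW
      obtain ⟨h1, -, h3, h4, h5⟩ := hQ V hV
      obtain ⟨-, -, -, -, h6⟩ := hQ W hW
      rw [← hVW] at h6
      ext x
      rw [bval_mem_iff (Q V) h3 h4 V h5 x, bval_mem_iff (Q V) h3 h4 W h6 x]
  · intro V hV
    obtain ⟨q, hq, hqp, hq0, hqmin, hqV⟩ := bval_exists_q p hp V hV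
    refine ⟨bval_isDVR q hq0 hqmin V hqV, ?_⟩
    let ρ : R →+* V := (algebraMap R K).codRestrict V.toSubring (fun r => (hV r).1)
    let π : R →+* IsLocalRing.ResidueField V := (IsLocalRing.residue V).comp ρ
    have hπ : ∀ r : R, π r = 0 ↔ r ∈ p := by
      intro r
      change IsLocalRing.residue V (ρ r) = 0 ↔ _
      rw [IsLocalRing.residue_eq_zero_iff, ← ValuationSubring.coe_mem_nonunits_iff, (hV r).2]
      rfl
    let ψ : R ⧸ p →+* IsLocalRing.ResidueField V :=
      Ideal.Quotient.lift p π (fun r hr => (hπ r).mpr hr)
    have hψ : Function.Injective ψ := by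
      rw [injective_iff_map_eq_zero]
      intro x hx
      obtain ⟨r, rfl⟩ := Ideal.Quotient.mk_surjective x
      rw [Ideal.Quotient.eq_zero_iff_mem, ← hπ]
      exact hx
    have hρ : ∀ (r : R) (r' : V), (r' : K) = algebraMap R K r → r' = ρ r :=
      fun r r' h => Subtype.ext h
    let φ : FractionRing (R ⧸ p) →+* IsLocalRing.ResidueField V := IsFractionRing.lift hψ
    have hφ : ∀ r : R, φ (algebraMap (R ⧸ p) (FractionRing (R ⧸ p)) (Ideal.Quotient.mk p r)) =
        π r := fun r => IsFractionRing.lift_algebraMap hψ _
    refine ⟨φ, ?_, ?_⟩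
    · intro r r' h
      rw [hφ, hρ r r' h]
      rfl
    · let τ : integralClosure R K →+* V :=
        (algebraMap (integralClosure R K) K).codRestrict V.toSubring (fun c => (hqV c).1)
      let σ : integralClosure R K →+* IsLocalRing.ResidueField V :=
        (IsLocalRing.residue V).comp τ
      have hσ : ∀ c, σ c = 0 ↔ c ∈ q := by
        intro c
        change IsLocalRing.residue V (τ c) = 0 ↔ _
        rw [IsLocalRing.residue_eq_zero_iff, ← ValuationSubring.coe_mem_nonunits_iff,
          (hqV c).2]
        rfl
      have hσπ : ∀ r : R, σ (algebraMap R _ r) = π r := fun r => rfl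
      let _ : Algebra (FractionRing (R ⧸ p)) (IsLocalRing.ResidueField V) := φ.toAlgebra
      have hcomp : (algebraMap (FractionRing (R ⧸ p)) (IsLocalRing.ResidueField V)).comp
          ((algebraMap (R ⧸ p) (FractionRing (R ⧸ p))).comp (Ideal.Quotient.mk p)) =
          σ.comp (algebraMap R _) := by
        ext r
        exact hφ r
      have hint : ∀ c, IsIntegral (FractionRing (R ⧸ p)) (σ c) := by
        intro c
        obtain ⟨f, hf, hfc⟩ := Algebra.IsIntegral.isIntegral (R := R) c
        refine ⟨f.map ((algebraMap (R ⧸ p) (FractionRing (R ⧸ p))).comp (Ideal.Quotient.mk p)),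
          hf.map _, ?_⟩
        rw [Polynomial.eval₂_map, hcomp, ← Polynomial.hom_eval₂, hfc, map_zero]
      obtain ⟨S, hS⟩ := hfin.fg_top
      let F : IntermediateField (FractionRing (R ⧸ p)) (IsLocalRing.ResidueField V) :=
        IntermediateField.adjoin _ (σ '' (S : Set (integralClosure R K)))
      have hFfin : FiniteDimensional (FractionRing (R ⧸ p)) F := by
        have : Finite (σ '' (S : Set (integralClosure R K))) := (S.finite_toSet.image σ).to_subtype
        apply IntermediateField.finiteDimensional_adjoin
        rintro _ ⟨c, -, rfl⟩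
        exact hint c
      have hFσ : ∀ c, σ c ∈ F := by
        intro c
        have hc : c ∈ Submodule.span R (S : Set (integralClosure R K)) := by
          rw [hS]
          trivial
        induction hc using Submodule.span_induction with
        | mem x hx => exact IntermediateField.subset_adjoin _ _ ⟨x, hx, rfl⟩
        | zero => rw [map_zero]; exact F.zero_mem
        | add x y _ _ hx hy => rw [map_add]; exact F.add_mem hx hy
        | smul r x _ hx =>
          rw [Algebra.smul_def, map_mul, hσπ, ← hφ]
          exact F.mul_mem (F.algebraMap_mem _) hx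
      have htop : F = ⊤ := by
        rw [eq_top_iff]
        intro y _
        obtain ⟨v, rfl⟩ := IsLocalRing.residue_surjective y
        obtain ⟨c, s, hs, h⟩ := (bval_mem_iff q hq0 hqmin V hqV v).mp v.2
        have h1 : v * τ s = τ c := Subtype.ext h
        have h2 : IsLocalRing.residue V v * σ s = σ c := by
          change IsLocalRing.residue V v * IsLocalRing.residue V (τ s) =
            IsLocalRing.residue V (τ c)
          rw [← map_mul, h1]
        have h3 : σ s ≠ 0 := fun h0 => hs ((hσ s).mp h0)
        have h4 : IsLocalRing.residue V v = σ c / σ s := by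
          rw [eq_div_iff h3, h2]
        rw [h4]
        exact F.div_mem (hFσ c) (hFσ s)
      rw [htop] at hFfin
      change Module.Finite (FractionRing (R ⧸ p)) (IsLocalRing.ResidueField V)
      exact Module.Finite.equiv
        (IntermediateField.topEquiv (F := FractionRing (R ⧸ p))
          (E := IsLocalRing.ResidueField V)).toLinearEquiv

end Pool.Agent.K1
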