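import Pool.Agent.K1.NDefs

/-!
The surface through given curves (in dimension at least three): definitions.
-/

set_option autoImplicit false

open Polynomial

namespace Pool.Agent.K1

section places

/-- The unit `t` of the field `F` is a unit of the valuation ring `v`. -/
def UnitIn {F : Type} [Field F] (v : ValuationSubring F) (t : Fˣ) : Prop :=
  (t : F) ∈ v ∧ ((t⁻¹ : Fˣ) : F) ∈ v

/-- Every element of `F` is a quotient of elements of `A`. -/
def IsFrac {A F : Type} [CommRing A] [Field F] (ρ : A →+* F) : Prop :=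
  ∀ f : F, ∃ a b : A, ρ b ≠ 0 ∧ f * ρ b = ρ a

/-- `V` is centred on `A` (mapped to `K` by `τ`) at the kernel of `ρ`. -/
def DomR {A K F : Type} [CommRing A] [Field K] [Field F] (τ : A →+* K) (ρ : A →+* F)
    (V : ValuationSubring K) : Prop :=
  ∀ a : A, τ a ∈ V ∧ (ρ a = 0 ↔ τ a ∈ V.nonunits)

/-- `φ` is the map of residue fields induced by `A → V`. -/
def IsRes {A K F : Type} [CommRing A] [Field K] [Field F] (τ : A →+* K) (ρ : A →+* F)
    (V : ValuationSubring K) (φ : F →+* IsLocalRing.ResidueField V) : Prop :=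
  ∀ (a : A) (b : V), (b : K) = τ a → φ (ρ a) = IsLocalRing.residue V b

/-- `n` is the order at the point `z` of the rational function `t` on the curve `ker ρ` with
function field `F` (`0` if `z` is not on the curve). -/
def IsOrdR {k A F : Type} [Field k] [CommRing A] [Algebra k A] [Field F] (ρ : A →+* F)
    (z : A →ₐ[k] k) (t : Fˣ) (n : ℤ) : Prop :=
  ∃ c d : A, ρ c ≠ 0 ∧ ρ d ≠ 0 ∧ (t : F) * ρ d = ρ c ∧
    n = ((ordPt (RingHom.ker ρ) z c).toNat : ℤ) - ((ordPt (RingHom.ker ρ) z d).toNat : ℤ)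

/-- The valuation ring `v` of `F` is centred at the point `z` of `A`. -/
def CentredAt {k A F : Type} [Field k] [CommRing A] [Algebra k A] [Field F] (ρ : A →+* F)
    (v : ValuationSubring F) (z : A →ₐ[k] k) : Prop :=
  ∀ a : A, ρ a ∈ v ∧ (z a = 0 → ρ a ∈ v.nonunits)

/-- `π` is a uniformizer of `v`. -/
def IsUnifV {F : Type} [Field F] (v : ValuationSubring F) (π : F) : Prop :=
  π ≠ 0 ∧ ∀ x : F, x ∈ v.nonunits ↔ ∃ c ∈ v, x = π * c

/-- `v` is a discrete valuation ring of `F`. -/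
def IsDiscV {F : Type} [Field F] (v : ValuationSubring F) : Prop :=
  ∃ π : F, IsUnifV v π ∧ ∀ t : F, t ≠ 0 → ∃ (n : ℤ) (u : Fˣ), UnitIn v u ∧ t = π ^ n * u

open Classical in
/-- The order of `t` at the discrete valuation ring `v`. -/
noncomputable def ordV {F : Type} [Field F] (v : ValuationSubring F) (t : F) : ℤ :=
  if h : ∃ n : ℤ, ∃ (π : F) (u : Fˣ), IsUnifV v π ∧ UnitIn v u ∧ t = π ^ n * u then h.choose
  else 0

/-- The places of the curve `ker ρ`, with function field `F`. -/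
structure PlaceThy (k : Type) {A F : Type} [Field k] [CommRing A] [Algebra k A] [Field F]
    (ρ : A →+* F) : Prop where
  disc : ∀ v : ValuationSubring F, v ≠ ⊤ → (∀ a, ρ a ∈ v) → IsDiscV v
  res : ∀ v : ValuationSubring F, v ≠ ⊤ → (∀ a, ρ a ∈ v) → ∀ t ∈ v,
    ∃ c : k, t - ρ (algebraMap k A c) ∈ v.nonunits
  ctr : ∀ v : ValuationSubring F, v ≠ ⊤ → (∀ a, ρ a ∈ v) → ∃ z : A →ₐ[k] k, CentredAt ρ v z
  surj : ∀ z : A →ₐ[k] k, (∀ a, ρ a = 0 → z a = 0) →
    ∃ v : ValuationSubring F, v ≠ ⊤ ∧ CentredAt ρ v z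
  fin_nonunit : ∀ t : Fˣ,
    {v : ValuationSubring F | v ≠ ⊤ ∧ (∀ a, ρ a ∈ v) ∧ ¬ UnitIn v t}.Finite
  fin_ctr : ∀ z : A →ₐ[k] k, {v : ValuationSubring F | v ≠ ⊤ ∧ CentredAt ρ v z}.Finite
  approx : ∀ (S : Finset (ValuationSubring F)) (c : ValuationSubring F → k),
    (∀ v ∈ S, v ≠ ⊤ ∧ ∀ a, ρ a ∈ v) →
    ∃ a : F, (∀ v : ValuationSubring F, (∀ b, ρ b ∈ v) → a ∈ v) ∧
      ∀ v ∈ S, ordV v (a - ρ (algebraMap k A (c v))) = 1
  ord : ∀ (z : A →ₐ[k] k) (t : Fˣ) (n : ℤ), IsOrdR ρ z t n ↔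
    n = ∑ᶠ v ∈ {v : ValuationSubring F | v ≠ ⊤ ∧ CentredAt ρ v z}, ordV v t

end places

section poly

/-- The polynomials over `A` evaluated at `a`. -/
noncomputable def polyR {A F : Type} [CommRing A] [Field F] (ρ : A →+* F) (a : F) :
    A[X] →+* F := eval₂RingHom ρ a

/-- The point `(z, c)` of `Spec A[X]`. -/
noncomputable def polyZ {k A : Type} [Field k] [CommRing A] [Algebra k A] (z : A →ₐ[k] k)
    (c : k) : A[X] →ₐ[k] k where
  toRingHom := eval₂RingHom z.toRingHom c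
  commutes' r := by
    change eval₂ z.toRingHom c (algebraMap k A[X] r) = r
    rw [Polynomial.algebraMap_apply, eval₂_C]
    exact z.commutes r

/-- The contraction to `B` of the extension of `J` to the local ring at `𝔮`. -/
def satI {B : Type} [CommRing B] (J 𝔮 : Ideal B) [h𝔮 : 𝔮.IsPrime] : Ideal B where
  carrier := {f | ∃ s, s ∉ 𝔮 ∧ s * f ∈ J}
  add_mem' := by
    rintro f g ⟨s, hs, hf⟩ ⟨t, ht, hg⟩
    refine ⟨s * t, fun h => (h𝔮.mem_or_mem h).elim hs ht, ?_⟩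
    have h1 : s * t * (f + g) = t * (s * f) + s * (t * g) := by ring
    rw [h1]
    exact J.add_mem (J.mul_mem_left _ hf) (J.mul_mem_left _ hg)
  zero_mem' := ⟨1, fun h => h𝔮.ne_top ((Ideal.eq_top_iff_one _).2 h), by
    rw [mul_zero]; exact J.zero_mem⟩
  smul_mem' := by
    rintro r f ⟨s, hs, hf⟩
    refine ⟨s, hs, ?_⟩
    rw [smul_eq_mul, mul_left_comm]
    exact J.mul_mem_left _ hf

/-- The data of a surface in `Spec A[X]` through the curves `(ker ρ x, a x)` and the lines over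
the points of `Y`. -/
structure TBlock {k A : Type} [Field k] [CommRing A] [Algebra k A] {ι : Type} {F : ι → Type}
    [∀ x, Field (F x)] (ρ : ∀ x, A →+* F x) (h : ∀ x, (F x)ˣ) where
  /-- the third coordinate on the curves -/
  a : ∀ x, F x
  /-- its values -/
  c : ∀ x, ValuationSubring (F x) → k
  /-- the points under zeros and poles -/
  Y : Finset (A →ₐ[k] k)
  /-- the codimension of the surface is `m + 2` -/
  m : ℕ
  /-- the equations -/
  eq : Fin (m + 2) → A[X]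
  integral : ∀ x (v : ValuationSubring (F x)), (∀ b, ρ x b ∈ v) → a x ∈ v
  mem_Y : ∀ x (v : ValuationSubring (F x)), v ≠ ⊤ → (∀ b, ρ x b ∈ v) → ¬ UnitIn v (h x) → ∃ y ∈ Y, CentredAt (ρ x) v y
  Y_mem : ∀ y ∈ Y, ∃ x, ∃ v : ValuationSubring (F x), v ≠ ⊤ ∧ CentredAt (ρ x) v y ∧ ¬ UnitIn v (h x)
  ord_one : ∀ x (v : ValuationSubring (F x)), ∀ y ∈ Y, v ≠ ⊤ → CentredAt (ρ x) v y →
    ordV v (a x - ρ x (algebraMap k A (c x v))) = 1
  sep : ∀ y ∈ Y, ∀ (x : ι) (v : ValuationSubring (F x)) (x' : ι) (v' : ValuationSubring (F x')),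
    v ≠ ⊤ → CentredAt (ρ x) v y → v' ≠ ⊤ → CentredAt (ρ x') v' y → c x v = c x' v' →
      (⟨x, v⟩ : Σ x, ValuationSubring (F x)) = ⟨x', v'⟩
  dim : ringKrullDim A = ((m + 3 : ℕ) : WithBot ℕ∞)
  eq_curve : ∀ j x, polyR (ρ x) (a x) (eq j) = 0
  eq_line : ∀ j, ∀ y ∈ Y, (eq j).map y.toRingHom = 0
  indep : ∀ x (v : ValuationSubring (F x)), ∀ y ∈ Y, v ≠ ⊤ → CentredAt (ρ x) v y → ¬ UnitIn v (h x) →
    ∀ α : Fin (m + 2) → k,
      ∑ j, α j • eq j ∈ (RingHom.ker (polyZ y (c x v))) ^ 2 → ∀ j, α j = 0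
  lead : ∀ x, ρ x (eq 0).leadingCoeff ≠ 0
  gcd : ∀ x, Ideal.span {(eq 0).map (ρ x), (eq 1).map (ρ x)} = Ideal.span {X - C (a x)}

/-- The place `v` of the curve `x`, centred at `y`, is a zero or a pole of `h x`. -/
def TBlock.Special {k A : Type} [Field k] [CommRing A] [Algebra k A] {ι : Type} {F : ι → Type}
    [∀ x, Field (F x)] {ρ : ∀ x, A →+* F x} {h : ∀ x, (F x)ˣ} (T : TBlock (k := k) ρ h) (x : ι)
    (v : ValuationSubring (F x)) (y : A →ₐ[k] k) : Prop :=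
  y ∈ T.Y ∧ v ≠ ⊤ ∧ CentredAt (ρ x) v y ∧ ¬ UnitIn v (h x)

/-- The ideal of the equations. -/
noncomputable def TBlock.J {k A : Type} [Field k] [CommRing A] [Algebra k A] {ι : Type} {F : ι → Type}
    [∀ x, Field (F x)] {ρ : ∀ x, A →+* F x} {h : ∀ x, (F x)ˣ} (T : TBlock (k := k) ρ h) :
    Ideal A[X] := Ideal.span (Set.range T.eq)

instance polyR_prime {A F : Type} [CommRing A] [Field F] (ρ : A →+* F) (a : F) :
    (RingHom.ker (polyR ρ a)).IsPrime := RingHom.ker_isPrime _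

instance polyZ_prime {k A : Type} [Field k] [CommRing A] [Algebra k A] (z : A →ₐ[k] k)
    (c : k) : (RingHom.ker (polyZ z c)).IsPrime := RingHom.ker_isPrime _

end poly

/-- Theorem N for finite families of curves with given function fields. -/
def ThmNF : Prop :=
  ∀ (p : ℕ) [Fact p.Prime] (k A K : Type) [Field k] [CharP k p] [IsAlgClosed k]
    [Algebra (ZMod p) k] [Algebra.IsAlgebraic (ZMod p) k] [CommRing A] [IsDomain A] [Algebra k A]
    [Field K] [Algebra k K] [Algebra A K] [IsScalarTower k A K] [IsFractionRing A K]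
    (_ : Algebra.trdeg k K = 2) {n : ℕ} (w : Fin (n + 1) → K) (_ : w 0 ≠ 0)
    (_ : Set.range (algebraMap A K) =
      (Algebra.adjoin k (Set.range fun i => w i / w 0) : Set K))
    {ι : Type} [Finite ι] (F : ι → Type) [∀ x, Field (F x)] (ρ : ∀ x, A →+* F x)
    (_ : ∀ x, IsFrac (ρ x)) (_ : ∀ x, (RingHom.ker (ρ x)).height = 1)
    (_ : ∀ x x', RingHom.ker (ρ x) = RingHom.ker (ρ x') → x = x')
    (_ : ∀ x, haveI := RingHom.ker_isPrime (ρ x)
      IsDiscreteValuationRing (Localization.AtPrime (RingHom.ker (ρ x))))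
    (h : ∀ x, (F x)ˣ)
    (_ : ∀ x, ∀ v : ValuationSubring (F x), (∀ c : k, ρ x (algebraMap k A c) ∈ v) →
      UnitIn v (h x) ∨ ∃ z : A →ₐ[k] k, RegPt z ∧ CentredAt (ρ x) v z)
    (_ : ∀ z : A →ₐ[k] k, RegPt z → ∃ m : ι →₀ ℤ,
      (∀ x, IsOrdR (ρ x) z (h x) (m x)) ∧ m.sum (fun _ a => a) = 0),
    ∃ N : ℕ, 0 < N ∧ ∃ (r : ℕ) (f g : Fin r → K), (∀ i, f i ≠ 0 ∧ g i ≠ 0) ∧
      ∀ V : ValuationSubring K, CurveV k w V →
        ∃ t : Fin r → (IsLocalRing.ResidueField V)ˣ, (∀ i, IsTameV V (f i) (g i) (t i)) ∧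
          (∀ x, DomR (algebraMap A K) (ρ x) V → ∀ φ, IsRes (algebraMap A K) (ρ x) V φ →
            ∏ i, t i = Units.map φ.toMonoidHom (h x) ^ N) ∧
          ((∀ x, ¬ DomR (algebraMap A K) (ρ x) V) → ∏ i, t i = 1)

/-- The theorem on affine regular varieties of dimension at least three. -/
def AffB : Prop :=
  ∀ (p : ℕ) [Fact p.Prime] (k A : Type) [Field k] [CharP k p] [IsAlgClosed k]
    [Algebra (ZMod p) k] [Algebra.IsAlgebraic (ZMod p) k] [CommRing A] [IsDomain A] [Algebra k A]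
    [IsRegularRing A] (m : ℕ) (_ : ringKrullDim A = ((m + 3 : ℕ) : WithBot ℕ∞))
    {n : ℕ} (w : Fin (n + 1) → A) (_ : w 0 = 1) (_ : Algebra.adjoin k (Set.range w) = ⊤)
    {ι : Type} [Finite ι] (F : ι → Type) [∀ x, Field (F x)] (ρ : ∀ x, A →+* F x)
    (_ : ∀ x, IsFrac (ρ x)) (_ : ∀ x, ringKrullDim (A ⧸ RingHom.ker (ρ x)) = 1)
    (_ : ∀ x x', RingHom.ker (ρ x) = RingHom.ker (ρ x') → x = x')
    (h : ∀ x, (F x)ˣ)
    (_ : ∀ x, ∀ v : ValuationSubring (F x), (∀ c : k, ρ x (algebraMap k A c) ∈ v) →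
      (∃ a, ρ x a ∉ v) → UnitIn v (h x))
    (_ : ∀ z : A →ₐ[k] k, ∃ m : ι →₀ ℤ,
      (∀ x, IsOrdR (ρ x) z (h x) (m x)) ∧ m.sum (fun _ a => a) = 0),
    ∃ (κ : Type) (_ : Finite κ) (cls : ι → Option κ) (Q : κ → Ideal A),
      (∀ x, cls x = none → ∃ N : ℕ, 0 < N ∧ h x ^ N = 1) ∧
      (∀ c, (Q c).IsPrime ∧ ringKrullDim (A ⧸ Q c) = 2) ∧
      (∀ x c, cls x = some c → Q c ≤ RingHom.ker (ρ x)) ∧
      ∀ (c : κ) (K : Type) [Field K] (τ : A →+* K), IsFrac τ → RingHom.ker τ = Q c →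
        letI : Algebra k K := (τ.comp (algebraMap k A)).toAlgebra
        (∀ x, cls x = some c → ∃ V : ValuationSubring K, DomR τ (ρ x) V ∧ IsDiscV V ∧
          (∀ V', DomR τ (ρ x) V' → V' = V) ∧
          ∃ φ : F x →+* IsLocalRing.ResidueField V, IsRes τ (ρ x) V φ ∧ Function.Bijective φ) ∧
        ∃ N : ℕ, 0 < N ∧ ∃ (r : ℕ) (f g : Fin r → K), (∀ i, f i ≠ 0 ∧ g i ≠ 0) ∧
          ∀ V : ValuationSubring K, CurveV k (fun i => τ (w i)) V →
            ∃ t : Fin r → (IsLocalRing.ResidueField V)ˣ, (∀ i, IsTameV V (f i) (g i) (t i)) ∧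
              (∀ x, cls x = some c → DomR τ (ρ x) V → ∀ φ, IsRes τ (ρ x) V φ →
                ∏ i, t i = Units.map φ.toMonoidHom (h x) ^ N) ∧
              ((∀ x, cls x = some c → ¬ DomR τ (ρ x) V) → ∏ i, t i = 1)

end Pool.Agent.K1
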