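import Pool.Agent.K1.BDomIff
import Pool.Agent.K1.BValPrime
import Pool.Agent.K1.TDefs

/-!
(B), part III: the valuation rings of `κ(η)` dominating the local ring of a point `x` of
codimension one on the closure of `η` are finite in number, discrete, and their residue fields
are finite over `κ(x)`.
-/

set_option autoImplicit false

open AlgebraicGeometry CategoryTheory

attribute [local instance] MvPolynomial.gradedAlgebra

namespace Pool.Agent.K1

theorem bdm_isFrac {X : Scheme.{0}} {U : X.Opens} (hU : IsAffineOpen U) {x : X} (hx : x ∈ U) :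
    IsFrac ((X.evaluation U x hx).hom) := by
  intro f
  obtain ⟨b, hb⟩ := X.residue_surjective x f
  obtain ⟨a, s, hs, hbs⟩ := bdom_stalk_quot U hU hx b
  refine ⟨a, s, fun h0 => (af_eval_eq_zero hx s).1 h0 hs, ?_⟩
  have h1 := congrArg (X.residue x).hom hbs
  rw [map_mul] at h1
  rw [← hb]
  exact h1

theorem bdm_coheight {X : Scheme.{0}} {U : X.Opens} (hU : IsAffineOpen U) {x : X} (hx : x ∈ U) :
    Order.coheight x = (RingHom.ker (X.evaluation U x hx).hom).height := by
  obtain ⟨P, rfl⟩ := af_surj hU hx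
  rw [af_coheight]
  congr 1
  ext a
  rw [RingHom.mem_ker, af_eval_eq_zero, af_germ_unit, not_not]

/-- The map of residue fields on the whole local ring. -/
theorem bdm_isRes {X : Scheme.{0}} {U : X.Opens} (hU : IsAffineOpen U) {η x : X} (h : η ⤳ x)
    (hx : x ∈ U) (hη : η ∈ U) (V : ValuationSubring (X.residueField η)) (hV : Dominates h V)
    (φ : X.residueField x →+* IsLocalRing.ResidueField V)
    (hφ : IsRes (X.evaluation U η hη).hom (X.evaluation U x hx).hom V φ)
    (b : X.presheaf.stalk x) (b' : V) (hb : (b' : X.residueField η) = evalAt h b) :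
    φ ((X.residue x).hom b) = IsLocalRing.residue V b' := by
  obtain ⟨a, s, hs, hbs⟩ := bdom_stalk_quot U hU hx b
  have hev : ∀ a : Γ(X, U), evalAt h ((X.presheaf.germ U x hx).hom a) =
      (X.evaluation U η hη).hom a := fun a => evalAt_germ h U hx a
  have haV : (X.evaluation U η hη).hom a ∈ V := by
    rw [← hev a]
    exact (hV _).1
  have hsV : (X.evaluation U η hη).hom s ∈ V := by
    rw [← hev s]
    exact (hV _).1
  have h1 : φ ((X.evaluation U x hx).hom a) = IsLocalRing.residue V ⟨_, haV⟩ := hφ a ⟨_, haV⟩ rfl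
  have h2 : φ ((X.evaluation U x hx).hom s) = IsLocalRing.residue V ⟨_, hsV⟩ := hφ s ⟨_, hsV⟩ rfl
  have h3 : (X.residue x).hom b * (X.evaluation U x hx).hom s =
      (X.evaluation U x hx).hom a := by
    have h4 := congrArg (X.residue x).hom hbs
    rw [map_mul] at h4
    exact h4
  have h5 : b' * ⟨_, hsV⟩ = (⟨_, haV⟩ : V) := by
    apply Subtype.ext
    change (b' : X.residueField η) * (X.evaluation U η hη).hom s = (X.evaluation U η hη).hom a
    rw [hb, ← hev s, ← hev a, ← map_mul, hbs]
  have h6 : φ ((X.evaluation U x hx).hom s) ≠ 0 := by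
    intro h0
    rw [map_eq_zero] at h0
    exact (af_eval_eq_zero hx s).1 h0 hs
  have h7 : φ ((X.residue x).hom b) * φ ((X.evaluation U x hx).hom s) =
      IsLocalRing.residue V b' * φ ((X.evaluation U x hx).hom s) := by
    rw [← map_mul, h3, h1, ← h5, map_mul, ← h2]
  exact mul_right_cancel₀ h6 h7

/-- `IsFractionRing` from quotients. -/
theorem bdm_fraction {R K : Type} [CommRing R] [Field K] [Algebra R K]
    (hinj : Function.Injective (algebraMap R K))
    (h : ∀ f : K, ∃ a b : R, algebraMap R K b ≠ 0 ∧ f * algebraMap R K b = algebraMap R K a) :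
    IsFractionRing R K := by
  have : FaithfulSMul R K := (faithfulSMul_iff_algebraMap_injective R K).2 hinj
  refine IsFractionRing.of_field _ _ fun z => ?_
  obtain ⟨a, b, hb, hab⟩ := h z
  exact ⟨a, b, by rw [eq_div_iff hb, hab]⟩

/-- The pure ring theory: `A → K`, `A → F` with kernels of heights `m`, `m + 1`. -/
theorem bdm_ring {k A K F : Type} [Field k] [IsAlgClosed k] [CommRing A] [Algebra k A]
    [Algebra.FiniteType k A] [Field K] [Field F] (τ : A →+* K) (ρ : A →+* F) (hτ : IsFrac τ)
    (hρ : IsFrac ρ) (hle : RingHom.ker τ ≤ RingHom.ker ρ) (m : ℕ)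
    (hm : (RingHom.ker τ).height = (m : ℕ∞)) (hm1 : (RingHom.ker ρ).height = ((m + 1 : ℕ) : ℕ∞)) :
    {V : ValuationSubring K | DomR τ ρ V}.Finite ∧
    ∀ V : ValuationSubring K, DomR τ ρ V → IsDiscreteValuationRing V ∧
      ∃ φ : F →+* IsLocalRing.ResidueField V, IsRes τ ρ V φ ∧ φ.Finite := by
  classical
  let R := τ.range
  let q : A →+* R := τ.rangeRestrict
  have hq : Function.Surjective q := τ.rangeRestrict_surjective
  have hqk : RingHom.ker q = RingHom.ker τ := by
    ext a
    rw [RingHom.mem_ker, RingHom.mem_ker, Subtype.ext_iff]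
    rfl
  let _ : Algebra k R := (q.comp (algebraMap k A)).toAlgebra
  have hft : Algebra.FiniteType k R := by
    let qa : A →ₐ[k] R := { q with commutes' := fun c => rfl }
    exact Algebra.FiniteType.of_surjective qa hq
  have hfr : IsFractionRing R K := by
    apply bdm_fraction
    · exact Subtype.val_injective
    · intro f
      obtain ⟨a, b, hb, hab⟩ := hτ f
      exact ⟨q a, q b, hb, hab⟩
  let p : Ideal R := (RingHom.ker ρ).map q
  have hcomap : p.comap q = RingHom.ker ρ := by
    rw [Ideal.comap_map_of_surjective q hq, ← RingHom.ker_eq_comap_bot, hqk]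
    exact sup_eq_left.2 hle
  have hqp : ∀ a, q a ∈ p ↔ ρ a = 0 := fun a => by
    rw [← Ideal.mem_comap, hcomap, RingHom.mem_ker]
  have hp : p.IsPrime := by
    have hk : (RingHom.ker ρ).IsPrime := RingHom.ker_isPrime ρ
    exact Ideal.map_isPrime_of_surjective hq (by rw [hqk]; exact hle)
  have hph : p.height = 1 := by
    have hk : (RingHom.ker ρ).IsPrime := RingHom.ker_isPrime ρ
    have hkτ : (RingHom.ker τ).IsPrime := RingHom.ker_isPrime τ
    apply le_antisymm
    · have h1 : p.height ≤ ((1 : ℕ) : ℕ∞) := by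
        rw [Ideal.height_le_iff]
        intro r hr hrp
        have h2 : r.comap q < RingHom.ker ρ := by
          rw [← hcomap]
          refine lt_of_le_of_ne (Ideal.comap_mono hrp.le) fun h3 => hrp.ne ?_
          exact Ideal.comap_injective_of_surjective q hq h3
        have hrc : (r.comap q).IsPrime := hr.comap q
        have h4 : (r.comap q).height < ((m + 1 : ℕ) : ℕ∞) :=
          Ideal.height_le_iff.1 hm1.le _ hrc h2
        have h5 : RingHom.ker τ ≤ r.comap q := by
          rw [← hqk, RingHom.ker_eq_comap_bot]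
          exact Ideal.comap_mono bot_le
        have h6 : r.comap q = RingHom.ker τ := by
          by_contra h7
          have h8 : RingHom.ker τ < r.comap q := lt_of_le_of_ne h5 (Ne.symm h7)
          have h9 : (r.comap q).height ≤ ((m : ℕ) : ℕ∞) := by
            have h10 : ((m + 1 : ℕ) : ℕ∞) = (m : ℕ∞) + 1 := by push_cast; rfl
            rw [h10] at h4
            exact Order.le_of_lt_add_one h4
          have h11 := Ideal.height_le_iff.1 h9 _ hkτ h8
          rw [hm] at h11
          exact lt_irrefl _ h11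
        have h7 : r = ⊥ := by
          apply Ideal.comap_injective_of_surjective q hq
          rw [h6, ← RingHom.ker_eq_comap_bot, hqk]
        have h8 : r.height = 0 := by
          rw [h7]
          exact Ideal.height_bot
        rw [h8]
        exact_mod_cast Nat.one_pos
      exact_mod_cast h1
    · rw [Order.one_le_iff_ne_zero]
      intro h0
      have h1 : p = ⊥ := Ideal.height_eq_zero_iff_eq_bot.1 h0
      have h2 : RingHom.ker ρ = RingHom.ker τ := by
        rw [← hcomap, h1, ← RingHom.ker_eq_comap_bot, hqk]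
      rw [h2, hm] at hm1
      have h3 : m = m + 1 := by exact_mod_cast hm1
      omega
  have hiff : ∀ V : ValuationSubring K, DomR τ ρ V ↔ ∀ r : R, algebraMap R K r ∈ V ∧
      (r ∈ p ↔ algebraMap R K r ∈ V.nonunits) := by
    intro V
    constructor
    · intro hV r
      obtain ⟨a, rfl⟩ := hq r
      rw [hqp]
      exact hV a
    · intro hV a
      have := hV (q a)
      rw [hqp] at this
      exact this
  obtain ⟨hfin, hval⟩ := val_over_prime (k := k) (R := R) (K := K) p hph
  refine ⟨?_, ?_⟩
  · have : {V : ValuationSubring K | DomR τ ρ V} =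
        {V : ValuationSubring K | ∀ r : R, algebraMap R K r ∈ V ∧
          (r ∈ p ↔ algebraMap R K r ∈ V.nonunits)} := Set.ext hiff
    rw [this]
    exact hfin
  intro V hV
  obtain ⟨hdvr, φ, hφ, hφf⟩ := hval V ((hiff V).1 hV)
  refine ⟨hdvr, ?_⟩
  -- the map `R → F`
  have hker : RingHom.ker q ≤ RingHom.ker ρ := by rw [hqk]; exact hle
  let ρ' : R →+* F := RingHom.liftOfSurjective q hq ⟨ρ, hker⟩
  have hρ' : ∀ a, ρ' (q a) = ρ a := fun a =>
    RingHom.liftOfRightInverse_comp_apply q _ (Function.rightInverse_surjInv hq) ⟨ρ, hker⟩ a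
  have hρp : ∀ r ∈ p, ρ' r = 0 := by
    intro r hr
    obtain ⟨a, rfl⟩ := hq r
    rw [hρ', ← hqp]
    exact hr
  let σ : R ⧸ p →+* F := Ideal.Quotient.lift p ρ' hρp
  have hσ : ∀ r, σ (Ideal.Quotient.mk p r) = ρ' r := fun r => Ideal.Quotient.lift_mk p ρ' hρp
  let _ : Algebra (R ⧸ p) F := σ.toAlgebra
  have hfrF : IsFractionRing (R ⧸ p) F := by
    apply bdm_fraction
    · rw [injective_iff_map_eq_zero]
      intro r hr
      obtain ⟨r, rfl⟩ := Ideal.Quotient.mk_surjective r
      obtain ⟨a, rfl⟩ := hq r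
      rw [Ideal.Quotient.eq_zero_iff_mem, hqp, ← hρ']
      exact hr
    · intro f
      obtain ⟨a, b, hb, hab⟩ := hρ f
      refine ⟨Ideal.Quotient.mk p (q a), Ideal.Quotient.mk p (q b), ?_, ?_⟩
      · change σ _ ≠ 0
        rw [hσ, hρ']
        exact hb
      · change f * σ _ = σ _
        rw [hσ, hσ, hρ', hρ']
        exact hab
  let ε : F ≃ₐ[R ⧸ p] FractionRing (R ⧸ p) :=
    IsLocalization.algEquiv (nonZeroDivisors (R ⧸ p)) F (FractionRing (R ⧸ p))
  refine ⟨φ.comp (ε : F →+* FractionRing (R ⧸ p)), ?_, ?_⟩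
  · intro a b hb
    have h1 : ρ a = algebraMap (R ⧸ p) F (Ideal.Quotient.mk p (q a)) := by
      change _ = σ _
      rw [hσ, hρ']
    rw [RingHom.comp_apply, h1]
    have h2 : (ε : F →+* FractionRing (R ⧸ p)) (algebraMap (R ⧸ p) F (Ideal.Quotient.mk p (q a))) =
        algebraMap (R ⧸ p) (FractionRing (R ⧸ p)) (Ideal.Quotient.mk p (q a)) :=
      ε.commutes _
    rw [h2]
    exact hφ (q a) b hb
  · exact hφf.comp (RingHom.Finite.of_surjective _ ε.surjective)

theorem dom_finite {k : Type} [Field k] [IsAlgClosed k] {X : Scheme.{0}} [IsIntegral X]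
    [IsNoetherian X] {n : ℕ} (E : Embed k X n) {m : ℕ} (η : PointCo X m)
    (x : PointCo X (m + 1)) (h : η.1 ⤳ x.1) :
    {V : ValuationSubring (X.residueField η.1) | Dominates h V}.Finite ∧
    ∀ V : ValuationSubring (X.residueField η.1), Dominates h V →
      IsDiscreteValuationRing V ∧
      ∃ φ : X.residueField x.1 →+* IsLocalRing.ResidueField V,
        (∀ (b : X.presheaf.stalk x.1) (b' : V), (b' : X.residueField η.1) = evalAt h b →
          φ ((X.residue x.1).hom b) = IsLocalRing.residue V b') ∧ φ.Finite := by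
  obtain ⟨j, hj⟩ := E.cover x.1
  have hηU : η.1 ∈ E.U (Pi.single j 1) := h.mem_open (E.U (Pi.single j 1)).isOpen hj
  have hgU : genericPoint X ∈ E.U (Pi.single j 1) :=
    ((genericPoint_spec X).specializes trivial).mem_open (E.U (Pi.single j 1)).isOpen hj
  have hl : E.l (Pi.single j 1) ≠ 0 := af_l_ne_zero E hgU
  obtain ⟨hU, -⟩ := E.affine (Pi.single j 1) hl
  let _ := (E.strOn (E.U (Pi.single j 1))).toAlgebra
  have hft : Algebra.FiniteType k Γ(X, E.U (Pi.single j 1)) := af_finiteType E _ hgU
  have hle : RingHom.ker (X.evaluation (E.U (Pi.single j 1)) η.1 hηU).hom ≤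
      RingHom.ker (X.evaluation (E.U (Pi.single j 1)) x.1 hj).hom := fun a ha =>
    (specializes_iff_chart (E.U (Pi.single j 1)) hU hj hηU).1 h a ha
  have h1 := (bdm_coheight hU hηU).symm.trans η.2
  have h2 := (bdm_coheight hU hj).symm.trans x.2
  obtain ⟨hfin, hval⟩ := bdm_ring (k := k) (X.evaluation (E.U (Pi.single j 1)) η.1 hηU).hom
    (X.evaluation (E.U (Pi.single j 1)) x.1 hj).hom (bdm_isFrac hU hηU) (bdm_isFrac hU hj) hle m
    h1 h2
  have hiff : ∀ V : ValuationSubring (X.residueField η.1), Dominates h V ↔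
      DomR (X.evaluation (E.U (Pi.single j 1)) η.1 hηU).hom
        (X.evaluation (E.U (Pi.single j 1)) x.1 hj).hom V := fun V =>
    dominates_iff (E.U (Pi.single j 1)) hU h hj hηU V
  refine ⟨?_, ?_⟩
  · have : {V : ValuationSubring (X.residueField η.1) | Dominates h V} =
        {V : ValuationSubring (X.residueField η.1) |
          DomR (X.evaluation (E.U (Pi.single j 1)) η.1 hηU).hom
            (X.evaluation (E.U (Pi.single j 1)) x.1 hj).hom V} := Set.ext hiff
    rw [this]
    exact hfin
  · intro V hV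
    obtain ⟨hdvr, φ, hφ, hφf⟩ := hval V ((hiff V).1 hV)
    exact ⟨hdvr, φ, fun b b' hb => bdm_isRes hU h hj hηU V hV φ hφ b b' hb, hφf⟩

end Pool.Agent.K1
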