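import Pool.Agent.K1.BPack

/-!
Tame symbols at valuation rings: the two definitions agree, uniqueness, existence, and the symbol
of two units.
-/

set_option autoImplicit false

namespace Pool.Agent.K1

section

variable {K : Type} [Field K]

/-- the maximal ideal is generated by `ϖ` iff its image is `ϖ V` -/
theorem max_eq_span_iff (V : ValuationSubring K) (ϖ : V) :
    IsLocalRing.maximalIdeal V = Ideal.span {ϖ} ↔
      ∀ z : K, z ∈ V.nonunits ↔ ∃ c ∈ V, z = (ϖ : K) * c := by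
  constructor
  · intro h z
    rw [ValuationSubring.mem_nonunits_iff_exists_mem_maximalIdeal, h]
    constructor
    · rintro ⟨hz, hz'⟩
      obtain ⟨c, hc⟩ := Ideal.mem_span_singleton'.1 hz'
      refine ⟨c, c.2, ?_⟩
      have := congrArg (fun x : V => (x : K)) hc
      simp only at this
      rw [← this, mul_comm]
      rfl
    · rintro ⟨c, hc, rfl⟩
      refine ⟨V.mul_mem _ _ ϖ.2 hc, Ideal.mem_span_singleton'.2 ⟨⟨c, hc⟩, ?_⟩⟩
      apply Subtype.ext
      show c * (ϖ : K) = (ϖ : K) * c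
      exact mul_comm _ _
  · intro h
    ext x
    rw [← ValuationSubring.coe_mem_nonunits_iff, h, Ideal.mem_span_singleton']
    constructor
    · rintro ⟨c, hc, hx⟩
      refine ⟨⟨c, hc⟩, Subtype.ext ?_⟩
      show c * (ϖ : K) = x
      rw [hx, mul_comm]
    · rintro ⟨c, hc⟩
      refine ⟨c, c.2, ?_⟩
      rw [← hc]
      show (c : K) * (ϖ : K) = _
      exact mul_comm _ _

theorem isTameVal_iff {K : Type} [Field K] (V : ValuationSubring K) (f g : Kˣ)
    (t : (IsLocalRing.ResidueField V)ˣ) :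
    IsTameVal V f g t ↔ IsTameV V (f : K) (g : K) t := by
  have key : ∀ (a b : ℤ) (u w : Vˣ),
      Units.map (IsLocalRing.residue V).toMonoidHom ((-1) ^ (a * b) * u ^ b * w ^ (-a)) =
      (-1) ^ (a * b) * (Units.map (IsLocalRing.residue V).toMonoidHom u ^ b /
        Units.map (IsLocalRing.residue V).toMonoidHom w ^ a) := by
    intro a b u w
    have h1 : Units.map (IsLocalRing.residue V).toMonoidHom (-1 : Vˣ) = -1 := by
      ext
      simp
    rw [map_mul, map_mul, map_zpow, map_zpow, map_zpow, h1, zpow_neg, mul_assoc, div_eq_mul_inv]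
  constructor
  · rintro ⟨π, a, b, u, w, hπ, hf, hg, ht⟩
    have hπV : π ∈ V := by
      have h1 : π ∈ V.nonunits := (hπ π).2 ⟨1, V.one_mem, (mul_one π).symm⟩
      obtain ⟨h2, _⟩ := (ValuationSubring.mem_nonunits_iff_exists_mem_maximalIdeal).1 h1
      exact h2
    refine ⟨⟨π, hπV⟩, a, b, u, w, (max_eq_span_iff V ⟨π, hπV⟩).2 hπ, hf, hg, ?_⟩
    rw [ht, key]
  · rintro ⟨ϖ, a, b, u, w, hπ, hf, hg, ht⟩
    refine ⟨ϖ, a, b, u, w, (max_eq_span_iff V ϖ).1 hπ, hf, hg, ?_⟩
    rw [ht, key]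

/-- a power of an element of the maximal ideal is a unit only if the exponent is zero -/
theorem zpow_unit_zero (V : ValuationSubring K) (ϖ : V) (hm : ϖ ∈ IsLocalRing.maximalIdeal V)
    (n : ℤ) (e : Vˣ) (h : (ϖ : K) ^ n = ((e : V) : K)) : n = 0 := by
  have hnat : ∀ (m : ℕ) (e : Vˣ), (ϖ : K) ^ m = ((e : V) : K) → m = 0 := by
    intro m e h
    by_contra hm0
    have h1 : ϖ ^ m = (e : V) := by
      apply Subtype.ext
      rw [← h]
      rfl
    have h2 : (e : V) ∈ IsLocalRing.maximalIdeal V := by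
      rw [← h1]
      exact Ideal.pow_mem_of_mem _ hm _ (Nat.pos_of_ne_zero hm0)
    exact (IsLocalRing.mem_maximalIdeal _).1 h2 e.isUnit
  rcases Int.eq_nat_or_neg n with ⟨m, rfl | rfl⟩
  · have := hnat m e (by rw [← h, zpow_natCast])
    simp [this]
  · have h1 : (ϖ : K) ^ m = (((e⁻¹ : Vˣ) : V) : K) := by
      rw [zpow_neg, zpow_natCast] at h
      have h2 : (((e⁻¹ : Vˣ) : V) : K) * ((e : V) : K) = 1 := by
        have h3 : ((e⁻¹ : Vˣ) : V) * (e : V) = 1 := e.inv_mul
        exact congrArg (fun x : V => (x : K)) h3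
      have h4 : ((e : V) : K) ≠ 0 := right_ne_zero_of_mul_eq_one h2
      rw [← inv_inv ((ϖ : K) ^ m), h]
      exact (eq_inv_of_mul_eq_one_left h2).symm
    have := hnat m _ h1
    simp [this]

theorem zpow_cast (V : ValuationSubring K) (e : Vˣ) (n : ℤ) :
    (((e ^ n : Vˣ) : V) : K) = (((e : V) : K)) ^ n := by
  have h1 : ∀ x : Vˣ, ((x : V) : K) = ((Units.map V.subtype.toMonoidHom x : Kˣ) : K) :=
    fun x => rfl
  rw [h1, h1, map_zpow, Units.val_zpow_eq_zpow_val]

theorem isTameV_unique {K : Type} [Field K] (V : ValuationSubring K) (f g : K)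
    (hf : f ≠ 0) (hg : g ≠ 0) (t t' : (IsLocalRing.ResidueField V)ˣ) (h : IsTameV V f g t)
    (h' : IsTameV V f g t') : t = t' := by
  obtain ⟨ϖ, a, b, u, w, hm, hfa, hgb, ht⟩ := h
  obtain ⟨ϖ', a', b', u', w', hm', hfa', hgb', ht'⟩ := h'
  by_cases h0 : ϖ = 0
  · have h0' : ϖ' = 0 := by
      have h1 : ϖ' ∈ Ideal.span {ϖ} := by
        rw [← hm, hm']
        exact Ideal.mem_span_singleton_self _
      rw [h0, Ideal.mem_span_singleton'] at h1
      obtain ⟨c, hc⟩ := h1
      rw [← hc, mul_zero]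
    have hz : ∀ (n : ℤ) (x : K), (0 : K) ^ n * x ≠ 0 → n = 0 := by
      intro n x hx
      by_contra hn
      apply hx
      rw [zero_zpow n hn, zero_mul]
    have hc0 : ((ϖ : V) : K) = 0 := by rw [h0]; rfl
    have hc0' : ((ϖ' : V) : K) = 0 := by rw [h0']; rfl
    rw [hc0] at hfa hgb
    rw [hc0'] at hfa' hgb'
    have ha := hz a _ (hfa ▸ hf)
    have hb := hz b _ (hgb ▸ hg)
    have ha' := hz a' _ (hfa' ▸ hf)
    have hb' := hz b' _ (hgb' ▸ hg)
    rw [ht, ht', ha, hb, ha', hb']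
    simp
  · have hK0 : ((ϖ : V) : K) ≠ 0 := by
      intro h1
      exact h0 (Subtype.ext h1)
    have hass : Associated ϖ ϖ' := by
      apply Ideal.span_singleton_eq_span_singleton.1
      rw [← hm, ← hm']
    obtain ⟨e, he⟩ := hass
    have heK : ((ϖ' : V) : K) = (ϖ : K) * ((e : V) : K) := by
      rw [← he]
      rfl
    have he0 : ((e : V) : K) ≠ 0 := by
      intro h1
      have h2 : (e : V) = 0 := Subtype.ext h1
      exact e.ne_zero h2
    have hmem : ϖ ∈ IsLocalRing.maximalIdeal V := by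
      rw [hm]
      exact Ideal.mem_span_singleton_self _
    have inj : Function.Injective (fun x : V => (x : K)) := Subtype.val_injective
    -- exponents and units
    have main : ∀ (x : K) (a a' : ℤ) (u u' : Vˣ), x = (ϖ : K) ^ a * ((u : V) : K) →
        x = (ϖ' : K) ^ a' * ((u' : V) : K) → a = a' ∧ u = e ^ a * u' := by
      intro x a a' u u' h1 h2
      have hu0 : ((u : V) : K) ≠ 0 := by
        intro h3
        exact u.ne_zero (Subtype.ext h3 : (u : V) = 0)
      have e1 : (ϖ : K) ^ a * ((u : V) : K) =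
          (ϖ : K) ^ a' * ((((e ^ a' * u' : Vˣ)) : V) : K) := by
        rw [← h1, h2, heK, mul_zpow, mul_assoc]
        congr 1
        rw [← zpow_cast]
        rfl
      have e2 : (ϖ : K) ^ (a - a') = (((e ^ a' * u' * u⁻¹ : Vˣ) : V) : K) := by
        have h3 : (((e ^ a' * u' * u⁻¹ : Vˣ) : V) : K) * ((u : V) : K) =
            ((((e ^ a' * u' : Vˣ)) : V) : K) := by
          have h4 : ((e ^ a' * u' * u⁻¹ : Vˣ) : V) * (u : V) = ((e ^ a' * u' : Vˣ) : V) := by
            rw [← Units.val_mul, inv_mul_cancel_right]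
          exact congrArg (fun x : V => (x : K)) h4
        rw [zpow_sub₀ hK0]
        apply mul_right_cancel₀ hu0
        rw [h3, div_mul_eq_mul_div, e1, mul_comm ((ϖ : K) ^ a'), mul_div_assoc,
          div_self (zpow_ne_zero _ hK0), mul_one]
      have e3 := zpow_unit_zero V ϖ hmem _ _ e2
      have e4 : a = a' := by omega
      refine ⟨e4, ?_⟩
      rw [← e4] at e1
      have e5 := mul_left_cancel₀ (zpow_ne_zero a hK0) e1
      exact Units.ext (Subtype.ext e5)
    obtain ⟨ea, eu⟩ := main f a a' u u' hfa hfa'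
    obtain ⟨eb, ew⟩ := main g b b' w w' hgb hgb'
    rw [ht, ht', ← ea, ← eb, eu, ew, map_mul, map_mul, map_zpow, map_zpow, mul_zpow, mul_zpow,
      ← zpow_mul, ← zpow_mul, mul_comm b a]
    congr 1
    rw [mul_div_mul_left_eq_div]

theorem exists_isTameV {K : Type} [Field K] (V : ValuationSubring K)
    (hV : IsDiscreteValuationRing V) (f g : K) (hf : f ≠ 0) (hg : g ≠ 0) :
    ∃ t, IsTameV V f g t := by
  obtain ⟨ϖ, hϖ⟩ := IsDiscreteValuationRing.exists_irreducible V
  have hmax : IsLocalRing.maximalIdeal V = Ideal.span {ϖ} := hϖ.maximalIdeal_eq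
  have hnat : ∀ x : V, x ≠ 0 → ∃ (n : ℕ) (u : Vˣ), (x : K) = (ϖ : K) ^ n * ((u : V) : K) := by
    intro x hx
    obtain ⟨n, u, hu⟩ := IsDiscreteValuationRing.eq_unit_mul_pow_irreducible hx hϖ
    refine ⟨n, u, ?_⟩
    rw [hu, mul_comm]
    rfl
  have hint : ∀ x : K, x ≠ 0 → ∃ (n : ℤ) (u : Vˣ), x = (ϖ : K) ^ n * ((u : V) : K) := by
    intro x hx
    rcases V.mem_or_inv_mem x with h1 | h1
    · obtain ⟨n, u, hu⟩ := hnat ⟨x, h1⟩ (fun h2 => hx (congrArg Subtype.val h2))
      exact ⟨n, u, by rw [zpow_natCast]; exact hu⟩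
    · obtain ⟨n, u, hu⟩ := hnat ⟨x⁻¹, h1⟩ (fun h2 => inv_ne_zero hx (congrArg Subtype.val h2))
      refine ⟨-n, u⁻¹, ?_⟩
      have hu' : x⁻¹ = (ϖ : K) ^ n * ((u : V) : K) := hu
      have h2 : (((u⁻¹ : Vˣ) : V) : K) = (((u : V) : K))⁻¹ := by
        have := zpow_cast V u (-1)
        rwa [zpow_neg_one, zpow_neg_one] at this
      rw [h2, zpow_neg, zpow_natCast, ← mul_inv, ← hu', inv_inv]
  obtain ⟨a, u, hu⟩ := hint f hf
  obtain ⟨b, w, hw⟩ := hint g hg
  exact ⟨_, ϖ, a, b, u, w, hmax, hu, hw, rfl⟩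

/-- units have trivial tame symbol -/
theorem isTameV_units {K : Type} [Field K] (V : ValuationSubring K)
    (hV : IsDiscreteValuationRing V) (u w : Vˣ) :
    IsTameV V ((u : V) : K) ((w : V) : K) 1 := by
  obtain ⟨ϖ, hϖ⟩ := IsDiscreteValuationRing.exists_irreducible V
  have hmax : IsLocalRing.maximalIdeal V = Ideal.span {ϖ} := hϖ.maximalIdeal_eq
  refine ⟨ϖ, 0, 0, u, w, hmax, ?_, ?_, ?_⟩
  · rw [zpow_zero, one_mul]
  · rw [zpow_zero, one_mul]
  · simp

end

end Pool.Agent.K1
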