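import Pool.Agent.K1.Avoid
import Pool.Agent.K1.BDom
import Pool.Agent.K1.BTameV

/-!
The boundary of a pair of rational functions on the closure of a point is a (finite) chain.
-/

set_option autoImplicit false

open AlgebraicGeometry CategoryTheory

attribute [local instance] MvPolynomial.gradedAlgebra

namespace Pool.Agent.K1

/-! ### Finiteness -/

/-- The points of codimension `m + 1` of a proper closed subset of the closure of a point of
codimension `m` are finitely many. -/
theorem bfin_of_closed {X : Scheme.{0}} [IsNoetherian X] {m : ℕ} (η : PointCo X m) (T : Set X)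
    (hT : IsClosed T) (hη : η.1 ∉ T) (hsp : ∀ y ∈ T, η.1 ⤳ y) :
    {x : PointCo X (m + 1) | x.1 ∈ T}.Finite := by
  obtain ⟨S, hS, hcl, hirr, hsup⟩ :=
    TopologicalSpace.NoetherianSpace.exists_finite_set_isClosed_irreducible hT
  have key : ∀ x : PointCo X (m + 1), x.1 ∈ T → ∃ t ∈ S, IsGenericPoint x.1 t := by
    intro x hx
    rw [hsup] at hx
    obtain ⟨t, ht, hxt⟩ := hx
    obtain ⟨y, hy⟩ := QuasiSober.sober (hirr t ht) (hcl t ht)
    have hyT : y ∈ T := by
      rw [hsup]
      exact ⟨t, ht, hy.mem⟩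
    have hne : y ≠ η.1 := by
      rintro rfl
      exact hη hyT
    have h1 := coheight_add_one_le_of_specializes (hsp y hyT) hne
    rw [η.2] at h1
    have hyx : y ⤳ x.1 := hy.specializes hxt
    by_cases hxy : x.1 = y
    · exact ⟨t, ht, hxy ▸ hy⟩
    · exfalso
      have h2 := coheight_add_one_le_of_specializes hyx hxy
      rw [x.2] at h2
      have h3 : ((m : ℕ∞) + 1) + 1 ≤ ((m + 1 : ℕ) : ℕ∞) :=
        le_trans (by gcongr) h2
      have h4 : ((m + 1 + 1 : ℕ) : ℕ∞) ≤ ((m + 1 : ℕ) : ℕ∞) := by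
        push_cast at h3 ⊢
        exact h3
      have h5 : m + 1 + 1 ≤ m + 1 := by exact_mod_cast h4
      omega
  choose! F hF hF' using key
  refine Set.Finite.of_finite_image (hS.subset ?_) (f := F) ?_
  · rintro _ ⟨x, hx, rfl⟩
    exact hF x hx
  · intro x hx y hy hxy
    have h1 := hF' x hx
    have h2 := hF' y hy
    rw [hxy] at h1
    exact Subtype.ext (h1.eq h2)

theorem finite_nonunit {k : Type} [Field k] [IsAlgClosed k] {X : Scheme.{0}} [IsIntegral X]
    [IsNoetherian X] {n : ℕ} (E : Embed k X n) {m : ℕ} (η : PointCo X m)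
    (f : (X.residueField η.1)ˣ) :
    {x : PointCo X (m + 1) | ∃ h : η.1 ⤳ x.1, ¬ ∃ s : (X.presheaf.stalk x.1)ˣ,
      evalAt h s = f}.Finite := by
  obtain ⟨a, ha⟩ := X.residue_surjective η.1 (f : X.residueField η.1)
  obtain ⟨U, hU, s, hs⟩ := X.presheaf.exists_germ_eq a
  have hmem : η.1 ∈ X.basicOpen s := by
    rw [X.mem_basicOpen s η.1 hU]
    have h0 : IsUnit a := by
      have h1 : (X.residue η.1).hom a ≠ 0 := by
        have e : (X.residue η.1).hom a = (f : X.residueField η.1) := ha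
        rw [e]
        exact Units.ne_zero _
      exact (IsLocalRing.residue_ne_zero_iff_isUnit a).mp h1
    rw [← hs] at h0
    exact h0
  have hres : (X.residue η.1).hom ((X.presheaf.germ U η.1 hU).hom s) =
      (f : X.residueField η.1) := by
    have hs' : (X.presheaf.germ U η.1 hU).hom s = a := hs
    rw [hs']
    exact ha
  refine (bfin_of_closed η (closure {η.1} \ (X.basicOpen s : Set X))
    (isClosed_closure.sdiff (X.basicOpen s).2) (fun h => h.2 hmem)
    (fun y hy => specializes_iff_mem_closure.mpr hy.1)).subset ?_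
  rintro x ⟨h, hx⟩
  refine ⟨specializes_iff_mem_closure.mp h, fun hxb => hx ?_⟩
  have hyU : x.1 ∈ U := X.basicOpen_le s hxb
  have hun : IsUnit ((X.presheaf.germ U x.1 hyU).hom s) := (X.mem_basicOpen s x.1 hyU).mp hxb
  refine ⟨hun.unit, ?_⟩
  rw [IsUnit.unit_spec, evalAt, RingHom.comp_apply]
  have hg : (X.presheaf.stalkSpecializes h).hom ((X.presheaf.germ U x.1 hyU).hom s) =
      (X.presheaf.germ U η.1 hU).hom s := by
    have h1 := X.presheaf.germ_stalkSpecializes hyU h
    exact congrArg (fun f => f.hom s) h1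
  rw [hg, hres]

/-! ### Existence -/

/-- the component of the boundary at a point -/
theorem bfin_exists_bdAt {k : Type} [Field k] [IsAlgClosed k] {X : Scheme.{0}} [IsIntegral X]
    [IsNoetherian X] {n : ℕ} (E : Embed k X n) {m : ℕ} (η : PointCo X m)
    (x : PointCo X (m + 1)) (f g : (X.residueField η.1)ˣ) :
    ∃ t, IsBdAt η.1 x.1 f g t := by
  classical
  by_cases h : η.1 ⤳ x.1
  · obtain ⟨hfin, hdom⟩ := dom_finite E η x h
    have key : ∀ V : ValuationSubring (X.residueField η.1), ∃ c : (X.residueField x.1)ˣ,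
        Dominates h V → IsNormTame h V f g c := by
      intro V
      by_cases hV : Dominates h V
      · obtain ⟨hdvr, φ, hφ, hφf⟩ := hdom V hV
        obtain ⟨t, ht⟩ := exists_isTameV V hdvr (f : X.residueField η.1) (g : X.residueField η.1)
          (Units.ne_zero f) (Units.ne_zero g)
        letI := φ.toAlgebra
        exact ⟨Units.map (Algebra.norm (X.residueField x.1) :
          IsLocalRing.ResidueField V →* X.residueField x.1) t, fun _ =>
          ⟨φ, t, hφ, hφf, (isTameVal_iff V f g t).2 ht, rfl⟩⟩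
      · exact ⟨1, fun h' => absurd h' hV⟩
    choose c hc using key
    refine ⟨∏ V ∈ hfin.toFinset, c V, fun h' => absurd h h', fun h' =>
      ⟨hfin.toFinset, c, fun V => by rw [Set.Finite.mem_toFinset]; rfl, fun V hV => hc V ?_, rfl⟩⟩
    rw [Set.Finite.mem_toFinset] at hV
    exact hV
  · exact ⟨1, fun _ => rfl, fun h' => absurd h' h⟩

/-- a unit of the local ring at `x` is a unit of the valuation rings that dominate it -/
theorem bfin_exists_unit {X : Scheme.{0}} {η x : X} (h : η ⤳ x)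
    (V : ValuationSubring (X.residueField η)) (hV : Dominates h V)
    (s : (X.presheaf.stalk x)ˣ) : ∃ u : Vˣ, ((u : V) : X.residueField η) = evalAt h s := by
  have h1 : evalAt h s * evalAt h ((s⁻¹ : (X.presheaf.stalk x)ˣ) : X.presheaf.stalk x) = 1 := by
    rw [← map_mul, Units.mul_inv, map_one]
  refine ⟨⟨⟨evalAt h s, (hV s).1⟩, ⟨evalAt h ((s⁻¹ : (X.presheaf.stalk x)ˣ) :
    X.presheaf.stalk x), (hV _).1⟩, Subtype.ext h1, Subtype.ext ?_⟩, rfl⟩
  rw [mul_comm] at h1
  exact h1

theorem bfin_bdAt_one {k : Type} [Field k] [IsAlgClosed k] {X : Scheme.{0}} [IsIntegral X]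
    [IsNoetherian X] {n : ℕ} (E : Embed k X n) {m : ℕ} (η : PointCo X m)
    (x : PointCo X (m + 1)) (f g : (X.residueField η.1)ˣ)
    (hf : ∀ h : η.1 ⤳ x.1, ∃ s : (X.presheaf.stalk x.1)ˣ, evalAt h s = f)
    (hg : ∀ h : η.1 ⤳ x.1, ∃ s : (X.presheaf.stalk x.1)ˣ, evalAt h s = g) :
    IsBdAt η.1 x.1 f g 1 := by
  classical
  refine ⟨fun _ => rfl, fun h => ?_⟩
  obtain ⟨hfin, hdom⟩ := dom_finite E η x h
  obtain ⟨a, ha⟩ := hf h
  obtain ⟨b, hb⟩ := hg h
  refine ⟨hfin.toFinset, fun _ => 1, fun V => by rw [Set.Finite.mem_toFinset]; rfl,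
    fun V hV => ?_, by rw [Finset.prod_const_one]⟩
  rw [Set.Finite.mem_toFinset] at hV
  have hV' : Dominates h V := hV
  obtain ⟨hdvr, φ, hφ, hφf⟩ := hdom V hV'
  obtain ⟨u, hu⟩ := bfin_exists_unit h V hV' a
  obtain ⟨w, hw⟩ := bfin_exists_unit h V hV' b
  have h1 := isTameV_units V hdvr u w
  rw [hu, hw, ha, hb] at h1
  refine ⟨φ, 1, hφ, hφf, (isTameVal_iff V f g 1).2 h1, ?_⟩
  letI := φ.toAlgebra
  change ((1 : (X.residueField x.1)ˣ) : X.residueField x.1) =
    Algebra.norm (X.residueField x.1) ((1 : (IsLocalRing.ResidueField V)ˣ) :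
      IsLocalRing.ResidueField V)
  rw [Units.val_one, Units.val_one, map_one]

theorem exists_bd {k : Type} [Field k] [IsAlgClosed k] {X : Scheme.{0}} [IsIntegral X]
    [IsNoetherian X] {n : ℕ} (E : Embed k X n) {m : ℕ} (η : PointCo X m)
    (f g : (X.residueField η.1)ˣ) :
    ∃ ξ : KChain X (m + 1), ∀ x : PointCo X (m + 1),
      IsBdAt η.1 x.1 f g (Additive.toMul (ξ x)) := by
  classical
  have hfin := (finite_nonunit E η f).union (finite_nonunit E η g)
  choose t ht using fun x : PointCo X (m + 1) => bfin_exists_bdAt E η x f g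
  refine ⟨DFinsupp.mk hfin.toFinset fun x => Additive.ofMul (t x.1), ?_⟩
  intro x
  rw [DFinsupp.mk_apply]
  split_ifs with hx
  · exact ht x
  · rw [Set.Finite.mem_toFinset] at hx
    refine bfin_bdAt_one E η x f g (fun h => ?_) (fun h => ?_)
    · by_contra hne
      exact hx (Or.inl ⟨h, hne⟩)
    · by_contra hne
      exact hx (Or.inr ⟨h, hne⟩)

end Pool.Agent.K1
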