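import Pool.Agent.K1.L3Defs

/-!
Layer 3: the dictionary between the curves of an affine open subset and the points of
codimension one of the scheme.
-/

set_option autoImplicit false

open AlgebraicGeometry CategoryTheory

namespace Pool.Agent.K1

/-- The dictionary between the curves of `Spec Γ(X, V)` and the points of codimension one in
`V`. -/
structure CurveData {X : Scheme.{0}} [IsIntegral X] [IsLocallyNoetherian X] (V : X.Opens)
    (hg : genericPoint X ∈ V) where
  pt : Curve1 Γ(X, V) → PointOne X
  φ : ∀ P : Curve1 Γ(X, V), kap P ≃+* X.residueField (pt P).1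
  inj : Function.Injective pt
  mem : ∀ P, (pt P).1 ∈ V
  surj : ∀ x : PointOne X, x.1 ∈ V → ∃ P, pt P = x
  φ_res : ∀ (P) (a : Γ(X, V)), φ P (res P a) = (X.evaluation V (pt P).1 (mem P)).hom a
  ord : ∀ (P) (a : Γ(X, V)), a ≠ 0 →
    X.ord ((X.presheaf.germ V (genericPoint X) hg).hom a) (pt P).1 = vAt P a

end Pool.Agent.K1
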