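import Mathlib
import Pool.Agent.K1.CurveDataDef

/-!
Layer 3, row K1-L3-03: the dictionary between the curves of `Spec Γ(X, V)` and the points of
codimension one of the open set `V`.
-/

set_option autoImplicit false

open AlgebraicGeometry CategoryTheory

namespace Pool.Agent.K1

/-! ### Commutative algebra -/

theorem ord_ringEquiv {R S : Type*} [CommRing R] [CommRing S] (e : R ≃+* S) (x : R) :
    Ring.ord S (e x) = Ring.ord R x := by
  unfold Ring.ord
  rw [Module.length_quotient, Module.length_quotient]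
  have h := Order.coheight_orderIso (RingEquiv.idealComapOrderIso e) (Ideal.span {e x})
  have h2 : RingEquiv.idealComapOrderIso e (Ideal.span {e x}) = Ideal.span {x} := by
    change Ideal.comap e (Ideal.span {e x}) = Ideal.span {x}
    have h3 : Ideal.map e (Ideal.span {x}) = Ideal.span {e x} := by
      rw [Ideal.map_span, Set.image_singleton]
    rw [← h3, Ideal.comap_map_of_bijective e e.bijective]
  rw [h2] at h
  exact h.symm

section loc

variable {A B : Type*} [CommRing A] [CommRing B] [IsLocalRing B] (g : A →+* B) (P : Ideal A)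
  [P.IsPrime] (hloc : @IsLocalization.AtPrime A _ B _ g.toAlgebra P _)

include hloc

/-- The isomorphism of the residue field of a localization with the fraction field of the
quotient. -/
theorem exists_resEquiv : ∃ φ : FractionRing (A ⧸ P) ≃+* IsLocalRing.ResidueField B,
    ∀ a : A, φ (algebraMap (A ⧸ P) (FractionRing (A ⧸ P)) (Ideal.Quotient.mk P a)) =
      IsLocalRing.residue B (g a) := by
  let _ := g.toAlgebra
  have : IsLocalization.AtPrime B P := hloc
  let e : Localization.AtPrime P ≃ₐ[A] B :=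
    IsLocalization.algEquiv P.primeCompl (Localization.AtPrime P) B
  let e1 : FractionRing (A ⧸ P) ≃ₐ[A ⧸ P] P.ResidueField :=
    IsLocalization.algEquiv (nonZeroDivisors (A ⧸ P)) (FractionRing (A ⧸ P)) P.ResidueField
  let e2 : P.ResidueField ≃+* IsLocalRing.ResidueField B :=
    IsLocalRing.ResidueField.mapEquiv e.toRingEquiv
  refine ⟨e1.toRingEquiv.trans e2, ?_⟩
  intro a
  change e2 (e1 (algebraMap (A ⧸ P) (FractionRing (A ⧸ P)) (Ideal.Quotient.mk P a))) = _
  rw [e1.commutes]
  change e2 (IsLocalRing.residue _ (algebraMap A (Localization.AtPrime P) a)) = _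
  change IsLocalRing.ResidueField.map (e.toRingEquiv : Localization.AtPrime P →+* B)
    (IsLocalRing.residue _ (algebraMap A (Localization.AtPrime P) a)) = _
  rw [IsLocalRing.ResidueField.map_residue]
  change IsLocalRing.residue B (e (algebraMap A (Localization.AtPrime P) a)) = _
  rw [e.commutes]
  rfl

omit [IsLocalRing B] in
theorem ord_loc (a : A) : Ring.ord B (g a) =
    Ring.ord (Localization.AtPrime P) (algebraMap A (Localization.AtPrime P) a) := by
  let _ := g.toAlgebra
  have : IsLocalization.AtPrime B P := hloc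
  let e : Localization.AtPrime P ≃ₐ[A] B :=
    IsLocalization.algEquiv P.primeCompl (Localization.AtPrime P) B
  rw [← ord_ringEquiv e.toRingEquiv]
  change Ring.ord B (g a) = Ring.ord B (e (algebraMap A (Localization.AtPrime P) a))
  rw [e.commutes]
  rfl

end loc

/-! ### The dictionary -/

section

variable {X : Scheme.{0}} {V : X.Opens} (hV : IsAffineOpen V)

/-- The point of `X` given by a prime ideal of `Γ(X, V)`. -/
noncomputable def ptAff (P : Curve1 Γ(X, V)) : X :=
  hV.fromSpec (⟨P.ideal, P.isPrime⟩ : PrimeSpectrum Γ(X, V))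

theorem ptAff_mem (P : Curve1 Γ(X, V)) : ptAff hV P ∈ V := by
  have h : ptAff hV P ∈ Set.range hV.fromSpec := ⟨_, rfl⟩
  rw [hV.range_fromSpec] at h
  exact h

theorem coheight_fromSpec (y : PrimeSpectrum Γ(X, V)) :
    Order.coheight (hV.fromSpec y) = y.asIdeal.height :=
  (coheight_eq_of_isOpenImmersion hV.fromSpec).trans (idealHeight_eq_coheight _ y).symm

theorem coheight_ptAff (P : Curve1 Γ(X, V)) : Order.coheight (ptAff hV P) = 1 :=
  (coheight_fromSpec hV _).trans P.height

theorem isLocalization_ptAff (P : Curve1 Γ(X, V)) :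
    @IsLocalization.AtPrime Γ(X, V) _ (X.presheaf.stalk (ptAff hV P)) _
      (X.presheaf.germ V (ptAff hV P) (ptAff_mem hV P)).hom.toAlgebra P.ideal _ :=
  hV.isLocalization_stalk' ⟨P.ideal, P.isPrime⟩ (ptAff_mem hV P)

end

theorem exists_curveData {X : Scheme.{0}} [IsIntegral X] [IsLocallyNoetherian X] (V : X.Opens)
    (hV : IsAffineOpen V) (hg : genericPoint X ∈ V) : Nonempty (CurveData V hg) := by
  have hφ : ∀ P : Curve1 Γ(X, V), ∃ φ : kap P ≃+* X.residueField (ptAff hV P),
      ∀ a, φ (res P a) = (X.evaluation V (ptAff hV P) (ptAff_mem hV P)).hom a := fun P =>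
    exists_resEquiv (B := X.presheaf.stalk (ptAff hV P)) _ P.ideal (isLocalization_ptAff hV P)
  choose φ hφ using hφ
  refine ⟨⟨fun P => ⟨ptAff hV P, coheight_ptAff hV P⟩, φ, ?_, ptAff_mem hV, ?_, hφ, ?_⟩⟩
  · intro P Q hPQ
    have h1 : ptAff hV P = ptAff hV Q := by
      have h0 := congrArg (Subtype.val) hPQ
      exact h0
    have h2 : (⟨P.ideal, P.isPrime⟩ : PrimeSpectrum Γ(X, V)) = ⟨Q.ideal, Q.isPrime⟩ :=
      hV.fromSpec.isOpenEmbedding.injective h1
    exact Curve1.ext' (congrArg PrimeSpectrum.asIdeal h2)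
  · intro x hx
    have h1 := hV.fromSpec_primeIdealOf ⟨x.1, hx⟩
    have h2 := coheight_fromSpec hV (hV.primeIdealOf ⟨x.1, hx⟩)
    rw [h1, x.2] at h2
    refine ⟨⟨(hV.primeIdealOf ⟨x.1, hx⟩).asIdeal, (hV.primeIdealOf ⟨x.1, hx⟩).isPrime, h2.symm⟩,
      ?_⟩
    exact Subtype.ext h1
  · intro P a ha
    have : Nonempty V := ⟨⟨_, hg⟩⟩
    have hz := coheight_ptAff hV P
    have hk : Ring.KrullDimLE 1 (X.presheaf.stalk (ptAff hV P)) := krullDimLE_of_coheight_le hz.le
    have hga : X.presheaf.germ V (ptAff hV P) (ptAff_mem hV P) a ≠ 0 := by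
      intro h0
      exact ha (germ_injective_of_isIntegral X _ (ptAff_mem hV P) (by rw [h0, map_zero]))
    have hf : (X.presheaf.germ V (genericPoint X) hg).hom a ≠ 0 := by
      intro h0
      exact ha (germ_injective_of_isIntegral X _ hg (by
        change (X.presheaf.germ V (genericPoint X) hg).hom a = _
        rw [h0, map_zero]))
    rw [Scheme.ord_eq_iff hz hf]
    have h1 : (X.presheaf.germ V (genericPoint X) hg).hom a =
        algebraMap (X.presheaf.stalk (ptAff hV P)) X.functionField
          (X.presheaf.germ V (ptAff hV P) (ptAff_mem hV P) a) :=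
      (Scheme.algebraMap_germ_eq_germToFunctionField X (ptAff_mem hV P) a).symm
    rw [h1]
    unfold Scheme.ordHom
    rw [Ring.ordFrac_eq_ord _ hga]
    apply Ring.ordMonoidWithZeroHom_eq_coe _ (mem_nonZeroDivisors_of_ne_zero hga)
    have h2 := ord_loc (X.presheaf.germ V (ptAff hV P) (ptAff_mem hV P)).hom P.ideal
      (isLocalization_ptAff hV P) a
    have h3 := Ring.ord_ne_top (mem_nonZeroDivisors_of_ne_zero hga)
    unfold vAt
    rw [← h2]
    exact (ENat.natCast_toNat h3).symm

/-! ### Tame symbols -/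

theorem tame_ext {X : Scheme.{0}} [IsIntegral X] [IsLocallyNoetherian X] (V : X.Opens)
    (_hV : IsAffineOpen V) (hg : genericPoint X ∈ V) (C : CurveData V hg)
    (_hreg : ∀ x : X, IsRegularLocalRing (X.presheaf.stalk x))
    (P : Curve1 Γ(X, V)) (a b : Γ(X, V)) (ha : a ≠ 0) (hb : b ≠ 0) (t : (kap P)ˣ)
    (h : IsTame P a b t) :
    IsTameAt (C.pt P).1 ((X.presheaf.germ V (genericPoint X) hg).hom a)
      ((X.presheaf.germ V (genericPoint X) hg).hom b) (Units.map (C.φ P).toMonoidHom t) := by
  obtain ⟨c, d, hc, hd, hcd, ht⟩ := h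
  have : Nonempty V := ⟨⟨_, hg⟩⟩
  have hev : ∀ c : Γ(X, V), X.residue (C.pt P).1 (X.presheaf.germ V (C.pt P).1 (C.mem P) c) =
      C.φ P (res P c) := fun c => (C.φ_res P c).symm
  have hunit : ∀ c : Γ(X, V), c ∉ P.ideal →
      IsUnit (X.presheaf.germ V (C.pt P).1 (C.mem P) c) := by
    intro c hc
    by_contra hu
    have h1 : X.residue (C.pt P).1 (X.presheaf.germ V (C.pt P).1 (C.mem P) c) = 0 :=
      (IsLocalRing.residue_eq_zero_iff _).2 ((IsLocalRing.mem_maximalIdeal _).2 hu)
    rw [hev, map_eq_zero_iff _ (C.φ P).injective, res_eq_zero] at h1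
    exact hc h1
  obtain ⟨uc, huc⟩ := hunit c hc
  obtain ⟨ud, hud⟩ := hunit d hd
  have halg : ∀ c : Γ(X, V), algebraMap (X.presheaf.stalk (C.pt P).1) X.functionField
      (X.presheaf.germ V (C.pt P).1 (C.mem P) c) =
        (X.presheaf.germ V (genericPoint X) hg).hom c := fun c =>
    Scheme.algebraMap_germ_eq_germToFunctionField X (C.mem P) c
  have hud0 : algebraMap (X.presheaf.stalk (C.pt P).1) X.functionField ud ≠ 0 :=
    (ud.isUnit.map (algebraMap (X.presheaf.stalk (C.pt P).1) X.functionField)).ne_zero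
  refine ⟨uc * ud⁻¹, ?_, ?_⟩
  · rw [C.ord P a ha, C.ord P b hb, ← Nat.cast_mul, zpow_natCast, zpow_natCast, zpow_natCast]
    apply mul_right_cancel₀ hud0
    rw [mul_assoc _ (algebraMap _ _ _) (algebraMap _ _ _), ← map_mul, Units.val_mul,
      Units.inv_mul_cancel_right, huc, hud, halg, halg, ← map_pow, ← map_pow]
    have h2 := congrArg (X.presheaf.germ V (genericPoint X) hg).hom hcd
    rw [map_mul, map_mul, map_mul, map_pow (X.presheaf.germ V (genericPoint X) hg).hom (-1),
      map_neg, map_one, ← mul_assoc] at h2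
    exact h2
  · have hres : ∀ u : (X.presheaf.stalk (C.pt P).1)ˣ, X.residue (C.pt P).1 u ≠ 0 := fun u =>
      (u.isUnit.map (X.residue (C.pt P).1).hom).ne_zero
    apply mul_right_cancel₀ (hres ud)
    have h3 : X.residue (C.pt P).1 ((uc * ud⁻¹ : (X.presheaf.stalk (C.pt P).1)ˣ) :
        X.presheaf.stalk (C.pt P).1) * X.residue (C.pt P).1 ud = X.residue (C.pt P).1 uc := by
      rw [← map_mul, Units.val_mul, Units.inv_mul_cancel_right]
    have h4 : C.φ P t * X.residue (C.pt P).1 ud = X.residue (C.pt P).1 uc := by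
      rw [hud, huc, hev, hev, ← map_mul, ht]
    exact h4.trans h3.symm

end Pool.Agent.K1
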