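import Pool.Agent.K1.CurveDataDef

/-!
Units at infinity (layer 3).
-/

set_option autoImplicit false

open AlgebraicGeometry CategoryTheory

namespace Pool.Agent.K1

theorem evaluation_strOn {k : Type} [Field k] {X : Scheme.{0}} [IsIntegral X] {n : ℕ}
    (E : EmbedData k X n) (V : X.Opens) (x : X) (hx : x ∈ V) (a : k) :
    (X.evaluation V x hx).hom (E.strOn V a) = E.kres x a := by
  have h := X.presheaf.germ_res (homOfLE (le_top : V ≤ ⊤)) x hx
  have h2 := congrArg (fun f => (X.residue x).hom (f.hom (E.str a))) h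
  exact h2

theorem evaluation_evalAt {X : Scheme.{0}} (V : X.Opens) {x y : X} (h : x ⤳ y) (hx : x ∈ V)
    (hy : y ∈ V) (a : Γ(X, V)) :
    (X.evaluation V x hx).hom a = evalAt h ((X.presheaf.germ V y hy).hom a) := by
  have h1 := X.presheaf.germ_stalkSpecializes hy h
  have h2 := congrArg (fun f => (X.residue x).hom (f.hom a)) h1
  exact h2.symm

theorem unit_at_infinity {k : Type} [Field k] {X : Scheme.{0}} [IsIntegral X]
    [IsNoetherian X] {n : ℕ} (E : Embed k X n)
    (c : Fin (n + 1) → k) (hc : genericPoint X ∈ E.U c) (C : CurveData (E.U c) hc)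
    (P : Curve1 Γ(X, E.U c)) (t : (kap P)ˣ)
    (hunit : ∀ y, y ∉ E.U c → ∀ h : (C.pt P).1 ⤳ y, ∃ u : (X.presheaf.stalk y)ˣ,
      C.φ P t = evalAt h u)
    (V : ValuationSubring (kap P))
    (hk : ∀ a : k, res P (E.strOn (E.U c) a) ∈ V) (hV : ∃ a, res P a ∉ V) :
    (t : kap P) ∈ V ∧ ((t⁻¹ : (kap P)ˣ) : kap P) ∈ V := by
  let V' : ValuationSubring (X.residueField (C.pt P).1) := V.comap (C.φ P).symm.toRingHom
  have hV' : ∀ b, b ∈ V' ↔ (C.φ P).symm b ∈ V := fun b => Iff.rfl
  have hkres : ∀ a : k, E.kres (C.pt P).1 a ∈ V' := by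
    intro a
    rw [hV', ← evaluation_strOn E.toEmbedData (E.U c) (C.pt P).1 (C.mem P), ← C.φ_res,
      RingEquiv.symm_apply_apply]
    exact hk a
  obtain ⟨y, h, hb⟩ := E.val (C.pt P).1 V' hkres
  have hy : y ∉ E.U c := by
    intro hy
    obtain ⟨a, ha⟩ := hV
    apply ha
    have h1 := hb ((X.presheaf.germ (E.U c) y hy).hom a)
    rw [← evaluation_evalAt (E.U c) h (C.mem P) hy a, ← C.φ_res, hV',
      RingEquiv.symm_apply_apply] at h1
    exact h1
  obtain ⟨u, hu⟩ := hunit y hy h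
  constructor
  · have h1 := hb u
    rw [← hu, hV', RingEquiv.symm_apply_apply] at h1
    exact h1
  · have h1 := hb ((u⁻¹ : (X.presheaf.stalk y)ˣ) : X.presheaf.stalk y)
    have h2 : evalAt h ((u⁻¹ : (X.presheaf.stalk y)ˣ) : X.presheaf.stalk y) =
        C.φ P ((t⁻¹ : (kap P)ˣ) : kap P) := by
      have h3 : evalAt h ((u⁻¹ : (X.presheaf.stalk y)ˣ) : X.presheaf.stalk y) *
          evalAt h (u : X.presheaf.stalk y) = 1 := by
        rw [← map_mul, Units.inv_mul, map_one]
      have h4 : C.φ P ((t⁻¹ : (kap P)ˣ) : kap P) * C.φ P (t : kap P) = 1 := by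
        rw [← map_mul, Units.inv_mul, map_one]
      rw [← hu] at h3
      have hne : C.φ P (t : kap P) ≠ 0 := by
        intro h0
        rw [h0, mul_zero] at h4
        exact zero_ne_one h4
      exact mul_right_cancel₀ hne (h3.trans h4.symm)
    rw [h2, hV', RingEquiv.symm_apply_apply] at h1
    exact h1

end Pool.Agent.K1
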