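import Pool.Agent.K1.AffMainOf
import Pool.Agent.K1.CurveData
import Pool.Agent.K1.UnitInf
import Pool.Agent.K1.CycleRestrict

/-!
Layer 3: from the affine theorem to the scheme.
-/

set_option autoImplicit false

open AlgebraicGeometry CategoryTheory

attribute [local instance] MvPolynomial.gradedAlgebra

namespace Pool.Agent.K1

/-! ### local rings in codimension one -/

section codim

variable {X : Scheme.{0}} [IsIntegral X] [IsLocallyNoetherian X]

theorem so_dvr_stalk (x : X) (hx : Order.coheight x = 1)
    (hreg : IsRegularLocalRing (X.presheaf.stalk x)) :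
    IsDiscreteValuationRing (X.presheaf.stalk x) := by
  have h1 := IsRegularLocalRing.iff_finrank_cotangentSpace (R := X.presheaf.stalk x)
  have h3 := h1.1 hreg
  rw [ringKrullDim_stalk_eq_coheight, hx] at h3
  have h4 : Module.finrank (IsLocalRing.ResidueField (X.presheaf.stalk x))
      (IsLocalRing.CotangentSpace (X.presheaf.stalk x)) = 1 := by
    exact_mod_cast h3
  exact IsLocalRing.finrank_CotangentSpace_eq_one_iff.1 h4

theorem so_ord_unit (x : X) (u : (X.presheaf.stalk x)ˣ) :
    X.ord (algebraMap (X.presheaf.stalk x) X.functionField u) x = 0 := by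
  by_cases hx : Order.coheight x = 1
  · have : Ring.KrullDimLE 1 (X.presheaf.stalk x) := krullDimLE_of_coheight_le hx.le
    have h0 : algebraMap (X.presheaf.stalk x) X.functionField u ≠ 0 :=
      (u.isUnit.map _).ne_zero
    rw [Scheme.ord_eq_iff hx h0]
    have h1 : Ring.ordFrac (X.presheaf.stalk x)
      (algebraMap (X.presheaf.stalk x) X.functionField u) = 1 :=
      Ring.ordFrac_of_isUnit u.isUnit
    rw [ofAdd_zero]
    exact h1
  · exact Scheme.ord_eq_zero_of_coheight_neq_one hx _

theorem so_ord_nonneg (x : X) (m : X.presheaf.stalk x) (hm : m ≠ 0) :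
    0 ≤ X.ord (algebraMap (X.presheaf.stalk x) X.functionField m) x := by
  by_cases hx : Order.coheight x = 1
  · have : Ring.KrullDimLE 1 (X.presheaf.stalk x) := krullDimLE_of_coheight_le hx.le
    have h0 : algebraMap (X.presheaf.stalk x) X.functionField m ≠ 0 := by
      intro h
      exact hm ((map_eq_zero_iff _
        (IsFractionRing.injective (X.presheaf.stalk x) X.functionField)).1 h)
    rw [Scheme.le_ord_iff hx h0]
    have h1 : 1 ≤ Ring.ordFrac (X.presheaf.stalk x)
      (algebraMap (X.presheaf.stalk x) X.functionField m) :=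
      Ring.ordFrac_ge_one_of_ne_zero hm
    rw [ofAdd_zero]
    exact h1
  · rw [Scheme.ord_eq_zero_of_coheight_neq_one hx _]

theorem so_ord_inv (x : X) {f : X.functionField} (hf : f ≠ 0) : X.ord f⁻¹ x = - X.ord f x := by
  have h1 := Scheme.ord_mul (x := x) hf (inv_ne_zero hf)
  rw [mul_inv_cancel₀ hf] at h1
  have h2 := so_ord_unit x (1 : (X.presheaf.stalk x)ˣ)
  rw [Units.val_one, map_one] at h2
  omega

theorem so_ord_div (x : X) {f g : X.functionField} (hf : f ≠ 0) (hg : g ≠ 0) :
    X.ord (f / g) x = X.ord f x - X.ord g x := by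
  rw [div_eq_mul_inv, Scheme.ord_mul hf (inv_ne_zero hg), so_ord_inv x hg]
  rfl

/-- a function of positive order lies in the maximal ideal -/
theorem so_mem_max (x : X) (hx : Order.coheight x = 1)
    (hreg : IsRegularLocalRing (X.presheaf.stalk x)) {f : X.functionField} (hf : f ≠ 0)
    (h : 0 < X.ord f x) :
    ∃ m : X.presheaf.stalk x, X.residue x m = 0 ∧
      algebraMap (X.presheaf.stalk x) X.functionField m = f := by
  have := so_dvr_stalk x hx hreg
  rcases ValuationRing.isInteger_or_isInteger (X.presheaf.stalk x) f with ⟨m, hm⟩ | ⟨m, hm⟩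
  · refine ⟨m, ?_, hm⟩
    by_contra hne
    have hu : IsUnit m := by
      by_contra hnu
      exact hne (Ideal.Quotient.eq_zero_iff_mem.2 ((IsLocalRing.mem_maximalIdeal m).2 hnu))
    obtain ⟨u, rfl⟩ := hu
    rw [← hm, so_ord_unit] at h
    exact lt_irrefl _ h
  · exfalso
    have hm0 : m ≠ 0 := by
      rintro rfl
      rw [map_zero] at hm
      exact inv_ne_zero hf hm.symm
    have h1 := so_ord_nonneg x m hm0
    rw [hm, so_ord_inv x hf] at h1
    omega

/-- quotients of tame symbols -/
theorem IsTameAt.div {x : X} {f f' g : X.functionField} (hf : f ≠ 0) (hf' : f' ≠ 0)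
    (hg : g ≠ 0) {t t' : (X.residueField x)ˣ} (h : IsTameAt x f g t)
    (h' : IsTameAt x f' g t') : IsTameAt x (f / f') g (t / t') := by
  obtain ⟨u, h1, h2⟩ := h
  obtain ⟨u', h1', h2'⟩ := h'
  refine ⟨u / u', ?_, ?_⟩
  · rw [so_ord_div x hf hf', div_zpow, h1, h1']
    have e1 : algebraMap (X.presheaf.stalk x) X.functionField ((u / u' : (X.presheaf.stalk x)ˣ) :
        X.presheaf.stalk x) = algebraMap (X.presheaf.stalk x) X.functionField u /
        algebraMap (X.presheaf.stalk x) X.functionField u' := by
      have hu' : algebraMap (X.presheaf.stalk x) X.functionField u' ≠ 0 :=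
        (u'.isUnit.map _).ne_zero
      rw [eq_div_iff hu', ← map_mul, ← Units.val_mul, div_mul_cancel]
    rw [e1, sub_mul, zpow_sub₀ (neg_ne_zero.2 one_ne_zero), zpow_sub₀ hg]
    have hu' : algebraMap (X.presheaf.stalk x) X.functionField u' ≠ 0 :=
      (u'.isUnit.map _).ne_zero
    have hg' : g ^ X.ord f' x ≠ 0 := zpow_ne_zero _ hg
    have hn' : ((-1 : X.functionField) ^ (X.ord f' x * X.ord g x)) ≠ 0 :=
      zpow_ne_zero _ (neg_ne_zero.2 one_ne_zero)
    field_simp
  · rw [div_eq_mul_inv, Units.val_mul, h2, div_eq_mul_inv, Units.val_mul, map_mul]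
    congr 1
    have h3 : ((t'⁻¹ : (X.residueField x)ˣ) : X.residueField x) =
      (Units.map (X.residue x).hom.toMonoidHom u')⁻¹ := by
      have h4 : t' = Units.map (X.residue x).hom.toMonoidHom u' := Units.ext h2'
      rw [h4]
    rw [h3, ← map_inv]
    rfl

/-- the tame symbol of a function with value one -/
theorem isTameAt_one (x : X) (f g : X.functionField) (v : (X.presheaf.stalk x)ˣ)
    (hv : algebraMap (X.presheaf.stalk x) X.functionField v = f)
    (hr : X.residue x v = 1) : IsTameAt x f g 1 := by
  have h0 : X.ord f x = 0 := by rw [← hv, so_ord_unit]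
  refine ⟨v ^ (X.ord g x), ?_, ?_⟩
  · rw [h0, zero_mul, zpow_zero, zpow_zero, one_mul, one_mul, ← hv]
    have h1 := map_zpow (Units.map
      (algebraMap (X.presheaf.stalk x) X.functionField).toMonoidHom) v (X.ord g x)
    have h2 := congrArg Units.val h1
    rw [Units.val_zpow_eq_zpow_val] at h2
    exact h2.symm
  · have h3 : Units.map (X.residue x).hom.toMonoidHom v = 1 := Units.ext hr
    have h1 := map_zpow (Units.map (X.residue x).hom.toMonoidHom) v (X.ord g x)
    rw [h3, one_zpow] at h1
    exact (congrArg Units.val h1).symm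

/-- Two functions with the same leading form. -/
theorem so_exists_unit (x : X) (hx : Order.coheight x = 1)
    (hreg : IsRegularLocalRing (X.presheaf.stalk x)) (a a' : X.functionField) (ha : a ≠ 0)
    (ha' : a' ≠ 0) (h : a = a' ∨ X.ord a x < X.ord (a - a') x) :
    ∃ v : (X.presheaf.stalk x)ˣ, algebraMap (X.presheaf.stalk x) X.functionField v = a / a' ∧
      X.residue x v = 1 := by
  by_cases h0 : a = a'
  · refine ⟨1, ?_, ?_⟩
    · rw [Units.val_one, map_one, h0, div_self ha']
    · rw [Units.val_one, map_one]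
  · have h1 : X.ord a x < X.ord (a - a') x := h.resolve_left h0
    have h2 : a - a' ≠ 0 := sub_ne_zero.2 h0
    obtain ⟨m, hm, hm'⟩ := so_mem_max x hx hreg (f := (a - a') / a)
      (div_ne_zero h2 ha) (by rw [so_ord_div x h2 ha]; omega)
    have hr : X.residue x (1 - m) = 1 := by rw [map_sub, map_one, hm, sub_zero]
    have hu : IsUnit (1 - m) := by
      by_contra hnu
      have h3 : X.residue x (1 - m) = 0 :=
        Ideal.Quotient.eq_zero_iff_mem.2 ((IsLocalRing.mem_maximalIdeal _).2 hnu)
      rw [hr] at h3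
      exact one_ne_zero h3
    obtain ⟨w, hw⟩ := hu
    have h4 : algebraMap (X.presheaf.stalk x) X.functionField w = a' / a := by
      rw [hw, map_sub, map_one, hm']
      field_simp
      ring
    refine ⟨w⁻¹, ?_, ?_⟩
    · have h5 : algebraMap (X.presheaf.stalk x) X.functionField ((w⁻¹ : (X.presheaf.stalk x)ˣ) :
          X.presheaf.stalk x) * (a' / a) = 1 := by
        rw [← h4, ← map_mul, ← Units.val_mul, inv_mul_cancel, Units.val_one, map_one]
      rw [eq_div_iff ha']
      have h6 : a' / a ≠ 0 := div_ne_zero ha' ha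
      have h7 := eq_div_of_mul_eq h6 h5
      rw [h7]
      field_simp
    · have h5 : X.residue x w * X.residue x ((w⁻¹ : (X.presheaf.stalk x)ˣ) :
          X.presheaf.stalk x) = 1 := by
        rw [← map_mul, ← Units.val_mul, mul_inv_cancel, Units.val_one, map_one]
      rw [hw, hr, one_mul] at h5
      exact h5

end codim

/-! ### chains on the affine open set and on the scheme -/

section ext

variable {X : Scheme.{0}} [IsIntegral X] [IsLocallyNoetherian X] {V : X.Opens}
  {hg : genericPoint X ∈ V} (C : CurveData V hg)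

/-- The map of the groups of units of the residue fields. -/
noncomputable def CurveData.phiU (P : Curve1 Γ(X, V)) :
    Additive (kap P)ˣ →+ Additive (X.residueField (C.pt P).1)ˣ :=
  MonoidHom.toAdditive (Units.map (C.φ P).toMonoidHom)

open Classical in
/-- The chain on the scheme with the same components as the given chain. -/
noncomputable def CurveData.ext : Chain1 Γ(X, V) →+ SChain X :=
  DFinsupp.liftAddHom (β := fun P : Curve1 Γ(X, V) => Additive (kap P)ˣ) (γ := SChain X)
    (fun P => (DFinsupp.singleAddHom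
    (fun x : PointOne X => Additive (X.residueField x.1)ˣ) (C.pt P)).comp (C.phiU P))

theorem CurveData.ext_pt (η : Chain1 Γ(X, V)) (P : Curve1 Γ(X, V)) :
    C.ext η (C.pt P) = C.phiU P (η P) := by
  classical
  have h : (DFinsupp.evalAddMonoidHom (C.pt P)).comp C.ext =
      (C.phiU P).comp (DFinsupp.evalAddMonoidHom P) := by
    apply DFinsupp.addHom_ext
    intro Q t
    rw [AddMonoidHom.comp_apply, AddMonoidHom.comp_apply]
    unfold CurveData.ext
    rw [DFinsupp.liftAddHom_apply_single]
    rw [AddMonoidHom.comp_apply]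
    change (DFinsupp.single (β := fun x : PointOne X => Additive (X.residueField x.1)ˣ)
      (C.pt Q) (C.phiU Q t)) (C.pt P) = C.phiU P ((DFinsupp.single
        (β := fun P : Curve1 Γ(X, V) => Additive (kap P)ˣ) Q t) P)
    by_cases h : Q = P
    · subst h
      rw [DFinsupp.single_eq_same, DFinsupp.single_eq_same]
    · rw [DFinsupp.single_eq_of_ne (fun h' => h (C.inj h').symm),
        DFinsupp.single_eq_of_ne (fun h' => h h'.symm), map_zero]
  exact DFunLike.congr_fun h η

theorem CurveData.ext_off (η : Chain1 Γ(X, V)) (x : PointOne X) (hx : x.1 ∉ V) :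
    C.ext η x = 0 := by
  classical
  have h : (DFinsupp.evalAddMonoidHom x).comp C.ext = 0 := by
    apply DFinsupp.addHom_ext
    intro Q t
    rw [AddMonoidHom.comp_apply]
    unfold CurveData.ext
    rw [DFinsupp.liftAddHom_apply_single]
    rw [AddMonoidHom.comp_apply]
    change (DFinsupp.single (β := fun x : PointOne X => Additive (X.residueField x.1)ˣ)
      (C.pt Q) (C.phiU Q t)) x = 0
    apply DFinsupp.single_eq_of_ne
    rintro rfl
    exact hx (C.mem Q)
  exact DFunLike.congr_fun h η

/-- The restriction of a chain to the affine open set. -/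
noncomputable def CurveData.restr (ξ : SChain X) : Chain1 Γ(X, V) :=
  DFinsupp.mapRange (fun P => MonoidHom.toAdditive (Units.map (C.φ P).symm.toMonoidHom))
    (fun _ => map_zero _) (DFinsupp.comapDomain C.pt C.inj ξ)

theorem CurveData.restr_apply (ξ : SChain X) (P : Curve1 Γ(X, V)) :
    C.phiU P (C.restr ξ P) = ξ (C.pt P) := by
  unfold CurveData.restr
  rw [DFinsupp.mapRange_apply, DFinsupp.comapDomain_apply]
  apply Additive.toMul.injective
  apply Units.ext
  exact (C.φ P).apply_symm_apply _

end ext

theorem scheme_of_affine {k : Type} [Field k] [IsAlgClosed k] {X : Scheme.{0}} [IsIntegral X]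
    [IsNoetherian X] {n : ℕ} (E : Embed k X n)
    (hreg : ∀ x : X, IsRegularLocalRing (X.presheaf.stalk x))
    (hdim : ∀ x : X, Order.coheight x ≤ 2) (hdim2 : ∃ x : X, Order.coheight x = 2)
    (c : Fin (n + 1) → k) (γ : PointOne X) (hc : genericPoint X ∈ E.U c)
    (hγ : γ.1 ∉ E.U c) (huniq : ∀ x : PointOne X, x.1 ∉ E.U c → x = γ)
    (ξ : SChain X) (hξ : IsCycle1 ξ) (hsupp : ∀ x : PointOne X, ξ x ≠ 0 → x.1 ∈ E.U c)
    (hunit : ∀ x : PointOne X, ξ x ≠ 0 → ∀ y, y ∉ E.U c → ∀ h : x.1 ⤳ y,
      ∃ u : (X.presheaf.stalk y)ˣ,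
        ((Additive.toMul (ξ x) : (X.residueField x.1)ˣ) : X.residueField x.1) = evalAt h u) :
    letI := (E.strOn (E.U c)).toAlgebra
    ∀ D : DegFun k Γ(X, E.U c), (∀ f : Γ(X, E.U c), f ≠ 0 →
      (D.deg f : ℤ) = - X.ord ((X.presheaf.germ (E.U c) (genericPoint X) hc).hom f) γ.1) →
      AffMain k Γ(X, E.U c) D → ∃ N : ℕ, 0 < N ∧ N • ξ ∈ tameChains X := by
  let _ := (E.strOn (E.U c)).toAlgebra
  intro D hD hmain
  have hlc : E.toEmbedData.l c ≠ 0 := by
    intro h0
    have h1 := E.empty c h0
    rw [h1] at hc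
    exact hc
  have hV : IsAffineOpen (E.U c) := (E.affine c hlc).1
  obtain ⟨C⟩ := exists_curveData (E.U c) hV hc
  set η : Chain1 Γ(X, E.U c) := C.restr ξ with hηdef
  have hη : ∀ P, ξ (C.pt P) = Additive.ofMul (Units.map (C.φ P).toMonoidHom
      (Additive.toMul (η P))) := fun P => (C.restr_apply ξ P).symm
  have hη0 : ∀ P, η P ≠ 0 → ξ (C.pt P) ≠ 0 := by
    intro P hP h0
    apply hP
    have h1 := hη P
    rw [h0] at h1
    have h2 : Units.map (C.φ P).toMonoidHom (Additive.toMul (η P)) = 1 := by
      have h3 := congrArg Additive.toMul h1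
      exact h3.symm
    have h3 : Additive.toMul (η P) = 1 := by
      apply Units.ext
      apply (C.φ P).injective
      have h4 := congrArg Units.val h2
      rw [Units.val_one, map_one]
      exact h4
    exact Additive.toMul.injective h3
  obtain ⟨N, hN, hmem⟩ := hmain η (by
    intro P hP V hk hex
    apply unit_at_infinity E c hc C P _ ?_ V hk hex
    intro y hy h
    obtain ⟨u, hu⟩ := hunit (C.pt P) (hη0 P hP) y hy h
    refine ⟨u, ?_⟩
    rw [← hu, hη P]
    rfl) (cycle_restrict E hreg hdim hdim2 c hc C ξ hξ η hη)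
  refine ⟨N, hN, ?_⟩
  -- the chain is the extension of its restriction
  have hext : C.ext η = ξ := by
    apply DFinsupp.ext
    intro x
    by_cases hx : x.1 ∈ E.U c
    · obtain ⟨P, rfl⟩ := C.surj x hx
      rw [C.ext_pt, hηdef, C.restr_apply]
    · rw [C.ext_off η x hx]
      by_contra h0
      exact hx (hsupp x (Ne.symm h0))
  have hle : (tameSubgroupRel Γ(X, E.U c) (SameLead D)).map C.ext ≤ tameChains X := by
    unfold tameSubgroupRel
    rw [AddMonoidHom.map_closure, AddSubgroup.closure_le]
    rintro _ ⟨_, ⟨a, a', b, hsl, ha, ha', hb, ξ₁, ξ₂, h1, h2, rfl⟩, rfl⟩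
    apply AddSubgroup.subset_closure
    have hinj : Function.Injective (X.presheaf.germ (E.U c) (genericPoint X) hc).hom := by
      have h3 := germ_injective_of_isIntegral X (genericPoint X) hc
      exact h3
    have hne : ∀ f : Γ(X, E.U c), f ≠ 0 →
        (X.presheaf.germ (E.U c) (genericPoint X) hc).hom f ≠ 0 := by
      intro f hf h0
      exact hf (hinj (by rw [h0, map_zero]))
    refine ⟨(X.presheaf.germ (E.U c) (genericPoint X) hc).hom a /
      (X.presheaf.germ (E.U c) (genericPoint X) hc).hom a',
      (X.presheaf.germ (E.U c) (genericPoint X) hc).hom b, div_ne_zero (hne a ha) (hne a' ha'),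
      hne b hb, ?_⟩
    intro x
    by_cases hx : x.1 ∈ E.U c
    · obtain ⟨P, rfl⟩ := C.surj x hx
      have h3 := tame_ext (E.U c) hV hc C hreg P a b ha hb _ (h1 P)
      have h4 := tame_ext (E.U c) hV hc C hreg P a' b ha' hb _ (h2 P)
      have h5 := h3.div (hne a ha) (hne a' ha') (hne b hb) h4
      rw [C.ext_pt, DFinsupp.sub_apply, map_sub]
      exact h5
    · rw [C.ext_off _ x hx]
      have hxγ := huniq x hx
      subst hxγ
      obtain ⟨v, hv, hr⟩ := so_exists_unit x.1 x.2 (hreg x.1)
        ((X.presheaf.germ (E.U c) (genericPoint X) hc).hom a)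
        ((X.presheaf.germ (E.U c) (genericPoint X) hc).hom a') (hne a ha) (hne a' ha') (by
          rcases hsl with h3 | h3
          · left
            rw [h3]
          · by_cases h4 : a - a' = 0
            · left
              rw [sub_eq_zero.1 h4]
            · right
              have h5 := hD _ h4
              have h6 := hD a ha
              rw [map_sub] at h5
              omega)
      exact isTameAt_one x.1 _ _ v hv hr
  have h5 : C.ext (N • η) ∈ tameChains X := hle ⟨N • η, hmem, rfl⟩
  rw [map_nsmul, hext] at h5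
  exact h5

end Pool.Agent.K1
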