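import Pool.Agent.K1.DDefs
import Pool.Agent.K1.CycleRestrict

/-!
Descent: the primes of the local ring at a point are the generizations of the point.
-/

set_option autoImplicit false

open AlgebraicGeometry CategoryTheory

namespace Pool.Agent.K1

/-- The prime of an affine neighbourhood given by a point in it. -/
theorem dgen_mem_asIdeal {Y : Scheme.{0}} {V : Y.Opens} (hV : IsAffineOpen V)
    (P : PrimeSpectrum Γ(Y, V)) (hm : hV.fromSpec P ∈ V) (a : Γ(Y, V)) :
    (Y.evaluation V (hV.fromSpec P) hm).hom a = 0 ↔ a ∈ P.asIdeal := by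
  rw [af_eval_eq_zero, af_germ_unit hV P hm a, not_not]

/-- Two primes of the local ring with the same restriction to an affine neighbourhood agree. -/
theorem dgen_prime_ext {Y : Scheme.{0}} {V : Y.Opens} (hV : IsAffineOpen V) {y : Y} (hy : y ∈ V)
    (Q Q' : Ideal (Y.presheaf.stalk y))
    (h : ∀ a : Γ(Y, V), (Y.presheaf.germ V y hy).hom a ∈ Q ↔
      (Y.presheaf.germ V y hy).hom a ∈ Q') : Q = Q' := by
  let _ := Y.presheaf.algebra_section_stalk (⟨y, hy⟩ : V)
  have hloc : IsLocalization.AtPrime (Y.presheaf.stalk y) (hV.primeIdealOf ⟨y, hy⟩).asIdeal :=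
    hV.isLocalization_stalk ⟨y, hy⟩
  have h1 := IsLocalization.map_under (hV.primeIdealOf ⟨y, hy⟩).asIdeal.primeCompl
    (Y.presheaf.stalk y) Q
  have h2 := IsLocalization.map_under (hV.primeIdealOf ⟨y, hy⟩).asIdeal.primeCompl
    (Y.presheaf.stalk y) Q'
  rw [← h1, ← h2]
  congr 1
  ext a
  exact h a

theorem exists_generization {Y : Scheme.{0}} (y : Y) (Q : Ideal (Y.presheaf.stalk y))
    [Q.IsPrime] : ∃ (z : Y) (h : z ⤳ y), RingHom.ker (evalAt h) = Q := by
  obtain ⟨V, hV, hy, -⟩ := exists_isAffineOpen_mem_and_subset (X := Y) (x := y) (U := ⊤) trivial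
  let P : PrimeSpectrum Γ(Y, V) := ⟨Q.comap (Y.presheaf.germ V y hy).hom, inferInstance⟩
  have hm : hV.fromSpec P ∈ V := af_mem hV P
  have h : hV.fromSpec P ⤳ y := by
    refine specializes_of_eval V hV hm hy fun a ha => ?_
    rw [dgen_mem_asIdeal hV P hm a] at ha
    rw [af_eval_eq_zero]
    intro hu
    exact (inferInstance : Q.IsPrime).ne_top (Ideal.eq_top_of_isUnit_mem Q ha hu)
  refine ⟨hV.fromSpec P, h, ?_⟩
  refine dgen_prime_ext hV hy _ _ fun a => ?_
  rw [RingHom.mem_ker, evalAt_germ h V hy a, dgen_mem_asIdeal hV P hm a]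
  rfl

theorem generization_unique {Y : Scheme.{0}} {y z z' : Y} (h : z ⤳ y) (h' : z' ⤳ y)
    (e : RingHom.ker (evalAt h) = RingHom.ker (evalAt h')) : z = z' := by
  obtain ⟨V, hV, hy, -⟩ := exists_isAffineOpen_mem_and_subset (X := Y) (x := y) (U := ⊤) trivial
  have hz : z ∈ V := h.mem_open V.isOpen hy
  have hz' : z' ∈ V := h'.mem_open V.isOpen hy
  have key : ∀ a : Γ(Y, V), (Y.evaluation V z hz).hom a = 0 ↔
      (Y.evaluation V z' hz').hom a = 0 := by
    intro a
    rw [← evalAt_germ h V hy a, ← evalAt_germ h' V hy a, ← RingHom.mem_ker, e, RingHom.mem_ker]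
  have h1 : z ⤳ z' := specializes_of_eval V hV hz hz' fun a ha => (key a).1 ha
  have h2 : z' ⤳ z := specializes_of_eval V hV hz' hz fun a ha => (key a).2 ha
  exact (h1.antisymm h2).eq

/-- The local ring at a generization is a localization. -/
theorem isLocalization_stalk {Y : Scheme.{0}} {y z : Y} (h : z ⤳ y) :
    letI := (Y.presheaf.stalkSpecializes h).hom.toAlgebra
    haveI : (RingHom.ker (evalAt h)).IsPrime := RingHom.ker_isPrime _
    IsLocalization.AtPrime (Y.presheaf.stalk z) (RingHom.ker (evalAt h)) := by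
  obtain ⟨V, hV, hy, -⟩ := exists_isAffineOpen_mem_and_subset (X := Y) (x := y) (U := ⊤) trivial
  have hz : z ∈ V := h.mem_open V.isOpen hy
  let i1 := (Y.presheaf.stalkSpecializes h).hom.toAlgebra
  have hP : (RingHom.ker (evalAt h)).IsPrime := RingHom.ker_isPrime _
  let i2 := Y.presheaf.algebra_section_stalk (⟨y, hy⟩ : V)
  let i3 := Y.presheaf.algebra_section_stalk (⟨z, hz⟩ : V)
  have hy1 : IsLocalization.AtPrime (Y.presheaf.stalk y) (hV.primeIdealOf ⟨y, hy⟩).asIdeal :=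
    hV.isLocalization_stalk ⟨y, hy⟩
  have hz1 : IsLocalization.AtPrime (Y.presheaf.stalk z) (hV.primeIdealOf ⟨z, hz⟩).asIdeal :=
    hV.isLocalization_stalk ⟨z, hz⟩
  have tower : IsScalarTower Γ(Y, V) (Y.presheaf.stalk y) (Y.presheaf.stalk z) := by
    refine IsScalarTower.of_algebraMap_eq fun a => ?_
    exact (TopCat.Presheaf.germ_stalkSpecializes_apply Y.presheaf hy h a).symm
  have ey : ∀ a : Γ(Y, V), a ∉ (hV.primeIdealOf ⟨y, hy⟩).asIdeal ↔
      IsUnit ((Y.presheaf.germ V y hy).hom a) := fun a =>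
    (IsLocalization.AtPrime.isUnit_to_map_iff (Y.presheaf.stalk y)
      (hV.primeIdealOf ⟨y, hy⟩).asIdeal a).symm
  have ez : ∀ a : Γ(Y, V), a ∉ (hV.primeIdealOf ⟨z, hz⟩).asIdeal ↔
      IsUnit ((Y.presheaf.germ V z hz).hom a) := fun a =>
    (IsLocalization.AtPrime.isUnit_to_map_iff (Y.presheaf.stalk z)
      (hV.primeIdealOf ⟨z, hz⟩).asIdeal a).symm
  have hev : ∀ a : Γ(Y, V), a ∉ (hV.primeIdealOf ⟨z, hz⟩).asIdeal ↔
      evalAt h ((Y.presheaf.germ V y hy).hom a) ≠ 0 := by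
    intro a
    rw [ez, evalAt_germ h V hy a, ne_eq, af_eval_eq_zero, not_not]
  have hle : (hV.primeIdealOf ⟨y, hy⟩).asIdeal.primeCompl ≤
      (hV.primeIdealOf ⟨z, hz⟩).asIdeal.primeCompl := by
    intro a ha
    have ha' : a ∉ (hV.primeIdealOf ⟨y, hy⟩).asIdeal := ha
    change a ∉ (hV.primeIdealOf ⟨z, hz⟩).asIdeal
    rw [hev]
    rw [ey] at ha'
    exact (ha'.map (evalAt h)).ne_zero
  have h3 : IsLocalization ((hV.primeIdealOf ⟨z, hz⟩).asIdeal.primeCompl.map
      (algebraMap Γ(Y, V) (Y.presheaf.stalk y))) (Y.presheaf.stalk z) :=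
    IsLocalization.isLocalization_of_submonoid_le (Y.presheaf.stalk y) (Y.presheaf.stalk z)
      (hV.primeIdealOf ⟨y, hy⟩).asIdeal.primeCompl
      (hV.primeIdealOf ⟨z, hz⟩).asIdeal.primeCompl hle
  refine IsLocalization.isLocalization_of_is_exists_mul_mem (Y.presheaf.stalk z)
    ((hV.primeIdealOf ⟨z, hz⟩).asIdeal.primeCompl.map
      (algebraMap Γ(Y, V) (Y.presheaf.stalk y))) (RingHom.ker (evalAt h)).primeCompl ?_ ?_
  · rintro _ ⟨a, ha, rfl⟩
    exact (hev a).1 ha
  · rintro ⟨x, hx⟩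
    obtain ⟨⟨a, s⟩, has⟩ := IsLocalization.surj
      (hV.primeIdealOf ⟨y, hy⟩).asIdeal.primeCompl x
    refine ⟨algebraMap Γ(Y, V) (Y.presheaf.stalk y) s, ?_⟩
    rw [mul_comm, has]
    refine ⟨a, ?_, rfl⟩
    change a ∉ (hV.primeIdealOf ⟨z, hz⟩).asIdeal
    rw [hev]
    change evalAt h (algebraMap Γ(Y, V) (Y.presheaf.stalk y) a) ≠ 0
    rw [← has, map_mul]
    refine mul_ne_zero hx ?_
    exact ((IsLocalization.map_units (Y.presheaf.stalk y) s).map (evalAt h)).ne_zero

theorem evalAt_pi {Y X : Scheme.{0}} (π : Y ⟶ X) {z y : Y} (h : z ⤳ y) (h' : π z ⤳ π y)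
    (a : X.presheaf.stalk (π y)) :
    evalAt h ((π.stalkMap y).hom a) = (π.residueFieldMap z).hom (evalAt h' a) := by
  have h1 : (Y.presheaf.stalkSpecializes h).hom ((π.stalkMap y).hom a) =
      (π.stalkMap z).hom ((X.presheaf.stalkSpecializes h').hom a) :=
    (Scheme.Hom.stalkSpecializes_stalkMap_apply π z y h a).symm
  have h2 : (π.residueFieldMap z).hom ((X.residue (π z)).hom
      ((X.presheaf.stalkSpecializes h').hom a)) = (Y.residue z).hom ((π.stalkMap z).hom
      ((X.presheaf.stalkSpecializes h').hom a)) :=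
    DFunLike.congr_fun (CommRingCat.hom_ext_iff.mp (Scheme.residue_residueFieldMap π z)) _
  change (Y.residue z).hom ((Y.presheaf.stalkSpecializes h).hom ((π.stalkMap y).hom a)) = _
  rw [h1, ← h2]
  rfl

end Pool.Agent.K1
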