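import Pool.Agent.K1.M1A

/-!
Module M1B of the K1 project: Stepanov's method for the splitting cover of a polynomial
with full symmetric Galois group.
-/

open Polynomial

namespace Pool.Agent.K1
namespace StB

section W


variable {k : Type*} [Field k] {N : ℕ}

theorem wdeg_zero (h m : ℕ) : WDeg h (0 : MvPolynomial (Fin N) k[X]) m := by
  intro a ha
  exact absurd (MvPolynomial.coeff_zero a) ha

theorem wdeg_mono {h : ℕ} {f : MvPolynomial (Fin N) k[X]} {m m' : ℕ} (hf : WDeg h f m)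
    (hm : m ≤ m') : WDeg h f m' := fun a ha => (hf a ha).trans hm

theorem wdeg_add {h : ℕ} {f g : MvPolynomial (Fin N) k[X]} {m : ℕ} (hf : WDeg h f m)
    (hg : WDeg h g m) : WDeg h (f + g) m := by
  intro a ha
  rw [MvPolynomial.coeff_add] at ha ⊢
  by_cases h1 : f.coeff a = 0
  · rw [h1, zero_add] at ha ⊢; exact hg a ha
  by_cases h2 : g.coeff a = 0
  · rw [h2, add_zero] at ha ⊢; exact hf a ha
  have := Polynomial.natDegree_add_le (f.coeff a) (g.coeff a)
  have h3 := hf a h1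
  have h4 := hg a h2
  rcases le_total (f.coeff a).natDegree (g.coeff a).natDegree with h5 | h5
  · rw [max_eq_right h5] at this; omega
  · rw [max_eq_left h5] at this; omega

theorem wdeg_sum {ι : Type*} {h m : ℕ} (s : Finset ι) (f : ι → MvPolynomial (Fin N) k[X])
    (hf : ∀ i ∈ s, WDeg h (f i) m) : WDeg h (∑ i ∈ s, f i) m := by
  classical
  induction s using Finset.induction_on with
  | empty => simpa using wdeg_zero h m
  | insert i s hi ih =>
    rw [Finset.sum_insert hi]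
    exact wdeg_add (hf i (Finset.mem_insert_self i s))
      (ih fun j hj => hf j (Finset.mem_insert_of_mem hj))

theorem wdeg_monomial {h m : ℕ} {a : Fin N →₀ ℕ} {c : k[X]}
    (hm : c ≠ 0 → c.natDegree + h * (∑ i, a i) ≤ m) :
    WDeg h (MvPolynomial.monomial a c) m := by
  classical
  intro b hb
  rw [MvPolynomial.coeff_monomial] at hb ⊢
  split_ifs with hab
  · subst hab
    rw [if_pos rfl] at hb
    exact hm hb
  · rw [if_neg hab] at hb
    exact absurd rfl hb

theorem wdeg_mul {h : ℕ} {f g : MvPolynomial (Fin N) k[X]} {m m' : ℕ} (hf : WDeg h f m)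
    (hg : WDeg h g m') : WDeg h (f * g) (m + m') := by
  classical
  rw [← MvPolynomial.support_sum_monomial_coeff f, ← MvPolynomial.support_sum_monomial_coeff g,
    Finset.sum_mul_sum]
  refine wdeg_sum _ _ fun a ha => wdeg_sum _ _ fun b hb => ?_
  rw [MvPolynomial.monomial_mul]
  refine wdeg_monomial fun _ => ?_
  have h1 := hf a (MvPolynomial.mem_support_iff.1 ha)
  have h2 := hg b (MvPolynomial.mem_support_iff.1 hb)
  have h3 := Polynomial.natDegree_mul_le (p := f.coeff a) (q := g.coeff b)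
  have h4 : ∑ i, (a + b) i = ∑ i, a i + ∑ i, b i := by
    simp only [Finsupp.add_apply, Finset.sum_add_distrib]
  rw [h4, Nat.mul_add]
  omega

theorem wdeg_one (h : ℕ) : WDeg h (1 : MvPolynomial (Fin N) k[X]) 0 := by
  have : (1 : MvPolynomial (Fin N) k[X]) = MvPolynomial.monomial 0 1 := rfl
  rw [this]
  refine wdeg_monomial fun _ => ?_
  simp

theorem wdeg_pow {h : ℕ} {f : MvPolynomial (Fin N) k[X]} {m : ℕ} (hf : WDeg h f m) (n : ℕ) :
    WDeg h (f ^ n) (m * n) := by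
  induction n with
  | zero => simpa using wdeg_one h
  | succ n ih => rw [pow_succ, Nat.mul_succ]; exact wdeg_mul ih hf

theorem wdeg_smul {h : ℕ} {f : MvPolynomial (Fin N) k[X]} {m : ℕ} (hf : WDeg h f m) (c : k) :
    WDeg h (MvPolynomial.C (C c) * f) m := by
  intro a ha
  rw [MvPolynomial.coeff_C_mul] at ha ⊢
  have h1 : f.coeff a ≠ 0 := fun h0 => ha (by rw [h0, mul_zero])
  have h2 := hf a h1
  have h3 := Polynomial.natDegree_C_mul_le c (f.coeff a)
  omega

/-- The monomial `lam^j T^a`. -/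
noncomputable def mon (j : ℕ × (Fin N →₀ ℕ)) : MvPolynomial (Fin N) k[X] :=
  MvPolynomial.monomial j.2 (X ^ j.1)

theorem wdeg_mon {h : ℕ} (j : ℕ × (Fin N →₀ ℕ)) (ha : ∀ i, j.2 i < N) :
    WDeg h (mon j : MvPolynomial (Fin N) k[X]) (j.1 + h * N ^ 2) := by
  refine wdeg_monomial fun _ => ?_
  rw [Polynomial.natDegree_X_pow]
  have : ∑ i, j.2 i ≤ N ^ 2 := by
    calc ∑ i, j.2 i ≤ ∑ _i : Fin N, N := Finset.sum_le_sum fun i _ => (ha i).le
      _ = N ^ 2 := by simp [sq]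
  have := Nat.mul_le_mul_left h this
  omega

theorem wdeg_rename_mon {h : ℕ} (τ : Equiv.Perm (Fin N)) (j : ℕ × (Fin N →₀ ℕ))
    (ha : ∀ i, j.2 i < N) :
    WDeg h (MvPolynomial.rename τ (mon j : MvPolynomial (Fin N) k[X])) (j.1 + h * N ^ 2) := by
  rw [mon, MvPolynomial.rename_monomial]
  refine wdeg_monomial fun _ => ?_
  rw [Polynomial.natDegree_X_pow]
  have hs : ∑ i, (Finsupp.mapDomain τ j.2) i = ∑ i, j.2 i := by
    rw [← Equiv.sum_comp τ]
    refine Finset.sum_congr rfl fun i _ => ?_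
    rw [Finsupp.mapDomain_apply τ.injective]
  have : ∑ i, j.2 i ≤ N ^ 2 := by
    calc ∑ i, j.2 i ≤ ∑ _i : Fin N, N := Finset.sum_le_sum fun i _ => (ha i).le
      _ = N ^ 2 := by simp [sq]
  have := Nat.mul_le_mul_left h this
  rw [hs]
  omega

/-- Value of a monomial. -/
theorem atPt_mon (q : k × (Fin N → k)) (j : ℕ × (Fin N →₀ ℕ)) :
    atPt q (mon j) = q.1 ^ j.1 * ∏ i, q.2 i ^ j.2 i := by
  rw [atPt, mon, MvPolynomial.coe_eval₂Hom, MvPolynomial.eval₂_monomial]
  congr 1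
  · simp
  · rw [Finsupp.prod_fintype]
    intro i; exact pow_zero _

theorem atPt_rename_mon (q : k × (Fin N → k)) (τ : Equiv.Perm (Fin N))
    (j : ℕ × (Fin N →₀ ℕ)) :
    atPt q (MvPolynomial.rename τ (mon j)) = q.1 ^ j.1 * ∏ i, q.2 (τ i) ^ j.2 i := by
  rw [atPt, MvPolynomial.coe_eval₂Hom, MvPolynomial.eval₂_rename, mon,
    MvPolynomial.eval₂_monomial]
  congr 1
  · simp
  · rw [Finsupp.prod_fintype]
    · rfl
    intro i; exact pow_zero _

theorem atPt_C (q : k × (Fin N → k)) (c : k) : atPt q (MvPolynomial.C (C c)) = c := by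
  rw [atPt, MvPolynomial.coe_eval₂Hom, MvPolynomial.eval₂_C]
  simp


end W


/-- Linear algebra: a nontrivial combination with vanishing low coefficients. -/
theorem exists_combo {k α : Type*} [Field k] [DecidableEq α] (P : Finset α)
    (g : α → PowerSeries k) (M : ℕ) (h : M + 1 < P.card) :
    ∃ v : α → k, (∃ p ∈ P, v p ≠ 0) ∧
      ∀ n ≤ M, PowerSeries.coeff n (∑ p ∈ P, PowerSeries.C (v p) * g p) = 0 := by
  classical
  let L : (↥P → k) →ₗ[k] (Fin (M + 1) → k) :=
    { toFun := fun v n => ∑ p : ↥P, v p * PowerSeries.coeff (n : ℕ) (g p)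
      map_add' := fun v w => by
        funext n; simp only [Pi.add_apply, add_mul, Finset.sum_add_distrib]
      map_smul' := fun c v => by
        funext n
        simp only [Pi.smul_apply, smul_eq_mul, RingHom.id_apply, Finset.mul_sum, mul_assoc] }
  have hf : Module.finrank k (Fin (M + 1) → k) < Module.finrank k (↥P → k) := by
    rw [Module.finrank_fintype_fun_eq_card, Module.finrank_fintype_fun_eq_card,
      Fintype.card_fin, Fintype.card_coe]
    exact h
  have hk := LinearMap.ker_ne_bot_of_finrank_lt (f := L) hf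
  obtain ⟨v, hv, hv0⟩ := (Submodule.ne_bot_iff _).1 hk
  rw [LinearMap.mem_ker] at hv
  refine ⟨fun p => if hp : p ∈ P then v ⟨p, hp⟩ else 0, ?_, ?_⟩
  · by_contra hcon
    push Not at hcon
    apply hv0
    funext p
    have := hcon p.1 p.2
    rw [dif_pos p.2] at this
    simpa using this
  · intro n hn
    have h1 := congrFun hv ⟨n, Nat.lt_succ_of_le hn⟩
    have h2 : (∑ p : ↥P, v p * PowerSeries.coeff n (g p)) = 0 := h1
    rw [map_sum, ← Finset.sum_coe_sort P]
    refine Eq.trans ?_ h2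
    refine Finset.sum_congr rfl fun p _ => ?_
    rw [PowerSeries.coeff_C_mul]
    simp only [dif_pos p.2]

theorem frob_low {k : Type*} [Field k] (p : ℕ) [Fact p.Prime] [CharP k p] (m : ℕ)
    {I : Type*} (s : Finset I) (x w : I → PowerSeries k) (hw : ∃ i ∈ s, w i ≠ 0)
    (h0 : ∑ i ∈ s, x i * (w i) ^ (p ^ m) = 0) :
    ∃ d : I → k, (∃ i ∈ s, d i ≠ 0) ∧
      ∀ n, n < p ^ m → PowerSeries.coeff n (∑ i ∈ s, PowerSeries.C (d i) * x i) = 0 := by
  classical
  have hex : ∃ e, ∃ i ∈ s, PowerSeries.coeff e (w i) ≠ 0 := by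
    obtain ⟨i, hi, hwi⟩ := hw
    by_contra hcon
    push Not at hcon
    exact hwi (PowerSeries.ext fun n => by rw [hcon n i hi, map_zero])
  set e := Nat.find hex with he
  have hes := Nat.find_spec hex
  have hlt : ∀ i ∈ s, ∀ n < e, PowerSeries.coeff n (w i) = 0 := by
    intro i hi n hn
    by_contra hcon
    exact Nat.find_min hex hn ⟨i, hi, hcon⟩
  have hdiv : ∀ i ∈ s, ∃ v, w i = PowerSeries.X ^ e * v := fun i hi =>
    (PowerSeries.X_pow_dvd_iff.2 (hlt i hi))
  let v : I → PowerSeries k := fun i => if hi : i ∈ s then (hdiv i hi).choose else 0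
  have hv : ∀ i ∈ s, w i = PowerSeries.X ^ e * v i := by
    intro i hi
    simp only [v, dif_pos hi]
    exact (hdiv i hi).choose_spec
  have hsplit : ∀ i, ∃ r, v i = PowerSeries.C (PowerSeries.constantCoeff (v i)) +
      PowerSeries.X * r := by
    intro i
    have : PowerSeries.X ∣ v i - PowerSeries.C (PowerSeries.constantCoeff (v i)) := by
      rw [PowerSeries.X_dvd_iff]; simp
    obtain ⟨r, hr⟩ := this
    exact ⟨r, by rw [← hr]; ring⟩
  choose r hr using hsplit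
  have : CharP (PowerSeries k) p := by
    have hinj : Function.Injective (PowerSeries.C : k →+* PowerSeries k) :=
      (PowerSeries.C : k →+* PowerSeries k).injective
    exact (RingHom.charP_iff PowerSeries.C hinj p).1 inferInstance
  have hpow : ∀ i, (v i) ^ (p ^ m) = PowerSeries.C ((PowerSeries.constantCoeff (v i)) ^ (p ^ m)) +
      PowerSeries.X ^ (p ^ m) * (r i) ^ (p ^ m) := by
    intro i
    conv_lhs => rw [hr i]
    rw [add_pow_char_pow, mul_pow, map_pow]
  refine ⟨fun i => (PowerSeries.constantCoeff (v i)) ^ (p ^ m), ?_, ?_⟩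
  · obtain ⟨i, hi, hc⟩ := hes
    refine ⟨i, hi, pow_ne_zero _ ?_⟩
    rw [hv i hi, PowerSeries.coeff_X_pow_mul', if_pos le_rfl, Nat.sub_self] at hc
    rwa [PowerSeries.coeff_zero_eq_constantCoeff_apply] at hc
  · have key : PowerSeries.X ^ (e * p ^ m) *
        (∑ i ∈ s, PowerSeries.C ((PowerSeries.constantCoeff (v i)) ^ (p ^ m)) * x i +
          PowerSeries.X ^ (p ^ m) * ∑ i ∈ s, (r i) ^ (p ^ m) * x i) = 0 := by
      rw [← h0, Finset.mul_sum, ← Finset.sum_add_distrib, Finset.mul_sum]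
      refine Finset.sum_congr rfl fun i hi => ?_
      rw [hv i hi, mul_pow, ← pow_mul, hpow i]
      ring
    have hX : (PowerSeries.X : PowerSeries k) ^ (e * p ^ m) ≠ 0 :=
      pow_ne_zero _ PowerSeries.X_ne_zero
    have key2 := (mul_eq_zero.1 key).resolve_left hX
    intro n hn
    have h3 : ∑ i ∈ s, PowerSeries.C ((PowerSeries.constantCoeff (v i)) ^ (p ^ m)) * x i =
        - (PowerSeries.X ^ (p ^ m) * ∑ i ∈ s, (r i) ^ (p ^ m) * x i) :=
      eq_neg_of_add_eq_zero_left key2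
    rw [h3, map_neg, PowerSeries.coeff_X_pow_mul', if_neg (by omega), neg_zero]

/-- The trivial bound. -/
theorem trivial_bound {k : Type*} [Field k] (p N m : ℕ) [Fact p.Prime] [CharP k p]
    (F : k[X][X]) (hF : F.Monic) (hN : F.natDegree = N)
    (hm : 0 < m) (Q : Finset (k × (Fin N → k)))
    (hQ : ∀ q ∈ Q, FibrePt F q ∧ q.1 ^ ((p ^ m) ^ 2) = q.1) :
    Q.card ≤ (p ^ m) ^ 2 * N ^ N := by
  classical
  set q0 := p ^ m with hq0
  have hq1 : 1 < q0 := Nat.one_lt_pow hm.ne' (Fact.out : p.Prime).one_lt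
  have hq2 : 1 < q0 ^ 2 := Nat.one_lt_pow two_ne_zero hq1
  let R : Finset k := (X ^ (q0 ^ 2) - X : k[X]).roots.toFinset
  have hR : R.card ≤ q0 ^ 2 := by
    refine (Multiset.toFinset_card_le _).trans ((Polynomial.card_roots' _).trans ?_)
    exact (FiniteField.X_pow_card_sub_X_natDegree_eq k hq2).le
  let S : k → Finset k := fun c => (F.map (evalRingHom c)).roots.toFinset
  have hS : ∀ c, (S c).card ≤ N := by
    intro c
    refine (Multiset.toFinset_card_le _).trans ((Polynomial.card_roots' _).trans ?_)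
    exact (Polynomial.natDegree_map_le).trans hN.le
  let T : Finset (k × (Fin N → k)) :=
    R.biUnion fun c => (Fintype.piFinset fun _ : Fin N => S c).image fun y => (c, y)
  have hsub : Q ⊆ T := by
    intro q hq
    obtain ⟨⟨hinj, hroot⟩, hfix⟩ := hQ q hq
    refine Finset.mem_biUnion.2 ⟨q.1, ?_, Finset.mem_image.2 ⟨q.2, ?_, rfl⟩⟩
    · rw [Multiset.mem_toFinset, Polynomial.mem_roots
        (FiniteField.X_pow_card_sub_X_ne_zero k hq2)]
      simp [Polynomial.IsRoot, hfix]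
    · rw [Fintype.mem_piFinset]
      intro i
      rw [Multiset.mem_toFinset, Polynomial.mem_roots]
      · rw [Polynomial.IsRoot.def, Polynomial.eval_map, ← hroot i]
        rw [Polynomial.eval₂_evalRingHom]
      · exact (hF.map _).ne_zero
  refine (Finset.card_le_card hsub).trans (Finset.card_biUnion_le.trans ?_)
  calc ∑ c ∈ R, ((Fintype.piFinset fun _ : Fin N => S c).image fun y => (c, y)).card
      ≤ ∑ _c ∈ R, N ^ N := by
        refine Finset.sum_le_sum fun c _ => Finset.card_image_le.trans ?_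
        rw [Fintype.card_piFinset, Finset.prod_const, Finset.card_univ, Fintype.card_fin]
        exact Nat.pow_le_pow_left (hS c) N
    _ = R.card * N ^ N := by rw [Finset.sum_const, smul_eq_mul]
    _ ≤ _ := Nat.mul_le_mul_right _ hR



/-- The arithmetic of the dimension count. -/
theorem arith_count (D κ q0 l m' : ℕ) (hD : 1 ≤ D) (hκ : 1 ≤ κ)
    (hq : κ * (1 + D * (κ + 6)) + 2 * κ + 8 + D * (κ + 1) ≤ q0)
    (hl : q0 ≤ D * l + D) (hl2 : D * l < q0)
    (hm : q0 + 1 + D * (2 * κ + 6) ≤ D * m' + D)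
    (hm2 : D * m' ≤ q0 + D * (2 * κ + 6)) :
    κ ≤ l ∧ κ ≤ m' ∧
    D * (l * q0 + m') + 1 < ((l + 1 - κ) * D) * ((m' + 1 - κ) * D) := by
  have h1 : κ ≤ l := by
    by_contra hcon
    push Not at hcon
    have : D * l ≤ D * κ := Nat.mul_le_mul_left D hcon.le
    nlinarith
  have h2 : κ ≤ m' := by
    by_contra hcon
    push Not at hcon
    have : D * m' ≤ D * κ := Nat.mul_le_mul_left D hcon.le
    nlinarith
  refine ⟨h1, h2, ?_⟩
  obtain ⟨l', rfl⟩ := Nat.exists_eq_add_of_le h1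
  obtain ⟨m'', rfl⟩ := Nat.exists_eq_add_of_le h2
  have e1 : κ + l' + 1 - κ = l' + 1 := by omega
  have e2 : κ + m'' + 1 - κ = m'' + 1 := by omega
  rw [e1, e2]
  -- a = D (l'+1), b = D (m''+1)
  obtain ⟨a, ha⟩ : ∃ a, a = D * (l' + 1) := ⟨_, rfl⟩
  obtain ⟨b, hb⟩ : ∃ b, b = D * (m'' + 1) := ⟨_, rfl⟩
  have hA : D * (κ + l') + D = a + D * κ := by rw [ha]; ring
  have hE : D * (κ + m'') + D = b + D * κ := by rw [hb]; ring
  have g1 : (l' + 1) * D * ((m'' + 1) * D) = a * b := by rw [ha, hb]; ring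
  rw [g1]
  have hl' : q0 ≤ a + D * κ := by omega
  have hm3 : q0 + 1 + D * (2 * κ + 6) ≤ b + D * κ := by omega
  have hm4 : b + D * κ ≤ q0 + D * (2 * κ + 6) + D := by omega
  have e3 : D * ((κ + l') * q0 + (κ + m'')) + D * q0 + D = (a + D * κ) * q0 + (b + D * κ) := by
    rw [← hA, ← hE]; ring
  have hgoal : (D : ℤ) * ((κ + l') * q0 + (κ + m'')) + 1 < a * b := by
    have hqz : (κ * (1 + D * (κ + 6)) + 2 * κ + 8 + D * (κ + 1) : ℤ) ≤ q0 := by exact_mod_cast hq
    have e3z : (D : ℤ) * ((κ + l') * q0 + (κ + m'')) + D * q0 + D =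
        (a + D * κ) * q0 + (b + D * κ) := by exact_mod_cast e3
    have hl'z : (q0 : ℤ) ≤ a + D * κ := by exact_mod_cast hl'
    have hm3z : (q0 : ℤ) + 1 + D * (2 * κ + 6) ≤ b + D * κ := by exact_mod_cast hm3
    have hm4z : (b : ℤ) + D * κ ≤ q0 + D * (2 * κ + 6) + D := by exact_mod_cast hm4
    have hDz : (1 : ℤ) ≤ D := by exact_mod_cast hD
    have hκz : (1 : ℤ) ≤ κ := by exact_mod_cast hκ
    clear hq e3 hl' hm3 hm4 hA hE g1 ha hb hl hl2 hm hm2 h1 h2 e1 e2
    generalize (D : ℤ) = D at *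
    generalize (κ : ℤ) = κ at *
    generalize (q0 : ℤ) = q at *
    generalize (a : ℤ) = a at *
    generalize (b : ℤ) = b at *
    generalize (l' : ℤ) = l at *
    generalize (m'' : ℤ) = m at *
    have hDκ : 0 ≤ D * κ := mul_nonneg (by linarith) (by linarith)
    have hDDκ : 0 ≤ D * (D * (κ + 1)) := mul_nonneg (by linarith) (mul_nonneg (by linarith) (by linarith))
    have hκD : 0 ≤ κ * (1 + D * (κ + 6)) := mul_nonneg (by linarith)
      (by nlinarith)
    have hq0 : 0 ≤ q := by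
      have : 0 ≤ D * (κ + 1) := mul_nonneg (by linarith) (by linarith)
      linarith
    have hb1 : 1 + D * (κ + 6) ≤ b - q := by
      have : D * (2 * κ + 6) = D * κ + D * (κ + 6) := by ring
      linarith
    have hb0 : 0 ≤ b - q := by
      have : 0 ≤ D * (κ + 6) := mul_nonneg (by linarith) (by linarith)
      linarith
    have ha0 : 0 ≤ q - D * κ := by
      have : D * (κ + 1) = D * κ + D := by ring
      linarith
    have s1 : (q - D * κ) * (1 + D * (κ + 6)) ≤ a * (b - q) := by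
      have t1 : (q - D * κ) * (1 + D * (κ + 6)) ≤ (q - D * κ) * (b - q) :=
        mul_le_mul_of_nonneg_left hb1 ha0
      have t2 : (q - D * κ) * (b - q) ≤ a * (b - q) :=
        mul_le_mul_of_nonneg_right (by linarith) hb0
      linarith
    have s2 : D * κ * (1 + D * (κ + 6)) + D * (2 * κ + 6) + 1 < 7 * (D * q) := by
      have t1 : D * (κ * (1 + D * (κ + 6)) + 2 * κ + 8 + D * (κ + 1)) ≤ D * q :=
        mul_le_mul_of_nonneg_left hqz (by linarith)
      have t2 : D * (κ * (1 + D * (κ + 6)) + 2 * κ + 8 + D * (κ + 1)) =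
        D * κ * (1 + D * (κ + 6)) + D * (2 * κ + 6) + 2 * D + D * (D * (κ + 1)) := by ring
      have t3 : 0 ≤ D * q := mul_nonneg (by linarith) hq0
      linarith
    have t4 : (q - D * κ) * (1 + D * (κ + 6)) =
        q + (κ + 6) * (D * q) - D * κ * (1 + D * (κ + 6)) := by ring
    have t5 : (a + D * κ) * q + (b + D * κ) - D * q - D = a * q + (κ - 1) * (D * q) + b + D * κ - D := by
      ring
    have t6 : a * (b - q) = a * b - a * q := by ring
    have t7 : (κ + 6) * (D * q) = (κ - 1) * (D * q) + 7 * (D * q) := by ring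
    have t8 : D * (2 * κ + 6) = D * κ + D * κ + 6 * D := by ring
    linarith
  exact_mod_cast hgoal

/-- The core for large `q0`. -/
theorem core {k : Type} [Field k] [IsAlgClosed k] (p : ℕ) [Fact p.Prime] [CharP k p]
    (F : k[X][X]) (N h m : ℕ)
    (ι : MvPolynomial (Fin N) k[X] →+* PowerSeries k) (𝓑 : Finset (Fin N →₀ ℕ))
    (hC : ∀ c : k, ι (MvPolynomial.C (C c)) = PowerSeries.C c)
    (hcard : 𝓑.card = N.factorial) (hB : ∀ a ∈ 𝓑, ∀ i, a i < N)
    (hind : ∀ u : (ℕ × (Fin N →₀ ℕ)) →₀ k, (∀ j ∈ u.support, j.2 ∈ 𝓑) →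
        ι (u.sum fun j c => MvPolynomial.monomial j.2 (C c * X ^ j.1)) = 0 → u = 0)
    (hker : ∀ (f : MvPolynomial (Fin N) k[X]), ι f = 0 → ∀ q, FibrePt F q → atPt q f = 0)
    (hdeg : ∀ (f : MvPolynomial (Fin N) k[X]) (m : ℕ), WDeg h f m → ι f ≠ 0 →
        (ι f).order ≤ ((N.factorial * m : ℕ) : ℕ∞) ∧
        ∀ Q : Finset (k × (Fin N → k)), (∀ q ∈ Q, FibrePt F q ∧ atPt q f = 0) →
          Q.card ≤ N.factorial * m)
    (l m' κ : ℕ) (hκ : κ = h * N ^ 2 + 1) (hl : κ ≤ l) (hm' : κ ≤ m')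
    (hlD : N.factorial * l < p ^ m)
    (hcount : N.factorial * (l * p ^ m + m') + 1 <
      ((l + 1 - κ) * N.factorial) * ((m' + 1 - κ) * N.factorial))
    (τ : Equiv.Perm (Fin N)) (Q : Finset (k × (Fin N → k)))
    (hQ : ∀ q ∈ Q, FibrePt F q ∧ q.1 ^ ((p ^ m) ^ 2) = q.1 ∧
      ∀ i, (q.2 i) ^ ((p ^ m) ^ 2) = q.2 (τ i)) :
    Q.card ≤ N.factorial * (l + m' * p ^ m) := by
  classical
  set q0 := p ^ m with hq0
  have hindep : ∀ (J : Finset (ℕ × (Fin N →₀ ℕ))), (∀ j ∈ J, j.2 ∈ 𝓑) →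
      ∀ c : ℕ × (Fin N →₀ ℕ) → k,
      ι (∑ j ∈ J, MvPolynomial.C (C (c j)) * mon j) = 0 → ∀ j ∈ J, c j = 0 := by
    intro J hJ c hc j hj
    let u : (ℕ × (Fin N →₀ ℕ)) →₀ k := Finsupp.onFinset J (fun j => if j ∈ J then c j else 0)
      (fun j hj0 => by
        by_contra hcon
        exact hj0 (if_neg hcon))
    have hu := hind u (fun i hi => hJ i (by
      by_contra hcon
      have : u i = 0 := if_neg hcon
      exact (Finsupp.mem_support_iff.1 hi) this)) (by
        rw [Finsupp.onFinset_sum _ (fun a => by simp)]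
        rw [← hc]
        congr 1
        refine Finset.sum_congr rfl fun i hi => ?_
        rw [if_pos hi, mon, MvPolynomial.C_mul_monomial])
    have h1 : u j = 0 := by rw [hu]; rfl
    have h2 : u j = c j := if_pos hj
    rw [← h2, h1]
  let I : Finset (ℕ × (Fin N →₀ ℕ)) := (Finset.range (l + 1 - κ)) ×ˢ 𝓑
  let J : Finset (ℕ × (Fin N →₀ ℕ)) := (Finset.range (m' + 1 - κ)) ×ˢ 𝓑
  have hIB : ∀ j ∈ I, j.2 ∈ 𝓑 := fun j hj => (Finset.mem_product.1 hj).2
  have hJB : ∀ j ∈ J, j.2 ∈ 𝓑 := fun j hj => (Finset.mem_product.1 hj).2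
  have hIl : ∀ j ∈ I, j.1 + h * N ^ 2 ≤ l := by
    intro j hj
    have := Finset.mem_range.1 (Finset.mem_product.1 hj).1
    omega
  have hJm : ∀ j ∈ J, j.1 + h * N ^ 2 ≤ m' := by
    intro j hj
    have := Finset.mem_range.1 (Finset.mem_product.1 hj).1
    omega
  let fP : (ℕ × (Fin N →₀ ℕ)) × (ℕ × (Fin N →₀ ℕ)) → MvPolynomial (Fin N) k[X] :=
    fun P => mon P.1 ^ q0 * MvPolynomial.rename τ (mon P.2)
  obtain ⟨v, ⟨P0, hP0, hv0⟩, hv⟩ := exists_combo (I ×ˢ J) (fun P => ι (fP P))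
    (N.factorial * (l * q0 + m')) (by
      rw [Finset.card_product, Finset.card_product, Finset.card_product, hcard,
        Finset.card_range, Finset.card_range]
      exact hcount)
  set f : MvPolynomial (Fin N) k[X] := ∑ P ∈ I ×ˢ J, MvPolynomial.C (C (v P)) * fP P with hf
  have hιf : ι f = ∑ P ∈ I ×ˢ J, PowerSeries.C (v P) * ι (fP P) := by
    rw [hf, map_sum]
    refine Finset.sum_congr rfl fun P _ => ?_
    rw [map_mul, hC]
  have hWf : WDeg h f (l * q0 + m') := by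
    refine wdeg_sum _ _ fun P hP => ?_
    obtain ⟨hP1, hP2⟩ := Finset.mem_product.1 hP
    refine wdeg_smul ?_ _
    refine wdeg_mul ?_ ?_
    · exact wdeg_mono (wdeg_pow (wdeg_mon P.1 (hB _ (hIB _ hP1))) q0)
        (Nat.mul_le_mul_right _ (hIl _ hP1))
    · exact wdeg_mono (wdeg_rename_mon τ P.2 (hB _ (hJB _ hP2))) (hJm _ hP2)
  have hf0 : ι f = 0 := by
    by_contra hne
    have h1 := (hdeg f _ hWf hne).1
    have h2 : ((N.factorial * (l * q0 + m') + 1 : ℕ) : ℕ∞) ≤ (ι f).order := by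
      refine PowerSeries.nat_le_order _ _ fun n hn => ?_
      rw [hιf]
      exact hv n (Nat.lt_succ_iff.1 hn)
    have h3 := h2.trans h1
    rw [Nat.cast_le] at h3
    omega
  have hat : ∀ q ∈ Q, atPt q f = 0 := fun q hq => hker f hf0 q (hQ q hq).1
  -- roots of the coefficients
  have hq0pos : 0 < q0 ^ 2 := by
    have : 0 < q0 := pow_pos (Fact.out : p.Prime).pos m
    positivity
  have hroot : ∀ c : k, ∃ z : k, z ^ (q0 ^ 2) = c := fun c =>
    IsAlgClosed.exists_pow_nat_eq c hq0pos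
  choose rt hrt using hroot
  let w : ℕ × (Fin N →₀ ℕ) → MvPolynomial (Fin N) k[X] :=
    fun i => ∑ j ∈ J, MvPolynomial.C (C (rt (v (i, j)))) * mon j
  let g : MvPolynomial (Fin N) k[X] := ∑ i ∈ I, mon i * (w i) ^ q0
  have hWg : WDeg h g (l + m' * q0) := by
    refine wdeg_sum _ _ fun i hi => wdeg_mul ?_ (wdeg_pow ?_ q0)
    · exact wdeg_mono (wdeg_mon i (hB _ (hIB _ hi))) (hIl _ hi)
    · refine wdeg_sum _ _ fun j hj => wdeg_smul ?_ _
      exact wdeg_mono (wdeg_mon j (hB _ (hJB _ hj))) (hJm _ hj)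
  have hpow2 : q0 ^ 2 = p ^ (m * 2) := by rw [hq0, ← pow_mul]
  have hgat : ∀ q ∈ Q, atPt q g = 0 := by
    intro q hq
    obtain ⟨hfib, hfix, hperm⟩ := hQ q hq
    have h1 : (atPt q g) ^ q0 = atPt q f := by
      have e1 : atPt q f = ∑ i ∈ I, (atPt q (mon i)) ^ q0 *
          ∑ j ∈ J, v (i, j) * (q.1 ^ j.1 * ∏ t, q.2 (τ t) ^ j.2 t) := by
        rw [hf, map_sum, Finset.sum_product]
        refine Finset.sum_congr rfl fun i _ => ?_
        rw [Finset.mul_sum]
        refine Finset.sum_congr rfl fun j _ => ?_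
        rw [map_mul, atPt_C, map_mul, map_pow, atPt_rename_mon]
        ring
      rw [e1]
      have e2 : atPt q g = ∑ i ∈ I, atPt q (mon i) * (atPt q (w i)) ^ q0 := by
        simp only [g, map_sum, map_mul, map_pow]
      rw [e2, hq0, sum_pow_char_pow]
      refine Finset.sum_congr rfl fun i _ => ?_
      rw [mul_pow, ← hq0, ← pow_mul, ← sq]
      congr 1
      have e3 : atPt q (w i) = ∑ j ∈ J, rt (v (i, j)) * (q.1 ^ j.1 * ∏ t, q.2 t ^ j.2 t) := by
        simp only [w, map_sum, map_mul, atPt_C, atPt_mon]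
      rw [e3, hpow2, sum_pow_char_pow]
      refine Finset.sum_congr rfl fun j _ => ?_
      rw [← hpow2, mul_pow, hrt, mul_pow, ← Finset.prod_pow, ← pow_mul, mul_comm j.1, pow_mul,
        hfix]
      congr 2
      refine Finset.prod_congr rfl fun t _ => ?_
      rw [← pow_mul, mul_comm (j.2 t), pow_mul, hperm]
    rw [hat q hq] at h1
    exact pow_eq_zero_iff (pow_pos (Fact.out : p.Prime).pos m).ne' |>.1 h1
  have hg0 : ι g ≠ 0 := by
    intro hg
    have h1 : ∑ i ∈ I, ι (mon i) * (ι (w i)) ^ (p ^ m) = 0 := by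
      rw [← hg]
      simp only [g, map_sum, map_mul, map_pow, hq0]
    obtain ⟨hP1, hP2⟩ := Finset.mem_product.1 hP0
    have hw : ∃ i ∈ I, ι (w i) ≠ 0 := by
      refine ⟨P0.1, hP1, fun h0 => ?_⟩
      have h2 := hindep J hJB (fun j => rt (v (P0.1, j))) h0 P0.2 hP2
      apply hv0
      have h3 := hrt (v (P0.1, P0.2))
      have h4 : rt (v (P0.1, P0.2)) = 0 := h2
      rw [h4, zero_pow hq0pos.ne'] at h3
      exact h3.symm
    obtain ⟨d, ⟨i0, hi0, hd0⟩, hd⟩ := frob_low p m I (fun i => ι (mon i)) (fun i => ι (w i)) hw h1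
    let G : MvPolynomial (Fin N) k[X] := ∑ i ∈ I, MvPolynomial.C (C (d i)) * mon i
    have hG : ι G ≠ 0 := fun h0 => hd0 (hindep I hIB d h0 i0 hi0)
    have hWG : WDeg h G l := by
      refine wdeg_sum _ _ fun i hi => wdeg_smul ?_ _
      exact wdeg_mono (wdeg_mon i (hB _ (hIB _ hi))) (hIl _ hi)
    have h5 := (hdeg G _ hWG hG).1
    have h6 : ((p ^ m : ℕ) : ℕ∞) ≤ (ι G).order := by
      refine PowerSeries.nat_le_order _ _ fun n hn => ?_
      have : ι G = ∑ i ∈ I, PowerSeries.C (d i) * ι (mon i) := by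
        simp only [G, map_sum, map_mul, hC]
      rw [this]
      exact hd n hn
    have h7 := h6.trans h5
    rw [Nat.cast_le] at h7
    omega
  exact (hdeg g _ hWg hg0).2 Q fun q hq => ⟨(hQ q hq).1, hgat q hq⟩

end StB

/-- M1B. Stepanov's method: the upper bound for each element of the group. -/
theorem M1B_upper (p N h : ℕ) [Fact p.Prime] : ∃ B : ℕ, ∀ (k : Type) [Field k] [IsAlgClosed k]
    [CharP k p] (F : k[X][X]), F.Monic → F.natDegree = N →
    (∀ i, (F.coeff i).natDegree ≤ h) → FullGal F N → ∀ (m : ℕ) (_ : 0 < m)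
    (τ : Equiv.Perm (Fin N))
    (Q : Finset (k × (Fin N → k))),
    (∀ q ∈ Q, FibrePt F q ∧ q.1 ^ ((p ^ m) ^ 2) = q.1 ∧
      ∀ i, (q.2 i) ^ ((p ^ m) ^ 2) = q.2 (τ i)) →
    Q.card ≤ (p ^ m) ^ 2 + B * p ^ m := by
  obtain ⟨D, hD⟩ : ∃ D, D = N.factorial := ⟨_, rfl⟩
  obtain ⟨κ, hκ⟩ : ∃ κ, κ = h * N ^ 2 + 1 := ⟨_, rfl⟩
  obtain ⟨c0, hc0⟩ : ∃ c0, c0 = κ * (1 + D * (κ + 6)) + 2 * κ + 8 + D * (κ + 1) := ⟨_, rfl⟩
  have hD1 : 1 ≤ D := by rw [hD]; exact N.factorial_pos
  refine ⟨c0 * N ^ N + (1 + D * (2 * κ + 6)), ?_⟩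
  intro k _ _ _ F hF hN hh hG m hm τ Q hQ
  obtain ⟨q0, hq0⟩ : ∃ q0, q0 = p ^ m := ⟨_, rfl⟩
  rcases lt_or_ge q0 c0 with hlt | hge
  · have h1 := StB.trivial_bound p N m F hF hN hm Q fun q hq => ⟨(hQ q hq).1, (hQ q hq).2.1⟩
    rw [← hq0] at h1 ⊢
    refine h1.trans ?_
    have h2 : q0 ^ 2 * N ^ N ≤ (c0 * N ^ N) * q0 := by
      have : q0 * (q0 * N ^ N) ≤ c0 * (q0 * N ^ N) := Nat.mul_le_mul_right _ hlt.le
      nlinarith
    refine h2.trans ?_
    have h3 : (c0 * N ^ N + (1 + D * (2 * κ + 6))) * q0 =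
        c0 * N ^ N * q0 + (1 + D * (2 * κ + 6)) * q0 := by ring
    rw [h3]
    exact (Nat.le_add_right _ _).trans (Nat.le_add_left _ _)
  · obtain ⟨ι, 𝓑, hC, hcard, hB, hind, hker, hdeg⟩ := M1A_interface F N h hF hN hh hG
    obtain ⟨l, hl⟩ : ∃ l, l = (q0 - 1) / D := ⟨_, rfl⟩
    obtain ⟨e, he⟩ : ∃ e, e = q0 / D := ⟨_, rfl⟩
    obtain ⟨m', hm'⟩ : ∃ m', m' = e + (2 * κ + 6) := ⟨_, rfl⟩
    have hq1 : 1 ≤ q0 := by rw [hq0]; exact Nat.one_le_iff_ne_zero.2
                              (pow_pos (Fact.out : p.Prime).pos m).ne'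
    have a1 : D * l ≤ q0 - 1 := by rw [hl]; exact Nat.mul_div_le _ _
    have a2 : q0 - 1 < D * l + D := by
      have := Nat.lt_mul_div_succ (q0 - 1) (show 0 < D by omega)
      rw [hl]; rw [Nat.mul_add, Nat.mul_one] at this; exact this
    have b1 : D * e ≤ q0 := by rw [he]; exact Nat.mul_div_le _ _
    have b2 : q0 < D * e + D := by
      have := Nat.lt_mul_div_succ q0 (show 0 < D by omega)
      rw [he]; rw [Nat.mul_add, Nat.mul_one] at this; exact this
    have c1 : D * m' = D * e + D * (2 * κ + 6) := by rw [hm']; ring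
    obtain ⟨g1, g2, g3⟩ := StB.arith_count D κ q0 l m' hD1 (by omega) (by omega) (by omega)
      (by omega) (by omega) (by omega)
    have key := StB.core p F N h m ι 𝓑 hC hcard hB hind hker hdeg l m' κ hκ g1 g2
      (by rw [← hD, ← hq0]; omega) (by rw [← hD, ← hq0]; exact g3) τ Q hQ
    rw [← hD, ← hq0] at key
    rw [← hq0]
    refine key.trans ?_
    have e1 : D * (l + m' * q0) = D * l + (D * e + D * (2 * κ + 6)) * q0 := by rw [← c1]; ring
    rw [e1]
    have e2 : (D * e + D * (2 * κ + 6)) * q0 ≤ (q0 + D * (2 * κ + 6)) * q0 :=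
      Nat.mul_le_mul_right _ (by omega)
    obtain ⟨a, ha⟩ : ∃ a, a = D * (2 * κ + 6) := ⟨_, rfl⟩
    rw [← ha] at e2 ⊢
    have e3 : (q0 + a) * q0 = q0 ^ 2 + a * q0 := by ring
    have e4 : (c0 * N ^ N + (1 + a)) * q0 = c0 * N ^ N * q0 + q0 + a * q0 := by ring
    rw [e3] at e2
    rw [e4]
    obtain ⟨x, hx⟩ : ∃ x, x = c0 * N ^ N * q0 := ⟨_, rfl⟩
    obtain ⟨y, hy⟩ : ∃ y, y = a * q0 := ⟨_, rfl⟩
    obtain ⟨z, hz⟩ : ∃ z, z = (D * e + a) * q0 := ⟨_, rfl⟩
    obtain ⟨t, ht⟩ : ∃ t, t = q0 ^ 2 := ⟨_, rfl⟩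
    rw [← hy, ← hz, ← ht] at e2
    rw [← hx, ← hy, ← hz, ← ht]
    omega

end Pool.Agent.K1
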