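import Pool.Agent.K1.M4Full
import Pool.Agent.K1.M1B

/-!
K1, second half: the core of part A for the class of surfaces `SectionExp`, in every
characteristic (no parity condition).
-/

set_option autoImplicit false

open Polynomial

namespace Pool.Agent.K1

theorem M1BConcl_all (p N h : ℕ) [Fact p.Prime] : M1BConcl p N h :=
  M1B_upper p N h

/-- The combinatorial core, in every characteristic. -/
theorem M4Concl_all (p n z : ℕ) [Fact p.Prime] (hn : 2 ≤ n)
    (hcop : n.Coprime z) (h16 : 16 * n ^ 2 ≤ z) (hco : (z - 4 * n).Coprime (4 * n - 2))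
    (hpl : ¬ p ∣ z - 4 * n) (hpz : ¬ p ∣ z - 4) : M4Concl p n z :=
  M4Concl_of p n z (M1BConcl_all p _ _) hn hcop h16 hco hpl hpz

/-- The choice of the weights, in every characteristic. -/
theorem arithCore_all (p : ℕ) [Fact p.Prime] :
    ∃ r : ℕ, r.Prime ∧ r ≠ p ∧ ArithCore p r :=
  exists_arithCore p fun N h => M1BConcl_all p N h

/-- The core of part A, in every characteristic. -/
theorem K1_core_R (p : ℕ) [Fact p.Prime] :
    ∃ r : ℕ, r.Prime ∧ r ≠ p ∧ ∀ {k A : Type} [Field k] [IsAlgClosed k]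
      [CharP k p] [Algebra (ZMod p) k] [Algebra.IsAlgebraic (ZMod p) k] [CommRing A] [IsDomain A]
      [Algebra k A] [Algebra.FiniteType k A] (E : SectionExp k A),
      ∃ c₀ μ₀ n₀ : ℕ, K1CoreConclR r E c₀ μ₀ n₀ :=
  K1_core_all p fun N h => M1BConcl_all p N h

end Pool.Agent.K1
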