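import Pool.Agent.K1.DefsB

/-!
K1-B2: facts on `Cop`, parameters of a regular surface at a point, lengths, transversality.
-/

set_option autoImplicit false

open Polynomial

namespace Pool.Agent.K1

/-- a curve `q` with `A/(q)` a domain has no common component with `f ∉ (q)`. -/
theorem cop_of_not_mem {A : Type} [CommRing A] [IsDomain A] [IsNoetherianRing A] (q f : A)
    (hq0 : q ≠ 0) (hq : (Ideal.span {q}).IsPrime) (hf : f ∉ Ideal.span {q}) : Cop q f := by
  refine ⟨hq0, ?_, ?_⟩
  · rintro rfl
    exact hf (Ideal.zero_mem _)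
  · intro P hP hh hqP hfP
    have hle : Ideal.span {q} ≤ P := by
      rw [Ideal.span_singleton_le_iff_mem]
      exact hqP
    rcases hle.lt_or_eq with h | h
    · have hb : (⊥ : Ideal A) < Ideal.span {q} := by
        rw [bot_lt_iff_ne_bot, Ne, Ideal.span_singleton_eq_bot]
        exact hq0
      have h1 := Ideal.height_add_one_le_of_lt_of_isPrime hb
      have h2 := Ideal.height_add_one_le_of_lt_of_isPrime h
      rw [Ideal.height_bot, zero_add] at h1
      rw [hh] at h2
      have h3 : (1 : ℕ∞) + 1 ≤ 1 := (add_le_add_left h1 1).trans h2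
      exact absurd h3 (by decide)
    · exact hf (h ▸ hfP)

/-- the maximal ideal of a local ring of dimension two is not the radical of a principal ideal -/
theorem not_minimal_of_height {O : Type*} [CommRing O] [IsLocalRing O] [IsNoetherianRing O]
    (hdim : (IsLocalRing.maximalIdeal O).height = 2) (T : O)
    (h : ∀ P : Ideal O, P.IsPrime → T ∈ P → IsLocalRing.maximalIdeal O ≤ P)
    (hT : T ∈ IsLocalRing.maximalIdeal O) : False := by
  have h1 : IsLocalRing.maximalIdeal O ∈ (Ideal.span {T}).minimalPrimes := by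
    refine ⟨⟨inferInstance, ?_⟩, ?_⟩
    · rw [Ideal.span_singleton_le_iff_mem]
      exact hT
    · rintro P ⟨hP, hTP⟩ _
      exact h P hP ((Ideal.span_singleton_le_iff_mem _).1 hTP)
  have h2 := Ideal.height_le_one_of_isPrincipal_of_mem_minimalPrimes (Ideal.span {T})
    (IsLocalRing.maximalIdeal O) h1
  rw [hdim] at h2
  exact absurd h2 (by decide)

/-- in the local ring of a point of a regular surface: parameters. -/
theorem exists_params {k A : Type} [Field k] [CommRing A] [IsDomain A] [Algebra k A]
    [IsRegularRing A] (hdim : ringKrullDim A = 2) (x : A →ₐ[k] k) (q : A) (hq0 : q ≠ 0)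
    (hq : (Ideal.span {q}).IsPrime) (hxq : x q = 0) (hne : Ideal.span {q} ≠ RingHom.ker x) :
    ∃ S Y : LocAt x, IsLocalRing.maximalIdeal (LocAt x) = Ideal.span {S, Y} ∧ S ≠ 0 ∧
      (∀ n : ℕ, ¬ S ∣ Y ^ n) ∧
      ∀ T : LocAt x, IsLocalRing.maximalIdeal (LocAt x) ≠ Ideal.span {T} := by
  classical
  have hreg : IsRegularLocalRing (LocAt x) :=
    IsRegularRing.isRegularLocalRing_localization (RingHom.ker x)
  -- the height of the point
  have hker : (RingHom.ker x).height = 2 := by
    apply le_antisymm
    · have h1 : ((RingHom.ker x).height : WithBot ℕ∞) ≤ ringKrullDim A :=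
        Ideal.height_le_ringKrullDim_of_isPrime
      rw [hdim] at h1
      exact WithBot.coe_le_coe.1 (h1 : _ ≤ ((2 : ℕ∞) : WithBot ℕ∞))
    · have hb : (⊥ : Ideal A) < Ideal.span {q} := by
        rw [bot_lt_iff_ne_bot, Ne, Ideal.span_singleton_eq_bot]
        exact hq0
      have hlt : Ideal.span {q} < RingHom.ker x := by
        refine lt_of_le_of_ne ?_ hne
        rw [Ideal.span_singleton_le_iff_mem]
        exact (RingHom.mem_ker).2 hxq
      have h1 := Ideal.height_add_one_le_of_lt_of_isPrime hb
      have h2 := Ideal.height_add_one_le_of_lt_of_isPrime hlt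
      rw [Ideal.height_bot, zero_add] at h1
      exact (by
        calc (2 : ℕ∞) = 1 + 1 := by norm_num
          _ ≤ (Ideal.span {q}).height + 1 := add_le_add_left h1 1
          _ ≤ _ := h2)
  have hdimL : ringKrullDim (LocAt x) = ((2 : ℕ∞) : WithBot ℕ∞) := by
    rw [IsLocalization.AtPrime.ringKrullDim_eq_height (RingHom.ker x) (LocAt x), hker]
  have hmh : (IsLocalRing.maximalIdeal (LocAt x)).height = 2 := by
    have h1 : ((IsLocalRing.maximalIdeal (LocAt x)).height : WithBot ℕ∞)
        = ringKrullDim (LocAt x) := IsLocalRing.maximalIdeal_height_eq_ringKrullDim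
    rw [hdimL] at h1
    exact_mod_cast h1
  have hrank : (IsLocalRing.maximalIdeal (LocAt x)).spanFinrank = 2 := by
    have h1 := hreg.spanFinrank_maximalIdeal
    rw [hdimL] at h1
    exact_mod_cast h1
  have hfg : (IsLocalRing.maximalIdeal (LocAt x)).FG := IsNoetherian.noetherian _
  obtain ⟨s, hsc, hs⟩ := Submodule.FG.exists_span_finset_card_eq_spanFinrank hfg
  rw [hrank] at hsc
  obtain ⟨S, Y, -, hSY⟩ := Finset.card_eq_two.1 hsc
  have hm : IsLocalRing.maximalIdeal (LocAt x) = Ideal.span {S, Y} := by
    rw [← hs, hSY]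
    simp [Ideal.span]
  have hprinc : ∀ T : LocAt x, IsLocalRing.maximalIdeal (LocAt x) ≠ Ideal.span {T} := by
    intro T hT
    refine not_minimal_of_height hmh T (fun P _ hTP => ?_) ?_
    · rw [hT, Ideal.span_singleton_le_iff_mem]
      exact hTP
    · rw [hT]
      exact Ideal.mem_span_singleton_self T
  have hSm : S ∈ IsLocalRing.maximalIdeal (LocAt x) := by
    rw [hm]
    exact Ideal.subset_span (by simp)
  refine ⟨S, Y, hm, ?_, ?_, hprinc⟩
  · rintro rfl
    apply hprinc Y
    rw [hm]
    apply le_antisymm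
    · rw [Ideal.span_le]
      rintro z (rfl | rfl)
      · exact Ideal.zero_mem _
      · exact Ideal.mem_span_singleton_self _
    · exact Ideal.span_mono (by simp)
  · intro n hn
    refine not_minimal_of_height hmh S (fun P hP hSP => ?_) hSm
    have h1 : Y ^ n ∈ P := Ideal.mem_of_dvd P hn hSP
    rw [hm, Ideal.span_le]
    rintro z (rfl | rfl)
    · exact hSP
    · exact hP.mem_of_pow_mem n h1

/-- `m^L` is contained in an ideal of length at most `L`. -/
theorem pow_le_of_len {O : Type} [CommRing O] [IsLocalRing O] [IsNoetherianRing O] (f g : O)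
    (L : ℕ) (h : len f g ≤ L) : IsLocalRing.maximalIdeal O ^ L ≤ Ideal.span {f, g} := by
  unfold len at h
  have hfl : IsFiniteLength O (O ⧸ Ideal.span {f, g}) :=
    Module.length_ne_top_iff.1 (ne_top_of_le_ne_top (ENat.natCast_ne_top L) h)
  rw [isFiniteLength_iff_isNoetherian_isArtinian] at hfl
  obtain ⟨_, _⟩ := hfl
  have key : ∀ (L : ℕ) (N : Submodule O (O ⧸ Ideal.span {f, g})),
      Order.height N ≤ L → IsLocalRing.maximalIdeal O ^ L • N = ⊥ := by
    intro L
    induction L with
    | zero =>
      intro N hN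
      have h1 : Order.height N = 0 := le_antisymm (by exact_mod_cast hN) bot_le
      rw [Order.height_eq_zero, isMin_iff_eq_bot] at h1
      rw [h1, Submodule.smul_bot]
    | succ L ih =>
      intro N hN
      by_cases hN0 : N = ⊥
      · rw [hN0, Submodule.smul_bot]
      · have hlt : IsLocalRing.maximalIdeal O • N < N := by
          refine lt_of_le_of_ne Submodule.smul_le_right ?_
          intro he
          exact hN0 (Submodule.eq_bot_of_le_smul_of_le_jacobson_bot _ N
            (IsNoetherian.noetherian N) he.ge (IsLocalRing.maximalIdeal_le_jacobson _))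
        have h1 := Submodule.height_strictMono hlt
        have h2 : Order.height (IsLocalRing.maximalIdeal O • N) ≤ (L : ℕ∞) := by
          have h3 := h1.trans_le hN
          rw [Nat.cast_add, Nat.cast_one] at h3
          exact Order.le_of_lt_add_one h3
        rw [pow_succ, Submodule.mul_smul]
        exact ih _ h2
  have h1 := key L ⊤ (by rw [← Module.length_submodule, Module.length_top]; exact h)
  intro a ha
  have h2 : a • (Submodule.Quotient.mk 1 : O ⧸ Ideal.span {f, g}) = 0 := by
    rw [← Submodule.mem_bot O, ← h1]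
    exact Submodule.smul_mem_smul ha Submodule.mem_top
  rw [← Submodule.Quotient.mk_smul, smul_eq_mul, mul_one, Submodule.Quotient.mk_eq_zero] at h2
  exact h2

section transv

variable {k A : Type*} [Field k] [CommRing A] [Algebra k A]

theorem mem_maximal_iff (x : A →ₐ[k] k) (f : A) :
    algebraMap A (LocAt x) f ∈ IsLocalRing.maximalIdeal (LocAt x) ↔ x f = 0 := by
  rw [IsLocalization.AtPrime.to_map_mem_maximal_iff (LocAt x) (RingHom.ker x) f]
  exact RingHom.mem_ker

/-- from the local ring to the ring -/
theorem transv_of_span [IsNoetherianRing A] (s q : A) (x : A →ₐ[k] k)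
    (h : IsLocalRing.maximalIdeal (LocAt x) ≤ Ideal.span
      {algebraMap A (LocAt x) q, algebraMap A (LocAt x) (s - algebraMap k A (x s))}) :
    Transv s q x := by
  classical
  set J : Ideal A := Ideal.span {q, s - algebraMap k A (x s)} with hJ
  have hmap : J.map (algebraMap A (LocAt x)) = Ideal.span
      {algebraMap A (LocAt x) q, algebraMap A (LocAt x) (s - algebraMap k A (x s))} := by
    rw [hJ, Ideal.map_span, Set.image_pair]
  have h1 : ∀ f : A, x f = 0 → ∃ a : A, x a ≠ 0 ∧ a * f ∈ J := by
    intro f hf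
    have h2 : algebraMap A (LocAt x) f ∈ J.map (algebraMap A (LocAt x)) := by
      rw [hmap]
      exact h ((mem_maximal_iff x f).2 hf)
    rw [IsLocalization.algebraMap_mem_map_algebraMap_iff (RingHom.ker x).primeCompl] at h2
    obtain ⟨a, ha, haf⟩ := h2
    exact ⟨a, fun h0 => ha ((RingHom.mem_ker).2 h0), haf⟩
  obtain ⟨t, ht⟩ := (IsNoetherian.noetherian (RingHom.ker x) : (RingHom.ker x).FG)
  have h3 : ∀ u : Finset A, (∀ f ∈ u, x f = 0) → ∃ a : A, x a ≠ 0 ∧ ∀ f ∈ u, a * f ∈ J := by
    intro u
    induction u using Finset.induction_on with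
    | empty =>
      intro _
      exact ⟨1, by simp, fun f hf => absurd hf (Finset.notMem_empty f)⟩
    | insert g u hg ih =>
      intro hu
      obtain ⟨a, ha, hau⟩ := ih (fun f hf => hu f (Finset.mem_insert_of_mem hf))
      obtain ⟨b, hb, hbg⟩ := h1 g (hu g (Finset.mem_insert_self _ _))
      refine ⟨a * b, ?_, fun f hf => ?_⟩
      · rw [map_mul]
        exact mul_ne_zero ha hb
      · rcases Finset.mem_insert.1 hf with rfl | hf
        · rw [mul_assoc]
          exact J.mul_mem_left _ hbg
        · have : a * b * f = b * (a * f) := by ring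
          rw [this]
          exact J.mul_mem_left _ (hau f hf)
  obtain ⟨a, ha, hat⟩ := h3 t (fun f hf => by
    have : f ∈ RingHom.ker x := by
      rw [← ht]
      exact Submodule.subset_span hf
    exact (RingHom.mem_ker).1 this)
  refine ⟨a, ha, fun f hf => ?_⟩
  have h4 : f ∈ Submodule.span A (t : Set A) := by
    rw [ht]
    exact (RingHom.mem_ker).2 hf
  refine Submodule.span_induction (p := fun f _ => a * f ∈ J) ?_ ?_ ?_ ?_ h4
  · exact fun f hf => hat f hf
  · rw [mul_zero]
    exact J.zero_mem
  · intro f g _ _ hf hg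
    rw [mul_add]
    exact J.add_mem hf hg
  · intro c f _ hf
    have : a * (c • f) = c * (a * f) := by rw [smul_eq_mul]; ring
    rw [this]
    exact J.mul_mem_left _ hf

/-- from the ring to the local ring -/
theorem span_of_transv (s q : A) (x : A →ₐ[k] k) (h : Transv s q x) :
    IsLocalRing.maximalIdeal (LocAt x) ≤ Ideal.span
      {algebraMap A (LocAt x) q, algebraMap A (LocAt x) (s - algebraMap k A (x s))} := by
  obtain ⟨a, ha, hf⟩ := h
  set J : Ideal A := Ideal.span {q, s - algebraMap k A (x s)} with hJ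
  have hmap : J.map (algebraMap A (LocAt x)) = Ideal.span
      {algebraMap A (LocAt x) q, algebraMap A (LocAt x) (s - algebraMap k A (x s))} := by
    rw [hJ, Ideal.map_span, Set.image_pair]
  rw [← hmap, ← Localization.AtPrime.map_eq_maximalIdeal, Ideal.map_le_iff_le_comap]
  intro f hf'
  rw [Ideal.mem_comap, IsLocalization.algebraMap_mem_map_algebraMap_iff (RingHom.ker x).primeCompl]
  exact ⟨a, fun h0 => ha ((RingHom.mem_ker).1 h0), hf f ((RingHom.mem_ker).1 hf')⟩

/-- a point at which `s` is critical is on no curve transversal to the fibre -/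
theorem not_transv_of_critical' [IsNoetherianRing A] (s q : A) (x : A →ₐ[k] k) (hxq : x q = 0)
    (hnp : ∀ T : LocAt x, IsLocalRing.maximalIdeal (LocAt x) ≠ Ideal.span {T})
    (hs : algebraMap A (LocAt x) (s - algebraMap k A (x s)) ∈
      IsLocalRing.maximalIdeal (LocAt x) ^ 2) : ¬ Transv s q x := by
  intro h
  have h1 := span_of_transv s q x h
  set m := IsLocalRing.maximalIdeal (LocAt x) with hm
  have : IsNoetherianRing (LocAt x) :=
    IsLocalization.isNoetherianRing (RingHom.ker x).primeCompl (LocAt x) inferInstance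
  apply hnp (algebraMap A (LocAt x) q)
  apply le_antisymm
  · refine Submodule.le_of_le_smul_of_le_jacobson_bot (I := m) (IsNoetherian.noetherian _)
      (IsLocalRing.maximalIdeal_le_jacobson _) ?_
    refine h1.trans ?_
    rw [Ideal.span_le]
    rintro z (rfl | rfl)
    · exact Ideal.mem_sup_left (Ideal.mem_span_singleton_self _)
    · refine Ideal.mem_sup_right ?_
      rw [smul_eq_mul, ← pow_two]
      exact hs
  · rw [Ideal.span_singleton_le_iff_mem]
    exact (mem_maximal_iff x q).2 hxq

/-- criterion for transversality: a derivation over `k[s]` not killing `q` at `x`. -/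
theorem transv_of_deriv' [IsNoetherianRing A] (s : A) (D : Derivation k A A) (hDs : D s = 0)
    (x : A →ₐ[k] k)
    (hpar : ∃ S Y : LocAt x, IsLocalRing.maximalIdeal (LocAt x) = Ideal.span {S, Y})
    (hs : algebraMap A (LocAt x) (s - algebraMap k A (x s)) ∉
      IsLocalRing.maximalIdeal (LocAt x) ^ 2)
    (q : A) (hxq : x q = 0) (hDq : x (D q) ≠ 0) : Transv s q x := by
  obtain ⟨S, Y, hSY⟩ := hpar
  set m := IsLocalRing.maximalIdeal (LocAt x) with hm
  set σ := algebraMap A (LocAt x) (s - algebraMap k A (x s)) with hσ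
  set τ := algebraMap A (LocAt x) q with hτ
  have hσm : σ ∈ m := (mem_maximal_iff x _).2 (by simp)
  have hτm : τ ∈ m := (mem_maximal_iff x _).2 hxq
  -- `q` is not a multiple of `s - s(x)` modulo `m^2`
  have hind : ∀ c : LocAt x, τ - c * σ ∉ m ^ 2 := by
    intro c hc
    obtain ⟨⟨c₁, u₁⟩, hcu⟩ := IsLocalization.surj (RingHom.ker x).primeCompl c
    simp only at hcu
    have h1 : algebraMap A (LocAt x) (u₁ * q - c₁ * (s - algebraMap k A (x s))) ∈
        ((RingHom.ker x) ^ 2).map (algebraMap A (LocAt x)) := by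
      rw [Ideal.map_pow, Localization.AtPrime.map_eq_maximalIdeal, ← hm]
      have h2 : algebraMap A (LocAt x) (u₁ * q - c₁ * (s - algebraMap k A (x s)))
          = algebraMap A (LocAt x) u₁ * (τ - c * σ) := by
        rw [map_sub, map_mul, map_mul, ← hcu, hτ, hσ]
        ring
      rw [h2]
      exact Ideal.mul_mem_left _ _ hc
    rw [IsLocalization.algebraMap_mem_map_algebraMap_iff (RingHom.ker x).primeCompl] at h1
    obtain ⟨u₂, hu₂, h2⟩ := h1
    have hker2 : ∀ f ∈ (RingHom.ker x) ^ 2, x (D f) = 0 := by
      intro f hf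
      rw [pow_two] at hf
      refine Submodule.mul_induction_on hf ?_ ?_
      · intro a ha b hb
        have ha' : x a = 0 := (RingHom.mem_ker).1 ha
        have hb' : x b = 0 := (RingHom.mem_ker).1 hb
        rw [D.leibniz]
        simp [ha', hb']
      · intro a b ha hb
        rw [map_add, map_add, ha, hb, add_zero]
    have h3 := hker2 _ h2
    have hu₁' : x (u₁ : A) ≠ 0 := fun h0 => u₁.2 ((RingHom.mem_ker).2 h0)
    have hu₂' : x u₂ ≠ 0 := fun h0 => hu₂ ((RingHom.mem_ker).2 h0)
    have hxs : x (s - algebraMap k A (x s)) = 0 := by simp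
    have hDss : D (s - algebraMap k A (x s)) = 0 := by
      rw [map_sub, hDs, D.map_algebraMap, sub_zero]
    rw [D.leibniz, map_sub, D.leibniz, D.leibniz, hDss] at h3
    simp only [map_add, map_sub, smul_eq_mul, map_mul, hxq, mul_zero, zero_mul, add_zero,
      zero_add, sub_zero, hxs, sub_self] at h3
    exact mul_ne_zero hu₂' (mul_ne_zero hu₁' hDq) h3
  apply transv_of_span
  rw [← hm, ← hσ, ← hτ]
  have hS : ∃ a b, a * S + b * Y = σ := by
    rw [hSY, Ideal.mem_span_pair] at hσm
    exact hσm
  have hT : ∃ c d, c * S + d * Y = τ := by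
    rw [hSY, Ideal.mem_span_pair] at hτm
    exact hτm
  obtain ⟨a, b, hab⟩ := hS
  obtain ⟨c, d, hcd⟩ := hT
  have hSm : S ∈ m := by
    rw [hSY]
    exact Ideal.subset_span (by simp)
  have hYm : Y ∈ m := by
    rw [hSY]
    exact Ideal.subset_span (by simp)
  have hmm : ∀ u v : LocAt x, u ∈ m → v ∈ m → u * v ∈ m ^ 2 := by
    intro u v hu hv
    rw [pow_two]
    exact Ideal.mul_mem_mul hu hv
  have hdet : IsUnit (a * d - b * c) := by
    by_contra hdu
    have hdm : a * d - b * c ∈ m := (IsLocalRing.mem_maximalIdeal _).2 hdu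
    by_cases ha : IsUnit a
    · obtain ⟨a', ha'⟩ := ha.exists_right_inv
      apply hind (a' * c)
      have h1 : τ - a' * c * σ = a' * ((a * d - b * c) * Y) := by
        rw [← hab, ← hcd]
        linear_combination (-c * S - d * Y) * ha'
      rw [h1]
      exact Ideal.mul_mem_left _ _ (hmm _ _ hdm hYm)
    · by_cases hb : IsUnit b
      · obtain ⟨b', hb'⟩ := hb.exists_right_inv
        apply hind (b' * d)
        have h1 : τ - b' * d * σ = - (b' * ((a * d - b * c) * S)) := by
          rw [← hab, ← hcd]
          linear_combination (-c * S - d * Y) * hb'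
        rw [h1]
        exact neg_mem (Ideal.mul_mem_left _ _ (hmm _ _ hdm hSm))
      · apply hs
        rw [← hab]
        exact Ideal.add_mem _ (hmm _ _ ((IsLocalRing.mem_maximalIdeal _).2 ha) hSm)
          (hmm _ _ ((IsLocalRing.mem_maximalIdeal _).2 hb) hYm)
  obtain ⟨e, he⟩ := hdet.exists_right_inv
  rw [hSY, Ideal.span_le]
  rintro z (rfl | rfl)
  · refine (Ideal.mem_span_pair).2 ⟨-(e * b), e * d, ?_⟩
    rw [← hab, ← hcd]
    linear_combination z * he
  · refine (Ideal.mem_span_pair).2 ⟨e * a, -(e * c), ?_⟩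
    rw [← hab, ← hcd]
    linear_combination z * he

end transv

/-- criterion for transversality: a derivation over `k[s]` not killing `q` at `x`. -/
theorem transv_of_deriv {k A : Type} [Field k] [CommRing A] [IsDomain A] [Algebra k A]
    [IsNoetherianRing A] (s : A) (D : Derivation k A A) (hDs : D s = 0) (x : A →ₐ[k] k)
    (hpar : ∃ S Y : LocAt x, IsLocalRing.maximalIdeal (LocAt x) = Ideal.span {S, Y})
    (hs : algebraMap A (LocAt x) (s - algebraMap k A (x s)) ∉
      IsLocalRing.maximalIdeal (LocAt x) ^ 2)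
    (q : A) (hxq : x q = 0) (hDq : x (D q) ≠ 0) : Transv s q x :=
  transv_of_deriv' s D hDs x hpar hs q hxq hDq

/-- a point at which `s` is critical is on no curve transversal to the fibre -/
theorem not_transv_of_critical {k A : Type} [Field k] [CommRing A] [IsDomain A] [Algebra k A]
    [IsNoetherianRing A] (s q : A) (x : A →ₐ[k] k) (hxq : x q = 0)
    (hnp : ∀ T : LocAt x, IsLocalRing.maximalIdeal (LocAt x) ≠ Ideal.span {T})
    (hs : algebraMap A (LocAt x) (s - algebraMap k A (x s)) ∈
      IsLocalRing.maximalIdeal (LocAt x) ^ 2) : ¬ Transv s q x :=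
  not_transv_of_critical' s q x hxq hnp hs

end Pool.Agent.K1
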