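import Pool.Agent.K1.L2Defs
import Pool.Agent.K1.LocFacts

/-!
L2-26: a regular domain all of whose maximal ideals have height two has depth two at every
maximal ideal.
-/

set_option autoImplicit false

namespace Pool.Agent.K1

theorem depth2_of_regular {A : Type} [CommRing A] [IsDomain A] [IsRegularRing A]
    (h : ∀ 𝔪 : Ideal A, 𝔪.IsMaximal → 𝔪.height = 2) : Depth2 A := by
  classical
  intro 𝔪 h𝔪 g a hg hga
  have hprime : 𝔪.IsPrime := h𝔪.isPrime
  suffices hmem : a ∈ Ideal.span {g} from Ideal.mem_span_singleton.1 hmem
  apply Ideal.mem_of_localization_maximal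
  intro P hP
  have hPp : P.IsPrime := hP.isPrime
  have hinj : Function.Injective (algebraMap A (Localization.AtPrime P)) :=
    IsLocalization.injective _ P.primeCompl_le_nonZeroDivisors
  rw [Ideal.map_span, Set.image_singleton, Ideal.mem_span_singleton]
  by_cases hPm : P = 𝔪
  · subst hPm
    -- the local ring is regular of dimension two
    have hreg : IsRegularLocalRing (Localization.AtPrime P) :=
      IsRegularRing.isRegularLocalRing_localization P
    have hdimL : ringKrullDim (Localization.AtPrime P) = ((2 : ℕ∞) : WithBot ℕ∞) := by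
      rw [IsLocalization.AtPrime.ringKrullDim_eq_height P (Localization.AtPrime P), h P hP]
    have hmh : (IsLocalRing.maximalIdeal (Localization.AtPrime P)).height = 2 := by
      have h1 : ((IsLocalRing.maximalIdeal (Localization.AtPrime P)).height : WithBot ℕ∞)
          = ringKrullDim (Localization.AtPrime P) :=
        IsLocalRing.maximalIdeal_height_eq_ringKrullDim
      rw [hdimL] at h1
      exact_mod_cast h1
    have hrank : (IsLocalRing.maximalIdeal (Localization.AtPrime P)).spanFinrank = 2 := by
      have h1 := hreg.spanFinrank_maximalIdeal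
      rw [hdimL] at h1
      exact_mod_cast h1
    have hfg : (IsLocalRing.maximalIdeal (Localization.AtPrime P)).FG :=
      IsNoetherian.noetherian _
    obtain ⟨s, hsc, hs⟩ := Submodule.FG.exists_span_finset_card_eq_spanFinrank hfg
    rw [hrank] at hsc
    obtain ⟨S, Y, -, hSY⟩ := Finset.card_eq_two.1 hsc
    have hm : IsLocalRing.maximalIdeal (Localization.AtPrime P) = Ideal.span {S, Y} := by
      rw [← hs, hSY]
      simp [Ideal.span]
    have hprinc : ∀ T : Localization.AtPrime P,
        IsLocalRing.maximalIdeal (Localization.AtPrime P) ≠ Ideal.span {T} := by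
      intro T hT
      refine not_minimal_of_height hmh T (fun Q _ hTQ => ?_) ?_
      · rw [hT, Ideal.span_singleton_le_iff_mem]
        exact hTQ
      · rw [hT]
        exact Ideal.mem_span_singleton_self T
    have hSm : S ∈ IsLocalRing.maximalIdeal (Localization.AtPrime P) := by
      rw [hm]
      exact Ideal.subset_span (by simp)
    have hYm : Y ∈ IsLocalRing.maximalIdeal (Localization.AtPrime P) := by
      rw [hm]
      exact Ideal.subset_span (by simp)
    have hS0 : S ≠ 0 := by
      rintro rfl
      apply hprinc Y
      rw [hm]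
      apply le_antisymm
      · rw [Ideal.span_le]
        rintro z (rfl | rfl)
        · exact Ideal.zero_mem _
        · exact Ideal.mem_span_singleton_self _
      · exact Ideal.span_mono (by simp)
    have hdiv : ∀ n : ℕ, ¬ S ∣ Y ^ n := by
      intro n hn
      refine not_minimal_of_height hmh S (fun Q hQ hSQ => ?_) hSm
      have h1 : Y ^ n ∈ Q := Ideal.mem_of_dvd Q hn hSQ
      rw [hm, Ideal.span_le]
      rintro z (rfl | rfl)
      · exact hSQ
      · exact hQ.mem_of_pow_mem n h1
    have hSp : Prime S := prime_S hm hS0 hdiv
    have hg' : algebraMap A (Localization.AtPrime P) g ≠ 0 := by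
      rw [Ne, map_eq_zero_iff _ hinj]
      exact hg
    -- every element of the maximal ideal multiplies `a` into `(g)`
    have hall : ∀ x ∈ IsLocalRing.maximalIdeal (Localization.AtPrime P),
        algebraMap A (Localization.AtPrime P) g ∣
          x * algebraMap A (Localization.AtPrime P) a := by
      intro x hx
      rw [← Localization.AtPrime.map_eq_maximalIdeal] at hx
      have h1 : Ideal.map (algebraMap A (Localization.AtPrime P)) P ≤
          Submodule.colon (Ideal.span {algebraMap A (Localization.AtPrime P) g})
            (Ideal.span {algebraMap A (Localization.AtPrime P) a} :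
              Ideal (Localization.AtPrime P)) := by
        rw [Ideal.map_le_iff_le_comap]
        intro y hy
        rw [Ideal.mem_comap, Submodule.mem_colon]
        intro z hz
        obtain ⟨w, rfl⟩ := Ideal.mem_span_singleton.1 hz
        rw [Ideal.mem_span_singleton, smul_eq_mul, ← mul_assoc, ← map_mul]
        exact ((map_dvd (algebraMap A (Localization.AtPrime P)) (hga y hy)).mul_right w)
      have h2 := Submodule.mem_colon.1 (h1 hx) _ (Ideal.mem_span_singleton_self _)
      exact Ideal.mem_span_singleton.1 h2
    obtain ⟨r₁, hr₁⟩ := hall S hSm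
    obtain ⟨r₂, hr₂⟩ := hall Y hYm
    have hrr : S * r₂ = Y * r₁ := by
      apply mul_left_cancel₀ hg'
      linear_combination Y * hr₁ - S * hr₂
    have hSY' : ¬ S ∣ Y := by
      have := hdiv 1
      rwa [pow_one] at this
    have hSr : S ∣ r₁ := (hSp.dvd_or_dvd (⟨r₂, hrr.symm⟩ : S ∣ Y * r₁)).resolve_left hSY'
    obtain ⟨r', rfl⟩ := hSr
    refine ⟨r', ?_⟩
    apply mul_left_cancel₀ hS0
    rw [hr₁]
    ring
  · -- another maximal ideal
    have hnot : ¬ 𝔪 ≤ P := fun hle => hPm (h𝔪.eq_of_le hP.ne_top hle).symm
    obtain ⟨x, hx𝔪, hxP⟩ := Set.not_subset.1 hnot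
    have hu : IsUnit (algebraMap A (Localization.AtPrime P) x) :=
      IsLocalization.map_units (Localization.AtPrime P) (⟨x, hxP⟩ : P.primeCompl)
    have h1 := map_dvd (algebraMap A (Localization.AtPrime P)) (hga x hx𝔪)
    rw [map_mul] at h1
    exact (hu.dvd_mul_left).1 h1

end Pool.Agent.K1
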