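import Pool.Agent.K1.SectionMainOf
import Pool.Agent.K1.L3Defs
import Pool.Agent.K1.L2Depth

/-!
Layers 1 and 2 together: the theorem for a ring with a degree function, from the theorem for
surfaces with an expansion along a section and the existence of the expansion.
-/

set_option autoImplicit false

open Polynomial

namespace Pool.Agent.K1

/-- The conclusion of layers 1 and 2 for the ring `A`. -/
def AffMain (k A : Type) [Field k] [CommRing A] [Algebra k A] (D : DegFun k A) : Prop :=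
  ∀ ξ : Chain1 A,
    (∀ P, ξ P ≠ 0 → ∀ V : ValuationSubring (kap P), (∀ c : k, res P (algebraMap k A c) ∈ V) →
      (∃ a : A, res P a ∉ V) →
      ((Additive.toMul (ξ P) : (kap P)ˣ) : kap P) ∈ V ∧
        (((Additive.toMul (ξ P))⁻¹ : (kap P)ˣ) : kap P) ∈ V) →
    IsCycleA k ξ → ∃ N : ℕ, 0 < N ∧ N • ξ ∈ tameSubgroupRel A (SameLead D)

/-- The conclusion of layer 1, for the ring `A`. -/
def SecMain (k A : Type) [Field k] [CommRing A] [Algebra k A] : Prop :=
  ∀ (E : SectionExp k A) (U : A → A → Prop), (∃ μ n₁ : ℕ, ∀ n M : ℕ, n₁ ≤ n → μ * n ≤ M →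
      ∀ a a' : A, E.InV n M a → E.InV n M a' → U a a') →
    ∀ ξ : Chain1 A, (∀ P : Curve1 A, ξ P ≠ 0 → Horiz E P) →
    (∀ P : Curve1 A, ξ P ≠ 0 → ∀ V : ValuationSubring (kap P),
      (∀ c : k, algebraMap k (kap P) c ∈ V) → res P E.s ∉ V →
        ((Additive.toMul (ξ P) : (kap P)ˣ) : kap P) ∈ V ∧
          ((Additive.toMul (ξ P) : (kap P)ˣ) : kap P)⁻¹ ∈ V) →
    (∀ x : A →ₐ[k] k, ∑ᶠ P : Curve1 A, ordK P x (Additive.toMul (ξ P)) = 0) →
    ∃ N : ℕ, 0 < N ∧ N • ξ ∈ tameSubgroupRel A U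

/-- The conclusion of layer 2, for the ring `A` with the degree function `D`. -/
def ExpMain (k A : Type) [Field k] [CommRing A] [Algebra k A] (D : DegFun k A) : Prop :=
  ∀ H : Finset A, (∀ a ∈ H, a ≠ 0) →
    ∃ E : SectionExp k A, (∀ a ∈ H, ∃ G : Finset A, ∀ f : A, ∃ (q : A) (P : A → k[X]),
      f = a * q + ∑ g ∈ G, aeval E.s (P g) * g) ∧
      ∃ C : ℕ, ∀ n M : ℕ, 1 ≤ n → C * n ≤ M → ∀ a a' : A, E.InV n M a → E.InV n M a' →
        D.deg (a - a') < D.deg a

/-- An order in the sense of `IsOrdZ` is the order `ordK`. -/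
theorem IsOrdZ.eq_ordK {k A : Type} [Field k] [CommRing A] [IsDomain A] [IsNoetherianRing A]
    [Algebra k A] (hdim : ringKrullDim A ≤ 2) {P : Curve1 A} {z : A →ₐ[k] k} {t : (kap P)ˣ}
    {n : ℤ} (h : IsOrdZ P z t n) : ordK P z t = n := by
  obtain ⟨c, d, hc, hd, hcd, hn⟩ := h
  have ht : t = resU P c / resU P d := by
    apply Units.ext
    rw [Units.val_div_eq_div_val, resU_coe hc, resU_coe hd]
    have hd' : res P d ≠ 0 := fun h => hd ((res_eq_zero P d).1 h)
    rw [eq_div_iff hd', hcd]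
  rw [ht, ordK_eq hdim P z hc hd, hn]

theorem aff_main_of {k A : Type} [Field k] [CommRing A] [IsDomain A] [Algebra k A]
    [IsNoetherianRing A] (hdim : ringKrullDim A = 2) (D : DegFun k A)
    (hsec : SecMain k A) (hexp : ExpMain k A D) : AffMain k A D := by
  classical
  intro ξ hinf hcyc
  -- equations of the curves
  have heq : ∀ P : Curve1 A, ∃ f ∈ P.ideal, f ≠ 0 := by
    intro P
    by_contra hcon
    push Not at hcon
    have h1 : P.ideal = ⊥ := by
      rw [eq_bot_iff]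
      intro f hf
      exact (Submodule.mem_bot A).2 (hcon f hf)
    have h2 := P.height
    rw [h1, Ideal.height_bot] at h2
    exact zero_ne_one h2
  choose f hfP hf0 using heq
  obtain ⟨E, hfin, C, hC⟩ := hexp (ξ.support.image f) (by
    intro a ha
    obtain ⟨P, -, rfl⟩ := Finset.mem_image.1 ha
    exact hf0 P)
  refine hsec E (SameLead D) ⟨C, 1, ?_⟩ ξ ?_ ?_ ?_
  · intro n M hn hM a a' ha ha'
    exact Or.inr (hC n M hn hM a a' ha ha')
  · intro P hP
    obtain ⟨G, hG⟩ := hfin (f P) (Finset.mem_image_of_mem f (DFinsupp.mem_support_iff.2 hP))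
    refine ⟨G, fun a => ?_⟩
    obtain ⟨q, c, hqc⟩ := hG a
    refine ⟨c, ?_⟩
    have h1 : a - ∑ g ∈ G, aeval E.s (c g) * g = f P * q := by
      rw [hqc, add_sub_cancel_right]
    rw [h1]
    exact Ideal.mul_mem_right _ _ (hfP P)
  · intro P hP V hV hs
    obtain ⟨h1, h2⟩ := hinf P hP V (fun c => hV c) ⟨E.s, hs⟩
    refine ⟨h1, ?_⟩
    rw [Units.val_inv_eq_inv_val] at h2
    exact h2
  · intro x
    obtain ⟨n, hn, hsum⟩ := hcyc x
    have h1 : (fun P : Curve1 A => ordK P x (Additive.toMul (ξ P))) = fun P => n P := by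
      funext P
      exact (hn P).eq_ordK hdim.le
    rw [h1, finsum_eq_sum_of_support_subset (s := n.support) _ (by
      intro P hP
      simpa using hP)]
    exact hsum

end Pool.Agent.K1
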