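import Pool.Agent.K1.SectionMainR
import Pool.Agent.K1.AffMainOf

/-!
Layer 1 in the form `SecMain`, from the core of part A.
-/

set_option autoImplicit false

namespace Pool.Agent.K1

theorem secMain_of_core (p r : ℕ) [Fact p.Prime] (hr : r.Prime) (hrp : r ≠ p) {k A : Type}
    [Field k] [IsAlgClosed k] [CharP k p] [Algebra (ZMod p) k] [Algebra.IsAlgebraic (ZMod p) k]
    [CommRing A] [IsDomain A] [Algebra k A] [IsRegularRing A] (hdim : ringKrullDim A = 2)
    (hcore : ∀ E : SectionExp k A, ∃ c₀ μ₀ n₀ : ℕ, K1CoreConclR r E c₀ μ₀ n₀) : SecMain k A :=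
  fun E U hU ξ hhor hinf hdiv =>
    section_main_R p r hr hrp hdim E (hcore E) U hU ξ hhor hinf hdiv

end Pool.Agent.K1
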