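import Pool.Agent.K1.ExpMain
import Pool.Agent.K1.SecMainOfCore
import Pool.Agent.K1.CoreAll

/-!
Layers 1 and 2 for regular rings of finite type of dimension two, in every characteristic.
-/

namespace Pool.Agent.K1

/-- Layers 1 and 2, in every characteristic. -/
theorem aff_main (p : ℕ) [Fact p.Prime] {k A : Type} [Field k] [IsAlgClosed k]
    [CharP k p] [Algebra (ZMod p) k] [Algebra.IsAlgebraic (ZMod p) k] [CommRing A] [IsDomain A]
    [Algebra k A] [Algebra.FiniteType k A] [IsRegularRing A] (hdim : ringKrullDim A = 2)
    (D : DegFun k A) : AffMain k A D := by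
  obtain ⟨r, hr, hrp, h⟩ := K1_core_R p
  exact aff_main_of_sec p hdim D (secMain_of_core p r hr hrp hdim fun E => h E)

end Pool.Agent.K1
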