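import Mathlib

/-!
Lengths under flat local homomorphisms.
-/

set_option autoImplicit false

open TensorProduct

namespace Pool.Agent.K1

/-- One inequality, in all cases. -/
theorem dlf_length_le {O O' : Type*} [CommRing O] [CommRing O'] [IsLocalRing O] [IsLocalRing O']
    [Algebra O O'] [IsLocalHom (algebraMap O O')] [Module.Flat O O'] (I : Ideal O) :
    Module.length O (O ⧸ I) ≤ Module.length O' (O' ⧸ I.map (algebraMap O O')) := by
  have : Module.FaithfullyFlat O O' := Module.FaithfullyFlat.of_flat_of_isLocalHom
  have hinj : Function.Injective (fun J : Ideal O => J.map (algebraMap O O')) := by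
    intro J K h
    have h1 : (J.map (algebraMap O O')).comap (algebraMap O O') =
        (K.map (algebraMap O O')).comap (algebraMap O O') := by
      rw [show J.map (algebraMap O O') = K.map (algebraMap O O') from h]
    rwa [Ideal.comap_map_eq_self_of_faithfullyFlat, Ideal.comap_map_eq_self_of_faithfullyFlat] at h1
  have hmono : StrictMono (fun J : Ideal O => J.map (algebraMap O O')) :=
    Monotone.strictMono_of_injective (fun J K h => Ideal.map_mono h) hinj
  rw [Module.length_quotient, Module.length_quotient]
  exact Order.coheight_le_coheight_apply_of_strictMono _ hmono I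

/-- The length of a base change, for modules of finite length. -/
theorem dlf_length_baseChange {O O' : Type*} [CommRing O] [CommRing O'] [IsLocalRing O]
    [IsLocalRing O'] [Algebra O O'] [Module.Flat O O']
    (hm : (IsLocalRing.maximalIdeal O).map (algebraMap O O') = IsLocalRing.maximalIdeal O')
    {M : Type*} [AddCommGroup M] [Module O M] (h : IsFiniteLength O M) :
    Module.length O' (O' ⊗[O] M) = Module.length O M := by
  induction h with
  | of_subsingleton => simp
  | @of_simple_quotient M _ _ N hs hN ih =>
    have h1 : Module.length O M = Module.length O N + Module.length O (M ⧸ N) :=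
      Module.length_eq_add_of_exact N.subtype N.mkQ N.injective_subtype N.mkQ_surjective
        (LinearMap.exact_subtype_mkQ N)
    have h2 : Module.length O' (O' ⊗[O] M) =
        Module.length O' (O' ⊗[O] N) + Module.length O' (O' ⊗[O] (M ⧸ N)) :=
      Module.length_eq_add_of_exact (N.subtype.baseChange O') (N.mkQ.baseChange O')
        (Module.Flat.lTensor_preserves_injective_linearMap N.subtype N.injective_subtype)
        (LinearMap.lTensor_surjective O' N.mkQ_surjective)
        (lTensor_exact O' (LinearMap.exact_subtype_mkQ N) N.mkQ_surjective)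
    obtain ⟨I, hI, ⟨e⟩⟩ := isSimpleModule_iff_quot_maximal.1 hs
    have hIm : I = IsLocalRing.maximalIdeal O := IsLocalRing.eq_maximalIdeal hI
    have h3 : Module.length O' (O' ⊗[O] (M ⧸ N)) = 1 := by
      have e1 : (O' ⊗[O] (M ⧸ N)) ≃ₗ[O'] (O' ⊗[O] (O ⧸ I)) := e.baseChange O O' _ _
      have e2 : (O' ⊗[O] (O ⧸ I)) ≃ₗ[O'] (O' ⧸ I.map (algebraMap O O')) :=
        (Algebra.TensorProduct.quotIdealMapEquivTensorQuot O' I).symm.toLinearEquiv
      have hmax : (I.map (algebraMap O O')).IsMaximal := by
        rw [hIm, hm]
        infer_instance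
      have : IsSimpleModule O' (O' ⧸ I.map (algebraMap O O')) :=
        isSimpleModule_iff_quot_maximal.2 ⟨_, hmax, ⟨LinearEquiv.refl _ _⟩⟩
      rw [(e1.trans e2).length_eq, Module.length_eq_one]
    have h4 : Module.length O (M ⧸ N) = 1 := Module.length_eq_one O (M ⧸ N)
    rw [h1, h2, ih, h3, h4]

theorem length_flat {O O' : Type*} [CommRing O] [CommRing O'] [IsLocalRing O] [IsLocalRing O']
    [Algebra O O'] [IsLocalHom (algebraMap O O')] [Module.Flat O O']
    (hm : (IsLocalRing.maximalIdeal O).map (algebraMap O O') = IsLocalRing.maximalIdeal O')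
    (I : Ideal O) :
    Module.length O' (O' ⧸ I.map (algebraMap O O')) = Module.length O (O ⧸ I) := by
  by_cases h : Module.length O (O ⧸ I) = ⊤
  · rw [h]
    exact top_le_iff.1 (h ▸ dlf_length_le (O' := O') I)
  · rw [(Algebra.TensorProduct.quotIdealMapEquivTensorQuot O' I).toLinearEquiv.length_eq]
    exact dlf_length_baseChange hm (Module.length_ne_top_iff.1 h)

end Pool.Agent.K1
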