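import Pool.Agent.K1.Herbrand

/-!
Descent: the multiplicity of a function along a reduced germ of a curve is the sum of its
multiplicities along the branches.
-/

set_option autoImplicit false

namespace Pool.Agent.K1

section

variable {O : Type*} [CommRing O]

/-- `0 → O/(J + I) → O/(J + c I) → O/(J + c) → 0`. -/
theorem dlen_mul (I J : Ideal O) {c : O} (hJ : ∀ y, c * y ∈ J → y ∈ J) :
    Module.length O (O ⧸ (J ⊔ Ideal.span {c} * I)) =
      Module.length O (O ⧸ (J ⊔ I)) + lenP J c := by
  have hle : J ⊔ Ideal.span {c} * I ≤ J ⊔ Ideal.span {c} :=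
    sup_le_sup_left Ideal.mul_le_left _
  have hle2 : J ⊔ I ≤ Submodule.comap (LinearMap.mulLeft O c) (J ⊔ Ideal.span {c} * I) := by
    rw [sup_le_iff]
    constructor
    · intro y hy
      have h1 : c * y ∈ J ⊔ Ideal.span {c} * I := Ideal.mem_sup_left (J.mul_mem_left c hy)
      exact h1
    · intro y hy
      have h1 : c * y ∈ J ⊔ Ideal.span {c} * I :=
        Ideal.mem_sup_right (Ideal.mul_mem_mul (Ideal.mem_span_singleton_self c) hy)
      exact h1
  let i : (O ⧸ (J ⊔ I)) →ₗ[O] (O ⧸ (J ⊔ Ideal.span {c} * I)) :=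
    Submodule.mapQ _ _ (LinearMap.mulLeft O c) hle2
  let q : (O ⧸ (J ⊔ Ideal.span {c} * I)) →ₗ[O] (O ⧸ (J ⊔ Ideal.span {c})) :=
    Submodule.mapQ _ _ LinearMap.id hle
  have hi : Function.Injective i := by
    rw [← LinearMap.ker_eq_bot, LinearMap.ker_eq_bot']
    rintro ⟨x⟩ hx
    have h1 : c * x ∈ J ⊔ Ideal.span {c} * I := (Submodule.Quotient.mk_eq_zero _).1 hx
    rw [Submodule.mem_sup] at h1
    obtain ⟨u, hu, v, hv, huv⟩ := h1
    obtain ⟨w, hw, rfl⟩ := Ideal.mem_span_singleton_mul.1 hv
    have h2 : c * (x - w) ∈ J := by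
      have h3 : c * (x - w) = u := by linear_combination -huv
      rw [h3]; exact hu
    apply (Submodule.Quotient.mk_eq_zero _).2
    have h4 : x = (x - w) + w := by ring
    rw [h4]
    exact Ideal.add_mem _ (Ideal.mem_sup_left (hJ _ h2)) (Ideal.mem_sup_right hw)
  have hq : Function.Surjective q := by
    rintro ⟨x⟩
    exact ⟨Submodule.Quotient.mk x, rfl⟩
  have hex : Function.Exact i q := by
    rintro ⟨x⟩
    constructor
    · intro hx
      have h1 : x ∈ J ⊔ Ideal.span {c} := (Submodule.Quotient.mk_eq_zero _).1 hx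
      rw [Submodule.mem_sup] at h1
      obtain ⟨u, hu, v, hv, huv⟩ := h1
      obtain ⟨w, rfl⟩ := Ideal.mem_span_singleton'.1 hv
      refine ⟨Submodule.Quotient.mk w, ?_⟩
      change Submodule.Quotient.mk (c * w) = Submodule.Quotient.mk x
      rw [Submodule.Quotient.eq]
      have h2 : c * w - x = -u := by linear_combination huv
      rw [h2]
      exact Ideal.mem_sup_left (J.neg_mem hu)
    · rintro ⟨⟨w⟩, hw⟩
      have h1 : (Submodule.Quotient.mk (c * w) : O ⧸ (J ⊔ Ideal.span {c} * I)) =
        Submodule.Quotient.mk x := hw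
      change q (Submodule.Quotient.mk x) = 0
      rw [← h1]
      change (Submodule.Quotient.mk (c * w) : O ⧸ (J ⊔ Ideal.span {c})) = 0
      rw [Submodule.Quotient.mk_eq_zero]
      exact Ideal.mem_sup_right (Ideal.mul_mem_right _ _ (Ideal.mem_span_singleton_self c))
  exact Module.length_eq_add_of_exact i q hi hq hex

/-- The length of `O/X` for `X ≤ Y`, where `Y` is generated by `I` and `X`. -/
theorem dlen_range (I X Y : Ideal O) (h : X ⊔ I = Y) :
    Module.length O (O ⧸ X) = Module.length O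
      (LinearMap.range ((Submodule.mkQ X).comp (Submodule.subtype I))) +
        Module.length O (O ⧸ Y) := by
  have hle : X ≤ Y := h ▸ le_sup_left
  let q : (O ⧸ X) →ₗ[O] (O ⧸ Y) := Submodule.mapQ _ _ LinearMap.id hle
  have hq : Function.Surjective q := by
    rintro ⟨x⟩
    exact ⟨Submodule.Quotient.mk x, rfl⟩
  refine Module.length_eq_add_of_exact (Submodule.subtype _) q (Submodule.subtype_injective _)
    hq ?_
  rintro ⟨x⟩
  constructor
  · intro hx
    have h1 : x ∈ Y := (Submodule.Quotient.mk_eq_zero _).1 hx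
    rw [← h, Submodule.mem_sup] at h1
    obtain ⟨u, hu, v, hv, huv⟩ := h1
    refine ⟨⟨Submodule.Quotient.mk x, ⟨⟨v, hv⟩, ?_⟩⟩, rfl⟩
    change (Submodule.Quotient.mk v : O ⧸ X) = Submodule.Quotient.mk x
    rw [Submodule.Quotient.eq]
    have h2 : v - x = -u := by linear_combination huv
    rw [h2]
    exact X.neg_mem hu
  · rintro ⟨⟨_, ⟨⟨v, hv⟩, rfl⟩⟩, hw⟩
    have h1 : (Submodule.Quotient.mk v : O ⧸ X) = Submodule.Quotient.mk x := hw
    change q (Submodule.Quotient.mk x) = 0
    rw [← h1]
    change (Submodule.Quotient.mk v : O ⧸ Y) = 0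
    rw [Submodule.Quotient.mk_eq_zero, ← h]
    exact Ideal.mem_sup_right hv

/-- Two maps with the same kernel have ranges of the same length. -/
theorem dlen_range_congr {M N N' : Type*} [AddCommGroup M] [Module O M] [AddCommGroup N]
    [Module O N] [AddCommGroup N'] [Module O N'] (f : M →ₗ[O] N) (g : M →ₗ[O] N')
    (h : LinearMap.ker f = LinearMap.ker g) :
    Module.length O (LinearMap.range f) = Module.length O (LinearMap.range g) := by
  have e1 := f.quotKerEquivRange.length_eq
  have e2 := g.quotKerEquivRange.length_eq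
  rw [← e1, ← e2, h]

theorem dlen_two (I J : Ideal O) (c : O) (hI : ∀ y, c * y ∈ I → y ∈ I)
    (hJ : ∀ y, c * y ∈ J → y ∈ J) (hfin : Module.length O (O ⧸ (J ⊔ I)) ≠ ⊤) :
    lenP (I ⊓ J) c = lenP I c + lenP J c := by
  have h1 := dlen_mul I J hJ
  have h2 : Module.length O (O ⧸ (J ⊔ Ideal.span {c} * I)) = Module.length O
      (LinearMap.range ((Submodule.mkQ (J ⊔ Ideal.span {c} * I)).comp (Submodule.subtype I))) +
        Module.length O (O ⧸ (J ⊔ I)) := by
    refine dlen_range I _ _ ?_
    rw [sup_assoc, sup_eq_right.2 (Ideal.mul_le_right : Ideal.span {c} * I ≤ I)]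
  have h3 : lenP (I ⊓ J) c = Module.length O
      (LinearMap.range ((Submodule.mkQ ((I ⊓ J) ⊔ Ideal.span {c})).comp
        (Submodule.subtype I))) + lenP I c := by
    refine dlen_range I _ _ ?_
    rw [sup_right_comm, sup_eq_right.2 (inf_le_left : I ⊓ J ≤ I)]
  have h4 : Module.length O
      (LinearMap.range ((Submodule.mkQ ((I ⊓ J) ⊔ Ideal.span {c})).comp
        (Submodule.subtype I))) = Module.length O
      (LinearMap.range ((Submodule.mkQ (J ⊔ Ideal.span {c} * I)).comp
        (Submodule.subtype I))) := by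
    apply dlen_range_congr
    ext ⟨x, hx⟩
    rw [LinearMap.mem_ker, LinearMap.mem_ker]
    change (Submodule.Quotient.mk x : O ⧸ ((I ⊓ J) ⊔ Ideal.span {c})) = 0 ↔
      (Submodule.Quotient.mk x : O ⧸ (J ⊔ Ideal.span {c} * I)) = 0
    rw [Submodule.Quotient.mk_eq_zero, Submodule.Quotient.mk_eq_zero]
    constructor
    · intro h
      rw [Submodule.mem_sup] at h
      obtain ⟨u, hu, v, hv, huv⟩ := h
      obtain ⟨w, rfl⟩ := Ideal.mem_span_singleton'.1 hv
      have h5 : c * w ∈ I := by
        have h6 : c * w = x - u := by linear_combination huv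
        rw [h6]
        exact I.sub_mem hx hu.1
      rw [← huv, mul_comm w c]
      exact Ideal.add_mem _ (Ideal.mem_sup_left hu.2)
        (Ideal.mem_sup_right (Ideal.mul_mem_mul (Ideal.mem_span_singleton_self c) (hI _ h5)))
    · intro h
      rw [Submodule.mem_sup] at h
      obtain ⟨u, hu, v, hv, huv⟩ := h
      obtain ⟨w, hw, rfl⟩ := Ideal.mem_span_singleton_mul.1 hv
      have h5 : u ∈ I := by
        have h6 : u = x - c * w := by linear_combination huv
        rw [h6]
        exact I.sub_mem hx (I.mul_mem_left c hw)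
      rw [← huv]
      exact Ideal.add_mem _ (Ideal.mem_sup_left ⟨h5, hu⟩)
        (Ideal.mem_sup_right (Ideal.mul_mem_right _ _ (Ideal.mem_span_singleton_self c)))
  have h5 : Module.length O
      (LinearMap.range ((Submodule.mkQ (J ⊔ Ideal.span {c} * I)).comp
        (Submodule.subtype I))) = lenP J c := by
    rw [h2, add_comm] at h1
    exact ENat.add_right_injective_of_ne_top hfin h1
  rw [h3, h4, h5, add_comm]

end

section

variable {O : Type*} [CommRing O]

theorem dlen_maximal (Q : Ideal O) [Q.IsPrime] (h : Module.length O (O ⧸ Q) ≠ ⊤) :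
    Q.IsMaximal := by
  have h1 : IsFiniteLength O (O ⧸ Q) := Module.length_ne_top_iff.1 h
  have h2 : IsArtinian O (O ⧸ Q) := (isFiniteLength_iff_isNoetherian_isArtinian.1 h1).2
  have h3 : IsArtinianRing (O ⧸ Q) := isArtinian_of_tower O h2
  exact Ideal.Quotient.maximal_of_isField _ (IsArtinianRing.isField_of_isDomain _)

theorem dlen_anti {I J : Ideal O} (h : I ≤ J) :
    Module.length O (O ⧸ J) ≤ Module.length O (O ⧸ I) := by
  refine Module.length_le_of_surjective (Submodule.mapQ I J LinearMap.id h) ?_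
  rintro ⟨x⟩
  exact ⟨Submodule.Quotient.mk x, rfl⟩

variable [IsNoetherianRing O] [IsLocalRing O]

/-- In a local ring of dimension one over `P`, every larger prime is maximal. -/
theorem dlen_krull (P : Ideal O) [P.IsPrime] (c : O) (hc : ¬ IsUnit c)
    (hfin : Module.length O (O ⧸ (P ⊔ Ideal.span {c})) ≠ ⊤) (Q : Ideal O) [Q.IsPrime]
    (hPQ : P < Q) : Q.IsMaximal := by
  by_contra hQ
  have hQm : Q < IsLocalRing.maximalIdeal O :=
    lt_of_le_of_ne (IsLocalRing.le_maximalIdeal_of_isPrime Q) fun h =>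
      hQ (h ▸ IsLocalRing.maximalIdeal.isMaximal O)
  have hPm : P ≤ IsLocalRing.maximalIdeal O := hPQ.le.trans hQm.le
  have hsurj : Function.Surjective (Ideal.Quotient.mk P) := Ideal.Quotient.mk_surjective
  have hcm : ∀ J : Ideal O, P ≤ J → Ideal.comap (Ideal.Quotient.mk P)
      (J.map (Ideal.Quotient.mk P)) = J := by
    intro J hJ
    rw [Ideal.comap_map_of_surjective _ hsurj, ← RingHom.ker_eq_comap_bot, Ideal.mk_ker,
      sup_eq_left.2 hJ]
  have hpr : ∀ J : Ideal O, J.IsPrime → P ≤ J → (J.map (Ideal.Quotient.mk P)).IsPrime := by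
    intro J hJ hPJ
    exact Ideal.map_isPrime_of_surjective hsurj (by rwa [Ideal.mk_ker])
  have hm := hpr _ (IsLocalRing.maximalIdeal.isMaximal O).isPrime hPm
  have hq := hpr Q inferInstance hPQ.le
  have hmin : (IsLocalRing.maximalIdeal O).map (Ideal.Quotient.mk P) ∈
      (Ideal.span {Ideal.Quotient.mk P c}).minimalPrimes := by
    refine ⟨⟨hm, ?_⟩, ?_⟩
    · rw [Ideal.span_singleton_le_iff_mem]
      exact Ideal.mem_map_of_mem _ ((IsLocalRing.mem_maximalIdeal c).2 hc)
    · rintro q ⟨hq1, hq2⟩ -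
      have h1 : (q.comap (Ideal.Quotient.mk P)).IsPrime := hq1.comap _
      have h2 : P ⊔ Ideal.span {c} ≤ q.comap (Ideal.Quotient.mk P) := by
        rw [sup_le_iff, Ideal.span_singleton_le_iff_mem]
        constructor
        · have h3 := Ideal.ker_le_comap (K := q) (Ideal.Quotient.mk P)
          rwa [Ideal.mk_ker] at h3
        · exact Ideal.mem_comap.2 ((Ideal.span_singleton_le_iff_mem q).1 hq2)
      have h3 : (q.comap (Ideal.Quotient.mk P)).IsMaximal :=
        dlen_maximal _ (ne_top_of_le_ne_top hfin (dlen_anti h2))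
      have h4 := IsLocalRing.eq_maximalIdeal h3
      rw [← h4, Ideal.map_comap_of_surjective _ hsurj]
  have hht := Ideal.height_le_one_of_isPrincipal_of_mem_minimalPrimes _ _ hmin
  have hlt : Q.map (Ideal.Quotient.mk P) <
      (IsLocalRing.maximalIdeal O).map (Ideal.Quotient.mk P) := by
    refine lt_of_le_of_ne (Ideal.map_mono hQm.le) fun h => hQm.ne ?_
    rw [← hcm Q hPQ.le, h, hcm _ hPm]
  have h5 := (Ideal.height_le_iff (n := 1)).1 (by exact_mod_cast hht) _ hq hlt
  have h6 : (Q.map (Ideal.Quotient.mk P)).height = 0 := by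
    rw [← Order.lt_one_iff]
    exact_mod_cast h5
  rw [Ideal.height_eq_zero_iff_eq_bot] at h6
  apply hPQ.ne
  rw [← hcm Q hPQ.le, h6, ← RingHom.ker_eq_comap_bot, Ideal.mk_ker]

theorem length_inf {O : Type*} [CommRing O] [IsNoetherianRing O] [IsLocalRing O]
    (s : Finset (Ideal O)) (hs : ∀ P ∈ s, P.IsPrime)
    (hinc : ∀ P ∈ s, ∀ Q ∈ s, P ≤ Q → P = Q) (c : O) (hc : ∀ P ∈ s, c ∉ P)
    (hfin : Module.length O (O ⧸ (s.inf id ⊔ Ideal.span {c})) ≠ ⊤) :
    Module.length O (O ⧸ (s.inf id ⊔ Ideal.span {c})) =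
      ∑ P ∈ s, Module.length O (O ⧸ (P ⊔ Ideal.span {c})) := by
  classical
  by_cases hu : IsUnit c
  · have h1 : ∀ I : Ideal O, Module.length O (O ⧸ (I ⊔ Ideal.span {c})) = 0 := fun I =>
      lenP_unit I hu
    rw [h1, Finset.sum_congr rfl fun P _ => h1 P, Finset.sum_const_zero]
  induction s using Finset.induction_on with
  | empty =>
    rw [Finset.sum_empty, Module.length_eq_zero_iff]
    apply Ideal.Quotient.subsingleton_iff.2
    rw [Finset.inf_empty, top_sup_eq]
  | insert P t hPt ih =>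
    have hP : P.IsPrime := hs P (Finset.mem_insert_self P t)
    have e1 : (insert P t).inf id = P ⊓ t.inf id := by
      rw [Finset.inf_insert, id_eq]
    have nzP : ∀ y, c * y ∈ P → y ∈ P := fun y hy =>
      (hP.mem_or_mem hy).resolve_left (hc P (Finset.mem_insert_self P t))
    have nzI : ∀ y, c * y ∈ t.inf id → y ∈ t.inf id := by
      intro y hy
      rw [Submodule.mem_finsetInf] at hy ⊢
      intro Q hQ
      have hQ' : Q ∈ insert P t := Finset.mem_insert_of_mem hQ
      exact ((hs Q hQ').mem_or_mem (hy Q hQ)).resolve_left (hc Q hQ')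
    have hfP : Module.length O (O ⧸ (P ⊔ Ideal.span {c})) ≠ ⊤ := by
      refine ne_top_of_le_ne_top hfin (dlen_anti (sup_le_sup_right ?_ _))
      rw [e1]
      exact inf_le_left
    have hfI : Module.length O (O ⧸ (t.inf id ⊔ Ideal.span {c})) ≠ ⊤ := by
      refine ne_top_of_le_ne_top hfin (dlen_anti (sup_le_sup_right ?_ _))
      rw [e1]
      exact inf_le_right
    have hart : Module.length O (O ⧸ (t.inf id ⊔ P)) ≠ ⊤ := by
      have hdim : Ring.KrullDimLE 0 (O ⧸ (t.inf id ⊔ P)) := by
        rw [Ring.krullDimLE_zero_iff]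
        intro q hq
        have h1 : (q.comap (Ideal.Quotient.mk (t.inf id ⊔ P))).IsPrime := hq.comap _
        have h2 : t.inf id ⊔ P ≤ q.comap (Ideal.Quotient.mk (t.inf id ⊔ P)) := by
          have h3 := Ideal.ker_le_comap (K := q) (Ideal.Quotient.mk (t.inf id ⊔ P))
          rwa [Ideal.mk_ker] at h3
        have h4 : P ≤ q.comap (Ideal.Quotient.mk (t.inf id ⊔ P)) := le_sup_right.trans h2
        have h5 : P ≠ q.comap (Ideal.Quotient.mk (t.inf id ⊔ P)) := by
          intro h5
          have h6 : t.inf id ≤ P := by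
            rw [h5]
            exact le_sup_left.trans h2
          rw [hP.inf_le'] at h6
          obtain ⟨Q, hQ, hQP⟩ := h6
          have h7 := hinc Q (Finset.mem_insert_of_mem hQ) P (Finset.mem_insert_self P t) hQP
          exact hPt (h7 ▸ hQ)
        have h6 : (q.comap (Ideal.Quotient.mk (t.inf id ⊔ P))).IsMaximal :=
          dlen_krull P c hu hfP _ (lt_of_le_of_ne h4 h5)
        have h7 := Ideal.map_eq_top_or_isMaximal_of_surjective
          (Ideal.Quotient.mk (t.inf id ⊔ P)) Ideal.Quotient.mk_surjective h6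
        rw [Ideal.map_comap_of_surjective _ Ideal.Quotient.mk_surjective] at h7
        exact h7.resolve_left hq.ne_top
      have h1 : IsArtinianRing (O ⧸ (t.inf id ⊔ P)) :=
        IsNoetherianRing.isArtinianRing_of_krullDimLE_zero
      have h2 : Module.length (O ⧸ (t.inf id ⊔ P)) (O ⧸ (t.inf id ⊔ P)) ≠ ⊤ :=
        Module.length_ne_top
      rwa [← Module.length_eq_of_surjective (S := O) (R := O ⧸ (t.inf id ⊔ P))
        (M := O ⧸ (t.inf id ⊔ P)) Ideal.Quotient.mk_surjective] at h2
    have key := dlen_two P (t.inf id) c nzP nzI hart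
    unfold lenP at key
    rw [Finset.sum_insert hPt, e1, key, ih (fun Q hQ => hs Q (Finset.mem_insert_of_mem hQ))
      (fun Q hQ Q' hQ' => hinc Q (Finset.mem_insert_of_mem hQ) Q' (Finset.mem_insert_of_mem hQ'))
      (fun Q hQ => hc Q (Finset.mem_insert_of_mem hQ)) hfI]

end

end Pool.Agent.K1
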