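import Mathlib

set_option autoImplicit false
/-!
Descent: the extension of a prime along a flat unramified map is the intersection of the primes
over it.
-/

namespace Pool.Agent.K1

open TensorProduct

theorem dmp_regular {O O' : Type*} [CommRing O] [CommRing O'] [Algebra O O']
    [Module.Flat O O'] (P : Ideal O) [P.IsPrime] {s : O} (hs : s ∉ P) {y : O'}
    (h : algebraMap O O' s * y ∈ P.map (algebraMap O O')) : y ∈ P.map (algebraMap O O') := by
  let e := (Algebra.TensorProduct.quotIdealMapEquivTensorQuot O' P)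
  let f : (O ⧸ P) →ₗ[O] (O ⧸ P) := s • LinearMap.id
  have hf : Function.Injective f := by
    rw [← LinearMap.ker_eq_bot, LinearMap.ker_eq_bot']
    intro a ha
    obtain ⟨a, rfl⟩ := Ideal.Quotient.mk_surjective a
    have h1 : Ideal.Quotient.mk P (s * a) = 0 := ha
    rw [Ideal.Quotient.eq_zero_iff_mem] at h1 ⊢
    exact ((inferInstance : P.IsPrime).mem_or_mem h1).resolve_left hs
  have hF : Function.Injective (f.lTensor O') := Module.Flat.lTensor_preserves_injective_linearMap f hf
  have he : ∀ z : O', e (Ideal.Quotient.mk _ z) = z ⊗ₜ (1 : O ⧸ P) := fun z => rfl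
  rw [← Ideal.Quotient.eq_zero_iff_mem] at h ⊢
  apply e.injective
  rw [he, map_zero]
  apply hF
  rw [map_zero, LinearMap.lTensor_tmul]
  have h2 := congrArg e h
  rw [he, map_zero] at h2
  rw [← h2]
  change y ⊗ₜ[O] (s • (1 : O ⧸ P)) = _
  rw [← TensorProduct.smul_tmul, Algebra.smul_def]

theorem dmp_comap_of_ass {O O' : Type*} [CommRing O] [CommRing O'] [Algebra O O']
    [IsNoetherianRing O'] [Module.Flat O O'] (P : Ideal O) [P.IsPrime] (Q : Ideal O')
    (hQ : IsAssociatedPrime Q (O' ⧸ P.map (algebraMap O O'))) :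
    Q.comap (algebraMap O O') = P := by
  rw [isAssociatedPrime_iff] at hQ
  obtain ⟨hQp, x, hx⟩ := hQ
  obtain ⟨x, rfl⟩ := Ideal.Quotient.mk_surjective x
  have hmem : ∀ r : O', r ∈ Q ↔ r * x ∈ P.map (algebraMap O O') := by
    intro r
    rw [hx, Submodule.mem_colon_singleton, Submodule.mem_bot, ← Ideal.Quotient.eq_zero_iff_mem]
    rfl
  apply le_antisymm
  · intro s hs
    by_contra hsP
    have h1 : x ∈ P.map (algebraMap O O') := dmp_regular P hsP ((hmem _).1 hs)
    apply hQp.ne_top
    rw [Ideal.eq_top_iff_one, hmem, one_mul]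
    exact h1
  · intro s hs
    rw [Ideal.mem_comap, hmem]
    exact Ideal.mul_mem_right _ _ (Ideal.mem_map_of_mem _ hs)

theorem dmp_exists_mul {O' : Type*} [CommRing O'] (I Q : Ideal O') [Q.IsPrime]
    (h : I.map (algebraMap O' (Localization.AtPrime Q)) =
      IsLocalRing.maximalIdeal (Localization.AtPrime Q)) {x : O'} (hx : x ∈ Q) :
    ∃ s : O', s ∉ Q ∧ s * x ∈ I := by
  have h1 : algebraMap O' (Localization.AtPrime Q) x ∈
      I.map (algebraMap O' (Localization.AtPrime Q)) := by
    rw [h]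
    rw [← IsLocalization.AtPrime.map_eq_maximalIdeal Q (Localization.AtPrime Q)]
    exact Ideal.mem_map_of_mem _ hx
  rw [IsLocalization.mem_map_algebraMap_iff Q.primeCompl] at h1
  obtain ⟨⟨a, s⟩, hs⟩ := h1
  have hs' : algebraMap O' (Localization.AtPrime Q) (x * s) =
      algebraMap O' (Localization.AtPrime Q) a := by
    rw [map_mul]
    exact hs
  rw [IsLocalization.eq_iff_exists Q.primeCompl] at hs'
  obtain ⟨t, ht⟩ := hs'
  refine ⟨t * s, ?_, ?_⟩
  · intro h2
    rcases (inferInstance : Q.IsPrime).mem_or_mem h2 with h3 | h3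
    · exact t.2 h3
    · exact s.2 h3
  · have h2 : (t : O') * s * x = t * a := by
      rw [← ht]
      ring
    rw [h2]
    exact I.mul_mem_left _ a.2

theorem map_prime {O O' : Type*} [CommRing O] [CommRing O'] [Algebra O O']
    [IsNoetherianRing O'] [Module.Flat O O'] (P : Ideal O) [P.IsPrime]
    (h : ∀ (Q : Ideal O') [Q.IsPrime], Q.comap (algebraMap O O') = P →
      (P.map (algebraMap O O')).map (algebraMap O' (Localization.AtPrime Q)) =
        IsLocalRing.maximalIdeal (Localization.AtPrime Q)) :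
    {Q : Ideal O' | Q.IsPrime ∧ Q.comap (algebraMap O O') = P}.Finite ∧
    (∀ Q Q' : Ideal O', Q.IsPrime → Q.comap (algebraMap O O') = P → Q'.IsPrime →
      Q'.comap (algebraMap O O') = P → Q ≤ Q' → Q = Q') ∧
    P.map (algebraMap O O') =
      sInf {Q : Ideal O' | Q.IsPrime ∧ Q.comap (algebraMap O O') = P} := by
  have hinc : ∀ Q Q' : Ideal O', Q.IsPrime → Q.comap (algebraMap O O') = P → Q'.IsPrime →
      Q'.comap (algebraMap O O') = P → Q ≤ Q' → Q = Q' := by
    intro Q Q' hQ hQP hQ' hQP' hle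
    refine le_antisymm hle fun x hx => ?_
    obtain ⟨s, hs, hsx⟩ := dmp_exists_mul _ Q' (h Q' hQP') hx
    have h1 : P.map (algebraMap O O') ≤ Q := by
      rw [Ideal.map_le_iff_le_comap, hQP]
    exact (hQ.mem_or_mem (h1 hsx)).resolve_left fun h2 => hs (hle h2)
  have hmap : P.map (algebraMap O O') =
      sInf {Q : Ideal O' | Q.IsPrime ∧ Q.comap (algebraMap O O') = P} := by
    apply le_antisymm
    · refine le_sInf fun Q hQ => ?_
      rw [Ideal.map_le_iff_le_comap, hQ.2]
    · intro x hx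
      by_contra hxP
      have hne : (Ideal.Quotient.mk (P.map (algebraMap O O')) x) ≠ 0 := by
        rwa [ne_eq, Ideal.Quotient.eq_zero_iff_mem]
      obtain ⟨Q, hQ, hle⟩ := exists_le_isAssociatedPrime_of_isNoetherianRing (R := O') _ hne
      have hQP := dmp_comap_of_ass P Q hQ
      have hQp : Q.IsPrime := hQ.1
      have hxQ : x ∈ Q := (Submodule.mem_sInf.1 hx) Q ⟨hQp, hQP⟩
      obtain ⟨s, hs, hsx⟩ := dmp_exists_mul _ Q (h Q hQP) hxQ
      apply hs
      apply hle
      rw [Submodule.mem_colon_singleton, Submodule.mem_bot]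
      exact (Ideal.Quotient.eq_zero_iff_mem).2 hsx
  refine ⟨?_, hinc, hmap⟩
  refine (Ideal.finite_minimalPrimes_of_isNoetherianRing O' (P.map (algebraMap O O'))).subset ?_
  rintro Q ⟨hQ, hQP⟩
  have h1 : P.map (algebraMap O O') ≤ Q := by
    rw [Ideal.map_le_iff_le_comap, hQP]
  refine ⟨⟨hQ, h1⟩, ?_⟩
  rintro Q' ⟨hQ', h2⟩ hle
  have h3 : Q'.comap (algebraMap O O') = P := by
    apply le_antisymm
    · rw [← hQP]
      exact Ideal.comap_mono hle
    · rw [← Ideal.map_le_iff_le_comap]
      exact h2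
  exact (hinc Q' Q hQ' h3 hQ hQP hle).ge

end Pool.Agent.K1
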