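import Pool.Agent.K1.DPull
import Pool.Agent.K1.DGen
import Pool.Agent.K1.DLenFlat
import Pool.Agent.K1.DLenInf
import Pool.Agent.K1.DMapPrime

/-!
Descent: the pull back of a cycle is a cycle.
-/

set_option autoImplicit false

open AlgebraicGeometry CategoryTheory

namespace Pool.Agent.K1

/-! ### Finiteness of the lengths -/

theorem dcyc_krull_height {O : Type*} [CommRing O] [IsNoetherianRing O] [IsLocalRing O]
    (hO : ringKrullDim O = 2) (P : Ideal O) [P.IsPrime] (hP : P.height = 1) {c : O} (hc : c ∉ P) :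
    Module.length O (O ⧸ (P ⊔ Ideal.span {c})) ≠ ⊤ := by
  have hm : (IsLocalRing.maximalIdeal O).height = 2 := by
    have h := IsLocalRing.maximalIdeal_height_eq_ringKrullDim (R := O)
    rw [hO] at h
    exact WithBot.coe_injective h
  have hmax : ∀ q : Ideal O, q.IsPrime → P ⊔ Ideal.span {c} ≤ q → q.IsMaximal := by
    intro q hq hle
    have h1 : P < q := by
      refine lt_of_le_of_ne (le_sup_left.trans hle) fun h => hc ?_
      rw [h]
      exact hle (Ideal.mem_sup_right (Ideal.mem_span_singleton_self c))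
    have h2 := Ideal.height_add_one_le_of_lt_of_isPrime h1
    by_contra hqm
    have h3 : q < IsLocalRing.maximalIdeal O :=
      lt_of_le_of_ne (IsLocalRing.le_maximalIdeal_of_isPrime q) fun h =>
        hqm (h ▸ IsLocalRing.maximalIdeal.isMaximal O)
    have h4 := Ideal.height_add_one_le_of_lt_of_isPrime h3
    rw [hP] at h2
    rw [hm] at h4
    have h5 : (1 : ℕ∞) + 1 + 1 ≤ 2 := le_trans (add_le_add_left h2 1) h4
    exact absurd h5 (by decide)
  have hdim : Ring.KrullDimLE 0 (O ⧸ (P ⊔ Ideal.span {c})) := by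
    rw [Ring.krullDimLE_zero_iff]
    intro q hq
    have h1 : (q.comap (Ideal.Quotient.mk (P ⊔ Ideal.span {c}))).IsPrime := hq.comap _
    have h2 : P ⊔ Ideal.span {c} ≤ q.comap (Ideal.Quotient.mk (P ⊔ Ideal.span {c})) := by
      have h3 := Ideal.ker_le_comap (K := q) (Ideal.Quotient.mk (P ⊔ Ideal.span {c}))
      rwa [Ideal.mk_ker] at h3
    have h6 := hmax _ h1 h2
    have h7 := Ideal.map_eq_top_or_isMaximal_of_surjective
      (Ideal.Quotient.mk (P ⊔ Ideal.span {c})) Ideal.Quotient.mk_surjective h6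
    rw [Ideal.map_comap_of_surjective _ Ideal.Quotient.mk_surjective] at h7
    exact h7.resolve_left hq.ne_top
  have h1 : IsArtinianRing (O ⧸ (P ⊔ Ideal.span {c})) :=
    IsNoetherianRing.isArtinianRing_of_krullDimLE_zero
  have h2 : Module.length (O ⧸ (P ⊔ Ideal.span {c})) (O ⧸ (P ⊔ Ideal.span {c})) ≠ ⊤ :=
    Module.length_ne_top
  rwa [← Module.length_eq_of_surjective (S := O) (R := O ⧸ (P ⊔ Ideal.span {c}))
    (M := O ⧸ (P ⊔ Ideal.span {c})) Ideal.Quotient.mk_surjective] at h2

theorem dcyc_ne_top {X : Scheme.{0}} [IsLocallyNoetherian X] {x y : X}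
    (h : x ⤳ y) (hx : Order.coheight x = 1) (hy : Order.coheight y = 2)
    {c : X.presheaf.stalk y} (hc : evalAt h c ≠ 0) :
    Module.length (X.presheaf.stalk y)
      (X.presheaf.stalk y ⧸ (RingHom.ker (evalAt h) ⊔ Ideal.span {c})) ≠ ⊤ := by
  have hP : (RingHom.ker (evalAt h)).IsPrime := RingHom.ker_isPrime _
  refine dcyc_krull_height ?_ _ ?_ ?_
  · rw [ringKrullDim_stalk_eq_coheight, hy]
    rfl
  · let i1 := (X.presheaf.stalkSpecializes h).hom.toAlgebra
    have h1 : IsLocalization.AtPrime (X.presheaf.stalk x) (RingHom.ker (evalAt h)) :=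
      isLocalization_stalk h
    have h2 := IsLocalization.AtPrime.ringKrullDim_eq_height (RingHom.ker (evalAt h))
      (X.presheaf.stalk x)
    rw [ringKrullDim_stalk_eq_coheight, hx] at h2
    exact_mod_cast h2.symm
  · rwa [RingHom.mem_ker]

/-! ### The primes over the prime of a curve -/

theorem dcyc_unram {Y X : Scheme.{0}} [IsIntegral Y] [IsIntegral X] {π : Y ⟶ X}
    (P : ProEt π) {z y : Y} (h : z ⤳ y) (h' : π z ⤳ π y) :
    ((RingHom.ker (evalAt h')).map (π.stalkMap y).hom).map (Y.presheaf.stalkSpecializes h).hom =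
      IsLocalRing.maximalIdeal (Y.presheaf.stalk z) := by
  let i1 := (X.presheaf.stalkSpecializes h').hom.toAlgebra
  have hP : (RingHom.ker (evalAt h')).IsPrime := RingHom.ker_isPrime _
  have h1 : IsLocalization.AtPrime (X.presheaf.stalk (π z)) (RingHom.ker (evalAt h')) :=
    isLocalization_stalk h'
  have h2 : (RingHom.ker (evalAt h')).map (X.presheaf.stalkSpecializes h').hom =
      IsLocalRing.maximalIdeal (X.presheaf.stalk (π z)) :=
    IsLocalization.AtPrime.map_eq_maximalIdeal (RingHom.ker (evalAt h'))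
      (X.presheaf.stalk (π z))
  rw [← P.unram z, ← h2, Ideal.map_map, Ideal.map_map]
  congr 1
  ext a
  exact (Scheme.Hom.stalkSpecializes_stalkMap_apply π z y h a).symm

theorem dcyc_unram_loc {Y X : Scheme.{0}} [IsIntegral Y] [IsIntegral X] {π : Y ⟶ X}
    (P : ProEt π) {z y : Y} (h : z ⤳ y) (h' : π z ⤳ π y) (Q : Ideal (Y.presheaf.stalk y))
    [Q.IsPrime] (hQ : RingHom.ker (evalAt h) = Q) :
    ((RingHom.ker (evalAt h')).map (π.stalkMap y).hom).map
      (algebraMap (Y.presheaf.stalk y) (Localization.AtPrime Q)) =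
      IsLocalRing.maximalIdeal (Localization.AtPrime Q) := by
  subst hQ
  let i1 := (Y.presheaf.stalkSpecializes h).hom.toAlgebra
  have h1 : IsLocalization.AtPrime (Y.presheaf.stalk z) (RingHom.ker (evalAt h)) :=
    isLocalization_stalk h
  let e : Y.presheaf.stalk z ≃ₐ[Y.presheaf.stalk y] Localization.AtPrime
      (RingHom.ker (evalAt h)) :=
    IsLocalization.algEquiv (RingHom.ker (evalAt h)).primeCompl _ _
  have h2 := dcyc_unram P h h'
  have h3 : (algebraMap (Y.presheaf.stalk y) (Localization.AtPrime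
      (RingHom.ker (evalAt h)))) = (e : Y.presheaf.stalk z →+* _).comp
        (Y.presheaf.stalkSpecializes h).hom := by
    ext a
    exact (e.commutes a).symm
  rw [h3, ← Ideal.map_map, h2]
  exact IsLocalRing.map_ringEquiv_maximalIdeal _

/-- The prime of the curve through `z` in the local ring at `y` (everything if `y` is not on the
curve). -/
noncomputable def dcycP {Y : Scheme.{0}} (y z : Y) : Ideal (Y.presheaf.stalk y) := by
  classical
  exact if h : z ⤳ y then RingHom.ker (evalAt h) else ⊤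

theorem dcycP_pos {Y : Scheme.{0}} {y z : Y} (h : z ⤳ y) :
    dcycP y z = RingHom.ker (evalAt h) := by
  unfold dcycP
  rw [dif_pos h]

theorem dcycP_neg {Y : Scheme.{0}} {y z : Y} (h : ¬ z ⤳ y) : dcycP y z = ⊤ := by
  unfold dcycP
  rw [dif_neg h]

/-- The multiplicity of the function `c` at `y` along the curve through `z`. -/
noncomputable def dcycL {Y : Scheme.{0}} (y : Y) (c : Y.presheaf.stalk y) (z : Y) : ℕ∞ :=
  Module.length (Y.presheaf.stalk y) (Y.presheaf.stalk y ⧸ (dcycP y z ⊔ Ideal.span {c}))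

theorem dcycL_neg {Y : Scheme.{0}} {y z : Y} (h : ¬ z ⤳ y) (c : Y.presheaf.stalk y) :
    dcycL y c z = 0 := by
  unfold dcycL
  rw [dcycP_neg h, Module.length_eq_zero_iff]
  apply Ideal.Quotient.subsingleton_iff.2
  rw [top_sup_eq]

theorem dcycL_congr {Y : Scheme.{0}} {y z : Y} (h : z ⤳ y) {c d : Y.presheaf.stalk y}
    (e : evalAt h c = evalAt h d) : dcycL y c z = dcycL y d z := by
  unfold dcycL
  rw [dcycP_pos h]
  have h1 : RingHom.ker (evalAt h) ⊔ Ideal.span {c} = RingHom.ker (evalAt h) ⊔ Ideal.span {d} := by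
    have h2 : c - d ∈ RingHom.ker (evalAt h) := by
      rw [RingHom.mem_ker, map_sub, e, sub_self]
    apply le_antisymm
    · rw [sup_le_iff, Ideal.span_singleton_le_iff_mem]
      refine ⟨le_sup_left, ?_⟩
      have h3 : c = (c - d) + d := by ring
      rw [h3]
      exact Ideal.add_mem _ (Ideal.mem_sup_left h2)
        (Ideal.mem_sup_right (Ideal.mem_span_singleton_self d))
    · rw [sup_le_iff, Ideal.span_singleton_le_iff_mem]
      refine ⟨le_sup_left, ?_⟩
      have h3 : d = c - (c - d) := by ring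
      rw [h3]
      exact Ideal.sub_mem _ (Ideal.mem_sup_right (Ideal.mem_span_singleton_self c))
        (Ideal.mem_sup_left h2)
  rw [h1]

/-- The multiplicity along a curve is the sum of the multiplicities along the curves over it. -/
theorem dcyc_sum {Y X : Scheme.{0}} [IsIntegral Y] [IsIntegral X] [IsLocallyNoetherian Y]
    [IsLocallyNoetherian X] {π : Y ⟶ X} (P : ProEt π) (y : Y) (hy : Order.coheight y = 2)
    (x : PointOne X) (h : x.1 ⤳ π y) (S : Finset (PointOne Y))
    (hS : ∀ z, z ∈ S ↔ π z.1 = x.1 ∧ z.1 ⤳ y) (c : X.presheaf.stalk (π y))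
    (hc : evalAt h c ≠ 0) :
    dcycL (π y) c x.1 = ∑ z ∈ S, dcycL y ((π.stalkMap y).hom c) z.1 := by
  classical
  have hf := P.flat
  let i1 : Algebra (X.presheaf.stalk (π y)) (Y.presheaf.stalk y) := (π.stalkMap y).hom.toAlgebra
  have hflat : Module.Flat (X.presheaf.stalk (π y)) (Y.presheaf.stalk y) :=
    Flat.stalkMap π y
  have hloc : IsLocalHom (algebraMap (X.presheaf.stalk (π y)) (Y.presheaf.stalk y)) :=
    π.toLRSHom.prop y
  have hPx : (RingHom.ker (evalAt h)).IsPrime := RingHom.ker_isPrime _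
  have hamap : algebraMap (X.presheaf.stalk (π y)) (Y.presheaf.stalk y) = (π.stalkMap y).hom :=
    rfl
  -- the primes over the prime of `x`
  have hover : ∀ (z : Y) (hz : z ⤳ y), (RingHom.ker (evalAt hz)).comap
      (algebraMap (X.presheaf.stalk (π y)) (Y.presheaf.stalk y)) = RingHom.ker (evalAt h) ↔
      π z = x.1 := by
    intro z hz
    have h' : π z ⤳ π y := hz.map π.continuous
    have h1 : (RingHom.ker (evalAt hz)).comap
        (algebraMap (X.presheaf.stalk (π y)) (Y.presheaf.stalk y)) =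
        RingHom.ker (evalAt h') := by
      ext a
      rw [Ideal.mem_comap, RingHom.mem_ker, RingHom.mem_ker, hamap, evalAt_pi π hz h' a,
        map_eq_zero]
    rw [h1]
    constructor
    · exact fun e => generization_unique h' h e
    · intro e
      have : ∀ (x' : X) (hx' : x' ⤳ π y), x' = x.1 →
          RingHom.ker (evalAt hx') = RingHom.ker (evalAt h) := by
        rintro x' hx' rfl
        rfl
      exact this _ h' e
  obtain ⟨hfin, hinc, hmap⟩ := map_prime (O := X.presheaf.stalk (π y))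
    (O' := Y.presheaf.stalk y) (RingHom.ker (evalAt h)) (by
      intro Q hQ hQP
      obtain ⟨z, hz, hzQ⟩ := exists_generization y Q
      have h' : π z ⤳ π y := hz.map π.continuous
      have h1 : π z = x.1 := by
        rw [← hover z hz, hzQ]
        exact hQP
      have h2 := dcyc_unram_loc P hz h' Q hzQ
      have h3 : RingHom.ker (evalAt h') = RingHom.ker (evalAt h) := by
        have : ∀ (x' : X) (hx' : x' ⤳ π y), x' = x.1 →
            RingHom.ker (evalAt hx') = RingHom.ker (evalAt h) := by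
          rintro x' hx' rfl
          rfl
        exact this _ h' h1
      rw [h3] at h2
      exact h2)
  have hset : {Q : Ideal (Y.presheaf.stalk y) | Q.IsPrime ∧
      Q.comap (algebraMap (X.presheaf.stalk (π y)) (Y.presheaf.stalk y)) =
        RingHom.ker (evalAt h)} = (S.image fun z => dcycP y z.1 : Finset _) := by
    ext Q
    rw [Set.mem_ofPred_eq, Finset.mem_coe, Finset.mem_image]
    constructor
    · rintro ⟨hQ, hQP⟩
      obtain ⟨z, hz, hzQ⟩ := exists_generization y Q
      have h1 : π z = x.1 := by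
        rw [← hover z hz, hzQ]
        exact hQP
      have h2 : Order.coheight z = 1 := by
        rw [← coheight_pi P z, h1]
        exact x.2
      exact ⟨⟨z, h2⟩, (hS _).2 ⟨h1, hz⟩, by rw [dcycP_pos hz, hzQ]⟩
    · rintro ⟨z, hz, rfl⟩
      obtain ⟨hz1, hz2⟩ := (hS z).1 hz
      rw [dcycP_pos hz2]
      exact ⟨RingHom.ker_isPrime _, (hover z.1 hz2).2 hz1⟩
  have hinj : Set.InjOn (fun z : PointOne Y => dcycP y z.1) S := by
    intro z hz z' hz' e
    obtain ⟨-, hz2⟩ := (hS z).1 hz
    obtain ⟨-, hz2'⟩ := (hS z').1 hz'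
    have e' : dcycP y z.1 = dcycP y z'.1 := e
    rw [dcycP_pos hz2, dcycP_pos hz2'] at e'
    exact Subtype.ext (generization_unique hz2 hz2' e')
  have hprime : ∀ Q ∈ S.image fun z => dcycP y z.1, Q.IsPrime ∧
      Q.comap (algebraMap (X.presheaf.stalk (π y)) (Y.presheaf.stalk y)) =
        RingHom.ker (evalAt h) := by
    intro Q hQ
    have h1 : Q ∈ ((S.image fun z => dcycP y z.1 : Finset _) : Set _) := hQ
    rw [← hset] at h1
    exact h1
  have hinf : (S.image fun z => dcycP y z.1).inf id =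
      (RingHom.ker (evalAt h)).map
        (algebraMap (X.presheaf.stalk (π y)) (Y.presheaf.stalk y)) := by
    rw [hmap, Finset.inf_id_eq_sInf, hset]
  have hL : dcycL (π y) c x.1 = Module.length (Y.presheaf.stalk y)
      (Y.presheaf.stalk y ⧸ ((S.image fun z => dcycP y z.1).inf id ⊔
        Ideal.span {(π.stalkMap y).hom c})) := by
    unfold dcycL
    rw [dcycP_pos h, ← length_flat (O := X.presheaf.stalk (π y)) (O' := Y.presheaf.stalk y)
      (P.unram y), hinf, Ideal.map_sup, Ideal.map_span, Set.image_singleton]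
    rfl
  have hx2 : Order.coheight (π y) = 2 := by rw [coheight_pi P, hy]
  have hfin' : dcycL (π y) c x.1 ≠ ⊤ := by
    unfold dcycL
    rw [dcycP_pos h]
    exact dcyc_ne_top h x.2 hx2 hc
  rw [hL] at hfin'
  rw [hL, length_inf (S.image fun z => dcycP y z.1) (fun Q hQ => (hprime Q hQ).1)
    (fun Q hQ Q' hQ' hle => hinc Q Q' (hprime Q hQ).1 (hprime Q hQ).2 (hprime Q' hQ').1
      (hprime Q' hQ').2 hle) ((π.stalkMap y).hom c) ?_ hfin', Finset.sum_image hinj]
  · rfl
  · intro Q hQ hcQ
    apply hc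
    have h1 : c ∈ Q.comap (algebraMap (X.presheaf.stalk (π y)) (Y.presheaf.stalk y)) := hcQ
    rw [(hprime Q hQ).2] at h1
    exact h1

theorem dcyc_toNat_sum {ι : Type*} (S : Finset ι) (f : ι → ℕ∞) (hf : ∀ i ∈ S, f i ≠ ⊤) :
    ((∑ i ∈ S, f i).toNat : ℤ) = ∑ i ∈ S, ((f i).toNat : ℤ) := by
  classical
  induction S using Finset.induction_on with
  | empty => simp
  | insert i t hi ih =>
    rw [Finset.sum_insert hi, Finset.sum_insert hi, ENat.toNat_add
      (hf i (Finset.mem_insert_self i t)) ?_, Nat.cast_add,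
      ih fun j hj => hf j (Finset.mem_insert_of_mem hj)]
    exact WithTop.sum_ne_top.2 fun j hj => hf j (Finset.mem_insert_of_mem hj)

/-! ### Cycles -/

theorem isCycle1_pull {Y X : Scheme.{0}} [IsIntegral Y] [IsIntegral X] [IsNoetherian Y]
    [IsNoetherian X] {π : Y ⟶ X} (P : ProEt π)
    (hX : ∀ x : X, IsRegularLocalRing (X.presheaf.stalk x))
    (hY : ∀ y : Y, IsRegularLocalRing (Y.presheaf.stalk y))
    (ξ : SChain X) (hξ : IsCycle1 ξ) (η : SChain Y) (hη : IsPull π ξ η) : IsCycle1 η := by
  classical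
  intro y hy
  have hx2 : Order.coheight (π y) = 2 := by rw [coheight_pi P, hy]
  obtain ⟨n, hn0, hn1, hn2⟩ := hξ (π y) hx2
  have key : ∀ x : PointOne X, ∃ c d : X.presheaf.stalk (π y), ∀ h : x.1 ⤳ π y,
      evalAt h c ≠ 0 ∧ evalAt h d ≠ 0 ∧
      ((Additive.toMul (ξ x) : (X.residueField x.1)ˣ) : X.residueField x.1) * evalAt h d =
        evalAt h c ∧
      n x = ((dcycL (π y) c x.1).toNat : ℤ) - (dcycL (π y) d x.1).toNat := by
    intro x
    by_cases h : x.1 ⤳ π y
    · obtain ⟨c, d, hc, hd, hcd, hm⟩ := hn1 x h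
      refine ⟨c, d, fun _ => ⟨hc, hd, hcd, ?_⟩⟩
      unfold dcycL
      rw [dcycP_pos h]
      exact hm
    · exact ⟨0, 0, fun h' => absurd h' h⟩
  choose c d hcd using key
  have hpi : ∀ z : PointOne Y, Order.coheight (π z.1) = 1 := fun z => by
    rw [coheight_pi P]
    exact z.2
  let q : PointOne Y → PointOne X := fun z => ⟨π z.1, hpi z⟩
  let m : PointOne Y → ℤ := fun z =>
    ((dcycL y ((π.stalkMap y).hom (c (q z))) z.1).toNat : ℤ) -
      (dcycL y ((π.stalkMap y).hom (d (q z))) z.1).toNat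
  have hm0 : ∀ z : PointOne Y, ¬ z.1 ⤳ y → m z = 0 := by
    intro z hz
    change ((dcycL y ((π.stalkMap y).hom (c (q z))) z.1).toNat : ℤ) -
      (dcycL y ((π.stalkMap y).hom (d (q z))) z.1).toNat = 0
    rw [dcycL_neg hz, dcycL_neg hz, sub_self]
  have hm1 : ∀ z : PointOne Y, ξ (q z) = 0 → m z = 0 := by
    intro z hz
    by_cases hzy : z.1 ⤳ y
    · have h' : π z.1 ⤳ π y := hzy.map π.continuous
      obtain ⟨-, -, h1, -⟩ := hcd (q z) h'
      rw [hz, toMul_zero, Units.val_one, one_mul] at h1
      have h2 : evalAt hzy ((π.stalkMap y).hom (c (q z))) =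
          evalAt hzy ((π.stalkMap y).hom (d (q z))) := by
        rw [evalAt_pi π hzy h', evalAt_pi π hzy h']
        exact congrArg _ h1.symm
      change ((dcycL y ((π.stalkMap y).hom (c (q z))) z.1).toNat : ℤ) -
        (dcycL y ((π.stalkMap y).hom (d (q z))) z.1).toNat = 0
      rw [dcycL_congr hzy h2, sub_self]
    · exact hm0 z hzy
  have hnx : ∀ x : PointOne X, ξ x = 0 → n x = 0 := by
    intro x hx
    by_cases h : x.1 ⤳ π y
    · obtain ⟨-, -, h1, h2⟩ := hcd x h
      rw [hx, toMul_zero, Units.val_one, one_mul] at h1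
      rw [h2, dcycL_congr h h1, sub_self]
    · exact hn0 x h
  have hfin : (⋃ x ∈ ξ.support, {z : PointOne Y | π z.1 = x.1}).Finite :=
    Set.Finite.biUnion ξ.support.finite_toSet fun x _ => dpull_fibre_finite P x.1 x.2
  have hT : ∀ z, z ∈ hfin.toFinset ↔ q z ∈ ξ.support := by
    intro z
    rw [Set.Finite.mem_toFinset, Set.mem_iUnion₂]
    constructor
    · rintro ⟨x, hx, hzx⟩
      have h1 : q z = x := Subtype.ext hzx
      rw [h1]
      exact hx
    · intro hz
      exact ⟨q z, hz, rfl⟩
  refine ⟨Finsupp.onFinset hfin.toFinset m ?_, ?_, ?_, ?_⟩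
  · intro z hz
    rw [hT, DFinsupp.mem_support_iff]
    exact fun h => hz (hm1 z h)
  · intro z hz
    rw [Finsupp.onFinset_apply]
    exact hm0 z hz
  · intro z hz
    rw [Finsupp.onFinset_apply]
    have h' : π z.1 ⤳ π y := hz.map π.continuous
    obtain ⟨h1, h2, h3, -⟩ := hcd (q z) h'
    refine ⟨(π.stalkMap y).hom (c (q z)), (π.stalkMap y).hom (d (q z)), ?_, ?_, ?_, ?_⟩
    · rw [evalAt_pi π hz h']
      exact (map_ne_zero _).2 h1
    · rw [evalAt_pi π hz h']
      exact (map_ne_zero _).2 h2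
    · rw [evalAt_pi π hz h', evalAt_pi π hz h', ← h3, map_mul, hη z (hpi z)]
      rfl
    · change ((dcycL y ((π.stalkMap y).hom (c (q z))) z.1).toNat : ℤ) -
        (dcycL y ((π.stalkMap y).hom (d (q z))) z.1).toNat = _
      unfold dcycL
      rw [dcycP_pos hz]
  · have h1 : (Finsupp.onFinset hfin.toFinset m (by
        intro z hz
        rw [hT, DFinsupp.mem_support_iff]
        exact fun h => hz (hm1 z h))).sum (fun _ m => m) = ∑ z ∈ hfin.toFinset, m z := by
      rw [Finsupp.sum_of_support_subset _ Finsupp.support_onFinset_subset _ (fun _ _ => rfl)]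
      rfl
    have h2 : n.sum (fun _ m => m) = ∑ x ∈ ξ.support, n x := by
      rw [Finsupp.sum_of_support_subset n (s := ξ.support) ?_ _ (fun _ _ => rfl)]
      intro x hx
      rw [DFinsupp.mem_support_iff]
      intro h
      exact (Finsupp.mem_support_iff.1 hx) (hnx x h)
    refine h1.trans ?_
    rw [← hn2, h2, ← Finset.sum_fiberwise_of_maps_to (s := hfin.toFinset) (t := ξ.support)
      (g := q) (fun z hz => (hT z).1 hz)]
    refine Finset.sum_congr rfl fun x hx => ?_
    by_cases h : x.1 ⤳ π y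
    · let S : Finset (PointOne Y) := hfin.toFinset.filter fun z => q z = x ∧ z.1 ⤳ y
      have hS : ∀ z, z ∈ S ↔ π z.1 = x.1 ∧ z.1 ⤳ y := by
        intro z
        rw [Finset.mem_filter]
        constructor
        · rintro ⟨-, h3, h4⟩
          exact ⟨congrArg Subtype.val h3, h4⟩
        · rintro ⟨h3, h4⟩
          have h5 : q z = x := Subtype.ext h3
          exact ⟨(hT z).2 (h5 ▸ hx), h5, h4⟩
      obtain ⟨hc1, hd1, -, h4⟩ := hcd x h
      have h5 := dcyc_sum P y hy x h S hS (c x) hc1
      have h6 := dcyc_sum P y hy x h S hS (d x) hd1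
      have h7 : ∑ z ∈ hfin.toFinset with q z = x, m z = ∑ z ∈ S, m z := by
        symm
        refine Finset.sum_subset ?_ ?_
        · intro z hz
          rw [Finset.mem_filter] at hz ⊢
          exact ⟨hz.1, hz.2.1⟩
        · intro z hz hzS
          rw [Finset.mem_filter] at hz
          refine hm0 z fun h8 => hzS ?_
          rw [Finset.mem_filter]
          exact ⟨hz.1, hz.2, h8⟩
      rw [h7, h4, h5, h6, dcyc_toNat_sum, dcyc_toNat_sum, ← Finset.sum_sub_distrib]
      · refine Finset.sum_congr rfl fun z hz => ?_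
        have h8 : q z = x := Subtype.ext ((hS z).1 hz).1
        change ((dcycL y ((π.stalkMap y).hom (c (q z))) z.1).toNat : ℤ) -
          (dcycL y ((π.stalkMap y).hom (d (q z))) z.1).toNat = _
        rw [h8]
      · intro z hz
        have hzy := ((hS z).1 hz).2
        have h' : π z.1 ⤳ π y := hzy.map π.continuous
        have h8 : q z = x := Subtype.ext ((hS z).1 hz).1
        unfold dcycL
        rw [dcycP_pos hzy]
        refine dcyc_ne_top hzy z.2 hy ?_
        rw [evalAt_pi π hzy h']
        refine (map_ne_zero _).2 ?_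
        obtain ⟨h9, h10, -, -⟩ := hcd (q z) h'
        rw [← h8]
        exact h10
      · intro z hz
        have hzy := ((hS z).1 hz).2
        have h' : π z.1 ⤳ π y := hzy.map π.continuous
        have h8 : q z = x := Subtype.ext ((hS z).1 hz).1
        unfold dcycL
        rw [dcycP_pos hzy]
        refine dcyc_ne_top hzy z.2 hy ?_
        rw [evalAt_pi π hzy h']
        refine (map_ne_zero _).2 ?_
        obtain ⟨h9, h10, -, -⟩ := hcd (q z) h'
        rw [← h8]
        exact h9
    · rw [hn0 x h]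
      refine Finset.sum_eq_zero fun z hz => hm0 z fun h8 => h ?_
      rw [Finset.mem_filter] at hz
      have h9 : π z.1 = x.1 := congrArg Subtype.val hz.2
      rw [← h9]
      exact h8.map π.continuous

end Pool.Agent.K1
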