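import Pool.Agent.K1.DCentre

/-!
# A place of an algebraic extension of the function field over a point of codimension one
-/

set_option autoImplicit false

open AlgebraicGeometry CategoryTheory

namespace Pool.Agent.K1

/-- An element of an algebraic extension has a power which is, up to a unit of the valuation ring,
in the base field. -/
theorem dplc_exists_pow {K L : Type*} [Field K] [Field L] [Algebra K L]
    [Algebra.IsAlgebraic K L] (V : ValuationSubring L) (a : Lˣ) :
    ∃ (m : ℕ) (c : Kˣ) (u : Vˣ), 0 < m ∧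
      (a : L) ^ m = algebraMap K L c * ((u : V) : L) := by
  classical
  obtain ⟨p, hp0, hp⟩ := Algebra.IsAlgebraic.isAlgebraic (R := K) (a : L)
  have ha0 : (a : L) ≠ 0 := a.ne_zero
  have hsupp : p.support.Nonempty := Polynomial.support_nonempty.2 hp0
  set t : ℕ → L := fun i => algebraMap K L (p.coeff i) * (a : L) ^ i with ht
  have hsum : ∑ i ∈ p.support, t i = 0 := by
    rw [Polynomial.aeval_eq_sum_range'] at hp
    swap
    · exact Nat.lt_succ_self _
    rw [← hp]
    have hsub : p.support ⊆ Finset.range (p.natDegree + 1) := by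
      intro i hi
      rw [Finset.mem_range, Nat.lt_succ_iff]
      exact Polynomial.le_natDegree_of_mem_supp i hi
    rw [← Finset.sum_subset hsub]
    · refine Finset.sum_congr rfl fun i _ => ?_
      rw [ht, Algebra.smul_def]
    · intro i _ hi
      rw [Polynomial.notMem_support_iff.1 hi, zero_smul]
  have ht0 : ∀ i ∈ p.support, t i ≠ 0 := by
    intro i hi
    refine mul_ne_zero ?_ (pow_ne_zero _ ha0)
    rw [map_ne_zero]
    exact Polynomial.mem_support_iff.1 hi
  obtain ⟨i0, hi0, hmax⟩ := Finset.exists_max_image p.support (fun i => V.valuation (t i)) hsupp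
  obtain ⟨k, hk, hki, hval⟩ : ∃ k ∈ p.support, k ≠ i0 ∧
      V.valuation (t k) = V.valuation (t i0) := by
    by_contra hcon
    push Not at hcon
    have h1 : V.valuation (∑ i ∈ p.support.erase i0, t i) < V.valuation (t i0) := by
      refine Valuation.map_sum_lt _ ?_ ?_
      · rw [Valuation.ne_zero_iff]
        exact ht0 i0 hi0
      · intro i hi
        rw [Finset.mem_erase] at hi
        exact lt_of_le_of_ne (hmax i hi.2) (hcon i hi.2 hi.1)
    have h2 : ∑ i ∈ p.support.erase i0, t i = - t i0 := by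
      rw [← Finset.add_sum_erase _ _ hi0] at hsum
      exact eq_neg_of_add_eq_zero_right hsum
    rw [h2, Valuation.map_neg] at h1
    exact lt_irrefl _ h1
  -- two terms with the same value
  have key : ∀ i k : ℕ, i ∈ p.support → k ∈ p.support → i < k →
      V.valuation (t i) = V.valuation (t k) → ∃ (m : ℕ) (c : Kˣ) (u : Vˣ), 0 < m ∧
      (a : L) ^ m = algebraMap K L c * ((u : V) : L) := by
    intro i k hi hk hik hv
    have hci : p.coeff i ≠ 0 := Polynomial.mem_support_iff.1 hi
    have hck : p.coeff k ≠ 0 := Polynomial.mem_support_iff.1 hk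
    have hci' : algebraMap K L (p.coeff i) ≠ 0 := by rw [map_ne_zero]; exact hci
    have hck' : algebraMap K L (p.coeff k) ≠ 0 := by rw [map_ne_zero]; exact hck
    have hti := ht0 i hi
    have htk := ht0 k hk
    have hv1 : V.valuation (t k / t i) = 1 := by
      rw [map_div₀, hv, div_self]
      rw [Valuation.ne_zero_iff]
      exact htk
    obtain ⟨u, hu⟩ : ∃ u : Vˣ, ((u : V) : L) = t k / t i := by
      have hmem : t k / t i ∈ V := by
        rw [← V.valuation_le_one_iff, hv1]
      have hmem' : (t k / t i)⁻¹ ∈ V := by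
        rw [← V.valuation_le_one_iff, map_inv₀, hv1, inv_one]
      have := (dcen_isUnit_iff V ⟨_, hmem⟩ (div_ne_zero htk hti)).2 hmem'
      obtain ⟨u, hu⟩ := this
      exact ⟨u, by rw [hu]⟩
    refine ⟨k - i, Units.mk0 _ (div_ne_zero hci hck), u, Nat.sub_pos_of_lt hik, ?_⟩
    rw [hu, Units.val_mk0, map_div₀, ht]
    have hpow : (a : L) ^ k = (a : L) ^ (k - i) * (a : L) ^ i := by
      rw [← pow_add, Nat.sub_add_cancel hik.le]
    have hai : (a : L) ^ i ≠ 0 := pow_ne_zero _ ha0
    simp only
    rw [hpow]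
    field_simp
  rcases lt_or_gt_of_ne hki with h | h
  · exact key k i0 hk hi0 h hval
  · exact key i0 k hi0 hk h hval.symm

/-- Extension of a valuation with values in `ℚ` to an algebraic extension. -/
theorem dplc_extend {K L : Type*} [Field K] [Field L] [Algebra K L]
    [Algebra.IsAlgebraic K L] (V : ValuationSubring L) (w : Kˣ → ℚ)
    (hw : ∀ f g, w (f * g) = w f + w g)
    (hV : ∀ f : Kˣ, algebraMap K L f ∈ V ↔ 0 ≤ w f) :
    ∃ v : Additive Lˣ →+ ℚ, (∀ a : Lˣ, (a : L) ∈ V ↔ 0 ≤ v (Additive.ofMul a)) ∧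
      ∀ f : Kˣ, v (Additive.ofMul (Units.map (algebraMap K L).toMonoidHom f)) = w f := by
  classical
  have hw1 : w 1 = 0 := by
    have h := hw 1 1
    rw [one_mul] at h
    linarith
  have hwinv : ∀ f, w f⁻¹ = - w f := by
    intro f
    have h := hw f f⁻¹
    rw [mul_inv_cancel, hw1] at h
    linarith
  have hwpow : ∀ (f : Kˣ) (n : ℕ), w (f ^ n) = n * w f := by
    intro f n
    induction n with
    | zero => simp [hw1]
    | succ n ih => rw [pow_succ, hw, ih]; push_cast; ring
  -- an element of `K` which is a unit of `V` has value zero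
  have hunit : ∀ (c : Kˣ) (u : Vˣ), algebraMap K L c = ((u : V) : L) → w c = 0 := by
    intro c u h
    have h1 : 0 ≤ w c := by
      rw [← hV, h]
      exact (u : V).2
    have h2 : 0 ≤ w c⁻¹ := by
      rw [← hV, Units.val_inv_eq_inv_val, map_inv₀, h]
      have h3 : ((u : V) : L) * (((u⁻¹ : Vˣ) : V) : L) = 1 := by
        rw [← V.coe_mul, Units.mul_inv]; rfl
      rw [inv_eq_of_mul_eq_one_right h3]
      exact ((u⁻¹ : Vˣ) : V).2
    rw [hwinv] at h2
    linarith
  have hucoe : ∀ u u' : Vˣ, (((u * u' : Vˣ) : V) : L) = ((u : V) : L) * ((u' : V) : L) := by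
    intro u u'; rw [Units.val_mul, V.coe_mul]
  have hupow : ∀ (u : Vˣ) (n : ℕ), (((u ^ n : Vˣ) : V) : L) = ((u : V) : L) ^ n := by
    intro u n
    induction n with
    | zero => simp
    | succ n ih => rw [pow_succ, hucoe, ih, pow_succ]
  have hu0 : ∀ u : Vˣ, ((u : V) : L) ≠ 0 := by
    intro u h
    have h3 : ((u : V) : L) * (((u⁻¹ : Vˣ) : V) : L) = 1 := by
      rw [← V.coe_mul, Units.mul_inv]; rfl
    rw [h, zero_mul] at h3
    exact zero_ne_one h3
  have huinv : ∀ u : Vˣ, (((u⁻¹ : Vˣ) : V) : L) = ((u : V) : L)⁻¹ := by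
    intro u
    have h3 : ((u : V) : L) * (((u⁻¹ : Vˣ) : V) : L) = 1 := by
      rw [← V.coe_mul, Units.mul_inv]; rfl
    exact (inv_eq_of_mul_eq_one_right h3).symm
  -- well defined
  have hwd : ∀ (c c' : Kˣ) (u u' : Vˣ),
      algebraMap K L c * ((u : V) : L) = algebraMap K L c' * ((u' : V) : L) → w c = w c' := by
    intro c c' u u' h
    have hc' : algebraMap K L c' ≠ 0 := by rw [map_ne_zero]; exact c'.ne_zero
    have h1 : algebraMap K L ((c * c'⁻¹ : Kˣ) : K) = (((u' * u⁻¹ : Vˣ) : V) : L) := by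
      rw [hucoe, huinv, Units.val_mul, Units.val_inv_eq_inv_val, map_mul, map_inv₀]
      rw [← div_eq_mul_inv, ← div_eq_mul_inv, div_eq_div_iff hc' (hu0 u), h, mul_comm]
    have h2 := hunit _ _ h1
    rw [hw, hwinv] at h2
    linarith
  choose m c u hm hmc using dplc_exists_pow (K := K) V
  have hval : ∀ (a : Lˣ) (n : ℕ) (d : Kˣ) (z : Vˣ), 0 < n →
      (a : L) ^ n = algebraMap K L d * ((z : V) : L) → w (c a) / m a = w d / n := by
    intro a n d z hn h
    have hm' : (m a : ℚ) ≠ 0 := by exact_mod_cast (hm a).ne'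
    have hn' : (n : ℚ) ≠ 0 := by exact_mod_cast hn.ne'
    rw [div_eq_div_iff hm' hn']
    have h1 : algebraMap K L ((c a ^ n : Kˣ) : K) * ((((u a) ^ n : Vˣ) : V) : L) =
        algebraMap K L ((d ^ m a : Kˣ) : K) * (((z ^ m a : Vˣ) : V) : L) := by
      rw [hupow, hupow, Units.val_pow_eq_pow_val, Units.val_pow_eq_pow_val, map_pow, map_pow,
        ← mul_pow, ← mul_pow, ← hmc, ← h, ← pow_mul, ← pow_mul, mul_comm]
    have h2 := hwd _ _ _ _ h1
    rw [hwpow, hwpow] at h2
    linarith
  refine ⟨AddMonoidHom.mk' (fun a => w (c a.toMul) / m a.toMul) ?_, ?_, ?_⟩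
  · intro a b
    induction a using Additive.rec with
    | ofMul a =>
    induction b using Additive.rec with
    | ofMul b =>
    have hma : (m a : ℚ) ≠ 0 := by exact_mod_cast (hm a).ne'
    have hmb : (m b : ℚ) ≠ 0 := by exact_mod_cast (hm b).ne'
    have h1 := hval (a * b) (m a * m b) (c a ^ m b * c b ^ m a) (u a ^ m b * u b ^ m a)
      (Nat.mul_pos (hm a) (hm b)) (by
        rw [Units.val_mul, mul_pow, hucoe, hupow, hupow, Units.val_mul, map_mul,
          Units.val_pow_eq_pow_val, Units.val_pow_eq_pow_val, map_pow, map_pow, pow_mul, hmc a,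
          mul_comm (m a) (m b), pow_mul, hmc b]
        ring)
    rw [hw, hwpow, hwpow] at h1
    change w (c (a * b)) / m (a * b) = w (c a) / m a + w (c b) / m b
    rw [h1]
    push_cast
    field_simp
    try ring
  · intro a
    change (a : L) ∈ V ↔ 0 ≤ w (c a) / m a
    have hma : (0 : ℚ) < (m a : ℚ) := by exact_mod_cast (hm a)
    rw [le_div_iff₀ hma, zero_mul, ← hV]
    have h1 : (a : L) ∈ V ↔ (a : L) ^ (m a) ∈ V := by
      constructor
      · intro h; exact pow_mem h _
      · intro h
        rw [← V.valuation_le_one_iff] at h ⊢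
        rw [map_pow] at h
        by_contra hcon
        push Not at hcon
        exact absurd h (not_le.2 (one_lt_pow₀ hcon (hm a).ne'))
    rw [h1, hmc a]
    constructor
    · intro h
      have h2 := V.mul_mem _ _ h ((u a)⁻¹ : Vˣ).1.2
      rw [huinv, mul_assoc, mul_inv_cancel₀ (hu0 _), mul_one] at h2
      exact h2
    · intro h
      exact V.mul_mem _ _ h (u a : V).2
  · intro f
    have h1 := hval (Units.map (algebraMap K L).toMonoidHom f) 1 f 1 one_pos (by
      rw [pow_one]
      simp)
    rw [Nat.cast_one, div_one] at h1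
    exact h1

/-- There is a place of `L` over the point `x`. -/
theorem exists_place {X : Scheme.{0}} [IsIntegral X] [IsLocallyNoetherian X]
    (hX : ∀ x : X, IsRegularLocalRing (X.presheaf.stalk x)) (x : X)
    (hx : Order.coheight x = 1) {L : Type} [Field L] (j : X.functionField →+* L)
    (hj : letI := j.toAlgebra; Algebra.IsAlgebraic X.functionField L) :
    ∃ (V : ValuationSubring L) (v : Additive Lˣ →+ ℚ),
      (∀ a : Lˣ, (a : L) ∈ V ↔ 0 ≤ v (Additive.ofMul a)) ∧
      ∀ f : X.functionFieldˣ, v (Additive.ofMul (Units.map j.toMonoidHom f)) =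
        X.ord (f : X.functionField) x := by
  have hdvr := af_dvr (hX x) hx
  have hloc : IsLocalRing (X.presheaf.stalk x) := inferInstance
  have hinj : Function.Injective (algebraMap (X.presheaf.stalk x) X.functionField) :=
    IsFractionRing.injective (X.presheaf.stalk x) X.functionField
  set i : X.presheaf.stalk x →+* L := j.comp (algebraMap (X.presheaf.stalk x) X.functionField)
    with hi
  have hiinj : Function.Injective i := j.injective.comp hinj
  obtain ⟨V, hV1, hV2⟩ := LocalSubring.exists_le_valuationSubring (LocalSubring.range i)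
  have hmem : ∀ s, i s ∈ V := fun s => hV1 ⟨s, rfl⟩
  have hunit : ∀ s, s ≠ 0 → (i s)⁻¹ ∈ V → IsUnit s := by
    intro s hs h
    have h0 : i s ≠ 0 := (map_ne_zero_iff i hiinj).2 hs
    have h1 := (dcen_isUnit_iff V ⟨i s, hmem s⟩ h0).2 h
    have h2 : IsUnit (⟨i s, ⟨s, rfl⟩⟩ : (LocalSubring.range i).toSubring) := hV2.map_nonunit _ h1
    obtain ⟨⟨b, s', rfl⟩, hb⟩ := isUnit_iff_exists_inv.1 h2
    refine isUnit_iff_exists_inv.2 ⟨s', hiinj ?_⟩
    have h3 := congrArg Subtype.val hb
    rw [map_mul, map_one]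
    exact h3
  obtain ⟨t, ht⟩ := IsDiscreteValuationRing.exists_irreducible (X.presheaf.stalk x)
  have ht0 : algebraMap (X.presheaf.stalk x) X.functionField t ≠ 0 :=
    (map_ne_zero_iff _ hinj).2 ht.ne_zero
  let _ := j.toAlgebra
  have : Algebra.IsAlgebraic X.functionField L := hj
  have hVw : ∀ f : X.functionFieldˣ, algebraMap X.functionField L f ∈ V ↔
      0 ≤ ((X.ord (f : X.functionField) x : ℤ) : ℚ) := by
    intro f
    rw [Int.cast_nonneg_iff]
    change j (f : X.functionField) ∈ V ↔ _
    obtain ⟨u, hu⟩ := dcen_unit_mul hx (hX x) t ht (f : X.functionField) f.ne_zero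
    constructor
    · intro h
      by_contra hneg
      push Not at hneg
      apply ht.not_isUnit
      refine hunit t ht.ne_zero ?_
      obtain ⟨n, hn⟩ : ∃ n : ℕ, X.ord (f : X.functionField) x = -((n : ℤ) + 1) := by
        obtain ⟨n, hn⟩ := Int.exists_eq_neg_ofNat hneg.le
        cases n with
        | zero => simp at hn; omega
        | succ n => exact ⟨n, by rw [hn]; push_cast; ring⟩
      have h1 := V.mul_mem _ _ (V.mul_mem _ _ h (hmem (t ^ n))) (hmem ((u⁻¹ : (X.presheaf.stalk x)ˣ)))
      have h2 : j (f : X.functionField) * i (t ^ n) * i ((u⁻¹ : (X.presheaf.stalk x)ˣ)) =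
          (i t)⁻¹ := by
        have hu1 : i (u : X.presheaf.stalk x) * i ((u⁻¹ : (X.presheaf.stalk x)ˣ)) = 1 := by
          rw [← map_mul, Units.mul_inv, map_one]
        have ht' : i t ≠ 0 := (map_ne_zero_iff i hiinj).2 ht.ne_zero
        rw [← hu, hn, map_mul, map_zpow₀, map_pow]
        change i (u : X.presheaf.stalk x) * (i t) ^ (-((n : ℤ) + 1)) * (i t) ^ n *
          i ((u⁻¹ : (X.presheaf.stalk x)ˣ)) = (i t)⁻¹
        have h3 : (i t) ^ (-((n : ℤ) + 1)) * (i t) ^ n = (i t)⁻¹ := by
          rw [← zpow_natCast, ← zpow_add₀ ht']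
          have : (-((n : ℤ) + 1) + (n : ℤ)) = -1 := by ring
          rw [this, zpow_neg_one]
        calc i (u : X.presheaf.stalk x) * (i t) ^ (-((n : ℤ) + 1)) * (i t) ^ n *
              i ((u⁻¹ : (X.presheaf.stalk x)ˣ))
            = (i (u : X.presheaf.stalk x) * i ((u⁻¹ : (X.presheaf.stalk x)ˣ))) *
              ((i t) ^ (-((n : ℤ) + 1)) * (i t) ^ n) := by ring
          _ = (i t)⁻¹ := by rw [hu1, h3, one_mul]
      rw [h2] at h1
      exact h1
    · intro h
      obtain ⟨n, hn⟩ := Int.eq_ofNat_of_zero_le h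
      have h1 : j (f : X.functionField) = i ((u : X.presheaf.stalk x) * t ^ n) := by
        rw [← hu, hn, zpow_natCast, hi, RingHom.comp_apply, map_mul, map_mul, map_pow, map_mul,
          map_pow, map_pow]
      rw [h1]
      exact hmem _
  obtain ⟨v, hv1, hv2⟩ := dplc_extend V (fun f : X.functionFieldˣ =>
    ((X.ord (f : X.functionField) x : ℤ) : ℚ)) (by
      intro f g
      have h := Scheme.ord_mul (x := x) f.ne_zero g.ne_zero
      rw [Units.val_mul, h]
      push_cast
      rfl) hVw
  exact ⟨V, v, hv1, hv2⟩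

end Pool.Agent.K1
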