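import Pool.Agent.K1.DescentT

/-!
The rational tame symbol of a valuation ring with rational value group.
-/

set_option autoImplicit false

namespace Pool.Agent.K1

/-- A rational valuation of `L` with valuation ring `V`. -/
structure RatVal {L : Type*} [Field L] (V : ValuationSubring L) where
  v : L → ℚ
  map_mul : ∀ a b : L, a ≠ 0 → b ≠ 0 → v (a * b) = v a + v b
  nonneg_iff : ∀ a : L, a ≠ 0 → (0 ≤ v a ↔ a ∈ V)

/-- The group `κ(V)ˣ ⊗ ℚ`. -/
abbrev ResQ {L : Type*} [Field L] (V : ValuationSubring L) : Type _ :=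
  LocalizedModule (nonZeroDivisors ℤ) (Additive (IsLocalRing.ResidueField V)ˣ)

/-- The class in `κ(V)ˣ ⊗ ℚ` of a unit of `V`. -/
noncomputable def clV {L : Type*} [Field L] (V : ValuationSubring L) (u : Vˣ) : ResQ V :=
  LocalizedModule.mk (Additive.ofMul (Units.map (IsLocalRing.residue V).toMonoidHom u)) 1

namespace RatVal

variable {L : Type*} [Field L] {V : ValuationSubring L} (R : RatVal V)

lemma map_one : R.v 1 = 0 := by
  have := R.map_mul 1 1 one_ne_zero one_ne_zero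
  rw [mul_one] at this
  linarith

lemma map_neg_one : R.v (-1) = 0 := by
  have := R.map_mul (-1) (-1) (neg_ne_zero.mpr one_ne_zero) (neg_ne_zero.mpr one_ne_zero)
  rw [neg_mul_neg, one_mul, R.map_one] at this
  linarith

lemma map_neg {a : L} (ha : a ≠ 0) : R.v (-a) = R.v a := by
  have := R.map_mul (-1) a (neg_ne_zero.mpr one_ne_zero) ha
  rw [neg_one_mul, R.map_neg_one, zero_add] at this
  exact this

lemma map_inv {a : L} (ha : a ≠ 0) : R.v a⁻¹ = - R.v a := by
  have := R.map_mul a a⁻¹ ha (inv_ne_zero ha)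
  rw [mul_inv_cancel₀ ha, R.map_one] at this
  linarith

lemma map_div {a b : L} (ha : a ≠ 0) (hb : b ≠ 0) : R.v (a / b) = R.v a - R.v b := by
  rw [div_eq_mul_inv, R.map_mul _ _ ha (inv_ne_zero hb), R.map_inv hb, sub_eq_add_neg]

lemma map_pow {a : L} (ha : a ≠ 0) (n : ℕ) : R.v (a ^ n) = n * R.v a := by
  induction n with
  | zero => rw [pow_zero, R.map_one, Nat.cast_zero, zero_mul]
  | succ n ih => rw [pow_succ, R.map_mul _ _ (pow_ne_zero n ha) ha, ih]; push_cast; ring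

lemma map_zpow {a : L} (ha : a ≠ 0) (n : ℤ) : R.v (a ^ n) = n * R.v a := by
  obtain ⟨m, rfl | rfl⟩ := n.eq_nat_or_neg
  · rw [zpow_natCast, R.map_pow ha]; push_cast; ring
  · rw [zpow_neg, zpow_natCast, R.map_inv (pow_ne_zero m ha), R.map_pow ha]; push_cast; ring

/-- An element of value `0` is a unit. -/
lemma exists_unit {a : L} (ha : a ≠ 0) (h : R.v a = 0) : ∃ u : Vˣ, ((u : V) : L) = a := by
  have h1 : a ∈ V := (R.nonneg_iff a ha).mp h.ge
  have h2 : a⁻¹ ∈ V := (R.nonneg_iff _ (inv_ne_zero ha)).mp (by rw [R.map_inv ha, h, neg_zero])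
  refine ⟨⟨⟨a, h1⟩, ⟨a⁻¹, h2⟩, ?_, ?_⟩, rfl⟩
  · exact Subtype.ext (mul_inv_cancel₀ ha)
  · exact Subtype.ext (inv_mul_cancel₀ ha)

lemma unit_ne_zero (u : Vˣ) : ((u : V) : L) ≠ 0 := fun h => u.ne_zero (Subtype.ext h)

lemma coe_zpow (u : Vˣ) (p : ℤ) : (((u ^ p : Vˣ) : V) : L) = ((u : V) : L) ^ p := by
  have := congrArg Units.val (_root_.map_zpow (Units.map V.subtype.toMonoidHom) u p)
  rw [Units.val_zpow_eq_zpow_val] at this
  exact this

lemma map_unit (u : Vˣ) : R.v ((u : V) : L) = 0 := by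
  have h0 := unit_ne_zero u
  have h1 : 0 ≤ R.v ((u : V) : L) := (R.nonneg_iff _ h0).mpr (u : V).2
  have h2 : 0 ≤ R.v (((u⁻¹ : Vˣ) : V) : L) :=
    (R.nonneg_iff _ (unit_ne_zero _)).mpr ((u⁻¹ : Vˣ) : V).2
  have h3 : (((u⁻¹ : Vˣ) : V) : L) = ((u : V) : L)⁻¹ := by
    apply eq_inv_of_mul_eq_one_left
    have := congrArg (Subtype.val) (u.inv_mul)
    exact this
  rw [h3, R.map_inv h0] at h2
  linarith

/-- `z` is the value of the rational tame symbol of `a`, `b`. -/
def Rel (a b : L) (z : ResQ V) : Prop :=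
  ∃ (n : nonZeroDivisors ℤ) (p q : ℤ) (u : Vˣ), ((n : ℤ) : ℚ) * R.v a = p ∧
    ((n : ℤ) : ℚ) * R.v b = q ∧ a ^ q = b ^ p * ((u : V) : L) ∧
    z = LocalizedModule.mk (Additive.ofMul (Units.map (IsLocalRing.residue V).toMonoidHom u)) n

lemma exists_den (s : Finset ℚ) : ∃ n : nonZeroDivisors ℤ, ∀ x ∈ s, ∃ p : ℤ,
    ((n : ℤ) : ℚ) * x = p := by
  classical
  induction s using Finset.induction_on with
  | empty => exact ⟨1, fun x hx => absurd hx (Finset.notMem_empty x)⟩
  | insert a s _ ih =>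
    obtain ⟨n, hn⟩ := ih
    have hd : (a.den : ℤ) ∈ nonZeroDivisors ℤ :=
      mem_nonZeroDivisors_of_ne_zero (by exact_mod_cast a.den_ne_zero)
    refine ⟨n * ⟨(a.den : ℤ), hd⟩, fun x hx => ?_⟩
    rcases Finset.mem_insert.mp hx with rfl | hx
    · refine ⟨n * x.num, ?_⟩
      have : (x.den : ℚ) * x = x.num := by rw [mul_comm]; exact Rat.mul_den_eq_num x
      push_cast
      rw [mul_assoc, this]
    · obtain ⟨p, hp⟩ := hn x hx
      refine ⟨p * a.den, ?_⟩
      push_cast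
      rw [← hp]
      ring

lemma exists_unit_rel {a b : L} (ha : a ≠ 0) (hb : b ≠ 0) {n : nonZeroDivisors ℤ} {p q : ℤ}
    (hp : ((n : ℤ) : ℚ) * R.v a = p) (hq : ((n : ℤ) : ℚ) * R.v b = q) :
    ∃ u : Vˣ, a ^ q = b ^ p * ((u : V) : L) := by
  have h0 : a ^ q / b ^ p ≠ 0 := div_ne_zero (zpow_ne_zero q ha) (zpow_ne_zero p hb)
  have hv : R.v (a ^ q / b ^ p) = 0 := by
    rw [R.map_div (zpow_ne_zero q ha) (zpow_ne_zero p hb), R.map_zpow ha, R.map_zpow hb, ← hp,
      ← hq]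
    ring
  obtain ⟨u, hu⟩ := R.exists_unit h0 hv
  refine ⟨u, ?_⟩
  rw [hu, mul_div_cancel₀ _ (zpow_ne_zero p hb)]

lemma rel_unique {a b : L} (hb : b ≠ 0) {z z' : ResQ V} (h : R.Rel a b z)
    (h' : R.Rel a b z') : z = z' := by
  obtain ⟨n, p, q, u, hp, hq, hu, rfl⟩ := h
  obtain ⟨n', p', q', u', hp', hq', hu', rfl⟩ := h'
  have e1 : q * n' = q' * n := by
    have : ((q * n' : ℤ) : ℚ) = ((q' * n : ℤ) : ℚ) := by
      push_cast
      rw [← hq, ← hq']
      ring
    exact_mod_cast this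
  have e2 : p * n' = p' * n := by
    have : ((p * n' : ℤ) : ℚ) = ((p' * n : ℤ) : ℚ) := by
      push_cast
      rw [← hp, ← hp']
      ring
    exact_mod_cast this
  have key : u ^ (n' : ℤ) = u' ^ (n : ℤ) := by
    have hL : ((u : V) : L) ^ (n' : ℤ) = ((u' : V) : L) ^ (n : ℤ) := by
      have f1 : ((u : V) : L) = a ^ q / b ^ p := by
        rw [hu, mul_div_cancel_left₀ _ (zpow_ne_zero p hb)]
      have f2 : ((u' : V) : L) = a ^ q' / b ^ p' := by
        rw [hu', mul_div_cancel_left₀ _ (zpow_ne_zero p' hb)]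
      rw [f1, f2, div_zpow, div_zpow, ← zpow_mul, ← zpow_mul, ← zpow_mul, ← zpow_mul, e1, e2]
    have hi : Function.Injective (Units.map V.subtype.toMonoidHom) :=
      Units.map_injective Subtype.val_injective
    apply hi
    rw [_root_.map_zpow, _root_.map_zpow]
    ext
    rw [Units.val_zpow_eq_zpow_val, Units.val_zpow_eq_zpow_val]
    exact hL
  rw [LocalizedModule.mk_eq]
  refine ⟨1, ?_⟩
  rw [one_smul, one_smul, Submonoid.smul_def, Submonoid.smul_def, ← ofMul_zpow, ← ofMul_zpow,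
    ← _root_.map_zpow, ← _root_.map_zpow, key]

/-- The rational tame symbol. -/
noncomputable def phi (a b : L) : ResQ V :=
  open scoped Classical in if h : ∃ z, R.Rel a b z then h.choose else 0

lemma phi_spec {a b : L} (hb : b ≠ 0) {n : nonZeroDivisors ℤ} {p q : ℤ} {u : Vˣ}
    (hp : ((n : ℤ) : ℚ) * R.v a = p) (hq : ((n : ℤ) : ℚ) * R.v b = q)
    (hu : a ^ q = b ^ p * ((u : V) : L)) :
    R.phi a b = LocalizedModule.mk
      (Additive.ofMul (Units.map (IsLocalRing.residue V).toMonoidHom u)) n := by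
  have h : ∃ z, R.Rel a b z := ⟨_, n, p, q, u, hp, hq, hu, rfl⟩
  rw [phi, dif_pos h]
  exact R.rel_unique hb h.choose_spec ⟨n, p, q, u, hp, hq, hu, rfl⟩

lemma mk_add_same {M : Type*} [AddCommGroup M] (m m' : M) (n : nonZeroDivisors ℤ) :
    (LocalizedModule.mk m n + LocalizedModule.mk m' n : LocalizedModule (nonZeroDivisors ℤ) M) =
      LocalizedModule.mk (m + m') n := by
  rw [LocalizedModule.mk_add_mk, ← smul_add, LocalizedModule.mk_cancel_common_left]

lemma mk_eq_zero_of_smul {M : Type*} [AddCommGroup M] (m : M) (n k : nonZeroDivisors ℤ)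
    (h : (k : ℤ) • m = 0) : (LocalizedModule.mk m n : LocalizedModule (nonZeroDivisors ℤ) M) = 0 := by
  rw [← LocalizedModule.zero_mk n, LocalizedModule.mk_eq]
  refine ⟨k, ?_⟩
  rw [smul_zero, smul_zero, smul_comm, Submonoid.smul_def k, h, smul_zero]

lemma two_torsion {M : Type*} [AddCommGroup M] (z : LocalizedModule (nonZeroDivisors ℤ) M)
    (h : z + z = 0) : z = 0 := by
  induction z using LocalizedModule.induction_on with
  | h m n =>
    rw [mk_add_same, ← LocalizedModule.zero_mk n, LocalizedModule.mk_eq] at h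
    obtain ⟨k, hk⟩ := h
    rw [smul_zero, smul_zero] at hk
    have h2 : (2 : ℤ) ∈ nonZeroDivisors ℤ := mem_nonZeroDivisors_of_ne_zero two_ne_zero
    refine mk_eq_zero_of_smul m n (k * n * ⟨2, h2⟩) ?_
    rw [← Submonoid.smul_def, mul_smul, mul_smul]
    rw [← hk, Submonoid.smul_def (⟨2, h2⟩ : nonZeroDivisors ℤ) m]
    congr 2
    exact two_smul ℤ m

/-- The integral case: on pairs of elements of integral values the rational tame symbol is the
class of the usual one. -/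
lemma phi_eq {a b : L} (hb : b ≠ 0) {p q : ℤ} {u : Vˣ} (hp : R.v a = p)
    (hq : R.v b = q) (hu : a ^ q = (-1) ^ (p * q) * b ^ p * ((u : V) : L)) :
    R.phi a b = clV V u := by
  have h3 : a ^ q = b ^ p * ((((-1) ^ (p * q) * u : Vˣ) : V) : L) := by
    rw [hu, Units.val_mul]
    have : ((((-1 : Vˣ) ^ (p * q) : Vˣ) : V) : L) = (-1) ^ (p * q) := by
      rcases Int.even_or_odd (p * q) with he | ho
      · rw [he.neg_one_zpow, he.neg_one_zpow]; rfl
      · rw [ho.neg_one_zpow, ho.neg_one_zpow]; rfl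
    push_cast
    rw [this]
    ring
  rw [R.phi_spec (n := 1) hb (by push_cast; rw [hp, one_mul]) (by push_cast; rw [hq, one_mul])
    h3, _root_.map_mul, ofMul_mul, ← mk_add_same, clV, add_eq_right]
  have h2 : (2 : ℤ) ∈ nonZeroDivisors ℤ := mem_nonZeroDivisors_of_ne_zero two_ne_zero
  refine mk_eq_zero_of_smul _ 1 ⟨2, h2⟩ ?_
  change (2 : ℤ) • _ = _
  rw [← ofMul_zpow, ← _root_.map_zpow, ← zpow_mul, mul_comm (p * q) 2, zpow_mul]
  have : (-1 : Vˣ) ^ (2 : ℤ) = 1 := by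
    rw [show (2 : ℤ) = ((2 : ℕ) : ℤ) from rfl, zpow_natCast]
    simp
  rw [this, one_zpow, _root_.map_one, ofMul_one]

lemma phi_mul_left {a b c : L} (ha : a ≠ 0) (hb : b ≠ 0) (hc : c ≠ 0) :
    R.phi (a * b) c = R.phi a c + R.phi b c := by
  obtain ⟨n, hn⟩ := exists_den {R.v a, R.v b, R.v c}
  obtain ⟨p, hp⟩ := hn (R.v a) (by simp)
  obtain ⟨p', hp'⟩ := hn (R.v b) (by simp)
  obtain ⟨q, hq⟩ := hn (R.v c) (by simp)
  obtain ⟨u, hu⟩ := R.exists_unit_rel ha hc hp hq
  obtain ⟨u', hu'⟩ := R.exists_unit_rel hb hc hp' hq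
  have h3 : (a * b) ^ q = c ^ (p + p') * (((u * u' : Vˣ) : V) : L) := by
    rw [mul_zpow, hu, hu', zpow_add₀ hc]
    push_cast
    ring
  rw [R.phi_spec hc hp hq hu, R.phi_spec hc hp' hq hu',
    R.phi_spec hc (p := p + p') (by
      rw [R.map_mul _ _ ha hb]; push_cast; rw [← hp, ← hp']; ring) hq h3, mk_add_same,
    ← ofMul_mul, ← _root_.map_mul]

lemma phi_mul_right {a b c : L} (ha : a ≠ 0) (hb : b ≠ 0) (hc : c ≠ 0) :
    R.phi a (b * c) = R.phi a b + R.phi a c := by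
  obtain ⟨n, hn⟩ := exists_den {R.v a, R.v b, R.v c}
  obtain ⟨p, hp⟩ := hn (R.v a) (by simp)
  obtain ⟨q, hq⟩ := hn (R.v b) (by simp)
  obtain ⟨q', hq'⟩ := hn (R.v c) (by simp)
  obtain ⟨u, hu⟩ := R.exists_unit_rel ha hb hp hq
  obtain ⟨u', hu'⟩ := R.exists_unit_rel ha hc hp hq'
  have h3 : a ^ (q + q') = (b * c) ^ p * (((u * u' : Vˣ) : V) : L) := by
    rw [mul_zpow, zpow_add₀ ha, hu, hu']
    push_cast
    ring
  rw [R.phi_spec hb hp hq hu, R.phi_spec hc hp hq' hu',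
    R.phi_spec (mul_ne_zero hb hc) (q := q + q') hp (by
      rw [R.map_mul _ _ hb hc]; push_cast; rw [← hq, ← hq']; ring) h3, mk_add_same,
    ← ofMul_mul, ← _root_.map_mul]

lemma residue_eq_zero {x : V} (h : (x : L) = 0 ∨ 0 < R.v (x : L)) :
    IsLocalRing.residue V x = 0 := by
  rw [IsLocalRing.residue_eq_zero_iff, IsLocalRing.mem_maximalIdeal, mem_nonunits_iff]
  rintro ⟨u, rfl⟩
  rcases h with h | h
  · exact unit_ne_zero u h
  · rw [R.map_unit u] at h
    exact lt_irrefl _ h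

/-- If `a + b = 1` and `a` has positive value then `b` is a unit with residue `1`. -/
lemma exists_unit_of_pos {a b : L} (ha : a ≠ 0) (hab : a + b = 1) (h : 0 < R.v a) :
    ∃ u : Vˣ, ((u : V) : L) = b ∧ Units.map (IsLocalRing.residue V).toMonoidHom u = 1 := by
  have haV : a ∈ V := (R.nonneg_iff a ha).mp h.le
  have hb : b = 1 - a := by rw [← hab]; ring
  have hbV : b ∈ V := hb ▸ V.sub_mem V.one_mem haV
  have hr : IsLocalRing.residue V (⟨b, hbV⟩ : V) = 1 := by
    have e : (⟨b, hbV⟩ : V) = 1 - ⟨a, haV⟩ := Subtype.ext hb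
    rw [e, _root_.map_sub, _root_.map_one, R.residue_eq_zero (x := ⟨a, haV⟩) (Or.inr h), sub_zero]
  have hu : IsUnit (⟨b, hbV⟩ : V) := by
    by_contra hn
    have : (⟨b, hbV⟩ : V) ∈ IsLocalRing.maximalIdeal V := by
      rw [IsLocalRing.mem_maximalIdeal]; exact hn
    rw [← IsLocalRing.residue_eq_zero_iff, hr] at this
    exact one_ne_zero this
  obtain ⟨u, hu⟩ := hu
  refine ⟨u, by rw [hu], ?_⟩
  ext
  rw [Units.coe_map, hu]
  exact hr

lemma phi_eq_zero_of_pos_left {a b : L} (ha : a ≠ 0) (hb : b ≠ 0) (hab : a + b = 1)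
    (h : 0 < R.v a) : R.phi a b = 0 := by
  obtain ⟨u, hu, hr⟩ := R.exists_unit_of_pos ha hab h
  obtain ⟨n, hn⟩ := exists_den {R.v a}
  obtain ⟨p, hp⟩ := hn (R.v a) (by simp)
  have hb0 : R.v b = 0 := by rw [← hu]; exact R.map_unit u
  have h3 : a ^ (0 : ℤ) = b ^ p * (((u ^ (-p) : Vˣ) : V) : L) := by
    rw [zpow_zero, coe_zpow, zpow_neg, ← hu, mul_inv_cancel₀ (zpow_ne_zero p (unit_ne_zero u))]
  rw [R.phi_spec hb hp (q := 0) (by rw [hb0]; simp) h3, _root_.map_zpow, hr, one_zpow,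
    ofMul_one, LocalizedModule.zero_mk]

lemma phi_eq_zero_of_pos_right {a b : L} (hb : b ≠ 0) (hab : a + b = 1)
    (h : 0 < R.v b) : R.phi a b = 0 := by
  obtain ⟨u, hu, hr⟩ := R.exists_unit_of_pos hb (by rw [add_comm]; exact hab) h
  obtain ⟨n, hn⟩ := exists_den {R.v b}
  obtain ⟨q, hq⟩ := hn (R.v b) (by simp)
  have ha0 : R.v a = 0 := by rw [← hu]; exact R.map_unit u
  have h3 : a ^ q = b ^ (0 : ℤ) * (((u ^ q : Vˣ) : V) : L) := by
    rw [zpow_zero, one_mul, ← hu, coe_zpow]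
  rw [R.phi_spec hb (p := 0) (by rw [ha0]; simp) hq h3, _root_.map_zpow, hr, one_zpow,
    ofMul_one, LocalizedModule.zero_mk]

lemma phi_one_left {c : L} (hc : c ≠ 0) : R.phi 1 c = 0 := by
  have := R.phi_mul_left one_ne_zero one_ne_zero hc
  rw [mul_one] at this
  exact left_eq_add.mp this

lemma phi_inv_left {a c : L} (ha : a ≠ 0) (hc : c ≠ 0) : R.phi a⁻¹ c = - R.phi a c := by
  have := R.phi_mul_left ha (inv_ne_zero ha) hc
  rw [mul_inv_cancel₀ ha, R.phi_one_left hc] at this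
  exact (neg_eq_of_add_eq_zero_right this.symm).symm

lemma phi_neg_self {a : L} (ha : a ≠ 0) : R.phi a (-a) = 0 := by
  obtain ⟨n, hn⟩ := exists_den {R.v a}
  obtain ⟨p, hp⟩ := hn (R.v a) (by simp)
  have h3 : a ^ p = (-a) ^ p * ((((-1 : Vˣ) ^ p : Vˣ) : V) : L) := by
    rw [coe_zpow, ← mul_zpow]
    congr 1
    change a = -a * (-1 : L)
    ring
  rw [R.phi_spec (neg_ne_zero.mpr ha) hp (by rw [R.map_neg ha]; exact hp) h3]
  have h2 : (2 : ℤ) ∈ nonZeroDivisors ℤ := mem_nonZeroDivisors_of_ne_zero two_ne_zero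
  refine mk_eq_zero_of_smul _ n ⟨2, h2⟩ ?_
  change (2 : ℤ) • _ = _
  rw [← ofMul_zpow, ← _root_.map_zpow, ← zpow_mul, mul_comm p 2, zpow_mul]
  have : (-1 : Vˣ) ^ (2 : ℤ) = 1 := by
    rw [show (2 : ℤ) = ((2 : ℕ) : ℤ) from rfl, zpow_natCast]
    simp
  rw [this, one_zpow, _root_.map_one, ofMul_one]

lemma phi_steinberg {a : L} (ha : a ≠ 0) (hb : 1 - a ≠ 0) : R.phi a (1 - a) = 0 := by
  rcases lt_trichotomy (R.v a) 0 with h | h | h
  · have hc : 0 < R.v a⁻¹ := by rw [R.map_inv ha]; linarith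
    have hd : 1 - a⁻¹ ≠ 0 := by
      intro e
      apply hb
      have : a⁻¹ = 1 := by rw [sub_eq_zero] at e; exact e.symm
      rw [← inv_inv a, this, inv_one, sub_self]
    have e : 1 - a = -a * (1 - a⁻¹) := by field_simp; ring
    rw [e, R.phi_mul_right ha (neg_ne_zero.mpr ha) hd, R.phi_neg_self ha, zero_add]
    have h1 := R.phi_eq_zero_of_pos_left (inv_ne_zero ha) hd (by ring) hc
    rw [R.phi_inv_left ha hd, neg_eq_zero] at h1
    exact h1
  · have haV : a ∈ V := (R.nonneg_iff a ha).mp h.ge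
    have hbV : 1 - a ∈ V := V.sub_mem V.one_mem haV
    have hb0 : 0 ≤ R.v (1 - a) := (R.nonneg_iff _ hb).mpr hbV
    rcases hb0.eq_or_lt with h' | h'
    · rw [R.phi_spec (n := 1) (p := 0) (q := 0) (u := 1) hb (by rw [h]; simp)
        (by rw [← h']; simp) (by simp), _root_.map_one, ofMul_one, LocalizedModule.zero_mk]
    · exact R.phi_eq_zero_of_pos_right hb (by ring) h'
  · exact R.phi_eq_zero_of_pos_left ha hb (by ring) h

/-- The rational tame symbol is a Steinberg map. -/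
theorem isSteinberg_phi : IsSteinberg R.phi where
  mul_left _ _ _ ha hb hc := R.phi_mul_left ha hb hc
  mul_right _ _ _ ha hb hc := R.phi_mul_right ha hb hc
  steinberg _ ha hb := R.phi_steinberg ha hb
  two _ _ h := two_torsion _ h

end RatVal

lemma clV_mul {L : Type*} [Field L] (V : ValuationSubring L) (u w : Vˣ) :
    clV V (u * w) = clV V u + clV V w := by
  rw [clV, clV, clV, RatVal.mk_add_same, ← ofMul_mul, ← map_mul]

lemma clV_one {L : Type*} [Field L] (V : ValuationSubring L) : clV V 1 = 0 := by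
  rw [clV, map_one, ofMul_one, LocalizedModule.zero_mk]

lemma clV_inv {L : Type*} [Field L] (V : ValuationSubring L) (u : Vˣ) :
    clV V u⁻¹ = - clV V u := by
  have := clV_mul V u u⁻¹
  rw [mul_inv_cancel, clV_one] at this
  exact (neg_eq_of_add_eq_zero_right this.symm).symm

/-- `clV` as a homomorphism. -/
noncomputable def clVHom {L : Type*} [Field L] (V : ValuationSubring L) :
    Additive Vˣ →+ ResQ V where
  toFun u := clV V (Additive.toMul u)
  map_zero' := clV_one V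
  map_add' _ _ := clV_mul V _ _

lemma clV_zpow {L : Type*} [Field L] (V : ValuationSubring L) (u : Vˣ) (n : ℤ) :
    clV V (u ^ n) = n • clV V u :=
  (clVHom V).map_zsmul n (Additive.ofMul u)

/-- The class of a unit is zero if and only if a power of its residue is one. -/
theorem clV_eq_zero_iff {L : Type*} [Field L] (V : ValuationSubring L) (u : Vˣ) :
    clV V u = 0 ↔ ∃ n : ℕ, 0 < n ∧ IsLocalRing.residue V (u : V) ^ n = 1 := by
  rw [clV, ← LocalizedModule.zero_mk 1, LocalizedModule.mk_eq]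
  constructor
  · rintro ⟨k, hk⟩
    rw [one_smul, one_smul, Submonoid.smul_def, Submonoid.smul_def, smul_zero, ← ofMul_zpow] at hk
    have hk' : (Units.map (IsLocalRing.residue V).toMonoidHom u) ^ (k : ℤ) = 1 :=
      Additive.ofMul.injective hk
    have hk0 : (k : ℤ) ≠ 0 := nonZeroDivisors.ne_zero k.2
    refine ⟨(k : ℤ).natAbs, Int.natAbs_pos.mpr hk0, ?_⟩
    have hn : (Units.map (IsLocalRing.residue V).toMonoidHom u) ^ (k : ℤ).natAbs = 1 := by
      rcases Int.natAbs_eq (k : ℤ) with e | e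
      · rw [e, zpow_natCast] at hk'
        exact hk'
      · rw [e, zpow_neg, inv_eq_one, zpow_natCast] at hk'
        exact hk'
    have := congrArg Units.val hn
    rw [Units.val_pow_eq_pow_val] at this
    exact this
  · rintro ⟨n, hn, h⟩
    have hn' : (n : ℤ) ∈ nonZeroDivisors ℤ :=
      mem_nonZeroDivisors_of_ne_zero (by exact_mod_cast hn.ne')
    refine ⟨⟨(n : ℤ), hn'⟩, ?_⟩
    rw [one_smul, one_smul, Submonoid.smul_def, Submonoid.smul_def, smul_zero, ← ofMul_zpow]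
    have : (Units.map (IsLocalRing.residue V).toMonoidHom u) ^ (n : ℤ) = 1 := by
      rw [zpow_natCast]
      ext
      rw [Units.val_pow_eq_pow_val]
      exact h
    change Additive.ofMul ((Units.map (IsLocalRing.residue V).toMonoidHom u) ^ (n : ℤ)) = 0
    rw [this, ofMul_one]

end Pool.Agent.K1
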