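import Pool.Agent.K1.DDefs
import Pool.Agent.K1.DescentV

/-!
The rational tame symbol of a valuation of a field, with values in `ℚ`.
-/

set_option autoImplicit false

namespace Pool.Agent.K1

/-- The extension of a homomorphism to `ℚ` to the localization. -/
noncomputable def liftQ {M : Type*} [AddCommGroup M] (μ : M →+ ℚ) :
    LocalizedModule (nonZeroDivisors ℤ) M →+ ℚ where
  toFun z := LocalizedModule.liftOn z (fun p => μ p.1 / ((p.2 : ℤ) : ℚ)) (by
    rintro ⟨m, n⟩ ⟨m', n'⟩ ⟨k, hk⟩
    have hk0 : ((k : ℤ) : ℚ) ≠ 0 := by exact_mod_cast nonZeroDivisors.ne_zero k.2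
    have hn0 : ((n : ℤ) : ℚ) ≠ 0 := by exact_mod_cast nonZeroDivisors.ne_zero n.2
    have hn0' : ((n' : ℤ) : ℚ) ≠ 0 := by exact_mod_cast nonZeroDivisors.ne_zero n'.2
    have h1 := congrArg μ hk
    simp only [Submonoid.smul_def, map_zsmul] at h1
    simp only [zsmul_eq_mul] at h1
    have h2 := mul_left_cancel₀ hk0 h1
    simp only
    rw [div_eq_div_iff hn0 hn0']
    linarith)
  map_zero' := by
    rw [← LocalizedModule.zero_mk (1 : nonZeroDivisors ℤ), LocalizedModule.liftOn_mk]
    simp
  map_add' z w := by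
    induction z using LocalizedModule.induction_on with
    | h m n =>
      induction w using LocalizedModule.induction_on with
      | h m' n' =>
        have hn0 : ((n : ℤ) : ℚ) ≠ 0 := by exact_mod_cast nonZeroDivisors.ne_zero n.2
        have hn0' : ((n' : ℤ) : ℚ) ≠ 0 := by exact_mod_cast nonZeroDivisors.ne_zero n'.2
        rw [LocalizedModule.mk_add_mk, LocalizedModule.liftOn_mk, LocalizedModule.liftOn_mk,
          LocalizedModule.liftOn_mk]
        simp only [Submonoid.smul_def, map_add, map_zsmul, zsmul_eq_mul, Submonoid.coe_mul,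
          Int.cast_mul]
        field_simp

lemma liftQ_mk {M : Type*} [AddCommGroup M] (μ : M →+ ℚ) (m : M) (n : nonZeroDivisors ℤ) :
    liftQ μ (LocalizedModule.mk m n) = μ m / ((n : ℤ) : ℚ) := by
  simp only [liftQ, AddMonoidHom.coe_mk, ZeroHom.coe_mk]
  rw [LocalizedModule.liftOn_mk]

/-- The rational valuation given by a homomorphism on the units. -/
noncomputable def ratValOf {L : Type*} [Field L] (V : ValuationSubring L)
    (v : Additive Lˣ →+ ℚ) (hv : ∀ a : Lˣ, (a : L) ∈ V ↔ 0 ≤ v (Additive.ofMul a)) :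
    RatVal V where
  v a := open scoped Classical in if h : a = 0 then 0 else v (Additive.ofMul (Units.mk0 a h))
  map_mul a b ha hb := by
    rw [dif_neg (mul_ne_zero ha hb), dif_neg ha, dif_neg hb, ← map_add, ← ofMul_mul]
    congr 2
    ext
    rfl
  nonneg_iff a ha := by
    rw [dif_neg ha, ← hv]
    rfl

lemma ratValOf_apply {L : Type*} [Field L] (V : ValuationSubring L)
    (v : Additive Lˣ →+ ℚ) (hv : ∀ a : Lˣ, (a : L) ∈ V ↔ 0 ≤ v (Additive.ofMul a)) (a : Lˣ) :
    (ratValOf V v hv).v a = v (Additive.ofMul a) := by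
  change (open scoped Classical in if h : (a : L) = 0 then 0 else
    v (Additive.ofMul (Units.mk0 (a : L) h))) = _
  rw [dif_neg a.ne_zero]
  congr 2
  ext
  rfl

theorem exists_symb {L : Type*} [Field L] (V : ValuationSubring L) (v : Additive Lˣ →+ ℚ)
    (hv : ∀ a : Lˣ, (a : L) ∈ V ↔ 0 ≤ v (Additive.ofMul a))
    (μ : Additive (IsLocalRing.ResidueField V)ˣ →+ ℚ) :
    ∃ S : Symb L, ∀ (a b : Lˣ) (m n : ℤ) (u : Vˣ), v (Additive.ofMul a) = m →
      v (Additive.ofMul b) = n → (a : L) ^ n = (-1) ^ (m * n) * (b : L) ^ m * ((u : V) : L) →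
      S.φ (Additive.ofMul a) (Additive.ofMul b) =
        μ (Additive.ofMul (Units.map (IsLocalRing.residue V).toMonoidHom u)) := by
  set R := ratValOf V v hv with hRdef
  refine ⟨⟨AddMonoidHom.mk' (fun a => AddMonoidHom.mk'
    (fun b => liftQ μ (R.phi (Additive.toMul a : Lˣ) (Additive.toMul b : Lˣ))) ?_) ?_, ?_⟩, ?_⟩
  · intro b c
    rw [← map_add, toMul_add, Units.val_mul,
      R.phi_mul_right (Units.ne_zero _) (Units.ne_zero _) (Units.ne_zero _)]
  · intro a b
    refine AddMonoidHom.ext fun c => ?_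
    rw [AddMonoidHom.add_apply]
    simp only [AddMonoidHom.mk'_apply]
    rw [← map_add, toMul_add, Units.val_mul,
      R.phi_mul_left (Units.ne_zero _) (Units.ne_zero _) (Units.ne_zero _)]
  · intro a b hab
    simp only [AddMonoidHom.mk'_apply, toMul_ofMul]
    have hb : (b : L) = 1 - a := by rw [← hab]; ring
    rw [hb, R.phi_steinberg a.ne_zero (by rw [← hb]; exact b.ne_zero), map_zero]
  · intro a b m n u ha hb hu
    simp only [AddMonoidHom.mk'_apply, toMul_ofMul]
    rw [R.phi_eq (p := m) (q := n) b.ne_zero (by rw [hRdef, ratValOf_apply, ha])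
      (by rw [hRdef, ratValOf_apply, hb]) hu, clV, liftQ_mk]
    simp

theorem exists_hom_ext {G H : Type*} [AddCommGroup G] [AddCommGroup H] (i : G →+ H)
    (μ : G →+ ℚ) (h : ∀ g, i g = 0 → μ g = 0) : ∃ ν : H →+ ℚ, ∀ g, ν (i g) = μ g := by
  have hker : i.ker ≤ μ.ker := fun g hg => h g hg
  let μ' : G ⧸ i.ker →+ ℚ := QuotientAddGroup.lift i.ker μ hker
  let i' : G ⧸ i.ker →+ H := QuotientAddGroup.kerLift i
  have hi' : Function.Injective i' := QuotientAddGroup.kerLift_injective i
  obtain ⟨ν, hν⟩ := (Module.Baer.of_divisible ℚ).extension_property_addMonoidHom i' hi' μ'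
  refine ⟨ν, fun g => ?_⟩
  have := DFunLike.congr_fun hν (QuotientAddGroup.mk g)
  exact this

theorem torsion_of_hom {G : Type*} [AddCommGroup G] (g : G) (h : ∀ μ : G →+ ℚ, μ g = 0) :
    ∃ N : ℕ, 0 < N ∧ N • g = 0 := by
  by_contra hcon
  push Not at hcon
  let i : ℤ →+ G := zmultiplesHom G g
  have hi : Function.Injective i := by
    rw [injective_iff_map_eq_zero]
    intro n hn
    by_contra hn0
    have h1 : n • g = 0 := hn
    refine hcon n.natAbs (Int.natAbs_pos.mpr hn0) ?_
    rcases Int.natAbs_eq n with e | e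
    · rw [e, natCast_zsmul] at h1
      exact h1
    · rw [e, neg_smul, natCast_zsmul, neg_eq_zero] at h1
      exact h1
  obtain ⟨ν, hν⟩ := (Module.Baer.of_divisible ℚ).extension_property_addMonoidHom i hi
    (Int.castAddHom ℚ)
  have h1 := DFunLike.congr_fun hν 1
  have h2 : ν g = 1 := by
    have h3 : i 1 = g := by
      change (1 : ℤ) • g = g
      exact one_smul ℤ g
    rw [AddMonoidHom.comp_apply, h3] at h1
    rw [h1]
    simp
  rw [h ν] at h2
  exact zero_ne_one h2

end Pool.Agent.K1
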