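import Mathlib

/-!
The norm of a symbol `{x, y}` over a finite Galois extension `E / K` is a sum of symbols over `K`
(Bass and Tate, Rosset and Tate), for every Steinberg map without `2`-torsion on an algebraically
closed extension.
-/

set_option autoImplicit false

open Polynomial

namespace Pool.Agent.K1

/-- `φ` is biadditive on nonzero elements, vanishes on `(a, 1 - a)`, and has no values of
order `2`. -/
structure IsSteinberg {L A : Type*} [Field L] [AddCommGroup A] (φ : L → L → A) : Prop where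
  mul_left : ∀ a b c : L, a ≠ 0 → b ≠ 0 → c ≠ 0 → φ (a * b) c = φ a c + φ b c
  mul_right : ∀ a b c : L, a ≠ 0 → b ≠ 0 → c ≠ 0 → φ a (b * c) = φ a b + φ a c
  steinberg : ∀ a : L, a ≠ 0 → 1 - a ≠ 0 → φ a (1 - a) = 0
  two : ∀ a b : L, φ a b + φ a b = 0 → φ a b = 0

namespace IsSteinberg

variable {L A : Type*} [Field L] [AddCommGroup A] {φ : L → L → A} (h : IsSteinberg φ)

include h

lemma one_left {c : L} (hc : c ≠ 0) : φ 1 c = 0 := by
  have := h.mul_left 1 1 c one_ne_zero one_ne_zero hc
  rw [mul_one] at this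
  exact left_eq_add.mp this

lemma one_right {c : L} (hc : c ≠ 0) : φ c 1 = 0 := by
  have := h.mul_right c 1 1 hc one_ne_zero one_ne_zero
  rw [mul_one] at this
  exact left_eq_add.mp this

lemma neg_one_right {c : L} (hc : c ≠ 0) : φ c (-1) = 0 := by
  have h1 : (-1 : L) ≠ 0 := neg_ne_zero.mpr one_ne_zero
  refine h.two _ _ ?_
  rw [← h.mul_right c (-1) (-1) hc h1 h1, neg_mul_neg, one_mul, h.one_right hc]

lemma neg_right {c d : L} (hc : c ≠ 0) (hd : d ≠ 0) : φ c (-d) = φ c d := by
  have h1 : (-1 : L) ≠ 0 := neg_ne_zero.mpr one_ne_zero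
  have := h.mul_right c (-1) d hc h1 hd
  rw [neg_one_mul, h.neg_one_right hc, zero_add] at this
  exact this

lemma inv_left {c d : L} (hc : c ≠ 0) (hd : d ≠ 0) : φ c⁻¹ d = - φ c d := by
  have := h.mul_left c c⁻¹ d hc (inv_ne_zero hc) hd
  rw [mul_inv_cancel₀ hc, h.one_left hd] at this
  exact (neg_eq_of_add_eq_zero_right this.symm).symm

lemma inv_right {c d : L} (hc : c ≠ 0) (hd : d ≠ 0) : φ c d⁻¹ = - φ c d := by
  have := h.mul_right c d d⁻¹ hc hd (inv_ne_zero hd)
  rw [mul_inv_cancel₀ hd, h.one_right hc] at this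
  exact (neg_eq_of_add_eq_zero_right this.symm).symm

lemma div_left {b c d : L} (hb : b ≠ 0) (hc : c ≠ 0) (hd : d ≠ 0) :
    φ (b / c) d = φ b d - φ c d := by
  rw [div_eq_mul_inv, h.mul_left _ _ _ hb (inv_ne_zero hc) hd, h.inv_left hc hd, sub_eq_add_neg]

lemma div_right {b c d : L} (hb : b ≠ 0) (hc : c ≠ 0) (hd : d ≠ 0) :
    φ b (c / d) = φ b c - φ b d := by
  rw [div_eq_mul_inv, h.mul_right _ _ _ hb hc (inv_ne_zero hd), h.inv_right hb hd, sub_eq_add_neg]

lemma neg_self {c : L} (hc : c ≠ 0) : φ c (-c) = 0 := by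
  by_cases h1 : c = 1
  · rw [h1]; exact h.one_left (neg_ne_zero.mpr one_ne_zero)
  · have ha : 1 - c ≠ 0 := sub_ne_zero.mpr (Ne.symm h1)
    have hb : 1 - c⁻¹ ≠ 0 := sub_ne_zero.mpr (fun e => h1 (by rw [← inv_inv c, ← e, inv_one]))
    have e : -c = (1 - c) / (1 - c⁻¹) := by field_simp; ring
    rw [e, h.div_right hc ha hb, h.steinberg c hc ha, zero_sub, ← h.inv_left hc hb,
      h.steinberg _ (inv_ne_zero hc) hb]

lemma self {c : L} (hc : c ≠ 0) : φ c c = 0 := by
  have := h.neg_self hc
  rwa [h.neg_right hc hc] at this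

lemma swap {c d : L} (hc : c ≠ 0) (hd : d ≠ 0) : φ c d = - φ d c := by
  have h1 := h.self (mul_ne_zero hc hd)
  rw [h.mul_left _ _ _ hc hd (mul_ne_zero hc hd), h.mul_right _ _ _ hc hc hd,
    h.mul_right _ _ _ hd hc hd, h.self hc, h.self hd, zero_add, add_zero] at h1
  exact eq_neg_of_add_eq_zero_left h1

/-- The key identity: `{a, a - b} = {b, b - a} + {a, b}`. -/
lemma pair {a b : L} (ha : a ≠ 0) (hb : b ≠ 0) (hab : a - b ≠ 0) :
    φ a (a - b) = φ b (b - a) + φ a b := by
  have hu : a / b ≠ 0 := div_ne_zero ha hb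
  have h1u : 1 - a / b ≠ 0 := by
    intro e
    apply hab
    field_simp at e
    rw [← neg_sub, e, mul_zero, neg_zero]
  have e1 : a - b = -(b * (1 - a / b)) := by field_simp; ring
  have e2 : φ (a / b) (a - b) = φ a b := by
    rw [e1, h.neg_right hu (mul_ne_zero hb h1u), h.mul_right _ _ _ hu hb h1u,
      h.steinberg _ hu h1u, add_zero, h.div_left ha hb hb, h.self hb, sub_zero]
  have e3 : φ b (b - a) = φ b (a - b) := by
    rw [← neg_sub a b, h.neg_right hb hab]
  rw [e3, ← e2, h.div_left ha hb hab]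
  abel

lemma prod_left (s : Multiset L) (hs : ∀ a ∈ s, a ≠ 0) {c : L} (hc : c ≠ 0) :
    φ s.prod c = (s.map fun a => φ a c).sum := by
  induction s using Multiset.induction_on with
  | empty => simp [h.one_left hc]
  | cons a s ih =>
    have ha : a ≠ 0 := hs a (Multiset.mem_cons_self a s)
    have hs' : ∀ b ∈ s, b ≠ 0 := fun b hb => hs b (Multiset.mem_cons_of_mem hb)
    have hp : s.prod ≠ 0 := Multiset.prod_ne_zero (fun h0 => hs' 0 h0 rfl)
    rw [Multiset.prod_cons, h.mul_left _ _ _ ha hp hc, ih hs', Multiset.map_cons,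
      Multiset.sum_cons]

lemma prod_right (s : Multiset L) (hs : ∀ a ∈ s, a ≠ 0) {c : L} (hc : c ≠ 0) :
    φ c s.prod = (s.map fun a => φ c a).sum := by
  induction s using Multiset.induction_on with
  | empty => simp [h.one_right hc]
  | cons a s ih =>
    have ha : a ≠ 0 := hs a (Multiset.mem_cons_self a s)
    have hs' : ∀ b ∈ s, b ≠ 0 := fun b hb => hs b (Multiset.mem_cons_of_mem hb)
    have hp : s.prod ≠ 0 := Multiset.prod_ne_zero (fun h0 => hs' 0 h0 rfl)
    rw [Multiset.prod_cons, h.mul_right _ _ _ hc ha hp, ih hs', Multiset.map_cons,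
      Multiset.sum_cons]

/-- The reciprocity law for two disjoint multisets of nonzero elements. -/
lemma recip (s t : Multiset L) (hs : ∀ a ∈ s, a ≠ 0) (ht : ∀ b ∈ t, b ≠ 0)
    (hst : ∀ a ∈ s, ∀ b ∈ t, a - b ≠ 0) {c d : L} (hc : c ≠ 0) (hd : d ≠ 0) :
    (s.map fun a => φ a (d * (t.map fun b => a - b).prod)).sum =
      (t.map fun b => φ b (c * (s.map fun a => b - a).prod)).sum
        + φ s.prod d - φ t.prod c + φ s.prod t.prod := by
  have hsp : s.prod ≠ 0 := Multiset.prod_ne_zero (fun h0 => hs 0 h0 rfl)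
  have htp : t.prod ≠ 0 := Multiset.prod_ne_zero (fun h0 => ht 0 h0 rfl)
  have e1 : (s.map fun a => φ a (d * (t.map fun b => a - b).prod)).sum =
      φ s.prod d + (s.map fun a => (t.map fun b => φ a (a - b)).sum).sum := by
    rw [h.prod_left s hs hd, ← Multiset.sum_map_add]
    refine congrArg _ (Multiset.map_congr rfl fun a ha => ?_)
    have hp : ∀ z ∈ t.map fun b => a - b, z ≠ 0 := by
      intro z hz
      obtain ⟨b, hb, rfl⟩ := Multiset.mem_map.mp hz
      exact hst a ha b hb
    rw [h.mul_right _ _ _ (hs a ha) hd (Multiset.prod_ne_zero (fun h0 => hp 0 h0 rfl)),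
      h.prod_right _ hp (hs a ha), Multiset.map_map]
    rfl
  have e2 : (t.map fun b => φ b (c * (s.map fun a => b - a).prod)).sum =
      φ t.prod c + (t.map fun b => (s.map fun a => φ b (b - a)).sum).sum := by
    rw [h.prod_left t ht hc, ← Multiset.sum_map_add]
    refine congrArg _ (Multiset.map_congr rfl fun b hb => ?_)
    have hp : ∀ z ∈ s.map fun a => b - a, z ≠ 0 := by
      intro z hz
      obtain ⟨a, ha, rfl⟩ := Multiset.mem_map.mp hz
      rw [← neg_sub]
      exact neg_ne_zero.mpr (hst a ha b hb)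
    rw [h.mul_right _ _ _ (ht b hb) hc (Multiset.prod_ne_zero (fun h0 => hp 0 h0 rfl)),
      h.prod_right _ hp (ht b hb), Multiset.map_map]
    rfl
  have e3 : (s.map fun a => (t.map fun b => φ a (a - b)).sum).sum =
      (t.map fun b => (s.map fun a => φ b (b - a)).sum).sum + φ s.prod t.prod := by
    rw [h.prod_left s hs htp, Multiset.sum_map_sum_map t s, ← Multiset.sum_map_add]
    refine congrArg _ (Multiset.map_congr rfl fun a ha => ?_)
    rw [h.prod_right t ht (hs a ha), ← Multiset.sum_map_add]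
    refine congrArg _ (Multiset.map_congr rfl fun b hb => ?_)
    exact h.pair (hs a ha) (ht b hb) (hst a ha b hb)
  rw [e1, e2, e3]
  abel

lemma neg_left {c d : L} (hc : c ≠ 0) (hd : d ≠ 0) : φ (-c) d = φ c d := by
  rw [h.swap (neg_ne_zero.mpr hc) hd, h.neg_right hd hc, ← h.swap hc hd]

lemma prod_neg_left (s : Multiset L) (hs : ∀ a ∈ s, a ≠ 0) {c : L} (hc : c ≠ 0) :
    φ (s.map fun a => 0 - a).prod c = φ s.prod c := by
  have hp : ∀ z ∈ s.map fun a => 0 - a, z ≠ 0 := by
    intro z hz
    obtain ⟨a, ha, rfl⟩ := Multiset.mem_map.mp hz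
    rw [zero_sub]
    exact neg_ne_zero.mpr (hs a ha)
  rw [h.prod_left _ hp hc, h.prod_left _ hs hc, Multiset.map_map]
  refine congrArg _ (Multiset.map_congr rfl fun a ha => ?_)
  simp only [Function.comp_apply, zero_sub]
  exact h.neg_left (hs a ha) hc

lemma prod_neg_right (s : Multiset L) (hs : ∀ a ∈ s, a ≠ 0) {c : L} (hc : c ≠ 0) :
    φ c (s.map fun a => 0 - a).prod = φ c s.prod := by
  have hp : ∀ z ∈ s.map fun a => 0 - a, z ≠ 0 := by
    intro z hz
    obtain ⟨a, ha, rfl⟩ := Multiset.mem_map.mp hz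
    rw [zero_sub]
    exact neg_ne_zero.mpr (hs a ha)
  rw [h.prod_right _ hp hc, h.prod_right _ hs hc, Multiset.map_map]
  refine congrArg _ (Multiset.map_congr rfl fun a ha => ?_)
  simp only [Function.comp_apply, zero_sub]
  exact h.neg_right hc (hs a ha)

end IsSteinberg

section Euclid

variable {K : Type*} [Field K]

/-- The value of a formal sum of symbols over `K`. -/
def symSum {L A : Type*} [Field L] [AddCommGroup A] [Algebra K L] (φ : L → L → A)
    (l : List (ℤ × Kˣ × Kˣ)) : A :=
  (l.map fun t => t.1 • φ (algebraMap K L t.2.1) (algebraMap K L t.2.2)).sum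

/-- The sum of the symbols `{α, g(α)}` over the roots `α` of `f`. -/
noncomputable def symRoots {L A : Type*} [Field L] [AddCommGroup A] [Algebra K L]
    (φ : L → L → A) (f g : K[X]) : A :=
  ((f.aroots L).map fun α => φ α (aeval α g)).sum

/-- The constant coefficient divided by the leading one, as a unit. -/
noncomputable def cu (f : K[X]) (hf : f.coeff 0 ≠ 0) : Kˣ :=
  Units.mk0 (f.coeff 0 / f.leadingCoeff)
    (div_ne_zero hf (leadingCoeff_ne_zero.mpr (fun e => hf (by rw [e, coeff_zero]))))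

/-- The leading coefficient as a unit. -/
noncomputable def lu (f : K[X]) (hf : f.coeff 0 ≠ 0) : Kˣ :=
  Units.mk0 f.leadingCoeff (leadingCoeff_ne_zero.mpr (fun e => hf (by rw [e, coeff_zero])))

variable {L A : Type*} [Field L] [AddCommGroup A] [Algebra K L] {φ : L → L → A}

lemma aroots_ne_zero {f : K[X]} (hf : f.coeff 0 ≠ 0) : ∀ a ∈ f.aroots L, a ≠ 0 := by
  intro a ha h0
  rw [mem_aroots] at ha
  rw [h0, ← coeff_zero_eq_aeval_zero', map_eq_zero] at ha
  exact hf ha.2

lemma cu_eq [IsAlgClosed L] {f : K[X]} (hf : f.coeff 0 ≠ 0) :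
    algebraMap K L (cu f hf) = ((f.aroots L).map fun a => 0 - a).prod := by
  have h0 : f.leadingCoeff ≠ 0 :=
    leadingCoeff_ne_zero.mpr (fun e => hf (by rw [e, coeff_zero]))
  have h1 := (IsAlgClosed.splits (f.map (algebraMap K L))).aeval_eq_prod_aroots (0 : L)
  rw [← coeff_zero_eq_aeval_zero'] at h1
  simp only [cu, Units.val_mk0, map_div₀]
  rw [h1, mul_div_cancel_left₀]
  exact (_root_.map_ne_zero _).mpr h0

lemma symRoots_recip [IsAlgClosed L] (h : IsSteinberg φ) {f g : K[X]} (hf : f.coeff 0 ≠ 0)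
    (hg : g.coeff 0 ≠ 0) (hfg : IsCoprime f g) :
    symRoots φ f g = symRoots φ g f + φ (algebraMap K L (cu f hf)) (algebraMap K L (lu g hg))
      - φ (algebraMap K L (cu g hg)) (algebraMap K L (lu f hf))
      + φ (algebraMap K L (cu f hf)) (algebraMap K L (cu g hg)) := by
  have hs := aroots_ne_zero (L := L) hf
  have ht := aroots_ne_zero (L := L) hg
  have hst : ∀ a ∈ f.aroots L, ∀ b ∈ g.aroots L, a - b ≠ 0 := by
    intro a ha b hb e
    rw [sub_eq_zero] at e
    rw [mem_aroots] at ha hb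
    rw [← e] at hb
    obtain ⟨u, v, huv⟩ := hfg
    have := congrArg (aeval a) huv
    rw [map_add, map_mul, map_mul, ha.2, hb.2, mul_zero, mul_zero, add_zero, map_one] at this
    exact zero_ne_one this
  have lf0 : algebraMap K L (lu f hf) ≠ 0 := (_root_.map_ne_zero _).mpr (lu f hf).ne_zero
  have lg0 : algebraMap K L (lu g hg) ≠ 0 := (_root_.map_ne_zero _).mpr (lu g hg).ne_zero
  have sp : (f.aroots L).prod ≠ 0 := Multiset.prod_ne_zero (fun h0 => hs 0 h0 rfl)
  have tp : (g.aroots L).prod ≠ 0 := Multiset.prod_ne_zero (fun h0 => ht 0 h0 rfl)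
  have sp' : ((f.aroots L).map fun a => 0 - a).prod ≠ 0 := by
    rw [← cu_eq hf]; exact (_root_.map_ne_zero _).mpr (cu f hf).ne_zero
  have key := h.recip (f.aroots L) (g.aroots L) hs ht hst lf0 lg0
  have e1 : symRoots φ f g = ((f.aroots L).map fun a => φ a (algebraMap K L (lu g hg) *
      ((g.aroots L).map fun b => a - b).prod)).sum := by
    refine congrArg _ (Multiset.map_congr rfl fun a _ => ?_)
    rw [(IsAlgClosed.splits (g.map (algebraMap K L))).aeval_eq_prod_aroots a]
    rfl
  have e2 : symRoots φ g f = ((g.aroots L).map fun b => φ b (algebraMap K L (lu f hf) *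
      ((f.aroots L).map fun a => b - a).prod)).sum := by
    refine congrArg _ (Multiset.map_congr rfl fun a _ => ?_)
    rw [(IsAlgClosed.splits (f.map (algebraMap K L))).aeval_eq_prod_aroots a]
    rfl
  rw [cu_eq hf, cu_eq hg, h.prod_neg_left _ hs lg0, h.prod_neg_left _ ht lf0,
    h.prod_neg_right _ ht sp', h.prod_neg_left _ hs tp, e1, e2, key]

/-- Only the residue of `g` modulo `f` matters. -/
lemma symRoots_mod (f g : K[X]) : symRoots φ f (g % f) = symRoots φ f g := by
  unfold symRoots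
  refine congrArg _ (Multiset.map_congr rfl fun a ha => ?_)
  rw [mem_aroots] at ha
  congr 1
  have := congrArg (aeval a) (EuclideanDomain.mod_add_div g f)
  rw [map_add, map_mul, ha.2, zero_mul, add_zero] at this
  exact this

/-- Powers of `X` in `g` do not matter. -/
lemma symRoots_X_pow_mul (h : IsSteinberg φ) {f : K[X]} (hf : f.coeff 0 ≠ 0) (g : K[X])
    (hfg : IsCoprime f g) (k : ℕ) : symRoots φ f (X ^ k * g) = symRoots φ f g := by
  unfold symRoots
  refine congrArg _ (Multiset.map_congr rfl fun a ha => ?_)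
  have ha0 := aroots_ne_zero hf a ha
  rw [mem_aroots] at ha
  have hg0 : aeval a g ≠ 0 := by
    intro e
    obtain ⟨u, v, huv⟩ := hfg
    have := congrArg (aeval a) huv
    rw [map_add, map_mul, map_mul, ha.2, e, mul_zero, mul_zero, add_zero, map_one] at this
    exact zero_ne_one this
  have hk : ∀ j : ℕ, φ a (a ^ j) = 0 := by
    intro j
    induction j with
    | zero => rw [pow_zero]; exact h.one_right ha0
    | succ j ih => rw [pow_succ, h.mul_right _ _ _ ha0 (pow_ne_zero j ha0) ha0, ih, h.self ha0,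
        add_zero]
  rw [map_mul, map_pow, aeval_X, h.mul_right _ _ _ ha0 (pow_ne_zero k ha0) hg0, hk, zero_add]

end Euclid

universe v w

/-- For coprime `f`, `g` over `K` with `f(0) ≠ 0` the sum of the symbols `{α, g(α)}` over the
roots `α` of `f` is a sum of symbols over `K`, independent of the Steinberg map. -/
theorem exists_symRoots {K : Type*} [Field K] (n : ℕ) : ∀ (f g : K[X]), f.natDegree ≤ n →
    f.coeff 0 ≠ 0 → IsCoprime f g →
    ∃ l : List (ℤ × Kˣ × Kˣ), ∀ (L : Type v) (A : Type w) [Field L] [IsAlgClosed L]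
      [AddCommGroup A] [Algebra K L] (φ : L → L → A), IsSteinberg φ →
      symRoots φ f g = symSum φ l := by
  induction n with
  | zero =>
    intro f g hn _ _
    refine ⟨[], fun L A _ _ _ _ φ _ => ?_⟩
    obtain ⟨c, rfl⟩ : ∃ c, f = C c := ⟨_, eq_C_of_natDegree_le_zero hn⟩
    rw [symRoots, aroots_C]
    rfl
  | succ n ih =>
    intro f g hn hf hfg
    by_cases hn0 : f.natDegree = 0
    · exact ih f g (by omega) hf hfg
    have hfg' : IsCoprime f (g % f) := by
      have := hfg
      rw [← EuclideanDomain.mod_add_div g f] at this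
      exact IsCoprime.of_add_mul_left_right this
    have hr0 : g % f ≠ 0 := by
      intro e
      rw [e, isCoprime_zero_right] at hfg'
      exact hn0 (natDegree_eq_zero_of_isUnit hfg')
    obtain ⟨r, hr, hrX⟩ := exists_eq_pow_rootMultiplicity_mul_and_not_dvd (g % f) hr0 0
    rw [C_0, sub_zero] at hr hrX
    have hrc : r.coeff 0 ≠ 0 := fun e => hrX (X_dvd_iff.mpr e)
    have hfr : IsCoprime f r := by
      rw [hr] at hfg'
      exact hfg'.of_mul_right_right
    have hdeg : r.natDegree ≤ n := by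
      have h1 : (g % f).natDegree < f.natDegree := natDegree_mod_lt g hn0
      have h2 : (g % f).natDegree = rootMultiplicity 0 (g % f) + r.natDegree := by
        conv_lhs => rw [hr]
        rw [natDegree_mul (pow_ne_zero _ X_ne_zero) (fun e => hrc (by rw [e, coeff_zero])),
          natDegree_X_pow]
      omega
    obtain ⟨l, hl⟩ := ih r f hdeg hrc hfr.symm
    refine ⟨(1, cu f hf, lu r hrc) :: (-1, cu r hrc, lu f hf) :: (1, cu f hf, cu r hrc) :: l,
      fun L A _ _ _ _ φ h => ?_⟩
    rw [← symRoots_mod f g, hr, symRoots_X_pow_mul h hf r hfr, symRoots_recip h hf hrc hfr,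
      hl L A φ h]
    simp only [symSum, List.map_cons, List.sum_cons, one_smul, neg_smul]
    abel

/-- The norm of a symbol over a finite Galois extension `E / K` is a sum of symbols over `K`, for
every Steinberg map on an algebraically closed extension of `E`. -/
theorem tate_norm {K E : Type*} [Field K] [Field E] [Algebra K E] [FiniteDimensional K E]
    [IsGalois K E] (x y : E) (hx : x ≠ 0) (hy : y ≠ 0) :
    ∃ l : List (ℤ × Kˣ × Kˣ), ∀ (L : Type v) (A : Type w) [Field L] [IsAlgClosed L]
      [AddCommGroup A] [Algebra K L] [Algebra E L] [IsScalarTower K E L] (φ : L → L → A),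
      IsSteinberg φ →
      ∑ σ : E ≃ₐ[K] E, φ (algebraMap E L (σ x)) (algebraMap E L (σ y)) = symSum φ l := by
  classical
  set P : E → E := fun ρ => ∏ σ : E ≃ₐ[K] E with σ x = ρ, σ y with hP
  have hPmap : ∀ τ : E ≃ₐ[K] E, ∀ ρ : E, τ (P ρ) = P (τ ρ) := by
    intro τ ρ
    simp only [hP, map_prod]
    refine Finset.prod_bij (fun σ _ => τ * σ) ?_ ?_ ?_ ?_
    · intro σ hσ
      simp only [Finset.mem_filter, Finset.mem_univ, true_and] at hσ ⊢
      rw [AlgEquiv.mul_apply, hσ]
    · intro σ _ σ' _ e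
      exact mul_left_cancel e
    · intro σ hσ
      simp only [Finset.mem_filter, Finset.mem_univ, true_and] at hσ
      refine ⟨τ⁻¹ * σ, ?_, by rw [mul_inv_cancel_left]⟩
      simp only [Finset.mem_filter, Finset.mem_univ, true_and]
      rw [AlgEquiv.mul_apply, hσ]
      exact τ.symm_apply_apply ρ
    · intro σ _
      rfl
  have hP0 : ∀ ρ, P ρ ≠ 0 := by
    intro ρ
    refine Finset.prod_ne_zero_iff.mpr fun σ _ => ?_
    exact (_root_.map_ne_zero σ).mpr hy
  -- `P x` is a polynomial in `x`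
  obtain ⟨g, hg⟩ : ∃ g : K[X], P x = aeval x g := by
    have hmem : P x ∈ IntermediateField.adjoin K {x} := by
      rw [← IsGalois.fixedField_fixingSubgroup (IntermediateField.adjoin K {x})]
      rintro ⟨τ, hτ⟩
      have hτx : τ x = x := by
        rw [IntermediateField.mem_fixingSubgroup_iff] at hτ
        exact hτ x (IntermediateField.mem_adjoin_simple_self K x)
      change τ (P x) = P x
      rw [hPmap, hτx]
    have hx' : IsAlgebraic K x := (Algebra.IsAlgebraic.isAlgebraic x)
    rw [← IntermediateField.mem_toSubalgebra,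
      IntermediateField.adjoin_simple_toSubalgebra_of_isAlgebraic hx',
      Algebra.adjoin_singleton_eq_range_aeval] at hmem
    obtain ⟨g, hg⟩ := hmem
    exact ⟨g, hg.symm⟩
  have hxi : IsIntegral K x := Algebra.IsIntegral.isIntegral x
  set f : K[X] := minpoly K x with hf
  have hf0 : f.coeff 0 ≠ 0 := minpoly.coeff_zero_ne_zero hxi hx
  have hfg : IsCoprime f g := by
    rw [(minpoly.irreducible hxi).coprime_iff_not_dvd]
    intro hdvd
    apply hP0 x
    rw [hg]
    exact aeval_eq_zero_of_dvd_aeval_eq_zero hdvd (minpoly.aeval K x)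
  obtain ⟨l, hl⟩ := exists_symRoots.{v, w} f.natDegree f g le_rfl hf0 hfg
  refine ⟨l, fun L A _ _ _ _ _ _ φ h => ?_⟩
  rw [← hl L A φ h]
  -- the roots of `f` are the conjugates of `x`
  have hroots : f.aroots L = (Finset.univ.image fun σ : E ≃ₐ[K] E => σ x).val.map
      (algebraMap E L) := by
    have hs : (f.map (algebraMap K E)).Splits := Normal.splits inferInstance x
    rw [← hs.map_aroots_algebraMap]
    congr 1
    have hnd : (f.aroots E).Nodup :=
      nodup_roots (Polynomial.Separable.map (f := algebraMap K E) (IsGalois.separable K x))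
    rw [← Multiset.dedup_eq_self.mpr hnd]
    refine congrArg Finset.val (?_ : (f.aroots E).toFinset = _)
    ext ρ
    rw [Multiset.mem_toFinset, mem_aroots, Finset.mem_image]
    constructor
    · rintro ⟨-, h0⟩
      obtain ⟨σ, hσ⟩ := minpoly.exists_algEquiv_of_root'
        (Algebra.IsAlgebraic.isAlgebraic (R := K) x) h0
      exact ⟨σ, Finset.mem_univ σ, hσ⟩
    · rintro ⟨σ, -, rfl⟩
      refine ⟨minpoly.ne_zero hxi, ?_⟩
      change aeval ((σ : E →ₐ[K] E) x) f = 0
      rw [aeval_algHom_apply, hf, minpoly.aeval, map_zero]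
  have hinj : Function.Injective (algebraMap E L) := (algebraMap E L).injective
  rw [symRoots, hroots, Multiset.map_map]
  change _ = ∑ ρ ∈ Finset.univ.image fun σ : E ≃ₐ[K] E => σ x,
    φ (algebraMap E L ρ) (aeval (algebraMap E L ρ) g)
  rw [← Finset.sum_fiberwise_of_maps_to (s := Finset.univ)
    (t := Finset.univ.image fun σ : E ≃ₐ[K] E => σ x) (g := fun σ : E ≃ₐ[K] E => σ x)
    (fun σ _ => Finset.mem_image_of_mem _ (Finset.mem_univ σ))]
  refine Finset.sum_congr rfl fun ρ hρ => ?_
  obtain ⟨τ, -, rfl⟩ := Finset.mem_image.mp hρ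
  have e1 : aeval (algebraMap E L (τ x)) g = algebraMap E L (P (τ x)) := by
    rw [aeval_algebraMap_apply, ← hPmap, hg]
    change algebraMap E L (aeval ((τ : E →ₐ[K] E) x) g) = _
    rw [aeval_algHom_apply]
    rfl
  have hτ0 : algebraMap E L (τ x) ≠ 0 :=
    (_root_.map_ne_zero _).mpr ((_root_.map_ne_zero τ).mpr hx)
  have e2 : ∀ s : Finset (E ≃ₐ[K] E), φ (algebraMap E L (τ x)) (∏ σ ∈ s, algebraMap E L (σ y)) =
      ∑ σ ∈ s, φ (algebraMap E L (τ x)) (algebraMap E L (σ y)) := by
    intro s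
    induction s using Finset.induction_on with
    | empty => rw [Finset.prod_empty, Finset.sum_empty, h.one_right hτ0]
    | insert a s ha ih =>
      rw [Finset.prod_insert ha, Finset.sum_insert ha, h.mul_right _ _ _ hτ0
        ((_root_.map_ne_zero _).mpr ((_root_.map_ne_zero a).mpr hy))
        (Finset.prod_ne_zero_iff.mpr fun σ _ =>
          (_root_.map_ne_zero _).mpr ((_root_.map_ne_zero σ).mpr hy)), ih]
  rw [e1, hP]
  simp only [map_prod]
  rw [e2]
  refine Finset.sum_congr rfl fun σ hσ => ?_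
  rw [Finset.mem_filter] at hσ
  rw [hσ.2]

end Pool.Agent.K1
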