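import Pool.Agent.K1.DPull
import Pool.Agent.K1.DescentT
import Pool.Agent.K1.DSymb
import Pool.Agent.K1.DPlace
import Pool.Agent.K1.DCentre

/-!
Descent of the main theorem from the algebraic closure to the base field: if a multiple of the
pull back of a chain is in the subgroup of tame chains, then so is a multiple of the chain.  The
proof compares rational Steinberg maps at the places of an algebraic closure of the function field
and uses the theorem of Bass and Tate on the norm of a symbol.
-/

set_option autoImplicit false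

open AlgebraicGeometry CategoryTheory

namespace Pool.Agent.K1

/-- The Steinberg map as a function on pairs of elements (zero if an element is zero). -/
noncomputable def Symb.fn {L : Type*} [Field L] (S : Symb L) (a b : L) : ℚ :=
  open Classical in
  if h : a ≠ 0 ∧ b ≠ 0 then
    S.φ (Additive.ofMul (Units.mk0 a h.1)) (Additive.ofMul (Units.mk0 b h.2)) else 0

lemma Symb.fn_units {L : Type*} [Field L] (S : Symb L) (a b : Lˣ) :
    S.fn a b = S.φ (Additive.ofMul a) (Additive.ofMul b) := by
  rw [Symb.fn, dif_pos ⟨a.ne_zero, b.ne_zero⟩, Units.mk0_val, Units.mk0_val]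

lemma Symb.isSteinberg {L : Type*} [Field L] (S : Symb L) : IsSteinberg S.fn := by
  constructor
  · intro a b c ha hb hc
    have e := S.fn_units (Units.mk0 a ha * Units.mk0 b hb) (Units.mk0 c hc)
    rw [ofMul_mul, map_add, AddMonoidHom.add_apply, ← S.fn_units, ← S.fn_units] at e
    simpa using e
  · intro a b c ha hb hc
    have e := S.fn_units (Units.mk0 a ha) (Units.mk0 b hb * Units.mk0 c hc)
    rw [ofMul_mul, map_add, ← S.fn_units, ← S.fn_units] at e
    simpa using e
  · intro a ha ha'
    have e := S.fn_units (Units.mk0 a ha) (Units.mk0 (1 - a) ha')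
    rw [S.steinberg _ _ (by simp)] at e
    simpa using e
  · intro a b h
    linarith

/-- The sum over a finite quotient of the Galois group of the conjugates of a formal sum of
symbols is a formal sum of symbols over the base field. -/
theorem exists_trans_list {K L : Type} [Field K] [Field L] [Algebra K L] [IsAlgClosed L]
    [Algebra.IsAlgebraic K L] (s : List (ℤ × Lˣ × Lˣ))
    (hs : ∀ t ∈ s, IsSeparable K (t.2.1 : L) ∧ IsSeparable K (t.2.2 : L)) :
    ∃ (ι : Type) (_ : Fintype ι) (_ : Nonempty ι) (g : ι → (L ≃ₐ[K] L))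
      (l : List (ℤ × Kˣ × Kˣ)), ∀ S : Symb L,
      ∑ i, (s.map fun t => t.1 •
        S.φ (Additive.ofMul (Units.map (g i : L →* L) t.2.1))
          (Additive.ofMul (Units.map (g i : L →* L) t.2.2))).sum =
      (l.map fun t => t.1 • S.φ (Additive.ofMul (Units.map (algebraMap K L).toMonoidHom t.2.1))
        (Additive.ofMul (Units.map (algebraMap K L).toMonoidHom t.2.2))).sum := by
  classical
  have : IsAlgClosure K L := ⟨inferInstance, inferInstance⟩
  have : Normal K L := IsAlgClosure.normal K L
  let Ks := separableClosure K L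
  let T : Set Ks := {z | (z : L) ∈ (s.map fun t => (t.2.1 : L)) ++ (s.map fun t => (t.2.2 : L))}
  have hT : Finite T := by
    have h1 : {a : L | a ∈ (s.map fun t => (t.2.1 : L)) ++ (s.map fun t => (t.2.2 : L))}.Finite :=
      List.finite_toSet _
    exact (h1.preimage (Subtype.val_injective.injOn (s := Set.univ) |>.mono (Set.subset_univ _)))
  let E : IntermediateField K Ks := (FiniteGaloisIntermediateField.adjoin K T).toIntermediateField
  have : FiniteDimensional K E := inferInstance
  have : IsGalois K E := inferInstance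
  have hTE : T ⊆ E := FiniteGaloisIntermediateField.subset_adjoin K T
  have hmem : ∀ t ∈ s, (∃ e : E, algebraMap E L e = (t.2.1 : L)) ∧
      ∃ e : E, algebraMap E L e = (t.2.2 : L) := by
    intro t ht
    refine ⟨⟨⟨⟨(t.2.1 : L), mem_separableClosure_iff.mpr (hs t ht).1⟩, hTE ?_⟩, rfl⟩,
      ⟨⟨⟨(t.2.2 : L), mem_separableClosure_iff.mpr (hs t ht).2⟩, hTE ?_⟩, rfl⟩⟩
    · exact List.mem_append.mpr (Or.inl (List.mem_map.mpr ⟨t, ht, rfl⟩))
    · exact List.mem_append.mpr (Or.inr (List.mem_map.mpr ⟨t, ht, rfl⟩))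
  have : Normal K E := inferInstance
  have hsurj := AlgEquiv.restrictNormalHom_surjective (F := K) (K₁ := E) L
  choose g hg using hsurj
  refine ⟨E ≃ₐ[K] E, inferInstance, ⟨AlgEquiv.refl⟩, g, ?_⟩
  have hgE : ∀ (σ : E ≃ₐ[K] E) (e : E), g σ (algebraMap E L e) = algebraMap E L (σ e) := by
    intro σ e
    rw [← AlgEquiv.restrictNormal_commutes (g σ) E e]
    exact congrArg (fun τ : E ≃ₐ[K] E => algebraMap E L (τ e)) (hg σ)
  clear_value E
  clear hTE hT
  induction s with
  | nil => exact ⟨[], fun S => by simp⟩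
  | cons t s ih =>
    obtain ⟨l, hl⟩ := ih (fun t' ht' => hs t' (List.mem_cons_of_mem _ ht'))
      (fun t' ht' => hmem t' (List.mem_cons_of_mem _ ht'))
    obtain ⟨⟨e₁, h₁⟩, ⟨e₂, h₂⟩⟩ := hmem t List.mem_cons_self
    have he₁ : e₁ ≠ 0 := by
      rintro rfl
      rw [map_zero] at h₁
      exact t.2.1.ne_zero h₁.symm
    have he₂ : e₂ ≠ 0 := by
      rintro rfl
      rw [map_zero] at h₂
      exact t.2.2.ne_zero h₂.symm
    obtain ⟨l', hl'⟩ := tate_norm.{0, 0} (K := K) e₁ e₂ he₁ he₂
    refine ⟨(l'.map fun u => (t.1 * u.1, u.2)) ++ l, fun S => ?_⟩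
    have h := hl' L ℚ S.fn S.isSteinberg
    simp only [List.map_cons, List.sum_cons, Finset.sum_add_distrib, List.map_append,
      List.sum_append, List.map_map]
    rw [hl S]
    congr 1
    have e1 : ∀ σ : E ≃ₐ[K] E, S.φ (Additive.ofMul (Units.map (g σ : L →* L) t.2.1))
          (Additive.ofMul (Units.map (g σ : L →* L) t.2.2)) =
        S.fn (algebraMap E L (σ e₁)) (algebraMap E L (σ e₂)) := by
      intro σ
      rw [← S.fn_units, ← hgE, ← hgE, h₁, h₂]
      rfl
    rw [← Finset.smul_sum, Finset.sum_congr rfl (fun σ _ => e1 σ), h, symSum, List.smul_sum,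
      List.map_map]
    refine congrArg _ (List.map_congr_left fun u _ => ?_)
    simp only [Function.comp_apply]
    rw [mul_smul, ← S.fn_units]
    rfl

/-- The property of the rational tame symbol of the place `(V, v)` with the additive function `μ`
of the residue field. -/
def SymbOf {L : Type} [Field L] (V : ValuationSubring L) (v : Additive Lˣ →+ ℚ)
    (μ : Additive (IsLocalRing.ResidueField V)ˣ →+ ℚ) (φ : Additive Lˣ →+ Additive Lˣ →+ ℚ) :
    Prop :=
  ∀ (a b : Lˣ) (m n : ℤ) (u : Vˣ), v (Additive.ofMul a) = m →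
      v (Additive.ofMul b) = n → (a : L) ^ n = (-1) ^ (m * n) * (b : L) ^ m * ((u : V) : L) →
      φ (Additive.ofMul a) (Additive.ofMul b) =
        μ (Additive.ofMul (Units.map (IsLocalRing.residue V).toMonoidHom u))

/-- The tame symbol at `x` under a place over `x`. -/
theorem tame_eq_symb {X : Scheme.{0}} [IsIntegral X] [IsLocallyNoetherian X] {L : Type} [Field L]
    (j : X.functionField →+* L) (V : ValuationSubring L) (v : Additive Lˣ →+ ℚ) (x : X)
    (hord : ∀ g : X.functionFieldˣ, v (Additive.ofMul (Units.map j.toMonoidHom g)) =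
        X.ord (g : X.functionField) x)
    (loc : X.presheaf.stalk x →+* V) (res : X.residueField x →+* IsLocalRing.ResidueField V)
    (hloc : ∀ s, ((loc s : V) : L) = j (algebraMap _ X.functionField s))
    (hres : ∀ s, res ((X.residue x).hom s) = IsLocalRing.residue V (loc s))
    (μ : Additive (IsLocalRing.ResidueField V)ˣ →+ ℚ) (φ : Additive Lˣ →+ Additive Lˣ →+ ℚ)
    (hφ : SymbOf V v μ φ) (f g : X.functionFieldˣ) (t : (X.residueField x)ˣ)
    (h : IsTameAt x (f : X.functionField) g t) :
    φ (Additive.ofMul (Units.map j.toMonoidHom f)) (Additive.ofMul (Units.map j.toMonoidHom g)) =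
      μ (Additive.ofMul (Units.map res.toMonoidHom t)) := by
  obtain ⟨u, hu, ht⟩ := h
  have e := hφ (Units.map j.toMonoidHom f) (Units.map j.toMonoidHom g) (X.ord (f : X.functionField) x)
    (X.ord (g : X.functionField) x) (Units.map loc.toMonoidHom u) (hord f) (hord g) ?_
  · rw [e]
    congr 2
    ext
    change IsLocalRing.residue V (loc u) = res t
    rw [ht, ← hres]
  · change (j f) ^ _ = (-1) ^ _ * (j g) ^ _ * ((loc u : V) : L)
    rw [hloc, ← map_zpow₀, hu]
    simp only [map_mul, map_zpow₀, map_neg, map_one]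

/-- A chain in the subgroup of tame chains is, at all places, a formal sum of symbols. -/
theorem exists_list_tame {Y : Scheme.{0}} [IsIntegral Y] [IsLocallyNoetherian Y] {L : Type}
    [Field L] (j : Y.functionField →+* L) (ζ : SChain Y) (h : ζ ∈ tameChains Y) :
    ∃ s : List (ℤ × Y.functionFieldˣ × Y.functionFieldˣ), ∀ (V : ValuationSubring L)
      (v : Additive Lˣ →+ ℚ) (y : PointOne Y)
      (_ : ∀ g : Y.functionFieldˣ, v (Additive.ofMul (Units.map j.toMonoidHom g)) =
        Y.ord (g : Y.functionField) y.1)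
      (loc : Y.presheaf.stalk y.1 →+* V)
      (res : Y.residueField y.1 →+* IsLocalRing.ResidueField V)
      (_ : ∀ s, ((loc s : V) : L) = j (algebraMap _ Y.functionField s))
      (_ : ∀ s, res ((Y.residue y.1).hom s) = IsLocalRing.residue V (loc s))
      (μ : Additive (IsLocalRing.ResidueField V)ˣ →+ ℚ) (φ : Additive Lˣ →+ Additive Lˣ →+ ℚ)
      (_ : SymbOf V v μ φ),
      μ (Additive.ofMul (Units.map res.toMonoidHom (Additive.toMul (ζ y)))) =
        (s.map fun t => t.1 • φ (Additive.ofMul (Units.map j.toMonoidHom t.2.1))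
          (Additive.ofMul (Units.map j.toMonoidHom t.2.2))).sum := by
  induction h using AddSubgroup.closure_induction with
  | mem ζ hζ =>
    obtain ⟨f, g, hf, hg, ht⟩ := hζ
    refine ⟨[(1, Units.mk0 f hf, Units.mk0 g hg)], ?_⟩
    intro V v y hord loc res hloc hres μ φ hφ
    rw [← tame_eq_symb j V v y.1 hord loc res hloc hres μ φ hφ (Units.mk0 f hf) (Units.mk0 g hg)
      _ (ht y)]
    simp
  | zero =>
    refine ⟨[], ?_⟩
    intro V v y hord loc res hloc hres μ φ hφ
    simp
  | add ζ ζ' _ _ h h' =>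
    obtain ⟨s, hs⟩ := h
    obtain ⟨s', hs'⟩ := h'
    refine ⟨s ++ s', ?_⟩
    intro V v y hord loc res hloc hres μ φ hφ
    rw [List.map_append, List.sum_append, ← hs V v y hord loc res hloc hres μ φ hφ,
      ← hs' V v y hord loc res hloc hres μ φ hφ, DFinsupp.add_apply, toMul_add, map_mul,
      ofMul_mul, map_add]
  | neg ζ _ h =>
    obtain ⟨s, hs⟩ := h
    refine ⟨s.map fun t => (-t.1, t.2), ?_⟩
    intro V v y hord loc res hloc hres μ φ hφ
    rw [DFinsupp.neg_apply, toMul_neg, map_inv, ofMul_inv, map_neg,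
      hs V v y hord loc res hloc hres μ φ hφ, List.map_map, ← neg_one_zsmul, List.smul_sum,
      List.map_map]
    refine congrArg _ (List.map_congr_left fun t _ => ?_)
    simp


/-- The pull back of the value at `x`, in the residue field of a place over `x`. -/
theorem centre_res {Y X : Scheme.{0}} [IsIntegral Y] [IsIntegral X] {π : Y ⟶ X} {L : Type}
    [Field L] (j₀ : X.functionField →+* L) (V V' : ValuationSubring L) (φ : V' →+* V)
    (θ : IsLocalRing.ResidueField V' →+* IsLocalRing.ResidueField V)
    (hθ : ∀ a, θ (IsLocalRing.residue V' a) = IsLocalRing.residue V (φ a)) (y : Y)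
    (loc : Y.presheaf.stalk y →+* V') (res : Y.residueField y →+* IsLocalRing.ResidueField V')
    (hres : ∀ s, res ((Y.residue y).hom s) = IsLocalRing.residue V' (loc s))
    (hφ : ∀ s : X.presheaf.stalk (π y), ((φ (loc ((π.stalkMap y).hom s)) : V) : L) =
      j₀ (algebraMap _ X.functionField s)) (x : X) (hy : π y = x)
    (locX : X.presheaf.stalk x →+* V) (ρ : X.residueField x →+* IsLocalRing.ResidueField V)
    (hlocX : ∀ s, ((locX s : V) : L) = j₀ (algebraMap _ X.functionField s))
    (hρ : ∀ s, ρ ((X.residue x).hom s) = IsLocalRing.residue V (locX s))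
    (ξ : SChain X) (hx : Order.coheight x = 1) (η : SChain Y) (hη : IsPull π ξ η)
    (hy1 : Order.coheight y = 1) :
    Units.map θ.toMonoidHom (Units.map res.toMonoidHom (Additive.toMul (η ⟨y, hy1⟩))) =
      Units.map ρ.toMonoidHom (Additive.toMul (ξ ⟨x, hx⟩)) := by
  subst hy
  rw [hη ⟨y, hy1⟩ hx]
  ext
  obtain ⟨s, hs⟩ := X.residue_surjective (π y)
    ((Additive.toMul (ξ ⟨π y, hx⟩) : (X.residueField (π y))ˣ) : X.residueField (π y))
  change θ (res ((π.residueFieldMap y).hom ((Additive.toMul (ξ ⟨π y, hx⟩) :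
    (X.residueField (π y))ˣ) : X.residueField (π y)))) = ρ _
  rw [← hs]
  have e1 : (π.residueFieldMap y).hom ((X.residue (π y)).hom s) =
      (Y.residue y).hom ((π.stalkMap y).hom s) := by
    have := congrArg (fun f => f.hom s) (Scheme.residue_residueFieldMap π y)
    exact this
  erw [e1]
  rw [hres, hθ]
  erw [hρ]
  congr 1
  ext
  rw [hφ, hlocX]

/-- At a point `x` of codimension one there is a rational Steinberg map `S` of `L` which computes
the tame symbols at `x`, and all of whose conjugates compute the pull backs. -/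
theorem descent_point {Y X : Scheme.{0}} [IsIntegral Y] [IsIntegral X] [IsNoetherian Y]
    [IsNoetherian X] {π : Y ⟶ X} (P : ProEt π)
    (hX : ∀ x : X, IsRegularLocalRing (X.presheaf.stalk x))
    (hY : ∀ y : Y, IsRegularLocalRing (Y.presheaf.stalk y))
    {L : Type} [Field L] (j : Y.functionField →+* L)
    (hj : letI := (j.comp P.ψ).toAlgebra; Algebra.IsAlgebraic X.functionField L)
    (ξ : SChain X) (η : SChain Y) (hη : IsPull π ξ η) (N : ℕ)
    (s : List (ℤ × Y.functionFieldˣ × Y.functionFieldˣ))
    (hs : ∀ (V : ValuationSubring L)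
      (v : Additive Lˣ →+ ℚ) (y : PointOne Y)
      (_ : ∀ g : Y.functionFieldˣ, v (Additive.ofMul (Units.map j.toMonoidHom g)) =
        Y.ord (g : Y.functionField) y.1)
      (loc : Y.presheaf.stalk y.1 →+* V)
      (res : Y.residueField y.1 →+* IsLocalRing.ResidueField V)
      (_ : ∀ s, ((loc s : V) : L) = j (algebraMap _ Y.functionField s))
      (_ : ∀ s, res ((Y.residue y.1).hom s) = IsLocalRing.residue V (loc s))
      (μ : Additive (IsLocalRing.ResidueField V)ˣ →+ ℚ) (φ : Additive Lˣ →+ Additive Lˣ →+ ℚ)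
      (_ : SymbOf V v μ φ),
      μ (Additive.ofMul (Units.map res.toMonoidHom (Additive.toMul ((N • η) y)))) =
        (s.map fun t => t.1 • φ (Additive.ofMul (Units.map j.toMonoidHom t.2.1))
          (Additive.ofMul (Units.map j.toMonoidHom t.2.2))).sum)
    (x : PointOne X) (μ : Additive (X.residueField x.1)ˣ →+ ℚ) :
    ∃ S : Symb L,
      (∀ g : L ≃+* L, (∀ a : X.functionField, g (j (P.ψ a)) = j (P.ψ a)) →
        N • μ (ξ x) = (s.map fun t => t.1 •
          S.φ (Additive.ofMul (Units.map (g : L →* L) (Units.map j.toMonoidHom t.2.1)))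
            (Additive.ofMul (Units.map (g : L →* L) (Units.map j.toMonoidHom t.2.2)))).sum) ∧
      ∀ (a b : X.functionFieldˣ) (t : (X.residueField x.1)ˣ),
        IsTameAt x.1 (a : X.functionField) b t →
        S.φ (Additive.ofMul (Units.map (j.comp P.ψ).toMonoidHom a))
          (Additive.ofMul (Units.map (j.comp P.ψ).toMonoidHom b)) = μ (Additive.ofMul t) := by
  obtain ⟨V, v, hv, hvx⟩ := exists_place hX x.1 x.2 (j.comp P.ψ) hj
  obtain ⟨y₁, hy₁, hord₁, loc₁, res₁, hloc₁, hres₁⟩ := exists_centre P hX hY x.1 x.2 j V v hv hvx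
  obtain ⟨x, hx⟩ := x
  dsimp only at hy₁ hvx μ ⊢
  subst hy₁
  let locX : X.presheaf.stalk (π y₁) →+* V := loc₁.comp (π.stalkMap y₁).hom
  let ρ : X.residueField (π y₁) →+* IsLocalRing.ResidueField V :=
    res₁.comp (π.residueFieldMap y₁).hom
  have hlocX : ∀ s, ((locX s : V) : L) = (j.comp P.ψ) (algebraMap _ X.functionField s) := by
    intro s
    change ((loc₁ ((π.stalkMap y₁).hom s) : V) : L) = j (P.ψ _)
    rw [hloc₁, P.ψ_stalk]
  have hρ : ∀ s, ρ ((X.residue (π y₁)).hom s) = IsLocalRing.residue V (locX s) := by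
    intro s
    have e1 : (π.residueFieldMap y₁).hom ((X.residue (π y₁)).hom s) =
        (Y.residue y₁).hom ((π.stalkMap y₁).hom s) := by
      have := congrArg (fun f => f.hom s) (Scheme.residue_residueFieldMap π y₁)
      exact this
    change res₁ ((π.residueFieldMap y₁).hom ((X.residue (π y₁)).hom s)) = _
    erw [e1]
    rw [hres₁]
    rfl
  obtain ⟨μ', hμ'⟩ := exists_hom_ext (MonoidHom.toAdditive (Units.map ρ.toMonoidHom)) μ (by
    intro g hg
    have h1 : Units.map ρ.toMonoidHom (Additive.toMul g) = 1 := hg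
    have h2 : Additive.toMul g = 1 := Units.map_injective ρ.injective (by rw [h1, map_one])
    have h3 : g = 0 := by
      rw [← ofMul_toMul g, h2, ofMul_one]
    rw [h3, map_zero])
  obtain ⟨S, hS⟩ := exists_symb V v hv μ'
  refine ⟨S, ?_, ?_⟩
  · intro g hg
    let G : Additive Lˣ →+ Additive Lˣ := MonoidHom.toAdditive (Units.map (g : L →* L))
    have hG : ∀ f : X.functionFieldˣ, G (Additive.ofMul (Units.map (j.comp P.ψ).toMonoidHom f)) =
        Additive.ofMul (Units.map (j.comp P.ψ).toMonoidHom f) := by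
      intro f
      apply Additive.toMul.injective
      ext
      exact hg f
    let V' : ValuationSubring L := V.comap (g : L →+* L)
    let v' : Additive Lˣ →+ ℚ := v.comp G
    have hv' : ∀ a : Lˣ, (a : L) ∈ V' ↔ 0 ≤ v' (Additive.ofMul a) := by
      intro a
      change g (a : L) ∈ V ↔ _
      exact hv (Units.map (g : L →* L) a)
    have hvx' : ∀ f : X.functionFieldˣ,
        v' (Additive.ofMul (Units.map (j.comp P.ψ).toMonoidHom f)) =
          X.ord (f : X.functionField) (π y₁) := by
      intro f
      change v (G _) = _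
      rw [hG, hvx]
    obtain ⟨y, hy, hord, loc, res, hloc, hres⟩ :=
      exists_centre P hX hY (π y₁) hx j V' v' hv' hvx'
    let φ : V' →+* V := RingHom.restrict (g : L →+* L) V' V (fun a ha => ha)
    have hφv : ∀ a, ((φ a : V) : L) = g (a : L) := fun _ => rfl
    have hφl : IsLocalHom φ := by
      constructor
      intro a ha
      obtain ⟨b, hb⟩ := ha.exists_right_inv
      have hb' : g (a : L) * (b : L) = 1 := congrArg (Subtype.val) hb
      have hmem : g.symm (b : L) ∈ V' := by
        change g (g.symm (b : L)) ∈ V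
        rw [RingEquiv.apply_symm_apply]
        exact b.2
      refine IsUnit.of_mul_eq_one ⟨g.symm (b : L), hmem⟩ ?_
      ext
      change (a : L) * g.symm (b : L) = 1
      apply g.injective
      rw [map_mul, RingEquiv.apply_symm_apply, hb', map_one]
    let θ : IsLocalRing.ResidueField V' →+* IsLocalRing.ResidueField V :=
      IsLocalRing.ResidueField.map φ
    have hθ : ∀ a, θ (IsLocalRing.residue V' a) = IsLocalRing.residue V (φ a) :=
      fun a => IsLocalRing.ResidueField.map_residue φ a
    have hsym : SymbOf V' v' (μ'.comp (MonoidHom.toAdditive (Units.map θ.toMonoidHom)))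
        ((S.φ.comp G).compl₂ G) := by
      intro a b m n u hm hn e
      have := hS (Units.map (g : L →* L) a) (Units.map (g : L →* L) b) m n
        (Units.map φ.toMonoidHom u) hm hn (by
          have e' := congrArg g e
          simp only [map_mul, map_zpow₀, map_neg, map_one] at e'
          exact e')
      change S.φ (Additive.ofMul (Units.map (g : L →* L) a))
        (Additive.ofMul (Units.map (g : L →* L) b)) = _
      rw [this]
      change μ' _ = μ' (Additive.ofMul (Units.map θ.toMonoidHom
        (Units.map (IsLocalRing.residue V').toMonoidHom u)))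
      congr 2
    have hy1 : Order.coheight y = 1 := by
      rw [← coheight_pi P y, hy, hx]
    have key := hs V' v' ⟨y, hy1⟩ hord loc res hloc hres _ _ hsym
    have e2 := centre_res (j.comp P.ψ) V V' φ θ hθ y loc res hres (by
      intro s
      rw [hφv, hloc, ← P.ψ_stalk]
      exact hg _) (π y₁) hy locX ρ hlocX hρ ξ hx η hη hy1
    have e3 : μ' (Additive.ofMul (Units.map ρ.toMonoidHom (Additive.toMul (ξ ⟨π y₁, hx⟩)))) =
        μ (ξ ⟨π y₁, hx⟩) := hμ' (ξ ⟨π y₁, hx⟩)
    rw [← e3, ← e2]
    refine Eq.trans ?_ key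
    change _ = μ' (Additive.ofMul (Units.map θ.toMonoidHom (Units.map res.toMonoidHom
      (Additive.toMul ((N • η) ⟨y, hy1⟩)))))
    rw [DFinsupp.smul_apply, toMul_nsmul, map_pow, map_pow, ofMul_pow, map_nsmul]
  · intro a b t ht
    rw [tame_eq_symb (j.comp P.ψ) V v (π y₁) hvx locX ρ hlocX hρ μ' S.φ hS a b t ht]
    exact hμ' (Additive.ofMul t)

lemma descent_field {K M L : Type} [Field K] [Field M] [Field L] (ψ : K →+* M) (j : M →+* L)
    (hsep : letI := ψ.toAlgebra; Algebra.IsSeparable K M)
    (hj : ∀ x : L, ∃ p : Polynomial M, p ≠ 0 ∧ p.eval₂ j x = 0) :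
    letI := (j.comp ψ).toAlgebra
    Algebra.IsAlgebraic K L ∧ ∀ a : M, IsSeparable K (j a) := by
  let a1 : Algebra K M := ψ.toAlgebra
  let a2 : Algebra M L := j.toAlgebra
  let a3 : Algebra K L := (j.comp ψ).toAlgebra
  have tow : IsScalarTower K M L := IsScalarTower.of_algebraMap_eq (fun _ => rfl)
  have h1 : Algebra.IsSeparable K M := hsep
  have h2 : Algebra.IsAlgebraic M L := ⟨fun x => by
    obtain ⟨p, hp, h⟩ := hj x
    exact ⟨p, hp, by rw [Polynomial.aeval_def]; exact h⟩⟩
  refine ⟨Algebra.IsAlgebraic.trans K M L, fun a => ?_⟩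
  exact (Algebra.IsSeparable.isSeparable K a).map (IsScalarTower.toAlgHom K M L)
    (algebraMap M L).injective

/-- Descent: if a multiple of the pull back of a chain is tame, then a multiple of the chain is
tame. -/
theorem descent {Y X : Scheme.{0}} [IsIntegral Y] [IsIntegral X] [IsNoetherian Y]
    [IsNoetherian X] {π : Y ⟶ X} (P : ProEt π) [Infinite X.functionField]
    (hX : ∀ x : X, IsRegularLocalRing (X.presheaf.stalk x))
    (hY : ∀ y : Y, IsRegularLocalRing (Y.presheaf.stalk y))
    (ξ : SChain X) (η : SChain Y) (hη : IsPull π ξ η) (N : ℕ) (hN : 0 < N)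
    (h : N • η ∈ tameChains Y) : ∃ M : ℕ, 0 < M ∧ M • ξ ∈ tameChains X := by
  classical
  let j : Y.functionField →+* AlgebraicClosure Y.functionField := algebraMap _ _
  let L := AlgebraicClosure Y.functionField
  let alg2 : Algebra X.functionField L := (j.comp P.ψ).toAlgebra
  have hf := descent_field (L := L) P.ψ j P.sep (by
    intro x
    obtain ⟨p, hp, h⟩ := (AlgebraicClosure.isAlgebraic Y.functionField).isAlgebraic x
    exact ⟨p, hp, by rw [Polynomial.aeval_def] at h; exact h⟩)
  have hj := hf.1
  obtain ⟨s, hs⟩ := exists_list_tame j (N • η) h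
  obtain ⟨ι, hι, hne, g, l, hl⟩ := @exists_trans_list X.functionField L _ _ alg2 _ hj
    (s.map fun t => (t.1, Units.map j.toMonoidHom t.2.1, Units.map j.toMonoidHom t.2.2)) (by
      intro t ht
      obtain ⟨t', ht', rfl⟩ := List.mem_map.mp ht
      exact ⟨hf.2 _, hf.2 _⟩)
  choose τ hτ using fun a b : X.functionFieldˣ =>
    exists_tame_chain hX (a : X.functionField) b a.ne_zero b.ne_zero
  let c : SChain X := (l.map fun t => t.1 • τ t.2.1 t.2.2).sum
  have hτt : ∀ a b : X.functionFieldˣ, τ a b ∈ tameChains X := fun a b =>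
    AddSubgroup.subset_closure ⟨a, b, a.ne_zero, b.ne_zero, hτ a b⟩
  have hc : c ∈ tameChains X := by
    refine AddSubgroup.list_sum_mem _ ?_
    intro z hz
    obtain ⟨t, ht, rfl⟩ := List.mem_map.mp hz
    exact AddSubgroup.zsmul_mem _ (hτt _ _) _
  have hcard : 0 < Fintype.card ι := Fintype.card_pos
  have key : ∀ (x : PointOne X) (μ : Additive (X.residueField x.1)ˣ →+ ℚ),
      μ (((Fintype.card ι * N) • ξ - c) x) = 0 := by
    intro x μ
    obtain ⟨S, hS1, hS2⟩ := descent_point P hX hY j hj ξ η hη N s hs x μ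
    have h1 := hl S
    have h2 : ∀ i, N • μ (ξ x) = _ := fun i => hS1 (g i : L ≃+* L) (fun a => (g i).commutes a)
    have h3 : ∑ i : ι, N • μ (ξ x) = (l.map fun t => t.1 • μ (τ t.2.1 t.2.2 x)).sum := by
      rw [Finset.sum_congr rfl (fun i _ => h2 i)]
      simp only [List.map_map] at h1
      refine Eq.trans ?_ (h1.trans ?_)
      · rfl
      · refine congrArg _ (List.map_congr_left fun t _ => ?_)
        have := hS2 t.2.1 t.2.2 _ (hτ t.2.1 t.2.2 x)
        exact congrArg _ this
    have h4 : μ (c x) = (l.map fun t => t.1 • μ (τ t.2.1 t.2.2 x)).sum := by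
      have e : μ (c x) = (μ.comp (DFinsupp.evalAddMonoidHom x)) c := rfl
      rw [e, map_list_sum, List.map_map]
      refine congrArg _ (List.map_congr_left fun t _ => ?_)
      simp only [Function.comp_apply, map_zsmul]
      rfl
    rw [DFinsupp.sub_apply, map_sub, h4, ← h3, DFinsupp.smul_apply, map_nsmul, Finset.sum_const,
      Finset.card_univ, mul_smul, sub_self]
  choose m hm0 hm using fun x : PointOne X =>
    torsion_of_hom (((Fintype.card ι * N) • ξ - c) x) (key x)
  let z : SChain X := (Fintype.card ι * N) • ξ - c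
  let M : ℕ := ∏ x ∈ z.support, m x
  have hM0 : 0 < M := Finset.prod_pos fun x _ => hm0 x
  have hMz : ∀ x, M • (z x) = 0 := by
    intro x
    by_cases hx : x ∈ z.support
    · obtain ⟨q, hq⟩ := Finset.dvd_prod_of_mem m hx
      change (∏ x ∈ z.support, m x) • z x = 0
      rw [hq, mul_comm, mul_nsmul', hm x, nsmul_zero]
    · rw [DFinsupp.notMem_support_iff.mp hx, nsmul_zero]
  refine ⟨M * (Fintype.card ι * N), Nat.mul_pos hM0 (Nat.mul_pos hcard hN), ?_⟩
  have e : (M * (Fintype.card ι * N)) • ξ = M • c := by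
    ext1 x
    have h1 := hMz x
    have h2 : z x = (Fintype.card ι * N) • (ξ x) - c x := rfl
    rw [h2, nsmul_sub, sub_eq_zero] at h1
    rw [DFinsupp.smul_apply, DFinsupp.smul_apply, ← h1]
    exact mul_smul _ _ _
  rw [e]
  exact AddSubgroup.nsmul_mem _ hc _

end Pool.Agent.K1
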