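import Pool.Agent.K1.L3Defs

/-!
Layer 3, L3-11: an open set containing a suitable finite set of points contains the support of
a chain, and the components of the chain are units at the remaining points.
-/

set_option autoImplicit false

open AlgebraicGeometry CategoryTheory

attribute [local instance] MvPolynomial.gradedAlgebra

namespace Pool.Agent.K1

/-- A point different from a generization has larger codimension. -/
theorem coheight_add_one_le_of_specializes {X : Scheme.{0}} {x y : X} (h : x ⤳ y)
    (hne : y ≠ x) : Order.coheight x + 1 ≤ Order.coheight y := by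
  apply Order.coheight_add_one_le
  rw [lt_iff_le_not_ge]
  refine ⟨Scheme.le_iff_specializes.mpr h, fun h' => hne ?_⟩
  have h2 : y ⤳ x := Scheme.le_iff_specializes.mp h'
  exact (h2.antisymm h).eq

/-- A closed set of points of the largest codimension is finite. -/
theorem finite_of_closed_of_coheight {X : Scheme.{0}} [IsNoetherian X]
    (hdim : ∀ x : X, Order.coheight x ≤ 2) (T : Set X) (hT : IsClosed T)
    (h2 : ∀ y ∈ T, Order.coheight y = 2) : T.Finite := by
  obtain ⟨S, hS, hcl, hirr, hsup⟩ :=
    TopologicalSpace.NoetherianSpace.exists_finite_set_isClosed_irreducible hT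
  rw [hsup]
  refine Set.Finite.sUnion hS fun t ht => ?_
  obtain ⟨η, hη⟩ := QuasiSober.sober (hirr t ht) (hcl t ht)
  refine (Set.finite_singleton η).subset fun y hy => ?_
  by_contra hne
  have hηt : η ∈ t := hη.mem
  have hsp : η ⤳ y := hη.specializes hy
  have h1 := coheight_add_one_le_of_specializes hsp hne
  have h3 : Order.coheight η = 2 := h2 η (by rw [hsup]; exact ⟨t, ht, hηt⟩)
  rw [h3] at h1
  have h4 := h1.trans (hdim y)
  exact absurd h4 (by decide)

theorem exists_avoid {X : Scheme.{0}} [IsIntegral X] [IsNoetherian X]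
    (hdim : ∀ x : X, Order.coheight x ≤ 2) (ξ : SChain X) :
    ∃ Z : Set X, Z.Finite ∧ ∀ V : X.Opens, Z ⊆ V → (∀ x : PointOne X, ξ x ≠ 0 → x.1 ∈ V) ∧
      ∀ x : PointOne X, ξ x ≠ 0 → ∀ y, y ∉ V → ∀ h : x.1 ⤳ y,
        ∃ u : (X.presheaf.stalk y)ˣ,
          ((Additive.toMul (ξ x) : (X.residueField x.1)ˣ) : X.residueField x.1) =
            evalAt h u := by
  classical
  -- a unit section near every point of codimension one
  have hsec : ∀ x : PointOne X, ∃ (U : X.Opens) (hU : x.1 ∈ U) (s : Γ(X, U)),
      x.1 ∈ X.basicOpen s ∧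
      (X.residue x.1).hom ((X.presheaf.germ U x.1 hU).hom s) =
        ((Additive.toMul (ξ x) : (X.residueField x.1)ˣ) : X.residueField x.1) := by
    intro x
    obtain ⟨a, ha⟩ := X.residue_surjective x.1
      ((Additive.toMul (ξ x) : (X.residueField x.1)ˣ) : X.residueField x.1)
    obtain ⟨U, hU, s, hs⟩ := X.presheaf.exists_germ_eq a
    refine ⟨U, hU, s, ?_, ?_⟩
    · rw [X.mem_basicOpen s x.1 hU]
      have h0 : IsUnit a := by
        have : (X.residue x.1).hom a ≠ 0 := by
          have e : (X.residue x.1).hom a =
            ((Additive.toMul (ξ x) : (X.residueField x.1)ˣ) : X.residueField x.1) := ha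
          rw [e]; exact Units.ne_zero _
        exact (IsLocalRing.residue_ne_zero_iff_isUnit a).mp this
      rw [← hs] at h0
      exact h0
    · have hs' : (X.presheaf.germ U x.1 hU).hom s = a := hs
      rw [hs']
      exact ha
  choose U hU s hmem hres using hsec
  let T : PointOne X → Set X := fun x => closure {x.1} \ (X.basicOpen (s x) : Set X)
  have hTfin : ∀ x, (T x).Finite := by
    intro x
    refine finite_of_closed_of_coheight hdim _ (isClosed_closure.sdiff (X.basicOpen (s x)).2) ?_
    rintro y ⟨hy, hy'⟩
    have hsp : x.1 ⤳ y := specializes_iff_mem_closure.mpr hy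
    have hne : y ≠ x.1 := by
      rintro rfl
      exact hy' (hmem x)
    have h1 := coheight_add_one_le_of_specializes hsp hne
    rw [x.2] at h1
    exact le_antisymm (hdim y) h1
  refine ⟨(⋃ x ∈ ξ.support, (T x ∪ {x.1})), ?_, ?_⟩
  · exact Set.Finite.biUnion (Finset.finite_toSet _) fun x _ => (hTfin x).union (Set.finite_singleton _)
  · intro V hV
    have hsupp : ∀ x : PointOne X, ξ x ≠ 0 → T x ∪ {x.1} ⊆ (V : Set X) := by
      intro x hx
      exact (Set.subset_biUnion_of_mem (u := fun x => T x ∪ {x.1})
        (DFinsupp.mem_support_iff.mpr hx)).trans hV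
    refine ⟨fun x hx => hsupp x hx (Or.inr rfl), ?_⟩
    intro x hx y hy h
    have hyb : y ∈ X.basicOpen (s x) := by
      by_contra hn
      exact hy (hsupp x hx (Or.inl ⟨specializes_iff_mem_closure.mp h, hn⟩))
    have hyU : y ∈ U x := X.basicOpen_le (s x) hyb
    have hun : IsUnit ((X.presheaf.germ (U x) y hyU).hom (s x)) :=
      (X.mem_basicOpen (s x) y hyU).mp hyb
    refine ⟨hun.unit, ?_⟩
    rw [IsUnit.unit_spec, evalAt, RingHom.comp_apply]
    have hg : (X.presheaf.stalkSpecializes h).hom ((X.presheaf.germ (U x) y hyU).hom (s x)) =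
        (X.presheaf.germ (U x) x.1 (hU x)).hom (s x) := by
      have := X.presheaf.germ_stalkSpecializes hyU h
      have h2 := congrArg (fun f => f.hom (s x)) this
      exact h2
    rw [hg, hres x]

end Pool.Agent.K1
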