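import Mathlib

/-!
Separating transcendence bases among linear combinations of generators of a field of
transcendence degree two over a perfect field.
-/

set_option autoImplicit false

namespace Pool.Agent.K1

open IntermediateField KaehlerDifferential

section

variable {k K : Type*} [Field k] [Field K] [Algebra k K]

/-- A derivation that vanishes on a set vanishes on the field generated by it. -/
theorem ff_der_zero {M : Type*} [AddCommGroup M] [Module K M] [Module k M] [IsScalarTower k K M]
    (d : Derivation k K M) (S : Set K) (h : ∀ x ∈ S, d x = 0) {x : K}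
    (hx : x ∈ IntermediateField.adjoin k S) : d x = 0 := by
  induction hx using IntermediateField.adjoin_induction with
  | mem x hx => exact h x hx
  | algebraMap x => exact d.map_algebraMap x
  | add x y _ _ hx hy => rw [map_add, hx, hy, add_zero]
  | inv x _ hx => rw [Derivation.leibniz_inv, hx, smul_zero]
  | mul x y _ _ hx hy => rw [Derivation.leibniz, hx, hy, smul_zero, smul_zero, add_zero]

/-- The differentials of the elements of the field generated by `S` are combinations of those of
the elements of `S`. -/
theorem ff_span (S : Set K) {x : K} (hx : x ∈ IntermediateField.adjoin k S) :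
    D k K x ∈ Submodule.span K (D k K '' S) := by
  have h := ff_der_zero ((Submodule.span K (D k K '' S)).mkQ.compDer (D k K)) S (fun y hy => by
    change (Submodule.span K (D k K '' S)).mkQ (D k K y) = 0
    rw [Submodule.mkQ_apply, Submodule.Quotient.mk_eq_zero]
    exact Submodule.subset_span ⟨y, hy, rfl⟩) hx
  change (Submodule.span K (D k K '' S)).mkQ (D k K x) = 0 at h
  rwa [Submodule.mkQ_apply, Submodule.Quotient.mk_eq_zero] at h

theorem ff_span_top (S : Set K) (hS : IntermediateField.adjoin k S = ⊤) :
    Submodule.span K (D k K '' S) = ⊤ := by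
  rw [eq_top_iff, ← span_range_derivation, Submodule.span_le]
  rintro _ ⟨x, rfl⟩
  exact ff_span S (by rw [hS]; trivial)

/-- If the differentials of the elements of `S` span, the field is formally unramified over the
field generated by `S`. -/
theorem ff_unram (S : Set K) (h : Submodule.span K (D k K '' S) = ⊤) :
    Algebra.FormallyUnramified (IntermediateField.adjoin k S) K := by
  constructor
  refine ⟨fun a b => ?_⟩
  have h0 : ∀ a : Ω[K⁄IntermediateField.adjoin k S], a = 0 := by
    intro a
    obtain ⟨b, rfl⟩ := KaehlerDifferential.map_surjective k (IntermediateField.adjoin k S) K a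
    have hb : b ∈ Submodule.span K (D k K '' S) := by rw [h]; trivial
    induction hb using Submodule.span_induction with
    | mem x hx =>
      obtain ⟨y, hy, rfl⟩ := hx
      rw [KaehlerDifferential.map_D]
      exact (D (IntermediateField.adjoin k S) K).map_algebraMap
        ⟨y, IntermediateField.subset_adjoin k S hy⟩
    | zero => exact map_zero _
    | add x y _ _ hx hy => rw [map_add, hx, hy, add_zero]
    | smul r x _ hx => rw [map_smul, hx, smul_zero]
  rw [h0 a, h0 b]

/-- If the field is separable algebraic over the field generated by `S`, the differentials of the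
elements of `S` span. -/
theorem ff_span_of_sep (S : Set K) [Algebra.IsSeparable (IntermediateField.adjoin k S) K] :
    Submodule.span K (D k K '' S) = ⊤ := by
  have hu : Algebra.FormallyUnramified (IntermediateField.adjoin k S) K :=
    Algebra.FormallyUnramified.of_isSeparable _ _
  rw [eq_top_iff]
  rintro x -
  have hx : x ∈ LinearMap.ker (KaehlerDifferential.map k (IntermediateField.adjoin k S) K K) :=
    Subsingleton.elim _ _
  rw [← KaehlerDifferential.range_mapBaseChange] at hx
  obtain ⟨y, rfl⟩ := hx
  induction y with
  | zero => simp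
  | tmul r s =>
    rw [mapBaseChange_tmul]
    apply Submodule.smul_mem
    have hs : s ∈ Submodule.span (IntermediateField.adjoin k S)
        (Set.range (D k (IntermediateField.adjoin k S))) := by
      rw [span_range_derivation]; trivial
    induction hs using Submodule.span_induction with
    | mem x hx =>
      obtain ⟨y, rfl⟩ := hx
      rw [KaehlerDifferential.map_D]
      exact ff_span S y.2
    | zero => rw [map_zero]; exact zero_mem _
    | add x y _ _ hx hy => rw [map_add]; exact add_mem hx hy
    | smul r x _ hx =>
      rw [map_smul]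
      exact (Submodule.span K (D k K '' S)).smul_of_tower_mem r hx
  | add x y hx hy => rw [map_add]; exact add_mem hx hy


/-- If the differentials of `u`, `v` span, then `u`, `v` is a separating transcendence basis. -/
theorem ff_sep_basis [Algebra.EssFiniteType k K] (htr : Algebra.trdeg k K = 2) (u v : K)
    (h : Submodule.span K (D k K '' {u, v}) = ⊤) :
    AlgebraicIndependent k ![u, v] ∧
      FiniteDimensional (IntermediateField.adjoin k {u, v}) K ∧
      Algebra.IsSeparable (IntermediateField.adjoin k {u, v}) K := by
  have hu := ff_unram {u, v} h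
  have he : Algebra.EssFiniteType (IntermediateField.adjoin k {u, v}) K := .of_comp k _ _
  have hf : FiniteDimensional (IntermediateField.adjoin k {u, v}) K :=
    Algebra.FormallyUnramified.finite_of_free _ _
  have hs : Algebra.IsSeparable (IntermediateField.adjoin k {u, v}) K :=
    Algebra.FormallyUnramified.isSeparable _ _
  refine ⟨?_, hf, hs⟩
  have halg : Algebra.IsAlgebraic (Algebra.adjoin k ({u, v} : Set K)) K := by
    rw [← isAlgebraic_adjoin_iff_top]
    exact Algebra.IsAlgebraic.of_finite _ _
  obtain ⟨t, hts, ht⟩ := exists_isTranscendenceBasis_subset (R := k) ({u, v} : Set K)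
  have hc := ht.cardinalMk_eq_trdeg
  rw [htr] at hc
  have ht2 : t.ncard = 2 := by
    rw [Set.ncard, Set.encard, ENat.card, hc]
    simp
  have hfin : ({u, v} : Set K).Finite := Set.toFinite _
  have hle : ({u, v} : Set K).ncard ≤ 2 := (Set.ncard_insert_le _ _).trans (by simp)
  have hte : t = {u, v} := Set.eq_of_subset_of_ncard_le hts (by rw [ht2]; exact hle) hfin
  subst hte
  have huv : u ≠ v := by
    rintro rfl
    simp at ht2
  have hinj : Function.Injective (![⟨u, by simp⟩, ⟨v, by simp⟩] : Fin 2 → ({u, v} : Set K)) := by
    intro i j hij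
    fin_cases i <;> fin_cases j <;> simp_all
  have h1 := ht.1.comp _ hinj
  convert h1 using 1
  ext i
  fin_cases i <;> rfl

/-- Linear combinations. -/
theorem ff_exists [PerfectField k] [Infinite k] (htr : Algebra.trdeg k K = 2) {m : ℕ}
    (y : Fin m → K) (hy : IntermediateField.adjoin k (Set.range y) = ⊤)
    (W : Finset (Submodule k (Fin m → k))) (hW : ⊤ ∉ W) :
    ∃ c₁ c₂ : Fin m → k, (∀ P ∈ W, c₁ ∉ P) ∧
      AlgebraicIndependent k ![∑ j, c₁ j • y j, ∑ j, c₂ j • y j] ∧
      FiniteDimensional (IntermediateField.adjoin k {∑ j, c₁ j • y j, ∑ j, c₂ j • y j}) K ∧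
      Algebra.IsSeparable (IntermediateField.adjoin k {∑ j, c₁ j • y j, ∑ j, c₂ j • y j}) K := by
  classical
  have hess : Algebra.EssFiniteType k K := by
    rw [← IntermediateField.fg_top_iff]
    exact ⟨Finset.univ.image y, by simpa using hy⟩
  -- the map to the differentials
  let φ : (Fin m → k) →ₗ[k] Ω[K⁄k] := Fintype.linearCombination k fun j => D k K (y j)
  have hφ : ∀ c, φ c = D k K (∑ j, c j • y j) := by
    intro c
    simp [φ, Fintype.linearCombination_apply]
  have hspan := ff_span_top (k := k) (Set.range y) hy
  -- the dimension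
  obtain ⟨s, hs1, hs2⟩ := exists_isTranscendenceBasis_and_isSeparable_of_perfectField k K
  have hs3 := ff_span_of_sep (k := k) (s : Set K)
  have hscard : s.card = 2 := by
    have hc := hs1.cardinalMk_eq_trdeg
    rw [htr] at hc
    simp only [Cardinal.mk_fintype, Fintype.card_coe] at hc
    exact_mod_cast hc
  have hs4 : Submodule.span K ((s.image (D k K) : Finset Ω[K⁄k]) : Set Ω[K⁄k]) = ⊤ := by
    rw [Finset.coe_image]
    exact hs3
  have hfinΩ : Module.Finite K Ω[K⁄k] := ⟨⟨_, hs4⟩⟩
  have hdim : Module.finrank K Ω[K⁄k] ≤ 2 := by
    have h1 := finrank_span_finset_le_card (R := K) (s.image (D k K))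
    rw [Set.finrank, hs4, finrank_top] at h1
    exact h1.trans (Finset.card_image_le.trans hscard.le)
  have hne : LinearMap.ker φ ≠ ⊤ := by
    intro h
    have h1 : ∀ j, D k K (y j) = 0 := by
      intro j
      have h2 : (Pi.single j 1 : Fin m → k) ∈ LinearMap.ker φ := by rw [h]; trivial
      rw [LinearMap.mem_ker, hφ] at h2
      simpa [Pi.single_apply] using h2
    have h3 : Submodule.span K (D k K '' Set.range y) = ⊥ := by
      rw [Submodule.span_eq_bot]
      rintro _ ⟨_, ⟨j, rfl⟩, rfl⟩
      exact h1 j
    rw [hspan] at h3
    have h4 : Subsingleton Ω[K⁄k] := by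
      rw [← Submodule.subsingleton_iff K]
      exact subsingleton_of_bot_eq_top h3.symm
    have h5 : Algebra.FormallyUnramified k K := ⟨h4⟩
    have h6 : Module.Finite k K := Algebra.FormallyUnramified.finite_of_free _ _
    have h7 : Algebra.IsAlgebraic k K := Algebra.IsAlgebraic.of_finite _ _
    rw [_root_.trdeg_eq_zero (R := k) (A := K)] at htr
    exact two_ne_zero htr.symm
  obtain ⟨c₁, hc₁⟩ : ∃ c₁ : Fin m → k, ∀ P ∈ insert (LinearMap.ker φ) W, c₁ ∉ P := by
    by_contra hcon
    push Not at hcon
    have h1 : ⊤ ∉ insert (LinearMap.ker φ) W := by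
      rw [Finset.mem_insert]
      rintro (h | h)
      · exact hne h.symm
      · exact hW h
    apply Subspace.biUnion_ne_univ_of_top_notMem h1
    rw [Set.eq_univ_iff_forall]
    intro c
    obtain ⟨P, hP, hcP⟩ := hcon c
    exact Set.mem_biUnion hP hcP
  have hc₁W : ∀ P ∈ W, c₁ ∉ P := fun P hP => hc₁ P (Finset.mem_insert_of_mem hP)
  have hu : D k K (∑ j, c₁ j • y j) ≠ 0 := by
    rw [← hφ]
    exact hc₁ _ (Finset.mem_insert_self _ _)
  by_cases hall : ∀ j, D k K (y j) ∈ Submodule.span K {D k K (∑ j, c₁ j • y j)}
  · refine ⟨c₁, c₁, hc₁W, ff_sep_basis htr _ _ ?_⟩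
    rw [eq_top_iff, ← hspan, Submodule.span_le, Set.image_pair, Set.pair_eq_singleton]
    rintro _ ⟨_, ⟨j, rfl⟩, rfl⟩
    exact hall j
  · push Not at hall
    obtain ⟨j, hj⟩ := hall
    refine ⟨c₁, Pi.single j 1, hc₁W, ff_sep_basis htr _ _ ?_⟩
    have hv : ∑ i, (Pi.single j 1 : Fin m → k) i • y i = y j := by
      simp [Pi.single_apply]
    rw [hv, Set.image_pair]
    have hli : LinearIndependent K ![D k K (∑ j, c₁ j • y j), D k K (y j)] := by
      rw [LinearIndependent.pair_iff' hu]
      intro a ha
      apply hj
      rw [← ha]
      exact Submodule.smul_mem _ _ (Submodule.mem_span_singleton_self _)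
    have h1 := hli.fintype_card_le_finrank
    rw [Fintype.card_fin] at h1
    have h2 := hli.span_eq_top_of_card_eq_finrank' (by rw [Fintype.card_fin]; omega)
    rw [← h2]
    congr 1
    simp only [Matrix.range_cons, Matrix.range_empty, Set.union_empty]
    rfl

end

end Pool.Agent.K1
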