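import Pool.Agent.K1.L3Defs
import Pool.Agent.K1.AffineFacts
import Pool.Agent.K1.FormsField

/-!
Separating transcendence bases among the linear forms of an embedded surface.
-/

set_option autoImplicit false

open AlgebraicGeometry CategoryTheory

namespace Pool.Agent.K1

/-! ### Points of codimension one outside an open set -/

theorem forms_finite_compl {X : Scheme.{0}} [IsIntegral X] [IsNoetherian X] (U : X.Opens)
    (hU : genericPoint X ∈ U) : {x : PointOne X | x.1 ∉ U}.Finite := by
  obtain ⟨S, hSf, hSc, hSi, hSU⟩ :=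
    TopologicalSpace.NoetherianSpace.exists_finite_set_isClosed_irreducible
      (isClosed_compl_iff.2 U.isOpen : IsClosed ((U : Set X)ᶜ))
  have key : ∀ x : PointOne X, x.1 ∉ U → ∃ t ∈ S, IsGenericPoint x.1 t := by
    intro x hx
    have hx' : x.1 ∈ ((U : Set X)ᶜ) := hx
    rw [hSU] at hx'
    obtain ⟨t, htS, hxt⟩ := hx'
    obtain ⟨y, hy⟩ := QuasiSober.sober (hSi t htS) (hSc t htS)
    have hyt : y ∈ t := hy.mem
    have hyU : y ∉ U := by
      have h1 : y ∈ ⋃₀ S := ⟨t, htS, hyt⟩
      rw [← hSU] at h1
      exact h1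
    have hyx : x.1 ≤ y := by
      change y ⤳ x.1
      exact hy.specializes hxt
    have hyη : y < genericPoint X := by
      refine lt_of_le_not_ge (genericPoint_specializes y) fun h => ?_
      have h' : y ⤳ genericPoint X := h
      exact hyU (h'.mem_open U.isOpen hU)
    by_cases hxy : x.1 ⤳ y
    · have heq : y = x.1 := (hxy.antisymm hyx).symm.eq
      exact ⟨t, htS, heq ▸ hy⟩
    · exfalso
      have hlt : x.1 < y := lt_of_le_not_ge hyx hxy
      have h1 := Order.coheight_add_one_le hlt
      have h2 := Order.coheight_add_one_le hyη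
      rw [x.2] at h1
      have h3 : (1 : ℕ∞) + 1 ≤ 1 := by
        calc (1 : ℕ∞) + 1 ≤ Order.coheight y + 1 := by
              gcongr
              exact le_trans (by simp) h2
          _ ≤ 1 := h1
      exact absurd h3 (by decide)
  choose! f hf hf' using key
  refine Set.Finite.of_finite_image (hSf.subset ?_) (f := f) ?_
  · rintro _ ⟨x, hx, rfl⟩
    exact hf x hx
  · intro x hx y hy hxy
    have h1 := hf' x hx
    have h2 := hf' y hy
    rw [hxy] at h1
    exact Subtype.ext (h1.eq h2)

/-! ### The linear forms whose open set does not contain a given point -/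

section

variable {k : Type} [Field k] {X : Scheme.{0}} [IsIntegral X] {n : ℕ} (E : Embed k X n)

theorem forms_l_ne {c : Fin (n + 1) → k} {x : X} (h : x ∈ E.U c) : E.l c ≠ 0 := by
  intro h0
  rw [E.empty c h0] at h
  exact h

theorem forms_l_zero : E.l 0 = 0 := by
  simp [EmbedData.l]

theorem forms_l_add (c c' : Fin (n + 1) → k) : E.l (c + c') = E.l c + E.l c' := by
  simp [EmbedData.l, add_mul, Finset.sum_add_distrib]

theorem forms_l_smul (r : k) (c : Fin (n + 1) → k) : E.l (r • c) = E.kf r * E.l c := by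
  simp [EmbedData.l, Finset.mul_sum, mul_assoc]

theorem forms_kf (x : X) (r : k) : algebraMap (X.presheaf.stalk x) X.functionField
    ((X.presheaf.germ ⊤ x trivial).hom (E.str r)) = E.kf r := by
  have : Nonempty (⊤ : X.Opens) := ⟨⟨genericPoint X, trivial⟩⟩
  exact Scheme.algebraMap_germ_eq_germToFunctionField X (U := ⊤) (x := x) trivial (E.str r)

/-- The linear forms whose open set does not contain `z` form a proper subspace. -/
def formsBad (z : X) : Submodule k (Fin (n + 1) → k) where
  carrier := {c | z ∉ E.U c}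
  zero_mem' := by
    change z ∉ E.U 0
    rw [E.empty 0 (forms_l_zero E)]
    exact fun h => h
  add_mem' := by
    intro c c' hc hc'
    change z ∉ E.U (c + c')
    obtain ⟨j, hj⟩ := E.cover z
    have hd := forms_l_ne E hj
    obtain ⟨a, ha, ha'⟩ := E.stalk c _ z hj
    obtain ⟨b, hb, hb'⟩ := E.stalk c' _ z hj
    obtain ⟨e, he, he'⟩ := E.stalk (c + c') _ z hj
    rw [← he']
    have h1 : e = a + b := by
      apply FaithfulSMul.algebraMap_injective (X.presheaf.stalk z) X.functionField
      apply mul_right_cancel₀ hd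
      rw [he, forms_l_add, map_add, add_mul, ha, hb]
    rw [h1]
    exact IsLocalRing.nonunits_add (fun h => hc (ha'.1 h)) (fun h => hc' (hb'.1 h))
  smul_mem' := by
    intro r c hc
    change z ∉ E.U (r • c)
    obtain ⟨j, hj⟩ := E.cover z
    have hd := forms_l_ne E hj
    obtain ⟨a, ha, ha'⟩ := E.stalk c _ z hj
    obtain ⟨e, he, he'⟩ := E.stalk (r • c) _ z hj
    rw [← he']
    have h1 : e = ((X.presheaf.germ ⊤ z trivial).hom (E.str r)) * a := by
      apply FaithfulSMul.algebraMap_injective (X.presheaf.stalk z) X.functionField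
      apply mul_right_cancel₀ hd
      rw [he, forms_l_smul, map_mul, mul_assoc, ha, forms_kf]
    rw [h1]
    exact fun h => hc (ha'.1 (isUnit_of_mul_isUnit_right h))

theorem forms_mem_bad {z : X} {c : Fin (n + 1) → k} : c ∈ formsBad E z ↔ z ∉ E.U c := Iff.rfl

theorem forms_bad_ne_top (z : X) : formsBad E z ≠ ⊤ := by
  intro h
  obtain ⟨j, hj⟩ := E.cover z
  have h1 : (Pi.single j 1 : Fin (n + 1) → k) ∈ formsBad E z := by rw [h]; trivial
  exact h1 hj

/-- The function field is generated by the ratios of the coordinates and a linear form. -/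
theorem forms_adjoin (c : Fin (n + 1) → k) (hc : genericPoint X ∈ E.U c) :
    letI := E.kf.toAlgebra
    IntermediateField.adjoin k (Set.range fun j => E.w j / E.l c) = ⊤ := by
  let _ : Algebra k X.functionField := E.kf.toAlgebra
  have : Nonempty (E.U c) := ⟨⟨genericPoint X, hc⟩⟩
  have hfr := functionField_isFractionRing_of_isAffineOpen X (E.U c)
    (E.affine c (forms_l_ne E hc)).1
  have hA : ∀ a : Γ(X, E.U c), algebraMap Γ(X, E.U c) X.functionField a ∈
      IntermediateField.adjoin k (Set.range fun j => E.w j / E.l c) := by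
    intro a
    have h1 : algebraMap Γ(X, E.U c) X.functionField a ∈
        Subring.closure (Set.range E.kf ∪ Set.range (fun j => E.w j / E.l c)) := by
      rw [← SetLike.mem_coe, ← E.sections c hc]
      exact ⟨a, rfl⟩
    refine Subring.closure_le (t := (IntermediateField.adjoin k
      (Set.range fun j => E.w j / E.l c)).toSubring).2 ?_ h1
    rintro x (⟨r, rfl⟩ | hx)
    · exact IntermediateField.algebraMap_mem _ r
    · exact IntermediateField.subset_adjoin _ _ hx
  rw [eq_top_iff]
  intro f _
  obtain ⟨a, b, -, rfl⟩ := IsFractionRing.div_surjective (A := Γ(X, E.U c)) f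
  exact div_mem (hA a) (hA b)

theorem forms_ratio (c d : Fin (n + 1) → k) :
    letI := E.kf.toAlgebra
    E.l d / E.l c = ∑ j, d j • (E.w j / E.l c) := by
  let _ : Algebra k X.functionField := E.kf.toAlgebra
  simp only [EmbedData.l, Finset.sum_div]
  refine Finset.sum_congr rfl fun j _ => ?_
  rw [Algebra.smul_def, mul_div_assoc]
  rfl

end

/-- The function field has transcendence degree two. -/
theorem forms_trdeg {k : Type} [Field k] [IsAlgClosed k] {X : Scheme.{0}} [IsIntegral X]
    [IsNoetherian X] {n : ℕ} (E : Embed k X n)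
    (hdim : ∀ x : X, Order.coheight x ≤ 2) (hdim2 : ∃ x : X, Order.coheight x = 2)
    (c : Fin (n + 1) → k) (hc : genericPoint X ∈ E.U c) :
    letI := E.kf.toAlgebra
    Algebra.trdeg k X.functionField = 2 := by
  let _ : Algebra k X.functionField := E.kf.toAlgebra
  let _ : Algebra k Γ(X, E.U c) := (E.strOn (E.U c)).toAlgebra
  obtain ⟨h1, h2, -⟩ := affine_dim E hdim hdim2 c hc
  have : Nonempty (E.U c) := ⟨⟨genericPoint X, hc⟩⟩
  have hfr := functionField_isFractionRing_of_isAffineOpen X (E.U c)
    (E.affine c (forms_l_ne E hc)).1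
  have : IsScalarTower k Γ(X, E.U c) X.functionField := by
    apply IsScalarTower.of_algebraMap_eq
    intro r
    change (X.presheaf.germ ⊤ (genericPoint X) trivial).hom (E.str r) =
      (X.presheaf.germ (E.U c) (genericPoint X) hc).hom
        ((X.presheaf.map (homOfLE le_top : E.U c ⟶ ⊤).op).hom (E.str r))
    rw [← CommRingCat.comp_apply, TopCat.Presheaf.germ_res]
  have h3 := trdeg_of_dim (k := k) (A := Γ(X, E.U c)) h2
  have : Algebra.IsAlgebraic Γ(X, E.U c) X.functionField :=
    IsLocalization.isAlgebraic _ (nonZeroDivisors Γ(X, E.U c))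
  have h4 := trdeg_add_eq (R := k) (S := Γ(X, E.U c)) (A := X.functionField)
  rw [_root_.trdeg_eq_zero (R := Γ(X, E.U c)) (A := X.functionField), add_zero, h3] at h4
  exact h4.symm

/-- Separating transcendence bases among linear forms. -/
theorem exists_forms {k : Type} [Field k] [IsAlgClosed k] {X : Scheme.{0}} [IsIntegral X]
    [IsNoetherian X] {n : ℕ} (E : Embed k X n)
    (hreg : ∀ x : X, IsRegularLocalRing (X.presheaf.stalk x))
    (hdim : ∀ x : X, Order.coheight x ≤ 2) (hdim2 : ∃ x : X, Order.coheight x = 2)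
    (Z : Set X) (hZ : Z.Finite) :
    letI := E.kf.toAlgebra
    ∃ c₀ c₁ c₂ : Fin (n + 1) → k, genericPoint X ∈ E.U c₀ ∧ (∀ z ∈ Z, z ∈ E.U c₀) ∧
      (∀ x : PointOne X, x.1 ∉ E.U c₀ → x.1 ∈ E.U c₁) ∧
      AlgebraicIndependent k ![E.l c₁ / E.l c₀, E.l c₂ / E.l c₀] ∧
      FiniteDimensional (IntermediateField.adjoin k {E.l c₁ / E.l c₀, E.l c₂ / E.l c₀})
        X.functionField ∧
      Algebra.IsSeparable (IntermediateField.adjoin k {E.l c₁ / E.l c₀, E.l c₂ / E.l c₀})
        X.functionField := by
  classical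
  let _ : Algebra k X.functionField := E.kf.toAlgebra
  have : Infinite k := IsAlgClosed.instInfinite
  -- avoiding finitely many points
  have avoid : ∀ Y : Set X, Y.Finite → ∃ c, ∀ z ∈ Y, z ∈ E.U c := by
    intro Y hY
    by_contra hcon
    push Not at hcon
    have h1 : ⊤ ∉ hY.toFinset.image (formsBad E) := by
      rw [Finset.mem_image]
      rintro ⟨z, -, h⟩
      exact forms_bad_ne_top E z h
    apply Subspace.biUnion_ne_univ_of_top_notMem h1
    rw [Set.eq_univ_iff_forall]
    intro c
    obtain ⟨z, hz, hzc⟩ := hcon c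
    exact Set.mem_biUnion (Finset.mem_coe.2 (Finset.mem_image_of_mem _ (hY.mem_toFinset.2 hz))) hzc
  obtain ⟨c₀, hc₀⟩ := avoid (insert (genericPoint X) Z) (hZ.insert _)
  have hη := hc₀ _ (Set.mem_insert _ _)
  have hfin := forms_finite_compl (E.U c₀) hη
  obtain ⟨c₁, c₂, h1, h2⟩ := ff_exists (forms_trdeg E hdim hdim2 c₀ hη) _
    (forms_adjoin E c₀ hη) (hfin.toFinset.image fun x => formsBad E x.1) (by
      rw [Finset.mem_image]
      rintro ⟨z, -, h⟩
      exact forms_bad_ne_top E z.1 h)
  refine ⟨c₀, c₁, c₂, hη, fun z hz => hc₀ z (Set.mem_insert_of_mem _ hz), ?_, ?_⟩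
  · intro x hx
    by_contra hcon
    exact h1 _ (Finset.mem_image_of_mem _ (hfin.mem_toFinset.2 hx)) hcon
  · rw [forms_ratio E c₀ c₁, forms_ratio E c₀ c₂]
    exact h2

end Pool.Agent.K1
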