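import Pool.Agent.K1.BerDefs

/-!
K1-L3-05a: absolute irreducibility.
-/

set_option autoImplicit false

open Polynomial

namespace Pool.Agent.K1

namespace BerIrr

/-- An element fixed by all automorphisms has a power in the ground field. -/
theorem pow_mem_of_fixed {K T : Type*} [Field K] [Field T] [Algebra K T] [IsAlgClosed T]
    [Normal K T] (q : ℕ) [ExpChar K q] (x : T)
    (h : ∀ σ : T ≃ₐ[K] T, σ x = x) : ∃ n : ℕ, x ^ q ^ n ∈ (algebraMap K T).range := by
  classical
  rw [← minpoly.natSepDegree_eq_one_iff_pow_mem q, natSepDegree_eq_of_isAlgClosed T,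
    Finset.card_eq_one]
  have hx : IsIntegral K x := Algebra.IsIntegral.isIntegral x
  refine ⟨x, ?_⟩
  ext y
  rw [Multiset.mem_toFinset, mem_aroots, Finset.mem_singleton]
  constructor
  · rintro ⟨_, hy⟩
    obtain ⟨σ, hσ⟩ := minpoly.exists_algEquiv_of_root' hx.isAlgebraic hy
    rw [← hσ, h σ]
  · rintro rfl
    exact ⟨minpoly.ne_zero hx, minpoly.aeval K _⟩

/-- stability of the minimal polynomial -/
theorem minpoly_map_eq {A T : Type*} [CommRing A] [IsDomain A] [IsIntegrallyClosed A] [Field T]
    [Algebra A T] [Module.IsTorsionFree A T] (z : T) (hz : IsIntegral A z) (σ₀ : A →+* A)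
    (σ : T →+* T) (h : ∀ a, σ (algebraMap A T a) = algebraMap A T (σ₀ a)) (hσ : σ z = z) :
    (minpoly A z).map σ₀ = minpoly A z := by
  have h1 : aeval z ((minpoly A z).map σ₀) = 0 := by
    have h2 : σ (aeval z (minpoly A z)) = 0 := by rw [minpoly.aeval, map_zero]
    rw [aeval_def, hom_eval₂, hσ] at h2
    rw [aeval_def, eval₂_map]
    have h3 : (algebraMap A T).comp σ₀ = σ.comp (algebraMap A T) := by
      ext a
      exact (h a).symm
    rw [h3]
    exact h2
  have h2 := minpoly.isIntegrallyClosed_dvd hz h1
  have hm := minpoly.monic hz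
  refine (eq_of_monic_of_dvd_of_natDegree_le hm (hm.map σ₀) h2 ?_)
  exact natDegree_map_le

/-- images of a root under maps fixing the coefficients -/
theorem aeval_of_fixed {A T : Type*} [CommRing A] [Field T] [Algebra A T] (z : T) (m : A[X])
    (τ : T →+* T) (h : ∀ i, τ (algebraMap A T (m.coeff i)) = algebraMap A T (m.coeff i))
    (hm : aeval z m = 0) : aeval (τ z) m = 0 := by
  have h1 : τ (aeval z m) = 0 := by rw [hm, map_zero]
  rw [aeval_eq_sum_range, map_sum] at h1
  rw [aeval_eq_sum_range, ← h1]
  refine Finset.sum_congr rfl fun i _ => ?_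
  rw [Algebra.smul_def, Algebra.smul_def, map_mul, h, map_pow]

open IntermediateField.algebraAdjoinAdjoin in
theorem transc {k K : Type*} [Field k] [Field K] [Algebra k K] {t y : K}
    (hty : AlgebraicIndependent k ![t, y]) :
    Transcendental (IntermediateField.adjoin k {t}) y := by
  have h1 := hty.transcendental_adjoin (s := {0}) (i := 1) (by simp)
  have h2 : (![t, y] '' {0} : Set K) = {t} := by simp
  rw [h2] at h1
  exact h1.extendScalars _

section core

variable {k K T : Type*} [Field k] [Field K] [Algebra k K] [Field T] [Algebra K T]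

/-- compatibility of the evaluations -/
theorem hom_ev3 [Algebra k T] [IsScalarTower k K T] {W : Type*} [Field W] [Algebra W T]
    (t y z : K) (F : k[X][X][X]) (φ : k[X] →+* W)
    (hφ : ∀ c : k, algebraMap W T (φ (C c)) = algebraMap k T c)
    (hφX : algebraMap W T (φ X) = algebraMap K T t) :
    eval₂ (aeval (algebraMap K T y) : W[X] →ₐ[W] T).toRingHom (algebraMap K T z)
      (F.map (mapRingHom φ)) = algebraMap K T (ev3 F t y z) := by
  have h1 : ((aeval (algebraMap K T y) : W[X] →ₐ[W] T).toRingHom).comp (mapRingHom φ) =
      (algebraMap K T).comp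
        ((evalRingHom y).comp (mapRingHom (aeval t : k[X] →ₐ[k] K).toRingHom)) := by
    apply Polynomial.ringHom_ext'
    · apply Polynomial.ringHom_ext'
      · ext c
        simp [hφ, ← IsScalarTower.algebraMap_apply]
      · simp [hφX]
    · simp
  rw [eval₂_map, h1, ev3, map_map, eval_map, hom_eval₂]

theorem eval_fixed {W : Type*} [Field W] [Algebra W T] (y : T) (p : W[X]) (τ : T →+* T)
    (hy : τ y = y) (h : ∀ j, τ (algebraMap W T (p.coeff j)) = algebraMap W T (p.coeff j)) :
    τ (aeval y p) = aeval y p := by
  rw [aeval_eq_sum_range, map_sum]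
  refine Finset.sum_congr rfl fun i _ => ?_
  rw [Algebra.smul_def, map_mul, h, map_pow, hy]

theorem normal_of_closed {k T : Type*} [Field k] [Field T] [Algebra k T] [IsAlgClosed T]
    [Algebra.IsAlgebraic k T] : Normal k T := by
  have : IsAlgClosure k T := ⟨inferInstance, inferInstance⟩
  exact IsAlgClosure.normal k T

/-- The number of conjugates. -/
theorem card_le {L : Type*} [Field L] [Algebra L K] [Algebra L T] [IsScalarTower L K T]
    [IsAlgClosed T] [Algebra.IsAlgebraic L T] (z : K)
    (hsep : (minpoly L z).Separable) {A : Type*} [CommRing A] [Algebra A T] (m : A[X])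
    (hm : m.Monic)
    (h : ∀ τ : T ≃ₐ[L] T, aeval (τ (algebraMap K T z)) m = 0) :
    (minpoly L z).natDegree ≤ m.natDegree := by
  classical
  have hN : Normal L T := normal_of_closed
  have hm' : m.map (algebraMap A T) ≠ 0 := (hm.map _).ne_zero
  rw [← card_rootSet_eq_natDegree (K := T) hsep (IsAlgClosed.splits _)]
  have hsub : (minpoly L z).rootSet T ⊆ ((m.map (algebraMap A T)).roots.toFinset : Set T) := by
    intro z' hz'
    have h1 := (mem_rootSet.1 hz').2
    have h2 : minpoly L (algebraMap K T z) = minpoly L z :=
      minpoly.algebraMap_eq (FaithfulSMul.algebraMap_injective K T) z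
    rw [← h2] at h1
    obtain ⟨τ, hτ⟩ := minpoly.exists_algEquiv_of_root'
      (Algebra.IsAlgebraic.isAlgebraic (R := L) (algebraMap K T z)) h1
    rw [Finset.mem_coe, Multiset.mem_toFinset, mem_roots hm', IsRoot.def, eval_map_algebraMap,
      ← hτ]
    exact h τ
  have h3 : Fintype.card ((minpoly L z).rootSet T) ≤
      (m.map (algebraMap A T)).roots.toFinset.card := by
    rw [← Set.toFinset_card]
    apply Finset.card_le_card
    intro x hx
    exact hsub (Set.mem_toFinset.1 hx)
  exact h3.trans ((Multiset.toFinset_card_le _).trans ((card_roots' _).trans natDegree_map_le))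

/-- The coefficients of a polynomial stable under all automorphisms over `K` are fixed by the
automorphisms over `L`. -/
theorem fixed_of_fixed {k₁ L : Type*} [Field k₁] [Field L] [Algebra k₁ K] [Algebra k₁ T]
    [IsScalarTower k₁ K T] [Algebra L K] [Algebra L T] [IsScalarTower L K T]
    [IsAlgClosed T] [Algebra.IsAlgebraic K T]
    (hk : ∀ g : K, IsAlgebraic k₁ g → g ∈ (algebraMap L K).range)
    (a : T) (ha : IsAlgebraic k₁ a) (h : ∀ σ : T ≃ₐ[K] T, σ a = a) (τ : T ≃ₐ[L] T) :
    τ a = a := by
  have hN : Normal K T := normal_of_closed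
  have hq : ExpChar K (ringExpChar K) := inferInstance
  have hqT : ExpChar T (ringExpChar K) :=
    expChar_of_injective_algebraMap (FaithfulSMul.algebraMap_injective K T) _
  obtain ⟨n, g, hg⟩ := pow_mem_of_fixed (ringExpChar K) a h
  have h1 : IsAlgebraic k₁ g := by
    rw [← isAlgebraic_algebraMap_iff (A := T) (FaithfulSMul.algebraMap_injective K T), hg]
    exact ha.pow _
  obtain ⟨l, hl⟩ := hk g h1
  have h2 : τ (a ^ ringExpChar K ^ n) = a ^ ringExpChar K ^ n := by
    rw [← hg, ← hl, ← IsScalarTower.algebraMap_apply, τ.commutes]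
  rw [map_pow, ← iterateFrobenius_def, ← iterateFrobenius_def] at h2
  exact (iterateFrobenius T (ringExpChar K) n).injective h2

end core

/-- the statement over the relative algebraic closure -/
theorem core {k K T : Type*} [Field k] [Field K] [Algebra k K] [Field T] [Algebra K T]
    [Algebra k T] [IsScalarTower k K T] [IsAlgClosed T] [Algebra.IsAlgebraic K T]
    (t y z : K) (F : k[X][X][X]) (hF : F.Monic)
    (hty : AlgebraicIndependent k ![t, y]) (hz : ev3 F t y z = 0)
    (hdeg : F.natDegree = Module.finrank (IntermediateField.adjoin k {t, y}) K)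
    (htop : IntermediateField.adjoin (IntermediateField.adjoin k {t, y}) {z} = ⊤)
    (hfin : FiniteDimensional (IntermediateField.adjoin k {t, y}) K)
    (hsep : Algebra.IsSeparable (IntermediateField.adjoin k {t, y}) K)
    (halg : ∀ g : K, IsAlgebraic (IntermediateField.adjoin k {t}) g →
      g ∈ IntermediateField.adjoin k {t})
    (W : IntermediateField (IntermediateField.adjoin k {t}) T)
    (hW : W = algebraicClosure (IntermediateField.adjoin k {t}) T)
    (φ : k[X] →+* W) (hφ : ∀ c : k, algebraMap W T (φ (C c)) = algebraMap k T c)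
    (hφX : algebraMap W T (φ X) = algebraMap K T t) :
    Irreducible (F.map (mapRingHom φ)) := by
  have hWmem : ∀ x, x ∈ W ↔ IsAlgebraic (IntermediateField.adjoin k {t}) x := by
    intro x
    rw [hW, mem_algebraicClosure_iff]
  have hyT : Transcendental W (algebraMap K T y) := by
    have h1 := (transcendental_algebraMap_iff (A := T)
      (FaithfulSMul.algebraMap_injective K T)).2 (transc hty)
    rw [hW]
    exact h1.algebraicClosure
  let iA : Algebra W[X] T :=
    (aeval (algebraMap K T y) : W[X] →ₐ[W] T).toRingHom.toAlgebra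
  have hiA : ∀ p : W[X], algebraMap W[X] T p = aeval (algebraMap K T y) p := fun p => rfl
  have hinj : Function.Injective (algebraMap W[X] T) := transcendental_iff_injective.1 hyT
  have hfaith : FaithfulSMul W[X] T :=
    (faithfulSMul_iff_algebraMap_injective W[X] T).2 hinj
  have hFA : (F.map (mapRingHom φ)).Monic := hF.map _
  have hroot : aeval (algebraMap K T z) (F.map (mapRingHom φ)) = 0 := by
    have h1 := hom_ev3 (T := T) t y z F φ hφ hφX
    rw [hz, map_zero] at h1
    exact h1
  have hint : IsIntegral W[X] (algebraMap K T z) := ⟨_, hFA, hroot⟩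
  have hmdvd := minpoly.isIntegrallyClosed_dvd hint hroot
  have hmon := minpoly.monic hint
  have hfix : ∀ (σ : T ≃ₐ[K] T) (i j : ℕ),
      σ (((minpoly W[X] (algebraMap K T z)).coeff i).coeff j : T) =
        (((minpoly W[X] (algebraMap K T z)).coeff i).coeff j : T) := by
    intro σ i j
    have hσW : ∀ x ∈ W, (σ : T →+* T) x ∈ W := by
      intro x hx
      rw [hWmem] at hx ⊢
      exact hx.algHom (σ.restrictScalars (IntermediateField.adjoin k {t})).toAlgHom
    have h1 := minpoly_map_eq (algebraMap K T z) hint
      (mapRingHom ((σ : T →+* T).restrict W W hσW)) (σ : T →+* T)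
      (by
        intro p
        rw [hiA, hiA, aeval_def, aeval_def, hom_eval₂, coe_mapRingHom, eval₂_map]
        have h2 : (σ : T →+* T).comp (algebraMap W T) =
            (algebraMap W T).comp ((σ : T →+* T).restrict W W hσW) := by
          ext x
          rfl
        rw [h2]
        congr 1
        exact σ.commutes y)
      (σ.commutes z)
    have h2 := congrArg (fun P => ((P.coeff i).coeff j : T)) h1
    simp only [coeff_map, coe_mapRingHom] at h2
    exact h2
  have hLL : IntermediateField.adjoin k {t} ≤ IntermediateField.adjoin k {t, y} :=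
    IntermediateField.adjoin.mono _ _ _ (by simp)
  have hLT : Algebra.IsAlgebraic (IntermediateField.adjoin k {t, y}) T :=
    Algebra.IsAlgebraic.trans (IntermediateField.adjoin k {t, y}) K T
  have hzint : IsIntegral (IntermediateField.adjoin k {t, y}) z :=
    Algebra.IsIntegral.isIntegral z
  have hyL : y ∈ IntermediateField.adjoin k {t, y} :=
    IntermediateField.subset_adjoin _ _ (by simp)
  have hcard := card_le (T := T) (L := IntermediateField.adjoin k {t, y}) z
    (Algebra.IsSeparable.isSeparable _ z) (minpoly W[X] (algebraMap K T z)) hmon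
    (by
      intro τ
      apply aeval_of_fixed (algebraMap K T z) _ (τ : T →+* T) _ (minpoly.aeval _ _)
      intro i
      rw [hiA]
      apply eval_fixed
      · have h1 : algebraMap K T y = algebraMap (IntermediateField.adjoin k {t, y}) T ⟨y, hyL⟩ :=
          rfl
        rw [h1]
        exact τ.commutes _
      · intro j
        refine fixed_of_fixed (k₁ := IntermediateField.adjoin k {t}) (K := K) ?_ _ ?_
          (fun σ => hfix σ i j) τ
        · intro g hg
          exact ⟨⟨g, hLL (halg g hg)⟩, rfl⟩
        · exact (hWmem _).1 (((minpoly W[X] (algebraMap K T z)).coeff i).coeff j).2)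
  have hD : (minpoly (IntermediateField.adjoin k {t, y}) z).natDegree = F.natDegree := by
    rw [← IntermediateField.adjoin.finrank hzint, htop, IntermediateField.finrank_top', hdeg]
  have heq := eq_of_monic_of_dvd_of_natDegree_le hmon hFA hmdvd
    (by rw [hF.natDegree_map, ← hD]; exact hcard)
  rw [heq]
  exact minpoly.irreducible hint

end BerIrr

/-- K1-L3-05a. absolute irreducibility. -/
theorem irreducible_closure {k K Ω : Type*} [Field k] [IsAlgClosed k] [Field K] [Algebra k K]
    [Field Ω] [Algebra k[X] Ω] [FaithfulSMul k[X] Ω] (t y z : K) (F : k[X][X][X]) (hF : F.Monic)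
    (hty : AlgebraicIndependent k ![t, y]) (hz : ev3 F t y z = 0)
    (hdeg : F.natDegree = Module.finrank (IntermediateField.adjoin k {t, y}) K)
    (htop : IntermediateField.adjoin (IntermediateField.adjoin k {t, y}) {z} = ⊤)
    (hfin : FiniteDimensional (IntermediateField.adjoin k {t, y}) K)
    (hsep : Algebra.IsSeparable (IntermediateField.adjoin k {t, y}) K)
    (halg : ∀ g : K, IsAlgebraic (IntermediateField.adjoin k {t}) g →
      g ∈ IntermediateField.adjoin k {t})
    (hΩ : ∀ w : Ω, IsAlgebraic k[X] w) :
    Irreducible (F.map (mapRingHom (algebraMap k[X] Ω))) := by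
  let T := AlgebraicClosure K
  let W := algebraicClosure (IntermediateField.adjoin k {t}) T
  have htmem : t ∈ IntermediateField.adjoin k {t} :=
    IntermediateField.mem_adjoin_simple_self k t
  let t₁ : IntermediateField.adjoin k {t} := ⟨t, htmem⟩
  let t₂ : W := algebraMap (IntermediateField.adjoin k {t}) W t₁
  let φ : k[X] →+* W := eval₂RingHom
    ((algebraMap (IntermediateField.adjoin k {t}) W).comp
      (algebraMap k (IntermediateField.adjoin k {t}))) t₂
  have hφX : algebraMap W T (φ X) = algebraMap K T t := by
    have h1 : φ X = t₂ := eval₂_X _ _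
    rw [h1]
    rfl
  have hφC : ∀ c : k, algebraMap W T (φ (C c)) = algebraMap k T c := by
    intro c
    have h1 : φ (C c) = algebraMap (IntermediateField.adjoin k {t}) W
      (algebraMap k (IntermediateField.adjoin k {t}) c) := eval₂_C _ _
    rw [h1]
    rfl
  have hcore := BerIrr.core t y z F hF hty hz hdeg htop hfin hsep halg W rfl φ hφC hφX
  have hφinj : Function.Injective φ := by
    have h1 : Transcendental k t := by
      have h2 := hty.transcendental 0
      exact h2
    have h2 := transcendental_iff_injective.1 h1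
    have h3 : ∀ p : k[X], algebraMap W T (φ p) = algebraMap K T (aeval t p) := by
      intro p
      have h4 : (algebraMap W T).comp φ =
          (algebraMap K T).comp (aeval t : k[X] →ₐ[k] K).toRingHom := by
        apply Polynomial.ringHom_ext
        · intro c
          rw [RingHom.comp_apply, hφC]
          simp [← IsScalarTower.algebraMap_apply]
        · rw [RingHom.comp_apply, hφX]
          simp
      exact congrArg (fun g => g p) h4
    intro p p' hpp
    apply h2
    apply FaithfulSMul.algebraMap_injective K T
    rw [← h3, ← h3, hpp]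
  let iW : Algebra k[X] W := φ.toAlgebra
  have hiW : algebraMap k[X] W = φ := rfl
  have hfW : FaithfulSMul k[X] W := (faithfulSMul_iff_algebraMap_injective k[X] W).2 hφinj
  have hcl : IsAlgClosed W :=
    (algebraicClosure.isAlgClosure (IntermediateField.adjoin k {t}) T).isAlgClosed
  have hΩ' : Algebra.IsAlgebraic k[X] Ω := ⟨hΩ⟩
  let j : Ω →ₐ[k[X]] W := IsAlgClosed.lift
  have hj : (F.map (mapRingHom (algebraMap k[X] Ω))).map (mapRingHom (j : Ω →+* W)) =
      F.map (mapRingHom φ) := by
    rw [map_map, mapRingHom_comp]
    have h1 : (j : Ω →+* W).comp (algebraMap k[X] Ω) = φ := by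
      rw [← hiW]
      exact j.comp_algebraMap
    rw [h1]
  apply (hF.map _).irreducible_of_irreducible_map (mapRingHom (j : Ω →+* W))
  rw [hj]
  exact hcore

end Pool.Agent.K1
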