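import Pool.Agent.K1.BerDefs

/-!
K1-L3-05c: the plane model of a surface, for the Bertini-Noether theorem in elementary form.
-/

set_option autoImplicit false

open Polynomial IntermediateField

namespace Pool.Agent.K1

namespace BerModelAux

section abstract_form

variable {B F0 A K : Type*} [CommRing B] [IsDomain B] [Field F0]
    [Algebra B F0] [IsFractionRing B F0] [CommRing A] [IsDomain A] [Field K] [Algebra A K]
    [IsFractionRing A K] [Algebra B A] [Algebra B K] [IsScalarTower B A K] [Algebra F0 K]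
    [IsScalarTower B F0 K] [FiniteDimensional F0 K]

omit [IsDomain A] in
include F0 in
/-- all of `A` is `B[z]` up to denominators in `B`. -/
theorem exists_poly (z : A) (htop : F0⟮algebraMap A K z⟯ = ⊤) (x : A) :
    ∃ b : B, b ≠ 0 ∧ ∃ H : B[X], algebraMap B A b * x = aeval z H := by
  have hAK : Function.Injective (algebraMap A K) := IsFractionRing.injective A K
  have hx : algebraMap A K x ∈ F0⟮algebraMap A K z⟯ := by rw [htop]; trivial
  have hzint : IsAlgebraic F0 (algebraMap A K z) := Algebra.IsAlgebraic.isAlgebraic _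
  rw [← mem_toSubalgebra, adjoin_simple_toSubalgebra_of_isAlgebraic hzint,
    Algebra.adjoin_singleton_eq_range_aeval] at hx
  obtain ⟨P, hP⟩ := hx
  obtain ⟨b, hb0, hb⟩ := IsLocalization.integerNormalization_spec (nonZeroDivisors B) P
  refine ⟨b, nonZeroDivisors.ne_zero hb0,
    IsLocalization.integerNormalization (nonZeroDivisors B) P, ?_⟩
  apply hAK
  rw [map_mul, ← IsScalarTower.algebraMap_apply B A K]
  have h1 : algebraMap A K (aeval z (IsLocalization.integerNormalization (nonZeroDivisors B) P))
      = aeval (algebraMap A K z) ((IsLocalization.integerNormalization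
        (nonZeroDivisors B) P).map (algebraMap B F0)) := by
    rw [aeval_map_algebraMap, aeval_algebraMap_apply]
  have h2 : aeval (algebraMap A K z) P = algebraMap A K x := hP
  rw [h1, hb, ← h2, IsScalarTower.algebraMap_apply B F0 K, ← Algebra.smul_def,
    ← algebraMap_smul F0 b P, map_smul]

variable (F0) in
/-- a primitive element inside `A`, integral over `B`. -/
theorem exists_prim [Algebra.IsSeparable F0 K] :
    ∃ z : A, IsIntegral B z ∧ F0⟮algebraMap A K z⟯ = ⊤ := by
  classical
  have hBK : Algebra.IsAlgebraic B K :=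
    (IsFractionRing.comap_isAlgebraic_iff (A := B) (K := F0) (C := K)).2 inferInstance
  have hAK : Function.Injective (algebraMap A K) := IsFractionRing.injective A K
  have hBF : Function.Injective (algebraMap B F0) := IsFractionRing.injective B F0
  have halgA : ∀ a : A, IsAlgebraic B a := fun a =>
    (isAlgebraic_algebraMap_iff hAK).1 (Algebra.IsAlgebraic.isAlgebraic (algebraMap A K a))
  obtain ⟨α, hα⟩ := Field.exists_primitive_element F0 K
  obtain ⟨a, a', ha', rfl⟩ := IsFractionRing.div_surjective (A := A) α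
  have ha'0 : a' ≠ 0 := nonZeroDivisors.ne_zero ha'
  obtain ⟨b2, hb2, a'', ha''⟩ := (halgA a').exists_nonzero_dvd ha'
  obtain ⟨b1, hb1, hint⟩ := (halgA (a'' * a)).exists_integral_multiple
  refine ⟨b1 • (a'' * a), hint, ?_⟩
  have hne : algebraMap B F0 (b1 * b2) ≠ 0 := by
    rw [Ne, map_eq_zero_iff _ hBF]; exact mul_ne_zero hb1 hb2
  have hz : algebraMap A K (b1 • (a'' * a)) =
      algebraMap F0 K (algebraMap B F0 (b1 * b2)) * (algebraMap A K a / algebraMap A K a') := by
    have h1 : algebraMap A K a' ≠ 0 := by rwa [Ne, map_eq_zero_iff _ hAK]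
    rw [← IsScalarTower.algebraMap_apply B F0 K, IsScalarTower.algebraMap_apply B A K,
      Algebra.smul_def, map_mul (algebraMap B A), ha'']
    field_simp
    simp only [map_mul]
    ring
  rw [hz]
  rw [eq_top_iff, ← hα, adjoin_simple_le_iff]
  have h2 : algebraMap F0 K (algebraMap B F0 (b1 * b2)) * (algebraMap A K a / algebraMap A K a')
      ∈ F0⟮algebraMap F0 K (algebraMap B F0 (b1 * b2)) *
        (algebraMap A K a / algebraMap A K a')⟯ := mem_adjoin_simple_self _ _
  have h3 := mul_mem (IntermediateField.algebraMap_mem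
      F0⟮algebraMap F0 K (algebraMap B F0 (b1 * b2)) *
        (algebraMap A K a / algebraMap A K a')⟯ (algebraMap B F0 (b1 * b2))⁻¹) h2
  have h4 : algebraMap F0 K (algebraMap B F0 (b1 * b2)) ≠ 0 := by
    rwa [Ne, map_eq_zero]
  rw [map_inv₀, inv_mul_cancel_left₀ h4] at h3
  exact h3

end abstract_form

section concrete

variable {k A : Type*} [Field k] [CommRing A] [Algebra k A]

/-- evaluation of polynomials in two variables -/
noncomputable def ev2 (t y : A) : k[X][X] →+* A :=
  (evalRingHom y).comp (mapRingHom (aeval t : k[X] →ₐ[k] A).toRingHom)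

theorem ev3_eq (F : k[X][X][X]) (t y z : A) : ev3 F t y z = F.eval₂ (ev2 t y) z := by
  rw [ev3, Polynomial.map_map, eval_map]
  rfl

theorem ev2_C_C (t y : A) (c : k) : ev2 t y (C (C c)) = algebraMap k A c := by
  simp [ev2]

theorem ev2_C_X (t y : A) : ev2 (k := k) t y (C X) = t := by
  simp [ev2]

theorem ev2_X (t y : A) : ev2 (k := k) t y X = y := by
  simp [ev2]

theorem comp_ev2 {A' : Type*} [CommRing A'] [Algebra k A'] (f : A →ₐ[k] A') (t y : A) :
    (f : A →+* A').comp (ev2 t y) = ev2 (k := k) (f t) (f y) := by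
  refine Polynomial.ringHom_ext' (Polynomial.ringHom_ext' ?_ ?_) ?_
  · ext c
    simp [ev2]
  · simp [ev2]
  · simp [ev2]

theorem ev2_injective (t y : A) (h : AlgebraicIndependent k ![t, y]) :
    Function.Injective (ev2 (k := k) t y) := by
  set ψ : k[X][X] →+* MvPolynomial (Fin 2) k := ev2 (MvPolynomial.X 0) (MvPolynomial.X 1) with hψ
  set χ : MvPolynomial (Fin 2) k →ₐ[k] k[X][X] := MvPolynomial.aeval ![C X, X] with hχ
  have h1 : (χ : MvPolynomial (Fin 2) k →+* k[X][X]).comp ψ = RingHom.id _ := by
    rw [hψ, comp_ev2]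
    refine Polynomial.ringHom_ext' (Polynomial.ringHom_ext' ?_ ?_) ?_
    · ext c
      simp [ev2]
    · simp [ev2, hχ]
    · simp [ev2, hχ]
  have h2 : ((MvPolynomial.aeval ![t, y] : MvPolynomial (Fin 2) k →ₐ[k] A) :
      MvPolynomial (Fin 2) k →+* A).comp ψ = ev2 t y := by
    rw [hψ, comp_ev2]
    simp
  rw [← h2]
  intro a b hab
  have h3 : ψ a = ψ b := h hab
  have h4 := congrArg (χ : MvPolynomial (Fin 2) k →+* k[X][X]) h3
  rw [← RingHom.comp_apply, ← RingHom.comp_apply, h1] at h4
  exact h4

/-- the algebra homomorphism of evaluation -/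
noncomputable def ev2A (t y : A) : k[X][X] →ₐ[k] A :=
  { ev2 t y with
    commutes' := fun c => by
      have : algebraMap k k[X][X] c = C (C c) := rfl
      rw [this]
      exact ev2_C_C t y c }

theorem adjoin_le_range (t y : A) : Algebra.adjoin k {t, y} ≤ (ev2A (k := k) t y).range := by
  refine Algebra.adjoin_le ?_
  rintro w (rfl | rfl)
  · exact ⟨C X, ev2_C_X _ _⟩
  · exact ⟨X, ev2_X _ _⟩

end concrete

end BerModelAux

open BerModelAux

/-- K1-L3-05c. `A` and the plane model agree outside a polynomial `g(t,y)`. -/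
theorem exists_model {k A K : Type*} [Field k] [CommRing A] [IsDomain A]
    [Algebra k A] [Algebra.FiniteType k A] [Field K] [Algebra k K] [Algebra A K]
    [IsScalarTower k A K] [IsFractionRing A K] (t y : A)
    (hty : AlgebraicIndependent k ![t, y])
    (hfin : FiniteDimensional
      (IntermediateField.adjoin k {algebraMap A K t, algebraMap A K y}) K)
    (hsep : Algebra.IsSeparable
      (IntermediateField.adjoin k {algebraMap A K t, algebraMap A K y}) K) :
    ∃ (z : A) (F : k[X][X][X]) (g : k[X][X]), F.Monic ∧ ev3 F t y z = 0 ∧ g ≠ 0 ∧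
      F.natDegree = Module.finrank
        (IntermediateField.adjoin k {algebraMap A K t, algebraMap A K y}) K ∧
      IntermediateField.adjoin
        (IntermediateField.adjoin k {algebraMap A K t, algebraMap A K y})
          {algebraMap A K z} = ⊤ ∧
      (∀ H : k[X][X][X], ev3 H t y z = 0 → ∃ H', H = F * H') ∧
      ∀ a : A, ∃ (H : k[X][X][X]) (m : ℕ), ev3 (C g ^ m) t y z * a = ev3 H t y z := by
  classical
  have hinj := ev2_injective t y hty
  have hAK : Function.Injective (algebraMap A K) := IsFractionRing.injective A K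
  set F0 := IntermediateField.adjoin k {algebraMap A K t, algebraMap A K y} with hF0
  let algBA : Algebra k[X][X] A := (ev2 t y).toAlgebra
  let algBK : Algebra k[X][X] K := ((algebraMap A K).comp (ev2 t y)).toAlgebra
  have hcomp : (algebraMap A K).comp (ev2 t y) =
      ev2 (k := k) (algebraMap A K t) (algebraMap A K y) :=
    comp_ev2 (IsScalarTower.toAlgHom k A K) t y
  have hmem : ∀ b : k[X][X], (algebraMap A K).comp (ev2 t y) b ∈ F0 := by
    have h1 : ∀ p : k[X], aeval (algebraMap A K t) p ∈ F0 := by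
      intro p
      rw [aeval_eq_sum_range]
      refine sum_mem fun i _ => ?_
      refine F0.smul_mem (pow_mem (IntermediateField.subset_adjoin _ _ (by simp)) _)
    intro b
    rw [hcomp, ev2, RingHom.comp_apply, coe_evalRingHom, coe_mapRingHom, eval_map,
      eval₂_eq_sum_range]
    refine sum_mem fun i _ => mul_mem (h1 _) ?_
    exact pow_mem (IntermediateField.subset_adjoin _ _ (by simp)) _
  let algBF : Algebra k[X][X] F0 :=
    (RingHom.codRestrict ((algebraMap A K).comp (ev2 t y)) F0 hmem).toAlgebra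
  have : IsScalarTower k[X][X] A K := IsScalarTower.of_algebraMap_eq fun _ => rfl
  have : IsScalarTower k[X][X] F0 K := IsScalarTower.of_algebraMap_eq fun _ => rfl
  have : FaithfulSMul k[X][X] F0 := by
    rw [faithfulSMul_iff_algebraMap_injective]
    intro a b hab
    exact hinj (hAK (congrArg (algebraMap F0 K) hab))
  have : FaithfulSMul k[X][X] A := (faithfulSMul_iff_algebraMap_injective _ _).2 hinj
  have : IsFractionRing k[X][X] F0 := by
    refine IsFractionRing.of_field _ _ ?_
    intro w
    obtain ⟨r, hr, s, hs, hw⟩ := IntermediateField.mem_adjoin_iff_div.1 w.2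
    obtain ⟨r', hr'⟩ := adjoin_le_range _ _ hr
    obtain ⟨s', hs'⟩ := adjoin_le_range _ _ hs
    refine ⟨r', s', ?_⟩
    apply Subtype.ext
    rw [hw]
    have h1 : ∀ b : k[X][X], ((algebraMap k[X][X] F0 b : F0) : K) =
        ev2A (algebraMap A K t) (algebraMap A K y) b := by
      intro b
      change (algebraMap A K).comp (ev2 t y) b = _
      rw [hcomp]; rfl
    push_cast
    rw [h1, h1]
    exact congrArg₂ _ hr'.symm hs'.symm
  obtain ⟨z, hzint, hztop⟩ := exists_prim F0 (B := k[X][X]) (A := A) (K := K)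
  have hev : ∀ H : k[X][X][X], ev3 H t y z = aeval z H := fun H => ev3_eq H t y z
  choose b hb0 H hH using exists_poly (B := k[X][X]) (F0 := F0) z hztop
  obtain ⟨S, hS⟩ := (Algebra.FiniteType.out : (⊤ : Subalgebra k A).FG)
  refine ⟨z, minpoly k[X][X] z, ∏ a ∈ S, b a, minpoly.monic hzint, ?_, ?_, ?_, hztop, ?_, ?_⟩
  · rw [hev]; exact minpoly.aeval _ _
  · exact Finset.prod_ne_zero_iff.2 fun a _ => hb0 a
  · have h1 := minpoly.isIntegrallyClosed_eq_field_fractions F0 K hzint
    have h2 : (minpoly k[X][X] z).natDegree = (minpoly F0 (algebraMap A K z)).natDegree := by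
      rw [h1, (minpoly.monic hzint).natDegree_map]
    rw [h2, ← IntermediateField.adjoin.finrank (Algebra.IsIntegral.isIntegral _), hztop,
      IntermediateField.finrank_top']
  · intro P hP
    rw [hev] at hP
    exact minpoly.isIntegrallyClosed_dvd hzint hP
  · intro a
    have ha : a ∈ Algebra.adjoin k (S : Set A) := by rw [hS]; trivial
    have hCg : ∀ g : k[X][X], aeval z (C g) = ev2 t y g := fun g => aeval_C z g
    induction ha using Algebra.adjoin_induction with
    | mem x hx =>
      obtain ⟨r, hr⟩ := Finset.dvd_prod_of_mem b hx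
      refine ⟨C r * H x, 1, ?_⟩
      rw [hev, hev, pow_one, map_mul, ← hH x, hCg, hCg, hr]
      change _ = ev2 t y r * (ev2 t y (b x) * x)
      rw [map_mul]; ring
    | algebraMap c =>
      refine ⟨C (C (C c)), 0, ?_⟩
      rw [hev, hev, pow_zero, map_one, one_mul, hCg, ev2_C_C]
    | add x w _ _ h1 h2 =>
      obtain ⟨H1, m1, e1⟩ := h1
      obtain ⟨H2, m2, e2⟩ := h2
      refine ⟨C (∏ a ∈ S, b a) ^ m2 * H1 + C (∏ a ∈ S, b a) ^ m1 * H2, m1 + m2, ?_⟩
      rw [hev] at e1 e2 ⊢
      rw [hev] at e1 e2 ⊢
      rw [map_add, map_mul, map_mul, ← e1, ← e2, pow_add, map_mul]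
      ring
    | mul x w _ _ h1 h2 =>
      obtain ⟨H1, m1, e1⟩ := h1
      obtain ⟨H2, m2, e2⟩ := h2
      refine ⟨H1 * H2, m1 + m2, ?_⟩
      rw [hev] at e1 e2 ⊢
      rw [hev] at e1 e2 ⊢
      rw [map_mul, ← e1, ← e2, pow_add, map_mul]
      ring

end Pool.Agent.K1
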