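import Mathlib

/-!
Bertini-Noether, piece L3-05d: `prime_of_away` and `finite_common` (helper2).
-/

set_option autoImplicit false

namespace Pool.Agent.K1

/-- if `x` is coprime to `g` in codimension one and `x` divides `g ^ m * a`, then `x` divides
`a`. -/
theorem dvd_of_away {A K : Type*} [CommRing A] [IsDomain A] [Field K]
    [Algebra A K] [IsFractionRing A K]
    (hH : ∀ f : K, (∀ P : Ideal A, P.IsPrime → P.height = 1 →
      ∃ a b : A, b ∉ P ∧ f * algebraMap A K b = algebraMap A K a) →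
      f ∈ Set.range (algebraMap A K))
    (x g : A) (hx : x ≠ 0)
    (hcop : ∀ P : Ideal A, P.IsPrime → P.height = 1 → x ∈ P → g ∉ P)
    (m : ℕ) (a : A) (h : x ∣ g ^ m * a) : x ∣ a := by
  obtain ⟨c, hc⟩ := h
  have hxK : algebraMap A K x ≠ 0 := by
    intro h0
    exact hx ((IsFractionRing.injective A K) (by rw [h0, map_zero]))
  have hmem := hH (algebraMap A K a / algebraMap A K x) ?_
  · obtain ⟨e, he⟩ := hmem
    refine ⟨e, (IsFractionRing.injective A K) ?_⟩
    rw [map_mul, he]
    field_simp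
  · intro P hP h1
    by_cases hxP : x ∈ P
    · refine ⟨c, g ^ m, ?_, ?_⟩
      · intro hg
        exact hcop P hP h1 hxP (hP.mem_of_pow_mem m hg)
      · have h2 : algebraMap A K (g ^ m) * algebraMap A K a =
            algebraMap A K x * algebraMap A K c := by
          rw [← map_mul, ← map_mul, hc]
        rw [div_mul_eq_mul_div, div_eq_iff hxK]
        linear_combination h2
    · exact ⟨a, x, hxP, div_mul_cancel₀ _ hxK⟩

/-- K1-L3-05d. if `x` is coprime to `g` in codimension one and `x` is prime up to powers of `g`,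
then `x` is prime. -/
theorem prime_of_away {A K : Type*} [CommRing A] [IsDomain A] [IsNoetherianRing A] [Field K]
    [Algebra A K] [IsFractionRing A K]
    (hH : ∀ f : K, (∀ P : Ideal A, P.IsPrime → P.height = 1 →
      ∃ a b : A, b ∉ P ∧ f * algebraMap A K b = algebraMap A K a) →
      f ∈ Set.range (algebraMap A K))
    (x g : A) (hx : x ≠ 0) (hg : g ≠ 0)
    (hcop : ∀ P : Ideal A, P.IsPrime → P.height = 1 → x ∈ P → g ∉ P)
    (hun : ∀ m : ℕ, ¬ x ∣ g ^ m)
    (hpr : ∀ a b : A, x ∣ a * b → ∃ m : ℕ, x ∣ g ^ m * a ∨ x ∣ g ^ m * b) :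
    Prime x := by
  refine ⟨hx, ?_, ?_⟩
  · intro hu
    exact hun 0 hu.dvd
  · intro a b hab
    obtain ⟨m, h | h⟩ := hpr a b hab
    · exact Or.inl (dvd_of_away hH x g hx hcop m a h)
    · exact Or.inr (dvd_of_away hH x g hx hcop m b h)

/-- only finitely many `t - c` have a common component with `g` -/
theorem finite_common {k A : Type*} [Field k] [CommRing A] [IsDomain A] [Algebra k A]
    [IsNoetherianRing A] (t g : A) (hg : g ≠ 0) :
    {c : k | ∃ P : Ideal A, P.IsPrime ∧ P.height = 1 ∧ t - algebraMap k A c ∈ P ∧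
      g ∈ P}.Finite := by
  classical
  have hfin : (Ideal.span {g}).minimalPrimes.Finite :=
    Ideal.finite_minimalPrimes_of_isNoetherianRing A _
  have hsub : {c : k | ∃ P : Ideal A, P.IsPrime ∧ P.height = 1 ∧ t - algebraMap k A c ∈ P ∧
      g ∈ P} ⊆ ⋃ P ∈ (Ideal.span {g}).minimalPrimes, {c : k | t - algebraMap k A c ∈ P} := by
    rintro c ⟨P, hP, h1, htP, hgP⟩
    refine Set.mem_biUnion (x := P) ?_ htP
    refine ⟨⟨hP, (Ideal.span_singleton_le_iff_mem P).mpr hgP⟩, ?_⟩
    rintro Q ⟨hQ, hgQ⟩ hQP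
    by_contra hne
    have hlt : Q < P := lt_of_le_of_ne hQP (fun h => hne (le_of_eq h.symm))
    have := hP
    have := hQ
    have hbot : (⊥ : Ideal A) < Q := by
      rw [bot_lt_iff_ne_bot]
      intro h0
      have : g ∈ Q := (Ideal.span_singleton_le_iff_mem Q).mp hgQ
      rw [h0, Ideal.mem_bot] at this
      exact hg this
    have : (⊥ : Ideal A).IsPrime := Ideal.isPrime_bot
    have h2 : (⊥ : Ideal A).height + 1 ≤ Q.height := Ideal.height_add_one_le_of_lt_of_isPrime hbot
    have h3 : Q.height + 1 ≤ P.height := Ideal.height_add_one_le_of_lt_of_isPrime hlt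
    have h4 : (1 : ℕ∞) ≤ Q.height := le_trans (by simp) h2
    have h5 : (1 : ℕ∞) + 1 ≤ P.height := le_trans (add_le_add_left h4 1) h3
    rw [h1] at h5
    exact absurd h5 (by norm_num)
  refine Set.Finite.subset (hfin.biUnion ?_) hsub
  rintro P ⟨⟨hP, _⟩, _⟩
  refine Set.Subsingleton.finite ?_
  intro c hc c' hc'
  by_contra hne
  have hdiff : algebraMap k A (c' - c) ∈ P := by
    have : algebraMap k A (c' - c) = (t - algebraMap k A c) - (t - algebraMap k A c') := by
      rw [map_sub]; ring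
    rw [this]
    exact P.sub_mem hc hc'
  have hu : IsUnit (algebraMap k A (c' - c)) :=
    (IsUnit.mk0 _ (sub_ne_zero.mpr (Ne.symm hne))).map (algebraMap k A)
  exact hP.ne_top (Ideal.eq_top_of_isUnit_mem P hdiff hu)

end Pool.Agent.K1
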