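import Mathlib

/-!
K1-L3-05b: reducible specializations of an absolutely irreducible polynomial are finite in
number (Nullstellensatz argument).
-/

set_option autoImplicit false

open Polynomial TensorProduct

namespace Pool.Agent.K1

/-- the monic polynomial in two variables with given lower coefficients -/
noncomputable def berP {B : Type*} [CommRing B] (d h : ℕ) (a : Fin d → Fin h → B) : B[X][X] :=
  X ^ d + ∑ i : Fin d, C (∑ j : Fin h, C (a i j) * X ^ (j : ℕ)) * X ^ (i : ℕ)

theorem berP_map {B B' : Type*} [CommRing B] [CommRing B'] (φ : B →+* B') (d h : ℕ)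
    (a : Fin d → Fin h → B) :
    (berP d h a).map (mapRingHom φ) = berP d h (fun i j => φ (a i j)) := by
  simp [berP, Polynomial.map_add, Polynomial.map_sum, Polynomial.map_mul]

theorem berP_natDegree {B : Type*} [CommRing B] [Nontrivial B] (d h : ℕ)
    (a : Fin d → Fin h → B) : (berP d h a).natDegree = d ∧ (berP d h a).Monic := by
  have hlt : (∑ i : Fin d, C (∑ j : Fin h, C (a i j) * X ^ (j : ℕ)) * X ^ (i : ℕ) :
      B[X][X]).degree < (d : WithBot ℕ) := by
    exact degree_sum_fin_lt (fun i : Fin d => ∑ j : Fin h, C (a i j) * X ^ (j : ℕ))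
  refine ⟨?_, monic_X_pow_add hlt⟩
  unfold berP
  rw [natDegree_add_eq_left_of_degree_lt, natDegree_X_pow]
  rwa [degree_X_pow]

theorem eq_berP {B : Type*} [CommRing B] (f : B[X][X]) (hf : f.Monic) (d h : ℕ)
    (hd : f.natDegree = d) (hh : ∀ i, (f.coeff i).natDegree < h) :
    f = berP d h (fun i j => (f.coeff i).coeff j) := by
  subst hd
  unfold berP
  conv_lhs => rw [hf.as_sum]
  congr 1
  rw [Fin.sum_univ_eq_sum_range
    (fun i => C (∑ j : Fin h, C ((f.coeff i).coeff j) * X ^ (j : ℕ)) * X ^ i) f.natDegree]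
  refine Finset.sum_congr rfl ?_
  intro i _
  congr 2
  rw [Fin.sum_univ_eq_sum_range (fun j => C ((f.coeff i).coeff j) * X ^ j) h]
  conv_lhs => rw [(f.coeff i).as_sum_range' h (hh i)]
  refine Finset.sum_congr rfl ?_
  intro j _
  rw [← C_mul_X_pow_eq_monomial]

theorem coeff_coeff_swap {B : Type*} [CommRing B] (f : B[X][X]) (i j : ℕ) :
    ((Polynomial.Bivariate.swap f).coeff i).coeff j = (f.coeff j).coeff i := by
  induction f using Polynomial.induction_on' with
  | add p q hp hq => simp [map_add, hp, hq]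
  | monomial n a =>
    induction a using Polynomial.induction_on' with
    | add p q hp hq => simp [map_add, hp, hq]
    | monomial m a =>
      rw [Polynomial.Bivariate.swap_monomial_monomial]
      simp only [coeff_monomial]
      split_ifs <;> simp_all [coeff_monomial]

/-- the degree in the inner variable of a factor is at most the one of the product -/
theorem inner_degree_le {k : Type*} [Field k] (f g p : k[X][X]) (hfg : f * g = p)
    (hp : p ≠ 0) (N : ℕ) (hN : ∀ i, (p.coeff i).natDegree ≤ N) :
    ∀ i, (f.coeff i).natDegree ≤ N := by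
  have hf0 : f ≠ 0 := by rintro rfl; simp at hfg; exact hp hfg.symm
  have hg0 : g ≠ 0 := by rintro rfl; simp at hfg; exact hp hfg.symm
  set s := Polynomial.Bivariate.swap (R := k)
  have hsf : s f ≠ 0 := by simpa using hf0
  have hsg : s g ≠ 0 := by simpa using hg0
  have h1 : (s f).natDegree + (s g).natDegree = (s p).natDegree := by
    rw [← hfg, map_mul, natDegree_mul hsf hsg]
  have h2 : (s p).natDegree ≤ N := by
    rw [natDegree_le_iff_coeff_eq_zero]
    intro n hn
    ext j
    rw [coeff_coeff_swap, coeff_zero]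
    exact coeff_eq_zero_of_natDegree_lt ((hN j).trans_lt hn)
  intro i
  rw [natDegree_le_iff_coeff_eq_zero]
  intro n hn
  rw [← coeff_coeff_swap, coeff_eq_zero_of_natDegree_lt (p := s f) (by omega), coeff_zero]

/-- points of a finitely generated algebra over an algebraically closed field containing the
base -/
theorem exists_algHom_of_injective {A Ω R : Type*} [CommRing A] [IsDomain A] [Field Ω]
    [IsAlgClosed Ω] [Algebra A Ω] [FaithfulSMul A Ω] [CommRing R] [Algebra A R]
    [Algebra.FiniteType A R] (hinj : Function.Injective (algebraMap A R)) :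
    Nonempty (R →ₐ[A] Ω) := by
  let _i1 : Algebra (FractionRing A) Ω := FractionRing.liftAlgebra A Ω
  have : IsScalarTower A (FractionRing A) Ω := FractionRing.isScalarTower_liftAlgebra A Ω
  have : Module.Flat A (FractionRing A) := IsLocalization.flat _ (nonZeroDivisors A)
  let T := FractionRing A ⊗[A] R
  have hT : Function.Injective (algebraMap (FractionRing A) T) :=
    Algebra.TensorProduct.includeLeft_injective (S := FractionRing A) hinj
  have : Nontrivial T := hT.nontrivial
  obtain ⟨m, hm⟩ := Ideal.exists_maximal T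
  let _i2 : Field (T ⧸ m) := Ideal.Quotient.field m
  have : Algebra.FiniteType (FractionRing A) (T ⧸ m) := inferInstance
  have : Module.Finite (FractionRing A) (T ⧸ m) :=
    finite_of_finite_type_of_isJacobsonRing _ _
  let ψ : (T ⧸ m) →ₐ[FractionRing A] Ω := IsAlgClosed.lift
  exact ⟨((ψ.comp (Ideal.Quotient.mkₐ (FractionRing A) m)).restrictScalars A).comp
    (Algebra.TensorProduct.includeRight : R →ₐ[A] T)⟩

/-- the equation `G * H - F` -/
noncomputable def berE {A M : Type*} [CommRing A] [CommRing M] (ι : A →+* M) (F : A[X][X])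
    (e d h : ℕ) (a : Fin e → Fin h → M) (b : Fin d → Fin h → M) : M[X][X] :=
  berP e h a * berP d h b - F.map (mapRingHom ι)

theorem berE_map {A M B : Type*} [CommRing A] [CommRing M] [CommRing B] (ι : A →+* M)
    (F : A[X][X]) (e d h : ℕ) (a : Fin e → Fin h → M) (b : Fin d → Fin h → M) (φ : M →+* B) :
    (berE ι F e d h a b).map (mapRingHom φ) =
      berE (φ.comp ι) F e d h (fun i j => φ (a i j)) (fun i j => φ (b i j)) := by
  simp only [berE, Polynomial.map_sub, Polynomial.map_mul, berP_map, Polynomial.map_map,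
    mapRingHom_comp]

/-- the index set of the unknowns -/
abbrev BerIdx (e d h : ℕ) : Type := (Fin e × Fin h) ⊕ (Fin d × Fin h)

/-- the ideal of the equations -/
noncomputable def berI (A : Type*) [CommRing A] (F : A[X][X]) (e d h : ℕ) :
    Ideal (MvPolynomial (BerIdx e d h) A) :=
  Ideal.span (Set.range fun p : ℕ × ℕ =>
    (((berE (MvPolynomial.C : A →+* MvPolynomial (BerIdx e d h) A) F e d h
      (fun i j => MvPolynomial.X (Sum.inl (i, j)))
      (fun i j => MvPolynomial.X (Sum.inr (i, j)))).coeff p.1).coeff p.2))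

theorem berI_iff {A B : Type*} [CommRing A] [CommRing B] (F : A[X][X]) (e d h : ℕ)
    (φ : MvPolynomial (BerIdx e d h) A →+* B) :
    (∀ x ∈ berI A F e d h, φ x = 0) ↔
      berP e h (fun i j => φ (MvPolynomial.X (Sum.inl (i, j)))) *
      berP d h (fun i j => φ (MvPolynomial.X (Sum.inr (i, j)))) =
        F.map (mapRingHom (φ.comp MvPolynomial.C)) := by
  have h1 : berP e h (fun i j => φ (MvPolynomial.X (Sum.inl (i, j)))) *
      berP d h (fun i j => φ (MvPolynomial.X (Sum.inr (i, j)))) =
        F.map (mapRingHom (φ.comp MvPolynomial.C)) ↔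
      ∀ i j, φ (((berE (MvPolynomial.C : A →+* MvPolynomial (BerIdx e d h) A) F e d h
        (fun i j => MvPolynomial.X (Sum.inl (i, j)))
        (fun i j => MvPolynomial.X (Sum.inr (i, j)))).coeff i).coeff j) = 0 := by
    rw [← sub_eq_zero]
    have h2 := berE_map (MvPolynomial.C : A →+* MvPolynomial (BerIdx e d h) A) F e d h
        (fun i j => MvPolynomial.X (Sum.inl (i, j)))
        (fun i j => MvPolynomial.X (Sum.inr (i, j))) φ
    rw [berE.eq_def (φ.comp _)] at h2
    rw [← h2]
    constructor
    · intro h3 i j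
      have h4 := congrArg (fun q => (q.coeff i).coeff j) h3
      simpa using h4
    · intro h3
      ext i j
      simpa using h3 i j
  rw [h1]
  constructor
  · intro h3 i j
    exact h3 _ (Ideal.subset_span ⟨(i, j), rfl⟩)
  · intro h3 x hx
    have : berI A F e d h ≤ RingHom.ker φ := by
      rw [berI, Ideal.span_le]
      rintro _ ⟨⟨i, j⟩, rfl⟩
      exact h3 i j
    exact this hx

/-- only finitely many specializations factor with given degrees -/
theorem finite_factor {k Ω : Type*} [Field k] [Field Ω] [IsAlgClosed Ω]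
    [Algebra k[X] Ω] [FaithfulSMul k[X] Ω] (F : k[X][X][X]) (hF : F.Monic)
    (hirr : Irreducible (F.map (mapRingHom (algebraMap k[X] Ω)))) (N e d : ℕ)
    (hN : ∀ i, (F.coeff i).natDegree ≤ N) (he : 0 < e) (hd : 0 < d) :
    {c : k | ∃ f g : k[X][X], f.Monic ∧ g.Monic ∧
      f * g = F.map (mapRingHom (evalRingHom c)) ∧ f.natDegree = e ∧
      g.natDegree = d}.Finite := by
  classical
  by_contra hinf
  have hinj : Function.Injective
      (algebraMap k[X] (MvPolynomial (BerIdx e d (N + 1)) k[X] ⧸ berI k[X] F e d (N + 1))) := by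
    rw [injective_iff_map_eq_zero]
    intro r hr
    by_contra hr0
    have hfin : {c : k | r.eval c = 0}.Finite := by
      refine (r.roots.toFinset.finite_toSet).subset ?_
      intro c hc
      simpa [hr0, IsRoot] using hc
    obtain ⟨c, hc, hcr⟩ := (Set.not_finite.mp hinf).exists_notMem_finite hfin
    obtain ⟨f, g, hf, hg, hfg, hfe, hgd⟩ := hc
    have hm : (F.map (mapRingHom (evalRingHom c))).Monic := hF.map _
    have hNc : ∀ i, ((F.map (mapRingHom (evalRingHom c))).coeff i).natDegree ≤ N := by
      intro i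
      rw [coeff_map]
      exact (natDegree_map_le).trans (hN i)
    have hfN := inner_degree_le f g _ hfg hm.ne_zero N hNc
    have hgN := inner_degree_le g f _ ((mul_comm g f).trans hfg) hm.ne_zero N hNc
    have hfP := eq_berP f hf e (N + 1) hfe (fun i => Nat.lt_succ_of_le (hfN i))
    have hgP := eq_berP g hg d (N + 1) hgd (fun i => Nat.lt_succ_of_le (hgN i))
    let φ : MvPolynomial (BerIdx e d (N + 1)) k[X] →+* k :=
      MvPolynomial.eval₂Hom (evalRingHom c)
        (Sum.elim (fun p => (f.coeff (p.1 : ℕ)).coeff (p.2 : ℕ))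
          (fun p => (g.coeff (p.1 : ℕ)).coeff (p.2 : ℕ)))
    have hφC : φ.comp MvPolynomial.C = evalRingHom c := by
      ext x <;> simp [φ]
    have hφ : ∀ x ∈ berI k[X] F e d (N + 1), φ x = 0 := by
      rw [berI_iff, hφC]
      have h1 : ∀ i j, φ (MvPolynomial.X (Sum.inl (i, j))) = (f.coeff (i : ℕ)).coeff (j : ℕ) := by
        intro i j; simp [φ]
      have h2 : ∀ i j, φ (MvPolynomial.X (Sum.inr (i, j))) = (g.coeff (i : ℕ)).coeff (j : ℕ) := by
        intro i j; simp [φ]
      simp only [h1, h2]
      rw [← hfP, ← hgP, hfg]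
    have h3 : MvPolynomial.C r ∈ berI k[X] F e d (N + 1) :=
      Ideal.Quotient.eq_zero_iff_mem.mp hr
    have h4 := hφ _ h3
    have h5 : φ (MvPolynomial.C r) = r.eval c := congrArg (fun q => q r) hφC
    rw [h5] at h4
    exact hcr h4
  obtain ⟨ψ⟩ := exists_algHom_of_injective (Ω := Ω) hinj
  let φ : MvPolynomial (BerIdx e d (N + 1)) k[X] →+* Ω :=
    ψ.toRingHom.comp (Ideal.Quotient.mk _)
  have hφC : φ.comp MvPolynomial.C = algebraMap k[X] Ω := by
    refine RingHom.ext fun r => ?_
    exact ψ.commutes r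
  have hφ : ∀ x ∈ berI k[X] F e d (N + 1), φ x = 0 := by
    intro x hx
    have : (Ideal.Quotient.mk (berI k[X] F e d (N + 1))) x = 0 :=
      Ideal.Quotient.eq_zero_iff_mem.mpr hx
    simp only [φ, RingHom.comp_apply, this, map_zero]
  rw [berI_iff, hφC] at hφ
  rw [← hφ] at hirr
  obtain ⟨h1, -⟩ := berP_natDegree e (N + 1) (fun i j => φ (MvPolynomial.X (Sum.inl (i, j))))
  obtain ⟨h2, -⟩ := berP_natDegree d (N + 1) (fun i j => φ (MvPolynomial.X (Sum.inr (i, j))))
  rcases hirr.isUnit_or_isUnit rfl with h | h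
  · have := natDegree_eq_zero_of_isUnit h
    omega
  · have := natDegree_eq_zero_of_isUnit h
    omega

theorem finite_reducible {k Ω : Type*} [Field k] [IsAlgClosed k] [Field Ω] [IsAlgClosed Ω]
    [Algebra k[X] Ω] [FaithfulSMul k[X] Ω] (F : k[X][X][X]) (hF : F.Monic)
    (hirr : Irreducible (F.map (mapRingHom (algebraMap k[X] Ω)))) :
    {c : k | ¬ Irreducible (F.map (mapRingHom (evalRingHom c)))}.Finite := by
  obtain ⟨N, hN⟩ : ∃ N, ∀ i, (F.coeff i).natDegree ≤ N := by
    refine ⟨F.support.sup fun i => (F.coeff i).natDegree, fun i => ?_⟩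
    by_cases hi : i ∈ F.support
    · exact Finset.le_sup (f := fun i => (F.coeff i).natDegree) hi
    · rw [notMem_support_iff.mp hi]; simp
  have hF1 : F ≠ 1 := by
    rintro rfl
    simp at hirr
  have hsub : {c : k | ¬ Irreducible (F.map (mapRingHom (evalRingHom c)))} ⊆
      ⋃ d ∈ Finset.Ioc 0 (F.natDegree / 2), {c : k | ∃ f g : k[X][X], f.Monic ∧ g.Monic ∧
        f * g = F.map (mapRingHom (evalRingHom c)) ∧ f.natDegree = F.natDegree - d ∧
        g.natDegree = d} := by
    intro c hc
    have hm : (F.map (mapRingHom (evalRingHom c))).Monic := hF.map _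
    have hnd : (F.map (mapRingHom (evalRingHom c))).natDegree = F.natDegree := hF.natDegree_map _
    rw [Set.mem_ofPred_eq, hm.irreducible_iff_natDegree'] at hc
    push Not at hc
    have h1 : F.map (mapRingHom (evalRingHom c)) ≠ 1 := by
      intro h
      rw [h, natDegree_one] at hnd
      exact hF1 (hF.natDegree_eq_zero.mp hnd.symm)
    obtain ⟨f, g, hf, hg, hfg, hmem⟩ := hc h1
    rw [hnd] at hmem
    simp only [Set.mem_iUnion]
    refine ⟨g.natDegree, hmem, f, g, hf, hg, hfg, ?_, rfl⟩
    rw [← hnd, ← hfg, hf.natDegree_mul hg]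
    omega
  refine Set.Finite.subset (Set.Finite.biUnion (Finset.finite_toSet _) ?_) hsub
  intro d hd
  have hd' := Finset.mem_Ioc.mp (Finset.mem_coe.mp hd)
  have : 0 < F.natDegree - d := by omega
  exact finite_factor F hF hirr N _ d hN this hd'.1

end Pool.Agent.K1
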