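import Pool.Agent.K1.BerDefs
import Pool.Agent.K1.BerIrr
import Pool.Agent.K1.BerSpec
import Pool.Agent.K1.BerModel
import Pool.Agent.K1.BerPrime

/-!
K1-L3-05e. Bertini-Noether in elementary form (assembly).
-/

set_option autoImplicit false

open Polynomial

namespace Pool.Agent.K1

/-- `ev3` as a ring homomorphism. -/
private noncomputable def ev3Hom {k A : Type*} [Field k] [CommRing A] [Algebra k A]
    (t y z : A) : k[X][X][X] →+* A :=
  (evalRingHom z).comp ((mapRingHom (evalRingHom y)).comp
    (mapRingHom (mapRingHom (aeval t : k[X] →ₐ[k] A).toRingHom)))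

private lemma ev3Hom_apply {k A : Type*} [Field k] [CommRing A] [Algebra k A]
    (t y z : A) (F : k[X][X][X]) : ev3Hom t y z F = ev3 F t y z := rfl

private lemma ev3Hom_X {k A : Type*} [Field k] [CommRing A] [Algebra k A]
    (t y z : A) (c : k) : ev3Hom t y z (C (C (X - C c))) = t - algebraMap k A c := by
  rw [ev3Hom_apply, ev3]
  simp

private lemma ev3_map {k A B : Type*} [Field k] [CommRing A] [Algebra k A] [CommRing B]
    [Algebra k B] (f : A →ₐ[k] B) (t y z : A) (F : k[X][X][X]) :
    ev3 F (f t) (f y) (f z) = f (ev3 F t y z) := by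
  have h : (ev3Hom (f t) (f y) (f z) : k[X][X][X] →+* B) =
      f.toRingHom.comp (ev3Hom t y z) := by
    ext
    · simp [ev3Hom]
    · simp [ev3Hom]
    · simp [ev3Hom]
    · simp [ev3Hom]
  exact congrArg (fun φ : k[X][X][X] →+* B => φ F) h

/-- the specialization `t = c` -/
private noncomputable def sp {k : Type*} [Field k] (c : k) : k[X][X][X] →+* k[X][X] :=
  mapRingHom (mapRingHom (evalRingHom c))

private lemma sp_apply {k : Type*} [Field k] (c : k) (F : k[X][X][X]) :
    sp c F = F.map (mapRingHom (evalRingHom c)) := rfl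

private lemma sp_X {k : Type*} [Field k] (c : k) : sp c (C (C (X - C c))) = 0 := by
  rw [sp_apply]
  simp

private lemma sp_ker {k : Type*} [Field k] (c : k) (F : k[X][X][X]) (h : sp c F = 0) :
    ∃ R, F = C (C (X - C c)) * R := by
  have h1 : F ∈ RingHom.ker (sp c) := (RingHom.mem_ker).2 h
  rw [sp, Polynomial.ker_mapRingHom, Polynomial.ker_mapRingHom, Polynomial.ker_evalRingHom,
    Ideal.map_span, Set.image_singleton, Ideal.map_span, Set.image_singleton] at h1
  exact Ideal.mem_span_singleton.1 h1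

private lemma sp_surj {k : Type*} [Field k] (c : k) (Q : k[X][X]) : ∃ Q', sp c Q' = Q := by
  refine ⟨Q.map (mapRingHom C), ?_⟩
  rw [sp_apply, Polynomial.map_map, mapRingHom_comp]
  have : (evalRingHom c).comp C = RingHom.id k := by ext; simp
  rw [this, mapRingHom_id, Polynomial.map_id]

private lemma not_dvd_C {R : Type*} [CommRing R] [IsDomain R] {F : R[X]} (hF : F.Monic)
    (hd : 0 < F.natDegree) {q : R} (hq : q ≠ 0) (H : R[X]) : C q ≠ F * H := by
  intro h
  have hH : H ≠ 0 := by
    rintro rfl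
    rw [mul_zero, C_eq_zero] at h
    exact hq h
  have h1 := congrArg natDegree h
  rw [natDegree_C, natDegree_mul hF.ne_zero hH] at h1
  omega

/-- K1-L3-05. Bertini-Noether. -/
theorem prime_fibre {k A K : Type*} [Field k] [IsAlgClosed k] [CommRing A] [IsDomain A]
    [Algebra k A] [Algebra.FiniteType k A] [Field K] [Algebra A K] [IsFractionRing A K]
    [Algebra k K] [IsScalarTower k A K]
    (hH : ∀ f : K, (∀ P : Ideal A, P.IsPrime → P.height = 1 →
      ∃ a b : A, b ∉ P ∧ f * algebraMap A K b = algebraMap A K a) →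
      f ∈ Set.range (algebraMap A K))
    (s u : A) (halg : AlgebraicIndependent k ![s, u])
    [FiniteDimensional (IntermediateField.adjoin k {algebraMap A K s, algebraMap A K u}) K]
    [Algebra.IsSeparable (IntermediateField.adjoin k {algebraMap A K s, algebraMap A K u}) K]
    (hcl : ∀ z : K, IsAlgebraic (IntermediateField.adjoin k {algebraMap A K s}) z →
      z ∈ IntermediateField.adjoin k {algebraMap A K s}) :
    {c : k | ¬ Prime (s - algebraMap k A c)}.Finite := by
  classical
  have : IsNoetherianRing A := Algebra.FiniteType.isNoetherianRing k A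
  obtain ⟨z, F, g, hF, hFz, hg, hdeg, htop, hdiv, hloc⟩ :=
    exists_model (K := K) s u halg inferInstance inferInstance
  have hdpos : 0 < F.natDegree := by
    rw [hdeg]
    exact Module.finrank_pos
  -- absolute irreducibility
  let Ω := AlgebraicClosure (FractionRing k[X])
  have : FaithfulSMul k[X] Ω := by
    rw [faithfulSMul_iff_algebraMap_injective,
      IsScalarTower.algebraMap_eq k[X] (FractionRing k[X]) Ω]
    exact (algebraMap (FractionRing k[X]) Ω).injective.comp
      (IsFractionRing.injective k[X] (FractionRing k[X]))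
  have hΩ : ∀ w : Ω, IsAlgebraic k[X] w := fun w =>
    (IsFractionRing.isAlgebraic_iff k[X] (FractionRing k[X]) Ω).2
      (Algebra.IsAlgebraic.isAlgebraic w)
  let f : A →ₐ[k] K := IsScalarTower.toAlgHom k A K
  have hfinj : Function.Injective f := IsFractionRing.injective A K
  have hty : AlgebraicIndependent k ![algebraMap A K s, algebraMap A K u] := by
    have h1 := halg.map' (f := f) hfinj
    have h2 : (f ∘ ![s, u]) = ![algebraMap A K s, algebraMap A K u] := by
      ext i
      fin_cases i <;> rfl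
    rwa [h2] at h1
  have hzK : ev3 F (algebraMap A K s) (algebraMap A K u) (algebraMap A K z) = 0 := by
    have h1 := ev3_map f s u z F
    rw [hFz, map_zero] at h1
    exact h1
  have hirr : Irreducible (F.map (mapRingHom (algebraMap k[X] Ω))) :=
    irreducible_closure (algebraMap A K s) (algebraMap A K u) (algebraMap A K z) F hF hty hzK
      hdeg htop inferInstance inferInstance hcl hΩ
  have hB1 := finite_reducible F hF hirr
  -- the element `g(s, u)`
  set E := ev3Hom (k := k) s u z with hE
  have hEz : ∀ H, E H = 0 → ∃ H', H = F * H' := hdiv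
  have hEF : E F = 0 := hFz
  have hg' : E (C g) ≠ 0 := by
    intro h0
    obtain ⟨H', hH'⟩ := hEz _ h0
    exact not_dvd_C hF hdpos hg H' hH'
  have hB3 := finite_common (k := k) s (E (C g)) hg'
  -- `g` does not vanish identically on `t = c`
  have hB2 : {c : k | g.map (evalRingHom c) = 0}.Finite := by
    obtain ⟨i, hi⟩ : ∃ i, g.coeff i ≠ 0 := by
      by_contra hcon
      push Not at hcon
      exact hg (Polynomial.ext (by simpa using hcon))
    refine ((g.coeff i).roots.toFinset.finite_toSet).subset ?_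
    intro c hc
    have h1 : (g.map (evalRingHom c)).coeff i = 0 := by
      rw [show g.map (evalRingHom c) = 0 from hc, coeff_zero]
    rw [coeff_map] at h1
    simpa [hi] using h1
  refine ((hB1.union hB2).union hB3).subset ?_
  intro c hc
  by_contra hcon
  apply hc
  simp only [Set.mem_union, Set.mem_ofPred_eq, not_or, not_not] at hcon
  obtain ⟨⟨hirrc, hgc⟩, hcom⟩ := hcon
  have hEx : E (C (C (X - C c))) = s - algebraMap k A c := ev3Hom_X s u z c
  have hx0 : s - algebraMap k A c ≠ 0 := by
    intro h0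
    rw [← hEx] at h0
    obtain ⟨H', hH'⟩ := hEz _ h0
    exact not_dvd_C hF hdpos (C_ne_zero.2 (X_sub_C_ne_zero c)) H' hH'
  have hFc : (sp c F).Monic := hF.map _
  have hFcd : 0 < (sp c F).natDegree := by
    rw [sp_apply, hF.natDegree_map]
    exact hdpos
  have hFcp : Prime (sp c F) := by
    rw [sp_apply]
    exact hirrc.prime
  have hgc' : ∀ m, (g.map (evalRingHom c)) ^ m ≠ 0 := fun m => pow_ne_zero _ hgc
  have hspg : ∀ m, sp c (C g ^ m) = C ((g.map (evalRingHom c)) ^ m) := by
    intro m
    rw [sp_apply, Polynomial.map_pow, map_C, C_pow]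
    rfl
  have hEg : ∀ m, E (C g ^ m) = E (C g) ^ m := fun m => map_pow E _ m
  have hloc' : ∀ a : A, ∃ (H : k[X][X][X]) (m : ℕ), E (C g) ^ m * a = E H := by
    intro a
    obtain ⟨H, m, h⟩ := hloc a
    exact ⟨H, m, by rw [← hEg]; exact h⟩
  have hEsub : ∀ p q : k[X][X][X], E (p - q) = E p - E q := fun p q =>
    eq_sub_iff_add_eq.2 ((RingHom.map_add E _ _).symm.trans (congrArg E (sub_add_cancel p q)))
  have hssub : ∀ p q : k[X][X][X], sp c (p - q) = sp c p - sp c q := fun p q =>
    eq_sub_iff_add_eq.2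
      ((RingHom.map_add (sp c) _ _).symm.trans (congrArg (sp c) (sub_add_cancel p q)))
  -- the key: vanishing modulo `x`
  have key : ∀ (H : k[X][X][X]) (e : A), E H = (s - algebraMap k A c) * e →
      ∃ (l : ℕ), sp c F ∣ C ((g.map (evalRingHom c)) ^ l) * sp c H := by
    intro H e he
    obtain ⟨H3, l, h3⟩ := hloc' e
    have h4 : E (C g ^ l * H - C (C (X - C c)) * H3) = 0 := by
      rw [hEsub, RingHom.map_mul E, RingHom.map_mul E, hEx, hEg, he, ← h3]
      ring
    obtain ⟨H', hH'⟩ := hEz _ h4
    refine ⟨l, ⟨sp c H', ?_⟩⟩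
    rw [← hspg, ← map_mul, ← map_mul, ← hH', hssub,
      RingHom.map_mul (sp c) (C (C (X - C c))), sp_X, zero_mul, sub_zero]
  have key2 : ∀ (H : k[X][X][X]), sp c F ∣ sp c H → (s - algebraMap k A c) ∣ E H := by
    rintro H ⟨Q, hQ⟩
    obtain ⟨Q', hQ'⟩ := sp_surj c Q
    have h1 : sp c (H - F * Q') = 0 := by
      rw [hssub, RingHom.map_mul (sp c), hQ', hQ, sub_self]
    obtain ⟨R, hR⟩ := sp_ker c _ h1
    refine ⟨E R, ?_⟩
    have h2 : H = F * Q' + C (C (X - C c)) * R := by rw [← hR]; ring
    rw [h2, RingHom.map_add E, RingHom.map_mul E, RingHom.map_mul E, hEF, hEx, zero_mul,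
      zero_add]
  have key3 : ∀ l, ¬ sp c F ∣ C ((g.map (evalRingHom c)) ^ l) := by
    rintro l ⟨H', hH'⟩
    exact not_dvd_C hFc hFcd (hgc' l) H' hH'
  refine prime_of_away hH (s - algebraMap k A c) (E (C g)) hx0 hg' ?_ ?_ ?_
  · intro P hP hP1 hxP hgP
    exact hcom ⟨P, hP, hP1, hxP, hgP⟩
  · rintro m ⟨e, he⟩
    rw [← hEg] at he
    obtain ⟨l, hl⟩ := key _ e he
    rw [hspg, ← C_mul, ← pow_add] at hl
    exact key3 _ hl
  · rintro a b ⟨e, he⟩
    obtain ⟨H1, m1, h1⟩ := hloc' a
    obtain ⟨H2, m2, h2⟩ := hloc' b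
    have h3 : E (H1 * H2) = (s - algebraMap k A c) * (E (C g) ^ m1 * E (C g) ^ m2 * e) := by
      rw [map_mul, ← h1, ← h2]
      calc E (C g) ^ m1 * a * (E (C g) ^ m2 * b)
          = E (C g) ^ m1 * E (C g) ^ m2 * (a * b) := by ring
        _ = _ := by rw [he]; ring
    obtain ⟨l, hl⟩ := key _ _ h3
    rcases hFcp.dvd_or_dvd hl with h4 | h4
    · exact absurd h4 (key3 l)
    · rw [map_mul] at h4
      rcases hFcp.dvd_or_dvd h4 with h5 | h5
      · exact ⟨m1, Or.inl (by rw [h1]; exact key2 _ h5)⟩
      · exact ⟨m2, Or.inr (by rw [h2]; exact key2 _ h5)⟩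

end Pool.Agent.K1
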