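import Pool.Agent.K1.BerLem
import Pool.Agent.K1.Forms
import Pool.Agent.K1.PrimeFibre

/-!
# A Bertini theorem for surfaces

On a regular projective surface over an algebraically closed field, given as an `Embed`, there
is a linear form whose zero set contains exactly one point of codimension one, with
multiplicity one, and which avoids a given finite set of points.  The proof picks three forms
with `exists_forms`, picks `b` outside a finite set (so that `k(v - b u)` is algebraically closed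
in the function field) and then `t` outside a finite set (`prime_fibre`).
-/

set_option autoImplicit false

open AlgebraicGeometry CategoryTheory

namespace Pool.Agent.K1

theorem bertini {k : Type} [Field k] [IsAlgClosed k] {X : Scheme.{0}} [IsIntegral X]
    [IsNoetherian X] {n : ℕ} (E : Embed k X n)
    (hreg : ∀ x : X, IsRegularLocalRing (X.presheaf.stalk x))
    (hdim : ∀ x : X, Order.coheight x ≤ 2) (hdim2 : ∃ x : X, Order.coheight x = 2)
    (Z : Set X) (hZ : Z.Finite) :
    ∃ (c : Fin (n + 1) → k) (γ : PointOne X), genericPoint X ∈ E.U c ∧ (∀ z ∈ Z, z ∈ E.U c) ∧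
      γ.1 ∉ E.U c ∧ (∀ x : PointOne X, x.1 ∉ E.U c → x = γ) ∧
      ∀ d, γ.1 ∈ E.U d → X.ord (E.l c / E.l d) γ.1 = 1 := by
  obtain ⟨c₀, c₁, c₂, hc₀, hZ₀, h01, halg, hfd, hsep⟩ := exists_forms E hreg hdim hdim2 Z hZ
  let iK : Algebra k X.functionField := E.kf.toAlgebra
  have hne : Nonempty (E.U c₀) := ⟨⟨_, hc₀⟩⟩
  have hl₀ : E.l c₀ ≠ 0 := ber_l_ne_zero E hc₀
  have hV := (E.affine c₀ hl₀).1
  let iA : Algebra k Γ(X, E.U c₀) := (E.strOn (E.U c₀)).toAlgebra
  have iT : IsScalarTower k Γ(X, E.U c₀) X.functionField := by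
    apply IsScalarTower.of_algebraMap_eq
    intro a
    exact (TopCat.Presheaf.germ_res_apply X.presheaf (homOfLE le_top : E.U c₀ ⟶ ⊤)
      (genericPoint X) hc₀ (E.str a)).symm
  obtain ⟨hdom, hregA, hdimA, -⟩ := affine_facts (E.U c₀) hV hc₀ hreg hdim
  obtain ⟨hFT, -, -⟩ := affine_dim E hdim hdim2 c₀ hc₀
  have iF : IsFractionRing Γ(X, E.U c₀) X.functionField :=
    functionField_isFractionRing_of_isAffineOpen X (E.U c₀) hV
  have iN : IsNoetherianRing Γ(X, E.U c₀) :=
    IsLocallyNoetherian.component_noetherian ⟨_, hV⟩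
  set u := E.l c₁ / E.l c₀ with hu
  set v := E.l c₂ / E.l c₀ with hv
  -- the choice of `b`
  have hinf : Infinite k := IsAlgClosed.instInfinite
  have hB1 := algClosed_generic u v halg
  have hB2 : (⋃ z ∈ {x : PointOne X | x.1 ∉ E.U c₀}, {b : k | z.1 ∉ E.U (c₂ - b • c₁)}).Finite := by
    apply (ber_finite E c₀ hc₀).biUnion
    intro z hz
    exact (ber_subsingleton E c₂ c₁ (h01 z hz)).finite
  obtain ⟨b, hb⟩ := (hB1.union hB2).infinite_compl.nonempty
  have hb1 : ∀ z : X.functionField, IsAlgebraic (IntermediateField.adjoin k {v - b • u}) z →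
      z ∈ IntermediateField.adjoin k {v - b • u} := by
    intro z hz
    by_contra h
    exact hb (Or.inl ⟨z, hz, h⟩)
  have hb2 : ∀ z : PointOne X, z.1 ∉ E.U c₀ → z.1 ∈ E.U (c₂ - b • c₁) := by
    intro z hz
    by_contra h
    exact hb (Or.inr (Set.mem_biUnion (show z ∈ {x : PointOne X | x.1 ∉ E.U c₀} from hz) h))
  obtain ⟨sA, hsA, -⟩ := exists_ratio E (c₂ - b • c₁) c₀ hc₀
  obtain ⟨uA, huA, -⟩ := exists_ratio E c₁ c₀ hc₀
  have hs : algebraMap Γ(X, E.U c₀) X.functionField sA = v - b • u := by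
    have : algebraMap Γ(X, E.U c₀) X.functionField sA = E.l (c₂ - b • c₁) / E.l c₀ := hsA
    rw [this, ber_l_sub_smul, hu, hv, Algebra.smul_def]
    change _ = E.l c₂ / E.l c₀ - E.kf b * (E.l c₁ / E.l c₀)
    ring
  have hu' : algebraMap Γ(X, E.U c₀) X.functionField uA = u := huA
  have halg' : AlgebraicIndependent k ![sA, uA] := by
    have h1 := ber_algInd u v b halg
    have h2 : (![v - b • u, u] : Fin 2 → X.functionField) =
        (IsScalarTower.toAlgHom k Γ(X, E.U c₀) X.functionField) ∘ ![sA, uA] := by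
      ext i
      fin_cases i
      · exact hs.symm
      · exact hu'.symm
    rw [h2] at h1
    exact AlgebraicIndependent.of_comp _ h1
  have hadj := ber_adjoin_eq u v b
  have hfd' : FiniteDimensional (IntermediateField.adjoin k
      {algebraMap Γ(X, E.U c₀) X.functionField sA, algebraMap Γ(X, E.U c₀) X.functionField uA})
      X.functionField := by
    rw [hs, hu', hadj]; exact hfd
  have hsep' : Algebra.IsSeparable (IntermediateField.adjoin k
      {algebraMap Γ(X, E.U c₀) X.functionField sA, algebraMap Γ(X, E.U c₀) X.functionField uA})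
      X.functionField := by
    rw [hs, hu', hadj]; exact hsep
  have hT1 := prime_fibre (k := k) (A := Γ(X, E.U c₀)) (K := X.functionField)
    (fun f hf => mem_of_height_one_regular hdimA f hf) sA uA halg' (by rw [hs]; exact hb1)
  have hT2 : (⋃ z ∈ Z, {t : k | z ∉ E.U (c₂ - b • c₁ - t • c₀)}).Finite := by
    apply hZ.biUnion
    intro z hz
    exact (ber_subsingleton E (c₂ - b • c₁) c₀ (hZ₀ z hz)).finite
  obtain ⟨t, ht⟩ := (hT1.union hT2).infinite_compl.nonempty
  have ht1 : Prime (sA - algebraMap k Γ(X, E.U c₀) t) := by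
    by_contra h
    exact ht (Or.inl h)
  have ht2 : ∀ z ∈ Z, z ∈ E.U (c₂ - b • c₁ - t • c₀) := by
    intro z hz
    by_contra h
    exact ht (Or.inr (Set.mem_biUnion hz h))
  set c := c₂ - b • c₁ - t • c₀ with hc
  obtain ⟨g, hg, hg'⟩ := exists_ratio E c c₀ hc₀
  have hgs : g = sA - algebraMap k Γ(X, E.U c₀) t := by
    apply IsFractionRing.injective Γ(X, E.U c₀) X.functionField
    rw [map_sub, ← IsScalarTower.algebraMap_apply k Γ(X, E.U c₀) X.functionField]
    have h1 : algebraMap Γ(X, E.U c₀) X.functionField g = E.l c / E.l c₀ := hg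
    have h2 : algebraMap Γ(X, E.U c₀) X.functionField sA = E.l (c₂ - b • c₁) / E.l c₀ := hsA
    rw [h1, h2, hc, ber_l_sub_smul E (c₂ - b • c₁) c₀ t]
    change _ = E.l (c₂ - b • c₁) / E.l c₀ - E.kf t
    field_simp
  have hgp : Prime g := hgs ▸ ht1
  have hlc : E.l c ≠ 0 := by
    intro h0
    apply hgp.ne_zero
    apply IsFractionRing.injective Γ(X, E.U c₀) X.functionField
    have h1 : algebraMap Γ(X, E.U c₀) X.functionField g = E.l c / E.l c₀ := hg
    rw [h1, h0, zero_div, map_zero]
  obtain ⟨C⟩ := exists_curveData (E.U c₀) hV hc₀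
  obtain ⟨P, hP⟩ := ber_exists_curve hgp
  -- a point `pt Q` is outside `U c` iff `g ∈ Q`
  have hiff : ∀ Q : Curve1 Γ(X, E.U c₀), (C.pt Q).1 ∉ E.U c ↔ g ∈ Q.ideal := by
    intro Q
    rw [hg' _ (C.mem Q), ← C.φ_res Q g, not_not, map_eq_zero_iff _ (C.φ Q).injective,
      res_eq_zero]
  have hgP : g ∈ P.ideal := by rw [hP]; exact Ideal.mem_span_singleton_self g
  refine ⟨c, C.pt P, (E.affine c hlc).2, ht2, (hiff P).2 hgP, ?_, ?_⟩
  · intro x hx
    by_cases hx0 : x.1 ∈ E.U c₀
    · obtain ⟨Q, rfl⟩ := C.surj x hx0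
      have h1 := ber_curve_eq hgp Q ((hiff Q).1 hx)
      rw [Curve1.ext' (h1.trans hP.symm)]
    · exact (hx (ber_mem_sub E (c₂ - b • c₁) c₀ (hb2 x hx0) hx0 t)).elim
  · intro d hd
    have hld := ber_l_ne_zero E hd
    obtain ⟨a, ha, ha'⟩ := E.stalk c₀ d (C.pt P).1 hd
    have hau : IsUnit a := ha'.2 (C.mem P)
    have h1 : E.l c / E.l d = (E.l c / E.l c₀) * (E.l c₀ / E.l d) := by
      field_simp
    have h2 : E.l c₀ / E.l d = algebraMap (X.presheaf.stalk (C.pt P).1) X.functionField a := by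
      rw [← ha, mul_div_cancel_right₀ _ hld]
    have h3 : X.ord (E.l c / E.l c₀) (C.pt P).1 = 1 := by
      have h4 := C.ord P g hgp.ne_zero
      rw [hg, ber_vAt_one P g hP] at h4
      simpa using h4
    rw [h1, Scheme.ord_mul (div_ne_zero hlc hl₀) (div_ne_zero hl₀ hld), h3, h2,
      ber_ord_unit (C.pt P).2 a hau, add_zero]

end Pool.Agent.K1
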