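import Pool.Agent.K1.L3Defs
import Pool.Agent.K1.AffineFacts

/-!
Layer 3: the degree function of a normal embedding along an integral hyperplane section.
-/

set_option autoImplicit false

open AlgebraicGeometry CategoryTheory

attribute [local instance] MvPolynomial.gradedAlgebra

namespace Pool.Agent.K1

namespace DegFunOf

section ord

variable {X : Scheme.{0}} [IsIntegral X] [IsLocallyNoetherian X]

omit [IsIntegral X] [IsLocallyNoetherian X] in
theorem dvr_stalk [IsIntegral X] (x : X) (hx : Order.coheight x = 1)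
    (hreg : IsRegularLocalRing (X.presheaf.stalk x)) :
    IsDiscreteValuationRing (X.presheaf.stalk x) := by
  have h1 := (IsRegularLocalRing.iff_finrank_cotangentSpace (R := X.presheaf.stalk x)).1 hreg
  rw [ringKrullDim_stalk_eq_coheight, hx] at h1
  have h4 : Module.finrank (IsLocalRing.ResidueField (X.presheaf.stalk x))
      (IsLocalRing.CotangentSpace (X.presheaf.stalk x)) = 1 := by
    exact_mod_cast h1
  exact IsLocalRing.finrank_CotangentSpace_eq_one_iff.1 h4

theorem ord_stalk_nonneg (x : X) (a : X.presheaf.stalk x) :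
    0 ≤ X.ord (algebraMap (X.presheaf.stalk x) X.functionField a) x := by
  by_cases ha : a = 0
  · rw [ha, map_zero, Scheme.ord_zero]
    exact le_rfl
  by_cases hx : Order.coheight x = 1
  · have hf : algebraMap (X.presheaf.stalk x) X.functionField a ≠ 0 := by
      rw [Ne, IsFractionRing.to_map_eq_zero_iff]
      exact ha
    rw [Scheme.le_ord_iff hx hf]
    have : Ring.KrullDimLE 1 (X.presheaf.stalk x) := krullDimLE_of_coheight_le hx.le
    exact Ring.ordFrac_ge_one_of_ne_zero (R := X.presheaf.stalk x) ha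
  · rw [Scheme.ord_eq_zero_of_coheight_neq_one hx]

theorem ord_div' (x : X) (f g : X.functionField) (hf : f ≠ 0) (hg : g ≠ 0) :
    X.ord (f / g) x = X.ord f x - X.ord g x := by
  have h : X.ord (f / g * g) x = X.ord (f / g) x + X.ord g x :=
    Scheme.ord_mul (div_ne_zero hf hg) hg
  rw [div_mul_cancel₀ f hg] at h
  omega

theorem ord_one' (x : X) : X.ord (1 : X.functionField) x = 0 := by
  have h : X.ord ((1 : X.functionField) * 1) x = X.ord (1 : X.functionField) x +
      X.ord (1 : X.functionField) x := Scheme.ord_mul one_ne_zero one_ne_zero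
  rw [mul_one] at h
  omega

theorem ord_pow' (x : X) (f : X.functionField) (hf : f ≠ 0) (n : ℕ) :
    X.ord (f ^ n) x = n * X.ord f x := by
  induction n with
  | zero => rw [pow_zero, ord_one']; simp
  | succ n ih =>
    rw [pow_succ, Scheme.ord_mul (pow_ne_zero n hf) hf, ih]
    push_cast
    ring

end ord

section embed

variable {k : Type} [Field k] {X : Scheme.{0}} [IsIntegral X] {n : ℕ} (E : Embed k X n)

theorem l_ne_zero (d : Fin (n + 1) → k) (x : X) (hx : x ∈ E.U d) : E.l d ≠ 0 := by
  intro h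
  have := E.empty d h
  rw [this] at hx
  exact hx

theorem l_single (j : Fin (n + 1)) : E.l (Pi.single j 1) = E.w j := by
  unfold EmbedData.l
  rw [Finset.sum_eq_single j]
  · rw [Pi.single_eq_same, map_one, one_mul]
  · intro i _ hij
    rw [Pi.single_eq_of_ne hij, map_zero, zero_mul]
  · intro h
    exact absurd (Finset.mem_univ j) h

theorem kf_eq (V : X.Opens) (hg : genericPoint X ∈ V) (a : k) :
    E.kf a = (X.presheaf.germ V (genericPoint X) hg).hom (E.strOn V a) := by
  unfold EmbedData.kf EmbedData.strOn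
  simp only [RingHom.comp_apply]
  exact (X.presheaf.germ_res_apply (homOfLE le_top : V ⟶ ⊤) (genericPoint X) hg (E.str a)).symm

theorem kf_ne_zero (a : k) (ha : a ≠ 0) : E.kf a ≠ 0 := by
  rw [Ne, map_eq_zero]
  exact ha

theorem ord_kf [IsLocallyNoetherian X] (x : X) (a : k) (ha : a ≠ 0) : X.ord (E.kf a) x = 0 := by
  have hu : IsUnit (E.str a) := (isUnit_iff_ne_zero.mpr ha).map E.str
  have : Nonempty (⊤ : X.Opens) := ⟨⟨x, trivial⟩⟩
  exact Scheme.ord_of_isUnit (U := ⊤) hu (x := x) trivial

/-- the hypothesis on regular functions, see `mem_range_of_ord_nonneg` -/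
def HMem (X : Scheme.{0}) [IsIntegral X] [IsLocallyNoetherian X] : Prop :=
  ∀ (V : X.Opens), IsAffineOpen V → ∀ (hg : genericPoint X ∈ V) (f : X.functionField), f ≠ 0 →
    (∀ x ∈ V, Order.coheight x = 1 → 0 ≤ X.ord f x) →
    f ∈ Set.range (X.presheaf.germ V (genericPoint X) hg).hom

theorem isSection_iff_of [IsLocallyNoetherian X] (hmem : HMem X) (j : ℕ) (f : X.functionField)
    (hf : f ≠ 0) :
    E.IsSection j f ↔ ∀ (x : PointOne X) (d), x.1 ∈ E.U d →
      0 ≤ X.ord (f / E.l d ^ j) x.1 := by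
  constructor
  · intro h x d hx
    obtain ⟨a, ha⟩ := h d x.1 hx
    have hl := l_ne_zero E d x.1 hx
    have e : f / E.l d ^ j = algebraMap (X.presheaf.stalk x.1) X.functionField a := by
      rw [div_eq_iff (pow_ne_zero j hl), ha]
    rw [e]
    exact ord_stalk_nonneg x.1 a
  · intro h d x hx
    have hl := l_ne_zero E d x hx
    obtain ⟨haff, hg⟩ := E.affine d hl
    obtain ⟨a, ha⟩ := hmem (E.U d) haff hg (f / E.l d ^ j)
      (div_ne_zero hf (pow_ne_zero j hl)) (fun y hy hy1 => h ⟨y, hy1⟩ d hy)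
    refine ⟨(X.presheaf.germ (E.U d) x hx).hom a, ?_⟩
    have : Nonempty (E.U d) := ⟨⟨x, hx⟩⟩
    have e := Scheme.algebraMap_germ_eq_germToFunctionField X hx a
    have e2 : algebraMap (X.presheaf.stalk x) X.functionField
        ((X.presheaf.germ (E.U d) x hx).hom a) = f / E.l d ^ j := e.trans ha
    rw [e2, div_mul_cancel₀ f (pow_ne_zero j hl)]

/-- the ratio of two linear forms has nonnegative order where the denominator does not vanish -/
theorem ord_ratio_nonneg [IsLocallyNoetherian X] (c d : Fin (n + 1) → k) (x : X)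
    (hd : x ∈ E.U d) : 0 ≤ X.ord (E.l c / E.l d) x := by
  obtain ⟨a, ha, _⟩ := E.stalk c d x hd
  have hl := l_ne_zero E d x hd
  have e : E.l c / E.l d = algebraMap (X.presheaf.stalk x) X.functionField a := by
    rw [div_eq_iff hl, ha]
  rw [e]
  exact ord_stalk_nonneg x a

/-- regular functions have nonnegative order -/
theorem ord_germ_nonneg [IsLocallyNoetherian X] (V : X.Opens) (hg : genericPoint X ∈ V) (x : X)
    (hx : x ∈ V) (a : Γ(X, V)) :
    0 ≤ X.ord ((X.presheaf.germ V (genericPoint X) hg).hom a) x := by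
  have : Nonempty V := ⟨⟨x, hx⟩⟩
  have e := Scheme.algebraMap_germ_eq_germToFunctionField X hx a
  have e2 : (X.presheaf.germ V (genericPoint X) hg).hom a =
    algebraMap (X.presheaf.stalk x) X.functionField ((X.presheaf.germ V x hx).hom a) := e.symm
  rw [e2]
  exact ord_stalk_nonneg x _

/-- homogeneous polynomials evaluated at scaled points -/
theorem eval₂_div {R K : Type*} [CommRing R] [Field K] (φ : R →+* K) {m : ℕ} (w : Fin m → K)
    (P : MvPolynomial (Fin m) R) (j : ℕ) (hP : P.IsHomogeneous j) (l : K) :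
    MvPolynomial.eval₂ φ (fun i => w i / l) P = MvPolynomial.eval₂ φ w P / l ^ j := by
  rw [MvPolynomial.eval₂_eq', MvPolynomial.eval₂_eq', Finset.sum_div]
  refine Finset.sum_congr rfl fun d hd => ?_
  have hd' : ∑ i, d i = j := by
    have h := hP (MvPolynomial.mem_support_iff.mp hd)
    rw [← h]
    simp [Finsupp.weight_apply, Finsupp.sum_fintype]
  have h2 : ∏ i, (w i / l) ^ d i = (∏ i, w i ^ d i) / l ^ j := by
    rw [← hd', ← Finset.prod_pow_eq_pow_sum, ← Finset.prod_div_distrib]
    exact Finset.prod_congr rfl fun i _ => div_pow _ _ _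
  rw [h2, mul_div_assoc]

/-- homogeneous polynomials in elements of `W` -/
theorem eval₂_mem_pow {A : Type*} [CommRing A] [Algebra k A] (W : Submodule k A) {m : ℕ}
    (a : Fin m → A) (ha : ∀ i, a i ∈ W) (P : MvPolynomial (Fin m) k) (j : ℕ)
    (hP : P.IsHomogeneous j) : MvPolynomial.eval₂ (algebraMap k A) a P ∈ W ^ j := by
  rw [MvPolynomial.eval₂_eq']
  refine Submodule.sum_mem _ fun d hd => ?_
  have hd' : ∑ i, d i = j := by
    have h := hP (MvPolynomial.mem_support_iff.mp hd)
    rw [← h]
    simp [Finsupp.weight_apply, Finsupp.sum_fintype]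
  rw [← Algebra.smul_def]
  refine Submodule.smul_mem _ _ ?_
  have key : ∀ s : Finset (Fin m), ∏ i ∈ s, a i ^ d i ∈ W ^ (∑ i ∈ s, d i) := by
    intro s
    induction s using Finset.induction_on with
    | empty =>
      rw [Finset.prod_empty, Finset.sum_empty, pow_zero, Submodule.mem_one]
      exact ⟨1, map_one _⟩
    | insert i s his ih =>
      rw [Finset.prod_insert his, Finset.sum_insert his, pow_add]
      exact Submodule.mul_mem_mul (Submodule.pow_mem_pow W (ha i) _) ih
  rw [← hd']
  exact key Finset.univ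

theorem exists_degFun_of [IsLocallyNoetherian X] (hmem : HMem X) (hN : E.Normal)
    (hreg : ∀ x : X, IsRegularLocalRing (X.presheaf.stalk x))
    (c : Fin (n + 1) → k) (γ : PointOne X) (hc : genericPoint X ∈ E.U c)
    (huniq : ∀ x : PointOne X, x.1 ∉ E.U c → x = γ)
    (hone : ∀ d, γ.1 ∈ E.U d → X.ord (E.l c / E.l d) γ.1 = 1) :
    letI := (E.strOn (E.U c)).toAlgebra
    ∃ D : DegFun k Γ(X, E.U c), ∀ f : Γ(X, E.U c), f ≠ 0 →
      (D.deg f : ℤ) = - X.ord ((X.presheaf.germ (E.U c) (genericPoint X) hc).hom f) γ.1 := by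
  classical
  let _ := (E.strOn (E.U c)).toAlgebra
  have hlc : E.l c ≠ 0 := l_ne_zero E c _ hc
  set G : Γ(X, E.U c) →+* X.functionField :=
    (X.presheaf.germ (E.U c) (genericPoint X) hc).hom with hG
  have hGinj : Function.Injective G := germ_injective_of_isIntegral X (genericPoint X) hc
  have hG0 : ∀ f : Γ(X, E.U c), f ≠ 0 → G f ≠ 0 := fun f hf h => hf (hGinj (by rw [h, map_zero]))
  have hGk : ∀ a : k, G (algebraMap k Γ(X, E.U c) a) = E.kf a := fun a =>
    (kf_eq E (E.U c) hc a).symm
  -- points of codimension one other than γ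
  have hreg' : ∀ (f : Γ(X, E.U c)) (x : PointOne X), x ≠ γ → 0 ≤ X.ord (G f) x.1 := by
    intro f x hx
    have hxc : x.1 ∈ E.U c := by
      by_contra hcon
      exact hx (huniq x hcon)
    exact ord_germ_nonneg (E.U c) hc x.1 hxc f
  -- the order at γ is nonpositive
  have hneg : ∀ f : Γ(X, E.U c), f ≠ 0 → X.ord (G f) γ.1 ≤ 0 := by
    intro f hf
    by_contra hcon
    have hcon : 0 < X.ord (G f) γ.1 := not_le.mp hcon
    have hs : E.IsSection 0 (G f) := by
      rw [isSection_iff_of E hmem 0 (G f) (hG0 f hf)]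
      intro x d _
      rw [pow_zero, div_one]
      by_cases hx : x = γ
      · rw [hx]; exact hcon.le
      · exact hreg' f x hx
    obtain ⟨P, hP, hPe⟩ := hN 0 (G f) hs
    have hPc : P = MvPolynomial.C (P.coeff 0) := by
      rw [← MvPolynomial.totalDegree_eq_zero_iff_eq_C]
      exact Nat.le_zero.mp hP.totalDegree_le
    rw [hPc, MvPolynomial.eval₂_C] at hPe
    have hne : P.coeff 0 ≠ 0 := by
      intro h
      rw [h, map_zero] at hPe
      exact hG0 f hf hPe.symm
    have := ord_kf E γ.1 _ hne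
    rw [hPe] at this
    omega
  have hdvr : IsDiscreteValuationRing (X.presheaf.stalk γ.1) :=
    dvr_stalk γ.1 γ.2 (hreg γ.1)
  -- the coordinates
  have hw : ∀ j, ∃ a : Γ(X, E.U c), G a = E.w j / E.l c := by
    intro j
    have h := E.sections c hc
    have h2 : E.w j / E.l c ∈ Set.range G := by
      rw [hG, h]
      exact Subring.subset_closure (Or.inr ⟨j, rfl⟩)
    exact h2
  choose a ha using hw
  obtain ⟨j₀, hj₀⟩ := E.cover γ.1
  let dg : Γ(X, E.U c) → ℕ := fun f => (-X.ord (G f) γ.1).toNat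
  have hdg : ∀ f : Γ(X, E.U c), f ≠ 0 → (dg f : ℤ) = -X.ord (G f) γ.1 := by
    intro f hf
    have := hneg f hf
    simp only [dg]
    omega
  have hdg0 : dg 0 = 0 := by
    simp only [dg, map_zero, Scheme.ord_zero, Pi.zero_apply, neg_zero, Int.toNat_zero]
  refine ⟨⟨dg, Finset.univ.image a, ?_, ?_, ?_, ?_⟩, hdg⟩
  · intro f g hf hg
    have hfg : G f * G g ≠ 0 := mul_ne_zero (hG0 f hf) (hG0 g hg)
    have hfg' : f * g ≠ 0 := by
      intro h
      rw [← map_mul, h, map_zero] at hfg
      exact hfg rfl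
    have h1 := hdg f hf
    have h2 := hdg g hg
    have h3 := hdg (f * g) hfg'
    rw [map_mul, Scheme.ord_mul (hG0 f hf) (hG0 g hg)] at h3
    omega
  · intro f g
    by_cases hf : f = 0
    · rw [hf, zero_add]; exact le_max_right _ _
    by_cases hg : g = 0
    · rw [hg, add_zero]; exact le_max_left _ _
    by_cases hfg : f + g = 0
    · rw [hfg, hdg0]; exact Nat.zero_le _
    have h1 := hdg f hf
    have h2 := hdg g hg
    have h3 := hdg (f + g) hfg
    have h4 : min (X.ord (G f) γ.1) (X.ord (G g) γ.1) ≤ X.ord (G f + G g) γ.1 :=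
      Scheme.ord_add (by rw [← map_add]; exact hG0 _ hfg)
    rw [map_add] at h3
    omega
  · intro b hb
    obtain ⟨j, _, rfl⟩ := Finset.mem_image.mp hb
    by_cases h0 : a j = 0
    · rw [h0, hdg0]; exact Nat.zero_le _
    have h1 := hdg (a j) h0
    have hl0 := l_ne_zero E _ γ.1 hj₀
    have hwj : E.w j ≠ 0 := by
      intro h
      have h2 := ha j
      rw [h, zero_div] at h2
      exact hG0 _ h0 h2
    have h2 := ord_ratio_nonneg E (Pi.single j 1) (Pi.single j₀ 1) γ.1 hj₀
    rw [l_single E j, ord_div' _ _ _ hwj hl0] at h2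
    have h3 := hone _ hj₀
    rw [ord_div' _ _ _ hlc hl0] at h3
    rw [ha j, ord_div' _ _ _ hwj hlc] at h1
    have : (dg (a j) : ℤ) ≤ 1 := by omega
    exact_mod_cast this
  · intro f
    by_cases hf : f = 0
    · rw [hf]; exact Submodule.zero_mem _
    set j := dg f with hj
    have h1 := hdg f hf
    have hFl : G f * E.l c ^ j ≠ 0 := mul_ne_zero (hG0 f hf) (pow_ne_zero j hlc)
    have hs : E.IsSection j (G f * E.l c ^ j) := by
      rw [isSection_iff_of E hmem j _ hFl]
      intro x d hx
      have hld := l_ne_zero E d x.1 hx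
      have e : G f * E.l c ^ j / E.l d ^ j = G f * (E.l c / E.l d) ^ j := by
        rw [div_pow, mul_div_assoc]
      rw [e, Scheme.ord_mul (hG0 f hf) (pow_ne_zero j (div_ne_zero hlc hld)),
        ord_pow' _ _ (div_ne_zero hlc hld)]
      by_cases hxγ : x = γ
      · subst hxγ
        rw [hone d hx]
        omega
      · have h2 := hreg' f x hxγ
        have h3 := ord_ratio_nonneg E c d x.1 hx
        positivity
    obtain ⟨P, hP, hPe⟩ := hN j _ hs
    have h2 := eval₂_div E.kf E.w P j hP (E.l c)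
    rw [hPe, mul_div_assoc, div_self (pow_ne_zero j hlc), mul_one] at h2
    have h3 : G (MvPolynomial.eval₂ (algebraMap k Γ(X, E.U c)) a P) = G f := by
      rw [MvPolynomial.hom_eval₂, ← h2]
      congr 1
      · ext x; exact hGk x
      · funext i; exact ha i
    have h4 : MvPolynomial.eval₂ (algebraMap k Γ(X, E.U c)) a P = f := hGinj h3
    rw [← h4]
    refine eval₂_mem_pow _ a (fun i => ?_) P j hP
    exact Submodule.subset_span (Set.mem_insert_of_mem _
      (by rw [Finset.coe_image, Finset.coe_univ, Set.image_univ]; exact ⟨i, rfl⟩))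

end embed

end DegFunOf

theorem isSection_iff {k : Type} [Field k] {X : Scheme.{0}} [IsIntegral X]
    [IsNoetherian X] {n : ℕ} (E : Embed k X n)
    (hreg : ∀ x : X, IsRegularLocalRing (X.presheaf.stalk x))
    (hdim : ∀ x : X, Order.coheight x ≤ 2) (j : ℕ) (f : X.functionField) (hf : f ≠ 0) :
    E.IsSection j f ↔ ∀ (x : PointOne X) (d), x.1 ∈ E.U d →
      0 ≤ X.ord (f / E.l d ^ j) x.1 :=
  DegFunOf.isSection_iff_of E
    (fun V hV hg f hf h => mem_range_of_ord_nonneg hreg hdim V hV hg f hf h) j f hf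

theorem exists_degFun {k : Type} [Field k] [IsAlgClosed k] {X : Scheme.{0}} [IsIntegral X]
    [IsNoetherian X] {n : ℕ} (E : Embed k X n) (hN : E.Normal)
    (hreg : ∀ x : X, IsRegularLocalRing (X.presheaf.stalk x))
    (hdim : ∀ x : X, Order.coheight x ≤ 2)
    (c : Fin (n + 1) → k) (γ : PointOne X) (hc : genericPoint X ∈ E.U c)
    (_hγ : γ.1 ∉ E.U c) (huniq : ∀ x : PointOne X, x.1 ∉ E.U c → x = γ)
    (hone : ∀ d, γ.1 ∈ E.U d → X.ord (E.l c / E.l d) γ.1 = 1) :
    letI := (E.strOn (E.U c)).toAlgebra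
    ∃ D : DegFun k Γ(X, E.U c), ∀ f : Γ(X, E.U c), f ≠ 0 →
      (D.deg f : ℤ) = - X.ord ((X.presheaf.germ (E.U c) (genericPoint X) hc).hom f) γ.1 :=
  DegFunOf.exists_degFun_of E
    (fun V hV hg f hf h => mem_range_of_ord_nonneg hreg hdim V hV hg f hf h) hN hreg c γ hc
    huniq hone

end Pool.Agent.K1
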