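import Mathlib

/-!
K1-L3-06 : finiteness of the normalization of a domain of finite type over an algebraically
closed field.
-/

namespace Pool.Agent.K1

theorem finInt_semilinear {R S M N : Type*} [CommRing R] [IsNoetherianRing R] [CommRing S]
    [AddCommGroup M] [Module R M] [AddCommGroup N] [Module S N] [Module.Finite S N]
    (φ : R →+* S) (hφ : φ.Finite) (f : M →+ N) (hf : ∀ (r : R) (m : M), f (r • m) = φ r • f m)
    (hinj : Function.Injective f) : Module.Finite R M := by
  let _ : Algebra R S := φ.toAlgebra
  have : Module.Finite R S := hφ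
  let _ : Module R N := Module.compHom N φ
  have : IsScalarTower R S N := ⟨fun r s n => by
    change (φ r * s) • n = φ r • (s • n)
    rw [mul_smul]⟩
  have : Module.Finite R N := Module.Finite.trans S N
  let g : M →ₗ[R] N :=
    { toFun := f
      map_add' := f.map_add
      map_smul' := hf }
  exact Module.Finite.of_injective g hinj

theorem finInt_frob {k : Type*} [Field k] [IsAlgClosed k] (p : ℕ) [ExpChar k p]
    (e d : ℕ) [ExpChar (MvPolynomial (Fin d) k) p] :
    (iterateFrobenius (MvPolynomial (Fin d) k) p e).Finite := by
  have hq : 0 < p ^ e := pow_pos (expChar_pos k p) e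
  apply RingHom.IsIntegral.to_finite
  · intro x
    refine ⟨Polynomial.X ^ (p ^ e) - Polynomial.C x, Polynomial.monic_X_pow_sub_C _ hq.ne', ?_⟩
    simp [iterateFrobenius_def]
  · let ψ : MvPolynomial (Fin d) (MvPolynomial (Fin d) k) →+* MvPolynomial (Fin d) k :=
      MvPolynomial.eval₂Hom (iterateFrobenius (MvPolynomial (Fin d) k) p e) MvPolynomial.X
    have hψ : Function.Surjective ψ := by
      intro x
      induction x using MvPolynomial.induction_on with
      | C a =>
        obtain ⟨b, hb⟩ := IsAlgClosed.exists_pow_nat_eq a hq
        refine ⟨MvPolynomial.C (MvPolynomial.C b), ?_⟩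
        simp only [ψ, MvPolynomial.eval₂Hom_C]
        rw [iterateFrobenius_def, ← map_pow, hb]
      | add x y hx hy =>
        obtain ⟨a, ha⟩ := hx
        obtain ⟨b, hb⟩ := hy
        exact ⟨a + b, by rw [map_add, ha, hb]⟩
      | mul_X x i hx =>
        obtain ⟨a, ha⟩ := hx
        refine ⟨a * MvPolynomial.X i, ?_⟩
        rw [map_mul, ha]
        simp [ψ]
    have h1 : (iterateFrobenius (MvPolynomial (Fin d) k) p e) =
        ψ.comp (algebraMap (MvPolynomial (Fin d) k)
          (MvPolynomial (Fin d) (MvPolynomial (Fin d) k))) := by
      ext x <;> simp [ψ, MvPolynomial.algebraMap_eq]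
    rw [h1]
    exact RingHom.FiniteType.comp (RingHom.FiniteType.of_surjective ψ hψ)
      (RingHom.finiteType_algebraMap.mpr inferInstance)

theorem finInt_aux {B L E K : Type*} [CommRing B] [IsDomain B] [IsNoetherianRing B]
    [IsIntegrallyClosed B] [Field L] [Algebra B L] [IsFractionRing B L] [Field E] [Field K]
    [Algebra B E] [Algebra L E] [IsScalarTower B L E] [Algebra B K] [Algebra E K]
    [IsScalarTower B E K] [Module.Finite L E] [Algebra.IsSeparable L E]
    (p : ℕ) [ExpChar B p] [ExpChar K p] (e : ℕ) (hB : (iterateFrobenius B p e).Finite)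
    (hp : ∀ x : K, ∃ y : E, algebraMap E K y = x ^ (p ^ e)) :
    Module.Finite B (integralClosure B K) := by
  have hEK := (algebraMap E K).injective
  have hfE : Module.Finite B (integralClosure B E) := IsIntegralClosure.finite B L E _
  have hq : 0 < p ^ e := pow_pos (expChar_pos K p) e
  have key : ∀ x : integralClosure B K, ∃ y : integralClosure B E,
      algebraMap E K (y : E) = (x : K) ^ (p ^ e) := by
    intro x
    obtain ⟨y, hy⟩ := hp (x : K)
    have hy2 : IsIntegral B y := by
      rw [← isIntegral_algebraMap_iff (B := K) hEK, hy]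
      exact x.2.pow _
    exact ⟨⟨y, hy2⟩, hy⟩
  choose F hF using key
  refine finInt_semilinear (N := integralClosure B E) (iterateFrobenius B p e) hB
    ⟨⟨F, ?_⟩, ?_⟩ ?_ ?_
  · apply Subtype.ext
    apply hEK
    rw [hF]
    exact (zero_pow hq.ne').trans (map_zero (algebraMap E K)).symm
  · intro x y
    apply Subtype.ext
    apply hEK
    simp only [Subalgebra.coe_add, map_add, hF]
    exact add_pow_expChar_pow _ _ _ _
  · intro r x
    apply Subtype.ext
    apply hEK
    change algebraMap E K (F (r • x) : E) = algebraMap E K ((iterateFrobenius B p e r) •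
      (F x : E))
    rw [hF]
    change (r • (x : K)) ^ (p ^ e) = _
    rw [Algebra.smul_def r (x : K), Algebra.smul_def _ (F x : E), map_mul, hF,
      ← IsScalarTower.algebraMap_apply, iterateFrobenius_def, map_pow, mul_pow]
  · intro x y hxy
    have hxy' : F x = F y := hxy
    have h2 : (x : K) ^ (p ^ e) = (y : K) ^ (p ^ e) := by
      rw [← hF x, ← hF y, hxy']
    exact Subtype.ext (iterateFrobenius_inj K p e h2)

theorem finInt_aux2 {B L K : Type*} [CommRing B] [IsDomain B] [IsNoetherianRing B]
    [IsIntegrallyClosed B] [Field L] [Algebra B L] [IsFractionRing B L] [Field K]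
    [Algebra B K] [Algebra L K] [IsScalarTower B L K] [Module.Finite L K]
    (p : ℕ) [ExpChar B p] (hB : ∀ e, (iterateFrobenius B p e).Finite) :
    Module.Finite B (integralClosure B K) := by
  have hpL : ExpChar L p := expChar_of_injective_algebraMap (IsFractionRing.injective B L) p
  have hpK : ExpChar K p := expChar_of_injective_algebraMap (algebraMap L K).injective p
  have hpE : ExpChar (separableClosure L K) p :=
    expChar_of_injective_algebraMap (algebraMap L (separableClosure L K)).injective p
  have h1 : IsPurelyInseparable (separableClosure L K) K :=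
    separableClosure.isPurelyInseparable _ _
  have h2 : Module.Finite (separableClosure L K) K := inferInstance
  have h3 : IsScalarTower B (separableClosure L K) K := IsScalarTower.of_algebraMap_eq (by
    intro x
    rw [IsScalarTower.algebraMap_apply B L K,
      IsScalarTower.algebraMap_apply B L (separableClosure L K)]
    rfl)
  exact finInt_aux (L := L) (E := separableClosure L K) p
    (IsPurelyInseparable.exponent (separableClosure L K) K) (hB _)
    (fun x => IsPurelyInseparable.exponent_def' (separableClosure L K) p x)

theorem finite_integralClosure {k A K : Type*} [Field k] [IsAlgClosed k] [CommRing A]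
    [IsDomain A] [Algebra k A] [Algebra.FiniteType k A] [Field K] [Algebra A K]
    [IsFractionRing A K] : Module.Finite A (integralClosure A K) := by
  obtain ⟨d, g, ginj, gfin⟩ := exists_finite_inj_algHom_of_fg k A
  obtain ⟨p, hp⟩ := ExpChar.exists k
  have hpB : ExpChar (MvPolynomial (Fin d) k) p := expChar_of_injective_algebraMap
    (FaithfulSMul.algebraMap_injective k _) p
  let _ : Algebra (MvPolynomial (Fin d) k) A := g.toRingHom.toAlgebra
  have : Module.Finite (MvPolynomial (Fin d) k) A := gfin
  let _ : Algebra (MvPolynomial (Fin d) k) K := ((algebraMap A K).comp g.toRingHom).toAlgebra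
  have : IsScalarTower (MvPolynomial (Fin d) k) A K :=
    IsScalarTower.of_algebraMap_eq (fun _ => rfl)
  have : FaithfulSMul (MvPolynomial (Fin d) k) K :=
    (faithfulSMul_iff_algebraMap_injective _ _).mpr ((IsFractionRing.injective A K).comp ginj)
  let _ : Algebra (FractionRing (MvPolynomial (Fin d) k)) K := FractionRing.liftAlgebra _ K
  have : IsScalarTower (MvPolynomial (Fin d) k) (FractionRing (MvPolynomial (Fin d) k)) K :=
    FractionRing.isScalarTower_liftAlgebra _ K
  have : Algebra.EssFiniteType A K :=
    Algebra.EssFiniteType.of_isLocalization K (nonZeroDivisors A)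
  have : Algebra.EssFiniteType (MvPolynomial (Fin d) k) K :=
    Algebra.EssFiniteType.comp (MvPolynomial (Fin d) k) A K
  have : Algebra.EssFiniteType (FractionRing (MvPolynomial (Fin d) k)) K :=
    Algebra.EssFiniteType.of_comp (MvPolynomial (Fin d) k) _ K
  have : Algebra.IsAlgebraic (MvPolynomial (Fin d) k) A := inferInstance
  have : Algebra.IsAlgebraic A K := IsLocalization.isAlgebraic K (nonZeroDivisors A)
  have : Algebra.IsAlgebraic (MvPolynomial (Fin d) k) K :=
    Algebra.IsAlgebraic.trans (MvPolynomial (Fin d) k) A K
  have : Algebra.IsAlgebraic (FractionRing (MvPolynomial (Fin d) k)) K :=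
    (IsFractionRing.comap_isAlgebraic_iff (A := MvPolynomial (Fin d) k)).mp inferInstance
  have : Module.Finite (FractionRing (MvPolynomial (Fin d) k)) K :=
    Algebra.finite_of_essFiniteType_of_isAlgebraic
  have h1 : Module.Finite (MvPolynomial (Fin d) k)
      (integralClosure (MvPolynomial (Fin d) k) K) :=
    finInt_aux2 (L := FractionRing (MvPolynomial (Fin d) k)) p (fun e => finInt_frob p e d)
  have hint : ∀ x : K, IsIntegral A x → IsIntegral (MvPolynomial (Fin d) k) x :=
    fun x hx => isIntegral_trans x hx
  let f : integralClosure A K →ₗ[MvPolynomial (Fin d) k]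
      integralClosure (MvPolynomial (Fin d) k) K :=
    { toFun := fun x => ⟨x, hint _ x.2⟩
      map_add' := fun _ _ => rfl
      map_smul' := fun _ _ => rfl }
  have h2 : Module.Finite (MvPolynomial (Fin d) k) (integralClosure A K) :=
    Module.Finite.of_injective f (fun x y hxy => Subtype.ext (by
      have := congrArg Subtype.val hxy
      exact this))
  exact Module.Finite.of_restrictScalars_finite (MvPolynomial (Fin d) k) A (integralClosure A K)

end Pool.Agent.K1
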