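import Mathlib

set_option autoImplicit false
set_option linter.style.longLine false

/-!
Finite generation of the ring of sections, abstract form.
-/

open Polynomial

namespace Pool.Agent.K1.SecRing

variable {k F : Type} [Field k] [Field F] [Algebra k F] {n : ℕ}

/-- homogenization with the variable of `F[X]` -/
noncomputable def Phi (w : Fin (n + 1) → F) : MvPolynomial (Fin (n + 1)) k →ₐ[k] F[X] :=
  MvPolynomial.aeval fun i => C (w i) * X

theorem Phi_hom (w : Fin (n + 1) → F) {i : ℕ} {P : MvPolynomial (Fin (n + 1)) k}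
    (hP : P.IsHomogeneous i) : Phi w P = C (MvPolynomial.aeval w P) * X ^ i := by
  have h1 : P = ∑ d ∈ P.support, MvPolynomial.monomial d (P.coeff d) := P.as_sum
  conv_lhs => rw [h1]
  conv_rhs => rw [h1]
  rw [map_sum, map_sum, map_sum, Finset.sum_mul]
  apply Finset.sum_congr rfl
  intro d hd
  have h2 : ∑ j, d j = i := by
    have h3 := hP (MvPolynomial.mem_support_iff.1 hd)
    rw [← h3, Finsupp.weight_apply, Finsupp.sum_fintype]
    · simp
    · intro _
      simp
  unfold Phi
  rw [MvPolynomial.aeval_monomial, MvPolynomial.aeval_monomial, map_mul, Finsupp.prod_fintype,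
    Finsupp.prod_fintype, map_prod]
  · have h4 : ∏ j, (C (w j) * X) ^ d j = (∏ j, C (w j ^ d j)) * (X : F[X]) ^ i := by
      rw [← h2, ← Finset.prod_pow_eq_pow_sum, ← Finset.prod_mul_distrib]
      apply Finset.prod_congr rfl
      intro j _
      rw [mul_pow, C_pow]
    rw [h4, ← mul_assoc]
    rfl
  · intro _; rw [pow_zero]
  · intro _; rw [pow_zero]

theorem coeff_Phi (w : Fin (n + 1) → F) (P : MvPolynomial (Fin (n + 1)) k) (m : ℕ) :
    (Phi w P).coeff m = MvPolynomial.aeval w (MvPolynomial.homogeneousComponent m P) := by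
  have h1 : Phi w P = ∑ i ∈ Finset.range (P.totalDegree + 1),
      C (MvPolynomial.aeval w (MvPolynomial.homogeneousComponent i P)) * X ^ i := by
    conv_lhs => rw [← MvPolynomial.sum_homogeneousComponent P]
    rw [map_sum]
    apply Finset.sum_congr rfl
    intro i _
    exact Phi_hom w (MvPolynomial.homogeneousComponent_isHomogeneous i P)
  rw [h1, finsetSum_coeff]
  by_cases hm : m ∈ Finset.range (P.totalDegree + 1)
  · rw [Finset.sum_eq_single_of_mem m hm]
    · rw [coeff_C_mul, coeff_X_pow, if_pos rfl, mul_one]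
    · intro i _ hi
      rw [coeff_C_mul, coeff_X_pow, if_neg (Ne.symm hi), mul_zero]
  · rw [Finset.sum_eq_zero]
    · rw [MvPolynomial.homogeneousComponent_eq_zero m P (by
        rw [Finset.mem_range] at hm
        omega), map_zero]
    · intro i hi
      rw [coeff_C_mul, coeff_X_pow, if_neg, mul_zero]
      rintro rfl
      exact hm hi

/-- The sections are generated by finitely many over the forms. -/
theorem fg_abs (w : Fin (n + 1) → F) (hw : ∃ t, w t ≠ 0) (Sec : ℕ → F → Prop)
    (habs : ∀ j f, Sec j f → ∃ N : ℕ, ∀ i, N ≤ i → ∀ P : MvPolynomial (Fin (n + 1)) k,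
      P.IsHomogeneous i → ∃ Q : MvPolynomial (Fin (n + 1)) k, Q.IsHomogeneous (i + j) ∧
        MvPolynomial.aeval w Q = f * MvPolynomial.aeval w P)
    (hfi : ∀ (A K : Type) [CommRing A] [IsDomain A] [Algebra k A] [Algebra.FiniteType k A]
      [Field K] [Algebra A K] [IsFractionRing A K], Module.Finite A (integralClosure A K)) :
    ∃ (r : ℕ) (g : Fin r → F) (e : Fin r → ℕ), (∀ i, Sec (e i) (g i)) ∧
      ∀ (j : ℕ) (f : F), Sec j f → ∃ Q : Fin r → MvPolynomial (Fin (n + 1)) k,
        (∀ i, (e i ≤ j ∧ (Q i).IsHomogeneous (j - e i)) ∨ Q i = 0) ∧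
        ∑ i, g i * MvPolynomial.aeval w (Q i) = f := by
  classical
  obtain ⟨t, ht⟩ := hw
  let S : Subalgebra k F[X] := (Phi (k := k) w).range
  have hSft : Algebra.FiniteType k S :=
    Algebra.FiniteType.of_surjective (Phi (k := k) w).rangeRestrict
      (AlgHom.rangeRestrict_surjective _)
  have hSnoeth : IsNoetherianRing S := Algebra.FiniteType.isNoetherianRing k S
  let Q' : Type := FractionRing S
  let L : Type := FractionRing F[X]
  have hQ : Module.Finite S (integralClosure S Q') := hfi S Q'
  -- the embedding of fraction fields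
  have hSL : Function.Injective (algebraMap S L) := by
    intro a b hab
    apply Subtype.ext
    exact IsFractionRing.injective F[X] L hab
  let φ : Q' →ₐ[S] L := IsFractionRing.liftAlgHom (A := S) (g := Algebra.ofId S L) hSL
  have hφ : Function.Injective φ := φ.toRingHom.injective
  -- the generators
  let G : Set F[X] := {z | ∃ j f, Sec j f ∧ z = C f * X ^ j}
  let R : Submodule S F[X] := Submodule.span S G
  let ι : F[X] →ₐ[S] L := Algebra.ofId F[X] L |>.restrictScalars S
  have hι : Function.Injective ι := IsFractionRing.injective F[X] L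
  let N : Submodule S L := (Subalgebra.toSubmodule (integralClosure S Q')).map φ.toLinearMap
  have hN : N.FG := by
    apply Submodule.FG.map
    exact (Submodule.fg_top _).1 hQ.fg_top
  have hΦt : ∀ M, Phi (k := k) w (MvPolynomial.X t ^ M) = C (w t ^ M) * X ^ M := by
    intro M
    rw [map_pow]
    unfold Phi
    rw [MvPolynomial.aeval_X, mul_pow, C_pow]
  have hGN : ∀ z ∈ G, ι z ∈ N := by
    rintro z ⟨j, f, hf, rfl⟩
    obtain ⟨M, hM⟩ := habs j f hf
    -- integrality
    have hint : IsIntegral S (C f * X ^ j : F[X]) := by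
      let T : Submodule S F[X] := Submodule.span S {z | ∃ i P, M ≤ i ∧
        MvPolynomial.IsHomogeneous P i ∧ z = Phi (k := k) w P}
      have hT1 : T ≤ Submodule.span S {(1 : F[X])} := by
        apply Submodule.span_le.2
        rintro z ⟨i, P, _, _, rfl⟩
        refine Submodule.mem_span_singleton.2 ⟨⟨Phi w P, P, rfl⟩, ?_⟩
        rw [Subalgebra.smul_def, smul_eq_mul, mul_one]
      have hnoe : IsNoetherian S (Submodule.span S {(1 : F[X])}) :=
        isNoetherian_of_fg_of_noetherian _ (Submodule.fg_span_singleton _)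
      have hTfg : T.FG := by
        have h1 : (T.comap (Submodule.span S {(1 : F[X])}).subtype).FG := IsNoetherian.noetherian _
        have h2 := h1.map (Submodule.span S {(1 : F[X])}).subtype
        rwa [Submodule.map_comap_subtype, inf_eq_right.2 hT1] at h2
      have hT0 : T ≠ ⊥ := by
        intro h0
        have h1 : Phi (k := k) w (MvPolynomial.X t ^ M) ∈ T := Submodule.subset_span
          ⟨M, _, le_rfl, by simpa using (MvPolynomial.isHomogeneous_X k t).pow M, rfl⟩
        rw [h0, Submodule.mem_bot, hΦt] at h1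
        exact (mul_ne_zero (C_ne_zero.2 (pow_ne_zero _ ht)) (pow_ne_zero _ X_ne_zero)) h1
      refine isIntegral_of_smul_mem_submodule T hT0 hTfg _ ?_
      intro z hz
      induction hz using Submodule.span_induction with
      | mem z hz =>
        obtain ⟨i, P, hi, hP, rfl⟩ := hz
        obtain ⟨P', hP', hP'e⟩ := hM i hi P hP
        apply Submodule.subset_span
        refine ⟨i + j, P', by omega, hP', ?_⟩
        rw [Phi_hom w hP', Phi_hom w hP, hP'e, smul_eq_mul, C_mul, pow_add]
        ring
      | zero => rw [smul_zero]; exact T.zero_mem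
      | add a b _ _ ha hb => rw [smul_add]; exact T.add_mem ha hb
      | smul s a _ ha =>
        rw [smul_comm]
        exact T.smul_mem s ha
    -- the fraction
    obtain ⟨P', hP', hP'e⟩ := hM M le_rfl (MvPolynomial.X t ^ M)
      (by simpa using (MvPolynomial.isHomogeneous_X k t).pow M)
    let a : S := ⟨Phi w P', P', rfl⟩
    let b : S := ⟨Phi w (MvPolynomial.X t ^ M), _, rfl⟩
    have hb : algebraMap S Q' b ≠ 0 := by
      intro h0
      have h1 : b = 0 := IsFractionRing.injective S Q' (by rw [h0, map_zero])
      have h2 : Phi (k := k) w (MvPolynomial.X t ^ M) = 0 := congrArg Subtype.val h1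
      rw [hΦt] at h2
      exact (mul_ne_zero (C_ne_zero.2 (pow_ne_zero _ ht)) (pow_ne_zero _ X_ne_zero)) h2
    have hab : (a : F[X]) = C f * X ^ j * (b : F[X]) := by
      change Phi w P' = C f * X ^ j * Phi w (MvPolynomial.X t ^ M)
      rw [Phi_hom w hP', hP'e, hΦt, C_mul, map_pow, MvPolynomial.aeval_X, pow_add]
      ring
    have hz : φ (algebraMap S Q' a / algebraMap S Q' b) = ι (C f * X ^ j) := by
      rw [map_div₀, φ.commutes, φ.commutes]
      have hb' : algebraMap S L b ≠ 0 := by
        intro h0
        exact hb (by rw [hSL (h0.trans (map_zero _).symm), map_zero])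
      rw [div_eq_iff hb']
      change algebraMap F[X] L a = algebraMap F[X] L (C f * X ^ j) * algebraMap F[X] L b
      rw [hab, map_mul]
    have hzint : IsIntegral S (algebraMap S Q' a / algebraMap S Q' b) := by
      rw [← isIntegral_algHom_iff φ hφ, hz, isIntegral_algHom_iff ι hι]
      exact hint
    exact ⟨algebraMap S Q' a / algebraMap S Q' b, hzint, hz⟩
  have hR : R.FG := by
    have h1 : R.map ι.toLinearMap ≤ N := by
      rw [Submodule.map_span, Submodule.span_le]
      rintro _ ⟨z, hz, rfl⟩
      exact hGN z hz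
    have hnoe : IsNoetherian S N := isNoetherian_of_fg_of_noetherian _ hN
    have h2 : (R.map ι.toLinearMap).FG := by
      have h3 : ((R.map ι.toLinearMap).comap N.subtype).FG := IsNoetherian.noetherian _
      have h4 := h3.map N.subtype
      rwa [Submodule.map_comap_subtype, inf_eq_right.2 h1] at h4
    exact Submodule.fg_of_fg_map_injective ι.toLinearMap hι h2
  obtain ⟨G', hG', hspan⟩ := (Submodule.fg_span_iff_fg_span_finset_subset G).1 hR
  -- indexing
  let eq := G'.equivFin
  choose e g hsec hzg using fun i : Fin G'.card => hG' (eq.symm i).2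
  refine ⟨G'.card, g, e, hsec, ?_⟩
  intro j f hf
  have hmem : C f * X ^ j ∈ Submodule.span S (G' : Set F[X]) := by
    rw [← hspan]
    exact Submodule.subset_span ⟨j, f, hf, rfl⟩
  rw [Submodule.mem_span_finset] at hmem
  obtain ⟨c, _, hc⟩ := hmem
  have hP : ∀ z : F[X], ∃ P, Phi (k := k) w P = (c z : F[X]) := fun z => (c z).2
  choose P hP using hP
  let q : Fin G'.card → MvPolynomial (Fin (n + 1)) k := fun i =>
    if e i ≤ j then MvPolynomial.homogeneousComponent (j - e i) (P (eq.symm i)) else 0
  refine ⟨q, ?_, ?_⟩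
  · intro i
    by_cases hi : e i ≤ j
    · left
      refine ⟨hi, ?_⟩
      change MvPolynomial.IsHomogeneous (if e i ≤ j then _ else _) _
      rw [if_pos hi]
      exact MvPolynomial.homogeneousComponent_isHomogeneous _ _
    · right
      exact if_neg hi
  · have h1 := congrArg (fun p : F[X] => p.coeff j) hc
    simp only [coeff_C_mul, coeff_X_pow, if_true, mul_one, finsetSum_coeff] at h1
    have h3 : ∑ z ∈ G', (c z • z).coeff j = ∑ i : Fin G'.card,
        ((c (eq.symm i : F[X])) • ((eq.symm i : G') : F[X])).coeff j := by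
      rw [← Finset.sum_coe_sort G' (fun z => (c z • z).coeff j)]
      exact (eq.symm.sum_comp (fun z : G' => (c (z : F[X]) • (z : F[X])).coeff j)).symm
    rw [← h1, h3]
    apply Finset.sum_congr rfl
    intro i _
    have h2 : ((c (eq.symm i : F[X])) • ((eq.symm i : G') : F[X])) =
        Phi (k := k) w (P (eq.symm i)) * (C (g i) * X ^ e i) := by
      rw [Subalgebra.smul_def, smul_eq_mul, hP, hzg i]
    rw [h2, mul_left_comm, coeff_C_mul, coeff_mul_X_pow']
    by_cases hi : e i ≤ j
    · rw [if_pos hi, coeff_Phi]
      change g i * MvPolynomial.aeval w (if e i ≤ j then _ else _) = _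
      rw [if_pos hi]
    · rw [if_neg hi, mul_zero]
      change g i * MvPolynomial.aeval w (if e i ≤ j then _ else _) = _
      rw [if_neg hi, map_zero, mul_zero]

end Pool.Agent.K1.SecRing
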