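import Pool.Agent.K1.L3Defs
import Pool.Agent.K1.SectionAbs
import Pool.Agent.K1.FinInt

/-!
L3-09a: sections of `O(j)` on a projective scheme: they multiply forms of large degree into
forms, and they are generated by finitely many over the forms.
-/

set_option autoImplicit false
set_option linter.style.longLine false

open AlgebraicGeometry CategoryTheory

attribute [local instance] MvPolynomial.gradedAlgebra

namespace Pool.Agent.K1

namespace SecRing

section abs

variable {k F : Type} [Field k] [Field F] [Algebra k F] {n : ℕ}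

/-- elements of the ring generated by the `w j / w t` are forms over powers of `w t` -/
theorem exists_form_of_mem_closure (w : Fin (n + 1) → F) (t : Fin (n + 1)) (ht : w t ≠ 0) (z : F)
    (hz : z ∈ Subring.closure (Set.range (algebraMap k F) ∪ Set.range fun j => w j / w t)) :
    ∃ e₀ : ℕ, ∀ e, e₀ ≤ e → ∃ P : MvPolynomial (Fin (n + 1)) k, P.IsHomogeneous e ∧
      MvPolynomial.aeval w P = z * w t ^ e := by
  have hX : ∀ e, (MvPolynomial.X t ^ e : MvPolynomial (Fin (n + 1)) k).IsHomogeneous e := by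
    intro e
    simpa using (MvPolynomial.isHomogeneous_X k t).pow e
  induction hz using Subring.closure_induction with
  | mem z hz =>
    rcases hz with ⟨c, rfl⟩ | ⟨j, rfl⟩
    · refine ⟨0, fun e _ => ⟨MvPolynomial.C c * MvPolynomial.X t ^ e, ?_, ?_⟩⟩
      · simpa using (MvPolynomial.isHomogeneous_C (Fin (n + 1)) c).mul (hX e)
      · rw [map_mul, map_pow, MvPolynomial.aeval_X, MvPolynomial.aeval_C]
    · refine ⟨1, fun e he => ⟨MvPolynomial.X j * MvPolynomial.X t ^ (e - 1), ?_, ?_⟩⟩
      · have h1 := (MvPolynomial.isHomogeneous_X k j).mul (hX (e - 1))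
        rwa [show 1 + (e - 1) = e by omega] at h1
      · obtain ⟨e, rfl⟩ : ∃ e', e = e' + 1 := ⟨e - 1, by omega⟩
        rw [map_mul, map_pow, MvPolynomial.aeval_X, MvPolynomial.aeval_X, Nat.add_sub_cancel,
          pow_succ]
        field_simp
  | zero => exact ⟨0, fun e _ => ⟨0, MvPolynomial.isHomogeneous_zero _ _ _, by simp⟩⟩
  | one =>
    exact ⟨0, fun e _ => ⟨MvPolynomial.X t ^ e, hX e, by
      rw [map_pow, MvPolynomial.aeval_X, one_mul]⟩⟩
  | add a b _ _ iha ihb =>
    obtain ⟨e₁, h₁⟩ := iha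
    obtain ⟨e₂, h₂⟩ := ihb
    refine ⟨max e₁ e₂, fun e he => ?_⟩
    obtain ⟨P, hP, hPe⟩ := h₁ e ((le_max_left _ _).trans he)
    obtain ⟨Q, hQ, hQe⟩ := h₂ e ((le_max_right _ _).trans he)
    exact ⟨P + Q, hP.add hQ, by rw [map_add, hPe, hQe]; ring⟩
  | neg a _ iha =>
    obtain ⟨e₁, h₁⟩ := iha
    refine ⟨e₁, fun e he => ?_⟩
    obtain ⟨P, hP, hPe⟩ := h₁ e he
    exact ⟨-P, hP.neg, by rw [map_neg, hPe]; ring⟩
  | mul a b _ _ iha ihb =>
    obtain ⟨e₁, h₁⟩ := iha
    obtain ⟨e₂, h₂⟩ := ihb
    refine ⟨e₁ + e₂, fun e he => ?_⟩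
    obtain ⟨P, hP, hPe⟩ := h₁ e₁ le_rfl
    obtain ⟨Q, hQ, hQe⟩ := h₂ (e - e₁) (by omega)
    refine ⟨P * Q, ?_, ?_⟩
    · have h3 := hP.mul hQ
      rwa [show e₁ + (e - e₁) = e by omega] at h3
    · obtain ⟨d, rfl⟩ : ∃ d, e = e₁ + d := ⟨e - e₁, by omega⟩
      rw [Nat.add_sub_cancel_left] at hQe
      rw [map_mul, hPe, hQe, pow_add]
      ring

/-- from powers of the coordinates to all forms of large degree -/
theorem absorb_abs (w : Fin (n + 1) → F) (j : ℕ) (f : F)
    (h : ∀ t, ∃ e₀ : ℕ, ∀ e, e₀ ≤ e → ∃ P : MvPolynomial (Fin (n + 1)) k,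
      P.IsHomogeneous (e + j) ∧ MvPolynomial.aeval w P = f * w t ^ e) :
    ∃ N : ℕ, ∀ i, N ≤ i → ∀ P : MvPolynomial (Fin (n + 1)) k, P.IsHomogeneous i →
      ∃ Q : MvPolynomial (Fin (n + 1)) k, Q.IsHomogeneous (i + j) ∧
        MvPolynomial.aeval w Q = f * MvPolynomial.aeval w P := by
  classical
  choose e₀ he₀ using h
  let e : ℕ := Finset.univ.sup e₀
  refine ⟨(n + 1) * e + 1, ?_⟩
  intro i hi P hP
  -- the property for all monomials
  have hmon : ∀ d ∈ P.support, ∃ Q : MvPolynomial (Fin (n + 1)) k, Q.IsHomogeneous (i + j) ∧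
      MvPolynomial.aeval w Q =
        f * MvPolynomial.aeval w (MvPolynomial.monomial d (P.coeff d)) := by
    intro d hd
    have hdeg : ∑ t, d t = i := by
      have h3 := hP (MvPolynomial.mem_support_iff.1 hd)
      rw [← h3, Finsupp.weight_apply, Finsupp.sum_fintype]
      · simp
      · intro _
        simp
    obtain ⟨t, ht⟩ : ∃ t, e ≤ d t := by
      by_contra hcon
      push Not at hcon
      have h4 : ∑ t : Fin (n + 1), d t ≤ ∑ _t : Fin (n + 1), e :=
        Finset.sum_le_sum fun t _ => (hcon t).le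
      rw [hdeg, Finset.sum_const, Finset.card_univ, Fintype.card_fin, smul_eq_mul] at h4
      omega
    obtain ⟨Q, hQ, hQe⟩ := he₀ t e (Finset.le_sup (Finset.mem_univ t))
    let d' : Fin (n + 1) →₀ ℕ := d - Finsupp.single t e
    have hd' : d = d' + Finsupp.single t e := by
      rw [tsub_add_cancel_of_le]
      rw [Finsupp.single_le_iff]
      exact ht
    have hdeg' : ∑ s, d' s + e = i := by
      rw [← hdeg, hd']
      simp only [Finsupp.add_apply, Finset.sum_add_distrib]
      congr 1
      rw [Finset.sum_eq_single t]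
      · simp
      · intro b _ hb
        rw [Finsupp.single_apply, if_neg (Ne.symm hb)]
      · intro h5
        exact absurd (Finset.mem_univ t) h5
    refine ⟨MvPolynomial.monomial d' (P.coeff d) * Q, ?_, ?_⟩
    · have h5 : (MvPolynomial.monomial d' (P.coeff d)).IsHomogeneous (∑ s, d' s) := by
        apply MvPolynomial.isHomogeneous_monomial
        rw [Finsupp.degree_eq_sum]
      have h6 := h5.mul hQ
      rwa [show ∑ s, d' s + (e + j) = i + j by omega] at h6
    · rw [map_mul, hQe]
      have h7 : MvPolynomial.aeval w (MvPolynomial.monomial d (P.coeff d)) =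
          MvPolynomial.aeval w (MvPolynomial.monomial d' (P.coeff d)) * w t ^ e := by
        have h8 : MvPolynomial.monomial d (P.coeff d) =
            MvPolynomial.monomial d' (P.coeff d) * MvPolynomial.X t ^ e := by
          rw [MvPolynomial.X_pow_eq_monomial, MvPolynomial.monomial_mul, mul_one, ← hd']
        rw [h8, map_mul, map_pow, MvPolynomial.aeval_X]
      rw [h7]
      ring
  choose! Q hQ hQe using hmon
  refine ⟨∑ d ∈ P.support, Q d, ?_, ?_⟩
  · exact MvPolynomial.IsHomogeneous.sum _ _ _ hQ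
  · rw [map_sum, Finset.sum_congr rfl hQe, ← Finset.mul_sum, ← map_sum, ← P.as_sum]

end abs

/-- on an affine open set: functions which are regular at all points are regular -/
theorem mem_range_of_stalks {X : Scheme.{0}} [IsIntegral X] (V : X.Opens)
    (hV : IsAffineOpen V) (hg : genericPoint X ∈ V) (f : X.functionField)
    (h : ∀ x ∈ V, ∃ a : X.presheaf.stalk x,
      algebraMap (X.presheaf.stalk x) X.functionField a = f) :
    f ∈ Set.range (X.presheaf.germ V (genericPoint X) hg).hom := by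
  have hne : Nonempty V := ⟨⟨_, hg⟩⟩
  let I : Ideal Γ(X, V) :=
    { carrier := {s | ∃ c : Γ(X, V), (X.presheaf.germ V (genericPoint X) hg).hom s * f =
        (X.presheaf.germ V (genericPoint X) hg).hom c}
      add_mem' := by
        rintro a b ⟨c, hc⟩ ⟨d, hd⟩
        exact ⟨c + d, by rw [map_add, map_add, add_mul, hc, hd]⟩
      zero_mem' := ⟨0, by rw [map_zero, zero_mul]⟩
      smul_mem' := by
        rintro r a ⟨c, hc⟩
        exact ⟨r * c, by rw [smul_eq_mul, map_mul, map_mul, mul_assoc, hc]⟩ }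
  have hI : I = ⊤ := by
    by_contra hcon
    obtain ⟨M, hM, hIM⟩ := Ideal.exists_le_maximal I hcon
    let y : PrimeSpectrum Γ(X, V) := ⟨M, hM.isPrime⟩
    have hy : hV.fromSpec y ∈ V := by
      have h1 : hV.fromSpec y ∈ Set.range hV.fromSpec := ⟨y, rfl⟩
      rw [hV.range_fromSpec] at h1
      exact h1
    obtain ⟨a, ha⟩ := h _ hy
    let _ : Algebra Γ(X, V) (X.presheaf.stalk (hV.fromSpec y)) :=
      TopCat.Presheaf.algebra_section_stalk X.presheaf ⟨hV.fromSpec y, hy⟩
    have hloc : IsLocalization.AtPrime (X.presheaf.stalk (hV.fromSpec y)) y.asIdeal :=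
      hV.isLocalization_stalk' y hy
    obtain ⟨⟨c, s⟩, hcs⟩ := IsLocalization.surj y.asIdeal.primeCompl a
    apply s.2
    apply hIM
    refine ⟨c, ?_⟩
    have h2 := congrArg (algebraMap (X.presheaf.stalk (hV.fromSpec y)) X.functionField) hcs
    rw [map_mul, ha] at h2
    have h3 : ∀ g : Γ(X, V), algebraMap (X.presheaf.stalk (hV.fromSpec y)) X.functionField
        (algebraMap Γ(X, V) (X.presheaf.stalk (hV.fromSpec y)) g) =
        (X.presheaf.germ V (genericPoint X) hg).hom g := fun g =>
      Scheme.algebraMap_germ_eq_germToFunctionField X hy g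
    rw [h3, h3] at h2
    rw [mul_comm]
    exact h2
  have h1 : (1 : Γ(X, V)) ∈ I := hI ▸ Submodule.mem_top
  obtain ⟨c, hc⟩ := h1
  rw [map_one, one_mul] at hc
  exact ⟨c, hc.symm⟩

theorem l_single {k : Type} [Field k] {X : Scheme.{0}} [IsIntegral X] {n : ℕ}
    (E : EmbedData k X n) (t : Fin (n + 1)) : E.l (Pi.single t 1) = E.w t := by
  unfold EmbedData.l
  rw [Finset.sum_eq_single t]
  · rw [Pi.single_eq_same, map_one, one_mul]
  · intro b _ hb
    rw [Pi.single_eq_of_ne hb, map_zero, zero_mul]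
  · intro h
    exact absurd (Finset.mem_univ t) h

end SecRing

open SecRing

/-- a section of `O(j)` multiplies forms of large degree into forms -/
theorem section_absorb {k : Type} [Field k] {X : Scheme.{0}} [IsIntegral X]
    [IsNoetherian X] {n : ℕ} (E : Embed k X n) (j : ℕ) (f : X.functionField)
    (hf : E.IsSection j f) :
    ∃ N : ℕ, ∀ i, N ≤ i → ∀ P : MvPolynomial (Fin (n + 1)) k, P.IsHomogeneous i →
      ∃ Q : MvPolynomial (Fin (n + 1)) k, Q.IsHomogeneous (i + j) ∧
        MvPolynomial.eval₂ E.kf E.w Q = f * MvPolynomial.eval₂ E.kf E.w P := by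
  let _ : Algebra k X.functionField := E.kf.toAlgebra
  refine absorb_abs (k := k) E.w j f ?_
  intro t
  by_cases ht : E.w t = 0
  · refine ⟨1, fun e he => ⟨0, MvPolynomial.isHomogeneous_zero _ _ _, ?_⟩⟩
    rw [map_zero, ht, zero_pow (by omega), mul_zero]
  · have hl : E.l (Pi.single t 1) ≠ 0 := by
      rw [l_single]
      exact ht
    obtain ⟨haff, hgen⟩ := E.affine _ hl
    have hmem : f / E.w t ^ j ∈ Set.range
        (X.presheaf.germ (E.U (Pi.single t 1)) (genericPoint X) hgen).hom := by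
      apply mem_range_of_stalks _ haff
      intro x hx
      obtain ⟨a, ha⟩ := hf _ x hx
      refine ⟨a, ?_⟩
      rw [l_single] at ha
      rw [← ha, mul_div_cancel_right₀ _ (pow_ne_zero _ ht)]
    rw [E.sections] at hmem
    rw [l_single] at hmem
    obtain ⟨e₀, he₀⟩ := exists_form_of_mem_closure (k := k) E.w t ht _ hmem
    refine ⟨e₀, fun e he => ?_⟩
    obtain ⟨P, hP, hPe⟩ := he₀ e he
    refine ⟨P * MvPolynomial.X t ^ j, ?_, ?_⟩
    · have h1 : (MvPolynomial.X t ^ j : MvPolynomial (Fin (n + 1)) k).IsHomogeneous j := by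
        simpa using (MvPolynomial.isHomogeneous_X k t).pow j
      exact hP.mul h1
    · rw [map_mul, hPe, map_pow, MvPolynomial.aeval_X]
      have h2 : E.w t ^ j ≠ 0 := pow_ne_zero _ ht
      field_simp

theorem exists_w_ne_zero {k : Type} [Field k] {X : Scheme.{0}} [IsIntegral X]
    {n : ℕ} (E : Embed k X n) : ∃ t, E.w t ≠ 0 := by
  obtain ⟨t, ht⟩ := E.cover (genericPoint X)
  refine ⟨t, fun h0 => ?_⟩
  have h1 := E.empty (Pi.single t 1) (by rw [l_single, h0])
  rw [h1] at ht
  exact ht

/-- the same as `section_fg`, with the finiteness of integral closures as hypothesis -/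
theorem section_fg_of {k : Type} [Field k] {X : Scheme.{0}} [IsIntegral X]
    [IsNoetherian X] {n : ℕ} (E : Embed k X n)
    (hfi : ∀ (A K : Type) [CommRing A] [IsDomain A] [Algebra k A] [Algebra.FiniteType k A]
      [Field K] [Algebra A K] [IsFractionRing A K], Module.Finite A (integralClosure A K)) :
    ∃ (r : ℕ) (g : Fin r → X.functionField) (e : Fin r → ℕ),
      (∀ i, E.IsSection (e i) (g i)) ∧
      ∀ (j : ℕ) (f : X.functionField), E.IsSection j f →
        ∃ Q : Fin r → MvPolynomial (Fin (n + 1)) k,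
          (∀ i, (e i ≤ j ∧ (Q i).IsHomogeneous (j - e i)) ∨ Q i = 0) ∧
          ∑ i, g i * MvPolynomial.eval₂ E.kf E.w (Q i) = f := by
  let _ : Algebra k X.functionField := E.kf.toAlgebra
  exact fg_abs (k := k) E.w (exists_w_ne_zero E) E.IsSection
    (fun j f hf => section_absorb E j f hf) hfi

/-- The sections of all degrees are generated by finitely many over the forms. -/
theorem section_fg {k : Type} [Field k] [IsAlgClosed k] {X : Scheme.{0}} [IsIntegral X]
    [IsNoetherian X] {n : ℕ} (E : Embed k X n) :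
    ∃ (r : ℕ) (g : Fin r → X.functionField) (e : Fin r → ℕ),
      (∀ i, E.IsSection (e i) (g i)) ∧
      ∀ (j : ℕ) (f : X.functionField), E.IsSection j f →
        ∃ Q : Fin r → MvPolynomial (Fin (n + 1)) k,
          (∀ i, (e i ≤ j ∧ (Q i).IsHomogeneous (j - e i)) ∨ Q i = 0) ∧
          ∑ i, g i * MvPolynomial.eval₂ E.kf E.w (Q i) = f :=
  section_fg_of E fun _ _ => finite_integralClosure (k := k)

end Pool.Agent.K1
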