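import Pool.Agent.K1.NormalEmbedCore
import Pool.Agent.K1.SectionRing

/-!
Normal embeddings exist.
-/

set_option autoImplicit false

open AlgebraicGeometry CategoryTheory

namespace Pool.Agent.K1

theorem exists_normal {k : Type} [Field k] [IsAlgClosed k] {X : Scheme.{0}} [IsIntegral X]
    [IsNoetherian X] {n : ℕ} (E : Embed k X n) :
    ∃ (n' : ℕ) (E' : Embed k X n'), E'.Normal :=
  NormEmb.exists_normal_of_fg E (section_fg E)

end Pool.Agent.K1
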