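import Pool.Agent.K1.Embed
import Pool.Agent.K1.NormalEmbed
import Pool.Agent.K1.Avoid
import Pool.Agent.K1.AffineFacts
import Pool.Agent.K1.DegFunOf
import Pool.Agent.K1.Bertini
import Pool.Agent.K1.SchemeOf
import Pool.Agent.K1.AffMainOf

/-!
Layer 3, the final assembly: the theorem for projective surfaces, from the theorem for rings
with a degree function.
-/

set_option autoImplicit false

open AlgebraicGeometry CategoryTheory

attribute [local instance] MvPolynomial.gradedAlgebra

namespace Pool.Agent.K1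

/-- The theorem for projective surfaces over `k`, from the theorem for all regular affine
surfaces over `k` with a degree function. -/
theorem K1_projective_of (k : Type) [Field k] [IsAlgClosed k]
    (haff : ∀ (A : Type) [CommRing A] [IsDomain A] [Algebra k A] [Algebra.FiniteType k A]
      [IsRegularRing A], ringKrullDim A = 2 → ∀ D : DegFun k A, AffMain k A D) (n : ℕ)
    (X : Scheme.{0}) [IsIntegral X] [IsNoetherian X] (i : X ⟶ PN k n) [IsClosedImmersion i]
    (hreg : ∀ x : X, IsRegularLocalRing (X.presheaf.stalk x))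
    (hdim : ∀ x : X, Order.coheight x ≤ 2) (hdim2 : ∃ x : X, Order.coheight x = 2)
    (ξ : SChain X) (hξ : IsCycle1 ξ) :
    ∃ N : ℕ, 0 < N ∧ N • ξ ∈ tameChains X := by
  obtain ⟨E₀⟩ := exists_embed k n X i
  obtain ⟨n', E, hN⟩ := exists_normal E₀
  obtain ⟨Z, hZ, hav⟩ := exists_avoid hdim ξ
  obtain ⟨c, γ, hc, hZc, hγ, huniq, hone⟩ := bertini E hreg hdim hdim2 Z hZ
  obtain ⟨hsupp, hunit⟩ := hav (E.U c) hZc
  have hl : E.l c ≠ 0 := by
    intro h0
    rw [E.empty c h0] at hc
    exact hc
  obtain ⟨hV, -⟩ := E.affine c hl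
  obtain ⟨hdom, hregA, hle, hdA⟩ := affine_facts (E.U c) hV hc hreg hdim
  let _ : Algebra k Γ(X, E.U c) := (E.strOn (E.U c)).toAlgebra
  obtain ⟨hft, hd2, -⟩ := affine_dim E hdim hdim2 c hc
  obtain ⟨D, hD⟩ := exists_degFun E hN hreg hdim c γ hc hγ huniq hone
  exact scheme_of_affine E hreg hdim hdim2 c γ hc hγ huniq ξ hξ hsupp hunit D hD
    (haff Γ(X, E.U c) hd2 D)

end Pool.Agent.K1
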