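import Pool.Agent.K1.DBase
import Pool.Agent.K1.DCycle
import Pool.Agent.K1.DDescent
import Pool.Agent.K1.L3Final
import Pool.Agent.K1.AffMain

/-!
The theorem for projective surfaces over an arbitrary algebraic extension of a finite field.
-/

set_option autoImplicit false

open AlgebraicGeometry CategoryTheory

attribute [local instance] MvPolynomial.gradedAlgebra

namespace Pool.Agent.K1

/-- A scheme with a point of codimension two has an infinite function field. -/
theorem infinite_functionField {X : Scheme.{0}} [IsIntegral X] [IsLocallyNoetherian X]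
    (x : X) (hx : Order.coheight x = 2) : Infinite X.functionField := by
  rw [← not_finite_iff_infinite]
  intro hfin
  have hinj := IsFractionRing.injective (X.presheaf.stalk x) X.functionField
  have h1 : Finite (X.presheaf.stalk x) := Finite.of_injective _ hinj
  have h2 : IsField (X.presheaf.stalk x) := Finite.isField_of_domain _
  have h3 : ringKrullDim (X.presheaf.stalk x) = 0 := ringKrullDim_eq_zero_of_isField h2
  rw [ringKrullDim_stalk_eq_coheight, hx] at h3
  exact absurd h3 (by decide)

/-- The theorem for projective surfaces over an arbitrary algebraic extension of the prime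
field, from the theorem over the algebraic closure. -/
theorem K1_projective_field (p : ℕ) [Fact p.Prime] (F : Type) [Field F]
    [Algebra (ZMod p) F] [Algebra.IsAlgebraic (ZMod p) F] (n : ℕ)
    (X : Scheme.{0}) [IsIntegral X] [IsNoetherian X] (i : X ⟶ PN F n) [IsClosedImmersion i]
    (hreg : ∀ x : X, IsRegularLocalRing (X.presheaf.stalk x))
    (hdim : ∀ x : X, Order.coheight x ≤ 2) (hdim2 : ∃ x : X, Order.coheight x = 2)
    (ξ : SChain X) (hξ : IsCycle1 ξ) :
    ∃ N : ℕ, 0 < N ∧ N • ξ ∈ tameChains X := by
  let k := AlgebraicClosure F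
  have hperf : PerfectField F := Algebra.IsAlgebraic.perfectField (K := ZMod p)
  have hkalg : Algebra.IsAlgebraic (ZMod p) k := Algebra.IsAlgebraic.trans (ZMod p) F k
  have hp : CharP k p := charP_of_injective_algebraMap (algebraMap (ZMod p) k).injective p
  obtain ⟨Y, hY, π, i', hi', hYn, ⟨P⟩⟩ := exists_baseChange F k n X i hreg hdim
  have hregY : ∀ y : Y, IsRegularLocalRing (Y.presheaf.stalk y) := fun y =>
    isRegular_pi P y (hreg (π y))
  have hdimY : ∀ y : Y, Order.coheight y ≤ 2 := fun y => by
    rw [← coheight_pi P y]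
    exact hdim _
  obtain ⟨x₂, hx₂⟩ := hdim2
  obtain ⟨y₂, hy₂⟩ := P.surj x₂
  have hdim2Y : ∃ y : Y, Order.coheight y = 2 := ⟨y₂, by rw [← coheight_pi P y₂, hy₂, hx₂]⟩
  obtain ⟨η, hη⟩ := exists_pull P ξ
  have hηc := isCycle1_pull P hreg hregY ξ hξ η hη
  obtain ⟨N, hN, hmem⟩ := K1_projective_of k (fun A _ _ _ _ _ hd D => aff_main p hd D) n Y i'
    hregY hdimY hdim2Y η hηc
  have hinf : Infinite X.functionField := infinite_functionField x₂ hx₂
  exact descent P hreg hregY ξ η hη N hN hmem

end Pool.Agent.K1
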