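import Pool.Agent.K1.L3Defs

/-!
Dimension `d`: chains of functions on the curves of a scheme, their divisors, and the boundaries
of pairs of functions on its surfaces (tame symbols at all valuation rings, and norms).
-/

set_option autoImplicit false

open AlgebraicGeometry CategoryTheory

namespace Pool.Agent.K1

/-- The points of codimension `m` of the scheme `X`. -/
abbrev PointCo (X : Scheme.{0}) (m : ℕ) : Type := {x : X // Order.coheight x = m}

/-- Chains in codimension `m`: finite formal sums of pairs `(x, h)`, where `x` is a point of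
codimension `m` and `h` is a unit of its residue field. -/
abbrev KChain (X : Scheme.{0}) (m : ℕ) : Type :=
  Π₀ x : PointCo X m, Additive (X.residueField x.1)ˣ

/-- The chain `ξ` has divisor zero: at every point `y` of codimension `m + 1` the orders of its
components sum to zero. -/
def IsCycleK {X : Scheme.{0}} {m : ℕ} (ξ : KChain X m) : Prop :=
  ∀ y : X, Order.coheight y = ((m + 1 : ℕ) : ℕ∞) → ∃ n : PointCo X m →₀ ℤ,
    (∀ x : PointCo X m, ¬ x.1 ⤳ y → n x = 0) ∧
    (∀ (x : PointCo X m) (h : x.1 ⤳ y), IsOrdAt h (Additive.toMul (ξ x)) (n x)) ∧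
    n.sum (fun _ l => l) = 0

/-- The valuation ring `V` of the residue field of `η` dominates the local ring at `x` of the
closure of `η`. -/
def Dominates {X : Scheme.{0}} {η x : X} (h : η ⤳ x)
    (V : ValuationSubring (X.residueField η)) : Prop :=
  ∀ b : X.presheaf.stalk x, evalAt h b ∈ V ∧ (¬ IsUnit b → evalAt h b ∈ V.nonunits)

/-- `t` is the tame symbol `(-1)^(v(f) v(g)) f^v(g) / g^v(f)` of `f` and `g` at the valuation
ring `V`, with maximal ideal generated by `π`: here `f = π^a u` and `g = π^b w`. -/
def IsTameVal {K : Type} [Field K] (V : ValuationSubring K) (f g : Kˣ)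
    (t : (IsLocalRing.ResidueField V)ˣ) : Prop :=
  ∃ (π : K) (a b : ℤ) (u w : Vˣ), (∀ z : K, z ∈ V.nonunits ↔ ∃ c ∈ V, z = π * c) ∧
    (f : K) = π ^ a * ((u : V) : K) ∧ (g : K) = π ^ b * ((w : V) : K) ∧
    t = Units.map (IsLocalRing.residue V).toMonoidHom ((-1) ^ (a * b) * u ^ b * w ^ (-a))

/-- `c` is the norm, from the residue field of `V` to the residue field of `x`, of the tame
symbol of `f` and `g` at `V`. -/
def IsNormTame {X : Scheme.{0}} {η x : X} (h : η ⤳ x)
    (V : ValuationSubring (X.residueField η)) (f g : (X.residueField η)ˣ)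
    (c : (X.residueField x)ˣ) : Prop :=
  ∃ (φ : X.residueField x →+* IsLocalRing.ResidueField V) (t : (IsLocalRing.ResidueField V)ˣ),
    (∀ (b : X.presheaf.stalk x) (b' : V), (b' : X.residueField η) = evalAt h b →
      φ ((X.residue x).hom b) = IsLocalRing.residue V b') ∧
    φ.Finite ∧ IsTameVal V f g t ∧
    (c : X.residueField x) = (letI := φ.toAlgebra; Algebra.norm (X.residueField x)
      (t : IsLocalRing.ResidueField V))

/-- `t` is the component at `x` of the boundary of `{f, g}`, where `f` and `g` are nonzero
rational functions on the closure of `η`: the product over all valuation rings that dominate the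
local ring at `x`. -/
def IsBdAt {X : Scheme.{0}} (η x : X) (f g : (X.residueField η)ˣ) (t : (X.residueField x)ˣ) :
    Prop :=
  (¬ η ⤳ x → t = 1) ∧
  ∀ h : η ⤳ x, ∃ (s : Finset (ValuationSubring (X.residueField η)))
    (c : ValuationSubring (X.residueField η) → (X.residueField x)ˣ),
    (∀ V, V ∈ s ↔ Dominates h V) ∧ (∀ V ∈ s, IsNormTame h V f g (c V)) ∧ t = ∏ V ∈ s, c V

/-- The group generated by the boundaries of the pairs `{f, g}`, where `f` and `g` are nonzero
rational functions on the closure of a point of codimension `m`. -/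
noncomputable def bdChains (X : Scheme.{0}) (m : ℕ) : AddSubgroup (KChain X (m + 1)) :=
  AddSubgroup.closure {ξ | ∃ (η : PointCo X m) (f g : (X.residueField η.1)ˣ),
    ∀ x : PointCo X (m + 1), IsBdAt η.1 x.1 f g (Additive.toMul (ξ x))}

end Pool.Agent.K1
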