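import Pool.Agent.K1.L2Defs

/-!
Layer 2, descent: the torsion statement over finite fields implies the torsion statement
over algebraic extensions of finite prime fields.
-/

open Polynomial Filter
open scoped Pointwise

namespace Pool.Agent.K1

section Descent

variable (p : ℕ) [Fact p.Prime] {k C : Type} [Field k] [Algebra (ZMod p) k] [CommRing C]
  [Algebra k C]

/-- The subfield generated by a finite set. -/
noncomputable abbrev FF (A : Finset k) : IntermediateField (ZMod p) k :=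
  IntermediateField.adjoin (ZMod p) (A : Set k)

theorem ev_mem (c : k) : ∀ᶠ A : Finset k in atTop, c ∈ FF p A := by
  filter_upwards [eventually_ge_atTop ({c} : Finset k)] with A hA
  exact IntermediateField.subset_adjoin _ _ (Finset.mem_coe.2 (hA (Finset.mem_singleton_self c)))

theorem ev_span (T : Set C) (z : C) (hz : z ∈ Submodule.span k T) :
    ∀ᶠ A : Finset k in atTop, z ∈ Submodule.span (FF p A) T := by
  induction hz using Submodule.span_induction with
  | mem x hx => exact Eventually.of_forall fun A => Submodule.subset_span hx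
  | zero => exact Eventually.of_forall fun A => Submodule.zero_mem _
  | add x y _ _ hx hy =>
    filter_upwards [hx, hy] with A h1 h2
    exact Submodule.add_mem _ h1 h2
  | smul a x _ hx =>
    filter_upwards [hx, ev_mem p a] with A h1 h2
    exact Submodule.smul_mem _ (⟨a, h2⟩ : FF p A) h1

theorem ev_adjoin (T : Set C) (z : C) (hz : z ∈ Algebra.adjoin k T) :
    ∀ᶠ A : Finset k in atTop, z ∈ Algebra.adjoin (FF p A) T := by
  induction hz using Algebra.adjoin_induction with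
  | mem x hx => exact Eventually.of_forall fun A => Algebra.subset_adjoin hx
  | algebraMap r =>
    filter_upwards [ev_mem p r] with A h1
    exact Subalgebra.algebraMap_mem (Algebra.adjoin (FF p A) T) (⟨r, h1⟩ : FF p A)
  | add x y _ _ hx hy =>
    filter_upwards [hx, hy] with A h1 h2
    exact Subalgebra.add_mem _ h1 h2
  | mul x y _ _ hx hy =>
    filter_upwards [hx, hy] with A h1 h2
    exact Subalgebra.mul_mem _ h1 h2

/-- The ideal of the point in the subring. -/
noncomputable abbrev kerIn (K : IntermediateField (ZMod p) k) (x₀ : C →ₐ[k] k)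
    (B : Subalgebra K C) : Ideal B :=
  RingHom.ker ((x₀ : C →+* k).comp (B.val : B →+* C))

theorem mem_kerIn {K : IntermediateField (ZMod p) k} {x₀ : C →ₐ[k] k}
    {B : Subalgebra K C} {c : B} : c ∈ kerIn p K x₀ B ↔ x₀ (c : C) = 0 := by
  rw [kerIn, RingHom.mem_ker]
  rfl

theorem ev_sq (S : Set C) (hS : Algebra.adjoin k S = ⊤) (x₀ : C →ₐ[k] k) (z : C)
    (hz : z ∈ (RingHom.ker x₀) ^ 2) :
    ∀ᶠ A : Finset k in atTop, ∃ c : Algebra.adjoin (FF p A) S, (c : C) = z ∧
      c ∈ (kerIn p (FF p A) x₀ (Algebra.adjoin (FF p A) S)) ^ 2 := by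
  have hmem : ∀ x : C, ∀ᶠ A : Finset k in atTop, x ∈ Algebra.adjoin (FF p A) S :=
    fun x => ev_adjoin p S x (by rw [hS]; exact Algebra.mem_top)
  rw [pow_two] at hz
  induction hz using Submodule.mul_induction_on' with
  | mem_mul_mem m hm n hn =>
    filter_upwards [hmem m, hmem n] with A h1 h2
    refine ⟨⟨m, h1⟩ * ⟨n, h2⟩, rfl, ?_⟩
    rw [pow_two]
    exact Ideal.mul_mem_mul ((mem_kerIn p).2 (RingHom.mem_ker.1 hm))
      ((mem_kerIn p).2 (RingHom.mem_ker.1 hn))
  | add x _ y _ hx hy =>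
    filter_upwards [hx, hy] with A h1 h2
    obtain ⟨c, hc, hc'⟩ := h1
    obtain ⟨d, hd, hd'⟩ := h2
    exact ⟨c + d, by rw [← hc, ← hd]; rfl, Ideal.add_mem _ hc' hd'⟩

theorem ev_quad (S : Set C) (hS : Algebra.adjoin k S = ⊤) (x₀ : C →ₐ[k] k) (τ z : C)
    (hz : z ∈ Ideal.span {τ} ⊔ (RingHom.ker x₀) ^ 2) :
    ∀ᶠ A : Finset k in atTop, ∀ t : Algebra.adjoin (FF p A) S, (t : C) = τ →
      ∃ c : Algebra.adjoin (FF p A) S, (c : C) = z ∧
      c ∈ Ideal.span {t} ⊔ (kerIn p (FF p A) x₀ (Algebra.adjoin (FF p A) S)) ^ 2 := by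
  obtain ⟨a, ha, b, hb, hab⟩ := Submodule.mem_sup.1 hz
  obtain ⟨y, hy⟩ := Ideal.mem_span_singleton'.1 ha
  filter_upwards [ev_sq p S hS x₀ b hb, ev_adjoin p S y (by rw [hS]; exact Algebra.mem_top)]
    with A h1 h2 t ht
  obtain ⟨c, hc, hc'⟩ := h1
  refine ⟨⟨y, h2⟩ * t + c, ?_, ?_⟩
  · rw [← hab, ← hy, ← hc, ← ht]
    rfl
  · exact Submodule.add_mem_sup (Ideal.mem_span_singleton'.2 ⟨_, rfl⟩) hc'

variable {p}

theorem x0_mem (K : IntermediateField (ZMod p) k) (S : Set C) (x₀ : C →ₐ[k] k)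
    (h : ∀ s ∈ S, x₀ s ∈ K) (c : C) (hc : c ∈ Algebra.adjoin K S) : x₀ c ∈ K := by
  induction hc using Algebra.adjoin_induction with
  | mem x hx => exact h x hx
  | algebraMap r =>
    have : algebraMap K C r = algebraMap k C (r : k) := IsScalarTower.algebraMap_apply K k C r
    rw [this, AlgHom.commutes]
    exact r.2
  | add x y _ _ hx hy => rw [map_add]; exact K.add_mem hx hy
  | mul x y _ _ hx hy => rw [map_mul]; exact K.mul_mem hx hy

/-- The point of the small ring. -/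
noncomputable def resX (K : IntermediateField (ZMod p) k) (S : Set C) (x₀ : C →ₐ[k] k)
    (h : ∀ s ∈ S, x₀ s ∈ K) : Algebra.adjoin K S →ₐ[K] K where
  toFun c := ⟨x₀ c, x0_mem K S x₀ h c c.2⟩
  map_one' := Subtype.ext (map_one x₀)
  map_mul' a b := Subtype.ext (map_mul x₀ (a : C) (b : C))
  map_zero' := Subtype.ext (map_zero x₀)
  map_add' a b := Subtype.ext (map_add x₀ (a : C) (b : C))
  commutes' r := Subtype.ext (by
    have h1 : ((algebraMap K (Algebra.adjoin K S) r : Algebra.adjoin K S) : C) =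
      algebraMap k C (r : k) := IsScalarTower.algebraMap_apply K k C r
    have h2 : x₀ ((algebraMap K (Algebra.adjoin K S) r : Algebra.adjoin K S) : C) = (r : k) := by
      rw [h1, AlgHom.commutes]
      rfl
    exact h2)

theorem resX_val (K : IntermediateField (ZMod p) k) (S : Set C) (x₀ : C →ₐ[k] k)
    (h : ∀ s ∈ S, x₀ s ∈ K) (c : Algebra.adjoin K S) : ((resX K S x₀ h c : K) : k) = x₀ c := rfl

theorem ker_resX (K : IntermediateField (ZMod p) k) (S : Set C) (x₀ : C →ₐ[k] k)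
    (h : ∀ s ∈ S, x₀ s ∈ K) : RingHom.ker (resX K S x₀ h) =
      kerIn p K x₀ (Algebra.adjoin K S) := by
  ext c
  rw [mem_kerIn, RingHom.mem_ker]
  constructor
  · intro hc
    have := congrArg (fun x : K => (x : k)) hc
    exact this
  · intro hc
    exact Subtype.ext hc

/-- The ideal of a point is generated by the obvious elements. -/
theorem sub_mem_of_gen {K₁ B : Type} [Field K₁] [CommRing B] [Algebra K₁ B] (S : Set B)
    (x : B →ₐ[K₁] K₁) (J : Ideal B)
    (hJ : ∀ s ∈ S, s - algebraMap K₁ B (x s) ∈ J) (c : B) (hc : c ∈ Algebra.adjoin K₁ S) :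
    c - algebraMap K₁ B (x c) ∈ J := by
  induction hc using Algebra.adjoin_induction with
  | mem y hy => exact hJ y hy
  | algebraMap r => simp
  | add y z _ _ hy hz =>
    have : y + z - algebraMap K₁ B (x (y + z)) =
        (y - algebraMap K₁ B (x y)) + (z - algebraMap K₁ B (x z)) := by
      rw [map_add, map_add]; ring
    rw [this]
    exact J.add_mem hy hz
  | mul y z _ _ hy hz =>
    have : y * z - algebraMap K₁ B (x (y * z)) =
        z * (y - algebraMap K₁ B (x y)) + algebraMap K₁ B (x y) * (z - algebraMap K₁ B (x z)) := by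
      rw [map_mul, map_mul]; ring
    rw [this]
    exact J.add_mem (J.mul_mem_left _ hy) (J.mul_mem_left _ hz)

theorem ker_le_of_gen {K₁ B : Type} [Field K₁] [CommRing B] [Algebra K₁ B] (S : Set B)
    (hS : Algebra.adjoin K₁ S = ⊤) (x : B →ₐ[K₁] K₁) (J : Ideal B)
    (hJ : ∀ s ∈ S, s - algebraMap K₁ B (x s) ∈ J) : RingHom.ker x ≤ J := by
  intro c hc
  have := sub_mem_of_gen S x J hJ c (by rw [hS]; exact Algebra.mem_top)
  rw [RingHom.mem_ker.1 hc, map_zero, sub_zero] at this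
  exact this

end Descent

/-- The step from the small ring to the big ring. -/
theorem descent_core (p : ℕ) [Fact p.Prime] {k C : Type} [Field k]
    [Algebra (ZMod p) k] [CommRing C] [IsDomain C]
    [Algebra k C] (hinf : ¬ Module.Finite k C) (S : Finset C)
    (h1 : (1 : C) ∈ S) (hgen : Algebra.adjoin k (S : Set C) = ⊤) (v : C) (hv : v ∈ S)
    (j₀ : ℕ) (x₀ : C →ₐ[k] k) (τ : C) (hτ : x₀ τ = 0) (hv0 : x₀ v = 0)
    (hfin : ∀ (K C₀ : Type) [Field K] [Finite K] [CommRing C₀] [IsDomain C₀]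
      [Algebra K C₀] (W₀ : Submodule K C₀) (v₀ : C₀) (j₀ : ℕ) (x₁ : C₀ →ₐ[K] K) (τ₀ : C₀),
      ¬ Module.Finite K C₀ → W₀.FG → (1 : C₀) ∈ W₀ → Algebra.adjoin K (W₀ : Set C₀) = ⊤ →
      v₀ ∈ W₀ →
      (∀ j, j₀ ≤ j → W₀ ^ (j + 1) ≤ W₀ ^ j ⊔ Submodule.span K {v₀} * W₀ ^ j) →
      x₁ τ₀ = 0 → RingHom.ker x₁ ≤ Ideal.span {τ₀} ⊔ (RingHom.ker x₁) ^ 2 → x₁ v₀ = 0 →
      Tors W₀ v₀ x₁)
    (K : IntermediateField (ZMod p) k) [Finite K]
    (hK1 : ∀ s ∈ S, x₀ s ∈ K) (hK2 : τ ∈ Algebra.adjoin K (S : Set C))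
    (hK3 : ∀ z ∈ (S : Set C) ^ (j₀ + 1),
      z ∈ Submodule.span K ((S : Set C) ^ j₀ ∪ {v} * (S : Set C) ^ j₀))
    (hK4 : ∀ s ∈ S, ∀ t : Algebra.adjoin K (S : Set C), (t : C) = τ →
      ∃ c : Algebra.adjoin K (S : Set C), (c : C) = s - algebraMap k C (x₀ s) ∧
      c ∈ Ideal.span {t} ⊔ (kerIn p K x₀ (Algebra.adjoin K (S : Set C))) ^ 2) :
    Tors (Submodule.span k (S : Set C)) v x₀ := by
  classical
  set C₀ := Algebra.adjoin K (S : Set C) with hC₀
  set f : C₀ →ₐ[K] C := C₀.val with hf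
  have hfinj : Function.Injective f := Subtype.val_injective
  set WK : Submodule K C := Submodule.span K (S : Set C) with hWK
  set W₀ : Submodule K C₀ := WK.comap f.toLinearMap with hW₀
  have hWKle : WK ≤ Subalgebra.toSubmodule C₀ := by
    rw [hWK, Submodule.span_le]
    exact Algebra.subset_adjoin
  have hmap : W₀.map f.toLinearMap = WK := by
    rw [hW₀, Submodule.map_comap_eq, inf_eq_right]
    intro x hx
    exact ⟨⟨x, hWKle hx⟩, rfl⟩
  have hmem : ∀ s ∈ S, s ∈ C₀ := fun s hs => Algebra.subset_adjoin hs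
  set x₁ := resX K (S : Set C) x₀ hK1 with hx₁
  have hmappow : ∀ j, (W₀ ^ j).map f.toLinearMap = WK ^ j := fun j => by
    rw [Submodule.map_pow, hmap]
  have hle : ∀ j, ∀ z ∈ WK ^ j, z ∈ (Submodule.span k (S : Set C)) ^ j := by
    intro j z hz
    rw [hWK, Submodule.span_pow] at hz
    rw [Submodule.span_pow]
    exact Submodule.span_subset_span K k _ hz
  have hle' : ∀ j, ∀ z ∈ W₀ ^ j, (z : C) ∈ (Submodule.span k (S : Set C)) ^ j := by
    intro j z hz
    apply hle
    rw [← hmappow]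
    exact ⟨z, hz, rfl⟩
  -- the conditions
  have c1 : ¬ Module.Finite K C₀ := by
    intro hfinite
    apply hinf
    obtain ⟨B, hB⟩ := hfinite.fg_top
    refine ⟨⟨B.image f, ?_⟩⟩
    rw [eq_top_iff]
    intro x _
    have hx : x ∈ Algebra.adjoin k (S : Set C) := by rw [hgen]; exact Algebra.mem_top
    have hx2 : x ∈ Submodule.span k ((Submonoid.closure (S : Set C) : Submonoid C) : Set C) := by
      rw [← Algebra.adjoin_eq_span]
      exact hx
    refine (Submodule.span_le.2 ?_) hx2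
    intro y hy
    have hyC : y ∈ C₀ := by
      have : Submonoid.closure (S : Set C) ≤ C₀.toSubmonoid := by
        rw [Submonoid.closure_le]
        exact Algebra.subset_adjoin
      exact this hy
    have h3 : (⟨y, hyC⟩ : C₀) ∈ Submodule.span K (B : Set C₀) := by rw [hB]; trivial
    have h4 : f.toLinearMap ⟨y, hyC⟩ ∈ (Submodule.span K (B : Set C₀)).map f.toLinearMap :=
      Submodule.mem_map_of_mem h3
    rw [Submodule.map_span] at h4
    have h5 := Submodule.span_subset_span K k _ h4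
    rw [Finset.coe_image]
    exact h5
  have c2 : W₀.FG := by
    apply Submodule.fg_of_fg_map_injective f.toLinearMap hfinj
    rw [hmap]
    exact ⟨S, rfl⟩
  have c3 : (1 : C₀) ∈ W₀ := by
    rw [hW₀, Submodule.mem_comap]
    exact Submodule.subset_span h1
  have c4 : Algebra.adjoin K (W₀ : Set C₀) = ⊤ := by
    rw [eq_top_iff, ← Algebra.adjoin_adjoin_coe_preimage (R := K) (s := (S : Set C))]
    apply Algebra.adjoin_mono
    intro x hx
    exact Submodule.subset_span hx
  set v₀ : C₀ := ⟨v, hmem v hv⟩ with hv₀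
  have c5 : v₀ ∈ W₀ := Submodule.subset_span hv
  have c6' : ∀ j, j₀ ≤ j → WK ^ (j + 1) ≤ WK ^ j ⊔ Submodule.span K {v} * WK ^ j := by
    intro j hj
    induction j, hj using Nat.le_induction with
    | base =>
      rw [hWK, Submodule.span_pow, Submodule.span_pow, Submodule.span_mul_span,
        ← Submodule.span_union, Submodule.span_le]
      exact hK3
    | succ j hj ih =>
      calc WK ^ (j + 1 + 1) = WK ^ (j + 1) * WK := by rw [pow_succ]
        _ ≤ (WK ^ j ⊔ Submodule.span K {v} * WK ^ j) * WK := Submodule.mul_le.2 fun a ha b hb => Submodule.mul_mem_mul (ih ha) hb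
        _ = WK ^ (j + 1) ⊔ Submodule.span K {v} * WK ^ (j + 1) := by
          rw [Submodule.sup_mul, mul_assoc, ← pow_succ]
  have c6 : ∀ j, j₀ ≤ j → W₀ ^ (j + 1) ≤ W₀ ^ j ⊔ Submodule.span K {v₀} * W₀ ^ j := by
    intro j hj
    rw [← Submodule.map_le_map_iff_of_injective (f := f.toLinearMap) hfinj, Submodule.map_sup,
      Submodule.map_mul, hmappow, hmappow, Submodule.map_span, Set.image_singleton]
    exact c6' j hj
  set τ₀ : C₀ := ⟨τ, hK2⟩ with hτ₀
  have c7 : x₁ τ₀ = 0 := Subtype.ext hτ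
  have c8 : RingHom.ker x₁ ≤ Ideal.span {τ₀} ⊔ (RingHom.ker x₁) ^ 2 := by
    apply ker_le_of_gen (Subtype.val ⁻¹' (S : Set C)) Algebra.adjoin_adjoin_coe_preimage
    intro s hs
    obtain ⟨c, hc, hc'⟩ := hK4 (s : C) hs τ₀ rfl
    have : s - algebraMap K C₀ (x₁ s) = c := by
      apply Subtype.ext
      rw [hc]
      rfl
    rw [this, hx₁, ker_resX]
    exact hc'
  have c9 : x₁ v₀ = 0 := Subtype.ext hv0
  obtain ⟨a, M, e, b, y, ha, hM, hb, hsat, hy, hby⟩ :=
    hfin K C₀ W₀ v₀ j₀ x₁ τ₀ c1 c2 c3 c4 c5 c6 c7 c8 c9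
  refine ⟨a, M, e, (b : C), (y : C), ha, hM, ?_, ?_, hle' e y hy, ?_⟩
  · have hk : (RingHom.ker x₁).map (f : C₀ →+* C) = RingHom.ker x₀ := by
      apply le_antisymm
      · rw [Ideal.map_le_iff_le_comap]
        intro z hz
        rw [hx₁, ker_resX, mem_kerIn] at hz
        exact hz
      · apply ker_le_of_gen (S : Set C) hgen
        intro s hs
        have h6 : (⟨s, hmem s hs⟩ - algebraMap K C₀ (x₁ ⟨s, hmem s hs⟩) : C₀) ∈
            RingHom.ker x₁ := by
          rw [RingHom.mem_ker, map_sub, AlgHom.commutes]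
          exact sub_self _
        exact Ideal.mem_map_of_mem (f : C₀ →+* C) h6
    have h7 := congrArg (Ideal.map (f : C₀ →+* C)) hb
    rw [Ideal.map_span, Set.image_singleton, Ideal.map_pow, hk] at h7
    exact h7
  · obtain ⟨N, hN⟩ := hsat
    exact ⟨N, hle' _ _ hN⟩
  · have := congrArg (fun x : C₀ => (x : C)) hby
    exact this

/-- Descent to finite fields. -/
theorem tors_descent (p : ℕ) [Fact p.Prime] {k C : Type} [Field k] [CharP k p]
    [Algebra (ZMod p) k] [Algebra.IsAlgebraic (ZMod p) k] [CommRing C] [IsDomain C]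
    [Algebra k C] (hinf : ¬ Module.Finite k C) (W : Submodule k C) (hW : W.FG)
    (h1 : (1 : C) ∈ W) (hgen : Algebra.adjoin k (W : Set C) = ⊤) (v : C) (hv : v ∈ W)
    (j₀ : ℕ) (hN : ∀ j, j₀ ≤ j → W ^ (j + 1) ≤ W ^ j ⊔ Submodule.span k {v} * W ^ j)
    (x₀ : C →ₐ[k] k) (τ : C) (hτ : x₀ τ = 0)
    (hx : RingHom.ker x₀ ≤ Ideal.span {τ} ⊔ (RingHom.ker x₀) ^ 2) (hv0 : x₀ v = 0)
    (hfin : ∀ (K C₀ : Type) [Field K] [Finite K] [CommRing C₀] [IsDomain C₀]
      [Algebra K C₀] (W₀ : Submodule K C₀) (v₀ : C₀) (j₀ : ℕ) (x₁ : C₀ →ₐ[K] K) (τ₀ : C₀),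
      ¬ Module.Finite K C₀ → W₀.FG → (1 : C₀) ∈ W₀ → Algebra.adjoin K (W₀ : Set C₀) = ⊤ →
      v₀ ∈ W₀ →
      (∀ j, j₀ ≤ j → W₀ ^ (j + 1) ≤ W₀ ^ j ⊔ Submodule.span K {v₀} * W₀ ^ j) →
      x₁ τ₀ = 0 → RingHom.ker x₁ ≤ Ideal.span {τ₀} ⊔ (RingHom.ker x₁) ^ 2 → x₁ v₀ = 0 →
      Tors W₀ v₀ x₁) :
    Tors W v x₀ := by
  classical
  obtain ⟨S₀, hS₀⟩ := hW
  set S : Finset C := insert 1 (insert v S₀) with hS
  have hspan : Submodule.span k (S : Set C) = W := by
    apply le_antisymm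
    · rw [Submodule.span_le, hS]
      intro x hx'
      rw [Finset.coe_insert, Finset.coe_insert] at hx'
      rcases hx' with rfl | rfl | hx'
      · exact h1
      · exact hv
      · rw [← hS₀]; exact Submodule.subset_span hx'
    · rw [← hS₀]
      apply Submodule.span_mono
      rw [hS, Finset.coe_insert, Finset.coe_insert]
      exact fun x hx' => Or.inr (Or.inr hx')
  have h1S : (1 : C) ∈ S := Finset.mem_insert_self _ _
  have hvS : v ∈ S := Finset.mem_insert_of_mem (Finset.mem_insert_self _ _)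
  have hgenS : Algebra.adjoin k (S : Set C) = ⊤ := by
    rw [eq_top_iff, ← hgen]
    apply Algebra.adjoin_le
    rw [← hspan]
    intro x hx'
    exact Algebra.span_le_adjoin k (S : Set C) hx'
  have e1 : ∀ᶠ A : Finset k in atTop, ∀ s ∈ (S : Set C), x₀ s ∈ FF p A :=
    (eventually_all_finite S.finite_toSet).2 fun s _ => ev_mem p (x₀ s)
  have e2 : ∀ᶠ A : Finset k in atTop, τ ∈ Algebra.adjoin (FF p A) (S : Set C) :=
    ev_adjoin p _ _ (by rw [hgenS]; exact Algebra.mem_top)
  have hpowfin : ((S : Set C) ^ (j₀ + 1)).Finite := by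
    rw [← Finset.coe_pow]
    exact Finset.finite_toSet _
  have e3 : ∀ᶠ A : Finset k in atTop, ∀ z ∈ (S : Set C) ^ (j₀ + 1),
      z ∈ Submodule.span (FF p A) ((S : Set C) ^ j₀ ∪ {v} * (S : Set C) ^ j₀) := by
    refine (eventually_all_finite hpowfin).2 fun z hz => ev_span p _ _ ?_
    rw [Submodule.span_union, ← Submodule.span_mul_span, ← Submodule.span_pow, hspan]
    apply hN j₀ le_rfl
    rw [← hspan, Submodule.span_pow]
    exact Submodule.subset_span hz
  have e4 : ∀ᶠ A : Finset k in atTop, ∀ s ∈ (S : Set C),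
      ∀ t : Algebra.adjoin (FF p A) (S : Set C), (t : C) = τ →
      ∃ c : Algebra.adjoin (FF p A) (S : Set C), (c : C) = s - algebraMap k C (x₀ s) ∧
      c ∈ Ideal.span {t} ⊔ (kerIn p (FF p A) x₀ (Algebra.adjoin (FF p A) (S : Set C))) ^ 2 := by
    refine (eventually_all_finite S.finite_toSet).2 fun s _ => ev_quad p _ hgenS x₀ τ _ ?_
    apply hx
    rw [RingHom.mem_ker, map_sub, AlgHom.commutes]
    exact sub_self _
  obtain ⟨A, hA1, hA2, hA3, hA4⟩ := (e1.and (e2.and (e3.and e4))).exists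
  have : FiniteDimensional (ZMod p) (FF p A) :=
    IntermediateField.finiteDimensional_adjoin fun x _ => Algebra.IsIntegral.isIntegral x
  have : Finite (FF p A) := Module.finite_of_finite (ZMod p)
  rw [← hspan]
  exact descent_core p hinf S h1S hgenS v hvS j₀ x₀ τ hτ hv0 hfin (FF p A) hA1 hA2 hA3 hA4

end Pool.Agent.K1
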