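import Pool.Agent.K1.L2Defs

/-!
L2-07: the Hilbert function of the curve.
-/

set_option autoImplicit false

open Polynomial

namespace Pool.Agent.K1

namespace L2Hilb

variable {K C : Type} [Field K] [CommRing C] [Algebra K C]

theorem pow_le_succ (W : Submodule K C) (h1 : (1 : C) ∈ W) (j : ℕ) : W ^ j ≤ W ^ (j + 1) := by
  intro x hx
  rw [pow_succ, ← mul_one x]
  exact Submodule.mul_mem_mul hx h1

theorem pow_mono (W : Submodule K C) (h1 : (1 : C) ∈ W) {i j : ℕ} (h : i ≤ j) :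
    W ^ i ≤ W ^ j :=
  monotone_nat_of_le_succ (pow_le_succ W h1) h

theorem exists_mem_pow (W : Submodule K C) (h1 : (1 : C) ∈ W)
    (hgen : Algebra.adjoin K (W : Set C) = ⊤) (c : C) : ∃ j, c ∈ W ^ j := by
  have hc : c ∈ Algebra.adjoin K (W : Set C) := by rw [hgen]; trivial
  induction hc using Algebra.adjoin_induction with
  | mem x hx => exact ⟨1, by rw [pow_one]; exact hx⟩
  | algebraMap r =>
    refine ⟨1, ?_⟩
    rw [pow_one, Algebra.algebraMap_eq_smul_one]
    exact W.smul_mem r h1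
  | add x y _ _ hx hy =>
    obtain ⟨i, hi⟩ := hx
    obtain ⟨j, hj⟩ := hy
    exact ⟨max i j, add_mem (pow_mono W h1 (le_max_left i j) hi)
      (pow_mono W h1 (le_max_right i j) hj)⟩
  | mul x y _ _ hx hy =>
    obtain ⟨i, hi⟩ := hx
    obtain ⟨j, hj⟩ := hy
    exact ⟨i + j, by rw [pow_add]; exact Submodule.mul_mem_mul hi hj⟩

theorem finite_pow (W : Submodule K C) (hW : W.FG) (j : ℕ) : Module.Finite K ↥(W ^ j) :=
  Module.Finite.iff_fg.2 (hW.pow j)

theorem not_le (hinf : ¬ Module.Finite K C) (W : Submodule K C) (hW : W.FG)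
    (h1 : (1 : C) ∈ W) (hgen : Algebra.adjoin K (W : Set C) = ⊤) (j : ℕ) :
    ¬ W ^ (j + 1) ≤ W ^ j := by
  intro h
  have h2 : ∀ i, W ^ (j + i) ≤ W ^ j := by
    intro i
    induction i with
    | zero => exact le_refl _
    | succ i ih =>
      calc W ^ (j + (i + 1)) = W ^ (j + i) * W := by rw [← add_assoc, pow_succ]
        _ ≤ W ^ j * W := mul_le_mul' ih le_rfl
        _ = W ^ (j + 1) := (pow_succ _ _).symm
        _ ≤ W ^ j := h
  have h3 : W ^ j = ⊤ := by
    rw [eq_top_iff]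
    intro c _
    obtain ⟨i, hi⟩ := exists_mem_pow W h1 hgen c
    exact h2 i (pow_mono W h1 (Nat.le_add_left i j) hi)
  apply hinf
  have h4 := hW.pow j
  rw [h3] at h4
  exact ⟨h4⟩

theorem step [IsDomain C] (W : Submodule K C) (hW : W.FG) (h1 : (1 : C) ∈ W) (v : C)
    (hv : v ∈ W) (hv0 : v ≠ 0) (j : ℕ)
    (hN : W ^ (j + 2) ≤ W ^ (j + 1) ⊔ Submodule.span K {v} * W ^ (j + 1)) :
    Module.finrank K ↥(W ^ (j + 2)) + Module.finrank K ↥(W ^ j) ≤
      Module.finrank K ↥(W ^ (j + 1)) + Module.finrank K ↥(W ^ (j + 1)) := by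
  have hf := finite_pow W hW
  have hmul : ∀ i, Submodule.span K {v} * W ^ i = (W ^ i).map (LinearMap.mulLeft K v) := by
    intro i
    ext x
    rw [Submodule.mem_span_singleton_mul, Submodule.mem_map]
    rfl
  have hinj : Function.Injective (LinearMap.mulLeft K v) := by
    intro x y hxy
    exact mul_left_cancel₀ hv0 hxy
  have hdim : ∀ i, Module.finrank K ↥((W ^ i).map (LinearMap.mulLeft K v)) =
      Module.finrank K ↥(W ^ i) := fun i =>
    (LinearEquiv.finrank_eq (Submodule.equivMapOfInjective _ hinj _)).symm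
  have hfm : ∀ i, Module.Finite K ↥((W ^ i).map (LinearMap.mulLeft K v)) := fun i =>
    Module.Finite.equiv (Submodule.equivMapOfInjective _ hinj _)
  rw [hmul] at hN
  have hfj := hf (j + 1)
  have hfj2 := hf (j + 2)
  have hfmj := hfm (j + 1)
  have hle : (W ^ j).map (LinearMap.mulLeft K v) ≤
      W ^ (j + 1) ⊓ (W ^ (j + 1)).map (LinearMap.mulLeft K v) := by
    refine le_inf ?_ (Submodule.map_mono (pow_le_succ W h1 j))
    rintro _ ⟨x, hx, rfl⟩
    rw [LinearMap.mulLeft_apply, mul_comm, pow_succ]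
    exact Submodule.mul_mem_mul hx hv
  have h2 := Submodule.finrank_sup_add_finrank_inf_eq (W ^ (j + 1))
    ((W ^ (j + 1)).map (LinearMap.mulLeft K v))
  have hfsup : Module.Finite K
      ↥(W ^ (j + 1) ⊔ (W ^ (j + 1)).map (LinearMap.mulLeft K v)) := inferInstance
  have h3 := Submodule.finrank_mono hN
  have hfinf : Module.Finite K
      ↥(W ^ (j + 1) ⊓ (W ^ (j + 1)).map (LinearMap.mulLeft K v)) := inferInstance
  have h4 := Submodule.finrank_mono hle
  rw [hdim] at h2 h4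
  omega

end L2Hilb

open L2Hilb

/-- The Hilbert function. -/
theorem exists_hilb {K C : Type} [Field K] [CommRing C] [IsDomain C] [Algebra K C]
    (hinf : ¬ Module.Finite K C) (W : Submodule K C) (hW : W.FG) (h1 : (1 : C) ∈ W)
    (hgen : Algebra.adjoin K (W : Set C) = ⊤) (v : C) (hv : v ∈ W) (j₀ : ℕ)
    (hN : ∀ j, j₀ ≤ j → W ^ (j + 1) ≤ W ^ j ⊔ Submodule.span K {v} * W ^ j) :
    ∃ δ j₁ : ℕ, Hilb W v δ j₁ := by
  classical
  have hv0 : v ≠ 0 := by
    rintro rfl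
    apply not_le hinf W hW h1 hgen j₀
    have h2 := hN j₀ le_rfl
    rwa [Submodule.span_zero_singleton, Submodule.bot_mul, sup_bot_eq] at h2
  let D : ℕ → ℕ := fun j => Module.finrank K ↥(W ^ j)
  have hmono : ∀ j, D j < D (j + 1) := by
    intro j
    have hf := finite_pow W hW (j + 1)
    have hlt : W ^ j < W ^ (j + 1) :=
      lt_of_le_not_ge (pow_le_succ W h1 j) (not_le hinf W hW h1 hgen j)
    exact Submodule.finrank_lt_finrank_of_lt hlt
  have hstep : ∀ j, j₀ ≤ j → D (j + 2) + D j ≤ D (j + 1) + D (j + 1) := by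
    intro j hj
    exact step W hW h1 v hv hv0 j (hN (j + 1) (by omega))
  let a : ℕ → ℕ := fun i => D (j₀ + i + 1) - D (j₀ + i)
  have ha : ∀ i, a (i + 1) ≤ a i := by
    intro i
    have e1 := hstep (j₀ + i) (by omega)
    have e2 := hmono (j₀ + i)
    have e3 := hmono (j₀ + i + 1)
    change D (j₀ + (i + 1) + 1) - D (j₀ + (i + 1)) ≤ D (j₀ + i + 1) - D (j₀ + i)
    have e4 : j₀ + (i + 1) = j₀ + i + 1 := by omega
    rw [e4]
    change D (j₀ + i + 1 + 1) + D (j₀ + i) ≤ D (j₀ + i + 1) + D (j₀ + i + 1) at e1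
    omega
  have hanti : Antitone a := antitone_nat_of_succ_le ha
  obtain ⟨i₁, hi₁⟩ : ∃ i₁, ∀ i, i₁ ≤ i → a i = a i₁ := by
    have hne : (Set.range a).Nonempty := ⟨a 0, ⟨0, rfl⟩⟩
    obtain ⟨i₁, hi₁⟩ := Nat.sInf_mem hne
    refine ⟨i₁, fun i hi => le_antisymm (hanti hi) ?_⟩
    rw [hi₁]
    exact Nat.sInf_le ⟨i, rfl⟩
  refine ⟨a i₁, j₀ + i₁, ?_⟩
  refine ⟨hW, h1, hgen, hv, hv0, ?_, ?_, ?_⟩
  · change 1 ≤ D (j₀ + i₁ + 1) - D (j₀ + i₁)
    have := hmono (j₀ + i₁)
    omega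
  · intro j hj
    exact hN j (by omega)
  · intro j hj
    obtain ⟨i, rfl⟩ : ∃ i, j = j₀ + i := ⟨j - j₀, by omega⟩
    have e1 := hi₁ i (by omega)
    have e2 := hmono (j₀ + i)
    change D (j₀ + i + 1) = D (j₀ + i) + a i₁
    rw [← e1]
    change D (j₀ + i + 1) = D (j₀ + i) + (D (j₀ + i + 1) - D (j₀ + i))
    omega

end Pool.Agent.K1
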