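import Pool.Agent.K1.L2Defs

/-!
Layer 2: the local ring of a curve at a smooth rational point.
-/

set_option autoImplicit false

open Polynomial

namespace Pool.Agent.K1

section localpt

variable {K C : Type} [Field K] [CommRing C] [Algebra K C] (x₀ : C →ₐ[K] K) (τ e : C)

theorem lp_ker_mem (x : C) : x ∈ RingHom.ker x₀ ↔ x₀ x = 0 := RingHom.mem_ker

theorem lp_dvd_pow (hdvd : ∀ x, x₀ x = 0 → τ ∣ e * x) (n : ℕ) :
    ∀ c ∈ (RingHom.ker x₀) ^ n, τ ^ n ∣ e ^ n * c := by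
  induction n with
  | zero => intro c _; simp
  | succ n ih =>
    intro c hc
    rw [pow_succ] at hc
    induction hc using Submodule.mul_induction_on' with
    | mem_mul_mem a ha b hb =>
      have h1 := mul_dvd_mul (ih a ha) (hdvd b ((lp_ker_mem x₀ b).1 hb))
      rw [pow_succ, pow_succ]
      have h2 : e ^ n * e * (a * b) = e ^ n * a * (e * b) := by ring
      rw [h2]
      exact h1
    | add a _ b _ ha hb =>
      rw [mul_add]
      exact dvd_add ha hb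

theorem lp_one_sub (he : x₀ e = 1) (n : ℕ) (c : C) (hc : c ∈ (RingHom.ker x₀) ^ n) :
    c - e ^ n * c ∈ (RingHom.ker x₀) ^ (n + 1) := by
  have h1 : 1 - e ^ n ∈ RingHom.ker x₀ := by
    rw [lp_ker_mem, map_sub, map_one, map_pow, he, one_pow, sub_self]
  have h2 : c - e ^ n * c = c * (1 - e ^ n) := by ring
  rw [h2, pow_succ]
  exact Ideal.mul_mem_mul hc h1

theorem lp_pow_mem (hτ : x₀ τ = 0) (n : ℕ) : τ ^ n ∈ (RingHom.ker x₀) ^ n :=
  Ideal.pow_mem_pow ((lp_ker_mem x₀ τ).2 hτ) n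

theorem lp_sub_const (y : C) : y - algebraMap K C (x₀ y) ∈ RingHom.ker x₀ := by
  rw [lp_ker_mem, map_sub, AlgHom.commutes]
  simp

theorem lp_digit (hτ : x₀ τ = 0) (he : x₀ e = 1) (hdvd : ∀ x, x₀ x = 0 → τ ∣ e * x) (n : ℕ)
    (c : C) (hc : c ∈ (RingHom.ker x₀) ^ n) :
    ∃ a : K, c - a • τ ^ n ∈ (RingHom.ker x₀) ^ (n + 1) := by
  obtain ⟨y, hy⟩ := lp_dvd_pow x₀ τ e hdvd n c hc
  refine ⟨x₀ y, ?_⟩
  have h1 := lp_one_sub x₀ e he n c hc
  have h2 : τ ^ n * (y - algebraMap K C (x₀ y)) ∈ (RingHom.ker x₀) ^ (n + 1) := by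
    rw [pow_succ]
    exact Ideal.mul_mem_mul (lp_pow_mem x₀ τ hτ n) (lp_sub_const x₀ y)
  have h3 : c - x₀ y • τ ^ n = (c - e ^ n * c) + τ ^ n * (y - algebraMap K C (x₀ y)) := by
    rw [hy, Algebra.smul_def]
    ring
  rw [h3]
  exact add_mem h1 h2

theorem lp_iff [IsDomain C] (hτ : x₀ τ = 0) (τ0 : τ ≠ 0) (he : x₀ e = 1)
    (hdvd : ∀ x, x₀ x = 0 → τ ∣ e * x) (n : ℕ) (c y : C) (hc : c ∈ (RingHom.ker x₀) ^ n)
    (hy : e ^ n * c = τ ^ n * y) : c ∈ (RingHom.ker x₀) ^ (n + 1) ↔ x₀ y = 0 := by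
  constructor
  · intro h
    obtain ⟨z, hz⟩ := lp_dvd_pow x₀ τ e hdvd (n + 1) c h
    have h1 : τ ^ n * (e * y) = τ ^ n * (τ * z) := by
      have h2 : τ ^ n * (e * y) = e * (e ^ n * c) := by rw [hy]; ring
      have h3 : e * (e ^ n * c) = e ^ (n + 1) * c := by ring
      rw [h2, h3, hz]
      ring
    have h4 := mul_left_cancel₀ (pow_ne_zero n τ0) h1
    have h5 := congrArg x₀ h4
    rw [map_mul, map_mul, he, hτ, one_mul, zero_mul] at h5
    exact h5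
  · intro h
    have h1 := lp_one_sub x₀ e he n c hc
    have h2 : τ ^ n * y ∈ (RingHom.ker x₀) ^ (n + 1) := by
      rw [pow_succ]
      exact Ideal.mul_mem_mul (lp_pow_mem x₀ τ hτ n) ((lp_ker_mem x₀ y).2 h)
    have h3 : c = (c - e ^ n * c) + τ ^ n * y := by
      rw [hy]
      ring
    rw [h3]
    exact add_mem h1 h2

theorem lp_pow_notMem [IsDomain C] (hτ : x₀ τ = 0) (τ0 : τ ≠ 0) (he : x₀ e = 1)
    (hdvd : ∀ x, x₀ x = 0 → τ ∣ e * x) (n : ℕ) : τ ^ n ∉ (RingHom.ker x₀) ^ (n + 1) := by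
  rw [lp_iff x₀ τ e hτ τ0 he hdvd n (τ ^ n) (e ^ n) (lp_pow_mem x₀ τ hτ n) (mul_comm _ _),
    map_pow, he, one_pow]
  exact one_ne_zero

theorem lp_mul [IsDomain C] (hτ : x₀ τ = 0) (τ0 : τ ≠ 0) (he : x₀ e = 1)
    (hdvd : ∀ x, x₀ x = 0 → τ ∣ e * x) (n n' : ℕ) (c c' : C)
    (hc : c ∈ (RingHom.ker x₀) ^ n) (hcn : c ∉ (RingHom.ker x₀) ^ (n + 1))
    (hc' : c' ∈ (RingHom.ker x₀) ^ n') (hcn' : c' ∉ (RingHom.ker x₀) ^ (n' + 1)) :
    c * c' ∉ (RingHom.ker x₀) ^ (n + n' + 1) := by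
  obtain ⟨y, hy⟩ := lp_dvd_pow x₀ τ e hdvd n c hc
  obtain ⟨y', hy'⟩ := lp_dvd_pow x₀ τ e hdvd n' c' hc'
  rw [lp_iff x₀ τ e hτ τ0 he hdvd n c y hc hy] at hcn
  rw [lp_iff x₀ τ e hτ τ0 he hdvd n' c' y' hc' hy'] at hcn'
  have h1 : c * c' ∈ (RingHom.ker x₀) ^ (n + n') := by
    rw [pow_add]
    exact Ideal.mul_mem_mul hc hc'
  have h2 : e ^ (n + n') * (c * c') = τ ^ (n + n') * (y * y') := by
    have h3 : e ^ (n + n') * (c * c') = (e ^ n * c) * (e ^ n' * c') := by ring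
    rw [h3, hy, hy']
    ring
  rw [lp_iff x₀ τ e hτ τ0 he hdvd (n + n') (c * c') (y * y') h1 h2, map_mul]
  exact mul_ne_zero hcn hcn'

theorem lp_digits (hτ : x₀ τ = 0) (he : x₀ e = 1) (hdvd : ∀ x, x₀ x = 0 → τ ∣ e * x) (c : C)
    (n : ℕ) : ∃ a : ℕ → K, c - ∑ i ∈ Finset.range n, a i • τ ^ i ∈ (RingHom.ker x₀) ^ n := by
  induction n with
  | zero => exact ⟨0, by simp⟩
  | succ n ih =>
    obtain ⟨a, ha⟩ := ih
    obtain ⟨b, hb⟩ := lp_digit x₀ τ e hτ he hdvd n _ ha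
    refine ⟨fun i => if i = n then b else a i, ?_⟩
    rw [Finset.sum_range_succ]
    have h1 : ∑ i ∈ Finset.range n, (if i = n then b else a i) • τ ^ i =
        ∑ i ∈ Finset.range n, a i • τ ^ i := by
      refine Finset.sum_congr rfl fun i hi => ?_
      rw [if_neg (Finset.mem_range.1 hi).ne]
    simp only [h1]
    rw [← sub_sub]
    exact hb

theorem lp_indep [IsDomain C] (hτ : x₀ τ = 0) (τ0 : τ ≠ 0) (he : x₀ e = 1)
    (hdvd : ∀ x, x₀ x = 0 → τ ∣ e * x) (n : ℕ) (a : ℕ → K)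
    (h : ∑ i ∈ Finset.range n, a i • τ ^ i ∈ (RingHom.ker x₀) ^ n) (i : ℕ) (hi : i < n) :
    a i = 0 := by
  induction i using Nat.strong_induction_on with
  | _ i ih =>
    by_contra hne
    refine lp_pow_notMem x₀ τ e hτ τ0 he hdvd i ?_
    have h1 : ∑ j ∈ Finset.range n, a j • τ ^ j ∈ (RingHom.ker x₀) ^ (i + 1) :=
      Ideal.pow_le_pow_right hi h
    have h2 : ∑ j ∈ Finset.range n, a j • τ ^ j =
        a i • τ ^ i + ∑ j ∈ (Finset.range n).erase i, a j • τ ^ j :=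
      (Finset.add_sum_erase _ _ (Finset.mem_range.2 hi)).symm
    have h3 : ∑ j ∈ (Finset.range n).erase i, a j • τ ^ j ∈ (RingHom.ker x₀) ^ (i + 1) := by
      refine Ideal.sum_mem _ fun j hj => ?_
      rw [Finset.mem_erase, Finset.mem_range] at hj
      rcases lt_or_gt_of_ne hj.1 with hlt | hgt
      · rw [ih j hlt hj.2, zero_smul]
        exact zero_mem _
      · rw [Algebra.smul_def]
        exact Ideal.mul_mem_left _ _ (Ideal.pow_le_pow_right hgt (lp_pow_mem x₀ τ hτ j))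
    have h4 : a i • τ ^ i ∈ (RingHom.ker x₀) ^ (i + 1) := by
      have h5 : a i • τ ^ i = ∑ j ∈ Finset.range n, a j • τ ^ j -
          ∑ j ∈ (Finset.range n).erase i, a j • τ ^ j := by
        rw [h2]
        ring
      rw [h5]
      exact sub_mem h1 h3
    have h6 : τ ^ i = algebraMap K C (a i)⁻¹ * (a i • τ ^ i) := by
      rw [← Algebra.smul_def, smul_smul, inv_mul_cancel₀ hne, one_smul]
    rw [h6]
    exact Ideal.mul_mem_left _ _ h4

/-- The quotient by the `n`-th power of the maximal ideal. -/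
theorem lp_equiv [IsDomain C] (hτ : x₀ τ = 0) (τ0 : τ ≠ 0) (he : x₀ e = 1)
    (hdvd : ∀ x, x₀ x = 0 → τ ∣ e * x) (n : ℕ) :
    Nonempty ((Fin n → K) ≃ₗ[K] (C ⧸ (RingHom.ker x₀) ^ n)) := by
  let f : (Fin n → K) →ₗ[K] (C ⧸ (RingHom.ker x₀) ^ n) :=
    Fintype.linearCombination K (fun i : Fin n => Ideal.Quotient.mk _ (τ ^ (i : ℕ)))
  have hf : ∀ a : ℕ → K, f (fun i => a i) =
      Ideal.Quotient.mk _ (∑ i ∈ Finset.range n, a i • τ ^ i) := by
    intro a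
    rw [← Fin.sum_univ_eq_sum_range (fun i => a i • τ ^ i) n, map_sum]
    simp only [f, Fintype.linearCombination_apply]
    refine Finset.sum_congr rfl fun i _ => ?_
    rfl
  refine ⟨LinearEquiv.ofBijective f ⟨?_, ?_⟩⟩
  · rw [← LinearMap.ker_eq_bot, LinearMap.ker_eq_bot']
    intro v hv
    have h1 : v = fun i : Fin n => (fun j : ℕ => if h : j < n then v ⟨j, h⟩ else 0) i := by
      funext i
      simp
    rw [h1, hf (fun j : ℕ => if h : j < n then v ⟨j, h⟩ else 0),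
      Ideal.Quotient.eq_zero_iff_mem] at hv
    funext i
    have h2 := lp_indep x₀ τ e hτ τ0 he hdvd n _ hv i i.2
    simpa using h2
  · intro c
    obtain ⟨c, rfl⟩ := Ideal.Quotient.mk_surjective c
    obtain ⟨a, ha⟩ := lp_digits x₀ τ e hτ he hdvd c n
    refine ⟨fun i => a i, ?_⟩
    rw [hf]
    exact ((Ideal.Quotient.mk_eq_mk_iff_sub_mem _ _).2 ha).symm

end localpt

/-- Layer 2, L2-06. -/
theorem exists_localPt {K C : Type} [Field K] [CommRing C] [IsDomain C] [IsNoetherianRing C]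
    [Algebra K C] (hinf : ¬ Module.Finite K C) (x₀ : C →ₐ[K] K) (τ : C) (hτ : x₀ τ = 0)
    (hx : RingHom.ker x₀ ≤ Ideal.span {τ} ⊔ (RingHom.ker x₀) ^ 2) :
    ∃ e : C, LocalPt x₀ τ e := by
  have h1 : RingHom.ker x₀ ≤ Ideal.span {τ} ⊔ (RingHom.ker x₀) • (RingHom.ker x₀) := by
    rw [smul_eq_mul, ← pow_two]
    exact hx
  obtain ⟨e, he, hle⟩ := Submodule.exists_sub_one_mem_and_smul_le_of_fg_of_le_sup
    (IsNoetherian.noetherian (RingHom.ker x₀)) le_rfl h1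
  have he1 : x₀ e = 1 := by
    rw [lp_ker_mem, map_sub, map_one, sub_eq_zero] at he
    exact he
  have hdvd : ∀ x, x₀ x = 0 → τ ∣ e * x := by
    intro x hx
    rw [← Ideal.mem_span_singleton]
    exact hle (Submodule.smul_mem_pointwise_smul x e _ ((lp_ker_mem x₀ x).2 hx))
  have he0 : e ≠ 0 := by
    rintro rfl
    rw [map_zero] at he1
    exact zero_ne_one he1
  have τ0 : τ ≠ 0 := by
    rintro rfl
    refine hinf ?_
    have hinj : Function.Injective x₀.toLinearMap := by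
      rw [← LinearMap.ker_eq_bot, LinearMap.ker_eq_bot']
      intro x hx
      have h2 := zero_dvd_iff.1 (hdvd x hx)
      exact (mul_eq_zero.1 h2).resolve_left he0
    exact Module.Finite.of_injective x₀.toLinearMap hinj
  have hne : RingHom.ker x₀ ≠ ⊤ := by
    rw [Ideal.ne_top_iff_one, lp_ker_mem, map_one]
    exact one_ne_zero
  refine ⟨e, hτ, τ0, he1, hdvd, lp_dvd_pow x₀ τ e hdvd, lp_digit x₀ τ e hτ he1 hdvd, ?_,
    fun n n' c c' => lp_mul x₀ τ e hτ τ0 he1 hdvd n n' c c',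
    lp_pow_notMem x₀ τ e hτ τ0 he1 hdvd, ?_, ?_⟩
  · intro c hc
    classical
    have h2 : ∃ m, c ∉ (RingHom.ker x₀) ^ m := by
      by_contra h3
      push Not at h3
      have h4 : c ∈ (⨅ i : ℕ, (RingHom.ker x₀) ^ i) := by
        rw [Submodule.mem_iInf]
        exact h3
      rw [Ideal.iInf_pow_eq_bot_of_isDomain _ hne] at h4
      exact hc h4
    have h5 := Nat.find_spec h2
    have h6 : Nat.find h2 ≠ 0 := by
      intro h7
      rw [h7, pow_zero, Ideal.one_eq_top] at h5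
      exact h5 Submodule.mem_top
    obtain ⟨n, hn⟩ := Nat.exists_eq_succ_of_ne_zero h6
    refine ⟨n, ?_, ?_⟩
    · have h8 := Nat.find_min h2 (m := n) (by omega)
      exact not_not.1 h8
    · rw [hn] at h5
      exact h5
  · intro n
    obtain ⟨f⟩ := lp_equiv x₀ τ e hτ τ0 he1 hdvd n
    exact Module.Finite.equiv f
  · intro n
    obtain ⟨f⟩ := lp_equiv x₀ τ e hτ τ0 he1 hdvd n
    rw [← f.finrank_eq, Module.finrank_fin_fun]

end Pool.Agent.K1
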