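import Pool.Agent.K1.L2Defs

/-!
Layer 2: linear Noether normalization of a curve inside a finite dimensional space of sections.
-/

namespace Pool.Agent.K1

namespace L2Noether

open Submodule

variable {k C : Type} [Field k] [CommRing C] [Algebra k C]

theorem mlm {M N P Q : Submodule k C} (h : M ≤ P) (h' : N ≤ Q) : M * N ≤ P * Q :=
  Submodule.mul_le.2 fun m hm n hn => Submodule.mul_mem_mul (h hm) (h' hn)

theorem pml {M N : Submodule k C} (h : M ≤ N) (n : ℕ) : M ^ n ≤ N ^ n := by
  induction n with
  | zero => rw [pow_zero, pow_zero]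
  | succ n ih => rw [pow_succ, pow_succ]; exact mlm ih h

theorem natCast_le (n : ℕ) : ((n : ℕ) : Submodule k C) ≤ 1 := by
  induction n with
  | zero => rw [Nat.cast_zero]; exact bot_le
  | succ n ih =>
    rw [Nat.cast_succ]
    exact sup_le ih le_rfl

theorem pow_mono {V : Submodule k C} (h1 : (1 : C) ∈ V) {m n : ℕ} (h : m ≤ n) :
    V ^ m ≤ V ^ n := by
  obtain ⟨i, rfl⟩ := Nat.exists_eq_add_of_le h
  have h2 : (1 : Submodule k C) ≤ V ^ i := by
    have : (1 : C) ∈ V ^ i := by
      have := Submodule.pow_mem_pow V h1 i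
      rwa [one_pow] at this
    rwa [Submodule.one_le]
  calc V ^ m = V ^ m * 1 := (mul_one _).symm
    _ ≤ V ^ m * V ^ i := mlm le_rfl h2
    _ = V ^ (m + i) := (pow_add _ _ _).symm

/-- `V ^ j + v V ^ j` -/
def XX (V : Submodule k C) (v : C) (j : ℕ) : Submodule k C := V ^ j ⊔ span k {v} * V ^ j

theorem XX_mul (V : Submodule k C) (v : C) (e i : ℕ) : XX V v e * V ^ i = XX V v (e + i) := by
  unfold XX
  rw [Submodule.sup_mul, mul_assoc, pow_add]

theorem mul_mem_span {V : Submodule k C} {v x : C} (hx : x ∈ V) : v * x ∈ span k {v} * V :=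
  Submodule.mul_mem_mul (mem_span_singleton_self v) hx

section step

variable {V : Submodule k C} {v w : C} {c : k} {j₀ d : ℕ}

theorem w_mem : w ∈ V ⊔ span k {w} := mem_sup_right (mem_span_singleton_self w)

theorem V_le : V ≤ V ⊔ span k {w} := le_sup_left

theorem step_claim (h1 : (1 : C) ∈ V)
    (hV : ∀ j, j₀ ≤ j → V ^ (j + 1) ≤ V ^ j ⊔ span k {v} * V ^ j)
    (hw : w ^ d ∈ XX (V ⊔ span k {w}) (v - c • w) (d - 1)) (hd : 1 ≤ d)
    (j : ℕ) (hj : j₀ + d ≤ j) (b : ℕ) (hb : b ≤ j + 1) :
    span k {w} ^ b * V ^ (j + 1 - b) ≤ XX (V ⊔ span k {w}) (v - c • w) j := by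
  set V' := V ⊔ span k {w} with hV'
  have hVV : V ≤ V' := le_sup_left
  have hwV : span k {w} ≤ V' := le_sup_right
  have h1' : (1 : C) ∈ V' := hVV h1
  have hpow : ∀ n, V ^ n ≤ V' ^ n := fun n => pml hVV n
  have hwpow : ∀ n, span k {w} ^ n ≤ V' ^ n := fun n => pml hwV n
  -- large `b`
  have big : ∀ b, d ≤ b → b ≤ j + 1 →
      span k {w} ^ b * V ^ (j + 1 - b) ≤ XX V' (v - c • w) j := by
    intro b hdb hbj
    obtain ⟨i, rfl⟩ := Nat.exists_eq_add_of_le hdb
    have e1 : span k {w} ^ d ≤ XX V' (v - c • w) (d - 1) := by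
      rw [Submodule.span_pow, Set.singleton_pow, span_le, Set.singleton_subset_iff]
      exact hw
    calc span k {w} ^ (d + i) * V ^ (j + 1 - (d + i))
        = span k {w} ^ d * (span k {w} ^ i * V ^ (j + 1 - (d + i))) := by
          rw [pow_add, mul_assoc]
      _ ≤ XX V' (v - c • w) (d - 1) * (V' ^ i * V' ^ (j + 1 - (d + i))) :=
          mlm e1 (mlm (hwpow _) (hpow _))
      _ = XX V' (v - c • w) j := by
          rw [← pow_add, XX_mul]
          congr 1
          omega
  -- small `b`, by downward induction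
  by_cases hbd : d ≤ b
  · exact big b hbd hb
  · have key : ∀ i, i ≤ d → span k {w} ^ (d - i) * V ^ (j + 1 - (d - i)) ≤
        XX V' (v - c • w) j := by
      intro i
      induction i with
      | zero => intro _; exact big d le_rfl (by omega)
      | succ i ih =>
        intro hi
        have ih' := ih (by omega)
        set b := d - (i + 1) with hbdef
        have e1 : d - i = b + 1 := by omega
        rw [e1] at ih'
        have e2 : j + 1 - (b + 1) = j - b := by omega
        rw [e2] at ih'
        have e3 : j + 1 - b = (j - b) + 1 := by omega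
        rw [e3]
        have e4 := hV (j - b) (by omega)
        have hvspan : span k {v} ≤ span k {v - c • w} ⊔ span k {w} := by
          rw [span_le, Set.singleton_subset_iff]
          have : v = (v - c • w) + c • w := by ring
          rw [this]
          exact add_mem (mem_sup_left (by simp))
            (mem_sup_right (smul_mem _ _ (mem_span_singleton_self w)))
        have hA : span k {w} ^ b * V ^ (j - b) ≤ V' ^ j := by
          calc span k {w} ^ b * V ^ (j - b) ≤ V' ^ b * V' ^ (j - b) :=
                mlm (hwpow _) (hpow _)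
            _ = V' ^ j := by rw [← pow_add]; congr 1; omega
        calc span k {w} ^ b * V ^ (j - b + 1)
            ≤ span k {w} ^ b * (V ^ (j - b) ⊔ span k {v} * V ^ (j - b)) :=
              mlm le_rfl e4
          _ ≤ span k {w} ^ b * (V ^ (j - b) ⊔
                (span k {v - c • w} ⊔ span k {w}) * V ^ (j - b)) :=
              mlm le_rfl (sup_le_sup le_rfl
                (mlm hvspan le_rfl))
          _ = span k {w} ^ b * V ^ (j - b) ⊔
                (span k {v - c • w} * (span k {w} ^ b * V ^ (j - b)) ⊔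
                  span k {w} ^ (b + 1) * V ^ (j - b)) := by
              rw [Submodule.mul_sup, Submodule.sup_mul, Submodule.mul_sup, pow_succ]
              congr 2
              · rw [← mul_assoc, mul_comm (span k {w} ^ b), mul_assoc]
              · rw [← mul_assoc]
          _ ≤ XX V' (v - c • w) j := by
              refine sup_le (hA.trans le_sup_left) (sup_le ?_ ih')
              exact (mlm le_rfl hA).trans le_sup_right
    have := key (d - b) (by omega)
    have e : d - (d - b) = b := by omega
    rwa [e] at this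

theorem step_main (h1 : (1 : C) ∈ V)
    (hV : ∀ j, j₀ ≤ j → V ^ (j + 1) ≤ V ^ j ⊔ span k {v} * V ^ j)
    (hw : w ^ d ∈ XX (V ⊔ span k {w}) (v - c • w) (d - 1)) (hd : 1 ≤ d)
    (j : ℕ) (hj : j₀ + d ≤ j) :
    (V ⊔ span k {w}) ^ (j + 1) ≤ XX (V ⊔ span k {w}) (v - c • w) j := by
  have e : (V ⊔ span k {w}) = span k {w} + V := by
    rw [sup_comm]; rfl
  have e2 : (V ⊔ span k {w}) ^ (j + 1) = ∑ m ∈ Finset.range (j + 1 + 1),
      span k {w} ^ m * V ^ (j + 1 - m) * ((j + 1).choose m : Submodule k C) := by
    rw [e, add_pow]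
  rw [e2]
  have : ∀ s : Finset ℕ, (∀ m ∈ s, m ≤ j + 1) → ∑ m ∈ s,
      span k {w} ^ m * V ^ (j + 1 - m) * ((j + 1).choose m : Submodule k C) ≤
      XX (V ⊔ span k {w}) (v - c • w) j := by
    intro s
    induction s using Finset.induction_on with
    | empty => intro _; rw [Finset.sum_empty]; exact bot_le
    | insert a s ha ih =>
      intro hs
      rw [Finset.sum_insert ha]
      refine sup_le ?_ (ih fun m hm => hs m (Finset.mem_insert_of_mem hm))
      calc span k {w} ^ a * V ^ (j + 1 - a) * ((j + 1).choose a : Submodule k C)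
          ≤ span k {w} ^ a * V ^ (j + 1 - a) * 1 :=
            mlm le_rfl (natCast_le _)
        _ = span k {w} ^ a * V ^ (j + 1 - a) := mul_one _
        _ ≤ _ := step_claim h1 hV hw hd j hj a (hs a (Finset.mem_insert_self _ _))
  exact this _ fun m hm => by
    have := Finset.mem_range.1 hm
    omega

end step

/-- `v ^ n w ^ l` and `c ^ n w ^ (n + l)` agree modulo `XX`. -/
theorem mono_congr {V : Submodule k C} {v w : C} {c : k} (hv : v ∈ V) (hwV : w ∈ V)
    (h1 : (1 : C) ∈ V) (e : ℕ) : ∀ n l : ℕ, n + l ≤ e + 1 →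
      v ^ n * w ^ l - c ^ n • w ^ (n + l) ∈ XX V (v - c • w) e := by
  intro n
  induction n with
  | zero => intro l _; simp
  | succ n ih =>
    intro l hl
    have h2 := ih (l + 1) (by omega)
    have e1 : v ^ (n + 1) * w ^ l - c ^ (n + 1) • w ^ (n + 1 + l) =
        (v - c • w) * (v ^ n * w ^ l) +
          c • (v ^ n * w ^ (l + 1) - c ^ n • w ^ (n + (l + 1))) := by
      have e2 : n + 1 + l = n + (l + 1) := by omega
      rw [e2, smul_sub, smul_smul, ← pow_succ']
      simp only [Algebra.smul_def]
      ring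
    rw [e1]
    refine add_mem (mem_sup_right (mul_mem_span ?_)) (smul_mem _ _ h2)
    have h3 : v ^ n * w ^ l ∈ V ^ (n + l) := by
      rw [pow_add]
      exact Submodule.mul_mem_mul (Submodule.pow_mem_pow V hv n) (Submodule.pow_mem_pow V hwV l)
    exact pow_mono h1 (by omega) h3

theorem fin2_ext {m m' : Fin 2 →₀ ℕ} (h0 : m 0 = m' 0) (h : m 0 + m 1 = m' 0 + m' 1) :
    m = m' := by
  ext i
  fin_cases i
  · exact h0
  · simp only [Fin.mk_one, Fin.isValue]
    omega

/-- After a change `v ↦ v - c w` the element `w` satisfies an integral equation. -/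
theorem exists_integral [Infinite k] [Nontrivial C] {V : Submodule k C} {v w : C} (hv : v ∈ V)
    (hwV : w ∈ V) (h1 : (1 : C) ∈ V) (hdep : ¬ AlgebraicIndependent k ![v, w]) :
    ∃ (c : k) (d : ℕ), 1 ≤ d ∧ w ^ d ∈ XX V (v - c • w) (d - 1) := by
  classical
  rw [algebraicIndependent_iff] at hdep
  push Not at hdep
  obtain ⟨P, hP0, hP⟩ := hdep
  set d := P.totalDegree with hd
  have hdeg : ∀ m ∈ P.support, m 0 + m 1 ≤ d := by
    intro m hm
    have := MvPolynomial.le_totalDegree hm
    rw [Finsupp.sum_fintype _ _ (fun _ => rfl), Fin.sum_univ_two] at this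
    exact this
  obtain ⟨ms, hms, hmsd⟩ : ∃ m ∈ P.support, m 0 + m 1 = d := by
    have hne : P.support.Nonempty := by
      rw [Finset.nonempty_iff_ne_empty, Ne, MvPolynomial.support_eq_empty]
      exact hP
    obtain ⟨m, hm, hm'⟩ := Finset.exists_mem_eq_sup P.support hne
      (fun s => s.sum fun _ e => e)
    refine ⟨m, hm, ?_⟩
    rw [hd, MvPolynomial.totalDegree, hm', Finsupp.sum_fintype _ _ (fun _ => rfl),
      Fin.sum_univ_two]
  -- the relation
  have hrel : ∑ m ∈ P.support, P.coeff m • (v ^ m 0 * w ^ m 1) = 0 := by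
    rw [MvPolynomial.aeval_def, MvPolynomial.eval₂_eq'] at hP0
    rw [← hP0]
    refine Finset.sum_congr rfl fun m _ => ?_
    rw [Fin.prod_univ_two, Algebra.smul_def]
    rfl
  -- `d ≥ 1`
  have hd1 : 1 ≤ d := by
    by_contra hlt
    have hd0 : d = 0 := by omega
    have hall : ∀ m ∈ P.support, m = 0 := by
      intro m hm
      have := hdeg m hm
      ext i
      fin_cases i
      · simp only [Fin.zero_eta, Fin.isValue, Finsupp.coe_zero, Pi.zero_apply]
        omega
      · simp only [Fin.mk_one, Fin.isValue, Finsupp.coe_zero, Pi.zero_apply]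
        omega
    have hs : P.support = {0} := by
      have : ms = 0 := hall ms hms
      ext m
      rw [Finset.mem_singleton]
      constructor
      · exact hall m
      · rintro rfl
        rwa [this] at hms
    rw [hs, Finset.sum_singleton] at hrel
    have h0 : P.coeff 0 ≠ 0 := by
      rw [← MvPolynomial.mem_support_iff, hs]
      exact Finset.mem_singleton_self _
    simp only [Finsupp.coe_zero, Pi.zero_apply, pow_zero, mul_one] at hrel
    rw [Algebra.smul_def, mul_one] at hrel
    have := (map_eq_zero (algebraMap k C)).1 hrel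
    exact h0 this
  -- the leading form
  let p : Polynomial k := ∑ m ∈ P.support.filter (fun m => m 0 + m 1 = d),
    Polynomial.C (P.coeff m) * Polynomial.X ^ m 0
  have hp : p.coeff (ms 0) = P.coeff ms := by
    rw [Polynomial.finsetSum_coeff, Finset.sum_eq_single ms]
    · rw [Polynomial.coeff_C_mul, Polynomial.coeff_X_pow, if_pos rfl, mul_one]
    · intro m hm hne
      rw [Polynomial.coeff_C_mul, Polynomial.coeff_X_pow, if_neg, mul_zero]
      intro h
      exact hne (fin2_ext h.symm (by rw [(Finset.mem_filter.1 hm).2, hmsd]))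
    · intro h
      exact absurd (Finset.mem_filter.2 ⟨hms, hmsd⟩) h
  have hp0 : p ≠ 0 := by
    intro h
    rw [h, Polynomial.coeff_zero] at hp
    exact (MvPolynomial.mem_support_iff.1 hms) hp.symm
  obtain ⟨c, hc⟩ : ∃ c : k, p.eval c ≠ 0 := by
    by_contra hcon
    push Not at hcon
    exact hp0 (Polynomial.funext fun r => by rw [hcon r, Polynomial.eval_zero])
  refine ⟨c, d, hd1, ?_⟩
  have hpe : p.eval c = ∑ m ∈ P.support.filter (fun m => m 0 + m 1 = d),
      P.coeff m * c ^ m 0 := by
    rw [Polynomial.eval_finsetSum]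
    exact Finset.sum_congr rfl fun m _ => by simp
  -- all terms modulo `XX`
  have hmod : ∑ m ∈ P.support, P.coeff m • (c ^ m 0 • w ^ (m 0 + m 1)) ∈
      XX V (v - c • w) (d - 1) := by
    have h2 : ∑ m ∈ P.support, P.coeff m • (v ^ m 0 * w ^ m 1 - c ^ m 0 • w ^ (m 0 + m 1)) ∈
        XX V (v - c • w) (d - 1) := by
      refine sum_mem fun m hm => smul_mem _ _ (mono_congr hv hwV h1 _ _ _ ?_)
      have := hdeg m hm
      omega
    simp only [smul_sub, Finset.sum_sub_distrib] at h2
    rw [hrel, zero_sub] at h2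
    exact (neg_mem_iff).1 h2
  rw [← Finset.sum_filter_add_sum_filter_not P.support (fun m => m 0 + m 1 = d)] at hmod
  have hlow : ∑ m ∈ P.support.filter (fun m => ¬ (m 0 + m 1 = d)),
      P.coeff m • (c ^ m 0 • w ^ (m 0 + m 1)) ∈ XX V (v - c • w) (d - 1) := by
    refine sum_mem fun m hm => smul_mem _ _ (smul_mem _ _ (mem_sup_left ?_))
    have h3 := Finset.mem_filter.1 hm
    have h4 := hdeg m h3.1
    exact pow_mono h1 (by omega) (Submodule.pow_mem_pow V hwV _)
  have htop : ∑ m ∈ P.support.filter (fun m => m 0 + m 1 = d),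
      P.coeff m • (c ^ m 0 • w ^ (m 0 + m 1)) = p.eval c • w ^ d := by
    rw [hpe, Finset.sum_smul]
    refine Finset.sum_congr rfl fun m hm => ?_
    rw [(Finset.mem_filter.1 hm).2, smul_smul]
  rw [htop] at hmod
  have h5 : p.eval c • w ^ d ∈ XX V (v - c • w) (d - 1) := by
    have := sub_mem hmod hlow
    rwa [add_sub_cancel_right] at this
  have h6 := smul_mem _ (p.eval c)⁻¹ h5
  rwa [smul_smul, inv_mul_cancel₀ hc, one_smul] at h6

theorem main [Infinite k] [Nontrivial C] (T : Finset C) :
    (∀ a ∈ span k (insert (1 : C) (T : Set C)), ∀ b ∈ span k (insert (1 : C) (T : Set C)),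
      ¬ AlgebraicIndependent k ![a, b]) →
    ∃ v ∈ span k (insert (1 : C) (T : Set C)), ∃ j₀ : ℕ, ∀ j, j₀ ≤ j →
      span k (insert (1 : C) (T : Set C)) ^ (j + 1) ≤
        span k (insert (1 : C) (T : Set C)) ^ j ⊔
          span k {v} * span k (insert (1 : C) (T : Set C)) ^ j := by
  classical
  induction T using Finset.induction_on with
  | empty =>
    intro _
    have e : span k (insert (1 : C) ((∅ : Finset C) : Set C)) = 1 := by
      rw [Finset.coe_empty, insert_empty_eq, Submodule.one_eq_span]
    rw [e]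
    refine ⟨1, one_le.1 le_rfl, 0, fun j _ => ?_⟩
    rw [one_pow, one_pow]
    exact le_sup_left
  | insert w T hw ih =>
    intro hdep
    have e : span k (insert (1 : C) ((insert w T : Finset C) : Set C)) =
        span k (insert (1 : C) (T : Set C)) ⊔ span k {w} := by
      rw [Finset.coe_insert, Set.insert_comm, ← Submodule.span_union, Set.union_comm,
        Set.singleton_union]
    rw [e] at hdep ⊢
    set V := span k (insert (1 : C) (T : Set C)) with hVdef
    obtain ⟨v, hv, j₀, hj⟩ := ih fun a ha b hb => hdep a (mem_sup_left ha) b (mem_sup_left hb)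
    have h1 : (1 : C) ∈ V := subset_span (Set.mem_insert _ _)
    have hwV : w ∈ V ⊔ span k {w} := mem_sup_right (mem_span_singleton_self w)
    obtain ⟨c, d, hd, hwd⟩ := exists_integral (mem_sup_left hv : v ∈ V ⊔ span k {w}) hwV
      (mem_sup_left h1) (hdep v (mem_sup_left hv) w hwV)
    refine ⟨v - c • w, sub_mem (mem_sup_left hv) (smul_mem _ _ hwV), j₀ + d, fun j hjj => ?_⟩
    exact step_main h1 hj hwd hd j hjj

end L2Noether

theorem exists_noether {k C : Type} [Field k] [Infinite k] [CommRing C] [Algebra k C]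
    (W : Submodule k C) (hW : W.FG) (h1 : (1 : C) ∈ W)
    (hdep : ∀ a ∈ W, ∀ b ∈ W, ¬ AlgebraicIndependent k ![a, b]) :
    ∃ v ∈ W, ∃ j₀ : ℕ, ∀ j, j₀ ≤ j → W ^ (j + 1) ≤ W ^ j ⊔ Submodule.span k {v} * W ^ j := by
  rcases subsingleton_or_nontrivial C with hC | hC
  · refine ⟨1, h1, 0, fun j _ => ?_⟩
    intro x _
    rw [Subsingleton.elim x 0]
    exact zero_mem _
  · obtain ⟨T, hT⟩ := hW
    have e : Submodule.span k (insert (1 : C) (T : Set C)) = W := by
      rw [Submodule.span_insert, hT]
      apply le_antisymm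
      · refine sup_le ?_ le_rfl
        rw [Submodule.span_le, Set.singleton_subset_iff]
        exact h1
      · exact le_sup_right
    have := L2Noether.main (k := k) T (by rw [e]; exact hdep)
    rwa [e] at this

end Pool.Agent.K1
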