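import Pool.Agent.K1.L2Defs

/-!
K1, Layer 2 (L2-08): sections act on large degrees, and the quotient by a section of degree `i`
has dimension at most `δ * i`.
-/

set_option autoImplicit false

namespace Pool.Agent.K1

section sat

variable {K C : Type} [Field K] [CommRing C] [Algebra K C]

theorem sat_pow_mono {W : Submodule K C} (h1 : (1 : C) ∈ W) {i j : ℕ} (h : i ≤ j) :
    W ^ i ≤ W ^ j := by
  induction j, h using Nat.le_induction with
  | base => exact le_rfl
  | succ j _ ih =>
    refine ih.trans ?_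
    rw [pow_succ]
    intro x hx
    have := Submodule.mul_mem_mul hx h1
    rwa [mul_one] at this

theorem sat_exists_pow {W : Submodule K C} (h1 : (1 : C) ∈ W)
    (hW : Algebra.adjoin K (W : Set C) = ⊤) (x : C) : ∃ a : ℕ, x ∈ W ^ a := by
  have hx : x ∈ Algebra.adjoin K (W : Set C) := by
    rw [hW]
    exact Algebra.mem_top
  induction hx using Algebra.adjoin_induction with
  | mem x hx => exact ⟨1, by rwa [pow_one]⟩
  | algebraMap r =>
    refine ⟨0, ?_⟩
    rw [pow_zero]
    exact Submodule.algebraMap_mem r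
  | add x y _ _ hx hy =>
    obtain ⟨a, ha⟩ := hx
    obtain ⟨b, hb⟩ := hy
    exact ⟨max a b, Submodule.add_mem _ (sat_pow_mono h1 (le_max_left a b) ha)
      (sat_pow_mono h1 (le_max_right a b) hb)⟩
  | mul x y _ _ hx hy =>
    obtain ⟨a, ha⟩ := hx
    obtain ⟨b, hb⟩ := hy
    refine ⟨a + b, ?_⟩
    rw [pow_add]
    exact Submodule.mul_mem_mul ha hb

end sat

theorem sat_mul {K C : Type} [Field K] [CommRing C] [IsDomain C] [Algebra K C]
    (W : Submodule K C) (v : C) (δ j₁ : ℕ) (H : Hilb W v δ j₁) (i : ℕ) (g : C)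
    (hg : SatMem W v i g) :
    ∃ j₂ : ℕ, ∀ j, j₂ ≤ j → ∀ w ∈ W ^ j, g * w ∈ W ^ (i + j) := by
  obtain ⟨N, hN⟩ := hg
  obtain ⟨a, ha⟩ := sat_exists_pow H.one_mem H.adjoin g
  have hvp : ∀ l : ℕ, v ^ l ∈ W ^ l := fun l => Submodule.pow_mem_pow W H.v_mem l
  refine ⟨a + N + j₁, ?_⟩
  intro J hJ
  have key : ∀ j, j₁ ≤ j → ∀ l, j + l ≤ J → ∀ w ∈ W ^ j, g * (v ^ l * w) ∈ W ^ (i + J) := by
    intro j hj
    induction j, hj using Nat.le_induction with
    | base =>
      intro l hl w hw
      by_cases hlN : N ≤ l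
      · obtain ⟨b, rfl⟩ := Nat.exists_eq_add_of_le hlN
        have h1 : g * (v ^ (N + b) * w) = (v ^ b * (v ^ N * g)) * w := by ring
        rw [h1]
        refine sat_pow_mono H.one_mem (i := b + (N + i) + j₁) (by omega) ?_
        rw [pow_add, pow_add]
        exact Submodule.mul_mem_mul (Submodule.mul_mem_mul (hvp b) hN) hw
      · refine sat_pow_mono H.one_mem (i := a + (l + j₁)) (by omega) ?_
        rw [pow_add, pow_add]
        exact Submodule.mul_mem_mul ha (Submodule.mul_mem_mul (hvp l) hw)
    | succ j hj ih =>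
      intro l hl w hw
      obtain ⟨w₁, hw₁, w₂, hw₂, rfl⟩ := Submodule.mem_sup.1 (H.noether j hj hw)
      obtain ⟨w₃, hw₃, rfl⟩ := Submodule.mem_span_singleton_mul.1 hw₂
      have h1 : g * (v ^ l * (w₁ + v * w₃)) = g * (v ^ l * w₁) + g * (v ^ (l + 1) * w₃) := by
        ring
      rw [h1]
      exact Submodule.add_mem _ (ih l (by omega) w₁ hw₁) (ih (l + 1) (by omega) w₃ hw₃)
  intro w hw
  have := key J (by omega) 0 (by omega) w hw
  rwa [pow_zero, one_mul] at this

theorem sat_quot {K C : Type} [Field K] [CommRing C] [IsDomain C] [Algebra K C]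
    (W : Submodule K C) (v : C) (δ j₁ : ℕ) (H : Hilb W v δ j₁) (i : ℕ) (g : C) (hg0 : g ≠ 0)
    (hg : SatMem W v i g) :
    Module.Finite K (C ⧸ Ideal.span {g}) ∧
      Module.finrank K (C ⧸ Ideal.span {g}) ≤ δ * i := by
  classical
  obtain ⟨j₂, hj₂⟩ := sat_mul W v δ j₁ H i g hg
  have hfin : ∀ j : ℕ, Module.Finite K ↥(W ^ j) := fun j =>
    Module.Finite.iff_fg.2 (H.fg.pow j)
  have hrk : ∀ j, j₁ ≤ j → ∀ i : ℕ,
      Module.finrank K ↥(W ^ (i + j)) = Module.finrank K ↥(W ^ j) + δ * i := by
    intro j hj i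
    induction i with
    | zero => rw [zero_add, mul_zero, add_zero]
    | succ i ih =>
      have h1 : i + 1 + j = (i + j) + 1 := by omega
      rw [h1, H.finrank (i + j) (by omega), ih]
      ring
  have hrank : Module.rank K (C ⧸ Ideal.span {g}) ≤ ((δ * i : ℕ) : Cardinal) := by
    apply rank_le
    intro s hs
    obtain ⟨x, hx⟩ := (Ideal.Quotient.mk_surjective (I := Ideal.span {g})).hasRightInverse
    choose a ha using fun c : C => sat_exists_pow H.one_mem H.adjoin c
    set j := j₁ + j₂ + s.sup (fun y => a (x y)) with hj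
    have hxW : ∀ y ∈ s, x y ∈ W ^ (i + j) := by
      intro y hy
      refine sat_pow_mono H.one_mem ?_ (ha (x y))
      have : a (x y) ≤ s.sup (fun y => a (x y)) := Finset.le_sup (f := fun y => a (x y)) hy
      omega
    let F : ((s → K) × ↥(W ^ j)) →ₗ[K] C :=
      (Fintype.linearCombination K (fun y : s => x y)).coprod
        ((LinearMap.mulLeft K g).comp (W ^ j).subtype)
    have hF : ∀ c w, F (c, w) = ∑ y : s, c y • x y + g * (w : C) := by
      intro c w
      simp only [F, LinearMap.coprod_apply, Fintype.linearCombination_apply,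
        LinearMap.comp_apply, LinearMap.mulLeft_apply, Submodule.subtype_apply]
    have hFm : ∀ z, F z ∈ W ^ (i + j) := by
      rintro ⟨c, w⟩
      rw [hF]
      refine Submodule.add_mem _ (Submodule.sum_mem _ fun y _ =>
        Submodule.smul_mem _ _ (hxW y y.2)) (hj₂ j (by omega) w w.2)
    let F' : ((s → K) × ↥(W ^ j)) →ₗ[K] ↥(W ^ (i + j)) := F.codRestrict _ hFm
    have hinj : Function.Injective F' := by
      rw [← LinearMap.ker_eq_bot, LinearMap.ker_eq_bot']
      rintro ⟨c, w⟩ h
      have h0 : F (c, w) = 0 := congrArg Subtype.val h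
      rw [hF] at h0
      have h1 : ∑ y : s, c y • (y : C ⧸ Ideal.span {g}) = 0 := by
        have h2 := congrArg (Ideal.Quotient.mk (Ideal.span {g})) h0
        rw [map_add, map_mul, map_zero, map_sum,
          Ideal.Quotient.eq_zero_iff_mem.2 (Ideal.mem_span_singleton_self g), zero_mul,
          add_zero] at h2
        rw [← h2]
        refine Finset.sum_congr rfl fun y _ => ?_
        have h3 : Ideal.Quotient.mk (Ideal.span {g}) (c y • x y)
            = c y • Ideal.Quotient.mk (Ideal.span {g}) (x y) := rfl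
        rw [h3, hx]
      have hc : c = 0 := by
        funext y
        exact (Fintype.linearIndependent_iff.1 hs) c h1 y
      rw [hc] at h0
      have hgw : g * (w : C) = 0 := by
        simpa using h0
      have hw : w = 0 := by
        rcases mul_eq_zero.1 hgw with h4 | h4
        · exact absurd h4 hg0
        · exact Subtype.ext h4
      rw [hc, hw]
      rfl
    have h5 := LinearMap.finrank_le_finrank_of_injective hinj
    rw [Module.finrank_prod, Module.finrank_fintype_fun_eq_card, hrk j (by omega) i,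
      Fintype.card_coe] at h5
    omega
  have hfinq : Module.Finite K (C ⧸ Ideal.span {g}) := by
    rw [← Module.rank_lt_aleph0_iff]
    exact hrank.trans_lt Cardinal.natCast_lt_aleph0
  refine ⟨hfinq, ?_⟩
  exact Module.finrank_le_of_rank_le hrank

end Pool.Agent.K1
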