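import Pool.Agent.K1.L2Defs
import Pool.Agent.K1.L2Sat

/-!
Layer 2: the sections of large degree are saturated.
-/

open Polynomial

namespace Pool.Agent.K1

namespace SatEv

variable {k C : Type} [Field k] [CommRing C] [IsDomain C] [Algebra k C]
  {W : Submodule k C} {v : C}

omit [IsDomain C] in
theorem pow_le_succ (h1 : (1 : C) ∈ W) (a : ℕ) : W ^ a ≤ W ^ (a + 1) := by
  intro x hx
  have := Submodule.mul_mem_mul hx h1
  rwa [mul_one, ← pow_succ] at this

omit [IsDomain C] in
theorem pow_mono (h1 : (1 : C) ∈ W) {a b : ℕ} (h : a ≤ b) : W ^ a ≤ W ^ b := by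
  induction b, h using Nat.le_induction with
  | base => exact le_rfl
  | succ b _ ih => exact ih.trans (pow_le_succ h1 b)

/-- The elements of degree at most `i`. -/
def sat (W : Submodule k C) (v : C) (hv : v ∈ W) (i : ℕ) : Submodule k C where
  carrier := {g | SatMem W v i g}
  add_mem' := by
    rintro a b ⟨N, hN⟩ ⟨N', hN'⟩
    refine ⟨N + N', ?_⟩
    have e : v ^ (N + N') * (a + b) = v ^ N' * (v ^ N * a) + v ^ N * (v ^ N' * b) := by ring
    rw [e]
    refine add_mem ?_ ?_
    · have h := Submodule.mul_mem_mul (Submodule.pow_mem_pow W hv N') hN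
      rwa [← pow_add, show N' + (N + i) = N + N' + i by omega] at h
    · have h := Submodule.mul_mem_mul (Submodule.pow_mem_pow W hv N) hN'
      rwa [← pow_add, show N + (N' + i) = N + N' + i by omega] at h
  zero_mem' := ⟨0, by simp⟩
  smul_mem' := by
    rintro c a ⟨N, hN⟩
    exact ⟨N, by rw [mul_smul_comm]; exact Submodule.smul_mem _ _ hN⟩

omit [IsDomain C] in
theorem mem_sat (hv : v ∈ W) (i : ℕ) (g : C) : g ∈ sat W v hv i ↔ SatMem W v i g := Iff.rfl

omit [IsDomain C] in
theorem sat_le_succ (h1 : (1 : C) ∈ W) (hv : v ∈ W) (i : ℕ) :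
    sat W v hv i ≤ sat W v hv (i + 1) := by
  rintro g ⟨N, hN⟩
  exact ⟨N, by rw [← add_assoc]; exact pow_le_succ h1 _ hN⟩

omit [IsDomain C] in
theorem mul_mem_sat (hv : v ∈ W) (i : ℕ) (g : C) (hg : g ∈ sat W v hv i) :
    v * g ∈ sat W v hv (i + 1) := by
  obtain ⟨N, hN⟩ := hg
  refine ⟨N, ?_⟩
  have h := Submodule.mul_mem_mul hN hv
  rw [← pow_succ] at h
  rw [← add_assoc]
  have e : v ^ N * (v * g) = v ^ N * g * v := by ring
  rw [e]; exact h

omit [IsDomain C] in
theorem of_mul_mem_sat (hv : v ∈ W) (i : ℕ) (g : C) (hg : v * g ∈ sat W v hv (i + 1)) :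
    g ∈ sat W v hv i := by
  obtain ⟨N, hN⟩ := hg
  refine ⟨N + 1, ?_⟩
  have e : v ^ (N + 1) * g = v ^ N * (v * g) := by ring
  rw [e, show N + 1 + i = N + (i + 1) by omega]
  exact hN

/-- A convex sequence of natural numbers with linear bound is affine from some point on. -/
theorem convex_affine (a : ℕ → ℕ) (δ c : ℕ) (hmono : ∀ i, a i ≤ a (i + 1))
    (hconv : ∀ i, 2 * a (i + 1) ≤ a (i + 2) + a i) (hb : ∀ i, a i ≤ δ * i + c) :
    ∃ i₂, ∀ i, i₂ ≤ i → 2 * a (i + 1) = a (i + 2) + a i := by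
  set d : ℕ → ℕ := fun i => a (i + 1) - a i with hd
  have hda : ∀ i, a (i + 1) = a i + d i := fun i => by
    have := hmono i
    simp only [hd]; omega
  have hdm : ∀ i, d i ≤ d (i + 1) := fun i => by
    have h1 := hda i
    have h2 : a (i + 2) = a (i + 1) + d (i + 1) := hda (i + 1)
    have h3 := hconv i
    omega
  have hdm' : ∀ i j, i ≤ j → d i ≤ d j := fun i j h => by
    induction j, h using Nat.le_induction with
    | base => exact le_rfl
    | succ j _ ih => exact ih.trans (hdm j)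
  have hlow : ∀ i n, a i + n * d i ≤ a (i + n) := fun i n => by
    induction n with
    | zero => simp
    | succ n ih =>
      have h1 := hda (i + n)
      have h2 := hdm' i (i + n) (by omega)
      rw [← add_assoc, h1, add_mul, one_mul]
      omega
  have hdb : ∀ i, d i ≤ δ := fun i => by
    by_contra hcon
    have hcon : δ < d i := not_le.mp hcon
    have h1 := hlow i (δ * i + c + 1)
    have h2 := hb (i + (δ * i + c + 1))
    have h3 : (δ * i + c + 1) * (δ + 1) ≤ (δ * i + c + 1) * d i :=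
      Nat.mul_le_mul_left _ hcon
    have h4 : δ * (i + (δ * i + c + 1)) = δ * i + (δ * i + c + 1) * δ := by ring
    have h5 : (δ * i + c + 1) * (δ + 1) = (δ * i + c + 1) * δ + (δ * i + c + 1) := by ring
    omega
  obtain ⟨m, ⟨i₀, rfl⟩, hm⟩ := WellFounded.has_min (wellFounded_lt (α := ℕ))
    (Set.range fun i => δ - d i) ⟨_, 0, rfl⟩
  refine ⟨i₀, fun i hi => ?_⟩
  have key : ∀ j, i₀ ≤ j → d j = d i₀ := fun j hj => by
    have h1 := hm (δ - d j) ⟨j, rfl⟩
    have h2 := hdm' i₀ j hj
    have h3 := hdb j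
    have h4 := hdb i₀
    simp only at h1
    omega
  have h1 := key i hi
  have h2 := key (i + 1) (by omega)
  have h3 := hda i
  have h4 := hda (i + 1)
  rw [show i + 1 + 1 = i + 2 by omega] at h4
  omega

section main

variable (hv : v ∈ W) (h1 : (1 : C) ∈ W) (hv0 : v ≠ 0) (δ : ℕ) (x₀ : C →ₐ[k] k) (τ e : C)
  (hx : LocalPt x₀ τ e)
  (hq : ∀ (i : ℕ) (g : C), g ≠ 0 → SatMem W v i g → Module.Finite k (C ⧸ Ideal.span {g}) ∧
    Module.finrank k (C ⧸ Ideal.span {g}) ≤ δ * i)

omit [IsDomain C] in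
include hx hq in
theorem sat_ker (i : ℕ) (g : C) (hg : g ∈ sat W v hv i)
    (hk : g ∈ (RingHom.ker x₀) ^ (δ * i + 1)) : g = 0 := by
  by_contra hg0
  obtain ⟨hf, hr⟩ := hq i g hg0 hg
  have hle : Ideal.span {g} ≤ (RingHom.ker x₀) ^ (δ * i + 1) := by
    rw [Ideal.span_le]
    rintro y rfl
    exact hk
  have hs : Function.Surjective (Ideal.Quotient.factorₐ k hle).toLinearMap :=
    Ideal.Quotient.factor_surjective hle
  have h := LinearMap.finrank_le_finrank_of_surjective hs
  have h2 : Module.finrank k (C ⧸ (RingHom.ker x₀) ^ (δ * i + 1)) = δ * i + 1 :=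
    hx.finrank (δ * i + 1)
  rw [h2] at h
  omega

omit [IsDomain C] in
include hx hq in
theorem sat_fin (i : ℕ) : Module.Finite k (sat W v hv i) ∧
    Module.finrank k (sat W v hv i) ≤ δ * i + 1 := by
  have : Module.Finite k (C ⧸ (RingHom.ker x₀) ^ (δ * i + 1)) := hx.fin _
  let f : sat W v hv i →ₗ[k] C ⧸ (RingHom.ker x₀) ^ (δ * i + 1) :=
    (Ideal.Quotient.mkₐ k ((RingHom.ker x₀) ^ (δ * i + 1))).toLinearMap.comp
      (sat W v hv i).subtype
  have hinj : Function.Injective f := by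
    rw [injective_iff_map_eq_zero]
    rintro ⟨g, hg⟩ h0
    have hk : g ∈ (RingHom.ker x₀) ^ (δ * i + 1) := by
      rw [← Ideal.Quotient.eq_zero_iff_mem]
      exact h0
    ext
    exact sat_ker hv δ x₀ τ e hx hq i g hg hk
  refine ⟨Module.Finite.of_injective f hinj, ?_⟩
  have h := LinearMap.finrank_le_finrank_of_injective hinj
  have h2 : Module.finrank k (C ⧸ (RingHom.ker x₀) ^ (δ * i + 1)) = δ * i + 1 :=
    hx.finrank (δ * i + 1)
  rw [h2] at h
  exact h

include hx hq hv0 h1 in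
theorem sat_step : ∃ i₂ : ℕ, ∀ i, i₂ ≤ i → sat W v hv (i + 1) ≤
    sat W v hv i ⊔ (sat W v hv i).map (LinearMap.mulLeft k v) := by
  set L := LinearMap.mulLeft k v with hL
  have hLi : Function.Injective L := by
    intro x y hxy
    simp only [hL, LinearMap.mulLeft_apply] at hxy
    exact mul_left_cancel₀ hv0 hxy
  have hfin : ∀ i, Module.Finite k (sat W v hv i) :=
    fun i => (sat_fin hv δ x₀ τ e hx hq i).1
  have hmapr : ∀ i, Module.finrank k ((sat W v hv i).map L) =
      Module.finrank k (sat W v hv i) := fun i =>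
    (LinearEquiv.finrank_eq (Submodule.equivMapOfInjective L hLi (sat W v hv i))).symm
  have hfinm : ∀ i, Module.Finite k ((sat W v hv i).map L) := fun i => inferInstance
  have hmaple : ∀ i, (sat W v hv i).map L ≤ sat W v hv (i + 1) := fun i => by
    rintro _ ⟨g, hg, rfl⟩
    exact mul_mem_sat hv i g hg
  have hinf : ∀ i, sat W v hv (i + 1) ⊓ (sat W v hv (i + 1)).map L = (sat W v hv i).map L := by
    intro i
    apply le_antisymm
    · rintro x ⟨hx1, ⟨g, _, rfl⟩⟩
      exact ⟨g, of_mul_mem_sat hv i g hx1, rfl⟩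
    · refine le_inf (hmaple i) (Submodule.map_mono (sat_le_succ h1 hv i))
  have hsup : ∀ i, sat W v hv (i + 1) ⊔ (sat W v hv (i + 1)).map L ≤ sat W v hv (i + 2) :=
    fun i => sup_le (sat_le_succ h1 hv (i + 1)) (hmaple (i + 1))
  have hdim : ∀ i, Module.finrank k ↥(sat W v hv (i + 1) ⊔ (sat W v hv (i + 1)).map L) +
      Module.finrank k (sat W v hv i) = 2 * Module.finrank k (sat W v hv (i + 1)) := by
    intro i
    have h := Submodule.finrank_sup_add_finrank_inf_eq (sat W v hv (i + 1))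
      ((sat W v hv (i + 1)).map L)
    rw [hinf i, hmapr i, hmapr (i + 1)] at h
    omega
  obtain ⟨i₂, hi₂⟩ := convex_affine (fun i => Module.finrank k (sat W v hv i)) δ 1
    (fun i => Submodule.finrank_mono (sat_le_succ h1 hv i))
    (fun i => by
      have h := hdim i
      have h' := Submodule.finrank_mono (hsup i)
      omega)
    (fun i => (sat_fin hv δ x₀ τ e hx hq i).2)
  refine ⟨i₂ + 1, fun i hi => ?_⟩
  obtain ⟨j, rfl⟩ : ∃ j, i = j + 1 := ⟨i - 1, by omega⟩
  have h := hi₂ j (by omega)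
  have h' := hdim j
  have heq : sat W v hv (j + 1) ⊔ (sat W v hv (j + 1)).map L = sat W v hv (j + 2) :=
    Submodule.eq_of_le_of_finrank_le (hsup j) (by omega)
  rw [heq]

end main

end SatEv

open SatEv

theorem sat_eventually_of {k C : Type} [Field k] [CommRing C] [IsDomain C] [Algebra k C]
    (W : Submodule k C) (v : C) (δ j₁ : ℕ) (H : Hilb W v δ j₁) (x₀ : C →ₐ[k] k) (τ e : C)
    (hx : LocalPt x₀ τ e)
    (hq : ∀ (i : ℕ) (g : C), g ≠ 0 → SatMem W v i g → Module.Finite k (C ⧸ Ideal.span {g}) ∧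
      Module.finrank k (C ⧸ Ideal.span {g}) ≤ δ * i) :
    ∃ i₁ : ℕ, ∀ i, i₁ ≤ i → ∀ g : C, SatMem W v i g → g ∈ W ^ i := by
  have hv := H.v_mem
  have h1 := H.one_mem
  obtain ⟨i₂, hi₂⟩ := sat_step hv h1 H.v0 δ x₀ τ e hx hq
  -- reduction to `sat i₂`
  have hred : ∀ n (T : Submodule k C), (∀ l ≤ n, ∀ g ∈ sat W v hv i₂, v ^ l * g ∈ T) →
      sat W v hv (i₂ + n) ≤ T := by
    intro n
    induction n with
    | zero =>
      intro T hT g hg
      have := hT 0 le_rfl g hg
      simpa using this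
    | succ n ih =>
      intro T hT
      refine (hi₂ (i₂ + n) (by omega)).trans (sup_le ?_ ?_)
      · exact ih T fun l hl g hg => hT l (by omega) g hg
      · rw [Submodule.map_le_iff_le_comap]
        refine ih _ fun l hl g hg => ?_
        rw [Submodule.mem_comap, LinearMap.mulLeft_apply]
        have := hT (l + 1) (by omega) g hg
        have e : v * (v ^ l * g) = v ^ (l + 1) * g := by ring
        rw [e]; exact this
  -- every element lies in some power
  have hpow : ∀ g : C, ∃ a, g ∈ W ^ a := by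
    intro g
    have hg : g ∈ Algebra.adjoin k (W : Set C) := by rw [H.adjoin]; trivial
    induction hg using Algebra.adjoin_induction with
    | mem x hx => exact ⟨1, by simpa using hx⟩
    | algebraMap r =>
      refine ⟨0, ?_⟩
      rw [pow_zero, Submodule.mem_one]
      exact ⟨r, rfl⟩
    | add x y _ _ hx hy =>
      obtain ⟨a, ha⟩ := hx
      obtain ⟨b, hb⟩ := hy
      exact ⟨max a b, add_mem (pow_mono h1 (le_max_left a b) ha)
        (pow_mono h1 (le_max_right a b) hb)⟩
    | mul x y _ _ hx hy =>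
      obtain ⟨a, ha⟩ := hx
      obtain ⟨b, hb⟩ := hy
      exact ⟨a + b, by rw [pow_add]; exact Submodule.mul_mem_mul ha hb⟩
  -- uniform bounds on a finite generating set of `sat i₂`
  have := (sat_fin hv δ x₀ τ e hx hq i₂).1
  have hfg : (sat W v hv i₂).FG := Module.Finite.iff_fg.mp inferInstance
  obtain ⟨s, hs⟩ := hfg
  choose a ha using hpow
  have hN : ∀ g : C, ∃ N : ℕ, g ∈ sat W v hv i₂ → v ^ N * g ∈ W ^ (N + i₂) := by
    intro g
    by_cases hg : g ∈ sat W v hv i₂
    · obtain ⟨N, hN⟩ := hg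
      exact ⟨N, fun _ => hN⟩
    · exact ⟨0, fun h => absurd h hg⟩
  choose N hN using hN
  set a₀ := s.sup a with ha₀
  set N₀ := s.sup N with hN₀
  have hR : sat W v hv i₂ ≤ W ^ a₀ := by
    rw [← hs, Submodule.span_le]
    intro g hg
    exact pow_mono h1 (Finset.le_sup (f := a) hg) (ha g)
  have hQ : ∀ l, N₀ ≤ l → ∀ g ∈ sat W v hv i₂, v ^ l * g ∈ W ^ (l + i₂) := by
    intro l hl
    have : sat W v hv i₂ ≤ (W ^ (l + i₂)).comap (LinearMap.mulLeft k (v ^ l)) := by
      conv_lhs => rw [← hs]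
      rw [Submodule.span_le]
      intro g hg
      rw [SetLike.mem_coe, Submodule.mem_comap, LinearMap.mulLeft_apply]
      have hgs : g ∈ sat W v hv i₂ := by rw [← hs]; exact Submodule.subset_span hg
      have h2 := hN g hgs
      have h3 : N g ≤ l := (Finset.le_sup (f := N) hg).trans hl
      have h4 := Submodule.mul_mem_mul (Submodule.pow_mem_pow W hv (l - N g)) h2
      rw [← pow_add, show l - N g + (N g + i₂) = l + i₂ by omega] at h4
      have e : v ^ l * g = v ^ (l - N g) * (v ^ N g * g) := by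
        rw [← mul_assoc, ← pow_add, show l - N g + N g = l by omega]
      rw [e]; exact h4
    intro g hg
    exact this hg
  refine ⟨i₂ + N₀ + a₀, fun i hi g hg => ?_⟩
  obtain ⟨n, rfl⟩ : ∃ n, i = i₂ + n := ⟨i - i₂, by omega⟩
  refine hred n (W ^ (i₂ + n)) (fun l hl g hg => ?_) hg
  by_cases hlN : N₀ ≤ l
  · exact pow_mono h1 (by omega) (hQ l hlN g hg)
  · have h2 := Submodule.mul_mem_mul (Submodule.pow_mem_pow W hv l) (hR hg)
    rw [← pow_add] at h2
    exact pow_mono h1 (by omega) h2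

/-- Layer 2: the sections of large degree are saturated. -/
theorem sat_eventually {k C : Type} [Field k] [CommRing C] [IsDomain C] [Algebra k C]
    (W : Submodule k C) (v : C) (δ j₁ : ℕ) (H : Hilb W v δ j₁) (x₀ : C →ₐ[k] k) (τ e : C)
    (hx : LocalPt x₀ τ e) :
    ∃ i₁ : ℕ, ∀ i, i₁ ≤ i → ∀ g : C, SatMem W v i g → g ∈ W ^ i :=
  sat_eventually_of W v δ j₁ H x₀ τ e hx (fun i g hg0 hg => sat_quot W v δ j₁ H i g hg0 hg)

end Pool.Agent.K1
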