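import Pool.Agent.K1.L2Defs

set_option autoImplicit false
set_option linter.style.longLine false
set_option linter.unusedVariables false

/-!
K1, Layer 2, L2-05: a smooth point of an affine curve over an algebraically closed field.
-/

open scoped nonZeroDivisors

namespace Pool.Agent.K1

/-- nonzero functions have points where they do not vanish -/
theorem exists_point_ne_zero {k C : Type} [Field k] [IsAlgClosed k] [CommRing C] [IsDomain C]
    [Algebra k C] [Algebra.FiniteType k C] (g : C) (hg : g ≠ 0) :
    ∃ x : C →ₐ[k] k, x g ≠ 0 := by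
  have hJ : IsJacobsonRing C := isJacobsonRing_of_finiteType (A := k) (B := C)
  have hex : ∃ M : Ideal C, M.IsMaximal ∧ g ∉ M := by
    by_contra hcon
    push Not at hcon
    have h1 : g ∈ (⊥ : Ideal C).jacobson := by
      rw [Ideal.jacobson, Ideal.mem_sInf]
      intro M hM
      exact hcon M hM.2
    rw [IsJacobsonRing.out hJ (Ideal.IsPrime.isRadical Ideal.isPrime_bot)] at h1
    exact hg (by simpa using h1)
  obtain ⟨M, hM, hgM⟩ := hex
  let _ : Field (C ⧸ M) := Ideal.Quotient.field M
  have hfd : Module.Finite k (C ⧸ M) := finite_of_finite_type_of_isJacobsonRing k (C ⧸ M)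
  have hb : Function.Bijective (algebraMap k (C ⧸ M)) :=
    IsAlgClosed.algebraMap_bijective_of_isIntegral
  let e : k ≃ₐ[k] (C ⧸ M) := AlgEquiv.ofBijective (Algebra.ofId k (C ⧸ M)) hb
  refine ⟨(e.symm : (C ⧸ M) →ₐ[k] k).comp (Ideal.Quotient.mkₐ k M), ?_⟩
  intro h
  apply hgM
  have h1 : Ideal.Quotient.mkₐ k M g = 0 := by
    have h2 : e.symm (Ideal.Quotient.mkₐ k M g) = e.symm 0 := by
      rw [map_zero]
      exact h
    exact e.symm.injective h2
  rwa [Ideal.Quotient.mkₐ_eq_mk, Ideal.Quotient.eq_zero_iff_mem] at h1

/-- transcendence bases of the fraction field have at most one element -/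
theorem card_transcendenceBasis_le {k C F : Type} [Field k] [CommRing C] [IsDomain C]
    [Algebra k C] [Field F] [Algebra C F] [Algebra k F] [IsScalarTower k C F]
    [IsFractionRing C F]
    (hdep : ∀ a b : C, ¬ AlgebraicIndependent k ![a, b]) (s : Finset F)
    (hs : IsTranscendenceBasis k ((↑) : s → F)) : s.card ≤ 1 := by
  obtain ⟨t, ht⟩ := exists_isTranscendenceBasis k C
  have : Algebra.IsAlgebraic C F := IsLocalization.isAlgebraic F C⁰
  have h1 := ht.algebraMap_comp (A := F)
  have h2 := hs.cardinalMk_eq h1
  by_contra hcard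
  push Not at hcard
  have h3 : 1 < Cardinal.mk t := by
    rw [← h2]
    simpa using hcard
  rw [Cardinal.one_lt_iff_nontrivial] at h3
  obtain ⟨a, b, hab⟩ := exists_pair_ne t
  apply hdep a b
  have h4 := ht.1.comp ![a, b] (by
    intro i j hij
    fin_cases i <;> fin_cases j <;> simp_all)
  convert h4 using 1
  funext i
  fin_cases i <;> rfl

/-- differentials over an extension with a separating transcendence basis -/
theorem kaehler_span {k F : Type} [Field k] [Field F] [Algebra k F] (s : Set F)
    (hs : Algebra.IsSeparable (IntermediateField.adjoin k s) F) :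
    Submodule.span F ((KaehlerDifferential.D k F) '' s) = ⊤ := by
  set N := Submodule.span F ((KaehlerDifferential.D k F) '' s) with hN
  set d : Derivation k F (KaehlerDifferential k F ⧸ N) :=
    N.mkQ.compDer (KaehlerDifferential.D k F) with hd
  have h1 : ∀ x ∈ IntermediateField.adjoin k s, d x = 0 := by
    intro x hx
    induction hx using IntermediateField.adjoin_induction with
    | mem x hx =>
      rw [hd]
      show N.mkQ (KaehlerDifferential.D k F x) = 0
      rw [Submodule.mkQ_apply, Submodule.Quotient.mk_eq_zero]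
      exact Submodule.subset_span ⟨x, hx, rfl⟩
    | algebraMap x => exact d.map_algebraMap x
    | add x y _ _ hx hy => rw [map_add, hx, hy, add_zero]
    | inv x _ hx => rw [Derivation.leibniz_inv, hx, smul_zero]
    | mul x y _ _ hx hy => rw [Derivation.leibniz, hx, hy, smul_zero, smul_zero, add_zero]
  set E := IntermediateField.adjoin k s with hE
  have hU : Algebra.FormallyUnramified E F := Algebra.FormallyUnramified.of_isSeparable E F
  let d' : Derivation E F (KaehlerDifferential k F ⧸ N) :=
    { toFun := d
      map_add' := fun x y => map_add d x y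
      map_smul' := by
        intro e x
        have h2 : d (e : F) = 0 := h1 _ e.2
        rw [RingHom.id_apply, Algebra.smul_def, Derivation.leibniz]
        show (e : F) • d x + x • d (e : F) = _
        rw [h2, smul_zero, add_zero]
        exact algebraMap_smul F e (d x)
      map_one_eq_zero' := d.map_one_eq_zero
      leibniz' := d.leibniz }
  have h2 : ∀ x : F, d x = 0 := by
    intro x
    have h3 : d'.liftKaehlerDifferential (KaehlerDifferential.D E F x) = d' x :=
      Derivation.liftKaehlerDifferential_comp_D _ _
    have h4 : KaehlerDifferential.D E F x = 0 := Subsingleton.elim _ _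
    rw [h4, map_zero] at h3
    exact h3.symm
  rw [eq_top_iff, ← KaehlerDifferential.span_range_derivation, Submodule.span_le]
  rintro _ ⟨x, rfl⟩
  have h3 := h2 x
  rw [hd] at h3
  have h4 : N.mkQ (KaehlerDifferential.D k F x) = 0 := h3
  rw [Submodule.mkQ_apply, Submodule.Quotient.mk_eq_zero] at h4
  exact h4

/-- differentials of an affine curve are of rank at most one -/
theorem exists_kaehler_generator {k C : Type} [Field k] [IsAlgClosed k] [CommRing C] [IsDomain C]
    [Algebra k C] [Algebra.FiniteType k C]
    (hdep : ∀ a b : C, ¬ AlgebraicIndependent k ![a, b]) :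
    ∃ (ω : KaehlerDifferential k C) (h : C), h ≠ 0 ∧ ∀ c : C, ∃ a : C,
      h • KaehlerDifferential.D k C c = a • ω := by
  set F := FractionRing C with hF
  have hess : Algebra.EssFiniteType k F := inferInstance
  obtain ⟨s, hs, hsep⟩ :=
    exists_isTranscendenceBasis_and_isSeparable_of_perfectField k F
  have hcard := card_transcendenceBasis_le hdep s hs
  have hspan := kaehler_span (s : Set F) hsep
  obtain ⟨y, hy⟩ : ∃ y : F, s ⊆ {y} := by
    rw [Finset.card_le_one_iff_subset_singleton] at hcard
    exact hcard
  have hspan2 : Submodule.span F {KaehlerDifferential.D k F y} = ⊤ := by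
    rw [eq_top_iff, ← hspan, Submodule.span_le]
    rintro _ ⟨x, hx, rfl⟩
    have : x = y := by
      have := hy hx
      simpa using this
    rw [this]
    exact Submodule.mem_span_singleton_self _
  set φ := KaehlerDifferential.map k k C F with hφ
  have hloc : IsLocalizedModule C⁰ φ := KaehlerDifferential.isLocalizedModule_map k C F C⁰
  obtain ⟨⟨ω, b⟩, hω⟩ := IsLocalizedModule.surj C⁰ φ (KaehlerDifferential.D k F y)
  have hb0 : algebraMap C F b ≠ 0 := by
    intro h
    exact nonZeroDivisors.coe_ne_zero b ((FaithfulSMul.algebraMap_injective C F) (by rw [h, map_zero]))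
  have htors : Module.IsTorsion C (KaehlerDifferential k C ⧸ Submodule.span C {ω}) := by
    intro m
    obtain ⟨m, rfl⟩ := Submodule.Quotient.mk_surjective _ m
    have hq : φ m ∈ Submodule.span F {KaehlerDifferential.D k F y} := by
      rw [hspan2]
      exact Submodule.mem_top
    rw [Submodule.mem_span_singleton] at hq
    obtain ⟨q, hq⟩ := hq
    obtain ⟨a, c, rfl⟩ := IsLocalization.exists_mk'_eq C⁰ q
    have hω' : (b : C) • KaehlerDifferential.D k F y = φ ω := hω
    have h1 : φ (((b : C) * (c : C)) • m) = φ (a • ω) := by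
      rw [map_smul, map_smul, ← hω', ← hq, ← algebraMap_smul F ((b : C) * (c : C)),
        ← algebraMap_smul F a, ← algebraMap_smul F (b : C), smul_smul, smul_smul, map_mul,
        mul_assoc, IsLocalization.mk'_spec', mul_comm]
    obtain ⟨e, he⟩ := (IsLocalizedModule.eq_iff_exists C⁰ φ).mp h1
    have he' : (e : C) • (((b : C) * (c : C)) • m) = (e : C) • (a • ω) := he
    refine ⟨e * (b * c), ?_⟩
    show ((e : C) * ((b : C) * (c : C))) • Submodule.Quotient.mk m =
      (0 : KaehlerDifferential k C ⧸ Submodule.span C {ω})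
    rw [← Submodule.Quotient.mk_smul, Submodule.Quotient.mk_eq_zero, mul_smul, he',
      Submodule.mem_span_singleton]
    exact ⟨(e : C) * a, by rw [mul_smul]⟩
  obtain ⟨h, hh1, hh2⟩ := Submodule.annihilator_top_inter_nonZeroDivisors htors
  refine ⟨ω, h, nonZeroDivisors.ne_zero hh2, ?_⟩
  intro c
  have h1 := Submodule.mem_annihilator.mp hh1 (Submodule.Quotient.mk (KaehlerDifferential.D k C c))
    Submodule.mem_top
  rw [← Submodule.Quotient.mk_smul, Submodule.Quotient.mk_eq_zero,
    Submodule.mem_span_singleton] at h1
  obtain ⟨a, ha⟩ := h1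
  exact ⟨a, ha.symm⟩

/-- the differential at a point -/
noncomputable def ptDer {k C : Type} [Field k] [CommRing C] [Algebra k C] (x : C →ₐ[k] k) :
    Derivation k C (RingHom.ker x).Cotangent where
  toFun c := (RingHom.ker x).toCotangent ⟨c - algebraMap k C (x c), by
    rw [RingHom.mem_ker, map_sub, AlgHom.commutes]
    exact sub_self _⟩
  map_add' a b := by
    rw [← map_add]
    congr 1
    ext
    push_cast
    rw [map_add, map_add]
    ring
  map_smul' r a := by
    rw [RingHom.id_apply, ← algebraMap_smul C r ((RingHom.ker x).toCotangent _), ← map_smul]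
    congr 1
    ext
    simp only [Submodule.coe_smul, smul_eq_mul, Algebra.smul_def, map_mul, AlgHom.commutes]
    rw [Algebra.algebraMap_self, RingHom.id_apply]
    ring
  map_one_eq_zero' := by
    show (RingHom.ker x).toCotangent _ = 0
    rw [Ideal.toCotangent_eq_zero]
    show (1 : C) - algebraMap k C (x 1) ∈ _
    rw [map_one, map_one, sub_self]
    exact Submodule.zero_mem _
  leibniz' := by
    intro a b
    show (RingHom.ker x).toCotangent _ = a • (RingHom.ker x).toCotangent _ +
      b • (RingHom.ker x).toCotangent _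
    rw [← map_smul, ← map_smul, ← map_add, Ideal.toCotangent_eq]
    show (a * b - algebraMap k C (x (a * b))) - (a * (b - algebraMap k C (x b)) +
      b * (a - algebraMap k C (x a))) ∈ _
    have ha : a - algebraMap k C (x a) ∈ RingHom.ker x := by
      rw [RingHom.mem_ker, map_sub, AlgHom.commutes]
      exact sub_self _
    have hb : b - algebraMap k C (x b) ∈ RingHom.ker x := by
      rw [RingHom.mem_ker, map_sub, AlgHom.commutes]
      exact sub_self _
    have hab := Ideal.mul_mem_mul ha hb
    rw [← pow_two] at hab
    have h3 : (a * b - algebraMap k C (x (a * b))) - (a * (b - algebraMap k C (x b)) +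
      b * (a - algebraMap k C (x a))) =
        -((a - algebraMap k C (x a)) * (b - algebraMap k C (x b))) := by
      rw [map_mul, map_mul]
      ring
    rw [h3]
    exact neg_mem hab

theorem exists_smooth_point {k C : Type} [Field k] [IsAlgClosed k] [CommRing C] [IsDomain C]
    [Algebra k C] [Algebra.FiniteType k C] (hinf : ¬ Module.Finite k C)
    (hdep : ∀ a b : C, ¬ AlgebraicIndependent k ![a, b]) (g : C) (hg : g ≠ 0) :
    ∃ (x₀ : C →ₐ[k] k) (τ : C), x₀ g ≠ 0 ∧ x₀ τ = 0 ∧
      RingHom.ker x₀ ≤ Ideal.span {τ} ⊔ (RingHom.ker x₀) ^ 2 := by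
  obtain ⟨ω, h, hh, hω⟩ := exists_kaehler_generator hdep
  obtain ⟨x, hx⟩ := exists_point_ne_zero (k := k) (g * h) (mul_ne_zero hg hh)
  rw [map_mul] at hx
  obtain ⟨τ, hτ⟩ := Ideal.toCotangent_surjective _ ((ptDer x).liftKaehlerDifferential ω)
  refine ⟨x, τ, left_ne_zero_of_mul hx, ?_, ?_⟩
  · exact τ.2
  · intro c hc
    obtain ⟨a, ha⟩ := hω c
    have h1 := congrArg (ptDer x).liftKaehlerDifferential ha
    rw [map_smul, map_smul, Derivation.liftKaehlerDifferential_comp_D, ← hτ] at h1
    have h2 : ptDer x c = (RingHom.ker x).toCotangent ⟨c, hc⟩ := by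
      show (RingHom.ker x).toCotangent _ = _
      congr 1
      ext
      show c - algebraMap k C (x c) = c
      rw [RingHom.mem_ker.mp hc, map_zero, sub_zero]
    rw [h2, ← map_smul, ← map_smul, Ideal.toCotangent_eq] at h1
    have h3 : h * c - a * (τ : C) ∈ RingHom.ker x ^ 2 := h1
    have hhx : h - algebraMap k C (x h) ∈ RingHom.ker x := by
      rw [RingHom.mem_ker, map_sub, AlgHom.commutes]
      exact sub_self _
    have h4 : (h - algebraMap k C (x h)) * c ∈ RingHom.ker x ^ 2 := by
      rw [pow_two]
      exact Ideal.mul_mem_mul hhx hc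
    have h5 : algebraMap k C (x h) * c - a * (τ : C) ∈ RingHom.ker x ^ 2 := by
      have := sub_mem h3 h4
      convert this using 1
      ring
    have hxh : x h ≠ 0 := right_ne_zero_of_mul hx
    have h6 : c - (algebraMap k C (x h)⁻¹ * a) * (τ : C) ∈ RingHom.ker x ^ 2 := by
      have := Ideal.mul_mem_left _ (algebraMap k C (x h)⁻¹) h5
      convert this using 1
      rw [mul_sub, ← mul_assoc, ← map_mul, inv_mul_cancel₀ hxh, map_one, one_mul, mul_assoc]
    rw [Submodule.mem_sup]
    exact ⟨(algebraMap k C (x h)⁻¹ * a) * (τ : C), Ideal.mul_mem_left _ _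
      (Ideal.mem_span_singleton_self _), _, h6, by ring⟩

end Pool.Agent.K1
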