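import Pool.Agent.K1.L2Defs

/-!
Layer 2, row L2-10: a finitely generated algebra over a finite field has finitely many ideals
of bounded colength.
-/

namespace Pool.Agent.K1

theorem finite_algHom {K R : Type} [Field K] [Finite K] [CommRing R] [Algebra K R]
    [Algebra.FiniteType K R] (d : ℕ) :
    Finite (R →ₐ[K] Matrix (Fin d) (Fin d) K) := by
  obtain ⟨s, hs⟩ := (Algebra.FiniteType.out : (⊤ : Subalgebra K R).FG)
  have : Function.Injective
      (fun (φ : R →ₐ[K] Matrix (Fin d) (Fin d) K) (a : (s : Set R)) => φ (a : R)) := by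
    intro φ ψ h
    apply AlgHom.ext_of_adjoin_eq_top hs
    intro x hx
    exact congrFun h ⟨x, hx⟩
  exact Finite.of_injective _ this

theorem finite_ideals {K R : Type} [Field K] [Finite K] [CommRing R] [Algebra K R]
    [Algebra.FiniteType K R] (ρ : ℕ) :
    {I : Ideal R | Module.Finite K (R ⧸ I) ∧ Module.finrank K (R ⧸ I) ≤ ρ}.Finite := by
  have key : {I : Ideal R | Module.Finite K (R ⧸ I) ∧ Module.finrank K (R ⧸ I) ≤ ρ} ⊆
      ⋃ d ∈ Finset.range (ρ + 1), Set.range
        (fun φ : R →ₐ[K] Matrix (Fin d) (Fin d) K => RingHom.ker φ) := by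
    rintro I ⟨hI, hd⟩
    simp only [Set.mem_iUnion]
    refine ⟨Module.finrank K (R ⧸ I), Finset.mem_range.2 (by omega), ?_⟩
    let b := Module.finBasis K (R ⧸ I)
    refine ⟨(Algebra.leftMulMatrix b).comp (Ideal.Quotient.mkₐ K I), ?_⟩
    ext x
    simp only [RingHom.mem_ker]
    rw [AlgHom.comp_apply, map_eq_zero_iff _ (Algebra.leftMulMatrix_injective b)]
    exact Ideal.Quotient.eq_zero_iff_mem
  refine Set.Finite.subset ?_ key
  refine Set.Finite.biUnion (Finset.finite_toSet _) ?_
  intro d _
  have := finite_algHom (K := K) (R := R) d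
  exact Set.finite_range _

end Pool.Agent.K1
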