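import Pool.Agent.K1.L2Defs

/-!
Layer 2: two sections with the same residual zeros.
-/

namespace Pool.Agent.K1

open Module

section Order

variable {K C : Type} [Field K] [CommRing C] [Algebra K C]

/-- The order of an element at the point. -/
private def IsOrd (x₀ : C →ₐ[K] K) (n : ℕ) (c : C) : Prop :=
  c ∈ (RingHom.ker x₀) ^ n ∧ c ∉ (RingHom.ker x₀) ^ (n + 1)

private lemma IsOrd.le {x₀ : C →ₐ[K] K} {n j : ℕ} {c : C} (h : IsOrd x₀ n c)
    (hj : c ∈ (RingHom.ker x₀) ^ j) : j ≤ n := by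
  by_contra hcon
  exact h.2 (Ideal.pow_le_pow_right (by omega) hj)

private lemma IsOrd.eq {x₀ : C →ₐ[K] K} {n n' : ℕ} {c : C} (h : IsOrd x₀ n c)
    (h' : IsOrd x₀ n' c) : n = n' :=
  le_antisymm (h'.le h.1) (h.le h'.1)

private lemma IsOrd.ne_zero {x₀ : C →ₐ[K] K} {n : ℕ} {c : C} (h : IsOrd x₀ n c) : c ≠ 0 := by
  rintro rfl
  exact h.2 (zero_mem _)

private lemma IsOrd.mul {x₀ : C →ₐ[K] K} {τ e : C} (hx : LocalPt x₀ τ e) {n n' : ℕ} {c c' : C}
    (h : IsOrd x₀ n c) (h' : IsOrd x₀ n' c') : IsOrd x₀ (n + n') (c * c') := by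
  refine ⟨?_, hx.mul n n' c c' h.1 h.2 h'.1 h'.2⟩
  rw [pow_add]
  exact Ideal.mul_mem_mul h.1 h'.1

private lemma exists_isOrd {x₀ : C →ₐ[K] K} {τ e : C} (hx : LocalPt x₀ τ e) {c : C}
    (hc : c ≠ 0) : ∃ n, IsOrd x₀ n c := hx.ord c hc

private lemma isOrd_zero_iff {x₀ : C →ₐ[K] K} {c : C} : IsOrd x₀ 0 c ↔ x₀ c ≠ 0 := by
  constructor
  · intro h h0
    apply h.2
    rw [zero_add, pow_one]
    exact (RingHom.mem_ker).2 h0
  · intro h
    refine ⟨by simp, ?_⟩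
    rw [zero_add, pow_one]
    exact fun h0 => h ((RingHom.mem_ker).1 h0)

private lemma isOrd_tau_pow {x₀ : C →ₐ[K] K} {τ e : C} (hx : LocalPt x₀ τ e) (n : ℕ) :
    IsOrd x₀ n (τ ^ n) :=
  ⟨Ideal.pow_mem_pow ((RingHom.mem_ker).2 hx.hτ) n, hx.pow_notMem n⟩

private lemma isOrd_e_pow {x₀ : C →ₐ[K] K} {τ e : C} (hx : LocalPt x₀ τ e) (n : ℕ) :
    IsOrd x₀ 0 (e ^ n) := by
  rw [isOrd_zero_iff, map_pow, hx.he, one_pow]
  exact one_ne_zero

private lemma ideal_eq_top {x₀ : C →ₐ[K] K} {τ e ν : C} (hx : LocalPt x₀ τ e)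
    (hν : e + ν = 1) (J : Ideal C) (n : ℕ) (h1 : τ ^ n ∈ J) (h2 : ν ^ n ∈ J) (y : C)
    (hy : y ∈ J) (hy0 : x₀ y ≠ 0) : J = ⊤ := by
  by_contra hJ
  obtain ⟨M, hM, hJM⟩ := Ideal.exists_le_maximal J hJ
  have hτM : τ ∈ M := hM.isPrime.mem_of_pow_mem n (hJM h1)
  have hνM : ν ∈ M := hM.isPrime.mem_of_pow_mem n (hJM h2)
  have heM : e ∉ M := by
    intro he
    apply hM.ne_top
    rw [Ideal.eq_top_iff_one, ← hν]
    exact M.add_mem he hνM
  have hker : RingHom.ker x₀ ≤ M := by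
    intro z hz
    obtain ⟨w, hw⟩ := hx.dvd z ((RingHom.mem_ker).1 hz)
    have : e * z ∈ M := by rw [hw]; exact M.mul_mem_right _ hτM
    exact (hM.isPrime.mem_or_mem this).resolve_left heM
  have hsurj : Function.Surjective x₀ := fun a => ⟨algebraMap K C a, by simp⟩
  have hmax : (RingHom.ker x₀).IsMaximal := RingHom.ker_isMaximal_of_surjective _ hsurj
  have heq : RingHom.ker x₀ = M := hmax.eq_of_le hM.ne_top hker
  apply hy0
  have : y ∈ RingHom.ker x₀ := by rw [heq]; exact hJM hy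
  exact (RingHom.mem_ker).1 this

variable [IsDomain C]

/-- The element `x` with `τ ^ n * x = e ^ n * c` of the residual ideal. -/
private lemma exists_resid {x₀ : C →ₐ[K] K} {τ e ν : C} (hx : LocalPt x₀ τ e)
    (hν : e + ν = 1) {c : C} {n N : ℕ} (hN : IsOrd x₀ N c) (hn : c ∈ (RingHom.ker x₀) ^ n) :
    ∃ x ∈ Resid τ ν c n, IsOrd x₀ (N - n) x := by
  obtain ⟨x, hxx⟩ := hx.dvd_pow n c hn
  have hν0 : x₀ ν = 0 := by
    have h := congrArg x₀ hν
    rw [map_add, hx.he, map_one] at h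
    simpa using h
  obtain ⟨μ, hμ⟩ := hx.dvd ν hν0
  have hτn : τ ^ n ≠ 0 := pow_ne_zero _ hx.τ0
  have hle := hN.le hn
  refine ⟨x, ⟨⟨e ^ n, ?_⟩, ⟨μ ^ n, ?_⟩⟩, ?_⟩
  · rw [mul_comm x, ← hxx, mul_comm]
  · apply mul_left_cancel₀ hτn
    calc τ ^ n * (x * ν ^ n) = (τ ^ n * x) * ν ^ n := by ring
      _ = c * (e * ν) ^ n := by rw [← hxx]; ring
      _ = τ ^ n * (c * μ ^ n) := by rw [hμ]; ring
  · have hx0 : x ≠ 0 := by
      rintro rfl
      rw [mul_zero] at hxx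
      rcases mul_eq_zero.1 hxx with h | h
      · exact (isOrd_e_pow hx n).ne_zero h
      · exact hN.ne_zero h
    obtain ⟨m, hm⟩ := exists_isOrd hx hx0
    have h1 := (isOrd_tau_pow hx n).mul hx hm
    have h2 := (isOrd_e_pow hx n).mul hx hN
    rw [hxx] at h2
    have h3 := h1.eq h2
    have : m = N - n := by omega
    rwa [this] at hm

omit [IsDomain C] in
private lemma resid_ord_ge {x₀ : C →ₐ[K] K} {τ e ν : C} (hx : LocalPt x₀ τ e)
    {c : C} {n N m : ℕ} (hN : IsOrd x₀ N c) {x : C} (hxR : x ∈ Resid τ ν c n)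
    (hm : IsOrd x₀ m x) : N - n ≤ m := by
  obtain ⟨y, hy⟩ := hxR.1
  have h1 := hm.mul hx (isOrd_tau_pow hx n)
  have hy0 : y ≠ 0 := by
    rintro rfl
    rw [mul_zero] at hy
    exact h1.ne_zero hy
  obtain ⟨l, hl⟩ := exists_isOrd hx hy0
  have h2 := hN.mul hx hl
  rw [← hy] at h2
  have := h1.eq h2
  omega

omit [IsDomain C] in
/-- The local unit: `e ^ N * c = τ ^ N * y` with `y` not zero at the point. -/
private lemma exists_unit {x₀ : C →ₐ[K] K} {τ e : C} (hx : LocalPt x₀ τ e) {c : C} {N : ℕ}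
    (hN : IsOrd x₀ N c) : ∃ y, e ^ N * c = τ ^ N * y ∧ x₀ y ≠ 0 := by
  obtain ⟨y, hy⟩ := hx.dvd_pow N c hN.1
  refine ⟨y, hy, ?_⟩
  rw [← isOrd_zero_iff]
  have h2 := (isOrd_e_pow hx N).mul hx hN
  have hy0 : y ≠ 0 := by
    rintro rfl
    rw [mul_zero] at hy
    exact h2.ne_zero hy
  obtain ⟨m, hm⟩ := exists_isOrd hx hy0
  have h1 := (isOrd_tau_pow hx N).mul hx hm
  rw [← hy] at h1
  have h3 := h1.eq h2
  have : m = 0 := by omega
  rwa [this] at hm

/-- Divisibility from the local one. -/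
private lemma dvd_of_local {x₀ : C →ₐ[K] K} {τ e ν : C} (hx : LocalPt x₀ τ e)
    (hν : e + ν = 1) {a b : C} {n N : ℕ} (hN : IsOrd x₀ N a) (hb : b ∈ (RingHom.ker x₀) ^ N)
    (h1 : a ∣ b * τ ^ n) (h2 : a ∣ b * ν ^ n) : a ∣ b := by
  obtain ⟨y, hy, hy0⟩ := exists_unit hx hN
  obtain ⟨w, hw⟩ := hx.dvd_pow N b hb
  have hτn : τ ^ N ≠ 0 := pow_ne_zero _ hx.τ0
  have h3 : a ∣ b * y := by
    refine ⟨w, ?_⟩
    apply mul_left_cancel₀ hτn
    calc τ ^ N * (b * y) = b * (τ ^ N * y) := by ring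
      _ = (e ^ N * b) * a := by rw [← hy]; ring
      _ = τ ^ N * (a * w) := by rw [hw]; ring
  let J : Ideal C :=
    { carrier := {x | a ∣ b * x}
      add_mem' := fun {x y} hx hy => by
        show a ∣ b * (x + y)
        rw [mul_add]; exact dvd_add hx hy
      zero_mem' := by show a ∣ b * 0; simp
      smul_mem' := fun r x hx => by
        show a ∣ b * (r • x)
        rw [smul_eq_mul, mul_left_comm]; exact dvd_mul_of_dvd_right hx _ }
  have hJ : J = ⊤ := ideal_eq_top hx hν J n h1 h2 y h3 hy0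
  have h4 : (1 : C) ∈ J := by rw [hJ]; trivial
  have h5 : a ∣ b * 1 := h4
  rwa [mul_one] at h5

end Order

theorem resid_finrank {K C : Type} [Field K] [CommRing C] [IsDomain C] [Algebra K C]
    (x₀ : C →ₐ[K] K) (τ e : C) (hx : LocalPt x₀ τ e) (ν : C) (hν : x₀ ν = 0) (c : C)
    (hc0 : c ≠ 0) (n ρ : ℕ) (hcn : c ∈ (RingHom.ker x₀) ^ n)
    (hfin : Module.Finite K (C ⧸ Ideal.span {c}))
    (hdim : Module.finrank K (C ⧸ Ideal.span {c}) ≤ n + ρ) :
    Module.Finite K (C ⧸ Resid τ ν c n) ∧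
      Module.finrank K (C ⧸ Resid τ ν c n) ≤ 2 * ρ := by
  have hle : Ideal.span {c} ≤ (RingHom.ker x₀) ^ n := by
    rw [Ideal.span_singleton_le_iff_mem]; exact hcn
  have hfin' := hx.fin n
  -- the projection onto the quotient by the power of the maximal ideal
  let g : (C ⧸ Ideal.span {c}) →ₗ[K] (C ⧸ (RingHom.ker x₀) ^ n) :=
    (Ideal.Quotient.factorₐ K hle).toLinearMap
  have hg : ∀ x : C, g (Ideal.Quotient.mk (Ideal.span {c}) x) =
      Ideal.Quotient.mk ((RingHom.ker x₀) ^ n) x := fun x => rfl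
  have hgsurj : Function.Surjective g := by
    intro y
    obtain ⟨x, rfl⟩ := Ideal.Quotient.mk_surjective y
    exact ⟨Ideal.Quotient.mk _ x, hg x⟩
  have hker : finrank K (LinearMap.ker g) ≤ ρ := by
    have h1 := LinearMap.finrank_range_add_finrank_ker g
    rw [LinearMap.range_eq_top.2 hgsurj, finrank_top, hx.finrank n] at h1
    omega
  -- multiplication maps
  let f : C → C →ₗ[C] (C ⧸ Ideal.span {c}) := fun s =>
    (Submodule.mkQ (Ideal.span {c})).comp (LinearMap.mulRight C s)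
  have hf : ∀ s x : C, f s x = Ideal.Quotient.mk (Ideal.span {c}) (x * s) := fun s x => rfl
  have hf0 : ∀ s x : C, f s x = 0 ↔ c ∣ x * s := by
    intro s x
    rw [hf, Ideal.Quotient.eq_zero_iff_mem, Ideal.mem_span_singleton]
  have hR : ∀ s : C, s = τ ∨ s = ν → Resid τ ν c n ≤ LinearMap.ker (f (s ^ n)) := by
    rintro s (rfl | rfl) x hxR
    · exact LinearMap.mem_ker.2 ((hf0 _ _).2 hxR.1)
    · exact LinearMap.mem_ker.2 ((hf0 _ _).2 hxR.2)
  have hmem : ∀ s : C, x₀ s = 0 → ∀ x : C, g (f (s ^ n) x) = 0 := by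
    intro s hs x
    rw [hf, hg, Ideal.Quotient.eq_zero_iff_mem]
    exact Ideal.mul_mem_left _ _ (Ideal.pow_mem_pow ((RingHom.mem_ker).2 hs) n)
  let F : (s : C) → (hs : s = τ ∨ s = ν) → (C ⧸ Resid τ ν c n) →ₗ[K] (C ⧸ Ideal.span {c}) :=
    fun s hs => ((Resid τ ν c n).liftQ (f (s ^ n)) (hR s hs)).restrictScalars K
  have hF : ∀ s hs (x : C), F s hs (Ideal.Quotient.mk _ x) = f (s ^ n) x := fun s hs x => rfl
  have hFker : ∀ s hs, x₀ s = 0 → ∀ y, F s hs y ∈ LinearMap.ker g := by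
    intro s hs hs0 y
    obtain ⟨x, rfl⟩ := Ideal.Quotient.mk_surjective y
    exact LinearMap.mem_ker.2 ((congrArg g (hF s hs x)).trans (hmem s hs0 x))
  let Φ : (C ⧸ Resid τ ν c n) →ₗ[K] (LinearMap.ker g × LinearMap.ker g) :=
    ((F τ (Or.inl rfl)).codRestrict _ (hFker τ (Or.inl rfl) hx.hτ)).prod
      ((F ν (Or.inr rfl)).codRestrict _ (hFker ν (Or.inr rfl) hν))
  have hΦ : Function.Injective Φ := by
    rw [injective_iff_map_eq_zero]
    intro y hy
    obtain ⟨x, rfl⟩ := Ideal.Quotient.mk_surjective y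
    have h1 : F τ (Or.inl rfl) (Ideal.Quotient.mk _ x) = 0 :=
      congrArg Subtype.val (congrArg Prod.fst hy)
    have h2 : F ν (Or.inr rfl) (Ideal.Quotient.mk _ x) = 0 :=
      congrArg Subtype.val (congrArg Prod.snd hy)
    rw [Ideal.Quotient.eq_zero_iff_mem]
    exact ⟨(hf0 _ _).1 ((hF τ (Or.inl rfl) x).symm.trans h1),
      (hf0 _ _).1 ((hF ν (Or.inr rfl) x).symm.trans h2)⟩
  refine ⟨Module.Finite.of_injective Φ hΦ, ?_⟩
  have h1 := LinearMap.finrank_le_finrank_of_injective hΦ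
  rw [Module.finrank_prod] at h1
  omega

theorem resid_eq {K C : Type} [Field K] [CommRing C] [IsDomain C] [Algebra K C]
    (x₀ : C →ₐ[K] K) (τ e : C) (hx : LocalPt x₀ τ e) (ν : C) (hν : e + ν = 1)
    (c c' : C) (hc0 : c ≠ 0) (hc0' : c' ≠ 0) (n n' : ℕ) (hnn : n ≤ n')
    (hc : c ∈ (RingHom.ker x₀) ^ n) (hc' : c' ∈ (RingHom.ker x₀) ^ n')
    (hQ : Resid τ ν c n = Resid τ ν c' n') :
    ∃ h : C, c' = h * c ∧ Ideal.span {h} = (RingHom.ker x₀) ^ (n' - n) := by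
  obtain ⟨N, hN⟩ := exists_isOrd hx hc0
  obtain ⟨N', hN'⟩ := exists_isOrd hx hc0'
  have hNn := hN.le hc
  have hNn' := hN'.le hc'
  have hr : N - n = N' - n' := by
    apply le_antisymm
    · obtain ⟨x, hxR, hxo⟩ := exists_resid hx hν hN' hc'
      rw [← hQ] at hxR
      exact resid_ord_ge hx hN hxR hxo
    · obtain ⟨x, hxR, hxo⟩ := exists_resid hx hν hN hc
      rw [hQ] at hxR
      exact resid_ord_ge hx hN' hxR hxo
  have hself' : c' ∈ Resid τ ν c' n' := ⟨dvd_mul_right _ _, dvd_mul_right _ _⟩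
  have hself : c ∈ Resid τ ν c n := ⟨dvd_mul_right _ _, dvd_mul_right _ _⟩
  rw [← hQ] at hself'
  rw [hQ] at hself
  have hdvd : c ∣ c' := dvd_of_local hx hν hN
    (Ideal.pow_le_pow_right (by omega) hN'.1) hself'.1 hself'.2
  obtain ⟨h, hh⟩ := hdvd
  have hh0 : h ≠ 0 := by
    rintro rfl
    rw [mul_zero] at hh
    exact hc0' hh
  obtain ⟨M, hM⟩ := exists_isOrd hx hh0
  have hMM : M = n' - n := by
    have h1 := hN.mul hx hM
    rw [← hh] at h1
    have := h1.eq hN'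
    omega
  refine ⟨h, by rw [hh, mul_comm], ?_⟩
  apply le_antisymm
  · rw [Ideal.span_singleton_le_iff_mem, ← hMM]
    exact hM.1
  · intro z hz
    rw [Ideal.mem_span_singleton]
    have h1 : c' ∣ c * z := by
      apply dvd_of_local (n := n') hx hν hN'
      · have : N' = N + (n' - n) := by omega
        rw [this, pow_add]
        exact Ideal.mul_mem_mul hN.1 hz
      · have := dvd_mul_of_dvd_right hself.1 z
        convert this using 1
        ring
      · have := dvd_mul_of_dvd_right hself.2 z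
        convert this using 1
        ring
    rw [hh] at h1
    exact (mul_dvd_mul_iff_left hc0).1 h1

end Pool.Agent.K1
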