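import Pool.Agent.K1.L2Defs

/-!
L2-09: the second chart of the curve and the dimension count with both charts.
-/

set_option autoImplicit false

open Polynomial

namespace Pool.Agent.K1

section rv

variable {K C : Type} [Field K] [CommRing C] [IsDomain C] [Algebra K C]

theorem rv_of_pow (W : Submodule K C) (v : C) (b : ℕ) :
    ∀ y ∈ W ^ b, algebraMap C (FractionRing C) y / algebraMap C (FractionRing C) v ^ b ∈
      Rv K W v := by
  induction b with
  | zero =>
    intro y hy
    rw [pow_zero, Submodule.mem_one] at hy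
    obtain ⟨a, rfl⟩ := hy
    rw [pow_zero, div_one, ← IsScalarTower.algebraMap_apply]
    exact (Rv K W v).algebraMap_mem a
  | succ b ih =>
    intro y hy
    rw [pow_succ] at hy
    refine Submodule.mul_induction_on hy ?_ ?_
    · intro y1 h1 w hw
      rw [map_mul, pow_succ, mul_div_mul_comm]
      exact mul_mem (ih y1 h1) (Algebra.subset_adjoin ⟨w, hw, rfl⟩)
    · intro y1 y2 h1 h2
      rw [map_add, add_div]
      exact add_mem h1 h2

theorem mem_Rv (W : Submodule K C) (v : C) (hv : v ∈ W) (hv0 : v ≠ 0) (x : FractionRing C) :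
    x ∈ Rv K W v ↔ ∃ b : ℕ, ∃ y ∈ W ^ b,
      x = algebraMap C (FractionRing C) y / algebraMap C (FractionRing C) v ^ b := by
  have hv' : algebraMap C (FractionRing C) v ≠ 0 := by
    rw [Ne, map_eq_zero_iff _ (IsFractionRing.injective C (FractionRing C))]
    exact hv0
  constructor
  · intro hx
    induction hx using Algebra.adjoin_induction with
    | mem x hx =>
      obtain ⟨w, hw, rfl⟩ := hx
      exact ⟨1, w, by rwa [pow_one], by simp⟩
    | algebraMap a =>
      refine ⟨0, algebraMap K C a, ?_, ?_⟩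
      · rw [pow_zero, Submodule.mem_one]
        exact ⟨a, rfl⟩
      · rw [pow_zero, div_one, ← IsScalarTower.algebraMap_apply]
    | add x1 x2 _ _ h1 h2 =>
      obtain ⟨b1, y1, hy1, rfl⟩ := h1
      obtain ⟨b2, y2, hy2, rfl⟩ := h2
      refine ⟨b1 + b2, y1 * v ^ b2 + v ^ b1 * y2, ?_, ?_⟩
      · rw [pow_add]
        exact add_mem (Submodule.mul_mem_mul hy1 (Submodule.pow_mem_pow W hv b2))
          (Submodule.mul_mem_mul (Submodule.pow_mem_pow W hv b1) hy2)
      · rw [div_add_div _ _ (pow_ne_zero _ hv') (pow_ne_zero _ hv'), pow_add, map_add, map_mul,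
          map_mul, map_pow, map_pow]
    | mul x1 x2 _ _ h1 h2 =>
      obtain ⟨b1, y1, hy1, rfl⟩ := h1
      obtain ⟨b2, y2, hy2, rfl⟩ := h2
      refine ⟨b1 + b2, y1 * y2, ?_, ?_⟩
      · rw [pow_add]
        exact Submodule.mul_mem_mul hy1 hy2
      · rw [map_mul, pow_add, mul_div_mul_comm]
  · rintro ⟨b, y, hy, rfl⟩
    exact rv_of_pow W v b y hy

omit [IsDomain C] in
theorem rv_pow_mono (W : Submodule K C) (h1 : (1 : C) ∈ W) {i j : ℕ} (hij : i ≤ j) :
    W ^ i ≤ W ^ j := by
  intro x hx
  have h2 : (1 : C) ∈ W ^ (j - i) := by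
    have := Submodule.pow_mem_pow W h1 (j - i)
    rwa [one_pow] at this
  have h3 := Submodule.mul_mem_mul hx h2
  rw [mul_one, ← pow_add, Nat.add_sub_cancel' hij] at h3
  exact h3

omit [IsDomain C] in
theorem rv_union (W : Submodule K C) (h1 : (1 : C) ∈ W)
    (hgen : Algebra.adjoin K (W : Set C) = ⊤) (x : C) : ∃ j, x ∈ W ^ j := by
  have hx : x ∈ Algebra.adjoin K (W : Set C) := by rw [hgen]; trivial
  induction hx using Algebra.adjoin_induction with
  | mem x hx => exact ⟨1, by rwa [pow_one]⟩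
  | algebraMap a =>
    refine ⟨0, ?_⟩
    rw [pow_zero, Submodule.mem_one]
    exact ⟨a, rfl⟩
  | add x1 x2 _ _ h1' h2' =>
    obtain ⟨j1, h1'⟩ := h1'
    obtain ⟨j2, h2'⟩ := h2'
    exact ⟨j1 + j2, add_mem (rv_pow_mono W h1 (by omega) h1') (rv_pow_mono W h1 (by omega) h2')⟩
  | mul x1 x2 _ _ h1' h2' =>
    obtain ⟨j1, h1'⟩ := h1'
    obtain ⟨j2, h2'⟩ := h2'
    exact ⟨j1 + j2, by rw [pow_add]; exact Submodule.mul_mem_mul h1' h2'⟩

omit [IsDomain C] in
theorem hilb_finrank_add {W : Submodule K C} {v : C} {δ j₁ : ℕ} (H : Hilb W v δ j₁) (j : ℕ)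
    (hj : j₁ ≤ j) (N : ℕ) :
    Module.finrank K ↥(W ^ (N + j)) = Module.finrank K ↥(W ^ j) + δ * N := by
  induction N with
  | zero => rw [zero_add, mul_zero, add_zero]
  | succ N ih =>
    have h1 : N + 1 + j = (N + j) + 1 := by ring
    rw [h1, H.finrank (N + j) (by omega), ih]
    ring

/-- The count for one independent family. -/
theorem two_chart_card (W : Submodule K C) (v : C) (δ j₁ : ℕ) (H : Hilb W v δ j₁)
    (x₀ : C →ₐ[K] K) (τ e : C) (hx : LocalPt x₀ τ e) (hv : x₀ v = 0) (N n : ℕ) (c : C)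
    (hc0 : c ≠ 0) (hcW : c ∈ W ^ N) (hcn : c ∈ (RingHom.ker x₀) ^ n) (r : Rv K W v)
    (hr : (r : FractionRing C) =
      algebraMap C (FractionRing C) c / algebraMap C (FractionRing C) v ^ N)
    (s : Finset (Rv K W v ⧸ Ideal.span {r}))
    (hs : LinearIndependent K (fun i : s => (i : Rv K W v ⧸ Ideal.span {r}))) :
    n + s.card ≤ δ * N := by
  classical
  have hv' : algebraMap C (FractionRing C) v ≠ 0 := by
    rw [Ne, map_eq_zero_iff _ (IsFractionRing.injective C (FractionRing C))]
    exact H.v0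
  have hfin := hx.fin n
  -- numerators of the elements of `s`
  have h1 : ∀ t : Rv K W v ⧸ Ideal.span {r}, ∃ b : ℕ, ∃ y ∈ W ^ b, ∃ ρ : Rv K W v,
      Ideal.Quotient.mk _ ρ = t ∧ (ρ : FractionRing C) =
        algebraMap C (FractionRing C) y / algebraMap C (FractionRing C) v ^ b := by
    intro t
    obtain ⟨ρ, rfl⟩ := Ideal.Quotient.mk_surjective t
    obtain ⟨b, y, hy, h2⟩ := (mem_Rv W v H.v_mem H.v0 (ρ : FractionRing C)).1 ρ.2
    exact ⟨b, y, hy, ρ, rfl, h2⟩
  choose b y hy ρ hρ hρy using h1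
  -- a basis of `C / ker ^ n`
  let B := Module.finBasis K (C ⧸ (RingHom.ker x₀) ^ n)
  have h2 : ∀ i, ∃ (d : C) (j : ℕ), d ∈ W ^ j ∧ Ideal.Quotient.mk _ d = B i := by
    intro i
    obtain ⟨d, hd⟩ := Ideal.Quotient.mk_surjective (B i)
    obtain ⟨j, hj⟩ := rv_union W H.one_mem H.adjoin d
    exact ⟨d, j, hj, hd⟩
  choose d jd hd hdB using h2
  set j : ℕ := j₁ + n + s.sup b + Finset.univ.sup jd with hj
  have hjb : ∀ t ∈ s, b t + n ≤ N + j := by
    intro t ht
    have := Finset.le_sup (f := b) ht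
    omega
  have hjd : ∀ i, jd i ≤ N + j := by
    intro i
    have := Finset.le_sup (f := jd) (Finset.mem_univ i)
    omega
  -- the linear map
  let φ₁ : ↥(W ^ (N + j)) →ₗ[K] C ⧸ (RingHom.ker x₀) ^ n :=
    (Ideal.Quotient.mkₐ K ((RingHom.ker x₀) ^ n)).toLinearMap.comp (Submodule.subtype _)
  let φ₀ : ↥(W ^ (N + j)) →ₗ[K] Rv K W v :=
    { toFun := fun x => ⟨algebraMap C (FractionRing C) x /
        algebraMap C (FractionRing C) v ^ (N + j), rv_of_pow W v (N + j) x x.2⟩
      map_add' := by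
        intro x x'
        apply Subtype.ext
        simp [add_div]
      map_smul' := by
        intro a x
        apply Subtype.ext
        simp [Algebra.smul_def, mul_div_assoc, ← IsScalarTower.algebraMap_apply] }
  let φ₂ : ↥(W ^ (N + j)) →ₗ[K] Rv K W v ⧸ Ideal.span {r} :=
    (Ideal.Quotient.mkₐ K (Ideal.span {r})).toLinearMap.comp φ₀
  let φ := φ₁.prod φ₂
  have hWfin : ∀ i, Module.Finite K ↥(W ^ i) := by
    intro i
    exact Module.Finite.iff_fg.2 (H.fg.pow i)
  have := hWfin (N + j)
  have := hWfin j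
  -- upper bound of the range
  have hker : Module.finrank K ↥(W ^ j) ≤ Module.finrank K (LinearMap.ker φ) := by
    have hmem : ∀ x : ↥(W ^ j), c * (x : C) ∈ W ^ (N + j) := by
      intro x
      rw [pow_add]
      exact Submodule.mul_mem_mul hcW x.2
    have hzero : ∀ x : ↥(W ^ j), φ ⟨c * (x : C), hmem x⟩ = 0 := by
      intro x
      apply Prod.ext
      · change Ideal.Quotient.mk ((RingHom.ker x₀) ^ n) (c * (x : C)) = 0
        rw [Ideal.Quotient.eq_zero_iff_mem]
        exact Ideal.mul_mem_right _ _ hcn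
      · change Ideal.Quotient.mk (Ideal.span {r}) (φ₀ ⟨c * (x : C), hmem x⟩) = 0
        rw [Ideal.Quotient.eq_zero_iff_mem, Ideal.mem_span_singleton]
        refine ⟨⟨_, rv_of_pow W v j x x.2⟩, ?_⟩
        apply Subtype.ext
        change algebraMap C (FractionRing C) (c * (x : C)) /
          algebraMap C (FractionRing C) v ^ (N + j) = (r : FractionRing C) *
            (algebraMap C (FractionRing C) x / algebraMap C (FractionRing C) v ^ j)
        rw [hr, map_mul, pow_add (algebraMap C (FractionRing C) v) N j, mul_div_mul_comm]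
    let μ : ↥(W ^ j) →ₗ[K] LinearMap.ker φ :=
      { toFun := fun x => ⟨⟨c * (x : C), hmem x⟩, LinearMap.mem_ker.2 (hzero x)⟩
        map_add' := by
          intro x x'
          apply Subtype.ext
          apply Subtype.ext
          simp [mul_add]
        map_smul' := by
          intro a x
          apply Subtype.ext
          apply Subtype.ext
          simp }
    apply LinearMap.finrank_le_finrank_of_injective (f := μ)
    intro x x' hxx
    have h4 : c * (x : C) = c * (x' : C) := Subtype.ext_iff.1 (Subtype.ext_iff.1 hxx)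
    exact Subtype.ext (mul_left_cancel₀ hc0 h4)
  have hup : Module.finrank K (LinearMap.range φ) ≤ δ * N := by
    have h3 := LinearMap.finrank_range_add_finrank_ker φ
    rw [hilb_finrank_add H j (by omega) N] at h3
    omega
  -- lower bound of the range
  let ψ : LinearMap.range φ →ₗ[K] C ⧸ (RingHom.ker x₀) ^ n :=
    (LinearMap.fst K _ _).comp (Submodule.subtype _)
  have hsurj : LinearMap.range ψ = ⊤ := by
    rw [eq_top_iff, ← B.span_eq, Submodule.span_le]
    rintro _ ⟨i, rfl⟩
    have hmem : d i ∈ W ^ (N + j) := rv_pow_mono W H.one_mem (hjd i) (hd i)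
    exact ⟨⟨φ ⟨d i, hmem⟩, ⟨_, rfl⟩⟩, hdB i⟩
  have hlow : s.card ≤ Module.finrank K (LinearMap.ker ψ) := by
    have hmem : ∀ t : s, v ^ (N + j - b t) * y t ∈ W ^ (N + j) := by
      intro t
      have h4 := Submodule.mul_mem_mul (Submodule.pow_mem_pow W H.v_mem (N + j - b t)) (hy t)
      rw [← pow_add, Nat.sub_add_cancel (by have := hjb t t.2; omega)] at h4
      exact h4
    have hval : ∀ t : s, φ ⟨v ^ (N + j - b t) * y t, hmem t⟩ = (0, (t : Rv K W v ⧸ _)) := by
      intro t
      apply Prod.ext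
      · change Ideal.Quotient.mk ((RingHom.ker x₀) ^ n) (v ^ (N + j - b t) * y t) = 0
        rw [Ideal.Quotient.eq_zero_iff_mem]
        apply Ideal.mul_mem_right
        have h4 : v ∈ RingHom.ker x₀ := hv
        exact Ideal.pow_le_pow_right (by have := hjb t t.2; omega)
          (Ideal.pow_mem_pow h4 (N + j - b t))
      · change Ideal.Quotient.mk (Ideal.span {r}) (φ₀ ⟨v ^ (N + j - b t) * y t, hmem t⟩) = t
        refine Eq.trans ?_ (hρ t)
        congr 1
        apply Subtype.ext
        change algebraMap C (FractionRing C) (v ^ (N + j - b t) * y t) /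
          algebraMap C (FractionRing C) v ^ (N + j) = (ρ t : FractionRing C)
        have h5 : v ^ (N + j) = v ^ (N + j - b t) * v ^ b t := by
          rw [← pow_add, Nat.sub_add_cancel (by have := hjb t t.2; omega)]
        rw [hρy, ← map_pow, h5, map_mul, map_mul, mul_div_mul_left, map_pow]
        rw [map_pow]
        exact pow_ne_zero _ hv'
    let χ : s → LinearMap.ker ψ := fun t =>
      ⟨⟨φ ⟨v ^ (N + j - b t) * y t, hmem t⟩, ⟨_, rfl⟩⟩, by
        rw [LinearMap.mem_ker]
        change (φ ⟨v ^ (N + j - b t) * y t, hmem t⟩).1 = 0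
        rw [hval t]⟩
    let π : LinearMap.ker ψ →ₗ[K] Rv K W v ⧸ Ideal.span {r} :=
      (LinearMap.snd K _ _).comp ((Submodule.subtype _).comp (Submodule.subtype _))
    have hli : LinearIndependent K χ := by
      apply LinearIndependent.of_comp π
      have h4 : π ∘ χ = fun i : s => (i : Rv K W v ⧸ Ideal.span {r}) := by
        funext t
        change (φ ⟨v ^ (N + j - b t) * y t, hmem t⟩).2 = t
        rw [hval t]
      rw [h4]
      exact hs
    have h5 := hli.fintype_card_le_finrank
    simpa using h5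
  have h3 := LinearMap.finrank_range_add_finrank_ker ψ
  rw [hsurj, finrank_top, hx.finrank n] at h3
  omega

theorem two_chart_quot (W : Submodule K C) (v : C) (δ j₁ : ℕ) (H : Hilb W v δ j₁)
    (x₀ : C →ₐ[K] K)
    (τ e : C) (hx : LocalPt x₀ τ e) (hv : x₀ v = 0) (N n : ℕ) (c : C) (hc0 : c ≠ 0)
    (hcW : c ∈ W ^ N) (hcn : c ∈ (RingHom.ker x₀) ^ n) (r : Rv K W v)
    (hr : (r : FractionRing C) =
      algebraMap C (FractionRing C) c / algebraMap C (FractionRing C) v ^ N) :
    Module.Finite K (Rv K W v ⧸ Ideal.span {r}) ∧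
      n + Module.finrank K (Rv K W v ⧸ Ideal.span {r}) ≤ δ * N := by
  have h0 := two_chart_card W v δ j₁ H x₀ τ e hx hv N n c hc0 hcW hcn r hr
  have hn : n ≤ δ * N := by
    have := h0 ∅ (linearIndependent_empty_type)
    simpa using this
  have hrank : Module.rank K (Rv K W v ⧸ Ideal.span {r}) ≤ ((δ * N - n : ℕ) : Cardinal) := by
    apply rank_le
    intro s hs
    have := h0 s hs
    omega
  have hfin : Module.Finite K (Rv K W v ⧸ Ideal.span {r}) := by
    rw [← Module.rank_lt_aleph0_iff]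
    exact lt_of_le_of_lt hrank (Cardinal.natCast_lt_aleph0)
  refine ⟨hfin, ?_⟩
  have h2 : Module.finrank K (Rv K W v ⧸ Ideal.span {r}) ≤ δ * N - n :=
    Module.finrank_le_of_rank_le hrank
  omega

end rv

end Pool.Agent.K1
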