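import Pool.Agent.K1.L2Sat
import Pool.Agent.K1.L2Rv
import Pool.Agent.K1.L2Ideals
import Pool.Agent.K1.L2Resid

/-!
Layer 2, row L2-12: a section of some degree whose only zero is the point `x₀`
(over a finite field).
-/

open Polynomial

namespace Pool.Agent.K1

section

variable {K C : Type} [Field K] [CommRing C] [IsDomain C] [Algebra K C]

omit [IsDomain C] in
/-- The Hilbert function is affine for large argument. -/
theorem tors_finrank_eq {W : Submodule K C} {v : C} {δ j₁ : ℕ} (H : Hilb W v δ j₁) (N : ℕ) :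
    Module.finrank K ↥(W ^ (j₁ + N)) = Module.finrank K ↥(W ^ j₁) + δ * N := by
  induction N with
  | zero => simp
  | succ N ih =>
    have h := H.finrank (j₁ + N) (by omega)
    rw [show j₁ + (N + 1) = j₁ + N + 1 by ring, h, ih]
    ring

theorem tors_finrank_pos {W : Submodule K C} {v : C} {δ j₁ : ℕ} (H : Hilb W v δ j₁) (N : ℕ) :
    Module.Finite K ↥(W ^ N) ∧ 1 ≤ Module.finrank K ↥(W ^ N) := by
  have hfg : (W ^ N).FG := H.fg.pow N
  have hfin : Module.Finite K ↥(W ^ N) := Module.Finite.iff_fg.mpr hfg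
  refine ⟨hfin, ?_⟩
  have h1 : (1 : C) ∈ W ^ N := by
    have := Submodule.pow_mem_pow W H.one_mem N
    simpa using this
  have : Nontrivial ↥(W ^ N) := ⟨⟨⟨1, h1⟩, 0, by
    intro h
    have := congrArg Subtype.val h
    exact one_ne_zero this⟩⟩
  exact Module.finrank_pos

/-- The special sections. -/
theorem tors_exists_c {W : Submodule K C} {v : C} {δ j₁ : ℕ} (H : Hilb W v δ j₁)
    {x₀ : C →ₐ[K] K} {τ e : C} (hx : LocalPt x₀ τ e) (N : ℕ) :
    ∃ c : C, c ≠ 0 ∧ c ∈ W ^ N ∧
      c ∈ (RingHom.ker x₀) ^ (Module.finrank K ↥(W ^ N) - 1) := by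
  obtain ⟨hfin, hpos⟩ := tors_finrank_pos H N
  set n := Module.finrank K ↥(W ^ N) - 1 with hn
  have := hx.fin n
  let f : ↥(W ^ N) →ₗ[K] C ⧸ (RingHom.ker x₀) ^ n :=
    (Ideal.Quotient.mkₐ K ((RingHom.ker x₀) ^ n)).toLinearMap ∘ₗ (W ^ N).subtype
  have hlt : Module.finrank K (C ⧸ (RingHom.ker x₀) ^ n) < Module.finrank K ↥(W ^ N) := by
    rw [hx.finrank n]; omega
  have hker := LinearMap.ker_ne_bot_of_finrank_lt (f := f) hlt
  obtain ⟨w, hw, hw0⟩ := Submodule.exists_mem_ne_zero_of_ne_bot hker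
  refine ⟨w.1, fun h => hw0 (Subtype.ext h), w.2, ?_⟩
  have : (Ideal.Quotient.mk ((RingHom.ker x₀) ^ n)) w.1 = 0 := hw
  exact Ideal.Quotient.eq_zero_iff_mem.mp this

omit [IsDomain C] in
theorem tors_finiteType {W : Submodule K C} {v : C} {δ j₁ : ℕ} (H : Hilb W v δ j₁) :
    Algebra.FiniteType K C := by
  obtain ⟨s, hs⟩ := H.fg
  refine ⟨⟨s, ?_⟩⟩
  rw [← H.adjoin, ← hs, Algebra.adjoin_span]

theorem tors_Rv_finiteType {W : Submodule K C} {v : C} {δ j₁ : ℕ} (H : Hilb W v δ j₁) :
    Algebra.FiniteType K (Rv K W v) := by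
  classical
  obtain ⟨s, hs⟩ := H.fg
  rw [← Subalgebra.fg_iff_finiteType]
  let g : C →ₗ[K] FractionRing C :=
    { toFun := fun w => algebraMap C (FractionRing C) w / algebraMap C (FractionRing C) v
      map_add' := by intro a b; simp [add_div]
      map_smul' := by
        intro a b
        rw [Algebra.smul_def, Algebra.smul_def, map_mul, mul_div_assoc, RingHom.id_apply,
          ← IsScalarTower.algebraMap_apply K C (FractionRing C)] }
  have h1 : Rv K W v = Algebra.adjoin K (g '' (s : Set C)) := by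
    have : (fun w : C => algebraMap C (FractionRing C) w /
      algebraMap C (FractionRing C) v) '' (W : Set C) = ((W.map g : Submodule K _) : Set _) := rfl
    rw [Rv, this, ← hs, Submodule.map_span, Algebra.adjoin_span]
  rw [h1, ← Finset.coe_image]
  exact Subalgebra.fg_adjoin_finset _

theorem tors_finite [Finite K] (W : Submodule K C) (v : C) (δ j₁ : ℕ) (H : Hilb W v δ j₁)
    (x₀ : C →ₐ[K] K) (τ e : C) (hx : LocalPt x₀ τ e) (hv : x₀ v = 0) : Tors W v x₀ := by
  classical
  have hFT := tors_finiteType H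
  have hFT' := tors_Rv_finiteType H
  have hδ := H.δ_pos
  -- the orders
  set D0 := Module.finrank K ↥(W ^ j₁) with hD0
  have hD0pos : 1 ≤ D0 := (tors_finrank_pos H j₁).2
  choose c hc0 hcW hcn using fun N => tors_exists_c H hx (j₁ + N)
  have hDN : ∀ N, Module.finrank K ↥(W ^ (j₁ + N)) = D0 + δ * N := tors_finrank_eq H
  have hcn' : ∀ N, c N ∈ (RingHom.ker x₀) ^ (D0 - 1 + δ * N) := by
    intro N
    have h := hcn N
    rw [hDN N] at h
    rwa [show D0 + δ * N - 1 = D0 - 1 + δ * N by omega] at h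
  -- the elements of the other chart
  have hmem : ∀ N, algebraMap C (FractionRing C) (c N) /
      algebraMap C (FractionRing C) v ^ (j₁ + N) ∈ Rv K W v := by
    intro N
    rw [mem_Rv W v H.v_mem H.v0]
    exact ⟨j₁ + N, c N, hcW N, rfl⟩
  let r : ℕ → Rv K W v := fun N => ⟨_, hmem N⟩
  have hr : ∀ N, (r N : FractionRing C) = algebraMap C (FractionRing C) (c N) /
      algebraMap C (FractionRing C) v ^ (j₁ + N) := fun N => rfl
  have h2 : ∀ N, Module.Finite K (Rv K W v ⧸ Ideal.span {r N}) ∧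
      D0 - 1 + δ * N + Module.finrank K (Rv K W v ⧸ Ideal.span {r N}) ≤ δ * (j₁ + N) :=
    fun N => two_chart_quot W v δ j₁ H x₀ τ e hx hv (j₁ + N) _ (c N) (hc0 N) (hcW N)
      (hcn' N) (r N) (hr N)
  have hle : D0 - 1 ≤ δ * j₁ := by
    have := (h2 0).2
    simp only [mul_zero, add_zero] at this
    omega
  obtain ⟨ρ, hρ⟩ := Nat.exists_eq_add_of_le hle
  have hρN : ∀ N, δ * (j₁ + N) = D0 - 1 + δ * N + ρ := by
    intro N
    rw [mul_add, hρ]; ring
  have h3 : ∀ N, Module.Finite K (Rv K W v ⧸ Ideal.span {r N}) ∧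
      Module.finrank K (Rv K W v ⧸ Ideal.span {r N}) ≤ ρ := by
    intro N
    refine ⟨(h2 N).1, ?_⟩
    have := (h2 N).2
    rw [hρN N] at this
    omega
  have hν : x₀ (1 - e) = 0 := by rw [map_sub, map_one, hx.he, sub_self]
  have h4 : ∀ N, Module.Finite K (C ⧸ Resid τ (1 - e) (c N) (D0 - 1 + δ * N)) ∧
      Module.finrank K (C ⧸ Resid τ (1 - e) (c N) (D0 - 1 + δ * N)) ≤ 2 * ρ := by
    intro N
    have hs := sat_quot W v δ j₁ H (j₁ + N) (c N) (hc0 N)
      ⟨0, by simpa using hcW N⟩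
    exact resid_finrank x₀ τ e hx (1 - e) hν (c N) (hc0 N) _ ρ (hcn' N) hs.1
      (by rw [← hρN N]; exact hs.2)
  -- pigeonhole
  let F : ℕ → Ideal C × Ideal (Rv K W v) := fun N =>
    (Resid τ (1 - e) (c N) (D0 - 1 + δ * N), Ideal.span {r N})
  have hFfin := (finite_ideals (K := K) (R := C) (2 * ρ)).prod
    (finite_ideals (K := K) (R := Rv K W v) ρ)
  have hmaps : Set.MapsTo F Set.univ
      ({I : Ideal C | Module.Finite K (C ⧸ I) ∧ Module.finrank K (C ⧸ I) ≤ 2 * ρ} ×ˢ
        {I : Ideal (Rv K W v) | Module.Finite K (Rv K W v ⧸ I) ∧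
          Module.finrank K (Rv K W v ⧸ I) ≤ ρ}) :=
    fun N _ => Set.mk_mem_prod (h4 N) (h3 N)
  obtain ⟨N₁, -, N₂, -, hne, hF⟩ := Set.infinite_univ.exists_ne_map_eq_of_mapsTo hmaps hFfin
  -- order the two
  obtain ⟨N, N', hlt, hF⟩ : ∃ N N', N < N' ∧ F N = F N' := by
    rcases lt_or_gt_of_ne hne with h | h
    · exact ⟨N₁, N₂, h, hF⟩
    · exact ⟨N₂, N₁, h, hF.symm⟩
  clear hne
  have hF1 : Resid τ (1 - e) (c N) (D0 - 1 + δ * N) =
      Resid τ (1 - e) (c N') (D0 - 1 + δ * N') := congrArg Prod.fst hF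
  have hF2 : Ideal.span {r N} = Ideal.span {r N'} := congrArg Prod.snd hF
  have hmono : δ * N ≤ δ * N' := Nat.mul_le_mul_left _ hlt.le
  obtain ⟨h, hh, hspan⟩ := resid_eq x₀ τ e hx (1 - e) (by ring) (c N) (c N') (hc0 N) (hc0 N')
    _ _ (by omega) (hcn' N) (hcn' N') hF1
  have hinj : Function.Injective (algebraMap C (FractionRing C)) :=
    IsFractionRing.injective C (FractionRing C)
  have hv' : algebraMap C (FractionRing C) v ≠ 0 := by
    intro h0
    exact H.v0 (hinj (by rw [h0, map_zero]))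
  have hvp : ∀ n, algebraMap C (FractionRing C) v ^ n ≠ 0 := fun n => pow_ne_zero n hv'
  obtain ⟨a, ha⟩ := Nat.exists_eq_add_of_lt hlt
  -- first relation
  obtain ⟨z, hz⟩ : ∃ z, r N' = z * r N := by
    have : r N' ∈ Ideal.span {r N} := by
      rw [hF2]; exact Ideal.mem_span_singleton_self _
    obtain ⟨z, hz⟩ := Ideal.mem_span_singleton'.mp this
    exact ⟨z, hz.symm⟩
  obtain ⟨z', hz'⟩ : ∃ z, r N = z * r N' := by
    have : r N ∈ Ideal.span {r N'} := by
      rw [← hF2]; exact Ideal.mem_span_singleton_self _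
    obtain ⟨z, hz⟩ := Ideal.mem_span_singleton'.mp this
    exact ⟨z, hz.symm⟩
  obtain ⟨E, y, hy, hyz⟩ := (mem_Rv W v H.v_mem H.v0 _).mp z.2
  obtain ⟨E', y', hy', hyz'⟩ := (mem_Rv W v H.v_mem H.v0 _).mp z'.2
  have hcN' : algebraMap C (FractionRing C) (c N) ≠ 0 := by
    intro h0
    exact hc0 N (hinj (by rw [h0, map_zero]))
  have e1 : v ^ E * h = v ^ (a + 1) * y := by
    apply hinj
    have e := congrArg Subtype.val hz
    rw [MulMemClass.coe_mul, hr, hr, hyz, hh, map_mul] at e
    rw [map_mul, map_mul, map_pow, map_pow]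
    rw [div_mul_div_comm, div_eq_div_iff (hvp _) (mul_ne_zero (hvp _) (hvp _))] at e
    have e' : (algebraMap C (FractionRing C) (c N) * algebraMap C (FractionRing C) v ^ (j₁ + N)) *
        (algebraMap C (FractionRing C) v ^ E * algebraMap C (FractionRing C) h) =
        (algebraMap C (FractionRing C) (c N) * algebraMap C (FractionRing C) v ^ (j₁ + N)) *
        (algebraMap C (FractionRing C) v ^ (a + 1) * algebraMap C (FractionRing C) y) := by
      rw [ha] at e
      calc _ = algebraMap C (FractionRing C) h * algebraMap C (FractionRing C) (c N) *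
            (algebraMap C (FractionRing C) v ^ E *
              algebraMap C (FractionRing C) v ^ (j₁ + N)) := by ring
        _ = _ := e
        _ = _ := by ring
    exact mul_left_cancel₀ (mul_ne_zero hcN' (hvp _)) e'
  have e2 : h * y' = v ^ (E' + (a + 1)) := by
    apply hinj
    have e := congrArg Subtype.val hz'
    rw [MulMemClass.coe_mul, hr, hr, hyz', hh, map_mul] at e
    rw [map_mul, map_pow]
    rw [div_mul_div_comm, div_eq_div_iff (hvp _) (mul_ne_zero (hvp _) (hvp _))] at e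
    have e' : (algebraMap C (FractionRing C) (c N) * algebraMap C (FractionRing C) v ^ (j₁ + N)) *
        (algebraMap C (FractionRing C) h * algebraMap C (FractionRing C) y') =
        (algebraMap C (FractionRing C) (c N) * algebraMap C (FractionRing C) v ^ (j₁ + N)) *
        (algebraMap C (FractionRing C) v ^ (E' + (a + 1))) := by
      rw [ha] at e
      calc _ = algebraMap C (FractionRing C) y' * (algebraMap C (FractionRing C) h *
            algebraMap C (FractionRing C) (c N)) * algebraMap C (FractionRing C) v ^ (j₁ + N) := by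
              ring
        _ = _ := e.symm
        _ = _ := by ring
    exact mul_left_cancel₀ (mul_ne_zero hcN' (hvp _)) e'
  refine ⟨a + 1, D0 - 1 + δ * N' - (D0 - 1 + δ * N), E', h, y', by omega, ?_, hspan,
    ⟨E, ?_⟩, hy', e2⟩
  · have : δ * N < δ * N' := Nat.mul_lt_mul_of_pos_left hlt hδ
    omega
  · rw [e1, add_comm E (a + 1), pow_add]
    exact Submodule.mul_mem_mul (Submodule.pow_mem_pow W H.v_mem _) hy

end

end Pool.Agent.K1
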