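import Pool.Agent.K1.L2Defs
import Pool.Agent.K1.L2Noether
import Pool.Agent.K1.L2Smooth
import Pool.Agent.K1.L2LocalPt
import Pool.Agent.K1.L2Hilb
import Pool.Agent.K1.L2Tors
import Pool.Agent.K1.L2Descent
import Pool.Agent.K1.L2SatEv

/-!
L2-15 : the curve theorem (assembly).
-/

open Polynomial

namespace Pool.Agent.K1

theorem l2c_finiteType {K C : Type} [Field K] [CommRing C] [Algebra K C]
    (W : Submodule K C) (hW : W.FG) (hgen : Algebra.adjoin K (W : Set C) = ⊤) :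
    Algebra.FiniteType K C := by
  obtain ⟨S, hS⟩ := hW
  refine ⟨⟨S, ?_⟩⟩
  rw [← hS, Algebra.adjoin_span] at hgen
  exact hgen

theorem l2c_sat_mul {K C : Type} [Field K] [CommRing C] [Algebra K C] {W : Submodule K C}
    {v : C} {i j : ℕ} {g h : C} (hg : SatMem W v i g) (hh : SatMem W v j h) :
    SatMem W v (i + j) (g * h) := by
  obtain ⟨N, hN⟩ := hg
  obtain ⟨N', hN'⟩ := hh
  refine ⟨N + N', ?_⟩
  have h1 : v ^ (N + N') * (g * h) = (v ^ N * g) * (v ^ N' * h) := by ring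
  have h2 : N + N' + (i + j) = (N + i) + (N' + j) := by ring
  rw [h1, h2, pow_add W]
  exact Submodule.mul_mem_mul hN hN'

theorem l2c_sat_pow {K C : Type} [Field K] [CommRing C] [Algebra K C] {W : Submodule K C}
    {v : C} {i : ℕ} {g : C} (hg : SatMem W v i g) (n : ℕ) : SatMem W v (i * n) (g ^ n) := by
  induction n with
  | zero =>
    refine ⟨0, ?_⟩
    rw [pow_zero, pow_zero, Nat.mul_zero, add_zero, pow_zero, one_mul]
    exact Submodule.one_le.mp le_rfl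
  | succ n ih =>
    rw [pow_succ, Nat.mul_succ]
    exact l2c_sat_mul ih hg

theorem curve_main (p : ℕ) [Fact p.Prime] {k C : Type} [Field k] [IsAlgClosed k] [CharP k p]
    [Algebra (ZMod p) k] [Algebra.IsAlgebraic (ZMod p) k] [CommRing C] [IsDomain C]
    [Algebra k C] (hinf : ¬ Module.Finite k C)
    (hdep : ∀ a b : C, ¬ AlgebraicIndependent k ![a, b]) (W : Submodule k C) (hW : W.FG)
    (h1 : (1 : C) ∈ W) (hgen : Algebra.adjoin k (W : Set C) = ⊤) (g : C) (hg : g ≠ 0) :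
    ∃ (x₀ : C →ₐ[k] k) (τ e : C) (m M j₁ : ℕ) (b : C), LocalPt x₀ τ e ∧ x₀ g ≠ 0 ∧
      1 ≤ m ∧ 1 ≤ M ∧ 2 * m ≤ j₁ ∧ b ∈ W ^ m ∧ Ideal.span {b} = (RingHom.ker x₀) ^ M ∧
      ∀ j, j₁ ≤ j → ∀ c ∈ W ^ j, c ∈ (RingHom.ker x₀) ^ (2 * M) →
        ∃ c' ∈ W ^ (j - 2 * m), c = b ^ 2 * c' := by
  have : Algebra.FiniteType k C := l2c_finiteType W hW hgen
  have : IsNoetherianRing C := Algebra.FiniteType.isNoetherianRing k C
  have : Infinite k := IsAlgClosed.instInfinite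
  obtain ⟨v₁, hv₁, j₀, hN₁⟩ := exists_noether W hW h1 (fun a _ b _ => hdep a b)
  obtain ⟨x₀, τ, hxg, hτ, hker⟩ := exists_smooth_point hinf hdep g hg
  obtain ⟨v, hvdef⟩ : ∃ v : C, v = v₁ - algebraMap k C (x₀ v₁) := ⟨_, rfl⟩
  have hv : v ∈ W := by
    rw [hvdef, Algebra.algebraMap_eq_smul_one]
    exact W.sub_mem hv₁ (W.smul_mem _ h1)
  have hv0 : x₀ v = 0 := by
    rw [hvdef, map_sub, AlgHom.commutes]
    simp
  have hN : ∀ j, j₀ ≤ j → W ^ (j + 1) ≤ W ^ j ⊔ Submodule.span k {v} * W ^ j := by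
    intro j hj
    refine (hN₁ j hj).trans (sup_le le_sup_left ?_)
    rw [Submodule.mul_le]
    intro u hu w hw
    obtain ⟨c, rfl⟩ := Submodule.mem_span_singleton.mp hu
    have hv₁e : v₁ = v + algebraMap k C (x₀ v₁) := by rw [hvdef]; ring
    have he : c • v₁ * w = (c * x₀ v₁) • w + (c • v) * w := by
      rw [hv₁e, hvdef]
      simp only [Algebra.smul_def, map_mul]
      simp
      ring
    rw [he]
    exact Submodule.add_mem_sup (Submodule.smul_mem _ _ hw)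
      (Submodule.mul_mem_mul (Submodule.smul_mem _ _ (Submodule.mem_span_singleton_self v)) hw)
  obtain ⟨e, hx⟩ := exists_localPt hinf x₀ τ hτ hker
  obtain ⟨δ, j₂, H⟩ := exists_hilb hinf W hW h1 hgen v hv j₀ hN
  have hT : Tors W v x₀ := by
    refine tors_descent p hinf W hW h1 hgen v hv j₀ hN x₀ τ hτ hker hv0 ?_
    intro K C₀ _ _ _ _ _ W₀ v₀ j' x₁ τ₀ hinf' hW' h1' hgen' hv' hN' hτ' hker' hv0'
    have : Algebra.FiniteType K C₀ := l2c_finiteType W₀ hW' hgen'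
    have : IsNoetherianRing C₀ := Algebra.FiniteType.isNoetherianRing K C₀
    obtain ⟨e', hx'⟩ := exists_localPt hinf' x₁ τ₀ hτ' hker'
    obtain ⟨δ', j₂', H'⟩ := exists_hilb hinf' W₀ hW' h1' hgen' v₀ hv' j' hN'
    exact tors_finite W₀ v₀ δ' j₂' H' x₁ τ₀ e' hx' hv0'
  obtain ⟨a, M₀, r, b₀, y₀, ha, hM₀, hspan, hsat, hy₀, hby⟩ := hT
  obtain ⟨i₁, hi₁⟩ := sat_eventually W v δ j₂ H x₀ τ e hx
  obtain ⟨E, hE1, hE2⟩ : ∃ E : ℕ, 1 ≤ E ∧ i₁ ≤ a * E :=
    ⟨i₁ + 1, by omega, by nlinarith⟩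
  have hb0 : b₀ ≠ 0 := by
    rintro rfl
    rw [zero_mul] at hby
    exact H.v0 ((pow_eq_zero_iff (by omega)).mp hby.symm)
  refine ⟨x₀, τ, e, a * E, M₀ * E, 2 * (a * E) + i₁, b₀ ^ E, hx, hxg, Nat.mul_pos ha hE1,
    Nat.mul_pos hM₀ hE1, by omega, hi₁ _ hE2 _ (l2c_sat_pow hsat E), ?_, ?_⟩
  · rw [← Ideal.span_singleton_pow, hspan, pow_mul]
  · intro j hj c hc hcM
    have h2 : (RingHom.ker x₀) ^ (2 * (M₀ * E)) = Ideal.span {(b₀ ^ E) ^ 2} := by
      rw [← Ideal.span_singleton_pow, ← Ideal.span_singleton_pow, hspan, ← pow_mul, ← pow_mul]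
      congr 1
      ring
    rw [h2, Ideal.mem_span_singleton] at hcM
    obtain ⟨c', hc'⟩ := hcM
    refine ⟨c', hi₁ _ (by omega) _ ⟨2 * (r + a) * E, ?_⟩, hc'⟩
    have h3 : v ^ (2 * (r + a) * E) * c' = c * y₀ ^ (2 * E) := by
      rw [hc']
      have : v ^ (2 * (r + a) * E) = (v ^ (r + a)) ^ (2 * E) := by
        rw [← pow_mul]; congr 1; ring
      rw [this, ← hby]
      ring
    have h4 : 2 * (r + a) * E + (j - 2 * (a * E)) = j + r * (2 * E) := by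
      have : 2 * (r + a) * E = 2 * (a * E) + r * (2 * E) := by ring
      omega
    rw [h3, h4, pow_add W, pow_mul W]
    exact Submodule.mul_mem_mul hc (Submodule.pow_mem_pow _ hy₀ _)

end Pool.Agent.K1
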