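import Pool.Agent.K1.Arith2

set_option autoImplicit false

/-! # Arithmetic: the choice of the second weight, in every characteristic -/

namespace Pool.Agent.K1

/-- Arithmetic: the second weight, in characteristic two. -/
theorem arith_weight3 (j0 : ℕ) (hj0 : 1 ≤ j0) :
    ∃ c n0 : ℕ, 17 ≤ c ∧ ∀ e : ℕ, n0 ≤ 3 ^ e → ∀ M : ℕ, Nat.Coprime 3 M → c * 3 ^ e ≤ M →
      ∃ z a j : ℕ, z = 3 ^ e * j + a * M ∧ j0 ≤ a ∧ a < 3 ^ e ∧ z < 3 ^ e * M ∧
        3 ^ e * M < z + c * 3 ^ e ∧ (3 ^ e).Coprime z ∧ 16 * (3 ^ e) ^ 2 ≤ z ∧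
        (z - 4 * 3 ^ e).Coprime (4 * 3 ^ e - 2) ∧ ¬ 2 ∣ z - 4 * 3 ^ e ∧ ¬ 2 ∣ z - 4 := by
  classical
  refine ⟨4 * (3 * (j0 + 1)) + 17, 2 * (3 * (j0 + 1)) + 17, by omega, ?_⟩
  intro e hn M hM hcM
  set W : ℕ := 3 * (j0 + 1) with hW
  have hW1 : 1 ≤ W := Nat.mul_pos (by norm_num) (Nat.succ_pos _)
  clear_value W
  obtain ⟨n, hne⟩ : ∃ n : ℕ, n = 3 ^ e := ⟨_, rfl⟩
  rw [← hne] at hn hcM ⊢
  set c : ℕ := 4 * W + 17 with hc
  have hn0 : NeZero n := ⟨by omega⟩
  -- the first member of the window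
  have hcn : c * n + 3 ≤ n * M := by
    have h1 : c * n * n ≤ n * M := by
      calc c * n * n ≤ M * n := Nat.mul_le_mul_right n hcM
        _ = n * M := Nat.mul_comm _ _
    nlinarith
  obtain ⟨k0, hk0, hk0'⟩ : ∃ k0 : ℕ, n * M < 3 + (4 * n - 2) * k0 + c * n ∧
      3 + (4 * n - 2) * k0 + c * n ≤ n * M + (4 * n - 2) := by
    refine ⟨(n * M - c * n - 3) / (4 * n - 2) + 1, ?_, ?_⟩
    · have h1 := Nat.lt_mul_div_succ (n * M - c * n - 3) (b := 4 * n - 2) (by omega)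
      omega
    · have h1 := Nat.mul_div_le (n * M - c * n - 3) (4 * n - 2)
      rw [mul_add, mul_one]
      omega
  have hk01 : 1 ≤ k0 := by
    by_contra h
    have h0 : k0 = 0 := by omega
    rw [h0] at hk0
    omega
  -- the good member of each block
  have hblock : ∀ t : ℕ, ∃ k : ℕ, k0 + 3 * t ≤ k ∧ k < k0 + 3 * t + 3 ∧ k % 3 = 1 := by
    intro t
    refine ⟨k0 + 3 * t + (1 + 2 * (k0 % 3)) % 3, by omega, by omega, by omega⟩
  choose κ hκ1 hκ2 hκ3 using hblock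
  have hκW : ∀ t, t < j0 + 1 → κ t < k0 + W := by
    intro t ht
    have h1 := hκ2 t
    have h2 : 3 * t + 3 ≤ W := by
      rw [hW]
      calc 3 * t + 3 = 3 * (t + 1) := by ring
        _ ≤ 3 * (j0 + 1) := Nat.mul_le_mul_left 3 (by omega)
    omega
  have hκlt : ∀ t t', t < t' → κ t < κ t' := by
    intro t t' htt
    have h1 := hκ2 t
    have h2 := hκ1 t'
    omega
  have hMn : M.Coprime n := by
    rw [hne]
    exact hM.symm.pow_right e
  have hMi : (M : ZMod n) * (M : ZMod n)⁻¹ = 1 := ZMod.coe_mul_inv_eq_one M hMn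
  -- the residue
  obtain ⟨α, hα⟩ : ∃ α : ℕ → ℕ, α = fun k =>
      ((((3 + (4 * n - 2) * k : ℕ) : ℕ) : ZMod n) * (M : ZMod n)⁻¹).val := ⟨_, rfl⟩
  have hαlt : ∀ k, α k < n := by
    intro k
    rw [hα]
    exact ZMod.val_lt _
  have hαM : ∀ k, ((α k * M : ℕ) : ZMod n) = ((3 + (4 * n - 2) * k : ℕ) : ZMod n) := by
    intro k
    rw [hα, Nat.cast_mul, ZMod.natCast_zmod_val, mul_assoc, mul_comm ((M : ZMod n)⁻¹), hMi,
      mul_one]
  -- one of the members has a large residue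
  obtain ⟨t, ht, htα⟩ : ∃ t < j0 + 1, j0 ≤ α (κ t) := by
    by_contra hcon
    push Not at hcon
    have hmaps : ∀ t ∈ Finset.range (j0 + 1), α (κ t) ∈ Finset.range j0 := by
      intro t ht
      exact Finset.mem_range.2 (hcon t (Finset.mem_range.1 ht))
    obtain ⟨t, ht, t', ht', hne', heq⟩ := Finset.exists_ne_map_eq_of_card_lt_of_maps_to
      (by rw [Finset.card_range, Finset.card_range]; omega) hmaps
    rw [Finset.mem_range] at ht ht'
    have key : ∀ s s', s < s' → s' < j0 + 1 → α (κ s) = α (κ s') → False := by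
      intro s s' hss hs' he
      have h1 := hκlt s s' hss
      have h2 := hκW s' hs'
      have h3 := hκ1 s
      have h4 : ((3 + (4 * n - 2) * κ s : ℕ) : ZMod n) = ((3 + (4 * n - 2) * κ s' : ℕ) : ZMod n) := by
        rw [← hαM, ← hαM, he]
      rw [ZMod.natCast_eq_natCast_iff] at h4
      have h5 := (Nat.modEq_iff_dvd' (by
        have := Nat.mul_le_mul_left (4 * n - 2) h1.le
        omega)).1 h4
      have h6 : 3 + (4 * n - 2) * κ s' - (3 + (4 * n - 2) * κ s) =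
          (4 * n - 2) * (κ s' - κ s) := by
        rw [Nat.mul_sub]
        omega
      rw [h6] at h5
      have h7 : n ∣ 2 * (κ s' - κ s) := by
        have h8 : (4 * n - 2) * (κ s' - κ s) + 2 * (κ s' - κ s) = n * (4 * (κ s' - κ s)) := by
          rw [← Nat.add_mul, Nat.sub_add_cancel (by omega)]
          ring
        have h9 : n ∣ (4 * n - 2) * (κ s' - κ s) + 2 * (κ s' - κ s) := by
          rw [h8]
          exact dvd_mul_right _ _
        exact (Nat.dvd_add_right h5).1 h9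
      have h10 := Nat.le_of_dvd (by omega) h7
      have h11 : k0 ≤ κ s := le_trans (Nat.le_add_right _ _) h3
      omega
    rcases lt_or_gt_of_ne hne' with h | h
    · exact key t t' h ht' heq
    · exact key t' t h ht heq.symm
  obtain ⟨k, hk⟩ : ∃ k, k = κ t := ⟨_, rfl⟩
  have hkk0 : k0 ≤ k := by
    rw [hk]
    exact le_trans (Nat.le_add_right _ _) (hκ1 t)
  have hkW : k < k0 + W := by
    rw [hk]
    exact hκW t ht
  have hc3 := hκ3 t
  rw [← hk] at hc3 htα
  obtain ⟨z, hz⟩ : ∃ z : ℕ, z = 3 + (4 * n - 2) * k := ⟨_, rfl⟩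
  have hz1 : n * M < z + c * n := by
    have h1 := Nat.mul_le_mul_left (4 * n - 2) hkk0
    omega
  have hz2 : z < n * M := by
    have h1 : (4 * n - 2) * k ≤ (4 * n - 2) * k0 + (4 * n - 2) * (W - 1) := by
      rw [← mul_add]
      exact Nat.mul_le_mul_left _ (by omega)
    have h2 : (4 * n - 2) * (W - 1) + (4 * n - 2) ≤ 4 * n * W := by
      calc (4 * n - 2) * (W - 1) + (4 * n - 2) = (4 * n - 2) * (W - 1 + 1) := by ring
        _ = (4 * n - 2) * W := by rw [Nat.sub_add_cancel hW1]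
        _ ≤ 4 * n * W := Nat.mul_le_mul_right W (by omega)
    have h3 : 4 * n * W < c * n := by
      rw [hc]
      nlinarith
    omega
  have hz16 : 16 * n ^ 2 ≤ z := by
    have h1 : c * n * n ≤ n * M := by
      calc c * n * n ≤ M * n := Nat.mul_le_mul_right n hcM
        _ = n * M := Nat.mul_comm _ _
    have h2 : 16 * n ^ 2 + c * n ≤ c * n * n := by
      have h3 : 17 ≤ n := by omega
      have h4 : 17 ≤ c := by omega
      obtain ⟨c', hc'⟩ : ∃ c', c = 17 + c' := ⟨c - 17, by omega⟩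
      rw [hc']
      nlinarith [Nat.zero_le c', mul_le_mul h3 h3 (by omega) (by omega), Nat.mul_le_mul_left c' h3,
        Nat.mul_le_mul_left (c' * n) (show 1 ≤ n by omega)]
    omega
  -- divisibility by `n`
  have haM : α k * M ≤ z := by
    have h1 : α k * M + M ≤ n * M := by
      calc α k * M + M = (α k + 1) * M := by ring
        _ ≤ n * M := Nat.mul_le_mul_right M (hαlt k)
    omega
  have hdvd : n ∣ z - α k * M := by
    have h1 := hαM k
    rw [← hz, ZMod.natCast_eq_natCast_iff] at h1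
    exact (Nat.modEq_iff_dvd' haM).1 h1
  obtain ⟨j, hj⟩ := hdvd
  have h4n : 4 * n ≤ z := by nlinarith
  have hz4n : z - 4 * n = (4 * n - 2) * (k - 1) + 1 := by
    have h1 : (4 * n - 2) * k = (4 * n - 2) * (k - 1) + (4 * n - 2) := by
      conv_lhs => rw [show k = (k - 1) + 1 by omega]
      ring
    omega
  have h3n : 3 ∣ n := by
    rw [hne]
    apply dvd_pow_self
    rintro rfl
    rw [pow_zero] at hne
    omega
  refine ⟨z, α k, j, by omega, htα, hαlt k, hz2, hz1, ?_, hz16, ?_, ?_, ?_⟩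
  · rw [hne]
    apply Nat.Coprime.pow_left
    rw [(Nat.Prime.coprime_iff_not_dvd (by norm_num : Nat.Prime 3))]
    intro hd
    obtain ⟨n', rfl⟩ := h3n
    obtain ⟨k', rfl⟩ : ∃ k', k = 3 * k' + 1 := ⟨k / 3, by omega⟩
    have h1 : (4 * (3 * n') - 2) * (3 * k' + 1) + 2 * (3 * k' + 1)
        = 3 * (4 * n' * (3 * k' + 1)) := by
      rw [← Nat.add_mul, Nat.sub_add_cancel (by omega)]
      ring
    omega
  · rw [hz4n, mul_comm, Nat.coprime_mul_right_add_left]
    exact Nat.coprime_one_left _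
  · have h1 : 2 ∣ (4 * n - 2) * (k - 1) := Dvd.dvd.mul_right (by omega) _
    omega
  · have h1 : 2 ∣ (4 * n - 2) * k := Dvd.dvd.mul_right (by omega) _
    omega

/-- Arithmetic: the second weight, in every characteristic `p`; the first weight is a power of a
prime `r` different from `p`. -/
theorem arith_weightR (p j0 : ℕ) [Fact p.Prime] (hj0 : 1 ≤ j0) :
    ∃ r : ℕ, r.Prime ∧ r ≠ p ∧
    ∃ c n0 : ℕ, 17 ≤ c ∧ ∀ e : ℕ, n0 ≤ r ^ e → ∀ M : ℕ, r.Coprime M → c * r ^ e ≤ M →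
      ∃ z a j : ℕ, z = r ^ e * j + a * M ∧ j0 ≤ a ∧ a < r ^ e ∧ z < r ^ e * M ∧
        r ^ e * M < z + c * r ^ e ∧ (r ^ e).Coprime z ∧ 16 * (r ^ e) ^ 2 ≤ z ∧
        (z - 4 * r ^ e).Coprime (4 * r ^ e - 2) ∧ ¬ p ∣ z - 4 * r ^ e ∧ ¬ p ∣ z - 4 := by
  by_cases hp2 : p = 2
  · subst hp2
    exact ⟨3, by norm_num, by norm_num, arith_weight3 j0 hj0⟩
  · refine ⟨2, by norm_num, fun h => hp2 h.symm, ?_⟩
    obtain ⟨c, n0, hc, h⟩ := arith_weight p j0 hp2 hj0
    exact ⟨c, n0, hc, fun e he M hM => h e he M (Nat.coprime_two_left.1 hM)⟩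

end Pool.Agent.K1
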