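import Pool.Agent.K1.BDefs
import Pool.Agent.K1.Avoid
import Pool.Agent.K1.Forms

/-!
Part III: an open set containing a suitable finite set of points contains the support of a chain
in any codimension, and the components of the chain are units at the remaining points; hyperplanes
that avoid a finite set of points.
-/

set_option autoImplicit false

open AlgebraicGeometry CategoryTheory

attribute [local instance] MvPolynomial.gradedAlgebra

namespace Pool.Agent.K1

/-- A closed set of points of the largest codimension is finite. -/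
theorem bavoid_finite {X : Scheme.{0}} [IsNoetherian X] {m : ℕ}
    (hdim : ∀ x : X, Order.coheight x ≤ (m : ℕ∞)) (T : Set X) (hT : IsClosed T)
    (h2 : ∀ y ∈ T, Order.coheight y = (m : ℕ∞)) : T.Finite := by
  obtain ⟨S, hS, hcl, hirr, hsup⟩ :=
    TopologicalSpace.NoetherianSpace.exists_finite_set_isClosed_irreducible hT
  rw [hsup]
  refine Set.Finite.sUnion hS fun t ht => ?_
  obtain ⟨η, hη⟩ := QuasiSober.sober (hirr t ht) (hcl t ht)
  refine (Set.finite_singleton η).subset fun y hy => ?_
  by_contra hne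
  have hηt : η ∈ t := hη.mem
  have hsp : η ⤳ y := hη.specializes hy
  have h1 := coheight_add_one_le_of_specializes hsp hne
  have h3 : Order.coheight η = (m : ℕ∞) := h2 η (by rw [hsup]; exact ⟨t, ht, hηt⟩)
  rw [h3] at h1
  have h4 : ((m : ℕ∞)) + 1 ≤ (m : ℕ∞) := h1.trans (hdim y)
  have h5 : ((m + 1 : ℕ) : ℕ∞) ≤ (m : ℕ∞) := by exact_mod_cast h4
  have h6 : m + 1 ≤ m := by exact_mod_cast h5
  omega

theorem exists_avoidK {X : Scheme.{0}} [IsIntegral X] [IsNoetherian X] {m : ℕ}
    (hdim : ∀ x : X, Order.coheight x ≤ ((m + 1 : ℕ) : ℕ∞)) (ξ : KChain X m) :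
    ∃ Z : Set X, Z.Finite ∧ ∀ V : X.Opens, Z ⊆ V → (∀ x : PointCo X m, ξ x ≠ 0 → x.1 ∈ V) ∧
      ∀ x : PointCo X m, ξ x ≠ 0 → ∀ y, y ∉ V → ∀ h : x.1 ⤳ y,
        ∃ u : (X.presheaf.stalk y)ˣ,
          ((Additive.toMul (ξ x) : (X.residueField x.1)ˣ) : X.residueField x.1) =
            evalAt h u := by
  classical
  -- a unit section near every point of codimension `m`
  have hsec : ∀ x : PointCo X m, ∃ (U : X.Opens) (hU : x.1 ∈ U) (s : Γ(X, U)),
      x.1 ∈ X.basicOpen s ∧
      (X.residue x.1).hom ((X.presheaf.germ U x.1 hU).hom s) =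
        ((Additive.toMul (ξ x) : (X.residueField x.1)ˣ) : X.residueField x.1) := by
    intro x
    obtain ⟨a, ha⟩ := X.residue_surjective x.1
      ((Additive.toMul (ξ x) : (X.residueField x.1)ˣ) : X.residueField x.1)
    obtain ⟨U, hU, s, hs⟩ := X.presheaf.exists_germ_eq a
    refine ⟨U, hU, s, ?_, ?_⟩
    · rw [X.mem_basicOpen s x.1 hU]
      have h0 : IsUnit a := by
        have : (X.residue x.1).hom a ≠ 0 := by
          have e : (X.residue x.1).hom a =
            ((Additive.toMul (ξ x) : (X.residueField x.1)ˣ) : X.residueField x.1) := ha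
          rw [e]; exact Units.ne_zero _
        exact (IsLocalRing.residue_ne_zero_iff_isUnit a).mp this
      rw [← hs] at h0
      exact h0
    · have hs' : (X.presheaf.germ U x.1 hU).hom s = a := hs
      rw [hs']
      exact ha
  choose U hU s hmem hres using hsec
  let T : PointCo X m → Set X := fun x => closure {x.1} \ (X.basicOpen (s x) : Set X)
  have hTfin : ∀ x, (T x).Finite := by
    intro x
    refine bavoid_finite hdim _ (isClosed_closure.sdiff (X.basicOpen (s x)).2) ?_
    rintro y ⟨hy, hy'⟩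
    have hsp : x.1 ⤳ y := specializes_iff_mem_closure.mpr hy
    have hne : y ≠ x.1 := by
      rintro rfl
      exact hy' (hmem x)
    have h1 := coheight_add_one_le_of_specializes hsp hne
    rw [x.2] at h1
    refine le_antisymm (hdim y) ?_
    rw [Nat.cast_add, Nat.cast_one]
    exact h1
  refine ⟨(⋃ x ∈ ξ.support, (T x ∪ {x.1})), ?_, ?_⟩
  · exact Set.Finite.biUnion (Finset.finite_toSet _) fun x _ => (hTfin x).union (Set.finite_singleton _)
  · intro V hV
    have hsupp : ∀ x : PointCo X m, ξ x ≠ 0 → T x ∪ {x.1} ⊆ (V : Set X) := by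
      intro x hx
      exact (Set.subset_biUnion_of_mem (u := fun x => T x ∪ {x.1})
        (DFinsupp.mem_support_iff.mpr hx)).trans hV
    refine ⟨fun x hx => hsupp x hx (Or.inr rfl), ?_⟩
    intro x hx y hy h
    have hyb : y ∈ X.basicOpen (s x) := by
      by_contra hn
      exact hy (hsupp x hx (Or.inl ⟨specializes_iff_mem_closure.mp h, hn⟩))
    have hyU : y ∈ U x := X.basicOpen_le (s x) hyb
    have hun : IsUnit ((X.presheaf.germ (U x) y hyU).hom (s x)) :=
      (X.mem_basicOpen (s x) y hyU).mp hyb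
    refine ⟨hun.unit, ?_⟩
    rw [IsUnit.unit_spec, evalAt, RingHom.comp_apply]
    have hg : (X.presheaf.stalkSpecializes h).hom ((X.presheaf.germ (U x) y hyU).hom (s x)) =
        (X.presheaf.germ (U x) x.1 (hU x)).hom (s x) := by
      have := X.presheaf.germ_stalkSpecializes hyU h
      have h2 := congrArg (fun f => f.hom (s x)) this
      exact h2
    rw [hg, hres x]

/-- a hyperplane that avoids a finite set -/
theorem exists_form_avoid {k : Type} [Field k] [IsAlgClosed k] {X : Scheme.{0}} [IsIntegral X]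
    {n : ℕ} (E : Embed k X n) (Z : Set X) (hZ : Z.Finite) :
    ∃ c : Fin (n + 1) → k, genericPoint X ∈ E.U c ∧ ∀ z ∈ Z, z ∈ E.U c := by
  classical
  have : Infinite k := IsAlgClosed.instInfinite
  have hY : (insert (genericPoint X) Z).Finite := hZ.insert _
  have key : ∃ c : Fin (n + 1) → k, ∀ z ∈ insert (genericPoint X) Z, z ∈ E.U c := by
    by_contra hcon
    push Not at hcon
    have h1 : ⊤ ∉ hY.toFinset.image (formsBad E) := by
      rw [Finset.mem_image]
      rintro ⟨z, -, h⟩
      exact forms_bad_ne_top E z h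
    apply Subspace.biUnion_ne_univ_of_top_notMem h1
    rw [Set.eq_univ_iff_forall]
    intro c
    obtain ⟨z, hz, hzc⟩ := hcon c
    exact Set.mem_biUnion (Finset.mem_coe.2 (Finset.mem_image_of_mem _ (hY.mem_toFinset.2 hz))) hzc
  obtain ⟨c, hc⟩ := key
  exact ⟨c, hc _ (Set.mem_insert _ _), fun z hz => hc z (Set.mem_insert_of_mem _ hz)⟩

end Pool.Agent.K1
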