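import Pool.Agent.K1.BPack
import Pool.Agent.K1.BTameV
import Pool.Agent.K1.BDom
import Pool.Agent.K1.BFinBd

/-!
From tame symbols at the dominating valuation rings to boundaries of pairs of functions.
-/

set_option autoImplicit false

open AlgebraicGeometry CategoryTheory

namespace Pool.Agent.K1

section

variable {X : Scheme.{0}} {η x : X} (h : η ⤳ x)

/-- The residue map of the stalk is surjective. -/
theorem bbt_residue_surj (x : X) : Function.Surjective (X.residue x).hom :=
  IsLocalRing.residue_surjective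

theorem bbt_isUnit_of_residue_ne {b : X.presheaf.stalk x} (hb : (X.residue x).hom b ≠ 0) :
    IsUnit b := by
  by_contra hu
  exact hb ((IsLocalRing.residue_eq_zero_iff b).2 hu)

/-- If `evalAt h b` is a unit of the image of the stalk, then `b` is a unit. -/
theorem bbt_isUnit_of_evalAt_mul {b c : X.presheaf.stalk x} (hbc : evalAt h b * evalAt h c = 1) :
    IsUnit b := by
  have h1 : evalAt h (b * c - 1) = 0 := by rw [map_sub, map_mul, hbc, map_one, sub_self]
  have h2 : ¬ IsUnit (b * c - 1) := fun hu => by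
    have := hu.map (evalAt h)
    rw [h1] at this
    exact not_isUnit_zero this
  have h3 : IsUnit (b * c) := by
    have h4 := IsLocalRing.isUnit_or_isUnit_of_add_one (a := b * c) (b := -(b * c - 1)) (by ring)
    rcases h4 with h4 | h4
    · exact h4
    · exact absurd ((IsUnit.neg_iff _).1 h4) h2
  exact isUnit_of_mul_isUnit_left h3

theorem bbt_mem_nonunits_iff_inv {K : Type} [Field K] (V : ValuationSubring K) (z : K) :
    z ∈ V.nonunits ↔ z = 0 ∨ z⁻¹ ∉ V := by
  rw [ValuationSubring.mem_nonunits_iff]
  by_cases h0 : z = 0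
  · simp [h0]
  · rw [← ValuationSubring.valuation_le_one_iff, map_inv₀, not_le, or_iff_right h0]
    have h1 : V.valuation z ≠ 0 := (Valuation.ne_zero_iff _).2 h0
    rw [one_lt_inv₀ (zero_lt_iff.2 h1)]

/-- The image of the stalk, if it is a valuation ring, is the only one which dominates it. -/
theorem bbt_eq_of_dominates {V0 V : ValuationSubring (X.residueField η)}
    (hV0 : ∀ f, f ∈ V0 ↔ ∃ b, evalAt h b = f) (hV : Dominates h V) : V = V0 := by
  ext z
  constructor
  · intro hz
    by_contra hz0
    have h0 : z ≠ 0 := fun h => hz0 (h ▸ V0.zero_mem)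
    have h1 : z⁻¹ ∈ V0 := (V0.mem_or_inv_mem z).resolve_left hz0
    obtain ⟨b, hb⟩ := (hV0 _).1 h1
    have h2 : ¬ IsUnit b := by
      intro hu
      obtain ⟨c, hc⟩ := hu.exists_right_inv
      apply hz0
      refine (hV0 z).2 ⟨c, ?_⟩
      have h3 : z⁻¹ * evalAt h c = 1 := by rw [← hb, ← map_mul, hc, map_one]
      field_simp at h3
      exact h3
    have h3 := (hV b).2 h2
    rw [hb, bbt_mem_nonunits_iff_inv, inv_inv] at h3
    rcases h3 with h3 | h3
    · exact h0 (inv_eq_zero.1 h3)
    · exact h3 hz
  · intro hz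
    obtain ⟨b, rfl⟩ := (hV0 z).1 hz
    exact (hV b).1

theorem bbt_dominates_self {V0 : ValuationSubring (X.residueField η)}
    (hV0 : ∀ f, f ∈ V0 ↔ ∃ b, evalAt h b = f) : Dominates h V0 := by
  intro b
  refine ⟨(hV0 _).2 ⟨b, rfl⟩, fun hb => ?_⟩
  rw [bbt_mem_nonunits_iff_inv]
  by_cases h0 : evalAt h b = 0
  · exact Or.inl h0
  · refine Or.inr fun h1 => hb ?_
    obtain ⟨c, hc⟩ := (hV0 _).1 h1
    exact bbt_isUnit_of_evalAt_mul h (b := b) (c := c) (by rw [hc, mul_inv_cancel₀ h0])

end

theorem bbt_norm_of_bijective {K L : Type} [Field K] [Field L] [Algebra K L]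
    (h : Function.Surjective (algebraMap K L)) (z : K) :
    Algebra.norm K (algebraMap K L z) = z := by
  have h1 : Module.finrank K L = 1 := by
    have e : K ≃ₗ[K] L := LinearEquiv.ofBijective (Algebra.linearMap K L)
      ⟨(algebraMap K L).injective, h⟩
    rw [← e.finrank_eq, Module.finrank_self]
  rw [Algebra.norm_algebraMap, h1, pow_one]

/-- The product of the norms of the tame symbols. -/
theorem bd_of_tame {k : Type} [Field k] [IsAlgClosed k] {X : Scheme.{0}}
    [IsIntegral X] [IsNoetherian X] {n : ℕ} (E : Embed k X n) (e : ℕ)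
    (η : PointCo X (e + 1)) (ξ : KChain X (e + 2))
    (hξ : ∀ x : PointCo X (e + 2), ξ x ≠ 0 → ∃ (h : η.1 ⤳ x.1)
      (V : ValuationSubring (X.residueField η.1)), Dominates h V ∧
      (∀ V', Dominates h V' → V' = V) ∧
      ∀ z : IsLocalRing.ResidueField V, ∃ (b : X.presheaf.stalk x.1) (b' : V),
        (b' : X.residueField η.1) = evalAt h b ∧ IsLocalRing.residue V b' = z)
    (N r : ℕ) (f g : Fin r → (X.residueField η.1)ˣ)
    (H : ∀ (x : PointCo X (e + 2)) (h : η.1 ⤳ x.1)
      (V : ValuationSubring (X.residueField η.1)), Dominates h V →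
      ∃ t : Fin r → (IsLocalRing.ResidueField V)ˣ,
        (∀ i, IsTameVal V (f i) (g i) (t i)) ∧
        ∀ (s : (X.presheaf.stalk x.1)ˣ) (s' : V),
          (X.residue x.1).hom s =
            ((Additive.toMul (ξ x) : (X.residueField x.1)ˣ) : X.residueField x.1) →
          (s' : X.residueField η.1) = evalAt h s →
          ((∏ i, t i : (IsLocalRing.ResidueField V)ˣ) : IsLocalRing.ResidueField V) =
            IsLocalRing.residue V s' ^ N) :
    N • ξ ∈ bdChains X (e + 1) := by
  classical
  have hbd := fun i => exists_bd E η (f i) (g i)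
  choose ξs hξs using hbd
  have hsum : N • ξ = ∑ i, ξs i := by
    refine DFinsupp.ext fun x => ?_
    apply Additive.toMul.injective
    rw [DFinsupp.smul_apply, toMul_nsmul, DFinsupp.finsetSum_apply, toMul_sum]
    by_cases h : η.1 ⤳ x.1
    swap
    · have h0 : ξ x = 0 := by
        by_contra hne
        exact h (hξ x hne).1
      rw [h0, toMul_zero, one_pow]
      exact (Finset.prod_eq_one fun i _ => (hξs i x).1 h).symm
    obtain ⟨hfin, hdom⟩ := dom_finite E η x h
    set s : Finset (ValuationSubring (X.residueField η.1)) := hfin.toFinset with hs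
    have hmem : ∀ V, V ∈ s ↔ Dominates h V := fun V => by
      rw [hs, Set.Finite.mem_toFinset, Set.mem_ofPred_eq]
    have hc : ∀ i, ∃ c : ValuationSubring (X.residueField η.1) → (X.residueField x.1)ˣ,
        (∀ V ∈ s, IsNormTame h V (f i) (g i) (c V)) ∧ Additive.toMul (ξs i x) = ∏ V ∈ s, c V := by
      intro i
      obtain ⟨s', c, h1, h2, h3⟩ := (hξs i x).2 h
      have : s' = s := Finset.ext fun V => by rw [h1, hmem]
      subst this
      exact ⟨c, h2, h3⟩
    choose c hc1 hc2 using hc
    -- the product over `i` of the norms at `V`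
    have hnorm : ∀ V ∈ s, ∀ (φ : X.residueField x.1 →+* IsLocalRing.ResidueField V)
        (_ : ∀ (b : X.presheaf.stalk x.1) (b' : V), (b' : X.residueField η.1) = evalAt h b →
          φ ((X.residue x.1).hom b) = IsLocalRing.residue V b')
        (t : Fin r → (IsLocalRing.ResidueField V)ˣ) (_ : ∀ i, IsTameVal V (f i) (g i) (t i)),
        ((∏ i, c i V : (X.residueField x.1)ˣ) : X.residueField x.1) =
          (letI := φ.toAlgebra; Algebra.norm (X.residueField x.1)
            ((∏ i, t i : (IsLocalRing.ResidueField V)ˣ) : IsLocalRing.ResidueField V)) := by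
      intro V hV φ hφ t ht
      let := φ.toAlgebra
      have h1 : ∀ i, ((c i V : (X.residueField x.1)ˣ) : X.residueField x.1) =
          Algebra.norm (X.residueField x.1)
            ((t i : (IsLocalRing.ResidueField V)ˣ) : IsLocalRing.ResidueField V) := by
        intro i
        obtain ⟨φ', t', hφ', -, ht', hc'⟩ := hc1 i V hV
        have e1 : φ' = φ := by
          ext z
          obtain ⟨b, rfl⟩ := bbt_residue_surj x.1 z
          rw [hφ' b ⟨evalAt h b, (((hmem V).1 hV) b).1⟩ rfl,
            hφ b ⟨evalAt h b, (((hmem V).1 hV) b).1⟩ rfl]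
        have e2 : t' = t i := isTameV_unique V (f i) (g i) (Units.ne_zero _) (Units.ne_zero _) _ _
          ((isTameVal_iff V _ _ _).1 ht') ((isTameVal_iff V _ _ _).1 (ht i))
        rw [hc', e2]
        subst e1
        rfl
      rw [Units.coe_prod, Units.coe_prod, map_prod]
      exact Finset.prod_congr rfl fun i _ => h1 i
    have hswap : ∏ i, Additive.toMul (ξs i x) = ∏ V ∈ s, ∏ i, c i V := by
      rw [Finset.prod_comm]
      exact Finset.prod_congr rfl fun i _ => hc2 i
    rw [hswap]
    by_cases h0 : ξ x = 0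
    · rw [h0, toMul_zero, one_pow]
      refine (Finset.prod_eq_one fun V hV => ?_).symm
      have hV' := (hmem V).1 hV
      obtain ⟨-, φ, hφ, hfin'⟩ := hdom V hV'
      obtain ⟨t, ht, hs'⟩ := H x h V hV'
      have h1 := hs' 1 1 (by rw [h0, toMul_zero, Units.val_one, Units.val_one, map_one])
        (by rw [Units.val_one, map_one]; rfl)
      apply Units.ext
      rw [hnorm V hV φ hφ t ht, h1, map_one, one_pow, Units.val_one]
      let := φ.toAlgebra
      exact map_one _
    · obtain ⟨h', V0, hd, huniq, hsurj⟩ := hξ x h0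
      have hsing : s = {V0} := by
        ext V
        rw [hmem, Finset.mem_singleton]
        exact ⟨fun hV => huniq V hV, fun hV => hV ▸ hd⟩
      rw [hsing, Finset.prod_singleton]
      obtain ⟨-, φ, hφ, hfin'⟩ := hdom V0 hd
      obtain ⟨t, ht, hs'⟩ := H x h V0 hd
      obtain ⟨b, hb⟩ := bbt_residue_surj x.1
        ((Additive.toMul (ξ x) : (X.residueField x.1)ˣ) : X.residueField x.1)
      have hbu : IsUnit b := bbt_isUnit_of_residue_ne (by rw [hb]; exact Units.ne_zero _)
      obtain ⟨u, rfl⟩ := hbu
      have h1 := hs' u ⟨evalAt h u, (hd _).1⟩ hb rfl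
      apply Units.ext
      rw [hnorm V0 (by rw [hsing]; exact Finset.mem_singleton_self _) φ hφ t ht, h1,
        ← hφ u ⟨evalAt h u, (hd _).1⟩ rfl, hb, Units.val_pow_eq_pow_val, ← map_pow φ]
      let := φ.toAlgebra
      symm
      refine bbt_norm_of_bijective (K := X.residueField x.1) (L := IsLocalRing.ResidueField V0) ?_ _
      intro z
      obtain ⟨b, b', hb, rfl⟩ := hsurj z
      exact ⟨(X.residue x.1).hom b, hφ b b' hb⟩
  rw [hsum]
  exact sum_mem fun i _ => AddSubgroup.subset_closure ⟨η, f i, g i, hξs i⟩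

end Pool.Agent.K1
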