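import Pool.Agent.K1.BPack
import Pool.Agent.K1.BAffDim
import Pool.Agent.K1.CycleRestrict
import Pool.Agent.K1.UnitInf

/-!
(B), part III: a valuation ring of the residue field of `η` that dominates the local ring at a
point `x` of codimension one in the closure of `η` is the valuation ring of a curve.
-/

set_option autoImplicit false

open AlgebraicGeometry CategoryTheory

attribute [local instance] MvPolynomial.gradedAlgebra

namespace Pool.Agent.K1

section aux

theorem bcd_inv_notMem {K : Type*} [Field K] {V : ValuationSubring K} {a : K}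
    (ha : a ∈ V.nonunits) (ha0 : a ≠ 0) : a⁻¹ ∉ V := by
  intro h
  rw [ValuationSubring.mem_nonunits_iff] at ha
  rw [← ValuationSubring.valuation_le_one_iff, map_inv₀] at h
  have h0 : V.valuation a ≠ 0 := (Valuation.ne_zero_iff _).2 ha0
  have h1 : (1 : V.ValueGroup) < (V.valuation a)⁻¹ := (one_lt_inv₀ (zero_lt_iff.2 h0)).2 ha
  exact absurd h (not_le.2 h1)

/-- The linear form of a unit vector. -/
theorem bcd_l_single {k : Type} [Field k] {X : Scheme.{0}} [IsIntegral X] {n : ℕ}
    (E : EmbedData k X n) (j : Fin (n + 1)) : E.l (Pi.single j 1) = E.w j := by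
  classical
  rw [EmbedData.l, Finset.sum_eq_single j]
  · rw [Pi.single_eq_same, map_one, one_mul]
  · intro i _ hi
    rw [Pi.single_eq_of_ne hi, map_zero, zero_mul]
  · intro h
    exact absurd (Finset.mem_univ j) h

/-- All functions have their value at `x` in `k` when the coordinates do. -/
theorem bcd_range {k : Type} [Field k] {X : Scheme.{0}} [IsIntegral X] {n : ℕ}
    (E : Embed k X n) (d : Fin (n + 1) → k) (hd : genericPoint X ∈ E.U d) (x : X)
    (hx : x ∈ E.U d) (a : Fin (n + 1) → Γ(X, E.U d))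
    (ha : ∀ i, (X.presheaf.germ (E.U d) (genericPoint X) hd).hom (a i) = E.w i / E.l d)
    (hax : ∀ i, ∃ c : k, (X.evaluation (E.U d) x hx).hom (a i) = E.kres x c)
    (f : Γ(X, E.U d)) : ∃ c : k, (X.evaluation (E.U d) x hx).hom f = E.kres x c := by
  have hne : Nonempty (E.U d) := ⟨⟨_, hd⟩⟩
  let g := (X.presheaf.germ (E.U d) (genericPoint X) hd).hom
  have hginj : Function.Injective g := Scheme.germToFunctionField_injective X (E.U d)
  let S : Subring Γ(X, E.U d) := (E.kres x).range.comap (X.evaluation (E.U d) x hx).hom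
  have h1 : Subring.closure (Set.range E.kf ∪ Set.range (fun j => E.w j / E.l d)) ≤
      S.map g := by
    rw [Subring.closure_le]
    rintro y (⟨b, rfl⟩ | ⟨i, rfl⟩)
    · refine ⟨E.strOn (E.U d) b, ?_, ?_⟩
      · exact ⟨b, (evaluation_strOn E.toEmbedData (E.U d) x hx b).symm⟩
      · exact X.presheaf.germ_res_apply (homOfLE le_top : E.U d ⟶ ⊤) (genericPoint X) hd (E.str b)
    · refine ⟨a i, ?_, ha i⟩
      obtain ⟨c, hc⟩ := hax i
      exact ⟨c, hc.symm⟩
  have h2 : g f ∈ Subring.closure (Set.range E.kf ∪ Set.range (fun j => E.w j / E.l d)) := by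
    have h0 : g f ∈ Set.range g := ⟨f, rfl⟩
    rw [E.sections d hd] at h0
    exact h0
  obtain ⟨b, hb, hbf⟩ := h1 h2
  rw [← hginj hbf]
  obtain ⟨c, hc⟩ := hb
  exact ⟨c, hc.symm⟩

/-- A point all of whose functions have values in `k` is closed. -/
theorem bcd_coheight {k : Type} [Field k] [IsAlgClosed k] {X : Scheme.{0}} [IsIntegral X]
    [IsNoetherian X] {n : ℕ} (E : Embed k X n) (m : ℕ)
    (hdim : ∀ x : X, Order.coheight x ≤ (m : ℕ∞))
    (hdim2 : ∃ x : X, Order.coheight x = (m : ℕ∞))
    (d : Fin (n + 1) → k) (hd : genericPoint X ∈ E.U d) (x : X) (hx : x ∈ E.U d)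
    (H : ∀ f : Γ(X, E.U d), ∃ c : k, (X.evaluation (E.U d) x hx).hom f = E.kres x c) :
    Order.coheight x = (m : ℕ∞) := by
  let _ := (E.strOn (E.U d)).toAlgebra
  choose v hv using H
  have hinj : Function.Injective (E.kres x) := (E.kres x).injective
  let z : Γ(X, E.U d) →ₐ[k] k :=
    { toFun := v
      map_one' := hinj (by rw [← hv, map_one, map_one])
      map_mul' := fun a b => hinj (by rw [← hv, map_mul, map_mul, hv, hv])
      map_zero' := hinj (by rw [← hv, map_zero, map_zero])
      map_add' := fun a b => hinj (by rw [← hv, map_add, map_add, hv, hv])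
      commutes' := fun a => hinj (by
        rw [← hv]
        exact evaluation_strOn E.toEmbedData (E.U d) x hx a) }
  obtain ⟨-, -, h3⟩ := affine_dimK E m hdim hdim2 d hd
  obtain ⟨y, hy, hco, hz⟩ := h3 z
  have hz' : ∀ a, (X.evaluation (E.U d) x hx).hom a = 0 ↔
      (X.evaluation (E.U d) y hy).hom a = 0 := by
    intro a
    rw [← hz a, hv a, map_eq_zero_iff _ hinj]
    exact Iff.rfl
  have hl : E.l d ≠ 0 := af_l_ne_zero E hd
  have hU : IsAffineOpen (E.U d) := (E.affine d hl).1
  have h4 : x ⤳ y := specializes_of_eval (E.U d) hU hx hy fun a => (hz' a).1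
  have h5 : y ⤳ x := specializes_of_eval (E.U d) hU hy hx fun a => (hz' a).2
  have h6 : x = y := (h4.antisymm h5).eq
  rw [h6]
  exact hco

end aux

theorem curveV_of_dom {k : Type} [Field k] [IsAlgClosed k] {X : Scheme.{0}}
    [IsIntegral X] [IsNoetherian X] {n : ℕ} (E : Embed k X n) (e : ℕ)
    (hdim : ∀ x : X, Order.coheight x ≤ ((e + 3 : ℕ) : ℕ∞))
    (hdim2 : ∃ x : X, Order.coheight x = ((e + 3 : ℕ) : ℕ∞))
    (η : PointCo X (e + 1)) (c : Fin (n + 1) → k) (hη : η.1 ∈ E.U c)
    (ω : Fin (n + 1) → X.residueField η.1) (hω : IsCoord E c hη ω)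
    (x : PointCo X (e + 2)) (h : η.1 ⤳ x.1) (V : ValuationSubring (X.residueField η.1))
    (hV : Dominates h V) :
    letI := (E.kres η.1).toAlgebra
    CurveV k (Fin.cons 1 ω : Fin (n + 1 + 1) → X.residueField η.1) V := by
  classical
  let _ := (E.kres η.1).toAlgebra
  obtain ⟨j, hj⟩ := E.cover x.1
  set d : Fin (n + 1) → k := Pi.single j 1 with hddef
  have hηd : η.1 ∈ E.U d := h.mem_open (E.U d).isOpen hj
  have hld : E.l d ≠ 0 := by
    intro h0
    have := E.empty d h0
    rw [this] at hj
    exact hj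
  have hlc : E.l c ≠ 0 := by
    intro h0
    have := E.empty c h0
    rw [this] at hη
    exact hη
  obtain ⟨hUd, hd⟩ := E.affine d hld
  obtain ⟨-, hc⟩ := E.affine c hlc
  -- the functions
  have hrat : ∀ i : Fin (n + 1), ∃ a : Γ(X, E.U d),
      (X.presheaf.germ (E.U d) (genericPoint X) hd).hom a = E.w i / E.l d := by
    intro i
    obtain ⟨a, ha, -⟩ := exists_ratio E (Pi.single i 1) d hd
    rw [bcd_l_single] at ha
    exact ⟨a, ha⟩
  choose a ha using hrat
  obtain ⟨ac, hac, hacU⟩ := exists_ratio E c d hd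
  have hev : ∀ f : Γ(X, E.U d), (X.evaluation (E.U d) η.1 hηd).hom f =
      evalAt h ((X.presheaf.germ (E.U d) x.1 hj).hom f) := fun f =>
    evaluation_evalAt (E.U d) h hηd hj f
  have hacne : (X.evaluation (E.U d) η.1 hηd).hom ac ≠ 0 := (hacU η.1 hηd).1 hη
  have hne : Nonempty (E.U d) := ⟨⟨_, hd⟩⟩
  have hnec : Nonempty (E.U c) := ⟨⟨_, hc⟩⟩
  -- the coordinates
  have hωa : ∀ i, ω i * (X.evaluation (E.U d) η.1 hηd).hom ac =
      (X.evaluation (E.U d) η.1 hηd).hom (a i) := by
    intro i
    obtain ⟨b, hb, hbω⟩ := hω i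
    have h1 : (X.presheaf.germ (E.U c) η.1 hη).hom b *
        (X.presheaf.germ (E.U d) η.1 hηd).hom ac =
        (X.presheaf.germ (E.U d) η.1 hηd).hom (a i) := by
      apply IsFractionRing.injective (X.presheaf.stalk η.1) X.functionField
      rw [map_mul]
      have e1 := Scheme.algebraMap_germ_eq_germToFunctionField X hη b
      have e2 := Scheme.algebraMap_germ_eq_germToFunctionField X hηd ac
      have e3 := Scheme.algebraMap_germ_eq_germToFunctionField X hηd (a i)
      rw [e1, e2, e3]
      have e4 := hb hc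
      have e5 := ha i
      have e6 := hac
      calc _ = (E.w i / E.l c) * (E.l c / E.l d) := by
            exact congrArg₂ (· * ·) e4 e6
        _ = E.w i / E.l d := by field_simp
        _ = _ := e5.symm
    rw [← hbω]
    have h2 := congrArg (X.residue η.1).hom h1
    rw [map_mul] at h2
    exact h2
  have haj : (X.evaluation (E.U d) η.1 hηd).hom (a j) = 1 := by
    have h1 : a j = 1 := by
      have hginj : Function.Injective (X.presheaf.germ (E.U d) (genericPoint X) hd).hom :=
        Scheme.germToFunctionField_injective X (E.U d)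
      apply hginj
      rw [ha j, map_one, hddef, bcd_l_single]
      apply div_self
      rw [← bcd_l_single]
      exact hld
    rw [h1, map_one]
  have hωj : ω j * (X.evaluation (E.U d) η.1 hηd).hom ac = 1 := by rw [hωa, haj]
  have hωj0 : ω j ≠ 0 := by
    intro h0
    rw [h0, zero_mul] at hωj
    exact zero_ne_one hωj
  have hinv : (ω j)⁻¹ = (X.evaluation (E.U d) η.1 hηd).hom ac :=
    inv_eq_of_mul_eq_one_right hωj
  have hdiv : ∀ i, ω i / ω j = (X.evaluation (E.U d) η.1 hηd).hom (a i) := by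
    intro i
    rw [div_eq_mul_inv, hinv, hωa]
  have hmem : ∀ f : Γ(X, E.U d), (X.evaluation (E.U d) η.1 hηd).hom f ∈ V := by
    intro f
    rw [hev]
    exact (hV _).1
  -- nonunits
  have hnon : ∀ f : Γ(X, E.U d), (X.evaluation (E.U d) x.1 hj).hom f = 0 →
      (X.evaluation (E.U d) η.1 hηd).hom f ∈ V.nonunits := by
    intro f hf
    rw [hev]
    exact (hV _).2 ((af_eval_eq_zero hj f).1 hf)
  have hunit : ∀ f : Γ(X, E.U d), (X.evaluation (E.U d) η.1 hηd).hom f ∈ V.nonunits →
      (X.evaluation (E.U d) x.1 hj).hom f = 0 := by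
    intro f hf
    rw [af_eval_eq_zero]
    rintro ⟨u, hu⟩
    have h1 : evalAt h (u : X.presheaf.stalk x.1) * evalAt h ((u⁻¹ : (X.presheaf.stalk x.1)ˣ) :
        X.presheaf.stalk x.1) = 1 := by
      rw [← map_mul, Units.mul_inv, map_one]
    rw [hev, ← hu] at hf
    have h2 : evalAt h (u : X.presheaf.stalk x.1) ≠ 0 := by
      intro h0
      rw [h0, zero_mul] at h1
      exact zero_ne_one h1
    apply bcd_inv_notMem hf h2
    rw [inv_eq_of_mul_eq_one_right h1]
    exact (hV _).1
  refine ⟨?_, ?_, Fin.succ j, ?_, ?_, ?_⟩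
  · -- `V` is not the field
    intro hVtop
    have h1 : ∀ f : Γ(X, E.U d), (X.evaluation (E.U d) x.1 hj).hom f = 0 →
        (X.evaluation (E.U d) η.1 hηd).hom f = 0 := by
      intro f hf
      by_contra h0
      apply bcd_inv_notMem (hnon f hf) h0
      rw [hVtop]
      exact ValuationSubring.mem_top _
    have h2 : x.1 ⤳ η.1 := specializes_of_eval (E.U d) hUd hj hηd h1
    have h3 : x.1 = η.1 := (h2.antisymm h).eq
    have h4 := x.2
    rw [h3, η.2] at h4
    have h5 : e + 1 = e + 2 := by exact_mod_cast h4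
    omega
  · intro a0
    change E.kres η.1 a0 ∈ V
    rw [← evaluation_strOn E.toEmbedData (E.U d) η.1 hηd a0]
    exact hmem _
  · rw [Fin.cons_succ]
    exact hωj0
  · intro i
    rw [Fin.cons_succ]
    refine Fin.cases ?_ (fun i => ?_) i
    · rw [Fin.cons_zero, one_div, hinv]
      exact hmem _
    · rw [Fin.cons_succ, hdiv]
      exact hmem _
  · by_contra hcon
    push Not at hcon
    have h1 : ∀ i : Fin (n + 1), ∃ c0 : k,
        (X.evaluation (E.U d) x.1 hj).hom (a i) = E.kres x.1 c0 := by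
      intro i
      obtain ⟨c0, hc0⟩ := hcon (Fin.succ i)
      rw [Fin.cons_succ, Fin.cons_succ, hdiv] at hc0
      change (X.evaluation (E.U d) η.1 hηd).hom (a i) - E.kres η.1 c0 ∈ V.nonunits at hc0
      rw [← evaluation_strOn E.toEmbedData (E.U d) η.1 hηd c0, ← map_sub] at hc0
      have h2 := hunit _ hc0
      rw [map_sub, sub_eq_zero, evaluation_strOn E.toEmbedData (E.U d) x.1 hj c0] at h2
      exact ⟨c0, h2⟩
    have h3 := bcd_coheight E (e + 3) hdim hdim2 d hd x.1 hj
      (bcd_range E d hd x.1 hj a ha h1)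
    rw [x.2] at h3
    have h5 : e + 2 = e + 3 := by exact_mod_cast h3
    omega

end Pool.Agent.K1
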