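import Pool.Agent.K1.BPack
import Pool.Agent.K1.AffineFacts
import Pool.Agent.K1.DGen

/-!
(B), part III, B3-04: a valuation ring of the function field of a surface in `X` which dominates
the local ring of the surface at a curve has its centre of dimension one on the projective model.
-/

set_option autoImplicit false

open AlgebraicGeometry CategoryTheory

namespace Pool.Agent.K1

/-! ### Pure field theory -/

/-- The ratios of the coordinates `(1, ω, t, t ω)`. -/
theorem bcv_field {k K : Type} [Field k] [Field K] [Algebra k K] {n : ℕ}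
    (V : ValuationSubring K) (ω α : Fin (n + 1) → K) (t γ : K) (j : Fin (n + 1))
    (h1 : ∀ i, ω i * γ = α i) (hj : α j = 1) (hγ : γ ∈ V) (hα : ∀ i, α i ∈ V)
    (i0 : Fin (n + 1)) (hi0 : ∀ c : k, α i0 - algebraMap k K c ∉ V.nonunits) :
    ∃ J, segre ω t J ≠ 0 ∧ (∀ i, segre ω t i / segre ω t J ∈ V) ∧
      ∃ i, ∀ c : k, segre ω t i / segre ω t J - algebraMap k K c ∉ V.nonunits := by
  have hωγ : ω j * γ = 1 := (h1 j).trans hj
  have hγ0 : γ ≠ 0 := right_ne_zero_of_mul_eq_one hωγ
  have hωj : ω j ≠ 0 := left_ne_zero_of_mul_eq_one hωγ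
  have hdiv : ∀ x, x / ω j = x * γ := by
    intro x
    rw [div_eq_iff hωj, mul_assoc, mul_comm γ, hωγ, mul_one]
  have hcons : ∀ i : Fin (n + 2), (Fin.cons 1 ω : Fin (n + 2) → K) i / ω j ∈ V := by
    intro i
    refine Fin.cases ?_ (fun i => ?_) i
    · rw [Fin.cons_zero, hdiv, one_mul]
      exact hγ
    · rw [Fin.cons_succ, hdiv, h1]
      exact hα i
  have hleft : ∀ i : Fin (n + 2), segre ω t (Fin.castAdd (n + 2) i) =
      (Fin.cons 1 ω : Fin (n + 2) → K) i := fun i => Fin.append_left _ _ i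
  have hright : ∀ i : Fin (n + 2), segre ω t (Fin.natAdd (n + 2) i) =
      t * (Fin.cons 1 ω : Fin (n + 2) → K) i := fun i => Fin.append_right _ _ i
  have hL : segre ω t (Fin.castAdd (n + 2) j.succ) = ω j := by
    rw [hleft, Fin.cons_succ]
  have hR : segre ω t (Fin.natAdd (n + 2) j.succ) = t * ω j := by
    rw [hright, Fin.cons_succ]
  by_cases ht : t ∈ V
  · refine ⟨Fin.castAdd (n + 2) j.succ, ?_, ?_, Fin.castAdd (n + 2) i0.succ, ?_⟩
    · rw [hL]
      exact hωj
    · intro i
      rw [hL]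
      refine Fin.addCases (m := n + 2) (n := n + 2)
        (motive := fun i => segre ω t i / ω j ∈ V) (fun i => ?_) (fun i => ?_) i
      · rw [hleft]
        exact hcons i
      · rw [hright, mul_div_assoc]
        exact mul_mem ht (hcons i)
    · intro c
      rw [hL, hleft, Fin.cons_succ, hdiv, h1]
      exact hi0 c
  · have ht' : t⁻¹ ∈ V := (V.mem_or_inv_mem t).resolve_left ht
    have ht0 : t ≠ 0 := by
      rintro rfl
      exact ht (zero_mem V)
    refine ⟨Fin.natAdd (n + 2) j.succ, ?_, ?_, Fin.natAdd (n + 2) i0.succ, ?_⟩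
    · rw [hR]
      exact mul_ne_zero ht0 hωj
    · intro i
      rw [hR]
      refine Fin.addCases (m := n + 2) (n := n + 2)
        (motive := fun i => segre ω t i / (t * ω j) ∈ V) (fun i => ?_) (fun i => ?_) i
      · rw [hleft, div_mul_eq_div_div_swap, div_eq_mul_inv _ t]
        exact mul_mem (hcons i) ht'
      · rw [hright, mul_div_mul_left _ _ ht0]
        exact hcons i
    · intro c
      rw [hR, hright, Fin.cons_succ, mul_div_mul_left _ _ ht0, hdiv, h1]
      exact hi0 c

/-- A nonzero element whose inverse is in the valuation ring is not a nonunit. -/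
theorem bcv_nonunits {K : Type} [Field K] (V : ValuationSubring K) {a b : K} (hab : a * b = 1)
    (hb : b ∈ V) : a ∉ V.nonunits := by
  intro ha
  rw [ValuationSubring.mem_nonunits_iff] at ha
  have h1 := (V.valuation_le_one_iff b).2 hb
  have h2 : V.valuation a * V.valuation b = 1 := by rw [← map_mul, hab, map_one]
  have h3 : V.valuation a * V.valuation b < 1 := by
    calc V.valuation a * V.valuation b ≤ V.valuation a * 1 := mul_le_mul_right h1 _
      _ < 1 := by rw [mul_one]; exact ha
  exact absurd h2 h3.ne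

theorem bcv_residue {X : Scheme.{0}} {x : X} (s : X.presheaf.stalk x) :
    (X.residue x).hom s = 0 ↔ ¬ IsUnit s := by
  have h1 := IsLocalRing.residue_eq_zero_iff (R := X.presheaf.stalk x) s
  rw [IsLocalRing.mem_maximalIdeal, mem_nonunits_iff] at h1
  exact h1

theorem bcv_evalAt_refl {X : Scheme.{0}} {x : X} (s : X.presheaf.stalk x) :
    evalAt (specializes_refl x : x ⤳ x) s = (X.residue x).hom s := by
  change (X.residue x).hom ((X.presheaf.stalkSpecializes (specializes_refl x)).hom s) = _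
  rw [TopCat.Presheaf.stalkSpecializes_refl]
  rfl

section

variable {k : Type} [Field k] {X : Scheme.{0}} [IsIntegral X] {n : ℕ}

theorem bcv_l_single (E : Embed k X n) (j : Fin (n + 1)) :
    E.l (Pi.single j 1) = E.w j := by
  classical
  rw [EmbedData.l, Finset.sum_eq_single j]
  · rw [Pi.single_eq_same, map_one, one_mul]
  · intro i _ hij
    rw [Pi.single_eq_of_ne hij, map_zero, zero_mul]
  · intro h
    exact absurd (Finset.mem_univ j) h

theorem bcv_generic {U : X.Opens} {x : X} (hx : x ∈ U) : genericPoint X ∈ U :=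
  (genericPoint_specializes x).mem_open U.isOpen hx

/-- Two products of functions with the same generic germs have the same values. -/
theorem bcv_mul {U W : X.Opens} {z : X} (hU : z ∈ U) (hW : z ∈ W) (a : Γ(X, U)) (b b' : Γ(X, W))
    (h : (X.presheaf.germ U (genericPoint X) (bcv_generic hU)).hom a *
      (X.presheaf.germ W (genericPoint X) (bcv_generic hW)).hom b =
      (X.presheaf.germ W (genericPoint X) (bcv_generic hW)).hom b') :
    (X.evaluation U z hU).hom a * (X.evaluation W z hW).hom b =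
      (X.evaluation W z hW).hom b' := by
  have hne : Nonempty U := ⟨⟨_, hU⟩⟩
  have hne' : Nonempty W := ⟨⟨_, hW⟩⟩
  have h1 : (X.presheaf.germ U z hU).hom a * (X.presheaf.germ W z hW).hom b =
      (X.presheaf.germ W z hW).hom b' := by
    apply IsFractionRing.injective (X.presheaf.stalk z) X.functionField
    rw [map_mul]
    have e1 := Scheme.algebraMap_germ_eq_germToFunctionField X hU a
    have e2 := Scheme.algebraMap_germ_eq_germToFunctionField X hW b
    have e3 := Scheme.algebraMap_germ_eq_germToFunctionField X hW b'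
    refine (congrArg₂ (· * ·) e1 e2).trans (Eq.trans ?_ e3.symm)
    exact h
  have h2 := congrArg (X.residue z).hom h1
  rw [map_mul] at h2
  exact h2

/-- In an affine piece of an embedding of dimension `e + 3`, all maximal ideals have height
`e + 3`. -/
theorem bcv_height [IsNoetherian X] (E : Embed k X n) (e : ℕ)
    (hdim : ∀ x : X, Order.coheight x ≤ ((e + 3 : ℕ) : ℕ∞))
    (hdim2 : ∃ x : X, Order.coheight x = ((e + 3 : ℕ) : ℕ∞))
    (d : Fin (n + 1) → k) (hd : genericPoint X ∈ E.U d) (𝔪 : Ideal Γ(X, E.U d))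
    (h𝔪 : 𝔪.IsMaximal) : 𝔪.height = ((e + 3 : ℕ) : ℕ∞) := by
  let _ := E.kf.toAlgebra
  obtain ⟨x, hx⟩ := hdim2
  obtain ⟨j, hj⟩ := E.cover x
  have hgj : genericPoint X ∈ E.U (Pi.single j 1) := bcv_generic hj
  obtain ⟨s, h1, h2, h3⟩ := af_trdeg E d hd
  obtain ⟨s', h1', h2', h3'⟩ := af_trdeg E _ hgj
  have haff := (E.affine _ (af_l_ne_zero E hgj)).1
  have hs' : s' = e + 3 := by
    obtain ⟨P, rfl⟩ := af_surj haff hj
    rw [af_coheight] at hx
    obtain ⟨𝔫, h𝔫, hle⟩ := Ideal.exists_le_maximal P.asIdeal P.isPrime.ne_top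
    have h4 : P.asIdeal.height ≤ 𝔫.height := Ideal.height_mono hle
    rw [hx, h1' 𝔫 h𝔫] at h4
    have h5 := hdim (haff.fromSpec ⟨𝔫, h𝔫.isPrime⟩)
    rw [af_coheight] at h5
    change 𝔫.height ≤ _ at h5
    rw [h1' 𝔫 h𝔫] at h5
    have h6 : e + 3 ≤ s' := by exact_mod_cast h4
    have h7 : s' ≤ e + 3 := by exact_mod_cast h5
    omega
  have h8 : ((s : ℕ) : Cardinal) = s' := h3.symm.trans h3'
  have h9 : s = s' := by exact_mod_cast h8
  rw [h1 𝔪 h𝔪, h9, hs']

/-- At a point which is not closed, the values of the coordinates are not all constants. -/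
theorem bcv_not_const [IsNoetherian X] (E : Embed k X n) (e : ℕ)
    (hdim : ∀ x : X, Order.coheight x ≤ ((e + 3 : ℕ) : ℕ∞))
    (hdim2 : ∃ x : X, Order.coheight x = ((e + 3 : ℕ) : ℕ∞))
    (x : X) (hx : Order.coheight x = ((e + 2 : ℕ) : ℕ∞)) (d : Fin (n + 1) → k)
    (hd : x ∈ E.U d) (b : Fin (n + 1) → Γ(X, E.U d))
    (hb : ∀ i, (X.presheaf.germ (E.U d) (genericPoint X) (bcv_generic hd)).hom (b i) =
      E.w i / E.l d) :
    ∃ i, ∀ c : k, (X.evaluation (E.U d) x hd).hom (b i) ≠ E.kres x c := by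
  by_contra hcon
  push Not at hcon
  choose c hc using hcon
  have hg : genericPoint X ∈ E.U d := bcv_generic hd
  have hne : Nonempty (E.U d) := ⟨⟨_, hg⟩⟩
  let g := (X.presheaf.germ (E.U d) (genericPoint X) hg).hom
  have hginj : Function.Injective g := Scheme.germToFunctionField_injective X (E.U d)
  have hgk : ∀ a : k, g (E.strOn (E.U d) a) = E.kf a := by
    intro a
    exact X.presheaf.germ_res_apply (homOfLE le_top : E.U d ⟶ ⊤) (genericPoint X) hg (E.str a)
  have hek : ∀ a : k, (X.evaluation (E.U d) x hd).hom (E.strOn (E.U d) a) = E.kres x a := by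
    intro a
    have h1 := X.presheaf.germ_res_apply (homOfLE le_top : E.U d ⟶ ⊤) x hd (E.str a)
    exact congrArg (X.residue x).hom h1
  have key : ∀ y ∈ Subring.closure (Set.range E.kf ∪ Set.range (fun j => E.w j / E.l d)),
      ∃ s : Γ(X, E.U d), g s = y ∧ ∃ a : k, (X.evaluation (E.U d) x hd).hom s = E.kres x a := by
    intro y hy
    induction hy using Subring.closure_induction with
    | mem y hy =>
      rcases hy with ⟨a, rfl⟩ | ⟨j, rfl⟩
      · exact ⟨_, hgk a, a, hek a⟩
      · exact ⟨b j, hb j, c j, hc j⟩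
    | zero => exact ⟨0, map_zero _, 0, by rw [map_zero, map_zero]⟩
    | one => exact ⟨1, map_one _, 1, by rw [map_one, map_one]⟩
    | add x y _ _ hx hy =>
      obtain ⟨s, rfl, a, ha⟩ := hx
      obtain ⟨s', rfl, a', ha'⟩ := hy
      exact ⟨s + s', map_add _ _ _, a + a', by rw [map_add, map_add, ha, ha']⟩
    | neg x _ hx =>
      obtain ⟨s, rfl, a, ha⟩ := hx
      exact ⟨-s, map_neg _ _, -a, by rw [map_neg, map_neg, ha]⟩
    | mul x y _ _ hx hy =>
      obtain ⟨s, rfl, a, ha⟩ := hx
      obtain ⟨s', rfl, a', ha'⟩ := hy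
      exact ⟨s * s', map_mul _ _ _, a * a', by rw [map_mul, map_mul, ha, ha']⟩
  have hall : ∀ s : Γ(X, E.U d), ∃ a : k, (X.evaluation (E.U d) x hd).hom s = E.kres x a := by
    intro s
    have h0 : g s ∈ Set.range g := ⟨s, rfl⟩
    rw [E.sections d hg] at h0
    obtain ⟨s', hs', a, ha⟩ := key _ h0
    rw [hginj hs'] at ha
    exact ⟨a, ha⟩
  have haff := (E.affine _ (af_l_ne_zero E hg)).1
  obtain ⟨P, rfl⟩ := af_surj haff hd
  have hP : ∀ a, a ∈ P.asIdeal ↔ (X.evaluation (E.U d) (haff.fromSpec P) hd).hom a = 0 := by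
    intro a
    rw [af_eval_eq_zero, af_germ_unit, not_not]
  have hmax : P.asIdeal.IsMaximal := by
    rw [Ideal.isMaximal_iff]
    refine ⟨fun h1 => P.isPrime.ne_top ((Ideal.eq_top_iff_one _).2 h1), ?_⟩
    intro J a hPJ ha haJ
    obtain ⟨c', hc'⟩ := hall a
    have hc0 : c' ≠ 0 := by
      rintro rfl
      rw [map_zero] at hc'
      exact ha ((hP a).2 hc')
    have h1 : 1 - E.strOn (E.U d) c'⁻¹ * a ∈ P.asIdeal := by
      rw [hP, map_sub, map_mul, map_one, hek, hc', ← map_mul, inv_mul_cancel₀ hc0, map_one,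
        sub_self]
    have h2 := J.add_mem (hPJ h1) (J.mul_mem_left (E.strOn (E.U d) c'⁻¹) haJ)
    rwa [sub_add_cancel] at h2
  have h3 := bcv_height E e hdim hdim2 d hg P.asIdeal hmax
  rw [af_coheight, h3] at hx
  have h4 : e + 3 = e + 2 := by exact_mod_cast hx
  omega

theorem curveV_of_dominates {k : Type} [Field k] [IsAlgClosed k] {X : Scheme.{0}}
    [IsIntegral X] [IsNoetherian X] {n : ℕ} (E : Embed k X n) (e : ℕ)
    (hdim : ∀ x : X, Order.coheight x ≤ ((e + 3 : ℕ) : ℕ∞))
    (hdim2 : ∃ x : X, Order.coheight x = ((e + 3 : ℕ) : ℕ∞))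
    (η : PointCo X (e + 1)) (c : Fin (n + 1) → k) (hη : η.1 ∈ E.U c)
    (ω : Fin (n + 1) → X.residueField η.1) (hω : IsCoord E c hη ω) (t : X.residueField η.1)
    (x : PointCo X (e + 2)) (h : η.1 ⤳ x.1) (V : ValuationSubring (X.residueField η.1))
    (hV : Dominates h V) :
    letI := (E.kres η.1).toAlgebra
    CurveV k (segre ω t) V := by
  let _ := (E.kres η.1).toAlgebra
  obtain ⟨j, hj⟩ := E.cover x.1
  have hηj : η.1 ∈ E.U (Pi.single j 1) := h.mem_open (E.U (Pi.single j 1)).isOpen hj
  have hgj : genericPoint X ∈ E.U (Pi.single j 1) := bcv_generic hj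
  have hgc : genericPoint X ∈ E.U c := bcv_generic hη
  have hlj : E.l (Pi.single j 1) ≠ 0 := af_l_ne_zero E hgj
  have hlc : E.l c ≠ 0 := af_l_ne_zero E hgc
  have hb : ∀ i, ∃ b : Γ(X, E.U (Pi.single j 1)),
      (X.presheaf.germ (E.U (Pi.single j 1)) (genericPoint X) hgj).hom b =
        E.w i / E.l (Pi.single j 1) := by
    intro i
    obtain ⟨b, hb, -⟩ := exists_ratio E (Pi.single i 1) (Pi.single j 1) hgj
    exact ⟨b, by rw [hb, bcv_l_single]⟩
  choose b hb using hb
  obtain ⟨bc, hbc, -⟩ := exists_ratio E c (Pi.single j 1) hgj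
  have hval : ∀ s : Γ(X, E.U (Pi.single j 1)),
      (X.evaluation (E.U (Pi.single j 1)) η.1 hηj).hom s ∈ V := by
    intro s
    rw [← evalAt_germ h (E.U (Pi.single j 1)) hj s]
    exact (hV _).1
  have hkx : ∀ a : k, evalAt h ((X.presheaf.germ ⊤ x.1 trivial).hom (E.str a)) = E.kres η.1 a :=
    fun a => evalAt_germ h ⊤ trivial (E.str a)
  refine ⟨?_, ?_, ?_⟩
  · -- `V` is not the field
    rintro rfl
    have hker : RingHom.ker (evalAt h) ≠
        RingHom.ker (evalAt (specializes_refl x.1 : x.1 ⤳ x.1)) := by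
      intro hk
      have h1 := generization_unique h (specializes_refl x.1) hk
      have h2 := η.2
      rw [h1, x.2] at h2
      have h3 : e + 2 = e + 1 := by exact_mod_cast h2
      omega
    apply hker
    apply le_antisymm
    · intro s hs
      rw [RingHom.mem_ker] at hs ⊢
      rw [bcv_evalAt_refl, bcv_residue]
      intro hu
      exact (hu.map (evalAt h)).ne_zero hs
    · intro s hs
      rw [RingHom.mem_ker, bcv_evalAt_refl, bcv_residue] at hs
      rw [RingHom.mem_ker]
      by_contra hne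
      exact bcv_nonunits _ (mul_inv_cancel₀ hne) (ValuationSubring.mem_top _) ((hV s).2 hs)
  · intro a
    change E.kres η.1 a ∈ V
    rw [← hkx a]
    exact (hV _).1
  · obtain ⟨i0, hi0⟩ := bcv_not_const E e hdim hdim2 x.1 x.2 (Pi.single j 1) hj b hb
    refine bcv_field V ω (fun i => (X.evaluation (E.U (Pi.single j 1)) η.1 hηj).hom (b i)) t
      ((X.evaluation (E.U (Pi.single j 1)) η.1 hηj).hom bc) j ?_ ?_ (hval _) (fun i => hval _)
      i0 ?_
    · intro i
      obtain ⟨a, ha, hai⟩ := hω i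
      rw [← hai]
      apply bcv_mul hη hηj
      have h1 := ha hgc
      have h2 := hb i
      refine (congrArg₂ (· * ·) h1 hbc).trans (Eq.trans ?_ h2.symm)
      change E.w i / E.l c * (E.l c / E.l (Pi.single j 1)) = E.w i / E.l (Pi.single j 1)
      rw [div_mul_div_cancel₀ hlc]
    · have h1 := bcv_mul (U := E.U (Pi.single j 1)) (W := E.U (Pi.single j 1)) hηj hηj
        (b j) 1 1 (by
          rw [map_one, mul_one]
          refine (hb j).trans ?_
          rw [← bcv_l_single E j, div_self hlj])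
      rw [map_one, mul_one] at h1
      exact h1
    · intro a hmem
      have h1 := evalAt_germ h (E.U (Pi.single j 1)) hj (b i0)
      have h2 : evalAt h ((X.presheaf.germ (E.U (Pi.single j 1)) x.1 hj).hom (b i0) -
          (X.presheaf.germ ⊤ x.1 trivial).hom (E.str a)) ∈ V.nonunits := by
        rw [map_sub, h1, hkx]
        exact hmem
      have h3 : ¬ IsUnit ((X.presheaf.germ (E.U (Pi.single j 1)) x.1 hj).hom (b i0) -
          (X.presheaf.germ ⊤ x.1 trivial).hom (E.str a)) := by
        rintro ⟨u, hu⟩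
        rw [← hu] at h2
        refine bcv_nonunits V (b := evalAt h ((u⁻¹ : (X.presheaf.stalk x.1)ˣ) :
          X.presheaf.stalk x.1)) ?_ (hV _).1 h2
        rw [← map_mul, Units.mul_inv, map_one]
      have h4 : (X.residue x.1).hom ((X.presheaf.germ (E.U (Pi.single j 1)) x.1 hj).hom (b i0) -
          (X.presheaf.germ ⊤ x.1 trivial).hom (E.str a)) = 0 :=
        (bcv_residue _).2 h3
      rw [map_sub, sub_eq_zero] at h4
      exact hi0 a h4

end

end Pool.Agent.K1
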