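import Pool.Agent.K1.BPack
import Pool.Agent.K1.CycleRestrict
import Pool.Agent.K1.UnitInf

/-!
(B): orders of functions on a curve of `X`, computed in an affine chart, and the valuation rings
of the function field of the curve without centre on the chart.
-/

set_option autoImplicit false

open AlgebraicGeometry CategoryTheory

attribute [local instance] MvPolynomial.gradedAlgebra

namespace Pool.Agent.K1

/-- Orders at a closed point of an affine chart, in terms of the ring of the chart. -/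
theorem ord_chart_aux {k : Type} [Field k] {X : Scheme.{0}} (V : X.Opens)
    (hV : IsAffineOpen V) [Algebra k Γ(X, V)] (z : Γ(X, V) →ₐ[k] k) {x y : X} (hx : x ∈ V)
    (hy : y ∈ V) (hz : ∀ a, z a = 0 ↔ (X.evaluation V y hy).hom a = 0)
    (h : x ⤳ y) (t : (X.residueField x)ˣ) (m : ℤ) (hord : IsOrdAt h t m) :
    ∃ a b : Γ(X, V), (X.evaluation V x hx).hom a ≠ 0 ∧ (X.evaluation V x hx).hom b ≠ 0 ∧
      (t : X.residueField x) * (X.evaluation V x hx).hom b = (X.evaluation V x hx).hom a ∧
      m = ((ordPt (RingHom.ker (X.evaluation V x hx).hom) z a).toNat : ℤ) -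
        ((ordPt (RingHom.ker (X.evaluation V x hx).hom) z b).toNat : ℤ) := by
  let _ := X.presheaf.algebra_section_stalk (⟨y, hy⟩ : V)
  have hloc : IsLocalization.AtPrime (X.presheaf.stalk y) (RingHom.ker z) :=
    isLocalization_of_eval V hV z hy hz
  have halg : ∀ a : Γ(X, V), algebraMap Γ(X, V) (X.presheaf.stalk y) a =
    (X.presheaf.germ V y hy).hom a := fun a => rfl
  have hev : ∀ a : Γ(X, V), evalAt h (algebraMap Γ(X, V) (X.presheaf.stalk y) a) =
      (X.evaluation V x hx).hom a := by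
    intro a
    rw [halg, evalAt_germ]
  have hP : (RingHom.ker (X.evaluation V x hx).hom).map
      (algebraMap Γ(X, V) (X.presheaf.stalk y)) = RingHom.ker (evalAt h) := by
    rw [← IsLocalization.map_under (RingHom.ker z).primeCompl (X.presheaf.stalk y)
      (RingHom.ker (evalAt h))]
    congr 1
    ext a
    rw [Ideal.mem_comap, RingHom.mem_ker, RingHom.mem_ker, hev]
  obtain ⟨c, d, hc, hd, hcd, hm⟩ := hord
  obtain ⟨⟨c', s⟩, hc'⟩ := IsLocalization.surj (RingHom.ker z).primeCompl c
  obtain ⟨⟨d', s'⟩, hd'⟩ := IsLocalization.surj (RingHom.ker z).primeCompl d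
  simp only at hc' hd'
  have hs : IsUnit (algebraMap Γ(X, V) (X.presheaf.stalk y) s) :=
    IsLocalization.map_units (X.presheaf.stalk y) s
  have hs' : IsUnit (algebraMap Γ(X, V) (X.presheaf.stalk y) s') :=
    IsLocalization.map_units (X.presheaf.stalk y) s'
  obtain ⟨u, hu⟩ := hs.mul hs'
  have hc2 : c * (u : X.presheaf.stalk y) =
      algebraMap Γ(X, V) (X.presheaf.stalk y) (c' * s') := by
    rw [hu, map_mul, ← hc']
    ring
  have hd2 : d * (u : X.presheaf.stalk y) =
      algebraMap Γ(X, V) (X.presheaf.stalk y) (d' * s) := by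
    rw [hu, map_mul, ← hd']
    ring
  have hu0 : evalAt h (u : X.presheaf.stalk y) ≠ 0 := (u.isUnit.map (evalAt h)).ne_zero
  have hc3 : (X.evaluation V x hx).hom (c' * s') = evalAt h c * evalAt h u := by
    rw [← hev, ← hc2, map_mul]
  have hd3 : (X.evaluation V x hx).hom (d' * s) = evalAt h d * evalAt h u := by
    rw [← hev, ← hd2, map_mul]
  refine ⟨c' * s', d' * s, ?_, ?_, ?_, ?_⟩
  · rw [hc3]
    exact mul_ne_zero hc hu0
  · rw [hd3]
    exact mul_ne_zero hd hu0
  · rw [hc3, hd3, ← mul_assoc, hcd]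
  · rw [hm, ← hP, length_eq_ordPt z (RingHom.ker (X.evaluation V x hx).hom) (c' * s') c u hc2,
      length_eq_ordPt z (RingHom.ker (X.evaluation V x hx).hom) (d' * s) d u hd2]

theorem ord_chart {k : Type} [Field k] [IsAlgClosed k] {X : Scheme.{0}} [IsIntegral X]
    [IsNoetherian X] {n : ℕ} (E : Embed k X n) (c : Fin (n + 1) → k)
    (hc : genericPoint X ∈ E.U c) {x y : X} (hx : x ∈ E.U c) (hy : y ∈ E.U c) (h : x ⤳ y)
    (u : (X.residueField x)ˣ) (m : ℤ) (hu : IsOrdAt h u m) :
    letI := (E.strOn (E.U c)).toAlgebra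
    ∀ z : Γ(X, E.U c) →ₐ[k] k,
      (∀ a, z a = 0 ↔ (X.evaluation (E.U c) y hy).hom a = 0) →
      ∃ a b : Γ(X, E.U c), (X.evaluation (E.U c) x hx).hom a ≠ 0 ∧
        (X.evaluation (E.U c) x hx).hom b ≠ 0 ∧
        (u : X.residueField x) * (X.evaluation (E.U c) x hx).hom b =
          (X.evaluation (E.U c) x hx).hom a ∧
        m = ((ordPt (RingHom.ker (X.evaluation (E.U c) x hx).hom) z a).toNat : ℤ) -
          ((ordPt (RingHom.ker (X.evaluation (E.U c) x hx).hom) z b).toNat : ℤ) := by
  let _ := (E.strOn (E.U c)).toAlgebra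
  intro z hz
  have hl : E.l c ≠ 0 := by
    intro h0
    have h1 := E.empty c h0
    rw [h1] at hc
    exact hc
  exact ord_chart_aux (E.U c) (E.affine c hl).1 z hx hy hz h u m hu

theorem centre_outside {k : Type} [Field k] {X : Scheme.{0}} [IsIntegral X]
    [IsNoetherian X] {n : ℕ} (E : Embed k X n)
    (c : Fin (n + 1) → k) {x : X} (hx : x ∈ E.U c) (u : (X.residueField x)ˣ)
    (hunit : ∀ y, y ∉ E.U c → ∀ h : x ⤳ y, ∃ s : (X.presheaf.stalk y)ˣ,
      (u : X.residueField x) = evalAt h s)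
    (V : ValuationSubring (X.residueField x))
    (hk : ∀ a : k, E.kres x a ∈ V)
    (hV : ∃ a, (X.evaluation (E.U c) x hx).hom a ∉ V) :
    (u : X.residueField x) ∈ V ∧ ((u⁻¹ : (X.residueField x)ˣ) : X.residueField x) ∈ V := by
  obtain ⟨y, h, hb⟩ := E.val x V hk
  have hy : y ∉ E.U c := by
    intro hy
    obtain ⟨a, ha⟩ := hV
    apply ha
    rw [evaluation_evalAt (E.U c) h hx hy a]
    exact hb _
  obtain ⟨s, hs⟩ := hunit y hy h
  constructor
  · rw [hs]
    exact hb s
  · have h1 := hb ((s⁻¹ : (X.presheaf.stalk y)ˣ) : X.presheaf.stalk y)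
    have h2 : evalAt h ((s⁻¹ : (X.presheaf.stalk y)ˣ) : X.presheaf.stalk y) =
        ((u⁻¹ : (X.residueField x)ˣ) : X.residueField x) := by
      have h3 : evalAt h ((s⁻¹ : (X.presheaf.stalk y)ˣ) : X.presheaf.stalk y) *
          evalAt h (s : X.presheaf.stalk y) = 1 := by
        rw [← map_mul, Units.inv_mul, map_one]
      rw [← hs] at h3
      exact mul_right_cancel₀ u.ne_zero (h3.trans (Units.inv_mul u).symm)
    rw [h2] at h1
    exact h1

end Pool.Agent.K1
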