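import Pool.Agent.K1.BDomIff
import Pool.Agent.K1.BOrdChart
import Pool.Agent.K1.BHeight
import Pool.Agent.K1.BTameV
import Pool.Agent.K1.BCurveDom
import Pool.Agent.K1.BBdTame
import Pool.Agent.K1.BAvoid
import Pool.Agent.K1.BAffDim
import Pool.Agent.K1.TDefs
import Pool.Agent.K1.SectionRing
import Pool.Agent.K1.Embed

/-!
Zero-cycles in all dimensions, part III: the theorem for regular projective varieties of
dimension at least three, from the theorem `AffB` on affine rings.
-/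

set_option autoImplicit false

open AlgebraicGeometry CategoryTheory

attribute [local instance] MvPolynomial.gradedAlgebra

namespace Pool.Agent.K1

section chart

variable {X : Scheme.{0}} {U : X.Opens} (hU : IsAffineOpen U)

include hU

theorem bf_isFrac {x : X} (hx : x ∈ U) : IsFrac ((X.evaluation U x hx).hom) := by
  intro f
  obtain ⟨b, hb⟩ := X.residue_surjective x f
  obtain ⟨a, s, hs, hbs⟩ := bdom_stalk_quot U hU hx b
  refine ⟨a, s, fun h0 => (af_eval_eq_zero hx s).1 h0 hs, ?_⟩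
  have h1 := congrArg (X.residue x).hom hbs
  rw [map_mul] at h1
  rw [← hb]
  exact h1

theorem bf_coheight {x : X} (hx : x ∈ U) :
    Order.coheight x = (RingHom.ker (X.evaluation U x hx).hom).height := by
  obtain ⟨P, rfl⟩ := af_surj hU hx
  rw [af_coheight]
  congr 1
  ext a
  rw [RingHom.mem_ker, af_eval_eq_zero, af_germ_unit, not_not]

theorem bf_point (P : Ideal Γ(X, U)) (hP : P.IsPrime) :
    ∃ (x : X) (hx : x ∈ U), RingHom.ker (X.evaluation U x hx).hom = P := by
  refine ⟨hU.fromSpec ⟨P, hP⟩, af_mem hU _, ?_⟩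
  ext a
  rw [RingHom.mem_ker, af_eval_eq_zero, af_germ_unit, not_not]

theorem bf_eq_of_ker {x x' : X} (hx : x ∈ U) (hx' : x' ∈ U)
    (h : RingHom.ker (X.evaluation U x hx).hom = RingHom.ker (X.evaluation U x' hx').hom) :
    x = x' := by
  have h1 : x ⤳ x' := (specializes_iff_chart U hU hx' hx).2 fun a ha => by
    have h2 : a ∈ RingHom.ker (X.evaluation U x hx).hom := ha
    rw [h] at h2
    exact h2
  have h2 : x' ⤳ x := (specializes_iff_chart U hU hx hx').2 fun a ha => by
    have h2 : a ∈ RingHom.ker (X.evaluation U x' hx').hom := ha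
    rw [← h] at h2
    exact h2
  exact (h1.antisymm h2).eq

end chart

theorem bf_isOrdAt_one {X : Scheme.{0}} {x y : X} (h : x ⤳ y) (m : ℤ) (hm : IsOrdAt h 1 m) :
    m = 0 := by
  obtain ⟨c, d, hc, hd, hcd, rfl⟩ := hm
  have h1 : evalAt h d = evalAt h c := by
    rw [← hcd, Units.val_one, one_mul]
  have h2 : RingHom.ker (evalAt h) ⊔ Ideal.span {c} =
      RingHom.ker (evalAt h) ⊔ Ideal.span {d} := by
    have h3 : c - d ∈ RingHom.ker (evalAt h) := by
      rw [RingHom.mem_ker, map_sub, h1, sub_self]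
    apply le_antisymm
    · refine sup_le le_sup_left ?_
      rw [Ideal.span_singleton_le_iff_mem]
      have h4 : c = (c - d) + d := by ring
      rw [h4]
      exact Ideal.add_mem _ (Ideal.mem_sup_left h3)
        (Ideal.mem_sup_right (Ideal.mem_span_singleton_self d))
    · refine sup_le le_sup_left ?_
      rw [Ideal.span_singleton_le_iff_mem]
      have h4 : d = c - (c - d) := by ring
      rw [h4]
      exact Ideal.sub_mem _ (Ideal.mem_sup_right (Ideal.mem_span_singleton_self c))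
        (Ideal.mem_sup_left h3)
  rw [h2, sub_self]

/-- The coordinates of a chart. -/
theorem bf_coords {k : Type} [Field k] {X : Scheme.{0}} [IsIntegral X] {n : ℕ}
    (E : Embed k X n) (c : Fin (n + 1) → k) (hc : genericPoint X ∈ E.U c) :
    letI := (E.strOn (E.U c)).toAlgebra
    ∃ s : Fin (n + 1) → Γ(X, E.U c),
      (∀ j, (X.presheaf.germ (E.U c) (genericPoint X) hc).hom (s j) = E.w j / E.l c) ∧
      Algebra.adjoin k (Set.range (Fin.cons 1 s : Fin (n + 1 + 1) → Γ(X, E.U c))) = ⊤ := by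
  classical
  let _ := (E.strOn (E.U c)).toAlgebra
  have hne : Nonempty (E.U c) := ⟨⟨_, hc⟩⟩
  let g := (X.presheaf.germ (E.U c) (genericPoint X) hc).hom
  have hginj : Function.Injective g := Scheme.germToFunctionField_injective X (E.U c)
  have hgk : ∀ a : k, g (algebraMap k Γ(X, E.U c) a) = E.kf a := by
    intro a
    change (X.presheaf.germ (E.U c) (genericPoint X) hc).hom
      ((X.presheaf.map (homOfLE le_top : E.U c ⟶ ⊤).op).hom (E.str a)) = _
    exact X.presheaf.germ_res_apply (homOfLE le_top : E.U c ⟶ ⊤) (genericPoint X) hc (E.str a)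
  have hw : ∀ j, ∃ s : Γ(X, E.U c), g s = E.w j / E.l c := by
    intro j
    have : E.w j / E.l c ∈ Set.range g := by
      rw [E.sections c hc]
      exact Subring.subset_closure (Or.inr ⟨j, rfl⟩)
    exact this
  choose s hs using hw
  refine ⟨s, hs, ?_⟩
  rw [eq_top_iff]
  intro a _
  have ha : g a ∈ Subring.closure (Set.range E.kf ∪ Set.range (fun j => E.w j / E.l c)) := by
    have h0 : g a ∈ Set.range g := ⟨a, rfl⟩
    rw [E.sections c hc] at h0
    exact h0
  have key : ∀ y ∈ Subring.closure (Set.range E.kf ∪ Set.range (fun j => E.w j / E.l c)),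
      ∃ b ∈ Algebra.adjoin k (Set.range (Fin.cons 1 s : Fin (n + 1 + 1) → Γ(X, E.U c))),
        g b = y := by
    intro y hy
    induction hy using Subring.closure_induction with
    | mem x hx =>
      rcases hx with ⟨a, rfl⟩ | ⟨j, rfl⟩
      · exact ⟨algebraMap k _ a, Subalgebra.algebraMap_mem _ _, hgk a⟩
      · exact ⟨s j, Algebra.subset_adjoin ⟨j.succ, by rw [Fin.cons_succ]⟩, hs j⟩
    | zero => exact ⟨0, Subalgebra.zero_mem _, map_zero _⟩
    | one => exact ⟨1, Subalgebra.one_mem _, map_one _⟩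
    | add x y _ _ hx hy =>
      obtain ⟨b, hb, rfl⟩ := hx
      obtain ⟨b', hb', rfl⟩ := hy
      exact ⟨b + b', Subalgebra.add_mem _ hb hb', map_add _ _ _⟩
    | neg x _ hx =>
      obtain ⟨b, hb, rfl⟩ := hx
      exact ⟨-b, Subalgebra.neg_mem _ hb, map_neg _ _⟩
    | mul x y _ _ hx hy =>
      obtain ⟨b, hb, rfl⟩ := hx
      obtain ⟨b', hb', rfl⟩ := hy
      exact ⟨b * b', Subalgebra.mul_mem _ hb hb', map_mul _ _ _⟩
  obtain ⟨b, hb, hba⟩ := key _ ha
  rw [← hginj hba]
  exact hb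

/-- The scalars in the residue field, through a chart. -/
theorem bf_kres {k : Type} [Field k] {X : Scheme.{0}} [IsIntegral X] {n : ℕ}
    (E : Embed k X n) (c : Fin (n + 1) → k) {x : X} (hx : x ∈ E.U c) (a : k) :
    (X.evaluation (E.U c) x hx).hom (E.strOn (E.U c) a) = E.kres x a := by
  change (X.residue x).hom ((X.presheaf.germ (E.U c) x hx).hom
    ((X.presheaf.map (homOfLE le_top : E.U c ⟶ ⊤).op).hom (E.str a))) =
    (X.residue x).hom ((X.presheaf.germ ⊤ x trivial).hom (E.str a))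
  congr 1
  exact X.presheaf.germ_res_apply (homOfLE le_top : E.U c ⟶ ⊤) x hx (E.str a)

/-- The map of residue fields on the whole local ring. -/
theorem bf_isRes {X : Scheme.{0}} {U : X.Opens} (hU : IsAffineOpen U) {η x : X} (h : η ⤳ x)
    (hx : x ∈ U) (hη : η ∈ U) (V : ValuationSubring (X.residueField η)) (hV : Dominates h V)
    (φ : X.residueField x →+* IsLocalRing.ResidueField V)
    (hφ : IsRes (X.evaluation U η hη).hom (X.evaluation U x hx).hom V φ)
    (b : X.presheaf.stalk x) (b' : V) (hb : (b' : X.residueField η) = evalAt h b) :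
    φ ((X.residue x).hom b) = IsLocalRing.residue V b' := by
  obtain ⟨a, s, hs, hbs⟩ := bdom_stalk_quot U hU hx b
  have hev : ∀ a : Γ(X, U), evalAt h ((X.presheaf.germ U x hx).hom a) =
      (X.evaluation U η hη).hom a := fun a => evalAt_germ h U hx a
  have haV : (X.evaluation U η hη).hom a ∈ V := by
    rw [← hev a]
    exact (hV _).1
  have hsV : (X.evaluation U η hη).hom s ∈ V := by
    rw [← hev s]
    exact (hV _).1
  have h1 : φ ((X.evaluation U x hx).hom a) = IsLocalRing.residue V ⟨_, haV⟩ := hφ a ⟨_, haV⟩ rfl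
  have h2 : φ ((X.evaluation U x hx).hom s) = IsLocalRing.residue V ⟨_, hsV⟩ := hφ s ⟨_, hsV⟩ rfl
  have h3 : (X.residue x).hom b * (X.evaluation U x hx).hom s =
      (X.evaluation U x hx).hom a := by
    have h4 := congrArg (X.residue x).hom hbs
    rw [map_mul] at h4
    exact h4
  have h5 : b' * ⟨_, hsV⟩ = (⟨_, haV⟩ : V) := by
    apply Subtype.ext
    change (b' : X.residueField η) * (X.evaluation U η hη).hom s = (X.evaluation U η hη).hom a
    rw [hb, ← hev s, ← hev a, ← map_mul, hbs]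
  have h6 : φ ((X.evaluation U x hx).hom s) ≠ 0 := by
    intro h0
    rw [map_eq_zero] at h0
    exact (af_eval_eq_zero hx s).1 h0 hs
  have h7 : φ ((X.residue x).hom b) * φ ((X.evaluation U x hx).hom s) =
      IsLocalRing.residue V b' * φ ((X.evaluation U x hx).hom s) := by
    rw [← map_mul, h3, h1, ← h5, map_mul, ← h2]
  exact mul_right_cancel₀ h6 h7

theorem bf_class {k : Type} [Field k] [IsAlgClosed k] {X : Scheme.{0}} [IsIntegral X]
    [IsNoetherian X] {n : ℕ} (E : Embed k X n) (e : ℕ)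
    (hdim : ∀ x : X, Order.coheight x ≤ ((e + 3 : ℕ) : ℕ∞))
    (hdim2 : ∃ x : X, Order.coheight x = ((e + 3 : ℕ) : ℕ∞))
    (c : Fin (n + 1) → k) (hc : genericPoint X ∈ E.U c)
    (s : Fin (n + 1) → Γ(X, E.U c))
    (hs : ∀ j, (X.presheaf.germ (E.U c) (genericPoint X) hc).hom (s j) = E.w j / E.l c)
    (Q : Ideal Γ(X, E.U c)) (hQ : Q.IsPrime) (hQh : Q.height = ((e + 1 : ℕ) : ℕ∞))
    (ξ : KChain X (e + 2)) (hsupp : ∀ x : PointCo X (e + 2), ξ x ≠ 0 → x.1 ∈ E.U c)
    (hQx : ∀ (x : PointCo X (e + 2)) (hx : ξ x ≠ 0),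
      Q ≤ RingHom.ker (X.evaluation (E.U c) x.1 (hsupp x hx)).hom)
    (H : ∀ (K : Type) [Field K] (τ : Γ(X, E.U c) →+* K), IsFrac τ → RingHom.ker τ = Q →
      letI : Algebra k K := (τ.comp (E.strOn (E.U c))).toAlgebra
      (∀ (x : PointCo X (e + 2)) (hx : ξ x ≠ 0), ∃ V : ValuationSubring K,
        DomR τ (X.evaluation (E.U c) x.1 (hsupp x hx)).hom V ∧
        (∀ V', DomR τ (X.evaluation (E.U c) x.1 (hsupp x hx)).hom V' → V' = V) ∧
        ∃ φ : X.residueField x.1 →+* IsLocalRing.ResidueField V,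
          IsRes τ (X.evaluation (E.U c) x.1 (hsupp x hx)).hom V φ ∧ Function.Bijective φ) ∧
      ∃ N : ℕ, 0 < N ∧ ∃ (r : ℕ) (f g : Fin r → K), (∀ i, f i ≠ 0 ∧ g i ≠ 0) ∧
        ∀ V : ValuationSubring K,
          CurveV k (fun i => τ ((Fin.cons 1 s : Fin (n + 1 + 1) → Γ(X, E.U c)) i)) V →
          ∃ t : Fin r → (IsLocalRing.ResidueField V)ˣ, (∀ i, IsTameV V (f i) (g i) (t i)) ∧
            (∀ (x : PointCo X (e + 2)) (hx : ξ x ≠ 0),
              DomR τ (X.evaluation (E.U c) x.1 (hsupp x hx)).hom V →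
              ∀ φ, IsRes τ (X.evaluation (E.U c) x.1 (hsupp x hx)).hom V φ →
              ∏ i, t i = Units.map φ.toMonoidHom (Additive.toMul (ξ x)) ^ N) ∧
            ((∀ (x : PointCo X (e + 2)) (hx : ξ x ≠ 0),
              ¬ DomR τ (X.evaluation (E.U c) x.1 (hsupp x hx)).hom V) → ∏ i, t i = 1)) :
    ∃ N : ℕ, 0 < N ∧ N • ξ ∈ bdChains X (e + 1) := by
  have hl : E.l c ≠ 0 := af_l_ne_zero E hc
  obtain ⟨hU, -⟩ := E.affine c hl
  obtain ⟨y, hy, hker⟩ := bf_point hU Q hQ
  have hcoh : Order.coheight y = ((e + 1 : ℕ) : ℕ∞) := by rw [bf_coheight hU hy, hker, hQh]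
  have hspecx : ∀ (x : PointCo X (e + 2)) (hx : ξ x ≠ 0), y ⤳ x.1 := fun x hx =>
    (specializes_iff_chart (E.U c) hU (hsupp x hx) hy).2
      (fun a ha => hQx x hx (by rw [← hker]; exact ha))
  have halg : (X.evaluation (E.U c) y hy).hom.comp (E.strOn (E.U c)) = E.kres y :=
    RingHom.ext (bf_kres E c hy)
  obtain ⟨Ha, N, hN, r, f, g, hfg, Hb⟩ := H (X.residueField y)
    (X.evaluation (E.U c) y hy).hom (bf_isFrac hU hy) hker
  rw [halg] at Hb
  refine ⟨N, hN, bd_of_tame E e (⟨y, hcoh⟩ : PointCo X (e + 1)) ξ ?_ N r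
    (fun i => Units.mk0 (f i) (hfg i).1) (fun i => Units.mk0 (g i) (hfg i).2) ?_⟩
  · intro x hx
    obtain ⟨V, hV, hVu, φ, hφ, hφb⟩ := Ha x hx
    have hdom : Dominates (hspecx x hx) V :=
      (dominates_iff (E.U c) hU (hspecx x hx) (hsupp x hx) hy V).2 hV
    refine ⟨hspecx x hx, V, hdom, ?_, ?_⟩
    · intro V' hV'
      exact hVu V' ((dominates_iff (E.U c) hU (hspecx x hx) (hsupp x hx) hy V').1 hV')
    · intro z
      obtain ⟨f0, hf0⟩ := hφb.2 z
      obtain ⟨b, hb⟩ := X.residue_surjective x.1 f0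
      refine ⟨b, ⟨evalAt (hspecx x hx) b, (hdom b).1⟩, rfl, ?_⟩
      rw [← hf0, ← hb]
      exact (bf_isRes hU (hspecx x hx) (hsupp x hx) hy V hdom φ hφ b _ rfl).symm
  · intro x h V hV
    have hCV := curveV_of_dom E e hdim hdim2 (⟨y, hcoh⟩ : PointCo X (e + 1)) c hy
      (fun j => (X.evaluation (E.U c) y hy).hom (s j)) (fun j => ⟨s j, fun _ => hs j, rfl⟩)
      x h V hV
    have hfun : (fun i => (X.evaluation (E.U c) y hy).hom
        ((Fin.cons 1 s : Fin (n + 1 + 1) → Γ(X, E.U c)) i)) =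
        (Fin.cons 1 (fun j => (X.evaluation (E.U c) y hy).hom (s j)) :
          Fin (n + 1 + 1) → X.residueField y) := by
      funext i
      refine Fin.cases ?_ (fun j => ?_) i
      · rw [Fin.cons_zero, Fin.cons_zero, map_one]
      · rw [Fin.cons_succ, Fin.cons_succ]
    rw [hfun] at Hb
    obtain ⟨t, ht, h1, h2⟩ := Hb V hCV
    refine ⟨t, fun i => (isTameVal_iff V _ _ _).2 (ht i), ?_⟩
    intro s0 s' hs0 hs'
    by_cases hex : ∃ (x' : PointCo X (e + 2)) (hx' : ξ x' ≠ 0),
        DomR (X.evaluation (E.U c) y hy).hom (X.evaluation (E.U c) x'.1 (hsupp x' hx')).hom V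
    · obtain ⟨x', hx', hdom⟩ := hex
      have hdom' : Dominates (hspecx x' hx') V :=
        (dominates_iff (E.U c) hU (hspecx x' hx') (hsupp x' hx') hy V).2 hdom
      have hxx : x = x' := Subtype.ext (centre_unique E h (hspecx x' hx') V hV hdom')
      subst hxx
      obtain ⟨V0, hV0, hV0u, φ, hφ, -⟩ := Ha x hx'
      have hVV : V = V0 := hV0u V hdom
      subst hVV
      rw [h1 x hx' hdom φ hφ, Units.val_pow_eq_pow_val]
      congr 1
      change φ ((Additive.toMul (ξ x) : (X.residueField x.1)ˣ) : X.residueField x.1) = _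
      rw [← hs0]
      exact bf_isRes hU h (hsupp x hx') hy V hV φ hφ _ s' hs'
    · have hx0 : ξ x = 0 := by
        by_contra hx
        exact hex ⟨x, hx, (dominates_iff (E.U c) hU h (hsupp x hx) hy V).1 hV⟩
      rw [h2 (fun x' hx' hd => hex ⟨x', hx', hd⟩), Units.val_one]
      have h3 : (X.residue x.1).hom (s0 : X.presheaf.stalk x.1) = 1 := by
        rw [hs0, hx0]
        rfl
      have h4 : ¬ IsUnit ((s0 : X.presheaf.stalk x.1) - 1) := by
        intro hu
        have h5 := hu.map (X.residue x.1).hom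
        rw [map_sub, h3, map_one, sub_self] at h5
        exact not_isUnit_zero h5
      have h6 := (hV _).2 h4
      rw [map_sub, map_one, ← hs'] at h6
      have h7 : IsLocalRing.residue V s' = 1 := by
        rw [← sub_eq_zero, ← map_one (IsLocalRing.residue V), ← map_sub,
          IsLocalRing.residue_eq_zero_iff]
        rw [ValuationSubring.mem_nonunits_iff_exists_mem_maximalIdeal] at h6
        obtain ⟨h8, h9⟩ := h6
        exact h9
      rw [h7, one_pow]

theorem bf_sum {G o : Type*} [AddCommGroup G] (H : AddSubgroup G) [Fintype o] (f : o → G)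
    (h : ∀ i, ∃ N : ℕ, 0 < N ∧ N • f i ∈ H) : ∃ N : ℕ, 0 < N ∧ N • ∑ i, f i ∈ H := by
  classical
  choose N hN hNf using h
  refine ⟨∏ i, N i, Finset.prod_pos fun i _ => hN i, ?_⟩
  rw [Finset.smul_sum]
  refine H.sum_mem fun i _ => ?_
  rw [← Finset.mul_prod_erase Finset.univ N (Finset.mem_univ i), mul_comm, mul_smul]
  exact H.nsmul_mem (hNf i) _

theorem bf_dim_sub (a b : ℕ) {D : WithBot ℕ∞}
    (h : (((a : ℕ) : ℕ∞) : WithBot ℕ∞) + D = ((a + b : ℕ) : WithBot ℕ∞)) : D = (b : ℕ) := by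
  induction D with
  | bot =>
    rw [WithBot.add_bot] at h
    exact absurd h.symm WithBot.coe_ne_bot
  | coe D =>
    have h1 : ((a : ℕ) : ℕ∞) + D = ((a + b : ℕ) : ℕ∞) := by
      exact_mod_cast h
    have h2 : D ≠ ⊤ := by
      rintro rfl
      rw [add_top] at h1
      exact absurd h1.symm (ENat.natCast_ne_top _)
    lift D to ℕ using h2
    norm_cast at h1 ⊢
    omega

theorem bf_height_sub (a b : ℕ) {H : ℕ∞}
    (h : ((H : ℕ∞) : WithBot ℕ∞) + (b : ℕ) = ((a + b : ℕ) : WithBot ℕ∞)) : H = (a : ℕ) := by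
  have h1 : H + ((b : ℕ) : ℕ∞) = ((a + b : ℕ) : ℕ∞) := by
    exact_mod_cast h
  have h2 : H ≠ ⊤ := by
    rintro rfl
    rw [top_add] at h1
    exact absurd h1.symm (ENat.natCast_ne_top _)
  lift H to ℕ using h2
  norm_cast at h1 ⊢
  omega

theorem K1_zero_cycles_embed (hB : AffB) (p : ℕ) [Fact p.Prime] {k : Type} [Field k]
    [IsAlgClosed k] [CharP k p] [Algebra (ZMod p) k] [Algebra.IsAlgebraic (ZMod p) k]
    {X : Scheme.{0}} [IsIntegral X] [IsNoetherian X] {n : ℕ} (E : Embed k X n)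
    (hreg : ∀ x : X, IsRegularLocalRing (X.presheaf.stalk x)) (e : ℕ)
    (hdim : ∀ x : X, Order.coheight x ≤ ((e + 3 : ℕ) : ℕ∞))
    (hdim2 : ∃ x : X, Order.coheight x = ((e + 3 : ℕ) : ℕ∞))
    (ξ : KChain X (e + 2)) (hξ : IsCycleK ξ) :
    ∃ N : ℕ, 0 < N ∧ N • ξ ∈ bdChains X (e + 1) := by
  classical
  obtain ⟨Z, hZ, hav⟩ := exists_avoidK (m := e + 2) hdim ξ
  obtain ⟨c, hc, hZc⟩ := exists_form_avoid E Z hZ
  obtain ⟨hsupp, hunit⟩ := hav (E.U c) hZc
  have hl : E.l c ≠ 0 := af_l_ne_zero E hc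
  obtain ⟨hU, -⟩ := E.affine c hl
  obtain ⟨hdom, hregA⟩ := affine_regK (E.U c) hU hc hreg
  let _ : Algebra k Γ(X, E.U c) := (E.strOn (E.U c)).toAlgebra
  obtain ⟨hft, hd, hpt⟩ := affine_dimK E (e + 3) hdim hdim2 c hc
  obtain ⟨s, hs, hadj⟩ := bf_coords E c hc
  let ι : Type := {x : PointCo X (e + 2) // ξ x ≠ 0}
  have hfin : Finite ι := by
    have h1 : (ξ.support : Set (PointCo X (e + 2))).Finite := ξ.support.finite_toSet
    have h2 : (ξ.support : Set (PointCo X (e + 2))) = {x | ξ x ≠ 0} := by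
      ext x
      simp
    rw [h2] at h1
    exact h1.to_subtype
  let F : ι → Type := fun x => (X.residueField x.1.1 : Type)
  let hfield : ∀ x : ι, Field (F x) := fun x => inferInstanceAs (Field (X.residueField x.1.1))
  let ρ : ∀ x : ι, Γ(X, E.U c) →+* F x := fun x =>
    (X.evaluation (E.U c) x.1.1 (hsupp x.1 x.2)).hom
  have hdimK : ringKrullDim Γ(X, E.U c) = ((e + 3 : ℕ) : WithBot ℕ∞) := hd
  have hcurve : ∀ x : ι, ringKrullDim (Γ(X, E.U c) ⧸ RingHom.ker (ρ x)) = 1 := by
    intro x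
    have h1 : (RingHom.ker (ρ x)).IsPrime := RingHom.ker_isPrime (ρ x)
    have h2 := height_add_dim (k := k) (RingHom.ker (ρ x))
    have h3 : (RingHom.ker (ρ x)).height = ((e + 2 : ℕ) : ℕ∞) := by
      rw [← x.1.2]
      exact (bf_coheight hU (hsupp x.1 x.2)).symm
    rw [h3, hdimK] at h2
    exact bf_dim_sub (e + 2) 1 h2
  obtain ⟨κ, hκ, cls, Q, hnone, hQ, hQx, hH⟩ := hB p k Γ(X, E.U c) e hdimK
    (Fin.cons 1 s : Fin (n + 1 + 1) → Γ(X, E.U c)) (Fin.cons_zero _ _) hadj F ρ
    (fun x => bf_isFrac hU (hsupp x.1 x.2)) hcurve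
    (fun x x' h => Subtype.ext (Subtype.ext (bf_eq_of_ker hU (hsupp x.1 x.2) (hsupp x'.1 x'.2) h)))
    (fun x => (Additive.toMul (ξ x.1) : (X.residueField x.1.1)ˣ))
    (fun x v hk hv => centre_outside E c (hsupp x.1 x.2) (Additive.toMul (ξ x.1))
      (fun y hy h => hunit x.1 x.2 y hy h) v
      (fun a => by rw [← bf_kres E c (hsupp x.1 x.2) a]; exact hk a) hv)
    (by
      intro z
      obtain ⟨y, hy, hcoh, hzy⟩ := hpt z
      obtain ⟨m, hm1, hm2, hm3⟩ := hξ y hcoh
      have hm0 : ∀ x : PointCo X (e + 2), ξ x = 0 → m x = 0 := by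
        intro x hx
        by_cases hxy : x.1 ⤳ y
        · have h1 := hm2 x hxy
          rw [hx] at h1
          exact bf_isOrdAt_one hxy _ h1
        · exact hm1 x hxy
      refine ⟨Finsupp.comapDomain (fun x : ι => x.1) m Subtype.val_injective.injOn, ?_, ?_⟩
      · intro x
        change IsOrdR (ρ x) z _ (m x.1)
        by_cases hxy : x.1.1 ⤳ y
        · obtain ⟨a, b, ha, hb, hab, hm⟩ := ord_chart E c hc (hsupp x.1 x.2) hy hxy
            (Additive.toMul (ξ x.1)) (m x.1) (hm2 x.1 hxy) z hzy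
          exact ⟨a, b, ha, hb, hab, hm⟩
        · obtain ⟨a, b, hb, hab⟩ := bf_isFrac hU (hsupp x.1 x.2)
            ((Additive.toMul (ξ x.1) : (X.residueField x.1.1)ˣ) : X.residueField x.1.1)
          have hnle : ¬ RingHom.ker (ρ x) ≤ RingHom.ker z := by
            intro hle
            apply hxy
            apply (specializes_iff_chart (E.U c) hU hy (hsupp x.1 x.2)).2
            intro a ha
            exact (hzy a).1 (hle ha)
          have ha : (X.evaluation (E.U c) x.1.1 (hsupp x.1 x.2)).hom a ≠ 0 := by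
            rw [← hab]
            exact mul_ne_zero (Units.ne_zero _) hb
          refine ⟨a, b, ha, hb, hab, ?_⟩
          rw [hm1 x.1 hxy, ordPt_eq_zero_of_not_le z _ hnle a,
            ordPt_eq_zero_of_not_le z _ hnle b, sub_self]
      · rw [← hm3]
        exact Finsupp.sum_comapDomain (fun x : ι => x.1) m (fun _ a => a) ⟨fun x hx => hx,
          Subtype.val_injective.injOn, fun x hx => ⟨⟨x, fun h0 =>
            Finsupp.mem_support_iff.1 hx (hm0 x h0)⟩, hx, rfl⟩⟩)
  -- the classes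
  let clsX : PointCo X (e + 2) → Option κ := fun x => if h : ξ x ≠ 0 then cls ⟨x, h⟩ else none
  have hclsX : ∀ (x : PointCo X (e + 2)) (h : ξ x ≠ 0), clsX x = cls ⟨x, h⟩ := fun x h => dif_pos h
  have hfinκ : Fintype κ := Fintype.ofFinite κ
  have hsum : ξ = ∑ o : Option κ, ξ.filter (fun x => clsX x = o) := by
    ext x : 1
    rw [DFinsupp.finsetSum_apply]
    simp only [DFinsupp.filter_apply]
    rw [Finset.sum_ite_eq Finset.univ (clsX x) (fun _ => ξ x), if_pos (Finset.mem_univ _)]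
  rw [hsum]
  refine bf_sum (bdChains X (e + 1)) (fun o : Option κ => ξ.filter (fun x => clsX x = o)) ?_
  intro o
  cases o with
  | none =>
    -- torsion units
    have h1 : ∀ x : ι, ∃ N : ℕ, 0 < N ∧ (cls x = none → N • ξ x.1 = 0) := by
      intro x
      by_cases hx : cls x = none
      · obtain ⟨N, hN, hNx⟩ := hnone x hx
        refine ⟨N, hN, fun _ => ?_⟩
        exact hNx
      · exact ⟨1, one_pos, fun h => absurd h hx⟩
    choose N hN hNx using h1
    have hfinι : Fintype ι := Fintype.ofFinite ι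
    refine ⟨∏ x, N x, Finset.prod_pos fun x _ => hN x, ?_⟩
    have h2 : (∏ x, N x) • ξ.filter (fun x => clsX x = none) = 0 := by
      ext x : 1
      rw [DFinsupp.smul_apply, DFinsupp.filter_apply]
      by_cases hx : clsX x = none
      · rw [if_pos hx]
        by_cases h0 : ξ x = 0
        · rw [h0, smul_zero]
          rfl
        · rw [hclsX x h0] at hx
          rw [← Finset.mul_prod_erase Finset.univ N (Finset.mem_univ ⟨x, h0⟩), mul_comm, mul_smul,
            hNx ⟨x, h0⟩ hx, smul_zero]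
          rfl
      · rw [if_neg hx, smul_zero]
        rfl
    rw [h2]
    exact AddSubgroup.zero_mem _
  | some q =>
    have hfil : ∀ x : PointCo X (e + 2), (ξ.filter (fun x => clsX x = some q)) x ≠ 0 →
        ∃ h : ξ x ≠ 0, cls ⟨x, h⟩ = some q ∧ (ξ.filter (fun x => clsX x = some q)) x = ξ x := by
      intro x hx
      rw [DFinsupp.filter_apply] at hx
      by_cases h1 : clsX x = some q
      · rw [if_pos h1] at hx
        refine ⟨hx, by rw [← hclsX x hx]; exact h1, ?_⟩
        rw [DFinsupp.filter_apply, if_pos h1]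
      · rw [if_neg h1] at hx
        exact absurd rfl hx
    have hfil' : ∀ (x : PointCo X (e + 2)) (h : ξ x ≠ 0), cls ⟨x, h⟩ = some q →
        (ξ.filter (fun x => clsX x = some q)) x ≠ 0 := by
      intro x h h1
      rw [DFinsupp.filter_apply, if_pos (by rw [hclsX x h]; exact h1)]
      exact h
    obtain ⟨hQp, hQ2⟩ := hQ q
    have hQh : (Q q).height = ((e + 1 : ℕ) : ℕ∞) := by
      have h2 := height_add_dim (k := k) (Q q)
      rw [hQ2, hdimK] at h2
      exact bf_height_sub (e + 1) 2 h2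
    refine bf_class E e hdim hdim2 c hc s hs (Q q) hQp hQh _
      (fun x hx => hsupp x (hfil x hx).1)
      (fun x hx => hQx ⟨x, (hfil x hx).1⟩ q (hfil x hx).2.1) ?_
    intro K _ τ hτ hτk
    obtain ⟨Ha, N, hN, r, f, g, hfg, Hb⟩ := hH q K τ hτ hτk
    refine ⟨?_, N, hN, r, f, g, hfg, ?_⟩
    · intro x hx
      obtain ⟨V, hV, -, hVu, φ, hφ, hφb⟩ := Ha ⟨x, (hfil x hx).1⟩ (hfil x hx).2.1
      exact ⟨V, hV, hVu, φ, hφ, hφb⟩
    · intro V hV
      obtain ⟨t, ht, h1, h2⟩ := Hb V hV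
      refine ⟨t, ht, ?_, ?_⟩
      · intro x hx hd φ hφ
        rw [(hfil x hx).2.2]
        exact h1 ⟨x, (hfil x hx).1⟩ (hfil x hx).2.1 hd φ hφ
      · intro h3
        apply h2
        intro x hx hd
        exact h3 x.1 (hfil' x.1 x.2 hx) hd

/-- The theorem for closed subschemes of projective space, from the affine theorem. -/
theorem K1_zero_cycles_of (hB : AffB) (p : ℕ) [Fact p.Prime] (k : Type) [Field k]
    [IsAlgClosed k] [Algebra (ZMod p) k] [Algebra.IsAlgebraic (ZMod p) k] (n e : ℕ)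
    (X : Scheme.{0}) [IsIntegral X] [IsNoetherian X] (i : X ⟶ PN k n) [IsClosedImmersion i]
    (hreg : ∀ x : X, IsRegularLocalRing (X.presheaf.stalk x))
    (hdim : ∀ x : X, Order.coheight x ≤ ((e + 3 : ℕ) : ℕ∞))
    (hdim2 : ∃ x : X, Order.coheight x = ((e + 3 : ℕ) : ℕ∞))
    (ξ : KChain X (e + 2)) (hξ : IsCycleK ξ) :
    ∃ N : ℕ, 0 < N ∧ N • ξ ∈ bdChains X (e + 1) := by
  have hp : CharP k p := charP_of_injective_algebraMap (algebraMap (ZMod p) k).injective p
  obtain ⟨E⟩ := exists_embed k n X i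
  exact K1_zero_cycles_embed hB p E hreg e hdim hdim2 ξ hξ

end Pool.Agent.K1
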