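import Pool.Agent.K1.L3Defs

/-!
Theorem N, the definitions: the theorem for normal projective surfaces, in birational form.  The
surface is given by its function field `K` and by homogeneous coordinates `w` in `K`; its curves
are the valuation rings of `K` with centre of dimension one.
-/

set_option autoImplicit false

namespace Pool.Agent.K1

section

variable {k K : Type} [Field k] [Field K] [Algebra k K]

/-- `t` is the tame symbol `(-1)^(v(f) v(g)) f^v(g) / g^v(f)` of `f` and `g` at the discrete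
valuation ring `V`. -/
def IsTameV (V : ValuationSubring K) (f g : K) (t : (IsLocalRing.ResidueField V)ˣ) : Prop :=
  ∃ (ϖ : V) (a b : ℤ) (u v : Vˣ), IsLocalRing.maximalIdeal V = Ideal.span {ϖ} ∧
    f = (ϖ : K) ^ a * ((u : V) : K) ∧ g = (ϖ : K) ^ b * ((v : V) : K) ∧
    t = (-1) ^ (a * b) * (Units.map (IsLocalRing.residue V).toMonoidHom u ^ b /
      Units.map (IsLocalRing.residue V).toMonoidHom v ^ a)

/-- `V` is the valuation ring of a curve (of the normalization) of the projective surface with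
function field `K` and homogeneous coordinates `w`: it contains the constants, it is not `K`, and
its centre is not a closed point. -/
def CurveV (k : Type) {K : Type} [Field k] [Field K] [Algebra k K] {n : ℕ} (w : Fin (n + 1) → K)
    (V : ValuationSubring K) : Prop :=
  V ≠ ⊤ ∧ (∀ c : k, algebraMap k K c ∈ V) ∧ ∃ j, w j ≠ 0 ∧ (∀ i, w i / w j ∈ V) ∧
    ∃ i, ∀ c : k, w i / w j - algebraMap k K c ∉ V.nonunits

/-- The centre on `Spec A` of the valuation ring `V` is the curve `P`. -/
def OverV {A : Type} [CommRing A] [Algebra A K] (P : Curve1 A) (V : ValuationSubring K) : Prop :=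
  ∀ a : A, algebraMap A K a ∈ V ∧ (a ∈ P.ideal ↔ algebraMap A K a ∈ V.nonunits)

/-- The point `z` of `Spec A` is regular. -/
def RegPt {A : Type} [CommRing A] [Algebra k A] (z : A →ₐ[k] k) : Prop :=
  IsRegularLocalRing (LocAt z)

end

/-- The statement of Theorem N: chains on the regular part of a projective surface. -/
def ThmN : Prop :=
  ∀ (p : ℕ) [Fact p.Prime] (k A K : Type) [Field k] [CharP k p] [IsAlgClosed k]
    [Algebra (ZMod p) k] [Algebra.IsAlgebraic (ZMod p) k] [CommRing A] [IsDomain A] [Algebra k A]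
    [Field K] [Algebra k K] [Algebra A K] [IsScalarTower k A K] [IsFractionRing A K]
    (_ : Algebra.trdeg k K = 2) {n : ℕ} (w : Fin (n + 1) → K) (_ : w 0 ≠ 0)
    (_ : Set.range (algebraMap A K) =
      (Algebra.adjoin k (Set.range fun i => w i / w 0) : Set K))
    (ξ : Chain1 A)
    (_ : ∀ P, ξ P ≠ 0 → IsDiscreteValuationRing (Localization.AtPrime P.ideal))
    (_ : ∀ P, ξ P ≠ 0 → ∀ v : ValuationSubring (kap P),
      (∀ c : k, res P (algebraMap k A c) ∈ v) →
      (((Additive.toMul (ξ P) : (kap P)ˣ) : kap P) ∈ v ∧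
        (((Additive.toMul (ξ P))⁻¹ : (kap P)ˣ) : kap P) ∈ v) ∨
      ∃ z : A →ₐ[k] k, RegPt z ∧ ∀ a : A, res P a ∈ v ∧ (z a = 0 → res P a ∈ v.nonunits))
    (_ : ∀ z : A →ₐ[k] k, RegPt z → ∃ m : Curve1 A →₀ ℤ,
      (∀ P, IsOrdZ P z (Additive.toMul (ξ P)) (m P)) ∧ m.sum (fun _ a => a) = 0),
    ∃ N : ℕ, 0 < N ∧ ∃ (r : ℕ) (f g : Fin r → K), (∀ i, f i ≠ 0 ∧ g i ≠ 0) ∧
      ∀ V : ValuationSubring K, CurveV k w V →
        ∃ t : Fin r → (IsLocalRing.ResidueField V)ˣ, (∀ i, IsTameV V (f i) (g i) (t i)) ∧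
          (∀ P : Curve1 A, OverV P V → ∀ a b : A, b ∉ P.ideal →
            ((Additive.toMul (ξ P) : (kap P)ˣ) : kap P) * res P b = res P a →
            ∀ a' b' : V, (a' : K) = algebraMap A K a → (b' : K) = algebraMap A K b →
              ((∏ i, t i : (IsLocalRing.ResidueField V)ˣ) : IsLocalRing.ResidueField V) *
                IsLocalRing.residue V b' ^ N = IsLocalRing.residue V a' ^ N) ∧
          ((∀ P : Curve1 A, ξ P ≠ 0 → ¬ OverV P V) → ∏ i, t i = 1)

end Pool.Agent.K1
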