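import Pool.Agent.K1.BDefs
import Pool.Agent.K1.NDefs

/-!
(B), the interface between the construction of the surfaces and Theorem N.
-/

set_option autoImplicit false

open AlgebraicGeometry CategoryTheory

namespace Pool.Agent.K1

/-- The values at the point `z` of the functions on `U c`. -/
noncomputable def evU {k : Type} [Field k] {X : Scheme.{0}} [IsIntegral X] {n : ℕ}
    (E : Embed k X n) (c : Fin (n + 1) → k) {z : X} (hz : z ∈ E.U c) :
    Γ(X, E.U c) →+* X.residueField z := (X.evaluation (E.U c) z hz).hom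

/-- `ω` are the homogeneous coordinates of the closure of `η`, divided by the form `c`. -/
def IsCoord {k : Type} [Field k] {X : Scheme.{0}} [IsIntegral X] {n : ℕ}
    (E : Embed k X n) (c : Fin (n + 1) → k) {η : X} (hη : η ∈ E.U c)
    (ω : Fin (n + 1) → X.residueField η) : Prop :=
  ∀ j, ∃ a : Γ(X, E.U c),
    (∀ hg : genericPoint X ∈ E.U c,
      (X.presheaf.germ (E.U c) (genericPoint X) hg).hom a = E.w j / E.l c) ∧
    evU E c hη a = ω j

/-- The homogeneous coordinates `(1, ω, t, t ω)`. -/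
def segre {K : Type} [Field K] {n : ℕ} (ω : Fin (n + 1) → K) (t : K) :
    Fin ((n + 2) + (n + 1) + 1) → K :=
  (Fin.append (Fin.cons 1 ω : Fin (n + 2) → K)
    (fun i : Fin (n + 2) => t * (Fin.cons 1 ω : Fin (n + 2) → K) i) :
    Fin ((n + 2) + (n + 2)) → K)

/-- The centre of `V` on `Spec A`, for the homomorphism `j` from `A` to the field, is the curve
`P`. -/
def OverJ {A K : Type} [CommRing A] [Field K] (j : A →+* K) (P : Curve1 A)
    (V : ValuationSubring K) : Prop :=
  ∀ a : A, j a ∈ V ∧ (a ∈ P.ideal ↔ j a ∈ V.nonunits)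

/-- The chain `ξ` on `X` is supported on a surface (the closure of `η`), and it lifts to a chain
on the affine surface `Spec A` in `X × 𝔸¹` (the graph of `t`), to which Theorem N applies. -/
def SurfGood {k : Type} [Field k] {X : Scheme.{0}} [IsIntegral X] {n : ℕ}
    (E : Embed k X n) (e : ℕ) (ξ : KChain X (e + 2)) : Prop :=
  ∃ (η : PointCo X (e + 1)) (t : X.residueField η.1) (c : Fin (n + 1) → k) (hη : η.1 ∈ E.U c)
    (ω : Fin (n + 1) → X.residueField η.1) (A : Type) (_ : CommRing A) (_ : IsDomain A)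
    (_ : Algebra k A) (j : A →+* X.residueField η.1) (ζ : Chain1 A),
    IsCoord E c hη ω ∧
    Function.Injective j ∧
    (∀ z, ∃ a b : A, b ≠ 0 ∧ z * j b = j a) ∧
    (∀ a : k, j (algebraMap k A a) = E.kres η.1 a) ∧
    Set.range j = Subring.closure (Set.range (E.kres η.1) ∪ Set.range (segre ω t)) ∧
    (letI := (E.kres η.1).toAlgebra; Algebra.trdeg k (X.residueField η.1) = 2) ∧
    -- the chain `ζ` satisfies the hypotheses of Theorem N
    (∀ P, ζ P ≠ 0 → IsDiscreteValuationRing (Localization.AtPrime P.ideal)) ∧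
    (∀ P, ζ P ≠ 0 → ∀ v : ValuationSubring (kap P),
      (∀ a : k, res P (algebraMap k A a) ∈ v) →
      (((Additive.toMul (ζ P) : (kap P)ˣ) : kap P) ∈ v ∧
        (((Additive.toMul (ζ P))⁻¹ : (kap P)ˣ) : kap P) ∈ v) ∨
      ∃ z : A →ₐ[k] k, RegPt z ∧ ∀ a : A, res P a ∈ v ∧ (z a = 0 → res P a ∈ v.nonunits)) ∧
    (∀ z : A →ₐ[k] k, RegPt z → ∃ m : Curve1 A →₀ ℤ,
      (∀ P, IsOrdZ P z (Additive.toMul (ζ P)) (m P)) ∧ m.sum (fun _ a => a) = 0) ∧
    -- the curves of `ξ`
    (∀ x : PointCo X (e + 2), ξ x ≠ 0 → ∃ (h : η.1 ⤳ x.1)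
      (V : ValuationSubring (X.residueField η.1)), ∀ f, f ∈ V ↔ ∃ b, evalAt h b = f) ∧
    -- `ζ` and `ξ` agree
    (∀ (x : PointCo X (e + 2)) (h : η.1 ⤳ x.1) (V : ValuationSubring (X.residueField η.1)),
      Dominates h V → ∀ P : Curve1 A, OverJ j P V → ∀ a b : A, b ∉ P.ideal →
      ((Additive.toMul (ζ P) : (kap P)ˣ) : kap P) * res P b = res P a →
      ∀ s : (X.presheaf.stalk x.1)ˣ, (X.residue x.1).hom s =
        ((Additive.toMul (ξ x) : (X.residueField x.1)ˣ) : X.residueField x.1) →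
      j a - evalAt h s * j b ∈ V.nonunits) ∧
    (∀ (x : PointCo X (e + 2)) (h : η.1 ⤳ x.1) (V : ValuationSubring (X.residueField η.1)),
      Dominates h V → (∀ P : Curve1 A, ζ P ≠ 0 → ¬ OverJ j P V) → ξ x = 0)

end Pool.Agent.K1
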