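import Mathlib

/-!
The class of surfaces: affine rings with a one place expansion along a section.
-/

open Polynomial

namespace Pool.Agent.K1

/-- `A` is (the coordinate ring of) a surface fibred over the `s`-line with integral fibres,
minus a section `σ`; `ι` is the expansion of functions along the section: `k[s]((t))` is
`LaurentSeries k[X]`. -/
structure SectionExp (k A : Type*) [Field k] [CommRing A] [Algebra k A] where
  /-- the coordinate of the base -/
  s : A
  /-- the expansion along the section -/
  ι : A →+* LaurentSeries k[X]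
  inj : Function.Injective ι
  ι_C : ∀ a : k, ι (algebraMap k A a) = HahnSeries.C (C a)
  ι_s : ι s = HahnSeries.C X
  /-- functions without pole along the section come from the base -/
  pole : ∀ f : A, (∀ i < 0, (ι f).coeff i = 0) → ∃ P : k[X], f = aeval s P
  /-- functions with any large pole order and leading coefficient one exist -/
  mono : ∃ j₀ : ℕ, ∀ j : ℕ, j₀ ≤ j → ∃ u : A, (ι u).coeff (-(j : ℤ)) = 1 ∧
    ∀ i < -(j : ℤ), (ι u).coeff i = 0
  /-- the fibres are integral -/
  fibre : ∀ (c : k) (f : A), (∀ i, (X - C c) ∣ (ι f).coeff i) →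
    (s - algebraMap k A c) ∣ f
  /-- the parameter `t` is algebraic: coefficients grow at most linearly -/
  growth : ∃ κ : ℕ, ∀ f : A, ∃ e : ℕ, ∀ i : ℤ, ((ι f).coeff i).natDegree ≤ e + κ * i.toNat

namespace SectionExp

variable {k A : Type*} [Field k] [CommRing A] [Algebra k A] (E : SectionExp k A)

/-- The coefficients of the expansion. -/
noncomputable def co (f : A) (i : ℤ) : k[X] := (E.ι f).coeff i

/-- `W(f) < w`, where `W(s) = n`, `W(t) = -M`. -/
def WLt (n M : ℕ) (w : ℤ) (f : A) : Prop :=
  ∀ i : ℤ, E.co f i ≠ 0 → (n : ℤ) * ((E.co f i).natDegree : ℤ) < w + M * i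

/-- The form of `f` of highest weight is `s^i t^-a`; its weight is `n * i + M * a`. -/
def Top (n M i a : ℕ) (f : A) : Prop :=
  (E.co f (-(a : ℤ))).Monic ∧ (E.co f (-(a : ℤ))).natDegree = i ∧
    ∀ l : ℤ, l ≠ -(a : ℤ) → E.co f l ≠ 0 →
      (n : ℤ) * ((E.co f l).natDegree : ℤ) < n * i + M * (a + l)

/-- The class `V(n, M)` of equations of curves with one place at infinity: highest form
`s^M + t^-n`. -/
def InV (n M : ℕ) (q : A) : Prop :=
  ∃ c : k[X], c.Monic ∧ c.natDegree = M ∧ E.Top n M 0 n (q - aeval E.s c)

end SectionExp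

end Pool.Agent.K1
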