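import Pool.Agent.K1.LocalLength
import Pool.Agent.K1.SectionExpDef

/-!
Definitions for part B of the K1 project (local theory, moving lemma, end game).

`Λ f g` is the value of the functional on the chain `sum over the components P of f of
ord_P(f) (P, g mod P)`, for `f`, `g` without common component.
-/

set_option autoImplicit false

open Polynomial

namespace Pool.Agent.K1

/-- `f` and `g` have no common component (prime of height one). -/
def Cop {A : Type*} [CommRing A] (f g : A) : Prop :=
  f ≠ 0 ∧ g ≠ 0 ∧ ∀ P : Ideal A, P.IsPrime → P.height = 1 → f ∈ P → g ∉ P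

/-- The symbol `Λ f g` of a functional which kills the tame symbols. -/
structure IsSymb {A : Type*} [CommRing A] (Λ : A → A → ℚ) : Prop where
  symm : ∀ f g, Cop f g → Λ f g = Λ g f
  mul : ∀ f g h, Cop f g → Cop f h → Λ f (g * h) = Λ f g + Λ f h
  add : ∀ f g r, Cop f g → Cop f (g + f * r) → Λ f (g + f * r) = Λ f g

section points

variable {k A : Type*} [Field k] [CommRing A] [Algebra k A]

/-- At the point `x` the curve `q = 0` is transversal to the fibre of `s`: the ideal of `x` is
generated by `q` and `s - s(x)` in the local ring of `x`. -/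
def Transv (s q : A) (x : A →ₐ[k] k) : Prop :=
  ∃ a : A, x a ≠ 0 ∧
    ∀ f : A, x f = 0 → a * f ∈ Ideal.span {q, s - algebraMap k A (x s)}

instance ker_isPrime' (x : A →ₐ[k] k) : (RingHom.ker x).IsPrime := RingHom.ker_isPrime x

/-- The local ring at the point `x`. -/
abbrev LocAt (x : A →ₐ[k] k) : Type _ := Localization.AtPrime (RingHom.ker x)

/-- The local intersection number of `f` and `g` at `x`. -/
noncomputable def lenAt (x : A →ₐ[k] k) (f g : A) : ℕ∞ :=
  len (algebraMap A (LocAt x) f) (algebraMap A (LocAt x) g)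

/-- Local decomposition of the functional `Λ q` on the curve `q = 0`. -/
structure LocDec (Λ : A → A → ℚ) (q : A) (e : (A →ₐ[k] k) → A → ℚ) : Prop where
  mul : ∀ x f g, f ∉ Ideal.span {q} → g ∉ Ideal.span {q} → e x (f * g) = e x f + e x g
  unit : ∀ x f, x f ≠ 0 → e x f = 0
  add : ∀ x f r, e x (f + q * r) = e x f
  off : ∀ x f, x q ≠ 0 → e x f = 0
  fin : ∀ f, f ∉ Ideal.span {q} → {x : A →ₐ[k] k | x q = 0 ∧ x f = 0}.Finite
  sum : ∀ f, f ∉ Ideal.span {q} → Λ q f = ∑ᶠ x, e x f

end points

namespace SectionExp

variable {k A : Type*} [Field k] [CommRing A] [Algebra k A] (E : SectionExp k A)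

/-- The class of curves `V(q₀, z)`: `W(q - q₀) < z`. -/
def Near (n M : ℕ) (z : ℤ) (q₀ : A) : Set A := {q | E.WLt n M z (q - q₀)}

end SectionExp

end Pool.Agent.K1
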