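import Pool.Agent.K1.M6b
import Pool.Agent.K1.DefsB

/-!
K1-B10c: `A/(q)` is free over `k[s]`; bound of the intersection numbers of `q` with fibres.
-/

set_option autoImplicit false

open Polynomial

namespace Pool.Agent.K1

namespace BasisQuot

section general

variable {O : Type*} [CommRing O]

theorem len_mul_le (f g₁ g₂ : O) : len f (g₁ * g₂) ≤ len f g₁ + len f g₂ := by
  have hle : Ideal.span {f, g₁ * g₂} ≤ Ideal.span {f, g₁} := by
    rw [Ideal.span_le]
    rintro x (rfl | rfl)
    · exact Ideal.subset_span (by simp)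
    · exact Ideal.mul_mem_right _ _ (Ideal.subset_span (by simp))
  have hle2 : Ideal.span {f, g₂} ≤
      Submodule.comap (LinearMap.mulLeft O g₁) (Ideal.span {f, g₁ * g₂}) := by
    rw [Ideal.span_le]
    rintro x (rfl | rfl)
    · change g₁ * x ∈ Ideal.span {x, g₁ * g₂}
      exact Ideal.mul_mem_left _ _ (Ideal.subset_span (by simp))
    · change g₁ * x ∈ Ideal.span {f, g₁ * x}
      exact Ideal.subset_span (by simp)
  let i : (O ⧸ Ideal.span {f, g₂}) →ₗ[O] (O ⧸ Ideal.span {f, g₁ * g₂}) :=
    Submodule.mapQ _ _ (LinearMap.mulLeft O g₁) hle2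
  let q : (O ⧸ Ideal.span {f, g₁ * g₂}) →ₗ[O] (O ⧸ Ideal.span {f, g₁}) :=
    Submodule.mapQ _ _ LinearMap.id hle
  have hq : Function.Surjective q := by
    rintro ⟨x⟩
    exact ⟨Submodule.Quotient.mk x, rfl⟩
  have hex : Function.Exact (LinearMap.range i).subtype q := by
    rintro ⟨x⟩
    constructor
    · intro hx
      have h1 : x ∈ Ideal.span {f, g₁} := (Submodule.Quotient.mk_eq_zero _).1 hx
      rw [Ideal.mem_span_pair] at h1
      obtain ⟨a, b, hab⟩ := h1
      have h2 : i (Submodule.Quotient.mk b) = Submodule.Quotient.mk x := by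
        apply (Submodule.Quotient.eq _).2
        change g₁ * b - x ∈ _
        rw [Ideal.mem_span_pair]
        exact ⟨-a, 0, by linear_combination -hab⟩
      exact ⟨⟨_, ⟨_, h2⟩⟩, rfl⟩
    · rintro ⟨⟨_, ⟨⟨y⟩, rfl⟩⟩, hy⟩
      have h1 : g₁ * y - x ∈ Ideal.span {f, g₁ * g₂} := (Submodule.Quotient.eq _).1 hy
      apply (Submodule.Quotient.mk_eq_zero _).2
      have h2 : g₁ * y ∈ Ideal.span {f, g₁} := Ideal.mul_mem_right _ _ (Ideal.subset_span (by simp))
      have h3 := Ideal.sub_mem _ h2 (hle h1)
      rwa [sub_sub_cancel] at h3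
  unfold len
  rw [Module.length_eq_add_of_exact _ q (LinearMap.range i).injective_subtype hq hex, add_comm]
  gcongr
  exact Module.length_le_of_surjective i.rangeRestrict i.surjective_rangeRestrict

theorem len_pow_le (f g : O) (m : ℕ) : len f (g ^ m) ≤ m * len f g := by
  induction m with
  | zero => simp [len_unit f isUnit_one]
  | succ m ih =>
    rw [pow_succ]
    refine (len_mul_le _ _ _).trans ?_
    push_cast
    rw [add_mul, one_mul]
    gcongr

end general

section point

variable {k A : Type} [Field k] [CommRing A] [Algebra k A]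

theorem isUnit_germ (x : A →ₐ[k] k) {g : A} (hg : x g ≠ 0) :
    IsUnit (algebraMap A (LocAt x) g) :=
  IsLocalization.map_units (LocAt x) (⟨g, hg⟩ : (RingHom.ker x).primeCompl)

/-- the length of a quotient of the local ring is at most the dimension of a space spanning it -/
theorem length_le (x : A →ₐ[k] k) (J : Ideal (LocAt x)) (r : ℕ) (b : Fin r → A)
    (hb : ∀ f : A, ∃ c : Fin r → k, algebraMap A (LocAt x) (f - ∑ j, algebraMap k A (c j) * b j) ∈
      J) : Module.length (LocAt x) (LocAt x ⧸ J) ≤ r := by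
  classical
  let ψ : (Fin r → k) →ₗ[k] (LocAt x ⧸ J) :=
    Fintype.linearCombination k (fun j => Ideal.Quotient.mk J (algebraMap A (LocAt x) (b j)))
  have hsm : ∀ (t : k) (g : A), t • Ideal.Quotient.mk J (algebraMap A (LocAt x) g) =
      Ideal.Quotient.mk J (algebraMap A (LocAt x) (algebraMap k A t * g)) := by
    intro t g
    have h1 : t • algebraMap A (LocAt x) g = algebraMap A (LocAt x) (algebraMap k A t * g) := by
      rw [Algebra.smul_def, map_mul, ← IsScalarTower.algebraMap_apply]
    rw [← h1]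
    rfl
  have hψc : ∀ c : Fin r → k, ψ c = Ideal.Quotient.mk J (algebraMap A (LocAt x)
      (∑ j, algebraMap k A (c j) * b j)) := by
    intro c
    rw [map_sum, map_sum]
    change ∑ j, c j • Ideal.Quotient.mk J (algebraMap A (LocAt x) (b j)) = _
    exact Finset.sum_congr rfl (fun j _ => hsm _ _)
  have hψ : ∀ f : A, Ideal.Quotient.mk J (algebraMap A (LocAt x) f) ∈ LinearMap.range ψ := by
    intro f
    obtain ⟨c, hc⟩ := hb f
    refine ⟨c, ?_⟩
    rw [map_sub, ← Ideal.Quotient.eq] at hc
    rw [hc, hψc]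
  have htop : LinearMap.range ψ = ⊤ := by
    rw [eq_top_iff]
    rintro z -
    obtain ⟨z, rfl⟩ := Ideal.Quotient.mk_surjective z
    obtain ⟨f, ⟨g, hg⟩, rfl⟩ := IsLocalization.exists_mk'_eq (RingHom.ker x).primeCompl z
    have hu : IsUnit (algebraMap A (LocAt x) g) := isUnit_germ x hg
    let G : (LocAt x ⧸ J) →ₗ[k] (LocAt x ⧸ J) :=
      (LinearMap.lsmul (LocAt x) (LocAt x ⧸ J) (algebraMap A (LocAt x) g)).restrictScalars k
    have hGinj : Function.Injective G := by
      intro y y' hyy
      exact hu.smul_left_cancel.1 hyy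
    have hGT : (LinearMap.range ψ).map G ≤ LinearMap.range ψ := by
      rintro _ ⟨_, ⟨c, rfl⟩, rfl⟩
      have h1 : G (ψ c) = Ideal.Quotient.mk J (algebraMap A (LocAt x)
          (g * ∑ j, algebraMap k A (c j) * b j)) := by
        rw [hψc, map_mul, map_mul]
        rfl
      rw [h1]
      exact hψ _
    have hfin : FiniteDimensional k (LinearMap.range ψ) := inferInstance
    have heq : (LinearMap.range ψ).map G = LinearMap.range ψ := by
      apply Submodule.eq_of_le_of_finrank_eq hGT
      exact (LinearEquiv.finrank_eq (Submodule.equivMapOfInjective G hGinj _)).symm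
    have h2 := hψ f
    rw [← heq] at h2
    obtain ⟨y, hy, hy2⟩ := h2
    have h3 : y = Ideal.Quotient.mk J (IsLocalization.mk' (LocAt x) f ⟨g, hg⟩) := by
      apply hGinj
      rw [hy2]
      have h4 : G (Ideal.Quotient.mk J (IsLocalization.mk' (LocAt x) f ⟨g, hg⟩)) =
          Ideal.Quotient.mk J (algebraMap A (LocAt x) g *
            IsLocalization.mk' (LocAt x) f ⟨g, hg⟩) := rfl
      rw [h4, mul_comm]
      congr 1
      exact (IsLocalization.mk'_spec (LocAt x) f ⟨g, hg⟩).symm
    rw [← h3]
    exact hy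
  have h1 : Module.length (LocAt x) (⊤ : Submodule (LocAt x) (LocAt x ⧸ J)) ≤ r := by
    refine (Submodule.length_le_length_restrictScalars k _).trans ?_
    rw [Submodule.restrictScalars_top, Module.length_top]
    refine (Module.length_le_of_surjective ψ (LinearMap.range_eq_top.1 htop)).trans ?_
    rw [Module.length_eq_finrank]
    simp
  rwa [Module.length_top] at h1

end point

end BasisQuot

open BasisQuot

/-- `A/(q)` is free over `k[s]`. -/
theorem exists_basis_quot {k A : Type} [Field k] [IsAlgClosed k] [CommRing A] [IsDomain A]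
    [Algebra k A] (E : SectionExp k A) (d : ℕ) (hd : 1 ≤ d) (q : A) (hq : E.MonicAt d q) :
    ∃ (r : ℕ) (b : Fin r → A),
      (∀ f : A, ∃ c : Fin r → k[X], q ∣ f - ∑ j, aeval E.s (c j) * b j) ∧
      (∀ c : Fin r → k[X], q ∣ ∑ j, aeval E.s (c j) * b j → c = 0) := by
  classical
  let φ : k[X] →+* (A ⧸ Ideal.span {q}) :=
    (Ideal.Quotient.mk (Ideal.span {q})).comp (aeval E.s : k[X] →ₐ[k] A).toRingHom
  let _ : Module k[X] (A ⧸ Ideal.span {q}) := Module.compHom _ φ
  have hsm : ∀ (c : k[X]) (f : A), c • (Ideal.Quotient.mk (Ideal.span {q}) f) =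
      Ideal.Quotient.mk (Ideal.span {q}) (aeval E.s c * f) := by
    intro c f
    rw [map_mul]
    rfl
  have hfin : Module.Finite k[X] (A ⧸ Ideal.span {q}) := by
    obtain ⟨G, hG⟩ := E.M6b_finite d hd q hq
    refine ⟨⟨G.image (Ideal.Quotient.mk (Ideal.span {q})), ?_⟩⟩
    rw [eq_top_iff]
    rintro z -
    obtain ⟨f, rfl⟩ := Ideal.Quotient.mk_surjective z
    obtain ⟨P, hP⟩ := hG f
    rw [hP, map_sum]
    apply Submodule.sum_mem
    intro g hg
    obtain ⟨u, hu⟩ := SectionExp.M6b.evT_mod E q (P g)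
    have h1 : Ideal.Quotient.mk (Ideal.span {q}) (E.evT q (P g) * g) =
        ((P g).coeff 0) • Ideal.Quotient.mk (Ideal.span {q}) g := by
      rw [hsm, Ideal.Quotient.eq, hu, Ideal.mem_span_singleton]
      exact ⟨u * g, by ring⟩
    rw [h1]
    apply Submodule.smul_mem
    apply Submodule.subset_span
    exact Finset.mem_coe.2 (Finset.mem_image_of_mem _ hg)
  have htf : Module.IsTorsionFree k[X] (A ⧸ Ideal.span {q}) := by
    apply Module.IsTorsionFree.of_smul_eq_zero
    intro c z h
    obtain ⟨f, rfl⟩ := Ideal.Quotient.mk_surjective z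
    rw [hsm, Ideal.Quotient.eq_zero_iff_mem, Ideal.mem_span_singleton] at h
    by_cases hc : c = 0
    · exact Or.inl hc
    · right
      obtain ⟨g, hg⟩ := h
      obtain ⟨g', hg'⟩ := E.M6b_torsion d q hq c hc f g hg
      rw [Ideal.Quotient.eq_zero_iff_mem, Ideal.mem_span_singleton]
      exact ⟨g', hg'⟩
  have hfree : Module.Free k[X] (A ⧸ Ideal.span {q}) := Module.free_of_finite_type_torsion_free'
  let B := Module.finBasis k[X] (A ⧸ Ideal.span {q})
  choose b hb using fun j => Ideal.Quotient.mk_surjective (I := Ideal.span {q}) (B j)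
  have hsum : ∀ c : Fin (Module.finrank k[X] (A ⧸ Ideal.span {q})) → k[X],
      Ideal.Quotient.mk (Ideal.span {q}) (∑ j, aeval E.s (c j) * b j) = ∑ j, c j • B j := by
    intro c
    rw [map_sum]
    apply Finset.sum_congr rfl
    intro j _
    rw [← hsm, hb]
  refine ⟨_, b, fun f => ⟨B.repr (Ideal.Quotient.mk (Ideal.span {q}) f), ?_⟩, fun c hc => ?_⟩
  · rw [← Ideal.mem_span_singleton, ← Ideal.Quotient.eq, hsum, B.sum_repr]
  · rw [← Ideal.mem_span_singleton, ← Ideal.Quotient.eq_zero_iff_mem, hsum] at hc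
    funext j
    exact (Fintype.linearIndependent_iff.1 B.linearIndependent) c hc j

/-- bound of the intersection numbers with fibres. -/
theorem lenAt_le_rank {k A : Type} [Field k] [IsAlgClosed k] [CommRing A] [IsDomain A]
    [Algebra k A] (E : SectionExp k A) (q : A) (r : ℕ) (b : Fin r → A)
    (hb : ∀ f : A, ∃ c : Fin r → k[X], q ∣ f - ∑ j, aeval E.s (c j) * b j)
    (x : A →ₐ[k] k) (v w : k[X]) (hv : v ≠ 0) (hw : w.Separable) (b' : A)
    (hb' : q ∣ b' - aeval E.s (v * w)) : lenAt x b' q ≤ (r * (v.natDegree + 1) : ℕ) := by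
  classical
  set a : k := x E.s with ha
  have hvw : v * w ≠ 0 := mul_ne_zero hv hw.ne_zero
  obtain ⟨r₁, hr₁, hr₂⟩ := exists_eq_pow_rootMultiplicity_mul_and_not_dvd (v * w) hvw a
  set m := rootMultiplicity a (v * w) with hm
  have hmle : m ≤ v.natDegree + 1 := by
    rw [hm, rootMultiplicity_mul hvw]
    refine add_le_add ?_ (rootMultiplicity_le_one_of_separable hw a)
    rw [← count_roots]
    exact (Multiset.count_le_card _ _).trans (card_roots' v)
  obtain ⟨y, hy⟩ := hb'
  have hb'' : b' = aeval E.s (v * w) + y * q := by linear_combination hy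
  unfold lenAt
  rw [len_symm, hb'', map_add, map_mul (algebraMap A (LocAt x)) y q, len_add]
  have h1 : aeval E.s (v * w) = (E.s - algebraMap k A a) ^ m * aeval E.s r₁ := by
    conv_lhs => rw [hr₁]
    rw [map_mul, map_pow, map_sub, aeval_X, aeval_C]
  have h2 : x (aeval E.s r₁) ≠ 0 := by
    have h3 : x (aeval E.s r₁) = r₁.eval a := by
      rw [← aeval_algHom_apply, ← ha]
      simp [aeval_def, eval₂_eq_eval_map]
    rw [h3]
    exact fun h => hr₂ (dvd_iff_isRoot.2 h)
  have hS : len (algebraMap A (LocAt x) q) (algebraMap A (LocAt x) (E.s - algebraMap k A a)) ≤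
      r := by
    unfold len
    apply length_le x _ r b
    intro f
    obtain ⟨c, y', hy'⟩ := hb f
    refine ⟨fun j => (c j).eval a, ?_⟩
    have h4 : ∀ j, ∃ u : A, aeval E.s (c j) - algebraMap k A ((c j).eval a) =
        (E.s - algebraMap k A a) * u := by
      intro j
      obtain ⟨u, hu⟩ := X_sub_C_dvd_sub_C_eval (p := c j) (a := a)
      refine ⟨aeval E.s u, ?_⟩
      have h5 := congrArg (aeval E.s) hu
      rw [map_sub, map_mul, map_sub, aeval_X, aeval_C, aeval_C] at h5
      exact h5
    choose u hu using h4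
    have h6 : f - ∑ j, algebraMap k A ((c j).eval a) * b j =
        y' * q + (∑ j, u j * b j) * (E.s - algebraMap k A a) := by
      have h7 : f = q * y' + ∑ j, aeval E.s (c j) * b j := by linear_combination hy'
      have h8 : ∑ j, aeval E.s (c j) * b j = ∑ j, algebraMap k A ((c j).eval a) * b j +
          (∑ j, u j * b j) * (E.s - algebraMap k A a) := by
        rw [Finset.sum_mul, ← Finset.sum_add_distrib]
        apply Finset.sum_congr rfl
        intro j _
        linear_combination (b j) * hu j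
      rw [h7, h8]
      ring
    rw [h6, map_add, map_mul, map_mul]
    exact Ideal.mem_span_pair.2 ⟨_, _, rfl⟩
  rw [h1, map_mul, map_pow]
  refine (len_mul_le _ _ _).trans ?_
  rw [len_unit _ (isUnit_germ x h2), add_zero]
  refine (len_pow_le _ _ _).trans ?_
  refine (mul_le_mul' (Nat.cast_le.2 hmle) hS).trans ?_
  rw [← Nat.cast_mul, mul_comm r]

end Pool.Agent.K1
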