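import Mathlib

/-!
Evaluation of polynomials in three variables (Bertini-Noether).
-/

set_option autoImplicit false

open Polynomial

namespace Pool.Agent.K1

/-- `F(t, y, z)` has coefficients in `k[t][y]`: inner variable `t`, then `y`, outer `z`. -/
noncomputable def ev3 {k A : Type*} [Field k] [CommRing A] [Algebra k A] (F : k[X][X][X])
    (t y z : A) : A :=
  ((F.map (mapRingHom (aeval t : k[X] →ₐ[k] A).toRingHom)).map (evalRingHom y)).eval z

end Pool.Agent.K1
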