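import Mathlib

/-!
Elementary Bertini, part (a): if `K` is a finite separable extension of `k(u, v)`, `k`
algebraically closed, then `k(v - b u)` is algebraically closed in `K` for almost all `b`.
-/

set_option autoImplicit false

namespace Pool.Agent.K1

open Polynomial IntermediateField

/-- An integral element over an algebraically closed field, in a field extension, is a
constant. -/
theorem bf_const {k L : Type*} [Field k] [IsAlgClosed k] [Field L] [Algebra k L] (x : L)
    (hx : IsIntegral k x) : ∃ r : k, algebraMap k L r = x := by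
  have h1 : (minpoly k x).degree = 1 :=
    IsAlgClosed.degree_eq_one_of_irreducible k (minpoly.irreducible hx)
  exact minpoly.mem_range_of_degree_eq_one k x h1

/-- A polynomial over `L` which takes values in `k` on `k` has coefficients in `k`. -/
theorem bf_coeffs {k L : Type*} [Field k] [Infinite k] [Field L] [Algebra k L] (g : L[X])
    (h : ∀ c : k, ∃ r : k, algebraMap k L r = g.eval (algebraMap k L c)) :
    ∃ g0 : k[X], g0.map (algebraMap k L) = g := by
  classical
  choose r hr using h
  obtain ⟨s, hs⟩ := Infinite.exists_subset_card_eq k (g.natDegree + 1)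
  refine ⟨Lagrange.interpolate s id r, ?_⟩
  have hinj : Set.InjOn (algebraMap k L) (s : Set k) := (algebraMap k L).injective.injOn
  have hdeg : ((Lagrange.interpolate s id r).map (algebraMap k L)).degree < s.card := by
    rw [Polynomial.degree_map]
    exact Lagrange.degree_interpolate_lt r Function.injective_id.injOn
  have hdeg2 : g.degree < s.card := by
    rw [hs]
    exact lt_of_le_of_lt Polynomial.degree_le_natDegree (by exact_mod_cast Nat.lt_succ_self _)
  refine Polynomial.eq_of_degrees_lt_of_eval_index_eq s hinj hdeg hdeg2 ?_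
  intro c hc
  rw [Polynomial.eval_map, Polynomial.eval₂_at_apply, ← hr]
  have := Lagrange.eval_interpolate_at_node r (Function.injective_id.injOn (s := (s : Set k))) hc
  rw [id] at this
  rw [this]

/-- `k[X]` is integrally closed in `L[X]` for `k` algebraically closed. -/
theorem bf_integral {k L : Type*} [Field k] [IsAlgClosed k] [Field L] [Algebra k L] (g : L[X])
    (h : (Polynomial.mapRingHom (algebraMap k L)).IsIntegralElem g) :
    ∃ g0 : k[X], g0.map (algebraMap k L) = g := by
  have : Infinite k := IsAlgClosed.instInfinite
  refine bf_coeffs g fun c => bf_const _ ?_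
  obtain ⟨P, hP, hPg⟩ := h
  refine ⟨P.map (Polynomial.evalRingHom c), hP.map _, ?_⟩
  have h1 := congrArg (Polynomial.evalRingHom (algebraMap k L c)) hPg
  rw [map_zero, Polynomial.hom_eval₂] at h1
  rw [Polynomial.eval₂_map]
  have h2 : (algebraMap k L).comp (Polynomial.evalRingHom c) =
      (Polynomial.evalRingHom (algebraMap k L c)).comp
        (Polynomial.mapRingHom (algebraMap k L)) := by
    ext <;> simp
  rw [h2]
  exact h1

open scoped algebraAdjoinAdjoin in
/-- `k(t)` is algebraically closed in `L(t)`, for `t` transcendental over `L` and `k`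
algebraically closed. -/
theorem bf_rat {k K : Type*} [Field k] [IsAlgClosed k] [Field K] [Algebra k K]
    (L : IntermediateField k K) (t : K) (ht : Transcendental L t) (z : K)
    (hz : z ∈ IntermediateField.adjoin L {t})
    (halg : IsAlgebraic (IntermediateField.adjoin k {t}) z) :
    z ∈ IntermediateField.adjoin k {t} := by
  have h1 : IsAlgebraic (Algebra.adjoin k {t}) z :=
    (IsFractionRing.isAlgebraic_iff (Algebra.adjoin k {t}) (IntermediateField.adjoin k {t}) K).2
      halg
  obtain ⟨y, hy0, P, hP, hPw⟩ := h1.exists_integral_multiple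
  have hyK : (y : K) ≠ 0 := fun h => hy0 (Subtype.ext h)
  have hw : y • z = (y : K) * z := rfl
  rw [hw] at hPw
  have hyk : (y : K) ∈ IntermediateField.adjoin k {t} :=
    IntermediateField.algebra_adjoin_le_adjoin k {t} y.2
  have hle : IntermediateField.adjoin k {t} ≤
      (IntermediateField.adjoin L {t}).restrictScalars k := by
    rw [IntermediateField.adjoin_le_iff]
    rintro _ rfl
    exact IntermediateField.mem_adjoin_simple_self L _
  have hwL : (y : K) * z ∈ IntermediateField.adjoin L {t} := mul_mem (hle hyk) hz
  -- the equation with polynomial coefficients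
  let f : k[X] →ₐ[k] Algebra.adjoin k {t} :=
    Polynomial.aeval ⟨t, Algebra.self_mem_adjoin_singleton k t⟩
  have hfc : ∀ q : k[X], (f q : K) = Polynomial.aeval t q := fun q =>
    Polynomial.aeval_subalgebra_coe q _ _
  have hfs : Function.Surjective f := by
    rintro ⟨x, hx⟩
    rw [Algebra.adjoin_singleton_eq_range_aeval] at hx
    obtain ⟨q, rfl⟩ := hx
    exact ⟨q, Subtype.ext (hfc q)⟩
  obtain ⟨Q, hQ, -, hQm⟩ := Polynomial.lifts_and_degree_eq_and_monic (f := f.toRingHom)
    ((Polynomial.mem_lifts _).2 (Polynomial.map_surjective f.toRingHom hfs P)) hP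
  have hQw : Q.eval₂ ((Polynomial.aeval t : k[X] →ₐ[k] K) : k[X] →+* K) ((y : K) * z) = 0 := by
    rw [← hQ, Polynomial.eval₂_map] at hPw
    have h2 : ((Polynomial.aeval t : k[X] →ₐ[k] K) : k[X] →+* K) =
        (algebraMap (Algebra.adjoin k {t}) K).comp f.toRingHom :=
      RingHom.ext fun q => (hfc q).symm
    rw [h2]
    exact hPw
  -- the element is a polynomial in `t` over `L`
  have hinj : Function.Injective (Polynomial.aeval t : L[X] →ₐ[L] K) :=
    transcendental_iff_injective.1 ht
  have hcomp : ((Polynomial.aeval t : L[X] →ₐ[L] K) : L[X] →+* K).comp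
      (Polynomial.mapRingHom (algebraMap k L)) =
      ((Polynomial.aeval t : k[X] →ₐ[k] K) : k[X] →+* K) := by
    ext <;> simp
  have hcl : IsIntegrallyClosed (Algebra.adjoin L {t}) := by
    let e : L[X] ≃ₐ[L] (Polynomial.aeval t : L[X] →ₐ[L] K).range :=
      AlgEquiv.ofInjective _ hinj
    have h2 : IsIntegrallyClosed (Polynomial.aeval t : L[X] →ₐ[L] K).range :=
      IsIntegrallyClosed.of_equiv e.toRingEquiv
    rwa [← Algebra.adjoin_singleton_eq_range_aeval] at h2
  have hint : IsIntegral (Algebra.adjoin L {t})
      (⟨(y : K) * z, hwL⟩ : IntermediateField.adjoin L {t}) := by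
    let fL : L[X] →ₐ[L] Algebra.adjoin L {t} :=
      Polynomial.aeval ⟨t, Algebra.self_mem_adjoin_singleton L t⟩
    refine ⟨(Q.map (Polynomial.mapRingHom (algebraMap k L))).map fL.toRingHom,
      (hQm.map _).map _, ?_⟩
    rw [Polynomial.eval₂_map, Polynomial.eval₂_map]
    apply (IntermediateField.adjoin L {t}).val.toRingHom.injective
    rw [map_zero, ← hQw, Polynomial.hom_eval₂]
    have h2 : ((Polynomial.aeval t : k[X] →ₐ[k] K) : k[X] →+* K) =
        (IntermediateField.adjoin L {t}).val.toRingHom.comp
          (((algebraMap (Algebra.adjoin L {t}) (IntermediateField.adjoin L {t})).comp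
            fL.toRingHom).comp (Polynomial.mapRingHom (algebraMap k L))) := by
      rw [← hcomp]
      refine RingHom.ext fun q => ?_
      exact (Polynomial.aeval_subalgebra_coe
        (Polynomial.mapRingHom (algebraMap k L) q) (Algebra.adjoin L {t})
        ⟨t, Algebra.self_mem_adjoin_singleton L t⟩).symm
    rw [h2]
    rfl
  obtain ⟨x, hx⟩ := IsIntegrallyClosed.isIntegral_iff.1 hint
  obtain ⟨g, hg⟩ : ∃ g : L[X], Polynomial.aeval t g = (y : K) * z := by
    have h3 : (x : K) ∈ (Polynomial.aeval t : L[X] →ₐ[L] K).range := by
      rw [← Algebra.adjoin_singleton_eq_range_aeval]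
      exact x.2
    obtain ⟨g, hg⟩ := h3
    refine ⟨g, hg.trans ?_⟩
    exact congrArg (fun a : IntermediateField.adjoin L {t} => (a : K)) hx
  obtain ⟨g0, hg0⟩ := bf_integral g ⟨Q, hQm, by
    apply hinj
    rw [map_zero, ← hQw, ← hg, ← hcomp]
    exact Polynomial.hom_eval₂ Q _ ((Polynomial.aeval t : L[X] →ₐ[L] K) : L[X] →+* K) g⟩
  have h4 : (y : K) * z ∈ IntermediateField.adjoin k {t} := by
    rw [← hg, ← hg0]
    have : Polynomial.aeval t (g0.map (algebraMap k L)) = Polynomial.aeval t g0 := by
      simp
    rw [this]
    exact IntermediateField.algebra_adjoin_le_adjoin k {t}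
      (Polynomial.aeval_mem_adjoin_singleton k t)
  have h5 : z = (y : K)⁻¹ * ((y : K) * z) := by
    rw [inv_mul_cancel_left₀ hyK]
  rw [h5]
  exact mul_mem (inv_mem hyk) h4

/-- A linear change of the coordinates `u, v`. -/
theorem bf_change {k K : Type*} [Field k] [Field K] [Algebra k K] (u v : K)
    (halg : AlgebraicIndependent k ![u, v]) (b b' : k) (hb : b ≠ b') :
    AlgebraicIndependent k ![v - b • u, v - b' • u] := by
  have hd : b - b' ≠ 0 := sub_ne_zero.2 hb
  let φ : MvPolynomial (Fin 2) k →ₐ[k] MvPolynomial (Fin 2) k :=
    MvPolynomial.aeval ![MvPolynomial.X 1 - b • MvPolynomial.X 0,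
      MvPolynomial.X 1 - b' • MvPolynomial.X 0]
  let ψ : MvPolynomial (Fin 2) k →ₐ[k] MvPolynomial (Fin 2) k :=
    MvPolynomial.aeval ![(b - b')⁻¹ • (MvPolynomial.X 1 - MvPolynomial.X 0),
      MvPolynomial.X 0 + (b * (b - b')⁻¹) • (MvPolynomial.X 1 - MvPolynomial.X 0)]
  have hψφ : ∀ p, ψ (φ p) = p := by
    intro p
    have h : ψ.comp φ = AlgHom.id k _ := by
      apply MvPolynomial.algHom_ext
      intro i
      fin_cases i
      · simp [φ, ψ, smul_smul]
      · simp only [φ, ψ, AlgHom.comp_apply, MvPolynomial.aeval_X, Fin.mk_one, Fin.isValue,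
          Matrix.cons_val_one, Matrix.cons_val_fin_one, map_sub, map_smul, Matrix.cons_val_zero,
          smul_smul, AlgHom.coe_id, id_eq]
        have h1 : b * (b - b')⁻¹ = 1 + b' * (b - b')⁻¹ := by
          field_simp
          ring
        rw [h1, add_smul, one_smul]
        ring
    exact DFunLike.congr_fun h p
  have hcomp : ∀ p, MvPolynomial.aeval ![v - b • u, v - b' • u] p =
      MvPolynomial.aeval ![u, v] (φ p) := by
    intro p
    have h : (MvPolynomial.aeval ![v - b • u, v - b' • u] : MvPolynomial (Fin 2) k →ₐ[k] K) =
        (MvPolynomial.aeval ![u, v]).comp φ := by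
      apply MvPolynomial.algHom_ext
      intro i
      fin_cases i
      · simp [φ]
      · simp [φ]
    exact DFunLike.congr_fun h p
  intro p q hpq
  rw [hcomp, hcomp] at hpq
  rw [← hψφ p, ← hψφ q, halg hpq]

open scoped algebraAdjoinAdjoin in
/-- In an algebraically independent pair `s, t` the element `t` is transcendental over `k(s)`. -/
theorem bf_trans {k K : Type*} [Field k] [Field K] [Algebra k K] (s t : K)
    (halg : AlgebraicIndependent k ![s, t]) :
    Transcendental (IntermediateField.adjoin k {s}) t := by
  have h1 := halg.transcendental_adjoin (s := {0}) (i := 1) (by simp)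
  have h2 : (![s, t] '' ({0} : Set (Fin 2))) = {s} := by simp
  rw [h2] at h1
  intro h3
  exact h1 ((IsFractionRing.isAlgebraic_iff (Algebra.adjoin k {s})
    (IntermediateField.adjoin k {s}) K).2 h3)

/-- The algebraic closure of `k(s)` in `K`, as an intermediate field of `K/k`. -/
theorem bf_step {k K : Type*} [Field k] [IsAlgClosed k] [Field K] [Algebra k K] (u v : K)
    (halg : AlgebraicIndependent k ![u, v]) (b b' : k) (hb : b ≠ b')
    (L : IntermediateField k K)
    (hL : ∀ x : K, x ∈ L ↔ IsAlgebraic (IntermediateField.adjoin k {v - b • u}) x) (z : K)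
    (hz : z ∈ L ⊔ IntermediateField.adjoin k {u, v})
    (hzalg : IsAlgebraic (IntermediateField.adjoin k {v - b' • u}) z) :
    z ∈ IntermediateField.adjoin k {v - b' • u} := by
  set s := v - b • u with hs
  set t := v - b' • u with ht
  have hst : AlgebraicIndependent k ![s, t] := bf_change u v halg b b' hb
  have hd : b - b' ≠ 0 := sub_ne_zero.2 hb
  have hEL : IntermediateField.adjoin k {s} ≤ L := by
    rw [IntermediateField.adjoin_le_iff]
    rintro _ rfl
    exact (hL _).2 (isAlgebraic_algebraMap (⟨s, IntermediateField.mem_adjoin_simple_self k s⟩ :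
      IntermediateField.adjoin k {s}))
  have htr : Transcendental L t := by
    intro h
    let _ : Algebra (IntermediateField.adjoin k {s}) L :=
      (IntermediateField.inclusion hEL).toRingHom.toAlgebra
    have _ : IsScalarTower (IntermediateField.adjoin k {s}) L K :=
      IsScalarTower.of_algebraMap_eq fun _ => rfl
    have _ : Algebra.IsAlgebraic (IntermediateField.adjoin k {s}) L := by
      constructor
      rintro ⟨x, hx⟩
      have hinj : Function.Injective (algebraMap L K) := Subtype.val_injective
      exact (isAlgebraic_algebraMap_iff hinj).1 ((hL x).1 hx)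
    exact bf_trans s t hst (h.restrictScalars (IntermediateField.adjoin k {s}))
  refine bf_rat L t htr z ?_ hzalg
  have hle : L ⊔ IntermediateField.adjoin k {u, v} ≤
      (IntermediateField.adjoin L {t}).restrictScalars k := by
    have hLle : L ≤ (IntermediateField.adjoin L {t}).restrictScalars k := by
      intro x hx
      exact (IntermediateField.adjoin L {t}).algebraMap_mem (⟨x, hx⟩ : L)
    have hsm : s ∈ (IntermediateField.adjoin L {t}).restrictScalars k :=
      hLle (hEL (IntermediateField.mem_adjoin_simple_self k s))
    have htm : t ∈ (IntermediateField.adjoin L {t}).restrictScalars k :=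
      IntermediateField.mem_adjoin_simple_self L t
    have hu : u = (b - b')⁻¹ • (t - s) := by
      have h1 : t - s = (b - b') • u := by
        rw [hs, ht, sub_smul]
        ring
      rw [h1, smul_smul, inv_mul_cancel₀ hd, one_smul]
    have hum : u ∈ (IntermediateField.adjoin L {t}).restrictScalars k := by
      rw [hu]
      exact ((IntermediateField.adjoin L {t}).restrictScalars k).toSubalgebra.smul_mem
        (sub_mem htm hsm) _
    have hvm : v ∈ (IntermediateField.adjoin L {t}).restrictScalars k := by
      have h1 : v = s + b • u := by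
        rw [hs]
        ring
      rw [h1]
      exact add_mem hsm (((IntermediateField.adjoin L {t}).restrictScalars k).toSubalgebra.smul_mem
        hum _)
    refine sup_le hLle ?_
    rw [IntermediateField.adjoin_le_iff]
    rintro _ (rfl | rfl)
    · exact hum
    · exact hvm
  exact hle hz

/-- ELEMENTARY BERTINI, fields: `k(v - b u)` is algebraically closed in `K` for almost all
`b`. -/
theorem algClosed_generic {k K : Type*} [Field k] [IsAlgClosed k] [Field K] [Algebra k K]
    (u v : K) (halg : AlgebraicIndependent k ![u, v])
    [FiniteDimensional (IntermediateField.adjoin k {u, v}) K]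
    [Algebra.IsSeparable (IntermediateField.adjoin k {u, v}) K] :
    {b : k | ∃ z : K, IsAlgebraic (IntermediateField.adjoin k {v - b • u}) z ∧
      z ∉ IntermediateField.adjoin k {v - b • u}}.Finite := by
  have hfin : Finite (IntermediateField (IntermediateField.adjoin k {u, v}) K) :=
    Field.finite_intermediateField_of_exists_primitive_element _ _
      (Field.exists_primitive_element _ _)
  let L : k → IntermediateField k K := fun b =>
    (algebraicClosure (IntermediateField.adjoin k {v - b • u}) K).restrictScalars k
  have hL : ∀ b, ∀ x : K, x ∈ L b ↔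
      IsAlgebraic (IntermediateField.adjoin k {v - b • u}) x := fun b x =>
    mem_algebraicClosure_iff
  let M : k → IntermediateField (IntermediateField.adjoin k {u, v}) K := fun b =>
    IntermediateField.extendScalars (F := IntermediateField.adjoin k {u, v})
      (E := L b ⊔ IntermediateField.adjoin k {u, v}) le_sup_right
  have hM : ∀ b b' : k, M b = M b' → L b ⊔ IntermediateField.adjoin k {u, v} =
      L b' ⊔ IntermediateField.adjoin k {u, v} := by
    intro b b' h
    have h2 := congrArg (IntermediateField.restrictScalars k) h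
    simpa only [M, IntermediateField.extendScalars_restrictScalars] using h2
  refine Set.Finite.of_finite_image (f := M) (Set.toFinite _) ?_
  rintro b - b' ⟨z, hz, hzn⟩ hbb
  by_contra hne
  refine hzn (bf_step u v halg b b' hne (L b) (hL b) z ?_ hz)
  rw [hM b b' hbb]
  exact (le_sup_left : L b' ≤ _) ((hL b' z).2 hz)

end Pool.Agent.K1
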