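import Pool.Agent.K1.CurveData
import Pool.Agent.K1.AffineFacts
import Pool.Agent.K1.BertField
import Pool.Agent.K1.Ufd2

/-!
Layer 3: lemmas for the theorem of Bertini on hyperplane sections (see Bertini.lean).
-/

set_option autoImplicit false

open AlgebraicGeometry CategoryTheory

namespace Pool.Agent.K1

section

variable {k : Type} [Field k] {X : Scheme.{0}} [IsIntegral X] {n : ℕ} (E : Embed k X n)

theorem ber_l_ne_zero {c : Fin (n + 1) → k} {x : X} (hx : x ∈ E.U c) : E.l c ≠ 0 := by
  intro h
  rw [E.empty c h] at hx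
  exact hx.elim

theorem ber_l_sub_smul (c d : Fin (n + 1) → k) (b : k) :
    E.l (c - b • d) = E.l c - E.kf b * E.l d := by
  simp only [EmbedData.l, Pi.sub_apply, Pi.smul_apply, smul_eq_mul, map_sub, map_mul, sub_mul,
    Finset.sum_sub_distrib, Finset.mul_sum, mul_assoc]

/-- The scalars in the stalk. -/
noncomputable def kst (x : X) : k →+* X.presheaf.stalk x :=
  (X.presheaf.germ ⊤ x trivial).hom.comp E.str

theorem algebraMap_kst (x : X) (a : k) :
    algebraMap (X.presheaf.stalk x) X.functionField (kst E x a) = E.kf a := by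
  have : Nonempty (⊤ : X.Opens) := ⟨⟨x, trivial⟩⟩
  exact Scheme.algebraMap_germ_eq_germToFunctionField (X := X) (U := ⊤) (x := x) trivial (E.str a)

theorem ber_inj (x : X) :
    Function.Injective (algebraMap (X.presheaf.stalk x) X.functionField) :=
  IsFractionRing.injective (X.presheaf.stalk x) X.functionField

/-- If `x ∈ U d` then at most one `b` has `x ∉ U (c - b d)`. -/
theorem ber_subsingleton (c d : Fin (n + 1) → k) {x : X} (hx : x ∈ E.U d) :
    {b : k | x ∉ E.U (c - b • d)}.Subsingleton := by
  intro b hb b' hb'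
  by_contra hne
  obtain ⟨a, ha, -⟩ := E.stalk c d x hx
  have hd := ber_l_ne_zero E hx
  have key : ∀ t : k, x ∉ E.U (c - t • d) → ¬ IsUnit (a - kst E x t) := by
    intro t ht hu
    obtain ⟨a', ha', hiff⟩ := E.stalk (c - t • d) d x hx
    have : a' = a - kst E x t := by
      apply ber_inj x
      apply mul_right_cancel₀ hd
      rw [ha', map_sub, algebraMap_kst, sub_mul, ha, ber_l_sub_smul]
    exact ht (hiff.1 (this ▸ hu))
  have h1 := key b hb
  have h2 := key b' hb'
  have h3 : IsUnit ((a - kst E x b) + (-(a - kst E x b'))) := by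
    have : (a - kst E x b) + (-(a - kst E x b')) = kst E x (b' - b) := by
      rw [map_sub]; ring
    rw [this]
    exact (IsUnit.mk0 _ (sub_ne_zero.2 (Ne.symm hne))).map _
  rcases IsLocalRing.isUnit_or_isUnit_of_isUnit_add h3 with h | h
  · exact h1 h
  · exact h2 (IsUnit.neg_iff _ |>.1 h)

/-- If `x ∈ U c` and `x ∉ U d` then `x ∈ U (c - b d)`. -/
theorem ber_mem_sub (c d : Fin (n + 1) → k) {x : X} (hx : x ∈ E.U c) (hx' : x ∉ E.U d) (b : k) :
    x ∈ E.U (c - b • d) := by
  obtain ⟨a, ha, ha'⟩ := E.stalk d c x hx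
  have hc := ber_l_ne_zero E hx
  obtain ⟨a', ha1, hiff⟩ := E.stalk (c - b • d) c x hx
  have h1 : a' = 1 - kst E x b * a := by
    apply ber_inj x
    apply mul_right_cancel₀ hc
    rw [ha1, map_sub, map_mul, algebraMap_kst, map_one, sub_mul, one_mul, mul_assoc, ha,
      ber_l_sub_smul]
  rw [← hiff, h1]
  have h2 : ¬ IsUnit a := fun h => hx' (ha'.1 h)
  have h3 : ¬ IsUnit (kst E x b * a) := fun h => h2 (isUnit_of_mul_isUnit_right h)
  rcases IsLocalRing.isUnit_or_isUnit_of_isUnit_add
    (a := 1 - kst E x b * a) (b := kst E x b * a) (by simp) with h | h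
  · exact h
  · exact (h3 h).elim

end


/-- A principal height one prime has multiplicity one. -/
theorem ber_vAt_one {A : Type*} [CommRing A] [IsDomain A] (P : Curve1 A) (g : A)
    (hg : P.ideal = Ideal.span {g}) : vAt P g = 1 := by
  have h1 : IsLocalRing.maximalIdeal (Localization.AtPrime P.ideal) =
      Ideal.span {algebraMap A (Localization.AtPrime P.ideal) g} := by
    have h0 : ∀ I : Ideal A, I = Ideal.span {g} →
        Ideal.map (algebraMap A (Localization.AtPrime P.ideal)) I =
          Ideal.span {algebraMap A (Localization.AtPrime P.ideal) g} := by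
      rintro _ rfl
      rw [Ideal.map_span, Set.image_singleton]
    rw [← IsLocalization.AtPrime.map_eq_maximalIdeal P.ideal (Localization.AtPrime P.ideal),
      h0 _ hg]
  have h2 : IsSimpleModule (Localization.AtPrime P.ideal) (Localization.AtPrime P.ideal ⧸
      Ideal.span {algebraMap A (Localization.AtPrime P.ideal) g}) := by
    rw [isSimpleModule_iff_isCoatom, ← Ideal.isMaximal_def, ← h1]
    infer_instance
  unfold vAt
  rw [Ring.ord, Module.length_eq_one_iff.2 h2]
  rfl

/-- A curve containing a prime element is its zero locus. -/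
theorem ber_curve_eq {A : Type*} [CommRing A] [IsDomain A] [IsNoetherianRing A] {g : A}
    (hg : Prime g) (Q : Curve1 A) (hQ : g ∈ Q.ideal) : Q.ideal = Ideal.span {g} := by
  have hp : (Ideal.span {g}).IsPrime := (Ideal.span_singleton_prime hg.ne_zero).2 hg
  have hfin : Q.ideal.FiniteHeight := by
    rw [Ideal.finiteHeight_iff]
    right
    rw [Q.height]
    exact ENat.one_ne_top
  have h1 : Q.ideal ∈ (Ideal.span {g}).minimalPrimes := by
    apply Ideal.mem_minimalPrimes_of_height_le
    · rw [Ideal.span_singleton_le_iff_mem]; exact hQ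
    · rw [Q.height]
      exact Ideal.one_le_height_span_singleton_of_mem_nonZeroDivisors
        (mem_nonZeroDivisors_iff_ne_zero.2 hg.ne_zero)
  rw [Ideal.minimalPrimes_eq_subsingleton_self] at h1
  exact h1

/-- The curve of a prime element. -/
theorem ber_exists_curve {A : Type*} [CommRing A] [IsDomain A] [IsNoetherianRing A] {g : A}
    (hg : Prime g) : ∃ P : Curve1 A, P.ideal = Ideal.span {g} := by
  have hp : (Ideal.span {g}).IsPrime := (Ideal.span_singleton_prime hg.ne_zero).2 hg
  refine ⟨⟨Ideal.span {g}, hp, ?_⟩, rfl⟩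
  apply le_antisymm
  · apply Ideal.height_le_one_of_isPrincipal_of_mem_minimalPrimes (Ideal.span {g})
    rw [Ideal.minimalPrimes_eq_subsingleton_self]
    rfl
  · exact Ideal.one_le_height_span_singleton_of_mem_nonZeroDivisors
      (mem_nonZeroDivisors_iff_ne_zero.2 hg.ne_zero)

/-- The order of a unit of the stalk is zero. -/
theorem ber_ord_unit {X : Scheme.{0}} [IsIntegral X] [IsLocallyNoetherian X] {x : X}
    (hx : Order.coheight x = 1) (a : X.presheaf.stalk x) (ha : IsUnit a) :
    X.ord (algebraMap (X.presheaf.stalk x) X.functionField a) x = 0 := by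
  have : Ring.KrullDimLE 1 (X.presheaf.stalk x) := krullDimLE_of_coheight_le hx.le
  have hne : algebraMap (X.presheaf.stalk x) X.functionField a ≠ 0 := by
    rw [Ne, map_eq_zero_iff _ (IsFractionRing.injective (X.presheaf.stalk x) X.functionField)]
    exact ha.ne_zero
  rw [Scheme.ord_eq_iff hx hne]
  exact Ring.ordFrac_of_isUnit ha

/-- The points of codimension one outside a hyperplane complement are finitely many. -/
theorem ber_finite {k : Type} [Field k] {X : Scheme.{0}} [IsIntegral X] [IsNoetherian X] {n : ℕ}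
    (E : Embed k X n) (c : Fin (n + 1) → k) (hc : genericPoint X ∈ E.U c) :
    {x : PointOne X | x.1 ∉ E.U c}.Finite := by
  have key : ∀ j : Fin (n + 1),
      {x : PointOne X | x.1 ∈ E.U (Pi.single j 1) ∧ x.1 ∉ E.U c}.Finite := by
    intro j
    by_cases hj : E.l (Pi.single j 1) = 0
    · rw [E.empty _ hj]
      convert Set.finite_empty
      ext x
      simp
    obtain ⟨hV, hg⟩ := E.affine _ hj
    obtain ⟨C⟩ := exists_curveData (E.U (Pi.single j 1)) hV hg
    obtain ⟨a, ha, ha'⟩ := exists_ratio E c (Pi.single j 1) hg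
    have hne : Nonempty (E.U (Pi.single j 1)) := ⟨⟨_, hg⟩⟩
    have : IsNoetherianRing Γ(X, E.U (Pi.single j 1)) :=
      IsLocallyNoetherian.component_noetherian ⟨_, hV⟩
    have ha0 : a ≠ 0 := by
      intro h0
      rw [h0, map_zero] at ha
      rcases div_eq_zero_iff.1 ha.symm with h | h
      · exact ber_l_ne_zero E hc h
      · exact hj h
    apply ((finite_curves ha0).image C.pt).subset
    rintro x ⟨hx, hx'⟩
    obtain ⟨P, rfl⟩ := C.surj x hx
    refine ⟨P, ?_, rfl⟩
    rw [Set.mem_ofPred_eq, ← res_eq_zero]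
    by_contra h0
    apply hx'
    rw [ha' _ hx]
    have h1 := C.φ_res P a
    intro h2
    rw [h2] at h1
    exact h0 ((map_eq_zero_iff _ (C.φ P).injective).1 h1)
  apply (Set.finite_iUnion key).subset
  intro x hx
  obtain ⟨j, hj⟩ := E.cover x.1
  exact Set.mem_iUnion.2 ⟨j, hj, hx⟩

/-- Change of generators. -/
theorem ber_adjoin_eq {k K : Type*} [Field k] [Field K] [Algebra k K] (u v : K) (b : k) :
    IntermediateField.adjoin k {v - b • u, u} = IntermediateField.adjoin k {u, v} := by
  apply le_antisymm
  · rw [IntermediateField.adjoin_le_iff]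
    have hu : u ∈ IntermediateField.adjoin k {u, v} :=
      IntermediateField.subset_adjoin k _ (by simp)
    have hv : v ∈ IntermediateField.adjoin k {u, v} :=
      IntermediateField.subset_adjoin k _ (by simp)
    rintro x (rfl | rfl)
    · exact sub_mem hv (IntermediateField.smul_mem _ hu)
    · exact hu
  · rw [IntermediateField.adjoin_le_iff]
    have hu : u ∈ IntermediateField.adjoin k {v - b • u, u} :=
      IntermediateField.subset_adjoin k _ (by simp)
    have hv : v - b • u ∈ IntermediateField.adjoin k {v - b • u, u} :=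
      IntermediateField.subset_adjoin k _ (by simp)
    rintro x (rfl | rfl)
    · exact hu
    · have := add_mem hv (IntermediateField.smul_mem _ (x := b) hu)
      simpa using this

theorem ber_algInd {k K : Type*} [Field k] [Field K] [Algebra k K] (u v : K) (b : k)
    (h : AlgebraicIndependent k ![u, v]) : AlgebraicIndependent k ![v - b • u, u] := by
  let φ : MvPolynomial (Fin 2) k →ₐ[k] MvPolynomial (Fin 2) k :=
    MvPolynomial.aeval ![MvPolynomial.X 1 - b • MvPolynomial.X 0, MvPolynomial.X 0]
  let ψ : MvPolynomial (Fin 2) k →ₐ[k] MvPolynomial (Fin 2) k :=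
    MvPolynomial.aeval ![MvPolynomial.X 1, MvPolynomial.X 0 + b • MvPolynomial.X 1]
  have h1 : ψ.comp φ = AlgHom.id k _ := by
    apply MvPolynomial.algHom_ext
    intro i
    fin_cases i <;> simp [φ, ψ]
  have h2 : Function.Injective φ := by
    intro x y hxy
    have := congrArg ψ hxy
    rw [← AlgHom.comp_apply, ← AlgHom.comp_apply, h1] at this
    exact this
  have h3 : (MvPolynomial.aeval ![v - b • u, u] : MvPolynomial (Fin 2) k →ₐ[k] K) =
      (MvPolynomial.aeval ![u, v]).comp φ := by
    apply MvPolynomial.algHom_ext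
    intro i
    fin_cases i <;> simp [φ]
  unfold AlgebraicIndependent at h ⊢
  rw [h3]
  exact h.comp h2

end Pool.Agent.K1
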