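import Pool.Agent.K1.CurveDef
import Pool.Agent.K1.DefsB

/-!
K1-28: symbols give functionals on curves; the two forms of transversality agree.
-/

set_option autoImplicit false

namespace Pool.Agent.K1

/-- A prime `P` of height one containing the prime element `d` does not contain `f` unless `d`
divides `f`. -/
theorem cop_of_prime_not_mem {A : Type} [CommRing A] [IsDomain A] (d f : A) (hd : Prime d)
    (hf : f ∉ Ideal.span {d}) : Cop d f := by
  refine ⟨hd.ne_zero, ?_, ?_⟩
  · rintro rfl
    exact hf (Ideal.zero_mem _)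
  · intro P hP hh hdP hfP
    have hle : Ideal.span {d} ≤ P := by
      rw [Ideal.span_le, Set.singleton_subset_iff]; exact hdP
    have hdp : (Ideal.span {d}).IsPrime := (Ideal.span_singleton_prime hd.ne_zero).2 hd
    rcases hle.eq_or_lt with h | h
    · exact hf (h ▸ hfP)
    · have h1 := Ideal.height_add_one_le_of_lt_of_isPrime h
      have hbot : (⊥ : Ideal A) < Ideal.span {d} := by
        rw [bot_lt_iff_ne_bot, Ne, Ideal.span_singleton_eq_bot]
        exact hd.ne_zero
      have h2 := Ideal.height_add_one_le_of_lt_of_isPrime hbot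
      rw [hh] at h1
      have h3 : (1 : ℕ∞) ≤ (Ideal.span {d}).height := le_trans le_add_self h2
      have h4 : (1 : ℕ∞) + 1 ≤ 1 := le_trans (add_le_add_left h3 1) h1
      exact absurd h4 (by decide)

theorem cop_symm' {A : Type*} [CommRing A] {f g : A} (h : Cop f g) : Cop g f :=
  ⟨h.2.1, h.1, fun P hP hh hg hf => h.2.2 P hP hh hf hg⟩

theorem curveFun_of_isSymb {A : Type} [CommRing A] [IsDomain A] (Λ : A → A → ℚ)
    (hΛ : IsSymb Λ) (V : Set A) (hV : ∀ d ∈ V, Prime d) :
    CurveFun V Λ := by
  refine ⟨?_, ?_, ?_⟩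
  · intro d hd f g hf hg
    exact hΛ.mul d f g (cop_of_prime_not_mem d f (hV d hd) hf)
      (cop_of_prime_not_mem d g (hV d hd) hg)
  · intro d hd f g hf hfg
    obtain ⟨r, hr⟩ := Ideal.mem_span_singleton'.1 hfg
    have hg : g ∉ Ideal.span {d} := by
      intro hg
      apply hf
      have := Ideal.add_mem _ hfg hg
      simpa using this
    have hfe : f = g + d * r := by
      rw [mul_comm d r, hr]; ring
    have h1 := hΛ.add d g r (cop_of_prime_not_mem d g (hV d hd) hg)
      (hfe ▸ cop_of_prime_not_mem d f (hV d hd) hf)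
    rw [← hfe] at h1
    exact h1
  · intro d hd d' hd' g hg hg' hdd
    obtain ⟨r, hr⟩ := Ideal.mem_span_singleton'.1 hdd
    have hde : d = d' + g * r := by
      rw [mul_comm g r, hr]; ring
    have c1 := cop_of_prime_not_mem d g (hV d hd) hg
    have c2 := cop_of_prime_not_mem d' g (hV d' hd') hg'
    rw [hΛ.symm d g c1, hΛ.symm d' g c2]
    have h1 := hΛ.add g d' r (cop_symm' c2) (hde ▸ cop_symm' c1)
    rw [← hde] at h1
    exact h1

theorem transvAt_iff_transv {k A : Type} [Field k] [CommRing A] [Algebra k A]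
    [IsNoetherianRing A] (s d : A) (x : A →ₐ[k] k) (hd : x d = 0) :
    TransvAt s d x ↔ Transv s d x := by
  constructor
  · rintro ⟨-, h⟩
    have hfg : (RingHom.ker x).FG := IsNoetherian.noetherian _
    have hle : RingHom.ker x ≤ Ideal.span {d, s - algebraMap k A (x s)} ⊔
        (RingHom.ker x) • (RingHom.ker x) := by
      refine h.trans (le_of_eq ?_)
      rw [pow_two, smul_eq_mul]
    obtain ⟨r, hr, hrle⟩ :=
      Submodule.exists_sub_one_mem_and_smul_le_of_fg_of_le_sup hfg le_rfl hle
    refine ⟨r, ?_, ?_⟩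
    · have h1 : x (r - 1) = 0 := hr
      rw [map_sub, map_one, sub_eq_zero] at h1
      rw [h1]
      exact one_ne_zero
    · intro f hf
      have hf' : f ∈ RingHom.ker x := hf
      have h2 := hrle (Submodule.smul_mem_pointwise_smul f r (RingHom.ker x) hf')
      simpa [smul_eq_mul] using h2
  · rintro ⟨a, ha, h⟩
    refine ⟨hd, ?_⟩
    intro f hf
    have hf0 : x f = 0 := hf
    have h1 := h f hf0
    have e : f = algebraMap k A (x a)⁻¹ * (a * f) -
        algebraMap k A (x a)⁻¹ * ((a - algebraMap k A (x a)) * f) := by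
      have : algebraMap k A (x a)⁻¹ * algebraMap k A (x a) = 1 := by
        rw [← map_mul, inv_mul_cancel₀ ha, map_one]
      linear_combination (-f) * this
    rw [e]
    refine Ideal.sub_mem _ (Ideal.mem_sup_left (Ideal.mul_mem_left _ _ h1))
      (Ideal.mem_sup_right (Ideal.mul_mem_left _ _ ?_))
    rw [pow_two]
    refine Ideal.mul_mem_mul ?_ hf
    rw [RingHom.mem_ker]
    simp

/-- from the leaf on `A/(d)` -/
theorem prime_of_isDomain_quot {A : Type} [CommRing A] [IsDomain A] (d : A) (hd : d ≠ 0)
    (h : IsDomain (A ⧸ Ideal.span {d})) : Prime d := by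
  rw [← Ideal.span_singleton_prime hd]
  exact (Ideal.Quotient.isDomain_iff_prime _).1 h

end Pool.Agent.K1
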