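import Pool.Agent.K1.Defs

/-!
Definitions for the Chebotarev count (module M1 of the K1 project).
-/

open Polynomial

namespace Pool.Agent.K1

/-- Weighted degree at most `m`: the variable `lam` has weight 1, the roots have weight `h`. -/
def WDeg {k : Type*} [Field k] {N : ℕ} (h : ℕ) (f : MvPolynomial (Fin N) k[X]) (m : ℕ) : Prop :=
  ∀ a, f.coeff a ≠ 0 → (f.coeff a).natDegree + h * (∑ i, a i) ≤ m

/-- `(lam0, x)` is an ordered unramified fibre: `x` lists the `N` distinct roots of
`F(lam0, S)`. -/
def FibrePt {k : Type*} [Field k] {N : ℕ} (F : k[X][X]) (q : k × (Fin N → k)) : Prop :=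
  Function.Injective q.2 ∧ ∀ i, (F.eval (C (q.2 i))).eval q.1 = 0

/-- The value of `f(lam, T)` at the point `q`. -/
noncomputable def atPt {k : Type*} [Field k] {N : ℕ} (q : k × (Fin N → k)) :
    MvPolynomial (Fin N) k[X] →+* k :=
  MvPolynomial.eval₂Hom (evalRingHom q.1) q.2

end Pool.Agent.K1
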