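import Mathlib

/-!
Hensel's lemma for power series, without the hypothesis that the polynomial is monic.
-/

set_option autoImplicit false

open Polynomial

namespace Pool.Agent.K1

theorem constantCoeff_eval {k : Type*} [CommRing k] (G : (PowerSeries k)[X])
    (a : PowerSeries k) : PowerSeries.constantCoeff (G.eval a) =
      (G.map PowerSeries.constantCoeff).eval (PowerSeries.constantCoeff a) := by
  rw [eval_map, eval₂_at_apply]

/-- A simple root of the reduction lifts to a root in the power series ring. -/
theorem exists_powerSeries_root_gen {k : Type*} [Field k] (G : (PowerSeries k)[X]) (w : k)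
    (h0 : (G.map PowerSeries.constantCoeff).eval w = 0)
    (h1 : (G.map PowerSeries.constantCoeff).derivative.eval w ≠ 0) :
    ∃ t : PowerSeries k, PowerSeries.constantCoeff t = w ∧ G.eval t = 0 := by
  have hder : ∀ a : PowerSeries k, PowerSeries.constantCoeff a = w →
      PowerSeries.constantCoeff (G.derivative.eval a) =
        (G.map PowerSeries.constantCoeff).derivative.eval w := by
    intro a ha
    rw [constantCoeff_eval, ha, derivative_map]
  set u : PowerSeries k := PowerSeries.C
    ((G.map PowerSeries.constantCoeff).derivative.eval w)⁻¹ with hu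
  have hdvd : ∀ f : PowerSeries k, PowerSeries.constantCoeff f = 0 → PowerSeries.X ∣ f :=
    fun f hf => PowerSeries.X_dvd_iff.2 hf
  let st : PowerSeries k → PowerSeries k := fun a => a - G.eval a * u
  let a : ℕ → PowerSeries k := fun m => st^[m] (PowerSeries.C w)
  have hsucc : ∀ m, a (m + 1) = a m - G.eval (a m) * u := fun m =>
    Function.iterate_succ_apply' st m _
  have hinv : ∀ m, PowerSeries.constantCoeff (a m) = w ∧
      (PowerSeries.X : PowerSeries k) ^ (m + 1) ∣ G.eval (a m) := by
    intro m
    induction m with
    | zero =>
        have h2 : PowerSeries.constantCoeff (a 0) = w := by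
          simp only [a, Function.iterate_zero, id]
          exact PowerSeries.constantCoeff_C w
        refine ⟨h2, ?_⟩
        rw [zero_add, pow_one]
        apply hdvd
        rw [constantCoeff_eval, h2, h0]
    | succ m ih =>
        obtain ⟨ih1, ih2⟩ := ih
        have h3 : PowerSeries.constantCoeff (G.eval (a m)) = 0 := by
          rw [constantCoeff_eval, ih1, h0]
        refine ⟨?_, ?_⟩
        · rw [hsucc, map_sub, map_mul, h3, zero_mul, sub_zero, ih1]
        · rw [hsucc]
          obtain ⟨κ, hκ⟩ := G.binomExpansion (a m) (-(G.eval (a m) * u))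
          rw [sub_eq_add_neg, hκ]
          have h4 : G.eval (a m) + G.derivative.eval (a m) * -(G.eval (a m) * u) +
              κ * (-(G.eval (a m) * u)) ^ 2 =
              G.eval (a m) * (1 - G.derivative.eval (a m) * u +
                κ * G.eval (a m) * u ^ 2) := by ring
          rw [h4, pow_succ]
          refine mul_dvd_mul ih2 (hdvd _ ?_)
          rw [map_add, map_sub, map_mul, map_mul, map_mul, map_one, h3, hder _ ih1, hu,
            PowerSeries.constantCoeff_C, mul_inv_cancel₀ h1]
          simp
  have hstep : ∀ m, (PowerSeries.X : PowerSeries k) ^ (m + 1) ∣ a (m + 1) - a m := by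
    intro m
    rw [hsucc]
    have : a m - G.eval (a m) * u - a m = -(G.eval (a m) * u) := by ring
    rw [this]
    exact (dvd_mul_of_dvd_left (hinv m).2 u).neg_right
  have hcauchy : ∀ j m, j ≤ m → (PowerSeries.X : PowerSeries k) ^ (j + 1) ∣ a m - a j := by
    intro j m hjm
    induction m, hjm using Nat.le_induction with
    | base => rw [sub_self]; exact dvd_zero _
    | succ m hm ih =>
        have h5 : a (m + 1) - a j = (a (m + 1) - a m) + (a m - a j) := by ring
        rw [h5]
        exact dvd_add ((pow_dvd_pow _ (by omega)).trans (hstep m)) ih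
  set t : PowerSeries k := PowerSeries.mk fun m => PowerSeries.coeff m (a m) with ht
  have hlim : ∀ m, (PowerSeries.X : PowerSeries k) ^ (m + 1) ∣ t - a m := by
    intro m
    rw [PowerSeries.X_pow_dvd_iff]
    intro j hj
    rw [map_sub, ht, PowerSeries.coeff_mk]
    have h6 := PowerSeries.X_pow_dvd_iff.1 (hcauchy j m (by omega)) j (by omega)
    rw [map_sub] at h6
    linear_combination -h6
  refine ⟨t, ?_, ?_⟩
  · have h7 := PowerSeries.X_pow_dvd_iff.1 (hlim 0) 0 (by omega)
    rw [map_sub, PowerSeries.coeff_zero_eq_constantCoeff_apply,
      PowerSeries.coeff_zero_eq_constantCoeff_apply, (hinv 0).1, sub_eq_zero] at h7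
    exact h7
  · ext m
    rw [map_zero]
    have h8 : (PowerSeries.X : PowerSeries k) ^ (m + 1) ∣ G.eval t := by
      have h9 : G.eval t = (G.eval t - G.eval (a m)) + G.eval (a m) := by ring
      rw [h9]
      exact dvd_add ((hlim m).trans (sub_dvd_eval_sub t (a m) G)) (hinv m).2
    exact PowerSeries.X_pow_dvd_iff.1 h8 m (by omega)

end Pool.Agent.K1
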