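import Pool.Agent.K1.ChebDefs
import Pool.Agent.K1.HenselG

/-!
M1A1 and M1A2: embedding of the splitting field into the Laurent series at an unramified
fibre, and the number of ramified fibres.
-/

set_option autoImplicit false

open Polynomial

namespace Pool.Agent.K1

/-- A monic polynomial of degree `N` with `N` distinct roots is the product of the linear
factors. -/
theorem M1A1_eq_prod {k : Type*} [Field k] {N : ℕ} (f : k[X]) (hf : f.Monic)
    (hN : f.natDegree = N) (x : Fin N → k) (hx : Function.Injective x)
    (h0 : ∀ i, f.eval (x i) = 0) : f = ∏ i, (X - C (x i)) := by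
  have hdvd : (∏ i, (X - C (x i))) ∣ f := by
    apply Finset.prod_dvd_of_coprime
    · intro i _ j _ hij
      exact pairwise_coprime_X_sub_C hx hij
    · intro i _
      exact dvd_iff_isRoot.2 (h0 i)
  have hm : (∏ i, (X - C (x i))).Monic := monic_prod_of_monic _ _ fun i _ => monic_X_sub_C _
  apply eq_of_monic_of_dvd_of_natDegree_le hm hf hdvd
  rw [natDegree_prod_of_monic _ _ fun i _ => monic_X_sub_C _]
  simp [hN]

/-- At a point where the polynomial is a product of distinct linear factors, the derivative
does not vanish. -/
theorem M1A1_derivative_ne {k : Type*} [Field k] {N : ℕ} (f : k[X]) (hf : f.Monic)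
    (hN : f.natDegree = N) (x : Fin N → k) (hx : Function.Injective x)
    (h0 : ∀ i, f.eval (x i) = 0) (i : Fin N) : f.derivative.eval (x i) ≠ 0 := by
  have h1 := M1A1_eq_prod f hf hN x hx h0
  have hsep : f.Separable := by
    rw [h1]
    exact separable_prod_X_sub_C_iff.2 hx
  have h2 := hsep.eval₂_derivative_ne_zero (RingHom.id k) (x := x i) (by
    rw [eval₂_id]; exact h0 i)
  rwa [eval₂_id] at h2

/-- The substitution `lam -> lam0 + X` into power series. -/
noncomputable def M1A1_shift {k : Type*} [Field k] (a : k) : k[X] →+* PowerSeries k :=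
  (coeToPowerSeries.ringHom).comp (compRingHom (X + C a))

theorem M1A1_shift_apply {k : Type*} [Field k] (a : k) (c : k[X]) :
    M1A1_shift a c = ((c.comp (X + C a) : k[X]) : PowerSeries k) := rfl

theorem M1A1_shift_injective {k : Type*} [Field k] (a : k) :
    Function.Injective (M1A1_shift a) := by
  rw [injective_iff_map_eq_zero]
  intro c hc
  rw [M1A1_shift_apply, coe_eq_zero_iff] at hc
  exact comp_X_add_C_eq_zero_iff.1 hc

theorem M1A1_constantCoeff_shift {k : Type*} [Field k] (a : k) (c : k[X]) :
    PowerSeries.constantCoeff (M1A1_shift a c) = c.eval a := by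
  rw [M1A1_shift_apply, constantCoeff_coe, coeff_zero_eq_eval_zero, eval_comp]
  simp

theorem M1A1_map_map {k : Type*} [Field k] (F : k[X][X]) (a : k) :
    (F.map (M1A1_shift a)).map PowerSeries.constantCoeff = F.map (evalRingHom a) := by
  rw [map_map]
  congr 1
  exact RingHom.ext fun c => M1A1_constantCoeff_shift a c

/-- M1A1. At every unramified ordered fibre there is an embedding of the
splitting field into the Laurent series. -/
theorem M1A1_embed {k : Type} [Field k] [IsAlgClosed k] (F : k[X][X]) (N : ℕ)
    (hF : F.Monic) (hN : F.natDegree = N)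
    (T : Fin N → (overFrac F).SplittingField) (hT : Function.Injective T)
    (hfac : (overFrac F).map (algebraMap (FractionRing k[X]) (overFrac F).SplittingField)
      = ∏ i, (X - C (T i)))
    (hgal : ∀ π : Equiv.Perm (Fin N),
      ∃ g : (overFrac F).SplittingField ≃ₐ[FractionRing k[X]] (overFrac F).SplittingField,
        ∀ i, g (T i) = T (π i))
    (q : k × (Fin N → k)) (hq : FibrePt F q) :
    ∃ j : (overFrac F).SplittingField →+* LaurentSeries k,
      (∀ c : k[X], j (algebraMap (FractionRing k[X]) _ (algebraMap k[X] (FractionRing k[X]) c)) =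
        HahnSeries.ofPowerSeries ℤ k ((c.comp (X + C q.1) : k[X]) : PowerSeries k)) ∧
      ∀ i, ∃ t : PowerSeries k, j (T i) = HahnSeries.ofPowerSeries ℤ k t ∧
        PowerSeries.constantCoeff t = q.2 i := by
  obtain ⟨hinj, hroot⟩ := hq
  have hroot' : ∀ i, (F.map (evalRingHom q.1)).eval (q.2 i) = 0 := by
    intro i
    have h1 := hroot i
    rw [← coe_evalRingHom, ← eval₂_at_apply, coe_evalRingHom, eval_C] at h1
    rw [eval_map]
    exact h1
  have hm : (F.map (evalRingHom q.1)).Monic := hF.map _
  have hd : (F.map (evalRingHom q.1)).natDegree = N := by rw [hF.natDegree_map, hN]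
  have hder := M1A1_derivative_ne _ hm hd q.2 hinj hroot'
  have hex : ∀ i, ∃ t : PowerSeries k, PowerSeries.constantCoeff t = q.2 i ∧
      (F.map (M1A1_shift q.1)).eval t = 0 := by
    intro i
    apply exists_powerSeries_root_gen
    · rw [M1A1_map_map]; exact hroot' i
    · rw [M1A1_map_map]; exact hder i
  choose t ht0 ht1 using hex
  set ι : PowerSeries k →+* LaurentSeries k := HahnSeries.ofPowerSeries ℤ k with hι
  have hιinj : Function.Injective ι := HahnSeries.ofPowerSeries_injective
  have hcomp : Function.Injective (ι.comp (M1A1_shift q.1)) :=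
    hιinj.comp (M1A1_shift_injective q.1)
  let τ : FractionRing k[X] →+* LaurentSeries k := IsFractionRing.lift hcomp
  have hτ : ∀ c : k[X], τ (algebraMap k[X] (FractionRing k[X]) c) = ι (M1A1_shift q.1 c) :=
    fun c => IsFractionRing.lift_algebraMap hcomp c
  have htinj : Function.Injective fun i => ι (t i) := by
    intro a b hab
    have h2 := hιinj hab
    apply hinj
    rw [← ht0 a, ← ht0 b, h2]
  have hprod : (overFrac F).map τ = ∏ i, (X - C (ι (t i))) := by
    apply M1A1_eq_prod
    · exact (hF.map _).map _
    · rw [(hF.map _).natDegree_map, hF.natDegree_map, hN]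
    · exact htinj
    · intro i
      have h3 : (overFrac F).map τ = (F.map (M1A1_shift q.1)).map ι := by
        rw [map_map, map_map]
        congr 1
        exact RingHom.ext hτ
      rw [h3, eval_map, eval₂_at_apply, ht1, map_zero]
  let _ : Algebra (FractionRing k[X]) (LaurentSeries k) := τ.toAlgebra
  have hsplit : ((overFrac F).map (algebraMap (FractionRing k[X]) (LaurentSeries k))).Splits := by
    have h4 : algebraMap (FractionRing k[X]) (LaurentSeries k) = τ := rfl
    rw [h4, hprod]
    exact Splits.prod fun i _ => Splits.X_sub_C _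
  let j0 : (overFrac F).SplittingField →ₐ[FractionRing k[X]] LaurentSeries k :=
    SplittingField.lift (overFrac F) hsplit
  have hj0 : ∀ i, ∃ m, j0 (T i) = ι (t m) := by
    intro i
    have h5 : (overFrac F).eval₂ τ (j0 (T i)) = 0 := by
      have h6 : ((overFrac F).map (algebraMap (FractionRing k[X])
          (overFrac F).SplittingField)).eval (T i) = 0 := by
        rw [hfac, eval_prod]
        exact Finset.prod_eq_zero (Finset.mem_univ i) (by simp)
      rw [eval_map] at h6
      have h7 := congrArg j0 h6
      rw [map_zero] at h7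
      have h8 : j0 ((overFrac F).eval₂ (algebraMap (FractionRing k[X])
          (overFrac F).SplittingField) (T i)) =
          (overFrac F).eval₂ (j0.toRingHom.comp (algebraMap (FractionRing k[X])
          (overFrac F).SplittingField)) (j0 (T i)) := by
        exact hom_eval₂ _ _ j0.toRingHom _
      rw [h8] at h7
      have h9 : j0.toRingHom.comp (algebraMap (FractionRing k[X])
          (overFrac F).SplittingField) = τ := RingHom.ext fun a => j0.commutes a
      rwa [h9] at h7
    rw [← eval_map, hprod, eval_prod, Finset.prod_eq_zero_iff] at h5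
    obtain ⟨m, _, hm⟩ := h5
    refine ⟨m, ?_⟩
    rw [eval_sub, eval_X, eval_C, sub_eq_zero] at hm
    exact hm
  choose π hπ using hj0
  have hπinj : Function.Injective π := by
    intro a b hab
    apply hT
    apply j0.toRingHom.injective
    change j0 (T a) = j0 (T b)
    rw [hπ, hπ, hab]
  let πe : Equiv.Perm (Fin N) := Equiv.ofBijective π (Finite.injective_iff_bijective.1 hπinj)
  obtain ⟨g, hg⟩ := hgal πe.symm
  refine ⟨j0.toRingHom.comp (g : (overFrac F).SplittingField →+* (overFrac F).SplittingField),
    ?_, ?_⟩
  · intro c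
    have h10 : g (algebraMap (FractionRing k[X]) _ (algebraMap k[X] (FractionRing k[X]) c)) =
      algebraMap (FractionRing k[X]) _ (algebraMap k[X] (FractionRing k[X]) c) := g.commutes _
    have h11 : j0 (algebraMap (FractionRing k[X]) _ (algebraMap k[X] (FractionRing k[X]) c)) =
      τ (algebraMap k[X] (FractionRing k[X]) c) := j0.commutes _
    change j0 (g _) = _
    rw [h10, h11, hτ]
    rfl
  · intro i
    refine ⟨t i, ?_, ht0 i⟩
    change j0 (g (T i)) = _
    rw [hg, hπ]
    have h12 : π (πe.symm i) = i := πe.apply_symm_apply i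
    rw [h12]

/-- The degree of a determinant whose entries have degree at most `h`. -/
theorem M1A2_natDegree_det {k : Type*} [Field k] {n h : ℕ} (M : Matrix (Fin n) (Fin n) k[X])
    (hM : ∀ i j, (M i j).natDegree ≤ h) : M.det.natDegree ≤ n * h := by
  rw [Matrix.det_apply]
  apply natDegree_sum_le_of_forall_le
  intro σ _
  rw [Units.smul_def, zsmul_eq_mul]
  refine (natDegree_mul_le).trans ?_
  rw [natDegree_intCast, zero_add]
  refine (natDegree_prod_le _ _).trans ?_
  refine (Finset.sum_le_card_nsmul _ _ h fun i _ => hM _ _).trans ?_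
  simp

/-- M1A2. There is an unramified ordered fibre, and the number of `lam0` without one is
bounded. -/
theorem M1A2_unramified (N h : ℕ) : ∃ B : ℕ, ∀ (k : Type) [Field k] [IsAlgClosed k]
    (F : k[X][X]), F.Monic → F.natDegree = N → (∀ i, (F.coeff i).natDegree ≤ h) →
    FullGal F N → ∃ R : Finset k, R.card ≤ B ∧
      ∀ lam, lam ∉ R → ∃ x : Fin N → k, FibrePt F (lam, x) := by
  refine ⟨(N + (N - 1)) * h, ?_⟩
  intro k _ _ F hF hN hh hG
  rcases Nat.eq_zero_or_pos N with h0 | hpos
  · subst h0
    refine ⟨∅, by simp, fun lam _ => ⟨Fin.elim0, fun a => a.elim0, fun a => a.elim0⟩⟩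
  classical
  set Rs : k[X] := resultant F F.derivative N (N - 1) with hRs
  have hdegd : F.derivative.natDegree ≤ N - 1 := (natDegree_derivative_le F).trans (by omega)
  have hdegRs : Rs.natDegree ≤ (N + (N - 1)) * h := by
    rw [hRs, resultant]
    apply M1A2_natDegree_det
    intro i j
    rw [sylvester, Matrix.of_apply]
    refine Fin.addCases ?_ ?_ j
    · intro j1
      rw [Fin.addCases_left]
      split_ifs
      · rw [coeff_derivative]
        refine natDegree_mul_le.trans ?_
        have h1 : ∀ e : ℕ, ((e : k[X]) + 1).natDegree = 0 := by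
          intro e
          have h0 : ((e : k[X]) + 1) = ((e + 1 : ℕ) : k[X]) := by push_cast; rfl
          rw [h0, natDegree_natCast]
        rw [h1]
        exact hh _
      · simp
    · intro j1
      rw [Fin.addCases_right]
      split_ifs
      · exact hh _
      · simp
  have hne : Rs ≠ 0 := by
    intro h2
    obtain ⟨T, hT, hfac, _⟩ := hG
    set φ : k[X] →+* (overFrac F).SplittingField :=
      (algebraMap (FractionRing k[X]) (overFrac F).SplittingField).comp
        (algebraMap k[X] (FractionRing k[X])) with hφ
    have h3 : F.map φ = ∏ i, (X - C (T i)) := by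
      rw [← hfac, map_map]
    have h4 : (F.map φ).Separable := by
      rw [h3]
      exact separable_prod_X_sub_C_iff.2 hT
    have h5 : resultant (F.map φ) (F.derivative.map φ) N (N - 1) = 0 := by
      rw [resultant_map_map, ← hRs, h2, map_zero]
    have h6 : (F.map φ).natDegree = N := by rw [hF.natDegree_map, hN]
    have h7 : (F.derivative.map φ).natDegree ≤ N - 1 := natDegree_map_le.trans hdegd
    obtain ⟨e, he⟩ := Nat.exists_eq_add_of_le h7
    rw [he, resultant_add_right_deg _ _ _ _ _ le_rfl] at h5
    have h8 : (F.map φ).coeff N = 1 := by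
      rw [← h6]
      exact (hF.map φ).coeff_natDegree
    rw [h8, one_pow, one_mul, ← derivative_map] at h5
    have h9 := resultant_ne_zero (F.map φ) (F.map φ).derivative h4
    rw [h6] at h9
    exact h9 h5
  refine ⟨Rs.roots.toFinset, ?_, ?_⟩
  · exact (Multiset.toFinset_card_le _).trans ((card_roots' _).trans hdegRs)
  · intro lam hlam
    have h10 : Rs.eval lam ≠ 0 := by
      intro h11
      apply hlam
      rw [Multiset.mem_toFinset, mem_roots hne]
      exact h11
    obtain ⟨p, r, _, _, hpr⟩ := exists_mul_add_mul_eq_C_resultant (m := N) (n := N - 1)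
      F F.derivative hN.le hdegd (Or.inl hpos.ne')
    set f : k[X] := F.map (evalRingHom lam) with hf
    have hfm : f.Monic := hF.map _
    have hfd : f.natDegree = N := by rw [hf, hF.natDegree_map, hN]
    have hsep : f.Separable := by
      have h12 := congrArg (Polynomial.map (evalRingHom lam)) hpr
      rw [Polynomial.map_add, Polynomial.map_mul, Polynomial.map_mul, map_C, ← hRs,
        coe_evalRingHom, ← derivative_map, ← hf] at h12
      refine ⟨C (Rs.eval lam)⁻¹ * p.map (evalRingHom lam),
        C (Rs.eval lam)⁻¹ * r.map (evalRingHom lam), ?_⟩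
      have h13 : C (Rs.eval lam)⁻¹ * C (Rs.eval lam) = (1 : k[X]) := by
        rw [← C_mul, inv_mul_cancel₀ h10, C_1]
      calc C (Rs.eval lam)⁻¹ * p.map (evalRingHom lam) * f +
            C (Rs.eval lam)⁻¹ * r.map (evalRingHom lam) * f.derivative
          = C (Rs.eval lam)⁻¹ * (f * p.map (evalRingHom lam) +
            f.derivative * r.map (evalRingHom lam)) := by ring
        _ = 1 := by rw [h12, h13]
    have hcard : Fintype.card (f.rootSet k) = N := by
      rw [← hfd]
      exact card_rootSet_eq_natDegree hsep (IsAlgClosed.splits _)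
    let e : Fin N ≃ f.rootSet k := (Fintype.equivFinOfCardEq hcard).symm
    refine ⟨fun i => (e i : k), ?_, ?_⟩
    · intro a b hab
      exact e.injective (Subtype.ext hab)
    · intro i
      have h14 := (e i).2
      rw [mem_rootSet_of_ne hfm.ne_zero, coe_aeval_eq_eval] at h14
      change eval lam (eval (C (e i : k)) F) = 0
      rw [← coe_evalRingHom, ← eval₂_at_apply, coe_evalRingHom, eval_C, ← eval_map]
      exact h14

end Pool.Agent.K1
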