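import Pool.Agent.K1.M1C
import Pool.Agent.K1.M1A1
import Pool.Agent.K1.M1B

/-!
K1 project, M1: the Chebotarev estimate for the identity class (assembly of M1A, M1B, M1C).
-/

open Polynomial

namespace Pool.Agent.K1

theorem M1_cheb (p N h : ℕ) [Fact p.Prime] : ∃ B : ℕ, ∀ (K : Type) [Field K] [Fintype K]
    [CharP K p] (m : ℕ) (_ : Fintype.card K = (p ^ m) ^ 2) (F : K[X][X]), F.Monic →
    F.natDegree = N → (∀ i, (F.coeff i).natDegree ≤ h) →
    FullGal (F.map (mapRingHom (algebraMap K (AlgebraicClosure K)))) N →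
    |((Nat.card {lam : K // ∃ R : Finset K, R.card = N ∧
        ∀ s, s ∈ R ↔ (F.map (evalRingHom lam)).eval s = 0} : ℕ) : ℝ) * (N.factorial : ℝ)
        - ((p ^ m : ℕ) : ℝ) ^ 2| ≤ (B : ℝ) * ((p ^ m : ℕ) : ℝ) :=
  M1_cheb_of p N h (M1A2_unramified N h) (M1B_upper p N h)

end Pool.Agent.K1
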