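import Pool.Agent.K1.Defs

/-!
A plane curve of type `C_{n,z}` with `n`, `z` coprime is irreducible.
-/

set_option autoImplicit false

open Polynomial

namespace Pool.Agent.K1

namespace IrrCnz

variable {K : Type*} [Field K]

/-- `f(S, Z) ↦ f(T ^ n, Y T ^ z)` as a polynomial in `T` with coefficients in `K[Y]` -/
noncomputable def phi (n z : ℕ) : K[X][X] →+* K[X][X] :=
  eval₂RingHom ((mapRingHom (C : K →+* K[X])).comp (expand K n).toRingHom) (C X * X ^ z)

theorem phi_coeff (n z : ℕ) (f : K[X][X]) (m j : ℕ) :
    ((phi n z f).coeff m).coeff j = (expand K n (f.coeff j) * X ^ (z * j)).coeff m := by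
  induction f using Polynomial.induction_on' with
  | add f g hf hg =>
    rw [map_add, coeff_add, coeff_add, hf, hg, coeff_add, map_add, add_mul, coeff_add]
  | monomial k a =>
    have e : phi n z (monomial k a) = (expand K n a * X ^ (z * k)).map C * C (X ^ k) := by
      rw [phi, coe_eval₂RingHom, eval₂_monomial, mul_pow, ← pow_mul, ← C_pow, Polynomial.map_mul,
        Polynomial.map_pow, map_X]
      change (expand K n a).map C * _ = _
      ring
    rw [e, coeff_mul_C, coeff_map, coeff_C_mul, coeff_X_pow, coeff_monomial]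
    by_cases h : j = k
    · subst h
      simp
    · rw [if_neg h, if_neg (Ne.symm h)]
      simp

theorem natDegree_phi_ge {n z : ℕ} (hn : 0 < n) (f : K[X][X]) (j : ℕ) (hj : f.coeff j ≠ 0) :
    n * (f.coeff j).natDegree + z * j ≤ (phi n z f).natDegree := by
  apply le_natDegree_of_ne_zero
  intro h
  have h1 := phi_coeff n z f (n * (f.coeff j).natDegree + z * j) j
  rw [h, coeff_zero, coeff_mul_X_pow, mul_comm n, coeff_expand_mul hn] at h1
  exact leadingCoeff_ne_zero.2 hj h1.symm

theorem natDegree_phi_le {n z N : ℕ} (f : K[X][X])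
    (h : ∀ j, f.coeff j ≠ 0 → n * (f.coeff j).natDegree + z * j ≤ N) :
    (phi n z f).natDegree ≤ N := by
  rw [natDegree_le_iff_coeff_eq_zero]
  intro m hm
  ext j
  rw [phi_coeff, coeff_zero]
  by_cases hj : f.coeff j = 0
  · rw [hj]
    simp
  · apply coeff_eq_zero_of_natDegree_lt
    refine lt_of_le_of_lt natDegree_mul_le ?_
    rw [natDegree_X_pow, natDegree_expand, mul_comm _ n]
    exact lt_of_le_of_lt (h j hj) hm

theorem phi_ne_zero {n z : ℕ} (hn : 0 < n) {f : K[X][X]} (hf : f ≠ 0) : phi n z f ≠ 0 := by
  obtain ⟨j, hj⟩ : ∃ j, f.coeff j ≠ 0 := by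
    by_contra hcon
    push Not at hcon
    exact hf (Polynomial.ext hcon)
  intro h
  have h1 := phi_coeff n z f (n * (f.coeff j).natDegree + z * j) j
  rw [h, coeff_zero, coeff_zero, coeff_mul_X_pow, mul_comm n, coeff_expand_mul hn] at h1
  exact leadingCoeff_ne_zero.2 hj h1.symm

end IrrCnz

open IrrCnz in
/-- A plane curve of type `C_{n,z}` with coprime `n`, `z` is irreducible. -/
theorem irreducible_of_isCnz {K : Type*} [Field K] (χ : K[X][X]) (n z : ℕ) (hn : 1 ≤ n)
    (hχ : IsCnz χ n z) (hcop : n.Coprime z) : Irreducible χ := by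
  have hn0 : 0 < n := hn
  have hW : (phi n z χ).natDegree ≤ n * z := by
    apply natDegree_phi_le
    intro j hj
    rcases Nat.eq_zero_or_pos j with rfl | hj0
    · rw [hχ.deg0, mul_zero, add_zero]
    · rcases lt_trichotomy j n with h | h | h
      · exact (hχ.lt j hj0 h).le
      · have h1 : χ.coeff n = 1 := by
          have := hχ.monic.coeff_natDegree
          rwa [hχ.natDegree] at this
        rw [h, h1, natDegree_one, mul_zero, zero_add, mul_comm]
      · exfalso
        apply hj
        apply coeff_eq_zero_of_natDegree_lt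
        rw [hχ.natDegree]
        exact h
  -- the main computation
  have key : ∀ a b : K[X][X], a.Monic → b.Monic → a * b = χ → a.natDegree = 0 ∨
      b.natDegree = 0 := by
    intro a b ha hb hab
    have hdeg : a.natDegree + b.natDegree = n := by
      rw [← hχ.natDegree, ← hab, ha.natDegree_mul hb]
    have hW2 : (phi n z a).natDegree + (phi n z b).natDegree ≤ n * z := by
      rw [← natDegree_mul (phi_ne_zero hn0 ha.ne_zero) (phi_ne_zero hn0 hb.ne_zero), ← map_mul,
        hab]
      exact hW
    have la : z * a.natDegree ≤ (phi n z a).natDegree := by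
      have := natDegree_phi_ge (z := z) hn0 a a.natDegree (by
        rw [ha.coeff_natDegree]; exact one_ne_zero)
      rw [ha.coeff_natDegree, natDegree_one, mul_zero, zero_add] at this
      exact this
    have lb : z * b.natDegree ≤ (phi n z b).natDegree := by
      have := natDegree_phi_ge (z := z) hn0 b b.natDegree (by
        rw [hb.coeff_natDegree]; exact one_ne_zero)
      rw [hb.coeff_natDegree, natDegree_one, mul_zero, zero_add] at this
      exact this
    have hsum : z * a.natDegree + z * b.natDegree = n * z := by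
      rw [← mul_add, hdeg, mul_comm]
    have h0 : a.coeff 0 * b.coeff 0 = χ.coeff 0 := by rw [← mul_coeff_zero, hab]
    rcases Nat.eq_zero_or_pos z with hz | hz
    · -- `z = 0`, so `n = 1`
      rw [hz, Nat.coprime_zero_right] at hcop
      omega
    have hχ0 : χ.coeff 0 ≠ 0 := by
      intro h
      have := hχ.deg0
      rw [h, natDegree_zero] at this
      omega
    have ha0 : a.coeff 0 ≠ 0 := by
      intro h
      rw [h, zero_mul] at h0
      exact hχ0 h0.symm
    have hb0 : b.coeff 0 ≠ 0 := by
      intro h
      rw [h, mul_zero] at h0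
      exact hχ0 h0.symm
    have hd0 : (a.coeff 0).natDegree + (b.coeff 0).natDegree = z := by
      rw [← natDegree_mul ha0 hb0, h0, hχ.deg0]
    have ua := natDegree_phi_ge (z := z) hn0 a 0 ha0
    have ub := natDegree_phi_ge (z := z) hn0 b 0 hb0
    rw [mul_zero, add_zero] at ua ub
    have hmul : n * (a.coeff 0).natDegree + n * (b.coeff 0).natDegree = n * z := by
      rw [← mul_add, hd0]
    have hfin : n * (a.coeff 0).natDegree = z * a.natDegree := by omega
    have hdvd : n ∣ a.natDegree := by
      have h1 : n ∣ z * a.natDegree := ⟨_, hfin.symm⟩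
      exact hcop.dvd_of_dvd_mul_left h1
    obtain ⟨c, hc⟩ := hdvd
    rcases Nat.eq_zero_or_pos c with h | h
    · left
      rw [hc, h, mul_zero]
    · right
      have : n ≤ a.natDegree := by
        rw [hc]
        exact Nat.le_mul_of_pos_right n h
      omega
  have hne1 : χ ≠ 1 := by
    intro h
    have := hχ.natDegree
    rw [h, natDegree_one] at this
    omega
  rw [hχ.monic.irreducible_iff_natDegree]
  exact ⟨hne1, key⟩

end Pool.Agent.K1
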