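import Pool.Agent.K1.Pencil
import Pool.Agent.K1.IrrCnz

/-!
# The pencil polynomial `F` and its irreducibility
-/

set_option autoImplicit false

open Polynomial

namespace Pool.Agent.K1

/-- M2a. The pencil polynomial divided by its base points. -/
theorem M2_exists_F {K : Type*} [Field K] (χ : K[X][X]) (n z : ℕ) (hn : 2 ≤ n)
    (hχ : IsCnz χ n z) (h8 : 8 * n ≤ z) (P T0 : K[X]) (s1 s2 : K) (h12 : s1 ≠ s2)
    (hP : P.natDegree ≤ 4) (hT0 : T0.Monic) (hT0d : T0.natDegree = 2)
    (h1 : χ.evalEval s1 (P.eval s1) = 0) (h2 : χ.evalEval s2 (P.eval s2) = 0) :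
    ∃ F : K[X][X], F.Monic ∧ F.natDegree = z - 2 ∧ (∀ i, (F.coeff i).natDegree ≤ n) ∧
      C (C ((χ.coeff 0).leadingCoeff)) * (X - C (C s1)) * (X - C (C s2)) * F
        = pencil χ P ((X - C s1) * (X - C s2) * T0) := by
  have hev : ∀ s : K, (χ.eval P).eval s = χ.evalEval s (P.eval s) := fun s => by
    have h3 := eval₂_at_apply (p := χ) (evalRingHom s) P
    have h4 := eval₂_at_apply (p := χ) (evalRingHom s) (C (P.eval s))
    rw [coe_evalRingHom, eval_C] at h4
    rw [coe_evalRingHom] at h3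
    rw [evalEval, ← h3, ← h4]
  have hD : ((X - C s1) * (X - C s2) : K[X]).Monic := (monic_X_sub_C s1).mul (monic_X_sub_C s2)
  have hDd : ((X - C s1) * (X - C s2) : K[X]).natDegree = 2 := by
    rw [(monic_X_sub_C s1).natDegree_mul (monic_X_sub_C s2), natDegree_X_sub_C, natDegree_X_sub_C]
  have hdvd : ((X - C s1) * (X - C s2) : K[X]) ∣ χ.eval P := by
    apply (isCoprime_X_sub_C_of_isUnit_sub (sub_ne_zero.2 h12).isUnit).mul_dvd
    · rw [dvd_iff_isRoot, IsRoot, hev, h1]
    · rw [dvd_iff_isRoot, IsRoot, hev, h2]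
  obtain ⟨G, hGm, hGd, hGc, hG⟩ := exists_G χ n z (by omega) hχ h8 P
    ((X - C s1) * (X - C s2) * T0) ((X - C s1) * (X - C s2)) hP
    (by rw [hD.natDegree_mul hT0, hDd, hT0d]) hD (Dvd.intro _ rfl) hdvd
  refine ⟨G, hGm, by rw [hGd, hDd], hGc, ?_⟩
  rw [← hG, Polynomial.map_mul, Polynomial.map_sub, Polynomial.map_sub, map_X, map_C, map_C]
  ring

/-- M2b0. Gauss: irreducibility of the pencil (general form, also used in M2f). -/
theorem M2b0_irreducible {k : Type*} [Field k] [IsAlgClosed k]
    (χ : k[X][X]) (n z : ℕ) (hn : 1 ≤ n) (hχ : IsCnz χ n z) (hcop : n.Coprime z)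
    (P T D : k[X]) (hT : T ≠ 0) (hD : D ≠ 0) (F : k[X][X]) (hFm : F.Monic)
    (hFd : 0 < F.natDegree)
    (hF : C (C ((χ.coeff 0).leadingCoeff)) * D.map C * F = pencil χ P T)
    (hprim : ∀ s : k, F.eval (C s) ≠ 0) :
    Irreducible (overFrac F) := by
  classical
  set G := Bivariate.swap F with hG
  have hid := swap_id hF
  rw [← hG] at hid
  -- the polynomial is irreducible over the field of fractions of `k[S]`
  have hχi : Irreducible (χ.map (algebraMap k[X] (FractionRing k[X]))) :=
    (hχ.monic.irreducible_iff_irreducible_map_fraction_map).1 (irreducible_of_isCnz χ n z hn hχ hcop)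
  set φ := algebraMap k[X] (FractionRing k[X]) with hφ
  have hφi : Function.Injective φ := IsFractionRing.injective k[X] (FractionRing k[X])
  have hT' : φ T ≠ 0 := by rwa [Ne, map_eq_zero_iff _ hφi]
  let _ : Invertible (φ T) := invertibleOfNonzero hT'
  have hcomp : Irreducible ((χ.map φ).comp (C (φ P) + C (φ T) * X)) := by
    have h1 : algEquivCMulXAddC (φ T) (φ P) (χ.map φ) =
        (χ.map φ).comp (C (φ P) + C (φ T) * X) := by
      rw [algEquivCMulXAddC_apply, add_comm]
      rfl
    rw [← h1]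
    exact (MulEquiv.irreducible_iff (algEquivCMulXAddC (φ T) (φ P))).2 hχi
  have hid' : C (φ (C ((χ.coeff 0).leadingCoeff) * D)) * G.map φ =
      (χ.map φ).comp (C (φ P) + C (φ T) * X) := by
    have h1 := congrArg (fun q : k[X][X] => q.map φ) hid
    simp only [Polynomial.map_mul, map_C, map_comp, Polynomial.map_add, map_X] at h1
    rw [map_mul, C_mul]
    exact h1
  have hGi' : Irreducible (G.map φ) := by
    rw [← hid'] at hcomp
    have hu : IsUnit (C (φ (C ((χ.coeff 0).leadingCoeff) * D))) := by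
      rw [isUnit_C, isUnit_iff_ne_zero]
      intro h0
      rw [h0, C_0, zero_mul] at hcomp
      exact hcomp.ne_zero rfl
    exact (irreducible_isUnit_mul hu).1 hcomp
  -- the polynomial is primitive over `k[S]`
  have hGne : G ≠ 0 := by
    intro h0
    rw [h0, Polynomial.map_zero] at hGi'
    exact hGi'.ne_zero rfl
  have hprimG : G.IsPrimitive := by
    intro r hr
    by_contra hu
    have hr0 : r ≠ 0 := by
      rintro rfl
      rw [C_0, zero_dvd_iff] at hr
      exact hGne hr
    have hdeg : r.degree ≠ 0 := by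
      intro h0
      exact hu (isUnit_iff_degree_eq_zero.2 h0)
    obtain ⟨s, hs⟩ := IsAlgClosed.exists_root r hdeg
    apply hprim s
    have h1 : (C (X - C s) : k[X][X]) ∣ G := (_root_.map_dvd C (dvd_iff_isRoot.2 hs)).trans hr
    obtain ⟨Q, hQ⟩ := h1
    rw [← map_swap_eval, ← hG, hQ, Polynomial.map_mul, map_C, coe_evalRingHom, eval_sub, eval_X,
      eval_C, sub_self, C_0, zero_mul]
  have hGi : Irreducible G :=
    (hprimG.irreducible_iff_irreducible_map_fraction_map (K := FractionRing k[X])).2 hGi'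
  have hFi : Irreducible F := by
    have h1 : Irreducible (Bivariate.swap G) := (MulEquiv.irreducible_iff Bivariate.swap).2 hGi
    rwa [hG, Bivariate.swap_swap_apply] at h1
  exact (hFm.irreducible_iff_irreducible_map_fraction_map).1 hFi

/-- M2b. The pencil with two base points. -/
theorem M2b_irreducible {k : Type*} [Field k] [IsAlgClosed k]
    (χ : k[X][X]) (n z : ℕ) (hn : 2 ≤ n) (hχ : IsCnz χ n z) (hcop : n.Coprime z)
    (h8 : 8 * n ≤ z)
    (P T0 : k[X]) (s1 s2 : k) (h12 : s1 ≠ s2)
    (hP : P.natDegree ≤ 4) (hT0 : T0.Monic) (hT0d : T0.natDegree = 2)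
    (hg1 : Good χ s1 (P.eval s1)) (hg2 : Good χ s2 (P.eval s2))
    (hcopT : IsCoprime T0 (χ.eval P))
    (F : k[X][X]) (hFm : F.Monic) (hFd : F.natDegree = z - 2)
    (hF : C (C ((χ.coeff 0).leadingCoeff)) * (X - C (C s1)) * (X - C (C s2)) * F
        = pencil χ P ((X - C s1) * (X - C s2) * T0)) :
    Irreducible (overFrac F) := by
  have hD : ((X - C s1) * (X - C s2) : k[X]).Monic := (monic_X_sub_C s1).mul (monic_X_sub_C s2)
  have hF' : C (C ((χ.coeff 0).leadingCoeff)) * ((X - C s1) * (X - C s2)).map C * F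
        = pencil χ P ((X - C s1) * (X - C s2) * T0) := by
    rw [← hF, Polynomial.map_mul, Polynomial.map_sub, Polynomial.map_sub, map_X, map_C, map_C]
    ring
  have hev : ∀ (q : k[X][X]) (s : k), (q.eval P).eval s = q.evalEval s (P.eval s) := by
    intro q s
    have h3 := eval₂_at_apply (p := q) (evalRingHom s) P
    have h4 := eval₂_at_apply (p := q) (evalRingHom s) (C (P.eval s))
    rw [coe_evalRingHom, eval_C] at h4
    rw [coe_evalRingHom] at h3
    rw [evalEval, ← h3, ← h4]
  have hcopT' : ∀ s, (χ.eval P).eval s = 0 → T0.eval s ≠ 0 := by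
    intro s h1 h2
    obtain ⟨u, v, huv⟩ := hcopT
    have h3 := congrArg (eval s) huv
    rw [eval_add, eval_mul, eval_mul, h1, h2, mul_zero, mul_zero, add_zero, eval_one] at h3
    exact zero_ne_one h3
  have hbase : ∀ s, Good χ s (P.eval s) → F.eval (C s) ≠ 0 := by
    intro s hs h0
    have h1 := eval_coeff_one hD.ne_zero rfl hF' s
    rw [h0, coeff_zero, mul_zero, hev] at h1
    refine mul_ne_zero hs.2 (hcopT' s ?_) h1.symm
    rw [hev]
    exact hs.1
  refine M2b0_irreducible χ n z (by omega) hχ hcop P _ _ (mul_ne_zero hD.ne_zero hT0.ne_zero)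
    hD.ne_zero F hFm (by omega) hF' (fun s => ?_)
  by_cases hs : ((X - C s1) * (X - C s2) * T0).eval s = 0
  · rw [eval_mul, mul_eq_zero, eval_mul, mul_eq_zero, eval_sub, eval_sub, eval_X, eval_C, eval_C,
      sub_eq_zero, sub_eq_zero] at hs
    rcases hs with (rfl | rfl) | hs
    · exact hbase _ hg1
    · exact hbase _ hg2
    · intro h0
      have h1 := eval_coeff_zero hF' s
      rw [h0, coeff_zero, mul_zero] at h1
      exact hcopT' s h1.symm hs
  · exact eval_ne_zero_of_T (by omega) hχ.monic hχ.natDegree hF' hs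

end Pool.Agent.K1
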