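import Pool.Agent.K1.Pencil
import Pool.Agent.K1.M2ab

/-!
# Existence of the base point of the pencils
-/

set_option autoImplicit false

open Polynomial

namespace Pool.Agent.K1

namespace M2f

variable {K : Type*} [Field K]

theorem eval_eval (χ : K[X][X]) (P : K[X]) (s : K) :
    (χ.eval P).eval s = χ.evalEval s (P.eval s) := by
  have h := hom_eval₂ χ (RingHom.id K[X]) (evalRingHom s) P
  rw [RingHom.comp_id, eval₂_id, coe_evalRingHom] at h
  rw [h, ← eval_map, map_evalRingHom_eval]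

/-- Hermite interpolation -/
theorem hermite (s1 s2 sy y1 y2 yy : K) (h12 : s1 ≠ s2) (h1y : s1 ≠ sy) (h2y : s2 ≠ sy)
    (m : K) : ∃ W : K[X], W.natDegree ≤ 2 ∧ W.eval sy = m ∧
      yy + (s1 - sy) * W.eval s1 = y1 ∧ yy + (s2 - sy) * W.eval s2 = y2 := by
  have e1 : s1 - sy ≠ 0 := sub_ne_zero.2 h1y
  have e2 : s2 - sy ≠ 0 := sub_ne_zero.2 h2y
  have e12 : s1 - s2 ≠ 0 := sub_ne_zero.2 h12
  set A1 : K := (y1 - yy - m * (s1 - sy)) / (s1 - sy) ^ 2 with hA1
  set A2 : K := (y2 - yy - m * (s2 - sy)) / (s2 - sy) ^ 2 with hA2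
  set b : K := (A1 - A2) / (s1 - s2) with hb
  refine ⟨C m + (X - C sy) * (C (A1 - b * s1) + C b * X), ?_, ?_, ?_, ?_⟩
  · compute_degree
  · simp
  · simp only [eval_add, eval_mul, eval_C, eval_sub, eval_X]
    have : A1 * (s1 - sy) ^ 2 = y1 - yy - m * (s1 - sy) := by
      rw [hA1]; field_simp
    linear_combination this
  · simp only [eval_add, eval_mul, eval_C, eval_sub, eval_X]
    have h1 : A2 * (s2 - sy) ^ 2 = y2 - yy - m * (s2 - sy) := by
      rw [hA2]; field_simp
    have h2 : b * (s1 - s2) = A1 - A2 := by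
      rw [hb]; field_simp
    linear_combination h1 - (s2 - sy) ^ 2 * h2

/-- the polynomial `P₁` -/
theorem exists_P1 (χ : K[X][X]) (s1 s2 sy y1 y2 yy : K) (h12 : s1 ≠ s2) (h1y : s1 ≠ sy)
    (h2y : s2 ≠ sy) (hg1 : Good χ s1 y1) (hg2 : Good χ s2 y2) (hgy : Good χ sy yy) :
    ∃ P : K[X], P.natDegree ≤ 4 ∧ P.eval s1 = y1 ∧ P.eval s2 = y2 ∧ P.eval sy = yy ∧
      (X - C s1) * (X - C s2) * (X - C sy) ^ 2 ∣ χ.eval P := by
  have hu : (X - C sy) ∣ χ.eval (C yy) := by
    rw [dvd_iff_isRoot]; exact hgy.1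
  obtain ⟨u, hu⟩ := hu
  set v : K := (derivative χ).evalEval sy yy with hv
  have hv0 : v ≠ 0 := hgy.2
  obtain ⟨W, hW, hWy, hW1, hW2⟩ := hermite s1 s2 sy y1 y2 yy h12 h1y h2y (-(u.eval sy) / v)
  have e1 : (C yy + (X - C sy) * W).eval s1 = y1 := by
    simp only [eval_add, eval_mul, eval_C, eval_sub, eval_X]
    exact hW1
  have e2 : (C yy + (X - C sy) * W).eval s2 = y2 := by
    simp only [eval_add, eval_mul, eval_C, eval_sub, eval_X]
    exact hW2
  have ey : (C yy + (X - C sy) * W).eval sy = yy := by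
    simp only [eval_add, eval_mul, eval_C, eval_sub, eval_X, sub_self, zero_mul, add_zero]
  refine ⟨C yy + (X - C sy) * W, ?_, e1, e2, ey, ?_⟩
  · refine (natDegree_add_le _ _).trans (max_le ?_ ?_)
    · rw [natDegree_C]; omega
    · refine (natDegree_mul_le).trans ?_
      rw [natDegree_X_sub_C]; omega
  · have hc12 : IsCoprime (X - C s1) (X - C s2) := isCoprime_X_sub_C_of_isUnit_sub
      (isUnit_iff_ne_zero.2 (sub_ne_zero.2 h12))
    have hc1y : IsCoprime (X - C s1) (X - C sy) := isCoprime_X_sub_C_of_isUnit_sub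
      (isUnit_iff_ne_zero.2 (sub_ne_zero.2 h1y))
    have hc2y : IsCoprime (X - C s2) (X - C sy) := isCoprime_X_sub_C_of_isUnit_sub
      (isUnit_iff_ne_zero.2 (sub_ne_zero.2 h2y))
    have d1 : (X - C s1) ∣ χ.eval (C yy + (X - C sy) * W) := by
      rw [dvd_iff_isRoot, IsRoot.def, eval_eval, e1]; exact hg1.1
    have d2 : (X - C s2) ∣ χ.eval (C yy + (X - C sy) * W) := by
      rw [dvd_iff_isRoot, IsRoot.def, eval_eval, e2]; exact hg2.1
    have dy : (X - C sy) ^ 2 ∣ χ.eval (C yy + (X - C sy) * W) := by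
      obtain ⟨q, hq⟩ := χ.binomExpansion (C yy) ((X - C sy) * W)
      have hr : (X - C sy) ∣ u + (derivative χ).eval (C yy) * W := by
        rw [dvd_iff_isRoot, IsRoot.def, eval_add, eval_mul, hWy]
        have : eval sy (eval (C yy) (derivative χ)) = v := rfl
        rw [this]
        field_simp
        ring
      obtain ⟨w, hw⟩ := hr
      rw [hq, hu]
      refine ⟨w + q * W ^ 2, ?_⟩
      linear_combination (X - C sy) * hw
    exact (IsCoprime.mul_left (hc1y.pow_right) (hc2y.pow_right)).mul_dvd (hc12.mul_dvd d1 d2) dy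

/-- degree of a determinant -/
theorem natDegree_det_le {m : ℕ} (A : Matrix (Fin m) (Fin m) K[X]) (n : ℕ)
    (hA : ∀ i j, (A i j).natDegree ≤ n) : A.det.natDegree ≤ m * n := by
  rw [Matrix.det_apply]
  apply natDegree_sum_le_of_forall_le
  intro σ _
  have h1 : (∏ i, A (σ i) i).natDegree ≤ m * n := by
    refine (natDegree_prod_le _ _).trans ?_
    refine (Finset.sum_le_sum (fun i _ => hA (σ i) i)).trans ?_
    simp
  rcases Int.units_eq_one_or (Equiv.Perm.sign σ) with h | h
  · rw [h, one_smul]; exact h1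
  · rw [h, Units.neg_smul, one_smul, natDegree_neg]; exact h1

theorem natDegree_resultant_le (F G : K[X][X]) (m l n : ℕ)
    (hF : ∀ i, (F.coeff i).natDegree ≤ n) (hG : ∀ i, (G.coeff i).natDegree ≤ n) :
    (resultant F G m l).natDegree ≤ (m + l) * n := by
  unfold resultant
  apply natDegree_det_le
  intro i j
  unfold sylvester
  rw [Matrix.of_apply]
  induction j using Fin.addCases with
  | left j =>
    rw [Fin.addCases_left]
    split_ifs
    · exact hG _
    · rw [natDegree_zero]; omega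
  | right j =>
    rw [Fin.addCases_right]
    split_ifs
    · exact hF _
    · rw [natDegree_zero]; omega

theorem natDegree_derivative_of_monic {F : Type*} [Field F] (p : ℕ) [CharP F p] {N : ℕ}
    (hN : ¬ p ∣ N) (G : F[X]) (hG : G.Monic) (hd : G.natDegree = N) :
    (derivative G).natDegree = N - 1 := by
  have hN0 : N ≠ 0 := fun h => hN (h ▸ dvd_zero p)
  apply le_antisymm
  · rw [← hd]; exact natDegree_derivative_le G
  · apply le_natDegree_of_ne_zero
    rw [coeff_derivative]
    have h1 : N - 1 + 1 = N := by omega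
    have h2 : ((N - 1 : ℕ) : F) + 1 = (N : F) := by
      rw [← Nat.cast_succ]; congr 1
    rw [h1, h2, ← hd, hG.coeff_natDegree, one_mul, hd, Ne, CharP.cast_eq_zero_iff F p]
    exact hN

/-- the resultant of the pencil and its derivative is not zero -/
theorem resultant_ne_zero' {k L : Type*} [Field k] [Field L] (p : ℕ) [CharP L p] {N : ℕ}
    (hN : ¬ p ∣ N) (G : k[X][X]) (hG : G.Monic) (hd : G.natDegree = N) (ψ : k[X] →+* L)
    (hirr : Irreducible (G.map ψ)) : resultant G (derivative G) N (N - 1) ≠ 0 := by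
  have hm : (G.map ψ).Monic := hG.map ψ
  have hd' : (G.map ψ).natDegree = N := by rw [hG.natDegree_map, hd]
  have hdd : (derivative (G.map ψ)).natDegree = N - 1 :=
    natDegree_derivative_of_monic p hN _ hm hd'
  have hne : derivative (G.map ψ) ≠ 0 := by
    intro h
    have hN0 : N ≠ 0 := fun h => hN (h ▸ dvd_zero p)
    have h1 : (derivative (G.map ψ)).coeff (N - 1) = 0 := by rw [h, coeff_zero]
    rw [coeff_derivative] at h1
    have h3 : N - 1 + 1 = N := by omega
    have h2 : ((N - 1 : ℕ) : L) + 1 = (N : L) := by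
      rw [← Nat.cast_succ]; congr 1
    rw [h3, h2] at h1
    have h4 : (G.map ψ).coeff N = 1 := by rw [← hd']; exact hm.coeff_natDegree
    rw [h4, one_mul, CharP.cast_eq_zero_iff L p] at h1
    exact hN h1
  have hsep : IsCoprime (G.map ψ) (derivative (G.map ψ)) :=
    (separable_iff_derivative_ne_zero hirr).2 hne
  have h1 := resultant_ne_zero _ _ hsep
  rw [hd', hdd, derivative_map, resultant_map_map] at h1
  intro h
  rw [h, map_zero] at h1
  exact h1 rfl

end M2f

open M2f

/-- M2f. Existence of the base point `P` of the pencils, from the irreducibility of the pencil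
(M2b0). -/
theorem M2f_exists_P_of
    (hM2b0 : ∀ (k : Type) [Field k] [IsAlgClosed k] (χ : k[X][X]) (n z : ℕ), 1 ≤ n →
      IsCnz χ n z → n.Coprime z → ∀ P T D : k[X], T ≠ 0 → D ≠ 0 → ∀ F : k[X][X], F.Monic →
      0 < F.natDegree →
      C (C ((χ.coeff 0).leadingCoeff)) * D.map C * F = pencil χ P T →
      (∀ s : k, F.eval (C s) ≠ 0) → Irreducible (overFrac F))
    (p n z : ℕ) [Fact p.Prime] (hn : 2 ≤ n)
    (hcop : n.Coprime z) (h8 : 8 * n ≤ z) (hpz : ¬ p ∣ z - 4) :
    ∃ Q₀ : ℕ, ∀ (K : Type) [Field K] [Fintype K] [CharP K p], Q₀ ≤ Fintype.card K →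
      ∀ χ : K[X][X], IsCnz χ n z → ∀ s1 s2 sy y1 y2 yy : K, s1 ≠ s2 → s1 ≠ sy → s2 ≠ sy →
      Good χ s1 y1 → Good χ s2 y2 → Good χ sy yy →
      ∃ P g : K[X], P.natDegree ≤ 4 ∧ P.eval s1 = y1 ∧ P.eval s2 = y2 ∧ P.eval sy = yy ∧
        χ.eval P = (X - C s1) * (X - C s2) * (X - C sy) ^ 2 * g ∧ g.Separable ∧
        g.eval sy ≠ 0 := by
  refine ⟨(z - 4 + (z - 4 - 1)) * n + n + 1, ?_⟩
  intro K _ _ _ hcard χ hχ s1 s2 sy y1 y2 yy h12 h1y h2y hg1 hg2 hgy
  obtain ⟨P1, hP1, e1, e2, ey, hdvd⟩ :=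
    exists_P1 χ s1 s2 sy y1 y2 yy h12 h1y h2y hg1 hg2 hgy
  set D : K[X] := (X - C s1) * (X - C s2) * (X - C sy) ^ 2 with hD
  have hDm : D.Monic := ((monic_X_sub_C s1).mul (monic_X_sub_C s2)).mul ((monic_X_sub_C sy).pow 2)
  have hDd : D.natDegree = 4 := by
    rw [hD, ((monic_X_sub_C s1).mul (monic_X_sub_C s2)).natDegree_mul ((monic_X_sub_C sy).pow 2),
      (monic_X_sub_C s1).natDegree_mul (monic_X_sub_C s2), (monic_X_sub_C sy).natDegree_pow,
      natDegree_X_sub_C, natDegree_X_sub_C, natDegree_X_sub_C]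
  have hD0 : D ≠ 0 := hDm.ne_zero
  clear_value D
  obtain ⟨G, hGm, hGd, hGc, hid⟩ := exists_G χ n z (by omega) hχ h8 P1 D D hP1 hDd.le hDm
    dvd_rfl hdvd
  rw [hDd] at hGd
  set l := (χ.coeff 0).leadingCoeff with hl
  have hl0 : l ≠ 0 := hχ.lead_ne (by omega)
  -- over the algebraic closure
  set k := AlgebraicClosure K with hk
  set φ : K →+* k := algebraMap K k with hφ
  have hφi : Function.Injective φ := φ.injective
  have : CharP k p := charP_of_injective_algebraMap hφi p
  have : CharP k[X] p := inferInstance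
  have : CharP (FractionRing k[X]) p :=
    charP_of_injective_algebraMap (IsFractionRing.injective k[X] (FractionRing k[X])) p
  have hGk : (G.map (mapRingHom φ)).Monic := hGm.map _
  have hGkd : (G.map (mapRingHom φ)).natDegree = z - 4 := by rw [hGm.natDegree_map, hGd]
  have hlk : ((χ.map (mapRingHom φ)).coeff 0).leadingCoeff = φ l := by
    rw [coeff_map, coe_mapRingHom, leadingCoeff_map]
  have hidk : C (C (((χ.map (mapRingHom φ)).coeff 0).leadingCoeff)) * (D.map φ).map C *
      G.map (mapRingHom φ) = pencil (χ.map (mapRingHom φ)) (P1.map φ) (D.map φ) := by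
    rw [hlk, ← pencil_map, ← hid, Polynomial.map_mul, Polynomial.map_mul, map_C,
      coe_mapRingHom, map_C]
    have h1 : (mapRingHom φ).comp (C : K →+* K[X]) = (C : k →+* k[X]).comp φ := by
      ext a; simp
    rw [map_map, map_map, h1]
  have hev : ∀ s y : K, Good χ s y → P1.eval s = y →
      ((derivative (χ.map (mapRingHom φ))).eval (P1.map φ)).eval (φ s) ≠ 0 := by
    intro s y hg he
    have h1 : (derivative (χ.map (mapRingHom φ))).eval (P1.map φ) =
        ((derivative χ).eval P1).map φ := by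
      rw [derivative_map]
      have := eval_map_apply (f := mapRingHom φ) (p := derivative χ) (x := P1)
      rw [coe_mapRingHom] at this
      exact this
    rw [h1, eval_map_apply, eval_eval, he]
    intro h
    exact hg.2 (hφi (h.trans (map_zero φ).symm))
  have hprim : ∀ s : k, (G.map (mapRingHom φ)).eval (C s) ≠ 0 := by
    intro s
    by_cases hs : (D.map φ).eval s = 0
    · have hs' : s = φ s1 ∨ s = φ s2 ∨ s = φ sy := by
        rw [hD] at hs
        simp only [Polynomial.map_mul, Polynomial.map_sub, Polynomial.map_pow, map_X, map_C,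
          eval_mul, eval_sub, eval_X, eval_C, eval_pow] at hs
        rcases mul_eq_zero.1 hs with h | h
        · rcases mul_eq_zero.1 h with h | h
          · exact Or.inl (sub_eq_zero.1 h)
          · exact Or.inr (Or.inl (sub_eq_zero.1 h))
        · exact Or.inr (Or.inr (sub_eq_zero.1 (pow_eq_zero_iff (two_ne_zero) |>.1 h)))
      have h1 := eval_coeff_one (T' := 1) (hDm.map φ).ne_zero (mul_one _).symm hidk s
      rw [eval_one, mul_one] at h1
      intro h0
      rw [h0, coeff_zero, mul_zero] at h1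
      rcases hs' with rfl | rfl | rfl
      · exact hev s1 y1 hg1 e1 h1.symm
      · exact hev s2 y2 hg2 e2 h1.symm
      · exact hev sy yy hgy ey h1.symm
    · exact eval_ne_zero_of_T (n := n) (by omega) (hχ.map φ).monic (hχ.map φ).natDegree hidk hs
  have hirr : Irreducible (overFrac (G.map (mapRingHom φ))) :=
    hM2b0 k (χ.map (mapRingHom φ)) n z (by omega) (hχ.map φ) hcop (P1.map φ) (D.map φ)
      (D.map φ) (hDm.map φ).ne_zero (hDm.map φ).ne_zero _ hGk (by rw [hGkd]; omega) hidk hprim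
  rw [overFrac, map_map] at hirr
  have hR0 : resultant G (derivative G) (z - 4) (z - 4 - 1) ≠ 0 :=
    resultant_ne_zero' p hpz G hGm hGd _ hirr
  set R := resultant G (derivative G) (z - 4) (z - 4 - 1) with hR
  have hRd : R.natDegree ≤ (z - 4 + (z - 4 - 1)) * n := by
    apply natDegree_resultant_le _ _ _ _ _ hGc
    intro i
    rw [coeff_derivative]
    have h1 : (G.coeff (i + 1) * ((i : K[X]) + 1)).natDegree ≤ n := by
      have h2 : ((i : K[X]) + 1) = C ((i : K) + 1) := by simp
      rw [h2]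
      exact (natDegree_mul_C_le _ _).trans (hGc _)
    exact h1
  -- the value at `sy`
  have hV0 : G.eval (C sy) ≠ 0 := by
    intro h0
    have h1 := eval_coeff_one (T' := 1) hD0 (mul_one _).symm hid sy
    rw [h0, coeff_zero, mul_zero, eval_one, mul_one, eval_eval, ey] at h1
    exact hgy.2 h1.symm
  have hVd : (G.eval (C sy)).natDegree ≤ n := by
    rw [eval_eq_sum_range]
    apply natDegree_sum_le_of_forall_le
    intro i _
    rw [← C_pow]
    exact (natDegree_mul_C_le _ _).trans (hGc i)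
  have hW0 : R * G.eval (C sy) ≠ 0 := mul_ne_zero hR0 hV0
  have hWd : (R * G.eval (C sy)).natDegree < Fintype.card K := by
    have := natDegree_mul_le (p := R) (q := G.eval (C sy))
    omega
  obtain ⟨r, hr⟩ := exists_eval_ne_zero_of_natDegree_lt_card (R * G.eval (C sy)) hW0 (by
    rw [Cardinal.mk_fintype]; exact_mod_cast hWd)
  rw [eval_mul] at hr
  have hr1 : R.eval r ≠ 0 := left_ne_zero_of_mul hr
  have hr2 : (G.eval (C sy)).eval r ≠ 0 := right_ne_zero_of_mul hr
  set Gr : K[X] := G.map (evalRingHom r) with hGr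
  have hGrm : Gr.Monic := hGm.map _
  have hGrd : Gr.natDegree = z - 4 := by rw [hGr, hGm.natDegree_map, hGd]
  have hGrdd : (derivative Gr).natDegree = z - 4 - 1 :=
    natDegree_derivative_of_monic p hpz _ hGrm hGrd
  have hsep : Gr.Separable := by
    have h1 : IsUnit (resultant Gr (derivative Gr)) := by
      rw [hGrd, hGrdd, hGr, derivative_map, resultant_map_map, ← hR, coe_evalRingHom]
      exact isUnit_iff_ne_zero.2 hr1
    exact (isUnit_resultant_iff_isCoprime hGrm).1 h1
  have hDs1 : D.eval s1 = 0 := by rw [hD]; simp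
  have hDs2 : D.eval s2 = 0 := by rw [hD]; simp
  have hDsy : D.eval sy = 0 := by rw [hD]; simp
  refine ⟨P1 + C r * D, C l * Gr, ?_, ?_, ?_, ?_, ?_, ?_, ?_⟩
  · refine (natDegree_add_le _ _).trans (max_le hP1 ?_)
    exact (natDegree_C_mul_le _ _).trans hDd.le
  · rw [eval_add, eval_mul, hDs1, mul_zero, add_zero, e1]
  · rw [eval_add, eval_mul, hDs2, mul_zero, add_zero, e2]
  · rw [eval_add, eval_mul, hDsy, mul_zero, add_zero, ey]
  · have h0 : (evalRingHom r).comp (C : K →+* K[X]) = RingHom.id K := by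
      ext a; simp
    rw [← pencil_eval, ← hid, Polynomial.map_mul, Polynomial.map_mul, map_C, map_map, h0,
      Polynomial.map_id, coe_evalRingHom, eval_C]
    ring
  · exact hsep.unit_mul (isUnit_C.2 (isUnit_iff_ne_zero.2 hl0))
  · rw [eval_mul, eval_C]
    apply mul_ne_zero hl0
    have h1 : Gr.eval sy = (G.eval (C sy)).eval r := by
      rw [hGr]
      have h2 := eval_map_apply (f := evalRingHom r) (p := G) (x := C sy)
      rw [coe_evalRingHom, eval_C] at h2
      exact h2
    rw [h1]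
    exact hr2

/-- M2f. Existence of the base point `P` of the pencils. -/
theorem M2f_exists_P (p n z : ℕ) [Fact p.Prime] (hp2 : p ≠ 2) (hn : 2 ≤ n)
    (hcop : n.Coprime z) (h8 : 8 * n ≤ z) (hpz : ¬ p ∣ z - 4) :
    ∃ Q₀ : ℕ, ∀ (K : Type) [Field K] [Fintype K] [CharP K p], Q₀ ≤ Fintype.card K →
      ∀ χ : K[X][X], IsCnz χ n z → ∀ s1 s2 sy y1 y2 yy : K, s1 ≠ s2 → s1 ≠ sy → s2 ≠ sy →
      Good χ s1 y1 → Good χ s2 y2 → Good χ sy yy →
      ∃ P g : K[X], P.natDegree ≤ 4 ∧ P.eval s1 = y1 ∧ P.eval s2 = y2 ∧ P.eval sy = yy ∧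
        χ.eval P = (X - C s1) * (X - C s2) * (X - C sy) ^ 2 * g ∧ g.Separable ∧
        g.eval sy ≠ 0 :=
  M2f_exists_P_of (fun _ _ _ χ n z hn hχ hcop P T D hT hD F hFm hFd hF hprim =>
    M2b0_irreducible χ n z hn hχ hcop P T D hT hD F hFm hFd hF hprim) p n z hn hcop h8 hpz

end Pool.Agent.K1
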