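import Pool.Agent.K1.Defs
import Pool.Agent.K1.HenselG

/-!
A transposition in the Galois group of the pencil, from a double root at `lam = 0`.
-/

set_option autoImplicit false

open Polynomial
namespace Pool.Agent.K1

/-- An automorphism of a bigger field that exchanges two roots of `f` and fixes the others
induces a transposition in the Galois group of `f`. -/
theorem swap_of_local {Kf L : Type*} [Field Kf] [Field L] (i : Kf →+* L) (f : Kf[X])
    (hf0 : f ≠ 0) (σ : L ≃+* L) (hσ : ∀ x, σ (i x) = i x) (hs : (f.map i).Splits) (r1 r2 : L)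
    (h12 : r1 ≠ r2) (hr1 : (f.map i).eval r1 = 0) (hr2 : (f.map i).eval r2 = 0)
    (hσ1 : σ r1 = r2) (hσ2 : σ r2 = r1)
    (hfix : ∀ c, (f.map i).eval c = 0 → c ≠ r1 → c ≠ r2 → σ c = c) :
    ∃ (gal : f.SplittingField ≃ₐ[Kf] f.SplittingField) (a b : f.SplittingField), a ≠ b ∧
      a ∈ f.rootSet f.SplittingField ∧ b ∈ f.rootSet f.SplittingField ∧ gal a = b ∧ gal b = a ∧
      ∀ c ∈ f.rootSet f.SplittingField, c ≠ a → c ≠ b → gal c = c := by
  let _ : Algebra Kf L := i.toAlgebra
  have hs' : (f.map (algebraMap Kf L)).Splits := hs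
  let ι : f.SplittingField →ₐ[Kf] L := SplittingField.lift f hs'
  let _ : Algebra f.SplittingField L := ι.toRingHom.toAlgebra
  have : IsScalarTower Kf f.SplittingField L :=
    IsScalarTower.of_algebraMap_eq fun x => (ι.commutes x).symm
  let τ : L ≃ₐ[Kf] L := AlgEquiv.ofRingEquiv (f := σ) hσ
  let gal := τ.restrictNormal f.SplittingField
  have hgal : ∀ x, ι (gal x) = σ (ι x) :=
    fun x => AlgEquiv.restrictNormal_commutes τ f.SplittingField x
  have hιinj : Function.Injective ι := ι.injective
  have himg : ι '' f.rootSet f.SplittingField = f.rootSet L :=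
    (SplittingField.splits f).image_rootSet ι
  have hmem : ∀ c : L, (f.map i).eval c = 0 → c ∈ f.rootSet L := by
    intro c hc
    rw [mem_rootSet]
    refine ⟨hf0, ?_⟩
    rw [aeval_def, ← eval_map]
    exact hc
  have hroot : ∀ c ∈ f.rootSet f.SplittingField, (f.map i).eval (ι c) = 0 := by
    intro c hc
    have h1 : ι c ∈ f.rootSet L := by
      rw [← himg]
      exact ⟨c, hc, rfl⟩
    rw [mem_rootSet] at h1
    have h2 := h1.2
    rw [aeval_def, ← eval_map] at h2
    exact h2
  have ha := hmem r1 hr1
  have hb := hmem r2 hr2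
  rw [← himg] at ha hb
  obtain ⟨a, ha, hιa⟩ := ha
  obtain ⟨b, hb, hιb⟩ := hb
  refine ⟨gal, a, b, ?_, ha, hb, ?_, ?_, ?_⟩
  · rintro rfl
    exact h12 (hιa.symm.trans hιb)
  · apply hιinj
    rw [hgal, hιa, hσ1, hιb]
  · apply hιinj
    rw [hgal, hιb, hσ2, hιa]
  · intro c hc hca hcb
    apply hιinj
    rw [hgal]
    refine hfix _ (hroot c hc) ?_ ?_
    · intro h
      apply hca
      apply hιinj
      rw [h, hιa]
    · intro h
      apply hcb
      apply hιinj
      rw [h, hιb]

/-- uniqueness in Hensel's lemma for power series -/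
theorem powerSeries_root_unique {k : Type*} [Field k] (G : (PowerSeries k)[X])
    (t t' : PowerSeries k) (h : G.eval t = 0) (h' : G.eval t' = 0)
    (hc : PowerSeries.constantCoeff t = PowerSeries.constantCoeff t')
    (hd : (G.map PowerSeries.constantCoeff).derivative.eval (PowerSeries.constantCoeff t') ≠ 0) :
    t = t' := by
  obtain ⟨κ, hκ⟩ := G.binomExpansion t' (t - t')
  rw [add_sub_cancel, h, h', zero_add] at hκ
  have h1 : (t - t') * (G.derivative.eval t' + κ * (t - t')) = 0 := by linear_combination -hκ
  rcases mul_eq_zero.1 h1 with h2 | h2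
  · exact sub_eq_zero.1 h2
  · exfalso
    apply hd
    have h3 := congrArg PowerSeries.constantCoeff h2
    rw [map_add, map_mul, map_sub, hc, sub_self, mul_zero, add_zero, map_zero] at h3
    rw [derivative_map, eval_map, eval₂_at_apply]
    exact h3

/-- the embedding `lam ↦ X ^ 2` -/
noncomputable def phi2 (k : Type*) [Field k] : k[X] →+* PowerSeries k :=
  (Polynomial.coeToPowerSeries.ringHom).comp (Polynomial.expand k 2 : k[X] →ₐ[k] k[X]).toRingHom

section phi2

variable {k : Type*} [Field k]

theorem phi2_X : phi2 k X = PowerSeries.X ^ 2 := by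
  change ((Polynomial.expand k 2 X : k[X]) : PowerSeries k) = _
  rw [expand_X, Polynomial.coe_pow, Polynomial.coe_X]

theorem phi2_C (c : k) : phi2 k (C c) = PowerSeries.C c := by
  change ((Polynomial.expand k 2 (C c) : k[X]) : PowerSeries k) = _
  rw [expand_C, Polynomial.coe_C]

theorem phi2_injective : Function.Injective (phi2 k) := by
  intro p q h
  have h' : ((Polynomial.expand k 2 p : k[X]) : PowerSeries k) =
      ((Polynomial.expand k 2 q : k[X]) : PowerSeries k) := h
  exact expand_injective two_pos (Polynomial.coe_injective k h')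

theorem rescale_C' (a c : k) : PowerSeries.rescale a (PowerSeries.C c) = PowerSeries.C c := by
  ext n
  rw [PowerSeries.coeff_rescale, PowerSeries.coeff_C]
  by_cases hn : n = 0
  · simp [hn]
  · simp [hn]

theorem rescale_phi2 :
    (PowerSeries.rescale (-1 : k)).comp (phi2 k) = phi2 k := by
  refine Polynomial.ringHom_ext (fun c => ?_) ?_
  · rw [RingHom.comp_apply, phi2_C, rescale_C']
  · rw [RingHom.comp_apply, phi2_X, map_pow, PowerSeries.rescale_X]
    rw [map_neg, map_one]
    ring

theorem cc_phi2 : (PowerSeries.constantCoeff).comp (phi2 k) = evalRingHom (0 : k) := by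
  refine Polynomial.ringHom_ext (fun c => ?_) ?_
  · rw [RingHom.comp_apply, phi2_C, PowerSeries.constantCoeff_C, coe_evalRingHom, eval_C]
  · rw [RingHom.comp_apply, phi2_X, map_pow, PowerSeries.constantCoeff_X, coe_evalRingHom, eval_X]
    ring

end phi2

/-- the automorphism `X ↦ -X` of the power series ring -/
noncomputable def sgA (k : Type*) [Field k] : PowerSeries k ≃+* PowerSeries k :=
  RingEquiv.ofRingHom (PowerSeries.rescale (-1 : k)) (PowerSeries.rescale (-1 : k))
    (by rw [← PowerSeries.rescale_mul, neg_mul_neg, one_mul, PowerSeries.rescale_one])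
    (by rw [← PowerSeries.rescale_mul, neg_mul_neg, one_mul, PowerSeries.rescale_one])

theorem sgA_apply {k : Type*} [Field k] (a : PowerSeries k) :
    sgA k a = PowerSeries.rescale (-1 : k) a := rfl

theorem cc_sgA {k : Type*} [Field k] (a : PowerSeries k) :
    PowerSeries.constantCoeff (sgA k a) = PowerSeries.constantCoeff a := by
  rw [sgA_apply, ← PowerSeries.coeff_zero_eq_constantCoeff_apply, PowerSeries.coeff_rescale,
    pow_zero, one_mul, PowerSeries.coeff_zero_eq_constantCoeff_apply]

/-- decomposition of `F` with respect to `lam` -/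
theorem exists_divLam {k : Type*} [Field k] (F : k[X][X]) :
    ∃ F1 : k[X][X], F = (F.map (evalRingHom 0)).map C + C X * F1 := by
  have h : (C (X : k[X]) : k[X][X]) ∣ F - (F.map (evalRingHom 0)).map C := by
    rw [C_dvd_iff_dvd_coeff]
    intro i
    rw [X_dvd_iff, coeff_sub, coeff_map, coeff_map, coeff_sub, coe_evalRingHom, coeff_C_zero,
      coeff_zero_eq_eval_zero, sub_self]
  obtain ⟨F1, h1⟩ := h
  exact ⟨F1, by rw [← h1]; ring⟩

/-- M2c. A transposition from the double root at `lam = 0`. -/
theorem M2c_swap {k : Type} [Field k] [IsAlgClosed k] (hk2 : (2 : k) ≠ 0) (F : k[X][X])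
    (N : ℕ) (hFm : F.Monic) (hFd : F.natDegree = N) (hirr : Irreducible (overFrac F))
    (sy : k) (g : k[X]) (hg : F.map (evalRingHom 0) = (X - C sy) ^ 2 * g) (hsep : g.Separable)
    (hgy : g.eval sy ≠ 0) (hlam : ((F.eval (C sy)).coeff 1) ≠ 0) :
    ∃ (gal : (overFrac F).SplittingField ≃ₐ[FractionRing k[X]] (overFrac F).SplittingField)
      (a b : (overFrac F).SplittingField), a ≠ b ∧
      a ∈ (overFrac F).rootSet (overFrac F).SplittingField ∧
      b ∈ (overFrac F).rootSet (overFrac F).SplittingField ∧ gal a = b ∧ gal b = a ∧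
      ∀ c ∈ (overFrac F).rootSet (overFrac F).SplittingField, c ≠ a → c ≠ b → gal c = c := by
  classical
  have hC2 : (C (2 : k) : k[X]) = 2 := map_ofNat C 2
  set G : (PowerSeries k)[X] := F.map (phi2 k) with hG
  have hGm : G.Monic := hFm.map _
  have hGd : G.natDegree = N := by rw [hG, hFm.natDegree_map, hFd]
  have hGbar : G.map PowerSeries.constantCoeff = (X - C sy) ^ 2 * g := by
    rw [hG, map_map, cc_phi2, hg]
  have hgm : g.Monic := by
    have h1 : ((X - C sy) ^ 2 * g).Monic := by
      rw [← hg]
      exact hFm.map _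
    exact Monic.of_mul_monic_left ((monic_X_sub_C sy).pow 2) h1
  have hgd : g.natDegree + 2 = N := by
    have h1 : ((X - C sy) ^ 2 * g).natDegree = N := by rw [← hg, hFm.natDegree_map, hFd]
    rw [((monic_X_sub_C sy).pow 2).natDegree_mul hgm, natDegree_pow, natDegree_X_sub_C] at h1
    omega
  have hder : (G.map PowerSeries.constantCoeff).derivative =
      2 * (X - C sy) * g + (X - C sy) ^ 2 * derivative g := by
    rw [hGbar, derivative_mul, derivative_pow, derivative_sub, derivative_X, derivative_C]
    simp only [Nat.cast_ofNat, sub_zero, mul_one, Nat.add_one_sub_one, pow_one]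
    rw [hC2]
  -- the simple roots
  set R : Finset k := g.roots.toFinset with hR
  have hRcard : R.card = g.natDegree := by
    rw [hR, Multiset.toFinset_card_of_nodup (nodup_roots hsep)]
    exact (splits_iff_card_roots.1 (IsAlgClosed.splits g))
  have hRmem : ∀ c ∈ R, g.eval c = 0 := by
    intro c hc
    rw [hR, Multiset.mem_toFinset, mem_roots hgm.ne_zero] at hc
    exact hc
  have hRsy : ∀ c ∈ R, c ≠ sy := by
    rintro c hc rfl
    exact hgy (hRmem c hc)
  have hRder : ∀ c ∈ R, (G.map PowerSeries.constantCoeff).derivative.eval c ≠ 0 := by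
    intro c hc
    rw [hder]
    simp only [eval_add, eval_mul, eval_pow, eval_sub, eval_X, eval_C, hRmem c hc, mul_zero,
      zero_add]
    refine mul_ne_zero (pow_ne_zero 2 (sub_ne_zero.2 (hRsy c hc))) ?_
    exact hsep.eval₂_derivative_ne_zero (RingHom.id k) (hRmem c hc)
  have hHens : ∀ c : k, ∃ t : PowerSeries k, c ∈ R →
      PowerSeries.constantCoeff t = c ∧ G.eval t = 0 := by
    intro c
    by_cases hc : c ∈ R
    · obtain ⟨t, ht1, ht2⟩ := exists_powerSeries_root_gen G c (by
        rw [hGbar, eval_mul, hRmem c hc, mul_zero]) (hRder c hc)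
      exact ⟨t, fun _ => ⟨ht1, ht2⟩⟩
    · exact ⟨0, fun h => absurd h hc⟩
  choose t ht using hHens
  -- the double root
  obtain ⟨F1, hF1⟩ := exists_divLam F
  rw [hg] at hF1
  set q : (PowerSeries k)[X] := C (PowerSeries.C sy) + C PowerSeries.X * X with hq
  set H : (PowerSeries k)[X] := X ^ 2 * (g.map PowerSeries.C).comp q +
    (F1.map (phi2 k)).comp q with hH
  have hqe : ∀ V : PowerSeries k, q.eval V = PowerSeries.C sy + PowerSeries.X * V := by
    intro V
    rw [hq]
    simp
  have hGH : ∀ V : PowerSeries k,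
      G.eval (PowerSeries.C sy + PowerSeries.X * V) = PowerSeries.X ^ 2 * H.eval V := by
    intro V
    have h1 : G = ((X - C sy) ^ 2 * g).map PowerSeries.C +
        C (PowerSeries.X ^ 2) * F1.map (phi2 k) := by
      have h2 : (phi2 k).comp C = (PowerSeries.C : k →+* PowerSeries k) := by
        refine RingHom.ext fun c => ?_
        rw [RingHom.comp_apply, phi2_C]
      rw [hG]
      conv_lhs => rw [hF1]
      rw [Polynomial.map_add, map_map, h2, Polynomial.map_mul (phi2 k) , map_C, phi2_X]
    rw [h1, hH]
    simp only [Polynomial.map_mul, Polynomial.map_pow, Polynomial.map_sub, map_X, map_C, eval_add,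
      eval_mul, eval_pow, eval_sub, eval_X, eval_C, eval_comp, hqe]
    ring
  set e : k := (F1.map (evalRingHom 0)).eval sy with he
  have he0 : e ≠ 0 := by
    have h1 : F.eval (C sy) = X * F1.eval (C sy) := by
      conv_lhs => rw [hF1]
      simp
    rw [h1, coeff_X_mul, coeff_zero_eq_eval_zero] at hlam
    rw [he, eval_map]
    have h2 : eval₂ (evalRingHom 0) sy F1 = evalRingHom 0 (F1.eval (C sy)) := by
      rw [← eval₂_at_apply]
      simp
    rw [h2]
    exact hlam
  have hHbar : H.map PowerSeries.constantCoeff = C (g.eval sy) * X ^ 2 + C e := by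
    have h1 : q.map PowerSeries.constantCoeff = C sy := by
      rw [hq]
      simp
    rw [hH, Polynomial.map_add, Polynomial.map_mul, Polynomial.map_pow, map_X, map_comp, map_comp,
      map_map, map_map, cc_phi2, h1, comp_C, comp_C]
    have h2 : (PowerSeries.constantCoeff).comp (PowerSeries.C : k →+* PowerSeries k) =
        RingHom.id k := by
      ext c
      simp
    rw [h2, Polynomial.map_id]
    ring
  have hHder : (H.map PowerSeries.constantCoeff).derivative = C (2 * g.eval sy) * X := by
    rw [hHbar]
    simp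
    rw [hC2]
    ring
  obtain ⟨w, hw⟩ := IsAlgClosed.exists_pow_nat_eq (-e / g.eval sy) two_pos
  have hw0 : w ≠ 0 := by
    rintro rfl
    rw [zero_pow two_ne_zero] at hw
    have h1 := (div_eq_zero_iff.1 hw.symm).resolve_right hgy
    exact he0 (neg_eq_zero.1 h1)
  have hww : g.eval sy * w ^ 2 + e = 0 := by
    rw [hw]
    field_simp
    ring
  obtain ⟨W1, hW1c, hW1⟩ := exists_powerSeries_root_gen H w (by
    rw [hHbar]
    simpa using hww) (by
    rw [hHder]
    simpa using ⟨⟨hk2, hgy⟩, hw0⟩)
  obtain ⟨W2, hW2c, hW2⟩ := exists_powerSeries_root_gen H (-w) (by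
    rw [hHbar]
    simpa using hww) (by
    rw [hHder]
    simpa using ⟨⟨hk2, hgy⟩, hw0⟩)
  set r1 : PowerSeries k := PowerSeries.C sy + PowerSeries.X * W1 with hr1
  set r2 : PowerSeries k := PowerSeries.C sy + PowerSeries.X * W2 with hr2
  have hr1c : PowerSeries.constantCoeff r1 = sy := by rw [hr1]; simp
  have hr2c : PowerSeries.constantCoeff r2 = sy := by rw [hr2]; simp
  have hGr1 : G.eval r1 = 0 := by rw [hr1, hGH, hW1, mul_zero]
  have hGr2 : G.eval r2 = 0 := by rw [hr2, hGH, hW2, mul_zero]
  have hw2 : w ≠ -w := by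
    intro h
    have h1 : 2 * w = 0 := by linear_combination h
    exact (mul_ne_zero hk2 hw0) h1
  have hr12 : r1 ≠ r2 := by
    intro h
    have h1 : W1 = W2 := by
      rw [hr1, hr2, add_right_inj] at h
      exact mul_left_cancel₀ PowerSeries.X_ne_zero h
    rw [h1, hW2c] at hW1c
    exact hw2 hW1c.symm
  -- the automorphism
  have hσG : ∀ a : PowerSeries k, G.eval (sgA k a) = sgA k (G.eval a) := by
    intro a
    have h1 : G.map (sgA k : PowerSeries k →+* PowerSeries k) = G := by
      rw [hG, map_map]
      congr 1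
      exact rescale_phi2
    conv_lhs => rw [← h1]
    rw [eval_map]
    exact eval₂_at_apply (sgA k : PowerSeries k →+* PowerSeries k) a
  have hσX : sgA k (PowerSeries.X : PowerSeries k) = -PowerSeries.X := by
    rw [sgA_apply, PowerSeries.rescale_X, map_neg, map_one]
    ring
  have hσC : ∀ c : k, sgA k (PowerSeries.C c) = PowerSeries.C c := by
    intro c
    rw [sgA_apply, rescale_C']
  have hswap : ∀ (V V' : PowerSeries k) (v : k), PowerSeries.constantCoeff V = v →
      PowerSeries.constantCoeff V' = -v → v ≠ 0 → H.eval V = 0 → H.eval V' = 0 →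
      sgA k (PowerSeries.C sy + PowerSeries.X * V) = PowerSeries.C sy + PowerSeries.X * V' := by
    intro V V' v hV hV' hv hHV hHV'
    have h1 : sgA k (PowerSeries.C sy + PowerSeries.X * V) =
        PowerSeries.C sy + PowerSeries.X * (-(sgA k V)) := by
      rw [map_add, map_mul, hσC, hσX]
      ring
    have h2 : H.eval (-(sgA k V)) = 0 := by
      have h3 := hGH (-(sgA k V))
      rw [← h1, hσG, hGH, hHV, mul_zero, map_zero] at h3
      exact (mul_eq_zero.1 h3.symm).resolve_left (pow_ne_zero 2 PowerSeries.X_ne_zero)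
    rw [h1, powerSeries_root_unique H (-(sgA k V)) V' h2 hHV' (by
      rw [map_neg, cc_sgA, hV, hV']) (by
      rw [hHder, hV']
      simpa using ⟨⟨hk2, hgy⟩, hv⟩)]
  have hσr1 : sgA k r1 = r2 := hswap W1 W2 w hW1c hW2c hw0 hW1 hW2
  have hσr2 : sgA k r2 = r1 :=
    hswap W2 W1 (-w) hW2c (by rw [hW1c, neg_neg]) (neg_ne_zero.2 hw0) hW2 hW1
  have hσt : ∀ c ∈ R, sgA k (t c) = t c := by
    intro c hc
    obtain ⟨h1, h2⟩ := ht c hc
    refine powerSeries_root_unique G _ _ ?_ h2 (cc_sgA _) ?_
    · rw [hσG, h2, map_zero]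
    · rw [h1]
      exact hRder c hc
  -- all the roots
  set S : Finset (PowerSeries k) := insert r1 (insert r2 (R.image t)) with hS
  have htc : ∀ c ∈ R, PowerSeries.constantCoeff (t c) = c := fun c hc => (ht c hc).1
  have hScard : S.card = N := by
    have h1 : (R.image t).card = R.card := by
      refine Finset.card_image_of_injOn ?_
      intro c hc c' hc' h
      rw [← htc c hc, ← htc c' hc', h]
    have h2 : r2 ∉ R.image t := by
      intro h
      obtain ⟨c, hc, hc'⟩ := Finset.mem_image.1 h
      apply hRsy c hc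
      rw [← htc c hc, hc', hr2c]
    have h3 : r1 ∉ insert r2 (R.image t) := by
      intro h
      rcases Finset.mem_insert.1 h with h | h
      · exact hr12 h
      · obtain ⟨c, hc, hc'⟩ := Finset.mem_image.1 h
        apply hRsy c hc
        rw [← htc c hc, hc', hr1c]
    rw [hS, Finset.card_insert_of_notMem h3, Finset.card_insert_of_notMem h2, h1, hRcard]
    omega
  have hSroot : ∀ a ∈ S, G.eval a = 0 := by
    intro a ha
    rw [hS, Finset.mem_insert, Finset.mem_insert, Finset.mem_image] at ha
    rcases ha with rfl | rfl | ⟨c, hc, rfl⟩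
    · exact hGr1
    · exact hGr2
    · exact (ht c hc).2
  have hroots : S.val = G.roots := by
    refine Multiset.eq_of_le_of_card_le ?_ ?_
    · rw [Multiset.le_iff_subset S.nodup]
      intro a ha
      rw [mem_roots hGm.ne_zero]
      exact hSroot a ha
    · refine (card_roots' G).trans ?_
      rw [hGd, ← hScard]
      exact le_rfl
  have hGprod : G = (S.val.map fun a => X - C a).prod := by
    rw [hroots]
    refine (prod_multiset_X_sub_C_of_monic_of_roots_card_eq hGm ?_).symm
    rw [← hroots, hGd, ← hScard]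
    rfl
  -- the fraction fields
  set L := FractionRing (PowerSeries k) with hL
  set j : PowerSeries k →+* L := algebraMap (PowerSeries k) L with hj
  have hjinj : Function.Injective j := IsFractionRing.injective _ _
  have hinj : Function.Injective (j.comp (phi2 k)) := hjinj.comp phi2_injective
  set i : FractionRing k[X] →+* L := IsFractionRing.lift (K := FractionRing k[X]) hinj with hi
  have hia : ∀ p : k[X], i (algebraMap k[X] (FractionRing k[X]) p) = j (phi2 k p) := fun p =>
    IsFractionRing.lift_algebraMap hinj p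
  set σ : L ≃+* L := IsFractionRing.ringEquivOfRingEquiv (sgA k) with hσdef
  have hσa : ∀ a : PowerSeries k, σ (j a) = j (sgA k a) := fun a =>
    IsFractionRing.ringEquivOfRingEquiv_algebraMap (sgA k) a
  have hmapi : (overFrac F).map i = G.map j := by
    rw [hG, map_map, map_map]
    congr 1
    exact RingHom.ext hia
  have hprodL : G.map j = (S.val.map fun a => X - C (j a)).prod := by
    conv_lhs => rw [hGprod]
    rw [Polynomial.map_multiset_prod, Multiset.map_map]
    congr 1
    refine Multiset.map_congr rfl fun a _ => ?_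
    simp
  refine swap_of_local i (overFrac F) hirr.ne_zero σ ?_ ?_ (j r1) (j r2)
    (fun h => hr12 (hjinj h)) ?_ ?_ ?_ ?_ ?_
  · intro x
    have h1 : (σ : L →+* L).comp i = i := by
      refine IsLocalization.ringHom_ext (nonZeroDivisors k[X]) ?_
      refine RingHom.ext fun p => ?_
      rw [RingHom.comp_apply, RingHom.comp_apply, RingHom.comp_apply, hia]
      change σ (j (phi2 k p)) = _
      rw [hσa]
      congr 1
      exact congrArg (fun f : k[X] →+* PowerSeries k => f p) rescale_phi2
    exact congrArg (fun f : FractionRing k[X] →+* L => f x) h1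
  · rw [hmapi, hprodL]
    refine Splits.multisetProd ?_
    intro f hf
    obtain ⟨a, _, rfl⟩ := Multiset.mem_map.1 hf
    exact Splits.X_sub_C _
  · rw [hmapi, eval_map, eval₂_at_apply, hGr1, map_zero]
  · rw [hmapi, eval_map, eval₂_at_apply, hGr2, map_zero]
  · rw [hσa, hσr1]
  · rw [hσa, hσr2]
  · intro c hc hc1 hc2
    rw [hmapi, hprodL, eval_multiset_prod, Multiset.prod_eq_zero_iff, Multiset.map_map] at hc
    obtain ⟨a, ha, ha'⟩ := Multiset.mem_map.1 hc
    simp only [Function.comp_apply, eval_sub, eval_X, eval_C] at ha'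
    have hca : c = j a := sub_eq_zero.1 ha'
    have ha2 : a ∈ S := ha
    rw [hS, Finset.mem_insert, Finset.mem_insert, Finset.mem_image] at ha2
    rcases ha2 with rfl | rfl | ⟨d, hd, rfl⟩
    · exact absurd hca hc1
    · exact absurd hca hc2
    · rw [hca, hσa, hσt d hd]

end Pool.Agent.K1
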