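import Pool.Agent.K1.M2d

/-!
M2d, second version: the length `z - 4 n` of the cycle need not be prime, and there is one more
root fixed by the automorphism (from `lam = infinity` and a simple zero `t` of `T0`).
-/

set_option autoImplicit false

open Polynomial

namespace Pool.Agent.K1

namespace M2d2Aux

open M2dAux

/-- As `exists_cycle`, with one more root which is fixed by `σ`. -/
theorem exists_cycle_fixed {K : Type} [Field K] (f : K[X]) (hf : f ≠ 0) {L : Type} [Field L]
    (i : K →+* L) (σ : L ≃+* L) (hσ : ∀ a, σ (i a) = i a) (r : L) (hr : f.eval₂ i r = 0)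
    (l : ℕ) [NeZero l] (hper : σ^[l] r = r)
    (hinj : ∀ a < l, ∀ b < l, σ^[a] r = σ^[b] r → a = b)
    (r' : L) (hr' : f.eval₂ i r' = 0) (hσr' : σ r' = r') :
    ∃ (gal : f.SplittingField ≃ₐ[K] f.SplittingField) (ρ : ZMod l → f.SplittingField)
      (c : f.SplittingField),
      Function.Injective ρ ∧ (∀ i, ρ i ∈ f.rootSet f.SplittingField) ∧
      (∀ i, gal (ρ i) = ρ (i + 1)) ∧ c ∈ f.rootSet f.SplittingField ∧ gal c = c := by
  obtain ⟨Ω, _, j, e, gal, τ, h1, h2, h3, h4⟩ := exists_gal f hf i σ hσ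
  obtain ⟨ρ0, hρ0, hj0⟩ := h4 r hr
  obtain ⟨c, hc, hjc⟩ := h4 r' hr'
  have hτ : ∀ a : ℕ, j (gal^[a] ρ0) = e (σ^[a] r) := by
    intro a
    induction a with
    | zero => exact hj0
    | succ a ih => rw [Function.iterate_succ_apply', Function.iterate_succ_apply', h3, ih, h2]
  have hper' : gal^[l] ρ0 = ρ0 := by
    apply j.injective
    rw [hτ, hper, hj0]
  have hmod : ∀ m : ℕ, gal^[m % l] ρ0 = gal^[m] ρ0 := fun m =>
    Function.IsPeriodicPt.iterate_mod_apply hper' m
  refine ⟨gal, fun i => gal^[i.val] ρ0, c, ?_, ?_, ?_, hc, ?_⟩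
  · intro a b hab
    have h5 := congrArg j hab
    simp only at h5
    rw [hτ, hτ] at h5
    exact ZMod.val_injective l (hinj _ (ZMod.val_lt a) _ (ZMod.val_lt b) (e.injective h5))
  · intro i
    simp only
    generalize i.val = m
    induction m with
    | zero => exact hρ0
    | succ m ih =>
        rw [Function.iterate_succ_apply', mem_rootSet_of_ne hf] at *
        have h6 : (aeval (gal (gal^[m] ρ0))) f = gal (aeval (gal^[m] ρ0) f) :=
          aeval_algHom_apply gal.toAlgHom (gal^[m] ρ0) f
        rw [h6, ih, map_zero]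
  · intro i
    simp only
    rw [← Function.iterate_succ_apply' gal i.val ρ0, ← hmod (i.val + 1)]
    congr 2
    rw [ZMod.val_add, ZMod.val_one_eq_one_mod]
    simp
  · apply j.injective
    rw [h3, hjc, h2, hσr']

/-- Uniqueness in Hensel's lemma. -/
theorem hensel_unique {k : Type*} [Field k] (G : (PowerSeries k)[X]) (a b : PowerSeries k)
    (hab : PowerSeries.constantCoeff a = PowerSeries.constantCoeff b)
    (ha : G.eval a = 0) (hb : G.eval b = 0)
    (h1 : (G.map PowerSeries.constantCoeff).derivative.eval (PowerSeries.constantCoeff a) ≠ 0) :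
    a = b := by
  obtain ⟨κ, hκ⟩ := G.binomExpansion a (b - a)
  rw [add_sub_cancel, ha, hb, zero_add] at hκ
  have h2 : (b - a) * (G.derivative.eval a + κ * (b - a)) = 0 := by
    linear_combination -hκ
  rcases mul_eq_zero.1 h2 with h3 | h3
  · exact (sub_eq_zero.1 h3).symm
  · exfalso
    apply h1
    have h4 := congrArg PowerSeries.constantCoeff h3
    rw [map_add, map_mul, map_sub, hab, sub_self, mul_zero, add_zero, map_zero,
      constantCoeff_eval, ← derivative_map] at h4
    exact h4

variable {k : Type} [Field k]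

/-- the constants `k → k[[X]][W]` -/
noncomputable def cst (k : Type) [Field k] : k →+* (PowerSeries k)[X] :=
  (C : PowerSeries k →+* (PowerSeries k)[X]).comp PowerSeries.C

/-- `t + X^l W` -/
noncomputable def aa (l : ℕ) (t : k) : (PowerSeries k)[X] :=
  C (PowerSeries.C t) + C (PowerSeries.X ^ l) * X

/-- `χ(t + X^l W, P(t + X^l W) + W T1(t + X^l W))` -/
noncomputable def HH (χ : k[X][X]) (l : ℕ) (t : k) (P T1 : k[X]) : (PowerSeries k)[X] :=
  χ.eval₂ (eval₂RingHom (cst k) (aa l t))
    (P.eval₂ (cst k) (aa l t) + X * T1.eval₂ (cst k) (aa l t))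

/-- the effect of a ring homomorphism on `HH` -/
theorem HH_hom (χ : k[X][X]) (l : ℕ) (t : k) (P T1 : k[X]) {R : Type} [CommRing R]
    (φ : (PowerSeries k)[X] →+* R) (ψ : k →+* R) (hψ : ∀ c, φ (cst k c) = ψ c) :
    φ (HH χ l t P T1) = χ.eval₂ (eval₂RingHom ψ (φ (aa l t)))
      (P.eval₂ ψ (φ (aa l t)) + φ X * T1.eval₂ ψ (φ (aa l t))) := by
  have h0 : φ.comp (cst k) = ψ := RingHom.ext hψ
  have h1 : φ.comp (eval₂RingHom (cst k) (aa l t)) = eval₂RingHom ψ (φ (aa l t)) := by
    apply Polynomial.ringHom_ext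
    · intro c
      simp [hψ]
    · simp
  rw [HH, hom_eval₂, h1, map_add, map_mul, hom_eval₂, hom_eval₂, h0]

theorem HH_red (χ : k[X][X]) (l : ℕ) (hl : 0 < l) (t : k) (P T1 : k[X]) :
    (HH χ l t P T1).map PowerSeries.constantCoeff =
      (χ.map (evalRingHom t)).comp (C (P.eval t) + X * C (T1.eval t)) := by
  have h1 := HH_hom χ l t P T1 (mapRingHom (PowerSeries.constantCoeff (R := k))) (C : k →+* k[X])
    (by intro c; simp [cst])
  have h2 : mapRingHom (PowerSeries.constantCoeff (R := k)) (aa l t) = C t := by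
    rw [aa, map_add, map_mul]
    simp [hl.ne']
  rw [h2, coe_mapRingHom, map_X] at h1
  rw [h1]
  have h3 : ∀ q : k[X], q.eval₂ (C : k →+* k[X]) (C t) = C (q.eval t) := by
    intro q
    rw [eval₂_at_apply]
  rw [h3, h3, comp, eval₂_map]
  congr 1
  apply Polynomial.ringHom_ext
  · intro c
    simp
  · simp

theorem HH_rescale (χ : k[X][X]) (l : ℕ) (t : k) (P T1 : k[X]) (ζ : k) (hζ : ζ ^ l = 1) :
    (HH χ l t P T1).map (PowerSeries.rescale ζ) = HH χ l t P T1 := by
  have hC : ∀ c : k, PowerSeries.rescale ζ (PowerSeries.C c) = PowerSeries.C c := by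
    intro c
    ext m
    rw [PowerSeries.coeff_rescale, PowerSeries.coeff_C]
    split_ifs with h
    · rw [h, pow_zero, one_mul]
    · rw [mul_zero]
  have h1 := HH_hom χ l t P T1 (mapRingHom (PowerSeries.rescale ζ)) (cst k)
    (by intro c; simp [cst, hC])
  have h2 : mapRingHom (PowerSeries.rescale ζ) (aa l t) = aa l t := by
    rw [aa, map_add, map_mul, coe_mapRingHom, map_C, map_C, map_X, hC, map_pow,
      PowerSeries.rescale_X, mul_pow, ← map_pow, hζ, map_one, one_mul]
  rw [h2, coe_mapRingHom, map_X] at h1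
  rw [h1, HH]

theorem eval_rescale (G : (PowerSeries k)[X]) (ζ : k) (hG : G.map (PowerSeries.rescale ζ) = G)
    (W : PowerSeries k) : G.eval (PowerSeries.rescale ζ W) =
      PowerSeries.rescale ζ (G.eval W) := by
  conv_lhs => rw [← hG]
  rw [eval_map, eval₂_at_apply]

/-- The root of the pencil near a simple zero `t` of `T`, at `lam = infinity`. -/
theorem exists_fixed_root [IsAlgClosed k] (χ : k[X][X]) (n l : ℕ) (hn : 0 < n)
    (hχm : χ.Monic) (hχn : χ.natDegree = n) (hl : 0 < l) (P T : k[X]) (s1 s2 t : k)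
    (hTt : T.eval t = 0) (hTt' : (derivative T).eval t ≠ 0) (ht1 : t ≠ s1) (ht2 : t ≠ s2)
    (hsept : (χ.map (evalRingHom t)).Separable) (c : k) (hc : c ≠ 0) (F : k[X][X])
    (hF : C (C c) * (X - C (C s1)) * (X - C (C s2)) * F = pencil χ P T)
    (ζ : k) (hζ0 : ζ ≠ 0) (hζ : ζ ^ l = 1) :
    ∃ r : FractionRing (PowerSeries k), F.eval₂ (ev k l) r = 0 ∧ sg ζ hζ0 r = r := by
  obtain ⟨T1, hT1⟩ := dvd_iff_isRoot.2 (show T.IsRoot t from hTt)
  have hT1t : T1.eval t ≠ 0 := by
    intro h0
    apply hTt'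
    rw [hT1, derivative_mul, eval_add, eval_mul, eval_mul, h0]
    simp
  have hdeg : (χ.map (evalRingHom t)).degree ≠ 0 := by
    rw [hχm.degree_map, degree_eq_natDegree hχm.ne_zero, hχn]
    exact_mod_cast hn.ne'
  obtain ⟨y, hy⟩ := IsAlgClosed.exists_root _ hdeg
  have hy' : (χ.map (evalRingHom t)).derivative.eval y ≠ 0 :=
    hsept.eval₂_derivative_ne_zero (RingHom.id k) (by simpa using hy)
  set w : k := (y - P.eval t) / T1.eval t with hw
  have hwy : P.eval t + w * T1.eval t = y := by
    rw [hw]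
    field_simp
    ring
  have hred := HH_red χ l hl t P T1
  have h0 : ((HH χ l t P T1).map PowerSeries.constantCoeff).eval w = 0 := by
    rw [hred, eval_comp, eval_add, eval_mul, eval_C, eval_C, eval_X, hwy]
    exact hy
  have h1 : ((HH χ l t P T1).map PowerSeries.constantCoeff).derivative.eval w ≠ 0 := by
    rw [hred, derivative_comp, eval_mul, eval_comp, eval_add, eval_mul, eval_C, eval_C, eval_X,
      hwy]
    refine mul_ne_zero ?_ hy'
    simpa using hT1t
  obtain ⟨W, hW, hGW⟩ := exists_powerSeries_root_gen _ w h0 h1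
  have hWr : PowerSeries.rescale ζ W = W := by
    have hcc : PowerSeries.constantCoeff (PowerSeries.rescale ζ W) = w := by
      rw [← PowerSeries.coeff_zero_eq_constantCoeff_apply, PowerSeries.coeff_rescale, pow_zero,
        one_mul, PowerSeries.coeff_zero_eq_constantCoeff_apply, hW]
    refine hensel_unique (HH χ l t P T1) _ _ (by rw [hcc, hW]) ?_ hGW (by rw [hcc]; exact h1)
    rw [eval_rescale _ ζ (HH_rescale χ l t P T1 ζ hζ), hGW, map_zero]
  refine ⟨algebraMap (PowerSeries k) (FractionRing (PowerSeries k))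
    (PowerSeries.C t + PowerSeries.X ^ l * W), ?_, ?_⟩
  · set r := algebraMap (PowerSeries k) (FractionRing (PowerSeries k))
      (PowerSeries.C t + PowerSeries.X ^ l * W) with hr
    have hev : ∀ a : k, ev k l (C a) = kap k a := by
      intro a
      rw [ev, coe_eval₂RingHom, eval₂_C]
    have hrt : r - kap k t = unif k ^ l *
        algebraMap (PowerSeries k) (FractionRing (PowerSeries k)) W := by
      rw [hr, map_add, map_mul, map_pow, kap_apply, unif]
      ring
    have hTr : T.eval₂ (kap k) r = (r - kap k t) * T1.eval₂ (kap k) r := by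
      conv_lhs => rw [hT1]
      rw [eval₂_mul, eval₂_sub, eval₂_X, eval₂_C]
    have hu : (unif k)⁻¹ ^ l * unif k ^ l = 1 := by
      rw [← mul_pow, inv_mul_cancel₀ unif_ne_zero, one_pow]
    have h2 : (pencil χ P T).eval₂ (ev k l) r = 0 := by
      rw [pencil_eval, hTr, hrt]
      have h3 := HH_hom χ l t P T1
        ((algebraMap (PowerSeries k) (FractionRing (PowerSeries k))).comp (evalRingHom W))
        (kap k) (by intro c; simp [cst, kap_apply])
      have h4 : ((algebraMap (PowerSeries k) (FractionRing (PowerSeries k))).comp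
          (evalRingHom W)) (aa l t) = r := by
        rw [RingHom.comp_apply, coe_evalRingHom, aa, eval_add, eval_mul, eval_C, eval_C, eval_X,
          hr]
      rw [h4, RingHom.comp_apply, RingHom.comp_apply, coe_evalRingHom, hGW, map_zero, eval_X]
        at h3
      rw [h3]
      congr 2
      linear_combination ((algebraMap (PowerSeries k) (FractionRing (PowerSeries k)) W) *
        T1.eval₂ (kap k) r) * hu
    rw [← hF, eval₂_mul, eval₂_mul, eval₂_mul, eval₂_sub, eval₂_sub, eval₂_X, eval₂_C, eval₂_C,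
      eval₂_C, hev, hev, hev] at h2
    have hne : ∀ s : k, t ≠ s → r - kap k s ≠ 0 := by
      intro s hs h5
      rw [sub_eq_zero, hr, kap_apply] at h5
      have h6 := congrArg PowerSeries.constantCoeff
        (IsFractionRing.injective (PowerSeries k) _ h5)
      rw [map_add, map_mul, map_pow, PowerSeries.constantCoeff_X, zero_pow hl.ne', zero_mul,
        add_zero, PowerSeries.constantCoeff_C, PowerSeries.constantCoeff_C] at h6
      exact hs h6
    have hkc : kap k c ≠ 0 := by
      rw [Ne, map_eq_zero]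
      exact hc
    exact (mul_eq_zero.1 h2).resolve_left
      (mul_ne_zero (mul_ne_zero hkc (hne s1 ht1)) (hne s2 ht2))
  · have hC : PowerSeries.rescale ζ (PowerSeries.C t) = PowerSeries.C t := by
      ext m
      rw [PowerSeries.coeff_rescale, PowerSeries.coeff_C]
      split_ifs with h
      · rw [h, pow_zero, one_mul]
      · rw [mul_zero]
    rw [sg_algebraMap, map_add, map_mul, hWr, hC, map_pow, PowerSeries.rescale_X, mul_pow,
      ← map_pow, hζ, map_one, one_mul]

end M2d2Aux

open M2dAux M2d2Aux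

/-- K1-16. As M2d_cycle, `z - 4 n` not nec. prime, plus one root fixed by `gal`. -/
theorem M2d2_cycle {k : Type} [Field k] [IsAlgClosed k]
    (χ : k[X][X]) (n z : ℕ) (hn : 2 ≤ n) (hχ : IsCnz χ n z) (hcop : n.Coprime z)
    (h8 : 8 * n ≤ z) (hlk : ((z - 4 * n : ℕ) : k) ≠ 0)
    (P T0 : k[X]) (s1 s2 t : k) (h12 : s1 ≠ s2)
    (hP : P.natDegree ≤ 4) (hT0 : T0.Monic) (hT0d : T0.natDegree = 2)
    (ht : T0.eval t = 0) (ht' : (derivative T0).eval t ≠ 0) (ht1 : t ≠ s1) (ht2 : t ≠ s2)
    (hsept : (χ.map (evalRingHom t)).Separable)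
    (F : k[X][X]) (hFm : F.Monic) (hFd : F.natDegree = z - 2)
    (hF : C (C ((χ.coeff 0).leadingCoeff)) * (X - C (C s1)) * (X - C (C s2)) * F
        = pencil χ P ((X - C s1) * (X - C s2) * T0)) :
    ∃ (gal : (overFrac F).SplittingField ≃ₐ[FractionRing k[X]] (overFrac F).SplittingField)
      (ρ : ZMod (z - 4 * n) → (overFrac F).SplittingField) (c : (overFrac F).SplittingField),
      Function.Injective ρ ∧
      (∀ i, ρ i ∈ (overFrac F).rootSet (overFrac F).SplittingField) ∧
      (∀ i, gal (ρ i) = ρ (i + 1)) ∧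
      c ∈ (overFrac F).rootSet (overFrac F).SplittingField ∧ gal c = c := by
  obtain ⟨l, hldef⟩ : ∃ l, l = z - 4 * n := ⟨_, rfl⟩
  rw [← hldef] at hlk ⊢
  have hz : z = l + 4 * n := by omega
  have hl0 : 0 < l := by omega
  have : NeZero l := ⟨hl0.ne'⟩
  have : NeZero (l : k) := ⟨hlk⟩
  have hTm : ((X - C s1) * (X - C s2) * T0).Monic :=
    ((monic_X_sub_C s1).mul (monic_X_sub_C s2)).mul hT0
  have hTd : ((X - C s1) * (X - C s2) * T0).natDegree = 4 := by
    rw [((monic_X_sub_C s1).mul (monic_X_sub_C s2)).natDegree_mul hT0,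
      (monic_X_sub_C s1).natDegree_mul (monic_X_sub_C s2), natDegree_X_sub_C,
      natDegree_X_sub_C, hT0d]
  have hc0 : (χ.coeff 0).leadingCoeff ≠ 0 := by
    rw [Ne, leadingCoeff_eq_zero]
    intro h0
    have := hχ.deg0
    rw [h0, natDegree_zero] at this
    omega
  obtain ⟨w, W, hw0, hW, hroot⟩ := exists_root χ n z l (by omega) hχ hz hl0 hlk P _ hP hTm hTd
    s1 s2 F hF
  obtain ⟨ζ, hζ⟩ := HasEnoughRootsOfUnity.exists_primitiveRoot k l
  have hζ0 : ζ ≠ 0 := hζ.ne_zero hl0.ne'
  obtain ⟨r', hr'0, hr'⟩ := exists_fixed_root χ n l (by omega) hχ.monic hχ.natDegree hl0 P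
    ((X - C s1) * (X - C s2) * T0) s1 s2 t
    (by rw [eval_mul, ht, mul_zero])
    (by
      rw [derivative_mul, eval_add, eval_mul, eval_mul, ht, mul_zero, zero_add, eval_mul,
        eval_sub, eval_sub, eval_X, eval_C, eval_C]
      exact mul_ne_zero (mul_ne_zero (sub_ne_zero.2 ht1) (sub_ne_zero.2 ht2)) ht')
    ht1 ht2 hsept _ hc0 F hF ζ hζ0 hζ.pow_eq_one
  let i : FractionRing k[X] →+* FractionRing (PowerSeries k) :=
    IsFractionRing.lift (ev_injective (k := k) l hl0)
  have hi : ∀ a : k[X], i (algebraMap k[X] (FractionRing k[X]) a) = ev k l a := fun a =>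
    IsFractionRing.lift_algebraMap _ a
  have hi2 : i.comp (algebraMap k[X] (FractionRing k[X])) = ev k l := RingHom.ext hi
  have hσ : ∀ a, sg ζ hζ0 (i a) = i a := by
    have h1 : ((sg ζ hζ0 : FractionRing (PowerSeries k) →+* FractionRing (PowerSeries k)).comp
        i) = i := by
      apply IsLocalization.ringHom_ext (nonZeroDivisors k[X])
      apply Polynomial.ringHom_ext
      · intro c
        simp only [RingHom.comp_apply, RingHom.coe_coe]
        rw [hi, ev, coe_eval₂RingHom, eval₂_C, sg_kap]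
      · simp only [RingHom.comp_apply, RingHom.coe_coe]
        rw [hi, ev, coe_eval₂RingHom, eval₂_X, map_pow, map_inv₀, sg_unif, mul_inv, mul_pow,
          ← map_inv₀, ← map_pow, inv_pow, hζ.pow_eq_one, inv_one, map_one, one_mul]
    intro a
    exact congrArg (fun φ : FractionRing k[X] →+* FractionRing (PowerSeries k) => φ a) h1
  refine exists_cycle_fixed (overFrac F) ?_ i (sg ζ hζ0) hσ ((unif k)⁻¹ ^ n *
    algebraMap (PowerSeries k) (FractionRing (PowerSeries k)) W) ?_ l ?_ ?_ r' ?_ hr'
  · exact (hFm.map _).ne_zero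
  · rw [overFrac, eval₂_map, hi2]
    exact hroot
  · rw [sg_iterate, hζ.pow_eq_one, map_one, PowerSeries.rescale_one]
    simp
  · intro a ha b hb hab
    rw [sg_iterate, sg_iterate] at hab
    have hu : (unif k)⁻¹ ^ n ≠ 0 := pow_ne_zero _ (inv_ne_zero unif_ne_zero)
    have h3 : (kap k (ζ ^ a))⁻¹ ^ n * algebraMap (PowerSeries k) (FractionRing (PowerSeries k))
          (PowerSeries.rescale (ζ ^ a) W) = (kap k (ζ ^ b))⁻¹ ^ n *
        algebraMap (PowerSeries k) (FractionRing (PowerSeries k))
          (PowerSeries.rescale (ζ ^ b) W) := by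
      apply mul_left_cancel₀ hu
      linear_combination hab
    rw [← map_inv₀, ← map_inv₀, ← map_pow, ← map_pow, kap_apply, kap_apply, ← map_mul,
      ← map_mul] at h3
    have h4 := congrArg PowerSeries.constantCoeff (IsFractionRing.injective (PowerSeries k) _ h3)
    have h5 : ∀ c : k, PowerSeries.constantCoeff (PowerSeries.rescale c W) = w := by
      intro c
      rw [← PowerSeries.coeff_zero_eq_constantCoeff_apply, PowerSeries.coeff_rescale, pow_zero,
        one_mul, PowerSeries.coeff_zero_eq_constantCoeff_apply, hW]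
    rw [map_mul, map_mul, PowerSeries.constantCoeff_C, PowerSeries.constantCoeff_C, h5, h5] at h4
    have h6 := mul_right_cancel₀ hw0 h4
    rw [inv_pow, inv_pow, inv_inj, ← pow_mul, ← pow_mul, mul_comm a n, mul_comm b n, pow_mul,
      pow_mul] at h6
    have hcl : n.Coprime l := by
      have h7 : n.Coprime (l + 4 * n) := by rwa [← hz]
      simpa using h7
    exact (hζ.pow_of_coprime n hcl).pow_inj ha hb h6
  · rw [overFrac, eval₂_map, hi2]
    exact hr'0

end Pool.Agent.K1
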