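import Mathlib

/-!
One place at infinity: weight functions with one dimensional leaves.
-/

open Polynomial

namespace Pool.Agent.K1

/-- A weight function (minus the order at the unique place at infinity) on a `K`-algebra. -/
structure OneLeaf (K R : Type*) [Field K] [CommRing R] [Algebra K R] where
  wt : R → ℕ
  wt_zero : wt 0 = 0
  wt_mul : ∀ f g, f ≠ 0 → g ≠ 0 → wt (f * g) = wt f + wt g
  wt_add : ∀ f g, wt (f + g) ≤ max (wt f) (wt g)
  leaf : ∀ f g, f ≠ 0 → g ≠ 0 → wt f = wt g →
    ∃ c : K, c ≠ 0 ∧ (f = c • g ∨ wt (f - c • g) < wt f)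

/-- `x` is a good rational point of `R` for the pair `(S, Y)`: the ideal generated by
`S - S(x)` and `(Y - Y(x))^2` is the full ideal of `x`. -/
def GoodPt {K R : Type*} [Field K] [CommRing R] [Algebra K R] (S Y : R) (x : R →ₐ[K] K) :
    Prop :=
  Ideal.span {S - algebraMap K R (x S), (Y - algebraMap K R (x Y)) ^ 2} = RingHom.ker x

/-- `ψ` computes `φ` by rational points: whenever the principal ideal of a nonzero `f` is a
product of ideals of rational points, `φ f` is the corresponding sum of values of `ψ`. -/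
def IsPsi (K : Type*) {R : Type*} [Field K] [CommRing R] [Algebra K R] (φ : R → ℚ)
    (ψ : (R →ₐ[K] K) → ℚ) : Prop :=
  ∀ f : R, f ≠ 0 → ∀ m : (R →ₐ[K] K) →₀ ℕ,
    Ideal.span {f} = m.prod (fun x e => (RingHom.ker x) ^ e) →
    φ f = m.sum (fun x e => (e : ℚ) * ψ x)

/-- Multiplicative functional on the nonzero elements. -/
def IsMulFun {R : Type*} [CommRing R] (φ : R → ℚ) : Prop :=
  ∀ f g, f ≠ 0 → g ≠ 0 → φ (f * g) = φ f + φ g

end Pool.Agent.K1
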