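import Pool.Agent.K1.IrrCnz
import Pool.Agent.K1.OneLeafDef

/-!
The coordinate ring of a plane curve of type `C_{n,z}` is a one leaf ring (K1-10).
-/

set_option autoImplicit false

open Polynomial

namespace Pool.Agent.K1

theorem M5a_irreducible {K : Type*} [Field K] (χ : K[X][X]) (n z : ℕ) (hn : 1 ≤ n)
    (hχ : IsCnz χ n z) (hcop : n.Coprime z) : Irreducible χ :=
  irreducible_of_isCnz χ n z hn hχ hcop

namespace M5a

open IrrCnz

variable {K : Type*} [Field K]

/-- The top coefficient of `phi r` is a monomial. -/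
theorem lead {n z : ℕ} (hn : 0 < n) (hcop : n.Coprime z) (r : K[X][X]) (hr : r ≠ 0)
    (hd : ∀ j, n ≤ j → r.coeff j = 0) :
    ∃ j c, j < n ∧ c ≠ 0 ∧ (phi n z r).leadingCoeff = monomial j c ∧
      z * j ≡ (phi n z r).natDegree [MOD n] := by
  have hP : phi n z r ≠ 0 := phi_ne_zero hn hr
  have hL : (phi n z r).leadingCoeff ≠ 0 := leadingCoeff_ne_zero.2 hP
  have key : ∀ j, (phi n z r).leadingCoeff.coeff j ≠ 0 →
      j < n ∧ z * j ≡ (phi n z r).natDegree [MOD n] := by
    intro j hj
    rw [leadingCoeff, phi_coeff] at hj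
    have hrj : r.coeff j ≠ 0 := by
      intro h
      rw [h] at hj
      simp at hj
    have hjn : j < n := by
      by_contra h
      exact hrj (hd j (not_lt.1 h))
    refine ⟨hjn, ?_⟩
    rw [coeff_mul_X_pow'] at hj
    split_ifs at hj with hle
    · rw [coeff_expand hn] at hj
      split_ifs at hj with hdvd
      · exact (Nat.modEq_iff_dvd' hle).2 hdvd
      · exact absurd rfl hj
    · exact absurd rfl hj
  obtain ⟨j, hj⟩ : ∃ j, (phi n z r).leadingCoeff.coeff j ≠ 0 := by
    by_contra hcon
    push Not at hcon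
    exact hL (Polynomial.ext hcon)
  refine ⟨j, (phi n z r).leadingCoeff.coeff j, (key j hj).1, hj, ?_, (key j hj).2⟩
  ext i
  rw [coeff_monomial]
  split_ifs with hij
  · rw [hij]
  · by_contra hi
    apply hij
    have h1 : z * j ≡ z * i [MOD n] := (key j hj).2.trans (key i hi).2.symm
    have h2 : j ≡ i [MOD n] := Nat.ModEq.cancel_left_of_coprime hcop h1
    exact (Nat.ModEq.eq_of_lt_of_lt h2 (key j hj).1 (key i hi).1)

theorem lead_chi {n z : ℕ} (hn : 0 < n) (hcop : n.Coprime z) (χ : K[X][X]) (hχ : IsCnz χ n z) :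
    (phi n z χ).natDegree = n * z ∧
      (phi n z χ).leadingCoeff = X ^ n + C ((χ.coeff 0).coeff z) := by
  have hχn : χ.coeff n = 1 := by
    have := hχ.monic.coeff_natDegree
    rwa [hχ.natDegree] at this
  have hbig : ∀ j, n < j → χ.coeff j = 0 := by
    intro j hj
    apply coeff_eq_zero_of_natDegree_lt
    rw [hχ.natDegree]
    exact hj
  have hle : (phi n z χ).natDegree ≤ n * z := by
    apply natDegree_phi_le
    intro j hj
    rcases Nat.eq_zero_or_pos j with rfl | hj0
    · rw [hχ.deg0, mul_zero, add_zero]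
    · rcases lt_trichotomy j n with h | h | h
      · exact (hχ.lt j hj0 h).le
      · rw [h, hχn, natDegree_one, mul_zero, zero_add, mul_comm]
      · exact absurd (hbig j h) hj
  have hco : (phi n z χ).coeff (n * z) = X ^ n + C ((χ.coeff 0).coeff z) := by
    ext j
    rw [phi_coeff, coeff_add, coeff_X_pow, coeff_C]
    rcases lt_trichotomy j n with h | h | h
    · rcases Nat.eq_zero_or_pos j with h0 | h0
      · subst h0
        rw [if_neg hn.ne, if_pos rfl, zero_add, mul_zero, pow_zero, mul_one, mul_comm n z,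
          coeff_expand_mul hn]
      · rw [if_neg h.ne, if_neg h0.ne', add_zero]
        apply coeff_eq_zero_of_natDegree_lt
        refine lt_of_le_of_lt natDegree_mul_le ?_
        rw [natDegree_X_pow, natDegree_expand, mul_comm _ n]
        exact hχ.lt j h0 h
    · subst h
      rw [if_pos rfl, if_neg hn.ne', add_zero, hχn, map_one, one_mul, mul_comm z j, coeff_X_pow,
        if_pos rfl]
    · rw [if_neg h.ne', if_neg (hn.trans h).ne', hbig j h, map_zero, zero_mul, coeff_zero, add_zero]
  have hne : (X ^ n + C ((χ.coeff 0).coeff z) : K[X]) ≠ 0 := by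
    intro h
    have h1 := congrArg natDegree h
    rw [natDegree_X_pow_add_C, natDegree_zero] at h1
    exact hn.ne' h1
  have hdeg : (phi n z χ).natDegree = n * z := by
    apply le_antisymm hle
    apply le_natDegree_of_ne_zero
    rw [hco]
    exact hne
  exact ⟨hdeg, by rw [leadingCoeff, hdeg, hco]⟩

theorem not_dvd {n z : ℕ} (hn : 0 < n) (hcop : n.Coprime z) (χ : K[X][X]) (hχ : IsCnz χ n z)
    {i j : ℕ} (hi : i < n) (hj : j < n) {a : K} (ha : a ≠ 0) (u : K[X]) :
    (X ^ n + C ((χ.coeff 0).coeff z)) * u ≠ monomial (i + j) a := by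
  intro h
  have hne : (X ^ n + C ((χ.coeff 0).coeff z) : K[X]) ≠ 0 := by
    intro h
    have h1 := congrArg natDegree h
    rw [natDegree_X_pow_add_C, natDegree_zero] at h1
    exact hn.ne' h1
  have hu : u ≠ 0 := by
    rintro rfl
    rw [mul_zero] at h
    have := (monomial_eq_zero_iff a (i + j)).1 h.symm
    exact ha this
  rcases Nat.eq_zero_or_pos z with hz | hz
  · rw [hz, Nat.coprime_zero_right] at hcop
    have h1 := congrArg natDegree h
    rw [natDegree_mul hne hu, natDegree_X_pow_add_C, natDegree_monomial_eq _ ha] at h1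
    omega
  · have hc0 : (χ.coeff 0).coeff z ≠ 0 := by
      have h1 : (χ.coeff 0).leadingCoeff ≠ 0 := by
        rw [leadingCoeff_ne_zero]
        intro h2
        have := hχ.deg0
        rw [h2, natDegree_zero] at this
        omega
      rwa [leadingCoeff, hχ.deg0] at h1
    set e := (χ.coeff 0).coeff z with he
    have hcp : IsCoprime (X ^ n + C e : K[X]) X := by
      refine ⟨C e⁻¹, -(C e⁻¹ * X ^ (n - 1)), ?_⟩
      have h1 : (X : K[X]) ^ n = X ^ (n - 1) * X := by
        rw [← pow_succ, Nat.sub_add_cancel hn]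
      rw [h1, mul_add, ← C_mul, inv_mul_cancel₀ hc0, C_1]
      ring
    have hdvd : (X ^ n + C e : K[X]) ∣ C a * X ^ (i + j) := by
      rw [C_mul_X_pow_eq_monomial]
      exact ⟨u, h.symm⟩
    have hd2 : (X ^ n + C e : K[X]) ∣ C a := (hcp.pow_right).dvd_of_dvd_mul_right hdvd
    have hd3 := natDegree_le_of_dvd hd2 (C_ne_zero.2 ha)
    rw [natDegree_X_pow_add_C, natDegree_C] at hd3
    omega

/-- Multiplicativity of the weight. -/
theorem wt_mul_mod {n z : ℕ} (hn : 0 < n) (hcop : n.Coprime z) (χ : K[X][X]) (hχ : IsCnz χ n z)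
    (r r' : K[X][X]) (hr : r ≠ 0) (hr' : r' ≠ 0) (hd : ∀ j, n ≤ j → r.coeff j = 0)
    (hd' : ∀ j, n ≤ j → r'.coeff j = 0) :
    (phi n z (r * r' %ₘ χ)).natDegree = (phi n z r).natDegree + (phi n z r').natDegree := by
  obtain ⟨hχd, hχl⟩ := lead_chi hn hcop χ hχ
  obtain ⟨j, c, hj, hc, hl, -⟩ := lead hn hcop r hr hd
  obtain ⟨j', c', hj', hc', hl', -⟩ := lead hn hcop r' hr' hd'
  have hP := phi_ne_zero (z := z) hn hr
  have hP' := phi_ne_zero (z := z) hn hr'
  set q := r * r' /ₘ χ with hq
  set r'' := r * r' %ₘ χ with hr''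
  have hdec : r'' + χ * q = r * r' := modByMonic_add_div (r * r') χ
  have hdeg'' : ∀ i, n ≤ i → r''.coeff i = 0 := by
    intro i hi
    apply coeff_eq_zero_of_degree_lt
    refine lt_of_lt_of_le (degree_modByMonic_lt _ hχ.monic) ?_
    rw [degree_eq_natDegree hχ.monic.ne_zero, hχ.natDegree]
    exact_mod_cast hi
  have hPd : phi n z r'' + phi n z χ * phi n z q = phi n z r * phi n z r' := by
    rw [← map_mul, ← map_mul, ← map_add, hdec]
  have hD : (phi n z r * phi n z r').natDegree = (phi n z r).natDegree + (phi n z r').natDegree :=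
    natDegree_mul hP hP'
  set D := (phi n z r).natDegree + (phi n z r').natDegree with hDdef
  have hlD : (phi n z r * phi n z r').coeff D = monomial (j + j') (c * c') := by
    rw [← hD]
    have : (phi n z r * phi n z r').leadingCoeff = monomial (j + j') (c * c') := by
      rw [leadingCoeff_mul, hl, hl', monomial_mul_monomial]
    exact this
  have hcc : c * c' ≠ 0 := mul_ne_zero hc hc'
  rcases eq_or_ne q 0 with hq0 | hq0
  · have : phi n z r'' = phi n z r * phi n z r' := by
      rw [← hPd, hq0, map_zero, mul_zero, add_zero]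
    rw [this, hD]
  · have hPq := phi_ne_zero (z := z) hn hq0
    have hPχ : phi n z χ ≠ 0 := phi_ne_zero hn hχ.monic.ne_zero
    set G := phi n z χ * phi n z q with hG
    have hGl : G.leadingCoeff = (X ^ n + C ((χ.coeff 0).coeff z)) * (phi n z q).leadingCoeff := by
      rw [hG, leadingCoeff_mul, hχl]
    have hne : (X ^ n + C ((χ.coeff 0).coeff z) : K[X]) ≠ 0 := by
      intro h
      have h1 := congrArg natDegree h
      rw [natDegree_X_pow_add_C, natDegree_zero] at h1
      exact hn.ne' h1
    have hGn : n ≤ G.leadingCoeff.natDegree := by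
      rw [hGl, natDegree_mul hne (leadingCoeff_ne_zero.2 hPq), natDegree_X_pow_add_C]
      exact Nat.le_add_right _ _
    have hGle : G.natDegree ≤ D := by
      by_contra hlt
      push Not at hlt
      have h1 : (phi n z r'').coeff G.natDegree = - G.leadingCoeff := by
        have h2 := congrArg (fun f => f.coeff G.natDegree) hPd
        simp only [coeff_add] at h2
        rw [coeff_eq_zero_of_natDegree_lt (show (phi n z r * phi n z r').natDegree <
          G.natDegree by rw [hD]; exact hlt)] at h2
        exact eq_neg_of_add_eq_zero_left h2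
      have h3 : ((phi n z r'').coeff G.natDegree).coeff G.leadingCoeff.natDegree = 0 := by
        rw [phi_coeff, hdeg'' _ hGn, map_zero, zero_mul, coeff_zero]
      rw [h1, coeff_neg, neg_eq_zero] at h3
      have h4 : G.leadingCoeff.leadingCoeff = 0 := h3
      rw [leadingCoeff_eq_zero, leadingCoeff_eq_zero] at h4
      exact (mul_ne_zero hPχ hPq) h4
    apply le_antisymm
    · have h1 : phi n z r'' = phi n z r * phi n z r' - G := eq_sub_of_add_eq hPd
      rw [h1]
      refine (natDegree_sub_le _ _).trans ?_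
      rw [hD]
      exact max_le le_rfl hGle
    · apply le_natDegree_of_ne_zero
      intro h0
      have h2 := congrArg (fun f => f.coeff D) hPd
      simp only [coeff_add] at h2
      rw [h0, zero_add, hlD] at h2
      rcases hGle.lt_or_eq with hlt | heq
      · rw [coeff_eq_zero_of_natDegree_lt hlt] at h2
        exact hcc ((monomial_eq_zero_iff _ _).1 h2.symm)
      · rw [← heq] at h2
        have h3 : G.leadingCoeff = monomial (j + j') (c * c') := h2
        rw [hGl] at h3
        exact not_dvd hn hcop χ hχ hj hj' hcc _ h3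

end M5a

open M5a IrrCnz in
theorem M5a_plane {K : Type*} [Field K] (χ : K[X][X]) (n z : ℕ) (hn : 1 ≤ n)
    (hχ : IsCnz χ n z) (hcop : n.Coprime z) :
    IsDomain (AdjoinRoot χ) ∧ ∃ o : OneLeaf K (AdjoinRoot χ),
      o.wt (AdjoinRoot.of χ X) = n ∧ o.wt (AdjoinRoot.root χ) = z := by
  classical
  have hn0 : 0 < n := hn
  have hirr := M5a_irreducible χ n z hn hχ hcop
  have hdom : IsDomain (AdjoinRoot χ) := AdjoinRoot.isDomain_of_prime hirr.prime
  refine ⟨hdom, ?_⟩
  set ρ := AdjoinRoot.modByMonicHom hχ.monic with hρ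
  have hmk : ∀ b, AdjoinRoot.mk χ (ρ b) = b := AdjoinRoot.mk_leftInverse hχ.monic
  have hρmk : ∀ f, ρ (AdjoinRoot.mk χ f) = f %ₘ χ := AdjoinRoot.modByMonicHom_mk hχ.monic
  have hρ0 : ∀ b, b ≠ 0 → ρ b ≠ 0 := by
    intro b hb h
    apply hb
    rw [← hmk b, h, map_zero]
  have hρd : ∀ b j, n ≤ j → (ρ b).coeff j = 0 := by
    intro b j hj
    have h1 : ρ b = ρ b %ₘ χ := by
      conv_lhs => rw [← hmk b]
      rw [hρmk]
    rw [h1]
    apply coeff_eq_zero_of_degree_lt
    refine lt_of_lt_of_le (degree_modByMonic_lt _ hχ.monic) ?_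
    rw [degree_eq_natDegree hχ.monic.ne_zero, hχ.natDegree]
    exact_mod_cast hj
  have hρsmul : ∀ (c : K) b, ρ (c • b) = C (C c) * ρ b := by
    intro c b
    have h1 : c • b = (C c : K[X]) • b := by
      rw [Algebra.smul_def, Algebra.smul_def]
      rfl
    rw [h1, map_smul, smul_eq_C_mul]
  have hphiC : ∀ (c : K) f, phi n z (C (C c) * f) = C (C c) * phi n z f := by
    intro c f
    rw [map_mul]
    congr 1
    rw [phi, coe_eval₂RingHom, eval₂_C]
    change (expand K n (C c)).map C = _
    rw [expand_C, map_C]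
  let o : OneLeaf K (AdjoinRoot χ) :=
    { wt := fun b => (phi n z (ρ b)).natDegree
      wt_zero := by
        show (phi n z (ρ 0)).natDegree = 0
        rw [map_zero, map_zero, natDegree_zero]
      wt_mul := by
        intro f g hf hg
        show (phi n z (ρ (f * g))).natDegree = _
        have h1 : ρ (f * g) = ρ f * ρ g %ₘ χ := by
          rw [← hρmk, map_mul (AdjoinRoot.mk χ), hmk, hmk]
        rw [h1]
        exact wt_mul_mod hn0 hcop χ hχ _ _ (hρ0 f hf) (hρ0 g hg) (hρd f) (hρd g)
      wt_add := by
        intro f g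
        show (phi n z (ρ (f + g))).natDegree ≤ _
        rw [map_add, map_add]
        exact natDegree_add_le _ _
      leaf := by
        intro f g hf hg hw
        obtain ⟨j, c, hj, hc, hl, hm⟩ := lead (z := z) hn0 hcop _ (hρ0 f hf) (hρd f)
        obtain ⟨j', c', hj', hc', hl', hm'⟩ := lead (z := z) hn0 hcop _ (hρ0 g hg) (hρd g)
        have hw' : (phi n z (ρ f)).natDegree = (phi n z (ρ g)).natDegree := hw
        have hjj : j = j' := by
          have h1 : z * j ≡ z * j' [MOD n] := hm.trans (by rw [hw']; exact hm'.symm)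
          exact Nat.ModEq.eq_of_lt_of_lt (Nat.ModEq.cancel_left_of_coprime hcop h1) hj hj'
        refine ⟨c / c', div_ne_zero hc hc', ?_⟩
        have hρs : phi n z (ρ (f - (c / c') • g)) = phi n z (ρ f) -
            C (C (c / c')) * phi n z (ρ g) := by
          rw [map_sub, hρsmul, map_sub, hphiC]
        have hle : (phi n z (ρ (f - (c / c') • g))).natDegree ≤ (phi n z (ρ f)).natDegree := by
          rw [hρs]
          refine (natDegree_sub_le _ _).trans (max_le le_rfl ?_)
          refine (natDegree_C_mul_le _ _).trans ?_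
          rw [hw']
        have hco : (phi n z (ρ (f - (c / c') • g))).coeff (phi n z (ρ f)).natDegree = 0 := by
          rw [hρs, coeff_sub, coeff_C_mul]
          have h1 : (phi n z (ρ f)).coeff (phi n z (ρ f)).natDegree = monomial j c := hl
          have h2 : (phi n z (ρ g)).coeff (phi n z (ρ f)).natDegree = monomial j' c' := by
            rw [hw']
            exact hl'
          rw [h1, h2, C_mul_monomial, hjj, div_mul_cancel₀ c hc', sub_self]
        rcases eq_or_ne (f - (c / c') • g) 0 with h0 | h0
        · left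
          exact sub_eq_zero.1 h0
        · right
          refine lt_of_le_of_ne hle ?_
          intro heq
          have h1 := phi_ne_zero (z := z) hn0 (hρ0 _ h0)
          apply leadingCoeff_ne_zero.2 h1
          rw [leadingCoeff, heq]
          exact hco }
  refine ⟨o, ?_, ?_⟩
  · show (phi n z (ρ (AdjoinRoot.of χ X))).natDegree = n
    have h1 : ρ (AdjoinRoot.of χ X) = C X := by
      have h2 : AdjoinRoot.of χ X = AdjoinRoot.mk χ (C X) := rfl
      rw [h2, hρmk, (modByMonic_eq_self_iff hχ.monic).2]
      refine lt_of_le_of_lt degree_C_le ?_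
      rw [degree_eq_natDegree hχ.monic.ne_zero, hχ.natDegree]
      exact_mod_cast hn0
    rw [h1, phi, coe_eval₂RingHom, eval₂_C]
    change ((expand K n X).map C).natDegree = n
    rw [expand_X, Polynomial.map_pow, map_X, natDegree_X_pow]
  · show (phi n z (ρ (AdjoinRoot.root χ))).natDegree = z
    have h2 : AdjoinRoot.root χ = AdjoinRoot.mk χ X := rfl
    rw [h2, hρmk]
    rcases Nat.lt_or_ge 1 n with hn1 | hn1
    · rw [(modByMonic_eq_self_iff hχ.monic).2]
      · rw [phi, coe_eval₂RingHom, eval₂_X]
        rw [natDegree_C_mul (X_ne_zero), natDegree_X_pow]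
      · rw [degree_X, degree_eq_natDegree hχ.monic.ne_zero, hχ.natDegree]
        exact_mod_cast hn1
    · have hn2 : n = 1 := le_antisymm hn1 hn
      have hχ1 : χ = X + C (χ.coeff 0) := by
        have h3 := hχ.monic
        have h4 := hχ.natDegree
        rw [hn2] at h4
        exact h3.eq_X_add_C h4
      have h5 : X %ₘ χ = C (-χ.coeff 0) := by
        have h6 : (X : K[X][X]) = C (-χ.coeff 0) + χ * 1 := by
          conv_rhs => rw [hχ1]
          simp
        have h7 := (div_modByMonic_unique (f := X) (g := χ) 1 (C (-χ.coeff 0)) hχ.monic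
          ⟨h6.symm, by
            refine lt_of_le_of_lt degree_C_le ?_
            rw [degree_eq_natDegree hχ.monic.ne_zero, hχ.natDegree]
            exact_mod_cast hn0⟩).2
        exact h7
      rw [h5, phi, coe_eval₂RingHom, eval₂_C]
      change ((expand K n (-χ.coeff 0)).map C).natDegree = z
      rw [natDegree_map_eq_of_injective (C_injective), natDegree_expand, natDegree_neg, hχ.deg0,
        hn2, mul_one]

end Pool.Agent.K1
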