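import Pool.Agent.K1.M3a2
import Pool.Agent.K1.M2ab
import Pool.Agent.K1.M2f
import Pool.Agent.K1.M5a
import Pool.Agent.K1.M2full2
import Pool.Agent.K1.M1

/-!
K1-18, final form: the pair counts `M3a2_pairs` (no primality of `z - 4 n`), assembled from
`M1_cheb`, `M2_exists_F`, `M2_fullGal2`, `M2f_exists_P`, `M5a_irreducible`.
-/

open Polynomial

namespace Pool.Agent.K1

/-- K1-18. Pair counts (same conclusion as M3a_pairs). -/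
theorem M3a2_pairs (p n z : ℕ) [Fact p.Prime] (hp2 : p ≠ 2) (hn : 2 ≤ n)
    (hcop : n.Coprime z) (h16 : 16 * n ^ 2 ≤ z) (hco : (z - 4 * n).Coprime (4 * n - 2))
    (hpl : ¬ p ∣ z - 4 * n) (hpz : ¬ p ∣ z - 4) :
    ∃ B : ℝ, 0 < B ∧ ∃ Q₀ : ℕ, ∀ (K : Type) [Field K] [Fintype K] [CharP K p] (m : ℕ),
      Fintype.card K = (p ^ m) ^ 2 → Q₀ ≤ Fintype.card K → ∀ χ : K[X][X], IsCnz χ n z →
      ∀ s1 s2 sy y1 y2 yy : K, s1 ≠ s2 → s1 ≠ sy → s2 ≠ sy →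
      Good χ s1 y1 → Good χ s2 y2 → Good χ sy yy →
      |((Nat.card {v : Fin 5 → K // SplitGood χ z (poly5 v) ∧ (poly5 v).eval s1 = y1 ∧
          (poly5 v).eval s2 = y2} : ℕ) : ℝ) - (Fintype.card K : ℝ) ^ 3 / ((z - 2).factorial : ℝ)|
        ≤ B * (Fintype.card K : ℝ) ^ (5 / 2 : ℝ) := by
  have h8 : 8 * n ≤ z := by nlinarith
  exact M3a2_pairs_of p n z hp2 hn h8 hpl (M1_cheb p (z - 2) n)
    (fun K _ χ hχ P T0 s1 s2 h12 hP hT0 hT0d h1 h2 =>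
      M2_exists_F χ n z hn hχ h8 P T0 s1 s2 h12 hP hT0 hT0d h1 h2)
    (fun k _ _ hk2 χ hχ hlk P T0 s1 s2 sy t h12 h1y h2y hP hT0 hT0d ht ht' ht1 ht2 hsept
        hg1 hg2 hgy g hg hsep hgy' hcopT F hFm hFd hFc hF =>
      M2_fullGal2 hk2 χ n z hn hχ hcop h16 hco hlk P T0 s1 s2 sy t h12 h1y h2y hP hT0 hT0d ht ht'
        ht1 ht2 hsept hg1 hg2 hgy g hg hsep hgy' hcopT F hFm hFd hFc hF)
    (M2f_exists_P p n z hp2 hn hcop h8 hpz)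
    (fun K _ χ hχ => M5a_irreducible χ n z (by omega) hχ hcop)

end Pool.Agent.K1
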