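import Pool.Agent.K1.Defs

/-!
K1-14 (M3b): the lower bound from the pair counts.
-/

open Polynomial

namespace Pool.Agent.K1

/-! ### Abstract double counting -/

section Abstract

variable {V Pt ι : Type*} [DecidableEq Pt] [DecidableEq ι]

/-- The number of elements of `S` through both `x` and `y`. -/
noncomputable def pairN (S : Finset V) (I : V → Pt → Prop) [∀ v x, Decidable (I v x)] (x y : Pt) : ℝ :=
  ((S.filter (fun v => I v x ∧ I v y)).card : ℝ)

omit [DecidableEq Pt] in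
lemma pairN_nonneg (S : Finset V) (I : V → Pt → Prop) [∀ v x, Decidable (I v x)] (x y : Pt) :
    0 ≤ pairN S I x y := Nat.cast_nonneg _

omit [DecidableEq Pt] in
lemma pairN_eq_sum (S : Finset V) (I : V → Pt → Prop) [∀ v x, Decidable (I v x)] (x y : Pt) :
    pairN S I x y = ∑ v ∈ S, (if I v x then (1 : ℝ) else 0) * (if I v y then (1 : ℝ) else 0) := by
  unfold pairN
  rw [Finset.card_filter]
  push_cast
  refine Finset.sum_congr rfl fun v _ => ?_
  by_cases h1 : I v x <;> by_cases h2 : I v y <;> simp [h1, h2]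

lemma sum_pairN (S : Finset V) (X : Finset Pt) (I : V → Pt → Prop) [∀ v x, Decidable (I v x)]
    (z : ℕ) (h1 : ∀ v ∈ S, (X.filter (I v)).card = z) (x : Pt) :
    ∑ y ∈ X, pairN S I x y = z * ((S.filter (fun v => I v x)).card : ℝ) := by
  simp_rw [pairN_eq_sum]
  rw [Finset.sum_comm]
  rw [Finset.card_filter]
  push_cast
  rw [Finset.mul_sum]
  refine Finset.sum_congr rfl fun v hv => ?_
  rw [← Finset.mul_sum]
  have : ∑ y ∈ X, (if I v y then (1 : ℝ) else 0) = z := by
    rw [← h1 v hv, Finset.card_filter]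
    push_cast
    rfl
  rw [this, mul_comm]

omit [DecidableEq Pt] in
lemma pairN_self (S : Finset V) (I : V → Pt → Prop) [∀ v x, Decidable (I v x)] (x : Pt) :
    pairN S I x x = ((S.filter (fun v => I v x)).card : ℝ) := by
  unfold pairN
  simp only [and_self]

lemma expand (S : Finset V) (X : Finset Pt) (I : V → Pt → Prop) [∀ v x, Decidable (I v x)]
    (w : Pt → ℝ) :
    ∑ v ∈ S, (∑ x ∈ X, if I v x then w x else 0) ^ 2
      = ∑ x ∈ X, ∑ y ∈ X, w x * w y * pairN S I x y := by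
  simp_rw [pairN_eq_sum, sq, Finset.sum_mul_sum, Finset.mul_sum]
  rw [Finset.sum_comm]
  refine Finset.sum_congr rfl fun x _ => ?_
  rw [Finset.sum_comm]
  refine Finset.sum_congr rfl fun y _ => ?_
  refine Finset.sum_congr rfl fun v _ => ?_
  by_cases h1 : I v x <;> by_cases h2 : I v y <;> simp [h1, h2]

/-- The diagonal entries are large. -/
lemma diag_lower (S : Finset V) (X : Finset Pt) (I : V → Pt → Prop) [∀ v x, Decidable (I v x)]
    (σ : Pt → ι) (z n : ℕ) (h1 : ∀ v ∈ S, (X.filter (I v)).card = z)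
    (h3 : ∀ x ∈ X, (X.filter (fun y => σ y = σ x)).card ≤ n)
    (A E : ℝ) (hEA : E ≤ A)
    (hAE : ∀ x ∈ X, ∀ y ∈ X, σ x ≠ σ y → |pairN S I x y - A| ≤ E) (x : Pt) (hx : x ∈ X) :
    ((X.card : ℝ) - n) * (A - E) ≤ ((z : ℝ) - 1) * pairN S I x x := by
  have hs := sum_pairN S X I z h1 x
  rw [← pairN_self] at hs
  have hsplit : ∑ y ∈ X, pairN S I x y
      = ∑ y ∈ X.filter (fun y => σ y = σ x), pairN S I x y
        + ∑ y ∈ X.filter (fun y => ¬ σ y = σ x), pairN S I x y :=
    (Finset.sum_filter_add_sum_filter_not X (fun y => σ y = σ x) _).symm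
  have ha : pairN S I x x ≤ ∑ y ∈ X.filter (fun y => σ y = σ x), pairN S I x y := by
    refine Finset.single_le_sum (f := fun y => pairN S I x y)
      (fun y _ => pairN_nonneg S I x y) ?_
    simp [hx]
  have hb : ((X.card : ℝ) - n) * (A - E)
      ≤ ∑ y ∈ X.filter (fun y => ¬ σ y = σ x), pairN S I x y := by
    have hc : ((X.card : ℝ) - n) ≤ ((X.filter (fun y => ¬ σ y = σ x)).card : ℝ) := by
      have h := Finset.card_filter_add_card_filter_not (s := X) (fun y => σ y = σ x)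
      have h' := h3 x hx
      have : X.card ≤ n + (X.filter (fun y => ¬ σ y = σ x)).card := by omega
      have h'' : (X.card : ℝ) ≤ n + ((X.filter (fun y => ¬ σ y = σ x)).card : ℝ) := by
        exact_mod_cast this
      linarith
    calc ((X.card : ℝ) - n) * (A - E)
        ≤ ((X.filter (fun y => ¬ σ y = σ x)).card : ℝ) * (A - E) :=
          mul_le_mul_of_nonneg_right hc (by linarith)
      _ = ∑ y ∈ X.filter (fun y => ¬ σ y = σ x), (A - E) := by
          rw [Finset.sum_const, nsmul_eq_mul]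
      _ ≤ _ := by
          refine Finset.sum_le_sum fun y hy => ?_
          rw [Finset.mem_filter] at hy
          have := abs_le.mp (hAE x hx y hy.1 (fun h => hy.2 h.symm))
          linarith [this.1]
  rw [hsplit] at hs
  linarith

/-- The main abstract inequality. -/
lemma abstract_lower (S : Finset V) (X : Finset Pt) (I : V → Pt → Prop)
    [∀ v x, Decidable (I v x)]
    (σ : Pt → ι) (z n : ℕ) (hz : 1 < z) (h1 : ∀ v ∈ S, (X.filter (I v)).card = z)
    (h2 : ∀ v ∈ S, ∀ x ∈ X, ∀ y ∈ X, I v x → I v y → σ x = σ y → x = y)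
    (h3 : ∀ x ∈ X, (X.filter (fun y => σ y = σ x)).card ≤ n)
    (A E : ℝ) (hE : 0 ≤ E) (hEA : E ≤ A)
    (hAE : ∀ x ∈ X, ∀ y ∈ X, σ x ≠ σ y → |pairN S I x y - A| ≤ E) (w : Pt → ℝ) :
    (((X.card : ℝ) - n) * (A - E) / ((z : ℝ) - 1) - n * A - X.card * E) * ∑ x ∈ X, w x ^ 2
      ≤ ∑ v ∈ S, (∑ x ∈ X, if I v x then w x else 0) ^ 2 := by
  rw [expand]
  have hz1 : (0 : ℝ) < (z : ℝ) - 1 := by
    have : (1 : ℝ) < z := by exact_mod_cast hz
    linarith
  -- pointwise lower bound
  have key : ∀ x ∈ X, ∀ y ∈ X, w x * w y * pairN S I x y ≥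
      (if x = y then w x ^ 2 * pairN S I x x else 0) + A * (w x * w y)
        - A * (if σ y = σ x then |w x * w y| else 0) - E * |w x * w y| := by
    intro x hx y hy
    by_cases hxy : x = y
    · subst hxy
      simp only [if_true]
      have h0 : |w x * w x| = w x * w x := abs_of_nonneg (mul_self_nonneg _)
      rw [h0]
      nlinarith [mul_nonneg hE (mul_self_nonneg (w x))]
    · by_cases hs : σ y = σ x
      · have hN : pairN S I x y = 0 := by
          unfold pairN
          rw [Nat.cast_eq_zero, Finset.card_eq_zero, Finset.filter_eq_empty_iff]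
          rintro v hv ⟨ha, hb⟩
          exact hxy (h2 v hv x hx y hy ha hb hs.symm)
        rw [hN]
        simp only [if_neg hxy, if_pos hs]
        have : w x * w y ≤ |w x * w y| := le_abs_self _
        have hA : 0 ≤ A := le_trans hE hEA
        nlinarith [mul_nonneg hE (abs_nonneg (w x * w y)), mul_le_mul_of_nonneg_left this hA]
      · have hN := hAE x hx y hy (fun h => hs h.symm)
        simp only [if_neg hxy, if_neg hs]
        have h4 : |w x * w y * (pairN S I x y - A)| ≤ |w x * w y| * E := by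
          rw [abs_mul]
          exact mul_le_mul_of_nonneg_left hN (abs_nonneg _)
        have h5 := (abs_le.mp h4).1
        nlinarith
  -- sums
  have hA : 0 ≤ A := le_trans hE hEA
  have hsum : ∑ x ∈ X, ∑ y ∈ X, ((if x = y then w x ^ 2 * pairN S I x x else 0)
        + A * (w x * w y) - A * (if σ y = σ x then |w x * w y| else 0) - E * |w x * w y|)
      ≤ ∑ x ∈ X, ∑ y ∈ X, w x * w y * pairN S I x y :=
    Finset.sum_le_sum fun x hx => Finset.sum_le_sum fun y hy => key x hx y hy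
  refine le_trans ?_ hsum
  have e1 : ∑ x ∈ X, ∑ y ∈ X, ((if x = y then w x ^ 2 * pairN S I x x else 0)
        + A * (w x * w y) - A * (if σ y = σ x then |w x * w y| else 0) - E * |w x * w y|)
      = ∑ x ∈ X, w x ^ 2 * pairN S I x x + A * (∑ x ∈ X, w x) ^ 2
        - A * (∑ x ∈ X, ∑ y ∈ X, if σ y = σ x then |w x * w y| else 0)
        - E * (∑ x ∈ X, |w x|) ^ 2 := by
    simp only [Finset.sum_sub_distrib, Finset.sum_add_distrib]
    congr 1
    · congr 1
      · congr 1
        · refine Finset.sum_congr rfl fun x hx => ?_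
          rw [Finset.sum_ite_eq]
          simp [hx]
        · rw [sq, Finset.sum_mul_sum, Finset.mul_sum]
          exact Finset.sum_congr rfl fun x _ => by rw [Finset.mul_sum]
      · rw [Finset.mul_sum]
        exact Finset.sum_congr rfl fun x _ => by rw [Finset.mul_sum]
    · rw [sq, Finset.sum_mul_sum, Finset.mul_sum]
      exact Finset.sum_congr rfl fun x _ => by
        rw [Finset.mul_sum]
        exact Finset.sum_congr rfl fun y _ => by rw [abs_mul]
  rw [e1]
  -- diagonal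
  have hd : ((X.card : ℝ) - n) * (A - E) / ((z : ℝ) - 1) * ∑ x ∈ X, w x ^ 2
      ≤ ∑ x ∈ X, w x ^ 2 * pairN S I x x := by
    rw [Finset.mul_sum]
    refine Finset.sum_le_sum fun x hx => ?_
    rw [mul_comm]
    refine mul_le_mul_of_nonneg_left ?_ (sq_nonneg _)
    rw [div_le_iff₀ hz1, mul_comm (pairN S I x x)]
    exact diag_lower S X I σ z n h1 h3 A E hEA hAE x hx
  -- same fibre
  have hf : ∑ x ∈ X, ∑ y ∈ X, (if σ y = σ x then |w x * w y| else 0)
      ≤ n * ∑ x ∈ X, w x ^ 2 := by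
    have hp : ∑ x ∈ X, ∑ y ∈ X, (if σ y = σ x then |w x * w y| else 0)
        ≤ ∑ x ∈ X, ∑ y ∈ X, (if σ y = σ x then (w x ^ 2 + w y ^ 2) / 2 else 0) := by
      refine Finset.sum_le_sum fun x _ => Finset.sum_le_sum fun y _ => ?_
      split_ifs
      · rw [abs_mul]
        nlinarith [sq_nonneg (|w x| - |w y|), sq_abs (w x), sq_abs (w y)]
      · exact le_refl _
    have hq : ∑ x ∈ X, ∑ y ∈ X, (if σ y = σ x then (w x ^ 2 + w y ^ 2) / 2 else 0)
        = ∑ x ∈ X, ∑ y ∈ X, (if σ y = σ x then w x ^ 2 else 0) := by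
      have hq1 : ∑ x ∈ X, ∑ y ∈ X, (if σ y = σ x then (w x ^ 2 + w y ^ 2) / 2 else 0)
          = (∑ x ∈ X, ∑ y ∈ X, (if σ y = σ x then w x ^ 2 else 0)
            + ∑ x ∈ X, ∑ y ∈ X, (if σ y = σ x then w y ^ 2 else 0)) / 2 := by
        rw [← Finset.sum_add_distrib, Finset.sum_div]
        refine Finset.sum_congr rfl fun x _ => ?_
        rw [← Finset.sum_add_distrib, Finset.sum_div]
        refine Finset.sum_congr rfl fun y _ => ?_
        split_ifs <;> ring
      have hq2 : ∑ x ∈ X, ∑ y ∈ X, (if σ y = σ x then w y ^ 2 else 0)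
          = ∑ x ∈ X, ∑ y ∈ X, (if σ y = σ x then w x ^ 2 else 0) := by
        rw [Finset.sum_comm]
        refine Finset.sum_congr rfl fun x _ => Finset.sum_congr rfl fun y _ => ?_
        by_cases h : σ x = σ y
        · rw [if_pos h, if_pos h.symm]
        · rw [if_neg h, if_neg (fun h' => h h'.symm)]
      rw [hq1, hq2]
      ring
    refine le_trans hp ?_
    rw [hq, Finset.mul_sum]
    refine Finset.sum_le_sum fun x hx => ?_
    rw [← Finset.sum_filter, Finset.sum_const, nsmul_eq_mul]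
    refine mul_le_mul_of_nonneg_right ?_ (sq_nonneg _)
    exact_mod_cast h3 x hx
  -- error term
  have he : (∑ x ∈ X, |w x|) ^ 2 ≤ X.card * ∑ x ∈ X, w x ^ 2 := by
    have := sq_sum_le_card_mul_sum_sq (s := X) (f := fun x => |w x|)
    simpa [sq_abs] using this
  have hsq : 0 ≤ (∑ x ∈ X, w x) ^ 2 := sq_nonneg _
  nlinarith [mul_le_mul_of_nonneg_left hf hA, mul_le_mul_of_nonneg_left he hE,
    mul_nonneg hA hsq]

/-- The lower bound for the number of points. -/
lemma card_lower (S : Finset V) (X : Finset Pt) (I : V → Pt → Prop)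
    [∀ v x, Decidable (I v x)]
    (σ : Pt → ι) (z T : ℕ) (h1 : ∀ v ∈ S, (X.filter (I v)).card = z)
    (h2 : ∀ v ∈ S, ∀ x ∈ X, ∀ y ∈ X, I v x → I v y → σ x = σ y → x = y)
    (A E : ℝ) (hz : 2 ≤ z)
    (hAE : ∀ x ∈ X, ∀ y ∈ X, σ x ≠ σ y → |pairN S I x y - A| ≤ E)
    (h4 : ∀ x ∈ X, ∀ y ∈ X, ∀ t ∈ X, σ x ≠ σ y → σ x ≠ σ t → σ y ≠ σ t →
      (S.filter (fun v => I v x ∧ I v y ∧ I v t)).card ≤ T)
    (x y : Pt) (hx : x ∈ X) (hy : y ∈ X) (hxy : σ x ≠ σ y) :
    ((z : ℝ) - 2) * (A - E) ≤ X.card * T := by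
  have hN := (abs_le.mp (hAE x hx y hy hxy)).1
  have hz2 : (0 : ℝ) ≤ (z : ℝ) - 2 := by
    have : (2 : ℝ) ≤ z := by exact_mod_cast hz
    linarith
  have hcount : ∑ t ∈ X, (S.filter (fun v => I v x ∧ I v y ∧ I v t)).card
      = z * (S.filter (fun v => I v x ∧ I v y)).card := by
    have : ∀ t ∈ X, (S.filter (fun v => I v x ∧ I v y ∧ I v t)).card
        = ∑ v ∈ S.filter (fun v => I v x ∧ I v y), if I v t then 1 else 0 := by
      intro t _
      rw [← Finset.card_filter, Finset.filter_filter]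
      congr 1
      ext v
      simp only [Finset.mem_filter, and_assoc]
    rw [Finset.sum_congr rfl this, Finset.sum_comm, Finset.card_eq_sum_ones, Finset.mul_sum]
    refine Finset.sum_congr rfl fun v hv => ?_
    rw [← Finset.card_filter, h1 v (Finset.mem_filter.mp hv).1, mul_one]
  have hle : ∀ t ∈ X, (S.filter (fun v => I v x ∧ I v y ∧ I v t)).card
      ≤ T + ((if t = x then (S.filter (fun v => I v x ∧ I v y)).card else 0)
        + (if t = y then (S.filter (fun v => I v x ∧ I v y)).card else 0)) := by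
    intro t ht
    by_cases htx : t = x
    · subst htx
      simp only [if_true]
      have : (S.filter (fun v => I v t ∧ I v y ∧ I v t)).card
          ≤ (S.filter (fun v => I v t ∧ I v y)).card :=
        Finset.card_le_card (fun v hv => by
          simp only [Finset.mem_filter] at hv ⊢
          exact ⟨hv.1, hv.2.1, hv.2.2.1⟩)
      omega
    by_cases hty : t = y
    · subst hty
      simp only [if_true]
      have : (S.filter (fun v => I v x ∧ I v t ∧ I v t)).card
          ≤ (S.filter (fun v => I v x ∧ I v t)).card :=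
        Finset.card_le_card (fun v hv => by
          simp only [Finset.mem_filter] at hv ⊢
          exact ⟨hv.1, hv.2.1, hv.2.2.1⟩)
      omega
    rw [if_neg htx, if_neg hty]
    by_cases hsx : σ x = σ t
    · have : (S.filter (fun v => I v x ∧ I v y ∧ I v t)) = ∅ := by
        rw [Finset.filter_eq_empty_iff]
        rintro v hv ⟨ha, _, hc⟩
        exact htx (h2 v hv x hx t ht ha hc hsx).symm
      rw [this, Finset.card_empty]
      exact Nat.zero_le _
    by_cases hsy : σ y = σ t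
    · have : (S.filter (fun v => I v x ∧ I v y ∧ I v t)) = ∅ := by
        rw [Finset.filter_eq_empty_iff]
        rintro v hv ⟨_, hb, hc⟩
        exact hty (h2 v hv y hy t ht hb hc hsy).symm
      rw [this, Finset.card_empty]
      exact Nat.zero_le _
    have := h4 x hx y hy t ht hxy hsx hsy
    omega
  have hsum := Finset.sum_le_sum hle
  rw [hcount, Finset.sum_add_distrib, Finset.sum_add_distrib, Finset.sum_const,
    Finset.sum_ite_eq', Finset.sum_ite_eq', if_pos hx, if_pos hy, smul_eq_mul] at hsum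
  have hr : (z : ℝ) * pairN S I x y ≤ X.card * T + (pairN S I x y + pairN S I x y) := by
    unfold pairN
    exact_mod_cast hsum
  nlinarith

end Abstract

/-! ### The concrete situation -/

lemma eval_eval_eq {K : Type*} [Field K] (χ : K[X][X]) (P : K[X]) (s : K) :
    (χ.eval P).eval s = χ.evalEval s (P.eval s) := by
  rw [← Polynomial.eval₂_evalRingHom]
  have h := Polynomial.hom_eval₂ χ (RingHom.id K[X]) (evalRingHom s) P
  rw [Polynomial.eval₂_id] at h
  simpa using h

section Concrete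

variable {K : Type} [Field K] [Fintype K] [DecidableEq K]

open Classical in
/-- The good points. -/
noncomputable def goodSet (χ : K[X][X]) : Finset (K × K) :=
  Finset.univ.filter (fun x => Good χ x.1 x.2)

open Classical in
/-- The split parabolas. -/
noncomputable def splitSet (χ : K[X][X]) (z : ℕ) : Finset (Fin 5 → K) :=
  Finset.univ.filter (fun v => SplitGood χ z (poly5 v))

omit [DecidableEq K] in
lemma mem_goodSet (χ : K[X][X]) (x : K × K) : x ∈ goodSet χ ↔ Good χ x.1 x.2 := by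
  simp [goodSet]

omit [DecidableEq K] in
lemma mem_splitSet (χ : K[X][X]) (z : ℕ) (v : Fin 5 → K) :
    v ∈ splitSet χ z ↔ SplitGood χ z (poly5 v) := by
  simp [splitSet]

lemma filter_card (χ : K[X][X]) (z : ℕ) (v : Fin 5 → K) (hv : v ∈ splitSet χ z) :
    ((goodSet χ).filter (fun x => (poly5 v).eval x.1 = x.2)).card = z := by
  rw [mem_splitSet] at hv
  obtain ⟨⟨R, hR, hRm⟩, hg⟩ := hv
  have : (goodSet χ).filter (fun x => (poly5 v).eval x.1 = x.2)
      = R.map ⟨fun s => (s, (poly5 v).eval s), fun a b h => (Prod.ext_iff.mp h).1⟩ := by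
    ext x
    simp only [Finset.mem_filter, mem_goodSet, Finset.mem_map]
    constructor
    · rintro ⟨h1, h2⟩
      refine ⟨x.1, ?_, Prod.ext rfl h2⟩
      rw [hRm, eval_eval_eq, h2]
      exact h1.1
    · rintro ⟨s, hs, rfl⟩
      exact ⟨hg s ((hRm s).mp hs), rfl⟩
  rw [this, Finset.card_map, hR]

lemma fibre_card (χ : K[X][X]) (n z : ℕ) (hχ : IsCnz χ n z) (x : K × K) :
    ((goodSet χ).filter (fun y => y.1 = x.1)).card ≤ n := by
  have hm : (χ.map (evalRingHom x.1)).Monic := hχ.monic.map _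
  have hd : (χ.map (evalRingHom x.1)).natDegree = n := by
    rw [hχ.monic.natDegree_map, hχ.natDegree]
  have hle : ((goodSet χ).filter (fun y => y.1 = x.1)).card
      ≤ (χ.map (evalRingHom x.1)).roots.toFinset.card := by
    refine Finset.card_le_card_of_injOn (fun y => y.2) ?_ ?_
    · intro y hy
      rw [Finset.mem_coe, Finset.mem_filter, mem_goodSet] at hy
      rw [Finset.mem_coe, Multiset.mem_toFinset, mem_roots hm.ne_zero, IsRoot.def,
        eval_map, ← hy.2, Polynomial.eval₂_evalRingHom]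
      exact hy.1.1
    · intro y hy y' hy' h
      rw [Finset.mem_coe, Finset.mem_filter] at hy hy'
      exact Prod.ext (hy.2.trans hy'.2.symm) h
  refine hle.trans ((Multiset.toFinset_card_le _).trans ?_)
  rw [← hd]
  exact card_roots' _

omit [Fintype K] [DecidableEq K] in
lemma eval_poly5 (v : Fin 5 → K) (s : K) :
    (poly5 v).eval s = v 0 + v 1 * s + v 2 * s ^ 2 + v 3 * s ^ 3 + v 4 * s ^ 4 := by
  unfold poly5
  rw [Fin.sum_univ_five]
  simp

lemma three_points (S : Finset (Fin 5 → K)) (x y t : K × K) (hxy : x.1 ≠ y.1)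
    (hxt : x.1 ≠ t.1) (hyt : y.1 ≠ t.1) :
    (S.filter (fun v => (poly5 v).eval x.1 = x.2 ∧ (poly5 v).eval y.1 = y.2 ∧
      (poly5 v).eval t.1 = t.2)).card ≤ Fintype.card K ^ 2 := by
  have h : (S.filter (fun v => (poly5 v).eval x.1 = x.2 ∧ (poly5 v).eval y.1 = y.2 ∧
      (poly5 v).eval t.1 = t.2)).card ≤ (Finset.univ : Finset (K × K)).card := by
    refine Finset.card_le_card_of_injOn (fun v => (v 3, v 4)) (fun _ _ => Finset.mem_univ _) ?_
    intro v hv v' hv' h
    rw [Finset.mem_coe, Finset.mem_filter] at hv hv'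
    obtain ⟨_, a1, a2, a3⟩ := hv
    obtain ⟨_, b1, b2, b3⟩ := hv'
    simp only [Prod.mk.injEq] at h
    obtain ⟨h3, h4⟩ := h
    rw [eval_poly5] at a1 a2 a3 b1 b2 b3
    have d1 : (v 0 - v' 0) + (v 1 - v' 1) * x.1 + (v 2 - v' 2) * x.1 ^ 2 = 0 := by
      rw [h3, h4] at a1
      linear_combination a1 - b1
    have d2 : (v 0 - v' 0) + (v 1 - v' 1) * y.1 + (v 2 - v' 2) * y.1 ^ 2 = 0 := by
      rw [h3, h4] at a2
      linear_combination a2 - b2
    have d3 : (v 0 - v' 0) + (v 1 - v' 1) * t.1 + (v 2 - v' 2) * t.1 ^ 2 = 0 := by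
      rw [h3, h4] at a3
      linear_combination a3 - b3
    have e1 : (v 1 - v' 1) + (v 2 - v' 2) * (x.1 + y.1) = 0 := by
      have : (x.1 - y.1) * ((v 1 - v' 1) + (v 2 - v' 2) * (x.1 + y.1)) = 0 := by
        linear_combination d1 - d2
      rcases mul_eq_zero.mp this with h | h
      · exact absurd (sub_eq_zero.mp h) hxy
      · exact h
    have e2 : (v 1 - v' 1) + (v 2 - v' 2) * (x.1 + t.1) = 0 := by
      have : (x.1 - t.1) * ((v 1 - v' 1) + (v 2 - v' 2) * (x.1 + t.1)) = 0 := by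
        linear_combination d1 - d3
      rcases mul_eq_zero.mp this with h | h
      · exact absurd (sub_eq_zero.mp h) hxt
      · exact h
    have f2 : v 2 - v' 2 = 0 := by
      have : (y.1 - t.1) * (v 2 - v' 2) = 0 := by linear_combination e1 - e2
      rcases mul_eq_zero.mp this with h | h
      · exact absurd (sub_eq_zero.mp h) hyt
      · exact h
    have f1 : v 1 - v' 1 = 0 := by
      rw [f2] at e1
      simpa using e1
    have f0 : v 0 - v' 0 = 0 := by
      rw [f2, f1] at d1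
      simpa using d1
    ext i
    fin_cases i
    · exact sub_eq_zero.mp f0
    · exact sub_eq_zero.mp f1
    · exact sub_eq_zero.mp f2
    · exact h3
    · exact h4
  refine h.trans (le_of_eq ?_)
  rw [Finset.card_univ, Fintype.card_prod, sq]

/-- A good point with a third value of `s`. -/
lemma exists_third (χ : K[X][X]) (n z : ℕ) (hχ : IsCnz χ n z)
    (hX : 2 * n + 1 ≤ (goodSet χ).card) (x y : K × K) :
    ∃ t ∈ goodSet χ, x.1 ≠ t.1 ∧ y.1 ≠ t.1 := by
  by_contra hcon
  push Not at hcon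
  have hsub : goodSet χ ⊆ (goodSet χ).filter (fun t => t.1 = x.1) ∪
      (goodSet χ).filter (fun t => t.1 = y.1) := by
    intro t ht
    rw [Finset.mem_union, Finset.mem_filter, Finset.mem_filter]
    by_cases h : x.1 = t.1
    · exact Or.inl ⟨ht, h.symm⟩
    · exact Or.inr ⟨ht, (hcon t ht h).symm⟩
  have h1 := Finset.card_le_card hsub
  have h2 := Finset.card_union_le ((goodSet χ).filter (fun t => t.1 = x.1))
    ((goodSet χ).filter (fun t => t.1 = y.1))
  have h3 := fibre_card χ n z hχ x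
  have h4 := fibre_card χ n z hχ y
  omega

lemma pairN_eq (χ : K[X][X]) (z : ℕ) (x y : K × K) :
    pairN (splitSet χ z) (fun v (x : K × K) => (poly5 v).eval x.1 = x.2) x y
      = ((Nat.card {v : Fin 5 → K // SplitGood χ z (poly5 v) ∧ (poly5 v).eval x.1 = x.2 ∧
          (poly5 v).eval y.1 = y.2} : ℕ) : ℝ) := by
  unfold pairN
  congr 1
  refine (Nat.subtype_card _ fun v => ?_).symm
  rw [Finset.mem_filter, mem_splitSet]

lemma sum_reduce (χ : K[X][X]) (w : K × K → ℝ)
    (hw : ∀ x, ¬ Good χ x.1 x.2 → w x = 0) (v : Fin 5 → K) :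
    (∑ s : K, (if χ.evalEval s ((poly5 v).eval s) = 0 then w (s, (poly5 v).eval s)
            else 0)) = ∑ x ∈ goodSet χ, if (poly5 v).eval x.1 = x.2 then w x else 0 := by
  have h1 : ∀ s : K, (if χ.evalEval s ((poly5 v).eval s) = 0 then w (s, (poly5 v).eval s)
            else 0) = w (s, (poly5 v).eval s) := by
    intro s
    split_ifs with h
    · rfl
    · rw [hw]
      intro hg
      exact h hg.1
  have h2 : ∑ x ∈ goodSet χ, (if (poly5 v).eval x.1 = x.2 then w x else 0)
      = ∑ x : K × K, (if (poly5 v).eval x.1 = x.2 then w x else 0) := by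
    refine Finset.sum_subset (Finset.subset_univ _) fun x _ hx => ?_
    rw [mem_goodSet] at hx
    rw [hw x hx]
    simp
  rw [h2, Fintype.sum_prod_type]
  refine Finset.sum_congr rfl fun s _ => ?_
  rw [h1 s]
  simp

lemma sum_sq_reduce (χ : K[X][X]) (w : K × K → ℝ)
    (hw : ∀ x, ¬ Good χ x.1 x.2 → w x = 0) :
    ∑ x, w x ^ 2 = ∑ x ∈ goodSet χ, w x ^ 2 := by
  symm
  refine Finset.sum_subset (Finset.subset_univ _) fun x _ hx => ?_
  rw [mem_goodSet] at hx
  rw [hw x hx]
  simp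

lemma rhs_reduce (χ : K[X][X]) (z : ℕ) (w : K × K → ℝ)
    (hw : ∀ x, ¬ Good χ x.1 x.2 → w x = 0) :
    (∑ v : Fin 5 → K, (open Classical in if SplitGood χ z (poly5 v) then
          (∑ s : K, (if χ.evalEval s ((poly5 v).eval s) = 0 then w (s, (poly5 v).eval s)
            else 0)) ^ 2 else 0))
      = ∑ v ∈ splitSet χ z,
          (∑ x ∈ goodSet χ, if (poly5 v).eval x.1 = x.2 then w x else 0) ^ 2 := by
  unfold splitSet
  rw [Finset.sum_filter]
  refine Finset.sum_congr rfl fun v _ => ?_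
  split_ifs with h
  · rw [sum_reduce χ w hw v]
  · rfl

end Concrete

/-! ### Numerics -/

/-- The numerical part: with `Q = q ^ 2`, `A = a q ^ 6`, `E = B q ^ 5`. -/
lemma numerics (a B q N : ℝ) (n z : ℕ) (hz : 16 ≤ z) (ha : 0 < a) (hB : 0 < B) (hq1 : 1 ≤ q)
    (hq2 : 2 * B / a ≤ q) (hq3 : 4 * n / a ≤ q)
    (hq4 : (n * a + n * B) / ((z - 2) * a ^ 2 / (16 * (z - 1))) ≤ q)
    (hN1 : ((z : ℝ) - 2) * (a * q ^ 6 - B * q ^ 5) ≤ N * (q ^ 2) ^ 2)
    (hN2 : N ≤ n * q ^ 2) :
    ((z - 2) * a ^ 2 / (16 * (z - 1))) * q ^ 8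
      ≤ (N - n) * (a * q ^ 6 - B * q ^ 5) / ((z : ℝ) - 1) - n * (a * q ^ 6)
        - N * (B * q ^ 5) := by
  have hzr : (16 : ℝ) ≤ z := by exact_mod_cast hz
  have hz1 : (0 : ℝ) < (z : ℝ) - 1 := by linarith
  have hz2 : (0 : ℝ) < (z : ℝ) - 2 := by linarith
  have hn0 : (0 : ℝ) ≤ n := Nat.cast_nonneg _
  have hq0 : 0 < q := by linarith
  have h1 : B ≤ a * q / 2 := by
    rw [div_le_iff₀ ha] at hq2
    linarith
  have h2 : (n : ℝ) ≤ a * q / 4 := by
    rw [div_le_iff₀ ha] at hq3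
    linarith
  -- A - E >= a q^6 / 2
  have h3 : a * q ^ 6 / 2 ≤ a * q ^ 6 - B * q ^ 5 := by
    have : B * q ^ 5 ≤ (a * q / 2) * q ^ 5 :=
      mul_le_mul_of_nonneg_right h1 (by positivity)
    nlinarith
  -- N >= (z-2) a q^2 / 2
  have h4 : ((z : ℝ) - 2) * (a * q ^ 2 / 2) ≤ N := by
    have h5 : ((z : ℝ) - 2) * (a * q ^ 6 / 2) ≤ N * (q ^ 2) ^ 2 :=
      (mul_le_mul_of_nonneg_left h3 hz2.le).trans hN1
    have h6 : ((z : ℝ) - 2) * (a * q ^ 2 / 2) * (q ^ 2) ^ 2 ≤ N * (q ^ 2) ^ 2 := by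
      calc _ = ((z : ℝ) - 2) * (a * q ^ 6 / 2) := by ring
        _ ≤ _ := h5
    exact le_of_mul_le_mul_right h6 (by positivity)
  -- N - n >= (z-2) a q^2 / 4
  have h7 : ((z : ℝ) - 2) * (a * q ^ 2 / 4) ≤ N - n := by
    have h8 : (n : ℝ) ≤ ((z : ℝ) - 2) * (a * q ^ 2 / 4) := by
      have h9 : a * q / 4 ≤ a * q ^ 2 / 4 := by nlinarith [mul_pos ha hq0]
      have h10 : a * q ^ 2 / 4 ≤ ((z : ℝ) - 2) * (a * q ^ 2 / 4) := by
        have : 0 ≤ a * q ^ 2 / 4 := by positivity
        nlinarith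
      linarith
    nlinarith
  set c : ℝ := (z - 2) * a ^ 2 / (16 * (z - 1)) with hc
  have hcpos : 0 < c := by positivity
  have h11 : n * a + n * B ≤ c * q := by
    rw [div_le_iff₀ hcpos] at hq4
    linarith
  have h12 : 2 * c * q ^ 8 ≤ (N - n) * (a * q ^ 6 - B * q ^ 5) / ((z : ℝ) - 1) := by
    rw [le_div_iff₀ hz1]
    have h13 : (((z : ℝ) - 2) * (a * q ^ 2 / 4)) * (a * q ^ 6 / 2)
        ≤ (N - n) * (a * q ^ 6 - B * q ^ 5) := by
      apply mul_le_mul h7 h3 (by positivity)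
      exact le_trans (by positivity) h7
    refine le_trans (le_of_eq ?_) h13
    rw [hc]
    field_simp
    ring
  have h14 : n * (a * q ^ 6) + N * (B * q ^ 5) ≤ c * q ^ 8 := by
    have h15 : N * (B * q ^ 5) ≤ n * q ^ 2 * (B * q ^ 5) :=
      mul_le_mul_of_nonneg_right hN2 (by positivity)
    have h16 : n * (a * q ^ 6) ≤ n * a * q ^ 7 := by
      have : q ^ 6 ≤ q ^ 7 := pow_le_pow_right₀ hq1 (by norm_num)
      have h17 := mul_le_mul_of_nonneg_left this (mul_nonneg hn0 ha.le)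
      linarith
    have h18 : (n * a + n * B) * q ^ 7 ≤ c * q * q ^ 7 :=
      mul_le_mul_of_nonneg_right h11 (by positivity)
    nlinarith
  linarith

/-- M3b, from the pair counts (M3a) as a hypothesis. -/
theorem M3b_of_pairs (p n z : ℕ) [Fact p.Prime] (hn : 2 ≤ n) (h8 : 8 * n ≤ z)
    (hM3a : ∃ B : ℝ, 0 < B ∧ ∃ Q₀ : ℕ, ∀ (K : Type) [Field K] [Fintype K] [CharP K p] (m : ℕ),
      Fintype.card K = (p ^ m) ^ 2 → Q₀ ≤ Fintype.card K → ∀ χ : K[X][X], IsCnz χ n z →
      ∀ s1 s2 sy y1 y2 yy : K, s1 ≠ s2 → s1 ≠ sy → s2 ≠ sy →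
      Good χ s1 y1 → Good χ s2 y2 → Good χ sy yy →
      |((Nat.card {v : Fin 5 → K // SplitGood χ z (poly5 v) ∧ (poly5 v).eval s1 = y1 ∧
          (poly5 v).eval s2 = y2} : ℕ) : ℝ) - (Fintype.card K : ℝ) ^ 3 / ((z - 2).factorial : ℝ)|
        ≤ B * (Fintype.card K : ℝ) ^ (5 / 2 : ℝ)) :
    ∃ c : ℝ, 0 < c ∧ ∃ Q₀ : ℕ, ∀ (K : Type) [Field K] [Fintype K] [DecidableEq K] [CharP K p]
      (m : ℕ), Fintype.card K = (p ^ m) ^ 2 → Q₀ ≤ Fintype.card K → ∀ χ : K[X][X],
      IsCnz χ n z → 2 * n + 1 ≤ Nat.card {x : K × K // Good χ x.1 x.2} →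
      ∀ w : K × K → ℝ, (∀ x, ¬ Good χ x.1 x.2 → w x = 0) →
      c * (Fintype.card K : ℝ) ^ 4 * ∑ x, w x ^ 2 ≤
        ∑ v : Fin 5 → K, (open Classical in if SplitGood χ z (poly5 v) then
          (∑ s : K, (if χ.evalEval s ((poly5 v).eval s) = 0 then w (s, (poly5 v).eval s)
            else 0)) ^ 2 else 0) := by
  obtain ⟨B, hB, Q₁, hM⟩ := hM3a
  have hz : 16 ≤ z := by omega
  have hzr : (16 : ℝ) ≤ z := by exact_mod_cast hz
  have hz1 : (0 : ℝ) < (z : ℝ) - 1 := by linarith
  have hz2 : (0 : ℝ) < (z : ℝ) - 2 := by linarith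
  set a : ℝ := 1 / ((z - 2).factorial : ℝ) with ha
  have hapos : 0 < a := by positivity
  set c : ℝ := (z - 2) * a ^ 2 / (16 * (z - 1)) with hc
  have hcpos : 0 < c := by positivity
  obtain ⟨q₀, hq₀⟩ := exists_nat_ge (max 1 (max (2 * B / a) (max (4 * n / a)
    ((n * a + n * B) / c))))
  refine ⟨c, hcpos, max Q₁ (q₀ ^ 2), ?_⟩
  intro K _ _ _ _ m hcard hQ χ hχ hX w hw
  have hQ1 : Q₁ ≤ Fintype.card K := le_trans (le_max_left _ _) hQ
  have hQ2 : q₀ ^ 2 ≤ (p ^ m) ^ 2 := hcard ▸ le_trans (le_max_right _ _) hQ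
  have hq : q₀ ≤ p ^ m := (Nat.pow_le_pow_iff_left (by norm_num)).mp hQ2
  set q : ℝ := ((p ^ m : ℕ) : ℝ) with hqdef
  have hqq : (q₀ : ℝ) ≤ q := by
    rw [hqdef]
    exact_mod_cast hq
  have hqmax := hq₀.trans hqq
  have hq1 : 1 ≤ q := le_trans (le_max_left _ _) hqmax
  have hq2 : 2 * B / a ≤ q := le_trans (le_trans (le_max_left _ _) (le_max_right _ _)) hqmax
  have hq3 : 4 * n / a ≤ q :=
    le_trans (le_trans (le_trans (le_max_left _ _) (le_max_right _ _)) (le_max_right _ _)) hqmax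
  have hq4 : (n * a + n * B) / c ≤ q :=
    le_trans (le_trans (le_trans (le_max_right _ _) (le_max_right _ _)) (le_max_right _ _)) hqmax
  have hq0 : 0 < q := by linarith
  have hcardR : (Fintype.card K : ℝ) = q ^ 2 := by
    rw [hcard, hqdef]
    push_cast
    ring
  have hpow : (Fintype.card K : ℝ) ^ (5 / 2 : ℝ) = q ^ 5 := by
    rw [hcardR, ← Real.rpow_natCast q 2, ← Real.rpow_mul hq0.le, ← Real.rpow_natCast q 5]
    norm_num
  have hXcard : (goodSet χ).card = Nat.card {x : K × K // Good χ x.1 x.2} := by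
    symm
    refine Nat.subtype_card _ fun x => ?_
    rw [mem_goodSet]
  have hX' : 2 * n + 1 ≤ (goodSet χ).card := by rw [hXcard]; exact hX
  have hAE : ∀ x ∈ goodSet χ, ∀ y ∈ goodSet χ, x.1 ≠ y.1 →
      |pairN (splitSet χ z) (fun v (x : K × K) => (poly5 v).eval x.1 = x.2) x y
        - a * q ^ 6| ≤ B * q ^ 5 := by
    intro x hx y hy hxy
    obtain ⟨t, ht, hxt, hyt⟩ := exists_third χ n z hχ hX' x y
    rw [mem_goodSet] at hx hy ht
    have h := hM K m hcard hQ1 χ hχ x.1 y.1 t.1 x.2 y.2 t.2 hxy hxt hyt hx hy ht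
    rw [hpow, hcardR] at h
    rw [pairN_eq]
    have hA : (q ^ 2) ^ 3 / ((z - 2).factorial : ℝ) = a * q ^ 6 := by
      rw [ha]
      ring
    rw [hA] at h
    exact h
  have h1 : ∀ v ∈ splitSet χ z,
      ((goodSet χ).filter (fun x => (poly5 v).eval x.1 = x.2)).card = z :=
    fun v hv => filter_card χ z v hv
  have h2 : ∀ v ∈ splitSet χ z, ∀ x ∈ goodSet χ, ∀ y ∈ goodSet χ, (poly5 v).eval x.1 = x.2 →
      (poly5 v).eval y.1 = y.2 → x.1 = y.1 → x = y := by
    intro v _ x _ y _ ha hb hxy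
    refine Prod.ext hxy ?_
    rw [← ha, ← hb, hxy]
  have h3 : ∀ x ∈ goodSet χ, ((goodSet χ).filter (fun y => y.1 = x.1)).card ≤ n :=
    fun x _ => fibre_card χ n z hχ x
  have h4 : ∀ x ∈ goodSet χ, ∀ y ∈ goodSet χ, ∀ t ∈ goodSet χ, x.1 ≠ y.1 → x.1 ≠ t.1 →
      y.1 ≠ t.1 → ((splitSet χ z).filter (fun v => (poly5 v).eval x.1 = x.2 ∧
        (poly5 v).eval y.1 = y.2 ∧ (poly5 v).eval t.1 = t.2)).card ≤ Fintype.card K ^ 2 :=
    fun x _ y _ t _ hxy hxt hyt => three_points _ x y t hxy hxt hyt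
  -- two points with different s
  obtain ⟨x0, hx0⟩ : (goodSet χ).Nonempty := by
    rw [← Finset.card_pos]
    omega
  obtain ⟨y0, hy0, hxy0, _⟩ := exists_third χ n z hχ hX' x0 x0
  have hN1 := card_lower (splitSet χ z) (goodSet χ)
    (fun v (x : K × K) => (poly5 v).eval x.1 = x.2) (fun x => x.1) z (Fintype.card K ^ 2) h1 h2
    (a * q ^ 6) (B * q ^ 5) (by omega) hAE h4 x0 y0 hx0 hy0 hxy0
  have hN2 : ((goodSet χ).card : ℝ) ≤ n * q ^ 2 := by
    have : (goodSet χ).card ≤ n * Fintype.card K := by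
      have h := Finset.card_le_mul_card_image (s := goodSet χ) (f := fun x => x.1) n
        (fun b hb => by
          obtain ⟨x, hx, rfl⟩ := Finset.mem_image.mp hb
          exact h3 x hx)
      refine h.trans ?_
      exact Nat.mul_le_mul_left _ (Finset.card_le_univ _)
    rw [← hcardR]
    exact_mod_cast this
  have hnum := numerics a B q ((goodSet χ).card : ℝ) n z hz hapos hB hq1 hq2 hq3 hq4
    (by
      have : (((Fintype.card K ^ 2 : ℕ) : ℝ)) = (q ^ 2) ^ 2 := by
        push_cast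
        rw [hcardR]
      rw [this] at hN1
      exact hN1) hN2
  have hEA : B * q ^ 5 ≤ a * q ^ 6 := by
    have h5 : B ≤ a * q := by
      rw [div_le_iff₀ hapos] at hq2
      nlinarith
    calc B * q ^ 5 ≤ a * q * q ^ 5 := mul_le_mul_of_nonneg_right h5 (by positivity)
      _ = a * q ^ 6 := by ring
  have habs := abstract_lower (splitSet χ z) (goodSet χ)
    (fun v (x : K × K) => (poly5 v).eval x.1 = x.2) (fun x => x.1) z n (by omega) h1 h2 h3
    (a * q ^ 6) (B * q ^ 5) (by positivity) hEA hAE w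
  rw [rhs_reduce χ z w hw, sum_sq_reduce χ w hw, hcardR]
  refine le_trans ?_ habs
  refine mul_le_mul_of_nonneg_right ?_ (Finset.sum_nonneg fun x _ => sq_nonneg _)
  refine le_trans (le_of_eq ?_) hnum
  ring

end Pool.Agent.K1
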