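import Pool.Agent.K1.Defs
import Pool.Agent.K1.M3b
import Pool.Agent.H20.Par.Core

/-!
The combinatorial core: the numbers `ψ` of a point depend only on the point.
-/

open Polynomial

namespace Pool.Agent.K1

section aux

variable {K : Type*} [Field K]

theorem M4.eval_eval_eq (χ : K[X][X]) (P : K[X]) (s : K) :
    (χ.eval P).eval s = χ.evalEval s (P.eval s) := by
  induction χ using Polynomial.induction_on' with
  | add p q hp hq => simp only [eval_add, evalEval_add, hp, hq]
  | monomial n a => simp [evalEval, eval_monomial, eval_mul, eval_pow]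

theorem M4.poly5_eval (v : Fin 5 → K) (s : K) : (poly5 v).eval s = ∑ i : Fin 5, v i * s ^ (i : ℕ) := by
  simp [poly5, eval_finsetSum]

/-- The value at `s` is linear in the coefficient vector. -/
noncomputable def M4.phi (t : K × K × K) : K × (Fin 5 → K) →ₗ[K] K where
  toFun C := C.1 * t.2.1 + (poly5 C.2).eval t.1
  map_add' C D := by
    simp only [M4.poly5_eval, Prod.fst_add, Prod.snd_add, Pi.add_apply, add_mul,
      Finset.sum_add_distrib]
    ring
  map_smul' a C := by
    simp only [M4.poly5_eval, Prod.smul_fst, Prod.smul_snd, Pi.smul_apply, smul_eq_mul,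
      RingHom.id_apply, mul_add, Finset.mul_sum, mul_assoc]

theorem M4.phi_apply (t : K × K × K) (C : K × (Fin 5 → K)) :
    M4.phi t C = C.1 * t.2.1 + (poly5 C.2).eval t.1 := rfl

theorem M4.phi_ne_zero (t : K × K × K) : M4.phi t ≠ 0 := by
  intro h
  have h1 : M4.phi t (0, Pi.single 0 1) = 0 := by rw [h]; rfl
  rw [M4.phi_apply, M4.poly5_eval] at h1
  simp [Fin.sum_univ_succ] at h1

theorem M4.card_good_of_split [Fintype K] (χ : K[X][X]) (z : ℕ) (P : K[X]) (h : SplitGood χ z P) :
    z ≤ Nat.card {x : K × K // Good χ x.1 x.2} := by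
  classical
  obtain ⟨⟨R, hR, hmem⟩, hg⟩ := h
  have : Function.Injective (fun s : {s // s ∈ R} =>
      (⟨(s.1, P.eval s.1), hg s.1 ((hmem s.1).1 s.2)⟩ : {x : K × K // Good χ x.1 x.2})) := by
    intro s s' hss
    have := congrArg (fun x : {x : K × K // Good χ x.1 x.2} => x.1.1) hss
    exact Subtype.ext this
  have h2 := Nat.card_le_card_of_injective _ this
  simpa [hR] using h2

end aux

section main

variable {K : Type} [Field K] [Fintype K] [DecidableEq K]

theorem M4.aux (n z : ℕ) (hz : 2 * n + 1 ≤ z) (c : ℝ)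
    (hQ : 8 * (z : ℝ) * (1 + z) < ((Fintype.card K : ℝ) - 1) * c) (h2z : 2 * z ≤ Fintype.card K)
    (χ : K → (Fin 5 → K) → K[X][X])
    (hM3b : ∀ β v, 2 * n + 1 ≤ Nat.card {x : K × K // Good (χ β v) x.1 x.2} →
      ∀ w : K × K → ℝ, (∀ x, ¬ Good (χ β v) x.1 x.2 → w x = 0) →
      c * (Fintype.card K : ℝ) ^ 4 * ∑ x, w x ^ 2 ≤
        ∑ u : Fin 5 → K, (open Classical in if SplitGood (χ β v) z (poly5 u) then
          (∑ s : K, (if (χ β v).evalEval s ((poly5 u).eval s) = 0 then w (s, (poly5 u).eval s)
            else 0)) ^ 2 else 0))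
    (ψ : K → (Fin 5 → K) → K × K → ℚ)
    (h1 : ∀ β v β' w, SplitGood (χ β v) z (poly5 w) →
        SplitGood (χ β' (v + (β - β') • w)) z (poly5 w) →
        (∀ s, (χ β v).evalEval s ((poly5 w).eval s) = 0 ↔
          (χ β' (v + (β - β') • w)).evalEval s ((poly5 w).eval s) = 0) ∧
        ∑ s : K, (if (χ β v).evalEval s ((poly5 w).eval s) = 0
          then ψ β v (s, (poly5 w).eval s) else 0)
        = ∑ s : K, (if (χ β v).evalEval s ((poly5 w).eval s) = 0
          then ψ β' (v + (β - β') • w) (s, (poly5 w).eval s) else 0))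
    (h2 : ∀ β v w, SplitGood (χ β v) z (poly5 w) →
        Nat.card {β' : K // ¬ SplitGood (χ β' (v + (β - β') • w)) z (poly5 w)} ≤ z) :
    ∀ β v β' v' s y, Good (χ β v) s y → Good (χ β' v') s y →
        β * y + (poly5 v).eval s = β' * y + (poly5 v').eval s →
        2 * n + 1 ≤ Nat.card {x : K × K // Good (χ β v) x.1 x.2} →
        2 * n + 1 ≤ Nat.card {x : K × K // Good (χ β' v') x.1 x.2} →
        ψ β v (s, y) = ψ β' v' (s, y) := by
  classical
  set Q : ℝ := (Fintype.card K : ℝ) with hQdef
  have hQ1 : (1 : ℝ) ≤ Q := by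
    rw [hQdef]; exact_mod_cast Fintype.card_pos
  -- incidence
  set inc : K × K × K → K × (Fin 5 → K) → Prop := fun t C =>
    C.1 * t.2.1 + (poly5 C.2).eval t.1 = t.2.2 ∧ Good (χ C.1 C.2) t.1 t.2.1 ∧
      2 * n + 1 ≤ Nat.card {x : K × K // Good (χ C.1 C.2) x.1 x.2} with hinc
  set avg : K × K × K → ℝ := fun t =>
    (∑ C ∈ Finset.univ.filter (fun C => inc t C), (ψ C.1 C.2 (t.1, t.2.1) : ℝ)) /
      ((Finset.univ.filter (fun C => inc t C)).card : ℝ) with havg
  set δ : K × K × K → K × (Fin 5 → K) → ℝ := fun t C =>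
    if inc t C then (ψ C.1 C.2 (t.1, t.2.1) : ℝ) - avg t else 0 with hδ
  set W : K × (Fin 5 → K) → (Fin 5 → K) := fun r => -(r.1⁻¹ • r.2) with hW
  set ts : K × (Fin 5 → K) → K × (Fin 5 → K) → Prop := fun C r =>
    r.1 ≠ 0 ∧ SplitGood (χ C.1 C.2) z (poly5 (W r)) with hts
  set pt : K × (Fin 5 → K) → (Fin 5 → K) → K → K × K × K := fun C w s =>
    (s, (poly5 w).eval s, C.1 * (poly5 w).eval s + (poly5 C.2).eval s) with hpt
  set L : K × (Fin 5 → K) → K × (Fin 5 → K) → Finset (K × K × K) := fun C r =>
    (Finset.univ.filter (fun s : K => (χ C.1 C.2).evalEval s ((poly5 (W r)).eval s) = 0)).image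
      (pt C (W r)) with hL
  have hptinj : ∀ C w, Function.Injective (pt C w) := by
    intro C w s s' h
    exact congrArg Prod.fst h
  have hLsum : ∀ C r (f : K × K × K → ℝ), ∑ x ∈ L C r, f x
      = ∑ s ∈ Finset.univ.filter
          (fun s : K => (χ C.1 C.2).evalEval s ((poly5 (W r)).eval s) = 0), f (pt C (W r) s) := by
    intro C r f
    rw [hL]
    exact Finset.sum_image (fun a _ b _ h => hptinj C (W r) h)
  -- the linear relation of the pencil
  have hWlin : ∀ r : K × (Fin 5 → K), r.1 ≠ 0 → ∀ s : K,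
      r.1 * (poly5 (W r)).eval s + (poly5 r.2).eval s = 0 := by
    intro r hr s
    have e1 : (poly5 (W r)).eval s = -(r.1⁻¹ * (poly5 r.2).eval s) := by
      rw [M4.poly5_eval, M4.poly5_eval, Finset.mul_sum, ← Finset.sum_neg_distrib]
      refine Finset.sum_congr rfl fun i _ => ?_
      simp only [hW, Pi.neg_apply, Pi.smul_apply, smul_eq_mul]
      ring
    rw [e1]
    field_simp
    ring
  have hkey : ∀ C r : K × (Fin 5 → K), r.1 ≠ 0 → ∀ (τ s : K),
      (C + τ • r).1 * (poly5 (W r)).eval s + (poly5 (C + τ • r).2).eval s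
        = C.1 * (poly5 (W r)).eval s + (poly5 C.2).eval s := by
    intro C r hr τ s
    have e1 := hWlin r hr s
    have e2 := (M4.phi (s, (poly5 (W r)).eval s, 0)).map_add C (τ • r)
    have e3 := (M4.phi (s, (poly5 (W r)).eval s, 0)).map_smul τ r
    rw [e3] at e2
    simp only [M4.phi_apply, smul_eq_mul] at e2
    rw [e1, mul_zero, add_zero] at e2
    exact e2
  have hmember : ∀ C r : K × (Fin 5 → K), r.1 ≠ 0 → ∀ τ : K,
      (C + τ • r).2 = C.2 + (C.1 - (C + τ • r).1) • W r := by
    intro C r hr τ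
    ext i
    simp only [hW, Prod.snd_add, Prod.smul_snd, Prod.fst_add, Prod.smul_fst, Pi.add_apply,
      Pi.smul_apply, smul_eq_mul, Pi.neg_apply]
    field_simp
    ring
  have hrich : ∀ (C : K × (Fin 5 → K)) (w : Fin 5 → K), SplitGood (χ C.1 C.2) z (poly5 w) →
      2 * n + 1 ≤ Nat.card {x : K × K // Good (χ C.1 C.2) x.1 x.2} := fun C w h =>
    hz.trans (M4.card_good_of_split _ _ _ h)
  -- the hypotheses of the core
  have hmean : ∀ t, ∑ C, δ t C = 0 := by
    intro t
    have e1 : ∑ C, δ t C = ∑ C ∈ Finset.univ.filter (fun C => inc t C),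
        ((ψ C.1 C.2 (t.1, t.2.1) : ℝ) - avg t) := by
      rw [hδ, Finset.sum_filter]
    rw [e1, Finset.sum_sub_distrib, Finset.sum_const, nsmul_eq_mul]
    by_cases h0 : (Finset.univ.filter (fun C => inc t C)).card = 0
    · have h3 : Finset.univ.filter (fun C => inc t C) = ∅ := Finset.card_eq_zero.1 h0
      rw [h3]
      simp
    · have h3 : ((Finset.univ.filter (fun C => inc t C)).card : ℝ) ≠ 0 := by
        exact_mod_cast h0
      simp only [havg]
      field_simp
      ring
  have hcore := H20.Par.core_bad (F := K) (V := K × (Fin 5 → K)) (X := K × K × K)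
    (fun t => M4.phi t) (fun t => t.2.2) (fun t => M4.phi_ne_zero t) ts L z z
    (by
      rintro C r ⟨hr, ⟨R, hR, hmem⟩, hg⟩
      rw [hL]
      refine Finset.card_image_le.trans (le_of_eq ?_)
      rw [← hR]
      congr 1
      ext s
      rw [Finset.mem_filter, hmem s, M4.eval_eval_eq]
      simp)
    (by
      rintro C r ⟨hr, hs⟩
      refine ⟨fun h => hr (by rw [h]; rfl), ?_⟩
      intro x hx
      rw [hL, Finset.mem_image] at hx
      obtain ⟨s, _, rfl⟩ := hx
      rw [M4.phi_apply]
      exact hWlin r hr s)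
    δ
    (by
      intro t C h
      rw [hδ]
      simp only
      rw [if_neg]
      rintro ⟨h3, _⟩
      exact h h3)
    hmean
    (by
      rintro C r ⟨hr, hs⟩
      refine ⟨Finset.univ.filter (fun τ : K =>
        ¬ SplitGood (χ (C + τ • r).1 (C + τ • r).2) z (poly5 (W r))), ?_, ?_⟩
      · have h3 := h2 C.1 C.2 (W r) hs
        refine le_trans ?_ h3
        have h4 : Function.Injective (fun τ : {τ : K // τ ∈ Finset.univ.filter (fun τ : K =>
            ¬ SplitGood (χ (C + τ • r).1 (C + τ • r).2) z (poly5 (W r)))} =>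
            (⟨(C + τ.1 • r).1, by
              have h5 := (Finset.mem_filter.1 τ.2).2
              rw [hmember C r hr τ.1] at h5
              exact h5⟩ :
              {β' : K // ¬ SplitGood (χ β' (C.2 + (C.1 - β') • W r)) z (poly5 (W r))})) := by
          intro τ τ' h
          have h5 : (C + τ.1 • r).1 = (C + τ'.1 • r).1 := congrArg Subtype.val h
          simp only [Prod.fst_add, Prod.smul_fst, smul_eq_mul] at h5
          exact Subtype.ext (mul_right_cancel₀ hr (add_left_cancel h5))
        have h5 := Nat.card_le_card_of_injective _ h4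
        have h6 : ∀ S : Finset K, Nat.card {τ : K // τ ∈ S} = S.card := by
          intro S
          rw [Nat.card_eq_fintype_card, Fintype.card_coe]
        rw [h6] at h5
        exact h5
      · intro τ hτ
        have hs' : SplitGood (χ (C + τ • r).1 (C + τ • r).2) z (poly5 (W r)) := by
          by_contra h
          exact hτ (Finset.mem_filter.2 ⟨Finset.mem_univ _, h⟩)
        have hs'' := hs'
        rw [hmember C r hr τ] at hs''
        obtain ⟨h3, h4⟩ := h1 C.1 C.2 (C + τ • r).1 (W r) hs hs''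
        rw [← hmember C r hr τ] at h3 h4
        rw [hLsum, hLsum]
        have e1 : ∀ s ∈ Finset.univ.filter
            (fun s : K => (χ C.1 C.2).evalEval s ((poly5 (W r)).eval s) = 0),
            δ (pt C (W r) s) (C + τ • r)
              = (ψ (C + τ • r).1 (C + τ • r).2 (s, (poly5 (W r)).eval s) : ℝ)
                - avg (pt C (W r) s) := by
          intro s hs0
          rw [hδ]
          simp only
          rw [if_pos]
          refine ⟨hkey C r hr τ s, ?_, hrich _ _ hs'⟩
          apply hs'.2 s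
          rw [M4.eval_eval_eq]
          exact (h3 s).1 (Finset.mem_filter.1 hs0).2
        have e2 : ∀ s ∈ Finset.univ.filter
            (fun s : K => (χ C.1 C.2).evalEval s ((poly5 (W r)).eval s) = 0),
            δ (pt C (W r) s) C
              = (ψ C.1 C.2 (s, (poly5 (W r)).eval s) : ℝ) - avg (pt C (W r) s) := by
          intro s hs0
          rw [hδ]
          simp only
          rw [if_pos]
          refine ⟨rfl, ?_, hrich _ _ hs⟩
          apply hs.2 s
          rw [M4.eval_eval_eq]
          exact (Finset.mem_filter.1 hs0).2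
        rw [Finset.sum_congr rfl e1, Finset.sum_congr rfl e2, Finset.sum_sub_distrib,
          Finset.sum_sub_distrib]
        congr 1
        rw [Finset.sum_filter, Finset.sum_filter]
        have h5 := congrArg (fun q : ℚ => (q : ℝ)) h4
        simp only [Rat.cast_sum] at h5
        have h6 : ∀ (a : ℚ) (P : Prop) [Decidable P], (((if P then a else 0 : ℚ)) : ℝ)
            = if P then (a : ℝ) else 0 := by
          intro a P _
          split_ifs <;> simp
        simp only [h6] at h5
        rw [← h5])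
    h2z
    ((Q - 1) * c * Q ^ 4)
    (by
      have e1 : (Fintype.card (K × (Fin 5 → K)) : ℝ) = Q ^ 6 := by
        rw [Fintype.card_prod, Fintype.card_fun, Fintype.card_fin, hQdef]
        push_cast
        ring
      rw [e1]
      have hpos : 0 < Q ^ 6 := by positivity
      calc 8 * (z : ℝ) * (1 + z) * Q ^ 6 < ((Q - 1) * c) * Q ^ 6 :=
            mul_lt_mul_of_pos_right hQ hpos
        _ = (Q - 1) * c * Q ^ 4 * Q ^ 2 := by ring)
    (by
      intro C
      by_cases hC : 2 * n + 1 ≤ Nat.card {x : K × K // Good (χ C.1 C.2) x.1 x.2}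
      · set wC : K × K → ℝ := fun x => δ (x.1, x.2, C.1 * x.2 + (poly5 C.2).eval x.1) C with hwC
        have hw0 : ∀ x : K × K, ¬ Good (χ C.1 C.2) x.1 x.2 → wC x = 0 := by
          intro x hx
          rw [hwC, hδ]
          simp only
          rw [if_neg]
          rintro ⟨_, h3, _⟩
          exact hx h3
        have h3 := hM3b C.1 C.2 hC wC hw0
        have e1 : ∑ x, δ x C ^ 2 = ∑ x, wC x ^ 2 := by
          have e2 : ∑ x : K × K × K, δ x C ^ 2
              = ∑ s : K, ∑ y : K, ∑ a : K, δ (s, y, a) C ^ 2 := by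
            rw [Fintype.sum_prod_type]
            refine Finset.sum_congr rfl fun s _ => ?_
            rw [Fintype.sum_prod_type]
          rw [e2, Fintype.sum_prod_type]
          refine Finset.sum_congr rfl fun s _ => Finset.sum_congr rfl fun y _ => ?_
          rw [Finset.sum_eq_single (C.1 * y + (poly5 C.2).eval s)]
          · intro a _ ha
            have : δ (s, y, a) C = 0 := by
              rw [hδ]
              simp only
              rw [if_neg]
              rintro ⟨h4, _⟩
              exact ha h4.symm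
            rw [this]; ring
          · intro h; exact absurd (Finset.mem_univ _) h
        have e3 : ∑ r ∈ Finset.univ.filter (fun r => ts C r), (∑ x ∈ L C r, δ x C) ^ 2
            = (Q - 1) * ∑ u : Fin 5 → K, (if SplitGood (χ C.1 C.2) z (poly5 u) then
              (∑ s : K, (if (χ C.1 C.2).evalEval s ((poly5 u).eval s) = 0
                then wC (s, (poly5 u).eval s) else 0)) ^ 2 else 0) := by
          have e4 : ∀ r : K × (Fin 5 → K), ∑ x ∈ L C r, δ x C
              = ∑ s : K, (if (χ C.1 C.2).evalEval s ((poly5 (W r)).eval s) = 0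
                then wC (s, (poly5 (W r)).eval s) else 0) := by
            intro r
            rw [hLsum, Finset.sum_filter]
          rw [Finset.sum_filter, Fintype.sum_prod_type]
          have e5 : ∀ r1 : K, ∑ r2 : Fin 5 → K, (if ts C (r1, r2) then
              (∑ x ∈ L C (r1, r2), δ x C) ^ 2 else 0)
              = if r1 = 0 then 0 else ∑ u : Fin 5 → K,
                (if SplitGood (χ C.1 C.2) z (poly5 u) then
                  (∑ s : K, (if (χ C.1 C.2).evalEval s ((poly5 u).eval s) = 0
                    then wC (s, (poly5 u).eval s) else 0)) ^ 2 else 0) := by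
            intro r1
            by_cases h0 : r1 = 0
            · rw [if_pos h0]
              refine Finset.sum_eq_zero fun r2 _ => ?_
              rw [if_neg]
              rintro ⟨h4, _⟩
              exact h4 h0
            · rw [if_neg h0]
              refine Fintype.sum_bijective (fun r2 : Fin 5 → K => -(r1⁻¹ • r2)) ?_ _ _ ?_
              · constructor
                · intro a b hab
                  have h4 : r1⁻¹ • a = r1⁻¹ • b := neg_injective hab
                  exact smul_right_injective _ (inv_ne_zero h0) h4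
                · intro b
                  refine ⟨-(r1 • b), ?_⟩
                  simp only [smul_neg, neg_neg, smul_smul, inv_mul_cancel₀ h0, one_smul]
              · intro r2
                rw [e4]
                have h4 : ts C (r1, r2) ↔ SplitGood (χ C.1 C.2) z (poly5 (-(r1⁻¹ • r2))) :=
                  ⟨fun h => h.2, fun h => ⟨h0, h⟩⟩
                simp only [h4, hW]
          rw [Finset.sum_congr rfl fun r1 _ => e5 r1]
          rw [Finset.sum_ite, Finset.sum_const_zero, zero_add, Finset.sum_const, nsmul_eq_mul]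
          congr 1
          have h4 : (Finset.univ.filter (fun r1 : K => ¬ r1 = 0)).card
              = Fintype.card K - 1 := by
            rw [Finset.filter_not, Finset.card_sdiff_of_subset (Finset.filter_subset _ _),
              Finset.card_univ]
            congr 1
            rw [Finset.filter_eq']
            simp
          rw [h4, Nat.cast_sub Fintype.card_pos, hQdef]
          simp
        rw [e3, e1]
        have hQ0 : 0 ≤ Q - 1 := by linarith
        calc (Q - 1) * c * Q ^ 4 * ∑ x, wC x ^ 2 = (Q - 1) * (c * Q ^ 4 * ∑ x, wC x ^ 2) := by ring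
          _ ≤ _ := mul_le_mul_of_nonneg_left h3 hQ0
      · have e1 : ∑ x, δ x C ^ 2 = 0 := by
          refine Finset.sum_eq_zero fun x _ => ?_
          have : δ x C = 0 := by
            rw [hδ]
            simp only
            rw [if_neg]
            rintro ⟨_, _, h4⟩
            exact hC h4
          rw [this]; ring
        rw [e1, mul_zero]
        exact Finset.sum_nonneg fun _ _ => sq_nonneg _)
  intro β v β' v' s y hg hg' hk hr hr'
  have h3 := hcore (s, y, β * y + (poly5 v).eval s) (β, v)
  have h4 := hcore (s, y, β * y + (poly5 v).eval s) (β', v')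
  rw [hδ] at h3 h4
  simp only at h3 h4
  rw [if_pos ⟨rfl, hg, hr⟩] at h3
  rw [if_pos ⟨hk.symm, hg', hr'⟩] at h4
  have h5 : (ψ β v (s, y) : ℝ) = (ψ β' v' (s, y) : ℝ) := by linarith
  exact_mod_cast h5

end main


/-- M4 from the lower bound M3b. -/
theorem M4_core_of (p n z : ℕ) [Fact p.Prime] (hn : 2 ≤ n) (h8 : 8 * n ≤ z)
    (hM3b : ∃ c : ℝ, 0 < c ∧ ∃ Q₀ : ℕ, ∀ (K : Type) [Field K] [Fintype K] [DecidableEq K]
      [CharP K p] (m : ℕ), Fintype.card K = (p ^ m) ^ 2 → Q₀ ≤ Fintype.card K → ∀ χ : K[X][X],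
      IsCnz χ n z → 2 * n + 1 ≤ Nat.card {x : K × K // Good χ x.1 x.2} →
      ∀ w : K × K → ℝ, (∀ x, ¬ Good χ x.1 x.2 → w x = 0) →
      c * (Fintype.card K : ℝ) ^ 4 * ∑ x, w x ^ 2 ≤
        ∑ v : Fin 5 → K, (open Classical in if SplitGood χ z (poly5 v) then
          (∑ s : K, (if χ.evalEval s ((poly5 v).eval s) = 0 then w (s, (poly5 v).eval s)
            else 0)) ^ 2 else 0)) :
    ∃ Q₀ : ℕ, ∀ (K : Type) [Field K] [Fintype K] [DecidableEq K] [CharP K p]
      (m : ℕ), Fintype.card K = (p ^ m) ^ 2 → Q₀ ≤ Fintype.card K →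
      ∀ (χ : K → (Fin 5 → K) → K[X][X]) (_ : ∀ β v, IsCnz (χ β v) n z)
        (ψ : K → (Fin 5 → K) → K × K → ℚ)
        (_ : ∀ β v β' w, SplitGood (χ β v) z (poly5 w) →
            SplitGood (χ β' (v + (β - β') • w)) z (poly5 w) →
            (∀ s, (χ β v).evalEval s ((poly5 w).eval s) = 0 ↔
              (χ β' (v + (β - β') • w)).evalEval s ((poly5 w).eval s) = 0) ∧
            ∑ s : K, (if (χ β v).evalEval s ((poly5 w).eval s) = 0
              then ψ β v (s, (poly5 w).eval s) else 0)
            = ∑ s : K, (if (χ β v).evalEval s ((poly5 w).eval s) = 0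
              then ψ β' (v + (β - β') • w) (s, (poly5 w).eval s) else 0))
        (_ : ∀ β v w, SplitGood (χ β v) z (poly5 w) →
            Nat.card {β' : K // ¬ SplitGood (χ β' (v + (β - β') • w)) z (poly5 w)} ≤ z),
      ∀ β v β' v' s y, Good (χ β v) s y → Good (χ β' v') s y →
        β * y + (poly5 v).eval s = β' * y + (poly5 v').eval s →
        2 * n + 1 ≤ Nat.card {x : K × K // Good (χ β v) x.1 x.2} →
        2 * n + 1 ≤ Nat.card {x : K × K // Good (χ β' v') x.1 x.2} →
        ψ β v (s, y) = ψ β' v' (s, y) := by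
  obtain ⟨c, hc, Q₁, hM⟩ := hM3b
  obtain ⟨Q₂, hQ₂⟩ := exists_nat_gt (8 * (z : ℝ) * (1 + z) / c + 1)
  refine ⟨max Q₁ (max Q₂ (2 * z)), ?_⟩
  intro K _ _ _ _ m hcard hQ χ hχ ψ h1 h2
  have hQ1 : Q₁ ≤ Fintype.card K := (le_max_left _ _).trans hQ
  have hQ2 : Q₂ ≤ Fintype.card K := ((le_max_left _ _).trans (le_max_right _ _)).trans hQ
  have hQ3 : 2 * z ≤ Fintype.card K := ((le_max_right _ _).trans (le_max_right _ _)).trans hQ
  refine M4.aux n z (by omega) c ?_ hQ3 χ ?_ ψ h1 h2
  · have h3 : (Q₂ : ℝ) ≤ (Fintype.card K : ℝ) := by exact_mod_cast hQ2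
    have h4 : 8 * (z : ℝ) * (1 + z) / c < (Fintype.card K : ℝ) - 1 := by linarith
    rwa [div_lt_iff₀ hc] at h4
  · intro β v hr w hw
    exact hM K m hcard hQ1 (χ β v) (hχ β v) hr w hw

/-- M4 from the pair counts M3a. -/
theorem M4_core_of_pairs (p n z : ℕ) [Fact p.Prime] (hn : 2 ≤ n) (h8 : 8 * n ≤ z)
    (hM3a : ∃ B : ℝ, 0 < B ∧ ∃ Q₀ : ℕ, ∀ (K : Type) [Field K] [Fintype K] [CharP K p] (m : ℕ),
      Fintype.card K = (p ^ m) ^ 2 → Q₀ ≤ Fintype.card K → ∀ χ : K[X][X], IsCnz χ n z →
      ∀ s1 s2 sy y1 y2 yy : K, s1 ≠ s2 → s1 ≠ sy → s2 ≠ sy →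
      Good χ s1 y1 → Good χ s2 y2 → Good χ sy yy →
      |((Nat.card {v : Fin 5 → K // SplitGood χ z (poly5 v) ∧ (poly5 v).eval s1 = y1 ∧
          (poly5 v).eval s2 = y2} : ℕ) : ℝ) - (Fintype.card K : ℝ) ^ 3 / ((z - 2).factorial : ℝ)|
        ≤ B * (Fintype.card K : ℝ) ^ (5 / 2 : ℝ)) :
    ∃ Q₀ : ℕ, ∀ (K : Type) [Field K] [Fintype K] [DecidableEq K] [CharP K p]
      (m : ℕ), Fintype.card K = (p ^ m) ^ 2 → Q₀ ≤ Fintype.card K →
      ∀ (χ : K → (Fin 5 → K) → K[X][X]) (_ : ∀ β v, IsCnz (χ β v) n z)
        (ψ : K → (Fin 5 → K) → K × K → ℚ)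
        (_ : ∀ β v β' w, SplitGood (χ β v) z (poly5 w) →
            SplitGood (χ β' (v + (β - β') • w)) z (poly5 w) →
            (∀ s, (χ β v).evalEval s ((poly5 w).eval s) = 0 ↔
              (χ β' (v + (β - β') • w)).evalEval s ((poly5 w).eval s) = 0) ∧
            ∑ s : K, (if (χ β v).evalEval s ((poly5 w).eval s) = 0
              then ψ β v (s, (poly5 w).eval s) else 0)
            = ∑ s : K, (if (χ β v).evalEval s ((poly5 w).eval s) = 0
              then ψ β' (v + (β - β') • w) (s, (poly5 w).eval s) else 0))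
        (_ : ∀ β v w, SplitGood (χ β v) z (poly5 w) →
            Nat.card {β' : K // ¬ SplitGood (χ β' (v + (β - β') • w)) z (poly5 w)} ≤ z),
      ∀ β v β' v' s y, Good (χ β v) s y → Good (χ β' v') s y →
        β * y + (poly5 v).eval s = β' * y + (poly5 v').eval s →
        2 * n + 1 ≤ Nat.card {x : K × K // Good (χ β v) x.1 x.2} →
        2 * n + 1 ≤ Nat.card {x : K × K // Good (χ β' v') x.1 x.2} →
        ψ β v (s, y) = ψ β' v' (s, y) := by
  exact M4_core_of p n z hn h8 (M3b_of_pairs p n z hn h8 hM3a)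

end Pool.Agent.K1
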