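import Pool.Agent.K1.CoreOf
import Pool.Agent.K1.M4
import Pool.Agent.K1.M3a2Fin

/-!
K1, second half: the core of part A for the class of surfaces `SectionExp` (K1-29).
-/

set_option autoImplicit false

open Polynomial

namespace Pool.Agent.K1

/-- The core of part A: transversal values of `Ψ` on a small class do not depend on the curve. -/
theorem K1_core (p : ℕ) [Fact p.Prime] (hp2 : p ≠ 2) {k A : Type} [Field k] [IsAlgClosed k]
    [CharP k p] [Algebra (ZMod p) k] [Algebra.IsAlgebraic (ZMod p) k] [CommRing A] [IsDomain A]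
    [Algebra k A] [Algebra.FiniteType k A] (E : SectionExp k A) :
    ∃ c₀ μ₀ n₀ : ℕ, ∀ e n M : ℕ, n = 2 ^ e → n₀ ≤ n → Odd M → μ₀ * n ≤ M →
      (∀ d : A, E.InV n M d → IsDomain (A ⧸ Ideal.span {d}) ∧
        ∃ o : OneLeaf k (A ⧸ Ideal.span {d}), o.wt (Ideal.Quotient.mk _ E.s) = n) ∧
      ∃ z : ℕ, z < n * M ∧ n * M < z + c₀ * n ∧
        ∀ q₀ : A, E.InV n M q₀ → ∀ φ : A → A → ℚ, CurveFun {d | E.InV n M d} φ →
          ∀ Ψ : A → (A →ₐ[k] k) → ℚ, (∀ d, E.InV n M d → IsPsiA k d (φ d) (Ψ d)) →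
            ∃ u : (A →ₐ[k] k) → ℚ, ∀ c ∈ E.Near n M z q₀, ∀ x : A →ₐ[k] k,
              TransvAt E.s c x → Ψ c x = u x :=
  K1_core_of p hp2 (fun n z hn2 hcop h16 hco hpl hpz =>
    M4_core_of_pairs p n z hn2 (by nlinarith)
      (M3a2_pairs p n z hp2 hn2 hcop h16 hco hpl hpz)) E

end Pool.Agent.K1
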