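import Pool.Agent.K1.Defs
import Pool.Agent.K1.OneLeafDef

/-!
Functionals on the curves of a surface `Spec A`, computed by points.
-/

open Polynomial

namespace Pool.Agent.K1

variable {k A : Type} [Field k] [CommRing A] [Algebra k A]

/-- A functional on the curves of a family: `φ d f` is the value for the curve `d` of the
function `f` restricted to it. -/
structure CurveFun (V : Set A) (φ : A → A → ℚ) : Prop where
  mul : ∀ d ∈ V, ∀ f g, f ∉ Ideal.span {d} → g ∉ Ideal.span {d} → φ d (f * g) = φ d f + φ d g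
  congr : ∀ d ∈ V, ∀ f g, f ∉ Ideal.span {d} → f - g ∈ Ideal.span {d} → φ d f = φ d g
  link : ∀ d ∈ V, ∀ d' ∈ V, ∀ g, g ∉ Ideal.span {d} → g ∉ Ideal.span {d'} →
    d - d' ∈ Ideal.span {g} → φ d g = φ d' g

/-- `ψ` computes the functional `φ` of the curve `d` by points. -/
def IsPsiA (k : Type) {A : Type} [Field k] [CommRing A] [Algebra k A] (d : A) (φ : A → ℚ)
    (ψ : (A →ₐ[k] k) → ℚ) : Prop :=
  ∀ f : A, f ∉ Ideal.span {d} → ∀ m : (A →ₐ[k] k) →₀ ℕ, (∀ x ∈ m.support, x d = 0) →
    Ideal.span {f, d} = m.prod (fun x e => (RingHom.ker x) ^ e) ⊔ Ideal.span {d} →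
    φ f = m.sum (fun x e => (e : ℚ) * ψ x)

/-- `x` is a good point of the curve `d` for the pair `(S, Y)`. -/
def GoodPtA (d S Y : A) (x : A →ₐ[k] k) : Prop :=
  Ideal.span {d, S - algebraMap k A (x S), (Y - algebraMap k A (x Y)) ^ 2} = RingHom.ker x

/-- The curve `d` is transversal to the curve `s = s(x)` at `x`. -/
def TransvAt (s d : A) (x : A →ₐ[k] k) : Prop :=
  x d = 0 ∧ RingHom.ker x ≤ Ideal.span {d, s - algebraMap k A (x s)} ⊔ (RingHom.ker x) ^ 2

/-- Semilinear ring endomorphism for the `q`-power map of `k`. -/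
def IsFrobSemi (k : Type) {A : Type} [Field k] [CommRing A] [Algebra k A] (q : ℕ)
    (σ : A →+* A) : Prop :=
  ∀ c : k, σ (algebraMap k A c) = algebraMap k A (c ^ q)

/-- The family of curves `c + β Y + v(S)`. -/
noncomputable def Dfam (S Y c : A) (β : k) (v : Fin 5 → k) : A :=
  c + β • Y + aeval S (poly5 v)

end Pool.Agent.K1
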