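import Pool.Agent.K1.DefsB

/-!
The Gersten complex of a surface `Spec A` in codimension one, tame symbols, and the passage from
a functional on chains which kills the tame symbols to a symbol `Λ` (see `IsSymb`).
-/

set_option autoImplicit false

namespace Pool.Agent.K1

/-- A curve on `Spec A`: a prime ideal of height one. -/
structure Curve1 (A : Type*) [CommRing A] where
  ideal : Ideal A
  isPrime : ideal.IsPrime
  height : ideal.height = 1

instance Curve1.prime {A : Type*} [CommRing A] (P : Curve1 A) : P.ideal.IsPrime := P.isPrime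

theorem Curve1.ext' {A : Type*} [CommRing A] {P Q : Curve1 A} (h : P.ideal = Q.ideal) :
    P = Q := by
  cases P; cases Q; cases h; rfl

/-- The function field of the curve `P`. -/
abbrev kap {A : Type*} [CommRing A] (P : Curve1 A) : Type _ := FractionRing (A ⧸ P.ideal)

/-- The restriction of a function to the curve `P`. -/
noncomputable def res {A : Type*} [CommRing A] (P : Curve1 A) (a : A) : kap P :=
  algebraMap (A ⧸ P.ideal) (kap P) (Ideal.Quotient.mk P.ideal a)

/-- Chains: finite formal sums of pairs `(P, h)`, `h` a nonzero rational function on the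
curve `P`. -/
abbrev Chain1 (A : Type*) [CommRing A] : Type _ := Π₀ P : Curve1 A, Additive (kap P)ˣ

/-- The order of `a` along the curve `P`. -/
noncomputable def vAt {A : Type*} [CommRing A] (P : Curve1 A) (a : A) : ℕ :=
  (Ring.ord (Localization.AtPrime P.ideal)
    (algebraMap A (Localization.AtPrime P.ideal) a)).toNat

/-- `t` is the tame symbol `(-1)^(v(a)v(b)) a^v(b) / b^v(a)` of `a` and `b` along `P`. -/
def IsTame {A : Type*} [CommRing A] (P : Curve1 A) (a b : A) (t : (kap P)ˣ) : Prop :=
  ∃ c d : A, c ∉ P.ideal ∧ d ∉ P.ideal ∧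
    a ^ vAt P b * d = (-1) ^ (vAt P a * vAt P b) * (b ^ vAt P a * c) ∧
    (t : kap P) * res P d = res P c

/-- The subgroup of chains generated by the tame symbols of all pairs of nonzero functions. -/
def tameSubgroup (A : Type*) [CommRing A] : AddSubgroup (Chain1 A) :=
  AddSubgroup.closure {ξ | ∃ a b : A, a ≠ 0 ∧ b ≠ 0 ∧
    ∀ P : Curve1 A, IsTame P a b (Additive.toMul (ξ P))}

section basic

variable {A : Type*} [CommRing A]

theorem res_eq_zero (P : Curve1 A) (a : A) : res P a = 0 ↔ a ∈ P.ideal := by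
  unfold res
  rw [map_eq_zero_iff _ (IsFractionRing.injective (A ⧸ P.ideal) (kap P)),
    Ideal.Quotient.eq_zero_iff_mem]

theorem res_mul (P : Curve1 A) (a b : A) : res P (a * b) = res P a * res P b := by
  simp [res]

theorem res_add (P : Curve1 A) (a b : A) : res P (a + b) = res P a + res P b := by
  simp [res]

theorem res_one (P : Curve1 A) : res P 1 = 1 := by
  simp [res]

theorem res_pow (P : Curve1 A) (a : A) (n : ℕ) : res P (a ^ n) = res P a ^ n := by
  simp [res]

theorem res_eq_iff (P : Curve1 A) (a b : A) : res P a = res P b ↔ a - b ∈ P.ideal := by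
  rw [← sub_eq_zero, ← res_eq_zero]
  simp [res, sub_eq_zero]

variable [IsDomain A]

theorem loc_inj (P : Curve1 A) :
    Function.Injective (algebraMap A (Localization.AtPrime P.ideal)) :=
  IsLocalization.injective _ (P.ideal.primeCompl_le_nonZeroDivisors)

end basic

section dvr

variable {A : Type*} [CommRing A] [IsDomain A]
  (hA : ∀ P : Curve1 A, IsDiscreteValuationRing (Localization.AtPrime P.ideal))

include hA

theorem vAt_coe (P : Curve1 A) {a : A} (ha : a ≠ 0) :
    Ring.ord (Localization.AtPrime P.ideal)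
      (algebraMap A (Localization.AtPrime P.ideal) a) = vAt P a := by
  have := hA P
  unfold vAt
  rw [ENat.natCast_toNat]
  apply Ring.ord_ne_top
  rw [mem_nonZeroDivisors_iff_ne_zero]
  exact fun h => ha (loc_inj P (by rw [h, map_zero]))

theorem vAt_mul (P : Curve1 A) {a b : A} (ha : a ≠ 0) (hb : b ≠ 0) :
    vAt P (a * b) = vAt P a + vAt P b := by
  have := hA P
  have h : Ring.ord (Localization.AtPrime P.ideal)
      (algebraMap A (Localization.AtPrime P.ideal) (a * b)) = (vAt P a : ℕ∞) + vAt P b := by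
    rw [map_mul, Ring.ord_mul, vAt_coe hA P ha, vAt_coe hA P hb]
    rw [mem_nonZeroDivisors_iff_ne_zero]
    exact fun h => hb (loc_inj P (by rw [h, map_zero]))
  rw [vAt_coe hA P (mul_ne_zero ha hb)] at h
  exact_mod_cast h

theorem vAt_pow (P : Curve1 A) {a : A} (ha : a ≠ 0) (n : ℕ) : vAt P (a ^ n) = n * vAt P a := by
  induction n with
  | zero =>
    have := hA P
    have h : Ring.ord (Localization.AtPrime P.ideal)
      (algebraMap A (Localization.AtPrime P.ideal) (a ^ 0)) = 0 := by
      rw [pow_zero, map_one, Ring.ord_one]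
    rw [vAt_coe hA P (pow_ne_zero _ ha)] at h
    rw [zero_mul]
    exact_mod_cast h
  | succ n ih =>
    rw [pow_succ, vAt_mul hA P (pow_ne_zero _ ha) ha, ih]
    ring

theorem vAt_eq_zero (P : Curve1 A) {a : A} (ha : a ≠ 0) : vAt P a = 0 ↔ a ∉ P.ideal := by
  have := hA P
  constructor
  · intro h hmem
    have h1 := vAt_coe hA P ha
    rw [h, Nat.cast_zero, Ring.ord, Module.length_eq_zero_iff,
      Ideal.Quotient.subsingleton_iff, Ideal.span_singleton_eq_top] at h1
    exact (IsLocalization.AtPrime.isUnit_to_map_iff _ P.ideal a).1 h1 hmem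
  · intro h
    have h1 : IsUnit (algebraMap A (Localization.AtPrime P.ideal) a) :=
      (IsLocalization.AtPrime.isUnit_to_map_iff _ P.ideal a).2 h
    have h2 := vAt_coe hA P ha
    rw [Ring.ord_of_isUnit h1] at h2
    exact_mod_cast h2.symm

theorem vAt_ne_zero (P : Curve1 A) {a : A} (ha : a ≠ 0) : vAt P a ≠ 0 ↔ a ∈ P.ideal := by
  rw [Ne, vAt_eq_zero hA P ha, not_not]

/-- Existence of the tame symbol at one curve. -/
theorem exists_tame (P : Curve1 A) {a b : A} (ha : a ≠ 0) (hb : b ≠ 0) :
    ∃ t, IsTame P a b t := by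
  have := hA P
  set O := Localization.AtPrime P.ideal
  have h1 : Ring.ord O (algebraMap A O (a ^ vAt P b)) = Ring.ord O (algebraMap A O (b ^ vAt P a)) := by
    rw [vAt_coe hA P (pow_ne_zero _ ha), vAt_coe hA P (pow_ne_zero _ hb), vAt_pow hA P ha,
      vAt_pow hA P hb, mul_comm]
  rw [Ring.ord_eq_iff_associated] at h1
  obtain ⟨u, hu⟩ := h1
  obtain ⟨⟨c, d⟩, hcd⟩ := IsLocalization.surj P.ideal.primeCompl (u : O)
  -- `a^m * u = b^n`, `u = c / d`
  have hd : (d : A) ∉ P.ideal := d.2
  have hc : c ∉ P.ideal := by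
    intro hmem
    have h2 : IsUnit (algebraMap A O c) := by
      rw [← hcd]
      exact u.isUnit.mul ((IsLocalization.AtPrime.isUnit_to_map_iff _ P.ideal _).2 hd)
    exact (IsLocalization.AtPrime.isUnit_to_map_iff _ P.ideal c).1 h2 hmem
  have h3 : a ^ vAt P b * c = b ^ vAt P a * d := by
    apply loc_inj P
    rw [map_mul, map_mul, ← hu]
    rw [← hcd]
    ring
  -- tame symbol is `(-1)^.. d / c`
  have hres : res P c ≠ 0 := fun h => hc ((res_eq_zero P c).1 h)
  have hresd : res P ((-1) ^ (vAt P a * vAt P b) * d) ≠ 0 := by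
    intro h
    have h4 := (res_eq_zero P _).1 h
    rcases P.isPrime.mem_or_mem h4 with h5 | h5
    · have h6 := P.isPrime.mem_of_pow_mem _ h5
      rw [Ideal.neg_mem_iff] at h6
      exact P.isPrime.ne_top ((Ideal.eq_top_iff_one _).2 h6)
    · exact hd h5
  refine ⟨Units.mk0 (res P ((-1) ^ (vAt P a * vAt P b) * d) / res P c) (div_ne_zero hresd hres),
    (-1) ^ (vAt P a * vAt P b) * d, c, ?_, hc, ?_, ?_⟩
  · exact fun h => hresd ((res_eq_zero P _).2 h)
  · rw [h3]
    have h7 : ((-1 : A) ^ (vAt P a * vAt P b)) * (-1) ^ (vAt P a * vAt P b) = 1 := by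
      rw [← mul_pow]; simp
    calc b ^ vAt P a * (d : A) = (((-1 : A) ^ (vAt P a * vAt P b)) *
          (-1) ^ (vAt P a * vAt P b)) * (b ^ vAt P a * d) := by rw [h7, one_mul]
      _ = _ := by ring
  · rw [Units.val_mk0, div_mul_cancel₀ _ hres]

omit hA in
/-- Uniqueness of the tame symbol. -/
theorem IsTame.unique (P : Curve1 A) {a b : A} (hb : b ≠ 0) {t t' : (kap P)ˣ}
    (h : IsTame P a b t) (h' : IsTame P a b t') : t = t' := by
  obtain ⟨c, d, hc, hd, h1, h2⟩ := h
  obtain ⟨c', d', hc', hd', h1', h2'⟩ := h'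
  have hb' : ((-1 : A) ^ (vAt P a * vAt P b)) * b ^ vAt P a ≠ 0 :=
    mul_ne_zero (pow_ne_zero _ (neg_ne_zero.2 one_ne_zero)) (pow_ne_zero _ hb)
  have h3 : c * d' = c' * d := by
    apply mul_left_cancel₀ hb'
    linear_combination d * h1' - d' * h1
  have hresd : res P d ≠ 0 := fun h => hd ((res_eq_zero P _).1 h)
  have hresd' : res P d' ≠ 0 := fun h => hd' ((res_eq_zero P _).1 h)
  apply Units.ext
  apply mul_right_cancel₀ (mul_ne_zero hresd hresd')
  have h4 : res P c * res P d' = res P c' * res P d := by rw [← res_mul, ← res_mul, h3]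
  linear_combination res P d' * h2 - res P d * h2' + h4

/-- Tame symbol along a curve which is a component of `b` only. -/
theorem IsTame.of_not_mem (P : Curve1 A) {a b : A} (ha : a ≠ 0)
    (haP : a ∉ P.ideal) (t : (kap P)ˣ) (ht : (t : kap P) = res P a ^ vAt P b) :
    IsTame P a b t := by
  have h0 : vAt P a = 0 := (vAt_eq_zero hA P ha).2 haP
  refine ⟨a ^ vAt P b, 1, ?_, ?_, ?_, ?_⟩
  · exact fun h => haP (P.isPrime.mem_of_pow_mem _ h)
  · exact fun h => P.isPrime.ne_top ((Ideal.eq_top_iff_one _).2 h)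
  · rw [h0]; ring
  · rw [res_one, mul_one, ht, res_pow]

/-- Tame symbol along a curve which is a component of `a` only. -/
theorem IsTame.of_not_mem' (P : Curve1 A) {a b : A} (hb : b ≠ 0)
    (hbP : b ∉ P.ideal) (t : (kap P)ˣ) (ht : (t : kap P) * res P b ^ vAt P a = 1) :
    IsTame P a b t := by
  have h0 : vAt P b = 0 := (vAt_eq_zero hA P hb).2 hbP
  refine ⟨1, b ^ vAt P a, ?_, ?_, ?_, ?_⟩
  · exact fun h => P.isPrime.ne_top ((Ideal.eq_top_iff_one _).2 h)
  · exact fun h => hbP (P.isPrime.mem_of_pow_mem _ h)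
  · rw [h0]; ring
  · rw [res_one, res_pow, ht]

omit hA in
/-- Finitely many curves contain a nonzero element. -/
theorem finite_curves [IsNoetherianRing A] {a : A} (ha : a ≠ 0) :
    {P : Curve1 A | a ∈ P.ideal}.Finite := by
  have hfin := (Ideal.span {a}).finite_minimalPrimes_of_isNoetherianRing
  apply Set.Finite.of_finite_image (f := fun P : Curve1 A => P.ideal)
  · apply hfin.subset
    rintro _ ⟨P, hP, rfl⟩
    have : P.ideal.FiniteHeight := by
      rw [Ideal.finiteHeight_iff]
      right
      rw [P.height]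
      exact ENat.one_ne_top
    apply Ideal.mem_minimalPrimes_of_height_le
    · rw [Ideal.span_singleton_le_iff_mem]; exact hP
    · rw [P.height]
      exact Ideal.one_le_height_span_singleton_of_mem_nonZeroDivisors
        (mem_nonZeroDivisors_iff_ne_zero.2 ha)
  · intro P _ Q _ h
    exact Curve1.ext' h

end dvr

/-- The local rings of the curves on a regular surface are discrete valuation rings. -/
theorem dvr_of_regular {A : Type*} [CommRing A] [IsDomain A] [IsRegularRing A] (P : Curve1 A) :
    IsDiscreteValuationRing (Localization.AtPrime P.ideal) := by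
  have h1 := IsRegularLocalRing.iff_finrank_cotangentSpace
    (R := Localization.AtPrime P.ideal)
  have h2 : IsRegularLocalRing (Localization.AtPrime P.ideal) := inferInstance
  have h3 := h1.1 h2
  rw [IsLocalization.AtPrime.ringKrullDim_eq_height P.ideal (Localization.AtPrime P.ideal),
    P.height] at h3
  have h4 : Module.finrank (IsLocalRing.ResidueField (Localization.AtPrime P.ideal))
      (IsLocalRing.CotangentSpace (Localization.AtPrime P.ideal)) = 1 := by
    exact_mod_cast h3
  exact IsLocalRing.finrank_CotangentSpace_eq_one_iff.1 h4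

/-- Every pair of nonzero functions has a chain of tame symbols. -/
theorem exists_tameChain {A : Type*} [CommRing A] [IsDomain A] [IsNoetherianRing A]
    (hA : ∀ P : Curve1 A, IsDiscreteValuationRing (Localization.AtPrime P.ideal)) {a b : A}
    (ha : a ≠ 0) (hb : b ≠ 0) :
    ∃ ξ : Chain1 A, ∀ P : Curve1 A, IsTame P a b (Additive.toMul (ξ P)) := by
  classical
  choose t ht using fun P : Curve1 A => exists_tame hA P ha hb
  let S : Finset (Curve1 A) := (finite_curves (mul_ne_zero ha hb)).toFinset
  refine ⟨DFinsupp.mk S (fun P => Additive.ofMul (t P.1)), ?_⟩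
  intro P
  rw [DFinsupp.mk_apply]
  split_ifs with h
  · exact ht P
  · have h1 : a * b ∉ P.ideal := by
      intro h2
      apply h
      simpa [S] using h2
    have h2 : a ∉ P.ideal := fun h3 => h1 (Ideal.mul_mem_right _ _ h3)
    have h3 : b ∉ P.ideal := fun h3 => h1 (Ideal.mul_mem_left _ _ h3)
    apply IsTame.of_not_mem hA P ha h2
    rw [(vAt_eq_zero hA P hb).2 h3, pow_zero]
    rfl

section chains

open Classical in
/-- The chain `(P, g)`. -/
noncomputable def single1 {A : Type*} [CommRing A] (P : Curve1 A) (h : (kap P)ˣ) : Chain1 A :=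
  DFinsupp.single P (Additive.ofMul h)

variable {A : Type*} [CommRing A]

theorem single1_mul {P : Curve1 A} (g h : (kap P)ˣ) :
    single1 P (g * h) = single1 P g + single1 P h := by
  classical
  unfold single1
  rw [ofMul_mul, DFinsupp.single_add]

theorem single1_pow {P : Curve1 A} (g : (kap P)ˣ) (n : ℕ) :
    single1 P (g ^ n) = n • single1 P g := by
  induction n with
  | zero =>
    classical
    rw [pow_zero, zero_nsmul]
    unfold single1
    rw [ofMul_one, DFinsupp.single_zero]
  | succ n ih => rw [pow_succ, single1_mul, ih, succ_nsmul]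

/-- The restriction of `g` to `P` as a unit (`1` if `g` vanishes on `P`). -/
noncomputable def resU (P : Curve1 A) (g : A) : (kap P)ˣ :=
  haveI := Classical.dec (res P g = 0)
  if h : res P g = 0 then 1 else Units.mk0 (res P g) h

theorem resU_coe {P : Curve1 A} {g : A} (hg : g ∉ P.ideal) : (resU P g : kap P) = res P g := by
  have h : res P g ≠ 0 := fun h => hg ((res_eq_zero P g).1 h)
  unfold resU
  rw [dif_neg h, Units.val_mk0]

theorem resU_mul {P : Curve1 A} {g h : A} (hg : g ∉ P.ideal) (hh : h ∉ P.ideal) :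
    resU P (g * h) = resU P g * resU P h := by
  apply Units.ext
  rw [resU_coe, Units.val_mul, resU_coe hg, resU_coe hh, res_mul]
  intro hmem
  rcases P.isPrime.mem_or_mem hmem with h1 | h1
  · exact hg h1
  · exact hh h1

theorem resU_congr {P : Curve1 A} {g h : A} (hgh : g - h ∈ P.ideal) : resU P g = resU P h := by
  have h1 : res P g = res P h := (res_eq_iff P g h).2 hgh
  by_cases hh : h ∈ P.ideal
  · have hg : g ∈ P.ideal := by
      have h2 := P.ideal.add_mem hgh hh
      rwa [sub_add_cancel] at h2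
    have h3 : res P g = 0 := (res_eq_zero P g).2 hg
    have h4 : res P h = 0 := (res_eq_zero P h).2 hh
    unfold resU
    rw [dif_pos h3, dif_pos h4]
  · have hg : g ∉ P.ideal := fun hg => hh (by
      have h2 := P.ideal.sub_mem hg hgh
      rwa [sub_sub_cancel] at h2)
    apply Units.ext
    rw [resU_coe hg, resU_coe hh, h1]

/-- The functional of chains `lam` as a symbol: the value on the chain
`sum over P of v_P(f) (P, g)`. -/
noncomputable def symb (lam : Chain1 A →+ ℚ) (f g : A) : ℚ :=
  ∑ᶠ P : Curve1 A, (vAt P f : ℚ) * lam (single1 P (resU P g))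

variable [IsDomain A] [IsNoetherianRing A]
  (hA : ∀ P : Curve1 A, IsDiscreteValuationRing (Localization.AtPrime P.ideal))

include hA

theorem vAt_support {f : A} (hf : f ≠ 0) : {P : Curve1 A | vAt P f ≠ 0}.Finite := by
  apply (finite_curves hf).subset
  intro P hP
  exact (vAt_ne_zero hA P hf).1 hP

theorem symb_support (lam : Chain1 A →+ ℚ) {f : A} (hf : f ≠ 0) (g : A) :
    (Function.support fun P : Curve1 A =>
      (vAt P f : ℚ) * lam (single1 P (resU P g))).Finite := by
  apply (vAt_support hA hf).subset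
  intro P hP h
  apply hP
  change (vAt P f : ℚ) * lam (single1 P (resU P g)) = 0
  rw [h, Nat.cast_zero, zero_mul]

/-- The chain of tame symbols of a coprime pair. -/
theorem exists_tameChain_cop {f g : A} (h : Cop f g) :
    ∃ ξ : Chain1 A, (∀ P : Curve1 A, IsTame P f g (Additive.toMul (ξ P))) ∧
      ∀ lam : Chain1 A →+ ℚ, lam ξ = symb lam g f - symb lam f g := by
  classical
  obtain ⟨hf, hg, hfg⟩ := h
  have hFf := vAt_support hA hf
  have hFg := vAt_support hA hg
  -- the chain
  let S : Finset (Curve1 A) := hFf.toFinset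
  let T : Finset (Curve1 A) := hFg.toFinset
  let ξ : Chain1 A := (∑ P ∈ T, vAt P g • single1 P (resU P f)) -
    ∑ P ∈ S, vAt P f • single1 P (resU P g)
  have hcomp : ∀ (U : Finset (Curve1 A)) (a b : A) (P : Curve1 A), (∀ P, P ∈ U ↔ vAt P a ≠ 0) →
      (∑ P ∈ U, vAt P a • single1 P (resU P b)) P = vAt P a • Additive.ofMul (resU P b) := by
    intro U a b P hU
    rw [DFinsupp.finsetSum_apply]
    rw [Finset.sum_eq_single P]
    · simp [single1]
    · intro Q _ hQ
      simp [single1, DFinsupp.single_apply, hQ]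
    · intro hP
      rw [hU, not_not] at hP
      simp [hP]
  have hS : ∀ P, P ∈ S ↔ vAt P f ≠ 0 := fun P => by simp [S]
  have hT : ∀ P, P ∈ T ↔ vAt P g ≠ 0 := fun P => by simp [T]
  refine ⟨ξ, ?_, ?_⟩
  · intro P
    have h1 : Additive.toMul (ξ P) = resU P f ^ vAt P g / resU P g ^ vAt P f := by
      change Additive.toMul ((∑ P ∈ T, vAt P g • single1 P (resU P f)) P -
        (∑ P ∈ S, vAt P f • single1 P (resU P g)) P) = _
      rw [hcomp T g f P hT, hcomp S f g P hS]
      rfl
    rw [h1]
    by_cases hfP : f ∈ P.ideal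
    · have hgP : g ∉ P.ideal := hfg P.ideal P.isPrime P.height hfP
      apply IsTame.of_not_mem' hA P hg hgP
      have h0 : vAt P g = 0 := (vAt_eq_zero hA P hg).2 hgP
      rw [h0, pow_zero, one_div, ← resU_coe hgP, ← Units.val_pow_eq_pow_val, ← Units.val_mul,
        inv_mul_cancel, Units.val_one]
    · apply IsTame.of_not_mem hA P hf hfP
      have h0 : vAt P f = 0 := (vAt_eq_zero hA P hf).2 hfP
      rw [h0, pow_zero, div_one, Units.val_pow_eq_pow_val, resU_coe hfP]
  · intro lam
    have hsum : ∀ (U : Finset (Curve1 A)) (a b : A), (∀ P, P ∈ U ↔ vAt P a ≠ 0) →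
        lam (∑ P ∈ U, vAt P a • single1 P (resU P b)) = symb lam a b := by
      intro U a b hU
      rw [map_sum]
      unfold symb
      rw [finsum_eq_sum_of_support_subset (s := U)]
      · apply Finset.sum_congr rfl
        intro P _
        rw [map_nsmul, nsmul_eq_mul]
      · intro P hP
        rw [Finset.mem_coe, hU]
        intro h0
        apply hP
        change (vAt P a : ℚ) * _ = 0
        rw [h0, Nat.cast_zero, zero_mul]
    change lam (_ - _) = _
    rw [map_sub, hsum T g f hT, hsum S f g hS]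

theorem isSymb_symb (lam : Chain1 A →+ ℚ) (hlam : ∀ η ∈ tameSubgroup A, lam η = 0) :
    IsSymb (symb lam) := by
  refine ⟨?_, ?_, ?_⟩
  · intro f g hfg
    obtain ⟨ξ, h1, h2⟩ := exists_tameChain_cop hA hfg
    have h3 : lam ξ = 0 := hlam ξ (AddSubgroup.subset_closure ⟨f, g, hfg.1, hfg.2.1, h1⟩)
    rw [h2] at h3
    linarith
  · intro f g h hg hh
    have hf := hg.1
    unfold symb
    rw [← finsum_add_distrib (symb_support hA lam hf g) (symb_support hA lam hf h)]
    apply finsum_congr
    intro P
    by_cases hfP : f ∈ P.ideal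
    · have h1 := hg.2.2 P.ideal P.isPrime P.height hfP
      have h2 := hh.2.2 P.ideal P.isPrime P.height hfP
      rw [resU_mul h1 h2, single1_mul, map_add]
      ring
    · rw [(vAt_eq_zero hA P hf).2 hfP]
      simp
  · intro f g r hg hgr
    have hf := hg.1
    unfold symb
    apply finsum_congr
    intro P
    by_cases hfP : f ∈ P.ideal
    · have h1 : resU P (g + f * r) = resU P g := by
        apply resU_congr
        rw [add_sub_cancel_left]
        exact Ideal.mul_mem_right _ _ hfP
      rw [h1]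
    · rw [(vAt_eq_zero hA P hf).2 hfP]
      simp

/-- The splitting of the chain `(P, h)`. -/
theorem symb_split (lam : Chain1 A →+ ℚ) (P : Curve1 A) (q a b : A) (hq : q ≠ 0)
    (hv : vAt P q = 1) (ha : a ∉ P.ideal) (hb : b ∉ P.ideal) (h : (kap P)ˣ) (N : ℕ)
    (hab : res P a = (h : kap P) ^ N * res P b)
    (hoff : ∀ P' : Curve1 A, P' ≠ P → q ∈ P'.ideal → a - b ∈ P'.ideal) :
    (N : ℚ) * lam (single1 P h) = symb lam q a - symb lam q b := by
  classical
  unfold symb
  rw [← finsum_sub_distrib (symb_support hA lam hq a) (symb_support hA lam hq b)]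
  rw [finsum_eq_single _ P]
  · rw [hv, Nat.cast_one, one_mul, one_mul]
    have h1 : resU P a = h ^ N * resU P b := by
      apply Units.ext
      rw [resU_coe ha, Units.val_mul, Units.val_pow_eq_pow_val, resU_coe hb, hab]
    rw [h1, single1_mul, single1_pow, map_add, map_nsmul, nsmul_eq_mul]
    ring
  · intro P' hP'
    by_cases hqP : q ∈ P'.ideal
    · rw [resU_congr (hoff P' hP' hqP), sub_self]
    · rw [(vAt_eq_zero hA P' hq).2 hqP]
      simp

end chains

/-- Duality: a chain no multiple of which lies in a subgroup is detected by a functional. -/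
theorem exists_functional {G : Type*} [AddCommGroup G] (T : AddSubgroup G) (ξ : G)
    (h : ∀ N : ℕ, 0 < N → N • ξ ∉ T) :
    ∃ lam : G →+ ℚ, (∀ η ∈ T, lam η = 0) ∧ lam ξ ≠ 0 := by
  classical
  let Q := G ⧸ T
  let x : Q := QuotientAddGroup.mk' T ξ
  have hx : ∀ N : ℕ, 0 < N → N • x ≠ 0 := by
    intro N hN h0
    apply h N hN
    rw [← map_nsmul] at h0
    exact (QuotientAddGroup.eq_zero_iff _).1 h0
  let V := TensorProduct ℤ ℚ Q
  let y : V := TensorProduct.tmul ℤ (1 : ℚ) x
  have hy : y ≠ 0 := by
    intro h0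
    have h1 : (TensorProduct.mk ℤ ℚ Q 1) x = 0 := h0
    rw [IsLocalizedModule.eq_zero_iff (nonZeroDivisors ℤ)] at h1
    obtain ⟨c, hc⟩ := h1
    have hc0 : (c : ℤ) ≠ 0 := nonZeroDivisors.ne_zero c.2
    apply hx (c : ℤ).natAbs (Int.natAbs_pos.2 hc0)
    rcases Int.natAbs_eq (c : ℤ) with h2 | h2
    · rw [← natCast_zsmul, ← h2]
      exact hc
    · rw [← natCast_zsmul]
      have h3 : (((c : ℤ).natAbs : ℕ) : ℤ) = -(c : ℤ) := by omega
      rw [h3, neg_smul, neg_eq_zero]
      exact hc
  obtain ⟨f, hf⟩ : ∃ f : Module.Dual ℚ V, f y ≠ 0 := by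
    by_contra hcon
    push Not at hcon
    exact hy ((Module.forall_dual_apply_eq_zero_iff ℚ y).1 hcon)
  refine ⟨(f.toAddMonoidHom.comp (TensorProduct.mk ℤ ℚ Q 1).toAddMonoidHom).comp
    (QuotientAddGroup.mk' T), ?_, hf⟩
  intro η hη
  have h1 : QuotientAddGroup.mk' T η = 0 := (QuotientAddGroup.eq_zero_iff _).2 hη
  change f (TensorProduct.mk ℤ ℚ Q 1 (QuotientAddGroup.mk' T η)) = 0
  rw [h1, map_zero, map_zero]

end Pool.Agent.K1
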