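import Pool.Agent.K1.SectionExpDef

/-!
Structure of `A` and `A/(q)` over the base line `k[s]`.
-/

open Polynomial

namespace Pool.Agent.K1.SectionExp

variable {k A : Type*} [Field k] [CommRing A] [Algebra k A] (E : SectionExp k A)

/-- `q` has pole order `n` along the section and leading coefficient one. -/
def MonicAt (n : ℕ) (q : A) : Prop :=
  E.co q (-(n : ℤ)) = 1 ∧ ∀ i < -(n : ℤ), E.co q i = 0

/-- The ring homomorphism `k[s][T] → A`, `T ↦ q`. -/
noncomputable def evT (q : A) : k[X][X] →+* A :=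
  eval₂RingHom ((aeval E.s : k[X] →ₐ[k] A) : k[X] →+* A) q

namespace M6b

theorem ι_aeval (r : k[X]) : E.ι (aeval E.s r) = HahnSeries.C r := by
  induction r using Polynomial.induction_on' with
  | add p q hp hq => rw [map_add, map_add, hp, hq, map_add]
  | monomial m a =>
    rw [aeval_monomial, map_mul, map_pow, E.ι_s, E.ι_C,
      ← map_pow, ← map_mul, ← C_mul_X_pow_eq_monomial]

theorem co_zero (i : ℤ) : E.co 0 i = 0 := by simp [co]

theorem co_add (f g : A) (i : ℤ) : E.co (f + g) i = E.co f i + E.co g i := by simp [co]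

theorem co_sub (f g : A) (i : ℤ) : E.co (f - g) i = E.co f i - E.co g i := by simp [co]

theorem co_sum {β : Type*} (T : Finset β) (F : β → A) (i : ℤ) :
    E.co (∑ t ∈ T, F t) i = ∑ t ∈ T, E.co (F t) i := by
  classical
  induction T using Finset.induction_on with
  | empty => simpa using co_zero E i
  | insert a T' ha ih => rw [Finset.sum_insert ha, Finset.sum_insert ha, co_add, ih]

theorem co_aeval_mul (r : k[X]) (f : A) (i : ℤ) : E.co (aeval E.s r * f) i = r * E.co f i := by
  unfold co
  rw [map_mul, ι_aeval, HahnSeries.C_apply, HahnSeries.coeff_single_zero_mul]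

theorem co_aeval_zero (r : k[X]) : E.co (aeval E.s r) 0 = r := by
  unfold co
  rw [ι_aeval, HahnSeries.C_apply, HahnSeries.coeff_single_same]

theorem eq_zero_of_co {f : A} (h : ∀ i, E.co f i = 0) : f = 0 := by
  apply E.inj
  rw [map_zero]
  ext1
  funext i
  exact h i

/-- An element without pole and with constant coefficient zero vanishes. -/
theorem eq_zero_of_le {f : A} (h : ∀ i ≤ 0, E.co f i = 0) : f = 0 := by
  obtain ⟨P, hP⟩ := E.pole f (fun i hi => h i hi.le)
  have h0 := h 0 le_rfl
  rw [hP, co_aeval_zero] at h0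
  rw [hP, h0, map_zero]

/-- The lowest coefficient of a product. -/
theorem co_mul_low {f g : A} {a b : ℤ} (hf : ∀ i < a, E.co f i = 0) (hg : ∀ i < b, E.co g i = 0) :
    (∀ i < a + b, E.co (f * g) i = 0) ∧ E.co (f * g) (a + b) = E.co f a * E.co g b := by
  constructor
  · intro i hi
    unfold co
    rw [map_mul, HahnSeries.coeff_mul]
    apply Finset.sum_eq_zero
    rintro ⟨x, y⟩ hxy
    rw [Finset.mem_antidiagonal] at hxy
    obtain ⟨hx, hy, hs⟩ := hxy
    exfalso
    simp only at hs
    by_cases h : x < a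
    · exact hx (hf x h)
    · exact hy (hg y (by omega))
  · unfold co
    rw [map_mul, HahnSeries.coeff_mul]
    by_cases hab : E.co f a = 0 ∨ E.co g b = 0
    · have hz : (E.ι f).coeff a * (E.ι g).coeff b = 0 := by
        rcases hab with h | h
        · unfold co at h; rw [h, zero_mul]
        · unfold co at h; rw [h, mul_zero]
      rw [hz]
      apply Finset.sum_eq_zero
      rintro ⟨x, y⟩ hxy
      rw [Finset.mem_antidiagonal] at hxy
      obtain ⟨hx, hy, hs⟩ := hxy
      exfalso
      simp only at hs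
      have h1 : ¬ x < a := fun h => hx (hf x h)
      have h2 : ¬ y < b := fun h => hy (hg y h)
      have h3 : x = a := by omega
      have h4 : y = b := by omega
      subst h3 h4
      rcases hab with h | h
      · exact hx h
      · exact hy h
    · rw [not_or] at hab
      rw [Finset.sum_eq_single (a, b)]
      · rintro ⟨x, y⟩ hxy hne
        rw [Finset.mem_antidiagonal] at hxy
        obtain ⟨hx, hy, hs⟩ := hxy
        exfalso
        simp only at hs
        have h1 : ¬ x < a := fun h => hx (hf x h)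
        have h2 : ¬ y < b := fun h => hy (hg y h)
        apply hne
        have h3 : x = a := by omega
        have h4 : y = b := by omega
        rw [h3, h4]
      · intro h
        exfalso
        apply h
        rw [Finset.mem_antidiagonal]
        exact ⟨hab.1, hab.2, rfl⟩

theorem exists_bound (f : A) : ∃ m : ℕ, ∀ i < -(m : ℤ), E.co f i = 0 := by
  refine ⟨(-(E.ι f).order).toNat, fun i hi => ?_⟩
  apply HahnSeries.coeff_eq_zero_of_lt_order
  have := Int.self_le_toNat (-(E.ι f).order)
  omega

theorem monicAt_pow {n : ℕ} {q : A} (hq : E.MonicAt n q) (l : ℕ) : E.MonicAt (n * l) (q ^ l) := by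
  induction l with
  | zero =>
    have h1 : ∀ i, E.co (1 : A) i = if i = 0 then 1 else 0 := by
      intro i
      unfold co
      rw [map_one, HahnSeries.coeff_one]
      split_ifs <;> rfl
    constructor
    · rw [pow_zero, h1]; simp
    · intro i hi
      rw [pow_zero, h1, if_neg]
      push_cast at hi
      omega
  | succ l ih =>
    have h := co_mul_low E ih.2 hq.2
    have he : -((n * l : ℕ) : ℤ) + -(n : ℤ) = -((n * (l + 1) : ℕ) : ℤ) := by push_cast; ring
    rw [he] at h
    rw [pow_succ]
    refine ⟨?_, h.1⟩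
    rw [h.2, ih.1, hq.1, one_mul]

theorem co_dvd_of_mul {n : ℕ} {q : A} (hq : E.MonicAt n q) (c : k) (g : A)
    (h : ∀ i, (X - C c) ∣ E.co (q * g) i) : ∀ i, (X - C c) ∣ E.co g i := by
  set φ : k[X] →ₙ+* k := (evalRingHom c : k[X] →ₙ+* k) with hφ
  have hφe : ∀ p : k[X], φ p = eval c p := fun p => rfl
  have hmul : ((E.ι (q * g)).map φ : HahnSeries ℤ k) = (E.ι q).map φ * (E.ι g).map φ := by
    rw [map_mul]
    exact HahnSeries.map_mul _
  have h0 : ((E.ι (q * g)).map φ : HahnSeries ℤ k) = 0 := by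
    ext i
    have := h i
    rw [dvd_iff_isRoot] at this
    rw [HahnSeries.map_coeff, hφe, HahnSeries.coeff_zero]
    exact this
  rw [h0] at hmul
  rcases mul_eq_zero.mp hmul.symm with h1 | h1
  · exfalso
    have h2 := congrArg (fun z : HahnSeries ℤ k => z.coeff (-(n : ℤ))) h1
    have h3 : (E.ι q).coeff (-(n : ℤ)) = 1 := hq.1
    simp only [HahnSeries.map_coeff, h3, hφe, eval_one, HahnSeries.coeff_zero] at h2
    exact one_ne_zero h2
  · intro i
    rw [dvd_iff_isRoot]
    have h2 := congrArg (fun z : HahnSeries ℤ k => z.coeff i) h1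
    simp only [HahnSeries.map_coeff, hφe, HahnSeries.coeff_zero] at h2
    exact h2

end M6b

open M6b

/-- `(s - c)` is prime: `(s - c) f = q g` implies `s - c ∣ g`; then factor `r` (k algebraically
closed). -/
theorem M6b_torsion [IsDomain A] [IsAlgClosed k] (n : ℕ) (q : A) (hq : E.MonicAt n q) (r : k[X])
    (hr : r ≠ 0) (f g : A) (h : aeval E.s r * f = q * g) : ∃ g', f = q * g' := by
  induction hd : r.natDegree using Nat.strong_induction_on generalizing r f g with
  | _ d ih =>
    rcases Nat.eq_zero_or_pos d with hd0 | hd0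
    · subst hd0
      rw [natDegree_eq_zero] at hd
      obtain ⟨a, rfl⟩ := hd
      have ha : a ≠ 0 := by rintro rfl; simp at hr
      refine ⟨algebraMap k A a⁻¹ * g, ?_⟩
      rw [aeval_C] at h
      calc f = algebraMap k A a⁻¹ * (algebraMap k A a * f) := by
            rw [← mul_assoc, ← map_mul, inv_mul_cancel₀ ha, map_one, one_mul]
        _ = _ := by rw [h]; ring
    · have hdeg : r.degree ≠ 0 := by
        intro h0
        have := natDegree_eq_of_degree_eq_some (n := 0) (by simpa using h0)
        omega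
      obtain ⟨c, hc⟩ := IsAlgClosed.exists_root r hdeg
      obtain ⟨r', rfl⟩ := dvd_iff_isRoot.mpr hc
      have hs : E.s - algebraMap k A c ≠ 0 := by
        intro h0
        have h1 := ι_aeval E (X - C c)
        rw [map_sub, aeval_X, aeval_C, h0, map_zero] at h1
        have h2 := HahnSeries.C_injective (Γ := ℤ) (R := k[X]) (h1.symm.trans (map_zero _).symm)
        exact X_sub_C_ne_zero c h2
      have h1 : ∀ i, (X - C c) ∣ E.co (q * g) i := by
        intro i
        rw [← h, co_aeval_mul, mul_assoc]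
        exact dvd_mul_right _ _
      have h2 := co_dvd_of_mul E hq c g h1
      obtain ⟨g1, hg1⟩ := E.fibre c g h2
      have h3 : aeval E.s r' * f = q * g1 := by
        apply mul_left_cancel₀ hs
        calc (E.s - algebraMap k A c) * (aeval E.s r' * f) = aeval E.s ((X - C c) * r') * f := by
              rw [map_mul, map_sub, aeval_X, aeval_C]; ring
          _ = q * g := h
          _ = _ := by rw [hg1]; ring
      have hr' : r' ≠ 0 := right_ne_zero_of_mul hr
      refine ih r'.natDegree ?_ r' hr' f g1 h3 rfl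
      rw [← hd, natDegree_mul (X_sub_C_ne_zero c) hr', natDegree_X_sub_C]
      omega

namespace M6b

theorem evT_C (q : A) (r : k[X]) : E.evT q (C r) = aeval E.s r := by
  simp [evT]

theorem evT_X (q : A) : E.evT q X = q := by
  simp [evT]

/-- The elements of bounded pole order form a finitely generated module over `k[s]`. -/
theorem exists_gen_bounded (N : ℕ) : ∃ G : Finset A, ∀ f : A, (∀ i < -(N : ℤ), E.co f i = 0) →
    ∃ c : A → k[X], f = ∑ g ∈ G, aeval E.s (c g) * g := by
  classical
  let S : Submodule k[X] (Fin (N + 1) → k[X]) :=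
    { carrier := {v | ∃ f, (∀ i < -(N : ℤ), E.co f i = 0) ∧
        ∀ j : Fin (N + 1), E.co f (-((j : ℕ) : ℤ)) = v j}
      add_mem' := by
        rintro v w ⟨f, hf, hf'⟩ ⟨g, hg, hg'⟩
        refine ⟨f + g, fun i hi => ?_, fun j => ?_⟩
        · rw [co_add, hf i hi, hg i hi, add_zero]
        · rw [co_add, hf', hg', Pi.add_apply]
      zero_mem' := ⟨0, fun i _ => co_zero E i, fun j => co_zero E _⟩
      smul_mem' := by
        rintro r v ⟨f, hf, hf'⟩
        refine ⟨aeval E.s r * f, fun i hi => ?_, fun j => ?_⟩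
        · rw [co_aeval_mul, hf i hi, mul_zero]
        · rw [co_aeval_mul, hf', Pi.smul_apply, smul_eq_mul] }
  have hinj : ∀ f : A, (∀ i < -(N : ℤ), E.co f i = 0) →
      (∀ j : Fin (N + 1), E.co f (-((j : ℕ) : ℤ)) = 0) → f = 0 := by
    intro f hf hf'
    apply eq_zero_of_le E
    intro i hi
    by_cases h : i < -(N : ℤ)
    · exact hf i h
    · have h1 : (-i).toNat < N + 1 := by omega
      have h2 := hf' ⟨(-i).toNat, h1⟩
      have h3 : -((((⟨(-i).toNat, h1⟩ : Fin (N + 1)) : ℕ) : ℤ)) = i := by
        simp only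
        omega
      rwa [h3] at h2
  obtain ⟨T, hT⟩ := IsNoetherian.noetherian S
  have hTS : ∀ t ∈ T, ∃ f, (∀ i < -(N : ℤ), E.co f i = 0) ∧
      ∀ j : Fin (N + 1), E.co f (-((j : ℕ) : ℤ)) = t j := by
    intro t ht
    have : t ∈ S := by rw [← hT]; exact Submodule.subset_span ht
    exact this
  choose! F hF1 hF2 using hTS
  let _ : Module k[X] A := Module.compHom A ((aeval E.s : k[X] →ₐ[k] A) : k[X] →+* A)
  have hsm : ∀ (r : k[X]) (a : A), r • a = aeval E.s r * a := fun r a => rfl
  refine ⟨T.image F, fun f hf => ?_⟩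
  have hv : (fun j : Fin (N + 1) => E.co f (-((j : ℕ) : ℤ))) ∈ Submodule.span k[X] (T : Set _) := by
    rw [hT]
    exact ⟨f, hf, fun j => rfl⟩
  obtain ⟨c, -, hc⟩ := Submodule.mem_span_finset.mp hv
  have hcoT : ∀ i, E.co (∑ t ∈ T, aeval E.s (c t) * F t) i = ∑ t ∈ T, c t * E.co (F t) i := by
    intro i
    rw [co_sum]
    exact Finset.sum_congr rfl fun t _ => co_aeval_mul E _ _ _
  have hfe : f = ∑ t ∈ T, aeval E.s (c t) * F t := by
    rw [← sub_eq_zero]
    apply hinj
    · intro i hi
      rw [co_sub, hcoT, hf i hi, zero_sub, neg_eq_zero]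
      apply Finset.sum_eq_zero
      intro t ht
      rw [hF1 t ht i hi, mul_zero]
    · intro j
      rw [co_sub, hcoT, sub_eq_zero]
      have h1 := congrFun hc j
      simp only [Finset.sum_apply, Pi.smul_apply, smul_eq_mul] at h1
      rw [← h1]
      apply Finset.sum_congr rfl
      intro t ht
      rw [hF2 t ht j]
  have hmem : f ∈ Submodule.span k[X] ((T.image F : Finset A) : Set A) := by
    rw [hfe]
    apply Submodule.sum_mem
    intro t ht
    rw [← hsm]
    apply Submodule.smul_mem
    apply Submodule.subset_span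
    exact Finset.mem_coe.mpr (Finset.mem_image_of_mem F ht)
  obtain ⟨d, -, hd⟩ := Submodule.mem_span_finset.mp hmem
  exact ⟨d, hd.symm⟩

end M6b

/-- `{f : pole order < N}` is a noetherian `k[s]`-module (it embeds in `k[X]^N` by `E.pole`);
then descend on the pole order with `E.mono`. -/
theorem M6b_finite [IsDomain A] (n : ℕ) (hn : 1 ≤ n) (q : A) (hq : E.MonicAt n q) :
    ∃ G : Finset A, ∀ f : A, ∃ P : A → k[X][X], f = ∑ g ∈ G, E.evT q (P g) * g := by
  classical
  obtain ⟨j₀, hj₀⟩ := E.mono
  obtain ⟨G, hG⟩ := exists_gen_bounded E (n + j₀)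
  refine ⟨G, ?_⟩
  let _ : Module k[X][X] A := Module.compHom A (E.evT q)
  have hsm : ∀ (r : k[X][X]) (a : A), r • a = E.evT q r * a := fun r a => rfl
  have key : ∀ m : ℕ, ∀ f, (∀ i < -(m : ℤ), E.co f i = 0) →
      f ∈ Submodule.span k[X][X] (G : Set A) := by
    intro m
    induction m using Nat.strong_induction_on with
    | _ m ih =>
      intro f hf
      by_cases hm : m ≤ n + j₀
      · obtain ⟨c, hc⟩ := hG f (fun i hi => hf i (by push_cast at hi; omega))
        rw [hc]
        apply Submodule.sum_mem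
        intro g hg
        rw [← evT_C E q, ← hsm]
        exact Submodule.smul_mem _ _ (Submodule.subset_span (Finset.mem_coe.mpr hg))
      · have hm' : n + j₀ < m := not_le.mp hm
        obtain ⟨u, hu1, hu2⟩ := hj₀ (m - n) (by omega)
        have hprod := co_mul_low E hq.2 (f := q) (g := u) hu2
        have he : -(n : ℤ) + -((m - n : ℕ) : ℤ) = -(m : ℤ) := by
          have : ((m - n : ℕ) : ℤ) = (m : ℤ) - n := by
            rw [Nat.cast_sub (by omega)]
          omega
        rw [he] at hprod
        have hu1' : E.co u (-((m - n : ℕ) : ℤ)) = 1 := hu1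
        have hf' : f - aeval E.s (E.co f (-(m : ℤ))) * (q * u) ∈
            Submodule.span k[X][X] (G : Set A) := by
          apply ih (m - 1) (by omega)
          intro i hi
          rw [co_sub, co_aeval_mul]
          by_cases hi' : i = -(m : ℤ)
          · rw [hi', hprod.2, hq.1, hu1', one_mul, mul_one, sub_self]
          · have h1 : i < -(m : ℤ) := by
              have : ((m - 1 : ℕ) : ℤ) = (m : ℤ) - 1 := by
                rw [Nat.cast_sub (by omega)]; rfl
              omega
            rw [hf i h1, hprod.1 i h1, mul_zero, sub_zero]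
        have hu' : u ∈ Submodule.span k[X][X] (G : Set A) := ih (m - n) (by omega) u hu2
        have hfe : f = (f - aeval E.s (E.co f (-(m : ℤ))) * (q * u)) +
            (C (E.co f (-(m : ℤ))) * X : k[X][X]) • u := by
          rw [hsm, map_mul, evT_C, evT_X]
          ring
        rw [hfe]
        exact Submodule.add_mem _ hf' (Submodule.smul_mem _ _ hu')
  intro f
  obtain ⟨m, hm⟩ := exists_bound E f
  obtain ⟨P, -, hP⟩ := Submodule.mem_span_finset.mp (key m f hm)
  exact ⟨P, hP.symm⟩

/-- `ε i` = an element of minimal pole order in the class `i` mod `n`. -/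
theorem M6b_rank [IsDomain A] (n : ℕ) (hn : 1 ≤ n) (q : A) (hq : E.MonicAt n q) :
    ∃ ε : Fin n → A, ∀ f : A, ∃ r : k[X], r ≠ 0 ∧ ∃ P : Fin n → k[X][X],
      aeval E.s r * f = ∑ i, E.evT q (P i) * ε i := by
  classical
  obtain ⟨j₀, hj₀⟩ := E.mono
  have hex : ∀ i : Fin n, ∃ m : ℕ, m % n = i ∧ ∃ e : A, E.co e (-(m : ℤ)) ≠ 0 ∧
      ∀ l < -(m : ℤ), E.co e l = 0 := by
    intro i
    refine ⟨n * j₀ + i, ?_, ?_⟩
    · rw [Nat.mul_add_mod, Nat.mod_eq_of_lt i.2]
    · obtain ⟨u, hu1, hu2⟩ := hj₀ (n * j₀ + i) (by nlinarith)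
      refine ⟨u, ?_, hu2⟩
      have hu1' : E.co u (-((n * j₀ + i : ℕ) : ℤ)) = 1 := hu1
      rw [hu1']
      exact one_ne_zero
  have hmin : ∀ i : Fin n, ∃ (m : ℕ) (e : A), m % n = i ∧ E.co e (-(m : ℤ)) ≠ 0 ∧
      (∀ l < -(m : ℤ), E.co e l = 0) ∧ ∀ (m' : ℕ) (e' : A), m' % n = i → E.co e' (-(m' : ℤ)) ≠ 0 →
        (∀ l < -(m' : ℤ), E.co e' l = 0) → m ≤ m' := by
    intro i
    obtain ⟨h1, e, h2, h3⟩ := Nat.find_spec (hex i)
    exact ⟨Nat.find (hex i), e, h1, h2, h3, fun m' e' h4 h5 h6 =>
      Nat.find_min' (hex i) ⟨h4, e', h5, h6⟩⟩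
  choose μ ε hμ1 hμ2 hμ3 hμ4 using hmin
  refine ⟨ε, ?_⟩
  have key : ∀ M : ℕ, ∀ f : A, (∀ i ≤ -(M : ℤ), E.co f i = 0) →
      ∃ r : k[X], r ≠ 0 ∧ ∃ P : Fin n → k[X][X], aeval E.s r * f = ∑ i, E.evT q (P i) * ε i := by
    intro M
    induction M with
    | zero =>
      intro f hf
      have : f = 0 := eq_zero_of_le E (by simpa using hf)
      refine ⟨1, one_ne_zero, fun _ => 0, ?_⟩
      simp [this]
    | succ M ih =>
      intro f hf
      by_cases h0 : E.co f (-(M : ℤ)) = 0
      · apply ih
        intro i hi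
        rcases eq_or_lt_of_le hi with h | h
        · rw [h, h0]
        · exact hf i (by push_cast; omega)
      · set i : Fin n := ⟨M % n, Nat.mod_lt _ hn⟩ with hi
        have hfM : ∀ l < -(M : ℤ), E.co f l = 0 := fun l hl => hf l (by push_cast; omega)
        have hle : μ i ≤ M := hμ4 i M f rfl h0 hfM
        have hmod : μ i % n = M % n := hμ1 i
        obtain ⟨l, hl⟩ : ∃ l, M = n * l + μ i := by
          have h1 : n ∣ M - μ i := (Nat.modEq_iff_dvd' hle).mp hmod
          obtain ⟨l, hl⟩ := h1
          exact ⟨l, by omega⟩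
        have hql := monicAt_pow E hq l
        have hprod := co_mul_low E (f := q ^ l) (g := ε i) hql.2 (hμ3 i)
        have he : -((n * l : ℕ) : ℤ) + -(μ i : ℤ) = -(M : ℤ) := by
          rw [hl]; push_cast; ring
        rw [he] at hprod
        obtain ⟨r', hr', P', hP'⟩ := ih (aeval E.s (E.co (ε i) (-(μ i : ℤ))) * f -
            aeval E.s (E.co f (-(M : ℤ))) * (q ^ l * ε i)) (by
          intro j hj
          rw [co_sub, co_aeval_mul, co_aeval_mul]
          rcases eq_or_lt_of_le hj with h | h
          · rw [h, hprod.2, hql.1, one_mul]; ring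
          · rw [hfM j h, hprod.1 j h, mul_zero, mul_zero, sub_zero])
        refine ⟨r' * E.co (ε i) (-(μ i : ℤ)), mul_ne_zero hr' (hμ2 i),
          fun j => P' j + if j = i then C (r' * E.co f (-(M : ℤ))) * X ^ l else 0, ?_⟩
        have hsum : ∑ j, E.evT q (P' j + if j = i then C (r' * E.co f (-(M : ℤ))) * X ^ l else 0) *
            ε j = ∑ j, E.evT q (P' j) * ε j +
              aeval E.s (r' * E.co f (-(M : ℤ))) * q ^ l * ε i := by
          have hX : E.evT q (C (r' * E.co f (-(M : ℤ))) * X ^ l) =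
              aeval E.s (r' * E.co f (-(M : ℤ))) * q ^ l := by
            rw [map_mul, map_pow, evT_C, evT_X]
          rw [← hX]
          have h1 : ∀ j, E.evT q (P' j + if j = i then C (r' * E.co f (-(M : ℤ))) * X ^ l else 0) *
              ε j = E.evT q (P' j) * ε j +
                if j = i then E.evT q (C (r' * E.co f (-(M : ℤ))) * X ^ l) * ε j else 0 := by
            intro j
            by_cases hj : j = i
            · rw [if_pos hj, if_pos hj, map_add]; ring
            · rw [if_neg hj, if_neg hj, add_zero, add_zero]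
          rw [Finset.sum_congr rfl (fun j _ => h1 j), Finset.sum_add_distrib,
            Finset.sum_ite_eq' Finset.univ i, if_pos (Finset.mem_univ i)]
        rw [hsum, ← hP', map_mul, map_mul]
        ring
  intro f
  obtain ⟨m, hm⟩ := exists_bound E f
  exact key (m + 1) f (fun i hi => hm i (by push_cast at hi; omega))

namespace M6b

/-- `n + 1` vectors of length `n` over a domain are dependent. -/
theorem exists_relation {R : Type*} [CommRing R] [IsDomain R] (n : ℕ)
    (M : Fin (n + 1) → Fin n → R) :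
    ∃ c : Fin (n + 1) → R, c ≠ 0 ∧ ∀ j, ∑ i, c i * M i j = 0 := by
  classical
  let N : Matrix (Fin (n + 1)) (Fin (n + 1)) R :=
    fun i j => if h : (j : ℕ) < n then M i ⟨j, h⟩ else 0
  have hdet : N.det = 0 := by
    apply Matrix.det_eq_zero_of_column_eq_zero (Fin.last n)
    intro i
    simp [N]
  obtain ⟨c, hc, hc'⟩ := Matrix.exists_vecMul_eq_zero_iff.mpr hdet
  refine ⟨c, hc, fun j => ?_⟩
  have h1 := congrFun hc' j.castSucc
  simpa [Matrix.vecMul, dotProduct, N] using h1

theorem evT_mod (q : A) (P : k[X][X]) :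
    ∃ g : A, E.evT q P = aeval E.s (P.coeff 0) + q * g := by
  obtain ⟨Q, hQ⟩ : ∃ Q : k[X][X], P = C (P.coeff 0) + X * Q := by
    refine ⟨P.divX, ?_⟩
    rw [add_comm]
    exact (X_mul_divX_add P).symm
  refine ⟨E.evT q Q, ?_⟩
  conv_lhs => rw [hQ]
  rw [map_add, map_mul, evT_C, evT_X]

end M6b

/-- Any `n + 1` elements are dependent modulo `q` over `k[s]` (from M6b_rank). -/
theorem M6b_dep_quot [IsDomain A] [IsAlgClosed k] (n : ℕ) (hn : 1 ≤ n) (q : A)
    (hq : E.MonicAt n q) (v : Fin (n + 1) → A) :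
    ∃ r : Fin (n + 1) → k[X], r ≠ 0 ∧ ∃ g : A, ∑ i, aeval E.s (r i) * v i = q * g := by
  classical
  obtain ⟨ε, hε⟩ := E.M6b_rank n hn q hq
  choose r hr P hP using fun i => hε (v i)
  choose G hG using fun i j => evT_mod E q (P i j)
  obtain ⟨c, hc, hc'⟩ := exists_relation n (fun i j => (P i j).coeff 0)
  refine ⟨fun i => c i * r i, ?_, ∑ i, ∑ j, aeval E.s (c i) * G i j * ε j, ?_⟩
  · intro h
    apply hc
    funext i
    exact (mul_eq_zero.mp (congrFun h i)).resolve_right (hr i)
  · have h1 : ∀ i, aeval E.s (c i * r i) * v i =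
        ∑ j, aeval E.s (c i * (P i j).coeff 0) * ε j + q * ∑ j, aeval E.s (c i) * G i j * ε j := by
      intro i
      rw [map_mul, mul_assoc, hP i, Finset.mul_sum, Finset.mul_sum, ← Finset.sum_add_distrib]
      apply Finset.sum_congr rfl
      intro j _
      rw [hG i j, map_mul]
      ring
    rw [Finset.sum_congr rfl (fun i _ => h1 i), Finset.sum_add_distrib, Finset.mul_sum,
      Finset.sum_comm]
    have h2 : ∀ j, ∑ i, aeval E.s (c i * (P i j).coeff 0) * ε j = 0 := by
      intro j
      rw [← Finset.sum_mul, ← map_sum, hc' j, map_zero, zero_mul]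
    rw [Finset.sum_congr rfl (fun j _ => h2 j), Finset.sum_const_zero, zero_add]

/-- Any `n + 1` elements are dependent over `k[s, q]` (from M6b_rank). -/
theorem M6b_dep_alg [IsDomain A] (n : ℕ) (hn : 1 ≤ n) (q : A) (hq : E.MonicAt n q)
    (v : Fin (n + 1) → A) :
    ∃ P : Fin (n + 1) → k[X][X], P ≠ 0 ∧ ∑ i, E.evT q (P i) * v i = 0 := by
  classical
  obtain ⟨ε, hε⟩ := E.M6b_rank n hn q hq
  choose r hr P hP using fun i => hε (v i)
  obtain ⟨c, hc, hc'⟩ := exists_relation n (fun i j => P i j)
  refine ⟨fun i => c i * C (r i), ?_, ?_⟩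
  · intro h
    apply hc
    funext i
    exact (mul_eq_zero.mp (congrFun h i)).resolve_right (C_ne_zero.mpr (hr i))
  · have h1 : ∀ i, E.evT q (c i * C (r i)) * v i = ∑ j, E.evT q (c i * P i j) * ε j := by
      intro i
      rw [map_mul, evT_C, mul_assoc, hP i, Finset.mul_sum]
      apply Finset.sum_congr rfl
      intro j _
      rw [map_mul]
      ring
    rw [Finset.sum_congr rfl (fun i _ => h1 i), Finset.sum_comm]
    apply Finset.sum_eq_zero
    intro j _
    rw [← Finset.sum_mul, ← map_sum, hc' j, map_zero, zero_mul]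

/-- Common denominators: if every element of `A` is, modulo `q` and up to a nonzero `r(s)`, in a
set `B` closed under addition and multiplication by `k[s]`, then one `r` works for all
(from M6b_finite). -/
theorem M6b_conductor [IsDomain A] (n : ℕ) (hn : 1 ≤ n) (q : A) (hq : E.MonicAt n q)
    (B : Set A) (h0 : (0 : A) ∈ B) (hadd : ∀ x ∈ B, ∀ y ∈ B, x + y ∈ B)
    (hsmul : ∀ r : k[X], ∀ x ∈ B, aeval E.s r * x ∈ B) (hq' : ∀ g, q * g ∈ B)
    (h : ∀ f : A, ∃ r : k[X], r ≠ 0 ∧ aeval E.s r * f ∈ B) :
    ∃ r : k[X], r ≠ 0 ∧ ∀ f : A, aeval E.s r * f ∈ B := by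
  classical
  obtain ⟨G, hG⟩ := E.M6b_finite n hn q hq
  choose r hr hrB using h
  refine ⟨∏ g ∈ G, r g, Finset.prod_ne_zero_iff.mpr fun g _ => hr g, fun f => ?_⟩
  obtain ⟨P, hP⟩ := hG f
  have hsum : ∀ (T : Finset A) (F : A → A), (∀ g ∈ T, F g ∈ B) → ∑ g ∈ T, F g ∈ B := by
    intro T F hF
    exact Finset.sum_induction F (· ∈ B) (fun x y hx hy => hadd x hx y hy) h0 hF
  rw [hP, Finset.mul_sum]
  apply hsum
  intro g hg
  obtain ⟨w, hw⟩ := evT_mod E q (P g)
  have h1 : aeval E.s (∏ g ∈ G, r g) * (E.evT q (P g) * g) =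
      aeval E.s ((∏ x ∈ G.erase g, r x) * (P g).coeff 0) * (aeval E.s (r g) * g) +
        q * (aeval E.s (∏ g ∈ G, r g) * w * g) := by
    rw [hw, ← Finset.mul_prod_erase G r hg, map_mul, map_mul]
    ring
  rw [h1]
  exact hadd _ (hsmul _ _ (hrB g)) _ (hq' _)

end Pool.Agent.K1.SectionExp
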