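import Pool.Agent.K1.DefsB
import Pool.Agent.K1.CurveDef
import Pool.Agent.K1.M6b
import Pool.Agent.K1.Gersten

/-!
Definitions for the moving lemma and the end game of the K1 project.
-/

set_option autoImplicit false

open Polynomial

namespace Pool.Agent.K1

/-- A family of elements of all large pole orders. -/
def UFam {k A : Type} [Field k] [CommRing A] [Algebra k A] (E : SectionExp k A) (κ j₀ : ℕ)
    (U : ℕ → A) : Prop :=
  ∀ a : ℕ, j₀ ≤ a → E.co (U a) (-(a : ℤ)) = 1 ∧ (∀ l < -(a : ℤ), E.co (U a) l = 0) ∧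
    ∀ l : ℤ, -(a : ℤ) ≤ l → ((E.co (U a) l).natDegree : ℤ) ≤ κ * (a + l)

/-- the statement of `K1_core`, for given constants -/
def K1CoreConcl {k A : Type} [Field k] [CommRing A] [Algebra k A] (E : SectionExp k A)
    (c₀ μ₀ n₀ : ℕ) : Prop :=
  ∀ e n M : ℕ, n = 2 ^ e → n₀ ≤ n → Odd M → μ₀ * n ≤ M →
      (∀ d : A, E.InV n M d → IsDomain (A ⧸ Ideal.span {d}) ∧
        ∃ o : OneLeaf k (A ⧸ Ideal.span {d}), o.wt (Ideal.Quotient.mk _ E.s) = n) ∧
      ∃ z : ℕ, z < n * M ∧ n * M < z + c₀ * n ∧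
        ∀ q₀ : A, E.InV n M q₀ → ∀ φ : A → A → ℚ, CurveFun {d | E.InV n M d} φ →
          ∀ Ψ : A → (A →ₐ[k] k) → ℚ, (∀ d, E.InV n M d → IsPsiA k d (φ d) (Ψ d)) →
            ∃ u : (A →ₐ[k] k) → ℚ, ∀ c ∈ E.Near n M z q₀, ∀ x : A →ₐ[k] k,
              TransvAt E.s c x → Ψ c x = u x

/-- The curve `P` is finite over the base line: `A/P` is a finite `k[s]`-module. -/
def Horiz {k A : Type} [Field k] [CommRing A] [Algebra k A] (E : SectionExp k A)
    (P : Curve1 A) : Prop :=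
  ∃ G : Finset A, ∀ f : A, ∃ c : A → k[X], f - ∑ g ∈ G, aeval E.s (c g) * g ∈ P.ideal

/-- A relation of integrality at infinity of the base: `v h^m = sum_{i<m} a_i h^i`,
`deg a_i ≤ deg v`. -/
def IntInf (k : Type) {κ : Type} [Field k] [Field κ] [Algebra k κ] (s h : κ) (m : ℕ) : Prop :=
  ∃ (v : k[X]) (a : Fin m → k[X]), v ≠ 0 ∧ (∀ i, (a i).natDegree ≤ v.natDegree) ∧
    aeval s v * h ^ m = ∑ i, aeval s (a i) * h ^ (i : ℕ)

end Pool.Agent.K1
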