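import Pool.Agent.K1.CurveDef

/-!
K1-20: a Frobenius structure on an algebra of finite type over an algebraic closure of `F_p`.
-/

open Polynomial

namespace Pool.Agent.K1

namespace Frob

theorem exists_pow_eq (p : ℕ) [Fact p.Prime] {k : Type} [Field k]
    [Algebra (ZMod p) k] [Algebra.IsAlgebraic (ZMod p) k] (c : k) :
    ∃ m : ℕ, 0 < m ∧ c ^ (p ^ m) = c := by
  classical
  have hint : IsIntegral (ZMod p) c := (Algebra.IsAlgebraic.isAlgebraic c).isIntegral
  haveI : FiniteDimensional (ZMod p) (IntermediateField.adjoin (ZMod p) {c}) :=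
    IntermediateField.adjoin.finiteDimensional hint
  haveI : Finite (IntermediateField.adjoin (ZMod p) {c}) :=
    Module.finite_of_finite (ZMod p)
  haveI : Fintype (IntermediateField.adjoin (ZMod p) {c}) := Fintype.ofFinite _
  refine ⟨Module.finrank (ZMod p) (IntermediateField.adjoin (ZMod p) {c}),
    Module.finrank_pos, ?_⟩
  have hcard : Fintype.card (IntermediateField.adjoin (ZMod p) {c})
      = p ^ Module.finrank (ZMod p) (IntermediateField.adjoin (ZMod p) {c}) := by
    rw [Module.card_eq_pow_finrank (K := ZMod p), ZMod.card]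
  have h := FiniteField.pow_card
    (⟨c, IntermediateField.mem_adjoin_simple_self (ZMod p) c⟩ :
      IntermediateField.adjoin (ZMod p) {c})
  rw [hcard] at h
  exact congrArg Subtype.val h

theorem pow_mul_eq {k : Type} [Field k] (p : ℕ) (c : k) (m : ℕ) (h : c ^ (p ^ m) = c) (j : ℕ) :
    c ^ (p ^ (m * j)) = c := by
  induction j with
  | zero => simp
  | succ j ih => rw [Nat.mul_succ, pow_add, pow_mul, ih, h]

theorem exists_common (p : ℕ) [Fact p.Prime] {k : Type} [Field k]
    [Algebra (ZMod p) k] [Algebra.IsAlgebraic (ZMod p) k] (T : Finset k) :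
    ∃ m₀ : ℕ, 0 < m₀ ∧ ∀ m : ℕ, m₀ ∣ m → ∀ c ∈ T, c ^ (p ^ m) = c := by
  classical
  choose g hg0 hg using exists_pow_eq p (k := k)
  refine ⟨∏ c ∈ T, g c, Finset.prod_pos fun c _ => hg0 c, ?_⟩
  intro m hm c hc
  obtain ⟨j, hj⟩ := (Finset.dvd_prod_of_mem g hc).trans hm
  rw [hj]
  exact pow_mul_eq p c (g c) (hg c) j

end Frob

theorem exists_frobSemi (p : ℕ) [Fact p.Prime] {k A : Type} [Field k] [IsAlgClosed k]
    [CharP k p] [Algebra (ZMod p) k] [Algebra.IsAlgebraic (ZMod p) k] [CommRing A] [Algebra k A]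
    [Algebra.FiniteType k A] (E : Finset A) :
    ∃ m₀ : ℕ, 0 < m₀ ∧ ∀ m : ℕ, m₀ ∣ m → 0 < m →
      ∃ σ : A →+* A, IsFrobSemi k (p ^ m) σ ∧ ∀ e ∈ E, σ e = e := by
  classical
  obtain ⟨r, f, hf⟩ := Algebra.FiniteType.iff_quotient_mvPolynomial''.1
    (inferInstance : Algebra.FiniteType k A)
  obtain ⟨S, hS⟩ := (isNoetherianRing_iff_ideal_fg _).1
    (inferInstance : IsNoetherianRing (MvPolynomial (Fin r) k)) (RingHom.ker f.toRingHom)
  choose L hL using hf
  set U : Finset (MvPolynomial (Fin r) k) := S ∪ E.image L with hU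
  set T : Finset k := U.biUnion fun P => P.support.image fun d => P.coeff d with hT
  obtain ⟨m₀, hm₀, hc⟩ := Frob.exists_common p T
  refine ⟨m₀, hm₀, ?_⟩
  intro m hm _
  set θ : MvPolynomial (Fin r) k →+* MvPolynomial (Fin r) k :=
    MvPolynomial.map (iterateFrobenius k p m) with hθ
  have hfix : ∀ P ∈ U, θ P = P := by
    intro P hP
    ext d
    rw [hθ, MvPolynomial.coeff_map, iterateFrobenius_def]
    by_cases hd : P.coeff d = 0
    · rw [hd, zero_pow (pow_pos (Fact.out : p.Prime).pos m).ne']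
    · apply hc m hm
      rw [hT, Finset.mem_biUnion]
      exact ⟨P, hP, Finset.mem_image.2 ⟨d, MvPolynomial.mem_support_iff.2 hd, rfl⟩⟩
  have hker : RingHom.ker f.toRingHom ≤ RingHom.ker (f.toRingHom.comp θ) := by
    rw [← hS, Ideal.span_le]
    intro P hP
    have h1 : P ∈ RingHom.ker f.toRingHom := by
      rw [← hS]
      exact Ideal.subset_span hP
    rw [SetLike.mem_coe, RingHom.mem_ker, RingHom.comp_apply,
      hfix P (Finset.mem_union_left _ (Finset.mem_coe.1 hP))]
    exact h1
  have hsurj : Function.Surjective f.toRingHom := fun a => ⟨L a, hL a⟩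
  set σ : A →+* A := f.toRingHom.liftOfSurjective hsurj ⟨f.toRingHom.comp θ, hker⟩ with hσdef
  have hσ : ∀ P, σ (f P) = f (θ P) := by
    intro P
    have := RingHom.liftOfRightInverse_comp_apply f.toRingHom _
      (Function.rightInverse_surjInv hsurj) ⟨f.toRingHom.comp θ, hker⟩ P
    exact this
  refine ⟨σ, ?_, ?_⟩
  · intro c
    have h1 : algebraMap k A c = f (MvPolynomial.C c) := (f.commutes c).symm
    rw [h1, hσ, hθ, MvPolynomial.map_C, iterateFrobenius_def]
    exact f.commutes _
  · intro e he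
    have h1 : f (L e) = e := hL e
    have h2 : θ (L e) = L e :=
      hfix _ (Finset.mem_union_right _ (Finset.mem_image_of_mem _ he))
    calc σ e = σ (f (L e)) := by rw [h1]
      _ = f (θ (L e)) := hσ _
      _ = e := by rw [h2, h1]

end Pool.Agent.K1
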