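import Mathlib
import Pool.Agent.K1.CurveDef

/-!
Project K1, second half, part A: the ideal of a point (Nakayama over the Nullstellensatz), and
generic choices in a finite dimensional space of generators.
-/

namespace Pool.Agent.K1

/-- Nullstellensatz: a maximal ideal of a finitely generated algebra over an algebraically closed
field is the kernel of a point. -/
theorem exists_point_of_isMaximal {k A : Type} [Field k] [IsAlgClosed k] [CommRing A]
    [Algebra k A] [Algebra.FiniteType k A] (M : Ideal A) (hM : M.IsMaximal) :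
    ∃ x : A →ₐ[k] k, RingHom.ker x = M := by
  letI : Field (A ⧸ M) := Ideal.Quotient.field M
  haveI : Algebra.FiniteType k (A ⧸ M) :=
    Algebra.FiniteType.of_surjective (Ideal.Quotient.mkₐ k M) (Ideal.Quotient.mkₐ_surjective k M)
  haveI : Module.Finite k (A ⧸ M) := finite_of_finite_type_of_isJacobsonRing k (A ⧸ M)
  have hb : Function.Bijective (algebraMap k (A ⧸ M)) :=
    IsAlgClosed.algebraMap_bijective_of_isIntegral
  let e : k ≃ₐ[k] (A ⧸ M) := AlgEquiv.ofBijective (Algebra.ofId k (A ⧸ M)) hb
  refine ⟨(e.symm : (A ⧸ M) →ₐ[k] k).comp (Ideal.Quotient.mkₐ k M), ?_⟩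
  ext z
  rw [RingHom.mem_ker, AlgHom.comp_apply]
  constructor
  · intro h
    have h1 : Ideal.Quotient.mkₐ k M z = 0 := by
      have h2 : e.symm (Ideal.Quotient.mkₐ k M z) = e.symm 0 := by
        rw [map_zero]
        exact h
      exact e.symm.injective h2
    rwa [Ideal.Quotient.mkₐ_eq_mk, Ideal.Quotient.eq_zero_iff_mem] at h1
  · intro h
    have h1 : Ideal.Quotient.mkₐ k M z = 0 := by
      rw [Ideal.Quotient.mkₐ_eq_mk, Ideal.Quotient.eq_zero_iff_mem]
      exact h
    rw [h1, map_zero]

/-- An ideal whose only point is `x`, with multiplicity one there, is the ideal of `x`. -/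
theorem ideal_eq_ker {k A : Type} [Field k] [IsAlgClosed k] [CommRing A] [Algebra k A]
    [Algebra.FiniteType k A] (I : Ideal A) (x : A →ₐ[k] k) (hI : I ≤ RingHom.ker x)
    (huniq : ∀ x' : A →ₐ[k] k, I ≤ RingHom.ker x' → x' = x)
    (h2 : RingHom.ker x ≤ I ⊔ (RingHom.ker x) ^ 2) : I = RingHom.ker x := by
  haveI : IsNoetherianRing A := Algebra.FiniteType.isNoetherianRing k A
  have hfg : (RingHom.ker x : Ideal A).FG := IsNoetherian.noetherian _
  have h3 : (RingHom.ker x : Ideal A) ≤ I ⊔ (RingHom.ker x : Ideal A) • (RingHom.ker x : Ideal A) := by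
    rw [smul_eq_mul, ← pow_two]
    exact h2
  obtain ⟨r, hr, hrI⟩ :=
    Submodule.exists_sub_one_mem_and_smul_le_of_fg_of_le_sup hfg le_rfl h3
  have htop : I ⊔ Ideal.span {r} = ⊤ := by
    by_contra hne
    obtain ⟨M, hM, hle⟩ := Ideal.exists_le_maximal _ hne
    obtain ⟨x', hx'⟩ := exists_point_of_isMaximal (k := k) M hM
    have hx : x' = x := huniq x' (by rw [hx']; exact le_trans le_sup_left hle)
    have hrM : r ∈ RingHom.ker x := by
      rw [← hx, hx']
      exact hle (Ideal.mem_sup_right (Ideal.mem_span_singleton_self r))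
    have h1 : x (r - 1) = 0 := by
      rwa [RingHom.mem_ker] at hr
    rw [RingHom.mem_ker] at hrM
    rw [map_sub, hrM, map_one] at h1
    simp at h1
  refine le_antisymm hI fun m hm => ?_
  have h1 : (1 : A) ∈ I ⊔ Ideal.span {r} := by
    rw [htop]
    trivial
  obtain ⟨i, hi, s, hs, his⟩ := Submodule.mem_sup.mp h1
  obtain ⟨b, rfl⟩ := Ideal.mem_span_singleton'.mp hs
  have hrm : r * m ∈ I := hrI (Submodule.smul_mem_pointwise_smul m r _ hm)
  have h4 : m = i * m + b * (r * m) := by
    calc m = 1 * m := (one_mul m).symm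
      _ = (i + b * r) * m := by rw [his]
      _ = i * m + b * (r * m) := by ring
  rw [h4]
  exact I.add_mem (I.mul_mem_right _ hi) (I.mul_mem_left _ hrm)

/-- Finitely many proper affine hyperplanes do not cover a space over an infinite field. -/
theorem exists_add_ne_zero {k A ι : Type} [Field k] [Infinite k] [AddCommGroup A] [Module k A]
    [Finite ι] (V : Submodule k A) (f : ι → A →ₗ[k] k) (hf : ∀ i, ∃ g ∈ V, f i g ≠ 0) (a : A) :
    ∃ g ∈ V, ∀ i, f i (a + g) ≠ 0 := by
  let F : Option ι → Module.Dual k (A × k) := fun o =>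
    match o with
    | none => LinearMap.snd k A k
    | some i => (f i).coprod (LinearMap.toSpanSingleton k k (f i a))
  obtain ⟨v, hv, hne⟩ := Module.Dual.exists_forall_mem_ne_zero_of_forall_exists
    (V.prod ⊤) F (by
      intro o
      match o with
      | none => exact ⟨(0, 1), ⟨V.zero_mem, trivial⟩, one_ne_zero⟩
      | some i =>
        obtain ⟨g, hg, hgi⟩ := hf i
        refine ⟨(g, 0), ⟨hg, trivial⟩, ?_⟩
        change ((f i).coprod (LinearMap.toSpanSingleton k k (f i a))) (g, 0) ≠ 0
        rw [LinearMap.coprod_apply]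
        simpa using hgi)
  obtain ⟨g, t⟩ := v
  have ht : t ≠ 0 := hne none
  refine ⟨t⁻¹ • g, V.smul_mem _ hv.1, fun i h0 => ?_⟩
  have h1 : ((f i).coprod (LinearMap.toSpanSingleton k k (f i a))) (g, t) ≠ 0 := hne (some i)
  apply h1
  rw [LinearMap.coprod_apply]
  rw [map_add, map_smul, smul_eq_mul] at h0
  simp only [LinearMap.toSpanSingleton_apply, smul_eq_mul]
  have h2 : t * (f i a + t⁻¹ * f i g) = 0 := by rw [h0, mul_zero]
  rw [mul_add, ← mul_assoc, mul_inv_cancel₀ ht, one_mul] at h2
  rw [add_comm]
  exact h2

/-- A linear functional which kills the constants and the square of the ideal of `x` is a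
derivation at `x`. -/
theorem functional_mul {k A : Type} [Field k] [CommRing A] [Algebra k A] (x : A →ₐ[k] k)
    (B : A →ₗ[k] k) (h1 : B 1 = 0) (h2 : ∀ z ∈ (RingHom.ker x : Ideal A) ^ 2, B z = 0) (u v : A) :
    B (u * v) = x u * B v + x v * B u := by
  have hk : ∀ w : A, w - algebraMap k A (x w) ∈ (RingHom.ker x : Ideal A) := by
    intro w
    rw [RingHom.mem_ker, map_sub, AlgHom.commutes]
    simp
  have h3 : (u - algebraMap k A (x u)) * (v - algebraMap k A (x v)) ∈
      (RingHom.ker x : Ideal A) ^ 2 := by
    rw [pow_two]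
    exact Ideal.mul_mem_mul (hk u) (hk v)
  have h4 : u * v = (u - algebraMap k A (x u)) * (v - algebraMap k A (x v)) + x u • v + x v • u
      - (x u * x v) • (1 : A) := by
    simp only [Algebra.smul_def, map_mul]
    ring
  rw [h4, map_sub, map_add, map_add, map_smul, map_smul, map_smul, h2 _ h3, h1]
  simp

theorem exists_hub {k A : Type} [Field k] [IsAlgClosed k] [CommRing A] [Algebra k A]
    (G : Finset A) (hG : Algebra.adjoin k (G : Set A) = ⊤) (a s : A) (x : A →ₐ[k] k)
    (c : A) (hc : TransvAt s c x) (Z : Finset (A →ₐ[k] k)) (hZ : x ∉ Z) :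
    ∃ g ∈ Submodule.span k (G : Set A),
      (∀ x' ∈ Z, x' (a + g) ≠ x (a + g)) ∧
      TransvAt s (a + g - algebraMap k A (x (a + g))) x := by
  classical
  haveI : Infinite k := IsAlgClosed.instInfinite
  -- the functionals of the points of `Z`
  have hpt : ∀ x' : {x' // x' ∈ Z}, ∃ g ∈ Submodule.span k (G : Set A),
      (x'.1.toLinearMap - x.toLinearMap) g ≠ 0 := by
    intro x'
    by_contra hcon
    push Not at hcon
    apply hZ
    have h1 : x'.1 = x := by
      apply AlgHom.ext_of_adjoin_eq_top hG
      intro g hg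
      have h2 := hcon g (Submodule.subset_span hg)
      rw [LinearMap.sub_apply, sub_eq_zero] at h2
      exact h2
    rw [← h1]
    exact x'.2
  set m : Ideal A := RingHom.ker x with hm
  have hk : ∀ w : A, w - algebraMap k A (x w) ∈ m := by
    intro w
    rw [hm, RingHom.mem_ker, map_sub, AlgHom.commutes]
    simp
  have hxk : ∀ w : A, x (w - algebraMap k A (x w)) = 0 := fun w => by
    have := hk w
    rwa [hm, RingHom.mem_ker] at this
  obtain ⟨hxc, hcm⟩ := hc
  rw [← hm] at hcm
  let W : Submodule k A := ((m ^ 2 : Ideal A).restrictScalars k) ⊔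
    (Submodule.span k {s - algebraMap k A (x s)} ⊔ Submodule.span k {(1 : A)})
  by_cases hcW : c ∈ W
  · -- `s` alone generates the cotangent space
    obtain ⟨u, hu, w, hw, huw⟩ := Submodule.mem_sup.mp hcW
    obtain ⟨w1, hw1, w2, hw2, hww⟩ := Submodule.mem_sup.mp hw
    obtain ⟨α, rfl⟩ := Submodule.mem_span_singleton.mp hw1
    obtain ⟨β, rfl⟩ := Submodule.mem_span_singleton.mp hw2
    have hu' : u ∈ m ^ 2 := hu
    have hxu : x u = 0 := by
      have : u ∈ m := Ideal.pow_le_self two_ne_zero hu'
      rwa [hm, RingHom.mem_ker] at this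
    have hβ : β = 0 := by
      have h1 : x c = 0 := hxc
      rw [← huw, ← hww, map_add, map_add, map_smul, map_smul, hxu, hxk] at h1
      simpa using h1
    have hsm : m ≤ Ideal.span {s - algebraMap k A (x s)} ⊔ m ^ 2 := by
      refine le_trans hcm (sup_le ?_ le_sup_right)
      rw [Ideal.span_le]
      intro z hz
      rcases hz with rfl | hz
      · have hz1 : z = u + α • (s - algebraMap k A (x s)) := by
          rw [← huw, ← hww, hβ, zero_smul, add_zero]
        rw [hz1, add_comm, Algebra.smul_def]
        exact Ideal.add_mem _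
          (Ideal.mem_sup_left (Ideal.mul_mem_left _ _ (Ideal.mem_span_singleton_self _)))
          (Ideal.mem_sup_right hu')
      · rw [Set.mem_singleton_iff] at hz
        rw [hz]
        exact Ideal.mem_sup_left (Ideal.mem_span_singleton_self _)
    obtain ⟨g, hg, hgne⟩ := exists_add_ne_zero (Submodule.span k (G : Set A))
      (fun x' : {x' // x' ∈ Z} => x'.1.toLinearMap - x.toLinearMap) hpt a
    refine ⟨g, hg, fun x' hx' h0 => hgne ⟨x', hx'⟩ ?_, hxk _, ?_⟩
    · rw [LinearMap.sub_apply, sub_eq_zero]
      exact h0
    · refine le_trans hsm (sup_le_sup_right ?_ _)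
      apply Ideal.span_mono
      intro z hz
      exact Set.mem_insert_of_mem _ hz
  · -- a functional which detects `c`
    obtain ⟨B, hBc, hBW⟩ := Submodule.exists_le_ker_of_notMem hcW
    have hB2 : ∀ z ∈ m ^ 2, B z = 0 := fun z hz =>
      LinearMap.mem_ker.mp (hBW (Submodule.mem_sup_left hz))
    have hBs : B (s - algebraMap k A (x s)) = 0 :=
      LinearMap.mem_ker.mp (hBW (Submodule.mem_sup_right
        (Submodule.mem_sup_left (Submodule.mem_span_singleton_self _))))
    have hB1 : B 1 = 0 :=
      LinearMap.mem_ker.mp (hBW (Submodule.mem_sup_right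
        (Submodule.mem_sup_right (Submodule.mem_span_singleton_self _))))
    have hBmul := functional_mul x B hB1 (by rw [← hm]; exact hB2)
    have hBg : ∃ g ∈ Submodule.span k (G : Set A), B g ≠ 0 := by
      by_contra hcon
      push Not at hcon
      apply hBc
      let S : Subalgebra k A :=
        { carrier := {z | B z = 0}
          mul_mem' := by
            intro u v hu hv
            rw [Set.mem_setOf_eq] at hu hv ⊢
            rw [hBmul, hu, hv]
            simp
          one_mem' := hB1
          add_mem' := by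
            intro u v hu hv
            rw [Set.mem_setOf_eq] at hu hv ⊢
            rw [map_add, hu, hv, add_zero]
          zero_mem' := map_zero B
          algebraMap_mem' := by
            intro r
            rw [Set.mem_setOf_eq, Algebra.algebraMap_eq_smul_one, map_smul, hB1, smul_zero] }
      have hS : Algebra.adjoin k (G : Set A) ≤ S := by
        apply Algebra.adjoin_le
        intro g hg
        exact hcon g (Submodule.subset_span hg)
      rw [hG] at hS
      exact hS (Algebra.mem_top : c ∈ (⊤ : Subalgebra k A))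
    obtain ⟨g, hg, hgne⟩ := exists_add_ne_zero (Submodule.span k (G : Set A))
      (fun o : Option {x' // x' ∈ Z} =>
        match o with
        | none => B
        | some x' => x'.1.toLinearMap - x.toLinearMap)
      (by
        intro o
        match o with
        | none => exact hBg
        | some x' => exact hpt x') a
    have hBd : B (a + g) ≠ 0 := hgne none
    refine ⟨g, hg, fun x' hx' h0 => hgne (some ⟨x', hx'⟩) ?_, hxk _, ?_⟩
    · change (x'.toLinearMap - x.toLinearMap) (a + g) = 0
      rw [LinearMap.sub_apply, sub_eq_zero]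
      exact h0
    · rw [← hm]
      set d : A := a + g - algebraMap k A (x (a + g)) with hd
      have hBd' : B d ≠ 0 := by
        have : B d = B (a + g) := by
          rw [hd, map_sub, Algebra.algebraMap_eq_smul_one, map_smul, hB1, smul_zero, sub_zero]
        rw [this]
        exact hBd
      have hdm : d ∈ m := hk _
      -- write `d` in terms of `c`
      obtain ⟨w, hw, r, hr, hwr⟩ := Submodule.mem_sup.mp (hcm hdm)
      obtain ⟨p, q, hpq⟩ := Ideal.mem_span_pair.mp hw
      have hBd2 : B d = x p * B c := by
        rw [← hwr, ← hpq, map_add, map_add, hB2 r hr, hBmul, hBmul, hxc, hBs, hxk]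
        ring
      have hxp : x p ≠ 0 := by
        intro h0
        apply hBd'
        rw [hBd2, h0, zero_mul]
      have hcmem : c ∈ Ideal.span {d, s - algebraMap k A (x s)} ⊔ m ^ 2 := by
        have hpc : (p - algebraMap k A (x p)) * c ∈ m ^ 2 := by
          rw [pow_two]
          exact Ideal.mul_mem_mul (hk p) (by rw [hm, RingHom.mem_ker]; exact hxc)
        have h1 : algebraMap k A (x p) * c =
            d - q * (s - algebraMap k A (x s)) - (r + (p - algebraMap k A (x p)) * c) := by
          rw [← hwr, ← hpq]
          ring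
        have h2 : algebraMap k A (x p) * c ∈ Ideal.span {d, s - algebraMap k A (x s)} ⊔ m ^ 2 := by
          rw [h1]
          refine Ideal.sub_mem _ (Ideal.mem_sup_left (Ideal.sub_mem _ ?_ ?_))
            (Ideal.mem_sup_right (Ideal.add_mem _ hr hpc))
          · exact Ideal.subset_span (Set.mem_insert _ _)
          · exact Ideal.mul_mem_left _ _
              (Ideal.subset_span (Set.mem_insert_of_mem _ rfl))
        have h3 : c = algebraMap k A (x p)⁻¹ * (algebraMap k A (x p) * c) := by
          rw [← mul_assoc, ← map_mul, inv_mul_cancel₀ hxp, map_one, one_mul]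
        rw [h3]
        exact Ideal.mul_mem_left _ _ h2
      refine le_trans hcm (sup_le ?_ le_sup_right)
      rw [Ideal.span_le]
      intro z hz
      rcases hz with rfl | hz
      · exact hcmem
      · rw [Set.mem_singleton_iff] at hz
        rw [hz]
        exact Ideal.mem_sup_left (Ideal.subset_span (Set.mem_insert_of_mem _ rfl))

end Pool.Agent.K1
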