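import Pool.Agent.K1.Defs

/-!
Many good points on an irreducible plane curve that has one (K1-11, M5d).
-/

set_option autoImplicit false

open Polynomial

namespace Pool.Agent.K1

/-- If there is one good point on an irreducible plane curve, there are many. -/
theorem M5d_many_of_irreducible {K : Type*} [Field K] [IsAlgClosed K] (χ : K[X][X])
    (N : ℕ) (hm : χ.Monic) (hd : 1 ≤ χ.natDegree) (hirr : Irreducible χ) (s0 y0 : K)
    (h0 : Good χ s0 y0) :
    ∃ T : Finset (K × K), N ≤ T.card ∧ ∀ x ∈ T, Good χ x.1 x.2 := by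
  classical
  have hinf : Infinite K := IsAlgClosed.instInfinite
  have hD : derivative χ ≠ 0 := by
    intro h1
    apply h0.2
    rw [h1, evalEval_zero]
  have hprime : Prime χ := hirr.prime
  have hdom : IsDomain (AdjoinRoot χ) := by
    have h1 : (Ideal.span {χ} : Ideal K[X][X]).IsPrime :=
      (Ideal.span_singleton_prime hirr.ne_zero).2 hprime
    exact Ideal.Quotient.isDomain _
  have hDq : AdjoinRoot.mk χ (derivative χ) ≠ 0 := by
    intro h1
    rw [AdjoinRoot.mk_eq_zero] at h1
    have h2 := natDegree_le_of_dvd h1 hD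
    have h3 := natDegree_derivative_lt (p := χ) (by omega)
    omega
  have hint : IsIntegral K[X] (AdjoinRoot.mk χ (derivative χ)) := by
    have h1 : IsIntegral K[X] (AdjoinRoot.root χ) := AdjoinRoot.isIntegral_root' hm
    have h2 : Algebra.IsIntegral K[X] (AdjoinRoot χ) := by
      have := hm.finite_adjoinRoot
      infer_instance
    exact h2.isIntegral _
  have hcomap : (Ideal.span {AdjoinRoot.mk χ (derivative χ)}).comap
      (algebraMap K[X] (AdjoinRoot χ)) ≠ ⊥ :=
    Ideal.comap_ne_bot_of_integral_mem hDq (Ideal.mem_span_singleton_self _) hint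
  obtain ⟨r, hr, hr0⟩ := Submodule.exists_mem_ne_zero_of_ne_bot hcomap
  rw [Ideal.mem_comap, Ideal.mem_span_singleton] at hr
  obtain ⟨b, hb⟩ := hr
  obtain ⟨B, rfl⟩ := AdjoinRoot.mk_surjective b
  have h1 : AdjoinRoot.mk χ (C r - derivative χ * B) = 0 := by
    rw [map_sub, map_mul, ← hb, sub_eq_zero]
    rfl
  rw [AdjoinRoot.mk_eq_zero] at h1
  obtain ⟨A, hA⟩ := h1
  -- a good point above every `s` with `r(s)` nonzero
  have hgood : ∀ s : K, r.eval s ≠ 0 → ∃ y, Good χ s y := by
    intro s hs
    have hdeg : (χ.map (evalRingHom s)).degree ≠ 0 := by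
      rw [hm.degree_map, degree_eq_natDegree hm.ne_zero]
      intro h2
      have : χ.natDegree = 0 := by exact_mod_cast h2
      omega
    obtain ⟨y, hy⟩ := IsAlgClosed.exists_root (χ.map (evalRingHom s)) hdeg
    rw [IsRoot.def, map_evalRingHom_eval] at hy
    refine ⟨y, hy, ?_⟩
    intro h2
    apply hs
    have h3 := congrArg (evalEval s y) hA
    rw [evalEval_sub, evalEval_mul, evalEval_mul, h2, hy, zero_mul, zero_mul, sub_zero] at h3
    rw [← h3]
    simp [evalEval]
  have hfin : Set.Finite {s : K | r.eval s = 0} := by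
    have : {s : K | r.eval s = 0} ⊆ (r.roots.toFinset : Set K) := by
      intro s hs
      simp only [Finset.mem_coe, Multiset.mem_toFinset]
      exact (mem_roots hr0).2 hs
    exact (Finset.finite_toSet _).subset this
  have hinf2 : Set.Infinite {s : K | r.eval s = 0}ᶜ := hfin.infinite_compl
  obtain ⟨T0, hT0, hcard⟩ := hinf2.exists_subset_card_eq N
  choose! y hy using hgood
  refine ⟨T0.image (fun s => (s, y s)), ?_, ?_⟩
  · rw [Finset.card_image_of_injective _ (fun a b h => congrArg Prod.fst h), hcard]
  · intro x hx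
    rw [Finset.mem_image] at hx
    obtain ⟨s, hs, rfl⟩ := hx
    exact hy s (hT0 hs)

end Pool.Agent.K1
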