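import Pool.Agent.K1.M5bc
import Pool.Agent.K1.M5e
import Pool.Agent.K1.M5dAux
import Pool.Agent.K1.IrrCnz

/-!
K1-11: overrings, units, many good points, existence of `ψ`. The theorems `M5b_overring`,
`M5c_unit`, `M5c_isUnit` are in `M5bc.lean`, `M5e_exists_psi` is in `M5e.lean`.
-/

set_option autoImplicit false

open Polynomial

namespace Pool.Agent.K1

/-- If there is one good point, there are many (infinite field). -/
theorem M5d_many {K : Type*} [Field K] [Infinite K] [IsAlgClosed K] (χ : K[X][X]) (n z : ℕ)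
    (hn : 2 ≤ n) (hχ : IsCnz χ n z) (hcop : n.Coprime z) (s0 y0 : K) (h0 : Good χ s0 y0) :
    ∃ T : Finset (K × K), 2 * n + 1 ≤ T.card ∧ ∀ x ∈ T, Good χ x.1 x.2 :=
  M5d_many_of_irreducible χ (2 * n + 1) hχ.monic (by rw [hχ.natDegree]; omega)
    (irreducible_of_isCnz χ n z (by omega) hχ hcop) s0 y0 h0

end Pool.Agent.K1
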