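import Pool.Agent.K1.LeafDeg

/-!
K1-12, part A: a one leaf ring is free over `K[S]`; the characteristic polynomial.
-/

open Polynomial

namespace Pool.Agent.K1

variable {K R : Type*} [Field K] [CommRing R] [IsDomain R] [Algebra K R]

/-- The `K[X]`-algebra structure of `R` in which `X` acts as `S`. -/
noncomputable abbrev algS (S : R) : Algebra K[X] R := (aeval S : K[X] →ₐ[K] R).toRingHom.toAlgebra

section

variable (o : OneLeaf K R) (S Y : R) (n z : ℕ) (hn : 2 ≤ n) (hz : 1 ≤ z) (hcop : n.Coprime z)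
    (hS : o.wt S = n) (hY : o.wt Y = z)

omit [IsDomain R] in
include hn hz hS hY in
lemma S_Y_ne_zero : S ≠ 0 ∧ Y ≠ 0 := by
  constructor
  · rintro rfl
    rw [o.wt_zero] at hS
    omega
  · rintro rfl
    rw [o.wt_zero] at hY
    omega

omit hn in
include hcop in
/-- residues -/
lemma residue_unique {i j : ℕ} (hi : i < n) (hj : j < n) (h : z * i ≡ z * j [MOD n]) : i = j := by
  have h1 : i ≡ j [MOD n] := Nat.ModEq.cancel_left_of_coprime hcop h
  exact Nat.ModEq.eq_of_lt_of_lt h1 hi hj

include hn hcop in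
lemma residue_exists (w : ℕ) : ∃ j : Fin n, w ≡ z * j [MOD n] := by
  have hinj : Function.Injective (fun j : Fin n => (⟨(z * j) % n, Nat.mod_lt _ (by omega)⟩ : Fin n)) := by
    intro i j h
    have h' : (z * i) % n = (z * j) % n := by simpa using congrArg Fin.val h
    exact Fin.ext (residue_unique n z hcop i.2 j.2 h')
  have hsurj := Finite.surjective_of_injective hinj
  obtain ⟨j, hj⟩ := hsurj ⟨w % n, Nat.mod_lt _ (by omega)⟩
  refine ⟨j, ?_⟩
  have h' : (z * j) % n = w % n := by simpa using congrArg Fin.val hj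
  exact h'.symm

include hn hz hS hY in
lemma exists_min (j : Fin n) : ∃ e : R, e ≠ 0 ∧ o.wt e ≡ z * j [MOD n] ∧
    ∀ f : R, f ≠ 0 → o.wt f ≡ z * j [MOD n] → o.wt e ≤ o.wt f := by
  classical
  obtain ⟨_, hY0⟩ := S_Y_ne_zero o S Y n z hn hz hS hY
  have hex : ∃ w, ∃ e : R, e ≠ 0 ∧ o.wt e = w ∧ w ≡ z * j [MOD n] := by
    refine ⟨o.wt (Y ^ (j : ℕ)), Y ^ (j : ℕ), pow_ne_zero _ hY0, rfl, ?_⟩
    rw [o.wt_pow Y hY0, hY, mul_comm]
  obtain ⟨e, he0, hew, hem⟩ := Nat.find_spec hex
  refine ⟨e, he0, hew ▸ hem, fun f hf hfm => ?_⟩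
  rw [hew]
  exact Nat.find_min' hex ⟨f, hf, rfl, hfm⟩

include hn hz hcop hS hY in
/-- The basis over `K[S]`. -/
lemma exists_basis [Algebra K[X] R] (halg : ∀ a : K[X], ∀ r : R, a • r = aeval S a * r) :
    ∃ b : Module.Basis (Fin n) K[X] R, ∀ j, o.wt (b j) ≡ z * j [MOD n] := by
  obtain ⟨hS0, hY0⟩ := S_Y_ne_zero o S Y n z hn hz hS hY
  choose e he0 hem hemin using exists_min o S Y n z hn hz hS hY
  have hSpos : 0 < o.wt S := by omega
  have hdeg : ∀ (a : K[X]) (j : Fin n), a ≠ 0 →
      o.deg (a • e j) = ((n * a.natDegree + o.wt (e j) : ℕ) : WithBot ℕ) := by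
    intro a j ha
    rw [halg, o.deg_mul, o.deg_aeval S hSpos a ha, o.deg_of_ne (he0 j), hS]
    norm_cast
  have hli : LinearIndependent K[X] e := by
    rw [Fintype.linearIndependent_iff]
    intro g hg i
    have h := o.eq_zero_of_sum (fun j => g j • e j) Finset.univ ?_ hg i (Finset.mem_univ i)
    · by_contra hgi
      have h1 := hdeg (g i) i hgi
      rw [h, o.deg_zero] at h1
      exact absurd h1.symm WithBot.coe_ne_bot
    · intro i hi j hj hij h
      have hgi : g i ≠ 0 := by
        intro h0
        apply hi.2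
        simp only [h0, zero_smul]
      have hgj : g j ≠ 0 := by
        intro h0
        apply hj.2
        simp only [h0, zero_smul]
      rw [hdeg _ i hgi, hdeg _ j hgj] at h
      have h' : n * (g i).natDegree + o.wt (e i) = n * (g j).natDegree + o.wt (e j) := by
        exact_mod_cast h
      apply hij
      apply Fin.ext
      apply residue_unique n z hcop i.2 j.2
      have h1 : n * (g i).natDegree + o.wt (e i) ≡ o.wt (e i) [MOD n] := by
        simp [Nat.ModEq]
      have h2 : n * (g j).natDegree + o.wt (e j) ≡ o.wt (e j) [MOD n] := by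
        simp [Nat.ModEq]
      exact (hem i).symm.trans (h1.symm.trans (h' ▸ h2.trans (hem j)))
  have hsp : ⊤ ≤ Submodule.span K[X] (Set.range e) := by
    intro f _
    induction hw : o.wt f using Nat.strong_induction_on generalizing f with
    | _ w IH =>
      by_cases hf : f = 0
      · rw [hf]
        exact Submodule.zero_mem _
      obtain ⟨j, hj⟩ := residue_exists n z hn hcop (o.wt f)
      have hle := hemin j f hf hj
      have hmod : o.wt (e j) ≡ o.wt f [MOD n] := (hem j).trans hj.symm
      obtain ⟨i, hi⟩ := (Nat.modEq_iff_dvd' hle).mp hmod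
      have hwt : o.wt (S ^ i * e j) = o.wt f := by
        rw [o.wt_mul _ _ (pow_ne_zero _ hS0) (he0 j), o.wt_pow S hS0, hS, mul_comm]
        omega
      have hmem : S ^ i * e j ∈ Submodule.span K[X] (Set.range e) := by
        have : S ^ i * e j = (X ^ i : K[X]) • e j := by
          rw [halg]
          simp
        rw [this]
        exact Submodule.smul_mem _ _ (Submodule.subset_span ⟨j, rfl⟩)
      have hsm : ∀ (c : K) (r : R), r ∈ Submodule.span K[X] (Set.range e) →
          c • r ∈ Submodule.span K[X] (Set.range e) := by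
        intro c r hr
        have : c • r = (C c : K[X]) • r := by
          rw [halg, aeval_C, Algebra.smul_def]
        rw [this]
        exact Submodule.smul_mem _ _ hr
      obtain ⟨c, _, hc⟩ := o.leaf f (S ^ i * e j) hf (mul_ne_zero (pow_ne_zero _ hS0) (he0 j))
        hwt.symm
      rcases hc with hc | hc
      · rw [hc]
        exact hsm c _ hmem
      · have := IH _ (hw ▸ hc) (f := f - c • (S ^ i * e j)) trivial rfl
        have h2 := Submodule.add_mem _ this (hsm c _ hmem)
        rwa [sub_add_cancel] at h2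
  refine ⟨Module.Basis.mk hli hsp, fun j => ?_⟩
  rw [Module.Basis.mk_apply]
  exact hem j

include hn hz hS hY in
lemma deg_term (a : K[X]) (ha : a ≠ 0) (j : ℕ) :
    o.deg (aeval S a * Y ^ j) = ((n * a.natDegree + z * j : ℕ) : WithBot ℕ) := by
  obtain ⟨hS0, hY0⟩ := S_Y_ne_zero o S Y n z hn hz hS hY
  rw [o.deg_mul, o.deg_aeval S (by omega) a ha, o.deg_pow Y hY0, hS, hY]
  norm_cast
  ring

include hn hz hS hY in
lemma term_eq_zero (a : K[X]) (j : ℕ) (h : aeval S a * Y ^ j = 0) : a = 0 := by
  by_contra ha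
  have h1 := deg_term o S Y n z hn hz hS hY a ha j
  rw [h, o.deg_zero] at h1
  exact absurd h1.symm WithBot.coe_ne_bot

include hn hz hcop hS hY in
/-- `1, Y, ..., Y^(n-1)` are independent over `K[S]`. -/
lemma indep_pow (d : K[X][X]) (hd : d.natDegree < n)
    (h : d.eval₂ (aeval S : K[X] →ₐ[K] R).toRingHom Y = 0) : d = 0 := by
  rw [eval₂_eq_sum_range] at h
  have h1 := o.eq_zero_of_sum (fun j => (aeval S : K[X] →ₐ[K] R).toRingHom (d.coeff j) * Y ^ j)
    _ ?_ h
  · ext1 j
    rw [coeff_zero]
    by_cases hj : j ∈ Finset.range (d.natDegree + 1)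
    · exact term_eq_zero o S Y n z hn hz hS hY _ j (h1 j hj)
    · apply coeff_eq_zero_of_natDegree_lt
      rw [Finset.mem_range] at hj
      omega
  · intro i hi j hj hij h2
    have hi0 : d.coeff i ≠ 0 := by
      intro h0
      apply hi.2
      simp only [h0, map_zero, zero_mul]
    have hj0 : d.coeff j ≠ 0 := by
      intro h0
      apply hj.2
      simp only [h0, map_zero, zero_mul]
    have e1 := deg_term o S Y n z hn hz hS hY _ hi0 i
    have e2 := deg_term o S Y n z hn hz hS hY _ hj0 j
    have h3 : ((n * (d.coeff i).natDegree + z * i : ℕ) : WithBot ℕ)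
        = ((n * (d.coeff j).natDegree + z * j : ℕ) : WithBot ℕ) := by
      rw [← e1, ← e2]
      exact h2
    have h4 : n * (d.coeff i).natDegree + z * i = n * (d.coeff j).natDegree + z * j := by
      exact_mod_cast h3
    apply hij
    have hi' := Finset.mem_range.mp hi.1
    have hj' := Finset.mem_range.mp hj.1
    apply residue_unique n z hcop (by omega) (by omega)
    have e3 : n * (d.coeff i).natDegree + z * i ≡ z * i [MOD n] := by simp [Nat.ModEq]
    have e4 : n * (d.coeff j).natDegree + z * j ≡ z * j [MOD n] := by simp [Nat.ModEq]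
    exact e3.symm.trans (h4 ▸ e4)

include hn hz hcop hS hY in
/-- A monic equation of degree `n` for `Y` over `K[S]` is of type `C_{n,z}`. -/
lemma isCnz_of_eval (χ : K[X][X]) (hm : χ.Monic) (hd : χ.natDegree = n)
    (h : χ.eval₂ (aeval S : K[X] →ₐ[K] R).toRingHom Y = 0) : IsCnz χ n z := by
  obtain ⟨hS0, hY0⟩ := S_Y_ne_zero o S Y n z hn hz hS hY
  set t : ℕ → R := fun j => (aeval S : K[X] →ₐ[K] R).toRingHom (χ.coeff j) * Y ^ j with ht
  rw [eval₂_eq_sum_range, hd, Finset.sum_range_succ, Finset.range_eq_Ico,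
    Finset.sum_eq_sum_Ico_succ_bot (by omega : 0 < n)] at h
  set M : R := ∑ j ∈ Finset.Ico (0 + 1) n, t j with hM
  have hsum : t 0 + t n = -M := by
    have : t 0 + M + t n = 0 := h
    linear_combination this
  have hdt : ∀ j, χ.coeff j ≠ 0 →
      o.deg (t j) = ((n * (χ.coeff j).natDegree + z * j : ℕ) : WithBot ℕ) :=
    fun j hj => deg_term o S Y n z hn hz hS hY _ hj j
  have ht0 : ∀ j, t j = 0 → χ.coeff j = 0 := fun j hj => term_eq_zero o S Y n z hn hz hS hY _ j hj
  have ht0' : ∀ j, χ.coeff j = 0 → t j = 0 := by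
    intro j hj
    simp only [ht, hj, map_zero, zero_mul]
  have hcn : χ.coeff n = 1 := by
    rw [← hd]
    exact hm
  have hdn : o.deg (t n) = ((z * n : ℕ) : WithBot ℕ) := by
    rw [hdt n (by rw [hcn]; exact one_ne_zero), hcn, natDegree_one, mul_zero, zero_add]
  have hpair : Set.Pairwise { i | i ∈ Finset.Ico (0 + 1) n ∧ t i ≠ 0 }
      (fun i j => o.deg (t i) ≠ o.deg (t j)) := by
    intro i hi j hj hij h2
    have hi0 : χ.coeff i ≠ 0 := fun h0 => hi.2 (ht0' i h0)
    have hj0 : χ.coeff j ≠ 0 := fun h0 => hj.2 (ht0' j h0)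
    rw [hdt i hi0, hdt j hj0] at h2
    have h4 : n * (χ.coeff i).natDegree + z * i = n * (χ.coeff j).natDegree + z * j := by
      exact_mod_cast h2
    apply hij
    have hi' := Finset.mem_Ico.mp hi.1
    have hj' := Finset.mem_Ico.mp hj.1
    apply residue_unique n z hcop (by omega) (by omega)
    have e3 : n * (χ.coeff i).natDegree + z * i ≡ z * i [MOD n] := by simp [Nat.ModEq]
    have e4 : n * (χ.coeff j).natDegree + z * j ≡ z * j [MOD n] := by simp [Nat.ModEq]
    exact e3.symm.trans (h4 ▸ e4)
  have hdM := o.deg_sum t (Finset.Ico (0 + 1) n) hpair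
  -- residues of the middle terms
  have hres : ∀ j, 0 < j → j < n → ∀ a b : ℕ, n * a + z * j ≠ n * b := by
    intro j hj0 hjn a b hab
    have e1 : n * a + z * j ≡ z * j [MOD n] := by simp [Nat.ModEq]
    have e2 : n * b ≡ z * 0 [MOD n] := by simp [Nat.ModEq]
    have := residue_unique n z hcop hjn (by omega : 0 < n) (e1.symm.trans (hab ▸ e2))
    omega
  have hmain : o.deg (t 0) = o.deg (t n) ∧ o.deg M ≤ o.deg (t n) := by
    by_cases hM0 : M = 0
    · rw [hM0, neg_zero] at hsum
      have : t 0 = -t n := eq_neg_of_add_eq_zero_left hsum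
      rw [this, o.deg_neg, hM0, o.deg_zero]
      exact ⟨rfl, bot_le⟩
    · have hne : (Finset.Ico (0 + 1) n).Nonempty := by
        rw [Finset.nonempty_Ico]
        omega
      obtain ⟨j, hj, hj'⟩ := Finset.exists_mem_eq_sup _ hne fun i => o.deg (t i)
      rw [← hM, hj'] at hdM
      have htj : t j ≠ 0 := by
        intro h0
        rw [h0, o.deg_zero] at hdM
        exact hM0 (o.deg_eq_bot.mp hdM)
      have hcj : χ.coeff j ≠ 0 := fun h0 => htj (ht0' j h0)
      rw [hdt j hcj] at hdM
      rw [Finset.mem_Ico] at hj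
      have hnegM : o.deg (t 0 + t n) = o.deg M := by rw [hsum, o.deg_neg]
      have heq : o.deg (t 0) = o.deg (t n) := by
        by_contra hcon
        rcases lt_or_gt_of_ne hcon with hlt | hlt
        · rw [o.deg_add_eq_right hlt, hdn, hdM] at hnegM
          have : z * n = n * (χ.coeff j).natDegree + z * j := by exact_mod_cast hnegM
          rw [mul_comm] at this
          exact hres j (by omega) (by omega) _ _ this.symm
        · have hc0 : χ.coeff 0 ≠ 0 := by
            intro h0
            rw [ht0' 0 h0, o.deg_zero] at hlt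
            exact not_lt_bot hlt
          rw [o.deg_add_eq_left hlt, hdt 0 hc0, hdM] at hnegM
          have : n * (χ.coeff 0).natDegree + z * 0 = n * (χ.coeff j).natDegree + z * j := by
            exact_mod_cast hnegM
          rw [mul_zero, add_zero] at this
          exact hres j (by omega) (by omega) _ _ this.symm
      refine ⟨heq, ?_⟩
      rw [← hnegM]
      refine (o.deg_add_le _ _).trans ?_
      rw [heq, max_self]
  obtain ⟨h0n, hMn⟩ := hmain
  have hc0 : χ.coeff 0 ≠ 0 := by
    intro h0
    rw [ht0' 0 h0, o.deg_zero, hdn] at h0n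
    exact absurd h0n.symm WithBot.coe_ne_bot
  refine ⟨hm, hd, ?_, ?_⟩
  · rw [hdt 0 hc0, hdn] at h0n
    have h5 : n * (χ.coeff 0).natDegree + z * 0 = z * n := by exact_mod_cast h0n
    rw [mul_zero, add_zero, mul_comm z n] at h5
    exact Nat.eq_of_mul_eq_mul_left (by omega) h5
  · intro j hj0 hjn
    by_cases hcj : χ.coeff j = 0
    · rw [hcj, natDegree_zero, mul_zero, zero_add, mul_comm n z]
      exact Nat.mul_lt_mul_of_pos_left hjn (by omega)
    · have h6 : o.deg (t j) ≤ o.deg (t n) := by
        refine le_trans ?_ hMn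
        rw [hM, hdM]
        exact Finset.le_sup (f := fun i => o.deg (t i)) (Finset.mem_Ico.mpr ⟨by omega, hjn⟩)
      rw [hdt j hcj, hdn] at h6
      have h7 : n * (χ.coeff j).natDegree + z * j ≤ z * n := by exact_mod_cast h6
      rw [mul_comm z n] at h7
      exact lt_of_le_of_ne h7 (hres j hj0 hjn _ _)

include hn hz hcop hS hY in
lemma unique_of_eval (χ χ' : K[X][X]) (hm : χ.Monic) (hd : χ.natDegree = n)
    (h : χ.eval₂ (aeval S : K[X] →ₐ[K] R).toRingHom Y = 0)
    (hm' : χ'.Monic) (hd' : χ'.natDegree = n)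
    (h' : χ'.eval₂ (aeval S : K[X] →ₐ[K] R).toRingHom Y = 0) : χ' = χ := by
  by_cases hne : χ' - χ = 0
  · exact sub_eq_zero.mp hne
  · exfalso
    apply hne
    apply indep_pow o S Y n z hn hz hcop hS hY
    · have h5 : (χ' - χ).degree < χ'.degree :=
        degree_sub_lt_left (by rw [degree_eq_natDegree hm'.ne_zero, degree_eq_natDegree hm.ne_zero,
          hd, hd']) hm'.ne_zero (by rw [hm'.leadingCoeff, hm.leadingCoeff])
      rw [degree_eq_natDegree hne, degree_eq_natDegree hm'.ne_zero, hd'] at h5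
      exact_mod_cast h5
    · rw [eval₂_sub, h', h, sub_zero]

omit [IsDomain R] [Algebra K R] in
/-- Cayley-Hamilton for the multiplication by `Y`. -/
lemma charpoly_eval [Algebra K[X] R] [Module.Free K[X] R] [Module.Finite K[X] R] (Y : R) :
    (Algebra.lmul K[X] R Y).charpoly.eval₂ (algebraMap K[X] R) Y = 0 := by
  have h1 := LinearMap.aeval_self_charpoly (Algebra.lmul K[X] R Y)
  have h2 : aeval (Algebra.lmul K[X] R Y) (Algebra.lmul K[X] R Y).charpoly
      = Algebra.lmul K[X] R (aeval Y (Algebra.lmul K[X] R Y).charpoly) :=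
    Polynomial.aeval_algHom_apply _ _ _
  rw [h2] at h1
  have h3 := LinearMap.congr_fun h1 1
  rw [Algebra.coe_lmul_eq_mul, LinearMap.mul_apply', mul_one, LinearMap.zero_apply] at h3
  exact h3

include hn hz hcop hS hY in
/-- Export: the free `K[S]`-module structure and the characteristic polynomial of `Y`. -/
theorem exists_free : ∃ (_ : Algebra K[X] R) (_ : IsScalarTower K K[X] R)
    (_ : Module.Free K[X] R) (_ : Module.Finite K[X] R),
    algebraMap K[X] R = (aeval S : K[X] →ₐ[K] R).toRingHom ∧ algebraMap K[X] R X = S ∧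
    Module.finrank K[X] R = n ∧ (Algebra.lmul K[X] R Y).charpoly.Monic ∧
    (Algebra.lmul K[X] R Y).charpoly.natDegree = n ∧
    IsCnz (Algebra.lmul K[X] R Y).charpoly n z ∧
    (Algebra.lmul K[X] R Y).charpoly.eval₂ (aeval S : K[X] →ₐ[K] R).toRingHom Y = 0 ∧
    (∀ χ' : K[X][X], χ'.Monic → χ'.natDegree = n →
      χ'.eval₂ (aeval S : K[X] →ₐ[K] R).toRingHom Y = 0 →
        χ' = (Algebra.lmul K[X] R Y).charpoly) := by
  let inst : Algebra K[X] R := algS (K := K) S
  obtain ⟨b, _⟩ := exists_basis o S Y n z hn hz hcop hS hY (fun a r => rfl)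
  have hfree : Module.Free K[X] R := Module.Free.of_basis b
  have hfin : Module.Finite K[X] R := Module.Finite.of_basis b
  have hrank : Module.finrank K[X] R = n := by
    rw [Module.finrank_eq_card_basis b, Fintype.card_fin]
  have htower : IsScalarTower K K[X] R := by
    refine IsScalarTower.of_algebraMap_eq fun c => ?_
    change algebraMap K R c = aeval S (C c)
    rw [aeval_C]
  have halg : algebraMap K[X] R = (aeval S : K[X] →ₐ[K] R).toRingHom := rfl
  have hX : algebraMap K[X] R X = S := by
    rw [halg]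
    exact aeval_X S
  have hd : (Algebra.lmul K[X] R Y).charpoly.natDegree = n := by
    rw [LinearMap.charpoly_natDegree, hrank]
  have hm : (Algebra.lmul K[X] R Y).charpoly.Monic := LinearMap.charpoly_monic _
  have hev : (Algebra.lmul K[X] R Y).charpoly.eval₂ (aeval S : K[X] →ₐ[K] R).toRingHom Y = 0 :=
    charpoly_eval Y
  exact ⟨inst, htower, hfree, hfin, halg, hX, hrank, hm, hd,
    isCnz_of_eval o S Y n z hn hz hcop hS hY _ hm hd hev, hev,
    fun χ' hm' hd' h' => unique_of_eval o S Y n z hn hz hcop hS hY _ χ' hm hd hev hm' hd' h'⟩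

include hn hz hcop hS hY in
/-- The same for a given `K[X]`-algebra structure in which `X` acts as `S`. -/
theorem charA [Algebra K[X] R] [IsScalarTower K K[X] R] (hSX : algebraMap K[X] R X = S) :
    Module.Free K[X] R ∧ Module.Finite K[X] R ∧
      (∀ [Module.Free K[X] R] [Module.Finite K[X] R], IsCnz (Algebra.lmul K[X] R Y).charpoly n z ∧
        ∀ χ' : K[X][X], χ'.Monic → χ'.natDegree = n → χ'.eval₂ (algebraMap K[X] R) Y = 0 →
          χ' = (Algebra.lmul K[X] R Y).charpoly) := by
  have halg : algebraMap K[X] R = (aeval S : K[X] →ₐ[K] R).toRingHom := by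
    apply Polynomial.ringHom_ext
    · intro c
      have h1 : algebraMap K[X] R (C c) = algebraMap K R c :=
        (IsScalarTower.algebraMap_apply K K[X] R c).symm
      rw [h1]
      exact (aeval_C S c).symm
    · rw [hSX]
      exact (aeval_X S).symm
  have hsm : ∀ a : K[X], ∀ r : R, a • r = aeval S a * r := by
    intro a r
    rw [Algebra.smul_def, halg]
    rfl
  obtain ⟨b, _⟩ := exists_basis o S Y n z hn hz hcop hS hY hsm
  have hfree : Module.Free K[X] R := Module.Free.of_basis b
  have hfin : Module.Finite K[X] R := Module.Finite.of_basis b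
  refine ⟨hfree, hfin, ?_⟩
  intro _ _
  have hrank : Module.finrank K[X] R = n := by
    rw [Module.finrank_eq_card_basis b, Fintype.card_fin]
  have hd : (Algebra.lmul K[X] R Y).charpoly.natDegree = n := by
    rw [LinearMap.charpoly_natDegree, hrank]
  have hm : (Algebra.lmul K[X] R Y).charpoly.Monic := LinearMap.charpoly_monic _
  have hev : (Algebra.lmul K[X] R Y).charpoly.eval₂ (aeval S : K[X] →ₐ[K] R).toRingHom Y = 0 := by
    rw [← halg]
    exact charpoly_eval Y
  refine ⟨isCnz_of_eval o S Y n z hn hz hcop hS hY _ hm hd hev, fun χ' hm' hd' h' => ?_⟩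
  rw [halg] at h'
  exact unique_of_eval o S Y n z hn hz hcop hS hY _ χ' hm hd hev hm' hd' h'

end

/-- The degree of `χ(S, P(S))` for a polynomial `P` of small degree. -/
theorem natDegree_eval_of_isCnz {K : Type*} [Field K] (χ : K[X][X]) (n z : ℕ) (hn : 1 ≤ n)
    (hχ : IsCnz χ n z) (P : K[X]) (hP : n * P.natDegree < z) : (χ.eval P).natDegree = z := by
  rw [eval_eq_sum_range, hχ.natDegree, Finset.sum_range_succ, Finset.range_eq_Ico,
    Finset.sum_eq_sum_Ico_succ_bot (by omega : 0 < n), pow_zero, mul_one]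
  have hz : 0 < z := by omega
  have h0 : (χ.coeff 0).natDegree = z := hχ.deg0
  have hmid : (∑ j ∈ Finset.Ico (0 + 1) n, χ.coeff j * P ^ j).natDegree < z := by
    apply lt_of_le_of_lt (natDegree_sum_le_of_forall_le (n := z - 1) _ _ ?_) (by omega)
    intro j hj
    rw [Finset.mem_Ico] at hj
    have h1 := hχ.lt j (by omega) hj.2
    have h2 : (χ.coeff j * P ^ j).natDegree ≤ (χ.coeff j).natDegree + j * P.natDegree :=
      natDegree_mul_le.trans (Nat.add_le_add_left (natDegree_pow_le) _)
    have h3 : n * ((χ.coeff j).natDegree + j * P.natDegree) < n * z := by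
      have h4 : n * (j * P.natDegree) ≤ z * j := by
        calc n * (j * P.natDegree) = (n * P.natDegree) * j := by ring
          _ ≤ z * j := Nat.mul_le_mul_right _ hP.le
      rw [mul_add]
      omega
    have h5 := Nat.lt_of_mul_lt_mul_left h3
    omega
  have hlast : (χ.coeff n * P ^ n).natDegree < z := by
    have hcn : χ.coeff n = 1 := by
      rw [← hχ.natDegree]
      exact hχ.monic
    rw [hcn, one_mul]
    exact lt_of_le_of_lt natDegree_pow_le hP
  rw [add_assoc, natDegree_add_eq_left_of_natDegree_lt]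
  · exact h0
  · rw [h0]
    exact lt_of_le_of_lt (natDegree_add_le _ _) (max_lt hmid hlast)

end Pool.Agent.K1
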