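import Mathlib

/-!
Common definitions of the K1 project (rational K_1 of surfaces over finite fields).

Conventions.  `K[X][X]` is used for bivariate polynomials.  For a plane curve
`χ : K[X][X]` the inner variable is `S` and the outer variable is `Z`.
For the pencil polynomial `F : k[X][X]` the inner variable is `lam` and the outer
variable is `S`.
-/

open Polynomial

namespace Pool.Agent.K1

/-- `χ` (monic in the outer variable `Z`) is a plane curve of type `C_{n,z}`: one place at
infinity, with the inner variable `S` of pole order `n` and `Z` of pole order `z`. -/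
structure IsCnz {K : Type*} [Field K] (χ : K[X][X]) (n z : ℕ) : Prop where
  monic : χ.Monic
  natDegree : χ.natDegree = n
  deg0 : (χ.coeff 0).natDegree = z
  lt : ∀ j, 0 < j → j < n → n * (χ.coeff j).natDegree + z * j < n * z

/-- `(s, y)` is a point of the plane curve `χ` at which `χ(s, Z)` has a simple root `y`. -/
def Good {K : Type*} [Field K] (χ : K[X][X]) (s y : K) : Prop :=
  χ.evalEval s y = 0 ∧ (derivative χ).evalEval s y ≠ 0

/-- `Z = P(S)` meets the curve `χ` in `z` distinct rational good points. -/
def SplitGood {K : Type*} [Field K] (χ : K[X][X]) (z : ℕ) (P : K[X]) : Prop :=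
  (∃ R : Finset K, R.card = z ∧ ∀ s, s ∈ R ↔ (χ.eval P).eval s = 0) ∧
    ∀ s, (χ.eval P).eval s = 0 → Good χ s (P.eval s)

/-- The polynomial of degree at most four with coefficient vector `v`. -/
noncomputable def poly5 {K : Type*} [Field K] (v : Fin 5 → K) : K[X] :=
  ∑ i : Fin 5, C (v i) * X ^ (i : ℕ)

/-- `χ(S, P(S) + lam T(S))` as a polynomial in `S` (outer) with coefficients in `k[lam]`. -/
noncomputable def pencil {K : Type*} [Field K] (χ : K[X][X]) (P T : K[X]) : K[X][X] :=
  χ.eval₂ (mapRingHom (C : K →+* K[X])) (P.map C + C X * T.map C)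

/-- The polynomial `F` over `k[lam]`, seen over the fraction field of `k[lam]`. -/
noncomputable abbrev overFrac {k : Type*} [Field k] (F : k[X][X]) : (FractionRing k[X])[X] :=
  F.map (algebraMap k[X] (FractionRing k[X]))

/-- `F` (monic in the outer variable, of degree `N`) has Galois group the full symmetric
group over the field `k(lam)`. -/
def FullGal {k : Type*} [Field k] (F : k[X][X]) (N : ℕ) : Prop :=
  ∃ T : Fin N → (overFrac F).SplittingField, Function.Injective T ∧
    (overFrac F).map (algebraMap (FractionRing k[X]) (overFrac F).SplittingField)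
      = ∏ i, (X - C (T i)) ∧
    ∀ π : Equiv.Perm (Fin N),
      ∃ g : (overFrac F).SplittingField ≃ₐ[FractionRing k[X]] (overFrac F).SplittingField,
        ∀ i, g (T i) = T (π i)

end Pool.Agent.K1
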