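import Pool.Agent.K1.OneLeafDef
import Pool.Agent.K1.Defs

/-!
K1-12, part A: the degree function of a one leaf ring; freeness over `K[S]`.
-/

open Polynomial

namespace Pool.Agent.K1

namespace OneLeaf

variable {K R : Type*} [Field K] [CommRing R] [IsDomain R] [Algebra K R] (o : OneLeaf K R)

/-- The weight with value `⊥` at zero. -/
noncomputable def deg (f : R) : WithBot ℕ := open Classical in if f = 0 then ⊥ else (o.wt f : WithBot ℕ)

omit [IsDomain R] in
lemma deg_zero : o.deg 0 = ⊥ := by simp [deg]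

omit [IsDomain R] in
lemma deg_of_ne {f : R} (hf : f ≠ 0) : o.deg f = (o.wt f : WithBot ℕ) := by simp [deg, hf]

omit [IsDomain R] in
lemma deg_eq_bot {f : R} : o.deg f = ⊥ ↔ f = 0 := by
  constructor
  · intro h
    by_contra hf
    rw [o.deg_of_ne hf] at h
    exact absurd h (WithBot.coe_ne_bot)
  · rintro rfl
    exact o.deg_zero

lemma wt_one : o.wt 1 = 0 := by
  have h := o.wt_mul 1 1 one_ne_zero one_ne_zero
  rw [mul_one] at h
  omega

lemma wt_algebraMap {c : K} (hc : c ≠ 0) : o.wt (algebraMap K R c) = 0 := by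
  have h1 : algebraMap K R c ≠ 0 := (map_ne_zero_iff _ (algebraMap K R).injective).mpr hc
  have h2 : algebraMap K R c⁻¹ ≠ 0 :=
    (map_ne_zero_iff _ (algebraMap K R).injective).mpr (inv_ne_zero hc)
  have h := o.wt_mul _ _ h1 h2
  rw [← map_mul, mul_inv_cancel₀ hc, map_one, o.wt_one] at h
  omega

lemma deg_mul (f g : R) : o.deg (f * g) = o.deg f + o.deg g := by
  by_cases hf : f = 0
  · simp [hf, deg_zero]
  by_cases hg : g = 0
  · simp [hg, deg_zero]
  rw [o.deg_of_ne hf, o.deg_of_ne hg, o.deg_of_ne (mul_ne_zero hf hg), o.wt_mul f g hf hg]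
  rfl

lemma deg_algebraMap {c : K} (hc : c ≠ 0) : o.deg (algebraMap K R c) = 0 := by
  rw [o.deg_of_ne ((map_ne_zero_iff _ (algebraMap K R).injective).mpr hc), o.wt_algebraMap hc]
  rfl

lemma deg_smul {c : K} (hc : c ≠ 0) (f : R) : o.deg (c • f) = o.deg f := by
  rw [Algebra.smul_def, o.deg_mul, o.deg_algebraMap hc, zero_add]

lemma deg_neg (f : R) : o.deg (-f) = o.deg f := by
  have := o.deg_smul (c := (-1 : K)) (by simp) f
  simpa using this

lemma deg_one : o.deg 1 = 0 := by
  rw [o.deg_of_ne one_ne_zero, o.wt_one]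
  rfl

omit [IsDomain R] in
lemma deg_add_le (f g : R) : o.deg (f + g) ≤ max (o.deg f) (o.deg g) := by
  by_cases hfg : f + g = 0
  · rw [hfg, deg_zero]
    exact bot_le
  by_cases hf : f = 0
  · simp [hf]
  by_cases hg : g = 0
  · simp [hg]
  rw [o.deg_of_ne hfg, o.deg_of_ne hf, o.deg_of_ne hg]
  have h := o.wt_add f g
  rcases le_max_iff.mp h with h1 | h1
  · exact le_max_of_le_left (by exact_mod_cast h1)
  · exact le_max_of_le_right (by exact_mod_cast h1)

lemma deg_add_eq_left {f g : R} (h : o.deg g < o.deg f) : o.deg (f + g) = o.deg f := by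
  apply le_antisymm
  · exact (o.deg_add_le f g).trans (max_le le_rfl h.le)
  · have h1 := o.deg_add_le (f + g) (-g)
    rw [add_neg_cancel_right, o.deg_neg] at h1
    rcases le_max_iff.mp h1 with h2 | h2
    · exact h2
    · exact absurd h (not_lt.mpr h2)

lemma deg_add_eq_right {f g : R} (h : o.deg f < o.deg g) : o.deg (f + g) = o.deg g := by
  rw [add_comm]
  exact o.deg_add_eq_left h

lemma deg_sum {ι : Type*} (f : ι → R) (s : Finset ι)
    (h : Set.Pairwise { i | i ∈ s ∧ f i ≠ 0 } (fun i j => o.deg (f i) ≠ o.deg (f j))) :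
    o.deg (s.sum f) = s.sup fun i => o.deg (f i) := by
  classical
  induction s using Finset.induction_on with
  | empty => simp [deg_zero]
  | insert x s hx IH =>
    simp only [hx, Finset.sum_insert, not_false_iff, Finset.sup_insert]
    specialize IH (h.mono fun _ => by simp +contextual)
    rcases lt_trichotomy (o.deg (f x)) (o.deg (s.sum f)) with (H | H | H)
    · rw [← IH, sup_eq_right.mpr H.le, o.deg_add_eq_right H]
    · rcases s.eq_empty_or_nonempty with (rfl | hs)
      · simp
      obtain ⟨y, hy, hy'⟩ := Finset.exists_mem_eq_sup s hs fun i => o.deg (f i)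
      rw [IH, hy'] at H
      by_cases hx0 : f x = 0
      · simp [hx0, IH, deg_zero]
      have hy0 : f y ≠ 0 := by
        contrapose! H
        rw [H, deg_zero]
        exact fun h' => hx0 (o.deg_eq_bot.mp h')
      refine absurd H (h ?_ ?_ fun H => hx ?_)
      · simp [hx0]
      · simp [hy, hy0]
      · exact H.symm ▸ hy
    · rw [← IH, sup_eq_left.mpr H.le, o.deg_add_eq_left H]

/-- Terms of pairwise different degree with sum zero all vanish. -/
lemma eq_zero_of_sum {ι : Type*} (f : ι → R) (s : Finset ι)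
    (h : Set.Pairwise { i | i ∈ s ∧ f i ≠ 0 } (fun i j => o.deg (f i) ≠ o.deg (f j))) (h0 : s.sum f = 0) :
    ∀ i ∈ s, f i = 0 := by
  have h1 := o.deg_sum f s h
  rw [h0, deg_zero, eq_comm, Finset.sup_eq_bot_iff] at h1
  intro i hi
  exact o.deg_eq_bot.mp (h1 i hi)

lemma deg_pow (f : R) (hf : f ≠ 0) (i : ℕ) : o.deg (f ^ i) = ((i * o.wt f : ℕ) : WithBot ℕ) := by
  induction i with
  | zero => simp [deg_one]
  | succ i IH =>
    rw [pow_succ, o.deg_mul, IH, o.deg_of_ne hf]
    norm_cast
    ring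

lemma wt_pow (f : R) (hf : f ≠ 0) (i : ℕ) : o.wt (f ^ i) = i * o.wt f := by
  have h := o.deg_pow f hf i
  rw [o.deg_of_ne (pow_ne_zero i hf)] at h
  exact_mod_cast h

/-- The degree of a polynomial in `S`. -/
lemma deg_aeval (S : R) (hS : 0 < o.wt S) (a : K[X]) (ha : a ≠ 0) :
    o.deg (aeval S a) = ((o.wt S * a.natDegree : ℕ) : WithBot ℕ) := by
  have hS0 : S ≠ 0 := by
    rintro rfl
    rw [o.wt_zero] at hS
    exact lt_irrefl _ hS
  have h1 : aeval S a = ∑ i ∈ a.support, a.coeff i • S ^ i := by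
    rw [aeval_eq_sum_range, eq_comm]
    refine Finset.sum_subset (fun i hi => ?_) (fun i _ hi => ?_)
    · rw [Finset.mem_range]
      exact Nat.lt_succ_of_le (le_natDegree_of_mem_supp i hi)
    · rw [notMem_support_iff.mp hi, zero_smul]
  have hd : ∀ i ∈ a.support, o.deg (a.coeff i • S ^ i) = ((i * o.wt S : ℕ) : WithBot ℕ) := by
    intro i hi
    rw [o.deg_smul (mem_support_iff.mp hi), o.deg_pow S hS0]
  rw [h1, o.deg_sum]
  · apply le_antisymm
    · refine Finset.sup_le fun i hi => ?_
      rw [hd i hi]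
      have : i * o.wt S ≤ o.wt S * a.natDegree := by
        rw [mul_comm]
        exact Nat.mul_le_mul_left _ (le_natDegree_of_mem_supp i hi)
      exact_mod_cast this
    · have hm : a.natDegree ∈ a.support := natDegree_mem_support_of_nonzero ha
      refine le_trans (le_of_eq ?_) (Finset.le_sup (f := fun i => o.deg (a.coeff i • S ^ i)) hm)
      rw [hd _ hm, mul_comm]
  · intro i hi j hj hij
    rw [hd i hi.1, hd j hj.1]
    intro h
    have h' : i * o.wt S = j * o.wt S := by exact_mod_cast h
    exact hij (Nat.eq_of_mul_eq_mul_right hS h')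

lemma aeval_injective (S : R) (hS : 0 < o.wt S) : Function.Injective (aeval S : K[X] →ₐ[K] R) := by
  rw [injective_iff_map_eq_zero]
  intro a ha
  by_contra h
  have h1 := o.deg_aeval S hS a h
  rw [ha, deg_zero] at h1
  exact absurd h1.symm WithBot.coe_ne_bot

end OneLeaf

end Pool.Agent.K1
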