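import Pool.Agent.K1.M5char
import Pool.Agent.K1.LeafDeg
import Pool.Agent.K1.CurveDef

/-!
# One curve inside `A`: transport of the characteristic data of `A / (D)` to `A`
-/

set_option autoImplicit false

open Polynomial

namespace Pool.Agent.K1

section M7aAux

variable {k A : Type} [Field k] [CommRing A] [Algebra k A]

/-- Two ideals that contain the kernel of the quotient map agree if their images agree. -/
lemma M7a_ideal_ext {I J₁ J₂ : Ideal A} (h₁ : I ≤ J₁) (h₂ : I ≤ J₂)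
    (h : J₁.map (Ideal.Quotient.mk I) = J₂.map (Ideal.Quotient.mk I)) : J₁ = J₂ := by
  have e : ∀ J : Ideal A, I ≤ J → (J.map (Ideal.Quotient.mk I)).comap (Ideal.Quotient.mk I) = J := by
    intro J hJ
    rw [Ideal.comap_map_of_surjective' _ Ideal.Quotient.mk_surjective, Ideal.mk_ker]
    exact sup_eq_left.mpr hJ
  rw [← e J₁ h₁, ← e J₂ h₂, h]

/-- The image of the kernel of a point of the quotient. -/
lemma M7a_map_ker {I : Ideal A} (x' : (A ⧸ I) →ₐ[k] k) :
    (RingHom.ker (x'.comp (Ideal.Quotient.mkₐ k I))).map (Ideal.Quotient.mk I)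
      = RingHom.ker x' := by
  have h1 : RingHom.ker (x'.comp (Ideal.Quotient.mkₐ k I))
      = (RingHom.ker x').comap (Ideal.Quotient.mk I) := by
    ext a
    simp [RingHom.mem_ker]
  rw [h1, Ideal.map_comap_of_surjective _ Ideal.Quotient.mk_surjective]

lemma M7a_le_ker {I : Ideal A} (x' : (A ⧸ I) →ₐ[k] k) :
    I ≤ RingHom.ker (x'.comp (Ideal.Quotient.mkₐ k I)) := by
  intro a ha
  rw [RingHom.mem_ker, AlgHom.comp_apply, Ideal.Quotient.mkₐ_eq_mk,
    Ideal.Quotient.eq_zero_iff_mem.mpr ha, map_zero]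

/-- A point of `A` with `x D = 0` comes from the quotient. -/
lemma M7a_lift {D : A} {I : Ideal A} (hI : Ideal.span {D} = I) (x : A →ₐ[k] k) (hx : x D = 0) :
    ∃ x' : (A ⧸ I) →ₐ[k] k, x'.comp (Ideal.Quotient.mkₐ k I) = x := by
  have h : ∀ a ∈ I, x a = 0 := by
    intro a ha
    rw [← hI] at ha
    obtain ⟨b, rfl⟩ := Ideal.mem_span_singleton.mp ha
    rw [map_mul, hx, zero_mul]
  exact ⟨Ideal.Quotient.liftₐ _ x h, Ideal.Quotient.liftₐ_comp _ x h⟩

lemma M7a_comp_inj {I : Ideal A} :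
    Function.Injective (fun x' : (A ⧸ I) →ₐ[k] k => x'.comp (Ideal.Quotient.mkₐ k I)) := by
  intro x₁ x₂ h
  refine AlgHom.ext fun r => ?_
  obtain ⟨a, rfl⟩ := Ideal.Quotient.mk_surjective r
  have := congrArg (fun f : A →ₐ[k] k => f a) h
  simpa using this

lemma M7a_eval₂_mem {I : Ideal A} {S Y : A} (χ : k[X][X]) :
    χ.eval₂ (aeval S : k[X] →ₐ[k] A).toRingHom Y ∈ I ↔
      χ.eval₂ (aeval (Ideal.Quotient.mk I S) :
        k[X] →ₐ[k] (A ⧸ I)).toRingHom (Ideal.Quotient.mk I Y) = 0 := by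
  rw [← Ideal.Quotient.eq_zero_iff_mem, hom_eval₂]
  have h : (Ideal.Quotient.mk I).comp (aeval S : k[X] →ₐ[k] A).toRingHom
      = (aeval (Ideal.Quotient.mk I S) :
        k[X] →ₐ[k] (A ⧸ I)).toRingHom := by
    refine Polynomial.ringHom_ext (fun a => ?_) ?_
    · simp [Ideal.Quotient.mk_algebraMap]
    · simp
  rw [h]

lemma M7a_mk_aeval {I : Ideal A} (S : A) (P : k[X]) :
    Ideal.Quotient.mk I (aeval S P) = aeval (Ideal.Quotient.mk I S) P := by
  have := aeval_algHom_apply (Ideal.Quotient.mkₐ k I) S P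
  simpa using this.symm

/-- A polynomial that vanishes on a point of the quotient. -/
lemma M7a_evalEval {R : Type} [CommRing R] [Algebra k R] (χ : k[X][X]) (S Y : R)
    (h0 : χ.eval₂ (aeval S : k[X] →ₐ[k] R).toRingHom Y = 0) (x : R →ₐ[k] k) :
    χ.evalEval (x S) (x Y) = 0 := by
  have h1 := congrArg (x : R →+* k) h0
  rw [hom_eval₂, map_zero] at h1
  have h2 : (x : R →+* k).comp (aeval S : k[X] →ₐ[k] R).toRingHom = evalRingHom (x S) := by
    refine Polynomial.ringHom_ext (fun a => ?_) ?_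
    · simp
    · simp
  rw [h2] at h1
  rw [← eval₂_evalRingHom]
  simpa using h1

lemma M7a_eval_eval {K : Type} [Field K] (χ : K[X][X]) (P : K[X]) (s : K) :
    (χ.eval P).eval s = χ.evalEval s (P.eval s) := by
  have h := hom_eval₂ χ (RingHom.id K[X]) (evalRingHom s) P
  rw [RingHom.comp_id] at h
  have h2 : χ.eval P = χ.eval₂ (RingHom.id K[X]) P := rfl
  rw [h2]
  rw [← eval₂_evalRingHom]
  simpa using h

end M7aAux

/-- The plane curve of a one leaf curve `D` in `A`. -/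
theorem M7a_curve {k A : Type} [Field k] [CommRing A] [Algebra k A] (D S Y : A) (n z : ℕ)
    (hn : 2 ≤ n) (hz : 1 ≤ z) (hcop : n.Coprime z) (hdom : IsDomain (A ⧸ Ideal.span {D}))
    (o : OneLeaf k (A ⧸ Ideal.span {D})) (hS : o.wt (Ideal.Quotient.mk _ S) = n)
    (hY : o.wt (Ideal.Quotient.mk _ Y) = z) :
    ∃ χ : k[X][X], IsCnz χ n z ∧
      χ.eval₂ (aeval S : k[X] →ₐ[k] A).toRingHom Y ∈ Ideal.span {D} ∧
      (∀ χ' : k[X][X], χ'.Monic → χ'.natDegree = n →
        χ'.eval₂ (aeval S : k[X] →ₐ[k] A).toRingHom Y ∈ Ideal.span {D} → χ' = χ) ∧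
      (∀ s y, Good χ s y → ∃! x : A →ₐ[k] k, x D = 0 ∧ x S = s ∧ x Y = y) ∧
      (∀ x : A →ₐ[k] k, x D = 0 → (Good χ (x S) (x Y) ↔ GoodPtA D S Y x)) ∧
      (∀ P : k[X], n * P.natDegree < z → Y - aeval S P ∉ Ideal.span {D}) ∧
      (∀ P : k[X], n * P.natDegree < z → SplitGood χ z P →
        ∃ m : (A →ₐ[k] k) →₀ ℕ, (∀ x, m x ≤ 1) ∧
          (∀ x, m x = 1 ↔ x D = 0 ∧ x Y = P.eval (x S)) ∧
          (∀ s, (χ.eval P).eval s = 0 → ∃ x, m x = 1 ∧ x S = s) ∧
          Ideal.span {Y - aeval S P, D} =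
            m.prod (fun x e => (RingHom.ker x) ^ e) ⊔ Ideal.span {D}) := by
  classical
  revert hdom o hS hY
  generalize hI : Ideal.span {D} = I
  intro hdom o hS hY
  have hDI : D ∈ I := by
    rw [← hI]
    exact Ideal.mem_span_singleton_self D
  have hDq : Ideal.Quotient.mk I D = 0 := Ideal.Quotient.eq_zero_iff_mem.mpr hDI
  obtain ⟨χ, hcnz, h0, huniq, hpt, hgood, hsplit⟩ :=
    M5c_charpoly o (Ideal.Quotient.mk I S) (Ideal.Quotient.mk I Y) n z hn hz hcop hS hY
  have hcx : ∀ (x' : (A ⧸ I) →ₐ[k] k) (a : A),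
      (x'.comp (Ideal.Quotient.mkₐ k I)) a = x' (Ideal.Quotient.mk I a) := fun _ _ => rfl
  have hcD : ∀ x' : (A ⧸ I) →ₐ[k] k, (x'.comp (Ideal.Quotient.mkₐ k I)) D = 0 := by
    intro x'
    rw [hcx, hDq, map_zero]
  refine ⟨χ, hcnz, M7a_eval₂_mem χ |>.mpr h0, fun χ' hm hd he => huniq χ' hm hd
    (M7a_eval₂_mem χ' |>.mp he), ?_, ?_, ?_, ?_⟩
  · intro s y hg
    obtain ⟨x', ⟨hs', hy'⟩, hu⟩ := hpt s y hg
    refine ⟨x'.comp (Ideal.Quotient.mkₐ k I), ⟨hcD x', hs', hy'⟩, ?_⟩
    rintro x ⟨hxD, hxs, hxy⟩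
    obtain ⟨x₁, rfl⟩ := M7a_lift hI x hxD
    rw [hu x₁ ⟨hxs, hxy⟩]
  · intro x hxD
    obtain ⟨x', rfl⟩ := M7a_lift hI x hxD
    rw [hcx, hcx, hgood x']
    unfold GoodPt GoodPtA
    have hle : I ≤ Ideal.span {D, S - algebraMap k A ((x'.comp (Ideal.Quotient.mkₐ k I)) S),
        (Y - algebraMap k A ((x'.comp (Ideal.Quotient.mkₐ k I)) Y)) ^ 2} := by
      conv_lhs => rw [← hI]
      exact Ideal.span_mono (by simp)
    have hmap : (Ideal.span {D, S - algebraMap k A ((x'.comp (Ideal.Quotient.mkₐ k I)) S),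
        (Y - algebraMap k A ((x'.comp (Ideal.Quotient.mkₐ k I)) Y)) ^ 2}).map
          (Ideal.Quotient.mk I)
        = Ideal.span {Ideal.Quotient.mk I S - algebraMap k (A ⧸ I) (x' (Ideal.Quotient.mk I S)),
        (Ideal.Quotient.mk I Y - algebraMap k (A ⧸ I) (x' (Ideal.Quotient.mk I Y))) ^ 2} := by
      rw [Ideal.map_span, Set.image_insert_eq, Set.image_insert_eq, Set.image_singleton, hDq,
        hcx, hcx, map_sub, map_pow, map_sub, Ideal.Quotient.mk_algebraMap,
        Ideal.Quotient.mk_algebraMap, Ideal.span_insert_zero]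
    constructor
    · intro h
      refine M7a_ideal_ext hle (M7a_le_ker x') ?_
      rw [hmap, M7a_map_ker, h]
    · intro h
      rw [← hmap, h, M7a_map_ker]
  · intro P hP hmem
    have h1 : Ideal.Quotient.mk I Y = aeval (Ideal.Quotient.mk I S) P := by
      rw [← M7a_mk_aeval, ← sub_eq_zero, ← map_sub]
      exact Ideal.Quotient.eq_zero_iff_mem.mpr hmem
    by_cases hP0 : P = 0
    · rw [hP0, map_zero] at h1
      rw [h1, o.wt_zero] at hY
      omega
    · have h2 := o.deg_aeval (Ideal.Quotient.mk I S) (by omega) P hP0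
      rw [← h1] at h2
      have hY0 : Ideal.Quotient.mk I Y ≠ 0 := by
        intro h
        rw [h, o.wt_zero] at hY
        omega
      rw [o.deg_of_ne hY0, hY, hS] at h2
      have h3 : z = n * P.natDegree := by exact_mod_cast h2
      omega
  · intro P hP hs
    obtain ⟨m', hm1, hm2, hm3, hm4⟩ := hsplit P hP hs
    set c : ((A ⧸ I) →ₐ[k] k) → (A →ₐ[k] k) := fun x' => x'.comp (Ideal.Quotient.mkₐ k I)
      with hc
    have hci : Function.Injective c := M7a_comp_inj
    have hmc : ∀ x', m'.mapDomain c (c x') = m' x' := fun x' =>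
      Finsupp.mapDomain_apply hci m' x'
    have hmn : ∀ x, x ∉ Set.range c → m'.mapDomain c x = 0 := fun x hx =>
      Finsupp.mapDomain_of_notMem_range m' x hx
    refine ⟨m'.mapDomain c, ?_, ?_, ?_, ?_⟩
    · intro x
      by_cases hx : x ∈ Set.range c
      · obtain ⟨x', rfl⟩ := hx
        rw [hmc]
        exact hm1 x'
      · rw [hmn x hx]
        exact Nat.zero_le _
    · intro x
      constructor
      · intro h
        by_cases hx : x ∈ Set.range c
        · obtain ⟨x', rfl⟩ := hx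
          rw [hmc] at h
          exact ⟨hcD x', ((hm2 x').mp h).2⟩
        · rw [hmn x hx] at h
          omega
      · rintro ⟨hxD, hxY⟩
        obtain ⟨x', rfl⟩ := M7a_lift hI x hxD
        rw [show x'.comp (Ideal.Quotient.mkₐ k I) = c x' from rfl, hmc]
        refine (hm2 x').mpr ⟨?_, hxY⟩
        have h1 := M7a_evalEval χ _ _ h0 x'
        rw [hcx, hcx] at hxY
        rw [hxY, ← M7a_eval_eval] at h1
        exact h1
    · intro s hs'
      obtain ⟨x', h1, h2⟩ := hm3 s hs'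
      exact ⟨c x', by rw [hmc, h1], h2⟩
    · have hle : I ≤ Ideal.span {Y - aeval S P, D} := by
        conv_lhs => rw [← hI]
        exact Ideal.span_mono (by simp)
      refine M7a_ideal_ext (I := I) hle le_sup_right ?_
      have h1 : (Ideal.span {Y - aeval S P, D}).map (Ideal.Quotient.mk I)
          = Ideal.span {Ideal.Quotient.mk I Y - aeval (Ideal.Quotient.mk I S) P} := by
        rw [Ideal.map_span, Set.image_insert_eq, Set.image_singleton, hDq, Set.pair_comm,
          Ideal.span_insert_zero, map_sub, M7a_mk_aeval]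
      have h2 : I.map (Ideal.Quotient.mk I) = ⊥ := Ideal.map_quotient_self I
      rw [h1, hm4, Ideal.map_sup, h2, sup_bot_eq]
      rw [Finsupp.prod_mapDomain_index_inj hci]
      have h3 := map_finsuppProd (Ideal.mapHom (Ideal.Quotient.mk I)) m'
        (fun x' e => (RingHom.ker (c x')) ^ e)
      rw [Ideal.mapHom_apply] at h3
      rw [h3]
      refine Finsupp.prod_congr fun x' _ => ?_
      rw [Ideal.mapHom_apply, Ideal.map_pow, M7a_map_ker]

end Pool.Agent.K1
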