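import Pool.Agent.K1.CurveDef

/-!
At most one member of a pencil is bad at a good point of the base.
-/

open Polynomial

namespace Pool.Agent.K1

/-- If the member of parameter `τ` is bad, then `1 + τ f(x) = 0`. -/
theorem M7b_aux {k A : Type} [Field k] [CommRing A] [Algebra k A] (D S Y g t f h ν : A)
    (x : A →ₐ[k] k) (hD : x D = 0) (hg0 : x g = 0)
    (hYt : Y - algebraMap k A (x Y) = g + (S - algebraMap k A (x S)) * t)
    (hker : Ideal.span {D, S - algebraMap k A (x S), (Y - algebraMap k A (x Y)) ^ 2}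
      = RingHom.ker x)
    (hgf : g = f * D + h * (S - algebraMap k A (x S)) + ν * g ^ 2)
    (τ : k) (hτ : 1 + τ * x f ≠ 0) : GoodPtA (k := k) (D + τ • g) S Y x := by
  unfold GoodPtA
  set σ : A := S - algebraMap k A (x S) with hσ
  set I : Ideal A := Ideal.span {D + τ • g, σ, (Y - algebraMap k A (x Y)) ^ 2} with hI
  have hσI : σ ∈ I := Ideal.subset_span (by simp)
  have hDI : D + τ • g ∈ I := Ideal.subset_span (by simp)
  have hYI : (Y - algebraMap k A (x Y)) ^ 2 ∈ I := Ideal.subset_span (by simp)
  have hg2 : g ^ 2 ∈ I := by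
    have : g ^ 2 = (Y - algebraMap k A (x Y)) ^ 2 - σ * (t * (2 * g + σ * t)) := by
      rw [hYt]; ring
    rw [this]
    exact I.sub_mem hYI (I.mul_mem_right _ hσI)
  have hτg : ∀ a : A, τ • a = algebraMap k A τ * a := fun a => Algebra.smul_def τ a
  have hfker : f - algebraMap k A (x f) ∈ RingHom.ker x := by
    rw [RingHom.mem_ker, map_sub]
    simp
  rw [← hker, Ideal.mem_span_insert] at hfker
  obtain ⟨a, w, hw, hfa⟩ := hfker
  rw [Ideal.mem_span_pair] at hw
  obtain ⟨b, c, hbc⟩ := hw
  -- (1 + τ f(x)) g is in I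
  have key : (algebraMap k A (1 + τ * x f)) * g ∈ I := by
    have hY2 : (Y - algebraMap k A (x Y)) ^ 2 = g ^ 2 + σ * (t * (2 * g + σ * t)) := by
      rw [hYt]; ring
    have hfx : algebraMap k A (x f) = f - a * D - b * σ
        - c * (g ^ 2 + σ * (t * (2 * g + σ * t))) := by
      rw [← hY2]
      linear_combination -hfa + hbc
    have e : (algebraMap k A (1 + τ * x f)) * g
        = (f - algebraMap k A τ * a * g) * (D + τ • g)
          + (h - algebraMap k A τ * b * g - algebraMap k A τ * c * g * t * (2 * g + σ * t)) * σ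
          + (ν + algebraMap k A τ * algebraMap k A τ * a - algebraMap k A τ * c * g) * g ^ 2 := by
      rw [map_add, map_one, map_mul, hfx, hτg]
      linear_combination hgf
    rw [e]
    exact I.add_mem (I.add_mem (I.mul_mem_left _ hDI) (I.mul_mem_left _ hσI))
      (I.mul_mem_left _ hg2)
  have hgI : g ∈ I := by
    have : g = algebraMap k A (1 + τ * x f)⁻¹ * (algebraMap k A (1 + τ * x f) * g) := by
      rw [← mul_assoc, ← map_mul, inv_mul_cancel₀ hτ, map_one, one_mul]
    rw [this]
    exact I.mul_mem_left _ key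
  apply le_antisymm
  · rw [hI, Ideal.span_le]
    intro y hy
    simp only [Set.mem_insert_iff, Set.mem_singleton_iff] at hy
    rw [SetLike.mem_coe, RingHom.mem_ker]
    rcases hy with rfl | rfl | rfl
    · simp [hD, hg0]
    · simp [hσ]
    · simp
  · rw [← hker, Ideal.span_le]
    intro y hy
    simp only [Set.mem_insert_iff, Set.mem_singleton_iff] at hy
    rcases hy with rfl | rfl | rfl
    · have : y = (y + τ • g) - τ • g := by ring
      rw [this]
      refine I.sub_mem hDI ?_
      rw [hτg]
      exact I.mul_mem_left _ hgI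
    · exact hσI
    · exact hYI

/-- At most one member of a pencil is bad at a good point of the base. -/
theorem M7b_bad {k A : Type} [Field k] [CommRing A] [Algebra k A] (D S Y : A) (P : k[X])
    (x : A →ₐ[k] k) (hD : x D = 0) (hY : x Y = P.eval (x S)) (hg : GoodPtA D S Y x)
    (τ₁ τ₂ : k) (h₁ : ¬ GoodPtA (k := k) (D + τ₁ • (Y - aeval (R := k) S P)) S Y x)
    (h₂ : ¬ GoodPtA (k := k) (D + τ₂ • (Y - aeval (R := k) S P)) S Y x) : τ₁ = τ₂ := by
  have hker := hg
  unfold GoodPtA at hker
  set g : A := Y - aeval (R := k) S P with hgdef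
  have hxP : x (aeval (R := k) S P) = P.eval (x S) := by
    rw [← aeval_algHom_apply, coe_aeval_eq_eval]
  have hg0 : x g = 0 := by
    rw [hgdef, map_sub, hxP, hY, sub_self]
  -- `P(S) - P(x S)` is divisible by `S - x S`
  obtain ⟨t, ht⟩ : (S - algebraMap k A (x S)) ∣
      aeval (R := k) S P - aeval (R := k) (algebraMap k A (x S)) P := by
    have := Polynomial.sub_dvd_eval_sub S (algebraMap k A (x S)) (P.map (algebraMap k A))
    simpa [eval_map_algebraMap] using this
  have hYt : Y - algebraMap k A (x Y) = g + (S - algebraMap k A (x S)) * t := by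
    rw [← ht, hgdef, hY, aeval_algebraMap_apply, coe_aeval_eq_eval]
    ring
  have hgk : g ∈ RingHom.ker x := by
    rw [RingHom.mem_ker]
    exact hg0
  rw [← hker, Ideal.mem_span_insert] at hgk
  obtain ⟨f, w, hw, hgf⟩ := hgk
  rw [Ideal.mem_span_pair] at hw
  obtain ⟨h, ν, hbc⟩ := hw
  have hgf' : g = f * D
      + (h + ν * (t * (2 * g + (S - algebraMap k A (x S)) * t))) * (S - algebraMap k A (x S))
      + ν * g ^ 2 := by
    rw [hYt] at hbc
    linear_combination hgf - hbc
  have e₁ : 1 + τ₁ * x f = 0 := by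
    by_contra hne
    exact h₁ (M7b_aux D S Y g t f _ ν x hD hg0 hYt hker hgf' τ₁ hne)
  have e₂ : 1 + τ₂ * x f = 0 := by
    by_contra hne
    exact h₂ (M7b_aux D S Y g t f _ ν x hD hg0 hYt hker hgf' τ₂ hne)
  have hf : x f ≠ 0 := by
    intro h0
    rw [h0, mul_zero, add_zero] at e₁
    exact one_ne_zero e₁
  have : τ₁ * x f = τ₂ * x f := by linear_combination e₁ - e₂
  exact mul_right_cancel₀ hf this

end Pool.Agent.K1
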