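import Pool.Agent.K1.CurveDef

/-!
Rationality of the plane curve: it is fixed by the Frobenius and descends.
-/

open Polynomial

namespace Pool.Agent.K1

theorem M7c_fixed {k A : Type} [Field k] [CommRing A] [Algebra k A] (q : ℕ) (frob : k →+* k)
    (hfrob : ∀ c, frob c = c ^ q)
    (D S Y : A) (n : ℕ) (χ : k[X][X]) (hm : χ.Monic) (hd : χ.natDegree = n)
    (h0 : χ.eval₂ (aeval S : k[X] →ₐ[k] A).toRingHom Y ∈ Ideal.span {D})
    (huniq : ∀ χ' : k[X][X], χ'.Monic → χ'.natDegree = n →
        χ'.eval₂ (aeval S : k[X] →ₐ[k] A).toRingHom Y ∈ Ideal.span {D} → χ' = χ)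
    (σ : A →+* A) (hσ : IsFrobSemi k q σ) (hS : σ S = S) (hY : σ Y = Y) (hD : σ D = D) :
    χ.map (mapRingHom frob) = χ := by
  have hcomp : σ.comp (aeval S : k[X] →ₐ[k] A).toRingHom =
      ((aeval S : k[X] →ₐ[k] A).toRingHom).comp (mapRingHom frob) := by
    ext c
    · simp only [RingHom.coe_comp, Function.comp_apply, AlgHom.toRingHom_eq_coe, RingHom.coe_coe,
        aeval_C, coe_mapRingHom, map_C]
      rw [hσ c, hfrob]
    · simp [hS]
  apply huniq
  · exact hm.map _
  · rw [hm.natDegree_map, hd]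
  · rw [eval₂_map, ← hcomp]
    have h1 : χ.eval₂ (σ.comp (aeval S : k[X] →ₐ[k] A).toRingHom) Y =
        σ (χ.eval₂ (aeval S : k[X] →ₐ[k] A).toRingHom Y) := by
      rw [hom_eval₂, hY]
    rw [h1]
    obtain ⟨a, ha⟩ := Ideal.mem_span_singleton'.mp h0
    rw [← ha, map_mul, hD]
    exact Ideal.mem_span_singleton'.mpr ⟨σ a, rfl⟩

/-- Descent of the plane curve to the fixed field. -/
theorem M7c_descend {K k : Type} [Field K] [Field k] [Algebra K k] (q : ℕ) (frob : k →+* k)
    (hfrob : ∀ c, frob c = c ^ q) (hK : ∀ c : k, c ^ q = c → ∃ a : K, algebraMap K k a = c)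
    (χ : k[X][X]) (n z : ℕ) (hχ : IsCnz χ n z) (hfix : χ.map (mapRingHom frob) = χ) :
    ∃ χK : K[X][X], IsCnz χK n z ∧ χK.map (mapRingHom (algebraMap K k)) = χ := by
  have hinj : Function.Injective (algebraMap K k) := (algebraMap K k).injective
  have hinj' : Function.Injective (mapRingHom (algebraMap K k)) := by
    intro a b hab
    exact map_injective _ hinj hab
  have hmem : χ ∈ lifts (mapRingHom (algebraMap K k)) := by
    rw [lifts_iff_coeff_lifts]
    intro i
    have h1 : χ.coeff i ∈ lifts (algebraMap K k) := by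
      rw [lifts_iff_coeff_lifts]
      intro j
      have h2 : (χ.map (mapRingHom frob)).coeff i = χ.coeff i := by rw [hfix]
      rw [coeff_map] at h2
      have h3 : frob ((χ.coeff i).coeff j) = (χ.coeff i).coeff j := by
        have := congrArg (fun P : k[X] => P.coeff j) h2
        simpa using this
      rw [hfrob] at h3
      obtain ⟨a, ha⟩ := hK _ h3
      exact ⟨a, ha⟩
    obtain ⟨P, hP⟩ := (mem_lifts _).mp h1
    exact ⟨P, hP⟩
  obtain ⟨χK, hχK⟩ := (mem_lifts _).mp hmem
  have hc : ∀ j, (χK.coeff j).map (algebraMap K k) = χ.coeff j := by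
    intro j
    rw [← hχK, coeff_map]
    rfl
  have hn : ∀ j, (χK.coeff j).natDegree = (χ.coeff j).natDegree := by
    intro j
    rw [← hc j, natDegree_map]
  refine ⟨χK, ⟨?_, ?_, ?_, ?_⟩, hχK⟩
  · refine monic_of_injective hinj' ?_
    rw [hχK]
    exact hχ.monic
  · rw [← natDegree_map_eq_of_injective hinj', hχK]
    exact hχ.natDegree
  · rw [hn]
    exact hχ.deg0
  · intro j h0 h1
    rw [hn]
    exact hχ.lt j h0 h1

end Pool.Agent.K1
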