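import Pool.Agent.K1.CurveDef
import Pool.Agent.K1.M5bcd
import Pool.Agent.K1.M5charA
import Pool.Agent.K1.M7a
import Pool.Agent.K1.M7b
import Pool.Agent.K1.M7c

/-!
K1-24: the combinatorial core applied to one family of curves of a surface.
-/

set_option autoImplicit false

open Polynomial

namespace Pool.Agent.K1

/-- The conclusion of M4_core, for given `p n z`. -/
def M4Concl (p n z : ℕ) : Prop :=
    ∃ Q₀ : ℕ, ∀ (K : Type) [Field K] [Fintype K] [DecidableEq K] [CharP K p]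
      (m : ℕ), Fintype.card K = (p ^ m) ^ 2 → Q₀ ≤ Fintype.card K →
      ∀ (χ : K → (Fin 5 → K) → K[X][X]) (_ : ∀ β v, IsCnz (χ β v) n z)
        (ψ : K → (Fin 5 → K) → K × K → ℚ)
        (_ : ∀ β v β' w, SplitGood (χ β v) z (poly5 w) →
            SplitGood (χ β' (v + (β - β') • w)) z (poly5 w) →
            (∀ s, (χ β v).evalEval s ((poly5 w).eval s) = 0 ↔
              (χ β' (v + (β - β') • w)).evalEval s ((poly5 w).eval s) = 0) ∧
            ∑ s : K, (if (χ β v).evalEval s ((poly5 w).eval s) = 0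
              then ψ β v (s, (poly5 w).eval s) else 0)
            = ∑ s : K, (if (χ β v).evalEval s ((poly5 w).eval s) = 0
              then ψ β' (v + (β - β') • w) (s, (poly5 w).eval s) else 0))
        (_ : ∀ β v w, SplitGood (χ β v) z (poly5 w) →
            Nat.card {β' : K // ¬ SplitGood (χ β' (v + (β - β') • w)) z (poly5 w)} ≤ z),
      ∀ β v β' v' s y, Good (χ β v) s y → Good (χ β' v') s y →
        β * y + (poly5 v).eval s = β' * y + (poly5 v').eval s →
        2 * n + 1 ≤ Nat.card {x : K × K // Good (χ β v) x.1 x.2} →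
        2 * n + 1 ≤ Nat.card {x : K × K // Good (χ β' v') x.1 x.2} →
        ψ β v (s, y) = ψ β' v' (s, y)

namespace M7d

section FiniteFields

variable (p : ℕ) [Fact p.Prime] {k : Type} [Field k] [Algebra (ZMod p) k]

theorem pow_mul_fix {e : k} {d : ℕ} (h : e ^ (p ^ d) = e) (t : ℕ) : e ^ (p ^ (d * t)) = e := by
  induction t with
  | zero => simp
  | succ t ih => rw [Nat.mul_succ, pow_add, pow_mul, ih, h]

theorem exists_pow [Algebra.IsAlgebraic (ZMod p) k] (e : k) :
    ∃ d : ℕ, 0 < d ∧ e ^ (p ^ d) = e := by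
  have hint : IsIntegral (ZMod p) e := (Algebra.IsAlgebraic.isAlgebraic e).isIntegral
  haveI : FiniteDimensional (ZMod p) (IntermediateField.adjoin (ZMod p) ({e} : Set k)) :=
    IntermediateField.adjoin.finiteDimensional hint
  haveI : Finite (IntermediateField.adjoin (ZMod p) ({e} : Set k)) :=
    Module.finite_of_finite (ZMod p)
  haveI := Fintype.ofFinite (IntermediateField.adjoin (ZMod p) ({e} : Set k))
  have hc := Module.card_eq_pow_finrank (K := ZMod p)
    (V := IntermediateField.adjoin (ZMod p) ({e} : Set k))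
  rw [ZMod.card] at hc
  refine ⟨Module.finrank (ZMod p) (IntermediateField.adjoin (ZMod p) ({e} : Set k)),
    Module.finrank_pos, ?_⟩
  have he : e ∈ IntermediateField.adjoin (ZMod p) ({e} : Set k) :=
    IntermediateField.mem_adjoin_simple_self _ _
  have := FiniteField.pow_card (⟨e, he⟩ : IntermediateField.adjoin (ZMod p) ({e} : Set k))
  rw [hc] at this
  exact congrArg Subtype.val this

theorem exists_pow_finset [Algebra.IsAlgebraic (ZMod p) k] (E : Finset k) :
    ∃ d : ℕ, 0 < d ∧ ∀ m, d ∣ m → ∀ e ∈ E, e ^ (p ^ m) = e := by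
  classical
  induction E using Finset.induction_on with
  | empty => exact ⟨1, one_pos, fun m _ e he => absurd he (Finset.notMem_empty e)⟩
  | insert a E _ ih =>
    obtain ⟨d, hd, h⟩ := ih
    obtain ⟨d', hd', h'⟩ := exists_pow p a
    refine ⟨d * d', Nat.mul_pos hd hd', fun m hm e he => ?_⟩
    rcases Finset.mem_insert.1 he with rfl | he
    · obtain ⟨t, rfl⟩ := (Dvd.intro_left d rfl : d' ∣ d * d').trans hm
      exact pow_mul_fix p h' t
    · exact h m ((Dvd.intro d' rfl : d ∣ d * d').trans hm) e he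

/-- A finite field with `p ^ N` elements inside `k`. -/
theorem exists_subfield [IsAlgClosed k] (N : ℕ) (hN : N ≠ 0) :
    ∃ ι : GaloisField p N →+* k, (∀ a, (ι a) ^ (p ^ N) = ι a) ∧
      ∀ c : k, c ^ (p ^ N) = c → ∃ a, ι a = c := by
  classical
  haveI := Fintype.ofFinite (GaloisField p N)
  have hcard : Fintype.card (GaloisField p N) = p ^ N := by
    rw [← Nat.card_eq_fintype_card, GaloisField.card p N hN]
  let ι : GaloisField p N →ₐ[ZMod p] k := IsAlgClosed.lift
  have hιinj : Function.Injective ι := ι.toRingHom.injective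
  have hfix : ∀ a, (ι a) ^ (p ^ N) = ι a := by
    intro a
    rw [← map_pow, ← hcard, FiniteField.pow_card]
  refine ⟨ι.toRingHom, hfix, fun c hc => ?_⟩
  have hq : 1 < p ^ N := Nat.one_lt_pow hN (Fact.out : p.Prime).one_lt
  have hne : (X ^ (p ^ N) - X : k[X]) ≠ 0 := FiniteField.X_pow_card_sub_X_ne_zero k hq
  have hdeg : (X ^ (p ^ N) - X : k[X]).natDegree = p ^ N :=
    FiniteField.X_pow_card_sub_X_natDegree_eq k hq
  have hroot : ∀ c : k, c ∈ (X ^ (p ^ N) - X : k[X]).roots.toFinset ↔ c ^ (p ^ N) = c := by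
    intro c
    rw [Multiset.mem_toFinset, mem_roots hne, IsRoot.def, eval_sub, eval_pow, eval_X, sub_eq_zero]
  have hsub : Finset.univ.image ι ⊆ (X ^ (p ^ N) - X : k[X]).roots.toFinset := by
    intro y hy
    obtain ⟨a, -, rfl⟩ := Finset.mem_image.1 hy
    exact (hroot _).2 (hfix a)
  have hle : (X ^ (p ^ N) - X : k[X]).roots.toFinset.card ≤ (Finset.univ.image ι).card := by
    rw [Finset.card_image_of_injective _ hιinj, Finset.card_univ, hcard]
    exact ((Multiset.toFinset_card_le _).trans (card_roots' _)).trans hdeg.le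
  have heq := Finset.eq_of_subset_of_card_le hsub hle
  have hmem := (hroot c).2 hc
  rw [← heq] at hmem
  obtain ⟨a, -, ha⟩ := Finset.mem_image.1 hmem
  exact ⟨a, ha⟩

end FiniteFields

section Eval

theorem eval_eval_eq {K : Type*} [Field K] (χ : K[X][X]) (P : K[X]) (s : K) :
    (χ.eval P).eval s = χ.evalEval s (P.eval s) := by
  rw [← eval₂_evalRingHom]
  have := Polynomial.hom_eval₂ χ (RingHom.id K[X]) (evalRingHom s) P
  simpa [Polynomial.eval₂_id] using this

theorem hom_eval {k A : Type*} [Field k] [CommRing A] [Algebra k A] (S Y : A) (x : A →ₐ[k] k)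
    (χ : k[X][X]) :
    x (χ.eval₂ (aeval S : k[X] →ₐ[k] A).toRingHom Y) = χ.evalEval (x S) (x Y) := by
  rw [← eval₂_evalRingHom]
  have h := Polynomial.hom_eval₂ χ (aeval S : k[X] →ₐ[k] A).toRingHom x.toRingHom Y
  have h2 : x.toRingHom.comp (aeval S : k[X] →ₐ[k] A).toRingHom = evalRingHom (x S) := by
    apply Polynomial.ringHom_ext
    · intro a
      simp
    · simp
  rw [h2] at h
  exact h

theorem natDegree_poly5 {K : Type*} [Field K] (w : Fin 5 → K) : (poly5 w).natDegree ≤ 4 := by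
  unfold poly5
  apply natDegree_sum_le_of_forall_le
  intro i _
  refine (natDegree_C_mul_X_pow_le _ _).trans ?_
  omega

theorem poly5_map {K k : Type*} [Field K] [Field k] (ι : K →+* k) (w : Fin 5 → K) :
    (poly5 w).map ι = poly5 (fun i => ι (w i)) := by
  simp [poly5, Polynomial.map_sum]

theorem poly5_add_smul {K : Type*} [Field K] (v w : Fin 5 → K) (t : K) :
    poly5 (v + t • w) = poly5 v + C t * poly5 w := by
  unfold poly5
  rw [Finset.mul_sum, ← Finset.sum_add_distrib]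
  refine Finset.sum_congr rfl fun i _ => ?_
  simp only [Pi.add_apply, Pi.smul_apply, smul_eq_mul, C_add, C_mul]
  ring

variable {k A : Type} [Field k] [CommRing A] [Algebra k A]

theorem Dfam_pencil (S Y c : A) (β β' : k) (v w : Fin 5 → k) :
    Dfam S Y c β' (v + (β - β') • w) =
      Dfam S Y c β v + (β' - β) • (Y - aeval S (poly5 w)) := by
  unfold Dfam
  rw [poly5_add_smul, map_add, map_mul, aeval_C]
  simp only [Algebra.smul_def, map_sub]
  ring

theorem Dfam_hom (S Y c : A) (β : k) (v : Fin 5 → k) (x : A →ₐ[k] k) :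
    x (Dfam S Y c β v) = x c + β * x Y + (poly5 v).eval (x S) := by
  unfold Dfam
  rw [map_add, map_add, map_smul, smul_eq_mul, ← Polynomial.aeval_algHom_apply,
    Polynomial.coe_aeval_eq_eval]

theorem sigma_Dfam {q : ℕ} {σ : A →+* A} (hσ : IsFrobSemi k q σ) {S Y c : A} (hS : σ S = S)
    (hY : σ Y = Y) (hc : σ c = c) {β : k} {v : Fin 5 → k} (hβ : β ^ q = β)
    (hv : ∀ i, v i ^ q = v i) : σ (Dfam S Y c β v) = Dfam S Y c β v := by
  have h1 : σ (β • Y) = β • Y := by
    rw [Algebra.smul_def, map_mul, hσ, hβ, hY]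
  have h2 : σ (aeval S (poly5 v)) = aeval S (poly5 v) := by
    unfold poly5
    simp only [map_sum, map_mul, aeval_C, map_pow, aeval_X]
    refine Finset.sum_congr rfl fun i _ => ?_
    rw [hσ, hv, hS]
  unfold Dfam
  rw [map_add, map_add, hc, h1, h2]

end Eval

section Transfer

variable {K k : Type} [Field K] [Field k] (ι : K →+* k)

theorem good_map (χ : K[X][X]) (s y : K) :
    Good (χ.map (mapRingHom ι)) (ι s) (ι y) ↔ Good χ s y := by
  unfold Good
  rw [derivative_map, map_mapRingHom_evalEval, map_mapRingHom_evalEval]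
  rw [map_eq_zero, Ne, map_eq_zero]

theorem root_map (χ : K[X][X]) (P : K[X]) (s : K) :
    ((χ.map (mapRingHom ι)).eval (P.map ι)).eval (ι s) = 0 ↔ (χ.eval P).eval s = 0 := by
  rw [map_mapRingHom_eval_map_eval, map_eq_zero]

theorem isCnz_map {χ : K[X][X]} {n z : ℕ} (h : IsCnz χ n z) :
    IsCnz (χ.map (mapRingHom ι)) n z := by
  have hnd : ∀ p : K[X], (mapRingHom ι p).natDegree = p.natDegree := fun p => by
    rw [coe_mapRingHom, natDegree_map]
  refine ⟨h.monic.map _, ?_, ?_, ?_⟩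
  · rw [h.monic.natDegree_map]
    exact h.natDegree
  · rw [coeff_map, hnd]
    exact h.deg0
  · intro j hj hjn
    rw [coeff_map, hnd]
    exact h.lt j hj hjn

/-- If all roots of a polynomial are among `z = deg` known ones. -/
theorem root_mem {F : k[X]} {z : ℕ} (hz : 0 < z) (hF : F.natDegree = z) {R : Finset k}
    (hR : R.card = z) (h : ∀ s ∈ R, F.eval s = 0) {s : k} (hs : F.eval s = 0) : s ∈ R := by
  classical
  have hne : F ≠ 0 := by
    rintro rfl
    rw [natDegree_zero] at hF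
    omega
  have hsub : R ⊆ F.roots.toFinset := by
    intro r hr
    rw [Multiset.mem_toFinset, mem_roots hne]
    exact h r hr
  have hle : F.roots.toFinset.card ≤ R.card :=
    ((Multiset.toFinset_card_le _).trans (card_roots' _)).trans (by rw [hF, hR])
  rw [Finset.eq_of_subset_of_card_le hsub hle, Multiset.mem_toFinset, mem_roots hne]
  exact hs

/-- `SplitGood` over the small field gives `SplitGood` over the big one, with the same roots. -/
theorem splitGood_up {χ : K[X][X]} {n z : ℕ} (hn : 1 ≤ n) (hχ : IsCnz χ n z) {P : K[X]}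
    (hP : n * P.natDegree < z) (h : SplitGood χ z P) :
    SplitGood (χ.map (mapRingHom ι)) z (P.map ι) ∧
      ∀ s : k, ((χ.map (mapRingHom ι)).eval (P.map ι)).eval s = 0 → ∃ r : K, ι r = s := by
  classical
  obtain ⟨⟨R, hRc, hR⟩, hG⟩ := h
  have hdeg : ((χ.map (mapRingHom ι)).eval (P.map ι)).natDegree = z := by
    apply natDegree_eval_of_isCnz _ n z hn (isCnz_map ι hχ)
    rw [natDegree_map]
    exact hP
  have hcard : (R.image ι).card = z := by
    rw [Finset.card_image_of_injective _ ι.injective, hRc]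
  have hroots : ∀ s ∈ R.image ι, ((χ.map (mapRingHom ι)).eval (P.map ι)).eval s = 0 := by
    intro s hs
    obtain ⟨r, hr, rfl⟩ := Finset.mem_image.1 hs
    exact (root_map ι χ P r).2 ((hR r).1 hr)
  have hall : ∀ s : k, ((χ.map (mapRingHom ι)).eval (P.map ι)).eval s = 0 → s ∈ R.image ι :=
    fun s hs => root_mem (by omega) hdeg hcard hroots hs
  refine ⟨⟨⟨R.image ι, hcard, fun s => ⟨hroots s, hall s⟩⟩, ?_⟩, ?_⟩
  · intro s hs
    obtain ⟨r, hr, rfl⟩ := Finset.mem_image.1 (hall s hs)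
    rw [eval_map_apply, good_map]
    exact hG r ((hR r).1 hr)
  · intro s hs
    obtain ⟨r, hr, rfl⟩ := Finset.mem_image.1 (hall s hs)
    exact ⟨r, rfl⟩

/-- Failure of `SplitGood` when there are `z` roots. -/
theorem bad_root {χ : K[X][X]} {n z : ℕ} (hn : 1 ≤ n) (hχ : IsCnz χ n z) {P : K[X]}
    (hP : n * P.natDegree < z) {R : Finset K} (hR : R.card = z)
    (h : ∀ s ∈ R, (χ.eval P).eval s = 0) (hbad : ¬ SplitGood χ z P) :
    ∃ s ∈ R, ¬ Good χ s (P.eval s) := by
  by_contra hcon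
  push Not at hcon
  have hdeg := natDegree_eval_of_isCnz χ n z hn hχ P hP
  have hall : ∀ s, (χ.eval P).eval s = 0 → s ∈ R := fun s hs =>
    root_mem (by omega) hdeg hR h hs
  exact hbad ⟨⟨R, hR, fun s => ⟨h s, hall s⟩⟩, fun s hs => hcon s (hall s hs)⟩

end Transfer

section Sums

variable {K k A : Type} [Field K] [Field k] [CommRing A] [Algebra k A] (ι : K →+* k)

/-- The sum over the roots is the sum over the points. -/
theorem sum_eq [Fintype K] [DecidableEq K] (D S Y : A) (χ : K[X][X]) (P : K[X])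
    (m : (A →ₐ[k] k) →₀ ℕ) (hm1 : ∀ x, m x ≤ 1)
    (hm : ∀ x, m x = 1 ↔ x D = 0 ∧ x Y = (P.map ι).eval (x S))
    (hex : ∀ s : K, (χ.eval P).eval s = 0 → ∃ x, m x = 1 ∧ x S = ι s)
    (hroot : ∀ x, m x = 1 → ∃ s : K, x S = ι s ∧ (χ.eval P).eval s = 0)
    (huniq : ∀ s : K, (χ.eval P).eval s = 0 → ∀ x x' : A →ₐ[k] k, x D = 0 → x' D = 0 →
      x S = ι s → x' S = ι s → x Y = ι (P.eval s) → x' Y = ι (P.eval s) → x = x')
    (ψ : K × K → ℚ) (g : (A →ₐ[k] k) → ℚ)
    (hψ : ∀ s : K, (χ.eval P).eval s = 0 → ∀ x : A →ₐ[k] k, x D = 0 → x S = ι s →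
      x Y = ι (P.eval s) → ψ (s, P.eval s) = g x) :
    ∑ s : K, (if χ.evalEval s (P.eval s) = 0 then ψ (s, P.eval s) else 0) =
      m.sum (fun x e => (e : ℚ) * g x) := by
  classical
  have hY : ∀ (x : A →ₐ[k] k) (s : K), x S = ι s → m x = 1 → x D = 0 ∧ x Y = ι (P.eval s) := by
    intro x s hs hx
    obtain ⟨h1, h2⟩ := (hm x).1 hx
    refine ⟨h1, ?_⟩
    rw [h2, hs, eval_map_apply]
  have h1 : m.sum (fun x e => (e : ℚ) * g x) = ∑ x ∈ m.support, g x := by
    unfold Finsupp.sum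
    refine Finset.sum_congr rfl fun x hx => ?_
    have h0 : m x ≠ 0 := Finsupp.mem_support_iff.1 hx
    have h2 : m x = 1 := by
      have := hm1 x
      omega
    show ((m x : ℕ) : ℚ) * g x = g x
    rw [h2, Nat.cast_one, one_mul]
  have hsupp : ∀ x, x ∈ m.support ↔ m x = 1 := by
    intro x
    rw [Finsupp.mem_support_iff]
    have := hm1 x
    omega
  have hsel : ∀ x : A →ₐ[k] k, ∃ s : K, m x = 1 → x S = ι s ∧ (χ.eval P).eval s = 0 := by
    intro x
    by_cases hx : m x = 1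
    · obtain ⟨s, hs⟩ := hroot x hx
      exact ⟨s, fun _ => hs⟩
    · exact ⟨0, fun h => absurd h hx⟩
  choose sel hsel using hsel
  rw [h1, ← Finset.sum_filter]
  symm
  refine Finset.sum_nbij sel ?_ ?_ ?_ ?_
  · intro x hx
    rw [hsupp] at hx
    refine Finset.mem_filter.2 ⟨Finset.mem_univ _, ?_⟩
    rw [← eval_eval_eq]
    exact (hsel x hx).2
  · intro x hx x' hx' h
    rw [Finset.mem_coe, hsupp] at hx hx'
    obtain ⟨d1, d2⟩ := hY x _ (hsel x hx).1 hx
    obtain ⟨d3, d4⟩ := hY x' _ (hsel x' hx').1 hx'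
    rw [← h] at d4
    refine huniq (sel x) (hsel x hx).2 x x' d1 d3 (hsel x hx).1 ?_ d2 d4
    rw [h]
    exact (hsel x' hx').1
  · intro s hs
    have hr : (χ.eval P).eval s = 0 := by
      have := (Finset.mem_filter.1 (Finset.mem_coe.1 hs)).2
      rwa [← eval_eval_eq] at this
    obtain ⟨x, c1, c2⟩ := hex s hr
    refine ⟨x, Finset.mem_coe.2 ((hsupp x).2 c1), ?_⟩
    exact ι.injective ((hsel x c1).1.symm.trans c2)
  · intro x hx
    rw [hsupp] at hx
    obtain ⟨c1, c2⟩ := hsel x hx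
    obtain ⟨d1, d2⟩ := hY x _ c1 hx
    exact (hψ _ c2 x d1 c1 d2).symm

end Sums

end M7d

open M7d

theorem M7_core (p : ℕ) [Fact p.Prime] {k A : Type} [Field k] [IsAlgClosed k]
    [CharP k p] [Algebra (ZMod p) k] [Algebra.IsAlgebraic (ZMod p) k] [CommRing A] [Algebra k A]
    (S Y c : A) (n z : ℕ) (hn : 2 ≤ n) (hcop : n.Coprime z) (h8 : 8 * n ≤ z)
    (hM4 : M4Concl p n z)
    (hD : ∀ (β : k) (v : Fin 5 → k), IsDomain (A ⧸ Ideal.span {Dfam S Y c β v}) ∧
      ∃ o : OneLeaf k (A ⧸ Ideal.span {Dfam S Y c β v}),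
        o.wt (Ideal.Quotient.mk _ S) = n ∧ o.wt (Ideal.Quotient.mk _ Y) = z)
    (hσ : ∃ m₀ : ℕ, 0 < m₀ ∧ ∀ m : ℕ, m₀ ∣ m → 0 < m →
      ∃ σ : A →+* A, IsFrobSemi k (p ^ m) σ ∧ σ S = S ∧ σ Y = Y ∧ σ c = c)
    (φ : A → A → ℚ) (hφ : CurveFun (Set.range fun b : k × (Fin 5 → k) => Dfam S Y c b.1 b.2) φ)
    (Ψ : A → (A →ₐ[k] k) → ℚ)
    (hΨ : ∀ (β : k) (v : Fin 5 → k),
      IsPsiA k (Dfam S Y c β v) (φ (Dfam S Y c β v)) (Ψ (Dfam S Y c β v)))
    (β : k) (v : Fin 5 → k) (β' : k) (v' : Fin 5 → k) (x : A →ₐ[k] k)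
    (hx : x (Dfam S Y c β v) = 0) (hx' : x (Dfam S Y c β' v') = 0)
    (hg : GoodPtA (Dfam S Y c β v) S Y x) (hg' : GoodPtA (Dfam S Y c β' v') S Y x) :
    Ψ (Dfam S Y c β v) x = Ψ (Dfam S Y c β' v') x := by
  classical
  have hp : p.Prime := Fact.out
  have hz : 1 ≤ z := by omega
  -- the plane curves over `k`
  have hcurve : ∀ (β : k) (v : Fin 5 → k), ∃ χ : k[X][X], IsCnz χ n z ∧
      χ.eval₂ (aeval S : k[X] →ₐ[k] A).toRingHom Y ∈ Ideal.span {Dfam S Y c β v} ∧
      (∀ χ' : k[X][X], χ'.Monic → χ'.natDegree = n →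
        χ'.eval₂ (aeval S : k[X] →ₐ[k] A).toRingHom Y ∈ Ideal.span {Dfam S Y c β v} →
          χ' = χ) ∧
      (∀ s y, Good χ s y → ∃! x : A →ₐ[k] k, x (Dfam S Y c β v) = 0 ∧ x S = s ∧ x Y = y) ∧
      (∀ x : A →ₐ[k] k, x (Dfam S Y c β v) = 0 →
        (Good χ (x S) (x Y) ↔ GoodPtA (Dfam S Y c β v) S Y x)) ∧
      (∀ P : k[X], n * P.natDegree < z → Y - aeval S P ∉ Ideal.span {Dfam S Y c β v}) ∧
      (∀ P : k[X], n * P.natDegree < z → SplitGood χ z P →
        ∃ m : (A →ₐ[k] k) →₀ ℕ, (∀ x, m x ≤ 1) ∧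
          (∀ x, m x = 1 ↔ x (Dfam S Y c β v) = 0 ∧ x Y = P.eval (x S)) ∧
          (∀ s, (χ.eval P).eval s = 0 → ∃ x, m x = 1 ∧ x S = s) ∧
          Ideal.span {Y - aeval S P, Dfam S Y c β v} =
            m.prod (fun x e => (RingHom.ker x) ^ e) ⊔ Ideal.span {Dfam S Y c β v}) := by
    intro β v
    obtain ⟨hdom, o, hoS, hoY⟩ := hD β v
    exact M7a_curve (Dfam S Y c β v) S Y n z hn hz hcop hdom o hoS hoY
  choose χ hχ hχ0 hχu hχpt hχgood hχne hχsplit using hcurve
  have hχx : ∀ (β : k) (v : Fin 5 → k) (x : A →ₐ[k] k), x (Dfam S Y c β v) = 0 →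
      (χ β v).evalEval (x S) (x Y) = 0 := by
    intro β v x hx
    rw [← hom_eval]
    have h := hχ0 β v
    have hle : Ideal.span {Dfam S Y c β v} ≤ RingHom.ker x := by
      rw [Ideal.span_singleton_le_iff_mem, RingHom.mem_ker]
      exact hx
    exact RingHom.mem_ker.1 (hle h)
  -- many good points
  obtain ⟨T, hTc, hT⟩ := M5d_many (χ β v) n z hn (hχ β v) hcop (x S) (x Y)
    ((hχgood β v x hx).2 hg)
  obtain ⟨T', hTc', hT'⟩ := M5d_many (χ β' v') n z hn (hχ β' v') hcop (x S) (x Y)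
    ((hχgood β' v' x hx').2 hg')
  -- the finite set of elements needed
  let E : Finset k := {β, β', x S, x Y} ∪ Finset.univ.image v ∪ Finset.univ.image v' ∪
    T.image Prod.fst ∪ T.image Prod.snd ∪ T'.image Prod.fst ∪ T'.image Prod.snd
  obtain ⟨d, hd, hE⟩ := exists_pow_finset p E
  obtain ⟨m₀, hm₀, hσ⟩ := hσ
  obtain ⟨Q₀, hM4⟩ := hM4
  obtain ⟨m, hm⟩ : ∃ m : ℕ, m = m₀ * d * (Q₀ + 1) := ⟨_, rfl⟩
  have hmpos : 0 < m := by
    rw [hm]
    positivity
  have hN : 2 * m ≠ 0 := by omega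
  obtain ⟨ι, hιfix, hιsurj⟩ := exists_subfield p (k := k) (2 * m) hN
  obtain ⟨σ, hσ1, hσS, hσY, hσc⟩ := hσ (2 * m) (by
    rw [hm]
    exact ⟨2 * (d * (Q₀ + 1)), by ring⟩) (by omega)
  have hEmem : ∀ e ∈ E, ∃ a, ι a = e := fun e he =>
    hιsurj e (hE (2 * m) (by
      rw [hm]
      exact ⟨2 * (m₀ * (Q₀ + 1)), by ring⟩) e he)
  have : Fintype (GaloisField p (2 * m)) := Fintype.ofFinite _
  have hcard : Fintype.card (GaloisField p (2 * m)) = (p ^ m) ^ 2 := by
    rw [← Nat.card_eq_fintype_card, GaloisField.card p (2 * m) hN, ← pow_mul, mul_comm]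
  have hQ : Q₀ ≤ Fintype.card (GaloisField p (2 * m)) := by
    rw [hcard, ← pow_mul]
    have h1 : m * 2 < p ^ (m * 2) := Nat.lt_pow_self hp.one_lt
    have h2 : Q₀ + 1 ≤ m := by
      rw [hm]
      exact Nat.le_mul_of_pos_left _ (by positivity)
    omega
  letI : Algebra (GaloisField p (2 * m)) k := ι.toAlgebra
  have hmap : algebraMap (GaloisField p (2 * m)) k = ι := rfl
  haveI : ExpChar k p := ExpChar.prime hp
  -- descent of the plane curves
  have hdesc : ∀ (b : GaloisField p (2 * m)) (u : Fin 5 → GaloisField p (2 * m)),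
      ∃ χK : (GaloisField p (2 * m))[X][X], IsCnz χK n z ∧
        χK.map (mapRingHom ι) = χ (ι b) (fun i => ι (u i)) := by
    intro b u
    have hfr : ∀ c : k, iterateFrobenius k p (2 * m) c = c ^ (p ^ (2 * m)) :=
      fun c => iterateFrobenius_def p (2 * m) c
    have hD' := sigma_Dfam (v := fun i => ι (u i)) hσ1 hσS hσY hσc (hιfix b)
      (fun i => hιfix (u i))
    have hfix := M7c_fixed (p ^ (2 * m)) (iterateFrobenius k p (2 * m)) hfr
      (Dfam S Y c (ι b) (fun i => ι (u i))) S Y n (χ (ι b) (fun i => ι (u i)))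
      (hχ _ _).monic (hχ _ _).natDegree (hχ0 _ _) (hχu _ _) σ hσ1 hσS hσY hD'
    exact M7c_descend (K := GaloisField p (2 * m)) (p ^ (2 * m)) (iterateFrobenius k p (2 * m))
      hfr hιsurj (χ (ι b) (fun i => ι (u i))) n z (hχ _ _) hfix
  choose χK hχK hχKmap using hdesc
  -- the functions of points
  let DK : GaloisField p (2 * m) → (Fin 5 → GaloisField p (2 * m)) → A :=
    fun b u => Dfam S Y c (ι b) (fun i => ι (u i))
  let ψK : GaloisField p (2 * m) → (Fin 5 → GaloisField p (2 * m)) →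
      GaloisField p (2 * m) × GaloisField p (2 * m) → ℚ := fun b u sy =>
    if h : ∃ x : A →ₐ[k] k, x (DK b u) = 0 ∧ x S = ι sy.1 ∧ x Y = ι sy.2 then
      Ψ (DK b u) h.choose else 0
  have hgoodK : ∀ b u s y, Good (χK b u) s y ↔
      Good (χ (ι b) (fun i => ι (u i))) (ι s) (ι y) := by
    intro b u s y
    rw [← hχKmap, good_map]
  have huniqK : ∀ b u s y, Good (χK b u) s y → ∀ x x' : A →ₐ[k] k, x (DK b u) = 0 →
      x' (DK b u) = 0 → x S = ι s → x' S = ι s → x Y = ι y → x' Y = ι y → x = x' := by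
    intro b u s y hG x x' h1 h2 h3 h4 h5 h6
    obtain ⟨x₀, -, hx₀⟩ := hχpt _ _ _ _ ((hgoodK b u s y).1 hG)
    rw [hx₀ x ⟨h1, h3, h5⟩, hx₀ x' ⟨h2, h4, h6⟩]
  have hψK : ∀ b u s y, Good (χK b u) s y → ∀ x : A →ₐ[k] k, x (DK b u) = 0 → x S = ι s →
      x Y = ι y → ψK b u (s, y) = Ψ (DK b u) x := by
    intro b u s y hG x h1 h2 h3
    have hex : ∃ x : A →ₐ[k] k, x (DK b u) = 0 ∧ x S = ι (s, y).1 ∧ x Y = ι (s, y).2 :=
      ⟨x, h1, h2, h3⟩
    show (if h : ∃ x : A →ₐ[k] k, x (DK b u) = 0 ∧ x S = ι (s, y).1 ∧ x Y = ι (s, y).2 then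
      Ψ (DK b u) h.choose else 0) = _
    rw [dif_pos hex]
    obtain ⟨g1, g2, g3⟩ := hex.choose_spec
    rw [huniqK b u s y hG _ x g1 h1 g2 h2 g3 h3]
  have hdegP : ∀ w : Fin 5 → GaloisField p (2 * m), n * (poly5 w).natDegree < z := by
    intro w
    have h1 := natDegree_poly5 w
    have h2 : n * (poly5 w).natDegree ≤ n * 4 := Nat.mul_le_mul_left _ h1
    omega
  have hdegP' : ∀ w : Fin 5 → GaloisField p (2 * m), n * ((poly5 w).map ι).natDegree < z := by
    intro w
    rw [natDegree_map]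
    exact hdegP w
  -- the pencil
  have hpen : ∀ b b' (u w : Fin 5 → GaloisField p (2 * m)),
      DK b' (u + (b - b') • w) = DK b u + (ι b' - ι b) • (Y - aeval S ((poly5 w).map ι)) := by
    intro b b' u w
    have h1 : (fun i => ι ((u + (b - b') • w) i)) =
        (fun i => ι (u i)) + (ι b - ι b') • (fun i => ι (w i)) := by
      funext i
      simp
    show Dfam S Y c (ι b') (fun i => ι ((u + (b - b') • w) i)) = _
    rw [h1, Dfam_pencil, poly5_map]
  have hpenx : ∀ b b' (u w : Fin 5 → GaloisField p (2 * m)) (x : A →ₐ[k] k),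
      x Y = ((poly5 w).map ι).eval (x S) →
      (x (DK b' (u + (b - b') • w)) = 0 ↔ x (DK b u) = 0) := by
    intro b b' u w x hxY
    rw [hpen, map_add, map_smul, map_sub, ← Polynomial.aeval_algHom_apply,
      Polynomial.coe_aeval_eq_eval, hxY, sub_self, smul_zero, add_zero]
  -- data of a good section
  have hsec : ∀ b u w, SplitGood (χK b u) z (poly5 w) →
      ∃ m' : (A →ₐ[k] k) →₀ ℕ, (∀ x, m' x ≤ 1) ∧
        (∀ x, m' x = 1 ↔ x (DK b u) = 0 ∧ x Y = ((poly5 w).map ι).eval (x S)) ∧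
        (∀ s : GaloisField p (2 * m), ((χK b u).eval (poly5 w)).eval s = 0 →
          ∃ x, m' x = 1 ∧ x S = ι s) ∧
        (∀ x, m' x = 1 → ∃ s : GaloisField p (2 * m), x S = ι s ∧
          ((χK b u).eval (poly5 w)).eval s = 0) ∧
        φ (DK b u) (Y - aeval S ((poly5 w).map ι)) =
          m'.sum (fun x e => (e : ℚ) * Ψ (DK b u) x) := by
    intro b u w hs
    obtain ⟨hs1, hs2⟩ := splitGood_up ι (by omega) (hχK b u) (hdegP w) hs
    rw [hχKmap] at hs1 hs2
    obtain ⟨m', a1, a2, a3, a4⟩ := hχsplit _ _ _ (hdegP' w) hs1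
    refine ⟨m', a1, a2, ?_, ?_, ?_⟩
    · intro s hs0
      apply a3
      rw [← hχKmap, root_map]
      exact hs0
    · intro x hx1
      obtain ⟨c1, c2⟩ := (a2 x).1 hx1
      have h0 := hχx _ _ x c1
      rw [c2, ← eval_eval_eq] at h0
      obtain ⟨s, hs3⟩ := hs2 _ h0
      refine ⟨s, hs3.symm, ?_⟩
      rw [← hs3, ← hχKmap, root_map] at h0
      exact h0
    · refine hΨ (ι b) (fun i => ι (u i)) _ (hχne _ _ _ (hdegP' w)) m' ?_ a4
      intro x hx1
      have h0 : m' x ≠ 0 := Finsupp.mem_support_iff.1 hx1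
      have h1 : m' x = 1 := by
        have := a1 x
        omega
      exact ((a2 x).1 h1).1
  -- first hypothesis
  have hyp1 : ∀ b u b' w, SplitGood (χK b u) z (poly5 w) →
      SplitGood (χK b' (u + (b - b') • w)) z (poly5 w) →
      (∀ s, (χK b u).evalEval s ((poly5 w).eval s) = 0 ↔
        (χK b' (u + (b - b') • w)).evalEval s ((poly5 w).eval s) = 0) ∧
      ∑ s : GaloisField p (2 * m), (if (χK b u).evalEval s ((poly5 w).eval s) = 0
        then ψK b u (s, (poly5 w).eval s) else 0)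
      = ∑ s : GaloisField p (2 * m), (if (χK b u).evalEval s ((poly5 w).eval s) = 0
        then ψK b' (u + (b - b') • w) (s, (poly5 w).eval s) else 0) := by
    intro b u b' w hs hs'
    obtain ⟨m₁, a1, a2, a3, a4, a5⟩ := hsec b u w hs
    obtain ⟨m₂, b1, b2, b3, b4, b5⟩ := hsec b' (u + (b - b') • w) w hs'
    have hmm : m₁ = m₂ := by
      ext x
      have hiff : m₁ x = 1 ↔ m₂ x = 1 := by
        rw [a2, b2]
        constructor
        · rintro ⟨c1, c2⟩
          exact ⟨(hpenx b b' u w x c2).2 c1, c2⟩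
        · rintro ⟨c1, c2⟩
          exact ⟨(hpenx b b' u w x c2).1 c1, c2⟩
      have := a1 x
      have := b1 x
      by_cases h : m₁ x = 1
      · rw [h, hiff.1 h]
      · have h' : ¬ m₂ x = 1 := fun h2 => h (hiff.2 h2)
        omega
    subst hmm
    have hroots : ∀ s, (χK b u).evalEval s ((poly5 w).eval s) = 0 ↔
        (χK b' (u + (b - b') • w)).evalEval s ((poly5 w).eval s) = 0 := by
      intro s
      rw [← eval_eval_eq, ← eval_eval_eq]
      constructor
      · intro h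
        obtain ⟨x, c1, c2⟩ := a3 s h
        obtain ⟨s', d1, d2⟩ := b4 x c1
        have : s' = s := ι.injective (d1.symm.trans c2)
        rw [← this]
        exact d2
      · intro h
        obtain ⟨x, c1, c2⟩ := b3 s h
        obtain ⟨s', d1, d2⟩ := a4 x c1
        have : s' = s := ι.injective (d1.symm.trans c2)
        rw [← this]
        exact d2
    refine ⟨hroots, ?_⟩
    have e1 := sum_eq ι (DK b u) S Y (χK b u) (poly5 w) m₁ a1 a2 a3 a4
      (fun s h0 x x' h1 h2 h3 h4 h5 h6 =>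
        huniqK b u s _ (hs.2 s h0) x x' h1 h2 h3 h4 h5 h6)
      (ψK b u) (Ψ (DK b u)) (fun s h0 x h1 h2 h3 => hψK b u s _ (hs.2 s h0) x h1 h2 h3)
    have e2 := sum_eq ι (DK b' (u + (b - b') • w)) S Y (χK b' (u + (b - b') • w)) (poly5 w) m₁
      b1 b2 b3 b4
      (fun s h0 x x' h1 h2 h3 h4 h5 h6 =>
        huniqK b' (u + (b - b') • w) s _ (hs'.2 s h0) x x' h1 h2 h3 h4 h5 h6)
      (ψK b' (u + (b - b') • w)) (Ψ (DK b' (u + (b - b') • w)))
      (fun s h0 x h1 h2 h3 => hψK b' (u + (b - b') • w) s _ (hs'.2 s h0) x h1 h2 h3)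
    have e3 : ∑ s : GaloisField p (2 * m), (if (χK b u).evalEval s ((poly5 w).eval s) = 0
        then ψK b' (u + (b - b') • w) (s, (poly5 w).eval s) else 0) =
        ∑ s : GaloisField p (2 * m),
          (if (χK b' (u + (b - b') • w)).evalEval s ((poly5 w).eval s) = 0
            then ψK b' (u + (b - b') • w) (s, (poly5 w).eval s) else 0) := by
      refine Finset.sum_congr rfl fun s _ => ?_
      by_cases h : (χK b u).evalEval s ((poly5 w).eval s) = 0
      · rw [if_pos h, if_pos ((hroots s).1 h)]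
      · rw [if_neg h, if_neg (fun h' => h ((hroots s).2 h'))]
    rw [e1, e3, e2, ← a5, ← b5]
    refine hφ.link _ ⟨(ι b, fun i => ι (u i)), rfl⟩ _
      ⟨(ι b', fun i => ι ((u + (b - b') • w) i)), rfl⟩ _ (hχne _ _ _ (hdegP' w))
      (hχne _ _ _ (hdegP' w)) ?_
    show DK b u - DK b' (u + (b - b') • w) ∈ _
    rw [hpen, Ideal.mem_span_singleton, sub_add_cancel_left, Algebra.smul_def]
    exact ⟨-algebraMap k A (ι b' - ι b), by ring⟩
  -- second hypothesis
  have hyp2 : ∀ b u w, SplitGood (χK b u) z (poly5 w) →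
      Nat.card {b' : GaloisField p (2 * m) //
        ¬ SplitGood (χK b' (u + (b - b') • w)) z (poly5 w)} ≤ z := by
    intro b u w hs
    obtain ⟨m₁, a1, a2, a3, a4, -⟩ := hsec b u w hs
    obtain ⟨⟨R, hRc, hR⟩, hG⟩ := id hs
    -- the point over a root
    have hpt : ∀ s : R, ∃ x : A →ₐ[k] k, m₁ x = 1 ∧ x S = ι s.1 := fun s =>
      a3 s.1 ((hR s.1).1 s.2)
    choose pt hpt1 hpt2 using hpt
    have hbad : ∀ b' : {b' : GaloisField p (2 * m) //
        ¬ SplitGood (χK b' (u + (b - b') • w)) z (poly5 w)},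
        ∃ s : R, ¬ GoodPtA (DK b'.1 (u + (b - b'.1) • w)) S Y (pt s) := by
      rintro ⟨b', hb'⟩
      have hroot' : ∀ s ∈ R, ((χK b' (u + (b - b') • w)).eval (poly5 w)).eval s = 0 := by
        intro s hs0
        obtain ⟨c1, c2⟩ := (a2 _).1 (hpt1 ⟨s, hs0⟩)
        have c3 := (hpenx b b' u w _ c2).2 c1
        have h0 := hχx _ _ _ c3
        rw [c2, ← eval_eval_eq, hpt2, ← hχKmap, root_map] at h0
        exact h0
      obtain ⟨s, hs0, hs1⟩ := bad_root (by omega) (hχK b' (u + (b - b') • w)) (hdegP w) hRc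
        hroot' hb'
      refine ⟨⟨s, hs0⟩, fun hcon => hs1 ?_⟩
      obtain ⟨c1, c2⟩ := (a2 _).1 (hpt1 ⟨s, hs0⟩)
      have c3 := (hpenx b b' u w _ c2).2 c1
      have h1 := (hχgood _ _ _ c3).2 hcon
      rw [c2, hpt2, eval_map_apply] at h1
      exact (hgoodK _ _ _ _).2 h1
    choose f hf using hbad
    have hinj : Function.Injective f := by
      intro b₁ b₂ h12
      obtain ⟨c1, c2⟩ := (a2 _).1 (hpt1 (f b₁))
      have hgd : GoodPtA (DK b u) S Y (pt (f b₁)) := by
        apply (hχgood _ _ _ c1).1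
        rw [c2, hpt2, eval_map_apply]
        exact (hgoodK _ _ _ _).1 (hG _ ((hR _).1 (f b₁).2))
      have h1 := hf b₁
      have h2 := hf b₂
      rw [← h12] at h2
      rw [hpen] at h1 h2
      have := M7b_bad (DK b u) S Y ((poly5 w).map ι) (pt (f b₁)) c1 c2 hgd _ _ h1 h2
      exact Subtype.ext (ι.injective (sub_left_injective this))
    have := Nat.card_le_card_of_injective f hinj
    rwa [Nat.card_eq_fintype_card (α := R), Fintype.card_coe, hRc] at this
  -- conclusion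
  have hmemE : ∀ e, e ∈ E ↔ ((((((e = β ∨ e = β' ∨ e = x S ∨ e = x Y) ∨ (∃ i, v i = e)) ∨
      (∃ i, v' i = e)) ∨ (∃ t ∈ T, t.1 = e)) ∨ (∃ t ∈ T, t.2 = e)) ∨ (∃ t ∈ T', t.1 = e)) ∨
      (∃ t ∈ T', t.2 = e) := by
    intro e
    simp only [E, Finset.mem_union, Finset.mem_insert, Finset.mem_singleton, Finset.mem_image,
      Finset.mem_univ, true_and]
  obtain ⟨b, hb⟩ := hEmem β ((hmemE _).2 (by simp))
  obtain ⟨b', hb'⟩ := hEmem β' ((hmemE _).2 (by simp))
  obtain ⟨s, hs⟩ := hEmem (x S) ((hmemE _).2 (by simp))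
  obtain ⟨y, hy⟩ := hEmem (x Y) ((hmemE _).2 (by simp))
  have hu : ∀ i, ∃ a, ι a = v i := fun i => hEmem (v i) ((hmemE _).2 (by
    exact Or.inl (Or.inl (Or.inl (Or.inl (Or.inl (Or.inr ⟨i, rfl⟩)))))))
  have hu' : ∀ i, ∃ a, ι a = v' i := fun i => hEmem (v' i) ((hmemE _).2 (by
    exact Or.inl (Or.inl (Or.inl (Or.inl (Or.inr ⟨i, rfl⟩))))))
  choose u hu using hu
  choose u' hu' using hu'
  have hDb : DK b u = Dfam S Y c β v := by
    show Dfam S Y c (ι b) (fun i => ι (u i)) = _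
    rw [hb, show (fun i => ι (u i)) = v from funext hu]
  have hDb' : DK b' u' = Dfam S Y c β' v' := by
    show Dfam S Y c (ι b') (fun i => ι (u' i)) = _
    rw [hb', show (fun i => ι (u' i)) = v' from funext hu']
  have hχb : χ (ι b) (fun i => ι (u i)) = χ β v := by
    rw [hb, show (fun i => ι (u i)) = v from funext hu]
  have hχb' : χ (ι b') (fun i => ι (u' i)) = χ β' v' := by
    rw [hb', show (fun i => ι (u' i)) = v' from funext hu']
  have hG : Good (χK b u) s y := by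
    rw [hgoodK, hχb, hs, hy]
    exact (hχgood β v x hx).2 hg
  have hG' : Good (χK b' u') s y := by
    rw [hgoodK, hχb', hs, hy]
    exact (hχgood β' v' x hx').2 hg'
  have hcount : ∀ (T : Finset (k × k)) (b : GaloisField p (2 * m))
      (u : Fin 5 → GaloisField p (2 * m)) (_ : 2 * n + 1 ≤ T.card)
      (_ : ∀ t ∈ T, Good (χ (ι b) (fun i => ι (u i))) t.1 t.2)
      (_ : ∀ t ∈ T, (∃ a, ι a = t.1) ∧ ∃ a, ι a = t.2),
      2 * n + 1 ≤ Nat.card {x : GaloisField p (2 * m) × GaloisField p (2 * m) //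
        Good (χK b u) x.1 x.2} := by
    intro T b u hTc hT hTE
    have h1 : ∀ t : T, ∃ a : GaloisField p (2 * m) × GaloisField p (2 * m),
        ι a.1 = t.1.1 ∧ ι a.2 = t.1.2 := by
      intro t
      obtain ⟨⟨a, ha⟩, ⟨a', ha'⟩⟩ := hTE t.1 t.2
      exact ⟨(a, a'), ha, ha'⟩
    choose f hf1 hf2 using h1
    have h2 : ∀ t : T, Good (χK b u) (f t).1 (f t).2 := by
      intro t
      rw [hgoodK, hf1, hf2]
      exact hT t.1 t.2
    have h3 : Function.Injective (fun t : T => (⟨f t, h2 t⟩ :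
        {x : GaloisField p (2 * m) × GaloisField p (2 * m) // Good (χK b u) x.1 x.2})) := by
      intro t t' h
      have h4 : f t = f t' := congrArg Subtype.val h
      apply Subtype.ext
      apply Prod.ext
      · rw [← hf1, ← hf1, h4]
      · rw [← hf2, ← hf2, h4]
    have h5 := Nat.card_le_card_of_injective _ h3
    rw [Nat.card_eq_fintype_card (α := T), Fintype.card_coe] at h5
    omega
  have hlin : b * y + (poly5 u).eval s = b' * y + (poly5 u').eval s := by
    apply ι.injective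
    have e1 := hx
    have e2 := hx'
    rw [← hDb] at e1
    rw [← hDb'] at e2
    have e1' : x c + ι b * x Y + (poly5 (fun i => ι (u i))).eval (x S) = 0 := by
      rw [← Dfam_hom]
      exact e1
    have e2' : x c + ι b' * x Y + (poly5 (fun i => ι (u' i))).eval (x S) = 0 := by
      rw [← Dfam_hom]
      exact e2
    rw [map_add, map_add, map_mul, map_mul, ← eval_map_apply, ← eval_map_apply, poly5_map,
      poly5_map, hs, hy]
    linear_combination e1' - e2'
  have key := hM4 (GaloisField p (2 * m)) m hcard hQ χK hχK ψK hyp1 hyp2 b u b' u' s y hG hG'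
    hlin
    (hcount T b u hTc (fun t ht => by
      rw [hχb]
      exact hT t ht) (fun t ht => ⟨hEmem _ ((hmemE _).2 (by
        exact Or.inl (Or.inl (Or.inl (Or.inr ⟨t, ht, rfl⟩))))), hEmem _ ((hmemE _).2 (by
        exact Or.inl (Or.inl (Or.inr ⟨t, ht, rfl⟩))))⟩))
    (hcount T' b' u' hTc' (fun t ht => by
      rw [hχb']
      exact hT' t ht) (fun t ht => ⟨hEmem _ ((hmemE _).2 (by
        exact Or.inl (Or.inr ⟨t, ht, rfl⟩))), hEmem _ ((hmemE _).2 (by
        exact Or.inr ⟨t, ht, rfl⟩))⟩))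
  have k1 := hψK b u s y hG x (by rw [hDb]; exact hx) hs.symm hy.symm
  have k2 := hψK b' u' s y hG' x (by rw [hDb']; exact hx') hs.symm hy.symm
  rw [k1, k2, hDb, hDb'] at key
  exact key

end Pool.Agent.K1
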