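import Pool.Agent.K1.PsiA
import Pool.Agent.K1.Hub
import Pool.Agent.K1.Frob
import Pool.Agent.K1.M7d

/-!
K1-26: the hub argument. Two curves through a point which are transverse to `s` there have
the same local functional at that point.
-/

set_option autoImplicit false

open Polynomial

namespace Pool.Agent.K1

theorem poly5_zero' {K : Type*} [Field K] : poly5 (0 : Fin 5 → K) = 0 := by
  simp [poly5]

theorem poly5_const {K : Type*} [Field K] (c : K) :
    poly5 (fun i : Fin 5 => if i = 0 then c else 0) = C c := by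
  unfold poly5
  rw [Finset.sum_eq_single 0]
  · simp
  · intro i _ hi
    simp [hi]
  · intro h
    exact absurd (Finset.mem_univ _) h

theorem Dfam_zero {k A : Type} [Field k] [CommRing A] [Algebra k A] (S Y c : A) :
    Dfam S Y c (0 : k) 0 = c := by
  unfold Dfam
  rw [poly5_zero', map_zero, zero_smul, add_zero, add_zero]

theorem Dfam_one {k A : Type} [Field k] [CommRing A] [Algebra k A] (S Y c : A) (e : k) :
    Dfam S Y c (1 : k) (fun i : Fin 5 => if i = 0 then e else 0) = c + Y + algebraMap k A e := by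
  unfold Dfam
  rw [poly5_const, aeval_C, one_smul]

/-- the hub argument, one side -/
theorem hub_link_one (p : ℕ) [Fact p.Prime] {k A : Type} [Field k] [IsAlgClosed k]
    [CharP k p] [Algebra (ZMod p) k] [Algebra.IsAlgebraic (ZMod p) k] [CommRing A] [Algebra k A]
    [Algebra.FiniteType k A] (s : A) (n z : ℕ) (hn : 2 ≤ n) (hcop : n.Coprime z)
    (h8 : 8 * n ≤ z) (hM4 : M4Concl p n z) (V : Set A) (a₀ c : A)
    (hfam : ∀ (β : k) (v : Fin 5 → k),
      Dfam s (a₀ - c) c β v ∈ V ∧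
      IsDomain (A ⧸ Ideal.span {Dfam s (a₀ - c) c β v}) ∧
      ∃ o : OneLeaf k (A ⧸ Ideal.span {Dfam s (a₀ - c) c β v}),
        o.wt (Ideal.Quotient.mk _ s) = n ∧ o.wt (Ideal.Quotient.mk _ (a₀ - c)) = z)
    (φ : A → A → ℚ) (hφ : CurveFun V φ) (Ψ : A → (A →ₐ[k] k) → ℚ)
    (hΨ : ∀ d ∈ V, IsPsiA k d (φ d) (Ψ d))
    (x : A →ₐ[k] k) (ht : TransvAt s c x)
    (ht0 : TransvAt s (a₀ - algebraMap k A (x a₀)) x)
    (hZ : ∀ x' : A →ₐ[k] k, x' ≠ x → x' s = x s → x' c = 0 → x' a₀ ≠ x a₀) :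
    Ψ c x = Ψ (a₀ - algebraMap k A (x a₀)) x := by
  classical
  have e0 : Dfam s (a₀ - c) c (0 : k) 0 = c := Dfam_zero _ _ _
  have e1 : Dfam s (a₀ - c) c (1 : k) (fun i : Fin 5 => if i = 0 then -(x a₀) else 0) =
      a₀ - algebraMap k A (x a₀) := by
    rw [Dfam_one, map_neg]
    ring
  obtain ⟨m₀, hm₀, hfr⟩ := exists_frobSemi p (k := k) (A := A) ({s, a₀ - c, c} : Finset A)
  have hcore := M7_core p (k := k) s (a₀ - c) c n z hn hcop h8 hM4
    (fun β v => (hfam β v).2)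
    ⟨m₀, hm₀, fun m hm hm' => by
      obtain ⟨σ, h1, h2⟩ := hfr m hm hm'
      exact ⟨σ, h1, h2 _ (by simp), h2 _ (by simp), h2 _ (by simp)⟩⟩
    φ (hφ.mono (by rintro _ ⟨b, rfl⟩; exact (hfam b.1 b.2).1)) Ψ
    (fun β v => hΨ _ (hfam β v).1) 0 0 1 (fun i : Fin 5 => if i = 0 then -(x a₀) else 0) x
  rw [e0, e1] at hcore
  have hH : x (a₀ - algebraMap k A (x a₀)) = 0 := ht0.1
  have hsq : ∀ (x' : A →ₐ[k] k) (y : A) (e : k), x' ((y - algebraMap k A e) ^ 2) = 0 →
      x' y = e := by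
    intro x' y e h
    rw [map_pow, map_sub, AlgHom.commutes] at h
    have h1 : x' y - e = 0 := pow_eq_zero_iff (two_ne_zero) |>.1 h
    exact sub_eq_zero.1 h1
  have hlin : ∀ (x' : A →ₐ[k] k) (y : A) (e : k), x' (y - algebraMap k A e) = 0 → x' y = e := by
    intro x' y e h
    rw [map_sub, AlgHom.commutes] at h
    exact sub_eq_zero.1 h
  -- the two ideals
  have hgood : ∀ d : A, TransvAt s d x →
      (∀ x' : A →ₐ[k] k, x' d = 0 → x' s = x s → x' (a₀ - c) = x (a₀ - c) → x' = x) →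
      GoodPtA d s (a₀ - c) x := by
    intro d hd hun
    unfold GoodPtA
    apply ideal_eq_ker
    · rw [Ideal.span_le]
      intro y hy
      simp only [Set.mem_insert_iff, Set.mem_singleton_iff] at hy
      rcases hy with rfl | rfl | rfl
      · exact hd.1
      · change x (s - algebraMap k A (x s)) = 0
        rw [map_sub, AlgHom.commutes]
        exact sub_self _
      · change x ((a₀ - c - algebraMap k A (x (a₀ - c))) ^ 2) = 0
        rw [map_pow, map_sub, AlgHom.commutes]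
        have : x (a₀ - c) - x (a₀ - c) = 0 := sub_self _
        change (x (a₀ - c) - x (a₀ - c)) ^ 2 = 0
        rw [this, zero_pow two_ne_zero]
    · intro x' hx'
      apply hun x'
      · exact hx' (Ideal.subset_span (by simp))
      · exact hlin x' s (x s) (hx' (Ideal.subset_span (by simp)))
      · exact hsq x' (a₀ - c) _ (hx' (Ideal.subset_span (by simp)))
    · refine hd.2.trans (sup_le_sup_right (Ideal.span_mono ?_) _)
      intro y hy
      simp only [Set.mem_insert_iff, Set.mem_singleton_iff] at hy ⊢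
      rcases hy with rfl | rfl
      · exact Or.inl rfl
      · exact Or.inr (Or.inl rfl)
  refine hcore ht.1 hH (hgood c ht ?_) (hgood _ ht0 ?_)
  · intro x' h1 h2 h3
    by_contra hne
    apply hZ x' hne h2 h1
    rw [map_sub, map_sub, h1, ht.1, sub_zero, sub_zero] at h3
    exact h3
  · intro x' h1 h2 h3
    by_contra hne
    have h4 : x' a₀ = x a₀ := hlin x' a₀ (x a₀) h1
    have h5 : x' c = 0 := by
      rw [map_sub, map_sub, h4, ht.1, sub_zero] at h3
      exact sub_eq_self.1 h3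
    exact hZ x' hne h2 h5 h4

/-- The hub argument for an abstract class `V₀ ⊆ V` of curves. -/
theorem hub_link (p : ℕ) [Fact p.Prime] {k A : Type} [Field k] [IsAlgClosed k]
    [CharP k p] [Algebra (ZMod p) k] [Algebra.IsAlgebraic (ZMod p) k] [CommRing A] [Algebra k A]
    [Algebra.FiniteType k A] (s : A) (n z : ℕ) (hn : 2 ≤ n) (hcop : n.Coprime z)
    (h8 : 8 * n ≤ z) (hM4 : M4Concl p n z)
    (G : Finset A) (hG : Algebra.adjoin k (G : Set A) = ⊤) (V V₀ : Set A) (a : A)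
    (hfam : ∀ c ∈ V₀, ∀ g ∈ Submodule.span k (G : Set A), ∀ (β : k) (v : Fin 5 → k),
      Dfam s (a + g - c) c β v ∈ V ∧
      IsDomain (A ⧸ Ideal.span {Dfam s (a + g - c) c β v}) ∧
      ∃ o : OneLeaf k (A ⧸ Ideal.span {Dfam s (a + g - c) c β v}),
        o.wt (Ideal.Quotient.mk _ s) = n ∧ o.wt (Ideal.Quotient.mk _ (a + g - c)) = z)
    (φ : A → A → ℚ) (hφ : CurveFun V φ) (Ψ : A → (A →ₐ[k] k) → ℚ)
    (hΨ : ∀ d ∈ V, IsPsiA k d (φ d) (Ψ d)) (c : A) (hc : c ∈ V₀) (c' : A) (hc' : c' ∈ V₀)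
    (x : A →ₐ[k] k) (ht : TransvAt s c x) (ht' : TransvAt s c' x) :
    Ψ c x = Ψ c' x := by
  classical
  have hfin : ∀ c ∈ V₀, {x' : A →ₐ[k] k | x' c = 0 ∧ x' s = x s}.Finite := by
    intro c hc
    have h := hfam c hc 0 (Submodule.zero_mem _) (0 : k) 0
    rw [Dfam_zero] at h
    obtain ⟨-, hdom, o, h1, h2⟩ := h
    exact finite_points c s (a + 0 - c) n z hn (by omega) hcop hdom o h1 h2 (x s)
  let Z : Finset (A →ₐ[k] k) := ((hfin c hc).toFinset ∪ (hfin c' hc').toFinset).erase x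
  obtain ⟨g, hg, hg1, hg2⟩ := exists_hub G hG a s x c ht Z (by simp [Z])
  have hZ : ∀ x' : A →ₐ[k] k, x' ≠ x → x' s = x s → (x' c = 0 ∨ x' c' = 0) →
      x' (a + g) ≠ x (a + g) := by
    intro x' h1 h2 h3
    apply hg1
    simp only [Z, Finset.mem_erase, Finset.mem_union, Set.Finite.mem_toFinset, Set.mem_ofPred_eq]
    refine ⟨h1, ?_⟩
    rcases h3 with h3 | h3
    · exact Or.inl ⟨h3, h2⟩
    · exact Or.inr ⟨h3, h2⟩
  rw [hub_link_one p s n z hn hcop h8 hM4 V (a + g) c (fun β v => hfam c hc g hg β v) φ hφ Ψ hΨ x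
      ht hg2 (fun x' h1 h2 h3 => hZ x' h1 h2 (Or.inl h3)),
    hub_link_one p s n z hn hcop h8 hM4 V (a + g) c' (fun β v => hfam c' hc' g hg β v) φ hφ Ψ hΨ x
      ht' hg2 (fun x' h1 h2 h3 => hZ x' h1 h2 (Or.inr h3))]

end Pool.Agent.K1
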