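import Pool.Agent.K1.Defs
import Pool.Agent.K1.OneLeafDef

/-!
One leaf rings: overrings and units (K1-11, first part).
-/

set_option autoImplicit false

open Polynomial

namespace Pool.Agent.K1

/-! ### M5b : overrings -/

theorem M5b_overring {K B R : Type*} [Field K] [CommRing B] [CommRing R] [IsDomain R]
    [Algebra K B] [Algebra K R] (o : OneLeaf K B) (ι : B →ₐ[K] R)
    (hι : Function.Injective ι) (f : B) (hf : f ≠ 0) (h : ∀ r : R, ∃ b : B, ι f * r = ι b) :
    ∃ o' : OneLeaf K R, ∀ b, o'.wt (ι b) = o.wt b := by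
  classical
  haveI : IsDomain B := hι.isDomain ι.toRingHom
  choose b hb using h
  have hιf : ι f ≠ 0 := by
    intro h0
    exact hf (hι (by rw [h0, map_zero]))
  have hb0 : b 0 = 0 := by
    apply hι
    rw [← hb, mul_zero, map_zero]
  have hbne : ∀ r, r ≠ 0 → b r ≠ 0 := by
    intro r hr h0
    have := hb r
    rw [h0, map_zero] at this
    exact (mul_ne_zero hιf hr) this
  have hbadd : ∀ r r', b (r + r') = b r + b r' := by
    intro r r'
    apply hι
    rw [← hb, map_add, ← hb, ← hb, mul_add]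
  have hbsub : ∀ r r' (c : K), b (r - c • r') = b r - c • b r' := by
    intro r r' c
    apply hι
    rw [← hb, map_sub, map_smul, ← hb, ← hb, mul_sub, mul_smul_comm]
  have hbmul : ∀ r r', f * b (r * r') = b r * b r' := by
    intro r r'
    apply hι
    rw [map_mul, map_mul, ← hb, ← hb, ← hb]
    ring
  have hbι : ∀ x, b (ι x) = f * x := by
    intro x
    apply hι
    rw [← hb, map_mul]
  have wt_pow : ∀ (g : B), g ≠ 0 → ∀ k, o.wt (g ^ (k + 1)) = (k + 1) * o.wt g := by
    intro g hg k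
    induction k with
    | zero => simp
    | succ k ih =>
      rw [pow_succ, o.wt_mul _ _ (pow_ne_zero _ hg) hg, ih]
      ring
  have hbpow : ∀ r k, f ^ k * b (r ^ (k + 1)) = b r ^ (k + 1) := by
    intro r k
    induction k with
    | zero => simp
    | succ k ih =>
      have h1 := hbmul (r ^ (k + 1)) r
      rw [← pow_succ] at h1
      rw [pow_succ f, mul_assoc, h1, ← mul_assoc, ih, ← pow_succ]
  have hge : ∀ r, r ≠ 0 → o.wt f ≤ o.wt (b r) := by
    intro r hr
    by_contra hlt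
    push Not at hlt
    have hw : o.wt f ≠ 0 := by omega
    obtain ⟨w, hw'⟩ : ∃ w, o.wt f = w + 1 := ⟨o.wt f - 1, by omega⟩
    have h1 := hbpow r (w + 1)
    have h2 := congrArg o.wt h1
    rw [o.wt_mul _ _ (pow_ne_zero _ hf) (hbne _ (pow_ne_zero _ hr)), wt_pow f hf w,
      wt_pow (b r) (hbne r hr) (w + 1)] at h2
    have h3 : o.wt (b r) ≤ w := by omega
    have h4 : (w + 1 + 1) * o.wt (b r) ≤ (w + 1 + 1) * w := Nat.mul_le_mul_left _ h3
    have h5 : (w + 1) * o.wt f ≤ (w + 1 + 1) * w := by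
      calc (w + 1) * o.wt f ≤ (w + 1) * o.wt f + o.wt (b (r ^ (w + 1 + 1))) := Nat.le_add_right _ _
        _ = (w + 1 + 1) * o.wt (b r) := h2
        _ ≤ _ := h4
    rw [hw'] at h5
    nlinarith
  refine ⟨⟨fun r => o.wt (b r) - o.wt f, ?_, ?_, ?_, ?_⟩, ?_⟩
  · change o.wt (b 0) - o.wt f = 0
    rw [hb0, o.wt_zero]
    exact Nat.zero_sub _
  · intro r r' hr hr'
    change o.wt (b (r * r')) - o.wt f = (o.wt (b r) - o.wt f) + (o.wt (b r') - o.wt f)
    have h1 := congrArg o.wt (hbmul r r')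
    rw [o.wt_mul _ _ hf (hbne _ (mul_ne_zero hr hr')), o.wt_mul _ _ (hbne _ hr) (hbne _ hr')] at h1
    have h2 := hge r hr
    have h3 := hge r' hr'
    omega
  · intro r r'
    change o.wt (b (r + r')) - o.wt f ≤ max (o.wt (b r) - o.wt f) (o.wt (b r') - o.wt f)
    have h1 := o.wt_add (b r) (b r')
    rw [← hbadd] at h1
    omega
  · intro r r' hr hr' hw
    change o.wt (b r) - o.wt f = o.wt (b r') - o.wt f at hw
    have h2 := hge r hr
    have h3 := hge r' hr'
    obtain ⟨c, hc, h4⟩ := o.leaf (b r) (b r') (hbne r hr) (hbne r' hr') (by omega)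
    refine ⟨c, hc, ?_⟩
    by_cases h5 : r - c • r' = 0
    · exact Or.inl (sub_eq_zero.1 h5)
    · right
      change o.wt (b (r - c • r')) - o.wt f < o.wt (b r) - o.wt f
      have h6 := hge _ h5
      rcases h4 with h4 | h4
      · exfalso
        apply hbne _ h5
        rw [hbsub, h4, sub_self]
      · rw [← hbsub] at h4
        omega
  · intro x
    change o.wt (b (ι x)) - o.wt f = o.wt x
    rw [hbι]
    by_cases hx : x = 0
    · rw [hx, mul_zero, o.wt_zero]
      exact Nat.zero_sub _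
    · rw [o.wt_mul _ _ hf hx]
      omega

/-! ### M5c : units -/

theorem OneLeaf.wt_one {K R : Type*} [Field K] [CommRing R] [IsDomain R] [Algebra K R]
    (o : OneLeaf K R) : o.wt 1 = 0 := by
  have := o.wt_mul 1 1 one_ne_zero one_ne_zero
  rw [mul_one] at this
  omega

theorem M5c_unit {K R : Type*} [Field K] [CommRing R] [IsDomain R] [Algebra K R]
    (o : OneLeaf K R) (f : R) (hf : f ≠ 0) (h0 : o.wt f = 0) : ∃ c : K, f = algebraMap K R c := by
  obtain ⟨c, -, h⟩ := o.leaf f 1 hf one_ne_zero (by rw [h0, o.wt_one])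
  refine ⟨c, ?_⟩
  rcases h with h | h
  · rw [h, Algebra.algebraMap_eq_smul_one]
  · omega

theorem M5c_isUnit {K R : Type*} [Field K] [CommRing R] [IsDomain R] [Algebra K R]
    (o : OneLeaf K R) (f : R) (hf : IsUnit f) : ∃ c : K, c ≠ 0 ∧ f = algebraMap K R c := by
  obtain ⟨g, hg⟩ := hf.exists_right_inv
  have hf0 : f ≠ 0 := hf.ne_zero
  have hg0 : g ≠ 0 := by
    intro h0
    rw [h0, mul_zero] at hg
    exact zero_ne_one hg
  have h1 := o.wt_mul f g hf0 hg0
  rw [hg, o.wt_one] at h1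
  obtain ⟨c, hc⟩ := M5c_unit o f hf0 (by omega)
  refine ⟨c, ?_, hc⟩
  intro h0
  rw [h0, map_zero] at hc
  exact hf0 hc

end Pool.Agent.K1
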