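import Pool.Agent.K1.M6a
import Pool.Agent.K1.M6b
import Pool.Agent.K1.M5a
import Pool.Agent.K1.M5bc
import Pool.Agent.K1.CurveDef

/-!
K1, second half, module M6: the curves of the class `V(n, M)` have one place at infinity
(helper78).
-/

open Polynomial

namespace Pool.Agent.K1.SectionExp

variable {k A : Type*} [Field k] [CommRing A] [Algebra k A] {E : SectionExp k A}

theorem Top.add_wlt {n M i a : ℕ} (hn : 1 ≤ n) {f g : A} (hf : E.Top n M i a f)
    (hg : E.WLt n M (n * i + M * a) g) : E.Top n M i a (f + g) := by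
  rw [wlt_iff] at hg
  obtain ⟨h1, h2⟩ := (top_iff hn).1 hf
  have h0 : E.c g (-(a : ℤ)) i = 0 := by
    by_contra hne
    have := hg _ _ hne
    linarith
  refine (top_iff hn).2 ⟨by rw [c_add, h1, h0, add_zero], ?_, h2.2.1, ?_⟩
  · rw [c_add, h1, h0, add_zero]
    exact one_ne_zero
  · intro l m hc hne
    by_cases h3 : E.c f l m = 0
    · apply hg
      rw [c_add, h3, zero_add] at hc
      exact hc
    · exact h2.2.2 l m h3 hne

theorem InV.add_wlt {n M : ℕ} (hn : 1 ≤ n) {q f : A} (hq : E.InV n M q)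
    (hf : E.WLt n M (n * M) f) : E.InV n M (q + f) := by
  obtain ⟨c, hc, hcM, hT⟩ := hq
  refine ⟨c, hc, hcM, ?_⟩
  have : q + f - aeval E.s c = (q - aeval E.s c) + f := by ring
  rw [this]
  apply hT.add_wlt hn
  intro l hl
  have := hf l hl
  push_cast
  linarith

theorem c_smul (b : k) (f : A) (l : ℤ) (m : ℕ) : E.c (b • f) l m = b * E.c f l m := by
  unfold c
  rw [Algebra.smul_def, co_algebraMap_mul, coeff_C_mul]

theorem WLt.add {n M : ℕ} {w : ℤ} {f g : A} (hf : E.WLt n M w f) (hg : E.WLt n M w g) :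
    E.WLt n M w (f + g) := by
  rw [wlt_iff] at hf hg ⊢
  intro l m hc
  by_cases h : E.c f l m = 0
  · apply hg
    rw [c_add, h, zero_add] at hc
    exact hc
  · exact hf l m h

theorem WLt.smul {n M : ℕ} {w : ℤ} {f : A} (hf : E.WLt n M w f) (b : k) :
    E.WLt n M w (b • f) := by
  rw [wlt_iff] at hf ⊢
  intro l m hc
  rw [c_smul] at hc
  exact hf l m (right_ne_zero_of_mul hc)

theorem WLt.mono {n M : ℕ} {w w' : ℤ} {f : A} (hf : E.WLt n M w f) (h : w ≤ w') :
    E.WLt n M w' f := by
  intro l hl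
  have := hf l hl
  linarith

theorem Top.wlt {n M i a : ℕ} (hn : 1 ≤ n) {f : A} (hf : E.Top n M i a f) {w : ℤ}
    (hw : (n * i + M * a : ℤ) < w) : E.WLt n M w f := by
  rw [wlt_iff]
  intro l m hc
  have := (((top_iff hn).1 hf).2.at 1).2.2.1 l m hc
  linarith

theorem wlt_aeval {n M : ℕ} {w : ℤ} (P : k[X]) (h : (n : ℤ) * P.natDegree < w) :
    E.WLt n M w (aeval E.s P) := by
  intro l hl
  rw [co_aeval] at hl ⊢
  by_cases h0 : l = 0
  · rw [if_pos h0, h0]
    linarith
  · rw [if_neg h0] at hl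
    exact absurd rfl hl

/-- members of the pencil families stay in the class. -/
theorem InV.fam {n M i a : ℕ} (hn : 1 ≤ n) (h4 : 4 < M) {q Y : A} (hq : E.InV n M q)
    (hY : E.Top n M i a Y) (hz : n * i + M * a < n * M) (b : k) (v : k[X])
    (hv : v.natDegree ≤ 4) : E.InV n M (q + b • Y + aeval E.s v) := by
  rw [add_assoc]
  apply hq.add_wlt hn
  apply WLt.add
  · apply WLt.smul
    apply hY.wlt hn
    exact_mod_cast hz
  · apply wlt_aeval
    have h1 : (v.natDegree : ℤ) < M := by
      have : v.natDegree < M := by omega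
      exact_mod_cast this
    have : (0 : ℤ) < n := by positivity
    nlinarith

theorem coprime_z {n M i a : ℕ} (ha : n.Coprime a) (hcM : n.Coprime M) :
    n.Coprime (n * i + M * a) := by
  rw [Nat.coprime_mul_left_add_right]
  exact Nat.Coprime.mul_right hcM ha

theorem isCnz_of_mem {κ n M i a : ℕ} (hG : Grows E κ) (hM : n * κ < M) (hn : 1 ≤ n)
    (ha1 : 1 ≤ a) (ha : n.Coprime a) (hcM : n.Coprime M) {q Y : A} (hq : E.InV n M q)
    (hY : E.Top n M i a Y) (χ : k[X][X]) (hχ : χ.Monic) (hχn : χ.natDegree = n) (g : A)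
    (h : χ.eval₂ ((aeval E.s : k[X] →ₐ[k] A) : k[X] →+* A) Y = q * g) :
    IsCnz χ n (n * i + M * a) := by
  classical
  have hUY := ((top_iff hn).1 hY).2
  have hM0 : 0 < M := by omega
  have hz0 : 0 < n * i + M * a := by positivity
  have hU : ∀ j, χ.coeff j ≠ 0 → E.UA n M (n * (χ.coeff j).natDegree + j * (n * i + M * a))
      (0 + j * (-(a : ℤ))) ((χ.coeff j).natDegree + j * i)
      (aeval E.s (χ.coeff j) * Y ^ j) := by
    intro j hj
    exact (ua_aeval hn M _ hj).mul hn (hUY.pow hn j)
  have hz : IsCoprime (n : ℤ) (n * i + M * a) := by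
    have := Nat.isCoprime_iff_coprime.2 (coprime_z (i := i) ha hcM)
    exact_mod_cast this
  have hr : ∀ j, aeval E.s (χ.coeff j) * Y ^ j ≠ 0 → χ.coeff j ≠ 0 := by
    intro j hne h0
    rw [h0] at hne
    simp at hne
  have hsum : ∑ j ∈ Finset.range (n + 1), aeval E.s (χ.coeff j) * Y ^ j = q * g := by
    rw [← h, eval₂_eq_sum_range, hχn]
    rfl
  -- equal weights
  have heq : ∀ j j' : ℕ, j ≤ n → j' ≤ n → j ≠ j' →
      ((n : ℤ) * (χ.coeff j).natDegree + j * (n * i + M * a)
        = n * (χ.coeff j').natDegree + j' * (n * i + M * a)) →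
      (j = 0 ∧ j' = n) ∨ (j = n ∧ j' = 0) := by
    intro j j' hj hj' hne hw
    have h1 : (n : ℤ) ∣ ((j : ℤ) - j') * (n * i + M * a) := by
      refine ⟨(χ.coeff j').natDegree - (χ.coeff j).natDegree, ?_⟩
      linarith
    obtain ⟨t, ht⟩ := hz.dvd_of_dvd_mul_right h1
    have hn' : (0 : ℤ) < n := by positivity
    have ht1 : t ≤ 1 := by
      by_contra hlt
      push Not at hlt
      nlinarith
    have ht2 : -1 ≤ t := by
      by_contra hlt
      push Not at hlt
      nlinarith
    have ht0 : t ≠ 0 := by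
      rintro rfl
      rw [mul_zero] at ht
      omega
    rcases (by omega : t = 1 ∨ t = -1) with rfl | rfl
    · right
      omega
    · left
      omega
  have hcn : χ.coeff n = 1 := by
    have := hχ.coeff_natDegree
    rwa [hχn] at this
  -- the maximal weight
  obtain ⟨σ, hσ, hmax⟩ := Finset.exists_max_image
    ((Finset.range (n + 1)).filter fun j => χ.coeff j ≠ 0)
    (fun j => (n : ℤ) * (χ.coeff j).natDegree + j * (n * i + M * a))
    ⟨n, Finset.mem_filter.2 ⟨Finset.mem_range.2 (by omega), by rw [hcn]; exact one_ne_zero⟩⟩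
  rw [Finset.mem_filter, Finset.mem_range] at hσ
  -- a second index with the same weight
  have hex : ∃ τ, τ ≤ n ∧ χ.coeff τ ≠ 0 ∧ τ ≠ σ ∧
      (n : ℤ) * (χ.coeff τ).natDegree + τ * (n * i + M * a)
        = n * (χ.coeff σ).natDegree + σ * (n * i + M * a) := by
    by_contra hno
    push Not at hno
    have hlt : ∀ τ ≤ n, χ.coeff τ ≠ 0 → τ ≠ σ →
        (n : ℤ) * (χ.coeff τ).natDegree + τ * (n * i + M * a)
          < n * (χ.coeff σ).natDegree + σ * (n * i + M * a) := by
      intro τ hτ h1 h2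
      exact lt_of_le_of_ne (hmax τ (Finset.mem_filter.2 ⟨Finset.mem_range.2 (by omega), h1⟩))
        (hno τ hτ h1 h2)
    have hS : E.UA n M (n * (χ.coeff σ).natDegree + σ * (n * i + M * a))
        (0 + σ * (-(a : ℤ))) ((χ.coeff σ).natDegree + σ * i) (q * g) := by
      rw [← hsum]
      refine ⟨?_, (hU σ hσ.2).2.1, ?_⟩
      · rw [c_sum_eq (Finset.range (n + 1)) (fun j => aeval E.s (χ.coeff j) * Y ^ j)
          (fun j => n * (χ.coeff j).natDegree + j * (n * i + M * a))
          (fun j => 0 + j * (-(a : ℤ))) (fun j => (χ.coeff j).natDegree + j * i)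
          (fun j _ hne => hU j (hr j hne)) (Finset.mem_range.2 hσ.1) (hU σ hσ.2).ne_zero]
        · exact (hU σ hσ.2).1
        · intro τ hτ hf
          exact hmax τ (Finset.mem_filter.2 ⟨hτ, hr τ hf⟩)
        · intro τ hτ hf hne hw
          exact absurd hw (hlt τ (by rw [Finset.mem_range] at hτ; omega) (hr τ hf) hne).ne
      · intro l' m' hc hne'
        rw [c_sum] at hc
        obtain ⟨τ, hτ, hne''⟩ := Finset.exists_ne_zero_of_sum_ne_zero hc
        have hf : aeval E.s (χ.coeff τ) * Y ^ τ ≠ 0 := by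
          intro h0
          rw [h0] at hne''
          exact hne'' (E.c_zero _ _)
        by_cases hτσ : τ = σ
        · subst hτσ
          exact (hU τ (hr τ hf)).2.2 l' m' hne'' hne'
        · have h1 := ((hU τ (hr τ hf)).at 1).2.2.1 l' m' hne''
          have h2 := hlt τ (by rw [Finset.mem_range] at hτ; omega) (hr τ hf) hτσ
          linarith
    have hg : g ≠ 0 := by
      rintro rfl
      rw [mul_zero] at hS
      exact hS.ne_zero rfl
    obtain ⟨w, l₀, l₁, m₀, m₁, hl, hg0, hg1⟩ := exists_at_pair hG hM hg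
    obtain ⟨hq0, hq1⟩ := hq.at hn
    have e0 := (hS.at 1).unique hn (Or.inl rfl) (hq0.mul hn (Or.inl rfl) hg0)
    have e1 := (hS.at (-1)).unique hn (Or.inr rfl) (hq1.mul hn (Or.inr rfl) hg1)
    have h5 := e0.2.1
    have h6 := e1.2.1
    have : (0 : ℤ) < n := by positivity
    linarith
  obtain ⟨τ, hτn, hτ0, hτσ, hw⟩ := hex
  have hcase := heq τ σ hτn (by omega) hτσ hw
  have hw0 : (n : ℤ) * (χ.coeff 0).natDegree = n * (n * i + M * a) ∧
      (n : ℤ) * (χ.coeff σ).natDegree + σ * (n * i + M * a) = n * (n * i + M * a) := by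
    rcases hcase with ⟨h1, h2⟩ | ⟨h1, h2⟩
    · subst h1 h2
      rw [hcn, natDegree_one] at hw ⊢
      push_cast at hw ⊢
      constructor <;> linarith
    · subst h1 h2
      rw [hcn, natDegree_one] at hw
      push_cast at hw ⊢
      constructor <;> linarith
  have hn' : (n : ℤ) ≠ 0 := by positivity
  refine ⟨hχ, hχn, ?_, ?_⟩
  · have := mul_left_cancel₀ hn' hw0.1
    exact_mod_cast this
  · intro j hj0 hjn
    by_cases hj : χ.coeff j = 0
    · rw [hj, natDegree_zero, mul_zero, zero_add, mul_comm]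
      exact Nat.mul_lt_mul_of_pos_right hjn hz0
    · have h1 := hmax j (Finset.mem_filter.2 ⟨Finset.mem_range.2 (by omega), hj⟩)
      rw [hw0.2] at h1
      have h2 : (n : ℤ) * (χ.coeff j).natDegree + j * (n * i + M * a)
          ≠ n * (n * i + M * a) := by
        intro h3
        have h4 := heq j n hjn.le le_rfl hjn.ne (by
          rw [hcn, natDegree_one, h3]
          push_cast
          ring)
        omega
      have h3 := lt_of_le_of_ne h1 h2
      have h4 : ((n * (χ.coeff j).natDegree + (n * i + M * a) * j : ℕ) : ℤ)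
          < ((n * (n * i + M * a) : ℕ) : ℤ) := by
        push_cast
        linarith
      exact_mod_cast h4

/-- `1, Y, ..., Y^(n-1)` are independent mod `q`, in terms of polynomials of degree `< n`. -/
theorem indep_poly {κ n M i a : ℕ} (hG : Grows E κ) (hM : n * κ < M) (hn : 1 ≤ n)
    (ha : n.Coprime a) (hcM : n.Coprime M) {q Y : A} (hq : E.InV n M q) (hY : E.Top n M i a Y)
    (p : k[X][X]) (hp : p.natDegree < n) (g : A)
    (h : p.eval₂ ((aeval E.s : k[X] →ₐ[k] A) : k[X] →+* A) Y = q * g) : p = 0 := by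
  have h1 := indep_mod hG hM hn ha hcM hq hY (fun j => p.coeff j) g (by
    rw [← h, eval₂_eq_sum_range' _ hp]
    rfl)
  ext j : 1
  rw [coeff_zero]
  by_cases hj : j < n
  · exact h1 j hj
  · exact coeff_eq_zero_of_natDegree_lt (by omega)

section leaf

variable [IsDomain A] [IsAlgClosed k]

/-- The map `k[s] → A/(q)`. -/
noncomputable def toQ (E : SectionExp k A) (q : A) : k[X] →+* (A ⧸ Ideal.span {q}) :=
  (Ideal.Quotient.mk (Ideal.span {q})).comp ((aeval E.s : k[X] →ₐ[k] A) : k[X] →+* A)

theorem toQ_apply (q : A) (r : k[X]) :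
    toQ E q r = Ideal.Quotient.mk (Ideal.span {q}) (aeval E.s r) := rfl

theorem mk_eq_zero {q f : A} : Ideal.Quotient.mk (Ideal.span {q}) f = 0 ↔ ∃ g, f = q * g := by
  rw [Ideal.Quotient.eq_zero_iff_mem, Ideal.mem_span_singleton]
  rfl

theorem leaf_of_inV {κ n M i a : ℕ} (hG : Grows E κ) (hM : n * κ < M) (hn : 1 ≤ n)
    (ha1 : 1 ≤ a) (ha : n.Coprime a) (hcM : n.Coprime M) {q Y : A} (hq : E.InV n M q)
    (hY : E.Top n M i a Y) :
    IsDomain (A ⧸ Ideal.span {q}) ∧ ∃ o : OneLeaf k (A ⧸ Ideal.span {q}),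
      o.wt (Ideal.Quotient.mk _ E.s) = n ∧ o.wt (Ideal.Quotient.mk _ Y) = n * i + M * a := by
  classical
  have hqm : E.MonicAt n q := hq.monicAt hn
  set R := A ⧸ Ideal.span {q} with hR
  letI : Algebra k[X] R := (toQ E q).toAlgebra
  have hsmul : ∀ (r : k[X]) (x : R), r • x = toQ E q r * x := fun r x => rfl
  -- finiteness
  haveI hfin : Module.Finite k[X] R := by
    obtain ⟨G, hGG⟩ := E.M6b_finite n hn q hqm
    refine ⟨⟨G.image (Ideal.Quotient.mk (Ideal.span {q})), ?_⟩⟩
    rw [eq_top_iff]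
    rintro x -
    obtain ⟨f, rfl⟩ := Ideal.Quotient.mk_surjective x
    obtain ⟨P, hP⟩ := hGG f
    rw [hP, map_sum]
    apply Submodule.sum_mem
    intro g hg
    obtain ⟨w, hw⟩ := M6b.evT_mod E q (P g)
    rw [hw, map_mul, map_add, map_mul, (Ideal.Quotient.eq_zero_iff_mem.2
      (Ideal.mem_span_singleton_self q) : Ideal.Quotient.mk (Ideal.span {q}) q = 0), zero_mul,
      add_zero]
    exact Submodule.smul_mem _ ((P g).coeff 0) (Submodule.subset_span (by
      rw [Finset.coe_image]
      exact ⟨g, hg, rfl⟩))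
  -- no torsion
  have htor : ∀ (r : k[X]) (x : R), r ≠ 0 → r • x = 0 → x = 0 := by
    intro r x hr hx
    obtain ⟨f, rfl⟩ := Ideal.Quotient.mk_surjective x
    rw [hsmul, toQ_apply, ← map_mul, mk_eq_zero] at hx
    obtain ⟨g, hg⟩ := hx
    exact mk_eq_zero.2 (E.M6b_torsion n q hqm r hr f g hg)
  haveI : Module.IsTorsionFree k[X] R := by
    constructor
    intro r hr
    intro x y hxy
    have h1 : r • (x - y) = 0 := by
      rw [smul_sub, sub_eq_zero]
      exact hxy
    exact sub_eq_zero.1 (htor r _ hr.ne_zero h1)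
  haveI : Module.Free k[X] R := Module.free_of_finite_type_torsion_free'
  -- evaluation
  have heval : ∀ p : k[X][X], Ideal.Quotient.mk (Ideal.span {q})
      (p.eval₂ ((aeval E.s : k[X] →ₐ[k] A) : k[X] →+* A) Y)
      = p.eval₂ (toQ E q) (Ideal.Quotient.mk (Ideal.span {q}) Y) := by
    intro p
    rw [Polynomial.hom_eval₂]
    rfl
  have haeval : ∀ p : k[X][X], aeval (Ideal.Quotient.mk (Ideal.span {q}) Y : R) p
      = p.eval₂ (toQ E q) (Ideal.Quotient.mk (Ideal.span {q}) Y) := by
    intro p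
    rw [aeval_def]
    rfl
  have hindep : ∀ p : k[X][X], p.natDegree < n →
      aeval (Ideal.Quotient.mk (Ideal.span {q}) Y : R) p = 0 → p = 0 := by
    intro p hp h0
    rw [haeval, ← heval, mk_eq_zero] at h0
    obtain ⟨g, hg⟩ := h0
    exact indep_poly hG hM hn ha hcM hq hY p hp g hg
  -- the rank
  have hrank : Module.finrank k[X] R = n := by
    apply le_antisymm
    · by_contra hlt
      push Not at hlt
      let b := Module.finBasis k[X] R
      choose v hv using fun j : Fin (n + 1) =>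
        Ideal.Quotient.mk_surjective (I := Ideal.span {q}) (b (Fin.castLE hlt j))
      obtain ⟨r, hr, g, hg⟩ := E.M6b_dep_quot n hn q hqm v
      apply hr
      have h1 : ∑ j, r j • b (Fin.castLE hlt j) = 0 := by
        have h2 : Ideal.Quotient.mk (Ideal.span {q}) (∑ j, aeval E.s (r j) * v j) = 0 :=
          mk_eq_zero.2 ⟨g, hg⟩
        rw [map_sum] at h2
        rw [← h2]
        apply Finset.sum_congr rfl
        intro j _
        rw [map_mul, hv, hsmul]
        rfl
      have hli : LinearIndependent k[X] (fun j : Fin (n + 1) => b (Fin.castLE hlt j)) :=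
        b.linearIndependent.comp _ (Fin.castLE_injective hlt)
      funext j
      exact (Fintype.linearIndependent_iff.1 hli) r h1 j
    · have hli : LinearIndependent k[X]
          (fun j : Fin n => (Ideal.Quotient.mk (Ideal.span {q}) Y : R) ^ (j : ℕ)) := by
        rw [Fintype.linearIndependent_iff]
        intro r hr j
        have h1 := hindep (∑ j : Fin n, C (r j) * X ^ (j : ℕ)) (by
          apply lt_of_le_of_lt (natDegree_sum_le_of_forall_le (n := n - 1) _ _ ?_) (by omega)
          intro j _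
          apply (natDegree_C_mul_X_pow_le _ _).trans
          omega) (by
          rw [map_sum, ← hr]
          apply Finset.sum_congr rfl
          intro j _
          rw [map_mul, aeval_C, map_pow, aeval_X, Algebra.smul_def])
        have h2 := congrArg (fun p => p.coeff (j : ℕ)) h1
        simp only [finsetSum_coeff, coeff_C_mul, coeff_X_pow, coeff_zero] at h2
        rw [Finset.sum_eq_single j] at h2
        · simpa using h2
        · intro b _ hb
          rw [if_neg, mul_zero]
          intro h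
          exact hb (Fin.ext h.symm)
        · intro h
          exact absurd (Finset.mem_univ j) h
      have := hli.fintype_card_le_finrank
      rwa [Fintype.card_fin] at this
  -- the characteristic polynomial
  set χ : k[X][X] := (Algebra.lmul k[X] R (Ideal.Quotient.mk (Ideal.span {q}) Y)).charpoly
    with hχdef
  have hχm : χ.Monic := LinearMap.charpoly_monic _
  have hχn : χ.natDegree = n := by
    rw [hχdef, LinearMap.charpoly_natDegree, hrank]
  have hχ0 : aeval (Ideal.Quotient.mk (Ideal.span {q}) Y : R) χ = 0 := by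
    have h1 := LinearMap.aeval_self_charpoly
      (Algebra.lmul k[X] R (Ideal.Quotient.mk (Ideal.span {q}) Y))
    rw [← hχdef] at h1
    have h2 : aeval (Algebra.lmul k[X] R (Ideal.Quotient.mk (Ideal.span {q}) Y)) χ
        = Algebra.lmul k[X] R (aeval (Ideal.Quotient.mk (Ideal.span {q}) Y : R) χ) := by
      rw [Polynomial.aeval_algHom_apply]
    rw [h2] at h1
    have h3 := congrArg (fun F : Module.End k[X] R => F 1) h1
    simpa using h3
  obtain ⟨g₀, hg₀⟩ : ∃ g, χ.eval₂ ((aeval E.s : k[X] →ₐ[k] A) : k[X] →+* A) Y = q * g := by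
    rw [← mk_eq_zero, heval, ← haeval]
    exact hχ0
  have hC := isCnz_of_mem hG hM hn ha1 ha hcM hq hY χ hχm hχn g₀ hg₀
  obtain ⟨hdomB, oB, hoX, hoY⟩ := M5a_plane χ n (n * i + M * a) hn hC (coprime_z ha hcM)
  -- the embedding
  have hlift : χ.eval₂ (toQ E q) (Ideal.Quotient.mk (Ideal.span {q}) Y) = 0 := by
    rw [← haeval]
    exact hχ0
  let ιB : AdjoinRoot χ →ₐ[k] R :=
    { AdjoinRoot.lift (toQ E q) (Ideal.Quotient.mk (Ideal.span {q}) Y) hlift with
      commutes' := by
        intro c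
        have h1 : algebraMap k (AdjoinRoot χ) c = AdjoinRoot.of χ (C c) := rfl
        rw [h1]
        simp only [RingHom.toMonoidHom_eq_coe, OneHom.toFun_eq_coe, MonoidHom.toOneHom_coe,
          MonoidHom.coe_coe, AdjoinRoot.lift_of, toQ_apply, aeval_C]
        rfl }
  have hιB : ∀ p : k[X][X], ιB (AdjoinRoot.mk χ p)
      = p.eval₂ (toQ E q) (Ideal.Quotient.mk (Ideal.span {q}) Y) := by
    intro p
    exact AdjoinRoot.lift_mk hlift p
  have hinj : Function.Injective ιB := by
    rw [injective_iff_map_eq_zero]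
    intro x hx
    obtain ⟨p, rfl⟩ := AdjoinRoot.mk_surjective x
    have h1 : AdjoinRoot.mk χ p = AdjoinRoot.mk χ (p %ₘ χ) := by
      rw [AdjoinRoot.mk_eq_mk]
      exact ⟨p /ₘ χ, by
        rw [sub_eq_iff_eq_add']
        exact (modByMonic_add_div p χ).symm⟩
    rw [h1, hιB, ← haeval] at hx
    rw [h1, hindep _ _ hx, map_zero]
    rw [← hχn]
    apply natDegree_modByMonic_lt _ hχm
    intro h
    rw [h, natDegree_one] at hχn
    omega
  -- every element is, up to a denominator, in the plane ring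
  have hden : ∀ f : A, ∃ r : k[X], r ≠ 0 ∧
      aeval E.s r * f ∈ {x : A | ∃ b, ιB b = Ideal.Quotient.mk (Ideal.span {q}) x} := by
    intro f
    obtain ⟨r, hr, g, hg⟩ := E.M6b_dep_quot n hn q hqm
      (fun j => if h : (j : ℕ) < n then Y ^ (j : ℕ) else f)
    rw [Fin.sum_univ_castSucc] at hg
    simp only [Fin.val_castSucc, Fin.is_lt, dite_true, Fin.val_last, lt_self_iff_false,
      dite_false] at hg
    set P : k[X][X] := ∑ j : Fin n, C (r j.castSucc) * X ^ (j : ℕ) with hP
    have hPd : P.natDegree < n := by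
      apply lt_of_le_of_lt (natDegree_sum_le_of_forall_le (n := n - 1) _ _ ?_) (by omega)
      intro j _
      apply (natDegree_C_mul_X_pow_le _ _).trans
      omega
    have hPe : P.eval₂ ((aeval E.s : k[X] →ₐ[k] A) : k[X] →+* A) Y
        = ∑ j : Fin n, aeval E.s (r j.castSucc) * Y ^ (j : ℕ) := by
      rw [hP, eval₂_finsetSum]
      apply Finset.sum_congr rfl
      intro j _
      simp
    rw [← hPe] at hg
    refine ⟨r (Fin.last n), ?_, ?_⟩
    · intro h0
      rw [h0, map_zero, zero_mul, add_zero] at hg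
      have h1 := indep_poly hG hM hn ha hcM hq hY P hPd g hg
      apply hr
      funext j
      refine Fin.lastCases ?_ ?_ j
      · exact h0
      · intro j
        have h2 := congrArg (fun p => p.coeff (j : ℕ)) h1
        simp only [hP, finsetSum_coeff, coeff_C_mul, coeff_X_pow, coeff_zero] at h2
        rw [Finset.sum_eq_single j] at h2
        · simpa using h2
        · intro b _ hb
          rw [if_neg, mul_zero]
          intro h
          exact hb (Fin.ext h.symm)
        · intro h
          exact absurd (Finset.mem_univ j) h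
    · refine ⟨- AdjoinRoot.mk χ P, ?_⟩
      rw [map_neg, hιB, ← heval, ← map_neg]
      have h3 : Ideal.Quotient.mk (Ideal.span {q})
          (P.eval₂ ((aeval E.s : k[X] →ₐ[k] A) : k[X] →+* A) Y + aeval E.s (r (Fin.last n)) * f)
          = 0 := mk_eq_zero.2 ⟨g, hg⟩
      rw [map_add] at h3
      rw [map_neg]
      exact neg_eq_of_add_eq_zero_right h3
  obtain ⟨r, hr, hcond⟩ := E.M6b_conductor n hn q hqm
    {x : A | ∃ b, ιB b = Ideal.Quotient.mk (Ideal.span {q}) x}
    ⟨0, by rw [map_zero, map_zero]⟩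
    (by
      rintro x ⟨b, hb⟩ y ⟨b', hb'⟩
      exact ⟨b + b', by rw [map_add, map_add, hb, hb']⟩)
    (by
      rintro r x ⟨b, hb⟩
      refine ⟨AdjoinRoot.mk χ (C r) * b, ?_⟩
      rw [map_mul, hb, hιB, eval₂_C, map_mul]
      rfl)
    (by
      intro g
      exact ⟨0, by rw [map_zero]; exact (mk_eq_zero.2 ⟨g, rfl⟩).symm⟩)
    hden
  have hcond' : ∀ x : R, ∃ b, ιB (AdjoinRoot.mk χ (C r)) * x = ιB b := by
    intro x
    obtain ⟨f, rfl⟩ := Ideal.Quotient.mk_surjective x
    obtain ⟨b, hb⟩ := hcond f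
    refine ⟨b, ?_⟩
    rw [hb, hιB, eval₂_C, map_mul]
    rfl
  haveI := hdomB
  haveI : Nontrivial R := hinj.nontrivial
  have hιr : ιB (AdjoinRoot.mk χ (C r)) ≠ 0 := by
    intro h0
    rw [hιB, eval₂_C] at h0
    have h1 : r • (1 : R) = 0 := by
      rw [hsmul, h0, zero_mul]
    exact one_ne_zero (htor r 1 hr h1)
  have hdomR : IsDomain R := by
    haveI : NoZeroDivisors R := by
      constructor
      intro x y hxy
      obtain ⟨b, hb⟩ := hcond' x
      obtain ⟨b', hb'⟩ := hcond' y
      have h1 : b * b' = 0 := by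
        apply hinj
        rw [map_mul, ← hb, ← hb', map_zero]
        have : ιB (AdjoinRoot.mk χ (C r)) * x * (ιB (AdjoinRoot.mk χ (C r)) * y)
            = ιB (AdjoinRoot.mk χ (C r)) * ιB (AdjoinRoot.mk χ (C r)) * (x * y) := by ring
        rw [this, hxy, mul_zero]
      have hcan : ∀ z : R, ιB (AdjoinRoot.mk χ (C r)) * z = 0 → z = 0 := by
        intro z hz
        apply htor r z hr
        rw [hsmul]
        rw [hιB, eval₂_C] at hz
        exact hz
      rcases mul_eq_zero.1 h1 with h | h
      · left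
        apply hcan
        rw [hb, h, map_zero]
      · right
        apply hcan
        rw [hb', h, map_zero]
    exact NoZeroDivisors.to_isDomain R
  refine ⟨hdomR, ?_⟩
  obtain ⟨o, ho⟩ := M5b_overring oB ιB hinj (AdjoinRoot.mk χ (C r))
    (by
      intro h0
      apply hιr
      rw [h0, map_zero]) hcond'
  refine ⟨o, ?_, ?_⟩
  · have h1 := ho (AdjoinRoot.of χ X)
    have h2 : ιB (AdjoinRoot.of χ X) = Ideal.Quotient.mk (Ideal.span {q}) E.s := by
      have := hιB (C X)
      rw [eval₂_C, toQ_apply, aeval_X] at this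
      exact this
    rw [h2] at h1
    rw [h1, hoX]
  · have h1 := ho (AdjoinRoot.root χ)
    have h2 : ιB (AdjoinRoot.root χ) = Ideal.Quotient.mk (Ideal.span {q}) Y := by
      have := hιB X
      rw [eval₂_X] at this
      exact this
    rw [h2] at h1
    rw [h1, hoY]

end leaf

/-- elements near a member of the class are in the class. -/
theorem InV.near {n M : ℕ} (hn : 1 ≤ n) {z : ℤ} (hz : z ≤ n * M) {q₀ q : A}
    (hq₀ : E.InV n M q₀) (h : E.WLt n M z (q - q₀)) : E.InV n M q := by
  have h1 := hq₀.add_wlt hn (h.mono hz)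
  rwa [add_sub_cancel] at h1

/-- M6: the curves of the class are one leaf domains. -/
theorem M6_leaf [IsDomain A] [IsAlgClosed k] (E : SectionExp k A) : ∃ μ : ℕ,
    ∀ n M i a : ℕ, 2 ≤ n → n.Coprime M → μ * n ≤ M → 1 ≤ a → a < n →
      n.Coprime (n * i + M * a) → n * i + M * a < n * M → ∀ q Y : A, E.InV n M q →
      E.Top n M i a Y → IsDomain (A ⧸ Ideal.span {q}) ∧
        ∃ o : OneLeaf k (A ⧸ Ideal.span {q}), o.wt (Ideal.Quotient.mk _ E.s) = n ∧
          o.wt (Ideal.Quotient.mk _ Y) = n * i + M * a := by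
  obtain ⟨κ, hG⟩ := exists_grows E
  refine ⟨κ + 1, ?_⟩
  intro n M i a hn hcM hμ ha1 _ hcz _ q Y hq hY
  have ha : n.Coprime a := by
    rw [Nat.coprime_mul_left_add_right] at hcz
    exact hcz.coprime_mul_left_right
  refine leaf_of_inV hG ?_ (by omega) ha1 ha hcM hq hY
  have : (κ + 1) * n = n * κ + n := by ring
  omega

/-- M6 for the members of the pencil families. -/
theorem M6_leaf_fam {k A : Type} [Field k] [CommRing A] [Algebra k A] [IsDomain A] [IsAlgClosed k]
    {E : SectionExp k A} {κ n M i a : ℕ} (hG : Grows E κ) (hM : n * κ < M) (hn : 1 ≤ n)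
    (ha1 : 1 ≤ a) (ha : n.Coprime a) (hcM : n.Coprime M) (h4 : 4 < M)
    (hz : n * i + M * a < n * M) {q Y : A} (hq : E.InV n M q) (hY : E.Top n M i a Y) (β : k)
    (v : Fin 5 → k) :
    IsDomain (A ⧸ Ideal.span {Dfam E.s Y q β v}) ∧
      ∃ o : OneLeaf k (A ⧸ Ideal.span {Dfam E.s Y q β v}),
        o.wt (Ideal.Quotient.mk _ E.s) = n ∧ o.wt (Ideal.Quotient.mk _ Y) = n * i + M * a := by
  apply leaf_of_inV hG hM hn ha1 ha hcM _ hY
  apply hq.fam hn h4 hY hz
  unfold poly5
  apply natDegree_sum_le_of_forall_le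
  intro j _
  apply (natDegree_C_mul_X_pow_le _ _).trans
  omega

end Pool.Agent.K1.SectionExp
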