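import Pool.Agent.K1.M6top
import Pool.Agent.K1.M6
import Pool.Agent.K1.Arith2
import Pool.Agent.K1.DefsB
import Pool.Agent.K1.CurveDef
import Pool.Agent.K1.M7d
import Pool.Agent.K1.HubLink
import Pool.Agent.K1.DefsMov

/-!
K1, second half: the core of part A for the class of surfaces `SectionExp` (K1-29).
-/

set_option autoImplicit false

open Polynomial

namespace Pool.Agent.K1

section span

variable {k A : Type*} [Field k] [CommRing A] [Algebra k A] {E : SectionExp k A}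

/-- One element has bounded weight, uniformly in `n`, `M`. -/
theorem core_wlt_one {κ : ℕ} (hG : SectionExp.Grows E κ) (f : A) :
    ∃ e₀ P : ℕ, ∀ n M : ℕ, 1 ≤ n → κ * n ≤ M →
      E.WLt n M ((n * e₀ + M * P : ℕ) : ℤ) f := by
  obtain ⟨e, he⟩ := hG f
  obtain ⟨d, hd⟩ := SectionExp.exists_pole_bound E f
  refine ⟨e + 1, d, ?_⟩
  intro n M hn hM l hl
  have hl1 : -(d : ℤ) ≤ l := by
    by_contra h
    exact hl (hd l (by omega))
  have h1 := he l
  have h2 : (n : ℤ) * ((E.co f l).natDegree : ℤ) ≤ n * (e + κ * l.toNat) := by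
    have h3 : ((E.co f l).natDegree : ℤ) ≤ e + κ * l.toNat := by exact_mod_cast h1
    exact mul_le_mul_of_nonneg_left h3 (by positivity)
  have h4 : (n : ℤ) * (e + κ * l.toNat) ≤ n * e + M * l.toNat := by
    have h5 : (κ : ℤ) * n ≤ M := by exact_mod_cast hM
    have h6 : (0 : ℤ) ≤ (l.toNat : ℤ) := by positivity
    nlinarith
  have h7 : (l.toNat : ℤ) ≤ l + d := by omega
  have h8 : (M : ℤ) * l.toNat ≤ M * (l + d) := mul_le_mul_of_nonneg_left h7 (by positivity)
  have hn' : (1 : ℤ) ≤ n := by exact_mod_cast hn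
  push_cast
  nlinarith

/-- A fixed finite set has bounded weight, uniformly in `n`, `M`. -/
theorem core_wlt_span (E : SectionExp k A) (G : Finset A) :
    ∃ e₀ P μ : ℕ, ∀ n M : ℕ, 1 ≤ n → μ * n ≤ M →
      ∀ g ∈ Submodule.span k (G : Set A), E.WLt n M ((n * e₀ + M * P : ℕ) : ℤ) g := by
  obtain ⟨κ, hG⟩ := SectionExp.exists_grows E
  choose e P heP using fun f => core_wlt_one hG f
  refine ⟨∑ f ∈ G, e f, ∑ f ∈ G, P f, κ, ?_⟩
  intro n M hn hM g hg
  induction hg using Submodule.span_induction with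
  | mem g hg =>
    refine (heP g n M hn hM).mono ?_
    have h1 : e g ≤ ∑ f ∈ G, e f := Finset.single_le_sum (f := e) (fun _ _ => Nat.zero_le _) hg
    have h2 : P g ≤ ∑ f ∈ G, P f := Finset.single_le_sum (f := P) (fun _ _ => Nat.zero_le _) hg
    exact_mod_cast Nat.add_le_add (Nat.mul_le_mul_left n h1) (Nat.mul_le_mul_left M h2)
  | zero =>
    intro l hl
    exact absurd (SectionExp.co_zero E l) hl
  | add g g' _ _ h h' => exact h.add h'
  | smul b g _ h => exact h.smul b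

end span

/-- The core of part A, from the combinatorial core `M4Concl`: transversal values of `Ψ` on a
small class do not depend on the curve. -/
theorem K1_core_of (p : ℕ) [Fact p.Prime] (hp2 : p ≠ 2)
    (hM4C : ∀ n z : ℕ, 2 ≤ n → n.Coprime z → 16 * n ^ 2 ≤ z →
      (z - 4 * n).Coprime (4 * n - 2) → ¬ p ∣ z - 4 * n → ¬ p ∣ z - 4 → M4Concl p n z)
    {k A : Type} [Field k] [IsAlgClosed k]
    [CharP k p] [Algebra (ZMod p) k] [Algebra.IsAlgebraic (ZMod p) k] [CommRing A] [IsDomain A]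
    [Algebra k A] [Algebra.FiniteType k A] (E : SectionExp k A) :
    ∃ c₀ μ₀ n₀ : ℕ, K1CoreConcl E c₀ μ₀ n₀ := by
  classical
  obtain ⟨μ, j₁, htop⟩ := SectionExp.exists_top E
  obtain ⟨c, n₁, hc17, harith⟩ := arith_weight p (j₁ + 1) hp2 (by omega)
  obtain ⟨G, hG⟩ : (⊤ : Subalgebra k A).FG := Algebra.FiniteType.out
  obtain ⟨e₀, P, μ', hGw⟩ := core_wlt_span E G
  obtain ⟨μ₆, hleaf⟩ := SectionExp.M6_leaf E
  refine ⟨c, c + e₀ + μ + μ' + μ₆ + 5, n₁ + P + 2, ?_⟩
  intro e n M hne hn hM hμ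
  have hn1 : 1 ≤ n := by omega
  have hn2 : 2 ≤ n := by omega
  have hle : ∀ b : ℕ, b ≤ c + e₀ + μ + μ' + μ₆ + 5 → b * n ≤ M := fun b hb =>
    (Nat.mul_le_mul_right n hb).trans hμ
  have hnM : n.Coprime M := by
    rw [hne]
    exact Nat.Coprime.pow_left e (Nat.coprime_two_left.2 hM)
  obtain ⟨z, a, j, hz, hja, han, hzn, hzc, hcop, h16, hco, hpl, hpz⟩ :=
    harith e (by rw [← hne]; omega) M hM (by rw [← hne]; exact hle c (by omega))
  rw [← hne] at hz han hzn hzc hcop h16 hco hpl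
  have hz' : z = n * j + M * a := by rw [hz, Nat.mul_comm a M]
  have hzZ : (z : ℤ) = n * j + M * a := by exact_mod_cast hz'
  have hznZ : (z : ℤ) < n * M := by exact_mod_cast hzn
  obtain ⟨Y₀, hY₀⟩ := htop n M hn1 (hle μ (by omega)) j a (by omega)
  have h8 : 8 * n ≤ z := by nlinarith
  have hM4 : M4Concl p n z := hM4C n z hn2 hcop h16 hco hpl hpz
  have hleaf' : ∀ q Y : A, E.InV n M q → E.Top n M j a Y →
      IsDomain (A ⧸ Ideal.span {q}) ∧ ∃ o : OneLeaf k (A ⧸ Ideal.span {q}),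
        o.wt (Ideal.Quotient.mk _ E.s) = n ∧ o.wt (Ideal.Quotient.mk _ Y) = z := by
    intro q Y hq hY
    rw [hz']
    exact hleaf n M j a hn2 hnM (hle μ₆ (by omega)) (by omega) han
      (by rw [← hz']; exact hcop) (by rw [← hz']; exact hzn) q Y hq hY
  refine ⟨?_, z, hzn, hzc, ?_⟩
  · intro d hd
    obtain ⟨h1, o, h2, -⟩ := hleaf' d Y₀ hd hY₀
    exact ⟨h1, o, h2⟩
  intro q₀ hq₀ φ hφ Ψ hΨ
  have hGz : n * e₀ + M * P ≤ z := by
    have h1 : (c + e₀) * n ≤ M := hle _ (by omega)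
    have h2 : P + 2 ≤ n := by omega
    have h3 : M * (P + 2) ≤ M * n := Nat.mul_le_mul_left M h2
    have h4 : n * M = M * n := Nat.mul_comm _ _
    nlinarith
  have hfam : ∀ d ∈ E.Near n M z q₀, ∀ g ∈ Submodule.span k (G : Set A), ∀ (β : k)
      (v : Fin 5 → k), Dfam E.s (q₀ + Y₀ + g - d) d β v ∈ {d | E.InV n M d} ∧
      IsDomain (A ⧸ Ideal.span {Dfam E.s (q₀ + Y₀ + g - d) d β v}) ∧
      ∃ o : OneLeaf k (A ⧸ Ideal.span {Dfam E.s (q₀ + Y₀ + g - d) d β v}),
        o.wt (Ideal.Quotient.mk _ E.s) = n ∧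
        o.wt (Ideal.Quotient.mk _ (q₀ + Y₀ + g - d)) = z := by
    intro d hd g hg β v
    have hd' : E.WLt n M (z : ℤ) (d - q₀) := hd
    have hg' : E.WLt n M (z : ℤ) g :=
      (hGw n M hn1 (hle μ' (by omega)) g hg).mono (by exact_mod_cast hGz)
    have hdn : E.WLt n M (z : ℤ) (-(d - q₀)) := by
      have h1 := hd'.smul (-1 : k)
      rwa [neg_one_smul] at h1
    have hY : E.Top n M j a (q₀ + Y₀ + g - d) := by
      have h1 : q₀ + Y₀ + g - d = Y₀ + (g + -(d - q₀)) := by ring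
      rw [h1]
      refine hY₀.add_wlt hn1 ?_
      rw [← hzZ]
      exact hg'.add hdn
    have hV : E.InV n M (Dfam E.s (q₀ + Y₀ + g - d) d β v) := by
      have h1 : Dfam E.s (q₀ + Y₀ + g - d) d β v
          = q₀ + ((d - q₀) + (β • (q₀ + Y₀ + g - d) + aeval E.s (poly5 v))) := by
        unfold Dfam
        ring
      rw [h1]
      refine hq₀.add_wlt hn1 (SectionExp.WLt.add ?_ (SectionExp.WLt.add ?_ ?_))
      · exact hd'.mono hznZ.le
      · refine (hY.wlt hn1 ?_).smul β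
        rw [← hzZ]
        exact hznZ
      · refine SectionExp.wlt_aeval _ ?_
        have h2 : 5 * n ≤ M := hle 5 (by omega)
        have h3 : (poly5 v).natDegree ≤ 4 := by
          unfold poly5
          apply natDegree_sum_le_of_forall_le
          intro i _
          exact (natDegree_C_mul_X_pow_le _ _).trans (by omega)
        have h4 : n * (poly5 v).natDegree < n * M := by nlinarith
        exact_mod_cast h4
    obtain ⟨h1, o, h2, h3⟩ := hleaf' _ _ hV hY
    exact ⟨hV, h1, o, h2, h3⟩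
  refine ⟨fun x => if h : ∃ c, c ∈ E.Near n M z q₀ ∧ TransvAt E.s c x then Ψ h.choose x else 0,
    ?_⟩
  intro d hd x hx
  have h : ∃ c, c ∈ E.Near n M z q₀ ∧ TransvAt E.s c x := ⟨d, hd, hx⟩
  change Ψ d x = if h : ∃ c, c ∈ E.Near n M z q₀ ∧ TransvAt E.s c x then Ψ h.choose x else 0
  rw [dif_pos h]
  exact hub_link p E.s n z hn2 hcop h8 hM4 G hG {d | E.InV n M d} (E.Near n M z q₀) (q₀ + Y₀)
    hfam φ hφ Ψ hΨ d hd h.choose h.choose_spec.1 x hx h.choose_spec.2

end Pool.Agent.K1
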