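import Pool.Agent.K1.DefsMov

/-!
The statement of `K1_core` with a general prime `r` (different from the characteristic) in the
place of `2`: `n = r ^ e`, `M` prime to `r`.
-/

set_option autoImplicit false

open Polynomial

namespace Pool.Agent.K1

/-- the statement of the core, for a prime `r` and given constants -/
def K1CoreConclR (r : ℕ) {k A : Type} [Field k] [CommRing A] [Algebra k A] (E : SectionExp k A)
    (c₀ μ₀ n₀ : ℕ) : Prop :=
  ∀ e n M : ℕ, n = r ^ e → n₀ ≤ n → r.Coprime M → μ₀ * n ≤ M →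
      (∀ d : A, E.InV n M d → IsDomain (A ⧸ Ideal.span {d}) ∧
        ∃ o : OneLeaf k (A ⧸ Ideal.span {d}), o.wt (Ideal.Quotient.mk _ E.s) = n) ∧
      ∃ z : ℕ, z < n * M ∧ n * M < z + c₀ * n ∧
        ∀ q₀ : A, E.InV n M q₀ → ∀ φ : A → A → ℚ, CurveFun {d | E.InV n M d} φ →
          ∀ Ψ : A → (A →ₐ[k] k) → ℚ, (∀ d, E.InV n M d → IsPsiA k d (φ d) (Ψ d)) →
            ∃ u : (A →ₐ[k] k) → ℚ, ∀ c ∈ E.Near n M z q₀, ∀ x : A →ₐ[k] k,
              TransvAt E.s c x → Ψ c x = u x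

theorem K1CoreConcl.toR {k A : Type} [Field k] [CommRing A] [Algebra k A] {E : SectionExp k A}
    {c₀ μ₀ n₀ : ℕ} (h : K1CoreConcl E c₀ μ₀ n₀) : K1CoreConclR 2 E c₀ μ₀ n₀ :=
  fun e n M hn hn₀ hM hμ => h e n M hn hn₀ (Nat.coprime_two_left.1 hM) hμ

end Pool.Agent.K1
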