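import Pool.Agent.K1.M6top
import Pool.Agent.K1.M6
import Pool.Agent.K1.DefsB
import Pool.Agent.K1.CurveDef
import Pool.Agent.K1.M7d
import Pool.Agent.K1.HubLink
import Pool.Agent.K1.DefsMov
import Pool.Agent.K1.DefsR
import Pool.Agent.K1.CoreOf
import Pool.Agent.K1.Arith2

/-!
K1, second half: the core of part A for the class of surfaces `SectionExp`, with a general prime
`r` different from the characteristic in the place of `2`.
-/

set_option autoImplicit false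

open Polynomial

namespace Pool.Agent.K1



/-- The choice of the second weight for the prime `r`, with the combinatorial core for it. -/
def ArithCore (p r : ℕ) : Prop :=
  ∀ j₀ : ℕ, 1 ≤ j₀ → ∃ c n₁ : ℕ, ∀ e : ℕ, n₁ ≤ r ^ e → ∀ M : ℕ, r.Coprime M → c * r ^ e ≤ M →
    ∃ z a j : ℕ, z = r ^ e * j + a * M ∧ j₀ ≤ a ∧ a < r ^ e ∧ z < r ^ e * M ∧
      r ^ e * M < z + c * r ^ e ∧ (r ^ e).Coprime z ∧ 8 * r ^ e ≤ z ∧ M4Concl p (r ^ e) z

/-- The core of part A, from the combinatorial core `M4Concl`, for a prime `r`. -/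
theorem K1_core_of_R (p r : ℕ) [Fact p.Prime] (hA : ArithCore p r)
    {k A : Type} [Field k] [IsAlgClosed k]
    [CharP k p] [Algebra (ZMod p) k] [Algebra.IsAlgebraic (ZMod p) k] [CommRing A] [IsDomain A]
    [Algebra k A] [Algebra.FiniteType k A] (E : SectionExp k A) :
    ∃ c₀ μ₀ n₀ : ℕ, K1CoreConclR r E c₀ μ₀ n₀ := by
  classical
  obtain ⟨μ, j₁, htop⟩ := SectionExp.exists_top E
  obtain ⟨c, n₁, harith⟩ := hA (j₁ + 1) (by omega)
  obtain ⟨G, hG⟩ : (⊤ : Subalgebra k A).FG := Algebra.FiniteType.out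
  obtain ⟨e₀, P, μ', hGw⟩ := core_wlt_span E G
  obtain ⟨μ₆, hleaf⟩ := SectionExp.M6_leaf E
  refine ⟨c, c + e₀ + μ + μ' + μ₆ + 5, n₁ + P + 2, ?_⟩
  intro e n M hne hn hM hμ
  have hn1 : 1 ≤ n := by omega
  have hn2 : 2 ≤ n := by omega
  have hle : ∀ b : ℕ, b ≤ c + e₀ + μ + μ' + μ₆ + 5 → b * n ≤ M := fun b hb =>
    (Nat.mul_le_mul_right n hb).trans hμ
  have hnM : n.Coprime M := by
    rw [hne]
    exact Nat.Coprime.pow_left e hM
  obtain ⟨z, a, j, hz, hja, han, hzn, hzc, hcop, h8, hM4⟩ :=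
    harith e (by rw [← hne]; omega) M hM (by rw [← hne]; exact hle c (by omega))
  rw [← hne] at hz han hzn hzc hcop h8 hM4
  have hz' : z = n * j + M * a := by rw [hz, Nat.mul_comm a M]
  have hzZ : (z : ℤ) = n * j + M * a := by exact_mod_cast hz'
  have hznZ : (z : ℤ) < n * M := by exact_mod_cast hzn
  obtain ⟨Y₀, hY₀⟩ := htop n M hn1 (hle μ (by omega)) j a (by omega)
  have hleaf' : ∀ q Y : A, E.InV n M q → E.Top n M j a Y →
      IsDomain (A ⧸ Ideal.span {q}) ∧ ∃ o : OneLeaf k (A ⧸ Ideal.span {q}),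
        o.wt (Ideal.Quotient.mk _ E.s) = n ∧ o.wt (Ideal.Quotient.mk _ Y) = z := by
    intro q Y hq hY
    rw [hz']
    exact hleaf n M j a hn2 hnM (hle μ₆ (by omega)) (by omega) han
      (by rw [← hz']; exact hcop) (by rw [← hz']; exact hzn) q Y hq hY
  refine ⟨?_, z, hzn, hzc, ?_⟩
  · intro d hd
    obtain ⟨h1, o, h2, -⟩ := hleaf' d Y₀ hd hY₀
    exact ⟨h1, o, h2⟩
  intro q₀ hq₀ φ hφ Ψ hΨ
  have hGz : n * e₀ + M * P ≤ z := by
    have h1 : (c + e₀) * n ≤ M := hle _ (by omega)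
    have h2 : P + 2 ≤ n := by omega
    have h3 : M * (P + 2) ≤ M * n := Nat.mul_le_mul_left M h2
    have h4 : n * M = M * n := Nat.mul_comm _ _
    nlinarith
  have hfam : ∀ d ∈ E.Near n M z q₀, ∀ g ∈ Submodule.span k (G : Set A), ∀ (β : k)
      (v : Fin 5 → k), Dfam E.s (q₀ + Y₀ + g - d) d β v ∈ {d | E.InV n M d} ∧
      IsDomain (A ⧸ Ideal.span {Dfam E.s (q₀ + Y₀ + g - d) d β v}) ∧
      ∃ o : OneLeaf k (A ⧸ Ideal.span {Dfam E.s (q₀ + Y₀ + g - d) d β v}),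
        o.wt (Ideal.Quotient.mk _ E.s) = n ∧
        o.wt (Ideal.Quotient.mk _ (q₀ + Y₀ + g - d)) = z := by
    intro d hd g hg β v
    have hd' : E.WLt n M (z : ℤ) (d - q₀) := hd
    have hg' : E.WLt n M (z : ℤ) g :=
      (hGw n M hn1 (hle μ' (by omega)) g hg).mono (by exact_mod_cast hGz)
    have hdn : E.WLt n M (z : ℤ) (-(d - q₀)) := by
      have h1 := hd'.smul (-1 : k)
      rwa [neg_one_smul] at h1
    have hY : E.Top n M j a (q₀ + Y₀ + g - d) := by
      have h1 : q₀ + Y₀ + g - d = Y₀ + (g + -(d - q₀)) := by ring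
      rw [h1]
      refine hY₀.add_wlt hn1 ?_
      rw [← hzZ]
      exact hg'.add hdn
    have hV : E.InV n M (Dfam E.s (q₀ + Y₀ + g - d) d β v) := by
      have h1 : Dfam E.s (q₀ + Y₀ + g - d) d β v
          = q₀ + ((d - q₀) + (β • (q₀ + Y₀ + g - d) + aeval E.s (poly5 v))) := by
        unfold Dfam
        ring
      rw [h1]
      refine hq₀.add_wlt hn1 (SectionExp.WLt.add ?_ (SectionExp.WLt.add ?_ ?_))
      · exact hd'.mono hznZ.le
      · refine (hY.wlt hn1 ?_).smul β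
        rw [← hzZ]
        exact hznZ
      · refine SectionExp.wlt_aeval _ ?_
        have h2 : 5 * n ≤ M := hle 5 (by omega)
        have h3 : (poly5 v).natDegree ≤ 4 := by
          unfold poly5
          apply natDegree_sum_le_of_forall_le
          intro i _
          exact (natDegree_C_mul_X_pow_le _ _).trans (by omega)
        have h4 : n * (poly5 v).natDegree < n * M := by nlinarith
        exact_mod_cast h4
    obtain ⟨h1, o, h2, h3⟩ := hleaf' _ _ hV hY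
    exact ⟨hV, h1, o, h2, h3⟩
  refine ⟨fun x => if h : ∃ c, c ∈ E.Near n M z q₀ ∧ TransvAt E.s c x then Ψ h.choose x else 0,
    ?_⟩
  intro d hd x hx
  have h : ∃ c, c ∈ E.Near n M z q₀ ∧ TransvAt E.s c x := ⟨d, hd, hx⟩
  change Ψ d x = if h : ∃ c, c ∈ E.Near n M z q₀ ∧ TransvAt E.s c x then Ψ h.choose x else 0
  rw [dif_pos h]
  exact hub_link p E.s n z hn2 hcop h8 hM4 G hG {d | E.InV n M d} (E.Near n M z q₀) (q₀ + Y₀)
    hfam φ hφ Ψ hΨ d hd h.choose h.choose_spec.1 x hx h.choose_spec.2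

/-- The choice of the second weight for `p` odd, `r = 2`. -/
theorem arithCore_two (p : ℕ) [Fact p.Prime] (hp2 : p ≠ 2)
    (hM4C : ∀ n z : ℕ, 2 ≤ n → n.Coprime z → 16 * n ^ 2 ≤ z →
      (z - 4 * n).Coprime (4 * n - 2) → ¬ p ∣ z - 4 * n → ¬ p ∣ z - 4 → M4Concl p n z) :
    ArithCore p 2 := by
  intro j₀ hj₀
  obtain ⟨c, n₁, hc, h⟩ := arith_weight p j₀ hp2 hj₀
  refine ⟨c, n₁ + 2, ?_⟩
  intro e he M hM hcM
  obtain ⟨z, a, j, hz, hja, han, hzn, hzc, hcop, h16, hco, hpl, hpz⟩ :=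
    h e (by omega) M (Nat.coprime_two_left.1 hM) hcM
  refine ⟨z, a, j, hz, hja, han, hzn, hzc, hcop, ?_, ?_⟩
  · have h1 : 2 ≤ 2 ^ e := by omega
    nlinarith
  · exact hM4C _ z (by omega) hcop h16 hco hpl hpz

end Pool.Agent.K1
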