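import Pool.Agent.K1.DDefs

/-!
The base change of a closed subscheme of projective space is a closed subscheme of projective
space.
-/

set_option autoImplicit false

open AlgebraicGeometry CategoryTheory CategoryTheory.Limits

attribute [local instance] MvPolynomial.gradedAlgebra

namespace Pool.Agent.K1

theorem closed_baseChange {F F' k : Type} [Field F] [Field F'] [Field k] [Algebra F F']
    [Algebra F' k] [Algebra F k] [IsScalarTower F F' k] (n : ℕ) {X : Scheme.{0}}
    (i : X ⟶ PN F n) [IsClosedImmersion i] (q : PN k n ⟶ PN F n)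
    (s : PN F n ⟶ Spec (CommRingCat.of F)) (s' : PN k n ⟶ Spec (CommRingCat.of k))
    (hq : IsPullback q s' s (Spec.map (CommRingCat.ofHom (algebraMap F k)))) [IsSeparated s]
    (f' : X ⟶ Spec (CommRingCat.of F'))
    (hf : f' ≫ Spec.map (CommRingCat.ofHom (algebraMap F F')) = i ≫ s) :
    ∃ i' : pullback f' (Spec.map (CommRingCat.ofHom (algebraMap F' k))) ⟶ PN k n,
      IsClosedImmersion i' := by
  have hg : Spec.map (CommRingCat.ofHom (algebraMap F' k)) ≫
      Spec.map (CommRingCat.ofHom (algebraMap F F')) =
        Spec.map (CommRingCat.ofHom (algebraMap F k)) := by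
    rw [← Spec.map_comp, ← CommRingCat.ofHom_comp, ← IsScalarTower.algebraMap_eq]
  have hq' : IsPullback q s' s (Spec.map (CommRingCat.ofHom (algebraMap F' k)) ≫
      Spec.map (CommRingCat.ofHom (algebraMap F F'))) := by
    rw [hg]; exact hq
  have hp : IsPullback
      (pullback.fst (f' ≫ Spec.map (CommRingCat.ofHom (algebraMap F F')))
        (Spec.map (CommRingCat.ofHom (algebraMap F' k)) ≫
          Spec.map (CommRingCat.ofHom (algebraMap F F'))))
      (pullback.snd (f' ≫ Spec.map (CommRingCat.ofHom (algebraMap F F')))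
        (Spec.map (CommRingCat.ofHom (algebraMap F' k)) ≫
          Spec.map (CommRingCat.ofHom (algebraMap F F'))))
      (i ≫ s)
      (Spec.map (CommRingCat.ofHom (algebraMap F' k)) ≫
          Spec.map (CommRingCat.ofHom (algebraMap F F'))) := by
    have := IsPullback.of_hasPullback (f' ≫ Spec.map (CommRingCat.ofHom (algebraMap F F')))
        (Spec.map (CommRingCat.ofHom (algebraMap F' k)) ≫
          Spec.map (CommRingCat.ofHom (algebraMap F F')))
    rw [← hf]
    exact this
  have hb := IsPullback.of_bot' hp hq'
  obtain ⟨m, hm⟩ : ∃ m : pullback (f' ≫ Spec.map (CommRingCat.ofHom (algebraMap F F')))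
      (Spec.map (CommRingCat.ofHom (algebraMap F' k)) ≫
        Spec.map (CommRingCat.ofHom (algebraMap F F'))) ⟶ PN k n, IsClosedImmersion m :=
    ⟨_, MorphismProperty.of_isPullback (P := @IsClosedImmersion) hb inferInstance⟩
  exact ⟨pullback.mapDesc f' (Spec.map (CommRingCat.ofHom (algebraMap F' k)))
    (Spec.map (CommRingCat.ofHom (algebraMap F F'))) ≫ m, inferInstance⟩

end Pool.Agent.K1
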