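import Pool.Agent.K1.DDefs
import Pool.Agent.K1.NormalEmbedGeo

/-!
The elements of the function field that are algebraic over the constants are global functions.
-/

set_option autoImplicit false

open AlgebraicGeometry CategoryTheory CategoryTheory.Limits

namespace Pool.Agent.K1

theorem dconst_mem {X : Scheme.{0}} [IsIntegral X]
    (hX : ∀ x : X, IsIntegrallyClosed (X.presheaf.stalk x)) {F : Type} [Field F]
    (str : F →+* Γ(X, ⊤)) (z : X.functionField)
    (hz : letI := ((X.presheaf.germ ⊤ (genericPoint X) trivial).hom.comp str).toAlgebra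
      IsAlgebraic F z) (x : X) : z ∈ NormEmb.O x := by
  letI := ((X.presheaf.germ ⊤ (genericPoint X) trivial).hom.comp str).toAlgebra
  have h1 : IsIntegral F z := isAlgebraic_iff_isIntegral.1 hz
  obtain ⟨p, hp, hp0⟩ := h1
  have h2 : IsIntegral (X.presheaf.stalk x) z := by
    refine ⟨p.map ((X.presheaf.germ ⊤ x trivial).hom.comp str), hp.map _, ?_⟩
    rw [Polynomial.eval₂_map]
    have h3 : (algebraMap (X.presheaf.stalk x) X.functionField).comp
        ((X.presheaf.germ ⊤ x trivial).hom.comp str) = algebraMap F X.functionField := by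
      ext a
      exact NormEmb.alg_germ (V := ⊤) trivial trivial (str a)
    rw [h3]
    exact hp0
  haveI := hX x
  obtain ⟨a, ha⟩ := IsIntegrallyClosed.isIntegral_iff.1 h2
  exact ⟨a, ha⟩

/-- The elements of the function field that are algebraic over the constants are regular. -/
theorem exists_constants {X : Scheme.{0}} [IsIntegral X]
    (hX : ∀ x : X, IsIntegrallyClosed (X.presheaf.stalk x)) {F : Type} [Field F]
    (str : F →+* Γ(X, ⊤)) :
    letI := ((X.presheaf.germ ⊤ (genericPoint X) trivial).hom.comp str).toAlgebra
    ∃ s : algebraicClosure F X.functionField →+* Γ(X, ⊤),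
      ∀ a, (X.presheaf.germ ⊤ (genericPoint X) trivial).hom (s a) = (a : X.functionField) := by
  letI := ((X.presheaf.germ ⊤ (genericPoint X) trivial).hom.comp str).toAlgebra
  have hinj : Function.Injective (X.presheaf.germ ⊤ (genericPoint X) trivial).hom :=
    germ_injective_of_isIntegral X (genericPoint X) (U := ⊤) trivial
  have hex : ∀ a : algebraicClosure F X.functionField, ∃ s : Γ(X, ⊤),
      (X.presheaf.germ ⊤ (genericPoint X) trivial).hom s = (a : X.functionField) := by
    intro a
    refine NormEmb.mem_range_germ ⊤ trivial (a : X.functionField) fun x _ => ?_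
    exact dconst_mem hX str _ (mem_algebraicClosure_iff.1 a.2) x
  choose s hs using hex
  refine ⟨{ toFun := s, map_one' := ?_, map_mul' := ?_, map_zero' := ?_, map_add' := ?_ }, hs⟩
  · apply hinj
    rw [hs, map_one, OneMemClass.coe_one]
  · intro a b
    apply hinj
    rw [map_mul, hs, hs, hs, MulMemClass.coe_mul]
  · apply hinj
    rw [hs, map_zero, ZeroMemClass.coe_zero]
  · intro a b
    apply hinj
    rw [map_add, hs, hs, hs, AddMemClass.coe_add]

end Pool.Agent.K1
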