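import Pool.Agent.K1.DDefs
import Mathlib.AlgebraicGeometry.Morphisms.SchemeTheoreticallyDominant

/-!
The base change of an integral scheme over a field is integral if the tensor product of its
function field with the new field is a domain.
-/

set_option autoImplicit false

open AlgebraicGeometry CategoryTheory CategoryTheory.Limits TensorProduct

namespace Pool.Agent.K1

/-- The structure morphism given by the scalars. -/
noncomputable abbrev strMor {X : Scheme.{0}} {F : Type} [Field F] (str : F →+* Γ(X, ⊤)) :
    X ⟶ Spec (CommRingCat.of F) :=
  X.toSpecΓ ≫ Spec.map (CommRingCat.ofHom str)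

theorem dint_fromStalk {X : Scheme.{0}} {F : Type} [Field F] (str : F →+* Γ(X, ⊤)) (x : X) :
    X.fromSpecStalk x ≫ strMor str =
      Spec.map (CommRingCat.ofHom ((X.presheaf.germ ⊤ x trivial).hom.comp str)) := by
  rw [strMor, Scheme.fromSpecStalk_toSpecΓ_assoc, ← Spec.map_comp]
  rfl

/-- The generic point of an integral scheme is scheme theoretically dense. -/
theorem dint_dominant (X : Scheme.{0}) [IsIntegral X] :
    QuasiCompact (X.fromSpecStalk (genericPoint X)) ∧
      IsSchemeTheoreticallyDominant (X.fromSpecStalk (genericPoint X)) := by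
  have : Finite (Spec (X.presheaf.stalk (genericPoint X))) :=
    inferInstanceAs (Finite (PrimeSpectrum X.functionField))
  refine ⟨⟨fun _ _ _ ↦ (Set.toFinite _).isCompact⟩, ?_⟩
  have : QuasiCompact (X.fromSpecStalk (genericPoint X)) :=
    ⟨fun _ _ _ ↦ (Set.toFinite _).isCompact⟩
  rw [isSchemeTheoreticallyDominant_iff_isDominant, isDominant_iff, denseRange_iff_closure_range,
    Set.eq_univ_iff_forall]
  intro y
  have hz : genericPoint X ⤳ y := genericPoint_specializes y
  refine hz.mem_closed isClosed_closure (subset_closure ⟨IsLocalRing.closedPoint _, ?_⟩)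
  exact Scheme.fromSpecStalk_closedPoint

/-- A scheme with a scheme theoretically dominant quasi-compact morphism from an integral scheme
is integral. -/
theorem dint_of_dominant {Z Y : Scheme.{0}} (f : Z ⟶ Y) [IsIntegral Z] [QuasiCompact f]
    [IsSchemeTheoreticallyDominant f] : IsIntegral Y := by
  have : IsReduced Y := IsSchemeTheoreticallyDominant.isReduced f
  have hd : IsDominant f := inferInstance
  have : IrreducibleSpace Y := by
    rw [irreducibleSpace_def, Set.top_eq_univ, ← hd.denseRange.closure_range,
      isIrreducible_iff_closure, ← Set.image_univ]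
    exact (IrreducibleSpace.isIrreducible_univ _).image _ f.continuous.continuousOn
  exact isIntegral_of_irreducibleSpace_of_isReduced Y

theorem isIntegral_baseChange {F k : Type} [Field F] [Field k] [Algebra F k]
    {X : Scheme.{0}} [IsIntegral X] (str : F →+* Γ(X, ⊤))
    (h : letI := ((X.presheaf.germ ⊤ (genericPoint X) trivial).hom.comp str).toAlgebra
      IsDomain (X.functionField ⊗[F] k)) :
    IsIntegral (pullback (strMor str) (Spec.map (CommRingCat.ofHom (algebraMap F k)))) := by
  obtain ⟨_, _⟩ := dint_dominant X
  have : Flat (Spec.map (CommRingCat.ofHom (algebraMap F k))) := by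
    rw [Flat.SpecMap_iff]
    exact .of_isField (Field.toIsField F) _
  have : IsIntegral (pullback (X.fromSpecStalk (genericPoint X)) (pullback.fst (strMor str)
      (Spec.map (CommRingCat.ofHom (algebraMap F k))))) := by
    let _ : Algebra F (X.presheaf.stalk (genericPoint X)) :=
      ((X.presheaf.germ ⊤ (genericPoint X) trivial).hom.comp str).toAlgebra
    have hd : IsDomain ((X.presheaf.stalk (genericPoint X)) ⊗[F] k) := h
    have e1 := pullbackRightPullbackFstIso (strMor str)
      (Spec.map (CommRingCat.ofHom (algebraMap F k))) (X.fromSpecStalk (genericPoint X))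
    have e3 := pullbackSpecIso F (X.presheaf.stalk (genericPoint X)) k
    have i1 : IsIntegral (Spec (.of ((X.presheaf.stalk (genericPoint X)) ⊗[F] k))) :=
      inferInstance
    have i2 := IsIntegral.of_isIso e3.inv
    have i3 : IsIntegral (pullback (X.fromSpecStalk (genericPoint X) ≫ strMor str)
        (Spec.map (CommRingCat.ofHom (algebraMap F k)))) := by
      rw [dint_fromStalk]
      exact i2
    exact IsIntegral.of_isIso e1.inv
  exact dint_of_dominant (pullback.snd (X.fromSpecStalk (genericPoint X))
    (pullback.fst (strMor str) (Spec.map (CommRingCat.ofHom (algebraMap F k)))))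

end Pool.Agent.K1
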