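import Mathlib

/-!
Field theory: the tensor product of a field extension in which the base field is algebraically
closed and a separable algebraic extension is a domain.
-/

set_option autoImplicit false

open TensorProduct

namespace Pool.Agent.K1

/-- The minimal polynomial of an algebraic element does not change. -/
theorem dten_minpoly {F K Ω : Type*} [Field F] [Field K] [Field Ω] [Algebra F K] [Algebra K Ω]
    [Algebra F Ω] [IsScalarTower F K Ω]
    (hK : ∀ z : K, IsAlgebraic F z → z ∈ Set.range (algebraMap F K)) {x : Ω}
    (hx : IsIntegral F x) : minpoly K x = (minpoly F x).map (algebraMap F K) := by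
  have hxK : IsIntegral K x := hx.tower_top
  have hdvd : minpoly K x ∣ (minpoly F x).map (algebraMap F K) :=
    minpoly.dvd_map_of_isScalarTower F K x
  have h1 := integralClosure.mem_lifts_of_monic_of_dvd_map K (minpoly.monic hx)
    (minpoly.monic hxK) hdvd
  have h2 : minpoly K x ∈ Polynomial.lifts (algebraMap F K) := by
    rw [Polynomial.lifts_iff_coeff_lifts] at h1 ⊢
    intro n
    obtain ⟨a, ha⟩ := h1 n
    apply hK
    rw [← ha]
    exact a.2.isAlgebraic
  obtain ⟨q, hq, hqdeg, hqm⟩ := Polynomial.lifts_and_natDegree_eq_and_monic h2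
    (minpoly.monic hxK)
  have h3 : Polynomial.aeval x q = 0 := by
    rw [← Polynomial.aeval_map_algebraMap K, hq, minpoly.aeval]
  have h4 : (minpoly F x).map (algebraMap F K) ∣ minpoly K x := by
    rw [← hq]
    exact Polynomial.map_dvd _ (minpoly.dvd F x h3)
  exact Polynomial.eq_of_monic_of_associated (minpoly.monic hxK) ((minpoly.monic hx).map _)
    (associated_of_dvd_dvd hdvd h4)

/-- Every tensor comes from a finite subextension. -/
theorem dten_exists {F K k : Type*} [Field F] [Field K] [Algebra F K] [Field k]
    [Algebra F k] [Algebra.IsAlgebraic F k] (x : K ⊗[F] k) :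
    ∃ (E : IntermediateField F k) (_ : FiniteDimensional F E)
      (x' : K ⊗[F] E), Algebra.TensorProduct.map (AlgHom.id K K) E.val x' = x := by
  induction x using TensorProduct.induction_on with
  | zero => exact ⟨⊥, inferInstance, 0, map_zero _⟩
  | tmul a b =>
    refine ⟨IntermediateField.adjoin F {b}, IntermediateField.adjoin.finiteDimensional
      (Algebra.IsAlgebraic.isAlgebraic (R := F) b).isIntegral,
      a ⊗ₜ IntermediateField.AdjoinSimple.gen F b, ?_⟩
    rw [Algebra.TensorProduct.map_tmul]
    rfl
  | add u v hu hv =>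
    obtain ⟨E₁, h1, x₁, hx₁⟩ := hu
    obtain ⟨E₂, h2, x₂, hx₂⟩ := hv
    refine ⟨E₁ ⊔ E₂, IntermediateField.finiteDimensional_sup E₁ E₂,
      Algebra.TensorProduct.map (AlgHom.id K K)
        (IntermediateField.inclusion (le_sup_left : E₁ ≤ E₁ ⊔ E₂)) x₁ +
      Algebra.TensorProduct.map (AlgHom.id K K)
        (IntermediateField.inclusion (le_sup_right : E₂ ≤ E₁ ⊔ E₂)) x₂, ?_⟩
    rw [map_add, ← hx₁, ← hx₂]
    have h3 : ∀ (E E' : IntermediateField F k) (h : E ≤ E') (y : K ⊗[F] E),
        Algebra.TensorProduct.map (AlgHom.id K K) E'.val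
          (Algebra.TensorProduct.map (AlgHom.id K K) (IntermediateField.inclusion h) y) =
        Algebra.TensorProduct.map (AlgHom.id K K) E.val y := by
      intro E E' h y
      induction y using TensorProduct.induction_on with
      | zero => rw [map_zero, map_zero, map_zero]
      | tmul a b =>
        rw [Algebra.TensorProduct.map_tmul, Algebra.TensorProduct.map_tmul,
          Algebra.TensorProduct.map_tmul]
        rfl
      | add u v hu hv => rw [map_add, map_add, map_add, hu, hv]
    rw [h3, h3]

theorem isDomain_tensor {F K k : Type*} [Field F] [Field K] [Algebra F K] [Field k]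
    [Algebra F k] [Algebra.IsSeparable F k]
    (hK : ∀ z : K, IsAlgebraic F z → z ∈ Set.range (algebraMap F K)) :
    IsDomain (K ⊗[F] k) := by
  classical
  have halg : Algebra.IsAlgebraic F k := inferInstance
  let σ : k →ₐ[F] AlgebraicClosure K := IsAlgClosed.lift
  let μ : K ⊗[F] k →ₐ[K] AlgebraicClosure K :=
    Algebra.TensorProduct.lift (Algebra.ofId K (AlgebraicClosure K)) σ
      fun _ _ => Commute.all _ _
  have hμ : ∀ (a : K) (b : k), μ (a ⊗ₜ b) = algebraMap K (AlgebraicClosure K) a * σ b :=
    fun a b => Algebra.TensorProduct.lift_tmul _ _ _ _ _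
  suffices hinj : Function.Injective μ from hinj.isDomain μ.toRingHom
  rw [injective_iff_map_eq_zero]
  intro x hx
  obtain ⟨E, hfd, x', hx'⟩ := dten_exists x
  have hsep : Algebra.IsSeparable F E := inferInstance
  set pb := Field.powerBasisOfFiniteOfSeparable F E with hpb
  set B := Algebra.TensorProduct.basis K pb.basis with hB
  set θ : AlgebraicClosure K := σ (pb.gen : k) with hθ
  have hθint : IsIntegral F θ := (pb.isIntegral_gen.map (E.val)).map σ
  have hmin : minpoly F θ = minpoly F pb.gen := by
    rw [hθ, minpoly.algHom_eq σ σ.toRingHom.injective]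
    exact minpoly.algHom_eq E.val E.val.toRingHom.injective pb.gen
  have hdeg : (minpoly K θ).natDegree = pb.dim := by
    rw [dten_minpoly hK hθint, Polynomial.natDegree_map, hmin, pb.natDegree_minpoly]
  have hli := linearIndependent_pow (K := K) θ
  rw [hdeg] at hli
  have hrep := B.sum_repr x'
  have hval : μ x = ∑ i, B.repr x' i • θ ^ (i : ℕ) := by
    rw [← hx']
    conv_lhs => rw [← hrep]
    rw [map_sum, map_sum]
    refine Finset.sum_congr rfl fun i _ => ?_
    rw [map_smul, map_smul]
    congr 1
    rw [hB, Algebra.TensorProduct.basis_apply, Algebra.TensorProduct.map_tmul, hμ]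
    simp [hθ, PowerBasis.coe_basis]
  rw [hx] at hval
  have hzero := (Fintype.linearIndependent_iff.1 hli) (fun i => B.repr x' i) hval.symm
  have hx0 : x' = 0 := by
    rw [← hrep]
    exact Finset.sum_eq_zero fun i _ => by
      rw [hzero i, zero_smul]
  rw [← hx', hx0, map_zero]

end Pool.Agent.K1
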