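import Mathlib

/-!
K1-D13: the base change of a scheme over a field along a separable algebraic extension of
fields is unramified (the maximal ideals of the local rings generate).
-/

set_option autoImplicit false

open AlgebraicGeometry CategoryTheory CategoryTheory.Limits TensorProduct

namespace Pool.Agent.K1

/-- the maximal ideal generates the maximal ideal -/
def UnrMM {R S : Type} [CommRing R] [CommRing S] (φ : R →+* S) : Prop :=
  ∀ (_ : IsLocalRing R) (_ : IsLocalRing S),
    (IsLocalRing.maximalIdeal R).map φ = IsLocalRing.maximalIdeal S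

theorem unrMM_equiv {R S : Type} [CommRing R] [CommRing S] [IsLocalRing R] [IsLocalRing S]
    (e : R ≃+* S) :
    (IsLocalRing.maximalIdeal R).map e.toRingHom = IsLocalRing.maximalIdeal S := by
  have : ((IsLocalRing.maximalIdeal R).map (e : R →+* S)).IsMaximal :=
    Ideal.map_isMaximal_of_equiv e
  exact IsLocalRing.eq_maximalIdeal this

theorem unrMM_respectsIso : RingHom.RespectsIso (fun {_R _S : Type} _ _ φ => UnrMM φ) := by
  constructor
  · intro R S T _ _ _ f e hf hR hT
    have : IsLocalRing S := e.symm.isLocalRing
    rw [← Ideal.map_map, hf hR this, unrMM_equiv e]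
  · intro R S T _ _ _ f e hf hR hT
    have : IsLocalRing S := e.isLocalRing
    rw [← Ideal.map_map, unrMM_equiv e, hf this hT]

/-- every element of the tensor product comes from a finite subextension -/
theorem unr_fin {F k A : Type} [Field F] [Field k] [Algebra F k] [Algebra.IsAlgebraic F k]
    [CommRing A] [Algebra F A] (z : A ⊗[F] k) :
    ∃ (E : IntermediateField F k), FiniteDimensional F E ∧
      z ∈ (Algebra.TensorProduct.map (AlgHom.id A A) E.val).range := by
  induction z using TensorProduct.induction_on with
  | zero => exact ⟨⊥, inferInstance, zero_mem _⟩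
  | tmul a c =>
    refine ⟨IntermediateField.adjoin F {c}, ?_, ?_⟩
    · exact IntermediateField.adjoin.finiteDimensional (Algebra.IsIntegral.isIntegral c)
    · exact ⟨a ⊗ₜ[F] ⟨c, IntermediateField.mem_adjoin_simple_self F c⟩, by simp⟩
  | add x y hx hy =>
    obtain ⟨E₁, h₁, hx⟩ := hx
    obtain ⟨E₂, h₂, hy⟩ := hy
    have key : ∀ (E E' : IntermediateField F k) (h : E ≤ E'),
        (Algebra.TensorProduct.map (AlgHom.id A A) E.val).range ≤
          (Algebra.TensorProduct.map (AlgHom.id A A) E'.val).range := by
      rintro E E' h _ ⟨w, rfl⟩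
      refine ⟨Algebra.TensorProduct.map (AlgHom.id A A) (IntermediateField.inclusion h) w, ?_⟩
      induction w using TensorProduct.induction_on with
      | zero => simp
      | tmul a c => simp
      | add x y hx hy => simp only [map_add, hx, hy]
    exact ⟨E₁ ⊔ E₂, IntermediateField.finiteDimensional_sup E₁ E₂,
      add_mem (key _ _ le_sup_left hx) (key _ _ le_sup_right hy)⟩

theorem unr_finite {F E A : Type} [Field F] [Field E] [Algebra F E] [FiniteDimensional F E]
    [Algebra.IsSeparable F E] [CommRing A] [Algebra F A] (q : Ideal (A ⊗[F] E)) [q.IsPrime] :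
    (q.comap (algebraMap A (A ⊗[F] E))).map (algebraMap A (Localization.AtPrime q)) =
      IsLocalRing.maximalIdeal (Localization.AtPrime q) := by
  let := Localization.AtPrime.algebraOfLiesOver (q.under A) q
  have h1 : Algebra.FormallyUnramified F E := .of_isSeparable F E
  have h2 : Algebra.FormallyUnramified A (A ⊗[F] E) := inferInstance
  have h3 : Algebra.FormallyUnramified (A ⊗[F] E) (Localization.AtPrime q) :=
    .of_isLocalization q.primeCompl
  have h4 : Algebra.IsUnramifiedAt A q :=
    Algebra.FormallyUnramified.comp A (A ⊗[F] E) (Localization.AtPrime q)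
  exact ((Algebra.isUnramifiedAt_iff_map_eq A (q.under A) q).mp h4).2

theorem unr_step {A B C : Type} [CommRing A] [CommRing B] [CommRing C] (f : A →+* B)
    (φ : B →+* C) (q : Ideal C) [q.IsPrime] (p : Ideal A) (hp : p = q.comap (φ.comp f))
    (hB : ∀ (Q : Ideal B) [Q.IsPrime],
      (Q.comap f).map ((algebraMap B (Localization.AtPrime Q)).comp f) =
        IsLocalRing.maximalIdeal (Localization.AtPrime Q)) (w : B) (hw : φ w ∈ q) :
    algebraMap C (Localization.AtPrime q) (φ w) ∈
      p.map ((algebraMap C (Localization.AtPrime q)).comp (φ.comp f)) := by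
  have h1 : algebraMap B (Localization.AtPrime (q.comap φ)) w ∈
      IsLocalRing.maximalIdeal (Localization.AtPrime (q.comap φ)) := by
    rw [← Localization.AtPrime.map_eq_maximalIdeal]
    exact Ideal.mem_map_of_mem _ hw
  rw [← hB (q.comap φ)] at h1
  have h2 := Ideal.mem_map_of_mem (Localization.localRingHom (q.comap φ) q φ rfl) h1
  rw [Localization.localRingHom_to_map, Ideal.map_map] at h2
  convert h2 using 2
  · ext a
    simp [Localization.localRingHom_to_map]
  · rw [hp, Ideal.comap_comap]

theorem unr_alg {F k A : Type} [Field F] [Field k] [Algebra F k] [Algebra.IsSeparable F k]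
    [CommRing A] [Algebra F A] (q : Ideal (A ⊗[F] k)) [q.IsPrime] (p : Ideal A) [p.IsPrime]
    (hp : p = q.comap (Algebra.TensorProduct.includeLeftRingHom : A →+* A ⊗[F] k)) :
    (IsLocalRing.maximalIdeal (Localization.AtPrime p)).map
      (Localization.localRingHom p q Algebra.TensorProduct.includeLeftRingHom hp) =
      IsLocalRing.maximalIdeal (Localization.AtPrime q) := by
  apply le_antisymm
  · exact ((IsLocalRing.local_hom_TFAE (Localization.localRingHom p q
      Algebra.TensorProduct.includeLeftRingHom hp)).out 0 2).mp
      (Localization.isLocalHom_localRingHom p q _ hp)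
  · rw [← Localization.AtPrime.map_eq_maximalIdeal, Ideal.map_le_iff_le_comap]
    intro z hz
    rw [Ideal.mem_comap]
    obtain ⟨E, hE, w, rfl⟩ := unr_fin z
    have hsep : Algebra.IsSeparable F E := Algebra.isSeparable_tower_bot_of_isSeparable F E k
    have hcomp : (Algebra.TensorProduct.map (AlgHom.id A A) E.val).toRingHom.comp
        (algebraMap A (A ⊗[F] E)) =
        (Algebra.TensorProduct.includeLeftRingHom : A →+* A ⊗[F] k) := by
      ext a
      simp
    have h5 := unr_step (algebraMap A (A ⊗[F] E))
      (Algebra.TensorProduct.map (AlgHom.id A A) E.val).toRingHom q p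
      (by rw [hcomp]; exact hp)
      (fun Q hQ => by
        rw [← IsScalarTower.algebraMap_eq]
        exact unr_finite Q) w hz
    rw [← Localization.AtPrime.map_eq_maximalIdeal, Ideal.map_map]
    rw [hcomp] at h5
    convert h5 using 2
    ext a
    simp [Localization.localRingHom_to_map]

/-- the affine case -/
theorem unr_spec {F k : Type} [Field F] [Field k] [Algebra F k] [Algebra.IsSeparable F k]
    (A : CommRingCat.{0}) (g : Spec A ⟶ Spec (CommRingCat.of F)) :
    stalkwise (fun {_R _S : Type} _ _ φ => UnrMM φ)
      (pullback.fst g (Spec.map (CommRingCat.ofHom (algebraMap F k)))) := by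
  have hres := stalkwise_respectsIso unrMM_respectsIso
  obtain ⟨b, rfl⟩ := Spec.map_surjective g
  let := b.hom.toAlgebra
  have hb : b = CommRingCat.ofHom (algebraMap F A) := rfl
  rw [← (stalkwise (fun {_R _S : Type} _ _ φ => UnrMM φ)).cancel_left_of_respectsIso
    (pullbackSpecIso F A k).inv]
  have h1 : (pullbackSpecIso F A k).inv ≫ pullback.fst (Spec.map b)
      (Spec.map (CommRingCat.ofHom (algebraMap F k))) =
      Spec.map (CommRingCat.ofHom Algebra.TensorProduct.includeLeftRingHom) :=
    pullbackSpecIso_inv_fst F A k
  rw [h1, stalkwise_SpecMap_iff unrMM_respectsIso]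
  intro q hq h2 h3
  exact unr_alg q _ rfl

theorem unram_baseChange {F k : Type} [Field F] [Field k] [Algebra F k]
    [Algebra.IsSeparable F k] {X : Scheme.{0}} (f : X ⟶ Spec (CommRingCat.of F))
    (y : ↥(pullback f (Spec.map (CommRingCat.ofHom (algebraMap F k))))) :
    Ideal.map ((pullback.fst f (Spec.map (CommRingCat.ofHom (algebraMap F k)))).stalkMap y).hom
      (IsLocalRing.maximalIdeal (X.presheaf.stalk
        (pullback.fst f (Spec.map (CommRingCat.ofHom (algebraMap F k))) y))) =
      IsLocalRing.maximalIdeal
        ((pullback f (Spec.map (CommRingCat.ofHom (algebraMap F k)))).presheaf.stalk y) := by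
  have hloc : IsZariskiLocalAtTarget (stalkwise (fun {_R _S : Type} _ _ φ => UnrMM φ)) :=
    stalkwiseIsZariskiLocalAtTarget_of_respectsIso unrMM_respectsIso
  have hres := stalkwise_respectsIso unrMM_respectsIso
  have main : stalkwise (fun {_R _S : Type} _ _ φ => UnrMM φ)
      (pullback.fst f (Spec.map (CommRingCat.ofHom (algebraMap F k)))) := by
    refine IsZariskiLocalAtTarget.of_openCover X.affineCover ?_
    intro i
    have h1 : X.affineCover.pullbackHom
        (pullback.fst f (Spec.map (CommRingCat.ofHom (algebraMap F k)))) i =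
        (pullbackSymmetry _ _).hom ≫ (pullbackRightPullbackFstIso f
          (Spec.map (CommRingCat.ofHom (algebraMap F k))) (X.affineCover.f i)).hom ≫
          pullback.fst (X.affineCover.f i ≫ f)
            (Spec.map (CommRingCat.ofHom (algebraMap F k))) := by
      rw [pullbackRightPullbackFstIso_hom_fst, pullbackSymmetry_hom_comp_fst]
      rfl
    have h2 : stalkwise (fun {_R _S : Type} _ _ φ => UnrMM φ) ((pullbackSymmetry _ _).hom ≫
        (pullbackRightPullbackFstIso f (Spec.map (CommRingCat.ofHom (algebraMap F k)))
          (X.affineCover.f i)).hom ≫ pullback.fst (X.affineCover.f i ≫ f)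
            (Spec.map (CommRingCat.ofHom (algebraMap F k)))) := by
      rw [(stalkwise (fun {_R _S : Type} _ _ φ => UnrMM φ)).cancel_left_of_respectsIso,
        (stalkwise (fun {_R _S : Type} _ _ φ => UnrMM φ)).cancel_left_of_respectsIso]
      exact unr_spec _ _
    rw [h1]
    exact h2
  exact main y inferInstance inferInstance

end Pool.Agent.K1
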