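import Pool.Agent.K1.DProj
import Pool.Agent.K1.DConst
import Pool.Agent.K1.DTensor
import Pool.Agent.K1.DInt
import Pool.Agent.K1.DUnram
import Pool.Agent.K1.DFun
import Pool.Agent.K1.DClosed
import Pool.Agent.K1.Ufd2

/-!
Descent to finite fields (K1-D16): the base change of an integral regular closed subscheme of
projective space over a perfect field to the algebraic closure of its field of constants.
-/

set_option autoImplicit false

open AlgebraicGeometry CategoryTheory CategoryTheory.Limits TensorProduct

attribute [local instance] MvPolynomial.gradedAlgebra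

namespace Pool.Agent.K1

/-- The structure morphism of the scalars coming from a morphism to the spectrum of a field. -/
theorem dbase_strMor {X : Scheme.{0}} {F : Type} [Field F] (g : X ⟶ Spec (CommRingCat.of F)) :
    X.toSpecΓ ≫ Spec.map (CommRingCat.ofHom
      ((Scheme.ΓSpecIso (CommRingCat.of F)).inv ≫ g.appTop).hom) = g := by
  rw [CommRingCat.ofHom_hom, Spec.map_comp, ← Scheme.toSpecΓ_naturality_assoc]
  simp

/-- A surjective morphism of integral schemes maps the generic point to the generic point. -/
theorem dbase_generic {Y X : Scheme.{0}} [IsIntegral Y] [IsIntegral X] (π : Y ⟶ X)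
    (h : Function.Surjective π) : π (genericPoint Y) = genericPoint X := by
  obtain ⟨y, hy⟩ := h (genericPoint X)
  have h1 : genericPoint Y ⤳ y := genericPoint_specializes y
  have h2 : π (genericPoint Y) ⤳ π y := h1.map π.continuous
  rw [hy] at h2
  exact (h2.antisymm (genericPoint_specializes _)).eq

theorem dbase_closed {X : Scheme.{0}} [IsIntegral X]
    (hreg : ∀ x : X, IsRegularLocalRing (X.presheaf.stalk x))
    (hdim : ∀ x : X, Order.coheight x ≤ 2) (x : X) : IsIntegrallyClosed (X.presheaf.stalk x) := by
  haveI := hreg x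
  haveI : UniqueFactorizationMonoid (X.presheaf.stalk x) := by
    apply ufd_of_regular2
    rw [ringKrullDim_stalk_eq_coheight]
    exact WithBot.coe_le_coe.2 (hdim x)
  infer_instance

/-- An element algebraic over the algebraic closure of `F` in `K` is algebraic over `F`. -/
theorem dbase_alg {F K : Type*} [Field F] [Field K] [Algebra F K] (z : K)
    (P : Polynomial (algebraicClosure F K)) (hP : P ≠ 0)
    (hz : P.eval₂ (algebraMap (algebraicClosure F K) K) z = 0) : IsAlgebraic F z := by
  have h1 : IsAlgebraic (algebraicClosure F K) z := ⟨P, hP, by rw [Polynomial.aeval_def]; exact hz⟩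
  exact (isIntegral_trans (R := F) (A := algebraicClosure F K) z h1.isIntegral).isAlgebraic

/-- The assembly, with the base field replaced by the field of constants. -/
theorem dbase_exists (F F' k : Type) [Field F] [Field F'] [Field k] [Algebra F F'] [Algebra F' k]
    [Algebra F k] [IsScalarTower F F' k] [Algebra.IsSeparable F' k] (n : ℕ) (X : Scheme.{0})
    [IsIntegral X] (i : X ⟶ PN F n) [IsClosedImmersion i] (q : PN k n ⟶ PN F n)
    (s : PN F n ⟶ Spec (CommRingCat.of F)) (s' : PN k n ⟶ Spec (CommRingCat.of k))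
    (hq : IsPullback q s' s (Spec.map (CommRingCat.ofHom (algebraMap F k)))) [IsSeparated s]
    [LocallyOfFiniteType s'] [QuasiCompact s']
    (σ : F' →+* Γ(X, ⊤))
    (hdom : letI := ((X.presheaf.germ ⊤ (genericPoint X) trivial).hom.comp σ).toAlgebra
      IsDomain (X.functionField ⊗[F'] k))
    (hf : strMor σ ≫ Spec.map (CommRingCat.ofHom (algebraMap F F')) = i ≫ s) :
    ∃ (Y : Scheme.{0}) (_ : IsIntegral Y) (π : Y ⟶ X) (i' : Y ⟶ PN k n),
      IsClosedImmersion i' ∧ IsNoetherian Y ∧ Nonempty (ProEt π) := by
  haveI hint : IsIntegral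
      (pullback (strMor σ) (Spec.map (CommRingCat.ofHom (algebraMap F' k)))) :=
    isIntegral_baseChange σ hdom
  obtain ⟨i', hi'⟩ := closed_baseChange n i q s s' hq (strMor σ) hf
  haveI hik : IsIntegralHom (Spec.map (CommRingCat.ofHom (algebraMap F' k))) := by
    rw [IsIntegralHom.SpecMap_iff]
    exact Algebra.IsIntegral.isIntegral
  haveI hfl : Flat (Spec.map (CommRingCat.ofHom (algebraMap F' k))) := by
    rw [Flat.SpecMap_iff]
    exact RingHom.flat_algebraMap_iff.2 inferInstance
  haveI hsu : Surjective (Spec.map (CommRingCat.ofHom (algebraMap F' k))) := by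
    refine ⟨fun x => ?_⟩
    obtain ⟨z⟩ := (inferInstance : Nonempty (PrimeSpectrum k))
    refine ⟨z, ?_⟩
    exact @Subsingleton.elim (PrimeSpectrum F') _ _ _
  have hsurj : Function.Surjective
      (pullback.fst (strMor σ) (Spec.map (CommRingCat.ofHom (algebraMap F' k)))) :=
    (pullback.fst (strMor σ) (Spec.map (CommRingCat.ofHom (algebraMap F' k)))).surjective
  obtain ⟨ψ, hψ⟩ := exists_psi
    (pullback.fst (strMor σ) (Spec.map (CommRingCat.ofHom (algebraMap F' k))))
    (dbase_generic _ hsurj)
  refine ⟨_, hint, pullback.fst (strMor σ) (Spec.map (CommRingCat.ofHom (algebraMap F' k))), i',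
    hi', ?_, ⟨⟨inferInstance, inferInstance, hsurj, ?_, ψ, hψ, ?_⟩⟩⟩
  · haveI : LocallyOfFiniteType (i' ≫ s') := inferInstance
    haveI : QuasiCompact (i' ≫ s') := inferInstance
    haveI h1 := LocallyOfFiniteType.isLocallyNoetherian (i' ≫ s')
    haveI h2 := QuasiCompact.compactSpace_of_compactSpace (i' ≫ s')
    exact { __ := h1, __ := h2 }
  · exact unram_baseChange _
  · exact sep_baseChange _ ψ hψ

theorem exists_baseChange (F k : Type) [Field F] [PerfectField F] [Field k] [IsAlgClosed k]
    [Algebra F k] [Algebra.IsAlgebraic F k] (n : ℕ) (X : Scheme.{0}) [IsIntegral X]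
    (i : X ⟶ PN F n) [IsClosedImmersion i]
    (hreg : ∀ x : X, IsRegularLocalRing (X.presheaf.stalk x))
    (hdim : ∀ x : X, Order.coheight x ≤ 2) :
    ∃ (Y : Scheme.{0}) (_ : IsIntegral Y) (π : Y ⟶ X) (i' : Y ⟶ PN k n),
      IsClosedImmersion i' ∧ IsNoetherian Y ∧ Nonempty (ProEt π) := by
  obtain ⟨q, s, s', hq, h1, h2, h3, h4, h5⟩ := proj_baseChange F k n
  let str : F →+* Γ(X, ⊤) := ((Scheme.ΓSpecIso (CommRingCat.of F)).inv ≫ (i ≫ s).appTop).hom
  have hstr : strMor str = i ≫ s := dbase_strMor (i ≫ s)
  letI aFK : Algebra F X.functionField :=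
    ((X.presheaf.germ ⊤ (genericPoint X) trivial).hom.comp str).toAlgebra
  obtain ⟨σ, hσ⟩ := exists_constants (dbase_closed hreg hdim) str
  let F' := algebraicClosure F X.functionField
  letI aFk : Algebra F' k := (IsAlgClosed.lift : F' →ₐ[F] k).toRingHom.toAlgebra
  haveI : IsScalarTower F F' k := IsScalarTower.of_algebraMap_eq fun a =>
    ((IsAlgClosed.lift : F' →ₐ[F] k).commutes a).symm
  haveI : Algebra.IsAlgebraic F' k := Algebra.IsAlgebraic.tower_top (K := F) F'
  haveI : PerfectField F' := Algebra.IsAlgebraic.perfectField (K := F) (L := F')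
  haveI : Algebra.IsSeparable F' k := inferInstance
  have hinj : Function.Injective (X.presheaf.germ ⊤ (genericPoint X) trivial).hom :=
    germ_injective_of_isIntegral X (U := ⊤) (genericPoint X) trivial
  have hval : (X.presheaf.germ ⊤ (genericPoint X) trivial).hom.comp σ =
      algebraMap F' X.functionField := RingHom.ext hσ
  refine dbase_exists F F' k n X i q s s' hq σ ?_ ?_
  · rw [hval]
    letI aF'K : Algebra F' X.functionField := (algebraMap F' X.functionField).toAlgebra
    refine isDomain_tensor (F := F') (K := X.functionField) (k := k) fun z hz => ?_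
    obtain ⟨P, hP, hz⟩ := hz
    rw [Polynomial.aeval_def] at hz
    exact ⟨⟨z, mem_algebraicClosure_iff.2 (dbase_alg z P hP hz)⟩, rfl⟩
  · have h6 : σ.comp (algebraMap F F') = str := by
      refine RingHom.ext fun a => hinj ?_
      rw [RingHom.comp_apply, hσ]
      rfl
    rw [← hstr, Category.assoc, ← Spec.map_comp, ← CommRingCat.ofHom_comp, h6]

end Pool.Agent.K1
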