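import Pool.Agent.K1.L3Defs

/-!
Descent from the algebraic closure of the base field to the base field: definitions.
-/

set_option autoImplicit false

open AlgebraicGeometry CategoryTheory

namespace Pool.Agent.K1

/-- What is used of the projection `π : Y ⟶ X`, where `X` is a scheme over a perfect field and `Y`
is (a component of) its base change to an algebraic closure of the field: `π` is integral, flat,
surjective and unramified at all points, and the extension of function fields is separable
algebraic. -/
structure ProEt {Y X : Scheme.{0}} [IsIntegral Y] [IsIntegral X] (π : Y ⟶ X) where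
  integral : IsIntegralHom π
  flat : Flat π
  surj : Function.Surjective π
  unram : ∀ y : Y, Ideal.map (π.stalkMap y).hom
    (IsLocalRing.maximalIdeal (X.presheaf.stalk (π y))) =
      IsLocalRing.maximalIdeal (Y.presheaf.stalk y)
  ψ : X.functionField →+* Y.functionField
  ψ_stalk : ∀ (y : Y) (a : X.presheaf.stalk (π y)),
    ψ (algebraMap _ X.functionField a) =
      algebraMap (Y.presheaf.stalk y) Y.functionField ((π.stalkMap y).hom a)
  sep : letI := ψ.toAlgebra
    Algebra.IsSeparable X.functionField Y.functionField

/-- The chain `η` is the pull back of the chain `ξ`. -/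
def IsPull {Y X : Scheme.{0}} (π : Y ⟶ X) (ξ : SChain X) (η : SChain Y) : Prop :=
  ∀ (y : PointOne Y) (h : Order.coheight (π y.1) = 1),
    Additive.toMul (η y) =
      Units.map (π.residueFieldMap y.1).hom.toMonoidHom (Additive.toMul (ξ ⟨π y.1, h⟩))

/-- A bilinear map on the units of the field `L`, with values in `ℚ`, which kills the Steinberg
relations. -/
structure Symb (L : Type*) [Field L] where
  φ : Additive Lˣ →+ Additive Lˣ →+ ℚ
  steinberg : ∀ a b : Lˣ, (a : L) + b = 1 → φ (Additive.ofMul a) (Additive.ofMul b) = 0

end Pool.Agent.K1
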