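import Pool.Agent.K1.DDefs

/-!
# Dimension and regularity along `π`

`coheight_pi`: the codimension of a point of `Y` equals the codimension of its image in `X`.
`isRegular_pi`: `Y` is regular at `y` if `X` is regular at `π y`.
-/

set_option autoImplicit false

open AlgebraicGeometry CategoryTheory

namespace Pool.Agent.K1

/-- Incomparability for integral morphisms of schemes. -/
theorem ddim_incomp {Y X : Scheme.{0}} (π : Y ⟶ X) [hi : IsIntegralHom π] {z y : Y} (h : z ⤳ y)
    (he : π z = π y) : z = y := by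
  obtain ⟨U, hU, hyU, -⟩ := exists_isAffineOpen_mem_and_subset (x := π y) (U := ⊤) trivial
  have hV : IsAffineOpen (π ⁻¹ᵁ U) := hU.preimage π
  have hyV : y ∈ π ⁻¹ᵁ U := hyU
  have hzV : z ∈ π ⁻¹ᵁ U := by
    change π z ∈ U
    rw [he]; exact hyU
  have hr := hV.range_fromSpec
  obtain ⟨P, hP⟩ : y ∈ Set.range hV.fromSpec := by rw [hr]; exact hyV
  obtain ⟨Q, hQ⟩ : z ∈ Set.range hV.fromSpec := by rw [hr]; exact hzV
  have hcomm : ∀ T : Spec Γ(Y, π ⁻¹ᵁ U), hU.fromSpec (Spec.map (π.app U) T) =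
      π (hV.fromSpec T) := by
    intro T
    have h1 := IsAffineOpen.SpecMap_appLE_fromSpec π hU hV le_rfl
    rw [← Scheme.Hom.app_eq_appLE] at h1
    have h2 := congrArg (fun g : Spec Γ(Y, π ⁻¹ᵁ U) ⟶ X => g T) h1
    simpa using h2
  have hQP : (Q : Spec Γ(Y, π ⁻¹ᵁ U)) ⤳ P := by
    have h3 := hV.fromSpec.isOpenEmbedding.isInducing.specializes_iff (x := Q) (y := P)
    rw [hP, hQ] at h3
    exact h3.1 h
  have hle : Q.asIdeal ≤ P.asIdeal := (PrimeSpectrum.le_iff_specializes Q P).2 hQP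
  have hmap : Spec.map (π.app U) Q = Spec.map (π.app U) P := by
    apply hU.fromSpec.isOpenEmbedding.injective
    rw [hcomm, hcomm, hP, hQ, he]
  have hcomap : Q.asIdeal.comap (π.app U).hom = P.asIdeal.comap (π.app U).hom := by
    have := congrArg PrimeSpectrum.asIdeal hmap
    exact this
  have heq : Q.asIdeal = P.asIdeal := by
    by_contra hne
    let _ := (π.app U).hom.toAlgebra
    have hint : Algebra.IsIntegral Γ(X, U) Γ(Y, π ⁻¹ᵁ U) := ⟨hi.isIntegral_app U hU⟩
    have := Q.isPrime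
    have hlt := Ideal.IsIntegral.comap_lt_comap (R := Γ(X, U)) (lt_of_le_of_ne hle hne)
    exact hlt.ne hcomap
  rw [← hP, ← hQ, PrimeSpectrum.ext heq]

theorem coheight_pi {Y X : Scheme.{0}} [IsIntegral Y] [IsIntegral X] {π : Y ⟶ X}
    (P : ProEt π) (y : Y) : Order.coheight (π y) = Order.coheight y := by
  have hi := P.integral
  have hf := P.flat
  refine (Order.coheight_eq_of_strictMono (fun y : Y => π y) ?_ ?_ y).symm
  · intro a b hab
    obtain ⟨h1, h2⟩ := lt_iff_le_not_ge.1 hab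
    have h1' : b ⤳ a := Scheme.le_iff_specializes.1 h1
    have h3 : π b ⤳ π a := h1'.map π.continuous
    refine lt_iff_le_not_ge.2 ⟨Scheme.le_iff_specializes.2 h3, fun h4 => h2 ?_⟩
    have h4' : π a ⤳ π b := Scheme.le_iff_specializes.1 h4
    have h5 : π b = π a := (h3.antisymm h4').eq
    rw [ddim_incomp π h1' h5]
  · intro a b hab
    obtain ⟨h1, h2⟩ := lt_iff_le_not_ge.1 hab
    have h1' : b ⤳ π a := Scheme.le_iff_specializes.1 h1
    obtain ⟨a', ha', hb⟩ := Flat.generalizingMap π h1'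
    refine ⟨a', lt_iff_le_not_ge.2 ⟨Scheme.le_iff_specializes.2 ha', fun h3 => h2 ?_⟩, hb⟩
    have h3' : a ⤳ a' := Scheme.le_iff_specializes.1 h3
    rw [← hb]
    exact Scheme.le_iff_specializes.2 (h3'.map π.continuous)

theorem isRegular_pi {Y X : Scheme.{0}} [IsIntegral Y] [IsIntegral X] [IsLocallyNoetherian Y]
    [IsLocallyNoetherian X] {π : Y ⟶ X} (P : ProEt π) (y : Y)
    (h : IsRegularLocalRing (X.presheaf.stalk (π y))) :
    IsRegularLocalRing (Y.presheaf.stalk y) := by
  apply IsRegularLocalRing.of_spanFinrank_maximalIdeal_le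
  rw [ringKrullDim_stalk_eq_coheight, ← coheight_pi P y, ← ringKrullDim_stalk_eq_coheight,
    ← IsRegularLocalRing.spanFinrank_maximalIdeal (R := X.presheaf.stalk (π y)), ← P.unram y]
  exact_mod_cast Ideal.spanFinrank_map_le_of_fg _ (IsNoetherian.noetherian _)

end Pool.Agent.K1
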