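import Pool.Agent.K1.DDefs

/-!
Base change of projective space along an extension of fields.
-/

set_option autoImplicit false

open AlgebraicGeometry CategoryTheory CategoryTheory.Limits TensorProduct

attribute [local instance] MvPolynomial.gradedAlgebra

namespace Pool.Agent.K1

/-! ### A square is a pull back if it is one locally -/

theorem dproj_isPullback_of_cover {P X Y Z : Scheme.{0}} {fst : P ⟶ X} {snd : P ⟶ Y}
    {f : X ⟶ Z} {g : Y ⟶ Z} (w : fst ≫ f = snd ≫ g) (𝒰 : X.OpenCover)
    (Q : 𝒰.I₀ → Scheme.{0}) (a : ∀ i, Q i ⟶ P) (b : ∀ i, Q i ⟶ 𝒰.X i)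
    (h1 : ∀ i, IsPullback (a i) (b i) fst (𝒰.f i))
    (h2 : ∀ i, IsPullback (b i) (a i ≫ snd) (𝒰.f i ≫ f) g) : IsPullback fst snd f g := by
  set φ : P ⟶ pullback f g := pullback.lift fst snd w with hφ
  have hf : φ ≫ pullback.fst f g = fst := pullback.lift_fst _ _ _
  have hs : φ ≫ pullback.snd f g = snd := pullback.lift_snd _ _ _
  have hiso : IsIso φ := by
    have key : MorphismProperty.isomorphisms Scheme.{0} φ := by
      refine IsZariskiLocalAtTarget.of_openCover (P := MorphismProperty.isomorphisms Scheme.{0})
        (𝒰.pullback₁ (pullback.fst f g)) ?_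
      intro i
      change IsIso (pullback.snd φ (pullback.fst (pullback.fst f g) (𝒰.f i)))
      have hR : IsPullback (pullback.fst (pullback.fst f g) (𝒰.f i))
          (pullback.snd (pullback.fst f g) (𝒰.f i)) (pullback.fst f g) (𝒰.f i) :=
        IsPullback.of_hasPullback _ _
      have wc : (a i ≫ φ) ≫ pullback.fst f g = b i ≫ 𝒰.f i := by
        rw [Category.assoc, hf]; exact (h1 i).w
      set c : Q i ⟶ pullback (pullback.fst f g) (𝒰.f i) := hR.lift (a i ≫ φ) (b i) wc with hc
      have hc1 : c ≫ pullback.fst (pullback.fst f g) (𝒰.f i) = a i ≫ φ := hR.lift_fst _ _ _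
      have hc2 : c ≫ pullback.snd (pullback.fst f g) (𝒰.f i) = b i := hR.lift_snd _ _ _
      -- left square is a pull back
      have hL : IsPullback (a i) c φ (pullback.fst (pullback.fst f g) (𝒰.f i)) := by
        have h1' := h1 i
        rw [← hf, ← hc2] at h1'
        exact IsPullback.of_bot h1' hc1.symm hR
      -- the lower composite
      have hB : IsPullback (pullback.snd (pullback.fst f g) (𝒰.f i))
          (pullback.fst (pullback.fst f g) (𝒰.f i) ≫ pullback.snd f g) (𝒰.f i ≫ f) g := by
        exact (hR.flip.paste_vert (IsPullback.of_hasPullback f g))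
      have h2' := h2 i
      have hce : c = (h2'.isoIsPullback _ _ hB).hom := by
        apply hB.hom_ext
        · rw [IsPullback.isoIsPullback_hom_fst, hc2]
        · rw [IsPullback.isoIsPullback_hom_snd, ← Category.assoc, hc1, Category.assoc, hs]
      have hciso : IsIso c := by
        rw [hce]; infer_instance
      have he : pullback.snd φ (pullback.fst (pullback.fst f g) (𝒰.f i)) =
          hL.isoPullback.inv ≫ c := by
        rw [hL.isoPullback_inv_snd]
      rw [he]
      infer_instance
    exact key
  exact IsPullback.of_iso_pullback ⟨w⟩ (asIso φ) (by simpa using hf) (by simpa using hs)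

/-! ### A criterion for push outs of rings over a field -/

theorem dproj_isPushout {F k P Q : Type} [Field F] [CommRing k] [CommRing P] [CommRing Q]
    [Algebra F k] (u : F →+* P) (g : k →+* Q) (h : P →+* Q)
    (w : g.comp (algebraMap F k) = h.comp u) {ι : Type} (b : Module.Basis ι F k)
    (hinj : ∀ c : ι →₀ P, (c.sum fun i a => h a * g (b i)) = 0 → c = 0)
    (hsurj : ∀ q : Q, ∃ c : ι →₀ P, (c.sum fun i a => h a * g (b i)) = q) :
    IsPushout (CommRingCat.ofHom u) (CommRingCat.ofHom (algebraMap F k))
      (CommRingCat.ofHom h) (CommRingCat.ofHom g) := by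
  let _ := u.toAlgebra
  let _ := g.toAlgebra
  let _ := h.toAlgebra
  let _ := (h.comp u).toAlgebra
  have : IsScalarTower F P Q := .of_algebraMap_eq' rfl
  have : IsScalarTower F k Q := .of_algebraMap_eq' w.symm
  have hli : LinearIndependent P fun i => g (b i) := by
    rw [linearIndependent_iff]
    intro c hc
    apply hinj
    rw [← hc, Finsupp.linearCombination_apply]
    exact Finsupp.sum_congr fun i _ => (Algebra.smul_def _ _).symm
  have hsp : ⊤ ≤ Submodule.span P (Set.range fun i => g (b i)) := by
    rintro q -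
    obtain ⟨c, rfl⟩ := hsurj q
    refine Submodule.sum_mem _ fun i _ => ?_
    have hcb : h (c i) * g (b i) = c i • g (b i) := (Algebra.smul_def _ _).symm
    change h (c i) * g (b i) ∈ _
    rw [hcb]
    exact Submodule.smul_mem _ _ (Submodule.subset_span ⟨i, rfl⟩)
  let B' : Module.Basis ι P Q := Module.Basis.mk hli hsp
  let e : P ⊗[F] k ≃ₗ[P] Q := (Algebra.TensorProduct.basis P b).equiv B' (Equiv.refl ι)
  have he : ∀ x : k, e (1 ⊗ₜ x) = g x := by
    intro x
    have h1 : (e.toLinearMap.restrictScalars F).comp (TensorProduct.mk F P k 1) =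
        (Algebra.linearMap k Q).restrictScalars F := by
      apply b.ext
      intro i
      have h2 : (Algebra.TensorProduct.basis P b) i = 1 ⊗ₜ b i := by simp
      simp only [LinearMap.comp_apply, TensorProduct.mk_apply, LinearMap.restrictScalars_apply]
      rw [← h2]
      change e _ = g (b i)
      rw [show e ((Algebra.TensorProduct.basis P b) i) = B' (Equiv.refl ι i) from
        Module.Basis.equiv_apply _ i B' (Equiv.refl ι)]
      exact Module.Basis.mk_apply hli hsp i
    exact LinearMap.congr_fun h1 x
  have : Algebra.IsPushout F P k Q :=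
    ⟨IsBaseChange.of_equiv e he⟩
  exact CommRingCat.isPushout_of_isPushout F P k Q

/-! ### The charts -/

section charts

open HomogeneousLocalization

variable (F k : Type) [Field F] [Field k] [Algebra F k] (n : ℕ)

/-- The homomorphism of graded rings. -/
noncomputable def dprojHom : MvPolynomial.homogeneousSubmodule (Fin (n + 1)) F →+*ᵍ
    MvPolynomial.homogeneousSubmodule (Fin (n + 1)) k where
  toRingHom := MvPolynomial.map (algebraMap F k)
  map_mem := fun {i x} hx => by
    rw [MvPolynomial.mem_homogeneousSubmodule] at hx ⊢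
    exact hx.map _

theorem dprojHom_apply (p : MvPolynomial (Fin (n + 1)) F) :
    dprojHom F k n p = MvPolynomial.map (algebraMap F k) p := rfl

/-- The scalars in the ring of degree zero fractions. -/
noncomputable def dprojScal (L : Type) [Field L] (s : MvPolynomial (Fin (n + 1)) L) :
    L →+* Away (MvPolynomial.homogeneousSubmodule (Fin (n + 1)) L) s :=
  (fromZeroRingHom (MvPolynomial.homogeneousSubmodule (Fin (n + 1)) L) _).comp
    (algebraMap L (MvPolynomial.homogeneousSubmodule (Fin (n + 1)) L 0))

theorem dprojScal_val (L : Type) [Field L] (s : MvPolynomial (Fin (n + 1)) L) (c : L) :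
    (dprojScal n L s c).val = algebraMap (MvPolynomial (Fin (n + 1)) L) _ (MvPolynomial.C c) :=
  rfl

theorem dproj_val_map (s : MvPolynomial (Fin (n + 1)) F) {d : ℕ}
    (hs : s ∈ MvPolynomial.homogeneousSubmodule (Fin (n + 1)) F d)
    (hle : Submonoid.powers s ≤
      (Submonoid.powers (dprojHom F k n s)).comap (MvPolynomial.map (algebraMap F k)))
    (x : Away (MvPolynomial.homogeneousSubmodule (Fin (n + 1)) F) s) :
    (Away.map (dprojHom F k n) s x).val =
      IsLocalization.map (Localization (Submonoid.powers (dprojHom F k n s)))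
        (MvPolynomial.map (algebraMap F k)) hle x.val := by
  obtain ⟨m, a, ha, rfl⟩ := Away.mk_surjective _ hs x
  rw [Away.map_mk, Away.val_mk, Away.val_mk, Localization.mk_eq_mk', Localization.mk_eq_mk',
    IsLocalization.map_mk']
  congr 1
  simp [dprojHom_apply]

theorem dproj_le (s : MvPolynomial (Fin (n + 1)) F) : Submonoid.powers s ≤
    (Submonoid.powers (dprojHom F k n s)).comap (MvPolynomial.map (algebraMap F k)) := by
  rintro _ ⟨m, rfl⟩
  exact ⟨m, by simp [dprojHom_apply]⟩

theorem dproj_inj (s : MvPolynomial (Fin (n + 1)) F) (hs0 : s ≠ 0) {d : ℕ}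
    (hs : s ∈ MvPolynomial.homogeneousSubmodule (Fin (n + 1)) F d) {ι : Type}
    (b : Module.Basis ι F k)
    (c : ι →₀ Away (MvPolynomial.homogeneousSubmodule (Fin (n + 1)) F) s)
    (hc : (c.sum fun i a => Away.map (dprojHom F k n) s a *
      dprojScal n k (dprojHom F k n s) (b i)) = 0) : c = 0 := by
  classical
  have hs1 : dprojHom F k n s ≠ 0 := by
    rw [dprojHom_apply]
    intro h
    apply hs0
    exact MvPolynomial.map_injective _ (algebraMap F k).injective (by rw [h, map_zero])
  have hev : ∀ᶠ N in Filter.atTop, ∀ i ∈ c.support, s ^ N • (c i).val ∈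
      algebraMap _ _ '' ((MvPolynomial.homogeneousSubmodule (Fin (n + 1)) F (N • d) :
        Set (MvPolynomial (Fin (n + 1)) F))) := by
    rw [Filter.eventually_all_finset]
    intro i _
    exact Away.eventually_smul_mem hs (c i)
  obtain ⟨N, hN⟩ := hev.exists
  choose! p hp1 hp2 using hN
  have hmul : ∀ x : Away (MvPolynomial.homogeneousSubmodule (Fin (n + 1)) F) s,
      ∀ q : MvPolynomial (Fin (n + 1)) F, algebraMap _ (Localization (Submonoid.powers s)) q =
        s ^ N • x.val → algebraMap (MvPolynomial (Fin (n + 1)) k)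
          (Localization (Submonoid.powers (dprojHom F k n s))) (MvPolynomial.map (algebraMap F k) q)
        = algebraMap _ _ (dprojHom F k n s ^ N) * (Away.map (dprojHom F k n) s x).val := by
    intro x q hq
    rw [dproj_val_map F k n s hs (dproj_le F k n s) x,
      ← IsLocalization.map_eq (S := Localization (Submonoid.powers s)) (dproj_le F k n s) q, hq,
      Algebra.smul_def, map_mul, IsLocalization.map_eq,
      show MvPolynomial.map (algebraMap F k) (s ^ N) = dprojHom F k n s ^ N from map_pow _ _ _]
  have hsum : ∑ i ∈ c.support, MvPolynomial.map (algebraMap F k) (p i) * MvPolynomial.C (b i)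
      = 0 := by
    have hinjB : Function.Injective (algebraMap (MvPolynomial (Fin (n + 1)) k)
        (Localization (Submonoid.powers (dprojHom F k n s)))) :=
      IsLocalization.injective _ (powers_le_nonZeroDivisors_of_noZeroDivisors hs1)
    apply hinjB
    rw [map_zero, map_sum]
    have h1 : ∑ i ∈ c.support, (Away.map (dprojHom F k n) s (c i)).val *
        (dprojScal n k (dprojHom F k n s) (b i)).val = 0 := by
      have h2 := congrArg (algebraMap (Away (MvPolynomial.homogeneousSubmodule (Fin (n + 1)) k)
        (dprojHom F k n s)) (Localization (Submonoid.powers (dprojHom F k n s)))) hc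
      rw [map_zero, Finsupp.sum, map_sum] at h2
      rw [← h2]
      refine Finset.sum_congr rfl fun i _ => ?_
      rw [map_mul]
      rfl
    have h3 : ∑ i ∈ c.support, algebraMap _ (Localization (Submonoid.powers (dprojHom F k n s)))
        (dprojHom F k n s ^ N) * ((Away.map (dprojHom F k n) s (c i)).val *
        (dprojScal n k (dprojHom F k n s) (b i)).val) = 0 := by
      rw [← Finset.mul_sum, h1, mul_zero]
    rw [← h3]
    refine Finset.sum_congr rfl fun i hi => ?_
    rw [map_mul, hmul (c i) (p i) (hp2 i hi), dprojScal_val, mul_assoc]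
  have hp0 : ∀ i ∈ c.support, p i = 0 := by
    intro i hi
    ext m
    have h4 : ∑ i ∈ c.support, MvPolynomial.coeff m (p i) • b i = 0 := by
      have h5 := congrArg (MvPolynomial.coeff m) hsum
      rw [MvPolynomial.coeff_sum, MvPolynomial.coeff_zero] at h5
      rw [← h5]
      refine Finset.sum_congr rfl fun i _ => ?_
      rw [mul_comm, MvPolynomial.coeff_C_mul, MvPolynomial.coeff_map, Algebra.smul_def, mul_comm]
    have h6 := linearIndependent_iff'.1 b.linearIndependent c.support
      (fun i => MvPolynomial.coeff m (p i)) h4 i hi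
    rw [h6, MvPolynomial.coeff_zero]
  ext i
  by_cases hi : i ∈ c.support
  · have h7 := hp2 i hi
    rw [hp0 i hi, map_zero, Algebra.smul_def] at h7
    have hu : IsUnit (algebraMap (MvPolynomial (Fin (n + 1)) F)
        (Localization (Submonoid.powers s)) (s ^ N)) :=
      IsLocalization.map_units _ (⟨s ^ N, N, rfl⟩ : Submonoid.powers s)
    rw [Finsupp.coe_zero, Pi.zero_apply, HomogeneousLocalization.val_zero]
    exact (hu.mul_right_eq_zero.1 h7.symm)
  · rw [Finsupp.notMem_support_iff.1 hi]
    rfl

theorem dproj_surj (s : MvPolynomial (Fin (n + 1)) F) {d : ℕ}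
    (hs : s ∈ MvPolynomial.homogeneousSubmodule (Fin (n + 1)) F d) {ι : Type}
    (b : Module.Basis ι F k)
    (q : Away (MvPolynomial.homogeneousSubmodule (Fin (n + 1)) k) (dprojHom F k n s)) :
    ∃ c : ι →₀ Away (MvPolynomial.homogeneousSubmodule (Fin (n + 1)) F) s,
      (c.sum fun i a => Away.map (dprojHom F k n) s a *
        dprojScal n k (dprojHom F k n s) (b i)) = q := by
  classical
  let Θ : (ι →₀ Away (MvPolynomial.homogeneousSubmodule (Fin (n + 1)) F) s) →+
      Away (MvPolynomial.homogeneousSubmodule (Fin (n + 1)) k) (dprojHom F k n s) :=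
    Finsupp.liftAddHom fun i => (AddMonoidHom.mulRight
      (dprojScal n k (dprojHom F k n s) (b i))).comp
        (Away.map (dprojHom F k n) s).toAddMonoidHom
  change q ∈ AddMonoidHom.mrange Θ
  have hscal : ∀ r : F, dprojScal n k (dprojHom F k n s) (algebraMap F k r) =
      Away.map (dprojHom F k n) s (dprojScal n F s r) := by
    intro r
    apply HomogeneousLocalization.val_injective
    rw [dproj_val_map F k n s hs (dproj_le F k n s), dprojScal_val, dprojScal_val,
      IsLocalization.map_eq, MvPolynomial.map_C]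
  have hmem : ∀ (a : Away (MvPolynomial.homogeneousSubmodule (Fin (n + 1)) F) s) (x : k),
      Away.map (dprojHom F k n) s a * dprojScal n k (dprojHom F k n s) x ∈
        AddMonoidHom.mrange Θ := by
    intro a x
    rw [← b.linearCombination_repr x, Finsupp.linearCombination_apply, Finsupp.sum, map_sum,
      Finset.mul_sum]
    refine sum_mem fun i _ => ?_
    refine ⟨Finsupp.single i (a * dprojScal n F s (b.repr x i)), ?_⟩
    simp only [Θ, Finsupp.liftAddHom_apply_single]
    change Away.map (dprojHom F k n) s (a * dprojScal n F s (b.repr x i)) *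
      dprojScal n k (dprojHom F k n s) (b i) = _
    rw [map_mul, ← hscal, Algebra.smul_def, map_mul, mul_assoc]
  obtain ⟨m, P, hP, rfl⟩ := Away.mk_surjective _
    (show dprojHom F k n s ∈ MvPolynomial.homogeneousSubmodule (Fin (n + 1)) k d from
      (dprojHom F k n).map_mem hs) q
  have hmon : ∀ e ∈ P.support, MvPolynomial.monomial e (1 : F) ∈
      MvPolynomial.homogeneousSubmodule (Fin (n + 1)) F (m • d) := by
    intro e he
    rw [MvPolynomial.mem_homogeneousSubmodule]
    apply MvPolynomial.isHomogeneous_monomial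
    rw [Finsupp.degree_eq_weight_one]
    exact (MvPolynomial.mem_homogeneousSubmodule _ _).1 hP (MvPolynomial.mem_support_iff.1 he)
  have hsum : Away.mk _ ((dprojHom F k n).map_mem hs) m P hP =
      ∑ e ∈ P.support.attach, Away.map (dprojHom F k n) s
        (Away.mk _ hs m (MvPolynomial.monomial e.1 1) (hmon e.1 e.2)) *
        dprojScal n k (dprojHom F k n s) (MvPolynomial.coeff e.1 P) := by
    apply HomogeneousLocalization.val_injective
    have h1 : (∑ e ∈ P.support.attach, Away.map (dprojHom F k n) s
        (Away.mk _ hs m (MvPolynomial.monomial e.1 1) (hmon e.1 e.2)) *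
        dprojScal n k (dprojHom F k n s) (MvPolynomial.coeff e.1 P)).val =
        ∑ e ∈ P.support.attach, (Away.map (dprojHom F k n) s
        (Away.mk _ hs m (MvPolynomial.monomial e.1 1) (hmon e.1 e.2)) *
        dprojScal n k (dprojHom F k n s) (MvPolynomial.coeff e.1 P)).val :=
      map_sum (algebraMap (Away (MvPolynomial.homogeneousSubmodule (Fin (n + 1)) k)
        (dprojHom F k n s)) (Localization (Submonoid.powers (dprojHom F k n s)))) _ _
    rw [h1, Away.val_mk]
    have h2 : ∀ e : P.support, (Away.map (dprojHom F k n) s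
        (Away.mk _ hs m (MvPolynomial.monomial e.1 1) (hmon e.1 e.2)) *
        dprojScal n k (dprojHom F k n s) (MvPolynomial.coeff e.1 P)).val =
        algebraMap (MvPolynomial (Fin (n + 1)) k) _
          (MvPolynomial.monomial e.1 (MvPolynomial.coeff e.1 P)) *
        Localization.mk 1 (⟨dprojHom F k n s ^ m, m, rfl⟩ :
          Submonoid.powers (dprojHom F k n s)) := by
      intro e
      rw [HomogeneousLocalization.val_mul, Away.map_mk, Away.val_mk, dprojScal_val,
        dprojHom_apply F k n (MvPolynomial.monomial e.1 1), MvPolynomial.map_monomial, map_one,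
        ← Localization.mk_one_eq_algebraMap, ← Localization.mk_one_eq_algebraMap,
        Localization.mk_mul, Localization.mk_mul, mul_one, one_mul, mul_one, mul_comm,
        MvPolynomial.C_mul_monomial, mul_one]
    rw [Finset.sum_congr rfl fun e _ => h2 e, ← Finset.sum_mul,
      Finset.sum_attach P.support fun e => algebraMap (MvPolynomial (Fin (n + 1)) k)
        (Localization (Submonoid.powers (dprojHom F k n s)))
          (MvPolynomial.monomial e (MvPolynomial.coeff e P)), ← map_sum,
      MvPolynomial.support_sum_monomial_coeff, ← Localization.mk_one_eq_algebraMap,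
      Localization.mk_mul, mul_one, one_mul]
    rfl
  rw [hsum]
  exact sum_mem fun e _ => hmem _ _

theorem dproj_irrelevant (L : Type) [Field L] :
    (HomogeneousIdeal.irrelevant (MvPolynomial.homogeneousSubmodule (Fin (n + 1)) L)).toIdeal ≤
      Ideal.span (Set.range fun j : Fin (n + 1) => (MvPolynomial.X j : MvPolynomial _ L)) := by
  refine (HomogeneousIdeal.toIdeal_irrelevant_le _).2 fun i hi x hx => ?_
  have h1 : (Set.range fun j : Fin (n + 1) => (MvPolynomial.X j : MvPolynomial _ L)) =
      MvPolynomial.X '' Set.univ := Set.image_univ.symm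
  rw [h1]
  change x ∈ Ideal.span (MvPolynomial.X '' Set.univ)
  rw [MvPolynomial.mem_ideal_span_X_image]
  intro m hm
  by_contra hcon
  push Not at hcon
  have h2 := (MvPolynomial.mem_homogeneousSubmodule _ _).1 hx (MvPolynomial.mem_support_iff.1 hm)
  have h3 : m = 0 := by
    ext j
    exact hcon j (Set.mem_univ j)
  rw [h3, map_zero] at h2
  omega

theorem dproj_hf : HomogeneousIdeal.irrelevant (MvPolynomial.homogeneousSubmodule (Fin (n + 1)) k)
    ≤ (HomogeneousIdeal.irrelevant (MvPolynomial.homogeneousSubmodule (Fin (n + 1)) F)).map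
      (dprojHom F k n) := by
  change (HomogeneousIdeal.irrelevant
    (MvPolynomial.homogeneousSubmodule (Fin (n + 1)) k)).toIdeal ≤ _
  refine (dproj_irrelevant n k).trans ?_
  rw [Ideal.span_le]
  rintro _ ⟨j, rfl⟩
  have h1 : (MvPolynomial.X j : MvPolynomial (Fin (n + 1)) F) ∈
      HomogeneousIdeal.irrelevant (MvPolynomial.homogeneousSubmodule (Fin (n + 1)) F) :=
    HomogeneousIdeal.mem_irrelevant_of_mem _ (i := 1) one_pos
      ((MvPolynomial.mem_homogeneousSubmodule _ _).2 (MvPolynomial.isHomogeneous_X _ _))
  have h2 := Ideal.mem_map_of_mem (dprojHom F k n) h1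
  rw [dprojHom_apply, MvPolynomial.map_X] at h2
  exact h2

theorem dproj_scal_surj (L : Type) [Field L] : Function.Surjective
    (algebraMap L (MvPolynomial.homogeneousSubmodule (Fin (n + 1)) L 0)) := by
  rintro ⟨x, hx⟩
  rw [MvPolynomial.mem_homogeneousSubmodule, ← MvPolynomial.totalDegree_zero_iff_isHomogeneous,
    MvPolynomial.totalDegree_eq_zero_iff_eq_C] at hx
  exact ⟨_, Subtype.ext hx.symm⟩

/-- The structure morphism of projective space. -/
noncomputable def dprojStr (L : Type) [Field L] : PN L n ⟶ Spec (CommRingCat.of L) :=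
  Proj.toSpecZero (MvPolynomial.homogeneousSubmodule (Fin (n + 1)) L) ≫
    Spec.map (CommRingCat.ofHom
      (algebraMap L (MvPolynomial.homogeneousSubmodule (Fin (n + 1)) L 0)))

theorem dprojStr_props (L : Type) [Field L] : LocallyOfFiniteType (dprojStr n L) ∧
    QuasiCompact (dprojStr n L) ∧ IsSeparated (dprojStr n L) := by
  have : IsScalarTower L (MvPolynomial.homogeneousSubmodule (Fin (n + 1)) L 0)
      (MvPolynomial (Fin (n + 1)) L) := by
    refine IsScalarTower.of_algebraMap_eq (R := L)
      (S := MvPolynomial.homogeneousSubmodule (Fin (n + 1)) L 0)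
      (A := MvPolynomial (Fin (n + 1)) L) fun x => ?_
    rfl
  have : Algebra.FiniteType (MvPolynomial.homogeneousSubmodule (Fin (n + 1)) L 0)
      (MvPolynomial (Fin (n + 1)) L) :=
    Algebra.FiniteType.of_restrictScalars_finiteType L _ _
  have h1 : LocallyOfFiniteType (Spec.map (CommRingCat.ofHom
      (algebraMap L (MvPolynomial.homogeneousSubmodule (Fin (n + 1)) L 0)))) := by
    rw [HasRingHomProperty.Spec_iff (P := @LocallyOfFiniteType)]
    exact RingHom.FiniteType.of_surjective _ (dproj_scal_surj n L)
  unfold dprojStr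
  exact ⟨inferInstance, inferInstance, inferInstance⟩

theorem dproj_away_str (L : Type) [Field L] (s : MvPolynomial (Fin (n + 1)) L) {d : ℕ}
    (hs : s ∈ MvPolynomial.homogeneousSubmodule (Fin (n + 1)) L d) (hd : 0 < d) :
    Proj.awayι (MvPolynomial.homogeneousSubmodule (Fin (n + 1)) L) s hs hd ≫ dprojStr n L =
      Spec.map (CommRingCat.ofHom (dprojScal n L s)) := by
  rw [dprojStr, Proj.awayι_toSpecZero_assoc, ← Spec.map_comp]
  rfl

theorem dproj_scal_comp (s : MvPolynomial (Fin (n + 1)) F) {d : ℕ}
    (hs : s ∈ MvPolynomial.homogeneousSubmodule (Fin (n + 1)) F d) :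
    (dprojScal n k (dprojHom F k n s)).comp (algebraMap F k) =
      (Away.map (dprojHom F k n) s).comp (dprojScal n F s) := by
  ext r
  rw [RingHom.comp_apply, RingHom.comp_apply, dproj_val_map F k n s hs (dproj_le F k n s),
    dprojScal_val, dprojScal_val, IsLocalization.map_eq, MvPolynomial.map_C]

/-- The square of the charts is cartesian. -/
theorem dproj_chart (s : MvPolynomial (Fin (n + 1)) F) (hs0 : s ≠ 0) {d : ℕ}
    (hs : s ∈ MvPolynomial.homogeneousSubmodule (Fin (n + 1)) F d) :
    IsPullback (Spec.map (CommRingCat.ofHom (Away.map (dprojHom F k n) s)))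
      (Spec.map (CommRingCat.ofHom (dprojScal n k (dprojHom F k n s))))
      (Spec.map (CommRingCat.ofHom (dprojScal n F s)))
      (Spec.map (CommRingCat.ofHom (algebraMap F k))) :=
  isPullback_SpecMap_of_isPushout _ _ _ _
    (dproj_isPushout (dprojScal n F s) (dprojScal n k (dprojHom F k n s))
      (Away.map (dprojHom F k n) s) (dproj_scal_comp F k n s hs)
      (Module.Basis.ofVectorSpace F k) (dproj_inj F k n s hs0 hs _) (dproj_surj F k n s hs _))

end charts

theorem proj_baseChange (F k : Type) [Field F] [Field k] [Algebra F k] (n : ℕ) :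
    ∃ (q : PN k n ⟶ PN F n) (s : PN F n ⟶ Spec (CommRingCat.of F))
      (s' : PN k n ⟶ Spec (CommRingCat.of k)),
      IsPullback q s' s (Spec.map (CommRingCat.ofHom (algebraMap F k))) ∧
      LocallyOfFiniteType s ∧ QuasiCompact s ∧ IsSeparated s ∧
      LocallyOfFiniteType s' ∧ QuasiCompact s' := by
  have hX : ∀ j : Fin (n + 1), (MvPolynomial.X j : MvPolynomial (Fin (n + 1)) F) ∈
      MvPolynomial.homogeneousSubmodule (Fin (n + 1)) F 1 := fun j =>
    (MvPolynomial.mem_homogeneousSubmodule _ _).2 (MvPolynomial.isHomogeneous_X _ _)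
  let q : PN k n ⟶ PN F n := Proj.map (dprojHom F k n) (dproj_hf F k n)
  have hq : ∀ j : Fin (n + 1), Proj.awayι (MvPolynomial.homogeneousSubmodule (Fin (n + 1)) k)
      (dprojHom F k n (MvPolynomial.X j)) ((dprojHom F k n).map_mem (hX j)) one_pos ≫ q =
      Spec.map (CommRingCat.ofHom (HomogeneousLocalization.Away.map (dprojHom F k n)
        (MvPolynomial.X j))) ≫
        Proj.awayι (MvPolynomial.homogeneousSubmodule (Fin (n + 1)) F) (MvPolynomial.X j) (hX j)
          one_pos := fun j =>
    Proj.awayι_comp_map (dprojHom F k n) (dproj_hf F k n) one_pos _ (hX j)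
  let 𝒰 : (PN F n).AffineOpenCover := Proj.affineOpenCoverOfIrrelevantLESpan
    (MvPolynomial.homogeneousSubmodule (Fin (n + 1)) F)
    (fun j : Fin (n + 1) => (MvPolynomial.X j : MvPolynomial (Fin (n + 1)) F))
    (m := fun _ => 1) hX (fun _ => one_pos) (dproj_irrelevant n F)
  let 𝒱 : (PN k n).AffineOpenCover := Proj.affineOpenCoverOfIrrelevantLESpan
    (MvPolynomial.homogeneousSubmodule (Fin (n + 1)) k)
    (fun j : Fin (n + 1) => dprojHom F k n (MvPolynomial.X j))
    (m := fun _ => 1) (fun j => (dprojHom F k n).map_mem (hX j)) (fun _ => one_pos) (by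
      simpa [dprojHom_apply] using dproj_irrelevant n k)
  have w : q ≫ dprojStr n F = dprojStr n k ≫ Spec.map (CommRingCat.ofHom (algebraMap F k)) := by
    refine 𝒱.openCover.hom_ext _ _ fun j => ?_
    change Proj.awayι (MvPolynomial.homogeneousSubmodule (Fin (n + 1)) k)
      (dprojHom F k n (MvPolynomial.X j)) ((dprojHom F k n).map_mem (hX j)) one_pos ≫ q ≫ _ =
      Proj.awayι (MvPolynomial.homogeneousSubmodule (Fin (n + 1)) k)
      (dprojHom F k n (MvPolynomial.X j)) ((dprojHom F k n).map_mem (hX j)) one_pos ≫ _ ≫ _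
    rw [← Category.assoc, hq j, Category.assoc, dproj_away_str, ← Category.assoc,
      dproj_away_str]
    exact (dproj_chart F k n (MvPolynomial.X j) (MvPolynomial.X_ne_zero j) (hX j)).w
  obtain ⟨hF1, hF2, hF3⟩ := dprojStr_props n F
  obtain ⟨hk1, hk2, -⟩ := dprojStr_props n k
  refine ⟨q, dprojStr n F, dprojStr n k, ?_, hF1, hF2, hF3, hk1, hk2⟩
  refine dproj_isPullback_of_cover w 𝒰.openCover
    (fun j => Spec (CommRingCat.of (HomogeneousLocalization.Away
      (MvPolynomial.homogeneousSubmodule (Fin (n + 1)) k)
      (dprojHom F k n (MvPolynomial.X j)))))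
    (fun j => Proj.awayι (MvPolynomial.homogeneousSubmodule (Fin (n + 1)) k)
      (dprojHom F k n (MvPolynomial.X j)) ((dprojHom F k n).map_mem (hX j)) one_pos)
    (fun j => Spec.map (CommRingCat.ofHom (HomogeneousLocalization.Away.map (dprojHom F k n)
        (MvPolynomial.X j)))) ?_ ?_
  · intro (j : Fin (n + 1))
    refine (IsOpenImmersion.isPullback _ _ _ _ (hq j) ?_).flip
    rw [Proj.opensRange_awayι, Proj.opensRange_awayι]
    rfl
  · intro (j : Fin (n + 1))
    change IsPullback _ (Proj.awayι (MvPolynomial.homogeneousSubmodule (Fin (n + 1)) k)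
      (dprojHom F k n (MvPolynomial.X j)) ((dprojHom F k n).map_mem (hX j)) one_pos ≫
        dprojStr n k) (Proj.awayι (MvPolynomial.homogeneousSubmodule (Fin (n + 1)) F)
        (MvPolynomial.X j) (hX j) one_pos ≫ dprojStr n F) _
    rw [dproj_away_str, dproj_away_str]
    exact dproj_chart F k n (MvPolynomial.X j) (MvPolynomial.X_ne_zero j) (hX j)

end Pool.Agent.K1
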