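import Pool.Agent.K1.DDim
import Pool.Agent.K1.Forms
import Pool.Agent.K1.SchemeOf

/-!
# Pull back of chains, tame chains, orders and pull back

`exists_pull`: every chain has a pull back.  `exists_tame_chain`: the tame symbols of two rational
functions form a chain.  `ord_pull`: the order of a rational function is the order of its pull
back.
-/

set_option autoImplicit false

open AlgebraicGeometry CategoryTheory

namespace Pool.Agent.K1

/-! ### Pull back of chains -/

theorem dpull_fibre_finite {Y X : Scheme.{0}} [IsIntegral Y] [IsIntegral X] [IsNoetherian Y]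
    {π : Y ⟶ X} (P : ProEt π) (x : X) (hx : Order.coheight x = 1) :
    {y : PointOne Y | π y.1 = x}.Finite := by
  have hcl : IsOpen ((closure {x} : Set X)ᶜ) := isClosed_closure.isOpen_compl
  let U : X.Opens := ⟨(closure {x} : Set X)ᶜ, hcl⟩
  have hgen : genericPoint Y ∈ π ⁻¹ᵁ U := by
    change ¬ π (genericPoint Y) ∈ closure {x}
    intro h
    have h1 : x ⤳ π (genericPoint Y) := specializes_iff_mem_closure.2 h
    have h2 : Order.coheight x ≤ Order.coheight (π (genericPoint Y)) :=
      Order.coheight_anti (Scheme.le_iff_specializes.2 h1)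
    rw [coheight_pi P, hx] at h2
    have h3 : Order.coheight (genericPoint Y) = 0 := by
      rw [Order.coheight_eq_zero]
      intro z _
      exact Scheme.le_iff_specializes.2 (genericPoint_specializes z)
    rw [h3] at h2
    exact absurd h2 (by decide)
  refine (forms_finite_compl (π ⁻¹ᵁ U) hgen).subset ?_
  intro y hy hyU
  have h1 : ¬ π y.1 ∈ closure {x} := hyU
  have h2 : π y.1 = x := hy
  rw [h2] at h1
  exact h1 (subset_closure rfl)

theorem exists_pull {Y X : Scheme.{0}} [IsIntegral Y] [IsIntegral X] [IsNoetherian Y]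
    {π : Y ⟶ X} (P : ProEt π) (ξ : SChain X) : ∃ η : SChain Y, IsPull π ξ η := by
  classical
  have hfin : (⋃ x ∈ ξ.support, {y : PointOne Y | π y.1 = x.1}).Finite :=
    Set.Finite.biUnion ξ.support.finite_toSet fun x _ => dpull_fibre_finite P x.1 x.2
  let F : ∀ y : PointOne Y, Additive (Y.residueField y.1)ˣ := fun y =>
    if h : Order.coheight (π y.1) = 1 then
      Additive.ofMul (Units.map (π.residueFieldMap y.1).hom.toMonoidHom
        (Additive.toMul (ξ ⟨π y.1, h⟩)))
    else 0
  refine ⟨DFinsupp.mk hfin.toFinset fun y => F y.1, ?_⟩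
  intro y h
  rw [DFinsupp.mk_apply]
  split_ifs with hy
  · have h1 : F y = Additive.ofMul (Units.map (π.residueFieldMap y.1).hom.toMonoidHom
        (Additive.toMul (ξ ⟨π y.1, h⟩))) := dif_pos h
    change Additive.toMul (F y) = _
    rw [h1]
    rfl
  · have h2 : ξ ⟨π y.1, h⟩ = 0 := by
      by_contra hne
      apply hy
      rw [Set.Finite.mem_toFinset, Set.mem_iUnion₂]
      exact ⟨⟨π y.1, h⟩, by rw [DFinsupp.mem_support_iff]; exact hne, rfl⟩
    rw [h2, toMul_zero, toMul_zero]
    exact (map_one _).symm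

/-! ### Orders -/

section order

variable {X : Scheme.{0}} [IsIntegral X] [IsLocallyNoetherian X]

theorem dpull_ord_zpow (x : X) {f : X.functionField} (hf : f ≠ 0) (n : ℤ) :
    X.ord (f ^ n) x = n * X.ord f x := by
  induction n using Int.induction_on with
  | zero =>
    have h := so_ord_unit x (1 : (X.presheaf.stalk x)ˣ)
    rw [Units.val_one, map_one] at h
    rw [zpow_zero, h, zero_mul]
  | succ n ih =>
    rw [zpow_add₀ hf, zpow_one, Scheme.ord_mul (zpow_ne_zero _ hf) hf, ih]
    ring
  | pred n ih =>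
    rw [zpow_sub₀ hf, zpow_one, so_ord_div x (zpow_ne_zero _ hf) hf, ih]
    ring

theorem dpull_assoc (x : X) (hx : Order.coheight x = 1)
    (hreg : IsRegularLocalRing (X.presheaf.stalk x)) {f g : X.functionField} (hf : f ≠ 0)
    (hg : g ≠ 0) (h : X.ord f x = X.ord g x) :
    ∃ u : (X.presheaf.stalk x)ˣ,
      g = f * algebraMap (X.presheaf.stalk x) X.functionField u := by
  have := so_dvr_stalk x hx hreg
  have h1 : X.ordHom x hx f = X.ordHom x hx g := by
    rw [(Scheme.ord_eq_iff hx hf).1 h, ← (Scheme.ord_eq_iff hx hg).1 rfl]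
  obtain ⟨u, hu⟩ := Ring.associated_of_ordFrac_eq (R := X.presheaf.stalk x) f g h1
  refine ⟨u, ?_⟩
  rw [← hu, Units.smul_def, Algebra.smul_def, mul_comm]

theorem dpull_ord_irr (x : X) (hx : Order.coheight x = 1)
    (hreg : IsRegularLocalRing (X.presheaf.stalk x)) {ϖ : X.presheaf.stalk x}
    (h : Irreducible ϖ) : X.ord (algebraMap (X.presheaf.stalk x) X.functionField ϖ) x = 1 := by
  have := so_dvr_stalk x hx hreg
  have h0 : algebraMap (X.presheaf.stalk x) X.functionField ϖ ≠ 0 := by
    intro h1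
    exact h.ne_zero ((map_eq_zero_iff _
      (IsFractionRing.injective (X.presheaf.stalk x) X.functionField)).1 h1)
  rw [Scheme.ord_eq_iff hx h0]
  exact Ring.ordFrac_irreducible h

theorem dpull_ord_finite {X : Scheme.{0}} [IsIntegral X] [IsNoetherian X] (f : X.functionField)
    (hf : f ≠ 0) : {x : PointOne X | X.ord f x.1 ≠ 0}.Finite := by
  obtain ⟨U, hU, s, hs⟩ := X.presheaf.exists_germ_eq f
  have hgen : genericPoint X ∈ X.basicOpen s := by
    rw [Scheme.mem_basicOpen _ _ _ hU]
    rw [hs]
    exact IsUnit.mk0 (G₀ := X.functionField) f hf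
  refine (forms_finite_compl (X.basicOpen s) hgen).subset ?_
  intro x hx hxU
  apply hx
  have hxU' : x.1 ∈ U := X.basicOpen_le s hxU
  have hunit : IsUnit ((X.presheaf.germ U x.1 hxU').hom s) := by
    rw [← Scheme.mem_basicOpen _ _ _ hxU']
    exact hxU
  obtain ⟨u, hu⟩ := hunit
  have h1 : algebraMap (X.presheaf.stalk x.1) X.functionField u = f := by
    rw [hu]
    have : Nonempty U := ⟨⟨x.1, hxU'⟩⟩
    have h2 := Scheme.algebraMap_germ_eq_germToFunctionField X hxU' s
    refine h2.trans ?_
    exact hs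
  rw [← h1]
  exact so_ord_unit x.1 u

end order

/-! ### Tame chains -/

theorem exists_tame_chain {X : Scheme.{0}} [IsIntegral X] [IsNoetherian X]
    (hreg : ∀ x : X, IsRegularLocalRing (X.presheaf.stalk x)) (f g : X.functionField)
    (hf : f ≠ 0) (hg : g ≠ 0) :
    ∃ τ : SChain X, ∀ x : PointOne X, IsTameAt x.1 f g (Additive.toMul (τ x)) := by
  classical
  have key : ∀ x : PointOne X, ∃ t : (X.residueField x.1)ˣ, IsTameAt x.1 f g t := by
    intro x
    have hneg : (-1 : X.functionField) ≠ 0 := neg_ne_zero.2 one_ne_zero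
    have h0 : X.ord (-1 : X.functionField) x.1 = 0 := by
      have h := so_ord_unit x.1 (-1 : (X.presheaf.stalk x.1)ˣ)
      rw [Units.val_neg, Units.val_one, map_neg, map_one] at h
      exact h
    obtain ⟨u, hu⟩ := dpull_assoc x.1 x.2 (hreg x.1)
      (f := (-1) ^ (X.ord f x.1 * X.ord g x.1) * g ^ (X.ord f x.1)) (g := f ^ (X.ord g x.1))
      (mul_ne_zero (zpow_ne_zero _ hneg) (zpow_ne_zero _ hg)) (zpow_ne_zero _ hf) (by
        rw [Scheme.ord_mul (zpow_ne_zero _ hneg) (zpow_ne_zero _ hg),
          dpull_ord_zpow _ hneg, dpull_ord_zpow _ hg, dpull_ord_zpow _ hf, h0]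
        ring)
    exact ⟨Units.map (X.residue x.1).hom.toMonoidHom u, u, hu, rfl⟩
  choose t ht using key
  have hfin : {x : PointOne X | X.ord f x.1 ≠ 0 ∨ X.ord g x.1 ≠ 0}.Finite :=
    (dpull_ord_finite f hf).union (dpull_ord_finite g hg)
  refine ⟨DFinsupp.mk hfin.toFinset fun x => Additive.ofMul (t x.1), ?_⟩
  intro x
  rw [DFinsupp.mk_apply]
  split_ifs with hx
  · exact ht x
  · rw [Set.Finite.mem_toFinset] at hx
    have h1 : X.ord f x.1 = 0 := by
      by_contra h
      exact hx (Or.inl h)
    have h2 : X.ord g x.1 = 0 := by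
      by_contra h
      exact hx (Or.inr h)
    refine ⟨1, ?_, ?_⟩
    · rw [h1, h2, zpow_zero, mul_zero, zpow_zero, zpow_zero, Units.val_one, map_one, mul_one,
        mul_one]
    · rw [Units.val_one, map_one, toMul_zero, Units.val_one]

/-- The same theorem under the name used in other files. -/
theorem exists_tame_scheme {X : Scheme.{0}} [IsIntegral X] [IsNoetherian X]
    (hreg : ∀ x : X, IsRegularLocalRing (X.presheaf.stalk x)) (f g : X.functionField)
    (hf : f ≠ 0) (hg : g ≠ 0) :
    ∃ τ : SChain X, ∀ x : PointOne X, IsTameAt x.1 f g (Additive.toMul (τ x)) :=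
  exists_tame_chain hreg f g hf hg

/-! ### Orders and pull back -/

theorem ord_pull {Y X : Scheme.{0}} [IsIntegral Y] [IsIntegral X] [IsLocallyNoetherian Y]
    [IsLocallyNoetherian X] {π : Y ⟶ X} (P : ProEt π)
    (hX : ∀ x : X, IsRegularLocalRing (X.presheaf.stalk x))
    (hY : ∀ y : Y, IsRegularLocalRing (Y.presheaf.stalk y))
    (y : Y) (hy : Order.coheight y = 1) (f : X.functionField) (hf : f ≠ 0) :
    Y.ord (P.ψ f) y = X.ord f (π y) := by
  have hx : Order.coheight (π y) = 1 := by rw [coheight_pi P, hy]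
  have hdx := so_dvr_stalk (π y) hx (hX (π y))
  have hdy := so_dvr_stalk y hy (hY y)
  obtain ⟨ϖ, hϖ⟩ := IsDiscreteValuationRing.exists_irreducible (X.presheaf.stalk (π y))
  have hϖ' : Irreducible ((π.stalkMap y).hom ϖ) := by
    rw [IsDiscreteValuationRing.irreducible_iff_uniformizer, ← P.unram y,
      (IsDiscreteValuationRing.irreducible_iff_uniformizer ϖ).1 hϖ, Ideal.map_span,
      Set.image_singleton]
  have h0 : algebraMap (X.presheaf.stalk (π y)) X.functionField ϖ ≠ 0 := by
    intro h1
    exact hϖ.ne_zero ((map_eq_zero_iff _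
      (IsFractionRing.injective (X.presheaf.stalk (π y)) X.functionField)).1 h1)
  have h1 := dpull_ord_irr (π y) hx (hX (π y)) hϖ
  have h1' := dpull_ord_irr y hy (hY y) hϖ'
  obtain ⟨u, hu⟩ := dpull_assoc (π y) hx (hX (π y))
    (f := algebraMap (X.presheaf.stalk (π y)) X.functionField ϖ ^ (X.ord f (π y))) (g := f)
    (zpow_ne_zero _ h0) hf (by rw [dpull_ord_zpow _ h0, h1, mul_one])
  have h2 : P.ψ f = (algebraMap (Y.presheaf.stalk y) Y.functionField
      ((π.stalkMap y).hom ϖ)) ^ (X.ord f (π y)) *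
      algebraMap (Y.presheaf.stalk y) Y.functionField
        (Units.map (π.stalkMap y).hom.toMonoidHom u : (Y.presheaf.stalk y)ˣ) := by
    have h3 := congrArg P.ψ hu
    rw [map_mul, map_zpow₀, P.ψ_stalk y, P.ψ_stalk y] at h3
    exact h3
  have h0' : algebraMap (Y.presheaf.stalk y) Y.functionField ((π.stalkMap y).hom ϖ) ≠ 0 := by
    intro h3
    exact hϖ'.ne_zero ((map_eq_zero_iff _
      (IsFractionRing.injective (Y.presheaf.stalk y) Y.functionField)).1 h3)
  have h4 : algebraMap (Y.presheaf.stalk y) Y.functionField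
      (Units.map (π.stalkMap y).hom.toMonoidHom u : (Y.presheaf.stalk y)ˣ) ≠ 0 :=
    ((Units.map (π.stalkMap y).hom.toMonoidHom u).isUnit.map _).ne_zero
  rw [h2, Scheme.ord_mul (zpow_ne_zero _ h0') h4, dpull_ord_zpow _ h0', h1', mul_one,
    so_ord_unit, add_zero]

end Pool.Agent.K1
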