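import Pool.Agent.K1.Bridge

/-!
The properties of the symbol of a functional which kills only the relative tame symbols
`{a/b, g}`, `a`, `b` in a class `V` of curves.
-/

set_option autoImplicit false

namespace Pool.Agent.K1

/-- The properties, for a class `V` of curves, of the symbol of a functional which kills the
tame symbols `{a/b, g}`, `a`, `b` in `V`. -/
structure IsSymbOn {A : Type*} [CommRing A] (V : Set A) (Λ : A → A → ℚ) : Prop where
  symm : ∀ a ∈ V, ∀ b ∈ V, Cop a b → Λ a b = Λ b a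
  rel : ∀ a ∈ V, ∀ b ∈ V, ∀ q, Cop a q → Cop b q → Λ a q - Λ b q = Λ q a - Λ q b
  mul : ∀ f g h, Cop f g → Cop f h → Λ f (g * h) = Λ f g + Λ f h
  add : ∀ f g r, Cop f g → Cop f (g + f * r) → Λ f (g + f * r) = Λ f g

theorem IsSymb.isSymbOn {A : Type*} [CommRing A] {Λ : A → A → ℚ} (h : IsSymb Λ) (V : Set A) :
    IsSymbOn V Λ :=
  ⟨fun a _ b _ c => h.symm a b c, fun a _ b _ q ca cb => by rw [h.symm a q ca, h.symm b q cb],
    h.mul, h.add⟩

theorem IsSymbOn.mono {A : Type*} [CommRing A] {Λ : A → A → ℚ} {V W : Set A}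
    (h : IsSymbOn W Λ) (hVW : V ⊆ W) : IsSymbOn V Λ :=
  ⟨fun a ha b hb c => h.symm a (hVW ha) b (hVW hb) c,
    fun a ha b hb q ca cb => h.rel a (hVW ha) b (hVW hb) q ca cb, h.mul, h.add⟩

/-- The symbol gives a functional on the curves of the class. -/
theorem curveFun_of_isSymbOn {A : Type} [CommRing A] [IsDomain A] (V : Set A) (Λ : A → A → ℚ)
    (hΛ : IsSymbOn V Λ) (hV : ∀ d ∈ V, Prime d) : CurveFun V Λ := by
  refine ⟨?_, ?_, ?_⟩
  · intro d hd f g hf hg
    exact hΛ.mul d f g (cop_of_prime_not_mem d f (hV d hd) hf)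
      (cop_of_prime_not_mem d g (hV d hd) hg)
  · intro d hd f g hf hfg
    obtain ⟨r, hr⟩ := Ideal.mem_span_singleton'.1 hfg
    have hg : g ∉ Ideal.span {d} := by
      intro hg
      apply hf
      have := Ideal.add_mem _ hfg hg
      simpa using this
    have hfe : f = g + d * r := by
      rw [mul_comm d r, hr]; ring
    have h1 := hΛ.add d g r (cop_of_prime_not_mem d g (hV d hd) hg)
      (hfe ▸ cop_of_prime_not_mem d f (hV d hd) hf)
    rw [← hfe] at h1
    exact h1
  · intro d hd d' hd' g hg hg' hdd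
    obtain ⟨r, hr⟩ := Ideal.mem_span_singleton'.1 hdd
    have hde : d = d' + g * r := by
      rw [mul_comm g r, hr]; ring
    have c1 := cop_of_prime_not_mem d g (hV d hd) hg
    have c2 := cop_of_prime_not_mem d' g (hV d' hd') hg'
    have h1 := hΛ.add g d' r (cop_symm' c2) (hde ▸ cop_symm' c1)
    rw [← hde] at h1
    have h2 := hΛ.rel d hd d' hd' g c1 c2
    rw [h1, sub_self, sub_eq_zero] at h2
    exact h2

end Pool.Agent.K1
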