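import Mathlib

/-!
K1-B3: a nonzero derivation over `k[s]` of a domain of finite type and of dimension at least two.
-/

set_option autoImplicit false

namespace Pool.Agent.K1

namespace DerivAlt

/-- a function field of transcendence degree at least two has a derivation over `k(s)` -/
theorem exists_deriv_field {k K : Type} [Field k] [Field K] [Algebra k K]
    [Algebra.EssFiniteType k K] (s u : K) (hu : AlgebraicIndependent k ![s, u]) :
    ∃ D : Derivation k K K, D s = 0 ∧ D ≠ 0 := by
  classical
  let F : IntermediateField k K := IntermediateField.adjoin k {s}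
  have : Algebra.EssFiniteType F K := Algebra.EssFiniteType.of_comp k F K
  have hnu : ¬ Algebra.FormallyUnramified F K := by
    intro h
    have hsep := Algebra.FormallyUnramified.isSeparable F K
    have h1 : IsAlgebraic F u := (Algebra.IsSeparable.isIntegral F u).isAlgebraic
    have h2 : Transcendental (Algebra.adjoin k (![s, u] '' {0})) (![s, u] 1) :=
      hu.transcendental_adjoin (by simp)
    have h3 : (![s, u] '' {0} : Set K) = {s} := by simp
    rw [h3] at h2
    open scoped IntermediateField.algebraAdjoinAdjoin in
    exact h2 ((IsFractionRing.isAlgebraic_iff (Algebra.adjoin k {s}) F K).2 h1)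
  rw [Algebra.formallyUnramified_iff, not_subsingleton_iff_nontrivial] at hnu
  obtain ⟨ω, hω⟩ := exists_ne (0 : Ω[K⁄F])
  obtain ⟨ℓ, hℓ⟩ : ∃ ℓ : Module.Dual K Ω[K⁄F], ℓ ω ≠ 0 := by
    by_contra hcon
    push Not at hcon
    exact hω ((Module.forall_dual_apply_eq_zero_iff K ω).1 hcon)
  have hℓ0 : ℓ ≠ 0 := by
    rintro rfl
    exact hℓ rfl
  let D₁ : Derivation F K K := KaehlerDifferential.linearMapEquivDerivation F K ℓ
  have hD₁ : D₁ ≠ 0 := (LinearEquiv.map_ne_zero_iff _).2 hℓ0
  refine ⟨D₁.restrictScalars k, ?_, ?_⟩
  · have h1 : s ∈ F := IntermediateField.mem_adjoin_simple_self k s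
    have h2 := D₁.map_algebraMap (⟨s, h1⟩ : F)
    exact h2
  · intro h
    apply hD₁
    ext x
    exact DFunLike.congr_fun h x

/-- K1-B3, second proof. There is a nonzero derivation over `k[s]`. -/
theorem exists_deriv {k A : Type} [Field k] [CommRing A] [IsDomain A] [Algebra k A]
    [hft : Algebra.FiniteType k A] (s u : A)
    (hu : AlgebraicIndependent k ![s, u]) : ∃ D : Derivation k A A, D s = 0 ∧ D ≠ 0 := by
  classical
  have hess : Algebra.EssFiniteType k (FractionRing A) := Algebra.EssFiniteType.comp k A _
  have hinj : Function.Injective (algebraMap A (FractionRing A)) :=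
    IsFractionRing.injective A (FractionRing A)
  have hu' : AlgebraicIndependent k
      ![algebraMap A (FractionRing A) s, algebraMap A (FractionRing A) u] := by
    have h1 := hu.map' (f := IsScalarTower.toAlgHom k A (FractionRing A)) hinj
    have h2 : (IsScalarTower.toAlgHom k A (FractionRing A)) ∘ ![s, u] =
        ![algebraMap A (FractionRing A) s, algebraMap A (FractionRing A) u] := by
      funext i
      fin_cases i <;> rfl
    rwa [h2] at h1
  obtain ⟨D, hDs, hD⟩ := exists_deriv_field _ _ hu'
  -- denominators
  obtain ⟨H, hH⟩ := hft.out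
  obtain ⟨b, hb⟩ := IsLocalization.exist_integer_multiples_of_finset (nonZeroDivisors A)
    (H.image fun h => D (algebraMap A (FractionRing A) h))
  have hb0 : (b : A) ≠ 0 := nonZeroDivisors.ne_zero b.2
  have hall : ∀ f : A, ∃ g : A, algebraMap A (FractionRing A) g =
      algebraMap A (FractionRing A) b * D (algebraMap A (FractionRing A) f) := by
    intro f
    have hf : f ∈ Algebra.adjoin k (H : Set A) := by
      rw [hH]
      trivial
    induction hf using Algebra.adjoin_induction with
    | mem h hh =>
      obtain ⟨g, hg⟩ := hb _ (Finset.mem_image_of_mem _ hh)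
      exact ⟨g, by rw [hg, Algebra.smul_def]⟩
    | algebraMap r =>
      refine ⟨0, ?_⟩
      rw [← IsScalarTower.algebraMap_apply, D.map_algebraMap, mul_zero, map_zero]
    | add f g _ _ hf hg =>
      obtain ⟨f', hf'⟩ := hf
      obtain ⟨g', hg'⟩ := hg
      exact ⟨f' + g', by rw [map_add, map_add, map_add, hf', hg', mul_add]⟩
    | mul f g _ _ hf hg =>
      obtain ⟨f', hf'⟩ := hf
      obtain ⟨g', hg'⟩ := hg
      refine ⟨f * g' + g * f', ?_⟩
      rw [map_add, map_mul, map_mul, map_mul, hf', hg', D.leibniz, smul_eq_mul, smul_eq_mul]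
      ring
  choose φ hφ using hall
  have hsm : ∀ (c : k) (f : A), φ (c • f) = c • φ f := by
    intro c f
    apply hinj
    rw [hφ, Algebra.smul_def, Algebra.smul_def, map_mul (algebraMap A (FractionRing A)),
      map_mul (algebraMap A (FractionRing A)), hφ, ← IsScalarTower.algebraMap_apply, D.leibniz,
      D.map_algebraMap, smul_zero, add_zero, smul_eq_mul]
    ring
  let D' : Derivation k A A := Derivation.mk'
    { toFun := φ
      map_add' := fun f g => hinj (by rw [map_add, hφ, hφ, hφ, map_add, map_add, mul_add])
      map_smul' := hsm }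
    (fun f g => hinj (by
      change algebraMap A (FractionRing A) (φ (f * g)) =
        algebraMap A (FractionRing A) (f • φ g + g • φ f)
      rw [smul_eq_mul, smul_eq_mul, hφ, map_mul, D.leibniz, map_add, map_mul, map_mul, hφ, hφ,
        smul_eq_mul, smul_eq_mul]
      ring))
  have hD' : ∀ f, algebraMap A (FractionRing A) (D' f) =
      algebraMap A (FractionRing A) b * D (algebraMap A (FractionRing A) f) := hφ
  refine ⟨D', ?_, ?_⟩
  · apply hinj
    rw [hD', hDs, mul_zero, map_zero]
  · intro h0
    apply hD
    have h1 : ∀ f : A, D (algebraMap A (FractionRing A) f) = 0 := by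
      intro f
      have h2 := hD' f
      rw [h0, Derivation.zero_apply, map_zero, eq_comm, mul_eq_zero] at h2
      exact h2.resolve_left ((map_ne_zero_iff _ hinj).2 hb0)
    ext x
    obtain ⟨y, z, hz, rfl⟩ := IsFractionRing.div_surjective A x
    rw [Derivation.zero_apply]
    have hz0 : algebraMap A (FractionRing A) z ≠ 0 :=
      (map_ne_zero_iff _ hinj).2 (nonZeroDivisors.ne_zero hz)
    have h3 : D (algebraMap A (FractionRing A) y / algebraMap A (FractionRing A) z *
        algebraMap A (FractionRing A) z) = 0 := by
      rw [div_mul_cancel₀ _ hz0, h1]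
    rw [D.leibniz, h1, smul_zero, zero_add, smul_eq_mul, mul_eq_zero] at h3
    exact h3.resolve_left hz0

end DerivAlt

end Pool.Agent.K1
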