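import Pool.Agent.K1.DescentV

/-!
Rational valuations from discrete valuation rings.
-/

set_option autoImplicit false

open Polynomial

namespace Pool.Agent.K1

/-- Over an algebraic extension the value group is torsion over the one of the base. -/
lemma exists_pow_valuation {K L Γ : Type*} [Field K] [Field L] [Algebra K L]
    [LinearOrderedCommGroupWithZero Γ] (w : Valuation L Γ) {a : L} (ha : a ≠ 0)
    (halg : IsAlgebraic K a) :
    ∃ (n : ℕ) (c : K), 0 < n ∧ c ≠ 0 ∧ w (a ^ n) = w (algebraMap K L c) := by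
  obtain ⟨f, hf0, hf⟩ := halg
  by_contra hcon
  push Not at hcon
  set t : ℕ → L := fun i => algebraMap K L (f.coeff i) * a ^ i with ht
  have hsum : ∑ i ∈ f.support, t i = 0 := by
    rw [← hf, aeval_eq_sum_range, Finset.sum_subset (supp_subset_range_natDegree_succ)]
    · exact Finset.sum_congr rfl fun i _ => by rw [ht, Algebra.smul_def]
    · intro i _ hi
      simp only [mem_support_iff, not_not] at hi
      simp only [ht, hi, map_zero, zero_mul]
  have hinj : ∀ i ∈ f.support, ∀ j ∈ f.support, i < j → w (t i) ≠ w (t j) := by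
    intro i hi j hj hij e
    have hci : f.coeff i ≠ 0 := mem_support_iff.mp hi
    have hcj : f.coeff j ≠ 0 := mem_support_iff.mp hj
    refine hcon (j - i) (f.coeff i / f.coeff j) (by omega) (div_ne_zero hci hcj) ?_
    have e1 : a ^ j = a ^ (j - i) * a ^ i := by rw [← pow_add]; congr 1; omega
    rw [ht] at e
    simp only at e
    rw [e1, map_mul, map_mul, map_mul, ← mul_assoc] at e
    have hwai : w (a ^ i) ≠ 0 := (Valuation.ne_zero_iff w).mpr (pow_ne_zero i ha)
    have e2 := mul_right_cancel₀ hwai e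
    have hwj : w (algebraMap K L (f.coeff j)) ≠ 0 :=
      (Valuation.ne_zero_iff w).mpr ((_root_.map_ne_zero _).mpr hcj)
    rw [map_div₀, map_div₀, e2, mul_div_cancel_left₀ _ hwj]
  have hne : f.support.Nonempty := by
    rw [Finset.nonempty_iff_ne_empty, Ne, support_eq_empty]; exact hf0
  obtain ⟨i₀, hi₀, hmax⟩ := f.support.exists_max_image (fun i => w (t i)) hne
  have hti : t i₀ ≠ 0 :=
    mul_ne_zero ((_root_.map_ne_zero _).mpr (mem_support_iff.mp hi₀)) (pow_ne_zero _ ha)
  have hwt : w (t i₀) ≠ 0 := (Valuation.ne_zero_iff w).mpr hti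
  have hlt : w (∑ i ∈ f.support.erase i₀, t i) < w (t i₀) := by
    refine Valuation.map_sum_lt w hwt fun i hi => ?_
    rw [Finset.mem_erase] at hi
    refine lt_of_le_of_ne (hmax i hi.2) ?_
    rcases lt_or_gt_of_ne hi.1 with h | h
    · exact hinj i hi.2 i₀ hi₀ h
    · exact (hinj i₀ hi₀ i hi.2 h).symm
  rw [← Finset.add_sum_erase _ _ hi₀] at hsum
  have := Valuation.map_add_eq_of_lt_left w hlt
  rw [hsum, map_zero] at this
  exact hwt this.symm

/-- A valuation ring of `L` over a valuation ring of `K`. -/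
theorem exists_valuationSubring {O K L : Type*} [CommRing O] [IsDomain O] [ValuationRing O]
    [Field K] [Algebra O K] [IsFractionRing O K] [Field L] [Algebra K L] :
    ∃ V : ValuationSubring L, ∀ a : K, algebraMap K L a ∈ V ↔ ∃ b : O, algebraMap O K b = a := by
  obtain ⟨V, hV, hloc⟩ := IsLocalRing.exists_factor_valuationRing
    ((algebraMap K L).comp (algebraMap O K))
  refine ⟨V, fun a => ⟨fun ha => ?_, ?_⟩⟩
  · rcases ValuationRing.isInteger_or_isInteger O a with ⟨b, hb⟩ | ⟨b, hb⟩
    · exact ⟨b, hb⟩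
    · by_cases ha0 : a = 0
      · exact ⟨0, by rw [ha0, map_zero]⟩
      · have hu : IsUnit (((algebraMap K L).comp (algebraMap O K)).codRestrict V.toSubring hV b) := by
          refine IsUnit.of_mul_eq_one (⟨algebraMap K L a, ha⟩ : V.toSubring) (Subtype.ext ?_)
          change algebraMap K L (algebraMap O K b) * algebraMap K L a = 1
          rw [← map_mul, hb, inv_mul_cancel₀ ha0, map_one]
        obtain ⟨u, rfl⟩ := hloc.map_nonunit b hu
        refine ⟨((u⁻¹ : Oˣ) : O), ?_⟩
        have h1 : algebraMap O K (u : O) * algebraMap O K ((u⁻¹ : Oˣ) : O) = 1 := by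
          rw [← map_mul, Units.mul_inv, map_one]
        rw [hb] at h1
        rw [eq_comm, ← inv_inv a]
        exact inv_eq_of_mul_eq_one_right h1
  · rintro ⟨b, rfl⟩
    exact hV b

/-- A discrete valuation of `K` extends to a rational valuation of an algebraic extension. -/
theorem exists_ratVal {K L : Type*} [Field K] [Field L] [Algebra K L] [Algebra.IsAlgebraic K L]
    (V : ValuationSubring L) (o : K → ℤ)
    (hmul : ∀ a b : K, a ≠ 0 → b ≠ 0 → o (a * b) = o a + o b)
    (hpos : ∀ a : K, a ≠ 0 → (0 ≤ o a ↔ algebraMap K L a ∈ V)) :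
    ∃ R : RatVal V, ∀ a : K, a ≠ 0 → R.v (algebraMap K L a) = o a := by
  classical
  have hone : o 1 = 0 := by
    have := hmul 1 1 one_ne_zero one_ne_zero
    rw [mul_one] at this
    linarith
  have hpow : ∀ (a : K) (_ : a ≠ 0) (n : ℕ), o (a ^ n) = n * o a := by
    intro a ha n
    induction n with
    | zero => rw [pow_zero, hone]; simp
    | succ n ih => rw [pow_succ, hmul _ _ (pow_ne_zero n ha) ha, ih]; push_cast; ring
  have hinv : ∀ a : K, a ≠ 0 → o a⁻¹ = - o a := by
    intro a ha
    have := hmul a a⁻¹ ha (inv_ne_zero ha)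
    rw [mul_inv_cancel₀ ha, hone] at this
    linarith
  have hle : ∀ a b : K, a ≠ 0 → b ≠ 0 →
      (V.valuation (algebraMap K L a) ≤ V.valuation (algebraMap K L b) ↔ o b ≤ o a) := by
    intro a b ha hb
    have hb' : V.valuation (algebraMap K L b) ≠ 0 :=
      (Valuation.ne_zero_iff _).mpr ((_root_.map_ne_zero _).mpr hb)
    have h1 : V.valuation (algebraMap K L a) ≤ V.valuation (algebraMap K L b) ↔
        V.valuation (algebraMap K L (a / b)) ≤ 1 := by
      rw [map_div₀, map_div₀, div_le_one₀ (zero_lt_iff.mpr hb')]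
    rw [h1, V.valuation_le_one_iff, ← hpos _ (div_ne_zero ha hb), div_eq_mul_inv,
      hmul _ _ ha (inv_ne_zero hb), hinv b hb]
    constructor <;> intro h <;> linarith
  have heq : ∀ a b : K, a ≠ 0 → b ≠ 0 →
      V.valuation (algebraMap K L a) = V.valuation (algebraMap K L b) → o a = o b := by
    intro a b ha hb h
    exact le_antisymm ((hle b a hb ha).mp h.ge) ((hle a b ha hb).mp h.le)
  have hex : ∀ a : L, a ≠ 0 → ∃ (n : ℕ) (c : K), 0 < n ∧ c ≠ 0 ∧
      V.valuation (a ^ n) = V.valuation (algebraMap K L c) := fun a ha =>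
    exists_pow_valuation V.valuation ha (Algebra.IsAlgebraic.isAlgebraic a)
  choose! n c hn hc hnc using hex
  have key : ∀ (a : L) (_ : a ≠ 0) (m : ℕ) (d : K), 0 < m → d ≠ 0 →
      V.valuation (a ^ m) = V.valuation (algebraMap K L d) →
      (o (c a) : ℚ) / n a = (o d : ℚ) / m := by
    intro a ha m d hm hd h
    have h1 : V.valuation (algebraMap K L (c a ^ m)) =
        V.valuation (algebraMap K L (d ^ n a)) := by
      have e1 : V.valuation (algebraMap K L (c a ^ m)) = V.valuation a ^ (n a * m) := by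
        rw [_root_.map_pow, _root_.map_pow, ← hnc a ha, _root_.map_pow, pow_mul]
      have e2 : V.valuation (algebraMap K L (d ^ n a)) = V.valuation a ^ (m * n a) := by
        rw [_root_.map_pow, _root_.map_pow, ← h, _root_.map_pow, pow_mul]
      rw [e1, e2, mul_comm]
    have h2 := heq _ _ (pow_ne_zero m (hc a ha)) (pow_ne_zero _ hd) h1
    rw [hpow _ (hc a ha), hpow _ hd] at h2
    have hn0 : (n a : ℚ) ≠ 0 := by exact_mod_cast (hn a ha).ne'
    have hm0 : (m : ℚ) ≠ 0 := by exact_mod_cast hm.ne'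
    have h3 : (m : ℚ) * o (c a) = n a * o d := by exact_mod_cast h2
    rw [div_eq_div_iff hn0 hm0]
    linarith
  refine ⟨⟨fun a => (o (c a) : ℚ) / n a, ?_, ?_⟩, ?_⟩
  · intro a b ha hb
    have h1 : V.valuation ((a * b) ^ (n a * n b)) =
        V.valuation (algebraMap K L (c a ^ n b * c b ^ n a)) := by
      rw [mul_pow, pow_mul, mul_comm (n a) (n b), pow_mul b, map_mul, map_mul, map_mul, map_pow,
        hnc a ha, map_pow, hnc b hb, map_pow, map_pow, map_pow, map_pow]
    have h2 := key (a * b) (mul_ne_zero ha hb) _ _ (Nat.mul_pos (hn a ha) (hn b hb))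
      (mul_ne_zero (pow_ne_zero _ (hc a ha)) (pow_ne_zero _ (hc b hb))) h1
    have hn0 : (n a : ℚ) ≠ 0 := by exact_mod_cast (hn a ha).ne'
    have hm0 : (n b : ℚ) ≠ 0 := by exact_mod_cast (hn b hb).ne'
    rw [h2, hmul _ _ (pow_ne_zero _ (hc a ha)) (pow_ne_zero _ (hc b hb)), hpow _ (hc a ha),
      hpow _ (hc b hb)]
    push_cast
    field_simp
  · intro a ha
    have hn0 : (0 : ℚ) < n a := by exact_mod_cast hn a ha
    have h0 : (0 : ℚ) ≤ (o (c a) : ℚ) / n a ↔ (0 : ℚ) ≤ o (c a) := by
      rw [le_div_iff₀ hn0, zero_mul]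
    have h1 : (0 : ℚ) ≤ o (c a) ↔ 0 ≤ o (c a) := by exact_mod_cast Iff.rfl
    rw [h0, h1, hpos _ (hc a ha), ← V.valuation_le_one_iff, ← V.valuation_le_one_iff, ← hnc a ha,
      map_pow]
    exact pow_le_one_iff (hn a ha).ne'
  · intro a ha
    have h1 : V.valuation ((algebraMap K L a) ^ 1) = V.valuation (algebraMap K L a) := by
      rw [pow_one]
    have h2 := key (algebraMap K L a) ((_root_.map_ne_zero _).mpr ha) 1 a one_pos ha h1
    change (o (c (algebraMap K L a)) : ℚ) / n (algebraMap K L a) = _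
    rw [h2]
    simp

end Pool.Agent.K1
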