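import Pool.Agent.K1.DescentW

/-!
Descent of relations between symbols along a separable algebraic extension.
-/

set_option autoImplicit false

namespace Pool.Agent.K1

lemma symSum_append {K L A : Type*} [Field K] [Field L] [AddCommGroup A] [Algebra K L]
    (φ : L → L → A) (l l' : List (ℤ × Kˣ × Kˣ)) :
    symSum φ (l ++ l') = symSum φ l + symSum φ l' := by
  simp only [symSum, List.map_append, List.sum_append]

lemma symSum_flatMap {K L A T : Type*} [Field K] [Field L] [AddCommGroup A] [Algebra K L]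
    (φ : L → L → A) (s : List T) (l : T → List (ℤ × Kˣ × Kˣ)) :
    symSum φ (s.flatMap l) = (s.map fun t => symSum φ (l t)).sum := by
  induction s with
  | nil => rfl
  | cons a s ih => rw [List.flatMap_cons, symSum_append, ih, List.map_cons, List.sum_cons]

lemma list_sum_finset_sum {ι T A : Type*} [AddCommGroup A] (s : List T) (F : Finset ι)
    (f : T → ι → A) :
    (s.map fun t => ∑ i ∈ F, f t i).sum = ∑ i ∈ F, (s.map fun t => f t i).sum := by
  induction s with
  | nil => simp
  | cons a s ih => simp only [List.map_cons, List.sum_cons, ih, Finset.sum_add_distrib]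

universe v w

/-- Let `M / K` be separable algebraic and `s` a finite list of symbols over `M`. There are a
formal sum `l` of symbols over `K` and `d > 0` such that: if a Steinberg map `φ` on an algebraically
closed extension of `K` takes the same value `z` on the images of `s` under all embeddings of
`M`, then it takes the value `d z` on `l`. -/
theorem descent_core {K M : Type*} [Field K] [Field M] [Algebra K M] [Algebra.IsSeparable K M]
    (s : List (Mˣ × Mˣ)) :
    ∃ (d : ℕ) (l : List (ℤ × Kˣ × Kˣ)), 0 < d ∧ ∀ (L : Type v) (A : Type w) [Field L]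
      [IsAlgClosed L] [AddCommGroup A] [Algebra K L] (φ : L → L → A) (z : A), IsSteinberg φ →
      (∀ ι : M →ₐ[K] L, (s.map fun t => φ (ι t.1) (ι t.2)).sum = z) → symSum φ l = d • z := by
  classical
  let Ω := SeparableClosure K
  let j₀ : M →ₐ[K] Ω := IsSepClosed.lift
  let S : Finset Ω := (s.toFinset.image fun t => j₀ t.1) ∪ (s.toFinset.image fun t => j₀ t.2)
  let E : FiniteGaloisIntermediateField K Ω := FiniteGaloisIntermediateField.adjoin K (S : Set Ω)
  have : FiniteDimensional K E := E.finiteDimensional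
  have : IsGalois K E := E.isGalois
  have hS : ∀ x ∈ S, x ∈ E.toIntermediateField := fun x hx =>
    FiniteGaloisIntermediateField.subset_adjoin K (S : Set Ω) hx
  have h1 : ∀ t ∈ s, j₀ (t.1 : M) ∈ E.toIntermediateField := by
    intro t ht
    refine hS _ (Finset.mem_union_left _ (Finset.mem_image.mpr ⟨t, List.mem_toFinset.mpr ht, rfl⟩))
  have h2 : ∀ t ∈ s, j₀ (t.2 : M) ∈ E.toIntermediateField := by
    intro t ht
    refine hS _ (Finset.mem_union_right _ (Finset.mem_image.mpr ⟨t, List.mem_toFinset.mpr ht, rfl⟩))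
  have hnorm : ∀ t : Mˣ × Mˣ, ∃ l : List (ℤ × Kˣ × Kˣ), t ∈ s →
      ∀ (L : Type v) (A : Type w) [Field L] [IsAlgClosed L] [AddCommGroup A] [Algebra K L]
        [Algebra E L] [IsScalarTower K E L] (φ : L → L → A), IsSteinberg φ →
        ∀ (e1 : j₀ (t.1 : M) ∈ E.toIntermediateField) (e2 : j₀ (t.2 : M) ∈ E.toIntermediateField),
        ∑ σ : E ≃ₐ[K] E, φ (algebraMap E L (σ ⟨j₀ t.1, e1⟩)) (algebraMap E L (σ ⟨j₀ t.2, e2⟩)) =
          symSum φ l := by
    intro t
    by_cases ht : t ∈ s
    · obtain ⟨l, hl⟩ := tate_norm.{v, w} (K := K) (E := E) ⟨j₀ t.1, h1 t ht⟩ ⟨j₀ t.2, h2 t ht⟩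
        (fun h => (_root_.map_ne_zero j₀).mpr t.1.ne_zero (congrArg Subtype.val h))
        (fun h => (_root_.map_ne_zero j₀).mpr t.2.ne_zero (congrArg Subtype.val h))
      exact ⟨l, fun _ L A _ _ _ _ _ _ φ hφ _ _ => hl L A φ hφ⟩
    · exact ⟨[], fun h => absurd h ht⟩
  choose l hl using hnorm
  refine ⟨Fintype.card (E ≃ₐ[K] E), s.flatMap l, Fintype.card_pos, ?_⟩
  intro L A _ _ _ _ φ z hφ hz
  let j : Ω →ₐ[K] L := IsAlgClosed.lift
  let _ : Algebra E L := (j.comp E.toIntermediateField.val).toRingHom.toAlgebra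
  have : IsScalarTower K E L := IsScalarTower.of_algebraMap_eq fun x => (j.commutes x).symm
  let ι : (E ≃ₐ[K] E) → (M →ₐ[K] L) := fun σ =>
    j.comp (((σ.liftNormal Ω : Ω ≃ₐ[K] Ω) : Ω →ₐ[K] Ω).comp j₀)
  have hι : ∀ (σ : E ≃ₐ[K] E) (x : M) (hx : j₀ x ∈ E.toIntermediateField),
      algebraMap E L (σ ⟨j₀ x, hx⟩) = ι σ x := by
    intro σ x hx
    have := σ.liftNormal_commutes Ω ⟨j₀ x, hx⟩
    exact congrArg j this.symm
  have e2 : (s.map fun t => symSum φ (l t)).sum =
      (s.map fun t => ∑ σ : E ≃ₐ[K] E, φ (ι σ t.1) (ι σ t.2)).sum := by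
    refine congrArg List.sum (List.map_congr_left fun t ht => ?_)
    rw [← hl t ht L A φ hφ (h1 t ht) (h2 t ht)]
    exact Finset.sum_congr rfl fun σ _ => by rw [hι, hι]
  rw [symSum_flatMap, e2, list_sum_finset_sum, Finset.sum_congr rfl fun σ _ => hz (ι σ),
    Finset.sum_const, Finset.card_univ]

end Pool.Agent.K1
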