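import Pool.Agent.K1.DescentX
import Pool.Agent.K1.SchemeOf
import Pool.Agent.K1.Avoid
import Pool.Agent.K1.AffineFacts

/-!
Chains of tame symbols on a noetherian integral scheme.
-/

set_option autoImplicit false

open AlgebraicGeometry CategoryTheory

attribute [local instance] MvPolynomial.gradedAlgebra

namespace Pool.Agent.K1

section

variable {X : Scheme.{0}} [IsIntegral X]

/-- A point of codimension zero is the generic point. -/
theorem eq_genericPoint_of_coheight (x : X) (hx : Order.coheight x = 0) :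
    x = genericPoint X := by
  by_contra hne
  have h := coheight_add_one_le_of_specializes (genericPoint_specializes x) hne
  rw [hx] at h
  simp at h

/-- A closed set that does not contain the generic point contains finitely many points of
codimension one. -/
theorem finite_codimOne [IsNoetherian X] (T : Set X) (hT : IsClosed T)
    (hg : genericPoint X ∉ T) : {x : PointOne X | x.1 ∈ T}.Finite := by
  obtain ⟨S, hS, hcl, hirr, hsup⟩ :=
    TopologicalSpace.NoetherianSpace.exists_finite_set_isClosed_irreducible hT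
  have h1 : {x : PointOne X | x.1 ∈ T} ⊆ ⋃ t ∈ S, {x : PointOne X | x.1 ∈ t} := by
    intro x hx
    rw [Set.mem_ofPred_eq, hsup] at hx
    obtain ⟨t, ht, hxt⟩ := hx
    exact Set.mem_biUnion ht hxt
  refine (Set.Finite.biUnion hS fun t ht => ?_).subset h1
  obtain ⟨η, hη⟩ := QuasiSober.sober (hirr t ht) (hcl t ht)
  have hηt : η ∈ t := hη.mem
  have hηT : η ∈ T := by rw [hsup]; exact ⟨t, ht, hηt⟩
  have hsub : ({x : PointOne X | x.1 ∈ t}).Subsingleton := by
    have key : ∀ x : PointOne X, x.1 ∈ t → x.1 = η := by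
      intro x hx
      by_contra hne
      have h2 := coheight_add_one_le_of_specializes (hη.specializes hx) hne
      rw [x.2] at h2
      have h3 : Order.coheight η = 0 := by
        have : Order.coheight η + 1 ≤ 0 + 1 := by simpa using h2
        exact le_antisymm ((ENat.add_le_add_iff_right ENat.one_ne_top).mp this) bot_le
      exact hg (eq_genericPoint_of_coheight η h3 ▸ hηT)
    intro x hx y hy
    exact Subtype.ext ((key x hx).trans (key y hy).symm)
  exact hsub.finite

/-- A nonzero rational function is a unit on a nonempty open set. -/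
theorem exists_open_unit (f : X.functionField) (hf : f ≠ 0) :
    ∃ U : X.Opens, genericPoint X ∈ U ∧ ∀ x ∈ U, ∃ u : (X.presheaf.stalk x)ˣ,
      algebraMap (X.presheaf.stalk x) X.functionField u = f := by
  obtain ⟨U, hU, s, hs⟩ := X.presheaf.exists_germ_eq f
  refine ⟨X.basicOpen s, ?_, ?_⟩
  · rw [X.mem_basicOpen s _ hU]
    have h1 : (X.presheaf.germ U (genericPoint X) hU).hom s = f := hs
    change IsUnit ((X.presheaf.germ U (genericPoint X) hU).hom s)
    rw [h1]
    exact isUnit_iff_ne_zero.mpr hf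
  · intro x hx
    have hxU : x ∈ U := X.basicOpen_le s hx
    have h1 : IsUnit ((X.presheaf.germ U x hxU).hom s) := (X.mem_basicOpen s _ hxU).mp hx
    obtain ⟨u, hu⟩ := h1
    refine ⟨u, ?_⟩
    rw [hu, ← hs]
    have : Nonempty U := ⟨⟨x, hxU⟩⟩
    exact Scheme.algebraMap_germ_eq_germToFunctionField X hxU s

variable [IsLocallyNoetherian X]

/-- A function of order zero is a unit of the local ring. -/
theorem exists_unit_of_ord (x : X) (hx : Order.coheight x = 1)
    (hreg : IsRegularLocalRing (X.presheaf.stalk x)) (f : X.functionField) (hf : f ≠ 0)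
    (h : X.ord f x = 0) :
    ∃ u : (X.presheaf.stalk x)ˣ, algebraMap (X.presheaf.stalk x) X.functionField u = f := by
  obtain ⟨a, ha⟩ := af_mem_stalk hreg hx f hf h.ge
  obtain ⟨b, hb⟩ := af_mem_stalk hreg hx f⁻¹ (inv_ne_zero hf) (by rw [so_ord_inv x hf, h]; simp)
  have hab : a * b = 1 := by
    apply IsFractionRing.injective (X.presheaf.stalk x) X.functionField
    rw [map_mul, ha, hb, mul_inv_cancel₀ hf, map_one]
  exact ⟨Units.mkOfMulEqOne a b hab, ha⟩

theorem so_ord_pow (x : X) (f : X.functionField) (hf : f ≠ 0) (n : ℕ) :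
    X.ord (f ^ n) x = n * X.ord f x := by
  induction n with
  | zero =>
    have h2 := so_ord_unit x (1 : (X.presheaf.stalk x)ˣ)
    rw [Units.val_one, map_one] at h2
    rw [pow_zero, h2]
    simp
  | succ n ih =>
    rw [pow_succ, Scheme.ord_mul (pow_ne_zero n hf) hf, ih]
    push_cast
    ring

theorem so_ord_zpow (x : X) (f : X.functionField) (hf : f ≠ 0) (n : ℤ) :
    X.ord (f ^ n) x = n * X.ord f x := by
  obtain ⟨m, rfl | rfl⟩ := n.eq_nat_or_neg
  · rw [zpow_natCast, so_ord_pow x f hf]
  · rw [zpow_neg, zpow_natCast, so_ord_inv x (pow_ne_zero m hf), so_ord_pow x f hf]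
    ring

/-- The tame symbol at a point of codimension one exists. -/
theorem exists_isTameAt (x : X) (hx : Order.coheight x = 1)
    (hreg : IsRegularLocalRing (X.presheaf.stalk x)) (f g : X.functionField) (hf : f ≠ 0)
    (hg : g ≠ 0) : ∃ t : (X.residueField x)ˣ, IsTameAt x f g t := by
  have hs : ((-1 : X.functionField) ^ (X.ord f x * X.ord g x)) ≠ 0 :=
    zpow_ne_zero _ (neg_ne_zero.mpr one_ne_zero)
  have hd : (-1 : X.functionField) ^ (X.ord f x * X.ord g x) * g ^ (X.ord f x) ≠ 0 :=
    mul_ne_zero hs (zpow_ne_zero _ hg)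
  have hone : X.ord (-1 : X.functionField) x = 0 := by
    have := so_ord_unit x (-1 : (X.presheaf.stalk x)ˣ)
    rw [Units.val_neg, Units.val_one, map_neg, map_one] at this
    exact this
  obtain ⟨u, hu⟩ := exists_unit_of_ord x hx hreg
    (f ^ (X.ord g x) / ((-1) ^ (X.ord f x * X.ord g x) * g ^ (X.ord f x)))
    (div_ne_zero (zpow_ne_zero _ hf) hd) (by
      rw [so_ord_div x (zpow_ne_zero _ hf) hd, Scheme.ord_mul hs (zpow_ne_zero _ hg),
        so_ord_zpow x _ (neg_ne_zero.mpr one_ne_zero), so_ord_zpow x _ hf, so_ord_zpow x _ hg, hone]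
      ring)
  refine ⟨Units.map (X.residue x).hom.toMonoidHom u, u, ?_, rfl⟩
  rw [hu, mul_div_cancel₀ _ hd]

end

/-- The chain of tame symbols of a pair of rational functions. -/
theorem exists_schemeTameChain {X : Scheme.{0}} [IsIntegral X] [IsNoetherian X]
    (hreg : ∀ x : X, IsRegularLocalRing (X.presheaf.stalk x))
    (f g : X.functionField) (hf : f ≠ 0) (hg : g ≠ 0) :
    ∃ η : SChain X, ∀ x : PointOne X, IsTameAt x.1 f g (Additive.toMul (η x)) := by
  classical
  obtain ⟨U, hU, hfU⟩ := exists_open_unit f hf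
  obtain ⟨W, hW, hgW⟩ := exists_open_unit g hg
  have hT : IsClosed ((U ⊓ W : X.Opens) : Set X)ᶜ := (U ⊓ W).2.isClosed_compl
  have hfin := finite_codimOne _ hT (fun h => h ⟨hU, hW⟩)
  choose t ht using fun x : PointOne X => exists_isTameAt x.1 x.2 (hreg x.1) f g hf hg
  refine ⟨DFinsupp.mk hfin.toFinset fun x => Additive.ofMul (t x), fun x => ?_⟩
  by_cases hx : x.1 ∈ ((U ⊓ W : X.Opens) : Set X)ᶜ
  · have hx' : x ∈ hfin.toFinset := by
      rw [Set.Finite.mem_toFinset]; exact hx
    rw [DFinsupp.mk_apply, dif_pos hx']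
    exact ht x
  · have hx' : x ∉ hfin.toFinset := by
      rw [Set.Finite.mem_toFinset]; exact hx
    rw [DFinsupp.mk_apply, dif_neg hx']
    rw [Set.mem_compl_iff, not_not] at hx
    obtain ⟨u, hu⟩ := hfU x.1 hx.1
    obtain ⟨v, hv⟩ := hgW x.1 hx.2
    have h1 : X.ord f x.1 = 0 := by rw [← hu]; exact so_ord_unit _ _
    have h2 : X.ord g x.1 = 0 := by rw [← hv]; exact so_ord_unit _ _
    refine ⟨1, ?_, ?_⟩
    · rw [h1, h2]; simp
    · rw [toMul_zero, Units.val_one, Units.val_one, map_one]

end Pool.Agent.K1
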