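import Pool.Agent.K1.Gersten
import Pool.Agent.K1.DefsRel

/-!
The relative form of the subgroup of tame symbols: only the symbols `{a/a', b}` with `(a, a')` in
a given relation `U` are used.
-/

set_option autoImplicit false

namespace Pool.Agent.K1

/-- The subgroup generated by the chains of tame symbols of `{a/a', b} = {a, b} - {a', b}`, for
the pairs `(a, a')` of the relation `U`. -/
def tameSubgroupRel (A : Type*) [CommRing A] (U : A → A → Prop) : AddSubgroup (Chain1 A) :=
  AddSubgroup.closure {η | ∃ a a' b : A, U a a' ∧ a ≠ 0 ∧ a' ≠ 0 ∧ b ≠ 0 ∧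
    ∃ ξ₁ ξ₂ : Chain1 A, (∀ P : Curve1 A, IsTame P a b (Additive.toMul (ξ₁ P))) ∧
      (∀ P : Curve1 A, IsTame P a' b (Additive.toMul (ξ₂ P))) ∧ η = ξ₁ - ξ₂}

theorem tameSubgroupRel_le {A : Type*} [CommRing A] (U : A → A → Prop) :
    tameSubgroupRel A U ≤ tameSubgroup A := by
  unfold tameSubgroupRel
  rw [AddSubgroup.closure_le]
  rintro η ⟨a, a', b, _, ha, ha', hb, ξ₁, ξ₂, h1, h2, rfl⟩
  exact (tameSubgroup A).sub_mem (AddSubgroup.subset_closure ⟨a, b, ha, hb, h1⟩)
    (AddSubgroup.subset_closure ⟨a', b, ha', hb, h2⟩)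

theorem tameSubgroupRel_mono {A : Type*} [CommRing A] {U V : A → A → Prop}
    (h : ∀ a b, U a b → V a b) : tameSubgroupRel A U ≤ tameSubgroupRel A V := by
  apply AddSubgroup.closure_mono
  rintro η ⟨a, a', b, hU, h1⟩
  exact ⟨a, a', b, h a a' hU, h1⟩

section dvr

variable {A : Type*} [CommRing A] [IsDomain A] [IsNoetherianRing A]
  (hA : ∀ P : Curve1 A, IsDiscreteValuationRing (Localization.AtPrime P.ideal))

include hA

omit [IsNoetherianRing A] in
/-- With all pairs the relative subgroup is the subgroup of all tame symbols. -/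
theorem tameSubgroupRel_true : tameSubgroupRel A (fun _ _ => True) = tameSubgroup A := by
  apply le_antisymm (tameSubgroupRel_le _)
  unfold tameSubgroup
  rw [AddSubgroup.closure_le]
  rintro ξ ⟨a, b, ha, hb, h⟩
  apply AddSubgroup.subset_closure
  refine ⟨a, 1, b, trivial, ha, one_ne_zero, hb, ξ, 0, h, ?_, (sub_zero ξ).symm⟩
  intro P
  apply IsTame.of_not_mem hA P one_ne_zero
  · exact fun h => P.isPrime.ne_top ((Ideal.eq_top_iff_one _).2 h)
  · rw [res_one, one_pow]
    rfl

/-- The relation for pairs `(a, b)` in `U`. -/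
theorem symbR {U : A → A → Prop} (lam : Chain1 A →+ ℚ)
    (hlam : ∀ η ∈ tameSubgroupRel A U, lam η = 0) {a b q : A} (hab : U a b) (ca : Cop a q)
    (cb : Cop b q) : symb lam a q - symb lam b q = symb lam q a - symb lam q b := by
  obtain ⟨ξ₁, h1, h1'⟩ := exists_tameChain_cop hA ca
  obtain ⟨ξ₂, h2, h2'⟩ := exists_tameChain_cop hA cb
  have h3 : lam (ξ₁ - ξ₂) = 0 := hlam _ (AddSubgroup.subset_closure
    ⟨a, b, q, hab, ca.1, cb.1, ca.2.1, ξ₁, ξ₂, h1, h2, rfl⟩)
  rw [map_sub, h1', h2'] at h3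
  linarith

omit [IsDomain A] [IsNoetherianRing A] hA in
/-- The tame symbol `{d, d}` is a sign. -/
theorem isTame_self (P : Curve1 A) (d : A) : IsTame P d d ((-1) ^ (vAt P d * vAt P d)) := by
  have h1 : (1 : A) ∉ P.ideal := fun h => P.isPrime.ne_top ((Ideal.eq_top_iff_one _).2 h)
  have h2 : ((-1 : A) ^ (vAt P d * vAt P d)) * (-1) ^ (vAt P d * vAt P d) = 1 := by
    rw [← mul_pow, neg_one_mul, neg_neg, one_pow]
  refine ⟨(-1) ^ (vAt P d * vAt P d), 1, ?_, h1, ?_, ?_⟩
  · intro h
    exact h1 (by rw [← h2]; exact P.ideal.mul_mem_left _ h)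
  · linear_combination -(d ^ vAt P d) * h2
  · have h3 : res P (-1) = -1 := by
      have h4 := res_add P 1 (-1)
      rw [add_neg_cancel, res_one] at h4
      have h5 : res P 0 = 0 := (res_eq_zero P 0).2 (Ideal.zero_mem _)
      rw [h5] at h4
      linear_combination -h4
    rw [res_one, res_pow, h3, mul_one]
    push_cast
    rfl

/-- A functional killing the relative symbols is symmetric on coprime pairs of `U`. -/
theorem symbR_symm {U : A → A → Prop} (lam : Chain1 A →+ ℚ)
    (hlam : ∀ η ∈ tameSubgroupRel A U, lam η = 0) {d d' : A} (hdd : U d d') (c : Cop d d') :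
    symb lam d d' = symb lam d' d := by
  obtain ⟨ξ₁, h1, h1'⟩ := exists_tameChain_cop hA c
  obtain ⟨ξ₂, h2⟩ := exists_tameChain hA c.2.1 c.2.1
  have h3 : lam (ξ₁ - ξ₂) = 0 := hlam _ (AddSubgroup.subset_closure
    ⟨d, d', d', hdd, c.1, c.2.1, c.2.1, ξ₁, ξ₂, h1, h2, rfl⟩)
  have h4 : ξ₂ + ξ₂ = 0 := by
    apply DFinsupp.ext
    intro P
    have h5 := IsTame.unique P c.2.1 (h2 P) (isTame_self P d')
    rw [DFinsupp.add_apply, DFinsupp.zero_apply]
    apply Additive.toMul.injective
    rw [toMul_add, toMul_zero, h5, ← mul_pow]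
    have h6 : (-1 : (kap P)ˣ) * (-1) = 1 := by
      rw [neg_mul_neg, one_mul]
    rw [h6, one_pow]
  have h5 : lam ξ₂ = 0 := by
    have h6 : lam ξ₂ + lam ξ₂ = 0 := by rw [← map_add, h4, map_zero]
    linarith
  rw [map_sub, h1', h5] at h3
  linarith

/-- The symbol of an arbitrary functional is multiplicative in the second variable. -/
theorem symb_mul (lam : Chain1 A →+ ℚ) {f g h : A} (hg : Cop f g) (hh : Cop f h) :
    symb lam f (g * h) = symb lam f g + symb lam f h := by
  have hf := hg.1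
  unfold symb
  rw [← finsum_add_distrib (symb_support hA lam hf g) (symb_support hA lam hf h)]
  apply finsum_congr
  intro P
  by_cases hfP : f ∈ P.ideal
  · have h1 := hg.2.2 P.ideal P.isPrime P.height hfP
    have h2 := hh.2.2 P.ideal P.isPrime P.height hfP
    rw [resU_mul h1 h2, single1_mul, map_add]
    ring
  · rw [(vAt_eq_zero hA P hf).2 hfP]
    simp

/-- The symbol of an arbitrary functional depends on the restriction of the second variable. -/
theorem symb_add (lam : Chain1 A →+ ℚ) {f g : A} (r : A) (hf : f ≠ 0) :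
    symb lam f (g + f * r) = symb lam f g := by
  unfold symb
  apply finsum_congr
  intro P
  by_cases hfP : f ∈ P.ideal
  · have h1 : resU P (g + f * r) = resU P g := by
      apply resU_congr
      rw [add_sub_cancel_left]
      exact Ideal.mul_mem_right _ _ hfP
    rw [h1]
  · rw [(vAt_eq_zero hA P hf).2 hfP]
    simp

/-- The symbol of a functional killing the relative tame symbols. -/
theorem isSymbOn_symb {U : A → A → Prop} (V : Set A) (hU : ∀ a ∈ V, ∀ b ∈ V, U a b)
    (lam : Chain1 A →+ ℚ) (hlam : ∀ η ∈ tameSubgroupRel A U, lam η = 0) :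
    IsSymbOn V (symb lam) :=
  ⟨fun a ha b hb c => symbR_symm hA lam hlam (hU a ha b hb) c,
    fun a ha b hb _ ca cb => symbR hA lam hlam (hU a ha b hb) ca cb,
    fun _ _ _ hg hh => symb_mul hA lam hg hh, fun _ _ r hg _ => symb_add hA lam r hg.1⟩

end dvr

end Pool.Agent.K1
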