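import Mathlib

set_option autoImplicit false
set_option linter.style.longLine false

/-!
# Local decomposition of multiplicative functionals

A multiplicative functional on the nonzero elements of a domain `R`, trivial on the units, is a
sum of functionals `e x`, one for every maximal ideal `x`, where `e x` is trivial on the elements
not in `x`.
-/

namespace Pool.Agent.K1
namespace Decomp

variable {R : Type*} [CommRing R] [IsDomain R]

/-- the value on a fraction -/
noncomputable def nu (φ : R → ℚ) (z : FractionRing R) : ℚ :=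
  φ (IsLocalization.sec (nonZeroDivisors R) z).1 - φ (IsLocalization.sec (nonZeroDivisors R) z).2

theorem nu_eq {φ : R → ℚ} (hφ : ∀ f g, f ≠ 0 → g ≠ 0 → φ (f * g) = φ f + φ g)
    {z : FractionRing R} {a b : R} (ha : a ≠ 0) (hb : b ≠ 0)
    (h : z * algebraMap R (FractionRing R) b = algebraMap R (FractionRing R) a) :
    nu φ z = φ a - φ b := by
  have hinj := IsFractionRing.injective R (FractionRing R)
  have h1 := IsLocalization.sec_spec (nonZeroDivisors R) z
  have hd0 : ((IsLocalization.sec (nonZeroDivisors R) z).2 : R) ≠ 0 :=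
    nonZeroDivisors.ne_zero (IsLocalization.sec (nonZeroDivisors R) z).2.2
  have hz : z ≠ 0 := by
    rintro rfl
    rw [zero_mul] at h
    exact ha ((map_eq_zero_iff _ hinj).1 h.symm)
  have hn0 : (IsLocalization.sec (nonZeroDivisors R) z).1 ≠ 0 := by
    intro h2
    rw [h2, map_zero] at h1
    rcases mul_eq_zero.1 h1 with h3 | h3
    · exact hz h3
    · exact hd0 ((map_eq_zero_iff _ hinj).1 h3)
  have h2 : (IsLocalization.sec (nonZeroDivisors R) z).1 * b =
      a * (IsLocalization.sec (nonZeroDivisors R) z).2 := by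
    apply hinj
    rw [map_mul, map_mul, ← h1, ← h]
    ring
  have h3 := congrArg φ h2
  rw [hφ _ _ hn0 hb, hφ _ _ ha hd0] at h3
  unfold nu
  linarith

theorem exists_frac {z : FractionRing R} (hz : z ≠ 0) : ∃ a b : R, a ≠ 0 ∧ b ≠ 0 ∧
    z * algebraMap R (FractionRing R) b = algebraMap R (FractionRing R) a := by
  have hinj := IsFractionRing.injective R (FractionRing R)
  have h1 := IsLocalization.sec_spec (nonZeroDivisors R) z
  have hd0 : ((IsLocalization.sec (nonZeroDivisors R) z).2 : R) ≠ 0 :=
    nonZeroDivisors.ne_zero (IsLocalization.sec (nonZeroDivisors R) z).2.2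
  refine ⟨_, _, ?_, hd0, h1⟩
  intro h2
  rw [h2, map_zero] at h1
  rcases mul_eq_zero.1 h1 with h3 | h3
  · exact hz h3
  · exact hd0 ((map_eq_zero_iff _ hinj).1 h3)

/-- the additive homomorphism on the units of the fraction field -/
noncomputable def nuHom (φ : R → ℚ) (hφ : ∀ f g, f ≠ 0 → g ≠ 0 → φ (f * g) = φ f + φ g) :
    Additive (FractionRing R)ˣ →+ ℚ where
  toFun z := nu φ (z.toMul : FractionRing R)
  map_zero' := by
    have h1 : φ 1 = 0 := by
      have := hφ 1 1 one_ne_zero one_ne_zero
      rw [mul_one] at this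
      linarith
    have := nu_eq hφ (z := 1) (a := 1) (b := 1) one_ne_zero one_ne_zero (by simp)
    rw [sub_self] at this
    exact this
  map_add' z w := by
    obtain ⟨a, b, ha, hb, hab⟩ := exists_frac (z.toMul).ne_zero
    obtain ⟨c, d, hc, hd, hcd⟩ := exists_frac (w.toMul).ne_zero
    have h1 : ((z.toMul * w.toMul : (FractionRing R)ˣ) : FractionRing R) *
        algebraMap R (FractionRing R) (b * d) = algebraMap R (FractionRing R) (a * c) := by
      rw [Units.val_mul, map_mul, map_mul, ← hab, ← hcd]
      ring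
    change nu φ ((z.toMul * w.toMul : (FractionRing R)ˣ) : FractionRing R) = _
    rw [nu_eq hφ (mul_ne_zero ha hc) (mul_ne_zero hb hd) h1, nu_eq hφ ha hb hab,
      nu_eq hφ hc hd hcd, hφ _ _ ha hc, hφ _ _ hb hd]
    ring

/-- the fractions which are units at `x` -/
def unitsAt (x : MaximalSpectrum R) : AddSubgroup (Additive (FractionRing R)ˣ) where
  carrier := {z | ∃ a b : R, a ∉ x.asIdeal ∧ b ∉ x.asIdeal ∧
    (z.toMul : FractionRing R) * algebraMap R (FractionRing R) b = algebraMap R (FractionRing R) a}
  zero_mem' := ⟨1, 1, (Ideal.ne_top_iff_one _).1 x.isMaximal.ne_top,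
    (Ideal.ne_top_iff_one _).1 x.isMaximal.ne_top, by simp⟩
  add_mem' := by
    rintro z w ⟨a, b, ha, hb, hab⟩ ⟨c, d, hc, hd, hcd⟩
    have hp := x.isMaximal.isPrime
    refine ⟨a * c, b * d, fun h => ?_, fun h => ?_, ?_⟩
    · rcases hp.mem_or_mem h with h | h
      · exact ha h
      · exact hc h
    · rcases hp.mem_or_mem h with h | h
      · exact hb h
      · exact hd h
    · change ((z.toMul * w.toMul : (FractionRing R)ˣ) : FractionRing R) * _ = _
      rw [Units.val_mul, map_mul, map_mul, ← hab, ← hcd]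
      ring
  neg_mem' := by
    rintro z ⟨a, b, ha, hb, hab⟩
    refine ⟨b, a, hb, ha, ?_⟩
    change ((z.toMul⁻¹ : (FractionRing R)ˣ) : FractionRing R) * _ = _
    rw [← hab, ← mul_assoc, Units.inv_mul, one_mul]

omit [IsDomain R] in
/-- a fraction which is a unit everywhere is a unit -/
theorem exists_unit_of_forall {z : Additive (FractionRing R)ˣ} (hz : ∀ x, z ∈ unitsAt x) :
    ∃ u : Rˣ, (z.toMul : FractionRing R) = algebraMap R (FractionRing R) u := by
  have hinj := IsFractionRing.injective R (FractionRing R)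
  have key : ∀ w : Additive (FractionRing R)ˣ, (∀ x, w ∈ unitsAt x) →
      ∃ r : R, (w.toMul : FractionRing R) = algebraMap R (FractionRing R) r := by
    intro w hw
    let I : Ideal R :=
      { carrier := {r | ∃ s, (w.toMul : FractionRing R) * algebraMap R (FractionRing R) r =
          algebraMap R (FractionRing R) s}
        add_mem' := by
          rintro a b ⟨s, hs⟩ ⟨t, ht⟩
          exact ⟨s + t, by rw [map_add, map_add, mul_add, hs, ht]⟩
        zero_mem' := ⟨0, by simp⟩
        smul_mem' := by
          rintro c a ⟨s, hs⟩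
          exact ⟨c * s, by rw [smul_eq_mul, map_mul, map_mul, ← hs]; ring⟩ }
    have hI : I = ⊤ := by
      by_contra hne
      obtain ⟨m, hm, hIm⟩ := Ideal.exists_le_maximal I hne
      obtain ⟨a, b, _, hb, hab⟩ := hw ⟨m, hm⟩
      exact hb (hIm ⟨a, hab⟩)
    have h1 : (1 : R) ∈ I := hI ▸ Submodule.mem_top
    obtain ⟨s, hs⟩ := h1
    rw [map_one, mul_one] at hs
    exact ⟨s, hs⟩
  obtain ⟨r, hr⟩ := key z hz
  obtain ⟨r', hr'⟩ := key (-z) fun x => (unitsAt x).neg_mem (hz x)
  have h1 : r * r' = 1 := by
    apply hinj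
    rw [map_mul, map_one, ← hr, ← hr']
    change (z.toMul : FractionRing R) * ((z.toMul⁻¹ : (FractionRing R)ˣ) : FractionRing R) = 1
    exact Units.mul_inv _
  exact ⟨⟨r, r', h1, by rw [mul_comm, h1]⟩, hr⟩

/-- a homomorphism to `ℚ` which kills the kernel of `δ` factors through `δ` -/
theorem exists_ext {M N : Type*} [AddCommGroup M] [AddCommGroup N] (δ : M →+ N) (ν : M →+ ℚ)
    (h : ∀ z, δ z = 0 → ν z = 0) : ∃ g : N →+ ℚ, ∀ z, g (δ z) = ν z := by
  have hwd : ∀ z w, δ z = δ w → ν z = ν w := by
    intro z w hzw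
    have h1 := h (z - w) (by rw [map_sub, hzw, sub_self])
    rw [map_sub] at h1
    linarith
  let f : δ.range →+ ℚ := AddMonoidHom.mk' (fun y => ν y.2.choose) (by
    intro a b
    rw [← map_add]
    apply hwd
    rw [map_add, (a + b).2.choose_spec, a.2.choose_spec, b.2.choose_spec]
    rfl)
  have hf : ∀ z, f ⟨δ z, z, rfl⟩ = ν z := by
    intro z
    exact hwd _ _ (Exists.choose_spec (⟨z, rfl⟩ : ∃ w, δ w = δ z))
  obtain ⟨g, hg⟩ := (Module.Baer.of_divisible ℚ).extension_property_addMonoidHom
    δ.range.subtype Subtype.val_injective f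
  refine ⟨g, fun z => ?_⟩
  rw [← hf z, ← hg]
  rfl

/-- the families of classes with finite support -/
def fam (R : Type*) [CommRing R] [IsDomain R] : AddSubgroup
    (∀ x : MaximalSpectrum R, Additive (FractionRing R)ˣ ⧸ unitsAt x) where
  carrier := {w | {x | w x ≠ 0}.Finite}
  zero_mem' := by simp
  add_mem' := by
    intro a b ha hb
    refine (ha.union hb).subset fun x hx => ?_
    by_contra h
    simp only [Set.mem_union, Set.mem_ofPred_eq, not_or, not_not] at h
    apply hx
    rw [Pi.add_apply, h.1, h.2]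
    exact add_zero (0 : Additive (FractionRing R)ˣ ⧸ unitsAt x)
  neg_mem' := by
    intro a ha
    refine Set.Finite.subset ha fun x hx => ?_
    intro h
    apply hx
    rw [Pi.neg_apply, h]
    exact neg_zero

/-- a nonzero element as a unit of the fraction field -/
noncomputable def uf (f : R) (hf : f ≠ 0) : Additive (FractionRing R)ˣ :=
  Additive.ofMul (Units.mk0 (algebraMap R (FractionRing R) f)
    (fun h => hf ((map_eq_zero_iff _ (IsFractionRing.injective R (FractionRing R))).1 h)))

theorem uf_val (f : R) (hf : f ≠ 0) :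
    ((uf f hf).toMul : FractionRing R) = algebraMap R (FractionRing R) f := rfl

theorem uf_mul (f g : R) (hf : f ≠ 0) (hg : g ≠ 0) :
    uf (f * g) (mul_ne_zero hf hg) = uf f hf + uf g hg := by
  have h : (uf (f * g) (mul_ne_zero hf hg)).toMul = (uf f hf).toMul * (uf g hg).toMul := by
    apply Units.ext
    rw [Units.val_mul, uf_val, uf_val, uf_val, map_mul]
  exact h

theorem uf_mem_unitsAt (f : R) (hf : f ≠ 0) (x : MaximalSpectrum R) (hx : f ∉ x.asIdeal) :
    uf f hf ∈ unitsAt x :=
  ⟨f, 1, hx, (Ideal.ne_top_iff_one _).1 x.isMaximal.ne_top, by rw [uf_val, map_one, mul_one]⟩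

/-- the family of the classes of a fraction -/
noncomputable def del (hfin : ∀ f : R, f ≠ 0 → {x : MaximalSpectrum R | f ∈ x.asIdeal}.Finite) :
    Additive (FractionRing R)ˣ →+ fam R where
  toFun z := ⟨fun x => (z : Additive (FractionRing R)ˣ ⧸ unitsAt x), by
    obtain ⟨a, b, ha, hb, hab⟩ := exists_frac (z.toMul).ne_zero
    refine ((hfin a ha).union (hfin b hb)).subset fun x hx => ?_
    by_contra h
    simp only [Set.mem_union, Set.mem_ofPred_eq, not_or] at h
    apply hx
    rw [QuotientAddGroup.eq_zero_iff]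
    exact ⟨a, b, h.1, h.2, hab⟩⟩
  map_zero' := rfl
  map_add' _ _ := rfl

/-- the family with one entry -/
noncomputable def sing (x : MaximalSpectrum R) :
    (Additive (FractionRing R)ˣ ⧸ unitsAt x) →+ fam R := by
  classical
  exact (AddMonoidHom.single (fun x : MaximalSpectrum R => Additive (FractionRing R)ˣ ⧸ unitsAt x)
    x).codRestrict (fam R) (fun w => by
      refine (Set.finite_singleton x).subset fun y hy => ?_
      by_contra h
      apply hy
      change (Pi.single x w : ∀ x : MaximalSpectrum R, Additive (FractionRing R)ˣ ⧸ unitsAt x) y = 0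
      exact Pi.single_eq_of_ne (M := fun x : MaximalSpectrum R =>
        Additive (FractionRing R)ˣ ⧸ unitsAt x) h w)

open Classical in
theorem sing_val (x : MaximalSpectrum R) (w : Additive (FractionRing R)ˣ ⧸ unitsAt x) :
    (sing x w : ∀ x : MaximalSpectrum R, Additive (FractionRing R)ˣ ⧸ unitsAt x) = Pi.single x w := by
  unfold sing
  rfl

end Decomp

open Decomp

/-- G1. Local decomposition: a multiplicative functional on the nonzero elements of `R`, trivial
on the units, is a sum of local functionals. -/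
theorem exists_local {R : Type*} [CommRing R] [IsDomain R]
    (hfin : ∀ f : R, f ≠ 0 → {x : MaximalSpectrum R | f ∈ x.asIdeal}.Finite)
    (φ : R → ℚ) (hφ : ∀ f g, f ≠ 0 → g ≠ 0 → φ (f * g) = φ f + φ g)
    (hu : ∀ u : R, IsUnit u → φ u = 0) :
    ∃ e : MaximalSpectrum R → R → ℚ,
      (∀ x f g, f ≠ 0 → g ≠ 0 → e x (f * g) = e x f + e x g) ∧
      (∀ x f, f ≠ 0 → f ∉ x.asIdeal → e x f = 0) ∧
      ∀ f, f ≠ 0 → φ f = ∑ᶠ x, e x f := by
  classical
  let ν : Additive (FractionRing R)ˣ →+ ℚ := nuHom φ hφ
  let δ : Additive (FractionRing R)ˣ →+ fam R := del hfin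
  have hφ1 : φ 1 = 0 := hu 1 isUnit_one
  have hν : ∀ f (hf : f ≠ 0), ν (uf f hf) = φ f := by
    intro f hf
    have h1 := nu_eq hφ (z := algebraMap R (FractionRing R) f) hf one_ne_zero (by rw [map_one, mul_one])
    rw [hφ1, sub_zero] at h1
    exact h1
  have hker : δ.ker ≤ ν.ker := by
    intro z hz
    have h1 : ∀ x, z ∈ unitsAt x := by
      intro x
      have h2 : δ z = 0 := hz
      have h3 := congrFun (congrArg Subtype.val h2) x
      exact (QuotientAddGroup.eq_zero_iff _).1 h3
    obtain ⟨u, hu'⟩ := exists_unit_of_forall h1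
    have h2 : z = uf (u : R) u.isUnit.ne_zero := by
      have h3 : z.toMul = (uf (u : R) u.isUnit.ne_zero).toMul := Units.ext hu'
      exact h3
    change ν z = 0
    rw [h2, hν, hu _ u.isUnit]
  have hker' : ∀ z, δ z = 0 → ν z = 0 := fun z hz => hker hz
  obtain ⟨h, hhδ⟩ := exists_ext (M := Additive (FractionRing R)ˣ) (N := fam R) δ ν hker'
  refine ⟨fun x f => if hf : f = 0 then 0 else h (sing x (uf f hf : Additive (FractionRing R)ˣ)),
    ?_, ?_, ?_⟩
  · intro x f g hf hg
    simp only [hf, hg, mul_ne_zero hf hg, dif_neg, not_false_eq_true]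
    rw [uf_mul f g hf hg, QuotientAddGroup.mk_add, map_add, map_add]
  · intro x f hf hx
    simp only [hf, dif_neg, not_false_eq_true]
    rw [(QuotientAddGroup.eq_zero_iff _).2 (uf_mem_unitsAt f hf x hx), map_zero, map_zero]
  · intro f hf
    simp only [hf, dif_neg, not_false_eq_true]
    have h1 : δ (uf f hf) = ∑ x ∈ (hfin f hf).toFinset,
        sing x (uf f hf : Additive (FractionRing R)ˣ) := by
      apply Subtype.ext
      funext x
      have h0 : (∑ x ∈ (hfin f hf).toFinset, sing x (uf f hf : Additive (FractionRing R)ˣ)).1 =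
          ∑ x ∈ (hfin f hf).toFinset, (sing x (uf f hf : Additive (FractionRing R)ˣ)).1 :=
        map_sum (fam R).subtype _ _
      rw [h0, Finset.sum_apply]
      simp only [sing_val]
      by_cases hx : f ∈ x.asIdeal
      · rw [Finset.sum_eq_single x]
        · rw [Pi.single_eq_same]
          rfl
        · intro y _ hy
          exact Pi.single_eq_of_ne (Ne.symm hy) _
        · intro h2
          exact absurd ((hfin f hf).mem_toFinset.2 hx) h2
      · rw [Finset.sum_eq_zero]
        · exact (QuotientAddGroup.eq_zero_iff _).2 (uf_mem_unitsAt f hf x hx)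
        · intro y hy
          have hyx : x ≠ y := by
            rintro rfl
            exact hx ((hfin f hf).mem_toFinset.1 hy)
          exact Pi.single_eq_of_ne hyx _
    rw [← hν f hf, ← hhδ, h1, map_sum]
    symm
    apply finsum_eq_sum_of_support_subset
    intro x hx
    rw [Set.Finite.coe_toFinset]
    by_contra hx'
    apply hx
    change h (sing x (uf f hf : Additive (FractionRing R)ˣ)) = 0
    rw [(QuotientAddGroup.eq_zero_iff _).2 (uf_mem_unitsAt f hf x hx'), map_zero, map_zero]

end Pool.Agent.K1
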