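import Pool.Agent.K1.LocFacts
import Pool.Agent.K1.LocalDecomp
import Pool.Agent.K1.M5e

set_option autoImplicit false
set_option linter.style.longLine false

/-!
K1-B1: local decomposition of the functional of one curve.
-/

namespace Pool.Agent.K1

/-- maximal ideals of a one leaf ring are kernels of points -/
theorem exists_point_of_leaf {k R : Type*} [Field k] [IsAlgClosed k] [CommRing R] [IsDomain R]
    [Algebra k R] (o : OneLeaf k R)
    (hfin : ∀ r : R, r ≠ 0 → Module.Finite k (R ⧸ Ideal.span {r})) (M : Ideal R)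
    (hM : M.IsMaximal) : ∃ x : R →ₐ[k] k, RingHom.ker x = M := by
  let _ : Field (R ⧸ M) := Ideal.Quotient.field M
  have hfd : Module.Finite k (R ⧸ M) := by
    by_cases hbot : M = ⊥
    · have hsurj : Function.Surjective (algebraMap k R) := by
        intro r
        by_cases hr : r = 0
        · exact ⟨0, by rw [hr, map_zero]⟩
        · have hu : IsUnit r := by
            rw [← Ideal.span_singleton_eq_top]
            refine hM.1.2 _ ?_
            rw [hbot, bot_lt_iff_ne_bot, Ne, Ideal.span_singleton_eq_bot]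
            exact hr
          obtain ⟨c, _, hc⟩ := M5c_isUnit o r hu
          exact ⟨c, hc.symm⟩
      refine Module.Finite.of_surjective (Algebra.linearMap k (R ⧸ M)) ?_
      intro z
      obtain ⟨z, rfl⟩ := Ideal.Quotient.mk_surjective z
      obtain ⟨c, rfl⟩ := hsurj z
      exact ⟨c, rfl⟩
    · obtain ⟨r, hr, hr0⟩ := Submodule.exists_mem_ne_zero_of_ne_bot hbot
      have h1 := hfin r hr0
      have hle : Ideal.span {r} ≤ M := by
        rw [Ideal.span_singleton_le_iff_mem]
        exact hr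
      exact Module.Finite.of_surjective (Ideal.Quotient.factorₐ k hle).toLinearMap
        (Ideal.Quotient.factor_surjective hle)
  have hb : Function.Bijective (algebraMap k (R ⧸ M)) :=
    IsAlgClosed.algebraMap_bijective_of_isIntegral
  let e : k ≃ₐ[k] (R ⧸ M) := AlgEquiv.ofBijective (Algebra.ofId k (R ⧸ M)) hb
  refine ⟨(e.symm : (R ⧸ M) →ₐ[k] k).comp (Ideal.Quotient.mkₐ k M), ?_⟩
  ext z
  rw [RingHom.mem_ker, AlgHom.comp_apply]
  constructor
  · intro h
    have h1 : Ideal.Quotient.mkₐ k M z = 0 := by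
      have h2 : e.symm (Ideal.Quotient.mkₐ k M z) = e.symm 0 := by
        rw [map_zero]
        exact h
      exact e.symm.injective h2
    rwa [Ideal.Quotient.mkₐ_eq_mk, Ideal.Quotient.eq_zero_iff_mem] at h1
  · intro h
    have h1 : Ideal.Quotient.mkₐ k M z = 0 := by
      rw [Ideal.Quotient.mkₐ_eq_mk, Ideal.Quotient.eq_zero_iff_mem]
      exact h
    rw [h1, map_zero]

theorem point_eq_of_ker_eq {k R : Type*} [Field k] [CommRing R] [Algebra k R] {x y : R →ₐ[k] k}
    (h : RingHom.ker x = RingHom.ker y) : x = y := by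
  apply AlgHom.ext
  intro f
  have h1 : f - algebraMap k R (x f) ∈ RingHom.ker x := by
    rw [RingHom.mem_ker, map_sub, AlgHom.commutes, Algebra.algebraMap_self, RingHom.id_apply,
      sub_self]
  rw [h, RingHom.mem_ker, map_sub, AlgHom.commutes, Algebra.algebraMap_self, RingHom.id_apply,
    sub_eq_zero] at h1
  exact h1.symm

theorem ker_isMaximal' {k R : Type*} [Field k] [CommRing R] [Algebra k R] (x : R →ₐ[k] k) :
    (RingHom.ker x).IsMaximal :=
  RingHom.ker_isMaximal_of_surjective x fun a =>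
    ⟨algebraMap k R a, by rw [AlgHom.commutes, Algebra.algebraMap_self, RingHom.id_apply]⟩

/-- finitely many points in a finite scheme -/
theorem points_finite {k R : Type*} [Field k] [CommRing R] [Algebra k R] (I : Ideal R)
    (h : Module.Finite k (R ⧸ I)) : {x : R →ₐ[k] k | I ≤ RingHom.ker x}.Finite := by
  have hart : IsArtinianRing (R ⧸ I) := IsArtinianRing.of_finite k _
  have hfin : Finite (PrimeSpectrum (R ⧸ I)) := inferInstance
  refine Set.Finite.of_finite_image (f := fun x : R →ₐ[k] k => RingHom.ker x)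
    (Set.Finite.subset (Set.finite_range fun P : PrimeSpectrum (R ⧸ I) =>
      P.asIdeal.comap (Ideal.Quotient.mk I)) ?_) ?_
  · rintro _ ⟨x, hx, rfl⟩
    have hle : RingHom.ker (Ideal.Quotient.mk I) ≤ RingHom.ker x := by
      rw [Ideal.mk_ker]
      exact hx
    refine ⟨⟨(RingHom.ker x).map (Ideal.Quotient.mk I),
      Ideal.map_isPrime_of_surjective Ideal.Quotient.mk_surjective hle⟩, ?_⟩
    change Ideal.comap _ (Ideal.map _ _) = _
    rw [Ideal.comap_map_of_surjective' _ Ideal.Quotient.mk_surjective]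
    exact sup_eq_left.2 hle
  · intro x _ y _ hxy
    exact point_eq_of_ker_eq hxy

/-- K1-B1, second form: `q` with `A/(q)` a one leaf domain, `Λ q` multiplicative and dependent
only on the class modulo `q`: it decomposes. -/
theorem exists_locDec' (p : ℕ) [Fact p.Prime] {k A : Type} [Field k] [CharP k p]
    [IsAlgClosed k] [Algebra (ZMod p) k] [Algebra.IsAlgebraic (ZMod p) k] [CommRing A]
    [Algebra k A] (Λ : A → A → ℚ) (q : A)
    (hmul : ∀ f g, f ∉ Ideal.span {q} → g ∉ Ideal.span {q} → Λ q (f * g) = Λ q f + Λ q g)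
    (hcongr : ∀ f r, f ∉ Ideal.span {q} → Λ q (f + q * r) = Λ q f)
    [IsDomain (A ⧸ Ideal.span {q})] (o : OneLeaf k (A ⧸ Ideal.span {q}))
    (hfin : ∀ f ∉ Ideal.span {q}, Module.Finite k (A ⧸ Ideal.span {q, f})) :
    ∃ e, LocDec (k := k) Λ q e := by
  classical
  have hprime : (Ideal.span {q}).IsPrime := (Ideal.Quotient.isDomain_iff_prime _).1 inferInstance
  let R := A ⧸ Ideal.span {q}
  let mk : A →+* R := Ideal.Quotient.mk (Ideal.span {q})
  have hmk : ∀ a, mk a = 0 ↔ a ∈ Ideal.span {q} := fun a => Ideal.Quotient.eq_zero_iff_mem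
  have hsurj : Function.Surjective mk := Ideal.Quotient.mk_surjective
  let out : R → A := Function.surjInv hsurj
  have hout : ∀ r, mk (out r) = r := Function.surjInv_eq hsurj
  -- the functional on `R`
  let φ : R → ℚ := fun r => Λ q (out r)
  have hφe : ∀ f ∉ Ideal.span {q}, φ (mk f) = Λ q f := by
    intro f hf
    have h1 : out (mk f) - f ∈ Ideal.span {q} := by
      rw [← hmk, map_sub, hout, sub_self]
    obtain ⟨r, hr⟩ := Ideal.mem_span_singleton.1 h1
    have h2 : out (mk f) = f + q * r := by rw [← hr]; ring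
    change Λ q (out (mk f)) = Λ q f
    rw [h2]
    exact hcongr f r hf
  have hφm : IsMulFun φ := by
    intro a b ha hb
    obtain ⟨f, rfl⟩ := hsurj a
    obtain ⟨g, rfl⟩ := hsurj b
    have hf : f ∉ Ideal.span {q} := fun h => ha ((hmk f).2 h)
    have hg : g ∉ Ideal.span {q} := fun h => hb ((hmk g).2 h)
    have hfg : f * g ∉ Ideal.span {q} := fun h => (hprime.mem_or_mem h).elim hf hg
    rw [← map_mul, hφe _ hfg, hφe f hf, hφe g hg]
    exact hmul f g hf hg
  -- finiteness
  have hfd : ∀ r : R, r ≠ 0 → Module.Finite k (R ⧸ Ideal.span {r}) := by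
    intro r hr
    obtain ⟨f, rfl⟩ := hsurj r
    have hf : f ∉ Ideal.span {q} := fun h => hr ((hmk f).2 h)
    have h1 := hfin f hf
    let g : A →ₐ[k] (R ⧸ Ideal.span {mk f}) :=
      (Ideal.Quotient.mkₐ k (Ideal.span {mk f})).comp (Ideal.Quotient.mkₐ k (Ideal.span {q}))
    have hg : ∀ a ∈ Ideal.span {q, f}, g a = 0 := by
      intro a ha
      rw [Ideal.mem_span_pair] at ha
      obtain ⟨u, v, rfl⟩ := ha
      have h2 : mk (u * q + v * f) = mk v * mk f := by
        rw [map_add, map_mul, map_mul, (hmk q).2 (Ideal.mem_span_singleton_self q), mul_zero,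
          zero_add]
      change Ideal.Quotient.mk _ (mk (u * q + v * f)) = 0
      rw [h2, Ideal.Quotient.eq_zero_iff_mem]
      exact Ideal.mul_mem_left _ _ (Ideal.mem_span_singleton_self _)
    refine Module.Finite.of_surjective (Ideal.Quotient.liftₐ (Ideal.span {q, f}) g hg).toLinearMap ?_
    intro z
    obtain ⟨z, rfl⟩ := Ideal.Quotient.mk_surjective z
    obtain ⟨a, rfl⟩ := hsurj z
    exact ⟨Ideal.Quotient.mk _ a, rfl⟩
  -- points of `R` are the maximal ideals
  let mx : (R →ₐ[k] k) → MaximalSpectrum R := fun x => ⟨RingHom.ker x, ker_isMaximal' x⟩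
  have hmx : Function.Bijective mx := by
    constructor
    · intro x y hxy
      exact point_eq_of_ker_eq (congrArg MaximalSpectrum.asIdeal hxy)
    · intro M
      obtain ⟨x, hx⟩ := exists_point_of_leaf o hfd M.asIdeal M.isMaximal
      exact ⟨x, MaximalSpectrum.ext hx⟩
  have hfinM : ∀ f : R, f ≠ 0 → {x : MaximalSpectrum R | f ∈ x.asIdeal}.Finite := by
    intro f hf
    have h1 := points_finite (k := k) _ (hfd f hf)
    refine (h1.image mx).subset ?_
    intro M hM
    obtain ⟨x, rfl⟩ := hmx.2 M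
    refine ⟨x, ?_, rfl⟩
    change Ideal.span {f} ≤ RingHom.ker x
    rw [Ideal.span_singleton_le_iff_mem]
    exact hM
  obtain ⟨e', he'm, he'u, he's⟩ := exists_local hfinM φ hφm
    (fun u hu => Psi.phi_unit (p := p) o hφm hu)
  -- points of `R` and points of `A`
  let j : (R →ₐ[k] k) → (A →ₐ[k] k) := fun x => x.comp (Ideal.Quotient.mkₐ k (Ideal.span {q}))
  have hj : Function.Injective j := by
    intro x y h
    apply Ideal.Quotient.algHom_ext
    exact h
  have hjr : ∀ x : A →ₐ[k] k, x q = 0 → ∃ x', j x' = x := by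
    intro x h
    refine ⟨Ideal.Quotient.liftₐ (Ideal.span {q}) x ?_, ?_⟩
    · intro a ha
      obtain ⟨b, rfl⟩ := Ideal.mem_span_singleton.1 ha
      rw [map_mul, h, zero_mul]
    · ext a
      rfl
  have hjq : ∀ x', j x' q = 0 := by
    intro x'
    change x' (mk q) = 0
    rw [(hmk q).2 (Ideal.mem_span_singleton_self q), map_zero]
  let e : (A →ₐ[k] k) → A → ℚ := fun x f =>
    if h : x q = 0 ∧ f ∉ Ideal.span {q} then e' (mx (hjr x h.1).choose) (mk f) else 0
  have hej : ∀ x' f, f ∉ Ideal.span {q} → e (j x') f = e' (mx x') (mk f) := by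
    intro x' f hf
    change (if h : j x' q = 0 ∧ f ∉ Ideal.span {q} then _ else _) = _
    rw [dif_pos ⟨hjq x', hf⟩]
    have h1 : (hjr (j x') (hjq x')).choose = x' := hj (hjr (j x') (hjq x')).choose_spec
    rw [h1]
  have heoff : ∀ x f, x q ≠ 0 → e x f = 0 := fun x f h => dif_neg fun h' => h h'.1
  have hemem : ∀ x f, f ∈ Ideal.span {q} → e x f = 0 := fun x f h => dif_neg fun h' => h'.2 h
  refine ⟨e, ⟨?_, ?_, ?_, heoff, ?_, ?_⟩⟩
  · intro x f g hf hg
    by_cases hx : x q = 0
    · obtain ⟨x', rfl⟩ := hjr x hx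
      have hfg : f * g ∉ Ideal.span {q} := fun h => (hprime.mem_or_mem h).elim hf hg
      rw [hej _ _ hfg, hej _ _ hf, hej _ _ hg, map_mul]
      exact he'm _ _ _ (fun h => hf ((hmk f).1 h)) (fun h => hg ((hmk g).1 h))
    · rw [heoff _ _ hx, heoff _ _ hx, heoff _ _ hx, add_zero]
  · intro x f hxf
    by_cases hx : x q = 0
    · by_cases hf : f ∈ Ideal.span {q}
      · exact hemem _ _ hf
      obtain ⟨x', rfl⟩ := hjr x hx
      rw [hej _ _ hf]
      refine he'u _ _ (fun h => hf ((hmk f).1 h)) ?_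
      exact hxf
    · exact heoff _ _ hx
  · intro x f r
    by_cases hx : x q = 0
    · have hqr : q * r ∈ Ideal.span {q} := Ideal.mul_mem_right _ _ (Ideal.mem_span_singleton_self q)
      by_cases hf : f ∈ Ideal.span {q}
      · rw [hemem _ _ hf, hemem _ _ (Ideal.add_mem _ hf hqr)]
      · have hf' : f + q * r ∉ Ideal.span {q} := fun h => hf ((Ideal.add_mem_iff_left _ hqr).1 h)
        obtain ⟨x', rfl⟩ := hjr x hx
        rw [hej _ _ hf, hej _ _ hf', map_add, (hmk _).2 hqr, add_zero]
    · rw [heoff _ _ hx, heoff _ _ hx]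
  · intro f hf
    refine (points_finite _ (hfin f hf)).subset ?_
    rintro x ⟨hxq, hxf⟩
    change Ideal.span {q, f} ≤ RingHom.ker x
    rw [Ideal.span_le]
    rintro a (rfl | rfl)
    · exact hxq
    · exact hxf
  · intro f hf
    have h1 : ∑ᶠ x, e x f = ∑ᶠ x ∈ Set.range j, e x f := by
      rw [finsum_mem_def]
      congr 1
      funext x
      by_cases hx : x ∈ Set.range j
      · rw [Set.indicator_of_mem hx]
      · rw [Set.indicator_of_notMem hx]
        refine heoff _ _ fun h => hx ?_
        exact hjr x h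
    rw [h1, finsum_mem_range hj, ← hφe f hf, he's _ (fun h => hf ((hmk f).1 h))]
    symm
    refine finsum_eq_of_bijective mx hmx ?_
    intro x'
    exact hej x' f hf

/-- K1-B1. `q` with `A/(q)` a one leaf domain: the functional `Λ q` decomposes. -/
theorem exists_locDec {p : ℕ} [Fact p.Prime] {k A : Type} [Field k] [CharP k p]
    [IsAlgClosed k] [Algebra (ZMod p) k] [Algebra.IsAlgebraic (ZMod p) k] [CommRing A]
    [IsDomain A] [Algebra k A] [IsNoetherianRing A] (Λ : A → A → ℚ) (hΛ : IsSymb Λ) (q : A)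
    (hq0 : q ≠ 0) [IsDomain (A ⧸ Ideal.span {q})]
    (o : OneLeaf k (A ⧸ Ideal.span {q}))
    (hfin : ∀ f ∉ Ideal.span {q}, Module.Finite k (A ⧸ Ideal.span {q, f})) :
    ∃ e, LocDec (k := k) Λ q e := by
  have hprime : (Ideal.span {q}).IsPrime := (Ideal.Quotient.isDomain_iff_prime _).1 inferInstance
  have hcop : ∀ f ∉ Ideal.span {q}, Cop q f := fun f hf => cop_of_not_mem q f hq0 hprime hf
  refine exists_locDec' p Λ q (fun f g hf hg => hΛ.mul q f g (hcop f hf) (hcop g hg))
    (fun f r hf => hΛ.add q f r (hcop f hf) (hcop _ fun h => hf ?_)) o hfin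
  exact (Ideal.add_mem_iff_left _
    (Ideal.mul_mem_right _ _ (Ideal.mem_span_singleton_self q))).1 h

end Pool.Agent.K1
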