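import Pool.Agent.K1.SectionExpDef

/-!
K1, second half, module M6a: weights on the ring `A` (helper78).
-/

open Polynomial

namespace Pool.Agent.K1.SectionExp

variable {k A : Type*} [Field k] [CommRing A] [Algebra k A] (E : SectionExp k A)

/-- The coefficient of `s^m t^l`. -/
noncomputable def c (f : A) (l : ℤ) (m : ℕ) : k := (E.co f l).coeff m

@[simp] theorem co_zero (l : ℤ) : E.co 0 l = 0 := by simp [co]

@[simp] theorem co_add (f g : A) (l : ℤ) : E.co (f + g) l = E.co f l + E.co g l := by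
  simp [co]

@[simp] theorem co_sub (f g : A) (l : ℤ) : E.co (f - g) l = E.co f l - E.co g l := by
  simp [co]

@[simp] theorem co_neg (f : A) (l : ℤ) : E.co (-f) l = - E.co f l := by
  simp [co]

theorem co_sum {α : Type*} (T : Finset α) (f : α → A) (l : ℤ) :
    E.co (∑ i ∈ T, f i) l = ∑ i ∈ T, E.co (f i) l := by
  classical
  induction T using Finset.induction_on with
  | empty => simp
  | insert a T ha ih => rw [Finset.sum_insert ha, Finset.sum_insert ha, co_add, ih]

theorem eq_zero_of_co {f : A} (h : ∀ l, E.co f l = 0) : f = 0 := by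
  apply E.inj
  rw [map_zero]
  apply HahnSeries.ext
  funext l
  simpa [co] using h l

theorem exists_co_ne {f : A} (hf : f ≠ 0) : ∃ l, E.co f l ≠ 0 := by
  by_contra h
  push Not at h
  exact hf (E.eq_zero_of_co h)

theorem co_mul (f g : A) (l : ℤ) :
    E.co (f * g) l = ∑ ij ∈ Finset.antidiagonal (E.ι f).isPWO_support
      (E.ι g).isPWO_support l, E.co f ij.1 * E.co g ij.2 := by
  simp only [co, map_mul]
  rw [HahnSeries.coeff_mul]

theorem ι_aeval (P : k[X]) : E.ι (aeval E.s P) = HahnSeries.C P := by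
  induction P using Polynomial.induction_on' with
  | add p q hp hq => simp [hp, hq]
  | monomial n a =>
    rw [aeval_monomial, map_mul, map_pow, E.ι_s, E.ι_C, ← C_mul_X_pow_eq_monomial,
      map_mul, map_pow]

theorem co_aeval (P : k[X]) (l : ℤ) : E.co (aeval E.s P) l = if l = 0 then P else 0 := by
  simp only [co, ι_aeval, HahnSeries.C_apply, HahnSeries.coeff_single]
  congr

theorem co_aeval_mul (P : k[X]) (f : A) (l : ℤ) : E.co (aeval E.s P * f) l = P * E.co f l := by
  simp only [co, map_mul, ι_aeval, HahnSeries.C_apply, HahnSeries.coeff_single_zero_mul]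

theorem co_algebraMap_mul (b : k) (f : A) (l : ℤ) :
    E.co (algebraMap k A b * f) l = C b * E.co f l := by
  have := E.co_aeval_mul (C b) f l
  rwa [aeval_C] at this

theorem co_one (l : ℤ) : E.co 1 l = if l = 0 then 1 else 0 := by
  have := E.co_aeval 1 l
  rwa [map_one] at this

theorem c_add (f g : A) (l : ℤ) (m : ℕ) : E.c (f + g) l m = E.c f l m + E.c g l m := by
  simp [c]

theorem c_sum {α : Type*} (T : Finset α) (f : α → A) (l : ℤ) (m : ℕ) :
    E.c (∑ i ∈ T, f i) l m = ∑ i ∈ T, E.c (f i) l m := by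
  simp [c, co_sum, Polynomial.finsetSum_coeff]

theorem c_zero (l : ℤ) (m : ℕ) : E.c 0 l m = 0 := by simp [c]

theorem exists_c_ne {f : A} (hf : f ≠ 0) : ∃ l m, E.c f l m ≠ 0 := by
  obtain ⟨l, hl⟩ := E.exists_co_ne hf
  obtain ⟨m, hm⟩ : ∃ m, (E.co f l).coeff m ≠ 0 := by
    by_contra h
    push Not at h
    exact hl (Polynomial.ext (by simpa using h))
  exact ⟨l, m, hm⟩

theorem c_mul (f g : A) (l : ℤ) (m : ℕ) :
    E.c (f * g) l m = ∑ ij ∈ Finset.antidiagonal (E.ι f).isPWO_support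
      (E.ι g).isPWO_support l, ∑ ab ∈ Finset.HasAntidiagonal.antidiagonal m,
        E.c f ij.1 ab.1 * E.c g ij.2 ab.2 := by
  unfold c
  rw [co_mul, Polynomial.finsetSum_coeff]
  apply Finset.sum_congr rfl
  intro ij _
  rw [Polynomial.coeff_mul]

theorem c_mul_exists {f g : A} {l : ℤ} {m : ℕ} (h : E.c (f * g) l m ≠ 0) :
    ∃ (i j : ℤ) (a b : ℕ), i + j = l ∧ a + b = m ∧ E.c f i a ≠ 0 ∧ E.c g j b ≠ 0 := by
  rw [c_mul] at h
  obtain ⟨ij, hij, h1⟩ := Finset.exists_ne_zero_of_sum_ne_zero h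
  obtain ⟨ab, hab, h2⟩ := Finset.exists_ne_zero_of_sum_ne_zero h1
  rw [Finset.mem_antidiagonal] at hij
  rw [Finset.HasAntidiagonal.mem_antidiagonal] at hab
  exact ⟨ij.1, ij.2, ab.1, ab.2, hij.2.2, hab, left_ne_zero_of_mul h2, right_ne_zero_of_mul h2⟩

theorem c_mul_single {f g : A} {l₁ l₂ : ℤ} {m₁ m₂ : ℕ} (h₁ : E.c f l₁ m₁ ≠ 0)
    (h₂ : E.c g l₂ m₂ ≠ 0)
    (h : ∀ (i j : ℤ) (a b : ℕ), i + j = l₁ + l₂ → a + b = m₁ + m₂ → E.c f i a ≠ 0 →
      E.c g j b ≠ 0 → i = l₁ ∧ a = m₁) :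
    E.c (f * g) (l₁ + l₂) (m₁ + m₂) = E.c f l₁ m₁ * E.c g l₂ m₂ := by
  classical
  rw [c_mul]
  have hne : ∀ (f : A) (l : ℤ) (m : ℕ), E.c f l m ≠ 0 → l ∈ (E.ι f).support := by
    intro f l m hc hl
    apply hc
    unfold c co
    rw [hl, coeff_zero]
  rw [Finset.sum_eq_single (l₁, l₂)]
  · rw [Finset.sum_eq_single (m₁, m₂)]
    · intro ab hab hne'
      rw [Finset.HasAntidiagonal.mem_antidiagonal] at hab
      by_contra hc
      have := h l₁ l₂ ab.1 ab.2 rfl hab (left_ne_zero_of_mul hc) (right_ne_zero_of_mul hc)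
      apply hne'
      ext
      · exact this.2
      · have := this.2
        simp only
        omega
    · intro hc
      exact absurd (Finset.HasAntidiagonal.mem_antidiagonal.2 (by rfl)) hc
  · intro ij hij hne'
    rw [Finset.mem_antidiagonal] at hij
    apply Finset.sum_eq_zero
    intro ab hab
    rw [Finset.HasAntidiagonal.mem_antidiagonal] at hab
    by_contra hc
    have := h ij.1 ij.2 ab.1 ab.2 hij.2.2 hab (left_ne_zero_of_mul hc) (right_ne_zero_of_mul hc)
    apply hne'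
    have h3 := hij.2.2
    ext
    · exact this.1
    · have := this.1
      simp only
      omega
  · intro hc
    exact absurd (Finset.mem_antidiagonal.2 ⟨hne _ _ _ h₁, hne _ _ _ h₂, rfl⟩) hc

/-! ### weights -/

/-- the monomial `s^m t^l` is attained with weight `w`, and it is the extreme one in the
direction `ε`. -/
def At (n M : ℕ) (ε w l : ℤ) (m : ℕ) (f : A) : Prop :=
  E.c f l m ≠ 0 ∧ (n : ℤ) * m = w + M * l ∧
    (∀ (l' : ℤ) (m' : ℕ), E.c f l' m' ≠ 0 → (n : ℤ) * m' ≤ w + M * l') ∧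
    ∀ (l' : ℤ) (m' : ℕ), E.c f l' m' ≠ 0 → ε * l' < ε * l → (n : ℤ) * m' < w + M * l'

/-- the monomial `s^m t^l` is the only one of maximal weight. -/
def UA (n M : ℕ) (w l : ℤ) (m : ℕ) (f : A) : Prop :=
  E.c f l m ≠ 0 ∧ (n : ℤ) * m = w + M * l ∧
    ∀ (l' : ℤ) (m' : ℕ), E.c f l' m' ≠ 0 → (l', m') ≠ (l, m) → (n : ℤ) * m' < w + M * l'

variable {E}

theorem UA.at {n M : ℕ} {w l : ℤ} {m : ℕ} {f : A} (h : E.UA n M w l m f) (ε : ℤ) :
    E.At n M ε w l m f := by
  refine ⟨h.1, h.2.1, ?_, ?_⟩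
  · intro l' m' hc
    by_cases h' : (l', m') = (l, m)
    · rw [Prod.mk.injEq] at h'
      rw [h'.1, h'.2, h.2.1]
    · exact (h.2.2 l' m' hc h').le
  · intro l' m' hc hl
    apply h.2.2 l' m' hc
    intro h'
    rw [Prod.mk.injEq] at h'
    rw [h'.1] at hl
    exact lt_irrefl _ hl

theorem At.ne_zero {n M : ℕ} {ε w l : ℤ} {m : ℕ} {f : A} (h : E.At n M ε w l m f) : f ≠ 0 := by
  rintro rfl
  exact h.1 (E.c_zero l m)

theorem UA.ne_zero {n M : ℕ} {w l : ℤ} {m : ℕ} {f : A} (h : E.UA n M w l m f) : f ≠ 0 :=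
  (h.at 1).ne_zero

theorem At.unique {n M : ℕ} (hn : 1 ≤ n) {ε : ℤ} (hε : ε = 1 ∨ ε = -1) {w l w' l' : ℤ}
    {m m' : ℕ} {f : A} (h : E.At n M ε w l m f) (h' : E.At n M ε w' l' m' f) :
    w = w' ∧ l = l' ∧ m = m' := by
  have h1 := h.2.2.1 l' m' h'.1
  have h2 := h'.2.2.1 l m h.1
  have h3 := h.2.1
  have h4 := h'.2.1
  have hw : w = w' := by linarith
  subst hw
  have hl : l = l' := by
    have h5 := h.2.2.2 l' m' h'.1
    have h6 := h'.2.2.2 l m h.1
    rcases hε with rfl | rfl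
    · by_contra hne
      rcases lt_or_gt_of_ne hne with hlt | hlt
      · have := h6 (by linarith)
        linarith
      · have := h5 (by linarith)
        linarith
    · by_contra hne
      rcases lt_or_gt_of_ne hne with hlt | hlt
      · have := h5 (by linarith)
        linarith
      · have := h6 (by linarith)
        linarith
  subst hl
  refine ⟨rfl, rfl, ?_⟩
  have : (n : ℤ) * m = n * m' := by rw [h3, h4]
  have hn' : (n : ℤ) ≠ 0 := by positivity
  exact_mod_cast mul_left_cancel₀ hn' this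

theorem At.mul {n M : ℕ} (hn : 1 ≤ n) {ε : ℤ} (hε : ε = 1 ∨ ε = -1) {w l w' l' : ℤ}
    {m m' : ℕ} {f g : A} (h : E.At n M ε w l m f) (h' : E.At n M ε w' l' m' g) :
    E.At n M ε (w + w') (l + l') (m + m') (f * g) := by
  have hn' : (0 : ℤ) < n := by positivity
  have hs : E.c (f * g) (l + l') (m + m') = E.c f l m * E.c g l' m' := by
    apply E.c_mul_single h.1 h'.1
    intro i j a b hij hab hf hg
    have h1 := h.2.2.1 i a hf
    have h2 := h'.2.2.1 j b hg
    have h3 := h.2.2.2 i a hf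
    have h4 := h'.2.2.2 j b hg
    have h5 := h.2.1
    have h6 := h'.2.1
    have h7 : (n : ℤ) * a + n * b = n * m + n * m' := by
      have : ((a : ℤ) + b) = m + m' := by exact_mod_cast hab
      rw [← mul_add, this, mul_add]
    have h8 : (M : ℤ) * i + M * j = M * l + M * l' := by
      rw [← mul_add, hij, mul_add]
    have hi : i = l := by
      by_contra hne
      rcases hε with rfl | rfl
      · rcases lt_or_gt_of_ne hne with hlt | hlt
        · have := h3 (by linarith)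
          linarith
        · have := h4 (by linarith)
          linarith
      · rcases lt_or_gt_of_ne hne with hlt | hlt
        · have := h4 (by linarith)
          linarith
        · have := h3 (by linarith)
          linarith
    refine ⟨hi, ?_⟩
    subst hi
    have h9 : (n : ℤ) * a ≤ n * m := by linarith
    have hj : j = l' := by linarith
    subst hj
    have h10 : (n : ℤ) * b ≤ n * m' := by linarith
    have h11 : (a : ℤ) ≤ m := le_of_mul_le_mul_left h9 hn'
    have h12 : (b : ℤ) ≤ m' := le_of_mul_le_mul_left h10 hn'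
    omega
  refine ⟨?_, ?_, ?_, ?_⟩
  · rw [hs]
    exact mul_ne_zero h.1 h'.1
  · have h5 := h.2.1
    have h6 := h'.2.1
    push_cast
    linarith
  · intro l₀ m₀ hc
    obtain ⟨i, j, a, b, hij, hab, hf, hg⟩ := E.c_mul_exists hc
    have h1 := h.2.2.1 i a hf
    have h2 := h'.2.2.1 j b hg
    subst hij hab
    push_cast
    linarith
  · intro l₀ m₀ hc hlt
    obtain ⟨i, j, a, b, hij, hab, hf, hg⟩ := E.c_mul_exists hc
    have h1 := h.2.2.1 i a hf
    have h2 := h'.2.2.1 j b hg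
    subst hij hab
    push_cast
    by_cases hi : ε * i < ε * l
    · have := h.2.2.2 i a hf hi
      linarith
    · have hj : ε * j < ε * l' := by
        have : ε * i + ε * j < ε * l + ε * l' := by
          rw [← mul_add, ← mul_add]
          exact hlt
        linarith
      have := h'.2.2.2 j b hg hj
      linarith

theorem UA.mul {n M : ℕ} (hn : 1 ≤ n) {w l w' l' : ℤ}
    {m m' : ℕ} {f g : A} (h : E.UA n M w l m f) (h' : E.UA n M w' l' m' g) :
    E.UA n M (w + w') (l + l') (m + m') (f * g) := by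
  have h1 := (h.at 1).mul hn (Or.inl rfl) (h'.at 1)
  refine ⟨h1.1, h1.2.1, ?_⟩
  intro l₀ m₀ hc hne
  obtain ⟨i, j, a, b, hij, hab, hf, hg⟩ := E.c_mul_exists hc
  subst hij hab
  push_cast
  by_cases hi : (i, a) = (l, m)
  · have hj : (j, b) ≠ (l', m') := by
      rintro hj
      rw [Prod.mk.injEq] at hi hj
      apply hne
      rw [hi.1, hi.2, hj.1, hj.2]
    have h2 := h'.2.2 j b hg hj
    have h3 := (h.at 1).2.2.1 i a hf
    linarith
  · have h2 := h.2.2 i a hf hi
    have h3 := (h'.at 1).2.2.1 j b hg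
    linarith

theorem ua_one (n M : ℕ) : E.UA n M 0 0 0 (1 : A) := by
  refine ⟨?_, by simp, ?_⟩
  · simp [c, co_one]
  · intro l' m' hc hne
    exfalso
    apply hc
    unfold c
    rw [co_one]
    by_cases hl : l' = 0
    · rw [if_pos hl, coeff_one]
      rw [if_neg]
      intro hm
      exact hne (by rw [hl, hm])
    · rw [if_neg hl, coeff_zero]

theorem UA.pow {n M : ℕ} (hn : 1 ≤ n) {w l : ℤ} {m : ℕ} {f : A} (h : E.UA n M w l m f)
    (j : ℕ) : E.UA n M (j * w) (j * l) (j * m) (f ^ j) := by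
  induction j with
  | zero => simpa using ua_one n M
  | succ j ih =>
    rw [pow_succ]
    have := ih.mul hn h
    convert this using 1 <;> push_cast <;> ring

theorem ua_aeval {n : ℕ} (hn : 1 ≤ n) (M : ℕ) (r : k[X]) (hr : r ≠ 0) :
    E.UA n M (n * r.natDegree) 0 r.natDegree (aeval E.s r) := by
  refine ⟨?_, by ring, ?_⟩
  · unfold c
    rw [co_aeval, if_pos rfl]
    exact leadingCoeff_ne_zero.2 hr
  · intro l' m' hc hne
    unfold c at hc
    rw [co_aeval] at hc
    by_cases hl : l' = 0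
    · rw [if_pos hl] at hc
      have h1 : m' ≤ r.natDegree := le_natDegree_of_ne_zero hc
      have h2 : m' ≠ r.natDegree := by
        rintro rfl
        exact hne (by rw [hl])
      have h3 : m' < r.natDegree := lt_of_le_of_ne h1 h2
      subst hl
      have : (n : ℤ) * m' < n * r.natDegree := by
        apply mul_lt_mul_of_pos_left
        · exact_mod_cast h3
        · positivity
      linarith
    · rw [if_neg hl, coeff_zero] at hc
      exact absurd rfl hc

/-- `E.growth` with a fixed constant. -/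
def Grows (E : SectionExp k A) (κ : ℕ) : Prop :=
  ∀ f : A, ∃ e : ℕ, ∀ i : ℤ, (E.co f i).natDegree ≤ e + κ * i.toNat

theorem exists_grows (E : SectionExp k A) : ∃ κ, Grows E κ := E.growth

/-- pole order bound: `co f i = 0` for `i` very negative. -/
theorem exists_pole_bound (E : SectionExp k A) (f : A) : ∃ d : ℕ, ∀ i : ℤ, i < -(d : ℤ) →
    E.co f i = 0 := by
  refine ⟨(-(E.ι f).order).toNat, ?_⟩
  intro i hi
  apply HahnSeries.coeff_eq_zero_of_lt_order
  omega

/-- the weights of the monomials are bounded above and, for each bound from below, the exponent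
of `t` is bounded. -/
theorem weight_bound {κ n M : ℕ} (hG : Grows E κ) (hM : n * κ < M) (f : A) :
    ∃ B d : ℕ, ∀ (l : ℤ) (m : ℕ), E.c f l m ≠ 0 → -(d : ℤ) ≤ l ∧ (n : ℤ) * m - M * l + l ≤ B := by
  obtain ⟨d, hd⟩ := exists_pole_bound E f
  obtain ⟨e, he⟩ := hG f
  refine ⟨n * e + M * d + d, d, ?_⟩
  intro l m hc
  have hl : -(d : ℤ) ≤ l := by
    by_contra h
    apply hc
    unfold c
    rw [hd l (by omega), coeff_zero]
  refine ⟨hl, ?_⟩
  have hm : m ≤ e + κ * l.toNat := (le_natDegree_of_ne_zero hc).trans (he l)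
  have hm' : (n : ℤ) * m ≤ n * e + n * κ * l.toNat := by
    have : (n * m : ℕ) ≤ n * (e + κ * l.toNat) := Nat.mul_le_mul le_rfl hm
    have h2 : ((n * m : ℕ) : ℤ) ≤ ((n * (e + κ * l.toNat) : ℕ) : ℤ) := by exact_mod_cast this
    push_cast at h2
    linarith
  have hM' : (n : ℤ) * κ + 1 ≤ M := by exact_mod_cast hM
  rcases le_or_gt 0 l with h0 | h0
  · have : ((l.toNat : ℕ) : ℤ) = l := Int.toNat_of_nonneg h0
    rw [this] at hm'
    have h3 : ((n : ℤ) * κ + 1) * l ≤ M * l := mul_le_mul_of_nonneg_right hM' h0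
    push_cast
    nlinarith [Int.natCast_nonneg d, Int.natCast_nonneg M, mul_nonneg (Int.natCast_nonneg M)
      (Int.natCast_nonneg d)]
  · have : l.toNat = 0 := Int.toNat_eq_zero.2 h0.le
    rw [this] at hm'
    push_cast
    have h4 : (M : ℤ) * (-l) ≤ M * d := mul_le_mul_of_nonneg_left (by linarith)
      (Int.natCast_nonneg M)
    nlinarith [Int.natCast_nonneg d]

theorem exists_at {κ n M : ℕ} (hG : Grows E κ) (hM : n * κ < M) {f : A} (hf : f ≠ 0)
    {ε : ℤ} (hε : ε = 1 ∨ ε = -1) : ∃ (w l : ℤ) (m : ℕ), E.At n M ε w l m f := by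
  obtain ⟨B, d, hB⟩ := weight_bound hG hM f
  obtain ⟨l₀, m₀, hc₀⟩ := E.exists_c_ne hf
  -- the maximal weight
  obtain ⟨w, ⟨⟨l₁, m₁, hc₁, hw₁⟩, hw⟩⟩ : ∃ w : ℤ, (∃ (l : ℤ) (m : ℕ), E.c f l m ≠ 0 ∧
      (n : ℤ) * m - M * l = w) ∧ ∀ z : ℤ, (∃ (l : ℤ) (m : ℕ), E.c f l m ≠ 0 ∧
      (n : ℤ) * m - M * l = z) → z ≤ w := by
    apply Int.exists_greatest_of_bdd
    · refine ⟨B + d, ?_⟩
      rintro z ⟨l, m, hc, rfl⟩
      have := hB l m hc
      linarith [this.1, this.2]
    · exact ⟨_, l₀, m₀, hc₀, rfl⟩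
  -- extreme index
  rcases hε with rfl | rfl
  · obtain ⟨l, ⟨m, hc, hm⟩, hmin⟩ : ∃ l : ℤ, (∃ m : ℕ, E.c f l m ≠ 0 ∧ (n : ℤ) * m - M * l = w) ∧
        ∀ z : ℤ, (∃ m : ℕ, E.c f z m ≠ 0 ∧ (n : ℤ) * m - M * z = w) → l ≤ z := by
      apply Int.exists_least_of_bdd
      · refine ⟨-d, ?_⟩
        rintro z ⟨m, hc, _⟩
        exact (hB z m hc).1
      · exact ⟨l₁, m₁, hc₁, hw₁⟩
    refine ⟨w, l, m, hc, by linarith, ?_, ?_⟩
    · intro l' m' hc'
      have := hw _ ⟨l', m', hc', rfl⟩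
      linarith
    · intro l' m' hc' hl'
      have h1 := hw _ ⟨l', m', hc', rfl⟩
      by_contra h2
      have h3 := hmin l' ⟨m', hc', by linarith⟩
      linarith
  · obtain ⟨l, ⟨m, hc, hm⟩, hmin⟩ : ∃ l : ℤ, (∃ m : ℕ, E.c f l m ≠ 0 ∧ (n : ℤ) * m - M * l = w) ∧
        ∀ z : ℤ, (∃ m : ℕ, E.c f z m ≠ 0 ∧ (n : ℤ) * m - M * z = w) → z ≤ l := by
      apply Int.exists_greatest_of_bdd
      · refine ⟨B - w, ?_⟩
        rintro z ⟨m, hc, hm⟩
        have := (hB z m hc).2
        linarith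
      · exact ⟨l₁, m₁, hc₁, hw₁⟩
    refine ⟨w, l, m, hc, by linarith, ?_, ?_⟩
    · intro l' m' hc'
      have := hw _ ⟨l', m', hc', rfl⟩
      linarith
    · intro l' m' hc' hl'
      have h1 := hw _ ⟨l', m', hc', rfl⟩
      by_contra h2
      have h3 := hmin l' ⟨m', hc', by linarith⟩
      linarith

/-- the two extreme indices. -/
theorem exists_at_pair {κ n M : ℕ} (hG : Grows E κ) (hM : n * κ < M) {f : A} (hf : f ≠ 0) :
    ∃ (w l₀ l₁ : ℤ) (m₀ m₁ : ℕ), l₀ ≤ l₁ ∧ E.At n M 1 w l₀ m₀ f ∧ E.At n M (-1) w l₁ m₁ f := by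
  obtain ⟨w, l, m, h⟩ := exists_at hG hM hf (Or.inl rfl)
  obtain ⟨w', l', m', h'⟩ := exists_at hG hM hf (Or.inr rfl)
  have hw : w = w' := by
    have h1 := h.2.2.1 l' m' h'.1
    have h2 := h'.2.2.1 l m h.1
    have h3 := h.2.1
    have h4 := h'.2.1
    linarith
  subst hw
  refine ⟨w, l, l', m, m', ?_, h, h'⟩
  by_contra hlt
  push Not at hlt
  have := h.2.2.2 l' m' h'.1 (by linarith)
  have h4 := h'.2.1
  linarith

theorem top_iff {n M i a : ℕ} (hn : 1 ≤ n) {f : A} : E.Top n M i a f ↔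
    E.c f (-(a : ℤ)) i = 1 ∧ E.UA n M (n * i + M * a) (-(a : ℤ)) i f := by
  have hn' : (0 : ℤ) < n := by positivity
  constructor
  · rintro ⟨h1, h2, h3⟩
    have h4 : E.c f (-(a : ℤ)) i = 1 := by
      unfold c
      rw [← h2]
      exact h1
    refine ⟨h4, by rw [h4]; exact one_ne_zero, by ring, ?_⟩
    intro l m hc hne
    by_cases hl : l = -(a : ℤ)
    · subst hl
      have h5 : m ≤ i := h2 ▸ le_natDegree_of_ne_zero hc
      have h6 : m ≠ i := fun h => hne (by rw [h])
      have h7 : m < i := lt_of_le_of_ne h5 h6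
      have h8 : (n : ℤ) * m < n * i := by
        apply mul_lt_mul_of_pos_left _ hn'
        exact_mod_cast h7
      linarith
    · have h5 := h3 l hl (by
        intro h0
        apply hc
        unfold c
        rw [h0, coeff_zero])
      have h6 : (n : ℤ) * m ≤ n * (E.co f l).natDegree := by
        apply mul_le_mul_of_nonneg_left _ hn'.le
        exact_mod_cast le_natDegree_of_ne_zero hc
      linarith
  · rintro ⟨h1, h2⟩
    have hdeg : (E.co f (-(a : ℤ))).natDegree = i := by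
      apply le_antisymm
      · by_contra hlt
        push Not at hlt
        have hne : E.co f (-(a : ℤ)) ≠ 0 := by
          intro h0
          rw [h0, natDegree_zero] at hlt
          omega
        have h3 := h2.2.2 (-(a : ℤ)) (E.co f (-(a : ℤ))).natDegree
          (leadingCoeff_ne_zero.2 hne) (by
            intro h
            rw [Prod.mk.injEq] at h
            omega)
        have h4 : (n : ℤ) * i ≤ n * (E.co f (-(a : ℤ))).natDegree := by
          apply mul_le_mul_of_nonneg_left _ hn'.le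
          exact_mod_cast hlt.le
        linarith
      · exact le_natDegree_of_ne_zero h2.1
    refine ⟨?_, hdeg, ?_⟩
    · rw [Monic, leadingCoeff, hdeg]
      exact h1
    · intro l hl hne
      have := h2.2.2 l _ (leadingCoeff_ne_zero.2 hne) (by
        intro h
        rw [Prod.mk.injEq] at h
        exact hl h.1)
      linarith

theorem wlt_iff {n M : ℕ} {w : ℤ} {f : A} : E.WLt n M w f ↔
    ∀ (l : ℤ) (m : ℕ), E.c f l m ≠ 0 → (n : ℤ) * m < w + M * l := by
  constructor
  · intro h l m hc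
    have hne : E.co f l ≠ 0 := by
      intro h0
      apply hc
      unfold c
      rw [h0, coeff_zero]
    have h1 := h l hne
    have h6 : (n : ℤ) * m ≤ n * (E.co f l).natDegree := by
      apply mul_le_mul_of_nonneg_left _ (Int.natCast_nonneg n)
      exact_mod_cast le_natDegree_of_ne_zero hc
    linarith
  · intro h l hne
    exact h l _ (leadingCoeff_ne_zero.2 hne)

/-- `q` has pole order `n` along the section and leading coefficient one. -/
theorem InV.monicAt {n M : ℕ} (hn : 1 ≤ n) {q : A} (h : E.InV n M q) :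
    E.co q (-(n : ℤ)) = 1 ∧ ∀ i < -(n : ℤ), E.co q i = 0 := by
  obtain ⟨c, hc, hcM, hT⟩ := h
  have hq : ∀ l : ℤ, l ≠ 0 → E.co q l = E.co (q - aeval E.s c) l := by
    intro l hl
    rw [co_sub, co_aeval, if_neg hl, sub_zero]
  constructor
  · rw [hq _ (by omega)]
    exact eq_one_of_monic_natDegree_zero hT.1 hT.2.1
  · intro i hi
    rw [hq _ (by omega)]
    by_contra hne
    have := hT.2.2 i (by omega) hne
    have h1 : (0 : ℤ) ≤ (n : ℤ) * (E.co (q - aeval E.s c) i).natDegree := by positivity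
    have h2 : (M : ℤ) * (n + i) ≤ 0 := by
      apply mul_nonpos_of_nonneg_of_nonpos
      · positivity
      · linarith
    push_cast at this
    linarith

theorem InV.at {n M : ℕ} (hn : 1 ≤ n) {q : A} (h : E.InV n M q) :
    E.At n M 1 (n * M) (-(n : ℤ)) 0 q ∧ E.At n M (-1) (n * M) 0 M q := by
  have hm := h.monicAt hn
  obtain ⟨c₀, hc, hcM, hT⟩ := h
  have hn' : (0 : ℤ) < n := by positivity
  have hU := (top_iff hn).1 hT
  have hq : ∀ l : ℤ, l ≠ 0 → ∀ m, E.c q l m = E.c (q - aeval E.s c₀) l m := by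
    intro l hl m
    unfold c
    rw [co_sub, co_aeval, if_neg hl, sub_zero]
  have hq0 : ∀ m, E.c q 0 m = E.c (q - aeval E.s c₀) 0 m + c₀.coeff m := by
    intro m
    unfold c
    rw [co_sub, co_aeval, if_pos rfl, coeff_sub]
    ring
  have hle : ∀ (l' : ℤ) (m' : ℕ), E.c q l' m' ≠ 0 → l' ≠ -(n : ℤ) → l' ≠ 0 →
      (n : ℤ) * m' < n * M + M * l' := by
    intro l' m' hc' h1 h2
    rw [hq l' h2] at hc'
    have := hU.2.2.2 l' m' hc' (by
      intro h
      rw [Prod.mk.injEq] at h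
      exact h1 h.1)
    push_cast at this
    linarith
  have hle0 : ∀ m' : ℕ, E.c q 0 m' ≠ 0 → (n : ℤ) * m' ≤ n * M := by
    intro m' hc'
    rw [hq0] at hc'
    by_contra hlt
    push Not at hlt
    have h1 : (M : ℤ) < m' := lt_of_mul_lt_mul_left hlt hn'.le
    have h2 : c₀.coeff m' = 0 := by
      apply coeff_eq_zero_of_natDegree_lt
      rw [hcM]
      exact_mod_cast h1
    rw [h2, add_zero] at hc'
    have := hU.2.2.2 0 m' hc' (by
      intro h
      rw [Prod.mk.injEq] at h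
      omega)
    push_cast at this
    linarith
  have hleN : ∀ m' : ℕ, E.c q (-(n : ℤ)) m' ≠ 0 → m' = 0 := by
    intro m' hc'
    unfold c at hc'
    rw [hm.1, coeff_one] at hc'
    by_contra h
    rw [if_neg h] at hc'
    exact hc' rfl
  have hall : ∀ (l' : ℤ) (m' : ℕ), E.c q l' m' ≠ 0 → (n : ℤ) * m' ≤ n * M + M * l' := by
    intro l' m' hc'
    by_cases h1 : l' = -(n : ℤ)
    · subst h1
      rw [hleN m' hc']
      push_cast
      linarith
    · by_cases h2 : l' = 0
      · subst h2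
        have := hle0 m' hc'
        linarith
      · exact (hle l' m' hc' h1 h2).le
  refine ⟨⟨?_, ?_, hall, ?_⟩, ⟨?_, ?_, hall, ?_⟩⟩
  · unfold c
    rw [hm.1]
    simp
  · push_cast
    ring
  · intro l' m' hc' hlt
    exfalso
    apply hc'
    unfold c
    rw [hm.2 l' (by linarith), coeff_zero]
  · rw [hq0]
    have h1 : E.c (q - aeval E.s c₀) 0 M = 0 := by
      by_contra hne
      have := hU.2.2.2 0 M hne (by
        intro h
        rw [Prod.mk.injEq] at h
        omega)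
      push_cast at this
      linarith
    rw [h1, zero_add, ← hcM]
    change c₀.leadingCoeff ≠ 0
    rw [hc.leadingCoeff]
    exact one_ne_zero
  · push_cast
    ring
  · intro l' m' hc' hlt
    exact hle l' m' hc' (by intro h; rw [h] at hlt; linarith) (by intro h; rw [h] at hlt; linarith)

/-- In a sum of elements with unique maximal monomials, a maximal monomial which is different from
the others survives. -/
theorem c_sum_eq {α : Type*} [DecidableEq α] {n M : ℕ} (T : Finset α) (f : α → A)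
    (w l : α → ℤ) (m : α → ℕ) (hU : ∀ τ ∈ T, f τ ≠ 0 → E.UA n M (w τ) (l τ) (m τ) (f τ))
    {σ : α} (hσ : σ ∈ T) (hσ0 : f σ ≠ 0) (hmax : ∀ τ ∈ T, f τ ≠ 0 → w τ ≤ w σ)
    (hd : ∀ τ ∈ T, f τ ≠ 0 → τ ≠ σ → w τ = w σ → l τ ≠ l σ) :
    E.c (∑ τ ∈ T, f τ) (l σ) (m σ) = E.c (f σ) (l σ) (m σ) := by
  rw [c_sum]
  apply Finset.sum_eq_single σ
  · intro τ hτ hne
    by_contra hc
    have hf : f τ ≠ 0 := by
      intro h0
      rw [h0] at hc
      exact hc (E.c_zero _ _)
    have h1 := (hU σ hσ hσ0).2.1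
    by_cases he : (l σ, m σ) = (l τ, m τ)
    · rw [Prod.mk.injEq] at he
      have h2 := (hU τ hτ hf).2.1
      rw [← he.1, ← he.2] at h2
      exact hd τ hτ hf hne (by linarith) he.1.symm
    · have h2 := (hU τ hτ hf).2.2 _ _ hc he
      have h3 := hmax τ hτ hf
      linarith
  · intro h
    exact absurd hσ h

/-- `WLt` for sums. -/
theorem wlt_sum {α : Type*} {n M : ℕ} {w : ℤ} (T : Finset α) (f : α → A)
    (h : ∀ τ ∈ T, ∀ (l : ℤ) (m : ℕ), E.c (f τ) l m ≠ 0 → (n : ℤ) * m < w + M * l) (l : ℤ) (m : ℕ)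
    (hc : E.c (∑ τ ∈ T, f τ) l m ≠ 0) : (n : ℤ) * m < w + M * l := by
  rw [c_sum] at hc
  obtain ⟨τ, hτ, hne⟩ := Finset.exists_ne_zero_of_sum_ne_zero hc
  exact h τ hτ l m hne

/-- A sum of elements with unique maximal monomials of pairwise different weights has a unique
maximal monomial. -/
theorem ua_sum {α : Type*} [DecidableEq α] {n M : ℕ} (T : Finset α) (f : α → A)
    (w l : α → ℤ) (m : α → ℕ) (hU : ∀ τ ∈ T, f τ ≠ 0 → E.UA n M (w τ) (l τ) (m τ) (f τ))
    (hd : ∀ τ ∈ T, ∀ σ ∈ T, f τ ≠ 0 → f σ ≠ 0 → w τ = w σ → τ = σ)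
    (hne : ∃ τ ∈ T, f τ ≠ 0) :
    ∃ σ ∈ T, f σ ≠ 0 ∧ E.UA n M (w σ) (l σ) (m σ) (∑ τ ∈ T, f τ) := by
  classical
  obtain ⟨σ, hσ, hmax⟩ := Finset.exists_max_image (T.filter fun τ => f τ ≠ 0) w
    (by obtain ⟨τ, hτ, h⟩ := hne; exact ⟨τ, Finset.mem_filter.2 ⟨hτ, h⟩⟩)
  rw [Finset.mem_filter] at hσ
  refine ⟨σ, hσ.1, hσ.2, ?_, (hU σ hσ.1 hσ.2).2.1, ?_⟩
  · rw [c_sum_eq T f w l m hU hσ.1 hσ.2]
    · exact (hU σ hσ.1 hσ.2).1
    · intro τ hτ hf
      exact hmax τ (Finset.mem_filter.2 ⟨hτ, hf⟩)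
    · intro τ hτ hf hne' hw
      exact absurd (hd τ hτ σ hσ.1 hf hσ.2 hw) hne'
  · intro l' m' hc hne'
    rw [c_sum] at hc
    obtain ⟨τ, hτ, hne''⟩ := Finset.exists_ne_zero_of_sum_ne_zero hc
    have hf : f τ ≠ 0 := by
      intro h0
      rw [h0] at hne''
      exact hne'' (E.c_zero _ _)
    by_cases hτσ : τ = σ
    · subst hτσ
      exact (hU τ hτ hf).2.2 l' m' hne'' hne'
    · have h1 := ((hU τ hτ hf).at 1).2.2.1 l' m' hne''
      have h2 := hmax τ (Finset.mem_filter.2 ⟨hτ, hf⟩)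
      have h3 : w τ ≠ w σ := fun h => hτσ (hd τ hτ σ hσ.1 hf hσ.2 h)
      have h4 : w τ < w σ := lt_of_le_of_ne h2 h3
      linarith

/-- The elements `1, Y, ..., Y^(n-1)` are independent modulo `q` over `k[s]`. -/
theorem indep_mod {κ n M i a : ℕ} (hG : Grows E κ) (hM : n * κ < M) (hn : 1 ≤ n)
    (ha : n.Coprime a) (hcM : n.Coprime M) {q Y : A} (hq : E.InV n M q) (hY : E.Top n M i a Y)
    (r : ℕ → k[X]) (g : A) (h : ∑ j ∈ Finset.range n, aeval E.s (r j) * Y ^ j = q * g) :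
    ∀ j < n, r j = 0 := by
  classical
  by_contra hcon
  push Not at hcon
  obtain ⟨j₀, hj₀, hr₀⟩ := hcon
  have hUY := ((top_iff hn).1 hY).2
  have hU : ∀ j, r j ≠ 0 → E.UA n M (n * (r j).natDegree + j * (n * i + M * a))
      (0 + j * (-(a : ℤ))) ((r j).natDegree + j * i) (aeval E.s (r j) * Y ^ j) := by
    intro j hj
    exact (ua_aeval hn M (r j) hj).mul hn (hUY.pow hn j)
  have hz : IsCoprime (n : ℤ) (n * i + M * a) := by
    have : IsCoprime (n : ℤ) (M * a) := by
      exact_mod_cast Nat.isCoprime_iff_coprime.2 (Nat.Coprime.mul_right hcM ha)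
    exact (IsCoprime.mul_add_left_right_iff).2 this
  have hr : ∀ j, aeval E.s (r j) * Y ^ j ≠ 0 → r j ≠ 0 := by
    intro j hne h0
    rw [h0] at hne
    simp at hne
  obtain ⟨σ, hσ, hσ0, hS⟩ := ua_sum (Finset.range n) (fun j => aeval E.s (r j) * Y ^ j)
    (fun j => n * (r j).natDegree + j * (n * i + M * a)) (fun j => 0 + j * (-(a : ℤ)))
    (fun j => (r j).natDegree + j * i) (fun j _ hne => hU j (hr j hne))
    (by
      intro j hj j' hj' _ _ hw
      rw [Finset.mem_range] at hj hj'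
      have h1 : (n : ℤ) ∣ ((j : ℤ) - j') * (n * i + M * a) := by
        refine ⟨(r j').natDegree - (r j).natDegree, ?_⟩
        linarith
      have h2 : (n : ℤ) ∣ (j : ℤ) - j' := hz.dvd_of_dvd_mul_right h1
      have h3 : (j : ℤ) - j' = 0 := by
        apply Int.eq_zero_of_abs_lt_dvd h2
        rw [abs_lt]
        constructor <;> omega
      omega)
    ⟨j₀, Finset.mem_range.2 hj₀, (hU j₀ hr₀).ne_zero⟩
  rw [h] at hS
  have hg : g ≠ 0 := by
    rintro rfl
    rw [mul_zero] at hS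
    exact hS.ne_zero rfl
  obtain ⟨w, l₀, l₁, m₀, m₁, hl, hg0, hg1⟩ := exists_at_pair hG hM hg
  obtain ⟨hq0, hq1⟩ := hq.at hn
  have e0 := (hS.at 1).unique hn (Or.inl rfl) (hq0.mul hn (Or.inl rfl) hg0)
  have e1 := (hS.at (-1)).unique hn (Or.inr rfl) (hq1.mul hn (Or.inr rfl) hg1)
  have h5 := e0.2.1
  have h6 := e1.2.1
  have : (0 : ℤ) < n := by positivity
  linarith

end Pool.Agent.K1.SectionExp
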