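import Pool.Agent.K1.CurveDef
import Pool.Agent.K1.M6a

/-!
K1-27: weights of elements of the ring `A`, functions with given top form.
-/

set_option autoImplicit false

open Polynomial

namespace Pool.Agent.K1

open SectionExp

section E

variable {k A : Type*} [Field k] [CommRing A] [Algebra k A] (E : SectionExp k A)

/-- a strict bound for the degrees of two polynomials is one for the sum -/
theorem add_bound {n : ℕ} {B : ℤ} {P Q : k[X]} (hP : P ≠ 0 → (n : ℤ) * (P.natDegree : ℤ) < B)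
    (hQ : Q ≠ 0 → (n : ℤ) * (Q.natDegree : ℤ) < B) (hPQ : P + Q ≠ 0) :
    (n : ℤ) * ((P + Q).natDegree : ℤ) < B := by
  rcases eq_or_ne P 0 with rfl | hP0
  · rw [zero_add] at hPQ ⊢
    exact hQ hPQ
  rcases eq_or_ne Q 0 with rfl | hQ0
  · rw [add_zero] at hPQ ⊢
    exact hP hPQ
  have h1 := hP hP0
  have h2 := hQ hQ0
  have h3 := natDegree_add_le P Q
  rcases le_total P.natDegree Q.natDegree with h4 | h4
  · rw [max_eq_right h4] at h3
    have h5 : (n : ℤ) * ((P + Q).natDegree : ℤ) ≤ n * (Q.natDegree : ℤ) :=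
      mul_le_mul_of_nonneg_left (by exact_mod_cast h3) (Int.natCast_nonneg n)
    linarith
  · rw [max_eq_left h4] at h3
    have h5 : (n : ℤ) * ((P + Q).natDegree : ℤ) ≤ n * (P.natDegree : ℤ) :=
      mul_le_mul_of_nonneg_left (by exact_mod_cast h3) (Int.natCast_nonneg n)
    linarith

theorem top_add_wlt {n M i a : ℕ} {f g : A} (hf : E.Top n M i a f)
    (hg : E.WLt n M ((n * i + M * a : ℕ) : ℤ) g) : E.Top n M i a (f + g) := by
  obtain ⟨h1, h2, h3⟩ := hf
  have hdeg : (E.co g (-(a : ℤ))).degree < (E.co f (-(a : ℤ))).degree := by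
    rcases eq_or_ne (E.co g (-(a : ℤ))) 0 with h0 | h0
    · rw [h0, degree_zero, bot_lt_iff_ne_bot, Ne, degree_eq_bot]
      exact h1.ne_zero
    · have h4 := hg _ h0
      push_cast at h4
      have h5 : (n : ℤ) * ((E.co g (-(a : ℤ))).natDegree : ℤ) < n * i := by linarith
      have h6 : n * (E.co g (-(a : ℤ))).natDegree < n * i := by exact_mod_cast h5
      have h7 : (E.co g (-(a : ℤ))).natDegree < i := lt_of_mul_lt_mul_left h6 (Nat.zero_le n)
      rw [degree_eq_natDegree h0, degree_eq_natDegree h1.ne_zero, h2]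
      exact_mod_cast h7
  refine ⟨?_, ?_, ?_⟩
  · rw [co_add]
    exact h1.add_of_left hdeg
  · rw [co_add, natDegree_add_eq_left_of_degree_lt hdeg, h2]
  · intro l hl hne
    rw [co_add] at hne ⊢
    apply add_bound (fun h => h3 l hl h) (fun h => ?_) hne
    have := hg l h
    push_cast at this
    linarith

theorem inV_add_wlt {n M : ℕ} {q g : A} (hq : E.InV n M q)
    (hg : E.WLt n M ((n * M : ℕ) : ℤ) g) : E.InV n M (q + g) := by
  obtain ⟨c, h1, h2, h3⟩ := hq
  refine ⟨c, h1, h2, ?_⟩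
  have h4 : q + g - aeval E.s c = (q - aeval E.s c) + g := by ring
  rw [h4]
  apply top_add_wlt E h3
  have h5 : n * 0 + M * n = n * M := by ring
  rw [h5]
  exact hg

theorem wlt_of_top {n M i a : ℕ} (hn : 1 ≤ n) {f : A} (hf : E.Top n M i a f) {w : ℤ}
    (hw : ((n * i + M * a : ℕ) : ℤ) < w) : E.WLt n M w f := by
  obtain ⟨h1, h2, h3⟩ := hf
  push_cast at hw
  intro l hl
  rcases eq_or_ne l (-(a : ℤ)) with rfl | h
  · rw [h2]
    linarith
  · have := h3 l h hl
    linarith

theorem wlt_mono {n M : ℕ} {w w' : ℤ} (h : w ≤ w') {f : A} (hf : E.WLt n M w f) :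
    E.WLt n M w' f := by
  intro l hl
  have := hf l hl
  linarith

theorem wlt_add {n M : ℕ} {w : ℤ} {f g : A} (hf : E.WLt n M w f) (hg : E.WLt n M w g) :
    E.WLt n M w (f + g) := by
  intro l hl
  rw [co_add] at hl ⊢
  exact add_bound (fun h => hf l h) (fun h => hg l h) hl

theorem wlt_neg {n M : ℕ} {w : ℤ} {f : A} (hf : E.WLt n M w f) : E.WLt n M w (-f) := by
  intro l hl
  rw [co_neg] at hl ⊢
  rw [natDegree_neg]
  exact hf l (neg_ne_zero.1 hl)

theorem wlt_smul {n M : ℕ} {w : ℤ} (b : k) {f : A} (hf : E.WLt n M w f) :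
    E.WLt n M w (b • f) := by
  intro l hl
  rw [Algebra.smul_def, co_algebraMap_mul] at hl ⊢
  have h1 := hf l (right_ne_zero_of_mul hl)
  have h2 : (n : ℤ) * ((C b * E.co f l).natDegree : ℤ) ≤ n * ((E.co f l).natDegree : ℤ) :=
    mul_le_mul_of_nonneg_left (by exact_mod_cast natDegree_C_mul_le b _) (Int.natCast_nonneg n)
  linarith

theorem wlt_zero {n M : ℕ} {w : ℤ} : E.WLt n M w 0 := by
  intro l hl
  rw [co_zero] at hl
  exact absurd rfl hl

omit [CommRing A] [Algebra k A] in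
theorem natDegree_poly5 (v : Fin 5 → k) : (poly5 v).natDegree ≤ 4 := by
  unfold poly5
  apply natDegree_sum_le_of_forall_le
  intro i _
  apply (natDegree_C_mul_X_pow_le (v i) (i : ℕ)).trans
  have := i.2
  omega

/-- `poly5 v` has degree at most four. -/
theorem wlt_aeval {n M : ℕ} {w : ℤ} (hw : 4 * (n : ℤ) < w) (v : Fin 5 → k) :
    E.WLt n M w (aeval E.s (poly5 v)) := by
  intro l hl
  rw [co_aeval] at hl ⊢
  by_cases h : l = 0
  · rw [if_pos h, h]
    have h1 : ((poly5 v).natDegree : ℤ) ≤ 4 := by exact_mod_cast natDegree_poly5 v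
    have h2 : (n : ℤ) * ((poly5 v).natDegree : ℤ) ≤ n * 4 :=
      mul_le_mul_of_nonneg_left h1 (Int.natCast_nonneg n)
    linarith
  · rw [if_neg h] at hl
    exact absurd rfl hl

/-- A fixed finite set has bounded weight (uniformly in `n`, `M`). -/
theorem wlt_finset (G : Finset A) : ∃ e₀ P μ : ℕ, ∀ n M : ℕ, 1 ≤ n → μ * n ≤ M →
    ∀ g ∈ Submodule.span k (G : Set A), E.WLt n M ((n * e₀ + M * P : ℕ) : ℤ) g := by
  obtain ⟨κ, hκ⟩ := exists_grows E
  choose e he using hκ
  choose d hd using exists_pole_bound E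
  refine ⟨G.sup e, G.sup d + 1, κ + 1, ?_⟩
  intro n M hn hM g hg
  induction hg using Submodule.span_induction with
  | mem g hg =>
    intro l hl
    have hg' : g ∈ G := hg
    have h1 : -(d g : ℤ) ≤ l := by
      by_contra h
      exact hl (hd g l (by omega))
    have h2 : (d g : ℤ) ≤ G.sup d := by exact_mod_cast Finset.le_sup (f := d) hg'
    have h3 : (e g : ℤ) ≤ G.sup e := by exact_mod_cast Finset.le_sup (f := e) hg'
    have h4 : ((E.co g l).natDegree : ℤ) ≤ e g + κ * (l.toNat : ℤ) := by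
      exact_mod_cast he g l
    have h5 : ((κ : ℤ) + 1) * n ≤ M := by exact_mod_cast hM
    have hn' : (1 : ℤ) ≤ n := by exact_mod_cast hn
    have h6 : (n : ℤ) * ((E.co g l).natDegree : ℤ) ≤ n * (G.sup e + κ * (l.toNat : ℤ)) :=
      mul_le_mul_of_nonneg_left (by linarith) (by linarith)
    have h7 : (l.toNat : ℤ) + 1 ≤ G.sup d + 1 + l ∨ l.toNat = 0 := by
      rcases le_or_gt 0 l with h | h
      · left
        rw [Int.toNat_of_nonneg h]
        have : (0 : ℤ) ≤ G.sup d := Int.natCast_nonneg _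
        linarith
      · right
        exact Int.toNat_eq_zero.2 h.le
    have h8 : (1 : ℤ) ≤ G.sup d + 1 + l := by linarith
    have hκ0 : (0 : ℤ) ≤ κ := Int.natCast_nonneg _
    have h9 : ((κ : ℤ) + 1) * n * (G.sup d + 1 + l) ≤ M * (G.sup d + 1 + l) :=
      mul_le_mul_of_nonneg_right h5 (by linarith)
    have h10 : (n : ℤ) * (κ * (l.toNat : ℤ)) < ((κ : ℤ) + 1) * n * (G.sup d + 1 + l) := by
      rcases h7 with h7 | h7
      · have h11 : (n : ℤ) * κ * ((l.toNat : ℤ) + 1) ≤ n * κ * (G.sup d + 1 + l) :=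
          mul_le_mul_of_nonneg_left h7 (mul_nonneg (by linarith) hκ0)
        have h12 : (0 : ℤ) ≤ n * κ := mul_nonneg (by linarith) hκ0
        nlinarith
      · rw [h7]
        have : (0 : ℤ) < ((κ : ℤ) + 1) * n * (G.sup d + 1 + l) := by positivity
        simpa using this
    push_cast
    linarith
  | zero => exact wlt_zero E
  | add x y _ _ hx hy => exact wlt_add E hx hy
  | smul b x _ hx => exact wlt_smul E b hx

/-- the leading coefficient is one, and a bound for the degrees -/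
def Unif (μ a : ℕ) (u : A) : Prop :=
  E.c u (-(a : ℤ)) 0 = 1 ∧ ∀ (l : ℤ) (m : ℕ), E.c u l m ≠ 0 →
    -(a : ℤ) ≤ l ∧ (m : ℤ) ≤ μ * (a + l)

variable {E}

theorem Unif.mul {μ a b : ℕ} {u v : A} (hu : Unif E μ a u) (hv : Unif E μ b v) :
    Unif E μ (a + b) (u * v) := by
  constructor
  · have h1 : E.c u (-(a : ℤ)) 0 ≠ 0 := by rw [hu.1]; exact one_ne_zero
    have h2 : E.c v (-(b : ℤ)) 0 ≠ 0 := by rw [hv.1]; exact one_ne_zero
    have h3 := E.c_mul_single h1 h2 (by
      intro i j α β hij hαβ hi hj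
      have h4 := (hu.2 i α hi).1
      have h5 := (hv.2 j β hj).1
      constructor <;> omega)
    rw [hu.1, hv.1, mul_one] at h3
    have h4 : -((a + b : ℕ) : ℤ) = -(a : ℤ) + -(b : ℤ) := by
      push_cast
      ring
    rw [h4]
    exact h3
  · intro l m hc
    obtain ⟨i, j, α, β, rfl, rfl, hi, hj⟩ := E.c_mul_exists hc
    have h4 := hu.2 i α hi
    have h5 := hv.2 j β hj
    push_cast
    constructor
    · linarith [h4.1, h5.1]
    · linarith [h4.2, h5.2]

theorem Unif.props {μ a : ℕ} {u : A} (hu : Unif E μ a u) :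
    E.co u (-(a : ℤ)) = 1 ∧ (∀ l < -(a : ℤ), E.co u l = 0) ∧
    ∀ l : ℤ, -(a : ℤ) ≤ l → ((E.co u l).natDegree : ℤ) ≤ μ * (a + l) := by
  refine ⟨?_, ?_, ?_⟩
  · ext m
    rw [coeff_one]
    by_cases hm : m = 0
    · rw [if_pos hm, hm]
      exact hu.1
    · rw [if_neg hm]
      by_contra h
      have h1 := (hu.2 _ m h).2
      rw [add_neg_cancel, mul_zero] at h1
      omega
  · intro l hl
    ext m
    rw [coeff_zero]
    by_contra h
    have h1 := (hu.2 _ m h).1
    omega
  · intro l hl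
    rcases eq_or_ne (E.co u l) 0 with h0 | h0
    · rw [h0, natDegree_zero]
      have h1 : (0 : ℤ) ≤ a + l := by linarith
      have h2 : (0 : ℤ) ≤ μ := Int.natCast_nonneg _
      simpa using mul_nonneg h2 h1
    · exact (hu.2 l _ (leadingCoeff_ne_zero.2 h0)).2

variable (E)

theorem exists_Unif : ∃ j₀ μ : ℕ, 1 ≤ j₀ ∧ ∀ a : ℕ, j₀ ≤ a → ∃ u : A, Unif E μ a u := by
  obtain ⟨κ, hκ⟩ := exists_grows E
  choose e he using hκ
  obtain ⟨j₀, hj₀⟩ := E.mono
  have hmono : ∀ j : ℕ, ∃ u : A, max j₀ 1 ≤ j → (E.co u (-(j : ℤ)) = 1 ∧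
      ∀ i < -(j : ℤ), E.co u i = 0) := by
    intro j
    by_cases h : max j₀ 1 ≤ j
    · obtain ⟨u, hu⟩ := hj₀ j ((le_max_left _ _).trans h)
      exact ⟨u, fun _ => hu⟩
    · exact ⟨0, fun h' => absurd h' h⟩
  choose u hu using hmono
  set j₁ := max j₀ 1 with hj₁
  have hj₁1 : 1 ≤ j₁ := le_max_right _ _
  set μ := (Finset.range (2 * j₁)).sup (fun j => e (u j)) + κ with hμ
  have hbase : ∀ j : ℕ, j₁ ≤ j → j < 2 * j₁ → Unif E μ j (u j) := by
    intro j h1 h2
    obtain ⟨h3, h4⟩ := hu j h1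
    constructor
    · unfold c
      rw [h3, coeff_one_zero]
    · intro l m hc
      have h5 : -(j : ℤ) ≤ l := by
        by_contra h
        apply hc
        unfold c
        rw [h4 l (by omega), coeff_zero]
      refine ⟨h5, ?_⟩
      rcases eq_or_ne l (-(j : ℤ)) with rfl | h6
      · have h7 : m = 0 := by
          by_contra h
          apply hc
          unfold c
          rw [h3, coeff_one, if_neg h]
        rw [h7, add_neg_cancel, mul_zero]
        simp
      · have h7 : (1 : ℤ) ≤ j + l := by omega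
        have h8 : m ≤ e (u j) + κ * l.toNat := (le_natDegree_of_ne_zero hc).trans (he (u j) l)
        have h9 : e (u j) ≤ (Finset.range (2 * j₁)).sup (fun j => e (u j)) :=
          Finset.le_sup (f := fun j => e (u j)) (Finset.mem_range.2 h2)
        have h10 : (l.toNat : ℤ) ≤ j + l := by
          rcases le_or_gt 0 l with h | h
          · rw [Int.toNat_of_nonneg h]
            have : (0 : ℤ) ≤ j := Int.natCast_nonneg _
            linarith
          · rw [Int.toNat_eq_zero.2 h.le]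
            simp only [Nat.cast_zero]
            linarith
        have h11 : (m : ℤ) ≤ e (u j) + κ * (l.toNat : ℤ) := by exact_mod_cast h8
        have h12 : (e (u j) : ℤ) ≤
            ((Finset.range (2 * j₁)).sup (fun j => e (u j)) : ℕ) := by exact_mod_cast h9
        have h13 : (κ : ℤ) * (l.toNat : ℤ) ≤ κ * (j + l) :=
          mul_le_mul_of_nonneg_left h10 (Int.natCast_nonneg _)
        have h14 : (((Finset.range (2 * j₁)).sup (fun j => e (u j)) : ℕ) : ℤ) ≤
            ((Finset.range (2 * j₁)).sup (fun j => e (u j)) : ℕ) * (j + l) :=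
          le_mul_of_one_le_right (Int.natCast_nonneg _) h7
        rw [hμ]
        push_cast at h12 h14 ⊢
        linarith
  refine ⟨j₁, μ, hj₁1, ?_⟩
  intro a
  induction a using Nat.strong_induction_on with
  | _ a ih =>
    intro ha
    by_cases h : a < 2 * j₁
    · exact ⟨u a, hbase a ha h⟩
    · obtain ⟨v, hv⟩ := ih (a - j₁) (by omega) (by omega)
      refine ⟨v * u j₁, ?_⟩
      have h1 := hv.mul (hbase j₁ le_rfl (by omega))
      rwa [Nat.sub_add_cancel ha] at h1

/-- Functions of any large pole order `a`, with leading coefficient one, and with coefficients of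
degree at most `μ (a + l)`, uniformly in `a`. -/
theorem exists_unif : ∃ j₀ μ : ℕ, 1 ≤ j₀ ∧ ∀ a : ℕ, j₀ ≤ a → ∃ u : A,
    E.co u (-(a : ℤ)) = 1 ∧ (∀ l < -(a : ℤ), E.co u l = 0) ∧
    ∀ l : ℤ, -(a : ℤ) ≤ l → ((E.co u l).natDegree : ℤ) ≤ μ * (a + l) := by
  obtain ⟨j₀, μ, h1, h2⟩ := exists_Unif E
  refine ⟨j₀, μ, h1, ?_⟩
  intro a ha
  obtain ⟨u, hu⟩ := h2 a ha
  exact ⟨u, hu.props⟩

theorem exists_top : ∃ j₀ μ : ℕ, 1 ≤ j₀ ∧ ∀ n M i a : ℕ, 1 ≤ n → μ * n ≤ M → j₀ ≤ a →
    ∃ Y : A, E.Top n M i a Y := by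
  obtain ⟨j₀, μ, h1, h2⟩ := exists_unif E
  refine ⟨j₀, μ + 1, h1, ?_⟩
  intro n M i a hn hM ha
  obtain ⟨u, hu1, hu2, hu3⟩ := h2 a ha
  refine ⟨aeval E.s (X ^ i : k[X]) * u, ?_, ?_, ?_⟩
  · rw [co_aeval_mul, hu1, mul_one]
    exact monic_X_pow i
  · rw [co_aeval_mul, hu1, mul_one, natDegree_X_pow]
  · intro l hl hne
    rw [co_aeval_mul] at hne ⊢
    have h3 : E.co u l ≠ 0 := right_ne_zero_of_mul hne
    have h4 : -(a : ℤ) ≤ l := by
      by_contra h
      exact h3 (hu2 l (by omega))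
    have h5 : (1 : ℤ) ≤ a + l := by omega
    have h6 := hu3 l h4
    rw [natDegree_X_pow_mul i h3]
    have h7 : ((μ : ℤ) + 1) * n ≤ M := by exact_mod_cast hM
    have hn' : (1 : ℤ) ≤ n := by exact_mod_cast hn
    have h8 : (n : ℤ) * ((E.co u l).natDegree : ℤ) ≤ n * (μ * (a + l)) :=
      mul_le_mul_of_nonneg_left h6 (by linarith)
    have h9 : ((μ : ℤ) + 1) * n * (a + l) ≤ M * (a + l) :=
      mul_le_mul_of_nonneg_right h7 (by linarith)
    have h10 : (0 : ℤ) < n * (a + l) := by positivity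
    push_cast
    nlinarith

end E

end Pool.Agent.K1
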