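import Pool.Agent.K1.Herbrand
import Pool.Agent.K1.GerstenRel
import Pool.Agent.K1.DefsMov
import Pool.Agent.K1.LocDec
import Pool.Agent.K1.Wlt

/-!
The end game: from the local formula for the curves of a class to the statement on chains.
-/

set_option autoImplicit false

namespace Pool.Agent.K1

section facts

variable {A : Type*} [CommRing A]

/-- If `t₀ P ⊆ (q)`, `t₀ ∉ P`, then `q` has order one along `P`. -/
theorem vAt_eq_one (P : Curve1 A) {q t₀ : A} (hq : q ∈ P.ideal) (ht₀ : t₀ ∉ P.ideal)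
    (hJ : ∀ y ∈ P.ideal, t₀ * y ∈ Ideal.span {q}) : vAt P q = 1 := by
  have h1 : Ideal.span {algebraMap A (Localization.AtPrime P.ideal) q} =
      IsLocalRing.maximalIdeal (Localization.AtPrime P.ideal) := by
    apply le_antisymm
    · rw [Ideal.span_singleton_le_iff_mem]
      exact (IsLocalization.AtPrime.to_map_mem_maximal_iff _ P.ideal q).2 hq
    · rw [← Localization.AtPrime.map_eq_maximalIdeal, Ideal.map_le_iff_le_comap]
      intro y hy
      rw [Ideal.mem_comap, Ideal.mem_span_singleton']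
      obtain ⟨w, hw⟩ := Ideal.mem_span_singleton'.1 (hJ y hy)
      obtain ⟨u, hu⟩ := (IsLocalization.AtPrime.isUnit_to_map_iff
        (Localization.AtPrime P.ideal) P.ideal t₀).2 ht₀
      refine ⟨(u⁻¹ : (Localization.AtPrime P.ideal)ˣ) * algebraMap A _ w, ?_⟩
      rw [mul_assoc, ← map_mul, hw, map_mul, ← hu, ← mul_assoc, Units.inv_mul, one_mul]
  unfold vAt Ring.ord
  rw [h1]
  have h2 : Module.length (Localization.AtPrime P.ideal)
      ((Localization.AtPrime P.ideal) ⧸ IsLocalRing.maximalIdeal (Localization.AtPrime P.ideal))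
      = 1 := by
    rw [Module.length_eq_one_iff]
    rw [isSimpleModule_iff_isCoatom, ← Ideal.isMaximal_def]
    infer_instance
  rw [h2]
  rfl

/-- `a - b` vanishes on the other components of `q`. -/
theorem off_mem (P : Curve1 A) {q a b : A} (hab : ∀ y ∈ P.ideal, (a - b) * y ∈ Ideal.span {q})
    (P' : Curve1 A) (hne : P' ≠ P) (hq : q ∈ P'.ideal) : a - b ∈ P'.ideal := by
  have h1 : ¬ P.ideal ≤ P'.ideal := by
    intro hle
    apply hne
    apply Curve1.ext'
    have hp := P.isPrime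
    have hp' := P'.isPrime
    have h0 : P.ideal.FiniteHeight := by
      rw [Ideal.finiteHeight_iff]
      right
      rw [P.height]
      exact ENat.one_ne_top
    have h1 : P.ideal = P'.ideal :=
      Ideal.eq_of_le_of_height_le P.ideal hle (by rw [P.height, P'.height])
    exact h1.symm
  obtain ⟨y, hy, hy'⟩ := SetLike.not_le_iff_exists.1 h1
  have h2 : (a - b) * y ∈ P'.ideal := by
    obtain ⟨w, hw⟩ := Ideal.mem_span_singleton'.1 (hab y hy)
    rw [← hw]
    exact P'.ideal.mul_mem_left _ hq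
  exact (P'.isPrime.mem_or_mem h2).resolve_right hy'

end facts

section finite

variable {k A : Type*} [Field k] [CommRing A] [IsDomain A] [IsNoetherianRing A] [Algebra k A]

omit [IsDomain A] [IsNoetherianRing A] in
/-- The order is zero at the points outside the curve. -/
theorem ordPt_of_not_le (P : Ideal A) (x : A →ₐ[k] k) (c : A) (hP : ¬ P ≤ RingHom.ker x) :
    ordPt P x c = 0 := by
  obtain ⟨y, hy, hy'⟩ := SetLike.not_le_iff_exists.1 hP
  have h1 : IsUnit (algebraMap A (LocAt x) y) :=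
    (IsLocalization.AtPrime.isUnit_to_map_iff (LocAt x) (RingHom.ker x) y).2 hy'
  have h2 : P.map (algebraMap A (LocAt x)) = ⊤ :=
    Ideal.eq_top_of_isUnit_mem _ (Ideal.mem_map_of_mem _ hy) h1
  unfold ordPt lenP
  rw [h2, Module.length_eq_zero_iff, top_sup_eq]
  exact Ideal.Quotient.subsingleton_iff.2 rfl

omit [IsDomain A] [IsNoetherianRing A] in
/-- The order is zero at the points where the function does not vanish. -/
theorem ordPt_of_ne (P : Ideal A) (x : A →ₐ[k] k) (c : A) (hc : x c ≠ 0) :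
    ordPt P x c = 0 :=
  lenP_unit _ ((IsLocalization.AtPrime.isUnit_to_map_iff (LocAt x) (RingHom.ker x) c).2 hc)

/-- Orders at points are finite on a surface. -/
theorem ordPt_ne_top (hdim : ringKrullDim A ≤ 2) (P : Curve1 A) (x : A →ₐ[k] k) {c : A}
    (hc : c ∉ P.ideal) : ordPt P.ideal x c ≠ ⊤ := by
  by_cases hP : P.ideal ≤ RingHom.ker x
  swap
  · rw [ordPt_of_not_le P.ideal x c hP]
    exact ENat.zero_ne_top
  · set O := LocAt x
    set PO := P.ideal.map (algebraMap A O)
    -- the dimension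
    have hinj : Function.Injective (algebraMap A O) :=
      IsLocalization.injective _ (RingHom.ker x).primeCompl_le_nonZeroDivisors
    have hPne : P.ideal ≠ ⊥ := Ideal.ne_bot_of_height_eq_one P.height
    obtain ⟨r, hr, hr0⟩ := Submodule.exists_mem_ne_zero_of_ne_bot hPne
    have hr0' : algebraMap A O r ≠ 0 := fun h => hr0 (hinj (by rw [h, map_zero]))
    have hO : IsDomain O := IsLocalization.isDomain_of_le_nonZeroDivisors _
      (RingHom.ker x).primeCompl_le_nonZeroDivisors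
    have h1 : ringKrullDim O ≤ 2 := by
      rw [IsLocalization.AtPrime.ringKrullDim_eq_height (RingHom.ker x) O]
      exact (Ideal.height_le_ringKrullDim_of_isPrime).trans hdim
    have h2 := ringKrullDim_quotient_succ_le_of_nonZeroDivisor
      (mem_nonZeroDivisors_iff_ne_zero.2 hr0')
    have h3 : ringKrullDim (O ⧸ Ideal.span {algebraMap A O r}) ≤ 1 := by
      have h4 := h2.trans h1
      have h5 : (2 : WithBot ℕ∞) = 1 + 1 := by norm_num
      rw [h5, ENat.WithBot.add_le_add_one_right_iff] at h4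
      exact h4
    have hle : Ideal.span {algebraMap A O r} ≤ PO := by
      rw [Ideal.span_singleton_le_iff_mem]
      exact Ideal.mem_map_of_mem _ hr
    have h4 : ringKrullDim (O ⧸ PO) ≤ 1 :=
      (ringKrullDim_le_of_surjective (Ideal.Quotient.factor hle)
        (Ideal.Quotient.factor_surjective hle)).trans h3
    have h5 : Ring.KrullDimLE 1 (O ⧸ PO) := by
      rw [Ring.krullDimLE_iff]
      exact_mod_cast h4
    have hreg : Ideal.Quotient.mk PO (algebraMap A O c) ∈ nonZeroDivisors (O ⧸ PO) := by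
      rw [mem_nonZeroDivisors_iff_right]
      intro y hy
      obtain ⟨y, rfl⟩ := Ideal.Quotient.mk_surjective y
      rw [← map_mul, Ideal.Quotient.eq_zero_iff_mem] at hy
      rw [Ideal.Quotient.eq_zero_iff_mem]
      apply loc_cancel P.ideal P.isPrime x hc
      rw [mul_comm]
      exact hy
    have h6 := Ring.ord_ne_top hreg
    have h7 : ordPt P.ideal x c = Ring.ord (O ⧸ PO) (Ideal.Quotient.mk PO (algebraMap A O c)) := by
      unfold ordPt lenP Ring.ord
      rw [← Module.length_eq_of_surjective (R := O ⧸ PO) (S := O)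
        (M := (O ⧸ PO) ⧸ Ideal.span {Ideal.Quotient.mk PO (algebraMap A O c)})
        Ideal.Quotient.mk_surjective]
      have h8 : Ideal.span {Ideal.Quotient.mk PO (algebraMap A O c)} =
          (Ideal.span {algebraMap A O c}).map (Ideal.Quotient.mk PO) := by
        rw [Ideal.map_span, Set.image_singleton]
      rw [h8]
      exact (DoubleQuot.quotQuotEquivQuotSupₐ O PO
        (Ideal.span {algebraMap A O c})).symm.toLinearEquiv.length_eq
    rw [h7]
    exact h6

omit [IsDomain A] in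
/-- The order is different from zero at finitely many points. -/
theorem ordPt_support (hdim : ringKrullDim A ≤ 2) (P : Curve1 A) {c : A} (hc : c ∉ P.ideal) :
    {x : A →ₐ[k] k | ordPt P.ideal x c ≠ 0}.Finite := by
  set I : Ideal A := P.ideal ⊔ Ideal.span {c} with hI
  have hfin := I.finite_minimalPrimes_of_isNoetherianRing
  apply Set.Finite.of_finite_image (f := fun x : A →ₐ[k] k => RingHom.ker x)
  · apply hfin.subset
    rintro _ ⟨x, hx, rfl⟩
    have hP : P.ideal ≤ RingHom.ker x := by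
      by_contra h
      exact hx (ordPt_of_not_le P.ideal x c h)
    have hcx : c ∈ RingHom.ker x := by
      by_contra h
      exact hx (ordPt_of_ne P.ideal x c h)
    have hle : I ≤ RingHom.ker x := by
      rw [hI, sup_le_iff, Ideal.span_singleton_le_iff_mem]
      exact ⟨hP, hcx⟩
    have hh : (RingHom.ker x).height ≤ 2 := by
      have h1 := (Ideal.height_le_ringKrullDim_of_isPrime (I := RingHom.ker x)).trans hdim
      exact WithBot.coe_le_coe.1 h1
    have hFH : (RingHom.ker x).FiniteHeight := by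
      rw [Ideal.finiteHeight_iff]
      right
      intro h
      rw [h] at hh
      exact absurd hh (by decide)
    apply Ideal.mem_minimalPrimes_of_height_le hle
    refine hh.trans ?_
    rw [Ideal.height_eq_inf_minimalPrimes]
    refine le_iInf₂ ?_
    intro J hJ
    have hJp : J.IsPrime := hJ.1.1
    have hJI : I ≤ J := hJ.1.2
    have hlt : P.ideal < J := by
      refine lt_of_le_of_ne (le_sup_left.trans hJI) ?_
      intro h
      apply hc
      rw [h]
      exact hJI (Ideal.mem_sup_right (Ideal.mem_span_singleton_self c))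
    have h1 := Ideal.height_add_one_le_of_lt_of_isPrime hlt
    rw [P.height] at h1
    exact h1
  · intro x _ y _ hxy
    exact point_eq_of_ker_eq hxy

/-- The orders of a function at the points of a curve are bounded. -/
theorem exists_ordPt_bound (k : Type*) [Field k] [Algebra k A] (hdim : ringKrullDim A ≤ 2)
    (P : Curve1 A) {c : A} (hc : c ∉ P.ideal) :
    ∃ B : ℕ, ∀ x : A →ₐ[k] k, ordPt P.ideal x c ≤ B := by
  classical
  let S := (ordPt_support (k := k) hdim P hc).toFinset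
  refine ⟨∑ x ∈ S, (ordPt P.ideal x c).toNat, fun x => ?_⟩
  by_cases h : ordPt P.ideal x c = 0
  · rw [h]; exact zero_le
  · have hx : x ∈ S := by
      rw [Set.Finite.mem_toFinset]
      exact h
    have h1 := Finset.single_le_sum (f := fun x : A →ₐ[k] k => (ordPt P.ideal x c).toNat)
      (fun _ _ => Nat.zero_le _) hx
    rw [← ENat.natCast_toNat (ordPt_ne_top hdim P x hc)]
    exact_mod_cast h1

end finite

section orders

/-- A nonzero rational function on the curve `P` is a quotient of restrictions of functions. -/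
theorem exists_frac_rep {A : Type*} [CommRing A] (P : Curve1 A) (h : (kap P)ˣ) :
    ∃ a b : A, a ∉ P.ideal ∧ b ∉ P.ideal ∧ h = resU P a / resU P b := by
  obtain ⟨a, b, hb, hab⟩ := IsFractionRing.div_surjective (A := A ⧸ P.ideal) (h : kap P)
  obtain ⟨a, rfl⟩ := Ideal.Quotient.mk_surjective a
  obtain ⟨b, rfl⟩ := Ideal.Quotient.mk_surjective b
  have hbP : b ∉ P.ideal := by
    intro h1
    apply nonZeroDivisors.ne_zero hb
    exact Ideal.Quotient.eq_zero_iff_mem.2 h1
  have hab' : res P a / res P b = h := hab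
  have haP : a ∉ P.ideal := by
    intro h1
    rw [(res_eq_zero P a).2 h1, zero_div] at hab'
    exact h.ne_zero hab'.symm
  refine ⟨a, b, haP, hbP, ?_⟩
  apply Units.ext
  rw [Units.val_div_eq_div_val, resU_coe haP, resU_coe hbP, hab']

variable {k A : Type*} [Field k] [CommRing A] [Algebra k A]

/-- The order at the point `x` of the rational function `h = a/b` on the curve `P`:
length of `A_x/(P, a)` minus length of `A_x/(P, b)`. -/
noncomputable def ordK (P : Curve1 A) (x : A →ₐ[k] k) (h : (kap P)ˣ) : ℤ :=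
  ((ordPt P.ideal x (exists_frac_rep P h).choose).toNat : ℤ) -
    ((ordPt P.ideal x (exists_frac_rep P h).choose_spec.choose).toNat : ℤ)

/-- The order does not depend on the representation. -/
theorem ordK_eq [IsDomain A] [IsNoetherianRing A] (hdim : ringKrullDim A ≤ 2) (P : Curve1 A)
    (x : A →ₐ[k] k) {a b : A} (ha : a ∉ P.ideal) (hb : b ∉ P.ideal) :
    ordK P x (resU P a / resU P b) =
      ((ordPt P.ideal x a).toNat : ℤ) - ((ordPt P.ideal x b).toNat : ℤ) := by
  have key : ∀ c d : A, c ∉ P.ideal → d ∉ P.ideal → resU P a / resU P b = resU P c / resU P d →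
      ((ordPt P.ideal x c).toNat : ℤ) - ((ordPt P.ideal x d).toNat : ℤ) =
        ((ordPt P.ideal x a).toNat : ℤ) - ((ordPt P.ideal x b).toNat : ℤ) := by
    intro c d hc hd hcd
    have h1 : c * b - a * d ∈ P.ideal := by
      rw [← res_eq_iff, res_mul, res_mul, ← resU_coe hc, ← resU_coe hb, ← resU_coe ha,
        ← resU_coe hd, ← Units.val_mul, ← Units.val_mul]
      rw [div_eq_div_iff_mul_eq_mul] at hcd
      rw [hcd]
    have h2 := ordPt_congr P.ideal x h1
    rw [ordPt_mul P.ideal P.isPrime x hc, ordPt_mul P.ideal P.isPrime x ha] at h2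
    have fa := ordPt_ne_top hdim P x ha
    have fb := ordPt_ne_top hdim P x hb
    have fc := ordPt_ne_top hdim P x hc
    have fd := ordPt_ne_top hdim P x hd
    rw [← ENat.natCast_toNat fa, ← ENat.natCast_toNat fb, ← ENat.natCast_toNat fc,
      ← ENat.natCast_toNat fd] at h2
    have h3 : (ordPt P.ideal x c).toNat + (ordPt P.ideal x b).toNat =
        (ordPt P.ideal x a).toNat + (ordPt P.ideal x d).toNat := by exact_mod_cast h2
    omega
  have h4 := (exists_frac_rep P (resU P a / resU P b)).choose_spec.choose_spec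
  exact key _ _ h4.1 h4.2.1 h4.2.2

end orders

section endgame

variable {k A : Type*} [Field k] [CommRing A] [IsDomain A] [IsNoetherianRing A] [Algebra k A]

omit [IsDomain A] [IsNoetherianRing A] in
theorem lenAt_symm (x : A →ₐ[k] k) (f g : A) : lenAt x f g = lenAt x g f := len_symm _ _

/-- The value of the functional on the chain `(P, h₁/h₂)`, from the local formula for the pairs
`(a, q)` and `(b, q)`. -/
theorem lam_single (hA : ∀ P : Curve1 A, IsDiscreteValuationRing (Localization.AtPrime P.ideal))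
    (hdim : ringKrullDim A ≤ 2) (lam : Chain1 A →+ ℚ)
    (P : Curve1 A) {h₁ h₂ q t₀ a b : A}
    (hR : symb lam a q - symb lam b q = symb lam q a - symb lam q b)
    {N : ℕ} (hN : 0 < N) (hq : q ∈ P.ideal)
    (ht₀ : t₀ ∉ P.ideal) (hJ : ∀ y ∈ P.ideal, t₀ * y ∈ Ideal.span {q})
    (hh₁ : h₁ ∉ P.ideal) (hh₂ : h₂ ∉ P.ideal)
    (hab : ∀ y ∈ P.ideal, (a - b) * y ∈ Ideal.span {q})
    (hrel : h₂ ^ N * a - h₁ ^ N * b ∈ P.ideal) (ca : Cop a q) (cb : Cop b q)
    (u : (A →ₐ[k] k) → ℚ)
    (fa : {x : A →ₐ[k] k | lenAt x a q ≠ 0}.Finite)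
    (fb : {x : A →ₐ[k] k | lenAt x b q ≠ 0}.Finite)
    (sa : symb lam a q = ∑ᶠ x, u x * ((lenAt x a q).toNat : ℚ))
    (sb : symb lam b q = ∑ᶠ x, u x * ((lenAt x b q).toNat : ℚ))
    (tb : ∀ x : A →ₐ[k] k, lenAt x b q ≠ ⊤) :
    {x : A →ₐ[k] k | (ordPt P.ideal x h₁).toNat ≠ (ordPt P.ideal x h₂).toNat}.Finite ∧
    lam (single1 P (resU P h₁ / resU P h₂)) =
      ∑ᶠ x : A →ₐ[k] k, u x * (((ordPt P.ideal x h₁).toNat : ℚ) -
        ((ordPt P.ideal x h₂).toNat : ℚ)) := by
  have haP : a ∉ P.ideal := fun h => ca.2.2 P.ideal P.isPrime P.height h hq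
  have hbP : b ∉ P.ideal := fun h => cb.2.2 P.ideal P.isPrime P.height h hq
  have hN0 : (N : ℚ) ≠ 0 := by exact_mod_cast hN.ne'
  have ho₁ := fun x : A →ₐ[k] k => ordPt_ne_top hdim P x hh₁
  have ho₂ := fun x : A →ₐ[k] k => ordPt_ne_top hdim P x hh₂
  -- the relation at the points
  have key : ∀ x : A →ₐ[k] k, ((lenAt x a q).toNat : ℚ) - ((lenAt x b q).toNat : ℚ) =
      N * (((ordPt P.ideal x h₁).toNat : ℚ) - ((ordPt P.ideal x h₂).toNat : ℚ)) := by
    intro x
    have h1 := lenAt_sub P.ideal P.isPrime x hq haP hbP hab hh₁ hh₂ N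
      (by rw [mul_comm a]; exact hrel) (ordPt_ne_top hdim P x haP) (ordPt_ne_top hdim P x hbP)
    rw [lenAt_symm x q a, lenAt_symm x q b] at h1
    have hta : lenAt x a q ≠ ⊤ := by
      intro h
      rw [h, top_add] at h1
      have h2 : lenAt x b q + N * ordPt P.ideal x h₁ ≠ ⊤ := by
        intro h2
        rcases ENat.add_eq_top.1 h2 with h3 | h3
        · exact tb x h3
        · exact (WithTop.mul_ne_top (ENat.natCast_ne_top N) (ho₁ x)) h3
      exact h2 h1.symm
    have h2 : (lenAt x a q).toNat + N * (ordPt P.ideal x h₂).toNat =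
        (lenAt x b q).toNat + N * (ordPt P.ideal x h₁).toNat := by
      have h3 : (((lenAt x a q).toNat + N * (ordPt P.ideal x h₂).toNat : ℕ) : ℕ∞) =
          (((lenAt x b q).toNat + N * (ordPt P.ideal x h₁).toNat : ℕ) : ℕ∞) := by
        push_cast
        rw [ENat.natCast_toNat hta, ENat.natCast_toNat (tb x), ENat.natCast_toNat (ho₁ x),
          ENat.natCast_toNat (ho₂ x)]
        exact h1
      exact_mod_cast h3
    have h3 : ((lenAt x a q).toNat : ℚ) + N * ((ordPt P.ideal x h₂).toNat : ℚ) =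
        ((lenAt x b q).toNat : ℚ) + N * ((ordPt P.ideal x h₁).toNat : ℚ) := by
      exact_mod_cast h2
    linarith
  -- the finiteness
  have hfin : {x : A →ₐ[k] k | (ordPt P.ideal x h₁).toNat ≠
      (ordPt P.ideal x h₂).toNat}.Finite := by
    apply (fa.union fb).subset
    intro x hx
    by_contra hcon
    rw [Set.mem_union, not_or] at hcon
    obtain ⟨h1, h2⟩ := hcon
    have h1' : lenAt x a q = 0 := by
      by_contra h; exact h1 h
    have h2' : lenAt x b q = 0 := by
      by_contra h; exact h2 h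
    have h3 := key x
    rw [h1', h2'] at h3
    apply hx
    have h4 : ((ordPt P.ideal x h₁).toNat : ℚ) = ((ordPt P.ideal x h₂).toNat : ℚ) := by
      have h5 : (N : ℚ) * (((ordPt P.ideal x h₁).toNat : ℚ) -
          ((ordPt P.ideal x h₂).toNat : ℚ)) = 0 := by
        rw [← h3]; simp
      have h6 := (mul_eq_zero.1 h5).resolve_left hN0
      linarith
    exact_mod_cast h4
  refine ⟨hfin, ?_⟩
  -- the value
  have hv : vAt P q = 1 := vAt_eq_one P hq ht₀ hJ
  have hres : res P a = ((resU P h₁ / resU P h₂ : (kap P)ˣ) : kap P) ^ N * res P b := by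
    have h1 : res P (h₂ ^ N * a) = res P (h₁ ^ N * b) := (res_eq_iff P _ _).2 hrel
    rw [res_mul, res_mul, res_pow, res_pow] at h1
    have h2 : res P h₂ ≠ 0 := fun h => hh₂ ((res_eq_zero P h₂).1 h)
    rw [Units.val_div_eq_div_val, resU_coe hh₁, resU_coe hh₂, div_pow, div_mul_eq_mul_div, ← h1]
    field_simp
  have hsp := symb_split hA lam P q a b ca.2.1 hv haP hbP _ N hres
    (fun P' hne hqP => off_mem P hab P' hne hqP)
  rw [← hR, sa, sb, ← finsum_sub_distrib] at hsp
  · have h1 : (N : ℚ) * lam (single1 P (resU P h₁ / resU P h₂)) =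
        N * ∑ᶠ x : A →ₐ[k] k, u x * (((ordPt P.ideal x h₁).toNat : ℚ) -
        ((ordPt P.ideal x h₂).toNat : ℚ)) := by
      rw [hsp, mul_finsum]
      apply finsum_congr
      intro x
      rw [← mul_sub, key x]
      ring
    exact mul_left_cancel₀ hN0 h1
  · apply fa.subset
    intro x hx h
    apply hx
    change u x * _ = 0
    rw [h]
    simp
  · apply fb.subset
    intro x hx h
    apply hx
    change u x * _ = 0
    rw [h]
    simp

/-- The local formula for the curves near `q₀`, for the symbol `Λ` and intersection numbers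
bounded by `L`. -/
def NearForm {k A : Type} [Field k] [CommRing A] [Algebra k A] (E : SectionExp k A)
    (c₀ L n M : ℕ) (q₀ : A) (Λ : A → A → ℚ) (u : (A →ₐ[k] k) → ℚ) : Prop :=
  ∀ a : A, E.WLt n M (((n * M : ℕ) : ℤ) - ((c₀ * n : ℕ) : ℤ)) (a - q₀) →
    Prime a ∧ ∀ f ∉ Ideal.span {a}, Module.Finite k (A ⧸ Ideal.span {a, f}) ∧
      ((∀ x : A →ₐ[k] k, lenAt x a f ≤ L) →
        Λ a f = ∑ᶠ x, u x * ((lenAt x a f).toNat : ℚ))

/-- The local formulas for all bounds `L` and all sufficiently large classes. -/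
def AllNearForm {k A : Type} [Field k] [CommRing A] [Algebra k A] (E : SectionExp k A)
    (c₀ μ₀ : ℕ) : Prop :=
  ∀ L : ℕ, ∃ n₀ : ℕ, ∀ e n M : ℕ, n = 2 ^ e → n₀ ≤ n → Odd M → μ₀ * n ≤ M →
    ∀ q₀ : A, E.InV n M q₀ → ∀ Λ : A → A → ℚ, IsSymbOn {d | E.InV n M d} Λ →
      ∃ u : (A →ₐ[k] k) → ℚ, NearForm E c₀ L n M q₀ Λ u

/-- The conclusion of the moving lemma for the curve `P` and the function `h`. -/
def MovConcl {k A : Type} [Field k] [CommRing A] [Algebra k A] (E : SectionExp k A)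
    (c₀ : ℕ) (U : ℕ → A) (P : Curve1 A) (h : (kap P)ˣ) : Prop :=
  ∃ q t₀ : A, q ≠ 0 ∧ q ∈ P.ideal ∧ t₀ ∉ P.ideal ∧ (∀ y ∈ P.ideal, q ∣ t₀ * y) ∧
    ∃ μ₁ : ℕ, ∀ μ₂ : ℕ, ∃ N L n₀ : ℕ, 1 ≤ N ∧ ∀ n M : ℕ, n₀ ≤ n → μ₁ * n ≤ M →
      M ≤ μ₂ * n → ∃ a b : A,
        E.WLt n M (((n * M : ℕ) : ℤ) - ((c₀ * n : ℕ) : ℤ)) (a - (E.s ^ M + U n)) ∧
        E.WLt n M (((n * M : ℕ) : ℤ) - ((c₀ * n : ℕ) : ℤ)) (b - (E.s ^ M + U n)) ∧
        (∀ y ∈ P.ideal, q ∣ (a - b) * y) ∧ res P a = (h : kap P) ^ N * res P b ∧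
        (∀ x : A →ₐ[k] k, lenAt x b q ≤ L) ∧ ¬ a ∣ q ∧ ¬ b ∣ q

/-- The intersection number is zero outside the common zeros. -/
theorem lenAt_support {k A : Type} [Field k] [CommRing A] [Algebra k A] (a q : A)
    (h : Module.Finite k (A ⧸ Ideal.span {a, q})) : {x : A →ₐ[k] k | lenAt x a q ≠ 0}.Finite := by
  apply (points_finite (Ideal.span {a, q}) h).subset
  intro x hx
  change Ideal.span {a, q} ≤ RingHom.ker x
  rw [Ideal.span_le]
  rintro y (rfl | rfl)
  · by_contra hy
    apply hx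
    unfold lenAt
    rw [len_symm]
    exact len_unit _ ((IsLocalization.AtPrime.isUnit_to_map_iff (LocAt x) (RingHom.ker x) y).2 hy)
  · by_contra hy
    apply hx
    exact len_unit _ ((IsLocalization.AtPrime.isUnit_to_map_iff (LocAt x) (RingHom.ker x) y).2 hy)

/-- The value of the functional on the chain `(P, h)`, by the local formula. -/
theorem lam_curve {k A : Type} [Field k] [CommRing A] [IsDomain A] [IsNoetherianRing A]
    [Algebra k A] (hA : ∀ P : Curve1 A, IsDiscreteValuationRing (Localization.AtPrime P.ideal))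
    (hdim : ringKrullDim A ≤ 2) (E : SectionExp k A) {c₀ L n M : ℕ} {q₀ : A}
    (hq₀ : E.InV n M q₀) (lam : Chain1 A →+ ℚ) {u : (A →ₐ[k] k) → ℚ}
    (hV : IsSymbOn {d | E.InV n M d} (symb lam))
    (hform : NearForm E c₀ L n M q₀ (symb lam) u) (P : Curve1 A) {h₁ h₂ q t₀ a b : A}
    (hh₁ : h₁ ∉ P.ideal) (hh₂ : h₂ ∉ P.ideal) {B N L' : ℕ} (hN : 1 ≤ N)
    (hB : ∀ x : A →ₐ[k] k, ordPt P.ideal x h₁ ≤ B) (hL : L' + N * B ≤ L)
    (hq : q ∈ P.ideal) (ht₀ : t₀ ∉ P.ideal) (hJ : ∀ y ∈ P.ideal, q ∣ t₀ * y)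
    (wa : E.WLt n M (((n * M : ℕ) : ℤ) - ((c₀ * n : ℕ) : ℤ)) (a - q₀))
    (wb : E.WLt n M (((n * M : ℕ) : ℤ) - ((c₀ * n : ℕ) : ℤ)) (b - q₀))
    (hab : ∀ y ∈ P.ideal, q ∣ (a - b) * y)
    (hres : res P a = ((resU P h₁ / resU P h₂ : (kap P)ˣ) : kap P) ^ N * res P b)
    (hLb : ∀ x : A →ₐ[k] k, lenAt x b q ≤ L') (haq : ¬ a ∣ q) (hbq : ¬ b ∣ q) :
    {x : A →ₐ[k] k | ordK P x (resU P h₁ / resU P h₂) ≠ 0}.Finite ∧
    lam (single1 P (resU P h₁ / resU P h₂)) =
      ∑ᶠ x : A →ₐ[k] k, u x * (ordK P x (resU P h₁ / resU P h₂) : ℚ) := by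
  obtain ⟨pa, fa⟩ := hform a wa
  obtain ⟨pb, fb⟩ := hform b wb
  have hqa : q ∉ Ideal.span {a} := fun h => haq (Ideal.mem_span_singleton.1 h)
  have hqb : q ∉ Ideal.span {b} := fun h => hbq (Ideal.mem_span_singleton.1 h)
  have ca := cop_of_prime_not_mem a q pa hqa
  have cb := cop_of_prime_not_mem b q pb hqb
  have hmono : (((n * M : ℕ) : ℤ) - ((c₀ * n : ℕ) : ℤ)) ≤ ((n * M : ℕ) : ℤ) := by
    have : (0 : ℤ) ≤ ((c₀ * n : ℕ) : ℤ) := Int.natCast_nonneg _
    linarith
  have Va : E.InV n M a := by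
    have h1 := inV_add_wlt E hq₀ (wlt_mono E hmono wa)
    rwa [add_sub_cancel] at h1
  have Vb : E.InV n M b := by
    have h1 := inV_add_wlt E hq₀ (wlt_mono E hmono wb)
    rwa [add_sub_cancel] at h1
  have hR := hV.rel a Va b Vb q ca cb
  have haP : a ∉ P.ideal := fun h => ca.2.2 P.ideal P.isPrime P.height h hq
  have hbP : b ∉ P.ideal := fun h => cb.2.2 P.ideal P.isPrime P.height h hq
  have hrel : h₂ ^ N * a - h₁ ^ N * b ∈ P.ideal := by
    have h2 : res P h₂ ≠ 0 := fun h => hh₂ ((res_eq_zero P h₂).1 h)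
    rw [← res_eq_iff, res_mul, res_mul, res_pow, res_pow, hres, Units.val_div_eq_div_val,
      resU_coe hh₁, resU_coe hh₂, div_pow]
    field_simp
  have hJ' : ∀ y ∈ P.ideal, t₀ * y ∈ Ideal.span {q} :=
    fun y hy => Ideal.mem_span_singleton.2 (hJ y hy)
  have hab' : ∀ y ∈ P.ideal, (a - b) * y ∈ Ideal.span {q} :=
    fun y hy => Ideal.mem_span_singleton.2 (hab y hy)
  have hLa : ∀ x : A →ₐ[k] k, lenAt x a q ≤ L := by
    intro x
    have h1 := lenAt_sub P.ideal P.isPrime x hq haP hbP hab' hh₁ hh₂ N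
      (by rw [mul_comm a]; exact hrel) (ordPt_ne_top hdim P x haP) (ordPt_ne_top hdim P x hbP)
    rw [lenAt_symm x q a, lenAt_symm x q b] at h1
    calc lenAt x a q ≤ lenAt x a q + N * ordPt P.ideal x h₂ := le_self_add
      _ = lenAt x b q + N * ordPt P.ideal x h₁ := h1
      _ ≤ L' + N * B := add_le_add (hLb x) (mul_le_mul_right (hB x) _)
      _ ≤ L := by exact_mod_cast hL
  have hLb' : ∀ x : A →ₐ[k] k, lenAt x b q ≤ L := by
    intro x
    refine (hLb x).trans ?_
    exact_mod_cast (Nat.le_add_right _ _).trans hL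
  have h1 := lam_single hA hdim lam P (h₁ := h₁) (h₂ := h₂) (q := q) (t₀ := t₀) hR
    (by omega : 0 < N) hq ht₀ hJ' hh₁ hh₂ hab' hrel ca cb u
    (lenAt_support a q (fa q hqa).1) (lenAt_support b q (fb q hqb).1)
    ((fa q hqa).2 hLa) ((fb q hqb).2 hLb')
    (fun x => ne_top_of_le_ne_top (ENat.natCast_ne_top _) (hLb x))
  have h2 : ∀ x : A →ₐ[k] k, ordK P x (resU P h₁ / resU P h₂) =
      ((ordPt P.ideal x h₁).toNat : ℤ) - ((ordPt P.ideal x h₂).toNat : ℤ) :=
    fun x => ordK_eq hdim P x hh₁ hh₂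
  refine ⟨?_, ?_⟩
  · apply h1.1.subset
    intro x hx h3
    apply hx
    rw [h2 x, h3, sub_self]
  · rw [h1.2]
    apply finsum_congr
    intro x
    rw [h2 x]
    push_cast
    rfl

/-- The order of the constant function one. -/
theorem ordK_one {k A : Type*} [Field k] [CommRing A] [IsDomain A] [IsNoetherianRing A]
    [Algebra k A] (hdim : ringKrullDim A ≤ 2) (P : Curve1 A) (x : A →ₐ[k] k) :
    ordK P x (1 : (kap P)ˣ) = 0 := by
  have h1 : (1 : A) ∉ P.ideal := fun h => P.isPrime.ne_top ((Ideal.eq_top_iff_one _).2 h)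
  have h2 := ordK_eq hdim P x h1 h1
  rw [div_self', sub_self] at h2
  exact h2

/-- The end game: a cycle whose components satisfy the conclusion of the moving lemma is
torsion modulo the tame symbols. -/
theorem end_game {k A : Type} [Field k] [CommRing A] [IsDomain A] [IsNoetherianRing A]
    [Algebra k A] (hA : ∀ P : Curve1 A, IsDiscreteValuationRing (Localization.AtPrime P.ideal))
    (hdim : ringKrullDim A ≤ 2) (E : SectionExp k A) (c₀ μ₀ : ℕ) (hform : AllNearForm E c₀ μ₀)
    (κ j₀ : ℕ) (F : ℕ → A)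
    (hstar : ∀ n M : ℕ, 1 ≤ n → j₀ ≤ n → κ * n < M → E.InV n M (E.s ^ M + F n))
    (ξ : Chain1 A)
    (hmov : ∀ P : Curve1 A, ξ P ≠ 0 → MovConcl E c₀ F P (Additive.toMul (ξ P)))
    (hdiv : ∀ x : A →ₐ[k] k, ∑ᶠ P : Curve1 A, ordK P x (Additive.toMul (ξ P)) = 0)
    (U : A → A → Prop) (n₁ μ₁ : ℕ)
    (hU : ∀ n M : ℕ, n₁ ≤ n → μ₁ * n ≤ M → ∀ a b : A, E.InV n M a → E.InV n M b → U a b) :
    ∃ N : ℕ, 0 < N ∧ N • ξ ∈ tameSubgroupRel A U := by
  classical
  by_contra hcon
  push Not at hcon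
  obtain ⟨lam, hlam, hlam0⟩ := exists_functional (tameSubgroupRel A U) ξ hcon
  apply hlam0
  let T : Finset (Curve1 A) := ξ.support
  have hT : ∀ P : Curve1 A, P ∈ T ↔ ξ P ≠ 0 := fun P => DFinsupp.mem_support_iff
  have hmov' : ∀ P : T, MovConcl E c₀ F P.1 (Additive.toMul (ξ P.1)) :=
    fun P => hmov P.1 ((hT P.1).1 P.2)
  choose q t₀ hq0 hq ht₀ hJ μP hmov2 using hmov'
  choose h₁ h₂ hh₁ hh₂ hrep using fun P : T => exists_frac_rep P.1 (Additive.toMul (ξ P.1))
  choose B hB using fun P : T => exists_ordPt_bound k hdim P.1 (hh₁ P)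
  set μ : ℕ := μ₀ + κ + 1 + μ₁ + ∑ P : T, μP P with hμ
  choose N L' n₀ hN hmov3 using fun P : T => hmov2 P (μ + 1)
  set L : ℕ := ∑ P : T, (L' P + N P * B P) with hLdef
  obtain ⟨nf, hnf⟩ := hform L
  set e : ℕ := nf + j₀ + n₁ + ∑ P : T, n₀ P + 1 with he
  set n : ℕ := 2 ^ e with hn
  set M : ℕ := μ * n + 1 with hM
  have hen : e ≤ n := Nat.lt_two_pow_self.le
  have hn1 : 1 ≤ n := Nat.one_le_two_pow
  have hodd : Odd M := by
    have h1 : Even n := by
      rw [hn, he, pow_succ]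
      exact ⟨2 ^ (nf + j₀ + n₁ + ∑ P : T, n₀ P), by ring⟩
    exact (h1.mul_left μ).add_one
  have hmu : ∀ ν : ℕ, ν ≤ μ → ν * n ≤ M := fun ν hν =>
    (Nat.mul_le_mul_right n hν).trans (Nat.le_succ _)
  have hq₀ : E.InV n M (E.s ^ M + F n) := by
    apply hstar n M hn1 (by omega)
    have h1 : κ * n ≤ μ * n := Nat.mul_le_mul_right n (by omega)
    omega
  have hUV : ∀ a ∈ {d | E.InV n M d}, ∀ b ∈ {d | E.InV n M d}, U a b :=
    fun a ha b hb => hU n M (by omega) (hmu μ₁ (by omega)) a b ha hb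
  have hV := isSymbOn_symb hA {d | E.InV n M d} hUV lam hlam
  obtain ⟨u, hu⟩ := hnf e n M rfl (by omega) hodd (hmu μ₀ (by omega)) _ hq₀ (symb lam) hV
  have hMle : M ≤ (μ + 1) * n := by
    have h1 : (μ + 1) * n = μ * n + n := Nat.succ_mul μ n
    rw [h1]
    exact Nat.add_le_add_left hn1 _
  -- the values on the components
  have hval : ∀ P : T, {x : A →ₐ[k] k | ordK P.1 x (Additive.toMul (ξ P.1)) ≠ 0}.Finite ∧
      lam (single1 P.1 (Additive.toMul (ξ P.1))) =
        ∑ᶠ x : A →ₐ[k] k, u x * (ordK P.1 x (Additive.toMul (ξ P.1)) : ℚ) := by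
    intro P
    have h1 : n₀ P ≤ ∑ P : T, n₀ P :=
      Finset.single_le_sum (f := n₀) (fun _ _ => Nat.zero_le _) (Finset.mem_univ P)
    have h2 : μP P ≤ ∑ P : T, μP P :=
      Finset.single_le_sum (f := μP) (fun _ _ => Nat.zero_le _) (Finset.mem_univ P)
    have h3 : L' P + N P * B P ≤ L :=
      Finset.single_le_sum (f := fun P : T => L' P + N P * B P) (fun _ _ => Nat.zero_le _)
        (Finset.mem_univ P)
    obtain ⟨a, b, wa, wb, hab, hres, hLb, haq, hbq⟩ :=
      hmov3 P n M (by omega) (hmu (μP P) (by omega)) hMle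
    have h4 := lam_curve hA hdim E hq₀ lam hV hu P.1 (hh₁ P) (hh₂ P) (hN P) (hB P) h3 (hq P)
      (ht₀ P) (hJ P) wa wb hab (by rw [← hrep P]; exact hres) hLb haq hbq
    rw [← hrep P] at h4
    exact h4
  -- the total value
  have hsum : ∑ P : T, single1 P.1 (Additive.toMul (ξ P.1)) = ξ := by
    rw [Finset.sum_coe_sort T (fun P => single1 P (Additive.toMul (ξ P)))]
    exact DFinsupp.sum_single (f := ξ)
  rw [← hsum, map_sum, Finset.sum_congr rfl (fun P _ => (hval P).2)]
  rw [← finsum_sum_comm]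
  · rw [finsum_eq_zero_of_forall_eq_zero]
    intro x
    rw [← Finset.mul_sum]
    have h1 : ∑ P : T, (ordK P.1 x (Additive.toMul (ξ P.1)) : ℚ) = 0 := by
      have h2 := hdiv x
      rw [finsum_eq_sum_of_support_subset (s := T)] at h2
      · rw [← Finset.sum_coe_sort] at h2
        exact_mod_cast h2
      · intro P hP
        rw [Finset.mem_coe, hT]
        intro h3
        apply hP
        change ordK P x (Additive.toMul (ξ P)) = 0
        rw [h3]
        exact ordK_one hdim P x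
    rw [h1, mul_zero]
  · intro P _
    apply (hval P).1.subset
    intro x hx h
    apply hx
    change u x * _ = 0
    rw [h, Int.cast_zero, mul_zero]

/-- The end game for the group of all tame symbols. -/
theorem end_game_tame {k A : Type} [Field k] [CommRing A] [IsDomain A] [IsNoetherianRing A]
    [Algebra k A] (hA : ∀ P : Curve1 A, IsDiscreteValuationRing (Localization.AtPrime P.ideal))
    (hdim : ringKrullDim A ≤ 2) (E : SectionExp k A) (c₀ μ₀ : ℕ) (hform : AllNearForm E c₀ μ₀)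
    (κ j₀ : ℕ) (F : ℕ → A)
    (hstar : ∀ n M : ℕ, 1 ≤ n → j₀ ≤ n → κ * n < M → E.InV n M (E.s ^ M + F n))
    (ξ : Chain1 A)
    (hmov : ∀ P : Curve1 A, ξ P ≠ 0 → MovConcl E c₀ F P (Additive.toMul (ξ P)))
    (hdiv : ∀ x : A →ₐ[k] k, ∑ᶠ P : Curve1 A, ordK P x (Additive.toMul (ξ P)) = 0) :
    ∃ N : ℕ, 0 < N ∧ N • ξ ∈ tameSubgroup A := by
  obtain ⟨N, hN, h⟩ := end_game hA hdim E c₀ μ₀ hform κ j₀ F hstar ξ hmov hdiv
    (fun _ _ => True) 0 0 (fun _ _ _ _ _ _ _ _ => trivial)
  refine ⟨N, hN, ?_⟩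
  rw [tameSubgroupRel_true hA] at h
  exact h

end endgame

end Pool.Agent.K1
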