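import Pool.Agent.K1.SectionMainOf
import Pool.Agent.K1.DefsR

/-!
The end game with a general prime `r` in the place of `2`.
-/

set_option autoImplicit false

open Polynomial

namespace Pool.Agent.K1

/-- The local formulas for all bounds `L` and all sufficiently large classes. -/
def AllNearFormR (r : ℕ) {k A : Type} [Field k] [CommRing A] [Algebra k A] (E : SectionExp k A)
    (c₀ μ₀ : ℕ) : Prop :=
  ∀ L : ℕ, ∃ n₀ : ℕ, ∀ e n M : ℕ, n = r ^ e → n₀ ≤ n → r.Coprime M → μ₀ * n ≤ M →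
    ∀ q₀ : A, E.InV n M q₀ → ∀ Λ : A → A → ℚ, IsSymbOn {d | E.InV n M d} Λ →
      ∃ u : (A →ₐ[k] k) → ℚ, NearForm E c₀ L n M q₀ Λ u

/-- The end game: a cycle whose components satisfy the conclusion of the moving lemma is
torsion modulo the tame symbols. -/
theorem end_game_R (r : ℕ) (hr : 2 ≤ r) {k A : Type} [Field k] [CommRing A] [IsDomain A] [IsNoetherianRing A]
    [Algebra k A] (hA : ∀ P : Curve1 A, IsDiscreteValuationRing (Localization.AtPrime P.ideal))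
    (hdim : ringKrullDim A ≤ 2) (E : SectionExp k A) (c₀ μ₀ : ℕ) 
    (hform : AllNearFormR r E c₀ μ₀)
    (κ j₀ : ℕ) (F : ℕ → A)
    (hstar : ∀ n M : ℕ, 1 ≤ n → j₀ ≤ n → κ * n < M → E.InV n M (E.s ^ M + F n))
    (ξ : Chain1 A)
    (hmov : ∀ P : Curve1 A, ξ P ≠ 0 → MovConcl E c₀ F P (Additive.toMul (ξ P)))
    (hdiv : ∀ x : A →ₐ[k] k, ∑ᶠ P : Curve1 A, ordK P x (Additive.toMul (ξ P)) = 0)
    (U : A → A → Prop) (n₁ μ₁ : ℕ)
    (hU : ∀ n M : ℕ, n₁ ≤ n → μ₁ * n ≤ M → ∀ a b : A, E.InV n M a → E.InV n M b → U a b) :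
    ∃ N : ℕ, 0 < N ∧ N • ξ ∈ tameSubgroupRel A U := by
  classical
  by_contra hcon
  push Not at hcon
  obtain ⟨lam, hlam, hlam0⟩ := exists_functional (tameSubgroupRel A U) ξ hcon
  apply hlam0
  let T : Finset (Curve1 A) := ξ.support
  have hT : ∀ P : Curve1 A, P ∈ T ↔ ξ P ≠ 0 := fun P => DFinsupp.mem_support_iff
  have hmov' : ∀ P : T, MovConcl E c₀ F P.1 (Additive.toMul (ξ P.1)) :=
    fun P => hmov P.1 ((hT P.1).1 P.2)
  choose q t₀ hq0 hq ht₀ hJ μP hmov2 using hmov'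
  choose h₁ h₂ hh₁ hh₂ hrep using fun P : T => exists_frac_rep P.1 (Additive.toMul (ξ P.1))
  choose B hB using fun P : T => exists_ordPt_bound k hdim P.1 (hh₁ P)
  set μ : ℕ := μ₀ + κ + 1 + μ₁ + ∑ P : T, μP P with hμ
  choose N L' n₀ hN hmov3 using fun P : T => hmov2 P (μ + 1)
  set L : ℕ := ∑ P : T, (L' P + N P * B P) with hLdef
  obtain ⟨nf, hnf⟩ := hform L
  set e : ℕ := nf + j₀ + n₁ + ∑ P : T, n₀ P + 1 with he
  set n : ℕ := r ^ e with hn
  set M : ℕ := μ * n + 1 with hM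
  have hen : e ≤ n := (Nat.lt_pow_self (by omega : 1 < r)).le
  have hn1 : 1 ≤ n := Nat.one_le_pow _ _ (by omega)
  have hodd : r.Coprime M := by
    have h1 : r ∣ μ * n := by
      rw [hn, he, pow_succ]
      exact Dvd.dvd.mul_left (dvd_mul_left _ _) _
    obtain ⟨c, hc⟩ := h1
    rw [hM, hc, Nat.coprime_mul_left_add_right]
    exact Nat.coprime_one_right r
  have hmu : ∀ ν : ℕ, ν ≤ μ → ν * n ≤ M := fun ν hν =>
    (Nat.mul_le_mul_right n hν).trans (Nat.le_succ _)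
  have hq₀ : E.InV n M (E.s ^ M + F n) := by
    apply hstar n M hn1 (by omega)
    have h1 : κ * n ≤ μ * n := Nat.mul_le_mul_right n (by omega)
    omega
  have hUV : ∀ a ∈ {d | E.InV n M d}, ∀ b ∈ {d | E.InV n M d}, U a b :=
    fun a ha b hb => hU n M (by omega) (hmu μ₁ (by omega)) a b ha hb
  have hV := isSymbOn_symb hA {d | E.InV n M d} hUV lam hlam
  obtain ⟨u, hu⟩ := hnf e n M rfl (by omega) hodd (hmu μ₀ (by omega)) _ hq₀ (symb lam) hV
  have hMle : M ≤ (μ + 1) * n := by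
    have h1 : (μ + 1) * n = μ * n + n := Nat.succ_mul μ n
    rw [h1]
    exact Nat.add_le_add_left hn1 _
  -- the values on the components
  have hval : ∀ P : T, {x : A →ₐ[k] k | ordK P.1 x (Additive.toMul (ξ P.1)) ≠ 0}.Finite ∧
      lam (single1 P.1 (Additive.toMul (ξ P.1))) =
        ∑ᶠ x : A →ₐ[k] k, u x * (ordK P.1 x (Additive.toMul (ξ P.1)) : ℚ) := by
    intro P
    have h1 : n₀ P ≤ ∑ P : T, n₀ P :=
      Finset.single_le_sum (f := n₀) (fun _ _ => Nat.zero_le _) (Finset.mem_univ P)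
    have h2 : μP P ≤ ∑ P : T, μP P :=
      Finset.single_le_sum (f := μP) (fun _ _ => Nat.zero_le _) (Finset.mem_univ P)
    have h3 : L' P + N P * B P ≤ L :=
      Finset.single_le_sum (f := fun P : T => L' P + N P * B P) (fun _ _ => Nat.zero_le _)
        (Finset.mem_univ P)
    obtain ⟨a, b, wa, wb, hab, hres, hLb, haq, hbq⟩ :=
      hmov3 P n M (by omega) (hmu (μP P) (by omega)) hMle
    have h4 := lam_curve hA hdim E hq₀ lam hV hu P.1 (hh₁ P) (hh₂ P) (hN P) (hB P) h3 (hq P)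
      (ht₀ P) (hJ P) wa wb hab (by rw [← hrep P]; exact hres) hLb haq hbq
    rw [← hrep P] at h4
    exact h4
  -- the total value
  have hsum : ∑ P : T, single1 P.1 (Additive.toMul (ξ P.1)) = ξ := by
    rw [Finset.sum_coe_sort T (fun P => single1 P (Additive.toMul (ξ P)))]
    exact DFinsupp.sum_single (f := ξ)
  rw [← hsum, map_sum, Finset.sum_congr rfl (fun P _ => (hval P).2)]
  rw [← finsum_sum_comm]
  · rw [finsum_eq_zero_of_forall_eq_zero]
    intro x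
    rw [← Finset.mul_sum]
    have h1 : ∑ P : T, (ordK P.1 x (Additive.toMul (ξ P.1)) : ℚ) = 0 := by
      have h2 := hdiv x
      rw [finsum_eq_sum_of_support_subset (s := T)] at h2
      · rw [← Finset.sum_coe_sort] at h2
        exact_mod_cast h2
      · intro P hP
        rw [Finset.mem_coe, hT]
        intro h3
        apply hP
        change ordK P x (Additive.toMul (ξ P)) = 0
        rw [h3]
        exact ordK_one hdim P x
    rw [h1, mul_zero]
  · intro P _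
    apply (hval P).1.subset
    intro x hx h
    apply hx
    change u x * _ = 0
    rw [h, Int.cast_zero, mul_zero]


/-- The conclusion of the theorem `formula_near_R`, for given constants. -/
def FormulaNearR (r : ℕ) {k A : Type} [Field k] [CommRing A] [Algebra k A] (E : SectionExp k A)
    (c₀ μ₀ : ℕ) : Prop :=
  ∀ L : ℕ, ∃ n₀ : ℕ, ∀ e n M : ℕ, n = r ^ e → n₀ ≤ n → r.Coprime M → μ₀ * n ≤ M →
      (∀ d : A, E.InV n M d → Prime d) ∧ ∀ q₀ : A, E.InV n M q₀ →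
        (∀ a : A, E.WLt n M (((n * M : ℕ) : ℤ) - ((c₀ * n : ℕ) : ℤ)) (a - q₀) →
          E.InV n M a ∧ Prime a ∧
            ∀ f ∉ Ideal.span {a}, Module.Finite k (A ⧸ Ideal.span {a, f})) ∧
        ∀ Λ : A → A → ℚ, CurveFun {d | E.InV n M d} Λ →
          (∀ f g : A, E.InV n M f → E.InV n M g → f ∉ Ideal.span {g} → g ∉ Ideal.span {f} →
            Λ f g = Λ g f) →
          ∃ u : (A →ₐ[k] k) → ℚ,
            ∀ a : A, E.WLt n M (((n * M : ℕ) : ℤ) - ((c₀ * n : ℕ) : ℤ)) (a - q₀) →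
              ∀ f ∉ Ideal.span {a}, (∀ x : A →ₐ[k] k, lenAt x a f ≤ L) →
                Λ a f = ∑ᶠ x, u x * ((lenAt x a f).toNat : ℚ)

theorem FormulaNearR.allNearForm {r : ℕ} {k A : Type} [Field k] [CommRing A] [IsDomain A]
    [Algebra k A] {E : SectionExp k A} {c₀ μ₀ : ℕ} (h : FormulaNearR r E c₀ μ₀) :
    AllNearFormR r E c₀ μ₀ := by
  intro L
  obtain ⟨n₀, hn₀⟩ := h L
  refine ⟨n₀, ?_⟩
  intro e n M he hn hM hμ q₀ hq₀ Λ hΛ
  obtain ⟨h1, h2⟩ := hn₀ e n M he hn hM hμ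
  obtain ⟨h3, h4⟩ := h2 q₀ hq₀
  obtain ⟨u, hu⟩ := h4 Λ (curveFun_of_isSymbOn _ Λ hΛ h1) (by
    intro f g hf hg _ hgf
    exact hΛ.symm f hf g hg (cop_of_prime_not_mem f g (h1 f hf) hgf))
  exact ⟨u, fun a ha => ⟨(h3 a ha).2.1, fun f hf => ⟨(h3 a ha).2.2 f hf, hu a ha f hf⟩⟩⟩

/-- The theorem for surfaces with an expansion along a section, from the local formula for the
prime `r` and the moving lemma. -/
theorem section_main_of_R (r : ℕ) (hr : 2 ≤ r) {k A : Type} [Field k] [IsAlgClosed k]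
    [CommRing A] [IsDomain A] [Algebra k A] [IsRegularRing A] (hdim : ringKrullDim A = 2)
    (E : SectionExp k A) (hnear : ∃ c₀ μ₀ : ℕ, FormulaNearR r E c₀ μ₀)
    (hmoving : ∀ (c₀ κ j₀ : ℕ) (F : ℕ → A), UFam E κ j₀ F → ∀ P : Curve1 A, Horiz E P →
      ∀ (h : (kap P)ˣ) (m m' : ℕ), IntInf k (res P E.s) (h : kap P) m →
        IntInf k (res P E.s) (h : kap P)⁻¹ m' → MovConcl E c₀ F P h)
    (U : A → A → Prop) (hU : ∃ μ n₁ : ℕ, ∀ n M : ℕ, n₁ ≤ n → μ * n ≤ M → ∀ a a' : A,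
      E.InV n M a → E.InV n M a' → U a a')
    (ξ : Chain1 A) (hhor : ∀ P : Curve1 A, ξ P ≠ 0 → Horiz E P)
    (hinf : ∀ P : Curve1 A, ξ P ≠ 0 → ∀ V : ValuationSubring (kap P),
      (∀ c : k, algebraMap k (kap P) c ∈ V) → res P E.s ∉ V →
        ((Additive.toMul (ξ P) : (kap P)ˣ) : kap P) ∈ V ∧
          ((Additive.toMul (ξ P) : (kap P)ˣ) : kap P)⁻¹ ∈ V)
    (hdiv : ∀ x : A →ₐ[k] k, ∑ᶠ P : Curve1 A, ordK P x (Additive.toMul (ξ P)) = 0) :
    ∃ N : ℕ, 0 < N ∧ N • ξ ∈ tameSubgroupRel A U := by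
  classical
  obtain ⟨c₀, μ₀, hform⟩ := hnear
  obtain ⟨j₀, κ, -, hunif⟩ := exists_unif E
  obtain ⟨μ, n₁, hU'⟩ := hU
  let F : ℕ → A := fun a => if h : j₀ ≤ a then (hunif a h).choose else 0
  have hF : UFam E κ j₀ F := by
    intro a ha
    have h1 : F a = (hunif a ha).choose := dif_pos ha
    rw [h1]
    exact (hunif a ha).choose_spec
  apply end_game_R r hr (fun P => dvr_of_regular P) hdim.le E c₀ μ₀ hform.allNearForm κ j₀ F
    (fun n M hn hj hM => inV_star E κ j₀ F hF n M hn hj hM) ξ _ hdiv U n₁ μ hU'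
  intro P hP
  obtain ⟨m, hm⟩ := intInf_of_places E P (hhor P hP) _ (fun V h1 h2 => (hinf P hP V h1 h2).1)
  obtain ⟨m', hm'⟩ := intInf_of_places E P (hhor P hP) _ (fun V h1 h2 => (hinf P hP V h1 h2).2)
  exact hmoving c₀ κ j₀ F hF P (hhor P hP) _ m m' hm hm'

end Pool.Agent.K1
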