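import Mathlib
import Pool.Agent.K1.L2Defs

/-!
Layer 2: elementary properties of degree functions.
-/

namespace Pool.Agent.K1

namespace DegFun

section api

variable {k A : Type} [Field k] [CommRing A] [IsDomain A] [Algebra k A] (D : DegFun k A)

theorem deg_one : D.deg 1 = 0 := by
  have h := D.deg_mul 1 1 one_ne_zero one_ne_zero
  rw [mul_one] at h
  omega

theorem deg_neg_one : D.deg (-1) = 0 := by
  have h := D.deg_mul (-1) (-1) (neg_ne_zero.2 one_ne_zero) (neg_ne_zero.2 one_ne_zero)
  rw [neg_mul_neg, mul_one, D.deg_one] at h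
  omega

theorem deg_zero : D.deg 0 = 0 := by
  have h := D.deg_add 1 (-1)
  rw [add_neg_cancel, D.deg_one, D.deg_neg_one, max_self] at h
  omega

theorem deg_algebraMap (c : k) : D.deg (algebraMap k A c) = 0 := by
  by_cases hc : c = 0
  · rw [hc, map_zero, D.deg_zero]
  · have h1 : algebraMap k A c ≠ 0 := by
      intro h
      exact hc ((algebraMap k A).injective (by rw [h, map_zero]))
    have h2 : algebraMap k A c⁻¹ ≠ 0 := by
      intro h
      exact inv_ne_zero hc ((algebraMap k A).injective (by rw [h, map_zero]))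
    have h := D.deg_mul _ _ h1 h2
    rw [← map_mul, mul_inv_cancel₀ hc, map_one, D.deg_one] at h
    omega

theorem deg_mul_le (f g : A) : D.deg (f * g) ≤ D.deg f + D.deg g := by
  by_cases hf : f = 0
  · rw [hf, zero_mul, D.deg_zero]
    exact Nat.zero_le _
  by_cases hg : g = 0
  · rw [hg, mul_zero, D.deg_zero]
    exact Nat.zero_le _
  exact (D.deg_mul f g hf hg).le

theorem deg_neg (f : A) : D.deg (-f) = D.deg f := by
  by_cases hf : f = 0
  · rw [hf, neg_zero]
  · rw [← neg_one_mul, D.deg_mul (-1) f (neg_ne_zero.2 one_ne_zero) hf, D.deg_neg_one,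
      zero_add]

theorem deg_sub_le (f g : A) : D.deg (f - g) ≤ max (D.deg f) (D.deg g) := by
  rw [sub_eq_add_neg, ← D.deg_neg g]
  exact D.deg_add f (-g)

theorem deg_smul_le (c : k) (f : A) : D.deg (c • f) ≤ D.deg f := by
  rw [Algebra.smul_def]
  exact (D.deg_mul_le _ _).trans (by rw [D.deg_algebraMap, zero_add])

theorem deg_smul (c : k) (hc : c ≠ 0) (f : A) : D.deg (c • f) = D.deg f := by
  apply le_antisymm (D.deg_smul_le c f)
  calc D.deg f = D.deg (c⁻¹ • (c • f)) := by rw [smul_smul, inv_mul_cancel₀ hc, one_smul]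
    _ ≤ D.deg (c • f) := D.deg_smul_le _ _

theorem deg_sum_le {ι : Type*} (s : Finset ι) (f : ι → A) (n : ℕ)
    (h : ∀ i ∈ s, D.deg (f i) ≤ n) : D.deg (∑ i ∈ s, f i) ≤ n := by
  classical
  induction s using Finset.induction_on with
  | empty =>
    rw [Finset.sum_empty, D.deg_zero]
    exact Nat.zero_le _
  | insert a s ha ih =>
    rw [Finset.sum_insert ha]
    refine (D.deg_add _ _).trans (max_le (h a (Finset.mem_insert_self a s)) (ih ?_))
    intro i hi
    exact h i (Finset.mem_insert_of_mem hi)

theorem deg_pow_le (f : A) (n : ℕ) : D.deg (f ^ n) ≤ n * D.deg f := by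
  induction n with
  | zero => rw [pow_zero, D.deg_one]; exact Nat.zero_le _
  | succ n ih =>
    rw [pow_succ, Nat.succ_mul]
    exact (D.deg_mul_le _ _).trans (by omega)

theorem deg_pow (f : A) (hf : f ≠ 0) (n : ℕ) : D.deg (f ^ n) = n * D.deg f := by
  induction n with
  | zero => rw [pow_zero, D.deg_one, Nat.zero_mul]
  | succ n ih =>
    rw [pow_succ, Nat.succ_mul, D.deg_mul _ _ (pow_ne_zero n hf) hf, ih]

theorem ne_zero_of_deg_pos (f : A) (h : 0 < D.deg f) : f ≠ 0 := by
  rintro rfl
  rw [D.deg_zero] at h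
  exact lt_irrefl _ h

/-- The degree of a sum when one term dominates. -/
theorem deg_add_of_lt (f g : A) (h : D.deg g < D.deg f) : D.deg (f + g) = D.deg f := by
  apply le_antisymm
  · exact (D.deg_add f g).trans (max_le le_rfl h.le)
  · by_contra hlt
    rw [not_le] at hlt
    have h1 : D.deg f ≤ max (D.deg (f + g)) (D.deg g) := by
      calc D.deg f = D.deg ((f + g) - g) := by rw [add_sub_cancel_right]
        _ ≤ _ := D.deg_sub_le _ _
    have h2 : max (D.deg (f + g)) (D.deg g) < D.deg f := max_lt hlt h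
    omega

theorem deg_le_one_of_mem_span (v : A)
    (hv : v ∈ Submodule.span k (insert (1 : A) (D.S : Set A))) : D.deg v ≤ 1 := by
  induction hv using Submodule.span_induction with
  | mem x hx =>
    rcases hx with rfl | hx
    · rw [D.deg_one]; exact Nat.zero_le _
    · exact D.deg_S x hx
  | zero => rw [D.deg_zero]; exact Nat.zero_le _
  | add x y _ _ hx hy => exact (D.deg_add x y).trans (max_le hx hy)
  | smul a x _ hx => exact (D.deg_smul_le a x).trans hx

omit [IsDomain A] in
theorem one_mem_span : (1 : A) ∈ Submodule.span k (insert (1 : A) (D.S : Set A)) :=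
  Submodule.subset_span (Set.mem_insert _ _)

omit [IsDomain A] in
theorem fil_mono {i j : ℕ} (h : i ≤ j) : D.fil i ≤ D.fil j :=
  pow_le_pow_right' (Submodule.one_le.2 D.one_mem_span) h

theorem deg_le_of_mem_fil (j : ℕ) (f : A) (hf : f ∈ D.fil j) : D.deg f ≤ j := by
  induction j generalizing f with
  | zero =>
    unfold fil at hf
    rw [pow_zero, Submodule.mem_one] at hf
    obtain ⟨c, rfl⟩ := hf
    rw [D.deg_algebraMap]
  | succ j ih =>
    unfold fil at hf
    rw [pow_succ] at hf
    induction hf using Submodule.mul_induction_on' with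
    | mem_mul_mem m hm n hn =>
      exact (D.deg_mul_le m n).trans (add_le_add (ih m hm) (D.deg_le_one_of_mem_span n hn))
    | add x _ y _ hx hy => exact (D.deg_add x y).trans (max_le hx hy)

/-- The filtration is the filtration by the degree. -/
theorem mem_fil (j : ℕ) (f : A) : f ∈ D.fil j ↔ D.deg f ≤ j :=
  ⟨D.deg_le_of_mem_fil j f, fun h => D.fil_mono h (D.gen f)⟩

omit [IsDomain A] in
theorem fil_mul (i j : ℕ) : D.fil i * D.fil j = D.fil (i + j) := by
  unfold fil
  rw [pow_add]

omit [IsDomain A] in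
theorem fil_zero : D.fil 0 = 1 := by
  unfold fil
  rw [pow_zero]

omit [IsDomain A] in
theorem fil_pow (j : ℕ) : D.fil j = D.fil 1 ^ j := by
  unfold fil
  rw [pow_one]

omit [IsDomain A] in
theorem fil_fg (j : ℕ) : (D.fil j).FG := by
  unfold fil
  apply Submodule.FG.pow
  exact Submodule.fg_span (D.S.finite_toSet.insert 1)

end api

end DegFun

end Pool.Agent.K1
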