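import Mathlib
import Pool.Agent.K1.L2Api

/-!
Layer 2, row L2-01: the chart at infinity.
-/

namespace Pool.Agent.K1

section chart

variable {k A : Type} [Field k] [CommRing A] [IsDomain A] [Algebra k A]

/-- The ring of the `f / U ^ j`, `deg f ≤ j`. -/
noncomputable def chartE (D : DegFun k A) (U : A) (hU : D.deg U = 1) :
    Subalgebra k (FractionRing A) where
  carrier := {x | ∃ (j : ℕ) (f : A), D.deg f ≤ j ∧
    x = algebraMap A (FractionRing A) f / algebraMap A (FractionRing A) U ^ j}
  mul_mem' := by
    rintro x y ⟨i, f, hf, rfl⟩ ⟨j, g, hg, rfl⟩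
    refine ⟨i + j, f * g, (D.deg_mul_le f g).trans (add_le_add hf hg), ?_⟩
    rw [map_mul, pow_add, div_mul_div_comm]
  add_mem' := by
    rintro x y ⟨i, f, hf, rfl⟩ ⟨j, g, hg, rfl⟩
    have hU0 : U ≠ 0 := D.ne_zero_of_deg_pos U (by rw [hU]; exact one_pos)
    have hU1 : algebraMap A (FractionRing A) U ≠ 0 := by
      intro h
      exact hU0 ((IsFractionRing.injective A (FractionRing A)) (by rw [h, map_zero]))
    refine ⟨i + j, f * U ^ j + U ^ i * g, ?_, ?_⟩
    · refine (D.deg_add _ _).trans (max_le ?_ ?_)
      · refine (D.deg_mul_le _ _).trans (add_le_add hf ?_)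
        refine (D.deg_pow_le U j).trans ?_
        rw [hU, mul_one]
      · refine (D.deg_mul_le _ _).trans (add_le_add ?_ hg)
        refine (D.deg_pow_le U i).trans ?_
        rw [hU, mul_one]
    · rw [div_add_div _ _ (pow_ne_zero i hU1) (pow_ne_zero j hU1), ← pow_add, map_add, map_mul,
        map_mul, map_pow, map_pow]
  algebraMap_mem' := by
    intro c
    refine ⟨0, algebraMap k A c, (D.deg_algebraMap c).le, ?_⟩
    rw [pow_zero, div_one]
    exact IsScalarTower.algebraMap_apply k A (FractionRing A) c

theorem mem_chartE (D : DegFun k A) (U : A) (hU : D.deg U = 1) (x : FractionRing A) :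
    x ∈ chartE D U hU ↔ ∃ (j : ℕ) (f : A), D.deg f ≤ j ∧
      x = algebraMap A (FractionRing A) f / algebraMap A (FractionRing A) U ^ j :=
  Iff.rfl

theorem mem_adjoin_of_mem_fil (D : DegFun k A) (U : A) (T : Set (FractionRing A))
    (h1 : 1 / algebraMap A (FractionRing A) U ∈ T)
    (hS : ∀ s ∈ D.S, algebraMap A (FractionRing A) s / algebraMap A (FractionRing A) U ∈ T)
    (j : ℕ) (f : A) (hf : f ∈ D.fil j) :
    algebraMap A (FractionRing A) f / algebraMap A (FractionRing A) U ^ j ∈
      Algebra.adjoin k T := by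
  have hone : ∀ v ∈ Submodule.span k (insert (1 : A) (D.S : Set A)),
      algebraMap A (FractionRing A) v / algebraMap A (FractionRing A) U ∈
        Algebra.adjoin k T := by
    intro v hv
    induction hv using Submodule.span_induction with
    | mem x hx =>
      rcases hx with rfl | hx
      · rw [map_one]
        exact Algebra.subset_adjoin h1
      · exact Algebra.subset_adjoin (hS x hx)
    | zero => rw [map_zero, zero_div]; exact Subalgebra.zero_mem _
    | add x y _ _ hx hy =>
      rw [map_add, add_div]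
      exact Subalgebra.add_mem _ hx hy
    | smul a x _ hx =>
      rw [Algebra.smul_def, map_mul, mul_div_assoc, ← IsScalarTower.algebraMap_apply]
      exact Subalgebra.mul_mem _ (Subalgebra.algebraMap_mem _ _) hx
  induction j generalizing f with
  | zero =>
    rw [D.fil_zero, Submodule.mem_one] at hf
    obtain ⟨c, rfl⟩ := hf
    rw [pow_zero, div_one, ← IsScalarTower.algebraMap_apply]
    exact Subalgebra.algebraMap_mem _ _
  | succ j ih =>
    unfold DegFun.fil at hf
    rw [pow_succ] at hf
    induction hf using Submodule.mul_induction_on' with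
    | mem_mul_mem m hm n hn =>
      rw [map_mul, pow_succ, ← div_mul_div_comm]
      exact Subalgebra.mul_mem _ (ih m hm) (hone n hn)
    | add x _ y _ hx hy =>
      rw [map_add, add_div]
      exact Subalgebra.add_mem _ hx hy

theorem chartE_fg (D : DegFun k A) (U : A) (hU : D.deg U = 1) :
    Algebra.FiniteType k (chartE D U hU) := by
  classical
  rw [← Subalgebra.fg_iff_finiteType]
  refine ⟨insert (1 / algebraMap A (FractionRing A) U)
    (D.S.image fun s => algebraMap A (FractionRing A) s / algebraMap A (FractionRing A) U), ?_⟩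
  apply le_antisymm
  · rw [Algebra.adjoin_le_iff]
    intro x hx
    rw [Finset.coe_insert, Finset.coe_image] at hx
    rcases hx with rfl | ⟨s, hs, rfl⟩
    · refine ⟨1, 1, by rw [D.deg_one]; exact Nat.zero_le _, ?_⟩
      rw [map_one, pow_one]
    · refine ⟨1, s, D.deg_S s hs, ?_⟩
      rw [pow_one]
  · rintro x ⟨j, f, hf, rfl⟩
    apply mem_adjoin_of_mem_fil D U
    · rw [Finset.coe_insert]
      exact Set.mem_insert _ _
    · intro s hs
      rw [Finset.coe_insert, Finset.coe_image]
      exact Set.mem_insert_of_mem _ ⟨s, hs, rfl⟩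
    · exact (D.mem_fil j f).2 hf

theorem trdeg_chartE_le (D : DegFun k A) (U : A) (hU : D.deg U = 1) :
    Algebra.trdeg k (chartE D U hU) ≤ Algebra.trdeg k A := by
  have h1 : Algebra.trdeg k (chartE D U hU) ≤ Algebra.trdeg k (FractionRing A) :=
    trdeg_le_of_injective (chartE D U hU).val Subtype.val_injective
  have h2 : Algebra.trdeg k A + Algebra.trdeg A (FractionRing A) =
      Algebra.trdeg k (FractionRing A) := trdeg_add_eq k A
  have h3 : Algebra.IsAlgebraic A (FractionRing A) :=
    IsLocalization.isAlgebraic (FractionRing A) (nonZeroDivisors A)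
  have h4 : Algebra.trdeg A (FractionRing A) = 0 := trdeg_eq_zero
  rw [h4, add_zero] at h2
  rw [h2]
  exact h1

/-- `f / U ^ j` as an element of the chart. -/
noncomputable def chartθ (D : DegFun k A) (U : A) (hU : D.deg U = 1) (j : ℕ) (f : A) :
    chartE D U hU := by
  classical
  exact if h : D.deg f ≤ j then
    ⟨algebraMap A (FractionRing A) f / algebraMap A (FractionRing A) U ^ j, ⟨j, f, h, rfl⟩⟩
  else 0

theorem coe_chartθ (D : DegFun k A) (U : A) (hU : D.deg U = 1) (j : ℕ) (f : A)
    (h : D.deg f ≤ j) :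
    ((chartθ D U hU j f : chartE D U hU) : FractionRing A) =
      algebraMap A (FractionRing A) f / algebraMap A (FractionRing A) U ^ j := by
  unfold chartθ
  rw [dif_pos h]

theorem isChart_chartθ (D : DegFun k A) (U : A) (hU : D.deg U = 1) :
    IsChart D U (chartθ D U hU) := by
  have hU0 : U ≠ 0 := D.ne_zero_of_deg_pos U (by rw [hU]; exact one_pos)
  have hinj := IsFractionRing.injective A (FractionRing A)
  have hU1 : algebraMap A (FractionRing A) U ≠ 0 := by
    intro h
    exact hU0 (hinj (by rw [h, map_zero]))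
  refine ⟨hU, ?_, ?_, ?_, ?_, ?_, ?_, ?_⟩
  · intro j f g hf hg
    apply Subtype.ext
    rw [coe_chartθ D U hU j _ ((D.deg_add f g).trans (max_le hf hg)), AddMemClass.coe_add,
      coe_chartθ D U hU j f hf, coe_chartθ D U hU j g hg, map_add, add_div]
  · intro i j f g hf hg
    apply Subtype.ext
    rw [coe_chartθ D U hU (i + j) _ ((D.deg_mul_le f g).trans (add_le_add hf hg)),
      MulMemClass.coe_mul, coe_chartθ D U hU i f hf, coe_chartθ D U hU j g hg, map_mul,
      div_mul_div_comm, pow_add]
  · intro c
    apply Subtype.ext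
    rw [coe_chartθ D U hU 0 _ (D.deg_algebraMap c).le, pow_zero, div_one,
      ← IsScalarTower.algebraMap_apply]
    rfl
  · apply Subtype.ext
    rw [coe_chartθ D U hU 1 U hU.le, pow_one, div_self hU1]
    rfl
  · intro j f hf h0
    have h1 := congrArg (Subtype.val) h0
    rw [coe_chartθ D U hU j f hf, ZeroMemClass.coe_zero, div_eq_zero_iff] at h1
    rcases h1 with h1 | h1
    · exact hinj (by rw [h1, map_zero])
    · exact absurd h1 (pow_ne_zero j hU1)
  · intro y
    obtain ⟨j, f, hf, hx⟩ := (mem_chartE D U hU y.1).1 y.2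
    exact ⟨j, f, hf, Subtype.ext ((coe_chartθ D U hU j f hf).trans hx.symm)⟩
  · rintro j f hf ⟨y, hfx⟩
    obtain ⟨i, g, hg, hx⟩ := (mem_chartE D U hU y.1).1 y.2
    by_cases hf0 : f = 0
    · exact Or.inl hf0
    right
    have h1 := congrArg (Subtype.val) hfx
    rw [coe_chartθ D U hU j f hf, MulMemClass.coe_mul,
      coe_chartθ D U hU 1 1 (by rw [D.deg_one]; exact Nat.zero_le _)] at h1
    rw [hx, div_mul_div_comm, map_one, one_mul,
      div_eq_div_iff (pow_ne_zero j hU1) (mul_ne_zero (pow_ne_zero 1 hU1) (pow_ne_zero i hU1)),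
      ← pow_add, ← map_pow, ← map_pow, ← map_mul, ← map_mul] at h1
    have h2 : f * U ^ (1 + i) = g * U ^ j := hinj h1
    have hg0 : g ≠ 0 := by
      rintro rfl
      rw [zero_mul] at h2
      exact mul_ne_zero hf0 (pow_ne_zero _ hU0) h2
    have h3 := congrArg D.deg h2
    rw [D.deg_mul _ _ hf0 (pow_ne_zero _ hU0), D.deg_mul _ _ hg0 (pow_ne_zero _ hU0),
      D.deg_pow U hU0, D.deg_pow U hU0, hU] at h3
    omega

end chart

/-- The chart at infinity exists. -/
theorem exists_chart {k A : Type} [Field k] [CommRing A] [IsDomain A] [Algebra k A]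
    (D : DegFun k A) (U : A) (hU : D.deg U = 1) :
    ∃ (E : Type) (_ : CommRing E) (_ : Algebra k E) (θ : ℕ → A → E), IsDomain E ∧
      Algebra.FiniteType k E ∧ Algebra.trdeg k E ≤ Algebra.trdeg k A ∧ IsChart D U θ :=
  ⟨chartE D U hU, inferInstance, inferInstance, chartθ D U hU, inferInstance,
    chartE_fg D U hU, trdeg_chartE_le D U hU, isChart_chartθ D U hU⟩

end Pool.Agent.K1
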