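import Pool.Agent.K1.L2Defs

/-!
L2-02: consequences of the chart.
-/

set_option autoImplicit false

namespace Pool.Agent.K1

namespace L2Chart2

section degree

variable {k A : Type} [Field k] [CommRing A] [IsDomain A] [Algebra k A] (D : DegFun k A)

theorem deg_one : D.deg (1 : A) = 0 := by
  have h := D.deg_mul 1 1 one_ne_zero one_ne_zero
  rw [mul_one] at h
  omega

theorem deg_neg_one : D.deg (-1 : A) = 0 := by
  have h := D.deg_mul (-1) (-1) (neg_ne_zero.2 one_ne_zero) (neg_ne_zero.2 one_ne_zero)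
  rw [neg_mul_neg, mul_one, deg_one] at h
  omega

theorem deg_zero : D.deg (0 : A) = 0 := by
  have h := D.deg_add 1 (-1)
  rw [add_neg_cancel, deg_one, deg_neg_one] at h
  omega

theorem deg_neg (f : A) : D.deg (-f) = D.deg f := by
  by_cases hf : f = 0
  · rw [hf, neg_zero]
  · rw [neg_eq_neg_one_mul, D.deg_mul _ _ (neg_ne_zero.2 one_ne_zero) hf, deg_neg_one, zero_add]

theorem deg_sub (f g : A) : D.deg (f - g) ≤ max (D.deg f) (D.deg g) := by
  rw [sub_eq_add_neg]
  exact (D.deg_add f (-g)).trans (by rw [deg_neg])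

theorem deg_algebraMap (c : k) : D.deg (algebraMap k A c) = 0 := by
  by_cases hc : c = 0
  · rw [hc, map_zero, deg_zero]
  · have h1 : algebraMap k A c ≠ 0 := by
      rwa [Ne, FaithfulSMul.algebraMap_eq_zero_iff]
    have h2 : algebraMap k A c⁻¹ ≠ 0 := by
      rw [Ne, FaithfulSMul.algebraMap_eq_zero_iff]
      exact inv_ne_zero hc
    have h := D.deg_mul _ _ h1 h2
    rw [← map_mul, mul_inv_cancel₀ hc, map_one, deg_one] at h
    omega

theorem deg_mul_le (f g : A) : D.deg (f * g) ≤ D.deg f + D.deg g := by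
  by_cases hf : f = 0
  · rw [hf, zero_mul, deg_zero]
    exact Nat.zero_le _
  · by_cases hg : g = 0
    · rw [hg, mul_zero, deg_zero]
      exact Nat.zero_le _
    · exact (D.deg_mul f g hf hg).le

theorem deg_pow (U : A) (hU : D.deg U = 1) (n : ℕ) : D.deg (U ^ n) = n := by
  have hU0 : U ≠ 0 := by
    intro h
    rw [h, deg_zero] at hU
    omega
  induction n with
  | zero => rw [pow_zero, deg_one]
  | succ n ih => rw [pow_succ, D.deg_mul _ _ (pow_ne_zero n hU0) hU0, ih, hU]

theorem deg_fil (j : ℕ) (f : A) (hf : f ∈ D.fil j) : D.deg f ≤ j := by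
  induction j generalizing f with
  | zero =>
    rw [DegFun.fil, pow_zero, Submodule.mem_one] at hf
    obtain ⟨c, rfl⟩ := hf
    rw [deg_algebraMap]
  | succ j ih =>
    rw [DegFun.fil, pow_succ] at hf
    induction hf using Submodule.mul_induction_on' with
    | mem_mul_mem b hb c hc =>
      have h1 : D.deg c ≤ 1 := by
        induction hc using Submodule.span_induction with
        | mem x hx =>
          rcases hx with rfl | hx
          · rw [deg_one]
            exact Nat.zero_le _
          · exact D.deg_S x hx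
        | zero => rw [deg_zero]; exact Nat.zero_le _
        | add x y _ _ hx hy => exact (D.deg_add x y).trans (max_le hx hy)
        | smul a x _ hx =>
          rw [Algebra.smul_def]
          exact (deg_mul_le D _ _).trans (by rw [deg_algebraMap, zero_add]; exact hx)
      exact (deg_mul_le D _ _).trans (add_le_add (ih b hb) h1)
    | add g₁ _ g₂ _ h₁ h₂ => exact (D.deg_add _ _).trans (max_le h₁ h₂)

theorem mem_fil (j : ℕ) (f : A) : f ∈ D.fil j ↔ D.deg f ≤ j := by
  constructor
  · exact deg_fil D j f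
  · intro h
    have h1 : (1 : Submodule k A) ≤ Submodule.span k (insert (1 : A) (D.S : Set A)) := by
      rw [Submodule.one_le]
      exact Submodule.subset_span (Set.mem_insert _ _)
    exact pow_le_pow_right₀ h1 h (D.gen f)

end degree

section chart

variable {k A E : Type} [Field k] [CommRing A] [IsDomain A] [Algebra k A] [CommRing E]
  [Algebra k E] {D : DegFun k A} {U : A} {θ : ℕ → A → E} (h : IsChart D U θ)

include h

theorem map_succ (j : ℕ) (f : A) (hf : D.deg f ≤ j) : θ (j + 1) f = θ j f * θ 1 1 := by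
  rw [← h.map_mul j 1 f 1 hf (by rw [deg_one]; exact Nat.zero_le _), mul_one]

theorem map_zero' (j : ℕ) : θ j 0 = 0 := by
  have h1 := h.map_add j 0 0 (by rw [deg_zero]; exact Nat.zero_le _)
    (by rw [deg_zero]; exact Nat.zero_le _)
  rw [add_zero] at h1
  exact left_eq_add.1 h1

theorem map_smul' (j : ℕ) (c : k) (f : A) (hf : D.deg f ≤ j) : θ j (c • f) = c • θ j f := by
  have h1 := h.map_mul 0 j (algebraMap k A c) f (by rw [deg_algebraMap]) hf
  rw [zero_add, h.map_C, ← Algebra.smul_def, ← Algebra.smul_def] at h1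
  exact h1

theorem map_pow_U (n : ℕ) : θ n (U ^ n) = 1 := by
  induction n with
  | zero =>
    have h1 := h.map_C 1
    rw [_root_.map_one, _root_.map_one] at h1
    rw [pow_zero, h1]
  | succ n ih =>
    rw [pow_succ, h.map_mul n 1 _ _ (deg_pow D U h.degU n).le h.degU.le, ih, h.map_U, one_mul]

theorem map_injective (j : ℕ) (f g : A) (hf : D.deg f ≤ j) (hg : D.deg g ≤ j)
    (hfg : θ j f = θ j g) : f = g := by
  have h1 : D.deg (f - g) ≤ j := (deg_sub D f g).trans (max_le hf hg)
  have h2 := h.map_add j (f - g) g h1 hg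
  rw [sub_add_cancel, hfg] at h2
  exact sub_eq_zero.1 (h.inj j _ h1 (right_eq_add.1 h2))

end chart

end L2Chart2

open L2Chart2

section chart

variable {k A E : Type} [Field k] [CommRing A] [IsDomain A] [Algebra k A] [CommRing E]
  [IsDomain E] [Algebra k E] (D : DegFun k A) (U : A) (θ : ℕ → A → E) (h : IsChart D U θ)

include h in
theorem chart_prime : Prime (θ 1 1) := by
  have hd1 : D.deg (1 : A) ≤ 1 := by
    rw [L2Chart2.deg_one]
    exact Nat.zero_le _
  have hdvd : ∀ (i : ℕ) (f : A), (f = 0 ∨ D.deg f < i) → θ 1 1 ∣ θ i f := by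
    intro i f hf
    rcases hf with hf | hf
    · rw [hf, map_zero' h]
      exact dvd_zero _
    · obtain ⟨i, rfl⟩ := Nat.exists_eq_succ_of_ne_zero (Nat.ne_of_gt (Nat.zero_lt_of_lt hf))
      rw [Nat.succ_eq_add_one, map_succ h i f (Nat.lt_succ_iff.1 hf)]
      exact dvd_mul_left _ _
  refine ⟨?_, ?_, ?_⟩
  · intro h0
    exact one_ne_zero (h.inj 1 1 hd1 h0)
  · intro hu
    obtain ⟨x, hx⟩ := isUnit_iff_exists_inv.1 hu
    obtain ⟨j, f, hf, rfl⟩ := h.surj x
    have h1 : θ (j + 1) f = θ (j + 1) (U ^ (j + 1)) := by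
      rw [map_pow_U h, map_succ h j f hf, mul_comm]
      exact hx
    have h2 := map_injective h (j + 1) f (U ^ (j + 1)) (hf.trans (Nat.le_succ j))
      (L2Chart2.deg_pow D U h.degU (j + 1)).le h1
    rw [h2, L2Chart2.deg_pow D U h.degU] at hf
    omega
  · intro a b hab
    obtain ⟨i, f, hf, rfl⟩ := h.surj a
    obtain ⟨j, g, hg, rfl⟩ := h.surj b
    rw [← h.map_mul i j f g hf hg] at hab
    have h1 := h.dvd (i + j) (f * g) ((L2Chart2.deg_mul_le D f g).trans (add_le_add hf hg)) hab
    by_cases hf0 : f = 0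
    · exact Or.inl (hdvd i f (Or.inl hf0))
    by_cases hg0 : g = 0
    · exact Or.inr (hdvd j g (Or.inl hg0))
    rcases h1 with h1 | h1
    · exact absurd h1 (mul_ne_zero hf0 hg0)
    · rw [D.deg_mul f g hf0 hg0] at h1
      by_cases hfi : D.deg f < i
      · exact Or.inl (hdvd i f (Or.inr hfi))
      · exact Or.inr (hdvd j g (Or.inr (by omega)))

include h in
/-- `W = ρ₁(fil 1)` and `W ^ j = ρ_j (fil j)`. -/
theorem chart_W :
    ∃ W : Submodule k (E ⧸ Ideal.span {θ 1 1}), W.FG ∧ 1 ∈ W ∧
      Algebra.adjoin k (W : Set (E ⧸ Ideal.span {θ 1 1})) = ⊤ ∧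
      ∀ (j : ℕ) (c : E ⧸ Ideal.span {θ 1 1}), c ∈ W ^ j ↔
        ∃ f : A, D.deg f ≤ j ∧ Ideal.Quotient.mk _ (θ j f) = c := by
  let mk : E →ₐ[k] E ⧸ Ideal.span {θ 1 1} := Ideal.Quotient.mkₐ k (Ideal.span {θ 1 1})
  let R : (D.fil 1) →ₗ[k] (E ⧸ Ideal.span {θ 1 1}) :=
    { toFun := fun f => mk (θ 1 f.1)
      map_add' := by
        intro f g
        have hf := (mem_fil D 1 f.1).1 f.2
        have hg := (mem_fil D 1 g.1).1 g.2
        rw [Submodule.coe_add, h.map_add 1 _ _ hf hg, map_add]
      map_smul' := by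
        intro c f
        have hf := (mem_fil D 1 f.1).1 f.2
        rw [Submodule.coe_smul, map_smul' h 1 c _ hf, map_smul, RingHom.id_apply] }
  have hRmem : ∀ c, c ∈ LinearMap.range R ↔ ∃ f : A, D.deg f ≤ 1 ∧ mk (θ 1 f) = c := by
    intro c
    constructor
    · rintro ⟨f, rfl⟩
      exact ⟨f.1, (mem_fil D 1 f.1).1 f.2, rfl⟩
    · rintro ⟨f, hf, rfl⟩
      exact ⟨⟨f, (mem_fil D 1 f).2 hf⟩, rfl⟩
  have hfg : (LinearMap.range R).FG := by
    have h1 : (D.fil 1).FG := by
      rw [DegFun.fil, pow_one]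
      refine Submodule.fg_span ?_
      exact Set.Finite.insert _ (Finset.finite_toSet _)
    have h2 : Module.Finite k ↥(D.fil 1) := Module.Finite.iff_fg.2 h1
    exact Module.Finite.iff_fg.1 (Module.Finite.range R)
  have hpow : ∀ (j : ℕ) (c : E ⧸ Ideal.span {θ 1 1}), c ∈ (LinearMap.range R) ^ j ↔
      ∃ f : A, D.deg f ≤ j ∧ mk (θ j f) = c := by
    intro j
    induction j with
    | zero =>
      intro c
      rw [pow_zero, Submodule.mem_one]
      constructor
      · rintro ⟨a, rfl⟩
        refine ⟨algebraMap k A a, (deg_algebraMap D a).le, ?_⟩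
        rw [h.map_C, AlgHom.commutes]
      · rintro ⟨f, hf, rfl⟩
        have h1 := (mem_fil D 0 f).2 hf
        rw [DegFun.fil, pow_zero, Submodule.mem_one] at h1
        obtain ⟨a, rfl⟩ := h1
        refine ⟨a, ?_⟩
        rw [h.map_C, AlgHom.commutes]
    | succ j ih =>
      intro c
      rw [pow_succ]
      constructor
      · intro hc
        induction hc using Submodule.mul_induction_on' with
        | mem_mul_mem a ha b hb =>
          obtain ⟨f, hf, rfl⟩ := (ih a).1 ha
          obtain ⟨g, hg, rfl⟩ := (hRmem b).1 hb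
          refine ⟨f * g, (L2Chart2.deg_mul_le D f g).trans (add_le_add hf hg), ?_⟩
          rw [h.map_mul j 1 f g hf hg, map_mul]
        | add a _ b _ ha hb =>
          obtain ⟨f, hf, rfl⟩ := ha
          obtain ⟨g, hg, rfl⟩ := hb
          refine ⟨f + g, (D.deg_add f g).trans (max_le hf hg), ?_⟩
          rw [h.map_add _ f g hf hg, map_add]
      · rintro ⟨f, hf, rfl⟩
        have h1 := (mem_fil D (j + 1) f).2 hf
        rw [DegFun.fil, pow_succ] at h1
        clear hf
        have h2 : D.deg f ≤ j + 1 ∧ mk (θ (j + 1) f) ∈ LinearMap.range R ^ j * LinearMap.range R := by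
          induction h1 using Submodule.mul_induction_on' with
          | mem_mul_mem a ha b hb =>
            have ha' := (mem_fil D j a).1 ha
            have hb' := (mem_fil D 1 b).1 (by rw [DegFun.fil, pow_one]; exact hb)
            refine ⟨(L2Chart2.deg_mul_le D a b).trans (add_le_add ha' hb'), ?_⟩
            rw [h.map_mul j 1 a b ha' hb', map_mul]
            exact Submodule.mul_mem_mul ((ih _).2 ⟨a, ha', rfl⟩) ((hRmem _).2 ⟨b, hb', rfl⟩)
          | add a _ b _ ha hb =>
            refine ⟨(D.deg_add a b).trans (max_le ha.1 hb.1), ?_⟩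
            rw [h.map_add _ a b ha.1 hb.1, map_add]
            exact add_mem ha.2 hb.2
        exact h2.2
  have hle : ∀ j : ℕ, (LinearMap.range R) ^ j ≤
      Subalgebra.toSubmodule (Algebra.adjoin k
        ((LinearMap.range R : Submodule k (E ⧸ Ideal.span {θ 1 1})) :
          Set (E ⧸ Ideal.span {θ 1 1}))) := by
    intro j
    induction j with
    | zero =>
      rw [pow_zero, Submodule.one_le]
      exact one_mem (Algebra.adjoin k _)
    | succ j ih =>
      rw [pow_succ, Submodule.mul_le]
      intro a ha b hb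
      exact mul_mem (S := Subalgebra k (E ⧸ Ideal.span {θ 1 1})) (ih ha)
        (Algebra.subset_adjoin hb)
  refine ⟨LinearMap.range R, hfg, ?_, ?_, hpow⟩
  · rw [hRmem]
    exact ⟨U, h.degU.le, by rw [h.map_U, map_one]⟩
  · rw [eq_top_iff]
    intro c _
    obtain ⟨x, rfl⟩ := Ideal.Quotient.mk_surjective c
    obtain ⟨j, f, hf, rfl⟩ := h.surj x
    exact hle j ((hpow j _).2 ⟨f, hf, rfl⟩)

end chart

theorem exists_deg_one {k A : Type} [Field k] [CommRing A] [IsDomain A] [Algebra k A]
    (D : DegFun k A) (hA : Algebra.trdeg k A = 2) : ∃ U : A, D.deg U = 1 := by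
  by_contra hcon
  push Not at hcon
  have h1 : Submodule.span k (insert (1 : A) (D.S : Set A)) ≤ 1 := by
    rw [Submodule.span_le]
    rintro a (rfl | ha)
    · exact Submodule.one_le.1 le_rfl
    · have h2 : D.deg a = 0 := by
        have h3 := D.deg_S a ha
        have h4 := hcon a
        omega
      have h3 := D.gen a
      rw [h2, pow_zero] at h3
      exact h3
  have h2 : ∀ n : ℕ, (Submodule.span k (insert (1 : A) (D.S : Set A))) ^ n ≤ 1 := by
    intro n
    induction n with
    | zero => rw [pow_zero]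
    | succ n ih =>
      rw [pow_succ]
      exact (mul_le_mul' ih h1).trans (by rw [one_mul])
  have h3 : ∀ f : A, ∃ c : k, algebraMap k A c = f := by
    intro f
    exact Submodule.mem_one.1 (h2 _ (D.gen f))
  have h4 : Algebra.IsAlgebraic k A := by
    constructor
    intro f
    obtain ⟨c, rfl⟩ := h3 f
    exact isAlgebraic_algebraMap c
  rw [trdeg_eq_zero] at hA
  norm_num at hA

end Pool.Agent.K1
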