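import Mathlib
import Pool.Agent.K1.L2Defs
import Pool.Agent.K1.L2Chart2

/-!
L2-03: the curve at infinity is a curve (transcendence degree one).
-/

set_option autoImplicit false

open Polynomial

namespace Pool.Agent.K1

namespace L2ChartTr

/-- A lift of an algebraically independent pair modulo a prime element `t`, together with `t`,
is algebraically independent. -/
theorem option_indep {k E : Type} [Field k] [CommRing E] [IsDomain E] [Algebra k E] (t : E)
    (ht : t ≠ 0) (a b : E)
    (hab : AlgebraicIndependent k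
      ![Ideal.Quotient.mkₐ k (Ideal.span {t}) a, Ideal.Quotient.mkₐ k (Ideal.span {t}) b]) :
    AlgebraicIndependent k (fun o : Option (Fin 2) => o.elim t ![a, b]) := by
  set mk := Ideal.Quotient.mkₐ k (Ideal.span {t}) with hmk
  have hcomp : (mk ∘ ![a, b] : Fin 2 → E ⧸ Ideal.span {t}) = ![mk a, mk b] := by
    funext i
    fin_cases i <;> rfl
  have hx : AlgebraicIndependent k (![a, b] : Fin 2 → E) := by
    apply AlgebraicIndependent.of_comp mk
    rw [hcomp]
    exact hab
  rw [AlgebraicIndependent.option_iff_transcendental hx]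
  rw [transcendental_iff]
  intro P hP
  by_contra hP0
  obtain ⟨Q, hQ, hdvd⟩ := Polynomial.exists_eq_pow_rootMultiplicity_mul_and_not_dvd P hP0 0
  rw [map_zero, sub_zero] at hQ hdvd
  have h1 : aeval t Q = 0 := by
    rw [hQ, map_mul, map_pow, aeval_X] at hP
    rcases mul_eq_zero.1 hP with h | h
    · exact absurd h (pow_ne_zero _ ht)
    · exact h
  have h2 : Q.coeff 0 ≠ 0 := by
    intro h
    exact hdvd (Polynomial.X_dvd_iff.2 h)
  have h3 : t ∣ ((Q.coeff 0 : Algebra.adjoin k (Set.range ![a, b])) : E) := by
    have h4 : Q = Polynomial.X * Q.divX + Polynomial.C (Q.coeff 0) :=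
      (Polynomial.X_mul_divX_add Q).symm
    rw [h4, map_add, map_mul, aeval_X, aeval_C] at h1
    rw [← dvd_neg]
    exact ⟨aeval t Q.divX, (eq_neg_of_add_eq_zero_left h1).symm⟩
  have h5 : ((Q.coeff 0 : Algebra.adjoin k (Set.range ![a, b])) : E) ∈
      (MvPolynomial.aeval (R := k) ![a, b]).range := by
    rw [← Algebra.adjoin_range_eq_range_aeval]
    exact (Q.coeff 0).2
  obtain ⟨p, hp⟩ := h5
  have hp' : MvPolynomial.aeval ![a, b] p =
      ((Q.coeff 0 : Algebra.adjoin k (Set.range ![a, b])) : E) := hp
  have h6 : MvPolynomial.aeval ![mk a, mk b] p = 0 := by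
    rw [← hcomp]
    have h7 : MvPolynomial.aeval (mk ∘ ![a, b]) p = mk (MvPolynomial.aeval ![a, b] p) := by
      exact (MvPolynomial.comp_aeval_apply ![a, b] mk p).symm
    rw [h7, hp']
    exact Ideal.Quotient.eq_zero_iff_mem.2 (Ideal.mem_span_singleton.2 h3)
  have h8 : p = 0 := hab.eq_zero_of_aeval_eq_zero p h6
  rw [h8, map_zero] at hp'
  exact h2 (Subtype.ext hp'.symm)

end L2ChartTr

open L2Chart2

section chart

variable {k A E : Type} [Field k] [CommRing A] [IsDomain A] [Algebra k A] [CommRing E]
  [IsDomain E] [Algebra k E] (D : DegFun k A) (U : A) (θ : ℕ → A → E) (h : IsChart D U θ)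

include h in
theorem chart_trdeg [IsAlgClosed k] (hA : Algebra.trdeg k A = 2)
    (hE : Algebra.trdeg k E ≤ Algebra.trdeg k A) :
    (¬ Module.Finite k (E ⧸ Ideal.span {θ 1 1})) ∧
    ∀ a b : E ⧸ Ideal.span {θ 1 1}, ¬ AlgebraicIndependent k ![a, b] := by
  have hprime : Prime (θ 1 1) := chart_prime D U θ h
  constructor
  · intro hfin
    have : (Ideal.span {θ 1 1}).IsPrime := (Ideal.span_singleton_prime hprime.ne_zero).2 hprime
    have : IsDomain (E ⧸ Ideal.span {θ 1 1}) := Ideal.Quotient.isDomain _
    have hbij : Function.Bijective (algebraMap k (E ⧸ Ideal.span {θ 1 1})) :=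
      IsAlgClosed.algebraMap_bijective_of_isIntegral
    have h1 : ∀ f : A, D.deg f ≤ 1 → ∃ c d : k, f = algebraMap k A d + c • U := by
      intro f hf
      obtain ⟨c, hc⟩ := hbij.2 (Ideal.Quotient.mk (Ideal.span {θ 1 1}) (θ 1 f))
      have hcU : D.deg (c • U) ≤ 1 := by
        rw [Algebra.smul_def]
        exact (deg_mul_le D _ _).trans (by rw [deg_algebraMap, zero_add, h.degU])
      have hsub : D.deg (f - c • U) ≤ 1 := (deg_sub D _ _).trans (max_le hf hcU)
      have h2 : θ 1 f = θ 1 (f - c • U) + algebraMap k E c := by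
        have h3 := h.map_add 1 (f - c • U) (c • U) hsub hcU
        rw [sub_add_cancel, map_smul' h 1 c U h.degU.le, h.map_U] at h3
        rw [h3, Algebra.smul_def c (1 : E), mul_one]
      have h4 : θ 1 1 ∣ θ 1 (f - c • U) := by
        rw [← Ideal.mem_span_singleton, ← Ideal.Quotient.eq_zero_iff_mem]
        rw [h2, map_add] at hc
        have h5 : Ideal.Quotient.mk (Ideal.span {θ 1 1}) (algebraMap k E c) =
            algebraMap k (E ⧸ Ideal.span {θ 1 1}) c := rfl
        rw [h5] at hc
        exact (left_eq_add.1 (by rw [add_comm]; exact hc))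
      have h6 : D.deg (f - c • U) ≤ 0 := by
        rcases h.dvd 1 _ hsub h4 with h7 | h7
        · rw [h7, L2Chart2.deg_zero]
        · omega
      have h8 := (mem_fil D 0 _).2 h6
      rw [DegFun.fil, pow_zero, Submodule.mem_one] at h8
      obtain ⟨d, hd⟩ := h8
      exact ⟨c, d, by rw [hd, sub_add_cancel]⟩
    have h2 : ∀ f : A, f ∈ Algebra.adjoin k ({U} : Set A) := by
      intro f
      have h3 : Submodule.span k (insert (1 : A) (D.S : Set A)) ≤
          Subalgebra.toSubmodule (Algebra.adjoin k ({U} : Set A)) := by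
        rw [Submodule.span_le]
        intro a ha
        have h4 : D.deg a ≤ 1 := by
          rcases ha with rfl | ha
          · rw [L2Chart2.deg_one]
            exact Nat.zero_le _
          · exact D.deg_S a ha
        obtain ⟨c, d, rfl⟩ := h1 a h4
        exact add_mem (Subalgebra.algebraMap_mem _ d)
          (Subalgebra.smul_mem _ (Algebra.self_mem_adjoin_singleton k U) c)
      have h5 : ∀ n : ℕ, (Submodule.span k (insert (1 : A) (D.S : Set A))) ^ n ≤
          Subalgebra.toSubmodule (Algebra.adjoin k ({U} : Set A)) := by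
        intro n
        induction n with
        | zero =>
          rw [pow_zero, Submodule.one_le]
          exact one_mem (Algebra.adjoin k ({U} : Set A))
        | succ n ih =>
          rw [pow_succ, Submodule.mul_le]
          intro a ha b hb
          exact mul_mem (S := Subalgebra k A) (ih ha) (h3 hb)
      exact h5 _ (D.gen f)
    have h3 : Algebra.trdeg k A ≤ 1 := by
      have h4 : Algebra.IsAlgebraic (Algebra.adjoin k ({U} : Set A)) A := by
        constructor
        intro f
        exact isAlgebraic_algebraMap (⟨f, h2 f⟩ : Algebra.adjoin k ({U} : Set A))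
      have h5 := Algebra.IsAlgebraic.trdeg_le_cardinalMk k ({U} : Set A)
      rw [Cardinal.mk_singleton] at h5
      exact h5
    rw [hA] at h3
    norm_num at h3
  · intro a b hab
    obtain ⟨a', rfl⟩ := Ideal.Quotient.mk_surjective a
    obtain ⟨b', rfl⟩ := Ideal.Quotient.mk_surjective b
    have h1 := L2ChartTr.option_indep (θ 1 1) hprime.ne_zero a' b' hab
    have h2 := h1.cardinalMk_le_trdeg
    have h3 : Cardinal.mk (Option (Fin 2)) = 3 := by
      rw [Cardinal.mk_fintype]
      simp
    rw [h3] at h2
    have h4 := h2.trans (hE.trans hA.le)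
    norm_num at h4

end chart

end Pool.Agent.K1
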