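import Pool.Agent.K1.L2Defs

/-!
L2-18 of the K1 project: growth of the coefficients of the expansion.
-/

set_option autoImplicit false

open Polynomial

namespace Pool.Agent.K1

namespace L2Growth

variable {k : Type} [Field k]

/-- products of series without constant term -/
theorem coeff_mul_bound {f g : PowerSeries k[X]} {i : ℕ} (hf0 : PowerSeries.coeff 0 f = 0)
    (hg0 : PowerSeries.coeff 0 g = 0)
    (hf : ∀ a < i, 1 ≤ a → (PowerSeries.coeff a f).natDegree ≤ a - 1)
    (hg : ∀ a < i, 1 ≤ a → (PowerSeries.coeff a g).natDegree ≤ a - 1) {c : ℕ} (hc : c ≤ i) :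
    (PowerSeries.coeff c (f * g)).natDegree ≤ c - 2 ∧
      (c < 2 → PowerSeries.coeff c (f * g) = 0) := by
  rw [PowerSeries.coeff_mul]
  constructor
  · apply natDegree_sum_le_of_forall_le
    intro ab hab
    rw [Finset.HasAntidiagonal.mem_antidiagonal] at hab
    rcases Nat.eq_zero_or_pos ab.1 with h1 | h1
    · rw [h1, hf0, zero_mul, natDegree_zero]
      omega
    rcases Nat.eq_zero_or_pos ab.2 with h2 | h2
    · rw [h2, hg0, mul_zero, natDegree_zero]
      omega
    refine natDegree_mul_le.trans ?_
    have h3 := hf ab.1 (by omega) h1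
    have h4 := hg ab.2 (by omega) h2
    omega
  · intro hc2
    apply Finset.sum_eq_zero
    intro ab hab
    rw [Finset.HasAntidiagonal.mem_antidiagonal] at hab
    rcases Nat.eq_zero_or_pos ab.1 with h1 | h1
    · rw [h1, hf0, zero_mul]
    rcases Nat.eq_zero_or_pos ab.2 with h2 | h2
    · rw [h2, hg0, mul_zero]
    omega

end L2Growth

open L2Growth

theorem exp_growth {k E : Type} [Field k] [CommRing E] [Algebra k E] (x₀ : E →ₐ[k] k)
    (t τ φ : E) (M m : ℕ) (hM : 1 ≤ M) (hm : 2 ≤ m) (ht0 : x₀ t = 0) (hτ : x₀ τ = 0)
    (hφ0 : x₀ φ = 0) (hker : RingHom.ker x₀ ≤ Ideal.span {t, τ} ⊔ (RingHom.ker x₀) ^ 2)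
    (exp : E →+* PowerSeries k[X]) (h : IsExp x₀ t τ φ M m exp) (x : E) (i : ℕ) :
    (PowerSeries.coeff i (exp x)).natDegree ≤ i := by
  have h0 : ∀ x ∈ RingHom.ker x₀, PowerSeries.coeff 0 (exp x) = 0 := by
    intro x hx
    rw [RingHom.mem_ker] at hx
    rw [PowerSeries.coeff_zero_eq_constantCoeff_apply, h.const, hx, C_0]
  -- from the kernel to all elements
  have all : ∀ j : ℕ, (∀ x ∈ RingHom.ker x₀, 1 ≤ j →
      (PowerSeries.coeff j (exp x)).natDegree ≤ j - 1) → ∀ x : E,
      (PowerSeries.coeff j (exp x)).natDegree ≤ j := by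
    intro j hj x
    rcases Nat.eq_zero_or_pos j with rfl | hj1
    · rw [PowerSeries.coeff_zero_eq_constantCoeff_apply, h.const, natDegree_C]
    have h1 : x - algebraMap k E (x₀ x) ∈ RingHom.ker x₀ := by
      rw [RingHom.mem_ker, map_sub, AlgHom.commutes]
      exact sub_self _
    have h2 := hj _ h1 hj1
    have h3 : exp x = exp (x - algebraMap k E (x₀ x)) + PowerSeries.C (C (x₀ x)) := by
      rw [map_sub, h.exp_C, sub_add_cancel]
    rw [h3, map_add, PowerSeries.coeff_C, if_neg (by omega), add_zero]
    omega
  have key : ∀ j : ℕ, ∀ x ∈ RingHom.ker x₀, 1 ≤ j →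
      (PowerSeries.coeff j (exp x)).natDegree ≤ j - 1 := by
    intro j
    induction j using Nat.strong_induction_on with
    | _ j ih =>
      intro x hx hj
      have ihall : ∀ l < j, ∀ y : E, (PowerSeries.coeff l (exp y)).natDegree ≤ l :=
        fun l hl => all l (ih l hl)
      -- products of two elements of the kernel
      have hprod : ∀ a ∈ RingHom.ker x₀, ∀ b ∈ RingHom.ker x₀,
          (PowerSeries.coeff j (exp (a * b))).natDegree ≤ j - 1 := by
        intro a ha b hb
        rw [map_mul]
        have h1 := (coeff_mul_bound (h0 a ha) (h0 b hb) (fun l hl hl1 => ih l hl a ha hl1)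
          (fun l hl hl1 => ih l hl b hb hl1) (le_refl j)).1
        omega
      -- addition
      have hadd : ∀ a b : E, (PowerSeries.coeff j (exp a)).natDegree ≤ j - 1 →
          (PowerSeries.coeff j (exp b)).natDegree ≤ j - 1 →
          (PowerSeries.coeff j (exp (a + b))).natDegree ≤ j - 1 := by
        intro a b ha hb
        rw [map_add, map_add]
        exact natDegree_add_le_of_degree_le ha hb
      -- multiples of τ
      have hτ' : ∀ b : E, (PowerSeries.coeff j (exp (τ * b))).natDegree ≤ j - 1 := by
        intro b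
        obtain ⟨l, rfl⟩ : ∃ l, j = l + 1 := ⟨j - 1, by omega⟩
        rw [map_mul, h.exp_τ, mul_comm, PowerSeries.coeff_succ_mul_X]
        exact ihall l (by omega) b
      -- multiples of z
      have hz : ∀ b : E, (PowerSeries.coeff j (exp ((φ ^ 2 + t) * b))).natDegree ≤ j - 1 := by
        intro b
        have htk : t ∈ RingHom.ker x₀ := ht0
        have h1 : exp ((φ ^ 2 + t) * b) =
            PowerSeries.C X * ((exp t * exp t) * exp (t ^ (m - 2) * b)) := by
          rw [map_mul, h.exp_z, map_mul, map_pow]
          obtain ⟨l, rfl⟩ : ∃ l, m = l + 2 := ⟨m - 2, by omega⟩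
          rw [Nat.add_sub_cancel]
          ring
        rw [h1, PowerSeries.coeff_C_mul]
        rcases Nat.lt_or_ge j 2 with hj2 | hj2
        · have h2 : PowerSeries.coeff j ((exp t * exp t) * exp (t ^ (m - 2) * b)) = 0 := by
            rw [PowerSeries.coeff_mul]
            apply Finset.sum_eq_zero
            intro ab hab
            rw [Finset.HasAntidiagonal.mem_antidiagonal] at hab
            rw [(coeff_mul_bound (h0 t htk) (h0 t htk) (fun l hl hl1 => ih l hl t htk hl1)
              (fun l hl hl1 => ih l hl t htk hl1) (show ab.1 ≤ j by omega)).2 (by omega),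
              zero_mul]
          rw [h2, mul_zero, natDegree_zero]
          omega
        · have h2 : (PowerSeries.coeff j
              ((exp t * exp t) * exp (t ^ (m - 2) * b))).natDegree ≤ j - 2 := by
            rw [PowerSeries.coeff_mul]
            apply natDegree_sum_le_of_forall_le
            intro ab hab
            rw [Finset.HasAntidiagonal.mem_antidiagonal] at hab
            have h3 := coeff_mul_bound (h0 t htk) (h0 t htk)
              (fun l hl hl1 => ih l hl t htk hl1)
              (fun l hl hl1 => ih l hl t htk hl1) (show ab.1 ≤ j by omega)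
            rcases Nat.lt_or_ge ab.1 2 with hab2 | hab2
            · rw [h3.2 hab2, zero_mul, natDegree_zero]
              omega
            · refine natDegree_mul_le.trans ?_
              have h4 := ihall ab.2 (by omega) (t ^ (m - 2) * b)
              have h5 := h3.1
              omega
          refine natDegree_mul_le.trans ?_
          have h3 : (X : k[X]).natDegree ≤ 1 := natDegree_X_le
          omega
      have hφk : φ ∈ RingHom.ker x₀ := hφ0
      -- multiples of t
      have ht' : ∀ b : E, (PowerSeries.coeff j (exp (t * b))).natDegree ≤ j - 1 := by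
        intro b
        have h1 : t * b = (φ ^ 2 + t) * b + (-φ) * (φ * b) := by ring
        rw [h1]
        refine hadd _ _ (hz b) (hprod _ (neg_mem hφk) _ (Ideal.mul_mem_right b _ hφk))
      obtain ⟨y, hy, q, hq, rfl⟩ := Submodule.mem_sup.1 (hker hx)
      refine hadd _ _ ?_ ?_
      · obtain ⟨a, b, rfl⟩ := Ideal.mem_span_pair.1 hy
        rw [mul_comm a, mul_comm b]
        exact hadd _ _ (ht' a) (hτ' b)
      · rw [pow_two] at hq
        refine Submodule.mul_induction_on hq (fun a ha b hb => hprod a ha b hb) hadd
  exact all i (key i) x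

end Pool.Agent.K1
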