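import Pool.Agent.K1.L2Api
import Pool.Agent.K1.M6a

/-!
Layer 2: the degrees of the elements of the class `V(n, M)`.
-/

open Polynomial

namespace Pool.Agent.K1

section aux

variable {k A : Type} [Field k] [CommRing A] [IsDomain A] [Algebra k A] (D : DegFun k A)

theorem deg_aeval_le (s : A) (p : k[X]) (N : ℕ) (hp : p.natDegree ≤ N) :
    D.deg (aeval s p) ≤ N * D.deg s := by
  rw [aeval_eq_sum_range]
  refine D.deg_sum_le _ _ _ fun i hi => ?_
  refine (D.deg_smul_le _ _).trans ((D.deg_pow_le _ _).trans ?_)
  exact Nat.mul_le_mul_right _ ((Nat.lt_succ_iff.1 (Finset.mem_range.1 hi)).trans hp)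

/-- The degree of a monic polynomial in `s`. -/
theorem le_deg_aeval (s : A) (hs : 1 ≤ D.deg s) (c : k[X]) (M : ℕ) (hM : 1 ≤ M)
    (hc : c.Monic) (hcM : c.natDegree = M) : M * D.deg s ≤ D.deg (aeval s c) := by
  by_contra hlt
  rw [not_le] at hlt
  have hs0 : s ≠ 0 := D.ne_zero_of_deg_pos s hs
  have h1 : (c - X ^ M).natDegree ≤ M - 1 := by
    by_cases h0 : c - X ^ M = 0
    · rw [h0, natDegree_zero]
      exact Nat.zero_le _
    · have h2 : (c - X ^ M).degree < c.degree := by
        refine degree_sub_lt_left ?_ hc.ne_zero ?_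
        · rw [degree_X_pow, degree_eq_natDegree hc.ne_zero, hcM]
        · rw [hc.leadingCoeff, (monic_X_pow M).leadingCoeff]
      have h3 := natDegree_lt_natDegree h0 h2
      omega
  have h2 := deg_aeval_le D s _ _ h1
  have h3 : s ^ M = aeval s c - aeval s (c - X ^ M) := by
    rw [map_sub, map_pow, aeval_X]
    ring
  have h4 := D.deg_pow s hs0 M
  rw [h3] at h4
  have h5 := D.deg_sub_le (aeval s c) (aeval s (c - X ^ M))
  rw [h4] at h5
  have h6 : (M - 1) * D.deg s < M * D.deg s := Nat.mul_lt_mul_of_pos_right (by omega) hs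
  have h7 : max (D.deg (aeval s c)) (D.deg (aeval s (c - X ^ M))) < M * D.deg s :=
    max_lt hlt (lt_of_le_of_lt h2 h6)
  omega

end aux

/-- For curves in the class `V(n, M)`, `M / n` large, the leading forms agree. -/
theorem inV_deg {k A : Type} [Field k] [CommRing A] [IsDomain A] [Algebra k A]
    (D : DegFun k A) (E : SectionExp k A) (hs : 1 ≤ D.deg E.s) (C₀ : ℕ)
    (h : ∀ (α β lam : ℕ), 1 ≤ α → C₀ * α ≤ β → ∀ g : A,
      (∀ i : ℤ, E.co g i ≠ 0 → (α : ℤ) * ((E.co g i).natDegree : ℤ) ≤ lam + β * i) →
      α * D.deg g ≤ D.deg E.s * lam) :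
    ∃ C : ℕ, ∀ n M : ℕ, 1 ≤ n → C * n ≤ M → ∀ a a' : A, E.InV n M a → E.InV n M a' →
      D.deg (a - a') < D.deg a := by
  obtain ⟨κ, hκ⟩ := E.growth
  refine ⟨C₀ + κ + 2, ?_⟩
  intro n M hn hCM a a' ha ha'
  obtain ⟨c, hc, hcM, hT1, hT2, hT3⟩ := ha
  obtain ⟨c', hc', hcM', hT1', hT2', hT3'⟩ := ha'
  set u := a - aeval E.s c with hu
  set u' := a' - aeval E.s c' with hu'
  set mm := D.deg E.s with hmm
  have hM0 : C₀ * n ≤ M := le_trans (Nat.mul_le_mul_right _ (by omega)) hCM
  have hMκ : (κ + 2) * n ≤ M := le_trans (Nat.mul_le_mul_right _ (by omega)) hCM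
  have hM01 : (C₀ + 1) * n ≤ M := le_trans (Nat.mul_le_mul_right _ (by omega)) hCM
  have hM2 : 1 ≤ M := le_trans (by nlinarith) hMκ
  have hnM : 1 ≤ n * M := Nat.mul_pos hn hM2
  -- the leading coefficients
  have hco : E.co u (-(n : ℤ)) = 1 :=
    eq_one_of_monic_natDegree_zero (show (E.co u (-(n : ℤ))).Monic from hT1) hT2
  have hco' : E.co u' (-(n : ℤ)) = 1 :=
    eq_one_of_monic_natDegree_zero (show (E.co u' (-(n : ℤ))).Monic from hT1') hT2'
  -- step 1
  have hsub : ∀ i : ℤ, E.co (a - a') i = (if i = 0 then c - c' else 0) +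
      (E.co u i - E.co u' i) := by
    intro i
    have h1 : a - a' = aeval E.s (c - c') + (u - u') := by
      rw [hu, hu', map_sub]
      ring
    rw [h1, E.co_add, E.co_sub, E.co_aeval]
  have key : ∀ i : ℤ, i ≠ -(n : ℤ) → (E.co u i - E.co u' i) ≠ 0 →
      (n : ℤ) * ((E.co u i - E.co u' i).natDegree : ℤ) < M * (n + i) := by
    intro i hi hne
    have h1 : E.co u i ≠ 0 ∨ E.co u' i ≠ 0 := by
      by_contra hcon
      push Not at hcon
      apply hne
      rw [hcon.1, hcon.2, sub_zero]
    have h2 := natDegree_sub_le (E.co u i) (E.co u' i)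
    have hpos : (0 : ℤ) < M * (n + i) := by
      rcases h1 with h1 | h1
      · have := hT3 i hi h1
        have h0 : (0 : ℤ) ≤ (n : ℤ) * ((E.co u i).natDegree : ℤ) := by positivity
        push_cast at this
        linarith
      · have := hT3' i hi h1
        have h0 : (0 : ℤ) ≤ (n : ℤ) * ((E.co u' i).natDegree : ℤ) := by positivity
        push_cast at this
        linarith
    have h3 : (n : ℤ) * ((E.co u i).natDegree : ℤ) < M * (n + i) := by
      by_cases h0 : E.co u i = 0
      · rw [h0, natDegree_zero]
        simpa using hpos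
      · have := hT3 i hi h0
        push_cast at this
        linarith
    have h4 : (n : ℤ) * ((E.co u' i).natDegree : ℤ) < M * (n + i) := by
      by_cases h0 : E.co u' i = 0
      · rw [h0, natDegree_zero]
        simpa using hpos
      · have := hT3' i hi h0
        push_cast at this
        linarith
    rcases le_max_iff.1 h2 with h5 | h5
    · have h6 : (n : ℤ) * ((E.co u i - E.co u' i).natDegree : ℤ) ≤
          (n : ℤ) * ((E.co u i).natDegree : ℤ) := by
        apply mul_le_mul_of_nonneg_left _ (by positivity)
        exact_mod_cast h5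
      linarith
    · have h6 : (n : ℤ) * ((E.co u i - E.co u' i).natDegree : ℤ) ≤
          (n : ℤ) * ((E.co u' i).natDegree : ℤ) := by
        apply mul_le_mul_of_nonneg_left _ (by positivity)
        exact_mod_cast h5
      linarith
  have step1 : n * D.deg (a - a') ≤ mm * (n * M - 1) := by
    apply h n M (n * M - 1) hn hM0
    intro i hne
    rw [Nat.cast_sub hnM]
    push_cast
    rw [hsub i] at hne ⊢
    by_cases hi0 : i = 0
    · subst hi0
      rw [if_pos rfl]
      have h1 : (c - c').natDegree < M := by
        by_cases h0 : c - c' = 0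
        · rw [h0, natDegree_zero]
          omega
        · have h2 : (c - c').degree < c.degree := by
            refine degree_sub_lt_left ?_ hc.ne_zero ?_
            · rw [degree_eq_natDegree hc.ne_zero, degree_eq_natDegree hc'.ne_zero, hcM, hcM']
            · rw [hc.leadingCoeff, hc'.leadingCoeff]
          have h3 := natDegree_lt_natDegree h0 h2
          omega
      have h2 : (E.co u 0 - E.co u' 0).natDegree < M := by
        by_cases h0 : E.co u 0 - E.co u' 0 = 0
        · rw [h0, natDegree_zero]
          omega
        · have h3 := key 0 (by omega) h0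
          rw [add_zero] at h3
          have h4 : (n : ℤ) * ((E.co u 0 - E.co u' 0).natDegree : ℤ) < n * M := by linarith
          have h5 := lt_of_mul_lt_mul_left h4 (by positivity)
          exact_mod_cast h5
      have h3 := natDegree_add_le (c - c') (E.co u 0 - E.co u' 0)
      have h4 : ((c - c') + (E.co u 0 - E.co u' 0)).natDegree ≤ M - 1 := by
        have := max_lt h1 h2
        omega
      have h5 : (((c - c') + (E.co u 0 - E.co u' 0)).natDegree : ℤ) ≤ M - 1 := by
        have h6 : ((M - 1 : ℕ) : ℤ) = (M : ℤ) - 1 := by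
          rw [Nat.cast_sub hM2]
          push_cast
          ring
        rw [← h6]
        exact_mod_cast h4
      have h6 := mul_le_mul_of_nonneg_left h5 (show (0 : ℤ) ≤ (n : ℤ) by positivity)
      have h7 : (1 : ℤ) ≤ n := by exact_mod_cast hn
      have h8 : (n : ℤ) * ((M : ℤ) - 1) = n * M - n := by ring
      rw [h8] at h6
      linarith
    · rw [if_neg hi0, zero_add] at hne ⊢
      by_cases hin : i = -(n : ℤ)
      · exfalso
        apply hne
        rw [hin, hco, hco', sub_self]
      · have h3 := key i hin hne
        have h4 : (M : ℤ) * (n + i) = n * M + M * i := by ring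
        rw [h4] at h3
        linarith
  have step1' : D.deg (a - a') < M * mm := by
    by_contra hge
    rw [not_lt] at hge
    have h1 : n * (M * mm) ≤ n * D.deg (a - a') := Nat.mul_le_mul_left _ hge
    have h2 : mm * (n * M - 1) < mm * (n * M) := Nat.mul_lt_mul_of_pos_left (by omega) hs
    have h3 : mm * (n * M) = n * (M * mm) := by ring
    omega
  -- step 2
  have step2 : D.deg u < M * mm := by
    obtain ⟨e, he⟩ := hκ u
    set K := e + 1 with hK
    have hMK : 1 ≤ M * K := Nat.mul_pos hM2 (by omega)
    have hnMK : 1 ≤ n * M * K := Nat.mul_pos hnM (by omega)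
    have h1 : n * K * D.deg u ≤ mm * (n * M * K - 1) := by
      apply h (n * K) (M * K - 1) (n * M * K - 1) (Nat.mul_pos hn (by omega))
      · have h2 : C₀ * (n * K) + 1 ≤ M * K := by
          calc C₀ * (n * K) + 1 ≤ C₀ * (n * K) + n * K :=
                Nat.add_le_add_left (Nat.mul_pos hn (by omega)) _
            _ = ((C₀ + 1) * n) * K := by ring
            _ ≤ M * K := Nat.mul_le_mul_right _ hM01
        omega
      intro i hne
      rw [Nat.cast_sub hnMK, Nat.cast_sub hMK]
      push_cast
      have hnz : (1 : ℤ) ≤ n := by exact_mod_cast hn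
      have hKz : (1 : ℤ) ≤ K := by
        rw [hK]
        push_cast
        linarith [show (0 : ℤ) ≤ (e : ℤ) by positivity]
      have hMz : (1 : ℤ) ≤ M := by exact_mod_cast hM2
      by_cases hin : i = -(n : ℤ)
      · rw [hin, hco, natDegree_one]
        push_cast
        nlinarith
      · have h3 := hT3 i hin hne
        push_cast at h3
        by_cases hiK : i ≤ (K : ℤ) - 1
        · have h4 : (n : ℤ) * ((E.co u i).natDegree : ℤ) ≤ M * (n + i) - 1 := by linarith
          have h5 := mul_le_mul_of_nonneg_left h4 (show (0 : ℤ) ≤ (K : ℤ) by positivity)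
          nlinarith
        · rw [not_le] at hiK
          have hi1 : (K : ℤ) ≤ i := by linarith
          have hi0 : (0 : ℤ) ≤ i := by linarith
          have h4 := he i
          have h4' : ((E.co u i).natDegree : ℤ) ≤ e + κ * i := by
            have h5 : ((i.toNat : ℕ) : ℤ) = i := Int.toNat_of_nonneg hi0
            calc ((E.co u i).natDegree : ℤ) ≤ ((e + κ * i.toNat : ℕ) : ℤ) := by
                  exact_mod_cast h4
              _ = e + κ * i := by
                  push_cast
                  rw [h5]
          have hMκz : ((κ : ℤ) + 2) * n ≤ M := by exact_mod_cast hMκ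
          have hez : (e : ℤ) ≤ K := by
            rw [hK]
            push_cast
            linarith
          have hez0 : (0 : ℤ) ≤ e := by positivity
          have hκ0 : (0 : ℤ) ≤ κ := by positivity
          -- `n K (e + κ i) ≤ n M K - 1 + (M K - 1) i`
          have h6 : (n : ℤ) * K * ((E.co u i).natDegree : ℤ) ≤ n * K * (e + κ * i) :=
            mul_le_mul_of_nonneg_left h4' (by positivity)
          have h7 : ((κ : ℤ) + 2) * n * K * i ≤ M * K * i := by
            apply mul_le_mul_of_nonneg_right _ hi0
            exact mul_le_mul_of_nonneg_right hMκz (by positivity)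
          have h8 : (n : ℤ) * K * e ≤ n * K * i := by
            apply mul_le_mul_of_nonneg_left _ (by positivity)
            linarith
          have h9 : i ≤ (n : ℤ) * K * i := by
            have : (1 : ℤ) ≤ n * K := by nlinarith
            nlinarith
          have h10 : (1 : ℤ) ≤ n * M * K := by exact_mod_cast hnMK
          nlinarith
    by_contra hge
    rw [not_lt] at hge
    have h2 : n * K * (M * mm) ≤ n * K * D.deg u := Nat.mul_le_mul_left _ hge
    have h3 : mm * (n * M * K - 1) < mm * (n * M * K) :=
      Nat.mul_lt_mul_of_pos_left (by omega) hs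
    have h4 : mm * (n * M * K) = n * K * (M * mm) := by ring
    omega
  -- step 3
  have step3 : M * mm ≤ D.deg a := by
    by_contra hlt
    rw [not_le] at hlt
    have h1 := le_deg_aeval D E.s hs c M hM2 hc hcM
    have h2 : aeval E.s c = a - u := by
      rw [hu]
      ring
    rw [h2, ← hmm] at h1
    have h3 := D.deg_sub_le a u
    have h4 := max_lt hlt step2
    exact absurd (h1.trans h3) (not_le.2 h4)
  omega

end Pool.Agent.K1
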