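import Pool.Agent.K1.L2Defs

/-!
K1, Layer 2: the expansion of `A` in Laurent series (theorem `exists_iota`).
-/

open Polynomial

namespace Pool.Agent.K1

namespace L2Iota

/-! ### Growth of coefficients -/

section growth
variable {k : Type} [Field k]

theorem gr_mul (κ : ℕ) (f g : PowerSeries k[X])
    (hf : ∀ i, (PowerSeries.coeff i f).natDegree ≤ κ * i)
    (hg : ∀ i, (PowerSeries.coeff i g).natDegree ≤ κ * i) (n : ℕ) :
    (PowerSeries.coeff n (f * g)).natDegree ≤ κ * n := by
  rw [PowerSeries.coeff_mul]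
  refine Polynomial.natDegree_sum_le_of_forall_le _ _ ?_
  intro p hp
  have hp' : p.1 + p.2 = n := Finset.HasAntidiagonal.mem_antidiagonal.1 hp
  calc (PowerSeries.coeff p.1 f * PowerSeries.coeff p.2 g).natDegree
      ≤ (PowerSeries.coeff p.1 f).natDegree + (PowerSeries.coeff p.2 g).natDegree :=
        Polynomial.natDegree_mul_le
    _ ≤ κ * p.1 + κ * p.2 := Nat.add_le_add (hf _) (hg _)
    _ = κ * n := by rw [← Nat.mul_add, hp']

theorem gr_one (κ : ℕ) (n : ℕ) :
    (PowerSeries.coeff n (1 : PowerSeries k[X])).natDegree ≤ κ * n := by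
  rw [PowerSeries.coeff_one]
  split_ifs <;> simp

theorem gr_pow (κ : ℕ) (f : PowerSeries k[X])
    (hf : ∀ i, (PowerSeries.coeff i f).natDegree ≤ κ * i) (j : ℕ) :
    ∀ n, (PowerSeries.coeff n (f ^ j)).natDegree ≤ κ * n := by
  induction j with
  | zero => intro n; rw [pow_zero]; exact gr_one κ n
  | succ j ih => intro n; rw [pow_succ]; exact gr_mul κ _ _ ih hf n

theorem gr_inv (κ : ℕ) (v w : PowerSeries k[X]) (hvw : v * w = 1)
    (hv : ∀ i, (PowerSeries.coeff i v).natDegree ≤ κ * i) :
    ∀ n, (PowerSeries.coeff n w).natDegree ≤ κ * n := by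
  have h0 : PowerSeries.coeff 0 v * PowerSeries.coeff 0 w = 1 := by
    have := congrArg (PowerSeries.constantCoeff (R := k[X])) hvw
    simpa using this
  have hu : IsUnit (PowerSeries.coeff 0 v) := IsUnit.of_mul_eq_one _ h0
  have hne : PowerSeries.coeff 0 v ≠ 0 := hu.ne_zero
  have hdeg0 : (PowerSeries.coeff 0 v).natDegree = 0 := Polynomial.natDegree_eq_zero_of_isUnit hu
  intro n
  induction n using Nat.strong_induction_on with
  | _ n ih =>
    rcases Nat.eq_zero_or_pos n with hn | hn
    · subst hn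
      have hu' : IsUnit (PowerSeries.coeff 0 w) := by
        refine IsUnit.of_mul_eq_one (PowerSeries.coeff 0 v) ?_
        rw [mul_comm]; exact h0
      rw [Polynomial.natDegree_eq_zero_of_isUnit hu']
      exact Nat.zero_le _
    · have hc : PowerSeries.coeff n (v * w) = 0 := by
        rw [hvw, PowerSeries.coeff_one, if_neg hn.ne']
      rw [PowerSeries.coeff_mul] at hc
      have hmem : ((0, n) : ℕ × ℕ) ∈ Finset.HasAntidiagonal.antidiagonal n :=
        Finset.HasAntidiagonal.mem_antidiagonal.2 (zero_add n)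
      rw [← Finset.add_sum_erase _ _ hmem] at hc
      have hc' : PowerSeries.coeff 0 v * PowerSeries.coeff n w =
          -∑ p ∈ (Finset.HasAntidiagonal.antidiagonal n).erase (0, n),
            PowerSeries.coeff p.1 v * PowerSeries.coeff p.2 w := by
        exact eq_neg_of_add_eq_zero_left hc
      by_cases hw : PowerSeries.coeff n w = 0
      · rw [hw]; simp
      have hd : (PowerSeries.coeff n w).natDegree =
          (PowerSeries.coeff 0 v * PowerSeries.coeff n w).natDegree := by
        rw [Polynomial.natDegree_mul hne hw, hdeg0, zero_add]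
      rw [hd, hc', Polynomial.natDegree_neg]
      refine Polynomial.natDegree_sum_le_of_forall_le _ _ ?_
      intro p hp
      have hp1 : p ≠ (0, n) := (Finset.mem_erase.1 hp).1
      have hp2 : p.1 + p.2 = n :=
        Finset.HasAntidiagonal.mem_antidiagonal.1 (Finset.mem_erase.1 hp).2
      have hlt : p.2 < n := by
        rcases Nat.eq_zero_or_pos p.1 with h1 | h1
        · exfalso
          apply hp1
          ext
          · exact h1
          · simpa [h1] using hp2
        · omega
      calc (PowerSeries.coeff p.1 v * PowerSeries.coeff p.2 w).natDegree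
          ≤ (PowerSeries.coeff p.1 v).natDegree + (PowerSeries.coeff p.2 w).natDegree :=
            Polynomial.natDegree_mul_le
        _ ≤ κ * p.1 + κ * p.2 := Nat.add_le_add (hv _) (ih _ hlt)
        _ = κ * n := by rw [← Nat.mul_add, hp2]

end growth

/-! ### The degree function -/

section deg
variable {k A : Type} [Field k] [CommRing A] [IsDomain A] [Algebra k A] (D : DegFun k A)

theorem deg_one : D.deg (1 : A) = 0 := by
  have h := D.deg_mul 1 1 one_ne_zero one_ne_zero
  rw [mul_one] at h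
  omega

theorem deg_neg_one : D.deg (-1 : A) = 0 := by
  have h := D.deg_mul (-1) (-1) (neg_ne_zero.2 one_ne_zero) (neg_ne_zero.2 one_ne_zero)
  rw [neg_mul_neg, mul_one, deg_one D] at h
  omega

theorem deg_zero : D.deg (0 : A) = 0 := by
  have h := D.deg_add 1 (-1)
  rw [add_neg_cancel, deg_one D, deg_neg_one D] at h
  simpa using h

theorem deg_mul_le (f g : A) : D.deg (f * g) ≤ D.deg f + D.deg g := by
  by_cases hf : f = 0
  · subst hf; rw [zero_mul, deg_zero D]; exact Nat.zero_le _
  by_cases hg : g = 0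
  · subst hg; rw [mul_zero, deg_zero D]; exact Nat.zero_le _
  rw [D.deg_mul f g hf hg]

theorem deg_algebraMap (a : k) : D.deg (algebraMap k A a) = 0 := by
  by_cases ha : a = 0
  · subst ha; rw [map_zero]; exact deg_zero D
  have h1 : algebraMap k A a ≠ 0 := by
    intro h; exact ha ((FaithfulSMul.algebraMap_eq_zero_iff k A).1 h)
  have h2 : algebraMap k A a⁻¹ ≠ 0 := by
    intro h; exact (inv_ne_zero ha) ((FaithfulSMul.algebraMap_eq_zero_iff k A).1 h)
  have h := D.deg_mul _ _ h1 h2
  rw [← map_mul, mul_inv_cancel₀ ha, map_one, deg_one D] at h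
  omega

theorem deg_pow_le (f : A) (d : ℕ) (hf : D.deg f ≤ d) (n : ℕ) : D.deg (f ^ n) ≤ n * d := by
  induction n with
  | zero => rw [pow_zero, deg_one D]; exact Nat.zero_le _
  | succ n ih =>
    rw [pow_succ, Nat.succ_mul]
    exact (deg_mul_le D _ _).trans (Nat.add_le_add ih hf)

end deg

/-! ### The chart -/

section chart
variable {k A E : Type} [Field k] [CommRing A] [IsDomain A] [Algebra k A]
    [CommRing E] [IsDomain E] [Algebra k E] (D : DegFun k A) (U : A) (θ : ℕ → A → E)
    (h : IsChart D U θ)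

include h in
theorem theta_zero_one : θ 0 1 = 1 := by
  have := h.map_C 1
  rwa [map_one, map_one] at this

include h in
theorem theta_zero (j : ℕ) : θ j 0 = 0 := by
  have := h.map_add j 0 0 (by rw [deg_zero D]; exact Nat.zero_le _)
    (by rw [deg_zero D]; exact Nat.zero_le _)
  rw [add_zero] at this
  exact left_eq_add.1 this

include h in
theorem theta_add (j i : ℕ) (f : A) (hf : D.deg f ≤ j) : θ (j + i) f = θ j f * (θ 1 1) ^ i := by
  induction i with
  | zero => rw [add_zero, pow_zero, mul_one]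
  | succ i ih =>
    have h1 := h.map_mul (j + i) 1 f 1 (by omega) (by rw [deg_one D]; omega)
    rw [mul_one, ih] at h1
    rw [← add_assoc, h1, pow_succ, mul_assoc]

include h in
theorem theta_U (n : ℕ) : θ n (U ^ n) = 1 := by
  induction n with
  | zero => rw [pow_zero]; exact theta_zero_one D U θ h
  | succ n ih =>
    have h1 := h.map_mul n 1 (U ^ n) U
      (by simpa using deg_pow_le D U 1 h.degU.le n) h.degU.le
    rw [pow_succ, h1, ih, h.map_U, one_mul]

end chart

end L2Iota

open L2Iota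

theorem exists_iota {k A E : Type} [Field k] [CommRing A] [IsDomain A] [Algebra k A]
    [CommRing E] [IsDomain E] [Algebra k E] (D : DegFun k A) (U : A) (θ : ℕ → A → E)
    (h : IsChart D U θ) (x₀ : E →ₐ[k] k) (τ : E) (f₁ : A) (M m : ℕ) (hM : 1 ≤ M) (hm : 1 ≤ m)
    (exp : E →+* PowerSeries k[X]) (hf₁ : D.deg f₁ ≤ m)
    (hexp : IsExp x₀ (θ 1 1) τ (θ m f₁) M (2 * m) exp)
    (hgr : ∀ x i, (PowerSeries.coeff i (exp x)).natDegree ≤ i) :
    ∃ ι : A →+* LaurentSeries k[X], Function.Injective ι ∧
      (∀ a : k, ι (algebraMap k A a) = HahnSeries.C (C a)) ∧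
      ι (f₁ ^ 2 + U ^ (2 * m - 1)) = HahnSeries.C X ∧
      (∀ (j : ℕ) (f : A), D.deg f ≤ j →
        ι f * (HahnSeries.ofPowerSeries ℤ k[X] (exp (θ 1 1))) ^ j =
          HahnSeries.ofPowerSeries ℤ k[X] (exp (θ j f))) ∧
      ∃ κ : ℕ, ∀ (j : ℕ) (f : A), D.deg f ≤ j → ∀ i : ℤ,
        ((ι f).coeff i).natDegree ≤ κ * (i + ((2 * M * j : ℕ) : ℤ)).toNat := by
  classical
  obtain ⟨v, hv⟩ := hexp.exp_t
  -- the map to Laurent series
  let P : PowerSeries k[X] →+* LaurentSeries k[X] := HahnSeries.ofPowerSeries ℤ k[X]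
  let T : LaurentSeries k[X] := P (exp (θ 1 1))
  let w : PowerSeries k[X] := ((v⁻¹ : (PowerSeries k[X])ˣ) : PowerSeries k[X])
  let tinv : LaurentSeries k[X] := HahnSeries.single (-((2 * M : ℕ) : ℤ)) 1 * P w
  have hvw : (v : PowerSeries k[X]) * w = 1 := v.mul_inv
  have hTt : T * tinv = 1 := by
    have e1 : T = HahnSeries.single (((2 * M : ℕ) : ℤ)) 1 * P (v : PowerSeries k[X]) := by
      show P (exp (θ 1 1)) = _
      rw [hv, map_mul]
      congr 1
      exact HahnSeries.ofPowerSeries_X_pow (Γ := ℤ) (2 * M)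
    rw [e1]
    calc HahnSeries.single (((2 * M : ℕ) : ℤ)) (1 : k[X]) * P (v : PowerSeries k[X]) *
          (HahnSeries.single (-((2 * M : ℕ) : ℤ)) (1 : k[X]) * P w)
        = (HahnSeries.single (((2 * M : ℕ) : ℤ)) (1 : k[X]) *
            HahnSeries.single (-((2 * M : ℕ) : ℤ)) (1 : k[X])) *
            (P (v : PowerSeries k[X]) * P w) := by ring
      _ = 1 := by
        rw [← map_mul P, hvw, map_one P, mul_one, HahnSeries.single_mul_single, add_neg_cancel,
          mul_one]
        exact HahnSeries.single_zero_one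
  have htT : tinv * T = 1 := by rw [mul_comm]; exact hTt
  have hPinj : Function.Injective P := HahnSeries.ofPowerSeries_injective
  -- the definition
  let F : A → LaurentSeries k[X] := fun f => P (exp (θ (D.deg f) f)) * tinv ^ (D.deg f)
  have hF : ∀ (j : ℕ) (f : A), D.deg f ≤ j → F f = P (exp (θ j f)) * tinv ^ j := by
    intro j f hf
    obtain ⟨i, rfl⟩ := Nat.exists_eq_add_of_le hf
    rw [theta_add D U θ h _ i f le_rfl, map_mul, map_mul, map_pow, map_pow, pow_add]
    show P (exp (θ (D.deg f) f)) * tinv ^ (D.deg f) =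
      P (exp (θ (D.deg f) f)) * T ^ i * (tinv ^ (D.deg f) * tinv ^ i)
    calc P (exp (θ (D.deg f) f)) * tinv ^ (D.deg f)
        = P (exp (θ (D.deg f) f)) * tinv ^ (D.deg f) * (T * tinv) ^ i := by
          rw [hTt, one_pow, mul_one]
      _ = _ := by ring
  have hF1 : F 1 = 1 := by
    rw [hF 0 1 (by rw [deg_one D]), theta_zero_one D U θ h, map_one, map_one, pow_zero, mul_one]
  have hF0 : F 0 = 0 := by
    rw [hF 0 0 (by rw [deg_zero D]), theta_zero D U θ h, map_zero, map_zero, zero_mul]
  have hFadd : ∀ f g, F (f + g) = F f + F g := by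
    intro f g
    have hf : D.deg f ≤ max (D.deg f) (D.deg g) := le_max_left _ _
    have hg : D.deg g ≤ max (D.deg f) (D.deg g) := le_max_right _ _
    rw [hF _ f hf, hF _ g hg, hF _ (f + g) (D.deg_add f g), h.map_add _ f g hf hg, map_add,
      map_add, add_mul]
  have hFmul : ∀ f g, F (f * g) = F f * F g := by
    intro f g
    rw [hF (D.deg f + D.deg g) (f * g) (deg_mul_le D f g), hF _ f le_rfl, hF _ g le_rfl,
      h.map_mul _ _ f g le_rfl le_rfl, map_mul, map_mul, pow_add]
    ring
  let ι : A →+* LaurentSeries k[X] :=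
    { toFun := F
      map_one' := hF1
      map_mul' := hFmul
      map_zero' := hF0
      map_add' := hFadd }
  have hι : ∀ f, ι f = F f := fun _ => rfl
  have hmain : ∀ (j : ℕ) (f : A), D.deg f ≤ j → ι f * T ^ j = P (exp (θ j f)) := by
    intro j f hf
    rw [hι, hF j f hf, mul_assoc, ← mul_pow, htT, one_pow, mul_one]
  refine ⟨ι, ?_, ?_, ?_, hmain, 2 * M + 1, ?_⟩
  · -- injective
    rw [injective_iff_map_eq_zero]
    intro f hf
    have h1 := hmain (D.deg f) f le_rfl
    rw [hf, zero_mul] at h1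
    have h2 : exp (θ (D.deg f) f) = 0 := by
      apply hPinj
      rw [map_zero]
      exact h1.symm
    have h3 : θ (D.deg f) f = 0 := by
      apply hexp.inj
      rw [map_zero]
      exact h2
    exact h.inj _ f le_rfl h3
  · -- constants
    intro a
    rw [hι, hF 0 _ (by rw [deg_algebraMap D a]), h.map_C, hexp.exp_C, pow_zero, mul_one]
    exact HahnSeries.ofPowerSeries_C _
  · -- the section
    have d1 : D.deg (f₁ ^ 2) ≤ 2 * m := deg_pow_le D f₁ m hf₁ 2
    have d2 : D.deg (U ^ (2 * m - 1)) ≤ 2 * m - 1 := by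
      simpa using deg_pow_le D U 1 h.degU.le (2 * m - 1)
    have d2' : D.deg (U ^ (2 * m - 1)) ≤ 2 * m := by omega
    have d3 : D.deg (f₁ ^ 2 + U ^ (2 * m - 1)) ≤ 2 * m :=
      (D.deg_add _ _).trans (max_le d1 d2')
    have e1 : θ (2 * m) (f₁ ^ 2) = (θ m f₁) ^ 2 := by
      rw [two_mul, pow_two, pow_two]
      exact h.map_mul m m f₁ f₁ hf₁ hf₁
    have e2 : θ (2 * m) (U ^ (2 * m - 1)) = θ 1 1 := by
      have e3 := theta_add D U θ h (2 * m - 1) 1 (U ^ (2 * m - 1)) d2
      rw [theta_U D U θ h, one_mul, pow_one] at e3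
      have e4 : 2 * m - 1 + 1 = 2 * m := by omega
      rw [e4] at e3
      exact e3
    have e5 : θ (2 * m) (f₁ ^ 2 + U ^ (2 * m - 1)) = (θ m f₁) ^ 2 + θ 1 1 := by
      rw [h.map_add _ _ _ d1 d2', e1, e2]
    rw [hι, hF _ _ d3, e5, hexp.exp_z, map_mul, map_pow]
    show P (PowerSeries.C X) * T ^ (2 * m) * tinv ^ (2 * m) = _
    rw [mul_assoc, ← mul_pow, hTt, one_pow, mul_one]
    exact HahnSeries.ofPowerSeries_C _
  · -- growth
    intro j f hf i
    -- coefficients of `v`
    have hvg : ∀ n, (PowerSeries.coeff n (v : PowerSeries k[X])).natDegree ≤ (2 * M + 1) * n := by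
      intro n
      rcases Nat.eq_zero_or_pos n with hn | hn
      · subst hn
        have hu : IsUnit (PowerSeries.coeff 0 (v : PowerSeries k[X])) := by
          have := v.isUnit.map (PowerSeries.constantCoeff (R := k[X]))
          simpa using this
        rw [Polynomial.natDegree_eq_zero_of_isUnit hu]
        exact Nat.zero_le _
      · have e1 : PowerSeries.coeff n (v : PowerSeries k[X]) =
            PowerSeries.coeff (n + 2 * M) (exp (θ 1 1)) := by
          rw [hv, PowerSeries.coeff_X_pow_mul]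
        rw [e1]
        refine (hgr _ _).trans ?_
        nlinarith
    have hwg : ∀ n, (PowerSeries.coeff n w).natDegree ≤ (2 * M + 1) * n :=
      gr_inv _ _ _ hvw hvg
    have hθg : ∀ n, (PowerSeries.coeff n (exp (θ j f))).natDegree ≤ (2 * M + 1) * n := by
      intro n
      refine (hgr _ _).trans ?_
      nlinarith
    have hQ : ∀ n, (PowerSeries.coeff n (exp (θ j f) * w ^ j)).natDegree ≤ (2 * M + 1) * n :=
      gr_mul _ _ _ hθg (gr_pow _ _ hwg j)
    have e1 : ι f = HahnSeries.single (-((2 * M * j : ℕ) : ℤ)) 1 * P (exp (θ j f) * w ^ j) := by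
      rw [hι, hF j f hf]
      show P (exp (θ j f)) * (HahnSeries.single (-((2 * M : ℕ) : ℤ)) 1 * P w) ^ j = _
      rw [mul_pow, HahnSeries.single_pow, one_pow, map_mul, map_pow]
      have e2 : (j • (-((2 * M : ℕ) : ℤ)) : ℤ) = -((2 * M * j : ℕ) : ℤ) := by
        rw [nsmul_eq_mul]; push_cast; ring
      rw [e2]
      ring
    have e3 : (ι f).coeff i = (P (exp (θ j f) * w ^ j)).coeff (i + ((2 * M * j : ℕ) : ℤ)) := by
      rw [e1, HahnSeries.coeff_single_mul, one_mul, sub_neg_eq_add]
    rw [e3]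
    rcases lt_or_ge (i + ((2 * M * j : ℕ) : ℤ)) 0 with hneg | hpos
    · have e5 : (P (exp (θ j f) * w ^ j)).coeff (i + ((2 * M * j : ℕ) : ℤ)) = 0 := by
        have := PowerSeries.coeff_coe (R := k[X]) (exp (θ j f) * w ^ j)
          (i + ((2 * M * j : ℕ) : ℤ))
        rw [if_pos hneg] at this
        exact this
      rw [e5, Polynomial.natDegree_zero]
      exact Nat.zero_le _
    · obtain ⟨n, hn⟩ := Int.eq_ofNat_of_zero_le hpos
      rw [hn]
      have e6 : (P (exp (θ j f) * w ^ j)).coeff (n : ℤ) =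
          PowerSeries.coeff n (exp (θ j f) * w ^ j) :=
        HahnSeries.ofPowerSeries_apply_coeff _ n
      rw [e6, Int.toNat_natCast]
      exact hQ n

end Pool.Agent.K1
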