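import Pool.Agent.K1.L2Defs

set_option autoImplicit false
set_option linter.style.longLine false

/-!
L2-20: leading terms along the section.
-/

open Polynomial

namespace Pool.Agent.K1

namespace L2Lead

section deg

variable {k A : Type} [Field k] [CommRing A] [IsDomain A] [Algebra k A] (D : DegFun k A)

theorem deg_one : D.deg 1 = 0 := by
  have h := D.deg_mul 1 1 one_ne_zero one_ne_zero
  rw [mul_one] at h
  omega

theorem deg_neg_one : D.deg (-1) = 0 := by
  have h := D.deg_mul (-1) (-1) (neg_ne_zero.2 one_ne_zero) (neg_ne_zero.2 one_ne_zero)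
  rw [neg_mul_neg, one_mul, deg_one] at h
  omega

theorem deg_zero : D.deg 0 = 0 := by
  have h := D.deg_add 1 (-1)
  rw [add_neg_cancel, deg_one, deg_neg_one, max_self] at h
  omega

theorem deg_neg (f : A) : D.deg (-f) = D.deg f := by
  by_cases hf : f = 0
  · rw [hf, neg_zero]
  · rw [← neg_one_mul, D.deg_mul _ _ (neg_ne_zero.2 one_ne_zero) hf, deg_neg_one, zero_add]

theorem deg_sub (f g : A) : D.deg (f - g) ≤ max (D.deg f) (D.deg g) := by
  have h := D.deg_add f (-g)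
  rw [deg_neg, ← sub_eq_add_neg] at h
  exact h

theorem deg_mul_le (f g : A) : D.deg (f * g) ≤ D.deg f + D.deg g := by
  by_cases hf : f = 0
  · rw [hf, zero_mul, deg_zero]
    exact Nat.zero_le _
  by_cases hg : g = 0
  · rw [hg, mul_zero, deg_zero]
    exact Nat.zero_le _
  exact (D.deg_mul f g hf hg).le

theorem deg_pow (f : A) (n : ℕ) (hf : f ≠ 0) : D.deg (f ^ n) = n * D.deg f := by
  induction n with
  | zero => rw [pow_zero, deg_one, zero_mul]
  | succ n ih => rw [pow_succ, D.deg_mul _ _ (pow_ne_zero _ hf) hf, ih]; ring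

theorem deg_const (c : k) : D.deg (algebraMap k A c) = 0 := by
  by_cases hc : c = 0
  · rw [hc, map_zero, deg_zero]
  · have hinj : Function.Injective (algebraMap k A) := (algebraMap k A).injective
    have h1 : algebraMap k A c ≠ 0 := fun h => hc (hinj (by rw [h, map_zero]))
    have h2 : algebraMap k A c⁻¹ ≠ 0 :=
      fun h => (inv_ne_zero hc) (hinj (by rw [h, map_zero]))
    have h := D.deg_mul _ _ h1 h2
    rw [← map_mul, mul_inv_cancel₀ hc, map_one, deg_one] at h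
    omega

end deg

section chart

variable {k A E : Type} [Field k] [CommRing A] [IsDomain A] [Algebra k A]
    [CommRing E] [IsDomain E] [Algebra k E] {D : DegFun k A} {U : A} {θ : ℕ → A → E}

omit [IsDomain E] in
theorem theta_sub (h : IsChart D U θ) {j : ℕ} {f g : A} (hf : D.deg f ≤ j) (hg : D.deg g ≤ j) :
    θ j (f - g) = θ j f - θ j g := by
  have h1 := h.map_add j (f - g) g ((deg_sub D f g).trans (max_le hf hg)) hg
  rw [sub_add_cancel] at h1
  rw [h1, add_sub_cancel_right]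

omit [IsDomain E] in
/-- `θ (j + 1) f = θ j f * t` -/
theorem theta_succ (h : IsChart D U θ) {j : ℕ} {f : A} (hf : D.deg f ≤ j) :
    θ (j + 1) f = θ j f * θ 1 1 := by
  have h1 := h.map_mul j 1 f 1 hf (by rw [deg_one]; exact Nat.zero_le _)
  rwa [mul_one] at h1

end chart

theorem exists_mem_pow {k C : Type} [Field k] [CommRing C] [Algebra k C] (W : Submodule k C)
    (h1 : (1 : C) ∈ W) (hgen : Algebra.adjoin k (W : Set C) = ⊤) (c : C) :
    ∃ n, ∀ j, n ≤ j → c ∈ W ^ j := by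
  have hmono : ∀ i j, i ≤ j → W ^ i ≤ W ^ j := by
    intro i j hij
    obtain ⟨d, rfl⟩ : ∃ d, j = i + d := ⟨j - i, by omega⟩
    rw [pow_add]
    intro a ha
    rw [← mul_one a]
    refine Submodule.mul_mem_mul ha ?_
    have h2 := Submodule.pow_mem_pow W h1 d
    rwa [one_pow] at h2
  suffices h : ∃ n, c ∈ W ^ n by
    obtain ⟨n, hn⟩ := h
    exact ⟨n, fun j hj => hmono n j hj hn⟩
  have hc : c ∈ Algebra.adjoin k (W : Set C) := hgen ▸ Algebra.mem_top
  induction hc using Algebra.adjoin_induction with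
  | mem a ha => exact ⟨1, by rwa [pow_one]⟩
  | algebraMap r =>
    refine ⟨1, ?_⟩
    rw [pow_one, Algebra.algebraMap_eq_smul_one]
    exact W.smul_mem _ h1
  | add a b _ _ iha ihb =>
    obtain ⟨n, hn⟩ := iha
    obtain ⟨n', hn'⟩ := ihb
    exact ⟨max n n', (W ^ _).add_mem (hmono _ _ (le_max_left _ _) hn)
      (hmono _ _ (le_max_right _ _) hn')⟩
  | mul a b _ _ iha ihb =>
    obtain ⟨n, hn⟩ := iha
    obtain ⟨n', hn'⟩ := ihb
    exact ⟨n + n', by rw [pow_add]; exact Submodule.mul_mem_mul hn hn'⟩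

section series

/-- coefficients of `F` when `F * (X ^ (2 M) v) ^ j` is a power series -/
theorem coeff_shift {k : Type} [Field k] (F : LaurentSeries k[X]) (G T : PowerSeries k[X])
    (v : (PowerSeries k[X])ˣ) (N j : ℕ) (hT : T = PowerSeries.X ^ N * (v : PowerSeries k[X]))
    (hF : F * (HahnSeries.ofPowerSeries ℤ k[X] T) ^ j = HahnSeries.ofPowerSeries ℤ k[X] G) :
    (∀ i : ℤ, i < -((N * j : ℕ) : ℤ) → F.coeff i = 0) ∧
    ∀ n : ℕ, F.coeff ((n : ℤ) - ((N * j : ℕ) : ℤ)) =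
      PowerSeries.coeff n (((v⁻¹ : (PowerSeries k[X])ˣ) : PowerSeries k[X]) ^ j * G) := by
  have h1 : F * HahnSeries.single ((N * j : ℕ) : ℤ) (1 : k[X]) =
      HahnSeries.ofPowerSeries ℤ k[X] (((v⁻¹ : (PowerSeries k[X])ˣ) : PowerSeries k[X]) ^ j * G) := by
    rw [map_mul, ← hF, hT, map_mul, mul_pow, map_pow, map_pow, ← HahnSeries.ofPowerSeries_X_pow,
      pow_mul, map_pow, map_pow]
    have h2 : (HahnSeries.ofPowerSeries ℤ k[X] ((v⁻¹ : (PowerSeries k[X])ˣ) : PowerSeries k[X])) ^ j *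
        (HahnSeries.ofPowerSeries ℤ k[X] (v : PowerSeries k[X])) ^ j = 1 := by
      rw [← mul_pow, ← map_mul, Units.inv_mul, map_one, one_pow]
    linear_combination (-F * ((HahnSeries.ofPowerSeries ℤ k[X] PowerSeries.X) ^ N) ^ j) * h2
  have h2 : ∀ i : ℤ, F.coeff i = (HahnSeries.ofPowerSeries ℤ k[X]
      (((v⁻¹ : (PowerSeries k[X])ˣ) : PowerSeries k[X]) ^ j * G)).coeff (i + ((N * j : ℕ) : ℤ)) := by
    intro i
    rw [← h1, HahnSeries.coeff_mul_single_add, mul_one]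
  constructor
  · intro i hi
    rw [h2]
    exact (PowerSeries.coeff_coe _ _).trans (if_pos (by omega))
  · intro n
    rw [h2, sub_add_cancel, HahnSeries.ofPowerSeries_apply_coeff]

/-- lowest coefficient of a product with a unit -/
theorem coeff_mul_low {R : Type*} [CommRing R] (a G : PowerSeries R) (n : ℕ)
    (hG : ∀ i < n, PowerSeries.coeff i G = 0) :
    (∀ i < n, PowerSeries.coeff i (a * G) = 0) ∧
    PowerSeries.coeff n (a * G) = PowerSeries.constantCoeff a * PowerSeries.coeff n G := by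
  obtain ⟨G', rfl⟩ := PowerSeries.X_pow_dvd_iff.2 hG
  constructor
  · intro i hi
    rw [← mul_assoc, mul_comm a, mul_assoc, PowerSeries.coeff_X_pow_mul', if_neg (by omega)]
  · rw [← mul_assoc, mul_comm a, mul_assoc, PowerSeries.coeff_X_pow_mul', if_pos le_rfl,
      Nat.sub_self, PowerSeries.coeff_X_pow_mul', if_pos le_rfl, Nat.sub_self,
      PowerSeries.coeff_zero_eq_constantCoeff, map_mul]

end series

end L2Lead

open L2Lead

theorem exists_lead {k A E : Type} [Field k] [CommRing A] [IsDomain A] [Algebra k A]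
    [CommRing E] [IsDomain E] [Algebra k E] (D : DegFun k A) (U : A) (θ : ℕ → A → E)
    (h : IsChart D U θ) (W : Submodule k (E ⧸ Ideal.span {θ 1 1})) (hW1 : 1 ∈ W)
    (hWgen : Algebra.adjoin k (W : Set (E ⧸ Ideal.span {θ 1 1})) = ⊤)
    (hW : ∀ (j : ℕ) (c : E ⧸ Ideal.span {θ 1 1}), c ∈ W ^ j ↔
        ∃ f : A, D.deg f ≤ j ∧ Ideal.Quotient.mk _ (θ j f) = c)
    (x₁ : (E ⧸ Ideal.span {θ 1 1}) →ₐ[k] k) (τ₁ e₁ : E ⧸ Ideal.span {θ 1 1})
    (hx : LocalPt x₁ τ₁ e₁) (τ : E) (hτ : Ideal.Quotient.mk _ τ = τ₁) (m M j₁ : ℕ)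
    (hm : 1 ≤ m) (hM : 1 ≤ M) (hj : 2 * m ≤ j₁) (f₁ : A) (hf₁ : D.deg f₁ ≤ m)
    (hb : Ideal.span {(Ideal.Quotient.mk (Ideal.span {θ 1 1}) (θ m f₁))} =
      (RingHom.ker x₁) ^ M)
    (hF : ∀ j, j₁ ≤ j → ∀ c ∈ W ^ j, c ∈ (RingHom.ker x₁) ^ (2 * M) →
        ∃ c' ∈ W ^ (j - 2 * m), c = (Ideal.Quotient.mk _ (θ m f₁)) ^ 2 * c')
    (exp : E →+* PowerSeries k[X])
    (hexp : IsExp (x₁.comp (Ideal.Quotient.mkₐ k (Ideal.span {θ 1 1}))) (θ 1 1) τ (θ m f₁)
      M (2 * m) exp)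
    (ι : A →+* LaurentSeries k[X])
    (hιC : ∀ a : k, ι (algebraMap k A a) = HahnSeries.C (C a))
    (hιs : ι (f₁ ^ 2 + U ^ (2 * m - 1)) = HahnSeries.C X)
    (hι : ∀ (j : ℕ) (f : A), D.deg f ≤ j →
        ι f * (HahnSeries.ofPowerSeries ℤ k[X] (exp (θ 1 1))) ^ j =
          HahnSeries.ofPowerSeries ℤ k[X] (exp (θ j f)))
    (κ : ℕ) (hκ : ∀ (j : ℕ) (f : A), D.deg f ≤ j → ∀ i : ℤ,
        ((ι f).coeff i).natDegree ≤ κ * (i + ((2 * M * j : ℕ) : ℤ)).toNat) :
    ∃ j₂, Lead D (f₁ ^ 2 + U ^ (2 * m - 1)) ι (2 * m) (2 * M) j₂ κ := by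
  classical
  let mk : E →+* E ⧸ Ideal.span {θ 1 1} := Ideal.Quotient.mk (Ideal.span {θ 1 1})
  have hmk : ∀ a, mk a = 0 ↔ a ∈ Ideal.span {θ 1 1} := fun a => Ideal.Quotient.eq_zero_iff_mem
  have hmkt : mk (θ 1 1) = 0 := (hmk (θ 1 1)).2 (Ideal.mem_span_singleton_self _)
  have hsurj : Function.Surjective mk := Ideal.Quotient.mk_surjective
  let x₀ : E →ₐ[k] k := x₁.comp (Ideal.Quotient.mkₐ k (Ideal.span {θ 1 1}))
  have hx₀ : ∀ y, x₀ y = x₁ (mk y) := fun _ => rfl
  obtain ⟨v, hv⟩ := hexp.exp_t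
  -- degrees
  have hU0 : U ≠ 0 := by
    rintro rfl
    have := h.degU
    rw [deg_zero] at this
    omega
  have hb0 : mk (θ m f₁) ≠ 0 := by
    intro h0
    have h1 : τ₁ ^ M ∈ (RingHom.ker x₁) ^ M := Ideal.pow_mem_pow hx.hτ M
    rw [← hb] at h1
    obtain ⟨z, hz⟩ := Ideal.mem_span_singleton.1 h1
    have h2 : τ₁ ^ M = 0 := by
      rw [hz]
      change mk (θ m f₁) * z = 0
      rw [h0, zero_mul]
    exact hx.pow_notMem M (h2 ▸ Ideal.zero_mem _)
  have hdf₁ : D.deg f₁ = m := by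
    by_contra hne
    have h1 : D.deg f₁ ≤ m - 1 := by omega
    have h2 := theta_succ h h1
    rw [Nat.sub_add_cancel hm] at h2
    apply hb0
    rw [h2, map_mul]
    rw [hmkt, mul_zero]
  have hf₁0 : f₁ ≠ 0 := by
    rintro rfl
    rw [deg_zero] at hdf₁
    omega
  have hdU : D.deg (U ^ (2 * m - 1)) = 2 * m - 1 := by rw [deg_pow D U _ hU0, h.degU, mul_one]
  have hdf2 : D.deg (f₁ ^ 2) = 2 * m := by rw [deg_pow D f₁ 2 hf₁0, hdf₁]
  have hds : D.deg (f₁ ^ 2 + U ^ (2 * m - 1)) = 2 * m := by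
    apply le_antisymm
    · refine (D.deg_add _ _).trans (max_le hdf2.le ?_)
      rw [hdU]
      omega
    · have h1 := deg_sub D (f₁ ^ 2 + U ^ (2 * m - 1)) (U ^ (2 * m - 1))
      rw [add_sub_cancel_right, hdf2, hdU, le_max_iff] at h1
      omega
  -- the class of `s`
  have hs : mk (θ (2 * m) (f₁ ^ 2 + U ^ (2 * m - 1))) = (mk (θ m f₁)) ^ 2 := by
    have h1 := h.map_add (2 * m) (f₁ ^ 2) (U ^ (2 * m - 1)) hdf2.le (by rw [hdU]; omega)
    have h2 : θ (2 * m) (f₁ ^ 2) = θ m f₁ * θ m f₁ := by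
      rw [two_mul, pow_two]
      exact h.map_mul m m f₁ f₁ hf₁ hf₁
    have h3 := theta_succ h hdU.le
    rw [Nat.sub_add_cancel (by omega : 1 ≤ 2 * m)] at h3
    rw [h1, h2, h3, map_add, map_mul, map_mul]
    change mk (θ m f₁) * mk (θ m f₁) + mk _ * mk (θ 1 1) = _
    rw [hmkt, mul_zero, add_zero, pow_two]
  -- ideals
  have hker : RingHom.ker x₁ = (RingHom.ker x₀).map mk := by
    apply le_antisymm
    · intro c hc
      obtain ⟨y, rfl⟩ := hsurj c
      exact Ideal.mem_map_of_mem _ hc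
    · rw [Ideal.map_le_iff_le_comap]
      intro y hy
      exact hy
  have hexpker : ∀ (n : ℕ) (y : E), y ∈ (RingHom.ker x₀) ^ n → PowerSeries.X ^ n ∣ exp y := by
    intro n
    induction n with
    | zero => intro y _; rw [pow_zero]; exact one_dvd _
    | succ n ih =>
      intro y hy
      rw [pow_succ] at hy
      refine Submodule.mul_induction_on hy ?_ ?_
      · intro a ha b hb
        rw [map_mul, pow_succ]
        refine mul_dvd_mul (ih a ha) ?_
        rw [PowerSeries.X_dvd_iff, hexp.const]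
        have hb0 : x₀ b = 0 := hb
        change C (x₀ b) = 0
        rw [hb0, map_zero]
      · intro a b ha hb
        rw [map_add]
        exact dvd_add ha hb
  -- the unit
  have hunit : ∀ j : ℕ, ∃ b : k, b ≠ 0 ∧ PowerSeries.constantCoeff
      (((v⁻¹ : (PowerSeries k[X])ˣ) : PowerSeries k[X]) ^ j) = C b := by
    intro j
    have h1 : IsUnit (PowerSeries.constantCoeff
        (((v⁻¹ : (PowerSeries k[X])ˣ) : PowerSeries k[X]) ^ j)) :=
      ((v⁻¹).isUnit.pow j).map PowerSeries.constantCoeff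
    obtain ⟨b, hb, hbC⟩ := Polynomial.isUnit_iff.1 h1
    exact ⟨b, hb.ne_zero, hbC.symm⟩
  -- the coefficients
  have hcoef : ∀ (j : ℕ) (f : A), D.deg f ≤ j → ∀ (n : ℕ) (a : k) (w y : E), n < 2 * M →
      w ∈ (RingHom.ker x₀) ^ (n + 1) → θ j f = a • τ ^ n + w + θ 1 1 * y →
      ∃ b : k, b ≠ 0 ∧ (ι f).coeff ((n : ℤ) - ((2 * M * j : ℕ) : ℤ)) = C (b * a) ∧
        ∀ i : ℤ, i < (n : ℤ) - ((2 * M * j : ℕ) : ℤ) → (ι f).coeff i = 0 := by
    intro j f hf n a w y hn hw hθ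
    obtain ⟨hlow, hco⟩ := coeff_shift (ι f) (exp (θ j f)) (exp (θ 1 1)) v (2 * M) j hv (hι j f hf)
    obtain ⟨b, hb, hbC⟩ := hunit j
    have hE : ∃ G' : PowerSeries k[X], exp (θ j f) =
        PowerSeries.C (C a) * PowerSeries.X ^ n + PowerSeries.X ^ (n + 1) * G' := by
      obtain ⟨w', hw'⟩ := hexpker (n + 1) w hw
      refine ⟨w' + PowerSeries.X ^ (2 * M - (n + 1)) * (v : PowerSeries k[X]) * exp y, ?_⟩
      have h2 : (PowerSeries.X : PowerSeries k[X]) ^ (2 * M) =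
          PowerSeries.X ^ (n + 1) * PowerSeries.X ^ (2 * M - (n + 1)) := by
        rw [← pow_add]
        congr 1
        omega
      rw [hθ, map_add, map_add, map_mul, Algebra.smul_def, map_mul, map_pow, hexp.exp_C,
        hexp.exp_τ, hw', hv, h2]
      ring
    obtain ⟨G', hG'⟩ := hE
    have hlowG : ∀ i < n, PowerSeries.coeff i (exp (θ j f)) = 0 := by
      intro i hi
      rw [hG', map_add, PowerSeries.coeff_C_mul, PowerSeries.coeff_X_pow, if_neg (by omega),
        mul_zero, PowerSeries.coeff_X_pow_mul', if_neg (by omega), add_zero]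
    have hnG : PowerSeries.coeff n (exp (θ j f)) = C a := by
      rw [hG', map_add, PowerSeries.coeff_C_mul, PowerSeries.coeff_X_pow, if_pos rfl,
        mul_one, PowerSeries.coeff_X_pow_mul', if_neg (by omega), add_zero]
    obtain ⟨h3, h4⟩ := coeff_mul_low
      (((v⁻¹ : (PowerSeries k[X])ˣ) : PowerSeries k[X]) ^ j) (exp (θ j f)) n hlowG
    refine ⟨b, hb, ?_, ?_⟩
    · rw [hco, h4, hbC, hnG, C_mul]
    · intro i hi
      by_cases hi' : i < -((2 * M * j : ℕ) : ℤ)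
      · exact hlow i hi'
      · obtain ⟨i', hi''⟩ : ∃ i' : ℕ, i = (i' : ℤ) - ((2 * M * j : ℕ) : ℤ) :=
          ⟨(i + ((2 * M * j : ℕ) : ℤ)).toNat, by omega⟩
        rw [hi'', hco, h3 i' (by omega)]
  -- sections through the powers of `τ₁`
  choose N hN using fun o : ℕ => exists_mem_pow W hW1 hWgen (τ₁ ^ o)
  let j₂ : ℕ := max j₁ ((Finset.range (2 * M)).sup N)
  refine ⟨j₂, ?_⟩
  refine ⟨by omega, by omega, le_trans hj (le_max_left _ _), hds, hιC, hιs, ?_, hκ, ?_, ?_⟩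
  · intro j f hf
    exact (coeff_shift (ι f) (exp (θ j f)) (exp (θ 1 1)) v (2 * M) j hv (hι j f hf)).1
  · intro j f hf hj₂
    have hjj : j₁ ≤ j := (le_max_left _ _).trans hj₂
    have hc : mk (θ j f) ∈ W ^ j := (hW j _).2 ⟨f, hf, rfl⟩
    by_cases hmem : mk (θ j f) ∈ (RingHom.ker x₁) ^ (2 * M)
    · right
      obtain ⟨c', hc', hcc'⟩ := hF j hjj _ hc hmem
      obtain ⟨g, hg, rfl⟩ := (hW _ _).1 hc'
      refine ⟨g, hg, ?_⟩
      have hsg : D.deg ((f₁ ^ 2 + U ^ (2 * m - 1)) * g) ≤ j := by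
        refine (deg_mul_le D _ _).trans ?_
        rw [hds]
        omega
      have h1 : θ j ((f₁ ^ 2 + U ^ (2 * m - 1)) * g) =
          θ (2 * m) (f₁ ^ 2 + U ^ (2 * m - 1)) * θ (j - 2 * m) g := by
        have h2 := h.map_mul (2 * m) (j - 2 * m) _ g hds.le hg
        rwa [show 2 * m + (j - 2 * m) = j by omega] at h2
      have h2 : mk (θ j (f - (f₁ ^ 2 + U ^ (2 * m - 1)) * g)) = 0 := by
        rw [theta_sub h hf hsg, map_sub, h1, map_mul, hs, sub_eq_zero]
        exact hcc'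
      have h3 := h.dvd j (f - (f₁ ^ 2 + U ^ (2 * m - 1)) * g)
        ((deg_sub D _ _).trans (max_le hf hsg)) (Ideal.mem_span_singleton.1 ((hmk _).1 h2))
      rcases h3 with h3 | h3
      · rw [h3, deg_zero]
        omega
      · exact h3
    · left
      have hc0 : mk (θ j f) ≠ 0 := fun h0 => hmem (h0 ▸ Ideal.zero_mem _)
      obtain ⟨n, hn, hn'⟩ := hx.ord _ hc0
      have hnM : n < 2 * M := by
        by_contra hcon
        exact hmem (Ideal.pow_le_pow_right (not_lt.1 hcon) hn)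
      obtain ⟨a, ha⟩ := hx.digit n _ hn
      have ha0 : a ≠ 0 := by
        rintro rfl
        rw [zero_smul, sub_zero] at ha
        exact hn' ha
      rw [hker, ← Ideal.map_pow, Ideal.mem_map_iff_of_surjective _ hsurj] at ha
      obtain ⟨w, hw, hw'⟩ := ha
      have h1 : θ j f - a • τ ^ n - w ∈ Ideal.span {θ 1 1} := by
        rw [← hmk, map_sub, hw', map_sub, ← hτ]
        have h2 : mk (a • τ ^ n) = a • (Ideal.Quotient.mk (Ideal.span {θ 1 1}) τ) ^ n := by
          rw [Algebra.smul_def, Algebra.smul_def, map_mul, map_pow]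
          rfl
        rw [h2, sub_self]
      obtain ⟨y, hy⟩ := Ideal.mem_span_singleton.1 h1
      obtain ⟨b, hb, hcoe, hlow⟩ := hcoef j f hf n a w y hnM hw (by linear_combination hy)
      exact ⟨n, hnM, b * a, mul_ne_zero hb ha0, hcoe, hlow⟩
  · intro j o hj₂ ho
    have hNj : N o ≤ j := by
      refine le_trans (le_trans ?_ (le_max_right j₁ _)) hj₂
      exact Finset.le_sup (f := N) (Finset.mem_range.2 ho)
    obtain ⟨f, hf, hfc⟩ := (hW j _).1 (hN o j hNj)
    have h1 : θ j f - τ ^ o ∈ Ideal.span {θ 1 1} := by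
      rw [← hmk, map_sub, map_pow, sub_eq_zero]
      have h2 : mk τ = τ₁ := hτ
      rw [h2]
      exact hfc
    obtain ⟨y, hy⟩ := Ideal.mem_span_singleton.1 h1
    obtain ⟨b, hb, hcoe, hlow⟩ := hcoef j f hf o 1 0 y ho (Ideal.zero_mem _)
      (by rw [one_smul]; linear_combination hy)
    rw [mul_one] at hcoe
    have hcm : ∀ i : ℤ, (ι (algebraMap k A b⁻¹ * f)).coeff i = C b⁻¹ * (ι f).coeff i := by
      intro i
      rw [map_mul, hιC, HahnSeries.C_mul_eq_smul, HahnSeries.coeff_smul, smul_eq_mul]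
    refine ⟨algebraMap k A b⁻¹ * f, ?_, ?_, ?_⟩
    · refine (deg_mul_le D _ _).trans ?_
      rw [deg_const, zero_add]
      exact hf
    · rw [hcm, hcoe, ← C_mul, inv_mul_cancel₀ hb, C_1]
    · intro i hi
      rw [hcm, hlow i hi, mul_zero]

end Pool.Agent.K1
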