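import Pool.Agent.K1.L2Defs

/-!
Layer 2: elements without pole come from the base, and elements with prescribed pole exist.
-/

open Polynomial

namespace Pool.Agent.K1

section lead
variable {k A : Type} [Field k] [CommRing A] [IsDomain A] [Algebra k A] (D : DegFun k A)
  (s : A) (ι : A →+* LaurentSeries k[X]) (m M j₁ κ : ℕ) (L : Lead D s ι m M j₁ κ)

/-! ### Elements of given pole -/

include L in
theorem l2a_exists_pole (w : ℕ) (hw : M * j₁ < w) : ∃ u : A, D.deg u ≤ (w + M - 1) / M ∧
    (ι u).coeff (-(w : ℤ)) = 1 ∧ ∀ i < -(w : ℤ), (ι u).coeff i = 0 := by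
  have hM := L.M_pos
  set n : ℕ := (w + M - 1) / M with hn
  have h1 : M * n ≤ w + M - 1 := Nat.mul_div_le _ _
  have h2 : w + M - 1 < M * (n + 1) := Nat.lt_mul_div_succ _ (by omega)
  have h3 : M * (n + 1) = M * n + M := by ring
  have hj : j₁ ≤ n := by
    by_contra hcon
    push Not at hcon
    have : M * (n + 1) ≤ M * j₁ := Nat.mul_le_mul_left _ hcon
    omega
  obtain ⟨f, hf1, hf2, hf3⟩ := L.ex n (M * n - w) hj (by omega)
  have he : (((M * n - w : ℕ) : ℤ)) - ((M * n : ℕ) : ℤ) = -(w : ℤ) := by
    have : w ≤ M * n := by omega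
    push_cast [Nat.cast_sub this]
    ring
  rw [he] at hf2 hf3
  exact ⟨f, hf1, hf2, hf3⟩

include L in
theorem lead_mono : ∃ j₀ : ℕ, ∀ j : ℕ, j₀ ≤ j → ∃ u : A, (ι u).coeff (-(j : ℤ)) = 1 ∧
    ∀ i < -(j : ℤ), (ι u).coeff i = 0 := by
  refine ⟨M * j₁ + 1, fun j hj => ?_⟩
  obtain ⟨u, -, h1, h2⟩ := l2a_exists_pole D s ι m M j₁ κ L j (by omega)
  exact ⟨u, h1, h2⟩

/-! ### Coefficients of multiples by polynomials in `s` -/

include L in
theorem l2a_aeval (P : k[X]) : ι (aeval s P) = HahnSeries.C P := by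
  induction P using Polynomial.induction_on' with
  | add p q hp hq => rw [map_add, map_add, map_add, hp, hq]
  | monomial n a =>
    rw [← C_mul_X_pow_eq_monomial, map_mul, map_mul, map_mul, map_pow, map_pow, map_pow, aeval_X,
      L.ι_s, aeval_C, L.ι_C]

include L in
theorem l2a_coeff (P : k[X]) (x : A) (i : ℤ) :
    (ι (aeval s P * x)).coeff i = P * (ι x).coeff i := by
  rw [map_mul, l2a_aeval D s ι m M j₁ κ L, HahnSeries.C_mul_eq_smul, HahnSeries.coeff_smul,
    smul_eq_mul]

/-! ### The degree function -/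

theorem l2a_deg_one : D.deg (1 : A) = 0 := by
  have := D.deg_mul 1 1 one_ne_zero one_ne_zero
  rw [mul_one] at this
  omega

theorem l2a_deg_neg_one : D.deg (-1 : A) = 0 := by
  have := D.deg_mul (-1) (-1) (neg_ne_zero.mpr one_ne_zero) (neg_ne_zero.mpr one_ne_zero)
  rw [neg_mul_neg, mul_one, l2a_deg_one D] at this
  omega

theorem l2a_deg_zero : D.deg (0 : A) = 0 := by
  have := D.deg_add 1 (-1)
  rw [add_neg_cancel, l2a_deg_one D, l2a_deg_neg_one D] at this
  simpa using this

theorem l2a_deg_C (c : k) : D.deg (algebraMap k A c) = 0 := by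
  by_cases hc : c = 0
  · subst hc
    rw [map_zero]
    exact l2a_deg_zero D
  · have h := D.deg_mul (algebraMap k A c) (algebraMap k A c⁻¹)
      ((_root_.map_ne_zero _).mpr hc) ((_root_.map_ne_zero _).mpr (inv_ne_zero hc))
    rw [← map_mul, mul_inv_cancel₀ hc, map_one, l2a_deg_one D] at h
    omega

theorem l2a_deg_C_mul (c : k) (f : A) : D.deg (algebraMap k A c * f) ≤ D.deg f := by
  by_cases hc : algebraMap k A c = 0
  · rw [hc, zero_mul, l2a_deg_zero D]
    exact Nat.zero_le _
  · by_cases hf : f = 0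
    · rw [hf, mul_zero]
    · rw [D.deg_mul _ _ hc hf, l2a_deg_C D, zero_add]

theorem l2a_deg_sub (f g : A) : D.deg (f - g) ≤ max (D.deg f) (D.deg g) := by
  have h := l2a_deg_C_mul D (-1) g
  rw [map_neg, map_one, neg_one_mul] at h
  rw [sub_eq_add_neg]
  exact (D.deg_add f (-g)).trans (max_le_max le_rfl h)

theorem l2a_mem_fil (j : ℕ) (f : A) (h : D.deg f ≤ j) : f ∈ D.fil j := by
  have h1 : (1 : Submodule k A) ≤ Submodule.span k (insert (1 : A) (D.S : Set A)) := by
    rw [Submodule.one_le]
    exact Submodule.subset_span (Set.mem_insert _ _)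
  exact pow_le_pow_right' h1 h (D.gen f)

/-! ### Every element is a combination -/

include L in
theorem l2a_span [Algebra k[X] A] (halg : ∀ P : k[X], algebraMap k[X] A P = aeval s P)
    (e : ℕ → A) (he : ∀ t, D.deg (e t) ≤ (M * j₁ + 1 + t + M - 1) / M ∧
      (ι (e t)).coeff (-((M * j₁ + 1 + t : ℕ) : ℤ)) = 1 ∧
      ∀ i < -((M * j₁ + 1 + t : ℕ) : ℤ), (ι (e t)).coeff i = 0) (n : ℕ) :
    ∀ f : A, D.deg f ≤ n →
      f ∈ Submodule.span k[X] {x : A | D.deg x ≤ j₁} ⊔ Submodule.span k[X] (Set.range e) := by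
  have hm := L.m_pos
  have hM := L.M_pos
  have hle := L.le
  induction n using Nat.strong_induction_on with
  | _ n IH =>
    set V := Submodule.span k[X] {x : A | D.deg x ≤ j₁} ⊔ Submodule.span k[X] (Set.range e)
      with hV
    intro f hf
    rcases le_or_gt n j₁ with hn | hn
    · exact Submodule.mem_sup_left (Submodule.subset_span (show D.deg f ≤ j₁ from hf.trans hn))
    have case2 : ∀ f h : A, D.deg h ≤ n - m → D.deg (f - s * h) < n → f ∈ V := by
      intro f h hh1 hh2
      have e1 : f = (f - s * h) + s * h := by ring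
      have e2 : s * h = (X : k[X]) • h := by rw [Algebra.smul_def, halg, aeval_X]
      rw [e1]
      refine V.add_mem (IH (n - 1) (by omega) _ (by omega)) ?_
      rw [e2]
      exact V.smul_mem _ (IH (n - m) (by omega) _ hh1)
    have key : ∀ d : ℕ, ∀ f : A, D.deg f ≤ n →
        (∀ i : ℤ, i < (M : ℤ) - d - ((M * n : ℕ) : ℤ) → (ι f).coeff i = 0) → f ∈ V := by
      intro d
      induction d with
      | zero =>
        intro f hf h0
        rcases L.dich n f hf (by omega) with ⟨o, ho, c, hc, h1, -⟩ | ⟨h, hh1, hh2⟩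
        · exfalso
          rw [h0 _ (by push_cast; omega)] at h1
          exact hc (C_eq_zero.mp h1.symm)
        · exact case2 f h hh1 hh2
      | succ d ihd =>
        intro f hf h0
        rcases L.dich n f hf (by omega) with ⟨o, ho, c, hc, h1, h2⟩ | ⟨h, hh1, hh2⟩
        · have hod : (M : ℤ) - (d + 1) ≤ o := by
            by_contra hcon
            push Not at hcon
            rw [h0 _ (by push_cast; omega)] at h1
            exact hc (C_eq_zero.mp h1.symm)
          have hMn : M * j₁ + M ≤ M * n := by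
            calc M * j₁ + M = M * (j₁ + 1) := by ring
              _ ≤ M * n := Nat.mul_le_mul_left _ hn
          obtain ⟨t, ht⟩ : ∃ t, M * n - o = M * j₁ + 1 + t :=
            ⟨M * n - o - (M * j₁ + 1), by omega⟩
          have htz : -((M * j₁ + 1 + t : ℕ) : ℤ) = (o : ℤ) - ((M * n : ℕ) : ℤ) := by
            rw [← ht]
            push_cast [Nat.cast_sub (show o ≤ M * n by omega)]
            ring
          obtain ⟨g1, g2, g3⟩ := he t
          rw [htz] at g2 g3
          have hdeg : D.deg (e t) ≤ n := by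
            refine g1.trans ?_
            rw [← ht]
            refine Nat.lt_succ_iff.mp ((Nat.div_lt_iff_lt_mul (by omega)).mpr ?_)
            have : n.succ * M = M * n + M := by rw [Nat.succ_eq_add_one]; ring
            omega
          have hcoe : ∀ i : ℤ, (ι (f - algebraMap k A c * e t)).coeff i =
              (ι f).coeff i - C c * (ι (e t)).coeff i := by
            intro i
            rw [map_sub, map_mul, L.ι_C, HahnSeries.C_mul_eq_smul, HahnSeries.coeff_sub,
              HahnSeries.coeff_smul, smul_eq_mul]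
          have hmem := ihd (f - algebraMap k A c * e t)
            ((l2a_deg_sub D _ _).trans (max_le hf ((l2a_deg_C_mul D c (e t)).trans hdeg)))
            (by
              intro i hi
              rw [hcoe]
              rcases lt_or_ge i ((o : ℤ) - ((M * n : ℕ) : ℤ)) with hi2 | hi2
              · rw [h2 i hi2, g3 i hi2, mul_zero, sub_zero]
              · have : i = (o : ℤ) - ((M * n : ℕ) : ℤ) := by omega
                rw [this, h1, g2, mul_one, sub_self])
          have e1 : f = (f - algebraMap k A c * e t) + algebraMap k A c * e t := by ring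
          have e2 : algebraMap k A c * e t = (C c : k[X]) • e t := by
            rw [Algebra.smul_def, halg, aeval_C]
          rw [e1]
          refine V.add_mem hmem ?_
          rw [e2]
          exact V.smul_mem _ (Submodule.mem_sup_right
            (Submodule.subset_span (Set.mem_range_self t)))
        · exact case2 f h hh1 hh2
    refine key M f hf ?_
    intro i hi
    exact L.bd n f hf i (by omega)

/-! ### Elements without pole -/

include L in
theorem l2a_no_pole [Algebra k[X] A] (halg : ∀ P : k[X], algebraMap k[X] A P = aeval s P)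
    (e : ℕ → A) (he : ∀ t, D.deg (e t) ≤ (M * j₁ + 1 + t + M - 1) / M ∧
      (ι (e t)).coeff (-((M * j₁ + 1 + t : ℕ) : ℤ)) = 1 ∧
      ∀ i < -((M * j₁ + 1 + t : ℕ) : ℤ), (ι (e t)).coeff i = 0)
    (f : A) (hf : ∀ i < 0, (ι f).coeff i = 0) :
    f ∈ Submodule.span k[X] {x : A | D.deg x ≤ j₁} := by
  have hsm : ∀ (P : k[X]) (x : A) (i : ℤ), (ι (P • x)).coeff i = P * (ι x).coeff i := by
    intro P x i
    rw [Algebra.smul_def, halg, l2a_coeff D s ι m M j₁ κ L]
  have hN : ∀ g ∈ Submodule.span k[X] {x : A | D.deg x ≤ j₁}, ∀ i : ℤ,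
      i < -((M * j₁ : ℕ) : ℤ) → (ι g).coeff i = 0 := by
    intro g hg
    induction hg using Submodule.span_induction with
    | mem x hx => exact fun i hi => L.bd j₁ x hx i hi
    | zero => intro i _; rw [map_zero, HahnSeries.coeff_zero]
    | add x y _ _ hx hy =>
      intro i hi
      rw [map_add, HahnSeries.coeff_add, hx i hi, hy i hi, add_zero]
    | smul P x _ hx =>
      intro i hi
      rw [hsm, hx i hi, mul_zero]
  have hmem := l2a_span D s ι m M j₁ κ L halg e he (D.deg f) f le_rfl
  obtain ⟨g, hg, h, hh, hgh⟩ := Submodule.mem_sup.mp hmem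
  obtain ⟨c, hc⟩ := (Finsupp.mem_span_range_iff_exists_finsupp).mp hh
  by_cases hc0 : c = 0
  · rw [hc0, Finsupp.sum_zero_index] at hc
    rw [← hgh, ← hc, add_zero]
    exact hg
  · exfalso
    have hne : c.support.Nonempty := Finsupp.support_nonempty_iff.mpr hc0
    set t₀ := c.support.max' hne with ht₀
    have ht0m : t₀ ∈ c.support := Finset.max'_mem _ _
    have hsum : (ι h).coeff (-((M * j₁ + 1 + t₀ : ℕ) : ℤ)) = c t₀ := by
      rw [← hc, Finsupp.sum, map_sum]
      have hcs : ∀ (S : Finset ℕ) (i : ℤ), (∑ t ∈ S, ι (c t • e t)).coeff i =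
          ∑ t ∈ S, (ι (c t • e t)).coeff i := by
        intro S i
        induction S using Finset.induction_on with
        | empty => simp
        | insert a S ha ih => rw [Finset.sum_insert ha, Finset.sum_insert ha,
            HahnSeries.coeff_add, ih]
      rw [hcs, Finset.sum_eq_single_of_mem t₀ ht0m]
      · rw [hsm, (he t₀).2.1, mul_one]
      · intro t ht htne
        have hlt : t < t₀ := lt_of_le_of_ne (Finset.le_max' _ _ ht) htne
        rw [hsm, (he t).2.2 _ (by push_cast; omega), mul_zero]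
    have h1 : (ι f).coeff (-((M * j₁ + 1 + t₀ : ℕ) : ℤ)) = c t₀ := by
      rw [← hgh, map_add, HahnSeries.coeff_add, hsum, hN g hg _ (by push_cast; omega), zero_add]
    rw [hf _ (neg_neg_of_pos (by positivity))] at h1
    exact (Finsupp.mem_support_iff.mp ht0m) h1.symm

theorem l2a_powerSeries (x : LaurentSeries k[X]) (hx : ∀ i < 0, x.coeff i = 0) :
    ∃ F : PowerSeries k[X], x = HahnSeries.ofPowerSeries ℤ k[X] F := by
  refine ⟨PowerSeries.mk fun n => x.coeff n, ?_⟩
  ext1
  funext i
  rw [PowerSeries.coeff_coe]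
  split_ifs with hi
  · exact hx i hi
  · push Not at hi
    rw [PowerSeries.coeff_mk, Int.natAbs_of_nonneg hi]

include L in
theorem lead_pole (hinj : Function.Injective ι) (f : A)
    (hf : ∀ i < 0, (ι f).coeff i = 0) : ∃ P : k[X], f = aeval s P := by
  let _ : Algebra k[X] A := (aeval s : k[X] →ₐ[k] A).toRingHom.toAlgebra
  have halg : ∀ P : k[X], algebraMap k[X] A P = aeval s P := fun P => rfl
  have _ : IsScalarTower k k[X] A := IsScalarTower.of_algebraMap_eq fun c => by
    rw [halg, Polynomial.algebraMap_eq, aeval_C]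
  choose e he using fun t : ℕ => l2a_exists_pole D s ι m M j₁ κ L (M * j₁ + 1 + t) (by omega)
  have hιP : ∀ P : k[X], ι (aeval s P) = HahnSeries.ofPowerSeries ℤ k[X] (PowerSeries.C P) := by
    intro P
    rw [l2a_aeval D s ι m M j₁ κ L, HahnSeries.ofPowerSeries_C]
  let H : Subalgebra k[X] A :=
    { carrier := {x | ∃ F : PowerSeries k[X], ι x = HahnSeries.ofPowerSeries ℤ k[X] F}
      mul_mem' := by
        rintro x y ⟨F, hF⟩ ⟨G, hG⟩
        exact ⟨F * G, by rw [map_mul, hF, hG, map_mul]⟩
      add_mem' := by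
        rintro x y ⟨F, hF⟩ ⟨G, hG⟩
        exact ⟨F + G, by rw [map_add, hF, hG, map_add]⟩
      algebraMap_mem' := fun P => ⟨PowerSeries.C P, by rw [halg, hιP]⟩ }
  obtain ⟨T, hT⟩ : (D.fil j₁).FG := by
    refine Submodule.FG.pow ?_ j₁
    exact Submodule.fg_span (D.S.finite_toSet.insert 1)
  have hHN : Subalgebra.toSubmodule H ≤ Submodule.span k[X] (T : Set A) := by
    rintro x ⟨F, hF⟩
    have hx : x ∈ Submodule.span k[X] {x : A | D.deg x ≤ j₁} := by
      refine l2a_no_pole D s ι m M j₁ κ L halg e he x ?_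
      intro i hi
      rw [hF, PowerSeries.coeff_coe, if_pos hi]
    refine (Submodule.span_le.mpr ?_) hx
    intro y hy
    have hy2 := l2a_mem_fil D j₁ y hy
    rw [← hT] at hy2
    exact Submodule.span_subset_span k k[X] (T : Set A) hy2
  have hfg : (Subalgebra.toSubmodule H).FG := by
    have _ : IsNoetherian k[X] (Submodule.span k[X] (T : Set A)) :=
      isNoetherian_span_of_finite k[X] T.finite_toSet
    exact Submodule.FG.of_le (Submodule.fg_span T.finite_toSet) hHN
  set P₀ : k[X] := (ι f).coeff 0 with hP₀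
  refine ⟨P₀, ?_⟩
  by_contra hne
  have hg0 : f - aeval s P₀ ≠ 0 := sub_ne_zero.mpr hne
  obtain ⟨F, hF⟩ := l2a_powerSeries (ι f) hf
  have hg : ι (f - aeval s P₀) = HahnSeries.ofPowerSeries ℤ k[X] (F - PowerSeries.C P₀) := by
    rw [map_sub, map_sub, hF, hιP]
  have hgH : f - aeval s P₀ ∈ H := ⟨_, hg⟩
  have hint := IsIntegral.of_mem_of_fg H hfg _ hgH
  obtain ⟨q, hq0, hq⟩ := hint.isAlgebraic.exists_nonzero_coeff_and_aeval_eq_zero
    (mem_nonZeroDivisors_of_ne_zero hg0)
  apply hq0
  have h1 : HahnSeries.ofPowerSeries ℤ k[X]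
      (eval₂ PowerSeries.C (F - PowerSeries.C P₀) q) = 0 := by
    rw [Polynomial.hom_eval₂, ← hg]
    have h2 : ι (eval₂ (algebraMap k[X] A) (f - aeval s P₀) q) = 0 := by
      rw [← Polynomial.aeval_def, hq, map_zero]
    rw [Polynomial.hom_eval₂] at h2
    convert h2 using 2
    refine RingHom.ext fun P => ?_
    rw [RingHom.comp_apply, RingHom.comp_apply, halg, hιP]
  have h2 : eval₂ PowerSeries.C (F - PowerSeries.C P₀) q = 0 := by
    apply HahnSeries.ofPowerSeries_injective (Γ := ℤ) (R := k[X])
    rw [h1, map_zero]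
  have h3 := congrArg (PowerSeries.constantCoeff (R := k[X])) h2
  rw [Polynomial.hom_eval₂, map_zero, map_sub] at h3
  have h4 : PowerSeries.constantCoeff F = P₀ := by
    rw [hP₀, hF, ← PowerSeries.coeff_zero_eq_constantCoeff_apply]
    exact (HahnSeries.ofPowerSeries_apply_coeff F 0).symm
  rw [h4, PowerSeries.constantCoeff_C, sub_self] at h3
  have h5 : (PowerSeries.constantCoeff (R := k[X])).comp PowerSeries.C = RingHom.id k[X] := by
    exact RingHom.ext fun P => by simp
  rw [h5, Polynomial.eval₂_id, ← Polynomial.coeff_zero_eq_eval_zero] at h3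
  exact h3

end lead

end Pool.Agent.K1
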