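import Pool.Agent.K1.L2Defs

/-!
K1, Layer 2: fibres of the section are integral (`lead_fibre`), and finiteness modulo an
element with constant leading coefficient (`lead_finite`).
-/

open Polynomial

namespace Pool.Agent.K1

namespace LeadB

section DegFun
variable {k A : Type} [Field k] [CommRing A] [IsDomain A] [Algebra k A] (D : DegFun k A)

theorem deg_one : D.deg 1 = 0 := by
  have h := D.deg_mul 1 1 one_ne_zero one_ne_zero
  rw [one_mul] at h
  omega

theorem deg_neg_one : D.deg (-1) = 0 := by
  have h := D.deg_mul (-1) (-1) (neg_ne_zero.mpr one_ne_zero) (neg_ne_zero.mpr one_ne_zero)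
  rw [neg_mul_neg, one_mul, deg_one] at h
  omega

theorem deg_zero : D.deg 0 = 0 := by
  have h := D.deg_add 1 (-1)
  rw [add_neg_cancel, deg_one, deg_neg_one] at h
  simpa using h

theorem deg_neg (f : A) : D.deg (-f) = D.deg f := by
  by_cases hf : f = 0
  · simp [hf]
  · have h := D.deg_mul (-1) f (neg_ne_zero.mpr one_ne_zero) hf
    rwa [deg_neg_one, zero_add, neg_one_mul] at h

theorem deg_sub (f g : A) : D.deg (f - g) ≤ max (D.deg f) (D.deg g) := by
  rw [sub_eq_add_neg, ← deg_neg D g]
  exact D.deg_add f (-g)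

theorem deg_mul_le (f g : A) : D.deg (f * g) ≤ D.deg f + D.deg g := by
  by_cases hf : f = 0
  · simp [hf, deg_zero]
  by_cases hg : g = 0
  · simp [hg, deg_zero]
  exact (D.deg_mul f g hf hg).le

theorem deg_algebraMap (c : k) : D.deg (algebraMap k A c) = 0 := by
  by_cases hc : c = 0
  · simp [hc, deg_zero]
  · have h0 : algebraMap k A c ≠ 0 := by
      simpa using (map_ne_zero_iff _ (algebraMap k A).injective).mpr hc
    have h0' : algebraMap k A c⁻¹ ≠ 0 := by
      simpa using (map_ne_zero_iff _ (algebraMap k A).injective).mpr (inv_ne_zero hc)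
    have h := D.deg_mul _ _ h0 h0'
    rw [← map_mul, mul_inv_cancel₀ hc, map_one, deg_one] at h
    omega

theorem fil_fg (j : ℕ) : (D.fil j).FG := by
  unfold DegFun.fil
  refine Submodule.FG.pow ?_ j
  refine Submodule.fg_span ?_
  exact (D.S.finite_toSet).insert 1

theorem fil_mono {i j : ℕ} (h : i ≤ j) : D.fil i ≤ D.fil j := by
  unfold DegFun.fil
  refine pow_le_pow_right' ?_ h
  rw [Submodule.one_le]
  exact Submodule.subset_span (Set.mem_insert _ _)

theorem mem_fil {f : A} {j : ℕ} (h : D.deg f ≤ j) : f ∈ D.fil j :=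
  fil_mono D h (D.gen f)

end DegFun

section lead
variable {k A : Type} [Field k] [CommRing A] [IsDomain A] [Algebra k A] (D : DegFun k A)
  (s : A) (ι : A →+* LaurentSeries k[X]) (m M j₁ κ : ℕ) (L : Lead D s ι m M j₁ κ)

/-- The ideal of the elements whose expansion is divisible by `X - c`. -/
def J (c : k) : Ideal A where
  carrier := {f | ∀ i, (X - C c) ∣ (ι f).coeff i}
  add_mem' := fun {a b} ha hb i => by
    rw [map_add, HahnSeries.coeff_add]
    exact dvd_add (ha i) (hb i)
  zero_mem' := fun i => by simp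
  smul_mem' := fun r x hx i => by
    rw [smul_eq_mul, map_mul, HahnSeries.coeff_mul]
    exact Finset.dvd_sum fun ij _ => dvd_mul_of_dvd_right (hx _) _

theorem mem_J {c : k} {f : A} : f ∈ J ι c ↔ ∀ i, (X - C c) ∣ (ι f).coeff i := Iff.rfl

include L in
theorem g_mem (c : k) : s - algebraMap k A c ∈ J ι c := by
  intro i
  rw [map_sub, L.ι_s, L.ι_C, ← map_sub]
  by_cases hi : i = 0
  · subst hi
    simp
  · rw [HahnSeries.C_apply, HahnSeries.coeff_single_of_ne hi]
    exact dvd_zero _

include L in
theorem g_ne (c : k) : s - algebraMap k A c ≠ 0 := by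
  intro h
  have h1 := L.deg_s
  rw [sub_eq_zero.mp h, deg_algebraMap] at h1
  have := L.m_pos
  omega

include L in
/-- Reduction modulo `s - c` of elements of the ideal. -/
theorem reduce (c : k) : ∀ n : ℕ, ∀ f : A, D.deg f = n → f ∈ J ι c →
    ∃ q r : A, f = (s - algebraMap k A c) * q + r ∧ r ∈ J ι c ∧ D.deg r ≤ j₁ := by
  intro n
  induction n using Nat.strong_induction_on with
  | _ n ih =>
    intro f hn hf
    by_cases hj : n ≤ j₁
    · exact ⟨0, f, by ring, hf, by omega⟩
    have hj' : j₁ ≤ n := by omega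
    rcases L.dich n f hn.le hj' with ⟨o, ho, c', hc', h1, _⟩ | ⟨h, hh, hd⟩
    · exfalso
      have h2 := hf ((o : ℤ) - ((M * n : ℕ) : ℤ))
      rw [h1, Polynomial.dvd_iff_isRoot, Polynomial.IsRoot, Polynomial.eval_C] at h2
      exact hc' h2
    · set f' := f - (s - algebraMap k A c) * h with hf'
      have e1 : f' = (f - s * h) + algebraMap k A c * h := by rw [hf']; ring
      have hm := L.m_pos
      have hle := L.le
      have d2 : D.deg (algebraMap k A c * h) ≤ n - m := by
        refine (deg_mul_le D _ _).trans ?_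
        rw [deg_algebraMap]
        omega
      have d1 : D.deg f' < n := by
        rw [e1]
        refine lt_of_le_of_lt (D.deg_add _ _) ?_
        rw [max_lt_iff]
        exact ⟨hd, by omega⟩
      have m1 : f' ∈ J ι c := by
        rw [hf']
        exact (J ι c).sub_mem hf (Ideal.mul_mem_right _ _ (g_mem D s ι m M j₁ κ L c))
      obtain ⟨q, r, hqr, hr, hrd⟩ := ih _ d1 f' rfl m1
      refine ⟨h + q, r, ?_, hr, hrd⟩
      have : f = f' + (s - algebraMap k A c) * h := by rw [hf']; ring
      rw [this, hqr]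
      ring

/-- The elements which can be written as wished. -/
def T (s a : A) (G : Finset A) (f : A) : Prop :=
  ∃ (q : A) (P : A → k[X]), f = a * q + ∑ g ∈ G, aeval s (P g) * g

variable (k) in
theorem T_add {s a : A} {G : Finset A} {f f' : A} (h : T (k := k) s a G f)
    (h' : T (k := k) s a G f') : T (k := k) s a G (f + f') := by
  obtain ⟨q, P, rfl⟩ := h
  obtain ⟨q', P', rfl⟩ := h'
  refine ⟨q + q', P + P', ?_⟩
  simp only [Pi.add_apply, map_add, add_mul, Finset.sum_add_distrib, mul_add]
  ring

variable (k) in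
theorem T_mul {s a : A} {G : Finset A} {f : A} (R : k[X]) (h : T (k := k) s a G f) :
    T (k := k) s a G (aeval s R * f) := by
  obtain ⟨q, P, rfl⟩ := h
  refine ⟨aeval s R * q, fun g => R * P g, ?_⟩
  simp only [map_mul, mul_add, Finset.mul_sum, mul_assoc]
  congr 1
  ring

variable (k) in
theorem T_self (s a : A) (G : Finset A) (q : A) : T (k := k) s a G (a * q) :=
  ⟨q, fun _ => 0, by simp⟩

variable (k) in
theorem T_of_mem (s a : A) (G : Finset A) {g : A} (hg : g ∈ G) : T (k := k) s a G g := by
  classical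
  refine ⟨0, fun x => if x = g then 1 else 0, ?_⟩
  rw [Finset.sum_eq_single_of_mem g hg]
  · simp
  · intro b _ hb
    simp [hb]

theorem T_of_span (s a : A) (G : Finset A) {f : A}
    (hf : f ∈ Submodule.span k (G : Set A)) : T (k := k) s a G f := by
  induction hf using Submodule.span_induction with
  | mem x hx => exact T_of_mem k s a G hx
  | zero => exact ⟨0, fun _ => 0, by simp⟩
  | add x y _ _ hx hy => exact T_add k hx hy
  | smul c x _ hx =>
    have := T_mul k (C c) hx
    rwa [aeval_C, ← Algebra.smul_def] at this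

/-- Coefficients of a product of series with known orders. -/
theorem coeff_mul_low {x y : LaurentSeries k[X]} {p q : ℤ} (hx : ∀ i < p, x.coeff i = 0)
    (hy : ∀ i < q, y.coeff i = 0) :
    (x * y).coeff (p + q) = x.coeff p * y.coeff q ∧ ∀ i < p + q, (x * y).coeff i = 0 := by
  constructor
  · rw [HahnSeries.coeff_mul]
    by_cases h : x.coeff p * y.coeff q = 0
    · rw [h]
      refine Finset.sum_eq_zero fun ij hij => ?_
      rw [Finset.mem_addAntidiagonal] at hij
      obtain ⟨h1, h2, h3⟩ := hij
      have a1 : p ≤ ij.1 := by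
        by_contra hc
        exact h1 (hx _ (not_le.mp hc))
      have a2 : q ≤ ij.2 := by
        by_contra hc
        exact h2 (hy _ (not_le.mp hc))
      have e1 : ij.1 = p := by omega
      have e2 : ij.2 = q := by omega
      rw [e1, e2, h]
    · rw [Finset.sum_eq_single_of_mem (p, q)]
      · rw [Finset.mem_addAntidiagonal]
        exact ⟨left_ne_zero_of_mul h, right_ne_zero_of_mul h, rfl⟩
      · intro ij hij hne
        rw [Finset.mem_addAntidiagonal] at hij
        obtain ⟨h1, h2, h3⟩ := hij
        exfalso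
        have a1 : p ≤ ij.1 := by
          by_contra hc
          exact h1 (hx _ (not_le.mp hc))
        have a2 : q ≤ ij.2 := by
          by_contra hc
          exact h2 (hy _ (not_le.mp hc))
        apply hne
        ext
        · change ij.1 = p
          omega
        · change ij.2 = q
          omega
  · intro i hi
    rw [HahnSeries.coeff_mul]
    refine Finset.sum_eq_zero fun ij hij => ?_
    rw [Finset.mem_addAntidiagonal] at hij
    obtain ⟨h1, h2, h3⟩ := hij
    exfalso
    have a1 : p ≤ ij.1 := by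
      by_contra hc
      exact h1 (hx _ (not_le.mp hc))
    have a2 : q ≤ ij.2 := by
      by_contra hc
      exact h2 (hy _ (not_le.mp hc))
    omega

include L in
/-- Reduction by `a` and `s` in large degree. -/
theorem reduce_a (d : ℕ) (a : A) (hd : D.deg a ≤ d) (c : k) (hc : c ≠ 0)
    (ha : (ι a).coeff (-((M * d : ℕ) : ℤ)) = C c) (j : ℕ) (hj : j₁ + d ≤ j) :
    ∀ n o : ℕ, o + n = M → ∀ f : A, D.deg f ≤ j →
      (∀ i : ℤ, i < (o : ℤ) - ((M * j : ℕ) : ℤ) → (ι f).coeff i = 0) →
      ∃ q h : A, D.deg h ≤ j - m ∧ D.deg (f - a * q - s * h) < j := by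
  intro n
  induction n with
  | zero =>
    intro o ho f hf hlow
    rcases L.dich j f hf (by omega) with ⟨o', ho', c', hc', h1, _⟩ | ⟨h, hh, hd'⟩
    · exfalso
      have h2 := hlow ((o' : ℤ) - ((M * j : ℕ) : ℤ)) (by omega)
      rw [h1] at h2
      exact hc' (Polynomial.C_eq_zero.mp h2)
    · exact ⟨0, h, hh, by simpa using hd'⟩
  | succ n ih =>
    intro o ho f hf hlow
    rcases L.dich j f hf (by omega) with ⟨o', ho', c', hc', h1, h1'⟩ | ⟨h, hh, hd'⟩
    · have hoo : o ≤ o' := by
        by_contra hcon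
        have h2 := hlow ((o' : ℤ) - ((M * j : ℕ) : ℤ)) (by omega)
        rw [h1] at h2
        exact hc' (Polynomial.C_eq_zero.mp h2)
      obtain ⟨e, he, he1, he2⟩ := L.ex (j - d) o' (by omega) ho'
      set f' := f - algebraMap k A (c' / c) * (a * e) with hf'
      have hcast : ((M * j : ℕ) : ℤ) = ((M * d : ℕ) : ℤ) + ((M * (j - d) : ℕ) : ℤ) := by
        rw [← Nat.cast_add, ← Nat.mul_add, Nat.add_sub_cancel' (by omega)]
      obtain ⟨c1, c2⟩ := coeff_mul_low (x := ι a) (y := ι e) (p := -((M * d : ℕ) : ℤ))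
        (q := (o' : ℤ) - ((M * (j - d) : ℕ) : ℤ)) (L.bd d a hd) he2
      have hpq : -((M * d : ℕ) : ℤ) + ((o' : ℤ) - ((M * (j - d) : ℕ) : ℤ)) =
          (o' : ℤ) - ((M * j : ℕ) : ℤ) := by
        rw [hcast]; ring
      rw [hpq] at c1 c2
      rw [ha, he1, mul_one] at c1
      have hcoeff : ∀ i, (ι f').coeff i = (ι f).coeff i - C (c' / c) * (ι (a * e)).coeff i := by
        intro i
        rw [hf', map_sub, HahnSeries.coeff_sub, map_mul, L.ι_C]
        congr 1
        rw [HahnSeries.C_apply, HahnSeries.coeff_single_zero_mul]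
      have hd1 : D.deg f' ≤ j := by
        refine (deg_sub D _ _).trans (max_le hf ?_)
        refine (deg_mul_le D _ _).trans ?_
        rw [deg_algebraMap, zero_add]
        refine (deg_mul_le D _ _).trans ?_
        omega
      have hlow' : ∀ i : ℤ, i < ((o + 1 : ℕ) : ℤ) - ((M * j : ℕ) : ℤ) →
          (ι f').coeff i = 0 := by
        intro i hi
        rw [hcoeff, map_mul]
        by_cases hi' : i = (o' : ℤ) - ((M * j : ℕ) : ℤ)
        · rw [hi', h1, c1, ← C_mul, div_mul_cancel₀ _ hc, sub_self]
        · have hlt : i < (o' : ℤ) - ((M * j : ℕ) : ℤ) := by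
            push_cast at hi
            omega
          rw [h1' i hlt, c2 i hlt, mul_zero, sub_zero]
      obtain ⟨q, h, hh, hdd⟩ := ih (o + 1) (by omega) f' hd1 hlow'
      refine ⟨q + algebraMap k A (c' / c) * e, h, hh, ?_⟩
      have : f - a * (q + algebraMap k A (c' / c) * e) - s * h = f' - a * q - s * h := by
        rw [hf']; ring
      rw [this]
      exact hdd
    · exact ⟨0, h, hh, by simpa using hd'⟩

end lead

end LeadB

section lead
variable {k A : Type} [Field k] [CommRing A] [IsDomain A] [Algebra k A] (D : DegFun k A)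
  (s : A) (ι : A →+* LaurentSeries k[X]) (m M j₁ κ : ℕ) (L : Lead D s ι m M j₁ κ)

open LeadB

include L in
theorem lead_fibre (hA : Depth2 A) (c : k) (f : A) (hf : ∀ i, (X - C c) ∣ (ι f).coeff i) :
    (s - algebraMap k A c) ∣ f := by
  classical
  set g := s - algebraMap k A c with hg
  have hg0 : g ≠ 0 := g_ne D s ι m M j₁ κ L c
  by_contra hne
  -- the module `J / (g)` as a submodule of `A / (g)`
  let N : Submodule A (A ⧸ Ideal.span {g}) := Submodule.map (Submodule.mkQ (Ideal.span {g})) (J ι c)
  have hfin : Module.Finite k N := by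
    -- image of the finite dimensional space `fil j₁ ⊓ J`
    haveI : Module.Finite k (D.fil j₁) := Module.Finite.iff_fg.mpr (fil_fg D j₁)
    let V : Submodule k A := D.fil j₁ ⊓ (J ι c).restrictScalars k
    haveI : Module.Finite k V := Submodule.finiteDimensional_inf_left _ _
    let φ : V →ₗ[k] N :=
      { toFun := fun x => ⟨Submodule.mkQ (Ideal.span {g}) x.1, ⟨x.1, x.2.2, rfl⟩⟩
        map_add' := fun x y => by ext; simp
        map_smul' := fun a x => by ext; rfl }
    refine Module.Finite.of_surjective φ ?_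
    rintro ⟨y, x, hx, rfl⟩
    obtain ⟨q, r, h1, h2, h3⟩ := reduce D s ι m M j₁ κ L c _ x rfl hx
    refine ⟨⟨r, mem_fil D h3, h2⟩, ?_⟩
    apply Subtype.ext
    change Submodule.mkQ (Ideal.span {g}) r = Submodule.mkQ (Ideal.span {g}) x
    rw [Submodule.mkQ_apply, Submodule.mkQ_apply, Submodule.Quotient.eq]
    rw [h1, Ideal.mem_span_singleton]
    exact ⟨-q, by rw [hg]; ring⟩
  haveI : IsArtinian k N := inferInstance
  haveI : IsArtinian A N := isArtinian_of_tower k inferInstance
  have hnt : Nontrivial N := by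
    refine ⟨⟨⟨Submodule.mkQ (Ideal.span {g}) f, ⟨f, hf, rfl⟩⟩, 0, ?_⟩⟩
    intro h
    apply hne
    have h' := congrArg Subtype.val h
    change Submodule.mkQ (Ideal.span {g}) f = 0 at h'
    rw [Submodule.mkQ_apply, Submodule.Quotient.mk_eq_zero, Ideal.mem_span_singleton] at h'
    exact h'
  haveI : IsAtomic (Submodule A N) := isAtomic_of_orderBot_wellFounded_lt wellFounded_lt
  obtain ⟨K, hK⟩ := IsAtomic.exists_atom (Submodule A N)
  have hs : IsSimpleModule A K := isSimpleModule_iff_isAtom.mpr hK
  obtain ⟨𝔪, hmax, ⟨e⟩⟩ := isSimpleModule_iff_quot_maximal.mp hs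
  set y : K := e.symm (Submodule.mkQ 𝔪 1) with hy
  have hy0 : y ≠ 0 := by
    intro h
    rw [hy, LinearEquiv.map_eq_zero_iff, Submodule.mkQ_apply, Submodule.Quotient.mk_eq_zero] at h
    exact hmax.ne_top ((Ideal.eq_top_iff_one _).mpr h)
  obtain ⟨a, ha⟩ := Submodule.mkQ_surjective (Ideal.span {g}) (y : N).1
  have key : ∀ x ∈ 𝔪, g ∣ x * a := by
    intro x hx
    have h1 : x • y = 0 := by
      rw [hy, ← map_smul, ← map_smul, smul_eq_mul, mul_one]
      rw [LinearEquiv.map_eq_zero_iff, Submodule.mkQ_apply, Submodule.Quotient.mk_eq_zero]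
      exact hx
    have h2 : Submodule.mkQ (Ideal.span {g}) (x * a) = 0 := by
      rw [← smul_eq_mul, map_smul, ha]
      have h3 := congrArg (fun z : K => ((z : N) : A ⧸ Ideal.span {g})) h1
      simpa using h3
    rw [Submodule.mkQ_apply, Submodule.Quotient.mk_eq_zero, Ideal.mem_span_singleton] at h2
    exact h2
  have hga := hA 𝔪 hmax g a hg0 key
  apply hy0
  apply Subtype.ext
  apply Subtype.ext
  change (y : N).1 = 0
  rw [← ha, Submodule.mkQ_apply, Submodule.Quotient.mk_eq_zero, Ideal.mem_span_singleton]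
  exact hga

include L in
theorem lead_finite (d : ℕ) (a : A) (hd : D.deg a ≤ d) (c : k) (hc : c ≠ 0)
    (ha : (ι a).coeff (-((M * d : ℕ) : ℤ)) = C c) :
    ∃ G : Finset A, ∀ f : A, ∃ (q : A) (P : A → k[X]),
      f = a * q + ∑ g ∈ G, aeval s (P g) * g := by
  classical
  obtain ⟨G, hG⟩ := fil_fg D (j₁ + d)
  refine ⟨G, fun f => ?_⟩
  change T (k := k) s a G f
  suffices H : ∀ n : ℕ, ∀ f : A, D.deg f = n → T (k := k) s a G f from H _ f rfl
  intro n
  induction n using Nat.strong_induction_on with
  | _ n ih =>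
    intro f hf
    by_cases hn : n ≤ j₁ + d
    · apply T_of_span
      rw [hG]
      exact mem_fil D (by omega)
    · obtain ⟨q, h, hh, hr⟩ := reduce_a D s ι m M j₁ κ L d a hd c hc ha n (by omega) M 0
        (by omega) f hf.le (fun i hi => L.bd n f hf.le i (by
          rw [Nat.cast_zero, zero_sub] at hi; exact hi))
      have hm := L.m_pos
      have e1 : f = (f - a * q - s * h) + (a * q + aeval s (X : k[X]) * h) := by
        rw [aeval_X]; ring
      rw [e1]
      exact T_add k (ih _ hr _ rfl) (T_add k (T_self k s a G q)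
        (T_mul k X (ih _ (by omega) h rfl)))

end lead

end Pool.Agent.K1
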