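import Pool.Agent.K1.L2LeadA

/-!
Layer 2 of the surface argument: the degree is controlled by the coefficients of non positive
index (`lead_polar_bound`), and the asymptotic form of this (`lead_degree`).
-/

open Polynomial

namespace Pool.Agent.K1

namespace LeadC

section deg
variable {k A : Type} [Field k] [CommRing A] [IsDomain A] [Algebra k A] (D : DegFun k A)

theorem deg_one : D.deg (1 : A) = 0 := by
  have h := D.deg_mul 1 1 one_ne_zero one_ne_zero
  rw [mul_one] at h
  omega

theorem deg_neg_one : D.deg (-1 : A) = 0 := by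
  have h := D.deg_mul (-1) (-1) (neg_ne_zero.2 one_ne_zero) (neg_ne_zero.2 one_ne_zero)
  rw [neg_mul_neg, mul_one, deg_one] at h
  omega

theorem deg_zero : D.deg (0 : A) = 0 := by
  have h := D.deg_add 1 (-1)
  rw [deg_one, deg_neg_one, add_neg_cancel] at h
  simpa using h

theorem deg_algebraMap (c : k) : D.deg (algebraMap k A c) = 0 := by
  by_cases hc : c = 0
  · rw [hc, map_zero, deg_zero]
  · have h1 : algebraMap k A c ≠ 0 := by
      rw [Ne, map_eq_zero_iff _ (algebraMap k A).injective]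
      exact hc
    have h2 : algebraMap k A c⁻¹ ≠ 0 := by
      rw [Ne, map_eq_zero_iff _ (algebraMap k A).injective]
      exact inv_ne_zero hc
    have h := D.deg_mul _ _ h1 h2
    rw [← map_mul, mul_inv_cancel₀ hc, map_one, deg_one] at h
    omega

theorem deg_mul_le (f g : A) : D.deg (f * g) ≤ D.deg f + D.deg g := by
  by_cases hf : f = 0
  · rw [hf, zero_mul, deg_zero]
    exact Nat.zero_le _
  by_cases hg : g = 0
  · rw [hg, mul_zero, deg_zero]
    exact Nat.zero_le _
  exact (D.deg_mul f g hf hg).le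

theorem deg_smul_le (c : k) (f : A) : D.deg (c • f) ≤ D.deg f := by
  rw [Algebra.smul_def]
  have h := deg_mul_le D (algebraMap k A c) f
  rw [deg_algebraMap, zero_add] at h
  exact h

theorem deg_pow (f : A) (hf : f ≠ 0) (n : ℕ) : D.deg (f ^ n) = n * D.deg f := by
  induction n with
  | zero => rw [pow_zero, deg_one, zero_mul]
  | succ n ih => rw [pow_succ, D.deg_mul _ _ (pow_ne_zero n hf) hf, ih, Nat.succ_mul]

theorem deg_pow_le (f : A) (n : ℕ) : D.deg (f ^ n) ≤ n * D.deg f := by
  induction n with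
  | zero => rw [pow_zero, deg_one, zero_mul]
  | succ n ih =>
    rw [pow_succ, Nat.succ_mul]
    exact (deg_mul_le D _ _).trans (Nat.add_le_add_right ih _)

/-- The elements of degree at most `j` as a submodule. -/
def sub (j : ℕ) : Submodule k A where
  carrier := {f | D.deg f ≤ j}
  add_mem' := fun {a b} ha hb => (D.deg_add a b).trans (max_le ha hb)
  zero_mem' := by
    show D.deg 0 ≤ j
    rw [deg_zero]
    exact Nat.zero_le _
  smul_mem' := fun c x hx => (deg_smul_le D c x).trans hx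

theorem mem_sub (j : ℕ) (f : A) : f ∈ sub D j ↔ D.deg f ≤ j := Iff.rfl

theorem deg_aeval_le (s : A) (P : k[X]) : D.deg (aeval s P) ≤ D.deg s * P.natDegree := by
  rw [aeval_eq_sum_range]
  rw [← mem_sub]
  refine Submodule.sum_mem _ fun i hi => ?_
  refine Submodule.smul_mem _ _ ?_
  rw [mem_sub]
  refine (deg_pow_le D s i).trans ?_
  rw [mul_comm]
  exact Nat.mul_le_mul_left _ (Nat.lt_succ_iff.1 (Finset.mem_range.1 hi))

/-- The degree is bounded on a finite dimensional subspace. -/
theorem deg_bdd (V : Submodule k A) (hV : V.FG) : ∃ B : ℕ, ∀ f ∈ V, D.deg f ≤ B := by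
  obtain ⟨S, rfl⟩ := hV
  refine ⟨S.sup D.deg, fun f hf => ?_⟩
  rw [← mem_sub]
  have : Submodule.span k (S : Set A) ≤ sub D (S.sup D.deg) := by
    rw [Submodule.span_le]
    intro x hx
    exact Finset.le_sup (f := D.deg) hx
  exact this hf

end deg

section lead
variable {k A : Type} [Field k] [CommRing A] [IsDomain A] [Algebra k A] {D : DegFun k A}
  {s : A} {ι : A →+* LaurentSeries k[X]} {m M j₁ κ : ℕ} (L : Lead D s ι m M j₁ κ)

include L in
theorem iota_aeval (P : k[X]) : ι (aeval s P) = HahnSeries.C P := by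
  have h : ι.comp (aeval s : k[X] →ₐ[k] A).toRingHom = (HahnSeries.C : k[X] →+* LaurentSeries k[X]) := by
    refine Polynomial.ringHom_ext ?_ ?_
    · intro a
      simp only [RingHom.comp_apply, AlgHom.toRingHom_eq_coe, RingHom.coe_coe, aeval_C]
      exact L.ι_C a
    · simp only [RingHom.comp_apply, AlgHom.toRingHom_eq_coe, RingHom.coe_coe, aeval_X]
      exact L.ι_s
  exact RingHom.congr_fun h P

include L in
theorem coeff_aeval_mul (P : k[X]) (f : A) (i : ℤ) :
    (ι (aeval s P * f)).coeff i = P * (ι f).coeff i := by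
  rw [map_mul, iota_aeval L, HahnSeries.C_mul_eq_smul, HahnSeries.coeff_smul, smul_eq_mul]

include L in
theorem coeff_smul (c : k) (f : A) (i : ℤ) :
    (ι (c • f)).coeff i = C c * (ι f).coeff i := by
  rw [Algebra.smul_def, map_mul, L.ι_C, HahnSeries.C_mul_eq_smul, HahnSeries.coeff_smul,
    smul_eq_mul]

include L in
theorem coeff_s_pow_mul (n : ℕ) (f : A) (i : ℤ) :
    (ι (s ^ n * f)).coeff i = X ^ n * (ι f).coeff i := by
  have h := coeff_aeval_mul L (X ^ n) f i
  rw [map_pow, aeval_X] at h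
  exact h

/-- Elements of pole order at most `N` whose coefficients at `0, -1, …, -N` have degree at
most `d`. -/
def Q (L : Lead D s ι m M j₁ κ) (N d : ℕ) : Submodule k A where
  carrier := {f | (∀ i : ℤ, i < -(N : ℤ) → (ι f).coeff i = 0) ∧
    ∀ w : ℕ, w ≤ N → ((ι f).coeff (-(w : ℤ))).natDegree ≤ d}
  add_mem' := by
    rintro a b ⟨ha, ha'⟩ ⟨hb, hb'⟩
    refine ⟨fun i hi => ?_, fun w hw => ?_⟩
    · rw [map_add, HahnSeries.coeff_add, ha i hi, hb i hi, add_zero]
    · rw [map_add, HahnSeries.coeff_add]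
      exact (natDegree_add_le _ _).trans (max_le (ha' w hw) (hb' w hw))
  zero_mem' := by
    refine ⟨fun i _ => ?_, fun w _ => ?_⟩
    · rw [map_zero, HahnSeries.coeff_zero]
    · rw [map_zero, HahnSeries.coeff_zero, natDegree_zero]
      exact Nat.zero_le _
  smul_mem' := by
    rintro c a ⟨ha, ha'⟩
    refine ⟨fun i hi => ?_, fun w hw => ?_⟩
    · rw [coeff_smul L, ha i hi, mul_zero]
    · rw [coeff_smul L]
      exact (natDegree_C_mul_le _ _).trans (ha' w hw)

/-- All coefficients of index at least `-N`, of degree at most `d`. -/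
noncomputable def cf (L : Lead D s ι m M j₁ κ) (N d : ℕ) : A →ₗ[k] (Fin (N + 1) × Fin (d + 1) → k) where
  toFun f := fun p => ((ι f).coeff (-((p.1 : ℕ) : ℤ))).coeff p.2
  map_add' a b := by
    funext p
    simp only [map_add, HahnSeries.coeff_add, coeff_add, Pi.add_apply]
  map_smul' c a := by
    funext p
    simp only [coeff_smul L, coeff_C_mul, RingHom.id_apply, Pi.smul_apply, smul_eq_mul]

/-- The leading vector. -/
noncomputable def lc (L : Lead D s ι m M j₁ κ) (N d : ℕ) : A →ₗ[k] (Fin (N + 1) → k) where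
  toFun f := fun p => ((ι f).coeff (-((p : ℕ) : ℤ))).coeff d
  map_add' a b := by
    funext p
    simp only [map_add, HahnSeries.coeff_add, coeff_add, Pi.add_apply]
  map_smul' c a := by
    funext p
    simp only [coeff_smul L, coeff_C_mul, RingHom.id_apply, Pi.smul_apply, smul_eq_mul]

include L in
/-- An element whose coefficients of non positive index vanish is zero. -/
theorem eq_zero (hinj : Function.Injective ι) (f : A) (hf : ∀ i : ℤ, i ≤ 0 → (ι f).coeff i = 0) :
    f = 0 := by
  obtain ⟨P, hP⟩ := lead_pole D s ι m M j₁ κ L hinj f fun i hi => hf i hi.le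
  have h0 := hf 0 le_rfl
  rw [hP, iota_aeval L] at h0
  have : P = 0 := by simpa using h0
  rw [hP, this, map_zero]

theorem Q_fg (hinj : Function.Injective ι) (N d : ℕ) : (Q L N d).FG := by
  rw [← Module.Finite.iff_fg]
  refine Module.Finite.of_injective ((cf L N d).comp (Q L N d).subtype) ?_
  rw [← LinearMap.ker_eq_bot, Submodule.eq_bot_iff]
  rintro ⟨f, hf⟩ hx
  rw [LinearMap.mem_ker] at hx
  have hz : f = 0 := by
    refine eq_zero L hinj f fun i hi => ?_
    by_cases hiN : i < -(N : ℤ)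
    · exact hf.1 i hiN
    · obtain ⟨w, rfl⟩ : ∃ w : ℕ, i = -(w : ℤ) := ⟨i.natAbs, by omega⟩
      have hw : w ≤ N := by omega
      refine Polynomial.ext fun e => ?_
      by_cases he : e ≤ d
      · have h1 := congrFun hx (⟨w, by omega⟩, ⟨e, by omega⟩)
        simpa [cf] using h1
      · rw [coeff_zero]
        exact coeff_eq_zero_of_natDegree_lt (lt_of_le_of_lt (hf.2 w hw) (not_le.1 he))
  exact Subtype.ext hz

theorem s_pow_mul_mem (N d n : ℕ) (f : A) (hf : f ∈ Q L N d) : s ^ n * f ∈ Q L N (d + n) := by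
  refine ⟨fun i hi => ?_, fun w hw => ?_⟩
  · rw [coeff_s_pow_mul L, hf.1 i hi, mul_zero]
  · rw [coeff_s_pow_mul L]
    refine natDegree_mul_le.trans ?_
    rw [natDegree_X_pow, add_comm]
    exact Nat.add_le_add_right (hf.2 w hw) _

theorem lc_s_pow_mul (N d n : ℕ) (f : A) : lc L N (d + n) (s ^ n * f) = lc L N d f := by
  funext p
  simp only [lc, LinearMap.coe_mk, AddHom.coe_mk, coeff_s_pow_mul L]
  rw [coeff_X_pow_mul]

theorem mem_Q_of_lc (N d : ℕ) (f : A) (hf : f ∈ Q L N (d + 1)) (h : lc L N (d + 1) f = 0) :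
    f ∈ Q L N d := by
  refine ⟨hf.1, fun w hw => ?_⟩
  rw [natDegree_le_iff_coeff_eq_zero]
  intro e he
  rcases Nat.lt_or_ge (d + 1) e with h1 | h1
  · exact coeff_eq_zero_of_natDegree_lt (lt_of_le_of_lt (hf.2 w hw) h1)
  · have h2 : e = d + 1 := by omega
    subst h2
    exact congrFun h ⟨w, by omega⟩

/-- Part (a): the elements of pole order at most `N`. -/
theorem finite_part (hinj : Function.Injective ι) (N : ℕ) :
    ∃ C₁ : ℕ, ∀ d : ℕ, ∀ f ∈ Q L N d, D.deg f ≤ m * d + C₁ := by
  have hmono : Monotone fun d => (Q L N d).map (lc L N d) := by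
    refine monotone_nat_of_le_succ fun d => ?_
    rintro _ ⟨f, hf, rfl⟩
    refine ⟨s ^ 1 * f, s_pow_mul_mem L N d 1 f hf, lc_s_pow_mul L N d 1 f⟩
  obtain ⟨d₀, hd₀⟩ := WellFoundedGT.monotone_chain_condition
    (⟨fun d => (Q L N d).map (lc L N d), hmono⟩ : ℕ →o Submodule k (Fin (N + 1) → k))
  obtain ⟨B, hB⟩ := deg_bdd D (Q L N d₀) (Q_fg L hinj N d₀)
  have main : ∀ n : ℕ, ∀ f ∈ Q L N (d₀ + n), D.deg f ≤ m * n + B := by
    intro n
    induction n with
    | zero =>
      intro f hf
      have := hB f hf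
      omega
    | succ n ih =>
      intro f hf
      have h1 : lc L N (d₀ + (n + 1)) f ∈ (Q L N d₀).map (lc L N d₀) := by
        have h2 := hd₀ (d₀ + (n + 1)) (by omega)
        simp only [OrderHom.coe_mk] at h2
        rw [h2]
        exact ⟨f, hf, rfl⟩
      obtain ⟨g, hg, hgl⟩ := h1
      have h3 : f - s ^ (n + 1) * g ∈ Q L N (d₀ + n) := by
        refine mem_Q_of_lc L N (d₀ + n) _ ?_ ?_
        · exact Submodule.sub_mem _ hf (s_pow_mul_mem L N d₀ (n + 1) g hg)
        · have h4 := lc_s_pow_mul L N d₀ (n + 1) g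
          rw [← add_assoc] at h4 hgl
          rw [map_sub, h4, hgl, sub_self]
      have h5 := ih _ h3
      have h6 : D.deg (s ^ (n + 1) * g) ≤ m * (n + 1) + B := by
        refine (deg_mul_le D _ _).trans (Nat.add_le_add ?_ (hB g hg))
        refine (deg_pow_le D s (n + 1)).trans ?_
        rw [L.deg_s, mul_comm]
      have h7 := D.deg_add (f - s ^ (n + 1) * g) (s ^ (n + 1) * g)
      rw [sub_add_cancel] at h7
      refine h7.trans (max_le ?_ h6)
      refine h5.trans ?_
      rw [Nat.mul_succ]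
      omega
  refine ⟨B, fun d f hf => ?_⟩
  rcases Nat.lt_or_ge d d₀ with h | h
  · have h1 : f ∈ Q L N d₀ := ⟨hf.1, fun w hw => (hf.2 w hw).trans h.le⟩
    exact (hB f h1).trans (Nat.le_add_left _ _)
  · obtain ⟨n, rfl⟩ := Nat.exists_eq_add_of_le h
    refine (main n f hf).trans ?_
    rw [Nat.mul_add]
    omega

include L in
/-- Part (b): induction on the pole order. -/
theorem polar_main (hinj : Function.Injective ι) :
    ∃ C₁ : ℕ, ∀ w B : ℕ, ∀ f : A, (∀ i : ℤ, i < -(w : ℤ) → (ι f).coeff i = 0) →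
      (∀ v : ℕ, (ι f).coeff (-(v : ℤ)) ≠ 0 →
        ((ι f).coeff (-(v : ℤ))).natDegree + (κ * (1 + M) + 1) * v ≤ B) →
      D.deg f ≤ m * B + C₁ := by
  obtain ⟨C₁, hC₁⟩ := finite_part L hinj (M * j₁)
  refine ⟨C₁ + 1, fun w => ?_⟩
  induction w with
  | zero =>
    intro B f h1 h2
    have hQ : f ∈ Q L (M * j₁) B := by
      refine ⟨fun i hi => h1 i (by
        have h3 : (0 : ℤ) ≤ ((M * j₁ : ℕ) : ℤ) := Int.natCast_nonneg _
        omega), fun v hv => ?_⟩
      by_cases h0 : (ι f).coeff (-(v : ℤ)) = 0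
      · rw [h0, natDegree_zero]
        exact Nat.zero_le _
      · exact (Nat.le_add_right _ _).trans (h2 v h0)
    have := hC₁ B f hQ
    omega
  | succ w ih =>
    intro B f h1 h2
    by_cases hwN : w + 1 ≤ M * j₁
    · have hQ : f ∈ Q L (M * j₁) B := by
        refine ⟨fun i hi => h1 i (by omega), fun v hv => ?_⟩
        by_cases h0 : (ι f).coeff (-(v : ℤ)) = 0
        · rw [h0, natDegree_zero]
          exact Nat.zero_le _
        · exact (Nat.le_add_right _ _).trans (h2 v h0)
      have := hC₁ B f hQ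
      omega
    by_cases hP : (ι f).coeff (-((w + 1 : ℕ) : ℤ)) = 0
    · refine ih B f (fun i hi => ?_) h2
      by_cases hi' : i < -((w + 1 : ℕ) : ℤ)
      · exact h1 i hi'
      · have : i = -((w + 1 : ℕ) : ℤ) := by omega
        rw [this]
        exact hP
    have hMpos := L.M_pos
    obtain ⟨j, o, ho, hj, hjw, hjle⟩ : ∃ j o : ℕ, o < M ∧ j₁ ≤ j ∧ M * j = w + 1 + o ∧
        j ≤ w + 1 := by
      refine ⟨(w + 1 + (M - 1)) / M, M - 1 - (w + 1 + (M - 1)) % M, by omega, ?_, ?_, ?_⟩
      · rw [Nat.le_div_iff_mul_le hMpos, mul_comm]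
        omega
      · have h3 := Nat.div_add_mod (w + 1 + (M - 1)) M
        have h4 := Nat.mod_lt (w + 1 + (M - 1)) hMpos
        omega
      · rw [Nat.div_le_iff_le_mul_add_pred hMpos]
        have : w + 1 ≤ M * (w + 1) := Nat.le_mul_of_pos_left _ hMpos
        omega
    obtain ⟨e, hde, he1, he0⟩ := L.ex j o hj ho
    have hidx : (o : ℤ) - ((M * j : ℕ) : ℤ) = -((w + 1 : ℕ) : ℤ) := by
      rw [hjw]
      push_cast
      ring
    rw [hidx] at he1 he0
    set P := (ι f).coeff (-((w + 1 : ℕ) : ℤ)) with hPdef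
    have hPB := h2 (w + 1) hP
    rw [← hPdef] at hPB
    have hih : D.deg (f - aeval s P * e) ≤ m * B + (C₁ + 1) := by
      refine ih B (f - aeval s P * e) (fun i hi => ?_) (fun v hv => ?_)
      · rw [map_sub, HahnSeries.coeff_sub, coeff_aeval_mul L]
        by_cases hi' : i < -((w + 1 : ℕ) : ℤ)
        · rw [h1 i hi', he0 i hi', mul_zero, sub_zero]
        · have : i = -((w + 1 : ℕ) : ℤ) := by omega
          rw [this, he1, mul_one, ← hPdef, sub_self]
      · rw [map_sub, HahnSeries.coeff_sub, coeff_aeval_mul L] at hv ⊢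
        have hv' : v ≤ w := by
          by_contra hcon
          apply hv
          by_cases hi' : -(v : ℤ) < -((w + 1 : ℕ) : ℤ)
          · rw [h1 _ hi', he0 _ hi', mul_zero, sub_zero]
          · have : -(v : ℤ) = -((w + 1 : ℕ) : ℤ) := by omega
            rw [this, he1, mul_one, ← hPdef, sub_self]
        have hd1 : ((ι f).coeff (-(v : ℤ))).natDegree + (κ * (1 + M) + 1) * v ≤ B ∨
            (ι f).coeff (-(v : ℤ)) = 0 := by
          by_cases h0 : (ι f).coeff (-(v : ℤ)) = 0
          · exact Or.inr h0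
          · exact Or.inl (h2 v h0)
        have hd2 : (P * (ι e).coeff (-(v : ℤ))).natDegree + (κ * (1 + M) + 1) * v ≤ B := by
          have h5 := L.gr j e hde (-(v : ℤ))
          have h6 : (-(v : ℤ) + ((M * j : ℕ) : ℤ)).toNat ≤ (1 + M) * (w + 1 - v) := by
            rw [hjw]
            have h7 : (-(v : ℤ) + ((w + 1 + o : ℕ) : ℤ)).toNat = w + 1 + o - v := by omega
            rw [h7]
            have h8 : M * 1 ≤ M * (w + 1 - v) := Nat.mul_le_mul_left _ (by omega)
            have h9 : (1 + M) * (w + 1 - v) = (w + 1 - v) + M * (w + 1 - v) := by ring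
            omega
          have h10 : κ * (-(v : ℤ) + ((M * j : ℕ) : ℤ)).toNat ≤ κ * ((1 + M) * (w + 1 - v)) :=
            Nat.mul_le_mul_left _ h6
          have h11 : (P * (ι e).coeff (-(v : ℤ))).natDegree ≤
              P.natDegree + κ * ((1 + M) * (w + 1 - v)) :=
            natDegree_mul_le.trans (Nat.add_le_add_left (h5.trans h10) _)
          obtain ⟨u, hu⟩ := Nat.exists_eq_add_of_le (show v ≤ w + 1 by omega)
          rw [hu] at h11 hPB
          rw [Nat.add_sub_cancel_left] at h11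
          have h12 : (κ * (1 + M) + 1) * (v + u) =
            κ * ((1 + M) * u) + u + (κ * (1 + M) + 1) * v := by ring
          omega
        rcases hd1 with hd1 | hd1
        · have h13 := natDegree_sub_le ((ι f).coeff (-(v : ℤ))) (P * (ι e).coeff (-(v : ℤ)))
          have h14 : max ((ι f).coeff (-(v : ℤ))).natDegree
              (P * (ι e).coeff (-(v : ℤ))).natDegree + (κ * (1 + M) + 1) * v ≤ B := by
            rcases le_total ((ι f).coeff (-(v : ℤ))).natDegree
              (P * (ι e).coeff (-(v : ℤ))).natDegree with h | h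
            · rw [max_eq_right h]; exact hd2
            · rw [max_eq_left h]; exact hd1
          omega
        · rw [hd1, zero_sub, natDegree_neg]
          exact hd2
    have hdP : D.deg (aeval s P * e) ≤ m * B + (C₁ + 1) := by
      have h15 := deg_mul_le D (aeval s P) e
      have h16 := deg_aeval_le D s P
      rw [L.deg_s] at h16
      obtain ⟨r, hr⟩ := Nat.exists_eq_add_of_le hPB
      have h17 : m * B = m * P.natDegree + m * ((κ * (1 + M) + 1) * (w + 1) + r) := by
        rw [hr]; ring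
      have h18 : w + 1 ≤ m * ((κ * (1 + M) + 1) * (w + 1) + r) := by
        have h19 : (κ * (1 + M) + 1) * (w + 1) = κ * (1 + M) * (w + 1) + (w + 1) := by ring
        have h20 : (κ * (1 + M) + 1) * (w + 1) + r ≤ m * ((κ * (1 + M) + 1) * (w + 1) + r) :=
          Nat.le_mul_of_pos_left _ L.m_pos
        omega
      omega
    have h21 := D.deg_add (f - aeval s P * e) (aeval s P * e)
    rw [sub_add_cancel] at h21
    exact h21.trans (max_le hih hdP)

end lead

/-- Weighted degree bounds multiply. -/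
theorem weight_mul {k : Type} [Field k] (x y : LaurentSeries k[X]) (α β : ℕ) (l l' : ℤ)
    (hx : ∀ i : ℤ, x.coeff i ≠ 0 → (α : ℤ) * ((x.coeff i).natDegree : ℤ) ≤ l + β * i)
    (hy : ∀ i : ℤ, y.coeff i ≠ 0 → (α : ℤ) * ((y.coeff i).natDegree : ℤ) ≤ l' + β * i)
    (i : ℤ) (hi : (x * y).coeff i ≠ 0) :
    (α : ℤ) * (((x * y).coeff i).natDegree : ℤ) ≤ l + l' + β * i := by
  rw [HahnSeries.coeff_mul] at hi ⊢
  set T := Finset.antidiagonal x.isPWO_support y.isPWO_support i with hT
  have key : ∀ q ∈ T, (α : ℤ) * ((x.coeff q.1 * y.coeff q.2).natDegree : ℤ) ≤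
      l + l' + β * i := by
    intro q hq
    rw [hT, Finset.mem_antidiagonal] at hq
    obtain ⟨h1, h2, h3⟩ := hq
    have h4 := hx q.1 h1
    have h5 := hy q.2 h2
    have h6 : (x.coeff q.1 * y.coeff q.2).natDegree =
        (x.coeff q.1).natDegree + (y.coeff q.2).natDegree := natDegree_mul h1 h2
    rw [h6, ← h3]
    push_cast
    linarith
  have hne : T.Nonempty := by
    rw [Finset.nonempty_iff_ne_empty]
    rintro h
    rw [h, Finset.sum_empty] at hi
    exact hi rfl
  obtain ⟨q, hq, hmax⟩ := Finset.exists_max_image T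
    (fun q => (x.coeff q.1 * y.coeff q.2).natDegree) hne
  have h7 : (∑ q ∈ T, x.coeff q.1 * y.coeff q.2).natDegree ≤
      (x.coeff q.1 * y.coeff q.2).natDegree :=
    natDegree_sum_le_of_forall_le T _ hmax
  refine le_trans ?_ (key q hq)
  exact mul_le_mul_of_nonneg_left (by exact_mod_cast h7) (by positivity)

theorem weight_pow {k : Type} [Field k] (x : LaurentSeries k[X]) (α β lam : ℕ)
    (hx : ∀ i : ℤ, x.coeff i ≠ 0 → (α : ℤ) * ((x.coeff i).natDegree : ℤ) ≤ lam + β * i)
    (n : ℕ) : ∀ i : ℤ, (x ^ n).coeff i ≠ 0 →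
      (α : ℤ) * (((x ^ n).coeff i).natDegree : ℤ) ≤ ((n * lam : ℕ) : ℤ) + β * i := by
  induction n with
  | zero =>
    intro i hi
    rw [pow_zero, HahnSeries.coeff_one] at hi ⊢
    by_cases h : i = 0
    · subst h
      simp
    · rw [if_neg h] at hi
      exact absurd rfl hi
  | succ n ih =>
    intro i hi
    rw [pow_succ] at hi ⊢
    have h := weight_mul (x ^ n) x α β _ _ ih hx i hi
    push_cast at h ⊢
    linarith

end LeadC

variable {k A : Type} [Field k] [CommRing A] [IsDomain A] [Algebra k A] (D : DegFun k A)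
  (s : A) (ι : A →+* LaurentSeries k[X]) (m M j₁ κ : ℕ) (L : Lead D s ι m M j₁ κ)

include L in
/-- The degree is controlled by the coefficients of non positive index. -/
theorem lead_polar_bound (hinj : Function.Injective ι) :
    ∃ C₀ C₁ : ℕ, ∀ f : A, f ≠ 0 → ∃ w : ℕ, (ι f).coeff (-(w : ℤ)) ≠ 0 ∧
      D.deg f ≤ m * ((ι f).coeff (-(w : ℤ))).natDegree + C₀ * w + C₁ := by
  classical
  obtain ⟨C₁, hC₁⟩ := LeadC.polar_main L hinj
  refine ⟨m * (κ * (1 + M) + 1), C₁, fun f hf => ?_⟩
  have hbd : ∀ i : ℤ, i < -((M * D.deg f : ℕ) : ℤ) → (ι f).coeff i = 0 :=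
    L.bd (D.deg f) f le_rfl
  have hne : ((Finset.range (M * D.deg f + 1)).filter
      fun v : ℕ => (ι f).coeff (-(v : ℤ)) ≠ 0).Nonempty := by
    by_contra hcon
    apply hf
    refine LeadC.eq_zero L hinj f fun i hi => ?_
    by_cases hi' : i < -((M * D.deg f : ℕ) : ℤ)
    · exact hbd i hi'
    · obtain ⟨v, rfl⟩ : ∃ v : ℕ, i = -(v : ℤ) := ⟨i.natAbs, by omega⟩
      by_contra hv
      exact hcon ⟨v, Finset.mem_filter.2 ⟨Finset.mem_range.2 (by omega), hv⟩⟩
  obtain ⟨w, hw, hmax⟩ := Finset.exists_max_image _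
    (fun v : ℕ => ((ι f).coeff (-(v : ℤ))).natDegree + (κ * (1 + M) + 1) * v) hne
  rw [Finset.mem_filter] at hw
  refine ⟨w, hw.2, ?_⟩
  have h1 := hC₁ (M * D.deg f)
    (((ι f).coeff (-(w : ℤ))).natDegree + (κ * (1 + M) + 1) * w) f hbd ?_
  · refine h1.trans (le_of_eq ?_)
    ring
  · intro v hv
    refine hmax v (Finset.mem_filter.2 ⟨Finset.mem_range.2 ?_, hv⟩)
    by_contra hcon
    exact hv (hbd _ (by omega))

include L in
/-- Asymptotic form (apply the preceding statement to the powers of `g`). -/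
theorem lead_degree (C₀ C₁ : ℕ) (h : ∀ f : A, f ≠ 0 → ∃ w : ℕ,
      (ι f).coeff (-(w : ℤ)) ≠ 0 ∧
      D.deg f ≤ m * ((ι f).coeff (-(w : ℤ))).natDegree + C₀ * w + C₁) :
    ∀ (α β lam : ℕ), 1 ≤ α → C₀ * α ≤ β → ∀ g : A,
      (∀ i : ℤ, (ι g).coeff i ≠ 0 →
        (α : ℤ) * (((ι g).coeff i).natDegree : ℤ) ≤ lam + β * i) →
      α * D.deg g ≤ m * lam := by
  intro α β lam hα hβ g hg
  by_cases hg0 : g = 0
  · rw [hg0, LeadC.deg_zero, mul_zero]
    exact Nat.zero_le _
  have key : ∀ N : ℕ, N * (α * D.deg g) ≤ N * (m * lam) + α * C₁ := by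
    intro N
    obtain ⟨w, hw, hdeg⟩ := h (g ^ N) (pow_ne_zero N hg0)
    rw [map_pow] at hw hdeg
    have h1 := LeadC.weight_pow (ι g) α β lam hg N (-(w : ℤ)) hw
    rw [LeadC.deg_pow D g hg0] at hdeg
    set nd := (((ι g) ^ N).coeff (-(w : ℤ))).natDegree with hnd
    have h2 : α * nd + β * w ≤ N * lam := by
      have h3 : ((α * nd + β * w : ℕ) : ℤ) ≤ ((N * lam : ℕ) : ℤ) := by
        push_cast at h1 ⊢
        linarith
      exact_mod_cast h3
    have h4 : m * (α * nd + β * w) ≤ m * (N * lam) := Nat.mul_le_mul_left _ h2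
    have h5 : α * (N * D.deg g) ≤ α * (m * nd + C₀ * w + C₁) := Nat.mul_le_mul_left _ hdeg
    have h6 : C₀ * α * w ≤ β * w := Nat.mul_le_mul_right _ hβ
    have h7 : β * w ≤ m * (β * w) := Nat.le_mul_of_pos_left _ L.m_pos
    calc N * (α * D.deg g) = α * (N * D.deg g) := by ring
      _ ≤ α * (m * nd + C₀ * w + C₁) := h5
      _ = m * (α * nd) + C₀ * α * w + α * C₁ := by ring
      _ ≤ m * (α * nd) + m * (β * w) + α * C₁ := by
        exact Nat.add_le_add_right (Nat.add_le_add_left (h6.trans h7) _) _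
      _ = m * (α * nd + β * w) + α * C₁ := by ring
      _ ≤ m * (N * lam) + α * C₁ := Nat.add_le_add_right h4 _
      _ = N * (m * lam) + α * C₁ := by ring
  by_contra hcon
  have h8 := key (α * C₁ + 1)
  have h9 : (α * C₁ + 1) * (m * lam + 1) ≤ (α * C₁ + 1) * (α * D.deg g) :=
    Nat.mul_le_mul_left _ (by omega)
  have h10 : (α * C₁ + 1) * (m * lam + 1) = (α * C₁ + 1) * (m * lam) + (α * C₁ + 1) := by ring
  omega

end Pool.Agent.K1
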