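import Pool.Agent.K1.L2Exp
import Pool.Agent.K1.L2Chart
import Pool.Agent.K1.L2Chart2
import Pool.Agent.K1.L2ChartTr
import Pool.Agent.K1.L2Curve
import Pool.Agent.K1.L2Growth
import Pool.Agent.K1.L2Iota
import Pool.Agent.K1.L2Lead
import Pool.Agent.K1.L2LeadA
import Pool.Agent.K1.L2LeadB
import Pool.Agent.K1.L2LeadC
import Pool.Agent.K1.L2InV

/-!
Layer 2, assembly: every ring with a degree function has an expansion along a section.
-/

open Polynomial

namespace Pool.Agent.K1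

namespace L2Main

/-- Leading coefficient of `ι f` when the leading form does not vanish at the point. -/
theorem lead_coeff {k A E : Type} [Field k] [CommRing A] [IsDomain A] [Algebra k A]
    [CommRing E] [IsDomain E] [Algebra k E] (θ : ℕ → A → E)
    (x₀ : E →ₐ[k] k) (τ φ : E) (M m : ℕ)
    (exp : E →+* PowerSeries k[X]) (hexp : IsExp x₀ (θ 1 1) τ φ M m exp)
    (ι : A →+* LaurentSeries k[X]) (a : A) (d : ℕ)
    (hι : ι a * (HahnSeries.ofPowerSeries ℤ k[X] (exp (θ 1 1))) ^ d =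
          HahnSeries.ofPowerSeries ℤ k[X] (exp (θ d a))) (hx : x₀ (θ d a) ≠ 0) :
    ∃ c : k, c ≠ 0 ∧ (ι a).coeff (-((2 * M * d : ℕ) : ℤ)) = C c := by
  obtain ⟨v, hv⟩ := hexp.exp_t
  have hu : IsUnit (PowerSeries.constantCoeff ((v⁻¹ : (PowerSeries k[X])ˣ) : PowerSeries k[X])) :=
    (Units.isUnit v⁻¹).map (PowerSeries.constantCoeff (R := k[X]))
  obtain ⟨u, hu0, hu1⟩ := Polynomial.isUnit_iff.1 hu
  refine ⟨x₀ (θ d a) * u ^ d, mul_ne_zero hx (pow_ne_zero _ hu0.ne_zero), ?_⟩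
  have key : ι a * (HahnSeries.single (((2 * M * d : ℕ) : ℤ)) (1 : k[X])) =
      HahnSeries.ofPowerSeries ℤ k[X] (exp (θ d a) *
        (((v⁻¹ : (PowerSeries k[X])ˣ) : PowerSeries k[X])) ^ d) := by
    have h1 : HahnSeries.ofPowerSeries ℤ k[X] (v : PowerSeries k[X]) *
        HahnSeries.ofPowerSeries ℤ k[X] ((v⁻¹ : (PowerSeries k[X])ˣ) : PowerSeries k[X]) = 1 := by
      rw [← map_mul, Units.mul_inv, map_one]
    have h2 : (HahnSeries.ofPowerSeries ℤ k[X] (PowerSeries.X : PowerSeries k[X])) ^ (2 * M * d) =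
        HahnSeries.single (((2 * M * d : ℕ) : ℤ)) (1 : k[X]) := by
      rw [← map_pow, HahnSeries.ofPowerSeries_X_pow]
    rw [map_mul, ← hι, hv, map_mul, map_pow, map_pow, mul_pow, ← pow_mul, h2]
    calc ι a * HahnSeries.single (((2 * M * d : ℕ) : ℤ)) (1 : k[X])
        = ι a * HahnSeries.single (((2 * M * d : ℕ) : ℤ)) (1 : k[X]) *
          (HahnSeries.ofPowerSeries ℤ k[X] (v : PowerSeries k[X]) *
            HahnSeries.ofPowerSeries ℤ k[X]
              ((v⁻¹ : (PowerSeries k[X])ˣ) : PowerSeries k[X])) ^ d := by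
            rw [h1, one_pow, mul_one]
      _ = _ := by rw [mul_pow]; ring
  have h2 : (ι a).coeff (-((2 * M * d : ℕ) : ℤ)) =
      (ι a * (HahnSeries.single (((2 * M * d : ℕ) : ℤ)) (1 : k[X]))).coeff 0 := by
    have := HahnSeries.coeff_mul_single_add (r := (1 : k[X])) (x := ι a)
      (a := -((2 * M * d : ℕ) : ℤ)) (b := ((2 * M * d : ℕ) : ℤ))
    rw [neg_add_cancel, mul_one] at this
    exact this.symm
  rw [h2, key]
  have h3 : (HahnSeries.ofPowerSeries ℤ k[X] (exp (θ d a) *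
        (((v⁻¹ : (PowerSeries k[X])ˣ) : PowerSeries k[X])) ^ d)).coeff 0 =
      PowerSeries.coeff 0 (exp (θ d a) *
        (((v⁻¹ : (PowerSeries k[X])ˣ) : PowerSeries k[X])) ^ d) := by
    have := HahnSeries.ofPowerSeries_apply_coeff (Γ := ℤ) (exp (θ d a) *
        (((v⁻¹ : (PowerSeries k[X])ˣ) : PowerSeries k[X])) ^ d) 0
    simpa using this
  rw [h3, PowerSeries.coeff_zero_eq_constantCoeff_apply, map_mul, map_pow, hexp.const, ← hu1]
  simp

end L2Main

theorem exists_sectionExp (p : ℕ) [Fact p.Prime] {k A : Type} [Field k] [IsAlgClosed k]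
    [CharP k p] [Algebra (ZMod p) k] [Algebra.IsAlgebraic (ZMod p) k] [CommRing A] [IsDomain A]
    [Algebra k A] (D : DegFun k A) (hA : Algebra.trdeg k A = 2) (hdepth : Depth2 A)
    (H : Finset A) (hH : ∀ a ∈ H, a ≠ 0) :
    ∃ E : SectionExp k A, (∀ a ∈ H, ∃ G : Finset A, ∀ f : A, ∃ (q : A) (P : A → k[X]),
      f = a * q + ∑ g ∈ G, aeval E.s (P g) * g) ∧
      ∃ C : ℕ, ∀ n M : ℕ, 1 ≤ n → C * n ≤ M → ∀ a a' : A, E.InV n M a → E.InV n M a' →
        D.deg (a - a') < D.deg a := by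
  classical
  obtain ⟨U, hU⟩ := exists_deg_one D hA
  obtain ⟨E, instE, instAE, θ, hEdom, hEfin, hEtr, hch⟩ := exists_chart D U hU
  have hprime := chart_prime D U θ hch
  have hEn : IsNoetherianRing E := Algebra.FiniteType.isNoetherianRing k E
  have hIp : (Ideal.span {θ 1 1}).IsPrime :=
    (Ideal.span_singleton_prime hprime.ne_zero).2 hprime
  have hCdom : IsDomain (E ⧸ Ideal.span {θ 1 1}) := Ideal.Quotient.isDomain _
  obtain ⟨W, hWfg, hW1, hWgen, hW⟩ := chart_W D U θ hch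
  obtain ⟨hinf, hdep⟩ := chart_trdeg D U θ hch hA hEtr
  set mk : E →+* E ⧸ Ideal.span {θ 1 1} := Ideal.Quotient.mk _ with hmk
  have hmks : Function.Surjective mk := Ideal.Quotient.mk_surjective
  set g : E ⧸ Ideal.span {θ 1 1} := ∏ a ∈ H, mk (θ (D.deg a) a) with hg
  have hg0 : g ≠ 0 := by
    rw [hg, Finset.prod_ne_zero_iff]
    intro a ha h0
    rw [hmk, Ideal.Quotient.eq_zero_iff_mem, Ideal.mem_span_singleton] at h0
    rcases hch.dvd _ _ le_rfl h0 with h1 | h1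
    · exact hH a ha h1
    · exact lt_irrefl _ h1
  obtain ⟨x₁, τ₁, e₁, m, M, j₁, b, hx, hxg, hm, hM, hj, hbW, hbs, hF⟩ :=
    curve_main p hinf hdep W hWfg hW1 hWgen g hg0
  obtain ⟨f₁, hf₁, hf₁b⟩ := (hW m b).1 hbW
  obtain ⟨τ, hτ⟩ := hmks τ₁
  set x₀ : E →ₐ[k] k := x₁.comp (Ideal.Quotient.mkₐ k (Ideal.span {θ 1 1})) with hx₀
  have hx₀a : ∀ y, x₀ y = x₁ (mk y) := fun y => rfl
  have hb0 : b ≠ 0 := by
    intro hb
    have h1 : τ₁ ^ M ∈ (RingHom.ker x₁) ^ M := Ideal.pow_mem_pow hx.hτ M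
    rw [← hbs, hb, Ideal.mem_span_singleton, zero_dvd_iff] at h1
    exact hx.τ0 (pow_eq_zero_iff (by omega) |>.1 h1)
  have hmapker : Ideal.map mk (RingHom.ker x₀) = RingHom.ker x₁ := by
    apply le_antisymm
    · rw [Ideal.map_le_iff_le_comap]
      intro y hy
      exact hy
    · intro c hc
      obtain ⟨y, rfl⟩ := hmks c
      exact Ideal.mem_map_of_mem _ hc
  have hkermk : ∀ (I : Ideal E) (y : E), mk y ∈ Ideal.map mk I → y ∈ I ⊔ Ideal.span {θ 1 1} := by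
    intro I y hy
    have h1 : y ∈ Ideal.comap mk (Ideal.map mk I) := hy
    rw [Ideal.comap_map_of_surjective mk hmks] at h1
    have h2 : Ideal.comap mk ⊥ = Ideal.span {θ 1 1} := by
      rw [← RingHom.ker_eq_comap_bot, hmk, Ideal.mk_ker]
    rwa [h2] at h1
  have hker₁ : RingHom.ker x₁ ≤ Ideal.span {τ₁} ⊔ (RingHom.ker x₁) ^ 2 := by
    intro y hy
    have h1 : y = e₁ * y + (1 - e₁) * y := by ring
    rw [h1]
    refine Ideal.add_mem _ (Ideal.mem_sup_left ?_) (Ideal.mem_sup_right ?_)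
    · exact Ideal.mem_span_singleton.2 (hx.dvd y hy)
    · rw [pow_two]
      refine Ideal.mul_mem_mul ?_ hy
      change x₁ (1 - e₁) = 0
      rw [map_sub, map_one, hx.he, sub_self]
  have hker : RingHom.ker x₀ ≤ Ideal.span {θ 1 1, τ} ⊔ (RingHom.ker x₀) ^ 2 := by
    intro y hy
    have h1 : mk y ∈ Ideal.map mk (Ideal.span {τ} ⊔ (RingHom.ker x₀) ^ 2) := by
      rw [Ideal.map_sup, Ideal.map_span, Set.image_singleton, Ideal.map_pow, hmapker, hτ]
      exact hker₁ hy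
    have h2 := hkermk _ _ h1
    rw [Ideal.span_insert]
    have h3 : Ideal.span {τ} ⊔ (RingHom.ker x₀) ^ 2 ⊔ Ideal.span {θ 1 1} ≤
        Ideal.span {θ 1 1} ⊔ Ideal.span {τ} ⊔ (RingHom.ker x₀) ^ 2 := by
      refine sup_le (sup_le ?_ ?_) ?_
      · exact le_sup_of_le_left le_sup_right
      · exact le_sup_right
      · exact le_sup_of_le_left le_sup_left
    exact h3 h2
  have hφ : θ m f₁ ∈ (RingHom.ker x₀) ^ M ⊔ Ideal.span {θ 1 1} := by
    apply hkermk
    rw [Ideal.map_pow, hmapker, ← hbs]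
    rw [show mk (θ m f₁) = b from hf₁b]
    exact Ideal.mem_span_singleton_self b
  have hτM : τ ^ M ∈ Ideal.span {θ m f₁, θ 1 1} := by
    rw [Ideal.span_insert]
    apply hkermk
    rw [Ideal.map_span, Set.image_singleton, show mk (θ m f₁) = b from hf₁b, hbs, map_pow, hτ]
    exact Ideal.pow_mem_pow hx.hτ M
  have hφt : ¬ θ 1 1 ∣ θ m f₁ := by
    intro h1
    apply hb0
    rw [← hf₁b]
    exact (Ideal.Quotient.eq_zero_iff_mem).2 (Ideal.mem_span_singleton.2 h1)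
  have ht0 : x₀ (θ 1 1) = 0 := by
    rw [hx₀a]
    have : mk (θ 1 1) = 0 :=
      (Ideal.Quotient.eq_zero_iff_mem).2 (Ideal.mem_span_singleton_self _)
    rw [this, map_zero]
  have hτ0 : x₀ τ = 0 := by
    rw [hx₀a, hτ]
    exact hx.hτ
  have hφ0 : x₀ (θ m f₁) = 0 := by
    rw [hx₀a, show mk (θ m f₁) = b from hf₁b]
    have h1 : b ∈ (RingHom.ker x₁) ^ M := by
      rw [← hbs]
      exact Ideal.mem_span_singleton_self b
    exact Ideal.pow_le_self (by omega) h1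
  obtain ⟨exp, hexp⟩ := exists_exp x₀ (θ 1 1) τ (θ m f₁) M (2 * m) hM (by omega) hprime ht0 hτ0
    hker hφ hτM hφt
  have hgr := exp_growth x₀ (θ 1 1) τ (θ m f₁) M (2 * m) hM (by omega) ht0 hτ0 hφ0 hker exp hexp
  obtain ⟨ι, hιinj, hιC, hιs, hι, κ, hκ⟩ :=
    exists_iota D U θ hch x₀ τ f₁ M m hM hm exp hf₁ hexp hgr
  obtain ⟨j₂, L⟩ := exists_lead D U θ hch W hW1 hWgen hW x₁ τ₁ e₁ hx τ hτ m M j₁ hm hM hj f₁ hf₁
    (by rw [hf₁b]; exact hbs)
    (fun j hj c hc hc' => by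
      obtain ⟨c', h1, h2⟩ := hF j hj c hc hc'
      exact ⟨c', h1, by rw [hf₁b]; exact h2⟩) exp hexp ι hιC hιs hι κ hκ
  let SE : SectionExp k A :=
    { s := f₁ ^ 2 + U ^ (2 * m - 1)
      ι := ι
      inj := hιinj
      ι_C := hιC
      ι_s := hιs
      pole := fun f hf => lead_pole D _ ι (2 * m) (2 * M) j₂ κ L hιinj f hf
      mono := lead_mono D _ ι (2 * m) (2 * M) j₂ κ L
      fibre := fun c f hf => lead_fibre D _ ι (2 * m) (2 * M) j₂ κ L hdepth c f hf
      growth := ⟨κ, fun f => ⟨κ * (2 * M * D.deg f), fun i => by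
        refine (L.gr (D.deg f) f le_rfl i).trans ?_
        rw [← mul_add]
        apply Nat.mul_le_mul_left
        omega⟩⟩ }
  refine ⟨SE, ?_, ?_⟩
  · intro a ha
    have hxa : x₀ (θ (D.deg a) a) ≠ 0 := by
      intro h1
      apply hxg
      rw [hg, map_prod]
      exact Finset.prod_eq_zero ha h1
    obtain ⟨c, hc, hca⟩ := L2Main.lead_coeff θ x₀ τ (θ m f₁) M (2 * m) exp hexp ι a (D.deg a)
      (hι (D.deg a) a le_rfl) hxa
    exact lead_finite D _ ι (2 * m) (2 * M) j₂ κ L (D.deg a) a le_rfl c hc hca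
  · obtain ⟨C₀, C₁, hC⟩ := lead_polar_bound D _ ι (2 * m) (2 * M) j₂ κ L hιinj
    have hdeg := lead_degree D _ ι (2 * m) (2 * M) j₂ κ L C₀ C₁ hC
    have hs : D.deg SE.s = 2 * m := L.deg_s
    refine inV_deg D SE (by rw [hs]; omega) C₀ ?_
    intro α β lam hα hβ g hg'
    rw [hs]
    exact hdeg α β lam hα hβ g hg'

end Pool.Agent.K1
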