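import Pool.Agent.K1.AffMainOf
import Pool.Agent.K1.L2Main
import Pool.Agent.K1.L2Regular

/-!
Layer 2 for regular rings of finite type of dimension two.
-/

open Polynomial

namespace Pool.Agent.K1

/-- Layer 2 for regular rings of finite type of dimension two. -/
theorem expMain (p : ℕ) [Fact p.Prime] {k A : Type} [Field k] [IsAlgClosed k]
    [CharP k p] [Algebra (ZMod p) k] [Algebra.IsAlgebraic (ZMod p) k] [CommRing A] [IsDomain A]
    [Algebra k A] [Algebra.FiniteType k A] [IsRegularRing A] (hdim : ringKrullDim A = 2)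
    (D : DegFun k A) : ExpMain k A D := fun H hH =>
  exists_sectionExp p D (trdeg_of_dim hdim)
    (depth2_of_regular fun 𝔪 _ => height_of_maximal (k := k) hdim 𝔪) H hH

/-- Layers 1 and 2, from the conclusion of layer 1. -/
theorem aff_main_of_sec (p : ℕ) [Fact p.Prime] {k A : Type} [Field k] [IsAlgClosed k]
    [CharP k p] [Algebra (ZMod p) k] [Algebra.IsAlgebraic (ZMod p) k] [CommRing A] [IsDomain A]
    [Algebra k A] [Algebra.FiniteType k A] [IsRegularRing A] (hdim : ringKrullDim A = 2)
    (D : DegFun k A) (hsec : SecMain k A) : AffMain k A D :=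
  aff_main_of hdim D hsec (expMain p hdim D)

end Pool.Agent.K1
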