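import Mathlib

/-!
Automorphisms of a splitting field induced by an automorphism of an arbitrary extension field.
-/

set_option autoImplicit false

open Polynomial

namespace Pool.Agent.K1

/-- Let `σ` be an automorphism of a field `L` which fixes `K` pointwise. Then `σ` and an
automorphism `gal` of the splitting field of `f` over `K` are compatible inside a common
extension field `Ω`. -/
theorem exists_gal {K : Type} [Field K] (f : K[X]) (hf : f ≠ 0) {L : Type} [Field L]
    (i : K →+* L) (σ : L ≃+* L) (hσ : ∀ a, σ (i a) = i a) :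
    ∃ (Ω : Type) (_ : Field Ω) (j : f.SplittingField →+* Ω) (e : L →+* Ω)
      (gal : f.SplittingField ≃ₐ[K] f.SplittingField) (τ : Ω ≃+* Ω),
      (∀ a, j (algebraMap K f.SplittingField a) = e (i a)) ∧
      (∀ x, τ (e x) = e (σ x)) ∧ (∀ y, j (gal y) = τ (j y)) ∧
      ∀ r : L, f.eval₂ i r = 0 → ∃ ρ ∈ f.rootSet f.SplittingField, j ρ = e r := by
  let _ : Algebra K L := i.toAlgebra
  let Ω := AlgebraicClosure L
  let E := f.SplittingField
  let j : E →ₐ[K] Ω := Polynomial.SplittingField.lift f (IsAlgClosed.splits _)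
  let _ : Algebra E Ω := j.toRingHom.toAlgebra
  have htow : IsScalarTower K E Ω := IsScalarTower.of_algebraMap_eq fun x => (j.commutes x).symm
  let τ : Ω ≃+* Ω := IsAlgClosure.equivOfEquiv Ω Ω σ
  have hτ : ∀ x : L, τ (algebraMap L Ω x) = algebraMap L Ω (σ x) := fun x =>
    IsAlgClosure.equivOfEquiv_algebraMap Ω Ω σ x
  let τ' : Ω ≃ₐ[K] Ω := AlgEquiv.ofRingEquiv (f := τ) (by
    intro a
    have h1 : algebraMap K Ω a = algebraMap L Ω (i a) := IsScalarTower.algebraMap_apply K L Ω a
    rw [h1, hτ, hσ])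
  refine ⟨Ω, inferInstance, j.toRingHom, algebraMap L Ω, τ'.restrictNormal E, τ, ?_, hτ, ?_, ?_⟩
  · intro a
    have h1 : algebraMap K Ω a = algebraMap L Ω (i a) := IsScalarTower.algebraMap_apply K L Ω a
    rw [← h1]
    exact j.commutes a
  · intro y
    exact τ'.restrictNormal_commutes E y
  · intro r hr
    have h1 : algebraMap L Ω r ∈ f.rootSet Ω := by
      rw [mem_rootSet_of_ne hf]
      have h2 : (aeval (algebraMap L Ω r)) f = algebraMap L Ω (aeval r f) :=
        aeval_algebraMap_apply Ω r f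
      rw [h2]
      have h3 : aeval r f = f.eval₂ i r := rfl
      rw [h3, hr, map_zero]
    rw [← (SplittingField.splits f).image_rootSet j] at h1
    obtain ⟨ρ, hρ, h2⟩ := h1
    exact ⟨ρ, hρ, h2⟩

/-- The orbit of a root under an automorphism of a bigger field gives a cycle of the Galois
group. -/
theorem exists_cycle {K : Type} [Field K] (f : K[X]) (hf : f ≠ 0) {L : Type} [Field L]
    (i : K →+* L) (σ : L ≃+* L) (hσ : ∀ a, σ (i a) = i a) (r : L) (hr : f.eval₂ i r = 0)
    (l : ℕ) [NeZero l] (hper : σ^[l] r = r)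
    (hinj : ∀ a < l, ∀ b < l, σ^[a] r = σ^[b] r → a = b) :
    ∃ (gal : f.SplittingField ≃ₐ[K] f.SplittingField) (ρ : ZMod l → f.SplittingField),
      Function.Injective ρ ∧ (∀ i, ρ i ∈ f.rootSet f.SplittingField) ∧
      ∀ i, gal (ρ i) = ρ (i + 1) := by
  obtain ⟨Ω, _, j, e, gal, τ, h1, h2, h3, h4⟩ := exists_gal f hf i σ hσ
  obtain ⟨ρ0, hρ0, hj0⟩ := h4 r hr
  have hτ : ∀ a : ℕ, j (gal^[a] ρ0) = e (σ^[a] r) := by
    intro a
    induction a with
    | zero => exact hj0
    | succ a ih => rw [Function.iterate_succ_apply', Function.iterate_succ_apply', h3, ih, h2]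
  have hper' : gal^[l] ρ0 = ρ0 := by
    apply j.injective
    rw [hτ, hper, hj0]
  have hmod : ∀ m : ℕ, gal^[m % l] ρ0 = gal^[m] ρ0 := fun m =>
    Function.IsPeriodicPt.iterate_mod_apply hper' m
  refine ⟨gal, fun i => gal^[i.val] ρ0, ?_, ?_, ?_⟩
  · intro a b hab
    have h5 := congrArg j hab
    simp only at h5
    rw [hτ, hτ] at h5
    exact ZMod.val_injective l (hinj _ (ZMod.val_lt a) _ (ZMod.val_lt b) (e.injective h5))
  · intro i
    simp only
    generalize i.val = m
    induction m with
    | zero => exact hρ0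
    | succ m ih =>
        rw [Function.iterate_succ_apply', mem_rootSet_of_ne hf] at *
        have h6 : (aeval (gal (gal^[m] ρ0))) f = gal (aeval (gal^[m] ρ0) f) :=
          aeval_algHom_apply gal.toAlgHom (gal^[m] ρ0) f
        rw [h6, ih, map_zero]
  · intro i
    simp only
    rw [← Function.iterate_succ_apply' gal i.val ρ0, ← hmod (i.val + 1)]
    congr 2
    rw [ZMod.val_add, ZMod.val_one_eq_one_mod]
    simp

end Pool.Agent.K1
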