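import Pool.Agent.K1.LocFacts
import Pool.Agent.K1.OneLeafDef

/-!
K1-23: general position inside a class of curves.
-/

set_option autoImplicit false

open Polynomial

namespace Pool.Agent.K1

namespace GenPos

variable {k A : Type} [Field k] [CommRing A] [Algebra k A]

/-- span of the products of at most `m` elements of `H` -/
def Prods (k : Type) {A : Type} [Field k] [CommRing A] [Algebra k A] (H : Finset A) (m : ℕ) :
    Submodule k A :=
  Submodule.span k {b : A | ∃ l : List A, l.length ≤ m ∧ (∀ a ∈ l, a ∈ H) ∧ b = l.prod}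

theorem prods_mul (H : Finset A) (m : ℕ) (h : A) (hh : h ∈ H) (b : A) (hb : b ∈ Prods k H m) :
    h * b ∈ Prods k H (m + 1) := by
  unfold Prods at hb ⊢
  induction hb using Submodule.span_induction with
  | mem b hb =>
    obtain ⟨l, hl, hlH, rfl⟩ := hb
    refine Submodule.subset_span ⟨h :: l, by simpa using hl, ?_, by simp⟩
    intro a ha
    rcases List.mem_cons.1 ha with rfl | ha
    · exact hh
    · exact hlH a ha
  | zero => simp
  | add b c _ _ hb hc =>
    rw [mul_add]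
    exact Submodule.add_mem _ hb hc
  | smul t b _ hb =>
    rw [mul_smul_comm]
    exact Submodule.smul_mem _ _ hb

theorem prods_mono (H : Finset A) {m n : ℕ} (h : m ≤ n) : Prods k H m ≤ Prods k H n := by
  unfold Prods
  apply Submodule.span_mono
  rintro b ⟨l, hl, hlH, rfl⟩
  exact ⟨l, hl.trans h, hlH, rfl⟩

theorem pow_mem_prods (H : Finset A) (h : A) (hh : h ∈ H) (c : k) (m : ℕ) :
    (h - algebraMap k A c) ^ m ∈ Prods k H m := by
  induction m with
  | zero =>
    exact Submodule.subset_span ⟨[], by simp, by simp, by simp⟩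
  | succ m ih =>
    have h1 : (h - algebraMap k A c) ^ (m + 1) = h * (h - algebraMap k A c) ^ m -
        c • (h - algebraMap k A c) ^ m := by
      rw [pow_succ, Algebra.smul_def]
      ring
    rw [h1]
    exact Submodule.sub_mem _ (prods_mul H m h hh _ ih)
      (Submodule.smul_mem _ _ (prods_mono H (Nat.le_succ m) ih))

/-- the Wronskian of `r` and `g` as a linear map in `r` -/
def wr (D : Derivation k A A) (g : A) : A →ₗ[k] A where
  toFun r := r * D g - g * D r
  map_add' a b := by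
    rw [map_add]
    ring
  map_smul' c a := by
    rw [D.map_smul, RingHom.id_apply, smul_sub, smul_mul_assoc, mul_smul_comm]

theorem wr_apply (D : Derivation k A A) (g r : A) : wr D g r = r * D g - g * D r := rfl

theorem deriv_sub_const (D : Derivation k A A) (h : A) (c : k) :
    D (h - algebraMap k A c) = D h := by
  rw [map_sub, D.map_algebraMap, sub_zero]

theorem wr_pow (D : Derivation k A A) (g l : A) (J : ℕ) :
    wr D g (l ^ (J + 1)) - l * wr D g (l ^ J) = - (g * l ^ J * D l) := by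
  rw [wr_apply, wr_apply]
  have h1 : D (l ^ (J + 1)) = l ^ J * D l + l * D (l ^ J) := by
    rw [pow_succ, D.leibniz, smul_eq_mul, smul_eq_mul]
  rw [h1]
  ring

theorem exists_sep [IsDomain A] (H : Finset A) (hH : Algebra.adjoin k (H : Set A) = ⊤)
    (x z : A →ₐ[k] k) (hxz : z ≠ x) : ∃ h ∈ H, z h ≠ x h := by
  by_contra hcon
  push Not at hcon
  apply hxz
  apply AlgHom.ext_of_adjoin_eq_top hH
  intro a ha
  exact hcon a ha

/-- choice of `r0` -/
theorem exists_r0 [IsDomain A] [Infinite k] (D : Derivation k A A)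
    (H : Finset A) (hH : Algebra.adjoin k (H : Set A) = ⊤) (hD : ∃ h ∈ H, D h ≠ 0)
    (J : ℕ) (F : Finset A) (g : A)
    (hF : ∀ f ∈ F, (Ideal.span {f}).IsPrime)
    (hsmall : ∀ f ∈ F, ∀ h ∈ H, ∀ c : k, h - algebraMap k A c ∈ Ideal.span {f} →
      h = algebraMap k A c)
    (hsmallD : ∀ f ∈ F, ∀ h ∈ H, D h ∈ Ideal.span {f} → D h = 0)
    (hg : ∀ f ∈ F, g ∉ Ideal.span {f})
    (x : A →ₐ[k] k) (Z : Set (A →ₐ[k] k)) (hZ : Z.Finite) (hxZ : x ∉ Z) :
    ∃ r ∈ Prods k H (J + 1), r ∈ RingHom.ker x ^ J ∧ (∀ z ∈ Z, z r ≠ 0) ∧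
      ∀ f ∈ F, wr D g r ∉ Ideal.span {f} := by
  classical
  -- the space `W`
  let W : Submodule k A := Submodule.span k
    {b : A | ∃ h ∈ H, ∃ m, J ≤ m ∧ m ≤ J + 1 ∧ b = (h - algebraMap k A (x h)) ^ m}
  have hW1 : W ≤ Prods k H (J + 1) := by
    apply Submodule.span_le.2
    rintro b ⟨h, hh, m, -, hm, rfl⟩
    exact prods_mono H hm (pow_mem_prods H h hh _ m)
  have hW2 : ∀ r ∈ W, r ∈ RingHom.ker x ^ J := by
    intro r hr
    have h1 : W ≤ ((RingHom.ker x ^ J : Ideal A)).restrictScalars k := by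
      apply Submodule.span_le.2
      rintro b ⟨h, hh, m, hm, -, rfl⟩
      change _ ∈ (RingHom.ker x ^ J : Ideal A)
      apply Ideal.pow_le_pow_right hm
      apply Ideal.pow_mem_pow
      rw [RingHom.mem_ker]
      change x (h - algebraMap k A (x h)) = 0
      rw [map_sub, AlgHom.commutes]
      simp
    exact h1 hr
  have : Finite Z := hZ
  let p : ({f // f ∈ F} ⊕ Z) → Submodule k W := fun i => match i with
    | Sum.inl f => Submodule.comap W.subtype
        (Submodule.comap (wr D g) ((Ideal.span {(f : A)}).restrictScalars k))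
    | Sum.inr z => Submodule.comap W.subtype (LinearMap.ker (z : A →ₐ[k] k).toLinearMap)
  have hne : (⋃ i, (p i : Set W)) ≠ Set.univ := by
    intro hcov
    obtain ⟨i, hi⟩ := Subspace.exists_eq_top_of_iUnion_eq_univ hcov
    have hall : ∀ r ∈ W, ∃ h : r ∈ W, (⟨r, h⟩ : W) ∈ p i := fun r hr =>
      ⟨hr, by rw [hi]; exact Submodule.mem_top⟩
    rcases i with ⟨f, hf⟩ | ⟨z, hz⟩
    · obtain ⟨h1, hh1, hDh1⟩ := hD
      have := hF f hf
      have e1 : ∀ m, J ≤ m → m ≤ J + 1 →
          wr D g ((h1 - algebraMap k A (x h1)) ^ m) ∈ Ideal.span {f} := by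
        intro m hm hm'
        obtain ⟨_, h2⟩ := hall _ (Submodule.subset_span ⟨h1, hh1, m, hm, hm', rfl⟩)
        exact h2
      have e2 := e1 (J + 1) (Nat.le_succ J) le_rfl
      have e3 := e1 J le_rfl (Nat.le_succ J)
      have e4 := wr_pow D g (h1 - algebraMap k A (x h1)) J
      have e5 : g * (h1 - algebraMap k A (x h1)) ^ J * D (h1 - algebraMap k A (x h1)) ∈
          Ideal.span {f} := by
        have h5 := Ideal.sub_mem _ e2 (Ideal.mul_mem_left _ (h1 - algebraMap k A (x h1)) e3)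
        rw [e4] at h5
        exact (Ideal.neg_mem_iff _).1 h5
      rw [deriv_sub_const] at e5
      rcases (Ideal.IsPrime.mem_or_mem this e5) with h6 | h6
      · rcases (Ideal.IsPrime.mem_or_mem this h6) with h7 | h7
        · exact hg f hf h7
        · have h8 := Ideal.IsPrime.mem_of_pow_mem this _ h7
          have h9 := hsmall f hf h1 hh1 _ h8
          apply hDh1
          rw [h9, D.map_algebraMap]
      · exact hDh1 (hsmallD f hf h1 hh1 h6)
    · have hzx : z ≠ x := fun h => hxZ (h ▸ hz)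
      obtain ⟨h, hh, hne⟩ := exists_sep H hH x z hzx
      obtain ⟨_, h2⟩ := hall _ (Submodule.subset_span ⟨h, hh, J, le_rfl, Nat.le_succ J, rfl⟩)
      have h3 : z ((h - algebraMap k A (x h)) ^ J) = 0 := h2
      rw [map_pow, map_sub, AlgHom.commutes] at h3
      exact hne (sub_eq_zero.1 (eq_zero_of_pow_eq_zero h3))
  obtain ⟨⟨r, hr⟩, hrn⟩ := (Set.ne_univ_iff_exists_notMem _).1 hne
  rw [Set.mem_iUnion, not_exists] at hrn
  refine ⟨r, hW1 hr, hW2 r hr, ?_, ?_⟩
  · intro z hz h0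
    exact hrn (Sum.inr ⟨z, hz⟩) h0
  · intro f hf h0
    exact hrn (Sum.inl ⟨f, hf⟩) h0

end GenPos

open GenPos in
/-- K1-23. `g` is moved inside `g + m_x^J` to a curve which avoids finitely many points and is
transversal to the fibres at its intersections with finitely many curves. `B` is the space of
small elements, `h i` are generators of `A`. -/
theorem general_position {k A : Type} [Field k] [IsAlgClosed k] [CommRing A] [IsDomain A]
    [Algebra k A] [IsNoetherianRing A]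
    (s : A) (D : Derivation k A A) (hDs : D s = 0)
    (H : Finset A) (hH : Algebra.adjoin k (H : Set A) = ⊤) (hD : ∃ h ∈ H, D h ≠ 0)
    (hpar : ∀ x : A →ₐ[k] k,
      ∃ S Y : LocAt x, IsLocalRing.maximalIdeal (LocAt x) = Ideal.span {S, Y})
    (hnp : ∀ x : A →ₐ[k] k,
      ∀ T : LocAt x, IsLocalRing.maximalIdeal (LocAt x) ≠ Ideal.span {T})
    (J : ℕ) (F : Finset A) (g : A)
    -- the curves
    (hF : ∀ f ∈ F, (Ideal.span {f}).IsPrime)
    (hfin : ∀ f ∈ F, ∀ a ∉ Ideal.span {f}, {x : A →ₐ[k] k | x f = 0 ∧ x a = 0}.Finite)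
    (hbad : ∀ f ∈ F, {x : A →ₐ[k] k | x f = 0 ∧ ¬ Transv s f x}.Finite)
    (hsmall : ∀ f ∈ F, ∀ h ∈ H, ∀ c : k, h - algebraMap k A c ∈ Ideal.span {f} →
      h = algebraMap k A c)
    (hsmallD : ∀ f ∈ F, ∀ h ∈ H, D h ∈ Ideal.span {f} → D h = 0)
    (hg : ∀ f ∈ F, g ∉ Ideal.span {f})
    (x : A →ₐ[k] k) (Z : Finset (A →ₐ[k] k)) (hxZ : x ∉ Z) :
    ∃ r ∈ Submodule.span k {b : A | ∃ l : List A, l.length ≤ J + 1 ∧ (∀ a ∈ l, a ∈ H) ∧
        b = l.prod},
      r ∈ RingHom.ker x ^ J ∧ (∀ z ∈ Z, z (g + r) ≠ 0) ∧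
      ∀ f ∈ F, ∀ z : A →ₐ[k] k, z ≠ x → z f = 0 → z (g + r) = 0 → Transv s (g + r) z := by
  classical
  have : Infinite k := IsAlgClosed.instInfinite
  -- the points to be avoided
  let Z1 : Set (A →ₐ[k] k) := (Z : Set (A →ₐ[k] k)) ∪
    ((⋃ f ∈ F, {z : A →ₐ[k] k | z f = 0 ∧ ¬ Transv s f z}) \ {x})
  let Z2 : Set (A →ₐ[k] k) := Z1 ∪
    ((⋃ f ∈ F, {z : A →ₐ[k] k | z f = 0 ∧ z g = 0}) \ {x})
  have hZ1 : Z1.Finite := by
    refine Set.Finite.union Z.finite_toSet (Set.Finite.subset ?_ Set.sdiff_subset)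
    exact Set.Finite.biUnion F.finite_toSet fun f hf => hbad f hf
  have hZ2 : Z2.Finite := by
    refine Set.Finite.union hZ1 (Set.Finite.subset ?_ Set.sdiff_subset)
    exact Set.Finite.biUnion F.finite_toSet fun f hf => hfin f hf g (hg f hf)
  have hxZ1 : x ∉ Z1 := by
    rintro (h | h)
    · exact hxZ h
    · exact h.2 rfl
  have hxZ2 : x ∉ Z2 := by
    rintro (h | h)
    · exact hxZ1 h
    · exact h.2 rfl
  obtain ⟨r0, hr0, hr0x, hr0Z, hr0F⟩ := exists_r0 D H hH hD J F g hF hsmall hsmallD hg x Z2 hZ2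
    hxZ2
  -- choice of alpha
  let Z3 : Set (A →ₐ[k] k) := Z1 ∪
    (⋃ f ∈ F, {z : A →ₐ[k] k | z f = 0 ∧ z (wr D g r0) = 0})
  have hZ3 : Z3.Finite := by
    refine Set.Finite.union hZ1 ?_
    exact Set.Finite.biUnion F.finite_toSet fun f hf => hfin f hf _ (hr0F f hf)
  obtain ⟨α, hα⟩ : ∃ α : k, α ∉ (fun z : A →ₐ[k] k => - z g / z r0) '' Z3 :=
    (hZ3.image _).exists_notMem
  have hα' : ∀ z ∈ Z3, z r0 ≠ 0 → z (g + α • r0) ≠ 0 := by
    intro z hz hz0 h0
    apply hα
    refine ⟨z, hz, ?_⟩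
    rw [map_add, map_smul, smul_eq_mul] at h0
    change - z g / z r0 = α
    rw [div_eq_iff hz0]
    linear_combination -h0
  have hZ1' : ∀ z ∈ Z1, z (g + α • r0) ≠ 0 := fun z hz =>
    hα' z (Or.inl hz) (hr0Z z (Or.inl hz))
  refine ⟨α • r0, Submodule.smul_mem _ _ hr0, ?_, fun z hz => hZ1' z (Or.inl hz), ?_⟩
  · rw [Algebra.smul_def]
    exact Ideal.mul_mem_left _ _ hr0x
  · intro f hf z hzx hzf hz0
    have hT : Transv s f z := by
      by_contra hcon
      exact hZ1' z (Or.inr ⟨Set.mem_biUnion hf ⟨hzf, hcon⟩, hzx⟩) hz0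
    have hs : algebraMap A (LocAt z) (s - algebraMap k A (z s)) ∉
        IsLocalRing.maximalIdeal (LocAt z) ^ 2 := fun h =>
      not_transv_of_critical s f z hzf (hnp z) h hT
    refine transv_of_deriv s D hDs z (hpar z) hs _ hz0 ?_
    intro hD0
    have e1 : z (wr D g r0) = 0 := by
      rw [map_add, map_smul, smul_eq_mul] at hz0
      rw [map_add, D.map_smul, map_add, map_smul, smul_eq_mul] at hD0
      rw [wr_apply, map_sub, map_mul, map_mul]
      linear_combination z r0 * hD0 - z (D r0) * hz0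
    have hz3 : z ∈ Z3 := Or.inr (Set.mem_biUnion hf ⟨hzf, e1⟩)
    by_cases h0 : z r0 = 0
    · have hg0 : z g = 0 := by
        rw [map_add, map_smul, h0, smul_zero, add_zero] at hz0
        exact hz0
      exact hr0Z z (Or.inr ⟨Set.mem_biUnion hf ⟨hzf, hg0⟩, hzx⟩) h0
    · exact hα' z hz3 h0 hz0

end Pool.Agent.K1
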