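import Pool.Agent.K1.SectionExpDef

/-!
K1, second half: the double covers `y^2 = F(s, x)`, `F` monic of odd degree in `x`, belong to the
class `SectionExp` (helper78).
-/

open Polynomial

namespace Pool.Agent.K1.Hyper

section sqrt

variable {R : Type*} [CommRing R]

/-- Coefficients of the square root of `1 + f_1 t + f_2 t^2 + ...`, `h = 1/2`. -/
noncomputable def sq (h : R) (f : ℕ → R) : ℕ → R
  | 0 => 1
  | n + 1 => h * (f (n + 1) - ∑ i : Fin n, sq h f (i.1 + 1) * sq h f (n - i.1))
decreasing_by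
  all_goals omega

theorem sq_zero (h : R) (f : ℕ → R) : sq h f 0 = 1 := by
  rw [sq]

theorem sq_succ (h : R) (f : ℕ → R) (n : ℕ) : sq h f (n + 1) =
    h * (f (n + 1) - ∑ i ∈ Finset.range n, sq h f (i + 1) * sq h f (n - i)) := by
  rw [sq, Finset.sum_range]

theorem sq_mul (h : R) (f : ℕ → R) (hh : 2 * h = 1) (hf : f 0 = 1) :
    PowerSeries.mk (sq h f) * PowerSeries.mk (sq h f) = PowerSeries.mk f := by
  ext n
  rw [PowerSeries.coeff_mul, Finset.Nat.sum_antidiagonal_eq_sum_range_succ_mk]
  simp only [PowerSeries.coeff_mk]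
  rcases n with _ | n
  · simp [sq_zero, hf]
  · rw [Finset.sum_range_succ, Finset.sum_range_succ']
    have h1 : ∑ i ∈ Finset.range n, sq h f (i + 1) * sq h f (n + 1 - (i + 1))
        = ∑ i ∈ Finset.range n, sq h f (i + 1) * sq h f (n - i) := by
      apply Finset.sum_congr rfl
      intro i _
      rw [Nat.add_sub_add_right]
    rw [h1, sq_zero, Nat.sub_zero, Nat.sub_self, sq_zero]
    have h2 := sq_succ h f n
    linear_combination 2 * h2 + (f (n + 1)
      - ∑ i ∈ Finset.range n, sq h f (i + 1) * sq h f (n - i)) * hh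

end sqrt

theorem natDegree_sq {k : Type*} [Field k] (h : k) (f : ℕ → k[X]) (D : ℕ)
    (hf : ∀ n, (f n).natDegree ≤ D * n) : ∀ n, (sq (C h) f n).natDegree ≤ D * n := by
  intro n
  induction n using Nat.strong_induction_on with
  | _ n ih =>
    rcases n with _ | n
    · rw [sq_zero, natDegree_one]
      exact Nat.zero_le _
    · rw [sq_succ]
      refine (natDegree_C_mul_le _ _).trans ((natDegree_sub_le _ _).trans (max_le (hf _) ?_))
      apply natDegree_sum_le_of_forall_le
      intro i hi
      rw [Finset.mem_range] at hi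
      refine natDegree_mul_le.trans ?_
      have h1 := ih (i + 1) (by omega)
      have h2 := ih (n - i) (by omega)
      have h3 : D * (n + 1) = D * (i + 1) + D * (n - i) := by
        rw [← mul_add]
        congr 1
        omega
      omega

section rho

variable {R : Type*} [CommRing R]

/-- `R[x] → R((t))`, `x ↦ t^-2`. -/
noncomputable def ρ (R : Type*) [CommRing R] : R[X] →+* LaurentSeries R :=
  eval₂RingHom (HahnSeries.C : R →+* LaurentSeries R) (HahnSeries.single (-2 : ℤ) 1)

theorem single_pow (i : ℕ) : (HahnSeries.single (-2 : ℤ) (1 : R)) ^ i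
    = HahnSeries.single (-2 * (i : ℤ)) 1 := by
  rw [HahnSeries.single_pow, one_pow, nsmul_eq_mul, mul_comm]

theorem ρ_apply (P : R[X]) : ρ R P = ∑ i ∈ Finset.range (P.natDegree + 1),
    HahnSeries.single (-2 * (i : ℤ)) (P.coeff i) := by
  unfold ρ
  rw [coe_eval₂RingHom, eval₂_eq_sum_range]
  apply Finset.sum_congr rfl
  intro i _
  rw [single_pow, HahnSeries.C_apply, HahnSeries.single_mul_single, zero_add, mul_one]

theorem coeff_finset_sum {α : Type*} (T : Finset α) (f : α → LaurentSeries R) (l : ℤ) :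
    (∑ i ∈ T, f i).coeff l = ∑ i ∈ T, (f i).coeff l := by
  classical
  induction T using Finset.induction_on with
  | empty => simp
  | insert a T ha ih => rw [Finset.sum_insert ha, Finset.sum_insert ha, HahnSeries.coeff_add, ih]

theorem ρ_coeff (P : R[X]) (i : ℕ) : (ρ R P).coeff (-2 * (i : ℤ)) = P.coeff i := by
  rw [ρ_apply, coeff_finset_sum]
  by_cases hi : i < P.natDegree + 1
  · rw [Finset.sum_eq_single i]
    · rw [HahnSeries.coeff_single_same]
    · intro j _ hj
      apply HahnSeries.coeff_single_of_ne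
      omega
    · intro h
      exact absurd (Finset.mem_range.2 hi) h
  · rw [Finset.sum_eq_zero, coeff_eq_zero_of_natDegree_lt (by omega)]
    intro j hj
    apply HahnSeries.coeff_single_of_ne
    rw [Finset.mem_range] at hj
    omega

theorem ρ_coeff_ne (P : R[X]) (l : ℤ) (hl : ∀ i : ℕ, l ≠ -2 * (i : ℤ)) :
    (ρ R P).coeff l = 0 := by
  rw [ρ_apply, coeff_finset_sum, Finset.sum_eq_zero]
  intro j _
  exact HahnSeries.coeff_single_of_ne (hl j)

theorem ρ_injective : Function.Injective (ρ R) := by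
  intro P Q h
  ext i
  rw [← ρ_coeff P, h, ρ_coeff]

theorem ρ_order [IsDomain R] {P : R[X]} (hP : P ≠ 0) :
    (ρ R P).order = -2 * (P.natDegree : ℤ) := by
  have h0 : ρ R P ≠ 0 := by
    intro h
    exact hP (ρ_injective (by rw [h, map_zero]))
  apply le_antisymm
  · apply HahnSeries.order_le_of_coeff_ne_zero
    rw [ρ_coeff]
    exact leadingCoeff_ne_zero.2 hP
  · by_contra hlt
    push Not at hlt
    have h1 : (ρ R P).coeff (ρ R P).order ≠ 0 := by
      rw [← HahnSeries.leadingCoeff_eq]
      exact HahnSeries.leadingCoeff_ne_zero.2 h0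
    apply h1
    by_cases hex : ∃ i : ℕ, (ρ R P).order = -2 * (i : ℤ)
    · obtain ⟨i, hi⟩ := hex
      rw [hi, ρ_coeff]
      apply coeff_eq_zero_of_natDegree_lt
      omega
    · push Not at hex
      exact ρ_coeff_ne P _ hex

/-- Parity: `P(t^-2) + Q(t^-2) y` with `y` of odd order. -/
theorem order_eq [IsDomain R] {y : LaurentSeries R} (hy : y ≠ 0) (N : ℕ) (hN : Odd N)
    (hyo : y.order = -(N : ℤ)) (P Q : R[X]) (d : ℤ)
    (h : ∀ i < d, (ρ R P + ρ R Q * y).coeff i = 0) :
    (P ≠ 0 → d ≤ -2 * (P.natDegree : ℤ)) ∧ (Q ≠ 0 → d ≤ -2 * (Q.natDegree : ℤ) - N) := by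
  obtain ⟨m, hm⟩ := hN
  have hQo : Q ≠ 0 → (ρ R Q * y).order = -2 * (Q.natDegree : ℤ) - N := by
    intro hQ
    rw [HahnSeries.order_mul, ρ_order hQ, hyo]
    · ring
    · intro h0
      exact hQ (ρ_injective (by rw [h0, map_zero]))
    · exact hy
  have hne : ∀ x : LaurentSeries R, x ≠ 0 → x.coeff x.order ≠ 0 := by
    intro x hx
    rw [← HahnSeries.leadingCoeff_eq]
    exact HahnSeries.leadingCoeff_ne_zero.2 hx
  have hPne : P ≠ 0 → ρ R P ≠ 0 := fun hP h0 => hP (ρ_injective (by rw [h0, map_zero]))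
  have hQne : Q ≠ 0 → ρ R Q * y ≠ 0 := fun hQ =>
    mul_ne_zero (fun h0 => hQ (ρ_injective (by rw [h0, map_zero]))) hy
  by_cases hP : P = 0
  · refine ⟨fun h => absurd hP h, ?_⟩
    intro hQ
    rw [hP, map_zero, zero_add] at h
    by_contra hlt
    push Not at hlt
    rw [← hQo hQ] at hlt
    exact hne _ (hQne hQ) (h _ hlt)
  · by_cases hQ : Q = 0
    · refine ⟨?_, fun h => absurd hQ h⟩
      intro _
      rw [hQ, map_zero, zero_mul, add_zero] at h
      by_contra hlt
      push Not at hlt
      rw [← ρ_order hP] at hlt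
      exact hne _ (hPne hP) (h _ hlt)
    · have e1 := ρ_order hP
      have e2 := hQo hQ
      rcases lt_or_gt_of_ne (show -2 * (P.natDegree : ℤ) ≠ -2 * (Q.natDegree : ℤ) - N by omega)
        with hlt | hlt
      · have h1 : d ≤ -2 * (P.natDegree : ℤ) := by
          by_contra hd
          push Not at hd
          have h2 := h _ hd
          rw [HahnSeries.coeff_add, HahnSeries.coeff_eq_zero_of_lt_order (x := ρ R Q * y)
            (by rw [e2]; exact hlt), add_zero, ← e1] at h2
          exact hne _ (hPne hP) h2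
        exact ⟨fun _ => h1, fun _ => by omega⟩
      · have h1 : d ≤ -2 * (Q.natDegree : ℤ) - N := by
          by_contra hd
          push Not at hd
          have h2 := h _ hd
          rw [HahnSeries.coeff_add, HahnSeries.coeff_eq_zero_of_lt_order (x := ρ R P)
            (by rw [e1]; exact hlt), zero_add, ← e2] at h2
          exact hne _ (hQne hQ) h2
        exact ⟨fun _ => by omega, fun _ => h1⟩

theorem eq_zero_of_sum [IsDomain R] {y : LaurentSeries R} (hy : y ≠ 0) (N : ℕ) (hN : Odd N)
    (hyo : y.order = -(N : ℤ)) (P Q : R[X]) (h : ρ R P + ρ R Q * y = 0) : P = 0 ∧ Q = 0 := by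
  constructor
  · by_contra hP
    have := (order_eq hy N hN hyo P Q 1 (by simp [h])).1 hP
    omega
  · by_contra hQ
    have := (order_eq hy N hN hyo P Q 1 (by simp [h])).2 hQ
    omega

end rho

section yser

variable {k : Type*} [Field k]

/-- the coefficients of `t^(2 N) F(s, t^-2)`. -/
noncomputable def fc (F : k[X][X]) (n : ℕ) : k[X] :=
  if Even n ∧ n / 2 ≤ F.natDegree then F.coeff (F.natDegree - n / 2) else 0

theorem fc_zero (F : k[X][X]) (hF : F.Monic) : fc F 0 = 1 := by
  simp [fc, hF]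

/-- A bound for the degrees of the coefficients of `F`. -/
noncomputable def degBound (F : k[X][X]) : ℕ :=
  ∑ i ∈ Finset.range (F.natDegree + 1), (F.coeff i).natDegree

theorem natDegree_coeff_le (F : k[X][X]) (i : ℕ) : (F.coeff i).natDegree ≤ degBound F := by
  by_cases hi : i < F.natDegree + 1
  · exact Finset.single_le_sum (f := fun i => (F.coeff i).natDegree) (fun _ _ => Nat.zero_le _)
      (Finset.mem_range.2 hi)
  · rw [coeff_eq_zero_of_natDegree_lt (by omega), natDegree_zero]
    exact Nat.zero_le _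

theorem natDegree_fc (F : k[X][X]) (hF : F.Monic) (n : ℕ) :
    (fc F n).natDegree ≤ degBound F * n := by
  rcases n with _ | n
  · rw [fc_zero F hF, natDegree_one]
    exact Nat.zero_le _
  · unfold fc
    split_ifs
    · exact (natDegree_coeff_le F _).trans (Nat.le_mul_of_pos_right _ (Nat.succ_pos n))
    · rw [natDegree_zero]
      exact Nat.zero_le _

/-- the square root of `F(s, t^-2)`. -/
noncomputable def yS (h : k) (F : k[X][X]) : LaurentSeries k[X] :=
  HahnSeries.single (-(F.natDegree : ℤ)) 1 *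
    HahnSeries.ofPowerSeries ℤ k[X] (PowerSeries.mk (sq (C h) (fc F)))

theorem ofPS_fc (F : k[X][X]) : HahnSeries.ofPowerSeries ℤ k[X] (PowerSeries.mk (fc F))
    = HahnSeries.single (2 * (F.natDegree : ℤ)) 1 * ρ k[X] F := by
  apply HahnSeries.ext
  funext l
  have h1 : (HahnSeries.single (2 * (F.natDegree : ℤ)) (1 : k[X]) * ρ k[X] F).coeff l
      = (ρ k[X] F).coeff (l - 2 * (F.natDegree : ℤ)) := by
    have := HahnSeries.coeff_single_mul_add (r := (1 : k[X])) (x := ρ k[X] F)
      (a := l - 2 * (F.natDegree : ℤ)) (b := 2 * (F.natDegree : ℤ))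
    rw [sub_add_cancel, one_mul] at this
    exact this
  rw [h1]
  by_cases hl : ∃ n : ℕ, l = n
  · obtain ⟨n, rfl⟩ := hl
    rw [HahnSeries.ofPowerSeries_apply_coeff, PowerSeries.coeff_mk]
    unfold fc
    split_ifs with hn
    · obtain ⟨⟨m, hm⟩, hn2⟩ := hn
      have : (n : ℤ) - 2 * (F.natDegree : ℤ) = -2 * ((F.natDegree - n / 2 : ℕ) : ℤ) := by
        omega
      rw [this, ρ_coeff]
    · rw [not_and_or] at hn
      symm
      by_cases hi : ∃ i : ℕ, (n : ℤ) - 2 * (F.natDegree : ℤ) = -2 * (i : ℤ)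
      · obtain ⟨i, hi⟩ := hi
        exfalso
        rcases hn with hn | hn
        · rw [Nat.not_even_iff_odd] at hn
          obtain ⟨m, hm⟩ := hn
          omega
        · omega
      · push Not at hi
        exact ρ_coeff_ne F _ hi
  · have h2 : l < 0 := by
      by_contra h
      exact hl ⟨l.toNat, by omega⟩
    have h3 : (HahnSeries.ofPowerSeries ℤ k[X] (PowerSeries.mk (fc F))).coeff l = 0 := by
      rw [HahnSeries.ofPowerSeries_apply, HahnSeries.embDomain_of_notMem_range]
      simp only [Set.mem_range, not_exists]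
      intro n hn
      apply hl
      exact ⟨n, hn.symm⟩
    rw [h3]
    symm
    by_cases hi : ∃ i : ℕ, l - 2 * (F.natDegree : ℤ) = -2 * (i : ℤ)
    · obtain ⟨i, hi⟩ := hi
      rw [hi, ρ_coeff]
      apply coeff_eq_zero_of_natDegree_lt
      omega
    · push Not at hi
      exact ρ_coeff_ne F _ hi

theorem yS_sq (h : k) (hh : 2 * h = 1) (F : k[X][X]) (hF : F.Monic) :
    yS h F * yS h F = ρ k[X] F := by
  have h1 : yS h F * yS h F = HahnSeries.single (-(F.natDegree : ℤ)) 1 *
      HahnSeries.single (-(F.natDegree : ℤ)) 1 *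
      HahnSeries.ofPowerSeries ℤ k[X] (PowerSeries.mk (sq (C h) (fc F)) *
        PowerSeries.mk (sq (C h) (fc F))) := by
    unfold yS
    rw [map_mul]
    ring
  rw [h1, sq_mul _ _ (by
    have h4 : (C (2 : k) : k[X]) = 2 := map_ofNat C 2
    rw [← h4, ← C_mul, hh, C_1]) (fc_zero F hF), ofPS_fc, HahnSeries.single_mul_single, ← mul_assoc,
    HahnSeries.single_mul_single]
  have h2 : -(F.natDegree : ℤ) + -(F.natDegree : ℤ) + 2 * (F.natDegree : ℤ) = 0 := by ring
  rw [h2, mul_one, mul_one]
  have h3 : HahnSeries.single (0 : ℤ) (1 : k[X]) = 1 := rfl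
  rw [h3, one_mul]

theorem yS_coeff (h : k) (F : k[X][X]) (n : ℕ) :
    (yS h F).coeff ((n : ℤ) - F.natDegree) = sq (C h) (fc F) n := by
  unfold yS
  have := HahnSeries.coeff_single_mul_add (r := (1 : k[X]))
    (x := HahnSeries.ofPowerSeries ℤ k[X] (PowerSeries.mk (sq (C h) (fc F))))
    (a := (n : ℤ)) (b := -(F.natDegree : ℤ))
  rw [← sub_eq_add_neg, one_mul, HahnSeries.ofPowerSeries_apply_coeff,
    PowerSeries.coeff_mk] at this
  exact this

theorem yS_coeff_lt (h : k) (F : k[X][X]) (l : ℤ) (hl : l < -(F.natDegree : ℤ)) :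
    (yS h F).coeff l = 0 := by
  unfold yS
  have := HahnSeries.coeff_single_mul_add (r := (1 : k[X]))
    (x := HahnSeries.ofPowerSeries ℤ k[X] (PowerSeries.mk (sq (C h) (fc F))))
    (a := l + F.natDegree) (b := -(F.natDegree : ℤ))
  rw [add_neg_cancel_right, one_mul] at this
  rw [this, HahnSeries.ofPowerSeries_apply, HahnSeries.embDomain_of_notMem_range]
  simp only [Set.mem_range, not_exists]
  intro n hn
  have : (n : ℤ) = l + F.natDegree := hn
  omega

theorem yS_coeff_top (h : k) (F : k[X][X]) : (yS h F).coeff (-(F.natDegree : ℤ)) = 1 := by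
  have := yS_coeff h F 0
  rw [sq_zero] at this
  simpa using this

theorem yS_ne_zero (h : k) (F : k[X][X]) : yS h F ≠ 0 := by
  intro h0
  have := yS_coeff_top h F
  rw [h0] at this
  simp at this

theorem yS_order (h : k) (F : k[X][X]) : (yS h F).order = -(F.natDegree : ℤ) := by
  apply le_antisymm
  · apply HahnSeries.order_le_of_coeff_ne_zero
    rw [yS_coeff_top]
    exact one_ne_zero
  · by_contra hlt
    push Not at hlt
    have h1 : (yS h F).coeff (yS h F).order ≠ 0 := by
      rw [← HahnSeries.leadingCoeff_eq]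
      exact HahnSeries.leadingCoeff_ne_zero.2 (yS_ne_zero h F)
    exact h1 (yS_coeff_lt h F _ hlt)

end yser

section ring

variable {k : Type*} [Field k]

/-- The affine surface `y^2 = F(s, x)` (`F : k[X][X]`, inner variable `s`, outer variable `x`). -/
abbrev HRing (F : k[X][X]) : Type _ := AdjoinRoot (X ^ 2 - C F : k[X][X][X])

theorem hroot (h : k) (hh : 2 * h = 1) (F : k[X][X]) (hF : F.Monic) :
    (X ^ 2 - C F : k[X][X][X]).eval₂ (ρ k[X]) (yS h F) = 0 := by
  rw [eval₂_sub, eval₂_pow, eval₂_X, eval₂_C, pow_two, yS_sq h hh F hF, sub_self]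

/-- The expansion at infinity, `x = t^-2`. -/
noncomputable def hι (h : k) (hh : 2 * h = 1) (F : k[X][X]) (hF : F.Monic) :
    HRing F →+* LaurentSeries k[X] :=
  AdjoinRoot.lift (ρ k[X]) (yS h F) (hroot h hh F hF)

theorem exists_rep_gen {R : Type*} [CommRing R] (g : R[X]) (hm : g.Monic)
    (hd : g.natDegree = 2) (f : AdjoinRoot g) :
    ∃ P Q : R, f = AdjoinRoot.of g P + AdjoinRoot.of g Q * AdjoinRoot.root g := by
  obtain ⟨p, rfl⟩ := AdjoinRoot.mk_surjective f
  have h1 : AdjoinRoot.mk g p = AdjoinRoot.mk g (p %ₘ g) := by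
    rw [AdjoinRoot.mk_eq_mk]
    exact ⟨p /ₘ g, by
      rw [sub_eq_iff_eq_add']
      exact (modByMonic_add_div p g).symm⟩
  have h2 : (p %ₘ g).natDegree < 2 := by
    rw [← hd]
    apply natDegree_modByMonic_lt _ hm
    intro h
    rw [h, natDegree_one] at hd
    omega
  refine ⟨(p %ₘ g).coeff 0, (p %ₘ g).coeff 1, ?_⟩
  rw [h1]
  generalize p %ₘ g = r at h2
  conv_lhs => rw [as_sum_range' r 2 h2]
  rw [Finset.sum_range_succ, Finset.sum_range_one, ← C_mul_X_pow_eq_monomial,
    ← C_mul_X_pow_eq_monomial, pow_zero, mul_one, pow_one, map_add, map_mul, AdjoinRoot.mk_C,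
    AdjoinRoot.mk_C, AdjoinRoot.mk_X]

theorem exists_rep (F : k[X][X]) (f : HRing F) :
    ∃ P Q : k[X][X], f = AdjoinRoot.of _ P + AdjoinRoot.of _ Q * AdjoinRoot.root _ :=
  exists_rep_gen (X ^ 2 - C F : k[X][X][X]) (monic_X_pow_sub_C F two_ne_zero)
    natDegree_X_pow_sub_C f

theorem hι_rep (h : k) (hh : 2 * h = 1) (F : k[X][X]) (hF : F.Monic) (P Q : k[X][X]) :
    hι h hh F hF (AdjoinRoot.of _ P + AdjoinRoot.of _ Q * AdjoinRoot.root _)
      = ρ k[X] P + ρ k[X] Q * yS h F := by
  unfold hι
  rw [map_add, map_mul, AdjoinRoot.lift_of, AdjoinRoot.lift_of, AdjoinRoot.lift_root]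

theorem ρ_C {R : Type*} [CommRing R] (r : R) : ρ R (C r) = HahnSeries.C r := by
  simp [ρ]

theorem hι_injective (h : k) (hh : 2 * h = 1) (F : k[X][X]) (hF : F.Monic)
    (hodd : Odd F.natDegree) : Function.Injective (hι h hh F hF) := by
  rw [injective_iff_map_eq_zero]
  intro f hf
  obtain ⟨P, Q, rfl⟩ := exists_rep F f
  rw [hι_rep] at hf
  obtain ⟨hP, hQ⟩ := eq_zero_of_sum (yS_ne_zero h F) _ hodd (yS_order h F) P Q hf
  rw [hP, hQ]
  simp

theorem isDomain_HRing (h : k) (hh : 2 * h = 1) (F : k[X][X]) (hF : F.Monic)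
    (hodd : Odd F.natDegree) : IsDomain (HRing F) :=
  (hι_injective h hh F hF hodd).isDomain (hι h hh F hF)

/-- the algebra structure over `k` -/
theorem algebraMap_HRing (F : k[X][X]) (a : k) :
    algebraMap k (HRing F) a = AdjoinRoot.of _ (C (C a)) := rfl

theorem aeval_HRing (F : k[X][X]) (P : k[X]) :
    aeval (AdjoinRoot.of (X ^ 2 - C F) (C X) : HRing F) P = AdjoinRoot.of _ (C P) := by
  induction P using Polynomial.induction_on' with
  | add p q hp hq => rw [map_add, hp, hq, map_add, map_add]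
  | monomial n a =>
    rw [aeval_monomial, algebraMap_HRing, ← C_mul_X_pow_eq_monomial, map_mul, map_mul, map_pow,
      map_pow]

/-- reduction modulo `s = c` -/
noncomputable def evc (c : k) : LaurentSeries k[X] → LaurentSeries k := fun x =>
  HahnSeries.map x (evalRingHom c)

theorem evc_coeff (c : k) (x : LaurentSeries k[X]) (l : ℤ) :
    (evc c x).coeff l = (x.coeff l).eval c := rfl

theorem evc_add (c : k) (x y : LaurentSeries k[X]) : evc c (x + y) = evc c x + evc c y := by
  apply HahnSeries.ext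
  funext l
  rw [HahnSeries.coeff_add, evc_coeff, evc_coeff, evc_coeff, HahnSeries.coeff_add, eval_add]

theorem evc_mul (c : k) (x y : LaurentSeries k[X]) : evc c (x * y) = evc c x * evc c y := by
  have := HahnSeries.map_mul ((evalRingHom c : k[X] →+* k) : k[X] →ₙ+* k) (x := x) (y := y)
  exact this

theorem evc_ρ (c : k) (P : k[X][X]) : evc c (ρ k[X] P) = ρ k (P.map (evalRingHom c)) := by
  apply HahnSeries.ext
  funext l
  rw [evc_coeff]
  by_cases hi : ∃ i : ℕ, l = -2 * (i : ℤ)
  · obtain ⟨i, rfl⟩ := hi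
    rw [ρ_coeff, ρ_coeff, coeff_map]
    rfl
  · push Not at hi
    rw [ρ_coeff_ne _ _ hi, ρ_coeff_ne _ _ hi, eval_zero]

theorem dvd_of_map_eq_zero (c : k) (P : k[X][X]) (hP : P.map (evalRingHom c) = 0) :
    ∃ P' : k[X][X], P = C (X - C c) * P' := by
  have h1 : C (X - C c) ∣ P := by
    rw [C_dvd_iff_dvd_coeff]
    intro i
    rw [dvd_iff_isRoot]
    have := congrArg (fun p => p.coeff i) hP
    simpa [IsRoot] using this
  exact h1

/-- The double cover `y^2 = F(s, x)` is in the class `SectionExp`. -/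
noncomputable def hyperExp (h : k) (hh : 2 * h = 1) (F : k[X][X]) (hF : F.Monic)
    (hodd : Odd F.natDegree) : SectionExp k (HRing F) where
  s := AdjoinRoot.of _ (C X)
  ι := hι h hh F hF
  inj := hι_injective h hh F hF hodd
  ι_C a := by
    rw [algebraMap_HRing]
    unfold hι
    rw [AdjoinRoot.lift_of, ρ_C]
  ι_s := by
    unfold hι
    rw [AdjoinRoot.lift_of, ρ_C]
  pole f hf := by
    obtain ⟨P, Q, rfl⟩ := exists_rep F f
    rw [hι_rep] at hf
    obtain ⟨h1, h2⟩ := order_eq (yS_ne_zero h F) _ hodd (yS_order h F) P Q 0 hf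
    have hQ : Q = 0 := by
      by_contra hQ
      have := h2 hQ
      obtain ⟨m, hm⟩ := hodd
      omega
    have hP : P.natDegree = 0 := by
      by_contra hP
      have := h1 (by rintro rfl; exact hP natDegree_zero)
      omega
    refine ⟨P.coeff 0, ?_⟩
    rw [aeval_HRing, hQ, map_zero, zero_mul, add_zero, ← eq_C_of_natDegree_eq_zero hP]
  mono := by
    refine ⟨F.natDegree, ?_⟩
    intro j hj
    rcases Nat.even_or_odd' j with ⟨m, hm | hm⟩
    · refine ⟨AdjoinRoot.of _ (X ^ m) + AdjoinRoot.of _ 0 * AdjoinRoot.root _, ?_, ?_⟩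
      · rw [hι_rep, map_zero, zero_mul, add_zero]
        have : -(j : ℤ) = -2 * (m : ℤ) := by omega
        rw [this, ρ_coeff, coeff_X_pow, if_pos rfl]
      · intro i hi
        rw [hι_rep, map_zero, zero_mul, add_zero]
        by_cases hex : ∃ l : ℕ, i = -2 * (l : ℤ)
        · obtain ⟨l, rfl⟩ := hex
          rw [ρ_coeff, coeff_X_pow, if_neg (by omega)]
        · push Not at hex
          exact ρ_coeff_ne _ _ hex
    · obtain ⟨m', hm'⟩ := hodd
      have hmul : ∀ i : ℤ, (ρ k[X] (0 : k[X][X]) + ρ k[X] (X ^ (m - m')) * yS h F).coeff i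
          = (yS h F).coeff (i + 2 * ((m - m' : ℕ) : ℤ)) := by
        intro i
        have h1 : ρ k[X] (X ^ (m - m')) = HahnSeries.single (-2 * ((m - m' : ℕ) : ℤ)) 1 := by
          rw [map_pow]
          have : ρ k[X] X = HahnSeries.single (-2 : ℤ) 1 := by simp [ρ]
          rw [this, single_pow]
        rw [map_zero, zero_add, h1]
        have := HahnSeries.coeff_single_mul_add (r := (1 : k[X])) (x := yS h F)
          (a := i + 2 * ((m - m' : ℕ) : ℤ)) (b := -2 * ((m - m' : ℕ) : ℤ))
        rw [one_mul] at this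
        rw [← this]
        congr 1
        ring
      refine ⟨AdjoinRoot.of _ 0 + AdjoinRoot.of _ (X ^ (m - m')) * AdjoinRoot.root _, ?_, ?_⟩
      · rw [hι_rep, hmul]
        have : -(j : ℤ) + 2 * ((m - m' : ℕ) : ℤ) = -(F.natDegree : ℤ) := by omega
        rw [this, yS_coeff_top]
      · intro i hi
        rw [hι_rep, hmul]
        apply yS_coeff_lt
        omega
  fibre c f hf := by
    obtain ⟨P, Q, rfl⟩ := exists_rep F f
    rw [hι_rep] at hf
    have h1 : ρ k (P.map (evalRingHom c)) + ρ k (Q.map (evalRingHom c)) * evc c (yS h F) = 0 := by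
      rw [← evc_ρ, ← evc_ρ, ← evc_mul, ← evc_add]
      apply HahnSeries.ext
      funext l
      rw [evc_coeff, HahnSeries.coeff_zero]
      exact (dvd_iff_isRoot.1 (hf l))
    have hy0 : (evc c (yS h F)).coeff (-(F.natDegree : ℤ)) = 1 := by
      rw [evc_coeff, yS_coeff_top, eval_one]
    have hne : evc c (yS h F) ≠ 0 := by
      intro h0
      rw [h0] at hy0
      simp at hy0
    have hord : (evc c (yS h F)).order = -(F.natDegree : ℤ) := by
      apply le_antisymm
      · apply HahnSeries.order_le_of_coeff_ne_zero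
        rw [hy0]
        exact one_ne_zero
      · by_contra hlt
        push Not at hlt
        have h1 : (evc c (yS h F)).coeff (evc c (yS h F)).order ≠ 0 := by
          rw [← HahnSeries.leadingCoeff_eq]
          exact HahnSeries.leadingCoeff_ne_zero.2 hne
        apply h1
        rw [evc_coeff, yS_coeff_lt h F _ hlt, eval_zero]
    obtain ⟨hP, hQ⟩ := eq_zero_of_sum hne _ hodd hord _ _ h1
    obtain ⟨P', hP'⟩ := dvd_of_map_eq_zero c P hP
    obtain ⟨Q', hQ'⟩ := dvd_of_map_eq_zero c Q hQ
    refine ⟨AdjoinRoot.of _ P' + AdjoinRoot.of _ Q' * AdjoinRoot.root _, ?_⟩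
    rw [algebraMap_HRing, hP', hQ', C_sub, map_mul, map_mul, map_sub]
    ring
  growth := by
    refine ⟨degBound F, ?_⟩
    intro f
    obtain ⟨P, Q, rfl⟩ := exists_rep F f
    refine ⟨degBound P + degBound Q + degBound F * (2 * Q.natDegree + F.natDegree), ?_⟩
    intro i
    rw [hι_rep, HahnSeries.coeff_add]
    refine (natDegree_add_le _ _).trans (max_le ?_ ?_)
    · refine le_trans ?_ (show degBound P ≤ _ by omega)
      by_cases hex : ∃ l : ℕ, i = -2 * (l : ℤ)
      · obtain ⟨l, rfl⟩ := hex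
        rw [ρ_coeff]
        exact natDegree_coeff_le P l
      · push Not at hex
        rw [ρ_coeff_ne _ _ hex, natDegree_zero]
        exact Nat.zero_le _
    · rw [ρ_apply, Finset.sum_mul, coeff_finset_sum]
      apply natDegree_sum_le_of_forall_le
      intro j hj
      rw [Finset.mem_range] at hj
      have h1 : (HahnSeries.single (-2 * (j : ℤ)) (Q.coeff j) * yS h F).coeff i
          = Q.coeff j * (yS h F).coeff (i + 2 * j) := by
        have := HahnSeries.coeff_single_mul_add (r := Q.coeff j) (x := yS h F)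
          (a := i + 2 * (j : ℤ)) (b := -2 * (j : ℤ))
        rw [← this]
        congr 1
        ring
      rw [h1]
      refine natDegree_mul_le.trans ?_
      have h2 := natDegree_coeff_le Q j
      by_cases hl : i + 2 * j < -(F.natDegree : ℤ)
      · rw [yS_coeff_lt h F _ hl, natDegree_zero]
        omega
      · obtain ⟨n, hn⟩ : ∃ n : ℕ, i + 2 * (j : ℤ) = (n : ℤ) - F.natDegree :=
          ⟨(i + 2 * (j : ℤ) + F.natDegree).toNat, by omega⟩
        rw [hn, yS_coeff]
        have h3 := natDegree_sq h (fc F) (degBound F) (natDegree_fc F hF) n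
        have h4 : n ≤ i.toNat + (2 * Q.natDegree + F.natDegree) := by omega
        have h5 : degBound F * n ≤ degBound F * i.toNat
            + degBound F * (2 * Q.natDegree + F.natDegree) := by
          rw [← mul_add]
          exact Nat.mul_le_mul_left _ h4
        omega

end ring

end Pool.Agent.K1.Hyper
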