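import Pool.Agent.K1.Hyper

/-!
K1, second half: regularity and dimension of the double covers `y^2 = F(s, x)` (helper78).
-/

open Polynomial IsLocalRing

namespace Pool.Agent.K1.Hyper

/-- In a local ring, an element outside the square of the maximal ideal is part of a system of
generators of minimal cardinality. -/
theorem exists_gens {L : Type*} [CommRing L] [IsLocalRing L] [IsNoetherianRing L] (g : L)
    (hg : g ∈ maximalIdeal L) (hg2 : g ∉ maximalIdeal L ^ 2) :
    ∃ b : Set L, b.Finite ∧ b.ncard + 1 ≤ (maximalIdeal L).spanFinrank ∧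
      maximalIdeal L = Ideal.span (insert g b) := by
  classical
  have hli : LinearIndepOn (ResidueField L) (maximalIdeal L).toCotangent
      {(⟨g, hg⟩ : maximalIdeal L)} := by
    rw [linearIndepOn_singleton_iff]
    intro h
    rw [Ideal.toCotangent_eq_zero] at h
    exact hg2 h
  obtain ⟨b, -, hgb, hspan, hb⟩ := exists_linearIndepOn_extension hli (Set.subset_univ _)
  have hfin : b.Finite := by
    have := hb.linearIndependent.finite
    exact Set.toFinite b
  have hcard : b.ncard ≤ (maximalIdeal L).spanFinrank := by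
    rw [IsLocalRing.spanFinrank_maximalIdeal_eq_finrank_cotangentSpace]
    have := hfin.fintype
    have h1 := hb.linearIndependent.fintype_card_le_finrank
    rwa [Set.ncard_eq_toFinset_card', Set.toFinset_card]
  have htop : Submodule.span L b = ⊤ := by
    rw [← CotangentSpace.span_image_eq_top_iff, eq_top_iff]
    rintro x -
    obtain ⟨y, rfl⟩ := Ideal.toCotangent_surjective _ x
    exact hspan ⟨y, Set.mem_univ _, rfl⟩
  have hgb' : (⟨g, hg⟩ : maximalIdeal L) ∈ b := hgb rfl
  refine ⟨Subtype.val '' (b \ {(⟨g, hg⟩ : maximalIdeal L)}), (hfin.diff).image _, ?_, ?_⟩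
  · rw [Set.ncard_image_of_injective _ Subtype.val_injective,
      Set.ncard_diff_singleton_of_mem hgb']
    have : 0 < b.ncard := (Set.ncard_pos hfin).2 ⟨_, hgb'⟩
    omega
  · have h1 : Ideal.span (Subtype.val '' b : Set L) = maximalIdeal L := by
      have h2 := congrArg (Submodule.map (maximalIdeal L).subtype) htop
      rw [Submodule.map_span, Submodule.map_top, Submodule.range_subtype] at h2
      exact h2
    have h3 : (Subtype.val '' b : Set L)
        = insert g (Subtype.val '' (b \ {(⟨g, hg⟩ : maximalIdeal L)})) := by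
      have h4 : insert (⟨g, hg⟩ : maximalIdeal L) (b \ {(⟨g, hg⟩ : maximalIdeal L)}) = b := by
        rw [Set.insert_diff_singleton, Set.insert_eq_of_mem hgb']
      conv_lhs => rw [← h4]
      rw [Set.image_insert_eq]
    exact h1.symm.trans (congrArg Ideal.span h3)

/-- A hypersurface which is nowhere singular is regular. -/
theorem isRegular_quot {T : Type*} [CommRing T] [IsRegularRing T] (G : T)
    (h : ∀ P : Ideal T, P.IsPrime → G ∈ P → ∀ u ∉ P, u * G ∉ P ^ 2) :
    IsRegularRing (T ⧸ Ideal.span {G}) := by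
  rw [isRegularRing_iff]
  intro p hp
  set P : Ideal T := p.comap (Ideal.Quotient.mk (Ideal.span {G})) with hP
  have hGP : G ∈ P := by
    rw [hP, Ideal.mem_comap, Ideal.Quotient.eq_zero_iff_mem.2 (Ideal.mem_span_singleton_self G)]
    exact p.zero_mem
  have hPp : P.IsPrime := Ideal.comap_isPrime _ _
  let L := Localization.AtPrime P
  let L' := Localization.AtPrime p
  let φ : L →+* L' := Localization.localRingHom P p (Ideal.Quotient.mk (Ideal.span {G})) rfl
  have hmL : P.map (algebraMap T L) = maximalIdeal L := Localization.AtPrime.map_eq_maximalIdeal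
  have hmL' : p.map (algebraMap (T ⧸ Ideal.span {G}) L') = maximalIdeal L' :=
    Localization.AtPrime.map_eq_maximalIdeal
  have hg : algebraMap T L G ∈ maximalIdeal L := by
    rw [← hmL]
    exact Ideal.mem_map_of_mem _ hGP
  have hg2 : algebraMap T L G ∉ maximalIdeal L ^ 2 := by
    intro hmem
    rw [← hmL, ← Ideal.map_pow, IsLocalization.mem_map_algebraMap_iff P.primeCompl] at hmem
    obtain ⟨⟨⟨x, hx⟩, ⟨u, hu⟩⟩, hxu⟩ := hmem
    simp only at hxu
    rw [← map_mul] at hxu
    obtain ⟨⟨c, hc⟩, hcx⟩ := (IsLocalization.eq_iff_exists P.primeCompl L).1 hxu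
    simp only at hcx
    apply h P hPp hGP (c * u)
    · exact fun hcu => (hPp.mem_or_mem hcu).elim hc hu
    · have : c * u * G = c * x := by rw [← hcx]; ring
      rw [this]
      exact Ideal.mul_mem_left _ _ hx
  obtain ⟨b, hbfin, hbcard, hbspan⟩ := exists_gens (algebraMap T L G) hg hg2
  have hφG : φ (algebraMap T L G) = 0 := by
    have h1 : φ (algebraMap T L G) = algebraMap (T ⧸ Ideal.span {G}) L'
        (Ideal.Quotient.mk (Ideal.span {G}) G) := Localization.localRingHom_to_map P p _ rfl G
    rw [h1, Ideal.Quotient.eq_zero_iff_mem.2 (Ideal.mem_span_singleton_self G), map_zero]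
  have hmap : maximalIdeal L' = (maximalIdeal L).map φ := by
    rw [← hmL, ← hmL', Ideal.map_map]
    have h1 : φ.comp (algebraMap T L) = (algebraMap (T ⧸ Ideal.span {G}) L').comp
        (Ideal.Quotient.mk (Ideal.span {G})) := by
      ext x
      exact Localization.localRingHom_to_map P p _ rfl x
    rw [h1, ← Ideal.map_map]
    congr 1
    rw [hP, Ideal.map_comap_of_surjective _ Ideal.Quotient.mk_surjective]
  have hm' : maximalIdeal L' = Ideal.span (φ '' b) := by
    rw [hmap, hbspan, Ideal.map_span, Set.image_insert_eq, hφG, Ideal.span_insert_zero]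
  apply IsRegularLocalRing.of_spanFinrank_maximalIdeal_le
  have h1 : (maximalIdeal L').spanFinrank ≤ b.ncard := by
    rw [hm']
    exact (Submodule.spanFinrank_span_le_ncard_of_finite (hbfin.image _)).trans
      (Set.ncard_image_le hbfin)
  have h2 : ((maximalIdeal L).spanFinrank : WithBot ℕ∞) = ringKrullDim L :=
    IsRegularLocalRing.spanFinrank_maximalIdeal
  have h3 : ringKrullDim L = P.height := IsLocalization.AtPrime.ringKrullDim_eq_height P L
  have h4 : ringKrullDim L' = p.height := IsLocalization.AtPrime.ringKrullDim_eq_height p L'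
  have h5 : P.height ≤ p.height + 1 := by
    have := Ideal.height_le_height_add_one_of_mem (r := G) (p := P) hGP
    rwa [hP, Ideal.map_comap_of_surjective _ Ideal.Quotient.mk_surjective, ← hP] at this
  change ((maximalIdeal L').spanFinrank : WithBot ℕ∞) ≤ ringKrullDim L'
  rw [h4]
  rw [h3] at h2
  have h6 : ((maximalIdeal L).spanFinrank : ℕ∞) = P.height := by exact_mod_cast h2
  have h7 : ((b.ncard + 1 : ℕ) : ℕ∞) ≤ p.height + 1 := by
    refine le_trans ?_ h5
    rw [← h6]
    exact_mod_cast hbcard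
  have h8 : ((b.ncard : ℕ) : ℕ∞) ≤ p.height := by
    push_cast at h7
    exact (ENat.add_le_add_iff_right (by simp)).1 h7
  have h9 : (((maximalIdeal L').spanFinrank : ℕ) : ℕ∞) ≤ p.height :=
    le_trans (by exact_mod_cast h1) h8
  exact_mod_cast h9

/-! ### derivations -/

/-- Apply `D` to the coefficients. -/
noncomputable def cd {R : Type*} [CommRing R] (D : R → R) (p : R[X]) : R[X] :=
  ∑ i ∈ p.support, monomial i (D (p.coeff i))

/-- An additive map with the Leibniz rule. -/
structure IsDer {R : Type*} [CommRing R] (D : R → R) : Prop where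
  add : ∀ a b, D (a + b) = D a + D b
  mul : ∀ a b, D (a * b) = D a * b + a * D b

theorem IsDer.zero {R : Type*} [CommRing R] {D : R → R} (h : IsDer D) : D 0 = 0 := by
  have := h.add 0 0
  rw [add_zero] at this
  exact left_eq_add.1 this

theorem IsDer.sum {R : Type*} [CommRing R] {D : R → R} (h : IsDer D) {α : Type*}
    (T : Finset α) (f : α → R) : D (∑ i ∈ T, f i) = ∑ i ∈ T, D (f i) := by
  classical
  induction T using Finset.induction_on with
  | empty => simpa using h.zero
  | insert a T ha ih => rw [Finset.sum_insert ha, Finset.sum_insert ha, h.add, ih]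

theorem IsDer.neg {R : Type*} [CommRing R] {D : R → R} (h : IsDer D) (a : R) :
    D (-a) = - D a := by
  have := h.add a (-a)
  rw [add_neg_cancel, h.zero] at this
  exact (neg_eq_of_add_eq_zero_right this.symm).symm

theorem IsDer.sub {R : Type*} [CommRing R] {D : R → R} (h : IsDer D) (a b : R) :
    D (a - b) = D a - D b := by
  rw [sub_eq_add_neg, h.add, h.neg, sub_eq_add_neg]

theorem cd_coeff {R : Type*} [CommRing R] {D : R → R} (h : D 0 = 0) (p : R[X]) (i : ℕ) :
    (cd D p).coeff i = D (p.coeff i) := by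
  unfold cd
  rw [finsetSum_coeff]
  simp only [coeff_monomial]
  rw [Finset.sum_ite_eq']
  split_ifs with hi
  · rfl
  · rw [notMem_support_iff.1 hi, h]

theorem IsDer.cd {R : Type*} [CommRing R] {D : R → R} (h : IsDer D) : IsDer (cd D) := by
  constructor
  · intro a b
    ext i
    rw [coeff_add, cd_coeff h.zero, cd_coeff h.zero, cd_coeff h.zero, coeff_add, h.add]
  · intro a b
    ext i
    rw [coeff_add, cd_coeff h.zero, coeff_mul, coeff_mul, coeff_mul, h.sum,
      ← Finset.sum_add_distrib]
    apply Finset.sum_congr rfl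
    intro x _
    rw [h.mul, cd_coeff h.zero, cd_coeff h.zero]

theorem isDer_derivative {R : Type*} [CommRing R] : IsDer (fun p : R[X] => derivative p) :=
  ⟨fun a b => derivative_add, fun a b => derivative_mul⟩

theorem IsDer.mem_of_sq {T : Type*} [CommRing T] {D : T → T} (h : IsDer D) {P : Ideal T}
    {x : T} (hx : x ∈ P ^ 2) : D x ∈ P := by
  rw [pow_two] at hx
  induction hx using Submodule.mul_induction_on' with
  | mem_mul_mem a ha b hb =>
    rw [h.mul]
    exact P.add_mem (P.mul_mem_left _ hb) (P.mul_mem_right _ ha)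
  | add a _ b _ iha ihb =>
    rw [h.add]
    exact P.add_mem iha ihb

theorem IsDer.mem_of_smul {T : Type*} [CommRing T] {D : T → T} (h : IsDer D) {P : Ideal T}
    (hP : P.IsPrime) {G u : T} (hG : G ∈ P) (hu : u ∉ P) (hx : u * G ∈ P ^ 2) : D G ∈ P := by
  have h1 := h.mem_of_sq hx
  rw [h.mul] at h1
  have h2 : u * D G ∈ P := (P.add_mem_iff_right (P.mul_mem_left _ hG)).1 h1
  exact (hP.mem_or_mem h2).resolve_left hu

section smooth

variable {k : Type*} [Field k]

/-- the partial derivative with respect to `s` (the inner variable). -/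
noncomputable def dS (F : k[X][X]) : k[X][X] := cd (fun p : k[X] => derivative p) F

theorem cd_C {R : Type*} [CommRing R] {D : R → R} (h : IsDer D) (r : R) :
    cd D (C r) = C (D r) := by
  ext i
  rw [cd_coeff h.zero, coeff_C, coeff_C]
  split_ifs
  · rfl
  · exact h.zero

theorem cd_X_pow {R : Type*} [CommRing R] {D : R → R} (h : IsDer D) (n : ℕ) :
    cd D (X ^ n : R[X]) = 0 := by
  have h1 : D 1 = 0 := by
    have := h.mul 1 1
    rw [mul_one, mul_one, one_mul] at this
    exact left_eq_add.1 this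
  ext i
  rw [cd_coeff h.zero, coeff_X_pow, coeff_zero]
  split_ifs
  · exact h1
  · exact h.zero

theorem jac {T : Type*} [CommRing T] {P : Ideal T} (hP : P.IsPrime) {Y f u : T} (h : T)
    (hh : 2 * h = 1) (hG : Y ^ 2 - f ∈ P) (hu : u ∉ P) (hmem : u * (Y ^ 2 - f) ∈ P ^ 2)
    {D₁ D₂ D₃ : T → T} (h₁ : IsDer D₁) (h₂ : IsDer D₂) (h₃ : IsDer D₃) (h1Y : D₁ Y = 1)
    (h1f : D₁ f = 0) (h2Y : D₂ Y = 0) (h3Y : D₃ Y = 0) : f ∈ P ∧ D₂ f ∈ P ∧ D₃ f ∈ P := by
  have e1 := h₁.mem_of_smul hP hG hu hmem
  have e2 := h₂.mem_of_smul hP hG hu hmem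
  have e3 := h₃.mem_of_smul hP hG hu hmem
  rw [h₁.sub, pow_two, h₁.mul, h1Y, h1f] at e1
  rw [h₂.sub, pow_two, h₂.mul, h2Y] at e2
  rw [h₃.sub, pow_two, h₃.mul, h3Y] at e3
  have hY : Y ∈ P := by
    have h4 := P.mul_mem_left h e1
    have h5 : h * (1 * Y + Y * 1 - 0) = Y := by linear_combination Y * hh
    rwa [h5] at h4
  have hf : f ∈ P := by
    have h4 := P.sub_mem (P.mul_mem_left Y hY) hG
    have h5 : Y * Y - (Y ^ 2 - f) = f := by ring
    rwa [h5] at h4
  refine ⟨hf, ?_, ?_⟩
  · have h5 : 0 * Y + Y * 0 - D₂ f = - D₂ f := by ring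
    rw [h5] at e2
    exact neg_mem_iff.1 e2
  · have h5 : 0 * Y + Y * 0 - D₃ f = - D₃ f := by ring
    rw [h5] at e3
    exact neg_mem_iff.1 e3

theorem cd_X {R : Type*} [CommRing R] {D : R → R} (h : IsDer D) : cd D (X : R[X]) = 0 := by
  have := cd_X_pow h 1
  rwa [pow_one] at this

/-- the double cover of a polynomial ring -/
theorem isRegularRing_double {S : Type*} [CommRing S] [IsRegularRing S[X]] (h : S)
    (hh : 2 * h = 1) (F : S) {D₂ D₃ : S → S} (h₂ : IsDer D₂) (h₃ : IsDer D₃)
    (hsm : Ideal.span {F, D₂ F, D₃ F} = ⊤) :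
    IsRegularRing (S[X] ⧸ Ideal.span {(X ^ 2 - C F : S[X])}) := by
  apply isRegular_quot
  intro P hP hG u hu hmem
  obtain ⟨hF, hF1, hF2⟩ := jac hP (C h) (by
    have e1 : (C (2 : S) : S[X]) = 2 := map_ofNat C 2
    rw [← e1, ← C_mul, hh, C_1]) hG hu hmem (isDer_derivative (R := S)) h₂.cd h₃.cd
    derivative_X derivative_C (cd_X h₂) (cd_X h₃)
  rw [cd_C h₂] at hF1
  rw [cd_C h₃] at hF2
  apply hP.ne_top
  rw [Ideal.eq_top_iff_one]
  have h1 : Ideal.span {F, D₂ F, D₃ F} ≤ P.comap C := by
    rw [Ideal.span_le]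
    intro x hx
    simp only [Set.mem_insert_iff, Set.mem_singleton_iff] at hx
    rcases hx with rfl | rfl | rfl
    · exact hF
    · exact hF1
    · exact hF2
  rw [hsm, top_le_iff] at h1
  have h3 : (1 : S) ∈ P.comap C := by rw [h1]; trivial
  rwa [Ideal.mem_comap, C_1] at h3

/-- If `F`, `∂F/∂x`, `∂F/∂s` generate the unit ideal (and the characteristic is not two), the
surface `y^2 = F(s, x)` is regular. -/
theorem isRegularRing_HRing (h : k) (hh : 2 * h = 1) (F : k[X][X])
    (hsm : Ideal.span {F, derivative F, dS F} = ⊤) : IsRegularRing (HRing F) :=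
  isRegularRing_double (C (C h)) (by
    have e1 : (C (2 : k) : k[X]) = 2 := map_ofNat C 2
    have e2 : (C (2 : k[X]) : k[X][X]) = 2 := map_ofNat C 2
    rw [← e2, ← C_mul, ← e1, ← C_mul, hh, C_1, C_1]) F
    (isDer_derivative (R := k[X])) (isDer_derivative (R := k)).cd hsm

/-- Dimension of a hypersurface. -/
theorem ringKrullDim_quot {T : Type*} [CommRing T] [IsDomain T] [IsNoetherianRing T] (G : T)
    (hG : G ≠ 0) (hT : ringKrullDim T = 3) (hmax : ∀ P : Ideal T, P.IsMaximal → P.height = 3)
    (hnt : Nontrivial (T ⧸ Ideal.span {G})) : ringKrullDim (T ⧸ Ideal.span {G}) = 2 := by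
  apply le_antisymm
  · have h1 := ringKrullDim_quotient_succ_le_of_nonZeroDivisor
      (mem_nonZeroDivisors_of_ne_zero hG)
    rw [hT] at h1
    have hb : ringKrullDim (T ⧸ Ideal.span {G}) ≠ ⊥ := by
      intro h0
      have := ringKrullDim_nonneg_of_nontrivial (R := T ⧸ Ideal.span {G})
      rw [h0] at this
      exact absurd this (by simp)
    obtain ⟨d, hd⟩ := WithBot.ne_bot_iff_exists.1 hb
    rw [← hd] at h1 ⊢
    have h3 : d + 1 ≤ 3 := by
      have h3' : ((d + 1 : ℕ∞) : WithBot ℕ∞) ≤ ((3 : ℕ∞) : WithBot ℕ∞) := h1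
      exact WithBot.coe_le_coe.1 h3'
    have h4 : (3 : ℕ∞) = 2 + 1 := by norm_num
    rw [h4] at h3
    have h5 : d ≤ 2 := (ENat.add_le_add_iff_right (by simp)).1 h3
    have h6 : ((d : ℕ∞) : WithBot ℕ∞) ≤ ((2 : ℕ∞) : WithBot ℕ∞) := WithBot.coe_le_coe.2 h5
    exact h6
  · obtain ⟨m, hmm⟩ := Ideal.exists_maximal (T ⧸ Ideal.span {G})
    let P : Ideal T := m.comap (Ideal.Quotient.mk (Ideal.span {G}))
    have hP : P.IsMaximal := Ideal.comap_isMaximal_of_surjective _ Ideal.Quotient.mk_surjective
    have hGP : G ∈ P := by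
      rw [Ideal.mem_comap, Ideal.Quotient.eq_zero_iff_mem.2 (Ideal.mem_span_singleton_self _)]
      exact m.zero_mem
    have h5 : P.height ≤ m.height + 1 := by
      have := Ideal.height_le_height_add_one_of_mem (r := G) (p := P) hGP
      rwa [Ideal.map_comap_of_surjective _ Ideal.Quotient.mk_surjective] at this
    rw [hmax P hP] at h5
    have h6 : (2 : ℕ∞) ≤ m.height := by
      have h7 : (3 : ℕ∞) = 2 + 1 := by norm_num
      rw [h7] at h5
      exact (ENat.add_le_add_iff_right (by simp)).1 h5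
    have h8 : (m.height : WithBot ℕ∞) ≤ ringKrullDim (T ⧸ Ideal.span {G}) :=
      Ideal.height_le_ringKrullDim_of_ne_top hmm.ne_top
    refine le_trans ?_ h8
    have h9 : ((2 : ℕ∞) : WithBot ℕ∞) ≤ (m.height : WithBot ℕ∞) := WithBot.coe_le_coe.2 h6
    exact h9

theorem height_poly {R : Type*} [CommRing R] [IsNoetherianRing R] [IsJacobsonRing R] (h : ℕ∞)
    (hR : ∀ P : Ideal R, P.IsMaximal → P.height = h) (P : Ideal R[X]) (hP : P.IsMaximal) :
    P.height = h + 1 := by
  have h1 : (P.under R).IsMaximal := Polynomial.isMaximal_comap_C_of_isJacobsonRing P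
  rw [height_eq_height_add_one (P.under R) P, hR _ h1]

theorem height_field {R : Type*} [Field R] (P : Ideal R) (hP : P.IsMaximal) : P.height = 0 := by
  have h5 := Ideal.height_le_ringKrullDim_of_ne_top hP.ne_top
  rw [ringKrullDim_eq_zero_of_field] at h5
  have h6 : P.height ≤ 0 := by exact_mod_cast h5
  exact le_antisymm h6 bot_le

/-- The dimension of the surface `y^2 = F(s, x)` is two. -/
theorem ringKrullDim_HRing (F : k[X][X]) : ringKrullDim (HRing F) = 2 := by
  have hm : (X ^ 2 - C F : k[X][X][X]).Monic := monic_X_pow_sub_C F two_ne_zero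
  have hd : (X ^ 2 - C F : k[X][X][X]).natDegree = 2 := natDegree_X_pow_sub_C
  have hT : ringKrullDim k[X][X][X] = 3 := by
    rw [ringKrullDim_of_isNoetherianRing, ringKrullDim_of_isNoetherianRing,
      ringKrullDim_of_isNoetherianRing, ringKrullDim_eq_zero_of_field]
    norm_num
  have hnt : Nontrivial (HRing F) := by
    apply AdjoinRoot.nontrivial
    rw [degree_eq_natDegree hm.ne_zero, hd]
    simp
  have hh := height_poly _ (height_poly _ (height_poly (R := k) _ height_field))
  exact ringKrullDim_quot (X ^ 2 - C F : k[X][X][X]) hm.ne_zero hT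
    (fun P hP => by rw [hh P hP]; norm_num) hnt

end smooth

end Pool.Agent.K1.Hyper
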