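import Pool.Agent.K1.L2Defs

/-!
Layer 2, L2-14: the digit expansion along a prime element whose residue ring is a polynomial
ring.
-/

open Polynomial

namespace Pool.Agent.K1

namespace L2Digits

variable {k B : Type} [Field k] [CommRing B] [IsDomain B] [Algebra k B]

/-- The value of the truncation of a power series. -/
noncomputable def ev (s τ : B) (n : ℕ) (F : PowerSeries k[X]) : B :=
  (PowerSeries.trunc n F).eval₂ ((aeval s : k[X] →ₐ[k] B) : k[X] →+* B) τ

omit [IsDomain B] in
theorem ev_eq (s τ : B) (n : ℕ) (F : PowerSeries k[X]) :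
    ev s τ n F = ∑ i ∈ Finset.range n, aeval s (PowerSeries.coeff i F) * τ ^ i := by
  rw [ev, PowerSeries.eval₂_trunc_eq_sum_range]
  rfl

omit [IsDomain B] in
theorem ev_add (s τ : B) (n : ℕ) (F G : PowerSeries k[X]) :
    ev s τ n (F + G) = ev s τ n F + ev s τ n G := by
  simp only [ev_eq, map_add, add_mul, Finset.sum_add_distrib]

omit [IsDomain B] in
theorem ev_sub (s τ : B) (n : ℕ) (F G : PowerSeries k[X]) :
    ev s τ n (F - G) = ev s τ n F - ev s τ n G := by
  simp only [ev_eq, map_sub, sub_mul, Finset.sum_sub_distrib]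

omit [IsDomain B] in
theorem ev_mul (s τ : B) (n : ℕ) (F G : PowerSeries k[X]) :
    τ ^ n ∣ ev s τ n F * ev s τ n G - ev s τ n (F * G) := by
  have h : (X : k[X][X]) ^ n ∣ PowerSeries.trunc n F * PowerSeries.trunc n G -
      PowerSeries.trunc n (F * G) := by
    rw [Polynomial.X_pow_dvd_iff]
    intro d hd
    rw [Polynomial.coeff_sub, PowerSeries.coeff_trunc, if_pos hd,
      PowerSeries.coeff_mul_eq_coeff_trunc_mul_trunc _ _ hd, ← Polynomial.coe_mul,
      Polynomial.coeff_coe, sub_self]
  obtain ⟨Q, hQ⟩ := h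
  refine ⟨Q.eval₂ ((aeval s : k[X] →ₐ[k] B) : k[X] →+* B) τ, ?_⟩
  have := congrArg (Polynomial.eval₂ ((aeval s : k[X] →ₐ[k] B) : k[X] →+* B) τ) hQ
  rw [Polynomial.eval₂_sub, Polynomial.eval₂_mul, Polynomial.eval₂_mul, Polynomial.eval₂_pow,
    Polynomial.eval₂_X] at this
  exact this

theorem ev_uniq (s τ : B) (hτ : τ ≠ 0) (h2 : ∀ P : k[X], τ ∣ aeval s P → P = 0) :
    ∀ (n : ℕ) (f : ℕ → k[X]), τ ^ n ∣ ∑ i ∈ Finset.range n, aeval s (f i) * τ ^ i →
      ∀ i < n, f i = 0 := by
  intro n
  induction n with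
  | zero => intro f _ i hi; exact absurd hi (Nat.not_lt_zero i)
  | succ n ih =>
    intro f hf i hi
    rw [Finset.sum_range_succ', pow_zero, mul_one] at hf
    have e : ∑ i ∈ Finset.range n, aeval s (f (i + 1)) * τ ^ (i + 1) =
        τ * ∑ i ∈ Finset.range n, aeval s (f (i + 1)) * τ ^ i := by
      rw [Finset.mul_sum]
      refine Finset.sum_congr rfl fun i _ => ?_
      rw [pow_succ]; ring
    rw [e] at hf
    have h0 : f 0 = 0 := by
      apply h2
      have : τ ∣ τ * ∑ i ∈ Finset.range n, aeval s (f (i + 1)) * τ ^ i + aeval s (f 0) :=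
        (dvd_pow_self τ (Nat.succ_ne_zero n)).trans hf
      exact (dvd_add_right (dvd_mul_right τ _)).mp this
    rw [h0, map_zero, add_zero, pow_succ', mul_dvd_mul_iff_left hτ] at hf
    cases i with
    | zero => exact h0
    | succ i => exact ih (fun i => f (i + 1)) hf i (Nat.lt_of_succ_lt_succ hi)

theorem ev_inj (s τ : B) (hτ : τ ≠ 0) (h2 : ∀ P : k[X], τ ∣ aeval s P → P = 0) (n : ℕ)
    (F G : PowerSeries k[X]) (h : τ ^ n ∣ ev s τ n F - ev s τ n G) (i : ℕ) (hi : i < n) :
    PowerSeries.coeff i F = PowerSeries.coeff i G := by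
  rw [← ev_sub, ev_eq] at h
  have := ev_uniq s τ hτ h2 n (fun i => PowerSeries.coeff i (F - G)) h i hi
  simp only [map_sub] at this
  exact sub_eq_zero.mp this

/-- Two series with the same approximations are equal. -/
theorem ser_ext (s τ : B) (hτ : τ ≠ 0) (h2 : ∀ P : k[X], τ ∣ aeval s P → P = 0)
    (F G : PowerSeries k[X]) (x : B) (hF : ∀ n, τ ^ (n + 2) ∣ x - ev s τ (n + 2) F)
    (hG : ∀ n, τ ^ (n + 2) ∣ x - ev s τ (n + 2) G) : F = G := by
  ext1 n
  refine ev_inj s τ hτ h2 (n + 2) F G ?_ n (by omega)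
  have := dvd_sub (hG n) (hF n)
  rwa [sub_sub_sub_cancel_left] at this

end L2Digits

open L2Digits in
/-- Digit expansion. -/
theorem exists_digits {k B : Type} [Field k] [CommRing B] [IsDomain B] [Algebra k B]
    (s τ : B) (hτ : τ ≠ 0) (h1 : ∀ x : B, ∃ P : k[X], τ ∣ x - aeval s P)
    (h2 : ∀ P : k[X], τ ∣ aeval s P → P = 0) :
    ∃ exp : B →+* PowerSeries k[X],
      (∀ x n, (∀ i < n, PowerSeries.coeff i (exp x) = 0) ↔ τ ^ n ∣ x) ∧
      (∀ P : k[X], exp (aeval s P) = PowerSeries.C P) ∧ exp τ = PowerSeries.X := by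
  classical
  choose d0 hd0 using h1
  choose nx hnx using hd0
  let co : B → PowerSeries k[X] := fun x => PowerSeries.mk fun n => d0 (nx^[n] x)
  have hA : ∀ n x, x = ev s τ n (co x) + τ ^ n * nx^[n] x := by
    intro n x
    induction n with
    | zero => simp [ev_eq]
    | succ n ih =>
      have e : nx^[n] x = aeval s (d0 (nx^[n] x)) + τ * nx (nx^[n] x) := by
        rw [← hnx]; ring
      have e2 : PowerSeries.coeff n (co x) = d0 (nx^[n] x) := PowerSeries.coeff_mk _ _
      rw [ev_eq, Finset.sum_range_succ, ← ev_eq, e2, Function.iterate_succ_apply']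
      calc x = ev s τ n (co x) + τ ^ n * nx^[n] x := ih
        _ = ev s τ n (co x) + τ ^ n * (aeval s (d0 (nx^[n] x)) + τ * nx (nx^[n] x)) := by
            rw [← e]
        _ = _ := by ring
  have hD : ∀ n x, τ ^ n ∣ x - ev s τ n (co x) := by
    intro n x
    refine ⟨nx^[n] x, ?_⟩
    have := hA n x
    linear_combination this
  have hC : ∀ P : k[X], co (aeval s P) = PowerSeries.C P := by
    intro P
    refine ser_ext s τ hτ h2 _ _ (aeval s P) (fun n => hD _ _) (fun n => ?_)
    have : ev s τ (n + 2) (PowerSeries.C P) = aeval s P := by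
      rw [ev_eq, Finset.sum_range_succ']
      simp [PowerSeries.coeff_C]
    rw [this, sub_self]
    exact dvd_zero _
  have hX : co τ = PowerSeries.X := by
    refine ser_ext s τ hτ h2 _ _ τ (fun n => hD _ _) (fun n => ?_)
    have : ev s τ (n + 2) (PowerSeries.X : PowerSeries k[X]) = τ := by
      rw [ev_eq, Finset.sum_range_succ', Finset.sum_range_succ']
      simp [PowerSeries.coeff_X]
    rw [this, sub_self]
    exact dvd_zero _
  have hadd : ∀ x y, co (x + y) = co x + co y := by
    intro x y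
    refine ser_ext s τ hτ h2 _ _ (x + y) (fun n => hD _ _) (fun n => ?_)
    rw [ev_add]
    have := dvd_add (hD (n + 2) x) (hD (n + 2) y)
    rwa [sub_add_sub_comm] at this
  have hmul : ∀ x y, co (x * y) = co x * co y := by
    intro x y
    refine ser_ext s τ hτ h2 _ _ (x * y) (fun n => hD _ _) (fun n => ?_)
    have e : x * y - ev s τ (n + 2) (co x * co y) =
        (x - ev s τ (n + 2) (co x)) * y + ev s τ (n + 2) (co x) * (y - ev s τ (n + 2) (co y)) +
        (ev s τ (n + 2) (co x) * ev s τ (n + 2) (co y) - ev s τ (n + 2) (co x * co y)) := by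
      ring
    rw [e]
    exact dvd_add (dvd_add (Dvd.dvd.mul_right (hD _ _) _) (Dvd.dvd.mul_left (hD _ _) _))
      (ev_mul s τ (n + 2) _ _)
  have hone : co 1 = 1 := by
    have := hC 1
    rwa [map_one, map_one] at this
  have hzero : co 0 = 0 := by
    have := hC 0
    rwa [map_zero, map_zero] at this
  refine ⟨{ toFun := co, map_one' := hone, map_mul' := hmul, map_zero' := hzero,
            map_add' := hadd }, ?_, hC, hX⟩
  intro x n
  constructor
  · intro h
    have e : ev s τ n (co x) = 0 := by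
      rw [ev_eq]
      refine Finset.sum_eq_zero fun i hi => ?_
      have := h i (Finset.mem_range.mp hi)
      change PowerSeries.coeff i (co x) = 0 at this
      rw [this, map_zero, zero_mul]
    have := hD n x
    rwa [e, sub_zero] at this
  · intro h i hi
    have h0 : τ ^ n ∣ ev s τ n (co x) - ev s τ n (0 : PowerSeries k[X]) := by
      have e : ev s τ n (0 : PowerSeries k[X]) = 0 := by
        rw [ev_eq]; simp
      rw [e, sub_zero]
      have := dvd_sub h (hD n x)
      rwa [sub_sub_cancel] at this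
    have := ev_inj s τ hτ h2 n (co x) 0 h0 i hi
    rw [map_zero] at this
    exact this

end Pool.Agent.K1
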