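import Pool.Agent.K1.L2Defs
import Pool.Agent.K1.L2Digits

/-!
Layer 2: the expansion of the chart ring along the last exceptional curve.
-/

open Polynomial

namespace Pool.Agent.K1

/-- Clearing denominators in the value of a polynomial at a fraction. -/
theorem exp_clear {E : Type} [CommRing E] [IsDomain E] (z w : E) (hw : w ≠ 0) (p : E[X])
    (N : ℕ) (hN : p.natDegree ≤ N) :
    ∃ e : E, algebraMap E (FractionRing E) e = algebraMap E (FractionRing E) w ^ N *
      aeval (algebraMap E (FractionRing E) z / algebraMap E (FractionRing E) w) p := by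
  have hw' : algebraMap E (FractionRing E) w ≠ 0 := by
    simpa using hw
  refine ⟨∑ i ∈ Finset.range (N + 1), p.coeff i * z ^ i * w ^ (N - i), ?_⟩
  rw [aeval_eq_sum_range' (Nat.lt_succ_of_le hN), map_sum, Finset.mul_sum]
  refine Finset.sum_congr rfl fun i hi => ?_
  have hi' : i ≤ N := Nat.lt_succ_iff.1 (Finset.mem_range.1 hi)
  obtain ⟨d, rfl⟩ := Nat.exists_eq_add_of_le hi'
  rw [Nat.add_sub_cancel_left, Algebra.smul_def, map_mul, map_mul, map_pow, map_pow, div_pow,
    pow_add]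
  field_simp

/-- A polynomial vanishing at `z / w` is a multiple of `w X - z` if `z`, `w` is a regular
sequence. -/
theorem exp_elim {E : Type} [CommRing E] [IsDomain E] (z w : E) (hw : w ≠ 0)
    (hzw : ∀ (c : E) (N : ℕ), w ∣ c * z ^ N → w ∣ c) (N : ℕ) :
    ∀ p : E[X], p.natDegree ≤ N →
      aeval (algebraMap E (FractionRing E) z / algebraMap E (FractionRing E) w) p = 0 →
      ∃ q : E[X], p = (C w * X - C z) * q := by
  have hw' : algebraMap E (FractionRing E) w ≠ 0 := by
    simpa using hw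
  induction N with
  | zero =>
    intro p hp h
    rw [eq_C_of_natDegree_le_zero hp, aeval_C] at h
    have h0 : p.coeff 0 = 0 := by simpa using h
    refine ⟨0, ?_⟩
    rw [eq_C_of_natDegree_le_zero hp, h0]
    simp
  | succ N ih =>
    intro p hp h
    set c := p.coeff (N + 1) with hc
    have hp' : (p - C c * X ^ (N + 1)).natDegree ≤ N := by
      rw [natDegree_le_iff_coeff_eq_zero]
      intro i hi
      rw [coeff_sub, coeff_C_mul_X_pow]
      by_cases hi' : i = N + 1
      · rw [if_pos hi', hi', hc, sub_self]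
      · rw [if_neg hi', sub_zero]
        exact coeff_eq_zero_of_natDegree_lt (by omega)
    obtain ⟨e, he⟩ := exp_clear z w hw _ N hp'
    have h1 : w ∣ c * z ^ (N + 1) := by
      refine ⟨-e, ?_⟩
      apply IsFractionRing.injective E (FractionRing E)
      rw [map_mul, map_mul, map_neg, he, map_sub, h, zero_sub, map_mul, aeval_C, map_pow,
        map_pow, aeval_X, div_pow, pow_succ (algebraMap E (FractionRing E) w)]
      field_simp
    obtain ⟨c', hc'⟩ := hzw c _ h1
    have h2 : (p - (C w * X - C z) * (C c' * X ^ N)).natDegree ≤ N := by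
      rw [natDegree_le_iff_coeff_eq_zero]
      intro i hi
      have h3 : (C w * X - C z) * (C c' * X ^ N) =
          C (w * c') * X ^ (N + 1) - C (z * c') * X ^ N := by
        rw [C_mul, C_mul]; ring
      rw [h3, coeff_sub, coeff_sub, coeff_C_mul_X_pow, coeff_C_mul_X_pow,
        if_neg (show ¬ i = N by omega), sub_zero]
      by_cases hi' : i = N + 1
      · rw [if_pos hi', hi', ← hc, ← hc', sub_self]
      · rw [if_neg hi', sub_zero]
        exact coeff_eq_zero_of_natDegree_lt (by omega)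
    obtain ⟨q, hq⟩ := ih _ h2 (by
      rw [map_sub, h, map_mul, map_sub, map_mul, aeval_C, aeval_C, aeval_X,
        mul_div_cancel₀ _ hw']
      simp)
    exact ⟨q + C c' * X ^ N, by rw [mul_add, ← hq]; ring⟩

theorem exp_coeff_mem {E : Type} [CommRing E] [IsDomain E] (z w : E) (hw : w ≠ 0)
    (hzw : ∀ (c : E) (N : ℕ), w ∣ c * z ^ N → w ∣ c) (p : E[X])
    (h : aeval (algebraMap E (FractionRing E) z / algebraMap E (FractionRing E) w) p = 0)
    (n : Ideal E) (hz : z ∈ n) (hwn : w ∈ n) (i : ℕ) : p.coeff i ∈ n := by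
  obtain ⟨q, rfl⟩ := exp_elim z w hw hzw _ p le_rfl h
  have h1 : (C w * X - C z) * q ∈ Ideal.map C n :=
    Ideal.mul_mem_right _ _ (Ideal.sub_mem _
      (Ideal.mul_mem_right _ _ (Ideal.mem_map_of_mem _ hwn)) (Ideal.mem_map_of_mem _ hz))
  exact Ideal.mem_map_C_iff.1 h1 i

theorem exp_sup_pow {B : Type} [CommRing B] (a b : B) (M : ℕ) :
    Ideal.span {a, b} ^ M ≤ Ideal.span {b ^ M} ⊔ Ideal.span {a} := by
  induction M with
  | zero => simp
  | succ M ih =>
    rw [pow_succ]
    refine (Ideal.mul_mono_left ih).trans ?_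
    rw [Ideal.span_insert a, Ideal.sup_mul, Ideal.mul_sup, Ideal.mul_sup]
    have h1 : Ideal.span {b ^ M} * Ideal.span {b} ≤ Ideal.span {b ^ (M + 1)} := by
      rw [Ideal.span_singleton_mul_span_singleton, ← pow_succ]
    exact sup_le (sup_le (le_sup_of_le_right Ideal.mul_le_right) (le_sup_of_le_left h1))
      (sup_le (le_sup_of_le_right Ideal.mul_le_left) (le_sup_of_le_right Ideal.mul_le_left))

/-- The computation in the ring `B`. -/
theorem exp_core {k E : Type} [Field k] [CommRing E] [Algebra k E] (x₀ : E →ₐ[k] k)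
    (t τ φ : E) (M m : ℕ) (hM : 1 ≤ M) (hm : 2 ≤ m)
    (ht0 : x₀ t = 0) (hτ : x₀ τ = 0)
    (hker : RingHom.ker x₀ ≤ Ideal.span {t, τ} ⊔ (RingHom.ker x₀) ^ 2)
    (hφ : φ ∈ (RingHom.ker x₀) ^ M ⊔ Ideal.span {t}) (hτM : τ ^ M ∈ Ideal.span {φ, t})
    {B : Type} [CommRing B] [IsDomain B] [IsNoetherianRing B] (g : E →+* B) (s : B)
    (hz : g (φ ^ 2 + t) = s * g t ^ m) (ht : g t ≠ 0)
    (hu : ∀ b ∈ Ideal.map g (RingHom.ker x₀), IsUnit (1 + b)) :
    g τ ≠ 0 ∧ Ideal.map g (RingHom.ker x₀) = Ideal.span {g τ} ∧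
      ∃ ε : B, IsUnit ε ∧ g t = g τ ^ (2 * M) * ε := by
  set n := RingHom.ker x₀ with hn
  set I := Ideal.map g n with hI
  have htn : t ∈ n := ht0
  have hτn : τ ∈ n := hτ
  have htI : g t ∈ I := Ideal.mem_map_of_mem _ htn
  have hτI : g τ ∈ I := Ideal.mem_map_of_mem _ hτn
  -- Nakayama
  have hjac : I ≤ Ideal.jacobson ⊥ := by
    intro x hx
    rw [Ideal.mem_jacobson_bot]
    intro y
    rw [add_comm]
    exact hu _ (Ideal.mul_mem_right _ _ hx)
  have hmap : I ≤ Ideal.span {g t, g τ} ⊔ I • I := by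
    have h1 := Ideal.map_mono (f := g) hker
    rw [Ideal.map_sup, Ideal.map_span, Ideal.map_pow, Set.image_pair, pow_two] at h1
    rw [smul_eq_mul]
    exact h1
  have hI1 : I ≤ Ideal.span {g t, g τ} :=
    (Submodule.le_of_le_smul_of_le_jacobson_bot (IsNoetherian.noetherian _) hjac hmap)
  have hφ1 : g φ ∈ Ideal.span {g τ ^ M} ⊔ Ideal.span {g t} := by
    have h1 : g φ ∈ Ideal.map g (n ^ M ⊔ Ideal.span {t}) := Ideal.mem_map_of_mem _ hφ
    rw [Ideal.map_sup, Ideal.map_pow, Ideal.map_span, Set.image_singleton] at h1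
    have h2 : I ^ M ≤ Ideal.span {g τ ^ M} ⊔ Ideal.span {g t} := by
      exact (Ideal.pow_right_mono hI1 M).trans (exp_sup_pow _ _ _)
    exact (sup_le h2 le_sup_right) h1
  obtain ⟨a, ha, b, hb, hab⟩ := Submodule.mem_sup.1 hφ1
  obtain ⟨α, rfl⟩ := Ideal.mem_span_singleton'.1 ha
  obtain ⟨β, rfl⟩ := Ideal.mem_span_singleton'.1 hb
  obtain ⟨m', rfl⟩ : ∃ m', m = m' + 2 := ⟨m - 2, by omega⟩
  obtain ⟨M', rfl⟩ : ∃ M', M = M' + 1 := ⟨M - 1, by omega⟩
  -- the unit
  have hun : IsUnit (1 + (- s * g t ^ (m' + 1) + 2 * g τ ^ (M' + 1) * α * β + g t * β ^ 2)) := by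
    apply hu
    refine Ideal.add_mem _ (Ideal.add_mem _ ?_ ?_) ?_
    · rw [pow_succ]
      exact Ideal.mul_mem_left _ _ (Ideal.mul_mem_left _ _ htI)
    · rw [pow_succ]
      have : 2 * (g τ ^ M' * g τ) * α * β = (2 * g τ ^ M' * α * β) * g τ := by ring
      rw [this]
      exact Ideal.mul_mem_left _ _ hτI
    · exact Ideal.mul_mem_right _ _ htI
  obtain ⟨u, hu'⟩ := hun
  have key : g t * u = - α ^ 2 * g τ ^ (2 * (M' + 1)) := by
    rw [hu']
    rw [map_add, map_pow, ← hab] at hz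
    linear_combination hz
  have hτ0 : g τ ≠ 0 := by
    intro h0
    rw [h0, zero_pow (by omega), mul_zero] at key
    exact ht ((mul_eq_zero.1 key).resolve_right u.ne_zero)
  have hteq : g t = g τ ^ (2 * (M' + 1)) * (- α ^ 2 * ((u⁻¹ : Bˣ) : B)) := by
    have : g t = g t * u * ((u⁻¹ : Bˣ) : B) := by rw [mul_assoc, Units.mul_inv, mul_one]
    rw [this, key]; ring
  refine ⟨hτ0, ?_, _, ?_, hteq⟩
  · apply le_antisymm
    · refine hI1.trans ?_
      rw [Ideal.span_le]
      rintro x hx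
      rcases hx with rfl | hx
      · rw [hteq]
        refine Ideal.mul_mem_right _ _ ?_
        exact Ideal.pow_mem_of_mem _ (Ideal.mem_span_singleton_self _) _ (by omega)
      · rw [Set.mem_singleton_iff.1 hx]
        exact Ideal.mem_span_singleton_self _
    · rw [Ideal.span_singleton_le_iff_mem]
      exact hτI
  · -- alpha is a unit
    have h1 : g (τ ^ (M' + 1)) ∈ Ideal.map g (Ideal.span {φ, t}) := Ideal.mem_map_of_mem _ hτM
    rw [Ideal.map_span, Set.image_pair, Ideal.mem_span_pair] at h1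
    obtain ⟨x, y, hxy⟩ := h1
    have h2 : IsUnit α := by
      refine IsUnit.of_mul_eq_one (x + (β * x + y) * g τ ^ (M' + 1) *
        (- α * ((u⁻¹ : Bˣ) : B))) ?_
      have h3 : g τ ^ (M' + 1) * (α * (x + (β * x + y) * g τ ^ (M' + 1) *
        (- α * ((u⁻¹ : Bˣ) : B)))) = g τ ^ (M' + 1) * 1 := by
        rw [map_pow] at hxy
        linear_combination hxy + x * hab - (β * x + y) * hteq
      exact mul_left_cancel₀ (pow_ne_zero _ hτ0) h3
    exact (h2.pow 2).neg.mul (Units.isUnit _)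

/-- Localization at `1 + n E₁`. -/
theorem exp_B {k E E₁ : Type} [Field k] [CommRing E] [Algebra k E] (x₀ : E →ₐ[k] k)
    [CommRing E₁] [IsDomain E₁] [IsNoetherianRing E₁] (g₁ : E →+* E₁) (s₁ : E₁)
    (hsurj : Function.Surjective (eval₂RingHom g₁ s₁))
    (hcoef : ∀ q : E[X], eval₂RingHom g₁ s₁ q = 0 → ∀ i, q.coeff i ∈ RingHom.ker x₀) :
    ∃ (B : Type) (_ : CommRing B) (_ : IsDomain B) (_ : IsNoetherianRing B) (g : E₁ →+* B),
      Function.Injective g ∧
      (∀ b ∈ Ideal.map (g.comp g₁) (RingHom.ker x₀), IsUnit (1 + b)) ∧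
      (∀ x : B, ∃ q : k[X], x - g (eval₂RingHom g₁ s₁ (q.map (algebraMap k E))) ∈
        Ideal.map (g.comp g₁) (RingHom.ker x₀)) ∧
      (∀ q : k[X], g (eval₂RingHom g₁ s₁ (q.map (algebraMap k E))) ∈
        Ideal.map (g.comp g₁) (RingHom.ker x₀) → q = 0) := by
  set n := RingHom.ker x₀ with hn
  set ev := eval₂RingHom g₁ s₁ with hev
  set I := Ideal.map g₁ n with hI
  have hmap : Ideal.map ev (Ideal.map C n) = I := by
    rw [Ideal.map_map, hI]
    congr 1
    ext x
    simp [hev]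
  have hB : ∀ q : k[X], ev (q.map (algebraMap k E)) ∈ I → q = 0 := by
    intro q hq
    rw [← hmap, Ideal.mem_map_iff_of_surjective ev hsurj] at hq
    obtain ⟨μ, hμ, hμq⟩ := hq
    ext i
    have h1 := hcoef (q.map (algebraMap k E) - μ) (by rw [map_sub, hμq, sub_self]) i
    rw [coeff_sub, coeff_map] at h1
    have h2 : algebraMap k E (q.coeff i) ∈ n := by
      have := n.add_mem h1 (Ideal.mem_map_C_iff.1 hμ i)
      rwa [sub_add_cancel] at this
    have h3 : x₀ (algebraMap k E (q.coeff i)) = 0 := h2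
    rw [AlgHom.commutes] at h3
    rw [coeff_zero]
    exact h3
  have hC : ∀ x : E₁, ∃ q : k[X], x - ev (q.map (algebraMap k E)) ∈ I := by
    intro x
    obtain ⟨r, rfl⟩ := hsurj x
    refine ⟨r.map (x₀ : E →+* k), ?_⟩
    rw [← map_sub, ← hmap]
    refine Ideal.mem_map_of_mem _ (Ideal.mem_map_C_iff.2 fun i => ?_)
    rw [coeff_sub, coeff_map, coeff_map]
    change x₀ _ = 0
    rw [map_sub, AlgHom.commutes]
    exact sub_self _
  have hItop : (1 : E₁) ∉ I := by
    intro h1
    have h2 := hB 1 (by rw [Polynomial.map_one, map_one]; exact h1)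
    exact one_ne_zero h2
  let S : Submonoid E₁ := MonoidHom.mker (Ideal.Quotient.mk I : E₁ →* E₁ ⧸ I)
  have hS : ∀ x, x ∈ S ↔ x - 1 ∈ I := by
    intro x
    rw [← Ideal.Quotient.eq, map_one]
    exact Iff.rfl
  have hS0 : S ≤ nonZeroDivisors E₁ := by
    intro x hx
    refine mem_nonZeroDivisors_of_ne_zero ?_
    rintro rfl
    rw [hS, zero_sub] at hx
    exact hItop (by simpa using I.neg_mem hx)
  let B := Localization S
  have hdom : IsDomain B := IsLocalization.isDomain_localization hS0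
  have hnoe : IsNoetherianRing B := IsLocalization.isNoetherianRing S B inferInstance
  let g : E₁ →+* B := algebraMap E₁ B
  have hginj : Function.Injective g := IsLocalization.injective B hS0
  have hgI : Ideal.map (g.comp g₁) n = Ideal.map g I := by
    rw [hI, Ideal.map_map]
  have hunit : ∀ y ∈ S, IsUnit (g y) := fun y hy => IsLocalization.map_units B ⟨y, hy⟩
  refine ⟨B, inferInstance, hdom, hnoe, g, hginj, ?_, ?_, ?_⟩
  · intro b hb
    rw [hgI] at hb
    obtain ⟨⟨⟨i, hi⟩, ⟨y, hy⟩⟩, hiy⟩ := (IsLocalization.mem_map_algebraMap_iff S B).1 hb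
    have hiy' : b * g y = g i := hiy
    have h1 : (1 + b) * g y = g (y + i) := by
      rw [map_add, add_mul, one_mul, hiy']
    have h2 : IsUnit ((1 + b) * g y) := by
      rw [h1]
      apply hunit
      rw [hS, add_sub_right_comm]
      exact I.add_mem ((hS y).1 hy) hi
    exact isUnit_of_mul_isUnit_left h2
  · intro x
    obtain ⟨⟨a, ⟨y, hy⟩⟩, hay⟩ := IsLocalization.surj S x
    have hay' : x * g y = g a := hay
    obtain ⟨q, hq⟩ := hC a
    refine ⟨q, ?_⟩
    rw [hgI, ← Ideal.mul_unit_mem_iff_mem _ (hunit y hy), sub_mul, hay']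
    have h1 : g a - g (ev (q.map (algebraMap k E))) * g y =
        g (a - ev (q.map (algebraMap k E))) -
          g (ev (q.map (algebraMap k E))) * g (y - 1) := by
      rw [map_sub, map_sub, map_one]; ring
    rw [h1]
    exact Ideal.sub_mem _ (Ideal.mem_map_of_mem _ hq)
      (Ideal.mul_mem_left _ _ (Ideal.mem_map_of_mem _ ((hS y).1 hy)))
  · intro q hq
    rw [hgI] at hq
    obtain ⟨⟨⟨i, hi⟩, ⟨y, hy⟩⟩, hiy⟩ := (IsLocalization.mem_map_algebraMap_iff S B).1 hq
    have hiy' : g (ev (q.map (algebraMap k E))) * g y = g i := hiy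
    rw [← map_mul] at hiy'
    have h1 := hginj hiy'
    apply hB
    have h2 : ev (q.map (algebraMap k E)) = i - ev (q.map (algebraMap k E)) * (y - 1) := by
      rw [← h1]; ring
    rw [h2]
    exact I.sub_mem hi (I.mul_mem_left _ ((hS y).1 hy))

theorem exists_exp {k E : Type} [Field k] [CommRing E] [IsDomain E] [IsNoetherianRing E]
    [Algebra k E] (x₀ : E →ₐ[k] k) (t τ φ : E) (M m : ℕ) (hM : 1 ≤ M) (hm : 2 ≤ m)
    (ht : Prime t) (ht0 : x₀ t = 0) (hτ : x₀ τ = 0)
    (hker : RingHom.ker x₀ ≤ Ideal.span {t, τ} ⊔ (RingHom.ker x₀) ^ 2)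
    (hφ : φ ∈ (RingHom.ker x₀) ^ M ⊔ Ideal.span {t}) (hτM : τ ^ M ∈ Ideal.span {φ, t})
    (hφt : ¬ t ∣ φ) :
    ∃ exp : E →+* PowerSeries k[X], IsExp x₀ t τ φ M m exp := by
  set n := RingHom.ker x₀ with hn
  have htn : t ∈ n := ht0
  have hφn : φ ∈ n := by
    have h1 : n ^ M ⊔ Ideal.span {t} ≤ n := by
      refine sup_le (Ideal.pow_le_self (by omega)) ?_
      rw [Ideal.span_singleton_le_iff_mem]
      exact htn
    exact h1 hφ
  set z := φ ^ 2 + t with hz
  set w := t ^ m with hw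
  have hzn : z ∈ n := n.add_mem (Ideal.pow_mem_of_mem _ hφn _ (by norm_num)) htn
  have hwn : w ∈ n := Ideal.pow_mem_of_mem _ htn _ (by omega)
  have hw0 : w ≠ 0 := pow_ne_zero _ ht.ne_zero
  have htz : ¬ t ∣ z := by
    intro h
    exact hφt (ht.dvd_of_dvd_pow ((dvd_add_left (dvd_refl t)).1 h))
  have hzw : ∀ (c : E) (N : ℕ), w ∣ c * z ^ N → w ∣ c := fun c N h =>
    ht.pow_dvd_of_dvd_mul_right m (fun h' => htz (ht.dvd_of_dvd_pow h')) h
  let F := FractionRing E
  let sF : F := algebraMap E F z / algebraMap E F w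
  let J : Ideal E[X] := RingHom.ker (aeval sF : E[X] →ₐ[E] F)
  have hJp : J.IsPrime := RingHom.ker_isPrime _
  let E₁ := E[X] ⧸ J
  let g₁ : E →+* E₁ := (Ideal.Quotient.mk J).comp C
  let s₁ : E₁ := Ideal.Quotient.mk J X
  have hev : eval₂RingHom g₁ s₁ = Ideal.Quotient.mk J := by
    ext x
    · simp [g₁]
    · simp [s₁]
  have hg₁ : Function.Injective g₁ := by
    rw [injective_iff_map_eq_zero]
    intro a ha
    have h1 : C a ∈ J := Ideal.Quotient.eq_zero_iff_mem.1 ha
    have h2 : aeval sF (C a : E[X]) = 0 := h1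
    rw [aeval_C] at h2
    exact (map_eq_zero_iff _ (IsFractionRing.injective E F)).1 h2
  obtain ⟨B, _, hBdom, hBnoe, g, hginj, hu, hP1, hP2⟩ := exp_B x₀ g₁ s₁
    (by rw [hev]; exact Ideal.Quotient.mk_surjective)
    (by
      intro q hq i
      rw [hev] at hq
      have h1 : q ∈ J := Ideal.Quotient.eq_zero_iff_mem.1 hq
      exact exp_coeff_mem z w hw0 hzw q h1 n hzn hwn i)
  have hs : g₁ z = s₁ * g₁ t ^ m := by
    have h1 : Ideal.Quotient.mk J (C z) = Ideal.Quotient.mk J (X * C t ^ m) := by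
      rw [Ideal.Quotient.eq]
      change aeval sF (C z - X * C t ^ m) = 0
      have hw' : algebraMap E F w ≠ 0 := by
        intro h
        exact hw0 ((map_eq_zero_iff _ (IsFractionRing.injective E F)).1 h)
      rw [map_sub, map_mul, map_pow, aeval_C, aeval_C, aeval_X, ← map_pow, ← hw]
      simp only [sF]
      rw [div_mul_cancel₀ _ hw', sub_self]
    have h2 : g₁ z = Ideal.Quotient.mk J (C z) := rfl
    rw [h2, h1, map_mul, map_pow]
    rfl
  have hg2 : Function.Injective (g.comp g₁) := by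
    rw [RingHom.coe_comp]
    exact hginj.comp hg₁
  have hs2 : (g.comp g₁) z = g s₁ * (g.comp g₁) t ^ m := by
    have h1 := congrArg g hs
    rw [map_mul, map_pow] at h1
    exact h1
  have hgt : (g.comp g₁) t ≠ 0 := by
    intro h
    exact ht.ne_zero ((map_eq_zero_iff _ hg2).1 h)
  obtain ⟨hτ0, hspan, ε, hε, htε⟩ := exp_core x₀ t τ φ M m hM hm ht0 hτ hker hφ hτM
    (g.comp g₁) (g s₁) hs2 hgt hu
  let _ : Algebra k B := ((g.comp g₁).comp (algebraMap k E)).toAlgebra
  have haev : ∀ P : k[X], aeval (g s₁) P =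
      g (eval₂RingHom g₁ s₁ (P.map (algebraMap k E))) := by
    intro P
    rw [coe_eval₂RingHom, eval₂_map, hom_eval₂, aeval_def]
    rfl
  rw [← hn] at hspan
  obtain ⟨ex, hex1, hex2, hex3⟩ := exists_digits (g s₁) ((g.comp g₁) τ) hτ0
    (by
      intro x
      obtain ⟨q, hq⟩ := hP1 x
      refine ⟨q, ?_⟩
      rw [hspan, Ideal.mem_span_singleton] at hq
      rw [haev]
      exact hq)
    (by
      intro P hP
      apply hP2
      rw [hspan, Ideal.mem_span_singleton, ← haev]
      exact hP)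
  have hexC : ∀ c : k, ex (g.comp g₁ (algebraMap k E c)) = PowerSeries.C (C c) := by
    intro c
    rw [← hex2, aeval_C]
    rfl
  refine ⟨ex.comp (g.comp g₁), ?_, hexC, hex3, ?_, ?_, ?_⟩
  · -- injectivity
    rw [RingHom.coe_comp]
    refine Function.Injective.comp ?_ hg2
    rw [injective_iff_map_eq_zero]
    intro x hx
    have h1 : ∀ i, (g.comp g₁) τ ^ i ∣ x := by
      intro i
      rw [← hex1]
      intro j _
      rw [hx, map_zero]
    have htop : Ideal.span {(g.comp g₁) τ} ≠ ⊤ := by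
      rw [← hspan]
      intro h
      have h2 := hP2 1 (by rw [h]; trivial)
      exact one_ne_zero h2
    have h3 := Ideal.iInf_pow_eq_bot_of_isDomain _ htop
    have h4 : x ∈ ⨅ i : ℕ, Ideal.span {(g.comp g₁) τ} ^ i := by
      rw [Ideal.mem_iInf]
      intro i
      rw [Ideal.span_singleton_pow, Ideal.mem_span_singleton]
      exact h1 i
    rw [h3] at h4
    exact h4
  · rw [RingHom.comp_apply, RingHom.comp_apply ex, ← hz, hs2, map_mul, map_pow]
    congr 1
    have := hex2 X
    rw [aeval_X] at this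
    exact this
  · intro x
    have h1 : x - algebraMap k E (x₀ x) ∈ n := by
      change x₀ _ = 0
      rw [map_sub, AlgHom.commutes]
      exact sub_self _
    have h2 : (g.comp g₁) τ ^ 1 ∣ (g.comp g₁) (x - algebraMap k E (x₀ x)) := by
      rw [pow_one, ← Ideal.mem_span_singleton, ← hspan]
      exact Ideal.mem_map_of_mem _ h1
    have h3 := (hex1 _ 1).2 h2 0 (by norm_num)
    rw [map_sub, map_sub, hexC, map_sub, sub_eq_zero] at h3
    rw [RingHom.comp_apply, ← PowerSeries.coeff_zero_eq_constantCoeff_apply, h3,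
      PowerSeries.coeff_zero_C]
  · obtain ⟨u, rfl⟩ := hε
    refine ⟨Units.map (ex : B →* PowerSeries k[X]) u, ?_⟩
    rw [RingHom.comp_apply, htε, map_mul, map_pow, hex3]
    rfl

end Pool.Agent.K1
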