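import Pool.Agent.K1.LocFacts

set_option autoImplicit false
set_option linter.unusedSectionVars false

/-!
# The local formula (K1-24)

`e q x f = u x * len_x(q, f)` for the curves `q` of a class `V` in general position.
-/

open Polynomial

namespace Pool.Agent.K1

namespace LocFormula

section local_ring

variable {O : Type} [CommRing O] [IsLocalRing O] [IsNoetherianRing O]

/-- C0: a pair of finite intersection number is determined by its jet. -/
theorem span_congr {L J : ℕ} (hLJ : L < J) {F G F' G' : O} (h : len F G ≤ L)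
    (hF : F' - F ∈ IsLocalRing.maximalIdeal O ^ J) (hG : G' - G ∈ IsLocalRing.maximalIdeal O ^ J) :
    Ideal.span {F', G'} = Ideal.span {F, G} := by
  have h1 := pow_le_of_len F G L h
  have h2 : IsLocalRing.maximalIdeal O ^ J ≤ IsLocalRing.maximalIdeal O * Ideal.span {F, G} := by
    obtain ⟨d, rfl⟩ : ∃ d, J = L + 1 + d := ⟨J - (L + 1), by omega⟩
    calc IsLocalRing.maximalIdeal O ^ (L + 1 + d) ≤ IsLocalRing.maximalIdeal O ^ (L + 1) :=
          Ideal.pow_le_pow_right (by omega)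
      _ = IsLocalRing.maximalIdeal O * IsLocalRing.maximalIdeal O ^ L := by rw [pow_succ']
      _ ≤ _ := Ideal.mul_mono_right h1
  have h3 : IsLocalRing.maximalIdeal O * Ideal.span {F, G} ≤ Ideal.span {F, G} := Ideal.mul_le_right
  apply le_antisymm
  · rw [Ideal.span_le]
    rintro y (rfl | rfl)
    · have h4 : y = F + (y - F) := by ring
      rw [h4]
      exact Ideal.add_mem _ (Ideal.subset_span (by simp)) (h3 (h2 hF))
    · have h4 : y = G + (y - G) := by ring
      rw [h4]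
      exact Ideal.add_mem _ (Ideal.subset_span (by simp)) (h3 (h2 hG))
  · refine Submodule.le_of_le_smul_of_le_jacobson_bot (I := IsLocalRing.maximalIdeal O)
      (IsNoetherian.noetherian _) ?_ ?_
    · rw [IsLocalRing.jacobson_eq_maximalIdeal ⊥ bot_ne_top]
    · rw [Ideal.span_le]
      rintro y (rfl | rfl)
      · have h4 := Submodule.sub_mem (Ideal.span {F', G'} ⊔
          IsLocalRing.maximalIdeal O • Ideal.span {y, G})
          (Ideal.mem_sup_left (Ideal.subset_span (by simp : F' ∈ ({F', G'} : Set O))))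
          (Ideal.mem_sup_right (h2 hF))
        rwa [sub_sub_cancel] at h4
      · have h4 := Submodule.sub_mem (Ideal.span {F', G'} ⊔
          IsLocalRing.maximalIdeal O • Ideal.span {F, y})
          (Ideal.mem_sup_left (Ideal.subset_span (by simp : G' ∈ ({F', G'} : Set O))))
          (Ideal.mem_sup_right (h2 hG))
        rwa [sub_sub_cancel] at h4

theorem len_congr {L J : ℕ} (hLJ : L < J) {F G F' G' : O} (h : len F G ≤ L)
    (hF : F' - F ∈ IsLocalRing.maximalIdeal O ^ J) (hG : G' - G ∈ IsLocalRing.maximalIdeal O ^ J) :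
    len F' G' = len F G := by
  unfold len
  rw [span_congr hLJ h hF hG]

/-- the first form of C1 -/
theorem exists_rel {L J : ℕ} (hLJ : L < J) {q F F' : O} (h : len q F ≤ L)
    (hF : F' - F ∈ IsLocalRing.maximalIdeal O ^ J) :
    ∃ b c : O, IsUnit b ∧ F' = F * b + q * c := by
  have h1 := pow_le_of_len q F L h
  have h2 : IsLocalRing.maximalIdeal O ^ J ≤ IsLocalRing.maximalIdeal O * Ideal.span {q, F} := by
    obtain ⟨d, rfl⟩ : ∃ d, J = L + 1 + d := ⟨J - (L + 1), by omega⟩
    calc IsLocalRing.maximalIdeal O ^ (L + 1 + d) ≤ IsLocalRing.maximalIdeal O ^ (L + 1) :=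
          Ideal.pow_le_pow_right (by omega)
      _ = IsLocalRing.maximalIdeal O * IsLocalRing.maximalIdeal O ^ L := by rw [pow_succ']
      _ ≤ _ := Ideal.mul_mono_right h1
  have h3 := h2 hF
  rw [Ideal.span_insert, Ideal.mul_sup, Submodule.mem_sup] at h3
  obtain ⟨y, hy, z, hz, hyz⟩ := h3
  rw [Ideal.mem_mul_span_singleton] at hy hz
  obtain ⟨α, hα, rfl⟩ := hy
  obtain ⟨β, hβ, rfl⟩ := hz
  refine ⟨1 + β, α, ?_, by linear_combination -hyz⟩
  by_contra h4
  have h5 : 1 + β ∈ IsLocalRing.maximalIdeal O := (IsLocalRing.mem_maximalIdeal _).2 h4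
  have h6 : (1 : O) ∈ IsLocalRing.maximalIdeal O := by
    have h7 := Ideal.sub_mem _ h5 hβ
    rwa [add_sub_cancel_right] at h7
  exact (IsLocalRing.mem_maximalIdeal (1 : O)).1 h6 isUnit_one

end local_ring


section points

variable {k A : Type} [Field k] [CommRing A] [IsDomain A] [Algebra k A] [IsNoetherianRing A]

theorem injLoc (x : A →ₐ[k] k) : Function.Injective (algebraMap A (LocAt x)) :=
  IsLocalization.injective _ (Ideal.primeCompl_le_nonZeroDivisors (RingHom.ker x))

instance isDomainLoc (x : A →ₐ[k] k) : IsDomain (LocAt x) :=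
  IsLocalization.isDomain_localization (Ideal.primeCompl_le_nonZeroDivisors (RingHom.ker x))

theorem mem_max_iff (x : A →ₐ[k] k) (f : A) :
    algebraMap A (LocAt x) f ∈ IsLocalRing.maximalIdeal (LocAt x) ↔ x f = 0 := by
  rw [IsLocalization.AtPrime.to_map_mem_maximal_iff (LocAt x) (RingHom.ker x)]
  exact RingHom.mem_ker

theorem isUnit_iff (x : A →ₐ[k] k) (f : A) :
    IsUnit (algebraMap A (LocAt x) f) ↔ x f ≠ 0 := by
  rw [Ne, ← mem_max_iff x f, IsLocalRing.mem_maximalIdeal, mem_nonunits_iff, not_not]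

theorem map_pow_ker (x : A →ₐ[k] k) {J : ℕ} {f f' : A} (h : f' - f ∈ RingHom.ker x ^ J) :
    algebraMap A (LocAt x) f' - algebraMap A (LocAt x) f ∈
      IsLocalRing.maximalIdeal (LocAt x) ^ J := by
  rw [← map_sub, ← Localization.AtPrime.map_eq_maximalIdeal, ← Ideal.map_pow]
  exact Ideal.mem_map_of_mem _ h

/-- every jet is the jet of a global element -/
theorem exists_jet (x : A →ₐ[k] k) (J : ℕ) (F : LocAt x) :
    ∃ f : A, algebraMap A (LocAt x) f - F ∈ IsLocalRing.maximalIdeal (LocAt x) ^ J := by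
  obtain ⟨a, b, rfl⟩ := IsLocalization.exists_mk'_eq (RingHom.ker x).primeCompl F
  have hb : x (b : A) ≠ 0 := b.2
  have hbu : IsUnit (algebraMap A (LocAt x) b) := (isUnit_iff x b).2 hb
  -- `b` is invertible modulo the power
  have h1 : ∃ c n : A, n ∈ RingHom.ker x ^ J ∧ (b : A) * c + n = 1 := by
    have h2 : (1 : A) - (b : A) * algebraMap k A (x (b : A))⁻¹ ∈ RingHom.ker x := by
      rw [RingHom.mem_ker, map_sub, map_one, map_mul, AlgHom.commutes]
      simp [mul_inv_cancel₀ hb]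
    have h3 : Ideal.span {(b : A)} ⊔ RingHom.ker x = ⊤ := by
      rw [Ideal.eq_top_iff_one]
      have h4 : (1 : A) = (b : A) * algebraMap k A (x (b : A))⁻¹ +
          (1 - (b : A) * algebraMap k A (x (b : A))⁻¹) := by ring
      rw [h4]
      exact Submodule.add_mem_sup (Ideal.mul_mem_right _ _ (Ideal.subset_span (by simp))) h2
    have h5 : Ideal.span {(b : A)} ⊔ RingHom.ker x ^ J = ⊤ := Ideal.sup_pow_eq_top h3
    have h6 : (1 : A) ∈ Ideal.span {(b : A)} ⊔ RingHom.ker x ^ J := h5 ▸ Submodule.mem_top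
    obtain ⟨y, hy, n, hn, hyn⟩ := Submodule.mem_sup.1 h6
    obtain ⟨c, rfl⟩ := Ideal.mem_span_singleton.1 hy
    exact ⟨c, n, hn, hyn⟩
  obtain ⟨c, n, hn, hc⟩ := h1
  refine ⟨a * c, ?_⟩
  have h2 : algebraMap A (LocAt x) n ∈ IsLocalRing.maximalIdeal (LocAt x) ^ J := by
    rw [← Localization.AtPrime.map_eq_maximalIdeal, ← Ideal.map_pow]
    exact Ideal.mem_map_of_mem _ hn
  have h3 : algebraMap A (LocAt x) (a * c) - IsLocalization.mk' (LocAt x) a b =
      (-(IsLocalization.mk' (LocAt x) a b)) * algebraMap A (LocAt x) n := by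
    have h4 : IsLocalization.mk' (LocAt x) a b * algebraMap A (LocAt x) b =
        algebraMap A (LocAt x) a := IsLocalization.mk'_spec _ _ _
    have h5 : algebraMap A (LocAt x) b * algebraMap A (LocAt x) c + algebraMap A (LocAt x) n = 1 := by
      rw [← map_mul, ← map_add, hc, map_one]
    rw [map_mul, ← h4]
    linear_combination (IsLocalization.mk' (LocAt x) a b) * h5
  rw [h3]
  exact Ideal.mul_mem_left _ _ h2

/-- clearing denominators in `F' = F b + q c` -/
theorem clear (x : A →ₐ[k] k) {f f' q : A} {b c : LocAt x} (hb : IsUnit b)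
    (h : algebraMap A (LocAt x) f' = algebraMap A (LocAt x) f * b + algebraMap A (LocAt x) q * c) :
    ∃ a b' c' : A, x a ≠ 0 ∧ x b' ≠ 0 ∧ f' * a = f * b' + q * c' := by
  obtain ⟨b₁, b₂, rfl⟩ := IsLocalization.exists_mk'_eq (RingHom.ker x).primeCompl b
  obtain ⟨c₁, c₂, rfl⟩ := IsLocalization.exists_mk'_eq (RingHom.ker x).primeCompl c
  have hb₂ : x (b₂ : A) ≠ 0 := b₂.2
  have hc₂ : x (c₂ : A) ≠ 0 := c₂.2
  have h1 : IsLocalization.mk' (LocAt x) b₁ b₂ * algebraMap A (LocAt x) b₂ =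
      algebraMap A (LocAt x) b₁ := IsLocalization.mk'_spec _ _ _
  have h2 : IsLocalization.mk' (LocAt x) c₁ c₂ * algebraMap A (LocAt x) c₂ =
      algebraMap A (LocAt x) c₁ := IsLocalization.mk'_spec _ _ _
  have hb₁ : x b₁ ≠ 0 := by
    rw [← isUnit_iff, ← h1]
    exact hb.mul ((isUnit_iff x _).2 hb₂)
  refine ⟨b₂ * c₂, b₁ * c₂, c₁ * b₂, ?_, ?_, ?_⟩
  · rw [map_mul]; exact mul_ne_zero hb₂ hc₂
  · rw [map_mul]; exact mul_ne_zero hb₁ hc₂
  · apply injLoc x
    simp only [map_mul, map_add]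
    rw [h, ← h1, ← h2]
    ring

/-- an element of finite length with `q`, `q` vanishing at the point, is not in `(q)` -/
theorem not_mem_of_len (x : A →ₐ[k] k)
    (hpar : ∃ S Y : LocAt x, IsLocalRing.maximalIdeal (LocAt x) = Ideal.span {S, Y} ∧ S ≠ 0 ∧
      ∀ n : ℕ, ¬ S ∣ Y ^ n)
    {q f : A} (hq : x q = 0) (h : lenAt x q f ≠ ⊤) : f ∉ Ideal.span {q} := by
  intro hf
  obtain ⟨c, rfl⟩ := Ideal.mem_span_singleton.1 hf
  obtain ⟨S, Y, hm, hS0, hdim⟩ := hpar
  have h1 : lenAt x q (q * c) = len 0 (algebraMap A (LocAt x) q) := by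
    unfold lenAt
    rw [map_mul, len_symm 0]
    have h2 : algebraMap A (LocAt x) q * algebraMap A (LocAt x) c =
        0 + algebraMap A (LocAt x) c * algebraMap A (LocAt x) q := by ring
    rw [h2, len_add]
  rw [h1] at h
  have h2 := ne_zero_of_len hm hS0 hdim h
  exact (isUnit_iff x q).1 h2 hq

end points


section transversal

variable {k A : Type} [Field k] [CommRing A] [IsDomain A] [Algebra k A] [IsNoetherianRing A]

/-- the local value at a transversal point -/
theorem value_transv (s : A) (Λ : A → A → ℚ) {q : A} {eq : (A →ₐ[k] k) → A → ℚ}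
    (hqp : (Ideal.span {q}).IsPrime) (he : LocDec (k := k) Λ q eq) (z : A →ₐ[k] k)
    (hpar : ∃ S Y : LocAt z, IsLocalRing.maximalIdeal (LocAt z) = Ideal.span {S, Y} ∧ S ≠ 0 ∧
      ∀ n : ℕ, ¬ S ∣ Y ^ n)
    (hzq : z q = 0) (ht : Transv s q z) {g : A} (hg : g ∉ Ideal.span {q}) :
    eq z g = ((lenAt z q g).toNat : ℚ) * eq z (s - algebraMap k A (z s)) := by
  set t : A := s - algebraMap k A (z s) with htdef
  have hzt : z t = 0 := by
    rw [htdef, map_sub, AlgHom.commutes]
    simp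
  obtain ⟨a, hza, ha⟩ := ht
  have hm : IsLocalRing.maximalIdeal (LocAt z) =
      Ideal.span {algebraMap A (LocAt z) q, algebraMap A (LocAt z) t} := by
    apply le_antisymm
    · rw [← Localization.AtPrime.map_eq_maximalIdeal, Ideal.map_le_iff_le_comap]
      intro f hf
      have hf' : z f = 0 := RingHom.mem_ker.1 hf
      have h1 := Ideal.mem_span_pair.1 (ha f hf')
      obtain ⟨b, c, hbc⟩ := h1
      obtain ⟨v, hv⟩ := ((isUnit_iff z a).2 hza).exists_left_inv
      rw [Ideal.mem_comap, Ideal.mem_span_pair]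
      refine ⟨v * algebraMap A (LocAt z) b, v * algebraMap A (LocAt z) c, ?_⟩
      have h2 : algebraMap A (LocAt z) (b * q + c * t) = algebraMap A (LocAt z) (a * f) := by
        rw [hbc]
      simp only [map_mul, map_add] at h2
      linear_combination v * h2 + algebraMap A (LocAt z) f * hv
    · rw [Ideal.span_le]
      rintro y (rfl | rfl)
      · exact (mem_max_iff z q).2 hzq
      · exact (mem_max_iff z t).2 hzt
  have hlen1 : len (algebraMap A (LocAt z) q) (algebraMap A (LocAt z) t) = 1 := len_SY hm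
  have htq : t ∉ Ideal.span {q} := by
    apply not_mem_of_len z hpar hzq
    unfold lenAt
    rw [hlen1]
    exact ENat.one_ne_top
  obtain ⟨S, Y, hmSY, hS0, hdim⟩ := hpar
  have hlenn : ∀ n : ℕ, len (algebraMap A (LocAt z) q) (algebraMap A (LocAt z) t ^ n) = n := by
    intro n
    induction n with
    | zero => rw [pow_zero, len_unit _ isUnit_one]; simp
    | succ n ih =>
      have h1 : Reg (algebraMap A (LocAt z) q) (algebraMap A (LocAt z) t ^ n) := by
        apply reg_of_len hmSY hS0 hdim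
        rw [ih]
        exact ENat.natCast_ne_top n
      rw [pow_succ, len_mul h1, ih, hlen1]
      push_cast
      rfl
  have hnd : ¬ algebraMap A (LocAt z) q ∣ algebraMap A (LocAt z) g := by
    rintro ⟨c, hc⟩
    obtain ⟨a', b', c', ha', hb', hrel⟩ := clear z (f := 0) (f' := g) (q := q) (b := 1) (c := c)
      isUnit_one (by rw [hc]; simp)
    have h1 : g * a' ∈ Ideal.span {q} := by
      rw [hrel, zero_mul, zero_add]
      exact Ideal.mul_mem_right _ _ (Ideal.subset_span (by simp))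
    rcases hqp.mem_or_mem h1 with h2 | h2
    · exact hg h2
    · obtain ⟨d, rfl⟩ := Ideal.mem_span_singleton.1 h2
      apply ha'
      rw [map_mul, hzq, zero_mul]
  obtain ⟨n, u, r, hu, hgn⟩ := exists_unit_mul_pow (algebraMap A (LocAt z) q)
    (algebraMap A (LocAt z) t) hm (algebraMap A (LocAt z) g) hnd
  obtain ⟨a', b', c', ha', hb', hrel⟩ := clear z (f := t ^ n) (f' := g) (q := q) (b := u) (c := r)
    hu (by rw [hgn, map_pow]; ring)
  have hna : a' ∉ Ideal.span {q} := by
    intro h2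
    obtain ⟨d, rfl⟩ := Ideal.mem_span_singleton.1 h2
    apply ha'
    rw [map_mul, hzq, zero_mul]
  have hnb : b' ∉ Ideal.span {q} := by
    intro h2
    obtain ⟨d, rfl⟩ := Ideal.mem_span_singleton.1 h2
    apply hb'
    rw [map_mul, hzq, zero_mul]
  have htn : ∀ m : ℕ, t ^ m ∉ Ideal.span {q} := by
    intro m hm'
    exact htq (hqp.mem_of_pow_mem m hm')
  have hpow : ∀ m : ℕ, eq z (t ^ m) = m * eq z t := by
    intro m
    induction m with
    | zero => rw [pow_zero, he.unit z 1 (by rw [map_one]; exact one_ne_zero)]; simp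
    | succ m ih =>
      rw [pow_succ, he.mul z _ _ (htn m) htq, ih]
      push_cast
      ring
  have h1 : eq z (g * a') = eq z g := by
    rw [he.mul z _ _ hg hna, he.unit z a' ha', add_zero]
  have h2 : eq z (g * a') = n * eq z t := by
    rw [hrel, he.add, he.mul z _ _ (htn n) hnb, he.unit z b' hb', add_zero, hpow]
  have h3 : lenAt z q g = n := by
    have hreg : Reg (algebraMap A (LocAt z) q) (algebraMap A (LocAt z) t ^ n) := by
      apply reg_of_len hmSY hS0 hdim
      rw [hlenn n]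
      exact ENat.natCast_ne_top n
    unfold lenAt
    rw [hgn, len_add, mul_comm u, len_mul hreg, hlenn n, len_unit _ hu, add_zero]
  rw [← h1, h2, h3]
  simp

end transversal


section main

variable {k A : Type} [Field k] [CommRing A] [IsDomain A] [Algebra k A] [IsNoetherianRing A]

/-- C1: the local value depends on the jet only. -/
theorem C1 {L J : ℕ} (hLJ : L < J) (Λ : A → A → ℚ) {q : A} {eq : (A →ₐ[k] k) → A → ℚ}
    (he : LocDec (k := k) Λ q eq) (x : A →ₐ[k] k)
    (hpar : ∃ S Y : LocAt x, IsLocalRing.maximalIdeal (LocAt x) = Ideal.span {S, Y} ∧ S ≠ 0 ∧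
      ∀ n : ℕ, ¬ S ∣ Y ^ n)
    {f f' : A}
    (hj : algebraMap A (LocAt x) f' - algebraMap A (LocAt x) f ∈
      IsLocalRing.maximalIdeal (LocAt x) ^ J) (hlen : lenAt x q f ≤ L) :
    eq x f' = eq x f := by
  by_cases hxq : x q = 0
  swap
  · rw [he.off x f' hxq, he.off x f hxq]
  have hf : f ∉ Ideal.span {q} := not_mem_of_len x hpar hxq
    (ne_top_of_le_ne_top (ENat.natCast_ne_top L) hlen)
  have hlen' : lenAt x q f' = lenAt x q f := by
    unfold lenAt at hlen ⊢
    exact len_congr hLJ hlen (by rw [sub_self]; exact Submodule.zero_mem _) hj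
  have hf' : f' ∉ Ideal.span {q} := not_mem_of_len x hpar hxq
    (by rw [hlen']; exact ne_top_of_le_ne_top (ENat.natCast_ne_top L) hlen)
  obtain ⟨b, c, hb, hrel⟩ := exists_rel hLJ hlen hj
  obtain ⟨a, b', c', ha, hb', hr⟩ := clear x hb hrel
  have hna : a ∉ Ideal.span {q} := by
    intro h2
    obtain ⟨d, rfl⟩ := Ideal.mem_span_singleton.1 h2
    apply ha
    rw [map_mul, hxq, zero_mul]
  have hnb : b' ∉ Ideal.span {q} := by
    intro h2
    obtain ⟨d, rfl⟩ := Ideal.mem_span_singleton.1 h2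
    apply hb'
    rw [map_mul, hxq, zero_mul]
  have h1 : eq x (f' * a) = eq x f' := by
    rw [he.mul x _ _ hf' hna, he.unit x a ha, add_zero]
  have h2 : eq x (f' * a) = eq x f := by
    rw [hr, he.add, he.mul x _ _ hf hnb, he.unit x b' hb', add_zero]
  rw [← h1, h2]

/-- GE: symmetry at `x` if all the other intersections are transversal. -/
theorem GE (s : A) (Λ : A → A → ℚ) {f g : A} (hΛ : Λ f g = Λ g f)
    {ef eg : (A →ₐ[k] k) → A → ℚ}
    (hfp : (Ideal.span {f}).IsPrime) (hgp : (Ideal.span {g}).IsPrime)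
    (hgf : g ∉ Ideal.span {f}) (hfg : f ∉ Ideal.span {g})
    (hef : LocDec (k := k) Λ f ef) (heg : LocDec (k := k) Λ g eg) (x : A →ₐ[k] k)
    (hpar : ∀ x : A →ₐ[k] k, ∃ S Y : LocAt x,
      IsLocalRing.maximalIdeal (LocAt x) = Ideal.span {S, Y} ∧ S ≠ 0 ∧ ∀ n : ℕ, ¬ S ∣ Y ^ n)
    (hcore : ∀ z : A →ₐ[k] k, z f = 0 → z g = 0 → Transv s f z → Transv s g z →
      ef z (s - algebraMap k A (z s)) = eg z (s - algebraMap k A (z s)))
    (hT : ∀ z : A →ₐ[k] k, z ≠ x → z f = 0 → z g = 0 → Transv s f z ∧ Transv s g z) :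
    ef x g = eg x f := by
  have h1 := hΛ
  rw [hef.sum g hgf, heg.sum f hfg] at h1
  have hs1 : (Function.support fun z => ef z g).Finite := by
    refine (hef.fin g hgf).subset ?_
    intro z hz
    constructor
    · by_contra h
      exact hz (hef.off z g h)
    · by_contra h
      exact hz (hef.unit z g h)
  have hs2 : (Function.support fun z => eg z f).Finite := by
    refine (heg.fin f hfg).subset ?_
    intro z hz
    constructor
    · by_contra h
      exact hz (heg.off z f h)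
    · by_contra h
      exact hz (heg.unit z f h)
  have h2 : ∑ᶠ z, (ef z g - eg z f) = 0 := by
    rw [finsum_sub_distrib hs1 hs2, h1, sub_self]
  rw [finsum_eq_single _ x] at h2
  · exact sub_eq_zero.1 h2
  · intro z hz
    by_cases hzf : z f = 0
    swap
    · rw [hef.off z g hzf, heg.unit z f hzf, sub_self]
    by_cases hzg : z g = 0
    swap
    · rw [hef.unit z g hzg, heg.off z f hzg, sub_self]
    obtain ⟨ht1, ht2⟩ := hT z hz hzf hzg
    rw [value_transv s Λ hfp hef z (hpar z) hzf ht1 hgf,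
      value_transv s Λ hgp heg z (hpar z) hzg ht2 hfg, hcore z hzf hzg ht1 ht2]
    have h3 : lenAt z f g = lenAt z g f := by
      unfold lenAt
      exact len_symm _ _
    rw [h3, sub_self]

end main

end LocFormula

open LocFormula in
/-- K1-24, relative form. The local formula; the only property of the symbol which is used is its
symmetry on the class `V`. -/
theorem local_formula_rel {k A : Type} [Field k] [IsAlgClosed k] [CommRing A] [IsDomain A]
    [Algebra k A] [IsNoetherianRing A]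
    (s : A) (V : Set A) (Λ : A → A → ℚ)
    (hsymm : ∀ f ∈ V, ∀ g ∈ V, g ∉ Ideal.span {f} → f ∉ Ideal.span {g} → Λ f g = Λ g f)
    (e : A → (A →ₐ[k] k) → A → ℚ)
    (L J : ℕ) (hLJ : L < J)
    (hVp : ∀ q ∈ V, (Ideal.span {q}).IsPrime)
    (hVn : ∀ q ∈ V, ∀ q' ∈ V, q' ∈ Ideal.span {q} → q' = q)
    (he : ∀ q ∈ V, LocDec (k := k) Λ q (e q))
    (hbad : ∀ f ∈ V, {x : A →ₐ[k] k | x f = 0 ∧ ¬ Transv s f x}.Finite)
    (hcore : ∀ q ∈ V, ∀ q' ∈ V, ∀ x : A →ₐ[k] k, x q = 0 → x q' = 0 → Transv s q x →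
      Transv s q' x → e q x (s - algebraMap k A (x s)) = e q' x (s - algebraMap k A (x s)))
    (hpar : ∀ x : A →ₐ[k] k, ∃ S Y : LocAt x,
      IsLocalRing.maximalIdeal (LocAt x) = Ideal.span {S, Y} ∧ S ≠ 0 ∧ ∀ n : ℕ, ¬ S ∣ Y ^ n)
    -- jets
    (hjet : ∀ (x : A →ₐ[k] k) (f : A), ∃ f' ∈ V, f' - f ∈ RingHom.ker x ^ J)
    -- general position inside `V`
    (hgp : ∀ (F : Finset A), (∀ f ∈ F, f ∈ V) → ∀ g ∈ V, g ∉ F → ∀ (x : A →ₐ[k] k)
      (Z : Finset (A →ₐ[k] k)), x ∉ Z → ∃ g' ∈ V, g' - g ∈ RingHom.ker x ^ J ∧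
        (∀ z ∈ Z, z g' ≠ 0) ∧
        ∀ f ∈ F, ∀ z : A →ₐ[k] k, z ≠ x → z f = 0 → z g' = 0 → Transv s g' z) :
    ∃ u : (A →ₐ[k] k) → ℚ, ∀ q ∈ V, ∀ f ∉ Ideal.span {q}, ∀ x : A →ₐ[k] k, lenAt x q f ≤ L →
      e q x f = u x * ((lenAt x q f).toNat : ℚ) := by
  classical
  -- curves with finite intersection number at a common point are different
  have hne : ∀ (x : A →ₐ[k] k) (f g : A), x f = 0 → lenAt x f g ≤ L → f ≠ g := by
    rintro x f g hxf hlen rfl
    exact not_mem_of_len x (hpar x) hxf (ne_top_of_le_ne_top (ENat.natCast_ne_top L) hlen)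
      (Ideal.subset_span (by simp))
  have hGE : ∀ f ∈ V, ∀ g ∈ V, f ≠ g → ∀ x : A →ₐ[k] k,
      (∀ z : A →ₐ[k] k, z ≠ x → z f = 0 → z g = 0 → Transv s f z ∧ Transv s g z) →
      e f x g = e g x f := by
    intro f hf g hg hfg x hT
    have h1 : g ∉ Ideal.span {f} := fun h => hfg (hVn f hf g hg h).symm
    have h2 : f ∉ Ideal.span {g} := fun h => hfg (hVn g hg f hf h)
    exact GE s Λ (hsymm f hf g hg h1 h2) (hVp f hf) (hVp g hg) h1 h2
      (he f hf) (he g hg) x hpar (fun z h1 h2 h3 h4 => hcore f hf g hg z h1 h2 h3 h4) hT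
  have hC1 : ∀ q ∈ V, ∀ (x : A →ₐ[k] k) (f f' : A),
      algebraMap A (LocAt x) f' - algebraMap A (LocAt x) f ∈
        IsLocalRing.maximalIdeal (LocAt x) ^ J → lenAt x q f ≤ L → e q x f' = e q x f :=
    fun q hq x f f' hj hlen => C1 hLJ Λ (he q hq) x (hpar x) hj hlen
  have hsymmlen : ∀ (x : A →ₐ[k] k) (f g : A), lenAt x f g = lenAt x g f := by
    intro x f g
    unfold lenAt
    exact len_symm _ _
  have hlenc : ∀ (x : A →ₐ[k] k) (f g f' g' : A), lenAt x f g ≤ L →
      f' - f ∈ RingHom.ker x ^ J → g' - g ∈ RingHom.ker x ^ J → lenAt x f' g' = lenAt x f g := by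
    intro x f g f' g' h h1 h2
    exact len_congr hLJ h (map_pow_ker x h1) (map_pow_ker x h2)
  -- symmetry
  have hC2 : ∀ f ∈ V, ∀ g ∈ V, ∀ x : A →ₐ[k] k, lenAt x f g ≤ L → e f x g = e g x f := by
    intro f hf g hg x hlen
    by_cases hxf : x f = 0
    swap
    · rw [(he f hf).off x g hxf, (he g hg).unit x f hxf]
    by_cases hxg : x g = 0
    swap
    · rw [(he g hg).off x f hxg, (he f hf).unit x g hxg]
    have hfg : f ≠ g := hne x f g hxf hlen
    obtain ⟨g₂, hg₂V, hg₂j, hg₂Z, hg₂T⟩ := hgp {f} (by simpa using hf) g hg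
      (by simpa using hfg.symm) x ((hbad f hf).toFinset.erase x) (by simp)
    have hlen2 : lenAt x f g₂ = lenAt x f g :=
      hlenc x f g f g₂ hlen (by rw [sub_self]; exact Submodule.zero_mem _) hg₂j
    have hxg₂ : x g₂ = 0 := by
      have h1 : x (g₂ - g) = 0 := by
        have h2 : g₂ - g ∈ RingHom.ker x := Ideal.pow_le_self (by omega) hg₂j
        exact RingHom.mem_ker.1 h2
      rw [map_sub, hxg, sub_zero] at h1
      exact h1
    have hfg₂ : f ≠ g₂ := hne x f g₂ hxf (by rw [hlen2]; exact hlen)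
    obtain ⟨f₂, hf₂V, hf₂j, hf₂Z, hf₂T⟩ := hgp {g₂, g}
      (by
        intro y hy
        rw [Finset.mem_insert, Finset.mem_singleton] at hy
        rcases hy with rfl | rfl
        · exact hg₂V
        · exact hg)
      f hf (by
        rw [Finset.mem_insert, Finset.mem_singleton]
        rintro (h | h)
        · exact hfg₂ h
        · exact hfg h) x
      (((hbad g₂ hg₂V).toFinset ∪ (hbad g hg).toFinset).erase x) (by simp)
    have hlen3 : lenAt x f₂ g₂ = lenAt x f g := hlenc x f g f₂ g₂ hlen hf₂j hg₂j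
    have hlen4 : lenAt x f₂ g = lenAt x f g :=
      hlenc x f g f₂ g hlen hf₂j (by rw [sub_self]; exact Submodule.zero_mem _)
    have hxf₂ : x f₂ = 0 := by
      have h1 : x (f₂ - f) = 0 := by
        have h2 : f₂ - f ∈ RingHom.ker x := Ideal.pow_le_self (by omega) hf₂j
        exact RingHom.mem_ker.1 h2
      rw [map_sub, hxf, sub_zero] at h1
      exact h1
    have e1 : e f x g₂ = e f x g := hC1 f hf x g g₂ (map_pow_ker x hg₂j) hlen
    have e2 : e f x g₂ = e g₂ x f := by
      apply hGE f hf g₂ hg₂V hfg₂ x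
      intro z hz hzf hzg
      refine ⟨?_, hg₂T f (by simp) z hz hzf hzg⟩
      by_contra h
      exact hg₂Z z (by simp [hz, hzf, h]) hzg
    have e3 : e g₂ x f₂ = e g₂ x f := hC1 g₂ hg₂V x f f₂ (map_pow_ker x hf₂j)
      (by rw [hsymmlen, hlen2]; exact hlen)
    have e4 : e g₂ x f₂ = e f₂ x g₂ := by
      apply hGE g₂ hg₂V f₂ hf₂V _ x
      · intro z hz hzg hzf
        refine ⟨?_, hf₂T g₂ (by simp) z hz hzg hzf⟩
        by_contra h
        exact hf₂Z z (by simp [hz, hzg, h]) hzf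
      · intro h
        exact hne x f₂ g₂ hxf₂ (by rw [hlen3]; exact hlen) h.symm
    have e5 : e f₂ x g₂ = e f₂ x g := hC1 f₂ hf₂V x g g₂ (map_pow_ker x hg₂j)
      (by rw [hlen4]; exact hlen)
    have e6 : e g x f₂ = e f₂ x g := by
      apply hGE g hg f₂ hf₂V _ x
      · intro z hz hzg hzf
        refine ⟨?_, hf₂T g (by simp) z hz hzg hzf⟩
        by_contra h
        exact hf₂Z z (by simp [hz, hzg, h]) hzf
      · intro h
        exact hne x f₂ g hxf₂ (by rw [hlen4]; exact hlen) h.symm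
    have e7 : e g x f₂ = e g x f := hC1 g hg x f f₂ (map_pow_ker x hf₂j)
      (by rw [hsymmlen]; exact hlen)
    rw [← e1, e2, ← e3, e4, e5, ← e6, e7]
  -- representatives
  have hrep : ∀ (x : A →ₐ[k] k) (F : LocAt x), ∃ f ∈ V,
      algebraMap A (LocAt x) f - F ∈ IsLocalRing.maximalIdeal (LocAt x) ^ J := by
    intro x F
    obtain ⟨f₀, hf₀⟩ := exists_jet x J F
    obtain ⟨f, hfV, hf⟩ := hjet x f₀
    refine ⟨f, hfV, ?_⟩
    have h1 := Ideal.add_mem _ (map_pow_ker x hf) hf₀
    rwa [sub_add_sub_cancel] at h1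
  choose rep hrepV hrepJ using hrep
  choose S Y hm hS0 hdim using hpar
  have hpar : ∀ x : A →ₐ[k] k, ∃ S Y : LocAt x,
      IsLocalRing.maximalIdeal (LocAt x) = Ideal.span {S, Y} ∧ S ≠ 0 ∧ ∀ n : ℕ, ¬ S ∣ Y ^ n :=
    fun x => ⟨S x, Y x, hm x, hS0 x, hdim x⟩
  -- differences of jets
  have hdiff : ∀ (x : A →ₐ[k] k) {a b c : LocAt x},
      a - b ∈ IsLocalRing.maximalIdeal (LocAt x) ^ J →
      c - b ∈ IsLocalRing.maximalIdeal (LocAt x) ^ J →
      a - c ∈ IsLocalRing.maximalIdeal (LocAt x) ^ J := by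
    intro x a b c h1 h2
    have h3 := Ideal.sub_mem _ h1 h2
    rwa [sub_sub_sub_cancel_right] at h3
  have hI1 : ∀ (x : A →ₐ[k] k) (F G : LocAt x), len F G ≤ L → ∀ f ∈ V, ∀ g : A,
      algebraMap A (LocAt x) f - F ∈ IsLocalRing.maximalIdeal (LocAt x) ^ J →
      algebraMap A (LocAt x) g - G ∈ IsLocalRing.maximalIdeal (LocAt x) ^ J →
      e f x g = e (rep x F) x (rep x G) := by
    intro x F G hlen f hf g hjf hjg
    have l1 : lenAt x f g = len F G := len_congr hLJ hlen hjf hjg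
    have l2 : lenAt x f (rep x G) = len F G := len_congr hLJ hlen hjf (hrepJ x G)
    have l3 : lenAt x (rep x F) (rep x G) = len F G :=
      len_congr hLJ hlen (hrepJ x F) (hrepJ x G)
    have e1 : e f x g = e f x (rep x G) := hC1 f hf x (rep x G) g (hdiff x hjg (hrepJ x G))
      (by rw [l2]; exact hlen)
    have e2 : e f x (rep x G) = e (rep x G) x f := hC2 f hf _ (hrepV x G) x
      (by rw [l2]; exact hlen)
    have e3 : e (rep x G) x f = e (rep x G) x (rep x F) :=
      hC1 _ (hrepV x G) x (rep x F) f (hdiff x hjf (hrepJ x F))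
        (by rw [hsymmlen, l3]; exact hlen)
    have e4 : e (rep x G) x (rep x F) = e (rep x F) x (rep x G) :=
      hC2 _ (hrepV x G) _ (hrepV x F) x (by rw [hsymmlen, l3]; exact hlen)
    rw [e1, e2, e3, e4]
  refine ⟨fun x => e (rep x (S x)) x (rep x (Y x)), ?_⟩
  intro q hq f hf x hlen
  have hJ0 : J ≠ 0 := by omega
  have key := localPairing (hm x) (hS0 x) (hdim x) L (fun F G => e (rep x F) x (rep x G))
    ?_ ?_ ?_ ?_ (algebraMap A (LocAt x) q) (algebraMap A (LocAt x) f) hlen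
  · have h1 := hI1 x (algebraMap A (LocAt x) q) (algebraMap A (LocAt x) f) hlen q hq f
      (by rw [sub_self]; exact Submodule.zero_mem _) (by rw [sub_self]; exact Submodule.zero_mem _)
    rw [h1, mul_comm]
    exact key
  · intro F G h
    exact hC2 _ (hrepV x F) _ (hrepV x G) x (by
      change len _ _ ≤ _
      rw [len_congr hLJ h (hrepJ x F) (hrepJ x G)]
      exact h)
  · intro F G₁ G₂ h
    change e (rep x F) x (rep x (G₁ * G₂)) = e (rep x F) x (rep x G₁) + e (rep x F) x (rep x G₂)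
    by_cases hxF : x (rep x F) = 0
    swap
    · rw [(he _ (hrepV x F)).off x _ hxF, (he _ (hrepV x F)).off x _ hxF,
        (he _ (hrepV x F)).off x _ hxF, add_zero]
    have hG₁ : len F G₁ ≤ L := (len_left F G₁ G₂).trans h
    have hG₂ : len F G₂ ≤ L := by
      refine (len_left F G₂ G₁).trans ?_
      rw [mul_comm]
      exact h
    have n₁ : rep x G₁ ∉ Ideal.span {rep x F} := by
      apply not_mem_of_len x (hpar x) hxF
      have h1 : lenAt x (rep x F) (rep x G₁) = len F G₁ :=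
        len_congr hLJ hG₁ (hrepJ x F) (hrepJ x G₁)
      rw [h1]
      exact ne_top_of_le_ne_top (ENat.natCast_ne_top L) hG₁
    have n₂ : rep x G₂ ∉ Ideal.span {rep x F} := by
      apply not_mem_of_len x (hpar x) hxF
      have h1 : lenAt x (rep x F) (rep x G₂) = len F G₂ :=
        len_congr hLJ hG₂ (hrepJ x F) (hrepJ x G₂)
      rw [h1]
      exact ne_top_of_le_ne_top (ENat.natCast_ne_top L) hG₂
    rw [← (he _ (hrepV x F)).mul x _ _ n₁ n₂]
    symm
    apply hI1 x F (G₁ * G₂) h _ (hrepV x F) _ (hrepJ x F)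
    rw [map_mul]
    have h1 := Ideal.add_mem _
      (Ideal.mul_mem_left _ (algebraMap A (LocAt x) (rep x G₁)) (hrepJ x G₂))
      (Ideal.mul_mem_left _ G₂ (hrepJ x G₁))
    have h2 : algebraMap A (LocAt x) (rep x G₁) * algebraMap A (LocAt x) (rep x G₂) - G₁ * G₂ =
        algebraMap A (LocAt x) (rep x G₁) * (algebraMap A (LocAt x) (rep x G₂) - G₂) +
        G₂ * (algebraMap A (LocAt x) (rep x G₁) - G₁) := by ring
    rw [h2]
    exact h1
  · intro F G R h
    change e (rep x F) x (rep x (G + R * F)) = e (rep x F) x (rep x G)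
    have h0 : len F (G + R * F) ≤ L := by rw [len_add]; exact h
    rw [← (he _ (hrepV x F)).add x (rep x G) (rep x R)]
    symm
    apply hI1 x F (G + R * F) h0 _ (hrepV x F) _ (hrepJ x F)
    rw [map_add, map_mul]
    have h1 := Ideal.add_mem _ (hrepJ x G) (Ideal.add_mem _
      (Ideal.mul_mem_left _ (algebraMap A (LocAt x) (rep x F)) (hrepJ x R))
      (Ideal.mul_mem_left _ R (hrepJ x F)))
    have h2 : algebraMap A (LocAt x) (rep x G) +
        algebraMap A (LocAt x) (rep x F) * algebraMap A (LocAt x) (rep x R) - (G + R * F) =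
        (algebraMap A (LocAt x) (rep x G) - G) +
        (algebraMap A (LocAt x) (rep x F) * (algebraMap A (LocAt x) (rep x R) - R) +
        R * (algebraMap A (LocAt x) (rep x F) - F)) := by ring
    rw [h2]
    exact h1
  · intro F G hG
    apply (he _ (hrepV x F)).unit
    rw [← LocFormula.isUnit_iff]
    by_contra hnu
    have h1 : algebraMap A (LocAt x) (rep x G) ∈ IsLocalRing.maximalIdeal (LocAt x) :=
      (IsLocalRing.mem_maximalIdeal _).2 hnu
    have h2 := Ideal.sub_mem _ h1 (Ideal.pow_le_self hJ0 (hrepJ x G))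
    rw [sub_sub_cancel] at h2
    exact (IsLocalRing.mem_maximalIdeal _).1 h2 hG

/-- K1-24. The local formula. `V` is a class of curves, `B` a space of small elements. -/
theorem local_formula {k A : Type} [Field k] [IsAlgClosed k] [CommRing A] [IsDomain A]
    [Algebra k A] [IsNoetherianRing A]
    (s : A) (V : Set A) (Λ : A → A → ℚ) (hΛ : IsSymb Λ) (e : A → (A →ₐ[k] k) → A → ℚ)
    (L J : ℕ) (hLJ : L < J)
    (hV0 : (0 : A) ∉ V) (hVp : ∀ q ∈ V, (Ideal.span {q}).IsPrime)
    (hVn : ∀ q ∈ V, ∀ q' ∈ V, q' ∈ Ideal.span {q} → q' = q)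
    (he : ∀ q ∈ V, LocDec (k := k) Λ q (e q))
    (hbad : ∀ f ∈ V, {x : A →ₐ[k] k | x f = 0 ∧ ¬ Transv s f x}.Finite)
    (hcore : ∀ q ∈ V, ∀ q' ∈ V, ∀ x : A →ₐ[k] k, x q = 0 → x q' = 0 → Transv s q x →
      Transv s q' x → e q x (s - algebraMap k A (x s)) = e q' x (s - algebraMap k A (x s)))
    (hpar : ∀ x : A →ₐ[k] k, ∃ S Y : LocAt x,
      IsLocalRing.maximalIdeal (LocAt x) = Ideal.span {S, Y} ∧ S ≠ 0 ∧ ∀ n : ℕ, ¬ S ∣ Y ^ n)
    -- jets
    (hjet : ∀ (x : A →ₐ[k] k) (f : A), ∃ f' ∈ V, f' - f ∈ RingHom.ker x ^ J)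
    -- general position inside `V`
    (hgp : ∀ (F : Finset A), (∀ f ∈ F, f ∈ V) → ∀ g ∈ V, g ∉ F → ∀ (x : A →ₐ[k] k)
      (Z : Finset (A →ₐ[k] k)), x ∉ Z → ∃ g' ∈ V, g' - g ∈ RingHom.ker x ^ J ∧
        (∀ z ∈ Z, z g' ≠ 0) ∧
        ∀ f ∈ F, ∀ z : A →ₐ[k] k, z ≠ x → z f = 0 → z g' = 0 → Transv s g' z) :
    ∃ u : (A →ₐ[k] k) → ℚ, ∀ q ∈ V, ∀ f ∉ Ideal.span {q}, ∀ x : A →ₐ[k] k, lenAt x q f ≤ L →
      e q x f = u x * ((lenAt x q f).toNat : ℚ) := by
  refine local_formula_rel s V Λ ?_ e L J hLJ hVp hVn he hbad hcore hpar hjet hgp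
  intro f hf g _ h1 _
  exact hΛ.symm f g (cop_of_not_mem f g (fun h => hV0 (h ▸ hf)) (hVp f hf) h1)

end Pool.Agent.K1
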