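import Mathlib

set_option autoImplicit false
set_option linter.style.longLine false

/-!
# Symmetric pairings on a regular local ring of dimension two

A pairing on coprime pairs which is symmetric, multiplicative, invariant under
`g ↦ g + r f` and trivial on units is a multiple of the intersection number.
-/

namespace Pool.Agent.K1

/-- A pairing on the coprime pairs (the pairs with `Cop f g`) of elements of `O`. -/
structure IsPairing {O V : Type*} [CommRing O] [AddCommGroup V] (Cop : O → O → Prop)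
    (B : O → O → V) : Prop where
  symm : ∀ f g, Cop f g → B f g = B g f
  mul : ∀ f g₁ g₂, Cop f (g₁ * g₂) → B f (g₁ * g₂) = B f g₁ + B f g₂
  add : ∀ f g r, Cop f g → B f (g + r * f) = B f g
  unit : ∀ f g, Cop f g → IsUnit g → B f g = 0

/-- The properties of the relation of coprimality. -/
structure IsCop {O : Type*} [CommRing O] (Cop : O → O → Prop) : Prop where
  symm : ∀ f g, Cop f g → Cop g f
  left : ∀ f g₁ g₂, Cop f (g₁ * g₂) → Cop f g₁
  add : ∀ f g r, Cop f g → Cop f (g + r * f)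

theorem IsCop.right {O : Type*} [CommRing O] {Cop : O → O → Prop} (h : IsCop Cop) {f g₁ g₂ : O}
    (hf : Cop f (g₁ * g₂)) : Cop f g₂ := by
  rw [mul_comm] at hf
  exact h.left _ _ _ hf

theorem IsCop.pow {O : Type*} [CommRing O] {Cop : O → O → Prop} (h : IsCop Cop) {f g : O} {e : ℕ}
    (he : 0 < e) (hf : Cop f (g ^ e)) : Cop f g := by
  obtain ⟨e, rfl⟩ : ∃ e', e = e' + 1 := ⟨e - 1, by omega⟩
  rw [pow_succ] at hf
  exact h.right hf

theorem IsPairing.pow {O V : Type*} [CommRing O] [AddCommGroup V] {Cop : O → O → Prop}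
    {B : O → O → V} (hC : IsCop Cop) (hB : IsPairing Cop B) {f g : O} (e : ℕ)
    (hf : Cop f (g ^ e)) : B f (g ^ e) = e • B f g := by
  induction e with
  | zero =>
    rw [pow_zero] at hf ⊢
    rw [zero_smul, hB.unit f 1 hf isUnit_one]
  | succ e ih =>
    rw [pow_succ] at hf ⊢
    rw [hB.mul f _ _ hf, ih (hC.left _ _ _ hf), succ_nsmul]

/-- The pairing with `S`. -/
theorem IsPairing.eq_of_mod {O V : Type*} [CommRing O] [AddCommGroup V] {Cop : O → O → Prop}
    {B : O → O → V} (hC : IsCop Cop) (hB : IsPairing Cop B) {S Y a u r : O} {e : ℕ}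
    (ha : Cop S a) (hu : IsUnit u) (hae : a = u * Y ^ e + r * S) : B S a = e • B S Y := by
  have h1 : a + (-r) * S = u * Y ^ e := by rw [hae]; ring
  have h2 : Cop S (u * Y ^ e) := h1 ▸ hC.add S a (-r) ha
  have h3 : B S a = B S (u * Y ^ e) := by rw [← h1, hB.add S a (-r) ha]
  rw [h3, hB.mul _ _ _ h2, hB.unit _ _ (hC.left _ _ _ h2) hu, zero_add,
    hB.pow hC e (hC.right h2)]

/-- A pairing on a local ring with maximal ideal `(S, Y)`, in which every element not divisible
by `S` is a unit times a power of `Y` modulo `S`, is a multiple of the intersection number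
`ℓ`. -/
theorem IsPairing.eq_smul {O V : Type*} [CommRing O] [AddCommGroup V] {Cop : O → O → Prop}
    {B : O → O → V} {ℓ : O → O → ℤ} (hC : IsCop Cop) (hB : IsPairing Cop B)
    (hℓ : IsPairing Cop ℓ) (hnn : ∀ f g, Cop f g → 0 ≤ ℓ f g) (S Y : O)
    (hunit : ∀ u r : O, IsUnit u → IsUnit (u + r * S))
    (hdvr : ∀ f, ¬ S ∣ f → ∃ (e : ℕ) (u r : O), IsUnit u ∧ f = u * Y ^ e + r * S)
    (hS : ∀ f g, Cop f g → ¬ (S ∣ f ∧ S ∣ g))
    (hSY : Cop S Y → ℓ S Y = 1) (f g : O) (hfg : Cop f g) :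
    B f g = ℓ f g • B S Y := by
  -- induction on the intersection number
  obtain ⟨n, hn⟩ : ∃ n : ℕ, ℓ f g ≤ n := ⟨(ℓ f g).toNat, Int.self_le_toNat _⟩
  induction n using Nat.strong_induction_on generalizing f g with
  | _ n ih =>
  -- the main step, when `a` is not divisible by `S` and `S ∣ b + c a`
  have step : ∀ a b : O, Cop a b → ℓ a b ≤ n → ¬ IsUnit a → ∀ (e : ℕ) (u r c : O), IsUnit u →
      a = u * Y ^ e + r * S → S ∣ b + c * a → B a b = ℓ a b • B S Y := by
    intro a b hab hle hau e u r c hu hae hc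
    have he : 0 < e := by
      rcases Nat.eq_zero_or_pos e with h0 | h0
      · exfalso
        subst h0
        rw [pow_zero, mul_one] at hae
        exact hau (hae ▸ hunit u r hu)
      · exact h0
    obtain ⟨w, hw⟩ := hc
    have h1 : Cop a (S * w) := hw ▸ hC.add a b c hab
    have h2 : B a b = B a S + B a w := by
      rw [← hB.mul _ _ _ h1, ← hw, hB.add _ _ _ hab]
    have h3 : ℓ a b = ℓ a S + ℓ a w := by
      rw [← hℓ.mul _ _ _ h1, ← hw, hℓ.add _ _ _ hab]
    have h4 : Cop a S := hC.left _ _ _ h1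
    have h5 : Cop a w := hC.right h1
    have h6 : Cop S a := hC.symm _ _ h4
    have h7 : Cop S Y := by
      have h8 : a + (-r) * S = u * Y ^ e := by rw [hae]; ring
      exact hC.pow he (hC.right (h8 ▸ hC.add S a (-r) h6))
    have h9 : B a S = e • B S Y := by
      rw [hB.symm _ _ h4, hB.eq_of_mod hC h6 hu hae]
    have h10 : ℓ a S = e := by
      rw [hℓ.symm _ _ h4, hℓ.eq_of_mod hC h6 hu hae, hSY h7]
      simp
    have h11 := hnn _ _ h5
    have h12 : B a w = ℓ a w • B S Y := by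
      refine ih (ℓ a w).toNat ?_ a w h5 (Int.self_le_toNat _)
      omega
    rw [h2, h3, h9, h10, h12, add_smul, natCast_zsmul]
  -- units
  by_cases hgu : IsUnit g
  · rw [hB.unit _ _ hfg hgu, hℓ.unit _ _ hfg hgu, zero_smul]
  by_cases hfu : IsUnit f
  · rw [hB.symm _ _ hfg, hℓ.symm _ _ hfg, hB.unit _ _ (hC.symm _ _ hfg) hfu,
      hℓ.unit _ _ (hC.symm _ _ hfg) hfu, zero_smul]
  have hgf : Cop g f := hC.symm _ _ hfg
  have swap : B g f = ℓ g f • B S Y → B f g = ℓ f g • B S Y := by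
    intro h
    rw [hB.symm _ _ hfg, hℓ.symm _ _ hfg, h]
  have hn' : ℓ g f ≤ n := by rw [hℓ.symm _ _ hgf]; exact hn
  by_cases hSf : S ∣ f
  · have hSg : ¬ S ∣ g := fun h => hS _ _ hfg ⟨hSf, h⟩
    obtain ⟨e, u, r, hu, he⟩ := hdvr g hSg
    exact swap (step g f hgf hn' hgu e u r 0 hu he (by simpa using hSf))
  obtain ⟨e, u, r, hu, he⟩ := hdvr f hSf
  by_cases hSg : S ∣ g
  · exact step f g hfg hn hfu e u r 0 hu he (by simpa using hSg)
  obtain ⟨e', u', r', hu', he'⟩ := hdvr g hSg
  rcases le_total e e' with h | h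
  · obtain ⟨v, hv⟩ := hu.exists_right_inv
    refine step f g hfg hn hfu e u r (-(u' * v * Y ^ (e' - e))) hu he ⟨r' - u' * v * Y ^ (e' - e) * r, ?_⟩
    obtain ⟨d, rfl⟩ : ∃ d, e' = e + d := ⟨e' - e, by omega⟩
    rw [Nat.add_sub_cancel_left, he, he', pow_add]
    linear_combination (-(u' * Y ^ d * Y ^ e)) * hv
  · obtain ⟨v, hv⟩ := hu'.exists_right_inv
    refine swap (step g f hgf hn' hgu e' u' r' (-(u * v * Y ^ (e - e'))) hu' he'
      ⟨r - u * v * Y ^ (e - e') * r', ?_⟩)
    obtain ⟨d, rfl⟩ : ∃ d, e = e' + d := ⟨e - e', by omega⟩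
    rw [Nat.add_sub_cancel_left, he, he', pow_add]
    linear_combination (-(u * Y ^ d * Y ^ e')) * hv

/-- In a Noetherian local ring with maximal ideal `(S, Y)` every element not divisible by `S` is
a unit times a power of `Y` modulo `S`. -/
theorem exists_unit_mul_pow {O : Type*} [CommRing O] [IsLocalRing O] [IsNoetherianRing O]
    (S Y : O) (hm : IsLocalRing.maximalIdeal O = Ideal.span {S, Y}) (f : O) (hf : ¬ S ∣ f) :
    ∃ (e : ℕ) (u r : O), IsUnit u ∧ f = u * Y ^ e + r * S := by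
  classical
  have hSm : S ∈ IsLocalRing.maximalIdeal O := hm ▸ Ideal.subset_span (by simp)
  have hYm : Y ∈ IsLocalRing.maximalIdeal O := hm ▸ Ideal.subset_span (by simp)
  -- Krull intersection in `O / S`
  have h1 : ∃ n : ℕ, ¬ ∃ a r : O, f = a * Y ^ n + r * S := by
    by_contra h
    push Not at h
    apply hf
    let I : Ideal O := Ideal.span {S}
    have hI : I ≤ IsLocalRing.maximalIdeal O := by
      rw [Ideal.span_le]
      rintro x rfl
      exact hSm
    have h2 : (Ideal.Quotient.mk I f) ∈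
        ⨅ n : ℕ, ((IsLocalRing.maximalIdeal O).map (Ideal.Quotient.mk I)) ^ n := by
      rw [Submodule.mem_iInf]
      intro n
      obtain ⟨a, r, har⟩ := h n
      rw [har, map_add, map_mul, map_mul]
      have h3 : Ideal.Quotient.mk I S = 0 := Ideal.Quotient.eq_zero_iff_mem.2 (Ideal.mem_span_singleton_self S)
      rw [h3, mul_zero, add_zero, map_pow]
      exact Ideal.mul_mem_left _ _ (Ideal.pow_mem_pow (Ideal.mem_map_of_mem _ hYm) n)
    have hnt : Nontrivial (O ⧸ I) := Ideal.Quotient.nontrivial_iff.2 (ne_top_of_le_ne_top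
      (IsLocalRing.maximalIdeal.isMaximal O).ne_top hI)
    have hloc : IsLocalRing (O ⧸ I) := IsLocalRing.of_surjective' _ Ideal.Quotient.mk_surjective
    have hne : (IsLocalRing.maximalIdeal O).map (Ideal.Quotient.mk I) ≠ ⊤ := by
      intro htop
      have h4 := congrArg (Ideal.comap (Ideal.Quotient.mk I)) htop
      rw [Ideal.comap_map_of_surjective' _ Ideal.Quotient.mk_surjective, Ideal.mk_ker, Ideal.comap_top,
        sup_eq_left.2 hI] at h4
      exact (IsLocalRing.maximalIdeal.isMaximal O).ne_top h4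
    rw [Ideal.iInf_pow_eq_bot_of_isLocalRing _ hne] at h2
    have h5 : Ideal.Quotient.mk I f = 0 := by simpa using h2
    exact Ideal.mem_span_singleton.1 (Ideal.Quotient.eq_zero_iff_mem.1 h5)
  have h0 : ∃ a r : O, f = a * Y ^ 0 + r * S := ⟨f, 0, by simp⟩
  obtain ⟨n, hn, hmin⟩ : ∃ n : ℕ, (¬ ∃ a r : O, f = a * Y ^ n + r * S) ∧
      ∀ m < n, ∃ a r : O, f = a * Y ^ m + r * S := by
    refine ⟨Nat.find h1, Nat.find_spec h1, fun m hm => ?_⟩
    exact not_not.1 (Nat.find_min h1 hm)
  have hnpos : 0 < n := by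
    rcases Nat.eq_zero_or_pos n with rfl | h
    · exact absurd h0 hn
    · exact h
  obtain ⟨a, r, har⟩ := hmin (n - 1) (by omega)
  refine ⟨n - 1, a, r, ?_, har⟩
  by_contra hau
  have ham : a ∈ IsLocalRing.maximalIdeal O := (IsLocalRing.mem_maximalIdeal a).2 hau
  rw [hm, Ideal.mem_span_pair] at ham
  obtain ⟨b, c, hbc⟩ := ham
  apply hn
  refine ⟨c, r + b * Y ^ (n - 1), ?_⟩
  rw [har, ← hbc]
  obtain ⟨d, rfl⟩ : ∃ d, n = d + 1 := ⟨n - 1, by omega⟩
  rw [Nat.add_sub_cancel, pow_succ]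
  ring

end Pool.Agent.K1
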