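import Pool.Agent.K1.M1ACore
import Pool.Agent.K1.M1A1

set_option autoImplicit false
set_option linter.style.longLine false

/-! # M1A, the interface for Stepanov's method -/

open Polynomial

namespace Pool.Agent.K1

open M1A

/-- M1A. The evaluation of polynomials in `lam, T_1, ..., T_N` at the roots, seen in `k[[X]]`. -/
theorem M1A_interface {k : Type} [Field k] [IsAlgClosed k] (F : k[X][X]) (N h : ℕ)
    (hF : F.Monic) (hN : F.natDegree = N) (hh : ∀ i, (F.coeff i).natDegree ≤ h)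
    (hG : FullGal F N) :
    ∃ (ι : MvPolynomial (Fin N) k[X] →+* PowerSeries k) (𝓑 : Finset (Fin N →₀ ℕ)),
      (∀ c : k, ι (MvPolynomial.C (C c)) = PowerSeries.C c) ∧
      𝓑.card = N.factorial ∧ (∀ a ∈ 𝓑, ∀ i, a i < N) ∧
      (∀ u : (ℕ × (Fin N →₀ ℕ)) →₀ k, (∀ j ∈ u.support, j.2 ∈ 𝓑) →
        ι (u.sum fun j c => MvPolynomial.monomial j.2 (C c * X ^ j.1)) = 0 → u = 0) ∧
      (∀ (f : MvPolynomial (Fin N) k[X]), ι f = 0 → ∀ q, FibrePt F q → atPt q f = 0) ∧
      (∀ (f : MvPolynomial (Fin N) k[X]) (m : ℕ), WDeg h f m → ι f ≠ 0 →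
        (ι f).order ≤ ((N.factorial * m : ℕ) : ℕ∞) ∧
        ∀ Q : Finset (k × (Fin N → k)), (∀ q ∈ Q, FibrePt F q ∧ atPt q f = 0) →
          Q.card ≤ N.factorial * m) := by
  classical
  obtain ⟨B, hB⟩ := M1A2_unramified N h
  obtain ⟨R, _, hR⟩ := hB k F hF hN hh hG
  obtain ⟨T, hT, hfac, hgal⟩ := hG
  have hinf : Infinite k := inferInstance
  obtain ⟨lam, hlam⟩ := Infinite.exists_notMem_finset R
  obtain ⟨x, hx⟩ := hR lam hlam
  have hdat : ∀ q, FibrePt F q → Dat F T q := by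
    intro q hq
    obtain ⟨j, h1, h2⟩ := M1A1_embed F N hF hN T hT hfac hgal q hq
    choose t ht using h2
    exact ⟨t, j, fun i => (ht i).2, fun f => ofPS_io F T q.1 t j h1 (fun i => (ht i).1) f,
      fun c => h1 c⟩
  obtain ⟨t, j, ht, h1, h2⟩ := hdat _ hx
  obtain ⟨𝓑, hB1, hB2, hB3⟩ := exists_basis hF hN hT hfac hgal
  have hzero : ∀ f : MvPolynomial (Fin N) k[X], io lam t f = 0 ↔ ev F T f = 0 := by
    intro f
    rw [← map_eq_zero_iff j j.injective, h1,
      map_eq_zero_iff _ (HahnSeries.ofPowerSeries_injective (Γ := ℤ))]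
  refine ⟨io lam t, 𝓑, ?_, hB1, hB2, ?_, ?_, ?_⟩
  · intro c
    rw [io, MvPolynomial.coe_eval₂Hom, MvPolynomial.eval₂_C, sh_apply, C_comp,
      Polynomial.coe_C]
  · intro u hu h3
    exact indep hB3 u hu ((hzero _).1 h3)
  · intro f hf q hq
    obtain ⟨t', j', ht', h1', _⟩ := hdat q hq
    have h3 := h1' f
    rw [(hzero f).1 hf, map_zero] at h3
    have h4 : io q.1 t' f = 0 := by
      apply HahnSeries.ofPowerSeries_injective (Γ := ℤ)
      rw [← h3, map_zero]
    have h5 := constantCoeff_io q.1 t' f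
    rw [h4, map_zero] at h5
    have h6 : ((q.1, fun i => PowerSeries.constantCoeff (t' i)) : k × (Fin N → k)) = q :=
      Prod.ext rfl (funext ht')
    rw [h6] at h5
    exact h5.symm
  · intro f m hf hne
    obtain ⟨P, hP⟩ := exists_P hF hT hfac f
    have hP0 : P ≠ 0 := P_ne_zero hgal hP fun h3 => hne ((hzero f).2 h3)
    have hPd := natDegree_le hF hN hh hfac f hf P hP
    constructor
    · exact (order_le h1 h2 hP hP0).trans (by exact_mod_cast hPd)
    · intro Q hQ
      exact (card_le hF hN hdat hP hP0 Q hQ).trans hPd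

end Pool.Agent.K1
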