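import Pool.Agent.K1.ChebDefs

set_option autoImplicit false
set_option linter.style.longLine false

/-! # M1A, the lemmas (norms, bases, orders) for Stepanov's method -/

open Polynomial

namespace Pool.Agent.K1

namespace M1A

open WithZero in
/-- the degree valuation of `k(X)` -/
theorem exists_val (k : Type) [Field k] :
    ∃ v : Valuation (FractionRing k[X]) (WithZero (Multiplicative ℤ)), ∀ p : k[X], p ≠ 0 →
      v (algebraMap k[X] (FractionRing k[X]) p) = exp (p.natDegree : ℤ) := by
  classical
  let e : FractionRing k[X] →+* RatFunc k :=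
    ((FractionRing.algEquiv k[X] (RatFunc k) : FractionRing k[X] ≃ₐ[k[X]] RatFunc k) :
      FractionRing k[X] →+* RatFunc k)
  refine ⟨(RatFunc.inftyValuation k).comap e, fun p hp => ?_⟩
  have h1 : e (algebraMap k[X] (FractionRing k[X]) p) = algebraMap k[X] (RatFunc k) p :=
    AlgEquiv.commutes _ p
  rw [Valuation.comap_apply, h1, RatFunc.inftyValuation_apply, RatFunc.inftyValuation.polynomial k hp]

/-- substitution `X ↦ X + a`, as a power series -/
noncomputable def sh {k : Type} [Field k] (a : k) : k[X] →+* PowerSeries k :=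
  (Polynomial.coeToPowerSeries.ringHom).comp (compRingHom (X + C a))

theorem sh_apply {k : Type} [Field k] (a : k) (c : k[X]) :
    sh a c = ((c.comp (X + C a) : k[X]) : PowerSeries k) := rfl

/-- evaluation at `X + a` and the power series `t i` -/
noncomputable def io {k : Type} [Field k] {N : ℕ} (a : k) (t : Fin N → PowerSeries k) :
    MvPolynomial (Fin N) k[X] →+* PowerSeries k :=
  MvPolynomial.eval₂Hom (sh a) t

theorem constantCoeff_sh {k : Type} [Field k] (a : k) (c : k[X]) :
    PowerSeries.constantCoeff (sh a c) = c.eval a := by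
  rw [sh_apply, ← PowerSeries.coeff_zero_eq_constantCoeff_apply, Polynomial.coeff_coe,
    Polynomial.coeff_zero_eq_eval_zero, eval_comp]
  simp

theorem constantCoeff_io {k : Type} [Field k] {N : ℕ} (a : k) (t : Fin N → PowerSeries k)
    (f : MvPolynomial (Fin N) k[X]) :
    PowerSeries.constantCoeff (io a t f) = atPt (a, fun i => PowerSeries.constantCoeff (t i)) f := by
  have h : (PowerSeries.constantCoeff (R := k)).comp (io a t) =
      atPt (a, fun i => PowerSeries.constantCoeff (t i)) := by
    apply MvPolynomial.ringHom_ext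
    · intro c
      rw [RingHom.comp_apply, io, atPt, MvPolynomial.coe_eval₂Hom, MvPolynomial.eval₂_C,
        MvPolynomial.coe_eval₂Hom, MvPolynomial.eval₂_C, constantCoeff_sh, coe_evalRingHom]
    · intro i
      rw [RingHom.comp_apply, io, atPt, MvPolynomial.coe_eval₂Hom, MvPolynomial.eval₂_X,
        MvPolynomial.coe_eval₂Hom, MvPolynomial.eval₂_X]
  exact DFunLike.congr_fun h f

variable {k : Type} [Field k] (F : k[X][X])

/-- the coefficients in the splitting field -/
noncomputable def cf : k[X] →+* (overFrac F).SplittingField :=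
  (algebraMap (FractionRing k[X]) (overFrac F).SplittingField).comp
    (algebraMap k[X] (FractionRing k[X]))

theorem cf_apply (c : k[X]) : cf F c = algebraMap (FractionRing k[X]) (overFrac F).SplittingField
    (algebraMap k[X] (FractionRing k[X]) c) := rfl

theorem cf_injective : Function.Injective (cf F) :=
  (algebraMap (FractionRing k[X]) (overFrac F).SplittingField).injective.comp
    (IsFractionRing.injective k[X] (FractionRing k[X]))

/-- evaluation at the roots -/
noncomputable def ev {N : ℕ} (T : Fin N → (overFrac F).SplittingField) :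
    MvPolynomial (Fin N) k[X] →+* (overFrac F).SplittingField :=
  MvPolynomial.eval₂Hom (cf F) T

theorem ev_C {N : ℕ} (T : Fin N → (overFrac F).SplittingField) (c : k[X]) :
    ev F T (MvPolynomial.C c) = cf F c := by
  rw [ev, MvPolynomial.coe_eval₂Hom, MvPolynomial.eval₂_C]

theorem ev_X {N : ℕ} (T : Fin N → (overFrac F).SplittingField) (i : Fin N) :
    ev F T (MvPolynomial.X i) = T i := by
  rw [ev, MvPolynomial.coe_eval₂Hom, MvPolynomial.eval₂_X]

theorem ev_monomial {N : ℕ} (T : Fin N → (overFrac F).SplittingField) (a : Fin N →₀ ℕ) (c : k[X]) :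
    ev F T (MvPolynomial.monomial a c) = cf F c * ∏ i, T i ^ a i := by
  rw [ev, MvPolynomial.coe_eval₂Hom, MvPolynomial.eval₂_monomial, Finsupp.prod_fintype]
  intro i
  exact pow_zero _

theorem ofPS_io {N : ℕ} (T : Fin N → (overFrac F).SplittingField) (a : k)
    (t : Fin N → PowerSeries k) (j : (overFrac F).SplittingField →+* LaurentSeries k)
    (hj : ∀ c : k[X], j (algebraMap (FractionRing k[X]) _ (algebraMap k[X] (FractionRing k[X]) c)) =
        HahnSeries.ofPowerSeries ℤ k ((c.comp (X + C a) : k[X]) : PowerSeries k))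
    (ht : ∀ i, j (T i) = HahnSeries.ofPowerSeries ℤ k (t i)) (f : MvPolynomial (Fin N) k[X]) :
    j (ev F T f) = HahnSeries.ofPowerSeries ℤ k (io a t f) := by
  have h : j.comp (ev F T) = (HahnSeries.ofPowerSeries ℤ k).comp (io a t) := by
    apply MvPolynomial.ringHom_ext
    · intro c
      rw [RingHom.comp_apply, RingHom.comp_apply, ev_C, io, MvPolynomial.coe_eval₂Hom,
        MvPolynomial.eval₂_C, cf_apply, hj, sh_apply]
    · intro i
      rw [RingHom.comp_apply, RingHom.comp_apply, ev_X, io, MvPolynomial.coe_eval₂Hom,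
        MvPolynomial.eval₂_X, ht]
  exact DFunLike.congr_fun h f

variable {F} {N : ℕ} {T : Fin N → (overFrac F).SplittingField}

theorem ev_rename (π : Fin N → Fin N) (f : MvPolynomial (Fin N) k[X]) :
    ev F T (MvPolynomial.rename π f) = ev F (T ∘ π) f := by
  rw [ev, MvPolynomial.coe_eval₂Hom, MvPolynomial.eval₂_rename, ev, MvPolynomial.coe_eval₂Hom]

theorem io_rename {a : k} {t : Fin N → PowerSeries k} (π : Fin N → Fin N)
    (f : MvPolynomial (Fin N) k[X]) :
    io a t (MvPolynomial.rename π f) = io a (t ∘ π) f := by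
  rw [io, MvPolynomial.coe_eval₂Hom, MvPolynomial.eval₂_rename, io, MvPolynomial.coe_eval₂Hom]

theorem map_ev (g : (overFrac F).SplittingField ≃ₐ[FractionRing k[X]] (overFrac F).SplittingField)
    (f : MvPolynomial (Fin N) k[X]) : g (ev F T f) = ev F (fun i => g (T i)) f := by
  have h : (g : (overFrac F).SplittingField →+* (overFrac F).SplittingField).comp (ev F T) =
      ev F (fun i => g (T i)) := by
    apply MvPolynomial.ringHom_ext
    · intro c
      rw [RingHom.comp_apply, ev_C, ev_C, cf_apply]
      exact g.commutes _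
    · intro i
      rw [RingHom.comp_apply, ev_X, ev_X]
      rfl
  exact DFunLike.congr_fun h f

theorem root_iff (hfac : (overFrac F).map (algebraMap (FractionRing k[X])
      (overFrac F).SplittingField) = ∏ i, (X - C (T i))) (x : (overFrac F).SplittingField) :
    aeval x (overFrac F) = 0 ↔ ∃ j, x = T j := by
  rw [aeval_def, ← eval_map, hfac, eval_prod, Finset.prod_eq_zero_iff]
  simp only [Finset.mem_univ, true_and, eval_sub, eval_X, eval_C, sub_eq_zero]

theorem exists_perm (hT : Function.Injective T)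
    (hfac : (overFrac F).map (algebraMap (FractionRing k[X])
      (overFrac F).SplittingField) = ∏ i, (X - C (T i)))
    (g : (overFrac F).SplittingField ≃ₐ[FractionRing k[X]] (overFrac F).SplittingField) :
    ∃ π : Equiv.Perm (Fin N), ∀ i, g (T i) = T (π i) := by
  have h : ∀ i, ∃ j, g (T i) = T j := by
    intro i
    rw [← root_iff hfac]
    have h1 : aeval (T i) (overFrac F) = 0 := (root_iff hfac _).2 ⟨i, rfl⟩
    have h2 := aeval_algHom_apply (g : (overFrac F).SplittingField →ₐ[FractionRing k[X]]
      (overFrac F).SplittingField) (T i) (overFrac F)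
    rw [h1, map_zero] at h2
    exact h2
  choose π hπ using h
  have hinj : Function.Injective π := by
    intro i j hij
    apply hT
    apply g.injective
    rw [hπ, hπ, hij]
  exact ⟨Equiv.ofBijective π (Finite.injective_iff_bijective.1 hinj), fun i => hπ i⟩

theorem separable (hT : Function.Injective T)
    (hfac : (overFrac F).map (algebraMap (FractionRing k[X])
      (overFrac F).SplittingField) = ∏ i, (X - C (T i))) : (overFrac F).Separable := by
  rw [← separable_map (algebraMap (FractionRing k[X]) (overFrac F).SplittingField), hfac,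
    separable_prod_X_sub_C_iff]
  exact hT

theorem isGalois (hT : Function.Injective T)
    (hfac : (overFrac F).map (algebraMap (FractionRing k[X])
      (overFrac F).SplittingField) = ∏ i, (X - C (T i))) :
    IsGalois (FractionRing k[X]) (overFrac F).SplittingField :=
  IsGalois.of_separable_splitting_field (separable hT hfac)

theorem adjoin_top (hfac : (overFrac F).map (algebraMap (FractionRing k[X])
      (overFrac F).SplittingField) = ∏ i, (X - C (T i))) :
    Algebra.adjoin (FractionRing k[X]) (Set.range T) = ⊤ := by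
  rw [eq_top_iff, ← SplittingField.adjoin_rootSet (overFrac F)]
  apply Algebra.adjoin_mono
  intro x hx
  rw [mem_rootSet] at hx
  obtain ⟨j, hj⟩ := (root_iff hfac x).1 hx.2
  exact ⟨j, hj.symm⟩

theorem card_aut (hT : Function.Injective T)
    (hfac : (overFrac F).map (algebraMap (FractionRing k[X])
      (overFrac F).SplittingField) = ∏ i, (X - C (T i)))
    (hgal : ∀ π : Equiv.Perm (Fin N),
      ∃ g : (overFrac F).SplittingField ≃ₐ[FractionRing k[X]] (overFrac F).SplittingField,
        ∀ i, g (T i) = T (π i)) :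
    Module.finrank (FractionRing k[X]) (overFrac F).SplittingField = N.factorial := by
  have := isGalois hT hfac
  rw [← IsGalois.card_aut_eq_finrank]
  choose π hπ using exists_perm hT hfac
  have hbij : Function.Bijective π := by
    constructor
    · intro g g' h
      have h1 : (g : (overFrac F).SplittingField →ₐ[FractionRing k[X]]
          (overFrac F).SplittingField) = g' := by
        apply AlgHom.ext_of_adjoin_eq_top (adjoin_top hfac)
        rintro _ ⟨i, rfl⟩
        show g (T i) = g' (T i)
        rw [hπ, hπ, h]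
      exact AlgEquiv.coe_toAlgHom_injective h1
    · intro σ
      obtain ⟨g, hg⟩ := hgal σ
      refine ⟨g, ?_⟩
      ext i
      have h1 := hπ g i
      rw [hg] at h1
      exact congrArg _ (hT h1.symm)
  rw [Nat.card_congr (Equiv.ofBijective π hbij), Nat.card_eq_fintype_card, Fintype.card_perm,
    Fintype.card_fin]

/-- the elements of the splitting field integral over `k[X]` -/
theorem isIntegral_ev (hF : F.Monic) (hfac : (overFrac F).map (algebraMap (FractionRing k[X])
      (overFrac F).SplittingField) = ∏ i, (X - C (T i))) (f : MvPolynomial (Fin N) k[X]) :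
    IsIntegral k[X] (ev F T f) := by
  have hTi : ∀ i, IsIntegral k[X] (T i) := by
    intro i
    refine ⟨F, hF, ?_⟩
    have h1 : aeval (T i) (overFrac F) = 0 := (root_iff hfac _).2 ⟨i, rfl⟩
    rw [aeval_def, eval₂_map] at h1
    rw [IsScalarTower.algebraMap_eq k[X] (FractionRing k[X]) (overFrac F).SplittingField]
    exact h1
  induction f using MvPolynomial.induction_on with
  | C c =>
    rw [ev_C, cf_apply, ← IsScalarTower.algebraMap_apply]
    exact isIntegral_algebraMap
  | add p q hp hq =>
    rw [map_add]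
    exact hp.add hq
  | mul_X p i hp =>
    rw [map_mul, ev_X]
    exact hp.mul (hTi i)

/-- the monomials with exponents `< N` in the roots -/
noncomputable def mono (T : Fin N → (overFrac F).SplittingField) (a : Fin N → Fin N) :
    (overFrac F).SplittingField := ∏ i, T i ^ (a i : ℕ)

theorem mono_update (a : Fin N → Fin N) (i j : Fin N) :
    mono T (Function.update a i j) = T i ^ (j : ℕ) * ∏ l ∈ Finset.univ.erase i, T l ^ (a l : ℕ) := by
  classical
  rw [mono, ← Finset.mul_prod_erase Finset.univ _ (Finset.mem_univ i), Function.update_self]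
  congr 1
  refine Finset.prod_congr rfl fun l hl => ?_
  rw [Function.update_of_ne (Finset.ne_of_mem_erase hl)]

theorem mono_eq (a : Fin N → Fin N) (i : Fin N) :
    mono T a = T i ^ (a i : ℕ) * ∏ l ∈ Finset.univ.erase i, T l ^ (a l : ℕ) := by
  rw [← mono_update, Function.update_eq_self]

theorem pow_N (hF : F.Monic) (hN : F.natDegree = N) (hfac : (overFrac F).map
      (algebraMap (FractionRing k[X]) (overFrac F).SplittingField) = ∏ i, (X - C (T i)))
    (i : Fin N) : T i ^ N = ∑ j : Fin N, (-(overFrac F).coeff j) • T i ^ (j : ℕ) := by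
  have h1 : aeval (T i) (overFrac F) = 0 := (root_iff hfac _).2 ⟨i, rfl⟩
  have hm : (overFrac F).Monic := hF.map _
  have hd : (overFrac F).natDegree = N := by
    rw [overFrac, hF.natDegree_map, hN]
  rw [aeval_eq_sum_range, hd, Finset.sum_range_succ, ← hd, hm.coeff_natDegree, one_smul, hd] at h1
  rw [Fin.sum_univ_eq_sum_range (fun j => (-(overFrac F).coeff j) • T i ^ j) N]
  simp only [neg_smul, Finset.sum_neg_distrib]
  exact eq_neg_of_add_eq_zero_right h1

theorem span_mono (hF : F.Monic) (hN : F.natDegree = N) (hfac : (overFrac F).map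
      (algebraMap (FractionRing k[X]) (overFrac F).SplittingField) = ∏ i, (X - C (T i))) :
    Submodule.span (FractionRing k[X]) (Set.range (mono T)) = ⊤ := by
  have h1 : ∀ i, ∀ w ∈ Submodule.span (FractionRing k[X]) (Set.range (mono T)),
      T i * w ∈ Submodule.span (FractionRing k[X]) (Set.range (mono T)) := by
    intro i w hw
    induction hw using Submodule.span_induction with
    | mem x hx =>
      obtain ⟨a, rfl⟩ := hx
      by_cases hai : (a i : ℕ) + 1 < N
      · have h2 : T i * mono T a = mono T (Function.update a i ⟨a i + 1, hai⟩) := by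
          rw [mono_update, mono_eq a i, ← mul_assoc, ← pow_succ']
        rw [h2]
        exact Submodule.subset_span ⟨_, rfl⟩
      · have hai' : (a i : ℕ) + 1 = N := by have := (a i).2; omega
        have h2 : T i * mono T a = ∑ j : Fin N, (-(overFrac F).coeff j) •
            mono T (Function.update a i j) := by
          rw [mono_eq a i, ← mul_assoc, ← pow_succ', hai', pow_N hF hN hfac i, Finset.sum_mul]
          refine Finset.sum_congr rfl fun j _ => ?_
          rw [mono_update, smul_mul_assoc]
        rw [h2]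
        exact Submodule.sum_mem _ fun j _ => Submodule.smul_mem _ _ (Submodule.subset_span ⟨_, rfl⟩)
    | zero => rw [mul_zero]; exact Submodule.zero_mem _
    | add x y _ _ hx hy => rw [mul_add]; exact Submodule.add_mem _ hx hy
    | smul c x _ hx => rw [mul_smul_comm]; exact Submodule.smul_mem _ _ hx
  have h2 : ∀ x ∈ Algebra.adjoin (FractionRing k[X]) (Set.range T),
      ∀ w ∈ Submodule.span (FractionRing k[X]) (Set.range (mono T)),
      x * w ∈ Submodule.span (FractionRing k[X]) (Set.range (mono T)) := by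
    intro x hx
    induction hx using Algebra.adjoin_induction with
    | mem x hx =>
      obtain ⟨i, rfl⟩ := hx
      exact h1 i
    | algebraMap r =>
      intro w hw
      rw [← Algebra.smul_def]
      exact Submodule.smul_mem _ _ hw
    | add x y _ _ hx hy =>
      intro w hw
      rw [add_mul]
      exact Submodule.add_mem _ (hx w hw) (hy w hw)
    | mul x y _ _ hx hy =>
      intro w hw
      rw [mul_assoc]
      exact hx _ (hy w hw)
  have h3 : (1 : (overFrac F).SplittingField) ∈
      Submodule.span (FractionRing k[X]) (Set.range (mono T)) := by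
    refine Submodule.subset_span ⟨fun i => ⟨0, i.pos⟩, ?_⟩
    simp [mono]
  rw [eq_top_iff]
  intro x _
  rw [← mul_one x]
  exact h2 x (by rw [adjoin_top hfac]; exact Algebra.mem_top) 1 h3

/-- the exponent vector as a finsupp -/
noncomputable def toF (a : Fin N → Fin N) : Fin N →₀ ℕ :=
  Finsupp.equivFunOnFinite.symm (fun i => (a i : ℕ))

theorem toF_apply (a : Fin N → Fin N) (i : Fin N) : toF a i = (a i : ℕ) := rfl

theorem toF_injective : Function.Injective (toF : (Fin N → Fin N) → (Fin N →₀ ℕ)) := by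
  intro a b h
  funext i
  exact Fin.ext (DFunLike.congr_fun h i)

theorem exists_basis (hF : F.Monic) (hN : F.natDegree = N) (hT : Function.Injective T)
    (hfac : (overFrac F).map
      (algebraMap (FractionRing k[X]) (overFrac F).SplittingField) = ∏ i, (X - C (T i)))
    (hgal : ∀ π : Equiv.Perm (Fin N),
      ∃ g : (overFrac F).SplittingField ≃ₐ[FractionRing k[X]] (overFrac F).SplittingField,
        ∀ i, g (T i) = T (π i)) :
    ∃ 𝓑 : Finset (Fin N →₀ ℕ), 𝓑.card = N.factorial ∧ (∀ a ∈ 𝓑, ∀ i, a i < N) ∧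
      ∀ c : (Fin N →₀ ℕ) → k[X], ∑ a ∈ 𝓑, cf F (c a) * ∏ i, T i ^ a i = 0 →
        ∀ a ∈ 𝓑, c a = 0 := by
  classical
  obtain ⟨b, _, _, hb2, hb3⟩ := exists_linearIndepOn_extension (K := FractionRing k[X])
    (v := mono T) (s := ∅) (t := Set.univ) (linearIndepOn_empty _ _) (Set.empty_subset _)
  have hfin : Fintype b := Fintype.ofFinite b
  have hspan : ⊤ ≤ Submodule.span (FractionRing k[X]) (Set.range fun x : b => mono T x) := by
    rw [← span_mono hF hN hfac, Submodule.span_le]
    rintro _ ⟨a, rfl⟩
    have h1 := hb2 ⟨a, Set.mem_univ a, rfl⟩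
    rwa [← Set.image_eq_range]
  have hcard := Module.finrank_eq_card_basis (Module.Basis.mk hb3 hspan)
  rw [card_aut hT hfac hgal] at hcard
  refine ⟨b.toFinset.image toF, ?_, ?_, ?_⟩
  · rw [Finset.card_image_of_injective _ toF_injective, Set.toFinset_card, hcard]
  · intro a ha i
    obtain ⟨a, _, rfl⟩ := Finset.mem_image.1 ha
    exact (a i).2
  · intro c hc a' ha'
    obtain ⟨a, ha, rfl⟩ := Finset.mem_image.1 ha'
    rw [Finset.sum_image fun x _ y _ h => toF_injective h] at hc
    have h1 : ∑ x ∈ b.toFinset, (algebraMap k[X] (FractionRing k[X]) (c (toF x))) • mono T x = 0 := by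
      rw [← hc]
      refine Finset.sum_congr rfl fun x _ => ?_
      rw [Algebra.smul_def, cf_apply]
      rfl
    rw [linearIndepOn_iff'] at hb3
    have h2 := hb3 b.toFinset (fun x => algebraMap k[X] (FractionRing k[X]) (c (toF x)))
      (by intro x hx; simpa using hx) h1 a ha
    exact (map_eq_zero_iff _ (IsFractionRing.injective k[X] (FractionRing k[X]))).1 h2

/-- the product over all permutations of the variables -/
noncomputable def Nm (f : MvPolynomial (Fin N) k[X]) : MvPolynomial (Fin N) k[X] :=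
  ∏ π : Equiv.Perm (Fin N), MvPolynomial.rename π f

theorem rename_Nm (σ : Equiv.Perm (Fin N)) (f : MvPolynomial (Fin N) k[X]) :
    MvPolynomial.rename σ (Nm f) = Nm f := by
  rw [Nm, map_prod]
  refine Fintype.prod_equiv (Equiv.mulLeft σ) _ _ fun π => ?_
  rw [MvPolynomial.rename_rename]
  rfl

theorem exists_P (hF : F.Monic) (hT : Function.Injective T)
    (hfac : (overFrac F).map
      (algebraMap (FractionRing k[X]) (overFrac F).SplittingField) = ∏ i, (X - C (T i)))
    (f : MvPolynomial (Fin N) k[X]) : ∃ P : k[X], ev F T (Nm f) = cf F P := by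
  have := isGalois hT hfac
  have h1 : ev F T (Nm f) ∈ (⊥ : IntermediateField (FractionRing k[X]) (overFrac F).SplittingField) := by
    rw [IsGalois.mem_bot_iff_fixed]
    intro g
    obtain ⟨π, hπ⟩ := exists_perm hT hfac g
    rw [map_ev]
    have h2 : (fun i => g (T i)) = T ∘ π := funext hπ
    rw [h2, ← ev_rename, rename_Nm]
  obtain ⟨y, hy⟩ := IntermediateField.mem_bot.1 h1
  have h3 : IsIntegral k[X] y := by
    have h4 := isIntegral_ev hF hfac (Nm f)
    rw [← hy] at h4
    exact (isIntegral_algebraMap_iff (algebraMap (FractionRing k[X])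
      (overFrac F).SplittingField).injective).1 h4
  obtain ⟨P, hP⟩ := IsIntegrallyClosed.algebraMap_eq_of_integral h3
  refine ⟨P, ?_⟩
  rw [cf_apply, hP, hy]

section degree

variable {v : Valuation (FractionRing k[X]) (WithZero (Multiplicative ℤ))}

theorem isIntegral_of_le {y : FractionRing k[X]} (hy : v y ≤ 1) :
    IsIntegral v.integer (algebraMap (FractionRing k[X]) (overFrac F).SplittingField y) := by
  have h1 : algebraMap (FractionRing k[X]) (overFrac F).SplittingField y =
      algebraMap v.integer (overFrac F).SplittingField ⟨y, hy⟩ := rfl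
  rw [h1]
  exact isIntegral_algebraMap

theorem le_of_isIntegral {y : FractionRing k[X]} (hy : IsIntegral v.integer
    (algebraMap (FractionRing k[X]) (overFrac F).SplittingField y)) : v y ≤ 1 := by
  have h1 : IsIntegral v.integer y := by
    have hst : IsScalarTower v.integer (FractionRing k[X]) (overFrac F).SplittingField :=
      IsScalarTower.of_algebraMap_eq fun _ => rfl
    exact (isIntegral_algebraMap_iff (algebraMap (FractionRing k[X])
      (overFrac F).SplittingField).injective).1 hy
  exact (Valuation.integer.integers v).mem_of_integral h1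

theorem isIntegral_root {x : (overFrac F).SplittingField} {q : (FractionRing k[X])[X]}
    (hq : q.Monic) (hc : ∀ j, v (q.coeff j) ≤ 1) (hx : aeval x q = 0) :
    IsIntegral v.integer x := by
  have h1 : (↑q.coeffs : Set (FractionRing k[X])) ⊆ v.integer := by
    intro c hc'
    obtain ⟨n, _, rfl⟩ := mem_coeffs_iff.1 hc'
    exact hc n
  refine ⟨q.toSubring v.integer h1, (monic_toSubring _ _ _).2 hq, ?_⟩
  have h2 : algebraMap v.integer (overFrac F).SplittingField =
      (algebraMap (FractionRing k[X]) (overFrac F).SplittingField).comp v.integer.subtype := rfl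
  rw [h2, ← eval₂_map, map_toSubring, ← aeval_def, hx]

open WithZero in
theorem val_div (hv : ∀ p : k[X], p ≠ 0 →
      v (algebraMap k[X] (FractionRing k[X]) p) = exp (p.natDegree : ℤ))
    (c : k[X]) (n : ℕ) :
    v (algebraMap k[X] (FractionRing k[X]) c * (algebraMap k[X] (FractionRing k[X]) X ^ n)⁻¹) ≤ 1 ↔
      c.natDegree ≤ n := by
  have hX : v (algebraMap k[X] (FractionRing k[X]) X ^ n) = exp (n : ℤ) := by
    rw [← map_pow, hv _ (pow_ne_zero _ X_ne_zero), natDegree_X_pow]
  by_cases hc : c = 0
  · subst hc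
    simp
  · rw [map_mul, map_inv₀, hX, hv c hc, ← exp_neg, ← exp_add, ← exp_zero, exp_le_exp]
    omega

theorem isIntegral_root_div (hv : ∀ p : k[X], p ≠ 0 →
      v (algebraMap k[X] (FractionRing k[X]) p) = WithZero.exp (p.natDegree : ℤ))
    {h : ℕ} (hF : F.Monic) (hN : F.natDegree = N) (hh : ∀ i, (F.coeff i).natDegree ≤ h)
    (hfac : (overFrac F).map
      (algebraMap (FractionRing k[X]) (overFrac F).SplittingField) = ∏ i, (X - C (T i)))
    (i : Fin N) : IsIntegral v.integer (T i * (cf F X ^ h)⁻¹) := by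
  have hm : (overFrac F).Monic := hF.map _
  have hd : (overFrac F).natDegree = N := by
    rw [overFrac, hF.natDegree_map, hN]
  have h1 : aeval (T i) (overFrac F) = 0 := (root_iff hfac _).2 ⟨i, rfl⟩
  have h2 := scaleRoots_aeval_eq_zero (r := (algebraMap k[X] (FractionRing k[X]) X ^ h)⁻¹) h1
  have h3 : algebraMap (FractionRing k[X]) (overFrac F).SplittingField
      ((algebraMap k[X] (FractionRing k[X]) X ^ h)⁻¹) * T i = T i * (cf F X ^ h)⁻¹ := by
    rw [map_inv₀, map_pow, ← cf_apply, mul_comm]
  rw [h3] at h2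
  refine isIntegral_root ((monic_scaleRoots_iff _).2 hm) (fun j => ?_) h2
  rw [coeff_scaleRoots, hd]
  rcases lt_trichotomy j N with hj | hj | hj
  · have h4 : (overFrac F).coeff j = algebraMap k[X] (FractionRing k[X]) (F.coeff j) := coeff_map _ _
    rw [h4, inv_pow, ← pow_mul, val_div hv]
    refine (hh j).trans (Nat.le_mul_of_pos_right _ (by omega))
  · subst hj
    rw [Nat.sub_self, pow_zero, mul_one]
    rw [← hd, hm.coeff_natDegree, map_one]
  · rw [coeff_eq_zero_of_natDegree_lt (by omega), zero_mul, map_zero]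
    exact zero_le

theorem isIntegral_ev_div (hv : ∀ p : k[X], p ≠ 0 →
      v (algebraMap k[X] (FractionRing k[X]) p) = WithZero.exp (p.natDegree : ℤ))
    {h m : ℕ} {T' : Fin N → (overFrac F).SplittingField}
    (hT' : ∀ i, IsIntegral v.integer (T' i * (cf F X ^ h)⁻¹))
    (f : MvPolynomial (Fin N) k[X]) (hf : WDeg h f m) :
    IsIntegral v.integer (ev F T' f * (cf F X ^ m)⁻¹) := by
  have hX : cf F X ≠ 0 := by
    rw [Ne, map_eq_zero_iff _ (cf_injective F)]
    exact X_ne_zero
  have h1 : ev F T' f = ∑ a ∈ f.support, cf F (f.coeff a) * ∏ i, T' i ^ a i := by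
    conv_lhs => rw [f.as_sum]
    rw [map_sum]
    exact Finset.sum_congr rfl fun a _ => ev_monomial F T' a _
  rw [h1, Finset.sum_mul]
  refine IsIntegral.sum _ fun a ha => ?_
  have h2 := hf a (MvPolynomial.mem_support_iff.1 ha)
  obtain ⟨n, hn⟩ : ∃ n, m = n + h * ∑ i, a i := ⟨m - h * ∑ i, a i, by omega⟩
  have h3 : cf F (f.coeff a) * (∏ i, T' i ^ a i) * (cf F X ^ m)⁻¹ =
      (cf F (f.coeff a) * (cf F X ^ n)⁻¹) * (∏ i, (T' i * (cf F X ^ h)⁻¹) ^ a i) := by
    have h4 : ∏ i, (T' i * (cf F X ^ h)⁻¹) ^ a i = (∏ i, T' i ^ a i) *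
        ((cf F X ^ (h * ∑ i, a i))⁻¹) := by
      rw [Finset.prod_congr rfl fun i _ => mul_pow (T' i) ((cf F X ^ h)⁻¹) (a i),
        Finset.prod_mul_distrib, Finset.prod_pow_eq_pow_sum, inv_pow, ← pow_mul]
    rw [h4, hn, pow_add, mul_inv]
    ring
  rw [h3]
  refine IsIntegral.mul ?_ (IsIntegral.prod _ fun i _ => (hT' i).pow _)
  have h5 : cf F (f.coeff a) * (cf F X ^ n)⁻¹ = algebraMap (FractionRing k[X])
      (overFrac F).SplittingField (algebraMap k[X] (FractionRing k[X]) (f.coeff a) *
        (algebraMap k[X] (FractionRing k[X]) X ^ n)⁻¹) := by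
    rw [map_mul, map_inv₀, map_pow, ← cf_apply, ← cf_apply]
  rw [h5]
  apply isIntegral_of_le
  rw [val_div hv]
  omega

end degree

theorem natDegree_le {h m : ℕ} (hF : F.Monic) (hN : F.natDegree = N)
    (hh : ∀ i, (F.coeff i).natDegree ≤ h)
    (hfac : (overFrac F).map
      (algebraMap (FractionRing k[X]) (overFrac F).SplittingField) = ∏ i, (X - C (T i)))
    (f : MvPolynomial (Fin N) k[X]) (hf : WDeg h f m) (P : k[X])
    (hP : ev F T (Nm f) = cf F P) : P.natDegree ≤ N.factorial * m := by
  obtain ⟨v, hv⟩ := exists_val k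
  have h1 : IsIntegral v.integer (∏ π : Equiv.Perm (Fin N), (ev F (T ∘ π) f * (cf F X ^ m)⁻¹)) :=
    IsIntegral.prod _ fun π _ => isIntegral_ev_div hv
      (fun i => isIntegral_root_div hv hF hN hh hfac (π i)) f hf
  have h2 : ∏ π : Equiv.Perm (Fin N), (ev F (T ∘ π) f * (cf F X ^ m)⁻¹) =
      algebraMap (FractionRing k[X])
      (overFrac F).SplittingField (algebraMap k[X] (FractionRing k[X]) P *
        (algebraMap k[X] (FractionRing k[X]) X ^ (N.factorial * m))⁻¹) := by
    rw [Finset.prod_mul_distrib, Finset.prod_const, Finset.card_univ, Fintype.card_perm,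
      Fintype.card_fin, inv_pow, ← pow_mul, mul_comm m, map_mul, map_inv₀, map_pow, ← cf_apply,
      ← cf_apply, ← hP, Nm, map_prod]
    congr 1
    exact Finset.prod_congr rfl fun π _ => (ev_rename _ _).symm
  rw [h2] at h1
  exact (val_div hv P _).1 (le_of_isIntegral h1)

theorem sh_order {a : k} {P : k[X]} (hP : P ≠ 0) : (sh a P).order ≤ (P.natDegree : ℕ∞) := by
  apply PowerSeries.order_le
  rw [sh_apply, Polynomial.coeff_coe]
  have h1 : (P.comp (X + C a)).natDegree = P.natDegree := by
    rw [natDegree_comp, natDegree_X_add_C, mul_one]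
  have h2 : P.comp (X + C a) ≠ 0 := comp_X_add_C_ne_zero_iff.2 hP
  rw [← h1, coeff_natDegree]
  exact leadingCoeff_ne_zero.2 h2

theorem mem_range_of_root (hF : F.Monic) (hN : F.natDegree = N) {a : k} {x : Fin N → k}
    (hx : FibrePt F (a, x)) {s : k} (hs : (F.eval (C s)).eval a = 0) : ∃ i, s = x i := by
  classical
  let p : k[X] := F.map (evalRingHom a)
  have hp : p.Monic := hF.map _
  have hpd : p.natDegree = N := by
    rw [hF.natDegree_map, hN]
  have hev : ∀ y, p.eval y = (F.eval (C y)).eval a := fun y => map_evalRingHom_eval a y F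
  have h1 : Finset.univ.image x ⊆ p.roots.toFinset := by
    intro y hy
    obtain ⟨i, _, rfl⟩ := Finset.mem_image.1 hy
    rw [Multiset.mem_toFinset, mem_roots hp.ne_zero, IsRoot, hev]
    exact hx.2 i
  have h2 : p.roots.toFinset.card ≤ (Finset.univ.image x).card := by
    rw [Finset.card_image_of_injective _ hx.1, Finset.card_univ, Fintype.card_fin]
    exact (Multiset.toFinset_card_le _).trans (hpd ▸ p.card_roots')
  have h3 := Finset.eq_of_subset_of_card_le h1 h2
  have h4 : s ∈ p.roots.toFinset := by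
    rw [Multiset.mem_toFinset, mem_roots hp.ne_zero, IsRoot, hev]
    exact hs
  rw [← h3] at h4
  obtain ⟨i, _, hi⟩ := Finset.mem_image.1 h4
  exact ⟨i, hi.symm⟩

/-- the data at a fibre point -/
def Dat (F : k[X][X]) {N : ℕ} (T : Fin N → (overFrac F).SplittingField) (q : k × (Fin N → k)) :
    Prop :=
  ∃ (t : Fin N → PowerSeries k) (j : (overFrac F).SplittingField →+* LaurentSeries k),
    (∀ i, PowerSeries.constantCoeff (t i) = q.2 i) ∧
    (∀ f : MvPolynomial (Fin N) k[X], j (ev F T f) = HahnSeries.ofPowerSeries ℤ k (io q.1 t f)) ∧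
    ∀ c : k[X], j (cf F c) = HahnSeries.ofPowerSeries ℤ k (sh q.1 c)

theorem io_Nm {q : k × (Fin N → k)} {t : Fin N → PowerSeries k}
    {j : (overFrac F).SplittingField →+* LaurentSeries k}
    (h1 : ∀ f : MvPolynomial (Fin N) k[X],
      j (ev F T f) = HahnSeries.ofPowerSeries ℤ k (io q.1 t f))
    (h2 : ∀ c : k[X], j (cf F c) = HahnSeries.ofPowerSeries ℤ k (sh q.1 c))
    {f : MvPolynomial (Fin N) k[X]} {P : k[X]} (hP : ev F T (Nm f) = cf F P) :
    ∏ π : Equiv.Perm (Fin N), io q.1 (t ∘ π) f = sh q.1 P := by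
  have h3 : io q.1 t (Nm f) = sh q.1 P := by
    apply HahnSeries.ofPowerSeries_injective (Γ := ℤ)
    rw [← h1, hP, h2]
  rw [← h3, Nm, map_prod]
  exact Finset.prod_congr rfl fun π _ => (io_rename _ _).symm

theorem P_ne_zero (hgal : ∀ π : Equiv.Perm (Fin N),
      ∃ g : (overFrac F).SplittingField ≃ₐ[FractionRing k[X]] (overFrac F).SplittingField,
        ∀ i, g (T i) = T (π i))
    {f : MvPolynomial (Fin N) k[X]} {P : k[X]} (hP : ev F T (Nm f) = cf F P)
    (hf : ev F T f ≠ 0) : P ≠ 0 := by
  rintro rfl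
  rw [map_zero, Nm, map_prod, Finset.prod_eq_zero_iff] at hP
  obtain ⟨π, _, hπ⟩ := hP
  obtain ⟨g, hg⟩ := hgal π
  have h2 : (fun i => g (T i)) = T ∘ π := funext hg
  rw [ev_rename, ← h2, ← map_ev, map_eq_zero_iff _ g.injective] at hπ
  exact hf hπ

theorem order_le {q : k × (Fin N → k)} {t : Fin N → PowerSeries k}
    {j : (overFrac F).SplittingField →+* LaurentSeries k}
    (h1 : ∀ f : MvPolynomial (Fin N) k[X],
      j (ev F T f) = HahnSeries.ofPowerSeries ℤ k (io q.1 t f))
    (h2 : ∀ c : k[X], j (cf F c) = HahnSeries.ofPowerSeries ℤ k (sh q.1 c))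
    {f : MvPolynomial (Fin N) k[X]} {P : k[X]} (hP : ev F T (Nm f) = cf F P) (hP0 : P ≠ 0) :
    (io q.1 t f).order ≤ (P.natDegree : ℕ∞) := by
  have h3 : io q.1 t f ∣ sh q.1 P := by
    rw [← io_Nm h1 h2 hP]
    have h5 := Finset.dvd_prod_of_mem (fun π : Equiv.Perm (Fin N) => io q.1 (t ∘ π) f)
      (Finset.mem_univ (1 : Equiv.Perm (Fin N)))
    simp only [Equiv.Perm.coe_one, Function.comp_id] at h5
    exact h5
  obtain ⟨g, hg⟩ := h3
  have h4 := sh_order (a := q.1) hP0
  rw [hg, PowerSeries.order_mul] at h4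
  exact le_self_add.trans h4

theorem card_filter_le [DecidableEq k] (hF : F.Monic) (hN : F.natDegree = N)
    (hdat : ∀ q, FibrePt F q → Dat F T q)
    {f : MvPolynomial (Fin N) k[X]} {P : k[X]} (hP : ev F T (Nm f) = cf F P) (hP0 : P ≠ 0)
    (Q : Finset (k × (Fin N → k))) (hQ : ∀ q ∈ Q, FibrePt F q ∧ atPt q f = 0) (a : k) :
    (Q.filter fun q => q.1 = a).card ≤ P.roots.count a := by
  classical
  rcases (Q.filter fun q => q.1 = a).eq_empty_or_nonempty with h0 | ⟨q0, hq0⟩
  · rw [h0, Finset.card_empty]
    exact Nat.zero_le _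
  obtain ⟨hq0Q, hq0a⟩ := Finset.mem_filter.1 hq0
  have hfib0 : FibrePt F (a, q0.2) := by
    rw [← hq0a]
    exact (hQ q0 hq0Q).1
  obtain ⟨t, j, ht, h1, h2⟩ := hdat q0 (hQ q0 hq0Q).1
  have h3 : ∀ q ∈ Q.filter fun q => q.1 = a, ∃ π : Equiv.Perm (Fin N), q.2 = q0.2 ∘ π := by
    intro q hq
    obtain ⟨hqQ, hqa⟩ := Finset.mem_filter.1 hq
    have h4 : ∀ i, ∃ l, q.2 i = q0.2 l := by
      intro i
      apply mem_range_of_root hF hN hfib0
      rw [← hqa]
      exact (hQ q hqQ).1.2 i
    choose π hπ using h4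
    have hinj : Function.Injective π := by
      intro i l hil
      apply (hQ q hqQ).1.1
      rw [hπ, hπ, hil]
    exact ⟨Equiv.ofBijective π (Finite.injective_iff_bijective.1 hinj), funext hπ⟩
  choose! π hπ using h3
  have h5 : Set.InjOn π (Q.filter fun q => q.1 = a) := by
    intro q hq q' hq' h
    have e1 := hπ q hq
    have e2 := hπ q' hq'
    rw [h, ← e2] at e1
    exact Prod.ext ((Finset.mem_filter.1 hq).2.trans (Finset.mem_filter.1 hq').2.symm) e1
  have h6 : (PowerSeries.X : PowerSeries k) ^ (Q.filter fun q => q.1 = a).card ∣ sh a P := by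
    have h7 : ∏ π : Equiv.Perm (Fin N), io q0.1 (t ∘ π) f = sh q0.1 P := io_Nm h1 h2 hP
    rw [hq0a] at h7
    rw [← h7, ← Finset.card_image_of_injOn h5, ← Finset.prod_const]
    refine (Finset.prod_dvd_prod_of_dvd _ (fun π : Equiv.Perm (Fin N) => io a (t ∘ π) f) ?_).trans
      (Finset.prod_dvd_prod_of_subset _ _ _ (Finset.subset_univ _))
    intro σ hσ
    obtain ⟨q, hq, rfl⟩ := Finset.mem_image.1 hσ
    rw [PowerSeries.X_dvd_iff, constantCoeff_io]
    have h8 : (fun i => PowerSeries.constantCoeff ((t ∘ π q) i)) = q.2 := by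
      rw [hπ q hq]
      exact funext fun i => ht _
    rw [h8]
    have h9 : ((a, q.2) : k × (Fin N → k)) = q := Prod.ext (Finset.mem_filter.1 hq).2.symm rfl
    rw [h9]
    exact (hQ q (Finset.mem_filter.1 hq).1).2
  rw [count_roots, le_rootMultiplicity_iff hP0, X_sub_C_pow_dvd_iff, X_pow_dvd_iff]
  intro d hd
  have h10 := PowerSeries.X_pow_dvd_iff.1 h6 d hd
  rwa [sh_apply, Polynomial.coeff_coe] at h10

theorem card_le (hF : F.Monic) (hN : F.natDegree = N)
    (hdat : ∀ q, FibrePt F q → Dat F T q)
    {f : MvPolynomial (Fin N) k[X]} {P : k[X]} (hP : ev F T (Nm f) = cf F P) (hP0 : P ≠ 0)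
    (Q : Finset (k × (Fin N → k))) (hQ : ∀ q ∈ Q, FibrePt F q ∧ atPt q f = 0) :
    Q.card ≤ P.natDegree := by
  classical
  rw [Finset.card_eq_sum_card_image Prod.fst Q]
  calc ∑ a ∈ Q.image Prod.fst, (Q.filter fun q => q.1 = a).card
      ≤ ∑ a ∈ Q.image Prod.fst, P.roots.count a :=
        Finset.sum_le_sum fun a _ => card_filter_le hF hN hdat hP hP0 Q hQ a
    _ ≤ ∑ a ∈ Q.image Prod.fst ∪ P.roots.toFinset, P.roots.count a :=
        Finset.sum_le_sum_of_subset Finset.subset_union_left
    _ = Multiset.card P.roots := Multiset.sum_count_eq_card fun a ha =>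
        Finset.mem_union_right _ (Multiset.mem_toFinset.2 ha)
    _ ≤ P.natDegree := P.card_roots'

theorem indep {𝓑 : Finset (Fin N →₀ ℕ)}
    (hB : ∀ c : (Fin N →₀ ℕ) → k[X], ∑ a ∈ 𝓑, cf F (c a) * ∏ i, T i ^ a i = 0 →
        ∀ a ∈ 𝓑, c a = 0) (u : (ℕ × (Fin N →₀ ℕ)) →₀ k) (hu : ∀ j ∈ u.support, j.2 ∈ 𝓑)
    (h : ev F T (u.sum fun j c => MvPolynomial.monomial j.2 (C c * X ^ j.1)) = 0) : u = 0 := by
  classical
  have h1 : ∑ a ∈ 𝓑, cf F (∑ j ∈ u.support with j.2 = a, C (u j) * X ^ j.1) *
      ∏ i, T i ^ a i = 0 := by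
    rw [← h, Finsupp.sum, map_sum, ← Finset.sum_fiberwise_of_maps_to hu]
    refine Finset.sum_congr rfl fun a _ => ?_
    rw [map_sum, Finset.sum_mul]
    refine Finset.sum_congr rfl fun j hj => ?_
    rw [ev_monomial, (Finset.mem_filter.1 hj).2]
  have h2 := hB _ h1
  ext j
  by_contra hj
  have hj' : j ∈ u.support := Finsupp.mem_support_iff.2 hj
  have h3 := congrArg (fun p => coeff p j.1) (h2 j.2 (hu j hj'))
  simp only [finsetSum_coeff, coeff_C_mul, coeff_X_pow, coeff_zero] at h3
  rw [Finset.sum_eq_single j] at h3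
  · rw [if_pos rfl, mul_one] at h3
    exact hj h3
  · intro l hl hlj
    rw [if_neg, mul_zero]
    intro h4
    exact hlj (Prod.ext h4.symm (Finset.mem_filter.1 hl).2)
  · intro h4
    exact (h4 (Finset.mem_filter.2 ⟨hj', rfl⟩)).elim

end M1A
end Pool.Agent.K1
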