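import Mathlib

/-!
K1-03 (piece): lowest coefficients of a relation with Frobenius powers.
-/

namespace Pool.Agent.K1.StB

theorem frob_lowest {k : Type} [Field k] (p : ℕ) [Fact p.Prime] [CharP k p] (m : ℕ)
    {I : Type} (s : Finset I) (x w : I → PowerSeries k) (hw : ∃ i ∈ s, w i ≠ 0)
    (h0 : ∑ i ∈ s, x i * (w i) ^ (p ^ m) = 0) :
    ∃ d : I → k, (∃ i ∈ s, d i ≠ 0) ∧ ∀ n, n < p ^ m →
      PowerSeries.coeff n (∑ i ∈ s, PowerSeries.C (d i) * x i) = 0 := by
  classical
  have hchar : CharP (PowerSeries k) p :=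
    charP_of_injective_ringHom (f := PowerSeries.C (R := k)) PowerSeries.C_injective p
  have hex : ∃ n, ∃ i ∈ s, PowerSeries.coeff n (w i) ≠ 0 := by
    obtain ⟨i, hi, hwi⟩ := hw
    by_contra hcon
    push Not at hcon
    exact hwi (PowerSeries.ext (fun n => by simpa using hcon n i hi))
  obtain ⟨i₀, hi₀, he⟩ := Nat.find_spec hex
  have hmin : ∀ n < Nat.find hex, ∀ i ∈ s, PowerSeries.coeff n (w i) = 0 := by
    intro n hn i hi
    by_contra hcon
    exact Nat.find_min hex hn ⟨i, hi, hcon⟩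
  have hdvd : ∀ i, ∃ v : PowerSeries k, i ∈ s → w i = PowerSeries.X ^ (Nat.find hex) * v := by
    intro i
    by_cases hi : i ∈ s
    · obtain ⟨v, hv⟩ := PowerSeries.X_pow_dvd_iff.mpr (fun n hn => hmin n hn i hi)
      exact ⟨v, fun _ => hv⟩
    · exact ⟨0, fun h => absurd h hi⟩
  choose v hv using hdvd
  have hsplit : ∀ f : PowerSeries k, ∃ u : PowerSeries k,
      f = PowerSeries.C (PowerSeries.constantCoeff f) + PowerSeries.X * u := by
    intro f
    have h1 : PowerSeries.X ∣ f - PowerSeries.C (PowerSeries.constantCoeff f) := by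
      rw [PowerSeries.X_dvd_iff]
      simp
    obtain ⟨u, hu⟩ := h1
    exact ⟨u, by rw [← hu]; ring⟩
  choose u hu using hsplit
  refine ⟨fun i => (PowerSeries.constantCoeff (v i)) ^ (p ^ m), ⟨i₀, hi₀, ?_⟩, ?_⟩
  · apply pow_ne_zero
    have h2 : PowerSeries.coeff (Nat.find hex) (w i₀) = PowerSeries.constantCoeff (v i₀) := by
      rw [hv i₀ hi₀, ← PowerSeries.coeff_zero_eq_constantCoeff_apply]
      simpa using PowerSeries.coeff_X_pow_mul (v i₀) (Nat.find hex) 0
    rw [← h2]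
    exact he
  · have h3 : ∑ i ∈ s, x i * (v i) ^ (p ^ m) = 0 := by
      have h4 : (PowerSeries.X ^ (Nat.find hex)) ^ (p ^ m) * ∑ i ∈ s, x i * (v i) ^ (p ^ m) = 0 := by
        rw [Finset.mul_sum, ← h0]
        refine Finset.sum_congr rfl (fun i hi => ?_)
        rw [hv i hi]
        ring
      rcases mul_eq_zero.mp h4 with h5 | h5
      · exact absurd h5 (pow_ne_zero _ (pow_ne_zero _ PowerSeries.X_ne_zero))
      · exact h5
    have h6 : ∑ i ∈ s, PowerSeries.C ((PowerSeries.constantCoeff (v i)) ^ (p ^ m)) * x i =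
        PowerSeries.X ^ (p ^ m) * (-∑ i ∈ s, x i * (u (v i)) ^ (p ^ m)) := by
      have h7 : ∑ i ∈ s, x i * (v i) ^ (p ^ m) =
          ∑ i ∈ s, PowerSeries.C ((PowerSeries.constantCoeff (v i)) ^ (p ^ m)) * x i +
          PowerSeries.X ^ (p ^ m) * ∑ i ∈ s, x i * (u (v i)) ^ (p ^ m) := by
        rw [Finset.mul_sum, ← Finset.sum_add_distrib]
        refine Finset.sum_congr rfl (fun i _ => ?_)
        have h8 : (v i) ^ (p ^ m) = (PowerSeries.C (PowerSeries.constantCoeff (v i))) ^ (p ^ m) +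
            (PowerSeries.X * u (v i)) ^ (p ^ m) := by
          conv_lhs => rw [hu (v i)]
          exact add_pow_char_pow _ _ p m
        rw [h8, map_pow]
        ring
      rw [h3] at h7
      rw [mul_neg]
      exact (eq_neg_of_add_eq_zero_left h7.symm)
    intro n hn
    have h9 := PowerSeries.X_pow_dvd_iff.mp ⟨_, h6⟩ n hn
    exact h9

end Pool.Agent.K1.StB
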