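import Pool.Agent.K1.ChebDefs

/-!
Chebotarev count for the identity class from the upper bounds for all classes
(module M1C of the K1 project).
-/

open Polynomial

namespace Pool.Agent.K1

namespace M1C

variable {K k : Type*} [Field K] [Field k] [Algebra K k]

/-- the fixed points of the Frobenius are the rational elements -/
theorem mem_range_of_pow_card [Fintype K] {x : k} (hx : x ^ Fintype.card K = x) :
    ∃ a : K, algebraMap K k a = x := by
  classical
  have hq : 1 < Fintype.card K := Fintype.one_lt_card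
  have hne : (X ^ Fintype.card K - X : k[X]) ≠ 0 := FiniteField.X_pow_card_sub_X_ne_zero k hq
  have hsub : Finset.univ.image (algebraMap K k) ⊆
      (X ^ Fintype.card K - X : k[X]).roots.toFinset := by
    intro y hy
    obtain ⟨a, -, rfl⟩ := Finset.mem_image.1 hy
    rw [Multiset.mem_toFinset, mem_roots hne, IsRoot.def, eval_sub, eval_pow, eval_X, ← map_pow,
      FiniteField.pow_card, sub_self]
  have hcard : (Finset.univ.image (algebraMap K k)).card = Fintype.card K := by
    rw [Finset.card_image_of_injective _ (algebraMap K k).injective, Finset.card_univ]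
  have hle : (X ^ Fintype.card K - X : k[X]).roots.toFinset.card ≤ Fintype.card K := by
    refine (Multiset.toFinset_card_le _).trans ((card_roots' _).trans ?_)
    rw [FiniteField.X_pow_card_sub_X_natDegree_eq k hq]
  have heq := Finset.eq_of_subset_of_card_le hsub (by rw [hcard]; exact hle)
  have hmem : x ∈ (X ^ Fintype.card K - X : k[X]).roots.toFinset := by
    rw [Multiset.mem_toFinset, mem_roots hne, IsRoot.def, eval_sub, eval_pow, eval_X, hx, sub_self]
  rw [← heq] at hmem
  obtain ⟨a, -, ha⟩ := Finset.mem_image.1 hmem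
  exact ⟨a, ha⟩

variable {N : ℕ}

theorem fibrePt_iff (F : k[X][X]) (lam : k) (x : Fin N → k) :
    FibrePt F (lam, x) ↔ Function.Injective x ∧ ∀ i, (F.map (evalRingHom lam)).eval (x i) = 0 := by
  unfold FibrePt
  simp only [map_evalRingHom_eval]

/-- an ordered fibre lists all the roots -/
theorem exists_of_root {F : k[X][X]} (hF : F.Monic) (hN : F.natDegree = N) {lam : k}
    {x : Fin N → k} (hx : FibrePt F (lam, x)) {z : k}
    (hz : (F.map (evalRingHom lam)).eval z = 0) : ∃ j, x j = z := by
  classical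
  rw [fibrePt_iff] at hx
  have hmon := hF.map (evalRingHom lam)
  have hdeg : (F.map (evalRingHom lam)).natDegree = N := by rw [hF.natDegree_map, hN]
  have hsub : Finset.univ.image x ⊆ (F.map (evalRingHom lam)).roots.toFinset := by
    intro z hz
    obtain ⟨i, -, rfl⟩ := Finset.mem_image.1 hz
    rw [Multiset.mem_toFinset, mem_roots hmon.ne_zero]
    exact hx.2 i
  have hcard : (Finset.univ.image x).card = N := by
    rw [Finset.card_image_of_injective _ hx.1, Finset.card_univ, Fintype.card_fin]
  have hle : (F.map (evalRingHom lam)).roots.toFinset.card ≤ N := by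
    refine (Multiset.toFinset_card_le _).trans ((card_roots' _).trans ?_)
    rw [hdeg]
  have heq := Finset.eq_of_subset_of_card_le hsub (by rw [hcard]; exact hle)
  have : z ∈ (F.map (evalRingHom lam)).roots.toFinset := by
    rw [Multiset.mem_toFinset, mem_roots hmon.ne_zero]
    exact hz
  rw [← heq] at this
  obtain ⟨j, -, hj⟩ := Finset.mem_image.1 this
  exact ⟨j, hj⟩

/-- two ordered fibres over the same point differ by a permutation -/
theorem exists_perm {F : k[X][X]} (hF : F.Monic) (hN : F.natDegree = N) {lam : k}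
    {x y : Fin N → k} (hx : FibrePt F (lam, x)) (hy : FibrePt F (lam, y)) :
    ∃ π : Equiv.Perm (Fin N), ∀ i, y i = x (π i) := by
  have hy' := (fibrePt_iff F lam y).1 hy
  have hex : ∀ i, ∃ j, x j = y i := fun i => exists_of_root hF hN hx (hy'.2 i)
  choose f hf using hex
  have hinj : Function.Injective f := by
    intro i j hij
    apply hy'.1
    rw [← hf i, ← hf j, hij]
  refine ⟨Equiv.ofBijective f (Finite.injective_iff_bijective.1 hinj), fun i => ?_⟩
  rw [Equiv.ofBijective_apply, hf]

theorem fibrePt_comp {F : k[X][X]} {lam : k} {x : Fin N → k} (hx : FibrePt F (lam, x))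
    (π : Equiv.Perm (Fin N)) : FibrePt F (lam, x ∘ π) :=
  ⟨hx.1.comp π.injective, fun i => hx.2 (π i)⟩

/-- the fibre polynomial of a polynomial over `K` at a point of `K` -/
theorem map_fibre (F : K[X][X]) (lam : K) :
    (F.map (mapRingHom (algebraMap K k))).map (evalRingHom (algebraMap K k lam)) =
      (F.map (evalRingHom lam)).map (algebraMap K k) := by
  rw [Polynomial.map_map, Polynomial.map_map]
  congr 1
  ext a
  · simp
  · simp

/-- Frobenius acts on the ordered fibres over rational points -/
theorem fibrePt_frob [Fintype K] {F : K[X][X]} {lam : K} {x : Fin N → k}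
    (hx : FibrePt (F.map (mapRingHom (algebraMap K k))) (algebraMap K k lam, x)) :
    FibrePt (F.map (mapRingHom (algebraMap K k))) (algebraMap K k lam,
      fun i => x i ^ Fintype.card K) := by
  rw [fibrePt_iff] at hx ⊢
  rw [map_fibre] at hx ⊢
  have hfr : ∀ y : k, FiniteField.frobeniusAlgHom K k y = y ^ Fintype.card K := fun y => rfl
  refine ⟨?_, fun i => ?_⟩
  · intro i j hij
    apply hx.1
    apply (FiniteField.frobeniusAlgHom K k).toRingHom.injective
    exact hij
  · have h := hx.2 i
    rw [eval_map_algebraMap] at h ⊢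
    rw [← hfr, aeval_algHom_apply, h, map_zero]

end M1C

open M1C in
/-- M1C.  Chebotarev for the identity class, from M1A2 and M1B. -/
theorem M1_cheb_of (p N h : ℕ) [Fact p.Prime]
    (hA : ∃ B : ℕ, ∀ (k : Type) [Field k] [IsAlgClosed k]
      (F : k[X][X]), F.Monic → F.natDegree = N → (∀ i, (F.coeff i).natDegree ≤ h) →
      FullGal F N → ∃ R : Finset k, R.card ≤ B ∧
        ∀ lam, lam ∉ R → ∃ x : Fin N → k, FibrePt F (lam, x))
    (hB : ∃ B : ℕ, ∀ (k : Type) [Field k] [IsAlgClosed k]
      [CharP k p] (F : k[X][X]), F.Monic → F.natDegree = N →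
      (∀ i, (F.coeff i).natDegree ≤ h) → FullGal F N → ∀ (m : ℕ) (_ : 0 < m)
      (τ : Equiv.Perm (Fin N))
      (Q : Finset (k × (Fin N → k))),
      (∀ q ∈ Q, FibrePt F q ∧ q.1 ^ ((p ^ m) ^ 2) = q.1 ∧
        ∀ i, (q.2 i) ^ ((p ^ m) ^ 2) = q.2 (τ i)) →
      Q.card ≤ (p ^ m) ^ 2 + B * p ^ m) : ∃ B : ℕ, ∀ (K : Type) [Field K] [Fintype K]
    [CharP K p] (m : ℕ) (_ : Fintype.card K = (p ^ m) ^ 2) (F : K[X][X]), F.Monic →
    F.natDegree = N → (∀ i, (F.coeff i).natDegree ≤ h) →
    FullGal (F.map (mapRingHom (algebraMap K (AlgebraicClosure K)))) N →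
    |((Nat.card {lam : K // ∃ R : Finset K, R.card = N ∧
        ∀ s, s ∈ R ↔ (F.map (evalRingHom lam)).eval s = 0} : ℕ) : ℝ) * (N.factorial : ℝ)
        - ((p ^ m : ℕ) : ℝ) ^ 2| ≤ (B : ℝ) * ((p ^ m : ℕ) : ℝ) := by
  classical
  obtain ⟨B1, hB1⟩ := hA
  obtain ⟨B2, hB2⟩ := hB
  refine ⟨N.factorial * (B1 + B2), fun K _ _ _ m hm F hF hN hh hG => ?_⟩
  have hcharp : CharP (AlgebraicClosure K) p := charP_of_injective_algebraMap
    (algebraMap K (AlgebraicClosure K)).injective p
  have hm0 : 0 < m := by
    rcases Nat.eq_zero_or_pos m with h0 | h0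
    · subst h0
      have := Fintype.one_lt_card (α := K)
      rw [hm] at this
      simp at this
    · exact h0
  set F' : (AlgebraicClosure K)[X][X] := F.map (mapRingHom (algebraMap K (AlgebraicClosure K)))
    with hF'
  have hF'm : F'.Monic := hF.map _
  have hF'd : F'.natDegree = N := by rw [hF', hF.natDegree_map, hN]
  have hF'h : ∀ i, (F'.coeff i).natDegree ≤ h := by
    intro i
    rw [hF', coeff_map, coe_mapRingHom, natDegree_map]
    exact hh i
  -- the unramified rational points
  set U : Finset K := Finset.univ.filter (fun lam =>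
    ∃ x : Fin N → AlgebraicClosure K, FibrePt F' (algebraMap K _ lam, x)) with hU
  have hchoice : ∀ lam : K, ∃ (x : Fin N → AlgebraicClosure K) (σ : Equiv.Perm (Fin N)),
      lam ∈ U → FibrePt F' (algebraMap K _ lam, x) ∧ ∀ i, x i ^ Fintype.card K = x (σ i) := by
    intro lam
    by_cases hlam : lam ∈ U
    · obtain ⟨x, hx⟩ := (Finset.mem_filter.1 hlam).2
      obtain ⟨σ, hσ⟩ := exists_perm hF'm hF'd hx (fibrePt_frob hx)
      exact ⟨x, σ, fun _ => ⟨hx, hσ⟩⟩
    · exact ⟨0, 1, fun h => absurd h hlam⟩
  choose X σ hXσ using hchoice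
  -- the classes
  set c : Equiv.Perm (Fin N) → Finset (K × Equiv.Perm (Fin N)) := fun τ =>
    (U ×ˢ Finset.univ).filter (fun z => z.2⁻¹ * σ z.1 * z.2 = τ) with hc
  have hupper : ∀ τ, (c τ).card ≤ (p ^ m) ^ 2 + B2 * p ^ m := by
    intro τ
    have hinj : Set.InjOn (fun z : K × Equiv.Perm (Fin N) =>
        ((algebraMap K (AlgebraicClosure K) z.1, X z.1 ∘ z.2) :
          AlgebraicClosure K × (Fin N → AlgebraicClosure K))) (c τ : Set _) := by
      rintro ⟨a, π⟩ ha ⟨b, ρ⟩ hb hab
      have ha' := (Finset.mem_product.1 (Finset.mem_filter.1 ha).1).1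
      simp only [Prod.mk.injEq] at hab
      have h1 : a = b := (algebraMap K (AlgebraicClosure K)).injective hab.1
      subst h1
      have h2 : π = ρ := by
        ext i
        have h3 := congrFun hab.2 i
        have h4 := (hXσ a ha').1.1 h3
        rw [h4]
      rw [h2]
    rw [← Finset.card_image_of_injOn hinj]
    refine hB2 (AlgebraicClosure K) F' hF'm hF'd hF'h hG m hm0 τ _ ?_
    intro q hq
    obtain ⟨⟨a, π⟩, hz, rfl⟩ := Finset.mem_image.1 hq
    have hz1 := (Finset.mem_product.1 (Finset.mem_filter.1 hz).1).1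
    have hz2 := (Finset.mem_filter.1 hz).2
    simp only at hz1 hz2
    refine ⟨fibrePt_comp (hXσ a hz1).1 π, ?_, fun i => ?_⟩
    · show algebraMap K (AlgebraicClosure K) a ^ _ = algebraMap K (AlgebraicClosure K) a
      rw [← hm, ← map_pow, FiniteField.pow_card]
    · show X a (π i) ^ _ = X a (π (τ i))
      rw [← hm, (hXσ a hz1).2 (π i), ← hz2]
      congr 1
      simp
  -- the sum over all classes
  have hsum : ∑ τ, (c τ).card = U.card * N.factorial := by
    have h1 : (U ×ˢ (Finset.univ : Finset (Equiv.Perm (Fin N)))).card =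
        ∑ τ ∈ (Finset.univ : Finset (Equiv.Perm (Fin N))), (c τ).card :=
      Finset.card_eq_sum_card_fiberwise (fun z _ => Finset.mem_coe.2 (Finset.mem_univ _))
    rw [← h1, Finset.card_product, Finset.card_univ, Fintype.card_perm, Fintype.card_fin]
  -- the identity class
  have hone : (c 1).card = (U.filter (fun lam => σ lam = 1)).card * N.factorial := by
    have h1 : c 1 = (U.filter (fun lam => σ lam = 1)) ×ˢ Finset.univ := by
      ext ⟨a, π⟩
      simp only [hc, Finset.mem_filter, Finset.mem_product, Finset.mem_univ, and_true]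
      refine and_congr_right fun _ => ?_
      constructor
      · intro h
        have : σ a = π * (π⁻¹ * σ a * π) * π⁻¹ := by group
        rw [this, h]
        group
      · intro h
        rw [h]
        group
    rw [h1, Finset.card_product, Finset.card_univ, Fintype.card_perm, Fintype.card_fin]
  -- the unramified points are almost all
  have hUcard : (p ^ m) ^ 2 ≤ U.card + B1 := by
    obtain ⟨R, hR, hR'⟩ := hB1 (AlgebraicClosure K) F' hF'm hF'd hF'h hG
    have h1 : (Finset.univ \ U).card ≤ R.card := by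
      refine Finset.card_le_card_of_injOn (algebraMap K (AlgebraicClosure K)) ?_
        ((algebraMap K (AlgebraicClosure K)).injective.injOn)
      intro a ha
      by_contra hcon
      have h2 := hR' _ (fun h => hcon (Finset.mem_coe.2 h))
      have h3 := (Finset.mem_sdiff.1 (Finset.mem_coe.1 ha)).2
      exact h3 (Finset.mem_filter.2 ⟨Finset.mem_univ _, h2⟩)
    have h2 := Finset.card_sdiff_add_card_eq_card (Finset.subset_univ U)
    rw [Finset.card_univ, hm] at h2
    omega
  -- the count of the statement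
  have hcount : Nat.card {lam : K // ∃ R : Finset K, R.card = N ∧
      ∀ s, s ∈ R ↔ (F.map (evalRingHom lam)).eval s = 0} =
      (U.filter (fun lam => σ lam = 1)).card := by
    refine Nat.subtype_card _ fun lam => ?_
    rw [Finset.mem_filter]
    constructor
    · rintro ⟨hlam, hσ⟩
      obtain ⟨hx, hfr⟩ := hXσ lam hlam
      have hex : ∀ i, ∃ a : K, algebraMap K (AlgebraicClosure K) a = X lam i := by
        intro i
        apply mem_range_of_pow_card
        rw [hfr i, hσ]
        rfl
      choose a ha using hex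
      have hainj : Function.Injective a := by
        intro i j hij
        apply hx.1
        show X lam i = X lam j
        rw [← ha, ← ha, hij]
      refine ⟨Finset.univ.image a, by
        rw [Finset.card_image_of_injective _ hainj, Finset.card_univ, Fintype.card_fin], ?_⟩
      intro s
      have hx' := (fibrePt_iff _ _ _).1 hx
      rw [hF', map_fibre] at hx'
      constructor
      · intro hs
        obtain ⟨i, -, rfl⟩ := Finset.mem_image.1 hs
        have h1 := hx'.2 i
        rw [← ha i, eval_map_algebraMap, aeval_algebraMap_apply] at h1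
        exact (map_eq_zero _).1 h1
      · intro hs
        have h1 : (F'.map (evalRingHom (algebraMap K (AlgebraicClosure K) lam))).eval
            (algebraMap K (AlgebraicClosure K) s) = 0 := by
          rw [hF', map_fibre, eval_map_algebraMap, aeval_algebraMap_apply, coe_aeval_eq_eval, hs,
            map_zero]
        obtain ⟨j, hj⟩ := exists_of_root hF'm hF'd hx h1
        have h2 : a j = s := (algebraMap K (AlgebraicClosure K)).injective (by rw [ha, hj])
        exact Finset.mem_image.2 ⟨j, Finset.mem_univ _, h2⟩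
    · rintro ⟨R, hR, hRs⟩
      set e := R.equivFinOfCardEq hR with he
      have hx : FibrePt F' (algebraMap K (AlgebraicClosure K) lam,
          fun i => algebraMap K (AlgebraicClosure K) (e.symm i).1) := by
        rw [fibrePt_iff]
        refine ⟨?_, fun i => ?_⟩
        · intro i j hij
          have h1 := (algebraMap K (AlgebraicClosure K)).injective hij
          exact e.symm.injective (Subtype.ext h1)
        · rw [hF', map_fibre, eval_map_algebraMap, aeval_algebraMap_apply, coe_aeval_eq_eval,
            (hRs _).1 (e.symm i).2, map_zero]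
      have hlam : lam ∈ U := Finset.mem_filter.2 ⟨Finset.mem_univ _, _, hx⟩
      refine ⟨hlam, ?_⟩
      obtain ⟨hx', hfr⟩ := hXσ lam hlam
      obtain ⟨π, hπ⟩ := exists_perm hF'm hF'd hx hx'
      ext i
      have h1 := hfr i
      have h2 : X lam i ^ Fintype.card K = X lam i := by
        rw [hπ i, ← map_pow, FiniteField.pow_card]
      rw [h2] at h1
      have h3 := hx'.1 h1
      rw [← h3]
      rfl
  -- the numbers
  rw [hcount]
  set n1 := (U.filter (fun lam => σ lam = 1)).card
  have hN1 : 1 ≤ N.factorial := Nat.factorial_pos N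
  have hq1 : 1 ≤ p ^ m := Nat.one_le_pow _ _ (Fact.out : p.Prime).pos
  have h1 := hupper 1
  rw [hone] at h1
  have h2 : ∑ τ ∈ Finset.univ.erase (1 : Equiv.Perm (Fin N)), (c τ).card ≤
      (N.factorial - 1) * ((p ^ m) ^ 2 + B2 * p ^ m) := by
    refine (Finset.sum_le_card_nsmul _ _ _ (fun τ _ => hupper τ)).trans ?_
    rw [Finset.card_erase_of_mem (Finset.mem_univ _), Finset.card_univ, Fintype.card_perm,
      Fintype.card_fin, smul_eq_mul]
  have h3 := Finset.add_sum_erase Finset.univ (fun τ => (c τ).card)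
    (Finset.mem_univ (1 : Equiv.Perm (Fin N)))
  rw [hsum] at h3
  rw [hone] at h3
  have hf1 : ((N.factorial - 1 : ℕ) : ℝ) = (N.factorial : ℝ) - 1 := by
    rw [Nat.cast_sub hN1]; simp
  have h1' : (n1 : ℝ) * N.factorial ≤ ((p ^ m : ℕ) : ℝ) ^ 2 + B2 * ((p ^ m : ℕ) : ℝ) := by
    exact_mod_cast h1
  have h2' : ((∑ τ ∈ Finset.univ.erase (1 : Equiv.Perm (Fin N)), (c τ).card : ℕ) : ℝ) ≤
      ((N.factorial : ℝ) - 1) * (((p ^ m : ℕ) : ℝ) ^ 2 + B2 * ((p ^ m : ℕ) : ℝ)) := by
    rw [← hf1]
    exact_mod_cast h2
  have h3' : (n1 : ℝ) * N.factorial +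
      ((∑ τ ∈ Finset.univ.erase (1 : Equiv.Perm (Fin N)), (c τ).card : ℕ) : ℝ) =
      U.card * N.factorial := by
    exact_mod_cast h3
  have h4' : ((p ^ m : ℕ) : ℝ) ^ 2 ≤ (U.card : ℝ) + B1 := by
    exact_mod_cast hUcard
  have hN1' : (1 : ℝ) ≤ N.factorial := by exact_mod_cast hN1
  have hq1' : (1 : ℝ) ≤ ((p ^ m : ℕ) : ℝ) := by exact_mod_cast hq1
  have hB1' : (0 : ℝ) ≤ B1 := Nat.cast_nonneg _
  have hB2' : (0 : ℝ) ≤ B2 := Nat.cast_nonneg _
  generalize ((p ^ m : ℕ) : ℝ) = q0 at *
  generalize ((∑ τ ∈ Finset.univ.erase (1 : Equiv.Perm (Fin N)), (c τ).card : ℕ) : ℝ) = s at *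
  push_cast
  generalize (N.factorial : ℝ) = M at *
  generalize (U.card : ℝ) = u at *
  generalize (n1 : ℝ) = n at *
  generalize (B1 : ℝ) = b1 at *
  generalize (B2 : ℝ) = b2 at *
  rw [abs_le]
  have e1 : 0 ≤ (M - 1) * (b2 * q0) := by
    apply mul_nonneg (by linarith)
    apply mul_nonneg hB2' (by linarith)
  have e2 : 0 ≤ M * b1 * (q0 - 1) := by
    apply mul_nonneg (mul_nonneg (by linarith) hB1') (by linarith)
  have e3 : 0 ≤ M * ((u + b1) - q0 ^ 2) := mul_nonneg (by linarith) (by linarith)
  have e4 : 0 ≤ M * b1 * q0 := mul_nonneg (mul_nonneg (by linarith) hB1') (by linarith)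
  have e5 : 0 ≤ b2 * q0 := mul_nonneg hB2' (by linarith)
  constructor
  · nlinarith
  · nlinarith

end Pool.Agent.K1
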