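import Pool.Agent.K1.M2c

/-!
A transposition in the Galois group of the pencil, from a double root at `lam = 0`, in any
characteristic (helper78).
-/

set_option autoImplicit false

open Polynomial
namespace Pool.Agent.K1

/-- the embedding `lam ↦ X` -/
noncomputable def phi1 (k : Type*) [Field k] : k[X] →+* PowerSeries k :=
  Polynomial.coeToPowerSeries.ringHom

section phi1

variable {k : Type*} [Field k]

theorem phi1_C (c : k) : phi1 k (C c) = PowerSeries.C c := by
  change ((C c : k[X]) : PowerSeries k) = _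
  rw [Polynomial.coe_C]

theorem phi1_X : phi1 k X = PowerSeries.X := by
  change ((X : k[X]) : PowerSeries k) = _
  rw [Polynomial.coe_X]

theorem phi1_injective : Function.Injective (phi1 k) := fun _ _ h => Polynomial.coe_injective k h

theorem cc_phi1 : (PowerSeries.constantCoeff).comp (phi1 k) = evalRingHom (0 : k) := by
  refine Polynomial.ringHom_ext (fun c => ?_) ?_
  · rw [RingHom.comp_apply, phi1_C, PowerSeries.constantCoeff_C, coe_evalRingHom, eval_C]
  · rw [RingHom.comp_apply, phi1_X, PowerSeries.constantCoeff_X, coe_evalRingHom, eval_X]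

end phi1

/-- a monic quadratic polynomial over `k[[X]]` of Eisenstein type at `sy` has no root. -/
theorem no_root_eisenstein {k : Type*} [Field k] (b c : PowerSeries k) (sy : k)
    (hb : PowerSeries.constantCoeff b = -(2 * sy))
    (h1 : PowerSeries.coeff 1 (PowerSeries.C sy ^ 2 + b * PowerSeries.C sy + c) ≠ 0)
    (h0 : PowerSeries.constantCoeff (PowerSeries.C sy ^ 2 + b * PowerSeries.C sy + c) = 0)
    (ρ : PowerSeries k) (hρ : ρ ^ 2 + b * ρ + c = 0) : False := by
  have h2 : PowerSeries.constantCoeff ρ = sy := by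
    have h3 := congrArg PowerSeries.constantCoeff hρ
    rw [map_add, map_add, map_pow, map_mul, hb, map_zero] at h3
    rw [map_add, map_add, map_pow, map_mul, hb, PowerSeries.constantCoeff_C] at h0
    have h4 : (PowerSeries.constantCoeff ρ - sy) ^ 2 = 0 := by linear_combination h3 - h0
    exact sub_eq_zero.1 (pow_eq_zero_iff (two_ne_zero) |>.1 h4)
  obtain ⟨v, hv⟩ : PowerSeries.X ∣ ρ - PowerSeries.C sy := by
    rw [PowerSeries.X_dvd_iff, map_sub, h2, PowerSeries.constantCoeff_C, sub_self]
  obtain ⟨d, hd⟩ : PowerSeries.X ∣ b + 2 * PowerSeries.C sy := by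
    rw [PowerSeries.X_dvd_iff, map_add, map_mul, hb, PowerSeries.constantCoeff_C, map_ofNat]
    ring
  have h5 : ρ = PowerSeries.C sy + PowerSeries.X * v := by rw [← hv]; ring
  have h6 : PowerSeries.C sy ^ 2 + b * PowerSeries.C sy + c
      = PowerSeries.X ^ 2 * (-(d * v) - v ^ 2) := by
    rw [h5] at hρ
    linear_combination hρ - PowerSeries.X * v * hd
  apply h1
  rw [h6, PowerSeries.coeff_X_pow_mul', if_neg (by norm_num)]

/-- M2c in any characteristic. -/
theorem M2c_swap' {k : Type} [Field k] [IsAlgClosed k] (F : k[X][X])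
    (N : ℕ) (hFm : F.Monic) (hFd : F.natDegree = N) (hirr : Irreducible (overFrac F))
    (hsepF : (overFrac F).Separable)
    (sy : k) (g : k[X]) (hg : F.map (evalRingHom 0) = (X - C sy) ^ 2 * g) (hsep : g.Separable)
    (hgy : g.eval sy ≠ 0) (hlam : ((F.eval (C sy)).coeff 1) ≠ 0) :
    ∃ (gal : (overFrac F).SplittingField ≃ₐ[FractionRing k[X]] (overFrac F).SplittingField)
      (a b : (overFrac F).SplittingField), a ≠ b ∧
      a ∈ (overFrac F).rootSet (overFrac F).SplittingField ∧
      b ∈ (overFrac F).rootSet (overFrac F).SplittingField ∧ gal a = b ∧ gal b = a ∧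
      ∀ c ∈ (overFrac F).rootSet (overFrac F).SplittingField, c ≠ a → c ≠ b → gal c = c := by
  classical
  set G : (PowerSeries k)[X] := F.map (phi1 k) with hG
  have hGm : G.Monic := hFm.map _
  have hGd : G.natDegree = N := by rw [hG, hFm.natDegree_map, hFd]
  have hGbar : G.map PowerSeries.constantCoeff = (X - C sy) ^ 2 * g := by
    rw [hG, map_map, cc_phi1, hg]
  have hgm : g.Monic := by
    have h1 : ((X - C sy) ^ 2 * g).Monic := by
      rw [← hg]
      exact hFm.map _
    exact Monic.of_mul_monic_left ((monic_X_sub_C sy).pow 2) h1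
  have hgd : g.natDegree + 2 = N := by
    have h1 : ((X - C sy) ^ 2 * g).natDegree = N := by rw [← hg, hFm.natDegree_map, hFd]
    rw [((monic_X_sub_C sy).pow 2).natDegree_mul hgm, natDegree_pow, natDegree_X_sub_C] at h1
    omega
  -- the simple roots
  set R : Finset k := g.roots.toFinset with hR
  have hRcard : R.card = g.natDegree := by
    rw [hR, Multiset.toFinset_card_of_nodup (nodup_roots hsep)]
    exact (splits_iff_card_roots.1 (IsAlgClosed.splits g))
  have hRmem : ∀ c ∈ R, g.eval c = 0 := by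
    intro c hc
    rw [hR, Multiset.mem_toFinset, mem_roots hgm.ne_zero] at hc
    exact hc
  have hRsy : ∀ c ∈ R, c ≠ sy := by
    rintro c hc rfl
    exact hgy (hRmem c hc)
  have hRder : ∀ c ∈ R, (G.map PowerSeries.constantCoeff).derivative.eval c ≠ 0 := by
    intro c hc
    rw [hGbar, derivative_mul]
    simp only [eval_add, eval_mul, eval_pow, eval_sub, eval_X, eval_C, hRmem c hc, mul_zero,
      zero_add]
    refine mul_ne_zero (pow_ne_zero 2 (sub_ne_zero.2 (hRsy c hc))) ?_
    exact hsep.eval₂_derivative_ne_zero (RingHom.id k) (hRmem c hc)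
  have hHens : ∀ c : k, ∃ t : PowerSeries k, c ∈ R →
      PowerSeries.constantCoeff t = c ∧ G.eval t = 0 := by
    intro c
    by_cases hc : c ∈ R
    · obtain ⟨t, ht1, ht2⟩ := exists_powerSeries_root_gen G c (by
        rw [hGbar, eval_mul, hRmem c hc, mul_zero]) (hRder c hc)
      exact ⟨t, fun _ => ⟨ht1, ht2⟩⟩
    · exact ⟨0, fun h => absurd h hc⟩
  choose t ht using hHens
  have htc : ∀ c ∈ R, PowerSeries.constantCoeff (t c) = c := fun c hc => (ht c hc).1
  have htinj : Set.InjOn t R := by
    intro c hc c' hc' h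
    rw [← htc c hc, ← htc c' hc', h]
  -- the product of the linear factors
  set PP : (PowerSeries k)[X] := ∏ c ∈ R, (X - C (t c)) with hPP
  have hPPm : PP.Monic := monic_prod_of_monic _ _ fun c _ => monic_X_sub_C _
  have hPPd : PP.natDegree + 2 = N := by
    rw [hPP, natDegree_prod_of_monic _ _ fun c _ => monic_X_sub_C _]
    simp only [natDegree_X_sub_C, Finset.sum_const, smul_eq_mul, mul_one]
    rw [hRcard, hgd]
  have hPPdvd : PP ∣ G := by
    have h1 : PP = ((R.image t).val.map fun a => X - C a).prod := by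
      rw [hPP]
      change _ = ∏ a ∈ R.image t, (X - C a)
      rw [Finset.prod_image htinj]
    rw [h1, Multiset.prod_X_sub_C_dvd_iff_le_roots hGm.ne_zero,
      Multiset.le_iff_subset (R.image t).nodup]
    intro a ha
    rw [mem_roots hGm.ne_zero]
    obtain ⟨c, hc, rfl⟩ := Finset.mem_image.1 (show a ∈ R.image t from ha)
    exact (ht c hc).2
  obtain ⟨Q, hQ⟩ := hPPdvd
  have hQm : Q.Monic := Monic.of_mul_monic_left hPPm (hQ ▸ hGm)
  have hQd : Q.natDegree = 2 := by
    have h1 := hPPm.natDegree_mul hQm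
    rw [← hQ, hGd] at h1
    omega
  have hQ2 : Q.coeff 2 = 1 := by
    have := hQm.coeff_natDegree
    rwa [hQd] at this
  have hPPbar : PP.map PowerSeries.constantCoeff = g := by
    have h1 : g = ∏ c ∈ R, (X - C c) := by
      have h2 := (prod_multiset_X_sub_C_of_monic_of_roots_card_eq hgm
        (splits_iff_card_roots.1 (IsAlgClosed.splits g)))
      conv_lhs => rw [← h2]
      rw [hR, Finset.prod, Multiset.toFinset_val, Multiset.dedup_eq_self.2 (nodup_roots hsep)]
    rw [hPP, Polynomial.map_prod]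
    conv_rhs => rw [h1]
    apply Finset.prod_congr rfl
    intro c hc
    rw [Polynomial.map_sub, map_X, map_C, htc c hc]
  have hQbar : Q.map PowerSeries.constantCoeff = (X - C sy) ^ 2 := by
    have h1 := hGbar
    rw [hQ, Polynomial.map_mul, hPPbar, mul_comm] at h1
    exact mul_right_cancel₀ hgm.ne_zero h1
  have hb : PowerSeries.constantCoeff (Q.coeff 1) = -(2 * sy) := by
    have h1 := congrArg (fun p => p.coeff 1) hQbar
    simp only [coeff_map] at h1
    rw [h1]
    have h2 : (X - C sy) ^ 2 = X ^ 2 + C (-(2 * sy)) * X + C (sy ^ 2) := by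
      rw [C_neg, C_mul, C_pow]
      have : (C (2 : k) : k[X]) = 2 := map_ofNat C 2
      rw [this]
      ring
    rw [h2, coeff_add, coeff_add, coeff_C_mul, coeff_X_one, coeff_X_pow, coeff_C]
    simp
  have hQe : ∀ (S : Type) [CommRing S] (f : PowerSeries k →+* S) (x : S),
      Q.eval₂ f x = x ^ 2 + f (Q.coeff 1) * x + f (Q.coeff 0) := by
    intro S _ f x
    rw [eval₂_eq_sum_range, hQd, Finset.sum_range_succ, Finset.sum_range_succ,
      Finset.sum_range_one, hQ2]
    simp only [pow_zero, mul_one, pow_one, map_one, one_mul]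
    ring
  have hQev : ∀ x : PowerSeries k, Q.eval x = x ^ 2 + Q.coeff 1 * x + Q.coeff 0 := by
    intro x
    have := hQe _ (RingHom.id _) x
    rwa [RingHom.id_apply, RingHom.id_apply] at this
  -- the value at `sy`
  have hGsy : G.eval (PowerSeries.C sy) = phi1 k (F.eval (C sy)) := by
    rw [hG, eval_map, ← phi1_C, eval₂_at_apply]
  have hPPsy : PowerSeries.constantCoeff (PP.eval (PowerSeries.C sy)) = g.eval sy := by
    rw [constantCoeff_eval, hPPbar, PowerSeries.constantCoeff_C]
  have hQsy0 : PowerSeries.constantCoeff (Q.eval (PowerSeries.C sy)) = 0 := by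
    rw [constantCoeff_eval, hQbar, PowerSeries.constantCoeff_C]
    simp
  have hQsy1 : PowerSeries.coeff 1 (Q.eval (PowerSeries.C sy)) ≠ 0 := by
    intro h1
    apply hlam
    have h2 : PowerSeries.X ^ 2 ∣ Q.eval (PowerSeries.C sy) := by
      rw [PowerSeries.X_pow_dvd_iff]
      intro m hm
      rcases (by omega : m = 0 ∨ m = 1) with rfl | rfl
      · rw [PowerSeries.coeff_zero_eq_constantCoeff_apply]
        exact hQsy0
      · exact h1
    have h3 : PowerSeries.X ^ 2 ∣ phi1 k (F.eval (C sy)) := by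
      rw [← hGsy, hQ, eval_mul]
      exact dvd_mul_of_dvd_right h2 _
    have h4 := PowerSeries.X_pow_dvd_iff.1 h3 1 (by norm_num)
    have h5 : PowerSeries.coeff 1 (phi1 k (F.eval (C sy))) = (F.eval (C sy)).coeff 1 :=
      Polynomial.coeff_coe _ _
    rw [← h5, h4]
  -- the fields
  set L := FractionRing (PowerSeries k) with hL
  set j : PowerSeries k →+* L := algebraMap (PowerSeries k) L with hj
  have hjinj : Function.Injective j := IsFractionRing.injective _ _
  have hQirr : Irreducible (Q.map j) := by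
    have hdeg : (Q.map j).natDegree = 2 := by rw [hQm.natDegree_map, hQd]
    rw [(hQm.map j).irreducible_iff_roots_eq_zero_of_degree_le_three (by rw [hdeg])
      (by rw [hdeg]; norm_num)]
    by_contra hne
    obtain ⟨x, hx⟩ := Multiset.exists_mem_of_ne_zero hne
    rw [mem_roots (hQm.map j).ne_zero, IsRoot.def, eval_map] at hx
    have hint : IsIntegral (PowerSeries k) x := ⟨Q, hQm, hx⟩
    obtain ⟨ρ, hρ⟩ := IsIntegrallyClosed.isIntegral_iff.1 hint
    have h1 : Q.eval ρ = 0 := by
      apply hjinj
      rw [map_zero, ← hx, ← hρ]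
      exact (eval₂_at_apply j ρ).symm
    refine no_root_eisenstein (Q.coeff 1) (Q.coeff 0) sy hb ?_ ?_ ρ ?_
    · rw [← hQev]
      exact hQsy1
    · rw [← hQev]
      exact hQsy0
    · rw [← hQev]
      exact h1
  haveI : Fact (Irreducible (Q.map j)) := ⟨hQirr⟩
  let L' := AdjoinRoot (Q.map j)
  let r1 : L' := AdjoinRoot.root (Q.map j)
  let jj : PowerSeries k →+* L' := (algebraMap L L').comp j
  have hjjinj : Function.Injective jj := (algebraMap L L').injective.comp hjinj
  have hr1 : Q.eval₂ jj r1 = 0 := by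
    have h1 := AdjoinRoot.eval₂_root (Q.map j)
    rw [eval₂_map] at h1
    exact h1
  have hr1' : r1 ^ 2 + jj (Q.coeff 1) * r1 + jj (Q.coeff 0) = 0 := by
    rw [← hQe]
    exact hr1
  let r2 : L' := -(jj (Q.coeff 1)) - r1
  have hr2 : Q.eval₂ jj r2 = 0 := by
    rw [hQe]
    have : r2 = -(jj (Q.coeff 1)) - r1 := rfl
    rw [this]
    linear_combination hr1'
  have hr2' : aeval r2 (Q.map j) = 0 := by
    rw [aeval_def, eval₂_map]
    exact hr2
  have hfac : Q.map jj = (X - C r1) * (X - C r2) := by
    have h1 : Q = X ^ 2 + C (Q.coeff 1) * X + C (Q.coeff 0) := by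
      conv_lhs => rw [as_sum_range' Q 3 (by omega)]
      rw [Finset.sum_range_succ, Finset.sum_range_succ, Finset.sum_range_one,
        ← C_mul_X_pow_eq_monomial, ← C_mul_X_pow_eq_monomial, ← C_mul_X_pow_eq_monomial, hQ2]
      simp only [pow_zero, mul_one, pow_one, C_1, one_mul]
      ring
    have h1' := congrArg (fun q => Polynomial.map jj q) h1
    simp only [Polynomial.map_add, Polynomial.map_mul, Polynomial.map_pow, map_X, map_C] at h1'
    rw [h1']
    have h2 : C (jj (Q.coeff 0)) = C (-(r1 ^ 2 + jj (Q.coeff 1) * r1)) := by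
      congr 1
      linear_combination hr1'
    have h3 : C r2 = -C (jj (Q.coeff 1)) - C r1 := by
      have : r2 = -(jj (Q.coeff 1)) - r1 := rfl
      rw [this, C_sub, C_neg]
    rw [h2, h3, C_neg, C_add, C_pow, C_mul]
    ring
  -- the automorphism
  let σ₀ : L' →ₐ[L] L' := AdjoinRoot.liftAlgHom (Q.map j) (Algebra.ofId L L') r2 hr2'
  have hσ₀r : σ₀ r1 = r2 := AdjoinRoot.liftAlgHom_root _ _ _ _
  have hσ₀2 : σ₀ r2 = r1 := by
    have h1 : r2 = -(jj (Q.coeff 1)) - r1 := rfl
    have h2 : σ₀ (jj (Q.coeff 1)) = jj (Q.coeff 1) := σ₀.commutes _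
    rw [h1, map_sub, map_neg, h2, hσ₀r]
    change -(jj (Q.coeff 1)) - (-(jj (Q.coeff 1)) - r1) = r1
    ring
  have hσσ : σ₀.comp σ₀ = AlgHom.id L L' := by
    apply AdjoinRoot.algHom_ext
    change σ₀ (σ₀ r1) = r1
    rw [hσ₀r, hσ₀2]
  let σ : L' ≃+* L' := (AlgEquiv.ofAlgHom σ₀ σ₀ hσσ hσσ).toRingEquiv
  have hσapp : ∀ x, σ x = σ₀ x := fun x => rfl
  -- the map from `k(lam)`
  have hinj : Function.Injective (jj.comp (phi1 k)) := hjjinj.comp phi1_injective
  let i : FractionRing k[X] →+* L' := IsFractionRing.lift (K := FractionRing k[X]) hinj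
  have hia : ∀ p : k[X], i (algebraMap k[X] (FractionRing k[X]) p) = jj (phi1 k p) := fun p =>
    IsFractionRing.lift_algebraMap hinj p
  have hmapi : (overFrac F).map i = G.map jj := by
    rw [hG, map_map, map_map]
    congr 1
    exact RingHom.ext hia
  have hprodL : G.map jj = (∏ c ∈ R, (X - C (jj (t c)))) * ((X - C r1) * (X - C r2)) := by
    rw [hQ, Polynomial.map_mul, hfac, hPP, Polynomial.map_prod]
    congr 1
    apply Finset.prod_congr rfl
    intro c _
    rw [Polynomial.map_sub, map_X, map_C]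
  have hr12 : r1 ≠ r2 := by
    intro h
    have h1 : ((overFrac F).map i).Separable := hsepF.map
    rw [hmapi, hprodL, ← h] at h1
    have h2 := h1.of_mul_right.squarefree
    have h3 := h2 (X - C r1) dvd_rfl
    exact not_isUnit_X_sub_C r1 h3
  have hσj : ∀ x : PowerSeries k, σ (jj x) = jj x := by
    intro x
    rw [hσapp]
    exact σ₀.commutes _
  refine swap_of_local i (overFrac F) hirr.ne_zero σ ?_ ?_ r1 r2 hr12 ?_ ?_ ?_ ?_ ?_
  · intro x
    have h1 : (σ : L' →+* L').comp i = i := by
      refine IsLocalization.ringHom_ext (nonZeroDivisors k[X]) ?_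
      refine RingHom.ext fun p => ?_
      rw [RingHom.comp_apply, RingHom.comp_apply, RingHom.comp_apply, hia]
      exact hσj _
    exact congrArg (fun f : FractionRing k[X] →+* L' => f x) h1
  · rw [hmapi, hprodL]
    refine Splits.mul (Splits.prod fun c _ => Splits.X_sub_C _) ?_
    exact Splits.mul (Splits.X_sub_C _) (Splits.X_sub_C _)
  · rw [hmapi, eval_map]
    rw [hQ, eval₂_mul, hr1, mul_zero]
  · rw [hmapi, eval_map]
    rw [hQ, eval₂_mul, hr2, mul_zero]
  · exact hσ₀r
  · exact hσ₀2
  · intro c hc hc1 hc2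
    rw [hmapi, hprodL, eval_mul, eval_mul, eval_prod] at hc
    rcases mul_eq_zero.1 hc with h | h
    · obtain ⟨d, hd, hd'⟩ := Finset.prod_eq_zero_iff.1 h
      simp only [eval_sub, eval_X, eval_C] at hd'
      rw [sub_eq_zero.1 hd', hσj]
    · rcases mul_eq_zero.1 h with h | h
      · simp only [eval_sub, eval_X, eval_C] at h
        exact absurd (sub_eq_zero.1 h) hc1
      · simp only [eval_sub, eval_X, eval_C] at h
        exact absurd (sub_eq_zero.1 h) hc2

end Pool.Agent.K1
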