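import Pool.Agent.K1.Defs
import Pool.Agent.K1.HenselG
import Pool.Agent.K1.ExtGal

/-!
M2d: an automorphism with an orbit of length `z - 4 n` on the roots, from `lam = infinity`.
-/

set_option autoImplicit false

open Polynomial

namespace Pool.Agent.K1

namespace M2dAux

section

variable {k : Type} [Field k]

/-- constants in the field of fractions of the power series ring -/
noncomputable def kap (k : Type) [Field k] : k →+* FractionRing (PowerSeries k) :=
  (algebraMap (PowerSeries k) (FractionRing (PowerSeries k))).comp PowerSeries.C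

/-- the uniformizer -/
noncomputable def unif (k : Type) [Field k] : FractionRing (PowerSeries k) :=
  algebraMap (PowerSeries k) (FractionRing (PowerSeries k)) PowerSeries.X

theorem unif_ne_zero : unif k ≠ 0 := by
  rw [unif, Ne, map_eq_zero_iff _ (IsFractionRing.injective (PowerSeries k) _)]
  exact PowerSeries.X_ne_zero

theorem kap_apply (c : k) : kap k c =
    algebraMap (PowerSeries k) (FractionRing (PowerSeries k)) (PowerSeries.C c) := rfl

/-- homogenisation with the weight `n` -/
noncomputable def hg (n d : ℕ) (q : k[X]) : (PowerSeries k)[X] :=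
  ∑ i ∈ Finset.range (d + 1),
    C (PowerSeries.X ^ (n * (d - i)) * PowerSeries.C (q.coeff i)) * X ^ i

theorem hg_red (n d : ℕ) (hn : 0 < n) (q : k[X]) :
    (hg n d q).map PowerSeries.constantCoeff = C (q.coeff d) * X ^ d := by
  rw [hg, Polynomial.map_sum, Finset.sum_eq_single d]
  · simp
  · intro i hi hid
    rw [Finset.mem_range] at hi
    have h1 : n * (d - i) ≠ 0 := Nat.mul_ne_zero hn.ne' (by omega)
    simp [h1]
  · intro h
    exact absurd (Finset.mem_range.2 (Nat.lt_succ_self d)) h

theorem hg_eval (n d : ℕ) (q : k[X]) (hq : q.natDegree ≤ d) (W : PowerSeries k)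
    (r : FractionRing (PowerSeries k))
    (hr : unif k ^ n * r = algebraMap (PowerSeries k) (FractionRing (PowerSeries k)) W) :
    algebraMap (PowerSeries k) (FractionRing (PowerSeries k)) ((hg n d q).eval W) =
      unif k ^ (n * d) * q.eval₂ (kap k) r := by
  rw [hg, eval_finsetSum, map_sum, eval₂_eq_sum_range' (kap k) (Nat.lt_succ_of_le hq) r,
    Finset.mul_sum]
  refine Finset.sum_congr rfl fun i hi => ?_
  rw [Finset.mem_range] at hi
  rw [eval_mul, eval_C, eval_pow, eval_X, map_mul, map_mul, map_pow, map_pow, ← hr, ← kap_apply]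
  have h1 : n * d = n * (d - i) + n * i := by
    rw [← Nat.mul_add]
    congr 1
    omega
  rw [h1, pow_add, mul_pow, ← pow_mul]
  have h2 : algebraMap (PowerSeries k) (FractionRing (PowerSeries k)) PowerSeries.X =
    unif k := rfl
  rw [h2]
  ring

/-- the evaluation `lam ↦ X^(-l)` -/
noncomputable def ev (k : Type) [Field k] (l : ℕ) : k[X] →+* FractionRing (PowerSeries k) :=
  eval₂RingHom (kap k) ((unif k)⁻¹ ^ l)

theorem ev_injective (l : ℕ) (hl : 0 < l) : Function.Injective (ev k l) := by
  rw [injective_iff_map_eq_zero]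
  intro p hp
  have h1 := hg_eval l p.natDegree p le_rfl 1 ((unif k)⁻¹ ^ l) (by
    rw [map_one, ← mul_pow, mul_inv_cancel₀ unif_ne_zero, one_pow])
  have h2 : p.eval₂ (kap k) ((unif k)⁻¹ ^ l) = 0 := hp
  rw [h2, mul_zero, map_eq_zero_iff _ (IsFractionRing.injective (PowerSeries k) _)] at h1
  have h3 := congrArg PowerSeries.constantCoeff h1
  rw [constantCoeff_eval, hg_red l _ hl, map_one, map_zero] at h3
  simpa using h3

theorem pencil_eval (l : ℕ) (χ : k[X][X]) (P T : k[X]) (r : FractionRing (PowerSeries k)) :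
    (pencil χ P T).eval₂ (ev k l) r =
      χ.eval₂ (eval₂RingHom (kap k) r)
        (P.eval₂ (kap k) r + (unif k)⁻¹ ^ l * T.eval₂ (kap k) r) := by
  have h1 : ∀ c : k, ev k l (C c) = kap k c := by
    intro c
    rw [ev, coe_eval₂RingHom, eval₂_C]
  have h2 : ev k l X = (unif k)⁻¹ ^ l := by
    rw [ev, coe_eval₂RingHom, eval₂_X]
  have h3 : (eval₂RingHom (ev k l) r).comp (mapRingHom (C : k →+* k[X])) =
      eval₂RingHom (kap k) r := by
    apply Polynomial.ringHom_ext
    · intro c
      simp [h1]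
    · simp
  have h4 : ∀ q : k[X], (q.map C).eval₂ (ev k l) r = q.eval₂ (kap k) r := by
    intro q
    have := congrArg (fun φ : k[X] →+* FractionRing (PowerSeries k) => φ q) h3
    simpa using this
  have h5 : (pencil χ P T).eval₂ (ev k l) r = eval₂RingHom (ev k l) r (pencil χ P T) := rfl
  rw [h5, pencil, hom_eval₂, h3]
  congr 1
  rw [map_add, map_mul]
  simp only [coe_eval₂RingHom]
  rw [h4, h4, eval₂_C, h2]

/-- the polynomial to which Hensel's lemma is applied -/
noncomputable def Zt (n l : ℕ) (P T : k[X]) : (PowerSeries k)[X] :=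
  hg n 4 T + C (PowerSeries.X ^ l) * hg n 4 P

/-- the polynomial to which Hensel's lemma is applied -/
noncomputable def GG (χ : k[X][X]) (n z l : ℕ) (P T : k[X]) : (PowerSeries k)[X] :=
  ∑ j ∈ Finset.range (n + 1),
    C (PowerSeries.X ^ (n * z - (n * (χ.coeff j).natDegree + z * j))) *
      hg n (χ.coeff j).natDegree (χ.coeff j) * Zt n l P T ^ j

theorem le_of_isCnz {χ : k[X][X]} {n z : ℕ} (hχ : IsCnz χ n z) (j : ℕ) (hj : j ≤ n) :
    n * (χ.coeff j).natDegree + z * j ≤ n * z := by
  rcases Nat.eq_zero_or_pos j with rfl | h0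
  · rw [hχ.deg0]
    omega
  · rcases hj.lt_or_eq with h1 | rfl
    · exact (hχ.lt j h0 h1).le
    · have h2 : χ.coeff χ.natDegree = 1 := hχ.monic
      rw [hχ.natDegree] at h2
      rw [h2, natDegree_one, mul_zero, zero_add, mul_comm]

theorem GG_eval (χ : k[X][X]) (n z l : ℕ) (hχ : IsCnz χ n z) (hz : z = l + 4 * n)
    (P T : k[X]) (hP : P.natDegree ≤ 4) (hT : T.natDegree ≤ 4) (W : PowerSeries k)
    (r : FractionRing (PowerSeries k))
    (hr : unif k ^ n * r = algebraMap (PowerSeries k) (FractionRing (PowerSeries k)) W) :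
    algebraMap (PowerSeries k) (FractionRing (PowerSeries k)) ((GG χ n z l P T).eval W) =
      unif k ^ (n * z) * χ.eval₂ (eval₂RingHom (kap k) r)
        (P.eval₂ (kap k) r + (unif k)⁻¹ ^ l * T.eval₂ (kap k) r) := by
  have hZ : algebraMap (PowerSeries k) (FractionRing (PowerSeries k))
      ((Zt n l P T).eval W) = unif k ^ z *
        (P.eval₂ (kap k) r + (unif k)⁻¹ ^ l * T.eval₂ (kap k) r) := by
    rw [Zt, eval_add, eval_mul, eval_C, map_add, map_mul, hg_eval n 4 T hT W r hr,
      hg_eval n 4 P hP W r hr, map_pow, hz]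
    have h2 : algebraMap (PowerSeries k) (FractionRing (PowerSeries k)) PowerSeries.X =
      unif k := rfl
    have h3 : unif k ^ l * (unif k)⁻¹ ^ l = 1 := by
      rw [← mul_pow, mul_inv_cancel₀ unif_ne_zero, one_pow]
    rw [h2, pow_add, mul_comm 4 n]
    linear_combination -(unif k ^ (n * 4) * T.eval₂ (kap k) r) * h3
  rw [GG, eval_finsetSum, map_sum,
    eval₂_eq_sum_range' (eval₂RingHom (kap k) r) (Nat.lt_succ_of_le hχ.natDegree.le),
    Finset.mul_sum]
  refine Finset.sum_congr rfl fun j hj => ?_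
  rw [Finset.mem_range] at hj
  rw [eval_mul, eval_mul, eval_C, eval_pow, map_mul, map_mul, map_pow, map_pow, hZ,
    hg_eval n _ _ le_rfl W r hr]
  have h2 : algebraMap (PowerSeries k) (FractionRing (PowerSeries k)) PowerSeries.X =
      unif k := rfl
  have h1 := le_of_isCnz hχ j (by omega)
  have h4 : n * z = (n * z - (n * (χ.coeff j).natDegree + z * j)) +
      (n * (χ.coeff j).natDegree + z * j) := by omega
  have h5 : unif k ^ (n * z) = unif k ^ (n * z - (n * (χ.coeff j).natDegree + z * j)) *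
      (unif k ^ (n * (χ.coeff j).natDegree) * (unif k ^ z) ^ j) := by
    rw [← pow_mul, ← pow_add, ← pow_add, ← h4]
  rw [h2, h5, mul_pow, coe_eval₂RingHom]
  ring

theorem GG_red (χ : k[X][X]) (n z l : ℕ) (hn : 0 < n) (hl : 0 < l) (hχ : IsCnz χ n z)
    (P T : k[X]) (hT : T.coeff 4 = 1) :
    (GG χ n z l P T).map PowerSeries.constantCoeff =
      C ((χ.coeff 0).leadingCoeff) * X ^ z + X ^ (4 * n) := by
  have hZ : (Zt n l P T).map PowerSeries.constantCoeff = X ^ 4 := by
    rw [Zt, Polynomial.map_add, Polynomial.map_mul, hg_red n 4 hn, hT]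
    simp [hl.ne']
  have hterm : ∀ j, (C (PowerSeries.X ^ (n * z - (n * (χ.coeff j).natDegree + z * j))) *
      hg n (χ.coeff j).natDegree (χ.coeff j) * Zt n l P T ^ j).map
        PowerSeries.constantCoeff =
      C (PowerSeries.constantCoeff ((PowerSeries.X : PowerSeries k) ^
        (n * z - (n * (χ.coeff j).natDegree + z * j)))) *
        (C ((χ.coeff j).coeff (χ.coeff j).natDegree) * X ^ (χ.coeff j).natDegree) *
        (X ^ 4) ^ j := by
    intro j
    rw [Polynomial.map_mul, Polynomial.map_mul, Polynomial.map_pow, hZ, hg_red n _ hn,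
      Polynomial.map_C]
  rw [GG, Polynomial.map_sum, Finset.sum_congr rfl fun j _ => hterm j]
  rw [Finset.sum_range_succ, Finset.sum_eq_single_of_mem 0 (Finset.mem_range.2 hn)]
  · have h2 : χ.coeff n = 1 := by
      have := hχ.monic
      rw [Monic, leadingCoeff, hχ.natDegree] at this
      exact this
    rw [h2, hχ.deg0]
    have h3 : n * z - (n * z + z * 0) = 0 := by omega
    have h4 : n * z - (n * (1 : k[X]).natDegree + z * n) = 0 := by
      rw [natDegree_one, mul_comm z n]
      omega
    rw [h3, h4, leadingCoeff, hχ.deg0]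
    simp only [pow_zero, map_one, one_mul, mul_one, natDegree_one, coeff_one_zero]
    rw [← pow_mul]
  · intro j hj hj0
    rw [Finset.mem_range] at hj
    have h1 := hχ.lt j (by omega) hj
    have h2 : n * z - (n * (χ.coeff j).natDegree + z * j) ≠ 0 := by omega
    rw [map_pow, PowerSeries.constantCoeff_X, zero_pow h2]
    simp

end

section

variable {k : Type} [Field k] [IsAlgClosed k]

theorem exists_root (χ : k[X][X]) (n z l : ℕ) (hn : 0 < n) (hχ : IsCnz χ n z)
    (hz : z = l + 4 * n) (hl : 0 < l) (hlk : ((l : ℕ) : k) ≠ 0)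
    (P T : k[X]) (hP : P.natDegree ≤ 4) (hT : T.Monic) (hTd : T.natDegree = 4)
    (s1 s2 : k) (F : k[X][X])
    (hF : C (C ((χ.coeff 0).leadingCoeff)) * (X - C (C s1)) * (X - C (C s2)) * F
        = pencil χ P T) :
    ∃ (w : k) (W : PowerSeries k), w ≠ 0 ∧ PowerSeries.constantCoeff W = w ∧
      F.eval₂ (ev k l) ((unif k)⁻¹ ^ n *
        algebraMap (PowerSeries k) (FractionRing (PowerSeries k)) W) = 0 := by
  set c := (χ.coeff 0).leadingCoeff with hc
  have hc0 : c ≠ 0 := by
    rw [hc, Ne, leadingCoeff_eq_zero]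
    intro h0
    have := hχ.deg0
    rw [h0, natDegree_zero] at this
    omega
  obtain ⟨w, hw⟩ := IsAlgClosed.exists_pow_nat_eq (-c⁻¹) hl
  have hw0 : w ≠ 0 := by
    rintro rfl
    rw [zero_pow hl.ne'] at hw
    exact neg_ne_zero.2 (inv_ne_zero hc0) hw.symm
  have hcw : c * w ^ l = -1 := by
    rw [hw, mul_neg, mul_inv_cancel₀ hc0]
  have hT4 : T.coeff 4 = 1 := by
    have := hT
    rwa [Monic, leadingCoeff, hTd] at this
  have hred := GG_red χ n z l hn hl hχ P T hT4
  obtain ⟨W, hW, hGW⟩ := exists_powerSeries_root_gen (GG χ n z l P T) w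
    (by
      rw [hred, eval_add, eval_mul, eval_C, eval_pow, eval_X, eval_pow, eval_X, hz, pow_add]
      linear_combination w ^ (4 * n) * hcw)
    (by
      rw [hred]
      have h1 : (derivative (C c * X ^ z + X ^ (4 * n))).eval w * w =
          -((l : k) * w ^ (4 * n)) := by
        rw [derivative_add, derivative_mul, derivative_C, zero_mul, zero_add, derivative_X_pow,
          derivative_X_pow, eval_add, eval_mul, eval_mul, eval_mul, eval_C, eval_C, eval_C,
          eval_pow, eval_pow, eval_X]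
        have h2 : w ^ (z - 1) * w = w ^ z := by
          rw [← pow_succ]
          congr 1
          omega
        have h3 : w ^ (4 * n - 1) * w = w ^ (4 * n) := by
          rw [← pow_succ]
          congr 1
          omega
        have h4 : w ^ z = w ^ l * w ^ (4 * n) := by rw [hz, pow_add]
        have h5 : ((z : ℕ) : k) = l + ((4 * n : ℕ) : k) := by rw [hz]; push_cast; ring
        linear_combination (c * z) * h2 + ((4 * n : ℕ) : k) * h3 + (c * z) * h4 +
          z * w ^ (4 * n) * hcw - w ^ (4 * n) * h5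
      intro h0
      rw [h0, zero_mul, zero_eq_neg] at h1
      exact mul_ne_zero hlk (pow_ne_zero _ hw0) h1)
  refine ⟨w, W, hw0, hW, ?_⟩
  set r := (unif k)⁻¹ ^ n * algebraMap (PowerSeries k) (FractionRing (PowerSeries k)) W with hr
  have hr' : unif k ^ n * r = algebraMap (PowerSeries k) (FractionRing (PowerSeries k)) W := by
    rw [hr, ← mul_assoc, ← mul_pow, mul_inv_cancel₀ unif_ne_zero, one_pow, one_mul]
  have h1 := GG_eval χ n z l hχ hz P T hP hTd.le W r hr'
  rw [hGW, map_zero, eq_comm, mul_eq_zero] at h1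
  have h2 := h1.resolve_left (pow_ne_zero _ unif_ne_zero)
  rw [← pencil_eval, ← hF] at h2
  have hne : ∀ s : k, r - kap k s ≠ 0 := by
    intro s hs
    rw [sub_eq_zero] at hs
    rw [hs, kap_apply, unif, ← map_pow, ← map_mul] at hr'
    have h3 := IsFractionRing.injective (PowerSeries k) _ hr'
    have h4 := congrArg PowerSeries.constantCoeff h3
    rw [map_mul, map_pow, PowerSeries.constantCoeff_X, zero_pow hn.ne', zero_mul, hW] at h4
    exact hw0 h4.symm
  rw [eval₂_mul, eval₂_mul, eval₂_mul, eval₂_sub, eval₂_sub, eval₂_X, eval₂_C, eval₂_C,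
    eval₂_C] at h2
  have hev : ∀ a : k, ev k l (C a) = kap k a := by
    intro a
    rw [ev, coe_eval₂RingHom, eval₂_C]
  rw [hev, hev, hev] at h2
  have hkc : kap k c ≠ 0 := by
    rw [Ne, map_eq_zero]
    exact hc0
  exact (mul_eq_zero.1 h2).resolve_left (mul_ne_zero (mul_ne_zero hkc (hne s1)) (hne s2))

end

/-! ### the automorphism `X ↦ ζ X` -/

section

variable {k : Type} [Field k]

/-- rescaling of power series -/
noncomputable def rsc (ζ : k) (hζ : ζ ≠ 0) : PowerSeries k ≃+* PowerSeries k :=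
  RingEquiv.ofRingHom (PowerSeries.rescale ζ) (PowerSeries.rescale ζ⁻¹)
    (by
      ext1 f
      rw [RingHom.comp_apply, PowerSeries.rescale_rescale, inv_mul_cancel₀ hζ,
        PowerSeries.rescale_one])
    (by
      ext1 f
      rw [RingHom.comp_apply, PowerSeries.rescale_rescale, mul_inv_cancel₀ hζ,
        PowerSeries.rescale_one])

/-- rescaling on the field of fractions -/
noncomputable def sg (ζ : k) (hζ : ζ ≠ 0) :
    FractionRing (PowerSeries k) ≃+* FractionRing (PowerSeries k) :=
  IsFractionRing.ringEquivOfRingEquiv (rsc ζ hζ)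

theorem sg_algebraMap (ζ : k) (hζ : ζ ≠ 0) (f : PowerSeries k) :
    sg ζ hζ (algebraMap (PowerSeries k) (FractionRing (PowerSeries k)) f) =
      algebraMap (PowerSeries k) (FractionRing (PowerSeries k)) (PowerSeries.rescale ζ f) :=
  IsFractionRing.ringEquivOfRingEquiv_algebraMap _ _

theorem sg_kap (ζ : k) (hζ : ζ ≠ 0) (c : k) : sg ζ hζ (kap k c) = kap k c := by
  have h1 : PowerSeries.rescale ζ (PowerSeries.C c) = PowerSeries.C c := by
    ext m
    rw [PowerSeries.coeff_rescale, PowerSeries.coeff_C]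
    split_ifs with h
    · rw [h, pow_zero, one_mul]
    · rw [mul_zero]
  rw [kap_apply, sg_algebraMap, h1]

theorem sg_unif (ζ : k) (hζ : ζ ≠ 0) : sg ζ hζ (unif k) = kap k ζ * unif k := by
  rw [unif, sg_algebraMap, PowerSeries.rescale_X, map_mul, kap_apply]

theorem sg_iterate (ζ : k) (hζ : ζ ≠ 0) (n : ℕ) (W : PowerSeries k) (a : ℕ) :
    (sg ζ hζ)^[a] ((unif k)⁻¹ ^ n *
      algebraMap (PowerSeries k) (FractionRing (PowerSeries k)) W) =
      (kap k (ζ ^ a))⁻¹ ^ n * (unif k)⁻¹ ^ n *
        algebraMap (PowerSeries k) (FractionRing (PowerSeries k))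
          (PowerSeries.rescale (ζ ^ a) W) := by
  induction a with
  | zero => simp
  | succ a ih =>
      have e1 : sg ζ hζ ((kap k (ζ ^ a))⁻¹ ^ n) = (kap k (ζ ^ a))⁻¹ ^ n := by
        rw [map_pow, map_inv₀, sg_kap]
      have e2 : sg ζ hζ ((unif k)⁻¹ ^ n) = (kap k ζ)⁻¹ ^ n * (unif k)⁻¹ ^ n := by
        rw [map_pow, map_inv₀, sg_unif, mul_inv, mul_pow]
      have e3 : (kap k (ζ ^ (a + 1)))⁻¹ ^ n = (kap k (ζ ^ a))⁻¹ ^ n * (kap k ζ)⁻¹ ^ n := by
        rw [pow_succ ζ a, map_mul, mul_inv, mul_pow]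
      rw [Function.iterate_succ_apply', ih, map_mul, map_mul, e1, e2, sg_algebraMap,
        PowerSeries.rescale_rescale, ← pow_succ, e3]
      ring

end

end M2dAux

open M2dAux

/-- M2d. An automorphism with an orbit of length `z - 4 n` on the roots, from `lam = infinity`. -/
theorem M2d_cycle {k : Type} [Field k] [IsAlgClosed k]
    (χ : k[X][X]) (n z : ℕ) (hn : 2 ≤ n) (hχ : IsCnz χ n z) (hcop : n.Coprime z)
    (h8 : 8 * n ≤ z) (hl : (z - 4 * n).Prime) (hlk : ((z - 4 * n : ℕ) : k) ≠ 0)
    (P T0 : k[X]) (s1 s2 : k) (h12 : s1 ≠ s2)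
    (hP : P.natDegree ≤ 4) (hT0 : T0.Monic) (hT0d : T0.natDegree = 2)
    (F : k[X][X]) (hFm : F.Monic) (hFd : F.natDegree = z - 2)
    (hF : C (C ((χ.coeff 0).leadingCoeff)) * (X - C (C s1)) * (X - C (C s2)) * F
        = pencil χ P ((X - C s1) * (X - C s2) * T0)) :
    ∃ (gal : (overFrac F).SplittingField ≃ₐ[FractionRing k[X]] (overFrac F).SplittingField)
      (ρ : ZMod (z - 4 * n) → (overFrac F).SplittingField), Function.Injective ρ ∧
      (∀ i, ρ i ∈ (overFrac F).rootSet (overFrac F).SplittingField) ∧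
      ∀ i, gal (ρ i) = ρ (i + 1) := by
  obtain ⟨l, hldef⟩ : ∃ l, l = z - 4 * n := ⟨_, rfl⟩
  rw [← hldef] at hl hlk ⊢
  have hz : z = l + 4 * n := by omega
  have : NeZero l := ⟨hl.ne_zero⟩
  have : NeZero (l : k) := ⟨hlk⟩
  have hl0 : 0 < l := hl.pos
  have hTm : ((X - C s1) * (X - C s2) * T0).Monic :=
    ((monic_X_sub_C s1).mul (monic_X_sub_C s2)).mul hT0
  have hTd : ((X - C s1) * (X - C s2) * T0).natDegree = 4 := by
    rw [((monic_X_sub_C s1).mul (monic_X_sub_C s2)).natDegree_mul hT0,
      (monic_X_sub_C s1).natDegree_mul (monic_X_sub_C s2), natDegree_X_sub_C,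
      natDegree_X_sub_C, hT0d]
  obtain ⟨w, W, hw0, hW, hroot⟩ := exists_root χ n z l (by omega) hχ hz hl0 hlk P _ hP hTm hTd
    s1 s2 F hF
  obtain ⟨ζ, hζ⟩ := HasEnoughRootsOfUnity.exists_primitiveRoot k l
  have hζ0 : ζ ≠ 0 := hζ.ne_zero hl.ne_zero
  let i : FractionRing k[X] →+* FractionRing (PowerSeries k) :=
    IsFractionRing.lift (ev_injective (k := k) l hl0)
  have hi : ∀ a : k[X], i (algebraMap k[X] (FractionRing k[X]) a) = ev k l a := fun a =>
    IsFractionRing.lift_algebraMap _ a
  have hσ : ∀ a, sg ζ hζ0 (i a) = i a := by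
    have h1 : ((sg ζ hζ0 : FractionRing (PowerSeries k) →+* FractionRing (PowerSeries k)).comp
        i) = i := by
      apply IsLocalization.ringHom_ext (nonZeroDivisors k[X])
      apply Polynomial.ringHom_ext
      · intro c
        simp only [RingHom.comp_apply, RingHom.coe_coe]
        rw [hi, ev, coe_eval₂RingHom, eval₂_C, sg_kap]
      · simp only [RingHom.comp_apply, RingHom.coe_coe]
        rw [hi, ev, coe_eval₂RingHom, eval₂_X, map_pow, map_inv₀, sg_unif, mul_inv, mul_pow,
          ← map_inv₀, ← map_pow, inv_pow, hζ.pow_eq_one, inv_one, map_one, one_mul]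
    intro a
    exact congrArg (fun φ : FractionRing k[X] →+* FractionRing (PowerSeries k) => φ a) h1
  refine exists_cycle (overFrac F) ?_ i (sg ζ hζ0) hσ ((unif k)⁻¹ ^ n *
    algebraMap (PowerSeries k) (FractionRing (PowerSeries k)) W) ?_ l ?_ ?_
  · exact (hFm.map _).ne_zero
  · rw [overFrac, eval₂_map]
    have h2 : i.comp (algebraMap k[X] (FractionRing k[X])) = ev k l := RingHom.ext hi
    rw [h2]
    exact hroot
  · rw [sg_iterate, hζ.pow_eq_one, map_one, PowerSeries.rescale_one]
    simp
  · intro a ha b hb hab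
    rw [sg_iterate, sg_iterate] at hab
    have hu : (unif k)⁻¹ ^ n ≠ 0 := pow_ne_zero _ (inv_ne_zero unif_ne_zero)
    have h3 : (kap k (ζ ^ a))⁻¹ ^ n * algebraMap (PowerSeries k) (FractionRing (PowerSeries k))
          (PowerSeries.rescale (ζ ^ a) W) = (kap k (ζ ^ b))⁻¹ ^ n *
        algebraMap (PowerSeries k) (FractionRing (PowerSeries k))
          (PowerSeries.rescale (ζ ^ b) W) := by
      apply mul_left_cancel₀ hu
      linear_combination hab
    rw [← map_inv₀, ← map_inv₀, ← map_pow, ← map_pow, kap_apply, kap_apply, ← map_mul,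
      ← map_mul] at h3
    have h4 := congrArg PowerSeries.constantCoeff (IsFractionRing.injective (PowerSeries k) _ h3)
    have h5 : ∀ c : k, PowerSeries.constantCoeff (PowerSeries.rescale c W) = w := by
      intro c
      rw [← PowerSeries.coeff_zero_eq_constantCoeff_apply, PowerSeries.coeff_rescale, pow_zero,
        one_mul, PowerSeries.coeff_zero_eq_constantCoeff_apply, hW]
    rw [map_mul, map_mul, PowerSeries.constantCoeff_C, PowerSeries.constantCoeff_C, h5, h5] at h4
    have h6 := mul_right_cancel₀ hw0 h4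
    rw [inv_pow, inv_pow, inv_inj, ← pow_mul, ← pow_mul, mul_comm a n, mul_comm b n, pow_mul,
      pow_mul] at h6
    have hcl : n.Coprime l := by
      have h7 : n.Coprime (l + 4 * n) := by rwa [← hz]
      simpa using h7
    exact (hζ.pow_of_coprime n hcl).pow_inj ha hb h6

end Pool.Agent.K1
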