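import Pool.Agent.K1.M2eg

/-!
Group theory for the second version of the Galois group of the pencil: the length of the cycle
need not be prime (K1-17 of the K1 project).
-/

set_option autoImplicit false

open Polynomial

namespace Pool.Agent.K1

open MulAction Pointwise

/-- K1-17a. Group theory. -/
theorem M2e2_group {α : Type*} [Fintype α] [DecidableEq α] (G : Subgroup (Equiv.Perm α))
    (htr : MulAction.IsPretransitive G α) (l : ℕ) (hl : 2 ≤ l) (hcard : Fintype.card α < 2 * l)
    (hcard' : l + 1 ≤ Fintype.card α) (hco : l.Coprime (Fintype.card α - l))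
    (hbig : (Fintype.card α - l) ^ 2 < l)
    (a b : α) (hab : a ≠ b) (hswap : Equiv.swap a b ∈ G)
    (g : Equiv.Perm α) (hg : g ∈ G) (ρ : ZMod l → α) (hρ : Function.Injective ρ)
    (hgρ : ∀ i, g (ρ i) = ρ (i + 1)) (c : α) (hc : g c = c) : G = ⊤ := by
  classical
  have : NeZero l := ⟨by omega⟩
  let g' : G := ⟨g, hg⟩
  have hpow : ∀ (m : ℕ) (i : ZMod l), (g' ^ m) • ρ i = ρ (i + m) := by
    intro m
    induction m with
    | zero => intro i; simp
    | succ m ih =>
      intro i
      rw [pow_succ, mul_smul]
      have h1 : g' • ρ i = ρ (i + 1) := hgρ i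
      rw [h1, ih]
      congr 1
      push_cast
      ring
  have hOcard : (Set.range ρ).ncard = l := by
    rw [← Set.image_univ, Set.ncard_image_of_injective _ hρ, Set.ncard_univ, Nat.card_zmod]
  have hNcard : (Set.range ρ)ᶜ.ncard = Fintype.card α - l := by
    rw [Set.ncard_compl, hOcard, Nat.card_eq_fintype_card]
  have hprim : IsPreprimitive G α := by
    refine IsPreprimitive.of_isTrivialBlock_base c ?_
    intro B hB0 hB
    have h1 : g' • B = B := by
      refine isBlock_iff_smul_eq_of_mem.1 hB hB0 ?_
      have h2 : g' • c = c := hc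
      rw [h2]
      exact hB0
    have h2 : ∀ m : ℕ, (g' ^ m) • B = B := by
      intro m
      induction m with
      | zero => simp
      | succ m ih => rw [pow_succ, mul_smul, h1, ih]
    by_cases hBO : ∃ i, ρ i ∈ B
    · right
      obtain ⟨i, hi⟩ := hBO
      apply hB.eq_univ_of_card_lt
      have hsub : Set.range ρ ⊆ B := by
        rintro _ ⟨j, rfl⟩
        have h3 := hpow (j - i).val i
        rw [ZMod.natCast_zmod_val, add_sub_cancel] at h3
        rw [← h3, ← h2 (j - i).val]
        exact Set.smul_mem_smul_set hi
      have h5 := Set.ncard_le_ncard hsub (Set.toFinite B)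
      rw [hOcard] at h5
      rw [Nat.card_eq_fintype_card]
      omega
    · left
      push Not at hBO
      have hBc : B ⊆ (Set.range ρ)ᶜ := by
        rintro x hx ⟨i, rfl⟩
        exact hBO i hx
      have hBn : B.ncard ≤ Fintype.card α - l := by
        rw [← hNcard]
        exact Set.ncard_le_ncard hBc (Set.toFinite _)
      obtain ⟨h, hh⟩ := exists_smul_eq G c (ρ 0)
      have hB' : IsBlock G (h • B) := hB.translate h
      have h0 : ρ 0 ∈ h • B := hh ▸ Set.smul_mem_smul_set hB0
      have hn' : (h • B).ncard = B.ncard := Set.ncard_smul_set h B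
      generalize h • B = B' at hB' h0 hn'
      have hst : ∀ i : ZMod l, ρ i ∈ B' → g' ^ i.val • B' = B' := by
        intro i hi
        refine isBlock_iff_smul_eq_of_mem.1 hB' h0 ?_
        rw [hpow, zero_add, ZMod.natCast_zmod_val]
        exact hi
      by_cases hsub : B' ⊆ Set.range ρ
      · let H : AddSubgroup (ZMod l) :=
          { carrier := {i | ρ i ∈ B'}
            zero_mem' := h0
            add_mem' := by
              intro i j hi hj
              have h3 := hpow j.val i
              rw [ZMod.natCast_zmod_val] at h3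
              rw [Set.mem_ofPred_eq, ← h3, ← hst j hj]
              exact Set.smul_mem_smul_set hi
            neg_mem' := by
              intro i hi
              have h3 := hpow i.val (-i)
              rw [ZMod.natCast_zmod_val, neg_add_cancel] at h3
              rw [Set.mem_ofPred_eq, ← Set.smul_mem_smul_set_iff (a := g' ^ i.val), h3, hst i hi]
              exact h0 }
        have hH : Nat.card H = B.ncard := by
          rw [← hn']
          have h3 : B' = ρ '' {i | ρ i ∈ B'} := by
            ext x
            constructor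
            · intro hx
              obtain ⟨i, rfl⟩ := hsub hx
              exact ⟨i, hx, rfl⟩
            · rintro ⟨i, hi, rfl⟩
              exact hi
          rw [h3, Set.ncard_image_of_injective _ hρ]
          rfl
        have h4 : Nat.card H ∣ l := by
          have h5 := AddSubgroup.card_addSubgroup_dvd_card H
          rwa [Nat.card_zmod] at h5
        have h6 : B.ncard ∣ Fintype.card α := by
          rw [← Nat.card_eq_fintype_card]
          exact hB.ncard_dvd_card ⟨c, hB0⟩
        rw [hH] at h4
        have h7 : B.ncard ∣ Fintype.card α - l := Nat.dvd_sub h6 h4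
        have h8 : B.ncard = 1 := Nat.eq_one_of_dvd_coprimes hco h4 h7
        rw [Set.ncard_eq_one] at h8
        obtain ⟨x, hx⟩ := h8
        rw [hx]
        exact Set.subsingleton_singleton
      · exfalso
        rw [Set.not_subset] at hsub
        obtain ⟨x, hx, hxO⟩ := hsub
        have hout : ∀ m : ℕ, g' ^ m • x ∈ (Set.range ρ)ᶜ := by
          rintro m ⟨i, hi⟩
          apply hxO
          have h3 := hpow m (i - m)
          rw [sub_add_cancel, hi] at h3
          exact ⟨i - m, smul_left_cancel _ h3⟩
        have h3 := Finset.card_le_mul_card_image (f := fun i : ZMod l => g' ^ i.val • x)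
          Finset.univ (Fintype.card α - l) ?_
        · rw [Finset.card_univ, ZMod.card] at h3
          have h4 : (Finset.univ.image (fun i : ZMod l => g' ^ i.val • x)).card ≤
              Fintype.card α - l := by
            rw [← hNcard, ← Set.ncard_coe_finset]
            refine Set.ncard_le_ncard ?_ (Set.toFinite _)
            intro y hy
            rw [Finset.mem_coe, Finset.mem_image] at hy
            obtain ⟨i, -, rfl⟩ := hy
            exact hout _
          have h5 := Nat.mul_le_mul_left (Fintype.card α - l) h4
          rw [← pow_two] at h5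
          omega
        · intro y hy
          rw [Finset.mem_image] at hy
          obtain ⟨j, -, hj⟩ := hy
          have h4 : (Finset.univ.filter (fun i : ZMod l => g' ^ i.val • x = y)).card ≤
              B.ncard := by
            rw [← hn', ← Set.ncard_smul_set (g' ^ j.val) B',
              ← Finset.card_image_of_injective _ hρ, ← Set.ncard_coe_finset]
            refine Set.ncard_le_ncard ?_ (Set.toFinite _)
            intro w hw
            rw [Finset.mem_coe, Finset.mem_image] at hw
            obtain ⟨i, hi, rfl⟩ := hw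
            rw [Finset.mem_filter] at hi
            have h5 : g' ^ i.val • B' = g' ^ j.val • B' := by
              rcases hB'.smul_eq_smul_or_disjoint (g' ^ i.val) (g' ^ j.val) with h6 | h6
              · exact h6
              · exfalso
                refine Set.disjoint_left.1 h6 (Set.smul_mem_smul_set hx) ?_
                rw [hi.2, ← hj]
                exact Set.smul_mem_smul_set hx
            rw [← h5]
            have h6 := hpow i.val 0
            rw [zero_add, ZMod.natCast_zmod_val] at h6
            rw [← h6]
            exact Set.smul_mem_smul_set h0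
          exact h4.trans hBn
  exact Equiv.Perm.subgroup_eq_top_of_isPreprimitive_of_isSwap_mem hprim (Equiv.swap a b)
    ⟨a, b, hab, rfl⟩ hswap

/-- Full Galois group, from irreducibility, the transposition, and a cycle together with a fixed
root; the length of the cycle need not be prime. -/
theorem M2_fullGal2_of {k : Type} [Field k] (hk2 : (2 : k) ≠ 0)
    (χ : k[X][X]) (n z : ℕ) (hn : 2 ≤ n) (hχ : IsCnz χ n z)
    (h16 : 16 * n ^ 2 ≤ z) (hco : (z - 4 * n).Coprime (4 * n - 2))
    (P T0 : k[X]) (s1 s2 sy : k) (h1y : s1 ≠ sy) (h2y : s2 ≠ sy)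
    (hgy : Good χ sy (P.eval sy))
    (g : k[X]) (hg : χ.eval P = (X - C s1) * (X - C s2) * (X - C sy) ^ 2 * g)
    (hsep : g.Separable) (hgy' : g.eval sy ≠ 0) (hcopT : IsCoprime T0 (χ.eval P))
    (F : k[X][X]) (hFm : F.Monic) (hFd : F.natDegree = z - 2)
    (hF : C (C ((χ.coeff 0).leadingCoeff)) * (X - C (C s1)) * (X - C (C s2)) * F
        = pencil χ P ((X - C s1) * (X - C s2) * T0))
    (hirr : Irreducible (overFrac F))
    (hswap : ∀ g' : k[X], F.map (evalRingHom 0) = (X - C sy) ^ 2 * g' → g'.Separable →
      g'.eval sy ≠ 0 → ((F.eval (C sy)).coeff 1) ≠ 0 →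
      ∃ (gal : (overFrac F).SplittingField ≃ₐ[FractionRing k[X]] (overFrac F).SplittingField)
        (a b : (overFrac F).SplittingField), a ≠ b ∧
        a ∈ (overFrac F).rootSet (overFrac F).SplittingField ∧
        b ∈ (overFrac F).rootSet (overFrac F).SplittingField ∧ gal a = b ∧ gal b = a ∧
        ∀ c ∈ (overFrac F).rootSet (overFrac F).SplittingField, c ≠ a → c ≠ b → gal c = c)
    (hcycle : ∃ (gal : (overFrac F).SplittingField ≃ₐ[FractionRing k[X]]
        (overFrac F).SplittingField)
      (ρ : ZMod (z - 4 * n) → (overFrac F).SplittingField) (c : (overFrac F).SplittingField),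
      Function.Injective ρ ∧
      (∀ i, ρ i ∈ (overFrac F).rootSet (overFrac F).SplittingField) ∧
      (∀ i, gal (ρ i) = ρ (i + 1)) ∧
      c ∈ (overFrac F).rootSet (overFrac F).SplittingField ∧ gal c = c) :
    FullGal F (z - 2) := by
  classical
  have h8 : 8 * n ≤ z := by nlinarith
  set c := (χ.coeff 0).leadingCoeff with hc
  have hc0 : c ≠ 0 := by
    rw [hc, Ne, leadingCoeff_eq_zero]
    intro h
    have h1 := hχ.deg0
    rw [h, natDegree_zero] at h1
    omega
  have hmon : (overFrac F).Monic := hFm.map _
  have hdeg : (overFrac F).natDegree = z - 2 := by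
    rw [hFm.natDegree_map, hFd]
  -- the fibre at lam = 0
  have hF0 : F.map (evalRingHom 0) = (X - C sy) ^ 2 * (C c⁻¹ * g) := by
    have h1 := congrArg (Polynomial.map (evalRingHom (0 : k))) hF
    rw [pencil_map_zero, hg] at h1
    simp only [Polynomial.map_mul, Polynomial.map_sub, map_X, map_C, coe_evalRingHom, eval_C]
      at h1
    have h3 : (X - C s1) * (X - C s2) ≠ 0 :=
      mul_ne_zero (X_sub_C_ne_zero s1) (X_sub_C_ne_zero s2)
    have h4 : C c * F.map (evalRingHom 0) = (X - C sy) ^ 2 * g := by
      apply mul_left_cancel₀ h3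
      linear_combination h1
    have h5 : F.map (evalRingHom 0) = C c⁻¹ * (C c * F.map (evalRingHom 0)) := by
      rw [← mul_assoc, ← C_mul, inv_mul_cancel₀ hc0, C_1, one_mul]
    rw [h5, h4]
    ring
  have hT0y : T0.eval sy ≠ 0 := by
    obtain ⟨u, v, huv⟩ := hcopT
    intro h
    have h1 := congrArg (Polynomial.eval sy) huv
    rw [hg] at h1
    simp [h] at h1
  have hlam : ((F.eval (C sy)).coeff 1) ≠ 0 := by
    have h1 := congrArg (Polynomial.eval (C sy)) hF
    have h2 : (pencil χ P ((X - C s1) * (X - C s2) * T0)).eval (C sy) =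
        (χ.map (evalRingHom sy)).comp (C (P.eval sy) + X * C ((sy - s1) * (sy - s2) * T0.eval sy))
        := by
      rw [pencil_eval_C]
      simp only [eval_mul, eval_sub, eval_X, eval_C]
    rw [h2] at h1
    simp only [eval_mul, eval_sub, eval_X, eval_C, ← C_sub, ← C_mul] at h1
    have h3 := congrArg (fun q : k[X] => q.coeff 1) h1
    simp only [coeff_C_mul] at h3
    rw [coeff_one_comp] at h3
    intro h0
    rw [h0, mul_zero] at h3
    have h4 : (derivative (χ.map (evalRingHom sy))).eval (P.eval sy) ≠ 0 := by
      rw [derivative_map, map_evalRingHom_eval]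
      exact hgy.2
    have h5 : (sy - s1) * (sy - s2) * T0.eval sy ≠ 0 :=
      mul_ne_zero (mul_ne_zero (sub_ne_zero.2 h1y.symm) (sub_ne_zero.2 h2y.symm)) hT0y
    exact mul_ne_zero h4 h5 h3.symm
  have hg'sep : (C c⁻¹ * g).Separable := by
    rw [Separable, derivative_C_mul]
    exact (isCoprime_mul_unit_left (isUnit_C.2 (inv_ne_zero hc0).isUnit) _ _).2 hsep
  have hg'y : (C c⁻¹ * g).eval sy ≠ 0 := by
    rw [eval_mul, eval_C]
    exact mul_ne_zero (inv_ne_zero hc0) hgy'
  have hsepF : (overFrac F).Separable := by
    rw [separable_iff_derivative_ne_zero hirr]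
    intro h
    have h1 : derivative F = 0 := by
      rw [derivative_map] at h
      exact (Polynomial.map_eq_zero_iff (IsFractionRing.injective k[X] (FractionRing k[X]))).1 h
    have h2 : derivative (F.map (evalRingHom (0 : k))) = 0 := by
      rw [derivative_map, h1, Polynomial.map_zero]
    rw [hF0] at h2
    have h3 : (X - C sy) * (2 * (C c⁻¹ * g) + (X - C sy) * derivative (C c⁻¹ * g)) = 0 := by
      rw [← h2]
      generalize C c⁻¹ * g = g'
      rw [derivative_mul, derivative_pow, derivative_sub, derivative_X, derivative_C]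
      simp only [Nat.cast_ofNat, map_ofNat]
      ring
    have h4 := (mul_eq_zero.1 h3).resolve_left (X_sub_C_ne_zero sy)
    have h5 := congrArg (Polynomial.eval sy) h4
    simp only [eval_add, eval_mul, eval_sub, eval_X, eval_C, sub_self, zero_mul, add_zero,
      eval_zero, eval_ofNat] at h5
    rw [eval_mul, eval_C] at hg'y
    exact mul_ne_zero hk2 hg'y h5
  obtain ⟨gal, a, b, hab, ha, hb, hga, hgb, hgc⟩ := hswap (C c⁻¹ * g) hF0 hg'sep hg'y hlam
  obtain ⟨gal2, ρ, r, hρi, hρ, hgρ, hr, hgr⟩ := hcycle
  obtain ⟨π, hπ, hπ'⟩ := exists_galPerm hirr.ne_zero gal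
  obtain ⟨π2, hπ2, hπ2'⟩ := exists_galPerm hirr.ne_zero gal2
  have hcard : Fintype.card ((overFrac F).rootSet (overFrac F).SplittingField) = z - 2 := by
    rw [card_rootSet_eq_natDegree hsepF (SplittingField.splits _), hdeg]
  have hsw : π = Equiv.swap ⟨a, ha⟩ ⟨b, hb⟩ := by
    ext x
    rw [← hπ' x]
    by_cases hxa : x = ⟨a, ha⟩
    · subst hxa
      rw [Equiv.swap_apply_left]
      exact hga
    · by_cases hxb : x = ⟨b, hb⟩
      · subst hxb
        rw [Equiv.swap_apply_right]
        exact hgb
      · rw [Equiv.swap_apply_of_ne_of_ne hxa hxb]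
        exact hgc x x.2 (fun h => hxa (Subtype.ext h)) (fun h => hxb (Subtype.ext h))
  have htop : galPerm (overFrac F) = ⊤ := by
    have hN : z - 2 - (z - 4 * n) = 4 * n - 2 := by omega
    have hl0 : 4 * n ≤ z := by omega
    have hbig : (4 * n - 2) ^ 2 < z - 4 * n := by
      obtain ⟨m, rfl⟩ : ∃ m, n = m + 1 := ⟨n - 1, by omega⟩
      have h1 : 4 * (m + 1) - 2 = 4 * m + 2 := by omega
      rw [h1]
      have h2 : (4 * m + 2) ^ 2 + 4 * (m + 1) < z := by nlinarith
      omega
    refine M2e2_group (galPerm (overFrac F)) (galPerm_transitive hirr hmon) (z - 4 * n)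
      (by omega)
      (by rw [hcard]; omega) (by rw [hcard]; omega) (by rw [hcard, hN]; exact hco)
      (by rw [hcard, hN]; exact hbig) ⟨a, ha⟩ ⟨b, hb⟩
      (fun h => hab (congrArg Subtype.val h)) (hsw ▸ hπ) π2 hπ2
      (fun i => ⟨ρ i, hρ i⟩) ?_ ?_ ⟨r, hr⟩ (Subtype.ext ((hπ2' _).symm.trans hgr))
    · intro i j hij
      exact hρi (congrArg Subtype.val hij)
    · intro i
      apply Subtype.ext
      rw [← hπ2']
      exact hgρ i
  exact exists_list hirr hmon hsepF (z - 2) hdeg htop

end Pool.Agent.K1
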