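import Pool.Agent.K1.M2e2
import Pool.Agent.K1.M2ab
import Pool.Agent.K1.M2c2
import Pool.Agent.K1.M2d2

/-!
The full Galois group of the pencil, in every characteristic (including two).
-/

set_option autoImplicit false

open Polynomial

namespace Pool.Agent.K1

/-- Full Galois group, from irreducibility, the transposition, and a cycle together with a fixed
root; the length of the cycle need not be prime. -/
theorem M2_fullGal3_of {k : Type} [Field k]
    (χ : k[X][X]) (n z : ℕ) (hn : 2 ≤ n) (hχ : IsCnz χ n z)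
    (h16 : 16 * n ^ 2 ≤ z) (hco : (z - 4 * n).Coprime (4 * n - 2))
    (P T0 : k[X]) (s1 s2 sy : k) (h1y : s1 ≠ sy) (h2y : s2 ≠ sy)
    (hgy : Good χ sy (P.eval sy))
    (g : k[X]) (hg : χ.eval P = (X - C s1) * (X - C s2) * (X - C sy) ^ 2 * g)
    (hsep : g.Separable) (hgy' : g.eval sy ≠ 0) (hcopT : IsCoprime T0 (χ.eval P))
    (F : k[X][X]) (hFm : F.Monic) (hFd : F.natDegree = z - 2)
    (hF : C (C ((χ.coeff 0).leadingCoeff)) * (X - C (C s1)) * (X - C (C s2)) * F
        = pencil χ P ((X - C s1) * (X - C s2) * T0))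
    (hirr : Irreducible (overFrac F))
    (hswap : (overFrac F).Separable → ∀ g' : k[X], F.map (evalRingHom 0) = (X - C sy) ^ 2 * g' → g'.Separable →
      g'.eval sy ≠ 0 → ((F.eval (C sy)).coeff 1) ≠ 0 →
      ∃ (gal : (overFrac F).SplittingField ≃ₐ[FractionRing k[X]] (overFrac F).SplittingField)
        (a b : (overFrac F).SplittingField), a ≠ b ∧
        a ∈ (overFrac F).rootSet (overFrac F).SplittingField ∧
        b ∈ (overFrac F).rootSet (overFrac F).SplittingField ∧ gal a = b ∧ gal b = a ∧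
        ∀ c ∈ (overFrac F).rootSet (overFrac F).SplittingField, c ≠ a → c ≠ b → gal c = c)
    (hcycle : ∃ (gal : (overFrac F).SplittingField ≃ₐ[FractionRing k[X]]
        (overFrac F).SplittingField)
      (ρ : ZMod (z - 4 * n) → (overFrac F).SplittingField) (c : (overFrac F).SplittingField),
      Function.Injective ρ ∧
      (∀ i, ρ i ∈ (overFrac F).rootSet (overFrac F).SplittingField) ∧
      (∀ i, gal (ρ i) = ρ (i + 1)) ∧
      c ∈ (overFrac F).rootSet (overFrac F).SplittingField ∧ gal c = c) :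
    FullGal F (z - 2) := by
  classical
  have h8 : 8 * n ≤ z := by nlinarith
  set c := (χ.coeff 0).leadingCoeff with hc
  have hc0 : c ≠ 0 := by
    rw [hc, Ne, leadingCoeff_eq_zero]
    intro h
    have h1 := hχ.deg0
    rw [h, natDegree_zero] at h1
    omega
  have hmon : (overFrac F).Monic := hFm.map _
  have hdeg : (overFrac F).natDegree = z - 2 := by
    rw [hFm.natDegree_map, hFd]
  -- the fibre at lam = 0
  have hF0 : F.map (evalRingHom 0) = (X - C sy) ^ 2 * (C c⁻¹ * g) := by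
    have h1 := congrArg (Polynomial.map (evalRingHom (0 : k))) hF
    rw [pencil_map_zero, hg] at h1
    simp only [Polynomial.map_mul, Polynomial.map_sub, map_X, map_C, coe_evalRingHom, eval_C]
      at h1
    have h3 : (X - C s1) * (X - C s2) ≠ 0 :=
      mul_ne_zero (X_sub_C_ne_zero s1) (X_sub_C_ne_zero s2)
    have h4 : C c * F.map (evalRingHom 0) = (X - C sy) ^ 2 * g := by
      apply mul_left_cancel₀ h3
      linear_combination h1
    have h5 : F.map (evalRingHom 0) = C c⁻¹ * (C c * F.map (evalRingHom 0)) := by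
      rw [← mul_assoc, ← C_mul, inv_mul_cancel₀ hc0, C_1, one_mul]
    rw [h5, h4]
    ring
  have hT0y : T0.eval sy ≠ 0 := by
    obtain ⟨u, v, huv⟩ := hcopT
    intro h
    have h1 := congrArg (Polynomial.eval sy) huv
    rw [hg] at h1
    simp [h] at h1
  have hlam : ((F.eval (C sy)).coeff 1) ≠ 0 := by
    have h1 := congrArg (Polynomial.eval (C sy)) hF
    have h2 : (pencil χ P ((X - C s1) * (X - C s2) * T0)).eval (C sy) =
        (χ.map (evalRingHom sy)).comp (C (P.eval sy) + X * C ((sy - s1) * (sy - s2) * T0.eval sy))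
        := by
      rw [pencil_eval_C]
      simp only [eval_mul, eval_sub, eval_X, eval_C]
    rw [h2] at h1
    simp only [eval_mul, eval_sub, eval_X, eval_C, ← C_sub, ← C_mul] at h1
    have h3 := congrArg (fun q : k[X] => q.coeff 1) h1
    simp only [coeff_C_mul] at h3
    rw [coeff_one_comp] at h3
    intro h0
    rw [h0, mul_zero] at h3
    have h4 : (derivative (χ.map (evalRingHom sy))).eval (P.eval sy) ≠ 0 := by
      rw [derivative_map, map_evalRingHom_eval]
      exact hgy.2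
    have h5 : (sy - s1) * (sy - s2) * T0.eval sy ≠ 0 :=
      mul_ne_zero (mul_ne_zero (sub_ne_zero.2 h1y.symm) (sub_ne_zero.2 h2y.symm)) hT0y
    exact mul_ne_zero h4 h5 h3.symm
  have hg'sep : (C c⁻¹ * g).Separable := by
    rw [Separable, derivative_C_mul]
    exact (isCoprime_mul_unit_left (isUnit_C.2 (inv_ne_zero hc0).isUnit) _ _).2 hsep
  have hg'y : (C c⁻¹ * g).eval sy ≠ 0 := by
    rw [eval_mul, eval_C]
    exact mul_ne_zero (inv_ne_zero hc0) hgy'
  have hsepF : (overFrac F).Separable := by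
    rw [separable_iff_derivative_ne_zero hirr]
    intro h
    have h1 : derivative F = 0 := by
      rw [derivative_map] at h
      exact (Polynomial.map_eq_zero_iff (IsFractionRing.injective k[X] (FractionRing k[X]))).1 h
    have h2 : derivative (F.map (evalRingHom (0 : k))) = 0 := by
      rw [derivative_map, h1, Polynomial.map_zero]
    rw [hF0] at h2
    have h3 : (X - C sy) * (2 * (C c⁻¹ * g) + (X - C sy) * derivative (C c⁻¹ * g)) = 0 := by
      rw [← h2]
      generalize C c⁻¹ * g = g'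
      rw [derivative_mul, derivative_pow, derivative_sub, derivative_X, derivative_C]
      simp only [Nat.cast_ofNat, map_ofNat]
      ring
    have h4 := (mul_eq_zero.1 h3).resolve_left (X_sub_C_ne_zero sy)
    have h5 : (C c⁻¹ * g) ∣ (X - C sy) * derivative (C c⁻¹ * g) :=
      ⟨-2, by linear_combination h4⟩
    have h6 : (C c⁻¹ * g) ∣ (X - C sy) := by
      have h7 : IsCoprime (C c⁻¹ * g) (derivative (C c⁻¹ * g)) := hg'sep
      exact h7.dvd_of_dvd_mul_right h5
    have h8' := natDegree_le_of_dvd h6 (X_sub_C_ne_zero sy)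
    rw [natDegree_X_sub_C] at h8'
    have h9 : ((X - C sy) ^ 2 * (C c⁻¹ * g)).natDegree = z - 2 := by
      rw [← hF0, hFm.natDegree_map, hFd]
    have h10 : ((X - C sy) ^ 2 * (C c⁻¹ * g)).natDegree ≤ 3 := by
      refine natDegree_mul_le.trans ?_
      rw [natDegree_pow, natDegree_X_sub_C]
      omega
    omega
  obtain ⟨gal, a, b, hab, ha, hb, hga, hgb, hgc⟩ := hswap hsepF (C c⁻¹ * g) hF0 hg'sep hg'y hlam
  obtain ⟨gal2, ρ, r, hρi, hρ, hgρ, hr, hgr⟩ := hcycle
  obtain ⟨π, hπ, hπ'⟩ := exists_galPerm hirr.ne_zero gal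
  obtain ⟨π2, hπ2, hπ2'⟩ := exists_galPerm hirr.ne_zero gal2
  have hcard : Fintype.card ((overFrac F).rootSet (overFrac F).SplittingField) = z - 2 := by
    rw [card_rootSet_eq_natDegree hsepF (SplittingField.splits _), hdeg]
  have hsw : π = Equiv.swap ⟨a, ha⟩ ⟨b, hb⟩ := by
    ext x
    rw [← hπ' x]
    by_cases hxa : x = ⟨a, ha⟩
    · subst hxa
      rw [Equiv.swap_apply_left]
      exact hga
    · by_cases hxb : x = ⟨b, hb⟩
      · subst hxb
        rw [Equiv.swap_apply_right]
        exact hgb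
      · rw [Equiv.swap_apply_of_ne_of_ne hxa hxb]
        exact hgc x x.2 (fun h => hxa (Subtype.ext h)) (fun h => hxb (Subtype.ext h))
  have htop : galPerm (overFrac F) = ⊤ := by
    have hN : z - 2 - (z - 4 * n) = 4 * n - 2 := by omega
    have hl0 : 4 * n ≤ z := by omega
    have hbig : (4 * n - 2) ^ 2 < z - 4 * n := by
      obtain ⟨m, rfl⟩ : ∃ m, n = m + 1 := ⟨n - 1, by omega⟩
      have h1 : 4 * (m + 1) - 2 = 4 * m + 2 := by omega
      rw [h1]
      have h2 : (4 * m + 2) ^ 2 + 4 * (m + 1) < z := by nlinarith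
      omega
    refine M2e2_group (galPerm (overFrac F)) (galPerm_transitive hirr hmon) (z - 4 * n)
      (by omega)
      (by rw [hcard]; omega) (by rw [hcard]; omega) (by rw [hcard, hN]; exact hco)
      (by rw [hcard, hN]; exact hbig) ⟨a, ha⟩ ⟨b, hb⟩
      (fun h => hab (congrArg Subtype.val h)) (hsw ▸ hπ) π2 hπ2
      (fun i => ⟨ρ i, hρ i⟩) ?_ ?_ ⟨r, hr⟩ (Subtype.ext ((hπ2' _).symm.trans hgr))
    · intro i j hij
      exact hρi (congrArg Subtype.val hij)
    · intro i
      apply Subtype.ext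
      rw [← hπ2']
      exact hgρ i
  exact exists_list hirr hmon hsepF (z - 2) hdeg htop

/-- Full Galois group, in every characteristic. -/
theorem M2_fullGal3 {k : Type} [Field k] [IsAlgClosed k]
    (χ : k[X][X]) (n z : ℕ) (hn : 2 ≤ n) (hχ : IsCnz χ n z) (hcop : n.Coprime z)
    (h16 : 16 * n ^ 2 ≤ z) (hco : (z - 4 * n).Coprime (4 * n - 2))
    (hlk : ((z - 4 * n : ℕ) : k) ≠ 0)
    (P T0 : k[X]) (s1 s2 sy t : k) (h12 : s1 ≠ s2) (h1y : s1 ≠ sy) (h2y : s2 ≠ sy)
    (hP : P.natDegree ≤ 4) (hT0 : T0.Monic) (hT0d : T0.natDegree = 2)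
    (ht : T0.eval t = 0) (ht' : (derivative T0).eval t ≠ 0) (ht1 : t ≠ s1) (ht2 : t ≠ s2)
    (hsept : (χ.map (evalRingHom t)).Separable)
    (hg1 : Good χ s1 (P.eval s1)) (hg2 : Good χ s2 (P.eval s2)) (hgy : Good χ sy (P.eval sy))
    (g : k[X]) (hg : χ.eval P = (X - C s1) * (X - C s2) * (X - C sy) ^ 2 * g)
    (hsep : g.Separable) (hgy' : g.eval sy ≠ 0) (hcopT : IsCoprime T0 (χ.eval P))
    (F : k[X][X]) (hFm : F.Monic) (hFd : F.natDegree = z - 2)
    (hFc : ∀ i, (F.coeff i).natDegree ≤ n)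
    (hF : C (C ((χ.coeff 0).leadingCoeff)) * (X - C (C s1)) * (X - C (C s2)) * F
        = pencil χ P ((X - C s1) * (X - C s2) * T0)) :
    FullGal F (z - 2) :=
  have h8 : 8 * n ≤ z := by nlinarith
  M2_fullGal3_of χ n z hn hχ h16 hco P T0 s1 s2 sy h1y h2y hgy
    g hg hsep hgy' hcopT F hFm hFd hF
    (M2b_irreducible χ n z hn hχ hcop h8 P T0 s1 s2 h12 hP hT0 hT0d hg1 hg2 hcopT F hFm hFd hF)
    (fun hs g' h1 h2 h3 h4 => M2c_swap' F (z - 2) hFm hFd
      (M2b_irreducible χ n z hn hχ hcop h8 P T0 s1 s2 h12 hP hT0 hT0d hg1 hg2 hcopT F hFm hFd hF)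
      hs sy g' h1 h2 h3 h4)
    (M2d2_cycle χ n z hn hχ hcop h8 hlk P T0 s1 s2 t h12 hP hT0 hT0d ht ht' ht1 ht2 hsept
      F hFm hFd hF)

end Pool.Agent.K1
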