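import Pool.Agent.K1.Defs

/-!
Group theory and the full Galois group of the pencil (K1-08 of the K1 project).
-/

set_option autoImplicit false

open Polynomial

namespace Pool.Agent.K1

section Group

open MulAction Pointwise

/-- M2e. Group theory. -/
theorem M2e_group {α : Type*} [Fintype α] [DecidableEq α] (G : Subgroup (Equiv.Perm α))
    (htr : MulAction.IsPretransitive G α) (l : ℕ) (hl : l.Prime) (hcard : Fintype.card α < 2 * l)
    (hcard' : l + 1 ≤ Fintype.card α)
    (a b : α) (hab : a ≠ b) (hswap : Equiv.swap a b ∈ G)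
    (g : Equiv.Perm α) (hg : g ∈ G) (ρ : ZMod l → α) (hρ : Function.Injective ρ)
    (hgρ : ∀ i, g (ρ i) = ρ (i + 1)) : G = ⊤ := by
  classical
  have : Fact l.Prime := ⟨hl⟩
  let g' : G := ⟨g, hg⟩
  have hpow : ∀ (m : ℕ) (i : ZMod l), (g' ^ m) • ρ i = ρ (i + m) := by
    intro m
    induction m with
    | zero => intro i; simp
    | succ m ih =>
      intro i
      rw [pow_succ, mul_smul]
      have h1 : g' • ρ i = ρ (i + 1) := hgρ i
      rw [h1, ih]
      congr 1
      push_cast
      ring
  have hprim : IsPreprimitive G α := by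
    refine IsPreprimitive.of_isTrivialBlock_base (ρ 0) ?_
    intro B hB0 hB
    have hl0 : g' ^ l • B = B := by
      refine isBlock_iff_smul_eq_of_mem.1 hB hB0 ?_
      rw [hpow]
      simpa using hB0
    by_cases h1 : g' • B = B
    · right
      apply hB.eq_univ_of_card_lt
      have hsub : Set.range ρ ⊆ B := by
        rintro _ ⟨i, rfl⟩
        have h2 : ∀ m : ℕ, (g' ^ m) • B = B := by
          intro m
          induction m with
          | zero => simp
          | succ m ih => rw [pow_succ, mul_smul, h1, ih]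
        have h3 := hpow i.val 0
        rw [zero_add, ZMod.natCast_zmod_val] at h3
        rw [← h3, ← h2 i.val]
        exact Set.smul_mem_smul_set hB0
      have h4 : (Set.range ρ).ncard = l := by
        rw [← Set.image_univ, Set.ncard_image_of_injective _ hρ, Set.ncard_univ,
          Nat.card_zmod]
      have h5 := Set.ncard_le_ncard hsub (Set.toFinite B)
      rw [h4] at h5
      rw [Nat.card_eq_fintype_card]
      omega
    · left
      apply hB.subsingleton_of_card_lt
      rw [Nat.card_eq_fintype_card]
      have hinj : ∀ m : ℕ, 0 < m → m < l → g' ^ m • B ≠ B := by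
        intro m hm hml h2
        apply h1
        have hco : IsCoprime (m : ℤ) (l : ℤ) := by
          rw [Nat.isCoprime_iff_coprime]
          exact (Nat.coprime_of_lt_prime hm.ne' hml hl).symm
        obtain ⟨u, v, huv⟩ := hco
        have hS1 : g' ^ m ∈ stabilizer G B := h2
        have hS2 : g' ^ l ∈ stabilizer G B := hl0
        have h3 : g' = (g' ^ m) ^ u * (g' ^ l) ^ v := by
          rw [← zpow_natCast, ← zpow_natCast, ← zpow_mul, ← zpow_mul, ← zpow_add,
            mul_comm (m : ℤ), mul_comm (l : ℤ), huv, zpow_one]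
        have h4 : g' ∈ stabilizer G B := by
          rw [h3]
          exact Subgroup.mul_mem _ (Subgroup.zpow_mem _ hS1 u) (Subgroup.zpow_mem _ hS2 v)
        exact h4
      have h6 : l ≤ (orbit G B).ncard := by
        let F : Fin l → orbit G B := fun i => ⟨g' ^ (i : ℕ) • B, ⟨g' ^ (i : ℕ), rfl⟩⟩
        have hF : Function.Injective F := by
          intro i j hij
          have h7 : g' ^ (i : ℕ) • B = g' ^ (j : ℕ) • B := congrArg Subtype.val hij
          have key : ∀ i j : Fin l, (i : ℕ) < j → g' ^ (i : ℕ) • B = g' ^ (j : ℕ) • B →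
              False := by
            intro i j hij h
            apply hinj ((j : ℕ) - i) (by omega) (by omega)
            have h8 : g' ^ (j : ℕ) = g' ^ (i : ℕ) * g' ^ ((j : ℕ) - i) := by
              rw [← pow_add]
              congr 1
              omega
            rw [h8, mul_smul] at h
            exact (smul_left_cancel _ h).symm
          rcases lt_trichotomy (i : ℕ) (j : ℕ) with h | h | h
          · exact (key i j h h7).elim
          · exact Fin.ext h
          · exact (key j i h h7.symm).elim
        have hfin : Finite (orbit G B) := Set.toFinite _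
        have h9 := Nat.card_le_card_of_injective F hF
        rw [Nat.card_eq_fintype_card, Fintype.card_fin] at h9
        exact h9
      omega
  exact Equiv.Perm.subgroup_eq_top_of_isPreprimitive_of_isSwap_mem hprim (Equiv.swap a b)
    ⟨a, b, hab, rfl⟩ hswap

end Group

section Galois

variable {K : Type} [Field K]

/-- the permutations of the roots induced by the Galois group -/
def galPerm (f : K[X]) : Subgroup (Equiv.Perm (f.rootSet f.SplittingField)) where
  carrier := {π | ∃ gal : f.SplittingField ≃ₐ[K] f.SplittingField,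
    ∀ x : f.rootSet f.SplittingField, gal x = (π x : f.SplittingField)}
  one_mem' := ⟨AlgEquiv.refl, fun _ => rfl⟩
  mul_mem' := by
    rintro π₁ π₂ ⟨g₁, h₁⟩ ⟨g₂, h₂⟩
    refine ⟨g₂.trans g₁, fun x => ?_⟩
    rw [AlgEquiv.trans_apply, h₂, h₁]
    rfl
  inv_mem' := by
    rintro π ⟨g, h⟩
    refine ⟨g.symm, fun x => ?_⟩
    rw [AlgEquiv.symm_apply_eq, h]
    exact congrArg Subtype.val (π.apply_symm_apply x).symm

theorem gal_mem_rootSet {f : K[X]} (hf : f ≠ 0)
    (gal : f.SplittingField ≃ₐ[K] f.SplittingField) {x : f.SplittingField}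
    (hx : x ∈ f.rootSet f.SplittingField) : gal x ∈ f.rootSet f.SplittingField := by
  rw [mem_rootSet_of_ne hf] at *
  have h6 : (aeval (gal x)) f = gal (aeval x f) := aeval_algHom_apply gal.toAlgHom x f
  rw [h6, hx, map_zero]

/-- every element of the Galois group gives a permutation of the roots -/
theorem exists_galPerm {f : K[X]} (hf : f ≠ 0)
    (gal : f.SplittingField ≃ₐ[K] f.SplittingField) :
    ∃ π ∈ galPerm f, ∀ x : f.rootSet f.SplittingField, gal x = (π x : f.SplittingField) := by
  let π : Equiv.Perm (f.rootSet f.SplittingField) :=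
    { toFun := fun x => ⟨gal x, gal_mem_rootSet hf gal x.2⟩
      invFun := fun x => ⟨gal.symm x, gal_mem_rootSet hf gal.symm x.2⟩
      left_inv := fun x => Subtype.ext (gal.symm_apply_apply x)
      right_inv := fun x => Subtype.ext (gal.apply_symm_apply x) }
  exact ⟨π, ⟨gal, fun _ => rfl⟩, fun _ => rfl⟩

theorem galPerm_transitive {f : K[X]} (hf : Irreducible f) (hm : f.Monic) :
    MulAction.IsPretransitive (galPerm f) (f.rootSet f.SplittingField) := by
  constructor
  intro x y
  have hx : f = minpoly K (x : f.SplittingField) :=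
    minpoly.eq_of_irreducible_of_monic hf ((mem_rootSet_of_ne hf.ne_zero).1 x.2) hm
  have hy : f = minpoly K (y : f.SplittingField) :=
    minpoly.eq_of_irreducible_of_monic hf ((mem_rootSet_of_ne hf.ne_zero).1 y.2) hm
  obtain ⟨g, hg⟩ := (Normal.minpoly_eq_iff_mem_orbit f.SplittingField).mp (hy.symm.trans hx)
  obtain ⟨π, hπ, h⟩ := exists_galPerm hf.ne_zero g
  refine ⟨⟨π, hπ⟩, Subtype.ext ?_⟩
  exact (h x).symm.trans hg

/-- if the Galois group induces all permutations of the roots, a listing of the roots as in
`FullGal` exists -/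
theorem exists_list {f : K[X]} (hf : Irreducible f) (hm : f.Monic) (hsep : f.Separable) (N : ℕ)
    (hN : f.natDegree = N) (htop : galPerm f = ⊤) :
    ∃ T : Fin N → f.SplittingField, Function.Injective T ∧
      f.map (algebraMap K f.SplittingField) = ∏ i, (X - C (T i)) ∧
      ∀ π : Equiv.Perm (Fin N), ∃ g : f.SplittingField ≃ₐ[K] f.SplittingField,
        ∀ i, g (T i) = T (π i) := by
  classical
  have hcard : Fintype.card (f.rootSet f.SplittingField) = N := by
    rw [card_rootSet_eq_natDegree hsep (SplittingField.splits f), hN]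
  let e : Fin N ≃ f.rootSet f.SplittingField := (Fintype.equivFinOfCardEq hcard).symm
  refine ⟨fun i => (e i : f.SplittingField), ?_, ?_, ?_⟩
  · intro i j hij
    exact e.injective (Subtype.ext hij)
  · have h1 := (SplittingField.splits f).eq_prod_roots_of_monic (hm.map _)
    have h2 : (f.map (algebraMap K f.SplittingField)).roots.Nodup := nodup_roots hsep.map
    rw [h1]
    have h3 : ((f.map (algebraMap K f.SplittingField)).roots.map (fun a => X - C a)).prod =
        ∏ a ∈ (f.map (algebraMap K f.SplittingField)).roots.toFinset, (X - C a) := by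
      rw [Finset.prod_multiset_map_count]
      refine Finset.prod_congr rfl fun a ha => ?_
      rw [Multiset.count_eq_one_of_mem h2 (Multiset.mem_toFinset.1 ha), pow_one]
    rw [h3, ← Equiv.prod_comp e.symm]
    rw [← Finset.prod_coe_sort]
    refine Fintype.prod_equiv (Equiv.refl _) _ _ ?_
    intro x
    simp
  · intro π
    obtain ⟨g, hg⟩ : (e.symm.trans (π.trans e)) ∈ galPerm f := by
      rw [htop]
      exact Subgroup.mem_top _
    refine ⟨g, fun i => ?_⟩
    rw [hg]
    simp

end Galois

theorem coeff_one_comp {K : Type*} [Field K] (Q : K[X]) (a b : K) :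
    (Q.comp (C a + X * C b)).coeff 1 = (derivative Q).eval a * b := by
  have h1 : (Q.comp (C a + X * C b)).coeff 1 =
      (derivative (Q.comp (C a + X * C b))).eval 0 := by
    rw [← coeff_zero_eq_eval_zero, coeff_derivative]
    simp
  have h2 : derivative (C a + X * C b : K[X]) = C b := by
    rw [derivative_add, derivative_C, derivative_mul, derivative_X, derivative_C]
    ring
  rw [h1, derivative_comp, h2, eval_mul, eval_C, eval_comp, eval_add, eval_mul, eval_C, eval_X,
    zero_mul, add_zero, mul_comm]

theorem pencil_map_zero {K : Type*} [Field K] (χ : K[X][X]) (P T : K[X]) :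
    (pencil χ P T).map (evalRingHom (0 : K)) = χ.eval P := by
  unfold pencil
  have h1 : (χ.eval₂ (mapRingHom (C : K →+* K[X])) (P.map C + C X * T.map C)).map
      (evalRingHom (0 : K)) = mapRingHom (evalRingHom (0 : K))
        (χ.eval₂ (mapRingHom (C : K →+* K[X])) (P.map C + C X * T.map C)) := rfl
  rw [h1, hom_eval₂]
  have h2 : (mapRingHom (evalRingHom (0 : K))).comp (mapRingHom (C : K →+* K[X])) =
      RingHom.id K[X] := by
    ext x <;> simp
  have h3 : mapRingHom (evalRingHom (0 : K)) (P.map C + C X * T.map C) = P := by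
    rw [map_add, map_mul]
    simp only [coe_mapRingHom, map_map, map_C, coe_evalRingHom, eval_X, C_0, zero_mul, add_zero]
    have h4 : (evalRingHom (0 : K)).comp C = RingHom.id K := by
      ext x
      simp
    rw [h4, map_id]
  rw [h2, h3]
  rfl

theorem pencil_eval_C {K : Type*} [Field K] (χ : K[X][X]) (P T : K[X]) (s : K) :
    (pencil χ P T).eval (C s) =
      (χ.map (evalRingHom s)).comp (C (P.eval s) + X * C (T.eval s)) := by
  unfold pencil
  have h1 : (χ.eval₂ (mapRingHom (C : K →+* K[X])) (P.map C + C X * T.map C)).eval (C s) =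
      evalRingHom (C s)
        (χ.eval₂ (mapRingHom (C : K →+* K[X])) (P.map C + C X * T.map C)) := rfl
  rw [h1, hom_eval₂]
  have h5 : ∀ q : K[X], (q.map (C : K →+* K[X])).eval (C s) = C (q.eval s) := by
    intro q
    rw [eval_map, eval₂_at_apply]
  have h2 : (evalRingHom (C s)).comp (mapRingHom (C : K →+* K[X])) =
      (C : K →+* K[X]).comp (evalRingHom s) := by
    apply RingHom.ext
    intro q
    simp only [RingHom.comp_apply, coe_evalRingHom, coe_mapRingHom]
    exact h5 q
  have h3 : evalRingHom (C s) (P.map C + C X * T.map C) = C (P.eval s) + X * C (T.eval s) := by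
    rw [map_add, map_mul]
    simp only [coe_evalRingHom, eval_C]
    rw [h5, h5]
  rw [h2, h3, comp, eval₂_map]

/-- M2. Full Galois group, from irreducibility, the transposition and the cycle. -/
theorem M2_fullGal_of {k : Type} [Field k] (hk2 : (2 : k) ≠ 0)
    (χ : k[X][X]) (n z : ℕ) (hn : 2 ≤ n) (hχ : IsCnz χ n z)
    (h8 : 8 * n ≤ z) (hl : (z - 4 * n).Prime)
    (P T0 : k[X]) (s1 s2 sy : k) (h1y : s1 ≠ sy) (h2y : s2 ≠ sy)
    (hgy : Good χ sy (P.eval sy))
    (g : k[X]) (hg : χ.eval P = (X - C s1) * (X - C s2) * (X - C sy) ^ 2 * g)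
    (hsep : g.Separable) (hgy' : g.eval sy ≠ 0) (hcopT : IsCoprime T0 (χ.eval P))
    (F : k[X][X]) (hFm : F.Monic) (hFd : F.natDegree = z - 2)
    (hF : C (C ((χ.coeff 0).leadingCoeff)) * (X - C (C s1)) * (X - C (C s2)) * F
        = pencil χ P ((X - C s1) * (X - C s2) * T0))
    (hirr : Irreducible (overFrac F))
    (hswap : ∀ g' : k[X], F.map (evalRingHom 0) = (X - C sy) ^ 2 * g' → g'.Separable →
      g'.eval sy ≠ 0 → ((F.eval (C sy)).coeff 1) ≠ 0 →
      ∃ (gal : (overFrac F).SplittingField ≃ₐ[FractionRing k[X]] (overFrac F).SplittingField)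
        (a b : (overFrac F).SplittingField), a ≠ b ∧
        a ∈ (overFrac F).rootSet (overFrac F).SplittingField ∧
        b ∈ (overFrac F).rootSet (overFrac F).SplittingField ∧ gal a = b ∧ gal b = a ∧
        ∀ c ∈ (overFrac F).rootSet (overFrac F).SplittingField, c ≠ a → c ≠ b → gal c = c)
    (hcycle : ∃ (gal : (overFrac F).SplittingField ≃ₐ[FractionRing k[X]]
        (overFrac F).SplittingField)
      (ρ : ZMod (z - 4 * n) → (overFrac F).SplittingField), Function.Injective ρ ∧
      (∀ i, ρ i ∈ (overFrac F).rootSet (overFrac F).SplittingField) ∧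
      ∀ i, gal (ρ i) = ρ (i + 1)) :
    FullGal F (z - 2) := by
  classical
  set c := (χ.coeff 0).leadingCoeff with hc
  have hc0 : c ≠ 0 := by
    rw [hc, Ne, leadingCoeff_eq_zero]
    intro h
    have h1 := hχ.deg0
    rw [h, natDegree_zero] at h1
    omega
  have hmon : (overFrac F).Monic := hFm.map _
  have hdeg : (overFrac F).natDegree = z - 2 := by
    rw [hFm.natDegree_map, hFd]
  -- the fibre at lam = 0
  have hF0 : F.map (evalRingHom 0) = (X - C sy) ^ 2 * (C c⁻¹ * g) := by
    have h1 := congrArg (Polynomial.map (evalRingHom (0 : k))) hF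
    rw [pencil_map_zero, hg] at h1
    simp only [Polynomial.map_mul, Polynomial.map_sub, map_X, map_C, coe_evalRingHom, eval_C]
      at h1
    have h3 : (X - C s1) * (X - C s2) ≠ 0 :=
      mul_ne_zero (X_sub_C_ne_zero s1) (X_sub_C_ne_zero s2)
    have h4 : C c * F.map (evalRingHom 0) = (X - C sy) ^ 2 * g := by
      apply mul_left_cancel₀ h3
      linear_combination h1
    have h5 : F.map (evalRingHom 0) = C c⁻¹ * (C c * F.map (evalRingHom 0)) := by
      rw [← mul_assoc, ← C_mul, inv_mul_cancel₀ hc0, C_1, one_mul]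
    rw [h5, h4]
    ring
  have hT0y : T0.eval sy ≠ 0 := by
    obtain ⟨u, v, huv⟩ := hcopT
    intro h
    have h1 := congrArg (Polynomial.eval sy) huv
    rw [hg] at h1
    simp [h] at h1
  have hlam : ((F.eval (C sy)).coeff 1) ≠ 0 := by
    have h1 := congrArg (Polynomial.eval (C sy)) hF
    have h2 : (pencil χ P ((X - C s1) * (X - C s2) * T0)).eval (C sy) =
        (χ.map (evalRingHom sy)).comp (C (P.eval sy) + X * C ((sy - s1) * (sy - s2) * T0.eval sy))
        := by
      rw [pencil_eval_C]
      simp only [eval_mul, eval_sub, eval_X, eval_C]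
    rw [h2] at h1
    simp only [eval_mul, eval_sub, eval_X, eval_C, ← C_sub, ← C_mul] at h1
    have h3 := congrArg (fun q : k[X] => q.coeff 1) h1
    simp only [coeff_C_mul] at h3
    rw [coeff_one_comp] at h3
    intro h0
    rw [h0, mul_zero] at h3
    have h4 : (derivative (χ.map (evalRingHom sy))).eval (P.eval sy) ≠ 0 := by
      rw [derivative_map, map_evalRingHom_eval]
      exact hgy.2
    have h5 : (sy - s1) * (sy - s2) * T0.eval sy ≠ 0 :=
      mul_ne_zero (mul_ne_zero (sub_ne_zero.2 h1y.symm) (sub_ne_zero.2 h2y.symm)) hT0y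
    exact mul_ne_zero h4 h5 h3.symm
  have hg'sep : (C c⁻¹ * g).Separable := by
    rw [Separable, derivative_C_mul]
    exact (isCoprime_mul_unit_left (isUnit_C.2 (inv_ne_zero hc0).isUnit) _ _).2 hsep
  have hg'y : (C c⁻¹ * g).eval sy ≠ 0 := by
    rw [eval_mul, eval_C]
    exact mul_ne_zero (inv_ne_zero hc0) hgy'
  have hsepF : (overFrac F).Separable := by
    rw [separable_iff_derivative_ne_zero hirr]
    intro h
    have h1 : derivative F = 0 := by
      rw [derivative_map] at h
      exact (Polynomial.map_eq_zero_iff (IsFractionRing.injective k[X] (FractionRing k[X]))).1 h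
    have h2 : derivative (F.map (evalRingHom (0 : k))) = 0 := by
      rw [derivative_map, h1, Polynomial.map_zero]
    rw [hF0] at h2
    have h3 : (X - C sy) * (2 * (C c⁻¹ * g) + (X - C sy) * derivative (C c⁻¹ * g)) = 0 := by
      rw [← h2]
      generalize C c⁻¹ * g = g'
      rw [derivative_mul, derivative_pow, derivative_sub, derivative_X, derivative_C]
      simp only [Nat.cast_ofNat, map_ofNat]
      ring
    have h4 := (mul_eq_zero.1 h3).resolve_left (X_sub_C_ne_zero sy)
    have h5 := congrArg (Polynomial.eval sy) h4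
    simp only [eval_add, eval_mul, eval_sub, eval_X, eval_C, sub_self, zero_mul, add_zero,
      eval_zero, eval_ofNat] at h5
    rw [eval_mul, eval_C] at hg'y
    exact mul_ne_zero hk2 hg'y h5
  obtain ⟨gal, a, b, hab, ha, hb, hga, hgb, hgc⟩ := hswap (C c⁻¹ * g) hF0 hg'sep hg'y hlam
  obtain ⟨gal2, ρ, hρi, hρ, hgρ⟩ := hcycle
  obtain ⟨π, hπ, hπ'⟩ := exists_galPerm hirr.ne_zero gal
  obtain ⟨π2, hπ2, hπ2'⟩ := exists_galPerm hirr.ne_zero gal2
  have hcard : Fintype.card ((overFrac F).rootSet (overFrac F).SplittingField) = z - 2 := by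
    rw [card_rootSet_eq_natDegree hsepF (SplittingField.splits _), hdeg]
  have hsw : π = Equiv.swap ⟨a, ha⟩ ⟨b, hb⟩ := by
    ext x
    rw [← hπ' x]
    by_cases hxa : x = ⟨a, ha⟩
    · subst hxa
      rw [Equiv.swap_apply_left]
      exact hga
    · by_cases hxb : x = ⟨b, hb⟩
      · subst hxb
        rw [Equiv.swap_apply_right]
        exact hgb
      · rw [Equiv.swap_apply_of_ne_of_ne hxa hxb]
        exact hgc x x.2 (fun h => hxa (Subtype.ext h)) (fun h => hxb (Subtype.ext h))
  have htop : galPerm (overFrac F) = ⊤ := by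
    refine M2e_group (galPerm (overFrac F)) (galPerm_transitive hirr hmon) (z - 4 * n) hl
      (by rw [hcard]; omega) (by rw [hcard]; omega) ⟨a, ha⟩ ⟨b, hb⟩
      (fun h => hab (congrArg Subtype.val h)) (hsw ▸ hπ) π2 hπ2
      (fun i => ⟨ρ i, hρ i⟩) ?_ ?_
    · intro i j hij
      exact hρi (congrArg Subtype.val hij)
    · intro i
      apply Subtype.ext
      rw [← hπ2']
      exact hgρ i
  exact exists_list hirr hmon hsepF (z - 2) hdeg htop

end Pool.Agent.K1
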