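import Pool.Agent.K1.M2eg
import Pool.Agent.K1.M2ab
import Pool.Agent.K1.M2c
import Pool.Agent.K1.M2d

/-!
The full Galois group of the pencil.
-/

set_option autoImplicit false

open Polynomial

namespace Pool.Agent.K1

/-- M2. Full Galois group. -/
theorem M2_fullGal {k : Type} [Field k] [IsAlgClosed k] (hk2 : (2 : k) ≠ 0)
    (χ : k[X][X]) (n z : ℕ) (hn : 2 ≤ n) (hχ : IsCnz χ n z) (hcop : n.Coprime z)
    (h8 : 8 * n ≤ z) (hl : (z - 4 * n).Prime) (hlk : ((z - 4 * n : ℕ) : k) ≠ 0)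
    (P T0 : k[X]) (s1 s2 sy : k) (h12 : s1 ≠ s2) (h1y : s1 ≠ sy) (h2y : s2 ≠ sy)
    (hP : P.natDegree ≤ 4) (hT0 : T0.Monic) (hT0d : T0.natDegree = 2)
    (hg1 : Good χ s1 (P.eval s1)) (hg2 : Good χ s2 (P.eval s2)) (hgy : Good χ sy (P.eval sy))
    (g : k[X]) (hg : χ.eval P = (X - C s1) * (X - C s2) * (X - C sy) ^ 2 * g)
    (hsep : g.Separable) (hgy' : g.eval sy ≠ 0) (hcopT : IsCoprime T0 (χ.eval P))
    (F : k[X][X]) (hFm : F.Monic) (hFd : F.natDegree = z - 2)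
    (hFc : ∀ i, (F.coeff i).natDegree ≤ n)
    (hF : C (C ((χ.coeff 0).leadingCoeff)) * (X - C (C s1)) * (X - C (C s2)) * F
        = pencil χ P ((X - C s1) * (X - C s2) * T0)) :
    FullGal F (z - 2) :=
  M2_fullGal_of hk2 χ n z hn hχ h8 hl P T0 s1 s2 sy h1y h2y hgy
    g hg hsep hgy' hcopT F hFm hFd hF
    (M2b_irreducible χ n z hn hχ hcop h8 P T0 s1 s2 h12 hP hT0 hT0d hg1 hg2 hcopT F hFm hFd hF)
    (fun g' h1 h2 h3 h4 => M2c_swap hk2 F (z - 2) hFm hFd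
      (M2b_irreducible χ n z hn hχ hcop h8 P T0 s1 s2 h12 hP hT0 hT0d hg1 hg2 hcopT F hFm hFd hF)
      sy g' h1 h2 h3 h4)
    (M2d_cycle χ n z hn hχ hcop h8 hl hlk P T0 s1 s2 h12 hP hT0 hT0d F hFm hFd hF)

end Pool.Agent.K1
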