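import Pool.Agent.K1.Defs

/-!
# K1 project, M3a: the number of split parabolas through two good points
-/

open Polynomial

namespace Pool.Agent.K1

namespace M3a

/-! ### Specialisation and base change of the pencil -/

theorem pencil_eval {K : Type*} [Field K] (χ : K[X][X]) (P T : K[X]) (lam : K) :
    (pencil χ P T).map (evalRingHom lam) = χ.eval (P + C lam * T) := by
  unfold pencil
  rw [← coe_mapRingHom, hom_eval₂]
  have h1 : (mapRingHom (evalRingHom lam)).comp (mapRingHom (C : K →+* K[X])) = RingHom.id _ := by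
    ext <;> simp
  have h2 : (mapRingHom (evalRingHom lam)) (P.map C + C X * T.map C) = P + C lam * T := by
    have h3 : ∀ A : K[X], mapRingHom (evalRingHom lam) (A.map C) = A := by
      intro A
      have : (mapRingHom (evalRingHom lam)) (mapRingHom (C : K →+* K[X]) A) = A := by
        rw [← RingHom.comp_apply, h1, RingHom.id_apply]
      simpa using this
    rw [map_add, map_mul, h3, h3]
    simp
  rw [h1, h2]
  rfl

theorem pencil_map {K k : Type*} [Field K] [Field k] (φ : K →+* k) (χ : K[X][X]) (P T : K[X]) :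
    (pencil χ P T).map (mapRingHom φ) = pencil (χ.map (mapRingHom φ)) (P.map φ) (T.map φ) := by
  unfold pencil
  rw [← coe_mapRingHom, hom_eval₂, coe_mapRingHom, eval₂_map]
  have h1 : (mapRingHom (mapRingHom φ)).comp (mapRingHom (C : K →+* K[X])) =
      (mapRingHom (C : k →+* k[X])).comp (mapRingHom φ) := by
    ext <;> simp
  rw [h1]
  congr 1
  have h3 : ∀ A : K[X], (A.map C).map (mapRingHom φ) = (A.map φ).map C := by
    intro A
    have : (mapRingHom (mapRingHom φ)) (mapRingHom (C : K →+* K[X]) A) =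
        mapRingHom (C : k →+* k[X]) (mapRingHom φ A) := by
      rw [← RingHom.comp_apply, h1, RingHom.comp_apply]
    simpa using this
  rw [Polynomial.map_add, Polynomial.map_mul, h3, h3]
  simp

theorem cnz_map {K k : Type*} [Field K] [Field k] (φ : K →+* k) {χ : K[X][X]} {n z : ℕ}
    (h : IsCnz χ n z) : IsCnz (χ.map (mapRingHom φ)) n z := by
  have hd : ∀ j, ((χ.map (mapRingHom φ)).coeff j).natDegree = (χ.coeff j).natDegree := by
    intro j
    rw [coeff_map, coe_mapRingHom, natDegree_map]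
  refine ⟨h.monic.map _, ?_, ?_, ?_⟩
  · rw [h.monic.natDegree_map, h.natDegree]
  · rw [hd, h.deg0]
  · intro j h1 h2
    rw [hd]
    exact h.lt j h1 h2

theorem evalEval_map {K k : Type*} [Field K] [Field k] (φ : K →+* k) (χ : K[X][X]) (s y : K) :
    (χ.map (mapRingHom φ)).evalEval (φ s) (φ y) = φ (χ.evalEval s y) := by
  exact map_mapRingHom_evalEval φ χ s y

theorem good_map {K k : Type*} [Field K] [Field k] (φ : K →+* k) {χ : K[X][X]} {s y : K}
    (h : Good χ s y) : Good (χ.map (mapRingHom φ)) (φ s) (φ y) := by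
  refine ⟨?_, ?_⟩
  · rw [evalEval_map, h.1, map_zero]
  · rw [derivative_map, evalEval_map]
    intro h0
    exact h.2 ((map_eq_zero φ).1 h0)

theorem eval_map_map {K k : Type*} [Field K] [Field k] (φ : K →+* k) (χ : K[X][X]) (P : K[X]) :
    (χ.map (mapRingHom φ)).eval (P.map φ) = (χ.eval P).map φ := by
  rw [← coe_mapRingHom φ, eval_map_apply]

theorem evalEval_eq {K : Type*} [Field K] (χ : K[X][X]) (P : K[X]) (s : K) :
    χ.evalEval s (P.eval s) = (χ.eval P).eval s := by
  have h := hom_eval₂ χ (RingHom.id K[X]) (evalRingHom s) P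
  rw [RingHom.comp_id, eval₂_evalRingHom] at h
  exact h.symm


/-! ### The number of bad points -/

theorem natDegree_det_le {K : Type*} [Field K] {m : Type*} [Fintype m] [DecidableEq m]
    (M : Matrix m m K[X]) (d : ℕ) (h : ∀ i j, (M i j).natDegree ≤ d) :
    M.det.natDegree ≤ Fintype.card m * d := by
  rw [Matrix.det_apply]
  refine natDegree_sum_le_of_forall_le _ _ ?_
  intro σ _
  have h1 : (Equiv.Perm.sign σ • ∏ i, M (σ i) i).natDegree ≤ (∏ i, M (σ i) i).natDegree := by
    rcases Int.units_eq_one_or (Equiv.Perm.sign σ) with h | h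
    · rw [h, one_smul]
    · rw [h, Units.neg_smul, one_smul, natDegree_neg]
  refine h1.trans ((natDegree_prod_le _ _).trans ?_)
  refine (Finset.sum_le_card_nsmul _ _ d (fun i _ => h _ _)).trans ?_
  simp

theorem natDegree_resultant_le {K : Type*} [Field K] (f g : K[X][X]) (m n d : ℕ)
    (hf : ∀ i, (f.coeff i).natDegree ≤ d) (hg : ∀ i, (g.coeff i).natDegree ≤ d) :
    (resultant f g m n).natDegree ≤ (m + n) * d := by
  have := natDegree_det_le (sylvester f g m n) d ?_
  · rwa [Fintype.card_fin] at this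
  · intro i j
    unfold sylvester
    rw [Matrix.of_apply]
    refine Fin.addCases (fun j₁ => ?_) (fun j₁ => ?_) j
    · rw [Fin.addCases_left]
      split_ifs
      · exact hg _
      · simp
    · rw [Fin.addCases_right]
      split_ifs
      · exact hf _
      · simp

theorem coeff_le {K : Type*} [Field K] {χ : K[X][X]} {n z : ℕ} (hn : 1 ≤ n)
    (h : IsCnz χ n z) (i : ℕ) : (χ.coeff i).natDegree ≤ z := by
  rcases Nat.lt_trichotomy i n with hi | hi | hi
  · rcases Nat.eq_zero_or_pos i with h0 | h0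
    · rw [h0, h.deg0]
    · have := h.lt i h0 hi
      have h1 : n * (χ.coeff i).natDegree < n * z := by omega
      exact (Nat.lt_of_mul_lt_mul_left h1).le
  · rw [hi, ← h.natDegree, coeff_natDegree, h.monic.leadingCoeff, natDegree_one]
    exact Nat.zero_le _
  · rw [coeff_eq_zero_of_natDegree_lt (by rw [h.natDegree]; exact hi), natDegree_zero]
    exact Nat.zero_le _

theorem deriv_coeff_le {K : Type*} [Field K] {χ : K[X][X]} {n z : ℕ} (hn : 1 ≤ n)
    (h : IsCnz χ n z) (i : ℕ) : ((derivative χ).coeff i).natDegree ≤ z := by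
  rw [coeff_derivative]
  have h2 : ((i : K[X]) + 1) = C ((i : K) + 1) := by simp
  rw [h2]
  exact (natDegree_mul_C_le _ _).trans (coeff_le hn h (i + 1))

theorem exists_res {K : Type*} [Field K] (χ : K[X][X]) (n z : ℕ) (hn : 1 ≤ n)
    (hχ : IsCnz χ n z) (hirr0 : Irreducible χ) (hd : derivative χ ≠ 0) :
    ∃ r : K[X], r ≠ 0 ∧ r.natDegree ≤ 2 * n * z ∧
      ∀ s y, χ.evalEval s y = 0 → (derivative χ).evalEval s y = 0 → r.eval s = 0 := by
  refine ⟨resultant χ (derivative χ), ?_, ?_, ?_⟩
  · intro h0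
    have hinj : Function.Injective (algebraMap K[X] (FractionRing K[X])) :=
      IsFractionRing.injective _ _
    have h1 := resultant_map_map χ (derivative χ) χ.natDegree (derivative χ).natDegree
      (algebraMap K[X] (FractionRing K[X]))
    rw [h0, map_zero] at h1
    have d1 : (χ.map (algebraMap K[X] (FractionRing K[X]))).natDegree = χ.natDegree :=
      natDegree_map_eq_of_injective hinj _
    have d2 : ((derivative χ).map (algebraMap K[X] (FractionRing K[X]))).natDegree =
        (derivative χ).natDegree := natDegree_map_eq_of_injective hinj _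
    rw [← d1, ← d2] at h1
    have h2 := (resultant_eq_zero_iff.1 h1).2
    apply h2
    have hirr : Irreducible (χ.map (algebraMap K[X] (FractionRing K[X]))) :=
      (hχ.monic.irreducible_iff_irreducible_map_fraction_map).1 hirr0
    rw [hirr.coprime_iff_not_dvd]
    intro hdvd
    have h3 : (derivative χ).map (algebraMap K[X] (FractionRing K[X])) ≠ 0 := by
      rwa [Ne, Polynomial.map_eq_zero_iff hinj]
    have h4 := natDegree_le_of_dvd hdvd h3
    rw [d1, d2] at h4
    have h5 : (derivative χ).natDegree < χ.natDegree := by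
      apply natDegree_derivative_lt
      rw [hχ.natDegree]; omega
    omega
  · refine (natDegree_resultant_le χ (derivative χ) _ _ z (coeff_le hn hχ)
      (deriv_coeff_le hn hχ)).trans ?_
    have h1 : (derivative χ).natDegree ≤ n - 1 := by
      rw [← hχ.natDegree]; exact natDegree_derivative_le χ
    rw [hχ.natDegree]
    exact Nat.mul_le_mul_right _ (by omega)
  · intro s y h1 h2
    obtain ⟨a, b, -, -, hab⟩ := exists_mul_add_mul_eq_C_resultant χ (derivative χ)
      (m := χ.natDegree) (n := (derivative χ).natDegree) le_rfl le_rfl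
      (by left; rw [hχ.natDegree]; omega)
    have h3 := congrArg (fun q : K[X][X] => q.evalEval s y) hab
    simp only [evalEval_add, evalEval_mul, h1, h2, zero_mul, add_zero, evalEval_C] at h3
    exact h3.symm

open Classical in
theorem card_bad {K : Type*} [Field K] [Fintype K] (χ : K[X][X]) (n z : ℕ) (hn : 1 ≤ n)
    (hχ : IsCnz χ n z) (hirr0 : Irreducible χ) (hd : derivative χ ≠ 0) :
    (Finset.univ.filter (fun x : K × K => χ.evalEval x.1 x.2 = 0 ∧
      (derivative χ).evalEval x.1 x.2 = 0)).card ≤ n * (2 * n * z) := by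
  obtain ⟨r, hr0, hrd, hr⟩ := exists_res χ n z hn hχ hirr0 hd
  have h1 := Finset.card_le_mul_card_image_of_maps_to (f := fun x : K × K => x.1)
    (s := Finset.univ.filter (fun x : K × K => χ.evalEval x.1 x.2 = 0 ∧
      (derivative χ).evalEval x.1 x.2 = 0)) (t := r.roots.toFinset) (by
        intro x hx
        rw [Finset.mem_filter] at hx
        rw [Multiset.mem_toFinset, mem_roots hr0, IsRoot.def]
        exact hr _ _ hx.2.1 hx.2.2) n (by
        intro s hs
        have hm : (χ.map (evalRingHom s)).Monic := hχ.monic.map _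
        have hdeg : (χ.map (evalRingHom s)).natDegree = n := by
          rw [hχ.monic.natDegree_map, hχ.natDegree]
        refine (Finset.card_le_card_of_injOn (t := (χ.map (evalRingHom s)).roots.toFinset)
          (fun x : K × K => x.2) ?_ ?_).trans ?_
        · intro x hx
          rw [Finset.mem_coe, Finset.mem_filter, Finset.mem_filter] at hx
          rw [Finset.mem_coe, Multiset.mem_toFinset, mem_roots hm.ne_zero, IsRoot.def]
          have h2 := hx.1.2.1
          rw [hx.2, ← eval₂_evalRingHom] at h2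
          rw [eval_map]
          exact h2
        · intro x hx x' hx' he
          rw [Finset.mem_coe, Finset.mem_filter] at hx hx'
          exact Prod.ext (hx.2.trans hx'.2.symm) he
        · refine (Multiset.toFinset_card_le _).trans ((card_roots' _).trans ?_)
          rw [hdeg])
  refine h1.trans (Nat.mul_le_mul_left _ ?_)
  exact (Multiset.toFinset_card_le _).trans ((card_roots' _).trans hrd)

/-! ### Linear conditions -/

/-- The polynomial of degree at most two with coefficients `t`. -/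
noncomputable def quad {K : Type*} [Field K] (t : K × K × K) : K[X] :=
  C t.1 * X ^ 2 + C t.2.1 * X + C t.2.2

theorem quad_eval {K : Type*} [Field K] (t : K × K × K) (s : K) :
    (quad t).eval s = t.1 * s ^ 2 + t.2.1 * s + t.2.2 := by
  simp [quad]

theorem card_linear {K : Type*} [Field K] [Fintype K] (A : Finset (K × K × K)) (s : K)
    (h : ∀ t ∈ A, ∀ t' ∈ A, (quad t).eval s = (quad t').eval s) :
    A.card ≤ Fintype.card K ^ 2 := by
  classical
  have h1 : A.card ≤ (Finset.univ : Finset (K × K)).card := by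
    refine Finset.card_le_card_of_injOn (fun t => (t.1, t.2.1)) (fun t _ => Finset.mem_univ _) ?_
    intro t ht t' ht' he
    have h2 := h t ht t' ht'
    rw [quad_eval, quad_eval] at h2
    simp only [Prod.mk.injEq] at he
    rw [he.1, he.2] at h2
    exact Prod.ext he.1 (Prod.ext he.2 (add_left_cancel h2))
  rw [Finset.card_univ, Fintype.card_prod] at h1
  rw [sq]; exact h1

theorem quad_smul {K : Type*} [Field K] (lam b c : K) :
    C lam * quad (1, b, c) = quad (lam, lam * b, lam * c) := by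
  simp only [quad, C_mul, C_1]
  ring

theorem quad_monic {K : Type*} [Field K] (b c : K) : (quad (1, b, c)).Monic := by
  have h : quad (1, b, c) = X ^ 2 + (C b * X + C c) := by
    simp only [quad, C_1]
    ring
  rw [h]
  apply monic_X_pow_add
  refine (degree_linear_le).trans_lt ?_
  norm_num

theorem quad_natDegree {K : Type*} [Field K] (b c : K) : (quad (1, b, c)).natDegree = 2 := by
  rw [quad]
  exact natDegree_quadratic one_ne_zero

theorem quad_natDegree_le {K : Type*} [Field K] (t : K × K × K) : (quad t).natDegree ≤ 2 :=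
  natDegree_quadratic_le

/-- Two members of the family that are tangent to the curve at `s1` have the same slope. -/
theorem tangent {K : Type*} [Field K] (χ : K[X][X]) (s1 s2 : K) (h12 : s1 ≠ s2)
    (P U U' : K[X]) (hg : Good χ s1 (P.eval s1))
    (h : (X - C s1) ^ 2 ∣ χ.eval (P + (X - C s1) * (X - C s2) * U))
    (h' : (X - C s1) ^ 2 ∣ χ.eval (P + (X - C s1) * (X - C s2) * U')) :
    U.eval s1 = U'.eval s1 := by
  obtain ⟨k, hk⟩ := binomExpansion χ (P + (X - C s1) * (X - C s2) * U')
    ((X - C s1) * (X - C s2) * (U - U'))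
  have e1 : P + (X - C s1) * (X - C s2) * U' + (X - C s1) * (X - C s2) * (U - U') =
      P + (X - C s1) * (X - C s2) * U := by ring
  rw [e1] at hk
  have h3 : (X - C s1) ^ 2 ∣ (derivative χ).eval (P + (X - C s1) * (X - C s2) * U') *
      ((X - C s1) * (X - C s2) * (U - U')) := by
    have e2 : (derivative χ).eval (P + (X - C s1) * (X - C s2) * U') *
      ((X - C s1) * (X - C s2) * (U - U')) = χ.eval (P + (X - C s1) * (X - C s2) * U) -
        χ.eval (P + (X - C s1) * (X - C s2) * U') -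
        (X - C s1) ^ 2 * (k * ((X - C s2) * (U - U')) ^ 2) := by
      rw [hk]; ring
    rw [e2]
    exact dvd_sub (dvd_sub h h') (dvd_mul_right _ _)
  have h4 : (X - C s1) ∣ (derivative χ).eval (P + (X - C s1) * (X - C s2) * U') *
      ((X - C s2) * (U - U')) := by
    have hne : (X - C s1 : K[X]) ≠ 0 := X_sub_C_ne_zero s1
    have e3 : (derivative χ).eval (P + (X - C s1) * (X - C s2) * U') *
      ((X - C s1) * (X - C s2) * (U - U')) = (X - C s1) *
      ((derivative χ).eval (P + (X - C s1) * (X - C s2) * U') * ((X - C s2) * (U - U'))) := by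
      ring
    rw [e3, sq] at h3
    exact (mul_dvd_mul_iff_left hne).1 h3
  rw [dvd_iff_isRoot, IsRoot.def, eval_mul, eval_mul, eval_sub, eval_sub, eval_X, eval_C] at h4
  have h5 : ((derivative χ).eval (P + (X - C s1) * (X - C s2) * U')).eval s1 ≠ 0 := by
    rw [← evalEval_eq]
    have e4 : (P + (X - C s1) * (X - C s2) * U').eval s1 = P.eval s1 := by simp
    rw [e4]
    exact hg.2
  rcases mul_eq_zero.1 h4 with h6 | h6
  · exact absurd h6 h5
  · rcases mul_eq_zero.1 h6 with h7 | h7
    · exact absurd (sub_eq_zero.1 h7) h12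
    · exact sub_eq_zero.1 h7

/-- A split good parabola gives a split member of the pencil. -/
theorem fs_of_sg {K : Type*} [Field K] (χ : K[X][X]) (z : ℕ) (hz : 2 ≤ z) (s1 s2 a : K)
    (ha : a ≠ 0) (Pv G : K[X]) (hG : G.Monic) (hGd : G.natDegree = z - 2)
    (h : χ.eval Pv = C a * (X - C s1) * (X - C s2) * G) (hs : SplitGood χ z Pv) :
    ∃ R : Finset K, R.card = z - 2 ∧ ∀ s, s ∈ R ↔ G.eval s = 0 := by
  classical
  obtain ⟨⟨R, hRc, hR⟩, -⟩ := hs
  have hval : ∀ s, (χ.eval Pv).eval s = a * (s - s1) * (s - s2) * G.eval s := by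
    intro s
    rw [h]; simp
  refine ⟨R.filter (fun s => G.eval s = 0), ?_, ?_⟩
  · apply le_antisymm
    · have h1 : (R.filter (fun s => G.eval s = 0)) ⊆ G.roots.toFinset := by
        intro s hs
        rw [Finset.mem_filter] at hs
        rw [Multiset.mem_toFinset, mem_roots hG.ne_zero]
        exact hs.2
      refine (Finset.card_le_card h1).trans ((Multiset.toFinset_card_le _).trans ?_)
      rw [← hGd]; exact card_roots' _
    · have h2 : R ⊆ R.filter (fun s => G.eval s = 0) ∪ {s1, s2} := by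
        intro s hs
        have h3 := (hR s).1 hs
        rw [hval] at h3
        rw [Finset.mem_union, Finset.mem_filter, Finset.mem_insert, Finset.mem_singleton]
        rcases mul_eq_zero.1 h3 with h4 | h4
        · rcases mul_eq_zero.1 h4 with h5 | h5
          · rcases mul_eq_zero.1 h5 with h6 | h6
            · exact absurd h6 ha
            · right; left; exact sub_eq_zero.1 h6
          · right; right; exact sub_eq_zero.1 h5
        · left; exact ⟨hs, h4⟩
      have h3 := (Finset.card_le_card h2).trans (Finset.card_union_le _ _)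
      have h4 : ({s1, s2} : Finset K).card ≤ 2 := Finset.card_le_two
      omega
  · intro s
    rw [Finset.mem_filter]
    refine ⟨fun h => h.2, fun h => ⟨(hR s).2 ?_, h⟩⟩
    rw [hval, h, mul_zero]

/-- A split member of the pencil without bad points is a split good parabola. -/
theorem sg_of_fs {K : Type*} [Field K] (χ : K[X][X]) (z : ℕ) (hz : 2 ≤ z) (s1 s2 a : K)
    (h12 : s1 ≠ s2) (ha : a ≠ 0) (Pv G : K[X])
    (h : χ.eval Pv = C a * (X - C s1) * (X - C s2) * G)
    (hR : ∃ R : Finset K, R.card = z - 2 ∧ ∀ s, s ∈ R ↔ G.eval s = 0)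
    (h1 : G.eval s1 ≠ 0) (h2 : G.eval s2 ≠ 0)
    (hb : ∀ s, χ.evalEval s (Pv.eval s) = 0 → (derivative χ).evalEval s (Pv.eval s) ≠ 0) :
    SplitGood χ z Pv := by
  classical
  obtain ⟨R, hRc, hR⟩ := hR
  have hval : ∀ s, (χ.eval Pv).eval s = a * (s - s1) * (s - s2) * G.eval s := by
    intro s
    rw [h]; simp
  refine ⟨⟨insert s1 (insert s2 R), ?_, ?_⟩, ?_⟩
  · rw [Finset.card_insert_of_notMem, Finset.card_insert_of_notMem, hRc]
    · omega
    · rw [hR]; exact h2
    · rw [Finset.mem_insert, hR]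
      rintro (h | h)
      · exact h12 h
      · exact h1 h
  · intro s
    rw [hval, Finset.mem_insert, Finset.mem_insert, hR, mul_eq_zero, mul_eq_zero, mul_eq_zero,
      sub_eq_zero, sub_eq_zero]
    tauto
  · intro s hs
    rw [← evalEval_eq] at hs
    exact ⟨hs, hb s hs⟩

/-! ### Parametrisation of the parabolas through two points -/

theorem poly5_coeff {K : Type*} [Field K] (v : Fin 5 → K) (i : Fin 5) :
    (poly5 v).coeff (i : ℕ) = v i := by
  rw [poly5, finsetSum_coeff, Finset.sum_eq_single i]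
  · simp
  · intro j _ hj
    rw [coeff_C_mul, coeff_X_pow, if_neg, mul_zero]
    intro h
    exact hj (Fin.ext h.symm)
  · intro h
    exact absurd (Finset.mem_univ i) h

theorem poly5_natDegree {K : Type*} [Field K] (v : Fin 5 → K) : (poly5 v).natDegree ≤ 4 := by
  rw [poly5]
  refine natDegree_sum_le_of_forall_le _ _ ?_
  intro i _
  refine (natDegree_C_mul_X_pow_le _ _).trans ?_
  have := i.2
  omega

theorem poly5_of_coeff {K : Type*} [Field K] (A : K[X]) (hA : A.natDegree ≤ 4) :
    poly5 (fun i : Fin 5 => A.coeff (i : ℕ)) = A := by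
  ext j
  by_cases hj : j < 5
  · exact poly5_coeff _ ⟨j, hj⟩
  · rw [coeff_eq_zero_of_natDegree_lt, coeff_eq_zero_of_natDegree_lt]
    · omega
    · have := poly5_natDegree (fun i : Fin 5 => A.coeff (i : ℕ))
      omega

theorem quad_inj {K : Type*} [Field K] {t t' : K × K × K} (h : quad t = quad t') : t = t' := by
  have h0 := congrArg (fun A : K[X] => A.coeff 0) h
  have h1 := congrArg (fun A : K[X] => A.coeff 1) h
  have h2 := congrArg (fun A : K[X] => A.coeff 2) h
  simp [quad, coeff_X, coeff_C] at h0 h1 h2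
  exact Prod.ext h2 (Prod.ext h1 h0)

theorem exists_quad {K : Type*} [Field K] (U : K[X]) (hU : U.natDegree ≤ 2) :
    ∃ t : K × K × K, U = quad t := by
  refine ⟨(U.coeff 2, U.coeff 1, U.coeff 0), ?_⟩
  exact eq_quadratic_of_degree_le_two (natDegree_le_iff_degree_le.1 hU)

theorem famDeg {K : Type*} [Field K] (P : K[X]) (hP : P.natDegree ≤ 4) (s1 s2 : K)
    (t : K × K × K) : (P + (X - C s1) * (X - C s2) * quad t).natDegree ≤ 4 := by
  refine natDegree_add_le_of_degree_le hP ?_
  refine natDegree_mul_le.trans ?_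
  have h1 : ((X - C s1) * (X - C s2) : K[X]).natDegree = 2 := by
    rw [natDegree_mul (X_sub_C_ne_zero s1) (X_sub_C_ne_zero s2), natDegree_X_sub_C,
      natDegree_X_sub_C]
  have h2 := quad_natDegree_le t
  omega

open Classical in
theorem card_param {K : Type} [Field K] [Fintype K] (χ : K[X][X]) (z : ℕ) (s1 s2 : K)
    (h12 : s1 ≠ s2) (P : K[X]) (hP : P.natDegree ≤ 4) :
    Nat.card {v : Fin 5 → K // SplitGood χ z (poly5 v) ∧ (poly5 v).eval s1 = P.eval s1 ∧
      (poly5 v).eval s2 = P.eval s2} =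
    (Finset.univ.filter (fun t : K × K × K =>
      SplitGood χ z (P + (X - C s1) * (X - C s2) * quad t))).card := by
  have hcard : (Finset.univ.filter (fun t : K × K × K =>
      SplitGood χ z (P + (X - C s1) * (X - C s2) * quad t))).card =
      Nat.card {t : K × K × K // SplitGood χ z (P + (X - C s1) * (X - C s2) * quad t)} := by
    rw [Nat.card_eq_fintype_card, Fintype.card_subtype]
  rw [hcard]
  symm
  refine Nat.card_congr (Equiv.ofBijective (fun t => ⟨fun i : Fin 5 =>
    (P + (X - C s1) * (X - C s2) * quad t.1).coeff (i : ℕ), ?_⟩) ⟨?_, ?_⟩)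
  · rw [poly5_of_coeff _ (famDeg P hP s1 s2 t.1)]
    refine ⟨t.2, ?_, ?_⟩ <;> simp
  · intro t t' h
    have h1 := congrArg (fun x => poly5 x.1) h
    simp only at h1
    rw [poly5_of_coeff _ (famDeg P hP s1 s2 t.1), poly5_of_coeff _ (famDeg P hP s1 s2 t'.1)] at h1
    have hW : ((X - C s1) * (X - C s2) : K[X]) ≠ 0 :=
      mul_ne_zero (X_sub_C_ne_zero s1) (X_sub_C_ne_zero s2)
    exact Subtype.ext (quad_inj (mul_left_cancel₀ hW (add_left_cancel h1)))
  · rintro ⟨v, hv, hv1, hv2⟩
    have hd1 : (X - C s1) ∣ poly5 v - P := by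
      rw [dvd_iff_isRoot, IsRoot.def, eval_sub, hv1, sub_self]
    have hd2 : (X - C s2) ∣ poly5 v - P := by
      rw [dvd_iff_isRoot, IsRoot.def, eval_sub, hv2, sub_self]
    have hcop : IsCoprime (X - C s1) (X - C s2) :=
      isCoprime_X_sub_C_of_isUnit_sub (sub_ne_zero.2 h12).isUnit
    obtain ⟨U, hU⟩ := hcop.mul_dvd hd1 hd2
    have hUd : U.natDegree ≤ 2 := by
      by_cases h0 : U = 0
      · rw [h0, natDegree_zero]; omega
      · have h1 : (poly5 v - P).natDegree ≤ 4 :=
          (natDegree_sub_le _ _).trans (max_le (poly5_natDegree v) hP)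
        rw [hU, natDegree_mul (mul_ne_zero (X_sub_C_ne_zero s1) (X_sub_C_ne_zero s2)) h0,
          natDegree_mul (X_sub_C_ne_zero s1) (X_sub_C_ne_zero s2), natDegree_X_sub_C,
          natDegree_X_sub_C] at h1
        omega
    obtain ⟨t, rfl⟩ := exists_quad U hUd
    have he : P + (X - C s1) * (X - C s2) * quad t = poly5 v := by
      rw [← hU]; ring
    refine ⟨⟨t, by rw [he]; exact hv⟩, ?_⟩
    apply Subtype.ext
    funext i
    simp only [he, poly5_coeff]

/-! ### Exceptional directions -/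

open Classical in
theorem card_noncoprime {K : Type} [Field K] [Fintype K] (c : K[X]) (hc : c ≠ 0) (z : ℕ)
    (hz : c.natDegree ≤ z) :
    (Finset.univ.filter (fun x : K × K => ¬ IsCoprime (quad (1, x.1, x.2)) c)).card ≤
      z * Fintype.card K := by
  have hm : c.map (algebraMap K (AlgebraicClosure K)) ≠ 0 := by
    rwa [Ne, Polynomial.map_eq_zero]
  have hsub : (Finset.univ.filter (fun x : K × K => ¬ IsCoprime (quad (1, x.1, x.2)) c)) ⊆
      (c.map (algebraMap K (AlgebraicClosure K))).roots.toFinset.biUnion (fun α =>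
        Finset.univ.filter (fun x : K × K => aeval α (quad (1, x.1, x.2)) = 0)) := by
    intro x hx
    rw [Finset.mem_filter] at hx
    have h1 := (not_congr (isCoprime_iff_aeval_ne_zero_of_isAlgClosed K (AlgebraicClosure K)
      (quad (1, x.1, x.2)) c)).1 hx.2
    push Not at h1
    obtain ⟨α, h2, h3⟩ := h1
    rw [Finset.mem_biUnion]
    refine ⟨α, ?_, ?_⟩
    · rw [Multiset.mem_toFinset, mem_roots hm, IsRoot.def, eval_map, ← aeval_def]
      exact h3
    · rw [Finset.mem_filter]
      exact ⟨Finset.mem_univ _, h2⟩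
  refine (Finset.card_le_card hsub).trans ?_
  refine (Finset.card_biUnion_le_card_mul _ _ (Fintype.card K) ?_).trans ?_
  · intro α _
    rw [← Finset.card_univ]
    refine Finset.card_le_card_of_injOn (fun x => x.1) (fun x _ => Finset.mem_univ _) ?_
    intro x hx x' hx' he
    rw [Finset.mem_coe, Finset.mem_filter] at hx hx'
    have h1 := hx.2
    have h2 := hx'.2
    simp only [quad, map_add, map_mul, aeval_C, aeval_X, map_pow, map_one, one_mul] at h1 h2
    simp only at he
    rw [he] at h1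
    have h3 : algebraMap K (AlgebraicClosure K) x.2 = algebraMap K (AlgebraicClosure K) x'.2 :=
      add_left_cancel (h1.trans h2.symm)
    exact Prod.ext he ((algebraMap K (AlgebraicClosure K)).injective h3)
  · refine Nat.mul_le_mul_right _ ?_
    refine (Multiset.toFinset_card_le _).trans ((card_roots' _).trans ?_)
    rw [natDegree_map]; exact hz

/-! ### The main count -/

open Classical in
/-- The members of the family that are tangent to the curve at one of the two points or pass
through a bad point. -/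
noncomputable def badSet {K : Type} [Field K] [Fintype K] (χ : K[X][X]) (s1 s2 : K) (P : K[X]) :
    Finset (K × K × K) :=
  Finset.univ.filter (fun t : K × K × K =>
      (X - C s1) ^ 2 ∣ χ.eval (P + (X - C s1) * (X - C s2) * quad t)) ∪
    Finset.univ.filter (fun t : K × K × K =>
      (X - C s2) ^ 2 ∣ χ.eval (P + (X - C s1) * (X - C s2) * quad t)) ∪
    (Finset.univ.filter (fun x : K × K => χ.evalEval x.1 x.2 = 0 ∧
      (derivative χ).evalEval x.1 x.2 = 0)).biUnion (fun x =>
        Finset.univ.filter (fun t : K × K × K =>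
          (P + (X - C s1) * (X - C s2) * quad t).eval x.1 = x.2))

theorem card_badSet {K : Type} [Field K] [Fintype K] (χ : K[X][X]) (n z : ℕ) (hn : 1 ≤ n)
    (hχ : IsCnz χ n z) (hirr0 : Irreducible χ) (s1 s2 : K) (h12 : s1 ≠ s2) (P : K[X])
    (hg1 : Good χ s1 (P.eval s1)) (hg2 : Good χ s2 (P.eval s2)) :
    (badSet χ s1 s2 P).card ≤ (2 + n * (2 * n * z)) * Fintype.card K ^ 2 := by
  classical
  have hd : derivative χ ≠ 0 := by
    intro h
    apply hg1.2
    rw [h, evalEval_zero]
  have c1 : (Finset.univ.filter (fun t : K × K × K =>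
      (X - C s1) ^ 2 ∣ χ.eval (P + (X - C s1) * (X - C s2) * quad t))).card ≤
      Fintype.card K ^ 2 := by
    apply card_linear _ s1
    intro t ht t' ht'
    rw [Finset.mem_filter] at ht ht'
    exact tangent χ s1 s2 h12 P _ _ hg1 ht.2 ht'.2
  have c2 : (Finset.univ.filter (fun t : K × K × K =>
      (X - C s2) ^ 2 ∣ χ.eval (P + (X - C s1) * (X - C s2) * quad t))).card ≤
      Fintype.card K ^ 2 := by
    apply card_linear _ s2
    intro t ht t' ht'
    rw [Finset.mem_filter, mul_comm (X - C s1)] at ht ht'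
    exact tangent χ s2 s1 h12.symm P _ _ hg2 ht.2 ht'.2
  have c3 : ((Finset.univ.filter (fun x : K × K => χ.evalEval x.1 x.2 = 0 ∧
      (derivative χ).evalEval x.1 x.2 = 0)).biUnion (fun x =>
        Finset.univ.filter (fun t : K × K × K =>
          (P + (X - C s1) * (X - C s2) * quad t).eval x.1 = x.2))).card ≤
      n * (2 * n * z) * Fintype.card K ^ 2 := by
    refine (Finset.card_biUnion_le_card_mul _ _ (Fintype.card K ^ 2) ?_).trans
      (Nat.mul_le_mul_right _ (card_bad χ n z hn hχ hirr0 hd))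
    intro x hx
    rw [Finset.mem_filter] at hx
    apply card_linear _ x.1
    intro t ht t' ht'
    rw [Finset.mem_filter] at ht ht'
    have e1 := ht.2.trans ht'.2.symm
    simp only [eval_add, eval_mul, eval_sub, eval_X, eval_C] at e1
    have e2 := add_left_cancel e1
    have hne : (x.1 - s1) * (x.1 - s2) ≠ 0 := by
      intro h0
      rcases mul_eq_zero.1 h0 with h1 | h1
      · rw [sub_eq_zero] at h1
        apply hg1.2
        have e3 := ht.2
        rw [h1] at e3
        simp at e3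
        rw [e3, ← h1]
        exact hx.2.2
      · rw [sub_eq_zero] at h1
        apply hg2.2
        have e3 := ht.2
        rw [h1] at e3
        simp at e3
        rw [e3, ← h1]
        exact hx.2.2
    exact mul_left_cancel₀ hne e2
  unfold badSet
  refine (Finset.card_union_le _ _).trans ?_
  refine (Nat.add_le_add ((Finset.card_union_le _ _).trans (Nat.add_le_add c1 c2)) c3).trans ?_
  apply le_of_eq
  ring

theorem sq_dvd_left {K : Type*} [Field K] {G Y : K[X]} {s1 s2 a : K}
    (h : Y = C a * (X - C s1) * (X - C s2) * G) (h1 : G.eval s1 = 0) : (X - C s1) ^ 2 ∣ Y := by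
  obtain ⟨k, hk⟩ := dvd_iff_isRoot.2 h1
  refine ⟨C a * (X - C s2) * k, ?_⟩
  rw [h, hk]; ring

theorem sq_dvd_right {K : Type*} [Field K] {G Y : K[X]} {s1 s2 a : K}
    (h : Y = C a * (X - C s1) * (X - C s2) * G) (h1 : G.eval s2 = 0) : (X - C s2) ^ 2 ∣ Y := by
  obtain ⟨k, hk⟩ := dvd_iff_isRoot.2 h1
  refine ⟨C a * (X - C s1) * k, ?_⟩
  rw [h, hk]; ring

open Classical in
theorem count_nat {K : Type} [Field K] [Fintype K] (χ : K[X][X]) (n z : ℕ) (hn : 2 ≤ n)
    (hχ : IsCnz χ n z) (hirr0 : Irreducible χ) (h8 : 8 * n ≤ z) (s1 s2 : K) (h12 : s1 ≠ s2)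
    (P : K[X]) (hg1 : Good χ s1 (P.eval s1)) (hg2 : Good χ s2 (P.eval s2))
    (a : K) (ha : a ≠ 0) (F : K × K → K[X][X]) (hFm : ∀ x, (F x).Monic)
    (hFd : ∀ x, (F x).natDegree = z - 2)
    (hF : ∀ x, C (C a) * (X - C (C s1)) * (X - C (C s2)) * F x
        = pencil χ P ((X - C s1) * (X - C s2) * quad (1, x.1, x.2))) :
    (Finset.univ.filter (fun t : K × K × K =>
      SplitGood χ z (P + (X - C s1) * (X - C s2) * quad t))).card ≤ Fintype.card K ^ 2 +
      (Finset.univ.filter (fun x : K × (K × K) => ∃ R : Finset K, R.card = z - 2 ∧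
        ∀ s, s ∈ R ↔ ((F x.2).map (evalRingHom x.1)).eval s = 0)).card ∧
    (Finset.univ.filter (fun x : K × (K × K) => ∃ R : Finset K, R.card = z - 2 ∧
        ∀ s, s ∈ R ↔ ((F x.2).map (evalRingHom x.1)).eval s = 0)).card ≤
      (3 + n * (2 * n * z)) * Fintype.card K ^ 2 + (Finset.univ.filter (fun t : K × K × K =>
      SplitGood χ z (P + (X - C s1) * (X - C s2) * quad t))).card := by
  have key : ∀ (lam : K) (x : K × K), χ.eval (P + (X - C s1) * (X - C s2) *
      quad (lam, lam * x.1, lam * x.2)) =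
      C a * (X - C s1) * (X - C s2) * ((F x).map (evalRingHom lam)) := by
    intro lam x
    have e1 := congrArg (fun G : K[X][X] => G.map (evalRingHom lam)) (hF x)
    simp only [pencil_eval] at e1
    rw [← quad_smul]
    have e2 : (X - C s1) * (X - C s2) * (C lam * quad (1, x.1, x.2)) =
        C lam * ((X - C s1) * (X - C s2) * quad (1, x.1, x.2)) := by ring
    rw [e2, ← e1]
    simp
  have hz : 2 ≤ z := by omega
  set A := Finset.univ.filter (fun t : K × K × K =>
      SplitGood χ z (P + (X - C s1) * (X - C s2) * quad t)) with hA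
  set Fs := Finset.univ.filter (fun x : K × (K × K) => ∃ R : Finset K, R.card = z - 2 ∧
        ∀ s, s ∈ R ↔ ((F x.2).map (evalRingHom x.1)).eval s = 0) with hFs
  have hzero : ∀ S : Finset (K × K × K), (S.filter (fun t => t.1 = 0)).card ≤
      Fintype.card K ^ 2 := by
    intro S
    have h1 : (S.filter (fun t => t.1 = 0)).card ≤ (Finset.univ : Finset (K × K)).card := by
      refine Finset.card_le_card_of_injOn (fun t => t.2) (fun t _ => Finset.mem_univ _) ?_
      intro t ht t' ht' he
      rw [Finset.mem_coe, Finset.mem_filter] at ht ht'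
      exact Prod.ext (ht.2.trans ht'.2.symm) he
    rw [Finset.card_univ, Fintype.card_prod] at h1
    rw [sq]; exact h1
  have hsplit : ∀ S : Finset (K × K × K), S.card = (S.filter (fun t => t.1 = 0)).card +
      (S.filter (fun t => ¬ t.1 = 0)).card := by
    intro S
    exact (Finset.card_filter_add_card_filter_not (s := S) (fun t => t.1 = 0)).symm
  constructor
  · rw [hsplit A]
    refine Nat.add_le_add (hzero A) ?_
    refine Finset.card_le_card_of_injOn (fun t => (t.1, (t.1⁻¹ * t.2.1, t.1⁻¹ * t.2.2))) ?_ ?_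
    · intro t ht
      rw [Finset.mem_coe, Finset.mem_filter] at ht
      rw [Finset.mem_coe, hFs, Finset.mem_filter]
      refine ⟨Finset.mem_univ _, ?_⟩
      have h1 := ht.1
      rw [hA, Finset.mem_filter] at h1
      have e1 := key t.1 (t.1⁻¹ * t.2.1, t.1⁻¹ * t.2.2)
      simp only [mul_inv_cancel_left₀ ht.2] at e1
      exact fs_of_sg χ z hz s1 s2 a ha _ _ ((hFm _).map _)
        (by rw [(hFm _).natDegree_map, hFd]) e1 h1.2
    · intro t ht t' ht' he
      rw [Finset.mem_coe, Finset.mem_filter] at ht ht'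
      simp only [Prod.mk.injEq] at he
      obtain ⟨e1, e2, e3⟩ := he
      rw [← e1] at e2 e3
      have hi : t.1⁻¹ ≠ 0 := inv_ne_zero ht.2
      exact Prod.ext e1 (Prod.ext (mul_left_cancel₀ hi e2) (mul_left_cancel₀ hi e3))
  · have hinj : Set.InjOn (fun x : K × (K × K) => (x.1, (x.1 * x.2.1, x.1 * x.2.2)))
        {x | x.1 ≠ 0} := by
      intro x hx x' hx' he
      simp only [Prod.mk.injEq] at he
      obtain ⟨e1, e2, e3⟩ := he
      rw [← e1] at e2 e3
      exact Prod.ext e1 (Prod.ext (mul_left_cancel₀ hx e2) (mul_left_cancel₀ hx e3))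
    have h1 : (Fs.filter (fun t => ¬ t.1 = 0)).card ≤ (badSet χ s1 s2 P ∪ A).card := by
      refine Finset.card_le_card_of_injOn
        (fun x : K × (K × K) => (x.1, (x.1 * x.2.1, x.1 * x.2.2))) ?_ ?_
      · intro x hx
        rw [Finset.mem_coe, Finset.mem_filter] at hx
        have h2 := hx.1
        rw [hFs, Finset.mem_filter] at h2
        rw [Finset.mem_coe, Finset.mem_union]
        by_contra hcon
        push Not at hcon
        obtain ⟨hnb, hnA⟩ := hcon
        have e1 := key x.1 x.2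
        apply hnA
        rw [hA, Finset.mem_filter]
        refine ⟨Finset.mem_univ _, ?_⟩
        unfold badSet at hnb
        rw [Finset.mem_union, Finset.mem_union, Finset.mem_filter, Finset.mem_filter,
          Finset.mem_biUnion] at hnb
        push Not at hnb
        obtain ⟨⟨hn1, hn2⟩, hn3⟩ := hnb
        refine sg_of_fs χ z hz s1 s2 a h12 ha _ _ e1 h2.2 ?_ ?_ ?_
        · intro h0
          exact hn1 (Finset.mem_univ _) (sq_dvd_left e1 h0)
        · intro h0
          exact hn2 (Finset.mem_univ _) (sq_dvd_right e1 h0)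
        · intro s hs1 hs2
          refine hn3 (s, (P + (X - C s1) * (X - C s2) *
            quad (x.1, (x.1 * x.2.1, x.1 * x.2.2))).eval s) ?_ ?_
          · rw [Finset.mem_filter]
            exact ⟨Finset.mem_univ _, hs1, hs2⟩
          · rw [Finset.mem_filter]
            exact ⟨Finset.mem_univ _, rfl⟩
      · intro x hx x' hx' he
        rw [Finset.mem_coe, Finset.mem_filter] at hx hx'
        exact hinj hx.2 hx'.2 he
    have h2 := card_badSet χ n z (by omega) hχ hirr0 s1 s2 h12 P hg1 hg2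
    have h3 := Finset.card_union_le (badSet χ s1 s2 P) A
    have h4 := hzero Fs
    rw [hsplit Fs]
    have e : (3 + n * (2 * n * z)) * Fintype.card K ^ 2 = Fintype.card K ^ 2 +
      (2 + n * (2 * n * z)) * Fintype.card K ^ 2 := by ring
    rw [e]
    omega

open Classical in
theorem count_real {K : Type} [Field K] [Fintype K] (c : K[X]) (hc0 : c ≠ 0) (z : ℕ)
    (hcd : c.natDegree ≤ z) (F : K × K → K[X][X]) (C0 q : ℝ) (hC0 : 0 ≤ C0) (hq : 1 ≤ q)
    (hqQ : (Fintype.card K : ℝ) = q ^ 2)
    (hcheb : ∀ x : K × K, IsCoprime (quad (1, x.1, x.2)) c →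
      |((Nat.card {lam : K // ∃ R : Finset K, R.card = z - 2 ∧
        ∀ s, s ∈ R ↔ ((F x).map (evalRingHom lam)).eval s = 0} : ℕ) : ℝ) *
        ((z - 2).factorial : ℝ) - q ^ 2| ≤ C0 * q) :
    |((Finset.univ.filter (fun x : K × (K × K) => ∃ R : Finset K, R.card = z - 2 ∧
        ∀ s, s ∈ R ↔ ((F x.2).map (evalRingHom x.1)).eval s = 0)).card : ℝ) *
      ((z - 2).factorial : ℝ) - (Fintype.card K : ℝ) ^ 3| ≤
      (C0 + z * ((z - 2).factorial : ℝ)) * ((Fintype.card K : ℝ) ^ 2 * q) := by
  set Q : ℝ := (Fintype.card K : ℝ) with hQ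
  set N : ℝ := ((z - 2).factorial : ℝ) with hN
  have hN1 : 1 ≤ N := by
    rw [hN]
    exact_mod_cast Nat.one_le_iff_ne_zero.2 (Nat.factorial_ne_zero _)
  have hQ1 : 1 ≤ Q := by rw [hqQ]; nlinarith
  have hQ0 : 0 ≤ Q := by linarith
  let f : K × K → ℕ := fun x => (Finset.univ.filter (fun lam : K => ∃ R : Finset K,
    R.card = z - 2 ∧ ∀ s, s ∈ R ↔ ((F x).map (evalRingHom lam)).eval s = 0)).card
  have hf : ∀ x, Nat.card {lam : K // ∃ R : Finset K, R.card = z - 2 ∧
        ∀ s, s ∈ R ↔ ((F x).map (evalRingHom lam)).eval s = 0} = f x := by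
    intro x
    rw [Nat.card_eq_fintype_card, Fintype.card_subtype]
  have hsum : (Finset.univ.filter (fun x : K × (K × K) => ∃ R : Finset K, R.card = z - 2 ∧
        ∀ s, s ∈ R ↔ ((F x.2).map (evalRingHom x.1)).eval s = 0)).card = ∑ x : K × K, f x := by
    rw [Finset.card_filter, Fintype.sum_prod_type, Finset.sum_comm]
    refine Finset.sum_congr rfl (fun x _ => ?_)
    simp only [f]
    rw [Finset.card_filter]
  have hfQ : ∀ x, (f x : ℝ) ≤ Q := by
    intro x
    rw [hQ]
    exact_mod_cast Finset.card_le_univ _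
  have hb : ∀ x, |(f x : ℝ) * N - Q| ≤ C0 * q +
      (if ¬ IsCoprime (quad (1, x.1, x.2)) c then N * Q else 0) := by
    intro x
    have h0 : 0 ≤ C0 * q := mul_nonneg hC0 (by linarith)
    by_cases h : IsCoprime (quad (1, x.1, x.2)) c
    · rw [if_neg (not_not.2 h)]
      have := hcheb x h
      rw [hf, ← hqQ] at this
      rw [add_zero]
      exact this
    · rw [if_pos h, abs_le]
      have h1 : 0 ≤ (f x : ℝ) := Nat.cast_nonneg _
      have h2 := hfQ x
      have h3 : 0 ≤ (f x : ℝ) * N := by positivity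
      have h4 : (f x : ℝ) * N ≤ Q * N := mul_le_mul_of_nonneg_right h2 (by linarith)
      have h5 : Q ≤ N * Q := by nlinarith
      constructor <;> nlinarith
  have hbad := card_noncoprime c hc0 z hcd
  have hbadR : ((Finset.univ.filter (fun x : K × K => ¬ IsCoprime (quad (1, x.1, x.2)) c)).card : ℝ)
      ≤ z * Q := by
    rw [hQ]
    exact_mod_cast hbad
  have hcardKK : ((Finset.univ : Finset (K × K)).card : ℝ) = Q ^ 2 := by
    rw [Finset.card_univ, Fintype.card_prod, hQ]
    push_cast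
    ring
  have e1 : (∑ x : K × K, (f x : ℝ)) * N - Q ^ 3 = ∑ x : K × K, ((f x : ℝ) * N - Q) := by
    rw [Finset.sum_sub_distrib, Finset.sum_mul, Finset.sum_const, nsmul_eq_mul, hcardKK]
    ring
  rw [hsum]
  push_cast
  rw [e1]
  refine (Finset.abs_sum_le_sum_abs _ _).trans ((Finset.sum_le_sum (fun x _ => hb x)).trans ?_)
  rw [Finset.sum_add_distrib, Finset.sum_const, nsmul_eq_mul, hcardKK, ← Finset.sum_filter,
    Finset.sum_const, nsmul_eq_mul]
  have hNQ : 0 ≤ N * Q := by positivity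
  have h5 := mul_le_mul_of_nonneg_right hbadR hNQ
  have h6 : (z : ℝ) * Q * (N * Q) ≤ z * N * (Q ^ 2 * q) := by
    have h7 : 0 ≤ (z : ℝ) * N * Q ^ 2 := by positivity
    nlinarith
  nlinarith

/-- Natural degree of `χ(S, P(S))`. -/
theorem natDegree_eval_le {K : Type*} [Field K] {χ : K[X][X]} {n z : ℕ} (hn : 1 ≤ n)
    (h : IsCnz χ n z) (h8 : 4 * n ≤ z) (P : K[X]) (hP : P.natDegree ≤ 4) :
    (χ.eval P).natDegree ≤ z := by
  rw [eval_eq_sum_range]
  refine natDegree_sum_le_of_forall_le _ _ ?_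
  intro i hi
  rw [h.natDegree, Finset.mem_range] at hi
  refine natDegree_mul_le.trans ?_
  have h1 : (P ^ i).natDegree ≤ 4 * i := by
    refine natDegree_pow_le.trans ?_
    rw [mul_comm]
    exact Nat.mul_le_mul_right _ hP
  rcases Nat.eq_zero_or_pos i with h0 | h0
  · subst h0
    rw [h.deg0]
    omega
  · rcases Nat.lt_or_ge i n with h2 | h2
    · have h3 := h.lt i h0 h2
      have h4 : n * ((χ.coeff i).natDegree + 4 * i) < n * z := by
        have h5 : 4 * n * i ≤ z * i := Nat.mul_le_mul_right _ h8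
        calc n * ((χ.coeff i).natDegree + 4 * i) = n * (χ.coeff i).natDegree + 4 * n * i := by ring
          _ ≤ n * (χ.coeff i).natDegree + z * i := by omega
          _ < n * z := h3
      have h6 := Nat.lt_of_mul_lt_mul_left h4
      omega
    · have h3 : i = n := by omega
      subst h3
      have h7 : (χ.coeff i) = 1 := by
        rw [← h.natDegree, coeff_natDegree, h.monic.leadingCoeff]
      rw [h7, natDegree_one]
      omega

end M3a

open M3a

/-- M3a. Number of split parabolas (degree at most four) through two good points. -/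
theorem M3a_pairs_of (p n z : ℕ) [Fact p.Prime] (hp2 : p ≠ 2) (hn : 2 ≤ n)
    (h8 : 8 * n ≤ z) (hl : (z - 4 * n).Prime) (hpl : p ≠ z - 4 * n)
    (hM1 : ∃ B : ℕ, ∀ (K : Type) [Field K] [Fintype K]
      [CharP K p] (m : ℕ) (_ : Fintype.card K = (p ^ m) ^ 2) (F : K[X][X]), F.Monic →
      F.natDegree = z - 2 → (∀ i, (F.coeff i).natDegree ≤ n) →
      FullGal (F.map (mapRingHom (algebraMap K (AlgebraicClosure K)))) (z - 2) →
      |((Nat.card {lam : K // ∃ R : Finset K, R.card = z - 2 ∧
          ∀ s, s ∈ R ↔ (F.map (evalRingHom lam)).eval s = 0} : ℕ) : ℝ) * ((z - 2).factorial : ℝ)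
          - ((p ^ m : ℕ) : ℝ) ^ 2| ≤ (B : ℝ) * ((p ^ m : ℕ) : ℝ))
    (hM2F : ∀ (K : Type) [Field K] (χ : K[X][X]), IsCnz χ n z → ∀ (P T0 : K[X]) (s1 s2 : K),
      s1 ≠ s2 → P.natDegree ≤ 4 → T0.Monic → T0.natDegree = 2 →
      χ.evalEval s1 (P.eval s1) = 0 → χ.evalEval s2 (P.eval s2) = 0 →
      ∃ F : K[X][X], F.Monic ∧ F.natDegree = z - 2 ∧ (∀ i, (F.coeff i).natDegree ≤ n) ∧
        C (C ((χ.coeff 0).leadingCoeff)) * (X - C (C s1)) * (X - C (C s2)) * F
          = pencil χ P ((X - C s1) * (X - C s2) * T0))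
    (hM2G : ∀ (k : Type) [Field k] [IsAlgClosed k], (2 : k) ≠ 0 → ∀ χ : k[X][X],
      IsCnz χ n z → ((z - 4 * n : ℕ) : k) ≠ 0 → ∀ (P T0 : k[X]) (s1 s2 sy : k),
      s1 ≠ s2 → s1 ≠ sy → s2 ≠ sy → P.natDegree ≤ 4 → T0.Monic → T0.natDegree = 2 →
      Good χ s1 (P.eval s1) → Good χ s2 (P.eval s2) → Good χ sy (P.eval sy) →
      ∀ g : k[X], χ.eval P = (X - C s1) * (X - C s2) * (X - C sy) ^ 2 * g →
      g.Separable → g.eval sy ≠ 0 → IsCoprime T0 (χ.eval P) →
      ∀ F : k[X][X], F.Monic → F.natDegree = z - 2 → (∀ i, (F.coeff i).natDegree ≤ n) →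
      C (C ((χ.coeff 0).leadingCoeff)) * (X - C (C s1)) * (X - C (C s2)) * F
        = pencil χ P ((X - C s1) * (X - C s2) * T0) →
      FullGal F (z - 2))
    (hM2f : ∃ Q₀ : ℕ, ∀ (K : Type) [Field K] [Fintype K] [CharP K p], Q₀ ≤ Fintype.card K →
      ∀ χ : K[X][X], IsCnz χ n z → ∀ s1 s2 sy y1 y2 yy : K, s1 ≠ s2 → s1 ≠ sy → s2 ≠ sy →
      Good χ s1 y1 → Good χ s2 y2 → Good χ sy yy →
      ∃ P g : K[X], P.natDegree ≤ 4 ∧ P.eval s1 = y1 ∧ P.eval s2 = y2 ∧ P.eval sy = yy ∧
        χ.eval P = (X - C s1) * (X - C s2) * (X - C sy) ^ 2 * g ∧ g.Separable ∧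
        g.eval sy ≠ 0)
    (hirr : ∀ (K : Type) [Field K] (χ : K[X][X]), IsCnz χ n z → Irreducible χ) :
    ∃ B : ℝ, 0 < B ∧ ∃ Q₀ : ℕ, ∀ (K : Type) [Field K] [Fintype K] [CharP K p] (m : ℕ),
      Fintype.card K = (p ^ m) ^ 2 → Q₀ ≤ Fintype.card K → ∀ χ : K[X][X], IsCnz χ n z →
      ∀ s1 s2 sy y1 y2 yy : K, s1 ≠ s2 → s1 ≠ sy → s2 ≠ sy →
      Good χ s1 y1 → Good χ s2 y2 → Good χ sy yy →
      |((Nat.card {v : Fin 5 → K // SplitGood χ z (poly5 v) ∧ (poly5 v).eval s1 = y1 ∧
          (poly5 v).eval s2 = y2} : ℕ) : ℝ) - (Fintype.card K : ℝ) ^ 3 / ((z - 2).factorial : ℝ)|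
        ≤ B * (Fintype.card K : ℝ) ^ (5 / 2 : ℝ) := by
  classical
  obtain ⟨C0, hC0⟩ := hM1
  obtain ⟨Q₀, hQ₀⟩ := hM2f
  refine ⟨3 + n * (2 * n * z) + C0 + z, by positivity, Q₀, ?_⟩
  intro K _ _ _ m hK hKQ χ hχ s1 s2 sy y1 y2 yy h12 h1y h2y hg1 hg2 hgy
  obtain ⟨P, g, hP4, rfl, rfl, rfl, hPg, hgsep, hgsy⟩ :=
    hQ₀ K hKQ χ hχ s1 s2 sy y1 y2 yy h12 h1y h2y hg1 hg2 hgy
  have hN0 : (χ.coeff 0) ≠ 0 := by
    intro h0
    have := hχ.deg0
    rw [h0, natDegree_zero] at this
    omega
  have ha : (χ.coeff 0).leadingCoeff ≠ 0 := leadingCoeff_ne_zero.2 hN0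
  have hg0 : g ≠ 0 := by
    intro h0
    apply hgsy
    rw [h0, eval_zero]
  have hP0 : χ.eval P ≠ 0 := by
    rw [hPg]
    exact mul_ne_zero (mul_ne_zero (mul_ne_zero (X_sub_C_ne_zero _) (X_sub_C_ne_zero _))
      (pow_ne_zero _ (X_sub_C_ne_zero _))) hg0
  have hPd : (χ.eval P).natDegree ≤ z := natDegree_eval_le (by omega) hχ (by omega) P hP4
  -- the pencil polynomials
  have hex : ∀ x : K × K, ∃ F : K[X][X], F.Monic ∧ F.natDegree = z - 2 ∧
      (∀ i, (F.coeff i).natDegree ≤ n) ∧
      C (C ((χ.coeff 0).leadingCoeff)) * (X - C (C s1)) * (X - C (C s2)) * F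
        = pencil χ P ((X - C s1) * (X - C s2) * quad (1, x.1, x.2)) := fun x =>
    hM2F K χ hχ P (quad (1, x.1, x.2)) s1 s2 h12 hP4 (quad_monic _ _)
      (quad_natDegree _ _) hg1.1 hg2.1
  choose F hFm hFd hFc hFe using hex
  -- the field
  have hq1 : (1 : ℝ) ≤ ((p ^ m : ℕ) : ℝ) := by
    exact_mod_cast Nat.one_le_iff_ne_zero.2 (pow_ne_zero _ (Fact.out : p.Prime).ne_zero)
  have hqQ : (Fintype.card K : ℝ) = ((p ^ m : ℕ) : ℝ) ^ 2 := by
    rw [hK]; push_cast; rfl
  set φ := algebraMap K (AlgebraicClosure K) with hφ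
  have : CharP (AlgebraicClosure K) p := charP_of_injective_algebraMap φ.injective p
  have hpp : p.Prime := Fact.out
  have h2k : (2 : AlgebraicClosure K) ≠ 0 := by
    intro h0
    have h1 : ((2 : ℕ) : AlgebraicClosure K) = 0 := by exact_mod_cast h0
    rw [CharP.cast_eq_zero_iff (AlgebraicClosure K) p] at h1
    exact hp2 ((Nat.prime_dvd_prime_iff_eq hpp Nat.prime_two).1 h1)
  have hlk : ((z - 4 * n : ℕ) : AlgebraicClosure K) ≠ 0 := by
    intro h1
    rw [CharP.cast_eq_zero_iff (AlgebraicClosure K) p] at h1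
    exact hpl ((Nat.prime_dvd_prime_iff_eq hpp hl).1 h1)
  have hcheb : ∀ x : K × K, IsCoprime (quad (1, x.1, x.2)) (χ.eval P) →
      |((Nat.card {lam : K // ∃ R : Finset K, R.card = z - 2 ∧
        ∀ s, s ∈ R ↔ ((F x).map (evalRingHom lam)).eval s = 0} : ℕ) : ℝ) *
        ((z - 2).factorial : ℝ) - ((p ^ m : ℕ) : ℝ) ^ 2| ≤ (C0 : ℝ) * ((p ^ m : ℕ) : ℝ) := by
    intro x hx
    refine hC0 K m hK (F x) (hFm x) (hFd x) (hFc x) ?_
    have hgmap : (χ.map (mapRingHom φ)).eval (P.map φ) = (X - C (φ s1)) * (X - C (φ s2)) *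
        (X - C (φ sy)) ^ 2 * g.map φ := by
      rw [eval_map_map, hPg]
      simp
    have hT : ((X - C s1) * (X - C s2) * quad (1, x.1, x.2)).map φ =
        (X - C (φ s1)) * (X - C (φ s2)) * (quad (1, x.1, x.2)).map φ := by
      simp
    have hlead : ((χ.map (mapRingHom φ)).coeff 0).leadingCoeff =
        φ ((χ.coeff 0).leadingCoeff) := by
      rw [coeff_map, coe_mapRingHom, leadingCoeff_map]
    have hcoe : ∀ i, (((F x).map (mapRingHom φ)).coeff i).natDegree ≤ n := by
      intro i
      rw [coeff_map, coe_mapRingHom, natDegree_map]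
      exact hFc x i
    refine hM2G (AlgebraicClosure K) h2k (χ.map (mapRingHom φ)) (cnz_map φ hχ) hlk
      (P.map φ) ((quad (1, x.1, x.2)).map φ) (φ s1) (φ s2) (φ sy)
      (fun h => h12 (φ.injective h)) (fun h => h1y (φ.injective h))
      (fun h => h2y (φ.injective h)) (by rw [natDegree_map]; exact hP4)
      ((quad_monic _ _).map _) (by rw [natDegree_map]; exact quad_natDegree _ _)
      ?_ ?_ ?_ (g.map φ) hgmap (hgsep.map) ?_ ?_ _ ((hFm x).map _) ?_ hcoe ?_
    · rw [eval_map_apply]; exact good_map φ hg1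
    · rw [eval_map_apply]; exact good_map φ hg2
    · rw [eval_map_apply]; exact good_map φ hgy
    · rw [eval_map_apply]
      intro h0
      exact hgsy ((map_eq_zero φ).1 h0)
    · rw [eval_map_map]
      exact hx.map (mapRingHom φ)
    · rw [(hFm x).natDegree_map, hFd]
    · have e1 := congrArg (fun G : K[X][X] => G.map (mapRingHom φ)) (hFe x)
      simp only [pencil_map] at e1
      rw [hlead, ← hT, ← e1]
      simp only [Polynomial.map_mul, Polynomial.map_sub, map_C, map_X, coe_mapRingHom, hφ]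
  have hc := count_nat χ n z hn hχ (hirr K χ hχ) h8 s1 s2 h12 P hg1 hg2 _ ha F hFm hFd hFe
  have hr := count_real (χ.eval P) hP0 z hPd F (C0 : ℝ) ((p ^ m : ℕ) : ℝ)
    (Nat.cast_nonneg _) hq1 hqQ hcheb
  rw [card_param χ z s1 s2 h12 P hP4]
  -- the power 5/2
  have h52 : (Fintype.card K : ℝ) ^ (5 / 2 : ℝ) =
      (Fintype.card K : ℝ) ^ 2 * ((p ^ m : ℕ) : ℝ) := by
    have hq0 : (0 : ℝ) ≤ ((p ^ m : ℕ) : ℝ) := by linarith
    rw [hqQ, ← Real.rpow_natCast, ← Real.rpow_mul hq0, ← Real.rpow_natCast, ← Real.rpow_mul hq0]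
    have h1 : (((2 : ℕ) : ℝ) * (5 / 2 : ℝ)) = ((5 : ℕ) : ℝ) := by norm_num
    have h2 : (((2 : ℕ) : ℝ) * ((2 : ℕ) : ℝ)) = ((4 : ℕ) : ℝ) := by norm_num
    rw [h1, h2, Real.rpow_natCast, Real.rpow_natCast]
    ring
  rw [h52]
  set A : ℕ := (Finset.univ.filter (fun t : K × K × K =>
      SplitGood χ z (P + (X - C s1) * (X - C s2) * quad t))).card with hA
  set Fs : ℕ := (Finset.univ.filter (fun x : K × (K × K) => ∃ R : Finset K, R.card = z - 2 ∧
        ∀ s, s ∈ R ↔ ((F x.2).map (evalRingHom x.1)).eval s = 0)).card with hFs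
  set Q : ℝ := (Fintype.card K : ℝ) with hQ
  set q : ℝ := ((p ^ m : ℕ) : ℝ) with hq
  set N : ℝ := ((z - 2).factorial : ℝ) with hN
  have hN1 : 1 ≤ N := by
    rw [hN]
    exact_mod_cast Nat.one_le_iff_ne_zero.2 (Nat.factorial_ne_zero _)
  have hNpos : 0 < N := by linarith
  have hc1 : (A : ℝ) ≤ Q ^ 2 + Fs := by rw [hQ]; exact_mod_cast hc.1
  have hc2 : (Fs : ℝ) ≤ (3 + n * (2 * n * z)) * Q ^ 2 + A := by rw [hQ]; exact_mod_cast hc.2
  have hnn : (0 : ℝ) ≤ (n : ℝ) * (2 * n * z) := by positivity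
  have hQ2 : 0 ≤ Q ^ 2 := by positivity
  have hAF : |(A : ℝ) - Fs| ≤ (3 + n * (2 * n * z)) * Q ^ 2 := by
    rw [abs_le]
    constructor <;> nlinarith
  have hC0n : (0 : ℝ) ≤ C0 := Nat.cast_nonneg _
  have hz0 : (0 : ℝ) ≤ z := Nat.cast_nonneg _
  have hX : 0 ≤ Q ^ 2 * q := by positivity
  have hFN : |(Fs : ℝ) - Q ^ 3 / N| ≤ (C0 + z) * (Q ^ 2 * q) := by
    have e1 : (Fs : ℝ) - Q ^ 3 / N = ((Fs : ℝ) * N - Q ^ 3) / N := by
      field_simp
    rw [e1, abs_div, abs_of_pos hNpos, div_le_iff₀ hNpos]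
    refine hr.trans ?_
    have h1 : (C0 : ℝ) ≤ C0 * N := by nlinarith
    have h2 : (C0 : ℝ) + z * N ≤ (C0 + z) * N := by nlinarith
    calc (C0 + z * N) * (Q ^ 2 * q) ≤ ((C0 + z) * N) * (Q ^ 2 * q) :=
          mul_le_mul_of_nonneg_right h2 hX
      _ = (C0 + z) * (Q ^ 2 * q) * N := by ring
  have htri : |(A : ℝ) - Q ^ 3 / N| ≤ |(A : ℝ) - Fs| + |(Fs : ℝ) - Q ^ 3 / N| :=
    abs_sub_le _ _ _
  have hQq : Q ^ 2 ≤ Q ^ 2 * q := by nlinarith
  have h9 : (3 + (n : ℝ) * (2 * n * z)) * Q ^ 2 ≤ (3 + n * (2 * n * z)) * (Q ^ 2 * q) :=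
    mul_le_mul_of_nonneg_left hQq (by positivity)
  calc |(A : ℝ) - Q ^ 3 / N| ≤ (3 + n * (2 * n * z)) * (Q ^ 2 * q) + (C0 + z) * (Q ^ 2 * q) := by
        linarith
    _ = (3 + n * (2 * n * z) + C0 + z) * (Q ^ 2 * q) := by ring

end Pool.Agent.K1
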