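import Pool.Agent.K1.M3a

/-!
# K1 project, M3a2: the number of split parabolas through two good points, second version

The primality of `z - 4 n` is replaced by a coprimality condition.  Among the directions `T0` one
also discards those with a double root and those with a root over which the curve ramifies.
-/

open Polynomial

namespace Pool.Agent.K1

namespace M3a2

open M3a

theorem exists_res {K : Type*} [Field K] (χ : K[X][X]) (n z : ℕ) (hn : 1 ≤ n)
    (hχ : IsCnz χ n z) (hirr0 : Irreducible χ) (hd : derivative χ ≠ 0) :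
    ∃ (r : K[X]) (a b : K[X][X]), r ≠ 0 ∧ r.natDegree ≤ 2 * n * z ∧
      χ * a + derivative χ * b = C r := by
  obtain ⟨a, b, -, -, hab⟩ := exists_mul_add_mul_eq_C_resultant χ (derivative χ)
    (m := χ.natDegree) (n := (derivative χ).natDegree) le_rfl le_rfl
    (by left; rw [hχ.natDegree]; omega)
  refine ⟨resultant χ (derivative χ), a, b, ?_, ?_, hab⟩
  · intro h0
    have hinj : Function.Injective (algebraMap K[X] (FractionRing K[X])) :=
      IsFractionRing.injective _ _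
    have h1 := resultant_map_map χ (derivative χ) χ.natDegree (derivative χ).natDegree
      (algebraMap K[X] (FractionRing K[X]))
    rw [h0, map_zero] at h1
    have d1 : (χ.map (algebraMap K[X] (FractionRing K[X]))).natDegree = χ.natDegree :=
      natDegree_map_eq_of_injective hinj _
    have d2 : ((derivative χ).map (algebraMap K[X] (FractionRing K[X]))).natDegree =
        (derivative χ).natDegree := natDegree_map_eq_of_injective hinj _
    rw [← d1, ← d2] at h1
    have h2 := (resultant_eq_zero_iff.1 h1).2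
    apply h2
    have hirr : Irreducible (χ.map (algebraMap K[X] (FractionRing K[X]))) :=
      (hχ.monic.irreducible_iff_irreducible_map_fraction_map).1 hirr0
    rw [hirr.coprime_iff_not_dvd]
    intro hdvd
    have h3 : (derivative χ).map (algebraMap K[X] (FractionRing K[X])) ≠ 0 := by
      rwa [Ne, Polynomial.map_eq_zero_iff hinj]
    have h4 := natDegree_le_of_dvd hdvd h3
    rw [d1, d2] at h4
    have h5 : (derivative χ).natDegree < χ.natDegree := by
      apply natDegree_derivative_lt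
      rw [hχ.natDegree]; omega
    omega
  · refine (natDegree_resultant_le χ (derivative χ) _ _ z (coeff_le hn hχ)
      (deriv_coeff_le hn hχ)).trans ?_
    have h1 : (derivative χ).natDegree ≤ n - 1 := by
      rw [← hχ.natDegree]; exact natDegree_derivative_le χ
    rw [hχ.natDegree]
    exact Nat.mul_le_mul_right _ (by omega)

/-- The fibre of the curve over a point which is not a root of `r` is separable. -/
theorem separable_fibre {K k : Type*} [Field K] [Field k] (φ : K →+* k) (χ : K[X][X])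
    (r : K[X]) (a b : K[X][X]) (hab : χ * a + derivative χ * b = C r) (t : k)
    (hr : (r.map φ).eval t ≠ 0) :
    ((χ.map (mapRingHom φ)).map (evalRingHom t)).Separable := by
  have h1 := congrArg (fun q : K[X][X] => (q.map (mapRingHom φ)).map (evalRingHom t)) hab
  simp only [Polynomial.map_add, Polynomial.map_mul, map_C, coe_mapRingHom,
    coe_evalRingHom] at h1
  rw [Separable]
  refine ⟨C ((r.map φ).eval t)⁻¹ * (a.map (mapRingHom φ)).map (evalRingHom t),
    C ((r.map φ).eval t)⁻¹ * (b.map (mapRingHom φ)).map (evalRingHom t), ?_⟩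
  have h2 : derivative ((χ.map (mapRingHom φ)).map (evalRingHom t)) =
      ((derivative χ).map (mapRingHom φ)).map (evalRingHom t) := by
    rw [derivative_map, derivative_map]
  rw [h2]
  have h3 : C ((r.map φ).eval t)⁻¹ * C ((r.map φ).eval t) = (1 : k[X]) := by
    rw [← C_mul, inv_mul_cancel₀ hr, C_1]
  rw [← h3, ← h1]
  ring

open Classical in
/-- Directions with a double root or not coprime to `c`. -/
theorem card_exc {K : Type} [Field K] [Fintype K] (h2 : (2 : K) ≠ 0) (c : K[X]) (hc : c ≠ 0)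
    (d : ℕ) (hd : c.natDegree ≤ d) (good : K × K → Prop)
    (hgood : ∀ x, IsCoprime (quad (1, x.1, x.2)) c → x.1 ^ 2 ≠ 4 * x.2 → good x) :
    (Finset.univ.filter (fun x : K × K => ¬ good x)).card ≤ (d + 1) * Fintype.card K := by
  have h4 : (4 : K) ≠ 0 := by
    have : (4 : K) = 2 * 2 := by norm_num
    rw [this]
    exact mul_ne_zero h2 h2
  have hsub : (Finset.univ.filter (fun x : K × K => ¬ good x)) ⊆
      (Finset.univ.filter (fun x : K × K => ¬ IsCoprime (quad (1, x.1, x.2)) c)) ∪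
      (Finset.univ.filter (fun x : K × K => x.1 ^ 2 = 4 * x.2)) := by
    intro x hx
    rw [Finset.mem_filter] at hx
    rw [Finset.mem_union, Finset.mem_filter, Finset.mem_filter]
    by_cases h : IsCoprime (quad (1, x.1, x.2)) c
    · right
      refine ⟨Finset.mem_univ _, ?_⟩
      by_contra h0
      exact hx.2 (hgood x h h0)
    · left
      exact ⟨Finset.mem_univ _, h⟩
  have h5 : (Finset.univ.filter (fun x : K × K => x.1 ^ 2 = 4 * x.2)).card ≤
      Fintype.card K := by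
    rw [← Finset.card_univ]
    refine Finset.card_le_card_of_injOn (fun x => x.1) (fun x _ => Finset.mem_univ _) ?_
    intro x hx x' hx' he
    rw [Finset.mem_coe, Finset.mem_filter] at hx hx'
    simp only at he
    have h6 := hx.2
    rw [he, hx'.2] at h6
    exact Prod.ext he (mul_left_cancel₀ h4 h6).symm
  refine (Finset.card_le_card hsub).trans ((Finset.card_union_le _ _).trans ?_)
  refine (Nat.add_le_add (card_noncoprime c hc d hd) h5).trans ?_
  apply le_of_eq
  ring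

open Classical in
theorem count_real {K : Type} [Field K] [Fintype K] (good : K × K → Prop) (z D : ℕ)
    (hbad : (Finset.univ.filter (fun x : K × K => ¬ good x)).card ≤ D * Fintype.card K)
    (F : K × K → K[X][X]) (C0 q : ℝ) (hC0 : 0 ≤ C0) (hq : 1 ≤ q)
    (hqQ : (Fintype.card K : ℝ) = q ^ 2)
    (hcheb : ∀ x : K × K, good x →
      |((Nat.card {lam : K // ∃ R : Finset K, R.card = z - 2 ∧
        ∀ s, s ∈ R ↔ ((F x).map (evalRingHom lam)).eval s = 0} : ℕ) : ℝ) *
        ((z - 2).factorial : ℝ) - q ^ 2| ≤ C0 * q) :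
    |((Finset.univ.filter (fun x : K × (K × K) => ∃ R : Finset K, R.card = z - 2 ∧
        ∀ s, s ∈ R ↔ ((F x.2).map (evalRingHom x.1)).eval s = 0)).card : ℝ) *
      ((z - 2).factorial : ℝ) - (Fintype.card K : ℝ) ^ 3| ≤
      (C0 + D * ((z - 2).factorial : ℝ)) * ((Fintype.card K : ℝ) ^ 2 * q) := by
  set Q : ℝ := (Fintype.card K : ℝ) with hQ
  set N : ℝ := ((z - 2).factorial : ℝ) with hN
  have hN1 : 1 ≤ N := by
    rw [hN]
    exact_mod_cast Nat.one_le_iff_ne_zero.2 (Nat.factorial_ne_zero _)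
  have hQ1 : 1 ≤ Q := by rw [hqQ]; nlinarith
  have hQ0 : 0 ≤ Q := by linarith
  let f : K × K → ℕ := fun x => (Finset.univ.filter (fun lam : K => ∃ R : Finset K,
    R.card = z - 2 ∧ ∀ s, s ∈ R ↔ ((F x).map (evalRingHom lam)).eval s = 0)).card
  have hf : ∀ x, Nat.card {lam : K // ∃ R : Finset K, R.card = z - 2 ∧
        ∀ s, s ∈ R ↔ ((F x).map (evalRingHom lam)).eval s = 0} = f x := by
    intro x
    rw [Nat.card_eq_fintype_card, Fintype.card_subtype]
  have hsum : (Finset.univ.filter (fun x : K × (K × K) => ∃ R : Finset K, R.card = z - 2 ∧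
        ∀ s, s ∈ R ↔ ((F x.2).map (evalRingHom x.1)).eval s = 0)).card = ∑ x : K × K, f x := by
    rw [Finset.card_filter, Fintype.sum_prod_type, Finset.sum_comm]
    refine Finset.sum_congr rfl (fun x _ => ?_)
    simp only [f]
    rw [Finset.card_filter]
  have hfQ : ∀ x, (f x : ℝ) ≤ Q := by
    intro x
    rw [hQ]
    exact_mod_cast Finset.card_le_univ _
  have hb : ∀ x, |(f x : ℝ) * N - Q| ≤ C0 * q + (if ¬ good x then N * Q else 0) := by
    intro x
    have h0 : 0 ≤ C0 * q := mul_nonneg hC0 (by linarith)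
    by_cases h : good x
    · rw [if_neg (not_not.2 h)]
      have := hcheb x h
      rw [hf, ← hqQ] at this
      rw [add_zero]
      exact this
    · rw [if_pos h, abs_le]
      have h1 : 0 ≤ (f x : ℝ) := Nat.cast_nonneg _
      have h2 := hfQ x
      have h3 : 0 ≤ (f x : ℝ) * N := by positivity
      have h4 : (f x : ℝ) * N ≤ Q * N := mul_le_mul_of_nonneg_right h2 (by linarith)
      have h5 : Q ≤ N * Q := by nlinarith
      constructor <;> nlinarith
  have hbadR : ((Finset.univ.filter (fun x : K × K => ¬ good x)).card : ℝ) ≤ D * Q := by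
    rw [hQ]
    exact_mod_cast hbad
  have hcardKK : ((Finset.univ : Finset (K × K)).card : ℝ) = Q ^ 2 := by
    rw [Finset.card_univ, Fintype.card_prod, hQ]
    push_cast
    ring
  have e1 : (∑ x : K × K, (f x : ℝ)) * N - Q ^ 3 = ∑ x : K × K, ((f x : ℝ) * N - Q) := by
    rw [Finset.sum_sub_distrib, Finset.sum_mul, Finset.sum_const, nsmul_eq_mul, hcardKK]
    ring
  rw [hsum]
  push_cast
  rw [e1]
  refine (Finset.abs_sum_le_sum_abs _ _).trans ((Finset.sum_le_sum (fun x _ => hb x)).trans ?_)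
  rw [Finset.sum_add_distrib, Finset.sum_const, nsmul_eq_mul, hcardKK, ← Finset.sum_filter,
    Finset.sum_const, nsmul_eq_mul]
  have hNQ : 0 ≤ N * Q := by positivity
  have h5 := mul_le_mul_of_nonneg_right hbadR hNQ
  have h6 : (D : ℝ) * Q * (N * Q) ≤ D * N * (Q ^ 2 * q) := by
    have h7 : 0 ≤ (D : ℝ) * N * Q ^ 2 := by positivity
    nlinarith
  nlinarith

/-- A root of a quadratic polynomial without double roots is simple. -/
theorem simple_root {K k : Type*} [Field K] [Field k] (φ : K →+* k) (b c : K)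
    (hbc : b ^ 2 ≠ 4 * c) (t : k) (ht : ((quad (1, b, c)).map φ).eval t = 0) :
    (derivative ((quad (1, b, c)).map φ)).eval t ≠ 0 := by
  intro h0
  simp only [quad, Polynomial.map_add, Polynomial.map_mul, map_C, Polynomial.map_pow, map_X,
    map_one, one_mul, eval_add, eval_mul, eval_pow, eval_X, eval_C, derivative_add,
    derivative_mul, derivative_X_pow, derivative_C, derivative_X, zero_mul, mul_one, zero_add,
    add_zero] at ht h0
  norm_num at h0
  apply hbc
  apply φ.injective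
  rw [map_pow, map_mul, map_ofNat]
  linear_combination (2 * t + φ b) * h0 - 4 * ht

end M3a2

open M3a

/-- M3a2. Number of split parabolas (degree at most four) through two good points. -/
theorem M3a2_pairs_of (p n z : ℕ) [Fact p.Prime] (hp2 : p ≠ 2) (hn : 2 ≤ n)
    (h8 : 8 * n ≤ z) (hpl : ¬ p ∣ z - 4 * n)
    (hM1 : ∃ B : ℕ, ∀ (K : Type) [Field K] [Fintype K]
      [CharP K p] (m : ℕ) (_ : Fintype.card K = (p ^ m) ^ 2) (F : K[X][X]), F.Monic →
      F.natDegree = z - 2 → (∀ i, (F.coeff i).natDegree ≤ n) →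
      FullGal (F.map (mapRingHom (algebraMap K (AlgebraicClosure K)))) (z - 2) →
      |((Nat.card {lam : K // ∃ R : Finset K, R.card = z - 2 ∧
          ∀ s, s ∈ R ↔ (F.map (evalRingHom lam)).eval s = 0} : ℕ) : ℝ) * ((z - 2).factorial : ℝ)
          - ((p ^ m : ℕ) : ℝ) ^ 2| ≤ (B : ℝ) * ((p ^ m : ℕ) : ℝ))
    (hM2F : ∀ (K : Type) [Field K] (χ : K[X][X]), IsCnz χ n z → ∀ (P T0 : K[X]) (s1 s2 : K),
      s1 ≠ s2 → P.natDegree ≤ 4 → T0.Monic → T0.natDegree = 2 →
      χ.evalEval s1 (P.eval s1) = 0 → χ.evalEval s2 (P.eval s2) = 0 →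
      ∃ F : K[X][X], F.Monic ∧ F.natDegree = z - 2 ∧ (∀ i, (F.coeff i).natDegree ≤ n) ∧
        C (C ((χ.coeff 0).leadingCoeff)) * (X - C (C s1)) * (X - C (C s2)) * F
          = pencil χ P ((X - C s1) * (X - C s2) * T0))
    (hM2G : ∀ (k : Type) [Field k] [IsAlgClosed k], (2 : k) ≠ 0 → ∀ χ : k[X][X],
      IsCnz χ n z → ((z - 4 * n : ℕ) : k) ≠ 0 → ∀ (P T0 : k[X]) (s1 s2 sy t : k),
      s1 ≠ s2 → s1 ≠ sy → s2 ≠ sy → P.natDegree ≤ 4 → T0.Monic → T0.natDegree = 2 →
      T0.eval t = 0 → (derivative T0).eval t ≠ 0 → t ≠ s1 → t ≠ s2 →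
      (χ.map (evalRingHom t)).Separable →
      Good χ s1 (P.eval s1) → Good χ s2 (P.eval s2) → Good χ sy (P.eval sy) →
      ∀ g : k[X], χ.eval P = (X - C s1) * (X - C s2) * (X - C sy) ^ 2 * g →
      g.Separable → g.eval sy ≠ 0 → IsCoprime T0 (χ.eval P) →
      ∀ F : k[X][X], F.Monic → F.natDegree = z - 2 → (∀ i, (F.coeff i).natDegree ≤ n) →
      C (C ((χ.coeff 0).leadingCoeff)) * (X - C (C s1)) * (X - C (C s2)) * F
        = pencil χ P ((X - C s1) * (X - C s2) * T0) →
      FullGal F (z - 2))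
    (hM2f : ∃ Q₀ : ℕ, ∀ (K : Type) [Field K] [Fintype K] [CharP K p], Q₀ ≤ Fintype.card K →
      ∀ χ : K[X][X], IsCnz χ n z → ∀ s1 s2 sy y1 y2 yy : K, s1 ≠ s2 → s1 ≠ sy → s2 ≠ sy →
      Good χ s1 y1 → Good χ s2 y2 → Good χ sy yy →
      ∃ P g : K[X], P.natDegree ≤ 4 ∧ P.eval s1 = y1 ∧ P.eval s2 = y2 ∧ P.eval sy = yy ∧
        χ.eval P = (X - C s1) * (X - C s2) * (X - C sy) ^ 2 * g ∧ g.Separable ∧
        g.eval sy ≠ 0)
    (hirr : ∀ (K : Type) [Field K] (χ : K[X][X]), IsCnz χ n z → Irreducible χ) :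
    ∃ B : ℝ, 0 < B ∧ ∃ Q₀ : ℕ, ∀ (K : Type) [Field K] [Fintype K] [CharP K p] (m : ℕ),
      Fintype.card K = (p ^ m) ^ 2 → Q₀ ≤ Fintype.card K → ∀ χ : K[X][X], IsCnz χ n z →
      ∀ s1 s2 sy y1 y2 yy : K, s1 ≠ s2 → s1 ≠ sy → s2 ≠ sy →
      Good χ s1 y1 → Good χ s2 y2 → Good χ sy yy →
      |((Nat.card {v : Fin 5 → K // SplitGood χ z (poly5 v) ∧ (poly5 v).eval s1 = y1 ∧
          (poly5 v).eval s2 = y2} : ℕ) : ℝ) - (Fintype.card K : ℝ) ^ 3 / ((z - 2).factorial : ℝ)|
        ≤ B * (Fintype.card K : ℝ) ^ (5 / 2 : ℝ) := by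
  classical
  obtain ⟨C0, hC0⟩ := hM1
  obtain ⟨Q₀, hQ₀⟩ := hM2f
  refine ⟨3 + n * (2 * n * z) + C0 + (z + 2 * n * z + 1 : ℕ), by positivity, Q₀, ?_⟩
  intro K _ _ _ m hK hKQ χ hχ s1 s2 sy y1 y2 yy h12 h1y h2y hg1 hg2 hgy
  obtain ⟨P, g, hP4, rfl, rfl, rfl, hPg, hgsep, hgsy⟩ :=
    hQ₀ K hKQ χ hχ s1 s2 sy y1 y2 yy h12 h1y h2y hg1 hg2 hgy
  have hN0 : (χ.coeff 0) ≠ 0 := by
    intro h0
    have := hχ.deg0
    rw [h0, natDegree_zero] at this
    omega
  have ha : (χ.coeff 0).leadingCoeff ≠ 0 := leadingCoeff_ne_zero.2 hN0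
  have hg0 : g ≠ 0 := by
    intro h0
    apply hgsy
    rw [h0, eval_zero]
  have hP0 : χ.eval P ≠ 0 := by
    rw [hPg]
    exact mul_ne_zero (mul_ne_zero (mul_ne_zero (X_sub_C_ne_zero _) (X_sub_C_ne_zero _))
      (pow_ne_zero _ (X_sub_C_ne_zero _))) hg0
  have hPd : (χ.eval P).natDegree ≤ z := natDegree_eval_le (by omega) hχ (by omega) P hP4
  have hd0 : derivative χ ≠ 0 := by
    intro h
    apply hg1.2
    rw [h, evalEval_zero]
  obtain ⟨r, ra, rb, hr0, hrd, hrab⟩ := M3a2.exists_res χ n z (by omega) hχ (hirr K χ hχ) hd0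
  have hcr0 : χ.eval P * r ≠ 0 := mul_ne_zero hP0 hr0
  have hcrd : (χ.eval P * r).natDegree ≤ z + 2 * n * z :=
    natDegree_mul_le.trans (Nat.add_le_add hPd hrd)
  -- the pencil polynomials
  have hex : ∀ x : K × K, ∃ F : K[X][X], F.Monic ∧ F.natDegree = z - 2 ∧
      (∀ i, (F.coeff i).natDegree ≤ n) ∧
      C (C ((χ.coeff 0).leadingCoeff)) * (X - C (C s1)) * (X - C (C s2)) * F
        = pencil χ P ((X - C s1) * (X - C s2) * quad (1, x.1, x.2)) := fun x =>
    hM2F K χ hχ P (quad (1, x.1, x.2)) s1 s2 h12 hP4 (quad_monic _ _)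
      (quad_natDegree _ _) hg1.1 hg2.1
  choose F hFm hFd hFc hFe using hex
  -- the field
  have hq1 : (1 : ℝ) ≤ ((p ^ m : ℕ) : ℝ) := by
    exact_mod_cast Nat.one_le_iff_ne_zero.2 (pow_ne_zero _ (Fact.out : p.Prime).ne_zero)
  have hqQ : (Fintype.card K : ℝ) = ((p ^ m : ℕ) : ℝ) ^ 2 := by
    rw [hK]; push_cast; rfl
  set φ := algebraMap K (AlgebraicClosure K) with hφ
  have : CharP (AlgebraicClosure K) p := charP_of_injective_algebraMap φ.injective p
  have hpp : p.Prime := Fact.out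
  have h2k : (2 : AlgebraicClosure K) ≠ 0 := by
    intro h0
    have h1 : ((2 : ℕ) : AlgebraicClosure K) = 0 := by exact_mod_cast h0
    rw [CharP.cast_eq_zero_iff (AlgebraicClosure K) p] at h1
    exact hp2 ((Nat.prime_dvd_prime_iff_eq hpp Nat.prime_two).1 h1)
  have hlk : ((z - 4 * n : ℕ) : AlgebraicClosure K) ≠ 0 := by
    intro h1
    rw [CharP.cast_eq_zero_iff (AlgebraicClosure K) p] at h1
    exact hpl h1
  have h2K : (2 : K) ≠ 0 := by
    intro h0
    apply h2k
    rw [← map_ofNat φ 2, h0, map_zero]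
  have hcheb : ∀ x : K × K, (IsCoprime (quad (1, x.1, x.2)) (χ.eval P * r) ∧
      x.1 ^ 2 ≠ 4 * x.2) →
      |((Nat.card {lam : K // ∃ R : Finset K, R.card = z - 2 ∧
        ∀ s, s ∈ R ↔ ((F x).map (evalRingHom lam)).eval s = 0} : ℕ) : ℝ) *
        ((z - 2).factorial : ℝ) - ((p ^ m : ℕ) : ℝ) ^ 2| ≤ (C0 : ℝ) * ((p ^ m : ℕ) : ℝ) := by
    rintro x ⟨hxr, hxd⟩
    have hx : IsCoprime (quad (1, x.1, x.2)) (χ.eval P) := hxr.of_mul_right_left
    have hx' : IsCoprime (quad (1, x.1, x.2)) r := hxr.of_mul_right_right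
    refine hC0 K m hK (F x) (hFm x) (hFd x) (hFc x) ?_
    obtain ⟨t, ht⟩ : ∃ t, ((quad (1, x.1, x.2)).map φ).eval t = 0 := by
      have h1 : ((quad (1, x.1, x.2)).map φ).degree ≠ 0 := by
        rw [degree_map, degree_eq_natDegree (quad_monic _ _).ne_zero, quad_natDegree]
        norm_num
      exact IsAlgClosed.exists_root _ h1
    have hrt : (r.map φ).eval t ≠ 0 := by
      obtain ⟨u, v, huv⟩ := hx'
      intro h0
      have h1 := congrArg (fun A : K[X] => (A.map φ).eval t) huv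
      simp only [Polynomial.map_add, Polynomial.map_mul, eval_add, eval_mul, ht, h0, mul_zero,
        add_zero, Polynomial.map_one, eval_one] at h1
      exact zero_ne_one h1
    have hPt : ((χ.eval P).map φ).eval t ≠ 0 := by
      obtain ⟨u, v, huv⟩ := hx
      intro h0
      have h1 := congrArg (fun A : K[X] => (A.map φ).eval t) huv
      simp only [Polynomial.map_add, Polynomial.map_mul, eval_add, eval_mul, ht, h0, mul_zero,
        add_zero, Polynomial.map_one, eval_one] at h1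
      exact zero_ne_one h1
    have ht1 : t ≠ φ s1 := by
      rintro rfl
      apply hPt
      rw [eval_map_apply, ← evalEval_eq, hg1.1, map_zero]
    have ht2 : t ≠ φ s2 := by
      rintro rfl
      apply hPt
      rw [eval_map_apply, ← evalEval_eq, hg2.1, map_zero]
    have hgmap : (χ.map (mapRingHom φ)).eval (P.map φ) = (X - C (φ s1)) * (X - C (φ s2)) *
        (X - C (φ sy)) ^ 2 * g.map φ := by
      rw [eval_map_map, hPg]
      simp
    have hT : ((X - C s1) * (X - C s2) * quad (1, x.1, x.2)).map φ =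
        (X - C (φ s1)) * (X - C (φ s2)) * (quad (1, x.1, x.2)).map φ := by
      simp
    have hlead : ((χ.map (mapRingHom φ)).coeff 0).leadingCoeff =
        φ ((χ.coeff 0).leadingCoeff) := by
      rw [coeff_map, coe_mapRingHom, leadingCoeff_map]
    have hcoe : ∀ i, (((F x).map (mapRingHom φ)).coeff i).natDegree ≤ n := by
      intro i
      rw [coeff_map, coe_mapRingHom, natDegree_map]
      exact hFc x i
    refine hM2G (AlgebraicClosure K) h2k (χ.map (mapRingHom φ)) (cnz_map φ hχ) hlk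
      (P.map φ) ((quad (1, x.1, x.2)).map φ) (φ s1) (φ s2) (φ sy) t
      (fun h => h12 (φ.injective h)) (fun h => h1y (φ.injective h))
      (fun h => h2y (φ.injective h)) (by rw [natDegree_map]; exact hP4)
      ((quad_monic _ _).map _) (by rw [natDegree_map]; exact quad_natDegree _ _)
      ht (M3a2.simple_root φ _ _ hxd t ht) ht1 ht2 (M3a2.separable_fibre φ χ r ra rb hrab t hrt)
      ?_ ?_ ?_ (g.map φ) hgmap (hgsep.map) ?_ ?_ _ ((hFm x).map _) ?_ hcoe ?_
    · rw [eval_map_apply]; exact good_map φ hg1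
    · rw [eval_map_apply]; exact good_map φ hg2
    · rw [eval_map_apply]; exact good_map φ hgy
    · rw [eval_map_apply]
      intro h0
      exact hgsy ((map_eq_zero φ).1 h0)
    · rw [eval_map_map]
      exact hx.map (mapRingHom φ)
    · rw [(hFm x).natDegree_map, hFd]
    · have e1 := congrArg (fun G : K[X][X] => G.map (mapRingHom φ)) (hFe x)
      simp only [pencil_map] at e1
      rw [hlead, ← hT, ← e1]
      simp only [Polynomial.map_mul, Polynomial.map_sub, map_C, map_X, coe_mapRingHom, hφ]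
  have hc := count_nat χ n z hn hχ (hirr K χ hχ) h8 s1 s2 h12 P hg1 hg2 _ ha F hFm hFd hFe
  have hr := M3a2.count_real (fun x : K × K => IsCoprime (quad (1, x.1, x.2)) (χ.eval P * r) ∧
      x.1 ^ 2 ≠ 4 * x.2) z (z + 2 * n * z + 1)
    (M3a2.card_exc h2K (χ.eval P * r) hcr0 (z + 2 * n * z) hcrd _ (fun x h1 h2 => ⟨h1, h2⟩)) F (C0 : ℝ) ((p ^ m : ℕ) : ℝ)
    (Nat.cast_nonneg _) hq1 hqQ hcheb
  rw [card_param χ z s1 s2 h12 P hP4]
  -- the power 5/2
  have h52 : (Fintype.card K : ℝ) ^ (5 / 2 : ℝ) =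
      (Fintype.card K : ℝ) ^ 2 * ((p ^ m : ℕ) : ℝ) := by
    have hq0 : (0 : ℝ) ≤ ((p ^ m : ℕ) : ℝ) := by linarith
    rw [hqQ, ← Real.rpow_natCast, ← Real.rpow_mul hq0, ← Real.rpow_natCast, ← Real.rpow_mul hq0]
    have h1 : (((2 : ℕ) : ℝ) * (5 / 2 : ℝ)) = ((5 : ℕ) : ℝ) := by norm_num
    have h2 : (((2 : ℕ) : ℝ) * ((2 : ℕ) : ℝ)) = ((4 : ℕ) : ℝ) := by norm_num
    rw [h1, h2, Real.rpow_natCast, Real.rpow_natCast]
    ring
  rw [h52]
  set A : ℕ := (Finset.univ.filter (fun t : K × K × K =>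
      SplitGood χ z (P + (X - C s1) * (X - C s2) * quad t))).card with hA
  set Fs : ℕ := (Finset.univ.filter (fun x : K × (K × K) => ∃ R : Finset K, R.card = z - 2 ∧
        ∀ s, s ∈ R ↔ ((F x.2).map (evalRingHom x.1)).eval s = 0)).card with hFs
  set Q : ℝ := (Fintype.card K : ℝ) with hQ
  set q : ℝ := ((p ^ m : ℕ) : ℝ) with hq
  set N : ℝ := ((z - 2).factorial : ℝ) with hN
  set D : ℕ := z + 2 * n * z + 1 with hD
  have hN1 : 1 ≤ N := by
    rw [hN]
    exact_mod_cast Nat.one_le_iff_ne_zero.2 (Nat.factorial_ne_zero _)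
  have hNpos : 0 < N := by linarith
  have hc1 : (A : ℝ) ≤ Q ^ 2 + Fs := by rw [hQ]; exact_mod_cast hc.1
  have hc2 : (Fs : ℝ) ≤ (3 + n * (2 * n * z)) * Q ^ 2 + A := by rw [hQ]; exact_mod_cast hc.2
  have hnn : (0 : ℝ) ≤ (n : ℝ) * (2 * n * z) := by positivity
  have hQ2 : 0 ≤ Q ^ 2 := by positivity
  have hAF : |(A : ℝ) - Fs| ≤ (3 + n * (2 * n * z)) * Q ^ 2 := by
    rw [abs_le]
    constructor <;> nlinarith
  have hC0n : (0 : ℝ) ≤ C0 := Nat.cast_nonneg _
  have hz0 : (0 : ℝ) ≤ D := Nat.cast_nonneg _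
  have hX : 0 ≤ Q ^ 2 * q := by positivity
  have hFN : |(Fs : ℝ) - Q ^ 3 / N| ≤ (C0 + D) * (Q ^ 2 * q) := by
    have e1 : (Fs : ℝ) - Q ^ 3 / N = ((Fs : ℝ) * N - Q ^ 3) / N := by
      field_simp
    rw [e1, abs_div, abs_of_pos hNpos, div_le_iff₀ hNpos]
    refine hr.trans ?_
    have h1 : (C0 : ℝ) ≤ C0 * N := by nlinarith
    have h2 : (C0 : ℝ) + D * N ≤ (C0 + D) * N := by nlinarith
    calc (C0 + D * N) * (Q ^ 2 * q) ≤ ((C0 + D) * N) * (Q ^ 2 * q) :=
          mul_le_mul_of_nonneg_right h2 hX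
      _ = (C0 + D) * (Q ^ 2 * q) * N := by ring
  have htri : |(A : ℝ) - Q ^ 3 / N| ≤ |(A : ℝ) - Fs| + |(Fs : ℝ) - Q ^ 3 / N| :=
    abs_sub_le _ _ _
  have hQq : Q ^ 2 ≤ Q ^ 2 * q := by nlinarith
  have h9 : (3 + (n : ℝ) * (2 * n * z)) * Q ^ 2 ≤ (3 + n * (2 * n * z)) * (Q ^ 2 * q) :=
    mul_le_mul_of_nonneg_left hQq (by positivity)
  calc |(A : ℝ) - Q ^ 3 / N| ≤ (3 + n * (2 * n * z)) * (Q ^ 2 * q) + (C0 + D) * (Q ^ 2 * q) := by
        linarith
    _ = (3 + n * (2 * n * z) + C0 + D) * (Q ^ 2 * q) := by ring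

end Pool.Agent.K1
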