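import Pool.Agent.K1.M3a2

/-!
# K1 project, M3a3: the number of split parabolas through two good points, in every characteristic
(including two).
-/

open Polynomial

namespace Pool.Agent.K1

namespace M3a3

open M3a

open Classical in
/-- Directions with a double root or not coprime to `c`. -/
theorem card_exc {K : Type} [Field K] [Fintype K] (c : K[X]) (hc : c ≠ 0)
    (d : ℕ) (hd : c.natDegree ≤ d) (good : K × K → Prop)
    (hgood : ∀ x, IsCoprime (quad (1, x.1, x.2)) c → x.1 ^ 2 ≠ 4 * x.2 → good x) :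
    (Finset.univ.filter (fun x : K × K => ¬ good x)).card ≤ (d + 1) * Fintype.card K := by
  have hsub : (Finset.univ.filter (fun x : K × K => ¬ good x)) ⊆
      (Finset.univ.filter (fun x : K × K => ¬ IsCoprime (quad (1, x.1, x.2)) c)) ∪
      (Finset.univ.filter (fun x : K × K => x.1 ^ 2 = 4 * x.2)) := by
    intro x hx
    rw [Finset.mem_filter] at hx
    rw [Finset.mem_union, Finset.mem_filter, Finset.mem_filter]
    by_cases h : IsCoprime (quad (1, x.1, x.2)) c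
    · right
      refine ⟨Finset.mem_univ _, ?_⟩
      by_contra h0
      exact hx.2 (hgood x h h0)
    · left
      exact ⟨Finset.mem_univ _, h⟩
  have h5 : (Finset.univ.filter (fun x : K × K => x.1 ^ 2 = 4 * x.2)).card ≤
      Fintype.card K := by
    rw [← Finset.card_univ]
    by_cases h4 : (4 : K) = 0
    · refine Finset.card_le_card_of_injOn (fun x => x.2) (fun x _ => Finset.mem_univ _) ?_
      intro x hx x' hx' he
      rw [Finset.mem_coe, Finset.mem_filter, h4, zero_mul] at hx hx'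
      have h6 : x.1 = 0 := by simpa using hx.2
      have h7 : x'.1 = 0 := by simpa using hx'.2
      exact Prod.ext (h6.trans h7.symm) he
    · refine Finset.card_le_card_of_injOn (fun x => x.1) (fun x _ => Finset.mem_univ _) ?_
      intro x hx x' hx' he
      rw [Finset.mem_coe, Finset.mem_filter] at hx hx'
      simp only at he
      have h6 := hx.2
      rw [he, hx'.2] at h6
      exact Prod.ext he (mul_left_cancel₀ h4 h6).symm
  refine (Finset.card_le_card hsub).trans ((Finset.card_union_le _ _).trans ?_)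
  refine (Nat.add_le_add (card_noncoprime c hc d hd) h5).trans ?_
  apply le_of_eq
  ring

end M3a3

open M3a

/-- M3a3. Number of split parabolas (degree at most four) through two good points, in every
characteristic. -/
theorem M3a3_pairs_of (p n z : ℕ) [Fact p.Prime] (hn : 2 ≤ n)
    (h8 : 8 * n ≤ z) (hpl : ¬ p ∣ z - 4 * n)
    (hM1 : ∃ B : ℕ, ∀ (K : Type) [Field K] [Fintype K]
      [CharP K p] (m : ℕ) (_ : Fintype.card K = (p ^ m) ^ 2) (F : K[X][X]), F.Monic →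
      F.natDegree = z - 2 → (∀ i, (F.coeff i).natDegree ≤ n) →
      FullGal (F.map (mapRingHom (algebraMap K (AlgebraicClosure K)))) (z - 2) →
      |((Nat.card {lam : K // ∃ R : Finset K, R.card = z - 2 ∧
          ∀ s, s ∈ R ↔ (F.map (evalRingHom lam)).eval s = 0} : ℕ) : ℝ) * ((z - 2).factorial : ℝ)
          - ((p ^ m : ℕ) : ℝ) ^ 2| ≤ (B : ℝ) * ((p ^ m : ℕ) : ℝ))
    (hM2F : ∀ (K : Type) [Field K] (χ : K[X][X]), IsCnz χ n z → ∀ (P T0 : K[X]) (s1 s2 : K),
      s1 ≠ s2 → P.natDegree ≤ 4 → T0.Monic → T0.natDegree = 2 →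
      χ.evalEval s1 (P.eval s1) = 0 → χ.evalEval s2 (P.eval s2) = 0 →
      ∃ F : K[X][X], F.Monic ∧ F.natDegree = z - 2 ∧ (∀ i, (F.coeff i).natDegree ≤ n) ∧
        C (C ((χ.coeff 0).leadingCoeff)) * (X - C (C s1)) * (X - C (C s2)) * F
          = pencil χ P ((X - C s1) * (X - C s2) * T0))
    (hM2G : ∀ (k : Type) [Field k] [IsAlgClosed k], ∀ χ : k[X][X],
      IsCnz χ n z → ((z - 4 * n : ℕ) : k) ≠ 0 → ∀ (P T0 : k[X]) (s1 s2 sy t : k),
      s1 ≠ s2 → s1 ≠ sy → s2 ≠ sy → P.natDegree ≤ 4 → T0.Monic → T0.natDegree = 2 →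
      T0.eval t = 0 → (derivative T0).eval t ≠ 0 → t ≠ s1 → t ≠ s2 →
      (χ.map (evalRingHom t)).Separable →
      Good χ s1 (P.eval s1) → Good χ s2 (P.eval s2) → Good χ sy (P.eval sy) →
      ∀ g : k[X], χ.eval P = (X - C s1) * (X - C s2) * (X - C sy) ^ 2 * g →
      g.Separable → g.eval sy ≠ 0 → IsCoprime T0 (χ.eval P) →
      ∀ F : k[X][X], F.Monic → F.natDegree = z - 2 → (∀ i, (F.coeff i).natDegree ≤ n) →
      C (C ((χ.coeff 0).leadingCoeff)) * (X - C (C s1)) * (X - C (C s2)) * F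
        = pencil χ P ((X - C s1) * (X - C s2) * T0) →
      FullGal F (z - 2))
    (hM2f : ∃ Q₀ : ℕ, ∀ (K : Type) [Field K] [Fintype K] [CharP K p], Q₀ ≤ Fintype.card K →
      ∀ χ : K[X][X], IsCnz χ n z → ∀ s1 s2 sy y1 y2 yy : K, s1 ≠ s2 → s1 ≠ sy → s2 ≠ sy →
      Good χ s1 y1 → Good χ s2 y2 → Good χ sy yy →
      ∃ P g : K[X], P.natDegree ≤ 4 ∧ P.eval s1 = y1 ∧ P.eval s2 = y2 ∧ P.eval sy = yy ∧
        χ.eval P = (X - C s1) * (X - C s2) * (X - C sy) ^ 2 * g ∧ g.Separable ∧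
        g.eval sy ≠ 0)
    (hirr : ∀ (K : Type) [Field K] (χ : K[X][X]), IsCnz χ n z → Irreducible χ) :
    ∃ B : ℝ, 0 < B ∧ ∃ Q₀ : ℕ, ∀ (K : Type) [Field K] [Fintype K] [CharP K p] (m : ℕ),
      Fintype.card K = (p ^ m) ^ 2 → Q₀ ≤ Fintype.card K → ∀ χ : K[X][X], IsCnz χ n z →
      ∀ s1 s2 sy y1 y2 yy : K, s1 ≠ s2 → s1 ≠ sy → s2 ≠ sy →
      Good χ s1 y1 → Good χ s2 y2 → Good χ sy yy →
      |((Nat.card {v : Fin 5 → K // SplitGood χ z (poly5 v) ∧ (poly5 v).eval s1 = y1 ∧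
          (poly5 v).eval s2 = y2} : ℕ) : ℝ) - (Fintype.card K : ℝ) ^ 3 / ((z - 2).factorial : ℝ)|
        ≤ B * (Fintype.card K : ℝ) ^ (5 / 2 : ℝ) := by
  classical
  obtain ⟨C0, hC0⟩ := hM1
  obtain ⟨Q₀, hQ₀⟩ := hM2f
  refine ⟨3 + n * (2 * n * z) + C0 + (z + 2 * n * z + 1 : ℕ), by positivity, Q₀, ?_⟩
  intro K _ _ _ m hK hKQ χ hχ s1 s2 sy y1 y2 yy h12 h1y h2y hg1 hg2 hgy
  obtain ⟨P, g, hP4, rfl, rfl, rfl, hPg, hgsep, hgsy⟩ :=
    hQ₀ K hKQ χ hχ s1 s2 sy y1 y2 yy h12 h1y h2y hg1 hg2 hgy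
  have hN0 : (χ.coeff 0) ≠ 0 := by
    intro h0
    have := hχ.deg0
    rw [h0, natDegree_zero] at this
    omega
  have ha : (χ.coeff 0).leadingCoeff ≠ 0 := leadingCoeff_ne_zero.2 hN0
  have hg0 : g ≠ 0 := by
    intro h0
    apply hgsy
    rw [h0, eval_zero]
  have hP0 : χ.eval P ≠ 0 := by
    rw [hPg]
    exact mul_ne_zero (mul_ne_zero (mul_ne_zero (X_sub_C_ne_zero _) (X_sub_C_ne_zero _))
      (pow_ne_zero _ (X_sub_C_ne_zero _))) hg0
  have hPd : (χ.eval P).natDegree ≤ z := natDegree_eval_le (by omega) hχ (by omega) P hP4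
  have hd0 : derivative χ ≠ 0 := by
    intro h
    apply hg1.2
    rw [h, evalEval_zero]
  obtain ⟨r, ra, rb, hr0, hrd, hrab⟩ := M3a2.exists_res χ n z (by omega) hχ (hirr K χ hχ) hd0
  have hcr0 : χ.eval P * r ≠ 0 := mul_ne_zero hP0 hr0
  have hcrd : (χ.eval P * r).natDegree ≤ z + 2 * n * z :=
    natDegree_mul_le.trans (Nat.add_le_add hPd hrd)
  -- the pencil polynomials
  have hex : ∀ x : K × K, ∃ F : K[X][X], F.Monic ∧ F.natDegree = z - 2 ∧
      (∀ i, (F.coeff i).natDegree ≤ n) ∧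
      C (C ((χ.coeff 0).leadingCoeff)) * (X - C (C s1)) * (X - C (C s2)) * F
        = pencil χ P ((X - C s1) * (X - C s2) * quad (1, x.1, x.2)) := fun x =>
    hM2F K χ hχ P (quad (1, x.1, x.2)) s1 s2 h12 hP4 (quad_monic _ _)
      (quad_natDegree _ _) hg1.1 hg2.1
  choose F hFm hFd hFc hFe using hex
  -- the field
  have hq1 : (1 : ℝ) ≤ ((p ^ m : ℕ) : ℝ) := by
    exact_mod_cast Nat.one_le_iff_ne_zero.2 (pow_ne_zero _ (Fact.out : p.Prime).ne_zero)
  have hqQ : (Fintype.card K : ℝ) = ((p ^ m : ℕ) : ℝ) ^ 2 := by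
    rw [hK]; push_cast; rfl
  set φ := algebraMap K (AlgebraicClosure K) with hφ
  have : CharP (AlgebraicClosure K) p := charP_of_injective_algebraMap φ.injective p
  have hpp : p.Prime := Fact.out
  have hlk : ((z - 4 * n : ℕ) : AlgebraicClosure K) ≠ 0 := by
    intro h1
    rw [CharP.cast_eq_zero_iff (AlgebraicClosure K) p] at h1
    exact hpl h1
  have hcheb : ∀ x : K × K, (IsCoprime (quad (1, x.1, x.2)) (χ.eval P * r) ∧
      x.1 ^ 2 ≠ 4 * x.2) →
      |((Nat.card {lam : K // ∃ R : Finset K, R.card = z - 2 ∧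
        ∀ s, s ∈ R ↔ ((F x).map (evalRingHom lam)).eval s = 0} : ℕ) : ℝ) *
        ((z - 2).factorial : ℝ) - ((p ^ m : ℕ) : ℝ) ^ 2| ≤ (C0 : ℝ) * ((p ^ m : ℕ) : ℝ) := by
    rintro x ⟨hxr, hxd⟩
    have hx : IsCoprime (quad (1, x.1, x.2)) (χ.eval P) := hxr.of_mul_right_left
    have hx' : IsCoprime (quad (1, x.1, x.2)) r := hxr.of_mul_right_right
    refine hC0 K m hK (F x) (hFm x) (hFd x) (hFc x) ?_
    obtain ⟨t, ht⟩ : ∃ t, ((quad (1, x.1, x.2)).map φ).eval t = 0 := by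
      have h1 : ((quad (1, x.1, x.2)).map φ).degree ≠ 0 := by
        rw [degree_map, degree_eq_natDegree (quad_monic _ _).ne_zero, quad_natDegree]
        norm_num
      exact IsAlgClosed.exists_root _ h1
    have hrt : (r.map φ).eval t ≠ 0 := by
      obtain ⟨u, v, huv⟩ := hx'
      intro h0
      have h1 := congrArg (fun A : K[X] => (A.map φ).eval t) huv
      simp only [Polynomial.map_add, Polynomial.map_mul, eval_add, eval_mul, ht, h0, mul_zero,
        add_zero, Polynomial.map_one, eval_one] at h1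
      exact zero_ne_one h1
    have hPt : ((χ.eval P).map φ).eval t ≠ 0 := by
      obtain ⟨u, v, huv⟩ := hx
      intro h0
      have h1 := congrArg (fun A : K[X] => (A.map φ).eval t) huv
      simp only [Polynomial.map_add, Polynomial.map_mul, eval_add, eval_mul, ht, h0, mul_zero,
        add_zero, Polynomial.map_one, eval_one] at h1
      exact zero_ne_one h1
    have ht1 : t ≠ φ s1 := by
      rintro rfl
      apply hPt
      rw [eval_map_apply, ← evalEval_eq, hg1.1, map_zero]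
    have ht2 : t ≠ φ s2 := by
      rintro rfl
      apply hPt
      rw [eval_map_apply, ← evalEval_eq, hg2.1, map_zero]
    have hgmap : (χ.map (mapRingHom φ)).eval (P.map φ) = (X - C (φ s1)) * (X - C (φ s2)) *
        (X - C (φ sy)) ^ 2 * g.map φ := by
      rw [eval_map_map, hPg]
      simp
    have hT : ((X - C s1) * (X - C s2) * quad (1, x.1, x.2)).map φ =
        (X - C (φ s1)) * (X - C (φ s2)) * (quad (1, x.1, x.2)).map φ := by
      simp
    have hlead : ((χ.map (mapRingHom φ)).coeff 0).leadingCoeff =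
        φ ((χ.coeff 0).leadingCoeff) := by
      rw [coeff_map, coe_mapRingHom, leadingCoeff_map]
    have hcoe : ∀ i, (((F x).map (mapRingHom φ)).coeff i).natDegree ≤ n := by
      intro i
      rw [coeff_map, coe_mapRingHom, natDegree_map]
      exact hFc x i
    refine hM2G (AlgebraicClosure K) (χ.map (mapRingHom φ)) (cnz_map φ hχ) hlk
      (P.map φ) ((quad (1, x.1, x.2)).map φ) (φ s1) (φ s2) (φ sy) t
      (fun h => h12 (φ.injective h)) (fun h => h1y (φ.injective h))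
      (fun h => h2y (φ.injective h)) (by rw [natDegree_map]; exact hP4)
      ((quad_monic _ _).map _) (by rw [natDegree_map]; exact quad_natDegree _ _)
      ht (M3a2.simple_root φ _ _ hxd t ht) ht1 ht2 (M3a2.separable_fibre φ χ r ra rb hrab t hrt)
      ?_ ?_ ?_ (g.map φ) hgmap (hgsep.map) ?_ ?_ _ ((hFm x).map _) ?_ hcoe ?_
    · rw [eval_map_apply]; exact good_map φ hg1
    · rw [eval_map_apply]; exact good_map φ hg2
    · rw [eval_map_apply]; exact good_map φ hgy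
    · rw [eval_map_apply]
      intro h0
      exact hgsy ((map_eq_zero φ).1 h0)
    · rw [eval_map_map]
      exact hx.map (mapRingHom φ)
    · rw [(hFm x).natDegree_map, hFd]
    · have e1 := congrArg (fun G : K[X][X] => G.map (mapRingHom φ)) (hFe x)
      simp only [pencil_map] at e1
      rw [hlead, ← hT, ← e1]
      simp only [Polynomial.map_mul, Polynomial.map_sub, map_C, map_X, coe_mapRingHom, hφ]
  have hc := count_nat χ n z hn hχ (hirr K χ hχ) h8 s1 s2 h12 P hg1 hg2 _ ha F hFm hFd hFe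
  have hr := M3a2.count_real (fun x : K × K => IsCoprime (quad (1, x.1, x.2)) (χ.eval P * r) ∧
      x.1 ^ 2 ≠ 4 * x.2) z (z + 2 * n * z + 1)
    (M3a3.card_exc (χ.eval P * r) hcr0 (z + 2 * n * z) hcrd _ (fun x h1 h2 => ⟨h1, h2⟩)) F (C0 : ℝ) ((p ^ m : ℕ) : ℝ)
    (Nat.cast_nonneg _) hq1 hqQ hcheb
  rw [card_param χ z s1 s2 h12 P hP4]
  -- the power 5/2
  have h52 : (Fintype.card K : ℝ) ^ (5 / 2 : ℝ) =
      (Fintype.card K : ℝ) ^ 2 * ((p ^ m : ℕ) : ℝ) := by
    have hq0 : (0 : ℝ) ≤ ((p ^ m : ℕ) : ℝ) := by linarith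
    rw [hqQ, ← Real.rpow_natCast, ← Real.rpow_mul hq0, ← Real.rpow_natCast, ← Real.rpow_mul hq0]
    have h1 : (((2 : ℕ) : ℝ) * (5 / 2 : ℝ)) = ((5 : ℕ) : ℝ) := by norm_num
    have h2 : (((2 : ℕ) : ℝ) * ((2 : ℕ) : ℝ)) = ((4 : ℕ) : ℝ) := by norm_num
    rw [h1, h2, Real.rpow_natCast, Real.rpow_natCast]
    ring
  rw [h52]
  set A : ℕ := (Finset.univ.filter (fun t : K × K × K =>
      SplitGood χ z (P + (X - C s1) * (X - C s2) * quad t))).card with hA
  set Fs : ℕ := (Finset.univ.filter (fun x : K × (K × K) => ∃ R : Finset K, R.card = z - 2 ∧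
        ∀ s, s ∈ R ↔ ((F x.2).map (evalRingHom x.1)).eval s = 0)).card with hFs
  set Q : ℝ := (Fintype.card K : ℝ) with hQ
  set q : ℝ := ((p ^ m : ℕ) : ℝ) with hq
  set N : ℝ := ((z - 2).factorial : ℝ) with hN
  set D : ℕ := z + 2 * n * z + 1 with hD
  have hN1 : 1 ≤ N := by
    rw [hN]
    exact_mod_cast Nat.one_le_iff_ne_zero.2 (Nat.factorial_ne_zero _)
  have hNpos : 0 < N := by linarith
  have hc1 : (A : ℝ) ≤ Q ^ 2 + Fs := by rw [hQ]; exact_mod_cast hc.1
  have hc2 : (Fs : ℝ) ≤ (3 + n * (2 * n * z)) * Q ^ 2 + A := by rw [hQ]; exact_mod_cast hc.2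
  have hnn : (0 : ℝ) ≤ (n : ℝ) * (2 * n * z) := by positivity
  have hQ2 : 0 ≤ Q ^ 2 := by positivity
  have hAF : |(A : ℝ) - Fs| ≤ (3 + n * (2 * n * z)) * Q ^ 2 := by
    rw [abs_le]
    constructor <;> nlinarith
  have hC0n : (0 : ℝ) ≤ C0 := Nat.cast_nonneg _
  have hz0 : (0 : ℝ) ≤ D := Nat.cast_nonneg _
  have hX : 0 ≤ Q ^ 2 * q := by positivity
  have hFN : |(Fs : ℝ) - Q ^ 3 / N| ≤ (C0 + D) * (Q ^ 2 * q) := by
    have e1 : (Fs : ℝ) - Q ^ 3 / N = ((Fs : ℝ) * N - Q ^ 3) / N := by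
      field_simp
    rw [e1, abs_div, abs_of_pos hNpos, div_le_iff₀ hNpos]
    refine hr.trans ?_
    have h1 : (C0 : ℝ) ≤ C0 * N := by nlinarith
    have h2 : (C0 : ℝ) + D * N ≤ (C0 + D) * N := by nlinarith
    calc (C0 + D * N) * (Q ^ 2 * q) ≤ ((C0 + D) * N) * (Q ^ 2 * q) :=
          mul_le_mul_of_nonneg_right h2 hX
      _ = (C0 + D) * (Q ^ 2 * q) * N := by ring
  have htri : |(A : ℝ) - Q ^ 3 / N| ≤ |(A : ℝ) - Fs| + |(Fs : ℝ) - Q ^ 3 / N| :=
    abs_sub_le _ _ _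
  have hQq : Q ^ 2 ≤ Q ^ 2 * q := by nlinarith
  have h9 : (3 + (n : ℝ) * (2 * n * z)) * Q ^ 2 ≤ (3 + n * (2 * n * z)) * (Q ^ 2 * q) :=
    mul_le_mul_of_nonneg_left hQq (by positivity)
  calc |(A : ℝ) - Q ^ 3 / N| ≤ (3 + n * (2 * n * z)) * (Q ^ 2 * q) + (C0 + D) * (Q ^ 2 * q) := by
        linarith
    _ = (3 + n * (2 * n * z) + C0 + D) * (Q ^ 2 * q) := by ring

end Pool.Agent.K1
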