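import Pool.Agent.K1.M7d
import Pool.Agent.K1.M4
import Pool.Agent.K1.M1C
import Pool.Agent.K1.M1A1
import Pool.Agent.K1.M2e3
import Pool.Agent.K1.M2f
import Pool.Agent.K1.M3a3
import Pool.Agent.K1.Arith3
import Pool.Agent.K1.IrrCnz
import Pool.Agent.K1.CoreOfR

/-!
K1, second half: the combinatorial core `M4Concl` in every characteristic (including two), from the
Chebotarev bound M1B.
-/

set_option autoImplicit false

open Polynomial

namespace Pool.Agent.K1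

/-- The statement of M1B (upper bound for the number of points of a twist) for given `p N h`. -/
def M1BConcl (p N h : ℕ) : Prop := ∃ B : ℕ, ∀ (k : Type) [Field k] [IsAlgClosed k]
      [CharP k p] (F : k[X][X]), F.Monic → F.natDegree = N →
      (∀ i, (F.coeff i).natDegree ≤ h) → FullGal F N → ∀ (m : ℕ) (_ : 0 < m)
      (τ : Equiv.Perm (Fin N))
      (Q : Finset (k × (Fin N → k))),
      (∀ q ∈ Q, FibrePt F q ∧ q.1 ^ ((p ^ m) ^ 2) = q.1 ∧
        ∀ i, (q.2 i) ^ ((p ^ m) ^ 2) = q.2 (τ i)) →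
      Q.card ≤ (p ^ m) ^ 2 + B * p ^ m

/-- The combinatorial core, in every characteristic. -/
theorem M4Concl_of (p n z : ℕ) [Fact p.Prime] (hB : M1BConcl p (z - 2) n) (hn : 2 ≤ n)
    (hcop : n.Coprime z) (h16 : 16 * n ^ 2 ≤ z) (hco : (z - 4 * n).Coprime (4 * n - 2))
    (hpl : ¬ p ∣ z - 4 * n) (hpz : ¬ p ∣ z - 4) : M4Concl p n z := by
  have h8 : 8 * n ≤ z := by nlinarith
  refine M4_core_of_pairs p n z hn h8 ?_
  refine M3a3_pairs_of p n z hn h8 hpl ?_ ?_ ?_ ?_ ?_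
  · exact M1_cheb_of p (z - 2) n (M1A2_unramified _ _) hB
  · intro K _ χ hχ P T0 s1 s2 h12 hP hT0 hT0d hs1 hs2
    exact M2_exists_F χ n z hn hχ h8 P T0 s1 s2 h12 hP hT0 hT0d hs1 hs2
  · intro k _ _ χ hχ hlk P T0 s1 s2 sy t h12 h1y h2y hP hT0 hT0d ht ht' ht1 ht2 hsept hg1 hg2 hgy
      g hg hsep hgy' hcopT F hFm hFd hFc hF
    exact M2_fullGal3 χ n z hn hχ hcop h16 hco hlk P T0 s1 s2 sy t h12 h1y h2y hP hT0 hT0d ht ht'
      ht1 ht2 hsept hg1 hg2 hgy g hg hsep hgy' hcopT F hFm hFd hFc hF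
  · exact M2f_exists_P_of (fun _ _ _ χ n z hn hχ hcop P T D hT hD F hFm hFd hF hprim =>
      M2b0_irreducible χ n z hn hχ hcop P T D hT hD F hFm hFd hF hprim) p n z hn hcop h8 hpz
  · intro K _ χ hχ
    exact irreducible_of_isCnz χ n z (by omega) hχ hcop

/-- The choice of the second weight with the combinatorial core for it, in every characteristic:
for some prime `r` different from `p`. -/
theorem exists_arithCore (p : ℕ) [Fact p.Prime] (hB : ∀ N h : ℕ, M1BConcl p N h) :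
    ∃ r : ℕ, r.Prime ∧ r ≠ p ∧ ArithCore p r := by
  by_cases hp2 : p = 2
  · subst hp2
    refine ⟨3, by norm_num, by norm_num, ?_⟩
    intro j₀ hj₀
    obtain ⟨c, n₀, hc, h⟩ := arith_weight3 j₀ hj₀
    refine ⟨c, n₀ + 2, fun e he M hM hcM => ?_⟩
    obtain ⟨z, a, j, h1, h2, h3, h4, h5, h6, h7, h8, h9, h10⟩ := h e (by omega) M hM hcM
    have hn2 : 2 ≤ 3 ^ e := by omega
    exact ⟨z, a, j, h1, h2, h3, h4, h5, h6, by nlinarith,
      M4Concl_of 2 _ z (hB _ _) hn2 h6 h7 h8 h9 h10⟩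
  · refine ⟨2, by norm_num, fun h => hp2 h.symm, ?_⟩
    intro j₀ hj₀
    obtain ⟨c, n₀, hc, h⟩ := arith_weight p j₀ hp2 hj₀
    refine ⟨c, n₀ + 2, fun e he M hM hcM => ?_⟩
    obtain ⟨z, a, j, h1, h2, h3, h4, h5, h6, h7, h8, h9, h10⟩ := h e (by omega) M
      (Nat.coprime_two_left.1 hM) hcM
    have hn2 : 2 ≤ 2 ^ e := by omega
    exact ⟨z, a, j, h1, h2, h3, h4, h5, h6, by nlinarith,
      M4Concl_of p _ z (hB _ _) hn2 h6 h7 h8 h9 h10⟩

/-- The core of part A for every characteristic, from M1B. -/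
theorem K1_core_all (p : ℕ) [Fact p.Prime] (hB : ∀ N h : ℕ, M1BConcl p N h) :
    ∃ r : ℕ, r.Prime ∧ r ≠ p ∧ ∀ {k A : Type} [Field k] [IsAlgClosed k]
      [CharP k p] [Algebra (ZMod p) k] [Algebra.IsAlgebraic (ZMod p) k] [CommRing A] [IsDomain A]
      [Algebra k A] [Algebra.FiniteType k A] (E : SectionExp k A),
      ∃ c₀ μ₀ n₀ : ℕ, K1CoreConclR r E c₀ μ₀ n₀ := by
  obtain ⟨r, hr, hrp, hA⟩ := exists_arithCore p hB
  exact ⟨r, hr, hrp, fun {k A} _ _ _ _ _ _ _ _ _ E => K1_core_of_R p r hA E⟩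

end Pool.Agent.K1
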