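import Pool.Agent.K1.Defs
import Pool.Agent.K1.OneLeafDef

/-!
Rational points of an algebra that is free over `K[S]` and the characteristic polynomial of an
element `Y` (K1-12, steps (4) and (5)).
-/

set_option autoImplicit false

open Polynomial Module

namespace Pool.Agent.K1

namespace CharB

section LinearAlgebra

variable {K W : Type*} [Field K] [AddCommGroup W] [Module K W] [FiniteDimensional K W]

theorem finrank_quot_range (U : Module.End K W) :
    finrank K (W ⧸ LinearMap.range U) = finrank K (LinearMap.ker U) := by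
  have h1 := (LinearMap.range U).finrank_quotient_add_finrank
  have h2 := LinearMap.finrank_range_add_finrank_ker U
  omega

omit [FiniteDimensional K W] in
theorem ker_pow_eq {U : Module.End K W} (h : LinearMap.ker (U ^ 2) = LinearMap.ker U) (n : ℕ) :
    LinearMap.ker (U ^ (n + 1)) = LinearMap.ker U := by
  induction n with
  | zero => rw [zero_add, pow_one]
  | succ n ih =>
    apply le_antisymm
    · intro x hx
      rw [LinearMap.mem_ker, pow_succ, Module.End.mul_apply] at hx
      have h1 : U x ∈ LinearMap.ker (U ^ (n + 1)) := hx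
      rw [ih, LinearMap.mem_ker] at h1
      rw [← h, LinearMap.mem_ker, pow_two, Module.End.mul_apply]
      exact h1
    · intro x hx
      rw [LinearMap.mem_ker] at hx ⊢
      rw [pow_succ, Module.End.mul_apply, hx, map_zero]

/-- `y` is a simple root of the characteristic polynomial iff the generalized eigenspace of
exponent two is a line. -/
theorem simple_iff (T : Module.End K W) (y : K) :
    T.charpoly.rootMultiplicity y = 1 ↔
      finrank K (W ⧸ LinearMap.range ((T - y • 1) ^ 2)) = 1 := by
  rw [finrank_quot_range]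
  have hle := LinearMap.finrank_genEigenspace_le T y 2
  have hg : T.genEigenspace y (2 : ℕ) = LinearMap.ker ((T - y • 1) ^ 2) :=
    Module.End.genEigenspace_nat
  constructor
  · intro h1
    have h2 : finrank K (LinearMap.ker ((T - y • 1) ^ 2)) ≤ 1 := by
      rw [← hg, ← h1]
      exact hle
    have hroot : T.charpoly.IsRoot y := by
      rw [← rootMultiplicity_pos T.charpoly_monic.ne_zero, h1]
      exact one_pos
    have hev : T.HasEigenvalue y := (Module.End.hasEigenvalue_iff_isRoot_charpoly T y).2 hroot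
    obtain ⟨v, hv⟩ := hev.exists_hasEigenvector
    have hv1 : v ∈ LinearMap.ker ((T - y • 1) ^ 2) := by
      have h3 : (T - y • (1 : Module.End K W)) v = 0 := by
        rw [LinearMap.sub_apply, hv.apply_eq_smul, LinearMap.smul_apply, Module.End.one_apply,
          sub_self]
      rw [LinearMap.mem_ker, pow_two, Module.End.mul_apply, h3, map_zero]
    have h3 : finrank K (LinearMap.ker ((T - y • 1) ^ 2)) ≠ 0 := by
      intro h0
      have h4 := Submodule.finrank_eq_zero.1 h0
      rw [h4, Submodule.mem_bot] at hv1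
      exact hv.2 hv1
    omega
  · intro h1
    set U : Module.End K W := T - y • 1 with hU
    have hker : LinearMap.ker U ≤ LinearMap.ker (U ^ 2) := by
      intro x hx
      rw [LinearMap.mem_ker] at hx ⊢
      rw [pow_two, Module.End.mul_apply, hx, map_zero]
    have hne : LinearMap.ker U ≠ ⊥ := by
      intro h0
      have h2 : LinearMap.ker (U ^ 2) = ⊥ := by
        rw [eq_bot_iff]
        intro x hx
        rw [LinearMap.mem_ker, pow_two, Module.End.mul_apply] at hx
        have h3 : U x ∈ LinearMap.ker U := hx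
        rw [h0, Submodule.mem_bot] at h3
        have h4 : x ∈ LinearMap.ker U := h3
        rwa [h0] at h4
      rw [h2, finrank_bot] at h1
      exact zero_ne_one h1
    have h2 : finrank K (LinearMap.ker U) = 1 := by
      have h3 := Submodule.finrank_mono hker
      rw [h1] at h3
      have h4 : finrank K (LinearMap.ker U) ≠ 0 := fun h0 => hne (Submodule.finrank_eq_zero.1 h0)
      omega
    have h3 : LinearMap.ker (U ^ 2) = LinearMap.ker U :=
      (Submodule.eq_of_le_of_finrank_eq hker (by rw [h1, h2])).symm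
    rw [← LinearMap.finrank_maxGenEigenspace_eq]
    have h4 : T.maxGenEigenspace y = LinearMap.ker U := by
      apply le_antisymm
      · intro x hx
        rw [Module.End.mem_maxGenEigenspace] at hx
        obtain ⟨k, hk⟩ := hx
        have h5 : x ∈ LinearMap.ker (U ^ (k + 1)) := by
          rw [LinearMap.mem_ker, pow_succ', Module.End.mul_apply, hk, map_zero]
        rwa [ker_pow_eq h3] at h5
      · intro x hx
        rw [Module.End.mem_maxGenEigenspace]
        exact ⟨1, by rw [pow_one]; exact hx⟩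
    rw [h4, h2]

end LinearAlgebra

section Specialize

variable {K R ι : Type*} [Field K] [CommRing R] [Algebra K R] [Algebra K[X] R]
  [IsScalarTower K K[X] R] [Fintype ι] [DecidableEq ι]

/-- specialization at `X = s` in a basis -/
noncomputable def spv (b : Basis ι K[X] R) (s : K) : R →ₗ[K] (ι → K) where
  toFun r i := (b.repr r i).eval s
  map_add' r r' := by
    ext i
    rw [map_add, Finsupp.add_apply, eval_add]
    rfl
  map_smul' c r := by
    ext i
    rw [← algebraMap_smul K[X] c r, map_smul, Finsupp.smul_apply, smul_eq_mul, eval_mul]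
    simp

omit [Fintype ι] [DecidableEq ι] in
theorem spv_apply (b : Basis ι K[X] R) (s : K) (r : R) (i : ι) :
    spv b s r i = (b.repr r i).eval s := rfl

omit [DecidableEq ι] in
theorem spv_surj (b : Basis ι K[X] R) (s : K) : Function.Surjective (spv b s) := by
  intro v
  refine ⟨b.equivFun.symm (fun i => C (v i)), ?_⟩
  ext i
  rw [spv_apply, ← Basis.equivFun_apply, LinearEquiv.apply_symm_apply, eval_C]

omit [DecidableEq ι] in
theorem spv_ker (b : Basis ι K[X] R) (s : K) (r : R) :
    spv b s r = 0 ↔ ∃ r', r = algebraMap K[X] R (X - C s) * r' := by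
  constructor
  · intro h
    have hdiv : ∀ i, ∃ q : K[X], b.repr r i = (X - C s) * q := by
      intro i
      have h1 : (b.repr r i).IsRoot s := congrFun h i
      exact dvd_iff_isRoot.2 h1
    choose q hq using hdiv
    refine ⟨b.equivFun.symm q, ?_⟩
    rw [← Algebra.smul_def]
    apply b.equivFun.injective
    rw [map_smul, LinearEquiv.apply_symm_apply]
    ext i : 1
    rw [Basis.equivFun_apply, hq i]
    rfl
  · rintro ⟨r', rfl⟩
    ext i
    rw [spv_apply, ← Algebra.smul_def, map_smul, Finsupp.smul_apply, smul_eq_mul, eval_mul]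
    simp

theorem spv_mul (b : Basis ι K[X] R) (s : K) (Y r : R) :
    spv b s (Y * r) =
      ((Algebra.leftMulMatrix b Y).map (evalRingHom s)).mulVecLin (spv b s r) := by
  ext i
  rw [Matrix.mulVecLin_apply, spv_apply, ← Algebra.leftMulMatrix_mulVec_repr]
  exact RingHom.map_mulVec (evalRingHom s) _ _ _

/-- multiplication by `Y` at `X = s` -/
noncomputable abbrev TT (b : Basis ι K[X] R) (s : K) (Y : R) : Module.End K (ι → K) :=
  ((Algebra.leftMulMatrix b Y).map (evalRingHom s)).mulVecLin

omit [Algebra K R] [IsScalarTower K K[X] R] in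
theorem TT_charpoly (b : Basis ι K[X] R) [Module.Free K[X] R] [Module.Finite K[X] R]
    (s : K) (Y : R) :
    (TT b s Y).charpoly = (Algebra.lmul K[X] R Y).charpoly.map (evalRingHom s) := by
  rw [Matrix.charpoly_mulVecLin, Matrix.charpoly_map, Algebra.leftMulMatrix_apply,
    LinearMap.charpoly_toMatrix]

theorem algebraMap_X_sub {S : R} (hS : algebraMap K[X] R X = S) (s : K) :
    algebraMap K[X] R (X - C s) = S - algebraMap K R s := by
  rw [map_sub, hS, IsScalarTower.algebraMap_apply K K[X] R s]
  rfl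

theorem spv_sub_mul (b : Basis ι K[X] R) (s y : K) (Y r : R) :
    spv b s ((Y - algebraMap K R y) * r) =
      (TT b s Y - y • 1 : Module.End K (ι → K)) (spv b s r) := by
  rw [sub_mul, map_sub, spv_mul, ← Algebra.smul_def, map_smul]
  rfl

theorem spv_sq_mul (b : Basis ι K[X] R) (s y : K) (Y r : R) :
    spv b s ((Y - algebraMap K R y) ^ 2 * r) =
      ((TT b s Y - y • 1 : Module.End K (ι → K)) ^ 2) (spv b s r) := by
  rw [pow_two (Y - algebraMap K R y), mul_assoc, spv_sub_mul, spv_sub_mul, pow_two,
    Module.End.mul_apply]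

/-- the ideal of a point with the square of the second equation -/
def II (S Y : R) (s y : K) : Ideal R :=
  Ideal.span {S - algebraMap K R s, (Y - algebraMap K R y) ^ 2}

theorem finrank_quot_II (b : Basis ι K[X] R) {S : R} (hS : algebraMap K[X] R X = S) (Y : R)
    (s y : K) : finrank K (R ⧸ II S Y s y) =
      finrank K ((ι → K) ⧸ LinearMap.range ((TT b s Y - y • 1) ^ 2)) := by
  let g : R →ₗ[K] ((ι → K) ⧸ LinearMap.range ((TT b s Y - y • 1) ^ 2)) :=
    (LinearMap.range ((TT b s Y - y • 1) ^ 2)).mkQ ∘ₗ spv b s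
  have hg : Function.Surjective g :=
    (Submodule.mkQ_surjective _).comp (spv_surj b s)
  have hker : LinearMap.ker g = (II S Y s y).restrictScalars K := by
    ext r
    rw [Submodule.restrictScalars_mem, LinearMap.mem_ker]
    change Submodule.Quotient.mk (spv b s r) = 0 ↔ _
    rw [Submodule.Quotient.mk_eq_zero, LinearMap.mem_range, II, Ideal.mem_span_pair]
    constructor
    · rintro ⟨v, hv⟩
      obtain ⟨r', rfl⟩ := spv_surj b s v
      have hv' : spv b s ((Y - algebraMap K R y) ^ 2 * r') = spv b s r := by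
        rw [spv_sq_mul]; exact hv
      have h1 : spv b s (r - (Y - algebraMap K R y) ^ 2 * r') = 0 := by
        rw [map_sub, hv', sub_self]
      rw [spv_ker] at h1
      obtain ⟨r'', h2⟩ := h1
      refine ⟨r'', r', ?_⟩
      rw [← algebraMap_X_sub hS]
      linear_combination -h2
    · rintro ⟨r'', r', rfl⟩
      refine ⟨spv b s r', ?_⟩
      refine (spv_sq_mul b s y Y r').symm.trans ?_
      rw [map_add]
      have h1 : spv b s (r'' * (S - algebraMap K R s)) = 0 := by
        rw [spv_ker]
        exact ⟨r'', by rw [algebraMap_X_sub hS, mul_comm]⟩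
      rw [h1, zero_add, mul_comm]
  have e1 := (LinearMap.quotKerEquivOfSurjective g hg).finrank_eq
  have e2 := (Submodule.quotEquivOfEq _ _ hker).finrank_eq
  have e3 := (Submodule.Quotient.restrictScalarsEquiv K (II S Y s y)).finrank_eq
  rw [← e1, e2, e3]

end Specialize

section Points

variable {K R : Type*} [Field K] [CommRing R] [Algebra K R]

theorem hom_eq_of_ker {x x' : R →ₐ[K] K} (h : RingHom.ker x ≤ RingHom.ker x') : x = x' := by
  ext r
  have h1 : r - algebraMap K R (x r) ∈ RingHom.ker x := by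
    rw [RingHom.mem_ker, map_sub, AlgHom.commutes]
    exact sub_self _
  have h2 := h h1
  rw [RingHom.mem_ker, map_sub, AlgHom.commutes] at h2
  exact (sub_eq_zero.1 h2).symm

theorem II_le_ker (S Y : R) (x : R →ₐ[K] K) : II S Y (x S) (x Y) ≤ RingHom.ker x := by
  rw [II, Ideal.span_le]
  intro r hr
  rcases hr with rfl | hr
  · rw [SetLike.mem_coe, RingHom.mem_ker, map_sub, AlgHom.commutes]
    exact sub_self _
  · rw [Set.mem_singleton_iff] at hr
    subst hr
    rw [SetLike.mem_coe, RingHom.mem_ker, map_pow, map_sub, AlgHom.commutes]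
    simp

theorem exists_point {I : Ideal R} (h : finrank K (R ⧸ I) = 1) :
    ∃ x : R →ₐ[K] K, RingHom.ker x = I := by
  have hb : Function.Bijective (algebraMap K (R ⧸ I)) :=
    Algebra.finrank_eq_one_iff_bijective_algebraMap.1 h
  let e : K ≃ₐ[K] (R ⧸ I) := AlgEquiv.ofBijective (Algebra.ofId K (R ⧸ I)) hb
  refine ⟨e.symm.toAlgHom.comp (Ideal.Quotient.mkₐ K I), ?_⟩
  ext r
  rw [RingHom.mem_ker]
  change e.symm (Ideal.Quotient.mk I r) = 0 ↔ r ∈ I
  rw [map_eq_zero_iff _ e.symm.injective, Ideal.Quotient.eq_zero_iff_mem]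

theorem finrank_quot_ker (x : R →ₐ[K] K) : finrank K (R ⧸ RingHom.ker x) = 1 := by
  have hs : Function.Surjective x := fun c => ⟨algebraMap K R c, AlgHom.commutes x c⟩
  have e := (Ideal.quotientKerAlgEquivOfSurjective hs).toLinearEquiv.finrank_eq
  rw [finrank_self] at e
  exact e

variable [Algebra K[X] R] [IsScalarTower K K[X] R] [Module.Free K[X] R] [Module.Finite K[X] R]

theorem good_iff_finrank {S Y : R} (hS : algebraMap K[X] R X = S) {χ : K[X][X]}
    (hχ : χ = (Algebra.lmul K[X] R Y).charpoly) (s y : K) :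
    Good χ s y ↔ finrank K (R ⧸ II S Y s y) = 1 := by
  classical
  let b := Module.Free.chooseBasis K[X] R
  rw [finrank_quot_II b hS, ← simple_iff, TT_charpoly, ← hχ]
  have hm : χ.Monic := by rw [hχ]; exact LinearMap.charpoly_monic _
  have hp : χ.map (evalRingHom s) ≠ 0 := (hm.map _).ne_zero
  have h1 : (χ.map (evalRingHom s)).IsRoot y ↔ χ.evalEval s y = 0 := by
    rw [IsRoot.def, map_evalRingHom_eval]
  have h2 : (derivative (χ.map (evalRingHom s))).IsRoot y ↔ (derivative χ).evalEval s y = 0 := by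
    rw [IsRoot.def, derivative_map, map_evalRingHom_eval]
  have h3 := rootMultiplicity_pos (x := y) hp
  have h4 := one_lt_rootMultiplicity_iff_isRoot (t := y) hp
  rw [Good, ← h1, Ne, ← h2]
  constructor
  · rintro ⟨h5, h6⟩
    have h7 := h3.2 h5
    have h8 : ¬ 1 < (χ.map (evalRingHom s)).rootMultiplicity y := fun h => h6 (h4.1 h).2
    omega
  · intro h5
    have h6 : (χ.map (evalRingHom s)).IsRoot y := h3.1 (by omega)
    refine ⟨h6, fun h7 => ?_⟩
    have h8 := h4.2 ⟨h6, h7⟩
    omega

/-- There is exactly one rational point above a good point of the plane curve. -/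
theorem good_existsUnique {S Y : R} (hS : algebraMap K[X] R X = S) {χ : K[X][X]}
    (hχ : χ = (Algebra.lmul K[X] R Y).charpoly) {s y : K} (h : Good χ s y) :
    ∃! x : R →ₐ[K] K, x S = s ∧ x Y = y := by
  obtain ⟨x, hx⟩ := exists_point ((good_iff_finrank hS hχ s y).1 h)
  have h1 : S - algebraMap K R s ∈ RingHom.ker x := by
    rw [hx, II]
    exact Ideal.subset_span (Set.mem_insert _ _)
  have h2 : (Y - algebraMap K R y) ^ 2 ∈ RingHom.ker x := by
    rw [hx, II]
    exact Ideal.subset_span (Set.mem_insert_of_mem _ rfl)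
  rw [RingHom.mem_ker, map_sub, AlgHom.commutes, sub_eq_zero] at h1
  rw [RingHom.mem_ker, map_pow, map_sub, AlgHom.commutes] at h2
  have h3 : x Y - algebraMap K K y = 0 := by
    rcases pow_eq_zero_iff (n := 2) (by norm_num) |>.1 h2 with h4
    exact h4
  rw [sub_eq_zero] at h3
  refine ⟨x, ⟨h1, h3⟩, ?_⟩
  rintro x' ⟨h4, h5⟩
  symm
  apply hom_eq_of_ker
  rw [hx, ← h4, ← h5]
  exact II_le_ker S Y x'

/-- The good points of the plane curve are the good points of the ring. -/
theorem good_iff {S Y : R} (hS : algebraMap K[X] R X = S) {χ : K[X][X]}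
    (hχ : χ = (Algebra.lmul K[X] R Y).charpoly) (x : R →ₐ[K] K) :
    Good χ (x S) (x Y) ↔ GoodPt S Y x := by
  rw [good_iff_finrank hS hχ]
  constructor
  · intro h
    obtain ⟨x0, hx0⟩ := exists_point h
    have h1 : x0 = x := hom_eq_of_ker (by rw [hx0]; exact II_le_ker S Y x)
    rw [h1] at hx0
    exact hx0.symm
  · intro h
    have h1 : II S Y (x S) (x Y) = RingHom.ker x := h
    rw [h1]
    exact finrank_quot_ker x

omit [Algebra K R] [IsScalarTower K K[X] R] in
theorem norm_natDegree {Y : R} {χ : K[X][X]} (hχ : χ = (Algebra.lmul K[X] R Y).charpoly)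
    (P : K[X]) :
    (Algebra.norm K[X] (Y - algebraMap K[X] R P)).natDegree = (χ.eval P).natDegree := by
  have e1 : Algebra.lmul K[X] R (Y - algebraMap K[X] R P)
      = Algebra.lmul K[X] R Y - P • 1 := by
    rw [map_sub, AlgHom.commutes, Algebra.algebraMap_eq_smul_one]
  rw [Algebra.norm_apply, LinearMap.det_eq_sign_charpoly_coeff, e1, LinearMap.charpoly_sub_smul,
    ← hχ, coeff_zero_eq_eval_zero, eval_comp]
  simp only [eval_add, eval_X, eval_C, zero_add]
  rcases neg_one_pow_eq_or K[X] (finrank K[X] R) with h | h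
  · rw [h, one_mul]
  · rw [h, neg_one_mul, natDegree_neg]

omit [Free K[X] R] [Module.Finite K[X] R] in
theorem algebraMap_eq_aeval {S : R} (hS : algebraMap K[X] R X = S) (P : K[X]) :
    algebraMap K[X] R P = aeval S P := by
  have h : IsScalarTower.toAlgHom K K[X] R = aeval S := by
    apply Polynomial.algHom_ext
    rw [aeval_X, ← hS]
    rfl
  exact DFunLike.congr_fun h P

/-- The ideal of `Y - P(S)` is the product of the ideals of the points at which it vanishes. -/
theorem split_ideal [IsDomain R] {S Y : R} (hS : algebraMap K[X] R X = S) {χ : K[X][X]}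
    (hχ : χ = (Algebra.lmul K[X] R Y).charpoly) (P : K[X]) {z : ℕ} (hz1 : 1 ≤ z)
    (hz : (χ.eval P).natDegree = z) (hP : SplitGood χ z P) :
    ∃ m : (R →ₐ[K] K) →₀ ℕ, (∀ x, m x ≤ 1) ∧
      (∀ x, m x = 1 ↔ (χ.eval P).eval (x S) = 0 ∧ x Y = P.eval (x S)) ∧
      (∀ s, (χ.eval P).eval s = 0 → ∃ x, m x = 1 ∧ x S = s) ∧
      Ideal.span {Y - aeval S P} = m.prod (fun x e => (RingHom.ker x) ^ e) := by
  classical
  obtain ⟨⟨Rt, hcard, hRt⟩, hgood⟩ := hP
  have hex : ∀ s, (χ.eval P).eval s = 0 → ∃ x : R →ₐ[K] K, (x S = s ∧ x Y = P.eval s) ∧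
      ∀ x' : R →ₐ[K] K, x' S = s ∧ x' Y = P.eval s → x' = x := by
    intro s hs
    exact good_existsUnique hS hχ (hgood s hs)
  choose xs hxs hxu using hex
  let X0 : Finset (R →ₐ[K] K) := Rt.attach.image (fun s => xs s.1 ((hRt s.1).1 s.2))
  have hX0 : ∀ x, x ∈ X0 ↔ (χ.eval P).eval (x S) = 0 ∧ x Y = P.eval (x S) := by
    intro x
    constructor
    · intro hx
      obtain ⟨s, -, hs⟩ := Finset.mem_image.1 hx
      have h1 := hxs s.1 ((hRt s.1).1 s.2)
      rw [hs] at h1
      rw [h1.1]
      exact ⟨(hRt s.1).1 s.2, h1.2⟩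
    · rintro ⟨h1, h2⟩
      have h3 : x S ∈ Rt := (hRt _).2 h1
      refine Finset.mem_image.2 ⟨⟨x S, h3⟩, Finset.mem_attach _ _, ?_⟩
      exact (hxu (x S) h1 x ⟨rfl, h2⟩).symm
  have hX0card : X0.card = z := by
    rw [Finset.card_image_of_injOn, Finset.card_attach, hcard]
    intro a _ b _ hab
    have h1 := (hxs a.1 ((hRt a.1).1 a.2)).1
    have h2 := (hxs b.1 ((hRt b.1).1 b.2)).1
    change xs a.1 ((hRt a.1).1 a.2) = xs b.1 ((hRt b.1).1 b.2) at hab
    rw [hab, h2] at h1
    exact Subtype.ext h1.symm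
  have hinj : Set.InjOn (fun x : R →ₐ[K] K => x S) (X0 : Set (R →ₐ[K] K)) := by
    intro a ha b hb hab
    have h1 := (hX0 a).1 ha
    have h2 := (hX0 b).1 hb
    change a S = b S at hab
    have e1 := hxu (a S) h1.1 a ⟨rfl, h1.2⟩
    have e2 := hxu (a S) h1.1 b ⟨hab.symm, by rw [h2.2, hab]⟩
    rw [e1, e2]
  set f : R := Y - algebraMap K[X] R P with hf
  have hfx : ∀ x ∈ X0, x f = 0 := by
    intro x hx
    have h1 := (hX0 x).1 hx
    rw [hf, map_sub, h1.2, algebraMap_eq_aeval hS, ← aeval_algHom_apply, coe_aeval_eq_eval,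
      sub_self]
  have hnorm : (Algebra.norm K[X] f).natDegree = z := by rw [norm_natDegree hχ, hz]
  have hf0 : f ≠ 0 := by
    intro h0
    rw [h0] at hnorm
    have hfr : 0 < finrank K[X] R := by
      by_contra hcon
      have h2 : finrank K[X] R = 0 := by omega
      have h3 : Subsingleton R := by
        have h5 : (1 : R) = 0 := by
          rw [← (Module.Free.chooseBasis K[X] R).sum_repr 1]
          apply Finset.sum_eq_zero
          intro i _
          have h6 : Fintype.card (Module.Free.ChooseBasisIndex K[X] R) = 0 := by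
            rw [← Module.finrank_eq_card_chooseBasisIndex, h2]
          exact ((Fintype.card_eq_zero_iff.1 h6).false i).elim
        exact subsingleton_of_zero_eq_one h5.symm
      exact not_subsingleton R h3
    rw [Algebra.norm_zero, natDegree_zero] at hnorm
    omega
  have hfin : finrank K (R ⧸ Ideal.span {f}) = z := by
    rw [finrank_quotient_span_eq_natDegree_norm (Module.Free.chooseBasis K[X] R) hf0, hnorm]
  have hfd : FiniteDimensional K (R ⧸ Ideal.span {f}) :=
    FiniteDimensional.of_finrank_pos (by omega)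
  -- the evaluation at the points
  let Φ : R →ₐ[K] (X0 → K) := AlgHom.pi (fun x => x.1)
  have hΦf : ∀ r ∈ Ideal.span {f}, Φ r = 0 := by
    intro r hr
    rw [Ideal.mem_span_singleton] at hr
    obtain ⟨r', rfl⟩ := hr
    ext x
    change x.1 (f * r') = 0
    rw [map_mul, hfx x.1 x.2, zero_mul]
  let Ψ : (R ⧸ Ideal.span {f}) →ₐ[K] (X0 → K) := Ideal.Quotient.liftₐ _ Φ hΦf
  have hΨ : ∀ r, Ψ (Ideal.Quotient.mk _ r) = Φ r := fun r => rfl
  have hsurj : Function.Surjective Ψ := by
    intro v
    let q : K[X] := Lagrange.interpolate X0 (fun x : R →ₐ[K] K => x S)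
      (fun x => if hx : x ∈ X0 then v ⟨x, hx⟩ else 0)
    refine ⟨Ideal.Quotient.mk _ (algebraMap K[X] R q), ?_⟩
    rw [hΨ]
    ext x
    change x.1 (algebraMap K[X] R q) = v x
    rw [algebraMap_eq_aeval hS, ← aeval_algHom_apply, coe_aeval_eq_eval]
    have h1 := Lagrange.eval_interpolate_at_node
      (fun x => if hx : x ∈ X0 then v ⟨x, hx⟩ else 0) hinj x.2
    rw [h1, dif_pos x.2]
  have hinj2 : Function.Injective Ψ := by
    have h1 : finrank K (R ⧸ Ideal.span {f}) = finrank K (X0 → K) := by
      rw [hfin, Module.finrank_fintype_fun_eq_card, Fintype.card_coe, hX0card]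
    exact (LinearMap.injective_iff_surjective_of_finrank_eq_finrank (f := Ψ.toLinearMap) h1).2
      hsurj
  have hspan : Ideal.span {f} = ⨅ x ∈ X0, RingHom.ker x := by
    ext r
    rw [Submodule.mem_iInf]
    constructor
    · intro hr x
      rw [Submodule.mem_iInf]
      intro hx
      rw [RingHom.mem_ker]
      exact congrFun (hΦf r hr) ⟨x, hx⟩
    · intro hr
      rw [← Ideal.Quotient.eq_zero_iff_mem]
      apply hinj2
      rw [hΨ, map_zero]
      ext x
      have h1 := hr x.1
      rw [Submodule.mem_iInf] at h1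
      exact h1 x.2
  have hcop : (X0 : Set (R →ₐ[K] K)).Pairwise
      (Function.onFun IsCoprime (fun x : R →ₐ[K] K => RingHom.ker x)) := by
    intro a ha b hb hab
    have hS' : a S ≠ b S := fun h => hab (hinj ha hb h)
    change IsCoprime (RingHom.ker a) (RingHom.ker b)
    rw [Ideal.isCoprime_iff_exists]
    have hu : b S - a S ≠ 0 := sub_ne_zero.2 hS'.symm
    refine ⟨algebraMap K R (b S - a S)⁻¹ * (S - algebraMap K R (a S)), ?_,
      algebraMap K R (b S - a S)⁻¹ * (algebraMap K R (b S) - S), ?_, ?_⟩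
    · rw [RingHom.mem_ker, map_mul, map_sub, AlgHom.commutes, AlgHom.commutes]
      simp
    · rw [RingHom.mem_ker, map_mul, map_sub, AlgHom.commutes, AlgHom.commutes]
      simp
    · have h1 : algebraMap K R (b S - a S)⁻¹ * algebraMap K R (b S - a S) = 1 := by
        rw [← map_mul, inv_mul_cancel₀ hu, map_one]
      rw [map_sub] at h1
      linear_combination h1
  let m : (R →ₐ[K] K) →₀ ℕ := Finsupp.onFinset X0 (fun x => if x ∈ X0 then 1 else 0) (by
    intro x hx
    by_contra hcon
    exact hx (if_neg hcon))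
  have hm : ∀ x, m x = if x ∈ X0 then 1 else 0 := fun x => rfl
  have hm1 : ∀ x, m x = 1 ↔ x ∈ X0 := by
    intro x
    rw [hm]
    split_ifs with hx
    · simp [hx]
    · simp [hx]
  refine ⟨m, ?_, ?_, ?_, ?_⟩
  · intro x
    rw [hm]
    split_ifs <;> omega
  · intro x
    rw [hm1, hX0]
  · intro s hs
    refine ⟨xs s hs, ?_, (hxs s hs).1⟩
    rw [hm1, hX0, (hxs s hs).1]
    exact ⟨hs, (hxs s hs).2⟩
  · rw [← algebraMap_eq_aeval hS, ← hf, hspan, ← Ideal.prod_eq_iInf_of_pairwise_isCoprime hcop]
    symm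
    rw [Finsupp.onFinset_prod _ (fun a => pow_zero _)]
    apply Finset.prod_congr rfl
    intro x hx
    rw [if_pos hx, pow_one]

/-- The degree of `χ(S, P(S))`. -/
theorem natDegree_eval_of_isCnz {χ : K[X][X]} {n z : ℕ} (hχ : IsCnz χ n z) (hn : 1 ≤ n)
    (P : K[X]) (hP : n * P.natDegree < z) : (χ.eval P).natDegree = z := by
  have hz : 0 < z := by omega
  rw [eval_eq_sum_range, hχ.natDegree, Finset.sum_range_succ']
  have h0 : (χ.coeff 0 * P ^ 0).natDegree = z := by rw [pow_zero, mul_one, hχ.deg0]
  rw [natDegree_add_eq_right_of_natDegree_lt, h0]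
  rw [h0]
  have hj : ∀ j ∈ Finset.range n, (χ.coeff (j + 1) * P ^ (j + 1)).natDegree ≤ z - 1 := by
    intro j hj
    rw [Finset.mem_range] at hj
    refine natDegree_mul_le.trans ?_
    have h1 : (P ^ (j + 1)).natDegree ≤ (j + 1) * P.natDegree := natDegree_pow_le
    have h2 : n * (χ.coeff (j + 1)).natDegree + z * (j + 1) ≤ n * z := by
      by_cases hjn : j + 1 < n
      · exact (hχ.lt (j + 1) (by omega) hjn).le
      · have hjn' : j + 1 = n := by omega
        have h3 : χ.coeff n = 1 := by
          have := hχ.monic.coeff_natDegree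
          rwa [hχ.natDegree] at this
        rw [hjn', h3, natDegree_one, mul_zero, zero_add, mul_comm]
    have h3 : n * ((χ.coeff (j + 1)).natDegree + (P ^ (j + 1)).natDegree) < n * z := by
      have h4 : n * (P ^ (j + 1)).natDegree ≤ (j + 1) * (n * P.natDegree) := by
        calc n * (P ^ (j + 1)).natDegree ≤ n * ((j + 1) * P.natDegree) := Nat.mul_le_mul_left _ h1
          _ = _ := by ring
      have h5 : (j + 1) * (n * P.natDegree) < (j + 1) * z :=
        Nat.mul_lt_mul_of_pos_left hP (by omega)
      nlinarith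
    have h4 := Nat.lt_of_mul_lt_mul_left h3
    omega
  have h1 : (∑ j ∈ Finset.range n, χ.coeff (j + 1) * P ^ (j + 1)).natDegree ≤ z - 1 :=
    natDegree_sum_le_of_forall_le _ _ hj
  omega

end Points

end CharB

section B

variable {K R : Type*} [Field K] [CommRing R] [IsDomain R] [Algebra K R]
    [Algebra K[X] R] [IsScalarTower K K[X] R] [Module.Free K[X] R] [Module.Finite K[X] R]
    (S Y : R) (hS : algebraMap K[X] R X = S) (χ : K[X][X])
    (hχ : χ = (Algebra.lmul K[X] R Y).charpoly)

include hS hχ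

omit [IsDomain R] in
theorem good_existsUnique {s y : K} (h : Good χ s y) : ∃! x : R →ₐ[K] K, x S = s ∧ x Y = y :=
  CharB.good_existsUnique hS hχ h

omit [IsDomain R] in
theorem good_iff (x : R →ₐ[K] K) : Good χ (x S) (x Y) ↔ GoodPt S Y x :=
  CharB.good_iff hS hχ x

theorem split_ideal (P : K[X]) (z : ℕ) (hz1 : 1 ≤ z) (hz : (χ.eval P).natDegree = z)
    (hP : SplitGood χ z P) :
    ∃ m : (R →ₐ[K] K) →₀ ℕ, (∀ x, m x ≤ 1) ∧
      (∀ x, m x = 1 ↔ (χ.eval P).eval (x S) = 0 ∧ x Y = P.eval (x S)) ∧
      (∀ s, (χ.eval P).eval s = 0 → ∃ x, m x = 1 ∧ x S = s) ∧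
      Ideal.span {Y - aeval S P} = m.prod (fun x e => (RingHom.ker x) ^ e) :=
  CharB.split_ideal hS hχ P hz1 hz hP

end B

end Pool.Agent.K1
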