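import Pool.Agent.K1.M5charA
import Pool.Agent.K1.M5charB

/-!
# Characteristic data of a one leaf ring: assembly
-/

set_option autoImplicit false

open Polynomial

namespace Pool.Agent.K1

/-- The characteristic data of a one leaf ring with respect to two elements of coprime weight. -/
theorem M5c_charpoly {K R : Type*} [Field K] [CommRing R] [IsDomain R] [Algebra K R]
    (o : OneLeaf K R) (S Y : R) (n z : ℕ) (hn : 2 ≤ n) (hz : 1 ≤ z) (hcop : n.Coprime z)
    (hS : o.wt S = n) (hY : o.wt Y = z) :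
    ∃ χ : K[X][X], IsCnz χ n z ∧ χ.eval₂ (aeval S : K[X] →ₐ[K] R).toRingHom Y = 0 ∧
      (∀ χ' : K[X][X], χ'.Monic → χ'.natDegree = n →
        χ'.eval₂ (aeval S : K[X] →ₐ[K] R).toRingHom Y = 0 → χ' = χ) ∧
      -- good points of the plane curve are good points of the ring
      (∀ s y, Good χ s y → ∃! x : R →ₐ[K] K, x S = s ∧ x Y = y) ∧
      (∀ x : R →ₐ[K] K, Good χ (x S) (x Y) ↔ GoodPt S Y x) ∧
      -- zeros of `Y - P(S)`
      (∀ P : K[X], n * P.natDegree < z → SplitGood χ z P →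
        ∃ m : (R →ₐ[K] K) →₀ ℕ, (∀ x, m x ≤ 1) ∧
          (∀ x, m x = 1 ↔ (χ.eval P).eval (x S) = 0 ∧ x Y = P.eval (x S)) ∧
          (∀ s, (χ.eval P).eval s = 0 → ∃ x, m x = 1 ∧ x S = s) ∧
          Ideal.span {Y - aeval S P} = m.prod (fun x e => (RingHom.ker x) ^ e)) := by
  let alg : Algebra K[X] R := (aeval S : K[X] →ₐ[K] R).toRingHom.toAlgebra
  have hmap : ∀ P : K[X], algebraMap K[X] R P = aeval S P := fun _ => rfl
  have htow : IsScalarTower K K[X] R := IsScalarTower.of_algebraMap_eq fun c => by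
    rw [hmap]; simp
  have hSX : algebraMap K[X] R X = S := by rw [hmap, aeval_X]
  obtain ⟨hfree, hfin, h3⟩ := charA o S Y n z hn hz hcop hS hY hSX
  obtain ⟨hcnz, huniq⟩ := h3
  set χ := (Algebra.lmul K[X] R Y).charpoly with hχ
  refine ⟨χ, hcnz, ?_, huniq, fun s y h => good_existsUnique S Y hSX χ hχ h,
    good_iff S Y hSX χ hχ, fun P hP hs => ?_⟩
  · have h4 := LinearMap.aeval_self_charpoly (Algebra.lmul K[X] R Y)
    rw [← hχ] at h4
    have h5 := congrArg (fun f : Module.End K[X] R => f 1) h4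
    have h6 : aeval (Algebra.lmul K[X] R Y) χ = Algebra.lmul K[X] R (aeval Y χ) :=
      (aeval_algHom_apply (Algebra.lmul K[X] R) Y χ)
    rw [h6] at h5
    have h7 : aeval Y χ = 0 := by simpa using h5
    exact h7
  · exact split_ideal S Y hSX χ hχ P z hz (natDegree_eval_of_isCnz χ n z (by omega) hcnz P hP) hs

end Pool.Agent.K1
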