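import Pool.Agent.K1.Defs

/-! K1 second half, module M6d: pure polynomial algebra of the family of plane curves.
`F[X][X][X]`: inner variable `S`, middle variable `T`, outer variable `Z`. -/

open Polynomial

namespace Pool.Agent.K1

/-- `Φ(S, -(c + v(S) + β Z), Z)`. -/
noncomputable def fam {F : Type*} [Field F] (Φ : F[X][X][X]) (c : F[X]) (β : F)
    (v : Fin 5 → F) : F[X][X] :=
  Φ.eval₂ (eval₂RingHom (C : F[X] →+* F[X][X]) (-(C (c + poly5 v) + C (C β) * X))) X

/-- `Φ = Z^n - (S^(n i) + lower) T^a + terms of lower weight`, weights `S : n`, `T : n M`,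
`Z : z = n i + M a`. -/
structure PhiShape {F : Type*} [Field F] (Φ : F[X][X][X]) (n M i a : ℕ) : Prop where
  monic : Φ.Monic
  natDegree : Φ.natDegree = n
  lead_deg : ((Φ.coeff 0).coeff a).natDegree = n * i
  lead : ((Φ.coeff 0).coeff a).leadingCoeff = -1
  lt : ∀ j l, j < n → (l, j) ≠ (a, 0) → (Φ.coeff j).coeff l ≠ 0 →
    n * ((Φ.coeff j).coeff l).natDegree + n * M * l + (n * i + M * a) * j
      < n * (n * i + M * a)

/-! ### evaluation of `poly5` -/

theorem M6d_poly5_add {K : Type*} [Field K] (v w : Fin 5 → K) :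
    poly5 (v + w) = poly5 v + poly5 w := by
  simp [poly5, add_mul, Finset.sum_add_distrib]

theorem M6d_poly5_smul {K : Type*} [Field K] (a : K) (w : Fin 5 → K) :
    poly5 (a • w) = C a * poly5 w := by
  simp [poly5, Finset.mul_sum, mul_assoc]

theorem M6d_poly5_natDegree {K : Type*} [Field K] (v : Fin 5 → K) :
    (poly5 v).natDegree ≤ 4 := by
  unfold poly5
  refine natDegree_sum_le_of_forall_le _ _ ?_
  intro i _
  refine (natDegree_C_mul_X_pow_le _ _).trans ?_
  omega

theorem M6d_poly5_map {F F' : Type*} [Field F] [Field F'] (f : F →+* F') (v : Fin 5 → F) :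
    (poly5 v).map f = poly5 (fun i => f (v i)) := by
  simp [poly5, Polynomial.map_sum]

/-! ### evaluation of `fam` -/

/-- general evaluation formula for `fam` -/
theorem M6d_fam_eval₂ {F A : Type*} [Field F] [CommRing A] (g : F[X] →+* A) (Φ : F[X][X][X])
    (c : F[X]) (β : F) (v : Fin 5 → F) (y : A) :
    (fam Φ c β v).eval₂ g y
      = Φ.eval₂ (eval₂RingHom g (-(g (c + poly5 v) + g (C β) * y))) y := by
  unfold fam
  have h1 := hom_eval₂ Φ (eval₂RingHom (C : F[X] →+* F[X][X])
    (-(C (c + poly5 v) + C (C β) * X))) (eval₂RingHom g y) X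
  simp only [coe_eval₂RingHom] at h1
  rw [h1, eval₂_X]
  congr 1
  refine Polynomial.ringHom_ext ?_ ?_
  · intro a
    simp
  · simp

theorem M6d_fam_eval {F : Type*} [Field F] (Φ : F[X][X][X]) (c : F[X]) (β : F)
    (v : Fin 5 → F) (P : F[X]) :
    (fam Φ c β v).eval P
      = Φ.eval₂ (eval₂RingHom (RingHom.id F[X]) (-((c + poly5 v) + C β * P))) P := by
  have := M6d_fam_eval₂ (RingHom.id F[X]) Φ c β v P
  simpa [Polynomial.eval₂_id] using this

theorem fam_eval {F : Type*} [Field F] (Φ : F[X][X][X]) (c : F[X]) (β : F) (v : Fin 5 → F)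
    (β' : F) (w : Fin 5 → F) :
    (fam Φ c β' (v + (β - β') • w)).eval (poly5 w) = (fam Φ c β v).eval (poly5 w) := by
  rw [M6d_fam_eval, M6d_fam_eval, M6d_poly5_add, M6d_poly5_smul]
  have : (c + (poly5 v + C (β - β') * poly5 w) + C β' * poly5 w)
      = c + poly5 v + C β * poly5 w := by
    rw [C_sub]; ring
  rw [this]

theorem fam_map {F F' : Type*} [Field F] [Field F'] (f : F →+* F') (Φ : F[X][X][X])
    (c : F[X]) (β : F) (v : Fin 5 → F) :
    (fam Φ c β v).map (mapRingHom f)
      = fam (Φ.map (mapRingHom (mapRingHom f))) (c.map f) (f β) (fun i => f (v i)) := by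
  unfold fam
  rw [eval₂_map]
  have h1 := hom_eval₂ Φ (eval₂RingHom (C : F[X] →+* F[X][X])
    (-(C (c + poly5 v) + C (C β) * X))) (mapRingHom (mapRingHom f)) X
  rw [coe_mapRingHom] at h1
  rw [h1, map_X]
  congr 1
  refine Polynomial.ringHom_ext ?_ ?_
  · intro a
    simp
  · simp [M6d_poly5_map]

/-- `IsCnz` descends along field extensions. -/
theorem isCnz_of_map {F F' : Type*} [Field F] [Field F'] (f : F →+* F') (χ : F[X][X])
    (n z : ℕ) (h : IsCnz (χ.map (mapRingHom f)) n z) : IsCnz χ n z := by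
  have hf : Function.Injective (mapRingHom f) := map_injective f f.injective
  refine ⟨?_, ?_, ?_, ?_⟩
  · exact (Function.Injective.monic_map_iff hf).mpr h.monic
  · rw [← h.natDegree, natDegree_map_eq_of_injective hf]
  · rw [← h.deg0, coeff_map, coe_mapRingHom, natDegree_map_eq_of_injective f.injective]
  · intro j h0 hn
    have := h.lt j h0 hn
    rwa [coeff_map, coe_mapRingHom, natDegree_map_eq_of_injective f.injective] at this

/-- the family kills `Y` modulo `q + β Y + v(s)`, `q = c(s) + T`. -/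
theorem fam_mem {F A : Type*} [Field F] [CommRing A] [Algebra F A] (s T Y : A)
    (Φ : F[X][X][X]) (c : F[X])
    (hΦ : Φ.eval₂ (eval₂RingHom ((aeval s : F[X] →ₐ[F] A) : F[X] →+* A) T) Y = 0)
    (β : F) (v : Fin 5 → F) :
    ∃ g : A, (fam Φ c β v).eval₂ ((aeval s : F[X] →ₐ[F] A) : F[X] →+* A) Y
      = (aeval s c + T + algebraMap F A β * Y + aeval s (poly5 v)) * g := by
  set φ : F[X] →+* A := ((aeval s : F[X] →ₐ[F] A) : F[X] →+* A) with hφ
  set T' : A := -(φ (c + poly5 v) + φ (C β) * Y) with hT'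
  have key : (T' - T) ∣ Φ.eval₂ (eval₂RingHom φ T') Y - Φ.eval₂ (eval₂RingHom φ T) Y := by
    rw [eval₂_eq_sum, eval₂_eq_sum, Polynomial.sum, Polynomial.sum, ← Finset.sum_sub_distrib]
    refine Finset.dvd_sum ?_
    intro j _
    rw [← sub_mul]
    refine Dvd.dvd.mul_right ?_ _
    simp only [coe_eval₂RingHom]
    rw [← eval_map, ← eval_map]
    exact sub_dvd_eval_sub _ _ _
  rw [hΦ, sub_zero] at key
  obtain ⟨g, hg⟩ := key
  refine ⟨-g, ?_⟩
  rw [M6d_fam_eval₂, hg, hT']
  simp only [hφ, map_add, RingHom.coe_coe, aeval_C]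
  ring

/-! ### the derivative -/

theorem M6d_evalEval {F : Type*} [Field F] (χ : F[X][X]) (P : F[X]) (s : F) :
    χ.evalEval s (P.eval s) = (χ.eval P).eval s := by
  have h1 := hom_eval₂ χ (RingHom.id F[X]) (evalRingHom s) P
  have h2 := hom_eval₂ χ (RingHom.id F[X]) (evalRingHom s) (C (P.eval s))
  simp only [coe_evalRingHom, eval_C, eval₂_id] at h1 h2
  rw [evalEval, h1, h2]

theorem fam_deriv {F : Type*} [Field F] (Φ : F[X][X][X]) (c : F[X]) (β : F) (v w : Fin 5 → F) :
    ∃ G H : F[X], ∀ β' : F,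
      (derivative (fam Φ c β' (v + (β - β') • w))).eval (poly5 w) = G - C β' * H := by
  set P := poly5 w with hP
  set T0 : F[X] := -((c + poly5 v) + C β * P) with hT0
  have hY : ∀ β' : F, (-(C (c + poly5 (v + (β - β') • w)) + C (C β') * X) : F[X][X]).eval P
      = T0 := by
    intro β'
    rw [M6d_poly5_add, M6d_poly5_smul, ← hP, hT0]
    simp only [eval_neg, eval_add, eval_C, eval_mul, eval_X, C_sub]
    ring
  induction Φ using Polynomial.induction_on' with
  | add p q hp hq =>
    obtain ⟨G1, H1, h1⟩ := hp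
    obtain ⟨G2, H2, h2⟩ := hq
    refine ⟨G1 + G2, H1 + H2, fun β' => ?_⟩
    have : fam (p + q) c β' (v + (β - β') • w)
        = fam p c β' (v + (β - β') • w) + fam q c β' (v + (β - β') • w) := by
      simp [fam, eval₂_add]
    rw [this, derivative_add, eval_add, h1, h2]
    ring
  | monomial j q =>
    induction q using Polynomial.induction_on' with
    | add p q hp hq =>
      obtain ⟨G1, H1, h1⟩ := hp
      obtain ⟨G2, H2, h2⟩ := hq
      refine ⟨G1 + G2, H1 + H2, fun β' => ?_⟩
      have : fam (monomial j (p + q)) c β' (v + (β - β') • w)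
          = fam (monomial j p) c β' (v + (β - β') • w)
            + fam (monomial j q) c β' (v + (β - β') • w) := by
        simp [fam, eval₂_add]
      rw [this, derivative_add, eval_add, h1, h2]
      ring
    | monomial l φ =>
      refine ⟨φ * T0 ^ l * (C (j : F) * P ^ (j - 1)),
        φ * (C (l : F) * T0 ^ (l - 1)) * P ^ j, fun β' => ?_⟩
      have h1 : fam (monomial j (monomial l φ)) c β' (v + (β - β') • w)
          = C φ * (-(C (c + poly5 (v + (β - β') • w)) + C (C β') * X)) ^ l * X ^ j := by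
        simp [fam, eval₂_monomial]
      rw [h1]
      simp only [derivative_mul, derivative_C, derivative_pow, derivative_X, eval_add, eval_mul,
        eval_pow, eval_C, eval_X, hY, derivative_neg, derivative_add, eval_neg, zero_mul,
        zero_add, mul_one, eval_natCast, map_natCast]
      ring

/-- third hypothesis of `M4_core` -/
theorem fam_card {F : Type*} [Field F] [Finite F] (Φ : F[X][X][X]) (c : F[X]) (z : ℕ) (β : F)
    (v w : Fin 5 → F) (h : SplitGood (fam Φ c β v) z (poly5 w)) :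
    Nat.card {β' : F // ¬ SplitGood (fam Φ c β' (v + (β - β') • w)) z (poly5 w)} ≤ z := by
  classical
  obtain ⟨G, H, hGH⟩ := fam_deriv Φ c β v w
  obtain ⟨⟨R, hRc, hR⟩, hgood⟩ := h
  have hv : v + (β - β) • w = v := by simp
  have hβ : ∀ s ∈ R, G.eval s - β * H.eval s ≠ 0 := by
    intro s hs
    have h1 := (hgood s ((hR s).1 hs)).2
    have h2 := hGH β
    rw [hv] at h2
    rw [M6d_evalEval, h2] at h1
    simpa using h1
  have hsub : ∀ β' : {β' : F // ¬ SplitGood (fam Φ c β' (v + (β - β') • w)) z (poly5 w)},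
      (β' : F) ∈ R.image (fun s => G.eval s / H.eval s) := by
    rintro ⟨β', hb⟩
    by_contra hne
    apply hb
    refine ⟨⟨R, hRc, fun s => ?_⟩, fun s hs => ?_⟩
    · rw [fam_eval]; exact hR s
    · have hs' : s ∈ R := by
        rw [fam_eval] at hs
        exact (hR s).2 hs
      refine ⟨by rw [M6d_evalEval]; exact hs, ?_⟩
      rw [M6d_evalEval, hGH β']
      intro h0
      have h0' : G.eval s - β' * H.eval s = 0 := by simpa using h0
      by_cases hH : H.eval s = 0
      · apply hβ s hs'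
        rw [hH] at h0' ⊢
        simpa using h0'
      · apply hne
        refine Finset.mem_image.2 ⟨s, hs', ?_⟩
        rw [div_eq_iff hH]
        exact sub_eq_zero.1 h0'
  calc Nat.card {β' : F // ¬ SplitGood (fam Φ c β' (v + (β - β') • w)) z (poly5 w)}
      ≤ Nat.card (R.image (fun s => G.eval s / H.eval s)) :=
        Nat.card_le_card_of_injective (fun β' => ⟨β'.1, hsub β'⟩)
          (fun a b hab => Subtype.ext (by simpa using congrArg Subtype.val hab))
    _ = (R.image (fun s => G.eval s / H.eval s)).card := Nat.card_eq_finsetCard _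
    _ ≤ R.card := Finset.card_image_le
    _ = z := hRc

/-! ### weights -/

/-- all monomials of `P` have weight `< w` (weights `S : n`, `Z : z`). -/
def M6d_Wlt {F : Type*} [Field F] (n z : ℕ) (P : F[X][X]) (w : ℕ) : Prop :=
  ∀ j m, (P.coeff j).coeff m ≠ 0 → n * m + z * j < w

theorem M6d_Wlt_add {F : Type*} [Field F] {n z : ℕ} {P Q : F[X][X]} {w : ℕ}
    (hP : M6d_Wlt n z P w) (hQ : M6d_Wlt n z Q w) : M6d_Wlt n z (P + Q) w := by
  intro j m h
  by_cases h1 : (P.coeff j).coeff m = 0
  · have h2 : (Q.coeff j).coeff m ≠ 0 := by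
      intro h2; apply h; simp [h1, h2]
    exact hQ j m h2
  · exact hP j m h1

theorem M6d_Wlt_neg {F : Type*} [Field F] {n z : ℕ} {P : F[X][X]} {w : ℕ}
    (hP : M6d_Wlt n z P w) : M6d_Wlt n z (-P) w := by
  intro j m h
  exact hP j m (by simpa using h)

theorem M6d_Wlt_mono {F : Type*} [Field F] {n z : ℕ} {P : F[X][X]} {w w' : ℕ}
    (hP : M6d_Wlt n z P w) (h : w ≤ w') : M6d_Wlt n z P w' :=
  fun j m hh => (hP j m hh).trans_le h

theorem M6d_Wlt_sum {F ι : Type*} [Field F] {n z : ℕ} (s : Finset ι) (P : ι → F[X][X]) {w : ℕ}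
    (hP : ∀ i ∈ s, M6d_Wlt n z (P i) w) : M6d_Wlt n z (∑ i ∈ s, P i) w := by
  classical
  induction s using Finset.induction_on with
  | empty => intro j m h; simp at h
  | insert a s ha ih =>
    rw [Finset.sum_insert ha]
    exact M6d_Wlt_add (hP a (Finset.mem_insert_self _ _))
      (ih fun i hi => hP i (Finset.mem_insert_of_mem hi))

theorem M6d_Wlt_mul {F : Type*} [Field F] {n z : ℕ} {P Q : F[X][X]} {a b : ℕ}
    (hP : M6d_Wlt n z P (a + 1)) (hQ : M6d_Wlt n z Q b) : M6d_Wlt n z (P * Q) (a + b) := by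
  intro j m h
  rw [coeff_mul] at h
  rw [finsetSum_coeff] at h
  obtain ⟨⟨j1, j2⟩, hj, h⟩ := Finset.exists_ne_zero_of_sum_ne_zero h
  rw [coeff_mul] at h
  obtain ⟨⟨m1, m2⟩, hm, h⟩ := Finset.exists_ne_zero_of_sum_ne_zero h
  rw [Finset.HasAntidiagonal.mem_antidiagonal] at hj hm
  simp only at hj hm h
  have h1 := hP j1 m1 (left_ne_zero_of_mul h)
  have h2 := hQ j2 m2 (right_ne_zero_of_mul h)
  subst hj hm
  rw [mul_add, mul_add]
  omega

theorem M6d_Wlt_one {F : Type*} [Field F] {n z : ℕ} : M6d_Wlt n z (1 : F[X][X]) 1 := by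
  intro j m h
  rw [coeff_one] at h
  split_ifs at h with h1
  · rw [coeff_one] at h
    split_ifs at h with h2
    · subst h1 h2; simp
    · exact absurd rfl h
  · simp at h

theorem M6d_Wlt_pow {F : Type*} [Field F] {n z : ℕ} {P : F[X][X]} {a : ℕ}
    (hP : M6d_Wlt n z P (a + 1)) (l : ℕ) : M6d_Wlt n z (P ^ l) (a * l + 1) := by
  induction l with
  | zero => simpa using M6d_Wlt_one
  | succ l ih =>
    rw [pow_succ']
    refine M6d_Wlt_mono (M6d_Wlt_mul hP ih) ?_
    rw [mul_add]; omega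

theorem M6d_Wlt_C {F : Type*} [Field F] {n z : ℕ} {p : F[X]} {w : ℕ}
    (h : n * p.natDegree < w) : M6d_Wlt n z (C p) w := by
  intro j m hh
  rw [coeff_C] at hh
  split_ifs at hh with h1
  · subst h1
    have : m ≤ p.natDegree := le_natDegree_of_ne_zero hh
    have := Nat.mul_le_mul_left n this
    omega
  · simp at hh

theorem M6d_Wlt_X {F : Type*} [Field F] {n z : ℕ} : M6d_Wlt n z (X : F[X][X]) (z + 1) := by
  intro j m hh
  rw [coeff_X] at hh
  split_ifs at hh with h1
  · subst h1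
    rw [coeff_one] at hh
    split_ifs at hh with h2
    · subst h2; simp
    · exact absurd rfl hh
  · simp at hh

/-- `(A + B)^a - A^a` has lower weight if `B` has. -/
theorem M6d_Wlt_pow_sub {F : Type*} [Field F] {n z : ℕ} {A B : F[X][X]} {w : ℕ}
    (hA : M6d_Wlt n z A (w + 1)) (hB : M6d_Wlt n z B w) (a : ℕ) :
    M6d_Wlt n z ((A + B) ^ a - A ^ a) (w * a) := by
  induction a with
  | zero => intro j m h; simp at h
  | succ a ih =>
    have hAB : M6d_Wlt n z (A + B) (w + 1) := M6d_Wlt_add hA (M6d_Wlt_mono hB (Nat.le_succ _))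
    have e : (A + B) ^ (a + 1) - A ^ (a + 1)
        = (A + B) ^ a * B + A * ((A + B) ^ a - A ^ a) := by ring
    rw [e]
    refine M6d_Wlt_add ?_ ?_
    · refine M6d_Wlt_mono (M6d_Wlt_mul (M6d_Wlt_pow hAB a) hB) ?_
      rw [mul_add]; omega
    · refine M6d_Wlt_mono (M6d_Wlt_mul hA ih) ?_
      rw [mul_add]; omega

/-- weights: `c` has weight `n M`, `v` and `β Z` less; so
`fam = Z^n + G(S) + (terms of weight < n z)` with `deg G = z`. -/
theorem fam_isCnz {F : Type*} [Field F] (Φ : F[X][X][X]) (n M i a : ℕ) (hn : 2 ≤ n)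
    (ha : 1 ≤ a) (h : PhiShape Φ n M i a) (c : F[X]) (hc : c.Monic) (hcd : c.natDegree = M)
    (h4 : 4 < M) (hz : n * i + M * a < n * M) (β : F) (v : Fin 5 → F) :
    IsCnz (fam Φ c β v) n (n * i + M * a) := by
  classical
  set z := n * i + M * a with hzdef
  have hn0 : 0 < n := by omega
  have hMz : M ≤ z := by
    have := Nat.mul_le_mul_left M ha
    omega
  -- the inner linear form
  set B : F[X][X] := -(C (poly5 v) + C (C β) * X) with hB
  set A : F[X][X] := C (-c) with hA
  have hY : (-(C (c + poly5 v) + C (C β) * X) : F[X][X]) = A + B := by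
    rw [hA, hB, C_add, C_neg]; ring
  have hBw : M6d_Wlt n z B (n * M) := by
    refine M6d_Wlt_neg (M6d_Wlt_add ?_ ?_)
    · refine M6d_Wlt_C ?_
      have h1 := M6d_poly5_natDegree v
      exact Nat.mul_lt_mul_of_pos_left (by omega) hn0
    · have h1 : M6d_Wlt n z (C (C β) : F[X][X]) (0 + 1) := M6d_Wlt_C (by simp)
      refine M6d_Wlt_mono (M6d_Wlt_mul h1 M6d_Wlt_X) (by omega)
  have hAw : M6d_Wlt n z A (n * M + 1) := by
    refine M6d_Wlt_C ?_
    rw [natDegree_neg, hcd]; omega
  have hABw : M6d_Wlt n z (A + B) (n * M + 1) :=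
    M6d_Wlt_add hAw (M6d_Wlt_mono hBw (Nat.le_succ _))
  -- decomposition
  have hfam : fam Φ c β v = ∑ j ∈ Finset.range (n + 1),
      (∑ l ∈ (Φ.coeff j).support, C ((Φ.coeff j).coeff l) * (A + B) ^ l) * X ^ j := by
    unfold fam
    rw [hY, eval₂_eq_sum_range, h.natDegree]
    refine Finset.sum_congr rfl fun j _ => ?_
    rw [coe_eval₂RingHom, eval₂_eq_sum, Polynomial.sum]
  set φ := (Φ.coeff 0).coeff a with hφ
  have hφ0 : φ ≠ 0 := by
    intro h0
    have := h.lead
    rw [← hφ, h0] at this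
    simp at this
  -- the error term
  have hterm : ∀ j l, j < n → (l, j) ≠ (a, 0) → (Φ.coeff j).coeff l ≠ 0 →
      M6d_Wlt n z (C ((Φ.coeff j).coeff l) * (A + B) ^ l * X ^ j) (n * z) := by
    intro j l hj hlj hne
    have h1 := h.lt j l hj hlj hne
    rw [← hzdef] at h1
    set q := (Φ.coeff j).coeff l
    have w1 : M6d_Wlt n z (C q : F[X][X]) (n * q.natDegree + 1) := M6d_Wlt_C (by omega)
    have w2 : M6d_Wlt n z (C q * (A + B) ^ l) (n * q.natDegree + (n * M * l + 1)) :=
      M6d_Wlt_mul w1 (M6d_Wlt_pow hABw l)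
    have w3 : M6d_Wlt n z (C q * (A + B) ^ l * X ^ j)
        (n * q.natDegree + n * M * l + (z * j + 1)) :=
      M6d_Wlt_mul w2 (M6d_Wlt_pow M6d_Wlt_X j)
    exact M6d_Wlt_mono w3 (by omega)
  set E : F[X][X] := fam Φ c β v - X ^ n - C (φ * (-c) ^ a) with hE
  have hEw : M6d_Wlt n z E (n * z) := by
    have hsplit0 : (∑ l ∈ (Φ.coeff 0).support, C ((Φ.coeff 0).coeff l) * (A + B) ^ l)
        = C φ * (A + B) ^ a + ∑ l ∈ (Φ.coeff 0).support.erase a,
            C ((Φ.coeff 0).coeff l) * (A + B) ^ l := by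
      exact (Finset.add_sum_erase _ (fun l => C ((Φ.coeff 0).coeff l) * (A + B) ^ l)
        (mem_support_iff.2 hφ0)).symm
    have hn1 : Φ.coeff n = 1 := by
      have := h.monic.coeff_natDegree
      rwa [h.natDegree] at this
    have htop : (∑ l ∈ (Φ.coeff n).support, C ((Φ.coeff n).coeff l) * (A + B) ^ l) = 1 := by
      rw [hn1]
      have : (1 : F[X][X]) = C 1 := rfl
      have h2 := eval₂_eq_sum (p := (1 : F[X][X])) (f := (C : F[X] →+* F[X][X])) (x := A + B)
      rw [Polynomial.sum] at h2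
      rw [← h2, eval₂_one]
    have e1 : fam Φ c β v = X ^ n
        + (∑ j ∈ Finset.Ico 1 n,
          (∑ l ∈ (Φ.coeff j).support, C ((Φ.coeff j).coeff l) * (A + B) ^ l) * X ^ j)
        + (C φ * (A + B) ^ a + ∑ l ∈ (Φ.coeff 0).support.erase a,
            C ((Φ.coeff 0).coeff l) * (A + B) ^ l) := by
      rw [hfam, Finset.sum_range_succ, htop, one_mul, Finset.range_eq_Ico,
        Finset.sum_eq_sum_Ico_succ_bot hn0, hsplit0, pow_zero, mul_one]
      ring
    have e2 : E = (∑ j ∈ Finset.Ico 1 n,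
          (∑ l ∈ (Φ.coeff j).support, C ((Φ.coeff j).coeff l) * (A + B) ^ l) * X ^ j)
        + (C φ * ((A + B) ^ a - A ^ a) + ∑ l ∈ (Φ.coeff 0).support.erase a,
            C ((Φ.coeff 0).coeff l) * (A + B) ^ l) := by
      rw [hE, e1, C_mul, C_pow, hA]
      ring
    rw [e2]
    refine M6d_Wlt_add ?_ (M6d_Wlt_add ?_ ?_)
    · refine M6d_Wlt_sum _ _ fun j hj => ?_
      rw [Finset.mem_Ico] at hj
      rw [Finset.sum_mul]
      refine M6d_Wlt_sum _ _ fun l hl => ?_
      refine hterm j l hj.2 ?_ (mem_support_iff.1 hl)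
      intro h0
      have := congrArg Prod.snd h0
      simp only at this
      omega
    · have w1 : M6d_Wlt n z (C φ : F[X][X]) (n * φ.natDegree + 1) := M6d_Wlt_C (by omega)
      have w2 := M6d_Wlt_mul w1 (M6d_Wlt_pow_sub hAw hBw a)
      refine M6d_Wlt_mono w2 (le_of_eq ?_)
      rw [hφ, h.lead_deg, hzdef]; ring
    · refine M6d_Wlt_sum _ _ fun l hl => ?_
      rw [Finset.mem_erase] at hl
      have := hterm 0 l hn0 (by simpa using hl.1) (mem_support_iff.1 hl.2)
      simpa using this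
  have hfamE : fam Φ c β v = X ^ n + C (φ * (-c) ^ a) + E := by rw [hE]; ring
  have hEcoeff : ∀ j, n ≤ j → E.coeff j = 0 := by
    intro j hj
    ext m
    by_contra hne
    have h1 := hEw j m (by simpa using hne)
    have h2 : z * n ≤ z * j := Nat.mul_le_mul_left z hj
    rw [mul_comm z n] at h2
    omega
  have hcoeff : ∀ j, (fam Φ c β v).coeff j
      = (if j = n then 1 else 0) + (if j = 0 then φ * (-c) ^ a else 0) + E.coeff j := by
    intro j
    rw [hfamE, coeff_add, coeff_add, coeff_X_pow, coeff_C]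
  have hgt : ∀ j, n < j → (fam Φ c β v).coeff j = 0 := by
    intro j hj
    rw [hcoeff, if_neg (by omega), if_neg (by omega), hEcoeff j hj.le]
    simp
  have hcn : (fam Φ c β v).coeff n = 1 := by
    rw [hcoeff, if_pos rfl, if_neg (by omega), hEcoeff n le_rfl]
    simp
  have hdeg : (fam Φ c β v).natDegree = n := by
    refine le_antisymm ?_ ?_
    · rw [natDegree_le_iff_coeff_eq_zero]
      exact fun j hj => hgt j hj
    · exact le_natDegree_of_ne_zero (by rw [hcn]; exact one_ne_zero)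
  have hmonic : (fam Φ c β v).Monic := by
    rw [Monic, leadingCoeff, hdeg, hcn]
  have hc0 : c ≠ 0 := hc.ne_zero
  have hGdeg : (φ * (-c) ^ a).natDegree = z := by
    rw [natDegree_mul hφ0 (pow_ne_zero _ (neg_ne_zero.2 hc0)), natDegree_pow, natDegree_neg, hcd,
      hφ, h.lead_deg, hzdef, mul_comm a M]
  have hG0 : φ * (-c) ^ a ≠ 0 := mul_ne_zero hφ0 (pow_ne_zero _ (neg_ne_zero.2 hc0))
  have hE0 : ∀ m, z ≤ m → (E.coeff 0).coeff m = 0 := by
    intro m hm
    by_contra hne
    have h1 := hEw 0 m hne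
    have h2 : n * z ≤ n * m := Nat.mul_le_mul_left n hm
    omega
  refine ⟨hmonic, hdeg, ?_, ?_⟩
  · rw [hcoeff, if_neg (by omega), if_pos rfl, zero_add]
    refine le_antisymm ?_ ?_
    · rw [natDegree_le_iff_coeff_eq_zero]
      intro m hm
      rw [coeff_add, hE0 m (le_of_lt hm), add_zero]
      exact coeff_eq_zero_of_natDegree_lt (by rw [hGdeg]; exact hm)
    · refine le_natDegree_of_ne_zero ?_
      rw [coeff_add, hE0 z le_rfl, add_zero]
      have : (φ * (-c) ^ a).coeff z = (φ * (-c) ^ a).leadingCoeff := by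
        rw [leadingCoeff, hGdeg]
      rw [this]
      exact leadingCoeff_ne_zero.2 hG0
  · intro j hj0 hjn
    have hcj : (fam Φ c β v).coeff j = E.coeff j := by
      rw [hcoeff, if_neg (by omega), if_neg (by omega)]; simp
    rw [hcj]
    by_cases h0 : E.coeff j = 0
    · rw [h0, natDegree_zero, mul_zero, zero_add, mul_comm z j]
      exact Nat.mul_lt_mul_of_pos_right hjn (by omega)
    · exact hEw j _ (leadingCoeff_ne_zero.2 h0)

end Pool.Agent.K1
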