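import Pool.Agent.K1.M6

/-!
K1, second half: existence of elements with prescribed highest form, finite generation (helper78).
-/

open Polynomial

namespace Pool.Agent.K1.SectionExp

variable {k A : Type*} [Field k] [CommRing A] [Algebra k A] {E : SectionExp k A}

theorem UA.c_mul {n M : ℕ} (hn : 1 ≤ n) {w l w' l' : ℤ} {m m' : ℕ} {f g : A}
    (h : E.UA n M w l m f) (h' : E.UA n M w' l' m' g) :
    E.c (f * g) (l + l') (m + m') = E.c f l m * E.c g l' m' := by
  apply E.c_mul_single h.1 h'.1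
  intro i j a b hij hab hf hg
  by_contra hne
  have h1 : (i, a) ≠ (l, m) := by
    intro h1
    rw [Prod.mk.injEq] at h1
    exact hne h1
  have h2 := h.2.2 i a hf h1
  have h3 := (h'.at 1).2.2.1 j b hg
  have h5 := h.2.1
  have h6 := h'.2.1
  have h7 : (n : ℤ) * a + n * b = n * m + n * m' := by
    have : ((a : ℤ) + b) = m + m' := by exact_mod_cast hab
    rw [← mul_add, this, mul_add]
  have h8 : (M : ℤ) * i + M * j = M * l + M * l' := by
    rw [← mul_add, hij, mul_add]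
  linarith

theorem Top.mul {n M : ℕ} (hn : 1 ≤ n) {i a i' a' : ℕ} {f g : A} (hf : E.Top n M i a f)
    (hg : E.Top n M i' a' g) : E.Top n M (i + i') (a + a') (f * g) := by
  obtain ⟨h1, h2⟩ := (top_iff hn).1 hf
  obtain ⟨h3, h4⟩ := (top_iff hn).1 hg
  have h5 := UA.c_mul hn h2 h4
  have h6 := h2.mul hn h4
  refine (top_iff hn).2 ⟨?_, ?_⟩
  · have : (-((a + a' : ℕ) : ℤ)) = -(a : ℤ) + -(a' : ℤ) := by push_cast; ring
    rw [this, h5, h1, h3, mul_one]
  · convert h6 using 1 <;> push_cast <;> ring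

theorem top_one {n M : ℕ} (hn : 1 ≤ n) : E.Top n M 0 0 (1 : A) := by
  refine (top_iff hn).2 ⟨?_, ?_⟩
  · simp [c, co_one]
  · convert ua_one (E := E) n M using 1
    · push_cast; ring
    · simp

theorem Top.pow {n M : ℕ} (hn : 1 ≤ n) {i a : ℕ} {f : A} (hf : E.Top n M i a f) (j : ℕ) :
    E.Top n M (j * i) (j * a) (f ^ j) := by
  induction j with
  | zero => simpa using top_one hn
  | succ j ih =>
    rw [pow_succ]
    convert ih.mul hn hf using 1 <;> ring

theorem top_aeval {n M : ℕ} (hn : 1 ≤ n) (P : k[X]) (hP : P.Monic) :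
    E.Top n M P.natDegree 0 (aeval E.s P) := by
  refine (top_iff hn).2 ⟨?_, ?_⟩
  · unfold c
    rw [co_aeval, if_pos (by simp)]
    exact hP
  · convert ua_aeval (E := E) hn M P hP.ne_zero using 1
    · push_cast; ring
    · simp

theorem top_s_pow {n M : ℕ} (hn : 1 ≤ n) (i : ℕ) : E.Top n M i 0 (E.s ^ i) := by
  have h := top_aeval (E := E) (M := M) hn (X ^ i : k[X]) (monic_X_pow i)
  rw [natDegree_X_pow, map_pow, aeval_X] at h
  exact h

/-- A fixed element with leading coefficient one has highest form `t^-j` for all large slopes. -/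
theorem exists_slope (E : SectionExp k A) {j : ℕ} {u : A} (h1 : E.co u (-(j : ℤ)) = 1)
    (h2 : ∀ i < -(j : ℤ), E.co u i = 0) : ∃ μ : ℕ, ∀ n M : ℕ, 1 ≤ n → μ * n ≤ M →
      E.Top n M 0 j u := by
  obtain ⟨κ, hG⟩ := exists_grows E
  obtain ⟨e, he⟩ := hG u
  refine ⟨e + κ + 1, ?_⟩
  intro n M hn hM
  refine ⟨by rw [h1]; exact monic_one, by rw [h1]; exact natDegree_one, ?_⟩
  intro l hl hne
  have hlj : -(j : ℤ) < l := by
    rcases lt_trichotomy l (-(j : ℤ)) with h | h | h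
    · exact absurd (h2 l h) hne
    · exact absurd h hl
    · exact h
  have h3 : ((E.co u l).natDegree : ℤ) ≤ e + κ * (l.toNat : ℤ) := by exact_mod_cast he l
  have h4 : ((e : ℤ) + κ + 1) * n ≤ M := by exact_mod_cast hM
  have h5 : ((e : ℤ) + κ * (l.toNat : ℤ)) < (e + κ + 1) * (j + l) := by
    have hjl : 1 ≤ (j : ℤ) + l := by linarith
    have e0 : (0 : ℤ) ≤ e := Int.natCast_nonneg e
    have k0 : (0 : ℤ) ≤ κ := Int.natCast_nonneg κ
    rcases le_or_gt 0 l with h | h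
    · rw [Int.toNat_of_nonneg h]
      have hj0 : (0 : ℤ) ≤ j := Int.natCast_nonneg j
      nlinarith
    · rw [Int.toNat_eq_zero.2 h.le]
      push_cast
      nlinarith
  have hn' : (0 : ℤ) < n := by positivity
  calc (n : ℤ) * ((E.co u l).natDegree : ℤ) ≤ n * (e + κ * (l.toNat : ℤ)) :=
        mul_le_mul_of_nonneg_left h3 hn'.le
    _ < n * ((e + κ + 1) * (j + l)) := mul_lt_mul_of_pos_left h5 hn'
    _ = ((e + κ + 1) * n) * (j + l) := by ring
    _ ≤ M * (j + l) := mul_le_mul_of_nonneg_right h4 (by linarith)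
    _ = n * ((0 : ℕ) : ℤ) + M * (j + l) := by push_cast; ring

/-- Elements with highest form `s^i t^-j` exist for all `i`, all large `j`, and all large slopes
`M / n`. -/
theorem exists_top (E : SectionExp k A) : ∃ μ j₁ : ℕ, ∀ n M : ℕ, 1 ≤ n → μ * n ≤ M →
    ∀ i j : ℕ, j₁ ≤ j → ∃ Y : A, E.Top n M i j Y := by
  obtain ⟨j₀, hj₀⟩ := E.mono
  choose! u hu using hj₀
  have hsl : ∀ j, j₀ ≤ j → ∃ μ : ℕ, ∀ n M : ℕ, 1 ≤ n → μ * n ≤ M → E.Top n M 0 j (u j) :=
    fun j hj => exists_slope E (hu j hj).1 (hu j hj).2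
  choose! μ hμ using hsl
  refine ⟨∑ j ∈ Finset.range (2 * (j₀ + 1)), μ j, j₀ + 1, ?_⟩
  intro n M hn hM i j hj
  have hT : ∀ b, j₀ ≤ b → b < 2 * (j₀ + 1) → E.Top n M 0 b (u b) := by
    intro b hb hb'
    apply hμ b hb n M hn
    refine le_trans (Nat.mul_le_mul_right n ?_) hM
    exact Finset.single_le_sum (f := μ) (fun _ _ => Nat.zero_le _) (Finset.mem_range.2 hb')
  -- j = a (j₀ + 1) + b, j₀ + 1 ≤ b < 2 (j₀ + 1)
  obtain ⟨a, b, hb1, hb2, hab⟩ : ∃ a b : ℕ, j₀ + 1 ≤ b ∧ b < 2 * (j₀ + 1) ∧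
      j = a * (j₀ + 1) + b := by
    refine ⟨(j - (j₀ + 1)) / (j₀ + 1), (j - (j₀ + 1)) % (j₀ + 1) + (j₀ + 1), by omega, ?_, ?_⟩
    · have := Nat.mod_lt (j - (j₀ + 1)) (show 0 < j₀ + 1 by omega)
      omega
    · have := Nat.div_add_mod' (j - (j₀ + 1)) (j₀ + 1)
      omega
  have h1 := ((hT (j₀ + 1) (by omega) (by omega)).pow hn a).mul hn (hT b (by omega) hb2)
  have h2 := (top_s_pow (E := E) (M := M) hn i).mul hn h1
  refine ⟨E.s ^ i * (u (j₀ + 1) ^ a * u b), ?_⟩
  convert h2 using 1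
  · ring
  · omega

/-- The class `V(n, M)` is not empty. -/
theorem exists_inV (E : SectionExp k A) : ∃ μ j₁ : ℕ, ∀ n M : ℕ, 1 ≤ n → j₁ ≤ n → μ * n ≤ M →
    ∃ q : A, E.InV n M q := by
  obtain ⟨μ, j₁, h⟩ := exists_top E
  refine ⟨μ, j₁, ?_⟩
  intro n M hn hn1 hM
  obtain ⟨Y, hY⟩ := h n M hn hM 0 n hn1
  refine ⟨aeval E.s (X ^ M : k[X]) + Y, X ^ M, monic_X_pow M, natDegree_X_pow M, ?_⟩
  rwa [add_sub_cancel_left]

/-- `A` is a finitely generated `k`-algebra. -/
theorem finiteType [IsDomain A] (E : SectionExp k A) : Algebra.FiniteType k A := by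
  classical
  obtain ⟨j₀, hj₀⟩ := E.mono
  obtain ⟨u, hu1, hu2⟩ := hj₀ (j₀ + 1) (by omega)
  obtain ⟨G, hG⟩ := E.M6b_finite (j₀ + 1) (by omega) u ⟨hu1, hu2⟩
  refine ⟨⟨insert E.s (insert u G), ?_⟩⟩
  rw [eq_top_iff]
  intro f _
  set S := Algebra.adjoin k ((insert E.s (insert u G) : Finset A) : Set A) with hS
  have hs : E.s ∈ S := Algebra.subset_adjoin (by simp)
  have hu : u ∈ S := Algebra.subset_adjoin (by simp)
  have hg : ∀ g ∈ G, g ∈ S := fun g hg => Algebra.subset_adjoin (by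
    rw [Finset.coe_insert, Finset.coe_insert]
    exact Set.mem_insert_of_mem _ (Set.mem_insert_of_mem _ hg))
  have haev : ∀ P : k[X], aeval E.s P ∈ S := by
    intro P
    have : aeval E.s P ∈ Algebra.adjoin k {E.s} := aeval_mem_adjoin_singleton k E.s
    exact (Algebra.adjoin_mono (Set.singleton_subset_iff.2 (by simp))) this
  have hev : ∀ P : k[X][X], E.evT u P ∈ S := by
    intro P
    unfold evT
    rw [coe_eval₂RingHom, eval₂_eq_sum]
    apply Subalgebra.sum_mem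
    intro j _
    exact Subalgebra.mul_mem _ (haev _) (Subalgebra.pow_mem _ hu j)
  obtain ⟨P, hP⟩ := hG f
  rw [hP]
  exact Subalgebra.sum_mem _ fun g hg' => Subalgebra.mul_mem _ (hev _) (hg g hg')

theorem isNoetherianRing [IsDomain A] (E : SectionExp k A) : IsNoetherianRing A := by
  have := E.finiteType
  exact Algebra.FiniteType.isNoetherianRing k A

theorem finitePresentation [IsDomain A] (E : SectionExp k A) :
    Algebra.FinitePresentation k A := by
  have := E.finiteType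
  exact Algebra.FinitePresentation.of_finiteType.1 inferInstance

end Pool.Agent.K1.SectionExp
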