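import Pool.Agent.K1.DefsMov

/-!
K1-B10a: a monic element of the ideal of a curve which is finite over the base line, vanishing to
the first order along the curve.
-/

set_option autoImplicit false

open Polynomial

namespace Pool.Agent.K1

/-- The elements `y` with `q ∣ t * y`. -/
def monicMemColon {A : Type} [CommRing A] (q t : A) : Ideal A where
  carrier := {y | q ∣ t * y}
  add_mem' := by
    intro a b ha hb
    simp only [Set.mem_ofPred_eq] at *
    rw [mul_add]
    exact dvd_add ha hb
  zero_mem' := by simp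
  smul_mem' := by
    intro c y hy
    simp only [Set.mem_ofPred_eq, smul_eq_mul] at *
    rw [mul_left_comm]
    exact hy.mul_left c

/-- Monic elements of the ideal of a horizontal curve, of all large pole orders. -/
theorem exists_monic_mem_large {k A : Type} [Field k] [CommRing A]
    [Algebra k A] (E : SectionExp k A) (P : Curve1 A) (hP : Horiz E P) (N : ℕ) :
    ∃ (d : ℕ) (q : A), N < d ∧ E.MonicAt d q ∧ q ∈ P.ideal := by
  classical
  obtain ⟨G, hG⟩ := hP
  obtain ⟨j₀, hj₀⟩ := E.mono
  choose m hm using fun f => SectionExp.M6b.exists_bound E f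
  set N₀ : ℕ := ∑ g ∈ G, m g with hN₀
  have hN : ∀ g ∈ G, m g ≤ N₀ := fun g hg =>
    Finset.single_le_sum (f := m) (fun _ _ => Nat.zero_le _) hg
  set j : ℕ := N₀ + N + j₀ + 1 with hj
  obtain ⟨u, hu1, hu2⟩ := hj₀ j (by omega)
  obtain ⟨c, hc⟩ := hG u
  have hz : ∀ i : ℤ, i ≤ -(j : ℤ) → E.co (∑ g ∈ G, aeval E.s (c g) * g) i = 0 := by
    intro i hi
    rw [SectionExp.M6b.co_sum]
    refine Finset.sum_eq_zero fun g hg => ?_
    rw [SectionExp.M6b.co_aeval_mul, hm g i (by have := hN g hg; omega), mul_zero]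
  refine ⟨j, u - ∑ g ∈ G, aeval E.s (c g) * g, by omega, ⟨?_, ?_⟩, hc⟩
  · rw [SectionExp.M6b.co_sub, hz _ le_rfl, sub_zero]
    exact hu1
  · intro i hi
    rw [SectionExp.M6b.co_sub, hz i hi.le, sub_zero]
    exact hu2 i hi

/-- a monic equation in `P`, vanishing to the first order along `P`. -/
theorem exists_monic_mem {k A : Type} [Field k] [IsAlgClosed k] [CommRing A] [IsDomain A]
    [Algebra k A] [IsRegularRing A] (E : SectionExp k A) (P : Curve1 A) (hP : Horiz E P) :
    ∃ (d : ℕ) (q t₀ : A), 1 ≤ d ∧ E.MonicAt d q ∧ q ∈ P.ideal ∧ t₀ ∉ P.ideal ∧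
      ∀ y ∈ P.ideal, q ∣ t₀ * y := by
  classical
  have hdvr : IsDiscreteValuationRing (Localization.AtPrime P.ideal) := dvr_of_regular P
  have hinj := loc_inj P
  -- an element of `P` which generates the maximal ideal of the local ring
  obtain ⟨ϖ, hϖ⟩ := IsDiscreteValuationRing.exists_irreducible (Localization.AtPrime P.ideal)
  have hmax := (IsDiscreteValuationRing.irreducible_iff_uniformizer ϖ).mp hϖ
  obtain ⟨⟨q₀, b₀⟩, hq₀⟩ := IsLocalization.surj P.ideal.primeCompl ϖ
  have hb₀ : IsUnit (algebraMap A (Localization.AtPrime P.ideal) b₀) :=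
    IsLocalization.map_units _ b₀
  have hmem : ∀ y ∈ P.ideal, algebraMap A (Localization.AtPrime P.ideal) y ∈
      IsLocalRing.maximalIdeal (Localization.AtPrime P.ideal) := by
    intro y hy
    exact (IsLocalization.AtPrime.to_map_mem_maximal_iff _ P.ideal y).mpr hy
  have hgen₀ : IsLocalRing.maximalIdeal (Localization.AtPrime P.ideal)
      = Ideal.span {algebraMap A (Localization.AtPrime P.ideal) q₀} := by
    rw [hmax]
    apply Ideal.span_singleton_eq_span_singleton.mpr
    exact ⟨hb₀.unit, by simpa using hq₀⟩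
  have hq₀P : q₀ ∈ P.ideal := by
    rw [← IsLocalization.AtPrime.to_map_mem_maximal_iff (Localization.AtPrime P.ideal) P.ideal q₀,
      hgen₀]
    exact Ideal.mem_span_singleton_self _
  obtain ⟨m₀, hm₀⟩ := SectionExp.M6b.exists_bound E q₀
  obtain ⟨d, q₁, hd, hq₁, hq₁P⟩ := exists_monic_mem_large E P hP m₀
  have h1 := hmem q₁ hq₁P
  rw [hgen₀] at h1
  obtain ⟨w, hw⟩ := Ideal.mem_span_singleton'.mp h1
  -- the monic generator
  obtain ⟨q, hqM, hqP, hgen⟩ : ∃ q : A, E.MonicAt d q ∧ q ∈ P.ideal ∧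
      IsLocalRing.maximalIdeal (Localization.AtPrime P.ideal)
        = Ideal.span {algebraMap A (Localization.AtPrime P.ideal) q} := by
    by_cases hwu : IsUnit w
    · refine ⟨q₁, hq₁, hq₁P, ?_⟩
      rw [hgen₀]
      apply Ideal.span_singleton_eq_span_singleton.mpr
      exact ⟨hwu.unit, by rw [IsUnit.unit_spec, mul_comm]; exact hw⟩
    · have hw1 : IsUnit (w + 1) := by
        have h2 : w ∈ IsLocalRing.maximalIdeal (Localization.AtPrime P.ideal) :=
          (IsLocalRing.mem_maximalIdeal w).mpr hwu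
        by_contra h3
        have h4 : w + 1 ∈ IsLocalRing.maximalIdeal (Localization.AtPrime P.ideal) :=
          (IsLocalRing.mem_maximalIdeal _).mpr h3
        have h5 : (1 : Localization.AtPrime P.ideal) ∈
            IsLocalRing.maximalIdeal (Localization.AtPrime P.ideal) := by
          have h6 := Ideal.sub_mem _ h4 h2
          rwa [add_sub_cancel_left] at h6
        exact (Ideal.ne_top_iff_one _).mp (IsLocalRing.maximalIdeal.isMaximal _).ne_top h5
      refine ⟨q₁ + q₀, ⟨?_, ?_⟩, Ideal.add_mem _ hq₁P hq₀P, ?_⟩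
      · rw [SectionExp.M6b.co_add, hq₁.1, hm₀ _ (by omega), add_zero]
      · intro i hi
        rw [SectionExp.M6b.co_add, hq₁.2 i hi, hm₀ _ (by omega), add_zero]
      · rw [hgen₀]
        apply Ideal.span_singleton_eq_span_singleton.mpr
        refine ⟨hw1.unit, ?_⟩
        rw [IsUnit.unit_spec, map_add, ← hw]
        ring
  -- denominators
  have hden : ∀ y ∈ P.ideal, ∃ t : A, t ∉ P.ideal ∧ q ∣ t * y := by
    intro y hy
    have h2 := hmem y hy
    rw [hgen] at h2
    obtain ⟨v, hv⟩ := Ideal.mem_span_singleton'.mp h2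
    obtain ⟨⟨a, b⟩, hab⟩ := IsLocalization.surj P.ideal.primeCompl v
    refine ⟨b, b.2, a, ?_⟩
    apply hinj
    rw [map_mul, map_mul, ← hv, ← hab]
    ring
  obtain ⟨S, hS⟩ := (IsNoetherian.noetherian P.ideal : P.ideal.FG)
  have hSP : ∀ y ∈ S, y ∈ P.ideal := by
    intro y hy
    rw [← hS]
    exact Ideal.subset_span hy
  choose! t ht1 ht2 using hden
  refine ⟨d, q, ∏ y ∈ S, t y, by omega, hqM, hqP, ?_, ?_⟩
  · intro h
    obtain ⟨y, hy, hy'⟩ := (Ideal.IsPrime.prod_mem_iff (hp := P.isPrime)).mp h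
    exact ht1 y (hSP y hy) hy'
  · intro y hy
    have hle : P.ideal ≤ monicMemColon q (∏ y ∈ S, t y) := by
      rw [← hS]
      apply Ideal.span_le.mpr
      intro z hz
      change q ∣ (∏ y ∈ S, t y) * z
      rw [← Finset.mul_prod_erase S t (Finset.mem_coe.mp hz), mul_right_comm]
      exact (ht2 z (hSP z hz)).mul_right _
    exact hle hy

end Pool.Agent.K1
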