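import Pool.Agent.K1.DefsMov

/-!
K1-B10b: curves which are finite over the base line; norms to the base.
-/

set_option autoImplicit false

open Polynomial

namespace Pool.Agent.K1

namespace NormAux

open SectionExp SectionExp.M6b

variable {k A : Type} [Field k] [CommRing A] [IsDomain A] [Algebra k A] (E : SectionExp k A)

theorem fibre_ne_zero (c : k) : E.s - algebraMap k A c ≠ 0 := by
  intro h0
  have h1 := ι_aeval E (X - C c)
  rw [map_sub, aeval_X, aeval_C, h0, map_zero] at h1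
  have h2 := HahnSeries.C_injective (Γ := ℤ) (R := k[X]) (h1.symm.trans (map_zero _).symm)
  exact X_sub_C_ne_zero c h2

theorem dvd_iff (c : k) (f : A) : (E.s - algebraMap k A c) ∣ f ↔ ∀ i, (X - C c) ∣ E.co f i := by
  constructor
  · rintro ⟨g, rfl⟩ i
    have h1 : (E.s - algebraMap k A c) * g = aeval E.s (X - C c) * g := by simp
    rw [h1, co_aeval_mul]
    exact dvd_mul_right _ _
  · exact E.fibre c f

theorem prime_fibre (c : k) : Prime (E.s - algebraMap k A c) := by
  refine ⟨fibre_ne_zero E c, ?_, ?_⟩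
  · intro hu
    have h1 : (E.s - algebraMap k A c) ∣ 1 := hu.dvd
    rw [dvd_iff] at h1
    have h2 := h1 0
    have h3 : E.co (1 : A) 0 = 1 := by
      have := co_aeval_zero E (1 : k[X])
      rwa [map_one] at this
    rw [h3, dvd_iff_isRoot] at h2
    simp at h2
  · intro f g h
    rw [dvd_iff] at h
    set φ : k[X] →ₙ+* k := (evalRingHom c : k[X] →ₙ+* k) with hφ
    have hφe : ∀ p : k[X], φ p = eval c p := fun p => rfl
    have hmul : ((E.ι (f * g)).map φ : HahnSeries ℤ k) = (E.ι f).map φ * (E.ι g).map φ := by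
      rw [map_mul]
      exact HahnSeries.map_mul _
    have h0 : ((E.ι (f * g)).map φ : HahnSeries ℤ k) = 0 := by
      ext i
      have := h i
      rw [dvd_iff_isRoot] at this
      rw [HahnSeries.map_coeff, hφe, HahnSeries.coeff_zero]
      exact this
    rw [h0] at hmul
    have key : ∀ f : A, (E.ι f).map φ = (0 : HahnSeries ℤ k) → (E.s - algebraMap k A c) ∣ f := by
      intro f hf
      rw [dvd_iff]
      intro i
      rw [dvd_iff_isRoot]
      have h2 := congrArg (fun z : HahnSeries ℤ k => z.coeff i) hf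
      simp only [HahnSeries.map_coeff, hφe, HahnSeries.coeff_zero] at h2
      exact h2
    rcases mul_eq_zero.mp hmul.symm with h1 | h1
    · exact Or.inl (key f h1)
    · exact Or.inr (key g h1)

theorem exists_fibre_mem [IsAlgClosed k] (P : Ideal A) [hP : P.IsPrime] (r : k[X]) (hr : r ≠ 0)
    (h : aeval E.s r ∈ P) : ∃ c : k, E.s - algebraMap k A c ∈ P := by
  induction hd : r.natDegree using Nat.strong_induction_on generalizing r with
  | _ d ih =>
    rcases Nat.eq_zero_or_pos d with hd0 | hd0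
    · subst hd0
      rw [natDegree_eq_zero] at hd
      obtain ⟨a, rfl⟩ := hd
      have ha : a ≠ 0 := by rintro rfl; simp at hr
      exfalso
      apply hP.ne_top
      rw [Ideal.eq_top_iff_one]
      have h1 := P.mul_mem_left (algebraMap k A a⁻¹) h
      rwa [aeval_C, ← map_mul, inv_mul_cancel₀ ha, map_one] at h1
    · have hdeg : r.degree ≠ 0 := by
        intro h0
        have := natDegree_eq_of_degree_eq_some (n := 0) (by simpa using h0)
        omega
      obtain ⟨c, hc⟩ := IsAlgClosed.exists_root r hdeg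
      obtain ⟨r', rfl⟩ := dvd_iff_isRoot.mpr hc
      rw [map_mul] at h
      rcases hP.mem_or_mem h with h1 | h1
      · exact ⟨c, by simpa using h1⟩
      · have hr' : r' ≠ 0 := right_ne_zero_of_mul hr
        refine ih r'.natDegree ?_ r' hr' h1 rfl
        rw [← hd, natDegree_mul (X_sub_C_ne_zero c) hr', natDegree_X_sub_C]
        omega

theorem ideal_eq_span (P : Curve1 A) (π : A) (hπ : Prime π) (h : π ∈ P.ideal) :
    P.ideal = Ideal.span {π} := by
  have hprime : (Ideal.span {π} : Ideal A).IsPrime := (Ideal.span_singleton_prime hπ.1).2 hπ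
  have hle : Ideal.span {π} ≤ P.ideal := by
    rw [Ideal.span_singleton_le_iff_mem]
    exact h
  by_contra hne
  have hlt : Ideal.span {π} < P.ideal := lt_of_le_of_ne hle (Ne.symm hne)
  have h1 : (Ideal.span {π} : Ideal A).height + 1 ≤ P.ideal.height :=
    Ideal.height_add_one_le_of_lt_of_isPrime hlt
  rw [P.height] at h1
  have h2 : (Ideal.span {π} : Ideal A).height ≠ 0 := by
    rw [Ne, Ideal.height_eq_zero_iff_eq_bot, Ideal.span_singleton_eq_bot]
    exact hπ.1
  have h3 : (1 : ℕ∞) ≤ (Ideal.span {π} : Ideal A).height := Order.one_le_iff_ne_zero.2 h2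
  have h4 : (1 : ℕ∞) + 1 ≤ 1 := (add_le_add_left h3 1).trans h1
  exact absurd h4 (by decide)

theorem not_fibre_mem (P : Curve1 A) (hP : Horiz E P) (c : k) :
    E.s - algebraMap k A c ∉ P.ideal := by
  classical
  intro hc
  have hspan := ideal_eq_span P _ (prime_fibre E c) hc
  obtain ⟨G, hG⟩ := hP
  choose m hm using fun f : A => exists_bound E f
  obtain ⟨j₀, hj₀⟩ := E.mono
  obtain ⟨u, hu1, hu2⟩ := hj₀ (j₀ + ∑ g ∈ G, m g + 1) (by omega)
  obtain ⟨cc, hcc⟩ := hG u
  set N : ℤ := -((j₀ + ∑ g ∈ G, m g + 1 : ℕ) : ℤ) with hN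
  rw [hspan, Ideal.mem_span_singleton, dvd_iff] at hcc
  have h1 := hcc N
  rw [co_sub, co_sum] at h1
  have h2 : ∀ g ∈ G, E.co (aeval E.s (cc g) * g) N = 0 := by
    intro g hg
    rw [co_aeval_mul, hm g N, mul_zero]
    have h3 : m g ≤ ∑ g ∈ G, m g := Finset.single_le_sum (fun _ _ => Nat.zero_le _) hg
    rw [hN]
    push_cast
    have h4 : (m g : ℤ) ≤ ∑ g ∈ G, (m g : ℤ) := by exact_mod_cast h3
    omega
  rw [Finset.sum_eq_zero h2, sub_zero] at h1
  have h5 : E.co u N = 1 := hu1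
  rw [h5, dvd_iff_isRoot] at h1
  simp at h1

end NormAux

open NormAux SectionExp SectionExp.M6b

/-- `k[s]` injects into `A/P`, and every element outside `P` divides a nonzero polynomial in
`s`, modulo `P`. -/
theorem exists_norm {k A : Type} [Field k] [IsAlgClosed k] [CommRing A] [IsDomain A]
    [Algebra k A] (E : SectionExp k A) (P : Curve1 A)
    (hP : Horiz E P) : (∀ r : k[X], aeval E.s r ∈ P.ideal → r = 0) ∧
      ∀ g ∉ P.ideal, ∃ (g' : A) (ν : k[X]), ν.Monic ∧ g * g' - aeval E.s ν ∈ P.ideal := by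
  classical
  have h1 : ∀ r : k[X], aeval E.s r ∈ P.ideal → r = 0 := by
    intro r hr
    by_contra hr0
    obtain ⟨c, hc⟩ := exists_fibre_mem E P.ideal r hr0 hr
    exact not_fibre_mem E P hP c hc
  refine ⟨h1, ?_⟩
  intro g hg
  let B := A ⧸ P.ideal
  let φ : k[X] →+* B := (Ideal.Quotient.mk P.ideal).comp ((aeval E.s : k[X] →ₐ[k] A) : k[X] →+* A)
  letI : Algebra k[X] B := φ.toAlgebra
  have hφ : ∀ r : k[X], algebraMap k[X] B r = Ideal.Quotient.mk P.ideal (aeval E.s r) :=
    fun r => rfl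
  obtain ⟨G, hG⟩ := hP
  haveI : Module.Finite k[X] B := by
    refine ⟨⟨G.image (Ideal.Quotient.mk P.ideal), ?_⟩⟩
    rw [eq_top_iff]
    rintro z -
    obtain ⟨f, rfl⟩ := Ideal.Quotient.mk_surjective z
    obtain ⟨c, hc⟩ := hG f
    have h2 := (Ideal.Quotient.eq).2 hc
    rw [h2, map_sum]
    apply Submodule.sum_mem
    intro x hx
    rw [map_mul, ← hφ, ← Algebra.smul_def]
    exact Submodule.smul_mem _ _ (Submodule.subset_span
      (Finset.mem_coe.2 (Finset.mem_image_of_mem _ hx)))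
  have hgB : Ideal.Quotient.mk P.ideal g ≠ 0 := by
    intro h
    exact hg (Ideal.Quotient.eq_zero_iff_mem.1 h)
  have hint : IsIntegral k[X] (Ideal.Quotient.mk P.ideal g) := IsIntegral.of_finite k[X] _
  obtain ⟨r, hr, hdvd⟩ := hint.isAlgebraic.exists_nonzero_dvd (mem_nonZeroDivisors_of_ne_zero hgB)
  obtain ⟨z, hz⟩ := hdvd
  obtain ⟨g₁, rfl⟩ := Ideal.Quotient.mk_surjective z
  rw [hφ, ← map_mul, Ideal.Quotient.eq] at hz
  have hlc : r.leadingCoeff ≠ 0 := leadingCoeff_ne_zero.2 hr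
  refine ⟨algebraMap k A r.leadingCoeff⁻¹ * g₁, C r.leadingCoeff⁻¹ * r, ?_, ?_⟩
  · rw [mul_comm]
    exact monic_mul_leadingCoeff_inv hr
  · have h3 := P.ideal.mul_mem_left (-algebraMap k A r.leadingCoeff⁻¹) hz
    rw [map_mul, aeval_C]
    convert h3 using 1
    ring

/-- the part of `A/(q)` killed by `P` injects into `A/P`. -/
theorem mem_of_colon {k A : Type} [Field k] [IsAlgClosed k] [CommRing A] [IsDomain A]
    [Algebra k A] (E : SectionExp k A) (P : Curve1 A)
    (hP : Horiz E P) (d : ℕ) (q t₀ : A) (hq : E.MonicAt d q) (ht : t₀ ∉ P.ideal)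
    (htP : ∀ y ∈ P.ideal, q ∣ t₀ * y) (x : A) (hx : x ∈ P.ideal)
    (hx' : ∀ y ∈ P.ideal, q ∣ x * y) : q ∣ x := by
  obtain ⟨g', ν, hν, hmem⟩ := (exists_norm E P hP).2 t₀ ht
  have h1 : q ∣ t₀ * x := htP x hx
  have h2 := hx' _ hmem
  have h3 : q ∣ aeval E.s ν * x := by
    have h4 : aeval E.s ν * x = (t₀ * x) * g' - x * (t₀ * g' - aeval E.s ν) := by ring
    rw [h4]
    exact dvd_sub (h1.mul_right g') h2
  obtain ⟨g, hg⟩ := h3
  obtain ⟨g₁, hg₁⟩ := E.M6b_torsion d q hq ν hν.ne_zero x g hg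
  exact ⟨g₁, hg₁⟩

end Pool.Agent.K1
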