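import Pool.Agent.K1.DefsMov

/-!
Units at infinity have a power near one.
-/

set_option autoImplicit false

open Polynomial

namespace Pool.Agent.K1

namespace PowNear

/-- Elements of the form `sum_{i<m} (a_i/v)(s) h^i` with `deg a_i ≤ deg v`. -/
def InO (k : Type) {κ : Type} [Field k] [Field κ] [Algebra k κ] (s h : κ) (m : ℕ) (y : κ) :
    Prop :=
  ∃ (v : k[X]) (a : Fin m → k[X]), v ≠ 0 ∧ (∀ i, (a i).natDegree ≤ v.natDegree) ∧
    aeval s v * y = ∑ i, aeval s (a i) * h ^ (i : ℕ)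

variable {k κ : Type} [Field k] [Field κ] [Algebra k κ] {s h : κ}

theorem InO.zero (m : ℕ) : InO k s h m (0 : κ) :=
  ⟨1, 0, one_ne_zero, fun i => by simp, by simp⟩

theorem InO.const (m : ℕ) (c : k) : InO k s h (m + 1) (algebraMap k κ c) := by
  refine ⟨1, Function.update 0 0 (C c), one_ne_zero, fun i => ?_, ?_⟩
  · by_cases hi : i = 0
    · subst hi; simp
    · simp [Function.update_of_ne hi]
  · rw [Finset.sum_eq_single 0]
    · simp
    · intro i _ hi
      simp [Function.update_of_ne hi]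
    · simp

theorem InO.add {m : ℕ} {y z : κ} (hy : InO k s h m y) (hz : InO k s h m z) :
    InO k s h m (y + z) := by
  obtain ⟨v, a, hv, ha, e⟩ := hy
  obtain ⟨w, b, hw, hb, f⟩ := hz
  refine ⟨v * w, fun i => w * a i + v * b i, mul_ne_zero hv hw, fun i => ?_, ?_⟩
  · rw [natDegree_mul hv hw]
    refine (natDegree_add_le _ _).trans (max_le ?_ ?_)
    · exact natDegree_mul_le.trans (by have := ha i; omega)
    · exact natDegree_mul_le.trans (by have := hb i; omega)
  · have : aeval s (v * w) * (y + z) = aeval s w * (aeval s v * y) +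
      aeval s v * (aeval s w * z) := by rw [map_mul]; ring
    rw [this, e, f, Finset.mul_sum, Finset.mul_sum, ← Finset.sum_add_distrib]
    refine Finset.sum_congr rfl fun i _ => ?_
    rw [map_add, map_mul, map_mul]; ring

theorem InO.frac {m : ℕ} {y z : κ} (hy : InO k s h m y) (c w : k[X]) (hw : w ≠ 0)
    (hc : c.natDegree ≤ w.natDegree) (e : aeval s w * z = aeval s c * y) :
    InO k s h m z := by
  obtain ⟨v, a, hv, ha, f⟩ := hy
  refine ⟨v * w, fun i => c * a i, mul_ne_zero hv hw, fun i => ?_, ?_⟩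
  · rw [natDegree_mul hv hw]
    exact natDegree_mul_le.trans (by have := ha i; omega)
  · have : aeval s (v * w) * z = aeval s c * (aeval s v * y) := by
      rw [map_mul, mul_assoc, e]; ring
    rw [this, f, Finset.mul_sum]
    refine Finset.sum_congr rfl fun i _ => ?_
    rw [map_mul]; ring

theorem InO.mul_h {m : ℕ} (h1 : IntInf k s h (m + 1)) {y : κ} (hy : InO k s h (m + 1) y) :
    InO k s h (m + 1) (h * y) := by
  obtain ⟨v, a, hv, ha, e⟩ := hy
  obtain ⟨w, b, hw, hb, f⟩ := h1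
  refine ⟨v * w, fun i => Fin.cases 0 (fun j : Fin m => w * a j.castSucc) i +
    a (Fin.last m) * b i, mul_ne_zero hv hw, fun i => ?_, ?_⟩
  · rw [natDegree_mul hv hw]
    refine (natDegree_add_le _ _).trans (max_le ?_ ?_)
    · refine Fin.cases ?_ (fun j => ?_) i
      · simp
      · simp only [Fin.cases_succ]
        exact natDegree_mul_le.trans (by have := ha j.castSucc; omega)
    · exact natDegree_mul_le.trans (by have := hb i; have := ha (Fin.last m); omega)
  · have h3 : aeval s (v * w) * (h * y) = aeval s w * h * (aeval s v * y) := by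
      rw [map_mul]; ring
    rw [h3, e, Fin.sum_univ_castSucc]
    have h4 : ∑ i : Fin (m + 1), aeval s ((Fin.cases 0 (fun j : Fin m => w * a j.castSucc) i :
        k[X]) + a (Fin.last m) * b i) * h ^ (i : ℕ) =
        ∑ i : Fin (m + 1), aeval s (Fin.cases 0 (fun j : Fin m => w * a j.castSucc) i :
        k[X]) * h ^ (i : ℕ) + aeval s (a (Fin.last m)) *
          ∑ i : Fin (m + 1), aeval s (b i) * h ^ (i : ℕ) := by
      rw [Finset.mul_sum, ← Finset.sum_add_distrib]
      refine Finset.sum_congr rfl fun i _ => ?_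
      rw [map_add, map_mul]; ring
    rw [h4, ← f, Fin.sum_univ_succ]
    simp only [Fin.cases_zero, map_zero, zero_mul, zero_add, Fin.cases_succ, Fin.val_succ,
      Fin.val_castSucc, Fin.val_last, map_mul]
    rw [mul_add, Finset.mul_sum]
    congr 1
    · refine Finset.sum_congr rfl fun i _ => ?_
      rw [pow_succ]; ring
    · rw [pow_succ]; ring

theorem InO.mul_h_pow {m : ℕ} (h1 : IntInf k s h (m + 1)) {y : κ}
    (hy : InO k s h (m + 1) y) (n : ℕ) : InO k s h (m + 1) (h ^ n * y) := by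
  induction n with
  | zero => simpa using hy
  | succ n ih =>
    have := ih.mul_h h1
    rwa [← mul_assoc, ← pow_succ'] at this

theorem InO.sum {m : ℕ} {ι : Type*} (T : Finset ι) (f : ι → κ)
    (hf : ∀ i ∈ T, InO k s h m (f i)) : InO k s h m (∑ i ∈ T, f i) :=
  Finset.sum_induction f (InO k s h m) (fun _ _ ha hb => ha.add hb) (InO.zero m) hf

theorem InO.mul {m : ℕ} (hs : ∀ r : k[X], aeval s r = 0 → r = 0)
    (h1 : IntInf k s h (m + 1)) {y z : κ}
    (hy : InO k s h (m + 1) y) (hz : InO k s h (m + 1) z) : InO k s h (m + 1) (y * z) := by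
  obtain ⟨v, a, hv, ha, e⟩ := hy
  have hv' : aeval s v ≠ 0 := fun h0 => hv (hs v h0)
  have : y * z = ∑ i, aeval s (a i) / aeval s v * (h ^ (i : ℕ) * z) := by
    have h5 : y = (∑ i, aeval s (a i) * h ^ (i : ℕ)) / aeval s v := by
      rw [← e]; field_simp
    rw [h5, Finset.sum_div, Finset.sum_mul]
    refine Finset.sum_congr rfl fun i _ => ?_
    ring
  rw [this]
  refine InO.sum _ _ fun i _ => ?_
  refine (hz.mul_h_pow h1 (i : ℕ)).frac (a i) v hv (ha i) ?_
  field_simp

/-- The ring of the elements of the form `InO`. -/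
def ringO (hs : ∀ r : k[X], aeval s r = 0 → r = 0) (m : ℕ) (h1 : IntInf k s h (m + 1)) :
    Subalgebra k κ where
  carrier := {y | InO k s h (m + 1) y}
  mul_mem' ha hb := InO.mul hs h1 ha hb
  add_mem' ha hb := InO.add ha hb
  algebraMap_mem' c := InO.const m c

theorem mem_ringO (hs : ∀ r : k[X], aeval s r = 0 → r = 0) (m : ℕ)
    (h1 : IntInf k s h (m + 1)) (y : κ) : y ∈ ringO hs m h1 ↔ InO k s h (m + 1) y := Iff.rfl

theorem s_ne_zero (hs : ∀ r : k[X], aeval s r = 0 → r = 0) : s ≠ 0 := by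
  intro h0
  exact X_ne_zero (hs X (by simpa using h0))

theorem inv_s_mem (hs : ∀ r : k[X], aeval s r = 0 → r = 0) (m : ℕ)
    (h1 : IntInf k s h (m + 1)) : s⁻¹ ∈ ringO hs m h1 := by
  have h2 : InO k s h (m + 1) (1 : κ) := by simpa using (InO.const (s := s) (h := h) m (1 : k))
  refine h2.frac 1 X X_ne_zero (by simp) ?_
  simp [s_ne_zero hs]

theorem h_mem (hs : ∀ r : k[X], aeval s r = 0 → r = 0) (m : ℕ)
    (h1 : IntInf k s h (m + 1)) : h ∈ ringO hs m h1 := by
  have h2 : InO k s h (m + 1) (1 : κ) := by simpa using (InO.const (s := s) (h := h) m (1 : k))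
  have h3 := h2.mul_h h1
  rw [mul_one] at h3
  exact h3

theorem inv_h_mem (hs : ∀ r : k[X], aeval s r = 0 → r = 0) (m : ℕ)
    (h1 : IntInf k s h (m + 1)) (hh : h ≠ 0) (m' : ℕ) (h2 : IntInf k s h⁻¹ (m' + 1)) :
    h⁻¹ ∈ ringO hs m h1 := by
  obtain ⟨w, b, hw, hb, f⟩ := h2
  have hw' : aeval s w ≠ 0 := fun h0 => hw (hs w h0)
  have key : h⁻¹ = ∑ i : Fin (m' + 1), aeval s (b i) / aeval s w * (h ^ (m' - (i : ℕ)) * 1) := by
    have h5 : aeval s w * h⁻¹ = ∑ i : Fin (m' + 1), aeval s (b i) * h ^ (m' - (i : ℕ)) := by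
      have h6 : aeval s w * h⁻¹ = (aeval s w * h⁻¹ ^ (m' + 1)) * h ^ m' := by
        rw [pow_succ]
        have : h⁻¹ ^ m' * h ^ m' = 1 := by rw [← mul_pow, inv_mul_cancel₀ hh, one_pow]
        calc aeval s w * h⁻¹ = aeval s w * h⁻¹ * (h⁻¹ ^ m' * h ^ m') := by rw [this, mul_one]
          _ = _ := by ring
      rw [h6, f, Finset.sum_mul]
      refine Finset.sum_congr rfl fun i _ => ?_
      have hi : (i : ℕ) ≤ m' := Nat.lt_succ_iff.1 i.2
      have : h⁻¹ ^ (i : ℕ) * h ^ m' = h ^ (m' - (i : ℕ)) := by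
        rw [show h ^ m' = h ^ (i : ℕ) * h ^ (m' - (i : ℕ)) by rw [← pow_add]; congr 1; omega,
          ← mul_assoc, ← mul_pow, inv_mul_cancel₀ hh, one_pow, one_mul]
      rw [mul_assoc, this]
    have h7 : h⁻¹ = (aeval s w * h⁻¹) / aeval s w := by field_simp
    rw [h7, h5, Finset.sum_div]
    refine Finset.sum_congr rfl fun i _ => ?_
    ring
  rw [key]
  refine InO.sum _ _ fun i _ => ?_
  have h8 : InO k s h (m + 1) (1 : κ) := by simpa using (InO.const (s := s) (h := h) m (1 : k))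
  refine (h8.mul_h_pow h1 (m' - (i : ℕ))).frac (b i) w hw (hb i) ?_
  field_simp

/-- The ideal `s^-R O`. -/
def idl (hs : ∀ r : k[X], aeval s r = 0 → r = 0) (m : ℕ) (h1 : IntInf k s h (m + 1)) (R : ℕ) :
    Ideal (ringO hs m h1) where
  carrier := {y | s ^ R * (y : κ) ∈ ringO hs m h1}
  add_mem' := by
    intro a b ha hb
    simp only [Set.mem_ofPred_eq] at ha hb ⊢
    rw [Subalgebra.coe_add, mul_add]
    exact Subalgebra.add_mem _ ha hb
  zero_mem' := by simp
  smul_mem' := by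
    intro c x hx
    simp only [Set.mem_ofPred_eq, smul_eq_mul, Subalgebra.coe_mul] at hx ⊢
    have : s ^ R * ((c : κ) * (x : κ)) = (c : κ) * (s ^ R * (x : κ)) := by ring
    rw [this]
    exact Subalgebra.mul_mem _ c.2 hx

theorem finite_quot (hs : ∀ r : k[X], aeval s r = 0 → r = 0) (m : ℕ)
    (h1 : IntInf k s h (m + 1)) (R : ℕ) :
    Module.Finite k (ringO hs m h1 ⧸ idl hs m h1 R) := by
  classical
  let g : Fin (m + 1) × Fin (R + 1) → ringO hs m h1 := fun ij =>
    ⟨s⁻¹, inv_s_mem hs m h1⟩ ^ (R - (ij.2 : ℕ)) * ⟨h, h_mem hs m h1⟩ ^ (ij.1 : ℕ)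
  have hg : ∀ ij, (g ij : κ) = s⁻¹ ^ (R - (ij.2 : ℕ)) * h ^ (ij.1 : ℕ) := fun ij => rfl
  refine Module.finite_def.2 ⟨Finset.univ.image (fun ij => Ideal.Quotient.mk _ (g ij)), ?_⟩
  rw [eq_top_iff]
  rintro y -
  obtain ⟨y, rfl⟩ := Ideal.Quotient.mk_surjective y
  obtain ⟨v, a, hv, ha, e⟩ := (mem_ringO hs m h1 _).1 y.2
  let q : Fin (m + 1) → k[X] := fun i => (X ^ R * a i) / v
  let r : Fin (m + 1) → k[X] := fun i => (X ^ R * a i) % v
  have hqr : ∀ i, v * q i + r i = X ^ R * a i := fun i => EuclideanDomain.div_add_mod _ _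
  have hr : ∀ i, (r i).natDegree ≤ v.natDegree := fun i => by
    rcases eq_or_ne (r i) 0 with h0 | h0
    · rw [h0]; simp
    · exact (natDegree_lt_natDegree h0 (EuclideanDomain.mod_lt _ hv)).le
  have hq : ∀ i, (q i).natDegree < R + 1 := fun i => by
    rcases eq_or_ne (q i) 0 with h0 | h0
    · rw [h0]; simp
    · have h2 : (v * q i).natDegree ≤ R + v.natDegree := by
        have : v * q i = X ^ R * a i - r i := by rw [← hqr i]; ring
        rw [this]
        refine (natDegree_sub_le _ _).trans (max_le ?_ ?_)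
        · refine natDegree_mul_le.trans ?_
          have := ha i
          rw [natDegree_X_pow]; omega
        · exact (hr i).trans (by omega)
      rw [natDegree_mul hv h0] at h2
      omega
  let z : ringO hs m h1 := ∑ ij : Fin (m + 1) × Fin (R + 1), (q ij.1).coeff (ij.2 : ℕ) • g ij
  have hz : (z : κ) = ∑ i : Fin (m + 1), (∑ j : Fin (R + 1),
      algebraMap k κ ((q i).coeff (j : ℕ)) * s⁻¹ ^ (R - (j : ℕ))) * h ^ (i : ℕ) := by
    simp only [z]
    rw [AddSubmonoidClass.coe_finsetSum, Fintype.sum_prod_type]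
    refine Finset.sum_congr rfl fun i _ => ?_
    rw [Finset.sum_mul]
    refine Finset.sum_congr rfl fun j _ => ?_
    rw [Subalgebra.coe_smul, hg, Algebra.smul_def]
    simp only []
    ring
  have hsR : ∀ i : Fin (m + 1), s ^ R * (∑ j : Fin (R + 1),
      algebraMap k κ ((q i).coeff (j : ℕ)) * s⁻¹ ^ (R - (j : ℕ))) = aeval s (q i) := by
    intro i
    rw [aeval_eq_sum_range' (hq i), Finset.sum_range, Finset.mul_sum]
    refine Finset.sum_congr rfl fun j _ => ?_
    have hj : (j : ℕ) ≤ R := Nat.lt_succ_iff.1 j.2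
    have h9 : s ^ R * s⁻¹ ^ (R - (j : ℕ)) = s ^ (j : ℕ) := by
      rw [show s ^ R = s ^ (j : ℕ) * s ^ (R - (j : ℕ)) by rw [← pow_add]; congr 1; omega,
        mul_assoc, ← mul_pow, mul_inv_cancel₀ (s_ne_zero hs), one_pow, mul_one]
    rw [Algebra.smul_def, ← h9]; ring
  have hyz : y - z ∈ idl hs m h1 R := by
    show s ^ R * ((y - z : ringO hs m h1) : κ) ∈ ringO hs m h1
    refine ⟨v, r, hv, hr, ?_⟩
    rw [Subalgebra.coe_sub, mul_sub, mul_sub]
    have h10 : s ^ R * (z : κ) = ∑ i, aeval s (q i) * h ^ (i : ℕ) := by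
      rw [hz, Finset.mul_sum]
      refine Finset.sum_congr rfl fun i _ => ?_
      rw [← mul_assoc, hsR i]
    have h11 : aeval s v * (s ^ R * (y : κ)) = ∑ i, s ^ R * (aeval s (a i) * h ^ (i : ℕ)) := by
      rw [← Finset.mul_sum, ← e]; ring
    rw [h10, h11, Finset.mul_sum, ← Finset.sum_sub_distrib]
    refine Finset.sum_congr rfl fun i _ => ?_
    have h12 := congrArg (aeval s) (hqr i)
    rw [map_add, map_mul, map_mul, map_pow, aeval_X] at h12
    calc s ^ R * (aeval s (a i) * h ^ (i : ℕ)) - aeval s v * (aeval s (q i) * h ^ (i : ℕ))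
        = (s ^ R * aeval s (a i) - aeval s v * aeval s (q i)) * h ^ (i : ℕ) := by ring
      _ = aeval s (r i) * h ^ (i : ℕ) := by rw [← h12]; ring
  have h13 : Ideal.Quotient.mk (idl hs m h1 R) y = Ideal.Quotient.mk _ z := by
    rw [Ideal.Quotient.eq]; exact hyz
  rw [h13]
  simp only [z]
  rw [map_sum]
  refine Submodule.sum_mem _ fun ij _ => ?_
  have h14 : Ideal.Quotient.mk (idl hs m h1 R) ((q ij.1).coeff (ij.2 : ℕ) • g ij) =
      (q ij.1).coeff (ij.2 : ℕ) • Ideal.Quotient.mk (idl hs m h1 R) (g ij) := rfl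
  rw [h14]
  refine Submodule.smul_mem _ _ (Submodule.subset_span ?_)
  simp

/-- a unit of a finite algebra over an algebraic extension of a finite field has finite order -/
theorem exists_pow_eq_one (p : ℕ) [Fact p.Prime] {B : Type} [CommRing B] [Algebra k B]
    [Algebra (ZMod p) k] [Algebra.IsAlgebraic (ZMod p) k] [Module.Finite k B] (u w : B)
    (huw : u * w = 1) : ∃ N : ℕ, 1 ≤ N ∧ u ^ N = 1 := by
  letI : Algebra (ZMod p) B := ((algebraMap k B).comp (algebraMap (ZMod p) k)).toAlgebra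
  haveI : IsScalarTower (ZMod p) k B := IsScalarTower.of_algebraMap_eq fun x => rfl
  haveI : Algebra.IsIntegral (ZMod p) k :=
    ⟨fun x => (Algebra.IsAlgebraic.isAlgebraic (R := ZMod p) x).isIntegral⟩
  haveI : Algebra.IsIntegral k B := Algebra.IsIntegral.of_finite k B
  have hu : IsIntegral (ZMod p) u := isIntegral_trans (A := k) u (Algebra.IsIntegral.isIntegral u)
  have hfg := hu.fg_adjoin_singleton
  haveI : Module.Finite (ZMod p) (Algebra.adjoin (ZMod p) {u}) := Module.Finite.iff_fg.2 hfg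
  haveI : Finite (Algebra.adjoin (ZMod p) {u}) := Module.finite_of_finite (ZMod p)
  let u' : Algebra.adjoin (ZMod p) {u} := ⟨u, Algebra.self_mem_adjoin_singleton _ _⟩
  obtain ⟨a, b, hab, he⟩ := Finite.exists_ne_map_eq_of_infinite (fun n : ℕ => u' ^ n)
  have he' : u ^ a = u ^ b := congrArg Subtype.val he
  have key : ∀ a b : ℕ, a < b → u ^ a = u ^ b → ∃ N : ℕ, 1 ≤ N ∧ u ^ N = 1 := by
    intro a b hab he
    refine ⟨b - a, by omega, ?_⟩
    have h1 : u ^ b = u ^ a * u ^ (b - a) := by rw [← pow_add]; congr 1; omega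
    have h2 : w ^ a * u ^ a = 1 := by rw [← mul_pow, mul_comm w u, huw, one_pow]
    calc u ^ (b - a) = w ^ a * u ^ a * u ^ (b - a) := by rw [h2, one_mul]
      _ = w ^ a * u ^ b := by rw [mul_assoc, ← h1]
      _ = 1 := by rw [← he, h2]
  rcases lt_or_gt_of_ne hab with h | h
  · exact key a b h he'
  · exact key b a h he'.symm

end PowNear

open PowNear in
/-- units at infinity have a power near `1`. -/
theorem pow_near_one (p : ℕ) [Fact p.Prime] {k κ : Type} [Field k] [CharP k p]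
    [Algebra (ZMod p) k] [Algebra.IsAlgebraic (ZMod p) k] [Field κ] [Algebra k κ] (s h : κ)
    (hs : ∀ r : k[X], aeval s r = 0 → r = 0) (hh : h ≠ 0) (m m' : ℕ) (h1 : IntInf k s h m)
    (h2 : IntInf k s h⁻¹ m') (R : ℕ) :
    ∃ N : ℕ, 1 ≤ N ∧ ∃ (v : k[X]) (a : Fin m → k[X]), v ≠ 0 ∧
      (∀ i, (a i).natDegree ≤ v.natDegree) ∧
      aeval s v * s ^ R * (h ^ N - 1) = ∑ i, aeval s (a i) * h ^ (i : ℕ) := by
  have hpos : ∀ (g : κ) (n : ℕ), IntInf k s g n → ∃ l, n = l + 1 := by
    rintro g (_ | n) ⟨v, a, hv, -, e⟩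
    · simp only [Finset.univ_eq_empty, Finset.sum_empty, pow_zero, mul_one] at e
      exact absurd (hs v e) hv
    · exact ⟨n, rfl⟩
  obtain ⟨m, rfl⟩ := hpos _ _ h1
  obtain ⟨m', rfl⟩ := hpos _ _ h2
  haveI := finite_quot hs m h1 R
  let π := Ideal.Quotient.mk (idl hs m h1 R)
  let u : ringO hs m h1 := ⟨h, h_mem hs m h1⟩
  let w : ringO hs m h1 := ⟨h⁻¹, inv_h_mem hs m h1 hh m' h2⟩
  have huw : π u * π w = 1 := by
    rw [← map_mul]
    have : u * w = 1 := Subtype.ext (mul_inv_cancel₀ hh)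
    rw [this, map_one]
  obtain ⟨N, hN, hu⟩ := exists_pow_eq_one (k := k) p (π u) (π w) huw
  refine ⟨N, hN, ?_⟩
  have h3 : u ^ N - 1 ∈ idl hs m h1 R := by
    rw [← Ideal.Quotient.eq, map_pow, map_one]; exact hu
  have h4 : s ^ R * ((u ^ N - 1 : ringO hs m h1) : κ) ∈ ringO hs m h1 := h3
  obtain ⟨v, a, hv, ha, e⟩ := (mem_ringO hs m h1 _).1 h4
  refine ⟨v, a, hv, ha, ?_⟩
  rw [mul_assoc, ← e]
  rfl

end Pool.Agent.K1
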