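import Pool.Agent.K1.Norm

/-!
Row K1-B12: elements killed by a curve modulo its monic equation have small coordinates if their
class on the curve is small; division of a power by a monic polynomial with separable quotient.
-/

set_option autoImplicit false

open Polynomial

namespace Pool.Agent.K1

/-- Elements killed by `P` modulo `q` whose class modulo `P` is small have small
coordinates. -/
theorem small_coords_of {k A : Type} [Field k] [IsAlgClosed k] [CommRing A] [IsDomain A]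
    [Algebra k A] (E : SectionExp k A) (P : Curve1 A)
    (hnorm : ∀ g ∉ P.ideal, ∃ (g' : A) (ν : k[X]), ν.Monic ∧ g * g' - aeval E.s ν ∈ P.ideal)
    (q t₀ : A) (ht : t₀ ∉ P.ideal)
    (hcolon : ∀ x ∈ P.ideal, (∀ y ∈ P.ideal, q ∣ x * y) → q ∣ x)
    (htP : ∀ y ∈ P.ideal, q ∣ t₀ * y) (r : ℕ) (b : Fin r → A)
    (hb : ∀ f : A, ∃ c : Fin r → k[X], q ∣ f - ∑ j, aeval E.s (c j) * b j)
    (hb' : ∀ c : Fin r → k[X], q ∣ ∑ j, aeval E.s (c j) * b j → c = 0)
    (h1 : A) (v2 : k[X]) (hv2 : v2 ≠ 0) (m : ℕ) :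
    ∃ C : ℕ, ∀ (R : ℕ) (x : A) (w v : k[X]) (a : Fin m → k[X]), v ≠ 0 →
      (∀ i, (a i).natDegree ≤ v.natDegree) → (∀ y ∈ P.ideal, q ∣ x * y) →
      aeval E.s (v2 ^ m * v) * E.s ^ R * x -
        aeval E.s w * ∑ i, aeval E.s (a i * v2 ^ (m - (i : ℕ))) * h1 ^ (i : ℕ) ∈ P.ideal →
      ∃ c : Fin r → k[X], q ∣ x - ∑ j, aeval E.s (c j) * b j ∧
        ∀ j, (c j).natDegree + R ≤ w.natDegree + C ∨ c j = 0 := by
  obtain ⟨t', ν, hν, htν⟩ := hnorm t₀ ht
  choose c₀ hc₀ using hb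
  set Θ : Fin m → A := fun i => t₀ * (t' * aeval E.s (v2 ^ (m - (i : ℕ))) * h1 ^ (i : ℕ)) with hΘ
  refine ⟨∑ i : Fin m, ∑ j : Fin r, (c₀ (Θ i) j).natDegree, ?_⟩
  intro R x w v a hv ha hx hmem
  have hkey : aeval E.s (ν * (v2 ^ m * v * X ^ R)) * x -
      aeval E.s w * ∑ i, aeval E.s (a i) * Θ i ∈ P.ideal := by
    have h2 := P.ideal.mul_mem_left (aeval E.s ν) hmem
    have h3 := P.ideal.mul_mem_left
      (aeval E.s w * ∑ i, aeval E.s (a i * v2 ^ (m - (i : ℕ))) * h1 ^ (i : ℕ)) htν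
    have h4 := P.ideal.sub_mem h2 h3
    have h5 : ∑ i, aeval E.s (a i) * Θ i =
        t₀ * t' * ∑ i, aeval E.s (a i * v2 ^ (m - (i : ℕ))) * h1 ^ (i : ℕ) := by
      rw [Finset.mul_sum]
      refine Finset.sum_congr rfl fun i _ => ?_
      simp only [hΘ, map_mul]
      ring
    rw [h5]
    convert h4 using 1
    simp only [map_mul, map_pow, aeval_X]
    ring
  have hkill : ∀ y ∈ P.ideal, q ∣ (aeval E.s (ν * (v2 ^ m * v * X ^ R)) * x -
      aeval E.s w * ∑ i, aeval E.s (a i) * Θ i) * y := by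
    intro y hy
    have h1' : ∀ i, q ∣ Θ i * y := by
      intro i
      have := Dvd.dvd.mul_left (htP y hy) (t' * aeval E.s (v2 ^ (m - (i : ℕ))) * h1 ^ (i : ℕ))
      convert this using 1
      simp only [hΘ]; ring
    rw [sub_mul]
    refine dvd_sub ?_ ?_
    · rw [mul_assoc]; exact Dvd.dvd.mul_left (hx y hy) _
    · rw [mul_assoc, Finset.sum_mul]
      refine Dvd.dvd.mul_left (Finset.dvd_sum fun i _ => ?_) _
      rw [mul_assoc]; exact Dvd.dvd.mul_left (h1' i) _
  have hdvd := hcolon _ hkey hkill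
  refine ⟨c₀ x, hc₀ x, ?_⟩
  have hzero : (fun j => ν * (v2 ^ m * v * X ^ R) * c₀ x j -
      w * ∑ i, a i * c₀ (Θ i) j) = 0 := by
    apply hb'
    have e1 : q ∣ aeval E.s (ν * (v2 ^ m * v * X ^ R)) * (x - ∑ j, aeval E.s (c₀ x j) * b j) :=
      Dvd.dvd.mul_left (hc₀ x) _
    have e2 : q ∣ aeval E.s w * ∑ i, aeval E.s (a i) *
        (Θ i - ∑ j, aeval E.s (c₀ (Θ i) j) * b j) :=
      Dvd.dvd.mul_left (Finset.dvd_sum fun i _ => Dvd.dvd.mul_left (hc₀ (Θ i)) _) _
    have e3 := dvd_add (dvd_sub hdvd e1) e2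
    convert e3 using 1
    have e4 : ∑ i, aeval E.s (a i) * (Θ i - ∑ j, aeval E.s (c₀ (Θ i) j) * b j) =
        ∑ i, aeval E.s (a i) * Θ i -
          ∑ j, (∑ i, aeval E.s (a i) * aeval E.s (c₀ (Θ i) j)) * b j := by
      simp only [mul_sub, Finset.sum_sub_distrib]
      congr 1
      simp only [Finset.mul_sum, Finset.sum_mul]
      rw [Finset.sum_comm]
      refine Finset.sum_congr rfl fun j _ => Finset.sum_congr rfl fun i _ => ?_
      ring
    rw [e4]
    simp only [map_sub, map_mul, map_sum, sub_mul, Finset.sum_sub_distrib, mul_sub]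
    have e5 : ∀ (z : A) (f : Fin r → A), ∑ j, z * f j * b j = z * ∑ j, f j * b j := by
      intro z f
      rw [Finset.mul_sum]
      exact Finset.sum_congr rfl fun j _ => by ring
    rw [e5, e5]
    ring
  intro j
  by_cases hcj : c₀ x j = 0
  · exact Or.inr hcj
  left
  have hj := congr_fun hzero j
  simp only [Pi.zero_apply] at hj
  rw [sub_eq_zero] at hj
  have hne : v2 ^ m ≠ 0 := pow_ne_zero _ hv2
  have hX : (X ^ R : k[X]) ≠ 0 := pow_ne_zero _ X_ne_zero
  have hl : (ν * (v2 ^ m * v * X ^ R) * c₀ x j).natDegree =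
      ν.natDegree + ((v2 ^ m).natDegree + v.natDegree + R) + (c₀ x j).natDegree := by
    rw [natDegree_mul (mul_ne_zero hν.ne_zero (mul_ne_zero (mul_ne_zero hne hv) hX)) hcj,
      natDegree_mul hν.ne_zero (mul_ne_zero (mul_ne_zero hne hv) hX),
      natDegree_mul (mul_ne_zero hne hv) hX, natDegree_mul hne hv, natDegree_X_pow]
  have hr1 : (∑ i, a i * c₀ (Θ i) j).natDegree ≤
      v.natDegree + ∑ i : Fin m, ∑ j : Fin r, (c₀ (Θ i) j).natDegree := by
    refine natDegree_sum_le_of_forall_le _ _ fun i _ => ?_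
    refine natDegree_mul_le.trans (add_le_add (ha i) ?_)
    refine le_trans ?_ (Finset.single_le_sum (f := fun i => ∑ j : Fin r, (c₀ (Θ i) j).natDegree)
      (fun _ _ => Nat.zero_le _) (Finset.mem_univ i))
    exact Finset.single_le_sum (f := fun j => (c₀ (Θ i) j).natDegree)
      (fun _ _ => Nat.zero_le _) (Finset.mem_univ j)
  have hr2 : (w * ∑ i, a i * c₀ (Θ i) j).natDegree ≤
      w.natDegree + (v.natDegree + ∑ i : Fin m, ∑ j : Fin r, (c₀ (Θ i) j).natDegree) :=
    natDegree_mul_le.trans (by omega)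
  rw [← hj, hl] at hr2
  omega

/-- Elements killed by `P` modulo `q` whose class modulo `P` is small have small
coordinates. -/
theorem small_coords {k A : Type} [Field k] [IsAlgClosed k] [CommRing A] [IsDomain A]
    [Algebra k A] (E : SectionExp k A) (P : Curve1 A)
    (hP : Horiz E P) (d : ℕ) (q t₀ : A) (hq : E.MonicAt d q) (ht : t₀ ∉ P.ideal)
    (htP : ∀ y ∈ P.ideal, q ∣ t₀ * y) (r : ℕ) (b : Fin r → A)
    (hb : ∀ f : A, ∃ c : Fin r → k[X], q ∣ f - ∑ j, aeval E.s (c j) * b j)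
    (hb' : ∀ c : Fin r → k[X], q ∣ ∑ j, aeval E.s (c j) * b j → c = 0)
    (h1 : A) (v2 : k[X]) (hv2 : v2 ≠ 0) (m : ℕ) :
    ∃ C : ℕ, ∀ (R : ℕ) (x : A) (w v : k[X]) (a : Fin m → k[X]), v ≠ 0 →
      (∀ i, (a i).natDegree ≤ v.natDegree) → (∀ y ∈ P.ideal, q ∣ x * y) →
      aeval E.s (v2 ^ m * v) * E.s ^ R * x -
        aeval E.s w * ∑ i, aeval E.s (a i * v2 ^ (m - (i : ℕ))) * h1 ^ (i : ℕ) ∈ P.ideal →
      ∃ c : Fin r → k[X], q ∣ x - ∑ j, aeval E.s (c j) * b j ∧
        ∀ j, (c j).natDegree + R ≤ w.natDegree + C ∨ c j = 0 :=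
  small_coords_of E P (exists_norm E P hP).2 q t₀ ht
    (fun x hx hx' => mem_of_colon E P hP d q t₀ hq ht htP x hx hx') htP r b hb hb' h1 v2 hv2 m

/-- `s^M` is a multiple of `ν` up to small terms; the quotient can be taken separable. -/
theorem exists_sep_quot {k : Type} [Field k] [IsAlgClosed k] (ν : k[X]) (hν : ν.Monic) (R : ℕ) :
    ∃ M₀ : ℕ, ∀ M : ℕ, M₀ ≤ M → ∃ w : k[X], w.Separable ∧ (ν * w).natDegree = M ∧
      (X ^ M - ν * w).natDegree + R ≤ M := by
  refine ⟨ν.natDegree + 2 + R, fun M hM => ?_⟩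
  set Q₀ : k[X] := X ^ M /ₘ ν with hQ₀
  set r₀ : k[X] := X ^ M %ₘ ν with hr₀
  have hdiv : r₀ + ν * Q₀ = X ^ M := Polynomial.modByMonic_add_div _ _
  have hQdeg : Q₀.natDegree = M - ν.natDegree := by
    rw [hQ₀, Polynomial.natDegree_divByMonic _ hν, natDegree_X_pow]
  have hrdeg : r₀.natDegree ≤ ν.natDegree := Polynomial.natDegree_modByMonic_le _ hν
  obtain ⟨g, hg1, hg2⟩ : ∃ g : k[X], g.natDegree ≤ 1 ∧ derivative (Q₀ + g) ≠ 0 := by
    by_cases h : derivative Q₀ = 0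
    · refine ⟨X, by simp, ?_⟩
      rw [derivative_add, h]; simp
    · exact ⟨0, by simp, by simpa using h⟩
  classical
  have : Infinite k := IsAlgClosed.instInfinite
  obtain ⟨c, hc⟩ := Infinite.exists_notMem_finset
    ((derivative (Q₀ + g)).roots.toFinset.image (fun α => - (Q₀ + g).eval α))
  have hg' : (g + C c).natDegree ≤ 1 := by
    refine (natDegree_add_le _ _).trans (max_le hg1 (by simp))
  refine ⟨Q₀ + (g + C c), ?_, ?_, ?_⟩
  · refine (Polynomial.isCoprime_iff_aeval_ne_zero_of_isAlgClosed k k _ _).2 ?_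
    intro α
    by_contra hcon
    push Not at hcon
    obtain ⟨h1, h2⟩ := hcon
    apply hc
    have h3 : derivative (Q₀ + (g + C c)) = derivative (Q₀ + g) := by
      simp [derivative_add]
    rw [h3] at h2
    rw [Finset.mem_image]
    refine ⟨α, ?_, ?_⟩
    · rw [Multiset.mem_toFinset, mem_roots hg2]
      simpa [IsRoot, aeval_def] using h2
    · simp only [coe_aeval_eq_eval, eval_add, eval_C] at h1 ⊢
      linear_combination -h1
  · have hw : (Q₀ + (g + C c)).natDegree = M - ν.natDegree := by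
      rw [natDegree_add_eq_left_of_natDegree_lt (by omega), hQdeg]
    have hw0 : Q₀ + (g + C c) ≠ 0 := by
      intro h0
      rw [h0] at hw
      simp at hw
      omega
    rw [natDegree_mul hν.ne_zero hw0, hw]
    omega
  · have h1 : X ^ M - ν * (Q₀ + (g + C c)) = r₀ - ν * (g + C c) := by
      rw [← hdiv]; ring
    rw [h1]
    have h2 : (r₀ - ν * (g + C c)).natDegree ≤ ν.natDegree + 1 := by
      refine (natDegree_sub_le _ _).trans (max_le (by omega) ?_)
      exact (natDegree_mul_le).trans (by omega)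
    omega

end Pool.Agent.K1
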