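import Pool.Agent.K1.DefsMov
import Pool.Agent.K1.Wlt

/-!
K1-B7: weights (nonzero multiples of `q` are large, fixed elements are bounded, the curve
`s^M + U n`, the moved curve).
-/

set_option autoImplicit false

open Polynomial

namespace Pool.Agent.K1

open SectionExp

/-- nonzero multiples of `q` are not small -/
theorem eq_zero_of_dvd_wlt {k A : Type} [Field k] [CommRing A] [IsDomain A] [Algebra k A]
    (E : SectionExp k A) : ∃ μ : ℕ, ∀ n M : ℕ, 1 ≤ n → μ * n ≤ M →
      ∀ q f : A, E.InV n M q → E.WLt n M ((n * M : ℕ) : ℤ) f → q ∣ f → f = 0 := by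
  obtain ⟨κ, hκ⟩ := exists_grows E
  refine ⟨κ + 1, ?_⟩
  intro n M hn hM q f hq hf hdvd
  have hM' : n * κ < M := by nlinarith
  obtain ⟨g, rfl⟩ := hdvd
  by_contra hne
  have hg : g ≠ 0 := right_ne_zero_of_mul hne
  obtain ⟨w, l, m, hat⟩ := exists_at hκ hM' hg (Or.inl rfl)
  have hw : 0 ≤ w := by
    by_contra hlt
    push Not at hlt
    have hpos : ∀ (l' : ℤ) (m' : ℕ), E.c g l' m' ≠ 0 → 0 < l' := by
      intro l' m' hc
      have h1 := hat.2.2.1 l' m' hc
      have h2 : (0 : ℤ) ≤ (n : ℤ) * m' := by positivity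
      have h3 : (0 : ℤ) < (M : ℤ) * l' := by linarith
      by_contra h4
      push Not at h4
      have h5 : (M : ℤ) * l' ≤ 0 :=
        mul_nonpos_of_nonneg_of_nonpos (Int.natCast_nonneg M) h4
      linarith
    have hz : ∀ l' : ℤ, l' ≤ 0 → E.co g l' = 0 := by
      intro l' hl'
      by_contra h0
      have h1 := hpos l' _ (leadingCoeff_ne_zero.2 h0)
      linarith
    obtain ⟨P, hP⟩ := E.pole g (fun i hi => hz i hi.le)
    have h0 : P = 0 := by
      have h1 := E.co_aeval P 0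
      rw [← hP, if_pos rfl, hz 0 le_rfl] at h1
      exact h1.symm
    rw [h0, map_zero] at hP
    exact hg hP
  have h1 := (hq.at hn).1.mul hn (Or.inl rfl) hat
  have h2 := wlt_iff.1 hf _ _ h1.1
  have h3 := h1.2.1
  push_cast at h2 h3
  linarith

/-- fixed elements have bounded weight, uniformly in `n`, `M` (the slope does not depend on the
finite set) -/
theorem wlt_fixed {k A : Type} [Field k] [CommRing A] [IsDomain A] [Algebra k A]
    (E : SectionExp k A) : ∃ μ : ℕ, ∀ G : Finset A, ∃ e₀ P : ℕ, ∀ n M : ℕ, 1 ≤ n → μ * n ≤ M →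
    ∀ g ∈ Submodule.span k (G : Set A), E.WLt n M ((n * e₀ + M * P : ℕ) : ℤ) g := by
  obtain ⟨κ, hκ⟩ := exists_grows E
  choose e he using hκ
  choose d hd using exists_pole_bound E
  refine ⟨κ + 1, fun G => ⟨G.sup e, G.sup d + 1, ?_⟩⟩
  intro n M hn hM g hg
  induction hg using Submodule.span_induction with
  | mem g hg =>
    intro l hl
    have hg' : g ∈ G := hg
    have h1 : -(d g : ℤ) ≤ l := by
      by_contra h
      exact hl (hd g l (by omega))
    have h2 : (d g : ℤ) ≤ G.sup d := by exact_mod_cast Finset.le_sup (f := d) hg'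
    have h3 : (e g : ℤ) ≤ G.sup e := by exact_mod_cast Finset.le_sup (f := e) hg'
    have h4 : ((E.co g l).natDegree : ℤ) ≤ e g + κ * (l.toNat : ℤ) := by
      exact_mod_cast he g l
    have h5 : ((κ : ℤ) + 1) * n ≤ M := by exact_mod_cast hM
    have hn' : (1 : ℤ) ≤ n := by exact_mod_cast hn
    have h6 : (n : ℤ) * ((E.co g l).natDegree : ℤ) ≤ n * (G.sup e + κ * (l.toNat : ℤ)) :=
      mul_le_mul_of_nonneg_left (by linarith) (by linarith)
    have h7 : (l.toNat : ℤ) + 1 ≤ G.sup d + 1 + l ∨ l.toNat = 0 := by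
      rcases le_or_gt 0 l with h | h
      · left
        rw [Int.toNat_of_nonneg h]
        have : (0 : ℤ) ≤ G.sup d := Int.natCast_nonneg _
        linarith
      · right
        exact Int.toNat_eq_zero.2 h.le
    have h8 : (1 : ℤ) ≤ G.sup d + 1 + l := by linarith
    have hκ0 : (0 : ℤ) ≤ κ := Int.natCast_nonneg _
    have h9 : ((κ : ℤ) + 1) * n * (G.sup d + 1 + l) ≤ M * (G.sup d + 1 + l) :=
      mul_le_mul_of_nonneg_right h5 (by linarith)
    have h10 : (n : ℤ) * (κ * (l.toNat : ℤ)) < ((κ : ℤ) + 1) * n * (G.sup d + 1 + l) := by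
      rcases h7 with h7 | h7
      · have h11 : (n : ℤ) * κ * ((l.toNat : ℤ) + 1) ≤ n * κ * (G.sup d + 1 + l) :=
          mul_le_mul_of_nonneg_left h7 (mul_nonneg (by linarith) hκ0)
        have h12 : (0 : ℤ) ≤ n * κ := mul_nonneg (by linarith) hκ0
        nlinarith
      · rw [h7]
        have : (0 : ℤ) < ((κ : ℤ) + 1) * n * (G.sup d + 1 + l) := by positivity
        simpa using this
    push_cast
    linarith
  | zero => exact wlt_zero E
  | add x y _ _ hx hy => exact wlt_add E hx hy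
  | smul b x _ hx => exact wlt_smul E b hx

theorem inV_star {k A : Type} [Field k] [CommRing A] [IsDomain A] [Algebra k A]
    (E : SectionExp k A) (κ j₀ : ℕ) (U : ℕ → A) (hU : UFam E κ j₀ U) (n M : ℕ) (hn : 1 ≤ n)
    (hj : j₀ ≤ n) (hM : κ * n < M) : E.InV n M (E.s ^ M + U n) := by
  obtain ⟨h1, h2, h3⟩ := hU n hj
  have h4 : E.s ^ M + U n - aeval E.s (X ^ M : k[X]) = U n := by
    rw [map_pow, aeval_X]
    ring
  refine ⟨X ^ M, monic_X_pow M, natDegree_X_pow M, ?_⟩
  rw [h4]
  refine ⟨?_, ?_, ?_⟩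
  · rw [h1]
    exact monic_one
  · rw [h1]
    exact natDegree_one
  · intro l hl hne
    have h5 : -(n : ℤ) ≤ l := by
      by_contra h
      exact hne (h2 l (by omega))
    have h6 : (1 : ℤ) ≤ n + l := by omega
    have h7 := h3 l h5
    have hn' : (1 : ℤ) ≤ n := by exact_mod_cast hn
    have hM' : (κ : ℤ) * n < M := by exact_mod_cast hM
    have h8 : (n : ℤ) * ((E.co (U n) l).natDegree : ℤ) ≤ n * (κ * (n + l)) :=
      mul_le_mul_of_nonneg_left h7 (by linarith)
    have h9 : (κ : ℤ) * n * (n + l) < M * (n + l) :=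
      mul_lt_mul_of_pos_right hM' (by linarith)
    push_cast
    linarith

theorem Unif.mono {k A : Type} [Field k] [CommRing A] [Algebra k A] {E : SectionExp k A}
    {μ μ' a : ℕ} {u : A} (h : μ ≤ μ') (hu : Unif E μ a u) : Unif E μ' a u := by
  refine ⟨hu.1, fun l m hc => ⟨(hu.2 l m hc).1, ?_⟩⟩
  have h1 := hu.2 l m hc
  have h2 : (μ : ℤ) ≤ μ' := by exact_mod_cast h
  have h3 : (μ : ℤ) * (a + l) ≤ μ' * (a + l) := mul_le_mul_of_nonneg_right h2 (by linarith [h1.1])
  linarith [h1.2]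

theorem UFam.unif {k A : Type} [Field k] [CommRing A] [Algebra k A] {E : SectionExp k A}
    {κ j₀ : ℕ} {U : ℕ → A} (hU : UFam E κ j₀ U) {a : ℕ} (ha : j₀ ≤ a) : Unif E κ a (U a) := by
  obtain ⟨h1, h2, h3⟩ := hU a ha
  constructor
  · unfold c
    rw [h1, coeff_one_zero]
  · intro l m hc
    have h4 : -(a : ℤ) ≤ l := by
      by_contra h
      apply hc
      unfold c
      rw [h2 l (by omega), coeff_zero]
    refine ⟨h4, ?_⟩
    have h5 : (m : ℤ) ≤ (E.co (U a) l).natDegree := by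
      exact_mod_cast le_natDegree_of_ne_zero hc
    exact h5.trans (h3 l h4)

theorem exists_unif_monicAt {k A : Type} [Field k] [CommRing A] [Algebra k A]
    (E : SectionExp k A) {d : ℕ} {q : A} (hq : E.MonicAt d q) : ∃ μ : ℕ, Unif E μ d q := by
  obtain ⟨κ, hκ⟩ := exists_grows E
  obtain ⟨e, he⟩ := hκ q
  refine ⟨e + κ, ?_, ?_⟩
  · unfold c
    rw [hq.1, coeff_one_zero]
  · intro l m hc
    have h4 : -(d : ℤ) ≤ l := by
      by_contra h
      apply hc
      unfold c
      rw [hq.2 l (by omega), coeff_zero]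
    refine ⟨h4, ?_⟩
    rcases eq_or_ne l (-(d : ℤ)) with rfl | h6
    · have h7 : m = 0 := by
        by_contra h
        apply hc
        unfold c
        rw [hq.1, coeff_one, if_neg h]
      rw [h7, add_neg_cancel, mul_zero]
      simp
    · have h7 : (1 : ℤ) ≤ d + l := by omega
      have h8 : m ≤ e + κ * l.toNat := (le_natDegree_of_ne_zero hc).trans (he l)
      have h10 : (l.toNat : ℤ) ≤ d + l := by
        rcases le_or_gt 0 l with h | h
        · rw [Int.toNat_of_nonneg h]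
          have : (0 : ℤ) ≤ d := Int.natCast_nonneg _
          linarith
        · rw [Int.toNat_eq_zero.2 h.le]
          simp only [Nat.cast_zero]
          linarith
      have h11 : (m : ℤ) ≤ e + κ * (l.toNat : ℤ) := by exact_mod_cast h8
      have h13 : (κ : ℤ) * (l.toNat : ℤ) ≤ κ * (d + l) :=
        mul_le_mul_of_nonneg_left h10 (Int.natCast_nonneg _)
      have h14 : (e : ℤ) ≤ e * (d + l) := le_mul_of_one_le_right (Int.natCast_nonneg _) h7
      push_cast
      linarith

/-- `b = r(s) + q t` is near `s^M + U_n` when `r = s^M +` lower, `t = U_(n-d)`. -/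
theorem wlt_moved {k A : Type} [Field k] [CommRing A] [IsDomain A] [Algebra k A]
    (E : SectionExp k A) (κ j₀ : ℕ) (U : ℕ → A) (hU : UFam E κ j₀ U) (c₀ d : ℕ) (q : A)
    (hq : E.MonicAt d q) : ∃ μ : ℕ, ∀ n M : ℕ, j₀ + d + 1 ≤ n → μ * n ≤ M →
      E.WLt n M (((n * M : ℕ) : ℤ) - ((c₀ * n : ℕ) : ℤ)) (q * U (n - d) - U n) := by
  obtain ⟨kq, hkq⟩ := exists_unif_monicAt E hq
  set k₂ := max kq κ with hk₂
  refine ⟨k₂ + c₀ + 1, ?_⟩
  intro n M hn hM
  have h1 : Unif E k₂ d q := hkq.mono (le_max_left _ _)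
  have h2 : Unif E k₂ (n - d) (U (n - d)) := (hU.unif (by omega)).mono (le_max_right _ _)
  have h3 : Unif E k₂ n (U n) := (hU.unif (by omega)).mono (le_max_right _ _)
  have h4 : Unif E k₂ n (q * U (n - d)) := by
    have := h1.mul h2
    rwa [show d + (n - d) = n by omega] at this
  have hz : E.co (q * U (n - d) - U n) (-(n : ℤ)) = 0 := by
    rw [co_sub, h4.props.1, h3.props.1, sub_self]
  rw [wlt_iff]
  intro l m hc
  have hl : l ≠ -(n : ℤ) := by
    rintro rfl
    apply hc
    unfold c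
    rw [hz, coeff_zero]
  have hlm : -(n : ℤ) ≤ l ∧ (m : ℤ) ≤ k₂ * (n + l) := by
    have h5 : E.c (q * U (n - d)) l m ≠ 0 ∨ E.c (U n) l m ≠ 0 := by
      by_contra h
      push Not at h
      apply hc
      have h6 : E.c (q * U (n - d) - U n) l m = E.c (q * U (n - d)) l m - E.c (U n) l m := by
        unfold c
        rw [co_sub, coeff_sub]
      rw [h6, h.1, h.2, sub_zero]
    rcases h5 with h5 | h5
    · exact h4.2 l m h5
    · exact h3.2 l m h5
  have h6 : (1 : ℤ) ≤ n + l := by omega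
  have hn' : (1 : ℤ) ≤ n := by omega
  have hM' : ((k₂ : ℤ) + c₀ + 1) * n ≤ M := by exact_mod_cast hM
  have h7 : (n : ℤ) * m ≤ n * (k₂ * (n + l)) :=
    mul_le_mul_of_nonneg_left hlm.2 (by linarith)
  have h8 : ((k₂ : ℤ) + c₀ + 1) * n * (n + l) ≤ M * (n + l) :=
    mul_le_mul_of_nonneg_right hM' (by linarith)
  have h9 : (c₀ : ℤ) * n ≤ c₀ * n * (n + l) :=
    le_mul_of_one_le_right (by positivity) h6
  have h10 : (0 : ℤ) < n * (n + l) := by positivity
  push_cast
  nlinarith

end Pool.Agent.K1
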