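import Pool.Agent.K1.DefsMov
import Pool.Agent.K1.Wlt
import Pool.Agent.K1.Wlt2
import Pool.Agent.K1.MonicMem
import Pool.Agent.K1.Norm
import Pool.Agent.K1.BasisQuot
import Pool.Agent.K1.SmallCoords
import Pool.Agent.K1.PowNear

/-!
K1-B13: the moving lemma (assembly).
-/

set_option autoImplicit false

open Polynomial

namespace Pool.Agent.K1

namespace Mov

variable {k A : Type} [Field k] [CommRing A] [Algebra k A]

/-- restriction to a curve, as a homomorphism of algebras -/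
noncomputable def resA (k : Type) {A : Type} [Field k] [CommRing A] [Algebra k A]
    (P : Curve1 A) : A →ₐ[k] kap P :=
  (IsScalarTower.toAlgHom k (A ⧸ P.ideal) (kap P)).comp (Ideal.Quotient.mkₐ k P.ideal)

theorem resA_apply (P : Curve1 A) (a : A) : resA k P a = res P a := rfl

theorem res_aeval (P : Curve1 A) (s : A) (v : k[X]) :
    res P (aeval s v) = aeval (res P s) v := by
  rw [← resA_apply (k := k), ← resA_apply (k := k), ← Polynomial.aeval_algHom_apply]

theorem res_sub (P : Curve1 A) (a b : A) : res P (a - b) = res P a - res P b := by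
  simp [res]

theorem res_sum (P : Curve1 A) {ι : Type} (T : Finset ι) (f : ι → A) :
    res P (∑ i ∈ T, f i) = ∑ i ∈ T, res P (f i) := by
  simp [res]

theorem res_ne (P : Curve1 A) {a : A} (ha : a ∉ P.ideal) : res P a ≠ 0 :=
  fun h => ha ((res_eq_zero P a).1 h)

theorem wlt_sum' (E : SectionExp k A) {n M : ℕ} {w : ℤ} {ι : Type} (T : Finset ι) (f : ι → A)
    (h : ∀ i ∈ T, E.WLt n M w (f i)) : E.WLt n M w (∑ i ∈ T, f i) := by
  classical
  induction T using Finset.induction_on with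
  | empty =>
    intro i hi
    simp at hi
  | insert j T hj ih =>
    rw [Finset.sum_insert hj]
    exact wlt_add E (h j (Finset.mem_insert_self _ _))
      (ih (fun i hi => h i (Finset.mem_insert_of_mem hi)))

/-- every rational function on a horizontal curve is a fraction with denominator a polynomial in
the base coordinate -/
theorem exists_frac [IsDomain A] (E : SectionExp k A) (P : Curve1 A)
    (hnorm : ∀ g ∉ P.ideal, ∃ (g' : A) (ν : k[X]), ν.Monic ∧ g * g' - aeval E.s ν ∈ P.ideal)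
    (h : kap P) : ∃ (h1 : A) (v2 : k[X]), v2 ≠ 0 ∧ h * res P (aeval E.s v2) = res P h1 := by
  obtain ⟨x, y, hy, hxy⟩ := IsFractionRing.div_surjective (A := A ⧸ P.ideal) h
  obtain ⟨x, rfl⟩ := Ideal.Quotient.mk_surjective x
  obtain ⟨y, rfl⟩ := Ideal.Quotient.mk_surjective y
  have hyP : y ∉ P.ideal := by
    intro h0
    have h1 := nonZeroDivisors.ne_zero hy
    exact h1 (Ideal.Quotient.eq_zero_iff_mem.2 h0)
  obtain ⟨y', ν, hν, hyy⟩ := hnorm y hyP
  refine ⟨x * y', ν, hν.ne_zero, ?_⟩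
  have h1 : res P (y * y') = res P (aeval E.s ν) := (res_eq_iff P _ _).2 hyy
  have h2 : res P x = h * res P y := by
    have h3 : res P y ≠ 0 := res_ne P hyP
    rw [← hxy]
    change res P x = res P x / res P y * res P y
    rw [div_mul_cancel₀ _ h3]
  rw [← h1, res_mul, res_mul, h2]
  ring

end Mov

open Mov

theorem moving (p : ℕ) [Fact p.Prime] {k A : Type} [Field k] [IsAlgClosed k] [CharP k p]
    [Algebra (ZMod p) k] [Algebra.IsAlgebraic (ZMod p) k] [CommRing A] [IsDomain A]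
    [Algebra k A] [IsRegularRing A] (E : SectionExp k A) (c₀ κ j₀ : ℕ) (U : ℕ → A)
    (hU : UFam E κ j₀ U) (P : Curve1 A) (hP : Horiz E P) (h : (kap P)ˣ) (m m' : ℕ)
    (hm : IntInf k (res P E.s) (h : kap P) m)
    (hm' : IntInf k (res P E.s) (h : kap P)⁻¹ m') :
    ∃ q t₀ : A, q ≠ 0 ∧ q ∈ P.ideal ∧ t₀ ∉ P.ideal ∧ (∀ y ∈ P.ideal, q ∣ t₀ * y) ∧
      ∃ μ₁ : ℕ, ∀ μ₂ : ℕ, ∃ N L n₀ : ℕ, 1 ≤ N ∧ ∀ n M : ℕ, n₀ ≤ n → μ₁ * n ≤ M →
        M ≤ μ₂ * n → ∃ a b : A,
          E.WLt n M (((n * M : ℕ) : ℤ) - ((c₀ * n : ℕ) : ℤ)) (a - (E.s ^ M + U n)) ∧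
          E.WLt n M (((n * M : ℕ) : ℤ) - ((c₀ * n : ℕ) : ℤ)) (b - (E.s ^ M + U n)) ∧
          (∀ y ∈ P.ideal, q ∣ (a - b) * y) ∧ res P a = (h : kap P) ^ N * res P b ∧
          (∀ x : A →ₐ[k] k, lenAt x b q ≤ L) ∧ ¬ a ∣ q ∧ ¬ b ∣ q := by
  classical
  obtain ⟨d, q, t₀, hd, hq, hqP, ht₀, ht₀P⟩ := exists_monic_mem E P hP
  have hq0 : q ≠ 0 := by
    rintro rfl
    have h1 := hq.1
    simp [SectionExp.co] at h1
  obtain ⟨r, b, hb, hb'⟩ := exists_basis_quot E d hd q hq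
  obtain ⟨hinj, hnorm⟩ := exists_norm E P hP
  obtain ⟨h1, v2, hv2, hh⟩ := exists_frac E P hnorm (h : kap P)
  have hv2P : aeval E.s v2 ∉ P.ideal := fun h0 => hv2 (hinj v2 h0)
  obtain ⟨C, hC⟩ := small_coords E P hP d q t₀ hq ht₀ ht₀P r b hb hb' h1 v2 hv2 m
  obtain ⟨μf, hμf⟩ := wlt_fixed E
  obtain ⟨e₀, P₀, hfix⟩ := hμf (insert q (Finset.univ.image b))
  obtain ⟨μm, hmov⟩ := wlt_moved E κ j₀ U hU c₀ d q hq
  obtain ⟨μd, hdvd⟩ := eq_zero_of_dvd_wlt E
  refine ⟨q, t₀, hq0, hqP, ht₀, ht₀P, κ + μf + μm + μd + 1, ?_⟩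
  intro μ₂
  set R : ℕ := C + e₀ + c₀ + μ₂ * P₀ + 1 with hR
  have hs : ∀ r : k[X], aeval (res P E.s) r = 0 → r = 0 := by
    intro r hr
    apply hinj
    rw [← res_eq_zero, res_aeval]
    exact hr
  obtain ⟨N, hN, v, a, hv, hav, hvh⟩ := pow_near_one p (res P E.s) (h : kap P) hs h.ne_zero m m'
    hm hm' R
  set g : A := aeval E.s v2 ^ N * t₀ with hg
  have hgP : g ∉ P.ideal := by
    intro h0
    rcases P.isPrime.mem_or_mem h0 with h2 | h2
    · exact hv2P (P.isPrime.mem_of_pow_mem _ h2)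
    · exact ht₀ h2
  obtain ⟨gs, ν, hν, hgs⟩ := hnorm g hgP
  obtain ⟨M₀, hM₀⟩ := exists_sep_quot ν hν R
  refine ⟨N, r * (ν.natDegree + 1), j₀ + d + M₀ + 2 * P₀ + 2 * e₀ + 2, hN, ?_⟩
  intro n M hn hμM hMμ
  have hn1 : 1 ≤ n := by omega
  have hnM : n ≤ M := by
    calc n = 1 * n := (one_mul n).symm
      _ ≤ (κ + μf + μm + μd + 1) * n := Nat.mul_le_mul_right _ (by omega)
      _ ≤ M := hμM
  have hμfM : μf * n ≤ M := (Nat.mul_le_mul_right _ (by omega)).trans hμM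
  have hμmM : μm * n ≤ M := (Nat.mul_le_mul_right _ (by omega)).trans hμM
  have hμdM : μd * n ≤ M := (Nat.mul_le_mul_right _ (by omega)).trans hμM
  have hκM : κ * n < M := by
    have h2 : (κ + 1) * n ≤ M := (Nat.mul_le_mul_right _ (by omega)).trans hμM
    rw [add_mul, one_mul] at h2
    omega
  obtain ⟨w, hw, hwdeg, hwR⟩ := hM₀ M (by omega)
  -- the elements
  set b₁ : A := aeval E.s (ν * w) + q * U (n - d) with hb₁
  set x : A := (h1 ^ N - aeval E.s v2 ^ N) * t₀ * gs * aeval E.s w with hx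
  have hxP : ∀ y ∈ P.ideal, q ∣ x * y := by
    intro y hy
    obtain ⟨z, hz⟩ := ht₀P y hy
    refine ⟨(h1 ^ N - aeval E.s v2 ^ N) * gs * aeval E.s w * z, ?_⟩
    calc x * y = (h1 ^ N - aeval E.s v2 ^ N) * gs * aeval E.s w * (t₀ * y) := by rw [hx]; ring
      _ = _ := by rw [hz]; ring
  have hresx : res P x = ((h : kap P) ^ N - 1) * res P (aeval E.s (ν * w)) := by
    have h2 : res P (g * gs) = res P (aeval E.s ν) := (res_eq_iff P _ _).2 hgs
    have h3 : res P h1 ^ N = (h : kap P) ^ N * res P (aeval E.s v2) ^ N := by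
      rw [← hh, mul_pow]
    rw [hx, map_mul, res_mul, res_mul, res_mul, res_sub, res_pow, res_pow, h3, res_mul, ← h2,
      res_mul, hg, res_mul, res_pow]
    ring
  have hkey : aeval E.s (v2 ^ m * v) * E.s ^ R * x -
      aeval E.s (ν * w) * ∑ i : Fin m, aeval E.s (a i * v2 ^ (m - (i : ℕ))) * h1 ^ (i : ℕ) ∈
        P.ideal := by
    rw [← res_eq_zero, res_sub, sub_eq_zero, res_mul, res_mul, hresx, res_mul, res_sum]
    have h2 : ∀ i : Fin m, res P (aeval E.s (a i * v2 ^ (m - (i : ℕ))) * h1 ^ (i : ℕ)) =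
        res P (aeval E.s v2) ^ m * (aeval (res P E.s) (a i) * (h : kap P) ^ (i : ℕ)) := by
      intro i
      rw [res_mul, map_mul, map_pow, res_mul, res_pow, res_pow, ← hh, mul_pow, res_aeval P E.s (a i)]
      have h4 : res P (aeval E.s v2) ^ m =
          res P (aeval E.s v2) ^ (m - (i : ℕ)) * res P (aeval E.s v2) ^ (i : ℕ) := by
        rw [← pow_add]
        congr 1
        have := i.2
        omega
      rw [h4]
      ring
    rw [Finset.sum_congr rfl (fun i _ => h2 i), ← Finset.mul_sum, ← hvh, map_mul, map_pow,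
      res_mul, res_pow, res_pow, res_aeval P E.s v]
    ring
  obtain ⟨c, hcx, hc⟩ := hC R x (ν * w) v a hv hav hxP hkey
  set E' : A := ∑ j, aeval E.s (c j) * b j with hE'
  -- weights
  have hfixb : ∀ j, E.WLt n M ((n * e₀ + M * P₀ : ℕ) : ℤ) (b j) := by
    intro j
    apply hfix n M hn1 hμfM
    apply Submodule.subset_span
    simp
  have hfixq : E.WLt n M ((n * e₀ + M * P₀ : ℕ) : ℤ) q := by
    apply hfix n M hn1 hμfM
    apply Submodule.subset_span
    simp
  have hMP : (M : ℤ) * P₀ ≤ n * (μ₂ * P₀) := by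
    have : M * P₀ ≤ n * (μ₂ * P₀) := by
      calc M * P₀ ≤ (μ₂ * n) * P₀ := Nat.mul_le_mul_right _ hMμ
        _ = n * (μ₂ * P₀) := by ring
    exact_mod_cast this
  have hWE : E.WLt n M (((n * M : ℕ) : ℤ) - ((c₀ * n : ℕ) : ℤ)) E' := by
    rw [hE']
    apply wlt_sum'
    intro j _ i hi
    rw [SectionExp.co_aeval_mul] at hi ⊢
    have hcj : c j ≠ 0 := left_ne_zero_of_mul hi
    have hbj : E.co (b j) i ≠ 0 := right_ne_zero_of_mul hi
    rw [natDegree_mul hcj hbj]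
    have h2 := hfixb j i hbj
    have h3 : (c j).natDegree + R ≤ M + C := by
      rcases hc j with h4 | h4
      · rwa [hwdeg] at h4
      · exact absurd h4 hcj
    have h5 : (n : ℤ) * ((c j).natDegree + R) ≤ n * (M + C) :=
      mul_le_mul_of_nonneg_left (by exact_mod_cast h3) (by positivity)
    have hn0 : (0 : ℤ) < n := by exact_mod_cast hn1
    push_cast at h2 ⊢
    have hRc : (R : ℤ) = C + e₀ + c₀ + μ₂ * P₀ + 1 := by rw [hR]; push_cast; ring
    rw [hRc] at h5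
    nlinarith [h2, h5, hMP, hn0]
  have hW1 : E.WLt n M (((n * M : ℕ) : ℤ) - ((c₀ * n : ℕ) : ℤ)) (aeval E.s (ν * w - X ^ M)) := by
    intro i hi
    rw [SectionExp.co_aeval] at hi ⊢
    split_ifs at hi ⊢ with h0
    · subst h0
      have h2 : (ν * w - X ^ M).natDegree + R ≤ M := by
        rw [← natDegree_neg, neg_sub]; exact hwR
      have h3 : (n : ℤ) * ((ν * w - X ^ M).natDegree + R) ≤ n * M :=
        mul_le_mul_of_nonneg_left (by exact_mod_cast h2) (by positivity)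
      have hn0 : (0 : ℤ) < n := by exact_mod_cast hn1
      have hRc : (R : ℤ) = C + e₀ + c₀ + μ₂ * P₀ + 1 := by rw [hR]; push_cast; ring
      have h6 : (n : ℤ) * R ≥ n * (c₀ + 1) :=
        mul_le_mul_of_nonneg_left (by rw [hRc]; have : (0 : ℤ) ≤ μ₂ * P₀ := (by positivity); linarith [Int.natCast_nonneg C, Int.natCast_nonneg e₀]) (by positivity)
      push_cast
      nlinarith
    · exact absurd rfl hi
  have hWb : E.WLt n M (((n * M : ℕ) : ℤ) - ((c₀ * n : ℕ) : ℤ)) (b₁ - (E.s ^ M + U n)) := by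
    have h2 : b₁ - (E.s ^ M + U n) = aeval E.s (ν * w - X ^ M) + (q * U (n - d) - U n) := by
      rw [hb₁, map_sub, map_pow, aeval_X]
      ring
    rw [h2]
    exact wlt_add E hW1 (hmov n M (by omega) hμmM)
  have hWa : E.WLt n M (((n * M : ℕ) : ℤ) - ((c₀ * n : ℕ) : ℤ))
      (b₁ + E' - (E.s ^ M + U n)) := by
    have h2 : b₁ + E' - (E.s ^ M + U n) = (b₁ - (E.s ^ M + U n)) + E' := by ring
    rw [h2]
    exact wlt_add E hWb hWE
  have hInV : ∀ a : A, E.WLt n M (((n * M : ℕ) : ℤ) - ((c₀ * n : ℕ) : ℤ))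
      (a - (E.s ^ M + U n)) → E.InV n M a := by
    intro a ha
    have h2 : a = (E.s ^ M + U n) + (a - (E.s ^ M + U n)) := by ring
    rw [h2]
    apply inV_add_wlt E (inV_star E κ j₀ U hU n M hn1 (by omega) hκM)
    exact wlt_mono E (by have : (0 : ℤ) ≤ ((c₀ * n : ℕ) : ℤ) := Int.natCast_nonneg _; linarith) ha
  have hqW : E.WLt n M ((n * M : ℕ) : ℤ) q := by
    apply wlt_mono E _ hfixq
    have h2 : 2 * (n * e₀) ≤ n * M := by
      calc 2 * (n * e₀) = n * (2 * e₀) := by ring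
        _ ≤ n * M := Nat.mul_le_mul_left _ (by omega)
    have h3 : 2 * (M * P₀) ≤ n * M := by
      calc 2 * (M * P₀) = (2 * P₀) * M := by ring
        _ ≤ n * M := Nat.mul_le_mul_right _ (by omega)
    have h4 : n * e₀ + M * P₀ ≤ n * M := by omega
    exact_mod_cast h4
  have hndvd : ∀ a : A, E.WLt n M (((n * M : ℕ) : ℤ) - ((c₀ * n : ℕ) : ℤ))
      (a - (E.s ^ M + U n)) → ¬ a ∣ q := by
    intro a ha h2
    exact hq0 (hdvd n M hn1 hμdM a q (hInV a ha) hqW h2)
  have hresb : res P b₁ = res P (aeval E.s (ν * w)) := by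
    rw [res_eq_iff, hb₁, add_sub_cancel_left]
    exact P.ideal.mul_mem_right _ hqP
  have hresE : res P E' = res P x := by
    symm
    rw [res_eq_iff]
    obtain ⟨z, hz⟩ := hcx
    rw [hE', hz]
    exact P.ideal.mul_mem_right _ hqP
  refine ⟨b₁ + E', b₁, hWa, hWb, ?_, ?_, ?_, hndvd _ hWa, hndvd _ hWb⟩
  · intro y hy
    have h2 : (b₁ + E' - b₁) * y = x * y - (x - E') * y := by ring
    rw [h2]
    exact dvd_sub (hxP y hy) (hcx.mul_right y)
  · rw [res_add, hresb, hresE, hresx]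
    ring
  · intro z
    exact lenAt_le_rank E q r b hb z ν w hν.ne_zero hw b₁ ⟨U (n - d), by rw [hb₁]; ring⟩

end Pool.Agent.K1
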