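import Mathlib

/-!
Veronese subrings: the algebra used for normal embeddings.
-/

set_option autoImplicit false

namespace Pool.Agent.K1.NormEmb

open MvPolynomial

variable {k K : Type*} [Field k] [Field K] [Algebra k K] {ι : Type*}

theorem span_pow_eq (w : ι → K) (i : ℕ) :
    Submodule.span k (Set.range w) ^ i =
      (homogeneousSubmodule ι k i).map (aeval w).toLinearMap := by
  have h1 : Submodule.span k (Set.range w) =
      (homogeneousSubmodule ι k 1).map (aeval w).toLinearMap := by
    rw [homogeneousSubmodule_one_eq_span_X, Submodule.map_span, ← Set.range_comp]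
    congr 2
    funext t
    simp
  rw [h1, ← Submodule.map_pow, homogeneousSubmodule_one_pow]

theorem mem_span_pow (w : ι → K) (i : ℕ) (f : K) :
    f ∈ Submodule.span k (Set.range w) ^ i ↔
      ∃ P : MvPolynomial ι k, P.IsHomogeneous i ∧ aeval w P = f := by
  rw [span_pow_eq]
  rfl

/-- The conclusion of the algebraic part. -/
theorem exists_veronese [IsAlgClosed k] {n : ℕ} (Sec : ℕ → Submodule k K)
    (h1 : (1 : K) ∈ Sec 0) (hmul : ∀ i j, Sec i * Sec j ≤ Sec (i + j))
    (w : Fin (n + 1) → K) (hw : ∀ t, w t ∈ Sec 1)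
    (hfg : ∃ (r : ℕ) (g : Fin r → K) (e : Fin r → ℕ), (∀ i, g i ∈ Sec (e i)) ∧
      ∀ (j : ℕ) (f : K), f ∈ Sec j → ∃ Q : Fin r → MvPolynomial (Fin (n + 1)) k,
        (∀ i, (e i ≤ j ∧ (Q i).IsHomogeneous (j - e i)) ∨ Q i = 0) ∧
        ∑ i, g i * aeval w (Q i) = f) :
    ∃ (m : ℕ) (_ : 0 < m) (n' : ℕ) (w' : Fin (n' + 1) → K),
      Submodule.span k (Set.range w') = Sec m ∧
      (∀ (j : ℕ) (f : K), f ∈ Sec (m * j) →
        ∃ P : MvPolynomial (Fin (n' + 1)) k, P.IsHomogeneous j ∧ aeval w' P = f) ∧
      Sec (m + m) ≤ Submodule.span k (Set.range w) ^ m * Sec m := by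
  classical
  obtain ⟨r, g, e, hg, hQ⟩ := hfg
  set S₁ : Submodule k K := Submodule.span k (Set.range w) with hS₁
  have h0 : (1 : Submodule k K) ≤ Sec 0 := by
    rw [Submodule.one_le]; exact h1
  have hS1 : S₁ ≤ Sec 1 := by
    rw [hS₁, Submodule.span_le]
    rintro _ ⟨t, rfl⟩
    exact hw t
  have hSi : ∀ i, S₁ ^ i ≤ Sec i := by
    intro i
    induction i with
    | zero => rw [pow_zero]; exact h0
    | succ i ih =>
      rw [pow_succ]
      exact (mul_le_mul' ih hS1).trans (hmul _ _)
  set m : ℕ := 1 + ∑ i, e i with hm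
  have hm0 : 0 < m := by omega
  have hem : ∀ i, e i ≤ m := by
    intro i
    have := Finset.single_le_sum (f := e) (fun _ _ => Nat.zero_le _) (Finset.mem_univ i)
    omega
  -- sections of large degree
  have hbig : ∀ i j, m ≤ j → Sec (j + i) ≤ S₁ ^ i * Sec j := by
    intro i j hj f hf
    obtain ⟨Q, hQ1, hQ2⟩ := hQ _ f hf
    rw [← hQ2]
    refine Submodule.sum_mem _ fun l _ => ?_
    rcases hQ1 l with ⟨h2, h3⟩ | h2
    · have h4 : aeval w (Q l) ∈ S₁ ^ (i + (j - e l)) := by
        rw [hS₁, mem_span_pow]
        refine ⟨Q l, ?_, rfl⟩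
        have : i + (j - e l) = j + i - e l := by
          have := hem l
          omega
        rw [this]; exact h3
      rw [pow_add] at h4
      have h5 : g l * aeval w (Q l) ∈ Submodule.span k {g l} * (S₁ ^ i * S₁ ^ (j - e l)) :=
        Submodule.mul_mem_mul (Submodule.mem_span_singleton_self _) h4
      have h6 : Submodule.span k {g l} * (S₁ ^ i * S₁ ^ (j - e l)) =
          S₁ ^ i * (Submodule.span k {g l} * S₁ ^ (j - e l)) := by
        rw [← mul_assoc, mul_comm (Submodule.span k {g l}), mul_assoc]
      rw [h6] at h5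
      refine (?_ : S₁ ^ i * (Submodule.span k {g l} * S₁ ^ (j - e l)) ≤ S₁ ^ i * Sec j) h5
      refine mul_le_mul' le_rfl ?_
      have h7 : Submodule.span k {g l} ≤ Sec (e l) := by
        rw [Submodule.span_le, Set.singleton_subset_iff]; exact hg l
      have h8 := (mul_le_mul' h7 (hSi (j - e l))).trans (hmul _ _)
      have h9 : e l + (j - e l) = j := by
        have := hem l
        omega
      rwa [h9] at h8
    · rw [h2, map_zero, mul_zero]; exact Submodule.zero_mem _
  -- the sections of degree m are finite dimensional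
  have hfgm : (Sec m).FG := by
    have heq : Sec m = ⨆ l, Submodule.span k {g l} * S₁ ^ (m - e l) := by
      apply le_antisymm
      · intro f hf
        obtain ⟨Q, hQ1, hQ2⟩ := hQ _ f hf
        rw [← hQ2]
        refine Submodule.sum_mem _ fun l _ => ?_
        rcases hQ1 l with ⟨h2, h3⟩ | h2
        · refine Submodule.mem_iSup_of_mem l (Submodule.mul_mem_mul
            (Submodule.mem_span_singleton_self _) ?_)
          rw [hS₁, mem_span_pow]
          exact ⟨Q l, h3, rfl⟩
        · rw [h2, map_zero, mul_zero]; exact Submodule.zero_mem _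
      · refine iSup_le fun l => ?_
        have h7 : Submodule.span k {g l} ≤ Sec (e l) := by
          rw [Submodule.span_le, Set.singleton_subset_iff]; exact hg l
        have h8 := (mul_le_mul' h7 (hSi (m - e l))).trans (hmul _ _)
        have h9 : e l + (m - e l) = m := by
          have := hem l
          omega
        rwa [h9] at h8
    rw [heq]
    refine Submodule.fg_iSup _ fun l => Submodule.FG.mul (Submodule.fg_span_singleton _)
      (Submodule.FG.pow ?_ _)
    exact Submodule.fg_span (Set.finite_range w)
  -- the sections of degree zero are constants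
  have hzero : Sec 0 ≤ 1 := by
    have hle : Sec 0 ≤ Submodule.span k (Set.range g) := by
      intro f hf
      obtain ⟨Q, hQ1, hQ2⟩ := hQ _ f hf
      rw [← hQ2]
      refine Submodule.sum_mem _ fun l _ => ?_
      rcases hQ1 l with ⟨h2, h3⟩ | h2
      · have h4 : aeval w (Q l) ∈ S₁ ^ 0 := by
          rw [hS₁, mem_span_pow]
          exact ⟨Q l, by simpa using h3, rfl⟩
        rw [pow_zero, Submodule.mem_one] at h4
        obtain ⟨a, ha⟩ := h4
        rw [← ha, mul_comm, ← Algebra.smul_def]
        exact Submodule.smul_mem _ _ (Submodule.subset_span ⟨l, rfl⟩)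
      · rw [h2, map_zero, mul_zero]; exact Submodule.zero_mem _
    have hfin : (Sec 0).FG := by
      have h2 : (Submodule.span k (Set.range g)).FG := Submodule.fg_span (Set.finite_range g)
      have h3 : IsNoetherian k (Submodule.span k (Set.range g)) :=
        isNoetherian_of_fg_of_noetherian _ h2
      exact isNoetherian_submodule.1 h3 _ hle
    let S : Subalgebra k K :=
      { carrier := Sec 0
        mul_mem' := fun {a b} ha hb => hmul 0 0 (Submodule.mul_mem_mul ha hb)
        add_mem' := fun {a b} ha hb => (Sec 0).add_mem ha hb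
        algebraMap_mem' := fun a => h0 (by rw [Submodule.mem_one]; exact ⟨a, rfl⟩) }
    have hS : Subalgebra.toSubmodule S = Sec 0 := by
      ext x; rfl
    intro f hf
    have hint : IsIntegral k f := IsIntegral.of_mem_of_fg S (by rw [hS]; exact hfin) f hf
    rw [Submodule.mem_one]
    have := minpoly.mem_range_of_degree_eq_one k f
      (IsAlgClosed.degree_eq_one_of_irreducible k (minpoly.irreducible hint))
    exact this
  -- the Veronese property
  have hSm : S₁ ^ m ≤ Sec m := hSi m
  have hver : ∀ j, Sec (m * j) ≤ Sec m ^ j := by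
    intro j
    induction j with
    | zero => rw [mul_zero, pow_zero]; exact hzero
    | succ j ih =>
      rcases Nat.eq_zero_or_pos j with rfl | hj
      · rw [zero_add, mul_one, pow_one]
      · have h2 : m ≤ m * j := Nat.le_mul_of_pos_right _ hj
        have h3 := hbig m (m * j) h2
        rw [mul_add, mul_one, pow_succ']
        exact h3.trans (mul_le_mul' hSm ih)
  obtain ⟨q, s, hs⟩ := Submodule.fg_iff_exists_fin_generating_family.1 hfgm
  refine ⟨m, hm0, q, Fin.cons 0 s, ?_, ?_, ?_⟩
  · rw [Fin.range_cons, Submodule.span_insert_zero, hs]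
  · intro j f hf
    have h2 := hver j hf
    have h3 : Submodule.span k (Set.range (Fin.cons 0 s : Fin (q + 1) → K)) = Sec m := by
      rw [Fin.range_cons, Submodule.span_insert_zero, hs]
    rw [← h3, mem_span_pow] at h2
    exact h2
  · exact hbig m m le_rfl

end Pool.Agent.K1.NormEmb
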