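import Pool.Agent.K1.NModelDef
import Pool.Agent.K1.SectionAbs
import Pool.Agent.K1.NormalEmbedAlg
import Pool.Agent.K1.FinInt

/-!
K1-N04 : existence of the normal projective model.
-/

set_option autoImplicit false

open Polynomial

namespace Pool.Agent.K1

open Pool.Agent.K1.SecRing

section

variable {k F : Type} [Field k] [Field F] [Algebra k F] {n : ℕ}

/-- The sections are generated by finitely many over the forms. -/
theorem ne_fg_abs (w : Fin (n + 1) → F) (Sec : ℕ → F → Prop)
    (hint : ∀ j f, Sec j f → IsIntegral (Phi (k := k) w).range (C f * X ^ j : F[X]))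
    (hfrac : ∀ j f, Sec j f → ∃ (N : ℕ) (P P' : MvPolynomial (Fin (n + 1)) k),
      P.IsHomogeneous N ∧ P'.IsHomogeneous (N + j) ∧ MvPolynomial.aeval w P ≠ 0 ∧
        MvPolynomial.aeval w P' = f * MvPolynomial.aeval w P)
    (hfi : ∀ (A K : Type) [CommRing A] [IsDomain A] [Algebra k A] [Algebra.FiniteType k A]
      [Field K] [Algebra A K] [IsFractionRing A K], Module.Finite A (integralClosure A K)) :
    ∃ (r : ℕ) (g : Fin r → F) (e : Fin r → ℕ), (∀ i, Sec (e i) (g i)) ∧
      ∀ (j : ℕ) (f : F), Sec j f → ∃ Q : Fin r → MvPolynomial (Fin (n + 1)) k,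
        (∀ i, (e i ≤ j ∧ (Q i).IsHomogeneous (j - e i)) ∨ Q i = 0) ∧
        ∑ i, g i * MvPolynomial.aeval w (Q i) = f := by
  classical
  let S : Subalgebra k F[X] := (Phi (k := k) w).range
  have hSft : Algebra.FiniteType k S :=
    Algebra.FiniteType.of_surjective (Phi (k := k) w).rangeRestrict
      (AlgHom.rangeRestrict_surjective _)
  have hSnoeth : IsNoetherianRing S := Algebra.FiniteType.isNoetherianRing k S
  let Q' : Type := FractionRing S
  let L : Type := FractionRing F[X]
  have hQ : Module.Finite S (integralClosure S Q') := hfi S Q'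
  -- the embedding of fraction fields
  have hSL : Function.Injective (algebraMap S L) := by
    intro a b hab
    apply Subtype.ext
    exact IsFractionRing.injective F[X] L hab
  let φ : Q' →ₐ[S] L := IsFractionRing.liftAlgHom (A := S) (g := Algebra.ofId S L) hSL
  have hφ : Function.Injective φ := φ.toRingHom.injective
  -- the generators
  let G : Set F[X] := {z | ∃ j f, Sec j f ∧ z = C f * X ^ j}
  let R : Submodule S F[X] := Submodule.span S G
  let ι : F[X] →ₐ[S] L := Algebra.ofId F[X] L |>.restrictScalars S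
  have hι : Function.Injective ι := IsFractionRing.injective F[X] L
  let N : Submodule S L := (Subalgebra.toSubmodule (integralClosure S Q')).map φ.toLinearMap
  have hN : N.FG := by
    apply Submodule.FG.map
    exact (Submodule.fg_top _).1 hQ.fg_top
  have hGN : ∀ z ∈ G, ι z ∈ N := by
    rintro z ⟨j, f, hf, rfl⟩
    have hint' : IsIntegral S (C f * X ^ j : F[X]) := hint j f hf
    obtain ⟨M, P, P', hP, hP', hP0, hP'e⟩ := hfrac j f hf
    let a : S := ⟨Phi w P', P', rfl⟩
    let b : S := ⟨Phi w P, P, rfl⟩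
    have hb : algebraMap S Q' b ≠ 0 := by
      intro h0
      have h1 : b = 0 := IsFractionRing.injective S Q' (by rw [h0, map_zero])
      have h2 : Phi (k := k) w P = 0 := congrArg Subtype.val h1
      rw [Phi_hom w hP] at h2
      exact (mul_ne_zero (C_ne_zero.2 hP0) (pow_ne_zero _ X_ne_zero)) h2
    have hab : (a : F[X]) = C f * X ^ j * (b : F[X]) := by
      change Phi w P' = C f * X ^ j * Phi w P
      rw [Phi_hom w hP', hP'e, Phi_hom w hP, C_mul, pow_add]
      ring
    have hz : φ (algebraMap S Q' a / algebraMap S Q' b) = ι (C f * X ^ j) := by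
      rw [map_div₀, φ.commutes, φ.commutes]
      have hb' : algebraMap S L b ≠ 0 := by
        intro h0
        exact hb (by rw [hSL (h0.trans (map_zero _).symm), map_zero])
      rw [div_eq_iff hb']
      change algebraMap F[X] L a = algebraMap F[X] L (C f * X ^ j) * algebraMap F[X] L b
      rw [hab, map_mul]
    have hzint : IsIntegral S (algebraMap S Q' a / algebraMap S Q' b) := by
      rw [← isIntegral_algHom_iff φ hφ, hz, isIntegral_algHom_iff ι hι]
      exact hint'
    exact ⟨algebraMap S Q' a / algebraMap S Q' b, hzint, hz⟩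
  have hR : R.FG := by
    have h1 : R.map ι.toLinearMap ≤ N := by
      rw [Submodule.map_span, Submodule.span_le]
      rintro _ ⟨z, hz, rfl⟩
      exact hGN z hz
    have hnoe : IsNoetherian S N := isNoetherian_of_fg_of_noetherian _ hN
    have h2 : (R.map ι.toLinearMap).FG := by
      have h3 : ((R.map ι.toLinearMap).comap N.subtype).FG := IsNoetherian.noetherian _
      have h4 := h3.map N.subtype
      rwa [Submodule.map_comap_subtype, inf_eq_right.2 h1] at h4
    exact Submodule.fg_of_fg_map_injective ι.toLinearMap hι h2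
  obtain ⟨G', hG', hspan⟩ := (Submodule.fg_span_iff_fg_span_finset_subset G).1 hR
  -- indexing
  let eq := G'.equivFin
  choose e g hsec hzg using fun i : Fin G'.card => hG' (eq.symm i).2
  refine ⟨G'.card, g, e, hsec, ?_⟩
  intro j f hf
  have hmem : C f * X ^ j ∈ Submodule.span S (G' : Set F[X]) := by
    rw [← hspan]
    exact Submodule.subset_span ⟨j, f, hf, rfl⟩
  rw [Submodule.mem_span_finset] at hmem
  obtain ⟨c, _, hc⟩ := hmem
  have hP : ∀ z : F[X], ∃ P, Phi (k := k) w P = (c z : F[X]) := fun z => (c z).2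
  choose P hP using hP
  let q : Fin G'.card → MvPolynomial (Fin (n + 1)) k := fun i =>
    if e i ≤ j then MvPolynomial.homogeneousComponent (j - e i) (P (eq.symm i)) else 0
  refine ⟨q, ?_, ?_⟩
  · intro i
    by_cases hi : e i ≤ j
    · left
      refine ⟨hi, ?_⟩
      change MvPolynomial.IsHomogeneous (if e i ≤ j then _ else _) _
      rw [if_pos hi]
      exact MvPolynomial.homogeneousComponent_isHomogeneous _ _
    · right
      exact if_neg hi
  · have h1 := congrArg (fun p : F[X] => p.coeff j) hc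
    simp only [coeff_C_mul, coeff_X_pow, if_true, mul_one, finsetSum_coeff] at h1
    have h3 : ∑ z ∈ G', (c z • z).coeff j = ∑ i : Fin G'.card,
        ((c (eq.symm i : F[X])) • ((eq.symm i : G') : F[X])).coeff j := by
      rw [← Finset.sum_coe_sort G' (fun z => (c z • z).coeff j)]
      exact (eq.symm.sum_comp (fun z : G' => (c (z : F[X]) • (z : F[X])).coeff j)).symm
    rw [← h1, h3]
    apply Finset.sum_congr rfl
    intro i _
    have h2 : ((c (eq.symm i : F[X])) • ((eq.symm i : G') : F[X])) =
        Phi (k := k) w (P (eq.symm i)) * (C (g i) * X ^ e i) := by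
      rw [Subalgebra.smul_def, smul_eq_mul, hP, hzg i]
    rw [h2, mul_left_comm, coeff_C_mul, coeff_mul_X_pow']
    by_cases hi : e i ≤ j
    · rw [if_pos hi, coeff_Phi]
      change g i * MvPolynomial.aeval w (if e i ≤ j then _ else _) = _
      rw [if_pos hi]
    · rw [if_neg hi, mul_zero]
      change g i * MvPolynomial.aeval w (if e i ≤ j then _ else _) = _
      rw [if_neg hi, map_zero, mul_zero]


/-- Integrality over a domain by valuation rings of a field containing it. -/
theorem ne_integral {S L : Type*} [CommRing S] [Field L] [Algebra S L] (x : L)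
    (h : ∀ U : ValuationSubring L, (∀ s : S, algebraMap S L s ∈ U) → x ∈ U) : IsIntegral S x := by
  have h1 : x ∈ (⨅ V : {V : ValuationSubring L // ((algebraMap S L).range : Set L) ⊆ V.toSubring},
      V.1.toSubring) := by
    rw [Subring.mem_iInf]
    rintro ⟨V, hV⟩
    exact h V fun s => hV ⟨s, rfl⟩
  rw [iInf_valuationSubring_superset, Subring.closure_eq] at h1
  have h2 : IsIntegral (algebraMap S L).range x := h1
  let _ : Algebra S (algebraMap S L).range := (algebraMap S L).rangeRestrict.toAlgebra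
  have : IsScalarTower S (algebraMap S L).range L := IsScalarTower.of_algebraMap_eq fun _ => rfl
  have : Algebra.IsIntegral S (algebraMap S L).range := ⟨fun y => by
    obtain ⟨s, rfl⟩ := (algebraMap S L).rangeRestrict_surjective y
    exact isIntegral_algebraMap⟩
  exact isIntegral_trans x h2

/-- A form whose quotients by the smallest linear form lie in all valuation rings is integral over
the ring of forms. -/
theorem ne_integral_form (w : Fin (n + 1) → F) (hw : ∃ t, w t ≠ 0) (j : ℕ) (f : F)
    (hf : ∀ V : ValuationSubring F, (∀ c : k, algebraMap k F c ∈ V) → ∀ t, w t ≠ 0 →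
      (∀ i, w i / w t ∈ V) → f / w t ^ j ∈ V) :
    IsIntegral (Phi (k := k) w).range (C f * X ^ j : F[X]) := by
  classical
  obtain ⟨t, ht⟩ := hw
  let L : Type := FractionRing F[X]
  let S : Subalgebra k F[X] := (Phi (k := k) w).range
  let ι : F[X] →ₐ[S] L := Algebra.ofId F[X] L |>.restrictScalars S
  have hι : Function.Injective ι := IsFractionRing.injective F[X] L
  change IsIntegral S (C f * X ^ j : F[X])
  rw [← isIntegral_algHom_iff ι hι]
  apply ne_integral
  intro U hU
  have hS : ∀ p ∈ S, algebraMap F[X] L p ∈ U := fun p hp => hU ⟨p, hp⟩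
  let χ : F →+* L := (algebraMap F[X] L).comp C
  let V : ValuationSubring F := U.comap χ
  have hV : ∀ g : F, g ∈ V ↔ algebraMap F[X] L (C g) ∈ U := fun g => Iff.rfl
  have hwX : ∀ i, algebraMap F[X] L (C (w i) * X) ∈ U := fun i =>
    hS _ ⟨MvPolynomial.X i, by simp [Phi]⟩
  obtain ⟨m, -, hm⟩ := Finset.exists_max_image (Finset.univ : Finset (Fin (n + 1)))
    (fun i => U.valuation (algebraMap F[X] L (C (w i) * X))) ⟨t, Finset.mem_univ _⟩
  have hinj : Function.Injective (algebraMap F[X] L) := IsFractionRing.injective F[X] L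
  have hm0 : w m ≠ 0 := by
    intro h0
    have h1 := hm t (Finset.mem_univ _)
    rw [h0, C_0, zero_mul, map_zero, map_zero, le_zero_iff, map_eq_zero, ← map_zero
      (algebraMap F[X] L)] at h1
    have h2 := hinj h1
    exact mul_ne_zero (C_ne_zero.2 ht) X_ne_zero h2
  have hmL : algebraMap F[X] L (C (w m) * X) ≠ 0 := by
    intro h0
    rw [← map_zero (algebraMap F[X] L)] at h0
    exact mul_ne_zero (C_ne_zero.2 hm0) X_ne_zero (hinj h0)
  have hquot : ∀ i, w i / w m ∈ V := by
    intro i
    rw [hV]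
    have h1 : algebraMap F[X] L (C (w i / w m)) * algebraMap F[X] L (C (w m) * X) =
        algebraMap F[X] L (C (w i) * X) := by
      rw [← map_mul, ← mul_assoc, ← C_mul, div_mul_cancel₀ _ hm0]
    rw [← U.valuation_le_one_iff]
    have h2 : algebraMap F[X] L (C (w i / w m)) = algebraMap F[X] L (C (w i) * X) /
        algebraMap F[X] L (C (w m) * X) := by
      rw [eq_div_iff hmL, h1]
    rw [h2, map_div₀]
    exact div_le_one_of_le₀ (hm i (Finset.mem_univ _)) zero_le
  have hfV := hf V (fun c => by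
    rw [hV]
    apply hS
    exact ⟨MvPolynomial.C c, by simp [Phi]⟩) m hm0 hquot
  rw [hV] at hfV
  have h3 : ι (C f * X ^ j) = algebraMap F[X] L (C (f / w m ^ j)) *
      algebraMap F[X] L (C (w m) * X) ^ j := by
    change algebraMap F[X] L (C f * X ^ j) = _
    rw [← map_pow, ← map_mul, mul_pow, ← C_pow, ← mul_assoc, ← C_mul,
      div_mul_cancel₀ _ (pow_ne_zero _ hm0)]
  rw [h3]
  exact U.mul_mem _ _ hfV (pow_mem (hwX m) j)

/-- Quotients of linear forms: elements of the ring are forms divided by powers of `w 0`. -/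
theorem ne_adjoin (w : Fin (n + 1) → F) (h0 : w 0 ≠ 0) (a : F)
    (ha : a ∈ Algebra.adjoin k (Set.range fun i => w i / w 0)) :
    ∃ N, ∀ M, N ≤ M → a * w 0 ^ M ∈ Submodule.span k (Set.range w) ^ M := by
  have hw0 : w 0 ∈ Submodule.span k (Set.range w) := Submodule.subset_span ⟨0, rfl⟩
  have key : ∀ (N : ℕ) (a : F), a * w 0 ^ N ∈ Submodule.span k (Set.range w) ^ N →
      ∀ M, N ≤ M → a * w 0 ^ M ∈ Submodule.span k (Set.range w) ^ M := by
    intro N a ha M hM
    obtain ⟨c, rfl⟩ := Nat.exists_eq_add_of_le hM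
    rw [pow_add, pow_add, ← mul_assoc]
    exact Submodule.mul_mem_mul ha (Submodule.pow_mem_pow _ hw0 c)
  induction ha using Algebra.adjoin_induction with
  | mem x hx =>
    obtain ⟨i, rfl⟩ := hx
    refine ⟨1, key 1 _ ?_⟩
    rw [pow_one, pow_one]
    change w i / w 0 * w 0 ∈ _
    rw [div_mul_cancel₀ _ h0]
    exact Submodule.subset_span ⟨i, rfl⟩
  | algebraMap r =>
    refine ⟨0, key 0 _ ?_⟩
    rw [pow_zero, pow_zero, mul_one]
    exact Submodule.algebraMap_mem r
  | add x y _ _ hx hy =>
    obtain ⟨N, hN⟩ := hx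
    obtain ⟨N', hN'⟩ := hy
    refine ⟨max N N', fun M hM => ?_⟩
    rw [add_mul]
    exact Submodule.add_mem _ (hN M (le_trans (le_max_left _ _) hM))
      (hN' M (le_trans (le_max_right _ _) hM))
  | mul x y _ _ hx hy =>
    obtain ⟨N, hN⟩ := hx
    obtain ⟨N', hN'⟩ := hy
    refine ⟨N + N', key (N + N') _ ?_⟩
    rw [pow_add, pow_add]
    have h1 := Submodule.mul_mem_mul (hN N le_rfl) (hN' N' le_rfl)
    have h2 : x * y * (w 0 ^ N * w 0 ^ N') = x * w 0 ^ N * (y * w 0 ^ N') := by ring
    rw [h2]
    exact h1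

theorem exists_nmodel {k K : Type} [Field k] [IsAlgClosed k] [Field K] [Algebra k K] {n : ℕ}
    (w : Fin (n + 1) → K) (h0 : w 0 ≠ 0)
    (hgen : ∀ f : K, ∃ a ∈ Algebra.adjoin k (Set.range fun i => w i / w 0),
      ∃ b ∈ Algebra.adjoin k (Set.range fun i => w i / w 0), b ≠ 0 ∧ f = a / b) :
    ∃ (M : NModel k K) (m : ℕ), 0 < m ∧
      (∀ e : Fin (n + 1) → ℕ, ∑ i, e i = m → ∏ i, w i ^ e i ∈ M.W) ∧
      ∀ V : ValuationSubring K, (∀ c : k, algebraMap k K c ∈ V) → ∀ j, w j ≠ 0 →
        (∀ i, w i / w j ∈ V) → ∀ x ∈ M.W, x / w j ^ m ∈ V := by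
  classical
  let Sec : ℕ → Submodule k K := fun m =>
    { carrier := {f | ∀ V : ValuationSubring K, (∀ c : k, algebraMap k K c ∈ V) → ∀ j, w j ≠ 0 →
        (∀ i, w i / w j ∈ V) → f / w j ^ m ∈ V}
      add_mem' := by
        intro a b ha hb V hV j hj hi
        rw [add_div]
        exact V.add_mem _ _ (ha V hV j hj hi) (hb V hV j hj hi)
      zero_mem' := by
        intro V hV j hj hi
        rw [zero_div]
        exact V.zero_mem
      smul_mem' := by
        intro c a ha V hV j hj hi
        rw [Algebra.smul_def, mul_div_assoc]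
        exact V.mul_mem _ _ (hV c) (ha V hV j hj hi) }
  have hSec : ∀ (m : ℕ) (f : K), f ∈ Sec m ↔ ∀ V : ValuationSubring K,
      (∀ c : k, algebraMap k K c ∈ V) → ∀ j, w j ≠ 0 →
        (∀ i, w i / w j ∈ V) → f / w j ^ m ∈ V := fun m f => Iff.rfl
  have h1 : (1 : K) ∈ Sec 0 := by
    intro V hV j hj hi
    rw [pow_zero, div_one]
    exact V.one_mem
  have hmul : ∀ i j, Sec i * Sec j ≤ Sec (i + j) := by
    intro i j
    rw [Submodule.mul_le]
    intro a ha b hb V hV t ht hi
    rw [pow_add, mul_div_mul_comm]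
    exact V.mul_mem _ _ (ha V hV t ht hi) (hb V hV t ht hi)
  have hw : ∀ t, w t ∈ Sec 1 := by
    intro t V hV j hj hi
    rw [pow_one]
    exact hi t
  have hfg := ne_fg_abs (k := k) w (fun j f => f ∈ Sec j)
    (fun j f hf => ne_integral_form w ⟨0, h0⟩ j f hf)
    (by
      intro j f _
      obtain ⟨a, ha, b, hb, hb0, hab⟩ := hgen (f / w 0 ^ j)
      obtain ⟨N, hN⟩ := ne_adjoin (k := k) w h0 a ha
      obtain ⟨N', hN'⟩ := ne_adjoin (k := k) w h0 b hb
      have h2 := hN (max N N' + j) (le_trans (le_max_left _ _) (Nat.le_add_right _ _))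
      have h3 := hN' (max N N') (le_max_right _ _)
      rw [NormEmb.mem_span_pow] at h2 h3
      obtain ⟨P', hP', hP'e⟩ := h2
      obtain ⟨P, hP, hPe⟩ := h3
      refine ⟨max N N', P, P', hP, hP', ?_, ?_⟩
      · rw [hPe]
        exact mul_ne_zero hb0 (pow_ne_zero _ h0)
      · rw [hPe, hP'e]
        have h4 : f * b = a * w 0 ^ j := by
          rw [div_eq_div_iff (pow_ne_zero _ h0) hb0] at hab
          exact hab
        calc a * w 0 ^ (max N N' + j) = (a * w 0 ^ j) * w 0 ^ max N N' := by ring
          _ = f * (b * w 0 ^ max N N') := by rw [← h4]; ring)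
    (fun A K => finite_integralClosure (k := k))
  obtain ⟨m, hm, n', w', hw', hgen', -⟩ := NormEmb.exists_veronese Sec h1 hmul w hw hfg
  have hpow : ∀ i j, Sec i ^ j ≤ Sec (i * j) := by
    intro i j
    induction j with
    | zero =>
      rw [pow_zero, mul_zero, Submodule.one_le]
      exact h1
    | succ j ih =>
      rw [pow_succ, Nat.mul_succ]
      exact (mul_le_mul' ih le_rfl).trans (hmul _ _)
  have hle : ∀ j, Sec (m * j) ≤ Sec m ^ j := by
    intro j f hf
    obtain ⟨P, hP, hPe⟩ := hgen' j f hf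
    rw [← hw', NormEmb.mem_span_pow]
    exact ⟨P, hP, hPe⟩
  have hw0m : ∀ t, w t ^ m ∈ Sec m := by
    intro t
    have := hpow 1 m (Submodule.pow_mem_pow _ (hw t) m)
    rwa [one_mul] at this
  have hspan : Submodule.span k (Set.range w) ^ m ≤ Sec m := by
    have h2 : Submodule.span k (Set.range w) ≤ Sec 1 := by
      rw [Submodule.span_le]
      rintro _ ⟨t, rfl⟩
      exact hw t
    have h3 := (pow_le_pow_left' h2 m).trans (hpow 1 m)
    rwa [one_mul] at h3
  refine ⟨⟨Sec m, ?_, ⟨w 0 ^ m, hw0m 0, pow_ne_zero _ h0⟩, ?_, ?_⟩, m, hm, ?_, ?_⟩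
  · rw [← hw']
    exact Submodule.fg_span (Set.finite_range w')
  · intro j f hf
    apply hle
    intro V hV t ht hi
    rw [pow_mul]
    exact hf V hV (w t ^ m) (hw0m t) (pow_ne_zero _ ht) (fun x hx => hx V hV t ht hi)
  · intro f
    obtain ⟨a, ha, b, hb, hb0, hab⟩ := hgen f
    obtain ⟨N, hN⟩ := ne_adjoin (k := k) w h0 a ha
    obtain ⟨N', hN'⟩ := ne_adjoin (k := k) w h0 b hb
    have hmN : max N N' ≤ m * max N N' := Nat.le_mul_of_pos_left _ hm
    have h2 := hN (m * max N N') (le_trans (le_max_left _ _) hmN)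
    have h3 := hN' (m * max N N') (le_trans (le_max_right _ _) hmN)
    rw [pow_mul (Submodule.span k (Set.range w))] at h2 h3
    refine ⟨max N N', _, pow_le_pow_left' hspan _ h2, _,
      pow_le_pow_left' hspan _ h3, mul_ne_zero hb0 (pow_ne_zero _ h0), ?_⟩
    rw [mul_div_mul_right _ _ (pow_ne_zero _ h0)]
    exact hab
  · intro e he V hV j hj hi
    rw [← he, ← Finset.prod_pow_eq_pow_sum, ← Finset.prod_div_distrib]
    apply prod_mem
    intro i _
    rw [← div_pow]
    exact pow_mem (hi i) _
  · intro V hV j hj hi x hx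
    exact hx V hV j hj hi

end

end Pool.Agent.K1
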