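import Pool.Agent.K1.NPow
import Pool.Agent.K1.NExists
import Pool.Agent.K1.L2Regular

/-!
Theorem N: the charts of a model.
-/

set_option autoImplicit false

open Polynomial

namespace Pool.Agent.K1

section chart

variable {k K : Type} [Field k] [Field K] [Algebra k K] (M : NModel k K)

theorem NModel.mem_chart_iff {s : K} (hs : s ∈ M.W) (hs0 : s ≠ 0) (f : K) :
    f ∈ M.chart s ↔ ∃ j : ℕ, f * s ^ j ∈ M.W ^ j := np_mem_adjoin_iff M.W hs hs0 f

theorem NModel.mem_of_mem_chart {s f : K} (hf : f ∈ M.chart s) {O : Subring K}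
    (hV : ∀ c : k, algebraMap k K c ∈ O) (hs : ∀ x ∈ M.W, x / s ∈ O) : f ∈ O := by
  unfold NModel.chart at hf
  induction hf using Algebra.adjoin_induction with
  | mem x hx => obtain ⟨y, hy, rfl⟩ := hx; exact hs y hy
  | algebraMap r => exact hV r
  | add x y _ _ hx hy => exact add_mem hx hy
  | mul x y _ _ hx hy => exact mul_mem hx hy

theorem nc_val {V : ValuationSubring K} {g : K} (P : K[X]) (hP : P.Monic)
    (hc : ∀ i, P.coeff i ∈ V) (hg : P.eval g = 0) : g ∈ V := by
  have h1 : (↑P.coeffs : Set K) ⊆ V.toSubring := by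
    intro c hc'
    obtain ⟨n, _, rfl⟩ := Polynomial.mem_coeffs_iff.1 hc'
    exact hc n
  have h2 : IsIntegral V g := by
    refine ⟨P.toSubring V.toSubring h1, (P.monic_toSubring _ _).2 hP, ?_⟩
    have h3 : (P.toSubring V.toSubring h1).map (Subring.subtype V.toSubring) = P := by
      ext i
      rw [Polynomial.coeff_map]
      exact Polynomial.coeff_toSubring P _ h1
    have h4 : (P.toSubring V.toSubring h1).eval₂ (Subring.subtype V.toSubring) g = 0 := by
      rw [← Polynomial.eval_map, h3]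
      exact hg
    exact h4
  obtain ⟨y, hy⟩ := (IsIntegrallyClosed.isIntegral_iff (R := V)).1 h2
  rw [← hy]
  exact y.2

theorem NModel.isMin_pow {V : ValuationSubring K} {s x : K} (hs : M.IsMin V s)
    (hV : ∀ c : k, algebraMap k K c ∈ V) (j : ℕ) (hx : x ∈ M.W ^ j) : x / s ^ j ∈ V :=
  np_div_pow_mem M.W V.toSubring hV j s hs.2.2 x hx

theorem NModel.mem_chart_of_val {s : K} (hs : s ∈ M.W) (hs0 : s ≠ 0) (f : K)
    (h : ∀ V : ValuationSubring K, (∀ c : k, algebraMap k K c ∈ V) → (∀ x ∈ M.W, x / s ∈ V) →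
      f ∈ V) : f ∈ M.chart s := by
  classical
  have hint : IsIntegral (M.chart s) f := by
    apply ne_integral
    intro U hU
    refine h U (fun c => hU (algebraMap k (M.chart s) c)) fun x hx => ?_
    exact hU ⟨x / s, Algebra.subset_adjoin ⟨x, hx, rfl⟩⟩
  obtain ⟨p, hp, hpf⟩ := hint
  set P : K[X] := p.map (algebraMap (M.chart s) K) with hPdef
  have hPm : P.Monic := hp.map _
  have hPf : P.eval f = 0 := by
    rw [hPdef, Polynomial.eval_map]
    exact hpf
  have hPc : ∀ i, ∃ j : ℕ, P.coeff i * s ^ j ∈ M.W ^ j := by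
    intro i
    rw [hPdef, Polynomial.coeff_map]
    exact (M.mem_chart_iff hs hs0 _).1 (p.coeff i).2
  choose e he using hPc
  set j : ℕ := ∑ i ∈ Finset.range P.natDegree, e i with hj
  have hcoef : ∀ i < P.natDegree, P.coeff i * s ^ j ∈ M.W ^ j := by
    intro i hi
    have h1 : e i ≤ j := Finset.single_le_sum (f := e) (fun _ _ => Nat.zero_le _)
      (Finset.mem_range.2 hi)
    have h2 : j = e i + (j - e i) := by omega
    rw [h2, pow_add, pow_add, ← mul_assoc]
    exact Submodule.mul_mem_mul (he i) (Submodule.pow_mem_pow _ hs _)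
  rw [M.mem_chart_iff hs hs0]
  refine ⟨j, M.normal j _ ?_⟩
  intro V hV t ht ht0 hmin
  have hst : s / t ∈ V := hmin s hs
  have hroot : (P.scaleRoots ((s / t) ^ j)).eval ((s / t) ^ j * f) = 0 := by
    have h1 := Polynomial.scaleRoots_aeval_eq_zero (R := K) (A := K) (p := P) (a := f)
      (r := (s / t) ^ j) (by rw [Polynomial.coe_aeval_eq_eval]; exact hPf)
    rw [Polynomial.coe_aeval_eq_eval] at h1
    exact h1
  have h3 : (s / t) ^ j * f ∈ V := by
    refine nc_val _ ((Polynomial.monic_scaleRoots_iff _).2 hPm) ?_ hroot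
    intro i
    rw [Polynomial.coeff_scaleRoots]
    rcases lt_trichotomy i P.natDegree with hi | hi | hi
    · have h4 : P.coeff i * ((s / t) ^ j) ^ (P.natDegree - i) =
          (P.coeff i * s ^ j) / t ^ j * ((s / t) ^ j) ^ (P.natDegree - i - 1) := by
        have h5 : P.natDegree - i = (P.natDegree - i - 1) + 1 := by omega
        conv_lhs => rw [h5, pow_succ]
        rw [div_pow]
        ring
      rw [h4]
      exact mul_mem (M.isMin_pow ⟨ht, ht0, hmin⟩ hV j (hcoef i hi)) (pow_mem (pow_mem hst j) _)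
    · rw [hi, Nat.sub_self, pow_zero, mul_one, hPm.coeff_natDegree]
      exact one_mem _
    · rw [Polynomial.coeff_eq_zero_of_natDegree_lt hi, zero_mul]
      exact zero_mem _
  have h4 : f * s ^ j / t ^ j = (s / t) ^ j * f := by
    rw [div_pow]
    ring
  rw [h4]
  exact h3

theorem NModel.isFractionRing_chart {s : K} (hs : s ∈ M.W) (hs0 : s ≠ 0) :
    IsFractionRing (M.chart s) K := by
  have hinj : Function.Injective (algebraMap (M.chart s) K) := Subtype.coe_injective
  refine ⟨?_, ?_, ?_⟩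
  · intro y
    rw [isUnit_iff_ne_zero]
    intro h0
    exact nonZeroDivisors.ne_zero y.2 (hinj (by rw [h0, map_zero]))
  · intro f
    obtain ⟨j, a, ha, b, hb, hb0, hf⟩ := M.frac f
    have h1 : ∀ x ∈ M.W ^ j, x / s ^ j ∈ M.chart s := by
      intro x hx
      rw [M.mem_chart_iff hs hs0]
      refine ⟨j, ?_⟩
      rw [div_mul_cancel₀ _ (pow_ne_zero j hs0)]
      exact hx
    have hb1 : (⟨b / s ^ j, h1 b hb⟩ : M.chart s) ∈ nonZeroDivisors (M.chart s) := by
      rw [mem_nonZeroDivisors_iff_ne_zero]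
      intro h0
      have h2 : b / s ^ j = 0 := congrArg Subtype.val h0
      exact div_ne_zero hb0 (pow_ne_zero j hs0) h2
    refine ⟨(⟨a / s ^ j, h1 a ha⟩, ⟨_, hb1⟩), ?_⟩
    change f * (b / s ^ j) = a / s ^ j
    rw [hf]
    field_simp
  · intro x y hxy
    exact ⟨1, by rw [hinj hxy]⟩

theorem NModel.isIntegrallyClosed_chart {s : K} (hs : s ∈ M.W) (hs0 : s ≠ 0) :
    IsIntegrallyClosed (M.chart s) := by
  have := M.isFractionRing_chart hs hs0
  rw [isIntegrallyClosed_iff K]
  rintro f ⟨p, hp, hpf⟩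
  have hf : f ∈ M.chart s := by
    apply M.mem_chart_of_val hs hs0
    intro V hV hx
    refine nc_val (p.map (algebraMap (M.chart s) K)) (hp.map _) ?_ ?_
    · intro i
      rw [Polynomial.coeff_map]
      exact M.mem_of_mem_chart (p.coeff i).2 (O := V.toSubring) hV hx
    · rw [Polynomial.eval_map]
      exact hpf
  exact ⟨⟨f, hf⟩, rfl⟩

theorem NModel.finiteType_chart (s : K) : Algebra.FiniteType k (M.chart s) := by
  classical
  obtain ⟨T, hT⟩ := M.fg
  apply (Subalgebra.fg_iff_finiteType _).1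
  refine ⟨T.image fun x => x / s, ?_⟩
  apply le_antisymm
  · apply Algebra.adjoin_mono
    intro y hy
    rw [Finset.coe_image] at hy
    obtain ⟨x, hx, rfl⟩ := hy
    exact ⟨x, by rw [← hT]; exact Submodule.subset_span hx, rfl⟩
  · apply Algebra.adjoin_le
    rintro _ ⟨x, hx, rfl⟩
    have hx' : x ∈ Submodule.span k (T : Set K) := by rw [hT]; exact hx
    change x / s ∈ Algebra.adjoin k _
    clear hx
    induction hx' using Submodule.span_induction with
    | mem x hx =>
      exact Algebra.subset_adjoin (Finset.mem_coe.2 (Finset.mem_image_of_mem _ hx))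
    | zero => rw [zero_div]; exact zero_mem _
    | add x y _ _ hx hy => rw [add_div]; exact add_mem hx hy
    | smul c x _ hx => rw [smul_div_assoc]; exact Subalgebra.smul_mem _ hx c

theorem NModel.dim_chart {s : K} (hs : s ∈ M.W) (hs0 : s ≠ 0) (htr : Algebra.trdeg k K = 2) :
    ringKrullDim (M.chart s) = 2 := by
  have := M.isFractionRing_chart hs hs0
  have := M.finiteType_chart s
  obtain ⟨d, -, h2, h3⟩ := L2R_key (k := k) (A := M.chart s)
  have : Algebra.IsAlgebraic (M.chart s) K :=
    IsLocalization.isAlgebraic _ (nonZeroDivisors (M.chart s))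
  have h4 := trdeg_add_eq (R := k) (S := M.chart s) (A := K)
  rw [_root_.trdeg_eq_zero (R := M.chart s) (A := K), add_zero, h3, htr] at h4
  rw [h2]
  have h5 : d = 2 := by exact_mod_cast h4
  rw [h5]
  rfl

theorem NModel.exists_isMin (V : ValuationSubring K) (hV : ∀ c : k, algebraMap k K c ∈ V) :
    ∃ s, M.IsMin V s := by
  obtain ⟨s, hs, hs0, h⟩ := np_exists_min M.W M.fg M.ne V hV
  exact ⟨s, hs, hs0, h⟩

end chart

end Pool.Agent.K1
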