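import Pool.Agent.K1.NModelDef
import Pool.Agent.K1.L2Smooth
import Pool.Agent.K1.L2Regular

/-!
Theorem N, N09: generic regularity of an affine surface over an algebraically closed field.
-/

set_option autoImplicit false

open scoped nonZeroDivisors

namespace Pool.Agent.K1

/-- A closed point of a surface whose maximal ideal is generated by two functions modulo its square
is regular. -/
theorem ng_regPt_of_two {k A : Type} [Field k] [IsAlgClosed k] [CommRing A] [IsDomain A]
    [Algebra k A] [Algebra.FiniteType k A] (hdim : ringKrullDim A = 2) (z : A →ₐ[k] k)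
    (τ₁ τ₂ : A) (h₁ : z τ₁ = 0) (h₂ : z τ₂ = 0)
    (h : RingHom.ker z ≤ Ideal.span {τ₁, τ₂} ⊔ (RingHom.ker z) ^ 2) : RegPt z := by
  have hN : IsNoetherianRing A := Algebra.FiniteType.isNoetherianRing k A
  have hsurj : Function.Surjective z := fun c => ⟨algebraMap k A c, by
    rw [AlgHom.commutes]
    rfl⟩
  have hmax : (RingHom.ker z).IsMaximal := RingHom.ker_isMaximal_of_surjective z hsurj
  let L := LocAt z
  have hNL : IsNoetherianRing L := IsLocalization.isNoetherianRing (RingHom.ker z).primeCompl L hN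
  have hmL : (RingHom.ker z).map (algebraMap A L) = IsLocalRing.maximalIdeal L :=
    Localization.AtPrime.map_eq_maximalIdeal
  have hle : IsLocalRing.maximalIdeal L ≤
      Ideal.span {algebraMap A L τ₁, algebraMap A L τ₂} ⊔
        IsLocalRing.maximalIdeal L • IsLocalRing.maximalIdeal L := by
    have h3 := Ideal.map_mono (f := algebraMap A L) h
    rw [Ideal.map_sup, Ideal.map_pow, Ideal.map_span, Set.image_pair, hmL, pow_two] at h3
    exact h3
  have hspan : IsLocalRing.maximalIdeal L =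
      Ideal.span {algebraMap A L τ₁, algebraMap A L τ₂} := by
    apply le_antisymm
    · exact Submodule.le_of_le_smul_of_le_jacobson_bot (IsNoetherian.noetherian _)
        (IsLocalRing.maximalIdeal_le_jacobson _) hle
    · rw [Ideal.span_le, ← hmL]
      rintro x (rfl | rfl)
      · exact Ideal.mem_map_of_mem _ h₁
      · exact Ideal.mem_map_of_mem _ h₂
  refine IsRegularLocalRing.of_spanFinrank_maximalIdeal_le (R := L) ?_
  have h4 : ringKrullDim L = (RingHom.ker z).height :=
    IsLocalization.AtPrime.ringKrullDim_eq_height (RingHom.ker z) L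
  have h5 : (RingHom.ker z).height = 2 := height_of_maximal (k := k) hdim (RingHom.ker z)
  have h6 : (IsLocalRing.maximalIdeal L).spanFinrank ≤ 2 := by
    rw [hspan]
    refine (Submodule.spanFinrank_span_le_ncard_of_finite (Set.toFinite _)).trans
      ((Set.ncard_insert_le _ _).trans ?_)
    rw [Set.ncard_singleton]
  rw [h4, h5]
  exact_mod_cast h6

/-- The differentials of an affine surface are generically generated by two of them. -/
theorem ng_kaehler {k A : Type} [Field k] [IsAlgClosed k] [CommRing A] [IsDomain A] [Algebra k A]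
    [Algebra.FiniteType k A] (hdim : ringKrullDim A = 2) :
    ∃ (ω₁ ω₂ : KaehlerDifferential k A) (h : A), h ≠ 0 ∧ ∀ c : A, ∃ a₁ a₂ : A,
      h • KaehlerDifferential.D k A c = a₁ • ω₁ + a₂ • ω₂ := by
  classical
  set F := FractionRing A with hF
  have hess : Algebra.EssFiniteType k F := inferInstance
  obtain ⟨s, hs, hsep⟩ :=
    exists_isTranscendenceBasis_and_isSeparable_of_perfectField k F
  have hcard : s.card = 2 := by
    obtain ⟨t, ht⟩ := exists_isTranscendenceBasis k A
    have : Algebra.IsAlgebraic A F := IsLocalization.isAlgebraic F A⁰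
    have h1 := ht.algebraMap_comp (A := F)
    have h2 := hs.cardinalMk_eq h1
    have h3 := ht.cardinalMk_eq_trdeg
    rw [trdeg_of_dim hdim] at h3
    rw [h3] at h2
    have h4 : ((s.card : ℕ) : Cardinal) = 2 := by
      rw [← h2]
      simp
    exact_mod_cast h4
  obtain ⟨y₁, y₂, -, hs2⟩ := Finset.card_eq_two.1 hcard
  have hspan := kaehler_span (s : Set F) hsep
  have hspan2 : Submodule.span F {KaehlerDifferential.D k F y₁, KaehlerDifferential.D k F y₂} =
      ⊤ := by
    rw [eq_top_iff, ← hspan, Submodule.span_le]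
    rintro _ ⟨x, hx, rfl⟩
    rw [hs2, Finset.coe_insert, Finset.coe_singleton] at hx
    rcases hx with hx | hx
    · rw [hx]
      exact Submodule.subset_span (Or.inl rfl)
    · rw [hx]
      exact Submodule.subset_span (Or.inr rfl)
  set φ := KaehlerDifferential.map k k A F with hφ
  have hloc : IsLocalizedModule A⁰ φ := KaehlerDifferential.isLocalizedModule_map k A F A⁰
  obtain ⟨⟨ω₁, b₁⟩, hω₁⟩ := IsLocalizedModule.surj A⁰ φ (KaehlerDifferential.D k F y₁)
  obtain ⟨⟨ω₂, b₂⟩, hω₂⟩ := IsLocalizedModule.surj A⁰ φ (KaehlerDifferential.D k F y₂)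
  have hω₁' : (b₁ : A) • KaehlerDifferential.D k F y₁ = φ ω₁ := hω₁
  have hω₂' : (b₂ : A) • KaehlerDifferential.D k F y₂ = φ ω₂ := hω₂
  have hnz : ∀ b : A⁰, algebraMap A F b ≠ 0 := by
    intro b h
    exact nonZeroDivisors.coe_ne_zero b ((FaithfulSMul.algebraMap_injective A F)
      (by rw [h, map_zero]))
  have hq : ∀ m : KaehlerDifferential k F, ∃ q₁ q₂ : F, m = q₁ • φ ω₁ + q₂ • φ ω₂ := by
    intro m
    have hm : m ∈ Submodule.span F {KaehlerDifferential.D k F y₁,
        KaehlerDifferential.D k F y₂} := by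
      rw [hspan2]
      exact Submodule.mem_top
    obtain ⟨p₁, p₂, hp⟩ := Submodule.mem_span_pair.1 hm
    refine ⟨p₁ / algebraMap A F b₁, p₂ / algebraMap A F b₂, ?_⟩
    rw [← hω₁', ← hω₂', ← algebraMap_smul F (b₁ : A), ← algebraMap_smul F (b₂ : A), smul_smul,
      smul_smul, div_mul_cancel₀ _ (hnz b₁), div_mul_cancel₀ _ (hnz b₂), hp]
  have htors : Module.IsTorsion A
      (KaehlerDifferential k A ⧸ Submodule.span A {ω₁, ω₂}) := by
    intro m
    obtain ⟨m, rfl⟩ := Submodule.Quotient.mk_surjective _ m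
    obtain ⟨q₁, q₂, hq⟩ := hq (φ m)
    obtain ⟨a₁, c₁, rfl⟩ := IsLocalization.exists_mk'_eq A⁰ q₁
    obtain ⟨a₂, c₂, rfl⟩ := IsLocalization.exists_mk'_eq A⁰ q₂
    have h1 : φ (((c₁ : A) * (c₂ : A)) • m) = φ ((c₂ * a₁) • ω₁ + (c₁ * a₂) • ω₂) := by
      rw [map_add, map_smul, map_smul, map_smul, hq, smul_add,
        ← algebraMap_smul F ((c₁ : A) * (c₂ : A)),
        ← algebraMap_smul F ((c₂ : A) * a₁), ← algebraMap_smul F ((c₁ : A) * a₂),
        ← algebraMap_smul F ((c₁ : A) * (c₂ : A)), smul_smul, smul_smul]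
      have e1 : algebraMap A F ((c₁ : A) * (c₂ : A)) * IsLocalization.mk' F a₁ c₁ =
          algebraMap A F ((c₂ : A) * a₁) := by
        rw [map_mul, map_mul, mul_comm (algebraMap A F c₁), mul_assoc,
          IsLocalization.mk'_spec']
      have e2 : algebraMap A F ((c₁ : A) * (c₂ : A)) * IsLocalization.mk' F a₂ c₂ =
          algebraMap A F ((c₁ : A) * a₂) := by
        rw [map_mul, map_mul, mul_assoc, IsLocalization.mk'_spec']
      rw [e1, e2]
    obtain ⟨e, he⟩ := (IsLocalizedModule.eq_iff_exists A⁰ φ).mp h1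
    have he' : (e : A) • (((c₁ : A) * (c₂ : A)) • m) =
        (e : A) • ((c₂ * a₁) • ω₁ + (c₁ * a₂) • ω₂) := he
    refine ⟨e * (c₁ * c₂), ?_⟩
    change ((e : A) * ((c₁ : A) * (c₂ : A))) • Submodule.Quotient.mk m =
      (0 : KaehlerDifferential k A ⧸ Submodule.span A {ω₁, ω₂})
    rw [← Submodule.Quotient.mk_smul, Submodule.Quotient.mk_eq_zero, mul_smul, he',
      Submodule.mem_span_pair]
    exact ⟨(e : A) * (c₂ * a₁), (e : A) * (c₁ * a₂), by rw [smul_add, smul_smul, smul_smul]⟩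
  obtain ⟨h, hh1, hh2⟩ := Submodule.annihilator_top_inter_nonZeroDivisors htors
  refine ⟨ω₁, ω₂, h, nonZeroDivisors.ne_zero hh2, ?_⟩
  intro c
  have h1 := Submodule.mem_annihilator.mp hh1 (Submodule.Quotient.mk (KaehlerDifferential.D k A c))
    Submodule.mem_top
  rw [← Submodule.Quotient.mk_smul, Submodule.Quotient.mk_eq_zero,
    Submodule.mem_span_pair] at h1
  obtain ⟨a₁, a₂, ha⟩ := h1
  exact ⟨a₁, a₂, ha.symm⟩

theorem gen_reg2 {k A : Type} [Field k] [IsAlgClosed k] [CommRing A] [IsDomain A] [Algebra k A]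
    [Algebra.FiniteType k A] (hdim : ringKrullDim A = 2) :
    ∃ g : A, g ≠ 0 ∧ ∀ z : A →ₐ[k] k, z g ≠ 0 → RegPt z := by
  obtain ⟨ω₁, ω₂, h, hh, hω⟩ := ng_kaehler (k := k) hdim
  refine ⟨h, hh, fun z hz => ?_⟩
  obtain ⟨τ₁, hτ₁⟩ := Ideal.toCotangent_surjective _ ((ptDer z).liftKaehlerDifferential ω₁)
  obtain ⟨τ₂, hτ₂⟩ := Ideal.toCotangent_surjective _ ((ptDer z).liftKaehlerDifferential ω₂)
  refine ng_regPt_of_two hdim z τ₁ τ₂ τ₁.2 τ₂.2 ?_
  intro c hc
  obtain ⟨a₁, a₂, ha⟩ := hω c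
  have h1 := congrArg (ptDer z).liftKaehlerDifferential ha
  rw [map_add, map_smul, map_smul, map_smul, Derivation.liftKaehlerDifferential_comp_D, ← hτ₁,
    ← hτ₂] at h1
  have h2 : ptDer z c = (RingHom.ker z).toCotangent ⟨c, hc⟩ := by
    change (RingHom.ker z).toCotangent _ = _
    congr 1
    ext
    change c - algebraMap k A (z c) = c
    rw [RingHom.mem_ker.mp hc, map_zero, sub_zero]
  rw [h2, ← map_smul, ← map_smul, ← map_smul, ← map_add, Ideal.toCotangent_eq] at h1
  have h3 : h * c - (a₁ * (τ₁ : A) + a₂ * (τ₂ : A)) ∈ RingHom.ker z ^ 2 := h1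
  have hhx : h - algebraMap k A (z h) ∈ RingHom.ker z := by
    rw [RingHom.mem_ker, map_sub, AlgHom.commutes]
    exact sub_self _
  have h4 : (h - algebraMap k A (z h)) * c ∈ RingHom.ker z ^ 2 := by
    rw [pow_two]
    exact Ideal.mul_mem_mul hhx hc
  have h5 : algebraMap k A (z h) * c - (a₁ * (τ₁ : A) + a₂ * (τ₂ : A)) ∈ RingHom.ker z ^ 2 := by
    have h6 := sub_mem h3 h4
    have e : algebraMap k A (z h) * c - (a₁ * (τ₁ : A) + a₂ * (τ₂ : A)) =
        h * c - (a₁ * (τ₁ : A) + a₂ * (τ₂ : A)) - (h - algebraMap k A (z h)) * c := by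
      ring
    rw [e]
    exact h6
  have h6 : c - (algebraMap k A (z h)⁻¹ * a₁ * (τ₁ : A) + algebraMap k A (z h)⁻¹ * a₂ * (τ₂ : A)) ∈
      RingHom.ker z ^ 2 := by
    have h7 := Ideal.mul_mem_left _ (algebraMap k A (z h)⁻¹) h5
    have e : c - (algebraMap k A (z h)⁻¹ * a₁ * (τ₁ : A) + algebraMap k A (z h)⁻¹ * a₂ * (τ₂ : A)) =
        algebraMap k A (z h)⁻¹ *
          (algebraMap k A (z h) * c - (a₁ * (τ₁ : A) + a₂ * (τ₂ : A))) := by
      have e2 : algebraMap k A (z h)⁻¹ * algebraMap k A (z h) = 1 := by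
        rw [← map_mul, inv_mul_cancel₀ hz, map_one]
      linear_combination (-c) * e2
    rw [e]
    exact h7
  rw [Submodule.mem_sup]
  refine ⟨algebraMap k A (z h)⁻¹ * a₁ * (τ₁ : A) + algebraMap k A (z h)⁻¹ * a₂ * (τ₂ : A), ?_, _,
    h6, by ring⟩
  refine add_mem (Ideal.mul_mem_left _ _ (Ideal.subset_span (Or.inl rfl)))
    (Ideal.mul_mem_left _ _ (Ideal.subset_span (Or.inr rfl)))

end Pool.Agent.K1
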