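import Pool.Agent.K1.NModelDef

/-!
Theorem N, row N10a: a function on a curve of an affine surface has finitely many zeros.
-/

set_option autoImplicit false

namespace Pool.Agent.K1

/-- A point is determined by its maximal ideal. -/
theorem nz_ker_inj {k A : Type} [Field k] [CommRing A] [Algebra k A] {z z' : A →ₐ[k] k}
    (h : RingHom.ker z = RingHom.ker z') : z = z' := by
  ext a
  have h1 : a - algebraMap k A (z a) ∈ RingHom.ker z := by
    rw [RingHom.mem_ker, map_sub, AlgHom.commutes, Algebra.algebraMap_self_apply, sub_self]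
  rw [h, RingHom.mem_ker, map_sub, AlgHom.commutes, Algebra.algebraMap_self_apply] at h1
  exact (sub_eq_zero.mp h1).symm

theorem finite_zeros {k A : Type} [Field k] [IsAlgClosed k] [CommRing A] [IsDomain A]
    [Algebra k A] [Algebra.FiniteType k A] (hdim : ringKrullDim A = 2) (P : Curve1 A) (h : A)
    (hP : h ∉ P.ideal) : {z : A →ₐ[k] k | (∀ a ∈ P.ideal, z a = 0) ∧ z h = 0}.Finite := by
  have : IsNoetherianRing A := Algebra.FiniteType.isNoetherianRing k A
  have hfin : (P.ideal ⊔ Ideal.span {h}).minimalPrimes.Finite :=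
    Ideal.finite_minimalPrimes_of_isNoetherianRing A _
  refine Set.Finite.of_finite_image (f := fun z => RingHom.ker z) (hfin.subset ?_)
    (fun z _ z' _ h => nz_ker_inj h)
  rintro _ ⟨z, ⟨hz, hzh⟩, rfl⟩
  have hle : P.ideal ⊔ Ideal.span {h} ≤ RingHom.ker z := by
    refine sup_le (fun a ha => hz a ha) ?_
    rw [Ideal.span_singleton_le_iff_mem]
    exact hzh
  have hprime : (RingHom.ker z).IsPrime := RingHom.ker_isPrime _
  refine ⟨⟨hprime, hle⟩, ?_⟩
  rintro Q ⟨hQ, hJQ⟩ hQz
  by_contra hcon
  have hlt : Q < RingHom.ker z := lt_of_le_not_ge hQz hcon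
  have hPQ : P.ideal < Q := by
    refine lt_of_le_of_ne (le_sup_left.trans hJQ) fun e => hP ?_
    rw [e]
    exact hJQ (Ideal.mem_sup_right (Ideal.mem_span_singleton_self h))
  have h1 := Ideal.height_add_one_le_of_lt_of_isPrime hPQ
  have h2 := Ideal.height_add_one_le_of_lt_of_isPrime hlt
  rw [P.height] at h1
  have h3 : (((RingHom.ker z).height : ℕ∞) : WithBot ℕ∞) ≤ ringKrullDim A :=
    Ideal.height_le_ringKrullDim_of_ne_top hprime.ne_top
  rw [hdim] at h3
  have h4 : (RingHom.ker z).height ≤ 2 := WithBot.coe_le_coe.mp h3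
  have h5 : (1 : ℕ∞) + 1 + 1 ≤ 2 := (add_le_add_left h1 1).trans (h2.trans h4)
  exact absurd h5 (by decide)

end Pool.Agent.K1
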