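import Pool.Agent.K1.NNormal
import Pool.Agent.K1.NGenReg
import Pool.Agent.K1.NZeros
import Pool.Agent.K1.L2Smooth
import Pool.Agent.K1.L2Regular

/-!
K1, Theorem N, row N10b: a normal surface has finitely many singular points.
-/

set_option autoImplicit false

open IsLocalRing

namespace Pool.Agent.K1

/-- A two-dimensional local ring is regular if two elements generate the cotangent space. -/
theorem nf_regular_local {R : Type} [CommRing R] [IsLocalRing R] [IsNoetherianRing R]
    (hd : ringKrullDim R = 2) (u v : R) (hu : u ∈ maximalIdeal R) (hv : v ∈ maximalIdeal R)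
    (h : maximalIdeal R ≤ Ideal.span {u, v} ⊔ maximalIdeal R ^ 2) : IsRegularLocalRing R := by
  have h1 : maximalIdeal R ≤ Ideal.span {u, v} := by
    refine Submodule.le_of_le_smul_of_le_jacobson_bot (I := maximalIdeal R)
      (IsNoetherian.noetherian _) (IsLocalRing.maximalIdeal_le_jacobson _) ?_
    rw [pow_two] at h
    exact h
  have h2 : maximalIdeal R = Ideal.span {u, v} := by
    apply le_antisymm h1
    rw [Ideal.span_le]
    intro x hx
    rcases hx with rfl | rfl
    · exact hu
    · exact hv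
  apply IsRegularLocalRing.of_spanFinrank_maximalIdeal_le
  rw [hd, h2]
  have h3 := Submodule.spanFinrank_span_le_ncard_of_finite (R := R) (M := R)
    (s := {u, v}) (Set.toFinite _)
  have h4 : ({u, v} : Set R).ncard ≤ 2 := Set.ncard_insert_le _ _ |>.trans (by simp)
  exact_mod_cast h3.trans h4

/-- A point of a surface is regular if two functions generate the cotangent space of its local
ring. -/
theorem nf_regPt {k A : Type} [Field k] [CommRing A] [IsDomain A] [Algebra k A]
    [Algebra.FiniteType k A] (hdim : ringKrullDim A = 2) (z : A →ₐ[k] k) (u v : A)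
    (hu : z u = 0) (hv : z v = 0)
    (h : ∀ a : A, z a = 0 → algebraMap A (LocAt z) a ∈
      Ideal.span {algebraMap A (LocAt z) u, algebraMap A (LocAt z) v} ⊔
        maximalIdeal (LocAt z) ^ 2) : RegPt z := by
  have hN : IsNoetherianRing A := Algebra.FiniteType.isNoetherianRing k A
  have hmax : (RingHom.ker z).IsMaximal :=
    RingHom.ker_isMaximal_of_surjective z (fun c => ⟨algebraMap k A c, by simp⟩)
  have hd : ringKrullDim (LocAt z) = 2 := by
    rw [IsLocalization.AtPrime.ringKrullDim_eq_height (RingHom.ker z) (LocAt z),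
      height_of_maximal (k := k) hdim]
    rfl
  have hm : maximalIdeal (LocAt z) = (RingHom.ker z).map (algebraMap A (LocAt z)) :=
    (Localization.AtPrime.map_eq_maximalIdeal).symm
  have hmem : ∀ a : A, z a = 0 → algebraMap A (LocAt z) a ∈ maximalIdeal (LocAt z) := by
    intro a ha
    rw [hm]
    exact Ideal.mem_map_of_mem _ ha
  refine nf_regular_local hd _ _ (hmem u hu) (hmem v hv) ?_
  conv_lhs => rw [hm]
  rw [Ideal.map_le_iff_le_comap]
  intro a ha
  exact h a ha

/-- cotangent spaces of an affine curve are generated by one element, off a function -/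
theorem nf_cot {k C : Type} [Field k] [CommRing C] [Algebra k C] (x : C →ₐ[k] k)
    (ω : KaehlerDifferential k C) (h : C) (hx : x h ≠ 0)
    (hω : ∀ c : C, ∃ a : C, h • KaehlerDifferential.D k C c = a • ω) :
    ∃ τ : C, x τ = 0 ∧ RingHom.ker x ≤ Ideal.span {τ} ⊔ (RingHom.ker x) ^ 2 := by
  obtain ⟨τ, hτ⟩ := Ideal.toCotangent_surjective _ ((ptDer x).liftKaehlerDifferential ω)
  refine ⟨τ, τ.2, ?_⟩
  intro c hc
  obtain ⟨a, ha⟩ := hω c
  have h1 := congrArg (ptDer x).liftKaehlerDifferential ha
  rw [map_smul, map_smul, Derivation.liftKaehlerDifferential_comp_D, ← hτ] at h1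
  have h2 : ptDer x c = (RingHom.ker x).toCotangent ⟨c, hc⟩ := by
    show (RingHom.ker x).toCotangent _ = _
    congr 1
    ext
    show c - algebraMap k C (x c) = c
    rw [RingHom.mem_ker.mp hc, map_zero, sub_zero]
  rw [h2, ← map_smul, ← map_smul, Ideal.toCotangent_eq] at h1
  have h3 : h * c - a * (τ : C) ∈ RingHom.ker x ^ 2 := h1
  have hhx : h - algebraMap k C (x h) ∈ RingHom.ker x := by
    rw [RingHom.mem_ker, map_sub, AlgHom.commutes]
    exact sub_self _
  have h4 : (h - algebraMap k C (x h)) * c ∈ RingHom.ker x ^ 2 := by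
    rw [pow_two]
    exact Ideal.mul_mem_mul hhx hc
  have h5 : algebraMap k C (x h) * c - a * (τ : C) ∈ RingHom.ker x ^ 2 := by
    have := sub_mem h3 h4
    convert this using 1
    ring
  have h6 : c - (algebraMap k C (x h)⁻¹ * a) * (τ : C) ∈ RingHom.ker x ^ 2 := by
    have := Ideal.mul_mem_left _ (algebraMap k C (x h)⁻¹) h5
    convert this using 1
    rw [mul_sub, ← mul_assoc, ← map_mul, inv_mul_cancel₀ hx, map_one, one_mul, mul_assoc]
  rw [Submodule.mem_sup]
  exact ⟨(algebraMap k C (x h)⁻¹ * a) * (τ : C), Ideal.mul_mem_left _ _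
    (Ideal.mem_span_singleton_self _), _, h6, by ring⟩

/-- a curve on a surface has transcendence degree at most one -/
theorem nf_hdep {k A : Type} [Field k] [CommRing A] [IsDomain A] [Algebra k A]
    [Algebra.FiniteType k A] (hdim : ringKrullDim A = 2) (P : Ideal A) [P.IsPrime] (hP : P ≠ ⊥)
    (a b : A ⧸ P) : ¬ AlgebraicIndependent k ![a, b] := by
  intro hab
  obtain ⟨p, hp, hp0⟩ := Submodule.exists_mem_ne_zero_of_ne_bot hP
  obtain ⟨s, -, h2, h3⟩ := L2R_key (k := k) (A := A ⧸ P)
  have h4 : ringKrullDim (A ⧸ P) + 1 ≤ ringKrullDim A :=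
    ringKrullDim_succ_le_of_surjective (Ideal.Quotient.mk P) Ideal.Quotient.mk_surjective
      (mem_nonZeroDivisors_of_ne_zero hp0) (Ideal.Quotient.eq_zero_iff_mem.2 hp)
  rw [h2, hdim] at h4
  have h5 : s + 1 ≤ 2 := by exact_mod_cast h4
  have h6 := hab.cardinalMk_le_trdeg
  rw [h3] at h6
  have h7 : (2 : ℕ) ≤ s := by
    have : Cardinal.mk (Fin 2) = ((2 : ℕ) : Cardinal) := by simp
    rw [this] at h6
    exact_mod_cast h6
  omega

/-- a curve on a normal surface is principal off a function -/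
theorem nf_principal {A : Type} [CommRing A] [IsDomain A] [IsNoetherianRing A] (P : Ideal A)
    [P.IsPrime] (hP : IsDiscreteValuationRing (Localization.AtPrime P)) :
    ∃ π ∈ P, ∃ h ∉ P, ∀ p ∈ P, ∃ c : A, h * p = c * π := by
  obtain ⟨ϖ, hϖ⟩ := (IsPrincipalIdealRing.principal (maximalIdeal (Localization.AtPrime P))).principal
  obtain ⟨⟨a, s⟩, has⟩ := IsLocalization.surj P.primeCompl ϖ
  have hs : IsUnit (algebraMap A (Localization.AtPrime P) s) :=
    IsLocalization.map_units _ s
  have ha : maximalIdeal (Localization.AtPrime P) =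
      Ideal.span {algebraMap A (Localization.AtPrime P) a} := by
    rw [hϖ, ← has]
    exact (Ideal.span_singleton_mul_right_unit hs ϖ).symm
  have haP : a ∈ P := by
    have h1 : algebraMap A (Localization.AtPrime P) a ∈ maximalIdeal (Localization.AtPrime P) := by
      rw [ha]
      exact Ideal.mem_span_singleton_self _
    exact (IsLocalization.AtPrime.to_map_mem_maximal_iff (Localization.AtPrime P) P a).1 h1
  have hone : ∀ p ∈ P, ∃ b ∉ P, ∃ c : A, b * p = c * a := by
    intro p hp
    have h1 : algebraMap A (Localization.AtPrime P) p ∈ maximalIdeal (Localization.AtPrime P) :=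
      (IsLocalization.AtPrime.to_map_mem_maximal_iff (Localization.AtPrime P) P p).2 hp
    rw [ha, Ideal.mem_span_singleton'] at h1
    obtain ⟨q, hq⟩ := h1
    obtain ⟨⟨c, t⟩, hct⟩ := IsLocalization.surj P.primeCompl q
    have h2 : algebraMap A (Localization.AtPrime P) (t * p) =
        algebraMap A (Localization.AtPrime P) (c * a) := by
      rw [map_mul, map_mul, ← hq, ← hct]
      ring
    obtain ⟨r, hr⟩ := (IsLocalization.eq_iff_exists P.primeCompl (Localization.AtPrime P)).1 h2
    refine ⟨r * t, (r * t).2, r * c, ?_⟩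
    rw [mul_assoc, mul_assoc]
    exact hr
  obtain ⟨S, hS⟩ := (IsNoetherian.noetherian P : P.FG)
  have hSP : ∀ p ∈ S, p ∈ P := fun p hp => hS ▸ Submodule.subset_span hp
  choose! b hb c hc using fun p (hp : p ∈ P) => hone p hp
  refine ⟨a, haP, ∏ p ∈ S, b p, ?_, ?_⟩
  · intro h
    obtain ⟨p, hp, hp'⟩ := (Ideal.IsPrime.prod_mem_iff (p := P)).1 h
    exact hb p (hSP p hp) hp'
  · intro p hp
    rw [← hS] at hp
    induction hp using Submodule.span_induction with
    | mem x hx =>
      obtain ⟨e, he⟩ := Finset.dvd_prod_of_mem b (show x ∈ S from hx)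
      refine ⟨e * c x, ?_⟩
      rw [he, mul_comm (b x) e, mul_assoc, hc x (hSP x hx), mul_assoc]
    | zero => exact ⟨0, by ring⟩
    | add x y _ _ hx hy =>
      obtain ⟨c1, h1⟩ := hx
      obtain ⟨c2, h2⟩ := hy
      exact ⟨c1 + c2, by rw [mul_add, h1, h2]; ring⟩
    | smul r x _ hx =>
      obtain ⟨c1, h1⟩ := hx
      exact ⟨r * c1, by rw [smul_eq_mul, mul_left_comm, h1, mul_assoc]⟩

/-- generic regularity along a curve -/
theorem gen_reg_curve {k A : Type} [Field k] [IsAlgClosed k] [CommRing A] [IsDomain A]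
    [Algebra k A] [Algebra.FiniteType k A] [IsIntegrallyClosed A] (hdim : ringKrullDim A = 2)
    (P : Curve1 A) : ∃ h : A, h ∉ P.ideal ∧
      ∀ z : A →ₐ[k] k, (∀ a ∈ P.ideal, z a = 0) → z h ≠ 0 → RegPt z := by
  have hN : IsNoetherianRing A := Algebra.FiniteType.isNoetherianRing k A
  have hPbot : P.ideal ≠ ⊥ := by
    intro h
    have h1 := P.height
    rw [h, Ideal.height_bot] at h1
    exact zero_ne_one h1
  obtain ⟨ω, h₁, hh₁, hω⟩ := exists_kaehler_generator (k := k) (C := A ⧸ P.ideal)
    (nf_hdep hdim P.ideal hPbot)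
  obtain ⟨h₁', rfl⟩ := Ideal.Quotient.mk_surjective h₁
  obtain ⟨π, hπ, h₂, hh₂, hP⟩ := nf_principal P.ideal (nn_dvr P.ideal P.height)
  refine ⟨h₁' * h₂, ?_, ?_⟩
  · intro h
    rcases P.isPrime.mem_or_mem h with h | h
    · exact hh₁ (Ideal.Quotient.eq_zero_iff_mem.2 h)
    · exact hh₂ h
  · intro z hz hzh
    rw [map_mul] at hzh
    have hz1 := left_ne_zero_of_mul hzh
    have hz2 := right_ne_zero_of_mul hzh
    set y : A ⧸ P.ideal →ₐ[k] k := Ideal.Quotient.liftₐ P.ideal z hz with hy
    have hyz : ∀ a : A, y (Ideal.Quotient.mk P.ideal a) = z a := fun a => rfl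
    obtain ⟨τ, hτ, hcot⟩ := nf_cot y ω _ (by rw [hyz]; exact hz1) hω
    obtain ⟨τ', rfl⟩ := Ideal.Quotient.mk_surjective τ
    rw [hyz] at hτ
    have hmap : RingHom.ker y = (RingHom.ker z).map (Ideal.Quotient.mk P.ideal) := by
      apply le_antisymm
      · intro b hb
        obtain ⟨a, rfl⟩ := Ideal.Quotient.mk_surjective b
        exact Ideal.mem_map_of_mem _ hb
      · rw [Ideal.map_le_iff_le_comap]
        intro a ha
        exact ha
    have hm : maximalIdeal (LocAt z) = (RingHom.ker z).map (algebraMap A (LocAt z)) :=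
      (Localization.AtPrime.map_eq_maximalIdeal).symm
    refine nf_regPt hdim z τ' π hτ (hz π hπ) ?_
    intro a ha
    have h1 : Ideal.Quotient.mk P.ideal a ∈ RingHom.ker y := ha
    have h2 := hcot h1
    rw [Submodule.mem_sup] at h2
    obtain ⟨b, hb, e, he, hbe⟩ := h2
    rw [Ideal.mem_span_singleton'] at hb
    obtain ⟨c, rfl⟩ := hb
    obtain ⟨c', rfl⟩ := Ideal.Quotient.mk_surjective c
    rw [hmap, ← Ideal.map_pow, Ideal.mem_map_iff_of_surjective _ Ideal.Quotient.mk_surjective] at he
    obtain ⟨e', he', rfl⟩ := he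
    have h3 : a - (c' * τ' + e') ∈ P.ideal := by
      rw [← Ideal.Quotient.eq_zero_iff_mem, map_sub, map_add, map_mul, ← hbe, sub_self]
    obtain ⟨c2, hc2⟩ := hP _ h3
    have hu : IsUnit (algebraMap A (LocAt z) h₂) :=
      IsLocalization.map_units (LocAt z) (⟨h₂, hz2⟩ : (RingHom.ker z).primeCompl)
    have h4 : algebraMap A (LocAt z) (a - (c' * τ' + e')) ∈
        Ideal.span {algebraMap A (LocAt z) τ', algebraMap A (LocAt z) π} := by
      rw [← Ideal.unit_mul_mem_iff_mem _ hu, ← map_mul, hc2, map_mul]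
      exact Ideal.mul_mem_left _ _ (Ideal.subset_span (by simp))
    have h5 : algebraMap A (LocAt z) a = algebraMap A (LocAt z) (a - (c' * τ' + e')) +
        algebraMap A (LocAt z) c' * algebraMap A (LocAt z) τ' + algebraMap A (LocAt z) e' := by
      rw [← map_mul, ← map_add, ← map_add]
      congr 1
      ring
    rw [h5]
    refine Submodule.add_mem_sup (Ideal.add_mem _ h4
      (Ideal.mul_mem_left _ _ (Ideal.subset_span (by simp)))) ?_
    rw [hm, ← Ideal.map_pow]
    exact Ideal.mem_map_of_mem _ he'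

theorem finite_not_regPt {k A : Type} [Field k] [IsAlgClosed k] [CommRing A] [IsDomain A]
    [Algebra k A] [Algebra.FiniteType k A] [IsIntegrallyClosed A] (hdim : ringKrullDim A = 2) :
    {z : A →ₐ[k] k | ¬ RegPt z}.Finite := by
  have hN : IsNoetherianRing A := Algebra.FiniteType.isNoetherianRing k A
  obtain ⟨g, hg0, hg⟩ := gen_reg2 (k := k) hdim
  have hfin : (Ideal.span {g}).minimalPrimes.Finite :=
    Ideal.finite_minimalPrimes_of_isNoetherianRing A _
  have hkey : ∀ Q ∈ (Ideal.span {g}).minimalPrimes,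
      {z : A →ₐ[k] k | (∀ a ∈ Q, z a = 0) ∧ ¬ RegPt z}.Finite := by
    intro Q hQ
    have hQp : Q.IsPrime := hQ.1.1
    have hgQ : g ∈ Q := hQ.1.2 (Ideal.mem_span_singleton_self g)
    have h1 : Q.height ≤ 1 := Ideal.height_le_one_of_isPrincipal_of_mem_minimalPrimes
      (Ideal.span {g}) Q hQ
    have h2 : Q.height ≠ 0 := by
      intro h
      rw [Ideal.height_eq_zero_iff_eq_bot] at h
      rw [h] at hgQ
      exact hg0 hgQ
    have h3 : Q.height = 1 := le_antisymm h1 (Order.one_le_iff_ne_zero.2 h2)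
    let P : Curve1 A := ⟨Q, hQp, h3⟩
    obtain ⟨h, hh, hreg⟩ := gen_reg_curve (k := k) hdim P
    refine (finite_zeros hdim P h hh).subset ?_
    rintro z ⟨hz1, hz2⟩
    refine ⟨hz1, ?_⟩
    by_contra hzh
    exact hz2 (hreg z hz1 hzh)
  refine (hfin.biUnion hkey).subset ?_
  intro z hz
  have hzg : z g = 0 := by
    by_contra h
    exact hz (hg z h)
  obtain ⟨Q, hQ, hQz⟩ := Ideal.exists_minimalPrimes_le (I := Ideal.span {g})
    (J := RingHom.ker z) (by rw [Ideal.span_singleton_le_iff_mem]; exact hzg)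
  simp only [Set.mem_iUnion, Set.mem_ofPred_eq]
  exact ⟨Q, hQ, fun a ha => hQz ha, hz⟩

end Pool.Agent.K1
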