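import Pool.Agent.K1.NPoint2a
import Pool.Agent.K1.NChart
import Pool.Agent.K1.NFinReg

/-!
Theorem N, row N11b: points of a normal model, part II.
-/

set_option autoImplicit false

namespace Pool.Agent.K1

section points

variable {k K : Type} [Field k] [Field K] [Algebra k K] (M : NModel k K)

/-- The forms which vanish along a curve form a subspace. -/
theorem NModel.exists_subspace_curve {V : ValuationSubring K}
    (hV : ∀ c : k, algebraMap k K c ∈ V) :
    ∃ H : Submodule k K, ∀ x ∈ M.W, x ∈ H ↔ ¬ M.IsMin V x := by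
  obtain ⟨s, hs⟩ := M.exists_isMin V hV
  have hsW : s ∈ M.W := hs.1
  have hs0 : s ≠ 0 := hs.2.1
  refine ⟨{ carrier := {x | x / s ∈ V.nonunits}
            add_mem' := ?_
            zero_mem' := ?_
            smul_mem' := ?_ }, fun x hx => ?_⟩
  · intro a b ha hb
    simp only [Set.mem_ofPred_eq, ValuationSubring.mem_nonunits_iff, add_div] at ha hb ⊢
    exact lt_of_le_of_lt (Valuation.map_add _ _ _) (max_lt ha hb)
  · simp only [Set.mem_ofPred_eq, ValuationSubring.mem_nonunits_iff, zero_div, map_zero]
    exact zero_lt_one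
  · intro c a ha
    simp only [Set.mem_ofPred_eq, ValuationSubring.mem_nonunits_iff] at ha ⊢
    rw [Algebra.smul_def, mul_div_assoc, map_mul]
    exact lt_of_le_of_lt
      (mul_le_of_le_one_left' ((ValuationSubring.valuation_le_one_iff _ _).2 (hV c))) ha
  · show x / s ∈ V.nonunits ↔ _
    rw [ValuationSubring.mem_nonunits_iff]
    constructor
    · intro h1 h2
      have h3 : s / x ∈ V := h2.2.2 s hsW
      rw [← ValuationSubring.valuation_le_one_iff] at h3
      have h4 : V.valuation (x / s) * V.valuation (s / x) = 1 := by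
        rw [← map_mul, div_mul_div_cancel₀ hs0, div_self h2.2.1, map_one]
      have h5 : V.valuation (x / s) * V.valuation (s / x) < 1 := mul_lt_one_of_lt_of_le h1 h3
      rw [h4] at h5
      exact lt_irrefl _ h5
    · intro h1
      by_contra hnu
      rw [not_lt] at hnu
      apply h1
      have hx0 : x ≠ 0 := by
        rintro rfl
        rw [zero_div, map_zero] at hnu
        exact absurd hnu (not_le.2 zero_lt_one)
      have hinv : (x / s)⁻¹ ∈ V := by
        rw [← ValuationSubring.valuation_le_one_iff, map_inv₀]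
        exact inv_le_one_of_one_le₀ hnu
      refine ⟨hx, hx0, fun w hw => ?_⟩
      have : w / x = w / s * (x / s)⁻¹ := by
        field_simp
      rw [this]
      exact V.mul_mem _ _ (hs.2.2 w hw) hinv

/-- The singular points of a model. -/
theorem NModel.finite_singular [IsAlgClosed k] (htr : Algebra.trdeg k K = 2) :
    {O : Subring K | M.IsPoint O ∧ ¬ IsRegularLocalRing O}.Finite := by
  obtain ⟨S, hS⟩ := M.fg
  have hSW : ∀ s ∈ S, s ∈ M.W := fun s hs => hS ▸ Submodule.subset_span hs
  have hfin : ∀ s : K, s ∈ M.W → s ≠ 0 →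
      ({O : Subring K | ∃ z : M.chart s →ₐ[k] k, ¬ RegPt z ∧ ptRing K z = O}).Finite := by
    intro s hs hs0
    have := M.isFractionRing_chart hs hs0
    have := M.isIntegrallyClosed_chart hs hs0
    have := M.finiteType_chart s
    have h1 := finite_not_regPt (k := k) (M.dim_chart hs hs0 htr)
    refine (h1.image (fun z => ptRing K z)).subset ?_
    rintro O ⟨z, hz, rfl⟩
    exact ⟨z, hz, rfl⟩
  have hU : (⋃ s ∈ {s ∈ (S : Set K) | s ≠ 0},
      {O : Subring K | ∃ z : M.chart s →ₐ[k] k, ¬ RegPt z ∧ ptRing K z = O}).Finite := by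
    apply Set.Finite.biUnion
    · exact S.finite_toSet.subset (fun s hs => hs.1)
    · intro s hs
      exact hfin s (hSW s hs.1) hs.2
  refine hU.subset ?_
  rintro O ⟨hO, hreg⟩
  obtain ⟨s, hsS, hsO⟩ := M.exists_isMinO hO S hS
  obtain ⟨z, hz⟩ := M.exists_chart_point hO hsO
  have := M.isFractionRing_chart hsO.1 hsO.2.1
  refine Set.mem_iUnion₂.2 ⟨s, ⟨hsS, hsO.2.1⟩, z, ?_, hz⟩
  subst hz
  intro h
  exact hreg ((regPt_iff (K := K) z).1 h)

end points

end Pool.Agent.K1
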