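import Pool.Agent.K1.NPow
import Pool.Agent.K1.NPoint2

/-!
Theorem N: linear systems with finitely many base points.
-/

set_option autoImplicit false

namespace Pool.Agent.K1

section base

variable {k K : Type} [Field k] [Field K] [Algebra k K] (M : NModel k K)

theorem ns_const_mem {O : Subring K} (hO : M.IsPoint O) (c : k) : algebraMap k K c ∈ O := by
  obtain ⟨s, hs, hs0, z, rfl⟩ := hO
  refine ⟨algebraMap k _ c, 1, by simp, by simp, ?_⟩
  rw [map_one, mul_one]
  rfl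

/-- If a product of linear forms does not vanish at a point, then no factor does. -/
theorem ns_isMinO_of_prod {O : Subring K} {r : ℕ} {M' : NModel k K} (hM' : M'.W = M.W ^ r)
    {s0 : K} (h0 : M.IsMinO O s0) {s : Fin r → K} (hs : ∀ i, s i ∈ M.W)
    (h : M'.IsMinO O (∏ i, s i)) (j : Fin r) : M.IsMinO O (s j) := by
  obtain ⟨-, hne, hmin⟩ := h
  have hsj : s j ≠ 0 := fun h => hne (Finset.prod_eq_zero (Finset.mem_univ j) h)
  have hs0 : s0 ≠ 0 := h0.2.1
  have h1 : s0 ^ r / ∏ i, s i ∈ O := hmin _ (hM' ▸ Submodule.pow_mem_pow _ h0.1 r)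
  have h2 : ∏ i ∈ Finset.univ.erase j, (s i / s0) ∈ O :=
    Subring.prod_mem _ fun i _ => h0.2.2 _ (hs i)
  have h3 : s0 / s j ∈ O := by
    have e : s0 / s j = (s0 ^ r / ∏ i, s i) * ∏ i ∈ Finset.univ.erase j, (s i / s0) := by
      rw [← Finset.mul_prod_erase Finset.univ s (Finset.mem_univ j)] at hne ⊢
      rw [Finset.prod_div_distrib, Finset.prod_const, Finset.card_erase_of_mem (Finset.mem_univ j),
        Finset.card_univ, Fintype.card_fin]
      have hr : s0 ^ r = s0 ^ (r - 1) * s0 := by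
        have := j.pos
        rw [← pow_succ]
        congr 1
        omega
      have hp : ∏ x ∈ Finset.univ.erase j, s x ≠ 0 := right_ne_zero_of_mul hne
      rw [hr]
      field_simp
    rw [e]
    exact O.mul_mem h1 h2
  refine ⟨hs j, hsj, fun x hx => ?_⟩
  have e : x / s j = (x / s0) * (s0 / s j) := by field_simp
  rw [e]
  exact O.mul_mem (h0.2.2 x hx) h3

/-- Elements of `W ^ j` over `s ^ j` lie in every intermediate field containing the ratios. -/
theorem ns_mem_field (F : IntermediateField k K) {s : K} (hs : ∀ x ∈ M.W, x / s ∈ F) (hs0 : s ≠ 0) :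
    ∀ (j : ℕ) (a : K), a ∈ M.W ^ j → a / s ^ j ∈ F := by
  intro j
  induction j with
  | zero =>
    intro a ha
    rw [pow_zero, Submodule.mem_one] at ha
    obtain ⟨c, rfl⟩ := ha
    rw [pow_zero, div_one]
    exact F.algebraMap_mem c
  | succ j ih =>
    intro a ha
    rw [pow_succ] at ha
    refine Submodule.mul_induction_on ha ?_ ?_
    · intro x hx y hy
      have e : x * y / s ^ (j + 1) = (x / s ^ j) * (y / s) := by
        rw [pow_succ]; field_simp
      rw [e]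
      exact F.mul_mem (ih x hx) (hs y hy)
    · intro x y hx hy
      rw [add_div]
      exact F.add_mem hx hy

theorem ns_eq_top (F : IntermediateField k K) {s : K} (hs : ∀ x ∈ M.W, x / s ∈ F)
    (hs0 : s ≠ 0) : F = ⊤ := by
  rw [eq_top_iff]
  intro f _
  obtain ⟨j, a, ha, b, hb, hb0, rfl⟩ := M.frac f
  have e : a / b = (a / s ^ j) / (b / s ^ j) := by field_simp
  rw [e]
  exact F.div_mem (ns_mem_field M F hs hs0 j a ha) (ns_mem_field M F hs hs0 j b hb)

theorem ns_adjoin_eq_top (W' : Submodule k K) (q : K) (hq : q ≠ 0)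
    (h : ∀ y ∈ M.W, y * q ∈ W') :
    IntermediateField.adjoin k {f : K | ∃ x ∈ W', ∃ y ∈ W', f = x / y} = ⊤ := by
  obtain ⟨s, hs, hs0⟩ := M.ne
  refine ns_eq_top M _ (s := s) (fun x hx => ?_) hs0
  have : x / s = (x * q) / (s * q) := by field_simp
  rw [this]
  exact IntermediateField.subset_adjoin _ _ ⟨_, h x hx, _, h s hs, rfl⟩

theorem ns_prod_mem (W : Submodule k K) : ∀ (n : ℕ) (s : Fin n → K), (∀ i, s i ∈ W) →
    ∏ i, s i ∈ W ^ n := by
  intro n
  induction n with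
  | zero =>
    intro s _
    rw [Finset.univ_eq_empty, Finset.prod_empty, pow_zero]
    exact Submodule.one_le.1 le_rfl
  | succ n ih =>
    intro s hs
    rw [Fin.prod_univ_succ, pow_succ']
    exact Submodule.mul_mem_mul (hs 0) (ih _ fun i => hs i.succ)

end base

section base

variable {k K : Type} [Field k] [IsAlgClosed k] [Field K] [Algebra k K] (M : NModel k K)

theorem ns_exists_vanishing {O : Subring K} (hO : M.IsPoint O)
    (hW : ∀ s ∈ M.W, ∃ x ∈ M.W, x ∉ Submodule.span k {s}) :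
    ∃ x ∈ M.W, x ≠ 0 ∧ ¬ M.IsMinO O x := by
  obtain ⟨s, -, hs⟩ := M.exists_isMinO hO (M.W : Set K) (Submodule.span_eq _)
  obtain ⟨H, hH, hH'⟩ := M.exists_hyperplane hO
  obtain ⟨x, hx, hxs⟩ := hW s hs.1
  obtain ⟨c, hc⟩ := hH' s hs x hx
  have hmem : x - c • s ∈ M.W := M.W.sub_mem hx (M.W.smul_mem c hs.1)
  refine ⟨x - c • s, hmem, ?_, (hH _ hmem).1 hc⟩
  intro h
  apply hxs
  rw [sub_eq_zero] at h
  rw [h]
  exact Submodule.smul_mem _ _ (Submodule.mem_span_singleton_self s)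

theorem NModel.exists_base (B Z : Set (Subring K)) (hB : B.Finite)
    (hBp : ∀ O ∈ B, M.IsPoint O) (hZp : ∀ O ∈ Z, M.IsPoint O) (hd : ∀ O ∈ Z, O ∉ B) :
    ∃ (M' : NModel k K) (W' : Submodule k K), W' ≤ M'.W ∧
      (∀ V, M'.Curve V ↔ M.Curve V) ∧ (∀ O, M'.IsPoint O ↔ M.IsPoint O) ∧
      IntermediateField.adjoin k {f : K | ∃ x ∈ W', ∃ y ∈ W', f = x / y} = ⊤ ∧
      (∀ V, M.Curve V → ∃ s ∈ W', M'.IsMin V s) ∧
      (∀ O ∈ B, ∀ x ∈ W', ¬ M'.IsMinO O x) ∧ (∀ O ∈ Z, ∃ x ∈ W', M'.IsMinO O x) := by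
  classical
  have := hB.to_subtype
  obtain ⟨m, ⟨e⟩⟩ := Finite.exists_equiv_fin B
  obtain ⟨M', hW, -, hcurve, hpoint, hmin, hminO⟩ := M.exists_pow (m + 1) (Nat.succ_pos m)
  have hH : ∀ O : B, ∃ H : Submodule k K, (∀ x ∈ M'.W, x ∈ H ↔ ¬ M'.IsMinO O.1 x) := by
    intro O
    obtain ⟨H, hH, -⟩ := M'.exists_hyperplane ((hpoint O.1).2 (hBp O.1 O.2))
    exact ⟨H, hH⟩
  choose H hH using hH
  set W' : Submodule k K := M'.W ⊓ ⨅ O : B, H O with hW'
  have hmemW' : ∀ x, x ∈ W' ↔ x ∈ M'.W ∧ ∀ O : B, ¬ M'.IsMinO O.1 x := by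
    intro x
    rw [hW', Submodule.mem_inf, Submodule.mem_iInf]
    exact ⟨fun h => ⟨h.1, fun O => (hH O x h.1).1 (h.2 O)⟩,
      fun h => ⟨h.1, fun O => (hH O x h.1).2 (h.2 O)⟩⟩
  -- products
  have hprod : ∀ (xs : Fin m → K), (∀ i, xs i ∈ M.W) → (∀ i, ¬ M.IsMinO (e.symm i).1 (xs i)) →
      ∀ y ∈ M.W, y * ∏ i, xs i ∈ W' := by
    intro xs hxs hxs' y hy
    have hall : ∀ i : Fin (m + 1), (Fin.cons y xs : Fin (m + 1) → K) i ∈ M.W := by
      intro i
      refine Fin.cases ?_ ?_ i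
      · exact hy
      · intro i; exact hxs i
    have heq : y * ∏ i, xs i = ∏ i, (Fin.cons y xs : Fin (m + 1) → K) i := by
      rw [Fin.prod_cons]
    rw [hmemW']
    refine ⟨?_, ?_⟩
    · rw [heq, hW]
      exact ns_prod_mem M.W _ _ hall
    · intro O hmO
      obtain ⟨s0, -, hs0⟩ := M.exists_isMinO (hBp O.1 O.2) (M.W : Set K) (Submodule.span_eq _)
      rw [heq] at hmO
      have h1 := ns_isMinO_of_prod M hW hs0 hall hmO (e O).succ
      rw [Fin.cons_succ] at h1
      apply hxs' (e O)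
      rw [e.symm_apply_apply]
      exact h1
  refine ⟨M', W', inf_le_left, hcurve, hpoint, ?_, ?_, ?_, ?_⟩
  · by_cases hdim : ∀ s ∈ M.W, ∃ x ∈ M.W, x ∉ Submodule.span k {s}
    · have h1 : ∀ i : Fin m, ∃ x ∈ M.W, x ≠ 0 ∧ ¬ M.IsMinO (e.symm i).1 x := fun i =>
        ns_exists_vanishing M (hBp _ (e.symm i).2) hdim
      choose xs hxs hxs0 hxs' using h1
      exact ns_adjoin_eq_top M W' (∏ i, xs i) (Finset.prod_ne_zero_iff.2 fun i _ => hxs0 i)
        (hprod xs hxs hxs')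
    · push Not at hdim
      obtain ⟨s, hs, hspan⟩ := hdim
      have hs0 : s ≠ 0 := by
        rintro rfl
        obtain ⟨t, ht, ht0⟩ := M.ne
        apply ht0
        simpa using hspan t ht
      refine ns_eq_top M _ (s := s) (fun x hx => ?_) hs0
      obtain ⟨c, rfl⟩ := Submodule.mem_span_singleton.1 (hspan x hx)
      rw [Algebra.smul_def, mul_div_assoc, div_self hs0, mul_one]
      exact IntermediateField.algebraMap_mem _ c
  · intro V hV
    have h1 : ∀ i : Fin m, ∃ x ∈ M.W, ¬ M.IsMinO (e.symm i).1 x ∧ M.IsMin V x := fun i =>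
      M.exists_separate_curve (hBp _ (e.symm i).2) hV
    choose xs hxs hxs' hxsV using h1
    obtain ⟨s, hs⟩ := hV.2.2
    refine ⟨s * ∏ i, xs i, hprod xs hxs hxs' s hs.1.1, ?_⟩
    have h2 := hmin V hV.2.1 (Fin.cons s xs) (fun i => by
      refine Fin.cases ?_ ?_ i
      · exact hs.1
      · intro i; exact hxsV i)
    rwa [Fin.prod_cons] at h2
  · intro O hO x hx
    exact ((hmemW' x).1 hx).2 ⟨O, hO⟩
  · intro O hO
    have h1 : ∀ i : Fin m, ∃ x ∈ M.W, ¬ M.IsMinO (e.symm i).1 x ∧ M.IsMinO O x := fun i =>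
      M.exists_separate (hBp _ (e.symm i).2) (hZp O hO) fun h => hd O hO (h ▸ (e.symm i).2)
    choose xs hxs hxs' hxsO using h1
    obtain ⟨s, -, hs⟩ := M.exists_isMinO (hZp O hO) (M.W : Set K) (Submodule.span_eq _)
    refine ⟨s * ∏ i, xs i, hprod xs hxs hxs' s hs.1, ?_⟩
    have h2 := hminO O (ns_const_mem M (hZp O hO)) (Fin.cons s xs) (fun i => by
      refine Fin.cases ?_ ?_ i
      · exact hs
      · intro i; exact hxsO i)
    rwa [Fin.prod_cons] at h2

end base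

end Pool.Agent.K1
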