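import Pool.Agent.K1.NModelDef

/-!
Theorem N, N02a: the valuation ring of a curve of `Spec A` in the function field.
-/

set_option autoImplicit false

namespace Pool.Agent.K1

theorem nv_nonunits {K : Type} [Field K] (V : ValuationSubring K) {f : K} (hf : f ≠ 0) :
    f ∈ V.nonunits ↔ f⁻¹ ∉ V := by
  rw [ValuationSubring.mem_nonunits_iff, ← ValuationSubring.valuation_le_one_iff, map_inv₀,
    not_le]
  exact (one_lt_inv₀ (zero_lt_iff.2 ((Valuation.ne_zero_iff _).2 hf))).symm

theorem nv_zero_nonunits {K : Type} [Field K] (V : ValuationSubring K) :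
    (0 : K) ∈ V.nonunits := by
  rw [ValuationSubring.mem_nonunits_iff, map_zero]
  exact zero_lt_one

section val

variable {A K : Type} [CommRing A] [IsDomain A] [Field K] [Algebra A K] [IsFractionRing A K]

theorem nv_total (P : Curve1 A) (hP : IsDiscreteValuationRing (Localization.AtPrime P.ideal))
    (a b : A) : (∃ c d : A, d ∉ P.ideal ∧ a * d = b * c) ∨
      ∃ c d : A, d ∉ P.ideal ∧ b * d = a * c := by
  have key : ∀ x y : A, algebraMap A (Localization.AtPrime P.ideal) y ∣
      algebraMap A (Localization.AtPrime P.ideal) x →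
      ∃ c d : A, d ∉ P.ideal ∧ x * d = y * c := by
    rintro x y ⟨z, hz⟩
    obtain ⟨⟨c, d⟩, hcd⟩ := IsLocalization.surj P.ideal.primeCompl z
    refine ⟨c, d, d.2, ?_⟩
    apply loc_inj P
    rw [map_mul, map_mul, hz, mul_assoc]
    exact congrArg (fun t => algebraMap A (Localization.AtPrime P.ideal) y * t) hcd
  rcases ValuationRing.dvd_total (algebraMap A (Localization.AtPrime P.ideal) b)
    (algebraMap A (Localization.AtPrime P.ideal) a) with h | h
  · exact Or.inl (key a b h)
  · exact Or.inr (key b a h)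

omit [IsDomain A] in
theorem nv_ne {b : A} (hb : b ≠ 0) : algebraMap A K b ≠ 0 := by
  rw [Ne, map_eq_zero_iff _ (IsFractionRing.injective A K)]
  exact hb

omit [IsDomain A] [IsFractionRing A K] [Field K] [Algebra A K] in
theorem nv_ne_of_notMem (P : Curve1 A) {b : A} (hb : b ∉ P.ideal) : b ≠ 0 := by
  rintro rfl
  exact hb P.ideal.zero_mem

/-- The local ring of the curve as a valuation ring of `K`. -/
def nvRing (P : Curve1 A) (hP : IsDiscreteValuationRing (Localization.AtPrime P.ideal)) :
    ValuationSubring K where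
  carrier := {f | ∃ a b : A, b ∉ P.ideal ∧ f * algebraMap A K b = algebraMap A K a}
  mul_mem' := by
    rintro f g ⟨a, b, hb, h⟩ ⟨c, d, hd, h'⟩
    refine ⟨a * c, b * d, fun h1 => ?_, ?_⟩
    · rcases P.isPrime.mem_or_mem h1 with h2 | h2
      · exact hb h2
      · exact hd h2
    · rw [map_mul, map_mul, ← h, ← h']
      ring
  one_mem' := ⟨1, 1, fun h => P.isPrime.ne_top ((Ideal.eq_top_iff_one _).2 h),
    by rw [map_one, one_mul]⟩
  add_mem' := by
    rintro f g ⟨a, b, hb, h⟩ ⟨c, d, hd, h'⟩
    refine ⟨a * d + c * b, b * d, fun h1 => ?_, ?_⟩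
    · rcases P.isPrime.mem_or_mem h1 with h2 | h2
      · exact hb h2
      · exact hd h2
    · rw [map_mul, map_add, map_mul, map_mul, ← h, ← h']
      ring
  zero_mem' := ⟨0, 1, fun h => P.isPrime.ne_top ((Ideal.eq_top_iff_one _).2 h),
    by rw [map_one, map_zero, zero_mul]⟩
  neg_mem' := by
    rintro f ⟨a, b, hb, h⟩
    exact ⟨-a, b, hb, by rw [map_neg, ← h]; ring⟩
  mem_or_inv_mem' := by
    intro f
    obtain ⟨a, b, hb, rfl⟩ := IsFractionRing.div_surjective (A := A) f
    have hb0 : b ≠ 0 := nonZeroDivisors.ne_zero hb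
    have hbK : algebraMap A K b ≠ 0 := nv_ne hb0
    rcases nv_total P hP a b with ⟨c, d, hd, h⟩ | ⟨c, d, hd, h⟩
    · left
      refine ⟨c, d, hd, ?_⟩
      have h1 := congrArg (algebraMap A K) h
      rw [map_mul, map_mul] at h1
      rw [div_mul_eq_mul_div, h1, mul_div_cancel_left₀ _ hbK]
    · by_cases ha : a = 0
      · left
        refine ⟨0, 1, fun h => P.isPrime.ne_top ((Ideal.eq_top_iff_one _).2 h), ?_⟩
        rw [ha, map_zero, zero_div, zero_mul]
      · right
        have haK : algebraMap A K a ≠ 0 := nv_ne ha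
        refine ⟨c, d, hd, ?_⟩
        have h1 := congrArg (algebraMap A K) h
        rw [map_mul, map_mul] at h1
        rw [inv_div, div_mul_eq_mul_div, h1, mul_div_cancel_left₀ _ haK]

theorem nv_mem_nvRing (P : Curve1 A)
    (hP : IsDiscreteValuationRing (Localization.AtPrime P.ideal)) (f : K) :
    f ∈ nvRing P hP ↔ ∃ a b : A, b ∉ P.ideal ∧ f * algebraMap A K b = algebraMap A K a :=
  Iff.rfl

theorem exists_valOf (P : Curve1 A) (hP : IsDiscreteValuationRing (Localization.AtPrime P.ideal)) :
    ∃ V : ValuationSubring K, OverV P V ∧ V ≠ ⊤ ∧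
      ∀ f : K, f ∈ V ↔ ∃ a b : A, b ∉ P.ideal ∧ f * algebraMap A K b = algebraMap A K a := by
  have h1P : (1 : A) ∉ P.ideal := fun h => P.isPrime.ne_top ((Ideal.eq_top_iff_one _).2 h)
  have hover : OverV P (nvRing (K := K) P hP) := by
    intro a
    refine ⟨⟨a, 1, h1P, by rw [map_one, mul_one]⟩, ?_⟩
    by_cases ha : a = 0
    · subst ha
      rw [map_zero]
      exact iff_of_true P.ideal.zero_mem (nv_zero_nonunits _)
    have haK : algebraMap A K a ≠ 0 := nv_ne ha
    rw [nv_nonunits _ haK]
    constructor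
    · rintro hmem ⟨c, b, hb, h⟩
      apply hb
      have h2 : algebraMap A K b = algebraMap A K (a * c) := by
        rw [map_mul, ← h, mul_inv_cancel_left₀ haK]
      rw [IsFractionRing.injective A K h2]
      exact P.ideal.mul_mem_right _ hmem
    · intro h
      by_contra hmem
      apply h
      exact ⟨1, a, hmem, by rw [map_one, inv_mul_cancel₀ haK]⟩
  refine ⟨nvRing P hP, hover, ?_, fun f => Iff.rfl⟩
  intro htop
  have hne : P.ideal ≠ ⊥ := by
    intro h0
    have h1 := P.height
    rw [h0, Ideal.height_bot] at h1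
    exact zero_ne_one h1
  obtain ⟨a, ha, ha0⟩ := Submodule.exists_mem_ne_zero_of_ne_bot hne
  have h2 := (hover a).2.1 ha
  rw [nv_nonunits _ (nv_ne ha0), htop] at h2
  exact h2 (ValuationSubring.mem_top _)

theorem nv_inv_mem (P : Curve1 A) {V : ValuationSubring K} (h : OverV P V) {b : A}
    (hb : b ∉ P.ideal) : (algebraMap A K b)⁻¹ ∈ V := by
  by_contra h1
  exact hb ((h b).2.2 ((nv_nonunits V (nv_ne (nv_ne_of_notMem P hb))).2 h1))

theorem nv_mem_iff (P : Curve1 A) (hP : IsDiscreteValuationRing (Localization.AtPrime P.ideal))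
    {V : ValuationSubring K} (h : OverV P V) (f : K) :
    f ∈ V ↔ ∃ a b : A, b ∉ P.ideal ∧ f * algebraMap A K b = algebraMap A K a := by
  constructor
  · intro hf
    obtain ⟨a, b, hb, rfl⟩ := IsFractionRing.div_surjective (A := A) f
    have hb0 : b ≠ 0 := nonZeroDivisors.ne_zero hb
    have hbK : algebraMap A K b ≠ 0 := nv_ne hb0
    rcases nv_total P hP a b with ⟨c, d, hd, h2⟩ | ⟨c, d, hd, h2⟩
    · refine ⟨c, d, hd, ?_⟩
      have h1 := congrArg (algebraMap A K) h2
      rw [map_mul, map_mul] at h1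
      rw [div_mul_eq_mul_div, h1, mul_div_cancel_left₀ _ hbK]
    · have h1 := congrArg (algebraMap A K) h2
      rw [map_mul, map_mul] at h1
      have h3 : algebraMap A K a / algebraMap A K b * algebraMap A K c = algebraMap A K d := by
        rw [div_mul_eq_mul_div, ← h1, mul_div_cancel_left₀ _ hbK]
      by_cases hc : c ∈ P.ideal
      · exfalso
        apply hd
        apply (h d).2.2
        have h4 := (h c).2.1 hc
        rw [ValuationSubring.mem_nonunits_iff] at h4 ⊢
        rw [← h3, map_mul, mul_comm]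
        exact mul_lt_one_of_lt_of_le h4 ((V.valuation_le_one_iff _).2 hf)
      · exact ⟨d, c, hc, h3⟩
  · rintro ⟨a, b, hb, hab⟩
    have h1 : f = algebraMap A K a * (algebraMap A K b)⁻¹ := by
      rw [← hab, mul_inv_cancel_right₀ (nv_ne (nv_ne_of_notMem P hb))]
    rw [h1]
    exact V.mul_mem _ _ (h a).1 (nv_inv_mem P h hb)

theorem overV_unique (P : Curve1 A) (hP : IsDiscreteValuationRing (Localization.AtPrime P.ideal))
    {V V' : ValuationSubring K} (h : OverV P V) (h' : OverV P V') : V = V' := by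
  ext f
  rw [nv_mem_iff P hP h, nv_mem_iff P hP h']

theorem overV_curve_unique {P P' : Curve1 A} {V : ValuationSubring K} (h : OverV P V)
    (h' : OverV P' V) : P = P' := by
  apply Curve1.ext'
  ext a
  exact (h a).2.trans (h' a).2.symm

theorem exists_resV (P : Curve1 A) (hP : IsDiscreteValuationRing (Localization.AtPrime P.ideal))
    {V : ValuationSubring K} (h : OverV P V) :
    ∃ φ : kap P ≃+* IsLocalRing.ResidueField V, IsResV P V φ := by
  let ι : A →+* V := (algebraMap A K).codRestrict V.toSubring fun a => (h a).1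
  have hι : ∀ a, ((ι a : V) : K) = algebraMap A K a := fun a => rfl
  let ψ : A →+* IsLocalRing.ResidueField V := (IsLocalRing.residue V).comp ι
  have hker : ∀ a, ψ a = 0 ↔ a ∈ P.ideal := by
    intro a
    change IsLocalRing.residue V (ι a) = 0 ↔ _
    rw [IsLocalRing.residue_eq_zero_iff, (h a).2, ← hι, ValuationSubring.coe_mem_nonunits_iff]
  let g : A ⧸ P.ideal →+* IsLocalRing.ResidueField V :=
    Ideal.Quotient.lift P.ideal ψ fun a ha => (hker a).2 ha
  have hg : Function.Injective g := by
    rw [injective_iff_map_eq_zero]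
    intro x hx
    obtain ⟨a, rfl⟩ := Ideal.Quotient.mk_surjective x
    rw [Ideal.Quotient.eq_zero_iff_mem]
    exact (hker a).1 hx
  let Φ : kap P →+* IsLocalRing.ResidueField V := IsFractionRing.lift hg
  have hΦ : ∀ a : A, Φ (res P a) = ψ a := by
    intro a
    change IsFractionRing.lift hg (algebraMap _ _ (Ideal.Quotient.mk P.ideal a)) = _
    rw [IsFractionRing.lift_algebraMap]
    rfl
  have hsurj : Function.Surjective Φ := by
    intro y
    obtain ⟨f, rfl⟩ := IsLocalRing.residue_surjective y
    obtain ⟨a, b, hb, hab⟩ := (nv_mem_iff P hP h (f : K)).1 f.2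
    have h1 : f * ι b = ι a := by
      apply Subtype.ext
      change (f : K) * algebraMap A K b = algebraMap A K a
      exact hab
    have h2 := congrArg (IsLocalRing.residue V) h1
    rw [map_mul] at h2
    have h3 : Φ (res P b) ≠ 0 := by
      rw [hΦ]
      exact fun h0 => hb ((hker b).1 h0)
    refine ⟨res P a / res P b, ?_⟩
    rw [map_div₀, div_eq_iff h3, hΦ, hΦ]
    exact h2.symm
  refine ⟨RingEquiv.ofBijective Φ ⟨Φ.injective, hsurj⟩, ?_⟩
  intro a a' ha'
  change Φ (res P a) = _
  rw [hΦ]
  change IsLocalRing.residue V (ι a) = _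
  congr 1
  exact Subtype.ext ha'.symm

end val

end Pool.Agent.K1
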