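import Pool.Agent.K1.NNormal
import Pool.Agent.K1.NVal
import Pool.Agent.K1.NChart
import Pool.Agent.K1.Hub
import Pool.Agent.K1.L2Regular

/-!
Theorem N, N06: the curves of a model and the primes of height one of its charts.
-/

set_option autoImplicit false

namespace Pool.Agent.K1

/-! ### Units and nonunits of a valuation ring -/

section units

variable {K : Type} [Field K] (V : ValuationSubring K)

theorem nu_add_nonunits {x y : K} (hx : x ∈ V.nonunits) (hy : y ∈ V.nonunits) :
    x + y ∈ V.nonunits := by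
  rw [ValuationSubring.mem_nonunits_iff] at *
  exact lt_of_le_of_lt (V.valuation.map_add x y) (max_lt hx hy)

theorem nu_mul_nonunits {x y : K} (hx : x ∈ V) (hy : y ∈ V.nonunits) :
    x * y ∈ V.nonunits := by
  rw [ValuationSubring.mem_nonunits_iff] at *
  rw [← ValuationSubring.valuation_le_one_iff] at hx
  rw [map_mul]
  exact mul_lt_one_of_nonneg_of_lt_one_right hx zero_le hy

theorem nu_neg_nonunits {x : K} (hx : x ∈ V.nonunits) : -x ∈ V.nonunits := by
  rw [ValuationSubring.mem_nonunits_iff] at *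
  rwa [Valuation.map_neg]

theorem nu_sub_nonunits {x y : K} (hx : x ∈ V.nonunits) (hy : y ∈ V.nonunits) :
    x - y ∈ V.nonunits := by
  rw [sub_eq_add_neg]
  exact nu_add_nonunits V hx (nu_neg_nonunits V hy)

theorem nu_one_notMem : (1 : K) ∉ V.nonunits := by
  rw [ValuationSubring.mem_nonunits_iff, map_one]
  exact lt_irrefl _

theorem nu_mem_of_nonunits {x : K} (hx : x ∈ V.nonunits) : x ∈ V := by
  rw [ValuationSubring.mem_nonunits_iff] at hx
  exact (ValuationSubring.valuation_le_one_iff _ _).1 hx.le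

/-- A nonzero constant is no nonunit. -/
theorem nu_const {k : Type} [Field k] [Algebra k K] (hk : ∀ c : k, algebraMap k K c ∈ V) {c : k}
    (hc : algebraMap k K c ∈ V.nonunits) : c = 0 := by
  by_contra h
  apply nu_one_notMem V
  have h1 := nu_mul_nonunits V (hk c⁻¹) hc
  rwa [← map_mul, inv_mul_cancel₀ h, map_one] at h1

end units

section curve

variable {k K : Type} [Field k] [Field K] [Algebra k K] (M : NModel k K)

theorem nu_mem_chart {s x : K} (hx : x ∈ M.W) : x / s ∈ M.chart s :=
  Algebra.subset_adjoin ⟨x, hx, rfl⟩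

theorem nu_chart_le {V : ValuationSubring K} {s : K} (hs : M.IsMin V s)
    (hk : ∀ c : k, algebraMap k K c ∈ V) {f : K} (hf : f ∈ M.chart s) : f ∈ V :=
  M.mem_of_mem_chart hf (O := V.toSubring) hk hs.2.2

/-- The quotient of two minimal forms is a unit. -/
theorem nu_isMin_notMem {V : ValuationSubring K} {s t : K} (hs : M.IsMin V s) (ht : M.IsMin V t) :
    s / t ∉ V.nonunits := by
  intro h
  apply nu_one_notMem V
  have h1 := nu_mul_nonunits V (hs.2.2 t ht.1) h
  rwa [div_mul_div_cancel₀ hs.2.1, div_self ht.2.1] at h1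

theorem nu_isMin_of_notMem {V : ValuationSubring K} {s t : K} (hs : M.IsMin V s) (ht : t ∈ M.W)
    (h : t / s ∉ V.nonunits) : M.IsMin V t := by
  have ht0 : t ≠ 0 := by
    rintro rfl
    apply h
    rw [zero_div]
    exact nv_zero_nonunits V
  refine ⟨ht, ht0, fun x hx => ?_⟩
  have h1 : (t / s)⁻¹ ∈ V := by
    by_contra h2
    exact h ((nv_nonunits V (div_ne_zero ht0 hs.2.1)).2 h2)
  have h2 : x / t = x / s * (t / s)⁻¹ := by
    rw [inv_div, div_mul_div_cancel₀ hs.2.1]
  rw [h2]
  exact V.mul_mem _ _ (hs.2.2 x hx) h1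

/-- A form with transcendental residue, for any minimal denominator. -/
theorem nu_res_change {V : ValuationSubring K} (hV : M.Curve V) {s : K} (hs : M.IsMin V s) :
    ∃ x ∈ M.W, ∀ c : k, x / s - algebraMap k K c ∉ V.nonunits := by
  obtain ⟨-, hk, s0, hs0, x0, hx0, hc0⟩ := hV
  by_contra hcon
  push Not at hcon
  obtain ⟨a, ha⟩ := hcon s0 hs0.1
  obtain ⟨b, hb⟩ := hcon x0 hx0
  have ha0 : a ≠ 0 := by
    rintro rfl
    rw [map_zero, sub_zero] at ha
    exact nu_isMin_notMem M hs0 hs ha
  apply hc0 (b / a)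
  have haK : algebraMap k K a ≠ 0 := by
    rw [ne_eq, map_eq_zero]
    exact ha0
  have h1 : x0 / s0 - algebraMap k K (b / a) =
      s / s0 * (x0 / s - algebraMap k K b) -
        (algebraMap k K (b / a) * (s / s0)) * (s0 / s - algebraMap k K a) := by
    rw [map_div₀]
    field_simp [hs.2.1, hs0.2.1, haK]
    ring
  rw [h1]
  exact nu_sub_nonunits V (nu_mul_nonunits V (hs0.2.2 s hs.1) hb)
    (nu_mul_nonunits V (V.mul_mem _ _ (hk _) (hs0.2.2 s hs.1)) ha)

/-- Some form in a generating set is minimal. -/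
theorem nu_exists_gen {V : ValuationSubring K} (hk : ∀ c : k, algebraMap k K c ∈ V) (S : Set K)
    (hS : Submodule.span k S = M.W) : ∃ t ∈ S, M.IsMin V t := by
  obtain ⟨s, hs⟩ := M.exists_isMin V hk
  by_contra hcon
  push Not at hcon
  have h1 : ∀ x ∈ Submodule.span k S, x / s ∈ V.nonunits := by
    intro x hx
    induction hx using Submodule.span_induction with
    | mem x hx =>
      by_contra h
      exact hcon x hx (nu_isMin_of_notMem M hs (hS ▸ Submodule.subset_span hx) h)
    | zero =>
      rw [zero_div]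
      exact nv_zero_nonunits V
    | add x y _ _ hx hy =>
      rw [add_div]
      exact nu_add_nonunits V hx hy
    | smul c x _ hx =>
      rw [Algebra.smul_def, mul_div_assoc]
      exact nu_mul_nonunits V (hk c) hx
  have h2 := h1 s (hS ▸ hs.1)
  rw [div_self hs.2.1] at h2
  exact nu_one_notMem V h2

/-- A maximal ideal of a chart is the ideal of a point. -/
theorem nu_exists_const [IsAlgClosed k] {s : K} (P : Ideal (M.chart s)) (hP : P.IsMaximal)
    (a : M.chart s) : ∃ c : k, a - algebraMap k (M.chart s) c ∈ P := by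
  have := M.finiteType_chart s
  obtain ⟨z, hz⟩ := exists_point_of_isMaximal (k := k) P hP
  refine ⟨z a, ?_⟩
  rw [← hz, RingHom.mem_ker]
  rw [map_sub, AlgHom.commutes, Algebra.algebraMap_self_apply, sub_self]

theorem nu_over [IsAlgClosed k] (htr : Algebra.trdeg k K = 2) {V : ValuationSubring K}
    (hV : V ≠ ⊤) (hk : ∀ c : k, algebraMap k K c ∈ V) {s : K} (hs : M.IsMin V s) {f : K}
    (hf : f ∈ M.chart s) (h : ∀ c : k, f - algebraMap k K c ∉ V.nonunits) :
    ∃ P : Curve1 (M.chart s), OverV P V := by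
  have hfr := M.isFractionRing_chart hs.1 hs.2.1
  have hft := M.finiteType_chart s
  have hdim := M.dim_chart hs.1 hs.2.1 htr
  let i : M.chart s →+* V :=
    { toFun := fun a => ⟨a, nu_chart_le M hs hk a.2⟩
      map_one' := rfl
      map_mul' := fun _ _ => rfl
      map_zero' := rfl
      map_add' := fun _ _ => rfl }
  let P : Ideal (M.chart s) := (IsLocalRing.maximalIdeal V).comap i
  have hPp : P.IsPrime := inferInstance
  have hmem : ∀ a : M.chart s, a ∈ P ↔ (a : K) ∈ V.nonunits := by
    intro a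
    rw [Ideal.mem_comap]
    exact (ValuationSubring.coe_mem_nonunits_iff (A := V) (a := i a)).symm
  have hbot : P ≠ ⊥ := by
    intro hb
    apply hV
    rw [eq_top_iff]
    intro g _
    obtain ⟨a, b, hb0, rfl⟩ := IsFractionRing.div_surjective (A := M.chart s) g
    have hb1 : b ∉ P := by
      rw [hb]
      exact nonZeroDivisors.ne_zero hb0
    have hb2 : (b : K) ≠ 0 := by
      intro h1
      exact nonZeroDivisors.ne_zero hb0 (Subtype.ext h1)
    rw [hmem, nv_nonunits V hb2, not_not] at hb1
    change (a : K) / (b : K) ∈ V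
    rw [div_eq_mul_inv]
    exact V.mul_mem _ _ (i a).2 hb1
  have hmax : ¬ P.IsMaximal := by
    intro hm
    obtain ⟨c, hc⟩ := nu_exists_const M P hm ⟨f, hf⟩
    rw [hmem] at hc
    exact h c hc
  obtain ⟨m, hm, hPm⟩ := Ideal.exists_le_maximal P hPp.ne_top
  have hm2 : m.height = 2 := height_of_maximal (k := k) hdim m
  have hlt : P < m := lt_of_le_of_ne hPm fun h1 => hmax (h1 ▸ hm)
  have hmp : m.IsPrime := hm.isPrime
  have h1 := Ideal.height_add_one_le_of_lt_of_isPrime hlt
  rw [hm2] at h1
  have h2 : P.height ≠ 0 := by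
    intro h3
    exact hbot (Ideal.height_eq_zero_iff_eq_bot.1 h3)
  have h3 : P.height = 1 := by
    have h4 : P.height ≤ 1 := by
      have h5 : P.height + 1 ≤ 1 + 1 := by
        refine h1.trans ?_
        decide
      exact (ENat.add_le_add_iff_right ENat.one_ne_top).1 h5
    exact le_antisymm h4 (Order.one_le_iff_ne_zero.2 h2)
  exact ⟨⟨P, hPp, h3⟩, fun a => ⟨(i a).2, hmem a⟩⟩

end curve

section curve

variable {k K : Type} [Field k] [IsAlgClosed k] [Field K] [Algebra k K] (M : NModel k K)
  (htr : Algebra.trdeg k K = 2)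

include htr

theorem NModel.exists_over {V : ValuationSubring K} (hV : M.Curve V) {s : K}
    (hs : M.IsMin V s) : ∃ P : Curve1 (M.chart s), OverV P V := by
  obtain ⟨x, hx, hc⟩ := nu_res_change M hV hs
  exact nu_over M htr hV.1 hV.2.1 hs (nu_mem_chart M hx) hc

theorem NModel.curve_of_over {s : K} (hs : s ∈ M.W) (hs0 : s ≠ 0) {P : Curve1 (M.chart s)}
    {V : ValuationSubring K} (h : OverV P V) : M.Curve V ∧ M.IsMin V s := by
  have hft := M.finiteType_chart s
  have hdim := M.dim_chart hs hs0 htr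
  have hk : ∀ c : k, algebraMap k K c ∈ V := fun c => (h (algebraMap k (M.chart s) c)).1
  have hmin : M.IsMin V s := ⟨hs, hs0, fun x hx => (h ⟨x / s, nu_mem_chart M hx⟩).1⟩
  have htop : V ≠ ⊤ := by
    rintro rfl
    have hb : P.ideal ≠ ⊥ := by
      intro hb
      have h1 := P.height
      rw [hb, Ideal.height_bot] at h1
      exact zero_ne_one h1
    obtain ⟨a, haP, ha0⟩ := Submodule.exists_mem_ne_zero_of_ne_bot hb
    have h1 := (h a).2.1 haP
    have h2 : algebraMap (M.chart s) K a ≠ 0 := by
      intro h3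
      exact ha0 (Subtype.ext h3)
    rw [nv_nonunits _ h2] at h1
    exact h1 trivial
  refine ⟨⟨htop, hk, s, hmin, ?_⟩, hmin⟩
  by_contra hcon
  push Not at hcon
  have h1 : ∀ a ∈ M.chart s, ∃ c : k, a - algebraMap k K c ∈ V.nonunits := by
    intro a ha
    induction ha using Algebra.adjoin_induction with
    | mem a ha =>
      obtain ⟨x, hx, rfl⟩ := ha
      exact hcon x hx
    | algebraMap c =>
      refine ⟨c, ?_⟩
      rw [sub_self]
      exact nv_zero_nonunits V
    | add a b _ _ ha hb =>
      obtain ⟨c, hc⟩ := ha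
      obtain ⟨d, hd⟩ := hb
      refine ⟨c + d, ?_⟩
      have h2 : a + b - algebraMap k K (c + d) =
          (a - algebraMap k K c) + (b - algebraMap k K d) := by
        rw [map_add]
        ring
      rw [h2]
      exact nu_add_nonunits V hc hd
    | mul a b ha' hb' ha hb =>
      obtain ⟨c, hc⟩ := ha
      obtain ⟨d, hd⟩ := hb
      refine ⟨c * d, ?_⟩
      have h2 : a * b - algebraMap k K (c * d) =
          b * (a - algebraMap k K c) + algebraMap k K c * (b - algebraMap k K d) := by
        rw [map_mul]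
        ring
      rw [h2]
      exact nu_add_nonunits V (nu_mul_nonunits V (nu_chart_le M hmin hk hb') hc)
        (nu_mul_nonunits V (hk c) hd)
  have h2 : P.ideal.IsMaximal := by
    rw [Ideal.isMaximal_iff]
    refine ⟨fun h3 => P.isPrime.ne_top ((Ideal.eq_top_iff_one _).2 h3), ?_⟩
    intro J a hPJ haP haJ
    obtain ⟨c, hc⟩ := h1 a a.2
    have h3 : a - algebraMap k (M.chart s) c ∈ P.ideal := (h _).2.2 hc
    have hc0 : c ≠ 0 := by
      rintro rfl
      rw [map_zero, sub_zero] at h3
      exact haP h3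
    have h4 : algebraMap k (M.chart s) c ∈ J := by
      have h5 : algebraMap k (M.chart s) c = a - (a - algebraMap k (M.chart s) c) := by ring
      rw [h5]
      exact J.sub_mem haJ (hPJ h3)
    have h5 := J.mul_mem_left (algebraMap k (M.chart s) c⁻¹) h4
    rwa [← map_mul, inv_mul_cancel₀ hc0, map_one] at h5
  have h3 : P.ideal.height = 2 := height_of_maximal (k := k) hdim P.ideal
  rw [P.height] at h3
  exact absurd h3 (by decide)

theorem NModel.curve_principal {V : ValuationSubring K} (hV : M.Curve V) :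
    ∃ ϖ : V, ϖ ≠ 0 ∧ IsLocalRing.maximalIdeal V = Ideal.span {ϖ} ∧ IsNoetherianRing V := by
  obtain ⟨-, hk, s, hs, -⟩ := id hV
  obtain ⟨P, hP⟩ := M.exists_over htr hV hs
  have hfr := M.isFractionRing_chart hs.1 hs.2.1
  have hft := M.finiteType_chart s
  have hnoeth : IsNoetherianRing (M.chart s) := Algebra.FiniteType.isNoetherianRing k _
  have hic := M.isIntegrallyClosed_chart hs.1 hs.2.1
  have hdvr : IsDiscreteValuationRing (Localization.AtPrime P.ideal) := nn_dvr P.ideal P.height
  obtain ⟨V', hV', -, hmem⟩ := exists_valOf (K := K) P hdvr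
  obtain rfl := overV_unique P hdvr hP hV'
  let i : M.chart s →+* V :=
    { toFun := fun a => ⟨a, (hP a).1⟩
      map_one' := rfl
      map_mul' := fun _ _ => rfl
      map_zero' := rfl
      map_add' := fun _ _ => rfl }
  let alg : Algebra (M.chart s) V := i.toAlgebra
  have hval : ∀ a : M.chart s, ((algebraMap (M.chart s) V a : V) : K) = (a : K) := fun _ => rfl
  have hloc : IsLocalization.AtPrime V P.ideal := by
    refine ⟨?_, ?_, ?_⟩
    · rintro ⟨b, hb⟩
      have h1 : (b : K) ∉ V.nonunits := fun h2 => hb ((hP b).2.2 h2)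
      have h2 : i b ∉ IsLocalRing.maximalIdeal V := by
        intro h3
        exact h1 (ValuationSubring.coe_mem_nonunits_iff.2 h3)
      rw [IsLocalRing.mem_maximalIdeal, mem_nonunits_iff, not_not] at h2
      exact h2
    · intro f
      obtain ⟨a, b, hb, hab⟩ := (hmem (f : K)).1 f.2
      exact ⟨⟨a, ⟨b, hb⟩⟩, Subtype.ext hab⟩
    · intro a b hab
      refine ⟨1, ?_⟩
      have h1 : (a : K) = (b : K) := congrArg (fun x : V => (x : K)) hab
      rw [Subtype.ext h1]
  let e : Localization.AtPrime P.ideal ≃ₐ[M.chart s] V :=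
    IsLocalization.algEquiv P.ideal.primeCompl _ _
  have hV1 : IsDiscreteValuationRing V :=
    IsDiscreteValuationRing.RingEquivClass.isDiscreteValuationRing e
  obtain ⟨ϖ, hϖ⟩ := IsDiscreteValuationRing.exists_irreducible V
  exact ⟨ϖ, hϖ.ne_zero, (IsDiscreteValuationRing.irreducible_iff_uniformizer ϖ).1 hϖ,
    inferInstance⟩

theorem NModel.finite_not_isMin {s : K} (hs : s ∈ M.W) (hs0 : s ≠ 0) :
    {V | M.Curve V ∧ ¬ M.IsMin V s}.Finite := by
  obtain ⟨S, hS⟩ := M.fg
  have key : ∀ t ∈ (S : Set K), {V | M.Curve V ∧ ¬ M.IsMin V s ∧ M.IsMin V t}.Finite := by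
    intro t htS
    by_cases ht0 : t = 0
    · refine Set.Finite.subset Set.finite_empty ?_
      rintro V ⟨-, -, h⟩
      exact h.2.1 ht0
    have htW : t ∈ M.W := hS ▸ Submodule.subset_span htS
    have hfr := M.isFractionRing_chart htW ht0
    have hft := M.finiteType_chart t
    have hnoeth : IsNoetherianRing (M.chart t) := Algebra.FiniteType.isNoetherianRing k _
    have hic := M.isIntegrallyClosed_chart htW ht0
    let a : M.chart t := ⟨s / t, nu_mem_chart M hs⟩
    have ha0 : a ≠ 0 := by
      intro h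
      exact div_ne_zero hs0 ht0 (congrArg Subtype.val h)
    have hfin := Ideal.finite_minimalPrimes_of_isNoetherianRing (M.chart t) (Ideal.span {a})
    refine (hfin.biUnion (t := fun Q => {V | ∃ P : Curve1 (M.chart t), P.ideal = Q ∧ OverV P V})
      fun Q _ => ?_).subset ?_
    · refine Set.Subsingleton.finite ?_
      rintro V ⟨P, hPQ, hPV⟩ V' ⟨P', hPQ', hPV'⟩
      have h1 : P = P' := Curve1.ext' (hPQ.trans hPQ'.symm)
      subst h1
      exact overV_unique P (nn_dvr P.ideal P.height) hPV hPV'
    · rintro V ⟨hV, hsV, htV⟩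
      obtain ⟨P, hP⟩ := M.exists_over htr hV htV
      have haP : a ∈ P.ideal := by
        rw [(hP a).2]
        by_contra h
        exact hsV (nu_isMin_of_notMem M htV hs h)
      rw [Set.mem_iUnion₂]
      refine ⟨P.ideal, ⟨⟨P.isPrime, ?_⟩, ?_⟩, P, rfl, hP⟩
      · rwa [Ideal.span_singleton_le_iff_mem]
      · rintro Q ⟨hQ, hQa⟩ hQP
        by_contra hne
        have hlt : Q < P.ideal := lt_of_le_of_ne hQP fun h => hne (h ▸ le_rfl)
        have h1 := Ideal.height_add_one_le_of_lt_of_isPrime hlt
        rw [P.height] at h1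
        have h2 : Q.height = 0 := by
          by_contra h3
          have h4 := Order.one_le_iff_ne_zero.2 h3
          have h5 : (1 : ℕ∞) + 1 ≤ 1 := le_trans (add_le_add_left h4 1) h1
          exact absurd h5 (by decide)
        rw [Ideal.height_eq_zero_iff_eq_bot] at h2
        rw [h2, Ideal.span_singleton_le_iff_mem] at hQa
        exact ha0 hQa
  refine (S.finite_toSet.biUnion key).subset ?_
  rintro V ⟨hV, hsV⟩
  obtain ⟨t, ht, htV⟩ := nu_exists_gen M hV.2.1 (S : Set K) hS
  exact Set.mem_iUnion₂.2 ⟨t, ht, hV, hsV, htV⟩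

/-- Sections are determined at the curves. -/
theorem NModel.mem_pow_of_curves (j : ℕ) (f : K)
    (h : ∀ V, M.Curve V → ∀ s, M.IsMin V s → f / s ^ j ∈ V) : f ∈ M.W ^ j := by
  refine M.normal j f fun V hk s hs hs0 hmin => ?_
  have hfr := M.isFractionRing_chart hs hs0
  have hft := M.finiteType_chart s
  have hnoeth : IsNoetherianRing (M.chart s) := Algebra.FiniteType.isNoetherianRing k _
  have hic := M.isIntegrallyClosed_chart hs hs0
  have h1 : f / s ^ j ∈ Set.range (algebraMap (M.chart s) K) := by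
    refine nn_mem_of_height_one _ fun P hP hP1 => ?_
    let P' : Curve1 (M.chart s) := ⟨P, hP, hP1⟩
    have hdvr : IsDiscreteValuationRing (Localization.AtPrime P'.ideal) :=
      nn_dvr P'.ideal P'.height
    obtain ⟨V', hV', -, hmem⟩ := exists_valOf (K := K) P' hdvr
    obtain ⟨h2, h3⟩ := M.curve_of_over htr hs hs0 hV'
    exact (hmem _).1 (h V' h2 s h3)
  obtain ⟨a, ha⟩ := h1
  rw [← ha]
  exact nu_chart_le M ⟨hs, hs0, hmin⟩ hk a.2

/-- The centre of a valuation ring with a transcendental residue. -/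
theorem NModel.curve_of_residue {V : ValuationSubring K} (hV : V ≠ ⊤)
    (hk : ∀ c : k, algebraMap k K c ∈ V) {s : K} (hs : M.IsMin V s) {f : K}
    (hf : f ∈ M.chart s) (h : ∀ c : k, f - algebraMap k K c ∉ V.nonunits) : M.Curve V := by
  obtain ⟨P, hP⟩ := nu_over M htr hV hk hs hf h
  exact (M.curve_of_over htr hs.1 hs.2.1 hP).1

end curve

end Pool.Agent.K1
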