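import Pool.Agent.K1.NModelDef

/-!
Theorem N: normal noetherian domains. The local rings at primes of height one are discrete
valuation rings, and a domain of this kind is the intersection of them.
-/

set_option autoImplicit false

open Polynomial

namespace Pool.Agent.K1

theorem nn_dvr {A : Type} [CommRing A] [IsDomain A] [IsNoetherianRing A] [IsIntegrallyClosed A]
    (P : Ideal A) [P.IsPrime] (hP : P.height = 1) :
    IsDiscreteValuationRing (Localization.AtPrime P) := by
  have hdom : IsDomain (Localization.AtPrime P) :=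
    IsLocalization.isDomain_localization P.primeCompl_le_nonZeroDivisors
  have hnoe : IsNoetherianRing (Localization.AtPrime P) :=
    IsLocalization.isNoetherianRing P.primeCompl _ inferInstance
  have hic : IsIntegrallyClosed (Localization.AtPrime P) :=
    isIntegrallyClosed_of_isLocalization _ P.primeCompl P.primeCompl_le_nonZeroDivisors
  have hdim : ringKrullDim (Localization.AtPrime P) = 1 := by
    rw [IsLocalization.AtPrime.ringKrullDim_eq_height P, hP]
    rfl
  have hmax : (IsLocalRing.maximalIdeal (Localization.AtPrime P)).height = 1 := by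
    have := IsLocalRing.maximalIdeal_height_eq_ringKrullDim (R := Localization.AtPrime P)
    rw [hdim] at this
    exact_mod_cast this
  have hne : IsLocalRing.maximalIdeal (Localization.AtPrime P) ≠ ⊥ :=
    Ideal.ne_bot_of_height_eq_one hmax
  have hnf : ¬ IsField (Localization.AtPrime P) := by
    intro h
    exact hne (IsLocalRing.isField_iff_maximalIdeal_eq.1 h)
  have hiff : (IsIntegrallyClosed (Localization.AtPrime P) ∧
      ∃! Q : Ideal (Localization.AtPrime P), Q ≠ ⊥ ∧ Q.IsPrime) ↔
      IsDiscreteValuationRing (Localization.AtPrime P) :=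
    (IsDiscreteValuationRing.TFAE (Localization.AtPrime P) hnf).out 3 0
  refine hiff.1 ⟨hic, ?_⟩
  refine ⟨IsLocalRing.maximalIdeal (Localization.AtPrime P), ⟨hne, inferInstance⟩, ?_⟩
  rintro Q ⟨hQ, hQp⟩
  by_contra hQm
  have hlt : Q < IsLocalRing.maximalIdeal (Localization.AtPrime P) :=
    lt_of_le_of_ne (IsLocalRing.le_maximalIdeal hQp.ne_top) hQm
  have h1 := Ideal.height_add_one_le_of_lt_of_isPrime hlt
  rw [hmax] at h1
  have h2 : Q.height = 0 := by
    have h3 : Q.height + 1 ≤ 0 + 1 := by simpa using h1
    have h4 := (ENat.add_le_add_iff_right (by simp)).1 h3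
    simpa using h4
  exact hQ (Ideal.height_eq_zero_iff_eq_bot.1 h2)

/-- The denominators of an element of the fraction field. -/
def nn_den (A : Type) {K : Type} [CommRing A] [Field K] [Algebra A K] (g : K) : Ideal A where
  carrier := {b | g * algebraMap A K b ∈ Set.range (algebraMap A K)}
  add_mem' := by
    rintro b b' ⟨c, hc⟩ ⟨c', hc'⟩
    exact ⟨c + c', by rw [map_add, map_add, mul_add, hc, hc']⟩
  zero_mem' := ⟨0, by simp⟩
  smul_mem' := by
    rintro x b ⟨c, hc⟩
    exact ⟨x * c, by rw [smul_eq_mul, map_mul, map_mul, hc]; ring⟩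

theorem nn_mem_den {A K : Type} [CommRing A] [Field K] [Algebra A K] (g : K) (b : A) :
    b ∈ nn_den A g ↔ g * algebraMap A K b ∈ Set.range (algebraMap A K) := Iff.rfl

theorem nn_mem_of_height_one {A K : Type} [CommRing A] [IsDomain A] [IsNoetherianRing A]
    [IsIntegrallyClosed A] [Field K] [Algebra A K] [IsFractionRing A K] (f : K)
    (h : ∀ P : Ideal A, P.IsPrime → P.height = 1 →
      ∃ a b : A, b ∉ P ∧ f * algebraMap A K b = algebraMap A K a) :
    f ∈ Set.range (algebraMap A K) := by
  by_contra hf
  have hinj : Function.Injective (algebraMap A K) := IsFractionRing.injective A K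
  let S : Set (Ideal A) := {I | ∃ c : A, f * algebraMap A K c ∉ Set.range (algebraMap A K) ∧
    I = nn_den A (f * algebraMap A K c)}
  have hS : S.Nonempty := ⟨nn_den A (f * algebraMap A K 1), 1, by simpa using hf, rfl⟩
  obtain ⟨P, ⟨c, hc, hPc⟩, hmax⟩ := (wellFounded_gt (α := Ideal A)).has_min S hS
  have htop : P ≠ ⊤ := by
    intro h0
    have h1 : (1 : A) ∈ P := by rw [h0]; trivial
    rw [hPc, nn_mem_den, map_one, mul_one] at h1
    exact hc h1
  have hP : P.IsPrime := by
    refine ⟨htop, ?_⟩
    intro a b hab
    by_contra hcon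
    push Not at hcon
    obtain ⟨ha, hb⟩ := hcon
    have h1 : f * algebraMap A K (c * a) ∉ Set.range (algebraMap A K) := by
      intro h2
      apply ha
      rw [hPc, nn_mem_den]
      rw [map_mul, ← mul_assoc] at h2
      exact h2
    have h2 : nn_den A (f * algebraMap A K (c * a)) ∈ S := ⟨c * a, h1, rfl⟩
    apply hmax _ h2
    show P < nn_den A (f * algebraMap A K (c * a))
    refine lt_of_le_of_ne ?_ ?_
    · intro x hx
      rw [hPc, nn_mem_den] at hx
      obtain ⟨y, hy⟩ := hx
      refine ⟨a * y, ?_⟩
      rw [map_mul, hy, map_mul]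
      ring
    · intro he
      apply hb
      rw [he, nn_mem_den, map_mul]
      rw [hPc, nn_mem_den, map_mul] at hab
      have : f * (algebraMap A K c * algebraMap A K a) * algebraMap A K b =
          f * algebraMap A K c * (algebraMap A K a * algebraMap A K b) := by ring
      rw [this]
      exact hab
  -- `P` is not zero
  have hne : P ≠ ⊥ := by
    obtain ⟨x, y, hy, hxy⟩ := IsFractionRing.div_surjective (A := A) (f * algebraMap A K c)
    have hy0 : y ≠ 0 := nonZeroDivisors.ne_zero hy
    have hyK : algebraMap A K y ≠ 0 := fun h0 => hy0 (hinj (by rw [h0, map_zero]))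
    intro h0
    apply hy0
    rw [← Ideal.mem_bot, ← h0, hPc, nn_mem_den, ← hxy, div_mul_cancel₀ _ hyK]
    exact ⟨x, rfl⟩
  by_cases hcase : ∀ t ∈ P, ∀ u : A, f * algebraMap A K c * algebraMap A K t = algebraMap A K u →
      u ∈ P
  · -- `f c` is integral
    apply hc
    have hint : IsIntegral A (f * algebraMap A K c) := by
      refine isIntegral_of_smul_mem_submodule (M := K) (A := K)
        (Submodule.map (Algebra.linearMap A K) P) ?_ ?_ _ ?_
      · intro h0
        obtain ⟨t, ht, ht0⟩ := Submodule.exists_mem_ne_zero_of_ne_bot hne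
        have h1 : algebraMap A K t ∈ Submodule.map (Algebra.linearMap A K) P := ⟨t, ht, rfl⟩
        rw [h0, Submodule.mem_bot] at h1
        exact ht0 (hinj (by rw [h1, map_zero]))
      · exact (IsNoetherian.noetherian P).map _
      · rintro _ ⟨t, ht, rfl⟩
        have ht' := ht
        rw [SetLike.mem_coe, hPc, nn_mem_den] at ht'
        obtain ⟨u, hu⟩ := ht'
        refine ⟨u, hcase t ht u hu.symm, ?_⟩
        rw [Algebra.linearMap_apply, Algebra.linearMap_apply, hu, smul_eq_mul]
    exact IsIntegrallyClosed.isIntegral_iff.1 hint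
  · push Not at hcase
    obtain ⟨t, ht, u, hu, huP⟩ := hcase
    -- `P` has height one
    have hmin : P ∈ (Ideal.span {t}).minimalPrimes := by
      refine ⟨⟨hP, by rwa [Ideal.span_singleton_le_iff_mem]⟩, ?_⟩
      rintro Q ⟨hQ, htQ⟩ hQP y hy
      have hy' := hy
      rw [hPc, nn_mem_den] at hy'
      obtain ⟨v, hv⟩ := hy'
      have h1 : y * u = t * v := by
        apply hinj
        rw [map_mul, map_mul, ← hu, hv]
        ring
      have h2 : y * u ∈ Q := by
        rw [h1]
        exact Q.mul_mem_right _ (htQ (Ideal.mem_span_singleton_self t))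
      exact (hQ.mem_or_mem h2).resolve_right (fun h3 => huP (hQP h3))
    have hht : P.height = 1 := by
      apply le_antisymm
      · exact Ideal.height_le_one_of_isPrincipal_of_mem_minimalPrimes _ _ hmin
      · rw [Order.one_le_iff_ne_zero, Ne, Ideal.height_eq_zero_iff_eq_bot]
        exact hne
    obtain ⟨a, b, hb, hab⟩ := h P hP hht
    apply hb
    rw [hPc, nn_mem_den]
    refine ⟨c * a, ?_⟩
    rw [map_mul, ← hab]
    ring

end Pool.Agent.K1
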