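import Pool.Agent.K1.NModelDef
import Pool.Agent.K1.BerLem
import Pool.Agent.K1.FormsField
import Pool.Agent.K1.PrimeFibre
import Pool.Agent.K1.NNormal
import Pool.Agent.K1.NVal
import Pool.Agent.K1.NChart
import Pool.Agent.K1.NCurve

/-!
# A Bertini theorem for the model of a surface

In a linear system without fixed curves whose ratios generate the function field there is a form
which vanishes on exactly one curve, with multiplicity one.
-/

set_option autoImplicit false

namespace Pool.Agent.K1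

section

variable {k K : Type} [Field k] [Field K] [Algebra k K]

theorem nb_const {V : ValuationSubring K} (hk : ∀ c : k, algebraMap k K c ∈ V) {c : k}
    (hc : c ≠ 0) : V.valuation (algebraMap k K c) = 1 := by
  apply le_antisymm
  · exact (V.valuation_le_one_iff _).2 (hk c)
  · have h1 : V.valuation (algebraMap k K c⁻¹) ≤ 1 := (V.valuation_le_one_iff _).2 (hk c⁻¹)
    have h2 : V.valuation (algebraMap k K c) * V.valuation (algebraMap k K c⁻¹) = 1 := by
      rw [← map_mul, ← map_mul, mul_inv_cancel₀ hc, map_one, map_one]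
    calc (1 : V.ValueGroup) = V.valuation (algebraMap k K c) * V.valuation (algebraMap k K c⁻¹) :=
          h2.symm
      _ ≤ V.valuation (algebraMap k K c) * 1 := by gcongr
      _ = V.valuation (algebraMap k K c) := mul_one _

theorem nb_smul {V : ValuationSubring K} (hk : ∀ c : k, algebraMap k K c ∈ V) (c : k) (x : K) :
    V.valuation (c • x) ≤ V.valuation x := by
  rw [Algebra.smul_def, map_mul]
  calc V.valuation (algebraMap k K c) * V.valuation x ≤ 1 * V.valuation x := by
        gcongr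
        exact (V.valuation_le_one_iff _).2 (hk c)
    _ = V.valuation x := one_mul _

theorem nb_div_mem {V : ValuationSubring K} {x s : K} (hs : s ≠ 0) :
    x / s ∈ V ↔ V.valuation x ≤ V.valuation s := by
  have hs' : 0 < V.valuation s := zero_lt_iff.2 ((map_ne_zero _).2 hs)
  rw [← V.valuation_le_one_iff, map_div₀, div_le_one₀ hs']

theorem nb_div_nonunits {V : ValuationSubring K} {x s : K} (hs : s ≠ 0) :
    x / s ∈ V.nonunits ↔ V.valuation x < V.valuation s := by
  have hs' : 0 < V.valuation s := zero_lt_iff.2 ((map_ne_zero _).2 hs)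
  rw [V.mem_nonunits_iff, map_div₀, div_lt_one₀ hs']

variable {M : NModel k K}

theorem nb_isMin_iff {V : ValuationSubring K} {s : K} :
    M.IsMin V s ↔ s ∈ M.W ∧ s ≠ 0 ∧ ∀ x ∈ M.W, V.valuation x ≤ V.valuation s := by
  constructor
  · rintro ⟨h1, h2, h3⟩
    exact ⟨h1, h2, fun x hx => (nb_div_mem h2).1 (h3 x hx)⟩
  · rintro ⟨h1, h2, h3⟩
    exact ⟨h1, h2, fun x hx => (nb_div_mem h2).2 (h3 x hx)⟩

theorem nb_not_isMin {V : ValuationSubring K} {s x : K} (hs : M.IsMin V s) (hx : x ∈ M.W) :
    ¬ M.IsMin V x ↔ V.valuation x < V.valuation s := by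
  obtain ⟨h1, h2, h3⟩ := nb_isMin_iff.1 hs
  constructor
  · intro h
    by_contra hcon
    apply h
    have hge : V.valuation s ≤ V.valuation x := not_lt.1 hcon
    refine nb_isMin_iff.2 ⟨hx, ?_, fun y hy => (h3 y hy).trans hge⟩
    rintro rfl
    rw [map_zero] at hge
    exact (map_ne_zero V.valuation).2 h2 (le_zero_iff.1 hge)
  · intro h h'
    exact absurd ((nb_isMin_iff.1 h').2.2 s h1) (not_le.2 h)

/-- The elements of value smaller than that of `s`. -/
def nbLt (V : ValuationSubring K) (hk : ∀ c : k, algebraMap k K c ∈ V) (s : K) (hs : s ≠ 0) :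
    Submodule k K where
  carrier := {x | V.valuation x < V.valuation s}
  zero_mem' := by
    change V.valuation 0 < _
    rw [map_zero]
    exact zero_lt_iff.2 ((map_ne_zero _).2 hs)
  add_mem' := by
    intro x y hx hy
    exact lt_of_le_of_lt (V.valuation.map_add x y) (max_lt hx hy)
  smul_mem' := by
    intro c x hx
    exact lt_of_le_of_lt (nb_smul hk c x) hx

theorem nb_mem_lt {V : ValuationSubring K} {hk : ∀ c : k, algebraMap k K c ∈ V} {s : K}
    {hs : s ≠ 0} {x : K} : x ∈ nbLt V hk s hs ↔ V.valuation x < V.valuation s := Iff.rfl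

/-- At most one multiple of a minimal form can be subtracted to get a form that is not minimal. -/
theorem nb_subsingleton {V : ValuationSubring K} (hk : ∀ c : k, algebraMap k K c ∈ V) {x y : K}
    (hx : x ∈ M.W) (hy : M.IsMin V y) : {b : k | ¬ M.IsMin V (x - b • y)}.Subsingleton := by
  intro b hb b' hb'
  by_contra hne
  have hmem : ∀ b : k, x - b • y ∈ M.W := fun b => M.W.sub_mem hx (M.W.smul_mem b hy.1)
  have h1 := (nb_not_isMin hy (hmem b)).1 hb
  have h2 := (nb_not_isMin hy (hmem b')).1 hb'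
  have h3 : (x - b • y) - (x - b' • y) ∈ nbLt V hk y hy.2.1 := Submodule.sub_mem _ h1 h2
  have h4 : (x - b • y) - (x - b' • y) = algebraMap k K (b' - b) * y := by
    rw [← Algebra.smul_def, sub_smul]
    abel
  rw [h4, nb_mem_lt, map_mul, nb_const hk (sub_ne_zero.2 (Ne.symm hne)), one_mul] at h3
  exact lt_irrefl _ h3

theorem nb_sub_isMin {V : ValuationSubring K} (hk : ∀ c : k, algebraMap k K c ∈ V) {x y : K}
    (hx : M.IsMin V x) (hy : y ∈ M.W) (hy' : ¬ M.IsMin V y) (t : k) : M.IsMin V (x - t • y) := by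
  by_contra h
  have h1 := (nb_not_isMin hx (M.W.sub_mem hx.1 (M.W.smul_mem t hy))).1 h
  have h2 := (nb_not_isMin hx hy).1 hy'
  have h3 : (x - t • y) + t • y ∈ nbLt V hk x hx.2.1 :=
    Submodule.add_mem _ h1 (Submodule.smul_mem _ t h2)
  rw [sub_add_cancel, nb_mem_lt] at h3
  exact lt_irrefl _ h3

end

theorem NModel.bertini {k K : Type} [Field k] [IsAlgClosed k] [Field K] [Algebra k K]
    (M : NModel k K) (htr : Algebra.trdeg k K = 2) (W' : Submodule k K) (hW' : W' ≤ M.W)
    (hα : IntermediateField.adjoin k {f : K | ∃ x ∈ W', ∃ y ∈ W', f = x / y} = ⊤)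
    (hβ : ∀ V, M.Curve V → ∃ s ∈ W', M.IsMin V s)
    (Hs : Finset (Submodule k K)) (hHs : ∀ H ∈ Hs, ¬ W' ≤ H) :
    ∃ s ∈ W', (∀ H ∈ Hs, s ∉ H) ∧ ∃ γ, M.IsPrimeForm s γ := by
  classical
  have hinf : Infinite k := IsAlgClosed.instInfinite
  -- a spanning family of `W'`
  have hfdW : FiniteDimensional k M.W := Module.Finite.iff_fg.2 M.fg
  have hfd : FiniteDimensional k W' := Submodule.finiteDimensional_of_le hW'
  obtain ⟨S, hS⟩ : W'.FG := Module.Finite.iff_fg.1 hfd
  let m := S.card
  let w : Fin m → K := fun i => (S.equivFin.symm i : K)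
  have hw : Submodule.span k (Set.range w) = W' := by
    rw [← hS]
    congr 1
    ext x
    constructor
    · rintro ⟨i, rfl⟩
      exact (S.equivFin.symm i).2
    · intro hx
      exact ⟨S.equivFin ⟨x, hx⟩, by simp [w]⟩
  let L : (Fin m → k) →ₗ[k] K := Fintype.linearCombination k w
  have hL : ∀ c, L c = ∑ j, c j • w j := fun c => Fintype.linearCombination_apply k w c
  have hLr : LinearMap.range L = W' := by
    rw [← hw]
    exact Fintype.range_linearCombination k w
  have hLW : ∀ c, L c ∈ W' := fun c => hLr ▸ LinearMap.mem_range_self L c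
  -- `W'` is not zero
  have hne : ∃ x ∈ W', x ≠ 0 := by
    by_contra hcon
    push Not at hcon
    have h1 : {f : K | ∃ x ∈ W', ∃ y ∈ W', f = x / y} ⊆ {0} := by
      rintro f ⟨x, hx, y, hy, rfl⟩
      rw [hcon x hx, zero_div]
      rfl
    have h2 : (⊤ : IntermediateField k K) ≤ ⊥ := by
      rw [← hα, IntermediateField.adjoin_le_iff]
      intro f hf
      rw [Set.mem_singleton_iff.1 (h1 hf)]
      exact zero_mem _
    have h3 : Algebra.IsAlgebraic k K := by
      constructor
      intro x
      have hx : x ∈ (⊥ : IntermediateField k K) := h2 trivial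
      obtain ⟨c, rfl⟩ := IntermediateField.mem_bot.1 hx
      exact isAlgebraic_algebraMap c
    rw [_root_.trdeg_eq_zero (R := k) (A := K)] at htr
    exact two_ne_zero htr.symm
  -- `l₀`
  have avoid : ∀ Ws : Finset (Submodule k (Fin m → k)), ⊤ ∉ Ws → ∃ c, ∀ H ∈ Ws, c ∉ H := by
    intro Ws hWs
    by_contra hcon
    push Not at hcon
    apply Subspace.biUnion_ne_univ_of_top_notMem hWs
    rw [Set.eq_univ_iff_forall]
    intro c
    obtain ⟨H, hH, hc⟩ := hcon c
    exact Set.mem_biUnion (Finset.mem_coe.2 hH) hc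
  have hcomap : ∀ H : Submodule k K, ¬ W' ≤ H → H.comap L ≠ ⊤ := by
    intro H hH h
    apply hH
    intro x hx
    rw [← hLr] at hx
    obtain ⟨c, rfl⟩ := hx
    have : c ∈ H.comap L := by rw [h]; trivial
    exact this
  obtain ⟨c₀, hc₀⟩ := avoid (insert (LinearMap.ker L) (Hs.image fun H => H.comap L)) (by
    rw [Finset.mem_insert, Finset.mem_image]
    rintro (h | ⟨H, hH, h⟩)
    · obtain ⟨x, hx, hx0⟩ := hne
      rw [← hLr] at hx
      obtain ⟨c, rfl⟩ := hx
      apply hx0
      have : c ∈ LinearMap.ker L := by rw [← h]; trivial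
      exact this
    · exact hcomap H (hHs H hH) h)
  set l₀ := L c₀ with hl₀
  have hl₀W := hLW c₀
  have hl₀0 : l₀ ≠ 0 := fun h => hc₀ _ (Finset.mem_insert_self _ _) h
  have hl₀H : ∀ H ∈ Hs, l₀ ∉ H := fun H hH h =>
    hc₀ _ (Finset.mem_insert_of_mem (Finset.mem_image_of_mem _ hH)) h
  have hl₀M : l₀ ∈ M.W := hW' hl₀W
  -- the curves where `l₀` is not minimal
  have hfin := M.finite_not_isMin htr hl₀M hl₀0
  have hkV : ∀ V, M.Curve V → ∀ c : k, algebraMap k K c ∈ V := fun V hV => hV.2.1
  choose! sV hsV hsV' using hβ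
  -- the generators
  let y : Fin m → K := fun j => w j / l₀
  have hyL : ∀ c : Fin m → k, ∑ j, c j • y j = L c / l₀ := by
    intro c
    rw [hL, Finset.sum_div]
    refine Finset.sum_congr rfl fun j _ => ?_
    rw [Algebra.smul_def, Algebra.smul_def, mul_div_assoc]
  have hy : IntermediateField.adjoin k (Set.range y) = ⊤ := by
    rw [eq_top_iff, ← hα, IntermediateField.adjoin_le_iff]
    have h1 : ∀ x ∈ W', x / l₀ ∈ IntermediateField.adjoin k (Set.range y) := by
      intro x hx
      rw [← hLr] at hx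
      obtain ⟨c, rfl⟩ := hx
      rw [← hyL]
      apply sum_mem
      intro j _
      exact IntermediateField.smul_mem _
        (IntermediateField.subset_adjoin k (Set.range y) (Set.mem_range_self j))
    rintro f ⟨x, hx, z, hz, rfl⟩
    have h2 : x / z = (x / l₀) / (z / l₀) := by
      rw [div_div_div_cancel_right₀ hl₀0]
    rw [h2]
    exact div_mem (h1 x hx) (h1 z hz)
  let BV : {V // V ∈ hfin.toFinset} → Submodule k K := fun V =>
    nbLt V.1 (hkV V.1 (hfin.mem_toFinset.1 V.2).1) (sV V.1)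
      (hsV' V.1 (hfin.mem_toFinset.1 V.2).1).2.1
  have hBV : ⊤ ∉ hfin.toFinset.attach.image fun V => (BV V).comap L := by
    rw [Finset.mem_image]
    rintro ⟨V, -, h⟩
    have hV := (hfin.mem_toFinset.1 V.2).1
    refine hcomap (BV V) ?_ h
    intro hle
    have h1 : V.1.valuation (sV V.1) < V.1.valuation (sV V.1) := hle (hsV V.1 hV)
    exact lt_irrefl _ h1
  obtain ⟨c₁, c₂, hc₁, halg, hfd', hsep⟩ := ff_exists htr y hy _ hBV
  set l₁ := L c₁ with hl₁
  set l₂ := L c₂ with hl₂
  have hl₁M : l₁ ∈ M.W := hW' (hLW c₁)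
  have hl₂M : l₂ ∈ M.W := hW' (hLW c₂)
  rw [hyL c₁, hyL c₂] at halg hfd' hsep
  have h01 : ∀ V, M.Curve V → ¬ M.IsMin V l₀ → M.IsMin V l₁ := by
    intro V hV hV0
    by_contra hcon
    have h1 := (nb_not_isMin (hsV' V hV) hl₁M).1 hcon
    have hVF : V ∈ hfin.toFinset := hfin.mem_toFinset.2 ⟨hV, hV0⟩
    exact hc₁ ((BV ⟨V, hVF⟩).comap L)
      (Finset.mem_image_of_mem (fun V => (BV V).comap L) (Finset.mem_attach _ ⟨V, hVF⟩)) h1
  set u := l₁ / l₀ with hu
  set v := l₂ / l₀ with hv
  -- the choice of `b`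
  have hB1 := algClosed_generic u v halg
  have hB2 : (⋃ V ∈ {V | M.Curve V ∧ ¬ M.IsMin V l₀}, {b : k | ¬ M.IsMin V (l₂ - b • l₁)}).Finite := by
    apply hfin.biUnion
    intro V hV
    exact (nb_subsingleton (hkV V hV.1) hl₂M (h01 V hV.1 hV.2)).finite
  obtain ⟨b, hb⟩ := (hB1.union hB2).infinite_compl.nonempty
  have hb1 : ∀ z : K, IsAlgebraic (IntermediateField.adjoin k {v - b • u}) z →
      z ∈ IntermediateField.adjoin k {v - b • u} := by
    intro z hz
    by_contra h
    exact hb (Or.inl ⟨z, hz, h⟩)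
  have hb2 : ∀ V, M.Curve V → ¬ M.IsMin V l₀ → M.IsMin V (l₂ - b • l₁) := by
    intro V hV hV0
    by_contra h
    exact hb (Or.inr (Set.mem_biUnion
      (show V ∈ {V | M.Curve V ∧ ¬ M.IsMin V l₀} from ⟨hV, hV0⟩) h))
  set l := l₂ - b • l₁ with hl
  have hlM : l ∈ M.W := M.W.sub_mem hl₂M (M.W.smul_mem b hl₁M)
  -- the chart
  have hFT := M.finiteType_chart l₀
  have hFr := M.isFractionRing_chart hl₀M hl₀0
  have hIC := M.isIntegrallyClosed_chart hl₀M hl₀0
  have hN : IsNoetherianRing (M.chart l₀) := Algebra.FiniteType.isNoetherianRing k _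
  have hmem : ∀ x ∈ M.W, x / l₀ ∈ M.chart l₀ := fun x hx => Algebra.subset_adjoin ⟨x, hx, rfl⟩
  have hluv : l / l₀ = v - b • u := by
    rw [hl, hv, hu, sub_div, Algebra.smul_def, Algebra.smul_def, mul_div_assoc]
  let sA : M.chart l₀ := ⟨l / l₀, hmem l hlM⟩
  let uA : M.chart l₀ := ⟨l₁ / l₀, hmem l₁ hl₁M⟩
  have hs : algebraMap (M.chart l₀) K sA = v - b • u := hluv
  have hu' : algebraMap (M.chart l₀) K uA = u := rfl
  have halg' : AlgebraicIndependent k ![sA, uA] := by
    have h1 := ber_algInd u v b halg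
    have h2 : (![v - b • u, u] : Fin 2 → K) =
        (IsScalarTower.toAlgHom k (M.chart l₀) K) ∘ ![sA, uA] := by
      ext i
      fin_cases i
      · exact hs.symm
      · exact hu'.symm
    rw [h2] at h1
    exact AlgebraicIndependent.of_comp _ h1
  have hadj := ber_adjoin_eq u v b
  have hfd'' : FiniteDimensional (IntermediateField.adjoin k
      {algebraMap (M.chart l₀) K sA, algebraMap (M.chart l₀) K uA}) K := by
    rw [hs, hu', hadj]; exact hfd'
  have hsep' : Algebra.IsSeparable (IntermediateField.adjoin k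
      {algebraMap (M.chart l₀) K sA, algebraMap (M.chart l₀) K uA}) K := by
    rw [hs, hu', hadj]; exact hsep
  have hT1 := prime_fibre (k := k) (A := M.chart l₀) (K := K)
    (fun f hf => nn_mem_of_height_one f hf) sA uA halg' (by rw [hs]; exact hb1)
  have hT2 : (⋃ H ∈ Hs, {t : k | l - t • l₀ ∈ H}).Finite := by
    apply Set.Finite.biUnion (Finset.finite_toSet Hs)
    intro H hH
    apply Set.Subsingleton.finite
    intro t ht t' ht'
    by_contra hne
    have h1 : (l - t' • l₀) - (l - t • l₀) ∈ H := H.sub_mem ht' ht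
    have h2 : (l - t' • l₀) - (l - t • l₀) = (t - t') • l₀ := by
      rw [sub_smul]; abel
    rw [h2, H.smul_mem_iff (sub_ne_zero.2 hne)] at h1
    exact hl₀H H hH h1
  obtain ⟨t, ht⟩ := (hT1.union hT2).infinite_compl.nonempty
  have ht1 : Prime (sA - algebraMap k (M.chart l₀) t) := by
    by_contra h
    exact ht (Or.inl h)
  have ht2 : ∀ H ∈ Hs, l - t • l₀ ∉ H := by
    intro H hH h
    exact ht (Or.inr (Set.mem_biUnion (Finset.mem_coe.2 hH) h))
  set s := l - t • l₀ with hsdef
  have hsW' : s ∈ W' := W'.sub_mem (W'.sub_mem (hLW c₂) (W'.smul_mem b (hLW c₁)))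
    (W'.smul_mem t hl₀W)
  have hsM : s ∈ M.W := hW' hsW'
  set g : M.chart l₀ := sA - algebraMap k (M.chart l₀) t with hg
  have hgs : (g : K) = s / l₀ := by
    rw [hsdef, sub_div, Algebra.smul_def, mul_div_cancel_right₀ _ hl₀0]
    rfl
  have hg0 : (g : K) ≠ 0 := by
    intro h
    exact ht1.ne_zero (Subtype.ext h)
  have hs0 : s ≠ 0 := by
    intro h
    rw [hgs, h, zero_div] at hg0
    exact hg0 rfl
  obtain ⟨P, hP⟩ := ber_exists_curve ht1
  have hPd := nn_dvr P.ideal P.height
  obtain ⟨γ, hγ, -, hγm⟩ := exists_valOf (K := K) P hPd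
  obtain ⟨hγC, hγ0⟩ := M.curve_of_over htr hl₀M hl₀0 hγ
  have hgP : g ∈ P.ideal := by rw [hP]; exact Ideal.mem_span_singleton_self g
  have hgγ : s / l₀ ∈ γ.nonunits := by
    rw [← hgs]
    exact (hγ g).2.1 hgP
  refine ⟨s, hsW', ht2, γ, hsM, hs0, hγC, ?_, ?_⟩
  · intro V hV
    by_cases hV0 : M.IsMin V l₀
    · obtain ⟨Q, hQ⟩ := M.exists_over htr hV hV0
      have h1 : ¬ M.IsMin V s ↔ g ∈ Q.ideal := by
        rw [nb_not_isMin hV0 hsM, ← nb_div_nonunits hl₀0, ← hgs]
        exact ((hQ g).2).symm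
      constructor
      · rintro h rfl
        apply h1.2 _ h
        -- `γ` lies over `P` and over `Q`
        have h2 : g ∈ P.ideal := hgP
        have h3 := (hγ g).2.1 h2
        exact (hQ g).2.2 h3
      · intro h
        by_contra hcon
        apply h
        have h2 := ber_curve_eq ht1 Q (h1.1 hcon)
        have h3 : Q = P := Curve1.ext' (h2.trans hP.symm)
        subst h3
        exact overV_unique Q hPd hQ hγ
    · constructor
      · rintro - rfl
        exact hV0 hγ0
      · intro _
        exact nb_sub_isMin (hkV V hV) (hb2 V hV hV0) hl₀M hV0 t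
  · intro s' hs' f
    have hs'0 := hs'.2.1
    have h1 : s / s' = (s / l₀) * (l₀ / s') := by
      field_simp
    have h2 : l₀ / s' ∈ γ := hs'.2.2 l₀ hl₀M
    have h3 : s' / l₀ ∈ γ := hγ0.2.2 s' hs'.1
    constructor
    · intro hf
      obtain ⟨a, b', hb', hab⟩ := (hγm f).1 (γ.nonunits_le hf)
      have hb0 : algebraMap (M.chart l₀) K b' ≠ 0 := by
        intro h
        apply hb'
        have : b' = 0 := Subtype.ext h
        rw [this]
        exact P.ideal.zero_mem
      have ha : a ∈ P.ideal := by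
        rw [(hγ a).2, ← hab, γ.mem_nonunits_iff, map_mul]
        calc γ.valuation f * γ.valuation (algebraMap (M.chart l₀) K b')
            ≤ γ.valuation f * 1 := by
              gcongr
              exact (γ.valuation_le_one_iff _).2 (hγ b').1
          _ = γ.valuation f := mul_one _
          _ < 1 := γ.mem_nonunits_iff.1 hf
      rw [hP] at ha
      obtain ⟨a', ha'⟩ := Ideal.mem_span_singleton.1 ha
      refine ⟨(s' / l₀) * (algebraMap (M.chart l₀) K a' / algebraMap (M.chart l₀) K b'), ?_, ?_⟩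
      · apply γ.mul_mem _ _ h3
        rw [hγm]
        exact ⟨a', b', hb', div_mul_cancel₀ _ hb0⟩
      · rw [h1, ← hgs]
        have h4 : f = algebraMap (M.chart l₀) K a / algebraMap (M.chart l₀) K b' := by
          rw [← hab, mul_div_cancel_right₀ _ hb0]
        have h5 : algebraMap (M.chart l₀) K a = (g : K) * algebraMap (M.chart l₀) K a' := by
          rw [ha', map_mul]
          rfl
        rw [h4, h5]
        field_simp
    · rintro ⟨c, hc, rfl⟩
      rw [h1, γ.mem_nonunits_iff, map_mul, map_mul]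
      have h4 := γ.mem_nonunits_iff.1 hgγ
      calc γ.valuation (s / l₀) * γ.valuation (l₀ / s') * γ.valuation c
          ≤ γ.valuation (s / l₀) * 1 * 1 := by
            gcongr
            · exact (γ.valuation_le_one_iff _).2 h2
            · exact (γ.valuation_le_one_iff _).2 hc
        _ = γ.valuation (s / l₀) := by rw [mul_one, mul_one]
        _ < 1 := h4

end Pool.Agent.K1
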