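import Pool.Agent.K1.NChart
import Pool.Agent.K1.NCurve

/-!
Theorem N, row N08: the degree function defined by a prime form.
-/

set_option autoImplicit false

namespace Pool.Agent.K1

section

variable {k K : Type} [Field k] [Field K] [Algebra k K] (M : NModel k K)

/-- The quotient of a form of degree `j` by `s ^ j` is a polynomial of degree `j` in the
generators of the chart. -/
theorem nd_pow (s : K) (N : Submodule k (M.chart s))
    (hN : ∀ x ∈ M.W, ∃ z ∈ N, (z : K) = x / s) (j : ℕ) (y : K) (hy : y ∈ M.W ^ j) :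
    ∃ z ∈ N ^ j, (z : K) = y / s ^ j := by
  induction hy using Submodule.pow_induction_on_left' with
  | algebraMap r =>
    refine ⟨algebraMap k (M.chart s) r, ?_, ?_⟩
    · rw [pow_zero]
      exact Submodule.algebraMap_mem r
    · rw [pow_zero, div_one]
      rfl
  | add x y i hx hy h1 h2 =>
    obtain ⟨z1, hz1, e1⟩ := h1
    obtain ⟨z2, hz2, e2⟩ := h2
    exact ⟨z1 + z2, add_mem hz1 hz2, by rw [Subalgebra.coe_add, e1, e2, add_div]⟩
  | mem_mul m hm i x hx h1 =>
    obtain ⟨z1, hz1, e1⟩ := h1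
    obtain ⟨z2, hz2, e2⟩ := hN m hm
    refine ⟨z2 * z1, ?_, ?_⟩
    · rw [Nat.succ_eq_add_one, pow_succ']
      exact Submodule.mul_mem_mul hz2 hz1
    · rw [Subalgebra.coe_mul, e1, e2, Nat.succ_eq_add_one, pow_succ', div_mul_div_comm]

variable {M}

/-- An element of the chart becomes regular at `γ` after multiplication by a power of `s / s₀`. -/
theorem nd_exists {s s₀ : K} {γ : ValuationSubring K} (h : M.IsPrimeForm s γ)
    (h0 : M.IsMin γ s₀) (f : M.chart s) : ∃ j : ℕ, (f : K) * (s / s₀) ^ j ∈ γ := by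
  obtain ⟨j, hj⟩ := (M.mem_chart_iff h.mem h.ne (f : K)).mp f.2
  refine ⟨j, ?_⟩
  have := M.isMin_pow h0 h.curve.2.1 j hj
  rwa [mul_div_assoc, ← div_pow] at this

theorem nd_mono {s s₀ : K} {γ : ValuationSubring K} (h : M.IsPrimeForm s γ)
    (h0 : M.IsMin γ s₀) {f : K} {i j : ℕ} (hij : i ≤ j) (hi : f * (s / s₀) ^ i ∈ γ) :
    f * (s / s₀) ^ j ∈ γ := by
  obtain ⟨l, rfl⟩ := Nat.exists_eq_add_of_le hij
  rw [pow_add, ← mul_assoc]
  exact mul_mem hi (pow_mem (h0.2.2 s h.mem) l)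

theorem nd_indep {s s₀ s' : K} {γ : ValuationSubring K} (h0 : M.IsMin γ s₀) (h' : M.IsMin γ s')
    {f : K} {j : ℕ} (hi : f * (s / s₀) ^ j ∈ γ) : f * (s / s') ^ j ∈ γ := by
  have e : s / s' = s / s₀ * (s₀ / s') := by
    rw [div_mul_div_cancel₀ h0.2.1]
  rw [e, mul_pow, ← mul_assoc]
  exact mul_mem hi (pow_mem (h'.2.2 s₀ h0.1) j)

/-- An element which is not in a valuation ring whose nonunits are the multiples of `T`. -/
theorem nd_inv {γ : ValuationSubring K} {T : K}
    (hT : ∀ f : K, f ∈ γ.nonunits ↔ ∃ c ∈ γ, f = T * c) (hT0 : T ≠ 0) {x : K} (hx : x ∉ γ) :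
    (x * T)⁻¹ ∈ γ := by
  have hx0 : x ≠ 0 := fun e => hx (e ▸ zero_mem γ)
  have h1 : x⁻¹ ∈ γ.nonunits := by
    rw [ValuationSubring.mem_nonunits_iff]
    have h2 : ¬ γ.valuation x ≤ 1 := fun h3 => hx ((γ.valuation_le_one_iff x).mp h3)
    rw [map_inv₀]
    exact (inv_lt_one₀ ((zero_lt_iff.mpr ((Valuation.ne_zero_iff _).mpr hx0)))).mpr
      (not_le.mp h2)
  obtain ⟨c, hc, e⟩ := (hT _).mp h1
  have : (x * T)⁻¹ = c := by
    rw [mul_inv, e]
    field_simp
  rwa [this]

end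

theorem NModel.exists_degFun {k K : Type} [Field k] [IsAlgClosed k] [Field K] [Algebra k K]
    (M : NModel k K) (htr : Algebra.trdeg k K = 2) {s : K} {γ : ValuationSubring K}
    (h : M.IsPrimeForm s γ) :
    ∃ D : DegFun k (M.chart s), ∀ s', M.IsMin γ s' → ∀ (f : M.chart s) (j : ℕ),
      D.deg f ≤ j ↔ (f : K) * (s / s') ^ j ∈ γ := by
  classical
  have hγ := h.curve.2.1
  obtain ⟨s₀, h0⟩ := M.exists_isMin γ hγ
  set T : K := s / s₀ with hTdef
  have hT0 : T ≠ 0 := div_ne_zero h.ne h0.2.1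
  have hTγ : T ∈ γ := h0.2.2 s h.mem
  have hT : ∀ f : K, f ∈ γ.nonunits ↔ ∃ c ∈ γ, f = T * c := h.mult s₀ h0
  have hex : ∀ f : M.chart s, ∃ j : ℕ, (f : K) * T ^ j ∈ γ := nd_exists h h0
  have hdeg : ∀ (f : M.chart s) (j : ℕ), Nat.find (hex f) ≤ j ↔ (f : K) * T ^ j ∈ γ :=
    fun f j => ⟨fun hj => nd_mono h h0 hj (Nat.find_spec (hex f)), fun hj => Nat.find_min' _ hj⟩
  -- the elements of the chart are in the valuation rings of all the other curves
  have hother : ∀ V, M.Curve V → V ≠ γ → ∀ f : M.chart s, (f : K) ∈ V := by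
    intro V hV hne f
    have h1 := (h.iff V hV).mpr hne
    have : (f : K) ∈ V.toSubring :=
      M.mem_of_mem_chart f.2 (O := V.toSubring) hV.2.1 h1.2.2
    exact this
  have hform : ∀ (f : M.chart s) (j : ℕ), (f : K) * T ^ j ∈ γ → (f : K) * s ^ j ∈ M.W ^ j := by
    intro f j hj
    refine M.mem_pow_of_curves htr j _ fun V hV t ht => ?_
    rw [mul_div_assoc, ← div_pow]
    by_cases hne : V = γ
    · subst hne
      exact nd_indep h0 ht hj
    · exact mul_mem (hother V hV hne f) (pow_mem (ht.2.2 s h.mem) j)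
  -- the leading coefficient is a unit
  have hunit : ∀ f : M.chart s, f ≠ 0 → ((f : K) * T ^ Nat.find (hex f))⁻¹ ∈ γ := by
    intro f hf
    have hfK : (f : K) ≠ 0 := fun e => hf (Subtype.ext e)
    obtain ha | ⟨a, ha⟩ : Nat.find (hex f) = 0 ∨ ∃ a, Nat.find (hex f) = a + 1 := by
      rcases Nat.find (hex f) with _ | a
      · exact Or.inl rfl
      · exact Or.inr ⟨a, rfl⟩
    · have h1 := hform f 0 ((hdeg f 0).mp ha.le)
      simp only [pow_zero, mul_one, Submodule.mem_one] at h1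
      obtain ⟨c, hc⟩ := h1
      rw [ha, pow_zero, mul_one, ← hc, ← map_inv₀]
      exact hγ _
    · have h1 : (f : K) * T ^ a ∉ γ := by
        intro h2
        have := (hdeg f a).mpr h2
        omega
      have h2 := nd_inv hT hT0 h1
      rwa [mul_assoc, ← pow_succ, ← ha] at h2
  have hmul : ∀ f g : M.chart s, f ≠ 0 → g ≠ 0 →
      Nat.find (hex (f * g)) = Nat.find (hex f) + Nat.find (hex g) := by
    intro f g hf hg
    apply le_antisymm
    · rw [hdeg, Subalgebra.coe_mul, pow_add, mul_mul_mul_comm]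
      exact mul_mem (Nat.find_spec (hex f)) (Nat.find_spec (hex g))
    · by_contra hlt
      push Not at hlt
      obtain ⟨l, hl⟩ := Nat.exists_eq_add_of_lt hlt
      have h1 : (f : K) * (g : K) * T ^ Nat.find (hex (f * g)) ∈ γ :=
        Nat.find_spec (hex (f * g))
      have h2 : ((f : K) * T ^ Nat.find (hex f)) * ((g : K) * T ^ Nat.find (hex g)) ∈
          γ.nonunits := by
        rw [hT, mul_mul_mul_comm, ← pow_add, hl]
        refine ⟨(f : K) * (g : K) * T ^ Nat.find (hex (f * g)) * T ^ l,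
          mul_mem h1 (pow_mem hTγ l), ?_⟩
        ring
      have h3 : ((f : K) * T ^ Nat.find (hex f)) * ((g : K) * T ^ Nat.find (hex g)) ≠ 0 :=
        mul_ne_zero (mul_ne_zero (fun e => hf (Subtype.ext e)) (pow_ne_zero _ hT0))
          (mul_ne_zero (fun e => hg (Subtype.ext e)) (pow_ne_zero _ hT0))
      have h4 := mul_mem (hunit f hf) (hunit g hg)
      rw [← mul_inv] at h4
      rw [ValuationSubring.mem_nonunits_iff] at h2
      have h5 := (γ.valuation_le_one_iff _).mpr h4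
      rw [map_inv₀, inv_le_one₀ ((zero_lt_iff.mpr ((Valuation.ne_zero_iff _).mpr h3)))] at h5
      exact absurd h2 (not_lt.mpr h5)
  obtain ⟨S₀, hS₀⟩ := M.fg
  have hS₀W : ∀ x ∈ S₀, x ∈ M.W := fun x hx => hS₀ ▸ Submodule.subset_span hx
  have hxs : ∀ x ∈ M.W, x / s ∈ M.chart s := fun x hx =>
    Algebra.subset_adjoin ⟨x, hx, rfl⟩
  let S : Finset (M.chart s) := S₀.attach.image fun x : {x // x ∈ S₀} =>
    ⟨(x : K) / s, hxs _ (hS₀W _ x.2)⟩
  have hspan : ∀ x ∈ M.W, ∃ z ∈ Submodule.span k (insert (1 : M.chart s) (S : Set (M.chart s))),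
      (z : K) = x / s := by
    intro x hx
    rw [← hS₀] at hx
    induction hx using Submodule.span_induction with
    | mem x hx =>
      refine ⟨⟨x / s, hxs x (hS₀W x hx)⟩, Submodule.subset_span (Or.inr ?_), rfl⟩
      exact Finset.mem_coe.mpr (Finset.mem_image.mpr ⟨⟨x, hx⟩, Finset.mem_attach _ _, rfl⟩)
    | zero => exact ⟨0, zero_mem _, by simp⟩
    | add x y hx hy h1 h2 =>
      obtain ⟨z1, hz1, e1⟩ := h1
      obtain ⟨z2, hz2, e2⟩ := h2
      exact ⟨z1 + z2, add_mem hz1 hz2, by rw [Subalgebra.coe_add, e1, e2, add_div]⟩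
    | smul c x hx h1 =>
      obtain ⟨z1, hz1, e1⟩ := h1
      exact ⟨c • z1, Submodule.smul_mem _ c hz1, by rw [Subalgebra.coe_smul, e1, smul_div_assoc]⟩
  refine ⟨⟨fun f => Nat.find (hex f), S, hmul, fun f g => ?_, fun a ha => ?_, fun f => ?_⟩,
    fun s' hs' f j => ?_⟩
  · rw [hdeg, Subalgebra.coe_add, add_mul]
    exact add_mem ((hdeg f _).mp (le_max_left _ _)) ((hdeg g _).mp (le_max_right _ _))
  · rw [hdeg, pow_one]
    obtain ⟨x, -, rfl⟩ := Finset.mem_image.mp ha
    change (x : K) / s * (s / s₀) ∈ γ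
    rw [div_mul_div_cancel₀ h.ne]
    exact h0.2.2 _ (hS₀W _ x.2)
  · obtain ⟨z, hz, e⟩ := nd_pow M s _ hspan (Nat.find (hex f)) _
      (hform f _ (Nat.find_spec (hex f)))
    have : z = f := by
      apply Subtype.ext
      rw [e, mul_div_assoc, div_self (pow_ne_zero _ h.ne), mul_one]
    rwa [this] at hz
  · change Nat.find (hex f) ≤ j ↔ _
    rw [hdeg]
    exact ⟨nd_indep h0 hs', nd_indep hs' h0⟩

end Pool.Agent.K1
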