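import Pool.Agent.K1.NModelDef
import Pool.Agent.K1.L2Regular
import Pool.Agent.K1.Ufd2

/-!
Theorem N, the link between the given surface (homogeneous coordinates `w`, affine ring `A`) and
a normal projective model: the curves are the same, and regular points of `Spec A` are points of
the model.
-/

set_option autoImplicit false

open Polynomial

namespace Pool.Agent.K1

/-- An element integral over a ring whose elements have constant residues has a constant
residue. -/
theorem nl_residue {k K : Type} [Field k] [IsAlgClosed k] [Field K] [Algebra k K]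
    (V : ValuationSubring K) (hk : ∀ c : k, algebraMap k K c ∈ V) (R : Subring K)
    (hR : ∀ a ∈ R, ∃ c : k, a - algebraMap k K c ∈ V.nonunits) (f : K) (hf : IsIntegral R f) :
    ∃ c : k, f - algebraMap k K c ∈ V.nonunits := by
  classical
  have hRV : R ≤ V.toSubring := by
    intro a ha
    obtain ⟨c, hc⟩ := hR a ha
    have h1 : a - algebraMap k K c ∈ V := V.nonunits_le hc
    have h2 := V.add_mem _ _ h1 (hk c)
    rwa [sub_add_cancel] at h2
  let ι : R →+* V := Subring.inclusion hRV
  let κ : k →+* V := (algebraMap k K).codRestrict V.toSubring hk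
  let ρ : V →+* IsLocalRing.ResidueField V := IsLocalRing.residue V
  obtain ⟨p, hp, hpe⟩ := hf
  have hcomp : (algebraMap V K).comp ι = algebraMap R K := by
    ext a
    rfl
  -- `f` lies in `V`
  have hfV : f ∈ V := by
    have h1 : IsIntegral V f := by
      refine ⟨p.map ι, hp.map ι, ?_⟩
      rw [eval₂_map, hcomp]
      exact hpe
    obtain ⟨y, hy⟩ := IsIntegrallyClosed.isIntegral_iff.1 h1
    rw [← hy]
    exact y.2
  have h2 : eval₂ ι (⟨f, hfV⟩ : V) p = 0 := by
    have hinj : Function.Injective (algebraMap V K) := Subtype.val_injective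
    apply hinj
    rw [map_zero, hom_eval₂, hcomp]
    exact hpe
  have h3 : eval₂ (ρ.comp ι) (ρ ⟨f, hfV⟩) p = 0 := by
    rw [← hom_eval₂, h2, map_zero]
  have hval : ∀ (x : V) (c : k), ρ x = ρ (κ c) ↔ (x : K) - algebraMap k K c ∈ V.nonunits := by
    intro x c
    rw [← sub_eq_zero, ← map_sub, IsLocalRing.residue_eq_zero_iff,
      ← ValuationSubring.coe_mem_nonunits_iff]
    rfl
  have h4 : p.map (ρ.comp ι) ∈ lifts (ρ.comp κ) := by
    rw [lifts_iff_coeff_lifts]
    intro n
    rw [coeff_map]
    obtain ⟨c, hc⟩ := hR (p.coeff n) (p.coeff n).2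
    exact ⟨c, ((hval (ι (p.coeff n)) c).2 hc).symm⟩
  obtain ⟨q, hq1, -, hq3⟩ := lifts_and_natDegree_eq_and_monic h4 (hp.map _)
  let _ : Algebra k (IsLocalRing.ResidueField V) := (ρ.comp κ).toAlgebra
  have h5 : IsIntegral k (ρ ⟨f, hfV⟩) := by
    refine ⟨q, hq3, ?_⟩
    change eval₂ (ρ.comp κ) _ q = 0
    rw [← eval_map, hq1, eval_map]
    exact h3
  obtain ⟨c, hc⟩ := (IsAlgClosed.algebraMap_bijective_of_isIntegral (k := k)
    (K := integralClosure k (IsLocalRing.ResidueField V))).2 ⟨ρ ⟨f, hfV⟩, h5⟩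
  refine ⟨c, (hval ⟨f, hfV⟩ c).1 ?_⟩
  have h6 := congrArg Subtype.val hc
  exact h6.symm

/-- Integrality from the valuation rings. -/
theorem nl_integral {K : Type} [Field K] (s : Set K) (f : K)
    (h : ∀ V : ValuationSubring K, s ⊆ V → f ∈ V) : IsIntegral (Subring.closure s) f := by
  have h1 : f ∈ (⨅ V : {V : ValuationSubring K // s ⊆ V.toSubring}, V.1.toSubring) := by
    rw [Subring.mem_iInf]
    intro V
    exact h V.1 V.2
  rw [iInf_valuationSubring_superset] at h1
  exact h1

/-- A largest element of a finite family. -/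
theorem nl_exists_max {K : Type} [Field K] (V : ValuationSubring K) {n : ℕ}
    (w : Fin (n + 1) → K) (h0 : w 0 ≠ 0) : ∃ j, w j ≠ 0 ∧ ∀ i, w i / w j ∈ V := by
  obtain ⟨j, -, hj⟩ := Finset.exists_max_image Finset.univ (fun i => V.valuation (w i))
    ⟨0, Finset.mem_univ _⟩
  have hj0 : w j ≠ 0 := by
    intro h
    have h1 := hj 0 (Finset.mem_univ _)
    simp only [h, map_zero] at h1
    have h2 : V.valuation (w 0) = 0 := le_antisymm h1 zero_le
    exact h0 ((map_eq_zero V.valuation).1 h2)
  refine ⟨j, hj0, fun i => ?_⟩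
  rw [← V.valuation_le_one_iff, map_div₀]
  exact div_le_one_of_le₀ (hj i (Finset.mem_univ _)) zero_le

theorem nl_prod_single {K : Type} [Field K] {n : ℕ} (w : Fin (n + 1) → K) (j : Fin (n + 1))
    (m : ℕ) : ∏ i, w i ^ (Pi.single j m : Fin (n + 1) → ℕ) i = w j ^ m := by
  rw [Finset.prod_eq_single j]
  · rw [Pi.single_eq_same]
  · intro i _ hi
    rw [Pi.single_eq_of_ne hi, pow_zero]
  · intro h
    exact absurd (Finset.mem_univ _) h

theorem nl_sum_single {n : ℕ} (j : Fin (n + 1)) (m : ℕ) :
    ∑ i, (Pi.single j m : Fin (n + 1) → ℕ) i = m := by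
  simp

section aux

variable {k K : Type} [Field k] [Field K] [Algebra k K]

/-- The affine ring of a coordinate. -/
theorem nl_adjoin_subset (V : ValuationSubring K) (hk : ∀ c : k, algebraMap k K c ∈ V)
    {S : Set K} (hS : S ⊆ V) : ((Algebra.adjoin k S : Subalgebra k K) : Set K) ⊆ V := by
  intro a ha
  refine Algebra.adjoin_induction (p := fun a _ => a ∈ V) ?_ ?_ ?_ ?_ ha
  · intro x hx
    exact hS hx
  · exact hk
  · intro x y _ _ hx hy
    exact V.add_mem _ _ hx hy
  · intro x y _ _ hx hy
    exact V.mul_mem _ _ hx hy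

theorem nl_adjoin_residue (V : ValuationSubring K) (hk : ∀ c : k, algebraMap k K c ∈ V)
    {S : Set K} (hSV : S ⊆ V) (hS : ∀ x ∈ S, ∃ c : k, x - algebraMap k K c ∈ V.nonunits) (a : K)
    (ha : a ∈ Algebra.adjoin k S) : ∃ c : k, a - algebraMap k K c ∈ V.nonunits := by
  have hzero : (0 : K) ∈ V.nonunits := by
    rw [ValuationSubring.mem_nonunits_iff, map_zero]
    exact zero_lt_one
  have hadd : ∀ x y : K, x ∈ V.nonunits → y ∈ V.nonunits → x + y ∈ V.nonunits := by
    intro x y hx hy
    rw [ValuationSubring.mem_nonunits_iff] at hx hy ⊢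
    exact (V.valuation.map_add x y).trans_lt (max_lt hx hy)
  have hmul : ∀ x y : K, x ∈ V → y ∈ V.nonunits → x * y ∈ V.nonunits := by
    intro x y hx hy
    rw [ValuationSubring.mem_nonunits_iff] at hy ⊢
    rw [← V.valuation_le_one_iff] at hx
    rw [map_mul]
    exact mul_lt_one_of_nonneg_of_lt_one_right hx zero_le hy
  refine Algebra.adjoin_induction
    (p := fun a _ => ∃ c : k, a - algebraMap k K c ∈ V.nonunits) ?_ ?_ ?_ ?_ ha
  · exact hS
  · intro c
    exact ⟨c, by rw [sub_self]; exact hzero⟩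
  · rintro x y _ _ ⟨c, hc⟩ ⟨d, hd⟩
    refine ⟨c + d, ?_⟩
    have : x + y - algebraMap k K (c + d) = (x - algebraMap k K c) + (y - algebraMap k K d) := by
      rw [map_add]; ring
    rw [this]
    exact hadd _ _ hc hd
  · rintro x y hx _ ⟨c, hc⟩ ⟨d, hd⟩
    refine ⟨c * d, ?_⟩
    have : x * y - algebraMap k K (c * d) =
        x * (y - algebraMap k K d) + algebraMap k K d * (x - algebraMap k K c) := by
      rw [map_mul]; ring
    rw [this]
    exact hadd _ _ (hmul _ _ (nl_adjoin_subset V hk hSV hx) hd) (hmul _ _ (hk d) hc)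

end aux

section model

variable {k K : Type} [Field k] [Field K] [Algebra k K] {n : ℕ} (w : Fin (n + 1) → K)
  (M : NModel k K) (m : ℕ) (hm : 0 < m)
  (hM1 : ∀ e : Fin (n + 1) → ℕ, ∑ i, e i = m → ∏ i, w i ^ e i ∈ M.W)
  (hM2 : ∀ V : ValuationSubring K, (∀ c : k, algebraMap k K c ∈ V) → ∀ j, w j ≠ 0 →
    (∀ i, w i / w j ∈ V) → ∀ x ∈ M.W, x / w j ^ m ∈ V)

include hM1 in
theorem nl_pow_mem (j : Fin (n + 1)) : w j ^ m ∈ M.W := by
  have h := hM1 (Pi.single j m) (nl_sum_single j m)
  rwa [nl_prod_single] at h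

include hM1 hm in
theorem nl_mul_mem (i j : Fin (n + 1)) : w i * w j ^ (m - 1) ∈ M.W := by
  have h := hM1 (fun l => (Pi.single i 1 : Fin (n + 1) → ℕ) l +
    (Pi.single j (m - 1) : Fin (n + 1) → ℕ) l) (by
      rw [Finset.sum_add_distrib, nl_sum_single, nl_sum_single]
      omega)
  simp only [pow_add] at h
  rw [Finset.prod_mul_distrib, nl_prod_single, nl_prod_single, pow_one] at h
  exact h

include hm in
theorem nl_quot {i j : Fin (n + 1)} (hj : w j ≠ 0) :
    w i * w j ^ (m - 1) / w j ^ m = w i / w j := by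
  obtain ⟨m, rfl⟩ : ∃ l, m = l + 1 := ⟨m - 1, by omega⟩
  rw [Nat.add_sub_cancel, pow_succ]
  field_simp

include hM1 hM2 in
theorem nl_isMin {V : ValuationSubring K} (hk : ∀ c : k, algebraMap k K c ∈ V)
    {j : Fin (n + 1)} (hj : w j ≠ 0) (hV : ∀ i, w i / w j ∈ V) : M.IsMin V (w j ^ m) :=
  ⟨nl_pow_mem w M m hM1 j, pow_ne_zero _ hj, hM2 V hk j hj hV⟩

include hM2 in
theorem nl_int {j : Fin (n + 1)} (hj : w j ≠ 0) {x : K} (hx : x ∈ M.W) :
    IsIntegral (Subring.closure
      ((Algebra.adjoin k (Set.range fun i => w i / w j) : Subalgebra k K) : Set K))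
      (x / w j ^ m) := by
  apply nl_integral
  intro V hV
  apply hM2 V _ j hj _ x hx
  · intro c
    exact hV (Subalgebra.algebraMap_mem _ c)
  · intro i
    exact hV (Algebra.subset_adjoin ⟨i, rfl⟩)

end model

/-- A regular local domain of dimension at most two is integrally closed. -/
theorem nl_integrallyClosed {O : Type} [CommRing O] [IsDomain O] [IsRegularLocalRing O]
    (h : ringKrullDim O ≤ 2) : IsIntegrallyClosed O := by
  have := ufd_of_regular2 h
  infer_instance

section field

variable {k A K : Type} [Field k] [CommRing A] [IsDomain A] [Algebra k A] [Field K] [Algebra A K]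
  [IsFractionRing A K]

/-- The local ring at a point, as a subring of the function field. -/
theorem nl_locAt (z : A →ₐ[k] k) :
    ∃ g : LocAt z →+* K, Function.Injective g ∧ (∀ a : A, g (algebraMap A (LocAt z) a) =
      algebraMap A K a) ∧ ∀ f : K, f ∈ Set.range g ↔ f ∈ ptRing K z := by
  have hinj : Function.Injective (algebraMap A K) := IsFractionRing.injective A K
  have hunit : ∀ y : (RingHom.ker z).primeCompl, IsUnit (algebraMap A K y) := by
    intro y
    rw [isUnit_iff_ne_zero]
    intro h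
    have h1 : (y : A) = 0 := hinj (by rw [h, map_zero])
    apply y.2
    rw [h1]
    exact Ideal.zero_mem _
  let g : LocAt z →+* K := IsLocalization.lift (M := (RingHom.ker z).primeCompl) hunit
  have hg : ∀ a : A, g (algebraMap A (LocAt z) a) = algebraMap A K a := fun a =>
    IsLocalization.lift_eq hunit a
  refine ⟨g, ?_, hg, ?_⟩
  · rw [injective_iff_map_eq_zero]
    intro x hx
    obtain ⟨a, s, rfl⟩ := IsLocalization.exists_mk'_eq (RingHom.ker z).primeCompl x
    have h1 : IsLocalization.mk' (LocAt z) a s * algebraMap A (LocAt z) s =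
      algebraMap A (LocAt z) a := IsLocalization.mk'_spec _ _ _
    have h2 := congrArg g h1
    rw [map_mul, hx, zero_mul, hg] at h2
    have h3 : a = 0 := hinj (by rw [← h2, map_zero])
    rw [h3, IsLocalization.mk'_zero]
  · intro f
    constructor
    · rintro ⟨x, rfl⟩
      obtain ⟨a, s, rfl⟩ := IsLocalization.exists_mk'_eq (RingHom.ker z).primeCompl x
      refine ⟨a, s, ?_, ?_, ?_⟩
      · exact s.2
      · exact (isUnit_iff_ne_zero.1 (hunit s))
      · rw [← hg, ← hg, ← map_mul, IsLocalization.mk'_spec]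
    · rintro ⟨a, b, hb, hb', h⟩
      have hb2 : b ∈ (RingHom.ker z).primeCompl := hb
      refine ⟨IsLocalization.mk' (LocAt z) a ⟨b, hb2⟩, ?_⟩
      apply mul_right_cancel₀ hb'
      rw [h, ← hg, ← hg, ← map_mul]
      congr 1
      exact IsLocalization.mk'_spec _ _ _

/-- The local ring of a regular point is integrally closed in the function field. -/
theorem nl_ptRing_closed (z : A →ₐ[k] k) (hz : RegPt z) (hdim : ringKrullDim A = 2) (f : K)
    (hf : IsIntegral (ptRing K z) f) : f ∈ ptRing K z := by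
  obtain ⟨g, hginj, hg, hgr⟩ := nl_locAt (K := K) z
  have : IsDomain (LocAt z) :=
    IsLocalization.isDomain_localization (RingHom.ker z).primeCompl_le_nonZeroDivisors
  have : IsRegularLocalRing (LocAt z) := hz
  have hdim' : ringKrullDim (LocAt z) ≤ 2 := by
    rw [IsLocalization.AtPrime.ringKrullDim_eq_height (RingHom.ker z), ← hdim]
    exact Ideal.height_le_ringKrullDim_of_ne_top (Ideal.IsPrime.ne_top')
  have := nl_integrallyClosed hdim'
  let _ : Algebra (LocAt z) K := g.toAlgebra
  have : IsScalarTower A (LocAt z) K := IsScalarTower.of_algebraMap_eq fun a => (hg a).symm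
  have : IsFractionRing (LocAt z) K :=
    IsFractionRing.isFractionRing_of_isDomain_of_isLocalization (RingHom.ker z).primeCompl _ _
  have h1 : IsIntegral (LocAt z) f := by
    obtain ⟨p, hp, hpe⟩ := hf
    have h2 : p.map (ptRing K z).subtype ∈ lifts g := by
      rw [lifts_iff_coeff_lifts]
      intro n
      rw [coeff_map]
      exact (hgr _).2 (p.coeff n).2
    obtain ⟨q, hq1, -, hq3⟩ := lifts_and_natDegree_eq_and_monic h2 (hp.map _)
    refine ⟨q, hq3, ?_⟩
    change eval₂ g f q = 0
    rw [← eval_map, hq1, eval_map]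
    exact hpe
  obtain ⟨y, hy⟩ := IsIntegrallyClosed.isIntegral_iff.1 h1
  exact (hgr f).1 ⟨y, hy⟩

end field

section aring

variable {k A K : Type} [Field k] [CommRing A] [IsDomain A] [Algebra k A]
  [Field K] [Algebra k K] [Algebra A K] [IsScalarTower k A K] [IsFractionRing A K]
  {S : Set K} (hS : S.Finite)
  (hA : Set.range (algebraMap A K) = (Algebra.adjoin k S : Set K))

include hS hA in
theorem nl_finiteType : Algebra.FiniteType k A := by
  let g : A →ₐ[k] K := IsScalarTower.toAlgHom k A K
  have hinj : Function.Injective g := IsFractionRing.injective A K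
  have hr : g.range = Algebra.adjoin k S := by
    apply SetLike.coe_injective
    rw [← hA]
    rfl
  have h1 : (Algebra.adjoin k S).FG := Subalgebra.fg_def.2 ⟨S, hS, rfl⟩
  rw [← hr, Subalgebra.fg_iff_finiteType] at h1
  exact Algebra.FiniteType.equiv h1 (AlgEquiv.ofInjective g hinj).symm

include hS hA in
theorem nl_dim (htr : Algebra.trdeg k K = 2) : ringKrullDim A = 2 ∧
    ∀ 𝔪 : Ideal A, 𝔪.IsMaximal → 𝔪.height = 2 := by
  have := nl_finiteType hS hA
  obtain ⟨s, h1, h2, h3⟩ := L2R_key (k := k) (A := A)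
  have h4 : Algebra.trdeg k A = 2 := by
    have h5 := trdeg_add_eq (R := k) (S := A) (A := K)
    have : Algebra.IsAlgebraic A K := IsLocalization.isAlgebraic K (nonZeroDivisors A)
    rw [_root_.trdeg_eq_zero (R := A) (A := K), add_zero, htr] at h5
    exact h5
  rw [h3] at h4
  have h5 : s = 2 := by exact_mod_cast h4
  subst h5
  exact ⟨h2, h1⟩

end aring

section link

variable {k A K : Type} [Field k] [IsAlgClosed k] [CommRing A] [IsDomain A] [Algebra k A]
  [Field K] [Algebra k K] [Algebra A K] [IsScalarTower k A K] [IsFractionRing A K]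
  (htr : Algebra.trdeg k K = 2) {n : ℕ} (w : Fin (n + 1) → K) (h0 : w 0 ≠ 0)
  (hw : Set.range (algebraMap A K) =
    (Algebra.adjoin k (Set.range fun i => w i / w 0) : Set K))
  (M : NModel k K) (m : ℕ) (hm : 0 < m)
  (hM1 : ∀ e : Fin (n + 1) → ℕ, ∑ i, e i = m → ∏ i, w i ^ e i ∈ M.W)
  (hM2 : ∀ V : ValuationSubring K, (∀ c : k, algebraMap k K c ∈ V) → ∀ j, w j ≠ 0 →
    (∀ i, w i / w j ∈ V) → ∀ x ∈ M.W, x / w j ^ m ∈ V)

include htr h0 hw hm hM1 hM2

theorem curveV_iff (V : ValuationSubring K) : CurveV k w V ↔ M.Curve V := by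
  constructor
  · rintro ⟨hV, hk, j, hj, hjV, i, hi⟩
    refine ⟨hV, hk, w j ^ m, nl_isMin w M m hM1 hM2 hk hj hjV, w i * w j ^ (m - 1),
      nl_mul_mem w M m hm hM1 i j, fun c => ?_⟩
    rw [nl_quot w m hm hj]
    exact hi c
  · rintro ⟨hV, hk, s, hs, x, hx, hc⟩
    obtain ⟨j, hj, hjV⟩ := nl_exists_max V w h0
    refine ⟨hV, hk, j, hj, hjV, ?_⟩
    by_contra hne
    push Not at hne
    have hmin := nl_isMin w M m hM1 hM2 hk hj hjV
    have hres : ∀ y ∈ M.W, ∃ c : k, y / w j ^ m - algebraMap k K c ∈ V.nonunits := by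
      intro y hy
      refine nl_residue V hk _ ?_ _ (nl_int w M m hM2 hj hy)
      intro a ha
      have ha' : a ∈ (Algebra.adjoin k (Set.range fun i => w i / w j)).toSubring := by
        have h1 : Subring.closure
            ((Algebra.adjoin k (Set.range fun i => w i / w j) : Subalgebra k K) : Set K) ≤
            (Algebra.adjoin k (Set.range fun i => w i / w j)).toSubring :=
          Subring.closure_le.2 (fun x hx => hx)
        exact h1 ha
      refine nl_adjoin_residue V hk (S := Set.range fun i => w i / w j) ?_ ?_ a ha'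
      · rintro _ ⟨i, rfl⟩
        exact hjV i
      · rintro _ ⟨i, rfl⟩
        exact hne i
    obtain ⟨c, hcx⟩ := hres x hx
    obtain ⟨d, hds⟩ := hres s hs.1
    -- `s / w j ^ m` is a unit of `V`
    have hwm : w j ^ m ≠ 0 := pow_ne_zero _ hj
    have hinv : w j ^ m / s ∈ V := hs.2.2 _ (nl_pow_mem w M m hM1 j)
    have hsV : s / w j ^ m ∈ V := hmin.2.2 _ hs.1
    have hd0 : d ≠ 0 := by
      rintro rfl
      rw [map_zero, sub_zero] at hds
      rw [ValuationSubring.mem_nonunits_iff] at hds
      rw [← V.valuation_le_one_iff] at hinv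
      have h1 : V.valuation (s / w j ^ m) * V.valuation (w j ^ m / s) = 1 := by
        rw [← map_mul, div_mul_div_cancel₀ hwm, div_self hs.2.1, map_one]
      have h2 : V.valuation (s / w j ^ m) * V.valuation (w j ^ m / s) < 1 :=
        mul_lt_one_of_nonneg_of_lt_one_left zero_le hds hinv
      rw [h1] at h2
      exact lt_irrefl _ h2
    apply hc (c / d)
    have hmul : ∀ x y : K, x ∈ V → y ∈ V.nonunits → x * y ∈ V.nonunits := by
      intro x y hx hy
      rw [ValuationSubring.mem_nonunits_iff] at hy ⊢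
      rw [← V.valuation_le_one_iff] at hx
      rw [map_mul]
      exact mul_lt_one_of_nonneg_of_lt_one_right hx zero_le hy
    have hadd : ∀ x y : K, x ∈ V.nonunits → y ∈ V.nonunits → x + y ∈ V.nonunits := by
      intro x y hx hy
      rw [ValuationSubring.mem_nonunits_iff] at hx hy ⊢
      exact (V.valuation.map_add x y).trans_lt (max_lt hx hy)
    have hdK : algebraMap k K d ≠ 0 := by
      rw [_root_.map_ne_zero]
      exact hd0
    have hkey : x / s - algebraMap k K (c / d) =
        w j ^ m / s * (x / w j ^ m - algebraMap k K c) +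
          -(algebraMap k K (c / d) * (w j ^ m / s)) * (s / w j ^ m - algebraMap k K d) := by
      rw [map_div₀]
      have := hs.2.1
      field_simp
      ring
    rw [hkey]
    exact hadd _ _ (hmul _ _ hinv hcx)
      (hmul _ _ (V.neg_mem _ (V.mul_mem _ _ (hk _) hinv)) hds)


theorem isPoint_of_regPt (z : A →ₐ[k] k) (hz : RegPt z) : M.IsPoint (ptRing K z) := by
  have hinjA : Function.Injective (algebraMap A K) := IsFractionRing.injective A K
  obtain ⟨hdim, -⟩ := nl_dim (Set.finite_range fun i => w i / w 0) hw htr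
  have hclosed := nl_ptRing_closed (K := K) z hz hdim
  have hwm : w 0 ^ m ≠ 0 := pow_ne_zero _ h0
  -- the coordinate ring lies in the local ring
  have hAO : ∀ a : A, algebraMap A K a ∈ ptRing K z := by
    intro a
    refine ⟨a, 1, ?_, ?_, ?_⟩
    · rw [map_one]; exact one_ne_zero
    · rw [map_one]; exact one_ne_zero
    · rw [map_one, mul_one]
  have hadj : ((Algebra.adjoin k (Set.range fun i => w i / w 0) : Subalgebra k K) : Set K) ⊆
      ptRing K z := by
    rw [← hw]
    rintro _ ⟨a, rfl⟩
    exact hAO a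
  have hWO : ∀ x ∈ M.W, x / w 0 ^ m ∈ ptRing K z := by
    intro x hx
    apply hclosed
    obtain ⟨p, hp, hpe⟩ := nl_int w M m hM2 h0 hx
    have hle : Subring.closure
        ((Algebra.adjoin k (Set.range fun i => w i / w 0) : Subalgebra k K) : Set K) ≤
        ptRing K z := Subring.closure_le.2 hadj
    refine ⟨p.map (Subring.inclusion hle), hp.map _, ?_⟩
    rw [eval₂_map]
    exact hpe
  have hchart : ∀ f ∈ M.chart (w 0 ^ m), f ∈ ptRing K z := by
    intro f hf
    refine Algebra.adjoin_induction (p := fun f _ => f ∈ ptRing K z) ?_ ?_ ?_ ?_ hf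
    · rintro _ ⟨x, hx, rfl⟩
      exact hWO x hx
    · intro c
      rw [IsScalarTower.algebraMap_apply k A K]
      exact hAO _
    · intro x y _ _ hx hy
      exact (ptRing K z).add_mem hx hy
    · intro x y _ _ hx hy
      exact (ptRing K z).mul_mem hx hy
  -- the coordinate ring lies in the chart
  have hAchart : ∀ a : A, algebraMap A K a ∈ M.chart (w 0 ^ m) := by
    intro a
    have h1 : algebraMap A K a ∈ Algebra.adjoin k (Set.range fun i => w i / w 0) := by
      rw [← SetLike.mem_coe, ← hw]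
      exact ⟨a, rfl⟩
    refine (Algebra.adjoin_le (S := M.chart (w 0 ^ m)) ?_) h1
    rintro _ ⟨i, rfl⟩
    apply Algebra.subset_adjoin
    refine ⟨w i * w 0 ^ (m - 1), nl_mul_mem w M m hm hM1 i 0, ?_⟩
    exact nl_quot w m hm h0
  -- the evaluation on the local ring
  obtain ⟨g, hginj, hg, hgr⟩ := nl_locAt (K := K) z
  have hzu : ∀ y : (RingHom.ker z).primeCompl, IsUnit ((z : A →+* k) y) := by
    intro y
    rw [isUnit_iff_ne_zero]
    exact y.2
  let zL : LocAt z →+* k := IsLocalization.lift (M := (RingHom.ker z).primeCompl) hzu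
  have hzL : ∀ a : A, zL (algebraMap A (LocAt z) a) = z a := fun a =>
    IsLocalization.lift_eq hzu a
  let g' : LocAt z ≃+* g.range := RingEquiv.ofBijective g.rangeRestrict
    ⟨fun x y h => hginj (congrArg Subtype.val h), g.rangeRestrict_surjective⟩
  have hg' : ∀ x : LocAt z, ((g' x : g.range) : K) = g x := fun x => rfl
  have hle : (M.chart (w 0 ^ m)).toSubring ≤ g.range := by
    intro f hf
    exact (hgr f).2 (hchart f hf)
  let ev : M.chart (w 0 ^ m) →+* k :=
    (zL.comp g'.symm.toRingHom).comp (Subring.inclusion hle)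
  have hev : ∀ (f : M.chart (w 0 ^ m)) (x : LocAt z), g x = f → ev f = zL x := by
    intro f x hx
    change zL (g'.symm (Subring.inclusion hle f)) = zL x
    congr 1
    rw [RingEquiv.symm_apply_eq]
    apply Subtype.ext
    rw [hg', hx]
    rfl
  have hevA : ∀ a : A, ev ⟨algebraMap A K a, hAchart a⟩ = z a := by
    intro a
    rw [hev _ (algebraMap A (LocAt z) a) (hg a), hzL]
  let z1 : M.chart (w 0 ^ m) →ₐ[k] k :=
    { ev with
      commutes' := by
        intro c
        have h1 : (algebraMap k (M.chart (w 0 ^ m)) c) =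
            ⟨algebraMap A K (algebraMap k A c), hAchart _⟩ := by
          apply Subtype.ext
          exact IsScalarTower.algebraMap_apply k A K c
        change ev (algebraMap k (M.chart (w 0 ^ m)) c) = _
        rw [h1, hevA, AlgHom.commutes] }
  have hz1 : ∀ f, z1 f = ev f := fun f => rfl
  refine ⟨w 0 ^ m, nl_pow_mem w M m hM1 0, hwm, z1, ?_⟩
  have hdomC : ∀ b : M.chart (w 0 ^ m), algebraMap (M.chart (w 0 ^ m)) K b = (b : K) :=
    fun b => rfl
  apply le_antisymm
  · rintro f ⟨a, b, hb, hb', h⟩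
    rw [hdomC] at hb'
    rw [hdomC, hdomC] at h
    have hbO : (b : K) ∈ ptRing K z := hchart b b.2
    obtain ⟨b1, b2, hb2, hb2', h2⟩ := hbO
    have hbL : (b : K) ∈ Set.range g := (hgr _).2 (hchart b b.2)
    obtain ⟨x, hx⟩ := hbL
    have h3 : z1 b = zL x := by rw [hz1, hev b x hx]
    have h4 : x * algebraMap A (LocAt z) b2 = algebraMap A (LocAt z) b1 := by
      apply hginj
      rw [map_mul, hg, hg, hx, h2]
    have h5 : z1 b * z b2 = z b1 := by
      rw [h3, ← hzL, ← hzL, ← map_mul, h4]
    have hb1 : z b1 ≠ 0 := by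
      rw [← h5]
      exact mul_ne_zero hb hb2
    have hb1' : algebraMap A K b1 ≠ 0 := by
      rw [← h2]
      exact mul_ne_zero hb' hb2'
    have hinv : (b : K)⁻¹ ∈ ptRing K z := by
      refine ⟨b2, b1, hb1, hb1', ?_⟩
      rw [← h2, inv_mul_cancel_left₀ hb']
    have h6 : f = (a : K) * (b : K)⁻¹ := by
      rw [← h, mul_inv_cancel_right₀ hb']
    rw [h6]
    exact (ptRing K z).mul_mem (hchart a a.2) hinv
  · rintro f ⟨a, b, hb, hb', h⟩
    refine ⟨⟨algebraMap A K a, hAchart a⟩, ⟨algebraMap A K b, hAchart b⟩, ?_, hb', h⟩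
    rw [hz1, hevA]
    exact hb

theorem curveV_of_over (P : Curve1 A) (V : ValuationSubring K) (hV : V ≠ ⊤) (h : OverV P V) :
    CurveV k w V := by
  obtain ⟨-, hmax⟩ := nl_dim (Set.finite_range fun i => w i / w 0) hw htr
  have hk : ∀ c : k, algebraMap k K c ∈ V := by
    intro c
    rw [IsScalarTower.algebraMap_apply k A K]
    exact (h _).1
  have hi : ∀ i, w i / w 0 ∈ V := by
    intro i
    have h1 : w i / w 0 ∈ Set.range (algebraMap A K) := by
      rw [hw]
      exact Algebra.subset_adjoin ⟨i, rfl⟩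
    obtain ⟨a, ha⟩ := h1
    rw [← ha]
    exact (h a).1
  refine ⟨hV, hk, 0, h0, hi, ?_⟩
  by_contra hne
  push Not at hne
  -- all elements of `A` have a constant residue
  have hA : ∀ a : A, ∃ c : k, a - algebraMap k A c ∈ P.ideal := by
    intro a
    have h1 : algebraMap A K a ∈ Algebra.adjoin k (Set.range fun i => w i / w 0) := by
      rw [← SetLike.mem_coe, ← hw]
      exact ⟨a, rfl⟩
    obtain ⟨c, hc⟩ := nl_adjoin_residue V hk (S := Set.range fun i => w i / w 0)
      (by rintro _ ⟨i, rfl⟩; exact hi i) (by rintro _ ⟨i, rfl⟩; exact hne i) _ h1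
    refine ⟨c, (h _).2.2 ?_⟩
    rw [map_sub, ← IsScalarTower.algebraMap_apply k A K]
    exact hc
  have hPmax : P.ideal.IsMaximal := by
    rw [Ideal.isMaximal_iff]
    refine ⟨(Ideal.ne_top_iff_one _).1 P.isPrime.ne_top, ?_⟩
    intro J x hPJ hxP hxJ
    obtain ⟨c, hc⟩ := hA x
    have hc0 : c ≠ 0 := by
      rintro rfl
      rw [map_zero, sub_zero] at hc
      exact hxP hc
    have h1 : algebraMap k A c ∈ J := by
      have h2 := J.sub_mem hxJ (hPJ hc)
      rwa [sub_sub_cancel] at h2
    have h3 : algebraMap k A c⁻¹ * algebraMap k A c = 1 := by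
      rw [← map_mul, inv_mul_cancel₀ hc0, map_one]
    rw [← h3]
    exact J.mul_mem_left _ h1
  have h2 := hmax P.ideal hPmax
  rw [P.height] at h2
  exact absurd h2 (by norm_num)

end link

end Pool.Agent.K1
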