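import Pool.Agent.K1.NModelDef

/-!
Theorem N: orders at points of the function field of a curve, in `Spec A` and in the function
field.
-/

set_option autoImplicit false

namespace Pool.Agent.K1

section aux

/-- The length of a quotient ring does not change under ring isomorphisms. -/
theorem nw_length_equiv {R S : Type*} [CommRing R] [CommRing S] (e : R ≃+* S) (I : Ideal R)
    (J : Ideal S) (h : I = J.comap (e : R →+* S)) :
    Module.length R (R ⧸ I) = Module.length S (S ⧸ J) := by
  rw [Module.length_quotient, Module.length_quotient]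
  have h1 : e.idealComapOrderIso J = I := h.symm
  rw [← h1]
  exact Order.coheight_orderIso e.idealComapOrderIso J

/-- Orders computed in another model of the local ring. -/
theorem nw_length_ordPt {k A S : Type*} [Field k] [CommRing A] [Algebra k A] [CommRing S]
    [Algebra A S] (z : A →ₐ[k] k) [IsLocalization.AtPrime S (RingHom.ker z)] (P : Ideal A)
    (c' : A) (c : S) (u : Sˣ) (h : c * u = algebraMap A S c') :
    Module.length S (S ⧸ (P.map (algebraMap A S) ⊔ Ideal.span {c})) = ordPt P z c' := by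
  let e : LocAt z ≃ₐ[A] S := IsLocalization.algEquiv (RingHom.ker z).primeCompl (LocAt z) S
  symm
  apply nw_length_equiv e.toRingEquiv
  have hs : Ideal.span {c} = Ideal.span {algebraMap A S c'} := by
    rw [← h, Ideal.span_singleton_mul_right_unit u.isUnit]
  have he : ∀ a : A, e (algebraMap A (LocAt z) a) = algebraMap A S a := fun a => e.commutes a
  have h2 : (P.map (algebraMap A (LocAt z)) ⊔ Ideal.span {algebraMap A (LocAt z) c'}).map
      (e.toRingEquiv : LocAt z →+* S) =
      P.map (algebraMap A S) ⊔ Ideal.span {algebraMap A S c'} := by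
    rw [Ideal.map_sup, Ideal.map_map, Ideal.map_span, Set.image_singleton]
    have h3 : (e.toRingEquiv : LocAt z →+* S).comp (algebraMap A (LocAt z)) =
        algebraMap A S := RingHom.ext he
    rw [h3]
    have h4 : (e.toRingEquiv : LocAt z →+* S) (algebraMap A (LocAt z) c') = algebraMap A S c' :=
      he c'
    rw [h4]
  rw [hs, ← h2]
  exact (Ideal.comap_map_of_bijective (e.toRingEquiv : LocAt z →+* S)
    e.toRingEquiv.bijective).symm

/-- A curve which does not pass through the point. -/
theorem nw_ordPt_off {k A : Type*} [Field k] [CommRing A] [Algebra k A]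
    (z : A →ₐ[k] k) (P : Ideal A) (hP : ¬ P ≤ RingHom.ker z) (c : A) : ordPt P z c = 0 := by
  obtain ⟨a, ha, haz⟩ := Set.not_subset.1 hP
  unfold ordPt lenP
  rw [Module.length_eq_zero_iff]
  apply Ideal.Quotient.subsingleton_iff.2
  have h1 : IsUnit (algebraMap A (LocAt z) a) :=
    IsLocalization.map_units (LocAt z) (⟨a, haz⟩ : (RingHom.ker z).primeCompl)
  exact Ideal.eq_top_of_isUnit_mem _ (Ideal.mem_sup_left (Ideal.mem_map_of_mem _ ha)) h1

/-- Every unit of the function field of a curve is a quotient. -/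
theorem nw_exists_quot {A : Type*} [CommRing A] (P : Curve1 A) (t : (kap P)ˣ) :
    ∃ c d : A, c ∉ P.ideal ∧ d ∉ P.ideal ∧ (t : kap P) * res P d = res P c := by
  obtain ⟨a, b, hb, hab⟩ := IsFractionRing.div_surjective (A := A ⧸ P.ideal) (t : kap P)
  obtain ⟨c, rfl⟩ := Ideal.Quotient.mk_surjective a
  obtain ⟨d, rfl⟩ := Ideal.Quotient.mk_surjective b
  have hd : res P d ≠ 0 := by
    have h1 : (Ideal.Quotient.mk P.ideal d) ≠ 0 := nonZeroDivisors.ne_zero hb
    intro h2
    exact h1 (by rw [Ideal.Quotient.eq_zero_iff_mem]; exact (res_eq_zero P d).1 h2)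
  have h3 : (t : kap P) * res P d = res P c := by
    rw [← hab]
    exact div_mul_cancel₀ _ hd
  refine ⟨c, d, ?_, ?_, h3⟩
  · intro hc
    rw [(res_eq_zero P c).2 hc] at h3
    exact (mul_ne_zero t.ne_zero hd) h3
  · intro hd'
    exact hd ((res_eq_zero P d).2 hd')

end aux

section ptring

variable {k A K : Type} [Field k] [CommRing A] [Algebra k A] [Field K] [Algebra A K]

/-- The functions of `A` in the local ring of a point. -/
def nwMap (K : Type) [Field K] [Algebra A K] (z : A →ₐ[k] k) : A →+* ptRing K z :=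
  (algebraMap A K).codRestrict (ptRing K z) fun a =>
    ⟨a, 1, by rw [map_one]; exact one_ne_zero, by rw [map_one]; exact one_ne_zero,
      by rw [map_one, mul_one]⟩

theorem nwMap_coe (z : A →ₐ[k] k) (a : A) : ((nwMap K z a : ptRing K z) : K) =
    algebraMap A K a := rfl

theorem nw_isUnit (z : A →ₐ[k] k) {b : A} (hb : z b ≠ 0) (hb' : algebraMap A K b ≠ 0) :
    IsUnit (nwMap K z b) := by
  have h1 : (algebraMap A K b)⁻¹ ∈ ptRing K z :=
    ⟨1, b, hb, hb', by rw [map_one]; exact inv_mul_cancel₀ hb'⟩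
  refine IsUnit.of_mul_eq_one ⟨(algebraMap A K b)⁻¹, h1⟩ ?_
  apply Subtype.ext
  change algebraMap A K b * (algebraMap A K b)⁻¹ = 1
  exact mul_inv_cancel₀ hb'

theorem nw_isLocalization [IsDomain A] [IsFractionRing A K] (z : A →ₐ[k] k) :
    letI : Algebra A (ptRing K z) := (nwMap K z).toAlgebra
    IsLocalization.AtPrime (ptRing K z) (RingHom.ker z) := by
  let _ : Algebra A (ptRing K z) := (nwMap K z).toAlgebra
  have hinj : Function.Injective (algebraMap A K) := IsFractionRing.injective A K
  refine { map_units := ?_, surj := ?_, exists_of_eq := ?_ }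
  · intro y
    have h1 : z (y : A) ≠ 0 := fun h => y.2 h
    have h2 : algebraMap A K (y : A) ≠ 0 := by
      intro h3
      rw [map_eq_zero_iff _ hinj] at h3
      exact h1 (by rw [h3, map_zero])
    exact nw_isUnit z h1 h2
  · rintro ⟨f, a, b, hb, hb', hf⟩
    refine ⟨(a, ⟨b, fun h => hb h⟩), ?_⟩
    apply Subtype.ext
    exact hf
  · intro x y hxy
    have h1 : algebraMap A K x = algebraMap A K y := congrArg Subtype.val hxy
    exact ⟨1, by rw [hinj h1]⟩

end ptring

section overv

variable {A K : Type} [CommRing A] [Field K] [Algebra A K]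

theorem nw_inv_mem (P : Curve1 A) {V : ValuationSubring K} (h : OverV P V) {b : A}
    (hb : b ∉ P.ideal) : (algebraMap A K b)⁻¹ ∈ V := by
  by_contra h2
  exact hb ((h b).2.2 ((ValuationSubring.mem_nonunits_iff_or V).2 (Or.inr h2)))

theorem nw_ne_zero (P : Curve1 A) {V : ValuationSubring K} (h : OverV P V) {b : A}
    (hb : b ∉ P.ideal) : algebraMap A K b ≠ 0 := by
  intro h2
  exact hb ((h b).2.2 ((ValuationSubring.mem_nonunits_iff_or V).2 (Or.inl h2)))

/-- The image of a function in the residue field of `V`. -/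
theorem nw_residue_eq_zero (V : ValuationSubring K) (a : V) :
    IsLocalRing.residue V a = 0 ↔ (a : K) ∈ V.nonunits := by
  rw [IsLocalRing.residue_eq_zero_iff, ValuationSubring.coe_mem_nonunits_iff]

variable {k : Type} [Field k] [Algebra k A]

/-- The local ring at a point of the curve is contained in the valuation ring of the curve. -/
theorem nw_ptRing_le (P : Curve1 A) {V : ValuationSubring K} (h : OverV P V) (z : A →ₐ[k] k)
    (hz : ∀ a ∈ P.ideal, z a = 0) : ∀ f ∈ ptRing K z, f ∈ V := by
  rintro f ⟨a, b, hb, hb', hf⟩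
  have h1 : b ∉ P.ideal := fun h2 => hb (hz b h2)
  have h2 : f = algebraMap A K a * (algebraMap A K b)⁻¹ := by
    rw [← hf, mul_assoc, mul_inv_cancel₀ hb', mul_one]
  rw [h2]
  exact V.mul_mem _ _ (h a).1 (nw_inv_mem P h h1)

/-- The ideal of the curve in the local ring of a point. -/
theorem nw_ideal_eq (P : Curve1 A) {V : ValuationSubring K} (h : OverV P V) (z : A →ₐ[k] k) :
    Ideal.span {f : ptRing K z | (f : K) ∈ V.nonunits} = P.ideal.map (nwMap K z) := by
  apply le_antisymm
  · rw [Ideal.span_le]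
    rintro ⟨f, a, b, hb, hb', hf⟩ hfV
    have hfV' : f ∈ V.nonunits := hfV
    have hbV : algebraMap A K b ∈ V := (h b).1
    have h1 : a ∈ P.ideal := by
      apply (h a).2.2
      rw [← hf]
      have hf0 : f ∈ V := V.nonunits_subset hfV'
      have h2 : (⟨f, hf0⟩ : V) ∈ IsLocalRing.maximalIdeal V :=
        (ValuationSubring.coe_mem_nonunits_iff).1 hfV'
      exact (ValuationSubring.coe_mem_nonunits_iff (a := (⟨f, hf0⟩ : V) * ⟨_, hbV⟩)).2
        (Ideal.mul_mem_right _ _ h2)
    obtain ⟨u, hu⟩ := nw_isUnit (K := K) z hb hb'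
    have h2 : (⟨f, a, b, hb, hb', hf⟩ : ptRing K z) = nwMap K z a * ((u⁻¹ : (ptRing K z)ˣ)) := by
      rw [Units.eq_mul_inv_iff_mul_eq, hu]
      apply Subtype.ext
      exact hf
    rw [h2]
    exact Ideal.mul_mem_right _ _ (Ideal.mem_map_of_mem _ h1)
  · rw [Ideal.map_le_iff_le_comap]
    intro a ha
    exact Ideal.subset_span (((h a).2.1 ha : algebraMap A K a ∈ V.nonunits))

end overv

section ord

variable {k A K : Type} [Field k] [CommRing A] [IsDomain A] [Algebra k A]
  [Field K] [Algebra k K] [Algebra A K] [IsScalarTower k A K] [IsFractionRing A K]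

theorem isOrdZ_iff (P : Curve1 A) (hP : IsDiscreteValuationRing (Localization.AtPrime P.ideal))
    {V : ValuationSubring K} (h : OverV P V)
    (φ : kap P ≃+* IsLocalRing.ResidueField V) (hφ : IsResV P V φ) (z : A →ₐ[k] k)
    (hz : ∀ a ∈ P.ideal, z a = 0) (t : (kap P)ˣ) (n : ℤ) :
    IsOrdZ P z t n ↔ IsOrdO (ptRing K z) V (Units.map φ.toRingHom.toMonoidHom t) n := by
  let _ : Algebra A (ptRing K z) := (nwMap K z).toAlgebra
  have hloc : IsLocalization.AtPrime (ptRing K z) (RingHom.ker z) := nw_isLocalization z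
  have hI := nw_ideal_eq P h z
  have hle := nw_ptRing_le P h z hz
  have hlen : ∀ (c' : A) (c : ptRing K z) (u : (ptRing K z)ˣ), c * u = nwMap K z c' →
      Module.length (ptRing K z) (ptRing K z ⧸
        (Ideal.span {f : ptRing K z | (f : K) ∈ V.nonunits} ⊔ Ideal.span {c})) =
          ordPt P.ideal z c' := by
    intro c' c u hcu
    rw [hI]
    exact nw_length_ordPt z P.ideal c' c u hcu
  constructor
  · rintro ⟨c, d, hc, hd, hcd, hn⟩
    refine ⟨hle, nwMap K z c, nwMap K z d, fun h1 => hc ((h c).2.2 h1),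
      fun h1 => hd ((h d).2.2 h1), ?_, ?_⟩
    · have h1 := congrArg φ hcd
      rw [map_mul, hφ d ⟨algebraMap A K d, (h d).1⟩ rfl,
        hφ c ⟨algebraMap A K c, (h c).1⟩ rfl] at h1
      exact h1
    · rw [hlen c _ 1 (by rw [Units.val_one, mul_one]),
        hlen d _ 1 (by rw [Units.val_one, mul_one])]
      exact hn
  · rintro ⟨hO, c, d, hc, hd, hcd, hn⟩
    obtain ⟨c1, u, hu, hu', hcu⟩ := c.2
    obtain ⟨d1, v, hv, hv', hdv⟩ := d.2
    obtain ⟨uu, huu⟩ := nw_isUnit (K := K) z hu hu'
    obtain ⟨vv, hvv⟩ := nw_isUnit (K := K) z hv hv'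
    have huP : u ∉ P.ideal := fun h2 => hu (hz u h2)
    have hvP : v ∉ P.ideal := fun h2 => hv (hz v h2)
    have hc1 : c * ((uu * vv : (ptRing K z)ˣ) : ptRing K z) = nwMap K z (c1 * v) := by
      rw [Units.val_mul, huu, hvv]
      apply Subtype.ext
      change (c : K) * (algebraMap A K u * algebraMap A K v) = algebraMap A K (c1 * v)
      rw [map_mul, ← hcu]
      ring
    have hd1 : d * ((uu * vv : (ptRing K z)ˣ) : ptRing K z) = nwMap K z (d1 * u) := by
      rw [Units.val_mul, huu, hvv]
      apply Subtype.ext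
      change (d : K) * (algebraMap A K u * algebraMap A K v) = algebraMap A K (d1 * u)
      rw [map_mul, ← hdv]
      ring
    -- the residues
    have hr : ∀ (x : ptRing K z) (a : A), x * ((uu * vv : (ptRing K z)ˣ) : ptRing K z) =
        nwMap K z a → φ (res P a) = IsLocalRing.residue V ⟨x, hO x x.2⟩ *
          IsLocalRing.residue V ⟨algebraMap A K (u * v), (h (u * v)).1⟩ := by
      intro x a hx
      rw [hφ a ⟨algebraMap A K a, (h a).1⟩ rfl, ← map_mul]
      congr 1
      apply Subtype.ext
      change algebraMap A K a = (x : K) * algebraMap A K (u * v)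
      have h1 : ((x * ((uu * vv : (ptRing K z)ˣ) : ptRing K z) : ptRing K z) : K) =
        algebraMap A K a := congrArg Subtype.val hx
      rw [Units.val_mul, huu, hvv] at h1
      rw [← h1, map_mul]
      rfl
    have huv : IsLocalRing.residue V ⟨algebraMap A K (u * v), (h (u * v)).1⟩ ≠ 0 := by
      rw [ne_eq, nw_residue_eq_zero]
      intro h1
      rcases P.isPrime.mem_or_mem ((h (u * v)).2.2 h1) with h2 | h2
      · exact huP h2
      · exact hvP h2
    have hx0 : ∀ (x : ptRing K z) (a : A), x * ((uu * vv : (ptRing K z)ˣ) : ptRing K z) =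
        nwMap K z a → (x : K) ∉ V.nonunits → a ∉ P.ideal := by
      intro x a hx hxV ha
      have h1 := hr x a hx
      rw [(res_eq_zero P a).2 ha, map_zero] at h1
      have h2 : IsLocalRing.residue V ⟨x, hO x x.2⟩ ≠ 0 := by
        rw [ne_eq, nw_residue_eq_zero]
        exact hxV
      exact mul_ne_zero h2 huv h1.symm
    refine ⟨c1 * v, d1 * u, hx0 c _ hc1 hc, hx0 d _ hd1 hd, ?_, ?_⟩
    · apply φ.injective
      rw [map_mul, hr c _ hc1, hr d _ hd1, ← mul_assoc]
      have h1 : φ (t : kap P) * IsLocalRing.residue V ⟨d, hO d d.2⟩ =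
        IsLocalRing.residue V ⟨c, hO c c.2⟩ := hcd
      rw [h1]
    · rw [hn, hlen _ c _ hc1, hlen _ d _ hd1]

theorem isOrdZ_off (P : Curve1 A) (z : A →ₐ[k] k) (hz : ¬ ∀ a ∈ P.ideal, z a = 0)
    (t : (kap P)ˣ) (n : ℤ) : IsOrdZ P z t n ↔ n = 0 := by
  have hP : ¬ P.ideal ≤ RingHom.ker z := fun h => hz fun a ha => h ha
  constructor
  · rintro ⟨c, d, _, _, _, hn⟩
    rw [hn, nw_ordPt_off z P.ideal hP, nw_ordPt_off z P.ideal hP]
    rfl
  · intro hn
    obtain ⟨c, d, hc, hd, hcd⟩ := nw_exists_quot P t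
    refine ⟨c, d, hc, hd, hcd, ?_⟩
    rw [hn, nw_ordPt_off z P.ideal hP, nw_ordPt_off z P.ideal hP]
    rfl

theorem isOrdZ_one (P : Curve1 A) (z : A →ₐ[k] k) (n : ℤ) : IsOrdZ P z 1 n ↔ n = 0 := by
  constructor
  · rintro ⟨c, d, _, _, hcd, hn⟩
    rw [Units.val_one, one_mul] at hcd
    have h1 : c - d ∈ P.ideal := by
      rw [← Ideal.Quotient.mk_eq_mk_iff_sub_mem]
      exact (IsFractionRing.injective (A ⧸ P.ideal) (kap P) hcd).symm
    rw [hn, ordPt_congr P.ideal z h1]
    exact sub_self _
  · intro hn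
    refine ⟨1, 1, ?_, ?_, ?_, ?_⟩
    · exact fun h => P.isPrime.ne_top ((Ideal.eq_top_iff_one _).2 h)
    · exact fun h => P.isPrime.ne_top ((Ideal.eq_top_iff_one _).2 h)
    · rw [Units.val_one, one_mul]
    · rw [hn, sub_self]

/-- the curves through a point -/
theorem ptRing_le_iff (P : Curve1 A)
    (hP : IsDiscreteValuationRing (Localization.AtPrime P.ideal)) {V : ValuationSubring K}
    (h : OverV P V) (z : A →ₐ[k] k) :
    (∀ f ∈ ptRing K z, f ∈ V) ↔ ∀ a ∈ P.ideal, z a = 0 := by
  constructor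
  · intro hV a ha
    by_contra hza
    have hinj : Function.Injective (algebraMap A K) := IsFractionRing.injective A K
    have ha0 : algebraMap A K a ≠ 0 := by
      intro h3
      rw [map_eq_zero_iff _ hinj] at h3
      exact hza (by rw [h3, map_zero])
    have h1 : (algebraMap A K a)⁻¹ ∈ V :=
      hV _ ⟨1, a, hza, ha0, by rw [map_one]; exact inv_mul_cancel₀ ha0⟩
    rcases (ValuationSubring.mem_nonunits_iff_or V).1 ((h a).2.1 ha) with h2 | h2
    · exact ha0 h2
    · exact h2 h1
  · intro hz
    exact nw_ptRing_le P h z hz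

end ord

end Pool.Agent.K1
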