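import Pool.Agent.K1.NVal

/-!
Tame symbols of valuation rings.
-/

set_option autoImplicit false

namespace Pool.Agent.K1

section change

variable {K : Type} [Field K] {V : ValuationSubring K}

lemma nt_coe_zpow (u : Vˣ) (p : ℤ) : (((u ^ p : Vˣ) : V) : K) = ((u : V) : K) ^ p := by
  have := congrArg Units.val (map_zpow (Units.map V.subtype.toMonoidHom) u p)
  rw [Units.val_zpow_eq_zpow_val] at this
  exact this

lemma nt_unit_ne_zero (u : Vˣ) : ((u : V) : K) ≠ 0 := fun h => u.ne_zero (Subtype.ext h)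

/-- The tame symbol may be computed with any uniformizer. -/
theorem nt_change {f g : K} {t : (IsLocalRing.ResidueField V)ˣ} (h : IsTameV V f g t)
    (ϖ : V) (hϖ : IsLocalRing.maximalIdeal V = Ideal.span {ϖ}) :
    ∃ (a b : ℤ) (u v : Vˣ),
      f = (ϖ : K) ^ a * ((u : V) : K) ∧ g = (ϖ : K) ^ b * ((v : V) : K) ∧
      t = (-1) ^ (a * b) * (Units.map (IsLocalRing.residue V).toMonoidHom u ^ b /
        Units.map (IsLocalRing.residue V).toMonoidHom v ^ a) := by
  obtain ⟨ϖ', a, b, u, v, h1, h2, h3, h4⟩ := h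
  have has : Associated ϖ ϖ' := by
    rw [← Ideal.span_singleton_eq_span_singleton, ← hϖ, h1]
  obtain ⟨e, he⟩ := has
  have heK : (ϖ' : K) = (ϖ : K) * ((e : V) : K) := by rw [← he]; rfl
  refine ⟨a, b, e ^ a * u, e ^ b * v, ?_, ?_, ?_⟩
  · rw [h2, heK, mul_zpow, Units.val_mul]
    push_cast
    rw [nt_coe_zpow]
    ring
  · rw [h3, heK, mul_zpow, Units.val_mul]
    push_cast
    rw [nt_coe_zpow]
    ring
  · rw [h4]
    congr 1
    simp only [map_mul, map_zpow, mul_zpow, ← zpow_mul]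
    rw [mul_comm b a, mul_div_mul_left_eq_div]

theorem nt_pow_ne (ϖ : V) (hϖ : IsLocalRing.maximalIdeal V = Ideal.span {ϖ}) {m : ℕ}
    (hm : m ≠ 0) (w : Vˣ) : (ϖ : K) ^ m ≠ ((w : V) : K) := by
  intro h
  have h1 : ϖ ^ m = (w : V) := Subtype.ext h
  have h2 : IsUnit ϖ := by
    rw [← isUnit_pow_iff hm, h1]
    exact w.isUnit
  have h3 : ϖ ∈ IsLocalRing.maximalIdeal V := by
    rw [hϖ]
    exact Ideal.mem_span_singleton_self ϖ
  exact (IsLocalRing.mem_maximalIdeal ϖ).mp h3 h2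

theorem nt_exp_le (ϖ : V) (hϖ : IsLocalRing.maximalIdeal V = Ideal.span {ϖ}) {b b' : ℤ}
    {v v' : Vˣ} {g : K} (hg : g ≠ 0) (h : g = (ϖ : K) ^ b * ((v : V) : K))
    (h' : g = (ϖ : K) ^ b' * ((v' : V) : K)) : b ≤ b' := by
  by_contra hlt
  push Not at hlt
  by_cases h0 : (ϖ : K) = 0
  · by_cases hb : b = 0
    · have hb' : b' ≠ 0 := by omega
      rw [h0, zero_zpow _ hb', zero_mul] at h'
      exact hg h'
    · rw [h0, zero_zpow _ hb, zero_mul] at h
      exact hg h
  · obtain ⟨m, hm⟩ : ∃ m : ℕ, b = b' + m := ⟨(b - b').toNat, by omega⟩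
    have hm0 : m ≠ 0 := by omega
    apply nt_pow_ne ϖ hϖ hm0 (v' * v⁻¹)
    have h5 : (ϖ : K) ^ b' ≠ 0 := zpow_ne_zero _ h0
    have h6 : (ϖ : K) ^ m * ((v : V) : K) = ((v' : V) : K) := by
      apply mul_left_cancel₀ h5
      rw [← h', h, hm, zpow_add₀ h0, zpow_natCast, mul_assoc]
    have h7 : (((v⁻¹ : Vˣ) : V) : K) = ((v : V) : K)⁻¹ := by
      have := nt_coe_zpow v (-1)
      rwa [zpow_neg_one, zpow_neg_one] at this
    rw [Units.val_mul]
    push_cast
    rw [h7, ← h6, mul_assoc, mul_inv_cancel₀ (nt_unit_ne_zero v), mul_one]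

theorem nt_exp_eq (ϖ : V) (hϖ : IsLocalRing.maximalIdeal V = Ideal.span {ϖ}) {b b' : ℤ}
    {v v' : Vˣ} {g : K} (hg : g ≠ 0) (h : g = (ϖ : K) ^ b * ((v : V) : K))
    (h' : g = (ϖ : K) ^ b' * ((v' : V) : K)) : b = b' :=
  le_antisymm (nt_exp_le ϖ hϖ hg h h') (nt_exp_le ϖ hϖ hg h' h)

end change

theorem IsTameV.div_left {K : Type} [Field K] {V : ValuationSubring K} {f f' g : K}
    {t t' : (IsLocalRing.ResidueField V)ˣ} (hf : f ≠ 0) (hf' : f' ≠ 0) (hg : g ≠ 0)
    (h : IsTameV V f g t) (h' : IsTameV V f' g t') : IsTameV V (f / f') g (t / t') := by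
  obtain ⟨ϖ, a, b, u, v, h1, h2, h3, h4⟩ := h
  obtain ⟨a', b', u', v', h2', h3', h4'⟩ := nt_change h' ϖ h1
  have hb : b' = b := nt_exp_eq ϖ h1 hg h3' h3
  subst hb
  have hv : v' = v := by
    have h5 : (ϖ : K) ^ b' ≠ 0 := by
      intro h0
      rw [h0, zero_mul] at h3
      exact hg h3
    have h6 := mul_left_cancel₀ h5 (h3'.symm.trans h3)
    exact Units.ext (Subtype.ext h6)
  subst hv
  refine ⟨ϖ, a - a', b', u / u', v', h1, ?_, h3, ?_⟩
  · have h7 : (((u / u' : Vˣ) : V) : K) = ((u : V) : K) / ((u' : V) : K) := by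
      have := nt_coe_zpow u' (-1)
      rw [zpow_neg_one, zpow_neg_one] at this
      rw [div_eq_mul_inv, Units.val_mul]
      push_cast
      rw [this, div_eq_mul_inv]
    have h8 : (ϖ : K) ^ (a - a') = (ϖ : K) ^ a / (ϖ : K) ^ a' := by
      by_cases h0 : (ϖ : K) = 0
      · have ha : a = 0 := by
          by_contra ha
          rw [h0, zero_zpow _ ha, zero_mul] at h2
          exact hf h2
        have ha' : a' = 0 := by
          by_contra ha'
          rw [h0, zero_zpow _ ha', zero_mul] at h2'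
          exact hf' h2'
        rw [ha, ha']
        simp
      · exact zpow_sub₀ h0 a a'
    rw [h7, h8, h2, h2', div_mul_div_comm]
  · rw [h4, h4', map_div, div_zpow, sub_mul, zpow_sub, zpow_sub, mul_div_mul_comm,
      div_div_div_comm, ← div_eq_mul_inv, ← div_eq_mul_inv]

/-- If `f` is congruent to `1` modulo the maximal ideal, the tame symbol is `1`. -/
theorem isTameV_one {K : Type} [Field K] {V : ValuationSubring K} {f g : K} (ϖ : V)
    (hϖ : IsLocalRing.maximalIdeal V = Ideal.span {ϖ}) (hϖ0 : ϖ ≠ 0) (hV : IsNoetherianRing V)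
    (hf : f - 1 ∈ V.nonunits) (hg : g ≠ 0) : IsTameV V f g 1 := by
  have hne : IsLocalRing.maximalIdeal V ≠ ⊥ := by
    rw [hϖ, Ne, Ideal.span_singleton_eq_bot]
    exact hϖ0
  have hnf : ¬ IsField V := IsLocalRing.isField_iff_maximalIdeal_eq.not.mpr hne
  have hdvr : IsDiscreteValuationRing V :=
    ((IsDiscreteValuationRing.TFAE V hnf).out 4 0 :
      (IsLocalRing.maximalIdeal V).IsPrincipal ↔ IsDiscreteValuationRing V).mp ⟨⟨ϖ, hϖ⟩⟩
  have hirr : Irreducible ϖ := (IsDiscreteValuationRing.irreducible_iff_uniformizer ϖ).mpr hϖ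
  have hK0 : (ϖ : K) ≠ 0 := fun h => hϖ0 (Subtype.ext h)
  -- `f` is a unit with residue `1`
  have hfV : f ∈ V := by
    have h1 : f - 1 ∈ V := V.nonunits_le hf
    have h2 := V.add_mem _ _ h1 V.one_mem
    rwa [sub_add_cancel] at h2
  have hres : IsLocalRing.residue V ⟨f, hfV⟩ = 1 := by
    rw [← sub_eq_zero, ← map_one (IsLocalRing.residue V), ← map_sub,
      IsLocalRing.residue_eq_zero_iff, ← ValuationSubring.coe_mem_nonunits_iff]
    exact hf
  have hu : IsUnit (⟨f, hfV⟩ : V) := by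
    by_contra hn
    have h1 : IsLocalRing.residue V ⟨f, hfV⟩ = 0 := by
      rw [IsLocalRing.residue_eq_zero_iff, IsLocalRing.mem_maximalIdeal]
      exact hn
    rw [hres] at h1
    exact one_ne_zero h1
  obtain ⟨u, hu⟩ := hu
  -- `g` is a power of the uniformizer times a unit
  have hrep : ∀ x : V, x ≠ 0 → ∃ (m : ℕ) (w : Vˣ), (x : K) = (ϖ : K) ^ m * ((w : V) : K) := by
    intro x hx
    obtain ⟨m, w, hw⟩ := IsDiscreteValuationRing.eq_unit_mul_pow_irreducible hx hirr
    refine ⟨m, w, ?_⟩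
    rw [hw, mul_comm]
    rfl
  obtain ⟨b, v, hv⟩ : ∃ (b : ℤ) (v : Vˣ), g = (ϖ : K) ^ b * ((v : V) : K) := by
    rcases V.mem_or_inv_mem g with h | h
    · obtain ⟨m, w, hw⟩ := hrep ⟨g, h⟩ (fun h0 => hg (congrArg Subtype.val h0))
      exact ⟨m, w, by rw [zpow_natCast]; exact hw⟩
    · obtain ⟨m, w, hw⟩ := hrep ⟨g⁻¹, h⟩ (fun h0 => inv_ne_zero hg (congrArg Subtype.val h0))
      refine ⟨-m, w⁻¹, ?_⟩
      have h3 := nt_coe_zpow w (-1)
      rw [zpow_neg_one, zpow_neg_one] at h3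
      rw [h3, zpow_neg, zpow_natCast, ← mul_inv, ← inv_inj, inv_inv]
      exact hw
  refine ⟨ϖ, 0, b, u, v, hϖ, ?_, hv, ?_⟩
  · rw [zpow_zero, one_mul, hu]
  · have h1 : Units.map (IsLocalRing.residue V).toMonoidHom u = 1 := by
      ext
      rw [Units.coe_map, hu]
      exact hres
    rw [h1, zero_mul, zpow_zero, one_zpow, zpow_zero, div_one, one_mul]

section val

variable {A K : Type} [CommRing A] [IsDomain A] [Field K] [Algebra A K] [IsFractionRing A K]

/-- A nonzero element of `A` is a unit times the power `vAt` of the uniformizer. -/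
theorem nt_rep [IsNoetherianRing A] (P : Curve1 A)
    (hP : IsDiscreteValuationRing (Localization.AtPrime P.ideal))
    {V : ValuationSubring K} (h : OverV P V) :
    ∃ ϖ : V, IsLocalRing.maximalIdeal V = Ideal.span {ϖ} ∧ ϖ ≠ 0 ∧ ∀ a : A, a ≠ 0 →
      ∃ u : Vˣ, algebraMap A K a = (ϖ : K) ^ (vAt P a) * ((u : V) : K) := by
  set O := Localization.AtPrime P.ideal with hO
  obtain ⟨V', hV', -, hmem⟩ := exists_valOf (K := K) P hP
  have hVV : V = V' := overV_unique P hP h hV'
  subst hVV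
  -- the ring homomorphism from `A` to `V`
  let ψ₀ : A →+* V := (algebraMap A K).codRestrict V.toSubring fun a => (h a).1
  have hψ₀ : ∀ a, ((ψ₀ a : V) : K) = algebraMap A K a := fun a => rfl
  have hunit : ∀ y : P.ideal.primeCompl, IsUnit (ψ₀ y) := by
    intro y
    by_contra hn
    have h1 : ψ₀ y ∈ IsLocalRing.maximalIdeal V := (IsLocalRing.mem_maximalIdeal _).mpr hn
    have h2 := ValuationSubring.coe_mem_nonunits_iff.mpr h1
    exact y.2 ((h (y : A)).2.mpr h2)
  let ψ : O →+* V := IsLocalization.lift hunit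
  have hψ : ∀ a, ψ (algebraMap A O a) = ψ₀ a := fun a => IsLocalization.lift_eq hunit a
  have hψsurj : Function.Surjective ψ := by
    intro f
    obtain ⟨a, b, hb, hab⟩ := (hmem (f : K)).mp f.2
    refine ⟨IsLocalization.mk' O a (⟨b, hb⟩ : P.ideal.primeCompl), ?_⟩
    have h1 : ψ (IsLocalization.mk' O a (⟨b, hb⟩ : P.ideal.primeCompl)) * ψ₀ b = ψ₀ a := by
      rw [← hψ b, ← map_mul, ← hψ a]
      congr 1
      exact IsLocalization.mk'_spec O a (⟨b, hb⟩ : P.ideal.primeCompl)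
    have h2 : f * ψ₀ b = ψ₀ a := Subtype.ext hab
    have h3 : ψ₀ b ≠ 0 := (hunit ⟨b, hb⟩).ne_zero
    exact mul_right_cancel₀ h3 (h1.trans h2.symm)
  have hψinj : Function.Injective ψ := by
    rw [injective_iff_map_eq_zero]
    intro z hz
    obtain ⟨a, b, rfl⟩ := IsLocalization.exists_mk'_eq P.ideal.primeCompl z
    have h1 : ψ (IsLocalization.mk' O a b) * ψ₀ b = ψ₀ a := by
      rw [← hψ b, ← map_mul, ← hψ a]
      congr 1
      exact IsLocalization.mk'_spec O a b
    rw [hz, zero_mul] at h1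
    have h2 : algebraMap A K a = 0 := (congrArg Subtype.val h1).symm
    have h3 : a = 0 := (map_eq_zero_iff _ (IsFractionRing.injective A K)).mp h2
    rw [h3, IsLocalization.mk'_zero]
  let e : O ≃+* V := RingEquiv.ofBijective ψ ⟨hψinj, hψsurj⟩
  have he : ∀ z, e z = ψ z := fun z => rfl
  obtain ⟨w, hw⟩ := IsDiscreteValuationRing.exists_irreducible O
  have hw' := (IsDiscreteValuationRing.irreducible_iff_uniformizer w).mp hw
  refine ⟨e w, ?_, ?_, ?_⟩
  · ext x
    obtain ⟨y, rfl⟩ := e.surjective x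
    rw [IsLocalRing.mem_maximalIdeal, mem_nonunits_iff, Ideal.mem_span_singleton,
      MulEquiv.isUnit_map e, map_dvd_iff e, ← Ideal.mem_span_singleton, ← hw',
      IsLocalRing.mem_maximalIdeal, mem_nonunits_iff]
  · rw [Ne, map_eq_zero_iff e e.injective]
    exact hw.ne_zero
  · intro a ha
    have ha' : algebraMap A O a ≠ 0 := fun h0 => ha (loc_inj P (by rw [map_zero]; exact h0))
    obtain ⟨n, u, hu⟩ := IsDiscreteValuationRing.eq_unit_mul_pow_irreducible ha' hw
    have hn : vAt P a = n := by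
      change (Ring.ord O (algebraMap A O a)).toNat = n
      rw [hu, Ring.ord_mul_of_isUnit_left u.isUnit,
        Ring.ord_pow (mem_nonZeroDivisors_of_ne_zero hw.ne_zero), Ring.ord_of_irreducible hw]
      simp
    refine ⟨Units.map (e : O →* V) u, ?_⟩
    rw [hn, ← hψ₀ a, ← hψ a, hu, map_mul, map_pow, mul_comm]
    rfl

theorem isTameV_of_isTame [IsNoetherianRing A] (P : Curve1 A)
    (hP : IsDiscreteValuationRing (Localization.AtPrime P.ideal))
    {V : ValuationSubring K} (h : OverV P V) (φ : kap P ≃+* IsLocalRing.ResidueField V)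
    (hφ : IsResV P V φ) {a b : A} (ha : a ≠ 0) (hb : b ≠ 0)
    {t : (kap P)ˣ} (ht : IsTame P a b t) :
    IsTameV V (algebraMap A K a) (algebraMap A K b) (Units.map φ.toRingHom.toMonoidHom t) := by
  obtain ⟨ϖ, hϖ, hϖ0, hrep⟩ := nt_rep P hP h
  obtain ⟨u, hu⟩ := hrep a ha
  obtain ⟨v, hv⟩ := hrep b hb
  obtain ⟨c, d, hc, hd, hcd, htt⟩ := ht
  refine ⟨ϖ, vAt P a, vAt P b, u, v, hϖ, by rw [zpow_natCast]; exact hu,
    by rw [zpow_natCast]; exact hv, ?_⟩
  have hK0 : (ϖ : K) ≠ 0 := fun h0 => hϖ0 (Subtype.ext h0)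
  -- the identity in `K`
  have h1 := congrArg (algebraMap A K) hcd
  simp only [map_mul, map_pow, map_neg, map_one] at h1
  rw [hu, hv, mul_pow, mul_pow, ← pow_mul, ← pow_mul, mul_comm (vAt P b) (vAt P a)] at h1
  have h2 : ((u : V) : K) ^ vAt P b * algebraMap A K d = (-1) ^ (vAt P a * vAt P b) *
      (((v : V) : K) ^ vAt P a * algebraMap A K c) := by
    have h3 : (ϖ : K) ^ (vAt P a * vAt P b) ≠ 0 := pow_ne_zero _ hK0
    apply mul_left_cancel₀ h3
    linear_combination h1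
  -- the identity in `V`
  let c' : V := ⟨algebraMap A K c, (h c).1⟩
  let d' : V := ⟨algebraMap A K d, (h d).1⟩
  have h4 : (u : V) ^ vAt P b * d' = (-1) ^ (vAt P a * vAt P b) * ((v : V) ^ vAt P a * c') :=
    Subtype.ext (by push_cast; exact h2)
  have h5 := congrArg (IsLocalRing.residue V) h4
  simp only [map_mul, map_pow, map_neg, map_one] at h5
  have hc' : IsLocalRing.residue V c' = φ (res P c) := (hφ c c' rfl).symm
  have hd' : IsLocalRing.residue V d' = φ (res P d) := (hφ d d' rfl).symm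
  have hd0 : φ (res P d) ≠ 0 := by
    rw [Ne, map_eq_zero_iff φ φ.injective, res_eq_zero]
    exact hd
  rw [hc', hd', ← htt, map_mul] at h5
  have h6 : IsLocalRing.residue V (u : V) ^ vAt P b = (-1) ^ (vAt P a * vAt P b) *
      (IsLocalRing.residue V (v : V) ^ vAt P a * φ (t : kap P)) := by
    apply mul_right_cancel₀ hd0
    linear_combination h5
  have h7 : Units.map (IsLocalRing.residue V).toMonoidHom u ^ vAt P b =
      (-1) ^ (vAt P a * vAt P b) * (Units.map (IsLocalRing.residue V).toMonoidHom v ^ vAt P a *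
        Units.map φ.toRingHom.toMonoidHom t) := by
    ext
    push_cast
    exact h6
  have hs : ((-1 : (IsLocalRing.ResidueField V)ˣ) ^ (vAt P a * vAt P b)) *
      (-1) ^ (vAt P a * vAt P b) = 1 := by
    rw [← mul_pow]
    simp
  rw [← Nat.cast_mul, zpow_natCast, zpow_natCast, zpow_natCast, h7, mul_div_assoc,
    mul_div_cancel_left, ← mul_assoc, hs, one_mul]

end val

end Pool.Agent.K1
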