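import Pool.Agent.K1.NNormal
import Pool.Agent.K1.NVal
import Pool.Agent.K1.NTameV
import Pool.Agent.K1.NChart
import Pool.Agent.K1.NCurve

/-!
Theorem N, row N18: from the relative tame subgroup to pairs of rational functions.
-/

set_option autoImplicit false

namespace Pool.Agent.K1

/-- The tame symbol of the inverse. -/
theorem nk_inv {K : Type} [Field K] {V : ValuationSubring K} {f g : K}
    {t : (IsLocalRing.ResidueField V)ˣ} (h : IsTameV V f g t) : IsTameV V f⁻¹ g t⁻¹ := by
  obtain ⟨ϖ, a, b, u, v, hϖ, hf, hg, ht⟩ := h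
  refine ⟨ϖ, -a, b, u⁻¹, v, hϖ, ?_, hg, ?_⟩
  · have hu : ((u : V) : K) * (((u⁻¹ : Vˣ) : V) : K) = 1 := by
      have h1 := congrArg (Subtype.val : V → K) (Units.mul_inv u)
      exact h1
    rw [hf, mul_inv, zpow_neg, eq_inv_of_mul_eq_one_right hu]
  · rw [ht, map_inv, mul_inv, inv_div, inv_zpow, zpow_neg, neg_mul, zpow_neg]
    congr 1
    rw [div_eq_mul_inv, div_inv_eq_mul, mul_comm]

/-- The isomorphism of the function field of the curve with the residue field is unique. -/
theorem nk_resV_unique {A K : Type} [CommRing A] [Field K] [Algebra A K] {P : Curve1 A}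
    {V : ValuationSubring K} (h : OverV P V) {φ ψ : kap P ≃+* IsLocalRing.ResidueField V}
    (hφ : IsResV P V φ) (hψ : IsResV P V ψ) : φ = ψ := by
  ext x
  obtain ⟨a, b, hb, rfl⟩ := IsFractionRing.div_surjective (A := A ⧸ P.ideal) x
  obtain ⟨a, rfl⟩ := Ideal.Quotient.mk_surjective a
  obtain ⟨b, rfl⟩ := Ideal.Quotient.mk_surjective b
  rw [map_div₀, map_div₀]
  have h1 : ∀ c : A, φ (res P c) = ψ (res P c) := by
    intro c
    rw [hφ c ⟨algebraMap A K c, (h c).1⟩ rfl, hψ c ⟨algebraMap A K c, (h c).1⟩ rfl]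
  have h2 := h1 a
  have h3 := h1 b
  unfold res at h2 h3
  rw [h2, h3]

/-- Functions with the same leading form are congruent at the curve at infinity. -/
theorem nk_sameLead {k K : Type} [Field k] [Field K] [Algebra k K] (M : NModel k K) {s : K}
    {γ : ValuationSubring K} (h : M.IsPrimeForm s γ) (D : DegFun k (M.chart s))
    (hD : ∀ s', M.IsMin γ s' → ∀ (f : M.chart s) (j : ℕ),
      D.deg f ≤ j ↔ (f : K) * (s / s') ^ j ∈ γ) {a a' : M.chart s} (ha' : a' ≠ 0)
    (hU : SameLead D a a') : (a : K) / (a' : K) - 1 ∈ γ.nonunits := by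
  have ha'0 : (a' : K) ≠ 0 := fun h0 => ha' (Subtype.ext h0)
  rcases hU with rfl | hlt
  · rw [div_self ha'0, sub_self, ValuationSubring.mem_nonunits_iff, map_zero]
    exact zero_lt_one
  obtain ⟨-, -, s', hs', -⟩ := h.curve
  obtain ⟨j, hj⟩ : ∃ j, D.deg a = j + 1 := Nat.exists_eq_succ_of_ne_zero (by omega)
  have hs'0 : s' ≠ 0 := hs'.2.1
  set T : K := s / s' with hT
  have hT0 : T ≠ 0 := div_ne_zero h.ne hs'0
  have h1 : (a : K) * T ^ (j + 1) ∈ γ := (hD s' hs' a (j + 1)).1 hj.le
  have h2 : (a : K) * T ^ j ∉ γ := fun h0 => by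
    have := (hD s' hs' a j).2 h0
    omega
  have h3 : ((a - a' : M.chart s) : K) * T ^ j ∈ γ := (hD s' hs' _ j).1 (by omega)
  have h4 : (a : K) * T ^ (j + 1) ∉ γ.nonunits := by
    intro h0
    obtain ⟨c, hc, hc'⟩ := (h.mult s' hs' _).1 h0
    apply h2
    have : (a : K) * T ^ j = c := by
      apply mul_left_cancel₀ hT0
      rw [← hc', pow_succ]
      ring
    rw [this]
    exact hc
  have h5 : ((a - a' : M.chart s) : K) * T ^ (j + 1) ∈ γ.nonunits :=
    (h.mult s' hs' _).2 ⟨_, h3, by rw [pow_succ]; ring⟩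
  rw [ValuationSubring.mem_nonunits_iff] at h4 h5 ⊢
  have h6 : γ.valuation ((a : K) * T ^ (j + 1)) = 1 :=
    le_antisymm ((ValuationSubring.valuation_le_one_iff _ _).2 h1) (not_lt.1 h4)
  have h7 : γ.valuation ((a' : K) * T ^ (j + 1)) = 1 := by
    have e : (a' : K) * T ^ (j + 1) = (a : K) * T ^ (j + 1) -
        ((a - a' : M.chart s) : K) * T ^ (j + 1) := by
      push_cast
      ring
    rw [e, Valuation.map_sub_eq_of_lt_left]
    · exact h6
    · rw [h6]; exact h5
  have e : (a : K) / (a' : K) - 1 = (((a - a' : M.chart s) : K) * T ^ (j + 1)) /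
      ((a' : K) * T ^ (j + 1)) := by
    have hTp : T ^ (j + 1) ≠ 0 := pow_ne_zero _ hT0
    push_cast
    field_simp
  rw [e, map_div₀, h7, div_one]
  exact h5

/-- The conclusion, as a predicate on chains. -/
def nk_Pairs {k K : Type} [Field k] [Field K] [Algebra k K] (M : NModel k K) (s : K)
    (η : Chain1 (M.chart s)) : Prop :=
  ∃ (r : ℕ) (f g : Fin r → K), (∀ i, f i ≠ 0 ∧ g i ≠ 0) ∧
      ∀ V : ValuationSubring K, M.Curve V → ∃ t : Fin r → (IsLocalRing.ResidueField V)ˣ,
        (∀ i, IsTameV V (f i) (g i) (t i)) ∧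
        (∀ P : Curve1 (M.chart s), OverV P V → ∀ φ : kap P ≃+* IsLocalRing.ResidueField V,
          IsResV P V φ → ∏ i, t i = Units.map φ.toRingHom.toMonoidHom (Additive.toMul (η P))) ∧
        ((∀ P : Curve1 (M.chart s), ¬ OverV P V) → ∏ i, t i = 1)

theorem nk_zero {k K : Type} [Field k] [Field K] [Algebra k K] (M : NModel k K) (s : K) :
    nk_Pairs M s 0 := by
  refine ⟨0, Fin.elim0, Fin.elim0, fun i => i.elim0, fun V hV => ⟨Fin.elim0, fun i => i.elim0,
    ?_, ?_⟩⟩
  · intro P hP φ hφ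
    rw [DFinsupp.zero_apply, toMul_zero, map_one]
    rfl
  · intro _
    rfl

theorem nk_add {k K : Type} [Field k] [Field K] [Algebra k K] (M : NModel k K) (s : K)
    {η η' : Chain1 (M.chart s)} (h : nk_Pairs M s η) (h' : nk_Pairs M s η') :
    nk_Pairs M s (η + η') := by
  obtain ⟨r, f, g, hfg, hV⟩ := h
  obtain ⟨r', f', g', hfg', hV'⟩ := h'
  refine ⟨r + r', Fin.append f f', Fin.append g g', ?_, ?_⟩
  · intro i
    refine Fin.addCases (fun i => ?_) (fun i => ?_) i
    · rw [Fin.append_left, Fin.append_left]; exact hfg i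
    · rw [Fin.append_right, Fin.append_right]; exact hfg' i
  · intro V hc
    obtain ⟨t, ht, hP, hn⟩ := hV V hc
    obtain ⟨t', ht', hP', hn'⟩ := hV' V hc
    refine ⟨Fin.append t t', ?_, ?_, ?_⟩
    · intro i
      refine Fin.addCases (fun i => ?_) (fun i => ?_) i
      · rw [Fin.append_left, Fin.append_left, Fin.append_left]; exact ht i
      · rw [Fin.append_right, Fin.append_right, Fin.append_right]; exact ht' i
    · intro P hPV φ hφ
      rw [Fin.prod_univ_add]
      simp only [Fin.append_left, Fin.append_right]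
      rw [hP P hPV φ hφ, hP' P hPV φ hφ, DFinsupp.add_apply, toMul_add, map_mul]
    · intro hno
      rw [Fin.prod_univ_add]
      simp only [Fin.append_left, Fin.append_right]
      rw [hn hno, hn' hno, one_mul]

theorem nk_neg {k K : Type} [Field k] [Field K] [Algebra k K] (M : NModel k K) (s : K)
    {η : Chain1 (M.chart s)} (h : nk_Pairs M s η) : nk_Pairs M s (-η) := by
  obtain ⟨r, f, g, hfg, hV⟩ := h
  refine ⟨r, fun i => (f i)⁻¹, g, fun i => ⟨inv_ne_zero (hfg i).1, (hfg i).2⟩, ?_⟩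
  intro V hc
  obtain ⟨t, ht, hP, hn⟩ := hV V hc
  refine ⟨fun i => (t i)⁻¹, fun i => nk_inv (ht i), ?_, ?_⟩
  · intro P hPV φ hφ
    rw [Finset.prod_inv_distrib, hP P hPV φ hφ, DFinsupp.neg_apply, toMul_neg, map_inv]
  · intro hno
    rw [Finset.prod_inv_distrib, hn hno, inv_one]

theorem NModel.exists_pairs {k K : Type} [Field k] [IsAlgClosed k] [Field K] [Algebra k K]
    (M : NModel k K) (htr : Algebra.trdeg k K = 2) {s : K} {γ : ValuationSubring K}
    (h : M.IsPrimeForm s γ) (D : DegFun k (M.chart s))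
    (hD : ∀ s', M.IsMin γ s' → ∀ (f : M.chart s) (j : ℕ),
      D.deg f ≤ j ↔ (f : K) * (s / s') ^ j ∈ γ)
    (η : Chain1 (M.chart s)) (hη : η ∈ tameSubgroupRel (M.chart s) (SameLead D)) :
    ∃ (r : ℕ) (f g : Fin r → K), (∀ i, f i ≠ 0 ∧ g i ≠ 0) ∧
      ∀ V : ValuationSubring K, M.Curve V → ∃ t : Fin r → (IsLocalRing.ResidueField V)ˣ,
        (∀ i, IsTameV V (f i) (g i) (t i)) ∧
        (∀ P : Curve1 (M.chart s), OverV P V → ∀ φ : kap P ≃+* IsLocalRing.ResidueField V,
          IsResV P V φ → ∏ i, t i = Units.map φ.toRingHom.toMonoidHom (Additive.toMul (η P))) ∧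
        ((∀ P : Curve1 (M.chart s), ¬ OverV P V) → ∏ i, t i = 1) := by
  have hfr := M.isFractionRing_chart h.mem h.ne
  have hic := M.isIntegrallyClosed_chart h.mem h.ne
  have hft := M.finiteType_chart s
  have hno : IsNoetherianRing (M.chart s) := Algebra.FiniteType.isNoetherianRing k _
  have hA : ∀ P : Curve1 (M.chart s), IsDiscreteValuationRing (Localization.AtPrime P.ideal) :=
    fun P => nn_dvr P.ideal P.height
  change nk_Pairs M s η
  unfold tameSubgroupRel at hη
  induction hη using AddSubgroup.closure_induction with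
  | zero => exact nk_zero M s
  | add x y hx hy hx' hy' => exact nk_add M s hx' hy'
  | neg x hx hx' => exact nk_neg M s hx'
  | mem x hx =>
    obtain ⟨a, a', b, hU, ha, ha', hb, ξ₁, ξ₂, h1, h2, rfl⟩ := hx
    have ha0 : (a : K) ≠ 0 := fun h0 => ha (Subtype.ext h0)
    have ha'0 : (a' : K) ≠ 0 := fun h0 => ha' (Subtype.ext h0)
    have hb0 : (b : K) ≠ 0 := fun h0 => hb (Subtype.ext h0)
    refine ⟨1, fun _ => (a : K) / (a' : K), fun _ => (b : K), fun _ => ⟨div_ne_zero ha0 ha'0, hb0⟩,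
      ?_⟩
    intro V hV
    by_cases hover : ∃ P : Curve1 (M.chart s), OverV P V
    · obtain ⟨P, hP⟩ := hover
      obtain ⟨φ, hφ⟩ := exists_resV P (hA P) hP
      refine ⟨fun _ => Units.map φ.toRingHom.toMonoidHom (Additive.toMul (ξ₁ P)) /
        Units.map φ.toRingHom.toMonoidHom (Additive.toMul (ξ₂ P)), ?_, ?_, ?_⟩
      · intro _
        exact IsTameV.div_left ha0 ha'0 hb0
          (isTameV_of_isTame P (hA P) hP φ hφ ha hb (h1 P))
          (isTameV_of_isTame P (hA P) hP φ hφ ha' hb (h2 P))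
      · intro P' hP' φ' hφ'
        obtain rfl : P = P' := overV_curve_unique hP hP'
        obtain rfl : φ = φ' := nk_resV_unique hP hφ hφ'
        rw [Fin.prod_univ_one, DFinsupp.sub_apply, toMul_sub, map_div]
      · intro hn
        exact absurd hP (hn P)
    · have hVγ : V = γ := by
        by_contra hne
        exact hover (M.exists_over htr hV ((h.iff V hV).2 hne))
      subst hVγ
      obtain ⟨ϖ, hϖ0, hϖ, hVn⟩ := M.curve_principal htr hV
      refine ⟨fun _ => 1, fun _ => isTameV_one ϖ hϖ hϖ0 hVn (nk_sameLead M h D hD ha' hU) hb0,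
        ?_, ?_⟩
      · intro P hP
        exact absurd ⟨P, hP⟩ hover
      · intro _
        rw [Fin.prod_univ_one]

end Pool.Agent.K1
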