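import Pool.Agent.K1.NModelDef
import Pool.Agent.K1.NVal

/-!
Transfer of a chain between two rings with the same function field.
-/

set_option autoImplicit false

namespace Pool.Agent.K1

/-- The isomorphism of the function field of a curve with the residue field is unique. -/
theorem ny_resV_unique {A K : Type} [CommRing A] [Field K] [Algebra A K] {P : Curve1 A}
    {V : ValuationSubring K} (h : OverV P V) {φ φ' : kap P ≃+* IsLocalRing.ResidueField V}
    (hφ : IsResV P V φ) (hφ' : IsResV P V φ') : φ = φ' := by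
  have h1 : (φ : kap P →+* IsLocalRing.ResidueField V) = (φ' : kap P →+* _) := by
    apply IsLocalization.ringHom_ext (nonZeroDivisors (A ⧸ P.ideal))
    apply Ideal.Quotient.ringHom_ext
    ext a
    exact (hφ a ⟨algebraMap A K a, (h a).1⟩ rfl).trans
      (hφ' a ⟨algebraMap A K a, (h a).1⟩ rfl).symm
  ext t
  exact RingHom.congr_fun h1 t

theorem exists_transfer {A A' K : Type} [CommRing A] [IsDomain A] [CommRing A'] [IsDomain A']
    [Field K] [Algebra A K] [IsFractionRing A K] [Algebra A' K] [IsFractionRing A' K]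
    (ξ : Chain1 A) (h1 : ∀ P, ξ P ≠ 0 → IsDiscreteValuationRing (Localization.AtPrime P.ideal))
    (h2 : ∀ P, ξ P ≠ 0 → ∃ (P' : Curve1 A') (V : ValuationSubring K), OverV P V ∧ OverV P' V ∧
      IsDiscreteValuationRing (Localization.AtPrime P'.ideal)) :
    ∃ ξ' : Chain1 A', (∀ (P : Curve1 A) (P' : Curve1 A') (V : ValuationSubring K), OverV P V →
      OverV P' V → ξ P ≠ 0 → ∀ (φ : kap P ≃+* IsLocalRing.ResidueField V)
        (φ' : kap P' ≃+* IsLocalRing.ResidueField V), IsResV P V φ → IsResV P' V φ' →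
        Units.map φ'.toRingHom.toMonoidHom (Additive.toMul (ξ' P')) =
          Units.map φ.toRingHom.toMonoidHom (Additive.toMul (ξ P))) ∧
      ∀ P' : Curve1 A', ξ' P' ≠ 0 → ∃ (P : Curve1 A) (V : ValuationSubring K), ξ P ≠ 0 ∧
        OverV P V ∧ OverV P' V := by
  classical
  -- the choices
  have h3 : ∀ x : ξ.support, ∃ (P' : Curve1 A') (V : ValuationSubring K)
      (φ : kap x.1 ≃+* IsLocalRing.ResidueField V)
      (φ' : kap P' ≃+* IsLocalRing.ResidueField V), OverV x.1 V ∧ OverV P' V ∧
      IsDiscreteValuationRing (Localization.AtPrime P'.ideal) ∧ IsResV x.1 V φ ∧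
      IsResV P' V φ' := by
    intro x
    have hx : ξ x.1 ≠ 0 := (DFinsupp.mem_support_toFun ξ x.1).1 x.2
    obtain ⟨P', V, ha, hb, hc⟩ := h2 x.1 hx
    obtain ⟨φ, hφ⟩ := exists_resV x.1 (h1 x.1 hx) ha
    obtain ⟨φ', hφ'⟩ := exists_resV P' hc hb
    exact ⟨P', V, φ, φ', ha, hb, hc, hφ, hφ'⟩
  choose pp W Φ Φ' hW hW' hD hΦ hΦ' using h3
  have hinj : ∀ x y : ξ.support, pp x = pp y → x = y := by
    intro x y hxy
    have hy := hW' y
    rw [← hxy] at hy
    have h4 : W x = W y := overV_unique (pp x) (hD x) (hW' x) hy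
    have h5 := hW y
    rw [← h4] at h5
    exact Subtype.ext (overV_curve_unique (hW x) h5)
  set T : ξ.support → Chain1 A' := fun x => DFinsupp.single (pp x)
    (Additive.ofMul (Units.map ((Φ x).trans (Φ' x).symm).toRingHom.toMonoidHom
      (Additive.toMul (ξ x.1)))) with hT
  have hval : ∀ x : ξ.support, (∑ y : ξ.support, T y) (pp x) =
      Additive.ofMul (Units.map ((Φ x).trans (Φ' x).symm).toRingHom.toMonoidHom
        (Additive.toMul (ξ x.1))) := by
    intro x
    rw [DFinsupp.finsetSum_apply, Finset.sum_eq_single x]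
    · simp only [hT]
      rw [DFinsupp.single_eq_same]
    · intro y _ hyx
      simp only [hT]
      rw [DFinsupp.single_eq_of_ne]
      intro h
      exact hyx (hinj y x h.symm)
    · intro hx
      exact absurd (Finset.mem_univ x) hx
  refine ⟨∑ y : ξ.support, T y, ?_, ?_⟩
  · intro P P' V hV hV' hP
    obtain ⟨x, rfl⟩ : ∃ x : ξ.support, x.1 = P :=
      ⟨⟨P, (DFinsupp.mem_support_toFun ξ P).2 hP⟩, rfl⟩
    obtain rfl : W x = V := overV_unique x.1 (h1 x.1 hP) (hW x) hV
    obtain rfl : pp x = P' := overV_curve_unique (hW' x) hV'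
    intro φ φ' hφ hφ'
    obtain rfl : Φ x = φ := ny_resV_unique (hW x) (hΦ x) hφ
    obtain rfl : Φ' x = φ' := ny_resV_unique (hW' x) (hΦ' x) hφ'
    rw [hval x, toMul_ofMul]
    ext
    exact (Φ' x).apply_symm_apply _
  · intro P' hP'
    by_contra hcon
    push Not at hcon
    apply hP'
    rw [DFinsupp.finsetSum_apply]
    refine Finset.sum_eq_zero fun y _ => ?_
    simp only [hT]
    rw [DFinsupp.single_eq_of_ne]
    intro h
    exact hcon y.1 (W y) ((DFinsupp.mem_support_toFun ξ y.1).1 y.2) (hW y) (h ▸ hW' y)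

end Pool.Agent.K1
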