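import Pool.Agent.K1.NModelDef
import Pool.Agent.K1.EndGame

/-!
Theorem N, Lemma U: a unit at all places over a point has order zero at the point.
-/

set_option autoImplicit false

namespace Pool.Agent.K1

section len

variable {O : Type*} [CommRing O]

/-- The length of `O/(P, c J)`. -/
theorem nx_len_mul (P J : Ideal O) (hPJ : P ≤ J) {c : O} (hc : ∀ y, c * y ∈ P → y ∈ P) :
    Module.length O (O ⧸ (P ⊔ Ideal.span {c} * J)) = lenP P c + Module.length O (O ⧸ J) := by
  set L : Ideal O := P ⊔ Ideal.span {c} * J with hL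
  have hle : L ≤ P ⊔ Ideal.span {c} := sup_le le_sup_left (Ideal.mul_le_left.trans le_sup_right)
  have hle2 : J ≤ Submodule.comap (LinearMap.mulLeft O c) L := by
    intro y hy
    exact Ideal.mem_sup_right (Ideal.mul_mem_mul (Ideal.mem_span_singleton_self c) hy)
  let i : (O ⧸ J) →ₗ[O] (O ⧸ L) := Submodule.mapQ _ _ (LinearMap.mulLeft O c) hle2
  let q : (O ⧸ L) →ₗ[O] (O ⧸ (P ⊔ Ideal.span {c})) := Submodule.mapQ _ _ LinearMap.id hle
  have mem : ∀ x, x ∈ L → ∃ p ∈ P, ∃ j ∈ J, p + c * j = x := by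
    intro x hx
    rw [hL, Submodule.mem_sup] at hx
    obtain ⟨p, hp, y, hy, rfl⟩ := hx
    obtain ⟨j, hj, rfl⟩ := Ideal.mem_span_singleton_mul.1 hy
    exact ⟨p, hp, j, hj, rfl⟩
  have hi : Function.Injective i := by
    rw [← LinearMap.ker_eq_bot, LinearMap.ker_eq_bot']
    rintro ⟨x⟩ hx
    have h1 : c * x ∈ L := (Submodule.Quotient.mk_eq_zero _).1 hx
    obtain ⟨p, hp, j, hj, h⟩ := mem _ h1
    have h2 : c * (x - j) ∈ P := by
      have h3 : c * (x - j) = p := by linear_combination -h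
      rw [h3]; exact hp
    apply (Submodule.Quotient.mk_eq_zero _).2
    have h4 : x = (x - j) + j := by ring
    rw [h4]
    exact J.add_mem (hPJ (hc _ h2)) hj
  have hq : Function.Surjective q := by
    rintro ⟨x⟩
    exact ⟨Submodule.Quotient.mk x, rfl⟩
  have hex : Function.Exact i q := by
    rintro ⟨x⟩
    constructor
    · intro hx
      have h1 : x ∈ P ⊔ Ideal.span {c} := (Submodule.Quotient.mk_eq_zero _).1 hx
      rw [Submodule.mem_sup] at h1
      obtain ⟨u, hu, v, hv, huv⟩ := h1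
      obtain ⟨w, rfl⟩ := Ideal.mem_span_singleton'.1 hv
      refine ⟨Submodule.Quotient.mk w, ?_⟩
      change Submodule.Quotient.mk (c * w) = Submodule.Quotient.mk x
      rw [Submodule.Quotient.eq]
      have h2 : c * w - x = -u := by linear_combination huv
      rw [h2]
      exact Ideal.mem_sup_left (P.neg_mem hu)
    · rintro ⟨⟨w⟩, hw⟩
      have h1 : (Submodule.Quotient.mk (c * w) : O ⧸ L) = Submodule.Quotient.mk x := hw
      change q (Submodule.Quotient.mk x) = 0
      rw [← h1]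
      change (Submodule.Quotient.mk (c * w) : O ⧸ (P ⊔ Ideal.span {c})) = 0
      rw [Submodule.Quotient.mk_eq_zero]
      exact Ideal.mem_sup_right (Ideal.mul_mem_right _ _ (Ideal.mem_span_singleton_self c))
  have h := Module.length_eq_add_of_exact i q hi hq hex
  unfold lenP
  rw [h, add_comm]

/-- The elements of `O` which multiply the algebra `T` into the image of `O`. -/
def nx_cond {κ : Type*} [Field κ] (ρ : O →+* κ) (T : Subalgebra ρ.range κ) : Ideal O where
  carrier := {x | ∀ m ∈ T, ρ x * m ∈ ρ.range}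
  zero_mem' := by
    intro m _
    rw [map_zero, zero_mul]
    exact zero_mem _
  add_mem' := by
    intro a b ha hb m hm
    rw [map_add, add_mul]
    exact add_mem (ha m hm) (hb m hm)
  smul_mem' := by
    intro r x hx m hm
    rw [smul_eq_mul, map_mul, mul_assoc]
    exact mul_mem ⟨r, rfl⟩ (hx m hm)

theorem nx_mem_cond {κ : Type*} [Field κ] (ρ : O →+* κ) (T : Subalgebra ρ.range κ) (x : O) :
    x ∈ nx_cond ρ T ↔ ∀ m ∈ T, ρ x * m ∈ ρ.range := Iff.rfl

theorem nx_half {κ : Type*} [Field κ] (ρ : O →+* κ) (T : Subalgebra ρ.range κ) (t : κ)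
    (ht : t ∈ T) (c d : O) (hcd : t * ρ d = ρ c) :
    RingHom.ker ρ ⊔ Ideal.span {c} * nx_cond ρ T ≤ RingHom.ker ρ ⊔ Ideal.span {d} * nx_cond ρ T := by
  refine sup_le le_sup_left ?_
  intro y hy
  obtain ⟨x, hx, rfl⟩ := Ideal.mem_span_singleton_mul.1 hy
  obtain ⟨z, hz⟩ := hx t ht
  have hzJ : z ∈ nx_cond ρ T := by
    intro m hm
    rw [hz, mul_assoc]
    exact hx _ (mul_mem ht hm)
  have h1 : c * x - d * z ∈ RingHom.ker ρ := by
    rw [RingHom.mem_ker, map_sub, map_mul, map_mul, hz, ← hcd]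
    ring
  have h2 : c * x = (c * x - d * z) + d * z := by ring
  rw [h2]
  exact Ideal.add_mem _ (Ideal.mem_sup_left h1)
    (Ideal.mem_sup_right (Ideal.mul_mem_mul (Ideal.mem_span_singleton_self d) hzJ))

theorem nx_core {κ : Type*} [Field κ] (ρ : O →+* κ) (t : κ) (ht0 : t ≠ 0)
    (h1 : IsIntegral ρ.range t) (h2 : IsIntegral ρ.range t⁻¹)
    (hden : ∀ s : Finset κ, ∃ D : O, ρ D ≠ 0 ∧ ∀ m ∈ s, ρ D * m ∈ ρ.range)
    (hfin : ∀ D, ρ D ≠ 0 → lenP (RingHom.ker ρ) D ≠ ⊤) (c d : O) (hc : ρ c ≠ 0) (hd : ρ d ≠ 0)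
    (hcd : t * ρ d = ρ c) : lenP (RingHom.ker ρ) c = lenP (RingHom.ker ρ) d := by
  classical
  set T : Subalgebra ρ.range κ := Algebra.adjoin ρ.range {t, t⁻¹} with hT
  have htT : t ∈ T := Algebra.subset_adjoin (by simp)
  have htT' : t⁻¹ ∈ T := Algebra.subset_adjoin (by simp)
  have hfg : (Subalgebra.toSubmodule T).FG := by
    apply fg_adjoin_of_finite
    · exact (Set.finite_singleton _).insert _
    · intro x hx
      rcases hx with rfl | hx
      · exact h1
      · rw [Set.mem_singleton_iff] at hx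
        rw [hx]; exact h2
  obtain ⟨s, hs⟩ := hfg
  obtain ⟨D, hD0, hD⟩ := hden s
  have hDJ : D ∈ nx_cond ρ T := by
    intro m hm
    have hm' : m ∈ Submodule.span ρ.range (s : Set κ) := by
      rw [hs]; exact hm
    induction hm' using Submodule.span_induction with
    | mem x hx => exact hD x hx
    | zero => rw [mul_zero]; exact zero_mem _
    | add x y hx hy ihx ihy =>
      have hx' : x ∈ T := by
        have := hx; rw [hs] at this; exact this
      have hy' : y ∈ T := by
        have := hy; rw [hs] at this; exact this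
      rw [mul_add]
      exact add_mem (ihx hx') (ihy hy')
    | smul a x hx ihx =>
      have hx' : x ∈ T := by
        have := hx; rw [hs] at this; exact this
      have h3 : ρ D * (a • x) = (a : κ) * (ρ D * x) := by
        rw [Subring.smul_def, smul_eq_mul]; ring
      rw [h3]
      exact mul_mem a.2 (ihx hx')
  have hker : RingHom.ker ρ ≤ nx_cond ρ T := by
    intro x hx m _
    rw [RingHom.mem_ker] at hx
    rw [hx, zero_mul]
    exact zero_mem _
  have hreg : ∀ c : O, ρ c ≠ 0 → ∀ y, c * y ∈ RingHom.ker ρ → y ∈ RingHom.ker ρ := by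
    intro c hc y hy
    rw [RingHom.mem_ker, map_mul] at hy
    exact (mul_eq_zero.1 hy).resolve_left hc
  have hdc : t⁻¹ * ρ c = ρ d := by
    rw [← hcd, inv_mul_cancel_left₀ ht0]
  have heq : RingHom.ker ρ ⊔ Ideal.span {c} * nx_cond ρ T =
      RingHom.ker ρ ⊔ Ideal.span {d} * nx_cond ρ T :=
    le_antisymm (nx_half ρ T t htT c d hcd) (nx_half ρ T t⁻¹ htT' d c hdc)
  have e1 := nx_len_mul (RingHom.ker ρ) (nx_cond ρ T) hker (hreg c hc)
  have e2 := nx_len_mul (RingHom.ker ρ) (nx_cond ρ T) hker (hreg d hd)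
  rw [heq, e2] at e1
  have hJ : Module.length O (O ⧸ nx_cond ρ T) ≠ ⊤ := by
    have hle : RingHom.ker ρ ⊔ Ideal.span {D} ≤ nx_cond ρ T :=
      sup_le hker ((Ideal.span_singleton_le_iff_mem _).2 hDJ)
    have h3 : Module.length O (O ⧸ nx_cond ρ T) ≤ lenP (RingHom.ker ρ) D :=
      Module.length_le_of_surjective
        (Submodule.mapQ (RingHom.ker ρ ⊔ Ideal.span {D}) (nx_cond ρ T) LinearMap.id hle)
        (by rintro ⟨x⟩; exact ⟨Submodule.Quotient.mk x, rfl⟩)
    intro h4
    rw [h4, top_le_iff] at h3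
    exact hfin D hD0 h3
  exact (ENat.add_left_injective_of_ne_top hJ e1).symm

end len

section rho

variable {k A : Type*} [Field k] [CommRing A] [Algebra k A]

/-- Restriction to the curve `P`, as a homomorphism. -/
noncomputable def nx_res (P : Curve1 A) : A →+* kap P :=
  (algebraMap (A ⧸ P.ideal) (kap P)).comp (Ideal.Quotient.mk P.ideal)

/-- Evaluation along the curve `P` of the functions defined at the point `z` of `P`. -/
noncomputable def nx_rho (P : Curve1 A) (z : A →ₐ[k] k) (hz : ∀ a ∈ P.ideal, z a = 0) :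
    LocAt z →+* kap P :=
  IsLocalization.lift (M := (RingHom.ker z).primeCompl) (g := nx_res P) (by
    intro y
    have h : res P (y : A) ≠ 0 := by
      rw [Ne, res_eq_zero]
      intro h
      exact y.2 (hz _ h)
    exact isUnit_iff_ne_zero.2 h)

theorem nx_rho_apply (P : Curve1 A) (z : A →ₐ[k] k) (hz : ∀ a ∈ P.ideal, z a = 0) (a : A) :
    nx_rho P z hz (algebraMap A (LocAt z) a) = res P a :=
  IsLocalization.lift_eq _ _

theorem nx_ker_rho (P : Curve1 A) (z : A →ₐ[k] k) (hz : ∀ a ∈ P.ideal, z a = 0) :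
    RingHom.ker (nx_rho P z hz) = P.ideal.map (algebraMap A (LocAt z)) := by
  ext y
  rw [RingHom.mem_ker, loc_mem_map_iff]
  obtain ⟨⟨a, s⟩, h⟩ := IsLocalization.surj (RingHom.ker z).primeCompl y
  have h1 := congrArg (nx_rho P z hz) h
  rw [map_mul, nx_rho_apply, nx_rho_apply] at h1
  have hs : res P (s : A) ≠ 0 := by
    rw [Ne, res_eq_zero]
    intro h'
    exact s.2 (hz _ h')
  constructor
  · intro hy
    rw [hy, zero_mul] at h1
    exact ⟨a, s, (res_eq_zero P a).1 h1.symm, h⟩
  · rintro ⟨c, s', hc, h'⟩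
    have h2 := congrArg (nx_rho P z hz) h'
    rw [map_mul, nx_rho_apply, nx_rho_apply, (res_eq_zero P c).2 hc] at h2
    refine (mul_eq_zero.1 h2).resolve_right ?_
    rw [res_eq_zero]
    intro h'
    exact s'.2 (hz _ h')

theorem nx_surj (P : Curve1 A) (x : kap P) :
    ∃ a b : A, b ∉ P.ideal ∧ x * res P b = res P a := by
  obtain ⟨⟨a, b⟩, h⟩ := IsLocalization.surj (nonZeroDivisors (A ⧸ P.ideal)) x
  obtain ⟨a, rfl⟩ := Ideal.Quotient.mk_surjective a
  obtain ⟨b, hb⟩ := b
  obtain ⟨b, rfl⟩ := Ideal.Quotient.mk_surjective b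
  refine ⟨a, b, ?_, h⟩
  intro hb'
  rw [← Ideal.Quotient.eq_zero_iff_mem] at hb'
  exact nonZeroDivisors.ne_zero hb hb'

theorem nx_den (P : Curve1 A) (s : Finset (kap P)) :
    ∃ D : A, D ∉ P.ideal ∧ ∀ m ∈ s, ∃ a : A, res P D * m = res P a := by
  classical
  induction s using Finset.induction_on with
  | empty =>
    refine ⟨1, fun h => P.isPrime.ne_top ((Ideal.eq_top_iff_one _).2 h), ?_⟩
    intro m hm
    exact absurd hm (Finset.notMem_empty m)
  | insert x s _ ih =>
    obtain ⟨D, hD, h⟩ := ih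
    obtain ⟨a, b, hb, hab⟩ := nx_surj P x
    refine ⟨D * b, fun h' => (P.isPrime.mem_or_mem h').elim hD hb, ?_⟩
    intro m hm
    rcases Finset.mem_insert.1 hm with rfl | hm
    · refine ⟨D * a, ?_⟩
      rw [res_mul, res_mul, ← hab]; ring
    · obtain ⟨a', ha'⟩ := h m hm
      refine ⟨a' * b, ?_⟩
      rw [res_mul, res_mul, ← ha']; ring

/-- The valuation rings which contain the local ring of the curve at the point. -/
theorem nx_val (hdim : ringKrullDim A = 2) (P : Curve1 A)
    (z : A →ₐ[k] k) (hz : ∀ a ∈ P.ideal, z a = 0) (t : (kap P)ˣ)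
    (h : ∀ v : ValuationSubring (kap P), (∀ a : A, res P a ∈ v) →
      (∀ a : A, z a = 0 → res P a ∈ v.nonunits) → (t : kap P) ∈ v ∧ ((t⁻¹ : (kap P)ˣ) : kap P) ∈ v)
    (v : ValuationSubring (kap P)) (hv : (nx_rho P z hz).range ≤ v.toSubring) :
    (t : kap P) ∈ v ∧ ((t⁻¹ : (kap P)ˣ) : kap P) ∈ v := by
  have hmem : ∀ a : A, res P a ∈ v := fun a => hv ⟨algebraMap A (LocAt z) a, nx_rho_apply P z hz a⟩
  let φ : A →+* v := (nx_res P).codRestrict v.toSubring hmem
  set Q : Ideal A := (IsLocalRing.maximalIdeal v).comap φ with hQ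
  have hQp : Q.IsPrime := Ideal.comap_isPrime _ _
  have hQm : ∀ a, a ∈ Q ↔ res P a ∈ v.nonunits := by
    intro a
    rw [hQ, Ideal.mem_comap, ← ValuationSubring.coe_mem_nonunits_iff]
    rfl
  have hPQ : P.ideal ≤ Q := by
    intro a ha
    rw [hQ, Ideal.mem_comap]
    have h1 : φ a = 0 := Subtype.ext ((res_eq_zero P a).2 ha)
    rw [h1]
    exact zero_mem _
  have hQz : Q ≤ RingHom.ker z := by
    intro a ha
    by_contra hne
    have hne' : a ∈ (RingHom.ker z).primeCompl := hne
    have h1 : IsUnit (algebraMap A (LocAt z) a) :=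
      IsLocalization.map_units (LocAt z) (⟨a, hne'⟩ : (RingHom.ker z).primeCompl)
    obtain ⟨u, hu⟩ := h1
    have h2 : res P a * nx_rho P z hz (↑(u⁻¹) : LocAt z) = 1 := by
      rw [← nx_rho_apply P z hz a, ← hu, ← map_mul, Units.mul_inv, map_one]
    have h3 : nx_rho P z hz (↑(u⁻¹) : LocAt z) ∈ v := hv ⟨_, rfl⟩
    have h4 : IsUnit (φ a) := by
      refine isUnit_iff_exists_inv.2 ⟨⟨_, h3⟩, ?_⟩
      exact Subtype.ext h2
    exact (IsLocalRing.mem_maximalIdeal _).1 (Ideal.mem_comap.1 ha) h4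
  by_cases hQe : Q = RingHom.ker z
  · refine h v hmem fun a ha => (hQm a).1 ?_
    rw [hQe]; exact ha
  · have hQP : Q = P.ideal := by
      by_contra hne
      have hlt1 : P.ideal < Q := lt_of_le_of_ne hPQ (Ne.symm hne)
      have hlt2 : Q < RingHom.ker z := lt_of_le_of_ne hQz hQe
      have hzp : (RingHom.ker z).IsPrime := inferInstance
      have hle : (RingHom.ker z).height ≤ 2 := by
        have h1 := (Ideal.height_le_ringKrullDim_of_isPrime (I := RingHom.ker z)).trans hdim.le
        exact WithBot.coe_le_coe.1 h1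
      have h2 : P.ideal.height + 1 ≤ Q.height := by
        have := P.isPrime
        exact Ideal.height_add_one_le_of_lt_of_isPrime hlt1
      have h3 : Q.height + 1 ≤ (RingHom.ker z).height :=
        Ideal.height_add_one_le_of_lt_of_isPrime hlt2
      rw [P.height] at h2
      have h4 : (1 + 1 + 1 : ℕ∞) ≤ 2 := (add_le_add_left h2 1).trans (h3.trans hle)
      exact absurd h4 (by decide)
    have htop : ∀ x : kap P, x ∈ v := by
      intro x
      obtain ⟨a, b, hb, hab⟩ := nx_surj P x
      have hbu : res P b ∉ v.nonunits := by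
        rw [← hQm, hQP]; exact hb
      have hb0 : res P b ≠ 0 := by
        rw [Ne, res_eq_zero]; exact hb
      have h1 : (res P b)⁻¹ ∈ v := by
        by_contra h2
        have h3 := (v.mem_or_inv_mem (res P b)⁻¹).resolve_left h2
        apply hbu
        rw [ValuationSubring.mem_nonunits_iff_or] 
        right
        exact h2
      have h2 : x = res P a * (res P b)⁻¹ := by
        rw [← hab, mul_inv_cancel_right₀ hb0]
      rw [h2]
      exact mul_mem (hmem a) h1
    exact ⟨htop _, htop _⟩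

end rho

theorem isOrdZ_zero_of_units {k A : Type} [Field k] [IsAlgClosed k] [CommRing A] [IsDomain A]
    [Algebra k A] [Algebra.FiniteType k A] (hdim : ringKrullDim A = 2) (P : Curve1 A)
    (z : A →ₐ[k] k) (hz : ∀ a ∈ P.ideal, z a = 0) (t : (kap P)ˣ)
    (h : ∀ v : ValuationSubring (kap P), (∀ a : A, res P a ∈ v) →
      (∀ a : A, z a = 0 → res P a ∈ v.nonunits) → (t : kap P) ∈ v ∧ ((t⁻¹ : (kap P)ˣ) : kap P) ∈ v) :
    IsOrdZ P z t 0 := by
  have hnoe : IsNoetherianRing A := Algebra.FiniteType.isNoetherianRing k A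
  set ρ := nx_rho P z hz with hρ
  have hint : ∀ x : kap P, (∀ v : ValuationSubring (kap P), ρ.range ≤ v.toSubring → x ∈ v) →
      IsIntegral ρ.range x := by
    intro x hx
    have h1 : x ∈ (⨅ V : {V : ValuationSubring (kap P) // (ρ.range : Set (kap P)) ⊆ V.toSubring},
        V.1.toSubring) := by
      rw [Subring.mem_iInf]
      rintro ⟨V, hV⟩
      exact hx V hV
    rw [iInf_valuationSubring_superset, Subring.closure_eq] at h1
    exact h1
  obtain ⟨c, d, hd, hcd⟩ := nx_surj P (t : kap P)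
  have hd0 : res P d ≠ 0 := by
    rw [Ne, res_eq_zero]; exact hd
  have hc0 : res P c ≠ 0 := by
    rw [← hcd]
    exact mul_ne_zero t.ne_zero hd0
  have hc : c ∉ P.ideal := by
    rw [← res_eq_zero]; exact hc0
  have key := nx_core ρ (t : kap P) t.ne_zero
    (hint _ fun v hv => (nx_val hdim P z hz t h v hv).1)
    (hint _ fun v hv => by
      have := (nx_val hdim P z hz t h v hv).2
      rwa [Units.val_inv_eq_inv_val] at this)
    (by
      intro s
      obtain ⟨D, hD, hD'⟩ := nx_den P s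
      refine ⟨algebraMap A (LocAt z) D, ?_, ?_⟩
      · rw [hρ, nx_rho_apply, Ne, res_eq_zero]; exact hD
      · intro m hm
        obtain ⟨a, ha⟩ := hD' m hm
        refine ⟨algebraMap A (LocAt z) a, ?_⟩
        rw [hρ, nx_rho_apply, nx_rho_apply, ha])
    (by
      intro D hD
      obtain ⟨⟨a, s⟩, hs⟩ := IsLocalization.surj (RingHom.ker z).primeCompl D
      have h1 := congrArg ρ hs
      rw [map_mul] at h1
      have hsu : IsUnit (algebraMap A (LocAt z) s) := IsLocalization.map_units (LocAt z) s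
      have ha : res P a ≠ 0 := by
        rw [← nx_rho_apply P z hz a, ← hρ, ← h1]
        exact mul_ne_zero hD (hsu.map ρ).ne_zero
      have h2 : lenP (RingHom.ker ρ) (D * algebraMap A (LocAt z) s) ≠ ⊤ := by
        rw [hs, hρ, nx_ker_rho]
        exact ordPt_ne_top hdim.le P z (by rw [← res_eq_zero]; exact ha)
      rw [lenP_mul] at h2
      · intro h3
        rw [h3, top_add] at h2
        exact h2 rfl
      · intro y hy
        rw [RingHom.mem_ker, map_mul] at hy
        exact (mul_eq_zero.1 hy).resolve_left hD)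
    (algebraMap A (LocAt z) c) (algebraMap A (LocAt z) d)
    (by rw [hρ, nx_rho_apply]; exact hc0) (by rw [hρ, nx_rho_apply]; exact hd0)
    (by rw [hρ, nx_rho_apply, nx_rho_apply]; exact hcd)
  rw [hρ, nx_ker_rho] at key
  refine ⟨c, d, hc, hd, hcd, ?_⟩
  unfold ordPt
  rw [key, sub_self]

end Pool.Agent.K1
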