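import Pool.Agent.K1.NGood
import Pool.Agent.K1.NDeg
import Pool.Agent.K1.NLink
import Pool.Agent.K1.NOrd
import Pool.Agent.K1.NUnit
import Pool.Agent.K1.NTrans
import Pool.Agent.K1.NTamePairs
import Pool.Agent.K1.NZeros
import Pool.Agent.K1.NExists
import Pool.Agent.K1.AffMain

/-!
Theorem N, the assembly.
-/

set_option autoImplicit false

namespace Pool.Agent.K1

namespace NFin

section place

variable {k A : Type} [Field k] [CommRing A] [Algebra k A]

/-- The place `v` of the curve `P` is centred at the point `z`. -/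
def Cent (P : Curve1 A) (v : ValuationSubring (kap P)) (z : A →ₐ[k] k) : Prop :=
  ∀ a : A, res P a ∈ v ∧ (z a = 0 → res P a ∈ v.nonunits)

theorem res_sub (P : Curve1 A) (a b : A) : res P (a - b) = res P a - res P b := by
  simp [res]

theorem mul_mem_nonunits {K : Type*} [Field K] {v : ValuationSubring K} {x y : K}
    (hx : x ∈ v.nonunits) (hy : y ∈ v) : x * y ∈ v.nonunits := by
  rw [ValuationSubring.mem_nonunits_iff] at hx ⊢
  rw [map_mul]
  have h1 : v.valuation y ≤ 1 := (v.valuation_le_one_iff _).2 hy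
  calc v.valuation x * v.valuation y ≤ v.valuation x * 1 := by gcongr
    _ < 1 := by rw [mul_one]; exact hx

theorem one_notMem_nonunits {K : Type*} [Field K] (v : ValuationSubring K) :
    (1 : K) ∉ v.nonunits := by
  rw [ValuationSubring.mem_nonunits_iff, map_one]
  exact lt_irrefl _

theorem inv_mem_of_notMem_nonunits {K : Type*} [Field K] {v : ValuationSubring K} {x : K}
    (hx : x ∉ v.nonunits) : x⁻¹ ∈ v ∧ x ≠ 0 := by
  rw [ValuationSubring.mem_nonunits_iff_or, not_or, not_not] at hx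
  exact ⟨hx.2, hx.1⟩

theorem cent_iff {P : Curve1 A} {v : ValuationSubring (kap P)} {z : A →ₐ[k] k} (h : Cent P v z)
    (a : A) : res P a ∈ v.nonunits ↔ z a = 0 := by
  refine ⟨fun ha => ?_, (h a).2⟩
  by_contra hz
  have h1 : z (a - algebraMap k A (z a)) = 0 := by simp
  have h2 := (h _).2 h1
  have h3 : res P (algebraMap k A (z a)) ∈ v.nonunits := by
    have h4 : res P (algebraMap k A (z a)) = res P a - res P (a - algebraMap k A (z a)) := by
      rw [res_sub]; ring
    rw [h4]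
    exact sub_mem ha h2
  have h4 : res P (algebraMap k A (z a)) * res P (algebraMap k A (z a)⁻¹) = 1 := by
    rw [← res_mul, ← map_mul, mul_inv_cancel₀ hz, map_one, res_one]
  have h5 := mul_mem_nonunits h3 (h (algebraMap k A (z a)⁻¹)).1
  rw [h4] at h5
  exact one_notMem_nonunits v h5

theorem cent_le {P : Curve1 A} {v : ValuationSubring (kap P)} {z : A →ₐ[k] k} (h : Cent P v z)
    {a : A} (ha : a ∈ P.ideal) : z a = 0 := by
  rw [← cent_iff h, (res_eq_zero P a).2 ha]
  exact zero_mem _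

theorem cent_inv {P : Curve1 A} {v : ValuationSubring (kap P)} {z : A →ₐ[k] k} (h : Cent P v z)
    {a : A} (ha : z a ≠ 0) : (res P a)⁻¹ ∈ v ∧ res P a ≠ 0 :=
  inv_mem_of_notMem_nonunits fun h' => ha ((cent_iff h a).1 h')

theorem exists_fraction (P : Curve1 A) (t : (kap P)ˣ) :
    ∃ c d : A, c ∉ P.ideal ∧ d ∉ P.ideal ∧ (t : kap P) * res P d = res P c := by
  obtain ⟨x, y, hy, hxy⟩ := IsFractionRing.div_surjective (A := A ⧸ P.ideal) (t : kap P)
  obtain ⟨c, rfl⟩ := Ideal.Quotient.mk_surjective x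
  obtain ⟨d, rfl⟩ := Ideal.Quotient.mk_surjective y
  have hd : d ∉ P.ideal := by
    intro hd
    rw [Ideal.Quotient.eq_zero_iff_mem.2 hd] at hy
    exact nonZeroDivisors.ne_zero hy rfl
  have h1 : (t : kap P) * res P d = res P c := by
    have hd' : res P d ≠ 0 := fun h => hd ((res_eq_zero P d).1 h)
    have h2 : (t : kap P) = res P c / res P d := hxy.symm
    rw [h2, div_mul_cancel₀ _ hd']
  refine ⟨c, d, fun hc => ?_, hd, h1⟩
  rw [(res_eq_zero P c).2 hc, mul_eq_zero] at h1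
  rcases h1 with h1 | h1
  · exact t.ne_zero h1
  · exact hd ((res_eq_zero P d).1 h1)

/-- The points at which some component of the chain is not a unit. -/
def Bad (ξ : Chain1 A) (z : A →ₐ[k] k) : Prop :=
  ∃ P, ξ P ≠ 0 ∧ ∃ v : ValuationSubring (kap P), Cent P v z ∧
    ¬ (((Additive.toMul (ξ P) : (kap P)ˣ) : kap P) ∈ v ∧
      (((Additive.toMul (ξ P))⁻¹ : (kap P)ˣ) : kap P) ∈ v)

theorem finite_bad [IsAlgClosed k] [IsDomain A] [Algebra.FiniteType k A]
    (hdim : ringKrullDim A = 2) (ξ : Chain1 A) : {z : A →ₐ[k] k | Bad ξ z}.Finite := by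
  classical
  choose c d hc hd hcd using fun P : Curve1 A => exists_fraction P (Additive.toMul (ξ P))
  refine Set.Finite.subset (Set.Finite.biUnion (ξ.support.finite_toSet)
    (t := fun P => {z : A →ₐ[k] k | (∀ a ∈ P.ideal, z a = 0) ∧ z (c P * d P) = 0})
    (fun P _ => finite_zeros hdim P (c P * d P) fun h => ?_)) ?_
  · rcases P.isPrime.mem_or_mem h with h | h
    · exact hc P h
    · exact hd P h
  · rintro z ⟨P, hP, v, hv, hnot⟩
    refine Set.mem_biUnion (x := P) (DFinsupp.mem_support_iff.2 hP) ⟨fun a ha => cent_le hv ha, ?_⟩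
    by_contra hz
    rw [map_mul] at hz
    have h1 := cent_inv hv (left_ne_zero_of_mul hz)
    have h2 := cent_inv hv (right_ne_zero_of_mul hz)
    apply hnot
    have h3 := hcd P
    constructor
    · have h4 : ((Additive.toMul (ξ P) : (kap P)ˣ) : kap P) = res P (c P) * (res P (d P))⁻¹ := by
        rw [← h3, mul_inv_cancel_right₀ h2.2]
      rw [h4]
      exact mul_mem (hv _).1 h2.1
    · have h4 : (((Additive.toMul (ξ P))⁻¹ : (kap P)ˣ) : kap P) =
          res P (d P) * (res P (c P))⁻¹ := by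
        rw [← h3, Units.val_inv_eq_inv_val, mul_inv, ← mul_assoc, mul_comm (res P (d P)),
          mul_assoc, mul_inv_cancel₀ h2.2, mul_one]
      rw [h4]
      exact mul_mem (hv _).1 h1.1

end place

section rel

variable {A A' K : Type} [CommRing A] [CommRing A'] [Field K] [Algebra A K] [Algebra A' K]

theorem rel {P : Curve1 A} {P' : Curve1 A'} {V : ValuationSubring K} (hV : OverV P V)
    (hV' : OverV P' V) {φ : kap P ≃+* IsLocalRing.ResidueField V}
    {φ' : kap P' ≃+* IsLocalRing.ResidueField V} (hφ : IsResV P V φ) (hφ' : IsResV P' V φ')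
    {a : A'} {b c : A} (h : algebraMap A' K a * algebraMap A K b = algebraMap A K c) :
    res P' a * φ'.symm (φ (res P b)) = φ'.symm (φ (res P c)) := by
  apply φ'.injective
  rw [map_mul, RingEquiv.apply_symm_apply, RingEquiv.apply_symm_apply,
    hφ' a ⟨_, (hV' a).1⟩ rfl, hφ b ⟨_, (hV b).1⟩ rfl, hφ c ⟨_, (hV c).1⟩ rfl, ← map_mul]
  congr 1
  exact Subtype.ext h

end rel

section key

variable {k A K : Type} [Field k] [CommRing A] [IsDomain A] [Algebra k A]
  [Field K] [Algebra k K] [Algebra A K] [IsScalarTower k A K] [IsFractionRing A K]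

theorem const_mem_ptRing (z : A →ₐ[k] k) (c : k) : algebraMap k K c ∈ ptRing K z :=
  ⟨algebraMap k A c, 1, by rw [map_one]; exact one_ne_zero, by rw [map_one]; exact one_ne_zero,
    by rw [map_one, mul_one, ← IsScalarTower.algebraMap_apply]⟩

theorem exists_frac_of_chart (M : NModel k K) {s : K} {z : A →ₐ[k] k}
    (hmin : M.IsMinO (ptRing K z) s) (a : M.chart s) :
    ∃ b c : A, z b ≠ 0 ∧ (a : K) * algebraMap A K b = algebraMap A K c := by
  obtain ⟨c, b, hb, _, h'⟩ :=
    M.mem_of_mem_chart a.2 (O := ptRing K z) (const_mem_ptRing z) hmin.2.2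
  exact ⟨b, c, hb, h'⟩

theorem nonunits_comap {L L' : Type*} [Field L] [Field L'] (ψ : L ≃+* L')
    (v : ValuationSubring L') (x : L) :
    x ∈ (v.comap ψ.toRingHom).nonunits ↔ ψ x ∈ v.nonunits := by
  rw [ValuationSubring.mem_nonunits_iff_or, ValuationSubring.mem_nonunits_iff_or,
    ValuationSubring.mem_comap, map_eq_zero_iff ψ ψ.injective, map_inv₀]
  rfl

variable (M : NModel k K) {s : K} {P : Curve1 A} {P' : Curve1 (M.chart s)}
  {V : ValuationSubring K} (hV : OverV P V) (hV' : OverV P' V)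
  {φ : kap P ≃+* IsLocalRing.ResidueField V} {φ' : kap P' ≃+* IsLocalRing.ResidueField V}
  (hφ : IsResV P V φ) (hφ' : IsResV P' V φ') {z : A →ₐ[k] k}
  (hmin : M.IsMinO (ptRing K z) s) {v : ValuationSubring (kap P')}
  (hcent : Cent P (v.comap (φ.trans φ'.symm).toRingHom) z)

include hV hV' hφ hφ' hmin hcent

theorem res_mem_of_bad (a : M.chart s) : res P' a ∈ v := by
  obtain ⟨b, c, hb, h⟩ := exists_frac_of_chart M hmin a
  have h1 := rel hV hV' hφ hφ' (a := a) (b := b) (c := c) h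
  have h2 := cent_inv hcent hb
  have h3 : res P' a = φ'.symm (φ (res P c)) * φ'.symm (φ ((res P b)⁻¹)) := by
    rw [← h1, mul_assoc, ← map_mul, ← map_mul, mul_inv_cancel₀ h2.2, map_one, map_one, mul_one]
  rw [h3]
  exact mul_mem (hcent c).1 h2.1

theorem res_nonunit_of_bad (z' : M.chart s →ₐ[k] k) (hz' : ptRing K z' = ptRing K z)
    {a : M.chart s} (ha : z' a = 0) : res P' a ∈ v.nonunits := by
  obtain ⟨b, c, hb, h⟩ := exists_frac_of_chart M hmin a
  by_cases ha0 : (a : K) = 0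
  · have h1 : a = 0 := Subtype.ext ha0
    rw [h1, (res_eq_zero P' 0).2 (Ideal.zero_mem _)]
    exact zero_mem _
  have hb0 : algebraMap A K b ≠ 0 := by
    intro h0
    rw [map_eq_zero_iff _ (IsFractionRing.injective A K)] at h0
    rw [h0, map_zero] at hb
    exact hb rfl
  have hc : z c = 0 := by
    by_contra hc
    have hc0 : algebraMap A K c ≠ 0 := by
      rw [← h]
      exact mul_ne_zero ha0 hb0
    have h2 : ((a : K))⁻¹ ∈ ptRing K z := by
      refine ⟨b, c, hc, hc0, ?_⟩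
      rw [← h, ← mul_assoc, inv_mul_cancel₀ ha0, one_mul]
    rw [← hz'] at h2
    obtain ⟨a₁, b₁, hb₁, hb₁', h3⟩ := h2
    have h4 : b₁ = a * a₁ := by
      apply Subtype.ext
      have h5 : (a : K)⁻¹ * (b₁ : K) = (a₁ : K) := h3
      change (b₁ : K) = a * a₁
      rw [← h5, ← mul_assoc, mul_inv_cancel₀ ha0, one_mul]
    rw [h4, map_mul, ha, zero_mul] at hb₁
    exact hb₁ rfl
  have h1 := rel hV hV' hφ hφ' (a := a) (b := b) (c := c) h
  have h2 := cent_inv hcent hb
  have h3 : res P' a = φ'.symm (φ (res P c)) * φ'.symm (φ ((res P b)⁻¹)) := by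
    rw [← h1, mul_assoc, ← map_mul, ← map_mul, mul_inv_cancel₀ h2.2, map_one, map_one, mul_one]
  rw [h3]
  exact mul_mem_nonunits ((nonunits_comap (φ.trans φ'.symm) v _).1 ((hcent c).2 hc)) h2.1

/-- A place centred at the bad point `z` and at `z₁` : they are the same. -/
theorem ptRing_eq_of_cent {z₁ z' : M.chart s →ₐ[k] k} (hz' : ptRing K z' = ptRing K z)
    (h₁ : Cent P' v z₁) : ptRing K z₁ = ptRing K z := by
  have h2 : z₁ = z' := by
    apply AlgHom.ext
    intro a
    have h3 : z' (a - algebraMap k _ (z' a)) = 0 := by simp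
    have h4 := res_nonunit_of_bad M hV hV' hφ hφ' hmin hcent z' hz' h3
    rw [cent_iff h₁, map_sub, sub_eq_zero, AlgHom.commutes] at h4
    exact h4
  rw [h2, hz']

end key

section setup

variable {k A K : Type} [Field k] [CommRing A] [IsDomain A] [Algebra k A]
  [Field K] [Algebra k K] [Algebra A K] [IsScalarTower k A K] [IsFractionRing A K]

theorem finiteType_of_range {n : ℕ} (w : Fin (n + 1) → K)
    (hw : Set.range (algebraMap A K) =
      (Algebra.adjoin k (Set.range fun i => w i / w 0) : Set K)) : Algebra.FiniteType k A := by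
  classical
  have hinj : Function.Injective (IsScalarTower.toAlgHom k A K) := IsFractionRing.injective A K
  have hr : (IsScalarTower.toAlgHom k A K).range =
      Algebra.adjoin k (Set.range fun i => w i / w 0) := by
    apply SetLike.coe_injective
    rw [← hw]
    rfl
  have h1 : (IsScalarTower.toAlgHom k A K).range.FG := by
    rw [hr]
    exact ⟨Finset.univ.image fun i => w i / w 0, by simp⟩
  have h2 : Algebra.FiniteType k (IsScalarTower.toAlgHom k A K).range :=
    (Subalgebra.fg_iff_finiteType _).1 h1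
  exact Algebra.FiniteType.equiv h2 (AlgEquiv.ofInjective _ hinj).symm

theorem dim_of_trdeg [Algebra.FiniteType k A] (htr : Algebra.trdeg k K = 2) :
    ringKrullDim A = 2 := by
  obtain ⟨s, -, h2, h3⟩ := L2R_key (k := k) (A := A)
  have : Algebra.IsAlgebraic A K := IsLocalization.isAlgebraic _ (nonZeroDivisors A)
  have h4 := trdeg_add_eq (R := k) (S := A) (A := K)
  rw [_root_.trdeg_eq_zero (R := A) (A := K), add_zero, h3, htr] at h4
  rw [h2]
  have h5 : s = 2 := by exact_mod_cast h4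
  rw [h5]
  rfl

end setup

section main

variable {k A K : Type} [Field k] [IsAlgClosed k] [CommRing A] [IsDomain A] [Algebra k A]
  [Algebra.FiniteType k A]
  [Field K] [Algebra k K] [Algebra A K] [IsScalarTower k A K] [IsFractionRing A K]
  (M : NModel k K) {s : K} (ξ : Chain1 A) (ξ' : Chain1 (M.chart s))
  (hdvr : ∀ P, ξ P ≠ 0 → IsDiscreteValuationRing (Localization.AtPrime P.ideal))
  (hunit : ∀ P, ξ P ≠ 0 → ∀ v : ValuationSubring (kap P),
      (∀ c : k, res P (algebraMap k A c) ∈ v) →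
      (((Additive.toMul (ξ P) : (kap P)ˣ) : kap P) ∈ v ∧
        (((Additive.toMul (ξ P))⁻¹ : (kap P)ˣ) : kap P) ∈ v) ∨
      ∃ z : A →ₐ[k] k, RegPt z ∧ ∀ a : A, res P a ∈ v ∧ (z a = 0 → res P a ∈ v.nonunits))
  (hcyc : ∀ z : A →ₐ[k] k, RegPt z → ∃ m : Curve1 A →₀ ℤ,
      (∀ P, IsOrdZ P z (Additive.toMul (ξ P)) (m P)) ∧ m.sum (fun _ a => a) = 0)
  (hmin : ∀ z : A →ₐ[k] k, RegPt z → Bad ξ z → M.IsMinO (ptRing K z) s)
  (hpt : ∀ z : A →ₐ[k] k, RegPt z → M.IsPoint (ptRing K z))
  (hover : ∀ P, ξ P ≠ 0 → ∃ (P' : Curve1 (M.chart s)) (V : ValuationSubring K), OverV P V ∧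
    OverV P' V)
  (hdvr' : ∀ P' : Curve1 (M.chart s), IsDiscreteValuationRing (Localization.AtPrime P'.ideal))
  (hfr : IsFractionRing (M.chart s) K)
  (hξ1 : ∀ (P : Curve1 A) (P' : Curve1 (M.chart s)) (V : ValuationSubring K), OverV P V →
      OverV P' V → ξ P ≠ 0 → ∀ (φ : kap P ≃+* IsLocalRing.ResidueField V)
        (φ' : kap P' ≃+* IsLocalRing.ResidueField V), IsResV P V φ → IsResV P' V φ' →
        Units.map φ'.toRingHom.toMonoidHom (Additive.toMul (ξ' P')) =
          Units.map φ.toRingHom.toMonoidHom (Additive.toMul (ξ P)))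
  (hξ2 : ∀ P' : Curve1 (M.chart s), ξ' P' ≠ 0 → ∃ (P : Curve1 A) (V : ValuationSubring K),
    ξ P ≠ 0 ∧ OverV P V ∧ OverV P' V)

include hdvr hunit hdvr' hfr hξ1 hξ2 in
/-- A place at which the transferred chain is not a unit is centred at a bad regular point. -/
theorem unit_or_bad {P' : Curve1 (M.chart s)} (hP' : ξ' P' ≠ 0) (v : ValuationSubring (kap P'))
    (hv : ∀ c : k, res P' (algebraMap k (M.chart s) c) ∈ v) :
    (((Additive.toMul (ξ' P') : (kap P')ˣ) : kap P') ∈ v ∧
        (((Additive.toMul (ξ' P'))⁻¹ : (kap P')ˣ) : kap P') ∈ v) ∨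
      ∃ (P : Curve1 A) (V : ValuationSubring K) (φ : kap P ≃+* IsLocalRing.ResidueField V)
        (φ' : kap P' ≃+* IsLocalRing.ResidueField V) (z : A →ₐ[k] k), ξ P ≠ 0 ∧ OverV P V ∧
        OverV P' V ∧ IsResV P V φ ∧ IsResV P' V φ' ∧ RegPt z ∧ Bad ξ z ∧
        Cent P (v.comap (φ.trans φ'.symm).toRingHom) z := by
  obtain ⟨P, V, hP, hV, hV'⟩ := hξ2 P' hP'
  obtain ⟨φ, hφ⟩ := exists_resV P (hdvr P hP) hV
  obtain ⟨φ', hφ'⟩ := exists_resV P' (hdvr' P') hV'
  have h1 := hξ1 P P' V hV hV' hP φ φ' hφ hφ'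
  have h2 : φ'.symm (φ ((Additive.toMul (ξ P) : (kap P)ˣ) : kap P)) =
      ((Additive.toMul (ξ' P') : (kap P')ˣ) : kap P') := by
    apply φ'.injective
    rw [RingEquiv.apply_symm_apply]
    exact (congrArg Units.val h1).symm
  have h3 : φ'.symm (φ (((Additive.toMul (ξ P))⁻¹ : (kap P)ˣ) : kap P)) =
      (((Additive.toMul (ξ' P'))⁻¹ : (kap P')ˣ) : kap P') := by
    rw [Units.val_inv_eq_inv_val, Units.val_inv_eq_inv_val, ← h2]
    exact map_inv₀ (φ.trans φ'.symm) _
  by_cases hu : (((Additive.toMul (ξ' P') : (kap P')ˣ) : kap P') ∈ v ∧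
        (((Additive.toMul (ξ' P'))⁻¹ : (kap P')ˣ) : kap P') ∈ v)
  · exact Or.inl hu
  right
  have hnot : ¬ (((Additive.toMul (ξ P) : (kap P)ˣ) : kap P) ∈
      v.comap (φ.trans φ'.symm).toRingHom ∧
      (((Additive.toMul (ξ P))⁻¹ : (kap P)ˣ) : kap P) ∈
        v.comap (φ.trans φ'.symm).toRingHom) := by
    rintro ⟨h4, h5⟩
    apply hu
    rw [← h2, ← h3]
    exact ⟨h4, h5⟩
  have hc : ∀ c : k, res P (algebraMap k A c) ∈ v.comap (φ.trans φ'.symm).toRingHom := by
    intro c
    have h4 := rel hV hV' hφ hφ' (a := algebraMap k (M.chart s) c) (b := 1)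
      (c := algebraMap k A c) (by
        rw [map_one, mul_one, ← IsScalarTower.algebraMap_apply, ← IsScalarTower.algebraMap_apply])
    rw [res_one, map_one, map_one, mul_one] at h4
    change φ'.symm (φ (res P (algebraMap k A c))) ∈ v
    rw [← h4]
    exact hv c
  rcases hunit P hP _ hc with h4 | ⟨z, hz, hcent⟩
  · exact absurd h4 hnot
  · exact ⟨P, V, φ, φ', z, hP, hV, hV', hφ, hφ', hz, ⟨P, hP, _, hcent, hnot⟩, hcent⟩

include hdvr hunit hdvr' hfr hξ1 hξ2 hmin in
theorem hinf_of (P' : Curve1 (M.chart s)) (hP' : ξ' P' ≠ 0) (v : ValuationSubring (kap P'))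
    (hv : ∀ c : k, res P' (algebraMap k (M.chart s) c) ∈ v) (hne : ∃ a : M.chart s, res P' a ∉ v) :
    ((Additive.toMul (ξ' P') : (kap P')ˣ) : kap P') ∈ v ∧
        (((Additive.toMul (ξ' P'))⁻¹ : (kap P')ˣ) : kap P') ∈ v := by
  rcases unit_or_bad M ξ ξ' hdvr hunit hdvr' hfr hξ1 hξ2 hP' v hv with
    h | ⟨P, V, φ, φ', z, hP, hV, hV', hφ, hφ', hz, hbad, hcent⟩
  · exact h
  · obtain ⟨a, ha⟩ := hne
    exact absurd (res_mem_of_bad M hV hV' hφ hφ' (hmin z hz hbad) hcent a) ha

include hdvr hunit hdvr' hfr hξ1 hξ2 hmin hpt hcyc hover in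
theorem isCycleA_of [Algebra.FiniteType k (M.chart s)] (hdim : ringKrullDim (M.chart s) = 2) :
    IsCycleA k ξ' := by
  classical
  intro z'
  rcases isEmpty_or_nonempty (Curve1 (M.chart s)) with hE | hE
  · exact ⟨0, fun P => (hE.false P).elim, by simp⟩
  by_cases hcase : ∃ z : A →ₐ[k] k, RegPt z ∧ ptRing K z = ptRing K z'
  · obtain ⟨z, hz, hzz⟩ := hcase
    obtain ⟨m, hm, hsum⟩ := hcyc z hz
    choose! P' V hPV hPV' using hover
    -- the orders of the components outside the support vanish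
    have hm0 : ∀ P, ξ P = 0 → m P = 0 := by
      intro P hP
      have h1 := hm P
      rw [hP, toMul_zero, isOrdZ_one] at h1
      exact h1
    have hinjP : ∀ P ∈ ξ.support, ∀ Q ∈ ξ.support, P' P = P' Q → P = Q := by
      intro P hP Q hQ hPQ
      have hP1 := DFinsupp.mem_support_iff.1 hP
      have hQ1 := DFinsupp.mem_support_iff.1 hQ
      have h1 := hPV' P hP1
      rw [hPQ] at h1
      have h2 := overV_unique (P' Q) (hdvr' _) h1 (hPV' Q hQ1)
      have h3 := hPV P hP1
      rw [h2] at h3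
      exact overV_curve_unique h3 (hPV Q hQ1)
    let n : Curve1 (M.chart s) →₀ ℤ := ∑ P ∈ ξ.support, Finsupp.single (P' P) (m P)
    have hn : ∀ P ∈ ξ.support, n (P' P) = m P := by
      intro P hP
      change (∑ Q ∈ ξ.support, Finsupp.single (P' Q) (m Q)) (P' P) = m P
      rw [Finsupp.finset_sum_apply, Finset.sum_eq_single_of_mem P hP]
      · rw [Finsupp.single_eq_same]
      · intro Q hQ hQP
        rw [Finsupp.single_apply, if_neg]
        exact fun h => hQP (hinjP Q hQ P hP h)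
    have hn0 : ∀ Q, (∀ P ∈ ξ.support, P' P ≠ Q) → n Q = 0 := by
      intro Q hQ
      change (∑ P ∈ ξ.support, Finsupp.single (P' P) (m P)) Q = 0
      rw [Finsupp.finset_sum_apply]
      apply Finset.sum_eq_zero
      intro P hP
      rw [Finsupp.single_apply, if_neg (hQ P hP)]
    refine ⟨n, ?_, ?_⟩
    · intro Q
      by_cases hQ : ∃ P ∈ ξ.support, P' P = Q
      · obtain ⟨P, hP, rfl⟩ := hQ
        have hP1 := DFinsupp.mem_support_iff.1 hP
        rw [hn P hP]
        obtain ⟨φ, hφ⟩ := exists_resV P (hdvr P hP1) (hPV P hP1)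
        obtain ⟨φ', hφ'⟩ := exists_resV (P' P) (hdvr' _) (hPV' P hP1)
        have h1 := hm P
        by_cases hz1 : ∀ a ∈ P.ideal, z a = 0
        · have hz2 : ∀ a ∈ (P' P).ideal, z' a = 0 := by
            rw [← ptRing_le_iff (P' P) (hdvr' _) (hPV' P hP1) z', ← hzz,
              ptRing_le_iff P (hdvr P hP1) (hPV P hP1) z]
            exact hz1
          rw [isOrdZ_iff P (hdvr P hP1) (hPV P hP1) φ hφ z hz1] at h1
          rw [isOrdZ_iff (P' P) (hdvr' _) (hPV' P hP1) φ' hφ' z' hz2,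
            hξ1 P (P' P) (V P) (hPV P hP1) (hPV' P hP1) hP1 φ φ' hφ hφ', ← hzz]
          exact h1
        · have hz2 : ¬ ∀ a ∈ (P' P).ideal, z' a = 0 := by
            rw [← ptRing_le_iff (P' P) (hdvr' _) (hPV' P hP1) z', ← hzz,
              ptRing_le_iff P (hdvr P hP1) (hPV P hP1) z]
            exact hz1
          rw [isOrdZ_off P z hz1] at h1
          rw [isOrdZ_off (P' P) z' hz2]
          exact h1
      · push Not at hQ
        rw [hn0 Q hQ]
        have h1 : ξ' Q = 0 := by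
          by_contra hne
          obtain ⟨P, V', hP, hV1, hV2⟩ := hξ2 Q hne
          have h2 := overV_unique P (hdvr P hP) hV1 (hPV P hP)
          rw [h2] at hV2
          exact hQ P (DFinsupp.mem_support_iff.2 hP) (overV_curve_unique (hPV' P hP) hV2)
        rw [h1, toMul_zero, isOrdZ_one]
    · have h1 : n.sum (fun _ a => a) = ∑ P ∈ ξ.support, m P := by
        change (∑ P ∈ ξ.support, Finsupp.single (P' P) (m P)).sum (fun _ a => a) = _
        rw [← Finsupp.sum_finset_sum_index (fun _ => rfl) (fun _ _ _ => rfl)]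
        apply Finset.sum_congr rfl
        intro P _
        rw [Finsupp.sum_single_index rfl]
      rw [h1, ← hsum, Finsupp.sum]
      have h2 : m.support ⊆ ξ.support := by
        intro P hP
        rw [DFinsupp.mem_support_iff]
        intro h0
        exact (Finsupp.mem_support_iff.1 hP) (hm0 P h0)
      symm
      apply Finset.sum_subset h2
      intro P _ hP
      exact Finsupp.notMem_support_iff.1 hP
  · refine ⟨0, fun P' => ?_, by simp⟩
    rw [Finsupp.coe_zero, Pi.zero_apply]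
    by_cases hP' : ξ' P' = 0
    · rw [hP', toMul_zero, isOrdZ_one]
    by_cases hz1 : ∀ a ∈ P'.ideal, z' a = 0
    · apply isOrdZ_zero_of_units hdim P' z' hz1
      intro v hv hv'
      rcases unit_or_bad M ξ ξ' hdvr hunit hdvr' hfr hξ1 hξ2 hP' v (fun c => hv _) with
        h | ⟨P, V, φ, φ', z, hP, hV, hV', hφ, hφ', hz, hbad, hcent⟩
      · exact h
      · exfalso
        have hm1 := hmin z hz hbad
        obtain ⟨z'', hz''⟩ := M.exists_chart_point (hpt z hz) hm1
        exact hcase ⟨z, hz, (ptRing_eq_of_cent M hV hV' hφ hφ' hm1 hcent hz''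
          (fun a => ⟨hv a, hv' a⟩)).symm⟩
    · rw [isOrdZ_off P' z' hz1]

end main

end NFin

open NFin in
/-- Theorem N. -/
theorem thmN : ThmN := by
  intro p _ k A K _ _ _ _ _ _ _ _ _ _ _ _ _ htr n w h0 hw ξ hdvr hunit hcyc
  classical
  have hft : Algebra.FiniteType k A := finiteType_of_range w hw
  have hno : IsNoetherianRing A := Algebra.FiniteType.isNoetherianRing k A
  have hdim : ringKrullDim A = 2 := dim_of_trdeg htr
  have hgen : ∀ f : K, ∃ a ∈ Algebra.adjoin k (Set.range fun i => w i / w 0),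
      ∃ b ∈ Algebra.adjoin k (Set.range fun i => w i / w 0), b ≠ 0 ∧ f = a / b := by
    intro f
    obtain ⟨a, b, hb, rfl⟩ := IsFractionRing.div_surjective (A := A) f
    have hA : ∀ a : A, algebraMap A K a ∈ Algebra.adjoin k (Set.range fun i => w i / w 0) := by
      intro a
      rw [← SetLike.mem_coe, ← hw]
      exact ⟨a, rfl⟩
    refine ⟨_, hA a, _, hA b, ?_, rfl⟩
    rw [ne_eq, map_eq_zero_iff _ (IsFractionRing.injective A K)]
    exact nonZeroDivisors.ne_zero hb
  obtain ⟨M₀, m, hm, hM1, hM2⟩ := exists_nmodel w h0 hgen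
  -- the curves of the support
  have hV : ∀ P, ξ P ≠ 0 → ∃ V : ValuationSubring K, OverV P V ∧ V ≠ ⊤ := by
    intro P hP
    obtain ⟨V, h1, h2, -⟩ := exists_valOf (K := K) P (hdvr P hP)
    exact ⟨V, h1, h2⟩
  let Vs : Set (ValuationSubring K) := {V | ∃ P, ξ P ≠ 0 ∧ OverV P V}
  have hVs : Vs.Finite := by
    refine Set.Finite.subset (Set.Finite.biUnion (ξ.support.finite_toSet)
      (t := fun P => {V : ValuationSubring K | ξ P ≠ 0 ∧ OverV P V}) (fun P _ => ?_)) ?_
    · apply Set.Subsingleton.finite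
      rintro V ⟨hP, hV1⟩ V' ⟨-, hV2⟩
      exact overV_unique P (hdvr P hP) hV1 hV2
    · rintro V ⟨P, hP, hPV⟩
      exact Set.mem_biUnion (x := P) (DFinsupp.mem_support_iff.2 hP) ⟨hP, hPV⟩
  have hVc : ∀ V ∈ Vs, M₀.Curve V := by
    rintro V ⟨P, hP, hPV⟩
    obtain ⟨V', hV1, hV2⟩ := hV P hP
    rw [overV_unique P (hdvr P hP) hPV hV1]
    rw [← curveV_iff (A := A) htr w h0 hw M₀ m hm hM1 hM2]
    exact curveV_of_over (A := A) htr w h0 hw M₀ m hm hM1 hM2 P V' hV2 hV1
  -- the bad points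
  let Z : Set (Subring K) := (fun z : A →ₐ[k] k => ptRing K z) '' {z | RegPt z ∧ Bad ξ z}
  have hZ : Z.Finite := ((finite_bad hdim ξ).subset fun z hz => hz.2).image _
  have hpt₀ : ∀ z : A →ₐ[k] k, RegPt z → M₀.IsPoint (ptRing K z) := fun z hz =>
    isPoint_of_regPt htr w h0 hw M₀ m hm hM1 hM2 z hz
  obtain ⟨M, s, γ, hprime, hcurve, hpoint, hZmin, hVmin, hreg⟩ := M₀.exists_good htr Z hZ
    (by rintro _ ⟨z, hz, rfl⟩; exact hpt₀ z hz.1)
    (by rintro _ ⟨z, hz, rfl⟩; exact (regPt_iff (K := K) z).1 hz.1) Vs hVs hVc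
  -- the ring
  have hfr : IsFractionRing (M.chart s) K := M.isFractionRing_chart hprime.mem hprime.ne
  have hic : IsIntegrallyClosed (M.chart s) := M.isIntegrallyClosed_chart hprime.mem hprime.ne
  have hft' : Algebra.FiniteType k (M.chart s) := M.finiteType_chart s
  have hno' : IsNoetherianRing (M.chart s) := Algebra.FiniteType.isNoetherianRing k _
  have hdim' : ringKrullDim (M.chart s) = 2 := M.dim_chart hprime.mem hprime.ne htr
  have hdvr' : ∀ P' : Curve1 (M.chart s),
      IsDiscreteValuationRing (Localization.AtPrime P'.ideal) :=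
    fun P' => nn_dvr P'.ideal P'.height
  obtain ⟨D, hD⟩ := M.exists_degFun htr hprime
  have hover : ∀ P, ξ P ≠ 0 → ∃ (P' : Curve1 (M.chart s)) (V : ValuationSubring K), OverV P V ∧
      OverV P' V := by
    intro P hP
    obtain ⟨V, hV1, -⟩ := hV P hP
    have hmem : V ∈ Vs := ⟨P, hP, hV1⟩
    obtain ⟨P', hP'⟩ := M.exists_over htr ((hcurve V).2 (hVc V hmem)) (hVmin V hmem)
    exact ⟨P', V, hV1, hP'⟩
  obtain ⟨ξ', hξ1, hξ2⟩ := exists_transfer (A' := M.chart s) (K := K) ξ hdvr (by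
    intro P hP
    obtain ⟨P', V, h1, h2⟩ := hover P hP
    exact ⟨P', V, h1, h2, hdvr' P'⟩)
  have hmin : ∀ z : A →ₐ[k] k, RegPt z → Bad ξ z → M.IsMinO (ptRing K z) s :=
    fun z hz hb => hZmin _ ⟨z, ⟨hz, hb⟩, rfl⟩
  have hpt : ∀ z : A →ₐ[k] k, RegPt z → M.IsPoint (ptRing K z) :=
    fun z hz => (hpoint _).2 (hpt₀ z hz)
  have haff : AffMain k (M.chart s) D := aff_main p hdim' D
  obtain ⟨N, hN, hNmem⟩ := haff ξ'
    (fun P' hP' v hv hne => hinf_of M ξ ξ' hdvr hunit hmin hdvr' hfr hξ1 hξ2 P' hP' v hv hne)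
    (isCycleA_of M ξ ξ' hdvr hunit hcyc hmin hpt hover hdvr' hfr hξ1 hξ2 hdim')
  obtain ⟨r, f, g, hfg, hall⟩ := M.exists_pairs htr hprime D hD (N • ξ') hNmem
  refine ⟨N, hN, r, f, g, hfg, fun V hCV => ?_⟩
  have hMV : M.Curve V :=
    (hcurve V).2 ((curveV_iff (A := A) htr w h0 hw M₀ m hm hM1 hM2 V).1 hCV)
  obtain ⟨t, ht1, ht2, ht3⟩ := hall V hMV
  -- no component over `V`
  have hB : (∀ P : Curve1 A, ξ P ≠ 0 → ¬ OverV P V) → ∏ i, t i = 1 := by
    intro hno1
    by_cases hQ : ∃ Q : Curve1 (M.chart s), OverV Q V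
    · obtain ⟨Q, hQ⟩ := hQ
      obtain ⟨φ', hφ'⟩ := exists_resV Q (hdvr' Q) hQ
      rw [ht2 Q hQ φ' hφ']
      have h1 : ξ' Q = 0 := by
        by_contra hne
        obtain ⟨P, V', hP, hV1, hV2⟩ := hξ2 Q hne
        rw [overV_unique Q (hdvr' Q) hV2 hQ] at hV1
        exact hno1 P hP hV1
      rw [DFinsupp.smul_apply, h1, smul_zero, toMul_zero, map_one]
    · push Not at hQ
      exact ht3 hQ
  refine ⟨t, ht1, ?_, hB⟩
  intro P hPV a b hb hab a' b' ha' hb'
  by_cases hP : ξ P = 0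
  · have h1 : ∏ i, t i = 1 := by
      apply hB
      intro P₁ hP₁ hPV₁
      rw [overV_curve_unique hPV₁ hPV] at hP₁
      exact hP₁ hP
    rw [h1, Units.val_one, one_mul]
    rw [hP, toMul_zero, Units.val_one, one_mul, res_eq_iff] at hab
    congr 1
    have h2 := ((hPV (b - a)).2).1 hab
    rw [map_sub, ← ha', ← hb'] at h2
    rw [← sub_eq_zero, ← map_sub, IsLocalRing.residue_eq_zero_iff]
    exact ValuationSubring.coe_mem_nonunits_iff.1 h2
  · obtain ⟨P', V', h1, h2⟩ := hover P hP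
    rw [overV_unique P (hdvr P hP) h1 hPV] at h2
    obtain ⟨φ, hφ⟩ := exists_resV P (hdvr P hP) hPV
    obtain ⟨φ', hφ'⟩ := exists_resV P' (hdvr' P') h2
    have h3 := ht2 P' h2 φ' hφ'
    have h4 := hξ1 P P' V hPV h2 hP φ φ' hφ hφ'
    have h5 : ∏ i, t i = Units.map φ.toRingHom.toMonoidHom (Additive.toMul (ξ P)) ^ N := by
      rw [h3, DFinsupp.smul_apply, toMul_nsmul, map_pow, h4]
    rw [h5, Units.val_pow_eq_pow_val, ← mul_pow, ← hφ a a' ha', ← hφ b b' hb']
    congr 1
    change φ _ * φ _ = _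
    rw [← map_mul, hab]

end Pool.Agent.K1
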