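import Pool.Agent.K1.NBertini
import Pool.Agent.K1.NBase

/-!
Theorem N: a prime form through the singular points.
-/

set_option autoImplicit false

namespace Pool.Agent.K1

/-- A normal surface all of whose closed points are regular is regular. -/
theorem no_isRegularRing {k A : Type} [Field k] [IsAlgClosed k] [CommRing A] [IsDomain A]
    [Algebra k A] [Algebra.FiniteType k A] [IsIntegrallyClosed A] (hdim : ringKrullDim A = 2)
    (h : ∀ z : A →ₐ[k] k, RegPt z) : IsRegularRing A := by
  have hno : IsNoetherianRing A := Algebra.FiniteType.isNoetherianRing k A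
  rw [isRegularRing_iff]
  intro P hP
  have hle : P.height ≤ 2 := by
    have h1 := Ideal.height_le_ringKrullDim_of_ne_top hP.ne_top
    rw [hdim] at h1
    exact WithBot.coe_le_coe.1 h1
  by_cases hmax : P.IsMaximal
  · -- a closed point
    have h1 : Algebra.FiniteType k (A ⧸ P) := inferInstance
    let _ : Field (A ⧸ P) := Ideal.Quotient.field P
    have h2 : Module.Finite k (A ⧸ P) := finite_of_finite_type_of_isJacobsonRing k (A ⧸ P)
    have h3 : Function.Bijective (algebraMap k (A ⧸ P)) :=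
      IsAlgClosed.algebraMap_bijective_of_isIntegral
    let e : k ≃ₐ[k] (A ⧸ P) := AlgEquiv.ofBijective (Algebra.ofId k (A ⧸ P)) h3
    let z : A →ₐ[k] k := (e.symm : (A ⧸ P) →ₐ[k] k).comp (Ideal.Quotient.mkₐ k P)
    have hz : RingHom.ker z = P := by
      ext a
      rw [RingHom.mem_ker]
      change e.symm (Ideal.Quotient.mk P a) = 0 ↔ _
      rw [map_eq_zero_iff _ e.symm.injective, Ideal.Quotient.eq_zero_iff_mem]
    have h4 : ∀ Q : Ideal A, ∀ _ : Q.IsPrime, Q = RingHom.ker z →
        IsRegularLocalRing (Localization.AtPrime Q) := by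
      rintro Q hQ rfl
      exact h z
    exact h4 P hP hz.symm
  · have h1 : P.height ≤ 1 := by
      obtain ⟨m, hm, hPm⟩ := Ideal.exists_le_maximal P hP.ne_top
      have hlt : P < m := lt_of_le_of_ne hPm fun h => hmax (h ▸ hm)
      have h2 := Ideal.height_add_one_le_of_lt_of_isPrime hlt
      have h3 : m.height ≤ 2 := by
        have h1 := Ideal.height_le_ringKrullDim_of_ne_top hm.ne_top
        rw [hdim] at h1
        exact WithBot.coe_le_coe.1 h1
      have h4 : P.height + 1 ≤ 1 + 1 := h2.trans (h3.trans (by norm_num))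
      exact (ENat.add_le_add_iff_right ENat.one_ne_top).1 h4
    rcases lt_or_eq_of_le h1 with h2 | h2
    · have h3 : P.height = 0 := Order.lt_one_iff.1 h2
      have h4 : P = ⊥ := by
        by_contra hne
        have hb : (⊥ : Ideal A) < P := bot_lt_iff_ne_bot.2 hne
        have h5 := Ideal.height_add_one_le_of_lt_of_isPrime hb
        rw [h3] at h5
        exact absurd (le_trans (by simp) h5 : (1 : ℕ∞) ≤ 0) (by decide)
      subst h4
      have h5 : IsField (Localization.AtPrime (⊥ : Ideal A)) := by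
        rw [IsLocalRing.isField_iff_maximalIdeal_eq, ← Localization.AtPrime.map_eq_maximalIdeal,
          Ideal.map_bot]
      let _ : Field (Localization.AtPrime (⊥ : Ideal A)) := h5.toField
      infer_instance
    · have h3 := nn_dvr P h2
      infer_instance

section good

variable {k K : Type} [Field k] [IsAlgClosed k] [Field K] [Algebra k K] (M : NModel k K)

theorem NModel.exists_good (htr : Algebra.trdeg k K = 2) (Z : Set (Subring K)) (hZ : Z.Finite)
    (hZp : ∀ O ∈ Z, M.IsPoint O) (hZr : ∀ O ∈ Z, IsRegularLocalRing O)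
    (Vs : Set (ValuationSubring K)) (hVs : Vs.Finite) (hVc : ∀ V ∈ Vs, M.Curve V) :
    ∃ (M' : NModel k K) (s : K) (γ : ValuationSubring K), M'.IsPrimeForm s γ ∧
      (∀ V, M'.Curve V ↔ M.Curve V) ∧ (∀ O, M'.IsPoint O ↔ M.IsPoint O) ∧
      (∀ O ∈ Z, M'.IsMinO O s) ∧ (∀ V ∈ Vs, M'.IsMin V s) ∧ IsRegularRing (M'.chart s) := by
  classical
  obtain ⟨M', W', hW', hcurve, hpoint, hα, hβ, hB', hZ'⟩ :=
    M.exists_base {O | M.IsPoint O ∧ ¬ IsRegularLocalRing O} Z (M.finite_singular htr)
      (fun O hO => hO.1) hZp (fun O hO hB => hB.2 (hZr O hO))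
  have h1 : ∀ O ∈ Z, ∃ H : Submodule k K, ∀ x ∈ M'.W, x ∈ H ↔ ¬ M'.IsMinO O x := by
    intro O hO
    obtain ⟨H, hH, -⟩ := M'.exists_hyperplane ((hpoint O).2 (hZp O hO))
    exact ⟨H, hH⟩
  have h2 : ∀ V ∈ Vs, ∃ H : Submodule k K, ∀ x ∈ M'.W, x ∈ H ↔ ¬ M'.IsMin V x :=
    fun V hV => M'.exists_subspace_curve (hVc V hV).2.1
  choose! H1 hH1 using h1
  choose! H2 hH2 using h2
  obtain ⟨s, hsW, hsH, γ, hγ⟩ := M'.bertini htr W' hW' hα
    (fun V hV => hβ V ((hcurve V).1 hV)) (hZ.toFinset.image H1 ∪ hVs.toFinset.image H2) (by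
      intro H hH hle
      rw [Finset.mem_union, Finset.mem_image, Finset.mem_image] at hH
      rcases hH with ⟨O, hO, rfl⟩ | ⟨V, hV, rfl⟩
      · rw [Set.Finite.mem_toFinset] at hO
        obtain ⟨x, hx, hx'⟩ := hZ' O hO
        exact ((hH1 O hO x (hW' hx)).1 (hle hx)) hx'
      · rw [Set.Finite.mem_toFinset] at hV
        obtain ⟨x, hx, hx'⟩ := hβ V (hVc V hV)
        exact ((hH2 V hV x (hW' hx)).1 (hle hx)) hx')
  refine ⟨M', s, γ, hγ, hcurve, hpoint, ?_, ?_, ?_⟩
  · intro O hO
    by_contra hcon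
    exact hsH (H1 O) (Finset.mem_union_left _ (Finset.mem_image_of_mem _
      ((Set.Finite.mem_toFinset hZ).2 hO))) ((hH1 O hO s (hW' hsW)).2 hcon)
  · intro V hV
    by_contra hcon
    exact hsH (H2 V) (Finset.mem_union_right _ (Finset.mem_image_of_mem _
      ((Set.Finite.mem_toFinset hVs).2 hV))) ((hH2 V hV s (hW' hsW)).2 hcon)
  · have hfr : IsFractionRing (M'.chart s) K := M'.isFractionRing_chart hγ.mem hγ.ne
    have hic : IsIntegrallyClosed (M'.chart s) := M'.isIntegrallyClosed_chart hγ.mem hγ.ne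
    have hft : Algebra.FiniteType k (M'.chart s) := M'.finiteType_chart s
    apply no_isRegularRing (k := k) (M'.dim_chart hγ.mem hγ.ne htr)
    intro z
    rw [regPt_iff (K := K) z]
    by_contra hreg
    have hp : M'.IsPoint (ptRing K z) := ⟨s, hγ.mem, hγ.ne, z, rfl⟩
    have hss : s / s ∈ M'.chart s := Algebra.subset_adjoin ⟨s, hγ.mem, rfl⟩
    have hmin : M'.IsMinO (ptRing K z) s := by
      rw [M'.isMinO_iff hγ.mem hγ.ne hγ.mem hγ.ne z hss]
      have h3 : (⟨s / s, hss⟩ : M'.chart s) = 1 := Subtype.ext (div_self hγ.ne)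
      rw [h3, map_one]
      exact one_ne_zero
    exact hB' _ ⟨(hpoint _).1 hp, hreg⟩ s hsW hmin

end good

end Pool.Agent.K1
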