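import Pool.Agent.K1.NDefs
import Pool.Agent.K1.L2Defs

/-!
Theorem N: normal projective models of a function field, in terms of subspaces of the field.
-/

set_option autoImplicit false

namespace Pool.Agent.K1

/-- A projective model of the field `K`, by the space `W` of its linear forms (rational functions
up to a common factor): `W ^ j` is the space of all sections of `O(j)` over the normalization. -/
structure NModel (k K : Type) [Field k] [Field K] [Algebra k K] where
  /-- the linear forms -/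
  W : Submodule k K
  fg : W.FG
  ne : ∃ s ∈ W, s ≠ 0
  normal : ∀ (j : ℕ) (f : K), (∀ V : ValuationSubring K, (∀ c : k, algebraMap k K c ∈ V) →
    ∀ s ∈ W, s ≠ 0 → (∀ x ∈ W, x / s ∈ V) → f / s ^ j ∈ V) → f ∈ W ^ j
  frac : ∀ f : K, ∃ j : ℕ, ∃ a ∈ W ^ j, ∃ b ∈ W ^ j, b ≠ 0 ∧ f = a / b

namespace NModel

variable {k K : Type} [Field k] [Field K] [Algebra k K] (M : NModel k K)

/-- The functions on the complement of `s = 0`. -/
def chart (s : K) : Subalgebra k K := Algebra.adjoin k ((fun x => x / s) '' (M.W : Set K))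

/-- The linear form `s` has the smallest order at `V`. -/
def IsMin (V : ValuationSubring K) (s : K) : Prop :=
  s ∈ M.W ∧ s ≠ 0 ∧ ∀ x ∈ M.W, x / s ∈ V

/-- The linear form `s` does not vanish at the point with local ring `O`. -/
def IsMinO (O : Subring K) (s : K) : Prop :=
  s ∈ M.W ∧ s ≠ 0 ∧ ∀ x ∈ M.W, x / s ∈ O

/-- The centre of `V` on the model is a curve. -/
def Curve (V : ValuationSubring K) : Prop :=
  V ≠ ⊤ ∧ (∀ c : k, algebraMap k K c ∈ V) ∧ ∃ s, M.IsMin V s ∧
    ∃ x ∈ M.W, ∀ c : k, x / s - algebraMap k K c ∉ V.nonunits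

/-- `s = 0` is the integral curve `γ`. -/
structure IsPrimeForm (s : K) (γ : ValuationSubring K) : Prop where
  mem : s ∈ M.W
  ne : s ≠ 0
  curve : M.Curve γ
  iff : ∀ V, M.Curve V → (M.IsMin V s ↔ V ≠ γ)
  mult : ∀ s', M.IsMin γ s' → ∀ f : K, f ∈ γ.nonunits ↔ ∃ c ∈ γ, f = s / s' * c

end NModel

section points

variable {k K : Type} [Field k] [Field K] [Algebra k K] {A : Type} [CommRing A] [Algebra k A]
  [Algebra A K]

/-- The local ring at the point `z` of `Spec A`, as a subring of `K`. -/
def ptRing (K : Type) [Field K] [Algebra A K] (z : A →ₐ[k] k) : Subring K where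
  carrier := {f | ∃ a b : A, z b ≠ 0 ∧ algebraMap A K b ≠ 0 ∧
    f * algebraMap A K b = algebraMap A K a}
  mul_mem' := by
    rintro f g ⟨a, b, hb, hb', h⟩ ⟨c, d, hd, hd', h'⟩
    refine ⟨a * c, b * d, by rw [map_mul]; exact mul_ne_zero hb hd,
      by rw [map_mul]; exact mul_ne_zero hb' hd', ?_⟩
    rw [map_mul, map_mul, ← h, ← h']
    ring
  one_mem' := ⟨1, 1, by rw [map_one]; exact one_ne_zero, by rw [map_one]; exact one_ne_zero,
    by rw [map_one, one_mul]⟩
  add_mem' := by
    rintro f g ⟨a, b, hb, hb', h⟩ ⟨c, d, hd, hd', h'⟩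
    refine ⟨a * d + c * b, b * d, by rw [map_mul]; exact mul_ne_zero hb hd,
      by rw [map_mul]; exact mul_ne_zero hb' hd', ?_⟩
    rw [map_mul, map_add, map_mul, map_mul, ← h, ← h']
    ring
  zero_mem' := ⟨0, 1, by rw [map_one]; exact one_ne_zero, by rw [map_one]; exact one_ne_zero,
    by rw [map_zero, zero_mul]⟩
  neg_mem' := by
    rintro f ⟨a, b, hb, hb', h⟩
    exact ⟨-a, b, hb, hb', by rw [map_neg, ← h]; ring⟩

/-- `O` is the local ring of a closed point of the model. -/
def NModel.IsPoint (M : NModel k K) (O : Subring K) : Prop :=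
  ∃ (s : K) (_ : s ∈ M.W) (_ : s ≠ 0) (z : M.chart s →ₐ[k] k), ptRing K z = O

/-- `φ` is the isomorphism of the function field of `P` with the residue field of `V`, for `V`
over `P`. -/
def IsResV (P : Curve1 A) (V : ValuationSubring K) (φ : kap P ≃+* IsLocalRing.ResidueField V) :
    Prop :=
  ∀ (a : A) (a' : V), (a' : K) = algebraMap A K a → φ (res P a) = IsLocalRing.residue V a'

/-- The order at the point with local ring `O` (a subring of `K`) of the unit `t` of the residue
field of `V`, for `O ≤ V`: lengths of `O/(I, c)`, `I` the ideal of the curve `V`. -/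
def IsOrdO (O : Subring K) (V : ValuationSubring K) (t : (IsLocalRing.ResidueField V)ˣ)
    (n : ℤ) : Prop :=
  ∃ (hO : ∀ f ∈ O, f ∈ V) (c d : O), (c : K) ∉ V.nonunits ∧ (d : K) ∉ V.nonunits ∧
    (t : IsLocalRing.ResidueField V) * IsLocalRing.residue V ⟨d, hO d d.2⟩ =
      IsLocalRing.residue V ⟨c, hO c c.2⟩ ∧
    n = ((Module.length O (O ⧸ (Ideal.span {f : O | (f : K) ∈ V.nonunits} ⊔
        Ideal.span {c}))).toNat : ℤ) -
      (Module.length O (O ⧸ (Ideal.span {f : O | (f : K) ∈ V.nonunits} ⊔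
        Ideal.span {d}))).toNat

end points

end Pool.Agent.K1
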