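import Pool.Agent.K1.NModelDef

/-!
Theorem N: points of a model I: the local ring of a point, change of chart.
-/

set_option autoImplicit false

namespace Pool.Agent.K1

section points

variable {k K : Type} [Field k] [IsAlgClosed k] [Field K] [Algebra k K]

omit [IsAlgClosed k] [Algebra k K] in
theorem nq_isUnit {A : Type} [CommRing A] [Algebra k A] [Algebra A K]
    (hA : Function.Injective (algebraMap A K)) (z : A →ₐ[k] k)
    (b : (RingHom.ker z).primeCompl) : IsUnit (algebraMap A K b) := by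
  rw [isUnit_iff_ne_zero]
  intro h
  have h1 : (b : A) = 0 := hA (by rw [h, map_zero])
  exact b.2 (by rw [h1]; exact Ideal.zero_mem _)

omit [IsAlgClosed k] [Algebra k K] in
theorem nq_equiv {A : Type} [CommRing A] [Algebra k A] [Algebra A K]
    (hA : Function.Injective (algebraMap A K)) (z : A →ₐ[k] k) :
    ∃ e : LocAt z ≃+* ptRing K z, ∀ a : A, ((e (algebraMap A (LocAt z) a) : ptRing K z) : K) =
      algebraMap A K a := by
  let f : LocAt z →+* K := IsLocalization.lift (M := (RingHom.ker z).primeCompl)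
    (g := algebraMap A K) (fun b => nq_isUnit hA z b)
  have hf : ∀ a : A, f (algebraMap A (LocAt z) a) = algebraMap A K a := fun a =>
    IsLocalization.lift_eq _ a
  have hmk : ∀ (a : A) (b : (RingHom.ker z).primeCompl),
      f (IsLocalization.mk' (LocAt z) a b) * algebraMap A K b = algebraMap A K a := by
    intro a b
    rw [← hf b, ← map_mul, IsLocalization.mk'_spec, hf]
  have hmem : ∀ x, f x ∈ ptRing K z := by
    intro x
    obtain ⟨a, b, rfl⟩ := IsLocalization.exists_mk'_eq (RingHom.ker z).primeCompl x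
    exact ⟨a, b, fun h => b.2 h, (nq_isUnit hA z b).ne_zero, hmk a b⟩
  have hinj : Function.Injective f := by
    rw [injective_iff_map_eq_zero]
    intro x hx
    obtain ⟨a, b, rfl⟩ := IsLocalization.exists_mk'_eq (RingHom.ker z).primeCompl x
    have h1 := hmk a b
    rw [hx, zero_mul] at h1
    have h2 : a = 0 := hA (by rw [← h1, map_zero])
    rw [h2, IsLocalization.mk'_zero]
  refine ⟨RingEquiv.ofBijective (f.codRestrict (ptRing K z) hmem) ⟨?_, ?_⟩, fun a => hf a⟩
  · intro x y hxy
    exact hinj (congrArg Subtype.val hxy)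
  · rintro ⟨g, a, b, hb, hb', h⟩
    have hb2 : b ∈ (RingHom.ker z).primeCompl := fun h => hb h
    refine ⟨IsLocalization.mk' (LocAt z) a ⟨b, hb2⟩, Subtype.ext ?_⟩
    have h1 := hmk a ⟨b, hb2⟩
    exact mul_right_cancel₀ hb' (h1.trans h.symm)

/-- The localization at a point, as a subring of the function field. -/
theorem exists_locAt_equiv {A : Type} [CommRing A] [IsDomain A] [Algebra k A] [Algebra A K]
    [IsFractionRing A K] (z : A →ₐ[k] k) :
    ∃ e : LocAt z ≃+* ptRing K z, ∀ a : A, ((e (algebraMap A (LocAt z) a) : ptRing K z) : K) =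
      algebraMap A K a :=
  nq_equiv (IsFractionRing.injective A K) z

theorem regPt_iff {A : Type} [CommRing A] [IsDomain A] [Algebra k A] [Algebra A K]
    [IsFractionRing A K] (z : A →ₐ[k] k) : RegPt z ↔ IsRegularLocalRing (ptRing K z) := by
  obtain ⟨e, -⟩ := exists_locAt_equiv (K := K) z
  constructor
  · intro h
    have : IsRegularLocalRing (LocAt z) := h
    exact IsRegularLocalRing.of_ringEquiv e
  · intro h
    exact IsRegularLocalRing.of_ringEquiv e.symm

omit [IsAlgClosed k] [Algebra k K] in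
/-- The value at the point `z` of the elements of its local ring. -/
theorem nq_value {A : Type} [CommRing A] [Algebra k A] [Algebra A K]
    (hA : Function.Injective (algebraMap A K)) (z : A →ₐ[k] k) :
    ∃ v : ptRing K z →+* k, ∀ (f : ptRing K z) (a b : A),
      (f : K) * algebraMap A K b = algebraMap A K a → v f * z b = z a := by
  obtain ⟨e, he⟩ := nq_equiv (K := K) hA z
  let g : LocAt z →+* k := IsLocalization.lift (M := (RingHom.ker z).primeCompl)
    (g := (z : A →+* k)) (fun b => isUnit_iff_ne_zero.2 fun h => b.2 h)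
  have hg : ∀ a : A, g (algebraMap A (LocAt z) a) = z a := fun a =>
    IsLocalization.lift_eq _ a
  refine ⟨g.comp (e.symm : ptRing K z →+* LocAt z), fun f a b h => ?_⟩
  have h1 : f * e (algebraMap A (LocAt z) b) = e (algebraMap A (LocAt z) a) := by
    apply Subtype.ext
    rw [Subring.coe_mul, he, he, h]
  have h2 : e.symm f * algebraMap A (LocAt z) b = algebraMap A (LocAt z) a := by
    apply e.injective
    rw [map_mul, e.apply_symm_apply, h1]
  rw [← hg, ← hg, RingHom.comp_apply, RingHom.coe_coe, ← map_mul, h2]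

omit [IsAlgClosed k] [Algebra k K] in
/-- Elements of the local ring with nonzero value are units. -/
theorem nq_inv_mem {A : Type} [CommRing A] [Algebra k A] [Algebra A K] (z : A →ₐ[k] k) (v : ptRing K z →+* k)
    (hv : ∀ (f : ptRing K z) (a b : A),
      (f : K) * algebraMap A K b = algebraMap A K a → v f * z b = z a)
    (f : ptRing K z) (hf : v f ≠ 0) : (f : K)⁻¹ ∈ ptRing K z := by
  obtain ⟨a, b, hb, hb', h⟩ := f.2
  have h1 := hv f a b h
  have hf0 : (f : K) ≠ 0 := by
    intro h0
    apply hf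
    have : f = 0 := Subtype.ext h0
    rw [this, map_zero]
  have ha : algebraMap A K a ≠ 0 := by
    rw [← h]
    exact mul_ne_zero hf0 hb'
  refine ⟨b, a, ?_, ha, ?_⟩
  · rw [← h1]
    exact mul_ne_zero hf hb
  · rw [← h, ← mul_assoc, inv_mul_cancel₀ hf0, one_mul]

variable (M : NModel k K)

/-- In a chart: the forms that do not vanish. -/
theorem NModel.isMinO_iff {s t : K} (hs : s ∈ M.W) (hs0 : s ≠ 0) (ht : t ∈ M.W) (ht0 : t ≠ 0)
    (z : M.chart s →ₐ[k] k) (h : t / s ∈ M.chart s) :
    M.IsMinO (ptRing K z) t ↔ z ⟨t / s, h⟩ ≠ 0 := by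
  constructor
  · rintro ⟨-, -, h1⟩
    obtain ⟨a, b, hb, hb', hab⟩ := h1 s hs
    have h2 : b = a * ⟨t / s, h⟩ := by
      apply Subtype.ext
      change (b : K) = (a : K) * (t / s)
      have h3 : s / t * (b : K) = (a : K) := hab
      rw [← h3]
      field_simp
    rw [h2, map_mul] at hb
    exact right_ne_zero_of_mul hb
  · intro hz
    refine ⟨ht, ht0, fun x hx => ⟨⟨x / s, Algebra.subset_adjoin ⟨x, hx, rfl⟩⟩, ⟨t / s, h⟩, hz,
      div_ne_zero ht0 hs0, ?_⟩⟩
    change x / t * (t / s) = x / s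
    field_simp

omit [IsAlgClosed k] in
/-- The elements of one chart become elements of another one after multiplication by a power. -/
theorem nq_exists_pow {s t : K} (hs : s ∈ M.W) (hs0 : s ≠ 0) {a : K}
    (ha : a ∈ M.chart s) : ∃ j : ℕ, ∀ i, j ≤ i → a * (s / t) ^ i ∈ M.chart t := by
  have hst : s / t ∈ M.chart t := Algebra.subset_adjoin ⟨s, hs, rfl⟩
  induction ha using Algebra.adjoin_induction with
  | mem x hx =>
    obtain ⟨y, hy, rfl⟩ := hx
    refine ⟨1, fun i hi => ?_⟩
    obtain ⟨i, rfl⟩ := Nat.exists_eq_add_of_le hi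
    have : y / s * (s / t) ^ (1 + i) = y / t * (s / t) ^ i := by
      rw [pow_add, pow_one, ← mul_assoc, div_mul_div_cancel₀ hs0]
    change y / s * (s / t) ^ (1 + i) ∈ _
    rw [this]
    exact mul_mem (Algebra.subset_adjoin ⟨y, hy, rfl⟩) (pow_mem hst _)
  | algebraMap c =>
    exact ⟨0, fun i _ => mul_mem (Subalgebra.algebraMap_mem _ c) (pow_mem hst _)⟩
  | add x y _ _ hx hy =>
    obtain ⟨i, hi⟩ := hx
    obtain ⟨j, hj⟩ := hy
    refine ⟨max i j, fun l hl => ?_⟩
    rw [add_mul]
    exact add_mem (hi l (le_trans (le_max_left _ _) hl)) (hj l (le_trans (le_max_right _ _) hl))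
  | mul x y _ _ hx hy =>
    obtain ⟨i, hi⟩ := hx
    obtain ⟨j, hj⟩ := hy
    refine ⟨i + j, fun l hl => ?_⟩
    obtain ⟨l, rfl⟩ := Nat.exists_eq_add_of_le hl
    have : x * y * (s / t) ^ (i + j + l) = x * (s / t) ^ i * (y * (s / t) ^ (j + l)) := by ring
    rw [this]
    exact mul_mem (hi i le_rfl) (hj (j + l) (Nat.le_add_right _ _))

/-- Change of chart. -/
theorem NModel.exists_chart_point {O : Subring K} (hO : M.IsPoint O) {t : K}
    (ht : M.IsMinO O t) : ∃ z : M.chart t →ₐ[k] k, ptRing K z = O := by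
  obtain ⟨s, hs, hs0, z0, rfl⟩ := hO
  obtain ⟨htW, ht0, hmin⟩ := ht
  have hinj : Function.Injective (algebraMap (M.chart s) K) := Subtype.val_injective
  obtain ⟨v, hv⟩ := nq_value (K := K) hinj z0
  -- the constants
  have hconst : ∀ c : k, algebraMap k K c * algebraMap (M.chart s) K 1 =
      algebraMap (M.chart s) K (algebraMap k (M.chart s) c) := fun c => by
    rw [map_one, mul_one]; rfl
  have hcO : ∀ c : k, algebraMap k K c ∈ ptRing K z0 := fun c =>
    ⟨_, 1, by rw [map_one]; exact one_ne_zero, by rw [map_one]; exact one_ne_zero, hconst c⟩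
  -- the chart of `s`
  have hsO : ∀ a : M.chart s, (a : K) ∈ ptRing K z0 := fun a =>
    ⟨a, 1, by rw [map_one]; exact one_ne_zero, by rw [map_one]; exact one_ne_zero, by
      rw [map_one, mul_one]; rfl⟩
  have hvs : ∀ a : M.chart s, v ⟨a, hsO a⟩ = z0 a := fun a => by
    have := hv ⟨a, hsO a⟩ a 1 (by rw [map_one, mul_one]; rfl)
    rwa [map_one, mul_one] at this
  -- the chart of `t`
  have htO : ∀ f ∈ M.chart t, f ∈ ptRing K z0 := by
    intro f hf
    induction hf using Algebra.adjoin_induction with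
    | mem x hx =>
      obtain ⟨y, hy, rfl⟩ := hx
      exact hmin y hy
    | algebraMap c => exact hcO c
    | add x y _ _ hx hy => exact add_mem hx hy
    | mul x y _ _ hx hy => exact mul_mem hx hy
  let z : M.chart t →ₐ[k] k :=
    { toFun := fun f => v ⟨f, htO f f.2⟩
      map_one' := map_one v
      map_zero' := map_zero v
      map_mul' := fun f g => map_mul v ⟨f, htO f f.2⟩ ⟨g, htO g g.2⟩
      map_add' := fun f g => map_add v ⟨f, htO f f.2⟩ ⟨g, htO g g.2⟩
      commutes' := fun c => by
        have h := hv ⟨algebraMap k K c, hcO c⟩ _ 1 (hconst c)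
        rw [map_one, mul_one, AlgHom.commutes] at h
        exact h }
  have hz : ∀ f : M.chart t, z f = v ⟨f, htO f f.2⟩ := fun f => rfl
  refine ⟨z, ?_⟩
  ext f
  constructor
  · rintro ⟨a, b, hb, hb', h⟩
    have h1 : (b : K)⁻¹ ∈ ptRing K z0 := nq_inv_mem z0 v hv ⟨b, htO b b.2⟩ hb
    have h2 : f = (a : K) * (b : K)⁻¹ := by
      have h3 : f * (b : K) = (a : K) := h
      have h4 : (b : K) ≠ 0 := hb'
      rw [← h3, mul_assoc, mul_inv_cancel₀ h4, mul_one]
    rw [h2]
    exact mul_mem (htO a a.2) h1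
  · rintro ⟨a, b, hb, hb', h⟩
    obtain ⟨i, hi⟩ := nq_exists_pow M hs hs0 (t := t) a.2
    obtain ⟨j, hj⟩ := nq_exists_pow M hs hs0 (t := t) b.2
    have h1 := hi (max i j) (le_max_left _ _)
    have h2 := hj (max i j) (le_max_right _ _)
    have hst : s / t ∈ ptRing K z0 := hmin s hs
    have hts : t / s ∈ M.chart s := Algebra.subset_adjoin ⟨t, htW, rfl⟩
    have hne : v ⟨s / t, hst⟩ ≠ 0 := by
      intro h0
      have h3 : (⟨s / t, hst⟩ : ptRing K z0) * ⟨t / s, hsO ⟨t / s, hts⟩⟩ = 1 := by
        apply Subtype.ext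
        change s / t * (t / s) = 1
        field_simp
      have h4 := congrArg v h3
      rw [map_mul, h0, zero_mul, map_one] at h4
      exact zero_ne_one h4
    refine ⟨⟨_, h1⟩, ⟨_, h2⟩, ?_, ?_, ?_⟩
    · rw [hz]
      have h3 : (⟨(b : K) * (s / t) ^ max i j, htO _ h2⟩ : ptRing K z0) =
          ⟨b, hsO b⟩ * ⟨s / t, hst⟩ ^ max i j := rfl
      change v ⟨(b : K) * (s / t) ^ max i j, htO _ h2⟩ ≠ 0
      rw [h3, map_mul, map_pow, hvs]
      exact mul_ne_zero hb (pow_ne_zero _ hne)
    · exact mul_ne_zero hb' (pow_ne_zero _ (div_ne_zero hs0 ht0))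
    · change f * ((b : K) * (s / t) ^ max i j) = (a : K) * (s / t) ^ max i j
      have h3 : f * (b : K) = (a : K) := h
      rw [← mul_assoc, h3]

end points

end Pool.Agent.K1
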