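import Pool.Agent.K1.NPoint

/-!
Theorem N, row N11b: points of a normal model, part II (hyperplanes, separation).
-/

set_option autoImplicit false

namespace Pool.Agent.K1

section points

variable {k K : Type} [Field k] [Field K] [Algebra k K] (M : NModel k K)

theorem nr_div_mem {s x : K} (hx : x ∈ M.W) : x / s ∈ M.chart s :=
  Algebra.subset_adjoin ⟨x, hx, rfl⟩

/-- The value of the form `x` at the point `z` of the chart `s`. -/
noncomputable def nr_val {s : K} (z : M.chart s →ₐ[k] k) : M.W →ₗ[k] k where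
  toFun x := z ⟨(x : K) / s, nr_div_mem M x.2⟩
  map_add' x y := by
    rw [← map_add]
    congr 1
    ext
    simp [add_div]
  map_smul' c x := by
    rw [RingHom.id_apply, ← map_smul]
    congr 1
    ext
    simp [smul_div_assoc]

theorem nr_val_apply {s : K} (z : M.chart s →ₐ[k] k) (x : M.W) :
    nr_val M z x = z ⟨(x : K) / s, nr_div_mem M x.2⟩ := rfl

theorem nr_val_self {s : K} (hs : s ∈ M.W) (hs0 : s ≠ 0) (z : M.chart s →ₐ[k] k) :
    nr_val M z ⟨s, hs⟩ = 1 := by
  rw [nr_val_apply, ← map_one z]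
  congr 1
  ext
  simp [div_self hs0]

variable [IsAlgClosed k]

theorem nr_isMinO_iff {s : K} (hs : s ∈ M.W) (hs0 : s ≠ 0) (z : M.chart s →ₐ[k] k) (x : M.W) :
    M.IsMinO (ptRing K z) x ↔ nr_val M z x ≠ 0 := by
  by_cases hx : (x : K) = 0
  · constructor
    · intro h
      exact absurd hx h.2.1
    · intro h
      exfalso
      apply h
      have : x = 0 := Subtype.ext hx
      rw [this, map_zero]
  · exact M.isMinO_iff hs hs0 x.2 hx z (nr_div_mem M x.2)

/-- Some form of a spanning set does not vanish. -/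
theorem NModel.exists_isMinO {O : Subring K} (hO : M.IsPoint O) (S : Set K)
    (hS : Submodule.span k S = M.W) : ∃ s ∈ S, M.IsMinO O s := by
  obtain ⟨s, hs, hs0, z, rfl⟩ := hO
  by_contra hcon
  push Not at hcon
  have hle : Submodule.span k S ≤ (LinearMap.ker (nr_val M z)).map M.W.subtype := by
    rw [Submodule.span_le]
    intro x hx
    have hxW : x ∈ M.W := hS ▸ Submodule.subset_span hx
    refine ⟨⟨x, hxW⟩, ?_, rfl⟩
    have h := hcon x hx
    rw [SetLike.mem_coe, LinearMap.mem_ker]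
    by_contra h1
    exact h ((nr_isMinO_iff M hs hs0 z ⟨x, hxW⟩).2 h1)
  rw [hS] at hle
  obtain ⟨y, hy, hy'⟩ := hle hs
  have : y = ⟨s, hs⟩ := Subtype.ext hy'
  rw [SetLike.mem_coe, LinearMap.mem_ker, this, nr_val_self M hs hs0 z] at hy
  exact one_ne_zero hy

/-- The forms which vanish at a point form a subspace of codimension one. -/
theorem NModel.exists_hyperplane {O : Subring K} (hO : M.IsPoint O) :
    ∃ H : Submodule k K, (∀ x ∈ M.W, x ∈ H ↔ ¬ M.IsMinO O x) ∧
      ∀ s, M.IsMinO O s → ∀ x ∈ M.W, ∃ c : k, x - c • s ∈ H := by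
  obtain ⟨s, hs, hs0, z, rfl⟩ := hO
  have hmem : ∀ x (hx : x ∈ M.W), x ∈ (LinearMap.ker (nr_val M z)).map M.W.subtype ↔
      nr_val M z ⟨x, hx⟩ = 0 := by
    intro x hx
    constructor
    · rintro ⟨y, hy, rfl⟩
      exact hy
    · intro h
      exact ⟨⟨x, hx⟩, h, rfl⟩
  refine ⟨(LinearMap.ker (nr_val M z)).map M.W.subtype, fun x hx => ?_, fun t ht x hx => ?_⟩
  · rw [hmem x hx]
    have := nr_isMinO_iff M hs hs0 z ⟨x, hx⟩
    rw [show M.IsMinO (ptRing K z) x ↔ nr_val M z ⟨x, hx⟩ ≠ 0 from this, not_not]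
  · have ht' : nr_val M z ⟨t, ht.1⟩ ≠ 0 := (nr_isMinO_iff M hs hs0 z ⟨t, ht.1⟩).1 ht
    refine ⟨nr_val M z ⟨x, hx⟩ / nr_val M z ⟨t, ht.1⟩, ?_⟩
    have hW : x - (nr_val M z ⟨x, hx⟩ / nr_val M z ⟨t, ht.1⟩) • t ∈ M.W :=
      M.W.sub_mem hx (M.W.smul_mem _ ht.1)
    rw [hmem _ hW]
    have : (⟨x - (nr_val M z ⟨x, hx⟩ / nr_val M z ⟨t, ht.1⟩) • t, hW⟩ : M.W) =
        ⟨x, hx⟩ - (nr_val M z ⟨x, hx⟩ / nr_val M z ⟨t, ht.1⟩) • ⟨t, ht.1⟩ := rfl
    rw [this, map_sub, map_smul, smul_eq_mul, div_mul_cancel₀ _ ht', sub_self]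

/-- Distinct points are separated by forms. -/
theorem NModel.exists_separate {O O' : Subring K} (hO : M.IsPoint O) (hO' : M.IsPoint O')
    (h : O ≠ O') : ∃ x ∈ M.W, ¬ M.IsMinO O x ∧ M.IsMinO O' x := by
  by_contra hcon
  push Not at hcon
  obtain ⟨t, -, ht'⟩ := M.exists_isMinO hO' (M.W : Set K) (Submodule.span_eq _)
  have ht : M.IsMinO O t := by
    by_contra h1
    exact hcon t ht'.1 h1 ht'
  obtain ⟨z, hz⟩ := M.exists_chart_point hO ht
  obtain ⟨z', hz'⟩ := M.exists_chart_point hO' ht'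
  have htW : t ∈ M.W := ht.1
  have ht0 : t ≠ 0 := ht.2.1
  have key : ∀ x : M.W, nr_val M z x = nr_val M z' x := by
    intro x
    have e : ∀ w : M.W, nr_val M z w = 0 → nr_val M z' w = 0 := by
      intro w hw
      by_contra hw'
      have h1 : M.IsMinO O' w := hz' ▸ (nr_isMinO_iff M htW ht0 z' w).2 hw'
      refine hcon w w.2 ?_ h1
      intro h2
      rw [← hz] at h2
      exact (nr_isMinO_iff M htW ht0 z w).1 h2 hw
    have e1 := e (x - nr_val M z x • ⟨t, htW⟩) (by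
      rw [map_sub, map_smul, nr_val_self M htW ht0 z, smul_eq_mul, mul_one, sub_self])
    rw [map_sub, map_smul, nr_val_self M htW ht0 z', smul_eq_mul, mul_one, sub_eq_zero] at e1
    exact e1.symm
  have hzz : z = z' := by
    apply AlgHom.adjoin_ext
    rintro a ⟨x, hx, rfl⟩
    exact key ⟨x, hx⟩
  apply h
  rw [← hz, ← hz', hzz]

/-- A curve and a point are separated by forms. -/
theorem NModel.exists_separate_curve {O : Subring K} (hO : M.IsPoint O)
    {V : ValuationSubring K} (hV : M.Curve V) : ∃ x ∈ M.W, ¬ M.IsMinO O x ∧ M.IsMin V x := by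
  by_contra hcon
  push Not at hcon
  obtain ⟨-, hk, s, hs, x, hx, hxc⟩ := hV
  have hsO : M.IsMinO O s := by
    by_contra h1
    exact hcon s hs.1 h1 hs
  obtain ⟨z, hz⟩ := M.exists_chart_point hO hsO
  have hsW : s ∈ M.W := hs.1
  have hs0 : s ≠ 0 := hs.2.1
  set c : k := nr_val M z ⟨x, hx⟩ with hc
  have hyW : x - c • s ∈ M.W := M.W.sub_mem hx (M.W.smul_mem _ hsW)
  have hy : nr_val M z ⟨x - c • s, hyW⟩ = 0 := by
    have : (⟨x - c • s, hyW⟩ : M.W) = ⟨x, hx⟩ - c • ⟨s, hsW⟩ := rfl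
    rw [this, map_sub, map_smul, nr_val_self M hsW hs0 z, smul_eq_mul, mul_one, sub_self]
  have hyO : ¬ M.IsMinO O (x - c • s) := by
    intro h2
    rw [← hz] at h2
    exact (nr_isMinO_iff M hsW hs0 z ⟨x - c • s, hyW⟩).1 h2 hy
  have hyV := hcon _ hyW hyO
  apply hxc c
  have e : x / s - algebraMap k K c = (x - c • s) / s := by
    rw [sub_div, Algebra.smul_def, mul_div_assoc, div_self hs0, mul_one]
  rw [e]
  by_contra hnu
  apply hyV
  have hmem : (x - c • s) / s ∈ V := hs.2.2 _ hyW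
  have hne : x - c • s ≠ 0 := by
    intro h0
    apply hnu
    rw [h0, zero_div, ValuationSubring.mem_nonunits_iff, map_zero]
    exact zero_lt_one
  have hinv : ((x - c • s) / s)⁻¹ ∈ V := by
    rw [ValuationSubring.mem_nonunits_iff, not_lt] at hnu
    rw [← ValuationSubring.valuation_le_one_iff, map_inv₀]
    exact inv_le_one_of_one_le₀ hnu
  refine ⟨hyW, hne, fun w hw => ?_⟩
  have : w / (x - c • s) = w / s * ((x - c • s) / s)⁻¹ := by
    field_simp
  rw [this]
  exact V.mul_mem _ _ (hs.2.2 w hw) hinv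

end points

end Pool.Agent.K1
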