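import Pool.Agent.K1.NModelDef

/-!
Theorem N, row N05: the model defined by the forms of degree `r`.
-/

set_option autoImplicit false

namespace Pool.Agent.K1

section

variable {k K : Type} [Field k] [Field K] [Algebra k K]

/-- products of `n` elements of `W` -/
theorem np_prod_mem (W : Submodule k K) {n : ℕ} (s : Fin n → K) (hs : ∀ i, s i ∈ W) :
    ∏ i, s i ∈ W ^ n := by
  induction n with
  | zero => simp only [Finset.univ_eq_empty, Finset.prod_empty, pow_zero]; exact Submodule.one_le.1 le_rfl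
  | succ n ih =>
    rw [Fin.prod_univ_castSucc, pow_succ]
    exact Submodule.mul_mem_mul (ih _ fun i => hs _) (hs _)

/-- quotients of products by products of minimal elements -/
theorem np_div_prod_mem (W : Submodule k K) (O : Subring K) (hO : ∀ c : k, algebraMap k K c ∈ O)
    {n : ℕ} (s : Fin n → K) (hs : ∀ i, ∀ x ∈ W, x / s i ∈ O) :
    ∀ x ∈ W ^ n, x / ∏ i, s i ∈ O := by
  induction n with
  | zero =>
    intro x hx
    rw [pow_zero, Submodule.mem_one] at hx
    obtain ⟨c, rfl⟩ := hx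
    rw [Finset.univ_eq_empty, Finset.prod_empty, div_one]
    exact hO c
  | succ n ih =>
    intro x hx
    rw [pow_succ] at hx
    rw [Fin.prod_univ_castSucc]
    induction hx using Submodule.mul_induction_on' with
    | mem_mul_mem a ha b hb =>
      rw [mul_div_mul_comm]
      exact mul_mem (ih (fun i => s i.castSucc) (fun i => hs _) a ha) (hs _ b hb)
    | add x _ y _ hx hy =>
      rw [add_div]
      exact add_mem hx hy

theorem np_div_pow_mem (W : Submodule k K) (O : Subring K) (hO : ∀ c : k, algebraMap k K c ∈ O)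
    (n : ℕ) (s : K) (hs : ∀ x ∈ W, x / s ∈ O) : ∀ x ∈ W ^ n, x / s ^ n ∈ O := by
  intro x hx
  have h := np_div_prod_mem W O hO (fun _ : Fin n => s) (fun _ => hs) x hx
  rwa [Finset.prod_const, Finset.card_univ, Fintype.card_fin] at h

/-- the functions on a chart -/
theorem np_mem_adjoin_iff (W : Submodule k K) {s : K} (hs : s ∈ W) (hs0 : s ≠ 0) (f : K) :
    f ∈ Algebra.adjoin k ((fun x => x / s) '' (W : Set K)) ↔ ∃ j : ℕ, f * s ^ j ∈ W ^ j := by
  constructor
  · intro hf
    induction hf using Algebra.adjoin_induction with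
    | mem x hx =>
      obtain ⟨y, hy, rfl⟩ := hx
      refine ⟨1, ?_⟩
      rw [pow_one, pow_one]
      show y / s * s ∈ W
      rw [div_mul_cancel₀ _ hs0]
      exact hy
    | algebraMap c =>
      refine ⟨0, ?_⟩
      rw [pow_zero, pow_zero, mul_one]
      exact Submodule.mem_one.2 ⟨c, rfl⟩
    | add x y _ _ hx hy =>
      obtain ⟨i, hi⟩ := hx
      obtain ⟨j, hj⟩ := hy
      refine ⟨i + j, ?_⟩
      have h1 : (x + y) * s ^ (i + j) = x * s ^ i * s ^ j + s ^ i * (y * s ^ j) := by ring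
      rw [h1, pow_add]
      exact add_mem (Submodule.mul_mem_mul hi (Submodule.pow_mem_pow W hs j))
        (Submodule.mul_mem_mul (Submodule.pow_mem_pow W hs i) hj)
    | mul x y _ _ hx hy =>
      obtain ⟨i, hi⟩ := hx
      obtain ⟨j, hj⟩ := hy
      refine ⟨i + j, ?_⟩
      have h1 : x * y * s ^ (i + j) = x * s ^ i * (y * s ^ j) := by ring
      rw [h1, pow_add]
      exact Submodule.mul_mem_mul hi hj
  · rintro ⟨j, hj⟩
    have h := np_div_pow_mem W (Algebra.adjoin k ((fun x => x / s) '' (W : Set K))).toSubring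
      (fun c => Subalgebra.algebraMap_mem _ c) j s
      (fun x hx => Algebra.subset_adjoin ⟨x, hx, rfl⟩) _ hj
    rwa [mul_div_cancel_right₀ _ (pow_ne_zero j hs0)] at h

/-! ### the residue map of the local ring of a point -/

section res

variable {A : Subalgebra k K} (z : A →ₐ[k] k)

theorem np_mem_pt {f : K} : f ∈ ptRing K z ↔ ∃ a b : A, z b ≠ 0 ∧ f * (b : K) = (a : K) := by
  constructor
  · rintro ⟨a, b, hb, _, h⟩
    exact ⟨a, b, hb, h⟩
  · rintro ⟨a, b, hb, h⟩
    refine ⟨a, b, hb, ?_, h⟩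
    intro h0
    have h1 : b = 0 := Subtype.ext h0
    exact hb (by rw [h1, map_zero])

theorem np_coe_mem_pt (a : A) : (a : K) ∈ ptRing K z :=
  (np_mem_pt z).2 ⟨a, 1, by rw [map_one]; exact one_ne_zero, by rw [OneMemClass.coe_one, mul_one]⟩

theorem np_inv_mem_pt (b : A) (hb : z b ≠ 0) : (b : K)⁻¹ ∈ ptRing K z := by
  refine (np_mem_pt z).2 ⟨1, b, hb, ?_⟩
  have h0 : (b : K) ≠ 0 := by
    intro h0
    exact hb (by rw [Subtype.ext h0 (a2 := (0 : A)), map_zero])
  rw [inv_mul_cancel₀ h0, OneMemClass.coe_one]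

theorem np_res_wd {f : K} {a b a' b' : A} (hb : z b ≠ 0) (hb' : z b' ≠ 0)
    (h : f * (b : K) = (a : K)) (h' : f * (b' : K) = (a' : K)) : z a / z b = z a' / z b' := by
  rw [div_eq_div_iff hb hb', ← map_mul, ← map_mul]
  congr 1
  refine Subtype.ext ?_
  show (a : K) * (b' : K) = (a' : K) * (b : K)
  rw [← h, ← h']
  ring

/-- The value of the residue map. -/
noncomputable def npFun (f : ptRing K z) : k :=
  z ((np_mem_pt z).1 f.2).choose / z ((np_mem_pt z).1 f.2).choose_spec.choose

theorem npFun_eq (f : ptRing K z) {a b : A} (hb : z b ≠ 0) (h : (f : K) * (b : K) = (a : K)) :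
    npFun z f = z a / z b := by
  have h' := ((np_mem_pt z).1 f.2).choose_spec.choose_spec
  exact np_res_wd z h'.1 hb h'.2 h

/-- The residue map. -/
noncomputable def npRes : ptRing K z →+* k where
  toFun f := npFun z f
  map_one' := by
    rw [npFun_eq z 1 (b := 1) (a := 1) (by rw [map_one]; exact one_ne_zero)
      (by rw [OneMemClass.coe_one, OneMemClass.coe_one]; ring), map_one, div_one]
  map_zero' := by
    rw [npFun_eq z 0 (b := 1) (a := 0) (by rw [map_one]; exact one_ne_zero)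
      (by rw [ZeroMemClass.coe_zero, ZeroMemClass.coe_zero]; ring), map_zero, zero_div]
  map_mul' f g := by
    obtain ⟨a, b, hb, h⟩ := (np_mem_pt z).1 f.2
    obtain ⟨a', b', hb', h'⟩ := (np_mem_pt z).1 g.2
    rw [npFun_eq z f hb h, npFun_eq z g hb' h', npFun_eq z (f * g) (b := b * b') (a := a * a')
      (by rw [map_mul]; exact mul_ne_zero hb hb') (by
        rw [MulMemClass.coe_mul, MulMemClass.coe_mul, MulMemClass.coe_mul, ← h, ← h']
        ring), map_mul, map_mul, mul_div_mul_comm]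
  map_add' f g := by
    obtain ⟨a, b, hb, h⟩ := (np_mem_pt z).1 f.2
    obtain ⟨a', b', hb', h'⟩ := (np_mem_pt z).1 g.2
    rw [npFun_eq z f hb h, npFun_eq z g hb' h',
      npFun_eq z (f + g) (b := b * b') (a := a * b' + b * a')
      (by rw [map_mul]; exact mul_ne_zero hb hb') (by
        rw [MulMemClass.coe_mul, AddMemClass.coe_add, AddMemClass.coe_add, MulMemClass.coe_mul,
          MulMemClass.coe_mul, ← h, ← h']
        ring), map_add, map_mul, map_mul, map_mul, div_add_div _ _ hb hb']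

theorem npRes_eq {f : K} (hf : f ∈ ptRing K z) {a b : A} (hb : z b ≠ 0)
    (h : f * (b : K) = (a : K)) : npRes z ⟨f, hf⟩ = z a / z b :=
  npFun_eq z ⟨f, hf⟩ hb h

theorem npRes_coe (a : A) : npRes z ⟨(a : K), np_coe_mem_pt z a⟩ = z a := by
  rw [npRes_eq z _ (a := a) (b := 1) (by rw [map_one]; exact one_ne_zero)
    (by rw [OneMemClass.coe_one, mul_one]), map_one, div_one]

/-- The inverse of an element which does not vanish at the point. -/
theorem np_inv_mem {f : K} (hf : f ∈ ptRing K z) (h : npRes z ⟨f, hf⟩ ≠ 0) :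
    f⁻¹ ∈ ptRing K z := by
  obtain ⟨a, b, hb, hab⟩ := (np_mem_pt z).1 hf
  rw [npRes_eq z hf hb hab] at h
  have ha : z a ≠ 0 := by
    intro h0
    rw [h0, zero_div] at h
    exact h rfl
  have hf0 : f ≠ 0 := by
    rintro rfl
    rw [zero_mul] at hab
    exact ha (by rw [← Subtype.ext hab (a1 := (0 : A)), map_zero])
  refine (np_mem_pt z).2 ⟨b, a, ha, ?_⟩
  rw [← hab, ← mul_assoc, inv_mul_cancel₀ hf0, one_mul]

end res

/-- change of chart -/
theorem np_chart_point (M : NModel k K) {t s : K} (ht : t ∈ M.W) (ht0 : t ≠ 0) (hs : s ∈ M.W)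
    (hs0 : s ≠ 0) (z : M.chart t →ₐ[k] k) (h : s / t ∈ M.chart t) (hz : z ⟨s / t, h⟩ ≠ 0) :
    ∃ z' : M.chart s →ₐ[k] k, ptRing K z' = ptRing K z := by
  have key : ∀ (f : K) (j : ℕ), f * s ^ j ∈ M.W ^ j → f * s ^ j / t ^ j ∈ M.chart t := by
    intro f j hj
    refine (np_mem_adjoin_iff M.W ht ht0 _).2 ⟨j, ?_⟩
    rw [div_mul_cancel₀ _ (pow_ne_zero j ht0)]
    exact hj
  have hle : ∀ f : M.chart s, (f : K) ∈ ptRing K z := by
    intro f
    obtain ⟨j, hj⟩ := (np_mem_adjoin_iff M.W hs hs0 _).1 f.2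
    refine (np_mem_pt z).2 ⟨⟨_, key _ j hj⟩, ⟨s / t, h⟩ ^ j, ?_, ?_⟩
    · rw [map_pow]
      exact pow_ne_zero j hz
    · show (f : K) * ((⟨s / t, h⟩ : M.chart t) ^ j : M.chart t) = (f : K) * s ^ j / t ^ j
      rw [SubmonoidClass.coe_pow, div_pow, mul_div_assoc]
  let z' : M.chart s →ₐ[k] k :=
    { toRingHom := (npRes z).comp ((algebraMap (M.chart s) K).codRestrict (ptRing K z) (fun f => hle f))
      commutes' := by
        intro c
        have h1 := npRes_eq z (f := (algebraMap k (M.chart s) c : M.chart s)) (hle _)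
          (a := algebraMap k (M.chart t) c) (b := 1)
          (by rw [map_one]; exact one_ne_zero) (by rw [OneMemClass.coe_one, mul_one]; rfl)
        refine Eq.trans h1 ?_
        rw [map_one, div_one, AlgHom.commutes] }
  have hz' : ∀ f : M.chart s, z' f = npRes z ⟨(f : K), hle f⟩ := fun f => rfl
  refine ⟨z', ?_⟩
  ext f
  constructor
  · intro hf
    obtain ⟨a, b, hb, hab⟩ := (np_mem_pt z').1 hf
    rw [hz'] at hb
    have hb' := np_inv_mem z (hle b) hb
    have hb0 : (b : K) ≠ 0 := by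
      intro h0
      apply hb
      have h1 : (⟨(b : K), hle b⟩ : ptRing K z) = 0 := Subtype.ext h0
      rw [h1, map_zero]
    have h1 : f = (a : K) * (b : K)⁻¹ := by rw [← hab, mul_inv_cancel_right₀ hb0]
    rw [h1]
    exact mul_mem (hle a) hb'
  · intro hf
    obtain ⟨a, b, hb, hab⟩ := (np_mem_pt z).1 hf
    obtain ⟨i, hi⟩ := (np_mem_adjoin_iff M.W ht ht0 _).1 a.2
    obtain ⟨j, hj⟩ := (np_mem_adjoin_iff M.W ht ht0 _).1 b.2
    have hst : ∀ (g : K), g * t ^ (i + j) ∈ M.W ^ (i + j) →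
        g * t ^ (i + j) / s ^ (i + j) ∈ M.chart s := by
      intro g hg
      refine (np_mem_adjoin_iff M.W hs hs0 _).2 ⟨i + j, ?_⟩
      rw [div_mul_cancel₀ _ (pow_ne_zero _ hs0)]
      exact hg
    have h1 : (a : K) * t ^ (i + j) ∈ M.W ^ (i + j) := by
      rw [pow_add, pow_add, ← mul_assoc]
      exact Submodule.mul_mem_mul hi (Submodule.pow_mem_pow _ ht j)
    have h2 : (b : K) * t ^ (i + j) ∈ M.W ^ (i + j) := by
      rw [pow_add, pow_add, mul_left_comm]
      exact Submodule.mul_mem_mul (Submodule.pow_mem_pow _ ht i) hj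
    refine (np_mem_pt z').2 ⟨⟨_, hst _ h1⟩, ⟨_, hst _ h2⟩, ?_, ?_⟩
    · rw [hz', npRes_eq z _ (a := b) (b := ⟨s / t, h⟩ ^ (i + j))]
      · exact div_ne_zero hb (by rw [map_pow]; exact pow_ne_zero _ hz)
      · rw [map_pow]
        exact pow_ne_zero _ hz
      · show (b : K) * t ^ (i + j) / s ^ (i + j) * ((⟨s / t, h⟩ : M.chart t) ^ (i + j) : M.chart t)
          = (b : K)
        rw [SubmonoidClass.coe_pow, div_pow]
        field_simp
    · show f * ((b : K) * t ^ (i + j) / s ^ (i + j)) = (a : K) * t ^ (i + j) / s ^ (i + j)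
      rw [← hab]
      ring

/-- a minimal form -/
theorem np_exists_min (W : Submodule k K) (hfg : W.FG) (hne : ∃ s ∈ W, s ≠ 0)
    (V : ValuationSubring K) (hV : ∀ c : k, algebraMap k K c ∈ V) :
    ∃ s ∈ W, s ≠ 0 ∧ ∀ x ∈ W, x / s ∈ V := by
  classical
  obtain ⟨T, hT⟩ := hfg
  have hne' : (T.filter fun x => x ≠ 0).Nonempty := by
    by_contra h
    rw [Finset.not_nonempty_iff_eq_empty, Finset.filter_eq_empty_iff] at h
    obtain ⟨s, hs, hs0⟩ := hne
    apply hs0
    rw [← hT] at hs
    have h1 : Submodule.span k (T : Set K) ≤ ⊥ := by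
      rw [Submodule.span_le]
      intro x hx
      have := h hx
      push Not at this
      exact this
    exact (Submodule.mem_bot k).1 (h1 hs)
  obtain ⟨s, hs, hmax⟩ := Finset.exists_max_image _ V.valuation hne'
  rw [Finset.mem_filter] at hs
  refine ⟨s, hT ▸ Submodule.subset_span hs.1, hs.2, ?_⟩
  intro x hx
  rw [← hT] at hx
  induction hx using Submodule.span_induction with
  | mem x hx =>
    by_cases hx0 : x = 0
    · rw [hx0, zero_div]
      exact zero_mem V
    · rw [← V.valuation_le_one_iff, map_div₀]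
      have h1 : V.valuation s ≠ 0 := (Valuation.ne_zero_iff _).2 hs.2
      exact div_le_one_of_le₀ (hmax x (Finset.mem_filter.2 ⟨hx, hx0⟩)) zero_le
  | zero =>
    rw [zero_div]
    exact zero_mem V
  | add x y _ _ hx hy =>
    rw [add_div]
    exact add_mem hx hy
  | smul c x _ hx =>
    rw [Algebra.smul_def, mul_div_assoc]
    exact mul_mem (hV c) hx

theorem np_nonunits_add {V : ValuationSubring K} {a b : K} (ha : a ∈ V.nonunits)
    (hb : b ∈ V.nonunits) : a + b ∈ V.nonunits := by
  rw [ValuationSubring.mem_nonunits_iff] at *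
  exact Valuation.map_add_lt _ ha hb

theorem np_nonunits_mul {V : ValuationSubring K} {a b : K} (ha : a ∈ V)
    (hb : b ∈ V.nonunits) : a * b ∈ V.nonunits := by
  rw [← V.valuation_le_one_iff] at ha
  rw [ValuationSubring.mem_nonunits_iff] at *
  rw [map_mul]
  exact mul_lt_one_of_nonneg_of_lt_one_right ha zero_le hb

theorem np_zero_nonunits (V : ValuationSubring K) : (0 : K) ∈ V.nonunits := by
  rw [ValuationSubring.mem_nonunits_iff, map_zero]
  exact zero_lt_one

/-- the elements of a valuation ring with residue in `k` -/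
theorem np_residues (W : Submodule k K) {V : ValuationSubring K}
    (hV : ∀ c : k, algebraMap k K c ∈ V) {s : K}
    (h : ∀ x ∈ W, ∃ c : k, x / s - algebraMap k K c ∈ V.nonunits) (n : ℕ) :
    ∀ x ∈ W ^ n, ∃ c : k, x / s ^ n - algebraMap k K c ∈ V.nonunits := by
  induction n with
  | zero =>
    intro x hx
    rw [pow_zero, Submodule.mem_one] at hx
    obtain ⟨c, rfl⟩ := hx
    refine ⟨c, ?_⟩
    rw [pow_zero, div_one, sub_self]
    exact np_zero_nonunits V
  | succ n ih =>
    intro x hx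
    rw [pow_succ] at hx
    induction hx using Submodule.mul_induction_on' with
    | mem_mul_mem a ha b hb =>
      obtain ⟨c, hc⟩ := ih a ha
      obtain ⟨d, hd⟩ := h b hb
      refine ⟨c * d, ?_⟩
      have h1 : a * b / s ^ (n + 1) - algebraMap k K (c * d) =
          algebraMap k K d * (a / s ^ n - algebraMap k K c) +
          (algebraMap k K c + (a / s ^ n - algebraMap k K c)) * (b / s - algebraMap k K d) := by
        rw [map_mul, pow_succ, mul_div_mul_comm]
        ring
      rw [h1]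
      refine np_nonunits_add (np_nonunits_mul (hV d) hc) (np_nonunits_mul ?_ hd)
      exact add_mem (hV c) (V.nonunits_subset hc)
    | add x _ y _ hx hy =>
      obtain ⟨c, hc⟩ := hx
      obtain ⟨d, hd⟩ := hy
      refine ⟨c + d, ?_⟩
      have h1 : (x + y) / s ^ (n + 1) - algebraMap k K (c + d) =
          (x / s ^ (n + 1) - algebraMap k K c) + (y / s ^ (n + 1) - algebraMap k K d) := by
        rw [map_add, add_div]
        ring
      rw [h1]
      exact np_nonunits_add hc hd

theorem np_transport {A B : Subalgebra k K} (h : A = B) (z : A →ₐ[k] k) :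
    ∃ z' : B →ₐ[k] k, ptRing K z' = ptRing K z := by
  subst h
  exact ⟨z, rfl⟩

open scoped Pointwise in
/-- some `r`-th power does not vanish at the point -/
theorem np_exists_pow (W : Submodule k K) (r : ℕ) (hr : 0 < r) {t : K} (ht : t ∈ W ^ r)
    (ht0 : t ≠ 0) {A : Subalgebra k K} (hA : ∀ x ∈ W ^ r, x / t ∈ A) (z : A →ₐ[k] k) :
    ∃ (s : K) (hs : s ∈ W), z ⟨s ^ r / t, hA _ (Submodule.pow_mem_pow _ hs r)⟩ ≠ 0 := by
  have h1 : W ^ r = Submodule.span k ((W : Set K) ^ r) := by
    conv_lhs => rw [← Submodule.span_eq W]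
    rw [Submodule.span_pow]
  -- some product does not vanish
  have h2 : ∃ (f : Fin r → (W : Set K)) (h : (List.ofFn fun i => (f i : K)).prod ∈ W ^ r),
      z ⟨(List.ofFn fun i => (f i : K)).prod / t, hA _ h⟩ ≠ 0 := by
    by_contra hcon
    push Not at hcon
    have h3 : ∀ x (hx : x ∈ W ^ r), z ⟨x / t, hA _ hx⟩ = 0 := by
      intro x hx
      have hx' := hx
      rw [h1] at hx'
      induction hx' using Submodule.span_induction with
      | mem x hx1 =>
        obtain ⟨f, hf⟩ := Set.mem_pow.1 hx1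
        subst hf
        exact hcon f hx
      | zero =>
        have h4 : (⟨0 / t, hA _ hx⟩ : A) = 0 := Subtype.ext (zero_div t)
        rw [h4, map_zero]
      | add x y hx1 hy1 ihx ihy =>
        have hx2 : x ∈ W ^ r := by rw [h1]; exact hx1
        have hy2 : y ∈ W ^ r := by rw [h1]; exact hy1
        have h4 : (⟨(x + y) / t, hA _ hx⟩ : A) = ⟨x / t, hA _ hx2⟩ + ⟨y / t, hA _ hy2⟩ :=
          Subtype.ext (add_div x y t)
        rw [h4, map_add, ihx hx2, ihy hy2, add_zero]
      | smul c x hx1 ihx =>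
        have hx2 : x ∈ W ^ r := by rw [h1]; exact hx1
        have h4 : (⟨(c • x) / t, hA _ hx⟩ : A) = c • ⟨x / t, hA _ hx2⟩ :=
          Subtype.ext (smul_div_assoc c x t)
        rw [h4, map_smul, ihx hx2, smul_zero]
    have h5 := h3 t ht
    have h6 : (⟨t / t, hA _ ht⟩ : A) = 1 := Subtype.ext (div_self ht0)
    rw [h6, map_one] at h5
    exact one_ne_zero h5
  obtain ⟨f, hf, hz⟩ := h2
  by_contra hcon
  push Not at hcon
  apply hz
  have h7 : (⟨(List.ofFn fun i => (f i : K)).prod / t, hA _ hf⟩ : A) ^ r =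
      ∏ i, (⟨(f i : K) ^ r / t, hA _ (Submodule.pow_mem_pow _ (f i).2 r)⟩ : A) := by
    refine Subtype.ext ?_
    rw [SubmonoidClass.coe_pow, SubmonoidClass.coe_finsetProd]
    show ((List.ofFn fun i => (f i : K)).prod / t) ^ r = ∏ i, (f i : K) ^ r / t
    rw [List.prod_ofFn, div_pow, Finset.prod_div_distrib, Finset.prod_const, Finset.card_univ,
      Fintype.card_fin, Finset.prod_pow]
  have h8 : z ⟨(List.ofFn fun i => (f i : K)).prod / t, hA _ hf⟩ ^ r = 0 := by
    rw [← map_pow, h7, map_prod]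
    exact Finset.prod_eq_zero (Finset.mem_univ (⟨0, hr⟩ : Fin r)) (hcon _ (f ⟨0, hr⟩).2)
  exact eq_zero_of_pow_eq_zero h8

end

/-- The model defined by the forms of degree `r`. -/
theorem NModel.exists_pow {k K : Type} [Field k] [Field K] [Algebra k K] (M : NModel k K)
    (r : ℕ) (hr : 0 < r) :
    ∃ M' : NModel k K, M'.W = M.W ^ r ∧ (∀ s ∈ M.W, s ≠ 0 → M'.chart (s ^ r) = M.chart s) ∧
      (∀ V, M'.Curve V ↔ M.Curve V) ∧ (∀ O, M'.IsPoint O ↔ M.IsPoint O) ∧
      (∀ V : ValuationSubring K, (∀ c : k, algebraMap k K c ∈ V) → ∀ s : Fin r → K,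
        (∀ i, M.IsMin V (s i)) → M'.IsMin V (∏ i, s i)) ∧
      ∀ O : Subring K, (∀ c : k, algebraMap k K c ∈ O) → ∀ s : Fin r → K,
        (∀ i, M.IsMinO O (s i)) → M'.IsMinO O (∏ i, s i) := by
  have hpV : ∀ (V : ValuationSubring K), (∀ c : k, algebraMap k K c ∈ V) → ∀ (n : ℕ) (s : K),
      (∀ x ∈ M.W, x / s ∈ V) → ∀ x ∈ M.W ^ n, x / s ^ n ∈ V := fun V hV n s hs x hx =>
    np_div_pow_mem M.W V.toSubring hV n s hs x hx
  let M' : NModel k K :=
    { W := M.W ^ r
      fg := M.fg.pow r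
      ne := by
        obtain ⟨s, hs, hs0⟩ := M.ne
        exact ⟨s ^ r, Submodule.pow_mem_pow _ hs r, pow_ne_zero r hs0⟩
      normal := by
        intro j f h
        rw [← pow_mul]
        refine M.normal (r * j) f ?_
        intro V hV s hs hs0 hmin
        rw [pow_mul]
        exact h V hV (s ^ r) (Submodule.pow_mem_pow _ hs r) (pow_ne_zero r hs0)
          (hpV V hV r s hmin)
      frac := by
        intro f
        obtain ⟨j, a, ha, b, hb, hb0, hf⟩ := M.frac f
        obtain ⟨s, hs, hs0⟩ := M.ne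
        have hj : j + (r * j - j) = r * j := by
          have : j ≤ r * j := Nat.le_mul_of_pos_left j hr
          omega
        have hW : (M.W ^ r) ^ j = M.W ^ j * M.W ^ (r * j - j) := by
          rw [← pow_mul, ← pow_add, hj]
        refine ⟨j, a * s ^ (r * j - j), ?_, b * s ^ (r * j - j), ?_, ?_, ?_⟩
        · rw [hW]
          exact Submodule.mul_mem_mul ha (Submodule.pow_mem_pow _ hs _)
        · rw [hW]
          exact Submodule.mul_mem_mul hb (Submodule.pow_mem_pow _ hs _)
        · exact mul_ne_zero hb0 (pow_ne_zero _ hs0)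
        · rw [mul_div_mul_right _ _ (pow_ne_zero _ hs0)]
          exact hf }
  have hchart : ∀ s ∈ M.W, s ≠ 0 → M'.chart (s ^ r) = M.chart s := by
    intro s hs hs0
    ext f
    have e1 : f ∈ M'.chart (s ^ r) ↔ ∃ j : ℕ, f * (s ^ r) ^ j ∈ (M.W ^ r) ^ j :=
      np_mem_adjoin_iff (M.W ^ r) (Submodule.pow_mem_pow _ hs r) (pow_ne_zero r hs0) f
    have e2 : f ∈ M.chart s ↔ ∃ j : ℕ, f * s ^ j ∈ M.W ^ j := np_mem_adjoin_iff M.W hs hs0 f
    rw [e1, e2]
    constructor
    · rintro ⟨j, hj⟩
      rw [← pow_mul, ← pow_mul] at hj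
      exact ⟨r * j, hj⟩
    · rintro ⟨j, hj⟩
      refine ⟨j, ?_⟩
      rw [← pow_mul, ← pow_mul]
      have hj' : j + (r * j - j) = r * j := by
        have : j ≤ r * j := Nat.le_mul_of_pos_left j hr
        omega
      rw [← hj', pow_add, pow_add, ← mul_assoc]
      exact Submodule.mul_mem_mul hj (Submodule.pow_mem_pow _ hs _)
  refine ⟨M', rfl, hchart, ?_, ?_, ?_, ?_⟩
  · -- curves
    intro V
    constructor
    · rintro ⟨hV, hk, t, ⟨ht, ht0, htmin⟩, y, hy, hyc⟩
      obtain ⟨s, hs, hs0, hsmin⟩ := np_exists_min M.W M.fg M.ne V hk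
      refine ⟨hV, hk, s, ⟨hs, hs0, hsmin⟩, ?_⟩
      by_contra hcon
      push Not at hcon
      obtain ⟨c, hc⟩ := np_residues M.W hk hcon r y hy
      obtain ⟨d, hd⟩ := np_residues M.W hk hcon r t ht
      have hst : s ^ r / t ∈ V := htmin _ (Submodule.pow_mem_pow _ hs r)
      have hsr : s ^ r ≠ 0 := pow_ne_zero r hs0
      have hd0 : d ≠ 0 := by
        rintro rfl
        rw [map_zero, sub_zero] at hd
        have h1 := np_nonunits_mul hst hd
        rw [div_mul_div_cancel₀ ht0, div_self hsr, ValuationSubring.mem_nonunits_iff, map_one] at h1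
        exact lt_irrefl _ h1
      have hd1 : algebraMap k K d ≠ 0 := by
        rwa [Ne, map_eq_zero]
      apply hyc (c / d)
      have h1 : y / t - algebraMap k K (c / d) = algebraMap k K d⁻¹ * (s ^ r / t) *
          (algebraMap k K d * (y / s ^ r - algebraMap k K c) +
            -algebraMap k K c * (t / s ^ r - algebraMap k K d)) := by
        rw [map_div₀, map_inv₀]
        field_simp
        ring
      rw [h1]
      exact np_nonunits_mul (mul_mem (hk _) hst)
        (np_nonunits_add (np_nonunits_mul (hk _) hc) (np_nonunits_mul (neg_mem (hk _)) hd))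
    · rintro ⟨hV, hk, s, ⟨hs, hs0, hmin⟩, x, hx, hxc⟩
      refine ⟨hV, hk, s ^ r, ⟨Submodule.pow_mem_pow _ hs r, pow_ne_zero r hs0,
        hpV V hk r s hmin⟩, x * s ^ (r - 1), ?_, ?_⟩
      · show x * s ^ (r - 1) ∈ M.W ^ r
        obtain ⟨q, rfl⟩ : ∃ q, r = q + 1 := ⟨r - 1, by omega⟩
        rw [Nat.add_sub_cancel, pow_succ', ]
        exact Submodule.mul_mem_mul hx (Submodule.pow_mem_pow _ hs q)
      · intro c
        have h1 : x * s ^ (r - 1) / s ^ r = x / s := by
          obtain ⟨q, rfl⟩ : ∃ q, r = q + 1 := ⟨r - 1, by omega⟩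
          rw [Nat.add_sub_cancel, pow_succ', mul_div_mul_right _ _ (pow_ne_zero q hs0)]
        rw [h1]
        exact hxc c
  · -- points
    intro O
    constructor
    · rintro ⟨t, ht, ht0, z, rfl⟩
      obtain ⟨s, hs, hz⟩ := np_exists_pow M.W r hr ht ht0
        (A := M'.chart t) (fun x hx => Algebra.subset_adjoin ⟨x, hx, rfl⟩) z
      have hs0 : s ≠ 0 := by
        rintro rfl
        apply hz
        have h1 : (⟨(0 : K) ^ r / t, Algebra.subset_adjoin ⟨0 ^ r,
            Submodule.pow_mem_pow _ hs r, rfl⟩⟩ : M'.chart t) = 0 := by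
          refine Subtype.ext ?_
          show (0 : K) ^ r / t = 0
          rw [zero_pow hr.ne', zero_div]
        rw [h1, map_zero]
      obtain ⟨z', hz'⟩ := np_chart_point M' ht ht0 (Submodule.pow_mem_pow _ hs r)
        (pow_ne_zero r hs0) z _ hz
      obtain ⟨z'', hz''⟩ := np_transport (hchart s hs hs0) z'
      exact ⟨s, hs, hs0, z'', hz''.trans hz'⟩
    · rintro ⟨s, hs, hs0, z, rfl⟩
      obtain ⟨z', hz'⟩ := np_transport (hchart s hs hs0).symm z
      exact ⟨s ^ r, Submodule.pow_mem_pow _ hs r, pow_ne_zero r hs0, z', hz'⟩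
  · intro V hV s hs
    exact ⟨np_prod_mem _ s fun i => (hs i).1, Finset.prod_ne_zero_iff.2 fun i _ => (hs i).2.1,
      np_div_prod_mem M.W V.toSubring hV s fun i => (hs i).2.2⟩
  · intro O hO s hs
    exact ⟨np_prod_mem _ s fun i => (hs i).1, Finset.prod_ne_zero_iff.2 fun i _ => (hs i).2.1,
      np_div_prod_mem M.W O hO s fun i => (hs i).2.2⟩

end Pool.Agent.K1
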