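import Pool.Agent.K1.DefsMov

/-!
K1-B9: from a local decomposition of the functional of one curve to the values at the points.
-/

set_option autoImplicit false

namespace Pool.Agent.K1

namespace PsiLoc

variable {k A : Type} [Field k] [CommRing A] [Algebra k A]

theorem not_dvd {q : A} {x : A →ₐ[k] k} (hx : x q = 0) {a : A} (ha : x a ≠ 0) : ¬ q ∣ a := by
  rintro ⟨b, rfl⟩
  apply ha
  rw [map_mul, hx, zero_mul]

theorem eq_of_dvd {q : A} {x : A →ₐ[k] k} (hx : x q = 0) {a b : A} (h : q ∣ a - b) :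
    x a = x b := by
  obtain ⟨c, hc⟩ := h
  have h1 := congrArg x hc
  rw [map_sub, map_mul, hx, zero_mul, sub_eq_zero] at h1
  exact h1

/-- `π` is a local parameter at the point `x` of the curve `q = 0`. -/
structure Param (q : A) (x : A →ₐ[k] k) (π : A) : Prop where
  zero : x q = 0
  pi : x π = 0
  ndvd : ¬ q ∣ π
  gen : ∀ g, x g = 0 → ∃ a, x a ≠ 0 ∧ ∃ u, q ∣ a * g - u * π

variable {Λ : A → A → ℚ} {q : A} {e : (A →ₐ[k] k) → A → ℚ}

theorem e_congr (he : LocDec (k := k) Λ q e) (x : A →ₐ[k] k) {f g : A} (h : q ∣ f - g) :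
    e x f = e x g := by
  obtain ⟨r, hr⟩ := h
  have h1 : f = g + q * r := by
    rw [← hr]
    ring
  rw [h1]
  exact he.add x g r

theorem e_mul (he : LocDec (k := k) Λ q e) (x : A →ₐ[k] k) {f g : A} (hf : ¬ q ∣ f)
    (hg : ¬ q ∣ g) : e x (f * g) = e x f + e x g :=
  he.mul x f g (fun h => hf (Ideal.mem_span_singleton.1 h))
    (fun h => hg (Ideal.mem_span_singleton.1 h))

theorem e_unit_mul (he : LocDec (k := k) Λ q e) {x : A →ₐ[k] k} (hx : x q = 0) {a f : A}
    (ha : x a ≠ 0) (hf : ¬ q ∣ f) : e x (a * f) = e x f := by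
  rw [e_mul he x (not_dvd hx ha) hf, he.unit x a ha, zero_add]

theorem e_pow (he : LocDec (k := k) Λ q e) (hq : Prime q) (x : A →ₐ[k] k) {f : A}
    (hf : ¬ q ∣ f) (j : ℕ) : e x (f ^ j) = (j : ℚ) * e x f := by
  induction j with
  | zero =>
    rw [pow_zero, he.unit x 1 (by rw [map_one]; exact one_ne_zero)]
    simp
  | succ j ih =>
    rw [pow_succ, e_mul he x (fun h => hf (hq.dvd_of_dvd_pow h)) hf, ih]
    push_cast
    ring

theorem param_unique (he : LocDec (k := k) Λ q e) (hq : Prime q) {x : A →ₐ[k] k} {π π' : A}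
    (h : Param q x π) (h' : Param q x π') : e x π = e x π' := by
  obtain ⟨a, ha, u, hu⟩ := h.gen π' h'.pi
  obtain ⟨b, hb, v, hv⟩ := h'.gen π h.pi
  have hxu : x u ≠ 0 := by
    intro h0
    have h1 : q ∣ (a * b - u * v) * π' := by
      have h2 : (a * b - u * v) * π' = b * (a * π' - u * π) + u * (b * π - v * π') := by ring
      rw [h2]
      exact dvd_add (hu.mul_left _) (hv.mul_left _)
    have h2 : q ∣ a * b - u * v := (hq.dvd_or_dvd h1).resolve_right h'.ndvd
    have h3 := eq_of_dvd h.zero h2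
    rw [map_mul, map_mul, h0, zero_mul] at h3
    exact mul_ne_zero ha hb h3
  rw [← e_unit_mul he h.zero hxu h.ndvd, ← e_unit_mul he h.zero ha h'.ndvd]
  exact (e_congr he x hu).symm

theorem param_of_transv [IsNoetherianRing A] (hq : Prime q) {s : A} {x : A →ₐ[k] k}
    (hne : Ideal.span {q} ≠ RingHom.ker x) (h : TransvAt s q x) :
    Param q x (s - algebraMap k A (x s)) := by
  obtain ⟨hx, hle⟩ := h
  have hfg : (RingHom.ker x).FG := IsNoetherian.noetherian _
  obtain ⟨r, hr, hr'⟩ : ∃ r : A, r - 1 ∈ RingHom.ker x ∧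
      ∀ g ∈ RingHom.ker x, r * g ∈ Ideal.span {q, s - algebraMap k A (x s)} := by
    obtain ⟨r, hr, hr'⟩ := Submodule.exists_sub_one_mem_and_smul_le_of_fg_of_le_sup
      (I := RingHom.ker x) (N := Ideal.span {q, s - algebraMap k A (x s)})
      (N' := RingHom.ker x) (P := RingHom.ker x) hfg le_rfl
      (by
        rw [smul_eq_mul, ← pow_two]
        exact hle)
    refine ⟨r, hr, fun g hg => ?_⟩
    exact hr' (Submodule.smul_mem_pointwise_smul g r _ hg)
  have hxr : x r ≠ 0 := by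
    rw [RingHom.mem_ker, map_sub, map_one, sub_eq_zero] at hr
    rw [hr]
    exact one_ne_zero
  have hgen : ∀ g, x g = 0 → ∃ u, q ∣ r * g - u * (s - algebraMap k A (x s)) := by
    intro g hg
    obtain ⟨a, b, hab⟩ := Ideal.mem_span_pair.1 (hr' g hg)
    refine ⟨b, ⟨a, ?_⟩⟩
    rw [← hab]
    ring
  have hxs : x (s - algebraMap k A (x s)) = 0 := by
    rw [map_sub, AlgHom.commutes, Algebra.algebraMap_self, RingHom.id_apply, sub_self]
  refine ⟨hx, hxs, ?_, fun g hg => ⟨r, hxr, hgen g hg⟩⟩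
  intro hd
  apply hne
  apply le_antisymm
  · rw [Ideal.span_singleton_le_iff_mem]
    exact hx
  · intro g hg
    obtain ⟨u, hu⟩ := hgen g hg
    have h1 : q ∣ r * g := by
      have h2 : r * g = (r * g - u * (s - algebraMap k A (x s))) +
          u * (s - algebraMap k A (x s)) := by ring
      rw [h2]
      exact dvd_add hu (hd.mul_left _)
    exact Ideal.mem_span_singleton.2 ((hq.dvd_or_dvd h1).resolve_left (not_dvd hx hxr))

theorem eq_of_ker_le {x y : A →ₐ[k] k} (h : RingHom.ker y ≤ RingHom.ker x) : y = x := by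
  apply AlgHom.ext
  intro f
  have h1 : f - algebraMap k A (y f) ∈ RingHom.ker y := by
    rw [RingHom.mem_ker, map_sub, AlgHom.commutes, Algebra.algebraMap_self, RingHom.id_apply,
      sub_self]
  have h2 := h h1
  rw [RingHom.mem_ker, map_sub, AlgHom.commutes, Algebra.algebraMap_self, RingHom.id_apply,
    sub_eq_zero] at h2
  exact h2.symm

theorem ker_prime (x : A →ₐ[k] k) : (RingHom.ker x).IsPrime := RingHom.ker_isPrime x

/-- powers of a parameter -/
theorem pow_param {x : A →ₐ[k] k} {π : A} (h : Param q x π) (i : ℕ) :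
    ∀ g ∈ RingHom.ker x ^ i, ∃ a, x a ≠ 0 ∧ ∃ u, q ∣ a * g - u * π ^ i := by
  induction i with
  | zero =>
    intro g _
    refine ⟨1, by rw [map_one]; exact one_ne_zero, g, ?_⟩
    rw [pow_zero, one_mul, mul_one, sub_self]
    exact dvd_zero q
  | succ i ih =>
    intro g hg
    rw [pow_succ] at hg
    induction hg using Submodule.mul_induction_on' with
    | mem_mul_mem b hb c hc =>
      obtain ⟨a, ha, u, hu⟩ := ih b hb
      obtain ⟨a', ha', u', hu'⟩ := h.gen c hc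
      refine ⟨a * a', by rw [map_mul]; exact mul_ne_zero ha ha', u * u', ?_⟩
      have h1 : a * a' * (b * c) - u * u' * π ^ (i + 1) =
          (a * b - u * π ^ i) * (a' * c) + u * π ^ i * (a' * c - u' * π) := by ring
      rw [h1]
      exact dvd_add (hu.mul_right _) (hu'.mul_left _)
    | add g₁ _ g₂ _ h₁ h₂ =>
      obtain ⟨a, ha, u, hu⟩ := h₁
      obtain ⟨a', ha', u', hu'⟩ := h₂
      refine ⟨a * a', by rw [map_mul]; exact mul_ne_zero ha ha', a' * u + a * u', ?_⟩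
      have h1 : a * a' * (g₁ + g₂) - (a' * u + a * u') * π ^ (i + 1) =
          a' * (a * g₁ - u * π ^ (i + 1)) + a * (a' * g₂ - u' * π ^ (i + 1)) := by ring
      rw [h1]
      exact dvd_add (hu.mul_left _) (hu'.mul_left _)

/-- A sum of products. -/
theorem exists_factor (hq : Prime q) {x : A →ₐ[k] k} (hx : x q = 0) {f c : A} (hc : x c ≠ 0)
    (hf : ¬ q ∣ f) (j : ℕ)
    (hj : ∀ g ∈ RingHom.ker x ^ (j + 1), ∃ d, q ∣ c * g - d * f)
    (hfm : f ∈ RingHom.ker x ^ (j + 1) ⊔ Ideal.span {q}) :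
    ∃ π ∈ RingHom.ker x, ∃ b ∈ RingHom.ker x ^ j, ∃ d, x d ≠ 0 ∧ q ∣ c * (b * π) - d * f := by
  by_contra hcon
  have hkey : ∀ g ∈ RingHom.ker x ^ (j + 1), ∃ d, x d = 0 ∧ q ∣ c * g - d * f := by
    intro g hg
    rw [pow_succ] at hg
    induction hg using Submodule.mul_induction_on' with
    | mem_mul_mem b hb a ha =>
      obtain ⟨d, hd⟩ := hj (b * a) (by rw [pow_succ]; exact Ideal.mul_mem_mul hb ha)
      refine ⟨d, ?_, hd⟩
      by_contra hd0
      exact hcon ⟨a, ha, b, hb, d, hd0, hd⟩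
    | add g₁ _ g₂ _ h₁ h₂ =>
      obtain ⟨d, hd, h1⟩ := h₁
      obtain ⟨d', hd', h2⟩ := h₂
      refine ⟨d + d', by rw [map_add, hd, hd', add_zero], ?_⟩
      have h3 : c * (g₁ + g₂) - (d + d') * f = (c * g₁ - d * f) + (c * g₂ - d' * f) := by ring
      rw [h3]
      exact dvd_add h1 h2
  obtain ⟨g, hg, t, ht, hgt⟩ := Submodule.mem_sup.1 hfm
  obtain ⟨d, hd, h1⟩ := hkey g hg
  have h2 : q ∣ (c - d) * f := by
    have h3 : (c - d) * f = (c * g - d * f) + c * t := by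
      rw [← hgt]
      ring
    rw [h3]
    exact dvd_add h1 ((Ideal.mem_span_singleton.1 ht).mul_left _)
  have h3 : q ∣ c - d := (hq.dvd_or_dvd h2).resolve_right hf
  have h4 := eq_of_dvd hx h3
  rw [hd] at h4
  exact hc h4

/-- A principal power gives a parameter. -/
theorem exists_param (hq : Prime q) {x : A →ₐ[k] k} (hx : x q = 0) {f c : A} (hc : x c ≠ 0)
    (hf : ¬ q ∣ f) (j : ℕ)
    (hj : ∀ g ∈ RingHom.ker x ^ (j + 1), ∃ d, q ∣ c * g - d * f)
    (hfm : f ∈ RingHom.ker x ^ (j + 1) ⊔ Ideal.span {q}) :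
    ∃ π, Param q x π ∧ ∃ a, x a ≠ 0 ∧ ∃ v, x v ≠ 0 ∧ q ∣ a * f - v * π ^ (j + 1) := by
  obtain ⟨π, hπ, b, hb, d, hd, hdf⟩ := exists_factor hq hx hc hf j hj hfm
  have hndf : ¬ q ∣ c * (b * π) := by
    intro h
    have h1 : q ∣ d * f := by
      have h2 : d * f = c * (b * π) - (c * (b * π) - d * f) := by ring
      rw [h2]
      exact dvd_sub h hdf
    rcases hq.dvd_or_dvd h1 with h2 | h2
    · exact not_dvd hx hd h2
    · exact hf h2
  have hnb : ¬ q ∣ c * b := by
    intro h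
    apply hndf
    rw [← mul_assoc]
    exact h.mul_right _
  have hnπ : ¬ q ∣ π := by
    intro h
    apply hndf
    exact (h.mul_left _).mul_left _
  have hpar : Param q x π := by
    refine ⟨hx, hπ, hnπ, ?_⟩
    intro g hg
    obtain ⟨d', hd'⟩ := hj (b * g) (by rw [pow_succ]; exact Ideal.mul_mem_mul hb hg)
    refine ⟨d, hd, d', ?_⟩
    have h1 : q ∣ (c * b) * (d * g - d' * π) := by
      have h2 : (c * b) * (d * g - d' * π) =
          d * (c * (b * g) - d' * f) - d' * (c * (b * π) - d * f) := by ring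
      rw [h2]
      exact dvd_sub (hd'.mul_left _) (hdf.mul_left _)
    exact (hq.dvd_or_dvd h1).resolve_left hnb
  refine ⟨π, hpar, ?_⟩
  obtain ⟨g, hg, t, ht, hgt⟩ := Submodule.mem_sup.1 hfm
  obtain ⟨a, ha, v, hv⟩ := pow_param hpar (j + 1) g hg
  have hv' : q ∣ a * f - v * π ^ (j + 1) := by
    have h1 : a * f - v * π ^ (j + 1) = (a * g - v * π ^ (j + 1)) + a * t := by
      rw [← hgt]
      ring
    rw [h1]
    exact dvd_add hv ((Ideal.mem_span_singleton.1 ht).mul_left _)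
  refine ⟨a, ha, v, ?_, hv'⟩
  intro hv0
  obtain ⟨w, hw⟩ := hj (π ^ (j + 1)) (Ideal.pow_mem_pow hπ _)
  have h1 : q ∣ (c * a - w * v) * π ^ (j + 1) := by
    have h2 : (c * a - w * v) * π ^ (j + 1) =
        a * (c * π ^ (j + 1) - w * f) + w * (a * f - v * π ^ (j + 1)) := by ring
    rw [h2]
    exact dvd_add (hw.mul_left _) (hv'.mul_left _)
  have h2 : q ∣ c * a - w * v :=
    (hq.dvd_or_dvd h1).resolve_right (fun h => hnπ (hq.dvd_of_dvd_pow h))
  have h3 := eq_of_dvd hx h2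
  rw [map_mul, map_mul, hv0, mul_zero] at h3
  exact mul_ne_zero hc ha h3

theorem exists_mem_rest (m : (A →ₐ[k] k) →₀ ℕ) (x : A →ₐ[k] k) [DecidableEq (A →ₐ[k] k)] :
    ∃ c ∈ ∏ y ∈ m.support.erase x, RingHom.ker y ^ m y, x c ≠ 0 := by
  by_contra hcon
  push Not at hcon
  have hle : ∏ y ∈ m.support.erase x, RingHom.ker y ^ m y ≤ RingHom.ker x := fun c hc =>
    hcon c hc
  have := ker_prime x
  obtain ⟨y, hy, hyx⟩ := (Ideal.IsPrime.prod_le (ker_prime x)).1 hle
  have h1 : RingHom.ker y ≤ RingHom.ker x := Ideal.IsPrime.le_of_pow_le hyx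
  have h2 := eq_of_ker_le h1
  rw [h2] at hy
  exact Finset.notMem_erase x _ hy

theorem exists_of_mem_prod {f : A} {m : (A →ₐ[k] k) →₀ ℕ}
    (hprod : Ideal.span {f, q} = (∏ y ∈ m.support, RingHom.ker y ^ m y) ⊔ Ideal.span {q})
    {g : A} (hg : g ∈ ∏ y ∈ m.support, RingHom.ker y ^ m y) : ∃ d, q ∣ g - d * f := by
  have h1 : g ∈ Ideal.span {f, q} := by
    rw [hprod]
    exact Ideal.mem_sup_left hg
  obtain ⟨a, b, hab⟩ := Ideal.mem_span_pair.1 h1
  refine ⟨a, ⟨b, ?_⟩⟩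
  rw [← hab]
  ring

theorem mem_supp_of_ne (he : LocDec (k := k) Λ q e) {f : A} {m : (A →ₐ[k] k) →₀ ℕ}
    (hprod : Ideal.span {f, q} = (∏ y ∈ m.support, RingHom.ker y ^ m y) ⊔ Ideal.span {q})
    {x : A →ₐ[k] k} (hx : e x f ≠ 0) : x ∈ m.support := by
  have hxq : x q = 0 := by
    by_contra h
    exact hx (he.off x f h)
  have hxf : x f = 0 := by
    by_contra h
    exact hx (he.unit x f h)
  have h1 : ∏ y ∈ m.support, RingHom.ker y ^ m y ≤ RingHom.ker x := by
    intro g hg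
    obtain ⟨d, hd⟩ := exists_of_mem_prod hprod hg
    have h2 := eq_of_dvd hxq hd
    rw [map_mul, hxf, mul_zero] at h2
    exact h2
  obtain ⟨y, hy, hyx⟩ := (Ideal.IsPrime.prod_le (ker_prime x)).1 h1
  have h2 : RingHom.ker y ≤ RingHom.ker x := by
    have := ker_prime x
    exact Ideal.IsPrime.le_of_pow_le hyx
  rw [← eq_of_ker_le h2]
  exact hy

theorem mul_sup_le (I J K : Ideal A) : I * J ⊔ K ≤ I ⊔ K :=
  sup_le_sup_right Ideal.mul_le_left K

theorem local_value (he : LocDec (k := k) Λ q e) (hq : Prime q) {f : A} (hfq : ¬ q ∣ f)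
    {m : (A →ₐ[k] k) →₀ ℕ}
    (hprod : Ideal.span {f, q} = (∏ y ∈ m.support, RingHom.ker y ^ m y) ⊔ Ideal.span {q})
    {x : A →ₐ[k] k} (hx : x ∈ m.support) (hxq : x q = 0) {t : ℚ}
    (ht : ∀ π, Param q x π → t = e x π) : e x f = (m x : ℚ) * t := by
  classical
  obtain ⟨j, hj⟩ : ∃ j, m x = j + 1 :=
    Nat.exists_eq_succ_of_ne_zero (Finsupp.mem_support_iff.1 hx)
  obtain ⟨c, hc, hxc⟩ := exists_mem_rest m x
  have hsplit : ∏ y ∈ m.support, RingHom.ker y ^ m y =
      RingHom.ker x ^ (j + 1) * ∏ y ∈ m.support.erase x, RingHom.ker y ^ m y := by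
    rw [← Finset.mul_prod_erase _ _ hx, hj]
  have h1 : ∀ g ∈ RingHom.ker x ^ (j + 1), ∃ d, q ∣ c * g - d * f := by
    intro g hg
    apply exists_of_mem_prod hprod
    rw [hsplit, mul_comm c g]
    exact Ideal.mul_mem_mul hg hc
  have h2 : f ∈ RingHom.ker x ^ (j + 1) ⊔ Ideal.span {q} := by
    have h1 : f ∈ Ideal.span {f, q} := Ideal.subset_span (Set.mem_insert f {q})
    rw [hprod, hsplit] at h1
    exact mul_sup_le _ _ _ h1
  obtain ⟨π, hπ, a, ha, v, hv, hav⟩ := exists_param hq hxq hxc hfq j h1 h2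
  rw [ht π hπ, hj, ← e_pow he hq x hπ.ndvd, ← e_unit_mul he hxq ha hfq,
    ← e_unit_mul he hxq hv (fun h => hπ.ndvd (hq.dvd_of_dvd_pow h))]
  exact e_congr he x hav

theorem isPsi_of_param (he : LocDec (k := k) Λ q e) (hq : Prime q) {ψ : (A →ₐ[k] k) → ℚ}
    (hψ : ∀ x π, Param q x π → ψ x = e x π) : IsPsiA k q (Λ q) ψ := by
  intro f hf m hm hprod
  have hfq : ¬ q ∣ f := fun h => hf (Ideal.mem_span_singleton.2 h)
  rw [Finsupp.prod] at hprod
  have hsum : ∑ᶠ x, e x f = ∑ x ∈ m.support, e x f := by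
    apply finsum_eq_sum_of_support_subset
    intro x hx
    exact Finset.mem_coe.2 (mem_supp_of_ne he hprod hx)
  rw [he.sum f hf, hsum, Finsupp.sum]
  exact Finset.sum_congr rfl fun x hx => local_value he hq hfq hprod hx (hm x hx) (hψ x)

theorem exists_value (he : LocDec (k := k) Λ q e) (hq : Prime q) (x : A →ₐ[k] k) :
    ∃ t : ℚ, ∀ π, Param q x π → t = e x π := by
  by_cases h : ∃ π, Param q x π
  · obtain ⟨π, hπ⟩ := h
    exact ⟨e x π, fun π' h' => param_unique he hq hπ h'⟩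
  · exact ⟨0, fun π' h' => absurd ⟨π', h'⟩ h⟩

end PsiLoc

theorem psi_of_locDec {k A : Type} [Field k] [IsAlgClosed k] [CommRing A] [IsDomain A]
    [IsNoetherianRing A] [Algebra k A] (s : A) (Λ : A → A → ℚ) (q : A)
    (e : (A →ₐ[k] k) → A → ℚ) (he : LocDec (k := k) Λ q e) (hq : Prime q)
    (hne : ∀ x : A →ₐ[k] k, Ideal.span {q} ≠ RingHom.ker x) :
    ∃ ψ : (A →ₐ[k] k) → ℚ, IsPsiA k q (Λ q) ψ ∧
      ∀ x : A →ₐ[k] k, TransvAt s q x → ψ x = e x (s - algebraMap k A (x s)) := by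
  choose ψ hψ using PsiLoc.exists_value he hq
  exact ⟨ψ, PsiLoc.isPsi_of_param he hq hψ,
    fun x hx => hψ x _ (PsiLoc.param_of_transv hq (hne x) hx)⟩

end Pool.Agent.K1
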