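import Pool.Agent.K1.Bridge
import Pool.Agent.K1.M5charA

/-!
K1-B6: almost all points of a one leaf curve are transversal to the fibres of `s`, and the
quotients of the coordinate ring of the curve by nonzero elements are finite over `k`.
-/

set_option autoImplicit false

open Polynomial

namespace Pool.Agent.K1

section quot

variable {k R : Type*} [Field k] [CommRing R] [IsDomain R] [Algebra k R] [Algebra k[X] R]
  [IsScalarTower k k[X] R] [Module.Finite k[X] R]

/-- A quotient by a nonzero element is finite over `k`. -/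
theorem tf_quot_finite (f : R) (hf : f ≠ 0) : Module.Finite k (R ⧸ Ideal.span {f}) := by
  have hint : IsIntegral k[X] f := Algebra.IsIntegral.isIntegral f
  have hne := Ideal.comap_ne_bot_of_integral_mem (I := Ideal.span {f}) hf
    (Ideal.mem_span_singleton_self f) hint
  obtain ⟨P, hP, hP0⟩ := (Submodule.ne_bot_iff _).1 hne
  let π : R →+* R ⧸ Ideal.span {f} := Ideal.Quotient.mk _
  have hP1 : π (algebraMap k[X] R P) = 0 := Ideal.Quotient.eq_zero_iff_mem.2 hP
  have hfin : Module.Finite k (AdjoinRoot P) := (AdjoinRoot.powerBasis hP0).finite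
  have h1 : (algebraMap k (AdjoinRoot P)).Finite := RingHom.finite_algebraMap.2 hfin
  let g : k[X] →+* R ⧸ Ideal.span {f} := π.comp (algebraMap k[X] R)
  have hg : g.Finite := (RingHom.Finite.of_surjective π Ideal.Quotient.mk_surjective).comp
    (RingHom.finite_algebraMap.2 inferInstance)
  let ψ : AdjoinRoot P →+* R ⧸ Ideal.span {f} := Ideal.Quotient.lift (Ideal.span {P}) g (by
    intro a ha
    obtain ⟨b, rfl⟩ := Ideal.mem_span_singleton'.1 ha
    change π (algebraMap k[X] R (b * P)) = 0
    rw [map_mul, map_mul, hP1, mul_zero])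
  have hψ : ψ.comp (AdjoinRoot.mk P) = g := by
    ext a
    · rfl
    · rfl
  have hψf : ψ.Finite := by
    apply RingHom.Finite.of_comp_finite (f := AdjoinRoot.mk P)
    rw [hψ]
    exact hg
  have h2 := hψf.comp h1
  have h3 : ψ.comp (algebraMap k (AdjoinRoot P)) = algebraMap k (R ⧸ Ideal.span {f}) := by
    ext a
    change π (algebraMap k[X] R (C a)) = π (algebraMap k R a)
    rw [IsScalarTower.algebraMap_apply k k[X] R]
    rfl
  rw [h3] at h2
  exact RingHom.finite_algebraMap.1 h2

end quot

section core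

variable {k R : Type*} [Field k] [CommRing R] [Algebra k R] [Algebra k[X] R]
  [IsScalarTower k k[X] R]

/-- values of a ring homomorphism, for which the inner variable has the value `c`. -/
theorem tf_map_eval {C : Type*} [CommRing C] [Algebra k C] (π : R →ₐ[k] C) (c : k)
    (hc : π (algebraMap k[X] R X) = algebraMap k C c) (Y : R) (P : k[X][X]) :
    π (P.eval₂ (algebraMap k[X] R) Y) = aeval (π Y) (P.map (evalRingHom c)) := by
  have h1 : (π : R →+* C).comp (algebraMap k[X] R) = (algebraMap k C).comp (evalRingHom c) := by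
    apply Polynomial.ringHom_ext
    · intro a
      change π (algebraMap k[X] R (Polynomial.C a)) = algebraMap k C ((Polynomial.C a).eval c)
      rw [eval_C]
      have h2 : algebraMap k[X] R (Polynomial.C a) = algebraMap k R a :=
        (IsScalarTower.algebraMap_apply k k[X] R a).symm
      rw [h2, AlgHom.commutes]
    · change π (algebraMap k[X] R X) = algebraMap k C ((X : k[X]).eval c)
      rw [eval_X, hc]
  change (π : R →+* C) (P.eval₂ (algebraMap k[X] R) Y) = _
  rw [Polynomial.hom_eval₂, h1, aeval_def, eval₂_map]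
  rfl

theorem tf_core (χ : k[X][X]) (Y : R) (hev : χ.eval₂ (algebraMap k[X] R) Y = 0) (h0 : k[X])
    (hh : ∀ f : R, ∃ P : k[X][X], algebraMap k[X] R h0 * f = P.eval₂ (algebraMap k[X] R) Y)
    (x : R →ₐ[k] k)
    (hx : x (algebraMap k[X] R h0 * (derivative χ).eval₂ (algebraMap k[X] R) Y) ≠ 0) :
    RingHom.ker x ≤ Ideal.span {algebraMap k[X] R X - algebraMap k R (x (algebraMap k[X] R X))} ⊔
      (RingHom.ker x) ^ 2 := by
  set c : k := x (algebraMap k[X] R X) with hc
  set η : k := x Y with hη
  set J : Ideal R := Ideal.span {algebraMap k[X] R X - algebraMap k R c} ⊔ (RingHom.ker x) ^ 2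
    with hJ
  let π : R →ₐ[k] R ⧸ J := Ideal.Quotient.mkₐ k J
  have hJx : J ≤ RingHom.ker x := by
    rw [hJ, sup_le_iff]
    constructor
    · rw [Ideal.span_le, Set.singleton_subset_iff]
      change x (algebraMap k[X] R X - algebraMap k R c) = 0
      rw [map_sub, AlgHom.commutes, ← hc]
      exact sub_self c
    · exact Ideal.pow_le_self (by norm_num)
  let xb : (R ⧸ J) →ₐ[k] k := Ideal.Quotient.liftₐ J x (fun a ha => hJx ha)
  have hxb : ∀ r : R, xb (π r) = x r := fun r => rfl
  have hc1 : π (algebraMap k[X] R X) = algebraMap k (R ⧸ J) c := by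
    change Ideal.Quotient.mk J _ = Ideal.Quotient.mk J (algebraMap k R c)
    rw [Ideal.Quotient.eq]
    exact Ideal.mem_sup_left (Ideal.mem_span_singleton_self _)
  have hc2 : x (algebraMap k[X] R X) = algebraMap k k c := rfl
  set ε : R ⧸ J := π Y - algebraMap k (R ⧸ J) η with hε
  have hε2 : ε ^ 2 = 0 := by
    have h1 : ε = π (Y - algebraMap k R η) := by
      rw [map_sub, AlgHom.commutes]
    rw [h1, ← map_pow]
    change Ideal.Quotient.mk J _ = 0
    rw [Ideal.Quotient.eq_zero_iff_mem]
    refine Ideal.mem_sup_right (Ideal.pow_mem_pow ?_ 2)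
    change x (Y - algebraMap k R η) = 0
    rw [map_sub, AlgHom.commutes]
    exact sub_self η
  have hxε : xb ε = 0 := by
    rw [hε, map_sub, hxb, AlgHom.commutes]
    exact sub_self η
  have hY : π Y = algebraMap k (R ⧸ J) η + ε := by
    rw [hε]
    ring
  -- value of a polynomial
  have hval : ∀ P : k[X][X], π (P.eval₂ (algebraMap k[X] R) Y)
      = algebraMap k (R ⧸ J) ((P.map (evalRingHom c)).eval η)
        + algebraMap k (R ⧸ J) ((derivative (P.map (evalRingHom c))).eval η) * ε := by
    intro P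
    rw [tf_map_eval π c hc1, hY, aeval_add_of_sq_eq_zero _ _ _ hε2, aeval_algebraMap_apply,
      aeval_algebraMap_apply, coe_aeval_eq_eval]
  have hvalx : ∀ P : k[X][X], x (P.eval₂ (algebraMap k[X] R) Y)
      = (P.map (evalRingHom c)).eval η := by
    intro P
    rw [tf_map_eval x c hc2, coe_aeval_eq_eval]
  have hh0 : x (algebraMap k[X] R h0) = h0.eval c := by
    have := hvalx (C h0)
    rwa [eval₂_C, map_C, eval_C] at this
  have hh1 : π (algebraMap k[X] R h0) = algebraMap k (R ⧸ J) (h0.eval c) := by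
    have := hval (C h0)
    rwa [eval₂_C, map_C, eval_C, derivative_C, eval_zero, map_zero, zero_mul, add_zero] at this
  rw [map_mul, hh0, hvalx] at hx
  have hne1 : h0.eval c ≠ 0 := left_ne_zero_of_mul hx
  have hne2 : ((derivative χ).map (evalRingHom c)).eval η ≠ 0 := right_ne_zero_of_mul hx
  have hε0 : ε = 0 := by
    have h1 := hval χ
    rw [hev, map_zero] at h1
    have h2 : (χ.map (evalRingHom c)).eval η = 0 := by
      rw [← hvalx, hev, map_zero]
    rw [h2, map_zero, zero_add, derivative_map] at h1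
    have h3 : IsUnit (algebraMap k (R ⧸ J) (((derivative χ).map (evalRingHom c)).eval η)) :=
      (Ne.isUnit hne2).map (algebraMap k (R ⧸ J))
    exact (h3.mul_right_eq_zero).1 h1.symm
  intro f hf
  have hf0 : x f = 0 := hf
  obtain ⟨P, hP⟩ := hh f
  have h1 := congrArg π hP
  rw [map_mul, hh1, hval, hε0, mul_zero, add_zero] at h1
  have h2 := congrArg x hP
  rw [map_mul, hf0, mul_zero, hvalx] at h2
  rw [← h2, map_zero] at h1
  have h3 : IsUnit (algebraMap k (R ⧸ J) (h0.eval c)) :=
    (Ne.isUnit hne1).map (algebraMap k (R ⧸ J))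
  have h4 : π f = 0 := (h3.mul_right_eq_zero).1 h1
  exact Ideal.Quotient.eq_zero_iff_mem.1 h4

end core

section indep

variable {B R : Type*} [CommRing B] [IsDomain B] [CommRing R] [Algebra B R]

/-- Cramer: if `1, Y, .., Y^(n-1)` are independent in the free module `R` of rank `n`, then
a fixed nonzero multiple of each element is a polynomial in `Y`. -/
theorem tf_cramer {n : ℕ} (b : Module.Basis (Fin n) B R) (Y : R)
    (hind : ∀ P : B[X], P.degree < n → P.eval₂ (algebraMap B R) Y = 0 → P = 0) :
    ∃ h0 : B, h0 ≠ 0 ∧ ∀ f : R, ∃ P : B[X],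
      algebraMap B R h0 * f = P.eval₂ (algebraMap B R) Y := by
  classical
  let M : Matrix (Fin n) (Fin n) B := fun i j => b.repr (Y ^ (j : ℕ)) i
  have hM : ∀ v : Fin n → B, M.mulVec v
      = b.repr ((∑ j : Fin n, C (v j) * X ^ (j : ℕ) : B[X]).eval₂ (algebraMap B R) Y) := by
    intro v
    ext i
    rw [Polynomial.eval₂_finsetSum, map_sum, Finsupp.finsetSum_apply]
    change ∑ j, M i j * v j = _
    refine Finset.sum_congr rfl fun j _ => ?_
    rw [eval₂_mul, eval₂_C, eval₂_pow, eval₂_X, ← Algebra.smul_def, map_smul,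
      Finsupp.smul_apply, smul_eq_mul, mul_comm]
  refine ⟨M.det, ?_, ?_⟩
  · intro h
    obtain ⟨v, hv, hv0⟩ := Matrix.exists_mulVec_eq_zero_iff.2 h
    rw [hM] at hv0
    have h1 : (∑ j : Fin n, C (v j) * X ^ (j : ℕ) : B[X]).eval₂ (algebraMap B R) Y = 0 := by
      apply b.repr.injective
      rw [map_zero]
      ext i
      exact congrFun hv0 i
    have h2 := hind _ (degree_sum_fin_lt v) h1
    apply hv
    ext j
    have h3 := congrArg (fun P : B[X] => P.coeff j) h2
    simp only [finsetSum_coeff, coeff_C_mul_X_pow, coeff_zero] at h3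
    rw [Finset.sum_eq_single j] at h3
    · simpa using h3
    · intro i _ hi
      rw [if_neg]
      intro h4
      exact hi (Fin.ext h4.symm)
    · intro h4
      exact absurd (Finset.mem_univ j) h4
  · intro f
    let w : Fin n → B := M.adjugate.mulVec (b.repr f)
    refine ⟨∑ j : Fin n, C (w j) * X ^ (j : ℕ), ?_⟩
    apply b.repr.injective
    ext i
    have h1 := congrFun (hM w) i
    rw [← h1]
    change _ = M.mulVec (M.adjugate.mulVec (b.repr f)) i
    rw [Matrix.mulVec_mulVec, Matrix.mul_adjugate, Matrix.smul_mulVec, Matrix.one_mulVec,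
      ← Algebra.smul_def, map_smul]
    rfl

end indep

theorem transv_finite {k A : Type} [Field k] [IsAlgClosed k] [CommRing A] [Algebra k A]
    [Algebra.FiniteType k A] (s Y q : A) (n z : ℕ) (hn : 2 ≤ n) (hz : 1 ≤ z)
    (hcop : n.Coprime z) (hnk : (n : k) ≠ 0) [IsDomain (A ⧸ Ideal.span {q})]
    (o : OneLeaf k (A ⧸ Ideal.span {q})) (hs : o.wt (Ideal.Quotient.mk _ s) = n)
    (hY : o.wt (Ideal.Quotient.mk _ Y) = z) :
    {x : A →ₐ[k] k | x q = 0 ∧ ¬ Transv s q x}.Finite ∧
    ∀ f ∉ Ideal.span {q}, Module.Finite k (A ⧸ Ideal.span {q, f}) := by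
  classical
  have hnoeth : IsNoetherianRing A := Algebra.FiniteType.isNoetherianRing k A
  obtain ⟨inst, htow, hfree, hfin, halg, hX, hrank, hmon, hdeg, -, hev, huniq⟩ :=
    exists_free o (Ideal.Quotient.mk _ s) (Ideal.Quotient.mk _ Y) n z hn hz hcop hs hY
  set χ := (Algebra.lmul k[X] (A ⧸ Ideal.span {q}) (Ideal.Quotient.mk _ Y)).charpoly with hχ
  clear_value χ
  rw [← halg] at hev
  rw [← halg] at huniq
  -- no relation of small degree
  have hind : ∀ P : k[X][X], P.degree < n →
      P.eval₂ (algebraMap k[X] (A ⧸ Ideal.span {q})) (Ideal.Quotient.mk _ Y) = 0 → P = 0 := by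
    intro P hP hP0
    have hχd : χ.degree = n := by rw [degree_eq_natDegree hmon.ne_zero, hdeg]
    have h1 : (χ + P).Monic := hmon.add_of_left (by rw [hχd]; exact hP)
    have h2 : (χ + P).natDegree = n := by
      have h3 : (χ + P).degree = n := by
        rw [degree_add_eq_left_of_degree_lt (by rw [hχd]; exact hP), hχd]
      exact natDegree_eq_of_degree_eq_some h3
    have h3 := huniq (χ + P) h1 h2 (by rw [eval₂_add, hev, hP0, add_zero])
    have h4 : χ + P = χ + 0 := by rw [h3, add_zero]
    exact add_left_cancel h4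
  obtain ⟨h0, hh0, hh⟩ := tf_cramer (Module.finBasisOfFinrankEq k[X] _ hrank)
    (Ideal.Quotient.mk _ Y) hind
  -- the second part
  have hpart2 : ∀ f ∉ Ideal.span {q}, Module.Finite k (A ⧸ Ideal.span {q, f}) := by
    intro f hf
    have hf0 : Ideal.Quotient.mk (Ideal.span {q}) f ≠ 0 := fun h =>
      hf (Ideal.Quotient.eq_zero_iff_mem.1 h)
    have h1 : Module.Finite k ((A ⧸ Ideal.span {q}) ⧸ Ideal.span {Ideal.Quotient.mk _ f}) :=
      tf_quot_finite _ hf0
    have hle : Ideal.span {q} ≤ Ideal.span {q, f} := Ideal.span_mono (by simp)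
    let F : (A ⧸ Ideal.span {q}) →ₐ[k] A ⧸ Ideal.span {q, f} := Ideal.Quotient.factorₐ k hle
    have hF : Function.Surjective F := Ideal.Quotient.factor_surjective hle
    have hFf : F (Ideal.Quotient.mk _ f) = 0 := by
      change Ideal.Quotient.mk (Ideal.span {q, f}) f = 0
      rw [Ideal.Quotient.eq_zero_iff_mem]
      exact Ideal.subset_span (by simp)
    let F2 : ((A ⧸ Ideal.span {q}) ⧸ Ideal.span {Ideal.Quotient.mk (Ideal.span {q}) f}) →ₐ[k]
        A ⧸ Ideal.span {q, f} := Ideal.Quotient.liftₐ _ F (by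
      intro a ha
      obtain ⟨b, rfl⟩ := Ideal.mem_span_singleton'.1 ha
      rw [map_mul, hFf, mul_zero])
    have hF2 : Function.Surjective F2 := by
      intro y
      obtain ⟨r, hr⟩ := hF y
      exact ⟨Ideal.Quotient.mk _ r, hr⟩
    exact Module.Finite.of_surjective F2.toLinearMap hF2
  refine ⟨?_, hpart2⟩
  -- the derivative of χ
  have hder : (derivative χ).eval₂ (algebraMap k[X] (A ⧸ Ideal.span {q}))
      (Ideal.Quotient.mk _ Y) ≠ 0 := by
    intro h
    have h1 := hind (derivative χ) (by
      have h2 : (derivative χ).degree < χ.degree := degree_derivative_lt hmon.ne_zero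
      rwa [degree_eq_natDegree hmon.ne_zero, hdeg] at h2) h
    have h2 := congrArg (fun P : k[X][X] => P.coeff (n - 1)) h1
    simp only [coeff_derivative, coeff_zero] at h2
    have h3 : n - 1 + 1 = n := by omega
    have h4 : χ.coeff n = 1 := by
      rw [← hdeg]
      exact hmon.coeff_natDegree
    rw [h3, h4, one_mul] at h2
    have h5 : ((n : ℕ) : k[X]) = 0 := by
      rw [← h3]
      push_cast
      exact h2
    have h6 : C ((n : ℕ) : k) = 0 := by
      rw [← h5]
      simp
    exact hnk (C_eq_zero.1 h6)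
  set dd : A ⧸ Ideal.span {q} := algebraMap k[X] _ h0 *
    (derivative χ).eval₂ (algebraMap k[X] (A ⧸ Ideal.span {q})) (Ideal.Quotient.mk _ Y) with hdd
  have hdd0 : dd ≠ 0 := by
    refine mul_ne_zero ?_ hder
    intro h
    have h1 := hind (C h0) (lt_of_le_of_lt degree_C_le (by exact_mod_cast (by omega : 0 < n)))
      (by rw [eval₂_C, h])
    exact hh0 (C_eq_zero.1 h1)
  obtain ⟨D, hD⟩ := Ideal.Quotient.mk_surjective dd
  have hD0 : D ∉ Ideal.span {q} := by
    intro h
    apply hdd0
    rw [← hD]
    exact Ideal.Quotient.eq_zero_iff_mem.2 h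
  have hfinI : Module.Finite k (A ⧸ Ideal.span {q, D}) := hpart2 D hD0
  have hfin3 : Finite ((A ⧸ Ideal.span {q, D}) →ₐ[k] k) := inferInstance
  refine (Set.finite_range (fun x' : (A ⧸ Ideal.span {q, D}) →ₐ[k] k =>
    x'.comp (Ideal.Quotient.mkₐ k (Ideal.span {q, D})))).subset ?_
  rintro x ⟨hxq, hnT⟩
  have hker : Ideal.span {q} ≤ RingHom.ker x := by
    rw [Ideal.span_le, Set.singleton_subset_iff]
    exact hxq
  let xb : (A ⧸ Ideal.span {q}) →ₐ[k] k := Ideal.Quotient.liftₐ _ x (fun a ha => hker ha)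
  have hxb : ∀ a : A, xb (Ideal.Quotient.mk _ a) = x a := fun a => rfl
  have hxD : x D = 0 := by
    by_contra hne
    apply hnT
    rw [← transvAt_iff_transv s q x hxq]
    refine ⟨hxq, ?_⟩
    have h1 := tf_core χ (Ideal.Quotient.mk _ Y) hev h0 hh xb (by
      rw [← hdd, ← hD, hxb]
      exact hne)
    rw [hX, hxb] at h1
    intro f hf
    have h2 : Ideal.Quotient.mk (Ideal.span {q}) f ∈ RingHom.ker xb := hf
    have h3 := h1 h2
    have h4 : f ∈ Ideal.comap (Ideal.Quotient.mk (Ideal.span {q}))
        (Ideal.map (Ideal.Quotient.mk (Ideal.span {q}))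
          (Ideal.span {q, s - algebraMap k A (x s)} ⊔ (RingHom.ker x) ^ 2)) := by
      rw [Ideal.mem_comap, Ideal.map_sup]
      refine SetLike.le_def.1 (sup_le_sup ?_ ?_) h3
      · rw [Ideal.span_le, Set.singleton_subset_iff]
        have h5 : (Ideal.Quotient.mk (Ideal.span {q})) (s - algebraMap k A (x s))
            ∈ Ideal.map (Ideal.Quotient.mk (Ideal.span {q}))
              (Ideal.span {q, s - algebraMap k A (x s)}) :=
          Ideal.mem_map_of_mem _ (Ideal.subset_span (by simp))
        exact h5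
      · rw [Ideal.map_pow]
        apply Ideal.pow_right_mono
        intro r hr
        obtain ⟨a, rfl⟩ := Ideal.Quotient.mk_surjective r
        exact Ideal.mem_map_of_mem _ hr
    rw [Ideal.comap_map_of_surjective _ Ideal.Quotient.mk_surjective] at h4
    have h6 : Ideal.comap (Ideal.Quotient.mk (Ideal.span {q})) ⊥ = Ideal.span {q} := by
      rw [← RingHom.ker_eq_comap_bot, Ideal.mk_ker]
    rw [h6] at h4
    refine SetLike.le_def.1 (sup_le le_rfl ?_) h4
    refine le_trans ?_ le_sup_left
    exact Ideal.span_mono (by simp)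
  refine ⟨Ideal.Quotient.liftₐ _ x ?_, ?_⟩
  · intro a ha
    have h1 : Ideal.span {q, D} ≤ RingHom.ker x := by
      rw [Ideal.span_le]
      rintro y hy
      rcases hy with rfl | rfl
      · exact hxq
      · exact hxD
    exact h1 ha
  · ext a
    rfl

end Pool.Agent.K1
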