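import Pool.Agent.K1.LocFormula
import Pool.Agent.K1.GenPos
import Pool.Agent.K1.LocDec
import Pool.Agent.K1.Bridge
import Pool.Agent.K1.Wlt
import Pool.Agent.K1.M6top
import Pool.Agent.K1.M6
import Pool.Agent.K1.DefsR
import Pool.Agent.K1.TransvFin
import Pool.Agent.K1.Wlt2
import Pool.Agent.K1.PsiLoc
import Pool.Agent.K1.DerivAlt

/-!
K1-B8: the local formula for the class of curves near a curve `q₀` of the class `V(n, M)`.
-/

set_option autoImplicit false

open Polynomial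

namespace Pool.Agent.K1

namespace NearFormula

section jets

variable {k A : Type} [Field k] [CommRing A] [Algebra k A]

/-- the ideal of a point is generated by the `h - h(x)`, `h` in a set of generators -/
theorem sub_mem_span (H : Finset A) (hH : Algebra.adjoin k (H : Set A) = ⊤) (x : A →ₐ[k] k)
    (f : A) : f - algebraMap k A (x f) ∈
      Ideal.span ((fun h => h - algebraMap k A (x h)) '' (H : Set A)) := by
  have hf : f ∈ Algebra.adjoin k (H : Set A) := by
    rw [hH]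
    trivial
  induction hf using Algebra.adjoin_induction with
  | mem a ha => exact Ideal.subset_span ⟨a, ha, rfl⟩
  | algebraMap r =>
    rw [AlgHom.commutes, Algebra.algebraMap_self, RingHom.id_apply, sub_self]
    exact Ideal.zero_mem _
  | add a b _ _ ha hb =>
    have h1 : a + b - algebraMap k A (x (a + b)) =
        (a - algebraMap k A (x a)) + (b - algebraMap k A (x b)) := by
      rw [map_add, map_add]
      ring
    rw [h1]
    exact Ideal.add_mem _ ha hb
  | mul a b _ _ ha hb =>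
    have h1 : a * b - algebraMap k A (x (a * b)) =
        b * (a - algebraMap k A (x a)) + algebraMap k A (x a) * (b - algebraMap k A (x b)) := by
      rw [map_mul, map_mul]
      ring
    rw [h1]
    exact Ideal.add_mem _ (Ideal.mul_mem_left _ _ ha) (Ideal.mul_mem_left _ _ hb)

theorem const_mem_prods (H : Finset A) (m : ℕ) (c : k) : algebraMap k A c ∈ GenPos.Prods k H m := by
  rw [Algebra.algebraMap_eq_smul_one]
  exact Submodule.smul_mem _ _ (Submodule.subset_span ⟨[], by simp, by simp, by simp⟩)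

/-- jets are represented by products of at most `J` generators -/
theorem exists_jet (H : Finset A) (hH : Algebra.adjoin k (H : Set A) = ⊤) (x : A →ₐ[k] k)
    (J : ℕ) : ∀ f : A, ∃ g ∈ GenPos.Prods k H J, f - g ∈ RingHom.ker x ^ J := by
  induction J with
  | zero =>
    intro f
    exact ⟨0, Submodule.zero_mem _, by simp⟩
  | succ J ih =>
    intro f
    have key : ∀ y ∈ Ideal.span ((fun h => h - algebraMap k A (x h)) '' (H : Set A)), ∀ a : A,
        ∃ g ∈ GenPos.Prods k H (J + 1), a * y - g ∈ RingHom.ker x ^ (J + 1) := by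
      intro y hy
      induction hy using Submodule.span_induction with
      | mem y hy =>
        obtain ⟨h, hh, rfl⟩ := hy
        intro a
        obtain ⟨g, hg, hr⟩ := ih a
        refine ⟨h * g - x h • g, Submodule.sub_mem _ (GenPos.prods_mul H J h hh g hg)
          (Submodule.smul_mem _ _ (GenPos.prods_mono H (Nat.le_succ J) hg)), ?_⟩
        have h1 : a * (h - algebraMap k A (x h)) - (h * g - x h • g) =
            (a - g) * (h - algebraMap k A (x h)) := by
          rw [Algebra.smul_def]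
          ring
        change a * (h - algebraMap k A (x h)) - (h * g - x h • g) ∈ _
        rw [h1, pow_succ]
        refine Ideal.mul_mem_mul hr ?_
        rw [RingHom.mem_ker, map_sub, AlgHom.commutes, Algebra.algebraMap_self,
          RingHom.id_apply, sub_self]
      | zero =>
        intro a
        refine ⟨0, Submodule.zero_mem _, ?_⟩
        rw [mul_zero, sub_zero]
        exact Ideal.zero_mem _
      | add y y' _ _ hy hy' =>
        intro a
        obtain ⟨g, hg, hr⟩ := hy a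
        obtain ⟨g', hg', hr'⟩ := hy' a
        refine ⟨g + g', Submodule.add_mem _ hg hg', ?_⟩
        have h1 : a * (y + y') - (g + g') = (a * y - g) + (a * y' - g') := by ring
        rw [h1]
        exact Ideal.add_mem _ hr hr'
      | smul b y _ hy =>
        intro a
        obtain ⟨g, hg, hr⟩ := hy (a * b)
        refine ⟨g, hg, ?_⟩
        rwa [smul_eq_mul, ← mul_assoc]
    obtain ⟨g, hg, hr⟩ := key _ (sub_mem_span H hH x f) 1
    refine ⟨g + algebraMap k A (x f), Submodule.add_mem _ hg (const_mem_prods H _ _), ?_⟩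
    have h1 : f - (g + algebraMap k A (x f)) = 1 * (f - algebraMap k A (x f)) - g := by ring
    rw [h1]
    exact hr

theorem prods_finite (H : Finset A) (m : ℕ) :
    {b : A | ∃ l : List A, l.length ≤ m ∧ (∀ a ∈ l, a ∈ H) ∧ b = l.prod}.Finite := by
  have h1 : {l : List H | l.length ≤ m}.Finite := List.finite_length_le H m
  refine (h1.image fun l => (l.map Subtype.val).prod).subset ?_
  rintro b ⟨l, hl, hlH, rfl⟩
  lift l to List {a : A // a ∈ H} using hlH
  exact ⟨l, by simpa using hl, rfl⟩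

end jets

section indep

variable {k A : Type} [Field k] [CommRing A] [Algebra k A] (E : SectionExp k A)

open SectionExp in
/-- `s` and an element with a pole along the section are algebraically independent -/
theorem evT_ne_zero {j : ℕ} (hj : 1 ≤ j) {u : A} (hu : E.MonicAt j u) (P : k[X][X])
    (hP : E.evT u P = 0) : P = 0 := by
  by_contra hne
  have h1 : E.evT u P = ∑ i ∈ Finset.range (P.natDegree + 1), aeval E.s (P.coeff i) * u ^ i := by
    unfold evT
    rw [coe_eval₂RingHom, eval₂_eq_sum_range]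
    rfl
  have h2 := congrArg (fun f => E.co f (-((j * P.natDegree : ℕ) : ℤ))) (h1.symm.trans hP)
  beta_reduce at h2
  rw [M6b.co_sum, M6b.co_zero, Finset.sum_range_succ, Finset.sum_eq_zero, zero_add,
    M6b.co_aeval_mul, (M6b.monicAt_pow E hu P.natDegree).1, mul_one] at h2
  · exact hne (leadingCoeff_eq_zero.1 h2)
  · intro i hi
    rw [M6b.co_aeval_mul, (M6b.monicAt_pow E hu i).2, mul_zero]
    have h3 : j * i < j * P.natDegree :=
      Nat.mul_lt_mul_of_pos_left (Finset.mem_range.1 hi) hj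
    omega

theorem algebraicIndependent {j : ℕ} (hj : 1 ≤ j) {u : A} (hu : E.MonicAt j u) :
    AlgebraicIndependent k ![E.s, u] := by
  rw [algebraicIndependent_iff]
  intro P hP
  let φ : MvPolynomial (Fin 2) k →ₐ[k] k[X][X] := MvPolynomial.aeval ![C X, X]
  let ψ : k[X][X] →+* MvPolynomial (Fin 2) k := eval₂RingHom
    ((aeval (MvPolynomial.X 0 : MvPolynomial (Fin 2) k) : k[X] →ₐ[k] MvPolynomial (Fin 2) k) :
      k[X] →+* MvPolynomial (Fin 2) k) (MvPolynomial.X 1)
  have h1 : ψ.comp (φ : MvPolynomial (Fin 2) k →+* k[X][X]) = RingHom.id _ := by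
    apply MvPolynomial.ringHom_ext
    · intro r
      simp [φ, ψ]
    · intro i
      fin_cases i <;> simp [φ, ψ]
  have h2 : (E.evT u).comp (φ : MvPolynomial (Fin 2) k →+* k[X][X]) =
      ((MvPolynomial.aeval ![E.s, u] : MvPolynomial (Fin 2) k →ₐ[k] A) :
        MvPolynomial (Fin 2) k →+* A) := by
    apply MvPolynomial.ringHom_ext
    · intro r
      simp [φ, SectionExp.evT]
    · intro i
      fin_cases i <;> simp [φ, SectionExp.evT]
  have h3 : E.evT u (φ P) = 0 := by
    have h4 := RingHom.congr_fun h2 P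
    exact h4.trans hP
  have h4 := evT_ne_zero E hj hu _ h3
  have h5 := RingHom.congr_fun h1 P
  have h6 : ψ (φ P) = P := h5
  rw [← h6, h4, map_zero]

end indep

/-- the curves of the class are not points -/
theorem span_ne_ker {k A : Type} [Field k] [CommRing A] [Algebra k A] {s q : A} {n : ℕ}
    (hn : 1 ≤ n) [IsDomain (A ⧸ Ideal.span {q})] (o : OneLeaf k (A ⧸ Ideal.span {q}))
    (hs : o.wt (Ideal.Quotient.mk _ s) = n) (x : A →ₐ[k] k) :
    Ideal.span {q} ≠ RingHom.ker x := by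
  intro h
  have h1 : s - algebraMap k A (x s) ∈ Ideal.span {q} := by
    rw [h, RingHom.mem_ker, map_sub, AlgHom.commutes, Algebra.algebraMap_self,
      RingHom.id_apply, sub_self]
  have h2 : Ideal.Quotient.mk (Ideal.span {q}) s =
      algebraMap k (A ⧸ Ideal.span {q}) (x s) := by
    rw [← sub_eq_zero, IsScalarTower.algebraMap_apply k A (A ⧸ Ideal.span {q}),
      Ideal.Quotient.algebraMap_eq, ← map_sub]
    exact Ideal.Quotient.eq_zero_iff_mem.2 h1
  have h3 : o.wt (algebraMap k (A ⧸ Ideal.span {q}) (x s)) = 0 := by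
    rcases eq_or_ne (x s) 0 with h0 | h0
    · rw [h0, map_zero, o.wt_zero]
    · have h4 := o.wt_mul (algebraMap k (A ⧸ Ideal.span {q}) (x s))
        (algebraMap k (A ⧸ Ideal.span {q}) (x s)⁻¹)
        ((map_ne_zero_iff _ (algebraMap k (A ⧸ Ideal.span {q})).injective).2 h0)
        ((map_ne_zero_iff _ (algebraMap k (A ⧸ Ideal.span {q})).injective).2 (inv_ne_zero h0))
      rw [← map_mul, mul_inv_cancel₀ h0, map_one, o.wt_one] at h4
      omega
  rw [h2, h3] at hs
  omega

end NearFormula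

open NearFormula in
/-- K1-B8. The local formula for the curves near a curve `q₀` of the class `V(n, M)`, `n` a power
of a prime `r` different from the characteristic, `M` prime to `r`. -/
theorem formula_near_R (p r : ℕ) [Fact p.Prime] (hr : r.Prime) (hrp : r ≠ p) {k A : Type}
    [Field k] [IsAlgClosed k]
    [CharP k p] [Algebra (ZMod p) k] [Algebra.IsAlgebraic (ZMod p) k] [CommRing A] [IsDomain A]
    [Algebra k A] [IsRegularRing A] (hdim : ringKrullDim A = 2) (E : SectionExp k A)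
    (hcore : ∃ c₀ μ₀ n₀ : ℕ, K1CoreConclR r E c₀ μ₀ n₀) :
    ∃ c₀ μ₀ : ℕ, ∀ L : ℕ, ∃ n₀ : ℕ, ∀ e n M : ℕ, n = r ^ e → n₀ ≤ n → r.Coprime M → μ₀ * n ≤ M →
      (∀ d : A, E.InV n M d → Prime d) ∧ ∀ q₀ : A, E.InV n M q₀ →
        (∀ a : A, E.WLt n M (((n * M : ℕ) : ℤ) - ((c₀ * n : ℕ) : ℤ)) (a - q₀) →
          E.InV n M a ∧ Prime a ∧
            ∀ f ∉ Ideal.span {a}, Module.Finite k (A ⧸ Ideal.span {a, f})) ∧
        ∀ Λ : A → A → ℚ, CurveFun {d | E.InV n M d} Λ →
          (∀ f g : A, E.InV n M f → E.InV n M g → f ∉ Ideal.span {g} → g ∉ Ideal.span {f} →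
            Λ f g = Λ g f) →
          ∃ u : (A →ₐ[k] k) → ℚ,
            ∀ a : A, E.WLt n M (((n * M : ℕ) : ℤ) - ((c₀ * n : ℕ) : ℤ)) (a - q₀) →
              ∀ f ∉ Ideal.span {a}, (∀ x : A →ₐ[k] k, lenAt x a f ≤ L) →
                Λ a f = ∑ᶠ x, u x * ((lenAt x a f).toNat : ℚ) := by
  classical
  have hft : Algebra.FiniteType k A := E.finiteType
  have hnoeth : IsNoetherianRing A := E.isNoetherianRing
  obtain ⟨c₀, μ₀, N₀, hK⟩ := hcore
  obtain ⟨μ₁, hleaf⟩ := SectionExp.M6_leaf E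
  obtain ⟨μ₂, j₁, htop⟩ := SectionExp.exists_top E
  obtain ⟨μ₃, hdvd⟩ := eq_zero_of_dvd_wlt E
  obtain ⟨μ₄, hfix⟩ := wlt_fixed E
  obtain ⟨H, hH⟩ := hft.out
  -- a derivation over the base
  obtain ⟨j₀, hj₀⟩ := E.mono
  obtain ⟨w, hw⟩ := hj₀ (j₀ + 1) (by omega)
  obtain ⟨D, hDs, hD0⟩ := DerivAlt.exists_deriv E.s w (NearFormula.algebraicIndependent E (by omega) hw)
  have hDH : ∃ h ∈ H, D h ≠ 0 := by
    by_contra hcon
    push Not at hcon
    apply hD0
    apply Derivation.ext_of_adjoin_eq_top (H : Set A) hH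
    intro h hh
    simpa using hcon h hh
  refine ⟨c₀, μ₀ + μ₁ + μ₂ + μ₃ + μ₄ + 1, fun L => ?_⟩
  -- the small elements
  obtain ⟨G, hG⟩ : ∃ G : Finset A, G = ((prods_finite H (L + 1 + 1)).toFinset ∪ H ∪ {1} ∪
    H.image D) := ⟨_, rfl⟩
  obtain ⟨e₀, P, hfixG⟩ := hfix G
  refine ⟨N₀ + 2 * P + 2 * (c₀ + e₀) + r * j₁ + 2, ?_⟩
  intro e n M hne hn₀ hM hμ
  have hn1 : 1 ≤ n := by omega
  have hn2 : 2 ≤ n := by omega
  have hle : ∀ μ : ℕ, μ ≤ μ₀ + μ₁ + μ₂ + μ₃ + μ₄ + 1 → μ * n ≤ M := fun μ h =>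
    le_trans (Nat.mul_le_mul_right n h) hμ
  have hnM : n ≤ M := by simpa using hle 1 (by omega)
  obtain ⟨-, z, hz1, hz2, hKz⟩ := hK e n M hne (by omega) hM (hle μ₀ (by omega))
  have hsmall : ∀ g ∈ Submodule.span k (G : Set A),
      E.WLt n M (((n * M : ℕ) : ℤ) - ((c₀ * n : ℕ) : ℤ)) g := by
    intro g hg
    refine wlt_mono E ?_ (hfixG n M hn1 (hle μ₄ (by omega)) g hg)
    have h1 : 2 * (P * M) ≤ n * M := by
      rw [← mul_assoc]
      exact Nat.mul_le_mul_right M (by omega)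
    have h2 : 2 * (c₀ + e₀) * n ≤ n * M := by
      rw [mul_comm n M]
      exact Nat.mul_le_mul_right n (by omega)
    have h3 : n * e₀ + M * P + c₀ * n ≤ n * M := by nlinarith
    have h4 : ((n * e₀ + M * P : ℕ) : ℤ) + ((c₀ * n : ℕ) : ℤ) ≤ ((n * M : ℕ) : ℤ) := by
      exact_mod_cast h3
    linarith
  have hz2' : ((n * M : ℕ) : ℤ) - ((c₀ * n : ℕ) : ℤ) ≤ (z : ℤ) := by
    have h1 : ((n * M : ℕ) : ℤ) < ((z + c₀ * n : ℕ) : ℤ) := by exact_mod_cast hz2
    push_cast at h1 ⊢
    linarith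
  have hz1' : (z : ℤ) ≤ ((n * M : ℕ) : ℤ) := by exact_mod_cast hz1.le
  -- the auxiliary element
  have hrj : j₁ ≤ r * j₁ := Nat.le_mul_of_pos_left _ hr.pos
  obtain ⟨Y, hY⟩ := htop n M hn1 (hle μ₂ (by omega)) 0 (r * j₁ + 1) (by omega)
  have hcopM : n.Coprime M := by
    rw [hne]
    exact Nat.Coprime.pow_left e hM
  have hcopz : n.Coprime (n * 0 + M * (r * j₁ + 1)) := by
    rw [mul_zero, zero_add]
    refine Nat.Coprime.mul_right hcopM ?_
    rw [hne]
    refine Nat.Coprime.pow_left e ?_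
    rw [Nat.coprime_mul_left_add_right]
    exact Nat.coprime_one_right r
  have hMpos : 0 < M := by omega
  have hzlt : n * 0 + M * (r * j₁ + 1) < n * M := by
    rw [mul_zero, zero_add, mul_comm n M]
    exact Nat.mul_lt_mul_of_pos_left (by omega) hMpos
  have hnk : (n : k) ≠ 0 := by
    rw [hne, Nat.cast_pow]
    apply pow_ne_zero
    intro h1
    rw [CharP.cast_eq_zero_iff k p r] at h1
    exact hrp ((Nat.prime_dvd_prime_iff_eq (Fact.out : p.Prime) hr).1 h1).symm
  -- geometric properties of the curves of the class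
  have hcl : ∀ q : A, E.InV n M q → q ≠ 0 ∧ Prime q ∧
      (∀ x : A →ₐ[k] k, Ideal.span {q} ≠ RingHom.ker x) ∧
      {x : A →ₐ[k] k | x q = 0 ∧ ¬ Transv E.s q x}.Finite ∧
      (∀ f ∉ Ideal.span {q}, Module.Finite k (A ⧸ Ideal.span {q, f})) ∧
      IsDomain (A ⧸ Ideal.span {q}) ∧ Nonempty (OneLeaf k (A ⧸ Ideal.span {q})) := by
    intro q hq
    have hq0 : q ≠ 0 := by
      rintro rfl
      have h1 := (hq.monicAt hn1).1
      rw [SectionExp.co_zero] at h1
      exact zero_ne_one h1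
    obtain ⟨hdom, o, hos, hoY⟩ := hleaf n M 0 (r * j₁ + 1) hn2 hcopM (hle μ₁ (by omega))
      (by omega) (by omega) hcopz hzlt q Y hq hY
    obtain ⟨h1, h2⟩ := transv_finite E.s Y q n _ hn2
      (by rw [mul_zero, zero_add]; exact Nat.mul_pos hMpos (by omega)) hcopz hnk o hos hoY
    exact ⟨hq0, prime_of_isDomain_quot q hq0 hdom, span_ne_ker hn1 o hos, h1, h2, hdom, ⟨o⟩⟩
  refine ⟨fun d hd => (hcl d hd).2.1, ?_⟩
  intro q₀ hq₀
  -- the class near `q₀`
  have hVin : ∀ q ∈ E.Near n M z q₀, E.InV n M q := by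
    intro q hq
    have h1 := inV_add_wlt E hq₀ (wlt_mono E hz1' hq)
    rwa [add_sub_cancel] at h1
  refine ⟨fun a ha => ⟨hVin a (wlt_mono E hz2' ha), (hcl a (hVin a (wlt_mono E hz2' ha))).2.1,
    (hcl a (hVin a (wlt_mono E hz2' ha))).2.2.2.2.1⟩, ?_⟩
  intro Λ hΛ hsymm
  -- local decompositions
  have hec : ∀ q : A, ∃ eq : (A →ₐ[k] k) → A → ℚ,
      E.InV n M q → LocDec (k := k) Λ q eq := by
    intro q
    by_cases h : E.InV n M q
    · obtain ⟨-, -, -, -, h2, hdom, ⟨o⟩⟩ := hcl q h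
      obtain ⟨eq, heq⟩ := exists_locDec' p Λ q (hΛ.mul q h)
        (fun f t hf => by
          have h3 := hΛ.congr q h f (f + q * t) hf (by
            have h4 : f - (f + q * t) = q * (-t) := by ring
            rw [h4]
            exact Ideal.mul_mem_right _ _ (Ideal.mem_span_singleton_self q))
          exact h3.symm) o h2
      exact ⟨eq, fun _ => heq⟩
    · exact ⟨fun _ _ => 0, fun h' => absurd h' h⟩
  choose e' he' using hec
  -- the functionals computed by points
  have hψ : ∀ q : A, ∃ ψ : (A →ₐ[k] k) → ℚ, E.InV n M q → IsPsiA k q (Λ q) ψ ∧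
      ∀ x : A →ₐ[k] k, TransvAt E.s q x →
        ψ x = e' q x (E.s - algebraMap k A (x E.s)) := by
    intro q
    by_cases h : E.InV n M q
    · obtain ⟨ψ, hψ⟩ := psi_of_locDec E.s Λ q (e' q) (he' q h) (hcl q h).2.1 (hcl q h).2.2.1
      exact ⟨ψ, fun _ => hψ⟩
    · exact ⟨fun _ => 0, fun h' => absurd h' h⟩
  choose Ψ hΨ using hψ
  obtain ⟨u₀, hu₀⟩ := hKz q₀ hq₀ Λ hΛ Ψ fun d hd => (hΨ d hd).1
  -- the class near `q₀`, continued
  have hVn : ∀ q ∈ E.Near n M z q₀, ∀ q' ∈ E.Near n M z q₀, q' ∈ Ideal.span {q} → q' = q := by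
    intro q hq q' hq' hqq
    have h1 : q ∣ q' - q := dvd_sub (Ideal.mem_span_singleton.1 hqq) dvd_rfl
    have h2 : E.WLt n M ((n * M : ℕ) : ℤ) (q' - q) := by
      have h3 : q' - q = (q' - q₀) + -(q - q₀) := by ring
      rw [h3]
      exact wlt_mono E hz1' (wlt_add E hq' (wlt_neg E hq))
    exact sub_eq_zero.1 (hdvd n M hn1 (hle μ₃ (by omega)) q _ (hVin q hq) h2 h1)
  have hVadd : ∀ q ∈ E.Near n M z q₀, ∀ g ∈ Submodule.span k (G : Set A),
      q + g ∈ E.Near n M z q₀ := by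
    intro q hq g hg
    change E.WLt n M z (q + g - q₀)
    have h3 : q + g - q₀ = (q - q₀) + g := by ring
    rw [h3]
    exact wlt_add E hq (wlt_mono E hz2' (hsmall g hg))
  have hq₀V : q₀ ∈ E.Near n M z q₀ := by
    change E.WLt n M z (q₀ - q₀)
    rw [sub_self]
    exact wlt_zero E
  have hPG : GenPos.Prods k H (L + 1 + 1) ≤ Submodule.span k (G : Set A) := by
    apply Submodule.span_mono
    intro b hb
    rw [hG]
    simp only [Finset.coe_union, Set.Finite.coe_toFinset]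
    exact Or.inl (Or.inl (Or.inl hb))
  have hHG : ∀ h ∈ H, ∀ c : k, h - algebraMap k A c ∈ Submodule.span k (G : Set A) := by
    intro h hh c
    refine Submodule.sub_mem _ (Submodule.subset_span ?_) ?_
    · rw [hG]
      simp [hh]
    · rw [Algebra.algebraMap_eq_smul_one]
      refine Submodule.smul_mem _ _ (Submodule.subset_span ?_)
      rw [hG]
      simp
  have hDG : ∀ h ∈ H, D h ∈ Submodule.span k (G : Set A) := by
    intro h hh
    apply Submodule.subset_span
    rw [hG]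
    simp only [Finset.coe_union, Finset.coe_image]
    exact Or.inr ⟨h, hh, rfl⟩
  have hsm0 : ∀ f ∈ E.Near n M z q₀, ∀ g ∈ Submodule.span k (G : Set A),
      g ∈ Ideal.span {f} → g = 0 := by
    intro f hf g hg hgf
    refine hdvd n M hn1 (hle μ₃ (by omega)) f g (hVin f hf) ?_ (Ideal.mem_span_singleton.1 hgf)
    refine wlt_mono E ?_ (hsmall g hg)
    have : (0 : ℤ) ≤ ((c₀ * n : ℕ) : ℤ) := Int.natCast_nonneg _
    linarith
  have hjet : ∀ (x : A →ₐ[k] k) (f : A), ∃ f' ∈ E.Near n M z q₀,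
      f' - f ∈ RingHom.ker x ^ (L + 1) := by
    intro x f
    obtain ⟨g, hg, hgr⟩ := NearFormula.exists_jet H hH x (L + 1) (f - q₀)
    refine ⟨q₀ + g, hVadd q₀ hq₀V g (hPG (GenPos.prods_mono H (Nat.le_succ _) hg)), ?_⟩
    have h1 : q₀ + g - f = -(f - q₀ - g) := by ring
    rw [h1]
    exact Submodule.neg_mem _ hgr
  have hpar : ∀ x : A →ₐ[k] k, ∃ S Y : LocAt x,
      IsLocalRing.maximalIdeal (LocAt x) = Ideal.span {S, Y} ∧ S ≠ 0 ∧
      (∀ n : ℕ, ¬ S ∣ Y ^ n) ∧
      ∀ T : LocAt x, IsLocalRing.maximalIdeal (LocAt x) ≠ Ideal.span {T} := by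
    intro x
    obtain ⟨f', hf', hj⟩ := hjet x 0
    have hx : x f' = 0 := by
      have h1 : f' - 0 ∈ RingHom.ker x := Ideal.pow_le_self (by omega) hj
      rwa [sub_zero, RingHom.mem_ker] at h1
    have hc := hcl f' (hVin f' hf')
    exact exists_params hdim x f' hc.1 ((Ideal.span_singleton_prime hc.1).2 hc.2.1) hx
      (hc.2.2.1 x)
  have hprime : ∀ q ∈ E.Near n M z q₀, (Ideal.span {q}).IsPrime := fun q hq =>
    (Ideal.span_singleton_prime (hcl q (hVin q hq)).1).2 (hcl q (hVin q hq)).2.1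
  obtain ⟨u, hu⟩ := local_formula_rel E.s (E.Near n M z q₀) Λ
    (fun f hf g hg h1 h2 => hsymm f g (hVin f hf) (hVin g hg) h2 h1) e' L (L + 1)
    (Nat.lt_succ_self L) hprime hVn (fun q hq => he' q (hVin q hq))
    (fun f hf => (hcl f (hVin f hf)).2.2.2.1)
    (by
      intro q hq q' hq' x hxq hxq' ht ht'
      have h1 := (transvAt_iff_transv E.s q x hxq).2 ht
      have h2 := (transvAt_iff_transv E.s q' x hxq').2 ht'
      rw [← (hΨ q (hVin q hq)).2 x h1, ← (hΨ q' (hVin q' hq')).2 x h2, hu₀ q hq x h1,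
        hu₀ q' hq' x h2])
    (fun x => by
      obtain ⟨S, Y', h1, h2, h3, -⟩ := hpar x
      exact ⟨S, Y', h1, h2, h3⟩)
    hjet
    (by
      intro F hF g hg hgF x Z hxZ
      obtain ⟨t, ht, htx, htZ, htT⟩ := general_position E.s D hDs H hH hDH
        (fun x => by
          obtain ⟨S, Y', h1, -, -, -⟩ := hpar x
          exact ⟨S, Y', h1⟩)
        (fun x => by
          obtain ⟨S, Y', -, -, -, h4⟩ := hpar x
          exact h4)
        (L + 1) F g (fun f hf => hprime f (hF f hf))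
        (fun f hf => (he' f (hVin f (hF f hf))).fin)
        (fun f hf => (hcl f (hVin f (hF f hf))).2.2.2.1)
        (fun f hf h hh c hc => sub_eq_zero.1 (hsm0 f (hF f hf) _ (hHG h hh c) hc))
        (fun f hf h hh hc => hsm0 f (hF f hf) _ (hDG h hh) hc)
        (fun f hf hgf => hgF ((hVn f (hF f hf) g hg hgf).symm ▸ hf)) x Z hxZ
      refine ⟨g + t, hVadd g hg t (hPG ht), ?_, htZ, htT⟩
      rwa [add_sub_cancel_left])
  refine ⟨u, ?_⟩
  intro a ha f hf hL
  have haV : a ∈ E.Near n M z q₀ := wlt_mono E hz2' ha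
  rw [(he' a (hVin a haV)).sum f hf]
  exact finsum_congr fun x => hu a haV f hf x (hL x)

/-- K1-B8, for `r = 2`. -/
theorem formula_near (p : ℕ) [Fact p.Prime] (hp2 : p ≠ 2) {k A : Type} [Field k] [IsAlgClosed k]
    [CharP k p] [Algebra (ZMod p) k] [Algebra.IsAlgebraic (ZMod p) k] [CommRing A] [IsDomain A]
    [Algebra k A] [IsRegularRing A] (hdim : ringKrullDim A = 2) (E : SectionExp k A)
    (hcore : ∃ c₀ μ₀ n₀ : ℕ, K1CoreConcl E c₀ μ₀ n₀) :
    ∃ c₀ μ₀ : ℕ, ∀ L : ℕ, ∃ n₀ : ℕ, ∀ e n M : ℕ, n = 2 ^ e → n₀ ≤ n → Odd M → μ₀ * n ≤ M →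
      (∀ d : A, E.InV n M d → Prime d) ∧ ∀ q₀ : A, E.InV n M q₀ →
        (∀ a : A, E.WLt n M (((n * M : ℕ) : ℤ) - ((c₀ * n : ℕ) : ℤ)) (a - q₀) →
          E.InV n M a ∧ Prime a ∧
            ∀ f ∉ Ideal.span {a}, Module.Finite k (A ⧸ Ideal.span {a, f})) ∧
        ∀ Λ : A → A → ℚ, CurveFun {d | E.InV n M d} Λ →
          (∀ f g : A, E.InV n M f → E.InV n M g → f ∉ Ideal.span {g} → g ∉ Ideal.span {f} →
            Λ f g = Λ g f) →
          ∃ u : (A →ₐ[k] k) → ℚ,
            ∀ a : A, E.WLt n M (((n * M : ℕ) : ℤ) - ((c₀ * n : ℕ) : ℤ)) (a - q₀) →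
              ∀ f ∉ Ideal.span {a}, (∀ x : A →ₐ[k] k, lenAt x a f ≤ L) →
                Λ a f = ∑ᶠ x, u x * ((lenAt x a f).toNat : ℚ) := by
  obtain ⟨c, m, n₁, hc⟩ := hcore
  obtain ⟨c₀, μ₀, h⟩ := formula_near_R p 2 Nat.prime_two hp2.symm hdim E ⟨c, m, n₁, hc.toR⟩
  refine ⟨c₀, μ₀, fun L => ?_⟩
  obtain ⟨n₀, hn₀⟩ := h L
  exact ⟨n₀, fun e n M h1 h2 h3 h4 => hn₀ e n M h1 h2 (Nat.coprime_two_left.2 h3) h4⟩

end Pool.Agent.K1
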