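import Pool.Agent.K1.SectionRing

/-!
L3-09b, the algebra: the sections of `O(j)` form a graded ring; powers of the space of
sections of `O(m)` for large `m`.
-/

set_option autoImplicit false
set_option linter.style.longLine false

open AlgebraicGeometry CategoryTheory

attribute [local instance] MvPolynomial.gradedAlgebra

namespace Pool.Agent.K1

namespace NormalAlg

section abs

variable {k F : Type} [Field k] [Field F] [Algebra k F] {n : ℕ}

/-- a form of degree `i` lies in the `i`-th power of the space of linear forms -/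
theorem aeval_mem_pow {σ : Type} [Fintype σ] (w : σ → F) (V : Submodule k F)
    (hw : ∀ t, w t ∈ V) (i : ℕ) (P : MvPolynomial σ k)
    (hP : P.IsHomogeneous i) : MvPolynomial.aeval w P ∈ V ^ i := by
  classical
  rw [P.as_sum, map_sum]
  apply Submodule.sum_mem
  intro d hd
  have hdeg : ∑ t, d t = i := by
    have h3 := hP (MvPolynomial.mem_support_iff.1 hd)
    rw [← h3, Finsupp.weight_apply, Finsupp.sum_fintype]
    · simp
    · intro _
      simp
  rw [MvPolynomial.aeval_monomial, ← Algebra.smul_def, Finsupp.prod_fintype]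
  · apply Submodule.smul_mem
    rw [← hdeg]
    have h : ∀ s : Finset σ, ∏ t ∈ s, w t ^ d t ∈ V ^ ∑ t ∈ s, d t := by
      intro s
      induction s using Finset.induction_on with
      | empty =>
        rw [Finset.prod_empty, Finset.sum_empty, pow_zero]
        exact Submodule.one_le.1 le_rfl
      | insert a s ha ih =>
        rw [Finset.prod_insert ha, Finset.sum_insert ha, pow_add]
        exact Submodule.mul_mem_mul (Submodule.pow_mem_pow V (hw a) _) ih
    exact h Finset.univ
  · intro _
    rw [pow_zero]

/-- an element of the `j`-th power of a space is a form of degree `j` in its generators -/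
theorem exists_form {σ : Type} (v : σ → F) (j : ℕ) (f : F)
    (hf : f ∈ (Submodule.span k (Set.range v)) ^ j) :
    ∃ P : MvPolynomial σ k, P.IsHomogeneous j ∧ MvPolynomial.aeval v P = f := by
  induction j generalizing f with
  | zero =>
    rw [pow_zero, Submodule.mem_one] at hf
    obtain ⟨c, rfl⟩ := hf
    exact ⟨MvPolynomial.C c, MvPolynomial.isHomogeneous_C _ _, MvPolynomial.aeval_C _ _⟩
  | succ j ih =>
    rw [pow_succ] at hf
    induction hf using Submodule.mul_induction_on' with
    | mem_mul_mem a ha b hb =>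
      obtain ⟨P, hP, rfl⟩ := ih a ha
      have hb' : ∃ Q : MvPolynomial σ k, Q.IsHomogeneous 1 ∧ MvPolynomial.aeval v Q = b := by
        clear hP ha ih
        induction hb using Submodule.span_induction with
        | mem z hz =>
          obtain ⟨t, rfl⟩ := hz
          exact ⟨MvPolynomial.X t, MvPolynomial.isHomogeneous_X _ _, MvPolynomial.aeval_X _ _⟩
        | zero => exact ⟨0, MvPolynomial.isHomogeneous_zero _ _ _, map_zero _⟩
        | add x y _ _ hx hy =>
          obtain ⟨Q, hQ, rfl⟩ := hx
          obtain ⟨Q', hQ', rfl⟩ := hy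
          exact ⟨Q + Q', hQ.add hQ', map_add _ _ _⟩
        | smul c x _ hx =>
          obtain ⟨Q, hQ, rfl⟩ := hx
          refine ⟨MvPolynomial.C c * Q, ?_, ?_⟩
          · simpa using (MvPolynomial.isHomogeneous_C σ c).mul hQ
          · rw [map_mul, MvPolynomial.aeval_C, Algebra.smul_def]
      obtain ⟨Q, hQ, rfl⟩ := hb'
      exact ⟨P * Q, hP.mul hQ, map_mul _ _ _⟩
    | add a _ b _ ha hb =>
      obtain ⟨P, hP, rfl⟩ := ha
      obtain ⟨Q, hQ, rfl⟩ := hb
      exact ⟨P + Q, hP.add hQ, map_add _ _ _⟩

/-- a form of large degree is a combination of the powers of the variables -/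
theorem exists_pow_comb (m i : ℕ) (hi : (n + 1) * m < i) (P : MvPolynomial (Fin (n + 1)) k)
    (hP : P.IsHomogeneous i) :
    ∃ H : Fin (n + 1) → MvPolynomial (Fin (n + 1)) k, (∀ t, (H t).IsHomogeneous (i - m)) ∧
      P = ∑ t, MvPolynomial.X t ^ m * H t := by
  classical
  have hmon : ∀ d ∈ P.support, ∃ H : Fin (n + 1) → MvPolynomial (Fin (n + 1)) k,
      (∀ t, (H t).IsHomogeneous (i - m)) ∧
      MvPolynomial.monomial d (P.coeff d) = ∑ t, MvPolynomial.X t ^ m * H t := by
    intro d hd
    have hdeg : ∑ t, d t = i := by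
      have h3 := hP (MvPolynomial.mem_support_iff.1 hd)
      rw [← h3, Finsupp.weight_apply, Finsupp.sum_fintype]
      · simp
      · intro _
        simp
    obtain ⟨t, ht⟩ : ∃ t, m ≤ d t := by
      by_contra hcon
      push Not at hcon
      have h4 : ∑ t : Fin (n + 1), d t ≤ ∑ _t : Fin (n + 1), m :=
        Finset.sum_le_sum fun t _ => (hcon t).le
      rw [hdeg, Finset.sum_const, Finset.card_univ, Fintype.card_fin, smul_eq_mul] at h4
      omega
    let d' : Fin (n + 1) →₀ ℕ := d - Finsupp.single t m
    have hd' : d = Finsupp.single t m + d' := by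
      rw [add_comm (Finsupp.single t m) d', tsub_add_cancel_of_le]
      rw [Finsupp.single_le_iff]
      exact ht
    have hdeg' : ∑ s, d' s + m = i := by
      rw [← hdeg, hd']
      simp only [Finsupp.add_apply, Finset.sum_add_distrib]
      rw [add_comm]
      congr 1
      rw [Finset.sum_eq_single t]
      · simp
      · intro b _ hb
        rw [Finsupp.single_apply, if_neg (Ne.symm hb)]
      · intro h5
        exact absurd (Finset.mem_univ t) h5
    refine ⟨Pi.single t (MvPolynomial.monomial d' (P.coeff d)), ?_, ?_⟩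
    · intro s
      by_cases hs : s = t
      · subst hs
        rw [Pi.single_eq_same]
        apply MvPolynomial.isHomogeneous_monomial
        rw [Finsupp.degree_eq_sum]
        omega
      · rw [Pi.single_eq_of_ne hs]
        exact MvPolynomial.isHomogeneous_zero _ _ _
    · rw [Finset.sum_eq_single t]
      · rw [Pi.single_eq_same, MvPolynomial.X_pow_eq_monomial, MvPolynomial.monomial_mul,
          one_mul, ← hd']
      · intro b _ hb
        rw [Pi.single_eq_of_ne hb, mul_zero]
      · intro h5
        exact absurd (Finset.mem_univ t) h5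
  choose! H hH hHe using hmon
  refine ⟨fun t => ∑ d ∈ P.support, H d t, ?_, ?_⟩
  · intro t
    exact MvPolynomial.IsHomogeneous.sum _ _ _ fun d hd => hH d hd t
  · conv_lhs => rw [P.as_sum]
    rw [Finset.sum_congr rfl hHe, Finset.sum_comm]
    apply Finset.sum_congr rfl
    intro t _
    rw [Finset.mul_sum]

/-- abstract form of the result on powers -/
theorem le_pow_of_gen {w : Fin (n + 1) → F} (R : ℕ → Submodule k F)
    (hmul : ∀ i j, R i * R j ≤ R (i + j)) (hone : (1 : Submodule k F) ≤ R 0)
    (hw : ∀ t, w t ∈ R 1) {r : ℕ} (g : Fin r → F) (e : Fin r → ℕ) (hg : ∀ i, g i ∈ R (e i))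
    (hgen : ∀ (j : ℕ) (f : F), f ∈ R j → ∃ Q : Fin r → MvPolynomial (Fin (n + 1)) k,
        (∀ i, (e i ≤ j ∧ (Q i).IsHomogeneous (j - e i)) ∨ Q i = 0) ∧
        ∑ i, g i * MvPolynomial.aeval w (Q i) = f) (m : ℕ) (hm : ∀ i, e i ≤ m) (j : ℕ) :
    R (m * (j + 1)) ≤ R m ^ (j + 1) := by
  have hpow : ∀ i, R 1 ^ i ≤ R i := by
    intro i
    induction i with
    | zero => rwa [pow_zero]
    | succ i ih =>
      rw [pow_succ]
      exact (mul_le_mul' ih le_rfl).trans (hmul i 1)
  intro f hf
  obtain ⟨Q, hQ, rfl⟩ := hgen _ f hf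
  apply Submodule.sum_mem
  intro i _
  rcases hQ i with ⟨hi, hQi⟩ | h0
  · have h1 := aeval_mem_pow (k := k) w (R 1) hw _ _ hQi
    have h2 : m * (j + 1) - e i = (m - e i) + m * j := by
      rw [mul_add, mul_one]
      have := hm i
      omega
    rw [h2, pow_add, pow_mul] at h1
    have h3 : Submodule.span k {g i} * R 1 ^ (m - e i) ≤ R m := by
      have h4 : Submodule.span k {g i} ≤ R (e i) := by
        rw [Submodule.span_singleton_le_iff_mem]
        exact hg i
      refine (mul_le_mul' h4 (hpow _)).trans ((hmul _ _).trans ?_)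
      rw [Nat.add_sub_cancel' (hm i)]
    have h5 : Submodule.span k {g i} * (R 1 ^ (m - e i) * (R 1 ^ m) ^ j) ≤ R m ^ (j + 1) := by
      rw [← mul_assoc, pow_succ']
      exact mul_le_mul' h3 (pow_le_pow_left' (hpow m) j)
    exact h5 (Submodule.mul_mem_mul (Submodule.mem_span_singleton_self _) h1)
  · rw [h0, map_zero, mul_zero]
    exact Submodule.zero_mem _

/-- the spaces of sections are finite dimensional -/
theorem fg_of_gen {w : Fin (n + 1) → F} (R : ℕ → Submodule k F) {r : ℕ} (g : Fin r → F)
    (e : Fin r → ℕ)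
    (hgen : ∀ (j : ℕ) (f : F), f ∈ R j → ∃ Q : Fin r → MvPolynomial (Fin (n + 1)) k,
        (∀ i, (e i ≤ j ∧ (Q i).IsHomogeneous (j - e i)) ∨ Q i = 0) ∧
        ∑ i, g i * MvPolynomial.aeval w (Q i) = f) (j : ℕ) : (R j).FG := by
  classical
  let S : Submodule k F := Submodule.span k (Set.range w)
  let T : Submodule k F := ⨆ i, Submodule.span k {g i} * S ^ (j - e i)
  have hS : S.FG := Submodule.fg_span (Set.finite_range w)
  have hT : T.FG := Submodule.fg_iSup _ fun i =>
    (Submodule.fg_span_singleton _).mul (hS.pow _)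
  have hle : R j ≤ T := by
    intro f hf
    obtain ⟨Q, hQ, rfl⟩ := hgen _ f hf
    apply Submodule.sum_mem
    intro i _
    rcases hQ i with ⟨hi, hQi⟩ | h0
    · have h1 := aeval_mem_pow (k := k) w S (fun t => Submodule.subset_span ⟨t, rfl⟩) _ _ hQi
      exact Submodule.mem_iSup_of_mem i
        (Submodule.mul_mem_mul (Submodule.mem_span_singleton_self _) h1)
    · rw [h0, map_zero, mul_zero]
      exact Submodule.zero_mem _
  have hnoe : IsNoetherian k T := isNoetherian_of_fg_of_noetherian _ hT
  have h1 : ((R j).comap T.subtype).FG := IsNoetherian.noetherian _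
  have h2 := h1.map T.subtype
  rwa [Submodule.map_comap_subtype, inf_eq_right.2 hle] at h2

/-- the sections of degree zero are the constants -/
theorem const_of_gen [IsAlgClosed k] (R : Submodule k F) (hR : R.FG) (hmul : R * R ≤ R)
    (hone : (1 : F) ∈ R) (f : F) (hf : f ∈ R) : ∃ c : k, algebraMap k F c = f := by
  have hint : IsIntegral k f := by
    refine isIntegral_of_smul_mem_submodule R ?_ hR f ?_
    · rintro h0
      rw [h0, Submodule.mem_bot] at hone
      exact one_ne_zero hone
    · intro z hz
      exact hmul (Submodule.mul_mem_mul hf hz)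
  exact minpoly.mem_range_of_degree_eq_one k f
    (IsAlgClosed.degree_eq_one_of_irreducible k (minpoly.irreducible hint))

end abs

end NormalAlg

open NormalAlg SecRing

section embed

variable {k : Type} [Field k] {X : Scheme.{0}} [IsIntegral X] {n : ℕ}

theorem isSection_zero (E : Embed k X n) (j : ℕ) : E.IsSection j 0 :=
  fun _ _ _ => ⟨0, by rw [map_zero, zero_mul]⟩

theorem isSection_add (E : Embed k X n) {j : ℕ} {f g : X.functionField}
    (hf : E.IsSection j f) (hg : E.IsSection j g) : E.IsSection j (f + g) := by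
  intro d x hx
  obtain ⟨a, ha⟩ := hf d x hx
  obtain ⟨b, hb⟩ := hg d x hx
  exact ⟨a + b, by rw [map_add, add_mul, ha, hb]⟩

theorem isSection_mul (E : Embed k X n) {i j : ℕ} {f g : X.functionField}
    (hf : E.IsSection i f) (hg : E.IsSection j g) : E.IsSection (i + j) (f * g) := by
  intro d x hx
  obtain ⟨a, ha⟩ := hf d x hx
  obtain ⟨b, hb⟩ := hg d x hx
  exact ⟨a * b, by rw [map_mul, ← ha, ← hb, pow_add]; ring⟩

theorem kf_mem_stalk (E : EmbedData k X n) (x : X) (c : k) :
    algebraMap (X.presheaf.stalk x) X.functionField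
      ((X.presheaf.germ ⊤ x trivial).hom (E.str c)) = E.kf c := by
  have hne : Nonempty (⊤ : X.Opens) := ⟨⟨x, trivial⟩⟩
  exact Scheme.algebraMap_germ_eq_germToFunctionField X (U := ⊤) (x := x) trivial (E.str c)

theorem isSection_kf (E : Embed k X n) (c : k) : E.IsSection 0 (E.kf c) := by
  intro d x _
  exact ⟨_, by rw [pow_zero, mul_one]; exact kf_mem_stalk E.toEmbedData x c⟩

theorem isSection_smul (E : Embed k X n) {j : ℕ} {f : X.functionField} (c : k)
    (hf : E.IsSection j f) : E.IsSection j (E.kf c * f) := by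
  have h := isSection_mul E (isSection_kf E c) hf
  rwa [zero_add] at h

theorem isSection_w (E : Embed k X n) (t : Fin (n + 1)) : E.IsSection 1 (E.w t) := by
  intro d x hx
  obtain ⟨a, ha, _⟩ := E.stalk (Pi.single t 1) d x hx
  exact ⟨a, by rw [pow_one, ha, l_single]⟩

/-- the space of sections of `O(j)` -/
noncomputable def secSub (E : Embed k X n) (j : ℕ) :
    @Submodule k X.functionField _ _ (@Algebra.toModule _ _ _ _ E.kf.toAlgebra) :=
  let _ : Algebra k X.functionField := E.kf.toAlgebra
  { carrier := {f | E.IsSection j f}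
    add_mem' := fun ha hb => isSection_add E ha hb
    zero_mem' := isSection_zero E j
    smul_mem' := fun c _ ha => isSection_smul E c ha }

theorem mem_secSub (E : Embed k X n) (j : ℕ) (f : X.functionField) :
    (let _ : Algebra k X.functionField := E.kf.toAlgebra
     f ∈ secSub E j) ↔ E.IsSection j f := Iff.rfl

theorem secSub_mul (E : Embed k X n) (i j : ℕ) :
    let _ : Algebra k X.functionField := E.kf.toAlgebra
    secSub E i * secSub E j ≤ secSub E (i + j) := by
  let _ : Algebra k X.functionField := E.kf.toAlgebra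
  exact Submodule.mul_le.2 fun a ha b hb => isSection_mul E ha hb

theorem secSub_one (E : Embed k X n) :
    let _ : Algebra k X.functionField := E.kf.toAlgebra
    (1 : Submodule k X.functionField) ≤ secSub E 0 := by
  let _ : Algebra k X.functionField := E.kf.toAlgebra
  exact Submodule.one_le.2 (by
    have h := isSection_kf E 1
    rwa [map_one] at h)

theorem isSection_pow (E : Embed k X n) {j : ℕ} {f : X.functionField}
    (hf : E.IsSection j f) (i : ℕ) : E.IsSection (j * i) (f ^ i) := by
  induction i with
  | zero =>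
    rw [mul_zero, pow_zero]
    have h := isSection_kf E 1
    rwa [map_one] at h
  | succ i ih =>
    rw [pow_succ, mul_add, mul_one]
    exact isSection_mul E ih hf

/-- forms of degree `i` in sections of `O(j)` are sections of `O(j i)` -/
theorem isSection_form_of (E : Embed k X n) {σ : Type} [Fintype σ] {j : ℕ}
    (v : σ → X.functionField) (hv : ∀ s, E.IsSection j (v s)) (i : ℕ) (P : MvPolynomial σ k)
    (hP : P.IsHomogeneous i) : E.IsSection (j * i) (MvPolynomial.eval₂ E.kf v P) := by
  let _ : Algebra k X.functionField := E.kf.toAlgebra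
  have h1 : MvPolynomial.aeval v P ∈ secSub E j ^ i := aeval_mem_pow v _ hv i P hP
  have h2 : ∀ i, secSub E j ^ i ≤ secSub E (j * i) := by
    intro i
    induction i with
    | zero =>
      rw [pow_zero, mul_zero]
      exact secSub_one E
    | succ i ih =>
      rw [pow_succ, mul_add, mul_one]
      exact (mul_le_mul' ih le_rfl).trans (secSub_mul E (j * i) j)
  exact h2 i h1

/-- forms are sections -/
theorem isSection_form (E : Embed k X n) (i : ℕ) (P : MvPolynomial (Fin (n + 1)) k)
    (hP : P.IsHomogeneous i) : E.IsSection i (MvPolynomial.eval₂ E.kf E.w P) := by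
  have h := isSection_form_of E E.w (isSection_w E) i P hP
  rwa [one_mul] at h

/-- the sections of degree zero are the constants -/
theorem isSection_const [IsAlgClosed k] [IsNoetherian X] (E : Embed k X n)
    (f : X.functionField) (hf : E.IsSection 0 f) : ∃ c : k, E.kf c = f := by
  let _ : Algebra k X.functionField := E.kf.toAlgebra
  obtain ⟨r, g, e, hg, hgen⟩ := section_fg E
  refine const_of_gen (k := k) (secSub E 0)
    (fg_of_gen (w := E.w) (secSub E) g e hgen 0) (secSub_mul E 0 0) ?_ f hf
  have h := isSection_kf E 1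
  rwa [map_one] at h

/-- For large `m` all sections of `O(m j)` are forms of degree `j` in finitely many sections
of `O(m)`. -/
theorem sections_normal [IsAlgClosed k] [IsNoetherian X] (E : Embed k X n) :
    ∃ m₀ : ℕ, ∀ m, m₀ ≤ m → ∃ (n' : ℕ) (v : Fin (n' + 1) → X.functionField),
      (∀ i, E.IsSection m (v i)) ∧
      ∀ (j : ℕ) (f : X.functionField), E.IsSection (m * j) f →
        ∃ P : MvPolynomial (Fin (n' + 1)) k, P.IsHomogeneous j ∧
          MvPolynomial.eval₂ E.kf v P = f := by
  let _ : Algebra k X.functionField := E.kf.toAlgebra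
  obtain ⟨r, g, e, hg, hgen⟩ := section_fg E
  refine ⟨Finset.univ.sup e, fun m hm => ?_⟩
  have hem : ∀ i, e i ≤ m := fun i => (Finset.le_sup (Finset.mem_univ i)).trans hm
  obtain ⟨n', s, hs⟩ := Submodule.fg_iff_exists_fin_generating_family.1
    (fg_of_gen (w := E.w) (secSub E) g e hgen m)
  let v : Fin (n' + 1) → X.functionField := Fin.cons 0 s
  have hv : ∀ i, E.IsSection m (v i) := by
    intro i
    refine Fin.cases ?_ (fun i => ?_) i
    · exact isSection_zero E m
    · have h1 : s i ∈ secSub E m := by
        rw [← hs]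
        exact Submodule.subset_span ⟨i, rfl⟩
      exact h1
  have hspan : secSub E m ≤ Submodule.span k (Set.range v) := by
    rw [← hs]
    apply Submodule.span_mono
    rintro _ ⟨i, rfl⟩
    exact ⟨i.succ, rfl⟩
  refine ⟨n', v, hv, ?_⟩
  intro j f hf
  rcases j with _ | j
  · rw [mul_zero] at hf
    obtain ⟨c, rfl⟩ := isSection_const E f hf
    exact ⟨MvPolynomial.C c, MvPolynomial.isHomogeneous_C _ _, MvPolynomial.eval₂_C _ _ _⟩
  · have h1 : f ∈ secSub E m ^ (j + 1) :=
      le_pow_of_gen (w := E.w) (secSub E) (secSub_mul E) (secSub_one E) (isSection_w E) g e hg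
        hgen m hem j hf
    exact exists_form v (j + 1) f (pow_le_pow_left' hspan (j + 1) h1)

/-- Sections of large degree are combinations of the `m`-th powers of the coordinates. -/
theorem section_comb [IsAlgClosed k] [IsNoetherian X] (E : Embed k X n) (m : ℕ) :
    ∃ j₁ : ℕ, ∀ j, j₁ ≤ j → ∀ f : X.functionField, E.IsSection j f →
      ∃ h : Fin (n + 1) → X.functionField, (∀ t, E.IsSection (j - m) (h t)) ∧
        f = ∑ t, E.w t ^ m * h t := by
  obtain ⟨r, g, e, hg, hgen⟩ := section_fg E
  refine ⟨Finset.univ.sup e + (n + 1) * m + 1, fun j hj f hf => ?_⟩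
  have hem : ∀ i, e i + (n + 1) * m < j := fun i => by
    have := Finset.le_sup (f := e) (Finset.mem_univ i)
    omega
  obtain ⟨Q, hQ, rfl⟩ := hgen j f hf
  have hi : ∀ i, ∃ H : Fin (n + 1) → MvPolynomial (Fin (n + 1)) k,
      (∀ t, (H t).IsHomogeneous (j - e i - m)) ∧
      Q i = ∑ t, MvPolynomial.X t ^ m * H t := by
    intro i
    rcases hQ i with ⟨hi, hQi⟩ | h0
    · refine exists_pow_comb m (j - e i) ?_ (Q i) hQi
      have := hem i
      omega
    · exact ⟨fun _ => 0, fun _ => MvPolynomial.isHomogeneous_zero _ _ _, by simp [h0]⟩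
  choose H hH hHe using hi
  refine ⟨fun t => ∑ i, g i * MvPolynomial.eval₂ E.kf E.w (H i t), ?_, ?_⟩
  · intro t
    have hsum : ∀ s : Finset (Fin r),
        E.IsSection (j - m) (∑ i ∈ s, g i * MvPolynomial.eval₂ E.kf E.w (H i t)) := by
      classical
      intro s
      induction s using Finset.induction_on with
      | empty =>
        rw [Finset.sum_empty]
        exact isSection_zero E _
      | insert a s ha ih =>
        rw [Finset.sum_insert ha]
        refine isSection_add E ?_ ih
        have h1 := isSection_mul E (hg a) (isSection_form E _ _ (hH a t))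
        have h2 : e a + (j - e a - m) = j - m := by
          have h3 := hem a
          have h4 : m ≤ (n + 1) * m := Nat.le_mul_of_pos_left m (Nat.succ_pos n)
          omega
        rwa [h2] at h1
    exact hsum Finset.univ
  · have h1 : ∀ i, MvPolynomial.eval₂ E.kf E.w (Q i) =
        ∑ t, E.w t ^ m * MvPolynomial.eval₂ E.kf E.w (H i t) := by
      intro i
      conv_lhs => rw [hHe i]
      rw [MvPolynomial.eval₂_sum]
      apply Finset.sum_congr rfl
      intro t _
      rw [MvPolynomial.eval₂_mul, MvPolynomial.eval₂_pow, MvPolynomial.eval₂_X]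
    simp only [h1, Finset.mul_sum]
    rw [Finset.sum_comm]
    apply Finset.sum_congr rfl
    intro t _
    apply Finset.sum_congr rfl
    intro i _
    ring

end embed

end Pool.Agent.K1
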