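import Pool.Agent.K1.NormalEmbedAlg
import Pool.Agent.K1.NormalEmbedGeo

/-!
Normal embeddings: Veronese re-embedding by the complete linear system of all sections of `O(m)`.
-/

set_option autoImplicit false

open AlgebraicGeometry CategoryTheory TopologicalSpace Opposite

namespace Pool.Agent.K1.NormEmb

variable {X : Scheme.{0}} [IsIntegral X] {k : Type} [Field k] {n : ℕ} (E : Embed k X n)

/-- rational functions regular where the section `s` does not vanish have a denominator `s ^ N` -/
theorem exists_numerator {m : ℕ} {s : X.functionField} (hs : E.IsSection m s) (hs0 : s ≠ 0)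
    {f : X.functionField} (hf : ∀ x ∈ DO E hs, f ∈ O x) :
    ∃ N : ℕ, E.IsSection (m * N) (f * s ^ N) := by
  classical
  have hloc : ∀ t : Fin (n + 1), ∃ N : ℕ, E.w t ≠ 0 → ∀ x ∈ E.U (Pi.single t 1),
      f * (s / E.w t ^ m) ^ N ∈ O x := by
    intro t
    by_cases hw : E.w t = 0
    · exact ⟨0, fun h => absurd hw h⟩
    · have hl : E.l (Pi.single t 1) ≠ 0 := by rw [l_single]; exact hw
      obtain ⟨hU, hUg⟩ := E.affine _ hl
      obtain ⟨a, ha⟩ := exists_on E hs t hUg
      have hga : genericPoint X ∈ X.basicOpen a := by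
        rw [mem_basicOpen_iff hUg, ha, inv_div]
        exact ⟨hUg, div_ne_zero hs0 (pow_ne_zero _ hw), generic_O _⟩
      obtain ⟨g, hg⟩ := mem_range_germ (X.basicOpen a) hga f (by
        intro x hx
        rw [mem_basicOpen_iff hUg, ha, inv_div] at hx
        obtain ⟨hxU, -, hx2⟩ := hx
        refine hf x ⟨hs0, ?_⟩
        have h1 := lam_div_l E hxU
        rw [l_single] at h1
        have h2 := (O x).mul_mem ((O x).pow_mem h1 m) hx2
        have h3 : (lam E x / E.w t) ^ m * (E.w t ^ m / s) = lam E x ^ m / s := by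
          rw [div_pow]
          field_simp
        rwa [h3] at h2)
      let _ := (X.presheaf.map (homOfLE (X.basicOpen_le a)).op).hom.toAlgebra
      have hloc := hU.isLocalization_basicOpen a
      obtain ⟨⟨b, ⟨_, N, rfl⟩⟩, hb⟩ := IsLocalization.surj (Submonoid.powers a) g
      refine ⟨N, fun _ x hx => ?_⟩
      have h1 := congrArg (X.presheaf.germ (X.basicOpen a) (genericPoint X) hga).hom hb
      rw [map_mul] at h1
      have h2 : ∀ z : Γ(X, E.U (Pi.single t 1)),
          (X.presheaf.germ (X.basicOpen a) (genericPoint X) hga).hom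
            (algebraMap Γ(X, E.U (Pi.single t 1)) Γ(X, X.basicOpen a) z) =
          (X.presheaf.germ (E.U (Pi.single t 1)) (genericPoint X) hUg).hom z := fun z =>
        X.presheaf.germ_res_apply (homOfLE (X.basicOpen_le a)) (genericPoint X) hga z
      rw [h2, h2, map_pow, hg, ha] at h1
      rw [h1]
      exact germ_mem_O hUg hx b
  choose N hN using hloc
  refine ⟨∑ t, N t, (sec_iff E _ _).2 fun x => ?_⟩
  have h1 := hN (tt E x) (lam_ne E x) x (mem_tt E x)
  have hle : N (tt E x) ≤ ∑ t, N t :=
    Finset.single_le_sum (fun _ _ => Nat.zero_le _) (Finset.mem_univ _)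
  obtain ⟨q, hq⟩ := Nat.exists_eq_add_of_le hle
  have h2 := (O x).mul_mem h1 ((O x).pow_mem ((sec_iff E _ _).1 hs x) q)
  have h3 : f * (s / E.w (tt E x) ^ m) ^ N (tt E x) * (s / lam E x ^ m) ^ q =
      f * s ^ (∑ t, N t) / lam E x ^ (m * ∑ t, N t) := by
    change f * (s / lam E x ^ m) ^ N (tt E x) * (s / lam E x ^ m) ^ q = _
    rw [mul_assoc, ← pow_add, ← hq, div_pow, ← pow_mul, mul_div_assoc]
  rwa [h3] at h2

/-- homogeneous polynomials divided by a power of `s` -/
theorem eval_div_mem {K : Type*} [Field K] {ι : Type*} [Fintype ι] (φ : k →+* K) (w : ι → K)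
    (s : K) (S : Subring K) (hφ : ∀ a, φ a ∈ S) (hw : ∀ j, w j / s ∈ S) {N : ℕ}
    {P : MvPolynomial ι k} (hP : P.IsHomogeneous N) :
    MvPolynomial.eval₂ φ w P / s ^ N ∈ S := by
  classical
  rw [MvPolynomial.eval₂_eq', Finset.sum_div]
  refine S.sum_mem fun d hd => ?_
  have h1 : ∑ i, d i = N := by
    have h0 : d.degree = N := by
      rw [Finsupp.degree_eq_weight_one]
      exact hP (MvPolynomial.mem_support_iff.1 hd)
    rwa [Finsupp.degree_eq_sum] at h0
  have h2 : φ (MvPolynomial.coeff d P) * (∏ i, w i ^ d i) / s ^ N =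
      φ (MvPolynomial.coeff d P) * ∏ i, (w i / s) ^ d i := by
    rw [mul_div_assoc]
    congr 1
    simp_rw [div_pow]
    rw [Finset.prod_div_distrib, Finset.prod_pow_eq_pow_sum, h1]
  rw [h2]
  exact S.mul_mem (hφ _) (S.prod_mem fun i _ => S.pow_mem (hw i) _)

variable {E}

/-- The re-embedding. -/
noncomputable def reEmbed {m : ℕ} (hm : 0 < m) {n' : ℕ} (w' : Fin (n' + 1) → X.functionField)
    (h1 : ∀ c : Fin (n' + 1) → k, E.IsSection m (∑ j, E.kf (c j) * w' j))
    (h2 : ∀ s, E.IsSection m s → ∃ c : Fin (n' + 1) → k, ∑ j, E.kf (c j) * w' j = s)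
    (h3 : ∀ (j : ℕ) (f : X.functionField), E.IsSection (m * j) f →
      ∃ P : MvPolynomial (Fin (n' + 1)) k, P.IsHomogeneous j ∧
        MvPolynomial.eval₂ E.kf w' P = f)
    (h4 : ∀ s, E.IsSection m s → s * s ∈ AddSubmonoid.closure {z | ∃ t v F,
      E.IsSection (m - 1) v ∧ E.IsSection m F ∧ z = E.w t * v * F}) : Embed k X n' where
  str := E.str
  w := w'
  U c := DO E (h1 c)
  empty := by
    intro c hc
    ext x
    constructor
    · intro hx
      exact absurd hc hx.1
    · intro hx
      exact absurd hx (by simp)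
  affine := by
    intro c hc
    exact ⟨affine_DO E hm (h1 c) hc (h4 _ (h1 c)), generic_mem_D E hc⟩
  cover := by
    intro x
    have hlam : E.IsSection m (lam E x ^ m) := by
      have : ∀ i, E.IsSection i (lam E x ^ i) := by
        intro i
        induction i with
        | zero => rw [pow_zero]; exact sec_one E
        | succ i ih => rw [pow_succ]; exact sec_mul E ih (sec_w E _)
      exact this m
    obtain ⟨c, hc⟩ := h2 _ hlam
    have hsing : ∀ j, ∑ i, E.kf ((Pi.single j 1 : Fin (n' + 1) → k) i) * w' i = w' j := by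
      intro j
      rw [Finset.sum_eq_single j]
      · rw [Pi.single_eq_same, map_one, one_mul]
      · intro i _ hi
        rw [Pi.single_eq_of_ne hi, map_zero, zero_mul]
      · intro h
        exact absurd (Finset.mem_univ _) h
    have hw' : ∀ j, E.IsSection m (w' j) := by
      intro j
      have := h1 (Pi.single j 1)
      rwa [hsing] at this
    have hb : ∀ j, ∃ b : X.presheaf.stalk x,
        algebraMap (X.presheaf.stalk x) X.functionField b =
          E.kf (c j) * (w' j / lam E x ^ m) := fun j =>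
      (O x).mul_mem (kf_mem E (c j) x) ((sec_iff E _ _).1 (hw' j) x)
    choose b hb using hb
    have hsum : ∑ j, b j = 1 := by
      apply alg_inj x
      rw [map_sum, map_one]
      simp_rw [hb, ← mul_div_assoc]
      rw [← Finset.sum_div, hc, div_self (pow_ne_zero _ (lam_ne E x))]
    obtain ⟨j, hj⟩ : ∃ j, IsUnit (b j) := by
      by_contra hcon
      push Not at hcon
      have : (1 : X.presheaf.stalk x) ∈ IsLocalRing.maximalIdeal (X.presheaf.stalk x) := by
        rw [← hsum]
        exact Ideal.sum_mem _ fun j _ => (IsLocalRing.mem_maximalIdeal _).2 (hcon j)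
      exact (IsLocalRing.mem_maximalIdeal _).1 this isUnit_one
    refine ⟨j, ?_⟩
    rw [isUnit_iff, hb] at hj
    obtain ⟨hj0, hj1⟩ := hj
    have hw0 : w' j ≠ 0 := by
      intro h
      rw [h, zero_div, mul_zero] at hj0
      exact hj0 rfl
    have hk0 : E.kf (c j) ≠ 0 := left_ne_zero_of_mul hj0
    rw [mem_DO, hsing]
    refine ⟨hw0, ?_⟩
    have e1 := (O x).mul_mem (kf_mem E (c j) x) hj1
    have e2 : E.kf (c j) * (E.kf (c j) * (w' j / lam E x ^ m))⁻¹ = lam E x ^ m / w' j := by
      have := lam_ne E x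
      field_simp
    rwa [e2] at e1
  sections := by
    intro c hg
    have hs0 : ∑ j, E.kf (c j) * w' j ≠ 0 := hg.1
    have hsing : ∀ j, ∑ i, E.kf ((Pi.single j 1 : Fin (n' + 1) → k) i) * w' i = w' j := by
      intro j
      rw [Finset.sum_eq_single j]
      · rw [Pi.single_eq_same, map_one, one_mul]
      · intro i _ hi
        rw [Pi.single_eq_of_ne hi, map_zero, zero_mul]
      · intro h
        exact absurd (Finset.mem_univ _) h
    have hw' : ∀ j, E.IsSection m (w' j) := by
      intro j
      have := h1 (Pi.single j 1)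
      rwa [hsing] at this
    apply Set.Subset.antisymm
    · rintro _ ⟨a, rfl⟩
      obtain ⟨N, hN⟩ := exists_numerator E (h1 c) hs0
        (f := (X.presheaf.germ (DO E (h1 c)) (genericPoint X) hg).hom a)
        (fun x hx => germ_mem_O hg hx a)
      obtain ⟨P, hP, hPe⟩ := h3 N _ hN
      have h5 := eval_div_mem E.kf w' (∑ j, E.kf (c j) * w' j)
        (Subring.closure (Set.range E.kf ∪ Set.range fun j => w' j / ∑ j, E.kf (c j) * w' j))
        (fun a => Subring.subset_closure (Or.inl ⟨a, rfl⟩))
        (fun j => Subring.subset_closure (Or.inr ⟨j, rfl⟩)) hP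
      rw [hPe, mul_div_assoc, div_self (pow_ne_zero _ hs0), mul_one] at h5
      exact h5
    · have h5 : Subring.closure (Set.range E.kf ∪
          Set.range fun j => w' j / ∑ j, E.kf (c j) * w' j) ≤
          (X.presheaf.germ (DO E (h1 c)) (genericPoint X) hg).hom.range := by
        rw [Subring.closure_le]
        rintro _ (⟨a, rfl⟩ | ⟨j, rfl⟩)
        · exact mem_range_germ _ hg _ fun x _ => kf_mem E a x
        · exact exists_quot E (h1 c) hs0 (hw' j)
      exact h5
  stalk := by
    intro c d x hx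
    obtain ⟨hd0, hd⟩ := hx
    have hc := (sec_iff E _ _).1 (h1 c) x
    have hd' := (sec_iff E _ _).1 (h1 d) x
    have hl := lam_ne E x
    obtain ⟨a, ha⟩ : (∑ j, E.kf (c j) * w' j) / (∑ j, E.kf (d j) * w' j) ∈ O x := by
      have e1 := (O x).mul_mem hc hd
      have e2 : (∑ j, E.kf (c j) * w' j) / lam E x ^ m * (lam E x ^ m /
          ∑ j, E.kf (d j) * w' j) =
          (∑ j, E.kf (c j) * w' j) / (∑ j, E.kf (d j) * w' j) := by
        field_simp
      rwa [e2] at e1
    refine ⟨a, ?_, ?_⟩
    · exact (eq_div_iff hd0).1 ha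
    · rw [isUnit_iff, ha, inv_div, mem_DO]
      constructor
      · rintro ⟨e0, e1⟩
        have hc0 : ∑ j, E.kf (c j) * w' j ≠ 0 := by
          intro h
          rw [h, zero_div] at e0
          exact e0 rfl
        refine ⟨hc0, ?_⟩
        have e2 := (O x).mul_mem hd e1
        have e3 : lam E x ^ m / (∑ j, E.kf (d j) * w' j) * ((∑ j, E.kf (d j) * w' j) /
            ∑ j, E.kf (c j) * w' j) = lam E x ^ m / ∑ j, E.kf (c j) * w' j := by
          field_simp
        rwa [e3] at e2
      · rintro ⟨hc0, e1⟩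
        refine ⟨div_ne_zero hc0 hd0, ?_⟩
        have e2 := (O x).mul_mem hd' e1
        have e3 : (∑ j, E.kf (d j) * w' j) / lam E x ^ m * (lam E x ^ m /
            ∑ j, E.kf (c j) * w' j) =
            (∑ j, E.kf (d j) * w' j) / ∑ j, E.kf (c j) * w' j := by
          field_simp
        rwa [e3] at e2
  val := E.val

theorem reEmbed_normal {m : ℕ} (hm : 0 < m) {n' : ℕ} (w' : Fin (n' + 1) → X.functionField)
    (h1 : ∀ c : Fin (n' + 1) → k, E.IsSection m (∑ j, E.kf (c j) * w' j))
    (h2 : ∀ s, E.IsSection m s → ∃ c : Fin (n' + 1) → k, ∑ j, E.kf (c j) * w' j = s)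
    (h3 : ∀ (j : ℕ) (f : X.functionField), E.IsSection (m * j) f →
      ∃ P : MvPolynomial (Fin (n' + 1)) k, P.IsHomogeneous j ∧
        MvPolynomial.eval₂ E.kf w' P = f)
    (h4 : ∀ s, E.IsSection m s → s * s ∈ AddSubmonoid.closure {z | ∃ t v F,
      E.IsSection (m - 1) v ∧ E.IsSection m F ∧ z = E.w t * v * F}) :
    (reEmbed hm w' h1 h2 h3 h4).Normal := by
  intro j f hf
  refine h3 j f ((sec_iff E _ _).2 fun x => ?_)
  obtain ⟨i, hi⟩ := (reEmbed hm w' h1 h2 h3 h4).cover x
  obtain ⟨a, ha⟩ := hf _ x hi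
  have h5 := (sec_iff E _ _).1 (h1 (Pi.single i 1)) x
  have h6 := (O x).mul_mem (⟨a, rfl⟩ :
    algebraMap (X.presheaf.stalk x) X.functionField a ∈ O x) ((O x).pow_mem h5 j)
  have h7 : algebraMap (X.presheaf.stalk x) X.functionField a *
      ((∑ j, E.kf ((Pi.single i 1 : Fin (n' + 1) → k) j) * w' j) / lam E x ^ m) ^ j =
      f / lam E x ^ (m * j) := by
    rw [← ha, div_pow, ← pow_mul, mul_div_assoc]
    rfl
  rwa [h7] at h6

open Pointwise in
/-- Normal embeddings exist if the sections of all degrees are generated by finitely many. -/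
theorem exists_normal_of_fg [IsAlgClosed k] (E : Embed k X n)
    (hfg : ∃ (r : ℕ) (g : Fin r → X.functionField) (e : Fin r → ℕ),
      (∀ i, E.IsSection (e i) (g i)) ∧
      ∀ (j : ℕ) (f : X.functionField), E.IsSection j f →
        ∃ Q : Fin r → MvPolynomial (Fin (n + 1)) k,
          (∀ i, (e i ≤ j ∧ (Q i).IsHomogeneous (j - e i)) ∨ Q i = 0) ∧
          ∑ i, g i * MvPolynomial.eval₂ E.kf E.w (Q i) = f) :
    ∃ (n' : ℕ) (E' : Embed k X n'), E'.Normal := by
  let _ : Algebra k X.functionField := E.kf.toAlgebra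
  let Sec : ℕ → Submodule k X.functionField := fun e =>
    { carrier := {f | E.IsSection e f}
      add_mem' := fun {a b} ha hb => sec_add E ha hb
      zero_mem' := sec_zero E e
      smul_mem' := fun a f hf => sec_smul E a hf }
  have hmem : ∀ e f, f ∈ Sec e ↔ E.IsSection e f := fun _ _ => Iff.rfl
  obtain ⟨m, hm, n', w', hspan, hver, htwo⟩ := exists_veronese Sec (sec_one E)
    (fun i j => by
      rw [Submodule.mul_le]
      intro a ha b hb
      exact sec_mul E ha hb) E.w (sec_w E) hfg
  have hsum : ∀ c : Fin (n' + 1) → k, ∑ j, E.kf (c j) * w' j ∈ Sec m := by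
    intro c
    rw [← hspan]
    exact Submodule.sum_mem _ fun j _ => Submodule.smul_mem _ (c j)
      (Submodule.subset_span ⟨j, rfl⟩)
  have hrep : ∀ s, E.IsSection m s → ∃ c : Fin (n' + 1) → k, ∑ j, E.kf (c j) * w' j = s := by
    intro s hs
    have : s ∈ Submodule.span k (Set.range w') := by rw [hspan]; exact hs
    obtain ⟨c, hc⟩ := (Submodule.mem_span_range_iff_exists_fun k).1 this
    exact ⟨c, hc⟩
  have htwo' : ∀ s, E.IsSection m s → s * s ∈ AddSubmonoid.closure {z | ∃ t v F,
      E.IsSection (m - 1) v ∧ E.IsSection m F ∧ z = E.w t * v * F} := by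
    intro s hs
    have hss : s * s ∈ Submodule.span k (Set.range E.w) ^ m * Sec m :=
      htwo (sec_mul E hs hs)
    have hmon : ∀ u ∈ (Set.range E.w) ^ m, ∃ t v, E.IsSection (m - 1) v ∧ u = E.w t * v := by
      have hpow : ∀ i, ∀ u ∈ (Set.range E.w) ^ i, E.IsSection i u := by
        intro i
        induction i with
        | zero =>
          intro u hu
          rw [pow_zero, Set.mem_one] at hu
          rw [hu]; exact sec_one E
        | succ i ih =>
          intro u hu
          rw [pow_succ, Set.mem_mul] at hu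
          obtain ⟨a, ha, b, ⟨t, rfl⟩, rfl⟩ := hu
          exact sec_mul E (ih a ha) (sec_w E t)
      intro u hu
      obtain ⟨q, rfl⟩ : ∃ q, m = q + 1 := ⟨m - 1, by omega⟩
      rw [pow_succ', Set.mem_mul] at hu
      obtain ⟨_, ⟨t, rfl⟩, v, hv, rfl⟩ := hu
      exact ⟨t, v, hpow q v hv, rfl⟩
    refine Submodule.mul_induction_on hss ?_ fun a b ha hb => AddSubmonoid.add_mem _ ha hb
    intro u hu F hF
    rw [Submodule.span_pow] at hu
    revert F
    induction hu using Submodule.span_induction with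
    | mem u hu =>
      intro F hF
      obtain ⟨t, v, hv, rfl⟩ := hmon u hu
      exact AddSubmonoid.subset_closure ⟨t, v, F, hv, hF, rfl⟩
    | zero => intro F _; rw [zero_mul]; exact AddSubmonoid.zero_mem _
    | add a b _ _ ha hb =>
      intro F hF
      rw [add_mul]
      exact AddSubmonoid.add_mem _ (ha F hF) (hb F hF)
    | smul a u _ hu =>
      intro F hF
      rw [smul_mul_assoc, ← mul_smul_comm]
      exact hu _ (Submodule.smul_mem _ a hF)
  exact ⟨n', reEmbed hm w' hsum hrep hver htwo', reEmbed_normal hm w' hsum hrep hver htwo'⟩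

end Pool.Agent.K1.NormEmb
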