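import Pool.Agent.K1.Defs

/-!
# The pencil polynomial `χ(S, P(S) + lam T(S))`
-/

set_option autoImplicit false

open Polynomial

namespace Pool.Agent.K1

variable {K : Type*} [Field K]

/-! ### Swapping the variables -/

theorem coeff_swap (q : K[X][X]) (i j : ℕ) :
    ((Bivariate.swap q).coeff i).coeff j = (q.coeff j).coeff i := by
  induction q using Polynomial.induction_on' with
  | add f g hf hg => rw [map_add, coeff_add, coeff_add, coeff_add, coeff_add, hf, hg]
  | monomial n f =>
    rw [Bivariate.swap_monomial, coeff_mul_C, coeff_map, coeff_C_mul, coeff_X_pow,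
      coeff_monomial]
    by_cases h : j = n
    · rw [if_pos h, if_pos h.symm, mul_one]
    · rw [if_neg h, if_neg (fun e => h e.symm), mul_zero, coeff_zero]

theorem natDegree_coeff_swap (q : K[X][X]) (i : ℕ) :
    ((Bivariate.swap q).coeff i).natDegree ≤ q.natDegree := by
  rw [natDegree_le_iff_coeff_eq_zero]
  intro j hj
  rw [coeff_swap, coeff_eq_zero_of_natDegree_lt hj, coeff_zero]

theorem map_swap_eval (q : K[X][X]) (s : K) :
    (Bivariate.swap q).map (evalRingHom s) = q.eval (C s) := by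
  induction q using Polynomial.induction_on' with
  | add f g hf hg => rw [map_add, Polynomial.map_add, eval_add, hf, hg]
  | monomial n f =>
    have h0 : (evalRingHom s).comp (C : K →+* K[X]) = RingHom.id K := by
      ext a; simp
    rw [Bivariate.swap_monomial, Polynomial.map_mul, map_map, h0, Polynomial.map_id, map_C,
      coe_evalRingHom, eval_pow, eval_X, eval_monomial, C_pow]

theorem coeff_eval_C (q : K[X][X]) (s : K) (j : ℕ) :
    (q.eval (C s)).coeff j = ((Bivariate.swap q).coeff j).eval s := by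
  rw [← map_swap_eval, coeff_map, coe_evalRingHom]

/-! ### The pencil -/

theorem pencil_eval (χ : K[X][X]) (P T : K[X]) (r : K) :
    (pencil χ P T).map (evalRingHom r) = χ.eval (P + C r * T) := by
  have h0 : (evalRingHom r).comp (C : K →+* K[X]) = RingHom.id K := by
    ext a; simp
  have h1 : (mapRingHom (evalRingHom r)).comp (mapRingHom (C : K →+* K[X])) =
      RingHom.id K[X] := by
    rw [mapRingHom_comp, h0, mapRingHom_id]
  have h := hom_eval₂ χ (mapRingHom (C : K →+* K[X])) (mapRingHom (evalRingHom r))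
    (P.map C + C X * T.map C)
  rw [h1, coe_mapRingHom] at h
  unfold pencil
  rw [h, Polynomial.map_add, Polynomial.map_mul, map_map, map_map, h0, Polynomial.map_id,
    Polynomial.map_id, map_C, coe_evalRingHom, eval_X, eval₂_id]

theorem pencil_map {L : Type*} [Field L] (φ : K →+* L) (χ : K[X][X]) (P T : K[X]) :
    (pencil χ P T).map (mapRingHom φ) = pencil (χ.map (mapRingHom φ)) (P.map φ) (T.map φ) := by
  have h1 : (mapRingHom (mapRingHom φ)).comp (mapRingHom (C : K →+* K[X])) =
      (mapRingHom (C : L →+* L[X])).comp (mapRingHom φ) := by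
    rw [mapRingHom_comp, mapRingHom_comp]
    congr 1
    ext a; simp
  have h2 : ∀ q : K[X], (q.map (C : K →+* K[X])).map (mapRingHom φ) =
      (q.map φ).map (C : L →+* L[X]) := fun q => congrArg (fun f : K[X] →+* L[X][X] => f q) h1
  have h := hom_eval₂ χ (mapRingHom (C : K →+* K[X])) (mapRingHom (mapRingHom φ))
    (P.map C + C X * T.map C)
  rw [h1, coe_mapRingHom] at h
  unfold pencil
  rw [h, eval₂_map, Polynomial.map_add, Polynomial.map_mul, h2, h2, map_C, coe_mapRingHom, map_X]

theorem swap_pencil (χ : K[X][X]) (P T : K[X]) :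
    Bivariate.swap (pencil χ P T) = χ.comp (C P + C T * X) := by
  have h := hom_eval₂ χ (mapRingHom (C : K →+* K[X]))
    ((Bivariate.swap (R := K) : K[X][X] ≃ₐ[K] K[X][X]) : K[X][X] →+* K[X][X])
    (P.map C + C X * T.map C)
  have h1 : ((Bivariate.swap (R := K) : K[X][X] ≃ₐ[K] K[X][X]) : K[X][X] →+* K[X][X]).comp
      (mapRingHom (C : K →+* K[X])) = (C : K[X] →+* K[X][X]) := by
    refine RingHom.ext fun f => ?_
    exact Bivariate.swap_map_C f
  rw [h1] at h
  have h2 : Bivariate.swap (P.map C + C X * T.map C : K[X][X]) = C P + C T * X := by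
    rw [map_add, map_mul, Bivariate.swap_map_C, Bivariate.swap_map_C, Bivariate.swap_X]
    ring
  unfold pencil
  rw [comp, ← h2]
  exact h

theorem IsCnz.lead_ne {χ : K[X][X]} {n z : ℕ} (hχ : IsCnz χ n z) (hz : 0 < z) :
    (χ.coeff 0).leadingCoeff ≠ 0 := by
  rw [Ne, leadingCoeff_eq_zero]
  intro h
  have := hχ.deg0
  rw [h, natDegree_zero] at this
  omega

theorem IsCnz.map {χ : K[X][X]} {n z : ℕ} (hχ : IsCnz χ n z) {L : Type*} [Field L]
    (φ : K →+* L) : IsCnz (χ.map (mapRingHom φ)) n z where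
  monic := hχ.monic.map _
  natDegree := by rw [hχ.monic.natDegree_map, hχ.natDegree]
  deg0 := by rw [coeff_map, coe_mapRingHom, natDegree_map, hχ.deg0]
  lt j h0 hj := by
    rw [coeff_map, coe_mapRingHom, natDegree_map]
    exact hχ.lt j h0 hj

theorem IsCnz.deg_lt {χ : K[X][X]} {n z : ℕ} (hχ : IsCnz χ n z) (hn : 1 ≤ n)
    (h8 : 8 * n ≤ z) {j : ℕ} (h0 : 0 < j) (hj : j ≤ n) : (χ.coeff j).natDegree + 4 * j < z := by
  rcases hj.lt_or_eq with h | h
  · have h1 := hχ.lt j h0 h
    have h2 : 8 * n * j ≤ z * j := Nat.mul_le_mul_right j h8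
    have h3 : n * ((χ.coeff j).natDegree + 8 * j) < n * z := by nlinarith
    have h4 := Nat.lt_of_mul_lt_mul_left h3
    omega
  · have h1 : χ.coeff j = 1 := by
      rw [h, ← hχ.natDegree]; exact hχ.monic.coeff_natDegree
    rw [h1, natDegree_one]
    omega

theorem pencil_degree_aux (χ : K[X][X]) (n z : ℕ) (hn : 1 ≤ n) (hχ : IsCnz χ n z)
    (h8 : 8 * n ≤ z) (P T : K[X]) (hP : P.natDegree ≤ 4) (hT : T.natDegree ≤ 4) :
    ∃ R : K[X][X], R.natDegree < z ∧ pencil χ P T = R + (χ.coeff 0).map C := by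
  set Q : K[X][X] := P.map C + C X * T.map C with hQ
  have hQd : Q.natDegree ≤ 4 := by
    rw [hQ]
    refine (natDegree_add_le _ _).trans (max_le ?_ ?_)
    · exact (natDegree_map_le).trans hP
    · exact (natDegree_C_mul_le _ _).trans ((natDegree_map_le).trans hT)
  refine ⟨∑ i ∈ Finset.range n, (χ.coeff (i + 1)).map C * Q ^ (i + 1), ?_, ?_⟩
  · have : (∑ i ∈ Finset.range n, (χ.coeff (i + 1)).map C * Q ^ (i + 1)).natDegree ≤ z - 1 := by
      apply natDegree_sum_le_of_forall_le
      intro i hi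
      rw [Finset.mem_range] at hi
      have h1 := hχ.deg_lt hn h8 (j := i + 1) (by omega) (by omega)
      have h2 : ((χ.coeff (i + 1)).map (C : K →+* K[X])).natDegree ≤
          (χ.coeff (i + 1)).natDegree := natDegree_map_le
      have h3 : (Q ^ (i + 1)).natDegree ≤ (i + 1) * 4 :=
        (natDegree_pow_le).trans (Nat.mul_le_mul_left _ hQd)
      have h4 := natDegree_mul_le (p := (χ.coeff (i + 1)).map (C : K →+* K[X]))
        (q := Q ^ (i + 1))
      omega
    omega
  · unfold pencil
    rw [eval₂_eq_sum_range, hχ.natDegree, Finset.sum_range_succ', pow_zero, mul_one]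
    rfl

theorem pencil_coeff (χ : K[X][X]) (n z : ℕ) (hn : 1 ≤ n) (hχ : IsCnz χ n z)
    (h8 : 8 * n ≤ z) (P T : K[X]) (hP : P.natDegree ≤ 4) (hT : T.natDegree ≤ 4) :
    (pencil χ P T).coeff z = C (χ.coeff 0).leadingCoeff := by
  obtain ⟨R, hR, h⟩ := pencil_degree_aux χ n z hn hχ h8 P T hP hT
  rw [h, coeff_add, coeff_eq_zero_of_natDegree_lt hR, zero_add, coeff_map, leadingCoeff,
    hχ.deg0]

theorem pencil_natDegree (χ : K[X][X]) (n z : ℕ) (hn : 1 ≤ n) (hχ : IsCnz χ n z)
    (h8 : 8 * n ≤ z) (P T : K[X]) (hP : P.natDegree ≤ 4) (hT : T.natDegree ≤ 4) :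
    (pencil χ P T).natDegree = z := by
  apply le_antisymm
  · obtain ⟨R, hR, h⟩ := pencil_degree_aux χ n z hn hχ h8 P T hP hT
    rw [h]
    refine (natDegree_add_le _ _).trans (max_le hR.le ?_)
    exact (natDegree_map_le).trans hχ.deg0.le
  · apply le_natDegree_of_ne_zero
    rw [pencil_coeff χ n z hn hχ h8 P T hP hT, Ne, C_eq_zero]
    exact hχ.lead_ne (by omega)

theorem pencil_leadingCoeff (χ : K[X][X]) (n z : ℕ) (hn : 1 ≤ n) (hχ : IsCnz χ n z)
    (h8 : 8 * n ≤ z) (P T : K[X]) (hP : P.natDegree ≤ 4) (hT : T.natDegree ≤ 4) :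
    (pencil χ P T).leadingCoeff = C (χ.coeff 0).leadingCoeff := by
  rw [leadingCoeff, pencil_natDegree χ n z hn hχ h8 P T hP hT,
    pencil_coeff χ n z hn hχ h8 P T hP hT]

theorem dvd_comp_pencil (χ : K[X][X]) (P T D : K[X]) (h1 : D ∣ T) (h2 : D ∣ χ.eval P) :
    (C D : K[X][X]) ∣ χ.comp (C P + C T * X) := by
  have h3 : (C P + C T * X - C P : K[X][X]) ∣ χ.comp (C P + C T * X) - χ.comp (C P) := by
    have h4 := sub_dvd_eval_sub (C P + C T * X : K[X][X]) (C P) (χ.map C)
    rwa [eval_map, eval_map] at h4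
  have h5 : (C D : K[X][X]) ∣ C P + C T * X - C P := by
    rw [add_sub_cancel_left]
    exact (_root_.map_dvd C h1).mul_right X
  have h6 : (C D : K[X][X]) ∣ χ.comp (C P) := by
    rw [comp_C]; exact _root_.map_dvd C h2
  have h7 := dvd_add (h5.trans h3) h6
  rwa [sub_add_cancel] at h7

/-- the pencil polynomial divided by its base points -/
theorem exists_G (χ : K[X][X]) (n z : ℕ) (hn : 1 ≤ n) (hχ : IsCnz χ n z)
    (h8 : 8 * n ≤ z) (P T D : K[X]) (hP : P.natDegree ≤ 4) (hT : T.natDegree ≤ 4)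
    (hD : D.Monic) (h1 : D ∣ T) (h2 : D ∣ χ.eval P) :
    ∃ G : K[X][X], G.Monic ∧ G.natDegree = z - D.natDegree ∧
      (∀ i, (G.coeff i).natDegree ≤ n) ∧
      C (C ((χ.coeff 0).leadingCoeff)) * D.map C * G = pencil χ P T := by
  set l := (χ.coeff 0).leadingCoeff with hl
  have hl0 : l ≠ 0 := hχ.lead_ne (by omega)
  obtain ⟨Q, hQ⟩ := dvd_comp_pencil χ P T D h1 h2
  have hQd : Q.natDegree ≤ n := by
    rw [← natDegree_C_mul (a := D) hD.ne_zero, ← hQ]
    refine (natDegree_comp_le).trans ?_
    rw [hχ.natDegree]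
    have h3 : (C P + C T * X : K[X][X]).natDegree ≤ 1 := by
      refine (natDegree_add_le _ _).trans (max_le ?_ ?_)
      · rw [natDegree_C]; omega
      · exact (natDegree_C_mul_le _ _).trans natDegree_X_le
    calc n * (C P + C T * X : K[X][X]).natDegree ≤ n * 1 := Nat.mul_le_mul_left _ h3
      _ = n := mul_one n
  set G : K[X][X] := C (C l⁻¹) * Bivariate.swap Q with hG
  have hid : C (C l) * D.map C * G = pencil χ P T := by
    have h3 : (C (C l) : K[X][X]) * C (C l⁻¹) = 1 := by
      rw [← C_mul, ← C_mul, mul_inv_cancel₀ hl0, C_1, C_1]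
    have h4 : pencil χ P T = D.map C * Bivariate.swap Q := by
      rw [← Bivariate.swap_C, ← map_mul, ← hQ, ← swap_pencil, Bivariate.swap_swap_apply]
    rw [h4, hG]
    linear_combination (D.map C * Bivariate.swap Q) * h3
  have hlead : G.leadingCoeff = 1 := by
    have h3 := congrArg leadingCoeff hid
    rw [pencil_leadingCoeff χ n z hn hχ h8 P T hP hT, leadingCoeff_mul, leadingCoeff_mul,
      leadingCoeff_C, (hD.map C).leadingCoeff, mul_one, ← hl] at h3
    have h4 : (C l : K[X]) ≠ 0 := by rw [Ne, C_eq_zero]; exact hl0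
    exact mul_left_cancel₀ h4 (h3.trans (mul_one _).symm)
  refine ⟨G, hlead, ?_, ?_, hid⟩
  · have h3 := congrArg natDegree hid
    have hG0 : G ≠ 0 := by
      intro h
      rw [h, leadingCoeff_zero] at hlead
      exact zero_ne_one hlead
    have hl1 : (C (C l) : K[X][X]) ≠ 0 := by
      rw [Ne, C_eq_zero, C_eq_zero]; exact hl0
    rw [pencil_natDegree χ n z hn hχ h8 P T hP hT,
      natDegree_mul (mul_ne_zero hl1 (hD.map C).ne_zero) hG0,
      natDegree_mul hl1 (hD.map C).ne_zero, natDegree_C, hD.natDegree_map, zero_add] at h3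
    omega
  · intro i
    rw [hG, coeff_C_mul]
    exact (natDegree_C_mul_le _ _).trans ((natDegree_coeff_swap Q i).trans hQd)

/-! ### The content of the pencil as a polynomial in `lam` -/

theorem swap_id {χ : K[X][X]} {P T D : K[X]} {l : K} {G : K[X][X]}
    (h : C (C l) * D.map C * G = pencil χ P T) :
    C (C l) * C D * Bivariate.swap G = χ.comp (C P + C T * X) := by
  have h1 := congrArg Bivariate.swap h
  rwa [map_mul, map_mul, Bivariate.swap_C_C, Bivariate.swap_map_C, swap_pencil] at h1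

theorem eval_ne_zero_of_T {χ : K[X][X]} {n : ℕ} (hn : 1 ≤ n) (hm : χ.Monic)
    (hd : χ.natDegree = n) {P T D : K[X]} {l : K} {G : K[X][X]}
    (h : C (C l) * D.map C * G = pencil χ P T) {s : K} (hs : T.eval s ≠ 0) :
    G.eval (C s) ≠ 0 := by
  intro h0
  have h1 := congrArg (fun q : K[X][X] => q.map (evalRingHom s)) (swap_id h)
  simp only [Polynomial.map_mul, map_swap_eval, h0, mul_zero] at h1
  rw [map_comp, Polynomial.map_add, Polynomial.map_mul, map_C, map_C, map_X, coe_evalRingHom]
    at h1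
  have h2 := congrArg natDegree h1
  rw [natDegree_comp, hm.natDegree_map, hd, natDegree_zero, add_comm,
    natDegree_linear hs] at h2
  omega

theorem eval_coeff_zero {χ : K[X][X]} {P T D : K[X]} {l : K} {G : K[X][X]}
    (h : C (C l) * D.map C * G = pencil χ P T) (s : K) :
    l * D.eval s * (G.eval (C s)).coeff 0 = (χ.eval P).eval s := by
  have h1 : (C (C l) * C D * Bivariate.swap G).coeff 0 = (χ.comp (C P + C T * X)).coeff 0 :=
    congrArg (fun q : K[X][X] => q.coeff 0) (swap_id h)
  rw [← C_mul, coeff_C_mul, coeff_zero_eq_eval_zero (χ.comp _), eval_comp] at h1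
  simp only [eval_add, eval_mul, eval_C, eval_X, mul_zero, add_zero] at h1
  have h2 := congrArg (eval s) h1
  rw [eval_mul, eval_mul, eval_C] at h2
  rw [coeff_eval_C]
  exact h2

/-- the coefficient of `lam` -/
theorem eval_coeff_one {χ : K[X][X]} {P T D T' : K[X]} (hD : D ≠ 0) (hT : T = D * T') {l : K}
    {G : K[X][X]} (h : C (C l) * D.map C * G = pencil χ P T) (s : K) :
    l * (G.eval (C s)).coeff 1 = ((derivative χ).eval P).eval s * T'.eval s := by
  have h1 : (C (C l) * C D * Bivariate.swap G).coeff 1 = (χ.comp (C P + C T * X)).coeff 1 :=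
    congrArg (fun q : K[X][X] => q.coeff 1) (swap_id h)
  have h3 : (χ.comp (C P + C T * X)).coeff 1 = (derivative χ).eval P * T := by
    have h4 : (derivative (χ.comp (C P + C T * X))).coeff 0 =
        (χ.comp (C P + C T * X)).coeff 1 := by
      rw [coeff_derivative]; simp
    rw [← h4, derivative_comp, coeff_zero_eq_eval_zero, eval_mul, eval_comp]
    simp only [derivative_add, derivative_mul, derivative_C, derivative_X, zero_mul, zero_add,
      mul_one, eval_add, eval_mul, eval_C, eval_X, mul_zero, add_zero]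
    ring
  rw [h3, ← C_mul, coeff_C_mul, hT] at h1
  have h5 : C l * (Bivariate.swap G).coeff 1 = (derivative χ).eval P * T' := by
    apply mul_left_cancel₀ hD
    linear_combination h1
  have h6 := congrArg (eval s) h5
  rw [eval_mul, eval_mul, eval_C] at h6
  rw [coeff_eval_C]
  exact h6

end Pool.Agent.K1
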