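import Pool.Agent.K1.CurveDef
import Pool.Agent.K1.M5e
import Pool.Agent.K1.M5charA

/-!
K1-26, part 1: transport of `ψ` to the curves of `Spec A`, finiteness of the set of points of a
one leaf curve over a value of `s`.
-/

set_option autoImplicit false

open Polynomial

namespace Pool.Agent.K1

/-- Restriction to a smaller family. -/
theorem CurveFun.mono {A : Type} [CommRing A] {V V' : Set A} {φ : A → A → ℚ}
    (h : CurveFun V φ) (hV : V' ⊆ V) : CurveFun V' φ where
  mul d hd := h.mul d (hV hd)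
  congr d hd := h.congr d (hV hd)
  link d hd d' hd' := h.link d (hV hd) d' (hV hd')

/-- the points of `A / I`, as points of `A` -/
theorem mem_range_comp_mk {k A : Type} [Field k] [CommRing A] [Algebra k A] (d : A)
    (x : A →ₐ[k] k) :
    (∃ x' : (A ⧸ Ideal.span {d}) →ₐ[k] k, x'.comp (Ideal.Quotient.mkₐ k (Ideal.span {d})) = x) ↔
      x d = 0 := by
  constructor
  · rintro ⟨x', rfl⟩
    rw [AlgHom.comp_apply, Ideal.Quotient.mkₐ_eq_mk,
      Ideal.Quotient.eq_zero_iff_mem.2 (Ideal.mem_span_singleton_self d), map_zero]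
  · intro h
    refine ⟨Ideal.Quotient.liftₐ (Ideal.span {d}) x ?_, ?_⟩
    · intro a ha
      obtain ⟨b, rfl⟩ := Ideal.mem_span_singleton.1 ha
      rw [map_mul, h, zero_mul]
    · ext a
      rfl

theorem comp_mk_injective {k A : Type} [Field k] [CommRing A] [Algebra k A] (d : A) :
    Function.Injective (fun x' : (A ⧸ Ideal.span {d}) →ₐ[k] k =>
      x'.comp (Ideal.Quotient.mkₐ k (Ideal.span {d}))) := by
  intro x' y' h
  apply Ideal.Quotient.algHom_ext
  exact h

theorem exists_Psi_one (p : ℕ) [Fact p.Prime] {k A : Type} [Field k]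
    [CharP k p] [Algebra (ZMod p) k] [Algebra.IsAlgebraic (ZMod p) k] [CommRing A]
    [Algebra k A] (V : Set A) (φ : A → A → ℚ) (hφ : CurveFun V φ) (d : A) (hd : d ∈ V)
    (hdom : IsDomain (A ⧸ Ideal.span {d})) (o : OneLeaf k (A ⧸ Ideal.span {d})) :
    ∃ ψ : (A →ₐ[k] k) → ℚ, IsPsiA k d (φ d) ψ := by
  classical
  let mk : A →+* A ⧸ Ideal.span {d} := Ideal.Quotient.mk (Ideal.span {d})
  have hmk : ∀ a, mk a = 0 ↔ a ∈ Ideal.span {d} := fun a => Ideal.Quotient.eq_zero_iff_mem
  have hsurj : Function.Surjective mk := Ideal.Quotient.mk_surjective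
  let out : A ⧸ Ideal.span {d} → A := Function.surjInv hsurj
  have hout : ∀ r, mk (out r) = r := Function.surjInv_eq hsurj
  have hout0 : ∀ r, r ≠ 0 → out r ∉ Ideal.span {d} := by
    intro r hr h
    apply hr
    rw [← hout r]
    exact (hmk _).2 h
  have hcg : ∀ f, f ∉ Ideal.span {d} → ∀ g, mk f = mk g → φ d f = φ d g := by
    intro f hf g hfg
    apply hφ.congr d hd f g hf
    rw [← hmk, map_sub, hfg, sub_self]
  have hmul : IsMulFun (fun r => φ d (out r)) := by
    intro f g hf hg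
    change φ d (out (f * g)) = φ d (out f) + φ d (out g)
    rw [← hφ.mul d hd _ _ (hout0 f hf) (hout0 g hg)]
    apply hcg _ (hout0 _ (mul_ne_zero hf hg))
    rw [map_mul, hout, hout, hout]
  obtain ⟨ψ, hψ⟩ := M5e_exists_psi (p := p) (k := k) o (fun r => φ d (out r)) hmul
  let j : ((A ⧸ Ideal.span {d}) →ₐ[k] k) → (A →ₐ[k] k) := fun x' =>
    x'.comp (Ideal.Quotient.mkₐ k (Ideal.span {d}))
  have hj : Function.Injective j := comp_mk_injective d
  have hjx : ∀ x', ∀ a, j x' a = x' (mk a) := fun x' a => rfl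
  have hmapker : ∀ x', Ideal.map mk (RingHom.ker (j x')) = RingHom.ker x' := by
    intro x'
    ext r
    rw [Ideal.mem_map_iff_of_surjective mk hsurj]
    constructor
    · rintro ⟨a, ha, rfl⟩
      rw [RingHom.mem_ker] at ha ⊢
      rw [← hjx]
      exact ha
    · intro hr
      refine ⟨out r, ?_, hout r⟩
      rw [RingHom.mem_ker] at hr ⊢
      rw [hjx, hout]
      exact hr
  refine ⟨fun x => if h : ∃ x', j x' = x then ψ h.choose else 0, ?_⟩
  have hval : ∀ x', (if h : ∃ y', j y' = j x' then ψ h.choose else 0) = ψ x' := by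
    intro x'
    have h : ∃ y', j y' = j x' := ⟨x', rfl⟩
    rw [dif_pos h]
    exact congrArg ψ (hj h.choose_spec)
  intro f hf m hm hspan
  -- write `m` as the image of a divisor on the curve
  let m' : ((A ⧸ Ideal.span {d}) →ₐ[k] k) →₀ ℕ := m.comapDomain j hj.injOn
  have hm' : m = m'.mapDomain j := by
    rw [Finsupp.mapDomain_comapDomain j hj m]
    intro x hx
    obtain ⟨x', hx'⟩ := (mem_range_comp_mk d x).2 (hm x hx)
    exact ⟨x', hx'⟩
  have h1 : Ideal.span {mk f} = m'.prod (fun x e => (RingHom.ker x) ^ e) := by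
    have h2 := congrArg (Ideal.map mk) hspan
    rw [Ideal.map_span, Set.image_pair, Ideal.map_sup, Ideal.map_span, Set.image_singleton,
      (hmk d).2 (Ideal.mem_span_singleton_self d)] at h2
    have h3 : Ideal.span {(0 : A ⧸ Ideal.span {d})} = ⊥ := Ideal.span_singleton_eq_bot.2 rfl
    have h4 : Ideal.span {mk f, (0 : A ⧸ Ideal.span {d})} = Ideal.span {mk f} := by
      rw [Ideal.span_insert, h3, sup_bot_eq]
    rw [h3, sup_bot_eq, h4] at h2
    rw [h2, hm', Finsupp.prod_mapDomain_index_inj hj]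
    change Ideal.mapHom mk (∏ x' ∈ m'.support, RingHom.ker (j x') ^ m' x') = _
    rw [map_prod]
    refine Finset.prod_congr rfl fun x' _ => ?_
    change Ideal.map mk (RingHom.ker (j x') ^ m' x') = _
    rw [Ideal.map_pow, hmapker]
  have h5 : mk f ≠ 0 := fun h => hf ((hmk f).1 h)
  have h6 := hψ (mk f) h5 m' h1
  have h7 : φ d (out (mk f)) = φ d f := hcg _ (hout0 _ h5) _ (hout _)
  rw [← h7]
  refine h6.trans ?_
  rw [hm', Finsupp.sum_mapDomain_index_inj hj]
  refine Finset.sum_congr rfl fun x' _ => ?_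
  change _ = _ * (if h : ∃ y', j y' = j x' then ψ h.choose else 0)
  rw [hval]

/-- Existence of `Ψ` for the curves of the family. -/
theorem exists_Psi (p : ℕ) [Fact p.Prime] {k A : Type} [Field k] [IsAlgClosed k]
    [CharP k p] [Algebra (ZMod p) k] [Algebra.IsAlgebraic (ZMod p) k] [CommRing A]
    [Algebra k A] (V : Set A)
    (hV : ∀ d ∈ V, IsDomain (A ⧸ Ideal.span {d}) ∧ Nonempty (OneLeaf k (A ⧸ Ideal.span {d})))
    (φ : A → A → ℚ) (hφ : CurveFun V φ) :
    ∃ Ψ : A → (A →ₐ[k] k) → ℚ, ∀ d ∈ V, IsPsiA k d (φ d) (Ψ d) := by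
  classical
  refine ⟨fun d => if h : ∃ ψ : (A →ₐ[k] k) → ℚ, IsPsiA k d (φ d) ψ then h.choose else 0, ?_⟩
  intro d hd
  obtain ⟨hdom, ⟨o⟩⟩ := hV d hd
  have h : ∃ ψ : (A →ₐ[k] k) → ℚ, IsPsiA k d (φ d) ψ :=
    exists_Psi_one p V φ hφ d hd hdom o
  change IsPsiA k d (φ d) (if h : ∃ ψ : (A →ₐ[k] k) → ℚ, IsPsiA k d (φ d) ψ then h.choose else 0)
  rw [dif_pos h]
  exact h.choose_spec

/-- A one leaf curve has finitely many points with a given value of `s`. -/
theorem finite_points {k A : Type} [Field k] [CommRing A] [Algebra k A] (d s Y : A) (n z : ℕ)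
    (hn : 2 ≤ n) (hz : 1 ≤ z) (hcop : n.Coprime z)
    (hdom : IsDomain (A ⧸ Ideal.span {d})) (o : OneLeaf k (A ⧸ Ideal.span {d}))
    (hs : o.wt (Ideal.Quotient.mk _ s) = n) (hY : o.wt (Ideal.Quotient.mk _ Y) = z) (c : k) :
    {x : A →ₐ[k] k | x d = 0 ∧ x s = c}.Finite := by
  classical
  let R := A ⧸ Ideal.span {d}
  obtain ⟨inst, htow, hfree, hfin, halg, hX, -⟩ :=
    exists_free o (Ideal.Quotient.mk _ s) (Ideal.Quotient.mk _ Y) n z hn hz hcop hs hY
  let I : Ideal A := Ideal.span {d, s - algebraMap k A c}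
  have hdI : Ideal.span {d} ≤ I := Ideal.span_mono (by simp)
  let f : A ⧸ Ideal.span {d} →ₐ[k] A ⧸ I := Ideal.Quotient.factorₐ k hdI
  have hf : Function.Surjective f := Ideal.Quotient.factor_surjective hdI
  have hfs : f (Ideal.Quotient.mk _ s) = algebraMap k (A ⧸ I) c := by
    change Ideal.Quotient.mk I s = Ideal.Quotient.mk I (algebraMap k A c)
    rw [Ideal.Quotient.eq]
    exact Ideal.subset_span (by simp)
  have hsm : ∀ (P : k[X]) (r : A ⧸ Ideal.span {d}), f (P • r) = P.eval c • f r := by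
    intro P r
    rw [Algebra.smul_def, map_mul, halg]
    change f (aeval (Ideal.Quotient.mk _ s) P) * f r = _
    rw [← Polynomial.aeval_algHom_apply, hfs, Polynomial.aeval_algebraMap_apply,
      ← Algebra.smul_def, Polynomial.coe_aeval_eq_eval]
  obtain ⟨T, hT⟩ := hfin.fg_top
  have hfin2 : Module.Finite k (A ⧸ I) := by
    refine ⟨⟨T.image f, ?_⟩⟩
    rw [eq_top_iff]
    intro b _
    obtain ⟨r, rfl⟩ := hf b
    have hr : r ∈ Submodule.span k[X] (T : Set (A ⧸ Ideal.span {d})) := by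
      rw [hT]
      exact Submodule.mem_top
    induction hr using Submodule.span_induction with
    | mem r hr => exact Submodule.subset_span (by simpa using ⟨r, hr, rfl⟩)
    | zero => rw [map_zero]; exact Submodule.zero_mem _
    | add r r' _ _ h h' => rw [map_add]; exact Submodule.add_mem _ (h trivial) (h' trivial)
    | smul P r _ h => rw [hsm]; exact Submodule.smul_mem _ _ (h trivial)
  have hfin3 : Finite ((A ⧸ I) →ₐ[k] k) := inferInstance
  have hsub : {x : A →ₐ[k] k | x d = 0 ∧ x s = c} ⊆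
      Set.range (fun x' : (A ⧸ I) →ₐ[k] k => x'.comp (Ideal.Quotient.mkₐ k I)) := by
    rintro x ⟨hx1, hx2⟩
    refine ⟨Ideal.Quotient.liftₐ I x ?_, ?_⟩
    · intro a ha
      have h1 : I ≤ RingHom.ker x := by
        rw [Ideal.span_le]
        rintro y hy
        rcases hy with rfl | rfl
        · exact hx1
        · change x (s - algebraMap k A c) = 0
          rw [map_sub, hx2, AlgHom.commutes]
          exact sub_self c
      exact h1 ha
    · ext a
      rfl
  exact (Set.finite_range _).subset hsub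

end Pool.Agent.K1
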