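import Pool.Agent.K1.DefsMov

/-!
Valuations give integrality at infinity.
-/

set_option autoImplicit false

open Polynomial

namespace Pool.Agent.K1

section valinf

variable {k κ : Type} [Field k] [Field κ] [Algebra k κ]

/-- the ring of the `a(s)/v(s)` with `deg a ≤ deg v` -/
noncomputable def Oinf (k : Type) {κ : Type} [Field k] [Field κ] [Algebra k κ] (s : κ) :
    Subring κ where
  carrier := {g | ∃ v a : k[X], v ≠ 0 ∧ a.natDegree ≤ v.natDegree ∧ aeval s v * g = aeval s a}
  mul_mem' := by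
    rintro g g' ⟨v, a, hv, ha, h⟩ ⟨v', a', hv', ha', h'⟩
    refine ⟨v * v', a * a', mul_ne_zero hv hv', ?_, ?_⟩
    · rw [natDegree_mul hv hv']
      exact natDegree_mul_le.trans (add_le_add ha ha')
    · rw [map_mul, map_mul, ← h, ← h']
      ring
  one_mem' := ⟨1, 1, one_ne_zero, le_rfl, by rw [map_one, mul_one]⟩
  add_mem' := by
    rintro g g' ⟨v, a, hv, ha, h⟩ ⟨v', a', hv', ha', h'⟩
    refine ⟨v * v', a * v' + v * a', mul_ne_zero hv hv', ?_, ?_⟩
    · rw [natDegree_mul hv hv']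
      refine (natDegree_add_le _ _).trans (max_le ?_ ?_)
      · exact natDegree_mul_le.trans (add_le_add ha le_rfl)
      · exact natDegree_mul_le.trans (add_le_add le_rfl ha')
    · rw [map_add, map_mul, map_mul, map_mul, ← h, ← h']
      ring
  zero_mem' := ⟨1, 0, one_ne_zero, by simp, by simp⟩
  neg_mem' := by
    rintro g ⟨v, a, hv, ha, h⟩
    refine ⟨v, -a, hv, by rwa [natDegree_neg], ?_⟩
    rw [map_neg, ← h, mul_neg]

theorem mem_Oinf (s g : κ) : g ∈ Oinf k s ↔
    ∃ v a : k[X], v ≠ 0 ∧ a.natDegree ≤ v.natDegree ∧ aeval s v * g = aeval s a := Iff.rfl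

/-- valuation rings containing `Oinf` and `s` are everything -/
theorem mem_of_Oinf_le (s : κ) (hs : ∀ r : k[X], aeval s r = 0 → r = 0)
    (halg : ∀ g : κ, ∃ P : k[X][X], P ≠ 0 ∧ P.eval₂ (aeval s : k[X] →ₐ[k] κ).toRingHom g = 0)
    (V : ValuationSubring κ) (hV : ∀ g ∈ Oinf k s, g ∈ V) (hsV : s ∈ V) (g : κ) : g ∈ V := by
  have hs0 : s ≠ 0 := by
    intro h0
    exact X_ne_zero (hs X (by rw [aeval_X, h0]))
  have hk : ∀ c : k, algebraMap k κ c ∈ V := by
    intro c
    apply hV
    exact ⟨1, C c, one_ne_zero, by simp, by simp⟩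
  have hpoly : ∀ r : k[X], aeval s r ∈ V := by
    intro r
    induction r using Polynomial.induction_on' with
    | add p q hp hq => rw [map_add]; exact add_mem hp hq
    | monomial n c =>
      rw [aeval_monomial]
      exact mul_mem (hk c) (pow_mem hsV n)
  have hinv : ∀ r : k[X], r ≠ 0 → (aeval s r)⁻¹ ∈ V := by
    intro r hr
    have hr0 : aeval s r ≠ 0 := fun h => hr (hs r h)
    have h1 : s ^ r.natDegree * (aeval s r)⁻¹ ∈ V := by
      apply hV
      refine ⟨r, X ^ r.natDegree, hr, by rw [natDegree_X_pow], ?_⟩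
      rw [map_pow, aeval_X]
      field_simp
    have h2 : s⁻¹ ∈ V := by
      apply hV
      refine ⟨X, 1, X_ne_zero, by simp, ?_⟩
      rw [aeval_X, map_one, mul_inv_cancel₀ hs0]
    have h3 : (aeval s r)⁻¹ = s⁻¹ ^ r.natDegree * (s ^ r.natDegree * (aeval s r)⁻¹) := by
      rw [← mul_assoc, ← mul_pow, inv_mul_cancel₀ hs0, one_pow, one_mul]
    rw [h3]
    exact mul_mem (pow_mem h2 _) h1
  obtain ⟨P, hP0, hP⟩ := halg g
  let φ : k[X] →+* V := (aeval s : k[X] →ₐ[k] κ).toRingHom.codRestrict V hpoly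
  have hφ : ∀ r : k[X], ((φ r : V) : κ) = aeval s r := fun r => rfl
  have hφinj : Function.Injective φ := by
    rw [injective_iff_map_eq_zero]
    intro r hr
    apply hs
    rw [← hφ, hr]
    rfl
  have hint : IsIntegral V g := by
    have hc0 : P.leadingCoeff ≠ 0 := leadingCoeff_ne_zero.2 hP0
    let b : V := ⟨(aeval s P.leadingCoeff)⁻¹, hinv _ hc0⟩
    refine ⟨C b * P.map φ, ?_, ?_⟩
    · apply monic_C_mul_of_mul_leadingCoeff_eq_one
      rw [leadingCoeff_map_of_injective hφinj]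
      apply Subtype.ext
      show (aeval s P.leadingCoeff)⁻¹ * aeval s P.leadingCoeff = 1
      exact inv_mul_cancel₀ fun h => hc0 (hs _ h)
    · rw [eval₂_mul, eval₂_map]
      have h1 : (algebraMap V κ).comp φ = (aeval s : k[X] →ₐ[k] κ).toRingHom := rfl
      rw [h1, hP, mul_zero]
  obtain ⟨y, hy⟩ := IsIntegrallyClosed.isIntegral_iff.1 hint
  rw [← hy]
  exact y.2

/-- valuations give integrality at infinity -/
theorem intInf_of_valuation {k κ : Type} [Field k] [Field κ] [Algebra k κ] (s h : κ)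
    (hs : ∀ r : k[X], aeval s r = 0 → r = 0)
    (halg : ∀ g : κ, ∃ P : k[X][X], P ≠ 0 ∧ P.eval₂ (aeval s : k[X] →ₐ[k] κ).toRingHom g = 0)
    (hV : ∀ V : ValuationSubring κ, (∀ c : k, algebraMap k κ c ∈ V) → s ∉ V → h ∈ V) :
    ∃ m : ℕ, IntInf k s h m := by
  classical
  have hmem : h ∈ ⨅ V : {V : ValuationSubring κ // ((Oinf k s : Subring κ) : Set κ) ⊆ V.toSubring},
      V.1.toSubring := by
    rw [Subring.mem_iInf]
    rintro ⟨V, hVO⟩
    show h ∈ V
    by_cases hsV : s ∈ V
    · exact mem_of_Oinf_le s hs halg V (fun g hg => hVO hg) hsV h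
    · apply hV V ?_ hsV
      intro c
      exact hVO (show _ ∈ Oinf k s from ⟨1, C c, one_ne_zero, by simp, by simp⟩)
  rw [iInf_valuationSubring_superset] at hmem
  obtain ⟨p, hp, hp0⟩ := hmem
  have hcl : ∀ c : Subring.closure ((Oinf k s : Subring κ) : Set κ),
      ∃ v a : k[X], v ≠ 0 ∧ a.natDegree ≤ v.natDegree ∧ aeval s v * (c : κ) = aeval s a := by
    rintro ⟨c, hc⟩
    rw [Subring.closure_eq] at hc
    exact hc
  choose v a hv ha hva using hcl
  set m := p.natDegree with hm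
  refine ⟨m, ∏ i : Fin m, v (p.coeff i),
    fun i => -((∏ j ∈ Finset.univ.erase i, v (p.coeff j)) * a (p.coeff i)), ?_, ?_, ?_⟩
  · exact Finset.prod_ne_zero_iff.2 fun i _ => hv _
  · intro i
    rw [natDegree_neg, ← Finset.mul_prod_erase Finset.univ (fun j : Fin m => v (p.coeff j))
      (Finset.mem_univ i), mul_comm (v (p.coeff i))]
    rw [natDegree_mul (Finset.prod_ne_zero_iff.2 fun i _ => hv _) (hv _)]
    exact natDegree_mul_le.trans (add_le_add le_rfl (ha _))
  · rw [eval₂_eq_sum_range, Finset.sum_range_succ] at hp0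
    have h1 : p.coeff p.natDegree = 1 := hp
    rw [h1, map_one, one_mul, ← hm] at hp0
    have h2 : h ^ m = -∑ i ∈ Finset.range m,
        (algebraMap (Subring.closure ((Oinf k s : Subring κ) : Set κ)) κ) (p.coeff i) * h ^ i :=
      eq_neg_of_add_eq_zero_right hp0
    rw [h2, Finset.sum_range, mul_neg, Finset.mul_sum, ← Finset.sum_neg_distrib]
    apply Finset.sum_congr rfl
    intro i _
    rw [← Finset.mul_prod_erase Finset.univ (fun j : Fin m => v (p.coeff j)) (Finset.mem_univ i),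
      map_mul, map_neg, map_mul, ← hva (p.coeff i)]
    show -(_ * _ * ((p.coeff i : κ) * h ^ (i : ℕ))) = _
    ring

end valinf

end Pool.Agent.K1
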