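import Pool.Agent.K1.EndGame
import Pool.Agent.K1.Norm
import Pool.Agent.K1.ValInf
import Pool.Agent.K1.Wlt2

/-!
The theorem for surfaces with a one place expansion along a section, from the local formula and
the moving lemma.
-/

set_option autoImplicit false

open Polynomial

namespace Pool.Agent.K1

/-- The restriction to the curve as a homomorphism of algebras. -/
noncomputable def resHom (k : Type*) {A : Type*} [Field k] [CommRing A] [Algebra k A]
    (P : Curve1 A) : A →ₐ[k] kap P :=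
  (IsScalarTower.toAlgHom k (A ⧸ P.ideal) (kap P)).comp (Ideal.Quotient.mkₐ k P.ideal)

theorem resHom_apply (k : Type*) {A : Type*} [Field k] [CommRing A] [Algebra k A]
    (P : Curve1 A) (a : A) : resHom k P a = res P a := rfl

theorem aeval_res {k A : Type*} [Field k] [CommRing A] [Algebra k A] (P : Curve1 A) (s : A)
    (r : k[X]) : aeval (res P s) r = res P (aeval s r) := by
  rw [← resHom_apply k P s, aeval_algHom_apply, resHom_apply]

/-- The function field of a curve finite over the base line is algebraic over `k(s)`. -/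
theorem horiz_algebraic {k A : Type} [Field k] [IsAlgClosed k] [CommRing A] [IsDomain A]
    [Algebra k A] (E : SectionExp k A) (P : Curve1 A) (hP : Horiz E P) (g : kap P) :
    ∃ Q : k[X][X], Q ≠ 0 ∧
      Q.eval₂ (aeval (res P E.s) : k[X] →ₐ[k] kap P).toRingHom g = 0 := by
  classical
  obtain ⟨hs, hnorm⟩ := exists_norm E P hP
  let φ : k[X] →+* (A ⧸ P.ideal) := (Ideal.Quotient.mk P.ideal).comp (aeval E.s).toRingHom
  let _ : Algebra k[X] (A ⧸ P.ideal) := φ.toAlgebra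
  have hmap : (algebraMap k[X] (kap P)) =
      (aeval (res P E.s) : k[X] →ₐ[k] kap P).toRingHom := by
    apply RingHom.ext
    intro r
    rw [IsScalarTower.algebraMap_apply k[X] (A ⧸ P.ideal) (kap P)]
    change _ = aeval (res P E.s) r
    rw [aeval_res]
    rfl
  -- finite
  have hfin : Module.Finite k[X] (A ⧸ P.ideal) := by
    obtain ⟨G, hG⟩ := hP
    refine ⟨⟨G.image (Ideal.Quotient.mk P.ideal), ?_⟩⟩
    rw [eq_top_iff]
    rintro y -
    obtain ⟨f, rfl⟩ := Ideal.Quotient.mk_surjective y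
    obtain ⟨c, hc⟩ := hG f
    have h1 : Ideal.Quotient.mk P.ideal f =
        ∑ g ∈ G, (c g) • (Ideal.Quotient.mk P.ideal g : A ⧸ P.ideal) := by
      rw [← sub_eq_zero]
      have h2 : Ideal.Quotient.mk P.ideal (f - ∑ g ∈ G, aeval E.s (c g) * g) = 0 :=
        Ideal.Quotient.eq_zero_iff_mem.2 hc
      rw [map_sub, map_sum] at h2
      rw [← h2]
      congr 1
    rw [h1]
    apply Submodule.sum_mem
    intro g hg
    apply Submodule.smul_mem
    apply Submodule.subset_span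
    rw [Finset.coe_image]
    exact ⟨g, hg, rfl⟩
  have hint : Algebra.IsIntegral k[X] (A ⧸ P.ideal) := Algebra.IsIntegral.of_finite _ _
  have halg : ∀ c : A, IsAlgebraic k[X] (res P c) := by
    intro c
    have h1 : IsIntegral k[X] (Ideal.Quotient.mk P.ideal c) := hint.isIntegral _
    have h2 : IsIntegral k[X] (algebraMap (A ⧸ P.ideal) (kap P) (Ideal.Quotient.mk P.ideal c)) :=
      h1.algebraMap
    exact h2.isAlgebraic
  obtain ⟨a, b, hb, hab⟩ := IsFractionRing.div_surjective (A := A ⧸ P.ideal) g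
  obtain ⟨a, rfl⟩ := Ideal.Quotient.mk_surjective a
  obtain ⟨b, rfl⟩ := Ideal.Quotient.mk_surjective b
  have h1 : IsAlgebraic k[X] g := by
    rw [← hab, div_eq_mul_inv]
    exact (halg a).mul (halg b).inv
  obtain ⟨Q, hQ, hQ0⟩ := h1
  refine ⟨Q, hQ, ?_⟩
  rw [← hmap]
  exact hQ0

/-- Functions which are units at the places over infinity are integral at infinity. -/
theorem intInf_of_places {k A : Type} [Field k] [IsAlgClosed k] [CommRing A] [IsDomain A]
    [Algebra k A] (E : SectionExp k A) (P : Curve1 A) (hP : Horiz E P) (h : kap P)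
    (hV : ∀ V : ValuationSubring (kap P), (∀ c : k, algebraMap k (kap P) c ∈ V) →
      res P E.s ∉ V → h ∈ V) : ∃ m : ℕ, IntInf k (res P E.s) h m := by
  apply intInf_of_valuation (res P E.s) h _ (horiz_algebraic E P hP) hV
  intro r hr
  apply (exists_norm E P hP).1 r
  rw [aeval_res] at hr
  exact (res_eq_zero P _).1 hr

/-- The conclusion of the theorem `formula_near`, for given constants. -/
def FormulaNear {k A : Type} [Field k] [CommRing A] [Algebra k A] (E : SectionExp k A)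
    (c₀ μ₀ : ℕ) : Prop :=
  ∀ L : ℕ, ∃ n₀ : ℕ, ∀ e n M : ℕ, n = 2 ^ e → n₀ ≤ n → Odd M → μ₀ * n ≤ M →
      (∀ d : A, E.InV n M d → Prime d) ∧ ∀ q₀ : A, E.InV n M q₀ →
        (∀ a : A, E.WLt n M (((n * M : ℕ) : ℤ) - ((c₀ * n : ℕ) : ℤ)) (a - q₀) →
          E.InV n M a ∧ Prime a ∧
            ∀ f ∉ Ideal.span {a}, Module.Finite k (A ⧸ Ideal.span {a, f})) ∧
        ∀ Λ : A → A → ℚ, CurveFun {d | E.InV n M d} Λ →
          (∀ f g : A, E.InV n M f → E.InV n M g → f ∉ Ideal.span {g} → g ∉ Ideal.span {f} →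
            Λ f g = Λ g f) →
          ∃ u : (A →ₐ[k] k) → ℚ,
            ∀ a : A, E.WLt n M (((n * M : ℕ) : ℤ) - ((c₀ * n : ℕ) : ℤ)) (a - q₀) →
              ∀ f ∉ Ideal.span {a}, (∀ x : A →ₐ[k] k, lenAt x a f ≤ L) →
                Λ a f = ∑ᶠ x, u x * ((lenAt x a f).toNat : ℚ)

theorem FormulaNear.allNearForm {k A : Type} [Field k] [CommRing A] [IsDomain A] [Algebra k A]
    {E : SectionExp k A} {c₀ μ₀ : ℕ} (h : FormulaNear E c₀ μ₀) : AllNearForm E c₀ μ₀ := by
  intro L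
  obtain ⟨n₀, hn₀⟩ := h L
  refine ⟨n₀, ?_⟩
  intro e n M he hn hM hμ q₀ hq₀ Λ hΛ
  obtain ⟨h1, h2⟩ := hn₀ e n M he hn hM hμ
  obtain ⟨h3, h4⟩ := h2 q₀ hq₀
  obtain ⟨u, hu⟩ := h4 Λ (curveFun_of_isSymbOn _ Λ hΛ h1) (by
    intro f g hf hg _ hgf
    exact hΛ.symm f hf g hg (cop_of_prime_not_mem f g (h1 f hf) hgf))
  exact ⟨u, fun a ha => ⟨(h3 a ha).2.1, fun f hf => ⟨(h3 a ha).2.2 f hf, hu a ha f hf⟩⟩⟩

/-- The theorem for surfaces with an expansion along a section, from the local formula and the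
moving lemma. -/
theorem section_main_of {k A : Type} [Field k] [IsAlgClosed k] [CommRing A] [IsDomain A]
    [Algebra k A] [IsRegularRing A] (hdim : ringKrullDim A = 2) (E : SectionExp k A)
    (hnear : ∃ c₀ μ₀ : ℕ, FormulaNear E c₀ μ₀)
    (hmoving : ∀ (c₀ κ j₀ : ℕ) (F : ℕ → A), UFam E κ j₀ F → ∀ P : Curve1 A, Horiz E P →
      ∀ (h : (kap P)ˣ) (m m' : ℕ), IntInf k (res P E.s) (h : kap P) m →
        IntInf k (res P E.s) (h : kap P)⁻¹ m' → MovConcl E c₀ F P h)
    (U : A → A → Prop) (hU : ∃ μ n₁ : ℕ, ∀ n M : ℕ, n₁ ≤ n → μ * n ≤ M → ∀ a a' : A,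
      E.InV n M a → E.InV n M a' → U a a')
    (ξ : Chain1 A) (hhor : ∀ P : Curve1 A, ξ P ≠ 0 → Horiz E P)
    (hinf : ∀ P : Curve1 A, ξ P ≠ 0 → ∀ V : ValuationSubring (kap P),
      (∀ c : k, algebraMap k (kap P) c ∈ V) → res P E.s ∉ V →
        ((Additive.toMul (ξ P) : (kap P)ˣ) : kap P) ∈ V ∧
          ((Additive.toMul (ξ P) : (kap P)ˣ) : kap P)⁻¹ ∈ V)
    (hdiv : ∀ x : A →ₐ[k] k, ∑ᶠ P : Curve1 A, ordK P x (Additive.toMul (ξ P)) = 0) :
    ∃ N : ℕ, 0 < N ∧ N • ξ ∈ tameSubgroupRel A U := by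
  classical
  obtain ⟨c₀, μ₀, hform⟩ := hnear
  obtain ⟨j₀, κ, -, hunif⟩ := exists_unif E
  obtain ⟨μ, n₁, hU'⟩ := hU
  let F : ℕ → A := fun a => if h : j₀ ≤ a then (hunif a h).choose else 0
  have hF : UFam E κ j₀ F := by
    intro a ha
    have h1 : F a = (hunif a ha).choose := dif_pos ha
    rw [h1]
    exact (hunif a ha).choose_spec
  apply end_game (fun P => dvr_of_regular P) hdim.le E c₀ μ₀ hform.allNearForm κ j₀ F
    (fun n M hn hj hM => inV_star E κ j₀ F hF n M hn hj hM) ξ _ hdiv U n₁ μ hU'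
  intro P hP
  obtain ⟨m, hm⟩ := intInf_of_places E P (hhor P hP) _ (fun V h1 h2 => (hinf P hP V h1 h2).1)
  obtain ⟨m', hm'⟩ := intInf_of_places E P (hhor P hP) _ (fun V h1 h2 => (hinf P hP V h1 h2).2)
  exact hmoving c₀ κ j₀ F hF P (hhor P hP) _ m m' hm hm'

end Pool.Agent.K1
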