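import Pool.Agent.K1.EndGameR
import Pool.Agent.K1.NearFormula
import Pool.Agent.K1.Moving

/-!
The theorem for surfaces with a one place expansion along a section, from the core of part A and
the moving lemma.
-/

set_option autoImplicit false

open Polynomial

namespace Pool.Agent.K1

/-- The theorem for surfaces with an expansion along a section, from the core of part A for the
prime `r` and the moving lemma. -/
theorem section_main_of_core (p r : ℕ) [Fact p.Prime] (hr : r.Prime) (hrp : r ≠ p) {k A : Type}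
    [Field k] [IsAlgClosed k] [CharP k p] [Algebra (ZMod p) k] [Algebra.IsAlgebraic (ZMod p) k]
    [CommRing A] [IsDomain A] [Algebra k A] [IsRegularRing A] (hdim : ringKrullDim A = 2)
    (E : SectionExp k A) (hcore : ∃ c₀ μ₀ n₀ : ℕ, K1CoreConclR r E c₀ μ₀ n₀)
    (hmoving : ∀ (c₀ κ j₀ : ℕ) (F : ℕ → A), UFam E κ j₀ F → ∀ P : Curve1 A, Horiz E P →
      ∀ (h : (kap P)ˣ) (m m' : ℕ), IntInf k (res P E.s) (h : kap P) m →
        IntInf k (res P E.s) (h : kap P)⁻¹ m' → MovConcl E c₀ F P h)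
    (U : A → A → Prop) (hU : ∃ μ n₁ : ℕ, ∀ n M : ℕ, n₁ ≤ n → μ * n ≤ M → ∀ a a' : A,
      E.InV n M a → E.InV n M a' → U a a')
    (ξ : Chain1 A) (hhor : ∀ P : Curve1 A, ξ P ≠ 0 → Horiz E P)
    (hinf : ∀ P : Curve1 A, ξ P ≠ 0 → ∀ V : ValuationSubring (kap P),
      (∀ c : k, algebraMap k (kap P) c ∈ V) → res P E.s ∉ V →
        ((Additive.toMul (ξ P) : (kap P)ˣ) : kap P) ∈ V ∧
          ((Additive.toMul (ξ P) : (kap P)ˣ) : kap P)⁻¹ ∈ V)
    (hdiv : ∀ x : A →ₐ[k] k, ∑ᶠ P : Curve1 A, ordK P x (Additive.toMul (ξ P)) = 0) :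
    ∃ N : ℕ, 0 < N ∧ N • ξ ∈ tameSubgroupRel A U :=
  section_main_of_R r hr.two_le hdim E (formula_near_R p r hr hrp hdim E hcore) hmoving U hU ξ
    hhor hinf hdiv

/-- The theorem for surfaces with an expansion along a section, from the core of part A for the
prime `r`. -/
theorem section_main_R (p r : ℕ) [Fact p.Prime] (hr : r.Prime) (hrp : r ≠ p) {k A : Type}
    [Field k] [IsAlgClosed k] [CharP k p] [Algebra (ZMod p) k] [Algebra.IsAlgebraic (ZMod p) k]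
    [CommRing A] [IsDomain A] [Algebra k A] [IsRegularRing A] (hdim : ringKrullDim A = 2)
    (E : SectionExp k A) (hcore : ∃ c₀ μ₀ n₀ : ℕ, K1CoreConclR r E c₀ μ₀ n₀)
    (U : A → A → Prop) (hU : ∃ μ n₁ : ℕ, ∀ n M : ℕ, n₁ ≤ n → μ * n ≤ M → ∀ a a' : A,
      E.InV n M a → E.InV n M a' → U a a')
    (ξ : Chain1 A) (hhor : ∀ P : Curve1 A, ξ P ≠ 0 → Horiz E P)
    (hinf : ∀ P : Curve1 A, ξ P ≠ 0 → ∀ V : ValuationSubring (kap P),
      (∀ c : k, algebraMap k (kap P) c ∈ V) → res P E.s ∉ V →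
        ((Additive.toMul (ξ P) : (kap P)ˣ) : kap P) ∈ V ∧
          ((Additive.toMul (ξ P) : (kap P)ˣ) : kap P)⁻¹ ∈ V)
    (hdiv : ∀ x : A →ₐ[k] k, ∑ᶠ P : Curve1 A, ordK P x (Additive.toMul (ξ P)) = 0) :
    ∃ N : ℕ, 0 < N ∧ N • ξ ∈ tameSubgroupRel A U :=
  section_main_of_core p r hr hrp hdim E hcore
    (fun c₀ κ j₀ F hF P hP h m m' hm hm' => moving p E c₀ κ j₀ F hF P hP h m m' hm hm')
    U hU ξ hhor hinf hdiv

end Pool.Agent.K1
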