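import Pool.Agent.K1.TDefs
import Pool.Agent.K1.NOrd

/-!
Theorem N for finite families of curves with given function fields.
-/

set_option autoImplicit false

open Polynomial

namespace Pool.Agent.K1

section iso

variable {A F : Type} [CommRing A] [Field F] (ρ : A →+* F)

/-- The curve `ker ρ`. -/
def tfCurve (h1 : (RingHom.ker ρ).height = 1) : Curve1 A :=
  ⟨RingHom.ker ρ, RingHom.ker_isPrime ρ, h1⟩

/-- The function field of the curve `ker ρ`. -/
theorem tf_exists_equiv (hρ : IsFrac ρ) (h1 : (RingHom.ker ρ).height = 1) :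
    ∃ e : kap (tfCurve ρ h1) ≃+* F, ∀ a : A, e (res (tfCurve ρ h1) a) = ρ a := by
  let j : (A ⧸ (tfCurve ρ h1).ideal) →+* F := RingHom.kerLift ρ
  have hj : ∀ a : A, j (Ideal.Quotient.mk _ a) = ρ a := fun a => RingHom.kerLift_mk ρ a
  have hinj : Function.Injective j := RingHom.kerLift_injective ρ
  let _ : Algebra (A ⧸ (tfCurve ρ h1).ideal) F := j.toAlgebra
  have hfs : FaithfulSMul (A ⧸ (tfCurve ρ h1).ideal) F :=
    (faithfulSMul_iff_algebraMap_injective _ _).2 hinj
  have hfr : IsFractionRing (A ⧸ (tfCurve ρ h1).ideal) F := by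
    refine IsFractionRing.of_field _ _ fun f => ?_
    obtain ⟨a, b, hb, hab⟩ := hρ f
    refine ⟨Ideal.Quotient.mk _ a, Ideal.Quotient.mk _ b, ?_⟩
    change f = j (Ideal.Quotient.mk _ a) / j (Ideal.Quotient.mk _ b)
    rw [hj, hj, ← hab, mul_div_cancel_right₀ _ hb]
  let e := FractionRing.algEquiv (A ⧸ (tfCurve ρ h1).ideal) F
  refine ⟨e.toRingEquiv, fun a => ?_⟩
  have h2 : e (algebraMap (A ⧸ (tfCurve ρ h1).ideal) (kap (tfCurve ρ h1))
      (Ideal.Quotient.mk _ a)) = algebraMap (A ⧸ (tfCurve ρ h1).ideal) F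
      (Ideal.Quotient.mk _ a) := e.commutes _
  exact h2.trans (hj a)

end iso

theorem thmNF (hN : ThmN) : ThmNF := by
  classical
  intro p _ k A K _ _ _ _ _ _ _ _ _ _ _ _ _ htr n w hw0 hw ι _ F _ ρ hρ hht hinj hdvr h hplace hcyc
  let _ : Fintype ι := Fintype.ofFinite ι
  choose e he using fun x => tf_exists_equiv (ρ x) (hρ x) (hht x)
  let P : ι → Curve1 A := fun x => tfCurve (ρ x) (hht x)
  have hPinj : Function.Injective P := fun x x' hxx' => hinj x x' (congrArg Curve1.ideal hxx')
  have hes : ∀ x a, (e x).symm (ρ x a) = res (P x) a := fun x a => by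
    rw [← he x a, RingEquiv.symm_apply_apply]
  let u : ∀ x, (kap (P x))ˣ := fun x => Units.map (e x).symm.toRingHom.toMonoidHom (h x)
  let ξ : Chain1 A := ∑ x, DFinsupp.single (P x) (Additive.ofMul (u x))
  have hξ : ∀ x, ξ (P x) = Additive.ofMul (u x) := by
    intro x
    change (∑ x', DFinsupp.single (P x') (Additive.ofMul (u x')) : Chain1 A) (P x) = _
    rw [DFinsupp.finsetSum_apply, Finset.sum_eq_single x]
    · exact DFinsupp.single_eq_same
    · intro x' _ hx'
      exact DFinsupp.single_eq_of_ne fun hc => hx' (hPinj hc).symm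
    · intro hx
      exact absurd (Finset.mem_univ x) hx
  have hξ0 : ∀ Q, Q ∉ Set.range P → ξ Q = 0 := by
    intro Q hQ
    change (∑ x', DFinsupp.single (P x') (Additive.ofMul (u x')) : Chain1 A) Q = _
    rw [DFinsupp.finsetSum_apply]
    refine Finset.sum_eq_zero fun x' _ => DFinsupp.single_eq_of_ne fun hc => hQ ⟨x', hc.symm⟩
  have hξ1 : ∀ Q, ξ Q ≠ 0 → ∃ x, P x = Q := by
    intro Q hQ
    by_contra hc
    exact hQ (hξ0 Q fun ⟨x, hx⟩ => hc ⟨x, hx⟩)
  obtain ⟨N, hN0, r, f, g, hfg, hV⟩ := hN p k A K htr w hw0 hw ξ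
    (by
      intro Q hQ
      obtain ⟨x, rfl⟩ := hξ1 Q hQ
      exact hdvr x)
    (by
      intro Q hQ v hv
      obtain ⟨x, rfl⟩ := hξ1 Q hQ
      have hmem : ∀ y : F x, y ∈ v.comap ((e x).symm : F x →+* kap (P x)) ↔
          (e x).symm y ∈ v := fun y => ValuationSubring.mem_comap
      have hnon : ∀ y : F x, y ∈ (v.comap ((e x).symm : F x →+* kap (P x))).nonunits ↔
          (e x).symm y ∈ v.nonunits := by
        intro y
        rw [ValuationSubring.mem_nonunits_iff_or, ValuationSubring.mem_nonunits_iff_or, hmem,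
          map_inv₀, EmbeddingLike.map_eq_zero_iff]
      rcases hplace x (v.comap ((e x).symm : F x →+* kap (P x))) (fun c => by
        rw [hmem, hes]
        exact hv c) with ⟨h1, h2⟩ | ⟨z, hz, hz2⟩
      · left
        rw [hξ x]
        refine ⟨(hmem _).1 h1, ?_⟩
        have h3 := (hmem _).1 h2
        have h4 : (((Additive.toMul (Additive.ofMul (u x)))⁻¹ : (kap (P x))ˣ) : kap (P x)) =
            (e x).symm ((h x)⁻¹ : (F x)ˣ) := by
          rw [toMul_ofMul, Units.val_inv_eq_inv_val, Units.val_inv_eq_inv_val, map_inv₀]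
          rfl
        rw [h4]
        exact h3
      · right
        refine ⟨z, hz, fun a => ?_⟩
        obtain ⟨h1, h2⟩ := hz2 a
        rw [hmem, hes] at h1
        rw [hnon, hes] at h2
        exact ⟨h1, h2⟩)
    (by
      intro z hz
      obtain ⟨m, hm, hm0⟩ := hcyc z hz
      refine ⟨m.mapDomain P, ?_, ?_⟩
      · intro Q
        by_cases hQ : Q ∈ Set.range P
        · obtain ⟨x, rfl⟩ := hQ
          rw [Finsupp.mapDomain_apply hPinj, hξ x]
          obtain ⟨c, d, hc, hd, hcd, hmx⟩ := hm x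
          refine ⟨c, d, fun h1 => hc ((RingHom.mem_ker).1 h1),
            fun h1 => hd ((RingHom.mem_ker).1 h1), ?_, hmx⟩
          apply (e x).injective
          rw [map_mul]
          have h1 : e x ((Additive.toMul (Additive.ofMul (u x)) : (kap (P x))ˣ) : kap (P x)) =
              (h x : F x) := (e x).apply_symm_apply _
          have h2 : e x (res (P x) d) = ρ x d := he x d
          have h3 : e x (res (P x) c) = ρ x c := he x c
          rw [h1, h2, h3, hcd]
        · rw [Finsupp.mapDomain_of_notMem_range _ _ hQ, hξ0 Q hQ]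
          exact (isOrdZ_one Q z 0).2 rfl
      · rw [Finsupp.sum_mapDomain_index_inj hPinj]
        exact hm0)
  refine ⟨N, hN0, r, f, g, hfg, fun V hVc => ?_⟩
  obtain ⟨t, ht, ht1, ht2⟩ := hV V hVc
  refine ⟨t, ht, ?_, ?_⟩
  · intro x hx φ hφ
    have hover : OverV (P x) V := fun a => ⟨(hx a).1, (RingHom.mem_ker).trans (hx a).2⟩
    obtain ⟨a, b, hb, hab⟩ := hρ x (h x : F x)
    have hbP : b ∉ (P x).ideal := fun h1 => hb ((RingHom.mem_ker).1 h1)
    have hres : ((Additive.toMul (ξ (P x)) : (kap (P x))ˣ) : kap (P x)) * res (P x) b =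
        res (P x) a := by
      rw [hξ x]
      apply (e x).injective
      rw [map_mul]
      have h1 : e x ((Additive.toMul (Additive.ofMul (u x)) : (kap (P x))ˣ) : kap (P x)) =
          (h x : F x) := (e x).apply_symm_apply _
      have h2 : e x (res (P x) b) = ρ x b := he x b
      have h3 : e x (res (P x) a) = ρ x a := he x a
      rw [h1, h2, h3, hab]
    have key := ht1 (P x) hover a b hbP hres ⟨algebraMap A K a, (hx a).1⟩
      ⟨algebraMap A K b, (hx b).1⟩ rfl rfl
    rw [← hφ b ⟨algebraMap A K b, (hx b).1⟩ rfl, ← hφ a ⟨algebraMap A K a, (hx a).1⟩ rfl,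
      ← hab, map_mul, mul_pow] at key
    have hφb : φ (ρ x b) ^ N ≠ 0 := pow_ne_zero _ ((map_ne_zero φ).2 hb)
    apply Units.ext
    have := mul_right_cancel₀ hφb key
    rw [this, Units.val_pow_eq_pow_val]
    rfl
  · intro hx
    refine ht2 fun Q hQ hQV => ?_
    obtain ⟨x, rfl⟩ := hξ1 Q hQ
    exact hx x fun a => ⟨(hQV a).1, (RingHom.mem_ker).symm.trans (hQV a).2⟩

end Pool.Agent.K1
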