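import Pool.Agent.K1.TDefs

/-!
An element of all the other curves and lines.
-/

set_option autoImplicit false

open Polynomial

namespace Pool.Agent.K1

section tawayaux

variable {k A : Type} [Field k] [CommRing A] [Algebra k A] {F : Type} [Field F]

theorem taway_polyR_C (ρ : A →+* F) (a : F) (b : A) : polyR ρ a (C b) = ρ b := by
  simp [polyR]

theorem taway_polyR_X (ρ : A →+* F) (a : F) : polyR ρ a X = a := by
  simp [polyR]

theorem taway_polyZ_apply (z : A →ₐ[k] k) (c : k) (f : A[X]) :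
    polyZ z c f = eval₂ z.toRingHom c f := rfl

theorem taway_polyZ_C (z : A →ₐ[k] k) (c : k) (b : A) : polyZ z c (C b) = z b := by
  rw [taway_polyZ_apply, eval₂_C]
  rfl

theorem taway_polyZ_X (z : A →ₐ[k] k) (c : k) : polyZ z c X = c := by
  rw [taway_polyZ_apply, eval₂_X]

theorem taway_sub_nonunits {v : ValuationSubring F} {s t : F} (hs : s ∈ v.nonunits)
    (ht : t ∈ v.nonunits) : s - t ∈ v.nonunits := by
  rw [ValuationSubring.mem_nonunits_iff] at hs ht ⊢
  exact lt_of_le_of_lt (Valuation.map_sub _ _ _) (max_lt hs ht)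

theorem taway_const {v : ValuationSubring F} (ρ : A →+* F) (hA : ∀ b, ρ b ∈ v) {u : k}
    (hu : ρ (algebraMap k A u) ∈ v.nonunits) : u = 0 := by
  by_contra h0
  have h1 : ρ (algebraMap k A u) * ρ (algebraMap k A u⁻¹) = 1 := by
    rw [← map_mul, ← map_mul, mul_inv_cancel₀ h0, map_one, map_one]
  rw [ValuationSubring.mem_nonunits_iff] at hu
  have h2 : v.valuation (ρ (algebraMap k A u⁻¹)) ≤ 1 :=
    (ValuationSubring.valuation_le_one_iff v _).2 (hA _)
  have h3 : v.valuation (ρ (algebraMap k A u) * ρ (algebraMap k A u⁻¹)) = 1 := by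
    rw [h1, map_one]
  rw [map_mul] at h3
  have h4 : v.valuation (ρ (algebraMap k A u)) * v.valuation (ρ (algebraMap k A u⁻¹)) < 1 :=
    mul_lt_one_of_lt_of_le hu h2
  exact absurd h3 h4.ne

/-- a place of the curve centred at `(y, c)` is centred at `y`, and `a - c` vanishes there -/
theorem taway_centred (ρ : A →+* F) (a : F) {v : ValuationSubring F} {y : A →ₐ[k] k} {c : k}
    (h : CentredAt (polyR ρ a) v (polyZ y c)) :
    CentredAt ρ v y ∧ a - ρ (algebraMap k A c) ∈ v.nonunits := by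
  constructor
  · intro b
    have h1 := h (C b)
    rw [taway_polyR_C] at h1
    refine ⟨h1.1, fun hb => h1.2 ?_⟩
    rw [taway_polyZ_C, hb]
  · have h1 := (h (X - C (algebraMap k A c))).2 (by
      rw [map_sub, taway_polyZ_X, taway_polyZ_C]
      rw [AlgHom.commutes]
      simp)
    rwa [map_sub, taway_polyR_X, taway_polyR_C] at h1

end tawayaux

/-- T-04c: an element of all the other curves and lines. -/
theorem exists_away {k A : Type} [Field k] [IsAlgClosed k] [CommRing A] [Algebra k A] {ι : Type}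
    [Finite ι] {F : ι → Type} [∀ x, Field (F x)] (ρ : ∀ x, A →+* F x)
    (hPB : ∀ x (a : F x), (∀ v : ValuationSubring (F x), (∀ b, ρ x b ∈ v) → a ∈ v) →
      PlaceThy k (polyR (ρ x) a)) (Y : Finset (A →ₐ[k] k))
    (a : ∀ x, F x) (c : ∀ x, ValuationSubring (F x) → k)
    (hint : ∀ x (v : ValuationSubring (F x)), (∀ b, ρ x b ∈ v) → a x ∈ v)
    (hord : ∀ x (v : ValuationSubring (F x)), ∀ y ∈ Y, v ≠ ⊤ → CentredAt (ρ x) v y →
        a x - ρ x (algebraMap k A (c x v)) ∈ v.nonunits)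
    (hsep : ∀ y ∈ Y, ∀ (x : ι) (v : ValuationSubring (F x)) (x' : ι)
        (v' : ValuationSubring (F x')), v ≠ ⊤ → CentredAt (ρ x) v y → v' ≠ ⊤ →
        CentredAt (ρ x') v' y → c x v = c x' v' →
          (⟨x, v⟩ : Σ x, ValuationSubring (F x)) = ⟨x', v'⟩)
    (x₀ : ι) (v₀ : ValuationSubring (F x₀)) (y₀ : A →ₐ[k] k) (hy₀ : y₀ ∈ Y) (hv₀ : v₀ ≠ ⊤)
    (hc₀ : CentredAt (ρ x₀) v₀ y₀) :
    ∃ e : A[X], (∀ x, x ≠ x₀ → polyR (ρ x) (a x) e = 0) ∧
      (∀ y ∈ Y, y ≠ y₀ → e.map y.toRingHom = 0) ∧ polyZ y₀ (c x₀ v₀) e ≠ 0 ∧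
      ∀ v' : ValuationSubring (F x₀), v' ≠ ⊤ →
        CentredAt (polyR (ρ x₀) (a x₀)) v' (polyZ y₀ (c x₀ v₀)) → v' = v₀ := by
  classical
  -- a place of a curve centred at the special point is the given one
  have key : ∀ (x : ι) (v' : ValuationSubring (F x)), v' ≠ ⊤ →
      CentredAt (polyR (ρ x) (a x)) v' (polyZ y₀ (c x₀ v₀)) →
      (⟨x, v'⟩ : Σ x, ValuationSubring (F x)) = ⟨x₀, v₀⟩ := by
    intro x v' hv' hc
    obtain ⟨h1, h2⟩ := taway_centred (ρ x) (a x) hc
    have h3 := hord x v' y₀ hy₀ hv' h1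
    have h4 : ρ x (algebraMap k A (c x₀ v₀ - c x v')) ∈ v'.nonunits := by
      have h5 := taway_sub_nonunits h3 h2
      have h6 : a x - ρ x (algebraMap k A (c x v')) - (a x - ρ x (algebraMap k A (c x₀ v₀)))
          = ρ x (algebraMap k A (c x₀ v₀ - c x v')) := by
        rw [map_sub, map_sub]
        ring
      rwa [h6] at h5
    have h7 := taway_const (ρ x) (fun b => (h1 b).1) h4
    exact hsep y₀ hy₀ x v' x₀ v₀ hv' h1 hv₀ hc₀ (sub_eq_zero.1 h7).symm
  -- equations of the other curves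
  have hcurve : ∀ x : ι, ∃ f : A[X], (x ≠ x₀ → polyR (ρ x) (a x) f = 0) ∧
      polyZ y₀ (c x₀ v₀) f ≠ 0 := by
    intro x
    by_cases hx : x = x₀
    · exact ⟨1, fun h => absurd hx h, by rw [map_one]; exact one_ne_zero⟩
    · by_contra hcon
      push Not at hcon
      have hP := hPB x (a x) (hint x)
      obtain ⟨v', hv', hc⟩ := hP.surj (polyZ y₀ (c x₀ v₀)) (fun f hf => hcon f (fun _ => hf))
      have h8 := key x v' hv' hc
      exact hx (congrArg Sigma.fst h8)
  have hline : ∀ y : A →ₐ[k] k, ∃ b : A, (y ≠ y₀ → y b = 0) ∧ y₀ b ≠ 0 := by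
    intro y
    by_cases hy : y = y₀
    · exact ⟨1, fun h => absurd hy h, by rw [map_one]; exact one_ne_zero⟩
    · have h9 : ∃ b, y b ≠ y₀ b := by
        by_contra hcon
        push Not at hcon
        exact hy (AlgHom.ext hcon)
      obtain ⟨b, hb⟩ := h9
      refine ⟨b - algebraMap k A (y b), fun _ => ?_, ?_⟩
      · rw [map_sub, AlgHom.commutes]
        simp
      · rw [map_sub, AlgHom.commutes]
        simpa using sub_ne_zero.2 (Ne.symm hb)
  choose f hf1 hf2 using hcurve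
  choose b hb1 hb2 using hline
  have := Fintype.ofFinite ι
  refine ⟨(∏ x : ι, f x) * ∏ y ∈ Y, C (b y), ?_, ?_, ?_, ?_⟩
  · intro x hx
    rw [map_mul, map_prod, Finset.prod_eq_zero (Finset.mem_univ x) (hf1 x hx), zero_mul]
  · intro y hy hyne
    have h11 : (C (b y) : A[X]).map y.toRingHom = 0 := by
      rw [map_C, show y.toRingHom (b y) = y (b y) from rfl, hb1 y hyne, C_0]
    rw [Polynomial.map_mul, Polynomial.map_prod y.toRingHom (fun y => C (b y)) Y,
      Finset.prod_eq_zero hy h11, mul_zero]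
  · rw [map_mul, map_prod, map_prod]
    refine mul_ne_zero (Finset.prod_ne_zero_iff.2 fun x _ => hf2 x)
      (Finset.prod_ne_zero_iff.2 fun y _ => ?_)
    rw [taway_polyZ_C]
    exact hb2 y
  · intro v' hv' hc
    have h10 := key x₀ v' hv' hc
    exact eq_of_heq (Sigma.mk.inj h10).2

end Pool.Agent.K1
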