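import Pool.Agent.K1.TPlanar

/-!
The choice of the equations of a surface through given curves of `Spec A[X]`.
-/

set_option autoImplicit false

open Polynomial

namespace Pool.Agent.K1

section system

variable {k A : Type} [Field k] [CommRing A] [Algebra k A]

/-- The subspace of the polynomials of degree at most `b` in an ideal. -/
noncomputable def degSub (k : Type) {A : Type} [Field k] [CommRing A] [Algebra k A]
    (I : Ideal A[X]) (b : ℕ) : Submodule k A[X] where
  carrier := {G | G ∈ I ∧ G.natDegree ≤ b}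
  zero_mem' := ⟨I.zero_mem, by simp⟩
  add_mem' := by
    rintro G H ⟨h1, h2⟩ ⟨h3, h4⟩
    exact ⟨I.add_mem h1 h3, (natDegree_add_le G H).trans (max_le h2 h4)⟩
  smul_mem' := by
    rintro c G ⟨h1, h2⟩
    have e : c • G = C (algebraMap k A c) * G := by
      rw [← algebraMap_smul A c G, smul_eq_C_mul]
    change _ ∧ _
    rw [e]
    exact ⟨I.mul_mem_left _ h1, (natDegree_C_mul_le _ _).trans h2⟩

/-- The subspace of `W` of the polynomials whose image over the field `F` is divisible by `P`. -/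
noncomputable def dvdSub (W : Submodule k A[X]) {F : Type} [Field F] (ρ : A →+* F) (P : F[X]) :
    Submodule k W where
  carrier := {G | P ∣ (G : A[X]).map ρ}
  zero_mem' := by simp
  add_mem' := by
    intro G H h1 h2
    change P ∣ ((G : A[X]) + (H : A[X])).map ρ
    rw [Polynomial.map_add]
    exact dvd_add h1 h2
  smul_mem' := by
    intro c G h1
    change P ∣ (c • (G : A[X])).map ρ
    have e : c • (G : A[X]) = C (algebraMap k A c) * G := by
      rw [← algebraMap_smul A c (G : A[X]), smul_eq_C_mul]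
    rw [e, Polynomial.map_mul]
    exact h1.mul_left _

/-- The subspace of `W` of the polynomials whose coefficient of degree `b` vanishes in `F`. -/
noncomputable def coeffSub (W : Submodule k A[X]) {F : Type} [Field F] (ρ : A →+* F) (b : ℕ) :
    Submodule k W where
  carrier := {G | ρ ((G : A[X]).coeff b) = 0}
  zero_mem' := by simp
  add_mem' := by
    intro G H h1 h2
    change ρ (((G : A[X]) + (H : A[X])).coeff b) = 0
    rw [coeff_add, map_add, h1, h2, add_zero]
  smul_mem' := by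
    intro c G h1
    change ρ ((c • (G : A[X])).coeff b) = 0
    have e : c • (G : A[X]) = C (algebraMap k A c) * G := by
      rw [← algebraMap_smul A c (G : A[X]), smul_eq_C_mul]
    rw [e, coeff_C_mul, map_mul, h1, mul_zero]

end system

/-- The choice of the equations. -/
theorem exists_eqs {k A : Type} [Field k] [Infinite k] [CommRing A] [IsDomain A] [Algebra k A]
    {ι : Type} [Finite ι] {F : ι → Type} [∀ x, Field (F x)] (ρ : ∀ x, A →+* F x)
    (a : ∀ x, F x) (I : Ideal A[X]) (hI : ∀ f ∈ I, ∀ x, polyR (ρ x) (a x) f = 0) (m : ℕ)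
    (S : Finset (A[X] →ₐ[k] k))
    (hS : ∀ σ ∈ S, ∃ G : Fin (m + 2) → A[X], (∀ j, G j ∈ I) ∧
      ∀ α : Fin (m + 2) → k, ∑ j, α j • G j ∈ (RingHom.ker σ) ^ 2 → ∀ j, α j = 0)
    (hH : ∀ x, ∃ H ∈ I, ∃ u : F x, u ≠ 0 ∧ H.map (ρ x) = C u * (X - C (a x)))
    (hG : ∃ G ∈ I, ∀ x, ρ x G.leadingCoeff ≠ 0) :
    ∃ f : Fin (m + 2) → A[X], (∀ j, f j ∈ I) ∧
      (∀ σ ∈ S, ∀ α : Fin (m + 2) → k, ∑ j, α j • f j ∈ (RingHom.ker σ) ^ 2 → ∀ j, α j = 0) ∧
      (∀ x, ρ x (f 0).leadingCoeff ≠ 0) ∧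
      ∀ x, Ideal.span {(f 0).map (ρ x), (f 1).map (ρ x)} = Ideal.span {X - C (a x)} := by
  classical
  cases nonempty_fintype ι
  choose g hgI hg using fun σ : S => hS σ.1 σ.2
  choose H hHI u hu hHu using hH
  obtain ⟨G, hGI, hGl⟩ := hG
  -- the degree
  obtain ⟨b, hbG, hbH, hb⟩ : ∃ b : ℕ, G.natDegree ≤ b ∧ (∀ x, (H x).natDegree ≤ b) ∧
      ∀ σ i, (g σ i).natDegree ≤ b := by
    refine ⟨G.natDegree + (∑ x, (H x).natDegree) + (∑ σ, ∑ i, (g σ i).natDegree), by omega,
      fun x => ?_, fun σ i => ?_⟩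
    · have h1 : (H x).natDegree ≤ ∑ x, (H x).natDegree :=
        Finset.single_le_sum (f := fun x => (H x).natDegree) (fun _ _ => Nat.zero_le _)
          (Finset.mem_univ x)
      omega
    · have h1 : (g σ i).natDegree ≤ ∑ i, (g σ i).natDegree :=
        Finset.single_le_sum (f := fun i => (g σ i).natDegree) (fun _ _ => Nat.zero_le _)
          (Finset.mem_univ i)
      have h2 : ∑ i, (g σ i).natDegree ≤ ∑ σ, ∑ i, (g σ i).natDegree :=
        Finset.single_le_sum (f := fun σ => ∑ i, (g σ i).natDegree) (fun _ _ => Nat.zero_le _)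
          (Finset.mem_univ σ)
      omega
  let W : Submodule k A[X] := degSub k I b
  have hWI : ∀ w : W, (w : A[X]) ∈ I := fun w => w.2.1
  have hWd : ∀ w : W, (w : A[X]).natDegree ≤ b := fun w => w.2.2
  let φ : ∀ σ : S, W →ₗ[k] (A[X] ⧸ (RingHom.ker σ.1) ^ 2) := fun σ =>
    ((Ideal.Quotient.mkₐ k ((RingHom.ker σ.1) ^ 2)).toLinearMap).comp W.subtype
  have hφ1 : ∀ (σ : S) (f : Fin (m + 2) → W), LinearIndependent k (φ σ ∘ f) ↔
      ∀ α : Fin (m + 2) → k, ∑ j, α j • (f j : A[X]) ∈ (RingHom.ker σ.1) ^ 2 →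
        ∀ j, α j = 0 := by
    intro σ f
    rw [Fintype.linearIndependent_iff]
    refine forall_congr' fun α => ?_
    have e1 : ∑ j, α j • (φ σ ∘ f) j =
        Ideal.Quotient.mk ((RingHom.ker σ.1) ^ 2) (∑ j, α j • (f j : A[X])) := by
      rw [map_sum]
      rfl
    rw [e1, Ideal.Quotient.eq_zero_iff_mem]
  have hφ : ∀ σ : S, ∃ g : Fin (m + 2) → W, LinearIndependent k (φ σ ∘ g) := fun σ =>
    ⟨fun i => ⟨g σ i, hgI σ i, hb σ i⟩, (hφ1 σ _).mpr (hg σ)⟩
  -- members with prescribed behaviour at the curves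
  have hmem1 : G * X ^ (b - G.natDegree) ∈ W := by
    refine ⟨I.mul_mem_right _ hGI, ?_⟩
    calc (G * X ^ (b - G.natDegree)).natDegree
        ≤ G.natDegree + (X ^ (b - G.natDegree) : A[X]).natDegree := natDegree_mul_le
      _ ≤ G.natDegree + (b - G.natDegree) := Nat.add_le_add_left (natDegree_X_pow_le _) _
      _ = b := by omega
  have hmem2 : ∀ x, H x ∈ W := fun x => ⟨hHI x, hbH x⟩
  let s₀ : Finset (Submodule k W) := Finset.univ.image fun x => coeffSub W (ρ x) b
  have hs₀ : ∀ V ∈ s₀, V ≠ ⊤ := by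
    intro V hV htop
    obtain ⟨x, -, rfl⟩ := Finset.mem_image.mp hV
    have h1 : (⟨_, hmem1⟩ : W) ∈ coeffSub W (ρ x) b := by
      rw [htop]
      exact Submodule.mem_top
    have h2 : ρ x ((G * X ^ (b - G.natDegree)).coeff b) = 0 := h1
    have h3 : (G * X ^ (b - G.natDegree)).coeff b = G.leadingCoeff := by
      have h4 := coeff_mul_X_pow G (b - G.natDegree) G.natDegree
      rw [Nat.add_sub_cancel' hbG] at h4
      exact h4
    rw [h3] at h2
    exact hGl x h2
  -- the cofactor over the field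
  have hcof : ∀ (w : W) x, ∃ K : (F x)[X], (w : A[X]).map (ρ x) = (X - C (a x)) * K := by
    intro w x
    have h1 : (X - C (a x)) ∣ (w : A[X]).map (ρ x) := by
      rw [dvd_iff_isRoot, IsRoot.def, eval_map]
      exact hI _ (hWI w) x
    exact h1
  choose K hK using hcof
  let s₁ : W → Finset (Submodule k W) := fun w => Finset.univ.biUnion fun x =>
    (UniqueFactorizationMonoid.normalizedFactors (K w x)).toFinset.image
      fun P => dvdSub W (ρ x) ((X - C (a x)) * P)
  have hs₁ : ∀ w, (∀ V ∈ s₀, w ∉ V) → ∀ V ∈ s₁ w, V ≠ ⊤ := by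
    intro w hw V hV htop
    obtain ⟨x, -, hV⟩ := Finset.mem_biUnion.mp hV
    obtain ⟨P, hP, rfl⟩ := Finset.mem_image.mp hV
    rw [Multiset.mem_toFinset] at hP
    have hPp := UniqueFactorizationMonoid.prime_of_normalized_factor P hP
    have h1 : (⟨_, hmem2 x⟩ : W) ∈ dvdSub W (ρ x) ((X - C (a x)) * P) := by
      rw [htop]
      exact Submodule.mem_top
    have h2 : (X - C (a x)) * P ∣ (H x).map (ρ x) := h1
    rw [hHu x, mul_comm (C _)] at h2
    have h3 : P ∣ C (u x) := (mul_dvd_mul_iff_left (X_sub_C_ne_zero (a x))).mp h2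
    exact hPp.not_isUnit (isUnit_of_dvd_unit h3 (isUnit_C.mpr (hu x).isUnit))
  obtain ⟨f, hf1, hf2, hf3⟩ := exists_general φ (by omega : 2 ≤ m + 2) hφ s₀ hs₀ s₁ hs₁
  have hlc : ∀ x, ρ x ((f 0 : A[X]).coeff b) ≠ 0 := fun x h =>
    hf2 _ (Finset.mem_image_of_mem _ (Finset.mem_univ x)) h
  refine ⟨fun i => (f i : A[X]), fun i => hWI (f i), fun σ hσ => (hφ1 ⟨σ, hσ⟩ f).mp (hf1 _), ?_, ?_⟩
  · intro x
    have h1 : (f 0 : A[X]).natDegree = b := by
      refine le_antisymm (hWd _) (le_natDegree_of_ne_zero fun h => ?_)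
      apply hlc x
      rw [h, map_zero]
    change ρ x ((f 0 : A[X]).coeff (f 0 : A[X]).natDegree) ≠ 0
    rw [h1]
    exact hlc x
  · intro x
    have hH0 : K (f 0) x ≠ 0 := by
      intro h
      have h1 := hK (f 0) x
      rw [h, mul_zero] at h1
      apply hlc x
      have h2 := congrArg (fun p => p.coeff b) h1
      simpa using h2
    have hcop : IsCoprime (K (f 0) x) (K (f 1) x) := by
      refine isCoprime_of_prime_dvd (fun h => hH0 h.1) ?_
      intro q hq hq0 hq1
      obtain ⟨P, hP, hPq⟩ :=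
        UniqueFactorizationMonoid.exists_mem_normalizedFactors_of_dvd hH0 hq.irreducible hq0
      refine hf3 (dvdSub W (ρ x) ((X - C (a x)) * P)) ?_ ?_
      · refine Finset.mem_biUnion.mpr ⟨x, Finset.mem_univ x, ?_⟩
        exact Finset.mem_image.mpr ⟨P, Multiset.mem_toFinset.mpr hP, rfl⟩
      · change (X - C (a x)) * P ∣ (f 1 : A[X]).map (ρ x)
        rw [hK (f 1) x]
        exact mul_dvd_mul_left _ (hPq.symm.dvd.trans hq1)
    obtain ⟨p, q, hpq⟩ := hcop
    apply le_antisymm
    · rw [Ideal.span_le]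
      rintro y (rfl | rfl)
      · exact Ideal.mem_span_singleton'.mpr ⟨K (f 0) x, by rw [hK (f 0) x]; ring⟩
      · exact Ideal.mem_span_singleton'.mpr ⟨K (f 1) x, by rw [hK (f 1) x]; ring⟩
    · rw [Ideal.span_singleton_le_iff_mem, Ideal.mem_span_pair]
      refine ⟨p, q, ?_⟩
      rw [hK (f 0) x, hK (f 1) x]
      calc p * ((X - C (a x)) * K (f 0) x) + q * ((X - C (a x)) * K (f 1) x)
          = (X - C (a x)) * (p * K (f 0) x + q * K (f 1) x) := by ring
        _ = X - C (a x) := by rw [hpq, mul_one]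

end Pool.Agent.K1
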