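import Pool.Agent.K1.TDefs

/-!
Part II of theorem B, T-03: curves in `Spec A[X]` given by a curve in `Spec A` and an element of
its function field.
-/

set_option autoImplicit false

open Polynomial

namespace Pool.Agent.K1

/-- An integral extension of a domain of dimension one has dimension one. -/
theorem tp_dim_one {R S : Type*} [CommRing R] [IsDomain R] [CommRing S] [IsDomain S]
    (f : R →+* S) (hf : f.IsIntegral) (hinj : Function.Injective f) (h : ringKrullDim R = 1) :
    ringKrullDim S = 1 := by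
  let _ : Algebra R S := f.toAlgebra
  have hint : Algebra.IsIntegral R S := ⟨fun x => hf x⟩
  have hR : Ring.KrullDimLE 1 R := Ring.krullDimLE_iff.2 (by rw [h]; rfl)
  have hS : Ring.KrullDimLE 1 S := by
    refine Ring.krullDimLE_one_iff_of_noZeroDivisors.2 fun I hI hp => ?_
    have h1 : (I.comap (algebraMap R S)).IsPrime := Ideal.comap_isPrime _ _
    have h2 : I.comap (algebraMap R S) ≠ ⊥ := by
      obtain ⟨x, hx, hx0⟩ := Submodule.exists_mem_ne_zero_of_ne_bot hI
      exact Ideal.comap_ne_bot_of_integral_mem hx0 hx (hf x)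
    have h3 := Ring.krullDimLE_one_iff_of_noZeroDivisors.1 hR _ h2 h1
    exact Ideal.isMaximal_of_isIntegral_of_isMaximal_comap I h3
  refine le_antisymm (Ring.krullDimLE_iff.1 hS) ?_
  by_contra hcon
  have hS0 : Ring.KrullDimLE 0 S := by
    refine Ring.krullDimLE_iff.2 ?_
    have h4 : ringKrullDim S < 1 := not_le.1 hcon
    generalize ringKrullDim S = x at h4
    induction x using WithBot.recBotCoe with
    | bot => exact bot_le
    | coe n =>
      have h5 : n < 1 := WithBot.coe_lt_coe.1 h4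
      have h6 : n = 0 := Order.lt_one_iff.1 h5
      rw [h6]
      exact le_refl _
  have hmax : (⊥ : Ideal S).IsMaximal :=
    Ring.krullDimLE_zero_iff.1 hS0 ⊥ Ideal.isPrime_bot
  have hSf : IsField S := by
    exact MulEquiv.isField ((Ideal.Quotient.maximal_ideal_iff_isField_quotient _).1 hmax)
      (RingEquiv.quotientBot S).symm.toMulEquiv
  have hRf : IsField R := isField_of_isIntegral_of_isField (R := R) (S := S) hinj hSf
  have h7 := ringKrullDim_eq_zero_of_isField hRf
  rw [h] at h7
  exact absurd h7 (by decide)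

section
variable {k A F : Type} [Field k] [CommRing A] [Algebra k A] [Field F]

theorem tp_polyR_C (ρ : A →+* F) (a : F) (b : A) : polyR ρ a (C b) = ρ b := by
  simp [polyR]

theorem tp_polyR_X (ρ : A →+* F) (a : F) : polyR ρ a X = a := by
  simp [polyR]

theorem tp_polyZ_C (z : A →ₐ[k] k) (c : k) (b : A) : polyZ z c (C b) = z b := by
  change eval₂ z.toRingHom c (C b) = z b
  rw [eval₂_C]
  rfl

theorem tp_polyZ_X (z : A →ₐ[k] k) (c : k) : polyZ z c X = c := by
  change eval₂ z.toRingHom c X = c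
  rw [eval₂_X]

theorem isFrac_polyR {ρ : A →+* F} (hρ : IsFrac ρ) (a : F) : IsFrac (polyR ρ a) := by
  intro f
  obtain ⟨b, c, hc, h⟩ := hρ f
  refine ⟨C b, C c, ?_, ?_⟩
  · rwa [tp_polyR_C]
  · rwa [tp_polyR_C, tp_polyR_C]

theorem tp_polyR_mem (ρ : A →+* F) (a : F) (v : ValuationSubring F) (ha : a ∈ v)
    (h : ∀ b, ρ b ∈ v) (f : A[X]) : polyR ρ a f ∈ v := by
  induction f using Polynomial.induction_on' with
  | add p q hp hq => rw [map_add]; exact v.add_mem _ _ hp hq
  | monomial n b =>
    rw [← C_mul_X_pow_eq_monomial, map_mul, map_pow, tp_polyR_C, tp_polyR_X]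
    exact v.mul_mem _ _ (h b) (pow_mem ha n)

theorem centredAt_polyR (ρ : A →+* F) (a : F) (v : ValuationSubring F) (z : A →ₐ[k] k) (c : k) :
    CentredAt (polyR ρ a) v (polyZ z c) ↔
      CentredAt ρ v z ∧ a - ρ (algebraMap k A c) ∈ v.nonunits := by
  constructor
  · intro h
    refine ⟨fun b => ?_, ?_⟩
    · have h1 := h (C b)
      rw [tp_polyR_C, tp_polyZ_C] at h1
      exact h1
    · have h1 := (h (X - C (algebraMap k A c))).2
      rw [map_sub, tp_polyZ_X, tp_polyZ_C, AlgHom.commutes, Algebra.algebraMap_self_apply,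
        sub_self, map_sub, tp_polyR_X, tp_polyR_C] at h1
      exact h1 rfl
  · rintro ⟨h, hν⟩ f
    have hν' : a - ρ (algebraMap k A c) ∈ v :=
      v.nonunits_subset hν
    have ha : a ∈ v := by
      have := v.add_mem _ _ hν' (h (algebraMap k A c)).1
      rwa [sub_add_cancel] at this
    refine ⟨tp_polyR_mem ρ a v ha (fun b => (h b).1) f, fun hf => ?_⟩
    obtain ⟨q, hq⟩ := X_sub_C_dvd_sub_C_eval (a := algebraMap k A c) (p := f)
    have hf' : f = C (f.eval (algebraMap k A c)) + (X - C (algebraMap k A c)) * q := by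
      rw [← hq]; ring
    have hz : z (f.eval (algebraMap k A c)) = 0 := by
      rw [hf', map_add, map_mul, map_sub, tp_polyZ_C, tp_polyZ_X, tp_polyZ_C, AlgHom.commutes,
        Algebra.algebraMap_self_apply, sub_self, zero_mul, add_zero] at hf
      exact hf
    rw [hf', map_add, map_mul, map_sub, tp_polyR_C, tp_polyR_X, tp_polyR_C]
    have h1 := (h _).2 hz
    have h2 := tp_polyR_mem ρ a v ha (fun b => (h b).1) q
    rw [ValuationSubring.mem_nonunits_iff] at h1 hν ⊢
    refine Valuation.map_add_lt _ h1 ?_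
    rw [map_mul]
    exact mul_lt_one_of_lt_of_le hν ((ValuationSubring.valuation_le_one_iff _ _).2 h2)

theorem polyZ_apply (z : A →ₐ[k] k) (c : k) (f : A[X]) :
    polyZ z c f = (f.map z.toRingHom).eval c := by
  rw [eval_map]
  rfl

theorem eq_polyZ (σ : A[X] →ₐ[k] k) :
    ∃ (z : A →ₐ[k] k) (c : k), σ = polyZ z c ∧ (∀ a, z a = σ (C a)) ∧ c = σ X := by
  refine ⟨σ.comp (CAlgHom : A →ₐ[k] A[X]), σ X, ?_, fun a => rfl, rfl⟩
  apply AlgHom.ext
  intro f
  induction f using Polynomial.induction_on' with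
  | add p q hp hq => rw [map_add, map_add, hp, hq]
  | monomial n b =>
    rw [← C_mul_X_pow_eq_monomial, map_mul, map_pow, map_mul, map_pow, tp_polyZ_C, tp_polyZ_X]
    rfl

theorem polyZ_inj {z z' : A →ₐ[k] k} {c c' : k} (h : polyZ z c = polyZ z' c') :
    z = z' ∧ c = c' := by
  refine ⟨AlgHom.ext fun b => ?_, ?_⟩
  · have := DFunLike.congr_fun h (C b)
    rwa [tp_polyZ_C, tp_polyZ_C] at this
  · have := DFunLike.congr_fun h X
    rwa [tp_polyZ_X, tp_polyZ_X] at this

/-- an element of all valuation rings containing `ρ A` is integral -/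
theorem exists_monic {ρ : A →+* F} {a : F}
    (ha : ∀ v : ValuationSubring F, (∀ b, ρ b ∈ v) → a ∈ v) :
    ∃ f : A[X], f.Monic ∧ polyR ρ a f = 0 := by
  have h1 : a ∈ (⨅ V : {V : ValuationSubring F // Set.range ρ ⊆ V.toSubring},
      V.1.toSubring) := by
    rw [Subring.mem_iInf]
    rintro ⟨V, hV⟩
    exact ha V fun b => hV ⟨b, rfl⟩
  rw [iInf_valuationSubring_superset] at h1
  have h2 : IsIntegral (Subring.closure (Set.range ρ)) a := h1
  obtain ⟨p, hp, hpa⟩ := h2
  set p' : F[X] := p.map (algebraMap (Subring.closure (Set.range ρ)) F) with hp'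
  have hcl : Subring.closure (Set.range ρ) = ρ.range := by
    rw [← RingHom.coe_range, Subring.closure_eq]
  have hl : p' ∈ lifts ρ := by
    rw [lifts_iff_coeff_lifts]
    intro n
    rw [hp', coeff_map]
    have h3 : ((p.coeff n : Subring.closure (Set.range ρ)) : F) ∈ ρ.range := by
      rw [← hcl]
      exact (p.coeff n).2
    exact h3
  obtain ⟨q, hq, -, hqm⟩ := lifts_and_degree_eq_and_monic hl (hp.map _)
  refine ⟨q, hqm, ?_⟩
  change eval₂ ρ a q = 0
  rw [← eval_map, hq, hp', eval_map]
  exact hpa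

theorem krullDim_polyR {ρ : A →+* F} (hρ : IsFrac ρ)
    (hdim : ringKrullDim (A ⧸ RingHom.ker ρ) = 1) {a : F}
    (ha : ∀ v : ValuationSubring F, (∀ b, ρ b ∈ v) → a ∈ v) :
    ringKrullDim (A[X] ⧸ RingHom.ker (polyR ρ a)) = 1 := by
  have hp : (RingHom.ker ρ).IsPrime := RingHom.ker_isPrime _
  have hle : RingHom.ker ρ ≤ (RingHom.ker (polyR ρ a)).comap C := by
    intro b hb
    rw [Ideal.mem_comap, RingHom.mem_ker, tp_polyR_C]
    exact hb
  have hge : (RingHom.ker (polyR ρ a)).comap C ≤ RingHom.ker ρ := by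
    intro b hb
    rw [Ideal.mem_comap, RingHom.mem_ker, tp_polyR_C] at hb
    exact hb
  refine tp_dim_one (Ideal.quotientMap (RingHom.ker (polyR ρ a)) C hle) ?_
    (Ideal.quotientMap_injective' hge) hdim
  intro s
  obtain ⟨g, rfl⟩ := Ideal.Quotient.mk_surjective s
  have hC : ∀ b : A, (Ideal.quotientMap (RingHom.ker (polyR ρ a)) C hle).IsIntegralElem
      (Ideal.Quotient.mk _ (C b)) := by
    intro b
    have := RingHom.isIntegralElem_map (Ideal.quotientMap (RingHom.ker (polyR ρ a)) C hle)
      (x := Ideal.Quotient.mk _ b)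
    rwa [Ideal.quotientMap_mk] at this
  have hX : (Ideal.quotientMap (RingHom.ker (polyR ρ a)) C hle).IsIntegralElem
      (Ideal.Quotient.mk _ X) := by
    obtain ⟨q, hqm, hq⟩ := exists_monic ha
    refine ⟨q.map (Ideal.Quotient.mk (RingHom.ker ρ)), hqm.map _, ?_⟩
    rw [eval₂_map]
    have h1 : (Ideal.quotientMap (RingHom.ker (polyR ρ a)) C hle).comp
        (Ideal.Quotient.mk (RingHom.ker ρ)) =
        (Ideal.Quotient.mk (RingHom.ker (polyR ρ a))).comp C := by
      ext b
      exact Ideal.quotientMap_mk (I := RingHom.ker (polyR ρ a)) (f := C) (H := hle) (x := b)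
    rw [h1, ← hom_eval₂, eval₂_C_X]
    exact Ideal.Quotient.eq_zero_iff_mem.2 hq
  induction g using Polynomial.induction_on' with
  | add p q hp hq => rw [map_add]; exact hp.add _ hq
  | monomial n b =>
    rw [← C_mul_X_pow_eq_monomial, map_mul, map_pow]
    refine (hC b).mul _ ?_
    induction n with
    | zero => rw [pow_zero]; exact RingHom.isIntegralElem_one _
    | succ n ih => rw [pow_succ]; exact ih.mul _ hX

end

end Pool.Agent.K1
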