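import Pool.Agent.K1.TDefs
import Pool.Agent.K1.TPoly

/-!
Elements of the ideal of the curves and lines with prescribed restrictions to the curves.
-/

set_option autoImplicit false

open Polynomial

namespace Pool.Agent.K1

/-- Primes with quotients of dimension one are incomparable. -/
private theorem exh_eq {A : Type} [CommRing A] (P Q : Ideal A) [P.IsPrime] [Q.IsPrime]
    (hP : ringKrullDim (A ⧸ P) = 1) (hQ : ringKrullDim (A ⧸ Q) = 1) (h : P ≤ Q) : P = Q := by
  by_contra hne
  obtain ⟨r, hrQ, hrP⟩ := SetLike.exists_of_lt (lt_of_le_of_ne h hne)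
  have h0 : Ideal.Quotient.mk P r ≠ 0 := fun h0 => hrP (Ideal.Quotient.eq_zero_iff_mem.1 h0)
  have h1 := ringKrullDim_quotient_succ_le_of_nonZeroDivisor
    (mem_nonZeroDivisors_of_ne_zero h0)
  have h2 : ringKrullDim (A ⧸ Q) ≤
      ringKrullDim ((A ⧸ P) ⧸ Ideal.span {Ideal.Quotient.mk P r}) := by
    let f : (A ⧸ P) ⧸ Ideal.span {Ideal.Quotient.mk P r} →+* A ⧸ Q :=
      Ideal.Quotient.lift _ (Ideal.Quotient.factor h) (by
        intro x hx
        rw [← RingHom.mem_ker]
        revert x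
        change Ideal.span {Ideal.Quotient.mk P r} ≤ RingHom.ker (Ideal.Quotient.factor h)
        rw [Ideal.span_le, Set.singleton_subset_iff, SetLike.mem_coe, RingHom.mem_ker,
          Ideal.Quotient.factor_mk, Ideal.Quotient.eq_zero_iff_mem]
        exact hrQ)
    refine ringKrullDim_le_of_surjective f fun y => ?_
    obtain ⟨a, rfl⟩ := Ideal.Quotient.mk_surjective y
    refine ⟨Ideal.Quotient.mk _ (Ideal.Quotient.mk P a), ?_⟩
    rw [Ideal.Quotient.lift_mk, Ideal.Quotient.factor_mk]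
  rw [hP] at h1
  rw [hQ] at h2
  have h3 : (1 : WithBot ℕ∞) + 1 ≤ 1 := (add_le_add_left h2 1).trans h1
  exact absurd h3 (by decide)

/-- The constant of another curve. -/
private theorem exh_curve {A F F' : Type} [CommRing A] [Field F] [Field F'] (ρ : A →+* F)
    (ρ' : A →+* F') (hd : ringKrullDim (A ⧸ RingHom.ker ρ) = 1)
    (hd' : ringKrullDim (A ⧸ RingHom.ker ρ') = 1) (hne : RingHom.ker ρ' ≠ RingHom.ker ρ) :
    ∃ b : A, ρ' b = 0 ∧ ρ b ≠ 0 := by
  by_contra hcon
  push Not at hcon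
  have := RingHom.ker_isPrime ρ
  have := RingHom.ker_isPrime ρ'
  exact hne (exh_eq _ _ hd' hd fun b hb => hcon b hb)

/-- The constant of a point. -/
private theorem exh_point {k A F : Type} [Field k] [CommRing A] [Algebra k A] [Field F]
    (ρ : A →+* F) (hd : ringKrullDim (A ⧸ RingHom.ker ρ) = 1) (y : A →ₐ[k] k) :
    ∃ b : A, y b = 0 ∧ ρ b ≠ 0 := by
  by_contra hcon
  push Not at hcon
  have hp := RingHom.ker_isPrime ρ
  have hsurj : Function.Surjective y := fun c =>
    ⟨algebraMap k A c, by rw [AlgHom.commutes]; rfl⟩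
  have hmax : (RingHom.ker y).IsMaximal := RingHom.ker_isMaximal_of_surjective y hsurj
  have h1 : RingHom.ker y = RingHom.ker ρ := hmax.eq_of_le hp.ne_top fun b hb => hcon b hb
  rw [← h1] at hd
  have h2 : IsField (A ⧸ RingHom.ker y) :=
    (Ideal.Quotient.maximal_ideal_iff_isField_quotient _).1 hmax
  rw [ringKrullDim_eq_zero_of_isField h2] at hd
  exact absurd hd (by decide)

/-- T-05a: elements of the ideal with prescribed restrictions to the curves. -/
theorem exists_H {k A : Type} [Field k] [IsAlgClosed k] [CommRing A] [Algebra k A]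
    [Algebra.FiniteType k A] {ι : Type} [Finite ι] {F : ι → Type} [∀ x, Field (F x)]
    (ρ : ∀ x, A →+* F x) (hfrac : ∀ x, IsFrac (ρ x))
    (hdim : ∀ x, ringKrullDim (A ⧸ RingHom.ker (ρ x)) = 1)
    (hker : ∀ x x', RingHom.ker (ρ x) = RingHom.ker (ρ x') → x = x')
    (Y : Finset (A →ₐ[k] k)) (a : ∀ x, F x)
    (hint : ∀ x (v : ValuationSubring (F x)), (∀ b, ρ x b ∈ v) → a x ∈ v) :
    (∀ x, ∃ H : A[X], (∀ x', polyR (ρ x') (a x') H = 0) ∧ (∀ y ∈ Y, H.map y.toRingHom = 0) ∧
      ∃ u : F x, u ≠ 0 ∧ H.map (ρ x) = C u * (X - C (a x))) ∧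
    ∃ G : A[X], (∀ x', polyR (ρ x') (a x') G = 0) ∧ (∀ y ∈ Y, G.map y.toRingHom = 0) ∧
      ∀ x, ρ x G.leadingCoeff ≠ 0 := by
  classical
  have hfin : Fintype ι := Fintype.ofFinite ι
  have hC : ∀ (x : ι) (e : A), polyR (ρ x) (a x) (C e) = ρ x e := fun x e => eval₂_C _ _
  constructor
  · intro x
    -- the constants
    have h1 : ∀ x' : ι, ∃ b : A, (x' ≠ x → ρ x' b = 0) ∧ ρ x b ≠ 0 := by
      intro x'
      by_cases hx : x' = x
      · exact ⟨1, fun h => absurd hx h, by rw [map_one]; exact one_ne_zero⟩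
      · obtain ⟨b, hb1, hb2⟩ := exh_curve (ρ x) (ρ x') (hdim x) (hdim x')
          fun h => hx (hker _ _ h)
        exact ⟨b, fun _ => hb1, hb2⟩
    choose b hb1 hb2 using h1
    have h2 : ∀ y : A →ₐ[k] k, ∃ b : A, y b = 0 ∧ ρ x b ≠ 0 := fun y =>
      exh_point (ρ x) (hdim x) y
    choose b' hb1' hb2' using h2
    obtain ⟨α, β, hβ, hαβ⟩ := hfrac x (a x)
    set e : A := (∏ x', b x') * ∏ y ∈ Y, b' y with he
    have hex : ρ x e ≠ 0 := by
      rw [he, map_mul, map_prod, map_prod]
      exact mul_ne_zero (Finset.prod_ne_zero_iff.2 fun x' _ => hb2 x')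
        (Finset.prod_ne_zero_iff.2 fun y _ => hb2' y)
    have hex' : ∀ x', x' ≠ x → ρ x' e = 0 := by
      intro x' hx'
      rw [he, map_mul, map_prod, Finset.prod_eq_zero (Finset.mem_univ x') (hb1 x' hx'), zero_mul]
    have hey : ∀ y ∈ Y, y e = 0 := by
      intro y hy
      rw [he, map_mul, map_prod y b' Y, Finset.prod_eq_zero hy (hb1' y), mul_zero]
    refine ⟨(C β * X - C α) * C e, ?_, ?_, ρ x β * ρ x e, mul_ne_zero hβ hex, ?_⟩
    · intro x'
      rw [map_mul, hC]
      by_cases hx : x' = x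
      · subst hx
        have : polyR (ρ x') (a x') (C β * X - C α) = 0 := by
          rw [map_sub, map_mul, hC, hC]
          have hX : polyR (ρ x') (a x') X = a x' := eval₂_X _ _
          rw [hX, ← hαβ, mul_comm, sub_self]
        rw [this, zero_mul]
      · rw [hex' x' hx, mul_zero]
    · intro y hy
      rw [Polynomial.map_mul, map_C]
      have : y.toRingHom e = 0 := hey y hy
      rw [this, C_0, mul_zero]
    · rw [Polynomial.map_mul, Polynomial.map_sub, Polynomial.map_mul, map_C, map_C, map_C, map_X,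
        ← hαβ, C_mul, C_mul]
      ring
  · -- the monic polynomials
    have h1 : ∀ x, ∃ f : A[X], f.Monic ∧ polyR (ρ x) (a x) f = 0 := fun x =>
      exists_monic (hint x)
    choose m hm1 hm2 using h1
    have h2 : ∃ e : A, (∀ y ∈ Y, y e = 0) ∧ ∀ x, ρ x e ≠ 0 := by
      by_contra hcon
      push Not at hcon
      have h3 : ((Y.inf fun y => RingHom.ker y : Ideal A) : Set A) ⊆
          ⋃ x ∈ ((Finset.univ : Finset ι) : Set ι), (RingHom.ker (ρ x) : Ideal A) := by
        intro e he
        have h4 : ∀ y ∈ Y, y e = 0 := by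
          intro y hy
          have h5 : (Y.inf fun y => RingHom.ker y : Ideal A) ≤ RingHom.ker y :=
            Finset.inf_le (f := fun y : A →ₐ[k] k => RingHom.ker y) hy
          exact h5 he
        obtain ⟨x, hx⟩ := hcon e h4
        exact Set.mem_iUnion₂.2 ⟨x, Finset.mem_coe.2 (Finset.mem_univ x), hx⟩
      by_cases hι : Nonempty ι
      · obtain ⟨x0⟩ := hι
        rw [Ideal.subset_union_prime x0 x0 fun i _ _ _ => RingHom.ker_isPrime (ρ i)] at h3
        obtain ⟨x, -, hx⟩ := h3
        have hp := RingHom.ker_isPrime (ρ x)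
        rw [hp.inf_le'] at hx
        obtain ⟨y, -, hy⟩ := hx
        obtain ⟨b, hb1, hb2⟩ := exh_point (ρ x) (hdim x) y
        exact hb2 (hy hb1)
      · obtain ⟨x, -⟩ := hcon 0 fun y _ => map_zero y
        exact hι ⟨x⟩
    obtain ⟨e, he1, he2⟩ := h2
    have hM : (∏ x, m x).Monic := monic_prod_of_monic _ _ fun x _ => hm1 x
    refine ⟨C e * ∏ x, m x, ?_, ?_, ?_⟩
    · intro x'
      rw [map_mul, map_prod, Finset.prod_eq_zero (Finset.mem_univ x') (hm2 x'), mul_zero]
    · intro y hy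
      rw [Polynomial.map_mul, map_C]
      have : y.toRingHom e = 0 := he1 y hy
      rw [this, C_0, zero_mul]
    · intro x
      rw [leadingCoeff_mul_monic hM, leadingCoeff_C]
      exact he2 x

end Pool.Agent.K1
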