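import Pool.Agent.K1.TDefs
import Mathlib.RingTheory.DiscreteValuationRing.TFAE

/-!
A point of a curve with only one place above it, where a function has order one: the local ring
of the curve is the valuation ring of the place.
-/

set_option autoImplicit false

namespace Pool.Agent.K1

section

variable {k A F : Type} [Field k] [CommRing A] [Algebra k A] [Field F] {ρ : A →+* F}
  {v : ValuationSubring F} {z : A →ₐ[k] k}

theorem tlr_val_lt (hz : CentredAt ρ v z) {s : A} (hs : z s = 0) : v.valuation (ρ s) < 1 :=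
  (v.mem_nonunits_iff).1 ((hz s).2 hs)

theorem tlr_val_le (hz : CentredAt ρ v z) (s : A) : v.valuation (ρ s) ≤ 1 :=
  (v.valuation_le_one_iff _).2 (hz s).1

/-- A function which does not vanish at the point is a unit of the valuation ring. -/
theorem tlr_not_lt (hz : CentredAt ρ v z) {s : A} (hs : z s ≠ 0) :
    ¬ v.valuation (ρ s) < 1 := by
  intro h
  have h1 : z (s - algebraMap k A (z s)) = 0 := by
    rw [map_sub, AlgHom.commutes]
    simp
  have h2 := tlr_val_lt hz h1
  have h3 : v.valuation (ρ (algebraMap k A (z s))) < 1 := by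
    have h4 : ρ (algebraMap k A (z s)) = ρ s - ρ (s - algebraMap k A (z s)) := by
      rw [map_sub]; ring
    rw [h4]
    exact lt_of_le_of_lt (Valuation.map_sub _ _ _) (max_lt h h2)
  have h5 : ρ (algebraMap k A (z s)) * ρ (algebraMap k A (z s)⁻¹) = 1 := by
    rw [← map_mul, ← map_mul, mul_inv_cancel₀ hs, map_one, map_one]
  have h6 : v.valuation (ρ (algebraMap k A (z s))) *
      v.valuation (ρ (algebraMap k A (z s)⁻¹)) = 1 := by
    rw [← map_mul, h5, map_one]
  have h7 := tlr_val_le hz (algebraMap k A (z s)⁻¹)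
  have h8 : v.valuation (ρ (algebraMap k A (z s))) *
      v.valuation (ρ (algebraMap k A (z s)⁻¹)) < 1 :=
    lt_of_le_of_lt (mul_le_of_le_one_right' h7) h3
  exact absurd h6 h8.ne

theorem tlr_ker (hz : CentredAt ρ v z) {s : A} (hs : ρ s = 0) : z s = 0 := by
  by_contra h
  exact tlr_not_lt hz h (by rw [hs, map_zero]; exact zero_lt_one)

/-- The only place above the point and a function of order one: the length is one. -/
theorem tlr_ordPt (hP : PlaceThy k ρ) (hv : v ≠ ⊤) (hz : CentredAt ρ v z)
    (hone : ∀ v' : ValuationSubring F, v' ≠ ⊤ → CentredAt ρ v' z → v' = v) {g : A}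
    (hg : ordV v (ρ g) = 1) : ρ g ≠ 0 ∧ ordPt (RingHom.ker ρ) z g = 1 := by
  have hg0 : ρ g ≠ 0 := by
    intro h0
    rw [h0] at hg
    unfold ordV at hg
    rw [dif_neg] at hg
    · exact zero_ne_one hg
    · rintro ⟨n, π, u, hπ, hu, h⟩
      exact mul_ne_zero (zpow_ne_zero n hπ.1) u.ne_zero h.symm
  refine ⟨hg0, ?_⟩
  have hset : {v' : ValuationSubring F | v' ≠ ⊤ ∧ CentredAt ρ v' z} = {v} := by
    ext v'
    constructor
    · rintro ⟨h1, h2⟩
      exact hone v' h1 h2
    · intro h
      rw [Set.mem_singleton_iff.1 h]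
      exact ⟨hv, hz⟩
  have h1 : ordPt (RingHom.ker ρ) z (1 : A) = 0 := by
    unfold ordPt
    rw [map_one]
    exact lenP_unit _ isUnit_one
  have h2 := (hP.ord z (Units.mk0 (ρ g) hg0)
    (((ordPt (RingHom.ker ρ) z g).toNat : ℤ) - ((ordPt (RingHom.ker ρ) z (1 : A)).toNat : ℤ))).1
    ⟨g, 1, hg0, by rw [map_one]; exact one_ne_zero, by rw [map_one, mul_one]; rfl, rfl⟩
  rw [hset, finsum_mem_singleton, Units.val_mk0, hg, h1] at h2
  have h3 : (ordPt (RingHom.ker ρ) z g).toNat = 1 := by
    have : ((ordPt (RingHom.ker ρ) z g).toNat : ℤ) = 1 := by simpa using h2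
    exact_mod_cast this
  exact (ENat.toNat_eq_iff one_ne_zero).1 h3

end

theorem locRing_eq {k A F : Type} [Field k] [IsAlgClosed k] [CommRing A] [Algebra k A]
    [Algebra.FiniteType k A] [Field F] {ρ : A →+* F} (hρ : IsFrac ρ) (hP : PlaceThy k ρ)
    {v : ValuationSubring F} (hv : v ≠ ⊤) {z : A →ₐ[k] k} (hz : CentredAt ρ v z)
    (hone : ∀ v' : ValuationSubring F, v' ≠ ⊤ → CentredAt ρ v' z → v' = v) {g : A}
    (hg : ordV v (ρ g) = 1) :
    ∀ f ∈ v, ∃ G s : A, z s ≠ 0 ∧ f * ρ s = ρ G := by
  classical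
  obtain ⟨hg0, hord⟩ := tlr_ordPt hP hv hz hone hg
  have : IsNoetherianRing A := Algebra.FiniteType.isNoetherianRing k A
  have : IsNoetherianRing (LocAt z) :=
    IsLocalization.isNoetherianRing (RingHom.ker z).primeCompl _ inferInstance
  have hunit : ∀ y : (RingHom.ker z).primeCompl, IsUnit (ρ y) := by
    intro y
    apply IsUnit.mk0
    intro h
    exact y.2 (tlr_ker hz h)
  let φ : LocAt z →+* F := IsLocalization.lift hunit
  have hφ : ∀ a, φ (algebraMap A (LocAt z) a) = ρ a := fun a => IsLocalization.lift_eq hunit a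
  let R : Subring F := φ.range
  let ψ : LocAt z →+* R := φ.rangeRestrict
  have hψ : Function.Surjective ψ := φ.rangeRestrict_surjective
  have : IsNoetherianRing R := isNoetherianRing_of_surjective _ _ ψ hψ
  have : IsLocalRing R := IsLocalRing.of_surjective' ψ hψ
  -- the ideal `ker φ + (g)` is maximal
  let P : Ideal (LocAt z) := (RingHom.ker ρ).map (algebraMap A (LocAt z))
  have hmax : IsCoatom (P ⊔ Ideal.span {algebraMap A (LocAt z) g}) := by
    rw [← isSimpleModule_iff_isCoatom, ← Module.length_eq_one_iff]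
    exact hord
  have hmax' : P ⊔ Ideal.span {algebraMap A (LocAt z) g} = IsLocalRing.maximalIdeal (LocAt z) :=
    IsLocalRing.eq_maximalIdeal ⟨hmax⟩
  have hPk : P ≤ RingHom.ker φ := by
    rw [Ideal.map_le_iff_le_comap]
    intro a ha
    change φ (algebraMap A (LocAt z) a) = 0
    rw [hφ]
    exact ha
  have hprin : (IsLocalRing.maximalIdeal R).IsPrincipal := by
    refine ⟨ψ (algebraMap A (LocAt z) g), ?_⟩
    change _ = Ideal.span {ψ (algebraMap A (LocAt z) g)}
    apply le_antisymm
    · intro y hy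
      obtain ⟨x, rfl⟩ := hψ y
      have hx : x ∈ IsLocalRing.maximalIdeal (LocAt z) := by
        by_contra hx
        have hxu : IsUnit x := by
          by_contra h
          exact hx ((IsLocalRing.mem_maximalIdeal x).2 h)
        exact (IsLocalRing.mem_maximalIdeal _).1 hy (hxu.map ψ)
      rw [← hmax', Submodule.mem_sup] at hx
      obtain ⟨p, hp, q, hq, rfl⟩ := hx
      have h0 : ψ p = 0 := Subtype.ext (hPk hp)
      rw [map_add, h0, zero_add]
      obtain ⟨r, rfl⟩ := Ideal.mem_span_singleton'.1 hq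
      rw [map_mul]
      exact Ideal.mul_mem_left _ _ (Ideal.mem_span_singleton_self _)
    · rw [Ideal.span_singleton_le_iff_mem]
      apply (IsLocalRing.mem_maximalIdeal _).2
      intro h
      obtain ⟨⟨y, hy⟩, hy'⟩ := h.exists_right_inv
      obtain ⟨x, rfl⟩ := hy
      have h1 : φ (algebraMap A (LocAt z) g) * φ x = 1 := congrArg Subtype.val hy'
      obtain ⟨⟨G, s⟩, hGs⟩ := IsLocalization.surj (RingHom.ker z).primeCompl x
      have h2 : φ x * ρ s = ρ G := by
        rw [← hφ s, ← hφ G, ← map_mul]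
        exact congrArg φ hGs
      have h3 : ρ g * ρ G = ρ s := by
        rw [← h2, ← hφ g, ← mul_assoc, h1, one_mul]
      have hgz : z g = 0 := by
        by_contra hgz
        have h4 : IsUnit (algebraMap A (LocAt z) g) :=
          IsLocalization.map_units (LocAt z) (⟨g, hgz⟩ : (RingHom.ker z).primeCompl)
        have h5 := hmax.1
        apply h5
        exact Ideal.eq_top_of_isUnit_mem _ (Ideal.mem_sup_right
          (Ideal.mem_span_singleton_self _)) h4
      have h4 : v.valuation (ρ s) < 1 := by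
        rw [← h3, map_mul]
        exact lt_of_le_of_lt (mul_le_of_le_one_right' (tlr_val_le hz G)) (tlr_val_lt hz hgz)
      exact tlr_not_lt hz (fun h => s.2 h) h4
  have : ValuationRing R :=
    ((tfae_of_isNoetherianRing_of_isLocalRing_of_isDomain R).out 4 1).1 hprin
  intro f hf
  obtain ⟨a, b, hb, hab⟩ := hρ f
  by_cases hf0 : f = 0
  · exact ⟨0, 1, by rw [map_one]; exact one_ne_zero, by rw [hf0, zero_mul, map_zero]⟩
  have hsurj : ∀ y : R, ∃ G s : A, z s ≠ 0 ∧ (y : F) * ρ s = ρ G := by
    rintro ⟨y, x, rfl⟩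
    obtain ⟨⟨G, s⟩, hGs⟩ := IsLocalization.surj (RingHom.ker z).primeCompl x
    refine ⟨G, s, fun h => s.2 h, ?_⟩
    change φ x * ρ s = ρ G
    rw [← hφ s, ← hφ G, ← map_mul]
    exact congrArg φ hGs
  obtain ⟨c, hc⟩ := ValuationRing.cond (ψ (algebraMap A (LocAt z) b))
    (ψ (algebraMap A (LocAt z) a))
  have hval : ∀ a : A, ((ψ (algebraMap A (LocAt z) a) : R) : F) = ρ a := hφ
  rcases hc with hc | hc
  · -- `b c = a`
    have h1 : ρ b * (c : F) = ρ a := by
      have := congrArg (Subtype.val : R → F) hc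
      rw [← hval, ← hval]
      exact this
    have h2 : f = c := by
      apply mul_left_cancel₀ hb
      rw [h1, ← hab, mul_comm]
    obtain ⟨G, s, hs, h⟩ := hsurj c
    exact ⟨G, s, hs, by rw [h2]; exact h⟩
  · have h1 : ρ a * (c : F) = ρ b := by
      have := congrArg (Subtype.val : R → F) hc
      rw [← hval, ← hval]
      exact this
    have h2 : f * c = 1 := by
      apply mul_right_cancel₀ hb
      rw [one_mul]
      calc f * c * ρ b = (f * ρ b) * c := by ring
        _ = ρ b := by rw [hab, h1]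
    obtain ⟨G, s, hs, h⟩ := hsurj c
    have h3 : f * ρ G = ρ s := by
      rw [← h, ← mul_assoc, h2, one_mul]
    refine ⟨s, G, ?_, h3⟩
    intro hG
    apply tlr_not_lt hz hs
    rw [← h3, map_mul]
    exact lt_of_le_of_lt (mul_le_of_le_one_left' ((v.valuation_le_one_iff _).2 hf))
      (tlr_val_lt hz hG)

end Pool.Agent.K1
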