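import Pool.Agent.K1.TDefs

/-!
Generic lemmas for surfaces through given curves: planarity of the union of a vertical line and a
curve which is smooth and parametrized by the last coordinate, and the choice of general members
of a linear system.
-/

set_option autoImplicit false

namespace Pool.Agent.K1

/-- The family `f` is independent modulo the square of the ideal `n`. -/
def IndepM {B : Type*} [CommRing B] {c : ℕ} (f : Fin c → B) (n : Ideal B) : Prop :=
  ∀ a : Fin c → B, ∑ i, a i * f i ∈ n ^ 2 → ∀ i, a i ∈ n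

/-- In a discrete valuation ring `D_M` which is the local ring at `n` of the image of `B`, some
element of a finite family divides all of them, with quotients in the image of `B_n`. -/
theorem planar_ring {B D : Type*} [CommRing B] [CommRing D] [IsDomain D] (Θ : B →+* D) (M : Ideal D)
    [hM : M.IsPrime] [IsDiscreteValuationRing (Localization.AtPrime M)] (n : Ideal B)
    [hnp : n.IsPrime]
    (hn : ∀ G, G ∈ n ↔ Θ G ∈ M) (hsurj : ∀ δ : D, ∃ s G : B, s ∉ n ∧ Θ s * δ = Θ G) {m : ℕ}
    (x : Fin (m + 1) → B) :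
    ∃ (j₀ : Fin (m + 1)) (s : B) (e : Fin (m + 1) → B), s ∉ n ∧
      ∀ j, Θ (s * x j - e j * x j₀) = 0 := by
  classical
  obtain ⟨j₀, -, hj₀⟩ := Finset.exists_min_image Finset.univ
    (fun j => IsDiscreteValuationRing.addVal (Localization.AtPrime M)
      (algebraMap D (Localization.AtPrime M) (Θ (x j)))) ⟨0, Finset.mem_univ 0⟩
  have hinj : Function.Injective (algebraMap D (Localization.AtPrime M)) :=
    IsLocalization.injective _ M.primeCompl_le_nonZeroDivisors
  have h1 : ∀ j, ∃ S E : B, S ∉ n ∧ Θ S * Θ (x j) = Θ E * Θ (x j₀) := by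
    intro j
    have h2 := hj₀ j (Finset.mem_univ j)
    rw [IsDiscreteValuationRing.addVal_le_iff_dvd] at h2
    obtain ⟨ε, hε⟩ := h2
    obtain ⟨⟨δ, σ⟩, hδ⟩ := IsLocalization.surj M.primeCompl ε
    have h3 : (σ : D) * Θ (x j) = δ * Θ (x j₀) := by
      apply hinj
      rw [map_mul, map_mul, hε, ← hδ]
      ring
    obtain ⟨s₁, G₁, hs₁, hG₁⟩ := hsurj (σ : D)
    obtain ⟨s₂, G₂, hs₂, hG₂⟩ := hsurj δ
    have hG₁n : G₁ ∉ n := by
      rw [hn, ← hG₁]
      intro h
      rcases hM.mem_or_mem h with h | h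
      · exact hs₁ ((hn _).mpr h)
      · exact σ.2 h
    refine ⟨s₂ * G₁, s₁ * G₂, ?_, ?_⟩
    · intro h
      rcases hnp.mem_or_mem h with h | h
      · exact hs₂ h
      · exact hG₁n h
    · rw [map_mul, map_mul, ← hG₁, ← hG₂]
      calc Θ s₂ * (Θ s₁ * (σ : D)) * Θ (x j) = Θ s₁ * Θ s₂ * ((σ : D) * Θ (x j)) := by ring
        _ = _ := by rw [h3]; ring
  choose S E hS hSE using h1
  refine ⟨j₀, ∏ j, S j, fun j => E j * ∏ i ∈ Finset.univ.erase j, S i, ?_, ?_⟩
  · intro h
    rw [hnp.prod_mem_iff] at h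
    obtain ⟨j, -, hj⟩ := h
    exact hS j hj
  · intro j
    rw [map_sub, sub_eq_zero, map_mul, map_mul, map_mul,
      ← Finset.mul_prod_erase Finset.univ S (Finset.mem_univ j), map_mul]
    calc Θ (S j) * Θ (∏ i ∈ Finset.univ.erase j, S i) * Θ (x j)
        = Θ (∏ i ∈ Finset.univ.erase j, S i) * (Θ (S j) * Θ (x j)) := by ring
      _ = _ := by rw [hSE]; ring

/-- The elements `s x_j - e_j x_(j₀)`, `j ≠ j₀`, are independent modulo the square of `n`. -/
theorem indepM_planar {B : Type*} [CommRing B] (n : Ideal B) [hnp : n.IsPrime] {m : ℕ}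
    (x : Fin (m + 1) → B) (hx : IndepM x n) (j₀ : Fin (m + 1)) (s : B) (hs : s ∉ n)
    (e : Fin (m + 1) → B) :
    IndepM (fun i : Fin m => s * x (j₀.succAbove i) - e (j₀.succAbove i) * x j₀) n := by
  intro a ha i
  have h1 : ∑ i, a i * (s * x (j₀.succAbove i) - e (j₀.succAbove i) * x j₀) =
      ∑ j, (j₀.insertNth (- ∑ i, a i * e (j₀.succAbove i)) (fun i => a i * s) :
        Fin (m + 1) → B) j * x j := by
    rw [Fin.sum_univ_succAbove _ j₀]
    simp only [Fin.insertNth_apply_same, Fin.insertNth_apply_succAbove]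
    rw [neg_mul, Finset.sum_mul, neg_add_eq_sub, ← Finset.sum_sub_distrib]
    refine Finset.sum_congr rfl fun i _ => ?_
    ring
  rw [h1] at ha
  have h2 := hx _ ha (j₀.succAbove i)
  rw [Fin.insertNth_apply_succAbove] at h2
  exact (hnp.mem_or_mem h2).resolve_right hs

section choice

variable {k W : Type*} [Field k] [Infinite k] [AddCommGroup W] [Module k W]

/-- A vector space over an infinite field is not a finite union of proper subspaces. -/
theorem exists_notMem_submodules (s : Finset (Submodule k W)) (hs : ∀ V ∈ s, V ≠ ⊤) :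
    ∃ w : W, ∀ V ∈ s, w ∉ V := by
  by_contra hcon
  push Not at hcon
  have h := Subspace.top_mem_of_biUnion_eq_univ (k := k) (E := W) (s := s) (by
    rw [Set.eq_univ_iff_forall]
    intro w
    obtain ⟨V, hV, hw⟩ := hcon w
    exact Set.mem_iUnion₂.mpr ⟨V, hV, hw⟩)
  exact hs ⊤ h rfl

variable {S : Type*} [Finite S] {U : S → Type*} [∀ σ, AddCommGroup (U σ)] [∀ σ, Module k (U σ)]

/-- One more general member. -/
theorem exists_snoc_indep (φ : ∀ σ, W →ₗ[k] U σ) {c i : ℕ} (hi : i < c)
    (hφ : ∀ σ, ∃ g : Fin c → W, LinearIndependent k (φ σ ∘ g)) (f : Fin i → W)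
    (hf : ∀ σ, LinearIndependent k (φ σ ∘ f)) (s : Finset (Submodule k W))
    (hs : ∀ V ∈ s, V ≠ ⊤) :
    ∃ w : W, (∀ V ∈ s, w ∉ V) ∧
      ∀ σ, LinearIndependent k (φ σ ∘ (Fin.snoc f w : Fin (i + 1) → W)) := by
  classical
  cases nonempty_fintype S
  let T : S → Submodule k W := fun σ =>
    (Submodule.span k (Set.range (φ σ ∘ f))).comap (φ σ)
  have hT : ∀ σ, T σ ≠ ⊤ := by
    intro σ h
    obtain ⟨g, hg⟩ := hφ σ
    have h1 : ∀ j, φ σ (g j) ∈ Submodule.span k (Set.range (φ σ ∘ f)) := by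
      intro j
      have : g j ∈ T σ := by rw [h]; exact Submodule.mem_top
      exact this
    have h2 : LinearIndependent k
        (fun j => (⟨φ σ (g j), h1 j⟩ : Submodule.span k (Set.range (φ σ ∘ f)))) :=
      LinearIndependent.of_comp (Submodule.subtype _) hg
    have : FiniteDimensional k (Submodule.span k (Set.range (φ σ ∘ f))) :=
      FiniteDimensional.span_of_finite k (Set.finite_range _)
    have h3 := h2.fintype_card_le_finrank
    have h4 := finrank_range_le_card (R := k) (φ σ ∘ f)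
    rw [Fintype.card_fin] at h3 h4
    have h5 : c ≤ i := h3.trans h4
    omega
  obtain ⟨w, hw⟩ := exists_notMem_submodules (s ∪ Finset.univ.image T) (by
    intro V hV
    rw [Finset.mem_union] at hV
    rcases hV with hV | hV
    · exact hs V hV
    · obtain ⟨σ, -, rfl⟩ := Finset.mem_image.mp hV
      exact hT σ)
  refine ⟨w, fun V hV => hw V (Finset.mem_union_left _ hV), fun σ => ?_⟩
  have h1 : w ∉ T σ := hw _ (Finset.mem_union_right _ (Finset.mem_image_of_mem _ (Finset.mem_univ σ)))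
  have h2 : φ σ ∘ (Fin.snoc f w : Fin (i + 1) → W) = Fin.snoc (φ σ ∘ f) (φ σ w) := by
    ext j
    refine Fin.lastCases ?_ (fun j => ?_) j
    · simp
    · simp
  rw [h2, linearIndependent_finSnoc]
  exact ⟨hf σ, h1⟩

/-- Extension of an independent family. -/
theorem exists_extend_indep (φ : ∀ σ, W →ₗ[k] U σ) {c : ℕ}
    (hφ : ∀ σ, ∃ g : Fin c → W, LinearIndependent k (φ σ ∘ g)) (j : ℕ) :
    ∀ (i : ℕ) (_ : i + j = c) (f : Fin i → W) (_ : ∀ σ, LinearIndependent k (φ σ ∘ f)),
    ∃ f' : Fin c → W, (∀ σ, LinearIndependent k (φ σ ∘ f')) ∧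
      ∀ (a : Fin i) (b : Fin c), (a : ℕ) = b → f' b = f a := by
  induction j with
  | zero =>
    intro i hi f hf
    obtain rfl : i = c := by omega
    exact ⟨f, hf, fun a b hab => by rw [Fin.ext hab]⟩
  | succ j ih =>
    intro i hi f hf
    obtain ⟨w, -, hw⟩ := exists_snoc_indep φ (by omega : i < c) hφ f hf ∅ (by simp)
    obtain ⟨f', hf', he⟩ := ih (i + 1) (by omega) (Fin.snoc f w) hw
    refine ⟨f', hf', fun a b hab => ?_⟩
    rw [he a.castSucc b (by simpa using hab), Fin.snoc_castSucc]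

/-- General members of a linear system: the first two members also avoid finitely many proper
subspaces (for the second these depend on the first). -/
theorem exists_general (φ : ∀ σ, W →ₗ[k] U σ) {c : ℕ} (hc : 2 ≤ c)
    (hφ : ∀ σ, ∃ g : Fin c → W, LinearIndependent k (φ σ ∘ g))
    (s₀ : Finset (Submodule k W)) (hs₀ : ∀ V ∈ s₀, V ≠ ⊤)
    (s₁ : W → Finset (Submodule k W)) (hs₁ : ∀ w, (∀ V ∈ s₀, w ∉ V) → ∀ V ∈ s₁ w, V ≠ ⊤) :
    ∃ f : Fin c → W, (∀ σ, LinearIndependent k (φ σ ∘ f)) ∧ (∀ V ∈ s₀, f ⟨0, by omega⟩ ∉ V) ∧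
      ∀ V ∈ s₁ (f ⟨0, by omega⟩), f ⟨1, by omega⟩ ∉ V := by
  obtain ⟨w₀, hw₀, h₀⟩ := exists_snoc_indep φ (by omega : 0 < c) hφ Fin.elim0
    (fun σ => linearIndependent_empty_type) s₀ hs₀
  obtain ⟨w₁, hw₁, h₁⟩ := exists_snoc_indep φ (by omega : 1 < c) hφ (Fin.snoc Fin.elim0 w₀) h₀
    (s₁ w₀) (hs₁ w₀ hw₀)
  obtain ⟨f, hf, he⟩ := exists_extend_indep φ hφ (c - 2) 2 (by omega)
    (Fin.snoc (Fin.snoc Fin.elim0 w₀) w₁) h₁
  have e0 : f ⟨0, by omega⟩ = w₀ := by
    rw [he (0 : Fin 2) ⟨0, by omega⟩ rfl]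
    rfl
  have e1 : f ⟨1, by omega⟩ = w₁ := by
    rw [he (1 : Fin 2) ⟨1, by omega⟩ rfl]
    rfl
  refine ⟨f, hf, ?_, ?_⟩
  · rw [e0]; exact hw₀
  · rw [e0, e1]; exact hw₁

end choice

section planar

open Polynomial IsLocalRing

/-- Parameters at a regular point. -/
theorem tplanar_params {k A : Type} [Field k] [CommRing A] [Algebra k A] (z : A →ₐ[k] k)
    (hreg : IsRegularLocalRing (LocAt z)) (d : ℕ)
    (hdim : ringKrullDim (LocAt z) = (d : WithBot ℕ∞)) :
    ∃ x : Fin d → A, (∀ i, z (x i) = 0) ∧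
      ∀ α : Fin d → k, ∑ i, α i • x i ∈ (RingHom.ker z) ^ 2 → ∀ i, α i = 0 := by
  classical
  let R := LocAt z
  let n : Ideal A := RingHom.ker z
  have hfr : (Module.finrank (ResidueField R) (CotangentSpace R) : WithBot ℕ∞) =
      ringKrullDim R := (IsRegularLocalRing.iff_finrank_cotangentSpace R).mp hreg
  have hd : Module.finrank (ResidueField R) (CotangentSpace R) = d := by
    rw [hdim] at hfr
    exact_mod_cast hfr
  let b := Module.finBasisOfFinrankEq (ResidueField R) (CotangentSpace R) hd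
  have h1 : ∀ i, ∃ x : A, ∃ s : A, s ∉ n ∧ x ∈ n ∧ ∃ y : maximalIdeal R,
      (maximalIdeal R).toCotangent y = b i ∧ (y : R) * algebraMap A R s = algebraMap A R x := by
    intro i
    obtain ⟨y, hy⟩ := Ideal.toCotangent_surjective (maximalIdeal R) (b i)
    obtain ⟨⟨x, s⟩, hxs⟩ := IsLocalization.surj n.primeCompl (y : R)
    refine ⟨x, s, s.2, ?_, y, hy, hxs⟩
    rw [← IsLocalization.AtPrime.to_map_mem_maximal_iff R n x, ← hxs]
    exact Ideal.mul_mem_right _ _ y.2
  choose x s hs hx y hy hys using h1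
  refine ⟨x, hx, fun α hα i => ?_⟩
  have hxm : ∀ i, algebraMap A R (x i) ∈ maximalIdeal R := fun i =>
    (IsLocalization.AtPrime.to_map_mem_maximal_iff R n (x i)).mpr (hx i)
  have h2 : ∑ i, algebraMap k R (α i) * algebraMap A R (x i) ∈ (maximalIdeal R) ^ 2 := by
    have h3 : algebraMap A R (∑ i, α i • x i) ∈ (maximalIdeal R) ^ 2 := by
      have h4 := Ideal.mem_map_of_mem (algebraMap A R) hα
      rw [Ideal.map_pow, Localization.AtPrime.map_eq_maximalIdeal] at h4
      exact h4
    rw [map_sum] at h3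
    convert! h3 using 2 with i
    rw [Algebra.smul_def, map_mul, ← IsScalarTower.algebraMap_apply]
  have h3 : ∑ i, (algebraMap k R (α i) * algebraMap A R (s i)) •
      (maximalIdeal R).toCotangent (y i) = 0 := by
    have e : ∑ i, (algebraMap k R (α i) * algebraMap A R (s i)) •
        (maximalIdeal R).toCotangent (y i) = (maximalIdeal R).toCotangent
          (∑ i, (algebraMap k R (α i) * algebraMap A R (s i)) • y i) := by
      rw [map_sum]
      rfl
    rw [e, Ideal.toCotangent_eq_zero]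
    have e2 : ((∑ i, (algebraMap k R (α i) * algebraMap A R (s i)) • y i : maximalIdeal R) : R) =
        ∑ i, algebraMap k R (α i) * algebraMap A R (x i) := by
      rw [AddSubmonoidClass.coe_finsetSum]
      refine Finset.sum_congr rfl fun i _ => ?_
      change (algebraMap k R (α i) * algebraMap A R (s i)) * (y i : R) = _
      rw [← hys i]
      ring
    rw [e2]
    exact h2
  have h4 : ∑ i, (residue R (algebraMap k R (α i) * algebraMap A R (s i))) • b i = 0 := by
    rw [← h3]
    refine Finset.sum_congr rfl fun i _ => ?_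
    rw [← hy i]
    rfl
  have h5 := Fintype.linearIndependent_iff.mp b.linearIndependent _ h4 i
  rw [IsLocalRing.residue_eq_zero_iff, IsScalarTower.algebraMap_apply k A R, ← map_mul] at h5
  have h6 : z (algebraMap k A (α i) * s i) = 0 :=
    (IsLocalization.AtPrime.to_map_mem_maximal_iff R n _).mp h5
  rw [map_mul, AlgHom.commutes] at h6
  exact (mul_eq_zero.mp h6).resolve_right (hs i)

/-- Equations of a curve and of the line over a point, with independent differentials. -/
theorem planar {k A F : Type} [Field k] [IsAlgClosed k] [CommRing A] [IsDomain A] [Algebra k A]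
    [Algebra.FiniteType k A] [Field F] (m : ℕ) (z : A →ₐ[k] k)
    (hreg : IsRegularLocalRing (LocAt z))
    (hdim : ringKrullDim (LocAt z) = ((m + 3 : ℕ) : WithBot ℕ∞))
    (ρ : A →+* F) {v : ValuationSubring F} (hv : IsDiscV v) (hz : CentredAt ρ v z) (a : F)
    (c : k) (ha : a - ρ (algebraMap k A c) ∈ v.nonunits)
    (hloc : ∀ f ∈ v, ∃ G s : A[X], polyZ z c s ≠ 0 ∧ f * polyR ρ a s = polyR ρ a G) :
    ∃ G : Fin (m + 2) → A[X], (∀ j, polyR ρ a (G j) = 0) ∧
      (∀ j, (G j).map z.toRingHom = 0) ∧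
      ∀ α : Fin (m + 2) → k, ∑ j, α j • G j ∈ (RingHom.ker (polyZ z c)) ^ 2 →
        ∀ j, α j = 0 := by
  classical
  obtain ⟨x, hx0, hx⟩ := tplanar_params z hreg (m + 3) hdim
  -- an element of minimal order
  obtain ⟨j₀, -, hj₀⟩ := Finset.exists_max_image Finset.univ
    (fun j => v.valuation (ρ (x j))) ⟨(0 : Fin (m + 3)), Finset.mem_univ _⟩
  have h1 : ∀ j, ∃ e ∈ v, ρ (x j) = e * ρ (x j₀) := by
    intro j
    by_cases h0 : ρ (x j₀) = 0
    · have h2 := hj₀ j (Finset.mem_univ j)
      rw [h0, map_zero, le_zero_iff, Valuation.zero_iff] at h2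
      exact ⟨0, v.zero_mem, by rw [h2, zero_mul]⟩
    · refine ⟨ρ (x j) / ρ (x j₀), ?_, by field_simp⟩
      rw [← v.valuation_le_one_iff, map_div₀]
      have h3 : v.valuation (ρ (x j₀)) ≠ 0 := (Valuation.ne_zero_iff _).mpr h0
      exact (div_le_one₀ (zero_lt_iff.mpr h3)).mpr (hj₀ j (Finset.mem_univ j))
  choose e he hxe using h1
  choose G s hs hGs using fun j => hloc (e j) (he j)
  let u : Fin (m + 3) → A[X] := fun j => s j * C (x j) - G j * C (x j₀)
  have hu1 : ∀ j, polyR ρ a (u j) = 0 := by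
    intro j
    have hC : ∀ b : A, polyR ρ a (C b) = ρ b := fun b => eval₂_C _ _
    change polyR ρ a (s j * C (x j) - G j * C (x j₀)) = 0
    rw [map_sub, map_mul, map_mul, hC, hC, ← hGs j, hxe j]
    ring
  have hu2 : ∀ j, (u j).map z.toRingHom = 0 := by
    intro j
    have h4 : ∀ i, z.toRingHom (x i) = 0 := hx0
    simp only [u, Polynomial.map_sub, Polynomial.map_mul, map_C, h4, C_0, mul_zero, sub_self]
  -- evaluation of the polynomials at `c`
  let E : A[X] →+* A := evalRingHom (algebraMap k A c)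
  have hEC : ∀ b : A, E (C b) = b := fun b => eval_C
  have hzE : ∀ f : A[X], z (E f) = polyZ z c f := by
    intro f
    have h5 : (z : A →+* k).comp E = (polyZ z c : A[X] →+* k) := by
      apply Polynomial.ringHom_ext
      · intro b
        change z ((C b).eval _) = eval₂ z.toRingHom c (C b)
        rw [eval_C, eval₂_C]
        rfl
      · change z (X.eval _) = eval₂ z.toRingHom c X
        rw [eval_X, eval₂_X, AlgHom.commutes]
        rfl
    exact congrArg (fun g => g f) h5
  have hE2 : ∀ f ∈ (RingHom.ker (polyZ z c)) ^ 2, E f ∈ (RingHom.ker z) ^ 2 := by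
    intro f hf
    have h6 := Ideal.mem_map_of_mem E hf
    rw [Ideal.map_pow] at h6
    refine Ideal.pow_right_mono ?_ 2 h6
    rw [Ideal.map_le_iff_le_comap]
    intro g hg
    change z (E g) = 0
    rw [hzE]
    exact hg
  have hmod : ∀ (f : A[X]) i, E f * x i - polyZ z c f • x i ∈ (RingHom.ker z) ^ 2 := by
    intro f i
    have e1 : E f * x i - polyZ z c f • x i = (E f - algebraMap k A (polyZ z c f)) * x i := by
      rw [Algebra.smul_def]
      ring
    rw [e1, pow_two]
    refine Ideal.mul_mem_mul ?_ (hx0 i)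
    change z _ = 0
    rw [map_sub, hzE, AlgHom.commutes]
    simp
  refine ⟨fun j => u (j₀.succAbove j), fun j => hu1 _, fun j => hu2 _, fun α hα j => ?_⟩
  have h7 := hE2 _ hα
  have h8 : E (∑ j, α j • u (j₀.succAbove j)) - ∑ j, (α j * polyZ z c (s (j₀.succAbove j))) •
      x (j₀.succAbove j) + ∑ j, (α j * polyZ z c (G (j₀.succAbove j))) • x j₀ ∈
        (RingHom.ker z) ^ 2 := by
    rw [map_sum, ← Finset.sum_sub_distrib, ← Finset.sum_add_distrib]
    refine Ideal.sum_mem _ fun j _ => ?_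
    have e3 : E (α j • u (j₀.succAbove j)) = α j • (E (s (j₀.succAbove j)) * x (j₀.succAbove j) -
        E (G (j₀.succAbove j)) * x j₀) := by
      have e4 : E (α j • u (j₀.succAbove j)) = α j • E (u (j₀.succAbove j)) := by
        rw [← algebraMap_smul A (α j) (u (j₀.succAbove j)), smul_eq_C_mul, map_mul,
          Algebra.smul_def]
        congr 1
        exact eval_C
      rw [e4]
      congr 1
      change E (s _ * C _ - G _ * C _) = _
      rw [map_sub, map_mul, map_mul, hEC, hEC]
    rw [e3]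
    have e5 : α j • (E (s (j₀.succAbove j)) * x (j₀.succAbove j) -
        E (G (j₀.succAbove j)) * x j₀) -
        (α j * polyZ z c (s (j₀.succAbove j))) • x (j₀.succAbove j) +
        (α j * polyZ z c (G (j₀.succAbove j))) • x j₀ =
        α j • (E (s (j₀.succAbove j)) * x (j₀.succAbove j) -
          polyZ z c (s (j₀.succAbove j)) • x (j₀.succAbove j)) -
        α j • (E (G (j₀.succAbove j)) * x j₀ - polyZ z c (G (j₀.succAbove j)) • x j₀) := by
      simp only [smul_sub, mul_smul]
      abel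
    rw [e5]
    refine Submodule.sub_mem _ ?_ ?_
    · exact Submodule.smul_of_tower_mem _ _ (hmod _ _)
    · exact Submodule.smul_of_tower_mem _ _ (hmod _ _)
  have h9 : ∑ j, (α j * polyZ z c (s (j₀.succAbove j))) • x (j₀.succAbove j) -
      ∑ j, (α j * polyZ z c (G (j₀.succAbove j))) • x j₀ ∈ (RingHom.ker z) ^ 2 := by
    have e6 := Submodule.sub_mem _ h7 h8
    convert! e6 using 1
    abel
  have h10 := hx (j₀.insertNth (- ∑ j, α j * polyZ z c (G (j₀.succAbove j)))
    (fun j => α j * polyZ z c (s (j₀.succAbove j))) : Fin (m + 3) → k) (by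
      rw [Fin.sum_univ_succAbove _ j₀]
      simp only [Fin.insertNth_apply_same, Fin.insertNth_apply_succAbove]
      rw [neg_smul, Finset.sum_smul, neg_add_eq_sub]
      exact h9) (j₀.succAbove j)
  rw [Fin.insertNth_apply_succAbove] at h10
  exact (mul_eq_zero.mp h10).resolve_right (hs _)

end planar

end Pool.Agent.K1
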