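import Pool.Agent.K1.TDefs

/-!
K1, project T, row T-02: the third coordinate.
-/

set_option autoImplicit false

namespace Pool.Agent.K1

theorem exists_sep {k A : Type} [Field k] [Infinite k] [CommRing A] [Algebra k A] {ι : Type}
    [Finite ι] {F : ι → Type} [∀ x, Field (F x)] (ρ : ∀ x, A →+* F x)
    (hP : ∀ x, PlaceThy k (ρ x)) (Y : Finset (A →ₐ[k] k)) :
    ∃ (a : ∀ x, F x) (c : ∀ x, ValuationSubring (F x) → k),
      (∀ x (v : ValuationSubring (F x)), (∀ b, ρ x b ∈ v) → a x ∈ v) ∧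
      (∀ x (v : ValuationSubring (F x)), ∀ y ∈ Y, v ≠ ⊤ → CentredAt (ρ x) v y →
        ordV v (a x - ρ x (algebraMap k A (c x v))) = 1) ∧
      (∀ y ∈ Y, ∀ (x : ι) (v : ValuationSubring (F x)) (x' : ι)
        (v' : ValuationSubring (F x')), v ≠ ⊤ → CentredAt (ρ x) v y → v' ≠ ⊤ →
        CentredAt (ρ x') v' y → c x v = c x' v' →
          (⟨x, v⟩ : Σ x, ValuationSubring (F x)) = ⟨x', v'⟩) := by
  classical
  set S : ∀ x, Set (ValuationSubring (F x)) := fun x =>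
    {v | v ≠ ⊤ ∧ ∃ y ∈ Y, CentredAt (ρ x) v y} with hS
  have hSfin : ∀ x, (S x).Finite := by
    intro x
    refine (Y.finite_toSet.biUnion (fun y _ => (hP x).fin_ctr y)).subset ?_
    rintro v ⟨hv, y, hy, hvy⟩
    simp only [Set.mem_iUnion]
    exact ⟨y, hy, hv, hvy⟩
  set T : Set (Σ x, ValuationSubring (F x)) := {p | p.2 ∈ S p.1} with hT
  have hTfin : T.Finite := by
    refine (Set.finite_iUnion (fun x => (hSfin x).image
      (fun v => (⟨x, v⟩ : Σ x, ValuationSubring (F x))))).subset ?_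
    rintro ⟨x, v⟩ hp
    simp only [Set.mem_iUnion]
    exact ⟨x, v, hp, rfl⟩
  have hTf : Finite T := hTfin
  obtain ⟨g, hg⟩ := exists_injective_nat T
  set f : (Σ x, ValuationSubring (F x)) → k := fun p =>
    if h : p ∈ T then Infinite.natEmbedding k (g ⟨p, h⟩) else 0 with hf
  have hfinj : ∀ p ∈ T, ∀ q ∈ T, f p = f q → p = q := by
    intro p hp q hq h
    rw [hf] at h
    simp only [dif_pos hp, dif_pos hq] at h
    exact congrArg Subtype.val (hg ((Infinite.natEmbedding k).injective h))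
  have happ : ∀ x, ∃ a : F x, (∀ v : ValuationSubring (F x), (∀ b, ρ x b ∈ v) → a ∈ v) ∧
      ∀ v ∈ (hSfin x).toFinset, ordV v (a - ρ x (algebraMap k A (f ⟨x, v⟩))) = 1 := by
    intro x
    refine (hP x).approx (hSfin x).toFinset (fun v => f ⟨x, v⟩) ?_
    intro v hv
    obtain ⟨hv1, y, -, hvy⟩ := (hSfin x).mem_toFinset.1 hv
    exact ⟨hv1, fun b => (hvy b).1⟩
  choose a ha1 ha2 using happ
  refine ⟨a, fun x v => f ⟨x, v⟩, ha1, ?_, ?_⟩
  · intro x v y hy hv hvy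
    exact ha2 x v ((hSfin x).mem_toFinset.2 ⟨hv, y, hy, hvy⟩)
  · intro y hy x v x' v' hv hvy hv' hvy' h
    exact hfinj _ ⟨hv, y, hy, hvy⟩ _ ⟨hv', y, hy, hvy'⟩ h

end Pool.Agent.K1
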