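import Pool.Agent.K1.TPlaceThy
import Pool.Agent.K1.TOrd
import Pool.Agent.K1.TSep
import Pool.Agent.K1.TPoly
import Pool.Agent.K1.TAway
import Pool.Agent.K1.TLocRing
import Pool.Agent.K1.TPlanar
import Pool.Agent.K1.TExH
import Pool.Agent.K1.TEqs
import Pool.Agent.K1.L2Regular

/-!
Theorem B, part II (K1-T-16): the data of the surface through the given curves (assembly).
-/

set_option autoImplicit false

open Polynomial

namespace Pool.Agent.K1

section

variable {k A F : Type} [Field k] [CommRing A] [Algebra k A] [Field F]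

theorem ttb_nonunits (v : ValuationSubring F) {a b : F} (hab : a * b = 1) (hb : b ∈ v) :
    a ∉ v.nonunits := by
  intro ha
  rw [ValuationSubring.mem_nonunits_iff] at ha
  have h1 := (v.valuation_le_one_iff b).2 hb
  have h2 : v.valuation a * v.valuation b = 1 := by rw [← map_mul, hab, map_one]
  have h3 : v.valuation a * v.valuation b < 1 := by
    calc v.valuation a * v.valuation b ≤ v.valuation a * 1 := mul_le_mul_right h1 _
      _ < 1 := by rw [mul_one]; exact ha
  exact absurd h2 h3.ne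

theorem ttb_const {ρ : A →+* F} {v : ValuationSubring F} (hv : ∀ a, ρ a ∈ v) {c : k}
    (hc : c ≠ 0) : ρ (algebraMap k A c) ∉ v.nonunits := by
  refine ttb_nonunits v (b := ρ (algebraMap k A c⁻¹)) ?_ (hv _)
  rw [← map_mul, ← map_mul, mul_inv_cancel₀ hc, map_one, map_one]

theorem ttb_sub {v : ValuationSubring F} {a b : F} (ha : a ∈ v.nonunits)
    (hb : b ∈ v.nonunits) : a - b ∈ v.nonunits := by
  rw [ValuationSubring.mem_nonunits_iff] at ha hb ⊢
  exact lt_of_le_of_lt (v.valuation.map_sub a b) (max_lt ha hb)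

/-- The centre of a valuation ring is unique. -/
theorem ttb_ctr_unique {ρ : A →+* F} {v : ValuationSubring F} {z z' : A →ₐ[k] k}
    (h : CentredAt ρ v z) (h' : CentredAt ρ v z') : z = z' := by
  refine AlgHom.ext fun a => ?_
  by_contra hne
  have h1 : ρ (a - algebraMap k A (z a)) ∈ v.nonunits := by
    refine (h _).2 ?_
    rw [map_sub, AlgHom.commutes]
    exact sub_self _
  have h2 : ρ (a - algebraMap k A (z' a)) ∈ v.nonunits := by
    refine (h' _).2 ?_
    rw [map_sub, AlgHom.commutes]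
    exact sub_self _
  have h3 := ttb_sub h2 h1
  rw [← map_sub] at h3
  have h4 : a - algebraMap k A (z' a) - (a - algebraMap k A (z a)) =
      algebraMap k A (z a - z' a) := by
    rw [map_sub]
    ring
  rw [h4] at h3
  exact ttb_const (fun a => (h a).1) (sub_ne_zero.2 hne) h3

theorem ttb_ordV_zero (v : ValuationSubring F) : ordV v (0 : F) = 0 := by
  rw [ordV, dif_neg]
  rintro ⟨n, π, u, hπ, -, h0⟩
  exact mul_ne_zero (zpow_ne_zero n hπ.1) u.ne_zero h0.symm

theorem ttb_nonunits_of_ord {v : ValuationSubring F} (hv : IsDiscV v) {t : F}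
    (h : ordV v t = 1) : t ∈ v.nonunits := by
  have ht : t ≠ 0 := by
    rintro rfl
    rw [ttb_ordV_zero] at h
    exact absurd h (by norm_num)
  rw [nonunits_iff_ordV hv ht, h]
  norm_num

end

/-- The local ring at a point of a regular affine variety of dimension `d`. -/
theorem ttb_dim {k A : Type} [Field k] [CommRing A] [IsDomain A] [Algebra k A]
    [Algebra.FiniteType k A] (d : ℕ) (hdim : ringKrullDim A = (d : WithBot ℕ∞))
    (z : A →ₐ[k] k) : ringKrullDim (LocAt z) = (d : WithBot ℕ∞) := by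
  obtain ⟨s, h1, h2, -⟩ := L2R_key (k := k) (A := A)
  have hs : s = d := by
    rw [hdim] at h2
    exact_mod_cast h2.symm
  subst hs
  have hm : (RingHom.ker z).IsMaximal := by
    apply RingHom.ker_isMaximal_of_surjective
    intro a
    exact ⟨algebraMap k _ a, z.commutes a⟩
  rw [IsLocalization.AtPrime.ringKrullDim_eq_height (RingHom.ker z) (LocAt z), h1 _ hm]
  rfl

/-- The ideal of the functions that vanish on the curves and on the lines. -/
def ttbIdeal {k A : Type} [Field k] [CommRing A] [Algebra k A] {ι : Type} {F : ι → Type}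
    [∀ x, Field (F x)] (ρ : ∀ x, A →+* F x) (a : ∀ x, F x) (Y : Finset (A →ₐ[k] k)) :
    Ideal A[X] where
  carrier := {f | (∀ x, polyR (ρ x) (a x) f = 0) ∧ ∀ y ∈ Y, f.map y.toRingHom = 0}
  add_mem' := by
    rintro f g ⟨h1, h2⟩ ⟨h3, h4⟩
    exact ⟨fun x => by rw [map_add, h1, h3, add_zero],
      fun y hy => by rw [Polynomial.map_add, h2 y hy, h4 y hy, add_zero]⟩
  zero_mem' := ⟨fun x => map_zero _, fun y _ => Polynomial.map_zero _⟩
  smul_mem' := by
    rintro r f ⟨h1, h2⟩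
    exact ⟨fun x => by rw [smul_eq_mul, map_mul, h1, mul_zero],
      fun y hy => by rw [smul_eq_mul, Polynomial.map_mul, h2 y hy, mul_zero]⟩

/-- Multiplication by a function which does not vanish at the point keeps independence. -/
theorem ttb_indep {k B : Type} [Field k] [CommRing B] [Algebra k B] (σ : B →ₐ[k] k) {r : ℕ}
    (e : B) (he : σ e ≠ 0) (G : Fin r → B) (hG : ∀ j, σ (G j) = 0)
    (h : ∀ α : Fin r → k, ∑ j, α j • G j ∈ (RingHom.ker σ) ^ 2 → ∀ j, α j = 0)
    (α : Fin r → k) (hα : ∑ j, α j • (e * G j) ∈ (RingHom.ker σ) ^ 2) : ∀ j, α j = 0 := by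
  apply h
  have h1 : ∑ j, α j • (e * G j) = e * ∑ j, α j • G j := by
    rw [Finset.mul_sum]
    exact Finset.sum_congr rfl fun j _ => (mul_smul_comm _ _ _).symm
  rw [h1] at hα
  have hs : ∑ j, α j • G j ∈ RingHom.ker σ := by
    refine Ideal.sum_mem _ fun j _ => ?_
    rw [RingHom.mem_ker, map_smul, hG, smul_zero]
  have he' : e - algebraMap k B (σ e) ∈ RingHom.ker σ := by
    rw [RingHom.mem_ker, map_sub, AlgHom.commutes]
    exact sub_self _
  have h2 : (e - algebraMap k B (σ e)) * ∑ j, α j • G j ∈ (RingHom.ker σ) ^ 2 := by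
    rw [pow_two]
    exact Ideal.mul_mem_mul he' hs
  have h3 := Ideal.sub_mem _ hα h2
  have h4 : e * ∑ j, α j • G j - (e - algebraMap k B (σ e)) * ∑ j, α j • G j =
      algebraMap k B (σ e) * ∑ j, α j • G j := by ring
  rw [h4] at h3
  have h5 := Ideal.mul_mem_left _ (algebraMap k B (σ e)⁻¹) h3
  rwa [← mul_assoc, ← map_mul, inv_mul_cancel₀ he, map_one, one_mul] at h5

theorem exists_tblock {k A : Type} [Field k] [IsAlgClosed k] [CommRing A] [IsDomain A]
    [Algebra k A] [Algebra.FiniteType k A] [IsRegularRing A] (m : ℕ)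
    (hdimA : ringKrullDim A = ((m + 3 : ℕ) : WithBot ℕ∞)) {ι : Type} [Finite ι]
    {F : ι → Type} [∀ x, Field (F x)] (ρ : ∀ x, A →+* F x) (hfrac : ∀ x, IsFrac (ρ x))
    (hdim : ∀ x, ringKrullDim (A ⧸ RingHom.ker (ρ x)) = 1)
    (hker : ∀ x x', RingHom.ker (ρ x) = RingHom.ker (ρ x') → x = x') (h : ∀ x, (F x)ˣ) :
    Nonempty (TBlock (k := k) ρ h) := by
  classical
  have hP : ∀ x, PlaceThy k (ρ x) := fun x => placeThy (ρ x) (hfrac x) (hdim x)
  haveI : Infinite k := IsAlgClosed.instInfinite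
  -- the points under zeros and poles
  have hYfin : {y : A →ₐ[k] k | ∃ x, ∃ v : ValuationSubring (F x), v ≠ ⊤ ∧
      CentredAt (ρ x) v y ∧ ¬ UnitIn v (h x)}.Finite := by
    have h1 : ∀ x, {y : A →ₐ[k] k | ∃ v : ValuationSubring (F x), v ≠ ⊤ ∧
        CentredAt (ρ x) v y ∧ ¬ UnitIn v (h x)}.Finite := by
      intro x
      have h2 := (hP x).fin_nonunit (h x)
      refine (h2.biUnion (t := fun v => {y : A →ₐ[k] k | CentredAt (ρ x) v y})
        fun v _ => Set.Subsingleton.finite fun y hy y' hy' => ttb_ctr_unique hy hy').subset ?_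
      rintro y ⟨v, hv, hc, hu⟩
      exact Set.mem_biUnion (show v ∈ {v : ValuationSubring (F x) | v ≠ ⊤ ∧
        (∀ a, ρ x a ∈ v) ∧ ¬ UnitIn v (h x)} from ⟨hv, fun a => (hc a).1, hu⟩) hc
    refine (Set.finite_iUnion h1).subset ?_
    rintro y ⟨x, hx⟩
    exact Set.mem_iUnion.2 ⟨x, hx⟩
  let Y : Finset (A →ₐ[k] k) := hYfin.toFinset
  have hY : ∀ y, y ∈ Y ↔ ∃ x, ∃ v : ValuationSubring (F x), v ≠ ⊤ ∧
      CentredAt (ρ x) v y ∧ ¬ UnitIn v (h x) := fun y => hYfin.mem_toFinset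
  obtain ⟨a, c, hint, hord, hsep⟩ := exists_sep ρ hP Y
  have hPB : ∀ x (a : F x), (∀ v : ValuationSubring (F x), (∀ b, ρ x b ∈ v) → a ∈ v) →
      PlaceThy k (polyR (ρ x) a) := fun x a ha =>
    placeThy (polyR (ρ x) a) (isFrac_polyR (hfrac x) a) (krullDim_polyR (hfrac x) (hdim x) ha)
  have hdisc : ∀ x (v : ValuationSubring (F x)) (y : A →ₐ[k] k), v ≠ ⊤ →
      CentredAt (ρ x) v y → IsDiscV v := fun x v y hv hc => (hP x).disc v hv fun b => (hc b).1
  have hnon : ∀ x (v : ValuationSubring (F x)), ∀ y ∈ Y, v ≠ ⊤ → CentredAt (ρ x) v y →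
      a x - ρ x (algebraMap k A (c x v)) ∈ v.nonunits := fun x v y hy hv hc =>
    ttb_nonunits_of_ord (hdisc x v y hv hc) (hord x v y hy hv hc)
  -- the special points
  have hSfin : {σ : A[X] →ₐ[k] k | ∃ x, ∃ v : ValuationSubring (F x), ∃ y ∈ Y, v ≠ ⊤ ∧
      CentredAt (ρ x) v y ∧ ¬ UnitIn v (h x) ∧ σ = polyZ y (c x v)}.Finite := by
    have h1 : ∀ x, {σ : A[X] →ₐ[k] k | ∃ v : ValuationSubring (F x), ∃ y ∈ Y, v ≠ ⊤ ∧
        CentredAt (ρ x) v y ∧ ¬ UnitIn v (h x) ∧ σ = polyZ y (c x v)}.Finite := by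
      intro x
      have h2 := (hP x).fin_nonunit (h x)
      refine ((h2.prod Y.finite_toSet).image fun p => polyZ p.2 (c x p.1)).subset ?_
      rintro σ ⟨v, y, hy, hv, hc, hu, rfl⟩
      exact ⟨(v, y), ⟨⟨hv, fun a => (hc a).1, hu⟩, hy⟩, rfl⟩
    refine (Set.finite_iUnion h1).subset ?_
    rintro σ ⟨x, hx⟩
    exact Set.mem_iUnion.2 ⟨x, hx⟩
  let S : Finset (A[X] →ₐ[k] k) := hSfin.toFinset
  have hS : ∀ σ ∈ S, ∃ G : Fin (m + 2) → A[X], (∀ j, G j ∈ ttbIdeal ρ a Y) ∧
      ∀ α : Fin (m + 2) → k, ∑ j, α j • G j ∈ (RingHom.ker σ) ^ 2 → ∀ j, α j = 0 := by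
    intro σ hσ
    obtain ⟨x, v, y, hy, hv, hc, hu, rfl⟩ := hSfin.mem_toFinset.1 hσ
    obtain ⟨e, he1, he2, he3, he4⟩ := exists_away ρ hPB Y a c hint hnon hsep x v y hy hv hc
    have hcB : CentredAt (polyR (ρ x) (a x)) v (polyZ y (c x v)) :=
      (centredAt_polyR (ρ x) (a x) v y (c x v)).2 ⟨hc, hnon x v y hy hv hc⟩
    have hloc := locRing_eq (A := A[X]) (ρ := polyR (ρ x) (a x)) (isFrac_polyR (hfrac x) (a x))
      (hPB x (a x) (hint x)) hv hcB he4 (g := X - C (algebraMap k A (c x v))) (by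
        have h1 : polyR (ρ x) (a x) (X - C (algebraMap k A (c x v))) =
            a x - ρ x (algebraMap k A (c x v)) := by
          rw [polyR, map_sub, coe_eval₂RingHom, eval₂_X, eval₂_C]
        rw [h1]
        exact hord x v y hy hv hc)
    have hreg : IsRegularLocalRing (LocAt y) := inferInstance
    obtain ⟨G, hG1, hG2, hG3⟩ := planar m y hreg (ttb_dim (m + 3) hdimA y) (ρ x)
      (hdisc x v y hv hc) hc (a x) (c x v) (hnon x v y hy hv hc) hloc
    have hG0 : ∀ j, polyZ y (c x v) (G j) = 0 := by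
      intro j
      rw [polyZ_apply, hG2, eval_zero]
    refine ⟨fun j => e * G j, fun j => ⟨fun x' => ?_, fun y' hy' => ?_⟩,
      ttb_indep (polyZ y (c x v)) e he3 G hG0 hG3⟩
    · by_cases hx : x' = x
      · subst hx
        rw [map_mul, hG1, mul_zero]
      · rw [map_mul, he1 x' hx, zero_mul]
    · by_cases hy0 : y' = y
      · subst hy0
        rw [Polynomial.map_mul, hG2, mul_zero]
      · rw [Polynomial.map_mul, he2 y' hy' hy0, zero_mul]
  obtain ⟨hH, G, hG1, hG2, hG3⟩ := exists_H ρ hfrac hdim hker Y a hint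
  obtain ⟨f, hf1, hf2, hf3, hf4⟩ := exists_eqs ρ a (ttbIdeal ρ a Y) (fun f hf => hf.1) m S hS
    (fun x => by
      obtain ⟨H, h1, h2, h3⟩ := hH x
      exact ⟨H, ⟨h1, h2⟩, h3⟩) ⟨G, ⟨hG1, hG2⟩, hG3⟩
  exact ⟨{
    a := a
    c := c
    Y := Y
    m := m
    eq := f
    integral := hint
    mem_Y := fun x v hv hA hu => by
      obtain ⟨z, hz⟩ := (hP x).ctr v hv hA
      exact ⟨z, (hY z).2 ⟨x, v, hv, hz, hu⟩, hz⟩
    Y_mem := fun y hy => (hY y).1 hy
    ord_one := hord
    sep := hsep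
    dim := hdimA
    eq_curve := fun j x => (hf1 j).1 x
    eq_line := fun j y hy => (hf1 j).2 y hy
    indep := fun x v y hy hv hc hu =>
      hf2 _ (hSfin.mem_toFinset.2 ⟨x, v, y, hy, hv, hc, hu, rfl⟩)
    lead := hf3
    gcd := hf4 }⟩

end Pool.Agent.K1
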