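import Pool.Agent.K1.TDefs

/-!
Functions without zeros and poles on a curve over an algebraic closure of a finite field.
-/

set_option autoImplicit false

open Polynomial

namespace Pool.Agent.K1

/-- A function which lies in all valuation rings containing the constants is a constant. -/
theorem tt_const {k F : Type} [Field k] [IsAlgClosed k] [Field F] [Algebra k F] (h : F)
    (hu : ∀ v : ValuationSubring F, (∀ c : k, algebraMap k F c ∈ v) → h ∈ v) :
    ∃ c : k, algebraMap k F c = h := by
  have hmem : h ∈ ⨅ V : {V : ValuationSubring F //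
      (((algebraMap k F).range : Subring F) : Set F) ⊆ V.toSubring}, V.1.toSubring := by
    rw [Subring.mem_iInf]
    rintro ⟨V, hV⟩
    exact hu V fun c => hV ⟨c, rfl⟩
  rw [iInf_valuationSubring_superset, Subring.closure_eq] at hmem
  have h1 : IsIntegral ((algebraMap k F).range : Subring F) h := hmem
  have h2 : IsIntegral k h := by
    obtain ⟨q, hq, hq0⟩ := h1
    have hsurj : Function.Surjective (algebraMap k F).rangeRestrict :=
      RingHom.rangeRestrict_surjective _
    have hlift : q ∈ Polynomial.lifts (algebraMap k F).rangeRestrict :=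
      (Polynomial.mem_lifts q).2 (Polynomial.map_surjective _ hsurj q)
    obtain ⟨r, hr, -, hrm⟩ := Polynomial.lifts_and_natDegree_eq_and_monic hlift hq
    refine ⟨r, hrm, ?_⟩
    rw [← hr, Polynomial.eval₂_map] at hq0
    exact hq0
  have h3 : (minpoly k h).degree = 1 :=
    IsAlgClosed.degree_eq_one_of_irreducible k (minpoly.irreducible h2)
  exact minpoly.mem_range_of_degree_eq_one k h h3

theorem torsion_of_unit {p : ℕ} [Fact p.Prime] {k F : Type} [Field k] [IsAlgClosed k]
    [Algebra (ZMod p) k] [Algebra.IsAlgebraic (ZMod p) k] [Field F] [Algebra k F] (h : Fˣ)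
    (hu : ∀ v : ValuationSubring F, (∀ c : k, algebraMap k F c ∈ v) → UnitIn v h) :
    ∃ N : ℕ, 0 < N ∧ h ^ N = 1 := by
  obtain ⟨c, hc⟩ := tt_const (k := k) (h : F) fun v hv => (hu v hv).1
  have hint : IsIntegral (ZMod p) c := (Algebra.IsAlgebraic.isAlgebraic c).isIntegral
  let E := IntermediateField.adjoin (ZMod p) {c}
  have hfd : FiniteDimensional (ZMod p) E := IntermediateField.adjoin.finiteDimensional hint
  have hfin : Finite E := Module.finite_of_finite (ZMod p)
  have hc0 : c ≠ 0 := by
    rintro rfl
    rw [map_zero] at hc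
    exact h.ne_zero hc.symm
  let c' : E := ⟨c, IntermediateField.mem_adjoin_simple_self (ZMod p) c⟩
  have hc'0 : c' ≠ 0 := fun e => hc0 (congrArg Subtype.val e)
  have hfo : IsOfFinOrder (Units.mk0 c' hc'0) := isOfFinOrder_of_finite _
  obtain ⟨N, hN, hN1⟩ := hfo.exists_pow_eq_one
  refine ⟨N, hN, ?_⟩
  have h1 : c' ^ N = 1 := by
    have := congrArg Units.val hN1
    simpa using this
  have h2 : c ^ N = 1 := by
    have := congrArg (Subtype.val : E → k) h1
    simpa [c'] using this
  apply Units.ext
  rw [Units.val_pow_eq_pow_val, Units.val_one, ← hc, ← map_pow, h2, map_one]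

end Pool.Agent.K1
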