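import Pool.Agent.K1.TClassMain
import Pool.Agent.K1.TTBlock
import Pool.Agent.K1.TTors
import Pool.Agent.K1.TFam

/-!
Part II of the theorem in all dimensions, final assembly.
-/

set_option autoImplicit false

open Polynomial

namespace Pool.Agent.K1

theorem affB (hN : ThmN) : AffB := by
  classical
  intro p _ k A _ _ _ _ _ _ _ _ _ m hdimA n w hw0 hw ι _ F _ ρ hfrac hdim hker h hinf hcyc
  have hft : Algebra.FiniteType k A := by
    have h1 : Subalgebra.FG (Algebra.adjoin k (Set.range w)) :=
      Subalgebra.fg_adjoin_finset (Finset.univ.image w) |> fun h => by simpa using h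
    rw [hw] at h1
    exact ⟨h1⟩
  obtain ⟨T⟩ := exists_tblock (k := k) m hdimA ρ hfrac hdim hker h
  have hP : ∀ x, PlaceThy k (ρ x) := fun x => placeThy (ρ x) (hfrac x) (hdim x)
  -- the set of the primes of the special points
  let S : Set (Ideal A[X]) := {Q | ∃ (x : ι) (v : ValuationSubring (F x)) (y : A →ₐ[k] k),
    T.Special x v y ∧ Q = satI T.J (RingHom.ker (polyZ y (T.c x v)))}
  have hSfin : S.Finite := by
    have h1 : S ⊆ ⋃ x : ι, ⋃ y ∈ T.Y, ⋃ v ∈ {v : ValuationSubring (F x) | v ≠ ⊤ ∧
        CentredAt (ρ x) v y}, {satI T.J (RingHom.ker (polyZ y (T.c x v)))} := by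
      rintro Q ⟨x, v, y, hs, rfl⟩
      simp only [Set.mem_iUnion, Set.mem_singleton_iff]
      exact ⟨x, y, hs.1, v, ⟨hs.2.1, hs.2.2.1⟩, rfl⟩
    refine Set.Finite.subset ?_ h1
    refine Set.finite_iUnion fun x => ?_
    refine Set.Finite.biUnion T.Y.finite_toSet fun y _ => ?_
    refine Set.Finite.biUnion ((hP x).fin_ctr y) fun v _ => ?_
    exact Set.finite_singleton _
  have hSx : ∀ x, (∃ v y, T.Special x v y) → satI T.J (RingHom.ker (polyR (ρ x) (T.a x))) ∈ S := by
    rintro x ⟨v, y, hs⟩
    exact ⟨x, v, y, hs, (class_facts T hs).2.2.2.1⟩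
  refine ⟨S, hSfin.to_subtype, fun x => if hx : ∃ v y, T.Special x v y then
    some ⟨satI T.J (RingHom.ker (polyR (ρ x) (T.a x))), hSx x hx⟩ else none,
    fun Q => Q.1.comap (C : A →+* A[X]), ?_, ?_, ?_, ?_⟩
  · -- functions without zeros and poles
    intro x hx
    have hx' : ¬ ∃ v y, T.Special x v y := by
      by_contra hcon
      simp [hcon] at hx
    let _ : Algebra k (F x) := ((ρ x).comp (algebraMap k A)).toAlgebra
    refine torsion_of_unit (p := p) (k := k) (h x) ?_
    intro v hv
    by_cases h1 : ∃ a, ρ x a ∉ v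
    · exact hinf x v hv h1
    · push Not at h1
      by_cases h2 : v = ⊤
      · rw [h2]
        exact ⟨ValuationSubring.mem_top _, ValuationSubring.mem_top _⟩
      · by_contra h3
        obtain ⟨y, hy, hc⟩ := T.mem_Y x v h2 h1 h3
        exact hx' ⟨v, y, hy, h2, hc, h3⟩
  · -- dimension
    rintro ⟨Q, x, v, y, hs, rfl⟩
    have hp := (class_facts T hs).1
    refine ⟨inferInstance, ?_⟩
    exact (class_main (thmNF hN) (p := p) w hw0 hw ρ hfrac hdim hker h hinf hcyc T hs _ rfl).1
  · intro x c hx
    beta_reduce at hx ⊢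
    by_cases h1 : ∃ v y, T.Special x v y
    · obtain ⟨v, y, hs⟩ := h1
      rw [dif_pos ⟨v, y, hs⟩] at hx
      obtain rfl := Option.some.inj hx
      intro a ha
      have h2 := class_facts T hs
      have h3 : (C a : A[X]) ∈ RingHom.ker (polyR (ρ x) (T.a x)) := by
        apply h2.2.2.2.2.2.1
        rw [← h2.2.2.2.1]
        exact ha
      rw [RingHom.mem_ker] at h3 ⊢
      simpa [polyR] using h3
    · rw [dif_neg h1] at hx
      exact absurd hx (by simp)
  · rintro ⟨Q, x₀, v₀, y₀, hs₀, hQ⟩ K _ τ hτ hkerτ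
    have hp : Q.IsPrime := by
      rw [hQ]
      exact (class_facts T hs₀).1
    obtain ⟨-, h1⟩ := class_main (thmNF hN) (p := p) w hw0 hw ρ hfrac hdim hker h hinf hcyc T
      hs₀ Q hQ
    have h2 := h1 K τ hτ hkerτ
    have hcls : ∀ x, (if hx : ∃ v y, T.Special x v y then
        some (⟨satI T.J (RingHom.ker (polyR (ρ x) (T.a x))), hSx x hx⟩ : S) else none) =
        some ⟨Q, x₀, v₀, y₀, hs₀, hQ⟩ ↔ ((∃ v y, T.Special x v y) ∧
          Q = satI T.J (RingHom.ker (polyR (ρ x) (T.a x)))) := by
      intro x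
      by_cases h3 : ∃ v y, T.Special x v y
      · rw [dif_pos h3]
        constructor
        · intro h4
          have h5 := congrArg Subtype.val (Option.some.inj h4)
          exact ⟨h3, h5.symm⟩
        · rintro ⟨-, h4⟩
          congr 1
          exact Subtype.ext h4.symm
      · rw [dif_neg h3]
        constructor
        · intro h4
          exact absurd h4 (by simp)
        · rintro ⟨h4, -⟩
          exact absurd h4 h3
    simp only [hcls]
    exact h2

end Pool.Agent.K1
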