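import Mathlib

/-!
Nakayama on the line over a point: if two members of an ideal `J` of `A[X]` have, over the residue
field of `p`, the greatest common divisor `X - r / s`, and one of them is monic near `p`, then
`A[X]` is, near `p`, equal to `A + J`.
-/

set_option autoImplicit false

open Polynomial IsLocalRing

namespace Pool.Agent.K1

attribute [local instance] Polynomial.algebra Polynomial.isLocalization in
theorem nakayama_line {A : Type*} [CommRing A] (p : Ideal A) [hp : p.IsPrime] (J : Ideal A[X])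
    (f₀ f₁ : A[X]) (h₀ : f₀ ∈ J) (h₁ : f₁ ∈ J) (b : ℕ) (hb : f₀.natDegree ≤ b)
    (hlc : f₀.coeff b ∉ p) (r s : A) (hs : s ∉ p) (u v : A[X]) (w : A) (hw : w ∉ p)
    (hgcd : ∀ i, (C w * (C s * X - C r) - (u * f₀ + v * f₁)).coeff i ∈ p) (G : A[X]) :
    ∃ s' : A, s' ∉ p ∧ ∃ α : A, C s' * G - C α ∈ J := by
  classical
  let O := Localization.AtPrime p
  let φ : A[X] →+* O[X] := mapRingHom (algebraMap A O)
  have hunit : ∀ a : A, a ∉ p → IsUnit (algebraMap A O a) := fun a ha =>
    IsLocalization.map_units O (⟨a, ha⟩ : p.primeCompl)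
  have hmax : ∀ a : A, a ∈ p → algebraMap A O a ∈ maximalIdeal O := fun a ha =>
    (IsLocalization.AtPrime.to_map_mem_maximal_iff O p a).mpr ha
  let J' : Ideal O[X] := J.map φ
  let B := O[X] ⧸ J'
  -- finiteness
  have hfin : Module.Finite O B := by
    obtain ⟨ε, hε⟩ := hunit _ hlc
    let g : O[X] := C ((ε⁻¹ : Oˣ) : O) * φ f₀
    have hgm : g.Monic := by
      have e1 : g.coeff b = 1 := by
        simp only [g, φ, coeff_C_mul, coe_mapRingHom, coeff_map]
        rw [← hε, Units.inv_mul]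
      have e2 : g.natDegree ≤ b :=
        (natDegree_C_mul_le _ _).trans ((natDegree_map_le).trans hb)
      exact monic_of_natDegree_le_of_coeff_eq_one b e2 e1
    have hgJ : g ∈ J' := Ideal.mul_mem_left _ _ (Ideal.mem_map_of_mem φ h₀)
    have h1 : Module.Finite O (AdjoinRoot g) := hgm.finite_adjoinRoot
    have hle : Ideal.span {g} ≤ J' := by
      rw [Ideal.span_le]
      rintro _ rfl
      exact hgJ
    let ψ : AdjoinRoot g →ₗ[O] B :=
      { toFun := Ideal.Quotient.factor hle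
        map_add' := map_add _
        map_smul' := by
          intro c x
          obtain ⟨x, rfl⟩ := Ideal.Quotient.mk_surjective x
          rfl }
    refine Module.Finite.of_surjective ψ ?_
    intro x
    obtain ⟨x, rfl⟩ := Ideal.Quotient.mk_surjective x
    exact ⟨Ideal.Quotient.mk _ x, rfl⟩
  let N' : Submodule O B := LinearMap.range (Algebra.linearMap O B)
  have hN : (⊤ : Submodule O B) ≤ N' ⊔ maximalIdeal O • ⊤ := by
    intro x _
    obtain ⟨H, rfl⟩ := Ideal.Quotient.mk_surjective x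
    obtain ⟨σ, hσ⟩ := hunit s hs
    obtain ⟨ω, hω⟩ := hunit w hw
    let ρ : O := algebraMap A O r * ((σ⁻¹ : Oˣ) : O)
    -- division by X - ρ
    obtain ⟨K, hK⟩ : ∃ K : O[X], H = C (H.eval ρ) + (X - C ρ) * K := by
      have hd : (X - C ρ) ∣ H - C (H.eval ρ) := by
        rw [dvd_iff_isRoot]
        simp
      obtain ⟨K, hK⟩ := hd
      exact ⟨K, by rw [← hK]; ring⟩
    -- the polynomial with coefficients in the maximal ideal
    set π : A[X] := C w * (C s * X - C r) - (u * f₀ + v * f₁) with hπ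
    have hπ' : (X - C ρ) = C (((ω⁻¹ * σ⁻¹ : Oˣ)) : O) * (φ π + φ (u * f₀ + v * f₁)) := by
      rw [← map_add, hπ, sub_add_cancel]
      simp only [φ, coe_mapRingHom, Polynomial.map_mul, Polynomial.map_sub, map_C, map_X]
      rw [← hω, ← hσ]
      have e1 : C ((ω⁻¹ * σ⁻¹ : Oˣ) : O) * (C (ω : O) * (C (σ : O) * X - C (algebraMap A O r))) =
          C ((ω⁻¹ * σ⁻¹ : Oˣ) * (ω : O) * (σ : O)) * X -
            C (((ω⁻¹ * σ⁻¹ : Oˣ) : O) * (ω : O) * algebraMap A O r) := by
        simp only [C_mul]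
        ring
      rw [e1]
      have e2 : ((ω⁻¹ * σ⁻¹ : Oˣ) : O) * (ω : O) * (σ : O) = 1 := by
        rw [← Units.val_mul, ← Units.val_mul, ← Units.val_one]
        congr 1
        rw [mul_comm ω⁻¹ σ⁻¹, mul_assoc σ⁻¹, inv_mul_cancel, mul_one, inv_mul_cancel]
      have e3 : ((ω⁻¹ * σ⁻¹ : Oˣ) : O) * (ω : O) * algebraMap A O r = ρ := by
        have : ((ω⁻¹ * σ⁻¹ : Oˣ) : O) * (ω : O) = ((σ⁻¹ : Oˣ) : O) := by
          rw [← Units.val_mul]
          congr 1
          rw [mul_comm ω⁻¹, mul_assoc, inv_mul_cancel, mul_one]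
        rw [this, mul_comm]
      rw [e2, e3, C_1, one_mul]
    have hmemJ : φ (u * f₀ + v * f₁) ∈ J' :=
      Ideal.mem_map_of_mem φ (J.add_mem (J.mul_mem_left _ h₀) (J.mul_mem_left _ h₁))
    have hmm : ∀ K : O[X], Ideal.Quotient.mk J' (φ π * K) ∈
        (maximalIdeal O • ⊤ : Submodule O B) := by
      intro K
      have e1 : φ π * K = ∑ i ∈ π.support, (algebraMap A O (π.coeff i)) • (X ^ i * K) := by
        have : φ π = ∑ i ∈ π.support, C (algebraMap A O (π.coeff i)) * X ^ i := by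
          conv_lhs => rw [π.as_sum_support_C_mul_X_pow]
          simp [φ]
        rw [this, Finset.sum_mul]
        refine Finset.sum_congr rfl fun i _ => ?_
        rw [smul_eq_C_mul, mul_assoc]
      rw [e1, map_sum]
      refine Submodule.sum_mem _ fun i _ => ?_
      have e2 : Ideal.Quotient.mk J' ((algebraMap A O (π.coeff i)) • (X ^ i * K)) =
          (algebraMap A O (π.coeff i)) • (Ideal.Quotient.mk J' (X ^ i * K)) := rfl
      rw [e2]
      exact Submodule.smul_mem_smul (hmax _ (hgcd i)) Submodule.mem_top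
    rw [hK, map_add]
    refine Submodule.add_mem_sup ?_ ?_
    · exact ⟨H.eval ρ, rfl⟩
    · rw [hπ', mul_assoc, add_mul, mul_add, map_add]
      refine Submodule.add_mem _ ?_ ?_
      · rw [show C (((ω⁻¹ * σ⁻¹ : Oˣ)) : O) * (φ π * K) =
          φ π * (C (((ω⁻¹ * σ⁻¹ : Oˣ)) : O) * K) by ring]
        exact hmm _
      · have : Ideal.Quotient.mk J' (C (((ω⁻¹ * σ⁻¹ : Oˣ)) : O) *
            (φ (u * f₀ + v * f₁) * K)) = 0 := by
          rw [Ideal.Quotient.eq_zero_iff_mem]
          exact J'.mul_mem_left _ (J'.mul_mem_right _ hmemJ)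
        rw [this]
        exact Submodule.zero_mem _
  have htop : (⊤ : Submodule O B) ≤ N' :=
    Submodule.le_of_le_smul_of_le_jacobson_bot Module.Finite.fg_top
      (IsLocalRing.maximalIdeal_le_jacobson _) hN
  obtain ⟨o, ho⟩ := htop (Submodule.mem_top : Ideal.Quotient.mk J' (φ G) ∈ ⊤)
  have ho' : φ G - C o ∈ J' := by
    rw [← Ideal.Quotient.eq_zero_iff_mem, map_sub, ← ho, sub_eq_zero]
    rfl
  obtain ⟨⟨α, s₁⟩, hα⟩ := IsLocalization.surj p.primeCompl o
  have h2 : φ (C (s₁ : A) * G - C α) ∈ J' := by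
    have e : φ (C (s₁ : A) * G - C α) = C (algebraMap A O s₁) * (φ G - C o) := by
      simp only [φ, coe_mapRingHom, Polynomial.map_mul, Polynomial.map_sub, map_C]
      rw [← hα, mul_sub, C_mul, mul_comm (C o)]
    rw [e]
    exact J'.mul_mem_left _ ho'
  have h3 := (IsLocalization.algebraMap_mem_map_algebraMap_iff
    (p.primeCompl.map (C : A →+* A[X])) O[X] J (C (s₁ : A) * G - C α)).mp h2
  obtain ⟨m, hm, hmJ⟩ := h3
  obtain ⟨s₂, hs₂, rfl⟩ := Submonoid.mem_map.mp hm
  refine ⟨s₂ * s₁, ?_, s₂ * α, ?_⟩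
  · intro h
    rcases hp.mem_or_mem h with h | h
    · exact hs₂ h
    · exact s₁.2 h
  · rw [show C (s₂ * (s₁ : A)) * G - C (s₂ * α) = C s₂ * (C (s₁ : A) * G - C α) by
      rw [C_mul, C_mul]; ring]
    exact hmJ

end Pool.Agent.K1
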