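import Pool.Agent.K1.TDefs
import Pool.Agent.K1.TNak

/-!
Birationality of the projection to `Spec A` of a surface in `Spec A[X]` through a curve.
-/

set_option autoImplicit false

open Polynomial

namespace Pool.Agent.K1

/-- Common denominators for the coefficients of a polynomial over a field of fractions. -/
theorem exists_common_den {A F : Type*} [CommRing A] [Field F] (ρ : A →+* F)
    (hρ : ∀ f : F, ∃ a b : A, ρ b ≠ 0 ∧ f * ρ b = ρ a) (u : F[X]) :
    ∃ (d : A) (u' : A[X]), ρ d ≠ 0 ∧ u'.map ρ = C (ρ d) * u := by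
  classical
  induction u using Polynomial.induction_on' with
  | add p q hp hq =>
    obtain ⟨d, u', hd, hu⟩ := hp
    obtain ⟨d', v', hd', hv⟩ := hq
    refine ⟨d * d', C d' * u' + C d * v', ?_, ?_⟩
    · rw [map_mul]
      exact mul_ne_zero hd hd'
    · rw [Polynomial.map_add, Polynomial.map_mul, Polynomial.map_mul, map_C, map_C, hu, hv,
        map_mul, C_mul]
      ring
  | monomial n a =>
    obtain ⟨c, b, hb, hab⟩ := hρ a
    refine ⟨b, monomial n c, hb, ?_⟩
    rw [Polynomial.map_monomial, C_mul_monomial, ← hab, mul_comm]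

/-- Birationality of the projection. -/
theorem birat {A F : Type} [CommRing A] [IsNoetherianRing A] [Field F] {ρ : A →+* F}
    (hρ : IsFrac ρ) {a : F} {f₀ f₁ : A[X]} (hlead : ρ f₀.leadingCoeff ≠ 0)
    (hgcd : Ideal.span {f₀.map ρ, f₁.map ρ} = Ideal.span {X - C a}) {Q : Ideal A[X]}
    [Q.IsPrime] (h₀ : f₀ ∈ Q) (h₁ : f₁ ∈ Q) (hQ : Q ≤ RingHom.ker (polyR ρ a)) :
    ∃ α β : A, ρ β ≠ 0 ∧ C β * X - C α ∈ Q := by
  obtain ⟨r, s, hs, hrs⟩ := hρ a
  have h1 : (X - C a) ∈ Ideal.span {f₀.map ρ, f₁.map ρ} := by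
    rw [hgcd]
    exact Ideal.mem_span_singleton_self _
  obtain ⟨u, v, huv⟩ := Ideal.mem_span_pair.mp h1
  obtain ⟨du, u', hdu, hu'⟩ := exists_common_den ρ hρ u
  obtain ⟨dv, v', hdv, hv'⟩ := exists_common_den ρ hρ v
  have hp : (RingHom.ker ρ).IsPrime := RingHom.ker_isPrime _
  obtain ⟨s', hs', α, hα⟩ := nakayama_line (RingHom.ker ρ) Q f₀ f₁ h₀ h₁ f₀.natDegree le_rfl
    hlead r s hs (C s * C dv * u') (C s * C du * v') (du * dv)
    (by
      intro h
      rcases hp.mem_or_mem h with h | h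
      · exact hdu h
      · exact hdv h)
    (by
      intro i
      rw [RingHom.mem_ker, ← coeff_map]
      have e : (C (du * dv) * (C s * X - C r) -
          (C s * C dv * u' * f₀ + C s * C du * v' * f₁)).map ρ = 0 := by
        simp only [Polynomial.map_mul, Polynomial.map_sub, Polynomial.map_add, map_C, map_X,
          hu', hv']
        rw [← hrs]
        have e2 : C (ρ s) * C (ρ dv) * (C (ρ du) * u) * f₀.map ρ +
            C (ρ s) * C (ρ du) * (C (ρ dv) * v) * f₁.map ρ =
            C (ρ s) * C (ρ dv) * C (ρ du) * (u * f₀.map ρ + v * f₁.map ρ) := by ring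
        rw [e2, huv]
        simp only [map_mul]
        ring
      rw [e, coeff_zero]) X
  exact ⟨α, s', hs', hα⟩

end Pool.Agent.K1
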