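import Pool.Agent.K1.TDefs

/-!
The contraction of an ideal from the localizations at prime ideals.
-/

set_option autoImplicit false

open Polynomial

namespace Pool.Agent.K1

theorem le_satI {B : Type} [CommRing B] (J 𝔮 : Ideal B) [h𝔮 : 𝔮.IsPrime] : J ≤ satI J 𝔮 :=
  fun x hx => ⟨1, fun h => h𝔮.ne_top ((Ideal.eq_top_iff_one _).2 h), by rwa [one_mul]⟩

theorem satI_eq {B : Type} [CommRing B] {J 𝔮 𝔮' : Ideal B} [𝔮.IsPrime] [𝔮'.IsPrime]
    (h : 𝔮 ≤ 𝔮') (hp : (satI J 𝔮').IsPrime) (hJ : satI J 𝔮' ≤ 𝔮) : satI J 𝔮 = satI J 𝔮' := by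
  apply le_antisymm
  · rintro x ⟨s, hs, hsx⟩
    exact (hp.mem_or_mem (le_satI J 𝔮' hsx)).resolve_left (fun h => hs (hJ h))
  · rintro x ⟨s, hs, hsx⟩
    exact ⟨s, fun h' => hs (h h'), hsx⟩

/-- A prime of the right dimension is the prime of the class. -/
theorem eq_satI {k B : Type} [Field k] [CommRing B] [IsDomain B] [Algebra k B]
    [Algebra.FiniteType k B] {J Q 𝔮 : Ideal B} [hQp : Q.IsPrime] [𝔮.IsPrime] (hJ : J ≤ Q)
    (hQ : Q ≤ 𝔮) (hp : (satI J 𝔮).IsPrime) (h1 : ringKrullDim (B ⧸ satI J 𝔮) = 2)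
    (h2 : ringKrullDim (B ⧸ Q) = 2) : Q = satI J 𝔮 := by
  have hle : satI J 𝔮 ≤ Q := by
    rintro x ⟨s, hs, hsx⟩
    exact (hQp.mem_or_mem (hJ hsx)).resolve_left (fun h => hs (hQ h))
  refine le_antisymm ?_ hle
  by_contra hcon
  obtain ⟨x, hxQ, hx⟩ := SetLike.not_le_iff_exists.mp hcon
  let B' := B ⧸ satI J 𝔮
  let x' : B' := Ideal.Quotient.mk _ x
  have hx' : x' ≠ 0 := fun h => hx (Ideal.Quotient.eq_zero_iff_mem.mp h)
  have h3 := ringKrullDim_quotient_succ_le_of_nonZeroDivisor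
    (mem_nonZeroDivisors_of_ne_zero hx')
  rw [h1] at h3
  -- `B / Q` is a quotient of `B' / x'`
  let g : B' ⧸ Ideal.span {x'} →+* B ⧸ Q := Ideal.Quotient.lift _ (Ideal.Quotient.factor hle) (by
    intro y hy
    obtain ⟨c, rfl⟩ := Ideal.mem_span_singleton'.mp hy
    rw [map_mul]
    have : Ideal.Quotient.factor hle x' = 0 := Ideal.Quotient.eq_zero_iff_mem.mpr hxQ
    rw [this, mul_zero])
  have hg : Function.Surjective g := by
    intro y
    obtain ⟨y, rfl⟩ := Ideal.Quotient.mk_surjective y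
    exact ⟨Ideal.Quotient.mk _ (Ideal.Quotient.mk _ y), rfl⟩
  have h4 := ringKrullDim_le_of_surjective g hg
  rw [h2] at h4
  have h5 : (2 : WithBot ℕ∞) + 1 ≤ 2 := (add_le_add_left h4 1).trans h3
  have h6 : ((3 : ℕ) : WithBot ℕ∞) ≤ ((2 : ℕ) : WithBot ℕ∞) := by exact_mod_cast h5
  have h7 : (3 : ℕ) ≤ 2 := by exact_mod_cast h6
  omega

end Pool.Agent.K1
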