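import Pool.Agent.K1.TPlaceThy
import Pool.Agent.K1.TPoly

/-!
(B), part II: the functions `h x` on the curves `(ker ρ x, a x)` in `Spec A[X]`.
-/

set_option autoImplicit false

open Polynomial

namespace Pool.Agent.K1

/-! ### constants -/

/-- the residue class in `k` is unique -/
theorem tcf_const {k A F : Type} [Field k] [CommRing A] [Algebra k A] [Field F] (ρ : A →+* F)
    (v : ValuationSubring F) (hv : ∀ a, ρ a ∈ v) {c c' : k} {t : F}
    (h1 : t - ρ (algebraMap k A c) ∈ v.nonunits)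
    (h2 : t - ρ (algebraMap k A c') ∈ v.nonunits) : c = c' := by
  by_contra hne
  rw [ValuationSubring.mem_nonunits_iff] at h1 h2
  have h3 := v.valuation.map_sub_lt h1 h2
  have h4 : t - ρ (algebraMap k A c) - (t - ρ (algebraMap k A c')) =
      ρ (algebraMap k A (c' - c)) := by
    rw [map_sub, map_sub]
    ring
  rw [h4] at h3
  have h5 : v.valuation (ρ (algebraMap k A (c' - c)⁻¹)) ≤ 1 :=
    (v.valuation_le_one_iff _).2 (hv _)
  have h6 : v.valuation (ρ (algebraMap k A (c' - c)) * ρ (algebraMap k A (c' - c)⁻¹)) < 1 := by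
    rw [map_mul]
    exact mul_lt_one_of_lt_of_le h3 h5
  rw [← map_mul, ← map_mul, mul_inv_cancel₀ (sub_ne_zero.2 (Ne.symm hne)), map_one, map_one,
    map_one] at h6
  exact lt_irrefl _ h6

/-- a place has one centre -/
theorem tcf_centre {k A F : Type} [Field k] [CommRing A] [Algebra k A] [Field F] (ρ : A →+* F)
    (v : ValuationSubring F) {y y' : A →ₐ[k] k} (h : CentredAt ρ v y)
    (h' : CentredAt ρ v y') : y = y' := by
  apply AlgHom.ext
  intro a
  have key : ∀ z : A →ₐ[k] k, CentredAt ρ v z → ρ a - ρ (algebraMap k A (z a)) ∈ v.nonunits := by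
    intro z hz
    rw [← map_sub]
    apply (hz _).2
    rw [map_sub, AlgHom.commutes]
    exact sub_self _
  exact tcf_const ρ v (fun b => (h b).1) (key y h) (key y' h')

/-- an element of order one is in the maximal ideal -/
theorem tcf_ord_one {F : Type} [Field F] (v : ValuationSubring F) {t : F}
    (h : ordV v t = 1) : t ∈ v.nonunits := by
  unfold ordV at h
  split_ifs at h with hex
  · obtain ⟨π, u, hπ, hu, ht⟩ := hex.choose_spec
    rw [h, zpow_one] at ht
    exact (hπ.2 t).2 ⟨(u : F), hu.1, ht⟩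
  · exact absurd h (by norm_num)

theorem tcf_unitIn_top {F : Type} [Field F] (t : Fˣ) : UnitIn (⊤ : ValuationSubring F) t :=
  ⟨ValuationSubring.mem_top _, ValuationSubring.mem_top _⟩

theorem curve_function {k A : Type} [Field k] [IsAlgClosed k] [CommRing A] [IsDomain A]
    [Algebra k A] [Algebra.FiniteType k A] [IsRegularRing A] {ι : Type} [Finite ι]
    {F : ι → Type} [∀ x, Field (F x)] {ρ : ∀ x, A →+* F x} (hfrac : ∀ x, IsFrac (ρ x))
    (hdim : ∀ x, ringKrullDim (A ⧸ RingHom.ker (ρ x)) = 1) {h : ∀ x, (F x)ˣ}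
    (hinf : ∀ x, ∀ v : ValuationSubring (F x), (∀ c : k, ρ x (algebraMap k A c) ∈ v) →
      (∃ a, ρ x a ∉ v) → UnitIn v (h x))
    (T : TBlock (k := k) ρ h) (x : ι) :
    (∀ v : ValuationSubring (F x), (∀ c : k, ρ x (algebraMap k A c) ∈ v) →
      UnitIn v (h x) ∨ ∃ y, T.Special x v y ∧
        CentredAt (polyR (ρ x) (T.a x)) v (polyZ y (T.c x v))) ∧
    (∀ v y, T.Special x v y →
      IsOrdR (polyR (ρ x) (T.a x)) (polyZ y (T.c x v)) (h x) (ordV v (h x : F x))) ∧
    ∀ (y' : A →ₐ[k] k) (c' : k), (∀ v, T.Special x v y' → c' ≠ T.c x v) →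
      IsOrdR (polyR (ρ x) (T.a x)) (polyZ y' c') (h x) 0 := by
  have hft : Algebra.FiniteType k A[X] :=
    Algebra.FiniteType.trans (S := A) inferInstance inferInstance
  have hP : PlaceThy k (polyR (ρ x) (T.a x)) :=
    placeThy (polyR (ρ x) (T.a x)) (isFrac_polyR (hfrac x) (T.a x))
      (krullDim_polyR (hfrac x) (hdim x) (T.integral x))
  -- the residue class of `a x` at the places over `Y`
  have hres : ∀ (v : ValuationSubring (F x)), ∀ y ∈ T.Y, v ≠ ⊤ → CentredAt (ρ x) v y →
      T.a x - ρ x (algebraMap k A (T.c x v)) ∈ v.nonunits := fun v y hy hv hc =>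
    tcf_ord_one v (T.ord_one x v y hy hv hc)
  refine ⟨?_, ?_, ?_⟩
  · intro v hk
    by_cases hA : ∃ a, ρ x a ∉ v
    · exact Or.inl (hinf x v hk hA)
    · have hA' : ∀ a, ρ x a ∈ v := fun a => by
        by_contra h0
        exact hA ⟨a, h0⟩
      by_cases hu : UnitIn v (h x)
      · exact Or.inl hu
      · have hv : v ≠ ⊤ := by
          intro h0
          apply hu
          rw [h0]
          exact tcf_unitIn_top (h x)
        obtain ⟨y, hy, hc⟩ := T.mem_Y x v hv hA' hu
        exact Or.inr ⟨y, ⟨hy, hv, hc, hu⟩,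
          (centredAt_polyR (ρ x) (T.a x) v y (T.c x v)).2 ⟨hc, hres v y hy hv hc⟩⟩
  · rintro v y ⟨hy, hv, hc, hu⟩
    rw [hP.ord]
    have hset : {v' : ValuationSubring (F x) | v' ≠ ⊤ ∧
        CentredAt (polyR (ρ x) (T.a x)) v' (polyZ y (T.c x v))} = {v} := by
      ext v'
      rw [Set.mem_singleton_iff]
      constructor
      · rintro ⟨hv', hc'⟩
        rw [centredAt_polyR] at hc'
        have h1 := hres v' y hy hv' hc'.1
        have h2 : T.c x v' = T.c x v := tcf_const (ρ x) v' (fun b => (hc'.1 b).1) h1 hc'.2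
        have h3 := T.sep y hy x v' x v hv' hc'.1 hv hc h2
        exact eq_of_heq (Sigma.mk.inj h3).2
      · rintro rfl
        exact ⟨hv, (centredAt_polyR (ρ x) (T.a x) v' y (T.c x v')).2
          ⟨hc, hres v' y hy hv hc⟩⟩
    rw [hset, finsum_mem_singleton]
  · intro y' c' hy'
    rw [hP.ord]
    symm
    apply finsum_mem_eq_zero_of_forall_eq_zero
    rintro v' ⟨hv', hc'⟩
    have hdisc : IsDiscV v' := hP.disc v' hv' (fun a => (hc' a).1)
    rw [centredAt_polyR] at hc'
    by_cases hu : UnitIn v' (h x)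
    · exact (unitIn_iff_ordV hdisc (h x)).1 hu
    · exfalso
      obtain ⟨y'', hy'', hc''⟩ := T.mem_Y x v' hv' (fun b => (hc'.1 b).1) hu
      have h1 : y'' = y' := tcf_centre (ρ x) v' hc'' hc'.1
      subst h1
      exact hy' v' ⟨hy'', hv', hc'', hu⟩
        (tcf_const (ρ x) v' (fun b => (hc'.1 b).1) hc'.2 (hres v' y'' hy'' hv' hc''))

end Pool.Agent.K1
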