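import Pool.Agent.K1.TDefs
import Pool.Agent.K1.EndGame

/-!
The line over a point `y` in `Spec A[X]`: its functions and their orders.
-/

set_option autoImplicit false

open Polynomial

namespace Pool.Agent.K1

section

variable {k A : Type} [Field k] [CommRing A] [Algebra k A]

/-- the line over `y`, as a ring homomorphism -/
noncomputable def lineR (y : A →ₐ[k] k) : A[X] →+* FractionRing k[X] :=
  (algebraMap k[X] (FractionRing k[X])).comp (mapRingHom y.toRingHom)

instance lineR_prime (y : A →ₐ[k] k) : (RingHom.ker (lineR y)).IsPrime := RingHom.ker_isPrime _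

private theorem tl_inj : Function.Injective (algebraMap k[X] (FractionRing k[X])) :=
  IsFractionRing.injective k[X] (FractionRing k[X])

theorem lineR_apply (y : A →ₐ[k] k) (f : A[X]) :
    lineR y f = algebraMap k[X] (FractionRing k[X]) (f.map y.toRingHom) := rfl

private theorem tl_zero (y : A →ₐ[k] k) (f : A[X]) :
    lineR y f = 0 ↔ f.map y.toRingHom = 0 := by
  rw [lineR_apply]
  exact map_eq_zero_iff _ tl_inj

private theorem tl_lift (y : A →ₐ[k] k) (p : k[X]) :
    (p.map (algebraMap k A)).map y.toRingHom = p := by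
  rw [Polynomial.map_map]
  have h1 : (y.toRingHom).comp (algebraMap k A) = RingHom.id k := by
    ext c
    exact y.commutes c
  rw [h1, Polynomial.map_id]

private theorem tl_lineR_lift (y : A →ₐ[k] k) (p : k[X]) :
    lineR y (p.map (algebraMap k A)) = algebraMap k[X] (FractionRing k[X]) p := by
  rw [lineR_apply, tl_lift]

theorem line_facts {k A : Type} [Field k] [CommRing A] [Algebra k A] (y : A →ₐ[k] k) :
    IsFrac (lineR y) ∧ ringKrullDim (A[X] ⧸ RingHom.ker (lineR y)) = 1 ∧
      ∀ f : A[X], lineR y f = 0 ↔ f.map y.toRingHom = 0 := by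
  refine ⟨?_, ?_, tl_zero y⟩
  · intro f
    obtain ⟨a, b, hb, rfl⟩ := IsFractionRing.div_surjective (A := k[X]) f
    have hb0 : algebraMap k[X] (FractionRing k[X]) b ≠ 0 := by
      intro h
      exact (nonZeroDivisors.ne_zero hb) ((map_eq_zero_iff _ tl_inj).1 h)
    refine ⟨a.map (algebraMap k A), b.map (algebraMap k A), ?_, ?_⟩
    · rw [tl_lineR_lift]
      exact hb0
    · rw [tl_lineR_lift, tl_lineR_lift]
      exact div_mul_cancel₀ _ hb0
  · have hs : Function.Surjective (mapRingHom y.toRingHom) := fun p =>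
      ⟨p.map (algebraMap k A), tl_lift y p⟩
    have hk : RingHom.ker (lineR y) = RingHom.ker (mapRingHom y.toRingHom) := by
      ext f
      rw [RingHom.mem_ker, RingHom.mem_ker]
      exact tl_zero y f
    rw [hk, ringKrullDim_eq_of_ringEquiv (RingHom.quotientKerEquivOfSurjective hs)]
    apply IsPrincipalIdealRing.ringKrullDim_eq_one
    exact Polynomial.not_isField k

/-! ### units of a valuation ring -/

private theorem tl_unitIn_iff {F : Type} [Field F] (v : ValuationSubring F) (t : Fˣ) :
    UnitIn v t ↔ t ∈ v.unitGroup := by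
  rw [ValuationSubring.mem_unitGroup_iff]
  constructor
  · rintro ⟨h1, h2⟩
    have h3 := (v.valuation_le_one_iff (t : F)).2 h1
    have h4 := (v.valuation_le_one_iff ((t⁻¹ : Fˣ) : F)).2 h2
    have h5 : v.valuation (t : F) * v.valuation ((t⁻¹ : Fˣ) : F) = 1 := by
      rw [← map_mul, Units.mul_inv, map_one]
    apply le_antisymm h3
    by_contra hlt
    rw [not_le] at hlt
    have h6 : v.valuation (t : F) * v.valuation ((t⁻¹ : Fˣ) : F) < 1 :=
      mul_lt_one_of_lt_of_le hlt h4
    exact absurd h5 (ne_of_lt h6)
  · intro h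
    refine ⟨(v.valuation_le_one_iff _).1 h.le, (v.valuation_le_one_iff _).1 ?_⟩
    have h1 : v.valuation (((t⁻¹ : Fˣ) : F)) = 1 := by
      rw [Units.val_inv_eq_inv_val, map_inv₀, h, inv_one]
    exact h1.le

private theorem tl_prod_zpow {G : Type} [CommGroup G] {ι : Type} (u : G) (s : Finset ι)
    (n : ι → ℤ) : ∏ i ∈ s, u ^ n i = u ^ ∑ i ∈ s, n i := by
  classical
  induction s using Finset.induction_on with
  | empty => simp
  | insert a s ha ih => rw [Finset.prod_insert ha, Finset.sum_insert ha, ih, zpow_add]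

/-- the function `X - c` -/
private noncomputable def tlP (c : k) : (FractionRing k[X])ˣ :=
  Units.mk0 (algebraMap k[X] (FractionRing k[X]) (X - C c)) (fun h =>
    (X_sub_C_ne_zero c) ((map_eq_zero_iff _ tl_inj).1 h))

private theorem tlP_val (c : k) :
    ((tlP c : (FractionRing k[X])ˣ) : FractionRing k[X]) =
      algebraMap k[X] (FractionRing k[X]) (X - C c) := rfl

/-- polynomials lie in `v` when `X` and the constants do -/
private theorem tl_mem_of_X {v : ValuationSubring (FractionRing k[X])}
    (hc : ∀ c : k, algebraMap k[X] (FractionRing k[X]) (C c) ∈ v)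
    (hX : algebraMap k[X] (FractionRing k[X]) X ∈ v) (p : k[X]) :
    algebraMap k[X] (FractionRing k[X]) p ∈ v := by
  induction p using Polynomial.induction_on' with
  | add p q hp hq =>
    rw [map_add]
    exact v.add_mem _ _ hp hq
  | monomial n c =>
    rw [← C_mul_X_pow_eq_monomial, map_mul, map_pow]
    exact v.mul_mem _ _ (hc c) (pow_mem hX n)

private theorem tl_const (y : A →ₐ[k] k) (c : k) :
    lineR y (algebraMap k A[X] c) = algebraMap k[X] (FractionRing k[X]) (C c) := by
  rw [lineR_apply, Polynomial.algebraMap_apply, Polynomial.map_C]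
  congr 2
  exact y.commutes c

private theorem tl_eval (y : A →ₐ[k] k) (c : k) (f : A[X]) :
    polyZ y c f = (f.map y.toRingHom).eval c := by
  change eval₂ y.toRingHom c f = _
  rw [Polynomial.eval_map]

private theorem tl_place (y : A →ₐ[k] k) (e : k →₀ ℤ) (he : e.sum (fun _ n => n) = 0)
    (v : ValuationSubring (FractionRing k[X]))
    (hv : ∀ c : k, lineR y (algebraMap k A[X] c) ∈ v) :
    UnitIn v (e.prod fun c n => (tlP c) ^ n) ∨ ∃ c, e c ≠ 0 ∧
      CentredAt (lineR y) v (polyZ y c) := by
  have hc : ∀ c : k, algebraMap k[X] (FractionRing k[X]) (C c) ∈ v := by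
    intro c
    rw [← tl_const y c]
    exact hv c
  by_cases hX : algebraMap k[X] (FractionRing k[X]) X ∈ v
  · by_cases hu : ∀ c ∈ e.support, UnitIn v (tlP c)
    · left
      rw [tl_unitIn_iff]
      apply Subgroup.prod_mem
      intro c hcs
      exact Subgroup.zpow_mem _ ((tl_unitIn_iff v _).1 (hu c hcs)) _
    · right
      push Not at hu
      obtain ⟨c, hcs, hcu⟩ := hu
      refine ⟨c, Finsupp.mem_support_iff.1 hcs, ?_⟩
      have hP : algebraMap k[X] (FractionRing k[X]) (X - C c) ∈ v := tl_mem_of_X hc hX _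
      have hPn : algebraMap k[X] (FractionRing k[X]) (X - C c) ∈ v.nonunits := by
        rw [ValuationSubring.mem_nonunits_iff]
        apply lt_of_le_of_ne ((v.valuation_le_one_iff _).2 hP)
        intro h1
        apply hcu
        rw [tl_unitIn_iff, ValuationSubring.mem_unitGroup_iff, tlP_val]
        exact h1
      intro f
      refine ⟨tl_mem_of_X hc hX _, fun hf => ?_⟩
      rw [tl_eval] at hf
      obtain ⟨q, hq⟩ := dvd_iff_isRoot.2 hf
      rw [lineR_apply, hq, map_mul, ValuationSubring.mem_nonunits_iff, map_mul]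
      exact mul_lt_one_of_lt_of_le (v.mem_nonunits_iff.1 hPn)
        ((v.valuation_le_one_iff _).2 (tl_mem_of_X hc hX q))
  · left
    have hX0 : algebraMap k[X] (FractionRing k[X]) X ≠ 0 := fun h =>
      X_ne_zero ((map_eq_zero_iff _ tl_inj).1 h)
    have hXv : 1 < v.valuation (algebraMap k[X] (FractionRing k[X]) X) := by
      rw [← not_le]
      intro h
      exact hX ((v.valuation_le_one_iff _).1 h)
    -- the valuation of `X - c` is that of `X`
    have hval : ∀ c : k, v.valuation (algebraMap k[X] (FractionRing k[X]) (X - C c)) =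
        v.valuation (algebraMap k[X] (FractionRing k[X]) X) := by
      intro c
      rw [map_sub]
      apply Valuation.map_sub_eq_of_lt_left
      exact lt_of_le_of_lt ((v.valuation_le_one_iff _).2 (hc c)) hXv
    rw [tl_unitIn_iff, ValuationSubring.mem_unitGroup_iff]
    set u : (FractionRing k[X])ˣ := Units.mk0 _ hX0 with hu
    have h1 : v.valuation (((e.prod fun c n => (tlP c) ^ n : (FractionRing k[X])ˣ)) :
        FractionRing k[X]) = v.valuation (((e.prod fun _ n => u ^ n : (FractionRing k[X])ˣ)) :
        FractionRing k[X]) := by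
      unfold Finsupp.prod
      rw [Units.coe_prod, Units.coe_prod, map_prod, map_prod]
      apply Finset.prod_congr rfl
      intro c _
      rw [Units.val_zpow_eq_zpow_val, Units.val_zpow_eq_zpow_val, map_zpow₀, map_zpow₀, tlP_val,
        hval c]
      rfl
    rw [h1]
    have h2 : (e.prod fun _ n => u ^ n : (FractionRing k[X])ˣ) = u ^ (e.sum fun _ n => n) := by
      unfold Finsupp.prod Finsupp.sum
      exact tl_prod_zpow u e.support e
    rw [h2, he, zpow_zero, Units.val_one, map_one]

/-! ### orders at points -/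

private theorem tl_ker_sup (y : A →ₐ[k] k) (c : k) :
    RingHom.ker (lineR y) ⊔ Ideal.span {(X - C (algebraMap k A c) : A[X])} =
      RingHom.ker (polyZ y c) := by
  have hmap : ((X - C (algebraMap k A c) : A[X])).map y.toRingHom = X - C c := by
    rw [Polynomial.map_sub, Polynomial.map_X, Polynomial.map_C]
    congr 2
    exact y.commutes c
  apply le_antisymm
  · rw [sup_le_iff, Ideal.span_singleton_le_iff_mem]
    constructor
    · intro f hf
      rw [RingHom.mem_ker, tl_zero] at hf
      change polyZ y c f = 0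
      rw [tl_eval, hf, eval_zero]
    · change polyZ y c _ = 0
      rw [tl_eval, hmap]
      simp
  · intro f hf
    have hf1 : polyZ y c f = 0 := hf
    rw [tl_eval] at hf1
    obtain ⟨q, hq⟩ := dvd_iff_isRoot.2 hf1
    have h1 : f = (f - (X - C (algebraMap k A c)) * q.map (algebraMap k A)) +
        q.map (algebraMap k A) * (X - C (algebraMap k A c)) := by ring
    rw [h1]
    refine Ideal.add_mem _ (Ideal.mem_sup_left ?_) (Ideal.mem_sup_right
      (Ideal.mul_mem_left _ _ (Ideal.mem_span_singleton_self _)))
    rw [RingHom.mem_ker, tl_zero, Polynomial.map_sub, Polynomial.map_mul, hmap, tl_lift, hq,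
      sub_self]

private theorem tl_ord_self (y : A →ₐ[k] k) (c : k) :
    ordPt (RingHom.ker (lineR y)) (polyZ y c) (X - C (algebraMap k A c)) = 1 := by
  unfold ordPt lenP
  have h1 : (RingHom.ker (lineR y)).map (algebraMap A[X] (LocAt (polyZ y c))) ⊔
      Ideal.span {algebraMap A[X] (LocAt (polyZ y c)) (X - C (algebraMap k A c))} =
      IsLocalRing.maximalIdeal (LocAt (polyZ y c)) := by
    rw [← Set.image_singleton, ← Ideal.map_span, ← Ideal.map_sup, tl_ker_sup]
    exact Localization.AtPrime.map_eq_maximalIdeal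
  rw [h1, Module.length_eq_one_iff, isSimpleModule_iff_isCoatom]
  exact (IsLocalRing.maximalIdeal.isMaximal _).out

private theorem tl_ord_ne (y : A →ₐ[k] k) {c c' : k} (h : c ≠ c') :
    ordPt (RingHom.ker (lineR y)) (polyZ y c) (X - C (algebraMap k A c')) = 0 := by
  apply ordPt_of_ne
  rw [tl_eval, Polynomial.map_sub, Polynomial.map_X, Polynomial.map_C]
  have h1 : y.toRingHom (algebraMap k A c') = c' := y.commutes c'
  rw [h1]
  simp only [eval_sub, eval_X, eval_C]
  exact sub_ne_zero.2 h

private theorem tl_notMem (y : A →ₐ[k] k) (c : k) :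
    (X - C (algebraMap k A c) : A[X]) ∉ RingHom.ker (lineR y) := by
  intro h
  rw [RingHom.mem_ker, tl_zero, Polynomial.map_sub, Polynomial.map_X, Polynomial.map_C] at h
  have h1 : y.toRingHom (algebraMap k A c) = c := y.commutes c
  rw [h1] at h
  exact X_sub_C_ne_zero c h

/-- `∏ (X - c)^(n c)` -/
private noncomputable def tlN (A : Type) [CommRing A] [Algebra k A] (s : Finset k) (n : k → ℕ) :
    A[X] := ∏ c ∈ s, (X - C (algebraMap k A c)) ^ n c

private theorem tlN_notMem (y : A →ₐ[k] k) (s : Finset k) (n : k → ℕ) :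
    tlN A s n ∉ RingHom.ker (lineR y) := by
  classical
  unfold tlN
  induction s using Finset.induction_on with
  | empty =>
    rw [Finset.prod_empty]
    exact fun h => (lineR_prime y).ne_top ((Ideal.eq_top_iff_one _).2 h)
  | insert a s ha ih =>
    rw [Finset.prod_insert ha]
    intro h
    rcases (lineR_prime y).mem_or_mem h with h1 | h1
    · exact tl_notMem y a ((lineR_prime y).mem_of_pow_mem _ h1)
    · exact ih h1

private theorem tl_ord_one (y : A →ₐ[k] k) (z : A[X] →ₐ[k] k) :
    ordPt (RingHom.ker (lineR y)) z 1 = 0 := by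
  apply ordPt_of_ne
  rw [map_one]
  exact one_ne_zero

open Classical in
private theorem tlN_ord (y : A →ₐ[k] k) (c : k) (s : Finset k) (n : k → ℕ) :
    ordPt (RingHom.ker (lineR y)) (polyZ y c) (tlN A s n) = (if c ∈ s then n c else 0 : ℕ) := by
  classical
  unfold tlN
  induction s using Finset.induction_on with
  | empty =>
    rw [Finset.prod_empty, tl_ord_one]
    simp
  | insert a s ha ih =>
    rw [Finset.prod_insert ha, ordPt_mul _ (lineR_prime y) _
      (fun h => tl_notMem y a ((lineR_prime y).mem_of_pow_mem _ h)),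
      ordPt_pow _ (lineR_prime y) _ (tl_notMem y a), ih]
    by_cases hca : c = a
    · subst hca
      rw [tl_ord_self, if_neg ha, if_pos (Finset.mem_insert_self _ _)]
      simp
    · rw [tl_ord_ne y hca]
      simp [Finset.mem_insert, hca]

private theorem tlN_map (y : A →ₐ[k] k) (s : Finset k) (n : k → ℕ) :
    lineR y (tlN A s n) = ((∏ c ∈ s, (tlP c) ^ n c : (FractionRing k[X])ˣ) : FractionRing k[X]) := by
  unfold tlN
  rw [map_prod, Units.coe_prod]
  apply Finset.prod_congr rfl
  intro c _
  rw [map_pow, Units.val_pow_eq_pow_val, tlP_val]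
  congr 1
  rw [lineR_apply, Polynomial.map_sub, Polynomial.map_X, Polynomial.map_C]
  congr 3
  exact y.commutes c

private theorem tl_prod_toNat (e : k →₀ ℤ) :
    (e.prod fun c n => (tlP c) ^ n : (FractionRing k[X])ˣ) *
      (∏ c ∈ e.support, (tlP c) ^ (-e c).toNat) = ∏ c ∈ e.support, (tlP c) ^ (e c).toNat := by
  unfold Finsupp.prod
  rw [← Finset.prod_mul_distrib]
  apply Finset.prod_congr rfl
  intro c _
  rw [← zpow_natCast, ← zpow_natCast, ← zpow_add]
  congr 1
  omega

theorem line_function {k A : Type} [Field k] [IsAlgClosed k] [CommRing A] [Algebra k A]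
    [Algebra.FiniteType k A] (y : A →ₐ[k] k) (e : k →₀ ℤ) (he : e.sum (fun _ n => n) = 0) :
    ∃ g : (FractionRing k[X])ˣ,
      (∀ v : ValuationSubring (FractionRing k[X]), (∀ c : k, lineR y (algebraMap k A[X] c) ∈ v) →
        UnitIn v g ∨ ∃ c, e c ≠ 0 ∧ CentredAt (lineR y) v (polyZ y c)) ∧
      (∀ c, IsOrdR (lineR y) (polyZ y c) g (e c)) ∧
      ∀ y' : A →ₐ[k] k, y' ≠ y → ∀ c, IsOrdR (lineR y) (polyZ y' c) g 0 := by
  classical
  refine ⟨e.prod fun c n => (tlP c) ^ n, tl_place y e he, ?_, ?_⟩
  · intro c
    refine ⟨tlN A e.support fun c => (e c).toNat, tlN A e.support fun c => (-e c).toNat,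
      tlN_notMem y _ _, tlN_notMem y _ _, ?_, ?_⟩
    · rw [tlN_map, tlN_map, ← Units.val_mul, tl_prod_toNat]
    · rw [tlN_ord, tlN_ord]
      by_cases hc : c ∈ e.support
      · rw [if_pos hc, if_pos hc, ENat.toNat_natCast, ENat.toNat_natCast]
        omega
      · rw [if_neg hc, if_neg hc, ENat.toNat_natCast, Finsupp.notMem_support_iff.1 hc]
        simp
  · intro y' hy' c
    refine ⟨tlN A e.support fun c => (e c).toNat, tlN A e.support fun c => (-e c).toNat,
      tlN_notMem y _ _, tlN_notMem y _ _, ?_, ?_⟩
    · rw [tlN_map, tlN_map, ← Units.val_mul, tl_prod_toNat]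
    · have hle : ¬ RingHom.ker (lineR y) ≤ RingHom.ker (polyZ y' c) := by
        intro hle
        apply hy'
        ext a
        have h1 : (C (a - algebraMap k A (y a)) : A[X]) ∈ RingHom.ker (lineR y) := by
          rw [RingHom.mem_ker, tl_zero, Polynomial.map_C]
          have h2 : y.toRingHom (a - algebraMap k A (y a)) = 0 := by
            have h3 : y.toRingHom (algebraMap k A (y a)) = y a := y.commutes (y a)
            rw [map_sub, h3]
            exact sub_self _
          rw [h2, C_0]
        have h2 : polyZ y' c (C (a - algebraMap k A (y a))) = 0 := hle h1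
        rw [tl_eval, Polynomial.map_C, eval_C, map_sub] at h2
        have h3 : y'.toRingHom (algebraMap k A (y a)) = y a := y'.commutes (y a)
        rw [h3] at h2
        exact sub_eq_zero.1 h2
      rw [ordPt_of_not_le _ _ _ hle, ordPt_of_not_le _ _ _ hle]
      simp

end

end Pool.Agent.K1
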