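import Pool.Agent.K1.TSurf
import Pool.Agent.K1.TClass
import Pool.Agent.K1.TLine
import Pool.Agent.K1.TCurveFn

/-!
The class of a special point: the component of the surface through it.
-/

set_option autoImplicit false

open Polynomial

namespace Pool.Agent.K1

theorem tfacts_le {B : Type} [CommRing B] {J 𝔮 𝔮' : Ideal B} [h𝔮 : 𝔮.IsPrime] [𝔮'.IsPrime]
    (h : 𝔮 ≤ 𝔮') (hJ : J ≤ 𝔮) : satI J 𝔮' ≤ 𝔮 := by
  rintro f ⟨s, hs, hsf⟩
  exact (h𝔮.mem_or_mem (hJ hsf)).resolve_left fun h1 => hs (h h1)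

theorem tfacts_ker_le {k A F : Type} [Field k] [CommRing A] [Algebra k A] [Field F]
    {ρ : A →+* F} {v : ValuationSubring F} {z : A →ₐ[k] k} (hc : CentredAt ρ v z) :
    RingHom.ker ρ ≤ RingHom.ker z := by
  intro a ha
  rw [RingHom.mem_ker] at ha ⊢
  by_contra hne
  have h1 := (hc (a - algebraMap k A (z a))).2 (by
    rw [map_sub, AlgHom.commutes]
    simp)
  rw [map_sub, ha, zero_sub] at h1
  have h2 : ρ (algebraMap k A (z a)⁻¹) * (-ρ (algebraMap k A (z a))) = -1 := by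
    rw [mul_neg, ← map_mul, ← map_mul, inv_mul_cancel₀ hne, map_one, map_one]
  have h3 : (-1 : F) ∈ v.nonunits := by
    rw [← h2, ValuationSubring.mem_nonunits_iff, map_mul]
    rw [ValuationSubring.mem_nonunits_iff] at h1
    calc v.valuation (ρ (algebraMap k A (z a)⁻¹)) * v.valuation (-ρ (algebraMap k A (z a)))
        ≤ 1 * v.valuation (-ρ (algebraMap k A (z a))) :=
          mul_le_mul_left ((v.valuation_le_one_iff _).2 (hc _).1) _
      _ < 1 := by rw [one_mul]; exact h1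
  rw [ValuationSubring.mem_nonunits_iff] at h3
  have h4 : v.valuation (-1 : F) = 1 := by
    rw [Valuation.map_neg, map_one]
  rw [h4] at h3
  exact lt_irrefl _ h3

theorem class_facts {k A : Type} [Field k] [IsAlgClosed k] [CommRing A] [IsDomain A]
    [Algebra k A] [Algebra.FiniteType k A] [IsRegularRing A] {ι : Type} [Finite ι]
    {F : ι → Type} [∀ x, Field (F x)] {ρ : ∀ x, A →+* F x} {h : ∀ x, (F x)ˣ}
    (T : TBlock (k := k) ρ h) {x : ι} {v : ValuationSubring (F x)}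
    {y : A →ₐ[k] k} (hs : T.Special x v y) :
    (satI T.J (RingHom.ker (polyZ y (T.c x v)))).IsPrime ∧
    ringKrullDim (A[X] ⧸ satI T.J (RingHom.ker (polyZ y (T.c x v)))) = 2 ∧
    (∀ z : (A[X] ⧸ satI T.J (RingHom.ker (polyZ y (T.c x v)))) →ₐ[k] k,
      (∀ b, z (Ideal.Quotient.mk _ b) = polyZ y (T.c x v) b) → RegPt z) ∧
    satI T.J (RingHom.ker (polyR (ρ x) (T.a x))) =
      satI T.J (RingHom.ker (polyZ y (T.c x v))) ∧
    satI T.J (RingHom.ker (lineR y)) = satI T.J (RingHom.ker (polyZ y (T.c x v))) ∧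
    satI T.J (RingHom.ker (polyZ y (T.c x v))) ≤ RingHom.ker (polyR (ρ x) (T.a x)) ∧
    satI T.J (RingHom.ker (polyZ y (T.c x v))) ≤ RingHom.ker (lineR y) ∧
    RingHom.ker (polyR (ρ x) (T.a x)) ≤ RingHom.ker (polyZ y (T.c x v)) ∧
    RingHom.ker (lineR y) ≤ RingHom.ker (polyZ y (T.c x v)) := by
  have hnoeth : IsNoetherianRing A := Algebra.FiniteType.isNoetherianRing k A
  obtain ⟨hy, hv, hc, hu⟩ := hs
  -- the order of the third coordinate
  have hord := T.ord_one x v y hy hv hc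
  have hdisc : T.a x - ρ x (algebraMap k A (T.c x v)) ∈ v.nonunits := tcf_ord_one v hord
  have hcent : CentredAt (polyR (ρ x) (T.a x)) v (polyZ y (T.c x v)) :=
    (centredAt_polyR (ρ x) (T.a x) v y (T.c x v)).2 ⟨hc, hdisc⟩
  have h1 : RingHom.ker (polyR (ρ x) (T.a x)) ≤ RingHom.ker (polyZ y (T.c x v)) :=
    tfacts_ker_le hcent
  have h2 : RingHom.ker (lineR y) ≤ RingHom.ker (polyZ y (T.c x v)) := by
    intro f hf
    rw [RingHom.mem_ker] at hf ⊢
    have h3 := ((line_facts y).2.2 f).1 hf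
    change polyZ y (T.c x v) f = 0
    rw [polyZ_apply, h3, eval_zero]
  have hJ1 : T.J ≤ RingHom.ker (polyR (ρ x) (T.a x)) := by
    unfold TBlock.J
    rw [Ideal.span_le]
    rintro _ ⟨j, rfl⟩
    exact T.eq_curve j x
  have hJ2 : T.J ≤ RingHom.ker (lineR y) := by
    unfold TBlock.J
    rw [Ideal.span_le]
    rintro _ ⟨j, rfl⟩
    exact ((line_facts y).2.2 _).2 (T.eq_line j y hy)
  have hdimB : ringKrullDim A[X] = ((T.m + 4 : ℕ) : WithBot ℕ∞) := by
    rw [Polynomial.ringKrullDim_of_isNoetherianRing, T.dim]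
    norm_cast
  obtain ⟨hp, hle, hd, hreg⟩ := surf_local T.m hdimB (polyZ y (T.c x v)) T.eq
    (fun j => h1 (T.eq_curve j x)) (T.indep x v y hy hv hc hu)
  have hs1 := tfacts_le h1 hJ1
  have hs2 := tfacts_le h2 hJ2
  refine ⟨hp, hd, hreg, satI_eq h1 hp hs1, satI_eq h2 hp hs2, hs1, hs2, h1, h2⟩

end Pool.Agent.K1
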