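import Pool.Agent.K1.TLocal
import Pool.Agent.K1.TDefs

/-!
Curves through regular points of surfaces.
-/

set_option autoImplicit false

open IsLocalRing

namespace Pool.Agent.K1

theorem height_one_of_dim {k A : Type} [Field k] [CommRing A] [IsDomain A] [Algebra k A]
    [Algebra.FiniteType k A] (hdim : ringKrullDim A = 2) (P : Ideal A) [hP' : P.IsPrime]
    (hP : ringKrullDim (A ⧸ P) = 1) : P.height = 1 := by
  have hnoeth : IsNoetherianRing A := Algebra.FiniteType.isNoetherianRing k A
  have h1 := height_add_dim_quotient P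
  rw [hP, hdim] at h1
  have h2 : P.height ≤ 1 := by
    have h3 : (P.height : WithBot ℕ∞) + ((1 : ℕ) : WithBot ℕ∞) ≤ ((1 : ℕ) : WithBot ℕ∞) +
        ((1 : ℕ) : WithBot ℕ∞) := by
      refine le_trans ?_ (h1.trans ?_)
      · exact le_of_eq rfl
      · norm_num
    have h4 : (P.height : WithBot ℕ∞) ≤ ((1 : ℕ) : WithBot ℕ∞) :=
      ENat.WithBot.add_le_add_natCast_right_iff.mp h3
    exact_mod_cast h4
  refine le_antisymm h2 ?_
  by_contra hcon
  have hb : P = ⊥ := by
    by_contra hne
    have h3 := Ideal.height_add_one_le_of_lt_of_isPrime (bot_lt_iff_ne_bot.mpr hne)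
    exact hcon (le_trans le_add_self h3)
  subst hb
  rw [ringKrullDim_eq_of_ringEquiv (RingEquiv.quotientBot A), hdim] at hP
  exact absurd hP (by norm_num)

theorem dvr_of_regPt {k A : Type} [Field k] [IsAlgClosed k] [CommRing A] [IsDomain A]
    [Algebra k A] [Algebra.FiniteType k A] (hdim : ringKrullDim A = 2) (z : A →ₐ[k] k)
    (hz : RegPt z) (P : Ideal A) [P.IsPrime] (hP : P ≤ RingHom.ker z) (h1 : P.height = 1) :
    IsDiscreteValuationRing (Localization.AtPrime P) := by
  have hnoeth : IsNoetherianRing A := Algebra.FiniteType.isNoetherianRing k A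
  have hreg : IsRegularLocalRing (Localization.AtPrime (RingHom.ker z)) := hz
  refine dvr_of_le_regular (RingHom.ker z) P hP ?_ h1
  rw [IsLocalization.AtPrime.ringKrullDim_eq_height (RingHom.ker z)]
  refine (Ideal.height_le_ringKrullDim_of_ne_top ?_).trans hdim.le
  exact (RingHom.ker_isPrime z).ne_top

/-- A uniformizer of the local ring of a curve. -/
theorem exists_pi_of_dvr {A K F : Type} [CommRing A] [Field K] [Field F] (τ : A →+* K)
    (ρ : A →+* F) (hle : RingHom.ker τ ≤ RingHom.ker ρ)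
    [IsDomain (A ⧸ RingHom.ker τ)] (P : Ideal (A ⧸ RingHom.ker τ)) [P.IsPrime]
    (hP : ∀ a, Ideal.Quotient.mk (RingHom.ker τ) a ∈ P ↔ ρ a = 0)
    (hD : IsDiscreteValuationRing (Localization.AtPrime P)) :
    ∃ π : A, τ π ≠ 0 ∧ ρ π = 0 ∧ ∀ a : A, ρ a = 0 →
      ∃ b s : A, ρ s ≠ 0 ∧ τ (a * s) = τ (π * b) := by
  let A' := A ⧸ RingHom.ker τ
  let O := Localization.AtPrime P
  let mk : A →+* A' := Ideal.Quotient.mk (RingHom.ker τ)
  have hmk : ∀ a b, mk a = mk b → τ a = τ b := by
    intro a b h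
    have h1 : a - b ∈ RingHom.ker τ := Ideal.Quotient.eq.mp h
    rw [RingHom.mem_ker, map_sub, sub_eq_zero] at h1
    exact h1
  have hinj : Function.Injective (algebraMap A' O) :=
    IsLocalization.injective _ P.primeCompl_le_nonZeroDivisors
  obtain ⟨ϖ, hϖ⟩ := IsDiscreteValuationRing.exists_irreducible O
  have hmax : maximalIdeal O = Ideal.span {ϖ} := hϖ.maximalIdeal_eq
  obtain ⟨⟨x, s⟩, hxs⟩ := IsLocalization.surj P.primeCompl ϖ
  dsimp only at hxs
  obtain ⟨π, rfl⟩ := Ideal.Quotient.mk_surjective x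
  obtain ⟨s₀, hs₀⟩ := Ideal.Quotient.mk_surjective (s : A')
  have hsP : (s : A') ∉ P := s.2
  have hxP : Ideal.Quotient.mk (RingHom.ker τ) π ∈ P := by
    rw [← IsLocalization.AtPrime.to_map_mem_maximal_iff O P, ← hxs]
    refine Ideal.mul_mem_right _ _ ?_
    rw [hmax]
    exact Ideal.mem_span_singleton_self _
  refine ⟨π, ?_, (hP π).mp hxP, fun a ha => ?_⟩
  · intro h
    have h1 : Ideal.Quotient.mk (RingHom.ker τ) π = 0 := Ideal.Quotient.eq_zero_iff_mem.mpr h
    rw [h1, map_zero] at hxs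
    rcases mul_eq_zero.mp hxs with h2 | h2
    · exact hϖ.ne_zero h2
    · rw [map_eq_zero_iff _ hinj] at h2
      rw [h2] at hsP
      exact hsP P.zero_mem
  · have h1 : algebraMap A' O (mk a) ∈ Ideal.span {ϖ} := by
      rw [← hmax]
      exact (IsLocalization.AtPrime.to_map_mem_maximal_iff O P _).mpr ((hP a).mpr ha)
    obtain ⟨y, hy⟩ := Ideal.mem_span_singleton'.mp h1
    obtain ⟨⟨y', t⟩, hyt⟩ := IsLocalization.surj P.primeCompl y
    dsimp only at hyt
    obtain ⟨b, rfl⟩ := Ideal.Quotient.mk_surjective y'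
    obtain ⟨t₀, ht₀⟩ := Ideal.Quotient.mk_surjective (t : A')
    have htP : (t : A') ∉ P := t.2
    refine ⟨b, t₀ * s₀, ?_, ?_⟩
    · rw [map_mul]
      refine mul_ne_zero (fun h => htP ?_) (fun h => hsP ?_)
      · rw [← ht₀]
        exact (hP _).mpr h
      · rw [← hs₀]
        exact (hP _).mpr h
    · apply hmk
      apply hinj
      have e1 : algebraMap A' O (mk (a * (t₀ * s₀))) =
          (y * ϖ) * (algebraMap A' O t * algebraMap A' O s) := by
        rw [hy, map_mul, map_mul, map_mul, map_mul]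
        congr 2
        · exact congrArg _ ht₀
        · exact congrArg _ hs₀
      have e2 : algebraMap A' O (mk (π * b)) =
          (ϖ * algebraMap A' O s) * (y * algebraMap A' O t) := by
        rw [hxs, hyt, map_mul, map_mul]
      rw [e1, e2]
      ring

end Pool.Agent.K1
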