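import Pool.Agent.K1.TDefs
import Pool.Agent.K1.TOrd

/-!
The function field of the surface in `Spec A[X]` is the function field of its image.
-/

set_option autoImplicit false

open Polynomial

namespace Pool.Agent.K1

/-- elimination of the variable with a linear relation -/
theorem tker_elim {A : Type} [CommRing A] (α β : A) (f : A[X]) :
    ∃ (N : ℕ) (g : A) (q : A[X]), C β ^ N * f = C g + q * (C β * X - C α) := by
  induction f using Polynomial.induction_on' with
  | add f g hf hg =>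
    obtain ⟨N, a, q, h1⟩ := hf
    obtain ⟨M, b, r, h2⟩ := hg
    refine ⟨N + M, β ^ M * a + β ^ N * b, C β ^ M * q + C β ^ N * r, ?_⟩
    have h3 : C β ^ (N + M) * (f + g) = C β ^ M * (C β ^ N * f) + C β ^ N * (C β ^ M * g) := by
      rw [pow_add]; ring
    rw [h3, h1, h2]
    simp only [map_add, map_mul, map_pow]
    ring
  | monomial n a =>
    induction n with
    | zero =>
      refine ⟨0, a, 0, ?_⟩
      rw [monomial_zero_left]
      ring
    | succ n ih =>
      obtain ⟨N, g, q, h1⟩ := ih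
      refine ⟨N + 1, g * α, C g + q * (C β * X), ?_⟩
      have h2 : C β ^ (N + 1) * monomial (n + 1) a = (C β ^ N * monomial n a) * (C β * X) := by
        rw [← monomial_mul_X, pow_succ]
        ring
      rw [h2, h1, map_mul]
      ring

theorem polyR_C {A F : Type} [CommRing A] [Field F] (ρ : A →+* F) (a : F) (b : A) :
    polyR ρ a (C b) = ρ b := by
  unfold polyR
  rw [coe_eval₂RingHom, eval₂_C]

theorem polyR_X {A F : Type} [CommRing A] [Field F] (ρ : A →+* F) (a : F) :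
    polyR ρ a X = a := by
  unfold polyR
  rw [coe_eval₂RingHom, eval₂_X]

/-- the linear relation on a curve -/
theorem tker_lin {A F : Type} [CommRing A] [Field F] (ρ : A →+* F) {a : F} {α β : A}
    (h : ρ α = a * ρ β) : polyR ρ a (C β * X - C α) = 0 := by
  rw [map_sub, map_mul, polyR_C, polyR_C, polyR_X, h]
  ring

theorem tker_eval {A F : Type} [CommRing A] [Field F] (ρ : A →+* F) {a : F} {α β : A}
    (h : ρ α = a * ρ β) {N : ℕ} {f q : A[X]} {g : A}
    (hf : C β ^ N * f = C g + q * (C β * X - C α)) : ρ β ^ N * polyR ρ a f = ρ g := by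
  have h1 := congrArg (polyR ρ a) hf
  rw [map_mul, map_pow, polyR_C, map_add, polyR_C, map_mul, tker_lin ρ h, mul_zero,
    add_zero] at h1
  exact h1

theorem kernel_polyR {A K : Type} [CommRing A] [Field K] (τ : A →+* K) (hτ : IsFrac τ)
    (Q : Ideal A[X]) [Q.IsPrime] (hker : RingHom.ker τ = Q.comap C) {α β : A}
    (hβ : τ β ≠ 0) (h : C β * X - C α ∈ Q) :
    RingHom.ker (polyR τ (τ α / τ β)) = Q ∧ IsFrac (polyR τ (τ α / τ β)) := by
  have hrel : τ α = τ α / τ β * τ β := (div_mul_cancel₀ _ hβ).symm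
  have hmem : ∀ a : A, τ a = 0 ↔ C a ∈ Q := by
    intro a
    rw [← RingHom.mem_ker, hker, Ideal.mem_comap]
  refine ⟨?_, ?_⟩
  · ext f
    rw [RingHom.mem_ker]
    obtain ⟨N, g, q, hf⟩ := tker_elim α β f
    have h1 := tker_eval τ hrel hf
    have h2 : C β ^ N * f ∈ Q ↔ C g ∈ Q := by
      rw [hf]
      exact Ideal.add_mem_iff_left _ (Q.mul_mem_left _ h)
    have h3 : C β ∉ Q := fun h3 => hβ ((hmem β).2 h3)
    have h4 : C β ^ N ∉ Q := fun h4 => h3 (Ideal.IsPrime.mem_of_pow_mem inferInstance _ h4)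
    constructor
    · intro hf0
      rw [hf0, mul_zero] at h1
      have h5 := h2.2 ((hmem g).1 h1.symm)
      exact (Ideal.IsPrime.mem_or_mem inferInstance h5).resolve_left h4
    · intro hfQ
      have h5 := (hmem g).2 (h2.1 (Q.mul_mem_left _ hfQ))
      rw [h5] at h1
      exact (mul_eq_zero.1 h1).resolve_left (pow_ne_zero _ hβ)
  · intro f
    obtain ⟨a, b, hb, hab⟩ := hτ f
    refine ⟨C a, C b, ?_, ?_⟩
    · rw [polyR_C]; exact hb
    · rw [polyR_C, polyR_C]; exact hab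

theorem tker_unit_mul {K : Type} [Field K] {V : ValuationSubring K} {u x : K} (hu : u ∈ V)
    (hu' : u⁻¹ ∈ V) (hu0 : u ≠ 0) : (u * x ∈ V ↔ x ∈ V) ∧
      (u * x ∈ V.nonunits ↔ x ∈ V.nonunits) := by
  have h1 : u⁻¹ * (u * x) = x := by rw [← mul_assoc, inv_mul_cancel₀ hu0, one_mul]
  have h0 : u * x ∈ V ↔ x ∈ V := by
    constructor
    · intro h
      rw [← h1]
      exact V.mul_mem _ _ hu' h
    · intro h
      exact V.mul_mem _ _ hu h
  refine ⟨h0, ?_⟩
  rw [tord_nonunits_iff, tord_nonunits_iff, h0, mul_inv]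
  have h2 : u⁻¹ * x⁻¹ ∈ V ↔ x⁻¹ ∈ V := by
    constructor
    · intro h
      have h3 : x⁻¹ = u * (u⁻¹ * x⁻¹) := by rw [← mul_assoc, mul_inv_cancel₀ hu0, one_mul]
      rw [h3]
      exact V.mul_mem _ _ hu h
    · intro h
      exact V.mul_mem _ _ hu' h
  rw [h2]
  simp [hu0]

theorem tker_dom_unit {A K F : Type} [CommRing A] [Field K] [Field F] {τ : A →+* K}
    {ρ : A →+* F} {V : ValuationSubring K} (hV : DomR τ ρ V) {s : A} (hs : ρ s ≠ 0) :
    τ s ≠ 0 ∧ τ s ∈ V ∧ (τ s)⁻¹ ∈ V := by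
  have h1 := hV s
  have h2 : τ s ∉ V.nonunits := fun h => hs (h1.2.2 h)
  rw [tord_nonunits_iff] at h2
  push Not at h2
  exact ⟨h2.1, h1.1, h2.2 h1.1⟩

theorem domR_polyR_iff {A F K : Type} [CommRing A] [Field F] [Field K] (τ : A →+* K)
    (ρ : A →+* F) {a : F} {α β : A} (hβ : τ β ≠ 0) (hβ' : ρ β ≠ 0) (ha : ρ α = a * ρ β)
    (V : ValuationSubring K) :
    (DomR τ ρ V ↔ DomR (polyR τ (τ α / τ β)) (polyR ρ a) V) ∧
      (DomR τ ρ V → ∀ φ, IsRes τ ρ V φ ↔ IsRes (polyR τ (τ α / τ β)) (polyR ρ a) V φ) := by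
  have hrel : τ α = τ α / τ β * τ β := (div_mul_cancel₀ _ hβ).symm
  refine ⟨⟨fun hV f => ?_, fun hV b => ?_⟩, fun hV φ => ⟨fun hφ f b hb => ?_, fun hφ c b hb => ?_⟩⟩
  · obtain ⟨N, g, q, hf⟩ := tker_elim α β f
    have h1 := tker_eval τ hrel hf
    have h2 := tker_eval ρ ha hf
    obtain ⟨h3, h4, h5⟩ := tker_dom_unit hV hβ'
    have h6 := hV g
    rw [← h1, ← h2] at h6
    have h7 := tker_unit_mul (x := polyR τ (τ α / τ β) f) (pow_mem h4 N)
      (by rw [← inv_pow]; exact pow_mem h5 N) (pow_ne_zero N h3)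
    rw [h7.1, h7.2] at h6
    refine ⟨h6.1, ?_⟩
    rw [← h6.2, mul_eq_zero]
    exact ⟨fun h => Or.inr h, fun h => h.resolve_left (pow_ne_zero N hβ')⟩
  · have h1 := hV (C b)
    rw [polyR_C, polyR_C] at h1
    exact h1
  · obtain ⟨N, g, q, hf⟩ := tker_elim α β f
    have h1 := tker_eval τ hrel hf
    have h2 := tker_eval ρ ha hf
    have hβV := (hV β).1
    have hgV := (hV g).1
    have h3 : (⟨τ β, hβV⟩ : V) ^ N * b = ⟨τ g, hgV⟩ := by
      apply Subtype.ext
      change τ β ^ N * (b : K) = τ g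
      rw [hb, h1]
    have h4 := congrArg (IsLocalRing.residue V) h3
    rw [map_mul, map_pow, ← hφ β ⟨τ β, hβV⟩ rfl, ← hφ g ⟨τ g, hgV⟩ rfl, ← h2, map_mul,
      map_pow] at h4
    have h5 : φ (ρ β) ≠ 0 := fun h => hβ' ((map_eq_zero φ).1 h)
    exact (mul_left_cancel₀ (pow_ne_zero N h5) h4).symm
  · have h1 := hφ (C c) b
    rw [polyR_C, polyR_C] at h1
    exact h1 hb

end Pool.Agent.K1
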