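import Pool.Agent.K1.TDefs

/-!
Orders on a curve, computed on a closed subscheme which contains the curve.
-/

set_option autoImplicit false

open Polynomial

namespace Pool.Agent.K1

private theorem tq_ordPt_quot {k B F : Type} [Field k] [CommRing B] [Algebra k B] [Field F]
    (ρ : B →+* F) (Q : Ideal B) (hQ : Q ≤ RingHom.ker ρ) (ρ' : B ⧸ Q →+* F)
    (hρ' : ∀ b, ρ' (Ideal.Quotient.mk Q b) = ρ b) (σ : B →ₐ[k] k) (z : B ⧸ Q →ₐ[k] k)
    (hz : ∀ b, z (Ideal.Quotient.mk Q b) = σ b) (c : B) :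
    ordPt (RingHom.ker ρ) σ c = ordPt (RingHom.ker ρ') z (Ideal.Quotient.mk Q c) := by
  have hker : RingHom.ker σ = (RingHom.ker z).comap (Ideal.Quotient.mk Q) := by
    ext b
    rw [Ideal.mem_comap, RingHom.mem_ker, RingHom.mem_ker, hz]
  obtain ⟨f, hf⟩ : ∃ f : LocAt σ →+* LocAt z, f = Localization.localRingHom (RingHom.ker σ)
    (RingHom.ker z) (Ideal.Quotient.mk Q) hker := ⟨_, rfl⟩
  have hfa : ∀ b : B, f (algebraMap B (LocAt σ) b) =
      algebraMap (B ⧸ Q) (LocAt z) (Ideal.Quotient.mk Q b) := by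
    intro b
    rw [hf]
    exact Localization.localRingHom_to_map _ _ _ _ b
  have hsurj : Function.Surjective f := by
    intro y
    obtain ⟨⟨b', s'⟩, hy⟩ := IsLocalization.surj (RingHom.ker z).primeCompl y
    obtain ⟨b, rfl⟩ := Ideal.Quotient.mk_surjective b'
    obtain ⟨s, hs⟩ := Ideal.Quotient.mk_surjective (s' : B ⧸ Q)
    have hsσ : s ∉ RingHom.ker σ := by
      intro h
      rw [hker, Ideal.mem_comap, hs] at h
      exact s'.2 h
    have hu : IsUnit (algebraMap B (LocAt σ) s) :=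
      IsLocalization.map_units (LocAt σ) (⟨s, hsσ⟩ : (RingHom.ker σ).primeCompl)
    obtain ⟨u, hu'⟩ := hu
    refine ⟨algebraMap B (LocAt σ) b * ((u⁻¹ : (LocAt σ)ˣ) : LocAt σ), ?_⟩
    have h1 : f ((u : LocAt σ)) * f ((u⁻¹ : (LocAt σ)ˣ) : LocAt σ) = 1 := by
      rw [← map_mul, Units.mul_inv, map_one]
    have h2 : f ((u : LocAt σ)) = algebraMap (B ⧸ Q) (LocAt z) s' := by
      rw [hu', hfa, hs]
    rw [h2] at h1
    rw [map_mul, hfa]
    have h3 : y * algebraMap (B ⧸ Q) (LocAt z) s' =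
      algebraMap (B ⧸ Q) (LocAt z) (Ideal.Quotient.mk Q b) := hy
    rw [← h3, mul_assoc, h1, mul_one]
  have hkerf : RingHom.ker f ≤ (RingHom.ker ρ).map (algebraMap B (LocAt σ)) := by
    intro y hy
    obtain ⟨⟨b, s⟩, hbs⟩ := IsLocalization.surj (RingHom.ker σ).primeCompl y
    have hbs' : y * algebraMap B (LocAt σ) s = algebraMap B (LocAt σ) b := hbs
    have h1 : algebraMap (B ⧸ Q) (LocAt z) (Ideal.Quotient.mk Q b) = 0 := by
      rw [← hfa, ← hbs', map_mul, (RingHom.mem_ker).1 hy, zero_mul]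
    obtain ⟨⟨t', ht'⟩, ht⟩ := (IsLocalization.map_eq_zero_iff (RingHom.ker z).primeCompl
      (LocAt z) _).1 h1
    obtain ⟨t, rfl⟩ := Ideal.Quotient.mk_surjective t'
    have htb : t * b ∈ Q := by
      rw [← Ideal.Quotient.eq_zero_iff_mem, map_mul]
      exact ht
    have htσ : t ∉ RingHom.ker σ := by
      intro h
      rw [hker, Ideal.mem_comap] at h
      exact ht' h
    rw [loc_mem_map_iff]
    refine ⟨t * b, ⟨t, htσ⟩ * s, hQ htb, ?_⟩
    rw [Submonoid.coe_mul, map_mul, map_mul, ← hbs']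
    ring
  have hmap : ((RingHom.ker ρ).map (algebraMap B (LocAt σ)) ⊔
      Ideal.span {algebraMap B (LocAt σ) c}).map f =
      (RingHom.ker ρ').map (algebraMap (B ⧸ Q) (LocAt z)) ⊔
        Ideal.span {algebraMap (B ⧸ Q) (LocAt z) (Ideal.Quotient.mk Q c)} := by
    have h1 : (RingHom.ker ρ).map (Ideal.Quotient.mk Q) = RingHom.ker ρ' := by
      apply le_antisymm
      · rw [Ideal.map_le_iff_le_comap]
        intro b hb
        rw [Ideal.mem_comap, RingHom.mem_ker, hρ']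
        exact hb
      · intro b' hb'
        obtain ⟨b, rfl⟩ := Ideal.Quotient.mk_surjective b'
        apply Ideal.mem_map_of_mem
        rw [RingHom.mem_ker, ← hρ']
        exact hb'
    have h2 : f.comp (algebraMap B (LocAt σ)) =
        (algebraMap (B ⧸ Q) (LocAt z)).comp (Ideal.Quotient.mk Q) := RingHom.ext hfa
    rw [Ideal.map_sup, Ideal.map_map, Ideal.map_span, Set.image_singleton, h2, hfa,
      ← Ideal.map_map, h1]
  unfold ordPt lenP
  rw [Module.length_quotient, Module.length_quotient, ← hmap,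
    ← Ideal.coheight_comap_of_surjective f hsurj, Ideal.comap_map_of_surjective f hsurj]
  congr 1
  apply le_antisymm le_sup_left
  rw [sup_le_iff]
  refine ⟨le_rfl, ?_⟩
  intro y hy
  apply Ideal.mem_sup_left
  apply hkerf
  rw [RingHom.mem_ker]
  exact hy

/-- Passing to a quotient ring. -/
theorem isOrdR_quot {k B F : Type} [Field k] [CommRing B] [Algebra k B] [Field F]
    (ρ : B →+* F) (Q : Ideal B) (hQ : Q ≤ RingHom.ker ρ) (ρ' : B ⧸ Q →+* F)
    (hρ' : ∀ b, ρ' (Ideal.Quotient.mk Q b) = ρ b) (σ : B →ₐ[k] k) (z : B ⧸ Q →ₐ[k] k)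
    (hz : ∀ b, z (Ideal.Quotient.mk Q b) = σ b) (t : Fˣ) (n : ℤ) (h : IsOrdR ρ σ t n) :
    IsOrdR ρ' z t n := by
  obtain ⟨c, d, hc, hd, h1, h2⟩ := h
  refine ⟨Ideal.Quotient.mk Q c, Ideal.Quotient.mk Q d, ?_, ?_, ?_, ?_⟩
  · rw [hρ']
    exact hc
  · rw [hρ']
    exact hd
  · rw [hρ', hρ']
    exact h1
  · rw [← tq_ordPt_quot ρ Q hQ ρ' hρ' σ z hz, ← tq_ordPt_quot ρ Q hQ ρ' hρ' σ z hz]
    exact h2

end Pool.Agent.K1
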