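import Pool.Agent.K1.TDefs

/-!
K1-T-11b: the valuation ring of a curve at which the surface has a discrete valuation ring.
-/

set_option autoImplicit false

namespace Pool.Agent.K1

section tval

variable {A K F : Type} [CommRing A] [Field K] [Field F]

/-- The ideal of all `c` with `c π ^ n ∈ a R`. -/
def tvJ (τ : A →+* K) (ρ : A →+* F) (π a : A) (n : ℕ) : Ideal A where
  carrier := {c | ∃ s d : A, ρ s ≠ 0 ∧ τ (s * π ^ n * c) = τ (a * d)}
  zero_mem' := ⟨1, 0, by simp, by simp⟩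
  add_mem' := by
    rintro c c' ⟨s, d, hs, h⟩ ⟨s', d', hs', h'⟩
    refine ⟨s * s', s' * d + s * d', by rw [map_mul]; exact mul_ne_zero hs hs', ?_⟩
    have e1 : s * s' * π ^ n * (c + c') = s' * (s * π ^ n * c) + s * (s' * π ^ n * c') := by ring
    have e2 : a * (s' * d + s * d') = s' * (a * d) + s * (a * d') := by ring
    rw [e1, e2, map_add, map_add, map_mul, map_mul τ s', map_mul τ s, h, h', ← map_mul, ← map_mul]
  smul_mem' := by
    rintro r c ⟨s, d, hs, h⟩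
    refine ⟨s, r * d, hs, ?_⟩
    have e1 : s * π ^ n * (r • c) = r * (s * π ^ n * c) := by rw [smul_eq_mul]; ring
    have e2 : a * (r * d) = r * (a * d) := by ring
    rw [e1, e2, map_mul, map_mul τ r, h]

theorem tvJ_mono (τ : A →+* K) (ρ : A →+* F) (π a : A) : Monotone (tvJ τ ρ π a) := by
  refine monotone_nat_of_le_succ fun n => ?_
  rintro c ⟨s, d, hs, h⟩
  refine ⟨s, π * d, hs, ?_⟩
  have e1 : s * π ^ (n + 1) * c = π * (s * π ^ n * c) := by ring
  have e2 : a * (π * d) = π * (a * d) := by ring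
  rw [e1, e2, map_mul, map_mul τ π, h]

theorem tv_ne {τ : A →+* K} {ρ : A →+* F} (hle : RingHom.ker τ ≤ RingHom.ker ρ) {b : A}
    (hb : ρ b ≠ 0) : τ b ≠ 0 := fun h => hb (hle h)

/-- Every nonzero `τ a` is a power of `τ π` up to a unit. -/
theorem tv_factor (τ : A →+* K) (ρ : A →+* F) (hle : RingHom.ker τ ≤ RingHom.ker ρ)
    [IsNoetherianRing A] (π : A) (hπ : τ π ≠ 0) (hπ' : ρ π = 0)
    (hD : ∀ a : A, ρ a = 0 → ∃ b s : A, ρ s ≠ 0 ∧ τ (a * s) = τ (π * b)) (a : A) (ha : τ a ≠ 0) :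
    ∃ (n : ℕ) (s c : A), ρ s ≠ 0 ∧ ρ c ≠ 0 ∧ τ (a * s) = τ (π ^ n * c) := by
  classical
  obtain ⟨N, hN⟩ := monotone_stabilizes_iff_noetherian.2 ‹IsNoetherianRing A›
    ⟨tvJ τ ρ π a, tvJ_mono τ ρ π a⟩
  have hN1 : tvJ τ ρ π a N = tvJ τ ρ π a (N + 1) := hN (N + 1) (Nat.le_succ N)
  let P : ℕ → Prop := fun n => ∃ s c : A, ρ s ≠ 0 ∧ τ (a * s) = τ (π ^ n * c)
  have h0 : P 0 := ⟨1, a, by simp, by simp⟩
  have hnot : ¬ P (N + 1) := by
    rintro ⟨s, c, hs, h⟩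
    have hc : c ∈ tvJ τ ρ π a (N + 1) := ⟨1, s, by simp, by rw [one_mul, ← h]⟩
    rw [← hN1] at hc
    obtain ⟨s', d, hs', h'⟩ := hc
    have hτs := tv_ne hle hs
    have hcτ : τ c ≠ 0 := by
      intro h0
      have : τ (a * s) = 0 := by rw [h, map_mul, h0, mul_zero]
      rw [map_mul] at this
      exact (mul_ne_zero ha hτs) this
    -- τ s' * τ π ^ N * τ c = τ a * τ d and τ a * τ s = τ π ^ (N + 1) * τ c
    have h1 : τ (s' * s) = τ (π * d) := by
      rw [map_mul, map_mul, map_pow] at h'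
      rw [map_mul] at h'
      rw [map_mul, map_mul, map_pow] at h
      rw [map_mul, map_mul]
      have hne : τ π ^ N * τ c ≠ 0 := mul_ne_zero (pow_ne_zero _ hπ) hcτ
      apply mul_left_cancel₀ hne
      have : τ π ^ N * τ c * (τ s' * τ s) = (τ s' * τ π ^ N * τ c) * τ s := by ring
      rw [this, h']
      have : τ a * τ d * τ s = (τ a * τ s) * τ d := by ring
      rw [this, h]
      ring
    have h2 : ρ (s' * s) = 0 := by
      have : s' * s - π * d ∈ RingHom.ker τ := by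
        rw [RingHom.mem_ker, map_sub, h1, sub_self]
      have := hle this
      rw [RingHom.mem_ker, map_sub, map_mul ρ π, hπ', zero_mul, sub_zero] at this
      exact this
    rw [map_mul] at h2
    exact mul_ne_zero hs' hs h2
  have hex : ∃ n, ¬ P n := ⟨N + 1, hnot⟩
  obtain ⟨n, hn⟩ : ∃ n, Nat.find hex = n + 1 := by
    rcases Nat.exists_eq_succ_of_ne_zero (n := Nat.find hex) (by
      intro h
      have := Nat.find_spec hex
      rw [h] at this
      exact this h0) with ⟨n, hn⟩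
    exact ⟨n, hn⟩
  have hPn : P n := by
    by_contra h
    have := Nat.find_min' hex h
    omega
  have hPn1 : ¬ P (n + 1) := by
    have := Nat.find_spec hex
    rwa [hn] at this
  obtain ⟨s, c, hs, h⟩ := hPn
  refine ⟨n, s, c, hs, ?_, h⟩
  intro hc
  obtain ⟨b, s', hs', h'⟩ := hD c hc
  apply hPn1
  refine ⟨s * s', b, by rw [map_mul]; exact mul_ne_zero hs hs', ?_⟩
  have e1 : a * (s * s') = (a * s) * s' := by ring
  have e2 : π ^ (n + 1) * b = π ^ n * (π * b) := by ring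
  rw [e1, e2, map_mul τ (a * s), h, map_mul, map_mul, ← h', map_mul τ c]
  ring

/-- The subring of all `τ a / τ b` with `ρ b ≠ 0`. -/
def tvRing (τ : A →+* K) (ρ : A →+* F) : Subring K where
  carrier := {x | ∃ a b : A, ρ b ≠ 0 ∧ x * τ b = τ a}
  zero_mem' := ⟨0, 1, by simp, by simp⟩
  one_mem' := ⟨1, 1, by simp, by simp⟩
  add_mem' := by
    rintro x y ⟨a, b, hb, h⟩ ⟨a', b', hb', h'⟩
    refine ⟨a * b' + a' * b, b * b', by rw [map_mul]; exact mul_ne_zero hb hb', ?_⟩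
    rw [map_mul, map_add, map_mul, map_mul, ← h, ← h']
    ring
  mul_mem' := by
    rintro x y ⟨a, b, hb, h⟩ ⟨a', b', hb', h'⟩
    refine ⟨a * a', b * b', by rw [map_mul]; exact mul_ne_zero hb hb', ?_⟩
    rw [map_mul, map_mul, ← h, ← h']
    ring
  neg_mem' := by
    rintro x ⟨a, b, hb, h⟩
    exact ⟨-a, b, hb, by rw [map_neg, ← h]; ring⟩

theorem tv_mem_or {τ : A →+* K} (hτ : IsFrac τ) {ρ : A →+* F}
    (hle : RingHom.ker τ ≤ RingHom.ker ρ) {π : A} (hπ : τ π ≠ 0)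
    (hfac : ∀ a : A, τ a ≠ 0 →
      ∃ (n : ℕ) (s c : A), ρ s ≠ 0 ∧ ρ c ≠ 0 ∧ τ (a * s) = τ (π ^ n * c)) (x : K) (hx : x ≠ 0) :
    ∃ (n : ℤ) (s c : A), ρ s ≠ 0 ∧ ρ c ≠ 0 ∧ x * τ s = τ π ^ n * τ c := by
  obtain ⟨a, b, hb, h⟩ := hτ x
  have ha : τ a ≠ 0 := by rw [← h]; exact mul_ne_zero hx hb
  obtain ⟨n, s, c, hs, hc, h1⟩ := hfac a ha
  obtain ⟨n', s', c', hs', hc', h1'⟩ := hfac b hb
  refine ⟨(n : ℤ) - n', s * c', c * s', by rw [map_mul]; exact mul_ne_zero hs hc',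
    by rw [map_mul]; exact mul_ne_zero hc hs', ?_⟩
  rw [map_mul, map_mul, map_pow] at h1 h1'
  rw [zpow_sub₀ hπ, zpow_natCast, zpow_natCast, map_mul, map_mul]
  have hne : τ π ^ n' ≠ 0 := pow_ne_zero _ hπ
  field_simp
  linear_combination (-(x * τ s)) * h1' + τ s * τ s' * h + τ s' * h1

/-- The valuation ring of all `τ a / τ b` with `ρ b ≠ 0`. -/
def tvV {τ : A →+* K} (hτ : IsFrac τ) {ρ : A →+* F}
    (hle : RingHom.ker τ ≤ RingHom.ker ρ) {π : A} (hπ : τ π ≠ 0)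
    (hfac : ∀ a : A, τ a ≠ 0 →
      ∃ (n : ℕ) (s c : A), ρ s ≠ 0 ∧ ρ c ≠ 0 ∧ τ (a * s) = τ (π ^ n * c)) :
    ValuationSubring K where
  toSubring := tvRing τ ρ
  mem_or_inv_mem' := by
    intro x
    by_cases hx : x = 0
    · left; rw [hx]; exact (tvRing τ ρ).zero_mem
    obtain ⟨n, s, c, hs, hc, h⟩ := tv_mem_or hτ hle hπ hfac x hx
    have hτs := tv_ne hle hs
    have hτc := tv_ne hle hc
    rcases le_total 0 n with hn | hn
    · left
      obtain ⟨m, rfl⟩ := Int.eq_ofNat_of_zero_le hn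
      refine ⟨π ^ m * c, s, hs, ?_⟩
      rw [h, map_mul, map_pow]
      simp
    · right
      obtain ⟨m, hm⟩ := Int.eq_ofNat_of_zero_le (neg_nonneg.2 hn)
      have hnm : n = -(m : ℤ) := by omega
      refine ⟨π ^ m * s, c, hc, ?_⟩
      rw [hnm, zpow_neg, zpow_natCast] at h
      rw [map_mul, map_pow]
      have hne : τ π ^ m ≠ 0 := pow_ne_zero _ hπ
      field_simp at h ⊢
      linear_combination (-1 : K) * h

theorem mem_tvV {τ : A →+* K} (hτ : IsFrac τ) {ρ : A →+* F}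
    (hle : RingHom.ker τ ≤ RingHom.ker ρ) {π : A} (hπ : τ π ≠ 0)
    (hfac : ∀ a : A, τ a ≠ 0 →
      ∃ (n : ℕ) (s c : A), ρ s ≠ 0 ∧ ρ c ≠ 0 ∧ τ (a * s) = τ (π ^ n * c)) (x : K) :
    x ∈ tvV hτ hle hπ hfac ↔ ∃ a b : A, ρ b ≠ 0 ∧ x * τ b = τ a := Iff.rfl

theorem mem_tvV_nonunits {τ : A →+* K} (hτ : IsFrac τ) {ρ : A →+* F}
    (hle : RingHom.ker τ ≤ RingHom.ker ρ) {π : A} (hπ : τ π ≠ 0)
    (hfac : ∀ a : A, τ a ≠ 0 →
      ∃ (n : ℕ) (s c : A), ρ s ≠ 0 ∧ ρ c ≠ 0 ∧ τ (a * s) = τ (π ^ n * c)) (x : K) :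
    x ∈ (tvV hτ hle hπ hfac).nonunits ↔ ∃ a b : A, ρ b ≠ 0 ∧ ρ a = 0 ∧ x * τ b = τ a := by
  rw [ValuationSubring.mem_nonunits_iff_or]
  constructor
  · rintro (rfl | hx)
    · exact ⟨0, 1, by simp, by simp, by simp⟩
    · have hx0 : x ≠ 0 := by
        rintro rfl
        apply hx
        rw [inv_zero]
        exact (tvV hτ hle hπ hfac).zero_mem
      have hxV : x ∈ tvV hτ hle hπ hfac := by
        rcases (tvV hτ hle hπ hfac).mem_or_inv_mem x with h | h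
        · exact h
        · exact absurd h hx
      obtain ⟨a, b, hb, h⟩ := hxV
      refine ⟨a, b, hb, ?_, h⟩
      by_contra ha
      apply hx
      refine ⟨b, a, ha, ?_⟩
      rw [← h]
      field_simp
  · rintro ⟨a, b, hb, ha, h⟩
    by_cases hx0 : x = 0
    · left; exact hx0
    right
    rintro ⟨a', b', hb', h'⟩
    -- x * τ b = τ a, x⁻¹ * τ b' = τ a'
    have h1 : τ (b * b') = τ (a * a') := by
      rw [map_mul, map_mul, ← h, ← h']
      field_simp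
    have h2 : ρ (b * b') = 0 := by
      have : b * b' - a * a' ∈ RingHom.ker τ := by
        rw [RingHom.mem_ker, map_sub, h1, sub_self]
      have := hle this
      rw [RingHom.mem_ker, map_sub, map_mul ρ a, ha, zero_mul, sub_zero] at this
      exact this
    rw [map_mul] at h2
    exact mul_ne_zero hb hb' h2

theorem tvV_domR {τ : A →+* K} (hτ : IsFrac τ) {ρ : A →+* F}
    (hle : RingHom.ker τ ≤ RingHom.ker ρ) {π : A} (hπ : τ π ≠ 0)
    (hfac : ∀ a : A, τ a ≠ 0 →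
      ∃ (n : ℕ) (s c : A), ρ s ≠ 0 ∧ ρ c ≠ 0 ∧ τ (a * s) = τ (π ^ n * c)) :
    DomR τ ρ (tvV hτ hle hπ hfac) := by
  intro a
  refine ⟨⟨a, 1, by simp, by simp⟩, ?_⟩
  rw [mem_tvV_nonunits]
  constructor
  · intro ha
    exact ⟨a, 1, by simp, ha, by simp⟩
  · rintro ⟨a', b, hb, ha', h⟩
    have h2 : ρ (a * b) = 0 := by
      have : a * b - a' ∈ RingHom.ker τ := by
        rw [RingHom.mem_ker, map_sub, map_mul, h, sub_self]
      have := hle this
      rw [RingHom.mem_ker, map_sub, ha', sub_zero] at this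
      exact this
    rw [map_mul] at h2
    exact (mul_eq_zero.1 h2).resolve_right hb

theorem tv_unit {τ : A →+* K} (hτ : IsFrac τ) {ρ : A →+* F}
    (hle : RingHom.ker τ ≤ RingHom.ker ρ) {π : A} (hπ : τ π ≠ 0)
    (hfac : ∀ a : A, τ a ≠ 0 →
      ∃ (n : ℕ) (s c : A), ρ s ≠ 0 ∧ ρ c ≠ 0 ∧ τ (a * s) = τ (π ^ n * c)) {s c : A}
    (hs : ρ s ≠ 0) (hc : ρ c ≠ 0) :
    ∃ u : Kˣ, UnitIn (tvV hτ hle hπ hfac) u ∧ (u : K) * τ s = τ c := by
  have hτs := tv_ne hle hs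
  have hτc := tv_ne hle hc
  refine ⟨Units.mk0 (τ c / τ s) (div_ne_zero hτc hτs), ⟨⟨c, s, hs, ?_⟩, ⟨s, c, hc, ?_⟩⟩, ?_⟩
  · rw [Units.val_mk0]; field_simp
  · rw [Units.val_inv_eq_inv_val, Units.val_mk0]; field_simp
  · rw [Units.val_mk0]; field_simp

theorem tvV_disc {τ : A →+* K} (hτ : IsFrac τ) {ρ : A →+* F}
    (hle : RingHom.ker τ ≤ RingHom.ker ρ) {π : A} (hπ : τ π ≠ 0) (hπ' : ρ π = 0)
    (hD : ∀ a : A, ρ a = 0 → ∃ b s : A, ρ s ≠ 0 ∧ τ (a * s) = τ (π * b))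
    (hfac : ∀ a : A, τ a ≠ 0 →
      ∃ (n : ℕ) (s c : A), ρ s ≠ 0 ∧ ρ c ≠ 0 ∧ τ (a * s) = τ (π ^ n * c)) :
    IsDiscV (tvV hτ hle hπ hfac) := by
  refine ⟨τ π, ⟨hπ, fun x => ?_⟩, fun t ht => ?_⟩
  · rw [mem_tvV_nonunits]
    constructor
    · rintro ⟨a, b, hb, ha, h⟩
      obtain ⟨b', s, hs, h'⟩ := hD a ha
      have hτb := tv_ne hle hb
      have hτs := tv_ne hle hs
      refine ⟨τ b' / (τ b * τ s), ⟨b', b * s, by rw [map_mul]; exact mul_ne_zero hb hs, ?_⟩, ?_⟩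
      · rw [map_mul]; field_simp
      · rw [map_mul, map_mul] at h'
        field_simp
        linear_combination τ s * h + h'
    · rintro ⟨c, ⟨a, b, hb, h⟩, rfl⟩
      refine ⟨π * a, b, hb, by rw [map_mul, hπ', zero_mul], ?_⟩
      rw [map_mul, ← h]; ring
  · obtain ⟨n, s, c, hs, hc, h⟩ := tv_mem_or hτ hle hπ hfac t ht
    obtain ⟨u, hu, hus⟩ := tv_unit hτ hle hπ hfac hs hc
    refine ⟨n, u, hu, ?_⟩
    apply mul_right_cancel₀ (tv_ne hle hs)
    rw [h, mul_assoc, hus]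

theorem tvV_unique {τ : A →+* K} (hτ : IsFrac τ) {ρ : A →+* F}
    (hle : RingHom.ker τ ≤ RingHom.ker ρ) {π : A} (hπ : τ π ≠ 0)
    (hfac : ∀ a : A, τ a ≠ 0 →
      ∃ (n : ℕ) (s c : A), ρ s ≠ 0 ∧ ρ c ≠ 0 ∧ τ (a * s) = τ (π ^ n * c))
    (V' : ValuationSubring K) (hV' : DomR τ ρ V') : V' = tvV hτ hle hπ hfac := by
  have key : ∀ b : A, ρ b ≠ 0 → (τ b)⁻¹ ∈ V' := by
    intro b hb
    by_contra h
    have h1 : τ b ∈ V'.nonunits := V'.mem_nonunits_iff_or.2 (Or.inr h)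
    exact hb ((hV' b).2.2 h1)
  ext x
  constructor
  · intro hx
    by_contra hxV
    have hx0 : x ≠ 0 := by
      rintro rfl
      exact hxV (tvV hτ hle hπ hfac).zero_mem
    have h1 : x⁻¹ ∈ (tvV hτ hle hπ hfac).nonunits :=
      (tvV hτ hle hπ hfac).inv_mem_nonunits_iff.2 (Or.inr hxV)
    rw [mem_tvV_nonunits] at h1
    obtain ⟨a, b, hb, ha, h⟩ := h1
    have h2 : (τ b)⁻¹ ∈ V' := key b hb
    have h3 : τ a ∈ V'.nonunits := (hV' a).2.1 ha
    have hτb := tv_ne hle hb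
    have hτa : τ a ≠ 0 := by rw [← h]; exact mul_ne_zero (inv_ne_zero hx0) hτb
    rw [ValuationSubring.mem_nonunits_iff_or] at h3
    rcases h3 with h3 | h3
    · exact hτa h3
    · apply h3
      have : (τ a)⁻¹ = x * (τ b)⁻¹ := by
        rw [← h]; field_simp
      rw [this]
      exact V'.mul_mem _ _ hx h2
  · rintro ⟨a, b, hb, h⟩
    have hτb := tv_ne hle hb
    have : x = τ a * (τ b)⁻¹ := by rw [← h]; field_simp
    rw [this]
    exact V'.mul_mem _ _ (hV' a).1 (key b hb)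

/-- The map to the function field of the curve, as a relation. -/
theorem tv_wd {τ : A →+* K} {ρ : A →+* F} (hle : RingHom.ker τ ≤ RingHom.ker ρ) {x : K}
    {a b a' b' : A} (hb : ρ b ≠ 0) (h : x * τ b = τ a) (hb' : ρ b' ≠ 0) (h' : x * τ b' = τ a') :
    ρ a / ρ b = ρ a' / ρ b' := by
  have h1 : a * b' - a' * b ∈ RingHom.ker τ := by
    rw [RingHom.mem_ker, map_sub, map_mul, map_mul, ← h, ← h']; ring
  have h2 := hle h1
  rw [RingHom.mem_ker, map_sub, map_mul, map_mul] at h2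
  rw [div_eq_div_iff hb hb']
  exact sub_eq_zero.1 h2

theorem exists_tvRes {τ : A →+* K} (hτ : IsFrac τ) {ρ : A →+* F} (hρ : IsFrac ρ)
    (hle : RingHom.ker τ ≤ RingHom.ker ρ) {π : A} (hπ : τ π ≠ 0)
    (hfac : ∀ a : A, τ a ≠ 0 →
      ∃ (n : ℕ) (s c : A), ρ s ≠ 0 ∧ ρ c ≠ 0 ∧ τ (a * s) = τ (π ^ n * c)) :
    ∃ φ : F →+* IsLocalRing.ResidueField (tvV hτ hle hπ hfac),
      IsRes τ ρ (tvV hτ hle hπ hfac) φ ∧ Function.Bijective φ := by
  classical
  have hV : ∀ x : tvV hτ hle hπ hfac, ∃ a b : A, ρ b ≠ 0 ∧ (x : K) * τ b = τ a := fun x => x.2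
  choose na nb hnb hnab using hV
  let f : tvV hτ hle hπ hfac → F := fun x => ρ (na x) / ρ (nb x)
  have hf : ∀ (x : tvV hτ hle hπ hfac) (a b : A), ρ b ≠ 0 → (x : K) * τ b = τ a →
      f x = ρ a / ρ b := fun x a b hb h => tv_wd hle (hnb x) (hnab x) hb h
  let ψ : tvV hτ hle hπ hfac →+* F :=
    { toFun := f
      map_one' := by rw [hf 1 1 1 (by simp) (by simp)]; simp
      map_zero' := by rw [hf 0 0 1 (by simp) (by simp)]; simp
      map_mul' := by
        intro x y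
        rw [hf (x * y) (na x * na y) (nb x * nb y)
          (by rw [map_mul]; exact mul_ne_zero (hnb x) (hnb y))
          (by
            rw [map_mul, map_mul, ← hnab, ← hnab]
            change (x : K) * (y : K) * _ = _
            ring)]
        change _ = ρ (na x) / ρ (nb x) * (ρ (na y) / ρ (nb y))
        rw [map_mul, map_mul, div_mul_div_comm]
      map_add' := by
        intro x y
        rw [hf (x + y) (na x * nb y + na y * nb x) (nb x * nb y)
          (by rw [map_mul]; exact mul_ne_zero (hnb x) (hnb y))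
          (by
            rw [map_mul, map_add, map_mul, map_mul, ← hnab, ← hnab]
            change ((x : K) + (y : K)) * _ = _
            ring)]
        change _ = ρ (na x) / ρ (nb x) + ρ (na y) / ρ (nb y)
        rw [map_mul, map_add, map_mul, map_mul, div_add_div _ _ (hnb x) (hnb y)]
        ring }
  have hψ : ∀ (x : tvV hτ hle hπ hfac) (a b : A), ρ b ≠ 0 → (x : K) * τ b = τ a →
      ψ x = ρ a / ρ b := hf
  have hloc : IsLocalHom ψ := by
    constructor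
    intro x hx
    by_contra hnu
    have h1 : (x : K) ∈ (tvV hτ hle hπ hfac).nonunits :=
      ValuationSubring.coe_mem_nonunits_iff.2 ((IsLocalRing.mem_maximalIdeal x).2 hnu)
    rw [mem_tvV_nonunits] at h1
    obtain ⟨a, b, hb, ha, h⟩ := h1
    rw [hψ x a b hb h, ha, zero_div] at hx
    exact not_isUnit_zero hx
  let Ψ := IsLocalRing.ResidueField.lift ψ
  have hΨ : ∀ x, Ψ (IsLocalRing.residue _ x) = ψ x := fun x => rfl
  have hbij : Function.Bijective Ψ := by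
    refine ⟨Ψ.injective, fun y => ?_⟩
    obtain ⟨a, b, hb, h⟩ := hρ y
    have hτb := tv_ne hle hb
    have hx : τ a / τ b ∈ tvV hτ hle hπ hfac := ⟨a, b, hb, by field_simp⟩
    refine ⟨IsLocalRing.residue _ ⟨τ a / τ b, hx⟩, ?_⟩
    rw [hΨ, hψ ⟨τ a / τ b, hx⟩ a b hb (by field_simp), ← h]
    field_simp
  let e := RingEquiv.ofBijective Ψ hbij
  refine ⟨e.symm.toRingHom, ?_, e.symm.bijective⟩
  intro a b hab
  have h1 : e (IsLocalRing.residue _ b) = ρ a := by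
    change ψ b = ρ a
    rw [hψ b a 1 (by simp) (by rw [hab]; simp)]
    simp
  change e.symm (ρ a) = _
  rw [← h1, RingEquiv.symm_apply_apply]

end tval

/-- The valuation ring of a curve at which the surface has a discrete valuation ring. -/
theorem exists_unique_val {A K F : Type} [CommRing A] [Field K] [Field F] (τ : A →+* K)
    (hτ : IsFrac τ) (ρ : A →+* F) (hρ : IsFrac ρ) (hle : RingHom.ker τ ≤ RingHom.ker ρ)
    (hD : ∃ π : A, τ π ≠ 0 ∧ ρ π = 0 ∧ ∀ a : A, ρ a = 0 →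
      ∃ b s : A, ρ s ≠ 0 ∧ τ (a * s) = τ (π * b)) [IsNoetherianRing A] :
    ∃ V : ValuationSubring K, DomR τ ρ V ∧ IsDiscV V ∧ (∀ V', DomR τ ρ V' → V' = V) ∧
      ∃ φ : F →+* IsLocalRing.ResidueField V, IsRes τ ρ V φ ∧ Function.Bijective φ := by
  obtain ⟨π, hπ, hπ', hD⟩ := hD
  have hfac := tv_factor τ ρ hle π hπ hπ' hD
  exact ⟨tvV hτ hle hπ hfac, tvV_domR hτ hle hπ hfac, tvV_disc hτ hle hπ hπ' hD hfac,
    tvV_unique hτ hle hπ hfac, exists_tvRes hτ hρ hle hπ hfac⟩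

end Pool.Agent.K1
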