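import Pool.Agent.K1.TPlaceThy
import Pool.Agent.K1.TOrd
import Pool.Agent.K1.TPoly
import Pool.Agent.K1.TDvr
import Pool.Agent.K1.TClass
import Pool.Agent.K1.TBirat
import Pool.Agent.K1.TKernel
import Pool.Agent.K1.TVal
import Pool.Agent.K1.TLine
import Pool.Agent.K1.TCurveFn
import Pool.Agent.K1.TQuot
import Pool.Agent.K1.TClassFacts

/-!
The surface through given curves (in dimension at least three): one class of curves.
-/

set_option autoImplicit false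

open Polynomial

namespace Pool.Agent.K1

section general

/-- The dimension of an affine domain is the transcendence degree of its fraction field. -/
theorem cm_dim {k R K : Type} [Field k] [CommRing R] [Algebra k R] [Algebra.FiniteType k R]
    [Field K] [Algebra k K] (τ : R →+* K) (hτ : IsFrac τ)
    (hk : ∀ c, τ (algebraMap k R c) = algebraMap k K c) (Q : Ideal R)
    (hQ : RingHom.ker τ = Q) :
    ∃ s : ℕ, ringKrullDim (R ⧸ Q) = s ∧ Algebra.trdeg k K = s := by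
  subst hQ
  have hpr : (RingHom.ker τ).IsPrime := RingHom.ker_isPrime τ
  let _ : Algebra (R ⧸ RingHom.ker τ) K := (RingHom.kerLift τ).toAlgebra
  have hmap : ∀ a, algebraMap (R ⧸ RingHom.ker τ) K (Ideal.Quotient.mk _ a) = τ a := fun a => rfl
  have hst : IsScalarTower k (R ⧸ RingHom.ker τ) K := by
    apply IsScalarTower.of_algebraMap_eq
    intro c
    rw [← hk c, ← hmap]
    rfl
  have hinj : Function.Injective (algebraMap (R ⧸ RingHom.ker τ) K) := RingHom.kerLift_injective τ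
  have hfs : FaithfulSMul (R ⧸ RingHom.ker τ) K :=
    (faithfulSMul_iff_algebraMap_injective _ _).mpr hinj
  have hfr : IsFractionRing (R ⧸ RingHom.ker τ) K := by
    apply IsFractionRing.of_field
    intro z
    obtain ⟨a, b, hb, hab⟩ := hτ z
    exact ⟨Ideal.Quotient.mk _ a, Ideal.Quotient.mk _ b, by rw [hmap, hmap, eq_div_iff hb, hab]⟩
  obtain ⟨s, -, h2, h3⟩ := L2R_key (k := k) (A := R ⧸ RingHom.ker τ)
  refine ⟨s, h2, ?_⟩
  have halg : Algebra.IsAlgebraic (R ⧸ RingHom.ker τ) K :=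
    IsLocalization.isAlgebraic _ (nonZeroDivisors (R ⧸ RingHom.ker τ))
  have h4 := trdeg_add_eq (R := k) (S := R ⧸ RingHom.ker τ) (A := K)
  rw [_root_.trdeg_eq_zero (R := R ⧸ RingHom.ker τ) (A := K), add_zero, h3] at h4
  exact h4.symm

theorem cm_field {A : Type} [CommRing A] (P : Ideal A) [P.IsPrime] :
    ∃ (K : Type) (_ : Field K) (τ : A →+* K), IsFrac τ ∧ RingHom.ker τ = P := by
  have hinj := IsFractionRing.injective (A ⧸ P) (FractionRing (A ⧸ P))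
  refine ⟨FractionRing (A ⧸ P), inferInstance,
    (algebraMap (A ⧸ P) (FractionRing (A ⧸ P))).comp (Ideal.Quotient.mk P), fun f => ?_, ?_⟩
  · obtain ⟨⟨a, b⟩, hab⟩ := IsLocalization.surj (nonZeroDivisors (A ⧸ P)) f
    obtain ⟨a, rfl⟩ := Ideal.Quotient.mk_surjective a
    obtain ⟨b', hb'⟩ := Ideal.Quotient.mk_surjective (b : A ⧸ P)
    refine ⟨a, b', ?_, ?_⟩
    · rw [RingHom.comp_apply, hb', ne_eq, map_eq_zero_iff _ hinj]
      exact nonZeroDivisors.coe_ne_zero b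
    · rw [RingHom.comp_apply, RingHom.comp_apply, hb']
      exact hab
  · ext a
    rw [RingHom.mem_ker, RingHom.comp_apply, map_eq_zero_iff _ hinj,
      Ideal.Quotient.eq_zero_iff_mem]

theorem cm_dimquot {B F : Type} [CommRing B] [Field F] (ρ : B →+* F) (Q : Ideal B)
    (ρ' : B ⧸ Q →+* F) (hρ' : ∀ b, ρ' (Ideal.Quotient.mk Q b) = ρ b) :
    ringKrullDim ((B ⧸ Q) ⧸ RingHom.ker ρ') = ringKrullDim (B ⧸ RingHom.ker ρ) := by
  have hr : ρ'.range = ρ.range := by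
    ext f
    constructor
    · rintro ⟨b, rfl⟩
      obtain ⟨b, rfl⟩ := Ideal.Quotient.mk_surjective b
      exact ⟨b, (hρ' b).symm⟩
    · rintro ⟨b, rfl⟩
      exact ⟨Ideal.Quotient.mk Q b, hρ' b⟩
  exact ringKrullDim_eq_of_ringEquiv (((RingHom.quotientKerEquivRange ρ').trans
    (RingEquiv.subringCongr hr)).trans (RingHom.quotientKerEquivRange ρ).symm)

theorem cm_fraction {B K : Type} [CommRing B] [Field K] (τ : B →+* K) (hτ : IsFrac τ)
    (Q : Ideal B) (hQ : RingHom.ker τ = Q) [Algebra (B ⧸ Q) K]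
    (hmap : ∀ a, algebraMap (B ⧸ Q) K (Ideal.Quotient.mk Q a) = τ a) :
    IsFractionRing (B ⧸ Q) K := by
  have hinj : Function.Injective (algebraMap (B ⧸ Q) K) := by
    rw [injective_iff_map_eq_zero]
    intro b hb
    obtain ⟨b, rfl⟩ := Ideal.Quotient.mk_surjective b
    rw [hmap] at hb
    rw [Ideal.Quotient.eq_zero_iff_mem, ← hQ]
    exact hb
  have hfs : FaithfulSMul (B ⧸ Q) K := (faithfulSMul_iff_algebraMap_injective _ _).mpr hinj
  apply IsFractionRing.of_field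
  intro z
  obtain ⟨a, b, hb, hab⟩ := hτ z
  exact ⟨Ideal.Quotient.mk _ a, Ideal.Quotient.mk _ b, by rw [hmap, hmap, eq_div_iff hb, hab]⟩

theorem cm_domR {B K F : Type} [CommRing B] [Field K] [Field F] (τ : B →+* K) (ρ : B →+* F)
    (Q : Ideal B) (τ' : B ⧸ Q →+* K) (hτ' : ∀ b, τ' (Ideal.Quotient.mk Q b) = τ b)
    (ρ' : B ⧸ Q →+* F) (hρ' : ∀ b, ρ' (Ideal.Quotient.mk Q b) = ρ b) (V : ValuationSubring K) :
    (DomR τ' ρ' V ↔ DomR τ ρ V) ∧ ∀ φ, IsRes τ' ρ' V φ ↔ IsRes τ ρ V φ := by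
  refine ⟨⟨fun h b => ?_, fun h b => ?_⟩, fun φ => ⟨fun h b b' hb => ?_, fun h b b' hb => ?_⟩⟩
  · have h1 := h (Ideal.Quotient.mk Q b)
    rwa [hτ', hρ'] at h1
  · obtain ⟨b, rfl⟩ := Ideal.Quotient.mk_surjective b
    rw [hτ', hρ']
    exact h b
  · have h1 := h (Ideal.Quotient.mk Q b) b' (by rw [hτ', hb])
    rwa [hρ'] at h1
  · obtain ⟨b, rfl⟩ := Ideal.Quotient.mk_surjective b
    rw [hτ'] at hb
    rw [hρ']
    exact h b b' hb

theorem cm_pi {B K F : Type} [CommRing B] [Field K] [Field F] (τ : B →+* K) (ρ : B →+* F)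
    (Q : Ideal B) [Q.IsPrime] (hQ : RingHom.ker τ = Q) (hle : Q ≤ RingHom.ker ρ)
    (ρ' : B ⧸ Q →+* F) (hρ' : ∀ b, ρ' (Ideal.Quotient.mk Q b) = ρ b)
    (hD : haveI := RingHom.ker_isPrime ρ'
      IsDiscreteValuationRing (Localization.AtPrime (RingHom.ker ρ'))) :
    ∃ π : B, τ π ≠ 0 ∧ ρ π = 0 ∧ ∀ a : B, ρ a = 0 →
      ∃ b s : B, ρ s ≠ 0 ∧ τ (a * s) = τ (π * b) := by
  subst hQ
  have hpr := RingHom.ker_isPrime ρ'
  refine exists_pi_of_dvr τ ρ hle (RingHom.ker ρ') (fun a => ?_) hD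
  rw [RingHom.mem_ker, hρ']

theorem cm_centred {k B F : Type} [Field k] [CommRing B] [Algebra k B] [Field F] (ρ : B →+* F)
    (Q : Ideal B) (ρ' : B ⧸ Q →+* F) (hρ' : ∀ b, ρ' (Ideal.Quotient.mk Q b) = ρ b)
    (σ : B →ₐ[k] k) (z : B ⧸ Q →ₐ[k] k) (hz : ∀ b, z (Ideal.Quotient.mk Q b) = σ b)
    (v : ValuationSubring F) (h : CentredAt ρ v σ) : CentredAt ρ' v z := by
  intro b
  obtain ⟨b, rfl⟩ := Ideal.Quotient.mk_surjective b
  rw [hρ', hz]
  exact h b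

end general

section orders

variable {k A : Type} [Field k] [CommRing A] [Algebra k A] {ι : Type} [Finite ι]
  {F : ι → Type} [∀ x, Field (F x)] {ρ : ∀ x, A →+* F x} {h : ∀ x, (F x)ˣ}

/-- The orders along the line over `y`. -/
theorem cm_divisor (hP : ∀ x, PlaceThy k (ρ x))
    (hcyc : ∀ z : A →ₐ[k] k, ∃ m : ι →₀ ℤ,
      (∀ x, IsOrdR (ρ x) z (h x) (m x)) ∧ m.sum (fun _ a => a) = 0)
    (T : TBlock (k := k) ρ h) (y : A →ₐ[k] k) (hy : y ∈ T.Y) :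
    ∃ e : k →₀ ℤ, e.sum (fun _ n => n) = 0 ∧
      (∀ x v, T.Special x v y → e (T.c x v) = - ordV v (h x : F x)) ∧
      ∀ c, (∀ x v, T.Special x v y → c ≠ T.c x v) → e c = 0 := by
  classical
  have hfι : Fintype ι := Fintype.ofFinite ι
  have hfin : ∀ x, {v : ValuationSubring (F x) | T.Special x v y}.Finite := fun x =>
    ((hP x).fin_ctr y).subset (fun v hv => ⟨hv.2.1, hv.2.2.1⟩)
  let S : Finset (Σ x, ValuationSubring (F x)) := Finset.univ.sigma (fun x => (hfin x).toFinset)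
  have hS : ∀ q, q ∈ S ↔ T.Special q.1 q.2 y := by
    intro q
    simp only [S, Finset.mem_sigma, Finset.mem_univ, true_and, Set.Finite.mem_toFinset,
      Set.mem_ofPred_eq]
  have hsum : ∑ q ∈ S, ordV q.2 (h q.1 : F q.1) = 0 := by
    obtain ⟨m, hm1, hm2⟩ := hcyc y
    rw [Finset.sum_sigma]
    rw [Finsupp.sum_fintype _ _ (fun _ => rfl)] at hm2
    rw [← hm2]
    refine Finset.sum_congr rfl (fun x _ => ?_)
    rw [((hP x).ord y (h x) (m x)).1 (hm1 x)]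
    symm
    apply finsum_mem_eq_sum_of_inter_support_eq
    ext v
    simp only [Set.mem_inter_iff, Set.mem_ofPred_eq, Function.mem_support, Set.Finite.coe_toFinset]
    constructor
    · rintro ⟨⟨h1, h2⟩, h3⟩
      refine ⟨⟨hy, h1, h2, fun hu => h3 ?_⟩, h3⟩
      exact (unitIn_iff_ordV ((hP x).disc v h1 (fun a => (h2 a).1)) (h x)).1 hu
    · rintro ⟨⟨_, h1, h2, _⟩, h3⟩
      exact ⟨⟨h1, h2⟩, h3⟩
  refine ⟨∑ q ∈ S, Finsupp.single (T.c q.1 q.2) (- ordV q.2 (h q.1 : F q.1)), ?_, ?_, ?_⟩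
  · rw [← Finsupp.sum_finsetSum_index (h := fun _ n => n) (fun _ => rfl) (fun _ _ _ => rfl)]
    have h1 : ∀ q ∈ S, (Finsupp.single (T.c q.1 q.2) (- ordV q.2 (h q.1 : F q.1))).sum
        (fun _ n => n) = - ordV q.2 (h q.1 : F q.1) := by
      intro q _
      rw [Finsupp.sum_single_index rfl]
    rw [Finset.sum_congr rfl h1, Finset.sum_neg_distrib, hsum, neg_zero]
  · intro x v hv
    rw [Finsupp.finsetSum_apply, Finset.sum_eq_single (⟨x, v⟩ : Σ x, ValuationSubring (F x))]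
    · rw [Finsupp.single_eq_same]
    · rintro ⟨x', v'⟩ hq hne
      have hv' := (hS _).1 hq
      rw [Finsupp.single_apply, if_neg]
      intro hc
      exact hne (T.sep y hy x' v' x v hv'.2.1 hv'.2.2.1 hv.2.1 hv.2.2.1 hc)
    · intro hn
      exact absurd ((hS _).2 hv) hn
  · intro c hc
    rw [Finsupp.finsetSum_apply]
    refine Finset.sum_eq_zero (fun q hq => ?_)
    rw [Finsupp.single_apply, if_neg]
    intro hcq
    exact hc q.1 q.2 ((hS q).1 hq) hcq.symm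

end orders

section two

/-- The fields of the two families. -/
def CmF {ι₁ ι₂ : Type} (F₁ : ι₁ → Type) (F₂ : ι₂ → Type) : ι₁ ⊕ ι₂ → Type
  | .inl x => F₁ x
  | .inr y => F₂ y

noncomputable instance cmField {ι₁ ι₂ : Type} (F₁ : ι₁ → Type) (F₂ : ι₂ → Type)
    [i₁ : ∀ x, Field (F₁ x)] [i₂ : ∀ y, Field (F₂ y)] : ∀ i, Field (CmF F₁ F₂ i)
  | .inl x => i₁ x
  | .inr y => i₂ y

/-- The theorem for two finite families of curves. -/
theorem cm_thmN2 (hN : ThmNF) (p : ℕ) [Fact p.Prime] (k A K : Type) [Field k] [CharP k p]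
    [IsAlgClosed k] [Algebra (ZMod p) k] [Algebra.IsAlgebraic (ZMod p) k] [CommRing A]
    [IsDomain A] [Algebra k A] [Field K] [Algebra k K] [Algebra A K] [IsScalarTower k A K]
    [IsFractionRing A K] (htr : Algebra.trdeg k K = 2) {n : ℕ} (w : Fin (n + 1) → K)
    (hw0 : w 0 ≠ 0) (hw : Set.range (algebraMap A K) =
      (Algebra.adjoin k (Set.range fun i => w i / w 0) : Set K))
    {ι₁ ι₂ : Type} [Finite ι₁] [Finite ι₂] (F₁ : ι₁ → Type) (F₂ : ι₂ → Type)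
    [∀ x, Field (F₁ x)] [∀ y, Field (F₂ y)] (ρ₁ : ∀ x, A →+* F₁ x) (ρ₂ : ∀ y, A →+* F₂ y)
    (hf₁ : ∀ x, IsFrac (ρ₁ x)) (hf₂ : ∀ y, IsFrac (ρ₂ y))
    (hh₁ : ∀ x, (RingHom.ker (ρ₁ x)).height = 1) (hh₂ : ∀ y, (RingHom.ker (ρ₂ y)).height = 1)
    (hk₁ : ∀ x x', RingHom.ker (ρ₁ x) = RingHom.ker (ρ₁ x') → x = x')
    (hk₂ : ∀ y y', RingHom.ker (ρ₂ y) = RingHom.ker (ρ₂ y') → y = y')
    (hk₁₂ : ∀ x y, RingHom.ker (ρ₁ x) ≠ RingHom.ker (ρ₂ y))
    (hd₁ : ∀ x, haveI := RingHom.ker_isPrime (ρ₁ x)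
      IsDiscreteValuationRing (Localization.AtPrime (RingHom.ker (ρ₁ x))))
    (hd₂ : ∀ y, haveI := RingHom.ker_isPrime (ρ₂ y)
      IsDiscreteValuationRing (Localization.AtPrime (RingHom.ker (ρ₂ y))))
    (h₁ : ∀ x, (F₁ x)ˣ) (h₂ : ∀ y, (F₂ y)ˣ)
    (hp₁ : ∀ x, ∀ v : ValuationSubring (F₁ x), (∀ c : k, ρ₁ x (algebraMap k A c) ∈ v) →
      UnitIn v (h₁ x) ∨ ∃ z : A →ₐ[k] k, RegPt z ∧ CentredAt (ρ₁ x) v z)
    (hp₂ : ∀ y, ∀ v : ValuationSubring (F₂ y), (∀ c : k, ρ₂ y (algebraMap k A c) ∈ v) →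
      UnitIn v (h₂ y) ∨ ∃ z : A →ₐ[k] k, RegPt z ∧ CentredAt (ρ₂ y) v z)
    (hord : ∀ z : A →ₐ[k] k, RegPt z → ∃ (m₁ : ι₁ → ℤ) (m₂ : ι₂ → ℤ),
      (∀ x, IsOrdR (ρ₁ x) z (h₁ x) (m₁ x)) ∧ (∀ y, IsOrdR (ρ₂ y) z (h₂ y) (m₂ y)) ∧
        ∑ᶠ x, m₁ x + ∑ᶠ y, m₂ y = 0) :
    ∃ N : ℕ, 0 < N ∧ ∃ (r : ℕ) (f g : Fin r → K), (∀ i, f i ≠ 0 ∧ g i ≠ 0) ∧
      ∀ V : ValuationSubring K, CurveV k w V →
        ∃ t : Fin r → (IsLocalRing.ResidueField V)ˣ, (∀ i, IsTameV V (f i) (g i) (t i)) ∧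
          (∀ x, DomR (algebraMap A K) (ρ₁ x) V → ∀ φ, IsRes (algebraMap A K) (ρ₁ x) V φ →
            ∏ i, t i = Units.map φ.toMonoidHom (h₁ x) ^ N) ∧
          ((∀ x, ¬ DomR (algebraMap A K) (ρ₁ x) V) →
            (∀ y, ¬ DomR (algebraMap A K) (ρ₂ y) V) → ∏ i, t i = 1) := by
  classical
  let ρ : ∀ i, A →+* CmF F₁ F₂ i := fun i =>
    match i with
    | .inl x => ρ₁ x
    | .inr y => ρ₂ y
  let h : ∀ i, (CmF F₁ F₂ i)ˣ := fun i =>
    match i with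
    | .inl x => h₁ x
    | .inr y => h₂ y
  obtain ⟨N, hN0, r, f, g, hfg, H⟩ := hN p k A K htr w hw0 hw (ι := ι₁ ⊕ ι₂) (CmF F₁ F₂) ρ
    (by rintro (x | y); exacts [hf₁ x, hf₂ y]) (by rintro (x | y); exacts [hh₁ x, hh₂ y])
    (by
      rintro (x | y) (x' | y') he
      · rw [hk₁ x x' he]
      · exact absurd he (hk₁₂ x y')
      · exact absurd he.symm (hk₁₂ x' y)
      · rw [hk₂ y y' he])
    (by rintro (x | y); exacts [hd₁ x, hd₂ y]) h
    (by rintro (x | y); exacts [hp₁ x, hp₂ y])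
    (by
      intro z hz
      obtain ⟨m₁, m₂, hm₁, hm₂, hs⟩ := hord z hz
      have hfin : Finite (ι₁ ⊕ ι₂) := inferInstance
      refine ⟨Finsupp.ofSupportFinite (Sum.elim m₁ m₂) (Set.toFinite _), ?_, ?_⟩
      · rintro (x | y)
        · exact hm₁ x
        · exact hm₂ y
      · have hf1 : Fintype ι₁ := Fintype.ofFinite ι₁
        have hf2 : Fintype ι₂ := Fintype.ofFinite ι₂
        rw [Finsupp.sum_fintype _ _ (fun _ => rfl), Fintype.sum_sum_type, ← hs,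
          finsum_eq_sum_of_fintype, finsum_eq_sum_of_fintype]
        rfl)
  refine ⟨N, hN0, r, f, g, hfg, fun V hV => ?_⟩
  obtain ⟨t, ht1, ht2, ht3⟩ := H V hV
  refine ⟨t, ht1, fun x => ht2 (.inl x), fun hx hy => ht3 ?_⟩
  rintro (x | y)
  · exact hx x
  · exact hy y

end two

section three

theorem cm_point {k B : Type} [Field k] [CommRing B] [Algebra k B] (Q : Ideal B)
    (σ : B →ₐ[k] k) (hσ : Q ≤ RingHom.ker σ) :
    ∃ z : B ⧸ Q →ₐ[k] k, ∀ b, z (Ideal.Quotient.mk Q b) = σ b :=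
  ⟨Ideal.Quotient.liftₐ Q σ (fun _ ha => hσ ha), fun _ => rfl⟩

theorem cm_one {k B F : Type} [Field k] [IsAlgClosed k] [CommRing B]
    [Algebra k B] [Algebra.FiniteType k B] (Q : Ideal B) [Q.IsPrime]
    (hdimQ : ringKrullDim (B ⧸ Q) = 2) [Field F] (ρ : B →+* F) (hQ : Q ≤ RingHom.ker ρ)
    (hh : ringKrullDim (B ⧸ RingHom.ker ρ) = 1)
    (hd : ∃ σ : B →ₐ[k] k, RingHom.ker ρ ≤ RingHom.ker σ ∧
      ∀ z : B ⧸ Q →ₐ[k] k, (∀ b, z (Ideal.Quotient.mk Q b) = σ b) → RegPt z)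
    (ρ' : B ⧸ Q →+* F) (hρ' : ∀ b, ρ' (Ideal.Quotient.mk Q b) = ρ b) :
    (RingHom.ker ρ').height = 1 ∧ (haveI := RingHom.ker_isPrime ρ'
      IsDiscreteValuationRing (Localization.AtPrime (RingHom.ker ρ'))) := by
  have hpr := RingHom.ker_isPrime ρ'
  have h1 : (RingHom.ker ρ').height = 1 :=
    height_one_of_dim (k := k) hdimQ _ ((cm_dimquot ρ Q ρ' hρ').trans hh)
  refine ⟨h1, ?_⟩
  obtain ⟨σ, hσ1, hσ2⟩ := hd
  obtain ⟨z, hz⟩ := cm_point Q σ (hQ.trans hσ1)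
  refine dvr_of_regPt hdimQ z (hσ2 z hz) _ (fun b hb => ?_) h1
  obtain ⟨b, rfl⟩ := Ideal.Quotient.mk_surjective b
  rw [RingHom.mem_ker, hρ'] at hb
  change z (Ideal.Quotient.mk Q b) = 0
  rw [hz]
  exact hσ1 hb

theorem cm_place {k B F : Type} [Field k] [CommRing B]
    [Algebra k B] (Q : Ideal B) [Field F] (ρ : B →+* F) (h : Fˣ)
    (hp : ∀ v : ValuationSubring F, (∀ c : k, ρ (algebraMap k B c) ∈ v) →
      UnitIn v h ∨ ∃ σ : B →ₐ[k] k, Q ≤ RingHom.ker σ ∧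
      (∀ z : B ⧸ Q →ₐ[k] k, (∀ b, z (Ideal.Quotient.mk Q b) = σ b) → RegPt z) ∧
        CentredAt ρ v σ)
    (ρ' : B ⧸ Q →+* F) (hρ' : ∀ b, ρ' (Ideal.Quotient.mk Q b) = ρ b) :
    ∀ v : ValuationSubring F, (∀ c : k, ρ' (algebraMap k (B ⧸ Q) c) ∈ v) →
      UnitIn v h ∨ ∃ z : B ⧸ Q →ₐ[k] k, RegPt z ∧ CentredAt ρ' v z := by
  intro v hv
  rcases hp v (fun c => by rw [← hρ']; exact hv c) with h1 | ⟨σ, h1, h2, h3⟩
  · exact Or.inl h1
  · obtain ⟨z, hz⟩ := cm_point Q σ h1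
    exact Or.inr ⟨z, h2 z hz, cm_centred ρ Q ρ' hρ' σ z hz v h3⟩

theorem cm_kernel {B F F' : Type} [CommRing B] [Field F] [Field F'] (Q : Ideal B)
    (ρ₁ : B →+* F) (ρ₂ : B →+* F')
    (ρ₁' : B ⧸ Q →+* F) (hρ₁ : ∀ b, ρ₁' (Ideal.Quotient.mk Q b) = ρ₁ b)
    (ρ₂' : B ⧸ Q →+* F') (hρ₂ : ∀ b, ρ₂' (Ideal.Quotient.mk Q b) = ρ₂ b)
    (h : RingHom.ker ρ₁' = RingHom.ker ρ₂') : RingHom.ker ρ₁ = RingHom.ker ρ₂ := by
  ext b
  rw [RingHom.mem_ker, RingHom.mem_ker, ← hρ₁, ← hρ₂, ← RingHom.mem_ker, ← RingHom.mem_ker, h]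

theorem cm_isFrac {B F : Type} [CommRing B] [Field F] (Q : Ideal B) (ρ : B →+* F)
    (hρ : IsFrac ρ) (ρ' : B ⧸ Q →+* F) (hρ' : ∀ b, ρ' (Ideal.Quotient.mk Q b) = ρ b) :
    IsFrac ρ' := by
  intro f
  obtain ⟨a, b, hb, hab⟩ := hρ f
  exact ⟨Ideal.Quotient.mk Q a, Ideal.Quotient.mk Q b, by rw [hρ']; exact hb,
    by rw [hρ', hρ']; exact hab⟩

/-- The theorem for two families of curves on the surface `Spec (B ⧸ Q)`. -/
theorem cm_thmN3 (hN : ThmNF) (p : ℕ) [Fact p.Prime] (k B K : Type) [Field k] [CharP k p]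
    [IsAlgClosed k] [Algebra (ZMod p) k] [Algebra.IsAlgebraic (ZMod p) k] [CommRing B]
    [Algebra k B] [Algebra.FiniteType k B] (Q : Ideal B) [Q.IsPrime]
    (hdimQ : ringKrullDim (B ⧸ Q) = 2) [Field K] [Algebra k K] (θ : B →+* K) (hθ : IsFrac θ)
    (hk : ∀ c, θ (algebraMap k B c) = algebraMap k K c) (hkt : RingHom.ker θ = Q)
    {n : ℕ} (w : Fin (n + 1) → K)
    (hw0 : w 0 ≠ 0) (hw : Set.range θ =
      (Algebra.adjoin k (Set.range fun i => w i / w 0) : Set K))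
    {ι₁ ι₂ : Type} [Finite ι₁] [Finite ι₂] (F₁ : ι₁ → Type) (F₂ : ι₂ → Type)
    [∀ x, Field (F₁ x)] [∀ y, Field (F₂ y)] (ρ₁ : ∀ x, B →+* F₁ x) (ρ₂ : ∀ y, B →+* F₂ y)
    (hf₁ : ∀ x, IsFrac (ρ₁ x)) (hf₂ : ∀ y, IsFrac (ρ₂ y))
    (hQ₁ : ∀ x, Q ≤ RingHom.ker (ρ₁ x)) (hQ₂ : ∀ y, Q ≤ RingHom.ker (ρ₂ y))
    (hh₁ : ∀ x, ringKrullDim (B ⧸ RingHom.ker (ρ₁ x)) = 1)
    (hh₂ : ∀ y, ringKrullDim (B ⧸ RingHom.ker (ρ₂ y)) = 1)
    (hk₁ : ∀ x x', RingHom.ker (ρ₁ x) = RingHom.ker (ρ₁ x') → x = x')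
    (hk₂ : ∀ y y', RingHom.ker (ρ₂ y) = RingHom.ker (ρ₂ y') → y = y')
    (hk₁₂ : ∀ x y, RingHom.ker (ρ₁ x) ≠ RingHom.ker (ρ₂ y))
    (hd₁ : ∀ x, ∃ σ : B →ₐ[k] k, RingHom.ker (ρ₁ x) ≤ RingHom.ker σ ∧
      ∀ z : B ⧸ Q →ₐ[k] k, (∀ b, z (Ideal.Quotient.mk Q b) = σ b) → RegPt z)
    (hd₂ : ∀ y, ∃ σ : B →ₐ[k] k, RingHom.ker (ρ₂ y) ≤ RingHom.ker σ ∧
      ∀ z : B ⧸ Q →ₐ[k] k, (∀ b, z (Ideal.Quotient.mk Q b) = σ b) → RegPt z)
    (h₁ : ∀ x, (F₁ x)ˣ) (h₂ : ∀ y, (F₂ y)ˣ)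
    (hp₁ : ∀ x, ∀ v : ValuationSubring (F₁ x), (∀ c : k, ρ₁ x (algebraMap k B c) ∈ v) →
      UnitIn v (h₁ x) ∨ ∃ σ : B →ₐ[k] k, Q ≤ RingHom.ker σ ∧
      (∀ z : B ⧸ Q →ₐ[k] k, (∀ b, z (Ideal.Quotient.mk Q b) = σ b) → RegPt z) ∧
        CentredAt (ρ₁ x) v σ)
    (hp₂ : ∀ y, ∀ v : ValuationSubring (F₂ y), (∀ c : k, ρ₂ y (algebraMap k B c) ∈ v) →
      UnitIn v (h₂ y) ∨ ∃ σ : B →ₐ[k] k, Q ≤ RingHom.ker σ ∧
      (∀ z : B ⧸ Q →ₐ[k] k, (∀ b, z (Ideal.Quotient.mk Q b) = σ b) → RegPt z) ∧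
        CentredAt (ρ₂ y) v σ)
    (hord : ∀ σ : B →ₐ[k] k, Q ≤ RingHom.ker σ → ∃ (m₁ : ι₁ → ℤ) (m₂ : ι₂ → ℤ),
      (∀ x, IsOrdR (ρ₁ x) σ (h₁ x) (m₁ x)) ∧ (∀ y, IsOrdR (ρ₂ y) σ (h₂ y) (m₂ y)) ∧
        ∑ᶠ x, m₁ x + ∑ᶠ y, m₂ y = 0) :
    (∀ x, ∃ π : B, θ π ≠ 0 ∧ ρ₁ x π = 0 ∧ ∀ a : B, ρ₁ x a = 0 →
        ∃ b s : B, ρ₁ x s ≠ 0 ∧ θ (a * s) = θ (π * b)) ∧
    ∃ N : ℕ, 0 < N ∧ ∃ (r : ℕ) (f g : Fin r → K), (∀ i, f i ≠ 0 ∧ g i ≠ 0) ∧
      ∀ V : ValuationSubring K, CurveV k w V →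
        ∃ t : Fin r → (IsLocalRing.ResidueField V)ˣ, (∀ i, IsTameV V (f i) (g i) (t i)) ∧
          (∀ x, DomR θ (ρ₁ x) V → ∀ φ, IsRes θ (ρ₁ x) V φ →
            ∏ i, t i = Units.map φ.toMonoidHom (h₁ x) ^ N) ∧
          ((∀ x, ¬ DomR θ (ρ₁ x) V) →
            (∀ y, ¬ DomR θ (ρ₂ y) V) → ∏ i, t i = 1) := by
  classical
  have hlift : ∀ a ∈ Q, θ a = 0 := fun a ha => by
    rw [← hkt] at ha
    exact ha
  let _ : Algebra (B ⧸ Q) K := (Ideal.Quotient.lift Q θ hlift).toAlgebra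
  have hmap : ∀ a, algebraMap (B ⧸ Q) K (Ideal.Quotient.mk Q a) = θ a :=
    fun a => Ideal.Quotient.lift_mk _ _ _
  have hst : IsScalarTower k (B ⧸ Q) K := by
    apply IsScalarTower.of_algebraMap_eq
    intro c
    rw [← hk, ← hmap]
    rfl
  have hfrK : IsFractionRing (B ⧸ Q) K := cm_fraction _ hθ Q hkt hmap
  have htr : Algebra.trdeg k K = 2 := by
    obtain ⟨s, h1, h2⟩ := cm_dim θ hθ hk Q hkt
    have hs : s = 2 := by
      rw [hdimQ] at h1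
      exact_mod_cast h1.symm
    rw [h2, hs]
    rfl
  let ρ₁' : ∀ x, B ⧸ Q →+* F₁ x := fun x =>
    Ideal.Quotient.lift Q (ρ₁ x) (fun a ha => hQ₁ x ha)
  have hρ₁ : ∀ x (b : B), ρ₁' x (Ideal.Quotient.mk Q b) = ρ₁ x b :=
    fun x b => Ideal.Quotient.lift_mk _ _ _
  let ρ₂' : ∀ y, B ⧸ Q →+* F₂ y := fun y =>
    Ideal.Quotient.lift Q (ρ₂ y) (fun a ha => hQ₂ y ha)
  have hρ₂ : ∀ y (b : B), ρ₂' y (Ideal.Quotient.mk Q b) = ρ₂ y b :=
    fun x b => Ideal.Quotient.lift_mk _ _ _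
  have hone₁ := fun x => cm_one Q hdimQ (ρ₁ x) (hQ₁ x) (hh₁ x) (hd₁ x) (ρ₁' x) (hρ₁ x)
  have hone₂ := fun y => cm_one Q hdimQ (ρ₂ y) (hQ₂ y) (hh₂ y) (hd₂ y) (ρ₂' y) (hρ₂ y)
  refine ⟨fun x => cm_pi θ (ρ₁ x) Q hkt (hQ₁ x) (ρ₁' x) (hρ₁ x) (hone₁ x).2, ?_⟩
  have hw' : Set.range (algebraMap (B ⧸ Q) K) =
      (Algebra.adjoin k (Set.range fun i => w i / w 0) : Set K) := by
    rw [← hw]
    ext f
    constructor
    · rintro ⟨b, rfl⟩
      obtain ⟨b, rfl⟩ := Ideal.Quotient.mk_surjective b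
      exact ⟨b, (hmap b).symm⟩
    · rintro ⟨b, rfl⟩
      exact ⟨Ideal.Quotient.mk Q b, hmap b⟩
  obtain ⟨N, hN0, r, f, g, hfg, H⟩ := cm_thmN2 hN p k (B ⧸ Q) K htr w hw0 hw' F₁ F₂ ρ₁' ρ₂'
    (fun x => cm_isFrac Q _ (hf₁ x) _ (hρ₁ x)) (fun y => cm_isFrac Q _ (hf₂ y) _ (hρ₂ y))
    (fun x => (hone₁ x).1) (fun y => (hone₂ y).1)
    (fun x x' he => hk₁ x x' (cm_kernel Q _ _ _ (hρ₁ x) _ (hρ₁ x') he))
    (fun x x' he => hk₂ x x' (cm_kernel Q _ _ _ (hρ₂ x) _ (hρ₂ x') he))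
    (fun x y he => hk₁₂ x y (cm_kernel Q _ _ _ (hρ₁ x) _ (hρ₂ y) he))
    (fun x => (hone₁ x).2) (fun y => (hone₂ y).2) h₁ h₂
    (fun x => cm_place Q _ _ (hp₁ x) _ (hρ₁ x)) (fun y => cm_place Q _ _ (hp₂ y) _ (hρ₂ y))
    (by
      intro z _
      let σ : B →ₐ[k] k := z.comp (Ideal.Quotient.mkₐ k Q)
      have hσ : ∀ b, z (Ideal.Quotient.mk Q b) = σ b := fun b => rfl
      obtain ⟨m₁, m₂, hm₁, hm₂, hs⟩ := hord σ (fun b hb => by
        change z (Ideal.Quotient.mk Q b) = 0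
        rw [Ideal.Quotient.eq_zero_iff_mem.2 hb, map_zero])
      exact ⟨m₁, m₂, fun x => isOrdR_quot _ Q (hQ₁ x) _ (hρ₁ x) σ z hσ _ _ (hm₁ x),
        fun y => isOrdR_quot _ Q (hQ₂ y) _ (hρ₂ y) σ z hσ _ _ (hm₂ y), hs⟩)
  refine ⟨N, hN0, r, f, g, hfg, fun V hV => ?_⟩
  obtain ⟨t, ht1, ht2, ht3⟩ := H V hV
  have hdom₁ := fun x => cm_domR θ (ρ₁ x) Q (algebraMap (B ⧸ Q) K) hmap (ρ₁' x) (hρ₁ x) V
  have hdom₂ := fun y => cm_domR θ (ρ₂ y) Q (algebraMap (B ⧸ Q) K) hmap (ρ₂' y) (hρ₂ y) V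
  exact ⟨t, ht1, fun x hx φ hφ => ht2 x ((hdom₁ x).1.2 hx) φ (((hdom₁ x).2 φ).2 hφ),
    fun hx hy => ht3 (fun x h => hx x ((hdom₁ x).1.1 h)) (fun y h => hy y ((hdom₂ y).1.1 h))⟩

end three

section classes

variable {k A : Type} [Field k] [IsAlgClosed k] [CommRing A] [IsDomain A]
  [Algebra k A] [Algebra.FiniteType k A] [IsRegularRing A] {ι : Type} [Finite ι]
  {F : ι → Type} [∀ x, Field (F x)] {ρ : ∀ x, A →+* F x} {h : ∀ x, (F x)ˣ}

/-- The curve `x` belongs to the class of the surface `Q`. -/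
def TBlock.ClX (T : TBlock (k := k) ρ h) (Q : Ideal A[X]) (x : ι) : Prop :=
  (∃ v y, T.Special x v y) ∧ Q = satI T.J (RingHom.ker (polyR (ρ x) (T.a x)))

/-- The line over `y` belongs to the class of the surface `Q`. -/
def TBlock.ClY (T : TBlock (k := k) ρ h) (Q : Ideal A[X]) (y : A →ₐ[k] k) : Prop :=
  y ∈ T.Y ∧ Q = satI T.J (RingHom.ker (lineR y))

/-- The facts on a special point of the class. -/
structure TBlock.SpF (T : TBlock (k := k) ρ h) (Q : Ideal A[X]) [Q.IsPrime] (x : ι)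
    (v : ValuationSubring (F x)) (y : A →ₐ[k] k) : Prop where
  sp : T.Special x v y
  clX : T.ClX Q x
  clY : T.ClY Q y
  J : T.J ≤ Q
  dim : ringKrullDim (A[X] ⧸ Q) = 2
  leX : Q ≤ RingHom.ker (polyR (ρ x) (T.a x))
  leY : Q ≤ RingHom.ker (lineR y)
  leZ : Q ≤ RingHom.ker (polyZ y (T.c x v))
  kX : RingHom.ker (polyR (ρ x) (T.a x)) ≤ RingHom.ker (polyZ y (T.c x v))
  kY : RingHom.ker (lineR y) ≤ RingHom.ker (polyZ y (T.c x v))
  reg : ∀ z : (A[X] ⧸ Q) →ₐ[k] k, (∀ b, z (Ideal.Quotient.mk _ b) = polyZ y (T.c x v) b) →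
    RegPt z

theorem cm_spF (T : TBlock (k := k) ρ h)
    (Q : Ideal A[X]) [Q.IsPrime] {x : ι} {v : ValuationSubring (F x)} {y : A →ₐ[k] k}
    (hs : T.Special x v y) (hQ : Q = satI T.J (RingHom.ker (polyZ y (T.c x v)))) :
    T.SpF Q x v y := by
  obtain ⟨-, h2, h3, h4, h5, h6, h7, h8, h9⟩ := class_facts T hs
  subst hQ
  exact ⟨hs, ⟨⟨v, y, hs⟩, h4.symm⟩, ⟨hs.1, h5.symm⟩, le_satI _ _, h2, h6, h7,
    h6.trans h8, h8, h9, h3⟩

theorem cm_spX (T : TBlock (k := k) ρ h)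
    (Q : Ideal A[X]) [Q.IsPrime] {x : ι} {v : ValuationSubring (F x)} {y : A →ₐ[k] k}
    (hs : T.Special x v y) (hQ : T.ClX Q x) : T.SpF Q x v y := by
  obtain ⟨-, h2, h3, h4, h5, h6, h7, h8, h9⟩ := class_facts T hs
  exact cm_spF T Q hs (hQ.2.trans h4)

theorem cm_spY (T : TBlock (k := k) ρ h)
    (Q : Ideal A[X]) [Q.IsPrime] {x : ι} {v : ValuationSubring (F x)} {y : A →ₐ[k] k}
    (hs : T.Special x v y) (hQ : T.ClY Q y) : T.SpF Q x v y := by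
  obtain ⟨-, h2, h3, h4, h5, h6, h7, h8, h9⟩ := class_facts T hs
  exact cm_spF T Q hs (hQ.2.trans h5)

end classes

section coords

/-- The coordinates of the surface. -/
def CmW {K : Type} [Field K] {n : ℕ} (u : Fin (n + 1) → K) (t : K) : Fin (n + 1 + n + 1) → K :=
  Fin.append (m := n + 1) (n := n + 1) u (fun i => t * u i)

theorem cmW_left {K : Type} [Field K] {n : ℕ} (u : Fin (n + 1) → K) (t : K) (i : Fin (n + 1)) :
    CmW u t (Fin.castAdd (n + 1) i) = u i := Fin.append_left _ _ i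

theorem cmW_right {K : Type} [Field K] {n : ℕ} (u : Fin (n + 1) → K) (t : K) (i : Fin (n + 1)) :
    CmW u t (Fin.natAdd (n + 1) i) = t * u i := Fin.append_right _ _ i

theorem cmW_zero {K : Type} [Field K] {n : ℕ} (u : Fin (n + 1) → K) (t : K) :
    CmW u t 0 = u 0 := cmW_left u t 0

theorem cmW_cases {K : Type} [Field K] {n : ℕ} (u : Fin (n + 1) → K) (t : K)
    (P : K → Prop) (h1 : ∀ i, P (u i)) (h2 : ∀ i, P (t * u i)) (i : Fin (n + 1 + n + 1)) :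
    P (CmW u t i) := by
  refine Fin.addCases (m := n + 1) (n := n + 1) (motive := fun i => P (CmW u t i))
    (fun i => ?_) (fun i => ?_) i
  · rw [cmW_left]
    exact h1 i
  · rw [cmW_right]
    exact h2 i

theorem cm_curveV {k K : Type} [Field k] [Field K] [Algebra k K] {n : ℕ} (u : Fin (n + 1) → K)
    (t : K) (V : ValuationSubring K) (h : CurveV k u V) : CurveV k (CmW u t) V := by
  obtain ⟨h1, h2, j, hj, h3, i, hi⟩ := h
  refine ⟨h1, h2, ?_⟩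
  rcases V.mem_or_inv_mem t with ht | ht
  · refine ⟨Fin.castAdd (n + 1) j, by rwa [cmW_left], fun l => ?_, Fin.castAdd (n + 1) i, ?_⟩
    · rw [cmW_left]
      refine cmW_cases u t (fun a => a / u j ∈ V) h3 (fun i' => ?_) l
      rw [mul_div_assoc]
      exact V.mul_mem _ _ ht (h3 i')
    · rw [cmW_left, cmW_left]
      exact hi
  · rcases eq_or_ne t 0 with rfl | ht0
    · refine ⟨Fin.castAdd (n + 1) j, by rwa [cmW_left], fun l => ?_, Fin.castAdd (n + 1) i, ?_⟩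
      · rw [cmW_left]
        refine cmW_cases u 0 (fun a => a / u j ∈ V) h3 (fun i' => ?_) l
        rw [zero_mul, zero_div]
        exact V.zero_mem
      · rw [cmW_left, cmW_left]
        exact hi
    · refine ⟨Fin.natAdd (n + 1) j, by rw [cmW_right]; exact mul_ne_zero ht0 hj, fun l => ?_,
        Fin.natAdd (n + 1) i, ?_⟩
      · rw [cmW_right]
        refine cmW_cases u t (fun a => a / (t * u j) ∈ V) (fun i' => ?_) (fun i' => ?_) l
        · have h4 : u i' / (t * u j) = t⁻¹ * (u i' / u j) := by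
            field_simp
          rw [h4]
          exact V.mul_mem _ _ ht (h3 i')
        · rw [mul_div_mul_left _ _ ht0]
          exact h3 i'
      · intro c
        rw [cmW_right, cmW_right, mul_div_mul_left _ _ ht0]
        exact hi c

theorem cm_range {k A K : Type} [Field k] [CommRing A] [Algebra k A] [Field K] [Algebra k K]
    (τ : A →+* K) (hk : ∀ c, τ (algebraMap k A c) = algebraMap k K c) {n : ℕ}
    (w : Fin (n + 1) → A) (hw0 : w 0 = 1) (hw : Algebra.adjoin k (Set.range w) = ⊤) (t : K) :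
    Set.range (polyR τ t) = (Algebra.adjoin k (Set.range fun i =>
      CmW (fun i => τ (w i)) t i / CmW (fun i => τ (w i)) t 0) : Set K) := by
  have h0 : CmW (fun i => τ (w i)) t 0 = 1 := by rw [cmW_zero, hw0, map_one]
  simp only [h0, div_one]
  let τk : A →ₐ[k] K := { τ with commutes' := hk }
  let θ : A[X] →ₐ[k] K := { polyR τ t with
    commutes' := fun c => by
      change polyR τ t (algebraMap k A[X] c) = _
      rw [Polynomial.algebraMap_apply]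
      change eval₂ τ t (C _) = _
      rw [eval₂_C, hk] }
  have hmem : ∀ i, CmW (fun i => τ (w i)) t i ∈
      Algebra.adjoin k (Set.range (CmW (fun i => τ (w i)) t)) :=
    fun i => Algebra.subset_adjoin ⟨i, rfl⟩
  have hτ : ∀ a, τ a ∈ Algebra.adjoin k (Set.range (CmW (fun i => τ (w i)) t)) := by
    intro a
    have ha : a ∈ Algebra.adjoin k (Set.range w) := by
      rw [hw]
      trivial
    have h1 : (Algebra.adjoin k (Set.range w)).map τk ≤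
        Algebra.adjoin k (Set.range (CmW (fun i => τ (w i)) t)) := by
      rw [AlgHom.map_adjoin, Algebra.adjoin_le_iff]
      rintro _ ⟨_, ⟨i, rfl⟩, rfl⟩
      have h2 := hmem (Fin.castAdd (n + 1) i)
      rw [cmW_left] at h2
      exact h2
    exact h1 ⟨a, ha, rfl⟩
  have ht : t ∈ Algebra.adjoin k (Set.range (CmW (fun i => τ (w i)) t)) := by
    have h2 := hmem (Fin.natAdd (n + 1) (0 : Fin (n + 1)))
    rw [cmW_right, hw0, map_one, mul_one] at h2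
    exact h2
  apply le_antisymm
  · rintro _ ⟨f, rfl⟩
    change eval₂ τ t f ∈ _
    rw [eval₂_eq_sum_range]
    exact Subalgebra.sum_mem _ (fun i _ => Subalgebra.mul_mem _ (hτ _) (Subalgebra.pow_mem _ ht i))
  · have h1 : Algebra.adjoin k (Set.range (CmW (fun i => τ (w i)) t)) ≤ θ.range := by
      rw [Algebra.adjoin_le_iff]
      rintro _ ⟨i, rfl⟩
      refine cmW_cases _ t (fun a => a ∈ (θ.range : Set K)) (fun i => ?_) (fun i => ?_) i
      · refine ⟨C (w i), ?_⟩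
        change eval₂ τ t (C _) = _
        rw [eval₂_C]
      · refine ⟨X * C (w i), ?_⟩
        change eval₂ τ t (X * C _) = _
        rw [eval₂_mul, eval₂_C, eval₂_X]
    intro f hf
    obtain ⟨g, hg⟩ := h1 hf
    exact ⟨g, hg⟩

theorem cm_nonunits_mul {K : Type} [Field K] (V : ValuationSubring K) {a b : K}
    (ha : a ∈ V.nonunits) (hb : b ∈ V) : a * b ∈ V.nonunits := by
  rw [ValuationSubring.mem_nonunits_iff] at ha ⊢
  rw [map_mul]
  exact mul_lt_one_of_lt_of_le ha ((V.valuation_le_one_iff b).2 hb)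

theorem cm_not_line {k A K : Type} [Field k] [CommRing A] [Algebra k A] [Field K] [Algebra k K]
    (τ : A →+* K) (hk : ∀ c, τ (algebraMap k A c) = algebraMap k K c) {n : ℕ}
    (w : Fin (n + 1) → A) (hw0 : w 0 = 1) (t : K) (V : ValuationSubring K)
    (hV : CurveV k (fun i => τ (w i)) V) (y : A →ₐ[k] k) :
    ¬ DomR (polyR τ t) (lineR y) V := by
  intro hD
  obtain ⟨h1, h2, j, hj, h3, i, hi⟩ := hV
  have hC : ∀ a : A, polyR τ t (C a) = τ a := fun a => eval₂_C _ _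
  have hmem : ∀ a : A, τ a ∈ V := fun a => by
    have h4 := (hD (C a)).1
    rwa [hC] at h4
  have hnon : ∀ a : A, y a = 0 → τ a ∈ V.nonunits := fun a ha => by
    have h4 := (hD (C a)).2
    rw [hC] at h4
    refine h4.1 ((line_facts y).2.2 (C a) |>.2 ?_)
    rw [map_C]
    change C (y a) = 0
    rw [ha, C_0]
  have hval : ∀ a : A, τ a - algebraMap k K (y a) ∈ V.nonunits := by
    intro a
    rw [← hk, ← map_sub]
    apply hnon
    rw [map_sub, AlgHom.commutes, Algebra.algebraMap_self_apply, sub_self]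
  have hwj : (τ (w j))⁻¹ ∈ V := by
    have h4 := h3 0
    simp only [hw0, map_one, one_div] at h4
    exact h4
  have hj' : τ (w j) ≠ 0 := hj
  have hyj : y (w j) ≠ 0 := by
    intro h0
    have h4 := hnon (w j) h0
    rw [ValuationSubring.mem_nonunits_iff_or] at h4
    exact h4.elim hj' (fun h5 => h5 hwj)
  have hyj' : algebraMap k K (y (w j)) ≠ 0 := (_root_.map_ne_zero _).2 hyj
  refine hi (y (w i) / y (w j)) ?_
  have h5 : τ (w i) / τ (w j) - algebraMap k K (y (w i) / y (w j)) =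
      ((τ (w i) - algebraMap k K (y (w i))) * algebraMap k K (y (w j)) -
        (τ (w j) - algebraMap k K (y (w j))) * algebraMap k K (y (w i))) *
        ((τ (w j))⁻¹ * algebraMap k K (y (w j))⁻¹) := by
    rw [map_div₀, map_inv₀]
    field_simp
    ring
  change τ (w i) / τ (w j) - algebraMap k K (y (w i) / y (w j)) ∈ V.nonunits
  rw [h5]
  refine cm_nonunits_mul V (sub_mem (cm_nonunits_mul V (hval _) (h2 _))
    (cm_nonunits_mul V (hval _) (h2 _))) (V.mul_mem _ _ hwj (h2 _))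

end coords

section apply

theorem cm_single_finsum {ι : Type} [DecidableEq ι] (x : ι) (a : ℤ) :
    ∑ᶠ i, (if i = x then a else 0) = a := by
  rw [finsum_eq_single _ x (fun i hi => if_neg hi), if_pos rfl]

theorem cm_apply (hN : ThmNF) {p : ℕ} [Fact p.Prime] {k A : Type} [Field k] [CharP k p]
    [IsAlgClosed k] [Algebra (ZMod p) k] [Algebra.IsAlgebraic (ZMod p) k] [CommRing A]
    [IsDomain A] [Algebra k A] [Algebra.FiniteType k A] [IsRegularRing A] {n : ℕ}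
    (w : Fin (n + 1) → A) (hw0 : w 0 = 1) (hw : Algebra.adjoin k (Set.range w) = ⊤)
    {ι : Type} [Finite ι] {F : ι → Type} [∀ x, Field (F x)] (ρ : ∀ x, A →+* F x)
    (hfrac : ∀ x, IsFrac (ρ x)) (hdim : ∀ x, ringKrullDim (A ⧸ RingHom.ker (ρ x)) = 1)
    (hker : ∀ x x', RingHom.ker (ρ x) = RingHom.ker (ρ x') → x = x') (h : ∀ x, (F x)ˣ)
    (hinf : ∀ x, ∀ v : ValuationSubring (F x), (∀ c : k, ρ x (algebraMap k A c) ∈ v) →
      (∃ a, ρ x a ∉ v) → UnitIn v (h x))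
    (hcyc : ∀ z : A →ₐ[k] k, ∃ m : ι →₀ ℤ,
      (∀ x, IsOrdR (ρ x) z (h x) (m x)) ∧ m.sum (fun _ a => a) = 0)
    (T : TBlock (k := k) ρ h) (Q : Ideal A[X]) [Q.IsPrime] (hJ : T.J ≤ Q)
    (hdimQ : ringKrullDim (A[X] ⧸ Q) = 2) (K : Type) [Field K] [Algebra k K] (τ : A →+* K)
    (hk : ∀ c, τ (algebraMap k A c) = algebraMap k K c) (t : K) (hfr : IsFrac (polyR τ t))
    (hkt : RingHom.ker (polyR τ t) = Q) :
    (∀ x, T.ClX Q x → ∃ π : A[X], polyR τ t π ≠ 0 ∧ polyR (ρ x) (T.a x) π = 0 ∧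
      ∀ a : A[X], polyR (ρ x) (T.a x) a = 0 →
        ∃ b s : A[X], polyR (ρ x) (T.a x) s ≠ 0 ∧ polyR τ t (a * s) = polyR τ t (π * b)) ∧
    ∃ N : ℕ, 0 < N ∧ ∃ (r : ℕ) (f g : Fin r → K), (∀ i, f i ≠ 0 ∧ g i ≠ 0) ∧
      ∀ V : ValuationSubring K, CurveV k (fun i => τ (w i)) V →
        ∃ s : Fin r → (IsLocalRing.ResidueField V)ˣ, (∀ i, IsTameV V (f i) (g i) (s i)) ∧
          (∀ x, T.ClX Q x → DomR (polyR τ t) (polyR (ρ x) (T.a x)) V → ∀ φ,
            IsRes (polyR τ t) (polyR (ρ x) (T.a x)) V φ →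
              ∏ i, s i = Units.map φ.toMonoidHom (h x) ^ N) ∧
          ((∀ x, T.ClX Q x → ¬ DomR (polyR τ t) (polyR (ρ x) (T.a x)) V) → ∏ i, s i = 1) := by
  classical
  have hP : ∀ x, PlaceThy k (ρ x) := fun x => placeThy (ρ x) (hfrac x) (hdim x)
  have hC : ∀ a : A, polyR τ t (C a) = τ a := fun a => eval₂_C _ _
  have hCx : ∀ x (a : A), polyR (ρ x) (T.a x) (C a) = ρ x a := fun x a => eval₂_C _ _
  have hkB : ∀ c : k, polyR τ t (algebraMap k A[X] c) = algebraMap k K c := fun c => by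
    rw [Polynomial.algebraMap_apply, hC, hk]
  have hkx : ∀ x (c : k), polyR (ρ x) (T.a x) (algebraMap k A[X] c) = ρ x (algebraMap k A c) :=
    fun x c => by rw [Polynomial.algebraMap_apply, hCx]
  have hCy : ∀ (y : A →ₐ[k] k) (a : A), lineR y (C a) = 0 ↔ y a = 0 := fun y a => by
    rw [(line_facts y).2.2, map_C]
    exact C_eq_zero
  -- the special points
  have hsp : ∀ x v y, T.Special x v y → Q ≤ RingHom.ker (polyZ y (T.c x v)) →
      T.SpF Q x v y := by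
    intro x v y hs hle
    obtain ⟨h1, h2, -⟩ := class_facts T hs
    exact cm_spF T Q hs (eq_satI (k := k) hJ hle h1 h2 hdimQ)
  -- the functions on the lines
  have hline : ∀ y : {y // T.ClY Q y}, ∃ g : (FractionRing k[X])ˣ,
      (∀ v : ValuationSubring (FractionRing k[X]),
        (∀ c : k, lineR y.1 (algebraMap k A[X] c) ∈ v) →
        UnitIn v g ∨ ∃ x v', T.Special x v' y.1 ∧
          CentredAt (lineR y.1) v (polyZ y.1 (T.c x v'))) ∧
      (∀ x v', T.Special x v' y.1 →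
        IsOrdR (lineR y.1) (polyZ y.1 (T.c x v')) g (- ordV v' (h x : F x))) ∧
      (∀ c, (∀ x v', T.Special x v' y.1 → c ≠ T.c x v') →
        IsOrdR (lineR y.1) (polyZ y.1 c) g 0) ∧
      ∀ y' : A →ₐ[k] k, y' ≠ y.1 → ∀ c, IsOrdR (lineR y.1) (polyZ y' c) g 0 := by
    rintro ⟨y, hy⟩
    obtain ⟨e, he0, he1, he2⟩ := cm_divisor hP hcyc T y hy.1
    obtain ⟨g, hg1, hg2, hg3⟩ := line_function y e he0
    refine ⟨g, fun v hv => ?_, fun x v' hs => ?_, fun c hc => ?_, hg3⟩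
    · rcases hg1 v hv with h1 | ⟨c, hc, h1⟩
      · exact Or.inl h1
      · right
        by_contra hcon
        push Not at hcon
        apply hc
        apply he2
        rintro x v' hs rfl
        exact hcon x v' hs h1
    · have h1 := hg2 (T.c x v')
      rwa [he1 x v' hs] at h1
    · have h1 := hg2 c
      rwa [he2 c hc] at h1
  choose g hg1 hg2 hg3 hg4 using hline
  have hfinY : Finite {y // T.ClY Q y} :=
    (T.Y.finite_toSet.subset (fun y hy => hy.1 : {y | T.ClY Q y} ⊆ (T.Y : Set _))).to_subtype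
  obtain ⟨Hπ, N, hN0, r, f', g', hfg, H⟩ := cm_thmN3 hN p k A[X] K Q hdimQ (polyR τ t) hfr hkB
    hkt (CmW (fun i => τ (w i)) t) (by rw [cmW_zero, hw0, map_one]; exact one_ne_zero)
    (cm_range τ hk w hw0 hw t) (ι₁ := {x // T.ClX Q x}) (ι₂ := {y // T.ClY Q y})
    (fun x => F x.1) (fun _ => FractionRing k[X]) (fun x => polyR (ρ x.1) (T.a x.1))
    (fun y => lineR y.1) (fun x => isFrac_polyR (hfrac x.1) _) (fun y => (line_facts y.1).1)
    (by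
      rintro ⟨x, hx⟩
      obtain ⟨⟨v, y, hs⟩, -⟩ := id hx
      exact (cm_spX T Q hs hx).leX)
    (by
      rintro ⟨y, hy⟩
      obtain ⟨x, v, h1, h2, h3⟩ := T.Y_mem y hy.1
      exact (cm_spY T Q ⟨hy.1, h1, h2, h3⟩ hy).leY)
    (fun x => krullDim_polyR (hfrac x.1) (hdim x.1) (T.integral x.1))
    (fun y => (line_facts y.1).2.1)
    (by
      intro x x' he
      apply Subtype.ext
      apply hker
      ext a
      rw [RingHom.mem_ker, RingHom.mem_ker, ← hCx, ← hCx, ← RingHom.mem_ker, ← RingHom.mem_ker,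
        he])
    (by
      intro y y' he
      apply Subtype.ext
      refine AlgHom.ext (fun a => ?_)
      have h1 : lineR y.1 (C (a - algebraMap k A (y.1 a))) = 0 := by
        rw [hCy, map_sub, AlgHom.commutes, Algebra.algebraMap_self_apply, sub_self]
      rw [← RingHom.mem_ker, he, RingHom.mem_ker, hCy, map_sub, AlgHom.commutes,
        Algebra.algebraMap_self_apply, sub_eq_zero] at h1
      exact h1.symm)
    (by
      intro x y he
      have h1 : RingHom.ker (ρ x.1) = RingHom.ker y.1 := by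
        ext a
        rw [RingHom.mem_ker, RingHom.mem_ker, ← hCx, ← hCy, ← RingHom.mem_ker, he,
          RingHom.mem_ker]
      have h2 : (RingHom.ker y.1).IsMaximal :=
        RingHom.ker_isMaximal_of_surjective _ (fun c => ⟨algebraMap k A c, y.1.commutes c⟩)
      have h3 := hdim x.1
      rw [h1, ringKrullDim_eq_zero_of_isField
        ((Ideal.Quotient.maximal_ideal_iff_isField_quotient _).1 h2)] at h3
      exact zero_ne_one h3)
    (by
      rintro ⟨x, hx⟩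
      obtain ⟨⟨v, y, hs⟩, -⟩ := id hx
      exact ⟨polyZ y (T.c x v), (cm_spX T Q hs hx).kX, (cm_spX T Q hs hx).reg⟩)
    (by
      rintro ⟨y, hy⟩
      obtain ⟨x, v, h1, h2, h3⟩ := T.Y_mem y hy.1
      have h4 := cm_spY T Q ⟨hy.1, h1, h2, h3⟩ hy
      exact ⟨polyZ y (T.c x v), h4.kY, h4.reg⟩)
    (fun x => h x.1) g
    (by
      rintro ⟨x, hx⟩ v hv
      rcases (curve_function hfrac hdim hinf T x).1 v (fun c => by rw [← hkx]; exact hv c) with
        h1 | ⟨y, h1, h2⟩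
      · exact Or.inl h1
      · exact Or.inr ⟨_, (cm_spX T Q h1 hx).leZ, (cm_spX T Q h1 hx).reg, h2⟩)
    (by
      rintro ⟨y, hy⟩ v hv
      rcases hg1 ⟨y, hy⟩ v hv with h1 | ⟨x, v', h1, h2⟩
      · exact Or.inl h1
      · exact Or.inr ⟨_, (cm_spY T Q h1 hy).leZ, (cm_spY T Q h1 hy).reg, h2⟩)
    (by
      intro σ hσ
      obtain ⟨y', c', rfl, -, -⟩ := eq_polyZ σ
      by_cases hex : ∃ x v, T.Special x v y' ∧ c' = T.c x v
      · obtain ⟨x, v, hs, rfl⟩ := hex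
        have hF := hsp x v y' hs hσ
        refine ⟨fun i => if i = ⟨x, hF.clX⟩ then ordV v (h x : F x) else 0,
          fun j => if j = ⟨y', hF.clY⟩ then - ordV v (h x : F x) else 0, ?_, ?_, ?_⟩
        · rintro ⟨x₁, hx₁⟩
          by_cases hxx : x₁ = x
          · subst hxx
            simp only [if_true]
            exact (curve_function hfrac hdim hinf T x₁).2.1 v y' hs
          · have hne : (⟨x₁, hx₁⟩ : {x // T.ClX Q x}) ≠ ⟨x, hF.clX⟩ :=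
              fun he => hxx (congrArg Subtype.val he)
            simp only [if_neg hne]
            refine (curve_function hfrac hdim hinf T x₁).2.2 y' _ (fun v₁ hs₁ hc => hxx ?_)
            have h1 := T.sep y' hs.1 x v x₁ v₁ hs.2.1 hs.2.2.1 hs₁.2.1 hs₁.2.2.1 hc
            exact (congrArg Sigma.fst h1).symm
        · rintro ⟨y₁, hy₁⟩
          by_cases hyy : y₁ = y'
          · subst hyy
            simp only [if_true]
            exact hg2 ⟨y₁, hy₁⟩ x v hs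
          · have hne : (⟨y₁, hy₁⟩ : {y // T.ClY Q y}) ≠ ⟨y', hF.clY⟩ :=
              fun he => hyy (congrArg Subtype.val he)
            simp only [if_neg hne]
            exact hg4 ⟨y₁, hy₁⟩ y' (fun he => hyy he.symm) _
        · rw [cm_single_finsum, cm_single_finsum, add_neg_cancel]
      · push Not at hex
        refine ⟨fun _ => 0, fun _ => 0, ?_, ?_, ?_⟩
        · rintro ⟨x₁, hx₁⟩
          exact (curve_function hfrac hdim hinf T x₁).2.2 y' c' (fun v₁ hs₁ => hex x₁ v₁ hs₁)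
        · rintro ⟨y₁, hy₁⟩
          by_cases hyy : y' = y₁
          · subst hyy
            exact hg3 ⟨y', hy₁⟩ c' (fun x₁ v₁ hs₁ => hex x₁ v₁ hs₁)
          · exact hg4 ⟨y₁, hy₁⟩ y' hyy _
        · rw [finsum_zero, finsum_zero, add_zero])
  refine ⟨fun x hx => Hπ ⟨x, hx⟩, N, hN0, r, f', g', hfg, fun V hV => ?_⟩
  obtain ⟨s, hs1, hs2, hs3⟩ := H V (cm_curveV _ t V hV)
  exact ⟨s, hs1, fun x hx => hs2 ⟨x, hx⟩, fun hx => hs3 (fun x => hx x.1 x.2)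
    (fun y => cm_not_line τ hk w hw0 t V hV y.1)⟩

end apply

section main

theorem cm_surface {k A : Type} [Field k] [IsAlgClosed k] [CommRing A]
    [IsDomain A] [Algebra k A] [Algebra.FiniteType k A] [IsRegularRing A]
    {ι : Type} [Finite ι] {F : ι → Type} [∀ x, Field (F x)] (ρ : ∀ x, A →+* F x)
    (hfrac : ∀ x, IsFrac (ρ x)) (h : ∀ x, (F x)ˣ)
    (T : TBlock (k := k) ρ h) {x₀ : ι} (Q : Ideal A[X]) [Q.IsPrime] (hx₀ : T.ClX Q x₀)
    (K : Type) [Field K] (τ : A →+* K) (hτ : IsFrac τ) (hkt : RingHom.ker τ = Q.comap C) :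
    ∃ t : K, RingHom.ker (polyR τ t) = Q ∧ IsFrac (polyR τ t) ∧ ∀ x, T.ClX Q x →
      ∀ V : ValuationSubring K,
        (DomR τ (ρ x) V ↔ DomR (polyR τ t) (polyR (ρ x) (T.a x)) V) ∧
        (DomR τ (ρ x) V → ∀ φ,
          IsRes τ (ρ x) V φ ↔ IsRes (polyR τ t) (polyR (ρ x) (T.a x)) V φ) := by
  have hnoe : IsNoetherianRing A := Algebra.FiniteType.isNoetherianRing k A
  have hb : ∀ x, T.ClX Q x → ∃ α β : A, ρ x β ≠ 0 ∧ τ β ≠ 0 ∧ C β * X - C α ∈ Q ∧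
      ρ x α = T.a x * ρ x β := by
    intro x hx
    obtain ⟨⟨v, y, hs⟩, -⟩ := id hx
    have hF := cm_spX T Q hs hx
    have he : ∀ j, T.eq j ∈ Q := fun j => hF.J (Ideal.subset_span ⟨j, rfl⟩)
    obtain ⟨α, β, hβ, hαβ⟩ := birat (hfrac x) (T.lead x) (T.gcd x) (he 0) (he 1) hF.leX
    refine ⟨α, β, hβ, fun h0 => hβ ?_, hαβ, ?_⟩
    · have h1 : C β ∈ Q := by
        have h2 : β ∈ Q.comap C := by
          rw [← hkt]
          exact h0
        exact h2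
      have h3 := hF.leX h1
      have h4 : polyR (ρ x) (T.a x) (C β) = ρ x β := eval₂_C _ _
      rw [← h4]
      exact h3
    · have h3 : polyR (ρ x) (T.a x) (C β * X - C α) = 0 := hF.leX hαβ
      change eval₂ (ρ x) (T.a x) (C β * X - C α) = 0 at h3
      rw [eval₂_sub, eval₂_mul, eval₂_C, eval₂_C, eval₂_X, sub_eq_zero] at h3
      rw [← h3, mul_comm]
  obtain ⟨α, β, -, hβ, hαβ, -⟩ := hb x₀ hx₀
  obtain ⟨h1, h2⟩ := kernel_polyR τ hτ Q hkt hβ hαβ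
  refine ⟨τ α / τ β, h1, h2, fun x hx V => ?_⟩
  obtain ⟨α', β', hβ1, hβ2, hαβ', hα'⟩ := hb x hx
  have h3 : τ α / τ β = τ α' / τ β' := by
    have h4 : polyR τ (τ α / τ β) (C β' * X - C α') = 0 := by
      rw [← RingHom.mem_ker, h1]
      exact hαβ'
    change eval₂ τ (τ α / τ β) (C β' * X - C α') = 0 at h4
    rw [eval₂_sub, eval₂_mul, eval₂_C, eval₂_C, eval₂_X, sub_eq_zero] at h4
    rw [eq_div_iff hβ2, mul_comm]
    exact h4
  rw [h3]
  exact domR_polyR_iff τ (ρ x) hβ2 hβ1 hα' V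

theorem class_main (hN : ThmNF) {p : ℕ} [Fact p.Prime] {k A : Type} [Field k] [CharP k p]
    [IsAlgClosed k] [Algebra (ZMod p) k] [Algebra.IsAlgebraic (ZMod p) k] [CommRing A]
    [IsDomain A] [Algebra k A] [Algebra.FiniteType k A] [IsRegularRing A] {n : ℕ}
    (w : Fin (n + 1) → A) (hw0 : w 0 = 1) (hw : Algebra.adjoin k (Set.range w) = ⊤)
    {ι : Type} [Finite ι] {F : ι → Type} [∀ x, Field (F x)] (ρ : ∀ x, A →+* F x)
    (hfrac : ∀ x, IsFrac (ρ x)) (hdim : ∀ x, ringKrullDim (A ⧸ RingHom.ker (ρ x)) = 1)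
    (hker : ∀ x x', RingHom.ker (ρ x) = RingHom.ker (ρ x') → x = x') (h : ∀ x, (F x)ˣ)
    (hinf : ∀ x, ∀ v : ValuationSubring (F x), (∀ c : k, ρ x (algebraMap k A c) ∈ v) →
      (∃ a, ρ x a ∉ v) → UnitIn v (h x))
    (hcyc : ∀ z : A →ₐ[k] k, ∃ m : ι →₀ ℤ,
      (∀ x, IsOrdR (ρ x) z (h x) (m x)) ∧ m.sum (fun _ a => a) = 0)
    (T : TBlock (k := k) ρ h) {x₀ : ι} {v₀ : ValuationSubring (F x₀)} {y₀ : A →ₐ[k] k}
    (hs : T.Special x₀ v₀ y₀) (Q : Ideal A[X]) [Q.IsPrime]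
    (hQ : Q = satI T.J (RingHom.ker (polyZ y₀ (T.c x₀ v₀)))) :
    ringKrullDim (A ⧸ Q.comap (C : A →+* A[X])) = 2 ∧
    ∀ (K : Type) [Field K] (τ : A →+* K), IsFrac τ → RingHom.ker τ = Q.comap C →
      letI : Algebra k K := (τ.comp (algebraMap k A)).toAlgebra
      (∀ x, ((∃ v y, T.Special x v y) ∧ Q = satI T.J (RingHom.ker (polyR (ρ x) (T.a x)))) →
        ∃ V : ValuationSubring K, DomR τ (ρ x) V ∧ IsDiscV V ∧
        (∀ V', DomR τ (ρ x) V' → V' = V) ∧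
        ∃ φ : F x →+* IsLocalRing.ResidueField V, IsRes τ (ρ x) V φ ∧ Function.Bijective φ) ∧
      ∃ N : ℕ, 0 < N ∧ ∃ (r : ℕ) (f g : Fin r → K), (∀ i, f i ≠ 0 ∧ g i ≠ 0) ∧
        ∀ V : ValuationSubring K, CurveV k (fun i => τ (w i)) V →
          ∃ t : Fin r → (IsLocalRing.ResidueField V)ˣ, (∀ i, IsTameV V (f i) (g i) (t i)) ∧
            (∀ x, ((∃ v y, T.Special x v y) ∧
                Q = satI T.J (RingHom.ker (polyR (ρ x) (T.a x)))) →
              DomR τ (ρ x) V → ∀ φ, IsRes τ (ρ x) V φ →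
              ∏ i, t i = Units.map φ.toMonoidHom (h x) ^ N) ∧
            ((∀ x, ((∃ v y, T.Special x v y) ∧
                Q = satI T.J (RingHom.ker (polyR (ρ x) (T.a x)))) → ¬ DomR τ (ρ x) V) →
              ∏ i, t i = 1) := by
  have hF : T.SpF Q x₀ v₀ y₀ := cm_spF T Q hs hQ
  have hnoe : IsNoetherianRing A := Algebra.FiniteType.isNoetherianRing k A
  refine ⟨?_, fun K _ τ hτ hkτ => ?_⟩
  · -- the dimension
    obtain ⟨K, _, τ, hτ, hkτ⟩ := cm_field (Q.comap (C : A →+* A[X]))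
    let _ : Algebra k K := (τ.comp (algebraMap k A)).toAlgebra
    obtain ⟨t, ht1, ht2, -⟩ := cm_surface ρ hfrac h T Q hF.clX _ τ hτ hkτ
    obtain ⟨s, hs1, hs2⟩ := cm_dim (k := k) τ hτ (fun _ => rfl) _ hkτ
    obtain ⟨s', hs1', hs2'⟩ := cm_dim (k := k) (polyR τ t) ht2
      (fun c => by
        rw [Polynomial.algebraMap_apply]
        exact eval₂_C _ _) _ ht1
    rw [hF.dim] at hs1'
    rw [hs1]
    rw [hs2'] at hs2
    have h3 : s' = 2 := by exact_mod_cast hs1'.symm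
    have h4 : s' = s := by exact_mod_cast hs2
    rw [← h4, h3]
    rfl
  · let _ : Algebra k K := (τ.comp (algebraMap k A)).toAlgebra
    obtain ⟨t, ht1, ht2, ht3⟩ := cm_surface ρ hfrac h T Q hF.clX K τ hτ hkτ
    obtain ⟨Hπ, N, hN0, r, f, g, hfg, H⟩ := cm_apply hN w hw0 hw ρ hfrac hdim hker h hinf hcyc T Q
      hF.J hF.dim K τ (fun _ => rfl) t ht2 ht1
    refine ⟨fun x hx => ?_, N, hN0, r, f, g, hfg, fun V hV => ?_⟩
    · obtain ⟨⟨v, y, hs'⟩, -⟩ := id hx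
      have hFx := cm_spX T Q hs' hx
      obtain ⟨V, hV1, hV2, hV3, φ, hφ1, hφ2⟩ := exists_unique_val (polyR τ t) ht2
        (polyR (ρ x) (T.a x)) (isFrac_polyR (hfrac x) _) (by rw [ht1]; exact hFx.leX) (Hπ x hx)
      have hV1' := (ht3 x hx V).1.2 hV1
      exact ⟨V, hV1', hV2, fun V' hV' => hV3 V' ((ht3 x hx V').1.1 hV'), φ,
        ((ht3 x hx V).2 hV1' φ).2 hφ1, hφ2⟩
    · obtain ⟨s, hs1, hs2, hs3⟩ := H V hV
      exact ⟨s, hs1, fun x hx hD φ hφ => hs2 x hx ((ht3 x hx V).1.1 hD) φ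
        (((ht3 x hx V).2 hD φ).1 hφ), fun hx => hs3 (fun x hx' hD => hx x hx'
          ((ht3 x hx' V).1.2 hD))⟩

end main

end Pool.Agent.K1
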