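import Pool.Agent.K1.TDefs
import Pool.Agent.K1.FinInt

/-!
The normalization of a curve.
-/

set_option autoImplicit false

namespace Pool.Agent.K1

theorem exists_dedekind {k A F : Type} [Field k] [IsAlgClosed k] [CommRing A] [Algebra k A]
    [Algebra.FiniteType k A] [Field F] (ρ : A →+* F) (hρ : IsFrac ρ)
    (hdim : ringKrullDim (A ⧸ RingHom.ker ρ) = 1) :
    ∃ (D : Type) (_ : CommRing D) (_ : IsDedekindDomain D) (_ : Algebra D F)
      (_ : IsFractionRing D F) (δ : A →+* D), (∀ a, algebraMap D F (δ a) = ρ a) ∧ δ.Finite ∧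
      ¬ IsField D := by
  have hprime : (RingHom.ker ρ).IsPrime := RingHom.ker_isPrime ρ
  let _ : Algebra (A ⧸ RingHom.ker ρ) F := (RingHom.kerLift ρ).toAlgebra
  have hmap : ∀ a : A, algebraMap (A ⧸ RingHom.ker ρ) F (Ideal.Quotient.mk _ a) = ρ a :=
    fun a => rfl
  have hinj : Function.Injective (algebraMap (A ⧸ RingHom.ker ρ) F) :=
    RingHom.kerLift_injective ρ
  have hfaith : FaithfulSMul (A ⧸ RingHom.ker ρ) F :=
    (faithfulSMul_iff_algebraMap_injective _ _).2 hinj
  have hnoeth : IsNoetherianRing A := Algebra.FiniteType.isNoetherianRing k A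
  have hfr : IsFractionRing (A ⧸ RingHom.ker ρ) F := by
    refine IsFractionRing.of_field _ _ fun f => ?_
    obtain ⟨a, b, hb, hab⟩ := hρ f
    exact ⟨Ideal.Quotient.mk _ a, Ideal.Quotient.mk _ b, by
      rw [hmap, hmap, eq_div_iff hb, hab]⟩
  have hfin : Module.Finite (A ⧸ RingHom.ker ρ)
      (integralClosure (A ⧸ RingHom.ker ρ) F) := finite_integralClosure (k := k)
  have hnf : ¬ IsField (A ⧸ RingHom.ker ρ) := by
    intro h
    rw [ringKrullDim_eq_zero_of_isField h] at hdim
    exact zero_ne_one hdim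
  have h1 : Ring.DimensionLEOne (A ⧸ RingHom.ker ρ) := by
    constructor
    intro p hp hpr
    have : Ring.KrullDimLE 1 (A ⧸ RingHom.ker ρ) := by
      rw [Ring.krullDimLE_iff, hdim]
      exact le_refl _
    exact hpr.isMaximal_of_ne_bot hp
  have hDnoeth : IsNoetherianRing (integralClosure (A ⧸ RingHom.ker ρ) F) :=
    isNoetherianRing_iff.2 (isNoetherian_of_tower (A ⧸ RingHom.ker ρ)
      (isNoetherian_of_isNoetherianRing_of_finite _ _))
  have halg : Algebra.IsAlgebraic (A ⧸ RingHom.ker ρ) F :=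
    IsFractionRing.comap_isAlgebraic_iff (A := A ⧸ RingHom.ker ρ) (K := F).2 inferInstance
  have hDfr : IsFractionRing (integralClosure (A ⧸ RingHom.ker ρ) F) F :=
    integralClosure.isFractionRing_of_algebraic (A := A ⧸ RingHom.ker ρ) (L := F)
      (fun x hx => (map_eq_zero_iff _ hinj).1 hx)
  have hDic : IsIntegrallyClosed (integralClosure (A ⧸ RingHom.ker ρ) F) :=
    (isIntegrallyClosed_iff_isIntegrallyClosedIn F).2 inferInstance
  have hDdim : Ring.DimensionLEOne (integralClosure (A ⧸ RingHom.ker ρ) F) := inferInstance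
  refine ⟨integralClosure (A ⧸ RingHom.ker ρ) F, inferInstance, ?_, inferInstance, hDfr,
    (algebraMap (A ⧸ RingHom.ker ρ) (integralClosure (A ⧸ RingHom.ker ρ) F)).comp
      (Ideal.Quotient.mk _), ?_, ?_, ?_⟩
  · exact (isDedekindDomain_iff _ F).2 ⟨inferInstance, hDnoeth, hDdim,
      (isIntegrallyClosed_iff F).1 hDic⟩
  · intro a
    rfl
  · exact RingHom.Finite.comp (RingHom.finite_algebraMap.2 hfin)
      (RingHom.Finite.of_surjective _ Ideal.Quotient.mk_surjective)
  · intro h
    refine hnf (isField_of_isIntegral_of_isField ?_ h)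
    intro x y hxy
    exact hinj (congrArg Subtype.val hxy)

end Pool.Agent.K1
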