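import Pool.Agent.H96.RegPt
import Pool.Agent.K1.TPlanar
import Pool.Agent.K1.L2Regular
import Pool.Agent.K1.Ufd2

/-!
The prime ideal defined, near a regular point, by equations that are independent modulo the square
of the maximal ideal.
-/

set_option autoImplicit false

open IsLocalRing

namespace Pool.Agent.K1

theorem IndepM.indepAt {B : Type*} [CommRing B] {c : ℕ} {f : Fin c → B} {n : Ideal B}
    (h : IndepM f n) (hn : n.IsPrime) : Pool.Agent.H96.Reg.IndepAt f n := by
  intro a t ht hmem i
  rw [Finset.mul_sum] at hmem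
  have h1 := h (fun i => t * a i) (by simpa only [mul_assoc] using hmem) i
  exact (hn.mem_or_mem h1).resolve_left ht

/-- The contraction of the ideal generated by the family `f` in the localization at `q`. -/
noncomputable def contr {B : Type*} [CommRing B] {c : ℕ} (f : Fin c → B) (q : Ideal B)
    [q.IsPrime] : Ideal B :=
  ((Ideal.span (Set.range f)).map (algebraMap B (Localization.AtPrime q))).comap
    (algebraMap B (Localization.AtPrime q))

section contr

variable {B : Type*} [CommRing B] {c : ℕ} (f : Fin c → B)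

lemma mem_contr (q : Ideal B) [q.IsPrime] (x : B) :
    x ∈ contr f q ↔ ∃ s, s ∉ q ∧ s * x ∈ Ideal.span (Set.range f) := by
  rw [contr, Ideal.mem_comap, IsLocalization.algebraMap_mem_map_algebraMap_iff q.primeCompl]
  rfl

lemma span_le_contr (q : Ideal B) [q.IsPrime] : Ideal.span (Set.range f) ≤ contr f q :=
  Ideal.le_comap_map

lemma contr_le (q : Ideal B) [hq : q.IsPrime] (hf : ∀ i, f i ∈ q) : contr f q ≤ q := by
  intro x hx
  obtain ⟨s, hs, hsx⟩ := (mem_contr f q x).mp hx
  have h1 : Ideal.span (Set.range f) ≤ q := by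
    rw [Ideal.span_le]
    rintro _ ⟨i, rfl⟩
    exact hf i
  exact (hq.mem_or_mem (h1 hsx)).resolve_left hs

/-- The contractions at a prime and at a smaller prime are equal if the first one is prime. -/
lemma contr_eq (n q : Ideal B) [hn : n.IsPrime] [hq : q.IsPrime] (hqn : q ≤ n)
    (hf : ∀ i, f i ∈ q) (hp : (contr f n).IsPrime) : contr f q = contr f n := by
  have h1 : Ideal.span (Set.range f) ≤ q := by
    rw [Ideal.span_le]
    rintro _ ⟨i, rfl⟩
    exact hf i
  have hle : contr f n ≤ q := by
    intro x hx
    obtain ⟨s, hs, hsx⟩ := (mem_contr f n x).mp hx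
    exact (hq.mem_or_mem (h1 hsx)).resolve_left (fun h => hs (hqn h))
  apply le_antisymm
  · intro x hx
    obtain ⟨s, hs, hsx⟩ := (mem_contr f q x).mp hx
    exact (hp.mem_or_mem (span_le_contr f n hsx)).resolve_left (fun h => hs (hle h))
  · intro x hx
    obtain ⟨s, hs, hsx⟩ := (mem_contr f n x).mp hx
    exact (mem_contr f q x).mpr ⟨s, fun h => hs (hqn h), hsx⟩

/-- A localization of a quotient. -/
theorem isLocalization_contr (n : Ideal B) [hn : n.IsPrime]
    (n' : Ideal (B ⧸ contr f n)) [hn' : n'.IsPrime]
    (hnn : n = n'.comap (Ideal.Quotient.mk (contr f n))) :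
    Nonempty (Localization.AtPrime n' ≃+* Localization.AtPrime n ⧸
      (Ideal.span (Set.range f)).map (algebraMap B (Localization.AtPrime n))) := by
  set J := (Ideal.span (Set.range f)).map (algebraMap B (Localization.AtPrime n)) with hJ
  let R := Localization.AtPrime n
  let g : B ⧸ contr f n →+* R ⧸ J := Ideal.Quotient.lift (contr f n)
    ((Ideal.Quotient.mk J).comp (algebraMap B R)) (by
      intro a ha
      rw [RingHom.comp_apply, Ideal.Quotient.eq_zero_iff_mem]
      exact ha)
  let alg : Algebra (B ⧸ contr f n) (R ⧸ J) := g.toAlgebra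
  have h1 : IsLocalization (n.primeCompl.map (Ideal.Quotient.mk (contr f n))) (R ⧸ J) := by
    refine IsLocalization.of_surjective (M := n.primeCompl) (S := R)
      (Ideal.Quotient.mk (contr f n))
      Ideal.Quotient.mk_surjective (Ideal.Quotient.mk J) Ideal.Quotient.mk_surjective rfl ?_
    rw [Ideal.mk_ker, Ideal.mk_ker]
    exact Ideal.map_mono (span_le_contr f n)
  have h2 : n.primeCompl.map (Ideal.Quotient.mk (contr f n)) = n'.primeCompl := by
    ext x
    obtain ⟨x, rfl⟩ := Ideal.Quotient.mk_surjective x
    constructor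
    · rintro ⟨y, hy, hyx⟩
      intro hx
      apply hy
      have : Ideal.Quotient.mk (contr f n) y ∈ n' := by
        have e : (Ideal.Quotient.mk (contr f n)) y = (Ideal.Quotient.mk (contr f n)) x := hyx
        rw [e]
        exact hx
      exact hnn ▸ (Ideal.mem_comap.mpr this)
    · intro hx
      refine ⟨x, ?_, rfl⟩
      intro h
      apply hx
      have h3 : x ∈ n'.comap (Ideal.Quotient.mk (contr f n)) := by
        rw [← hnn]
        exact h
      exact h3
  rw [h2] at h1
  exact ⟨(IsLocalization.algEquiv n'.primeCompl (Localization.AtPrime n') (R ⧸ J)).toRingEquiv⟩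

end contr

/-- height and dimension of the quotient for a prime ideal -/
theorem height_add_dim_quotient {R : Type*} [CommRing R] (I : Ideal R) [hI : I.IsPrime] :
    (I.height : WithBot ℕ∞) + ringKrullDim (R ⧸ I) ≤ ringKrullDim R := by
  have h1 : ringKrullDim (R ⧸ I) =
      (Order.coheight (⟨I, hI⟩ : PrimeSpectrum R) : WithBot ℕ∞) := by
    rw [ringKrullDim_quotient, Order.coheight_eq_krullDim_Ici]
    congr 1
  have h2 : I.height = Order.height (⟨I, hI⟩ : PrimeSpectrum R) :=
    PrimeSpectrum.height_eq_orderHeight (⟨I, hI⟩ : PrimeSpectrum R)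
  have hne : Nonempty (PrimeSpectrum R) := ⟨⟨I, hI⟩⟩
  rw [h1, h2, ringKrullDim, Order.krullDim_eq_iSup_height_add_coheight_of_nonempty]
  have h3 := le_iSup (fun a : PrimeSpectrum R => Order.height a + Order.coheight a)
    (⟨I, hI⟩ : PrimeSpectrum R)
  exact_mod_cast WithBot.coe_le_coe.mpr h3

/-- The quotient of a regular local ring by independent elements. -/
theorem regular_quot {R : Type*} [CommRing R] [IsRegularLocalRing R] {c : ℕ} (f : Fin c → R)
    (hf : ∀ i, f i ∈ maximalIdeal R)
    (hli : LinearIndependent (ResidueField R)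
      (fun i => (maximalIdeal R).toCotangent ⟨f i, hf i⟩ : Fin c → CotangentSpace R)) :
    (Ideal.span (Set.range f)).IsPrime ∧ IsRegularLocalRing (R ⧸ Ideal.span (Set.range f)) ∧
      ringKrullDim (R ⧸ Ideal.span (Set.range f)) + c = ringKrullDim R := by
  classical
  obtain ⟨h1, h2⟩ := Pool.Agent.H96.Reg.le_height_span c f hf hli
  refine ⟨h1, Pool.Agent.H97.isRegularLocalRing_quotient f hf hli, ?_⟩
  apply le_antisymm
  · refine le_trans ?_ (height_add_dim_quotient (Ideal.span (Set.range f)))
    rw [add_comm]
    gcongr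
    exact_mod_cast WithBot.coe_le_coe.mpr h2
  · have h1 := ringKrullDim_le_ringKrullDim_quotient_add_card (Finset.univ.image f)
      (by
        rw [IsLocalRing.ringJacobson_eq_maximalIdeal]
        intro x hx
        simp only [Finset.coe_image, Finset.coe_univ, Set.image_univ] at hx
        obtain ⟨i, rfl⟩ := hx
        exact hf i)
    have h2 : ((Finset.univ.image f : Finset R) : Set R) = Set.range f := by simp
    rw [h2] at h1
    refine h1.trans ?_
    gcongr
    have h3 : (Finset.univ.image f).card ≤ c := Finset.card_image_le.trans (by simp)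
    exact_mod_cast h3

/-- The surface defined by `f` near the point `n`. -/
theorem surface_at {k B : Type} [Field k] [CommRing B] [IsDomain B] [IsRegularRing B] [Algebra k B]
    [Algebra.FiniteType k B] {N : ℕ} (hN : ringKrullDim B = N) (n : Ideal B) [hn : n.IsMaximal]
    {c : ℕ} (f : Fin c → B) (hf : ∀ i, f i ∈ n) (hind : IndepM f n) :
    (contr f n).IsPrime ∧ ringKrullDim (B ⧸ contr f n) + c = N ∧
      ∀ (n' : Ideal (B ⧸ contr f n)) [n'.IsPrime],
        n = n'.comap (Ideal.Quotient.mk (contr f n)) →
        IsRegularLocalRing (Localization.AtPrime n') := by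
  let R := Localization.AtPrime n
  let f' : Fin c → R := fun i => algebraMap B R (f i)
  have hf' : ∀ i, f' i ∈ maximalIdeal R := fun i =>
    (IsLocalization.AtPrime.to_map_mem_maximal_iff R n (f i)).mpr (hf i)
  have hli := Pool.Agent.H96.Reg.linearIndependent_of_indepAt f n (hind.indepAt hn.isPrime) hf'
  obtain ⟨h1, h2, h3⟩ := regular_quot f' hf' hli
  have hJ : (Ideal.span (Set.range f)).map (algebraMap B R) = Ideal.span (Set.range f') := by
    rw [Ideal.map_span, ← Set.range_comp]
    rfl
  have hprime : (contr f n).IsPrime := by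
    rw [contr, hJ]
    exact Ideal.comap_isPrime _ _
  have hreg : ∀ (n' : Ideal (B ⧸ contr f n)) [n'.IsPrime],
      n = n'.comap (Ideal.Quotient.mk (contr f n)) →
      IsRegularLocalRing (Localization.AtPrime n') ∧
        ringKrullDim (Localization.AtPrime n') + c = ringKrullDim R := by
    intro n' hn' hnn
    obtain ⟨e⟩ := isLocalization_contr f n n' hnn
    rw [hJ] at e
    constructor
    · exact IsRegularLocalRing.of_ringEquiv e.symm
    · rw [ringKrullDim_eq_of_ringEquiv e]
      exact h3
  refine ⟨hprime, ?_, fun n' _ hnn => (hreg n' hnn).1⟩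
  -- the maximal ideal of the quotient
  have hle : contr f n ≤ n := contr_le f n hf
  let n' : Ideal (B ⧸ contr f n) := n.map (Ideal.Quotient.mk (contr f n))
  have hnn : n'.comap (Ideal.Quotient.mk (contr f n)) = n := by
    rw [Ideal.comap_map_of_surjective _ Ideal.Quotient.mk_surjective, ← RingHom.ker_eq_comap_bot,
      Ideal.mk_ker, sup_eq_left]
    exact hle
  have hmax : n'.IsMaximal := by
    refine (Ideal.map_eq_top_or_isMaximal_of_surjective _ Ideal.Quotient.mk_surjective
      hn).resolve_left ?_
    intro h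
    have : n = ⊤ := by
      rw [← hnn]
      change Ideal.comap _ (Ideal.map _ n) = ⊤
      rw [h, Ideal.comap_top]
    exact hn.ne_top this
  obtain ⟨-, h4⟩ := hreg n' hnn.symm
  obtain ⟨s, hs1, hs2, -⟩ := L2R_key (k := k) (A := B ⧸ contr f n)
  obtain ⟨t, ht1, ht2, -⟩ := L2R_key (k := k) (A := B)
  have e1 : ringKrullDim R = (t : WithBot ℕ∞) := by
    rw [IsLocalization.AtPrime.ringKrullDim_eq_height n R, ht1 n hn]
    rfl
  have e2 : ringKrullDim (Localization.AtPrime n') = (s : WithBot ℕ∞) := by
    rw [IsLocalization.AtPrime.ringKrullDim_eq_height n' (Localization.AtPrime n'), hs1 n' hmax]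
    rfl
  rw [e1, e2] at h4
  rw [hs2, ← hN, ht2, h4]

/-- Curves through a regular point of a surface are Cartier there, and the surface is regular at
their generic points. -/
theorem dvr_of_le_regular {A : Type*} [CommRing A] [IsDomain A] [IsNoetherianRing A]
    (n q : Ideal A) [hn : n.IsPrime] [hq : q.IsPrime] (hqn : q ≤ n)
    [IsRegularLocalRing (Localization.AtPrime n)]
    (hdim : ringKrullDim (Localization.AtPrime n) ≤ 2) (hht : q.height = 1) :
    IsDiscreteValuationRing (Localization.AtPrime q) := by
  let O := Localization.AtPrime n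
  let O₂ := Localization.AtPrime q
  have hdom : IsDomain O := IsLocalization.isDomain_localization n.primeCompl_le_nonZeroDivisors
  have hdom2 : IsDomain O₂ := IsLocalization.isDomain_localization q.primeCompl_le_nonZeroDivisors
  have hufd : UniqueFactorizationMonoid O := ufd_of_regular2 hdim
  have hinj : Function.Injective (algebraMap A O) :=
    IsLocalization.injective _ n.primeCompl_le_nonZeroDivisors
  have hdisj : Disjoint (n.primeCompl : Set A) (q : Set A) := by
    rw [Set.disjoint_left]
    intro a ha haq
    exact ha (hqn haq)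
  have hQp : (q.map (algebraMap A O)).IsPrime :=
    IsLocalization.isPrime_of_isPrime_disjoint n.primeCompl O q hq hdisj
  have hQh : (q.map (algebraMap A O)).height = 1 := by
    rw [← hht]
    exact (IsLocalization.height_map_of_disjoint n.primeCompl (S := O) q hdisj)
  obtain ⟨π, hπ⟩ : ∃ π : O, q.map (algebraMap A O) = Ideal.span {π} :=
    (UniqueFactorizationMonoid.isPrincipal_of_height_eq_one hQh).principal
  obtain ⟨⟨⟨π', hπ'q⟩, s⟩, hπs⟩ := (IsLocalization.mem_map_algebraMap_iff n.primeCompl O).mp
    (show π ∈ q.map (algebraMap A O) by rw [hπ]; exact Ideal.mem_span_singleton_self π)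
  dsimp only at hπs
  have hmax : maximalIdeal O₂ = Ideal.span {algebraMap A O₂ π'} := by
    rw [← Localization.AtPrime.map_eq_maximalIdeal]
    apply le_antisymm
    · rw [Ideal.map_le_iff_le_comap]
      intro x hx
      rw [Ideal.mem_comap, Ideal.mem_span_singleton']
      have h1 : algebraMap A O x ∈ Ideal.span {π} := by
        rw [← hπ]
        exact Ideal.mem_map_of_mem _ hx
      obtain ⟨y, hy⟩ := Ideal.mem_span_singleton'.mp h1
      obtain ⟨⟨y', t⟩, hyt⟩ := IsLocalization.surj n.primeCompl y
      dsimp only at hyt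
      have h2 : x * ((t : A) * (s : A)) = y' * π' := by
        apply hinj
        rw [map_mul, map_mul, map_mul, ← hyt, ← hπs, ← hy]
        ring
      have hts : (t : A) * (s : A) ∉ q := by
        intro h
        rcases hq.mem_or_mem h with h | h
        · exact t.2 (hqn h)
        · exact s.2 (hqn h)
      obtain ⟨u, hu⟩ := IsLocalization.map_units O₂ (⟨_, hts⟩ : q.primeCompl)
      refine ⟨((u⁻¹ : O₂ˣ) : O₂) * algebraMap A O₂ y', ?_⟩
      rw [mul_assoc, ← map_mul, ← h2, map_mul, ← hu, mul_comm, mul_assoc, Units.mul_inv, mul_one]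
    · rw [Ideal.span_singleton_le_iff_mem]
      exact Ideal.mem_map_of_mem _ hπ'q
  have hnf : ¬ IsField O₂ := by
    intro hf
    have h1 : maximalIdeal O₂ = ⊥ := (IsLocalRing.isField_iff_maximalIdeal_eq).mp hf
    have h2 : q = ⊥ := by
      rw [eq_bot_iff]
      intro x hx
      have h3 : algebraMap A O₂ x ∈ maximalIdeal O₂ :=
        (IsLocalization.AtPrime.to_map_mem_maximal_iff O₂ q x).mpr hx
      rw [h1, Ideal.mem_bot] at h3
      exact (map_eq_zero_iff _ (IsLocalization.injective _
        q.primeCompl_le_nonZeroDivisors)).mp h3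
    rw [h2, Ideal.height_bot] at hht
    exact zero_ne_one hht
  have hprin : (maximalIdeal O₂).IsPrincipal := ⟨⟨_, hmax⟩⟩
  have htfae := (IsDiscreteValuationRing.TFAE O₂ hnf).out 0 4
  exact htfae.mpr hprin

end Pool.Agent.K1
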