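import Pool.Agent.K1.TDefs
import Pool.Agent.K1.TKernel
import Pool.Agent.K1.L2Regular

/-!
Dimension and transcendence degree of the image of a ring in a field.
-/

set_option autoImplicit false

open Polynomial

namespace Pool.Agent.K1

/-- the inclusion of `B ⧸ Q` in the field `K`, for `Q` the kernel of `τ : B → K` -/
noncomputable def quotK {B K : Type} [CommRing B] [Field K] (τ : B →+* K) (Q : Ideal B)
    (h : RingHom.ker τ = Q) : B ⧸ Q →+* K :=
  Ideal.Quotient.lift Q τ fun b hb => by rwa [← h] at hb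

theorem quotK_mk {B K : Type} [CommRing B] [Field K] (τ : B →+* K) (Q : Ideal B)
    (h : RingHom.ker τ = Q) (b : B) : quotK τ Q h (Ideal.Quotient.mk Q b) = τ b := rfl

theorem quotK_inj {B K : Type} [CommRing B] [Field K] (τ : B →+* K) (Q : Ideal B)
    (h : RingHom.ker τ = Q) : Function.Injective (quotK τ Q h) := by
  apply RingHom.lift_injective_of_ker_le_ideal
  exact h.le

theorem quotK_isFrac {B K : Type} [CommRing B] [Field K] (τ : B →+* K) (Q : Ideal B)
    (h : RingHom.ker τ = Q) (hτ : IsFrac τ) [Algebra (B ⧸ Q) K]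
    (halg : ∀ b : B, algebraMap (B ⧸ Q) K (Ideal.Quotient.mk Q b) = τ b) :
    IsFractionRing (B ⧸ Q) K := by
  have hp : Q.IsPrime := by
    rw [← h]
    exact RingHom.ker_isPrime τ
  have hinj : Function.Injective (algebraMap (B ⧸ Q) K) := by
    have h1 : algebraMap (B ⧸ Q) K = quotK τ Q h := by
      apply Ideal.Quotient.ringHom_ext
      ext b
      exact halg b
    rw [h1]
    exact quotK_inj τ Q h
  have := (faithfulSMul_iff_algebraMap_injective (B ⧸ Q) K).2 hinj
  apply IsFractionRing.of_field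
  intro z
  obtain ⟨a, b, hb, hab⟩ := hτ z
  refine ⟨Ideal.Quotient.mk Q a, Ideal.Quotient.mk Q b, ?_⟩
  rw [halg, halg, eq_div_iff hb]
  exact hab

/-- The dimension of the image of `B` in its fraction field `K`, and the transcendence degree. -/
theorem dim_iff_trdeg {k B K : Type} [Field k] [CommRing B] [Algebra k B]
    [Algebra.FiniteType k B] [Field K] [Algebra k K] (τ : B →+* K) (hτ : IsFrac τ)
    (hk : ∀ c : k, algebraMap k K c = τ (algebraMap k B c)) (d : ℕ) :
    ringKrullDim (B ⧸ RingHom.ker τ) = (d : WithBot ℕ∞) ↔ Algebra.trdeg k K = d := by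
  have hp : (RingHom.ker τ).IsPrime := RingHom.ker_isPrime τ
  let _ : Algebra (B ⧸ RingHom.ker τ) K := (quotK τ _ rfl).toAlgebra
  have hfr : IsFractionRing (B ⧸ RingHom.ker τ) K := quotK_isFrac τ _ rfl hτ fun b => rfl
  have : IsScalarTower k (B ⧸ RingHom.ker τ) K := by
    apply IsScalarTower.of_algebraMap_eq
    intro c
    exact hk c
  have hinj : Function.Injective (algebraMap (B ⧸ RingHom.ker τ) K) :=
    quotK_inj τ _ rfl
  have := (faithfulSMul_iff_algebraMap_injective (B ⧸ RingHom.ker τ) K).2 hinj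
  have : Algebra.IsAlgebraic (B ⧸ RingHom.ker τ) K :=
    IsLocalization.isAlgebraic K (nonZeroDivisors (B ⧸ RingHom.ker τ))
  obtain ⟨s, -, h2, h3⟩ := L2R_key (k := k) (A := B ⧸ RingHom.ker τ)
  have h5 := trdeg_add_eq (R := k) (S := B ⧸ RingHom.ker τ) (A := K)
  rw [_root_.trdeg_eq_zero (R := B ⧸ RingHom.ker τ) (A := K), add_zero, h3] at h5
  rw [h2, ← h5]
  constructor
  · intro h
    have : s = d := by exact_mod_cast h
    rw [this]
  · intro h
    have : s = d := by exact_mod_cast h
    rw [this]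

/-- The image of a surface of `Spec A[X]`, birational to it, is a surface. -/
theorem tmain_dim {k A K : Type} [Field k] [CommRing A] [Algebra k A] [Algebra.FiniteType k A]
    [Field K] [Algebra k K] (τ : A →+* K) (hτ : IsFrac τ)
    (hk : ∀ c : k, algebraMap k K c = τ (algebraMap k A c)) (Q : Ideal A[X]) [Q.IsPrime]
    (hker : RingHom.ker τ = Q.comap C) {α β : A} (hβ : τ β ≠ 0) (h : C β * X - C α ∈ Q)
    (hdim : ringKrullDim (A[X] ⧸ Q) = 2) :
    Algebra.trdeg k K = 2 ∧ ringKrullDim (A ⧸ Q.comap (C : A →+* A[X])) = 2 := by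
  obtain ⟨h1, h2⟩ := kernel_polyR τ hτ Q hker hβ h
  have h3 := dim_iff_trdeg (k := k) (polyR τ (τ α / τ β)) h2 (fun c => by
    rw [Polynomial.algebraMap_apply, polyR_C]
    exact hk c) 2
  have h4 := dim_iff_trdeg (k := k) τ hτ hk 2
  rw [h1] at h3
  rw [hker] at h4
  have h5 : Algebra.trdeg k K = 2 := by
    have := h3.1 (by exact_mod_cast hdim)
    exact_mod_cast this
  refine ⟨h5, ?_⟩
  have := h4.2 (by exact_mod_cast h5)
  exact_mod_cast this

end Pool.Agent.K1
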