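import Pool.Agent.K1.TMainDim

/-!
The projective model of the surface in `Spec A[X]`.
-/

set_option autoImplicit false

open Polynomial

namespace Pool.Agent.K1

/-- the homogeneous coordinates `w i` and `t * w i` -/
noncomputable def wExt {K : Type} [Field K] {n : ℕ} (w : Fin (n + 1) → K) (t : K) :
    Fin (2 * n + 1 + 1) → K := fun i =>
  if h : i.val < n + 1 then w ⟨i.val, h⟩ else t * w ⟨i.val - (n + 1), by omega⟩

theorem wExt_left {K : Type} [Field K] {n : ℕ} (w : Fin (n + 1) → K) (t : K)
    (i : Fin (n + 1)) : wExt w t ⟨i.val, by omega⟩ = w i := by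
  unfold wExt
  rw [dif_pos i.2]

theorem wExt_right {K : Type} [Field K] {n : ℕ} (w : Fin (n + 1) → K) (t : K)
    (i : Fin (n + 1)) : wExt w t ⟨n + 1 + i.val, by omega⟩ = t * w i := by
  unfold wExt
  have h1 : ¬ (n + 1 + i.val < n + 1) := by omega
  rw [dif_neg h1]
  congr 2
  apply Fin.ext
  change n + 1 + i.val - (n + 1) = i.val
  omega

theorem wExt_zero {K : Type} [Field K] {n : ℕ} (w : Fin (n + 1) → K) (t : K) :
    wExt w t 0 = w 0 := wExt_left w t 0

theorem wExt_cases {K : Type} [Field K] {n : ℕ} (w : Fin (n + 1) → K) (t : K)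
    (i : Fin (2 * n + 1 + 1)) : ∃ j, wExt w t i = w j ∨ wExt w t i = t * w j := by
  unfold wExt
  by_cases h : i.val < n + 1
  · exact ⟨_, Or.inl (dif_pos h)⟩
  · exact ⟨_, Or.inr (dif_neg h)⟩

/-- the curves of the first model are curves of the second -/
theorem wExt_curveV {k K : Type} [Field k] [Field K] [Algebra k K] {n : ℕ}
    (w : Fin (n + 1) → K) (t : K) (V : ValuationSubring K) (hV : CurveV k w V) :
    CurveV k (wExt w t) V := by
  obtain ⟨h1, h2, j, hj, hjV, i, hi⟩ := hV
  refine ⟨h1, h2, ?_⟩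
  by_cases ht : t ∈ V
  · refine ⟨⟨j.val, by omega⟩, ?_, ?_, ⟨i.val, by omega⟩, ?_⟩
    · rw [wExt_left]; exact hj
    · intro l
      rw [wExt_left]
      obtain ⟨l', h3 | h3⟩ := wExt_cases w t l
      · rw [h3]; exact hjV l'
      · rw [h3, mul_div_assoc]
        exact V.mul_mem _ _ ht (hjV l')
    · rw [wExt_left, wExt_left]; exact hi
  · have ht0 : t ≠ 0 := by
      rintro rfl
      exact ht V.zero_mem
    have ht' : t⁻¹ ∈ V := (V.mem_or_inv_mem t).resolve_left ht
    refine ⟨⟨n + 1 + j.val, by omega⟩, ?_, ?_, ⟨n + 1 + i.val, by omega⟩, ?_⟩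
    · rw [wExt_right]; exact mul_ne_zero ht0 hj
    · intro l
      rw [wExt_right]
      obtain ⟨l', h3 | h3⟩ := wExt_cases w t l
      · rw [h3]
        have h4 : w l' / (t * w j) = t⁻¹ * (w l' / w j) := by
          rw [div_mul_eq_div_div_swap, div_eq_mul_inv (w l' / w j), mul_comm]
        rw [h4]
        exact V.mul_mem _ _ ht' (hjV l')
      · rw [h3, mul_div_mul_left _ _ ht0]
        exact hjV l'
    · rw [wExt_right, wExt_right, mul_div_mul_left _ _ ht0]; exact hi

/-- the affine ring of the second model -/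
theorem wExt_adjoin {k A K : Type} [Field k] [CommRing A] [Algebra k A] [Field K] [Algebra k K]
    (τ : A →+* K) (hk : ∀ c : k, algebraMap k K c = τ (algebraMap k A c)) {n : ℕ}
    (w : Fin (n + 1) → A) (hw0 : w 0 = 1) (hw : Algebra.adjoin k (Set.range w) = ⊤) (t : K) :
    Set.range (polyR τ t) = (Algebra.adjoin k (Set.range fun i =>
      wExt (fun i => τ (w i)) t i / wExt (fun i => τ (w i)) t 0) : Set K) := by
  have h0 : wExt (fun i => τ (w i)) t 0 = 1 := by
    rw [wExt_zero]
    rw [hw0, map_one]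
  simp only [h0, div_one]
  set S := Algebra.adjoin k (Set.range (wExt (fun i => τ (w i)) t)) with hS
  have hwS : ∀ i, τ (w i) ∈ S := by
    intro i
    apply Algebra.subset_adjoin
    exact ⟨⟨i.val, by omega⟩, wExt_left (fun i => τ (w i)) t i⟩
  have htS : t ∈ S := by
    apply Algebra.subset_adjoin
    refine ⟨⟨n + 1 + (0 : Fin (n + 1)).val, by omega⟩, ?_⟩
    rw [wExt_right]
    rw [hw0, map_one, mul_one]
  have hτS : ∀ a : A, τ a ∈ S := by
    intro a
    have ha : a ∈ Algebra.adjoin k (Set.range w) := by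
      rw [hw]; exact Algebra.mem_top
    induction ha using Algebra.adjoin_induction with
    | mem x hx =>
      obtain ⟨i, rfl⟩ := hx
      exact hwS i
    | algebraMap c =>
      rw [← hk]
      exact S.algebraMap_mem c
    | add x y _ _ hx hy =>
      rw [map_add]; exact S.add_mem hx hy
    | mul x y _ _ hx hy =>
      rw [map_mul]; exact S.mul_mem hx hy
  apply Set.Subset.antisymm
  · rintro _ ⟨f, rfl⟩
    change polyR τ t f ∈ S
    induction f using Polynomial.induction_on' with
    | add f g hf hg =>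
      rw [map_add]; exact S.add_mem hf hg
    | monomial m a =>
      rw [← C_mul_X_pow_eq_monomial, map_mul, map_pow, polyR_C, polyR_X]
      exact S.mul_mem (hτS a) (S.pow_mem htS m)
  · intro x hx
    change x ∈ S at hx
    induction hx using Algebra.adjoin_induction with
    | mem x hx =>
      obtain ⟨i, rfl⟩ := hx
      obtain ⟨j, h3 | h3⟩ := wExt_cases (fun i => τ (w i)) t i
      · exact ⟨C (w j), by rw [polyR_C]; exact h3.symm⟩
      · exact ⟨X * C (w j), by rw [map_mul, polyR_C, polyR_X]; exact h3.symm⟩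
    | algebraMap c =>
      exact ⟨C (algebraMap k A c), by rw [polyR_C, hk]⟩
    | add x y _ _ hx hy =>
      obtain ⟨f, rfl⟩ := hx
      obtain ⟨g, rfl⟩ := hy
      exact ⟨f + g, map_add _ _ _⟩
    | mul x y _ _ hx hy =>
      obtain ⟨f, rfl⟩ := hx
      obtain ⟨g, rfl⟩ := hy
      exact ⟨f * g, map_mul _ _ _⟩

/-- a curve of the first model does not lie over a line `y = const` -/
theorem not_domR_line {k A K L : Type} [Field k] [CommRing A] [Algebra k A] [Field K]
    [Algebra k K] [Field L] (τ : A →+* K)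
    (hk : ∀ c : k, algebraMap k K c = τ (algebraMap k A c)) {n : ℕ} (w : Fin (n + 1) → A)
    (hw0 : w 0 = 1) (t : K) (ρ : A[X] →+* L) (y : A →ₐ[k] k)
    (hρ : ∀ a, ρ (C a) = ρ (C (algebraMap k A (y a)))) (V : ValuationSubring K)
    (hV : CurveV k (fun i => τ (w i)) V) : ¬ DomR (polyR τ t) ρ V := by
  intro hD
  obtain ⟨h1, h2, j, hj, hjV, i, hi⟩ := hV
  beta_reduce at hj hjV hi
  have hres : ∀ a : A, τ a - algebraMap k K (y a) ∈ V.nonunits := by
    intro a
    have h3 := (hD (C a - C (algebraMap k A (y a)))).2.1 (by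
      rw [map_sub, hρ a, sub_self])
    rw [map_sub, polyR_C, polyR_C, ← hk] at h3
    exact h3
  have hmem : ∀ a : A, τ a ∈ V := by
    intro a
    have := (hD (C a)).1
    rwa [polyR_C] at this
  have hjinv : (τ (w j))⁻¹ ∈ V := by
    have := hjV 0
    rwa [hw0, map_one, one_div] at this
  have hyj : y (w j) ≠ 0 := by
    intro h0
    have h3 := hres (w j)
    rw [h0, map_zero, sub_zero, tord_nonunits_iff] at h3
    rcases h3 with h3 | h3
    · exact hj h3
    · exact h3.2 hjinv
  apply hi (y (w i) / y (w j))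
  have hyj' : algebraMap k K (y (w j)) ≠ 0 := fun h => hyj ((map_eq_zero _).1 h)
  have h4 : τ (w i) / τ (w j) - algebraMap k K (y (w i) / y (w j)) =
      (τ (w j))⁻¹ * ((τ (w i) - algebraMap k K (y (w i))) -
        algebraMap k K (y (w i) / y (w j)) * (τ (w j) - algebraMap k K (y (w j)))) := by
    rw [map_div₀]
    field_simp
    ring
  rw [h4]
  have hsub : ∀ a b : K, a ∈ V.nonunits → b ∈ V.nonunits → a - b ∈ V.nonunits := by
    intro a b ha hb
    rw [ValuationSubring.mem_nonunits_iff] at ha hb ⊢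
    exact lt_of_le_of_lt (V.valuation.map_sub a b) (max_lt ha hb)
  have hmul : ∀ a b : K, a ∈ V → b ∈ V.nonunits → a * b ∈ V.nonunits := by
    intro a b ha hb
    rw [ValuationSubring.mem_nonunits_iff] at hb ⊢
    rw [map_mul]
    calc V.valuation a * V.valuation b ≤ 1 * V.valuation b :=
          mul_le_mul_left ((V.valuation_le_one_iff a).2 ha) _
      _ < 1 := by rw [one_mul]; exact hb
  exact hmul _ _ hjinv (hsub _ _ (hres _) (hmul _ _ (h2 _) (hres _)))

end Pool.Agent.K1
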