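import Pool.Agent.K1.TMainDim
import Pool.Agent.K1.TDvr

/-!
Curves of `Spec B` on a surface `Spec (B ⧸ Q)`.
-/

set_option autoImplicit false

open Polynomial

namespace Pool.Agent.K1

section

variable {B F : Type} [CommRing B] [Field F]

/-- the curve `ρ` as a curve of the surface `Spec (B ⧸ Q)` -/
noncomputable def quotR (ρ : B →+* F) (Q : Ideal B) (hQ : Q ≤ RingHom.ker ρ) : B ⧸ Q →+* F :=
  Ideal.Quotient.lift Q ρ fun _ hb => hQ hb

theorem quotR_mk (ρ : B →+* F) (Q : Ideal B) (hQ : Q ≤ RingHom.ker ρ) (b : B) :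
    quotR ρ Q hQ (Ideal.Quotient.mk Q b) = ρ b := rfl

theorem quotR_isFrac (ρ : B →+* F) (Q : Ideal B) (hQ : Q ≤ RingHom.ker ρ) (h : IsFrac ρ) :
    IsFrac (quotR ρ Q hQ) := by
  intro f
  obtain ⟨a, b, hb, hab⟩ := h f
  exact ⟨Ideal.Quotient.mk Q a, Ideal.Quotient.mk Q b, hb, hab⟩

theorem quotR_ker (ρ : B →+* F) (Q : Ideal B) (hQ : Q ≤ RingHom.ker ρ) :
    (RingHom.ker (quotR ρ Q hQ)).comap (Ideal.Quotient.mk Q) = RingHom.ker ρ := by
  ext b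
  rw [Ideal.mem_comap, RingHom.mem_ker, RingHom.mem_ker, quotR_mk]

theorem quotR_ker_inj {F' : Type} [Field F'] (ρ : B →+* F) (ρ' : B →+* F') (Q : Ideal B)
    (hQ : Q ≤ RingHom.ker ρ) (hQ' : Q ≤ RingHom.ker ρ')
    (h : RingHom.ker (quotR ρ Q hQ) = RingHom.ker (quotR ρ' Q hQ')) :
    RingHom.ker ρ = RingHom.ker ρ' := by
  rw [← quotR_ker ρ Q hQ, h, quotR_ker]

theorem quotR_dim (ρ : B →+* F) (Q : Ideal B) (hQ : Q ≤ RingHom.ker ρ) :
    ringKrullDim ((B ⧸ Q) ⧸ RingHom.ker (quotR ρ Q hQ)) = ringKrullDim (B ⧸ RingHom.ker ρ) := by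
  let g : B →+* (B ⧸ Q) ⧸ RingHom.ker (quotR ρ Q hQ) :=
    (Ideal.Quotient.mk (RingHom.ker (quotR ρ Q hQ))).comp (Ideal.Quotient.mk Q)
  have hg : Function.Surjective g :=
    Ideal.Quotient.mk_surjective.comp Ideal.Quotient.mk_surjective
  have hk : RingHom.ker g = RingHom.ker ρ := by
    rw [← quotR_ker ρ Q hQ]
    ext b
    rw [RingHom.mem_ker, Ideal.mem_comap]
    exact Ideal.Quotient.eq_zero_iff_mem
  rw [← hk]
  exact (ringKrullDim_eq_of_ringEquiv (RingHom.quotientKerEquivOfSurjective hg)).symm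

end

section

variable {k B F : Type} [Field k] [CommRing B] [Algebra k B] [Field F]

/-- the point `σ` as a point of the surface `Spec (B ⧸ Q)` -/
noncomputable def quotZ (σ : B →ₐ[k] k) (Q : Ideal B) (hQ : Q ≤ RingHom.ker σ) :
    B ⧸ Q →ₐ[k] k :=
  Ideal.Quotient.liftₐ Q σ fun _ hb => hQ hb

theorem quotZ_mk (σ : B →ₐ[k] k) (Q : Ideal B) (hQ : Q ≤ RingHom.ker σ) (b : B) :
    quotZ σ Q hQ (Ideal.Quotient.mk Q b) = σ b := rfl

theorem quotR_centred (ρ : B →+* F) (Q : Ideal B) (hQ : Q ≤ RingHom.ker ρ)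
    (σ : B →ₐ[k] k) (hσ : Q ≤ RingHom.ker σ) {v : ValuationSubring F} (h : CentredAt ρ v σ) :
    CentredAt (quotR ρ Q hQ) v (quotZ σ Q hσ) := by
  intro a
  obtain ⟨b, rfl⟩ := Ideal.Quotient.mk_surjective a
  exact h b

theorem quotR_height [Algebra.FiniteType k B] (ρ : B →+* F) (Q : Ideal B) [Q.IsPrime]
    (hQ : Q ≤ RingHom.ker ρ) (h2 : ringKrullDim (B ⧸ Q) = 2)
    (h1 : ringKrullDim (B ⧸ RingHom.ker ρ) = 1) : (RingHom.ker (quotR ρ Q hQ)).height = 1 := by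
  have hp : (RingHom.ker (quotR ρ Q hQ)).IsPrime := RingHom.ker_isPrime _
  exact height_one_of_dim (k := k) h2 _ ((quotR_dim ρ Q hQ).trans h1)

theorem quotR_dvr [IsAlgClosed k] [Algebra.FiniteType k B] (ρ : B →+* F) (Q : Ideal B)
    [Q.IsPrime] (hQ : Q ≤ RingHom.ker ρ) (h2 : ringKrullDim (B ⧸ Q) = 2)
    (h1 : ringKrullDim (B ⧸ RingHom.ker ρ) = 1) (σ : B →ₐ[k] k)
    (hσ : RingHom.ker ρ ≤ RingHom.ker σ) (hreg : RegPt (quotZ σ Q (hQ.trans hσ)))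
    [hp : (RingHom.ker (quotR ρ Q hQ)).IsPrime] :
    IsDiscreteValuationRing (Localization.AtPrime (RingHom.ker (quotR ρ Q hQ))) := by
  refine dvr_of_regPt h2 (quotZ σ Q (hQ.trans hσ)) hreg _ ?_ (quotR_height (k := k) ρ Q hQ h2 h1)
  intro a ha
  obtain ⟨b, rfl⟩ := Ideal.Quotient.mk_surjective a
  rw [RingHom.mem_ker, quotR_mk] at ha
  rw [RingHom.mem_ker, quotZ_mk]
  exact hσ ha

end

end Pool.Agent.K1
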