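import Pool.Agent.K1.TMainQuot
import Pool.Agent.K1.TBirat
import Pool.Agent.K1.TVal
import Pool.Agent.K1.TPoly

/-!
The valuation ring of a curve on the surface.
-/

set_option autoImplicit false

open Polynomial

namespace Pool.Agent.K1

/-- the relation between the third coordinate and the coordinates of the image surface -/
theorem tmain_rel {A F : Type} [CommRing A] [IsNoetherianRing A] [Field F] (ρ : A →+* F)
    (hρ : IsFrac ρ) (a : F) (Q : Ideal A[X]) [Q.IsPrime] (hQ : Q ≤ RingHom.ker (polyR ρ a))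
    {f₀ f₁ : A[X]} (hlead : ρ f₀.leadingCoeff ≠ 0)
    (hgcd : Ideal.span {f₀.map ρ, f₁.map ρ} = Ideal.span {X - C a}) (h₀ : f₀ ∈ Q)
    (h₁ : f₁ ∈ Q) : ∃ α β : A, ρ β ≠ 0 ∧ C β * X - C α ∈ Q ∧ ρ α = a * ρ β ∧
      ∀ (K : Type) [Field K] (τ : A →+* K), RingHom.ker τ = Q.comap C → τ β ≠ 0 := by
  obtain ⟨α, β, hβ, h⟩ := birat hρ hlead hgcd h₀ h₁ hQ
  refine ⟨α, β, hβ, h, ?_, ?_⟩
  · have h1 := hQ h
    rw [RingHom.mem_ker, map_sub, map_mul, polyR_C, polyR_C, polyR_X, sub_eq_zero] at h1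
    rw [← h1, mul_comm]
  · intro K _ τ hτ h0
    have h1 : β ∈ RingHom.ker τ := h0
    rw [hτ, Ideal.mem_comap] at h1
    have h2 := hQ h1
    rw [RingHom.mem_ker, polyR_C] at h2
    exact hβ h2

theorem tmain_val {k A K F : Type} [Field k] [IsAlgClosed k] [CommRing A] [Algebra k A]
    [Algebra.FiniteType k A] [Field K] [Field F] (ρ : A →+* F) (hρ : IsFrac ρ)
    (hdim : ringKrullDim (A ⧸ RingHom.ker ρ) = 1) (a : F)
    (ha : ∀ v : ValuationSubring F, (∀ b, ρ b ∈ v) → a ∈ v) (Q : Ideal A[X]) [Q.IsPrime]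
    (hQ : Q ≤ RingHom.ker (polyR ρ a)) (h2 : ringKrullDim (A[X] ⧸ Q) = 2)
    {f₀ f₁ : A[X]} (hlead : ρ f₀.leadingCoeff ≠ 0)
    (hgcd : Ideal.span {f₀.map ρ, f₁.map ρ} = Ideal.span {X - C a}) (h₀ : f₀ ∈ Q)
    (h₁ : f₁ ∈ Q) (σ : A[X] →ₐ[k] k) (hσ : RingHom.ker (polyR ρ a) ≤ RingHom.ker σ)
    (hreg : RegPt (quotZ σ Q (hQ.trans hσ))) (τ : A →+* K) (hτ : IsFrac τ)
    (hker : RingHom.ker τ = Q.comap C) :
    ∃ V : ValuationSubring K, DomR τ ρ V ∧ IsDiscV V ∧ (∀ V', DomR τ ρ V' → V' = V) ∧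
      ∃ φ : F →+* IsLocalRing.ResidueField V, IsRes τ ρ V φ ∧ Function.Bijective φ := by
  have hnoeth : IsNoetherianRing A := Algebra.FiniteType.isNoetherianRing k A
  obtain ⟨α, β, hβ, hαβ, hα, hτβ⟩ := tmain_rel ρ hρ a Q hQ hlead hgcd h₀ h₁
  have hτβ' := hτβ K τ hker
  obtain ⟨hkerσ, hfrσ⟩ := kernel_polyR τ hτ Q hker hτβ' hαβ
  have h1 := krullDim_polyR hρ hdim ha
  have hP : (RingHom.ker (quotR (polyR ρ a) Q hQ)).IsPrime := RingHom.ker_isPrime _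
  have hD := quotR_dvr (polyR ρ a) Q hQ h2 h1 σ hσ hreg
  have hpi : ∃ π : A[X], polyR τ (τ α / τ β) π ≠ 0 ∧ polyR ρ a π = 0 ∧ ∀ f : A[X],
      polyR ρ a f = 0 → ∃ b s : A[X], polyR ρ a s ≠ 0 ∧
        polyR τ (τ α / τ β) (f * s) = polyR τ (τ α / τ β) (π * b) := by
    subst hkerσ
    exact exists_pi_of_dvr (polyR τ (τ α / τ β)) (polyR ρ a) hQ
      (RingHom.ker (quotR (polyR ρ a) _ hQ)) (fun f => by rw [RingHom.mem_ker, quotR_mk]) hD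
  obtain ⟨V, hV1, hV2, hV3, φ, hφ, hbij⟩ := exists_unique_val (polyR τ (τ α / τ β)) hfrσ
    (polyR ρ a) (isFrac_polyR hρ a) (by rw [hkerσ]; exact hQ) hpi
  have key := fun V => domR_polyR_iff τ ρ hτβ' hβ hα V
  refine ⟨V, (key V).1.2 hV1, hV2, fun V' hV' => hV3 V' ((key V').1.1 hV'), φ, ?_, hbij⟩
  exact ((key V).2 ((key V).1.2 hV1) φ).2 hφ

end Pool.Agent.K1
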