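import Pool.Agent.K1.TOrd
import Pool.Agent.K1.TDed
import Pool.Agent.K1.TPlaces
import Pool.Agent.K1.TOrdSum

/-!
The places of a curve: assembly.
-/

set_option autoImplicit false

namespace Pool.Agent.K1

theorem placeThy {k A F : Type} [Field k] [IsAlgClosed k] [CommRing A] [Algebra k A]
    [Algebra.FiniteType k A] [Field F] (ρ : A →+* F) (hρ : IsFrac ρ)
    (hdim : ringKrullDim (A ⧸ RingHom.ker ρ) = 1) : PlaceThy k ρ := by
  obtain ⟨D, _, _, _, _, δ, hδ, hfin, hD⟩ := exists_dedekind (k := k) ρ hρ hdim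
  obtain ⟨h1, h2, h3, h4, h5, h6, h7⟩ := places_basic (k := k) ρ hρ D δ hδ hfin hD
  refine ⟨h1, h2, h3, h4, h5, h6, h7, fun z t n => ?_⟩
  have key : ∀ c d : A, ρ c ≠ 0 → ρ d ≠ 0 → (t : F) * ρ d = ρ c →
      ((ordPt (RingHom.ker ρ) z c).toNat : ℤ) - ((ordPt (RingHom.ker ρ) z d).toNat : ℤ) =
        ∑ᶠ v ∈ {v : ValuationSubring F | v ≠ ⊤ ∧ CentredAt ρ v z}, ordV v (t : F) := by
    intro c d hc hd hcd
    rw [ordPt_eq_sum ρ hρ D δ hδ hfin hD z c hc, ordPt_eq_sum ρ hρ D δ hδ hfin hD z d hd,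
      ← finsum_mem_sub_distrib _ _ (h6 z)]
    refine finsum_mem_congr rfl fun v hv => ?_
    have hdisc : IsDiscV v := h1 v hv.1 fun a => (hv.2 a).1
    rw [← hcd, ordV_mul hdisc t.ne_zero hd, add_sub_cancel_right]
  constructor
  · rintro ⟨c, d, hc, hd, hcd, rfl⟩
    exact key c d hc hd hcd
  · rintro rfl
    obtain ⟨c, d, hd, hcd⟩ := hρ t
    have hc : ρ c ≠ 0 := by
      rw [← hcd]
      exact mul_ne_zero t.ne_zero hd
    exact ⟨c, d, hc, hd, hcd, (key c d hc hd hcd).symm⟩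

end Pool.Agent.K1
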