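import Pool.Agent.H96.RegPt

/-!
Part II of theorem B: regular local rings and quotients by part of a regular system of parameters.
-/

set_option autoImplicit false

namespace Pool.Agent.K1

open IsLocalRing

theorem isDomain_of_regular {R : Type*} [CommRing R] [IsRegularLocalRing R] : IsDomain R :=
  Pool.Agent.H96.Reg.isDomain_of_isRegularLocalRing R

/-- Height plus dimension of the quotient is at most the dimension. -/
theorem rgd_height_add_le {R : Type*} [CommRing R] (P : Ideal R) [hP : P.IsPrime] :
    (P.height : WithBot ℕ∞) + ringKrullDim (R ⧸ P) ≤ ringKrullDim R := by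
  have : Nonempty (PrimeSpectrum R) := ⟨⟨P, hP⟩⟩
  have h1 : ringKrullDim (R ⧸ P) = (Order.coheight (⟨P, hP⟩ : PrimeSpectrum R) : WithBot ℕ∞) := by
    rw [ringKrullDim_quotient, Order.coheight_eq_krullDim_Ici]
    have : PrimeSpectrum.zeroLocus (P : Set R) = Set.Ici (⟨P, hP⟩ : PrimeSpectrum R) := by
      ext q
      rw [PrimeSpectrum.mem_zeroLocus, Set.mem_Ici]
      rfl
    rw [this]
  have h2 : P.height = Order.height (⟨P, hP⟩ : PrimeSpectrum R) :=
    PrimeSpectrum.height_eq_orderHeight ⟨P, hP⟩
  rw [h1, h2, ringKrullDim, Order.krullDim_eq_iSup_height_add_coheight_of_nonempty]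
  exact_mod_cast le_iSup (fun a : PrimeSpectrum R => Order.height a + Order.coheight a)
    (⟨P, hP⟩ : PrimeSpectrum R)

/-- the quotient of a regular local ring by part of a regular system of parameters -/
theorem regular_quot_ind {R : Type*} [CommRing R] [IsRegularLocalRing R] (r : ℕ) (f : Fin r → R)
    (hf : ∀ i, f i ∈ IsLocalRing.maximalIdeal R)
    (hind : ∀ α : Fin r → R, ∑ i, α i * f i ∈ (IsLocalRing.maximalIdeal R) ^ 2 →
      ∀ i, α i ∈ IsLocalRing.maximalIdeal R) :
    IsRegularLocalRing (R ⧸ Ideal.span (Set.range f)) ∧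
      ringKrullDim (R ⧸ Ideal.span (Set.range f)) + r = ringKrullDim R := by
  classical
  have hli : LinearIndependent (ResidueField R)
      (fun i => (maximalIdeal R).toCotangent ⟨f i, hf i⟩ : Fin r → CotangentSpace R) := by
    rw [Fintype.linearIndependent_iff]
    intro g hg
    have hsurj : ∀ i, ∃ a : R, residue R a = g i := fun i => residue_surjective (g i)
    choose α hα using hsurj
    have h1 : (maximalIdeal R).toCotangent (∑ i, α i • (⟨f i, hf i⟩ : maximalIdeal R)) = 0 := by
      rw [map_sum, ← hg]
      refine Finset.sum_congr rfl fun i _ => ?_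
      rw [map_smul, ← hα i]
      rfl
    rw [Ideal.toCotangent_eq_zero] at h1
    have h2 : ∑ i, α i * f i ∈ (maximalIdeal R) ^ 2 := by
      simpa using h1
    intro i
    rw [← hα i, residue_eq_zero_iff]
    exact hind α h2 i
  have hreg := Pool.Agent.H97.isRegularLocalRing_quotient f hf hli
  refine ⟨hreg, le_antisymm ?_ ?_⟩
  · obtain ⟨hp, hh⟩ := Pool.Agent.H96.Reg.le_height_span r f hf hli
    refine le_trans ?_ (rgd_height_add_le (Ideal.span (Set.range f)))
    rw [add_comm]
    gcongr
    exact_mod_cast hh
  · have h1 := ringKrullDim_le_ringKrullDim_quotient_add_card (Finset.univ.image f)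
      (by
        rw [IsLocalRing.ringJacobson_eq_maximalIdeal]
        intro x hx
        simp only [Finset.coe_image, Finset.coe_univ, Set.image_univ] at hx
        obtain ⟨i, rfl⟩ := hx
        exact hf i)
    have h2 : ((Finset.univ.image f : Finset R) : Set R) = Set.range f := by simp
    rw [h2] at h1
    refine h1.trans ?_
    gcongr
    have h3 : (Finset.univ.image f).card ≤ r := Finset.card_image_le.trans (by simp)
    exact_mod_cast h3

end Pool.Agent.K1
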