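import Pool.Agent.K1.TLocal
import Pool.Agent.K1.TClass

/-!
The surface near a special point.
-/

set_option autoImplicit false

open Polynomial

namespace Pool.Agent.K1

theorem satI_eq_contr {B : Type} [CommRing B] {c : ℕ} (f : Fin c → B) (q : Ideal B)
    [q.IsPrime] : satI (Ideal.span (Set.range f)) q = contr f q := by
  ext x
  rw [mem_contr]
  rfl

theorem indepM_of_const {k B : Type} [Field k] [CommRing B] [Algebra k B] (σ : B →ₐ[k] k)
    {c : ℕ} (f : Fin c → B) (hf : ∀ j, σ (f j) = 0)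
    (hind : ∀ α : Fin c → k, ∑ j, α j • f j ∈ (RingHom.ker σ) ^ 2 → ∀ j, α j = 0) :
    IndepM f (RingHom.ker σ) := by
  intro a ha i
  have h1 : ∑ j, σ (a j) • f j ∈ (RingHom.ker σ) ^ 2 := by
    have e : ∑ j, σ (a j) • f j = ∑ j, a j * f j -
        ∑ j, (a j - algebraMap k B (σ (a j))) * f j := by
      rw [← Finset.sum_sub_distrib]
      refine Finset.sum_congr rfl fun j _ => ?_
      rw [Algebra.smul_def]
      ring
    rw [e]
    refine Ideal.sub_mem _ ha (Ideal.sum_mem _ fun j _ => ?_)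
    rw [pow_two]
    refine Ideal.mul_mem_mul ?_ (hf j)
    change σ _ = 0
    rw [map_sub, AlgHom.commutes]
    simp
  exact hind _ h1 i

theorem surf_local {k B : Type} [Field k] [IsAlgClosed k] [CommRing B] [IsDomain B]
    [Algebra k B] [Algebra.FiniteType k B] [IsRegularRing B] (m : ℕ)
    (hdim : ringKrullDim B = ((m + 4 : ℕ) : WithBot ℕ∞)) (σ : B →ₐ[k] k)
    [hσ : (RingHom.ker σ).IsPrime] (f : Fin (m + 2) → B) (hf : ∀ j, σ (f j) = 0)
    (hind : ∀ α : Fin (m + 2) → k, ∑ j, α j • f j ∈ (RingHom.ker σ) ^ 2 → ∀ j, α j = 0) :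
    (satI (Ideal.span (Set.range f)) (RingHom.ker σ)).IsPrime ∧
      satI (Ideal.span (Set.range f)) (RingHom.ker σ) ≤ RingHom.ker σ ∧
      ringKrullDim (B ⧸ satI (Ideal.span (Set.range f)) (RingHom.ker σ)) = 2 ∧
      ∀ z : (B ⧸ satI (Ideal.span (Set.range f)) (RingHom.ker σ)) →ₐ[k] k,
        (∀ b, z (Ideal.Quotient.mk _ b) = σ b) → RegPt z := by
  have hmax : (RingHom.ker σ).IsMaximal := by
    refine RingHom.ker_isMaximal_of_surjective (σ : B →+* k) fun c => ⟨algebraMap k B c, ?_⟩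
    exact σ.commutes c
  have hI := indepM_of_const σ f hf hind
  obtain ⟨h1, h2, h3⟩ := surface_at (k := k) hdim (RingHom.ker σ) f hf hI
  have hle : satI (Ideal.span (Set.range f)) (RingHom.ker σ) ≤ RingHom.ker σ := by
    rw [satI_eq_contr]
    exact contr_le f _ hf
  refine ⟨by rw [satI_eq_contr]; exact h1, hle, ?_, ?_⟩
  · rw [satI_eq_contr]
    have h4 : ringKrullDim (B ⧸ contr f (RingHom.ker σ)) + ((m + 2 : ℕ) : WithBot ℕ∞) =
        2 + ((m + 2 : ℕ) : WithBot ℕ∞) := by
      rw [h2]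
      push_cast
      ring
    exact (ENat.WithBot.add_natCast_cancel).mp h4
  · have key : ∀ J : Ideal B, J = contr f (RingHom.ker σ) → ∀ z : (B ⧸ J) →ₐ[k] k,
        (∀ b, z (Ideal.Quotient.mk _ b) = σ b) → RegPt z := by
      rintro _ rfl z hz
      refine h3 (RingHom.ker z) ?_
      ext b
      rw [Ideal.mem_comap, RingHom.mem_ker, RingHom.mem_ker]
      exact ⟨fun h => (hz b).trans h, fun h => (hz b).symm.trans h⟩
    exact key _ (satI_eq_contr f _)

end Pool.Agent.K1
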