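import Mathlib

/-!
# The exact contraction argument (Step A of the proof of the vanishing of `K_1`)

`ι` is the finite set of triples `(D; C, R)`.  `D`, `C`, `R` are the three entries, `A` the class
of `C` on `D`, `lam` the triple `(C, R, l)` formed of `C`, `R` and the line `l` through `D`.
-/

namespace Pool.Agent.K1

open Finset

/-- Incidence of the points `D` and the lines for fixed `C`: the line knows `C`; a triple is
determined by its line and its point; two different points for the same `C` lie on a common line,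
and on only one; every point for `C` lies on the same number of lines. -/
structure LineSys {ι 𝒟 𝒞 Λ : Type*} [Fintype ι] (D : ι → 𝒟) (C : ι → 𝒞) (lam : ι → Λ) : Prop where
  /-- the line knows `C` -/
  lamC : ∀ i j, lam i = lam j → C i = C j
  /-- a triple is determined by its line and its point -/
  inj : ∀ i j, lam i = lam j → D i = D j → i = j
  /-- two points lie on a common line -/
  join : ∀ i j, C i = C j → D i ≠ D j →
    ∃ k l, lam k = lam l ∧ D k = D i ∧ C k = C i ∧ D l = D j ∧ C l = C j
  /-- two points lie on only one common line -/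
  uniq : ∀ i j k l, lam i = lam j → lam k = lam l → C i = C k → D i = D k → D j = D l →
    D i ≠ D j → i = k ∧ j = l
  /-- every point lies on the same number of lines -/
  deg : ∀ i j, C i = C j → Nat.card {k // C k = C i ∧ D k = D i} =
    Nat.card {k // C k = C j ∧ D k = D j}

section

variable {ι 𝒟 𝒞 Λ : Type*} [Fintype ι] {D : ι → 𝒟} {C : ι → 𝒞} {lam : ι → Λ}

open Classical in
/-- The sum of the squares of the sums along the lines is at most the sum of the squares, for a
function of `(D, C)` with sum zero for each `C`. -/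
theorem LineSys.sum_sq_le (h : LineSys D C lam) (a : ι → ℝ)
    (ha : ∀ i j, D i = D j → C i = C j → a i = a j)
    (h0 : ∀ i, ∑ j with C j = C i, a j = 0) :
    ∑ i, ∑ j with lam j = lam i, a i * a j ≤ ∑ i, a i ^ 2 := by
  rcases isEmpty_or_nonempty ι with hemp | hne
  · simp
  -- the function of the pair
  set pr : ι → 𝒟 × 𝒞 := fun i => (D i, C i) with hpr
  -- representatives of the pairs `(D, C)`
  set rep : ι → ι := fun i => Function.invFun pr (pr i) with hrep
  have hrep1 : ∀ i, pr (rep i) = pr i := fun i => Function.invFun_eq ⟨i, rfl⟩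
  have hrep2 : ∀ i j, pr i = pr j → rep i = rep j := fun i j hij => by
    simp only [hrep]; rw [hij]
  have hC : ∀ i, C (rep i) = C i := fun i => congrArg Prod.snd (hrep1 i)
  have hD : ∀ i, D (rep i) = D i := fun i => congrArg Prod.fst (hrep1 i)
  have harep : ∀ i, a (rep i) = a i := fun i => ha _ _ (hD i) (hC i)
  set P : Finset ι := univ.image rep with hP
  have hrepP : ∀ i, rep i ∈ P := fun i => mem_image_of_mem _ (mem_univ i)
  have hPrep : ∀ p ∈ P, rep p = p := by
    intro p hp
    obtain ⟨i, -, rfl⟩ := mem_image.1 hp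
    exact hrep2 _ _ (hrep1 i)
  -- the sum over the points for `C` vanishes
  have h1 : ∀ p ∈ P, ∑ q ∈ P with C q = C p, a q = 0 := by
    intro p hp
    have hfib : ∑ j with C j = C p, a j =
        ∑ q ∈ P with C q = C p, ∑ j with C j = C p ∧ rep j = q, a j := by
      rw [← sum_fiberwise_of_maps_to (s := univ.filter fun j => C j = C p)
        (t := P.filter fun q => C q = C p) (g := rep)]
      · refine sum_congr rfl fun q _ => sum_congr ?_ fun _ _ => rfl
        rw [filter_filter]
      · intro j hj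
        rw [mem_filter] at hj ⊢
        exact ⟨hrepP j, by rw [hC]; exact hj.2⟩
    have hcount : ∀ q ∈ P.filter (fun q => C q = C p),
        ∑ j with C j = C p ∧ rep j = q, a j =
          (Nat.card {k // C k = C p ∧ D k = D p} : ℝ) * a q := by
      intro q hq
      rw [mem_filter] at hq
      have e1 : ∀ j ∈ univ.filter (fun j => C j = C p ∧ rep j = q), a j = a q := by
        intro j hj
        rw [mem_filter] at hj
        rw [← hj.2.2, harep]
      rw [sum_congr rfl e1, sum_const, nsmul_eq_mul]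
      congr 2
      rw [← h.deg q p hq.2, Nat.card_eq_fintype_card, Fintype.card_subtype]
      congr 1
      ext j
      simp only [mem_filter, mem_univ, true_and]
      constructor
      · rintro ⟨h2, rfl⟩
        exact ⟨(hC j).symm, (hD j).symm⟩
      · rintro ⟨h2, h3⟩
        refine ⟨h2.trans hq.2, ?_⟩
        have : pr j = pr q := Prod.ext h3 h2
        rw [hrep2 _ _ this, hPrep q hq.1]
    have h2 := h0 p
    rw [hfib, sum_congr rfl hcount, ← mul_sum] at h2
    have hpos : (0 : ℝ) < (Nat.card {k // C k = C p ∧ D k = D p} : ℝ) := by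
      have : Nonempty {k // C k = C p ∧ D k = D p} := ⟨⟨p, rfl, rfl⟩⟩
      exact_mod_cast Nat.card_pos
    exact (mul_eq_zero.1 h2).resolve_left hpos.ne'
  -- split off the diagonal
  have h2 : ∑ i, ∑ j with lam j = lam i, a i * a j =
      ∑ i, a i ^ 2 + ∑ x : ι × ι with lam x.2 = lam x.1 ∧ x.1 ≠ x.2, a x.1 * a x.2 := by
    have e1 : ∀ i, ∑ j with lam j = lam i, a i * a j =
        a i ^ 2 + ∑ j with lam j = lam i ∧ i ≠ j, a i * a j := by
      intro i
      have hs : (univ.filter fun j => lam j = lam i) =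
          insert i (univ.filter fun j => lam j = lam i ∧ i ≠ j) := by
        ext j
        simp only [mem_filter, mem_univ, true_and, mem_insert]
        constructor
        · intro hj
          by_cases hij : j = i
          · exact Or.inl hij
          · exact Or.inr ⟨hj, fun hh => hij hh.symm⟩
        · rintro (rfl | hj)
          · rfl
          · exact hj.1
      rw [hs, sum_insert (by simp)]
      ring
    rw [sum_congr rfl fun i _ => e1 i, sum_add_distrib]
    congr 1
    rw [sum_filter, Fintype.sum_prod_type]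
    exact sum_congr rfl fun i _ => by rw [sum_filter]
  -- the pairs of different points
  have h3 : ∑ x : ι × ι with lam x.2 = lam x.1 ∧ x.1 ≠ x.2, a x.1 * a x.2 =
      ∑ x ∈ (P ×ˢ P) with C x.2 = C x.1 ∧ x.1 ≠ x.2, a x.1 * a x.2 := by
    refine sum_bij (fun x _ => (rep x.1, rep x.2)) ?_ ?_ ?_ ?_
    · rintro ⟨i, j⟩ hx
      simp only [mem_filter, mem_univ, true_and] at hx
      simp only [mem_filter, mem_product]
      refine ⟨⟨hrepP i, hrepP j⟩, ?_, ?_⟩
      · rw [hC, hC]; exact h.lamC _ _ hx.1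
      · intro he
        have : D i = D j := by rw [← hD i, ← hD j, he]
        exact hx.2 (h.inj _ _ hx.1.symm this)
    · rintro ⟨i, j⟩ hx ⟨k, l⟩ hy hxy
      simp only [mem_filter, mem_univ, true_and] at hx hy
      simp only [Prod.mk.injEq] at hxy
      have c1 : C i = C k := by rw [← hC i, ← hC k, hxy.1]
      have d1 : D i = D k := by rw [← hD i, ← hD k, hxy.1]
      have d2 : D j = D l := by rw [← hD j, ← hD l, hxy.2]
      have hne : D i ≠ D j := fun hh => hx.2 (h.inj _ _ hx.1.symm hh)
      obtain ⟨e1, e2⟩ := h.uniq i j k l hx.1.symm hy.1.symm c1 d1 d2 hne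
      rw [e1, e2]
    · rintro ⟨p, q⟩ hx
      simp only [mem_filter, mem_product] at hx
      obtain ⟨⟨hp, hq⟩, hc, hne⟩ := hx
      have hDne : D p ≠ D q := by
        intro hh
        apply hne
        have : pr p = pr q := Prod.ext hh hc.symm
        rw [← hPrep p hp, ← hPrep q hq, hrep2 _ _ this]
      obtain ⟨k, l, h4, h5, h6, h7, h8⟩ := h.join p q hc.symm hDne
      refine ⟨(k, l), ?_, ?_⟩
      · simp only [mem_filter, mem_univ, true_and]
        refine ⟨h4.symm, fun hh => hDne ?_⟩
        rw [← h5, ← h7, hh]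
      · have e1 : rep k = p := by
          rw [hrep2 k p (Prod.ext h5 h6), hPrep p hp]
        have e2 : rep l = q := by
          rw [hrep2 l q (Prod.ext h7 h8), hPrep q hq]
        simp only [e1, e2]
    · rintro ⟨i, j⟩ _
      simp only [harep]
  -- the sum over all pairs of points is a sum of squares of zero
  have h4 : ∑ x ∈ (P ×ˢ P) with C x.2 = C x.1 ∧ x.1 ≠ x.2, a x.1 * a x.2 =
      - ∑ p ∈ P, a p ^ 2 := by
    have e1 : ∀ p ∈ P, ∑ q ∈ P with C q = C p ∧ p ≠ q, a p * a q = - a p ^ 2 := by
      intro p hp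
      have hs : (P.filter fun q => C q = C p) =
          insert p (P.filter fun q => C q = C p ∧ p ≠ q) := by
        ext j
        simp only [mem_filter, mem_insert]
        constructor
        · rintro ⟨hj, hj2⟩
          by_cases hij : j = p
          · exact Or.inl hij
          · exact Or.inr ⟨hj, hj2, fun hh => hij hh.symm⟩
        · rintro (rfl | hj)
          · exact ⟨hp, rfl⟩
          · exact ⟨hj.1, hj.2.1⟩
      have e2 := h1 p hp
      rw [hs, sum_insert (by simp)] at e2
      rw [← mul_sum]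
      have e3 : ∑ q ∈ P with C q = C p ∧ p ≠ q, a q = - a p := by linarith
      rw [e3]; ring
    rw [sum_filter, sum_product, ← sum_neg_distrib]
    exact sum_congr rfl fun p hp => by rw [← e1 p hp, sum_filter]
  rw [h2, h3, h4]
  have h5 : 0 ≤ ∑ p ∈ P, a p ^ 2 := sum_nonneg fun p _ => sq_nonneg _
  linarith

open Classical in
/-- The quadratic form of the sums along the fibres is nonnegative. -/
theorem fib_nonneg (g : ι → Λ) (x : ι → ℝ) : 0 ≤ ∑ i, ∑ j with g j = g i, x i * x j := by
  have h1 : ∑ i, ∑ j with g j = g i, x i * x j =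
      ∑ y ∈ univ.image g, (∑ i with g i = y, x i) ^ 2 := by
    rw [← sum_fiberwise_of_maps_to (s := univ) (t := univ.image g) (g := g)
      (fun i _ => mem_image_of_mem _ (mem_univ i))]
    refine sum_congr rfl fun y _ => ?_
    rw [sq, sum_mul]
    refine sum_congr rfl fun i hi => ?_
    rw [mul_sum]
    rw [mem_filter] at hi
    rw [hi.2]
  rw [h1]
  exact sum_nonneg fun y _ => sq_nonneg _

open Classical in
/-- A function on the fibres that makes the sums over the fibres vanish. -/
theorem exists_mean {β : Type*} (g : ι → β) (f : ι → ℝ) :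
    ∃ v : β → ℝ, ∀ i, ∑ j with g j = g i, (f j - v (g j)) = 0 := by
  refine ⟨fun y => (∑ j with g j = y, f j) / (univ.filter fun j => g j = y).card, fun i => ?_⟩
  have h1 : ∀ j ∈ univ.filter (fun j => g j = g i),
      f j - (∑ k with g k = g j, f k) / (univ.filter fun k => g k = g j).card =
      f j - (∑ k with g k = g i, f k) / (univ.filter fun k => g k = g i).card := by
    intro j hj
    rw [mem_filter] at hj
    rw [hj.2]
  rw [sum_congr rfl h1, sum_sub_distrib, sum_const, nsmul_eq_mul]
  have h2 : ((univ.filter fun k => g k = g i).card : ℝ) ≠ 0 := by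
    have : 0 < (univ.filter fun k => g k = g i).card := card_pos.2 ⟨i, by simp⟩
    positivity
  rw [mul_div_cancel₀ _ h2, sub_self]

open Classical in
/-- Least squares: the best approximation of `P` by `u (C i) + κ (D i, A i)`. -/
theorem exists_best {𝒜 : Type*} (C : ι → 𝒞) (x : ι → 𝒜) (P : ι → ℝ) :
    ∃ (u : 𝒞 → ℝ) (κ : 𝒜 → ℝ), (∀ i, ∑ j with C j = C i, (P j - u (C j) - κ (x j)) = 0) ∧
      ∀ i, ∑ j with x j = x i, (P j - u (C j) - κ (x j)) = 0 := by
  let F : ((𝒞 → ℝ) × (𝒜 → ℝ)) →ₗ[ℝ] EuclideanSpace ℝ ι :=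
    { toFun := fun w => WithLp.toLp 2 fun i => w.1 (C i) + w.2 (x i)
      map_add' := by
        intro v w
        ext i
        simp; ring
      map_smul' := by
        intro c w
        ext i
        simp; ring }
  let p : EuclideanSpace ℝ ι := WithLp.toLp 2 P
  obtain ⟨y, hy, z, hz, hyz⟩ := (LinearMap.range F).exists_add_mem_mem_orthogonal p
  obtain ⟨w, rfl⟩ := hy
  have key : ∀ v : (𝒞 → ℝ) × (𝒜 → ℝ), ∑ j, (v.1 (C j) + v.2 (x j)) *
      (P j - w.1 (C j) - w.2 (x j)) = 0 := by
    intro v
    have h1 := (Submodule.mem_orthogonal _ _).1 hz (F v) ⟨v, rfl⟩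
    rw [PiLp.inner_apply] at h1
    rw [← h1]
    refine sum_congr rfl fun j _ => ?_
    have h2 : z j = P j - w.1 (C j) - w.2 (x j) := by
      have h3 := congrArg (fun q : EuclideanSpace ℝ ι => q j) hyz
      have h4 : P j = (w.1 (C j) + w.2 (x j)) + z j := h3
      rw [h4]; ring
    have h5 : (F v) j = v.1 (C j) + v.2 (x j) := rfl
    rw [h2, h5]
    simp [mul_comm]
  refine ⟨w.1, w.2, fun i => ?_, fun i => ?_⟩
  · have h1 := key (fun c => if c = C i then 1 else 0, 0)
    rw [sum_filter]
    refine Eq.trans (sum_congr rfl fun j _ => ?_) h1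
    by_cases h : C j = C i <;> simp [h]
  · have h1 := key (0, fun c => if c = x i then 1 else 0)
    rw [sum_filter]
    refine Eq.trans (sum_congr rfl fun j _ => ?_) h1
    by_cases h : x j = x i <;> simp [h]

open Classical in
/-- Orthogonality on a full product. -/
theorem sum_mul_eq_zero {ℛ 𝒜 : Type*} {C : ι → 𝒞} {R : ι → ℛ} {x : ι → 𝒜} {a b : ι → ℝ}
    (hinj : ∀ i j, x i = x j → C i = C j → R i = R j → i = j)
    (hprod : ∀ i j, x i = x j → ∃ k, x k = x i ∧ C k = C i ∧ R k = R j)
    (ha : ∀ i j, x i = x j → C i = C j → a i = a j)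
    (hb : ∀ i j, x i = x j → R i = R j → b i = b j)
    (h0 : ∀ i, ∑ j with x j = x i, a j = 0) : ∑ i, a i * b i = 0 := by
  rw [← sum_fiberwise_of_maps_to (s := univ) (t := univ.image x) (g := x)
      (fun i _ => mem_image_of_mem _ (mem_univ i))]
  refine sum_eq_zero fun y hy => ?_
  obtain ⟨i0, -, rfl⟩ := mem_image.1 hy
  set I := univ.filter fun i => x i = x i0 with hI
  have hmem : ∀ i, i ∈ I ↔ x i = x i0 := fun i => by simp [hI]
  choose! m hm using hprod
  have h1 : ∑ z ∈ I ×ˢ I, a z.1 * b z.2 = ∑ z ∈ I ×ˢ I, a z.1 * b z.1 := by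
    refine sum_bij (fun z _ => (m z.1 z.2, m z.2 z.1)) ?_ ?_ ?_ ?_
    · rintro ⟨i, j⟩ hz
      rw [mem_product, hmem, hmem] at hz
      rw [mem_product, hmem, hmem]
      exact ⟨(hm i j (hz.1.trans hz.2.symm)).1.trans hz.1,
        (hm j i (hz.2.trans hz.1.symm)).1.trans hz.2⟩
    · rintro ⟨i, j⟩ hz ⟨k, l⟩ hw hzw
      rw [mem_product, hmem, hmem] at hz hw
      simp only [Prod.mk.injEq] at hzw
      have a1 := hm i j (hz.1.trans hz.2.symm)
      have a2 := hm j i (hz.2.trans hz.1.symm)
      have a3 := hm k l (hw.1.trans hw.2.symm)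
      have a4 := hm l k (hw.2.trans hw.1.symm)
      have e1 : i = k := by
        refine hinj i k (hz.1.trans hw.1.symm) ?_ ?_
        · rw [← a1.2.1, ← a3.2.1, hzw.1]
        · rw [← a2.2.2, ← a4.2.2, hzw.2]
      have e2 : j = l := by
        refine hinj j l (hz.2.trans hw.2.symm) ?_ ?_
        · rw [← a2.2.1, ← a4.2.1, hzw.2]
        · rw [← a1.2.2, ← a3.2.2, hzw.1]
      rw [e1, e2]
    · rintro ⟨i, j⟩ hz
      rw [mem_product, hmem, hmem] at hz
      have a1 := hm i j (hz.1.trans hz.2.symm)
      have a2 := hm j i (hz.2.trans hz.1.symm)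
      have x1 : x (m i j) = x (m j i) := by rw [a1.1, a2.1, hz.1, hz.2]
      have a3 := hm (m i j) (m j i) x1
      have a4 := hm (m j i) (m i j) x1.symm
      refine ⟨(m i j, m j i), ?_, ?_⟩
      · rw [mem_product, hmem, hmem]
        exact ⟨a1.1.trans hz.1, a2.1.trans hz.2⟩
      · refine Prod.ext ?_ ?_
        · exact hinj _ _ (a3.1.trans a1.1) (a3.2.1.trans a1.2.1) (a3.2.2.trans a2.2.2)
        · exact hinj _ _ (a4.1.trans a2.1) (a4.2.1.trans a2.2.1) (a4.2.2.trans a1.2.2)
    · rintro ⟨i, j⟩ hz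
      rw [mem_product, hmem, hmem] at hz
      have a1 := hm i j (hz.1.trans hz.2.symm)
      simp only
      rw [ha (m i j) i a1.1 a1.2.1, hb (m i j) j (a1.1.trans (hz.1.trans hz.2.symm)) a1.2.2]
  have h2 : ∑ z ∈ I ×ˢ I, a z.1 * b z.2 = 0 := by
    have h5 : ∑ z ∈ I ×ˢ I, a z.1 * b z.2 = (∑ i ∈ I, a i) * ∑ j ∈ I, b j := by
      rw [sum_mul_sum, sum_product]
    rw [h5, h0 i0, zero_mul]
  have h3 : ∑ z ∈ I ×ˢ I, a z.1 * b z.1 = I.card * ∑ i ∈ I, a i * b i := by
    rw [sum_product, mul_sum]
    refine sum_congr rfl fun i _ => ?_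
    simp only [sum_const, nsmul_eq_mul]
  rw [h2, h3] at h1
  have h4 : (I.card : ℝ) ≠ 0 := by
    have : 0 < I.card := card_pos.2 ⟨i0, (hmem i0).2 rfl⟩
    positivity
  exact (mul_eq_zero.1 h1.symm).resolve_left h4

open Classical in
/-- The exact contraction argument.  `P i` is the value at `C i`, `Q i` the value at `R i` of a
linear functional on the divisors of `D i`; the sum `P + Q` is constant along the lines.  Then
there is a function `u` of `C` with `P i - P j = u (C i) - u (C j)` whenever `C i`, `C j` are of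
the same class on `D i = D j`. -/
theorem triple_core {ℛ 𝒜 : Type*} {R : ι → ℛ} {A : ι → 𝒜}
    (hC : LineSys D C lam) (hR : LineSys D R lam)
    (hthree : ∀ i, 3 ≤ Nat.card {j // lam j = lam i})
    (hA1 : ∀ i j, D i = D j → C i = C j → A i = A j)
    (hA2 : ∀ i j, D i = D j → R i = R j → A i = A j)
    (hinj : ∀ i j, D i = D j → C i = C j → R i = R j → i = j)
    (hprod : ∀ i j, D i = D j → A i = A j → ∃ k, D k = D i ∧ A k = A i ∧ C k = C i ∧ R k = R j)
    {P Q : ι → ℝ} (hP : ∀ i j, D i = D j → C i = C j → P i = P j)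
    (hQ : ∀ i j, D i = D j → R i = R j → Q i = Q j)
    (hT : ∀ i j, lam i = lam j → P i + Q i = P j + Q j) :
    ∃ u : 𝒞 → ℝ, ∀ i j, D i = D j → A i = A j → P i - P j = u (C i) - u (C j) := by
  set x : ι → 𝒟 × 𝒜 := fun i => (D i, A i) with hx
  obtain ⟨u, κ, hu, hκ⟩ := exists_best C x P
  set a : ι → ℝ := fun i => P i - u (C i) - κ (x i) with ha
  obtain ⟨v, hv⟩ := exists_mean R fun i => Q i + κ (x i)
  set b : ι → ℝ := fun i => Q i + κ (x i) - v (R i) with hb
  have hxe : ∀ i j, D i = D j → A i = A j → x i = x j := fun i j h1 h2 => Prod.ext h1 h2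
  have hxD : ∀ i j, x i = x j → D i = D j := fun i j h => congrArg Prod.fst h
  have hxA : ∀ i j, x i = x j → A i = A j := fun i j h => congrArg Prod.snd h
  have haC : ∀ i j, D i = D j → C i = C j → a i = a j := by
    intro i j h1 h2
    simp only [ha]
    rw [hP i j h1 h2, h2, hxe i j h1 (hA1 i j h1 h2)]
  have hbR : ∀ i j, D i = D j → R i = R j → b i = b j := by
    intro i j h1 h2
    simp only [hb]
    rw [hQ i j h1 h2, h2, hxe i j h1 (hA2 i j h1 h2)]
  have hab : ∑ i, a i * b i = 0 := by
    refine sum_mul_eq_zero (C := C) (R := R) (x := x)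
      (fun i j h1 h2 h3 => hinj i j (hxD _ _ h1) h2 h3) ?_
      (fun i j h1 h2 => haC i j (hxD _ _ h1) h2) (fun i j h1 h2 => hbR i j (hxD _ _ h1) h2) hκ
    intro i j h
    obtain ⟨k, h1, h2, h3, h4⟩ := hprod i j (hxD _ _ h) (hxA _ _ h)
    exact ⟨k, hxe _ _ h1 h2, h3, h4⟩
  set S : ι → ℝ := fun i => a i + b i with hS
  have hSl : ∀ i j, lam i = lam j → S i = S j := by
    intro i j h
    have h1 := hT i j h
    have h2 := hC.lamC i j h
    have h3 := hR.lamC i j h
    simp only [hS, ha, hb, h2, h3]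
    linarith
  have hSS : ∑ i, S i ^ 2 = ∑ i, a i ^ 2 + ∑ i, b i ^ 2 := by
    have h1 : ∀ i, S i ^ 2 = a i ^ 2 + b i ^ 2 + 2 * (a i * b i) := fun i => by
      simp only [hS]; ring
    rw [sum_congr rfl fun i _ => h1 i, sum_add_distrib, sum_add_distrib, ← mul_sum, hab]
    ring
  have h3S : 3 * ∑ i, S i ^ 2 ≤ ∑ i, ∑ j with lam j = lam i, S i * S j := by
    rw [mul_sum]
    refine sum_le_sum fun i _ => ?_
    have h1 : ∑ j with lam j = lam i, S i * S j =
        ((univ.filter fun j => lam j = lam i).card : ℝ) * S i ^ 2 := by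
      have h2 : ∀ j ∈ univ.filter (fun j => lam j = lam i), S i * S j = S i ^ 2 := by
        intro j hj
        rw [mem_filter] at hj
        rw [hSl j i hj.2, sq]
      rw [sum_congr rfl h2, sum_const, nsmul_eq_mul]
    rw [h1]
    refine mul_le_mul_of_nonneg_right ?_ (sq_nonneg _)
    have h2 := hthree i
    rw [Nat.card_eq_fintype_card, Fintype.card_subtype] at h2
    exact_mod_cast h2
  have hQ2 : ∑ i, ∑ j with lam j = lam i, S i * S j ≤
      2 * ∑ i, ∑ j with lam j = lam i, a i * a j + 2 * ∑ i, ∑ j with lam j = lam i, b i * b j := by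
    have h1 := fib_nonneg lam fun i => a i - b i
    have h2 : ∑ i, ∑ j with lam j = lam i, S i * S j +
        ∑ i, ∑ j with lam j = lam i, (a i - b i) * (a j - b j) =
        2 * ∑ i, ∑ j with lam j = lam i, a i * a j +
        2 * ∑ i, ∑ j with lam j = lam i, b i * b j := by
      simp only [mul_sum, ← sum_add_distrib]
      refine sum_congr rfl fun i _ => sum_congr rfl fun j _ => ?_
      simp only [hS]; ring
    linarith
  have h1 := hC.sum_sq_le a haC hu
  have h2 := hR.sum_sq_le b hbR hv
  have hS0 : ∑ i, S i ^ 2 = 0 := by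
    have h3 : 0 ≤ ∑ i, S i ^ 2 := sum_nonneg fun i _ => sq_nonneg _
    linarith
  have ha0 : ∀ i, a i = 0 := by
    intro i
    have h3 : 0 ≤ ∑ i, b i ^ 2 := sum_nonneg fun i _ => sq_nonneg _
    have h4 : ∑ i, a i ^ 2 = 0 := by
      have h5 : 0 ≤ ∑ i, a i ^ 2 := sum_nonneg fun i _ => sq_nonneg _
      linarith
    have h5 := (sum_eq_zero_iff_of_nonneg fun i _ => sq_nonneg (a i)).1 h4 i (mem_univ i)
    exact pow_eq_zero_iff (two_ne_zero) |>.1 h5
  refine ⟨u, fun i j hD hA => ?_⟩
  have e1 := ha0 i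
  have e2 := ha0 j
  simp only [ha] at e1 e2
  rw [hxe i j hD hA] at e1
  linarith

end

end Pool.Agent.K1
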