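import Pool.Agent.K1.TRegDom

/-!
Descent of theorem B, row U-10: regular local rings are integrally closed.
-/

set_option autoImplicit false

open IsLocalRing

namespace Pool.Agent.K1

universe u

/-- Localizations of regular rings are regular rings. -/
theorem u10_isRegularRing_localization {R : Type u} [CommRing R] [IsRegularRing R] (Q : Ideal R)
    [Q.IsPrime] : IsRegularRing (Localization.AtPrime Q) := by
  have h1 : IsNoetherianRing (Localization.AtPrime Q) :=
    IsLocalization.isNoetherianRing Q.primeCompl _ inferInstance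
  rw [isRegularRing_iff]
  intro q hq
  exact IsRegularLocalRing.of_ringEquiv
    (IsLocalization.localizationLocalizationAtPrimeIsoLocalization Q.primeCompl q).toRingEquiv

/-- If a localization is integrally closed, integral fractions have a denominator in the
monoid. -/
theorem u10_den {R T K : Type*} [CommRing R] [CommRing T] [IsDomain T] [Algebra R T]
    (M : Submonoid R) (hM : M ≤ nonZeroDivisors R) [IsLocalization M T] [IsIntegrallyClosed T]
    [Field K] [Algebra R K] [IsFractionRing R K] (z : K) (hz : IsIntegral R z) :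
    ∃ s ∈ M, ∃ a : R, algebraMap R K a = algebraMap R K s * z := by
  have hTinj : Function.Injective (algebraMap R T) := IsLocalization.injective _ hM
  have hKinj : Function.Injective (Algebra.ofId R (FractionRing T)) := by
    intro a b hab
    have h1 : algebraMap T (FractionRing T) (algebraMap R T a) =
        algebraMap T (FractionRing T) (algebraMap R T b) := by
      rw [← IsScalarTower.algebraMap_apply, ← IsScalarTower.algebraMap_apply]
      exact hab
    exact hTinj (IsFractionRing.injective _ _ h1)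
  let φ : K →ₐ[R] FractionRing T := IsFractionRing.liftAlgHom hKinj
  have hz1 : IsIntegral T (φ z) := (hz.map φ).tower_top
  obtain ⟨t, ht⟩ := IsIntegrallyClosed.isIntegral_iff.1 hz1
  obtain ⟨⟨c, s⟩, hcs⟩ := IsLocalization.surj M t
  refine ⟨s, s.2, c, φ.toRingHom.injective ?_⟩
  show φ (algebraMap R K c) = φ (algebraMap R K s * z)
  rw [map_mul, φ.commutes, φ.commutes, ← ht, IsScalarTower.algebraMap_apply R T _ (s : R),
    IsScalarTower.algebraMap_apply R T _ c, ← map_mul, mul_comm, hcs]

/-- The step of the induction. -/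
theorem u10_step {R : Type u} [CommRing R] [IsDomain R] [IsRegularLocalRing R]
    (h : ∀ (Q : Ideal R) [Q.IsPrime], Q ≠ maximalIdeal R →
      IsIntegrallyClosed (Localization.AtPrime Q)) : IsIntegrallyClosed R := by
  classical
  by_cases hfield : IsField R
  · let := hfield.toField
    infer_instance
  have hm0 : maximalIdeal R ≠ ⊥ := fun h0 => hfield (isField_iff_maximalIdeal_eq.2 h0)
  by_cases hprin : (maximalIdeal R).IsPrincipal
  · have h1 : IsPrincipalIdealRing R :=
      ((tfae_of_isNoetherianRing_of_isLocalRing_of_isDomain R).out 4 0).1 hprin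
    infer_instance
  -- a prime element
  obtain ⟨x₁, hx₁, hx₁2⟩ : ∃ x ∈ maximalIdeal R, x ∉ (maximalIdeal R) ^ 2 := by
    by_contra hcon
    push Not at hcon
    have h1 : maximalIdeal R ≤ maximalIdeal R • maximalIdeal R := by
      rw [smul_eq_mul, ← pow_two]
      exact hcon
    have h2 := Submodule.eq_bot_of_le_smul_of_le_jacobson_bot (maximalIdeal R) (maximalIdeal R)
      (IsNoetherian.noetherian _) h1 (IsLocalRing.maximalIdeal_le_jacobson _)
    exact hm0 h2
  have hx₁0 : x₁ ≠ 0 := fun h0 => hx₁2 (h0 ▸ Submodule.zero_mem _)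
  have hp : Prime x₁ := by
    have h1 := Pool.Agent.H96.Reg.isRegularLocalRing_quotient_singleton hx₁ hx₁2
    have h2 : IsDomain (R ⧸ Ideal.span {x₁}) := isDomain_of_regular
    exact (Ideal.span_singleton_prime hx₁0).1 ((Ideal.Quotient.isDomain_iff_prime _).1 h2)
  obtain ⟨x₂, hx₂, hx₂1⟩ : ∃ x ∈ maximalIdeal R, ¬ x₁ ∣ x := by
    by_contra hcon
    push Not at hcon
    refine hprin ⟨⟨x₁, le_antisymm (fun x hx => ?_) ?_⟩⟩
    · exact Ideal.mem_span_singleton.2 (hcon x hx)
    · exact (Ideal.span_singleton_le_iff_mem _).2 hx₁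
  let K := FractionRing R
  rw [isIntegrallyClosed_iff K]
  intro z hz
  by_contra hzR
  have hinj : Function.Injective (algebraMap R K) := IsFractionRing.injective R K
  -- the ideal of denominators
  let I : Ideal R :=
    { carrier := {r | ∃ a : R, algebraMap R K a = algebraMap R K r * z}
      add_mem' := by
        rintro r s ⟨a, ha⟩ ⟨b, hb⟩
        exact ⟨a + b, by rw [map_add, map_add, ha, hb, add_mul]⟩
      zero_mem' := ⟨0, by rw [map_zero, zero_mul]⟩
      smul_mem' := by
        rintro c r ⟨a, ha⟩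
        exact ⟨c * a, by rw [smul_eq_mul, map_mul, map_mul, ha, mul_assoc]⟩ }
  have hI : ∀ Q : Ideal R, Q.IsPrime → I ≤ Q → Q = maximalIdeal R := by
    intro Q hQ hIQ
    by_contra hne
    have hcl := h Q hne
    have hT : IsDomain (Localization.AtPrime Q) :=
      IsLocalization.isDomain_localization Q.primeCompl_le_nonZeroDivisors
    obtain ⟨s, hs, c, hc⟩ := u10_den (T := Localization.AtPrime Q) Q.primeCompl
      Q.primeCompl_le_nonZeroDivisors z hz
    exact hs (hIQ ⟨c, hc⟩)
  have hrad : maximalIdeal R ≤ I.radical := by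
    rw [Ideal.radical_eq_sInf]
    refine le_sInf fun Q hQ => ?_
    rw [hI Q hQ.2 hQ.1]
  obtain ⟨n, hn⟩ := Ideal.exists_pow_le_of_le_radical_of_fg hrad (IsNoetherian.noetherian _)
  -- powers of `x₁`
  have hex1 : ∃ n, ∃ a : R, algebraMap R K a = algebraMap R K (x₁ ^ n) * z :=
    ⟨n, hn (Ideal.pow_mem_pow hx₁ n)⟩
  have hzR' : ¬ ∃ a : R, algebraMap R K a = z := hzR
  obtain ⟨s, hs1, a₁, ha₁⟩ : ∃ s : ℕ, (¬ ∃ a : R, algebraMap R K a = algebraMap R K (x₁ ^ s) * z) ∧
      ∃ a : R, algebraMap R K a = algebraMap R K (x₁ ^ (s + 1)) * z := by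
    have h0 : Nat.find hex1 ≠ 0 := by
      intro h0
      have h1 := Nat.find_spec hex1
      rw [h0, pow_zero, map_one] at h1
      obtain ⟨a, ha⟩ := h1
      exact hzR' ⟨a, by rw [ha, one_mul]⟩
    obtain ⟨s, hs⟩ := Nat.exists_eq_succ_of_ne_zero h0
    refine ⟨s, Nat.find_min hex1 (by omega), ?_⟩
    have h1 := Nat.find_spec hex1
    rw [hs] at h1
    exact h1
  have hex2 : ∃ n, ∃ a : R, algebraMap R K a = algebraMap R K (x₂ ^ n) *
      (algebraMap R K (x₁ ^ s) * z) := by
    obtain ⟨a, ha⟩ := hn (Ideal.pow_mem_pow hx₂ n)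
    exact ⟨n, x₁ ^ s * a, by rw [map_mul, ha]; ring⟩
  obtain ⟨t, ht1, a₂, ha₂⟩ : ∃ t : ℕ, (¬ ∃ a : R, algebraMap R K a = algebraMap R K (x₂ ^ t) *
      (algebraMap R K (x₁ ^ s) * z)) ∧ ∃ a : R, algebraMap R K a =
        algebraMap R K (x₂ ^ (t + 1)) * (algebraMap R K (x₁ ^ s) * z) := by
    have h0 : Nat.find hex2 ≠ 0 := by
      intro h0
      have h1 := Nat.find_spec hex2
      rw [h0, pow_zero, map_one] at h1
      obtain ⟨a, ha⟩ := h1
      exact hs1 ⟨a, by rw [ha, one_mul]⟩
    obtain ⟨t, ht⟩ := Nat.exists_eq_succ_of_ne_zero h0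
    refine ⟨t, Nat.find_min hex2 (by omega), ?_⟩
    have h1 := Nat.find_spec hex2
    rw [ht] at h1
    exact h1
  -- the contradiction
  have h1 : x₂ * (x₂ ^ t * a₁) = x₁ * a₂ := by
    apply hinj
    rw [map_mul, map_mul, map_mul, ha₁, ha₂]
    simp only [map_pow]
    ring
  have h2 : x₁ ∣ x₂ ^ t * a₁ := by
    rcases hp.dvd_or_dvd (Dvd.intro _ h1.symm) with h3 | h3
    · exact absurd h3 hx₂1
    · exact h3
  obtain ⟨c, hc⟩ := h2
  refine ht1 ⟨c, ?_⟩
  have hx₁K : algebraMap R K x₁ ≠ 0 := fun h0 => hx₁0 (hinj (by rw [h0, map_zero]))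
  apply mul_left_cancel₀ hx₁K
  rw [← map_mul, ← hc, map_mul, ha₁]
  simp only [map_pow]
  ring

/-- U-10 : regular rings are integrally closed -/
theorem isIntegrallyClosed_of_regularRing {R : Type*} [CommRing R] [IsDomain R] [IsLocalRing R]
    [IsRegularRing R] : IsIntegrallyClosed R := by
  suffices H : ∀ (n : ℕ) (R : Type _) [CommRing R] [IsDomain R] [IsLocalRing R]
      [IsRegularRing R], (maximalIdeal R).height ≤ n → IsIntegrallyClosed R by
    obtain ⟨n, hn⟩ := ENat.ne_top_iff_exists.1
      (Ideal.height_lt_top (I := maximalIdeal R) (maximalIdeal.isMaximal R).ne_top).ne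
    exact H n R hn.symm.le
  intro n
  induction n with
  | zero =>
    intro R _ _ _ _ hn
    have hreg : IsRegularLocalRing R := IsRegularLocalRing.of_isRegularRing_of_isLocalRing R
    refine u10_step fun Q hQ hne => ?_
    have h1 := Ideal.height_add_one_le_of_lt_of_isPrime
      (lt_of_le_of_ne (le_maximalIdeal hQ.ne_top) hne)
    have h2 := h1.trans hn
    simp at h2
  | succ n ih =>
    intro R _ _ _ _ hn
    have hreg : IsRegularLocalRing R := IsRegularLocalRing.of_isRegularRing_of_isLocalRing R
    refine u10_step fun Q hQ hne => ?_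
    have h1 := Ideal.height_add_one_le_of_lt_of_isPrime
      (lt_of_le_of_ne (le_maximalIdeal hQ.ne_top) hne)
    have h2 : Q.height ≤ n := by
      have h3 := h1.trans hn
      push_cast at h3
      exact (ENat.add_le_add_iff_right (by simp)).1 h3
    have h4 := u10_isRegularRing_localization Q
    refine ih (Localization.AtPrime Q) ?_
    have h5 := IsLocalization.height_under Q.primeCompl (maximalIdeal (Localization.AtPrime Q))
    rw [IsLocalization.AtPrime.under_maximalIdeal (Localization.AtPrime Q) Q] at h5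
    rw [← h5]
    exact h2

end Pool.Agent.K1
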