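import Pool.Agent.K1.UDefs
import Pool.Agent.K1.DBase
import Pool.Agent.K1.DGen
import Pool.Agent.K1.UNormal

/-!
Descent in all dimensions (K1-U11): the base change of an integral regular closed subscheme of
projective space over a perfect field to the algebraic closure of its field of constants.
-/

set_option autoImplicit false

open AlgebraicGeometry CategoryTheory CategoryTheory.Limits TensorProduct

attribute [local instance] MvPolynomial.gradedAlgebra

namespace Pool.Agent.K1

/-- The elements of a push out along an extension of fields. -/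
theorem u11_pushout {F k A B : Type} [Field F] [Field k] [CommRing A] [CommRing B]
    [Algebra F k] (u : F →+* A) (v : k →+* B) (p : A →+* B)
    (h : IsPushout (CommRingCat.ofHom u) (CommRingCat.ofHom (algebraMap F k))
      (CommRingCat.ofHom p) (CommRingCat.ofHom v)) :
    (∀ b : B, ∃ (n : ℕ) (a : Fin n → A) (c : Fin n → k), b = ∑ j, p (a j) * v (c j)) ∧
    (∀ (n : ℕ) (a : Fin n → A) (c : Fin n → k), LinearIndependent F c →
      ∑ j, p (a j) * v (c j) = 0 → ∀ j, a j = 0) := by
  let _ := u.toAlgebra
  let _ := v.toAlgebra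
  let _ := p.toAlgebra
  let _ := (p.comp u).toAlgebra
  have : IsScalarTower F A B := .of_algebraMap_eq' rfl
  have hw : v.comp (algebraMap F k) = p.comp u := by
    have := congrArg CommRingCat.Hom.hom h.w
    exact this.symm
  have : IsScalarTower F k B := .of_algebraMap_eq' hw.symm
  have hp : Algebra.IsPushout F A k B := CommRingCat.isPushout_iff_isPushout.1 h
  let e : A ⊗[F] k ≃ₐ[A] B := Algebra.IsPushout.equiv F A k B
  have he : ∀ (a : A) (c : k), e (a ⊗ₜ c) = p a * v c := fun a c =>
    Algebra.IsPushout.equiv_tmul F A k B a c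
  constructor
  · intro b
    obtain ⟨x, rfl⟩ := e.surjective b
    induction x using TensorProduct.induction_on with
    | zero => exact ⟨0, Fin.elim0, Fin.elim0, by simp⟩
    | tmul a c => exact ⟨1, fun _ => a, fun _ => c, by rw [he]; simp⟩
    | add x y hx hy =>
      obtain ⟨n, a, c, h1⟩ := hx
      obtain ⟨m, a', c', h2⟩ := hy
      refine ⟨n + m, Fin.append a a', Fin.append c c', ?_⟩
      rw [map_add, h1, h2, Fin.sum_univ_add]
      congr 1
      · exact Finset.sum_congr rfl fun j _ => by rw [Fin.append_left, Fin.append_left]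
      · exact Finset.sum_congr rfl fun j _ => by rw [Fin.append_right, Fin.append_right]
  · intro n a c hc h0
    have hs := hc.linearIndepOn_id
    let b := Module.Basis.extend hs
    have hli := (Algebra.TensorProduct.basis A b).linearIndependent
    let idx : Fin n → (hs.extend (Set.subset_univ _)) := fun j =>
      ⟨c j, Module.Basis.subset_extend hs ⟨j, rfl⟩⟩
    have hidx : Function.Injective idx := fun i j hij => hc.injective (congrArg Subtype.val hij)
    have h1 := hli.comp idx hidx
    rw [Fintype.linearIndependent_iff] at h1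
    refine h1 a ?_
    apply e.injective
    rw [map_zero, map_sum, ← h0]
    refine Finset.sum_congr rfl fun j _ => ?_
    rw [Function.comp_apply, Algebra.TensorProduct.basis_apply, TensorProduct.smul_tmul', he,
      smul_eq_mul, mul_one, Module.Basis.extend_apply_self]

theorem u11_closed {X : Scheme.{0}} [IsIntegral X]
    (hreg : ∀ x : X, IsRegularLocalRing (X.presheaf.stalk x)) (x : X) :
    IsIntegrallyClosed (X.presheaf.stalk x) := by
  have hx := hreg x
  have hr : IsRegularRing (X.presheaf.stalk x) := by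
    rw [isRegularRing_iff]
    intro P hP
    obtain ⟨z, h, hz⟩ := exists_generization x P
    subst hz
    have hloc := isLocalization_stalk h
    let _ := (X.presheaf.stalkSpecializes h).hom.toAlgebra
    have hz := hreg z
    exact IsRegularLocalRing.of_ringEquiv (IsLocalization.algEquiv
      (RingHom.ker (evalAt h)).primeCompl (X.presheaf.stalk z) (Localization.AtPrime _)).toRingEquiv
  exact isIntegrallyClosed_of_regularRing

theorem u11_appTop {F : Type} [Field F] {X : Scheme.{0}} (σ : F →+* Γ(X, ⊤)) :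
    (strMor σ).appTop = (Scheme.ΓSpecIso (CommRingCat.of F)).hom ≫ CommRingCat.ofHom σ := by
  rw [strMor, Scheme.Hom.comp_appTop, Scheme.toSpecΓ_appTop, Scheme.ΓSpecIso_naturality]

/-- The constants on the base change. -/
noncomputable def u11_sY {F k : Type} [Field F] [Field k] [Algebra F k] {X : Scheme.{0}}
    (σ : F →+* Γ(X, ⊤)) :
    k →+* Γ(pullback (strMor σ) (Spec.map (CommRingCat.ofHom (algebraMap F k))), ⊤) :=
  ((Scheme.ΓSpecIso (CommRingCat.of k)).inv ≫
    (pullback.snd (strMor σ) (Spec.map (CommRingCat.ofHom (algebraMap F k)))).appTop).hom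

theorem u11_comm {F k : Type} [Field F] [Field k] [Algebra F k] {X : Scheme.{0}}
    (σ : F →+* Γ(X, ⊤)) (c : F) :
    (pullback.fst (strMor σ) (Spec.map (CommRingCat.ofHom (algebraMap F k)))).appTop.hom (σ c) =
      u11_sY (k := k) σ (algebraMap F k c) := by
  have h1 : (strMor σ).appTop ≫ (pullback.fst (strMor σ)
      (Spec.map (CommRingCat.ofHom (algebraMap F k)))).appTop =
      (Spec.map (CommRingCat.ofHom (algebraMap F k))).appTop ≫ (pullback.snd (strMor σ)
      (Spec.map (CommRingCat.ofHom (algebraMap F k)))).appTop := by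
    rw [← Scheme.Hom.comp_appTop, ← Scheme.Hom.comp_appTop, pullback.condition]
  have h2 : (Scheme.ΓSpecIso (CommRingCat.of F)).inv ≫
      (Spec.map (CommRingCat.ofHom (algebraMap F k))).appTop =
      CommRingCat.ofHom (algebraMap F k) ≫ (Scheme.ΓSpecIso (CommRingCat.of k)).inv := by
    rw [Iso.inv_comp_eq, ← Category.assoc, Iso.eq_comp_inv, Scheme.ΓSpecIso_naturality]
  have h3 : CommRingCat.ofHom σ ≫ (pullback.fst (strMor σ)
      (Spec.map (CommRingCat.ofHom (algebraMap F k)))).appTop =
      CommRingCat.ofHom (algebraMap F k) ≫ (Scheme.ΓSpecIso (CommRingCat.of k)).inv ≫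
      (pullback.snd (strMor σ) (Spec.map (CommRingCat.ofHom (algebraMap F k)))).appTop := by
    rw [← Category.assoc, ← h2, Category.assoc, ← h1, u11_appTop, Category.assoc,
      Iso.inv_hom_id_assoc]
  exact congrArg (fun f => f.hom c) h3

theorem u11_section {F k : Type} [Field F] [Field k] [Algebra F k] {X : Scheme.{0}}
    (σ : F →+* Γ(X, ⊤)) (U : X.Opens) (hU : IsAffineOpen U) :
    IsPushout (CommRingCat.ofHom ((X.presheaf.map (homOfLE (le_top : U ≤ ⊤)).op).hom.comp σ))
      (CommRingCat.ofHom (algebraMap F k))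
      (CommRingCat.ofHom ((pullback.fst (strMor σ)
        (Spec.map (CommRingCat.ofHom (algebraMap F k)))).app U).hom)
      (CommRingCat.ofHom (((pullback (strMor σ)
        (Spec.map (CommRingCat.ofHom (algebraMap F k)))).presheaf.map (homOfLE (le_top :
          (pullback.fst (strMor σ) (Spec.map (CommRingCat.ofHom (algebraMap F k)))) ⁻¹ᵁ U ≤
          ⊤)).op).hom.comp (u11_sY (k := k) σ))) := by
  have H := IsPullback.of_hasPullback (strMor σ)
    (Spec.map (CommRingCat.ofHom (algebraMap F k)))
  have hUST : (⊤ : (Spec (CommRingCat.of k)).Opens) ≤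
      (Spec.map (CommRingCat.ofHom (algebraMap F k))) ⁻¹ᵁ (⊤ : (Spec (CommRingCat.of F)).Opens) :=
    le_rfl
  have hUSX : U ≤ (strMor σ) ⁻¹ᵁ (⊤ : (Spec (CommRingCat.of F)).Opens) := le_top
  have hUY : (pullback.fst (strMor σ) (Spec.map (CommRingCat.ofHom (algebraMap F k)))) ⁻¹ᵁ U =
      (pullback.fst (strMor σ) (Spec.map (CommRingCat.ofHom (algebraMap F k)))) ⁻¹ᵁ U ⊓
      (pullback.snd (strMor σ) (Spec.map (CommRingCat.ofHom (algebraMap F k)))) ⁻¹ᵁ ⊤ :=
    (inf_top_eq _).symm
  have h1 := (isIso_pushoutSection_iff H hUST hUSX hUY).1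
    (isIso_pushoutSection_of_isAffineOpen H hUST hUSX hUY (isAffineOpen_top _)
      (isAffineOpen_top _) hU)
  refine h1.of_iso (Scheme.ΓSpecIso (CommRingCat.of F)) (Iso.refl _)
    (Scheme.ΓSpecIso (CommRingCat.of k)) (Iso.refl _) ?_ ?_ ?_ ?_
  · rw [Iso.refl_hom, Category.comp_id, Scheme.Hom.appLE, CommRingCat.ofHom_comp,
      CommRingCat.ofHom_hom, ← Category.assoc, ← u11_appTop]
    rfl
  · rw [Scheme.Hom.appLE, ← Scheme.ΓSpecIso_naturality]
    congr 1
  · rw [Iso.refl_hom, Iso.refl_hom, Category.comp_id, Category.id_comp, Scheme.Hom.appLE_eq_app,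
      CommRingCat.ofHom_hom]
  · rw [Iso.refl_hom, Category.comp_id, Scheme.Hom.appLE, CommRingCat.ofHom_comp,
      CommRingCat.ofHom_hom, u11_sY, CommRingCat.ofHom_hom, Category.assoc, Iso.hom_inv_id_assoc]
    rfl

/-- The assembly, with the base field replaced by the field of constants. -/
theorem u11_exists (F F' k : Type) [Field F] [Field F'] [Field k] [Algebra F F'] [Algebra F' k]
    [Algebra F k] [IsScalarTower F F' k] [Algebra.IsSeparable F' k] (n : ℕ) (X : Scheme.{0})
    [IsIntegral X] (i : X ⟶ PN F n) [IsClosedImmersion i] (q : PN k n ⟶ PN F n)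
    (s : PN F n ⟶ Spec (CommRingCat.of F)) (s' : PN k n ⟶ Spec (CommRingCat.of k))
    (hq : IsPullback q s' s (Spec.map (CommRingCat.ofHom (algebraMap F k)))) [IsSeparated s]
    [LocallyOfFiniteType s'] [QuasiCompact s']
    (σ : F' →+* Γ(X, ⊤))
    (hdom : letI := ((X.presheaf.germ ⊤ (genericPoint X) trivial).hom.comp σ).toAlgebra
      IsDomain (X.functionField ⊗[F'] k))
    (hf : strMor σ ≫ Spec.map (CommRingCat.ofHom (algebraMap F F')) = i ≫ s) :
    ∃ (Y : Scheme.{0}) (_ : IsIntegral Y) (π : Y ⟶ X) (i' : Y ⟶ PN k n),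
      IsClosedImmersion i' ∧ IsNoetherian Y ∧ Nonempty (ConstCov F' k π) := by
  have hint : IsIntegral
      (pullback (strMor σ) (Spec.map (CommRingCat.ofHom (algebraMap F' k)))) :=
    isIntegral_baseChange σ hdom
  obtain ⟨i', hi'⟩ := closed_baseChange n i q s s' hq (strMor σ) hf
  have hik : IsIntegralHom (Spec.map (CommRingCat.ofHom (algebraMap F' k))) := by
    rw [IsIntegralHom.SpecMap_iff]
    exact Algebra.IsIntegral.isIntegral
  have hfl : Flat (Spec.map (CommRingCat.ofHom (algebraMap F' k))) := by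
    rw [Flat.SpecMap_iff]
    exact RingHom.flat_algebraMap_iff.2 inferInstance
  have hsu : Surjective (Spec.map (CommRingCat.ofHom (algebraMap F' k))) := by
    refine ⟨fun x => ?_⟩
    obtain ⟨z⟩ := (inferInstance : Nonempty (PrimeSpectrum k))
    refine ⟨z, ?_⟩
    exact @Subsingleton.elim (PrimeSpectrum F') _ _ _
  have hsurj : Function.Surjective
      (pullback.fst (strMor σ) (Spec.map (CommRingCat.ofHom (algebraMap F' k)))) :=
    (pullback.fst (strMor σ) (Spec.map (CommRingCat.ofHom (algebraMap F' k)))).surjective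
  obtain ⟨ψ, hψ⟩ := exists_psi
    (pullback.fst (strMor σ) (Spec.map (CommRingCat.ofHom (algebraMap F' k))))
    (dbase_generic _ hsurj)
  refine ⟨_, hint, pullback.fst (strMor σ) (Spec.map (CommRingCat.ofHom (algebraMap F' k))), i',
    hi', ?_, ⟨⟨⟨inferInstance, inferInstance, hsurj, ?_, ψ, hψ, ?_⟩, σ, u11_sY σ, u11_comm σ,
      ?_, ?_⟩⟩⟩
  · have : LocallyOfFiniteType (i' ≫ s') := inferInstance
    have : QuasiCompact (i' ≫ s') := inferInstance
    have h1 := LocallyOfFiniteType.isLocallyNoetherian (i' ≫ s')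
    have h2 := QuasiCompact.compactSpace_of_compactSpace (i' ≫ s')
    exact { __ := h1, __ := h2 }
  · exact unram_baseChange _
  · exact sep_baseChange _ ψ hψ
  · intro U hU b
    exact (u11_pushout _ _ _ (u11_section (k := k) σ U hU)).1 b
  · intro U hU n a c hc h0
    exact (u11_pushout _ _ _ (u11_section (k := k) σ U hU)).2 n a c hc h0

/-- U-11 : the base change -/
theorem exists_constCov (F k : Type) [Field F] [PerfectField F] [Field k] [IsAlgClosed k]
    [Algebra F k] [Algebra.IsAlgebraic F k] (n : ℕ) (X : Scheme.{0}) [IsIntegral X]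
    [IsNoetherian X] (i : X ⟶ PN F n) [IsClosedImmersion i]
    (hreg : ∀ x : X, IsRegularLocalRing (X.presheaf.stalk x)) :
    ∃ (F' : Type) (_ : Field F') (_ : Algebra F' k) (Y : Scheme.{0}) (_ : IsIntegral Y)
      (π : Y ⟶ X) (i' : Y ⟶ PN k n), PerfectField F' ∧ Algebra.IsAlgebraic F' k ∧
        IsClosedImmersion i' ∧ IsNoetherian Y ∧ Nonempty (ConstCov F' k π) := by
  obtain ⟨q, s, s', hq, h1, h2, h3, h4, h5⟩ := proj_baseChange F k n
  let str : F →+* Γ(X, ⊤) := ((Scheme.ΓSpecIso (CommRingCat.of F)).inv ≫ (i ≫ s).appTop).hom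
  have hstr : strMor str = i ≫ s := dbase_strMor (i ≫ s)
  let aFK : Algebra F X.functionField :=
    ((X.presheaf.germ ⊤ (genericPoint X) trivial).hom.comp str).toAlgebra
  obtain ⟨σ, hσ⟩ := exists_constants (u11_closed hreg) str
  let F' := algebraicClosure F X.functionField
  let aFk : Algebra F' k := (IsAlgClosed.lift : F' →ₐ[F] k).toRingHom.toAlgebra
  have t1 : IsScalarTower F F' k := IsScalarTower.of_algebraMap_eq fun a =>
    ((IsAlgClosed.lift : F' →ₐ[F] k).commutes a).symm
  have t2 : Algebra.IsAlgebraic F' k := Algebra.IsAlgebraic.tower_top (K := F) F'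
  have t3 : PerfectField F' := Algebra.IsAlgebraic.perfectField (K := F) (L := F')
  have t4 : Algebra.IsSeparable F' k := inferInstance
  have hinj : Function.Injective (X.presheaf.germ ⊤ (genericPoint X) trivial).hom :=
    germ_injective_of_isIntegral X (U := ⊤) (genericPoint X) trivial
  have hval : (X.presheaf.germ ⊤ (genericPoint X) trivial).hom.comp σ =
      algebraMap F' X.functionField := RingHom.ext hσ
  obtain ⟨Y, hY, π, i', hi', hN, hC⟩ := u11_exists F F' k n X i q s s' hq σ (by
    rw [hval]
    let aFpK : Algebra F' X.functionField := (algebraMap F' X.functionField).toAlgebra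
    refine isDomain_tensor (F := F') (K := X.functionField) (k := k) fun z hz => ?_
    obtain ⟨P, hP, hz⟩ := hz
    rw [Polynomial.aeval_def] at hz
    exact ⟨⟨z, mem_algebraicClosure_iff.2 (dbase_alg z P hP hz)⟩, rfl⟩) (by
    have h6 : σ.comp (algebraMap F F') = str := by
      refine RingHom.ext fun a => hinj ?_
      rw [RingHom.comp_apply, hσ]
      rfl
    rw [← hstr, Category.assoc, ← Spec.map_comp, ← CommRingCat.ofHom_comp, h6])
  exact ⟨F', inferInstance, aFk, Y, hY, π, i', t3, t2, hi', hN, hC⟩

end Pool.Agent.K1
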