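import Pool.Agent.K1.UDefs
import Pool.Agent.K1.DDim
import Pool.Agent.K1.DCentre
import Pool.Agent.K1.BDomIff
import Pool.Agent.K1.DGen

/-!
K1-U-13: the centre on `Y` of a valuation ring whose restriction has a centre on `X`.
-/

set_option autoImplicit false
set_option linter.unusedSectionVars false

open AlgebraicGeometry CategoryTheory

namespace Pool.Agent.K1

/-- The nonunits of the restriction of a valuation ring. -/
theorem u13_nonunits {K L : Type} [Field K] [Field L] (i : K →+* L) (V : ValuationSubring L)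
    (z : K) : z ∈ (V.comap i).nonunits ↔ i z ∈ V.nonunits := by
  have key : ∀ {F : Type} [Field F] (W : ValuationSubring F) (a : F), a ≠ 0 →
      (a ∈ W.nonunits ↔ a⁻¹ ∉ W) := by
    intro F _ W a ha
    rw [ValuationSubring.mem_nonunits_iff, ← not_le, not_iff_not, ← W.valuation_le_one_iff,
      map_inv₀, inv_le_one₀ (zero_lt_iff.2 ((map_ne_zero _).2 ha))]
  by_cases hz : z = 0
  · subst hz
    rw [map_zero]
    simp
  · rw [key _ z hz, key _ (i z) ((map_ne_zero i).2 hz), ValuationSubring.mem_comap, map_inv₀]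

section
variable {Y X : Scheme.{0}} [IsIntegral Y] [IsIntegral X] {π : Y ⟶ X}

omit [IsIntegral Y] [IsIntegral X] in
/-- Evaluation commutes with the maps of the residue fields. -/
theorem u13_eval (U : X.Opens) (y : Y) (hy : π y ∈ U) (a : Γ(X, U)) :
    (π.residueFieldMap y).hom ((X.evaluation U (π y) hy).hom a) =
      (Y.evaluation (π ⁻¹ᵁ U) y hy).hom ((π.app U).hom a) := by
  have h := Scheme.evaluation_naturality_apply π (V := U) y hy a
  exact h

/-- U-13a -/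
theorem centre_pi [IsNoetherian Y] [IsNoetherian X] (P : ProEt π) {m : ℕ} (y : PointCo Y m)
    (x : PointCo X (m + 1)) (h : π y.1 ⤳ x.1) (V' : ValuationSubring (Y.residueField y.1))
    (hV' : Dominates h (V'.comap (π.residueFieldMap y.1).hom)) :
    ∃ (x' : PointCo Y (m + 1)) (h' : y.1 ⤳ x'.1), π x'.1 = x.1 ∧ Dominates h' V' := by
  obtain ⟨y, hy⟩ := y
  obtain ⟨x, hx⟩ := x
  simp only at h V' hV' ⊢
  have hi := P.integral
  obtain ⟨U, hU, hxU, -⟩ := exists_isAffineOpen_mem_and_subset (x := x) (U := ⊤) trivial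
  have hyU : π y ∈ U := h.mem_open U.isOpen hxU
  have hW : IsAffineOpen (π ⁻¹ᵁ U) := hU.preimage π
  have hyW : y ∈ π ⁻¹ᵁ U := hyU
  have hdom := (dominates_iff U hU h hxU hyU _).1 hV'
  let gB : Γ(Y, π ⁻¹ᵁ U) →+* Y.residueField y := (Y.evaluation (π ⁻¹ᵁ U) y hyW).hom
  have hgA : ∀ a : Γ(X, U), gB ((π.app U).hom a) =
      (π.residueFieldMap y).hom ((X.evaluation U (π y) hyU).hom a) :=
    fun a => (u13_eval U y hyU a).symm
  have hgAmem : ∀ a : Γ(X, U), gB ((π.app U).hom a) ∈ V' := by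
    intro a
    rw [hgA]
    exact (hdom a).1
  have hgB : ∀ b, gB b ∈ V' := by
    intro b
    obtain ⟨p, hp, hpb⟩ := hi.isIntegral_app U hU b
    let gA : Γ(X, U) →+* V' := (gB.comp (π.app U).hom).codRestrict V' (fun a => hgAmem a)
    have h1 : IsIntegral V' (gB b) := by
      refine ⟨p.map gA, hp.map _, ?_⟩
      rw [Polynomial.eval₂_map]
      have h2 : (algebraMap V' (Y.residueField y)).comp gA = gB.comp (π.app U).hom := by
        ext a; rfl
      rw [h2, ← Polynomial.hom_eval₂, hpb, map_zero]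
    obtain ⟨c, hc⟩ := (IsIntegrallyClosed.isIntegral_iff (R := V') (K := Y.residueField y)).1 h1
    rw [← hc]
    exact c.2
  let φ : Γ(Y, π ⁻¹ᵁ U) →+* V' := gB.codRestrict V' hgB
  let q : Ideal Γ(Y, π ⁻¹ᵁ U) := (IsLocalRing.maximalIdeal V').comap φ
  have hqp : q.IsPrime := Ideal.comap_isPrime φ _
  have hq : ∀ b, b ∈ q ↔ gB b ∈ V'.nonunits := fun b => by
    rw [Ideal.mem_comap]
    exact (ValuationSubring.mem_nonunits_iff_exists_mem_maximalIdeal (A := V')).trans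
      ⟨fun ⟨_, h⟩ => h, fun h => ⟨hgB b, h⟩⟩ |>.symm
  let Q : PrimeSpectrum Γ(Y, π ⁻¹ᵁ U) := ⟨q, hqp⟩
  have hcomm : ∀ T : Spec Γ(Y, π ⁻¹ᵁ U), hU.fromSpec (Spec.map (π.app U) T) =
      π (hW.fromSpec T) := by
    intro T
    have h1 := IsAffineOpen.SpecMap_appLE_fromSpec π hU hW le_rfl
    rw [← Scheme.Hom.app_eq_appLE] at h1
    have h2 := congrArg (fun g : Spec Γ(Y, π ⁻¹ᵁ U) ⟶ X => g T) h1
    simpa using h2
  have hxy : π (hW.fromSpec Q) = x := by
    obtain ⟨p, hp⟩ := af_surj hU hxU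
    rw [← hcomm, ← hp]
    congr 1
    apply PrimeSpectrum.ext
    ext a
    change (π.app U).hom a ∈ q ↔ a ∈ p.asIdeal
    rw [hq, hgA, ← u13_nonunits, ← (hdom a).2]
    subst hp
    exact dgen_mem_asIdeal hU p hxU a
  have hx'W : hW.fromSpec Q ∈ π ⁻¹ᵁ U := af_mem hW Q
  have hev : ∀ b : Γ(Y, π ⁻¹ᵁ U), (Y.evaluation (π ⁻¹ᵁ U) (hW.fromSpec Q) hx'W).hom b = 0 ↔
      gB b ∈ V'.nonunits := by
    intro b
    rw [dgen_mem_asIdeal hW Q hx'W b]
    exact hq b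
  have hsp : y ⤳ hW.fromSpec Q := by
    refine specializes_of_eval (π ⁻¹ᵁ U) hW hyW hx'W fun b hb => ?_
    rw [hev]
    have hb' : gB b = 0 := hb
    rw [hb', ValuationSubring.mem_nonunits_iff, map_zero]
    exact zero_lt_one
  refine ⟨⟨hW.fromSpec Q, ?_⟩, hsp, hxy, ?_⟩
  · rw [← coheight_pi P, hxy]
    exact hx
  · exact (dominates_iff (π ⁻¹ᵁ U) hW hsp hx'W hyW V').2 fun b => ⟨hgB b, hev b⟩

/-- U-13b -/
theorem dominates_pi {y x' : Y} (h' : y ⤳ x') (h : π y ⤳ π x')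
    (V' : ValuationSubring (Y.residueField y)) (hV' : Dominates h' V') :
    Dominates h (V'.comap (π.residueFieldMap y).hom) := by
  intro b
  have h1 := evalAt_pi π h' h b
  have h2 := hV' ((π.stalkMap x').hom b)
  refine ⟨?_, fun hb => ?_⟩
  · rw [ValuationSubring.mem_comap, ← h1]
    exact h2.1
  · rw [u13_nonunits, ← h1]
    exact h2.2 fun hu => hb ((isUnit_map_iff (π.stalkMap x').hom b).1 hu)

/-- U-13c -/
theorem centre_pi_unique (P : ProEt π) {y x₁ x₂ : Y} (h₁ : y ⤳ x₁) (h₂ : y ⤳ x₂)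
    (h : π x₁ = π x₂) (V' : ValuationSubring (Y.residueField y)) (hV₁ : Dominates h₁ V')
    (hV₂ : Dominates h₂ V') : x₁ = x₂ := by
  have hi := P.integral
  obtain ⟨U, hU, hxU, -⟩ := exists_isAffineOpen_mem_and_subset (x := π x₁) (U := ⊤) trivial
  have hW : IsAffineOpen (π ⁻¹ᵁ U) := hU.preimage π
  have hx₁ : x₁ ∈ π ⁻¹ᵁ U := hxU
  have hx₂ : x₂ ∈ π ⁻¹ᵁ U := by
    change π x₂ ∈ U
    rw [← h]
    exact hxU
  have hy : y ∈ π ⁻¹ᵁ U := h₁.mem_open (π ⁻¹ᵁ U).isOpen hx₁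
  have k1 := (dominates_iff (π ⁻¹ᵁ U) hW h₁ hx₁ hy V').1 hV₁
  have k2 := (dominates_iff (π ⁻¹ᵁ U) hW h₂ hx₂ hy V').1 hV₂
  have k3 : ∀ b, (Y.evaluation (π ⁻¹ᵁ U) x₁ hx₁).hom b = 0 ↔
      (Y.evaluation (π ⁻¹ᵁ U) x₂ hx₂).hom b = 0 := fun b => (k1 b).2.trans (k2 b).2.symm
  have s1 : x₁ ⤳ x₂ := (specializes_iff_chart (π ⁻¹ᵁ U) hW hx₂ hx₁).2 fun b hb => (k3 b).1 hb
  have s2 : x₂ ⤳ x₁ := (specializes_iff_chart (π ⁻¹ᵁ U) hW hx₁ hx₂).2 fun b hb => (k3 b).2 hb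
  exact (s1.antisymm s2).eq

end

end Pool.Agent.K1
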