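import Pool.Agent.K1.UDefs

/-!
Constant extensions are unramified.
-/

set_option autoImplicit false

open Polynomial

namespace Pool.Agent.K1

section loc

variable {V V' : Type} [CommRing V] [IsLocalRing V] [CommRing V'] [IsLocalRing V']
  (j : V →+* V') [IsLocalHom j] (t : V')

theorem u01_red (p : V[X]) :
    IsLocalRing.residue V' (p.eval₂ j t) =
      (p.map (IsLocalRing.residue V)).eval₂ (IsLocalRing.ResidueField.map j)
        (IsLocalRing.residue V' t) := by
  rw [Polynomial.eval₂_map, Polynomial.hom_eval₂]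
  rfl

theorem u01_step (f : V[X]) (hf : f.eval₂ j t = 0)
    (hsep : (f.map (IsLocalRing.residue V)).Separable) (π : V)
    (hπ : ∀ x : V, IsLocalRing.residue V x = 0 → π ∣ x) (p : V[X])
    (hp : IsLocalRing.residue V' (p.eval₂ j t) = 0) :
    ∃ r g : V[X], IsLocalRing.residue V' (g.eval₂ j t) ≠ 0 ∧
      p.eval₂ j t * g.eval₂ j t = j π * r.eval₂ j t := by
  let : Algebra (IsLocalRing.ResidueField V) (IsLocalRing.ResidueField V') :=
    (IsLocalRing.ResidueField.map j).toAlgebra
  set θ := IsLocalRing.residue V' t with hθ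
  have hae : ∀ q : (IsLocalRing.ResidueField V)[X],
      q.eval₂ (IsLocalRing.ResidueField.map j) θ = aeval θ q := fun q => rfl
  have hdiv : ∀ s : V[X], s.map (IsLocalRing.residue V) = 0 → ∃ r : V[X], s = C π * r := by
    intro s hs
    have h1 : C π ∣ s := by
      rw [Polynomial.C_dvd_iff_dvd_coeff]
      intro n
      apply hπ
      rw [← Polynomial.coeff_map, hs, Polynomial.coeff_zero]
    exact h1
  have hf' : aeval θ (f.map (IsLocalRing.residue V)) = 0 := by
    rw [← hae, hθ, ← u01_red, hf, map_zero]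
  have hp' : aeval θ (p.map (IsLocalRing.residue V)) = 0 := by
    rw [← hae, hθ, ← u01_red, hp]
  obtain ⟨g₁, hg₁⟩ := minpoly.dvd (IsLocalRing.ResidueField V) θ hf'
  obtain ⟨q₁, hq₁⟩ := minpoly.dvd (IsLocalRing.ResidueField V) θ hp'
  have hsurj := Polynomial.map_surjective (IsLocalRing.residue V) (IsLocalRing.residue_surjective)
  obtain ⟨h, hh⟩ := hsurj (minpoly (IsLocalRing.ResidueField V) θ)
  obtain ⟨g, hg⟩ := hsurj g₁
  obtain ⟨q, hq⟩ := hsurj q₁
  obtain ⟨r₁, hr₁⟩ := hdiv (f - h * g) (by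
    rw [Polynomial.map_sub, Polynomial.map_mul, hh, hg, hg₁, sub_self])
  obtain ⟨r₂, hr₂⟩ := hdiv (p - h * q) (by
    rw [Polynomial.map_sub, Polynomial.map_mul, hh, hq, hq₁, sub_self])
  refine ⟨r₂ * g - r₁ * q, g, ?_, ?_⟩
  · rw [u01_red, hg, ← hθ, hae]
    intro h0
    rw [hg₁] at hsep
    obtain ⟨a, b, hab⟩ := hsep.isCoprime
    have h1 := congrArg (aeval θ) hab
    rw [map_add, map_mul, map_mul, minpoly.aeval, h0, mul_zero, mul_zero, add_zero, map_one] at h1
    exact zero_ne_one h1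
  · have e1 : f.eval₂ j t - h.eval₂ j t * g.eval₂ j t = j π * r₁.eval₂ j t := by
      have := congrArg (Polynomial.eval₂ j t) hr₁
      rwa [Polynomial.eval₂_sub, Polynomial.eval₂_mul, Polynomial.eval₂_mul,
        Polynomial.eval₂_C] at this
    have e2 : p.eval₂ j t - h.eval₂ j t * q.eval₂ j t = j π * r₂.eval₂ j t := by
      have := congrArg (Polynomial.eval₂ j t) hr₂
      rwa [Polynomial.eval₂_sub, Polynomial.eval₂_mul, Polynomial.eval₂_mul,
        Polynomial.eval₂_C] at this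
    rw [hf, zero_sub] at e1
    rw [Polynomial.eval₂_sub, Polynomial.eval₂_mul, Polynomial.eval₂_mul]
    linear_combination (g.eval₂ j t) * e2 - (q.eval₂ j t) * e1

theorem u01_inv (f : V[X]) (hf : f.eval₂ j t = 0)
    (hsep : (f.map (IsLocalRing.residue V)).Separable) (g : V[X])
    (hg : IsLocalRing.residue V' (g.eval₂ j t) ≠ 0) :
    ∃ s : V[X], IsLocalRing.residue V' (g.eval₂ j t) * IsLocalRing.residue V' (s.eval₂ j t) =
      1 := by
  let : Algebra (IsLocalRing.ResidueField V) (IsLocalRing.ResidueField V') :=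
    (IsLocalRing.ResidueField.map j).toAlgebra
  set θ := IsLocalRing.residue V' t with hθ
  have hae : ∀ q : (IsLocalRing.ResidueField V)[X],
      q.eval₂ (IsLocalRing.ResidueField.map j) θ = aeval θ q := fun q => rfl
  have hf' : aeval θ (f.map (IsLocalRing.residue V)) = 0 := by
    rw [← hae, hθ, ← u01_red, hf, map_zero]
  have hint : IsIntegral (IsLocalRing.ResidueField V) θ := by
    rw [← isAlgebraic_iff_isIntegral]
    exact ⟨_, hsep.ne_zero, hf'⟩
  have hnd : ¬ minpoly (IsLocalRing.ResidueField V) θ ∣ g.map (IsLocalRing.residue V) := by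
    rintro ⟨c, hc⟩
    apply hg
    rw [u01_red, hc, ← hθ, hae, map_mul, minpoly.aeval, zero_mul]
  obtain ⟨a, b, hab⟩ := ((minpoly.irreducible hint).coprime_iff_not_dvd).2 hnd
  obtain ⟨s, hs⟩ := Polynomial.map_surjective (IsLocalRing.residue V)
    (IsLocalRing.residue_surjective) b
  refine ⟨s, ?_⟩
  rw [u01_red, u01_red, hs, ← hθ, hae, hae]
  have h1 := congrArg (aeval θ) hab
  rw [map_add, map_mul, map_mul, minpoly.aeval, mul_zero, zero_add, map_one] at h1
  rw [mul_comm]
  exact h1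

end loc

section val

variable {K : Type} [Field K] {v : ValuationSubring K}

theorem u01_ordV_pow {π : K} (hπ : IsUnifV v π) (n : ℕ) :
    ordV v (π ^ n) = n := by
  have h1 := ordV_eq (n := (n : ℤ)) (u := 1) hπ ⟨by simp, by simp⟩
  simpa using h1

theorem u01_not_mem (hv : IsDiscV v) {π : K} (hπ : IsUnifV v π) {x : K} (hx : x ≠ 0) :
    ∃ n : ℕ, x / π ^ n ∉ v := by
  refine ⟨(ordV v x).toNat + 1, fun h => ?_⟩
  have hp : π ^ ((ordV v x).toNat + 1) ≠ 0 := pow_ne_zero _ hπ.1
  rw [mem_iff_ordV hv (div_ne_zero hx hp), div_eq_mul_inv, ordV_mul hv hx (inv_ne_zero hp),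
    ordV_inv hv hp, u01_ordV_pow hπ] at h
  push_cast at h
  omega

theorem u01_mul_mem (hv : IsDiscV v) {π : K} (hπ : IsUnifV v π) (x : K) :
    ∃ n : ℕ, ∀ m, n ≤ m → π ^ m * x ∈ v := by
  by_cases hx : x = 0
  · refine ⟨0, fun m _ => ?_⟩
    rw [hx, mul_zero]
    exact v.zero_mem
  · refine ⟨(-ordV v x).toNat, fun m hm => ?_⟩
    have hp : π ^ m ≠ 0 := pow_ne_zero _ hπ.1
    rw [mem_iff_ordV hv (mul_ne_zero hp hx), ordV_mul hv hp hx, u01_ordV_pow hπ]
    omega

theorem u01_mul_mem_fin (hv : IsDiscV v) {π : K} (hπ : IsUnifV v π) {ι : Type} (s : Finset ι)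
    (a : ι → K) : ∃ n : ℕ, ∀ j ∈ s, π ^ n * a j ∈ v := by
  classical
  choose N hN using fun x => u01_mul_mem hv hπ x
  refine ⟨s.sup fun j => N (a j), fun j hj => hN _ _ ?_⟩
  exact Finset.le_sup (f := fun j => N (a j)) hj

end val

section main

variable {F k K L : Type} [Field F] [Field k] [Field K] [Field L] [Algebra F k]
  {iF : F →+* K} {ik : k →+* L} {i : K →+* L}

theorem u01_integral [Algebra.IsAlgebraic F k] (h : ConstExt iF ik i) (z : L) :
    letI := i.toAlgebra
    IsIntegral K z := by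
  letI := i.toAlgebra
  obtain ⟨n, a, c, rfl⟩ := h.gen z
  apply IsIntegral.sum
  intro j _
  apply IsIntegral.mul
  · exact isIntegral_algebraMap (x := a j)
  · have h1 : IsIntegral F (c j) := Algebra.IsIntegral.isIntegral (c j)
    obtain ⟨p, hp, hp0⟩ := h1
    refine ⟨p.map iF, hp.map iF, ?_⟩
    rw [Polynomial.eval₂_map]
    have h2 : (algebraMap K L).comp iF = ik.comp (algebraMap F k) := RingHom.ext h.comm
    rw [h2, ← Polynomial.hom_eval₂, hp0, map_zero]

/-- a nonzero element is not divisible by all powers of the uniformizer -/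
theorem u01_bound [Algebra.IsAlgebraic F k] (h : ConstExt iF ik i) (V' : ValuationSubring L)
    (hV : IsDiscV (V'.comap i)) {π : K} (hπ : IsUnifV (V'.comap i) π) (w : L) (hw : w ∈ V')
    (hw0 : w ≠ 0) : ∃ n : ℕ, ∀ y ∈ V', w ≠ i π ^ n * y := by
  letI := i.toAlgebra
  have hint : IsIntegral K w := u01_integral h w
  set q := minpoly K w with hq
  have hq0 : q.coeff 0 ≠ 0 := minpoly.coeff_zero_ne_zero hint hw0
  obtain ⟨N, hN⟩ := u01_mul_mem_fin hV hπ (Finset.range (q.natDegree + 1)) (fun j => q.coeff j)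
  have hx : π ^ N * q.coeff 0 ≠ 0 := mul_ne_zero (pow_ne_zero _ hπ.1) hq0
  obtain ⟨n, hn⟩ := u01_not_mem hV hπ hx
  refine ⟨n, fun y hy hwy => hn ?_⟩
  have h1 : ∑ j ∈ Finset.range (q.natDegree + 1), i (q.coeff j) * w ^ j = 0 := by
    have h2 : aeval w q = 0 := minpoly.aeval K w
    rw [Polynomial.aeval_eq_sum_range] at h2
    rw [← h2]
    apply Finset.sum_congr rfl
    intro j _
    rw [Algebra.smul_def]
    rfl
  rw [Finset.sum_range_succ', pow_zero, mul_one] at h1
  have h3 : i (π ^ N * q.coeff 0) =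
      w * -(∑ j ∈ Finset.range q.natDegree, i (π ^ N * q.coeff (j + 1)) * w ^ j) := by
    have h4 : i (q.coeff 0) = -∑ j ∈ Finset.range q.natDegree, i (q.coeff (j + 1)) * w ^ (j + 1) :=
      eq_neg_of_add_eq_zero_right h1
    rw [map_mul, h4, mul_neg, mul_neg, Finset.mul_sum, Finset.mul_sum]
    congr 1
    apply Finset.sum_congr rfl
    intro j _
    rw [map_mul]
    ring
  have hmem : -(∑ j ∈ Finset.range q.natDegree, i (π ^ N * q.coeff (j + 1)) * w ^ j) ∈ V' := by
    apply neg_mem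
    apply sum_mem
    intro j hj
    apply mul_mem
    · have := hN (j + 1) (by rw [Finset.mem_range] at hj ⊢; omega)
      exact this
    · exact pow_mem hw j
  rw [ValuationSubring.mem_comap, map_div₀, h3, map_pow]
  have hπ0 : i π ≠ 0 := (map_ne_zero i).2 hπ.1
  have h5 : w * -(∑ j ∈ Finset.range q.natDegree, i (π ^ N * q.coeff (j + 1)) * w ^ j) /
      i π ^ n = y * -(∑ j ∈ Finset.range q.natDegree, i (π ^ N * q.coeff (j + 1)) * w ^ j) := by
    nth_rewrite 1 [hwy]
    field_simp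
  rw [h5]
  exact mul_mem hy hmem

theorem u01_const_mem [Algebra.IsAlgebraic F k] (V' : ValuationSubring L)
    (h : ∀ c : F, i (iF c) = ik (algebraMap F k c)) (hF : ∀ c, iF c ∈ V'.comap i) (c : k) :
    ik c ∈ V' := by
  obtain ⟨p, hp, hp0⟩ : IsIntegral F c := Algebra.IsIntegral.isIntegral c
  let j : F →+* V' := (i.comp iF).codRestrict V'.toSubring hF
  have h2 : IsIntegral V' (ik c) := by
    refine ⟨p.map j, hp.map j, ?_⟩
    rw [Polynomial.eval₂_map]
    have h3 : (algebraMap V' L).comp j = ik.comp (algebraMap F k) := RingHom.ext h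
    rw [h3, ← Polynomial.hom_eval₂, hp0, map_zero]
  obtain ⟨y, hy⟩ := IsIntegrallyClosed.isIntegral_iff.1 h2
  rw [← hy]
  exact y.2

theorem u01_decomp [Algebra.IsSeparable F k] (h : ConstExt iF ik i) (V' : ValuationSubring L)
    (hV : IsDiscV (V'.comap i)) (hF : ∀ c, iF c ∈ V'.comap i) {π : K}
    (hπ : IsUnifV (V'.comap i) π) (z : L) (hz : z ≠ 0) :
    ∃ (N n : ℕ) (θ : k) (hθ : ik θ ∈ V') (f r g : (V'.comap i)[X]),
      f.eval₂ (comapIncl i V') ⟨ik θ, hθ⟩ = 0 ∧
      (f.map (IsLocalRing.residue (V'.comap i))).Separable ∧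
      IsLocalRing.residue V' (r.eval₂ (comapIncl i V') ⟨ik θ, hθ⟩) ≠ 0 ∧
      IsLocalRing.residue V' (g.eval₂ (comapIncl i V') ⟨ik θ, hθ⟩) ≠ 0 ∧
      i π ^ N * z * ((g.eval₂ (comapIncl i V') ⟨ik θ, hθ⟩ : V') : L) =
        i π ^ n * ((r.eval₂ (comapIncl i V') ⟨ik θ, hθ⟩ : V') : L) := by
  obtain ⟨m, a, c, hz'⟩ := h.gen z
  have hfin : FiniteDimensional F (IntermediateField.adjoin F (Set.range c)) := by
    apply IntermediateField.finiteDimensional_adjoin
    intro x _
    exact Algebra.IsIntegral.isIntegral x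
  obtain ⟨α, hα⟩ := Field.exists_primitive_element F (IntermediateField.adjoin F (Set.range c))
  set θ : k := (α : k) with hθdef
  have hp : ∀ j, ∃ p : F[X], aeval θ p = c j := by
    intro j
    have h1 : c j ∈ IntermediateField.adjoin F (Set.range c) :=
      IntermediateField.subset_adjoin F _ ⟨j, rfl⟩
    have h2 : (⟨c j, h1⟩ : IntermediateField.adjoin F (Set.range c)) ∈
        IntermediateField.adjoin F {α} := by
      rw [hα]; exact IntermediateField.mem_top
    rw [← IntermediateField.mem_toSubalgebra,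
      IntermediateField.adjoin_simple_toSubalgebra_of_isAlgebraic
        (Algebra.IsIntegral.isIntegral α).isAlgebraic, Algebra.adjoin_singleton_eq_range_aeval] at h2
    obtain ⟨p, hp⟩ := h2
    refine ⟨p, ?_⟩
    have h3 := congrArg (algebraMap (IntermediateField.adjoin F (Set.range c)) k) hp
    change algebraMap _ k (aeval α p) = c j at h3
    rw [← Polynomial.aeval_algebraMap_apply] at h3
    exact h3
  choose p hp using hp
  have hθ : ik θ ∈ V' := u01_const_mem V' h.comm hF θ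
  set t : V' := ⟨ik θ, hθ⟩ with ht
  obtain ⟨N, hN⟩ := u01_mul_mem_fin hV hπ Finset.univ a
  let iV : F →+* V'.comap i := iF.codRestrict (V'.comap i).toSubring hF
  have hcomp : V'.subtype.comp ((comapIncl i V').comp iV) = ik.comp (algebraMap F k) :=
    RingHom.ext h.comm
  have hcoe : ∀ q : F[X], (((q.map iV).eval₂ (comapIncl i V') t : V') : L) = ik (aeval θ q) := by
    intro q
    change V'.subtype _ = _
    rw [Polynomial.eval₂_map, Polynomial.hom_eval₂, hcomp, Polynomial.aeval_def,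
      Polynomial.hom_eval₂]
    rfl
  set f : (V'.comap i)[X] := (minpoly F θ).map iV with hf
  have hf0 : f.eval₂ (comapIncl i V') t = 0 := by
    apply Subtype.ext
    rw [hf, hcoe, minpoly.aeval, map_zero]
    rfl
  have hsep : (f.map (IsLocalRing.residue (V'.comap i))).Separable := by
    rw [hf, Polynomial.map_map]
    exact Polynomial.Separable.map (Algebra.IsSeparable.isSeparable F θ)
  set P : (V'.comap i)[X] := ∑ j, C (⟨π ^ N * a j, hN j (Finset.mem_univ j)⟩ : V'.comap i) *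
    (p j).map iV with hP
  have hPe : ((P.eval₂ (comapIncl i V') t : V') : L) = i π ^ N * z := by
    change V'.subtype _ = _
    rw [hP, Polynomial.eval₂_finsetSum, map_sum, hz', Finset.mul_sum]
    apply Finset.sum_congr rfl
    intro j _
    rw [Polynomial.eval₂_mul, Polynomial.eval₂_C, map_mul]
    have h1 : V'.subtype (((p j).map iV).eval₂ (comapIncl i V') t) = ik (c j) := by
      rw [← hp j]; exact hcoe _
    have h2 : V'.subtype (comapIncl i V' ⟨π ^ N * a j, hN j (Finset.mem_univ j)⟩) =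
        i (π ^ N * a j) := rfl
    rw [h1, h2, map_mul, map_pow, mul_assoc]
  obtain ⟨hπm, -⟩ := tord_unif_mem hπ
  have hdvd : ∀ x : V'.comap i, IsLocalRing.residue (V'.comap i) x = 0 →
      (⟨π, hπm⟩ : V'.comap i) ∣ x := by
    intro x hx
    have h1 : ¬ IsUnit x := by
      intro hu
      exact (IsLocalRing.residue_ne_zero_iff_isUnit x).2 hu hx
    have h2 : (x : K) ∈ (V'.comap i).nonunits := by
      rw [tord_nonunits_iff]
      by_cases hx0 : (x : K) = 0
      · exact Or.inl hx0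
      · exact Or.inr ⟨x.2, fun h3 => h1 (tord_isUnit_iff.2 ⟨hx0, h3⟩)⟩
    obtain ⟨c, hc, hc'⟩ := (hπ.2 _).1 h2
    exact ⟨⟨c, hc⟩, Subtype.ext hc'⟩
  set w : V' := P.eval₂ (comapIncl i V') t with hw
  have hπ0 : i π ≠ 0 := (map_ne_zero i).2 hπ.1
  have hw0 : (w : L) ≠ 0 := by
    rw [hPe]
    exact mul_ne_zero (pow_ne_zero _ hπ0) hz
  set ϖ : V' := comapIncl i V' ⟨π, hπm⟩ with hϖ
  have key : ∀ n : ℕ, (∃ (n' : ℕ) (r g : (V'.comap i)[X]),
      IsLocalRing.residue V' (r.eval₂ (comapIncl i V') t) ≠ 0 ∧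
      IsLocalRing.residue V' (g.eval₂ (comapIncl i V') t) ≠ 0 ∧
      w * g.eval₂ (comapIncl i V') t = ϖ ^ n' * r.eval₂ (comapIncl i V') t) ∨
      ∃ r g : (V'.comap i)[X], IsLocalRing.residue V' (g.eval₂ (comapIncl i V') t) ≠ 0 ∧
        w * g.eval₂ (comapIncl i V') t = ϖ ^ n * r.eval₂ (comapIncl i V') t := by
    intro n
    induction n with
    | zero =>
      right
      refine ⟨P, 1, ?_, ?_⟩
      · rw [Polynomial.eval₂_one, map_one]; exact one_ne_zero
      · rw [Polynomial.eval₂_one, pow_zero, one_mul, mul_one]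
    | succ n ih =>
      rcases ih with ih | ⟨r, g, hg, he⟩
      · exact Or.inl ih
      by_cases hr : IsLocalRing.residue V' (r.eval₂ (comapIncl i V') t) = 0
      · right
        obtain ⟨r', g', hg', he'⟩ := u01_step (comapIncl i V') t f hf0 hsep _ hdvd r hr
        refine ⟨r', g * g', ?_, ?_⟩
        · rw [Polynomial.eval₂_mul, map_mul]
          exact mul_ne_zero hg hg'
        · rw [Polynomial.eval₂_mul, ← mul_assoc, he, mul_assoc, he', ← hϖ, pow_succ, mul_assoc]
      · exact Or.inl ⟨n, r, g, hr, hg, he⟩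
  obtain ⟨n, hn⟩ := u01_bound h V' hV hπ w w.2 hw0
  rcases key n with ⟨n', r, g, hr, hg, he⟩ | ⟨r, g, hg, he⟩
  · refine ⟨N, n', θ, hθ, f, r, g, hf0, hsep, hr, hg, ?_⟩
    rw [← hPe]
    have := congrArg (Subtype.val) he
    exact this
  · exfalso
    obtain ⟨u, hu⟩ := (IsLocalRing.residue_ne_zero_iff_isUnit _).1 hg
    apply hn ((r.eval₂ (comapIncl i V') t * ((u⁻¹ : V'ˣ) : V') : V') : L) (Subtype.mem _)
    have h1 : w = ϖ ^ n * (r.eval₂ (comapIncl i V') t * ((u⁻¹ : V'ˣ) : V')) := by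
      rw [← mul_assoc, ← he, ← hu, mul_assoc, Units.mul_inv, mul_one]
    have := congrArg (Subtype.val) h1
    exact this

/-- U-01 : constant extensions are unramified, with residue field generated by constants. -/
theorem const_val [Algebra.IsSeparable F k] (h : ConstExt iF ik i) (V' : ValuationSubring L)
    (hV : IsDiscV (V'.comap i)) (hF : ∀ c, iF c ∈ V'.comap i) :
    (∀ c, ik c ∈ V') ∧ (∀ π : K, IsUnifV (V'.comap i) π → IsUnifV V' (i π)) ∧ IsDiscV V' ∧
    ∀ z ∈ V', ∃ (n : ℕ) (a : Fin n → K) (c : Fin n → k), (∀ j, i (a j) ∈ V') ∧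
      z - ∑ j, i (a j) * ik (c j) ∈ V'.nonunits := by
  -- the decomposition
  have hdec : ∀ (π : K), IsUnifV (V'.comap i) π → ∀ z : L, z ≠ 0 →
      ∃ (n : ℤ) (u : Lˣ), UnitIn V' u ∧ z = i π ^ n * u := by
    intro π hπ z hz
    obtain ⟨N, n, θ, hθ, f, r, g, -, -, hr, hg, he⟩ := u01_decomp h V' hV hF hπ z hz
    have hπ0 : i π ≠ 0 := (map_ne_zero i).2 hπ.1
    have hr1 := tord_isUnit_iff.1 ((IsLocalRing.residue_ne_zero_iff_isUnit _).1 hr)
    have hg1 := tord_isUnit_iff.1 ((IsLocalRing.residue_ne_zero_iff_isUnit _).1 hg)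
    set R : V' := r.eval₂ (comapIncl i V') ⟨ik θ, hθ⟩ with hR
    set G : V' := g.eval₂ (comapIncl i V') ⟨ik θ, hθ⟩ with hG
    refine ⟨(n : ℤ) - N, Units.mk0 (R : L) hr1.1 * (Units.mk0 (G : L) hg1.1)⁻¹, ?_, ?_⟩
    · apply tord_unitIn_mul
      · refine ⟨R.2, ?_⟩
        rw [Units.val_inv_eq_inv_val]
        exact hr1.2
      · apply tord_unitIn_inv
        refine ⟨G.2, ?_⟩
        rw [Units.val_inv_eq_inv_val]
        exact hg1.2
    · rw [zpow_sub₀ hπ0, zpow_natCast, zpow_natCast, Units.val_mul, Units.val_inv_eq_inv_val,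
        Units.val_mk0, Units.val_mk0]
      have hg0 : (G : L) ≠ 0 := hg1.1
      field_simp
      linear_combination he
  have hunif : ∀ π : K, IsUnifV (V'.comap i) π → IsUnifV V' (i π) := by
    intro π hπ
    have hπ0 : i π ≠ 0 := (map_ne_zero i).2 hπ.1
    obtain ⟨hπ1, hπ2⟩ := tord_unif_mem hπ
    rw [ValuationSubring.mem_comap] at hπ1 hπ2
    rw [map_inv₀] at hπ2
    refine ⟨hπ0, fun x => ?_⟩
    constructor
    · intro hx
      by_cases hx0 : x = 0
      · exact ⟨0, V'.zero_mem, by rw [hx0, mul_zero]⟩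
      · obtain ⟨m, u, hu, hxu⟩ := hdec π hπ x hx0
        rcases tord_nonunits_iff.1 hx with h0 | ⟨-, h2⟩
        · exact absurd h0 hx0
        by_cases hm : 1 ≤ m
        · refine ⟨i π ^ (m - 1) * u, ?_, ?_⟩
          · obtain ⟨l, hl⟩ : ∃ l : ℕ, m - 1 = l := ⟨(m - 1).toNat, by omega⟩
            rw [hl, zpow_natCast]
            exact mul_mem (pow_mem hπ1 l) hu.1
          · rw [hxu, ← mul_assoc, ← zpow_one_add₀ hπ0]
            congr 2
            ring
        · exfalso
          apply h2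
          obtain ⟨l, hl⟩ : ∃ l : ℕ, m = -(l : ℤ) := ⟨(-m).toNat, by omega⟩
          rw [hxu, hl, mul_inv, zpow_neg, inv_inv, zpow_natCast, ← Units.val_inv_eq_inv_val]
          exact mul_mem (pow_mem hπ1 l) hu.2
    · rintro ⟨c, hc, rfl⟩
      by_cases hc0 : c = 0
      · rw [hc0, mul_zero]
        exact tord_nonunits_iff.2 (Or.inl rfl)
      · refine tord_nonunits_iff.2 (Or.inr ⟨mul_mem hπ1 hc, fun h1 => hπ2 ?_⟩)
        have h2 : (i π)⁻¹ = c * (i π * c)⁻¹ := by
          rw [mul_inv]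
          field_simp
        rw [h2]
        exact mul_mem hc h1
  obtain ⟨π, hπ, -⟩ := id hV
  have hπ0 : i π ≠ 0 := (map_ne_zero i).2 hπ.1
  refine ⟨u01_const_mem V' h.comm hF, hunif, ⟨i π, hunif π hπ, hdec π hπ⟩, ?_⟩
  intro z hz
  by_cases hzn : z ∈ V'.nonunits
  · refine ⟨0, fun _ => 0, fun _ => 0, fun j => j.elim0, ?_⟩
    simpa using hzn
  · have hz0 : z ≠ 0 := by
      rintro rfl
      exact hzn (tord_nonunits_iff.2 (Or.inl rfl))
    have hzi : z⁻¹ ∈ V' := by
      by_contra hcon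
      exact hzn (tord_nonunits_iff.2 (Or.inr ⟨hz, hcon⟩))
    obtain ⟨N, n, θ, hθ, f, r, g, hf0, hsep, hr, hg, he⟩ := u01_decomp h V' hV hF hπ z hz0
    obtain ⟨s, hs⟩ := u01_inv (comapIncl i V') ⟨ik θ, hθ⟩ f hf0 hsep g hg
    have hr1 := tord_isUnit_iff.1 ((IsLocalRing.residue_ne_zero_iff_isUnit _).1 hr)
    have hg1 := tord_isUnit_iff.1 ((IsLocalRing.residue_ne_zero_iff_isUnit _).1 hg)
    set t : V' := ⟨ik θ, hθ⟩ with ht
    -- the exponents agree
    have hu := hunif π hπ
    have hNn : (n : ℤ) = N := by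
      have e1 : i π ^ (n : ℤ) * ((Units.mk0 ((r.eval₂ (comapIncl i V') t : V') : L) hr1.1 :
          Lˣ) : L) = i π ^ (N : ℤ) * ((Units.mk0 z hz0 *
            Units.mk0 ((g.eval₂ (comapIncl i V') t : V') : L) hg1.1 : Lˣ) : L) := by
        rw [zpow_natCast, zpow_natCast, Units.val_mul, Units.val_mk0, Units.val_mk0,
          Units.val_mk0, ← he, mul_assoc]
      refine tord_unique hu hu ?_ ?_ e1
      · refine ⟨Subtype.mem _, ?_⟩
        rw [Units.val_inv_eq_inv_val]
        exact hr1.2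
      · apply tord_unitIn_mul
        · refine ⟨hz, ?_⟩
          rw [Units.val_inv_eq_inv_val]
          exact hzi
        · refine ⟨Subtype.mem _, ?_⟩
          rw [Units.val_inv_eq_inv_val]
          exact hg1.2
    have hNn' : n = N := by exact_mod_cast hNn
    subst hNn'
    have he' : (⟨z, hz⟩ : V') * g.eval₂ (comapIncl i V') t = r.eval₂ (comapIncl i V') t := by
      apply Subtype.ext
      have h1 := he
      rw [mul_assoc] at h1
      exact mul_left_cancel₀ (pow_ne_zero _ hπ0) h1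
    have hres : IsLocalRing.residue V' (⟨z, hz⟩ - (r * s).eval₂ (comapIncl i V') t) = 0 := by
      rw [map_sub, Polynomial.eval₂_mul, ← he', map_mul, map_mul, mul_assoc, hs, mul_one,
        sub_self]
    have hnon : z - (((r * s).eval₂ (comapIncl i V') t : V') : L) ∈ V'.nonunits := by
      have h1 : ¬ IsUnit ((⟨z, hz⟩ : V') - (r * s).eval₂ (comapIncl i V') t) := by
        intro hu'
        exact (IsLocalRing.residue_ne_zero_iff_isUnit _).2 hu' hres
      rw [tord_nonunits_iff]
      by_cases h0 : z - (((r * s).eval₂ (comapIncl i V') t : V') : L) = 0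
      · exact Or.inl h0
      · exact Or.inr ⟨sub_mem hz (Subtype.mem _), fun h3 => h1 (tord_isUnit_iff.2 ⟨h0, h3⟩)⟩
    refine ⟨(r * s).natDegree + 1, fun j => (((r * s).coeff j : V'.comap i) : K),
      fun j => θ ^ (j : ℕ), fun j => ((r * s).coeff j).2, ?_⟩
    have hsum : (((r * s).eval₂ (comapIncl i V') t : V') : L) =
        ∑ j : Fin ((r * s).natDegree + 1), i (((r * s).coeff j : V'.comap i) : K) *
          ik (θ ^ (j : ℕ)) := by
      rw [Polynomial.eval₂_eq_sum_range, ← Fin.sum_univ_eq_sum_range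
        (fun j => comapIncl i V' ((r * s).coeff j) * t ^ j) ((r * s).natDegree + 1)]
      change V'.subtype _ = _
      rw [map_sum]
      apply Finset.sum_congr rfl
      intro j _
      rw [map_mul, map_pow, map_pow]
      rfl
    rw [← hsum]
    exact hnon

end main

end Pool.Agent.K1
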