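import Pool.Agent.K1.UDefs

/-!
Finite Galois extensions of the constants and the fields they generate.
-/

set_option autoImplicit false

open Polynomial

namespace Pool.Agent.K1

section ufields

variable {F k K L : Type} [Field F] [Field k] [Field K] [Field L] [Algebra F k]
  {iF : F →+* K} {ik : k →+* L} {i : K →+* L}

theorem u02_kEmap_coe (E : IntermediateField F k) (a : K) :
    ((kEmap ik i E a : kE ik i E) : L) = i a := rfl

theorem u02_kEconst_coe (E : IntermediateField F k) (c : E) :
    ((kEconst ik i E c : kE ik i E) : L) = ik (c : k) := rfl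

/-- Sums of products form a set closed under the operations of a module. -/
theorem u02_span (E : IntermediateField F k) (z : L)
    (hz : letI := i.toAlgebra
      z ∈ Submodule.span K (ik '' (E : Set k))) :
    ∃ (n : ℕ) (a : Fin n → K) (c : Fin n → E), z = ∑ j, i (a j) * ik (c j : k) := by
  letI := i.toAlgebra
  have hz' : z ∈ Submodule.span K (ik '' (E : Set k)) := hz
  induction hz' using Submodule.span_induction with
  | mem x hx =>
    obtain ⟨c, hc, rfl⟩ := hx
    exact ⟨1, fun _ => 1, fun _ => ⟨c, hc⟩, by simp⟩
  | zero => exact ⟨0, Fin.elim0, Fin.elim0, by simp⟩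
  | add x y hx hy h1 h2 =>
    obtain ⟨n, a, c, rfl⟩ := h1 hx
    obtain ⟨m, a', c', rfl⟩ := h2 hy
    refine ⟨n + m, Fin.append a a', Fin.append c c', ?_⟩
    rw [Fin.sum_univ_add]
    simp
  | smul r x hx h1 =>
    obtain ⟨n, a, c, rfl⟩ := h1 hx
    refine ⟨n, fun j => r * a j, c, ?_⟩
    rw [Algebra.smul_def, Finset.mul_sum]
    apply Finset.sum_congr rfl
    intro j _
    rw [map_mul, mul_assoc]
    rfl

theorem u02_integral [Algebra.IsAlgebraic F k] (h : ConstExt iF ik i) (c : k) :
    letI := i.toAlgebra
    IsIntegral K (ik c) := by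
  letI := i.toAlgebra
  have hc : IsIntegral F c := Algebra.IsIntegral.isIntegral c
  refine ⟨(minpoly F c).map iF, (minpoly.monic hc).map iF, ?_⟩
  have e1 : (algebraMap K L).comp iF = ik.comp (algebraMap F k) := by
    ext x
    exact h.comm x
  rw [Polynomial.eval₂_map, e1, ← Polynomial.hom_eval₂]
  have e2 : Polynomial.eval₂ (algebraMap F k) c (minpoly F c) = 0 := minpoly.aeval F c
  rw [e2, map_zero]

/-- U-02b -/
theorem kE_constExt [Algebra.IsAlgebraic F k] (h : ConstExt iF ik i)
    (E : IntermediateField F k) : ConstExt iF (kEconst ik i E) (kEmap ik i E) := by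
  constructor
  · intro c
    apply Subtype.ext
    rw [u02_kEmap_coe, u02_kEconst_coe]
    exact h.comm c
  · intro z
    letI := i.toAlgebra
    have h1 : (z : L) ∈ IntermediateField.adjoin K (ik '' (E : Set k)) := z.2
    have h2 : (z : L) ∈ Algebra.adjoin K (ik '' (E : Set k)) := by
      have hS : ∀ x ∈ ik '' (E : Set k), IsAlgebraic K x := by
        rintro _ ⟨c, -, rfl⟩
        exact (u02_integral h c).isAlgebraic
      rw [← IntermediateField.adjoin_toSubalgebra_of_isAlgebraic hS]
      exact h1
    have h3 : (z : L) ∈ Submodule.span K (ik '' (E : Set k)) := by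
      have h4 : (z : L) ∈ Subalgebra.toSubmodule (Algebra.adjoin K (ik '' (E : Set k))) := h2
      rw [Algebra.adjoin_eq_span] at h4
      have h5 : (Submonoid.closure (ik '' (E : Set k)) : Set L) = ik '' (E : Set k) := by
        have h6 : ik '' (E : Set k) =
            ((E.toSubfield.toSubmonoid.map (ik : k →* L) : Submonoid L) : Set L) := rfl
        rw [h6, Submonoid.closure_eq]
      rwa [h5] at h4
    obtain ⟨n, a, c, hz⟩ := u02_span E (z : L) h3
    refine ⟨n, a, c, ?_⟩
    apply Subtype.ext
    rw [hz]
    simp only [AddSubmonoidClass.coe_finsetSum, MulMemClass.coe_mul, u02_kEmap_coe,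
      u02_kEconst_coe]

/-- U-02a -/
theorem kE_galois [Algebra.IsSeparable F k] (h : ConstExt iF ik i) (E : IntermediateField F k)
    [FiniteDimensional F E] [IsGalois F E] :
    letI := (kEmap ik i E).toAlgebra
    FiniteDimensional K (kE ik i E) ∧ IsGalois K (kE ik i E) := by
  letI := (kEmap ik i E).toAlgebra
  obtain ⟨p, hp, hsp⟩ := IsGalois.is_separable_splitting_field F E
  have hcE := kE_constExt h E
  have e1 : (algebraMap K (kE ik i E)).comp iF = (kEconst ik i E).comp (algebraMap F E) := by
    ext x
    exact congrArg Subtype.val (hcE.comm x)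
  have hp0 : p ≠ 0 := hp.ne_zero
  have hmap : (p.map iF).map (algebraMap K (kE ik i E)) =
      (p.map (algebraMap F E)).map (kEconst ik i E) := by
    rw [Polynomial.map_map, Polynomial.map_map, e1]
  have haux : ∀ x ∈ Algebra.adjoin F (p.rootSet E),
      kEconst ik i E x ∈ Algebra.adjoin K ((p.map iF).rootSet (kE ik i E)) := by
    intro x hc
    induction hc using Algebra.adjoin_induction with
    | mem x hx =>
      apply Algebra.subset_adjoin
      rw [Polynomial.mem_rootSet'] at hx ⊢
      refine ⟨?_, ?_⟩
      · rw [hmap]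
        exact (Polynomial.map_ne_zero_iff (kEconst ik i E).injective).mpr hx.1
      · have h5 : Polynomial.eval₂ (algebraMap F E) x p = 0 := hx.2
        rw [Polynomial.aeval_def, Polynomial.eval₂_map, e1, ← Polynomial.hom_eval₂, h5, map_zero]
    | algebraMap r =>
      have e3 : kEconst ik i E (algebraMap F E r) = algebraMap K (kE ik i E) (iF r) :=
        (hcE.comm r).symm
      rw [e3]
      exact Subalgebra.algebraMap_mem _ _
    | add x y hx hy h1 h2 =>
      rw [map_add]
      exact Subalgebra.add_mem _ h1 h2
    | mul x y hx hy h1 h2 =>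
      rw [map_mul]
      exact Subalgebra.mul_mem _ h1 h2
  have hsplit : (p.map iF).IsSplittingField K (kE ik i E) := by
    constructor
    · rw [hmap]
      exact hsp.splits'.map _
    · rw [eq_top_iff]
      rintro z -
      obtain ⟨n, a, c, rfl⟩ := hcE.gen z
      apply Subalgebra.sum_mem
      intro j _
      apply Subalgebra.mul_mem
      · exact Subalgebra.algebraMap_mem _ (a j)
      · have hc : c j ∈ Algebra.adjoin F (p.rootSet E) := by
          rw [hsp.adjoin_rootSet']
          trivial
        exact haux (c j) hc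
  refine ⟨hsplit.finiteDimensional, ?_⟩
  have hsep : (p.map iF).Separable := hp.map
  exact IsGalois.of_separable_splitting_field (p := p.map iF) hsep

/-- U-02c -/
theorem mem_kE_of_large [Algebra.IsAlgebraic F k] (h : ConstExt iF ik i) (z : L) :
    ∃ E₀ : IntermediateField F k, FiniteDimensional F E₀ ∧
      ∀ E : IntermediateField F k, E₀ ≤ E → z ∈ kE ik i E := by
  obtain ⟨n, a, c, rfl⟩ := h.gen z
  refine ⟨IntermediateField.adjoin F (Set.range c), ?_, ?_⟩
  · apply IntermediateField.finiteDimensional_adjoin
    intro x _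
    exact Algebra.IsIntegral.isIntegral x
  · intro E hE
    apply sum_mem
    intro j _
    apply mul_mem
    · exact Subfield.subset_closure (Or.inl ⟨a j, rfl⟩)
    · refine Subfield.subset_closure (Or.inr ⟨c j, ?_, rfl⟩)
      exact hE (IntermediateField.subset_adjoin F _ ⟨j, rfl⟩)

end ufields

end Pool.Agent.K1
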