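import Pool.Agent.K1.UDefs
import Pool.Agent.K1.UConstVal
import Pool.Agent.K1.UFields

/-!
K1-U-06 and U-09: the degree of the residue field of a good valuation ring; the degree does not
change under isomorphisms.
-/

set_option autoImplicit false
set_option linter.all false

open AlgebraicGeometry CategoryTheory

namespace Pool.Agent.K1

private theorem u06_degR_congr {A B C : Type} [Field A] [Field B] [Field C] (φ : A →+* B)
    (ψ : A →+* C) (ε : B ≃+* C) (h : ∀ a, ε (φ a) = ψ a) : degR φ = degR ψ := by
  letI := φ.toAlgebra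
  letI := ψ.toAlgebra
  let e : B ≃ₗ[A] C :=
    { ε with
      map_smul' := fun a b => by
        simp only [RingHom.id_apply]
        change ε (φ a * b) = ψ a * ε b
        rw [map_mul, h] }
  exact e.finrank_eq

private theorem u06_degR_comp {A B C : Type} [Field A] [Field B] [Field C] (φ : A →+* B)
    (ψ : B →+* C) : degR φ * degR ψ = degR (ψ.comp φ) := by
  letI := φ.toAlgebra
  letI := ψ.toAlgebra
  letI := (ψ.comp φ).toAlgebra
  haveI : IsScalarTower A B C := IsScalarTower.of_algebraMap_eq (fun _ => rfl)
  exact Module.finrank_mul_finrank A B C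

/-- U-09 : the degree does not change under isomorphisms -/
theorem degE_congr {F k K L L' : Type} [Field F] [Field k] [Field K] [Field L] [Field L']
    [Algebra F k] (ik : k →+* L) (i : K →+* L) (e : L →+* L') (E : IntermediateField F k) :
    degE (e.comp ik) (e.comp i) E = degE ik i E := by
  have hmap : (kE ik i E).map e = kE (e.comp ik) (e.comp i) E := by
    unfold kE
    rw [RingHom.map_field_closure]
    congr 1
    rw [Set.image_union, ← Set.range_comp, ← Set.image_comp]
    rfl
  symm
  have hmem : ∀ x : kE ik i E, e x ∈ kE (e.comp ik) (e.comp i) E := fun x => by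
    rw [← hmap]
    exact Subfield.mem_map.2 ⟨x, x.2, rfl⟩
  let f : kE ik i E →+* kE (e.comp ik) (e.comp i) E :=
    (e.comp (kE ik i E).subtype).codRestrict _ hmem
  have hf : Function.Bijective f := by
    refine ⟨f.injective, fun y => ?_⟩
    have hy : (y : L') ∈ (kE ik i E).map e := by
      rw [hmap]
      exact y.2
    obtain ⟨x, hx, hxy⟩ := Subfield.mem_map.1 hy
    exact ⟨⟨x, hx⟩, Subtype.ext hxy⟩
  exact u06_degR_congr _ _ (RingEquiv.ofBijective f hf) (fun a => Subtype.ext rfl)

section
variable {F k K L : Type} [Field F] [Field k] [Field K] [Field L] [Algebra F k]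
  {iF : F →+* K} {ik : k →+* L} {i : K →+* L}

/-- U-06 : the degree of the residue field of a good valuation ring -/
theorem degE_res [Algebra.IsSeparable F k] (h : ConstExt iF ik i)
    (E : IntermediateField F k) [FiniteDimensional F E] (V' : ValuationSubring L)
    (hV : IsDiscV (V'.comap i)) (hF : ∀ c, iF c ∈ V'.comap i) (hk : ∀ c, ik c ∈ V') {κ : Type}
    [Field κ] (φ : κ →+* IsLocalRing.ResidueField (V'.comap i)) (hφ : φ.Finite)
    (hE : ∀ w, comapRes i V' w ∈ kE (constRes ik V' hk) ((comapRes i V').comp φ) E) :
    degR φ * degR (comapRes (kEmap ik i E) (V'.comap (kE ik i E).subtype)) =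
      degE (constRes ik V' hk) ((comapRes i V').comp φ) E := by
  have hab : ∀ w : IsLocalRing.ResidueField (V'.comap i),
      comapRes (kE ik i E).subtype V'
        (comapRes (kEmap ik i E) (V'.comap (kE ik i E).subtype) w) = comapRes i V' w := by
    intro w
    obtain ⟨a, rfl⟩ := IsLocalRing.residue_surjective w
    rfl
  set a : IsLocalRing.ResidueField (V'.comap i) →+*
      IsLocalRing.ResidueField (V'.comap (kE ik i E).subtype) :=
    comapRes (kEmap ik i E) (V'.comap (kE ik i E).subtype) with ha
  set b := comapRes (kE ik i E).subtype V' with hb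
  have hsep : Algebra.IsSeparable F E := Algebra.isSeparable_tower_bot_of_isSeparable F E k
  have hc := const_val (kE_constExt h E) (V'.comap (kE ik i E).subtype) hV hF
  have hrange : ∀ w, b w ∈ kE (constRes ik V' hk) ((comapRes i V').comp φ) E := by
    intro w
    obtain ⟨z, rfl⟩ := IsLocalRing.residue_surjective w
    obtain ⟨n, a', c, ha', hz⟩ := hc.2.2.2 z.1 z.2
    have hka : ∀ j, (kEconst ik i E) (c j) ∈ V'.comap (kE ik i E).subtype := fun j => hk _
    have hz' : IsLocalRing.residue (V'.comap (kE ik i E).subtype) z =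
        ∑ j, IsLocalRing.residue (V'.comap (kE ik i E).subtype) ⟨_, ha' j⟩ *
          IsLocalRing.residue (V'.comap (kE ik i E).subtype) ⟨_, hka j⟩ := by
      simp only [← map_mul, ← map_sum]
      rw [← sub_eq_zero, ← map_sub, IsLocalRing.residue_eq_zero_iff,
        ← ValuationSubring.coe_mem_nonunits_iff]
      convert hz using 1
      push_cast
      rfl
    rw [hz', map_sum]
    refine Subfield.sum_mem _ fun j _ => ?_
    rw [map_mul]
    refine Subfield.mul_mem _ ?_ ?_
    · exact hE (IsLocalRing.residue (V'.comap i) ⟨a' j, ha' j⟩)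
    · exact Subfield.subset_closure (Or.inr ⟨(c j : k), (c j).2, rfl⟩)
  have hsurj : ∀ y ∈ kE (constRes ik V' hk) ((comapRes i V').comp φ) E, ∃ w, b w = y := by
    have hle : kE (constRes ik V' hk) ((comapRes i V').comp φ) E ≤ b.fieldRange := by
      refine Subfield.closure_le.2 ?_
      rintro y (⟨x, rfl⟩ | ⟨c, hc, rfl⟩)
      · exact ⟨a (φ x), hab _⟩
      · refine ⟨IsLocalRing.residue (V'.comap (kE ik i E).subtype)
          ⟨kEconst ik i E ⟨c, hc⟩, hk c⟩, rfl⟩
    intro y hy
    exact hle hy
  let f : IsLocalRing.ResidueField (V'.comap (kE ik i E).subtype) →+*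
      kE (constRes ik V' hk) ((comapRes i V').comp φ) E := b.codRestrict _ hrange
  have hf : Function.Bijective f :=
    ⟨f.injective, fun y => by
      obtain ⟨w, hw⟩ := hsurj y.1 y.2
      exact ⟨w, Subtype.ext hw⟩⟩
  refine (u06_degR_comp φ a).trans ?_
  exact u06_degR_congr _ _ (RingEquiv.ofBijective f hf) (fun x => Subtype.ext (hab (φ x)))

end

end Pool.Agent.K1
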