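import Pool.Agent.K1.UDefs

/-!
Tame symbols and unramified extensions.
-/

set_option autoImplicit false

namespace Pool.Agent.K1

/-- U-04 : tame symbols and unramified extensions -/
theorem isTameVal_comap {K L : Type} [Field K] [Field L] (i : K →+* L)
    (V' : ValuationSubring L) (hV : IsDiscV (V'.comap i))
    (hunr : ∀ π, IsUnifV (V'.comap i) π → IsUnifV V' (i π)) (a b : Kˣ)
    (t : (IsLocalRing.ResidueField (V'.comap i))ˣ) (ht : IsTameVal (V'.comap i) a b t) :
    IsTameVal V' (Units.map i.toMonoidHom a) (Units.map i.toMonoidHom b)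
      (Units.map (comapRes i V').toMonoidHom t) := by
  obtain ⟨π, m, n, u, w, hπ, ha, hb, ht⟩ := ht
  have hπ0 : π ≠ 0 := by
    rintro rfl
    obtain ⟨ϖ, hϖ, -⟩ := hV
    obtain ⟨c, -, hc⟩ := (hπ ϖ).1 (tord_unif_nonunit hϖ)
    exact hϖ.1 (by rw [hc, zero_mul])
  have hu := hunr π ⟨hπ0, hπ⟩
  refine ⟨i π, m, n, Units.map (comapIncl i V').toMonoidHom u,
    Units.map (comapIncl i V').toMonoidHom w, hu.2, ?_, ?_, ?_⟩
  · show i (a : K) = i π ^ m * i (((u : V'.comap i)) : K)
    rw [ha, map_mul, map_zpow₀]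
  · show i (b : K) = i π ^ n * i (((w : V'.comap i)) : K)
    rw [hb, map_mul, map_zpow₀]
  · rw [ht, ← map_zpow, ← map_zpow]
    have h1 : ∀ x : (V'.comap i)ˣ, Units.map (comapRes i V').toMonoidHom
        (Units.map (IsLocalRing.residue (V'.comap i)).toMonoidHom x) =
        Units.map (IsLocalRing.residue V').toMonoidHom
          (Units.map (comapIncl i V').toMonoidHom x) := by
      intro x
      ext
      rfl
    have h2 : Units.map (comapIncl i V').toMonoidHom (-1 : (V'.comap i)ˣ) = -1 := by
      ext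
      simp
    have h3 : Units.map (comapIncl i V').toMonoidHom ((-1) ^ (m * n) * u ^ n * w ^ (-m)) =
        (-1) ^ (m * n) * Units.map (comapIncl i V').toMonoidHom (u ^ n) *
          Units.map (comapIncl i V').toMonoidHom (w ^ (-m)) := by
      rw [map_mul, map_mul, map_zpow, h2]
    rw [h1, h3]

end Pool.Agent.K1
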