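import Pool.Agent.K1.UDefs
import Pool.Agent.K1.TPlaces
import Pool.Agent.K1.BValPrime

/-!
K1-U-03 : in a Galois extension that is unramified over a discrete valuation ring, the number of
automorphisms that carry a valuation ring to another one is the degree of the residue fields.
-/

set_option autoImplicit false

open IsDedekindDomain

namespace Pool.Agent.K1

section u03

variable {K L : Type} [Field K] [Field L] [Algebra K L]

private theorem u03_nonunits {F E : Type} [Field F] [Field E] (i : F →+* E)
    (V₁ : ValuationSubring E) (x : F) :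
    x ∈ (V₁.comap i).nonunits ↔ i x ∈ V₁.nonunits := by
  rw [tord_nonunits_iff, tord_nonunits_iff, ValuationSubring.mem_comap,
    ValuationSubring.mem_comap, map_inv₀, map_eq_zero]

private theorem u03_primesOver (V₁ : ValuationSubring L)
    (W : ValuationSubring K) (hW : V₁.comap (algebraMap K L) = W)
    (P : HeightOneSpectrum (integralClosure W L)) [IsDedekindDomain (integralClosure W L)]
    [IsFractionRing (integralClosure W L) L]
    (hP : V₁ = (P.valuation L).valuationSubring) :
    P.asIdeal ∈ (IsLocalRing.maximalIdeal W).primesOver (integralClosure W L) := by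
  refine ⟨P.isPrime, ⟨?_⟩⟩
  ext a
  rw [Ideal.under_def, Ideal.mem_comap, ← tpl_alg_nonunit (F := L) P, ← hP]
  have h1 : algebraMap (integralClosure W L) L (algebraMap W (integralClosure W L) a) =
      algebraMap K L (a : K) := rfl
  rw [h1, ← u03_nonunits, hW]
  exact ValuationSubring.coe_mem_nonunits_iff.symm

private theorem u03_val (W : ValuationSubring K) (hW : IsDiscV W)
    [IsDedekindDomain (integralClosure W L)] [IsFractionRing (integralClosure W L) L]
    (P : HeightOneSpectrum (integralClosure W L))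
    (hP : P.asIdeal ∈ (IsLocalRing.maximalIdeal W).primesOver (integralClosure W L)) :
    (P.valuation L).valuationSubring.comap (algebraMap K L) = W := by
  obtain ⟨π, hπ, hh⟩ := hW
  have hlie := hP.2.over
  have h2 : ∀ a : W, algebraMap K L (a : K) ∈ (P.valuation L).valuationSubring := fun a =>
    tpl_alg_mem P (algebraMap W (integralClosure W L) a)
  have h3 : ∀ a : W, (a : K) ∈ W.nonunits →
      algebraMap K L (a : K) ∈ (P.valuation L).valuationSubring.nonunits := by
    intro a ha
    have h4 : algebraMap W (integralClosure W L) a ∈ P.asIdeal := by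
      rw [← Ideal.mem_comap, ← Ideal.under_def, ← hlie]
      exact ValuationSubring.coe_mem_nonunits_iff.1 ha
    exact (tpl_alg_nonunit (F := L) P _).2 h4
  refine (discV_maximal ⟨π, hπ, hh⟩ (fun t ht => h2 ⟨t, ht⟩)).resolve_right ?_
  intro htop
  have h5 := h3 ⟨π, (tord_unif_mem hπ).1⟩ (tord_unif_nonunit hπ)
  rw [tord_nonunits_iff] at h5
  rcases h5 with h5 | h5
  · exact hπ.1 ((map_eq_zero _).1 h5)
  · apply h5.2
    rw [← map_inv₀]
    change π⁻¹ ∈ (P.valuation L).valuationSubring.comap (algebraMap K L)
    rw [htop]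
    trivial

private theorem u03_inertia (V₁ : ValuationSubring L)
    [IsDedekindDomain (integralClosure (V₁.comap (algebraMap K L)) L)]
    [IsFractionRing (integralClosure (V₁.comap (algebraMap K L)) L) L]
    (P : HeightOneSpectrum (integralClosure (V₁.comap (algebraMap K L)) L))
    (hP : V₁ = (P.valuation L).valuationSubring) :
    P.asIdeal.inertiaDeg (V₁.comap (algebraMap K L)) =
      degR (comapRes (algebraMap K L) V₁) := by
  have hlie : P.asIdeal.LiesOver (IsLocalRing.maximalIdeal (V₁.comap (algebraMap K L))) :=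
    (u03_primesOver V₁ _ rfl P hP).2
  have hmax : P.asIdeal.IsMaximal := P.isMaximal
  have hD : ∀ d : integralClosure (V₁.comap (algebraMap K L)) L, algebraMap _ L d ∈ V₁ := by
    intro d
    have h1 := tpl_alg_mem (F := L) P d
    exact (SetLike.ext_iff.1 hP _).2 h1
  let ρ : integralClosure (V₁.comap (algebraMap K L)) L →+* V₁ :=
    (algebraMap _ L).codRestrict V₁.toSubring hD
  have hρ : ∀ d, IsLocalRing.residue V₁ (ρ d) = 0 ↔ d ∈ P.asIdeal := by
    intro d
    rw [IsLocalRing.residue_eq_zero_iff, ← ValuationSubring.coe_mem_nonunits_iff,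
      ← tpl_alg_nonunit (F := L) P, ← hP]
    rfl
  let e : (integralClosure (V₁.comap (algebraMap K L)) L ⧸ P.asIdeal) →+*
      IsLocalRing.ResidueField V₁ :=
    Ideal.Quotient.lift P.asIdeal ((IsLocalRing.residue V₁).comp ρ) fun d hd => (hρ d).2 hd
  have he : ∀ d, e (Ideal.Quotient.mk _ d) = IsLocalRing.residue V₁ (ρ d) := fun d => rfl
  have hinj : Function.Injective e := by
    rw [injective_iff_map_eq_zero]
    intro x hx
    obtain ⟨d, rfl⟩ := Ideal.Quotient.mk_surjective x
    rw [Ideal.Quotient.eq_zero_iff_mem, ← hρ]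
    exact hx
  have hsurj : Function.Surjective e := by
    intro y
    obtain ⟨v, rfl⟩ := IsLocalRing.residue_surjective y
    have hv : (v : L) ∈ (P.valuation L).valuationSubring := by
      rw [← hP]
      exact v.2
    obtain ⟨n, d, hnd⟩ := P.exists_primeCompl_mul_eq_of_integer (K := L) (v : L) hv
    let _ : Field (integralClosure (V₁.comap (algebraMap K L)) L ⧸ P.asIdeal) :=
      Ideal.Quotient.field _
    have h1 : v * ρ d = ρ n := Subtype.ext hnd
    have h2 : IsLocalRing.residue V₁ (ρ d) ≠ 0 := fun h => d.2 ((hρ d).1 h)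
    have h3 : Ideal.Quotient.mk P.asIdeal (d : integralClosure _ L) ≠ 0 := fun h => by
      apply h2
      rw [← he, h, map_zero]
    refine ⟨Ideal.Quotient.mk _ n / Ideal.Quotient.mk _ (d : integralClosure _ L), ?_⟩
    rw [map_div₀, he, he, div_eq_iff h2, ← h1, map_mul]
  rw [Ideal.inertiaDeg_eq_of_isMaximal
    (IsLocalRing.maximalIdeal (V₁.comap (algebraMap K L))) P.asIdeal]
  unfold degR
  let _ := (comapRes (algebraMap K L) V₁).toAlgebra
  refine Algebra.finrank_eq_of_equiv_equiv (RingEquiv.refl _)
    (RingEquiv.ofBijective e ⟨hinj, hsurj⟩) ?_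
  ext a
  rfl

private theorem u03_ram (V₁ : ValuationSubring L)
    (hV : IsDiscV (V₁.comap (algebraMap K L)))
    (hunr : ∀ π, IsUnifV (V₁.comap (algebraMap K L)) π → IsUnifV V₁ (algebraMap K L π))
    [IsDedekindDomain (integralClosure (V₁.comap (algebraMap K L)) L)]
    [IsFractionRing (integralClosure (V₁.comap (algebraMap K L)) L) L]
    (P : HeightOneSpectrum (integralClosure (V₁.comap (algebraMap K L)) L))
    (hP : V₁ = (P.valuation L).valuationSubring) :
    P.asIdeal.ramificationIdx (V₁.comap (algebraMap K L)) = 1 := by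
  have hlie : P.asIdeal.LiesOver (IsLocalRing.maximalIdeal (V₁.comap (algebraMap K L))) :=
    (u03_primesOver V₁ _ rfl P hP).2
  obtain ⟨π, hπ, -⟩ := hV
  have hπm := tord_unif_mem hπ
  have hπn := tord_unif_nonunit hπ
  have hπ1 : (⟨π, hπm.1⟩ : V₁.comap (algebraMap K L)) ∈
      IsLocalRing.maximalIdeal (V₁.comap (algebraMap K L)) :=
    ValuationSubring.coe_mem_nonunits_iff.1 hπn
  have hne : IsLocalRing.maximalIdeal (V₁.comap (algebraMap K L)) ≠ ⊥ := by
    intro h
    rw [h] at hπ1
    exact hπ.1 (congrArg Subtype.val hπ1)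
  rw [← Ideal.ramificationIdx'_eq_ramificationIdx
    (IsLocalRing.maximalIdeal (V₁.comap (algebraMap K L))) P.asIdeal hne]
  apply Ideal.ramificationIdx'_spec
  · rw [pow_one, Ideal.map_le_iff_le_comap]
    exact hlie.over.le
  · intro h
    have h1 := h (Ideal.mem_map_of_mem _ hπ1)
    rw [← P.intValuation_le_pow_iff_mem, ← P.valuation_of_algebraMap (K := L)] at h1
    have h2 := hunr π hπ
    rw [hP, tpl_unif] at h2
    have h3 : P.valuation L (algebraMap K L π) ≤ WithZero.exp (-((1 + 1 : ℕ) : ℤ)) := h1
    rw [h2, WithZero.exp_le_exp] at h3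
    norm_num at h3

private theorem u03_smul [FiniteDimensional K L] (W : ValuationSubring K) (σ : L ≃ₐ[K] L)
    [IsDedekindDomain (integralClosure W L)] [IsFractionRing (integralClosure W L) L]
    (P Q : HeightOneSpectrum (integralClosure W L))
    (h : P.asIdeal.comap (galRestrict W K L (integralClosure W L) σ) = Q.asIdeal) :
    (P.valuation L).valuationSubring.comap (σ : L →+* L) = (Q.valuation L).valuationSubring := by
  have hσ : ∀ d : integralClosure W L, (σ : L →+* L) (algebraMap _ L d) =
      algebraMap _ L (galRestrict W K L (integralClosure W L) σ d) := fun d =>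
    (algebraMap_galRestrict_apply W σ d).symm
  have hD : ∀ d : integralClosure W L, algebraMap _ L d ∈
      (P.valuation L).valuationSubring.comap (σ : L →+* L) := by
    intro d
    rw [ValuationSubring.mem_comap, hσ]
    exact tpl_alg_mem P _
  have hne : (P.valuation L).valuationSubring.comap (σ : L →+* L) ≠ ⊤ := by
    intro htop
    apply tpl_ne_top (F := L) P
    rw [eq_top_iff]
    intro x _
    have h1 : σ.symm x ∈ (P.valuation L).valuationSubring.comap (σ : L →+* L) := by
      rw [htop]
      trivial
    rw [ValuationSubring.mem_comap] at h1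
    simpa using h1
  obtain ⟨Q', hQ'⟩ := tpl_exists _ hne hD
  rw [hQ']
  congr 2
  apply HeightOneSpectrum.ext
  rw [← h]
  ext d
  rw [← tpl_alg_nonunit (F := L) Q', ← hQ', Ideal.mem_comap, ← tpl_alg_nonunit (F := L) P,
    u03_nonunits, hσ]

private theorem u03_key [FiniteDimensional K L] [IsGalois K L] (V₁ : ValuationSubring L)
    (hV : IsDiscV (V₁.comap (algebraMap K L)))
    (hunr : ∀ π, IsUnifV (V₁.comap (algebraMap K L)) π → IsUnifV V₁ (algebraMap K L π)) :
    {V' : ValuationSubring L |
      V'.comap (algebraMap K L) = V₁.comap (algebraMap K L)}.Finite ∧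
    (∀ V' : ValuationSubring L, V'.comap (algebraMap K L) = V₁.comap (algebraMap K L) →
      ∃ σ : L ≃ₐ[K] L, V₁.comap (σ : L →+* L) = V') ∧
    {V' : ValuationSubring L |
      V'.comap (algebraMap K L) = V₁.comap (algebraMap K L)}.ncard *
      degR (comapRes (algebraMap K L) V₁) = Nat.card (L ≃ₐ[K] L) := by
  have hdvr : IsDiscreteValuationRing (V₁.comap (algebraMap K L)) := isDiscV_iff.1 hV
  have hded : IsDedekindDomain (integralClosure (V₁.comap (algebraMap K L)) L) :=
    integralClosure.isDedekindDomain _ K L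
  have hfr : IsFractionRing (integralClosure (V₁.comap (algebraMap K L)) L) L :=
    integralClosure.isFractionRing_of_finite_extension K L
  have hfin : Module.Finite (V₁.comap (algebraMap K L))
      (integralClosure (V₁.comap (algebraMap K L)) L) := IsIntegralClosure.finite _ K L _
  let _ : MulSemiringAction (L ≃ₐ[K] L) (integralClosure (V₁.comap (algebraMap K L)) L) :=
    IsIntegralClosure.MulSemiringAction (V₁.comap (algebraMap K L)) K L _
  have hgal : IsGaloisGroup (L ≃ₐ[K] L) (V₁.comap (algebraMap K L))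
      (integralClosure (V₁.comap (algebraMap K L)) L) := IsGaloisGroup.of_isFractionRing _ _ _ K L
  have hne : IsLocalRing.maximalIdeal (V₁.comap (algebraMap K L)) ≠ ⊥ :=
    IsDiscreteValuationRing.not_a_field _
  have hfaith : FaithfulSMul (V₁.comap (algebraMap K L))
      (integralClosure (V₁.comap (algebraMap K L)) L) := by
    rw [faithfulSMul_iff_algebraMap_injective]
    intro a b hab
    have h1 : algebraMap K L (a : K) = algebraMap K L (b : K) := congrArg Subtype.val hab
    exact Subtype.ext ((algebraMap K L).injective h1)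
  -- the valuation rings are the primes
  have hcl : ∀ V' : ValuationSubring L, V'.comap (algebraMap K L) = V₁.comap (algebraMap K L) →
      ∃ P : HeightOneSpectrum (integralClosure (V₁.comap (algebraMap K L)) L),
        V' = (P.valuation L).valuationSubring := by
    intro V' hV'
    refine tpl_exists V' ?_ ?_
    · rintro rfl
      apply discV_ne_top hV
      rw [← hV', eq_top_iff]
      intro x _
      trivial
    · intro d
      refine bval_mem_of_integral (R := V₁.comap (algebraMap K L)) V' ?_ _ d.2
      intro r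
      have h1 : (r : K) ∈ V'.comap (algebraMap K L) := by
        rw [hV']
        exact r.2
      exact h1
  have hinj1 : Function.Injective fun P : HeightOneSpectrum
      (integralClosure (V₁.comap (algebraMap K L)) L) => (P.valuation L).valuationSubring := by
    intro P Q hPQ
    apply HeightOneSpectrum.ext
    ext d
    rw [← tpl_alg_nonunit (F := L) P, ← tpl_alg_nonunit (F := L) Q]
    simp only at hPQ
    rw [hPQ]
  have hinj2 : Function.Injective fun P : HeightOneSpectrum
      (integralClosure (V₁.comap (algebraMap K L)) L) => P.asIdeal :=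
    fun P Q hPQ => HeightOneSpectrum.ext hPQ
  have hS : {V' : ValuationSubring L |
      V'.comap (algebraMap K L) = V₁.comap (algebraMap K L)} =
      (fun P : HeightOneSpectrum (integralClosure (V₁.comap (algebraMap K L)) L) =>
        (P.valuation L).valuationSubring) '' {P | P.asIdeal ∈
          (IsLocalRing.maximalIdeal (V₁.comap (algebraMap K L))).primesOver _} := by
    ext V'
    constructor
    · intro hV'
      obtain ⟨P, hP⟩ := hcl V' hV'
      exact ⟨P, u03_primesOver V' _ hV' P hP, hP.symm⟩
    · rintro ⟨P, hP, rfl⟩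
      exact u03_val _ hV P hP
  have hT : (IsLocalRing.maximalIdeal (V₁.comap (algebraMap K L))).primesOver
      (integralClosure (V₁.comap (algebraMap K L)) L) =
      (fun P : HeightOneSpectrum (integralClosure (V₁.comap (algebraMap K L)) L) =>
        P.asIdeal) '' {P | P.asIdeal ∈
          (IsLocalRing.maximalIdeal (V₁.comap (algebraMap K L))).primesOver _} := by
    ext Q
    constructor
    · intro hQ
      exact ⟨⟨Q, hQ.1, Ideal.ne_bot_of_mem_primesOver hne hQ⟩, hQ, rfl⟩
    · rintro ⟨P, hP, rfl⟩
      exact hP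
  have hTfin : ((IsLocalRing.maximalIdeal (V₁.comap (algebraMap K L))).primesOver
      (integralClosure (V₁.comap (algebraMap K L)) L)).Finite :=
    Algebra.QuasiFinite.finite_primesOver _
  refine ⟨?_, ?_, ?_⟩
  · rw [hS]
    refine Set.Finite.image _ ?_
    rw [hT] at hTfin
    exact hTfin.of_finite_image hinj2.injOn
  · intro V' hV'
    obtain ⟨P, hP⟩ := hcl V₁ rfl
    obtain ⟨Q, hQ⟩ := hcl V' hV'
    obtain ⟨σ, hσ⟩ := Ideal.exists_comap_galRestrict_eq (V₁.comap (algebraMap K L)) K L _
      (u03_primesOver V₁ _ rfl P hP) (u03_primesOver V' _ hV' Q hQ)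
    refine ⟨σ, ?_⟩
    have h1 := u03_smul _ σ P Q hσ
    rw [← hP, ← hQ] at h1
    exact h1
  · obtain ⟨P, hP⟩ := hcl V₁ rfl
    have hlie : P.asIdeal.LiesOver (IsLocalRing.maximalIdeal (V₁.comap (algebraMap K L))) :=
      (u03_primesOver V₁ _ rfl P hP).2
    have h1 := Ideal.ncard_primesOver_mul_ramificationIdxIn_mul_inertiaDegIn
      (IsLocalRing.maximalIdeal (V₁.comap (algebraMap K L)))
      (integralClosure (V₁.comap (algebraMap K L)) L) (L ≃ₐ[K] L)
    rw [Ideal.ramificationIdxIn_eq_ramificationIdx _ P.asIdeal (L ≃ₐ[K] L),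
      Ideal.inertiaDegIn_eq_inertiaDeg _ P.asIdeal (L ≃ₐ[K] L), u03_ram V₁ hV hunr P hP,
      u03_inertia V₁ P hP, one_mul, hT, Set.ncard_image_of_injective _ hinj2] at h1
    rw [hS, Set.ncard_image_of_injective _ hinj1]
    exact h1

private theorem u03_comap_mul (W : ValuationSubring L) (σ τ : L ≃ₐ[K] L) :
    W.comap ((σ * τ : L ≃ₐ[K] L) : L →+* L) =
      (W.comap (σ : L →+* L)).comap (τ : L →+* L) := rfl

end u03

/-- Counting the valuation rings over a discrete valuation ring. -/
theorem val_count {K L : Type} [Field K] [Field L] [Algebra K L] [FiniteDimensional K L]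
    [IsGalois K L] (V₁ : ValuationSubring L) (hV : IsDiscV (V₁.comap (algebraMap K L)))
    (hunr : ∀ V' : ValuationSubring L,
      V'.comap (algebraMap K L) = V₁.comap (algebraMap K L) →
      ∀ π, IsUnifV (V'.comap (algebraMap K L)) π → IsUnifV V' (algebraMap K L π))
    (ψ : ValuationSubring L → ℚ) :
    {V' : ValuationSubring L |
      V'.comap (algebraMap K L) = V₁.comap (algebraMap K L)}.Finite ∧
    ∑ σ : L ≃ₐ[K] L, ψ (V₁.comap (σ : L →+* L)) =
      ∑ᶠ V' ∈ {V' : ValuationSubring L |
        V'.comap (algebraMap K L) = V₁.comap (algebraMap K L)},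
        (degR (comapRes (algebraMap K L) V') : ℚ) * ψ V' := by
  classical
  obtain ⟨hfin, htr, -⟩ := u03_key V₁ hV (hunr V₁ rfl)
  refine ⟨hfin, ?_⟩
  have hdeg : ∀ V' : ValuationSubring L,
      V'.comap (algebraMap K L) = V₁.comap (algebraMap K L) →
      hfin.toFinset.card * degR (comapRes (algebraMap K L) V') = Nat.card (L ≃ₐ[K] L) := by
    intro V' hV'
    have h1 := (u03_key V' (by rw [hV']; exact hV) (hunr V' hV')).2.2
    have h2 : {W : ValuationSubring L |
        W.comap (algebraMap K L) = V₁.comap (algebraMap K L)} = {W : ValuationSubring L |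
        W.comap (algebraMap K L) = V'.comap (algebraMap K L)} := by rw [hV']
    rw [← h1, ← Set.ncard_eq_toFinset_card _ hfin, h2]
  have hmem : ∀ σ : L ≃ₐ[K] L, V₁.comap (σ : L →+* L) ∈ hfin.toFinset := by
    intro σ
    rw [Set.Finite.mem_toFinset]
    ext x
    change σ (algebraMap K L x) ∈ V₁ ↔ algebraMap K L x ∈ V₁
    rw [σ.commutes]
  have hcos : ∀ V' : ValuationSubring L,
      V'.comap (algebraMap K L) = V₁.comap (algebraMap K L) →
      (Finset.univ.filter fun σ : L ≃ₐ[K] L => V₁.comap (σ : L →+* L) = V').card =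
      (Finset.univ.filter fun σ : L ≃ₐ[K] L => V₁.comap (σ : L →+* L) = V₁).card := by
    intro V' hV'
    obtain ⟨τ, hτ⟩ := htr V' hV'
    refine Finset.card_nbij' (fun σ => σ * τ⁻¹) (fun σ => σ * τ) ?_ ?_ ?_ ?_
    · intro σ hσ
      simp only [Finset.coe_filter, Finset.mem_univ, true_and, Set.mem_ofPred_eq] at hσ ⊢
      rw [u03_comap_mul, hσ, ← hτ, ← u03_comap_mul, mul_inv_cancel]
      rfl
    · intro σ hσ
      simp only [Finset.coe_filter, Finset.mem_univ, true_and, Set.mem_ofPred_eq] at hσ ⊢
      rw [u03_comap_mul, hσ, hτ]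
    · intro σ _
      exact inv_mul_cancel_right σ τ
    · intro σ _
      exact mul_inv_cancel_right σ τ
  have hcount : hfin.toFinset.card *
      (Finset.univ.filter fun σ : L ≃ₐ[K] L => V₁.comap (σ : L →+* L) = V₁).card =
      Nat.card (L ≃ₐ[K] L) := by
    have h3 := Finset.card_eq_sum_card_fiberwise (s := Finset.univ)
      (f := fun σ : L ≃ₐ[K] L => V₁.comap (σ : L →+* L)) (t := hfin.toFinset)
      (fun σ _ => hmem σ)
    rw [Nat.card_eq_fintype_card, ← Finset.card_univ, h3, ← smul_eq_mul, ← Finset.sum_const]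
    exact Finset.sum_congr rfl fun V' hV' => (hcos V' (hfin.mem_toFinset.1 hV')).symm
  have hpos : 0 < hfin.toFinset.card := Finset.card_pos.2 ⟨_, hmem 1⟩
  rw [finsum_mem_eq_finite_toFinset_sum _ hfin,
    ← Finset.sum_fiberwise_of_maps_to (s := Finset.univ) (t := hfin.toFinset)
      (g := fun σ : L ≃ₐ[K] L => V₁.comap (σ : L →+* L)) (fun σ _ => hmem σ)]
  refine Finset.sum_congr rfl fun V' hV' => ?_
  rw [Set.Finite.mem_toFinset] at hV'
  have h1 : (Finset.univ.filter fun σ : L ≃ₐ[K] L => V₁.comap (σ : L →+* L) = V').card =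
      degR (comapRes (algebraMap K L) V') := by
    apply Nat.eq_of_mul_eq_mul_left hpos
    rw [hdeg V' hV', hcos V' hV', hcount]
  rw [← h1, ← nsmul_eq_mul, ← Finset.sum_const]
  refine Finset.sum_congr rfl fun σ hσ => ?_
  rw [(Finset.mem_filter.1 hσ).2]

end Pool.Agent.K1
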