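import Pool.Agent.K1.UDefs
import Pool.Agent.K1.DDescent
import Pool.Agent.K1.UValCount

/-!
K1-U-05 : the norm of the symbols of a finite Galois extension is a formal sum of symbols of the
small field; its tame symbols at a discrete valuation ring over which the extension is unramified.
-/

set_option autoImplicit false

namespace Pool.Agent.K1

/-- The tame symbol at the restriction of a place. -/
theorem u05_tame {L M : Type} [Field L] [Field M] (i : L →+* M) (Vt : ValuationSubring M)
    (v : Additive Mˣ →+ ℚ) (hv : ∀ a : Mˣ, (a : M) ∈ Vt ↔ 0 ≤ v (Additive.ofMul a))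
    (μ : Additive (IsLocalRing.ResidueField Vt)ˣ →+ ℚ) (φ : Additive Mˣ →+ Additive Mˣ →+ ℚ)
    (hφ : SymbOf Vt v μ φ) (ϖ : Lˣ) (hϖ : IsUnifV (Vt.comap i) (ϖ : L))
    (hvϖ : v (Additive.ofMul (Units.map i.toMonoidHom ϖ)) = 1) (f g : Lˣ)
    (t : (IsLocalRing.ResidueField (Vt.comap i))ˣ) (h : IsTameVal (Vt.comap i) f g t) :
    φ (Additive.ofMul (Units.map i.toMonoidHom f)) (Additive.ofMul (Units.map i.toMonoidHom g)) =
      μ (Additive.ofMul (Units.map (comapRes i Vt).toMonoidHom t)) := by
  obtain ⟨π, a, b, u, w, hπ, hf, hg, rfl⟩ := h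
  have hπ0 : π ≠ 0 := by
    rintro rfl
    obtain ⟨c, hc, hc'⟩ := (hπ (ϖ : L)).1 (tord_unif_nonunit hϖ)
    rw [zero_mul] at hc'
    exact ϖ.ne_zero hc'
  have hπU : IsUnifV (Vt.comap i) π := ⟨hπ0, hπ⟩
  -- units of `Vt` have value zero
  have hunit : ∀ a : Mˣ, (a : M) ∈ Vt → ((a⁻¹ : Mˣ) : M) ∈ Vt → v (Additive.ofMul a) = 0 := by
    intro a h1 h2
    have e1 := (hv a).1 h1
    have e2 := (hv a⁻¹).1 h2
    rw [ofMul_inv, map_neg] at e2
    linarith
  -- the value of `π`
  set πu : Lˣ := Units.mk0 π hπ0 with hπu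
  have hvπ : v (Additive.ofMul (Units.map i.toMonoidHom πu)) = 1 := by
    obtain ⟨c, hc, hc'⟩ := (hϖ.2 π).1 (tord_unif_nonunit hπU)
    obtain ⟨d, hd, hd'⟩ := (hπU.2 (ϖ : L)).1 (tord_unif_nonunit hϖ)
    have hcd : c * d = 1 := by
      have h1 : (ϖ : L) * (c * d) = ϖ * 1 := by
        rw [← mul_assoc, ← hc', ← hd', mul_one]
      exact mul_left_cancel₀ hϖ.1 h1
    set e : Lˣ := ⟨c, d, hcd, by rw [mul_comm]; exact hcd⟩ with he
    have h1 : πu = ϖ * e := Units.ext hc'
    rw [h1, map_mul, ofMul_mul, map_add, hvϖ, hunit (Units.map i.toMonoidHom e) hc hd, add_zero]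
  -- the values of `f` and `g`
  have hval : ∀ (x : Lˣ) (n : ℤ) (z : (Vt.comap i)ˣ), (x : L) = π ^ n * ((z : Vt.comap i) : L) →
      v (Additive.ofMul (Units.map i.toMonoidHom x)) = n := by
    intro x n z hx
    set zu : Lˣ := Units.map (Vt.comap i).subtype.toMonoidHom z with hzu
    have h1 : x = πu ^ n * zu := by
      apply Units.ext
      rw [Units.val_mul, Units.val_zpow_eq_zpow_val]
      exact hx
    have h2 : v (Additive.ofMul (Units.map i.toMonoidHom zu)) = 0 := by
      apply hunit
      · exact ((z : Vt.comap i)).2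
      · rw [← map_inv, hzu, ← map_inv]
        exact (((z⁻¹ : (Vt.comap i)ˣ) : Vt.comap i)).2
    rw [h1, map_mul, map_zpow, ofMul_mul, ofMul_zpow, map_add, map_zsmul, hvπ, h2, add_zero,
      zsmul_eq_mul, mul_one]
  set X : (Vt.comap i)ˣ := (-1) ^ (a * b) * u ^ b * w ^ (-a) with hX
  have h3 := hφ (Units.map i.toMonoidHom f) (Units.map i.toMonoidHom g) a b
    (Units.map (comapIncl i Vt).toMonoidHom X) (hval f a u hf) (hval g b w hg) ?_
  · rw [h3]
    rfl
  · have hX' : ((((Units.map (comapIncl i Vt).toMonoidHom X : Vtˣ) : Vt)) : M) =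
        (-1) ^ (a * b) * (i (u : Vt.comap i)) ^ b * (i (w : Vt.comap i)) ^ (-a) := by
      have h4 : ((((Units.map (comapIncl i Vt).toMonoidHom X : Vtˣ) : Vt)) : M) =
          ((Units.map (i.comp (Vt.comap i).subtype).toMonoidHom X : Mˣ) : M) := rfl
      rw [h4, hX, map_mul, map_mul, map_zpow, map_zpow, map_zpow]
      simp only [Units.val_mul, Units.val_zpow_eq_zpow_val]
      congr 1
      congr 1
      congr 1
      change (i ((-1 : (Vt.comap i)ˣ) : Vt.comap i) : M) = -1
      simp
    rw [hX']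
    have hw0 : i (w : Vt.comap i) ≠ 0 := by
      intro h0
      have h5 : ((w : Vt.comap i) : L) = 0 := (map_eq_zero i).1 h0
      exact w.ne_zero (Subtype.ext h5)
    change (i (f : L)) ^ b = (-1) ^ (a * b) * (i (g : L)) ^ a * _
    rw [hf, hg, map_mul, map_mul, map_zpow₀, map_zpow₀, mul_zpow, mul_zpow, ← zpow_mul, ← zpow_mul,
      mul_comm b a, zpow_neg]
    have h6 : ((-1 : M)) ^ (a * b) * (-1) ^ (a * b) = 1 := by
      rw [← mul_zpow]
      simp
    have h7 : (i (w : Vt.comap i)) ^ a * ((i (w : Vt.comap i)) ^ a)⁻¹ = 1 :=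
      mul_inv_cancel₀ (zpow_ne_zero _ hw0)
    calc i π ^ (a * b) * i (u : Vt.comap i) ^ b
        = (((-1 : M)) ^ (a * b) * (-1) ^ (a * b)) *
          ((i (w : Vt.comap i)) ^ a * ((i (w : Vt.comap i)) ^ a)⁻¹) *
            (i π ^ (a * b) * i (u : Vt.comap i) ^ b) := by rw [h6, h7, one_mul, one_mul]
      _ = _ := by ring

/-- Extension of a valuation ring to an overfield. -/
theorem u05_exists {K M : Type} [Field K] [Field M] (i : K →+* M) (V : ValuationSubring K) :
    ∃ Vt : ValuationSubring M, Vt.comap i = V := by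
  set j : V →+* M := i.comp V.subtype with hj
  obtain ⟨Vt, hV1, hV2⟩ := LocalSubring.exists_le_valuationSubring (LocalSubring.range j)
  refine ⟨Vt, le_antisymm ?_ ?_⟩
  · intro z hz
    change i z ∈ Vt at hz
    by_contra hzV
    have hz0 : z ≠ 0 := by
      rintro rfl
      exact hzV V.zero_mem
    have hinv : z⁻¹ ∈ V := (V.mem_or_inv_mem z).resolve_left hzV
    have hmem : j ⟨z⁻¹, hinv⟩ ∈ Vt := hV1 ⟨_, rfl⟩
    have h0 : j ⟨z⁻¹, hinv⟩ = (i z)⁻¹ := map_inv₀ i z
    have h1 : IsUnit (⟨j ⟨z⁻¹, hinv⟩, hmem⟩ : Vt) := by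
      refine IsUnit.of_mul_eq_one ⟨i z, hz⟩ ?_
      apply Subtype.ext
      change j ⟨z⁻¹, hinv⟩ * i z = 1
      rw [h0]
      exact inv_mul_cancel₀ ((map_ne_zero i).2 hz0)
    have h2 : IsUnit (⟨j ⟨z⁻¹, hinv⟩, ⟨_, rfl⟩⟩ : (LocalSubring.range j).toSubring) :=
      hV2.map_nonunit _ h1
    obtain ⟨⟨b, s', rfl⟩, hb⟩ := isUnit_iff_exists_inv.1 h2
    have h3 := congrArg Subtype.val hb
    have h4 : j ⟨z⁻¹, hinv⟩ * j s' = 1 := h3
    rw [h0] at h4
    have h5 : i (s' : K) = i z := by
      have h6 : j s' = i z := (eq_inv_of_mul_eq_one_right h4).trans (inv_inv _)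
      exact h6
    have h7 : (s' : K) = z := i.injective h5
    exact hzV (h7 ▸ s'.2)
  · intro z hz
    exact hV1 ⟨⟨z, hz⟩, rfl⟩

/-- The sum over a concatenation of lists. -/
theorem u05_flatMap {ι A : Type} (l : ι → List A) (F : A → ℚ) (s : List ι) :
    ((s.flatMap l).map F).sum = (s.map fun j => ((l j).map F).sum).sum := by
  induction s with
  | nil => rfl
  | cons a s ih =>
    rw [List.flatMap_cons, List.map_append, List.sum_append, ih, List.map_cons, List.sum_cons]

/-- U-05 : the norm of a symbol, locally -/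
theorem tate_local {K L : Type} [Field K] [Field L] [Algebra K L] [FiniteDimensional K L]
    [IsGalois K L] {r : ℕ} (f g : Fin r → Lˣ) :
    ∃ l : List (ℤ × Kˣ × Kˣ), ∀ (V : ValuationSubring K) (_ : IsDiscV V)
      (_ : ∀ V' : ValuationSubring L, V'.comap (algebraMap K L) = V →
        ∀ π, IsUnifV (V'.comap (algebraMap K L)) π → IsUnifV V' (algebraMap K L π))
      (u : Vˣ) (N : ℕ) (good : Set (ValuationSubring L))
      (_ : ∀ V' : ValuationSubring L, V'.comap (algebraMap K L) = V →
        ∃ t : Fin r → (IsLocalRing.ResidueField V')ˣ, (∀ j, IsTameVal V' (f j) (g j) (t j)) ∧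
          (V' ∈ good → ∀ u' : V', (u' : L) = algebraMap K L ((u : V) : K) →
            ((∏ j, t j : (IsLocalRing.ResidueField V')ˣ) : IsLocalRing.ResidueField V') =
              IsLocalRing.residue V' u' ^ N) ∧
          (V' ∉ good → ∏ j, t j = 1))
      (T : Kˣ → Kˣ → (IsLocalRing.ResidueField V)ˣ) (_ : ∀ a b, IsTameVal V a b (T a b))
      (μ : Additive (IsLocalRing.ResidueField V)ˣ →+ ℚ),
      (l.map fun e => (e.1 : ℚ) * μ (Additive.ofMul (T e.2.1 e.2.2))).sum =
        N * (∑ᶠ V' ∈ {V' : ValuationSubring L | V'.comap (algebraMap K L) = V ∧ V' ∈ good},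
          (degR (comapRes (algebraMap K L) V') : ℚ)) *
          μ (Additive.ofMul (Units.map (IsLocalRing.residue V).toMonoidHom u)) := by
  classical
  choose l hl using fun j => tate_norm.{0, 0} (K := K) (E := L) (f j : L) (g j : L)
    (f j).ne_zero (g j).ne_zero
  refine ⟨(List.finRange r).flatMap l, ?_⟩
  intro V hV hunr u N good hgood T hT μ
  obtain ⟨Vt, hVt⟩ := u05_exists (algebraMap K (AlgebraicClosure L)) V
  subst hVt
  have hcomap : ∀ σ : L ≃ₐ[K] L, (Vt.comap ((algebraMap L (AlgebraicClosure L)).comp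
      (σ : L →+* L))).comap (algebraMap K L) = Vt.comap (algebraMap K (AlgebraicClosure L)) := by
    intro σ
    ext z
    change algebraMap L (AlgebraicClosure L) (σ (algebraMap K L z)) ∈ Vt ↔
      algebraMap K (AlgebraicClosure L) z ∈ Vt
    rw [AlgEquiv.commutes, ← IsScalarTower.algebraMap_apply K L (AlgebraicClosure L)]
  -- the valuation of the place
  have halg : Algebra.IsAlgebraic K (AlgebraicClosure L) :=
    Algebra.IsAlgebraic.trans K L (AlgebraicClosure L)
  obtain ⟨v, hv, hvK⟩ := dplc_extend (K := K) (L := AlgebraicClosure L) Vt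
    (fun x : Kˣ => ((ordV (Vt.comap (algebraMap K (AlgebraicClosure L))) (x : K) : ℤ) : ℚ)) (by
      intro x y
      rw [Units.val_mul, ordV_mul hV x.ne_zero y.ne_zero]
      push_cast
      rfl) (by
      intro x
      rw [Int.cast_nonneg_iff, ← mem_iff_ordV hV x.ne_zero]
      rfl)
  obtain ⟨π, hπ, hd⟩ := hV
  have hV : IsDiscV (Vt.comap (algebraMap K (AlgebraicClosure L))) := ⟨π, hπ, hd⟩
  have hπ1 : v (Additive.ofMul (Units.map (algebraMap K (AlgebraicClosure L)).toMonoidHom
      (Units.mk0 π hπ.1))) = 1 := by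
    rw [hvK, Units.val_mk0, (isUnifV_iff hV hπ.1).1 hπ, Int.cast_one]
  -- the extension of `μ`
  obtain ⟨μ', hμ'⟩ := exists_hom_ext (MonoidHom.toAdditive (Units.map
    (comapRes (algebraMap K (AlgebraicClosure L)) Vt).toMonoidHom)) μ (by
    intro z hz
    have h1 : Units.map (comapRes (algebraMap K (AlgebraicClosure L)) Vt).toMonoidHom
      (Additive.toMul z) = 1 := hz
    have h2 : Additive.toMul z = 1 :=
      Units.map_injective (comapRes (algebraMap K (AlgebraicClosure L)) Vt).injective
        (by rw [h1, map_one])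
    have h3 : z = 0 := by
      rw [← ofMul_toMul z, h2, ofMul_one]
    rw [h3, map_zero])
  have hμ : ∀ z : (IsLocalRing.ResidueField (Vt.comap (algebraMap K (AlgebraicClosure L))))ˣ,
      μ' (Additive.ofMul (Units.map (comapRes (algebraMap K (AlgebraicClosure L)) Vt).toMonoidHom
        z)) = μ (Additive.ofMul z) := fun z => hμ' (Additive.ofMul z)
  obtain ⟨S, hS⟩ := exists_symb Vt v hv μ'
  have hS' : SymbOf Vt v μ' S.φ := hS
  -- the symbols of `K`
  have hK : ∀ a b : Kˣ, μ (Additive.ofMul (T a b)) =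
      S.fn (algebraMap K (AlgebraicClosure L) a) (algebraMap K (AlgebraicClosure L) b) := by
    intro a b
    have h1 := u05_tame (algebraMap K (AlgebraicClosure L)) Vt v hv μ' S.φ hS'
      (Units.mk0 π hπ.1) hπ hπ1 a b (T a b) (hT a b)
    rw [hμ, ← S.fn_units] at h1
    exact h1.symm
  -- the symbols of `L`
  have hL : ∀ σ : L ≃ₐ[K] L,
      ∑ j, S.fn (algebraMap L (AlgebraicClosure L) (σ (f j)))
        (algebraMap L (AlgebraicClosure L) (σ (g j))) =
      (if (Vt.comap (algebraMap L (AlgebraicClosure L))).comap (σ : L →+* L) ∈ good then 1 else 0)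
        * (N * μ (Additive.ofMul (Units.map (IsLocalRing.residue _).toMonoidHom u))) := by
    intro σ
    set i : L →+* AlgebraicClosure L := (algebraMap L (AlgebraicClosure L)).comp (σ : L →+* L)
      with hi
    have hVσ : (Vt.comap (algebraMap L (AlgebraicClosure L))).comap (σ : L →+* L) = Vt.comap i :=
      rfl
    rw [hVσ]
    obtain ⟨t, ht, h1, h2⟩ := hgood (Vt.comap i) (hcomap σ)
    have hun : IsUnifV (Vt.comap i) (algebraMap K L π) :=
      hunr (Vt.comap i) (hcomap σ) π (by rw [hcomap σ]; exact hπ)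
    have hK0 : algebraMap K L π ≠ 0 := (map_ne_zero _).2 hπ.1
    have hvσ : v (Additive.ofMul (Units.map i.toMonoidHom (Units.mk0 (algebraMap K L π) hK0)))
        = 1 := by
      rw [← hπ1]
      congr 2
      ext
      change algebraMap L (AlgebraicClosure L) (σ (algebraMap K L π)) =
        algebraMap K (AlgebraicClosure L) π
      rw [AlgEquiv.commutes, ← IsScalarTower.algebraMap_apply K L (AlgebraicClosure L)]
    have h3 : ∀ j, S.fn (algebraMap L (AlgebraicClosure L) (σ (f j)))
        (algebraMap L (AlgebraicClosure L) (σ (g j))) =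
        μ' (Additive.ofMul (Units.map (comapRes i Vt).toMonoidHom (t j))) := by
      intro j
      have h4 := u05_tame i Vt v hv μ' S.φ hS' (Units.mk0 (algebraMap K L π) hK0) hun hvσ
        (f j) (g j) (t j) (ht j)
      rw [← S.fn_units] at h4
      exact h4
    have h5 : ∑ j, μ' (Additive.ofMul (Units.map (comapRes i Vt).toMonoidHom (t j))) =
        μ' (Additive.ofMul (Units.map (comapRes i Vt).toMonoidHom (∏ j, t j))) := by
      rw [map_prod, ofMul_prod, map_sum]
    rw [Finset.sum_congr rfl (fun j _ => h3 j), h5]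
    by_cases hg : Vt.comap i ∈ good
    · rw [if_pos hg, one_mul]
      have hmem : algebraMap K L
          (((u : Vt.comap (algebraMap K (AlgebraicClosure L))) : K)) ∈ Vt.comap i := by
        have h6 : ((u : Vt.comap (algebraMap K (AlgebraicClosure L))) : K) ∈
          (Vt.comap i).comap (algebraMap K L) := by
          rw [hi, hcomap σ]
          exact (u : Vt.comap (algebraMap K (AlgebraicClosure L))).2
        exact h6
      have h6 := h1 hg ⟨_, hmem⟩ rfl
      have h7 : Units.map (comapRes i Vt).toMonoidHom (∏ j, t j) =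
          (Units.map (comapRes (algebraMap K (AlgebraicClosure L)) Vt).toMonoidHom
            (Units.map (IsLocalRing.residue _).toMonoidHom u)) ^ N := by
        apply Units.ext
        rw [Units.val_pow_eq_pow_val]
        change comapRes i Vt ((∏ j, t j : (IsLocalRing.ResidueField (Vt.comap i))ˣ) :
          IsLocalRing.ResidueField (Vt.comap i)) = (comapRes (algebraMap K (AlgebraicClosure L)) Vt
            (IsLocalRing.residue _ (u : Vt.comap (algebraMap K (AlgebraicClosure L))))) ^ N
        rw [h6, map_pow, comapRes_residue, comapRes_residue]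
        congr 2
        apply Subtype.ext
        change algebraMap L (AlgebraicClosure L) (σ (algebraMap K L _)) =
          algebraMap K (AlgebraicClosure L) _
        rw [AlgEquiv.commutes, ← IsScalarTower.algebraMap_apply K L (AlgebraicClosure L)]
        rfl
      rw [h7, ofMul_pow, map_nsmul, hμ, nsmul_eq_mul]
    · rw [if_neg hg, zero_mul, h2 hg, map_one, ofMul_one, map_zero]
  -- the number of good automorphisms
  have hV₁ : (Vt.comap (algebraMap L (AlgebraicClosure L))).comap (algebraMap K L) =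
      Vt.comap (algebraMap K (AlgebraicClosure L)) := hcomap AlgEquiv.refl
  obtain ⟨-, hcount⟩ := val_count (K := K) (L := L) (Vt.comap (algebraMap L (AlgebraicClosure L)))
    (by rw [hV₁]; exact hV) (fun V' hV' => hunr V' (hV'.trans hV₁))
    (fun V' => if V' ∈ good then 1 else 0)
  have hsum : (∑ᶠ V' ∈ {V' : ValuationSubring L |
        V'.comap (algebraMap K L) =
          (Vt.comap (algebraMap L (AlgebraicClosure L))).comap (algebraMap K L)},
        (degR (comapRes (algebraMap K L) V') : ℚ) * (if V' ∈ good then 1 else 0)) =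
      ∑ᶠ V' ∈ {V' : ValuationSubring L | V'.comap (algebraMap K L) =
        Vt.comap (algebraMap K (AlgebraicClosure L)) ∧ V' ∈ good},
        (degR (comapRes (algebraMap K L) V') : ℚ) := by
    rw [hV₁]
    refine finsum_congr fun V' => ?_
    by_cases h1 : V'.comap (algebraMap K L) = Vt.comap (algebraMap K (AlgebraicClosure L))
    · by_cases h2 : V' ∈ good
      · simp [h1, h2]
      · simp [h2]
    · simp [h1]
  rw [← hsum, ← hcount, u05_flatMap, ← Fin.sum_univ_def]
  have h8 : ∀ j, ((l j).map fun e => (e.1 : ℚ) * μ (Additive.ofMul (T e.2.1 e.2.2))).sum =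
      ∑ σ : L ≃ₐ[K] L, S.fn (algebraMap L (AlgebraicClosure L) (σ (f j)))
        (algebraMap L (AlgebraicClosure L) (σ (g j))) := by
    intro j
    rw [hl j (AlgebraicClosure L) ℚ S.fn S.isSteinberg, symSum]
    refine congrArg _ (List.map_congr_left fun e _ => ?_)
    rw [hK, zsmul_eq_mul]
  rw [Finset.sum_congr rfl (fun j _ => h8 j), Finset.sum_comm,
    Finset.sum_congr rfl (fun σ _ => hL σ), ← Finset.sum_mul]
  ring

end Pool.Agent.K1
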