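import Pool.Agent.K1.UConstVal
import Pool.Agent.K1.UFields
import Pool.Agent.K1.UTameComap
import Pool.Agent.K1.UDegRes
import Pool.Agent.K1.UTateLocal
import Pool.Agent.K1.BTameV

/-!
Descent from the algebraic closure: the boundary of the norm of the symbols of a class.
-/

set_option autoImplicit false

namespace Pool.Agent.K1

/-! ### auxiliary facts -/

/-- Every valuation ring of a subfield is the restriction of a valuation ring. -/
theorem u07_extend {M L : Type} [Field M] [Field L] (j : M →+* L) (V : ValuationSubring M) :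
    ∃ V' : ValuationSubring L, V'.comap j = V := by
  obtain ⟨A, h, hloc⟩ := IsLocalRing.exists_factor_valuationRing (j.comp V.subtype)
  refine ⟨A, ?_⟩
  have hmem : ∀ x : M, x ∈ V → j x ∈ A := fun x hx => h ⟨x, hx⟩
  ext x
  rw [ValuationSubring.mem_comap]
  refine ⟨fun hx => ?_, hmem x⟩
  by_contra hxV
  have hx0 : x ≠ 0 := by
    rintro rfl
    exact hxV V.zero_mem
  have hxi : x⁻¹ ∈ V := (V.mem_or_inv_mem x).resolve_left hxV
  have hu : IsUnit ((j.comp V.subtype).codRestrict A.toSubring h ⟨x⁻¹, hxi⟩) := by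
    refine IsUnit.of_mul_eq_one ⟨j x, hx⟩ (Subtype.ext ?_)
    show j x⁻¹ * j x = 1
    rw [← map_mul, inv_mul_cancel₀ hx0, map_one]
  have hu2 := hloc.map_nonunit _ hu
  rw [tord_isUnit_iff] at hu2
  apply hxV
  have := hu2.2
  rwa [inv_inv] at this

/-- uniformizers under unramified extensions in a tower -/
theorem u07_unr {M L : Type} [Field M] [Field L] (j : M →+* L) (V' : ValuationSubring L)
    (π₀ π : M) (h₀ : IsUnifV (V'.comap j) π₀) (h₁ : IsUnifV V' (j π₀))
    (hπ : IsUnifV (V'.comap j) π) : IsUnifV V' (j π) := by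
  obtain ⟨c, hc, hc'⟩ := (h₀.2 π).1 (tord_unif_nonunit hπ)
  obtain ⟨d, hd, hd'⟩ := (hπ.2 π₀).1 (tord_unif_nonunit h₀)
  have hcd : c * d = 1 := by
    have h1 : π₀ * (c * d) = π₀ * 1 := by
      rw [← mul_assoc, ← hc', ← hd', mul_one]
    exact mul_left_cancel₀ h₀.1 h1
  refine ⟨fun h => hπ.1 ((map_eq_zero j).1 h), fun x => ?_⟩
  rw [h₁.2 x]
  constructor
  · rintro ⟨e, he, rfl⟩
    refine ⟨j d * e, V'.mul_mem _ _ hd he, ?_⟩
    rw [hd', map_mul, mul_assoc]
  · rintro ⟨e, he, rfl⟩
    refine ⟨j c * e, V'.mul_mem _ _ hc he, ?_⟩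
    rw [hc', map_mul, mul_assoc]

/-- tame symbols at a discrete valuation ring exist -/
theorem u07_exists_tame {K : Type} [Field K] (V : ValuationSubring K) (hV : IsDiscV V)
    (a b : Kˣ) : ∃ t, IsTameVal V a b t := by
  obtain ⟨t, ht⟩ := exists_isTameV V (isDiscV_iff.1 hV) (a : K) (b : K) a.ne_zero b.ne_zero
  exact ⟨t, (isTameVal_iff V a b t).2 ht⟩

theorem u07_unique {K : Type} [Field K] (V : ValuationSubring K) (a b : Kˣ)
    (t t' : (IsLocalRing.ResidueField V)ˣ) (h : IsTameVal V a b t) (h' : IsTameVal V a b t') :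
    t = t' :=
  isTameV_unique V _ _ a.ne_zero b.ne_zero t t' ((isTameVal_iff V a b t).1 h)
    ((isTameVal_iff V a b t').1 h')

theorem u07_list_sum {α ι : Type*} (s : Finset ι) (l : List α) (f : α → ι → ℚ) :
    (l.map fun e => ∑ x ∈ s, f e x).sum = ∑ x ∈ s, (l.map fun e => f e x).sum := by
  induction l with
  | nil => simp
  | cons a l ih => simp only [List.map_cons, List.sum_cons, ih, Finset.sum_add_distrib]

theorem u07_norm_pow {κ M : Type} [Field κ] [Field M] (φ : κ →+* M) (z : κˣ) (u : Mˣ)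
    (hu : (u : M) = φ z) :
    Units.map (letI := φ.toAlgebra; Algebra.norm κ : M →* κ) u = z ^ degR φ := by
  let _ : Algebra κ M := φ.toAlgebra
  apply Units.ext
  rw [Units.coe_map, Units.val_pow_eq_pow_val, hu]
  exact Algebra.norm_algebraMap (R := κ) (z : κ)

section
variable {F k K L : Type} [Field F] [Field k] [Field K] [Field L] [Algebra F k]
  {iF : F →+* K} {ik : k →+* L} {i : K →+* L}

theorem u07_lift [Algebra.IsAlgebraic F k] [Algebra.IsSeparable F k] (h : ConstExt iF ik i)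
    (E : IntermediateField F k) (V' : ValuationSubring L)
    (hV : IsDiscV (V'.comap i)) (hF : ∀ c, iF c ∈ V'.comap i) (a b : (kE ik i E)ˣ)
    (t' : (IsLocalRing.ResidueField V')ˣ)
    (ht' : IsTameVal V' (Units.map (kE ik i E).subtype.toMonoidHom a)
      (Units.map (kE ik i E).subtype.toMonoidHom b) t') :
    ∃ t : (IsLocalRing.ResidueField (V'.comap (kE ik i E).subtype))ˣ,
      IsTameVal (V'.comap (kE ik i E).subtype) a b t ∧
      Units.map (comapRes (kE ik i E).subtype V').toMonoidHom t = t' := by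
  obtain ⟨-, hunr, -, -⟩ := const_val h V' hV hF
  obtain ⟨-, hunr2, hdisc, -⟩ := const_val (kE_constExt h E) (V'.comap (kE ik i E).subtype)
    hV hF
  obtain ⟨π₀, hπ₀, -⟩ := id hV
  have h₀ := hunr2 π₀ hπ₀
  have h₁ := hunr π₀ hπ₀
  obtain ⟨t, ht⟩ := u07_exists_tame _ hdisc a b
  refine ⟨t, ht, ?_⟩
  have h2 := isTameVal_comap (kE ik i E).subtype V' hdisc
    (fun π hπ => u07_unr (kE ik i E).subtype V' (kEmap ik i E π₀) π h₀ h₁ hπ) a b t ht
  exact u07_unique V' _ _ _ _ h2 ht'

/-- U-07 : the boundary of the norm of the symbols of a class (assembly of U-01 to U-06) -/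
theorem class_descent [PerfectField F] [Algebra.IsAlgebraic F k] (h : ConstExt iF ik i)
    (E : IntermediateField F k) [FiniteDimensional F E] [IsGalois F E] {r : ℕ}
    (f g : Fin r → Lˣ) (hf : ∀ j, (f j : L) ∈ kE ik i E) (hg : ∀ j, (g j : L) ∈ kE ik i E) :
    ∃ l : List (ℤ × Kˣ × Kˣ), ∀ (κ : Type) [Field κ] (S : Finset (ValuationSubring K))
      (_ : ∀ V ∈ S, IsDiscV V ∧ ∀ c, iF c ∈ V)
      (φ : ∀ V ∈ S, κ →+* IsLocalRing.ResidueField V) (_ : ∀ V hV, (φ V hV).Finite)
      (z : κˣ) (N : ℕ) (G : Finset (ValuationSubring L)) (hG : ∀ V' ∈ G, V'.comap i ∈ S)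
      (hk : ∀ V' ∈ G, ∀ c, ik c ∈ V')
      (_ : ∀ V' ∈ G, ∀ V'' ∈ G, (∀ a ∈ kE ik i E, a ∈ V' ↔ a ∈ V'') → V' = V'')
      (_ : ∀ (V' : ValuationSubring L) (hV' : V'.comap i ∈ S),
        ∃ t : Fin r → (IsLocalRing.ResidueField V')ˣ, (∀ j, IsTameVal V' (f j) (g j) (t j)) ∧
          (V' ∈ G →
            ((∏ j, t j : (IsLocalRing.ResidueField V')ˣ) : IsLocalRing.ResidueField V') =
              comapRes i V' (φ _ hV' z) ^ N) ∧
          (V' ∉ G → ∏ j, t j = 1))
      (_ : ∀ (V' : ValuationSubring L) (hV' : V' ∈ G) w, comapRes i V' w ∈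
        kE (constRes ik V' (hk V' hV')) ((comapRes i V').comp (φ _ (hG V' hV'))) E)
      (bd : Kˣ → Kˣ → κˣ) (_ : ∀ a b, IsBdS S φ a b (bd a b)) (μ : Additive κˣ →+ ℚ),
      (l.map fun e => (e.1 : ℚ) * μ (Additive.ofMul (bd e.2.1 e.2.2))).sum =
        N * (∑ V' ∈ G.attach, (degE (constRes ik V'.1 (hk V'.1 V'.2))
          ((comapRes i V'.1).comp (φ _ (hG V'.1 V'.2))) E : ℚ)) * μ (Additive.ofMul z) := by
  classical
  let _ : Algebra K (kE ik i E) := (kEmap ik i E).toAlgebra
  obtain ⟨hfd, hgal⟩ := kE_galois h E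
  let f₁ : Fin r → (kE ik i E)ˣ := fun j =>
    Units.mk0 ⟨f j, hf j⟩ (fun h0 => (f j).ne_zero (congrArg Subtype.val h0))
  let g₁ : Fin r → (kE ik i E)ˣ := fun j =>
    Units.mk0 ⟨g j, hg j⟩ (fun h0 => (g j).ne_zero (congrArg Subtype.val h0))
  have hf₁ : ∀ j, Units.map (kE ik i E).subtype.toMonoidHom (f₁ j) = f j := fun j =>
    Units.ext rfl
  have hg₁ : ∀ j, Units.map (kE ik i E).subtype.toMonoidHom (g₁ j) = g j := fun j =>
    Units.ext rfl
  obtain ⟨l, hl⟩ := tate_local (K := K) (L := kE ik i E) f₁ g₁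
  refine ⟨l, ?_⟩
  intro κ _ S hS φ hφ z N G hG hk hinj htame hE bd hbd μ
  -- the norms
  let nm : ∀ V (hV : V ∈ S), IsLocalRing.ResidueField V →* κ := fun V hV =>
    letI := (φ V hV).toAlgebra; Algebra.norm κ
  let μV : ∀ V (hV : V ∈ S), Additive (IsLocalRing.ResidueField V)ˣ →+ ℚ := fun V hV =>
    μ.comp (MonoidHom.toAdditive (Units.map (nm V hV)))
  let T : ∀ V (hV : V ∈ S), Kˣ → Kˣ → (IsLocalRing.ResidueField V)ˣ := fun V hV a b =>
    (u07_exists_tame V (hS V hV).1 a b).choose
  have hT : ∀ V (hV : V ∈ S) a b, IsTameVal V a b (T V hV a b) := fun V hV a b =>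
    (u07_exists_tame V (hS V hV).1 a b).choose_spec
  have hbd' : ∀ a b, μ (Additive.ofMul (bd a b)) =
      ∑ x ∈ S.attach, μV x.1 x.2 (Additive.ofMul (T x.1 x.2 a b)) := by
    intro a b
    obtain ⟨c, hc, hcp⟩ := hbd a b
    rw [hcp, ofMul_prod, map_sum, ← Finset.sum_attach]
    refine Finset.sum_congr rfl fun x _ => ?_
    obtain ⟨u, hu, hcu⟩ := hc x.1 x.2
    have h1 : c x.1 = Units.map (nm x.1 x.2) (T x.1 x.2 a b) := by
      apply Units.ext
      rw [hcu, u07_unique _ _ _ _ _ hu (hT x.1 x.2 a b)]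
      rfl
    rw [h1]
    rfl
  -- the set of the good valuation rings
  let good : Set (ValuationSubring (kE ik i E)) :=
    {V₂ | ∃ V' ∈ G, V'.comap (kE ik i E).subtype = V₂}
  let w : ValuationSubring (kE ik i E) → ℚ := fun V₂ => (degR (comapRes (kEmap ik i E) V₂) : ℚ)
  -- the local formula
  have hloc : ∀ V (hV : V ∈ S),
      (l.map fun e => (e.1 : ℚ) * μV V hV (Additive.ofMul (T V hV e.2.1 e.2.2))).sum =
        N * (∑ V' ∈ G.filter (fun V' => V'.comap i = V),
          w (V'.comap (kE ik i E).subtype)) * (degR (φ V hV) * μ (Additive.ofMul z)) := by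
    intro V hV
    obtain ⟨u₀, hu₀⟩ := IsLocalRing.residue_surjective (R := V) (φ V hV z)
    have hu₀' : IsUnit u₀ := by
      rw [← IsLocalRing.residue_ne_zero_iff_isUnit, hu₀]
      exact (map_ne_zero (φ V hV)).2 z.ne_zero
    obtain ⟨u, rfl⟩ := hu₀'
    have hmain := hl V (hS V hV).1 ?_ u N good ?_ (T V hV) (hT V hV) (μV V hV)
    · rw [hmain]
      congr 1
      · congr 1
        have hset : {V₂ : ValuationSubring (kE ik i E) |
            V₂.comap (algebraMap K (kE ik i E)) = V ∧ V₂ ∈ good} =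
            ↑((G.filter (fun V' => V'.comap i = V)).image
              (fun V' => V'.comap (kE ik i E).subtype)) := by
          ext V₂
          simp only [Set.mem_ofPred_eq, Finset.coe_image, Set.mem_image, Finset.mem_coe,
            Finset.mem_filter]
          constructor
          · rintro ⟨h1, V', hV', rfl⟩
            exact ⟨V', ⟨hV', h1⟩, rfl⟩
          · rintro ⟨V', ⟨hV', h1⟩, rfl⟩
            exact ⟨h1, V', hV', rfl⟩
        rw [hset, finsum_mem_coe_finset, Finset.sum_image]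
        · rfl
        · intro V' hV' V'' hV'' heq
          have hV1 := (Finset.mem_filter.1 hV').1
          have hV2 := (Finset.mem_filter.1 hV'').1
          refine hinj V' hV1 V'' hV2 fun a ha => ?_
          have h3 : (⟨a, ha⟩ : kE ik i E) ∈ V'.comap (kE ik i E).subtype ↔
              (⟨a, ha⟩ : kE ik i E) ∈ V''.comap (kE ik i E).subtype := by
            have heq' : V'.comap (kE ik i E).subtype = V''.comap (kE ik i E).subtype := heq
            rw [heq']
          exact h3
      · show μ (Additive.ofMul (Units.map (nm V hV) _)) = _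
        rw [u07_norm_pow (φ V hV) z _ hu₀, ofMul_pow, map_nsmul, nsmul_eq_mul]
    · -- unramified
      intro V₂ hV₂ π hπ
      have hd : IsDiscV (V₂.comap (kEmap ik i E)) := by
        have := (hS V hV).1
        rw [← hV₂] at this
        exact this
      have hc : ∀ c, iF c ∈ V₂.comap (kEmap ik i E) := by
        have := (hS V hV).2
        rw [← hV₂] at this
        exact this
      exact (const_val (kE_constExt h E) V₂ hd hc).2.1 π hπ
    · -- tame symbols
      intro V₂ hV₂
      obtain ⟨V', hV', hVG⟩ : ∃ V' : ValuationSubring L,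
          V'.comap (kE ik i E).subtype = V₂ ∧ (V₂ ∈ good → V' ∈ G) := by
        by_cases hgood : V₂ ∈ good
        · obtain ⟨V', h1, h2⟩ := hgood
          exact ⟨V', h2, fun _ => h1⟩
        · obtain ⟨V', h2⟩ := u07_extend (kE ik i E).subtype V₂
          exact ⟨V', h2, fun h3 => absurd h3 hgood⟩
      subst hV'
      have hVi : V'.comap i = V := hV₂
      subst hVi
      obtain ⟨t', ht', hgood', hbad'⟩ := htame V' hV
      have hex := fun j => u07_lift h E V' (hS _ hV).1 (hS _ hV).2 (f₁ j) (g₁ j) (t' j)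
        (by rw [hf₁, hg₁]; exact ht' j)
      choose t ht htt using hex
      have hprod : Units.map (comapRes (kE ik i E).subtype V').toMonoidHom (∏ j, t j) =
          ∏ j, t' j := by
        rw [map_prod]
        exact Finset.prod_congr rfl fun j _ => htt j
      refine ⟨t, ht, fun hg1 u' hu' => ?_, fun hg1 => ?_⟩
      · have h1 := hgood' (hVG hg1)
        rw [← hprod, Units.coe_map] at h1
        apply (comapRes (kE ik i E).subtype V').injective
        refine h1.trans ?_
        rw [map_pow, comapRes_residue, ← hu₀, comapRes_residue]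
        congr 2
        apply Subtype.ext
        rw [comapIncl_coe, comapIncl_coe]
        have h2 := congrArg (kE ik i E).subtype hu'
        exact h2.symm
      · have h1 := hbad' (fun hVG' => hg1 ⟨V', hVG', rfl⟩)
        rw [← hprod] at h1
        apply Units.ext
        apply (comapRes (kE ik i E).subtype V').injective
        have h2 := congrArg Units.val h1
        rw [Units.coe_map] at h2
        rw [Units.val_one, map_one]
        exact h2
  -- the sum
  have hsum : (l.map fun e => (e.1 : ℚ) * μ (Additive.ofMul (bd e.2.1 e.2.2))).sum =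
      ∑ x ∈ S.attach, (l.map fun e => (e.1 : ℚ) *
        μV x.1 x.2 (Additive.ofMul (T x.1 x.2 e.2.1 e.2.2))).sum := by
    rw [← u07_list_sum]
    congr 1
    refine List.map_congr_left fun e _ => ?_
    rw [hbd', Finset.mul_sum]
  rw [hsum, Finset.sum_congr rfl fun x _ => hloc x.1 x.2]
  have hdeg : ∀ x ∈ G.attach, (degE (constRes ik x.1 (hk x.1 x.2))
      ((comapRes i x.1).comp (φ _ (hG x.1 x.2))) E : ℚ) =
      (degR (φ _ (hG x.1 x.2)) : ℚ) * w (x.1.comap (kE ik i E).subtype) := by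
    intro x _
    rw [← degE_res h E x.1 (hS _ (hG x.1 x.2)).1 (hS _ (hG x.1 x.2)).2 (hk x.1 x.2)
      (φ _ (hG x.1 x.2)) (hφ _ _) (hE x.1 x.2), Nat.cast_mul]
  rw [Finset.sum_congr rfl hdeg]
  let d : ValuationSubring K → ℚ := fun V => if hV : V ∈ S then (degR (φ V hV) : ℚ) else 0
  have hd : ∀ V (hV : V ∈ S), (degR (φ V hV) : ℚ) = d V := by
    intro V hV
    simp only [d, dif_pos hV]
  have h1 : ∑ x ∈ G.attach, (degR (φ _ (hG x.1 x.2)) : ℚ) * w (x.1.comap (kE ik i E).subtype) =
      ∑ V' ∈ G, d (V'.comap i) * w (V'.comap (kE ik i E).subtype) := by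
    rw [← Finset.sum_attach G]
    refine Finset.sum_congr rfl fun x _ => ?_
    rw [hd]
  have h2 : ∑ x ∈ S.attach, (N : ℚ) * (∑ V' ∈ G.filter (fun V' => V'.comap i = x.1),
      w (V'.comap (kE ik i E).subtype)) * (degR (φ x.1 x.2) * μ (Additive.ofMul z)) =
      ∑ V ∈ S, (N : ℚ) * (∑ V' ∈ G.filter (fun V' => V'.comap i = V),
      w (V'.comap (kE ik i E).subtype)) * (d V * μ (Additive.ofMul z)) := by
    rw [← Finset.sum_attach S]
    refine Finset.sum_congr rfl fun x _ => ?_
    rw [hd]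
  rw [h1, h2, ← Finset.sum_fiberwise_of_maps_to hG, Finset.mul_sum, Finset.sum_mul]
  refine Finset.sum_congr rfl fun V _ => ?_
  have h3 : ∑ V' ∈ G.filter (fun V' => V'.comap i = V),
      d (V'.comap i) * w (V'.comap (kE ik i E).subtype) =
      d V * ∑ V' ∈ G.filter (fun V' => V'.comap i = V), w (V'.comap (kE ik i E).subtype) := by
    rw [Finset.mul_sum]
    exact Finset.sum_congr rfl fun V' hV' => by rw [(Finset.mem_filter.1 hV').2]
  rw [h3]
  ring

end

end Pool.Agent.K1
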