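import Pool.Agent.K1.UDefs

/-!
# The decomposition of `κ ⊗ E`

`degE_count`: the degrees of the extensions of `κ` generated by a large finite extension `E` of
the ground field, in all the fields generated by `κ` and the constants, add up to `[E : F]`.
-/

set_option autoImplicit false

open Polynomial

namespace Pool.Agent.K1

section one

variable {F k κ Ω : Type} [Field F] [Field k] [Algebra F k] [Field κ] [Field Ω]

/-- evaluation of a polynomial at a constant -/
theorem u08_ik_aeval (iF : F →+* κ) (ik : k →+* Ω) [Algebra κ Ω]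
    (hc : ∀ c, algebraMap κ Ω (iF c) = ik (algebraMap F k c)) (a : k) (p : F[X]) :
    ik (aeval a p) = aeval (ik a) (p.map iF) := by
  rw [aeval_def, hom_eval₂, aeval_def, eval₂_map]
  congr 1
  ext c
  exact (hc c).symm

theorem u08_integral (iF : F →+* κ) (ik : k →+* Ω) [Algebra κ Ω]
    (hc : ∀ c, algebraMap κ Ω (iF c) = ik (algebraMap F k c)) (a : k) (ha : IsIntegral F a) :
    IsIntegral κ (ik a) := by
  obtain ⟨p, hp, h0⟩ := ha
  refine ⟨p.map iF, hp.map iF, ?_⟩
  rw [← aeval_def, ← u08_ik_aeval iF ik hc, aeval_def, h0, map_zero]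

theorem u08_degE (iF : F →+* κ) (ik : k →+* Ω) [Algebra κ Ω]
    (hc : ∀ c, algebraMap κ Ω (iF c) = ik (algebraMap F k c))
    (E : IntermediateField F k) (pb : PowerBasis F E) :
    degE ik (algebraMap κ Ω) E = (minpoly κ (ik (pb.gen : k))).natDegree := by
  have hint : IsIntegral κ (ik (pb.gen : k)) := by
    refine u08_integral iF ik hc _ ?_
    exact (pb.isIntegral_gen).map E.val
  rw [← IntermediateField.adjoin.finrank hint]
  have hE : ∀ z : E, ∃ p : F[X], ik (z : k) = aeval (ik (pb.gen : k)) (p.map iF) := by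
    intro z
    obtain ⟨p, hp⟩ := pb.exists_eq_aeval' z
    refine ⟨p, ?_⟩
    rw [← u08_ik_aeval iF ik hc, hp]
    congr 1
    exact (aeval_algHom_apply E.val pb.gen p).symm
  have hle : ∀ z ∈ kE ik (algebraMap κ Ω) E, z ∈ IntermediateField.adjoin κ {ik (pb.gen : k)} := by
    intro z hz
    have h1 : kE ik (algebraMap κ Ω) E ≤
        (IntermediateField.adjoin κ {ik (pb.gen : k)}).toSubfield := by
      unfold kE
      rw [Subfield.closure_le]
      rintro w (⟨a, rfl⟩ | ⟨b, hb, rfl⟩)
      · exact IntermediateField.algebraMap_mem _ a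
      · obtain ⟨p, hp⟩ := hE ⟨b, hb⟩
        change ik b ∈ IntermediateField.adjoin κ {ik (pb.gen : k)}
        rw [show ik b = _ from hp]
        exact IntermediateField.algebra_adjoin_le_adjoin κ _
          (Polynomial.aeval_mem_adjoin_singleton κ _)
    exact h1 hz
  have hge : ∀ z ∈ IntermediateField.adjoin κ {ik (pb.gen : k)}, z ∈ kE ik (algebraMap κ Ω) E := by
    intro z hz
    have h1 : (IntermediateField.adjoin κ {ik (pb.gen : k)}).toSubfield ≤
        kE ik (algebraMap κ Ω) E := by
      rw [IntermediateField.adjoin_toSubfield, Subfield.closure_le]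
      rintro w (⟨a, rfl⟩ | hw)
      · exact Subfield.subset_closure (Or.inl ⟨a, rfl⟩)
      · rw [Set.mem_singleton_iff] at hw
        subst hw
        exact Subfield.subset_closure (Or.inr ⟨pb.gen, pb.gen.2, rfl⟩)
    exact h1 hz
  unfold degE degR
  let _ := (kEmap ik (algebraMap κ Ω) E).toAlgebra
  let e : kE ik (algebraMap κ Ω) E ≃ₗ[κ] IntermediateField.adjoin κ {ik (pb.gen : k)} :=
    { toFun := fun z => ⟨z, hle z z.2⟩
      invFun := fun z => ⟨z, hge z z.2⟩
      left_inv := fun z => rfl
      right_inv := fun z => rfl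
      map_add' := fun z w => rfl
      map_smul' := fun a z => by
        apply Subtype.ext
        rw [RingHom.id_apply, Algebra.smul_def, Algebra.smul_def]
        rfl }
  exact LinearEquiv.finrank_eq e

end one

theorem degE_count {F k κ : Type} [Field F] [Field k] [Algebra F k] [Algebra.IsSeparable F k]
    [Field κ] (iF : F →+* κ) {I : Type} [Finite I] (Ω : I → Type) [∀ x, Field (Ω x)]
    (i : ∀ x, κ →+* Ω x) (ik : ∀ x, k →+* Ω x) (h : ∀ x, ConstExt iF (ik x) (i x))
    (hinj : ∀ x x', (∀ (n : ℕ) (a : Fin n → κ) (c : Fin n → k),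
      ∑ j, i x (a j) * ik x (c j) = 0 ↔ ∑ j, i x' (a j) * ik x' (c j) = 0) → x = x')
    (hsurj : ∀ (Ω' : Type) [Field Ω'] (i' : κ →+* Ω') (ik' : k →+* Ω')
      (_ : ∀ c, i' (iF c) = ik' (algebraMap F k c)), ∃ x, ∀ (n : ℕ) (a : Fin n → κ)
        (c : Fin n → k), ∑ j, i' (a j) * ik' (c j) = 0 ↔ ∑ j, i x (a j) * ik x (c j) = 0) :
    ∃ E₀ : IntermediateField F k, FiniteDimensional F E₀ ∧
      ∀ E : IntermediateField F k, E₀ ≤ E → FiniteDimensional F E →
        ∑ᶠ x, degE (ik x) (i x) E = Module.finrank F E := by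
  classical
  have _ := Fintype.ofFinite I
  -- the witnesses
  have hw : ∀ p : I × I, ∃ T : Finset k, p.1 ≠ p.2 → ∃ (n : ℕ) (a : Fin n → κ) (c : Fin n → k),
      (∀ j, c j ∈ T) ∧ ¬ (∑ j, i p.1 (a j) * ik p.1 (c j) = 0 ↔
        ∑ j, i p.2 (a j) * ik p.2 (c j) = 0) := by
    rintro ⟨x, x'⟩
    by_cases hx : x = x'
    · exact ⟨∅, fun hne => absurd hx hne⟩
    · have h1 : ∃ (n : ℕ) (a : Fin n → κ) (c : Fin n → k),
          ¬ (∑ j, i x (a j) * ik x (c j) = 0 ↔ ∑ j, i x' (a j) * ik x' (c j) = 0) := by
        by_contra hcon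
        push Not at hcon
        exact hx (hinj x x' fun n a c => by
          have := hcon n a c
          tauto)
      obtain ⟨n, a, c, hn⟩ := h1
      exact ⟨Finset.univ.image c, fun _ => ⟨n, a, c, fun j =>
        Finset.mem_image_of_mem c (Finset.mem_univ j), hn⟩⟩
  choose T hT using hw
  refine ⟨IntermediateField.adjoin F ((Finset.univ.biUnion T : Finset k) : Set k), ?_, ?_⟩
  · refine IntermediateField.finiteDimensional_adjoin ?_
    intro z _
    exact Algebra.IsIntegral.isIntegral z
  intro E hE hfin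
  let pb : PowerBasis F E := Field.powerBasisOfFiniteOfSeparable F E
  let α : k := pb.gen
  let f : F[X] := minpoly F α
  have hαint : IsIntegral F α := Algebra.IsIntegral.isIntegral α
  have hf : f = minpoly F pb.gen := (minpoly.algHom_eq E.val E.val.injective pb.gen)
  have hdeg : f.natDegree = Module.finrank F E := by
    rw [hf, pb.natDegree_minpoly, pb.finrank]
  have hmon : f.Monic := minpoly.monic hαint
  let g : I → κ[X] := fun x =>
    letI := (i x).toAlgebra
    minpoly κ (ik x α)
  have hgint : ∀ x, letI := (i x).toAlgebra; IsIntegral κ (ik x α) := by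
    intro x
    let _ := (i x).toAlgebra
    exact u08_integral iF (ik x) (h x).comm α hαint
  have hgdeg : ∀ x, degE (ik x) (i x) E = (g x).natDegree := by
    intro x
    let _ := (i x).toAlgebra
    exact u08_degE iF (ik x) (h x).comm E pb
  have hgmon : ∀ x, (g x).Monic := fun x => by
    let _ := (i x).toAlgebra
    exact minpoly.monic (hgint x)
  have hgirr : ∀ x, Irreducible (g x) := fun x => by
    let _ := (i x).toAlgebra
    exact minpoly.irreducible (hgint x)
  -- vanishing
  have hgdvd : ∀ x (P : κ[X]), P.eval₂ (i x) (ik x α) = 0 ↔ g x ∣ P := by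
    intro x P
    let _ := (i x).toAlgebra
    exact (minpoly.dvd_iff (A := κ) (x := ik x α) (p := P)).symm
  have hsum : ∀ (Ω' : Type) [Field Ω'] (i' : κ →+* Ω') (ik' : k →+* Ω') (P : κ[X]),
      P.eval₂ i' (ik' α) = ∑ j : Fin (P.natDegree + 1), i' (P.coeff j) * ik' (α ^ (j : ℕ)) := by
    intro Ω' _ i' ik' P
    rw [eval₂_eq_sum_range, Finset.sum_range]
    exact Finset.sum_congr rfl fun j _ => by rw [map_pow]
  have hf0 : f.map iF ≠ 0 := (hmon.map iF).ne_zero
  have hgf : ∀ x, g x ∣ f.map iF := by
    intro x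
    rw [← hgdvd]
    let _ := (i x).toAlgebra
    have h1 := u08_ik_aeval iF (ik x) (h x).comm α f
    rw [minpoly.aeval, map_zero] at h1
    exact h1.symm
  have hginj : Function.Injective g := by
    intro x x' hxx
    by_contra hne
    obtain ⟨n, a, c, hc, hn⟩ := hT (x, x') hne
    apply hn
    have hp : ∀ j, ∃ p : F[X], c j = aeval α p := by
      intro j
      have h1 : c j ∈ E := hE (IntermediateField.subset_adjoin F _ (by
        rw [Finset.mem_coe, Finset.mem_biUnion]
        exact ⟨(x, x'), Finset.mem_univ _, hc j⟩))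
      obtain ⟨p, hp⟩ := pb.exists_eq_aeval' ⟨c j, h1⟩
      refine ⟨p, ?_⟩
      have h2 := congrArg E.val hp
      rw [← aeval_algHom_apply E.val pb.gen p] at h2
      exact h2
    choose p hp using hp
    let P : κ[X] := ∑ j, C (a j) * (p j).map iF
    have hP : ∀ y, ∑ j, i y (a j) * ik y (c j) = P.eval₂ (i y) (ik y α) := by
      intro y
      rw [eval₂_finsetSum]
      refine Finset.sum_congr rfl fun j _ => ?_
      rw [eval₂_mul, eval₂_C, hp j]
      congr 1
      let _ := (i y).toAlgebra
      exact u08_ik_aeval iF (ik y) (h y).comm α (p j)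
    change (∑ j, i x (a j) * ik x (c j) = 0) ↔ (∑ j, i x' (a j) * ik x' (c j) = 0)
    rw [hP, hP, hgdvd, hgdvd, hxx]
  have hgsurj : ∀ q : κ[X], Irreducible q → q.Monic → q ∣ f.map iF → ∃ x, g x = q := by
    intro q hq hqm hqf
    obtain ⟨β, hβ⟩ := IsAlgClosed.exists_aeval_eq_zero (AlgebraicClosure κ) q
      (by
        have := hq.degree_pos
        exact ne_of_gt this)
    let i' : κ →+* AlgebraicClosure κ := algebraMap κ (AlgebraicClosure κ)
    let _ : Algebra F (AlgebraicClosure κ) := (i'.comp iF).toAlgebra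
    have hβ' : aeval β (minpoly F pb.gen) = 0 := by
      rw [← hf, aeval_def]
      change f.eval₂ (i'.comp iF) β = 0
      rw [← eval₂_map]
      obtain ⟨r, hr⟩ := hqf
      rw [hr, eval₂_mul]
      have : q.eval₂ i' β = 0 := hβ
      rw [this, zero_mul]
    let φ : E →ₐ[F] AlgebraicClosure κ := pb.lift β hβ'
    have hφ : φ pb.gen = β := pb.lift_gen β hβ'
    let _ : Algebra E (AlgebraicClosure κ) := φ.toRingHom.toAlgebra
    have _ : Algebra.IsAlgebraic E k := Algebra.IsAlgebraic.tower_top (K := F) E
    let ψ : k →ₐ[E] AlgebraicClosure κ := IsAlgClosed.lift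
    have hψ : ψ α = β := by
      have h1 : ψ (algebraMap E k pb.gen) = algebraMap E (AlgebraicClosure κ) pb.gen :=
        ψ.commutes pb.gen
      exact h1.trans hφ
    have hcomm : ∀ c, i' (iF c) = ψ.toRingHom (algebraMap F k c) := by
      intro c
      have h1 : ψ (algebraMap E k (algebraMap F E c)) =
        algebraMap E (AlgebraicClosure κ) (algebraMap F E c) := ψ.commutes _
      have h2 : φ (algebraMap F E c) = algebraMap F (AlgebraicClosure κ) c := φ.commutes c
      exact (h1.trans h2).symm
    obtain ⟨x, hx⟩ := hsurj (AlgebraicClosure κ) i' ψ.toRingHom hcomm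
    refine ⟨x, ?_⟩
    have h1 : q.eval₂ (i x) (ik x α) = 0 := by
      rw [hsum, ← hx, ← hsum]
      change q.eval₂ i' (ψ α) = 0
      rw [hψ]
      exact hβ
    have h2 : g x ∣ q := (hgdvd x q).1 h1
    exact eq_of_monic_of_associated (hgmon x) hqm ((hgirr x).associated_of_dvd hq h2)
  -- counting
  have hsep0 : f.Separable := Algebra.IsSeparable.isSeparable F α
  have hsep : (f.map iF).Separable := Polynomial.Separable.map hsep0
  have hnodup : (UniqueFactorizationMonoid.normalizedFactors (f.map iF)).Nodup :=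
    (UniqueFactorizationMonoid.squarefree_iff_nodup_normalizedFactors hf0).1 hsep.squarefree
  have hset : (UniqueFactorizationMonoid.normalizedFactors (f.map iF)).toFinset =
      Finset.univ.image g := by
    ext q
    rw [Multiset.mem_toFinset, Polynomial.mem_normalizedFactors_iff hf0, Finset.mem_image]
    constructor
    · rintro ⟨h1, h2, h3⟩
      obtain ⟨x, hx⟩ := hgsurj q h1 h2 h3
      exact ⟨x, Finset.mem_univ x, hx⟩
    · rintro ⟨x, _, rfl⟩
      exact ⟨hgirr x, hgmon x, hgf x⟩
  have hprod : (UniqueFactorizationMonoid.normalizedFactors (f.map iF)).prod = f.map iF := by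
    rw [UniqueFactorizationMonoid.prod_normalizedFactors_eq hf0]
    exact (hmon.map iF).normalize_eq_self
  rw [finsum_eq_sum_of_fintype, ← hdeg, ← natDegree_map iF, ← hprod,
    natDegree_multiset_prod_of_monic _ (by
      intro q hq
      exact ((Polynomial.mem_normalizedFactors_iff hf0).1 hq).2.1)]
  have hval : (UniqueFactorizationMonoid.normalizedFactors (f.map iF)) =
      (Finset.univ.image g).val := by
    rw [← hset, Multiset.toFinset_val, Multiset.dedup_eq_self.2 hnodup]
  rw [hval]
  change _ = ∑ q ∈ Finset.univ.image g, q.natDegree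
  rw [Finset.sum_image fun x _ x' _ hxx => hginj hxx]
  exact Finset.sum_congr rfl fun x _ => hgdeg x

end Pool.Agent.K1
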