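import Pool.Agent.K1.UDefs
import Pool.Agent.K1.DDim

/-!
# Pull back of chains of any codimension

`u14a_fibre_finite`: the fibres of `π` are finite.
`exists_pullK`: every chain has a pull back.
-/

set_option autoImplicit false

open AlgebraicGeometry CategoryTheory

namespace Pool.Agent.K1

theorem u14a_fibre_finite {Y X : Scheme.{0}} [IsIntegral Y] [IsIntegral X] [IsNoetherian Y]
    {π : Y ⟶ X} (P : ProEt π) (x : X) : {y : Y | π y = x}.Finite := by
  classical
  have hi := P.integral
  have hcl : IsClosed (π ⁻¹' (closure {x} : Set X)) := isClosed_closure.preimage π.continuous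
  obtain ⟨S, hSf, hSc, hSi, hSU⟩ :=
    TopologicalSpace.NoetherianSpace.exists_finite_set_isClosed_irreducible hcl
  have hgen : ∀ t ∈ S, ∃ z : Y, IsGenericPoint z t := fun t ht =>
    QuasiSober.sober (hSi t ht) (hSc t ht)
  choose! g hg using hgen
  refine (hSf.image g).subset ?_
  intro y hy
  have hy' : π y = x := hy
  have hmem : y ∈ π ⁻¹' (closure {x} : Set X) := by
    change π y ∈ closure {x}
    rw [hy']
    exact subset_closure rfl
  rw [hSU] at hmem
  obtain ⟨t, ht, hyt⟩ := hmem
  have hz := hg t ht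
  have hzy : g t ⤳ y := hz.specializes hyt
  have hzt : g t ∈ t := hz.mem
  have h1 : g t ∈ π ⁻¹' (closure {x} : Set X) := by
    rw [hSU]
    exact ⟨t, ht, hzt⟩
  have h2 : x ⤳ π (g t) := specializes_iff_mem_closure.2 h1
  have h3 : π (g t) ⤳ x := by
    have h4 := hzy.map π.continuous
    rw [hy'] at h4
    exact h4
  have h5 : π (g t) = π y := by
    rw [hy']
    exact (h3.antisymm h2).eq
  exact ⟨t, ht, ddim_incomp π hzy h5⟩

theorem exists_pullK {Y X : Scheme.{0}} [IsIntegral Y] [IsIntegral X] {π : Y ⟶ X}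
    [IsNoetherian Y] [IsNoetherian X] (P : ProEt π) {m : ℕ}
    (ξ : KChain X m) : ∃ η : KChain Y m, IsPullK π ξ η := by
  classical
  have hfin : (⋃ x ∈ ξ.support, {y : PointCo Y m | π y.1 = x.1}).Finite :=
    Set.Finite.biUnion ξ.support.finite_toSet fun x _ =>
      Set.Finite.preimage (Subtype.val_injective.injOn) (u14a_fibre_finite P x.1)
  let F : ∀ y : PointCo Y m, Additive (Y.residueField y.1)ˣ := fun y =>
    if h : Order.coheight (π y.1) = m then
      Additive.ofMul (Units.map (π.residueFieldMap y.1).hom.toMonoidHom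
        (Additive.toMul (ξ ⟨π y.1, h⟩)))
    else 0
  refine ⟨DFinsupp.mk hfin.toFinset fun y => F y.1, ?_⟩
  intro y h
  rw [DFinsupp.mk_apply]
  split_ifs with hy
  · have h1 : F y = Additive.ofMul (Units.map (π.residueFieldMap y.1).hom.toMonoidHom
        (Additive.toMul (ξ ⟨π y.1, h⟩))) := dif_pos h
    change Additive.toMul (F y) = _
    rw [h1]
    rfl
  · have h2 : ξ ⟨π y.1, h⟩ = 0 := by
      by_contra hne
      apply hy
      rw [Set.Finite.mem_toFinset, Set.mem_iUnion₂]
      exact ⟨⟨π y.1, h⟩, by rw [DFinsupp.mem_support_iff]; exact hne, rfl⟩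
    rw [h2, toMul_zero, toMul_zero]
    exact (map_one _).symm

end Pool.Agent.K1
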