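import Pool.Agent.K1.UCentre
import Pool.Agent.K1.UPull
import Pool.Agent.K1.UFields
import Pool.Agent.K1.BDom
import Pool.Agent.K1.UDegCount

/-!
K1-U-12: the residue fields of `Y` are generated by the residue fields of `X` and the constants,
and the number of the points in a fibre.
-/

set_option autoImplicit false
set_option linter.unusedSectionVars false

open AlgebraicGeometry CategoryTheory TensorProduct

namespace Pool.Agent.K1

/-! ### algebra -/

theorem u12_scale {κ k Ω : Type} [Field κ] [Field k] [Field Ω] (i : κ →+* Ω) (ik : k →+* Ω)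
    {n : ℕ} {r : κ} (hr : r ≠ 0) (a α : Fin n → κ) (h : ∀ j, a j * r = α j) (c : Fin n → k) :
    ∑ j, i (a j) * ik (c j) = 0 ↔ ∑ j, i (α j) * ik (c j) = 0 := by
  have h1 : ∑ j, i (α j) * ik (c j) = i r * ∑ j, i (a j) * ik (c j) := by
    rw [Finset.mul_sum]
    refine Finset.sum_congr rfl fun j _ => ?_
    rw [← h j, map_mul]
    ring
  rw [h1, mul_eq_zero, map_eq_zero]
  constructor
  · exact fun h2 => Or.inr h2
  · rintro (h2 | h2)
    · exact absurd h2 hr
    · exact h2

theorem u12_common {A κ : Type} [CommRing A] [Field κ] (ρ : A →+* κ) (hρ : IsFrac ρ) {n : ℕ}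
    (a : Fin n → κ) : ∃ (s : A) (α : Fin n → A), ρ s ≠ 0 ∧ ∀ j, a j * ρ s = ρ (α j) := by
  classical
  choose p q hq hpq using fun j => hρ (a j)
  refine ⟨∏ l, q l, fun j => p j * ∏ l ∈ Finset.univ.erase j, q l, ?_, ?_⟩
  · rw [map_prod]
    exact Finset.prod_ne_zero_iff.2 fun l _ => hq l
  · intro j
    rw [← Finset.mul_prod_erase Finset.univ q (Finset.mem_univ j), map_mul, map_mul, ← hpq j]
    ring

theorem u12_lift {F k A B Ω : Type} [Field F] [Field k] [Algebra F k] [CommRing A] [CommRing B]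
    [Field Ω] (jX : F →+* A) (jY : k →+* B) (f : A →+* B)
    (hf : ∀ c, f (jX c) = jY (algebraMap F k c))
    (gen : ∀ b : B, ∃ (n : ℕ) (a : Fin n → A) (c : Fin n → k), b = ∑ j, f (a j) * jY (c j))
    (inj : ∀ (n : ℕ) (a : Fin n → A) (c : Fin n → k), LinearIndependent F c →
      ∑ j, f (a j) * jY (c j) = 0 → ∀ j, a j = 0)
    (f' : A →+* Ω) (g' : k →+* Ω) (h' : ∀ c, f' (jX c) = g' (algebraMap F k c)) :
    ∃ φ : B →+* Ω, (∀ a, φ (f a) = f' a) ∧ ∀ c, φ (jY c) = g' c := by
  classical
  letI : Algebra F A := jX.toAlgebra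
  letI : Algebra F B := (jY.comp (algebraMap F k)).toAlgebra
  letI : Algebra F Ω := (g'.comp (algebraMap F k)).toAlgebra
  let fa : A →ₐ[F] B := { f with commutes' := hf }
  let ga : k →ₐ[F] B := { jY with commutes' := fun _ => rfl }
  let fo : A →ₐ[F] Ω := { f' with commutes' := h' }
  let go : k →ₐ[F] Ω := { g' with commutes' := fun _ => rfl }
  let T : A ⊗[F] k →ₐ[F] B := Algebra.TensorProduct.productMap fa ga
  let T' : A ⊗[F] k →ₐ[F] Ω := Algebra.TensorProduct.productMap fo go
  have hT : ∀ a c, T (a ⊗ₜ c) = f a * jY c := fun a c =>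
    Algebra.TensorProduct.productMap_apply_tmul fa ga a c
  have hT' : ∀ a c, T' (a ⊗ₜ c) = f' a * g' c := fun a c =>
    Algebra.TensorProduct.productMap_apply_tmul fo go a c
  have hbij : Function.Bijective T := by
    constructor
    · rw [injective_iff_map_eq_zero]
      intro t ht
      obtain ⟨b, hb⟩ := TensorProduct.eq_repr_basis_right (Module.Basis.ofVectorSpace F k) t
      let ℬ := Module.Basis.ofVectorSpace F k
      let e := b.support.equivFin.symm
      have hli : LinearIndependent F fun j => ℬ (e j) :=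
        ℬ.linearIndependent.comp (fun j => ((e j : b.support) : _))
          (Subtype.val_injective.comp e.injective)
      have hsum : ∑ j, f (b (e j)) * jY (ℬ (e j)) = 0 := by
        have h1 := Equiv.sum_comp e (fun i : b.support => f (b i) * jY (ℬ i))
        rw [h1, Finset.sum_coe_sort b.support (fun i => f (b i) * jY (ℬ i))]
        rw [← ht, ← hb, Finsupp.sum, map_sum]
        exact Finset.sum_congr rfl fun i _ => (hT _ _).symm
      have h0 := inj _ (fun j => b (e j)) _ hli hsum
      have hb0 : b = 0 := by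
        ext i
        by_contra hi
        have hmem : i ∈ b.support := Finsupp.mem_support_iff.2 hi
        have h2 := h0 (e.symm ⟨i, hmem⟩)
        simp only [Equiv.apply_symm_apply] at h2
        exact hi h2
      rw [← hb, hb0, Finsupp.sum_zero_index]
    · intro b
      obtain ⟨n, a, c, rfl⟩ := gen b
      refine ⟨∑ j, a j ⊗ₜ c j, ?_⟩
      rw [map_sum]
      exact Finset.sum_congr rfl fun j _ => hT _ _
  let E := RingEquiv.ofBijective T hbij
  have hE : ∀ t, E.symm (T t) = t := fun t => E.symm_apply_apply t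
  refine ⟨(T' : A ⊗[F] k →+* Ω).comp (E.symm : B →+* A ⊗[F] k), ?_, ?_⟩
  · intro a
    have h1 : f a = T (a ⊗ₜ 1) := by rw [hT, map_one, mul_one]
    change T' (E.symm (f a)) = f' a
    rw [h1, hE, hT', map_one, mul_one]
  · intro c
    have h1 : jY c = T (1 ⊗ₜ c) := by rw [hT, map_one, one_mul]
    change T' (E.symm (jY c)) = g' c
    rw [h1, hE, hT', map_one, one_mul]

/-! ### schemes -/

theorem u12_const {k : Type} [Field k] {Y : Scheme.{0}} (s : k →+* Γ(Y, ⊤)) (W : Y.Opens)
    (y : Y) (hy : y ∈ W) (c : k) :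
    (Y.evaluation W y hy).hom
      ((Y.presheaf.map (homOfLE (le_top : W ≤ ⊤)).op).hom (s c)) = constAt s y c := by
  have h := TopCat.Presheaf.germ_res_apply Y.presheaf (homOfLE (le_top : W ≤ ⊤)) y hy (s c)
  exact congrArg (Y.residue y).hom h

section
variable {F k : Type} [Field F] [Field k] [Algebra F k] {Y X : Scheme.{0}} [IsIntegral Y]
  [IsIntegral X] {π : Y ⟶ X}

/-- U-12a -/
theorem constExt_at (C : ConstCov F k π) (y : Y) :
    ConstExt (constAt C.sX (π y)) (constAt C.sY y) (π.residueFieldMap y).hom := by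
  constructor
  · intro c
    have h1 := u13_eval (π := π) ⊤ y trivial (C.sX c)
    have h2 : (π.app ⊤).hom (C.sX c) = C.sY (algebraMap F k c) := C.comm c
    rw [h2] at h1
    exact h1
  · intro z
    have hi := C.P.integral
    obtain ⟨U, hU, hyU, -⟩ := exists_isAffineOpen_mem_and_subset (x := π y) (U := ⊤) trivial
    have hW : IsAffineOpen (π ⁻¹ᵁ U) := hU.preimage π
    have hyW : y ∈ π ⁻¹ᵁ U := hyU
    obtain ⟨b, s, hs, hz⟩ := bdm_isFrac hW hyW z
    letI := (π.residueFieldMap y).hom.toAlgebra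
    have hmem : ∀ b : Γ(Y, π ⁻¹ᵁ U), (Y.evaluation (π ⁻¹ᵁ U) y hyW).hom b ∈
        Algebra.adjoin (X.residueField (π y))
          (constAt C.sY y '' ((⊤ : IntermediateField F k) : Set k)) := by
      intro b
      obtain ⟨n, a, c, rfl⟩ := C.gen U hU b
      rw [map_sum]
      refine Subalgebra.sum_mem _ fun j _ => ?_
      rw [map_mul, u12_const, ← u13_eval U y hyU]
      refine Subalgebra.mul_mem _ ?_ ?_
      · exact Subalgebra.algebraMap_mem _ _
      · exact Algebra.subset_adjoin ⟨c j, trivial, rfl⟩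
    have hint : IsIntegral (X.residueField (π y))
        ((Y.evaluation (π ⁻¹ᵁ U) y hyW).hom s) := by
      obtain ⟨p, hp, hps⟩ := hi.isIntegral_app U hU s
      refine ⟨p.map (X.evaluation U (π y) hyU).hom, hp.map _, ?_⟩
      rw [Polynomial.eval₂_map]
      have h2 : (algebraMap (X.residueField (π y)) (Y.residueField y)).comp
          (X.evaluation U (π y) hyU).hom =
            ((Y.evaluation (π ⁻¹ᵁ U) y hyW).hom).comp (π.app U).hom := by
        ext a
        exact u13_eval U y hyU a
      rw [h2, ← Polynomial.hom_eval₂, hps, map_zero]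
    have hz2 : z = (Y.evaluation (π ⁻¹ᵁ U) y hyW).hom b *
        ((Y.evaluation (π ⁻¹ᵁ U) y hyW).hom s)⁻¹ := by
      rw [← hz, mul_inv_cancel_right₀ hs]
    have h3 : z ∈ Algebra.adjoin (X.residueField (π y))
          (constAt C.sY y '' ((⊤ : IntermediateField F k) : Set k)) := by
      rw [hz2]
      exact Subalgebra.mul_mem _ (hmem b) (hint.inv_mem (hmem s))
    have h4 : z ∈ Submodule.span (X.residueField (π y))
          (constAt C.sY y '' ((⊤ : IntermediateField F k) : Set k)) := by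
      have h4 : z ∈ Subalgebra.toSubmodule (Algebra.adjoin (X.residueField (π y))
          (constAt C.sY y '' ((⊤ : IntermediateField F k) : Set k))) := h3
      rw [Algebra.adjoin_eq_span] at h4
      have h5 : (Submonoid.closure (constAt C.sY y '' ((⊤ : IntermediateField F k) : Set k)) :
          Set (Y.residueField y)) = constAt C.sY y '' ((⊤ : IntermediateField F k) : Set k) := by
        have h6 : constAt C.sY y '' ((⊤ : IntermediateField F k) : Set k) =
            (((⊤ : IntermediateField F k).toSubfield.toSubmonoid.map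
              (constAt C.sY y : k →* Y.residueField y) : Submonoid (Y.residueField y)) :
                Set (Y.residueField y)) := rfl
        rw [h6, Submonoid.closure_eq]
      rwa [h5] at h4
    obtain ⟨n, a, c, h6⟩ := u02_span (⊤ : IntermediateField F k) z h4
    exact ⟨n, a, fun j => (c j : k), h6⟩

/-- The map of residue fields over a fixed point. -/
noncomputable def u12_map (π : Y ⟶ X) (x : X) (y : Y) (h : π y = x) :
    X.residueField x →+* Y.residueField y := by
  subst h
  exact (π.residueFieldMap y).hom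

theorem u12_map_eval (U : X.Opens) (x : X) (y : Y) (h : π y = x) (hx : x ∈ U)
    (hy : y ∈ π ⁻¹ᵁ U) (a : Γ(X, U)) :
    u12_map π x y h ((X.evaluation U x hx).hom a) =
      (Y.evaluation (π ⁻¹ᵁ U) y hy).hom ((π.app U).hom a) := by
  subst h
  exact u13_eval U y hx a

theorem u12_constExt (C : ConstCov F k π) (x : X) (y : Y) (h : π y = x) :
    ConstExt (constAt C.sX x) (constAt C.sY y) (u12_map π x y h) := by
  subst h
  exact constExt_at C y

theorem u12_degE (C : ConstCov F k π) (x : X) (y : Y) (h : π y = x) (E : IntermediateField F k) :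
    degE (constAt C.sY y) (u12_map π x y h) E =
      degE (constAt C.sY y) (π.residueFieldMap y).hom E := by
  subst h
  rfl

theorem u12_eval_sum (C : ConstCov F k π) (U : X.Opens) (x : X) (y : Y) (h : π y = x)
    (hx : x ∈ U) (hy : y ∈ π ⁻¹ᵁ U) {n : ℕ} (a : Fin n → Γ(X, U)) (c : Fin n → k) :
    (Y.evaluation (π ⁻¹ᵁ U) y hy).hom (∑ j, (π.app U).hom (a j) *
      (Y.presheaf.map (homOfLE (le_top : π ⁻¹ᵁ U ≤ ⊤)).op).hom (C.sY (c j))) =
    ∑ j, u12_map π x y h ((X.evaluation U x hx).hom (a j)) * constAt C.sY y (c j) := by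
  rw [map_sum]
  refine Finset.sum_congr rfl fun j _ => ?_
  rw [map_mul, u12_const, u12_map_eval U x y h hx hy]

theorem u12_point (C : ConstCov F k π) (x : X) (Ω : Type) [Field Ω]
    (i' : X.residueField x →+* Ω) (ik' : k →+* Ω)
    (h' : ∀ c, i' (constAt C.sX x c) = ik' (algebraMap F k c)) :
    ∃ (y : Y) (h : π y = x), ∀ (n : ℕ) (a : Fin n → X.residueField x) (c : Fin n → k),
      ∑ j, i' (a j) * ik' (c j) = 0 ↔
        ∑ j, u12_map π x y h (a j) * constAt C.sY y (c j) = 0 := by
  have hi := C.P.integral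
  obtain ⟨U, hU, hxU, -⟩ := exists_isAffineOpen_mem_and_subset (x := x) (U := ⊤) trivial
  have hW : IsAffineOpen (π ⁻¹ᵁ U) := hU.preimage π
  let jX : F →+* Γ(X, U) := (X.presheaf.map (homOfLE (le_top : U ≤ ⊤)).op).hom.comp C.sX
  let jY : k →+* Γ(Y, π ⁻¹ᵁ U) :=
    (Y.presheaf.map (homOfLE (le_top : π ⁻¹ᵁ U ≤ ⊤)).op).hom.comp C.sY
  have hf : ∀ c, (π.app U).hom (jX c) = jY (algebraMap F k c) := by
    intro c
    have h1 := congrArg (fun f => f.hom (C.sX c)) (π.naturality (homOfLE (le_top : U ≤ ⊤)).op)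
    have h2 : (π.app ⊤).hom (C.sX c) = C.sY (algebraMap F k c) := C.comm c
    have h3 : (π.app U).hom ((X.presheaf.map (homOfLE (le_top : U ≤ ⊤)).op).hom (C.sX c)) =
        (Y.presheaf.map (homOfLE (le_top : π ⁻¹ᵁ U ≤ ⊤)).op).hom
          ((π.app ⊤).hom (C.sX c)) := h1
    rw [h2] at h3
    exact h3
  obtain ⟨φ, hφ1, hφ2⟩ := u12_lift jX jY (π.app U).hom hf (C.gen U hU) (C.inj U hU)
    (i'.comp (X.evaluation U x hxU).hom) ik' (by
      intro c
      have h1 := u12_const C.sX U x hxU c
      change i' ((X.evaluation U x hxU).hom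
        ((X.presheaf.map (homOfLE (le_top : U ≤ ⊤)).op).hom (C.sX c))) = _
      rw [h1, h'])
  have hq : (RingHom.ker φ).IsPrime := RingHom.ker_isPrime φ
  let P : PrimeSpectrum Γ(Y, π ⁻¹ᵁ U) := ⟨RingHom.ker φ, hq⟩
  have hm : hW.fromSpec P ∈ π ⁻¹ᵁ U := af_mem hW P
  have hev : ∀ b, (Y.evaluation (π ⁻¹ᵁ U) (hW.fromSpec P) hm).hom b = 0 ↔ φ b = 0 := by
    intro b
    rw [dgen_mem_asIdeal hW P hm b]
    exact RingHom.mem_ker
  have hpi : ∀ a : Γ(X, U), (X.evaluation U (π (hW.fromSpec P)) hm).hom a = 0 ↔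
      (X.evaluation U x hxU).hom a = 0 := by
    intro a
    have h1 := u13_eval (π := π) U (hW.fromSpec P) hm a
    constructor
    · intro h2
      rw [h2, map_zero] at h1
      have h3 := (hev _).1 h1.symm
      rw [hφ1] at h3
      exact (map_eq_zero i').1 h3
    · intro h2
      have h3 : φ ((π.app U).hom a) = 0 := by
        rw [hφ1]
        change i' ((X.evaluation U x hxU).hom a) = 0
        rw [h2, map_zero]
      rw [(hev _).2 h3] at h1
      exact (map_eq_zero _).1 h1
  have hx : π (hW.fromSpec P) = x := by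
    have h1 : π (hW.fromSpec P) ⤳ x := specializes_of_eval U hU hm hxU fun a => (hpi a).1
    have h2 : x ⤳ π (hW.fromSpec P) := specializes_of_eval U hU hxU hm fun a => (hpi a).2
    exact (h1.antisymm h2).eq
  refine ⟨hW.fromSpec P, hx, ?_⟩
  intro n a c
  obtain ⟨s, α, hs, hα⟩ := u12_common _ (bdm_isFrac hU hxU) a
  rw [u12_scale i' ik' hs a _ hα c, u12_scale (u12_map π x _ hx) _ hs a _ hα c,
    ← u12_eval_sum C U x _ hx hxU hm, hev, map_sum]
  have h1 : ∀ j, φ ((π.app U).hom (α j) *
      (Y.presheaf.map (homOfLE (le_top : π ⁻¹ᵁ U ≤ ⊤)).op).hom (C.sY (c j))) =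
      i' ((X.evaluation U x hxU).hom (α j)) * ik' (c j) := by
    intro j
    rw [map_mul, hφ1]
    congr 1
    exact hφ2 (c j)
  rw [Finset.sum_congr rfl fun j _ => h1 j]

theorem u12_inj (C : ConstCov F k π) (x : X) (y y' : Y) (h : π y = x) (h' : π y' = x)
    (H : ∀ (n : ℕ) (a : Fin n → X.residueField x) (c : Fin n → k),
      ∑ j, u12_map π x y h (a j) * constAt C.sY y (c j) = 0 ↔
        ∑ j, u12_map π x y' h' (a j) * constAt C.sY y' (c j) = 0) : y = y' := by
  have hi := C.P.integral
  obtain ⟨U, hU, hxU, -⟩ := exists_isAffineOpen_mem_and_subset (x := x) (U := ⊤) trivial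
  have hW : IsAffineOpen (π ⁻¹ᵁ U) := hU.preimage π
  have hy : y ∈ π ⁻¹ᵁ U := by
    change π y ∈ U
    rw [h]
    exact hxU
  have hy' : y' ∈ π ⁻¹ᵁ U := by
    change π y' ∈ U
    rw [h']
    exact hxU
  have key : ∀ b, (Y.evaluation (π ⁻¹ᵁ U) y hy).hom b = 0 ↔
      (Y.evaluation (π ⁻¹ᵁ U) y' hy').hom b = 0 := by
    intro b
    obtain ⟨n, a, c, rfl⟩ := C.gen U hU b
    rw [u12_eval_sum C U x y h hxU hy, u12_eval_sum C U x y' h' hxU hy']
    exact H n _ c
  have h1 : y ⤳ y' := specializes_of_eval _ hW hy hy' fun b => (key b).1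
  have h2 : y' ⤳ y := specializes_of_eval _ hW hy' hy fun b => (key b).2
  exact (h1.antisymm h2).eq

end

section
variable {F k : Type} [Field F] [Field k] [Algebra F k] {Y X : Scheme.{0}} [IsIntegral Y]
  [IsIntegral X] {π : Y ⟶ X}

/-- U-12b -/
theorem count_at [IsNoetherian Y] [IsNoetherian X] [Algebra.IsSeparable F k]
    (C : ConstCov F k π) (x : X) :
    {y : Y | π y = x}.Finite ∧ ∃ E₀ : IntermediateField F k, FiniteDimensional F E₀ ∧
      ∀ E : IntermediateField F k, E₀ ≤ E → FiniteDimensional F E →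
        ∑ᶠ y ∈ {y : Y | π y = x}, degE (constAt C.sY y) (π.residueFieldMap y).hom E =
          Module.finrank F E := by
  have hfin := u14a_fibre_finite C.P x
  refine ⟨hfin, ?_⟩
  have hfi : Finite {y : Y | π y = x} := hfin
  obtain ⟨E₀, hE₀, hE⟩ := degE_count (constAt C.sX x) (I := {y : Y | π y = x})
    (fun y => Y.residueField y.1) (fun y => u12_map π x y.1 y.2)
    (fun y => constAt C.sY y.1) (fun y => u12_constExt C x y.1 y.2)
    (fun y y' H => Subtype.ext (u12_inj C x y.1 y'.1 y.2 y'.2 H))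
    (fun Ω' _ i' ik' h' => by
      obtain ⟨y, hy, H⟩ := u12_point C x Ω' i' ik' h'
      exact ⟨⟨y, hy⟩, H⟩)
  refine ⟨E₀, hE₀, fun E h1 h2 => ?_⟩
  rw [← hE E h1 h2, ← finsum_set_coe_eq_finsum_mem]
  exact finsum_congr fun y => (u12_degE C x y.1 y.2 E).symm

end

end Pool.Agent.K1
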