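import Pool.Agent.K1.BDefs
import Pool.Agent.K1.TOrd
import Pool.Agent.K1.DDefs

/-!
Descent, in all dimensions, from the algebraic closure of the base field to the base field:
definitions.
-/

set_option autoImplicit false

open AlgebraicGeometry CategoryTheory

namespace Pool.Agent.K1

section fields

/-- The field `L` is generated by the field `K` and the constants in `k`; the ground field is
`F`. -/
structure ConstExt {F k K L : Type} [Field F] [Field k] [Field K] [Field L] [Algebra F k]
    (iF : F →+* K) (ik : k →+* L) (i : K →+* L) : Prop where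
  comm : ∀ c : F, i (iF c) = ik (algebraMap F k c)
  gen : ∀ z : L, ∃ (n : ℕ) (a : Fin n → K) (c : Fin n → k), z = ∑ j, i (a j) * ik (c j)

/-- The subfield of `L` generated by `K` and the constants in `E`. -/
def kE {F k K L : Type} [Field F] [Field k] [Field K] [Field L] [Algebra F k]
    (ik : k →+* L) (i : K →+* L) (E : IntermediateField F k) : Subfield L :=
  Subfield.closure (Set.range i ∪ ik '' (E : Set k))

/-- The map from `K` to the subfield generated by `K` and the constants in `E`. -/
def kEmap {F k K L : Type} [Field F] [Field k] [Field K] [Field L] [Algebra F k]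
    (ik : k →+* L) (i : K →+* L) (E : IntermediateField F k) : K →+* kE ik i E :=
  i.codRestrict _ fun z => Subfield.subset_closure (Or.inl ⟨z, rfl⟩)

/-- The map from the constants in `E` to the subfield generated by `K` and `E`. -/
def kEconst {F k K L : Type} [Field F] [Field k] [Field K] [Field L] [Algebra F k]
    (ik : k →+* L) (i : K →+* L) (E : IntermediateField F k) : E →+* kE ik i E :=
  (ik.comp (algebraMap E k)).codRestrict _ fun z =>
    Subfield.subset_closure (Or.inr ⟨z, z.2, rfl⟩)

/-- The degree of an extension of fields. -/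
noncomputable def degR {A B : Type} [Field A] [Field B] (φ : A →+* B) : ℕ :=
  letI := φ.toAlgebra
  Module.finrank A B

/-- The degree over `K` of the subfield of `L` generated by `K` and the constants in `E`. -/
noncomputable def degE {F k K L : Type} [Field F] [Field k] [Field K] [Field L] [Algebra F k]
    (ik : k →+* L) (i : K →+* L) (E : IntermediateField F k) : ℕ :=
  degR (kEmap ik i E)

/-- The inclusion of the restriction of a valuation ring. -/
def comapIncl {K L : Type} [Field K] [Field L] (i : K →+* L) (V' : ValuationSubring L) :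
    V'.comap i →+* V' :=
  (i.comp (V'.comap i).subtype).codRestrict V'.toSubring fun z => z.2

theorem comapIncl_coe {K L : Type} [Field K] [Field L] (i : K →+* L) (V' : ValuationSubring L)
    (a : V'.comap i) : ((comapIncl i V' a : V') : L) = i a := rfl

instance comapIncl_local {K L : Type} [Field K] [Field L] (i : K →+* L)
    (V' : ValuationSubring L) : IsLocalHom (comapIncl i V') := by
  constructor
  intro a ha
  rw [tord_isUnit_iff] at ha ⊢
  rw [comapIncl_coe] at ha
  refine ⟨fun h0 => ha.1 (by rw [h0, map_zero]), ?_⟩
  rw [ValuationSubring.mem_comap, map_inv₀]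
  exact ha.2

/-- The map of residue fields of a valuation ring and its restriction to a smaller field. -/
noncomputable def comapRes {K L : Type} [Field K] [Field L] (i : K →+* L)
    (V' : ValuationSubring L) :
    IsLocalRing.ResidueField (V'.comap i) →+* IsLocalRing.ResidueField V' :=
  IsLocalRing.ResidueField.map (comapIncl i V')

theorem comapRes_residue {K L : Type} [Field K] [Field L] (i : K →+* L)
    (V' : ValuationSubring L) (a : V'.comap i) :
    comapRes i V' (IsLocalRing.residue _ a) = IsLocalRing.residue V' (comapIncl i V' a) := rfl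

/-- The constants in the residue field of a valuation ring. -/
noncomputable def constRes {k L : Type} [Field k] [Field L] (ik : k →+* L)
    (V' : ValuationSubring L) (h : ∀ c, ik c ∈ V') : k →+* IsLocalRing.ResidueField V' :=
  (IsLocalRing.residue V').comp (ik.codRestrict V'.toSubring h)

/-- The component at a point with residue field `κ` of the boundary of `{a, b}`, where `S` is the
set of the valuation rings over the point. -/
def IsBdS {K κ : Type} [Field K] [Field κ] (S : Finset (ValuationSubring K))
    (φ : ∀ V ∈ S, κ →+* IsLocalRing.ResidueField V) (a b : Kˣ) (t : κˣ) : Prop :=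
  ∃ c : ValuationSubring K → κˣ, (∀ (V) (hV : V ∈ S), ∃ u : (IsLocalRing.ResidueField V)ˣ,
    IsTameVal V a b u ∧ (c V : κ) = (letI := (φ V hV).toAlgebra;
      Algebra.norm κ (u : IsLocalRing.ResidueField V))) ∧ t = ∏ V ∈ S, c V

end fields

section schemes

/-- The morphism `π : Y ⟶ X` is the base change of the `F`-scheme `X` to the field `k`. -/
structure ConstCov (F k : Type) [Field F] [Field k] [Algebra F k] {Y X : Scheme.{0}}
    [IsIntegral Y] [IsIntegral X] (π : Y ⟶ X) where
  P : ProEt π
  /-- the constants on `X` -/
  sX : F →+* Γ(X, ⊤)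
  /-- the constants on `Y` -/
  sY : k →+* Γ(Y, ⊤)
  comm : ∀ c : F, π.appTop.hom (sX c) = sY (algebraMap F k c)
  gen : ∀ U : X.Opens, IsAffineOpen U → ∀ b : Γ(Y, π ⁻¹ᵁ U), ∃ (n : ℕ) (a : Fin n → Γ(X, U))
    (c : Fin n → k), b = ∑ j, (π.app U).hom (a j) *
      (Y.presheaf.map (homOfLE (le_top : π ⁻¹ᵁ U ≤ ⊤)).op).hom (sY (c j))
  inj : ∀ U : X.Opens, IsAffineOpen U → ∀ (n : ℕ) (a : Fin n → Γ(X, U)) (c : Fin n → k),
    LinearIndependent F c → ∑ j, (π.app U).hom (a j) *
      (Y.presheaf.map (homOfLE (le_top : π ⁻¹ᵁ U ≤ ⊤)).op).hom (sY (c j)) = 0 → ∀ j, a j = 0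

/-- The constants in the residue field of a point. -/
noncomputable def constAt {k : Type} [Field k] {Y : Scheme.{0}} (s : k →+* Γ(Y, ⊤)) (y : Y) :
    k →+* Y.residueField y :=
  (Y.residue y).hom.comp ((Y.presheaf.germ ⊤ y trivial).hom.comp s)

/-- The chain `η` is the pull back of the chain `ξ`. -/
def IsPullK {Y X : Scheme.{0}} (π : Y ⟶ X) {m : ℕ} (ξ : KChain X m) (η : KChain Y m) : Prop :=
  ∀ (y : PointCo Y m) (h : Order.coheight (π y.1) = m),
    Additive.toMul (η y) =
      Units.map (π.residueFieldMap y.1).hom.toMonoidHom (Additive.toMul (ξ ⟨π y.1, h⟩))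

/-- The relation between the chain `ξ` and tame symbols on surfaces, as provided by the
theorem over an algebraically closed field. -/
structure RefRel {X : Scheme.{0}} (m : ℕ) (ξ : KChain X (m + 1)) where
  /-- the classes -/
  cl : Type
  fin : Finite cl
  /-- the surfaces -/
  s : cl → PointCo X m
  r : cl → ℕ
  f : ∀ c, Fin (r c) → (X.residueField (s c).1)ˣ
  g : ∀ c, Fin (r c) → (X.residueField (s c).1)ˣ
  N : cl → ℕ
  pos : ∀ c, 0 < N c
  /-- the class of a curve -/
  cls : PointCo X (m + 1) → Option cl
  tors : ∀ x, cls x = none → ∃ M : ℕ, 0 < M ∧ M • ξ x = 0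
  sp : ∀ x c, cls x = some c → ∃ (h : (s c).1 ⤳ x.1)
    (V : ValuationSubring (X.residueField (s c).1)), Dominates h V ∧
      (∀ V', Dominates h V' → V' = V) ∧
      ∀ z : IsLocalRing.ResidueField V, ∃ (b : X.presheaf.stalk x.1) (b' : V),
        (b' : X.residueField (s c).1) = evalAt h b ∧ IsLocalRing.residue V b' = z
  tame : ∀ (c : cl) (x : PointCo X (m + 1)) (h : (s c).1 ⤳ x.1)
    (V : ValuationSubring (X.residueField (s c).1)), Dominates h V →
      ∃ t : Fin (r c) → (IsLocalRing.ResidueField V)ˣ, (∀ i, IsTameVal V (f c i) (g c i) (t i)) ∧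
        (cls x = some c → ∀ (u : (X.presheaf.stalk x.1)ˣ) (u' : V),
          (X.residue x.1).hom u =
            ((Additive.toMul (ξ x) : (X.residueField x.1)ˣ) : X.residueField x.1) →
          (u' : X.residueField (s c).1) = evalAt h u →
          ((∏ i, t i : (IsLocalRing.ResidueField V)ˣ) : IsLocalRing.ResidueField V) =
            IsLocalRing.residue V u' ^ N c) ∧
        (cls x ≠ some c → ∏ i, t i = 1)

end schemes

end Pool.Agent.K1
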