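import Pool.Agent.K1.UDefs
import Pool.Agent.K1.BFinBd
import Pool.Agent.K1.UFin

/-!
Descent, row U-15b: the valuation rings dominating a point and the boundary of a symbol, for
schemes locally of finite type over a perfect field.
-/

set_option autoImplicit false
set_option linter.unusedSectionVars false

open AlgebraicGeometry CategoryTheory

attribute [local instance] MvPolynomial.gradedAlgebra

namespace Pool.Agent.K1

section
variable {F : Type} [Field F] [PerfectField F] {X : Scheme.{0}} [IsIntegral X] [IsNoetherian X]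
  (str : X ⟶ Spec (CommRingCat.of F)) [LocallyOfFiniteType str]

include str

/-- U-15c -/
theorem dom_finite_perfect {m : ℕ} (η : PointCo X m) (x : PointCo X (m + 1))
    (h : η.1 ⤳ x.1) :
    {V : ValuationSubring (X.residueField η.1) | Dominates h V}.Finite ∧
    ∀ V : ValuationSubring (X.residueField η.1), Dominates h V →
      IsDiscreteValuationRing V ∧
      ∃ φ : X.residueField x.1 →+* IsLocalRing.ResidueField V,
        (∀ (b : X.presheaf.stalk x.1) (b' : V), (b' : X.residueField η.1) = evalAt h b →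
          φ ((X.residue x.1).hom b) = IsLocalRing.residue V b') ∧ φ.Finite := by
  obtain ⟨U, hU, hj, -⟩ := exists_isAffineOpen_mem_and_subset (X := X) (x := x.1) (U := ⊤) trivial
  have hηU : η.1 ∈ U := h.mem_open U.isOpen hj
  let f : CommRingCat.of F ⟶ Γ(X, U) :=
    (Scheme.ΓSpecIso (CommRingCat.of F)).inv ≫ str.appLE ⊤ U le_top
  let _ : Algebra F Γ(X, U) := f.hom.toAlgebra
  have hft : Algebra.FiniteType F Γ(X, U) := by
    have h1 : (str.appLE ⊤ U le_top).hom.FiniteType :=
      str.finiteType_appLE (isAffineOpen_top _) hU le_top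
    have h2 : ((Scheme.ΓSpecIso (CommRingCat.of F)).inv).hom.FiniteType :=
      RingHom.FiniteType.of_surjective _
        (ConcreteCategory.bijective_of_isIso (Scheme.ΓSpecIso (CommRingCat.of F)).inv).2
    exact h1.comp h2
  have hle : RingHom.ker (X.evaluation U η.1 hηU).hom ≤
      RingHom.ker (X.evaluation U x.1 hj).hom := fun a ha =>
    (specializes_iff_chart U hU hj hηU).1 h a ha
  have h1 := (bdm_coheight hU hηU).symm.trans η.2
  have h2 := (bdm_coheight hU hj).symm.trans x.2
  obtain ⟨hfin, hval⟩ := bdm_ring_perfect (k := F) (X.evaluation U η.1 hηU).hom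
    (X.evaluation U x.1 hj).hom (bdm_isFrac hU hηU) (bdm_isFrac hU hj) hle m h1 h2
  have hiff : ∀ V : ValuationSubring (X.residueField η.1), Dominates h V ↔
      DomR (X.evaluation U η.1 hηU).hom (X.evaluation U x.1 hj).hom V := fun V =>
    dominates_iff U hU h hj hηU V
  refine ⟨?_, ?_⟩
  · have : {V : ValuationSubring (X.residueField η.1) | Dominates h V} =
        {V : ValuationSubring (X.residueField η.1) |
          DomR (X.evaluation U η.1 hηU).hom (X.evaluation U x.1 hj).hom V} := Set.ext hiff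
    rw [this]
    exact hfin
  · intro V hV
    obtain ⟨hdvr, φ, hφ, hφf⟩ := hval V ((hiff V).1 hV)
    exact ⟨hdvr, φ, fun b b' hb => bdm_isRes hU h hj hηU V hV φ hφ b b' hb, hφf⟩

end

/-- As `finite_nonunit`, without an embedding. -/
theorem u15_finite_nonunit {X : Scheme.{0}} [IsNoetherian X] {m : ℕ} (η : PointCo X m)
    (f : (X.residueField η.1)ˣ) :
    {x : PointCo X (m + 1) | ∃ h : η.1 ⤳ x.1, ¬ ∃ s : (X.presheaf.stalk x.1)ˣ,
      evalAt h s = f}.Finite := by
  obtain ⟨a, ha⟩ := X.residue_surjective η.1 (f : X.residueField η.1)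
  obtain ⟨U, hU, s, hs⟩ := X.presheaf.exists_germ_eq a
  have hmem : η.1 ∈ X.basicOpen s := by
    rw [X.mem_basicOpen s η.1 hU]
    have h0 : IsUnit a := by
      have h1 : (X.residue η.1).hom a ≠ 0 := by
        have e : (X.residue η.1).hom a = (f : X.residueField η.1) := ha
        rw [e]
        exact Units.ne_zero _
      exact (IsLocalRing.residue_ne_zero_iff_isUnit a).mp h1
    rw [← hs] at h0
    exact h0
  have hres : (X.residue η.1).hom ((X.presheaf.germ U η.1 hU).hom s) =
      (f : X.residueField η.1) := by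
    have hs' : (X.presheaf.germ U η.1 hU).hom s = a := hs
    rw [hs']
    exact ha
  refine (bfin_of_closed η (closure {η.1} \ (X.basicOpen s : Set X))
    (isClosed_closure.sdiff (X.basicOpen s).2) (fun h => h.2 hmem)
    (fun y hy => specializes_iff_mem_closure.mpr hy.1)).subset ?_
  rintro x ⟨h, hx⟩
  refine ⟨specializes_iff_mem_closure.mp h, fun hxb => hx ?_⟩
  have hyU : x.1 ∈ U := X.basicOpen_le s hxb
  have hun : IsUnit ((X.presheaf.germ U x.1 hyU).hom s) := (X.mem_basicOpen s x.1 hyU).mp hxb
  refine ⟨hun.unit, ?_⟩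
  rw [IsUnit.unit_spec, evalAt, RingHom.comp_apply]
  have hg : (X.presheaf.stalkSpecializes h).hom ((X.presheaf.germ U x.1 hyU).hom s) =
      (X.presheaf.germ U η.1 hU).hom s := by
    have h1 := X.presheaf.germ_stalkSpecializes hyU h
    exact congrArg (fun f => f.hom s) h1
  rw [hg, hres]

section
variable {F : Type} [Field F] [PerfectField F] {X : Scheme.{0}} [IsIntegral X] [IsNoetherian X]
  (str : X ⟶ Spec (CommRingCat.of F)) [LocallyOfFiniteType str]

include str

/-- the component of the boundary at a point -/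
theorem u15_exists_bdAt {m : ℕ} (η : PointCo X m)
    (x : PointCo X (m + 1)) (f g : (X.residueField η.1)ˣ) :
    ∃ t, IsBdAt η.1 x.1 f g t := by
  classical
  by_cases h : η.1 ⤳ x.1
  · obtain ⟨hfin, hdom⟩ := dom_finite_perfect str η x h
    have key : ∀ V : ValuationSubring (X.residueField η.1), ∃ c : (X.residueField x.1)ˣ,
        Dominates h V → IsNormTame h V f g c := by
      intro V
      by_cases hV : Dominates h V
      · obtain ⟨hdvr, φ, hφ, hφf⟩ := hdom V hV
        obtain ⟨t, ht⟩ := exists_isTameV V hdvr (f : X.residueField η.1) (g : X.residueField η.1)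
          (Units.ne_zero f) (Units.ne_zero g)
        letI := φ.toAlgebra
        exact ⟨Units.map (Algebra.norm (X.residueField x.1) :
          IsLocalRing.ResidueField V →* X.residueField x.1) t, fun _ =>
          ⟨φ, t, hφ, hφf, (isTameVal_iff V f g t).2 ht, rfl⟩⟩
      · exact ⟨1, fun h' => absurd h' hV⟩
    choose c hc using key
    refine ⟨∏ V ∈ hfin.toFinset, c V, fun h' => absurd h h', fun h' =>
      ⟨hfin.toFinset, c, fun V => by rw [Set.Finite.mem_toFinset]; rfl, fun V hV => hc V ?_, rfl⟩⟩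
    rw [Set.Finite.mem_toFinset] at hV
    exact hV
  · exact ⟨1, fun _ => rfl, fun h' => absurd h' h⟩

theorem u15_bdAt_one {m : ℕ} (η : PointCo X m)
    (x : PointCo X (m + 1)) (f g : (X.residueField η.1)ˣ)
    (hf : ∀ h : η.1 ⤳ x.1, ∃ s : (X.presheaf.stalk x.1)ˣ, evalAt h s = f)
    (hg : ∀ h : η.1 ⤳ x.1, ∃ s : (X.presheaf.stalk x.1)ˣ, evalAt h s = g) :
    IsBdAt η.1 x.1 f g 1 := by
  classical
  refine ⟨fun _ => rfl, fun h => ?_⟩
  obtain ⟨hfin, hdom⟩ := dom_finite_perfect str η x h
  obtain ⟨a, ha⟩ := hf h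
  obtain ⟨b, hb⟩ := hg h
  refine ⟨hfin.toFinset, fun _ => 1, fun V => by rw [Set.Finite.mem_toFinset]; rfl,
    fun V hV => ?_, by rw [Finset.prod_const_one]⟩
  rw [Set.Finite.mem_toFinset] at hV
  have hV' : Dominates h V := hV
  obtain ⟨hdvr, φ, hφ, hφf⟩ := hdom V hV'
  obtain ⟨u, hu⟩ := bfin_exists_unit h V hV' a
  obtain ⟨w, hw⟩ := bfin_exists_unit h V hV' b
  have h1 := isTameV_units V hdvr u w
  rw [hu, hw, ha, hb] at h1
  refine ⟨φ, 1, hφ, hφf, (isTameVal_iff V f g 1).2 h1, ?_⟩
  letI := φ.toAlgebra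
  change ((1 : (X.residueField x.1)ˣ) : X.residueField x.1) =
    Algebra.norm (X.residueField x.1) ((1 : (IsLocalRing.ResidueField V)ˣ) :
      IsLocalRing.ResidueField V)
  rw [Units.val_one, Units.val_one, map_one]

/-- U-15d -/
theorem exists_bd_perfect {m : ℕ} (η : PointCo X m) (f g : (X.residueField η.1)ˣ) :
    ∃ ξ : KChain X (m + 1), ∀ x : PointCo X (m + 1),
      IsBdAt η.1 x.1 f g (Additive.toMul (ξ x)) := by
  classical
  have hfin := (u15_finite_nonunit η f).union (u15_finite_nonunit η g)
  choose t ht using fun x : PointCo X (m + 1) => u15_exists_bdAt str η x f g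
  refine ⟨DFinsupp.mk hfin.toFinset fun x => Additive.ofMul (t x.1), ?_⟩
  intro x
  rw [DFinsupp.mk_apply]
  split_ifs with hx
  · exact ht x
  · rw [Set.Finite.mem_toFinset] at hx
    refine u15_bdAt_one str η x f g (fun h => ?_) (fun h => ?_)
    · by_contra hne
      exact hx (Or.inl ⟨h, hne⟩)
    · by_contra hne
      exact hx (Or.inr ⟨h, hne⟩)

end

end Pool.Agent.K1
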