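import Mathlib

/-!
Large finite Galois extensions: finitely many finite subextensions of an algebraically closed
algebraic extension of a perfect field lie in one finite Galois subextension.
-/

set_option autoImplicit false

namespace Pool.Agent.K1

/-- U-16 : large finite Galois extensions -/
theorem exists_galois_above {F k : Type} [Field F] [PerfectField F] [Field k] [IsAlgClosed k]
    [Algebra F k] [Algebra.IsAlgebraic F k] (s : Set (IntermediateField F k)) (hs : s.Finite)
    (h : ∀ E ∈ s, FiniteDimensional F E) :
    ∃ E : IntermediateField F k, FiniteDimensional F E ∧ IsGalois F E ∧ ∀ E' ∈ s, E' ≤ E := by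
  classical
  have hfin : FiniteDimensional F (⨆ E ∈ hs.toFinset, E : IntermediateField F k) := by
    apply IntermediateField.finiteDimensional_iSup_of_finset'
    intro E hE
    exact h E (by simpa using hE)
  have hclo : IsAlgClosure F k := ⟨inferInstance, inferInstance⟩
  have hnk : Normal F k := IsAlgClosure.normal F k
  refine ⟨IntermediateField.normalClosure F (⨆ E ∈ hs.toFinset, E : IntermediateField F k) k,
    inferInstance, ?_, ?_⟩
  · have hn : Normal F (IntermediateField.normalClosure F
        (⨆ E ∈ hs.toFinset, E : IntermediateField F k) k) := inferInstance
    have hsep : Algebra.IsSeparable F (IntermediateField.normalClosure F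
        (⨆ E ∈ hs.toFinset, E : IntermediateField F k) k) := inferInstance
    exact ⟨⟩
  · intro E' hE'
    refine le_trans ?_ (IntermediateField.le_normalClosure _)
    exact le_iSup₂_of_le E' (by simpa using hE') le_rfl

end Pool.Agent.K1
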