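import Pool.Agent.K1.UDefs
import Pool.Agent.K1.UConstVal
import Pool.Agent.K1.UFields
import Pool.Agent.K1.UClass
import Pool.Agent.K1.UDegRes
import Pool.Agent.K1.UCount
import Pool.Agent.K1.UCentre
import Pool.Agent.K1.UDom
import Pool.Agent.K1.UGalAbove
import Pool.Agent.K1.DGen
import Pool.Agent.K1.DSymb
import Pool.Agent.K1.DDim

/-!
Descent of the refined relation from the algebraic closure of the base field to the base field
(assembly).

Over the algebraically closed field `k` the relation `R` writes a multiple of the pulled back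
chain as a sum of tame symbols on surfaces, class by class.  For every class the symbols are
defined over `K E`, where `K` is the residue field of the image of the surface and `E` a finite
Galois extension of the base field `F`; their norms to `K` are symbols, and the number of the
points of `Y` over a curve `x` of `X`, counted with degrees over `κ(x)`, is `[E : F]`.
-/

set_option autoImplicit false

open AlgebraicGeometry CategoryTheory

namespace Pool.Agent.K1

/-! ### residue fields -/

theorem u17_mem {X : Scheme.{0}} {η x : X} (h : η ⤳ x) (V : ValuationSubring (X.residueField η))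
    (hV : Dominates h V) (b : X.presheaf.stalk x) : evalAt h b ∈ V := (hV b).1

theorem u17_res {X : Scheme.{0}} {η x : X} (h : η ⤳ x) (V : ValuationSubring (X.residueField η))
    (hV : Dominates h V) : ∃ e : X.residueField x →+* IsLocalRing.ResidueField V,
      ∀ (b : X.presheaf.stalk x) (b' : V), (b' : X.residueField η) = evalAt h b →
        e ((X.residue x).hom b) = IsLocalRing.residue V b' := by
  let g : X.presheaf.stalk x →+* V := (evalAt h).codRestrict V.toSubring fun b => (hV b).1
  have hg : IsLocalHom g := by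
    constructor
    intro b hb
    by_contra hb'
    have h1 : evalAt h b ∈ V.nonunits := (hV b).2 hb'
    have h2 : (g b : X.residueField η) = evalAt h b := rfl
    rw [← h2, ValuationSubring.coe_mem_nonunits_iff] at h1
    exact h1 hb
  refine ⟨IsLocalRing.ResidueField.map g, fun b b' hb => ?_⟩
  have h3 : b' = g b := Subtype.ext hb
  rw [h3]
  rfl

theorem u17_evalAt_const {Y : Scheme.{0}} {y x : Y} (h : y ⤳ x) (r : Γ(Y, ⊤)) :
    evalAt h ((Y.presheaf.germ ⊤ x trivial).hom r) =
      (Y.residue y).hom ((Y.presheaf.germ ⊤ y trivial).hom r) := by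
  have h1 := TopCat.Presheaf.germ_stalkSpecializes_apply Y.presheaf (U := ⊤) (y := x) trivial h r
  change (Y.residue y).hom ((Y.presheaf.stalkSpecializes h).hom _) = _
  exact congrArg (Y.residue y).hom h1

theorem u17_const {k : Type} [Field k] {Y : Scheme.{0}} (s : k →+* Γ(Y, ⊤)) {y x : Y}
    (h : y ⤳ x) (V : ValuationSubring (Y.residueField y)) (hk : ∀ c, constAt s y c ∈ V)
    (e : Y.residueField x →+* IsLocalRing.ResidueField V)
    (he : ∀ (b : Y.presheaf.stalk x) (b' : V), (b' : Y.residueField y) = evalAt h b →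
        e ((Y.residue x).hom b) = IsLocalRing.residue V b') :
    e.comp (constAt s x) = constRes (constAt s y) V hk := by
  ext c
  change e ((Y.residue x).hom ((Y.presheaf.germ ⊤ x trivial).hom (s c))) =
    IsLocalRing.residue V ⟨constAt s y c, hk c⟩
  exact he _ _ (u17_evalAt_const h (s c)).symm

theorem u17_residueFieldMap {Y X : Scheme.{0}} (π : Y ⟶ X) (x : Y)
    (b : X.presheaf.stalk (π x)) : (π.residueFieldMap x).hom ((X.residue (π x)).hom b) =
      (Y.residue x).hom ((π.stalkMap x).hom b) :=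
  DFunLike.congr_fun (CommRingCat.hom_ext_iff.mp (Scheme.residue_residueFieldMap π x)) _

theorem u17_comp {Y X : Scheme.{0}} (π : Y ⟶ X) {y x : Y} (h : y ⤳ x) (h' : π y ⤳ π x)
    (V : ValuationSubring (Y.residueField y))
    (hV : Dominates h' (V.comap (π.residueFieldMap y).hom))
    (e : Y.residueField x →+* IsLocalRing.ResidueField V)
    (he : ∀ (b : Y.presheaf.stalk x) (b' : V), (b' : Y.residueField y) = evalAt h b →
        e ((Y.residue x).hom b) = IsLocalRing.residue V b')
    (φ : X.residueField (π x) →+*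
      IsLocalRing.ResidueField (V.comap (π.residueFieldMap y).hom))
    (hφ : ∀ (b : X.presheaf.stalk (π x)) (b' : V.comap (π.residueFieldMap y).hom),
      (b' : X.residueField (π y)) = evalAt h' b →
        φ ((X.residue (π x)).hom b) = IsLocalRing.residue _ b') :
    e.comp (π.residueFieldMap x).hom =
      (comapRes (π.residueFieldMap y).hom V).comp φ := by
  ext z
  obtain ⟨b, rfl⟩ := X.residue_surjective (π x) z
  change e ((π.residueFieldMap x).hom ((X.residue (π x)).hom b)) =
    comapRes (π.residueFieldMap y).hom V (φ ((X.residue (π x)).hom b))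
  rw [u17_residueFieldMap, hφ b ⟨evalAt h' b, (hV b).1⟩ rfl, comapRes_residue]
  refine he _ _ ?_
  rw [comapIncl_coe, evalAt_pi π h h']

/-- A surjective image of a constant extension is a constant extension. -/
theorem u17_constExt {F k K L L' : Type} [Field F] [Field k] [Field K] [Field L] [Field L']
    [Algebra F k] {iF : F →+* K} {ik : k →+* L} {i : K →+* L} (h : ConstExt iF ik i)
    (e : L →+* L') (he : Function.Surjective e) : ConstExt iF (e.comp ik) (e.comp i) where
  comm c := congrArg e (h.comm c)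
  gen z := by
    obtain ⟨w, rfl⟩ := he z
    obtain ⟨n, a, c, rfl⟩ := h.gen w
    refine ⟨n, a, c, ?_⟩
    rw [map_sum]
    exact Finset.sum_congr rfl fun j _ => map_mul _ _ _

theorem u17_kE_mono {F k K L : Type} [Field F] [Field k] [Field K] [Field L] [Algebra F k]
    (ik : k →+* L) (i : K →+* L) {E E' : IntermediateField F k} (h : E ≤ E') :
    kE ik i E ≤ kE ik i E' :=
  Subfield.closure_mono (Set.union_subset_union_right _ (Set.image_mono h))


/-! ### large extensions -/

section ev

variable {F k : Type} [Field F] [Field k] [Algebra F k]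

/-- The property holds for all large finite extensions. -/
def U17Ev (Q : IntermediateField F k → Prop) : Prop :=
  ∃ E₀ : IntermediateField F k, FiniteDimensional F E₀ ∧
    ∀ E : IntermediateField F k, E₀ ≤ E → FiniteDimensional F E → Q E

theorem u17_ev_forall {ι : Type*} [Finite ι] {Q : ι → IntermediateField F k → Prop}
    (h : ∀ i, U17Ev (Q i)) : U17Ev fun E => ∀ i, Q i E := by
  choose E₀ h₀ h₁ using h
  refine ⟨⨆ i, E₀ i, IntermediateField.finiteDimensional_iSup_of_finite, fun E hE hf i => ?_⟩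
  exact h₁ i E ((le_iSup E₀ i).trans hE) hf

theorem u17_ev_and {Q Q' : IntermediateField F k → Prop}
    (h : U17Ev Q) (h' : U17Ev Q') : U17Ev fun E => Q E ∧ Q' E := by
  have h1 := u17_ev_forall (Q := fun b : Bool => if b then Q else Q')
    (fun b => by cases b <;> simpa)
  obtain ⟨E₀, h₀, h₁⟩ := h1
  refine ⟨E₀, h₀, fun E hE hf => ⟨?_, ?_⟩⟩
  · exact h₁ E hE hf true
  · exact h₁ E hE hf false

theorem u17_ev_mono {Q Q' : IntermediateField F k → Prop} (h : U17Ev Q)
    (hQ : ∀ E, Q E → Q' E) : U17Ev Q' := by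
  obtain ⟨E₀, h₀, h₁⟩ := h
  exact ⟨E₀, h₀, fun E hE hf => hQ E (h₁ E hE hf)⟩

theorem u17_ev_true {Q : IntermediateField F k → Prop} (h : ∀ E, Q E) : U17Ev Q :=
  ⟨⊥, inferInstance, fun E _ _ => h E⟩

theorem u17_ev_mem [Algebra.IsAlgebraic F k] {K L : Type} [Field K] [Field L] {iF : F →+* K}
    {ik : k →+* L} {i : K →+* L} (h : ConstExt iF ik i) (z : L) :
    U17Ev fun E : IntermediateField F k => z ∈ kE ik i E := by
  obtain ⟨E₀, h₀, h₁⟩ := mem_kE_of_large h z
  exact ⟨E₀, h₀, fun E hE _ => h₁ E hE⟩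

/-- A finite extension. -/
theorem u17_ev_finite [Algebra.IsAlgebraic F k] {L κ A : Type} [Field L] [Field κ]
    [Field A] {iF : F →+* κ} {ik : k →+* L} (ψ : A →+* L) (φ : κ →+* A) (hφ : φ.Finite)
    (h : ConstExt iF ik (ψ.comp φ)) :
    U17Ev fun E : IntermediateField F k => ∀ w, ψ w ∈ kE ik (ψ.comp φ) E := by
  letI := φ.toAlgebra
  have hfin : Module.Finite κ A := hφ
  obtain ⟨s, hs⟩ := hfin.fg_top
  have h1 : U17Ev fun E : IntermediateField F k => ∀ w : s, ψ w ∈ kE ik (ψ.comp φ) E :=
    u17_ev_forall fun w => u17_ev_mem h _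
  refine u17_ev_mono h1 fun E hE w => ?_
  have hw : w ∈ Submodule.span κ (s : Set A) := by rw [hs]; trivial
  induction hw using Submodule.span_induction with
  | mem x hx => exact hE ⟨x, hx⟩
  | zero => rw [map_zero]; exact zero_mem _
  | add x y _ _ hx hy => rw [map_add]; exact add_mem hx hy
  | smul a x _ hx =>
    have h2 : a • x = φ a * x := rfl
    rw [h2, map_mul]
    exact mul_mem (Subfield.subset_closure (Or.inl ⟨a, rfl⟩)) hx

end ev

/-! ### boundaries -/

theorem u17_bdS {X : Scheme.{0}} {η x : X} (h : η ⤳ x) {f g : (X.residueField η)ˣ}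
    {t : (X.residueField x)ˣ} (hb : IsBdAt η x f g t)
    (S : Finset (ValuationSubring (X.residueField η))) (hS : ∀ V, V ∈ S ↔ Dominates h V)
    (φ : ∀ V ∈ S, X.residueField x →+* IsLocalRing.ResidueField V)
    (hφ : ∀ (V) (hV : V ∈ S) (b : X.presheaf.stalk x) (b' : V),
      (b' : X.residueField η) = evalAt h b →
        φ V hV ((X.residue x).hom b) = IsLocalRing.residue V b') :
    IsBdS S φ f g t := by
  obtain ⟨s, c, hs, hc, ht⟩ := hb.2 h
  have hsS : s = S := by
    ext V
    rw [hs, hS]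
  subst hsS
  refine ⟨c, fun V hV => ?_, ht⟩
  obtain ⟨φ', u, h1, -, h3, h4⟩ := hc V hV
  obtain rfl : φ' = φ V hV := by
    ext z
    obtain ⟨b, rfl⟩ := X.residue_surjective x z
    have hdom := (hS V).1 hV
    exact (h1 b ⟨evalAt h b, (hdom b).1⟩ rfl).trans
      (hφ V hV b ⟨evalAt h b, (hdom b).1⟩ rfl).symm
  exact ⟨u, h3, h4⟩

/-- Conditions on the residue field for large extensions. -/
theorem u17_large {F k : Type} [Field F] [Field k] [Algebra F k] [Algebra.IsAlgebraic F k]
    {Y X : Scheme.{0}} [IsIntegral Y] [IsIntegral X] {π : Y ⟶ X} (C : ConstCov F k π)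
    {y x' : Y} (h : y ⤳ x') {x : X} (hx : π x' = x) (h' : π y ⤳ x)
    (V : ValuationSubring (Y.residueField y)) (hV : Dominates h V)
    (hsurj : ∀ z : IsLocalRing.ResidueField V, ∃ (b : Y.presheaf.stalk x') (b' : V),
        (b' : Y.residueField y) = evalAt h b ∧ IsLocalRing.residue V b' = z)
    (hk : ∀ c, constAt C.sY y c ∈ V)
    (φ : X.residueField x →+* IsLocalRing.ResidueField (V.comap (π.residueFieldMap y).hom))
    (hφ : ∀ (b : X.presheaf.stalk x) (b' : V.comap (π.residueFieldMap y).hom),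
      (b' : X.residueField (π y)) = evalAt h' b →
        φ ((X.residue x).hom b) = IsLocalRing.residue _ b') (hfin : φ.Finite) :
    (U17Ev fun E : IntermediateField F k => ∀ w,
      comapRes (π.residueFieldMap y).hom V w ∈ kE (constRes (constAt C.sY y) V hk)
        ((comapRes (π.residueFieldMap y).hom V).comp φ) E) ∧
    ∀ E : IntermediateField F k, degE (constRes (constAt C.sY y) V hk)
        ((comapRes (π.residueFieldMap y).hom V).comp φ) E =
      degE (constAt C.sY x') (π.residueFieldMap x').hom E := by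
  subst hx
  obtain ⟨e, he⟩ := u17_res h V hV
  have hV' := dominates_pi h h' V hV
  have h1 := u17_const C.sY h V hk e he
  have h2 := u17_comp π h h' V hV' e he φ hφ
  have hes : Function.Surjective e := by
    intro z
    obtain ⟨b, b', hb, hz⟩ := hsurj z
    exact ⟨_, (he b b' hb).trans hz⟩
  have h3 := u17_constExt (constExt_at C x') e hes
  rw [h1, h2] at h3
  refine ⟨u17_ev_finite _ φ hfin h3, fun E => ?_⟩
  rw [← h1, ← h2, degE_congr]

section cls

variable {F F₀ k : Type} [Field F] [PerfectField F] [Field F₀] [PerfectField F₀]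
    [Field k] [Algebra F k] [Algebra.IsAlgebraic F k] {Y X : Scheme.{0}}
    [IsIntegral Y] [IsIntegral X] [IsNoetherian Y] [IsNoetherian X] {π : Y ⟶ X}
    {m : ℕ}

/-- The fibre of `x`. -/
noncomputable def u17Fib (C : ConstCov F k π) (x : PointCo X (m + 1)) :
    Finset (PointCo Y (m + 1)) :=
  ((count_at C x.1).1.preimage (Subtype.val_injective.injOn (s :=
    (Subtype.val : PointCo Y (m + 1) → Y) ⁻¹' {y : Y | π y = x.1}))).toFinset

theorem u17_mem_fib (C : ConstCov F k π) (x : PointCo X (m + 1)) (x' : PointCo Y (m + 1)) :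
    x' ∈ u17Fib C x ↔ π x'.1 = x.1 := by
  rw [u17Fib, Set.Finite.mem_toFinset]
  rfl

open Classical in
/-- The valuation ring at the curve `x'` of the class `c`. -/
noncomputable def u17W {η : KChain Y (m + 1)} (R : RefRel m η) (c : R.cl)
    (x' : PointCo Y (m + 1)) : ValuationSubring (Y.residueField (R.s c).1) :=
  if h : R.cls x' = some c then (R.sp x' c h).choose_spec.choose else ⊤

theorem u17W_spec {η : KChain Y (m + 1)} (R : RefRel m η) (c : R.cl)
    (x' : PointCo Y (m + 1)) (h : R.cls x' = some c) :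
    ∃ (hs : (R.s c).1 ⤳ x'.1), Dominates hs (u17W R c x') ∧
      (∀ V', Dominates hs V' → V' = u17W R c x') ∧
      ∀ z : IsLocalRing.ResidueField (u17W R c x'), ∃ (b : Y.presheaf.stalk x'.1)
        (b' : u17W R c x'), (b' : Y.residueField (R.s c).1) = evalAt hs b ∧
          IsLocalRing.residue (u17W R c x') b' = z := by
  have h1 := (R.sp x' c h).choose_spec.choose_spec
  have h2 : u17W R c x' = (R.sp x' c h).choose_spec.choose := dif_pos h
  rw [h2]
  exact ⟨(R.sp x' c h).choose, h1⟩

open Classical in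
/-- The curves of the class `c` over `x`. -/
noncomputable def u17T (C : ConstCov F k π) {η : KChain Y (m + 1)} (R : RefRel m η) (c : R.cl)
    (x : PointCo X (m + 1)) : Finset (PointCo Y (m + 1)) :=
  (u17Fib C x).filter fun x' => R.cls x' = some c

theorem u17_mem_T (C : ConstCov F k π) {η : KChain Y (m + 1)} (R : RefRel m η) (c : R.cl)
    (x : PointCo X (m + 1)) (x' : PointCo Y (m + 1)) :
    x' ∈ u17T C R c x ↔ π x'.1 = x.1 ∧ R.cls x' = some c := by
  classical
  rw [u17T, Finset.mem_filter, u17_mem_fib]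

/-- The degree at the curve `x'`. -/
noncomputable def u17D (C : ConstCov F k π) (E : IntermediateField F k) (x' : Y) : ℕ :=
  degE (constAt C.sY x') (π.residueFieldMap x').hom E

/-- The point below a surface. -/
def u17Pt (P : ProEt π) (y : PointCo Y m) : PointCo X m :=
  ⟨π y.1, by rw [coheight_pi P, y.2]⟩

/-- `V'` is discrete and contains the constants. -/
theorem u17_const_mem (C : ConstCov F k π) (str : X ⟶ Spec (CommRingCat.of F₀))
    [LocallyOfFiniteType str] (y : PointCo Y m) (x : PointCo X (m + 1)) (h : π y.1 ⤳ x.1)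
    (V' : ValuationSubring (Y.residueField y.1))
    (hV : Dominates h (V'.comap (π.residueFieldMap y.1).hom)) :
    IsDiscV (V'.comap (π.residueFieldMap y.1).hom) ∧
    (∀ c, constAt C.sX (π y.1) c ∈ V'.comap (π.residueFieldMap y.1).hom) ∧
    ∀ c, constAt C.sY y.1 c ∈ V' := by
  have h1 := ((dom_finite_perfect str (u17Pt C.P y) x h).2 _ hV).1
  have h2 : IsDiscV (V'.comap (π.residueFieldMap y.1).hom) := isDiscV_iff.2 h1
  have h3 : ∀ c, constAt C.sX (π y.1) c ∈ V'.comap (π.residueFieldMap y.1).hom := by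
    intro c
    have h4 := (hV ((X.presheaf.germ ⊤ x.1 trivial).hom (C.sX c))).1
    rw [u17_evalAt_const] at h4
    exact h4
  exact ⟨h2, h3, (const_val (constExt_at C y.1) V' h2 h3).1⟩

/-- The residue field maps. -/
def U17Phi {x : X} {y : Y} (h : π y ⤳ x) (V : ValuationSubring (Y.residueField y))
    (φ : X.residueField x →+* IsLocalRing.ResidueField (V.comap (π.residueFieldMap y).hom)) :
    Prop :=
  ∀ (b : X.presheaf.stalk x) (b' : V.comap (π.residueFieldMap y).hom),
    (b' : X.residueField (π y)) = evalAt h b →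
      φ ((X.residue x).hom b) = IsLocalRing.residue _ b'

theorem u17_phi_unique {x : X} {y : Y} (h : π y ⤳ x) (V : ValuationSubring (Y.residueField y))
    (hV : Dominates h (V.comap (π.residueFieldMap y).hom))
    (φ φ' : X.residueField x →+* IsLocalRing.ResidueField (V.comap (π.residueFieldMap y).hom))
    (hφ : U17Phi h V φ) (hφ' : U17Phi h V φ') : φ = φ' := by
  ext z
  obtain ⟨b, rfl⟩ := X.residue_surjective x z
  exact (hφ b ⟨evalAt h b, (hV b).1⟩ rfl).trans (hφ' b ⟨evalAt h b, (hV b).1⟩ rfl).symm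

theorem u17_phi_exists (str : X ⟶ Spec (CommRingCat.of F₀)) [LocallyOfFiniteType str]
    (P : ProEt π) (y : PointCo Y m) (x : PointCo X (m + 1)) (h : π y.1 ⤳ x.1)
    (V : ValuationSubring (Y.residueField y.1))
    (hV : Dominates h (V.comap (π.residueFieldMap y.1).hom)) :
    ∃ φ, U17Phi h V φ ∧ φ.Finite :=
  ((dom_finite_perfect str (u17Pt P y) x h).2 _ hV).2

/-- What is required of `E` at `x` for the class `c`. -/
def U17L (C : ConstCov F k π) {η : KChain Y (m + 1)} (R : RefRel m η) (c : R.cl)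
    (x : PointCo X (m + 1)) (E : IntermediateField F k) : Prop :=
  (∀ x₁ ∈ u17T C R c x, ∀ x₂ ∈ u17T C R c x,
    (∀ a ∈ kE (constAt C.sY (R.s c).1) (π.residueFieldMap (R.s c).1).hom E,
      a ∈ u17W R c x₁ ↔ a ∈ u17W R c x₂) → u17W R c x₁ = u17W R c x₂) ∧
  ∀ x' ∈ u17T C R c x, ∀ (h : π (R.s c).1 ⤳ x.1)
    (hk : ∀ a, constAt C.sY (R.s c).1 a ∈ u17W R c x') (φ), U17Phi h (u17W R c x') φ →
      φ.Finite → ∀ w, comapRes (π.residueFieldMap (R.s c).1).hom (u17W R c x') w ∈
        kE (constRes (constAt C.sY (R.s c).1) (u17W R c x') hk)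
          ((comapRes (π.residueFieldMap (R.s c).1).hom (u17W R c x')).comp φ) E

theorem u17_dom {x : X} {y x' : Y} (hx : π x' = x) (h' : y ⤳ x') (h : π y ⤳ x)
    (V' : ValuationSubring (Y.residueField y)) (hV' : Dominates h' V') :
    Dominates h (V'.comap (π.residueFieldMap y).hom) := by
  subst hx
  exact dominates_pi h' h V' hV'

theorem u17_L_ev (C : ConstCov F k π) (str : X ⟶ Spec (CommRingCat.of F₀))
    [LocallyOfFiniteType str] {η : KChain Y (m + 1)} (R : RefRel m η) (c : R.cl)
    (x : PointCo X (m + 1)) : U17Ev (U17L C R c x) := by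
  refine u17_ev_and ?_ ?_
  · have h1 : U17Ev fun E : IntermediateField F k => ∀ q : u17T C R c x × u17T C R c x,
        (∀ a ∈ kE (constAt C.sY (R.s c).1) (π.residueFieldMap (R.s c).1).hom E,
          a ∈ u17W R c q.1.1 ↔ a ∈ u17W R c q.2.1) → u17W R c q.1.1 = u17W R c q.2.1 := by
      refine u17_ev_forall fun q => ?_
      by_cases hq : u17W R c q.1.1 = u17W R c q.2.1
      · exact u17_ev_true fun E _ => hq
      · have h2 : ∃ a, ¬ (a ∈ u17W R c q.1.1 ↔ a ∈ u17W R c q.2.1) := by
          by_contra hcon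
          push Not at hcon
          exact hq (SetLike.ext hcon)
        obtain ⟨a, ha⟩ := h2
        exact u17_ev_mono (u17_ev_mem (constExt_at C (R.s c).1) a) fun E hE hE' =>
          absurd (hE' a hE) ha
    exact u17_ev_mono h1 fun E hE x₁ h₁ x₂ h₂ => hE (⟨x₁, h₁⟩, ⟨x₂, h₂⟩)
  · have h1 : U17Ev fun E : IntermediateField F k => ∀ q : u17T C R c x,
        ∀ (h : π (R.s c).1 ⤳ x.1) (hk : ∀ a, constAt C.sY (R.s c).1 a ∈ u17W R c q.1) (φ),
          U17Phi h (u17W R c q.1) φ → φ.Finite →
          ∀ w, comapRes (π.residueFieldMap (R.s c).1).hom (u17W R c q.1) w ∈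
            kE (constRes (constAt C.sY (R.s c).1) (u17W R c q.1) hk)
              ((comapRes (π.residueFieldMap (R.s c).1).hom (u17W R c q.1)).comp φ) E := by
      refine u17_ev_forall fun q => ?_
      obtain ⟨hq1, hq2⟩ := (u17_mem_T C R c x q.1).1 q.2
      obtain ⟨hs, hdom, -, hsurj⟩ := u17W_spec R c q.1 hq2
      have h : π (R.s c).1 ⤳ x.1 := by
        rw [← hq1]
        exact hs.map π.continuous
      have hV := u17_dom hq1 hs h (u17W R c q.1) hdom
      obtain ⟨φ, hφ, hfin⟩ := u17_phi_exists str C.P (R.s c) x h (u17W R c q.1) hV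
      have hk := (u17_const_mem C str (R.s c) x h (u17W R c q.1) hV).2.2
      refine u17_ev_mono (u17_large C hs hq1 h _ hdom hsurj hk φ hφ hfin).1 ?_
      intro E hE h0 hk0 φ' hφ' hfin'
      obtain rfl := u17_phi_unique h _ hV φ φ' hφ hφ'
      exact hE
    exact u17_ev_mono h1 fun E hE x₁ h₁ => hE ⟨x₁, h₁⟩

end cls

section cls

variable {F F₀ k : Type} [Field F] [PerfectField F] [Field F₀] [PerfectField F₀]
    [Field k] [Algebra F k] [Algebra.IsAlgebraic F k] {Y X : Scheme.{0}}
    [IsIntegral Y] [IsIntegral X] [IsNoetherian Y] [IsNoetherian X] {π : Y ⟶ X}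
    {m : ℕ}

theorem u17_pull (ξ : KChain X m) (η : KChain Y m)
    (hη : IsPullK π ξ η) (x : PointCo X m) (x' : PointCo Y m)
    (hx : π x'.1 = x.1) : ∃ j : X.residueField x.1 →+* Y.residueField x'.1,
      (∀ (b : X.presheaf.stalk x.1), ∃ b' : Y.presheaf.stalk x'.1,
        (IsUnit b → IsUnit b') ∧
        j ((X.residue x.1).hom b) = (Y.residue x'.1).hom b' ∧
        ∀ (y : Y) (h' : y ⤳ x'.1) (h : π y ⤳ x.1),
          evalAt h' b' = (π.residueFieldMap y).hom (evalAt h b)) ∧
      ((Additive.toMul (η x') : (Y.residueField x'.1)ˣ) : Y.residueField x'.1) =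
        j ((Additive.toMul (ξ x) : (X.residueField x.1)ˣ) : X.residueField x.1) := by
  obtain ⟨x, hxc⟩ := x
  dsimp only at hx
  subst hx
  refine ⟨(π.residueFieldMap x'.1).hom, fun b => ⟨(π.stalkMap x'.1).hom b, ?_, ?_, ?_⟩, ?_⟩
  · exact fun hb => hb.map _
  · exact u17_residueFieldMap π x'.1 b
  · intro y h' h
    exact evalAt_pi π h' h b
  · rw [hη x' hxc]
    rfl

theorem u17_value (ξ : KChain X (m + 1)) (η : KChain Y (m + 1))
    (hη : IsPullK π ξ η) (x : PointCo X (m + 1)) (x' : PointCo Y (m + 1))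
    (hx : π x'.1 = x.1) {y : Y} (h' : y ⤳ x'.1) (h : π y ⤳ x.1)
    (V' : ValuationSubring (Y.residueField y)) (hV' : Dominates h' V')
    (φ : X.residueField x.1 →+* IsLocalRing.ResidueField
      (V'.comap (π.residueFieldMap y).hom)) (hφ : U17Phi h V' φ) :
    ∃ (u : (Y.presheaf.stalk x'.1)ˣ) (u' : V'), (Y.residue x'.1).hom u =
        ((Additive.toMul (η x') : (Y.residueField x'.1)ˣ) : Y.residueField x'.1) ∧
      (u' : Y.residueField y) = evalAt h' u ∧ IsLocalRing.residue V' u' =
        comapRes (π.residueFieldMap y).hom V'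
          (φ ((Additive.toMul (ξ x) : (X.residueField x.1)ˣ) : X.residueField x.1)) := by
  obtain ⟨j, hj, hjη⟩ := u17_pull ξ η hη x x' hx
  obtain ⟨b, hb⟩ := X.residue_surjective x.1
    ((Additive.toMul (ξ x) : (X.residueField x.1)ˣ) : X.residueField x.1)
  have hbu : IsUnit b := by
    by_contra hcon
    have h1 : (X.residue x.1).hom b = 0 := by
      have := (IsLocalRing.mem_maximalIdeal b).2 hcon
      exact (IsLocalRing.residue_eq_zero_iff b).2 this
    have h2 : (X.residue x.1).hom b ≠ 0 := by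
      have h3 : (X.residue x.1).hom b =
        ((Additive.toMul (ξ x) : (X.residueField x.1)ˣ) : X.residueField x.1) := hb
      rw [h3]
      exact Units.ne_zero _
    exact h2 h1
  obtain ⟨b', hb1, hb2, hb3⟩ := hj b
  obtain ⟨u, rfl⟩ := hb1 hbu
  have hV := u17_dom hx h' h V' hV'
  refine ⟨u, comapIncl (π.residueFieldMap y).hom V' ⟨evalAt h b, (hV b).1⟩, ?_, ?_, ?_⟩
  · rw [← hb2, hjη]
    exact congrArg j hb
  · rw [comapIncl_coe, hb3 y h' h]
  · have h4 := hφ b ⟨evalAt h b, (hV b).1⟩ rfl
    rw [← comapRes_residue, ← h4]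
    exact congrArg _ (congrArg φ hb)

/-- The contribution of the class `c`. -/
theorem u17_class (C : ConstCov F k π) (str : X ⟶ Spec (CommRingCat.of F₀))
    [LocallyOfFiniteType str] (ξ : KChain X (m + 1)) (η : KChain Y (m + 1))
    (hη : IsPullK π ξ η) (R : RefRel m η) (c : R.cl) (E : IntermediateField F k)
    [FiniteDimensional F E] [IsGalois F E]
    (hf : ∀ j, ((R.f c j : (Y.residueField (R.s c).1)ˣ) : Y.residueField (R.s c).1) ∈
      kE (constAt C.sY (R.s c).1) (π.residueFieldMap (R.s c).1).hom E)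
    (hg : ∀ j, ((R.g c j : (Y.residueField (R.s c).1)ˣ) : Y.residueField (R.s c).1) ∈
      kE (constAt C.sY (R.s c).1) (π.residueFieldMap (R.s c).1).hom E)
    (hE : ∀ x, ξ x ≠ 0 → U17L C R c x E) :
    ∃ ζ ∈ bdChains X m, ∀ (x : PointCo X (m + 1))
      (μ : Additive (X.residueField x.1)ˣ →+ ℚ),
      μ (ζ x) = R.N c * (∑ x' ∈ u17T C R c x, (u17D C E x'.1 : ℚ)) * μ (ξ x) := by
  classical
  obtain ⟨l, hl⟩ := class_descent (constExt_at C (R.s c).1) E (R.f c) (R.g c) hf hg
  have hbd : ∀ a b : (X.residueField (π (R.s c).1))ˣ, ∃ ζ : KChain X (m + 1),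
      ∀ x : PointCo X (m + 1), IsBdAt (π (R.s c).1) x.1 a b (Additive.toMul (ζ x)) :=
    exists_bd_perfect str (u17Pt C.P (R.s c))
  choose Bd hBd using hbd
  refine ⟨(l.map fun e => e.1 • Bd e.2.1 e.2.2).sum, ?_, fun x μ => ?_⟩
  · refine AddSubgroup.list_sum_mem _ fun z hz => ?_
    obtain ⟨e, -, rfl⟩ := List.mem_map.1 hz
    refine AddSubgroup.zsmul_mem _ (AddSubgroup.subset_closure ?_) _
    exact ⟨u17Pt C.P (R.s c), e.2.1, e.2.2, hBd e.2.1 e.2.2⟩
  · have h0 : μ ((l.map fun e => e.1 • Bd e.2.1 e.2.2).sum x) =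
        (l.map fun e => (e.1 : ℚ) * μ (Bd e.2.1 e.2.2 x)).sum := by
      clear hl
      induction l with
      | nil => simp
      | cons e l ih =>
        rw [List.map_cons, List.sum_cons, DFinsupp.add_apply, map_add, ih, List.map_cons,
          List.sum_cons, DFinsupp.smul_apply, map_zsmul, zsmul_eq_mul]
    rw [h0]
    by_cases h : π (R.s c).1 ⤳ x.1
    · have hdf := dom_finite_perfect str (u17Pt C.P (R.s c)) x h
      let S : Finset (ValuationSubring (X.residueField (π (R.s c).1))) := hdf.1.toFinset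
      have hS : ∀ V, V ∈ S ↔ Dominates h V := fun V => Set.Finite.mem_toFinset _
      have hphi : ∀ V ∈ S, ∃ φ : X.residueField x.1 →+* IsLocalRing.ResidueField V,
          (∀ (b : X.presheaf.stalk x.1) (b' : V),
            (b' : X.residueField (π (R.s c).1)) = evalAt h b →
              φ ((X.residue x.1).hom b) = IsLocalRing.residue V b') ∧ φ.Finite :=
        fun V hV => (hdf.2 V ((hS V).1 hV)).2
      choose φ hφ hφfin using hphi
      have hbS : ∀ a b, IsBdS S φ a b (Additive.toMul (Bd a b x)) := fun a b =>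
        u17_bdS h (hBd a b x) S hS φ hφ
      have hSd : ∀ V ∈ S, IsDiscV V ∧ ∀ a, constAt C.sX (π (R.s c).1) a ∈ V := by
        intro V hV
        have hdom := (hS V).1 hV
        refine ⟨isDiscV_iff.2 (hdf.2 V hdom).1, fun a => ?_⟩
        have h4 := (hdom ((X.presheaf.germ ⊤ x.1 trivial).hom (C.sX a))).1
        rw [u17_evalAt_const] at h4
        exact h4
      let G : Finset (ValuationSubring (Y.residueField (R.s c).1)) :=
        if ξ x = 0 then ∅ else (u17T C R c x).image (u17W R c)
      have hGmem : ∀ V' ∈ G, ξ x ≠ 0 ∧ ∃ x' ∈ u17T C R c x, u17W R c x' = V' := by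
        intro V' hV'
        by_cases h0 : ξ x = 0
        · have : G = ∅ := if_pos h0
          rw [this] at hV'
          exact absurd hV' (Finset.notMem_empty _)
        · have : G = (u17T C R c x).image (u17W R c) := if_neg h0
          rw [this, Finset.mem_image] at hV'
          exact ⟨h0, hV'⟩
      have hTdom : ∀ x' ∈ u17T C R c x,
          Dominates h ((u17W R c x').comap (π.residueFieldMap (R.s c).1).hom) := by
        intro x' hx'
        obtain ⟨hq1, hq2⟩ := (u17_mem_T C R c x x').1 hx'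
        obtain ⟨hs, hdom, -⟩ := u17W_spec R c x' hq2
        exact u17_dom hq1 hs h _ hdom
      have hG : ∀ V' ∈ G, V'.comap (π.residueFieldMap (R.s c).1).hom ∈ S := by
        intro V' hV'
        obtain ⟨-, x', hx', rfl⟩ := hGmem V' hV'
        exact (hS _).2 (hTdom x' hx')
      have hk : ∀ V' ∈ G, ∀ a, constAt C.sY (R.s c).1 a ∈ V' := fun V' hV' =>
        (u17_const_mem C str (R.s c) x h V' ((hS _).1 (hG V' hV'))).2.2
      have key := hl (X.residueField x.1) S hSd φ hφfin (Additive.toMul (ξ x)) (R.N c) G hG hk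
        ?_ ?_ ?_ (fun a b => Additive.toMul (Bd a b x)) hbS μ
      · refine key.trans ?_
        by_cases h0 : ξ x = 0
        · have h1 : μ (Additive.ofMul (Additive.toMul (ξ x))) = 0 := by
            rw [ofMul_toMul, h0, map_zero]
          rw [h1, mul_zero, h0, map_zero, mul_zero]
        · have hGi : G = (u17T C R c x).image (u17W R c) := if_neg h0
          have h1 : ∑ V' ∈ G.attach, (degE (constRes (constAt C.sY (R.s c).1) V'.1
              (hk V'.1 V'.2)) ((comapRes (π.residueFieldMap (R.s c).1).hom V'.1).comp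
                (φ _ (hG V'.1 V'.2))) E : ℚ) =
              ∑ x' ∈ u17T C R c x, (u17D C E x'.1 : ℚ) := by
            symm
            refine Finset.sum_bij (fun x' hx' => ⟨u17W R c x', by
              rw [hGi]; exact Finset.mem_image_of_mem _ hx'⟩) ?_ ?_ ?_ ?_
            · intro x' hx'
              exact Finset.mem_attach _ _
            · intro x₁ h₁ x₂ h₂ h12
              obtain ⟨hq1, hq2⟩ := (u17_mem_T C R c x x₁).1 h₁
              obtain ⟨hq3, hq4⟩ := (u17_mem_T C R c x x₂).1 h₂
              obtain ⟨hs, hdom, -⟩ := u17W_spec R c x₁ hq2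
              obtain ⟨hs', hdom', -⟩ := u17W_spec R c x₂ hq4
              have h3 : u17W R c x₁ = u17W R c x₂ := congrArg Subtype.val h12
              rw [← h3] at hdom'
              exact Subtype.ext (centre_pi_unique C.P hs hs' (hq1.trans hq3.symm) _ hdom hdom')
            · intro V' _
              obtain ⟨-, x', hx', hx''⟩ := hGmem V'.1 V'.2
              exact ⟨x', hx', Subtype.ext hx''⟩
            · intro x' hx'
              obtain ⟨hq1, hq2⟩ := (u17_mem_T C R c x x').1 hx'
              obtain ⟨hs, hdom, -, hsurj⟩ := u17W_spec R c x' hq2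
              have hmem : u17W R c x' ∈ G := by
                rw [hGi]; exact Finset.mem_image_of_mem _ hx'
              have h4 := (u17_large C hs hq1 h _ hdom hsurj (hk _ hmem) (φ _ (hG _ hmem))
                (hφ _ (hG _ hmem)) (hφfin _ (hG _ hmem))).2 E
              rw [h4]
              rfl
          rw [h1]
          rfl
      · intro V' hV' V'' hV'' h2
        obtain ⟨h0, x₁, h₁, rfl⟩ := hGmem V' hV'
        obtain ⟨-, x₂, h₂, rfl⟩ := hGmem V'' hV''
        exact (hE x h0).1 x₁ h₁ x₂ h₂ h2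
      · intro V' hV'
        have hdomV := (hS _).1 hV'
        obtain ⟨x', h', hx', hdom'⟩ := centre_pi C.P (R.s c) x h V' hdomV
        obtain ⟨t, ht1, ht2, ht3⟩ := R.tame c x' h' V' hdom'
        refine ⟨t, ht1, ?_, ?_⟩
        · intro hVG
          obtain ⟨h0, x₁, h₁, rfl⟩ := hGmem V' hVG
          obtain ⟨hq1, hq2⟩ := (u17_mem_T C R c x x₁).1 h₁
          obtain ⟨hs, hdom, -⟩ := u17W_spec R c x₁ hq2
          have h3 : x' = x₁ :=
            Subtype.ext (centre_pi_unique C.P h' hs (hx'.trans hq1.symm) _ hdom' hdom)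
          subst h3
          obtain ⟨u, u', hu1, hu2, hu3⟩ := u17_value ξ η hη x x' hx' h' h _ hdom'
            (φ _ (hG _ hVG)) (hφ _ (hG _ hVG))
          rw [ht2 hq2 u u' hu1 hu2, hu3]
        · intro hVG
          by_cases hcl : R.cls x' = some c
          · by_cases h0 : ξ x = 0
            · obtain ⟨u, u', hu1, hu2, hu3⟩ := u17_value ξ η hη x x' hx' h' h _ hdom'
                (φ _ hV') (hφ _ hV')
              have h5 := ht2 hcl u u' hu1 hu2
              rw [hu3, h0, toMul_zero, Units.val_one, map_one, map_one, one_pow] at h5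
              exact Units.ext h5
            · exfalso
              apply hVG
              have hGi : G = (u17T C R c x).image (u17W R c) := if_neg h0
              rw [hGi, Finset.mem_image]
              obtain ⟨hs, hdom, huniq, -⟩ := u17W_spec R c x' hcl
              exact ⟨x', (u17_mem_T C R c x x').2 ⟨hx', hcl⟩, (huniq V' hdom').symm⟩
          · exact ht3 hcl
      · intro V' hV' w
        obtain ⟨h0, x₁, h₁, rfl⟩ := hGmem V' hV'
        exact (hE x h0).2 x₁ h₁ h (hk _ hV') (φ _ (hG _ hV')) (hφ _ (hG _ hV'))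
          (hφfin _ (hG _ hV')) w
    · have h1 : ∀ a b, Bd a b x = 0 := fun a b => (hBd a b x).1 h
      have h2 : u17T C R c x = ∅ := by
        rw [Finset.eq_empty_iff_forall_notMem]
        intro x' hx'
        obtain ⟨hq1, hq2⟩ := (u17_mem_T C R c x x').1 hx'
        obtain ⟨hs, -⟩ := u17W_spec R c x' hq2
        apply h
        rw [← hq1]
        exact hs.map π.continuous
      rw [h2, Finset.sum_empty, mul_zero, zero_mul]
      refine List.sum_eq_zero fun z hz => ?_
      obtain ⟨e, -, rfl⟩ := List.mem_map.1 hz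
      rw [h1, map_zero, mul_zero]

end cls

/-- A finitely supported family with torsion components is torsion. -/
theorem u17_torsion {ι : Type*} {β : ι → Type*} [∀ i, AddCommGroup (β i)] (τ : Π₀ i, β i)
    (h : ∀ i, ∃ M : ℕ, 0 < M ∧ M • τ i = 0) : ∃ M : ℕ, 0 < M ∧ M • τ = 0 := by
  classical
  choose M hM hM' using h
  refine ⟨∏ i ∈ τ.support, M i, Finset.prod_pos fun i _ => hM i, ?_⟩
  ext i
  rw [DFinsupp.smul_apply, DFinsupp.zero_apply]
  by_cases hi : i ∈ τ.support
  · obtain ⟨q, hq⟩ := Finset.dvd_prod_of_mem M hi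
    rw [hq, mul_comm, mul_smul, hM' i, smul_zero]
  · rw [DFinsupp.notMem_support_iff] at hi
    rw [hi, smul_zero]

section cls

variable {F F₀ k : Type} [Field F] [PerfectField F] [Field F₀] [PerfectField F₀]
    [Field k] [Algebra F k] [Algebra.IsAlgebraic F k] {Y X : Scheme.{0}}
    [IsIntegral Y] [IsIntegral X] [IsNoetherian Y] [IsNoetherian X] {π : Y ⟶ X}
    {m : ℕ}

theorem u17_cls_ne_none (ξ : KChain X (m + 1)) (η : KChain Y (m + 1))
    (hη : IsPullK π ξ η) (R : RefRel m η) (x : PointCo X (m + 1)) (x' : PointCo Y (m + 1))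
    (hx : π x'.1 = x.1) (μ : Additive (X.residueField x.1)ˣ →+ ℚ) (hμ : μ (ξ x) ≠ 0) :
    R.cls x' ≠ none := by
  intro hn
  obtain ⟨M, hM, hM'⟩ := R.tors x' hn
  obtain ⟨j, -, hjη⟩ := u17_pull ξ η hη x x' hx
  have h1 : (Additive.toMul (η x')) ^ M = 1 := by
    rw [← toMul_nsmul, hM', toMul_zero]
  have h2 : j (((Additive.toMul (ξ x) : (X.residueField x.1)ˣ) : X.residueField x.1) ^ M) =
      j 1 := by
    rw [map_pow, ← hjη, ← Units.val_pow_eq_pow_val, h1, Units.val_one, map_one]
  have h3 : (Additive.toMul (ξ x)) ^ M = 1 := by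
    apply Units.ext
    rw [Units.val_pow_eq_pow_val, Units.val_one]
    exact j.injective h2
  have h4 : M • ξ x = 0 := by
    apply Additive.toMul.injective
    rw [toMul_nsmul, h3, toMul_zero]
  have h5 : (M : ℚ) * μ (ξ x) = 0 := by
    rw [← nsmul_eq_mul, ← map_nsmul, h4, map_zero]
  rcases mul_eq_zero.1 h5 with h6 | h6
  · exact hM.ne' (by exact_mod_cast h6)
  · exact hμ h6

theorem u17_sum (C : ConstCov F k π) {η : KChain Y (m + 1)} (R : RefRel m η)
    [Fintype R.cl] (x : PointCo X (m + 1)) (h : ∀ x' : PointCo Y (m + 1), π x'.1 = x.1 →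
      R.cls x' ≠ none) (f : PointCo Y (m + 1) → ℚ) :
    ∑ c, ∑ x' ∈ u17T C R c x, f x' = ∑ x' ∈ u17Fib C x, f x' := by
  classical
  have h1 : ∀ c, ∑ x' ∈ u17T C R c x, f x' =
      ∑ x' ∈ u17Fib C x, if R.cls x' = some c then f x' else 0 := by
    intro c
    rw [u17T, Finset.sum_filter]
  rw [Finset.sum_congr rfl fun c _ => h1 c, Finset.sum_comm]
  refine Finset.sum_congr rfl fun x' hx' => ?_
  obtain ⟨c, hc⟩ := Option.ne_none_iff_exists'.1 (h x' ((u17_mem_fib C x x').1 hx'))
  rw [Finset.sum_eq_single c]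
  · rw [if_pos hc]
  · intro c' _ hc'
    rw [if_neg]
    rw [hc]
    intro hcc
    exact hc' (Option.some_injective _ hcc).symm
  · intro hc'
    exact absurd (Finset.mem_univ c) hc'

theorem u17_fib_count (C : ConstCov F k π) (x : PointCo X (m + 1)) :
    U17Ev fun E : IntermediateField F k =>
      (∑ x' ∈ u17Fib C x, (u17D C E x'.1 : ℚ)) = Module.finrank F E := by
  classical
  obtain ⟨E₀, h₀, h₁⟩ := (count_at C x.1).2
  refine ⟨E₀, h₀, fun E hE hf => ?_⟩
  change (∑ x' ∈ u17Fib C x, (u17D C E x'.1 : ℚ)) = Module.finrank F E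
  rw [← h₁ E hE hf]
  rw [finsum_mem_eq_finite_toFinset_sum _ (count_at C x.1).1, Nat.cast_sum]
  refine Finset.sum_bij (fun x' _ => x'.1) ?_ ?_ ?_ ?_
  · intro x' hx'
    rw [Set.Finite.mem_toFinset]
    exact (u17_mem_fib C x x').1 hx'
  · intro x₁ _ x₂ _ h12
    exact Subtype.ext h12
  · intro y hy
    rw [Set.Finite.mem_toFinset] at hy
    have hy' : π y = x.1 := hy
    have hc : Order.coheight y = ((m + 1 : ℕ) : ℕ∞) := by
      rw [← coheight_pi C.P y, hy']
      exact x.2
    exact ⟨⟨y, hc⟩, (u17_mem_fib C x _).2 hy, rfl⟩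
  · intro x' _
    rfl

end cls

theorem descentK {F F₀ k : Type} [Field F] [PerfectField F] [Field F₀] [PerfectField F₀]
    [Field k] [IsAlgClosed k] [Algebra F k] [Algebra.IsAlgebraic F k] {Y X : Scheme.{0}}
    [IsIntegral Y] [IsIntegral X] [IsNoetherian Y] [IsNoetherian X] {π : Y ⟶ X}
    (C : ConstCov F k π) (str : X ⟶ Spec (CommRingCat.of F₀)) [LocallyOfFiniteType str] (m : ℕ)
    (ξ : KChain X (m + 1)) (η : KChain Y (m + 1)) (hη : IsPullK π ξ η) (R : RefRel m η) :
    ∃ M : ℕ, 0 < M ∧ M • ξ ∈ bdChains X m := by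
  classical
  have := R.fin
  have := Fintype.ofFinite R.cl
  have hev : U17Ev fun E : IntermediateField F k =>
      (∀ (c : R.cl) (j : Fin (R.r c)),
        ((R.f c j : (Y.residueField (R.s c).1)ˣ) : Y.residueField (R.s c).1) ∈
          kE (constAt C.sY (R.s c).1) (π.residueFieldMap (R.s c).1).hom E) ∧
      (∀ (c : R.cl) (j : Fin (R.r c)),
        ((R.g c j : (Y.residueField (R.s c).1)ˣ) : Y.residueField (R.s c).1) ∈
          kE (constAt C.sY (R.s c).1) (π.residueFieldMap (R.s c).1).hom E) ∧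
      (∀ (c : R.cl) (x : ξ.support), U17L C R c x.1 E) ∧
      ∀ x : ξ.support, (∑ x' ∈ u17Fib C x.1, (u17D C E x'.1 : ℚ)) = Module.finrank F E := by
    refine u17_ev_and ?_ (u17_ev_and ?_ (u17_ev_and ?_ ?_))
    · exact u17_ev_forall fun c => u17_ev_forall fun j =>
        u17_ev_mem (constExt_at C (R.s c).1) _
    · exact u17_ev_forall fun c => u17_ev_forall fun j =>
        u17_ev_mem (constExt_at C (R.s c).1) _
    · exact u17_ev_forall fun c => u17_ev_forall fun x => u17_L_ev C str R c x.1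
    · exact u17_ev_forall fun x => u17_fib_count C x.1
  obtain ⟨E₀, h₀, h₁⟩ := hev
  obtain ⟨E, hfin, hgal, hE⟩ := exists_galois_above {E₀} (Set.finite_singleton E₀)
    (fun E hE => by rw [Set.mem_singleton_iff] at hE; rw [hE]; exact h₀)
  obtain ⟨hf, hg, hL, hcount⟩ := h₁ E (hE E₀ rfl) hfin
  have hc : ∀ c : R.cl, ∃ ζ ∈ bdChains X m, ∀ (x : PointCo X (m + 1))
      (μ : Additive (X.residueField x.1)ˣ →+ ℚ),
      μ (ζ x) = R.N c * (∑ x' ∈ u17T C R c x, (u17D C E x'.1 : ℚ)) * μ (ξ x) :=
    fun c => u17_class C str ξ η hη R c E (hf c) (hg c) fun x hx =>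
      hL c ⟨x, by rw [DFinsupp.mem_support_iff]; exact hx⟩
  choose ζ hζ hζμ using hc
  let N : ℕ := ∏ c, R.N c
  have hN : 0 < N := Finset.prod_pos fun c _ => R.pos c
  let n : ℕ := Module.finrank F E
  have hn : 0 < n := Module.finrank_pos
  let Z : KChain X (m + 1) := ∑ c, (N / R.N c) • ζ c
  have hZ : Z ∈ bdChains X m := by
    refine AddSubgroup.sum_mem (bdChains X m) (t := Finset.univ)
      (f := fun c => (N / R.N c) • ζ c) fun c _ => ?_
    exact AddSubgroup.nsmul_mem _ (hζ c) _
  have hdiv : ∀ c, ((N / R.N c : ℕ) : ℚ) * R.N c = N := by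
    intro c
    have h2 : R.N c ∣ N := Finset.dvd_prod_of_mem _ (Finset.mem_univ c)
    rw [← Nat.cast_mul, Nat.div_mul_cancel h2]
  have hZμ : ∀ (x : PointCo X (m + 1)) (μ : Additive (X.residueField x.1)ˣ →+ ℚ),
      μ (Z x) = (N * n : ℕ) * μ (ξ x) := by
    intro x μ
    have h2 : Z x = ∑ c, (N / R.N c) • ζ c x := by
      change (∑ c, (N / R.N c) • ζ c) x = _
      rw [DFinsupp.finsetSum_apply]
      exact Finset.sum_congr rfl fun c _ => DFinsupp.smul_apply _ _ _
    rw [h2, map_sum]
    have h3 : ∀ c, μ ((N / R.N c) • ζ c x) =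
        N * ((∑ x' ∈ u17T C R c x, (u17D C E x'.1 : ℚ)) * μ (ξ x)) := by
      intro c
      rw [map_nsmul, hζμ c x μ, nsmul_eq_mul, ← hdiv c]
      ring
    rw [Finset.sum_congr rfl fun c _ => h3 c, ← Finset.mul_sum, ← Finset.sum_mul]
    by_cases hμ : μ (ξ x) = 0
    · rw [hμ, mul_zero, mul_zero, mul_zero]
    · have hx : x ∈ ξ.support := by
        rw [DFinsupp.mem_support_iff]
        intro h0
        exact hμ (by rw [h0, map_zero])
      rw [u17_sum C R x (fun x' hx' => u17_cls_ne_none ξ η hη R x x' hx' μ hμ)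
        (fun x' => (u17D C E x'.1 : ℚ)), hcount ⟨x, hx⟩]
      push_cast
      ring
  have htor : ∀ x : PointCo X (m + 1), ∃ M : ℕ, 0 < M ∧ M • (Z - (N * n) • ξ) x = 0 := by
    intro x
    refine torsion_of_hom _ fun μ => ?_
    rw [DFinsupp.sub_apply, DFinsupp.smul_apply, map_sub, map_nsmul, hZμ x μ, nsmul_eq_mul,
      sub_self]
  obtain ⟨M, hM, hM'⟩ := u17_torsion _ htor
  refine ⟨M * (N * n), Nat.mul_pos hM (Nat.mul_pos hN hn), ?_⟩
  have h5 : (M * (N * n)) • ξ = M • Z := by
    rw [smul_sub, sub_eq_zero] at hM'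
    rw [mul_smul]
    exact hM'.symm
  rw [h5]
  exact AddSubgroup.nsmul_mem _ hZ _

end Pool.Agent.K1
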