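import Pool.Agent.K1.BFinal
import Pool.Agent.K1.UDefs
import Pool.Agent.K1.TAffB
import Pool.Agent.K1.NFinal

/-!
The refined relation over an algebraically closed field: the chain is related to tame symbols on
finitely many surfaces, class by class.
-/

set_option autoImplicit false

open AlgebraicGeometry CategoryTheory

attribute [local instance] MvPolynomial.gradedAlgebra

namespace Pool.Agent.K1

/-- One class. -/
theorem ur_class {k : Type} [Field k] [IsAlgClosed k] {X : Scheme.{0}} [IsIntegral X]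
    [IsNoetherian X] {n : ℕ} (E : Embed k X n) (e : ℕ)
    (hdim : ∀ x : X, Order.coheight x ≤ ((e + 3 : ℕ) : ℕ∞))
    (hdim2 : ∃ x : X, Order.coheight x = ((e + 3 : ℕ) : ℕ∞))
    (c : Fin (n + 1) → k) (hc : genericPoint X ∈ E.U c)
    (s : Fin (n + 1) → Γ(X, E.U c))
    (hs : ∀ j, (X.presheaf.germ (E.U c) (genericPoint X) hc).hom (s j) = E.w j / E.l c)
    (Q : Ideal Γ(X, E.U c)) (hQ : Q.IsPrime) (hQh : Q.height = ((e + 1 : ℕ) : ℕ∞))
    (ξ : KChain X (e + 2)) (S : Set (PointCo X (e + 2))) (hsupp : ∀ x ∈ S, x.1 ∈ E.U c)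
    (hQx : ∀ (x : PointCo X (e + 2)) (hx : x ∈ S),
      Q ≤ RingHom.ker (X.evaluation (E.U c) x.1 (hsupp x hx)).hom)
    (H : ∀ (K : Type) [Field K] (τ : Γ(X, E.U c) →+* K), IsFrac τ → RingHom.ker τ = Q →
      letI : Algebra k K := (τ.comp (E.strOn (E.U c))).toAlgebra
      (∀ (x : PointCo X (e + 2)) (hx : x ∈ S), ∃ V : ValuationSubring K,
        DomR τ (X.evaluation (E.U c) x.1 (hsupp x hx)).hom V ∧
        (∀ V', DomR τ (X.evaluation (E.U c) x.1 (hsupp x hx)).hom V' → V' = V) ∧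
        ∃ φ : X.residueField x.1 →+* IsLocalRing.ResidueField V,
          IsRes τ (X.evaluation (E.U c) x.1 (hsupp x hx)).hom V φ ∧ Function.Bijective φ) ∧
      ∃ N : ℕ, 0 < N ∧ ∃ (r : ℕ) (f g : Fin r → K), (∀ i, f i ≠ 0 ∧ g i ≠ 0) ∧
        ∀ V : ValuationSubring K,
          CurveV k (fun i => τ ((Fin.cons 1 s : Fin (n + 1 + 1) → Γ(X, E.U c)) i)) V →
          ∃ t : Fin r → (IsLocalRing.ResidueField V)ˣ, (∀ i, IsTameV V (f i) (g i) (t i)) ∧
            (∀ (x : PointCo X (e + 2)) (hx : x ∈ S),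
              DomR τ (X.evaluation (E.U c) x.1 (hsupp x hx)).hom V →
              ∀ φ, IsRes τ (X.evaluation (E.U c) x.1 (hsupp x hx)).hom V φ →
              ∏ i, t i = Units.map φ.toMonoidHom (Additive.toMul (ξ x)) ^ N) ∧
            ((∀ (x : PointCo X (e + 2)) (hx : x ∈ S),
              ¬ DomR τ (X.evaluation (E.U c) x.1 (hsupp x hx)).hom V) → ∏ i, t i = 1)) :
    ∃ (y : PointCo X (e + 1)) (N r : ℕ) (f g : Fin r → (X.residueField y.1)ˣ), 0 < N ∧
      (∀ x ∈ S, ∃ (h : y.1 ⤳ x.1)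
        (V : ValuationSubring (X.residueField y.1)), Dominates h V ∧
        (∀ V', Dominates h V' → V' = V) ∧
        ∀ z : IsLocalRing.ResidueField V, ∃ (b : X.presheaf.stalk x.1) (b' : V),
          (b' : X.residueField y.1) = evalAt h b ∧ IsLocalRing.residue V b' = z) ∧
      ∀ (x : PointCo X (e + 2)) (h : y.1 ⤳ x.1)
        (V : ValuationSubring (X.residueField y.1)), Dominates h V →
        ∃ t : Fin r → (IsLocalRing.ResidueField V)ˣ, (∀ i, IsTameVal V (f i) (g i) (t i)) ∧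
          (x ∈ S → ∀ (u : (X.presheaf.stalk x.1)ˣ) (u' : V),
            (X.residue x.1).hom u =
              ((Additive.toMul (ξ x) : (X.residueField x.1)ˣ) : X.residueField x.1) →
            (u' : X.residueField y.1) = evalAt h u →
            ((∏ i, t i : (IsLocalRing.ResidueField V)ˣ) : IsLocalRing.ResidueField V) =
              IsLocalRing.residue V u' ^ N) ∧
          (x ∉ S → ∏ i, t i = 1) := by
  have hl : E.l c ≠ 0 := af_l_ne_zero E hc
  obtain ⟨hU, -⟩ := E.affine c hl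
  obtain ⟨y, hy, hker⟩ := bf_point hU Q hQ
  have hcoh : Order.coheight y = ((e + 1 : ℕ) : ℕ∞) := by rw [bf_coheight hU hy, hker, hQh]
  have hspecx : ∀ (x : PointCo X (e + 2)) (hx : x ∈ S), y ⤳ x.1 := fun x hx =>
    (specializes_iff_chart (E.U c) hU (hsupp x hx) hy).2
      (fun a ha => hQx x hx (by rw [← hker]; exact ha))
  have halg : (X.evaluation (E.U c) y hy).hom.comp (E.strOn (E.U c)) = E.kres y :=
    RingHom.ext (bf_kres E c hy)
  obtain ⟨Ha, N, hN, r, f, g, hfg, Hb⟩ := H (X.residueField y)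
    (X.evaluation (E.U c) y hy).hom (bf_isFrac hU hy) hker
  rw [halg] at Hb
  refine ⟨⟨y, hcoh⟩, N, r, fun i => Units.mk0 (f i) (hfg i).1, fun i => Units.mk0 (g i) (hfg i).2,
    hN, ?_, ?_⟩
  · intro x hx
    obtain ⟨V, hV, hVu, φ, hφ, hφb⟩ := Ha x hx
    have hdom : Dominates (hspecx x hx) V :=
      (dominates_iff (E.U c) hU (hspecx x hx) (hsupp x hx) hy V).2 hV
    refine ⟨hspecx x hx, V, hdom, ?_, ?_⟩
    · intro V' hV'
      exact hVu V' ((dominates_iff (E.U c) hU (hspecx x hx) (hsupp x hx) hy V').1 hV')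
    · intro z
      obtain ⟨f0, hf0⟩ := hφb.2 z
      obtain ⟨b, hb⟩ := X.residue_surjective x.1 f0
      refine ⟨b, ⟨evalAt (hspecx x hx) b, (hdom b).1⟩, rfl, ?_⟩
      rw [← hf0, ← hb]
      exact (bf_isRes hU (hspecx x hx) (hsupp x hx) hy V hdom φ hφ b _ rfl).symm
  · intro x h V hV
    have hCV := curveV_of_dom E e hdim hdim2 (⟨y, hcoh⟩ : PointCo X (e + 1)) c hy
      (fun j => (X.evaluation (E.U c) y hy).hom (s j)) (fun j => ⟨s j, fun _ => hs j, rfl⟩)
      x h V hV
    have hfun : (fun i => (X.evaluation (E.U c) y hy).hom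
        ((Fin.cons 1 s : Fin (n + 1 + 1) → Γ(X, E.U c)) i)) =
        (Fin.cons 1 (fun j => (X.evaluation (E.U c) y hy).hom (s j)) :
          Fin (n + 1 + 1) → X.residueField y) := by
      funext i
      refine Fin.cases ?_ (fun j => ?_) i
      · rw [Fin.cons_zero, Fin.cons_zero, map_one]
      · rw [Fin.cons_succ, Fin.cons_succ]
    rw [hfun] at Hb
    obtain ⟨t, ht, h1, h2⟩ := Hb V hCV
    refine ⟨t, fun i => (isTameVal_iff V _ _ _).2 (ht i), ?_, ?_⟩
    · intro hx u u' hu hu'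
      have hdom := (dominates_iff (E.U c) hU h (hsupp x hx) hy V).1 hV
      obtain ⟨V0, hV0, hV0u, φ, hφ, -⟩ := Ha x hx
      have hVV : V = V0 := hV0u V hdom
      subst hVV
      rw [h1 x hx hdom φ hφ, Units.val_pow_eq_pow_val]
      congr 1
      change φ ((Additive.toMul (ξ x) : (X.residueField x.1)ˣ) : X.residueField x.1) = _
      rw [← hu]
      exact bf_isRes hU h (hsupp x hx) hy V hV φ hφ _ u' hu'
    · intro hx
      apply h2
      intro x' hx' hd
      have hdom' : Dominates (hspecx x' hx') V :=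
        (dominates_iff (E.U c) hU (hspecx x' hx') (hsupp x' hx') hy V).2 hd
      have hxx : x = x' := Subtype.ext (centre_unique E h (hspecx x' hx') V hV hdom')
      rw [hxx] at hx
      exact hx hx'

theorem exists_refRel_embed (hB : AffB) (p : ℕ) [Fact p.Prime] {k : Type} [Field k]
    [IsAlgClosed k] [CharP k p] [Algebra (ZMod p) k] [Algebra.IsAlgebraic (ZMod p) k]
    {X : Scheme.{0}} [IsIntegral X] [IsNoetherian X] {n : ℕ} (E : Embed k X n)
    (hreg : ∀ x : X, IsRegularLocalRing (X.presheaf.stalk x)) (e : ℕ)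
    (hdim : ∀ x : X, Order.coheight x ≤ ((e + 3 : ℕ) : ℕ∞))
    (hdim2 : ∃ x : X, Order.coheight x = ((e + 3 : ℕ) : ℕ∞))
    (ξ : KChain X (e + 2)) (hξ : IsCycleK ξ) : Nonempty (RefRel (e + 1) ξ) := by
  classical
  obtain ⟨Z, hZ, hav⟩ := exists_avoidK (m := e + 2) hdim ξ
  obtain ⟨c, hc, hZc⟩ := exists_form_avoid E Z hZ
  obtain ⟨hsupp, hunit⟩ := hav (E.U c) hZc
  have hl : E.l c ≠ 0 := af_l_ne_zero E hc
  obtain ⟨hU, -⟩ := E.affine c hl
  obtain ⟨hdom, hregA⟩ := affine_regK (E.U c) hU hc hreg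
  let _ : Algebra k Γ(X, E.U c) := (E.strOn (E.U c)).toAlgebra
  obtain ⟨hft, hd, hpt⟩ := affine_dimK E (e + 3) hdim hdim2 c hc
  obtain ⟨s, hs, hadj⟩ := bf_coords E c hc
  let ι : Type := {x : PointCo X (e + 2) // ξ x ≠ 0}
  have hfin : Finite ι := by
    have h1 : (ξ.support : Set (PointCo X (e + 2))).Finite := ξ.support.finite_toSet
    have h2 : (ξ.support : Set (PointCo X (e + 2))) = {x | ξ x ≠ 0} := by
      ext x
      simp
    rw [h2] at h1
    exact h1.to_subtype
  let F : ι → Type := fun x => (X.residueField x.1.1 : Type)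
  let hfield : ∀ x : ι, Field (F x) := fun x => inferInstanceAs (Field (X.residueField x.1.1))
  let ρ : ∀ x : ι, Γ(X, E.U c) →+* F x := fun x =>
    (X.evaluation (E.U c) x.1.1 (hsupp x.1 x.2)).hom
  have hdimK : ringKrullDim Γ(X, E.U c) = ((e + 3 : ℕ) : WithBot ℕ∞) := hd
  have hcurve : ∀ x : ι, ringKrullDim (Γ(X, E.U c) ⧸ RingHom.ker (ρ x)) = 1 := by
    intro x
    have h1 : (RingHom.ker (ρ x)).IsPrime := RingHom.ker_isPrime (ρ x)
    have h2 := height_add_dim (k := k) (RingHom.ker (ρ x))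
    have h3 : (RingHom.ker (ρ x)).height = ((e + 2 : ℕ) : ℕ∞) := by
      rw [← x.1.2]
      exact (bf_coheight hU (hsupp x.1 x.2)).symm
    rw [h3, hdimK] at h2
    exact bf_dim_sub (e + 2) 1 h2
  obtain ⟨κ, hκ, cls, Q, hnone, hQ, hQx, hH⟩ := hB p k Γ(X, E.U c) e hdimK
    (Fin.cons 1 s : Fin (n + 1 + 1) → Γ(X, E.U c)) (Fin.cons_zero _ _) hadj F ρ
    (fun x => bf_isFrac hU (hsupp x.1 x.2)) hcurve
    (fun x x' h => Subtype.ext (Subtype.ext (bf_eq_of_ker hU (hsupp x.1 x.2) (hsupp x'.1 x'.2) h)))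
    (fun x => (Additive.toMul (ξ x.1) : (X.residueField x.1.1)ˣ))
    (fun x v hk hv => centre_outside E c (hsupp x.1 x.2) (Additive.toMul (ξ x.1))
      (fun y hy h => hunit x.1 x.2 y hy h) v
      (fun a => by rw [← bf_kres E c (hsupp x.1 x.2) a]; exact hk a) hv)
    (by
      intro z
      obtain ⟨y, hy, hcoh, hzy⟩ := hpt z
      obtain ⟨m, hm1, hm2, hm3⟩ := hξ y hcoh
      have hm0 : ∀ x : PointCo X (e + 2), ξ x = 0 → m x = 0 := by
        intro x hx
        by_cases hxy : x.1 ⤳ y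
        · have h1 := hm2 x hxy
          rw [hx] at h1
          exact bf_isOrdAt_one hxy _ h1
        · exact hm1 x hxy
      refine ⟨Finsupp.comapDomain (fun x : ι => x.1) m Subtype.val_injective.injOn, ?_, ?_⟩
      · intro x
        change IsOrdR (ρ x) z _ (m x.1)
        by_cases hxy : x.1.1 ⤳ y
        · obtain ⟨a, b, ha, hb, hab, hm⟩ := ord_chart E c hc (hsupp x.1 x.2) hy hxy
            (Additive.toMul (ξ x.1)) (m x.1) (hm2 x.1 hxy) z hzy
          exact ⟨a, b, ha, hb, hab, hm⟩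
        · obtain ⟨a, b, hb, hab⟩ := bf_isFrac hU (hsupp x.1 x.2)
            ((Additive.toMul (ξ x.1) : (X.residueField x.1.1)ˣ) : X.residueField x.1.1)
          have hnle : ¬ RingHom.ker (ρ x) ≤ RingHom.ker z := by
            intro hle
            apply hxy
            apply (specializes_iff_chart (E.U c) hU hy (hsupp x.1 x.2)).2
            intro a ha
            exact (hzy a).1 (hle ha)
          have ha : (X.evaluation (E.U c) x.1.1 (hsupp x.1 x.2)).hom a ≠ 0 := by
            rw [← hab]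
            exact mul_ne_zero (Units.ne_zero _) hb
          refine ⟨a, b, ha, hb, hab, ?_⟩
          rw [hm1 x.1 hxy, ordPt_eq_zero_of_not_le z _ hnle a,
            ordPt_eq_zero_of_not_le z _ hnle b, sub_self]
      · rw [← hm3]
        exact Finsupp.sum_comapDomain (fun x : ι => x.1) m (fun _ a => a) ⟨fun x hx => hx,
          Subtype.val_injective.injOn, fun x hx => ⟨⟨x, fun h0 =>
            Finsupp.mem_support_iff.1 hx (hm0 x h0)⟩, hx, rfl⟩⟩)
  -- the classes
  let clsX : PointCo X (e + 2) → Option κ := fun x => if h : ξ x ≠ 0 then cls ⟨x, h⟩ else none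
  have hclsX : ∀ (x : PointCo X (e + 2)) (h : ξ x ≠ 0), clsX x = cls ⟨x, h⟩ := fun x h => dif_pos h
  have hcls0 : ∀ (x : PointCo X (e + 2)) (q : κ), clsX x = some q →
      ∃ h : ξ x ≠ 0, cls ⟨x, h⟩ = some q := by
    intro x q hx
    by_cases h : ξ x ≠ 0
    · exact ⟨h, by rw [← hclsX x h]; exact hx⟩
    · have h1 : clsX x = none := dif_neg h
      rw [h1] at hx
      exact absurd hx (by simp)
  have hmain : ∀ q : κ, ∃ (y : PointCo X (e + 1)) (N r : ℕ)
      (f g : Fin r → (X.residueField y.1)ˣ), 0 < N ∧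
      (∀ x : PointCo X (e + 2), clsX x = some q → ∃ (h : y.1 ⤳ x.1)
        (V : ValuationSubring (X.residueField y.1)), Dominates h V ∧
        (∀ V', Dominates h V' → V' = V) ∧
        ∀ z : IsLocalRing.ResidueField V, ∃ (b : X.presheaf.stalk x.1) (b' : V),
          (b' : X.residueField y.1) = evalAt h b ∧ IsLocalRing.residue V b' = z) ∧
      ∀ (x : PointCo X (e + 2)) (h : y.1 ⤳ x.1)
        (V : ValuationSubring (X.residueField y.1)), Dominates h V →
        ∃ t : Fin r → (IsLocalRing.ResidueField V)ˣ, (∀ i, IsTameVal V (f i) (g i) (t i)) ∧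
          (clsX x = some q → ∀ (u : (X.presheaf.stalk x.1)ˣ) (u' : V),
            (X.residue x.1).hom u =
              ((Additive.toMul (ξ x) : (X.residueField x.1)ˣ) : X.residueField x.1) →
            (u' : X.residueField y.1) = evalAt h u →
            ((∏ i, t i : (IsLocalRing.ResidueField V)ˣ) : IsLocalRing.ResidueField V) =
              IsLocalRing.residue V u' ^ N) ∧
          (clsX x ≠ some q → ∏ i, t i = 1) := by
    intro q
    obtain ⟨hQp, hQ2⟩ := hQ q
    have hQh : (Q q).height = ((e + 1 : ℕ) : ℕ∞) := by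
      have h2 := height_add_dim (k := k) (Q q)
      rw [hQ2, hdimK] at h2
      exact bf_height_sub (e + 1) 2 h2
    refine ur_class E e hdim hdim2 c hc s hs (Q q) hQp hQh ξ {x | clsX x = some q}
      (fun x hx => hsupp x (hcls0 x q hx).1)
      (fun x hx => hQx ⟨x, (hcls0 x q hx).1⟩ q (hcls0 x q hx).2) ?_
    intro K _ τ hτ hτk
    obtain ⟨Ha, N, hN, r, f, g, hfg, Hb⟩ := hH q K τ hτ hτk
    refine ⟨?_, N, hN, r, f, g, hfg, ?_⟩
    · intro x hx
      obtain ⟨V, hV, -, hVu, φ, hφ, hφb⟩ := Ha ⟨x, (hcls0 x q hx).1⟩ (hcls0 x q hx).2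
      exact ⟨V, hV, hVu, φ, hφ, hφb⟩
    · intro V hV
      obtain ⟨t, ht, h1, h2⟩ := Hb V hV
      refine ⟨t, ht, ?_, ?_⟩
      · intro x hx hd φ hφ
        exact h1 ⟨x, (hcls0 x q hx).1⟩ (hcls0 x q hx).2 hd φ hφ
      · intro h3
        apply h2
        intro x hx hd
        refine h3 x.1 ?_ hd
        change clsX x.1 = some q
        rw [hclsX x.1 x.2]
        exact hx
  choose y N r f g hN hsp htame using hmain
  exact ⟨{
    cl := κ
    fin := hκ
    s := y
    r := r
    f := f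
    g := g
    N := N
    pos := hN
    cls := clsX
    tors := by
      intro x hx
      by_cases h : ξ x ≠ 0
      · rw [hclsX x h] at hx
        obtain ⟨M, hM, hMx⟩ := hnone ⟨x, h⟩ hx
        exact ⟨M, hM, hMx⟩
      · exact ⟨1, one_pos, by rw [not_not.1 h, smul_zero]⟩
    sp := fun x c hx => hsp c x hx
    tame := fun c x h V hV => htame c x h V hV }⟩

/-- U-18 : the refined relation over an algebraically closed field. -/
theorem exists_refRel (p : ℕ) [Fact p.Prime] (k : Type) [Field k] [IsAlgClosed k]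
    [Algebra (ZMod p) k] [Algebra.IsAlgebraic (ZMod p) k] (n e : ℕ)
    (X : Scheme.{0}) [IsIntegral X] [IsNoetherian X] (i : X ⟶ PN k n) [IsClosedImmersion i]
    (hreg : ∀ x : X, IsRegularLocalRing (X.presheaf.stalk x))
    (hdim : ∀ x : X, Order.coheight x ≤ ((e + 3 : ℕ) : ℕ∞))
    (hdim2 : ∃ x : X, Order.coheight x = ((e + 3 : ℕ) : ℕ∞))
    (ξ : KChain X (e + 2)) (hξ : IsCycleK ξ) : Nonempty (RefRel (e + 1) ξ) := by
  have hp : CharP k p := charP_of_injective_algebraMap (algebraMap (ZMod p) k).injective p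
  obtain ⟨E⟩ := exists_embed k n X i
  exact exists_refRel_embed (affB thmN) p E hreg e hdim hdim2 ξ hξ

end Pool.Agent.K1
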