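import Pool.Agent.K1.UBase
import Pool.Agent.K1.UPull
import Pool.Agent.K1.UCycle
import Pool.Agent.K1.UDescentK
import Pool.Agent.K1.URefRel

/-!
The final theorem: zero-cycles and `K_1` in dimension at least three, over every algebraic
extension of a prime field.
-/

set_option autoImplicit false

open AlgebraicGeometry CategoryTheory

attribute [local instance] MvPolynomial.gradedAlgebra

namespace Pool.Agent.K1

theorem K1_zero_cycles_field (p : ℕ) [Fact p.Prime] (F : Type) [Field F]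
    [Algebra (ZMod p) F] [Algebra.IsAlgebraic (ZMod p) F] (n e : ℕ)
    (X : Scheme.{0}) [IsIntegral X] [IsNoetherian X] (i : X ⟶ PN F n) [IsClosedImmersion i]
    (hreg : ∀ x : X, IsRegularLocalRing (X.presheaf.stalk x))
    (hdim : ∀ x : X, Order.coheight x ≤ ((e + 3 : ℕ) : ℕ∞))
    (hdim2 : ∃ x : X, Order.coheight x = ((e + 3 : ℕ) : ℕ∞))
    (ξ : KChain X (e + 2)) (hξ : IsCycleK ξ) :
    ∃ N : ℕ, 0 < N ∧ N • ξ ∈ bdChains X (e + 1) := by
  let k := AlgebraicClosure F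
  have hperf : PerfectField F := Algebra.IsAlgebraic.perfectField (K := ZMod p)
  have hkalg : Algebra.IsAlgebraic (ZMod p) k := Algebra.IsAlgebraic.trans (ZMod p) F k
  obtain ⟨F', hF', hFk, Y, hY, π, i', hperf', halg', hi', hYn, ⟨C⟩⟩ :=
    exists_constCov F k n X i hreg
  have hregY : ∀ y : Y, IsRegularLocalRing (Y.presheaf.stalk y) := fun y =>
    isRegular_pi C.P y (hreg (π y))
  have hdimY : ∀ y : Y, Order.coheight y ≤ ((e + 3 : ℕ) : ℕ∞) := fun y => by
    rw [← coheight_pi C.P y]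
    exact hdim _
  obtain ⟨x₂, hx₂⟩ := hdim2
  obtain ⟨y₂, hy₂⟩ := C.P.surj x₂
  have hdim2Y : ∃ y : Y, Order.coheight y = ((e + 3 : ℕ) : ℕ∞) :=
    ⟨y₂, by rw [← coheight_pi C.P y₂, hy₂, hx₂]⟩
  obtain ⟨η, hη⟩ := exists_pullK C.P ξ
  have hηc := isCycleK_pull C.P hreg hregY ξ hξ η hη
  obtain ⟨R⟩ := exists_refRel p k n e Y i' hregY hdimY hdim2Y η hηc
  obtain ⟨h1, -, -⟩ := dprojStr_props n F
  exact descentK C (i ≫ dprojStr n F) (e + 1) ξ η hη R

end Pool.Agent.K1
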